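import Pool.Agent.YTDM.P32

/- source: Pool.Agent.YTDA.RedStat -/

/-!
# Test configurations with reduced central fibre
-/

set_option autoImplicit false

namespace Pool.Agent.YTDA

open Complex Set Topology ContDiff Manifold Module MvPolynomial
open Pool.Agent.YTD

noncomputable section

namespace LineBundle

variable {n : ℕ} {M : Type} [TopologicalSpace M] [ChartedSpace (E n) M] {L : LineBundle n M}

/-- The central fibre is reduced: the graded ring `⊕ F k l / F k (l + 1)` of the central fibre has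
no nilpotent homogeneous elements except zero. -/
def TestConfiguration.Reduced {r : ℕ} (χ : L.TestConfiguration r) : Prop :=
  ∀ (k : ℕ) (l : ℤ), ∀ f ∈ χ.F k l, ∀ m : ℕ, 0 < m → f ^ m ∈ χ.F (m * k) (m * l + 1) →
    f ∈ χ.F k (l + 1)

/-- A trivial product: the total space is `M × ℂ` and `ℂˣ` acts by scalars on `L ^ r`, with weight
`c`. (If `M` has no holomorphic vector fields, these are all products, because the one-parameter
subgroups of the automorphism group of `(M, L)` consist of scalars.) -/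
def TestConfiguration.IsProduct {r : ℕ} (χ : L.TestConfiguration r) : Prop :=
  ∃ c : ℤ, ∀ (k : ℕ) (l : ℤ), χ.F k l = if l ≤ c * k then L.H0 (r * k) else ⊥

variable {K : Type} [Field K] [Algebra ℂ K] {T : Datum K} {q : ℕ} {D₀ : T.X.Pt →₀ ℤ} {γ : Gam T}

theorem RingIso.φ_pow {B : Type} [CommRing B] [Algebra ℂ B] {S : ℕ → Submodule ℂ B}
    (R : L.RingIso S) {k : ℕ} {f : L.ι → M → ℂ} (hf : f ∈ L.H0 k) {m : ℕ} (hm : 0 < m) :
    f ^ m ∈ L.H0 (m * k) ∧ R.φ (m * k) (f ^ m) = R.φ k f ^ m := by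
  induction m, hm using Nat.le_induction with
  | base => simpa using hf
  | succ m hm ih =>
    rw [pow_succ, Nat.succ_mul, pow_succ]
    exact ⟨L.H0_mul ih.1 hf, by rw [R.φ_mul ih.1 hf, ih.2]⟩

theorem RingIso.φ_injective {B : Type} [CommRing B] [Algebra ℂ B] {S : ℕ → Submodule ℂ B}
    (R : L.RingIso S) {k : ℕ} {f g : L.ι → M → ℂ} (hf : f ∈ L.H0 k) (hg : g ∈ L.H0 k)
    (h : R.φ k f = R.φ k g) : f = g := by
  rw [R.φ_of_mem hf, R.φ_of_mem hg] at h
  exact congrArg Subtype.val ((R.Φ k).injective (Subtype.ext h))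

theorem RingIso.mem_im_iff {B : Type} [CommRing B] [Algebra ℂ B] {S : ℕ → Submodule ℂ B}
    (R : L.RingIso S) {k : ℕ} {W : Submodule ℂ (L.ι → M → ℂ)} (hW : W ≤ L.H0 k)
    {f : L.ι → M → ℂ} (hf : f ∈ L.H0 k) : R.φ k f ∈ R.im k W ↔ f ∈ W := by
  rw [R.mem_im]
  constructor
  · rintro ⟨g, hg, hg', h⟩
    rwa [← R.φ_injective hg' hf h]
  · intro h
    exact ⟨f, h, hf, rfl⟩

theorem RingIso.im_injective {B : Type} [CommRing B] [Algebra ℂ B] {S : ℕ → Submodule ℂ B}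
    (R : L.RingIso S) {k : ℕ} {W W' : Submodule ℂ (L.ι → M → ℂ)} (hW : W ≤ L.H0 k)
    (hW' : W' ≤ L.H0 k) (h : R.im k W = R.im k W') : W = W' := by
  ext f
  constructor
  · intro hf
    rw [← R.mem_im_iff hW' (hW hf), ← h, R.mem_im_iff hW (hW hf)]
    exact hf
  · intro hf
    rw [← R.mem_im_iff hW (hW' hf), h, R.mem_im_iff hW' (hW' hf)]
    exact hf

theorem RingIso.toQ_reduced (R : L.RingIso (γ.secQ q D₀)) {r : ℕ} (χ : L.TestConfiguration r)
    (hred : χ.Reduced) : (R.toQ χ).Reduced := by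
  intro N l y hy m hm hym
  rw [R.toQ_F] at hy hym ⊢
  obtain ⟨f, hf, hf', rfl⟩ := R.mem_im.1 hy
  have h1 := R.φ_pow hf' hm
  have e : r * (m * N) = m * (r * N) := by ring
  rw [e, ← h1.2, R.mem_im_iff (by rw [← e]; exact χ.le _ _) h1.1] at hym
  exact (R.mem_im_iff (χ.le _ _) hf').2 (hred N l f hf m hm hym)

theorem RingIso.toQ_product (R : L.RingIso (γ.secQ q D₀)) {r : ℕ} (χ : L.TestConfiguration r) :
    χ.IsProduct ↔ ∃ c : ℤ, ∀ (N : ℕ) (l : ℤ),
      (R.toQ χ).F N l = if l ≤ c * N then γ.secQ q D₀ (r * N) else ⊥ := by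
  refine exists_congr fun c => forall_congr' fun N => forall_congr' fun l => ?_
  rw [R.toQ_F]
  constructor
  · intro h
    rw [h]
    split_ifs
    · exact R.im_H0 _
    · exact R.im_bot _
  · intro h
    apply R.im_injective (χ.le N l)
    · split_ifs
      · exact le_rfl
      · exact bot_le
    · rw [h]
      split_ifs
      · exact (R.im_H0 _).symm
      · exact (R.im_bot _).symm

/-- The asymptotic expansions of the two test configurations agree. -/
theorem toQ_expansion {M : Type} [TopologicalSpace M] [ChartedSpace (E 4) M] {L : LineBundle 4 M}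
    (R : L.RingIso (γ.secQ q D₀)) {r : ℕ} (χ : L.TestConfiguration r)
    {a₀ a₁ b₀ b₁ c₀ : ℝ} (hE : χ.Expansion a₀ a₁ b₀ b₁ c₀) :
    (R.toQ χ).Expansion a₀ a₁ b₀ b₁ c₀ := by
  obtain ⟨⟨C₁, h₁⟩, ⟨C₂, h₂⟩, ⟨C₃, h₃⟩⟩ := hE
  refine ⟨⟨C₁, ?_⟩, ⟨C₂, ?_⟩, ⟨C₃, ?_⟩⟩
  · filter_upwards [h₁, Filter.eventually_gt_atTop 0] with k hk hk0
    have hk' : (0 : ℝ) < k := by exact_mod_cast hk0
    rw [R.toQ_dimN]
    have e1 : a₀ * (k : ℝ) ^ 4 + a₁ * k ^ 3 = k ^ 4 * (a₀ + a₁ / k) := by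
      field_simp
    have e2 : C₁ * (k : ℝ) ^ 2 = C₁ * (k ^ 4 / k ^ 2) := by
      field_simp
    rw [e1, e2]
    exact hk
  · filter_upwards [h₂, Filter.eventually_gt_atTop 0] with k hk hk0
    have hk' : (0 : ℝ) < k := by exact_mod_cast hk0
    rw [R.toQ_tr]
    have e1 : b₀ * (k : ℝ) ^ 5 + b₁ * k ^ 4 = k ^ (4 + 1) * (b₀ + b₁ / k) := by
      have h7 : (k : ℝ) ^ (4 + 1) * (b₁ / k) = b₁ * k ^ 4 := by
        rw [pow_succ]
        field_simp
      rw [mul_add, h7]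
      ring
    have e2 : C₂ * (k : ℝ) ^ 3 = C₂ * (k ^ (4 + 1) / k ^ 2) := by
      have h7 : (k : ℝ) ^ (4 + 1) = k ^ 3 * k ^ 2 := by ring
      rw [h7, mul_div_assoc, div_self (by positivity), mul_one]
    rw [e1, e2]
    exact hk
  · filter_upwards [h₃] with k hk
    rw [R.toQ_tr]
    exact hk

/-- The Donaldson-Futaki invariant of the test configurations of `(M, L)`. -/
theorem fut_of_ringIso {M : Type} [TopologicalSpace M] [ChartedSpace (E 4) M] {L : LineBundle 4 M}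
    (R : L.RingIso (γ.secQ q D₀)) (hfix : γ.Fixes D₀) (hD : T.X.deg D₀ = 105 * T.t * q)
    (hq : 0 < q) {r : ℕ} (hr : 0 < r) (χ : L.TestConfiguration r) {a₀ a₁ b₀ b₁ c₀ : ℝ}
    (hE : χ.Expansion a₀ a₁ b₀ b₁ c₀) : 0 ≤ (a₁ * b₀ - a₀ * b₁) / a₀ ^ 2 ∧
      (χ.Reduced → ((a₁ * b₀ - a₀ * b₁) / a₀ ^ 2 = 0 ↔ χ.IsProduct)) := by
  have hE' := toQ_expansion R χ hE
  refine ⟨(R.toQ χ).fut_nonneg hfix hD hq hr hE', fun hred => ?_⟩
  rw [(R.toQ χ).reduced_fut hfix hD hq hr (R.toQ_reduced χ hred) hE', R.toQ_product χ]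

end LineBundle

end

end Pool.Agent.YTDA
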