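import Mathlib

/- source: Pool.Agent.YTD.Coupling -/

section

/-!
The coupling lemma: if `h(a₁+a₂) ≥ f₁(a₁) + f₂(a₂)` for all `a₁ ≤ A₁`, `a₂ ≤ A₂`, then the
average of `h` over `[0, A₁+A₂]` is at least the sum of the averages of `f₁` and `f₂`.
-/

namespace Pool.Agent.YTD

open Finset

/-- average of `f` over `0,...,A`. -/
noncomputable def avg (A : ℕ) (f : ℕ → ℝ) : ℝ := (∑ a ∈ range (A + 1), f a) / (A + 1)

theorem inv_choose_pascal (n k : ℕ) (hk : k ≤ n) :
    (1 : ℝ) / n.choose k = (n + 1) / (n + 2) *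
      (1 / (n + 1).choose k + 1 / (n + 1).choose (k + 1)) := by
  have h1 : ((n + 1).choose k : ℝ) * (n + 1 - k) = (n + 1) * n.choose k := by
    have := Nat.add_one_mul_choose_eq n k
    have h2 := Nat.choose_mul_succ_eq n k
    have h3 : ((n.choose k * (n + 1) : ℕ) : ℝ) = (((n + 1).choose k * (n + 1 - k) : ℕ) : ℝ) := by
      exact_mod_cast h2
    push_cast [Nat.cast_sub (show k ≤ n + 1 by omega)] at h3
    linarith
  have h2 : ((n + 1).choose (k + 1) : ℝ) * (k + 1) = (n + 1) * n.choose k := by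
    have := Nat.add_one_mul_choose_eq n k
    have h3 : (((n + 1) * n.choose k : ℕ) : ℝ) = (((n + 1).choose (k + 1) * (k + 1) : ℕ) : ℝ) := by
      exact_mod_cast this
    push_cast at h3
    linarith
  have hk' : (k : ℝ) ≤ n := by exact_mod_cast hk
  have p1 : (0 : ℝ) < n.choose k := by exact_mod_cast Nat.choose_pos hk
  have p2 : (0 : ℝ) < (n + 1).choose k := by exact_mod_cast Nat.choose_pos (by omega : k ≤ n + 1)
  have p3 : (0 : ℝ) < (n + 1).choose (k + 1) := by
    exact_mod_cast Nat.choose_pos (by omega : k + 1 ≤ n + 1)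
  have e1 : (1 : ℝ) / (n + 1).choose k = (n + 1 - k) / ((n + 1) * n.choose k) := by
    rw [← h1]
    field_simp
    rw [div_self]
    linarith
  have e2 : (1 : ℝ) / (n + 1).choose (k + 1) = (k + 1) / ((n + 1) * n.choose k) := by
    rw [← h2]
    field_simp
  rw [e1, e2]
  field_simp
  ring

theorem sum_choose_div (A : ℕ) (a : ℕ) (ha : a ≤ A) (B : ℕ) :
    ∑ b ∈ range (B + 1), (B.choose b : ℝ) / (A + B).choose (a + b) =
      (A + B + 1) / ((A + 1) * A.choose a) := by
  induction B with
  | zero =>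
    have p1 : (0 : ℝ) < A.choose a := by exact_mod_cast Nat.choose_pos ha
    simp only [zero_add, range_one, sum_singleton, Nat.choose_zero_right, Nat.cast_one, add_zero,
      Nat.cast_zero]
    field_simp
  | succ B ih =>
    have key : ∑ b ∈ range (B + 1), (B.choose b : ℝ) / (A + B).choose (a + b) =
        (A + B + 1) / (A + B + 2) *
          ∑ b ∈ range (B + 2), ((B + 1).choose b : ℝ) / (A + (B + 1)).choose (a + b) := by
      have e1 : ∀ b ∈ range (B + 1), (B.choose b : ℝ) / (A + B).choose (a + b) =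
          (A + B + 1) / (A + B + 2) * ((B.choose b : ℝ) / (A + (B + 1)).choose (a + b) +
            (B.choose b : ℝ) / (A + (B + 1)).choose (a + (b + 1))) := by
        intro b hb
        have hb' : b ≤ B := by
          have := mem_range.1 hb
          omega
        have := inv_choose_pascal (A + B) (a + b) (by omega)
        rw [div_eq_mul_one_div, this]
        push_cast
        rw [show A + (B + 1) = A + B + 1 by ring, show a + (b + 1) = a + b + 1 by ring]
        ring
      rw [sum_congr rfl e1, ← mul_sum]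
      congr 1
      rw [sum_add_distrib]
      rw [sum_range_succ' (fun b => ((B + 1).choose b : ℝ) / (A + (B + 1)).choose (a + b)) (B + 1)]
      have e2 : ∀ b ∈ range (B + 1), ((B + 1).choose (b + 1) : ℝ) /
          (A + (B + 1)).choose (a + (b + 1)) =
          (B.choose b : ℝ) / (A + (B + 1)).choose (a + (b + 1)) +
          (B.choose (b + 1) : ℝ) / (A + (B + 1)).choose (a + (b + 1)) := by
        intro b _
        rw [Nat.choose_succ_succ]
        push_cast
        ring
      rw [sum_congr rfl e2, sum_add_distrib]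
      have e3 : ∑ b ∈ range (B + 1), (B.choose (b + 1) : ℝ) /
          (A + (B + 1)).choose (a + (b + 1)) + (((B + 1).choose 0 : ℕ) : ℝ) /
          (A + (B + 1)).choose (a + 0) =
          ∑ b ∈ range (B + 1), (B.choose b : ℝ) / (A + (B + 1)).choose (a + b) := by
        have h := sum_range_succ'
          (fun b => (B.choose b : ℝ) / (A + (B + 1)).choose (a + b)) (B + 1)
        rw [sum_range_succ] at h
        simp only [Nat.choose_succ_self, Nat.cast_zero, zero_div, add_zero,
          Nat.choose_zero_right] at h ⊢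
        linarith
      linarith
    rw [ih] at key
    have p1 : (0 : ℝ) < A.choose a := by exact_mod_cast Nat.choose_pos ha
    have p2 : (0 : ℝ) < (A : ℝ) + B + 1 := by positivity
    have p3 : (0 : ℝ) < (A : ℝ) + B + 2 := by positivity
    have : ∑ b ∈ range (B + 2), ((B + 1).choose b : ℝ) / (A + (B + 1)).choose (a + b) =
        (A + B + 2) / (A + B + 1) * ((A + B + 1) / ((A + 1) * A.choose a)) := by
      rw [key]
      field_simp
    rw [this]
    push_cast
    field_simp
    ring

/-- the coupling lemma. -/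
theorem avg_add_le {A B : ℕ} {f g h : ℕ → ℝ}
    (H : ∀ a ≤ A, ∀ b ≤ B, f a + g b ≤ h (a + b)) :
    avg A f + avg B g ≤ avg (A + B) h := by
  -- weights
  let w : ℕ → ℕ → ℝ := fun a b => (A.choose a : ℝ) * (B.choose b) / (A + B).choose (a + b)
  have hw : ∀ a b, 0 ≤ w a b := fun a b => by positivity
  have hw1 : ∀ a ≤ A, ∑ b ∈ range (B + 1), w a b = (A + B + 1) / (A + 1) := by
    intro a ha
    have p1 : (0 : ℝ) < A.choose a := by exact_mod_cast Nat.choose_pos ha
    have : ∑ b ∈ range (B + 1), w a b = (A.choose a : ℝ) *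
        ∑ b ∈ range (B + 1), (B.choose b : ℝ) / (A + B).choose (a + b) := by
      rw [mul_sum]
      apply sum_congr rfl
      intro b _
      simp only [w]
      ring
    rw [this, sum_choose_div A a ha B]
    field_simp
  have hw2 : ∀ b ≤ B, ∑ a ∈ range (A + 1), w a b = (A + B + 1) / (B + 1) := by
    intro b hb
    have p1 : (0 : ℝ) < B.choose b := by exact_mod_cast Nat.choose_pos hb
    have : ∑ a ∈ range (A + 1), w a b = (B.choose b : ℝ) *
        ∑ a ∈ range (A + 1), (A.choose a : ℝ) / (B + A).choose (b + a) := by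
      rw [mul_sum]
      apply sum_congr rfl
      intro a _
      simp only [w]
      rw [add_comm A B, add_comm a b]
      ring
    rw [this, sum_choose_div B b hb A]
    field_simp
    ring
  have hw3 : ∀ c ≤ A + B, ∑ ab ∈ antidiagonal c, w ab.1 ab.2 = 1 := by
    intro c hc
    have p1 : (0 : ℝ) < (A + B).choose c := by exact_mod_cast Nat.choose_pos hc
    have : ∑ ab ∈ antidiagonal c, w ab.1 ab.2 =
        (∑ ab ∈ antidiagonal c, ((A.choose ab.1 * B.choose ab.2 : ℕ) : ℝ)) / (A + B).choose c := by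
      rw [sum_div]
      apply sum_congr rfl
      rintro ⟨a, b⟩ hab
      have := HasAntidiagonal.mem_antidiagonal.1 hab
      simp only at this
      simp only [w, this]
      push_cast
      ring
    rw [this, ← Nat.cast_sum, ← Nat.add_choose_eq]
    field_simp
  -- total
  have T : ∑ a ∈ range (A + 1), ∑ b ∈ range (B + 1), w a b * (f a + g b) ≤
      ∑ c ∈ range (A + B + 1), h c := by
    have e1 : ∑ c ∈ range (A + B + 1), h c =
        ∑ c ∈ range (A + B + 1), ∑ ab ∈ antidiagonal c, w ab.1 ab.2 * h (ab.1 + ab.2) := by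
      apply sum_congr rfl
      intro c hc
      have hc' : c ≤ A + B := by
        have := mem_range.1 hc
        omega
      rw [show ∑ ab ∈ antidiagonal c, w ab.1 ab.2 * h (ab.1 + ab.2) =
        ∑ ab ∈ antidiagonal c, w ab.1 ab.2 * h c from by
          apply sum_congr rfl
          rintro ⟨a, b⟩ hab
          rw [HasAntidiagonal.mem_antidiagonal.1 hab], ← sum_mul, hw3 c hc', one_mul]
    rw [e1]
    have e2 : ∑ a ∈ range (A + 1), ∑ b ∈ range (B + 1), w a b * (f a + g b) ≤
        ∑ a ∈ range (A + 1), ∑ b ∈ range (B + 1), w a b * h (a + b) := by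
      apply sum_le_sum
      intro a ha
      apply sum_le_sum
      intro b hb
      apply mul_le_mul_of_nonneg_left _ (hw a b)
      apply H
      · have := mem_range.1 ha
        omega
      · have := mem_range.1 hb
        omega
    refine e2.trans (le_of_eq ?_)
    rw [← sum_product', sum_sigma']
    -- reindex
    have e4 : ∑ x ∈ (range (A + B + 1)).sigma (fun c => antidiagonal c),
        w x.2.1 x.2.2 * h (x.2.1 + x.2.2) =
        ∑ x ∈ ((range (A + B + 1)).sigma (fun c => antidiagonal c)).filter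
          (fun x => x.2.1 ≤ A ∧ x.2.2 ≤ B), w x.2.1 x.2.2 * h (x.2.1 + x.2.2) := by
      symm
      apply sum_subset (filter_subset _ _)
      rintro ⟨c, a, b⟩ hx hx'
      have : ¬ (a ≤ A ∧ b ≤ B) := fun h => hx' (mem_filter.2 ⟨hx, h⟩)
      have h0 : w a b = 0 := by
        simp only [w]
        by_cases ha : a ≤ A
        · have hb : ¬ b ≤ B := fun hb => this ⟨ha, hb⟩
          rw [Nat.choose_eq_zero_of_lt (not_le.1 hb)]
          simp
        · rw [Nat.choose_eq_zero_of_lt (not_le.1 ha)]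
          simp
      simp only [h0, zero_mul]
    rw [e4]
    refine sum_bij' (fun x _ => (⟨x.1 + x.2, (x.1, x.2)⟩ : Σ _ : ℕ, ℕ × ℕ)) (fun x _ => x.2)
      ?_ ?_ ?_ ?_ ?_
    · rintro ⟨a, b⟩ hx
      simp only [mem_product, mem_range] at hx
      simp only [mem_filter, mem_sigma, mem_range, HasAntidiagonal.mem_antidiagonal]
      refine ⟨⟨?_, trivial⟩, ?_, ?_⟩
      · show a + b < A + B + 1
        omega
      · show a ≤ A
        omega
      · show b ≤ B
        omega
    · rintro ⟨c, a, b⟩ hx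
      simp only [mem_filter, mem_sigma, mem_range, HasAntidiagonal.mem_antidiagonal] at hx
      simp only [mem_product, mem_range]
      omega
    · rintro ⟨a, b⟩ hx
      rfl
    · rintro ⟨c, a, b⟩ hx
      simp only [mem_filter, mem_sigma, mem_range, HasAntidiagonal.mem_antidiagonal] at hx
      obtain ⟨⟨_, rfl⟩, _⟩ := hx
      rfl
    · rintro ⟨a, b⟩ hx
      rfl
  -- compute the left hand side
  have L : ∑ a ∈ range (A + 1), ∑ b ∈ range (B + 1), w a b * (f a + g b) =
      (A + B + 1) / (A + 1) * ∑ a ∈ range (A + 1), f a +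
      (A + B + 1) / (B + 1) * ∑ b ∈ range (B + 1), g b := by
    have e1 : ∑ a ∈ range (A + 1), ∑ b ∈ range (B + 1), w a b * (f a + g b) =
        ∑ a ∈ range (A + 1), (∑ b ∈ range (B + 1), w a b) * f a +
        ∑ a ∈ range (A + 1), ∑ b ∈ range (B + 1), w a b * g b := by
      rw [← sum_add_distrib]
      apply sum_congr rfl
      intro a _
      rw [sum_mul, ← sum_add_distrib]
      apply sum_congr rfl
      intro b _
      ring
    rw [e1]
    congr 1
    · rw [mul_sum]
      apply sum_congr rfl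
      intro a ha
      rw [hw1 a (by have := mem_range.1 ha; omega)]
    · rw [sum_comm, mul_sum]
      apply sum_congr rfl
      intro b hb
      rw [← sum_mul, hw2 b (by have := mem_range.1 hb; omega)]
  rw [L] at T
  unfold avg
  have p1 : (0 : ℝ) < (A : ℝ) + 1 := by positivity
  have p2 : (0 : ℝ) < (B : ℝ) + 1 := by positivity
  have p3 : (0 : ℝ) < (A : ℝ) + B + 1 := by positivity
  push_cast
  rw [le_div_iff₀ p3]
  refine le_trans (le_of_eq ?_) T
  field_simp

/-- average over a box. -/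
noncomputable def avg2 (A B : ℕ) (f : ℕ → ℕ → ℝ) : ℝ := avg A fun a => avg B fun b => f a b

theorem avg2_add_le {A₁ A₂ B₁ B₂ : ℕ} {f g h : ℕ → ℕ → ℝ}
    (H : ∀ a₁ ≤ A₁, ∀ a₂ ≤ A₂, ∀ b₁ ≤ B₁, ∀ b₂ ≤ B₂, f a₁ b₁ + g a₂ b₂ ≤ h (a₁ + a₂) (b₁ + b₂)) :
    avg2 A₁ B₁ f + avg2 A₂ B₂ g ≤ avg2 (A₁ + A₂) (B₁ + B₂) h := by
  unfold avg2
  apply avg_add_le
  intro a₁ ha₁ a₂ ha₂
  apply avg_add_le
  intro b₁ hb₁ b₂ hb₂
  exact H a₁ ha₁ a₂ ha₂ b₁ hb₁ b₂ hb₂

theorem avg_mono {A : ℕ} {f g : ℕ → ℝ} (H : ∀ a ≤ A, f a ≤ g a) : avg A f ≤ avg A g := by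
  unfold avg
  apply div_le_div_of_nonneg_right _ (by positivity)
  apply sum_le_sum
  intro a ha
  exact H a (by have := mem_range.1 ha; omega)

theorem avg2_mono {A B : ℕ} {f g : ℕ → ℕ → ℝ} (H : ∀ a ≤ A, ∀ b ≤ B, f a b ≤ g a b) :
    avg2 A B f ≤ avg2 A B g :=
  avg_mono fun a ha => avg_mono fun b hb => H a ha b hb

theorem avg_const (A : ℕ) (c : ℝ) : avg A (fun _ => c) = c := by
  unfold avg
  rw [sum_const, card_range, nsmul_eq_mul]
  push_cast
  have p1 : (0 : ℝ) < (A : ℝ) + 1 := by positivity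
  field_simp

theorem avg2_const (A B : ℕ) (c : ℝ) : avg2 A B (fun _ _ => c) = c := by
  unfold avg2
  simp only [avg_const]

theorem avg_add (A : ℕ) (f g : ℕ → ℝ) : avg A (fun a => f a + g a) = avg A f + avg A g := by
  unfold avg
  rw [sum_add_distrib, add_div]

theorem avg_mul (A : ℕ) (c : ℝ) (f : ℕ → ℝ) : avg A (fun a => c * f a) = c * avg A f := by
  unfold avg
  rw [← mul_sum, mul_div_assoc]

theorem avg2_add (A B : ℕ) (f g : ℕ → ℕ → ℝ) :
    avg2 A B (fun a b => f a b + g a b) = avg2 A B f + avg2 A B g := by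
  unfold avg2
  simp only [avg_add]

theorem avg2_mul (A B : ℕ) (c : ℝ) (f : ℕ → ℕ → ℝ) :
    avg2 A B (fun a b => c * f a b) = c * avg2 A B f := by
  unfold avg2
  simp only [avg_mul]

theorem avg2_eq (A B : ℕ) (f : ℕ → ℕ → ℝ) :
    ((A : ℝ) + 1) * ((B : ℝ) + 1) * avg2 A B f =
      ∑ a ∈ range (A + 1), ∑ b ∈ range (B + 1), f a b := by
  unfold avg2 avg
  rw [← sum_div]
  field_simp

end Pool.Agent.YTD


end

/- source: Pool.Agent.YTD.SeqLem -/

section

/-!
Elementary lemmas on concave sequences.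
-/

namespace Pool.Agent.YTD

open Finset

theorem sum_JJ (g : ℕ → ℝ) (A : ℕ) :
    ∑ a ∈ range A, ((a : ℝ) + 1) * (2 * g (a + 1) - g a - g (a + 2)) =
      (A + 1) * g A - A * g (A + 1) - g 0 := by
  induction A with
  | zero => simp
  | succ A ih =>
    rw [sum_range_succ, ih]
    push_cast
    ring

theorem sum_II (g : ℕ → ℝ) (A : ℕ) :
    ∑ a ∈ range A, ((a : ℝ) + 1) * ((A : ℝ) - a) * (2 * g (a + 1) - g a - g (a + 2)) =
      2 * ∑ a ∈ range (A + 2), g a - (A + 2) * (g 0 + g (A + 1)) := by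
  induction A with
  | zero =>
    simp [sum_range_succ]
  | succ A ih =>
    have h1 := sum_JJ g (A + 1)
    have h2 : ∑ a ∈ range (A + 1), ((a : ℝ) + 1) * (((A + 1 : ℕ) : ℝ) - a) *
        (2 * g (a + 1) - g a - g (a + 2)) =
        ∑ a ∈ range A, ((a : ℝ) + 1) * ((A : ℝ) - a) * (2 * g (a + 1) - g a - g (a + 2)) +
        ∑ a ∈ range (A + 1), ((a : ℝ) + 1) * (2 * g (a + 1) - g a - g (a + 2)) := by
      rw [sum_range_succ, sum_range_succ (fun a : ℕ => ((a : ℝ) + 1) *
        (2 * g (a + 1) - g a - g (a + 2))), ← add_assoc, ← sum_add_distrib]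
      congr 1
      · apply sum_congr rfl
        intro a _
        push_cast
        ring
      · push_cast
        ring
    rw [h2, ih, h1, sum_range_succ _ (A + 2)]
    push_cast
    ring

/-- the defect of concavity controls the variation of the slopes. -/
theorem slope_le (g : ℕ → ℝ) (A : ℕ) (hg : ∀ a < A, g a + g (a + 2) ≤ 2 * g (a + 1)) {h x n : ℕ}
    (hx : h ≤ x + 1) (hxn : x + n + h ≤ A + 1) :
    (h : ℝ) ^ 2 * ((g (x + 1) - g x) - (g (x + n + 1) - g (x + n))) ≤
      2 * ∑ a ∈ range (A + 2), g a - (A + 2) * (g 0 + g (A + 1)) := by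
  rw [← sum_II g A]
  -- telescoping
  have tel : ∀ n : ℕ, (g (x + 1) - g x) - (g (x + n + 1) - g (x + n)) =
      ∑ i ∈ range n, (2 * g (x + i + 1) - g (x + i) - g (x + i + 2)) := by
    intro n
    induction n with
    | zero => simp
    | succ n ih =>
      rw [sum_range_succ, ← ih]
      rw [show x + (n + 1) + 1 = x + n + 2 by ring, show x + (n + 1) = x + n + 1 by ring]
      ring
  have hnn : ∀ a ∈ range A, 0 ≤ ((a : ℝ) + 1) * ((A : ℝ) - a) * (2 * g (a + 1) - g a - g (a + 2)) := by
    intro a ha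
    have ha' := mem_range.1 ha
    have h1 : (a : ℝ) + 1 ≤ A := by exact_mod_cast ha'
    have h2 := hg a ha'
    apply mul_nonneg (mul_nonneg (by positivity) (by linarith)) (by linarith)
  rw [tel n, mul_sum]
  rcases Nat.eq_zero_or_pos n with rfl | hn
  · simp only [range_zero, sum_empty]
    exact sum_nonneg hnn
  rcases Nat.eq_zero_or_pos h with rfl | hh
  · simp only [Nat.cast_zero, ne_eq, OfNat.ofNat_ne_zero, not_false_eq_true, zero_pow, zero_mul,
      sum_const_zero]
    exact sum_nonneg hnn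
  have hsub : (range n).image (fun i => x + i) ⊆ range A := by
    intro a ha
    obtain ⟨i, hi, rfl⟩ := mem_image.1 ha
    have := mem_range.1 hi
    rw [mem_range]
    omega
  refine le_trans ?_ (sum_le_sum_of_subset_of_nonneg hsub (fun a ha _ => hnn a ha))
  rw [sum_image (by intro i _ j _ hij; simp only at hij; omega)]
  apply sum_le_sum
  intro i hi
  have hi' := mem_range.1 hi
  have h2 := hg (x + i) (by omega)
  apply mul_le_mul_of_nonneg_right _ (by linarith)
  have h3 : (h : ℝ) ≤ ((x + i : ℕ) : ℝ) + 1 := by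
    have : h ≤ x + i + 1 := by omega
    exact_mod_cast this
  have h4 : (h : ℝ) ≤ (A : ℝ) - ((x + i : ℕ) : ℝ) := by
    have : h + (x + i) ≤ A := by omega
    have : (h : ℝ) + ((x + i : ℕ) : ℝ) ≤ A := by exact_mod_cast this
    linarith
  rw [pow_two]
  exact mul_le_mul h3 h4 (by positivity) (by positivity)

theorem sum_odd_even (k : ℕ) (H : ℕ → ℝ) : ∑ i ∈ range (2 * k + 1), H i =
      ∑ i ∈ range (k + 1), H (2 * i) + ∑ i ∈ range k, H (2 * i + 1) := by
  induction k with
  | zero => simp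
  | succ k ih =>
    rw [show 2 * (k + 1) + 1 = 2 * k + 1 + 1 + 1 by ring, sum_range_succ, sum_range_succ, ih,
      sum_range_succ (fun i => H (2 * i)) (k + 1), sum_range_succ (fun i => H (2 * i + 1)) k]
    rw [show 2 * (k + 1) = 2 * k + 1 + 1 by ring]
    ring

/-- doubling with explicit gain. -/
theorem avg_double {A : ℕ} {f h : ℕ → ℝ} (h0 : ∀ a ≤ A, 2 * f a ≤ h (2 * a))
    (h1 : ∀ a < A, f a + f (a + 1) ≤ h (2 * a + 1)) :
    (2 * (A : ℝ) + 1) * (avg (2 * A) h - 2 * avg A f) ≥ 2 * avg A f - f 0 - f A := by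
  unfold avg
  rw [sum_odd_even]
  have s0 : ∑ i ∈ range (A + 1), 2 * f i ≤ ∑ i ∈ range (A + 1), h (2 * i) :=
    sum_le_sum fun i hi => h0 i (Nat.lt_succ_iff.1 (mem_range.1 hi))
  have s1 : ∑ i ∈ range A, (f i + f (i + 1)) ≤ ∑ i ∈ range A, h (2 * i + 1) :=
    sum_le_sum fun i hi => h1 i (mem_range.1 hi)
  rw [← mul_sum] at s0
  rw [sum_add_distrib] at s1
  have e0 : ∑ i ∈ range (A + 1), f i = ∑ i ∈ range A, f i + f A := sum_range_succ _ _
  have e1 : ∑ i ∈ range (A + 1), f i = ∑ i ∈ range A, f (i + 1) + f 0 := sum_range_succ' _ _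
  set S := ∑ i ∈ range (A + 1), f i with hS
  set S0 := ∑ i ∈ range A, f i
  set S1 := ∑ i ∈ range A, f (i + 1)
  set H0 := ∑ i ∈ range (A + 1), h (2 * i)
  set H1 := ∑ i ∈ range A, h (2 * i + 1)
  have p1 : (0 : ℝ) < (A : ℝ) + 1 := by positivity
  have p2 : (0 : ℝ) < 2 * (A : ℝ) + 1 := by positivity
  push_cast
  have e2 : (2 * (A : ℝ) + 1) * ((H0 + H1) / (2 * A + 1) - 2 * (S / (A + 1))) =
      (H0 + H1) - (2 * A + 1) * 2 * (S / (A + 1)) := by
    field_simp
  rw [e2]
  have e3 : S = (A + 1) * (S / (A + 1)) := by field_simp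
  set y := S / ((A : ℝ) + 1) with hy
  have : H0 + H1 ≥ 4 * S - f 0 - f A := by linarith
  nlinarith

theorem avg2_double {A B : ℕ} {f h : ℕ → ℕ → ℝ}
    (H : ∀ a ≤ A, ∀ a' ≤ A, ∀ b ≤ B, ∀ b' ≤ B, f a b + f a' b' ≤ h (a + a') (b + b')) :
    (2 * (A : ℝ) + 1) * (avg2 (2 * A) (2 * B) h - 2 * avg2 A B f) ≥
      2 * avg2 A B f - avg B (f 0) - avg B (f A) := by
  unfold avg2
  apply avg_double
  · intro a ha
    have := avg_add_le (A := B) (B := B) (f := f a) (g := f a) (h := h (2 * a)) (by
      intro b hb b' hb'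
      have := H a ha a ha b hb b' hb'
      rwa [← two_mul] at this)
    rw [← two_mul, ← two_mul] at this
    exact this
  · intro a ha
    have := avg_add_le (A := B) (B := B) (f := f a) (g := f (a + 1)) (h := h (2 * a + 1)) (by
      intro b hb b' hb'
      have := H a ha.le (a + 1) ha b hb b' hb'
      rwa [show a + (a + 1) = 2 * a + 1 by ring] at this)
    rwa [← two_mul] at this

theorem avg2_comm (A B : ℕ) (f : ℕ → ℕ → ℝ) :
    avg2 A B f = avg2 B A (fun b a => f a b) := by
  have h1 := avg2_eq A B f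
  have h2 := avg2_eq B A (fun b a => f a b)
  rw [sum_comm] at h1
  rw [← h2] at h1
  have p1 : (0 : ℝ) < ((A : ℝ) + 1) * (B + 1) := by positivity
  have h3 : ((A : ℝ) + 1) * (B + 1) * avg2 A B f =
      ((A : ℝ) + 1) * (B + 1) * avg2 B A (fun b a => f a b) := by
    rw [h1]; ring
  exact mul_left_cancel₀ p1.ne' h3

end Pool.Agent.YTD


end

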