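import Mathlib

/- source: Pool.Agent.YTD.Curve -/

section

/-!
Function fields of smooth projective curves over the complex numbers, presented by their
points and orders of vanishing, with Riemann-Roch in the non-special range.
-/

namespace Pool.Agent.YTD

/-- The function field `K` of a smooth projective curve over `ℂ`, presented by the set `Pt` of
points of the curve and the order of vanishing `ord P f` of a non-zero rational function `f`
at a point `P` (the value `ord P 0` is irrelevant). -/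
structure CurveOrd (K : Type) [Field K] [Algebra ℂ K] where
  Pt : Type
  ord : Pt → K → ℤ
  ord_mul : ∀ (P : Pt) (f g : K), f ≠ 0 → g ≠ 0 → ord P (f * g) = ord P f + ord P g
  ord_add : ∀ (P : Pt) (f g : K), f ≠ 0 → g ≠ 0 → f + g ≠ 0 →
    min (ord P f) (ord P g) ≤ ord P (f + g)
  ord_const : ∀ (P : Pt) (c : ℂ), c ≠ 0 → ord P (algebraMap ℂ K c) = 0
  finite_ord : ∀ f : K, f ≠ 0 → {P : Pt | ord P f ≠ 0}.Finite
  sum_ord : ∀ f : K, f ≠ 0 → ∑ᶠ P, ord P f = 0

namespace CurveOrd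

variable {K : Type} [Field K] [Algebra ℂ K] (X : CurveOrd K)

/-- The degree of a divisor. -/
def deg (D : X.Pt →₀ ℤ) : ℤ := D.sum fun _ n => n

/-- The Riemann-Roch space `L(D) = {f : f = 0 or div f + D ≥ 0}`. -/
def L (D : X.Pt →₀ ℤ) : Submodule ℂ K where
  carrier := {f | f ≠ 0 → ∀ P, 0 ≤ X.ord P f + D P}
  zero_mem' := fun h => (h rfl).elim
  add_mem' := by
    intro f g hf hg h P
    by_cases hf0 : f = 0
    · subst hf0
      rw [zero_add] at h ⊢
      exact hg h P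
    by_cases hg0 : g = 0
    · subst hg0
      rw [add_zero] at h ⊢
      exact hf h P
    have h1 := X.ord_add P f g hf0 hg0 h
    have h2 := hf hf0 P
    have h3 := hg hg0 P
    rcases min_choice (X.ord P f) (X.ord P g) with h4 | h4 <;> rw [h4] at h1 <;> linarith
  smul_mem' := by
    intro c f hf h P
    have hc : c ≠ 0 := by
      rintro rfl
      exact h (zero_smul ℂ f)
    have hf0 : f ≠ 0 := by
      rintro rfl
      exact h (smul_zero c)
    rw [Algebra.smul_def, X.ord_mul P _ _ ((map_ne_zero _).2 hc) hf0, X.ord_const P c hc, zero_add]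
    exact hf hf0 P

end CurveOrd

/-- The function field `K` of a smooth projective curve of genus `genus` over `ℂ`:
the data of `CurveOrd`, together with the Riemann-Roch formula
`dim L(D) = deg D + 1 - genus` for `deg D > 2 genus - 2`. -/
structure Curve (K : Type) [Field K] [Algebra ℂ K] extends CurveOrd K where
  genus : ℕ
  riemann_roch : ∀ D : Pt →₀ ℤ, 2 * (genus : ℤ) - 2 < toCurveOrd.deg D →
    (Module.finrank ℂ (toCurveOrd.L D) : ℤ) = toCurveOrd.deg D + 1 - genus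

namespace CurveOrd

variable {K : Type} [Field K] [Algebra ℂ K] (X : CurveOrd K)

theorem mem_L {D : X.Pt →₀ ℤ} {f : K} : f ∈ X.L D ↔ (f ≠ 0 → ∀ P, 0 ≤ X.ord P f + D P) :=
  Iff.rfl

theorem deg_add (D E : X.Pt →₀ ℤ) : X.deg (D + E) = X.deg D + X.deg E := by
  unfold deg
  exact Finsupp.sum_add_index' (fun _ => rfl) (fun _ _ _ => rfl)

theorem deg_neg (D : X.Pt →₀ ℤ) : X.deg (-D) = - X.deg D := by
  have := X.deg_add D (-D)
  rw [add_neg_cancel] at this
  have h0 : X.deg 0 = 0 := by simp [deg]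
  rw [h0] at this
  linarith

@[simp] theorem deg_zero : X.deg 0 = 0 := by simp [deg]

theorem deg_sub (D E : X.Pt →₀ ℤ) : X.deg (D - E) = X.deg D - X.deg E := by
  rw [sub_eq_add_neg, deg_add, deg_neg, sub_eq_add_neg]

theorem deg_nsmul (n : ℕ) (D : X.Pt →₀ ℤ) : X.deg (n • D) = n * X.deg D := by
  induction n with
  | zero => simp
  | succ n ih => rw [succ_nsmul, deg_add, ih]; push_cast; ring

theorem deg_single (P : X.Pt) (n : ℤ) : X.deg (Finsupp.single P n) = n := by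
  simp [deg]

theorem deg_sum {ι : Type*} (s : Finset ι) (D : ι → X.Pt →₀ ℤ) :
    X.deg (∑ i ∈ s, D i) = ∑ i ∈ s, X.deg (D i) := by
  classical
  induction s using Finset.induction_on with
  | empty => simp
  | insert a s ha ih => rw [Finset.sum_insert ha, Finset.sum_insert ha, deg_add, ih]

theorem deg_nonneg {D : X.Pt →₀ ℤ} (h : ∀ P, 0 ≤ D P) : 0 ≤ X.deg D := by
  unfold deg
  exact Finset.sum_nonneg fun P _ => h P

theorem deg_mono {D E : X.Pt →₀ ℤ} (h : ∀ P, D P ≤ E P) : X.deg D ≤ X.deg E := by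
  have := X.deg_nonneg (D := E - D) (fun P => by simp [h P])
  rw [deg_sub] at this
  linarith

/-- The divisor of a rational function (zero for the zero function). -/
noncomputable def dv (f : K) : X.Pt →₀ ℤ :=
  open Classical in
  if h : f = 0 then 0 else Finsupp.ofSupportFinite (fun P => X.ord P f) (X.finite_ord f h)

theorem dv_apply {f : K} (hf : f ≠ 0) (P : X.Pt) : X.dv f P = X.ord P f := by
  unfold dv
  rw [dif_neg hf]
  rfl

theorem deg_dv {f : K} (hf : f ≠ 0) : X.deg (X.dv f) = 0 := by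
  rw [← X.sum_ord f hf]
  have h : (fun P => X.ord P f) = fun P => X.dv f P := by
    funext P
    rw [dv_apply X hf]
  rw [h]
  unfold deg
  rw [Finsupp.sum]
  symm
  exact finsum_eq_sum_of_support_subset _ (by
    intro P hP
    simpa using hP)

theorem ord_one (P : X.Pt) : X.ord P 1 = 0 := by
  have := X.ord_const P 1 one_ne_zero
  rwa [map_one] at this

theorem ord_inv (P : X.Pt) {f : K} (hf : f ≠ 0) : X.ord P f⁻¹ = - X.ord P f := by
  have := X.ord_mul P f f⁻¹ hf (inv_ne_zero hf)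
  rw [mul_inv_cancel₀ hf, ord_one] at this
  linarith

theorem L_mono {D E : X.Pt →₀ ℤ} (h : ∀ P, D P ≤ E P) : X.L D ≤ X.L E := by
  intro f hf h0 P
  have := hf h0 P
  have := h P
  linarith

theorem L_eq_bot {D : X.Pt →₀ ℤ} (h : X.deg D < 0) : X.L D = ⊥ := by
  rw [eq_bot_iff]
  intro f hf
  by_contra h0
  have h0' : f ≠ 0 := h0
  have h1 : 0 ≤ X.deg (X.dv f + D) := by
    apply X.deg_nonneg
    intro P
    rw [Finsupp.add_apply, X.dv_apply h0']
    exact hf h0' P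
  rw [deg_add, X.deg_dv h0'] at h1
  linarith

theorem mul_mem_L {D E : X.Pt →₀ ℤ} {f g : K} (hf : f ∈ X.L D) (hg : g ∈ X.L E) :
    f * g ∈ X.L (D + E) := by
  intro h P
  have hf0 : f ≠ 0 := left_ne_zero_of_mul h
  have hg0 : g ≠ 0 := right_ne_zero_of_mul h
  rw [X.ord_mul P f g hf0 hg0, Finsupp.add_apply]
  have := hf hf0 P
  have := hg hg0 P
  linarith

/-- Multiplication by a non-zero function identifies `L(D)` with `L(D - div f)`. -/
theorem mul_mem_L_iff {D : X.Pt →₀ ℤ} {f g : K} (hf : f ≠ 0) :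
    f * g ∈ X.L D ↔ g ∈ X.L (D + X.dv f) := by
  constructor
  · intro h hg P
    rw [Finsupp.add_apply, X.dv_apply hf]
    have := h (mul_ne_zero hf hg) P
    rw [X.ord_mul P f g hf hg] at this
    linarith
  · intro h hfg P
    have hg : g ≠ 0 := right_ne_zero_of_mul hfg
    rw [X.ord_mul P f g hf hg]
    have := h hg P
    rw [Finsupp.add_apply, X.dv_apply hf] at this
    linarith

/-- least order of vanishing at `P` of a non-zero element of `W`. -/
noncomputable def bord (W : Submodule ℂ K) (P : X.Pt) : ℤ :=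
  sInf {n : ℤ | ∃ f ∈ W, f ≠ 0 ∧ X.ord P f = n}

section bord

variable {X}
variable {W : Submodule ℂ K} {E : X.Pt →₀ ℤ}

theorem bord_bdd (hW : W ≤ X.L E) (P : X.Pt) :
    BddBelow {n : ℤ | ∃ f ∈ W, f ≠ 0 ∧ X.ord P f = n} := by
  refine ⟨- E P, ?_⟩
  rintro n ⟨f, hf, hf0, rfl⟩
  have := hW hf hf0 P
  linarith

theorem bord_le (hW : W ≤ X.L E) (P : X.Pt) {f : K} (hf : f ∈ W) (hf0 : f ≠ 0) :
    X.bord W P ≤ X.ord P f :=
  csInf_le (bord_bdd hW P) ⟨f, hf, hf0, rfl⟩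

theorem exists_bord (hW : W ≤ X.L E) (hne : W ≠ ⊥) (P : X.Pt) :
    ∃ f ∈ W, f ≠ 0 ∧ X.ord P f = X.bord W P := by
  obtain ⟨f, hf, hf0⟩ := Submodule.exists_mem_ne_zero_of_ne_bot hne
  have hS : {n : ℤ | ∃ f ∈ W, f ≠ 0 ∧ X.ord P f = n}.Nonempty := ⟨_, f, hf, hf0, rfl⟩
  exact Int.csInf_mem hS (bord_bdd hW P)

theorem neg_le_bord (hW : W ≤ X.L E) (hne : W ≠ ⊥) (P : X.Pt) : - E P ≤ X.bord W P := by
  obtain ⟨f, hf, hf0, h⟩ := exists_bord hW hne P
  rw [← h]
  have := hW hf hf0 P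
  linarith

theorem bord_finite (hW : W ≤ X.L E) (hne : W ≠ ⊥) :
    (Function.support fun P => - X.bord W P).Finite := by
  obtain ⟨f, hf, hf0⟩ := Submodule.exists_mem_ne_zero_of_ne_bot hne
  apply ((X.finite_ord f hf0).union E.support.finite_toSet).subset
  intro P hP
  by_contra h
  simp only [Set.mem_union, Set.mem_ofPred_eq, Finset.mem_coe, Finsupp.mem_support_iff,
    not_or, not_not] at h
  have h1 := bord_le hW P hf hf0
  have h2 := neg_le_bord hW hne P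
  rw [h.1] at h1
  rw [h.2] at h2
  apply hP
  show - X.bord W P = 0
  linarith

end bord

/-- The mobile divisor of a linear system `W`. -/
noncomputable def mdiv (W : Submodule ℂ K) : X.Pt →₀ ℤ :=
  open Classical in
  if h : (Function.support fun P => - X.bord W P).Finite then
    Finsupp.ofSupportFinite (fun P => - X.bord W P) h else 0

/-- The mobile degree of a linear system `W`. -/
noncomputable def mdeg (W : Submodule ℂ K) : ℤ := X.deg (X.mdiv W)

section mdiv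

variable {X}
variable {W W' : Submodule ℂ K} {E : X.Pt →₀ ℤ}

theorem mdiv_apply (hW : W ≤ X.L E) (hne : W ≠ ⊥) (P : X.Pt) : X.mdiv W P = - X.bord W P := by
  unfold mdiv
  rw [dif_pos (bord_finite hW hne)]
  rfl

theorem le_L_mdiv (hW : W ≤ X.L E) (hne : W ≠ ⊥) : W ≤ X.L (X.mdiv W) := by
  intro f hf h0 P
  rw [mdiv_apply hW hne]
  have := bord_le hW P hf h0
  linarith

theorem mdiv_le (hW : W ≤ X.L E) (hne : W ≠ ⊥) (P : X.Pt) : X.mdiv W P ≤ E P := by
  rw [mdiv_apply hW hne]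
  have := neg_le_bord hW hne P
  linarith

theorem mdeg_le (hW : W ≤ X.L E) (hne : W ≠ ⊥) : X.mdeg W ≤ X.deg E :=
  X.deg_mono (mdiv_le hW hne)

theorem mdeg_nonneg (hW : W ≤ X.L E) (hne : W ≠ ⊥) : 0 ≤ X.mdeg W := by
  obtain ⟨f, hf, hf0⟩ := Submodule.exists_mem_ne_zero_of_ne_bot hne
  have h : X.deg (- X.dv f) ≤ X.deg (X.mdiv W) := by
    apply X.deg_mono
    intro P
    rw [mdiv_apply hW hne, Finsupp.neg_apply, X.dv_apply hf0]
    have := bord_le hW P hf hf0
    linarith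
  rw [deg_neg, X.deg_dv hf0, neg_zero] at h
  exact h

theorem mdiv_mono (hW' : W' ≤ X.L E) (hWW' : W ≤ W') (hne : W ≠ ⊥) (P : X.Pt) :
    X.mdiv W P ≤ X.mdiv W' P := by
  have hne' : W' ≠ ⊥ := fun h => hne (by rw [eq_bot_iff]; rw [h] at hWW'; exact hWW')
  rw [mdiv_apply (hWW'.trans hW') hne, mdiv_apply hW' hne']
  obtain ⟨f, hf, hf0, h⟩ := exists_bord (hWW'.trans hW') hne P
  have := bord_le hW' P (hWW' hf) hf0
  linarith

theorem mdeg_mono (hW' : W' ≤ X.L E) (hWW' : W ≤ W') (hne : W ≠ ⊥) : X.mdeg W ≤ X.mdeg W' :=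
  X.deg_mono (mdiv_mono hW' hWW' hne)

/-- Superadditivity of the mobile degree. -/
theorem mdeg_mul {W₁ W₂ W₃ : Submodule ℂ K} {E₁ E₂ E₃ : X.Pt →₀ ℤ}
    (h₁ : W₁ ≤ X.L E₁) (h₂ : W₂ ≤ X.L E₂) (h₃ : W₃ ≤ X.L E₃) (hne₁ : W₁ ≠ ⊥) (hne₂ : W₂ ≠ ⊥)
    (hmul : ∀ f ∈ W₁, ∀ g ∈ W₂, f * g ∈ W₃) :
    X.mdeg W₁ + X.mdeg W₂ ≤ X.mdeg W₃ := by
  have hne₃ : W₃ ≠ ⊥ := by
    obtain ⟨f, hf, hf0⟩ := Submodule.exists_mem_ne_zero_of_ne_bot hne₁
    obtain ⟨g, hg, hg0⟩ := Submodule.exists_mem_ne_zero_of_ne_bot hne₂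
    intro h
    have := hmul f hf g hg
    rw [h, Submodule.mem_bot] at this
    exact mul_ne_zero hf0 hg0 this
  unfold mdeg
  rw [← deg_add]
  apply X.deg_mono
  intro P
  rw [Finsupp.add_apply, mdiv_apply h₁ hne₁, mdiv_apply h₂ hne₂, mdiv_apply h₃ hne₃]
  obtain ⟨f, hf, hf0, hf1⟩ := exists_bord h₁ hne₁ P
  obtain ⟨g, hg, hg0, hg1⟩ := exists_bord h₂ hne₂ P
  have := bord_le h₃ P (hmul f hf g hg) (mul_ne_zero hf0 hg0)
  rw [X.ord_mul P f g hf0 hg0] at this
  linarith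

/-- Existence of a pencil with the same base divisor. -/
theorem exists_pencil (hW : W ≤ X.L E) (hne : W ≠ ⊥) :
    ∃ s₀ ∈ W, ∃ s₁ ∈ W, s₀ ≠ 0 ∧ s₁ ≠ 0 ∧
      ∀ P, min (X.ord P s₀) (X.ord P s₁) = X.bord W P := by
  classical
  obtain ⟨s₀, hs₀, hs₀0⟩ := Submodule.exists_mem_ne_zero_of_ne_bot hne
  -- the points where `s₀` vanishes more than necessary
  have hfin : {P | X.ord P s₀ ≠ X.bord W P}.Finite := by
    apply ((X.finite_ord s₀ hs₀0).union (bord_finite hW hne)).subset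
    intro P hP
    by_contra h
    simp only [Set.mem_union, Set.mem_ofPred_eq, Function.mem_support, not_or, not_not] at h
    apply hP
    rw [h.1]
    have := h.2
    linarith
  -- proper subspaces
  let B : X.Pt → Submodule ℂ W := fun P =>
    Submodule.comap W.subtype (X.L (Finsupp.single P (-(X.bord W P + 1)) +
      (X.mdiv W - Finsupp.single P (X.mdiv W P))))
  have hB : ∀ P, ∀ f : W, (f : K) ≠ 0 → (f ∈ B P ↔ X.bord W P + 1 ≤ X.ord P f) := by
    intro P f hf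
    constructor
    · intro h
      have := h hf P
      simp only [Finsupp.coe_add, Finsupp.coe_sub, Pi.add_apply, Pi.sub_apply,
        Finsupp.single_eq_same, Submodule.coe_subtype] at this
      linarith
    · intro h h0 Q
      by_cases hQ : Q = P
      · subst hQ
        simp only [Finsupp.coe_add, Finsupp.coe_sub, Pi.add_apply, Pi.sub_apply,
          Finsupp.single_eq_same, Submodule.coe_subtype]
        linarith
      · simp only [Finsupp.coe_add, Finsupp.coe_sub, Pi.add_apply, Pi.sub_apply,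
          Submodule.coe_subtype]
        rw [Finsupp.single_eq_of_ne hQ, Finsupp.single_eq_of_ne hQ, mdiv_apply hW hne]
        have := bord_le hW Q f.2 hf
        linarith
  have hBtop : ∀ P, B P ≠ ⊤ := by
    intro P h
    obtain ⟨f, hf, hf0, hf1⟩ := exists_bord hW hne P
    have h1 : (⟨f, hf⟩ : W) ∈ B P := by rw [h]; trivial
    have := (hB P ⟨f, hf⟩ hf0).1 h1
    simp only at this
    linarith
  have hcov := Subspace.biUnion_ne_univ_of_top_notMem (k := ℂ) (E := W)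
    (s := insert ⊥ (hfin.toFinset.image B)) (by
      intro h
      rw [Finset.mem_insert] at h
      rcases h with h | h
      · obtain ⟨f, hf, hf0⟩ := Submodule.exists_mem_ne_zero_of_ne_bot hne
        have h1 : (⟨f, hf⟩ : W) ∈ (⊥ : Submodule ℂ W) := by rw [← h]; trivial
        rw [Submodule.mem_bot] at h1
        exact hf0 (congrArg Subtype.val h1)
      · obtain ⟨P, _, hP⟩ := Finset.mem_image.1 h
        exact hBtop P hP)
  obtain ⟨s₁, hs₁⟩ := (Set.ne_univ_iff_exists_notMem _).1 hcov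
  simp only [Set.mem_iUnion, SetLike.mem_coe, not_exists] at hs₁
  have hs₁0 : (s₁ : K) ≠ 0 := by
    intro h
    apply hs₁ ⊥ (Finset.mem_insert_self _ _)
    rw [Submodule.mem_bot]
    exact Subtype.ext h
  refine ⟨s₀, hs₀, s₁, s₁.2, hs₀0, hs₁0, ?_⟩
  intro P
  have h0 := bord_le hW P hs₀ hs₀0
  have h1 := bord_le hW P s₁.2 hs₁0
  by_cases hP : X.ord P s₀ = X.bord W P
  · rw [hP, min_eq_left h1]
  · have h2 : s₁ ∉ B P := hs₁ (B P) (Finset.mem_insert_of_mem
      (Finset.mem_image_of_mem B (hfin.mem_toFinset.2 hP)))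
    rw [hB P s₁ hs₁0, not_le] at h2
    rw [min_eq_right (by linarith)]
    linarith

end mdiv

end CurveOrd

end Pool.Agent.YTD


end

/- source: Pool.Agent.YTD.CurveRR -/

section

namespace Pool.Agent.YTD

open Module

namespace Curve

variable {K : Type} [Field K] [Algebra ℂ K] (X : Curve K)

theorem finite_L (P₀ : X.Pt) (D : X.Pt →₀ ℤ) : FiniteDimensional ℂ (X.L D) := by
  obtain ⟨n, hn⟩ : ∃ n : ℕ, 2 * (X.genus : ℤ) ≤ X.deg D + n :=
    ⟨(2 * (X.genus : ℤ) - X.deg D).toNat, by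
      have := Int.self_le_toNat (2 * (X.genus : ℤ) - X.deg D)
      linarith⟩
  have hdeg : X.deg (D + Finsupp.single P₀ (n : ℤ)) = X.deg D + n := by
    rw [X.deg_add, X.deg_single]
  have h1 := X.riemann_roch (D + Finsupp.single P₀ (n : ℤ)) (by rw [hdeg]; linarith)
  have h2 : 0 < finrank ℂ (X.L (D + Finsupp.single P₀ (n : ℤ))) := by
    rw [hdeg] at h1
    have : (0 : ℤ) < (finrank ℂ (X.L (D + Finsupp.single P₀ (n : ℤ))) : ℤ) := by
      rw [h1]; linarith [Int.natCast_nonneg X.genus]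
    exact_mod_cast this
  have h3 : FiniteDimensional ℂ (X.L (D + Finsupp.single P₀ (n : ℤ))) :=
    Module.finite_of_finrank_pos h2
  exact Submodule.finiteDimensional_of_le (X.L_mono (E := D + Finsupp.single P₀ (n : ℤ)) (by
    classical
    intro P
    rw [Finsupp.add_apply, Finsupp.single_apply]
    split_ifs <;> simp))

theorem finite_of_le (P₀ : X.Pt) {W : Submodule ℂ K} {E : X.Pt →₀ ℤ} (hW : W ≤ X.L E) :
    FiniteDimensional ℂ W :=
  have := X.finite_L P₀ E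
  Submodule.finiteDimensional_of_le hW

theorem L_ne_bot {D : X.Pt →₀ ℤ} (h : 2 * (X.genus : ℤ) ≤ X.deg D) : X.L D ≠ ⊥ := by
  intro h0
  have h1 := X.riemann_roch D (by linarith)
  rw [h0, finrank_bot] at h1
  have := Int.natCast_nonneg X.genus
  push_cast at h1
  linarith

/-- Base point freeness. -/
theorem exists_ord_eq (P₀ : X.Pt) {D : X.Pt →₀ ℤ} (h : 2 * (X.genus : ℤ) ≤ X.deg D) (P : X.Pt) :
    ∃ f ∈ X.L D, f ≠ 0 ∧ X.ord P f = - D P := by
  classical
  have := X.finite_L P₀ D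
  have hle : X.L (D - Finsupp.single P 1) ≤ X.L D := X.L_mono (by
    intro Q
    rw [Finsupp.sub_apply, Finsupp.single_apply]
    split_ifs <;> simp)
  have hne : ¬ (X.L D ≤ X.L (D - Finsupp.single P 1)) := by
    intro h1
    have h2 := le_antisymm h1 hle
    have h3 := X.riemann_roch D (by linarith)
    have h4 := X.riemann_roch (D - Finsupp.single P 1) (by
      rw [X.deg_sub, X.deg_single]; linarith)
    rw [X.deg_sub, X.deg_single, ← h2, h3] at h4
    linarith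
  obtain ⟨f, hf, hf1⟩ := SetLike.not_le_iff_exists.1 hne
  have hf0 : f ≠ 0 := by
    rintro rfl
    exact hf1 (zero_mem _)
  refine ⟨f, hf, hf0, ?_⟩
  rw [X.mem_L] at hf1
  push Not at hf1
  obtain ⟨_, Q, hQ⟩ := hf1
  have h2 := hf hf0 Q
  rw [Finsupp.sub_apply, Finsupp.single_apply] at hQ
  split_ifs at hQ with hPQ
  · subst hPQ
    linarith
  · linarith

theorem bord_L (P₀ : X.Pt) {D : X.Pt →₀ ℤ} (h : 2 * (X.genus : ℤ) ≤ X.deg D) (P : X.Pt) :
    X.bord (X.L D) P = - D P := by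
  apply le_antisymm
  · obtain ⟨f, hf, hf0, hf1⟩ := X.exists_ord_eq P₀ h P
    rw [← hf1]
    exact CurveOrd.bord_le le_rfl P hf hf0
  · exact CurveOrd.neg_le_bord le_rfl (X.L_ne_bot h) P

theorem mdiv_L (P₀ : X.Pt) {D : X.Pt →₀ ℤ} (h : 2 * (X.genus : ℤ) ≤ X.deg D) :
    X.mdiv (X.L D) = D := by
  ext P
  rw [CurveOrd.mdiv_apply le_rfl (X.L_ne_bot h), X.bord_L P₀ h]
  ring

theorem mdeg_L (P₀ : X.Pt) {D : X.Pt →₀ ℤ} (h : 2 * (X.genus : ℤ) ≤ X.deg D) :
    X.mdeg (X.L D) = X.deg D := by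
  unfold CurveOrd.mdeg
  rw [X.mdiv_L P₀ h]

theorem finrank_le_mdeg (P₀ : X.Pt) {W : Submodule ℂ K} {E : X.Pt →₀ ℤ} (hW : W ≤ X.L E)
    (hne : W ≠ ⊥) (h : 2 * (X.genus : ℤ) - 2 < X.mdeg W) :
    (finrank ℂ W : ℤ) ≤ X.mdeg W + 1 - X.genus := by
  have := X.finite_L P₀ (X.mdiv W)
  have h1 := X.riemann_roch (X.mdiv W) h
  have h2 := Submodule.finrank_mono (CurveOrd.le_L_mdiv hW hne)
  have h3 : ((finrank ℂ W : ℕ) : ℤ) ≤ (finrank ℂ (X.L (X.mdiv W)) : ℤ) := by exact_mod_cast h2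
  rw [h1] at h3
  exact h3

theorem finrank_le_genus (P₀ : X.Pt) {W : Submodule ℂ K} {E : X.Pt →₀ ℤ} (hW : W ≤ X.L E)
    (hne : W ≠ ⊥) (h : X.mdeg W ≤ 2 * (X.genus : ℤ) - 2) :
    (finrank ℂ W : ℤ) ≤ X.genus := by
  classical
  set k : ℤ := 2 * (X.genus : ℤ) - 1 - X.mdeg W with hk
  have hk0 : 0 ≤ k := by linarith
  have := X.finite_L P₀ (X.mdiv W + Finsupp.single P₀ k)
  have hdeg : X.deg (X.mdiv W + Finsupp.single P₀ k) = 2 * (X.genus : ℤ) - 1 := by
    rw [X.deg_add, X.deg_single]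
    show X.mdeg W + k = _
    rw [hk]; ring
  have h1 := X.riemann_roch (X.mdiv W + Finsupp.single P₀ k) (by rw [hdeg]; linarith)
  have h2 := Submodule.finrank_mono ((CurveOrd.le_L_mdiv hW hne).trans
    (X.L_mono (E := X.mdiv W + Finsupp.single P₀ k) (by
      intro P
      rw [Finsupp.add_apply, Finsupp.single_apply]
      split_ifs <;> simp [hk0])))
  have h3 : ((finrank ℂ W : ℕ) : ℤ) ≤ (finrank ℂ (X.L (X.mdiv W + Finsupp.single P₀ k)) : ℤ) := by
    exact_mod_cast h2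
  rw [h1, hdeg] at h3
  linarith

/-- The base point free pencil trick. -/
theorem pencil (P₀ : X.Pt) {W : Submodule ℂ K} {E D : X.Pt →₀ ℤ} (hW : W ≤ X.L E)
    (hne : W ≠ ⊥) (hD : X.mdeg W + 2 * (X.genus : ℤ) - 1 ≤ X.deg D) :
    X.L (D + X.mdiv W) ≤ W * X.L D := by
  obtain ⟨s₀, hs₀, s₁, hs₁, hs₀0, hs₁0, hmin⟩ := CurveOrd.exists_pencil hW hne
  have hM := CurveOrd.mdeg_nonneg hW hne
  have := X.finite_L P₀ D
  have := X.finite_L P₀ (D + X.mdiv W)
  have := X.finite_L P₀ (D - X.dv s₀ - X.dv s₁ - X.mdiv W)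
  let m₀ : K →ₗ[ℂ] K := LinearMap.mulLeft ℂ s₀
  let m₁ : K →ₗ[ℂ] K := LinearMap.mulLeft ℂ s₁
  set A := (X.L D).map m₀ with hA
  set B := (X.L D).map m₁ with hB
  have hinj₀ : Function.Injective m₀ := fun a b h => mul_left_cancel₀ hs₀0 h
  have hinj₁ : Function.Injective m₁ := fun a b h => mul_left_cancel₀ hs₁0 h
  have hA1 : finrank ℂ A = finrank ℂ (X.L D) :=
    (LinearEquiv.finrank_eq (Submodule.equivMapOfInjective m₀ hinj₀ (X.L D))).symm
  have hB1 : finrank ℂ B = finrank ℂ (X.L D) :=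
    (LinearEquiv.finrank_eq (Submodule.equivMapOfInjective m₁ hinj₁ (X.L D))).symm
  have hAW : A ≤ W * X.L D := by
    rintro _ ⟨a, ha, rfl⟩
    exact Submodule.mul_mem_mul hs₀ ha
  have hBW : B ≤ W * X.L D := by
    rintro _ ⟨a, ha, rfl⟩
    exact Submodule.mul_mem_mul hs₁ ha
  have hord : ∀ s ∈ W, s ≠ 0 → ∀ a ∈ X.L D, s * a ∈ X.L (D + X.mdiv W) := by
    intro s hs _ a ha
    rw [add_comm]
    exact X.mul_mem_L (CurveOrd.le_L_mdiv hW hne hs) ha
  have hAL : A ≤ X.L (D + X.mdiv W) := by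
    rintro _ ⟨a, ha, rfl⟩
    exact hord s₀ hs₀ hs₀0 a ha
  have hBL : B ≤ X.L (D + X.mdiv W) := by
    rintro _ ⟨a, ha, rfl⟩
    exact hord s₁ hs₁ hs₁0 a ha
  have hAB : A ⊓ B ≤ X.L (D - X.dv s₀ - X.dv s₁ - X.mdiv W) := by
    rintro h ⟨⟨a, ha, rfl⟩, ⟨b, hb, hab⟩⟩ h0 P
    have h0' : s₀ * a ≠ 0 := h0
    have hab' : s₁ * b = s₀ * a := hab
    have ha0 : a ≠ 0 := right_ne_zero_of_mul h0'
    have hb0 : b ≠ 0 := by
      rw [← hab'] at h0'
      exact right_ne_zero_of_mul h0'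
    have e1 := X.ord_mul P s₀ a hs₀0 ha0
    have e2 := X.ord_mul P s₁ b hs₁0 hb0
    rw [hab'] at e2
    have e3 := ha ha0 P
    have e4 := hb hb0 P
    have e5 := hmin P
    show 0 ≤ X.ord P (s₀ * a) + (D - X.dv s₀ - X.dv s₁ - X.mdiv W) P
    rw [Finsupp.sub_apply, Finsupp.sub_apply, Finsupp.sub_apply, X.dv_apply hs₀0,
      X.dv_apply hs₁0, CurveOrd.mdiv_apply hW hne]
    rcases min_choice (X.ord P s₀) (X.ord P s₁) with e6 | e6 <;> rw [e6] at e5 <;> linarith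
  have hdeg2 : X.deg (D - X.dv s₀ - X.dv s₁ - X.mdiv W) = X.deg D - X.mdeg W := by
    rw [X.deg_sub, X.deg_sub, X.deg_sub, X.deg_dv hs₀0, X.deg_dv hs₁0]
    show X.deg D - 0 - 0 - X.mdeg W = _
    ring
  have hdeg3 : X.deg (D + X.mdiv W) = X.deg D + X.mdeg W := by
    rw [X.deg_add]; rfl
  have r1 := X.riemann_roch D (by linarith)
  have r2 := X.riemann_roch _ (show 2 * (X.genus : ℤ) - 2 <
    X.deg (D - X.dv s₀ - X.dv s₁ - X.mdiv W) by rw [hdeg2]; linarith)
  have r3 := X.riemann_roch _ (show 2 * (X.genus : ℤ) - 2 <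
    X.deg (D + X.mdiv W) by rw [hdeg3]; linarith)
  rw [hdeg2] at r2
  rw [hdeg3] at r3
  have r4 := Submodule.finrank_mono hAB
  have : FiniteDimensional ℂ A := Submodule.finiteDimensional_of_le hAL
  have : FiniteDimensional ℂ B := Submodule.finiteDimensional_of_le hBL
  have r5 := Submodule.finrank_sup_add_finrank_inf_eq A B
  have r6 : finrank ℂ (X.L (D + X.mdiv W)) ≤ finrank ℂ (A ⊔ B : Submodule ℂ K) := by
    rw [hA1, hB1] at r5
    have r7 : (finrank ℂ (A ⊔ B : Submodule ℂ K) : ℤ) + finrank ℂ (A ⊓ B : Submodule ℂ K) =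
      finrank ℂ (X.L D) + finrank ℂ (X.L D) := by exact_mod_cast r5
    have r8 : (finrank ℂ (A ⊓ B : Submodule ℂ K) : ℤ) ≤
      finrank ℂ (X.L (D - X.dv s₀ - X.dv s₁ - X.mdiv W)) := by exact_mod_cast r4
    have : (finrank ℂ (X.L (D + X.mdiv W)) : ℤ) ≤ finrank ℂ (A ⊔ B : Submodule ℂ K) := by
      rw [r3]
      rw [r2] at r8
      rw [r1] at r7
      linarith
    exact_mod_cast this
  have r9 := Submodule.eq_of_le_of_finrank_le (sup_le hAL hBL) r6
  rw [← r9]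
  exact sup_le hAW hBW

end Curve

end Pool.Agent.YTD


end

/- source: Pool.Agent.YTD.Defs -/

section

/-!
The polarized fourfolds `(X, L)` of the construction, presented by their section rings, and
their test configurations, presented by finitely generated filtrations.

Geometry.  Let `C` be a curve of genus `9 t + 1`, `S, S'` disjoint sets of `100 t` points of `C`,
`Y = P(O + O(3,-3)) → P¹ × P¹`, with its two disjoint sections `D_∞, D_0`, and let `X` be the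
blow-up of `C × Y` along the surfaces `{y} × D_∞` (`y ∈ S`) and `{y} × D_0` (`y ∈ S'`).  It is a
smooth projective fourfold of Picard number `4 + 200 t`.  For `q ≥ 1` and a divisor `D₀` on `C`
of degree `> 100 t q`, let `L` be the ample line bundle on `X` which is the pull-back of
`D₀ ⊠ M_q` twisted by `- q ·` (sum of the exceptional divisors), where `M_q` is the line bundle
on `Y` with `H⁰(Y, M_q^N) = ⊕_{|j| ≤ 5qN} Sym^{25qN+3j} ⊗ Sym^{25qN-3j}`.  Then
`H⁰(X, L^N)` is the space `sec N` below, a space of polynomials in the homogeneous coordinates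
`x₀, x₁ ; y₀, y₁` of `P¹ × P¹` with coefficients in the function field of `C`.
-/

namespace Pool.Agent.YTD

open MvPolynomial Module

/-- The data `(C, S, S')`. -/
structure Datum (K : Type) [Field K] [Algebra ℂ K] where
  X : Curve K
  t : ℕ
  t_pos : 0 < t
  genus_eq : X.genus = 9 * t + 1
  S : Finset X.Pt
  S' : Finset X.Pt
  card_S : S.card = 100 * t
  card_S' : S'.card = 100 * t
  disj : Disjoint S S'

namespace Datum

variable {K : Type} [Field K] [Algebra ℂ K] (T : Datum K)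

/-- The divisor `N D₀ - ∑_{y ∈ S} (j - 4qN)⁺ y - ∑_{y ∈ S'} (-j - 4qN)⁺ y` on `C`. -/
noncomputable def dvs (q : ℕ) (D₀ : T.X.Pt →₀ ℤ) (N : ℕ) (j : ℤ) : T.X.Pt →₀ ℤ :=
  N • D₀ - ∑ y ∈ T.S, Finsupp.single y (max 0 (j - 4 * q * N))
    - ∑ y ∈ T.S', Finsupp.single y (max 0 (-j - 4 * q * N))

/-- `V N j`, the Riemann-Roch space of `dvs N j`. -/
noncomputable def V (q : ℕ) (D₀ : T.X.Pt →₀ ℤ) (N : ℕ) (j : ℤ) : Submodule ℂ K :=
  T.X.L (T.dvs q D₀ N j)

/-- `sec N = H⁰(X, L^N)`: polynomials in `x₀, x₁` (variables `0, 1`) and `y₀, y₁`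
(variables `2, 3`) all of whose monomials have degree `25qN+3j` in `x`, degree `25qN-3j` in `y`
for some `j` with `|j| ≤ 5qN`, and coefficient in `V N j`. -/
noncomputable def sec (q : ℕ) (D₀ : T.X.Pt →₀ ℤ) (N : ℕ) : Submodule ℂ (MvPolynomial (Fin 4) K)
    where
  carrier := {f | ∀ e, f.coeff e ≠ 0 → ∃ j : ℤ, |j| ≤ 5 * q * N ∧
    (e 0 : ℤ) + e 1 = 25 * q * N + 3 * j ∧ (e 2 : ℤ) + e 3 = 25 * q * N - 3 * j ∧
    f.coeff e ∈ T.V q D₀ N j}
  zero_mem' := by
    intro e h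
    simp at h
  add_mem' := by
    intro f g hf hg e h
    by_cases h1 : f.coeff e = 0
    · rw [coeff_add, h1, zero_add] at h ⊢
      exact hg e h
    by_cases h2 : g.coeff e = 0
    · rw [coeff_add, h2, add_zero] at h ⊢
      exact hf e h
    obtain ⟨j, h3, h4, h5, h6⟩ := hf e h1
    obtain ⟨j', _, h4', _, h6'⟩ := hg e h2
    have hj : j' = j := by linarith
    subst hj
    exact ⟨j', h3, h4, h5, by rw [coeff_add]; exact add_mem h6 h6'⟩
  smul_mem' := by
    intro c f hf e h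
    have h1 : f.coeff e ≠ 0 := by
      intro h1
      apply h
      rw [coeff_smul, h1, smul_zero]
    obtain ⟨j, h3, h4, h5, h6⟩ := hf e h1
    exact ⟨j, h3, h4, h5, by rw [coeff_smul]; exact Submodule.smul_mem _ _ h6⟩

end Datum

variable {K : Type} [Field K] [Algebra ℂ K]

/-- The linear substitution of the variables `x₀, x₁` by the matrix `g` and of `y₀, y₁` by the
matrix `h`. -/
noncomputable def subst (g h : Matrix (Fin 2) (Fin 2) ℂ) :
    MvPolynomial (Fin 4) K →ₐ[K] MvPolynomial (Fin 4) K :=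
  aeval ![g 0 0 • X 0 + g 0 1 • X 1, g 1 0 • X 0 + g 1 1 • X 1,
    h 0 0 • X 2 + h 0 1 • X 3, h 1 0 • X 2 + h 1 1 • X 3]

/-- A linearly bounded multiplicative decreasing filtration of the graded ring
`⊕_N sec (r N) = ⊕_N H⁰(X, L^{rN})`. -/
structure Filt (T : Datum K) (q : ℕ) (D₀ : T.X.Pt →₀ ℤ) (r : ℕ) where
  F : ℕ → ℤ → Submodule ℂ (MvPolynomial (Fin 4) K)
  le : ∀ N l, F N l ≤ T.sec q D₀ (r * N)
  anti : ∀ N l l', l ≤ l' → F N l' ≤ F N l
  mul : ∀ N N' l l', ∀ f ∈ F N l, ∀ g ∈ F N' l', f * g ∈ F (N + N') (l + l')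
  bound : ∃ Λ : ℕ, ∀ N : ℕ, F N (-(Λ * N)) = T.sec q D₀ (r * N) ∧ F N (Λ * N + 1) = ⊥

/-- The filtration is stable under the group `GL₂ × GL₂` acting by linear substitutions. -/
def Filt.Equivariant {T : Datum K} {q : ℕ} {D₀ : T.X.Pt →₀ ℤ} {r : ℕ} (χ : Filt T q D₀ r) : Prop :=
  ∀ g h : Matrix (Fin 2) (Fin 2) ℂ, IsUnit g → IsUnit h → ∀ N l, ∀ f ∈ χ.F N l,
    subst g h f ∈ χ.F N l

/-- A test configuration of exponent `r`: a filtration whose Rees algebra is finitely generated. -/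
structure TestConf (T : Datum K) (q : ℕ) (D₀ : T.X.Pt →₀ ℤ) (r : ℕ) extends Filt T q D₀ r where
  fg : ∃ (k : ℕ) (n : Fin k → ℕ) (w : Fin k → ℤ) (f : Fin k → MvPolynomial (Fin 4) K),
    (∀ i, f i ∈ F (n i) (w i)) ∧
    ∀ N l, F N l ≤ Submodule.span ℂ {g | ∃ m : Fin k → ℕ,
      ∑ i, m i * n i = N ∧ l ≤ ∑ i, m i * w i ∧ g = ∏ i, f i ^ m i}

namespace Filt

variable {T : Datum K} {q : ℕ} {D₀ : T.X.Pt →₀ ℤ} {r : ℕ} (χ : Filt T q D₀ r)

/-- `dim H⁰(X₀, L₀^N)`, the dimension of the degree `N` part of the associated graded ring. -/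
noncomputable def dimN (_ : Filt T q D₀ r) (N : ℕ) : ℝ := finrank ℂ (T.sec q D₀ (r * N))

/-- dimension of the part of weight `l` of `H⁰(X₀, L₀^N)`. -/
noncomputable def wt (N : ℕ) (l : ℤ) : ℝ := finrank ℂ (χ.F N l) - finrank ℂ (χ.F N (l + 1))

/-- the trace of the `p`-th power of the generator of the `ℂ*`-action on `H⁰(X₀, L₀^N)`. -/
noncomputable def tr (p N : ℕ) : ℝ := ∑ᶠ l : ℤ, (l : ℝ) ^ p * χ.wt N l

/-- `a₀, a₁, b₀, b₁, c₀` are the coefficients of the asymptotic expansions. -/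
def Expansion (a₀ a₁ b₀ b₁ c₀ : ℝ) : Prop :=
  (∃ C : ℝ, ∀ᶠ N : ℕ in Filter.atTop, |χ.dimN N - (a₀ * N ^ 4 + a₁ * N ^ 3)| ≤ C * N ^ 2) ∧
  (∃ C : ℝ, ∀ᶠ N : ℕ in Filter.atTop, |χ.tr 1 N - (b₀ * N ^ 5 + b₁ * N ^ 4)| ≤ C * N ^ 3) ∧
  (∃ C : ℝ, ∀ᶠ N : ℕ in Filter.atTop, |χ.tr 2 N - c₀ * N ^ 6| ≤ C * N ^ 5)

/-- `Fut` is the Futaki invariant of `χ`. -/
def HasFutaki (Fut : ℝ) : Prop :=
  ∃ a₀ a₁ b₀ b₁ c₀ : ℝ, χ.Expansion a₀ a₁ b₀ b₁ c₀ ∧ Fut = (a₁ * b₀ - a₀ * b₁) / a₀ ^ 2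

end Filt

end Pool.Agent.YTD


end

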