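import Pool.Agent.YTDM.P01
import Pool.Agent.YTDM.P02

/- source: Pool.Agent.YTD.Graded -/

section

/-!
Torus-graded filtrations with values in subspaces of the function field.
-/

namespace Pool.Agent.YTD

open Module

/-- in-range indices. -/
def InR (q N : ℕ) (j : ℤ) (a b : ℕ) : Prop :=
  |j| ≤ 5 * q * N ∧ (a : ℤ) ≤ 25 * q * N + 3 * j ∧ (b : ℤ) ≤ 25 * q * N - 3 * j

theorem InR.add {q N N' : ℕ} {j j' : ℤ} {a a' b b' : ℕ} (h : InR q N j a b)
    (h' : InR q N' j' a' b') : InR q (N + N') (j + j') (a + a') (b + b') := by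
  obtain ⟨h1, h2, h3⟩ := h
  obtain ⟨h1', h2', h3'⟩ := h'
  rw [abs_le] at h1 h1'
  refine ⟨?_, ?_, ?_⟩
  · rw [abs_le]
    push_cast
    constructor <;> nlinarith
  · push_cast
    nlinarith
  · push_cast
    nlinarith

/-- the degree of `V N j` at the critical slope. -/
def dg (t q N : ℕ) (j : ℤ) : ℤ :=
  105 * t * q * N - 100 * t * (max 0 (j - 4 * q * N) + max 0 (-j - 4 * q * N))

theorem deg_dvs {K : Type} [Field K] [Algebra ℂ K] (T : Datum K) (q : ℕ) (D₀ : T.X.Pt →₀ ℤ)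
    (N : ℕ) (j : ℤ) : T.X.deg (T.dvs q D₀ N j) = N * T.X.deg D₀ -
      100 * T.t * (max 0 (j - 4 * q * N) + max 0 (-j - 4 * q * N)) := by
  unfold Datum.dvs
  rw [T.X.deg_sub, T.X.deg_sub, T.X.deg_nsmul, T.X.deg_sum, T.X.deg_sum]
  simp only [T.X.deg_single, Finset.sum_const, T.card_S, T.card_S', nsmul_eq_mul]
  push_cast
  ring

theorem deg_dvs_crit {K : Type} [Field K] [Algebra ℂ K] (T : Datum K) (q : ℕ)
    (D₀ : T.X.Pt →₀ ℤ) (hD : T.X.deg D₀ = 105 * T.t * q) (N : ℕ) (j : ℤ) :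
    T.X.deg (T.dvs q D₀ N j) = dg T.t q N j := by
  rw [deg_dvs, hD]
  unfold dg
  ring

theorem dg_le (t q N : ℕ) (j : ℤ) : dg t q N j ≤ 105 * t * q * N := by
  unfold dg
  have h1 := le_max_left 0 (j - 4 * (q : ℤ) * N)
  have h2 := le_max_left 0 (-j - 4 * (q : ℤ) * N)
  have h3 : (0 : ℤ) ≤ 100 * t * (max 0 (j - 4 * (q : ℤ) * N) + max 0 (-j - 4 * (q : ℤ) * N)) := by
    positivity
  linarith

theorem le_dg {t q N : ℕ} {j : ℤ} (h : |j| ≤ 5 * q * N) : 5 * (t : ℤ) * q * N ≤ dg t q N j := by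
  unfold dg
  rw [abs_le] at h
  have h0 : (0 : ℤ) ≤ q * N := by positivity
  have h1 : max 0 (j - 4 * (q : ℤ) * N) + max 0 (-j - 4 * (q : ℤ) * N) ≤ q * N := by
    rcases max_cases 0 (j - 4 * (q : ℤ) * N) with ⟨h2, h2'⟩ | ⟨h2, h2'⟩ <;>
    rcases max_cases 0 (-j - 4 * (q : ℤ) * N) with ⟨h3, h3'⟩ | ⟨h3, h3'⟩ <;>
    rw [h2, h3] <;> nlinarith
  have h4 : 100 * (t : ℤ) * (max 0 (j - 4 * (q : ℤ) * N) + max 0 (-j - 4 * (q : ℤ) * N)) ≤
      100 * t * (q * N) := mul_le_mul_of_nonneg_left h1 (by positivity)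
  nlinarith

theorem dg_double (t q L : ℕ) (j : ℤ) : dg t q (2 * L) (2 * j) = 2 * dg t q L j := by
  unfold dg
  push_cast
  have e1 : max 0 (2 * j - 4 * (q : ℤ) * (2 * L)) = 2 * max 0 (j - 4 * (q : ℤ) * L) := by
    rw [mul_max_of_nonneg _ _ (by norm_num : (0 : ℤ) ≤ 2)]
    congr 1
    ring
  have e2 : max 0 (-(2 * j) - 4 * (q : ℤ) * (2 * L)) = 2 * max 0 (-j - 4 * (q : ℤ) * L) := by
    rw [mul_max_of_nonneg _ _ (by norm_num : (0 : ℤ) ≤ 2)]
    congr 1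
    ring
  rw [e1, e2]
  ring

theorem dg_double_succ (t q L : ℕ) (j : ℤ) :
    dg t q (2 * L) (2 * j + 1) = dg t q L j + dg t q L (j + 1) := by
  unfold dg
  push_cast
  have e1 : max 0 (2 * j + 1 - 4 * (q : ℤ) * (2 * L)) =
      max 0 (j - 4 * (q : ℤ) * L) + max 0 (j + 1 - 4 * (q : ℤ) * L) := by
    have : 4 * (q : ℤ) * (2 * L) = 2 * (4 * (q : ℤ) * L) := by ring
    rw [this]
    generalize 4 * (q : ℤ) * L = u
    omega
  have e2 : max 0 (-(2 * j + 1) - 4 * (q : ℤ) * (2 * L)) =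
      max 0 (-j - 4 * (q : ℤ) * L) + max 0 (-(j + 1) - 4 * (q : ℤ) * L) := by
    have : 4 * (q : ℤ) * (2 * L) = 2 * (4 * (q : ℤ) * L) := by ring
    rw [this]
    generalize 4 * (q : ℤ) * L = u
    omega
  rw [e1, e2]
  ring

variable {K : Type} [Field K] [Algebra ℂ K]

/-- A multiplicative filtration graded by the torus weights `(j, a, b)`, normalized so that the
`0`-th step is everything. -/
structure Graded (T : Datum K) (q : ℕ) (D₀ : T.X.Pt →₀ ℤ) where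
  Λ : ℕ
  W : ℕ → ℕ → ℤ → ℕ → ℕ → Submodule ℂ K
  W_zero : ∀ N j a b, InR q N j a b → W N 0 j a b = T.V q D₀ N j
  W_anti : ∀ N l l' j a b, l ≤ l' → W N l' j a b ≤ W N l j a b
  W_mul : ∀ N N' l l' j j' a a' b b', InR q N j a b → InR q N' j' a' b' →
    ∀ f ∈ W N l j a b, ∀ g ∈ W N' l' j' a' b', f * g ∈ W (N + N') (l + l') (j + j') (a + a') (b + b')
  W_top : ∀ N l j a b, Λ * N < l → W N l j a b = ⊥

namespace Graded

variable {T : Datum K} {q : ℕ} {D₀ : T.X.Pt →₀ ℤ} (G : Graded T q D₀)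

theorem W_le (N l : ℕ) (j : ℤ) (a b : ℕ) (h : InR q N j a b) :
    G.W N l j a b ≤ T.X.L (T.dvs q D₀ N j) := by
  have := G.W_anti N 0 l j a b (Nat.zero_le l)
  rw [G.W_zero N j a b h] at this
  exact this

/-- `Real c L l j a b μ`: multiplication by the piece `(L, l, j, a, b)` of the filtration sends
complete linear systems of degree at least `c` to complete linear systems, raising the degree by
at least `μ`. -/
def Real (c : ℤ) (L l : ℕ) (j : ℤ) (a b : ℕ) (μ : ℤ) : Prop :=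
  InR q L j a b ∧ 0 ≤ μ ∧ ∀ (N' l' : ℕ) (j' : ℤ) (a' b' : ℕ) (D : T.X.Pt →₀ ℤ),
    InR q N' j' a' b' → T.X.L D ≤ G.W N' l' j' a' b' → c ≤ T.X.deg D →
    ∃ D' : T.X.Pt →₀ ℤ, T.X.deg D + μ ≤ T.X.deg D' ∧
      T.X.L D' ≤ G.W (N' + L) (l' + l) (j' + j) (a' + a) (b' + b)

variable {G}

theorem Real.add {c : ℤ} {L₁ L₂ l₁ l₂ : ℕ} {j₁ j₂ : ℤ} {a₁ a₂ b₁ b₂ : ℕ} {μ₁ μ₂ : ℤ}
    (h₁ : G.Real c L₁ l₁ j₁ a₁ b₁ μ₁) (h₂ : G.Real c L₂ l₂ j₂ a₂ b₂ μ₂) :
    G.Real c (L₁ + L₂) (l₁ + l₂) (j₁ + j₂) (a₁ + a₂) (b₁ + b₂) (μ₁ + μ₂) := by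
  refine ⟨h₁.1.add h₂.1, add_nonneg h₁.2.1 h₂.2.1, ?_⟩
  intro N' l' j' a' b' D hin hD hc
  obtain ⟨D', hD'1, hD'2⟩ := h₁.2.2 N' l' j' a' b' D hin hD hc
  have hc' : c ≤ T.X.deg D' := by
    have := h₁.2.1
    linarith
  obtain ⟨D'', hD''1, hD''2⟩ := h₂.2.2 _ _ _ _ _ D' (hin.add h₁.1) hD'2 hc'
  refine ⟨D'', by linarith, ?_⟩
  rw [add_assoc, add_assoc, add_assoc, add_assoc, add_assoc] at hD''2
  exact hD''2

theorem Real.mono {c : ℤ} {L l : ℕ} {j : ℤ} {a b : ℕ} {μ μ' : ℤ}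
    (h : G.Real c L l j a b μ) (h0 : 0 ≤ μ') (h1 : μ' ≤ μ) : G.Real c L l j a b μ' := by
  refine ⟨h.1, h0, ?_⟩
  intro N' l' j' a' b' D hin hD hc
  obtain ⟨D', hD'1, hD'2⟩ := h.2.2 N' l' j' a' b' D hin hD hc
  exact ⟨D', by linarith, hD'2⟩

variable (G)

/-- the pieces of the filtration are realizable, by the pencil trick. -/
theorem real_base (P₀ : T.X.Pt) {c : ℤ} {N l : ℕ} {j : ℤ} {a b : ℕ} (h : InR q N j a b)
    (hne : G.W N l j a b ≠ ⊥) (hc : T.X.mdeg (G.W N l j a b) + 2 * (T.X.genus : ℤ) - 1 ≤ c) :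
    G.Real c N l j a b (T.X.mdeg (G.W N l j a b)) := by
  have hW := G.W_le N l j a b h
  refine ⟨h, CurveOrd.mdeg_nonneg hW hne, ?_⟩
  intro N' l' j' a' b' D hin hD hcD
  refine ⟨D + T.X.mdiv (G.W N l j a b), ?_, ?_⟩
  · rw [T.X.deg_add]
    exact le_refl _
  · refine (T.X.pencil P₀ hW hne (by linarith)).trans ?_
    rw [Submodule.mul_le]
    intro f hf g hg
    rw [mul_comm]
    exact G.W_mul _ _ _ _ _ _ _ _ _ _ hin h g (hD hg) f hf

end Graded

end Pool.Agent.YTD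


end

/- source: Pool.Agent.YTD.System -/

section

/-!
Systems of realizable degrees and their doubling.
-/

namespace Pool.Agent.YTD

open Finset

theorem path_sum (d : ℕ) (m₁ m₂ : ℕ → ℤ) (D₂ : ℤ) (n : ℕ) (h₁ : ∀ l < n, m₁ (l + 1) ≤ m₁ l)
    (h₂ : ∀ l < d, m₂ (l + 1) ≤ D₂) :
    2 * ∑ l ∈ range n, m₁ (l + 1) + 2 * ∑ l ∈ range (d + n), m₂ (l + 1) + d * (m₁ 0 - D₂) ≤
      ∑ l ∈ range (d + 2 * n), (m₁ ((l + 1 - d) / 2) + m₂ (l + 1 - (l + 1 - d) / 2)) := by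
  induction n with
  | zero =>
    simp only [range_zero, sum_empty, mul_zero, zero_add, add_zero]
    have e1 : ∀ l ∈ range d, m₁ ((l + 1 - d) / 2) + m₂ (l + 1 - (l + 1 - d) / 2) =
        m₁ 0 + m₂ (l + 1) := by
      intro l hl
      have := mem_range.1 hl
      have e : (l + 1 - d) / 2 = 0 := by omega
      rw [e, Nat.sub_zero]
    rw [sum_congr rfl e1, sum_add_distrib, sum_const, card_range, nsmul_eq_mul]
    have e2 : ∑ l ∈ range d, m₂ (l + 1) ≤ ∑ _l ∈ range d, D₂ :=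
      sum_le_sum fun l hl => h₂ l (mem_range.1 hl)
    rw [sum_const, card_range, nsmul_eq_mul] at e2
    linarith
  | succ n ih =>
    have ih' := ih (fun l hl => h₁ l (by omega))
    rw [show d + 2 * (n + 1) = d + 2 * n + 1 + 1 by ring, sum_range_succ, sum_range_succ,
      sum_range_succ, show d + (n + 1) = d + n + 1 by ring, sum_range_succ]
    have e1 : (d + 2 * n + 1 - d) / 2 = n := by omega
    have e2 : (d + 2 * n + 1 + 1 - d) / 2 = n + 1 := by omega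
    rw [e1, e2]
    have e3 : d + 2 * n + 1 - n = d + n + 1 := by omega
    have e4 : d + 2 * n + 1 + 1 - (n + 1) = d + n + 1 := by omega
    rw [e3, e4]
    have := h₁ n (by omega)
    linarith

/-- existence of a good path. -/
theorem exists_path (n₁ n₂ : ℕ) (m₁ m₂ : ℕ → ℤ) (h₁ : ∀ l l', l ≤ l' → l' ≤ n₁ → m₁ l' ≤ m₁ l)
    (h₂ : ∀ l l', l ≤ l' → l' ≤ n₂ → m₂ l' ≤ m₂ l) :
    ∃ l₁ l₂ : ℕ → ℕ, (∀ l, l₁ l + l₂ l = l) ∧ Monotone l₁ ∧ Monotone l₂ ∧
      (∀ l ≤ n₁ + n₂, l₁ l ≤ n₁ ∧ l₂ l ≤ n₂) ∧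
      2 * ∑ l ∈ range n₁, m₁ (l + 1) + 2 * ∑ l ∈ range n₂, m₂ (l + 1) -
        ((n₁ : ℤ) - n₂) * (m₁ 0 - m₂ 0) ≤
        ∑ l ∈ range (n₁ + n₂), (m₁ (l₁ (l + 1)) + m₂ (l₂ (l + 1))) := by
  rcases le_total n₁ n₂ with h | h
  · obtain ⟨d, rfl⟩ := Nat.exists_eq_add_of_le h
    refine ⟨fun l => (l - d) / 2, fun l => l - (l - d) / 2, ?_, ?_, ?_, ?_, ?_⟩
    · intro l
      simp only
      omega
    · intro l l' hl
      simp only
      omega
    · intro l l' hl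
      simp only
      omega
    · intro l hl
      simp only
      omega
    · have := path_sum d m₁ m₂ (m₂ 0) n₁ (fun l hl => h₁ l (l + 1) (by omega) (by omega))
        (fun l hl => h₂ 0 (l + 1) (by omega) (by omega))
      rw [show n₁ + (n₁ + d) = d + 2 * n₁ by ring, add_comm n₁ d]
      refine le_trans (le_of_eq ?_) this
      push_cast
      ring
  · obtain ⟨d, rfl⟩ := Nat.exists_eq_add_of_le h
    refine ⟨fun l => l - (l - d) / 2, fun l => (l - d) / 2, ?_, ?_, ?_, ?_, ?_⟩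
    · intro l
      simp only
      omega
    · intro l l' hl
      simp only
      omega
    · intro l l' hl
      simp only
      omega
    · intro l hl
      simp only
      omega
    · have := path_sum d m₂ m₁ (m₁ 0) n₂ (fun l hl => h₂ l (l + 1) (by omega) (by omega))
        (fun l hl => h₁ 0 (l + 1) (by omega) (by omega))
      rw [show n₂ + d + n₂ = d + 2 * n₂ by ring, add_comm n₂ d]
      have e : ∑ l ∈ range (d + 2 * n₂), (m₁ (l + 1 - (l + 1 - d) / 2) + m₂ ((l + 1 - d) / 2)) =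
          ∑ l ∈ range (d + 2 * n₂), (m₂ ((l + 1 - d) / 2) + m₁ (l + 1 - (l + 1 - d) / 2)) :=
        sum_congr rfl fun l _ => add_comm _ _
      simp only
      rw [e]
      refine le_trans (le_of_eq ?_) this
      push_cast
      ring

variable {K : Type} [Field K] [Algebra ℂ K]
variable {T : Datum K} {q : ℕ} {D₀ : T.X.Pt →₀ ℤ}

/-- A system of realizable degrees at level `L`. -/
structure Sys (G : Graded T q D₀) (c : ℤ) (L : ℕ) where
  n : ℤ → ℕ → ℕ → ℕ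
  m : ℤ → ℕ → ℕ → ℕ → ℤ
  n_le : ∀ j a b, InR q L j a b → n j a b ≤ G.Λ * L
  m_zero : ∀ j a b, InR q L j a b → m j a b 0 = dg T.t q L j
  m_anti : ∀ j a b, InR q L j a b → ∀ l l', l ≤ l' → l' ≤ n j a b → m j a b l' ≤ m j a b l
  real : ∀ j a b, InR q L j a b → ∀ l ≤ n j a b, G.Real c L l j a b (m j a b l)

namespace Sys

variable {G : Graded T q D₀} {c : ℤ} {L : ℕ}

/-- the sum of the degrees. -/
def U (s : Sys G c L) (j : ℤ) (a b : ℕ) : ℤ := ∑ l ∈ range (s.n j a b), s.m j a b (l + 1)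

theorem m_nonneg (s : Sys G c L) {j : ℤ} {a b : ℕ} (h : InR q L j a b) {l : ℕ}
    (hl : l ≤ s.n j a b) : 0 ≤ s.m j a b l := (s.real j a b h l hl).2.1

theorem m_le (s : Sys G c L) {j : ℤ} {a b : ℕ} (h : InR q L j a b) {l : ℕ}
    (hl : l ≤ s.n j a b) : s.m j a b l ≤ dg T.t q L j := by
  rw [← s.m_zero j a b h]
  exact s.m_anti j a b h 0 l (Nat.zero_le l) hl

theorem U_nonneg (s : Sys G c L) {j : ℤ} {a b : ℕ} (h : InR q L j a b) : 0 ≤ s.U j a b := by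
  unfold U
  apply sum_nonneg
  intro l hl
  apply s.m_nonneg h
  have := mem_range.1 hl
  omega

theorem U_le (s : Sys G c L) {j : ℤ} {a b : ℕ} (h : InR q L j a b) :
    s.U j a b ≤ s.n j a b * dg T.t q L j := by
  unfold U
  have : ∑ l ∈ range (s.n j a b), s.m j a b (l + 1) ≤
      ∑ _l ∈ range (s.n j a b), dg T.t q L j := by
    apply sum_le_sum
    intro l hl
    apply s.m_le h
    have := mem_range.1 hl
    omega
  rwa [sum_const, card_range, nsmul_eq_mul] at this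

/-- the value guaranteed by a pair. -/
def val (s : Sys G c L) (j₁ j₂ : ℤ) (a₁ a₂ b₁ b₂ : ℕ) : ℤ :=
  2 * s.U j₁ a₁ b₁ + 2 * s.U j₂ a₂ b₂ -
    ((s.n j₁ a₁ b₁ : ℤ) - s.n j₂ a₂ b₂) * (dg T.t q L j₁ - dg T.t q L j₂)

theorem exists_pair (s : Sys G c L) (j₁ j₂ : ℤ) (a₁ a₂ b₁ b₂ : ℕ) (h₁ : InR q L j₁ a₁ b₁)
    (h₂ : InR q L j₂ a₂ b₂) (hd : dg T.t q (2 * L) (j₁ + j₂) = dg T.t q L j₁ + dg T.t q L j₂) :
    ∃ (n' : ℕ) (m' : ℕ → ℤ), n' ≤ G.Λ * (2 * L) ∧ m' 0 = dg T.t q (2 * L) (j₁ + j₂) ∧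
      (∀ l l', l ≤ l' → l' ≤ n' → m' l' ≤ m' l) ∧
      (∀ l ≤ n', G.Real c (2 * L) l (j₁ + j₂) (a₁ + a₂) (b₁ + b₂) (m' l)) ∧
      s.val j₁ j₂ a₁ a₂ b₁ b₂ ≤ ∑ l ∈ range n', m' (l + 1) := by
  obtain ⟨l₁, l₂, hl, hm₁, hm₂, hle, hsum⟩ := exists_path (s.n j₁ a₁ b₁) (s.n j₂ a₂ b₂)
    (s.m j₁ a₁ b₁) (s.m j₂ a₂ b₂) (s.m_anti j₁ a₁ b₁ h₁) (s.m_anti j₂ a₂ b₂ h₂)
  refine ⟨s.n j₁ a₁ b₁ + s.n j₂ a₂ b₂, fun l => s.m j₁ a₁ b₁ (l₁ l) + s.m j₂ a₂ b₂ (l₂ l),
    ?_, ?_, ?_, ?_, ?_⟩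
  · have := s.n_le j₁ a₁ b₁ h₁
    have := s.n_le j₂ a₂ b₂ h₂
    linarith [show G.Λ * (2 * L) = G.Λ * L + G.Λ * L by ring]
  · have h0 := hl 0
    have e1 : l₁ 0 = 0 := by omega
    have e2 : l₂ 0 = 0 := by omega
    simp only [e1, e2]
    rw [s.m_zero j₁ a₁ b₁ h₁, s.m_zero j₂ a₂ b₂ h₂, hd]
  · intro l l' hll' hl'
    simp only
    have := s.m_anti j₁ a₁ b₁ h₁ (l₁ l) (l₁ l') (hm₁ hll') (hle l' hl').1
    have := s.m_anti j₂ a₂ b₂ h₂ (l₂ l) (l₂ l') (hm₂ hll') (hle l' hl').2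
    linarith
  · intro l hl'
    have r1 := s.real j₁ a₁ b₁ h₁ (l₁ l) (hle l hl').1
    have r2 := s.real j₂ a₂ b₂ h₂ (l₂ l) (hle l hl').2
    have := r1.add r2
    rw [hl l, ← two_mul] at this
    exact this
  · unfold val U
    rw [← s.m_zero j₁ a₁ b₁ h₁, ← s.m_zero j₂ a₂ b₂ h₂]
    exact hsum

theorem exists_double (s : Sys G c L) : ∃ s' : Sys G c (2 * L),
    ∀ (j₁ j₂ : ℤ) (a₁ a₂ b₁ b₂ : ℕ), InR q L j₁ a₁ b₁ → InR q L j₂ a₂ b₂ →
      dg T.t q (2 * L) (j₁ + j₂) = dg T.t q L j₁ + dg T.t q L j₂ →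
      s.val j₁ j₂ a₁ a₂ b₁ b₂ ≤ s'.U (j₁ + j₂) (a₁ + a₂) (b₁ + b₂) := by
  classical
  have key : ∀ (j : ℤ) (a b : ℕ), ∃ (n' : ℕ) (m' : ℕ → ℤ), InR q (2 * L) j a b →
      n' ≤ G.Λ * (2 * L) ∧ m' 0 = dg T.t q (2 * L) j ∧
      (∀ l l', l ≤ l' → l' ≤ n' → m' l' ≤ m' l) ∧
      (∀ l ≤ n', G.Real c (2 * L) l j a b (m' l)) ∧
      (∀ (j₁ j₂ : ℤ) (a₁ a₂ b₁ b₂ : ℕ), InR q L j₁ a₁ b₁ → InR q L j₂ a₂ b₂ →
      dg T.t q (2 * L) (j₁ + j₂) = dg T.t q L j₁ + dg T.t q L j₂ →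
      j₁ + j₂ = j → a₁ + a₂ = a → b₁ + b₂ = b →
      s.val j₁ j₂ a₁ a₂ b₁ b₂ ≤ ∑ l ∈ range n', m' (l + 1)) := by
    intro j a b
    by_cases hin : InR q (2 * L) j a b
    swap
    · exact ⟨0, fun _ => 0, fun h => (hin h).elim⟩
    -- the finite set of decompositions
    let P : ℤ × ℕ × ℕ → Prop := fun x => InR q L x.1 x.2.1 x.2.2 ∧ x.2.1 ≤ a ∧ x.2.2 ≤ b ∧
      InR q L (j - x.1) (a - x.2.1) (b - x.2.2) ∧
      dg T.t q (2 * L) (x.1 + (j - x.1)) = dg T.t q L x.1 + dg T.t q L (j - x.1)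
    let E : Finset (ℤ × ℕ × ℕ) := ((Finset.Icc (-(5 * q * L : ℤ)) (5 * q * L)) ×ˢ
      (range (a + 1)) ×ˢ (range (b + 1))).filter P
    have hE : ∀ x, x ∈ E ↔ P x := by
      intro x
      simp only [E, mem_filter, mem_product, Finset.mem_Icc, mem_range, and_iff_right_iff_imp]
      rintro ⟨h1, h2, h3, h4, h5⟩
      have := abs_le.1 h1.1
      refine ⟨⟨?_, this.2⟩, by omega, by omega⟩
      linarith [this.1]
    have hne : E.Nonempty := by
      obtain ⟨hj, ha, hb⟩ := hin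
      rw [abs_le] at hj
      push_cast at hj ha hb
      have hj2 : j = 2 * (j / 2) ∨ j = 2 * (j / 2) + 1 := by omega
      have hjr : -(5 * (q : ℤ) * L) ≤ j / 2 ∧ j / 2 ≤ 5 * q * L ∧
          -(5 * (q : ℤ) * L) ≤ j - j / 2 ∧ j - j / 2 ≤ 5 * q * L := by
        have e : 5 * (q : ℤ) * (2 * L) = 2 * (5 * q * L) := by ring
        rw [e] at hj
        generalize 5 * (q : ℤ) * L = u at hj ⊢
        omega
      have hpos : (0 : ℤ) ≤ q * L := by positivity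
      refine ⟨(j / 2, min a (25 * q * L + 3 * (j / 2)).toNat,
        min b (25 * q * L - 3 * (j / 2)).toNat), (hE _).2 ⟨⟨?_, ?_, ?_⟩, ?_, ?_, ⟨?_, ?_, ?_⟩, ?_⟩⟩
      · rw [abs_le]; exact ⟨hjr.1, hjr.2.1⟩
      · simp only
        have : (0 : ℤ) ≤ 25 * q * L + 3 * (j / 2) := by nlinarith
        push_cast
        rw [Int.toNat_of_nonneg this]
        exact min_le_right _ _
      · simp only
        have : (0 : ℤ) ≤ 25 * q * L - 3 * (j / 2) := by nlinarith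
        push_cast
        rw [Int.toNat_of_nonneg this]
        exact min_le_right _ _
      · exact min_le_left _ _
      · exact min_le_left _ _
      · rw [abs_le]; exact ⟨hjr.2.2.1, hjr.2.2.2⟩
      · simp only
        have h0 : (0 : ℤ) ≤ 25 * q * L + 3 * (j / 2) := by nlinarith
        have h0' : (0 : ℤ) ≤ 25 * q * L + 3 * (j - j / 2) := by nlinarith
        rw [Nat.cast_sub (min_le_left _ _)]
        push_cast
        rw [Int.toNat_of_nonneg h0]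
        rcases min_cases (a : ℤ) (25 * q * L + 3 * (j / 2)) with ⟨h1, _⟩ | ⟨h1, _⟩ <;> rw [h1]
        · linarith
        · linarith
      · simp only
        have h0 : (0 : ℤ) ≤ 25 * q * L - 3 * (j / 2) := by nlinarith
        have h0' : (0 : ℤ) ≤ 25 * q * L - 3 * (j - j / 2) := by nlinarith
        rw [Nat.cast_sub (min_le_left _ _)]
        push_cast
        rw [Int.toNat_of_nonneg h0]
        rcases min_cases (b : ℤ) (25 * q * L - 3 * (j / 2)) with ⟨h1, _⟩ | ⟨h1, _⟩ <;> rw [h1]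
        · linarith
        · linarith
      · simp only
        rcases hj2 with h | h
        · have e1 : j - j / 2 = j / 2 := by omega
          rw [e1, ← two_mul, dg_double]
          ring
        · have e1 : j - j / 2 = j / 2 + 1 := by omega
          rw [e1, show j / 2 + (j / 2 + 1) = 2 * (j / 2) + 1 by ring, dg_double_succ]
    obtain ⟨x, hx, hmax⟩ := E.exists_max_image
      (fun x => s.val x.1 (j - x.1) x.2.1 (a - x.2.1) x.2.2 (b - x.2.2)) hne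
    obtain ⟨h1, h2, h3, h4, h5⟩ := (hE x).1 hx
    obtain ⟨n', m', r1, r2, r3, r4, r5⟩ := s.exists_pair x.1 (j - x.1) x.2.1 (a - x.2.1) x.2.2
      (b - x.2.2) h1 h4 h5
    rw [show x.1 + (j - x.1) = j by ring, show x.2.1 + (a - x.2.1) = a by omega,
      show x.2.2 + (b - x.2.2) = b by omega] at r4
    rw [show x.1 + (j - x.1) = j by ring] at r2
    refine ⟨n', m', fun _ => ⟨r1, r2, r3, r4, ?_⟩⟩
    intro j₁ j₂ a₁ a₂ b₁ b₂ g1 g2 g3 g4 g5 g6
    have e1 : j - j₁ = j₂ := by linarith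
    have e2 : a - a₁ = a₂ := by omega
    have e3 : b - b₁ = b₂ := by omega
    have hmem : ((j₁, a₁, b₁) : ℤ × ℕ × ℕ) ∈ E := by
      rw [hE]
      refine ⟨g1, by show a₁ ≤ a; omega, by show b₁ ≤ b; omega, ?_, ?_⟩
      · simp only [e1, e2, e3]
        exact g2
      · simp only [e1]
        exact g3
    have := hmax _ hmem
    simp only [e1, e2, e3] at this
    exact this.trans r5
  choose n' m' hk using key
  refine ⟨⟨n', m', fun j a b h => (hk j a b h).1, fun j a b h => (hk j a b h).2.1,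
    fun j a b h => (hk j a b h).2.2.1, fun j a b h => (hk j a b h).2.2.2.1⟩, ?_⟩
  intro j₁ j₂ a₁ a₂ b₁ b₂ h₁ h₂ hd
  have hin : InR q (2 * L) (j₁ + j₂) (a₁ + a₂) (b₁ + b₂) := by
    have := h₁.add h₂
    rwa [← two_mul] at this
  exact (hk _ _ _ hin).2.2.2.2 j₁ j₂ a₁ a₂ b₁ b₂ h₁ h₂ hd rfl rfl rfl

end Sys

end Pool.Agent.YTD


end

/- source: Pool.Agent.YTD.Phi -/

section

/-!
The functional `Phi` and its behaviour under doubling.
-/

namespace Pool.Agent.YTD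

open Finset

/-- largest exponent in the `a`-direction -/
def AA (q L : ℕ) (j : ℤ) : ℕ := (25 * q * L + 3 * j : ℤ).toNat

/-- largest exponent in the `b`-direction -/
def BB (q L : ℕ) (j : ℤ) : ℕ := (25 * q * L - 3 * j : ℤ).toNat

theorem AA_cast {q L : ℕ} {j : ℤ} (h : |j| ≤ 5 * q * L) :
    ((AA q L j : ℕ) : ℤ) = 25 * q * L + 3 * j := by
  unfold AA
  rw [Int.toNat_of_nonneg]
  rw [abs_le] at h
  have : (0 : ℤ) ≤ q * L := by positivity
  nlinarith [h.1]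

theorem BB_cast {q L : ℕ} {j : ℤ} (h : |j| ≤ 5 * q * L) :
    ((BB q L j : ℕ) : ℤ) = 25 * q * L - 3 * j := by
  unfold BB
  rw [Int.toNat_of_nonneg]
  rw [abs_le] at h
  have : (0 : ℤ) ≤ q * L := by positivity
  nlinarith [h.2]

theorem inR_iff {q L : ℕ} {j : ℤ} (h : |j| ≤ 5 * q * L) {a b : ℕ} :
    InR q L j a b ↔ a ≤ AA q L j ∧ b ≤ BB q L j := by
  unfold InR
  rw [← AA_cast h, ← BB_cast h]
  constructor
  · rintro ⟨_, h1, h2⟩
    exact ⟨by exact_mod_cast h1, by exact_mod_cast h2⟩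
  · rintro ⟨h1, h2⟩
    exact ⟨h, by exact_mod_cast h1, by exact_mod_cast h2⟩

theorem AA_add {q L L' : ℕ} {j j' : ℤ} (h : |j| ≤ 5 * q * L) (h' : |j'| ≤ 5 * q * L') :
    AA q (L + L') (j + j') = AA q L j + AA q L' j' := by
  have h'' : |j + j'| ≤ 5 * q * ((L + L' : ℕ) : ℤ) := by
    push_cast
    calc |j + j'| ≤ |j| + |j'| := abs_add_le _ _
      _ ≤ _ := by linarith
  zify
  rw [AA_cast h, AA_cast h', AA_cast h'']
  push_cast
  ring

theorem BB_add {q L L' : ℕ} {j j' : ℤ} (h : |j| ≤ 5 * q * L) (h' : |j'| ≤ 5 * q * L') :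
    BB q (L + L') (j + j') = BB q L j + BB q L' j' := by
  have h'' : |j + j'| ≤ 5 * q * ((L + L' : ℕ) : ℤ) := by
    push_cast
    calc |j + j'| ≤ |j| + |j'| := abs_add_le _ _
      _ ≤ _ := by linarith
  zify
  rw [BB_cast h, BB_cast h', BB_cast h'']
  push_cast
  ring

/-- average over the box of weight `j`. -/
noncomputable def av (q L : ℕ) (j : ℤ) (f : ℕ → ℕ → ℝ) : ℝ := avg2 (AA q L j) (BB q L j) f

theorem av_add_le {q L L' : ℕ} {j j' : ℤ} (h : |j| ≤ 5 * q * L) (h' : |j'| ≤ 5 * q * L')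
    {f g H : ℕ → ℕ → ℝ} (hH : ∀ a a' b b', InR q L j a b → InR q L' j' a' b' →
      f a b + g a' b' ≤ H (a + a') (b + b')) :
    av q L j f + av q L' j' g ≤ av q (L + L') (j + j') H := by
  unfold av
  rw [AA_add h h', BB_add h h']
  apply avg2_add_le
  intro a₁ ha₁ a₂ ha₂ b₁ hb₁ b₂ hb₂
  exact hH a₁ a₂ b₁ b₂ ((inR_iff h).2 ⟨ha₁, hb₁⟩) ((inR_iff h').2 ⟨ha₂, hb₂⟩)

theorem av_mono {q L : ℕ} {j : ℤ} (h : |j| ≤ 5 * q * L) {f g : ℕ → ℕ → ℝ}
    (hfg : ∀ a b, InR q L j a b → f a b ≤ g a b) : av q L j f ≤ av q L j g :=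
  avg2_mono fun a ha b hb => hfg a b ((inR_iff h).2 ⟨ha, hb⟩)

theorem av_const (q L : ℕ) (j : ℤ) (c : ℝ) : av q L j (fun _ _ => c) = c := avg2_const _ _ _

theorem av_nonneg {q L : ℕ} {j : ℤ} (h : |j| ≤ 5 * q * L) {f : ℕ → ℕ → ℝ}
    (hf : ∀ a b, InR q L j a b → 0 ≤ f a b) : 0 ≤ av q L j f := by
  rw [← av_const q L j 0]
  exact av_mono h hf

/-- sum over `j` from `-M` to `M`. -/
theorem sum_split (M : ℕ) (F : ℤ → ℝ) :
    ∑ i ∈ range (4 * M + 1), F ((i : ℤ) - 2 * M) =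
      ∑ i ∈ range (2 * M + 1), F (2 * ((i : ℤ) - M)) +
        ∑ i ∈ range (2 * M), F (2 * ((i : ℤ) - M) + 1) := by
  have key : ∀ (k : ℕ) (H : ℕ → ℝ), ∑ i ∈ range (2 * k + 1), H i =
      ∑ i ∈ range (k + 1), H (2 * i) + ∑ i ∈ range k, H (2 * i + 1) := by
    intro k H
    induction k with
    | zero => simp
    | succ k ih =>
      rw [show 2 * (k + 1) + 1 = 2 * k + 1 + 1 + 1 by ring, sum_range_succ, sum_range_succ, ih,
        sum_range_succ (fun i => H (2 * i)) (k + 1), sum_range_succ (fun i => H (2 * i + 1)) k]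
      rw [show 2 * (k + 1) = 2 * k + 1 + 1 by ring]
      ring
  rw [show 4 * M + 1 = 2 * (2 * M) + 1 by ring, key (2 * M) (fun i => F ((i : ℤ) - 2 * M))]
  congr 1
  · apply sum_congr rfl
    intro i _
    congr 1
    push_cast
    ring
  · apply sum_congr rfl
    intro i _
    congr 1
    push_cast
    ring

theorem abel_le (k : ℕ) (w n : ℕ → ℝ) (hw : ∀ i < k, 0 ≤ w i)
    (hw' : ∀ i, i + 1 < k → w (i + 1) ≤ w i) (hn : ∀ i ≤ k, 0 ≤ n i) (h0 : 0 ≤ w 0) :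
    ∑ i ∈ range k, w i * (n i - n (i + 1)) ≤ w 0 * n 0 := by
  have key : ∀ m, m + 1 ≤ k →
      ∑ i ∈ range (m + 1), w i * (n i - n (i + 1)) ≤ w 0 * n 0 - w m * n (m + 1) := by
    intro m
    induction m with
    | zero =>
      intro _
      simp
      linarith
    | succ m ih =>
      intro hm
      rw [sum_range_succ]
      have h1 := ih (by omega)
      have h2 := hw' m (by omega)
      have h3 := hn (m + 1) (by omega)
      nlinarith
  rcases Nat.eq_zero_or_pos k with rfl | hk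
  · simp
    exact mul_nonneg h0 (hn 0 le_rfl)
  · obtain ⟨m, rfl⟩ := Nat.exists_eq_add_of_lt hk
    rw [zero_add] at *
    have h1 := key m le_rfl
    have h2 := hw m (by omega)
    have h3 := hn (m + 1) le_rfl
    have := mul_nonneg h2 h3
    linarith

/-- the weights of the functional. -/
noncomputable def Wt (q L : ℕ) (j : ℤ) : ℝ :=
  if |j| = 5 * q * L then 200 * ((q : ℝ) * L) ^ 2 else 625 * ((q : ℝ) * L) ^ 2 - 9 * (j : ℝ) ^ 2

theorem Wt_end {q L : ℕ} {j : ℤ} (h : |j| = 5 * q * L) : Wt q L j = 200 * ((q : ℝ) * L) ^ 2 := by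
  unfold Wt
  rw [if_pos h]

theorem Wt_mid {q L : ℕ} {j : ℤ} (h : |j| ≠ 5 * q * L) :
    Wt q L j = 625 * ((q : ℝ) * L) ^ 2 - 9 * (j : ℝ) ^ 2 := by
  unfold Wt
  rw [if_neg h]

theorem Wt_nonneg {q L : ℕ} {j : ℤ} (h : |j| ≤ 5 * q * L) : 0 ≤ Wt q L j := by
  unfold Wt
  split_ifs
  · positivity
  · have h1 : |(j : ℝ)| ≤ 5 * q * L := by exact_mod_cast h
    have h2 : (j : ℝ) ^ 2 ≤ (5 * q * L) ^ 2 := sq_le_sq' (by linarith [(abs_le.1 h1).1])
      (abs_le.1 h1).2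
    nlinarith [sq_nonneg ((q : ℝ) * L)]

theorem Wt_le {q L : ℕ} {j : ℤ} : Wt q L j ≤ 625 * ((q : ℝ) * L) ^ 2 := by
  unfold Wt
  split_ifs
  · nlinarith [sq_nonneg ((q : ℝ) * L)]
  · nlinarith [sq_nonneg (j : ℝ)]

variable {K : Type} [Field K] [Algebra ℂ K]
variable {T : Datum K} {q : ℕ} {D₀ : T.X.Pt →₀ ℤ} {G : Graded T q D₀} {c : ℤ} {L : ℕ}

namespace Sys

/-- average of `U`. -/
noncomputable def ub (s : Sys G c L) (j : ℤ) : ℝ := av q L j fun a b => (s.U j a b : ℝ)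

/-- average of `n`. -/
noncomputable def nb (s : Sys G c L) (j : ℤ) : ℝ := av q L j fun a b => (s.n j a b : ℝ)

theorem nb_nonneg (s : Sys G c L) {j : ℤ} (h : |j| ≤ 5 * q * L) : 0 ≤ s.nb j :=
  av_nonneg h fun _ _ _ => by positivity

theorem nb_le (s : Sys G c L) {j : ℤ} (h : |j| ≤ 5 * q * L) : s.nb j ≤ G.Λ * L := by
  rw [← av_const q L j (G.Λ * L)]
  apply av_mono h
  intro a b hab
  exact_mod_cast s.n_le j a b hab

theorem ub_nonneg (s : Sys G c L) {j : ℤ} (h : |j| ≤ 5 * q * L) : 0 ≤ s.ub j :=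
  av_nonneg h fun a b hab => by exact_mod_cast s.U_nonneg hab

theorem ub_le (s : Sys G c L) {j : ℤ} (h : |j| ≤ 5 * q * L) :
    s.ub j ≤ G.Λ * L * (105 * T.t * q * L) := by
  rw [← av_const q L j (G.Λ * L * (105 * T.t * q * L))]
  apply av_mono h
  intro a b hab
  have h1 : (s.U j a b : ℝ) ≤ s.n j a b * dg T.t q L j := by exact_mod_cast s.U_le hab
  have h2 : (s.n j a b : ℝ) ≤ G.Λ * L := by exact_mod_cast s.n_le j a b hab
  have h3 : (dg T.t q L j : ℝ) ≤ 105 * T.t * q * L := by exact_mod_cast dg_le T.t q L j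
  have h4 : (0 : ℝ) ≤ dg T.t q L j := by
    have : (0 : ℤ) ≤ dg T.t q L j := le_trans (by positivity) (le_dg h)
    exact_mod_cast this
  calc (s.U j a b : ℝ) ≤ s.n j a b * dg T.t q L j := h1
    _ ≤ (G.Λ * L) * dg T.t q L j := mul_le_mul_of_nonneg_right h2 h4
    _ ≤ _ := mul_le_mul_of_nonneg_left h3 (by positivity)

/-- the functional. -/
noncomputable def Phi (s : Sys G c L) : ℝ :=
  ∑ i ∈ range (2 * (5 * q * L) + 1), Wt q L ((i : ℤ) - (5 * q * L : ℕ)) *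
    s.ub ((i : ℤ) - (5 * q * L : ℕ))

end Sys

end Pool.Agent.YTD


end

/- source: Pool.Agent.YTD.PhiDouble -/

section

namespace Pool.Agent.YTD

open Finset

theorem av_lin (q L : ℕ) (j : ℤ) (x y : ℝ) (f g : ℕ → ℕ → ℝ) :
    av q L j (fun a b => x * f a b + y * g a b) = x * av q L j f + y * av q L j g := by
  unfold av
  rw [avg2_add, avg2_mul, avg2_mul]

variable {K : Type} [Field K] [Algebra ℂ K]
variable {T : Datum K} {q : ℕ} {D₀ : T.X.Pt →₀ ℤ} {G : Graded T q D₀} {c : ℤ} {L : ℕ}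

/-- the difference of consecutive degrees -/
theorem dg_diff (t q L : ℕ) (j : ℤ) : dg t q L j - dg t q L (j + 1) =
    100 * t * ((if 4 * (q : ℤ) * L ≤ j then 1 else 0) -
      (if j + 1 ≤ -(4 * (q : ℤ) * L) then 1 else 0)) := by
  unfold dg
  have hpos : (0 : ℤ) ≤ 4 * q * L := by positivity
  generalize 4 * (q : ℤ) * L = u at *
  have : (max 0 (j + 1 - u) + max 0 (-(j + 1) - u)) - (max 0 (j - u) + max 0 (-j - u)) =
      ((if u ≤ j then 1 else 0) - (if j + 1 ≤ -u then 1 else 0)) := by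
    split_ifs <;> omega
  rw [← this]
  ring

theorem sum_shift (N : ℕ) (β u : ℕ → ℝ) :
    ∑ i ∈ range N, β i * u i + ∑ i ∈ range N, β i * u (i + 1) =
      ∑ i ∈ range (N + 1), ((if i < N then β i else 0) + (if 0 < i then β (i - 1) else 0)) * u i := by
  have e1 : ∑ i ∈ range (N + 1), (if i < N then β i else 0) * u i = ∑ i ∈ range N, β i * u i := by
    rw [sum_range_succ, if_neg (lt_irrefl N), zero_mul, add_zero]
    apply sum_congr rfl
    intro i hi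
    rw [if_pos (mem_range.1 hi)]
  have e2 : ∑ i ∈ range (N + 1), (if 0 < i then β (i - 1) else 0) * u i =
      ∑ i ∈ range N, β i * u (i + 1) := by
    rw [sum_range_succ', if_neg (lt_irrefl 0), zero_mul, add_zero]
    apply sum_congr rfl
    intro i _
    rw [if_pos (Nat.succ_pos i), Nat.add_sub_cancel]
  rw [← e1, ← e2, ← sum_add_distrib]
  apply sum_congr rfl
  intro i _
  ring

/-- the correction term coming from the varying degrees is of lower order. -/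
theorem corr_le (t Q : ℕ) (R : ℝ) (n : ℤ → ℝ) (hn : ∀ j : ℤ, |j| ≤ 5 * Q → 0 ≤ n j)
    (hn' : ∀ j : ℤ, |j| ≤ 5 * Q → n j ≤ R) (δ : ℤ → ℝ)
    (hδ : ∀ j : ℤ, δ j = 100 * t * ((if 4 * (Q : ℤ) ≤ j then 1 else 0) -
      (if j + 1 ≤ -(4 * (Q : ℤ)) then 1 else 0))) :
    ∑ i ∈ range (2 * (5 * Q)), (2500 * (Q : ℝ) ^ 2 - 9 * (2 * (((i : ℤ) - (5 * Q : ℕ) : ℤ) : ℝ) + 1) ^ 2)
      * ((n ((i : ℤ) - (5 * Q : ℕ)) - n ((i : ℤ) - (5 * Q : ℕ) + 1)) * δ ((i : ℤ) - (5 * Q : ℕ))) ≤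
      500000 * t * (Q : ℝ) ^ 2 * R := by
  rcases Nat.eq_zero_or_pos Q with rfl | hQ
  · simp
  have hQ' : (1 : ℝ) ≤ Q := by exact_mod_cast hQ
  have hR : 0 ≤ R := (hn 0 (by simp)).trans (hn' 0 (by simp))
  rw [show 2 * (5 * Q) = Q + (8 * Q + Q) by ring, sum_range_add, sum_range_add]
  -- weights
  let w : ℕ → ℝ := fun i => 2500 * (Q : ℝ) ^ 2 - 9 * (8 * Q + 2 * i + 1) ^ 2
  have hw : ∀ i < Q, 0 ≤ w i := by
    intro i hi
    have h1 : (i : ℝ) + 1 ≤ Q := by exact_mod_cast hi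
    have h2 : (0 : ℝ) ≤ i := by positivity
    simp only [w]
    nlinarith
  have hw' : ∀ i, i + 1 < Q → w (i + 1) ≤ w i := by
    intro i hi
    have h2 : (0 : ℝ) ≤ i := by positivity
    simp only [w]
    push_cast
    nlinarith
  have hw0 : 0 ≤ w 0 := hw 0 hQ
  have hw0' : w 0 ≤ 2500 * (Q : ℝ) ^ 2 := by
    simp only [w]
    nlinarith [sq_nonneg (8 * (Q : ℝ) + 2 * ((0 : ℕ) : ℝ) + 1)]
  -- first block
  have B1 : ∑ x ∈ range Q, (2500 * (Q : ℝ) ^ 2 - 9 * (2 * (((x : ℤ) - (5 * Q : ℕ) : ℤ) : ℝ) + 1) ^ 2)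
      * ((n ((x : ℤ) - (5 * Q : ℕ)) - n ((x : ℤ) - (5 * Q : ℕ) + 1)) * δ ((x : ℤ) - (5 * Q : ℕ))) ≤
      100 * t * (2500 * (Q : ℝ) ^ 2 * R) := by
    rw [← sum_range_reflect]
    have e : ∀ i ∈ range Q, (2500 * (Q : ℝ) ^ 2 -
        9 * (2 * ((((Q - 1 - i : ℕ) : ℤ) - (5 * Q : ℕ) : ℤ) : ℝ) + 1) ^ 2)
        * ((n (((Q - 1 - i : ℕ) : ℤ) - (5 * Q : ℕ)) - n (((Q - 1 - i : ℕ) : ℤ) - (5 * Q : ℕ) + 1)) *
          δ (((Q - 1 - i : ℕ) : ℤ) - (5 * Q : ℕ))) =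
        100 * t * (w i * (n (-(4 * Q : ℤ) - i) - n (-(4 * Q : ℤ) - (i + 1 : ℕ)))) := by
      intro i hi
      have hi' := mem_range.1 hi
      have e1 : ((Q - 1 - i : ℕ) : ℤ) - (5 * Q : ℕ) = -(4 * Q : ℤ) - (i + 1 : ℕ) := by
        push_cast
        omega
      rw [e1, hδ]
      have e2 : -(4 * Q : ℤ) - (i + 1 : ℕ) + 1 = -(4 * Q : ℤ) - i := by push_cast; ring
      rw [e2, if_neg (by omega), if_pos (by omega)]
      simp only [w]
      push_cast
      ring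
    rw [sum_congr rfl e, ← mul_sum]
    apply mul_le_mul_of_nonneg_left _ (by positivity)
    refine (abel_le Q w (fun i => n (-(4 * Q : ℤ) - i)) hw hw' ?_ hw0).trans ?_
    · intro i hi
      apply hn
      rw [abs_le]
      constructor <;> omega
    · apply mul_le_mul hw0' _ _ (by positivity)
      · apply hn'
        rw [abs_le]
        constructor <;> omega
      · apply hn
        rw [abs_le]
        constructor <;> omega
  -- middle block
  have B2 : ∑ x ∈ range (8 * Q), (2500 * (Q : ℝ) ^ 2 -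
      9 * (2 * ((((Q + x : ℕ) : ℤ) - (5 * Q : ℕ) : ℤ) : ℝ) + 1) ^ 2)
      * ((n (((Q + x : ℕ) : ℤ) - (5 * Q : ℕ)) - n (((Q + x : ℕ) : ℤ) - (5 * Q : ℕ) + 1)) *
        δ (((Q + x : ℕ) : ℤ) - (5 * Q : ℕ))) = 0 := by
    apply sum_eq_zero
    intro i hi
    have hi' := mem_range.1 hi
    rw [hδ, if_neg (by push_cast; omega), if_neg (by push_cast; omega)]
    ring
  -- last block
  have B3 : ∑ x ∈ range Q, (2500 * (Q : ℝ) ^ 2 -
      9 * (2 * ((((Q + (8 * Q + x) : ℕ) : ℤ) - (5 * Q : ℕ) : ℤ) : ℝ) + 1) ^ 2)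
      * ((n (((Q + (8 * Q + x) : ℕ) : ℤ) - (5 * Q : ℕ)) -
        n (((Q + (8 * Q + x) : ℕ) : ℤ) - (5 * Q : ℕ) + 1)) *
        δ (((Q + (8 * Q + x) : ℕ) : ℤ) - (5 * Q : ℕ))) ≤ 100 * t * (2500 * (Q : ℝ) ^ 2 * R) := by
    have e : ∀ i ∈ range Q, (2500 * (Q : ℝ) ^ 2 -
        9 * (2 * ((((Q + (8 * Q + i) : ℕ) : ℤ) - (5 * Q : ℕ) : ℤ) : ℝ) + 1) ^ 2)
        * ((n (((Q + (8 * Q + i) : ℕ) : ℤ) - (5 * Q : ℕ)) -
          n (((Q + (8 * Q + i) : ℕ) : ℤ) - (5 * Q : ℕ) + 1)) *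
          δ (((Q + (8 * Q + i) : ℕ) : ℤ) - (5 * Q : ℕ))) =
        100 * t * (w i * (n ((4 * Q : ℤ) + i) - n ((4 * Q : ℤ) + (i + 1 : ℕ)))) := by
      intro i hi
      have hi' := mem_range.1 hi
      have e1 : ((Q + (8 * Q + i) : ℕ) : ℤ) - (5 * Q : ℕ) = (4 * Q : ℤ) + i := by
        push_cast
        omega
      rw [e1, hδ]
      have e2 : (4 * Q : ℤ) + i + 1 = (4 * Q : ℤ) + (i + 1 : ℕ) := by push_cast; ring
      rw [e2, if_pos (by omega), if_neg (by omega)]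
      simp only [w]
      push_cast
      ring
    rw [sum_congr rfl e, ← mul_sum]
    apply mul_le_mul_of_nonneg_left _ (by positivity)
    refine (abel_le Q w (fun i => n ((4 * Q : ℤ) + i)) hw hw' ?_ hw0).trans ?_
    · intro i hi
      apply hn
      rw [abs_le]
      constructor <;> omega
    · apply mul_le_mul hw0' _ _ (by positivity)
      · apply hn'
        rw [abs_le]
        constructor <;> omega
      · apply hn
        rw [abs_le]
        constructor <;> omega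
  rw [B2]
  linarith

namespace Sys

theorem exists_double_Phi (s : Sys G c L) (hq : 0 < q) (hL : 0 < L) : ∃ s' : Sys G c (2 * L),
    32 * s.Phi - 600000 * T.t * (q : ℝ) ^ 2 * G.Λ * (L : ℝ) ^ 3 ≤ s'.Phi := by
  obtain ⟨s', hs'⟩ := s.exists_double
  refine ⟨s', ?_⟩
  set Q : ℕ := q * L with hQ
  have hQ1 : 1 ≤ Q := Nat.mul_pos hq hL
  have hQr : (1 : ℝ) ≤ Q := by exact_mod_cast hQ1
  have hQc : (Q : ℝ) = q * L := by rw [hQ]; push_cast; ring
  have hQz : (Q : ℤ) = q * L := by rw [hQ]; push_cast; ring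
  have hM : 5 * q * L = 5 * Q := by rw [hQ]; ring
  -- even step
  have ev : ∀ j : ℤ, |j| ≤ 5 * q * L → 4 * s.ub j ≤ s'.ub (2 * j) := by
    intro j hj
    have h := av_add_le hj hj (f := fun a b => 2 * (s.U j a b : ℝ) + 0 * 0)
      (g := fun a b => 2 * (s.U j a b : ℝ) + 0 * 0)
      (H := fun a b => (s'.U (j + j) a b : ℝ)) (by
        intro a a' b b' h1 h2
        have := hs' j j a a' b b' h1 h2 (by rw [← two_mul, dg_double]; ring)
        unfold val at this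
        rw [sub_self, mul_zero, sub_zero] at this
        have h3 : (2 * (s.U j a b : ℝ) + 2 * s.U j a' b') ≤ s'.U (j + j) (a + a') (b + b') := by
          exact_mod_cast this
        linarith)
    rw [av_lin q L j 2 0 (fun a b => (s.U j a b : ℝ)) (fun _ _ => 0), av_const] at h
    have e : av q (L + L) (j + j) (fun a b => (s'.U (j + j) a b : ℝ)) = s'.ub (2 * j) := by
      unfold ub
      rw [← two_mul, ← two_mul]
    rw [e] at h
    unfold ub at h ⊢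
    linarith
  -- odd step
  have od : ∀ j : ℤ, |j| ≤ 5 * q * L → |j + 1| ≤ 5 * q * L →
      2 * s.ub j + 2 * s.ub (j + 1) -
        (s.nb j - s.nb (j + 1)) * ((dg T.t q L j - dg T.t q L (j + 1) : ℤ) : ℝ) ≤
      s'.ub (2 * j + 1) := by
    intro j hj hj'
    set δ : ℝ := ((dg T.t q L j - dg T.t q L (j + 1) : ℤ) : ℝ) with hδ
    have h := av_add_le hj hj' (f := fun a b => 2 * (s.U j a b : ℝ) + (-δ) * (s.n j a b : ℝ))
      (g := fun a b => 2 * (s.U (j + 1) a b : ℝ) + δ * (s.n (j + 1) a b : ℝ))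
      (H := fun a b => (s'.U (j + (j + 1)) a b : ℝ)) (by
        intro a a' b b' h1 h2
        have := hs' j (j + 1) a a' b b' h1 h2 (by
          rw [show j + (j + 1) = 2 * j + 1 by ring, dg_double_succ])
        unfold val at this
        have h3 : (2 * (s.U j a b : ℝ) + 2 * s.U (j + 1) a' b' -
          ((s.n j a b : ℝ) - s.n (j + 1) a' b') * δ) ≤
            s'.U (j + (j + 1)) (a + a') (b + b') := by
          rw [hδ]
          exact_mod_cast this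
        linarith)
    rw [av_lin, av_lin] at h
    have e : av q (L + L) (j + (j + 1)) (fun a b => (s'.U (j + (j + 1)) a b : ℝ)) =
        s'.ub (2 * j + 1) := by
      unfold ub
      rw [← two_mul, show j + (j + 1) = 2 * j + 1 by ring]
    rw [e] at h
    simp only [ub, nb] at h ⊢
    linarith
  -- the sum at level 2L
  have S1 : s'.Phi = ∑ i ∈ range (4 * (5 * Q) + 1),
      (fun j : ℤ => Wt q (2 * L) j * s'.ub j) ((i : ℤ) - 2 * ((5 * Q : ℕ) : ℤ)) := by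
    unfold Phi
    have e : 5 * q * (2 * L) = 2 * (5 * Q) := by rw [hQ]; ring
    rw [e, show 2 * (2 * (5 * Q)) + 1 = 4 * (5 * Q) + 1 by ring]
    apply sum_congr rfl
    intro i _
    simp only
    congr 2
  rw [S1, sum_split (5 * Q) (fun j : ℤ => Wt q (2 * L) j * s'.ub j)]
  -- ranges
  have rng : ∀ i ∈ range (2 * (5 * Q) + 1), |(i : ℤ) - (5 * Q : ℕ)| ≤ 5 * q * L := by
    intro i hi
    have := mem_range.1 hi
    have e : (5 * (q : ℤ) * L) = 5 * Q := by rw [hQz]; ring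
    rw [e, abs_le]
    push_cast
    constructor <;> omega
  have rng' : ∀ i ∈ range (2 * (5 * Q)), |(i : ℤ) - (5 * Q : ℕ)| ≤ 5 * q * L ∧
      |(i : ℤ) - (5 * Q : ℕ) + 1| ≤ 5 * q * L := by
    intro i hi
    have := mem_range.1 hi
    have e : (5 * (q : ℤ) * L) = 5 * Q := by rw [hQz]; ring
    rw [e, abs_le, abs_le]
    push_cast
    constructor <;> constructor <;> omega
  have wpos : ∀ j : ℤ, |j| ≤ 5 * q * L → 0 ≤ Wt q (2 * L) (2 * j) := by
    intro j hj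
    apply Wt_nonneg
    rw [abs_mul]
    push_cast
    rw [show |(2 : ℤ)| = 2 by rfl]
    linarith
  have wmid : ∀ j : ℤ, |j| ≤ 5 * q * L → |j + 1| ≤ 5 * q * L →
      Wt q (2 * L) (2 * j + 1) = 2500 * (Q : ℝ) ^ 2 - 9 * (2 * (j : ℝ) + 1) ^ 2 := by
    intro j hj hj'
    rw [Wt_mid]
    · push_cast
      rw [hQc]
      ring
    · rw [abs_le] at hj hj'
      push_cast
      have e : 5 * (q : ℤ) * (2 * L) = 2 * (5 * q * L) := by ring
      rw [e]
      generalize 5 * (q : ℤ) * L = u at *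
      intro h
      rcases abs_cases (2 * j + 1) with ⟨h1, _⟩ | ⟨h1, _⟩ <;> rw [h1] at h <;> omega
  have wmidpos : ∀ j : ℤ, |j| ≤ 5 * q * L → |j + 1| ≤ 5 * q * L →
      0 ≤ Wt q (2 * L) (2 * j + 1) := by
    intro j hj hj'
    apply Wt_nonneg
    rw [abs_le] at hj hj' ⊢
    push_cast
    constructor <;> linarith
  -- lower bounds of the two sums
  have E1 : ∑ i ∈ range (2 * (5 * Q) + 1), 4 * Wt q (2 * L) (2 * ((i : ℤ) - (5 * Q : ℕ))) *
      s.ub ((i : ℤ) - (5 * Q : ℕ)) ≤ ∑ i ∈ range (2 * (5 * Q) + 1),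
      Wt q (2 * L) (2 * ((i : ℤ) - (5 * Q : ℕ))) * s'.ub (2 * ((i : ℤ) - (5 * Q : ℕ))) := by
    apply sum_le_sum
    intro i hi
    have := mul_le_mul_of_nonneg_left (ev _ (rng i hi)) (wpos _ (rng i hi))
    linarith
  have E2 : ∑ i ∈ range (2 * (5 * Q)), Wt q (2 * L) (2 * ((i : ℤ) - (5 * Q : ℕ)) + 1) *
      (2 * s.ub ((i : ℤ) - (5 * Q : ℕ)) + 2 * s.ub ((i : ℤ) - (5 * Q : ℕ) + 1) -
        (s.nb ((i : ℤ) - (5 * Q : ℕ)) - s.nb ((i : ℤ) - (5 * Q : ℕ) + 1)) *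
          ((dg T.t q L ((i : ℤ) - (5 * Q : ℕ)) - dg T.t q L ((i : ℤ) - (5 * Q : ℕ) + 1) : ℤ) : ℝ)) ≤
      ∑ i ∈ range (2 * (5 * Q)),
      Wt q (2 * L) (2 * ((i : ℤ) - (5 * Q : ℕ)) + 1) * s'.ub (2 * ((i : ℤ) - (5 * Q : ℕ)) + 1) := by
    apply sum_le_sum
    intro i hi
    exact mul_le_mul_of_nonneg_left (od _ (rng' i hi).1 (rng' i hi).2)
      (wmidpos _ (rng' i hi).1 (rng' i hi).2)
  refine le_trans ?_ (add_le_add E1 E2)
  -- correction term
  have C1 := corr_le T.t Q (G.Λ * L) s.nb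
    (fun j hj => s.nb_nonneg (by rw [show (5 * (q : ℤ) * L) = 5 * Q by rw [hQz]; ring]; exact hj))
    (fun j hj => s.nb_le (by rw [show (5 * (q : ℤ) * L) = 5 * Q by rw [hQz]; ring]; exact hj))
    (fun j => ((dg T.t q L j - dg T.t q L (j + 1) : ℤ) : ℝ))
    (by
      intro j
      rw [dg_diff, show 4 * (q : ℤ) * L = 4 * (Q : ℤ) by rw [hQz]; ring]
      push_cast
      rfl)
  -- split the second sum
  have E3 : ∑ i ∈ range (2 * (5 * Q)), Wt q (2 * L) (2 * ((i : ℤ) - (5 * Q : ℕ)) + 1) *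
      (2 * s.ub ((i : ℤ) - (5 * Q : ℕ)) + 2 * s.ub ((i : ℤ) - (5 * Q : ℕ) + 1) -
        (s.nb ((i : ℤ) - (5 * Q : ℕ)) - s.nb ((i : ℤ) - (5 * Q : ℕ) + 1)) *
          ((dg T.t q L ((i : ℤ) - (5 * Q : ℕ)) - dg T.t q L ((i : ℤ) - (5 * Q : ℕ) + 1) : ℤ) : ℝ)) =
      (∑ i ∈ range (2 * (5 * Q)), (2 * Wt q (2 * L) (2 * ((i : ℤ) - (5 * Q : ℕ)) + 1)) *
        s.ub ((i : ℤ) - (5 * Q : ℕ)) +
      ∑ i ∈ range (2 * (5 * Q)), (2 * Wt q (2 * L) (2 * ((i : ℤ) - (5 * Q : ℕ)) + 1)) *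
        s.ub (((i + 1 : ℕ) : ℤ) - (5 * Q : ℕ))) -
      ∑ i ∈ range (2 * (5 * Q)),
        (2500 * (Q : ℝ) ^ 2 - 9 * (2 * (((i : ℤ) - (5 * Q : ℕ) : ℤ) : ℝ) + 1) ^ 2) *
        ((s.nb ((i : ℤ) - (5 * Q : ℕ)) - s.nb ((i : ℤ) - (5 * Q : ℕ) + 1)) *
          ((dg T.t q L ((i : ℤ) - (5 * Q : ℕ)) - dg T.t q L ((i : ℤ) - (5 * Q : ℕ) + 1) : ℤ) : ℝ)) := by
    rw [← sum_add_distrib, ← sum_sub_distrib]
    apply sum_congr rfl
    intro i hi
    rw [wmid _ (rng' i hi).1 (rng' i hi).2]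
    rw [show (((i + 1 : ℕ) : ℤ) - (5 * Q : ℕ)) = ((i : ℤ) - (5 * Q : ℕ)) + 1 by push_cast; ring]
    ring
  rw [E3, sum_shift (2 * (5 * Q)) (fun i => 2 * Wt q (2 * L) (2 * ((i : ℤ) - (5 * Q : ℕ)) + 1))
    (fun i => s.ub ((i : ℤ) - (5 * Q : ℕ)))]
  -- main comparison
  have E4 : ∑ i ∈ range (2 * (5 * Q) + 1), (32 * Wt q L ((i : ℤ) - (5 * Q : ℕ)) - 36) *
      s.ub ((i : ℤ) - (5 * Q : ℕ)) ≤
      ∑ i ∈ range (2 * (5 * Q) + 1), 4 * Wt q (2 * L) (2 * ((i : ℤ) - (5 * Q : ℕ))) *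
      s.ub ((i : ℤ) - (5 * Q : ℕ)) +
      ∑ i ∈ range (2 * (5 * Q) + 1),
      ((if i < 2 * (5 * Q) then (fun i : ℕ => 2 * Wt q (2 * L) (2 * ((i : ℤ) - (5 * Q : ℕ)) + 1)) i
        else 0) +
       (if 0 < i then (fun i : ℕ => 2 * Wt q (2 * L) (2 * ((i : ℤ) - (5 * Q : ℕ)) + 1)) (i - 1)
        else 0)) * (fun i : ℕ => s.ub ((i : ℤ) - (5 * Q : ℕ))) i := by
    rw [← sum_add_distrib]
    apply sum_le_sum
    intro i hi
    have hi' := mem_range.1 hi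
    have hub := s.ub_nonneg (rng i hi)
    rw [← add_mul]
    apply mul_le_mul_of_nonneg_right _ hub
    simp only
    have hi0 : (i : ℝ) ≤ 10 * Q := by
      have : i ≤ 10 * Q := by omega
      exact_mod_cast this
    rcases Nat.eq_zero_or_pos i with h0 | h0
    · -- left end
      subst h0
      rw [if_pos (by omega), if_neg (lt_irrefl 0)]
      have ea : |((0 : ℕ) : ℤ) - (5 * Q : ℕ)| = 5 * q * L := by
        rw [show (5 * (q : ℤ) * L) = 5 * Q by rw [hQz]; ring]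
        push_cast
        rw [zero_sub, abs_neg, abs_of_nonneg (by positivity)]
      have eb : |2 * (((0 : ℕ) : ℤ) - (5 * Q : ℕ))| = 5 * q * ((2 * L : ℕ) : ℤ) := by
        rw [abs_mul, ea]
        push_cast
        rw [show |(2 : ℤ)| = 2 by rfl]
        ring
      rw [Wt_end ea, Wt_end eb, wmid _ (rng' 0 (mem_range.2 (by omega))).1
        (rng' 0 (mem_range.2 (by omega))).2]
      push_cast
      rw [hQc] at hQr ⊢
      nlinarith
    · rcases Nat.lt_or_ge i (2 * (5 * Q)) with h1 | h1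
      · -- interior
        rw [if_pos h1, if_pos h0]
        have hne : ∀ k : ℕ, 0 < k → k < 2 * (5 * Q) → |(k : ℤ) - (5 * Q : ℕ)| ≠ 5 * q * L := by
          intro k hk hk' h
          rw [show (5 * (q : ℤ) * L) = 5 * Q by rw [hQz]; ring] at h
          push_cast at h
          rcases abs_cases ((k : ℤ) - 5 * Q) with ⟨h2, _⟩ | ⟨h2, _⟩ <;> rw [h2] at h <;> omega
        have hne2 : |2 * ((i : ℤ) - (5 * Q : ℕ))| ≠ 5 * q * ((2 * L : ℕ) : ℤ) := by
          intro h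
          apply hne i h0 h1
          rw [abs_mul, show |(2 : ℤ)| = 2 by rfl] at h
          push_cast at h ⊢
          linarith
        rw [Wt_mid (hne i h0 h1), Wt_mid hne2, wmid _ (rng' i (mem_range.2 h1)).1
          (rng' i (mem_range.2 h1)).2, wmid _ (rng' (i - 1) (mem_range.2 (by omega))).1
          (rng' (i - 1) (mem_range.2 (by omega))).2]
        rw [show (((i - 1 : ℕ) : ℤ) - (5 * Q : ℕ)) = ((i : ℤ) - (5 * Q : ℕ)) - 1 by
          push_cast [Nat.cast_sub (show 1 ≤ i by omega)]; ring]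
        push_cast
        rw [hQc]
        nlinarith
      · -- right end
        have hi2 : i = 2 * (5 * Q) := by omega
        subst hi2
        rw [if_neg (lt_irrefl _), if_pos h0]
        have ea : |((2 * (5 * Q) : ℕ) : ℤ) - (5 * Q : ℕ)| = 5 * q * L := by
          rw [show (5 * (q : ℤ) * L) = 5 * Q by rw [hQz]; ring]
          push_cast
          rw [show (2 : ℤ) * (5 * Q) - 5 * Q = 5 * Q by ring, abs_of_nonneg (by positivity)]
        have eb : |2 * (((2 * (5 * Q) : ℕ) : ℤ) - (5 * Q : ℕ))| = 5 * q * ((2 * L : ℕ) : ℤ) := by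
          rw [abs_mul, ea]
          push_cast
          rw [show |(2 : ℤ)| = 2 by rfl]
          ring
        rw [Wt_end ea, Wt_end eb, wmid _ (rng' (2 * (5 * Q) - 1) (mem_range.2 (by omega))).1
          (rng' (2 * (5 * Q) - 1) (mem_range.2 (by omega))).2]
        rw [show (((2 * (5 * Q) - 1 : ℕ) : ℤ) - (5 * Q : ℕ)) = 5 * (Q : ℤ) - 1 by
          rw [Nat.cast_sub (show 1 ≤ 2 * (5 * Q) by omega)]; push_cast; ring]
        push_cast
        rw [hQc] at hQr ⊢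
        nlinarith
  -- the error term
  have E5 : ∑ i ∈ range (2 * (5 * Q) + 1), 36 * s.ub ((i : ℤ) - (5 * Q : ℕ)) ≤
      36 * ((11 * Q) * (G.Λ * L * (105 * T.t * q * L))) := by
    rw [← mul_sum]
    apply mul_le_mul_of_nonneg_left _ (by norm_num)
    have : ∑ i ∈ range (2 * (5 * Q) + 1), s.ub ((i : ℤ) - (5 * Q : ℕ)) ≤
        ∑ _i ∈ range (2 * (5 * Q) + 1), ((G.Λ : ℝ) * L * (105 * T.t * q * L)) :=
      sum_le_sum fun i hi => s.ub_le (rng i hi)
    rw [sum_const, card_range, nsmul_eq_mul] at this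
    refine this.trans ?_
    apply mul_le_mul_of_nonneg_right _ (by positivity)
    push_cast
    linarith
  have E6 : s.Phi = ∑ i ∈ range (2 * (5 * Q) + 1), Wt q L ((i : ℤ) - (5 * Q : ℕ)) *
      s.ub ((i : ℤ) - (5 * Q : ℕ)) := by
    unfold Phi
    rw [hM]
  have E7 : ∑ i ∈ range (2 * (5 * Q) + 1), (32 * Wt q L ((i : ℤ) - (5 * Q : ℕ)) - 36) *
      s.ub ((i : ℤ) - (5 * Q : ℕ)) = 32 * s.Phi -
      ∑ i ∈ range (2 * (5 * Q) + 1), 36 * s.ub ((i : ℤ) - (5 * Q : ℕ)) := by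
    rw [E6, mul_sum, ← sum_sub_distrib]
    apply sum_congr rfl
    intro i _
    ring
  rw [E7] at E4
  have hfin : 36 * ((11 * (Q : ℝ)) * (G.Λ * L * (105 * T.t * q * L))) +
      500000 * T.t * (Q : ℝ) ^ 2 * (G.Λ * L) ≤
      600000 * T.t * (q : ℝ) ^ 2 * G.Λ * (L : ℝ) ^ 3 := by
    rw [hQc]
    have : (0 : ℝ) ≤ T.t * (q : ℝ) ^ 2 * G.Λ * (L : ℝ) ^ 3 := by positivity
    nlinarith
  linarith

end Sys

end Pool.Agent.YTD


end

/- source: Pool.Agent.YTD.Limit -/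

section

namespace Pool.Agent.YTD

open Finset Module

theorem sum_range_eq_Icc (M : ℕ) (F : ℤ → ℝ) :
    ∑ i ∈ range (2 * M + 1), F ((i : ℤ) - M) = ∑ j ∈ Icc (-(M : ℤ)) M, F j := by
  refine sum_bij' (fun i _ => (i : ℤ) - M) (fun j _ => (j + M).toNat) ?_ ?_ ?_ ?_ ?_
  · intro i hi
    have := mem_range.1 hi
    rw [mem_Icc]
    constructor <;> omega
  · intro j hj
    have := mem_Icc.1 hj
    rw [mem_range]
    omega
  · intro i hi
    simp
  · intro j hj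
    have := mem_Icc.1 hj
    rw [Int.toNat_of_nonneg (by linarith)]
    ring
  · intro i hi
    rfl

variable {K : Type} [Field K] [Algebra ℂ K]
variable {T : Datum K} {q : ℕ} {D₀ : T.X.Pt →₀ ℤ}

theorem av_mult {q L : ℕ} {j : ℤ} (h : |j| ≤ 5 * q * L) (f : ℕ → ℕ → ℝ) :
    ((25 * (q : ℝ) * L + 3 * j + 1) * (25 * (q : ℝ) * L - 3 * j + 1)) * av q L j f =
      ∑ a ∈ range (AA q L j + 1), ∑ b ∈ range (BB q L j + 1), f a b := by
  unfold av
  rw [← avg2_eq]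
  have h1 : ((AA q L j : ℕ) : ℝ) = 25 * q * L + 3 * j := by exact_mod_cast AA_cast h
  have h2 : ((BB q L j : ℕ) : ℝ) = 25 * q * L - 3 * j := by exact_mod_cast BB_cast h
  rw [h1, h2]

theorem Wt_le_mult {q L : ℕ} {j : ℤ} (h : |j| ≤ 5 * q * L) :
    Wt q L j ≤ (25 * (q : ℝ) * L + 3 * j + 1) * (25 * (q : ℝ) * L - 3 * j + 1) := by
  have h1 : |(j : ℝ)| ≤ 5 * q * L := by exact_mod_cast h
  have h2 : (j : ℝ) ^ 2 ≤ (5 * q * L) ^ 2 := sq_le_sq' (by linarith [(abs_le.1 h1).1])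
    (abs_le.1 h1).2
  have h3 : (0 : ℝ) ≤ q * L := by positivity
  unfold Wt
  split_ifs
  · nlinarith
  · nlinarith

namespace Graded

variable (G : Graded T q D₀)

/-- the total dimension at level `M`. -/
noncomputable def tot (M : ℕ) : ℝ :=
  ∑ j ∈ Icc (-((5 * q * M : ℕ) : ℤ)) ((5 * q * M : ℕ) : ℤ), ∑ a ∈ range (AA q M j + 1),
    ∑ b ∈ range (BB q M j + 1), ∑ l ∈ range (G.Λ * M), (finrank ℂ (G.W M (l + 1) j a b) : ℝ)

/-- length of the filtration. -/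
noncomputable def nn (N : ℕ) (j : ℤ) (a b : ℕ) : ℕ :=
  open Classical in
  Nat.findGreatest (fun l => G.W N l j a b ≠ ⊥) (G.Λ * N)

theorem two_genus_le (hq : 0 < q) {N : ℕ} (hN : 4 ≤ N) :
    2 * (T.X.genus : ℤ) ≤ 5 * T.t * q * N := by
  rw [T.genus_eq]
  have h1 := T.t_pos
  have h2 : (1 : ℤ) ≤ T.t := by exact_mod_cast h1
  have h3 : (1 : ℤ) ≤ q := by exact_mod_cast hq
  have h4 : (4 : ℤ) ≤ N := by exact_mod_cast hN
  have h5 : (4 : ℤ) ≤ q * N := by nlinarith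
  push_cast
  nlinarith

variable (hD : T.X.deg D₀ = 105 * T.t * q)

include hD in
theorem deg_ge (hq : 0 < q) {N : ℕ} (hN : 4 ≤ N) {j : ℤ} (hj : |j| ≤ 5 * q * N) :
    2 * (T.X.genus : ℤ) ≤ T.X.deg (T.dvs q D₀ N j) := by
  rw [deg_dvs_crit T q D₀ hD]
  exact (two_genus_le hq hN).trans (le_dg hj)

include hD in
theorem W_zero_ne (hq : 0 < q) {N : ℕ} (hN : 4 ≤ N) {j : ℤ} {a b : ℕ} (h : InR q N j a b) :
    G.W N 0 j a b ≠ ⊥ := by
  rw [G.W_zero N j a b h]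
  exact T.X.L_ne_bot (deg_ge hD hq hN h.1)

include hD in
theorem W_ne_bot (hq : 0 < q) {N : ℕ} (hN : 4 ≤ N) {j : ℤ} {a b : ℕ} (h : InR q N j a b)
    {l : ℕ} (hl : l ≤ G.nn N j a b) : G.W N l j a b ≠ ⊥ := by
  classical
  have h1 : G.W N (G.nn N j a b) j a b ≠ ⊥ := by
    have := Nat.findGreatest_spec (P := fun l => G.W N l j a b ≠ ⊥) (Nat.zero_le (G.Λ * N))
      (G.W_zero_ne hD hq hN h)
    unfold nn
    convert this
  intro h2
  apply h1
  rw [eq_bot_iff, ← h2]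
  exact G.W_anti N l _ j a b hl

theorem W_eq_bot {N : ℕ} {j : ℤ} {a b : ℕ} {l : ℕ} (hl : G.nn N j a b < l) :
    G.W N l j a b = ⊥ := by
  classical
  by_contra h
  have h1 : l ≤ G.Λ * N := by
    by_contra h2
    exact h (G.W_top N l j a b (not_le.1 h2))
  have := Nat.le_findGreatest (P := fun l => G.W N l j a b ≠ ⊥) h1 h
  unfold nn at hl
  have h3 : l ≤ Nat.findGreatest (fun l => G.W N l j a b ≠ ⊥) (G.Λ * N) := this
  have h4 : Nat.findGreatest (fun l => G.W N l j a b ≠ ⊥) (G.Λ * N) < l := by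
    convert hl
  omega

theorem nn_le (N : ℕ) (j : ℤ) (a b : ℕ) : G.nn N j a b ≤ G.Λ * N := by
  classical
  unfold nn
  convert Nat.findGreatest_le (P := fun l => G.W N l j a b ≠ ⊥) (G.Λ * N)

/-- the constant used for realizability at level `N`. -/
noncomputable def cst (T : Datum K) (q N : ℕ) : ℤ := 105 * T.t * q * N + 2 * T.X.genus

/-- the actual system at level `N`. -/
noncomputable def base (P₀ : T.X.Pt) (hq : 0 < q) {N : ℕ} (hN : 4 ≤ N) : Sys G (cst T q N) N where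
  n := G.nn N
  m := fun j a b l => T.X.mdeg (G.W N l j a b)
  n_le := fun j a b _ => G.nn_le N j a b
  m_zero := by
    intro j a b h
    rw [G.W_zero N j a b h]
    unfold Datum.V
    rw [T.X.mdeg_L P₀ (deg_ge hD hq hN h.1), deg_dvs_crit T q D₀ hD]
  m_anti := by
    intro j a b h l l' hl hl'
    exact CurveOrd.mdeg_mono (G.W_le N l j a b h) (G.W_anti N l l' j a b hl)
      (G.W_ne_bot hD hq hN h hl')
  real := by
    intro j a b h l hl
    apply G.real_base P₀ h (G.W_ne_bot hD hq hN h hl)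
    have h1 := CurveOrd.mdeg_le (G.W_le N l j a b h) (G.W_ne_bot hD hq hN h hl)
    rw [deg_dvs_crit T q D₀ hD] at h1
    have h2 := dg_le T.t q N j
    unfold cst
    linarith

variable {G}

/-- iterated doubling. -/
theorem iterate (hq : 0 < q) {c : ℤ} {N : ℕ} (hN : 0 < N) (s : Sys G c N) (i : ℕ) :
    ∃ s' : Sys G c (2 ^ i * N), 32 ^ i * s.Phi -
      600000 * T.t * (q : ℝ) ^ 2 * G.Λ * (N : ℝ) ^ 3 * ((32 ^ i - 8 ^ i) / 24) ≤ s'.Phi := by
  induction i with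
  | zero =>
    rw [pow_zero, one_mul]
    refine ⟨s, ?_⟩
    norm_num
  | succ i ih =>
    obtain ⟨s', hs'⟩ := ih
    obtain ⟨s'', hs''⟩ := s'.exists_double_Phi hq (by positivity)
    have e : 2 * (2 ^ i * N) = 2 ^ (i + 1) * N := by rw [pow_succ]; ring
    rw [← e]
    refine ⟨s'', le_trans ?_ hs''⟩
    push_cast
    have e1 : ((2 : ℝ) ^ i * N) ^ 3 = 8 ^ i * (N : ℝ) ^ 3 := by
      rw [mul_pow, ← pow_mul, mul_comm i 3, pow_mul]
      norm_num
    rw [e1, show (32 : ℝ) ^ (i + 1) = 32 * 32 ^ i from pow_succ' _ _,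
      show (8 : ℝ) ^ (i + 1) = 8 * 8 ^ i from pow_succ' _ _]
    have := mul_le_mul_of_nonneg_left hs' (by norm_num : (0 : ℝ) ≤ 32)
    linarith

include hD in
/-- realizable degrees bound dimensions. -/
theorem Phi_le_tot (P₀ : T.X.Pt) (hq : 0 < q) {N L : ℕ} (hN : 4 ≤ N) (s : Sys G (cst T q N) L) :
    s.Phi ≤ G.tot (2 * N + L) := by
  have hD' : ∀ j : ℤ, |j| ≤ 5 * q * L ↔ j ∈ Icc (-((5 * q * L : ℕ) : ℤ)) ((5 * q * L : ℕ) : ℤ) := by
    intro j
    rw [mem_Icc, abs_le]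
    push_cast
    rfl
  have h1 : s.Phi ≤ ∑ j ∈ Icc (-((5 * q * L : ℕ) : ℤ)) ((5 * q * L : ℕ) : ℤ),
      ∑ a ∈ range (AA q L j + 1), ∑ b ∈ range (BB q L j + 1), (s.U j a b : ℝ) := by
    unfold Sys.Phi
    rw [sum_range_eq_Icc (5 * q * L) (fun j => Wt q L j * s.ub j)]
    apply sum_le_sum
    intro j hj
    have hj' := (hD' j).2 hj
    rw [← av_mult hj']
    exact mul_le_mul_of_nonneg_right (Wt_le_mult hj') (s.ub_nonneg hj')
  refine h1.trans ?_
  unfold tot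
  have hsub : Icc (-((5 * q * L : ℕ) : ℤ)) ((5 * q * L : ℕ) : ℤ) ⊆
      Icc (-((5 * q * (2 * N + L) : ℕ) : ℤ)) ((5 * q * (2 * N + L) : ℕ) : ℤ) := by
    apply Icc_subset_Icc
    · apply neg_le_neg
      exact_mod_cast Nat.mul_le_mul_left (5 * q) (by omega : L ≤ 2 * N + L)
    · exact_mod_cast Nat.mul_le_mul_left (5 * q) (by omega : L ≤ 2 * N + L)
  refine le_trans ?_ (sum_le_sum_of_subset_of_nonneg hsub (fun _ _ _ =>
    sum_nonneg fun _ _ => sum_nonneg fun _ _ => sum_nonneg fun _ _ => by positivity))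
  apply sum_le_sum
  intro j hj
  have hj' := (hD' j).2 hj
  have hA : AA q L j ≤ AA q (2 * N + L) j := by
    unfold AA
    apply Int.toNat_le_toNat
    push_cast
    nlinarith [mul_nonneg (Int.natCast_nonneg q) (Int.natCast_nonneg N)]
  have hB : BB q L j ≤ BB q (2 * N + L) j := by
    unfold BB
    apply Int.toNat_le_toNat
    push_cast
    nlinarith [mul_nonneg (Int.natCast_nonneg q) (Int.natCast_nonneg N)]
  refine le_trans ?_ (sum_le_sum_of_subset_of_nonneg (range_subset_range.2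
    (Nat.succ_le_succ hA)) (fun _ _ _ => sum_nonneg fun _ _ => sum_nonneg fun _ _ => by positivity))
  apply sum_le_sum
  intro a ha
  refine le_trans ?_ (sum_le_sum_of_subset_of_nonneg (range_subset_range.2
    (Nat.succ_le_succ hB)) (fun _ _ _ => sum_nonneg fun _ _ => by positivity))
  apply sum_le_sum
  intro b hb
  have hin : InR q L j a b := (inR_iff hj').2
    ⟨Nat.lt_succ_iff.1 (mem_range.1 ha), Nat.lt_succ_iff.1 (mem_range.1 hb)⟩
  have hn := s.n_le j a b hin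
  have hn' : s.n j a b ≤ G.Λ * (2 * N + L) :=
    hn.trans (Nat.mul_le_mul_left _ (by omega))
  refine le_trans ?_ (sum_le_sum_of_subset_of_nonneg (range_subset_range.2 hn')
    (fun _ _ _ => by positivity))
  unfold Sys.U
  push_cast
  apply sum_le_sum
  intro l hl
  have hl' := mem_range.1 hl
  have hr := s.real j a b hin (l + 1) (by omega)
  have hin0 : InR q (2 * N) 0 0 0 := by
    refine ⟨?_, ?_, ?_⟩
    · rw [abs_zero]; positivity
    · push_cast; positivity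
    · push_cast; linarith [mul_nonneg (mul_nonneg (by norm_num : (0 : ℤ) ≤ 25)
        (Int.natCast_nonneg q)) (mul_nonneg (by norm_num : (0 : ℤ) ≤ 2) (Int.natCast_nonneg N))]
  have hdeg0 : dg T.t q (2 * N) 0 = 105 * T.t * q * (2 * N) := by
    unfold dg
    have : (0 : ℤ) ≤ 4 * q * ((2 * N : ℕ) : ℤ) := by positivity
    rw [max_eq_left (by linarith), max_eq_left (by linarith)]
    push_cast
    ring
  have hg := two_genus_le (T := T) (q := q) hq hN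
  have hdvs : T.X.deg (T.dvs q D₀ (2 * N) 0) = 105 * T.t * q * (2 * N) := by
    rw [deg_dvs_crit T q D₀ hD, hdeg0]
  have htq : (0 : ℤ) ≤ T.t * q * N := by positivity
  obtain ⟨D', hD'1, hD'2⟩ := hr.2.2 (2 * N) 0 0 0 0 (T.dvs q D₀ (2 * N) 0) hin0
    (by rw [G.W_zero (2 * N) 0 0 0 hin0]; exact le_rfl) (by
      rw [hdvs]
      unfold cst
      nlinarith)
  rw [zero_add, zero_add, zero_add, zero_add] at hD'2
  have hin' : InR q (2 * N + L) j a b := by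
    have := hin0.add hin
    rwa [zero_add, zero_add, zero_add] at this
  have hfin : FiniteDimensional ℂ (G.W (2 * N + L) (l + 1) j a b) :=
    T.X.finite_of_le P₀ (G.W_le _ _ _ _ _ hin')
  have h3 := Submodule.finrank_mono hD'2
  have hm := s.m_nonneg hin (show l + 1 ≤ s.n j a b by omega)
  rw [hdvs] at hD'1
  have h4 := T.X.riemann_roch D' (by nlinarith)
  have h5 : ((finrank ℂ (T.X.L D') : ℕ) : ℤ) ≤
      (finrank ℂ (G.W (2 * N + L) (l + 1) j a b) : ℤ) := by exact_mod_cast h3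
  rw [h4] at h5
  have h6 : s.m j a b (l + 1) ≤ (finrank ℂ (G.W (2 * N + L) (l + 1) j a b) : ℤ) := by
    have hg0 : (0 : ℤ) ≤ T.X.genus := by positivity
    nlinarith
  exact_mod_cast h6

end Graded

end Pool.Agent.YTD


end

/- source: Pool.Agent.YTD.Limit2 -/

section

namespace Pool.Agent.YTD

open Finset Module Filter

variable {K : Type} [Field K] [Algebra ℂ K]
variable {T : Datum K} {q : ℕ} {D₀ : T.X.Pt →₀ ℤ}

namespace Graded

variable {G : Graded T q D₀}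
variable (hD : T.X.deg D₀ = 105 * T.t * q)

/-- expansion of the total dimension. -/
def TotExp (G : Graded T q D₀) (s₀ s₁ : ℝ) : Prop :=
  ∃ C : ℝ, ∀ᶠ M : ℕ in atTop, |G.tot M - (s₀ * M ^ 5 + s₁ * M ^ 4)| ≤ C * M ^ 3

include hD in
theorem Phi_le_limit (P₀ : T.X.Pt) (hq : 0 < q) {s₀ s₁ : ℝ} (hS : G.TotExp s₀ s₁) {N : ℕ}
    (hN : 4 ≤ N) (s : Sys G (cst T q N) N) :
    s.Phi ≤ s₀ * N ^ 5 + 600000 * T.t * (q : ℝ) ^ 2 * G.Λ * (N : ℝ) ^ 3 := by
  obtain ⟨C₁, hC₁⟩ := hS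
  set E : ℝ := 600000 * T.t * (q : ℝ) ^ 2 * G.Λ * (N : ℝ) ^ 3 with hE
  have hE0 : 0 ≤ E := by positivity
  -- the sequence of levels
  let M : ℕ → ℕ := fun i => 2 * N + 2 ^ i * N
  have hM : Tendsto M atTop atTop := by
    apply tendsto_atTop_mono (f := fun i : ℕ => i)
    · intro i
      have h1 : i < 2 ^ i := Nat.lt_two_pow_self
      have h2 : 2 ^ i ≤ 2 ^ i * N := Nat.le_mul_of_pos_right _ (by omega)
      simp only [M]
      omega
    · exact tendsto_id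
  -- bound for large i
  have h1 : ∀ᶠ i : ℕ in atTop, s.Phi - E ≤ s₀ * ((M i : ℝ) / 2 ^ i) ^ 5 +
      s₁ * ((M i : ℝ) / 2 ^ i) ^ 4 * (1 / 2) ^ i + C₁ * ((M i : ℝ) / 2 ^ i) ^ 3 * (1 / 4) ^ i := by
    filter_upwards [hM.eventually hC₁] with i hi
    obtain ⟨s', hs'⟩ := iterate hq (show 0 < N by omega) s i
    have h2 := Phi_le_tot hD P₀ hq hN s'
    have h3 := (abs_le.1 hi).2
    have h4 : G.tot (2 * N + 2 ^ i * N) = G.tot (M i) := rfl
    rw [h4] at h2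
    have h5 : (32 : ℝ) ^ i * (s.Phi - E) ≤ s₀ * (M i : ℝ) ^ 5 + s₁ * (M i : ℝ) ^ 4 +
        C₁ * (M i : ℝ) ^ 3 := by
      have h6 : E * (((32 : ℝ) ^ i - 8 ^ i) / 24) ≤ E * 32 ^ i := by
        apply mul_le_mul_of_nonneg_left _ hE0
        have : (0 : ℝ) < 8 ^ i := by positivity
        have : (0 : ℝ) < 32 ^ i := by positivity
        linarith
      have h7 : 600000 * T.t * (q : ℝ) ^ 2 * G.Λ * (N : ℝ) ^ 3 * (((32 : ℝ) ^ i - 8 ^ i) / 24) =
        E * (((32 : ℝ) ^ i - 8 ^ i) / 24) := by rw [hE]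
      rw [h7] at hs'
      linarith
    have h8 : (0 : ℝ) < 32 ^ i := by positivity
    have h9 : s.Phi - E ≤ (s₀ * (M i : ℝ) ^ 5 + s₁ * (M i : ℝ) ^ 4 +
        C₁ * (M i : ℝ) ^ 3) / 32 ^ i := by
      rw [le_div_iff₀ h8]
      linarith
    refine h9.trans (le_of_eq ?_)
    have e2 : (32 : ℝ) ^ i = (2 ^ i) ^ 5 := by rw [← pow_mul, mul_comm, pow_mul]; norm_num
    have e3 : (1 / 2 : ℝ) ^ i = 1 / 2 ^ i := by rw [div_pow, one_pow]
    have e4 : (1 / 4 : ℝ) ^ i = 1 / (2 ^ i) ^ 2 := by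
      rw [div_pow, one_pow, ← pow_mul, mul_comm, pow_mul]; norm_num
    rw [e2, e3, e4]
    have h10 : (0 : ℝ) < 2 ^ i := by positivity
    field_simp
  -- limits
  have h2 : Tendsto (fun i : ℕ => (M i : ℝ) / 2 ^ i) atTop (nhds N) := by
    have e : (fun i : ℕ => (M i : ℝ) / 2 ^ i) = fun i : ℕ => (N : ℝ) + 2 * N * (1 / 2) ^ i := by
      funext i
      simp only [M]
      push_cast
      have h10 : (0 : ℝ) < 2 ^ i := by positivity
      rw [show (1 / 2 : ℝ) ^ i = 1 / 2 ^ i by rw [div_pow, one_pow]]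
      field_simp
      ring
    rw [e]
    have h3 : Tendsto (fun i : ℕ => (1 / 2 : ℝ) ^ i) atTop (nhds 0) :=
      tendsto_pow_atTop_nhds_zero_of_lt_one (by norm_num) (by norm_num)
    have h4 := (h3.const_mul (2 * (N : ℝ))).const_add (N : ℝ)
    rw [mul_zero, add_zero] at h4
    exact h4
  have h3 : Tendsto (fun i : ℕ => (1 / 2 : ℝ) ^ i) atTop (nhds 0) :=
    tendsto_pow_atTop_nhds_zero_of_lt_one (by norm_num) (by norm_num)
  have h3' : Tendsto (fun i : ℕ => (1 / 4 : ℝ) ^ i) atTop (nhds 0) :=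
    tendsto_pow_atTop_nhds_zero_of_lt_one (by norm_num) (by norm_num)
  have h4 : Tendsto (fun i : ℕ => s₀ * ((M i : ℝ) / 2 ^ i) ^ 5 +
      s₁ * ((M i : ℝ) / 2 ^ i) ^ 4 * (1 / 2) ^ i + C₁ * ((M i : ℝ) / 2 ^ i) ^ 3 * (1 / 4) ^ i) atTop
      (nhds (s₀ * (N : ℝ) ^ 5 + s₁ * (N : ℝ) ^ 4 * 0 + C₁ * (N : ℝ) ^ 3 * 0)) :=
    (((h2.pow 5).const_mul s₀).add (((h2.pow 4).const_mul s₁).mul h3)).add
      (((h2.pow 3).const_mul C₁).mul h3')
  rw [mul_zero, mul_zero, add_zero, add_zero] at h4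
  have h5 := ge_of_tendsto h4 h1
  linarith

end Graded

end Pool.Agent.YTD


end

/- source: Pool.Agent.YTD.Upper -/

section

namespace Pool.Agent.YTD

open Finset Module Filter

/-- the functional `Λ`. -/
noncomputable def Lam (q N : ℕ) (ν : ℤ → ℝ) : ℝ :=
  ∑ j ∈ Icc (-((5 * q * N : ℕ) : ℤ)) ((5 * q * N : ℕ) : ℤ),
    (81 * (j : ℝ) ^ 2 - 375 * ((q : ℝ) * N) ^ 2 -
      5000 * ((q : ℝ) * N) * max 0 (|(j : ℝ)| - 4 * (q * N))) * ν j +
  1000 * ((q : ℝ) * N) ^ 3 * (ν ((5 * q * N : ℕ) : ℤ) + ν (-((5 * q * N : ℕ) : ℤ)))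

/-- multiplicities -/
noncomputable def mult (q N : ℕ) (j : ℤ) : ℝ :=
  (25 * (q : ℝ) * N + 3 * j + 1) * (25 * (q : ℝ) * N - 3 * j + 1)

theorem mem_Icc_iff {q N : ℕ} {j : ℤ} :
    j ∈ Icc (-((5 * q * N : ℕ) : ℤ)) ((5 * q * N : ℕ) : ℤ) ↔ |j| ≤ 5 * q * N := by
  rw [mem_Icc, abs_le]
  push_cast
  rfl

theorem mult_pos {q N : ℕ} {j : ℤ} (h : |j| ≤ 5 * q * N) : 0 < mult q N j := by
  have h1 : |(j : ℝ)| ≤ 5 * q * N := by exact_mod_cast h
  have h2 := abs_le.1 h1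
  have h3 : (0 : ℝ) ≤ q * N := by positivity
  unfold mult
  apply mul_pos <;> nlinarith

variable {K : Type} [Field K] [Algebra ℂ K]
variable {T : Datum K} {q : ℕ} {D₀ : T.X.Pt →₀ ℤ}

namespace Graded

variable (G : Graded T q D₀)

/-- length of the part with large mobile degree. -/
noncomputable def nn' (N : ℕ) (j : ℤ) (a b : ℕ) : ℕ :=
  open Classical in
  Nat.findGreatest (fun l => G.W N l j a b ≠ ⊥ ∧
    2 * (T.X.genus : ℤ) - 1 ≤ T.X.mdeg (G.W N l j a b)) (G.Λ * N)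

/-- sum of the mobile degrees. -/
noncomputable def Uf (N : ℕ) (j : ℤ) (a b : ℕ) : ℤ :=
  ∑ l ∈ range (G.nn N j a b), T.X.mdeg (G.W N (l + 1) j a b)

noncomputable def nb (N : ℕ) (j : ℤ) : ℝ := av q N j fun a b => (G.nn N j a b : ℝ)
noncomputable def nb' (N : ℕ) (j : ℤ) : ℝ := av q N j fun a b => (G.nn' N j a b : ℝ)
noncomputable def ub (N : ℕ) (j : ℤ) : ℝ := av q N j fun a b => (G.Uf N j a b : ℝ)
noncomputable def yb (N : ℕ) (j : ℤ) : ℝ := (dg T.t q N j : ℝ) * G.nb N j - G.ub N j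

/-- total defect. -/
noncomputable def Z (N : ℕ) : ℝ :=
  ∑ j ∈ Icc (-((5 * q * N : ℕ) : ℤ)) ((5 * q * N : ℕ) : ℤ), mult q N j * (G.nb N j - G.nb' N j)

variable {G}
variable (hD : T.X.deg D₀ = 105 * T.t * q)

theorem nb_nonneg {N : ℕ} {j : ℤ} (h : |j| ≤ 5 * q * N) : 0 ≤ G.nb N j :=
  av_nonneg h fun _ _ _ => by positivity

theorem nb_le {N : ℕ} {j : ℤ} (h : |j| ≤ 5 * q * N) : G.nb N j ≤ G.Λ * N := by
  rw [← av_const q N j (G.Λ * N)]
  apply av_mono h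
  intro a b _
  exact_mod_cast G.nn_le N j a b

theorem nn'_le_nn (N : ℕ) (j : ℤ) (a b : ℕ) : G.nn' N j a b ≤ G.nn N j a b := by
  classical
  unfold nn' nn
  have : Nat.findGreatest (fun l => G.W N l j a b ≠ ⊥ ∧
    2 * (T.X.genus : ℤ) - 1 ≤ T.X.mdeg (G.W N l j a b)) (G.Λ * N) ≤
    Nat.findGreatest (fun l => G.W N l j a b ≠ ⊥) (G.Λ * N) :=
    Nat.findGreatest_mono_left (fun l h => h.1) _
  convert this

theorem nb'_le_nb {N : ℕ} {j : ℤ} (h : |j| ≤ 5 * q * N) : G.nb' N j ≤ G.nb N j := by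
  apply av_mono h
  intro a b _
  exact_mod_cast nn'_le_nn N j a b

theorem nb'_nonneg {N : ℕ} {j : ℤ} (h : |j| ≤ 5 * q * N) : 0 ≤ G.nb' N j :=
  av_nonneg h fun _ _ _ => by positivity

include hD in
theorem mdeg_le_dg (hq : 0 < q) {N : ℕ} (hN : 4 ≤ N) {j : ℤ} {a b : ℕ} (h : InR q N j a b)
    {l : ℕ} (hl : l ≤ G.nn N j a b) : T.X.mdeg (G.W N l j a b) ≤ dg T.t q N j := by
  have := CurveOrd.mdeg_le (G.W_le N l j a b h) (G.W_ne_bot hD hq hN h hl)
  rwa [deg_dvs_crit T q D₀ hD] at this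

include hD in
theorem Uf_nonneg (hq : 0 < q) {N : ℕ} (hN : 4 ≤ N) {j : ℤ} {a b : ℕ} (h : InR q N j a b) :
    0 ≤ G.Uf N j a b := by
  unfold Uf
  apply sum_nonneg
  intro l hl
  exact CurveOrd.mdeg_nonneg (G.W_le N _ j a b h) (G.W_ne_bot hD hq hN h
    (by have := mem_range.1 hl; omega))

include hD in
theorem Uf_le (hq : 0 < q) {N : ℕ} (hN : 4 ≤ N) {j : ℤ} {a b : ℕ} (h : InR q N j a b) :
    G.Uf N j a b ≤ G.nn N j a b * dg T.t q N j := by
  unfold Uf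
  have : ∑ l ∈ range (G.nn N j a b), T.X.mdeg (G.W N (l + 1) j a b) ≤
      ∑ _l ∈ range (G.nn N j a b), dg T.t q N j := by
    apply sum_le_sum
    intro l hl
    exact mdeg_le_dg hD hq hN h (by have := mem_range.1 hl; omega)
  rwa [sum_const, card_range, nsmul_eq_mul] at this

include hD in
theorem yb_nonneg (hq : 0 < q) {N : ℕ} (hN : 4 ≤ N) {j : ℤ} (h : |j| ≤ 5 * q * N) :
    0 ≤ G.yb N j := by
  unfold yb nb ub
  have h1 : av q N j (fun a b => (G.Uf N j a b : ℝ)) ≤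
      av q N j (fun a b => (dg T.t q N j : ℝ) * (G.nn N j a b : ℝ)) := by
    apply av_mono h
    intro a b hab
    have := Uf_le (G := G) hD hq hN hab
    have h2 : (G.Uf N j a b : ℝ) ≤ G.nn N j a b * dg T.t q N j := by exact_mod_cast this
    linarith
  have h2 : av q N j (fun a b => (dg T.t q N j : ℝ) * (G.nn N j a b : ℝ)) =
      (dg T.t q N j : ℝ) * av q N j (fun a b => (G.nn N j a b : ℝ)) := avg2_mul _ _ _ _
  linarith

include hD in
theorem ub_nonneg (hq : 0 < q) {N : ℕ} (hN : 4 ≤ N) {j : ℤ} (h : |j| ≤ 5 * q * N) :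
    0 ≤ G.ub N j :=
  av_nonneg h fun _ _ hab => by exact_mod_cast Uf_nonneg hD hq hN hab

include hD in
/-- the dimension bound for one weight. -/
theorem sum_finrank_le (P₀ : T.X.Pt) (hq : 0 < q) {N : ℕ} (hN : 4 ≤ N) {j : ℤ} {a b : ℕ}
    (h : InR q N j a b) :
    ∑ l ∈ range (G.Λ * N), (finrank ℂ (G.W N (l + 1) j a b) : ℝ) ≤
      G.Uf N j a b - 9 * T.t * G.nn N j a b +
        (18 * T.t + 1) * ((G.nn N j a b : ℝ) - G.nn' N j a b) := by
  classical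
  have hsub : range (G.nn N j a b) ⊆ range (G.Λ * N) := range_subset_range.2 (G.nn_le N j a b)
  rw [← sum_subset hsub (by
    intro l _ hl
    rw [mem_range, not_lt] at hl
    rw [G.W_eq_bot (show G.nn N j a b < l + 1 by omega), finrank_bot]
    simp)]
  have hg : (T.X.genus : ℤ) = 9 * T.t + 1 := by rw [T.genus_eq]; push_cast; ring
  -- termwise bound
  have key : ∀ l ∈ range (G.nn N j a b), (finrank ℂ (G.W N (l + 1) j a b) : ℝ) ≤
      (T.X.mdeg (G.W N (l + 1) j a b) : ℝ) - 9 * T.t +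
        (18 * T.t + 1) * (if l < G.nn' N j a b then 0 else 1) := by
    intro l hl
    have hl' := mem_range.1 hl
    have hne := G.W_ne_bot hD hq hN h (show l + 1 ≤ G.nn N j a b by omega)
    have hW := G.W_le N (l + 1) j a b h
    by_cases hm : 2 * (T.X.genus : ℤ) - 2 < T.X.mdeg (G.W N (l + 1) j a b)
    · have h1 := T.X.finrank_le_mdeg P₀ hW hne hm
      rw [hg] at h1
      have h2 : (finrank ℂ (G.W N (l + 1) j a b) : ℝ) ≤
          (T.X.mdeg (G.W N (l + 1) j a b) : ℝ) + 1 - (9 * T.t + 1) := by exact_mod_cast h1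
      have h3 : (0 : ℝ) ≤ (18 * T.t + 1) * (if l < G.nn' N j a b then 0 else 1) := by
        split_ifs <;> positivity
      linarith
    · have h1 := T.X.finrank_le_genus P₀ hW hne (not_lt.1 hm)
      have h0 := CurveOrd.mdeg_nonneg hW hne
      have h4 : ¬ l < G.nn' N j a b := by
        intro hlt
        have hs : G.W N (G.nn' N j a b) j a b ≠ ⊥ ∧
            2 * (T.X.genus : ℤ) - 1 ≤ T.X.mdeg (G.W N (G.nn' N j a b) j a b) := by
          have h5 : G.nn' N j a b ≠ 0 := by omega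
          have := Nat.findGreatest_of_ne_zero (P := fun l => G.W N l j a b ≠ ⊥ ∧
            2 * (T.X.genus : ℤ) - 1 ≤ T.X.mdeg (G.W N l j a b)) (n := G.Λ * N)
            (m := G.nn' N j a b) (by unfold nn'; convert rfl) h5
          exact this
        have h6 := CurveOrd.mdeg_mono (G.W_le N (l + 1) j a b h)
          (G.W_anti N (l + 1) (G.nn' N j a b) j a b hlt) hs.1
        linarith [hs.2]
      rw [if_neg h4, mul_one]
      rw [hg] at h1
      have h2 : (finrank ℂ (G.W N (l + 1) j a b) : ℝ) ≤ 9 * T.t + 1 := by exact_mod_cast h1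
      have h3 : (0 : ℝ) ≤ (T.X.mdeg (G.W N (l + 1) j a b) : ℝ) := by exact_mod_cast h0
      linarith
  refine (sum_le_sum key).trans (le_of_eq ?_)
  rw [sum_add_distrib, sum_sub_distrib, ← mul_sum (range (G.nn N j a b))
    (fun l => if l < G.nn' N j a b then (0 : ℝ) else 1) (18 * (T.t : ℝ) + 1)]
  have e1 : ∑ l ∈ range (G.nn N j a b), (if l < G.nn' N j a b then (0 : ℝ) else 1) =
      (G.nn N j a b : ℝ) - G.nn' N j a b := by
    have hle := nn'_le_nn (G := G) N j a b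
    obtain ⟨k, hk⟩ := Nat.exists_eq_add_of_le hle
    rw [hk, sum_range_add]
    rw [sum_congr rfl (fun l hl => if_pos (mem_range.1 hl))]
    rw [sum_congr rfl (fun l _ => if_neg (show ¬ G.nn' N j a b + l < G.nn' N j a b by omega))]
    simp
  rw [e1, sum_const, card_range, nsmul_eq_mul]
  unfold Uf
  push_cast
  ring

include hD in
theorem tot_le (P₀ : T.X.Pt) (hq : 0 < q) {N : ℕ} (hN : 4 ≤ N) :
    G.tot N ≤ ∑ j ∈ Icc (-((5 * q * N : ℕ) : ℤ)) ((5 * q * N : ℕ) : ℤ), mult q N j *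
      (G.ub N j - 9 * T.t * G.nb N j) + (18 * T.t + 1) * G.Z N := by
  unfold tot Z
  rw [mul_sum, ← sum_add_distrib]
  apply sum_le_sum
  intro j hj
  have hj' := mem_Icc_iff.1 hj
  have h1 : ∑ a ∈ range (AA q N j + 1), ∑ b ∈ range (BB q N j + 1),
      ∑ l ∈ range (G.Λ * N), (finrank ℂ (G.W N (l + 1) j a b) : ℝ) ≤
      ∑ a ∈ range (AA q N j + 1), ∑ b ∈ range (BB q N j + 1),
      ((G.Uf N j a b : ℝ) - 9 * T.t * G.nn N j a b +
        (18 * T.t + 1) * ((G.nn N j a b : ℝ) - G.nn' N j a b)) := by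
    apply sum_le_sum
    intro a ha
    apply sum_le_sum
    intro b hb
    exact sum_finrank_le hD P₀ hq hN ((inR_iff hj').2
      ⟨Nat.lt_succ_iff.1 (mem_range.1 ha), Nat.lt_succ_iff.1 (mem_range.1 hb)⟩)
  refine h1.trans (le_of_eq ?_)
  rw [← av_mult hj' (fun a b => (G.Uf N j a b : ℝ) - 9 * T.t * G.nn N j a b +
        (18 * T.t + 1) * ((G.nn N j a b : ℝ) - G.nn' N j a b))]
  have e : av q N j (fun a b => (G.Uf N j a b : ℝ) - 9 * T.t * G.nn N j a b +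
        (18 * T.t + 1) * ((G.nn N j a b : ℝ) - G.nn' N j a b)) =
      (G.ub N j - 9 * T.t * G.nb N j) + (18 * T.t + 1) * (G.nb N j - G.nb' N j) := by
    have e1 : (fun a b => (G.Uf N j a b : ℝ) - 9 * T.t * G.nn N j a b +
        (18 * T.t + 1) * ((G.nn N j a b : ℝ) - G.nn' N j a b)) =
        (fun a b => ((G.Uf N j a b : ℝ) + (9 * T.t + 1) * (G.nn N j a b : ℝ)) +
          (-(18 * T.t + 1)) * (G.nn' N j a b : ℝ)) := by
      funext a b
      ring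
    rw [e1]
    unfold ub nb nb' av
    rw [avg2_add, avg2_add, avg2_mul, avg2_mul]
    ring
  rw [e]
  unfold mult
  ring

end Graded

end Pool.Agent.YTD


end

/- source: Pool.Agent.YTD.Star -/

section

namespace Pool.Agent.YTD

open Finset Module Filter

variable {K : Type} [Field K] [Algebra ℂ K]
variable {T : Datum K} {q : ℕ} {D₀ : T.X.Pt →₀ ℤ}

theorem dg_real (t q N : ℕ) (j : ℤ) : (dg t q N j : ℝ) =
    105 * t * (q * N) - 100 * t * max 0 (|(j : ℝ)| - 4 * (q * N)) := by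
  have h : max 0 (j - 4 * (q : ℤ) * N) + max 0 (-j - 4 * (q : ℤ) * N) =
      max 0 (|j| - 4 * (q * N)) := by
    have h0 : (0 : ℤ) ≤ 4 * q * N := by positivity
    rw [show 4 * ((q : ℤ) * N) = 4 * q * N by ring]
    generalize 4 * (q : ℤ) * N = u at *
    rcases abs_cases j with ⟨h1, _⟩ | ⟨h1, _⟩ <;> rw [h1] <;> omega
  unfold dg
  rw [h]
  push_cast
  ring

namespace Graded

variable {G : Graded T q D₀}
variable (hD : T.X.deg D₀ = 105 * T.t * q)

include hD in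
theorem ub_le (hq : 0 < q) {N : ℕ} (hN : 4 ≤ N) {j : ℤ} (h : |j| ≤ 5 * q * N) :
    G.ub N j ≤ G.Λ * N * (105 * T.t * q * N) := by
  have h1 := yb_nonneg (G := G) hD hq hN h
  unfold yb at h1
  have h2 := nb_le (G := G) h
  have h3 := nb_nonneg (G := G) h
  have h4 : (dg T.t q N j : ℝ) ≤ 105 * T.t * q * N := by exact_mod_cast dg_le T.t q N j
  have h5 : (0 : ℝ) ≤ dg T.t q N j := by
    have : (0 : ℤ) ≤ dg T.t q N j := le_trans (by positivity) (le_dg h)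
    exact_mod_cast this
  calc G.ub N j ≤ (dg T.t q N j : ℝ) * G.nb N j := by linarith
    _ ≤ (105 * T.t * q * N) * (G.Λ * N) := mul_le_mul h4 h2 h3 (by positivity)
    _ = _ := by ring

include hD in
theorem pointwise (hq : 0 < q) {N : ℕ} (hN : 4 ≤ N) {j : ℤ} (h : |j| ≤ 5 * q * N) :
    mult q N j * (G.ub N j - 9 * T.t * G.nb N j) - Wt q N j * G.ub N j ≤
    T.t * ((81 * (j : ℝ) ^ 2 - 375 * ((q : ℝ) * N) ^ 2 -
      5000 * ((q : ℝ) * N) * max 0 (|(j : ℝ)| - 4 * (q * N))) * G.nb N j) -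
      50 * (q * N) * G.yb N j + G.Λ * N * (105 * T.t * q * N) +
      ((if j = ((5 * q * N : ℕ) : ℤ) then 1000 * T.t * ((q : ℝ) * N) ^ 3 * G.nb N j else 0) +
       (if j = -((5 * q * N : ℕ) : ℤ) then 1000 * T.t * ((q : ℝ) * N) ^ 3 * G.nb N j else 0)) := by
  have hub := ub_le (G := G) hD hq hN h
  have hnb := nb_nonneg (G := G) h
  have hyb := yb_nonneg (G := G) hD hq hN h
  have hdg := dg_real T.t q N j
  have hube : G.ub N j = (dg T.t q N j : ℝ) * G.nb N j - G.yb N j := by unfold yb; ring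
  have hQ : (0 : ℝ) ≤ q * N := by positivity
  have hQ1 : (1 : ℝ) ≤ q * N := by
    have h1 : 1 ≤ q * N := Nat.mul_pos hq (by omega)
    exact_mod_cast h1
  have ht : (0 : ℝ) ≤ T.t := by positivity
  have hA : 50 * ((q : ℝ) * N) * G.ub N j - 9 * T.t * (625 * ((q : ℝ) * N) ^ 2 - 9 * (j : ℝ) ^ 2) *
      G.nb N j = T.t * ((81 * (j : ℝ) ^ 2 - 375 * ((q : ℝ) * N) ^ 2 -
      5000 * ((q : ℝ) * N) * max 0 (|(j : ℝ)| - 4 * (q * N))) * G.nb N j) -
      50 * (q * N) * G.yb N j := by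
    rw [hube, hdg]
    ring
  have hm : mult q N j = 625 * ((q : ℝ) * N) ^ 2 - 9 * (j : ℝ) ^ 2 + 50 * (q * N) + 1 := by
    unfold mult; ring
  have hB : (0 : ℝ) ≤ 9 * T.t * (50 * ((q : ℝ) * N) + 1) * G.nb N j := by positivity
  by_cases he : |j| = 5 * q * N
  · rw [Wt_end he]
    have hj2 : (j : ℝ) ^ 2 = 25 * ((q : ℝ) * N) ^ 2 := by
      have h1 : |(j : ℝ)| = 5 * q * N := by exact_mod_cast he
      rw [← sq_abs, h1]
      ring
    have hdge : (dg T.t q N j : ℝ) = 5 * T.t * (q * N) := by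
      rw [hdg]
      have h1 : |(j : ℝ)| = 5 * q * N := by exact_mod_cast he
      rw [h1, max_eq_right (by linarith)]
      ring
    have hub2 : G.ub N j ≤ 5 * T.t * (q * N) * G.nb N j := by
      rw [hube, hdge]
      linarith
    have hC : 200 * ((q : ℝ) * N) ^ 2 * G.ub N j ≤ 1000 * T.t * ((q : ℝ) * N) ^ 3 * G.nb N j := by
      calc 200 * ((q : ℝ) * N) ^ 2 * G.ub N j ≤
          200 * ((q : ℝ) * N) ^ 2 * (5 * T.t * (q * N) * G.nb N j) :=
            mul_le_mul_of_nonneg_left hub2 (by positivity)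
        _ = _ := by ring
    have hE : (1000 * T.t * ((q : ℝ) * N) ^ 3 * G.nb N j) ≤
        ((if j = ((5 * q * N : ℕ) : ℤ) then 1000 * T.t * ((q : ℝ) * N) ^ 3 * G.nb N j else 0) +
       (if j = -((5 * q * N : ℕ) : ℤ) then 1000 * T.t * ((q : ℝ) * N) ^ 3 * G.nb N j else 0)) := by
      have h0 : (0 : ℝ) ≤ 1000 * T.t * ((q : ℝ) * N) ^ 3 * G.nb N j := by positivity
      rcases abs_cases j with ⟨h1, _⟩ | ⟨h1, _⟩
      · rw [if_pos (show j = ((5 * q * N : ℕ) : ℤ) by push_cast; linarith)]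
        split_ifs <;> linarith
      · rw [if_pos (show j = -((5 * q * N : ℕ) : ℤ) by push_cast; linarith)]
        split_ifs <;> linarith
    rw [hm]
    rw [hj2] at hA ⊢
    nlinarith
  · rw [Wt_mid he]
    rw [if_neg (by
      intro h1
      apply he
      rw [h1, abs_of_nonneg (by positivity)]
      push_cast
      ring), if_neg (by
      intro h1
      apply he
      rw [h1, abs_neg, abs_of_nonneg (by positivity)]
      push_cast
      ring)]
    rw [hm]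
    nlinarith

include hD in
/-- the main inequality. -/
theorem star (P₀ : T.X.Pt) (hq : 0 < q) {s₀ s₁ : ℝ} (hS : G.TotExp s₀ s₁) :
    ∃ C : ℝ, ∀ᶠ N : ℕ in atTop, s₁ * N ^ 4 ≤ T.t * Lam q N (G.nb N) -
      50 * (q * N) * ∑ j ∈ Icc (-((5 * q * N : ℕ) : ℤ)) ((5 * q * N : ℕ) : ℤ), G.yb N j +
      (18 * T.t + 1) * G.Z N + C * N ^ 3 := by
  have hS' := hS
  obtain ⟨C₁, hC₁⟩ := hS
  refine ⟨C₁ + 600000 * T.t * (q : ℝ) ^ 2 * G.Λ + 11 * q * (G.Λ * (105 * T.t * q)), ?_⟩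
  filter_upwards [hC₁, eventually_ge_atTop 4] with N h1 hN
  have h2 := (abs_le.1 h1).1
  have h3 := Phi_le_limit hD P₀ hq hS' hN (G.base hD P₀ hq hN)
  have h4 := tot_le (G := G) hD P₀ hq hN
  have h5 : (G.base hD P₀ hq hN).Phi =
      ∑ j ∈ Icc (-((5 * q * N : ℕ) : ℤ)) ((5 * q * N : ℕ) : ℤ), Wt q N j * G.ub N j := by
    unfold Sys.Phi
    rw [sum_range_eq_Icc (5 * q * N) (fun j => Wt q N j * (G.base hD P₀ hq hN).ub j)]
    rfl
  have h6 : ∑ j ∈ Icc (-((5 * q * N : ℕ) : ℤ)) ((5 * q * N : ℕ) : ℤ),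
      (mult q N j * (G.ub N j - 9 * T.t * G.nb N j) - Wt q N j * G.ub N j) ≤
      ∑ j ∈ Icc (-((5 * q * N : ℕ) : ℤ)) ((5 * q * N : ℕ) : ℤ),
      (T.t * ((81 * (j : ℝ) ^ 2 - 375 * ((q : ℝ) * N) ^ 2 -
      5000 * ((q : ℝ) * N) * max 0 (|(j : ℝ)| - 4 * (q * N))) * G.nb N j) -
      50 * (q * N) * G.yb N j + G.Λ * N * (105 * T.t * q * N) +
      ((if j = ((5 * q * N : ℕ) : ℤ) then 1000 * T.t * ((q : ℝ) * N) ^ 3 * G.nb N j else 0) +
       (if j = -((5 * q * N : ℕ) : ℤ) then 1000 * T.t * ((q : ℝ) * N) ^ 3 * G.nb N j else 0))) :=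
    sum_le_sum fun j hj => pointwise hD hq hN (mem_Icc_iff.1 hj)
  have hmem1 : ((5 * q * N : ℕ) : ℤ) ∈ Icc (-((5 * q * N : ℕ) : ℤ)) ((5 * q * N : ℕ) : ℤ) := by
    rw [mem_Icc]
    constructor
    · have : (0 : ℤ) ≤ ((5 * q * N : ℕ) : ℤ) := by positivity
      linarith
    · exact le_rfl
  have hmem2 : -((5 * q * N : ℕ) : ℤ) ∈ Icc (-((5 * q * N : ℕ) : ℤ)) ((5 * q * N : ℕ) : ℤ) := by
    rw [mem_Icc]
    constructor
    · exact le_rfl
    · have : (0 : ℤ) ≤ ((5 * q * N : ℕ) : ℤ) := by positivity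
      linarith
  rw [sum_add_distrib, sum_add_distrib, sum_add_distrib, sum_sub_distrib, sum_ite_eq' , sum_ite_eq',
    if_pos hmem1, if_pos hmem2, sum_sub_distrib, ← mul_sum, ← mul_sum, sum_const,
    Int.card_Icc, nsmul_eq_mul] at h6
  have h7 : (((((5 * q * N : ℕ) : ℤ) + 1 - -((5 * q * N : ℕ) : ℤ)).toNat : ℕ) : ℝ) =
      10 * (q * N) + 1 := by
    have : (((5 * q * N : ℕ) : ℤ) + 1 - -((5 * q * N : ℕ) : ℤ)).toNat = 10 * (q * N) + 1 := by
      have e : ((5 * q * N : ℕ) : ℤ) = 5 * ((q * N : ℕ) : ℤ) := by push_cast; ring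
      rw [e]
      omega
    rw [this]
    push_cast
    ring
  rw [h7] at h6
  have hQ1 : (1 : ℝ) ≤ q * N := by
    have h1 : 1 ≤ q * N := Nat.mul_pos hq (by omega)
    exact_mod_cast h1
  have h8 : (10 * ((q : ℝ) * N) + 1) * (G.Λ * N * (105 * T.t * q * N)) ≤
      11 * q * (G.Λ * (105 * T.t * q)) * N ^ 3 := by
    have h9 : (0 : ℝ) ≤ G.Λ * N * (105 * T.t * q * N) := by positivity
    have h10 : (10 * ((q : ℝ) * N) + 1) ≤ 11 * (q * N) := by linarith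
    calc (10 * ((q : ℝ) * N) + 1) * (G.Λ * N * (105 * T.t * q * N)) ≤
        (11 * (q * N)) * (G.Λ * N * (105 * T.t * q * N)) := mul_le_mul_of_nonneg_right h10 h9
      _ = _ := by ring
  unfold Lam
  rw [h5] at h3
  have h11 : (T.t : ℝ) * (∑ j ∈ Icc (-((5 * q * N : ℕ) : ℤ)) ((5 * q * N : ℕ) : ℤ),
    (81 * (j : ℝ) ^ 2 - 375 * ((q : ℝ) * N) ^ 2 -
      5000 * ((q : ℝ) * N) * max 0 (|(j : ℝ)| - 4 * (q * N))) * G.nb N j +
    1000 * ((q : ℝ) * N) ^ 3 * (G.nb N ((5 * q * N : ℕ) : ℤ) + G.nb N (-((5 * q * N : ℕ) : ℤ)))) =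
    T.t * (∑ j ∈ Icc (-((5 * q * N : ℕ) : ℤ)) ((5 * q * N : ℕ) : ℤ),
    (81 * (j : ℝ) ^ 2 - 375 * ((q : ℝ) * N) ^ 2 -
      5000 * ((q : ℝ) * N) * max 0 (|(j : ℝ)| - 4 * (q * N))) * G.nb N j) +
    (1000 * T.t * ((q : ℝ) * N) ^ 3 * G.nb N ((5 * q * N : ℕ) : ℤ) +
      1000 * T.t * ((q : ℝ) * N) ^ 3 * G.nb N (-((5 * q * N : ℕ) : ℤ))) := by ring
  rw [h11]
  linarith

end Graded

end Pool.Agent.YTD


end

/- source: Pool.Agent.YTD.NumZ -/

section

/-!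
The small-degree part of the filtration is negligible along powers of two.
-/

namespace Pool.Agent.YTD

open Finset Filter

/-- weighted sum -/
noncomputable def Mu (q N : ℕ) (f : ℤ → ℝ) : ℝ :=
  ∑ j ∈ Icc (-((5 * q * N : ℕ) : ℤ)) ((5 * q * N : ℕ) : ℤ), mult q N j * f j

theorem mult_eq (q N : ℕ) (j : ℤ) :
    mult q N j = 625 * ((q : ℝ) * N) ^ 2 - 9 * (j : ℝ) ^ 2 + 50 * (q * N) + 1 := by
  unfold mult; ring

theorem Mu_double {q N : ℕ} (hq : 0 < q) (hN : 0 < N) {R : ℝ} {s H : ℤ → ℝ}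
    (hs : ∀ j : ℤ, |j| ≤ 5 * q * N → 0 ≤ s j) (hs' : ∀ j : ℤ, |j| ≤ 5 * q * N → s j ≤ R)
    (h0 : ∀ j : ℤ, |j| ≤ 5 * q * N → s j ≤ H (2 * j))
    (h1 : ∀ j : ℤ, |j| ≤ 5 * q * N → |j + 1| ≤ 5 * q * N → (s j + s (j + 1)) / 2 ≤ H (2 * j + 1)) :
    8 * Mu q N s - 5000 * ((q : ℝ) * N) ^ 2 * R ≤ Mu q (2 * N) H := by
  set Q : ℕ := q * N with hQ
  have hQ1 : 1 ≤ Q := Nat.mul_pos hq hN
  have hQr : (1 : ℝ) ≤ Q := by exact_mod_cast hQ1
  have hQc : (Q : ℝ) = q * N := by rw [hQ]; push_cast; ring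
  have hQz : (Q : ℤ) = q * N := by rw [hQ]; push_cast; ring
  have hM : 5 * q * N = 5 * Q := by rw [hQ]; ring
  have hM2 : 5 * q * (2 * N) = 2 * (5 * Q) := by rw [hQ]; ring
  have hR : 0 ≤ R := (hs 0 (by rw [abs_zero]; positivity)).trans
    (hs' 0 (by rw [abs_zero]; positivity))
  have rng : ∀ i ∈ range (2 * (5 * Q) + 1), |(i : ℤ) - (5 * Q : ℕ)| ≤ 5 * q * N := by
    intro i hi
    have := mem_range.1 hi
    rw [show (5 * (q : ℤ) * N) = 5 * Q by rw [hQz]; ring, abs_le]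
    push_cast
    constructor <;> omega
  have rng' : ∀ i ∈ range (2 * (5 * Q)), |(i : ℤ) - (5 * Q : ℕ)| ≤ 5 * q * N ∧
      |(i : ℤ) - (5 * Q : ℕ) + 1| ≤ 5 * q * N := by
    intro i hi
    have := mem_range.1 hi
    rw [show (5 * (q : ℤ) * N) = 5 * Q by rw [hQz]; ring, abs_le, abs_le]
    push_cast
    constructor <;> constructor <;> omega
  have e1 : Mu q N s = ∑ i ∈ range (2 * (5 * Q) + 1),
      mult q N ((i : ℤ) - (5 * Q : ℕ)) * s ((i : ℤ) - (5 * Q : ℕ)) := by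
    unfold Mu
    rw [hM, ← sum_range_eq_Icc (5 * Q) (fun j => mult q N j * s j)]
  have e2 : Mu q (2 * N) H = ∑ i ∈ range (4 * (5 * Q) + 1),
      (fun j : ℤ => mult q (2 * N) j * H j) ((i : ℤ) - 2 * ((5 * Q : ℕ) : ℤ)) := by
    unfold Mu
    rw [hM2, ← sum_range_eq_Icc (2 * (5 * Q)) (fun j => mult q (2 * N) j * H j),
      show 2 * (2 * (5 * Q)) + 1 = 4 * (5 * Q) + 1 by ring]
    apply sum_congr rfl
    intro i _
    push_cast
    rfl
  rw [e2, sum_split (5 * Q) (fun j : ℤ => mult q (2 * N) j * H j)]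
  have mpos : ∀ j : ℤ, |j| ≤ 5 * q * ((2 * N : ℕ) : ℤ) → 0 ≤ mult q (2 * N) j :=
    fun j hj => (mult_pos hj).le
  have E1 : ∑ i ∈ range (2 * (5 * Q) + 1), mult q (2 * N) (2 * ((i : ℤ) - (5 * Q : ℕ))) *
      s ((i : ℤ) - (5 * Q : ℕ)) ≤ ∑ i ∈ range (2 * (5 * Q) + 1),
      mult q (2 * N) (2 * ((i : ℤ) - (5 * Q : ℕ))) * H (2 * ((i : ℤ) - (5 * Q : ℕ))) := by
    apply sum_le_sum
    intro i hi
    apply mul_le_mul_of_nonneg_left (h0 _ (rng i hi))
    apply mpos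
    rw [abs_mul, show |(2 : ℤ)| = 2 by rfl]
    push_cast
    have := rng i hi
    push_cast at this
    linarith
  have E2 : ∑ i ∈ range (2 * (5 * Q)), mult q (2 * N) (2 * ((i : ℤ) - (5 * Q : ℕ)) + 1) *
      ((s ((i : ℤ) - (5 * Q : ℕ)) + s ((i : ℤ) - (5 * Q : ℕ) + 1)) / 2) ≤
      ∑ i ∈ range (2 * (5 * Q)), mult q (2 * N) (2 * ((i : ℤ) - (5 * Q : ℕ)) + 1) *
        H (2 * ((i : ℤ) - (5 * Q : ℕ)) + 1) := by
    apply sum_le_sum
    intro i hi
    apply mul_le_mul_of_nonneg_left (h1 _ (rng' i hi).1 (rng' i hi).2)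
    apply mpos
    have h2 := abs_le.1 (rng' i hi).1
    have h3 := abs_le.1 (rng' i hi).2
    rw [abs_le]
    push_cast at *
    constructor <;> linarith
  refine le_trans ?_ (add_le_add E1 E2)
  have E3 : ∑ i ∈ range (2 * (5 * Q)), mult q (2 * N) (2 * ((i : ℤ) - (5 * Q : ℕ)) + 1) *
      ((s ((i : ℤ) - (5 * Q : ℕ)) + s ((i : ℤ) - (5 * Q : ℕ) + 1)) / 2) =
      ∑ i ∈ range (2 * (5 * Q)), (mult q (2 * N) (2 * ((i : ℤ) - (5 * Q : ℕ)) + 1) / 2) *
        s ((i : ℤ) - (5 * Q : ℕ)) +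
      ∑ i ∈ range (2 * (5 * Q)), (mult q (2 * N) (2 * ((i : ℤ) - (5 * Q : ℕ)) + 1) / 2) *
        s (((i + 1 : ℕ) : ℤ) - (5 * Q : ℕ)) := by
    rw [← sum_add_distrib]
    apply sum_congr rfl
    intro i _
    rw [show (((i + 1 : ℕ) : ℤ) - (5 * Q : ℕ)) = ((i : ℤ) - (5 * Q : ℕ)) + 1 by push_cast; ring]
    ring
  rw [E3, sum_shift (2 * (5 * Q)) (fun i => mult q (2 * N) (2 * ((i : ℤ) - (5 * Q : ℕ)) + 1) / 2)
    (fun i => s ((i : ℤ) - (5 * Q : ℕ)))]
  -- pointwise comparison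
  have E4 : ∑ i ∈ range (2 * (5 * Q) + 1), ((8 * mult q N ((i : ℤ) - (5 * Q : ℕ)) - 215 * Q) *
      s ((i : ℤ) - (5 * Q : ℕ)) - ((if i = 0 then 971 * (Q : ℝ) ^ 2 * R else 0) +
        (if i = 2 * (5 * Q) then 971 * (Q : ℝ) ^ 2 * R else 0))) ≤
      ∑ i ∈ range (2 * (5 * Q) + 1), mult q (2 * N) (2 * ((i : ℤ) - (5 * Q : ℕ))) *
      s ((i : ℤ) - (5 * Q : ℕ)) +
      ∑ i ∈ range (2 * (5 * Q) + 1),
      ((if i < 2 * (5 * Q) then
          (fun i : ℕ => mult q (2 * N) (2 * ((i : ℤ) - (5 * Q : ℕ)) + 1) / 2) i else 0) +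
       (if 0 < i then (fun i : ℕ => mult q (2 * N) (2 * ((i : ℤ) - (5 * Q : ℕ)) + 1) / 2) (i - 1)
        else 0)) * (fun i : ℕ => s ((i : ℤ) - (5 * Q : ℕ))) i := by
    rw [← sum_add_distrib]
    apply sum_le_sum
    intro i hi
    have hi' := mem_range.1 hi
    have hs0 := hs _ (rng i hi)
    have hsR := hs' _ (rng i hi)
    rw [← add_mul]
    simp only [mult_eq]
    rcases Nat.eq_zero_or_pos i with h0 | h0
    · subst h0
      rw [if_pos rfl, if_neg (by omega), if_pos (by omega), if_neg (lt_irrefl 0)]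
      push_cast at *
      rw [← hQc]
      have e : ((2 : ℝ) * 0 = 0) := by norm_num
      set x := s (0 - 5 * (Q : ℤ)) with hx
      have h5 : (971 : ℝ) * Q ^ 2 * x ≤ 971 * Q ^ 2 * R := mul_le_mul_of_nonneg_left hsR (by positivity)
      have h6 : (0 : ℝ) ≤ x * Q := by positivity
      have h7 : (0 : ℝ) ≤ x * (Q - 1) := mul_nonneg hs0 (by linarith)
      have h8 : (0 : ℝ) ≤ x * (Q * (Q - 1)) := mul_nonneg hs0 (mul_nonneg (by positivity) (by linarith))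
      rw [show (q : ℝ) * (2 * N) = 2 * Q by rw [hQc]; ring]
      nlinarith
    · rcases Nat.lt_or_ge i (2 * (5 * Q)) with h1 | h1
      · rw [if_neg (by omega), if_neg (by omega), if_pos h1, if_pos h0]
        rw [show (((i - 1 : ℕ) : ℤ) - (5 * Q : ℕ)) = ((i : ℤ) - (5 * Q : ℕ)) - 1 by
          push_cast [Nat.cast_sub (show 1 ≤ i by omega)]; ring]
        push_cast at *
        rw [show (q : ℝ) * (2 * N) = 2 * Q by rw [hQc]; ring, ← hQc]
        set x := s ((i : ℤ) - 5 * (Q : ℤ)) with hx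
        have h6 : (0 : ℝ) ≤ x * (Q - 1) := mul_nonneg hs0 (by linarith)
        nlinarith
      · have hi2 : i = 2 * (5 * Q) := by omega
        subst hi2
        rw [if_neg (by omega), if_pos rfl, if_neg (lt_irrefl _), if_pos h0]
        rw [show (((2 * (5 * Q) - 1 : ℕ) : ℤ) - (5 * Q : ℕ)) = 5 * (Q : ℤ) - 1 by
          rw [Nat.cast_sub (show 1 ≤ 2 * (5 * Q) by omega)]; push_cast; ring]
        push_cast at *
        rw [show (q : ℝ) * (2 * N) = 2 * Q by rw [hQc]; ring, ← hQc]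
        set x := s (2 * (5 * (Q : ℤ)) - 5 * (Q : ℤ)) with hx
        have h5 : (971 : ℝ) * Q ^ 2 * x ≤ 971 * Q ^ 2 * R :=
          mul_le_mul_of_nonneg_left hsR (by positivity)
        have h6 : (0 : ℝ) ≤ x * Q := by positivity
        have h7 : (0 : ℝ) ≤ x * (Q - 1) := mul_nonneg hs0 (by linarith)
        have h8 : (0 : ℝ) ≤ x * (Q * (Q - 1)) :=
          mul_nonneg hs0 (mul_nonneg (by positivity) (by linarith))
        nlinarith
  refine le_trans ?_ E4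
  rw [sum_sub_distrib, sum_add_distrib, sum_ite_eq', sum_ite_eq', if_pos (mem_range.2 (by omega)),
    if_pos (mem_range.2 (by omega))]
  have E5 : ∑ i ∈ range (2 * (5 * Q) + 1), ((8 * mult q N ((i : ℤ) - (5 * Q : ℕ)) - 215 * Q) *
      s ((i : ℤ) - (5 * Q : ℕ))) = 8 * Mu q N s -
      215 * Q * ∑ i ∈ range (2 * (5 * Q) + 1), s ((i : ℤ) - (5 * Q : ℕ)) := by
    rw [e1, mul_sum, mul_sum, ← sum_sub_distrib]
    apply sum_congr rfl
    intro i _
    ring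
  have E6 : ∑ i ∈ range (2 * (5 * Q) + 1), s ((i : ℤ) - (5 * Q : ℕ)) ≤ 11 * Q * R := by
    have : ∑ i ∈ range (2 * (5 * Q) + 1), s ((i : ℤ) - (5 * Q : ℕ)) ≤
        ∑ _i ∈ range (2 * (5 * Q) + 1), R := sum_le_sum fun i hi => hs' _ (rng i hi)
    rw [sum_const, card_range, nsmul_eq_mul] at this
    refine this.trans (mul_le_mul_of_nonneg_right ?_ hR)
    push_cast
    linarith
  have E7 : 215 * (Q : ℝ) * ∑ i ∈ range (2 * (5 * Q) + 1), s ((i : ℤ) - (5 * Q : ℕ)) ≤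
      215 * Q * (11 * Q * R) := mul_le_mul_of_nonneg_left E6 (by positivity)
  rw [E5, ← hQc]
  have : (0 : ℝ) ≤ (Q : ℝ) ^ 2 * R := by positivity
  nlinarith

/-- a bounded, almost increasing sequence has increments tending to zero. -/
theorem incr_tendsto_zero {x : ℕ → ℝ} {C B : ℝ} (h : ∀ k, x k - C * (1 / 2) ^ k ≤ x (k + 1))
    (hB : ∀ k, x k ≤ B) : Tendsto (fun k => x (k + 1) - x k) atTop (nhds 0) := by
  set y : ℕ → ℝ := fun k => x k - 2 * |C| * (1 / 2) ^ k with hy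
  have hmono : Monotone y := by
    apply monotone_nat_of_le_succ
    intro k
    simp only [hy]
    have h1 := h k
    have h2 : C * (1 / 2) ^ k ≤ |C| * (1 / 2) ^ k :=
      mul_le_mul_of_nonneg_right (le_abs_self C) (by positivity)
    rw [pow_succ]
    nlinarith
  have hbd : BddAbove (Set.range y) := by
    refine ⟨B, ?_⟩
    rintro _ ⟨k, rfl⟩
    simp only [hy]
    have : 0 ≤ 2 * |C| * (1 / 2) ^ k := by positivity
    linarith [hB k]
  have hlim := tendsto_atTop_ciSup hmono hbd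
  have hpow : Tendsto (fun k : ℕ => 2 * |C| * (1 / 2 : ℝ) ^ k) atTop (nhds (2 * |C| * 0)) :=
    (tendsto_pow_atTop_nhds_zero_of_lt_one (by norm_num) (by norm_num)).const_mul _
  have hx : Tendsto x atTop (nhds ((⨆ k, y k) + 2 * |C| * 0)) := by
    have := hlim.add hpow
    refine this.congr ?_
    intro k
    simp only [hy]
    ring
  have hx' := hx.comp (tendsto_add_atTop_nat 1)
  have := hx'.sub hx
  rw [sub_self] at this
  exact this

/-- a nonnegative sequence with `z (k+1) ≤ z k / 2 + η k`, `η → 0`, tends to zero. -/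
theorem tendsto_zero_of_half {z η : ℕ → ℝ} (h0 : ∀ k, 0 ≤ z k)
    (h : ∀ k, z (k + 1) ≤ z k / 2 + η k) (hη : Tendsto η atTop (nhds 0)) :
    Tendsto z atTop (nhds 0) := by
  rw [Metric.tendsto_atTop] at hη ⊢
  intro ε hε
  obtain ⟨k₀, hk₀⟩ := hη (ε / 8) (by positivity)
  have h1 : ∀ m, z (k₀ + m) ≤ z k₀ * (1 / 2) ^ m + ε / 4 := by
    intro m
    induction m with
    | zero => simp; linarith
    | succ m ih =>
      have h2 := h (k₀ + m)
      have h3 := hk₀ (k₀ + m) (by omega)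
      rw [Real.dist_eq, sub_zero] at h3
      have h4 := (abs_lt.1 h3).2
      rw [← add_assoc, pow_succ]
      linarith
  have h2 : Tendsto (fun m : ℕ => z k₀ * (1 / 2 : ℝ) ^ m) atTop (nhds (z k₀ * 0)) :=
    (tendsto_pow_atTop_nhds_zero_of_lt_one (by norm_num) (by norm_num)).const_mul _
  rw [mul_zero, Metric.tendsto_atTop] at h2
  obtain ⟨m₀, hm₀⟩ := h2 (ε / 4) (by positivity)
  refine ⟨k₀ + m₀, fun n hn => ?_⟩
  obtain ⟨m, rfl⟩ := Nat.exists_eq_add_of_le (show k₀ ≤ n by omega)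
  have h3 := hm₀ m (by omega)
  rw [Real.dist_eq, sub_zero] at h3
  rw [Real.dist_eq, sub_zero, abs_of_nonneg (h0 _)]
  have h4 := (abs_lt.1 h3).2
  have := h1 m
  linarith

end Pool.Agent.YTD


end

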