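import Pool.Agent.YTDM.P03

/- source: Pool.Agent.YTD.SuperAdd -/

namespace Pool.Agent.YTD

open Finset Module Filter

variable {K : Type} [Field K] [Algebra ℂ K]
variable {T : Datum K} {q : ℕ} {D₀ : T.X.Pt →₀ ℤ}

namespace Graded

variable {G : Graded T q D₀}
variable (hD : T.X.deg D₀ = 105 * T.t * q)

theorem le_nn {N l : ℕ} {j : ℤ} {a b : ℕ} (h : G.W N l j a b ≠ ⊥) : l ≤ G.nn N j a b := by
  by_contra h1
  exact h (G.W_eq_bot (not_le.1 h1))

theorem mul_ne_bot {N N' l l' : ℕ} {j j' : ℤ} {a a' b b' : ℕ} (h : InR q N j a b)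
    (h' : InR q N' j' a' b') (hW : G.W N l j a b ≠ ⊥) (hW' : G.W N' l' j' a' b' ≠ ⊥) :
    G.W (N + N') (l + l') (j + j') (a + a') (b + b') ≠ ⊥ := by
  obtain ⟨f, hf, hf0⟩ := Submodule.exists_mem_ne_zero_of_ne_bot hW
  obtain ⟨g, hg, hg0⟩ := Submodule.exists_mem_ne_zero_of_ne_bot hW'
  intro h1
  have := G.W_mul N N' l l' j j' a a' b b' h h' f hf g hg
  rw [h1, Submodule.mem_bot] at this
  exact mul_ne_zero hf0 hg0 this

include hD in
theorem nn_add (hq : 0 < q) {N N' : ℕ} (hN : 4 ≤ N) (hN' : 4 ≤ N') {j j' : ℤ} {a a' b b' : ℕ}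
    (h : InR q N j a b) (h' : InR q N' j' a' b') :
    G.nn N j a b + G.nn N' j' a' b' ≤ G.nn (N + N') (j + j') (a + a') (b + b') :=
  le_nn (mul_ne_bot h h' (G.W_ne_bot hD hq hN h le_rfl) (G.W_ne_bot hD hq hN' h' le_rfl))

theorem le_nn' {N l : ℕ} {j : ℤ} {a b : ℕ} (h : G.W N l j a b ≠ ⊥)
    (h' : 2 * (T.X.genus : ℤ) - 1 ≤ T.X.mdeg (G.W N l j a b)) : l ≤ G.nn' N j a b := by
  classical
  have h1 : l ≤ G.Λ * N := by
    by_contra h2
    exact h (G.W_top N l j a b (not_le.1 h2))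
  have := Nat.le_findGreatest (P := fun l => G.W N l j a b ≠ ⊥ ∧
    2 * (T.X.genus : ℤ) - 1 ≤ T.X.mdeg (G.W N l j a b)) h1 ⟨h, h'⟩
  unfold nn'
  convert this

include hD in
theorem nn'_spec (P₀ : T.X.Pt) (hq : 0 < q) {N : ℕ} (hN : 4 ≤ N) {j : ℤ} {a b : ℕ}
    (h : InR q N j a b) : G.W N (G.nn' N j a b) j a b ≠ ⊥ ∧
      2 * (T.X.genus : ℤ) - 1 ≤ T.X.mdeg (G.W N (G.nn' N j a b) j a b) := by
  classical
  have h0 : G.W N 0 j a b ≠ ⊥ ∧ 2 * (T.X.genus : ℤ) - 1 ≤ T.X.mdeg (G.W N 0 j a b) := by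
    refine ⟨G.W_zero_ne hD hq hN h, ?_⟩
    rw [G.W_zero N j a b h]
    unfold Datum.V
    rw [T.X.mdeg_L P₀ (deg_ge hD hq hN h.1)]
    have := deg_ge hD hq hN h.1
    linarith
  have := Nat.findGreatest_spec (P := fun l => G.W N l j a b ≠ ⊥ ∧
    2 * (T.X.genus : ℤ) - 1 ≤ T.X.mdeg (G.W N l j a b)) (Nat.zero_le (G.Λ * N)) h0
  unfold nn'
  convert this

include hD in
theorem nn'_add (P₀ : T.X.Pt) (hq : 0 < q) {N N' : ℕ} (hN : 4 ≤ N) (hN' : 4 ≤ N') {j j' : ℤ}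
    {a a' b b' : ℕ} (h : InR q N j a b) (h' : InR q N' j' a' b') :
    G.nn' N j a b + G.nn N' j' a' b' ≤ G.nn' (N + N') (j + j') (a + a') (b + b') := by
  have h1 := nn'_spec (G := G) hD P₀ hq hN h
  have h2 := G.W_ne_bot hD hq hN' h' le_rfl
  apply le_nn' (mul_ne_bot h h' h1.1 h2)
  have h3 := CurveOrd.mdeg_mul (G.W_le N (G.nn' N j a b) j a b h)
    (G.W_le N' (G.nn N' j' a' b') j' a' b' h')
    (G.W_le (N + N') (G.nn' N j a b + G.nn N' j' a' b') (j + j') (a + a') (b + b') (h.add h'))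
    h1.1 h2 (G.W_mul N N' _ _ j j' a a' b b' h h')
  have h4 := CurveOrd.mdeg_nonneg (G.W_le N' (G.nn N' j' a' b') j' a' b' h') h2
  linarith [h1.2]

include hD in
theorem nb_add (hq : 0 < q) {N N' : ℕ} (hN : 4 ≤ N) (hN' : 4 ≤ N') {j j' : ℤ}
    (h : |j| ≤ 5 * q * N) (h' : |j'| ≤ 5 * q * N') :
    G.nb N j + G.nb N' j' ≤ G.nb (N + N') (j + j') := by
  apply av_add_le h h'
  intro a a' b b' h1 h2
  exact_mod_cast nn_add (G := G) hD hq hN hN' h1 h2

include hD in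
theorem nb'_add (P₀ : T.X.Pt) (hq : 0 < q) {N N' : ℕ} (hN : 4 ≤ N) (hN' : 4 ≤ N') {j j' : ℤ}
    (h : |j| ≤ 5 * q * N) (h' : |j'| ≤ 5 * q * N') :
    G.nb' N j + G.nb N' j' ≤ G.nb' (N + N') (j + j') := by
  apply av_add_le h h'
  intro a a' b b' h1 h2
  exact_mod_cast nn'_add (G := G) hD P₀ hq hN hN' h1 h2

theorem Mu_le {q N : ℕ} (hq : 0 < q) (hN : 0 < N) {f : ℤ → ℝ} {R : ℝ}
    (hR : 0 ≤ R) (hf' : ∀ j : ℤ, |j| ≤ 5 * q * N → f j ≤ R) :
    Mu q N f ≤ 7436 * ((q : ℝ) * N) ^ 3 * R := by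
  have hQ1 : (1 : ℝ) ≤ q * N := by
    have h1 : 1 ≤ q * N := Nat.mul_pos hq hN
    exact_mod_cast h1
  have h1 : Mu q N f ≤ ∑ _j ∈ Icc (-((5 * q * N : ℕ) : ℤ)) ((5 * q * N : ℕ) : ℤ),
      (676 * ((q : ℝ) * N) ^ 2 * R) := by
    unfold Mu
    apply sum_le_sum
    intro j hj
    have hj' := mem_Icc_iff.1 hj
    have h2 : mult q N j ≤ 676 * ((q : ℝ) * N) ^ 2 := by
      rw [mult_eq]
      nlinarith [sq_nonneg (j : ℝ)]
    calc mult q N j * f j ≤ mult q N j * R :=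
          mul_le_mul_of_nonneg_left (hf' j hj') (mult_pos hj').le
      _ ≤ _ := mul_le_mul_of_nonneg_right h2 hR
  rw [sum_const, Int.card_Icc, nsmul_eq_mul] at h1
  have h7 : (((((5 * q * N : ℕ) : ℤ) + 1 - -((5 * q * N : ℕ) : ℤ)).toNat : ℕ) : ℝ) =
      10 * (q * N) + 1 := by
    have : (((5 * q * N : ℕ) : ℤ) + 1 - -((5 * q * N : ℕ) : ℤ)).toNat = 10 * (q * N) + 1 := by
      have e : ((5 * q * N : ℕ) : ℤ) = 5 * ((q * N : ℕ) : ℤ) := by push_cast; ring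
      rw [e]
      omega
    rw [this]
    push_cast
    ring
  rw [h7] at h1
  refine h1.trans ?_
  have h3 : (10 * ((q : ℝ) * N) + 1) ≤ 11 * (q * N) := by linarith
  calc (10 * ((q : ℝ) * N) + 1) * (676 * (q * N) ^ 2 * R) ≤
      (11 * (q * N)) * (676 * (q * N) ^ 2 * R) := mul_le_mul_of_nonneg_right h3 (by positivity)
    _ = _ := by ring

include hD in
theorem Z_tendsto (P₀ : T.X.Pt) (hq : 0 < q) :
    Tendsto (fun k : ℕ => G.Z (2 ^ k) / 16 ^ k) atTop (nhds 0) := by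
  rw [← tendsto_add_atTop_iff_nat 2]
  have h4 : ∀ k : ℕ, 4 ≤ 2 ^ (k + 2) := by
    intro k
    have : 1 ≤ 2 ^ k := Nat.one_le_two_pow
    rw [pow_add]
    omega
  have hp : ∀ k : ℕ, 0 < 2 ^ (k + 2) := fun k => by positivity
  set x : ℕ → ℝ := fun k => Mu q (2 ^ (k + 2)) (G.nb (2 ^ (k + 2))) / 16 ^ (k + 2) with hx
  set x' : ℕ → ℝ := fun k => Mu q (2 ^ (k + 2)) (G.nb' (2 ^ (k + 2))) / 16 ^ (k + 2) with hx'
  have hz : ∀ k, G.Z (2 ^ (k + 2)) / 16 ^ (k + 2) = x k - x' k := by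
    intro k
    simp only [hx, hx']
    rw [← sub_div]
    congr 1
    unfold Z Mu
    rw [← sum_sub_distrib]
    apply sum_congr rfl
    intro j _
    ring
  set C : ℝ := 5000 * (q : ℝ) ^ 2 * (2 * G.Λ) with hC
  have hstep : ∀ k, x k - C * (1 / 2) ^ k ≤ x (k + 1) := by
    intro k
    have h1 := Mu_double (q := q) (N := 2 ^ (k + 2)) hq (hp k) (R := 2 * G.Λ * 2 ^ (k + 2))
      (s := fun j => 2 * G.nb (2 ^ (k + 2)) j) (H := G.nb (2 ^ (k + 3)))
      (fun j hj => by have := nb_nonneg (G := G) hj; linarith)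
      (fun j hj => by have := nb_le (G := G) hj; push_cast at this; linarith)
      (fun j hj => by
        have := nb_add (G := G) hD hq (h4 k) (h4 k) hj hj
        rw [← two_mul, ← two_mul, ← two_mul, ← pow_succ'] at this
        exact this)
      (fun j hj hj' => by
        have := nb_add (G := G) hD hq (h4 k) (h4 k) hj hj'
        rw [← two_mul (2 ^ (k + 2)), ← pow_succ', show j + (j + 1) = 2 * j + 1 by ring] at this
        refine le_trans (le_of_eq ?_) this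
        ring)
    rw [show 2 * 2 ^ (k + 2) = 2 ^ (k + 3) by rw [pow_succ 2 (k + 2)]; ring] at h1
    have h2 : Mu q (2 ^ (k + 2)) (fun j => 2 * G.nb (2 ^ (k + 2)) j) =
        2 * Mu q (2 ^ (k + 2)) (G.nb (2 ^ (k + 2))) := by
      unfold Mu
      rw [mul_sum]
      apply sum_congr rfl
      intro j _
      ring
    rw [h2] at h1
    simp only [hx]
    have e1 : (16 : ℝ) ^ (k + 1 + 2) = 16 * 16 ^ (k + 2) := by rw [← pow_succ']; 
    rw [e1]
    rw [le_div_iff₀ (by positivity)]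
    have h16 : (0 : ℝ) < 16 ^ (k + 2) := by positivity
    have e2 : (Mu q (2 ^ (k + 2)) (G.nb (2 ^ (k + 2))) / 16 ^ (k + 2) - C * (1 / 2) ^ k) *
        (16 * 16 ^ (k + 2)) = 16 * Mu q (2 ^ (k + 2)) (G.nb (2 ^ (k + 2))) -
        C * ((1 / 2) ^ k * (16 * 16 ^ (k + 2))) := by
      field_simp
    rw [e2]
    have e3 : ((1 / 2 : ℝ) ^ k * (16 * 16 ^ (k + 2))) = 4096 * 8 ^ k := by
      rw [pow_add, show (16 : ℝ) = 2 * 8 by norm_num, mul_pow, div_pow, one_pow]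
      have : (0 : ℝ) < 2 ^ k := by positivity
      field_simp
      ring
    have e4 : 5000 * ((q : ℝ) * ((2 ^ (k + 2) : ℕ) : ℝ)) ^ 2 * (2 * G.Λ * 2 ^ (k + 2)) =
        C * (64 * 8 ^ k) := by
      rw [hC]
      push_cast
      rw [show (8 : ℝ) ^ k = (2 ^ k) ^ 3 by rw [← pow_mul, mul_comm, pow_mul]; norm_num]
      rw [pow_add]
      ring
    rw [e4] at h1
    rw [e3]
    have h8 : (0 : ℝ) ≤ C * 8 ^ k := by positivity
    have e5 : G.nb (2 ^ (k + 1 + 2)) = G.nb (2 ^ (k + 3)) := rfl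
    have e6 : (2 : ℕ) ^ (k + 1 + 2) = 2 ^ (k + 3) := rfl
    rw [e6]
    nlinarith
  have hstep' : ∀ k, (x k + x' k) / 2 - C * (1 / 2) ^ k ≤ x' (k + 1) := by
    intro k
    have h1 := Mu_double (q := q) (N := 2 ^ (k + 2)) hq (hp k) (R := 2 * G.Λ * 2 ^ (k + 2))
      (s := fun j => G.nb' (2 ^ (k + 2)) j + G.nb (2 ^ (k + 2)) j) (H := G.nb' (2 ^ (k + 3)))
      (fun j hj => by
        have := nb_nonneg (G := G) hj
        have := nb'_nonneg (G := G) hj
        linarith)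
      (fun j hj => by
        have := nb_le (G := G) hj
        have := nb'_le_nb (G := G) hj
        push_cast at *
        linarith)
      (fun j hj => by
        have := nb'_add (G := G) hD P₀ hq (h4 k) (h4 k) hj hj
        rw [← two_mul (2 ^ (k + 2)), ← two_mul j, ← pow_succ'] at this
        exact this)
      (fun j hj hj' => by
        have t1 := nb'_add (G := G) hD P₀ hq (h4 k) (h4 k) hj hj'
        have t2 := nb'_add (G := G) hD P₀ hq (h4 k) (h4 k) hj' hj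
        rw [← two_mul (2 ^ (k + 2)), ← pow_succ', show j + (j + 1) = 2 * j + 1 by ring] at t1
        rw [← two_mul (2 ^ (k + 2)), ← pow_succ', show j + 1 + j = 2 * j + 1 by ring] at t2
        have e7 : (2 : ℕ) ^ (k + 2 + 1) = 2 ^ (k + 3) := rfl
        rw [e7] at t1 t2
        linarith)
    rw [show 2 * 2 ^ (k + 2) = 2 ^ (k + 3) by rw [pow_succ 2 (k + 2)]; ring] at h1
    have h2 : Mu q (2 ^ (k + 2)) (fun j => G.nb' (2 ^ (k + 2)) j + G.nb (2 ^ (k + 2)) j) =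
        Mu q (2 ^ (k + 2)) (G.nb' (2 ^ (k + 2))) + Mu q (2 ^ (k + 2)) (G.nb (2 ^ (k + 2))) := by
      unfold Mu
      rw [← sum_add_distrib]
      apply sum_congr rfl
      intro j _
      ring
    rw [h2] at h1
    simp only [hx, hx']
    have e1 : (16 : ℝ) ^ (k + 1 + 2) = 16 * 16 ^ (k + 2) := by rw [← pow_succ']
    rw [e1, le_div_iff₀ (by positivity)]
    have h16 : (0 : ℝ) < 16 ^ (k + 2) := by positivity
    have e2 : ((Mu q (2 ^ (k + 2)) (G.nb (2 ^ (k + 2))) / 16 ^ (k + 2) +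
        Mu q (2 ^ (k + 2)) (G.nb' (2 ^ (k + 2))) / 16 ^ (k + 2)) / 2 - C * (1 / 2) ^ k) *
        (16 * 16 ^ (k + 2)) = 8 * (Mu q (2 ^ (k + 2)) (G.nb (2 ^ (k + 2))) +
          Mu q (2 ^ (k + 2)) (G.nb' (2 ^ (k + 2)))) -
        C * ((1 / 2) ^ k * (16 * 16 ^ (k + 2))) := by
      field_simp
      ring
    rw [e2]
    have e3 : ((1 / 2 : ℝ) ^ k * (16 * 16 ^ (k + 2))) = 4096 * 8 ^ k := by
      rw [pow_add, show (16 : ℝ) = 2 * 8 by norm_num, mul_pow, div_pow, one_pow]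
      have : (0 : ℝ) < 2 ^ k := by positivity
      field_simp
      ring
    have e4 : 5000 * ((q : ℝ) * ((2 ^ (k + 2) : ℕ) : ℝ)) ^ 2 * (2 * G.Λ * 2 ^ (k + 2)) =
        C * (64 * 8 ^ k) := by
      rw [hC]
      push_cast
      rw [show (8 : ℝ) ^ k = (2 ^ k) ^ 3 by rw [← pow_mul, mul_comm, pow_mul]; norm_num]
      rw [pow_add]
      ring
    rw [e4] at h1
    rw [e3]
    have h8 : (0 : ℝ) ≤ C * 8 ^ k := by positivity
    have e6 : (2 : ℕ) ^ (k + 1 + 2) = 2 ^ (k + 3) := rfl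
    rw [e6]
    nlinarith
  have hbd : ∀ k, x k ≤ 7436 * (q : ℝ) ^ 3 * G.Λ := by
    intro k
    simp only [hx]
    rw [div_le_iff₀ (by positivity)]
    have := Mu_le (q := q) (N := 2 ^ (k + 2)) hq (hp k) (f := G.nb (2 ^ (k + 2)))
      (R := G.Λ * ((2 ^ (k + 2) : ℕ) : ℝ)) (by positivity) (fun j hj => nb_le hj)
    refine this.trans (le_of_eq ?_)
    push_cast
    rw [show (16 : ℝ) ^ (k + 2) = (2 ^ (k + 2)) ^ 4 by
      rw [← pow_mul, mul_comm, pow_mul]; norm_num]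
    ring
  have hinc := incr_tendsto_zero hstep hbd
  have hη : Tendsto (fun k : ℕ => (x (k + 1) - x k) + C * (1 / 2 : ℝ) ^ k) atTop (nhds 0) := by
    have h1 : Tendsto (fun k : ℕ => C * (1 / 2 : ℝ) ^ k) atTop (nhds (C * 0)) :=
      (tendsto_pow_atTop_nhds_zero_of_lt_one (by norm_num) (by norm_num)).const_mul _
    have := hinc.add h1
    rw [mul_zero, add_zero] at this
    exact this
  have hfin := tendsto_zero_of_half (z := fun k => x k - x' k)
    (η := fun k : ℕ => (x (k + 1) - x k) + C * (1 / 2 : ℝ) ^ k) (by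
      intro k
      simp only [hx, hx']
      rw [← sub_div]
      apply div_nonneg _ (by positivity)
      unfold Mu
      rw [← sum_sub_distrib]
      apply sum_nonneg
      intro j hj
      have hj' := mem_Icc_iff.1 hj
      rw [← mul_sub]
      apply mul_nonneg (mult_pos hj').le
      have := nb'_le_nb (G := G) hj'
      linarith) (by
      intro k
      have := hstep' k
      linarith) hη
  refine hfin.congr ?_
  intro k
  exact (hz k).symm

end Graded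

end Pool.Agent.YTD
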