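import Pool.Agent.YTDM.P06

/- source: Pool.Agent.YTD.Rigid1 -/

section

/-!
Numerical doubling inequality for superadditive families (used in the equality analysis).
-/

namespace Pool.Agent.YTD

open Finset Filter

/-- the weighted sum -/
noncomputable def XX (q L : ℕ) (u : ℤ → ℝ) : ℝ :=
  ∑ i ∈ range (2 * (5 * q * L) + 1), Wt q L ((i : ℤ) - (5 * q * L : ℕ)) *
    u ((i : ℤ) - (5 * q * L : ℕ))

theorem XX_double (t q L : ℕ) (hq : 0 < q) (hL : 0 < L) (R : ℝ) (n n' : ℤ → ℝ)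
    (hn0 : ∀ j : ℤ, |j| ≤ 5 * q * L → 0 ≤ n j) (hnR : ∀ j : ℤ, |j| ≤ 5 * q * L → n j ≤ R)
    (h0 : ∀ j : ℤ, |j| ≤ 5 * q * L → 2 * n j ≤ n' (2 * j))
    (h1 : ∀ j : ℤ, |j| ≤ 5 * q * L → |j + 1| ≤ 5 * q * L → n j + n (j + 1) ≤ n' (2 * j + 1)) :
    32 * XX q L (fun j => (dg t q L j : ℝ) * n j) - 600000 * t * (q : ℝ) ^ 2 * (L : ℝ) ^ 2 * R ≤
      XX q (2 * L) (fun j => (dg t q (2 * L) j : ℝ) * n' j) := by
  set u : ℤ → ℝ := fun j => (dg t q L j : ℝ) * n j with hu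
  set u' : ℤ → ℝ := fun j => (dg t q (2 * L) j : ℝ) * n' j with hu'
  set Q : ℕ := q * L with hQ
  have hQ1 : 1 ≤ Q := Nat.mul_pos hq hL
  have hQr : (1 : ℝ) ≤ Q := by exact_mod_cast hQ1
  have hQc : (Q : ℝ) = q * L := by rw [hQ]; push_cast; ring
  have hQz : (Q : ℤ) = q * L := by rw [hQ]; push_cast; ring
  have hM : 5 * q * L = 5 * Q := by rw [hQ]; ring
  have hR0 : 0 ≤ R := (hn0 0 (by rw [abs_zero]; positivity)).trans
    (hnR 0 (by rw [abs_zero]; positivity))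
  have hd0 : ∀ j : ℤ, |j| ≤ 5 * q * L → (0 : ℝ) ≤ dg t q L j := by
    intro j hj
    have : (0 : ℤ) ≤ dg t q L j := le_trans (by positivity) (le_dg hj)
    exact_mod_cast this
  have hd1 : ∀ j : ℤ, (dg t q L j : ℝ) ≤ 105 * t * q * L := by
    intro j
    exact_mod_cast dg_le t q L j
  have hu0 : ∀ j : ℤ, |j| ≤ 5 * q * L → 0 ≤ u j := fun j hj => mul_nonneg (hd0 j hj) (hn0 j hj)
  have huR : ∀ j : ℤ, |j| ≤ 5 * q * L → u j ≤ R * (105 * t * q * L) := by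
    intro j hj
    calc u j ≤ (105 * t * q * L) * R := mul_le_mul (hd1 j) (hnR j hj) (hn0 j hj) (by positivity)
      _ = _ := by ring
  have rg2 : ∀ j : ℤ, |j| ≤ 5 * q * L → |2 * j| ≤ 5 * q * ((2 * L : ℕ) : ℤ) := by
    intro j hj
    rw [abs_mul, show |(2 : ℤ)| = 2 by rfl]
    push_cast
    linarith
  have rg3 : ∀ j : ℤ, |j| ≤ 5 * q * L → |j + 1| ≤ 5 * q * L →
      |2 * j + 1| ≤ 5 * q * ((2 * L : ℕ) : ℤ) := by
    intro j hj hj'
    rw [abs_le] at hj hj' ⊢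
    push_cast
    constructor <;> linarith
  have hd0' : ∀ j : ℤ, |j| ≤ 5 * q * ((2 * L : ℕ) : ℤ) → (0 : ℝ) ≤ dg t q (2 * L) j := by
    intro j hj
    have : (0 : ℤ) ≤ dg t q (2 * L) j := le_trans (by positivity) (le_dg hj)
    exact_mod_cast this
  -- even step
  have ev : ∀ j : ℤ, |j| ≤ 5 * q * L → 4 * u j ≤ u' (2 * j) := by
    intro j hj
    have h := mul_le_mul_of_nonneg_left (h0 j hj) (hd0' _ (rg2 j hj))
    simp only [hu, hu']
    refine le_trans (le_of_eq ?_) h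
    rw [dg_double]
    push_cast
    ring
  -- odd step
  have od : ∀ j : ℤ, |j| ≤ 5 * q * L → |j + 1| ≤ 5 * q * L →
      2 * u j + 2 * u (j + 1) -
        (n j - n (j + 1)) * ((dg t q L j - dg t q L (j + 1) : ℤ) : ℝ) ≤
      u' (2 * j + 1) := by
    intro j hj hj'
    have h := mul_le_mul_of_nonneg_left (h1 j hj hj') (hd0' _ (rg3 j hj hj'))
    simp only [hu, hu']
    refine le_trans (le_of_eq ?_) h
    rw [dg_double_succ]
    push_cast
    ring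
  -- the sum at level 2L
  have S1 : XX q (2 * L) u' = ∑ i ∈ range (4 * (5 * Q) + 1),
      (fun j : ℤ => Wt q (2 * L) j * u' j) ((i : ℤ) - 2 * ((5 * Q : ℕ) : ℤ)) := by
    unfold XX
    have e : 5 * q * (2 * L) = 2 * (5 * Q) := by rw [hQ]; ring
    rw [e, show 2 * (2 * (5 * Q)) + 1 = 4 * (5 * Q) + 1 by ring]
    apply sum_congr rfl
    intro i _
    simp only
    congr 2
  rw [S1, sum_split (5 * Q) (fun j : ℤ => Wt q (2 * L) j * u' j)]
  -- ranges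
  have rng : ∀ i ∈ range (2 * (5 * Q) + 1), |(i : ℤ) - (5 * Q : ℕ)| ≤ 5 * q * L := by
    intro i hi
    have := mem_range.1 hi
    have e : (5 * (q : ℤ) * L) = 5 * Q := by rw [hQz]; ring
    rw [e, abs_le]
    push_cast
    constructor <;> omega
  have rng' : ∀ i ∈ range (2 * (5 * Q)), |(i : ℤ) - (5 * Q : ℕ)| ≤ 5 * q * L ∧
      |(i : ℤ) - (5 * Q : ℕ) + 1| ≤ 5 * q * L := by
    intro i hi
    have := mem_range.1 hi
    have e : (5 * (q : ℤ) * L) = 5 * Q := by rw [hQz]; ring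
    rw [e, abs_le, abs_le]
    push_cast
    constructor <;> constructor <;> omega
  have wpos : ∀ j : ℤ, |j| ≤ 5 * q * L → 0 ≤ Wt q (2 * L) (2 * j) := by
    intro j hj
    apply Wt_nonneg
    rw [abs_mul]
    push_cast
    rw [show |(2 : ℤ)| = 2 by rfl]
    linarith
  have wmid : ∀ j : ℤ, |j| ≤ 5 * q * L → |j + 1| ≤ 5 * q * L →
      Wt q (2 * L) (2 * j + 1) = 2500 * (Q : ℝ) ^ 2 - 9 * (2 * (j : ℝ) + 1) ^ 2 := by
    intro j hj hj'
    rw [Wt_mid]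
    · push_cast
      rw [hQc]
      ring
    · rw [abs_le] at hj hj'
      push_cast
      have e : 5 * (q : ℤ) * (2 * L) = 2 * (5 * q * L) := by ring
      rw [e]
      generalize 5 * (q : ℤ) * L = u at *
      intro h
      rcases abs_cases (2 * j + 1) with ⟨h1, _⟩ | ⟨h1, _⟩ <;> rw [h1] at h <;> omega
  have wmidpos : ∀ j : ℤ, |j| ≤ 5 * q * L → |j + 1| ≤ 5 * q * L →
      0 ≤ Wt q (2 * L) (2 * j + 1) := by
    intro j hj hj'
    apply Wt_nonneg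
    rw [abs_le] at hj hj' ⊢
    push_cast
    constructor <;> linarith
  -- lower bounds of the two sums
  have E1 : ∑ i ∈ range (2 * (5 * Q) + 1), 4 * Wt q (2 * L) (2 * ((i : ℤ) - (5 * Q : ℕ))) *
      u ((i : ℤ) - (5 * Q : ℕ)) ≤ ∑ i ∈ range (2 * (5 * Q) + 1),
      Wt q (2 * L) (2 * ((i : ℤ) - (5 * Q : ℕ))) * u' (2 * ((i : ℤ) - (5 * Q : ℕ))) := by
    apply sum_le_sum
    intro i hi
    have := mul_le_mul_of_nonneg_left (ev _ (rng i hi)) (wpos _ (rng i hi))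
    linarith
  have E2 : ∑ i ∈ range (2 * (5 * Q)), Wt q (2 * L) (2 * ((i : ℤ) - (5 * Q : ℕ)) + 1) *
      (2 * u ((i : ℤ) - (5 * Q : ℕ)) + 2 * u ((i : ℤ) - (5 * Q : ℕ) + 1) -
        (n ((i : ℤ) - (5 * Q : ℕ)) - n ((i : ℤ) - (5 * Q : ℕ) + 1)) *
          ((dg t q L ((i : ℤ) - (5 * Q : ℕ)) - dg t q L ((i : ℤ) - (5 * Q : ℕ) + 1) : ℤ) : ℝ)) ≤
      ∑ i ∈ range (2 * (5 * Q)),
      Wt q (2 * L) (2 * ((i : ℤ) - (5 * Q : ℕ)) + 1) * u' (2 * ((i : ℤ) - (5 * Q : ℕ)) + 1) := by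
    apply sum_le_sum
    intro i hi
    exact mul_le_mul_of_nonneg_left (od _ (rng' i hi).1 (rng' i hi).2)
      (wmidpos _ (rng' i hi).1 (rng' i hi).2)
  refine le_trans ?_ (add_le_add E1 E2)
  -- correction term
  have C1 := corr_le t Q R n
    (fun j hj => hn0 j (by rw [show (5 * (q : ℤ) * L) = 5 * Q by rw [hQz]; ring]; exact hj))
    (fun j hj => hnR j (by rw [show (5 * (q : ℤ) * L) = 5 * Q by rw [hQz]; ring]; exact hj))
    (fun j => ((dg t q L j - dg t q L (j + 1) : ℤ) : ℝ))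
    (by
      intro j
      rw [dg_diff, show 4 * (q : ℤ) * L = 4 * (Q : ℤ) by rw [hQz]; ring]
      push_cast
      rfl)
  -- split the second sum
  have E3 : ∑ i ∈ range (2 * (5 * Q)), Wt q (2 * L) (2 * ((i : ℤ) - (5 * Q : ℕ)) + 1) *
      (2 * u ((i : ℤ) - (5 * Q : ℕ)) + 2 * u ((i : ℤ) - (5 * Q : ℕ) + 1) -
        (n ((i : ℤ) - (5 * Q : ℕ)) - n ((i : ℤ) - (5 * Q : ℕ) + 1)) *
          ((dg t q L ((i : ℤ) - (5 * Q : ℕ)) - dg t q L ((i : ℤ) - (5 * Q : ℕ) + 1) : ℤ) : ℝ)) =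
      (∑ i ∈ range (2 * (5 * Q)), (2 * Wt q (2 * L) (2 * ((i : ℤ) - (5 * Q : ℕ)) + 1)) *
        u ((i : ℤ) - (5 * Q : ℕ)) +
      ∑ i ∈ range (2 * (5 * Q)), (2 * Wt q (2 * L) (2 * ((i : ℤ) - (5 * Q : ℕ)) + 1)) *
        u (((i + 1 : ℕ) : ℤ) - (5 * Q : ℕ))) -
      ∑ i ∈ range (2 * (5 * Q)),
        (2500 * (Q : ℝ) ^ 2 - 9 * (2 * (((i : ℤ) - (5 * Q : ℕ) : ℤ) : ℝ) + 1) ^ 2) *
        ((n ((i : ℤ) - (5 * Q : ℕ)) - n ((i : ℤ) - (5 * Q : ℕ) + 1)) *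
          ((dg t q L ((i : ℤ) - (5 * Q : ℕ)) - dg t q L ((i : ℤ) - (5 * Q : ℕ) + 1) : ℤ) : ℝ)) := by
    rw [← sum_add_distrib, ← sum_sub_distrib]
    apply sum_congr rfl
    intro i hi
    rw [wmid _ (rng' i hi).1 (rng' i hi).2]
    rw [show (((i + 1 : ℕ) : ℤ) - (5 * Q : ℕ)) = ((i : ℤ) - (5 * Q : ℕ)) + 1 by push_cast; ring]
    ring
  rw [E3, sum_shift (2 * (5 * Q)) (fun i => 2 * Wt q (2 * L) (2 * ((i : ℤ) - (5 * Q : ℕ)) + 1))
    (fun i => u ((i : ℤ) - (5 * Q : ℕ)))]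
  -- main comparison
  have E4 : ∑ i ∈ range (2 * (5 * Q) + 1), (32 * Wt q L ((i : ℤ) - (5 * Q : ℕ)) - 36) *
      u ((i : ℤ) - (5 * Q : ℕ)) ≤
      ∑ i ∈ range (2 * (5 * Q) + 1), 4 * Wt q (2 * L) (2 * ((i : ℤ) - (5 * Q : ℕ))) *
      u ((i : ℤ) - (5 * Q : ℕ)) +
      ∑ i ∈ range (2 * (5 * Q) + 1),
      ((if i < 2 * (5 * Q) then (fun i : ℕ => 2 * Wt q (2 * L) (2 * ((i : ℤ) - (5 * Q : ℕ)) + 1)) i
        else 0) +
       (if 0 < i then (fun i : ℕ => 2 * Wt q (2 * L) (2 * ((i : ℤ) - (5 * Q : ℕ)) + 1)) (i - 1)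
        else 0)) * (fun i : ℕ => u ((i : ℤ) - (5 * Q : ℕ))) i := by
    rw [← sum_add_distrib]
    apply sum_le_sum
    intro i hi
    have hi' := mem_range.1 hi
    have hub := hu0 _ (rng i hi)
    rw [← add_mul]
    apply mul_le_mul_of_nonneg_right _ hub
    simp only
    have hi0 : (i : ℝ) ≤ 10 * Q := by
      have : i ≤ 10 * Q := by omega
      exact_mod_cast this
    rcases Nat.eq_zero_or_pos i with h0 | h0
    · -- left end
      subst h0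
      rw [if_pos (by omega), if_neg (lt_irrefl 0)]
      have ea : |((0 : ℕ) : ℤ) - (5 * Q : ℕ)| = 5 * q * L := by
        rw [show (5 * (q : ℤ) * L) = 5 * Q by rw [hQz]; ring]
        push_cast
        rw [zero_sub, abs_neg, abs_of_nonneg (by positivity)]
      have eb : |2 * (((0 : ℕ) : ℤ) - (5 * Q : ℕ))| = 5 * q * ((2 * L : ℕ) : ℤ) := by
        rw [abs_mul, ea]
        push_cast
        rw [show |(2 : ℤ)| = 2 by rfl]
        ring
      rw [Wt_end ea, Wt_end eb, wmid _ (rng' 0 (mem_range.2 (by omega))).1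
        (rng' 0 (mem_range.2 (by omega))).2]
      push_cast
      rw [hQc] at hQr ⊢
      nlinarith
    · rcases Nat.lt_or_ge i (2 * (5 * Q)) with h1 | h1
      · -- interior
        rw [if_pos h1, if_pos h0]
        have hne : ∀ k : ℕ, 0 < k → k < 2 * (5 * Q) → |(k : ℤ) - (5 * Q : ℕ)| ≠ 5 * q * L := by
          intro k hk hk' h
          rw [show (5 * (q : ℤ) * L) = 5 * Q by rw [hQz]; ring] at h
          push_cast at h
          rcases abs_cases ((k : ℤ) - 5 * Q) with ⟨h2, _⟩ | ⟨h2, _⟩ <;> rw [h2] at h <;> omega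
        have hne2 : |2 * ((i : ℤ) - (5 * Q : ℕ))| ≠ 5 * q * ((2 * L : ℕ) : ℤ) := by
          intro h
          apply hne i h0 h1
          rw [abs_mul, show |(2 : ℤ)| = 2 by rfl] at h
          push_cast at h ⊢
          linarith
        rw [Wt_mid (hne i h0 h1), Wt_mid hne2, wmid _ (rng' i (mem_range.2 h1)).1
          (rng' i (mem_range.2 h1)).2, wmid _ (rng' (i - 1) (mem_range.2 (by omega))).1
          (rng' (i - 1) (mem_range.2 (by omega))).2]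
        rw [show (((i - 1 : ℕ) : ℤ) - (5 * Q : ℕ)) = ((i : ℤ) - (5 * Q : ℕ)) - 1 by
          push_cast [Nat.cast_sub (show 1 ≤ i by omega)]; ring]
        push_cast
        rw [hQc]
        nlinarith
      · -- right end
        have hi2 : i = 2 * (5 * Q) := by omega
        subst hi2
        rw [if_neg (lt_irrefl _), if_pos h0]
        have ea : |((2 * (5 * Q) : ℕ) : ℤ) - (5 * Q : ℕ)| = 5 * q * L := by
          rw [show (5 * (q : ℤ) * L) = 5 * Q by rw [hQz]; ring]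
          push_cast
          rw [show (2 : ℤ) * (5 * Q) - 5 * Q = 5 * Q by ring, abs_of_nonneg (by positivity)]
        have eb : |2 * (((2 * (5 * Q) : ℕ) : ℤ) - (5 * Q : ℕ))| = 5 * q * ((2 * L : ℕ) : ℤ) := by
          rw [abs_mul, ea]
          push_cast
          rw [show |(2 : ℤ)| = 2 by rfl]
          ring
        rw [Wt_end ea, Wt_end eb, wmid _ (rng' (2 * (5 * Q) - 1) (mem_range.2 (by omega))).1
          (rng' (2 * (5 * Q) - 1) (mem_range.2 (by omega))).2]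
        rw [show (((2 * (5 * Q) - 1 : ℕ) : ℤ) - (5 * Q : ℕ)) = 5 * (Q : ℤ) - 1 by
          rw [Nat.cast_sub (show 1 ≤ 2 * (5 * Q) by omega)]; push_cast; ring]
        push_cast
        rw [hQc] at hQr ⊢
        nlinarith
  -- the error term
  have E5 : ∑ i ∈ range (2 * (5 * Q) + 1), 36 * u ((i : ℤ) - (5 * Q : ℕ)) ≤
      36 * ((11 * Q) * (R * (105 * t * q * L))) := by
    rw [← mul_sum]
    apply mul_le_mul_of_nonneg_left _ (by norm_num)
    have : ∑ i ∈ range (2 * (5 * Q) + 1), u ((i : ℤ) - (5 * Q : ℕ)) ≤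
        ∑ _i ∈ range (2 * (5 * Q) + 1), (R * (105 * t * q * L)) :=
      sum_le_sum fun i hi => huR _ (rng i hi)
    rw [sum_const, card_range, nsmul_eq_mul] at this
    refine this.trans ?_
    apply mul_le_mul_of_nonneg_right _ (by positivity)
    push_cast
    linarith
  have E6 : XX q L u = ∑ i ∈ range (2 * (5 * Q) + 1), Wt q L ((i : ℤ) - (5 * Q : ℕ)) *
      u ((i : ℤ) - (5 * Q : ℕ)) := by
    unfold XX
    rw [hM]
  have E7 : ∑ i ∈ range (2 * (5 * Q) + 1), (32 * Wt q L ((i : ℤ) - (5 * Q : ℕ)) - 36) *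
      u ((i : ℤ) - (5 * Q : ℕ)) = 32 * XX q L u -
      ∑ i ∈ range (2 * (5 * Q) + 1), 36 * u ((i : ℤ) - (5 * Q : ℕ)) := by
    rw [E6, mul_sum, ← sum_sub_distrib]
    apply sum_congr rfl
    intro i _
    ring
  rw [E7] at E4
  have hfin : 36 * ((11 * (Q : ℝ)) * (R * (105 * t * q * L))) +
      500000 * t * (Q : ℝ) ^ 2 * R ≤
      600000 * t * (q : ℝ) ^ 2 * (L : ℝ) ^ 2 * R := by
    rw [hQc]
    have : (0 : ℝ) ≤ t * (q : ℝ) ^ 2 * (L : ℝ) ^ 2 * R := by positivity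
    nlinarith
  linarith

end Pool.Agent.YTD


end

/- source: Pool.Agent.YTD.Rigid2 -/

section

/-!
The weighted sums of superadditive families and their limits.
-/

namespace Pool.Agent.YTD

open Finset Filter

/-- plain sum over `|j| ≤ 5qL`. -/
noncomputable def SS (q L : ℕ) (f : ℤ → ℝ) : ℝ :=
  ∑ i ∈ range (2 * (5 * q * L) + 1), f ((i : ℤ) - (5 * q * L : ℕ))

theorem SS_rng {q L i : ℕ} (hi : i ∈ range (2 * (5 * q * L) + 1)) :
    |(i : ℤ) - (5 * q * L : ℕ)| ≤ 5 * q * L := by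
  have := mem_range.1 hi
  have e : (5 * (q : ℤ) * L) = ((5 * q * L : ℕ) : ℤ) := by push_cast; ring
  rw [e]
  generalize 5 * q * L = M at *
  rw [abs_le]
  constructor <;> omega

theorem SS_mono {q L : ℕ} {f g : ℤ → ℝ} (h : ∀ j : ℤ, |j| ≤ 5 * q * L → f j ≤ g j) :
    SS q L f ≤ SS q L g := sum_le_sum fun _ hi => h _ (SS_rng hi)

theorem SS_add (q L : ℕ) (f g : ℤ → ℝ) : SS q L (fun j => f j + g j) = SS q L f + SS q L g :=
  sum_add_distrib

theorem SS_sub (q L : ℕ) (f g : ℤ → ℝ) : SS q L (fun j => f j - g j) = SS q L f - SS q L g :=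
  sum_sub_distrib _ _

theorem SS_mul (q L : ℕ) (c : ℝ) (f : ℤ → ℝ) : SS q L (fun j => c * f j) = c * SS q L f := by
  unfold SS
  rw [mul_sum]

theorem SS_congr {q L : ℕ} {f g : ℤ → ℝ} (h : ∀ j : ℤ, |j| ≤ 5 * q * L → f j = g j) :
    SS q L f = SS q L g := sum_congr rfl fun _ hi => h _ (SS_rng hi)

theorem SS_nonneg {q L : ℕ} {f : ℤ → ℝ} (h : ∀ j : ℤ, |j| ≤ 5 * q * L → 0 ≤ f j) :
    0 ≤ SS q L f := sum_nonneg fun _ hi => h _ (SS_rng hi)

theorem SS_eq_Icc (q L : ℕ) (f : ℤ → ℝ) :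
    SS q L f = ∑ j ∈ Icc (-((5 * q * L : ℕ) : ℤ)) ((5 * q * L : ℕ) : ℤ), f j :=
  sum_range_eq_Icc (5 * q * L) f

theorem XX_eq_SS (q L : ℕ) (u : ℤ → ℝ) : XX q L u = SS q L (fun j => Wt q L j * u j) := rfl

theorem Wt_ge {q L : ℕ} {j : ℤ} (h : |j| ≤ 5 * q * L) : 200 * ((q : ℝ) * L) ^ 2 ≤ Wt q L j := by
  unfold Wt
  split_ifs
  · exact le_rfl
  · have h1 : |(j : ℝ)| ≤ 5 * q * L := by exact_mod_cast h
    have h2 : (j : ℝ) ^ 2 ≤ (5 * q * L) ^ 2 := sq_le_sq' (by linarith [(abs_le.1 h1).1])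
      (abs_le.1 h1).2
    nlinarith [sq_nonneg ((q : ℝ) * L)]

theorem dgr_ge {t q L : ℕ} {j : ℤ} (h : |j| ≤ 5 * q * L) :
    5 * (t : ℝ) * (q * L) ≤ (dg t q L j : ℝ) := by
  have := le_dg (t := t) h
  have h2 : ((5 * (t : ℤ) * q * L : ℤ) : ℝ) ≤ (dg t q L j : ℝ) := by exact_mod_cast this
  push_cast at h2
  linarith

theorem dgr_le (t q L : ℕ) (j : ℤ) : (dg t q L j : ℝ) ≤ 105 * t * (q * L) := by
  have h2 : (dg t q L j : ℝ) ≤ ((105 * (t : ℤ) * q * L : ℤ) : ℝ) := by exact_mod_cast dg_le t q L j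
  push_cast at h2
  linarith

theorem XX_dg_ge {t q L : ℕ} {f : ℤ → ℝ} (hf : ∀ j : ℤ, |j| ≤ 5 * q * L → 0 ≤ f j) :
    1000 * t * ((q : ℝ) * L) ^ 3 * SS q L f ≤ XX q L (fun j => (dg t q L j : ℝ) * f j) := by
  rw [XX_eq_SS, ← SS_mul]
  apply SS_mono
  intro j hj
  have h1 := Wt_ge hj
  have h2 := dgr_ge (t := t) hj
  have h3 := hf j hj
  have h4 : (0 : ℝ) ≤ q * L := by positivity
  calc 1000 * t * ((q : ℝ) * L) ^ 3 * f j = (200 * ((q : ℝ) * L) ^ 2) * ((5 * t * (q * L)) * f j) := by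
        ring
    _ ≤ Wt q L j * ((dg t q L j : ℝ) * f j) := by
        apply mul_le_mul h1 (mul_le_mul_of_nonneg_right h2 h3) (by positivity) (Wt_nonneg hj)

theorem XX_dg_le {t q L : ℕ} {f : ℤ → ℝ} (hf : ∀ j : ℤ, |j| ≤ 5 * q * L → 0 ≤ f j) :
    XX q L (fun j => (dg t q L j : ℝ) * f j) ≤ 65625 * t * ((q : ℝ) * L) ^ 3 * SS q L f := by
  rw [XX_eq_SS, ← SS_mul]
  apply SS_mono
  intro j hj
  have h1 := Wt_le (q := q) (L := L) (j := j)
  have h2 := dgr_le t q L j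
  have h3 := hf j hj
  have h4 : (0 : ℝ) ≤ q * L := by positivity
  have h5 : (0 : ℝ) ≤ dg t q L j := le_trans (by positivity) (dgr_ge (t := t) hj)
  calc Wt q L j * ((dg t q L j : ℝ) * f j) ≤
      (625 * ((q : ℝ) * L) ^ 2) * ((105 * t * (q * L)) * f j) := by
        apply mul_le_mul h1 (mul_le_mul_of_nonneg_right h2 h3) (by positivity) (by positivity)
    _ = _ := by ring

theorem XX_sub (q L : ℕ) (u v : ℤ → ℝ) : XX q L (fun j => u j - v j) = XX q L u - XX q L v := by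
  rw [XX_eq_SS, XX_eq_SS, XX_eq_SS, ← SS_sub]
  congr 1
  funext j
  ring

/-- the weighted sum of a family. -/
noncomputable def XF {q : ℕ} (F : Fam (4 * q)) (t k : ℕ) : ℝ :=
  XX q (2 ^ (k + 2)) (fun j => (dg t q (2 ^ (k + 2)) j : ℝ) * F.ν k j)

theorem rng4 {q k : ℕ} {j : ℤ} : |j| ≤ 5 * q * ((2 ^ (k + 2) : ℕ) : ℤ) ↔
    |j| ≤ 5 * ((4 * q : ℕ) : ℤ) * 2 ^ k := by
  have e : 5 * (q : ℤ) * ((2 ^ (k + 2) : ℕ) : ℤ) = 5 * ((4 * q : ℕ) : ℤ) * 2 ^ k := by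
    push_cast
    rw [pow_add]
    ring
  rw [e]

theorem XF_step {q : ℕ} (hq : 0 < q) (F : Fam (4 * q)) (t k : ℕ) :
    32 * XF F t k - 9600000 * t * (q : ℝ) ^ 2 * F.C * 8 ^ k ≤ XF F t (k + 1) := by
  have h := XX_double t q (2 ^ (k + 2)) hq (by positivity) (F.C * 2 ^ k) (F.ν k) (F.ν (k + 1))
    (fun j hj => F.nonneg k j (rng4.1 hj)) (fun j hj => F.le k j (rng4.1 hj))
    (fun j hj => by
      have := F.add k j j (rng4.1 hj) (rng4.1 hj)
      rw [← two_mul, ← two_mul] at this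
      exact this)
    (fun j hj hj' => by
      have := F.add k j (j + 1) (rng4.1 hj) (rng4.1 hj')
      rw [show j + (j + 1) = 2 * j + 1 by ring] at this
      exact this)
  rw [← pow_succ'] at h
  have e : 600000 * t * (q : ℝ) ^ 2 * ((2 ^ (k + 2) : ℕ) : ℝ) ^ 2 * (F.C * 2 ^ k) =
      9600000 * t * (q : ℝ) ^ 2 * F.C * 8 ^ k := by
    push_cast
    rw [show (8 : ℝ) ^ k = (2 ^ k) ^ 3 by rw [← pow_mul, mul_comm, pow_mul]; norm_num, pow_add]
    ring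
  rw [e] at h
  exact h

theorem XF_le {q : ℕ} (hq : 0 < q) (F : Fam (4 * q)) (t : ℕ) {s : ℝ}
    (h : ∀ ε > 0, ∀ᶠ k : ℕ in atTop, XF F t k ≤ (s + ε) * 32 ^ k) (k : ℕ) :
    XF F t k ≤ s * 32 ^ k + 400000 * t * (q : ℝ) ^ 2 * F.C * 8 ^ k := by
  set K : ℝ := 9600000 * t * (q : ℝ) ^ 2 * F.C with hK
  have hC := F.C_nonneg
  have hK0 : 0 ≤ K := by positivity
  have it : ∀ i : ℕ, 32 ^ i * XF F t k - K * 8 ^ k * ((32 ^ i - 8 ^ i) / 24) ≤ XF F t (k + i) := by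
    intro i
    induction i with
    | zero => simp
    | succ i ih =>
      have h1 := XF_step hq F t (k + i)
      rw [← hK] at h1
      rw [← add_assoc]
      refine le_trans ?_ h1
      have h2 := mul_le_mul_of_nonneg_left ih (by norm_num : (0 : ℝ) ≤ 32)
      rw [pow_succ (32 : ℝ) i, pow_succ (8 : ℝ) i, pow_add (8 : ℝ) k i]
      linarith
  have h3 : ∀ ε > 0, XF F t k - K / 24 * 8 ^ k ≤ (s + ε) * 32 ^ k := by
    intro ε hε
    obtain ⟨k₀, hk₀⟩ := eventually_atTop.1 (h ε hε)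
    have h4 := hk₀ (k + k₀) (by omega)
    have h5 := it k₀
    have h6 : (0 : ℝ) < 32 ^ k₀ := by positivity
    have h7 : (0 : ℝ) < 8 ^ k₀ := by positivity
    have h8 : (0 : ℝ) ≤ K * 8 ^ k := by positivity
    rw [pow_add] at h4
    have h9 : 32 ^ k₀ * (XF F t k - K / 24 * 8 ^ k) ≤ 32 ^ k₀ * ((s + ε) * 32 ^ k) := by
      have : K * 8 ^ k * ((32 ^ k₀ - 8 ^ k₀) / 24) ≤ K * 8 ^ k * (32 ^ k₀ / 24) := by
        apply mul_le_mul_of_nonneg_left _ h8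
        linarith
      linarith
    exact le_of_mul_le_mul_left h9 h6
  have h4 : XF F t k - K / 24 * 8 ^ k ≤ s * 32 ^ k := by
    apply le_of_forall_pos_le_add
    intro ε hε
    have p : (0 : ℝ) < 32 ^ k := by positivity
    have := h3 (ε / 32 ^ k) (by positivity)
    rw [add_mul] at this
    have e : ε / 32 ^ k * 32 ^ k = ε := by field_simp
    rw [e] at this
    exact this
  have e : K / 24 = 400000 * t * (q : ℝ) ^ 2 * F.C := by rw [hK]; ring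
  rw [e] at h4
  linarith

end Pool.Agent.YTD


end

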