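import Pool.Agent.YTDM.P07
import Pool.Agent.YTDM.P08

/- source: Pool.Agent.YTD.Rigid3 -/

section

/-!
Equality analysis: the deficits are of lower order when the Futaki invariant vanishes.
-/

namespace Pool.Agent.YTD

open Finset Module Filter

variable {K : Type} [Field K] [Algebra ℂ K]
variable {T : Datum K} {q : ℕ} {D₀ : T.X.Pt →₀ ℤ}

namespace Graded

variable {G : Graded T q D₀}
variable (hD : T.X.deg D₀ = 105 * T.t * q)

include hD in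
/-- upper bound for the total dimension, keeping all the terms. -/
theorem tot_le' (P₀ : T.X.Pt) (hq : 0 < q) {N : ℕ} (hN : 4 ≤ N) :
    G.tot N ≤ XX q N (G.ub N) + T.t * Lam q N (G.nb N) -
      50 * (q * N) * SS q N (G.yb N) +
      (18 * T.t + 1) * G.Z N + 11 * q * (G.Λ * (105 * T.t * q)) * N ^ 3 := by
  have h4 := tot_le (G := G) hD P₀ hq hN
  have h5 : XX q N (G.ub N) =
      ∑ j ∈ Icc (-((5 * q * N : ℕ) : ℤ)) ((5 * q * N : ℕ) : ℤ), Wt q N j * G.ub N j :=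
    sum_range_eq_Icc (5 * q * N) (fun j => Wt q N j * G.ub N j)
  have h6 : ∑ j ∈ Icc (-((5 * q * N : ℕ) : ℤ)) ((5 * q * N : ℕ) : ℤ),
      (mult q N j * (G.ub N j - 9 * T.t * G.nb N j) - Wt q N j * G.ub N j) ≤
      ∑ j ∈ Icc (-((5 * q * N : ℕ) : ℤ)) ((5 * q * N : ℕ) : ℤ),
      (T.t * ((81 * (j : ℝ) ^ 2 - 375 * ((q : ℝ) * N) ^ 2 -
      5000 * ((q : ℝ) * N) * max 0 (|(j : ℝ)| - 4 * (q * N))) * G.nb N j) -
      50 * (q * N) * G.yb N j + G.Λ * N * (105 * T.t * q * N) +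
      ((if j = ((5 * q * N : ℕ) : ℤ) then 1000 * T.t * ((q : ℝ) * N) ^ 3 * G.nb N j else 0) +
       (if j = -((5 * q * N : ℕ) : ℤ) then 1000 * T.t * ((q : ℝ) * N) ^ 3 * G.nb N j else 0))) :=
    sum_le_sum fun j hj => pointwise hD hq hN (mem_Icc_iff.1 hj)
  have hmem1 : ((5 * q * N : ℕ) : ℤ) ∈ Icc (-((5 * q * N : ℕ) : ℤ)) ((5 * q * N : ℕ) : ℤ) := by
    rw [mem_Icc]
    constructor
    · have : (0 : ℤ) ≤ ((5 * q * N : ℕ) : ℤ) := by positivity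
      linarith
    · exact le_rfl
  have hmem2 : -((5 * q * N : ℕ) : ℤ) ∈ Icc (-((5 * q * N : ℕ) : ℤ)) ((5 * q * N : ℕ) : ℤ) := by
    rw [mem_Icc]
    constructor
    · exact le_rfl
    · have : (0 : ℤ) ≤ ((5 * q * N : ℕ) : ℤ) := by positivity
      linarith
  rw [sum_add_distrib, sum_add_distrib, sum_add_distrib, sum_sub_distrib, sum_ite_eq' , sum_ite_eq',
    if_pos hmem1, if_pos hmem2, sum_sub_distrib, ← mul_sum, ← mul_sum, sum_const,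
    Int.card_Icc, nsmul_eq_mul] at h6
  have h7 : (((((5 * q * N : ℕ) : ℤ) + 1 - -((5 * q * N : ℕ) : ℤ)).toNat : ℕ) : ℝ) =
      10 * (q * N) + 1 := by
    have : (((5 * q * N : ℕ) : ℤ) + 1 - -((5 * q * N : ℕ) : ℤ)).toNat = 10 * (q * N) + 1 := by
      have e : ((5 * q * N : ℕ) : ℤ) = 5 * ((q * N : ℕ) : ℤ) := by push_cast; ring
      rw [e]
      omega
    rw [this]
    push_cast
    ring
  rw [h7] at h6
  have hQ1 : (1 : ℝ) ≤ q * N := by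
    have h1 : 1 ≤ q * N := Nat.mul_pos hq (by omega)
    exact_mod_cast h1
  have h8 : (10 * ((q : ℝ) * N) + 1) * (G.Λ * N * (105 * T.t * q * N)) ≤
      11 * q * (G.Λ * (105 * T.t * q)) * N ^ 3 := by
    have h9 : (0 : ℝ) ≤ G.Λ * N * (105 * T.t * q * N) := by positivity
    have h10 : (10 * ((q : ℝ) * N) + 1) ≤ 11 * (q * N) := by linarith
    calc (10 * ((q : ℝ) * N) + 1) * (G.Λ * N * (105 * T.t * q * N)) ≤
        (11 * (q * N)) * (G.Λ * N * (105 * T.t * q * N)) := mul_le_mul_of_nonneg_right h10 h9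
      _ = _ := by ring
  unfold Lam
  rw [h5, SS_eq_Icc]
  have h11 : (T.t : ℝ) * (∑ j ∈ Icc (-((5 * q * N : ℕ) : ℤ)) ((5 * q * N : ℕ) : ℤ),
    (81 * (j : ℝ) ^ 2 - 375 * ((q : ℝ) * N) ^ 2 -
      5000 * ((q : ℝ) * N) * max 0 (|(j : ℝ)| - 4 * (q * N))) * G.nb N j +
    1000 * ((q : ℝ) * N) ^ 3 * (G.nb N ((5 * q * N : ℕ) : ℤ) + G.nb N (-((5 * q * N : ℕ) : ℤ)))) =
    T.t * (∑ j ∈ Icc (-((5 * q * N : ℕ) : ℤ)) ((5 * q * N : ℕ) : ℤ),
    (81 * (j : ℝ) ^ 2 - 375 * ((q : ℝ) * N) ^ 2 -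
      5000 * ((q : ℝ) * N) * max 0 (|(j : ℝ)| - 4 * (q * N))) * G.nb N j) +
    (1000 * T.t * ((q : ℝ) * N) ^ 3 * G.nb N ((5 * q * N : ℕ) : ℤ) +
      1000 * T.t * ((q : ℝ) * N) ^ 3 * G.nb N (-((5 * q * N : ℕ) : ℤ))) := by ring
  rw [h11]
  linarith

theorem XX_ub (N : ℕ) : XX q N (G.ub N) =
    XX q N (fun j => (dg T.t q N j : ℝ) * G.nb N j) - XX q N (G.yb N) := by
  rw [← XX_sub]
  congr 1
  funext j
  unfold yb
  ring

include hD in
theorem XX_yb_nonneg (hq : 0 < q) {N : ℕ} (hN : 4 ≤ N) : 0 ≤ XX q N (G.yb N) := by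
  rw [XX_eq_SS]
  exact SS_nonneg fun j hj => mul_nonneg (Wt_nonneg hj) (yb_nonneg hD hq hN hj)

/-- auxiliary: powers -/
theorem pow_facts (k : ℕ) : ((2 ^ (k + 2) : ℕ) : ℝ) ^ 3 = 64 * 8 ^ k ∧
    ((2 ^ (k + 2) : ℕ) : ℝ) ^ 4 = 256 * 16 ^ k ∧ ((2 ^ (k + 2) : ℕ) : ℝ) ^ 5 = 1024 * 32 ^ k := by
  push_cast
  refine ⟨?_, ?_, ?_⟩
  · rw [show (8 : ℝ) ^ k = (2 ^ k) ^ 3 by rw [← pow_mul, mul_comm, pow_mul]; norm_num, pow_add]
    ring
  · rw [show (16 : ℝ) ^ k = (2 ^ k) ^ 4 by rw [← pow_mul, mul_comm, pow_mul]; norm_num, pow_add]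
    ring
  · rw [show (32 : ℝ) ^ k = (2 ^ k) ^ 5 by rw [← pow_mul, mul_comm, pow_mul]; norm_num, pow_add]
    ring

theorem pow2_tendsto : Tendsto (fun k : ℕ => 2 ^ (k + 2)) atTop atTop :=
  (tendsto_pow_atTop_atTop_of_one_lt (by norm_num : 1 < 2)).comp (tendsto_add_atTop_nat 2)

theorem half_tendsto (c : ℝ) : Tendsto (fun k : ℕ => c * (1 / 2 : ℝ) ^ k) atTop (nhds 0) := by
  have := (tendsto_pow_atTop_nhds_zero_of_lt_one (r := (1 / 2 : ℝ)) (by norm_num)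
    (by norm_num)).const_mul c
  rwa [mul_zero] at this

theorem quarter_tendsto (c : ℝ) : Tendsto (fun k : ℕ => c * (1 / 4 : ℝ) ^ k) atTop (nhds 0) := by
  have := (tendsto_pow_atTop_nhds_zero_of_lt_one (r := (1 / 4 : ℝ)) (by norm_num)
    (by norm_num)).const_mul c
  rwa [mul_zero] at this

include hD in
/-- the basic inequality in the case of vanishing Futaki invariant, keeping all deficits. -/
theorem basic_ineq (P₀ : T.X.Pt) (hq : 0 < q) {s₀ : ℝ} (hS : G.Crit s₀ 0) :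
    ∃ err : ℕ → ℝ, Tendsto err atTop (nhds 0) ∧ ∀ᶠ k : ℕ in atTop,
      s₀ * (1024 * 32 ^ k) + XX q (2 ^ (k + 2)) (G.yb (2 ^ (k + 2))) +
        50 * (q * ((2 ^ (k + 2) : ℕ) : ℝ)) * SS q (2 ^ (k + 2)) (G.yb (2 ^ (k + 2))) ≤
      XF (G.fam hD hq) T.t k + T.t * Lam q (2 ^ (k + 2)) (G.nb (2 ^ (k + 2))) + err k * 16 ^ k := by
  obtain ⟨-, C, hC⟩ := hS
  have hZ := Z_tendsto (G := G) hD P₀ hq
  set C' : ℝ := 11 * q * (G.Λ * (105 * T.t * q)) with hC'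
  refine ⟨fun k => 256 * (18 * T.t + 1) * (G.Z (2 ^ (k + 2)) / 16 ^ (k + 2)) +
    64 * (C + C') * (1 / 2) ^ k, ?_, ?_⟩
  · have t3 : Tendsto (fun k : ℕ => 256 * (18 * (T.t : ℝ) + 1) *
      (G.Z (2 ^ (k + 2)) / 16 ^ (k + 2))) atTop (nhds (256 * (18 * (T.t : ℝ) + 1) * 0)) :=
      ((tendsto_add_atTop_iff_nat 2).2 hZ).const_mul _
    have := t3.add (half_tendsto (64 * (C + C')))
    simpa using this
  · filter_upwards [pow2_tendsto.eventually hC] with k hk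
    have h1 := tot_le' (G := G) hD P₀ hq (four_le k)
    rw [XX_ub] at h1
    obtain ⟨p3, p4, p5⟩ := pow_facts k
    have h2 := hk
    rw [p3, p5] at h2
    rw [← hC', p3] at h1
    have e : XX q (2 ^ (k + 2)) (fun j => (dg T.t q (2 ^ (k + 2)) j : ℝ) * G.nb (2 ^ (k + 2)) j) =
      XF (G.fam hD hq) T.t k := rfl
    rw [e] at h1
    have e8 : (8 : ℝ) ^ k = (1 / 2) ^ k * 16 ^ k := by rw [← mul_pow]; norm_num
    have e16 : (16 : ℝ) ^ (k + 2) = 256 * 16 ^ k := by rw [pow_add]; ring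
    have p16 : (0 : ℝ) < 16 ^ k := by positivity
    have e5 : (G.Z (2 ^ (k + 2)) / 16 ^ (k + 2)) * (256 * 16 ^ k) = G.Z (2 ^ (k + 2)) := by
      rw [e16]
      field_simp
    rw [e8] at h1 h2
    have e6 : (256 * (18 * T.t + 1) * (G.Z (2 ^ (k + 2)) / 16 ^ (k + 2)) +
      64 * (C + C') * (1 / 2) ^ k) * 16 ^ k =
      (18 * T.t + 1) * ((G.Z (2 ^ (k + 2)) / 16 ^ (k + 2)) * (256 * 16 ^ k)) +
      (C + C') * (64 * ((1 / 2) ^ k * 16 ^ k)) := by ring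
    rw [e6, e5]
    nlinarith

include hD in
/-- the family of the averages has total weight `s₀ N⁵ + o(N⁴)`, from below. -/
theorem deficit (P₀ : T.X.Pt) (hq : 0 < q) {s₀ : ℝ} (hS : G.Crit s₀ 0) :
    ∃ err : ℕ → ℝ, Tendsto err atTop (nhds 0) ∧ ∀ᶠ k : ℕ in atTop,
      s₀ * (1024 * 32 ^ k) + XX q (2 ^ (k + 2)) (G.yb (2 ^ (k + 2))) ≤
      XF (G.fam hD hq) T.t k + err k * 16 ^ k := by
  obtain ⟨err, h1, h2⟩ := basic_ineq hD P₀ hq hS
  refine ⟨fun k => err k + T.t / 12 * (320000 * q * G.Λ * (1 / 4) ^ k +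
    1032000 * (q : ℝ) ^ 2 * (G.fam hD hq).def_ k), ?_, ?_⟩
  · have t2 : Tendsto (fun k : ℕ => 1032000 * (q : ℝ) ^ 2 * (G.fam hD hq).def_ k) atTop
      (nhds (1032000 * (q : ℝ) ^ 2 * 0)) := (G.fam hD hq).def_tendsto.const_mul _
    have := h1.add (((quarter_tendsto (320000 * (q : ℝ) * G.Λ)).add t2).const_mul ((T.t : ℝ) / 12))
    simpa using this
  · filter_upwards [h2] with k hk
    have h3 := (G.fam hD hq).lam_le hq k
    rw [fam_ν, fam_C] at h3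
    have h4 := (G.fam hD hq).gap_nonneg k
    have h5 : 0 ≤ SS q (2 ^ (k + 2)) (G.yb (2 ^ (k + 2))) :=
      SS_nonneg fun j hj => yb_nonneg hD hq (four_le k) hj
    have h6 : (0 : ℝ) ≤ 50 * (q * ((2 ^ (k + 2) : ℕ) : ℝ)) *
      SS q (2 ^ (k + 2)) (G.yb (2 ^ (k + 2))) := by positivity
    have e4 : (4 : ℝ) ^ k = (1 / 4) ^ k * 16 ^ k := by rw [← mul_pow]; norm_num
    rw [e4] at h3
    have ht : (0 : ℝ) ≤ T.t / 12 := by positivity
    have h7 := mul_le_mul_of_nonneg_left h3 ht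
    have h8 := mul_nonneg ht h4
    have e7 : (err k + T.t / 12 * (320000 * q * G.Λ * (1 / 4) ^ k +
      1032000 * (q : ℝ) ^ 2 * (G.fam hD hq).def_ k)) * 16 ^ k = err k * 16 ^ k +
      T.t / 12 * (320000 * q * G.Λ * ((1 / 4) ^ k * 16 ^ k) +
      1032000 * (q : ℝ) ^ 2 * (G.fam hD hq).def_ k * 16 ^ k) := by ring
    rw [e7]
    nlinarith

include hD in
/-- upper bound: the vertical part does not contribute to the limit. -/
theorem XF_fam_upper (P₀ : T.X.Pt) (hq : 0 < q) {s₀ : ℝ} (hS : G.Crit s₀ 0) :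
    ∀ ε > 0, ∀ᶠ k : ℕ in atTop, XF (G.fam hD hq) T.t k ≤ (1024 * s₀ + ε) * 32 ^ k := by
  intro ε hε
  obtain ⟨err, h1, h2⟩ := main_ineq_crit (G := G) hD P₀ hq hS
  -- error terms
  obtain ⟨⟨C₀, hC₀⟩, -⟩ := hS
  have t1 : Tendsto (fun k : ℕ => 64 * C₀ * (1 / 4 : ℝ) ^ k +
      10000 * (q : ℝ) ^ 2 * err k) atTop (nhds 0) := by
    have := (quarter_tendsto (64 * C₀)).add
      (h1.const_mul (10000 * (q : ℝ) ^ 2))
    simpa using this
  filter_upwards [h2, t1.eventually (gt_mem_nhds hε)] with k hk hk'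
  have h3 := hC₀ _ (four_le k)
  have h5 : ∑ j ∈ Icc (-((5 * q * 2 ^ (k + 2) : ℕ) : ℤ)) ((5 * q * 2 ^ (k + 2) : ℕ) : ℤ),
      Wt q (2 ^ (k + 2)) j * G.ub (2 ^ (k + 2)) j = XX q (2 ^ (k + 2)) (G.ub (2 ^ (k + 2))) :=
    (sum_range_eq_Icc (5 * q * 2 ^ (k + 2)) (fun j => Wt q (2 ^ (k + 2)) j *
      G.ub (2 ^ (k + 2)) j)).symm
  rw [h5, XX_ub] at h3
  have e : XX q (2 ^ (k + 2)) (fun j => (dg T.t q (2 ^ (k + 2)) j : ℝ) * G.nb (2 ^ (k + 2)) j) =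
      XF (G.fam hD hq) T.t k := rfl
  rw [e] at h3
  obtain ⟨p3, p4, p5⟩ := pow_facts k
  rw [p5, p3] at h3
  -- the vertical part
  have h6 : XX q (2 ^ (k + 2)) (G.yb (2 ^ (k + 2))) ≤
      625 * ((q : ℝ) * ((2 ^ (k + 2) : ℕ) : ℝ)) ^ 2 * SS q (2 ^ (k + 2)) (G.yb (2 ^ (k + 2))) := by
    rw [XX_eq_SS, ← SS_mul]
    apply SS_mono
    intro j hj
    exact mul_le_mul_of_nonneg_right Wt_le (yb_nonneg hD hq (four_le k) hj)
  have h7 : G.ysum k = SS q (2 ^ (k + 2)) (G.yb (2 ^ (k + 2))) := by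
    rw [SS_eq_Icc]
    rfl
  have h8 := (G.fam hD hq).gap_nonneg k
  have ht : (0 : ℝ) ≤ T.t * (G.fam hD hq).gap k := by positivity
  have hk2 : 2400 * q * 2 ^ k * G.ysum k ≤ err k * 16 ^ k := by linarith
  rw [← h7] at h6
  have hys := G.ysum_nonneg hD hq k
  have e1 : ((2 ^ (k + 2) : ℕ) : ℝ) = 4 * 2 ^ k := by push_cast; rw [pow_add]; ring
  rw [e1] at h6
  have p2 : (0 : ℝ) < 2 ^ k := by positivity
  have hq1 : (1 : ℝ) ≤ q := by exact_mod_cast hq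
  have h9 : 625 * ((q : ℝ) * (4 * 2 ^ k)) ^ 2 * G.ysum k ≤ 10000 * (q : ℝ) ^ 2 * err k * 32 ^ k := by
    have h10 : G.ysum k * 2 ^ k ≤ err k * 16 ^ k := by
      have : 0 ≤ G.ysum k * 2 ^ k := by positivity
      nlinarith
    have e32 : (32 : ℝ) ^ k = 2 ^ k * 16 ^ k := by rw [← mul_pow]; norm_num
    have h11 : 10000 * (q : ℝ) ^ 2 * 2 ^ k * (G.ysum k * 2 ^ k) ≤
        10000 * (q : ℝ) ^ 2 * 2 ^ k * (err k * 16 ^ k) :=
      mul_le_mul_of_nonneg_left h10 (by positivity)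
    rw [e32]
    nlinarith
  have e32 : (8 : ℝ) ^ k = (1 / 4) ^ k * 32 ^ k := by rw [← mul_pow]; norm_num
  rw [e32] at h3
  have p32 : (0 : ℝ) < 32 ^ k := by positivity
  have h12 : (64 * C₀ * (1 / 4 : ℝ) ^ k +
      10000 * (q : ℝ) ^ 2 * err k) * 32 ^ k ≤ ε * 32 ^ k :=
    mul_le_mul_of_nonneg_right hk'.le p32.le
  nlinarith

end Graded

end Pool.Agent.YTD


end

/- source: Pool.Agent.YTD.Fam3 -/

section

/-!
Superadditive families on the dilates of the polytope, and their concave envelopes.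
-/

namespace Pool.Agent.YTD

open Finset Filter

/-- the lattice points of the polytope at level `k`. -/
def P3 (Q k : ℕ) (j a b : ℤ) : Prop :=
  |j| ≤ 5 * Q * 2 ^ k ∧ 0 ≤ a ∧ a ≤ 25 * Q * 2 ^ k + 3 * j ∧ 0 ≤ b ∧ b ≤ 25 * Q * 2 ^ k - 3 * j

theorem P3.add {Q k : ℕ} {j a b j' a' b' : ℤ} (h : P3 Q k j a b) (h' : P3 Q k j' a' b') :
    P3 Q (k + 1) (j + j') (a + a') (b + b') := by
  obtain ⟨h1, h2, h3, h4, h5⟩ := h
  obtain ⟨h1', h2', h3', h4', h5'⟩ := h'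
  have e1 : 5 * (Q : ℤ) * 2 ^ (k + 1) = 5 * Q * 2 ^ k + 5 * Q * 2 ^ k := by rw [pow_succ]; ring
  have e2 : 25 * (Q : ℤ) * 2 ^ (k + 1) = 25 * Q * 2 ^ k + 25 * Q * 2 ^ k := by rw [pow_succ]; ring
  refine ⟨?_, by linarith, by rw [e2]; linarith, by linarith, by rw [e2]; linarith⟩
  rw [e1]
  exact (abs_add_le _ _).trans (add_le_add h1 h1')

theorem P3.pow {Q k : ℕ} {j a b : ℤ} (h : P3 Q k j a b) (i : ℕ) :
    P3 Q (k + i) (2 ^ i * j) (2 ^ i * a) (2 ^ i * b) := by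
  induction i with
  | zero => simpa using h
  | succ i ih =>
    have := ih.add ih
    have e : ∀ x : ℤ, 2 ^ i * x + 2 ^ i * x = 2 ^ (i + 1) * x := fun x => by rw [pow_succ]; ring
    rw [e, e, e] at this
    exact this

structure Fam3 (Q : ℕ) where
  ν : ℕ → ℤ → ℤ → ℤ → ℝ
  C : ℝ
  nonneg : ∀ k j a b, P3 Q k j a b → 0 ≤ ν k j a b
  le : ∀ k j a b, P3 Q k j a b → ν k j a b ≤ C * 2 ^ k
  add : ∀ k j a b j' a' b', P3 Q k j a b → P3 Q k j' a' b' →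
    ν k j a b + ν k j' a' b' ≤ ν (k + 1) (j + j') (a + a') (b + b')

namespace Fam3

variable {Q : ℕ} (F : Fam3 Q)

/-- approximations of the envelope. -/
noncomputable def ap (k : ℕ) (j a b : ℤ) (i : ℕ) : ℝ :=
  F.ν (k + i) (2 ^ i * j) (2 ^ i * a) (2 ^ i * b) / 2 ^ i

theorem ap_step {k : ℕ} {j a b : ℤ} (h : P3 Q k j a b) (i : ℕ) :
    F.ap k j a b i ≤ F.ap k j a b (i + 1) := by
  unfold ap
  rw [div_le_div_iff₀ (by positivity) (by positivity)]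
  have := F.add (k + i) _ _ _ _ _ _ (h.pow i) (h.pow i)
  have e : ∀ x : ℤ, 2 ^ i * x + 2 ^ i * x = 2 ^ (i + 1) * x := fun x => by rw [pow_succ]; ring
  rw [e, e, e] at this
  have h2 : (0 : ℝ) < 2 ^ i := by positivity
  rw [pow_succ (2 : ℝ) i]
  have e' : F.ν (k + (i + 1)) (2 ^ (i + 1) * j) (2 ^ (i + 1) * a) (2 ^ (i + 1) * b) =
      F.ν (k + i + 1) (2 ^ (i + 1) * j) (2 ^ (i + 1) * a) (2 ^ (i + 1) * b) := rfl
  rw [e']
  nlinarith

theorem ap_mono {k : ℕ} {j a b : ℤ} (h : P3 Q k j a b) : Monotone (F.ap k j a b) :=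
  monotone_nat_of_le_succ fun i => F.ap_step h i

theorem ap_le {k : ℕ} {j a b : ℤ} (h : P3 Q k j a b) (i : ℕ) :
    F.ap k j a b i ≤ F.C * 2 ^ k := by
  unfold ap
  rw [div_le_iff₀ (by positivity)]
  have := F.le (k + i) _ _ _ (h.pow i)
  rw [pow_add] at this
  linarith

theorem ap_nonneg {k : ℕ} {j a b : ℤ} (h : P3 Q k j a b) (i : ℕ) : 0 ≤ F.ap k j a b i :=
  div_nonneg (F.nonneg _ _ _ _ (h.pow i)) (by positivity)

theorem ap_bdd {k : ℕ} {j a b : ℤ} (h : P3 Q k j a b) :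
    BddAbove (Set.range (F.ap k j a b)) :=
  ⟨F.C * 2 ^ k, by rintro _ ⟨i, rfl⟩; exact F.ap_le h i⟩

/-- the envelope. -/
noncomputable def m (k : ℕ) (j a b : ℤ) : ℝ := ⨆ i, F.ap k j a b i

theorem tendsto_m {k : ℕ} {j a b : ℤ} (h : P3 Q k j a b) :
    Tendsto (F.ap k j a b) atTop (nhds (F.m k j a b)) :=
  tendsto_atTop_ciSup (F.ap_mono h) (F.ap_bdd h)

theorem ap_le_m {k : ℕ} {j a b : ℤ} (h : P3 Q k j a b) (i : ℕ) :
    F.ap k j a b i ≤ F.m k j a b := le_ciSup (F.ap_bdd h) i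

theorem ν_le_m {k : ℕ} {j a b : ℤ} (h : P3 Q k j a b) : F.ν k j a b ≤ F.m k j a b := by
  have := F.ap_le_m h 0
  unfold ap at this
  simpa using this

theorem m_le {k : ℕ} {j a b : ℤ} (h : P3 Q k j a b) : F.m k j a b ≤ F.C * 2 ^ k :=
  ciSup_le fun i => F.ap_le h i

theorem m_nonneg {k : ℕ} {j a b : ℤ} (h : P3 Q k j a b) : 0 ≤ F.m k j a b :=
  (F.nonneg k j a b h).trans (F.ν_le_m h)

theorem m_add {k : ℕ} {j a b j' a' b' : ℤ} (h : P3 Q k j a b) (h' : P3 Q k j' a' b') :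
    F.m k j a b + F.m k j' a' b' ≤ F.m (k + 1) (j + j') (a + a') (b + b') := by
  refine le_of_tendsto_of_tendsto' ((F.tendsto_m h).add (F.tendsto_m h'))
    (F.tendsto_m (h.add h')) ?_
  intro i
  unfold ap
  rw [← add_div]
  apply div_le_div_of_nonneg_right _ (by positivity)
  have := F.add (k + i) _ _ _ _ _ _ (h.pow i) (h'.pow i)
  rw [← mul_add, ← mul_add, ← mul_add] at this
  rwa [show k + 1 + i = k + i + 1 by ring]

theorem m_double {k : ℕ} {j a b : ℤ} (h : P3 Q k j a b) :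
    F.m (k + 1) (2 * j) (2 * a) (2 * b) = 2 * F.m k j a b := by
  have h' : P3 Q (k + 1) (2 * j) (2 * a) (2 * b) := by
    have := h.pow 1
    rwa [pow_one] at this
  have l1 := F.tendsto_m h'
  have l2 := ((F.tendsto_m h).comp (tendsto_add_atTop_nat 1)).const_mul 2
  refine tendsto_nhds_unique l1 (l2.congr ?_)
  intro i
  simp only [Function.comp]
  unfold ap
  have e : ∀ x : ℤ, 2 ^ i * (2 * x) = 2 ^ (i + 1) * x := fun x => by rw [pow_succ]; ring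
  rw [e, e, e, show k + 1 + i = k + (i + 1) by ring, pow_succ (2 : ℝ) i]
  field_simp

theorem m_pow {k : ℕ} {j a b : ℤ} (h : P3 Q k j a b) (i : ℕ) :
    F.m (k + i) (2 ^ i * j) (2 ^ i * a) (2 ^ i * b) = 2 ^ i * F.m k j a b := by
  induction i with
  | zero => simp
  | succ i ih =>
    have := F.m_double (h.pow i)
    have e : ∀ x : ℤ, 2 * (2 ^ i * x) = 2 ^ (i + 1) * x := fun x => by rw [pow_succ]; ring
    rw [e, e, e, ih] at this
    rw [show k + (i + 1) = k + i + 1 by ring, this, pow_succ]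
    ring

/-- concavity of the envelope. -/
theorem m_concave {k : ℕ} {j a b j₁ a₁ b₁ j₂ a₂ b₂ : ℤ} (h₁ : P3 Q k j₁ a₁ b₁)
    (h₂ : P3 Q k j₂ a₂ b₂) (h : P3 Q k j a b) (hj : j₁ + j₂ = 2 * j) (ha : a₁ + a₂ = 2 * a)
    (hb : b₁ + b₂ = 2 * b) : F.m k j₁ a₁ b₁ + F.m k j₂ a₂ b₂ ≤ 2 * F.m k j a b := by
  have := F.m_add h₁ h₂
  rwa [hj, ha, hb, F.m_double h] at this

/-- the envelope as a family. -/
noncomputable def env : Fam3 Q where
  ν := F.m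
  C := F.C
  nonneg := fun _ _ _ _ h => F.m_nonneg h
  le := fun _ _ _ _ h => F.m_le h
  add := fun _ _ _ _ _ _ _ h h' => F.m_add h h'

end Fam3

/-- the finite set of lattice points. -/
noncomputable def Pset (Q k : ℕ) : Finset (ℤ × ℤ × ℤ) :=
  open Classical in
  ((Icc (-(5 * Q * 2 ^ k : ℤ)) (5 * Q * 2 ^ k)) ×ˢ (Icc (0 : ℤ) (40 * Q * 2 ^ k)) ×ˢ
    (Icc (0 : ℤ) (40 * Q * 2 ^ k))).filter (fun p => P3 Q k p.1 p.2.1 p.2.2)

theorem mem_Pset {Q k : ℕ} {p : ℤ × ℤ × ℤ} : p ∈ Pset Q k ↔ P3 Q k p.1 p.2.1 p.2.2 := by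
  classical
  unfold Pset
  simp only [mem_filter, mem_product, mem_Icc, and_iff_right_iff_imp]
  rintro ⟨h1, h2, h3, h4, h5⟩
  rw [abs_le] at h1
  refine ⟨h1, ⟨h2, ?_⟩, h4, ?_⟩
  · linarith [h1.2]
  · linarith [h1.1]

theorem tendsto_sub_of {A B : ℕ → ℝ} (hAB : ∀ k, A k ≤ B k) {M : ℝ} (hM : ∀ k, B k ≤ M)
    (h : ∀ δ > 0, ∃ k₀, ∀ k ≥ k₀, ∃ K₀, ∀ K ≥ K₀, B k - δ ≤ A K) :
    Tendsto (fun k => B k - A k) atTop (nhds 0) := by
  rw [Metric.tendsto_atTop]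
  intro ε hε
  obtain ⟨k₀, hk₀⟩ := h (ε / 4) (by positivity)
  have hbdd : BddAbove (Set.range fun k : ℕ => B (k₀ + k)) := ⟨M, by rintro _ ⟨k, rfl⟩; exact hM _⟩
  set S := ⨆ k : ℕ, B (k₀ + k) with hS
  obtain ⟨k₁, hk₁⟩ := exists_lt_of_lt_ciSup (show S - ε / 4 < ⨆ k : ℕ, B (k₀ + k) by linarith)
  obtain ⟨K₀, hK₀⟩ := hk₀ (k₀ + k₁) (by omega)
  refine ⟨max K₀ k₀, ?_⟩
  intro K hK
  have h1 := hK₀ K (le_trans (le_max_left _ _) hK)
  have h2 : B K ≤ S := by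
    have := le_ciSup hbdd (K - k₀)
    rwa [show k₀ + (K - k₀) = K by have := le_max_right K₀ k₀; omega] at this
  have h3 := hAB K
  rw [Real.dist_eq, sub_zero, abs_of_nonneg (by linarith)]
  linarith

namespace Fam3

variable {Q : ℕ} (F : Fam3 Q)

/-- the total of the family. -/
noncomputable def T (k : ℕ) : ℝ := ∑ p ∈ Pset Q k, F.ν k p.1 p.2.1 p.2.2

theorem chain {k : ℕ} {j a b u v w : ℤ} (h : P3 Q k j a b) (i s : ℕ)
    (hr : P3 Q (k + i) u v w) :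
    P3 Q (k + i + s) ((2 ^ s - 1) * 2 ^ i * j + u) ((2 ^ s - 1) * 2 ^ i * a + v)
      ((2 ^ s - 1) * 2 ^ i * b + w) ∧
    (2 ^ s - 1) * 2 ^ i * F.ap k j a b i ≤ F.ν (k + i + s) ((2 ^ s - 1) * 2 ^ i * j + u)
      ((2 ^ s - 1) * 2 ^ i * a + v) ((2 ^ s - 1) * 2 ^ i * b + w) := by
  induction s with
  | zero =>
    simp only [pow_zero, sub_self, zero_mul, zero_add, add_zero]
    exact ⟨hr, F.nonneg _ _ _ _ hr⟩
  | succ s ih =>
    obtain ⟨ih1, ih2⟩ := ih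
    have h1 := h.pow (i + s)
    rw [← add_assoc] at h1
    have e : ∀ x y : ℤ, 2 ^ (i + s) * x + ((2 ^ s - 1) * 2 ^ i * x + y) =
        (2 ^ (s + 1) - 1) * 2 ^ i * x + y := by
      intro x y
      rw [pow_add, pow_succ]
      ring
    have h2 := h1.add ih1
    have h3 := F.add _ _ _ _ _ _ _ h1 ih1
    rw [e, e, e] at h2 h3
    refine ⟨h2, le_trans ?_ h3⟩
    have h4 := F.ap_mono h (show i ≤ i + s by omega)
    have h5 : F.ν (k + i + s) (2 ^ (i + s) * j) (2 ^ (i + s) * a) (2 ^ (i + s) * b) =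
        2 ^ (i + s) * F.ap k j a b (i + s) := by
      unfold ap
      rw [← add_assoc]
      field_simp
    rw [h5]
    have h6 := mul_le_mul_of_nonneg_left h4 (show (0 : ℝ) ≤ 2 ^ (i + s) by positivity)
    have e2 : ((2 : ℝ) ^ (s + 1) - 1) * 2 ^ i * F.ap k j a b i =
        2 ^ (i + s) * F.ap k j a b i + (2 ^ s - 1) * 2 ^ i * F.ap k j a b i := by
      rw [pow_succ, pow_add]
      ring
    rw [e2]
    linarith

theorem sampling (hQ : 0 < Q) (k i : ℕ) :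
    (1 - (1 / 2) ^ k) ^ 4 * 16 ^ (k + i) * ∑ p ∈ Pset Q k, F.ap k p.1 p.2.1 p.2.2 i ≤
      F.T (k + i + k) := by
  classical
  rcases Nat.eq_zero_or_pos k with rfl | hk
  · simp only [pow_zero, sub_self, ne_eq, OfNat.ofNat_ne_zero, not_false_eq_true, zero_pow,
      zero_mul]
    unfold T
    exact sum_nonneg fun p hp => F.nonneg _ _ _ _ (mem_Pset.1 hp)
  set H : ℤ := (2 ^ k - 1) * 2 ^ i with hH
  have h2k : (2 : ℤ) ≤ 2 ^ k := by
    calc (2 : ℤ) = 2 ^ 1 := by norm_num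
      _ ≤ 2 ^ k := pow_le_pow_right₀ (by norm_num) hk
  have hHpos : 0 < H := by
    rw [hH]
    apply mul_pos (by linarith) (by positivity)
  set z : ℤ := 5 * Q * 2 ^ (k + i) with hz
  let R : Finset (ℤ × ℤ × ℤ) := (Ico (0 : ℤ) H) ×ˢ (Ico (0 : ℤ) H) ×ˢ (Ico (0 : ℤ) H)
  let φ : (ℤ × ℤ × ℤ) × (ℤ × ℤ × ℤ) → ℤ × ℤ × ℤ := fun x =>
    (H * x.1.1 + x.2.1, H * x.1.2.1 + (z + x.2.2.1), H * x.1.2.2 + (z + x.2.2.2))
  -- the remainders are in range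
  have hrem : ∀ r ∈ R, P3 Q (k + i) r.1 (z + r.2.1) (z + r.2.2) := by
    intro r hr
    simp only [R, mem_product, mem_Ico] at hr
    obtain ⟨⟨a1, a2⟩, ⟨b1, b2⟩, c1, c2⟩ := hr
    have hz0 : 0 ≤ z := by positivity
    have hHz : H ≤ z := by
      rw [hH, hz, pow_add]
      have hQ' : (1 : ℤ) ≤ Q := by exact_mod_cast hQ
      have h3 : (0 : ℤ) ≤ 2 ^ k * 2 ^ i := by positivity
      have h4 : (0 : ℤ) ≤ 2 ^ i := by positivity
      nlinarith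
    have e25 : 25 * (Q : ℤ) * 2 ^ (k + i) = 5 * z := by rw [hz]; ring
    refine ⟨?_, by linarith, ?_, by linarith, ?_⟩
    · rw [abs_of_nonneg a1, ← hz]
      linarith
    · rw [e25]; linarith
    · rw [e25]; linarith
  have hin : ∀ x ∈ Pset Q k ×ˢ R, P3 Q (k + i + k) (φ x).1 (φ x).2.1 (φ x).2.2 ∧
      (H : ℝ) * F.ap k x.1.1 x.1.2.1 x.1.2.2 i ≤
        F.ν (k + i + k) (φ x).1 (φ x).2.1 (φ x).2.2 := by
    intro x hx
    rw [mem_product] at hx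
    have h1 := F.chain (mem_Pset.1 hx.1) i k (hrem _ hx.2)
    rw [← hH] at h1
    have e : ((H : ℤ) : ℝ) = (2 ^ k - 1) * 2 ^ i := by rw [hH]; push_cast; ring
    rw [e]
    exact h1
  have hinj : Set.InjOn φ (Pset Q k ×ˢ R : Finset _) := by
    rintro ⟨⟨j, a, b⟩, ⟨u, v, w⟩⟩ hx ⟨⟨j', a', b'⟩, ⟨u', v', w'⟩⟩ hx' he
    simp only [coe_product, Set.mem_prod, mem_coe, R, mem_Ico] at hx hx'
    obtain ⟨_, ⟨a1, a2⟩, ⟨b1, b2⟩, c1, c2⟩ := hx
    obtain ⟨_, ⟨a1', a2'⟩, ⟨b1', b2'⟩, c1', c2'⟩ := hx'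
    simp only [φ, Prod.mk.injEq] at he
    obtain ⟨e1, e2, e3⟩ := he
    have key : ∀ x y x' y' : ℤ, 0 ≤ y → y < H → 0 ≤ y' → y' < H → H * x + y = H * x' + y' →
        x = x' ∧ y = y' := by
      intro x y x' y' g1 g2 g3 g4 g5
      have h1 : x = x' := by
        by_contra hne
        rcases lt_or_gt_of_ne hne with hlt | hlt
        · have : H * x + H ≤ H * x' := by nlinarith
          linarith
        · have : H * x' + H ≤ H * x := by nlinarith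
          linarith
      subst h1
      exact ⟨rfl, by linarith⟩
    obtain ⟨r1, r2⟩ := key j u j' u' a1 a2 a1' a2' e1
    obtain ⟨r3, r4⟩ := key a v a' v' b1 b2 b1' b2' (by linarith)
    obtain ⟨r5, r6⟩ := key b w b' w' c1 c2 c1' c2' (by linarith)
    subst r1 r2 r3 r4 r5 r6
    rfl
  have hsub : (Pset Q k ×ˢ R).image φ ⊆ Pset Q (k + i + k) := by
    intro p hp
    obtain ⟨x, hx, rfl⟩ := mem_image.1 hp
    exact mem_Pset.2 (hin x hx).1
  have h1 : ∑ x ∈ Pset Q k ×ˢ R, (H : ℝ) * F.ap k x.1.1 x.1.2.1 x.1.2.2 i ≤ F.T (k + i + k) := by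
    unfold T
    refine le_trans ?_ (sum_le_sum_of_subset_of_nonneg hsub
      (fun p hp _ => F.nonneg _ _ _ _ (mem_Pset.1 hp)))
    rw [sum_image hinj]
    exact sum_le_sum fun x hx => (hin x hx).2
  refine le_trans (le_of_eq ?_) h1
  rw [sum_product]
  simp only [sum_const, nsmul_eq_mul]
  rw [mul_sum]
  apply sum_congr rfl
  intro p _
  have hcard : ((#R : ℕ) : ℝ) = (H : ℝ) ^ 3 := by
    simp only [R, card_product, Int.card_Ico, sub_zero]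
    push_cast
    have : ((H.toNat : ℕ) : ℝ) = (H : ℝ) := by
      have : ((H.toNat : ℕ) : ℤ) = H := Int.toNat_of_nonneg hHpos.le
      exact_mod_cast this
    rw [this]
    ring
  rw [hcard]
  have e : ((H : ℤ) : ℝ) = (1 - (1 / 2) ^ k) * 2 ^ (k + i) := by
    rw [hH]
    push_cast
    rw [pow_add, one_div, inv_pow]
    have : (0 : ℝ) < 2 ^ k := by positivity
    field_simp
  have e16 : (16 : ℝ) ^ (k + i) = (2 ^ (k + i)) ^ 4 := by
    rw [← pow_mul, mul_comm (k + i) 4, pow_mul]; norm_num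
  rw [e, e16]
  ring

theorem C_nonneg : 0 ≤ F.C := by
  have h : P3 Q 0 0 0 0 := by
    refine ⟨?_, le_rfl, ?_, le_rfl, ?_⟩
    · rw [abs_zero]; positivity
    · simp
    · simp
  have h1 := F.nonneg 0 0 0 0 h
  have h2 := F.le 0 0 0 0 h
  simp at h2
  linarith

theorem card_Pset_le (hQ : 0 < Q) (k : ℕ) : ((#(Pset Q k) : ℕ) : ℝ) ≤ 20000 * (Q : ℝ) ^ 3 * 8 ^ k := by
  classical
  have h1 : #(Pset Q k) ≤ (10 * Q * 2 ^ k + 1) * ((40 * Q * 2 ^ k + 1) * (40 * Q * 2 ^ k + 1)) := by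
    unfold Pset
    refine (card_filter_le _ _).trans ?_
    rw [card_product, card_product, Int.card_Icc, Int.card_Icc]
    have e1 : (5 * (Q : ℤ) * 2 ^ k + 1 - -(5 * Q * 2 ^ k)).toNat = 10 * Q * 2 ^ k + 1 := by
      have : (5 * (Q : ℤ) * 2 ^ k + 1 - -(5 * Q * 2 ^ k)) = ((10 * Q * 2 ^ k + 1 : ℕ) : ℤ) := by
        push_cast; ring
      rw [this, Int.toNat_natCast]
    have e2 : (40 * (Q : ℤ) * 2 ^ k + 1 - 0).toNat = 40 * Q * 2 ^ k + 1 := by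
      have : (40 * (Q : ℤ) * 2 ^ k + 1 - 0) = ((40 * Q * 2 ^ k + 1 : ℕ) : ℤ) := by
        push_cast; ring
      rw [this, Int.toNat_natCast]
    rw [e1, e2]
  have h2 : ((#(Pset Q k) : ℕ) : ℝ) ≤
      (10 * Q * 2 ^ k + 1) * ((40 * Q * 2 ^ k + 1) * (40 * Q * 2 ^ k + 1)) := by exact_mod_cast h1
  have h3 : (1 : ℝ) ≤ Q * 2 ^ k := by
    have : 1 ≤ Q * 2 ^ k := Nat.mul_pos hQ (by positivity)
    exact_mod_cast this
  have e8 : (8 : ℝ) ^ k = (2 ^ k) ^ 3 := by rw [← pow_mul, mul_comm, pow_mul]; norm_num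
  rw [e8]
  refine h2.trans ?_
  have e : (20000 : ℝ) * Q ^ 3 * (2 ^ k) ^ 3 = 20000 * (Q * 2 ^ k) ^ 3 := by ring
  have e' : (10 * (Q : ℝ) * 2 ^ k + 1) * ((40 * Q * 2 ^ k + 1) * (40 * Q * 2 ^ k + 1)) =
      (10 * (Q * 2 ^ k) + 1) * ((40 * (Q * 2 ^ k) + 1) * (40 * (Q * 2 ^ k) + 1)) := by ring
  rw [e, e']
  set x : ℝ := Q * 2 ^ k with hx
  have a1 : (10 * x + 1) ≤ 11 * x := by linarith
  have a2 : (40 * x + 1) ≤ 41 * x := by linarith
  calc (10 * x + 1) * ((40 * x + 1) * (40 * x + 1)) ≤ (11 * x) * ((41 * x) * (41 * x)) := by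
        apply mul_le_mul a1 (mul_le_mul a2 a2 (by positivity) (by positivity)) (by positivity)
          (by positivity)
    _ ≤ 20000 * x ^ 3 := by nlinarith [pow_pos (lt_of_lt_of_le one_pos h3) 3]

/-- the totals of the family and of its envelope agree to leading order. -/
theorem T_sub_tendsto (hQ : 0 < Q) :
    Tendsto (fun k => (F.env.T k - F.T k) / 16 ^ k) atTop (nhds 0) := by
  set M : ℝ := 20000 * (Q : ℝ) ^ 3 * F.C with hM
  have hC := F.C_nonneg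
  have hM0 : 0 ≤ M := by positivity
  have hle : ∀ k, F.T k ≤ F.env.T k := fun k =>
    sum_le_sum fun p hp => F.ν_le_m (mem_Pset.1 hp)
  have hbd : ∀ k, F.env.T k / 16 ^ k ≤ M := by
    intro k
    rw [div_le_iff₀ (by positivity)]
    have h1 : F.env.T k ≤ ∑ _p ∈ Pset Q k, F.C * 2 ^ k :=
      sum_le_sum fun p hp => F.m_le (mem_Pset.1 hp)
    rw [sum_const, nsmul_eq_mul] at h1
    refine h1.trans ?_
    have h2 := mul_le_mul_of_nonneg_right (card_Pset_le hQ k)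
      (show 0 ≤ F.C * 2 ^ k by positivity)
    refine h2.trans (le_of_eq ?_)
    rw [hM, show (16 : ℝ) ^ k = 8 ^ k * 2 ^ k by rw [← mul_pow]; norm_num]
    ring
  have hmain := tendsto_sub_of (A := fun k => F.T k / 16 ^ k) (B := fun k => F.env.T k / 16 ^ k)
    (fun k => div_le_div_of_nonneg_right (hle k) (by positivity)) hbd (by
    intro δ hδ
    have t0 : Tendsto (fun k : ℕ => 4 * M * (1 / 2 : ℝ) ^ k) atTop (nhds 0) :=
      Graded.half_tendsto _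
    obtain ⟨k₀, hk₀⟩ := eventually_atTop.1 (t0.eventually (gt_mem_nhds (half_pos hδ)))
    refine ⟨k₀, ?_⟩
    intro k hk
    have h1 := hk₀ k hk
    -- the limit in `i`
    have t1 : Tendsto (fun i : ℕ => (1 - (1 / 2 : ℝ) ^ k) ^ 4 *
        ((∑ p ∈ Pset Q k, F.ap k p.1 p.2.1 p.2.2 i) / 16 ^ k)) atTop
        (nhds ((1 - (1 / 2 : ℝ) ^ k) ^ 4 * (F.env.T k / 16 ^ k))) := by
      apply Tendsto.const_mul
      apply Tendsto.div_const
      apply tendsto_finsetSum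
      intro p hp
      exact F.tendsto_m (mem_Pset.1 hp)
    have h2 : F.env.T k / 16 ^ k - δ < (1 - (1 / 2 : ℝ) ^ k) ^ 4 * (F.env.T k / 16 ^ k) := by
      have h3 := hbd k
      have h4 : 0 ≤ F.env.T k / 16 ^ k := by
        apply div_nonneg _ (by positivity)
        exact sum_nonneg fun p hp => F.m_nonneg (mem_Pset.1 hp)
      set y : ℝ := (1 / 2 : ℝ) ^ k with hy
      have hy0 : 0 ≤ y := by positivity
      have hy1 : y ≤ 1 := pow_le_one₀ (by norm_num) (by norm_num)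
      have h5 : 1 - 4 * y ≤ (1 - y) ^ 4 := by
        nlinarith [sq_nonneg y, mul_nonneg hy0 hy0, mul_nonneg (mul_nonneg hy0 hy0) (sub_nonneg.2 hy1),
          mul_nonneg (mul_nonneg hy0 hy0) hy0]
      have h6 := mul_le_mul_of_nonneg_right h5 h4
      have h7 : 4 * y * (F.env.T k / 16 ^ k) ≤ 4 * y * M :=
        mul_le_mul_of_nonneg_left h3 (by positivity)
      nlinarith
    obtain ⟨i₀, hi₀⟩ := eventually_atTop.1 (t1.eventually (lt_mem_nhds h2))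
    refine ⟨k + i₀ + k, ?_⟩
    intro K hK
    obtain ⟨i, rfl⟩ : ∃ i, K = k + i + k := ⟨K - 2 * k, by omega⟩
    have h8 := hi₀ i (by omega)
    have h9 := F.sampling hQ k i
    refine h8.le.trans ?_
    rw [le_div_iff₀ (by positivity)]
    refine le_trans (le_of_eq ?_) h9
    rw [pow_add (16 : ℝ) (k + i) k]
    field_simp)
  refine hmain.congr ?_
  intro k
  rw [← sub_div]

end Fam3

end Pool.Agent.YTD


end

/- source: Pool.Agent.YTD.Rigid4 -/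

section

/-!
Averages of three-dimensional families.
-/

namespace Pool.Agent.YTD

open Finset Module Filter

theorem four_le' (k : ℕ) : 4 ≤ 2 ^ (k + 2) := by
  have : 1 ≤ 2 ^ k := Nat.one_le_two_pow
  rw [pow_add]
  omega

theorem P3_iff_InR {q k : ℕ} {j a b : ℤ} : P3 (4 * q) k j a b ↔
    0 ≤ a ∧ 0 ≤ b ∧ InR q (2 ^ (k + 2)) j a.toNat b.toNat := by
  have e1 : 5 * ((4 * q : ℕ) : ℤ) * 2 ^ k = 5 * q * ((2 ^ (k + 2) : ℕ) : ℤ) := by
    push_cast; rw [pow_add]; ring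
  have e2 : 25 * ((4 * q : ℕ) : ℤ) * 2 ^ k = 25 * q * ((2 ^ (k + 2) : ℕ) : ℤ) := by
    push_cast; rw [pow_add]; ring
  unfold P3 InR
  rw [e1, e2]
  constructor
  · rintro ⟨h1, h2, h3, h4, h5⟩
    rw [Int.toNat_of_nonneg h2, Int.toNat_of_nonneg h4]
    exact ⟨h2, h4, h1, h3, h5⟩
  · rintro ⟨h2, h4, h1, h3, h5⟩
    rw [Int.toNat_of_nonneg h2] at h3
    rw [Int.toNat_of_nonneg h4] at h5
    exact ⟨h1, h2, h3, h4, h5⟩

theorem P3_of_InR {q k : ℕ} {j : ℤ} {a b : ℕ} (h : InR q (2 ^ (k + 2)) j a b) :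
    P3 (4 * q) k j a b := by
  rw [P3_iff_InR]
  refine ⟨by positivity, by positivity, ?_⟩
  simpa using h

theorem P3_zero {Q k : ℕ} {j : ℤ} (h : |j| ≤ 5 * Q * 2 ^ k) : P3 Q k j 0 0 := by
  have h1 := abs_le.1 h
  refine ⟨h, le_rfl, ?_, le_rfl, ?_⟩
  · linarith [h1.1, show (0 : ℤ) ≤ 5 * Q * 2 ^ k by positivity]
  · linarith [h1.2, show (0 : ℤ) ≤ 5 * Q * 2 ^ k by positivity]

namespace Fam

variable {Q : ℕ} (F : Fam Q)

theorem ψ_add {k : ℕ} {j j' : ℤ} (h : |j| ≤ 5 * Q * 2 ^ k) (h' : |j'| ≤ 5 * Q * 2 ^ k) :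
    F.ψ k j + F.ψ k j' ≤ F.ψ (k + 1) (j + j') := by
  have h'' : |j + j'| ≤ 5 * Q * 2 ^ (k + 1) := by
    have e1 : 5 * (Q : ℤ) * 2 ^ (k + 1) = 5 * Q * 2 ^ k + 5 * Q * 2 ^ k := by rw [pow_succ]; ring
    rw [e1]
    exact (abs_add_le _ _).trans (add_le_add h h')
  refine le_of_tendsto_of_tendsto' ((F.tendsto_ψ h).add (F.tendsto_ψ h')) (F.tendsto_ψ h'') ?_
  intro i
  unfold ap
  rw [← add_div]
  apply div_le_div_of_nonneg_right _ (by positivity)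
  have := F.add (k + i) _ _ (rng_pow h i) (rng_pow h' i)
  rw [← mul_add] at this
  rwa [show k + 1 + i = k + i + 1 by ring]

/-- the envelope as a family. -/
noncomputable def env : Fam Q where
  ν := F.ψ
  C := F.C
  nonneg := fun _ _ h => F.ψ_nonneg h
  le := fun _ _ h => F.ψ_le h
  add := fun _ _ _ h h' => F.ψ_add h h'

end Fam

namespace Fam3

variable {q : ℕ} (F : Fam3 (4 * q))

/-- the family of averages. -/
noncomputable def avg : Fam (4 * q) where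
  ν := fun k j => av q (2 ^ (k + 2)) j fun a b => F.ν k j a b
  C := F.C
  nonneg := by
    intro k j h
    exact av_nonneg (rng4.2 h) fun a b hab => F.nonneg _ _ _ _ (P3_of_InR hab)
  le := by
    intro k j h
    rw [← av_const q (2 ^ (k + 2)) j (F.C * 2 ^ k)]
    exact av_mono (rng4.2 h) fun a b hab => F.le _ _ _ _ (P3_of_InR hab)
  add := by
    intro k j j' h h'
    have := av_add_le (q := q) (L := 2 ^ (k + 2)) (L' := 2 ^ (k + 2)) (j := j) (j' := j')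
      (rng4.2 h) (rng4.2 h') (f := fun a b => F.ν k j a b) (g := fun a b => F.ν k j' a b)
      (H := fun a b => F.ν (k + 1) (j + j') a b) (by
        intro a a' b b' h1 h2
        have := F.add k _ _ _ _ _ _ (P3_of_InR h1) (P3_of_InR h2)
        push_cast
        exact this)
    rw [← two_mul, ← pow_succ'] at this
    exact this

theorem sum_Pset (k : ℕ) (f : ℤ × ℤ × ℤ → ℝ) : ∑ p ∈ Pset (4 * q) k, f p =
    SS q (2 ^ (k + 2)) (fun j => mult q (2 ^ (k + 2)) j *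
      av q (2 ^ (k + 2)) j fun a b => f (j, (a : ℤ), (b : ℤ))) := by
  classical
  rw [SS_eq_Icc]
  have h1 : ∀ j ∈ Icc (-((5 * q * 2 ^ (k + 2) : ℕ) : ℤ)) ((5 * q * 2 ^ (k + 2) : ℕ) : ℤ),
      mult q (2 ^ (k + 2)) j * (av q (2 ^ (k + 2)) j fun a b => f (j, (a : ℤ), (b : ℤ))) =
      ∑ a ∈ range (AA q (2 ^ (k + 2)) j + 1), ∑ b ∈ range (BB q (2 ^ (k + 2)) j + 1),
        f (j, (a : ℤ), (b : ℤ)) := by
    intro j hj
    exact av_mult (mem_Icc_iff.1 hj) _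
  rw [sum_congr rfl h1]
  have h2 : ∑ j ∈ Icc (-((5 * q * 2 ^ (k + 2) : ℕ) : ℤ)) ((5 * q * 2 ^ (k + 2) : ℕ) : ℤ),
      ∑ a ∈ range (AA q (2 ^ (k + 2)) j + 1), ∑ b ∈ range (BB q (2 ^ (k + 2)) j + 1),
        f (j, (a : ℤ), (b : ℤ)) =
      ∑ x ∈ (Icc (-((5 * q * 2 ^ (k + 2) : ℕ) : ℤ)) ((5 * q * 2 ^ (k + 2) : ℕ) : ℤ)).sigma
        (fun j => range (AA q (2 ^ (k + 2)) j + 1) ×ˢ range (BB q (2 ^ (k + 2)) j + 1)),
        f (x.1, (x.2.1 : ℤ), (x.2.2 : ℤ)) := by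
    rw [sum_sigma]
    apply sum_congr rfl
    intro j _
    rw [sum_product]
  rw [h2]
  symm
  refine sum_bij' (fun x _ => (x.1, (x.2.1 : ℤ), (x.2.2 : ℤ)))
    (fun p _ => ⟨p.1, (p.2.1.toNat, p.2.2.toNat)⟩) ?_ ?_ ?_ ?_ ?_
  · rintro ⟨j, a, b⟩ hx
    rw [mem_sigma, mem_product, mem_range, mem_range] at hx
    rw [mem_Pset]
    exact P3_of_InR ((inR_iff (mem_Icc_iff.1 hx.1)).2
      ⟨Nat.lt_succ_iff.1 hx.2.1, Nat.lt_succ_iff.1 hx.2.2⟩)
  · rintro ⟨j, a, b⟩ hp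
    rw [mem_Pset, P3_iff_InR] at hp
    obtain ⟨_, _, h3⟩ := hp
    have h4 := (inR_iff h3.1).1 h3
    rw [mem_sigma, mem_product, mem_range, mem_range]
    exact ⟨mem_Icc_iff.2 h3.1, Nat.lt_succ_iff.2 h4.1, Nat.lt_succ_iff.2 h4.2⟩
  · rintro ⟨j, a, b⟩ _
    simp
  · rintro ⟨j, a, b⟩ hp
    rw [mem_Pset, P3_iff_InR] at hp
    simp only [Int.toNat_of_nonneg hp.1, Int.toNat_of_nonneg hp.2.1]
  · rintro ⟨j, a, b⟩ _
    rfl

theorem T_eq (k : ℕ) : F.T k =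
    SS q (2 ^ (k + 2)) (fun j => mult q (2 ^ (k + 2)) j * F.avg.ν k j) := by
  unfold T
  rw [sum_Pset]
  rfl

theorem avg_le_env {k : ℕ} {j : ℤ} (h : |j| ≤ 5 * q * ((2 ^ (k + 2) : ℕ) : ℤ)) :
    F.avg.ν k j ≤ F.env.avg.ν k j :=
  av_mono h fun _ _ hab => F.ν_le_m (P3_of_InR hab)

theorem mult_ge {q N : ℕ} {j : ℤ} (h : |j| ≤ 5 * q * N) :
    400 * ((q : ℝ) * N) ^ 2 ≤ mult q N j := by
  rw [mult_eq]
  have h1 : |(j : ℝ)| ≤ 5 * q * N := by exact_mod_cast h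
  have h2 : (j : ℝ) ^ 2 ≤ (5 * q * N) ^ 2 := sq_le_sq' (by linarith [(abs_le.1 h1).1])
    (abs_le.1 h1).2
  have h3 : (0 : ℝ) ≤ q * N := by positivity
  nlinarith

/-- the averages of the family and of its envelope are close. -/
theorem SS_env_sub (hq : 0 < q) (k : ℕ) :
    6400 * (q : ℝ) ^ 2 * 4 ^ k * SS q (2 ^ (k + 2)) (fun j => F.env.avg.ν k j - F.avg.ν k j) ≤
      F.env.T k - F.T k := by
  rw [T_eq, T_eq, ← SS_sub, ← SS_mul]
  apply SS_mono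
  intro j hj
  rw [← mul_sub]
  have h1 := mult_ge hj
  have h2 := F.avg_le_env hj
  have e : 400 * ((q : ℝ) * ((2 ^ (k + 2) : ℕ) : ℝ)) ^ 2 = 6400 * (q : ℝ) ^ 2 * 4 ^ k := by
    push_cast
    rw [show (4 : ℝ) ^ k = 2 ^ k * 2 ^ k by rw [← mul_pow]; norm_num, pow_add]
    ring
  rw [e] at h1
  exact mul_le_mul_of_nonneg_right h1 (by linarith)

end Fam3

variable {K : Type} [Field K] [Algebra ℂ K]
variable {T : Datum K} {q : ℕ} {D₀ : T.X.Pt →₀ ℤ}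

namespace Graded

variable (G : Graded T q D₀)
variable (hD : T.X.deg D₀ = 105 * T.t * q)

/-- the three-dimensional family of lengths. -/
noncomputable def fam3 (hq : 0 < q) : Fam3 (4 * q) where
  ν := fun k j a b => (G.nn (2 ^ (k + 2)) j a.toNat b.toNat : ℝ)
  C := 4 * G.Λ
  nonneg := fun _ _ _ _ _ => by positivity
  le := by
    intro k j a b _
    have h1 := G.nn_le (2 ^ (k + 2)) j a.toNat b.toNat
    have h2 : (G.nn (2 ^ (k + 2)) j a.toNat b.toNat : ℝ) ≤ G.Λ * ((2 ^ (k + 2) : ℕ) : ℝ) := by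
      exact_mod_cast h1
    refine h2.trans (le_of_eq ?_)
    push_cast
    rw [pow_add]
    ring
  add := by
    intro k j a b j' a' b' h h'
    rw [P3_iff_InR] at h h'
    have := nn_add (G := G) hD hq (four_le k) (four_le k) h.2.2 h'.2.2
    rw [← two_mul, ← pow_succ', ← Int.toNat_add h.1 h'.1, ← Int.toNat_add h.2.1 h'.2.1] at this
    exact_mod_cast this

theorem fam3_avg (hq : 0 < q) (k : ℕ) (j : ℤ) :
    (G.fam3 hD hq).avg.ν k j = G.nb (2 ^ (k + 2)) j := by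
  show av q (2 ^ (k + 2)) j (fun a b => (G.nn (2 ^ (k + 2)) j ((a : ℤ).toNat) ((b : ℤ).toNat) : ℝ)) = _
  simp only [Int.toNat_natCast]
  rfl

end Graded

end Pool.Agent.YTD


end

/- source: Pool.Agent.YTD.Int3Def -/

section

/-!
Interior lattice points.
-/

namespace Pool.Agent.YTD

/-- the strict interior of the polytope at level `k`. -/
def Int3 (Q k : ℕ) (j a b : ℤ) : Prop :=
  |j| < 5 * Q * 2 ^ k ∧ 0 < a ∧ a < 25 * Q * 2 ^ k + 3 * j ∧ 0 < b ∧ b < 25 * Q * 2 ^ k - 3 * j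

theorem Int3.toP3 {Q k : ℕ} {j a b : ℤ} (h : Int3 Q k j a b) : P3 Q k j a b :=
  ⟨h.1.le, h.2.1.le, h.2.2.1.le, h.2.2.2.1.le, h.2.2.2.2.le⟩

end Pool.Agent.YTD


end

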