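import Pool.Agent.YTDM.P09

/- source: Pool.Agent.YTD.Rigid5 -/

section

/-!
Equality analysis: the envelope of the lengths is close to the lengths.
-/

namespace Pool.Agent.YTD

open Finset Module Filter

theorem XF_diff {q : ℕ} (A B : Fam (4 * q)) (t k : ℕ) : XF B t k - XF A t k =
    XX q (2 ^ (k + 2)) (fun j => (dg t q (2 ^ (k + 2)) j : ℝ) * (B.ν k j - A.ν k j)) := by
  unfold XF
  rw [← XX_sub]
  congr 1
  funext j
  ring

theorem XF_diff_le {q : ℕ} {A B : Fam (4 * q)} (t k : ℕ)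
    (h : ∀ j : ℤ, |j| ≤ 5 * q * ((2 ^ (k + 2) : ℕ) : ℤ) → A.ν k j ≤ B.ν k j) :
    XF B t k - XF A t k ≤ 4200000 * t * (q : ℝ) ^ 3 * 8 ^ k *
      SS q (2 ^ (k + 2)) (fun j => B.ν k j - A.ν k j) := by
  rw [XF_diff]
  refine (XX_dg_le fun j hj => sub_nonneg.2 (h j hj)).trans (le_of_eq ?_)
  obtain ⟨p3, _, _⟩ := Graded.pow_facts k
  rw [mul_pow, p3]
  ring

theorem XF_diff_ge {q : ℕ} {A B : Fam (4 * q)} (t k : ℕ)
    (h : ∀ j : ℤ, |j| ≤ 5 * q * ((2 ^ (k + 2) : ℕ) : ℤ) → A.ν k j ≤ B.ν k j) :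
    64000 * t * (q : ℝ) ^ 3 * 8 ^ k * SS q (2 ^ (k + 2)) (fun j => B.ν k j - A.ν k j) ≤
      XF B t k - XF A t k := by
  rw [XF_diff]
  refine le_trans (le_of_eq ?_) (XX_dg_ge fun j hj => sub_nonneg.2 (h j hj))
  obtain ⟨p3, _, _⟩ := Graded.pow_facts k
  rw [mul_pow, p3]
  ring

theorem Fam.SS_close {q : ℕ} (hq : 0 < q) (F : Fam (4 * q)) (k : ℕ) :
    SS q (2 ^ (k + 2)) (fun j => F.ψ k j - F.ν k j) ≤ F.def_ k * 4 ^ k := by
  have h := F.sum_close (by positivity) k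
  have e : 5 * (4 * q) * 2 ^ k = 5 * q * 2 ^ (k + 2) := by rw [pow_add]; ring
  rw [e] at h
  exact h

variable {K : Type} [Field K] [Algebra ℂ K]
variable {T : Datum K} {q : ℕ} {D₀ : T.X.Pt →₀ ℤ}

namespace Graded

variable {G : Graded T q D₀}
variable (hD : T.X.deg D₀ = 105 * T.t * q)

variable (G) in
/-- the family of averages of the envelope. -/
noncomputable def Mf (hq : 0 < q) : Fam (4 * q) := (G.fam3 hD hq).env.avg

theorem fam_ν_eq (hq : 0 < q) (k : ℕ) (j : ℤ) :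
    (G.fam hD hq).ν k j = (G.fam3 hD hq).avg.ν k j := by
  rw [fam3_avg, fam_ν]

theorem nb_le_Mf (hq : 0 < q) {k : ℕ} {j : ℤ} (h : |j| ≤ 5 * q * ((2 ^ (k + 2) : ℕ) : ℤ)) :
    (G.fam hD hq).ν k j ≤ (G.Mf hD hq).ν k j := by
  rw [fam_ν_eq]
  exact (G.fam3 hD hq).avg_le_env h

theorem Mf_le_ψ (hq : 0 < q) {k : ℕ} {j : ℤ} (h : |j| ≤ 5 * q * ((2 ^ (k + 2) : ℕ) : ℤ)) :
    (G.Mf hD hq).ν k j ≤ (G.Mf hD hq).ψ k j := (G.Mf hD hq).ν_le_ψ (rng4.1 h)

theorem close0 (hq : 0 < q) : ∃ η : ℕ → ℝ, Tendsto η atTop (nhds 0) ∧ ∀ k,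
    SS q (2 ^ (k + 2)) (fun j => (G.Mf hD hq).ψ k j - (G.fam hD hq).ν k j) ≤ η k * 4 ^ k := by
  have hQ : 0 < 4 * q := by positivity
  have h1 := (G.fam3 hD hq).T_sub_tendsto hQ
  refine ⟨fun k => (G.Mf hD hq).def_ k +
    1 / (6400 * (q : ℝ) ^ 2) * (((G.fam3 hD hq).env.T k - (G.fam3 hD hq).T k) / 16 ^ k), ?_, ?_⟩
  · have := (G.Mf hD hq).def_tendsto.add (h1.const_mul (1 / (6400 * (q : ℝ) ^ 2)))
    simpa using this
  · intro k
    have h2 := (G.Mf hD hq).SS_close hq k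
    have h3 := (G.fam3 hD hq).SS_env_sub hq k
    have e : SS q (2 ^ (k + 2)) (fun j => (G.Mf hD hq).ψ k j - (G.fam hD hq).ν k j) =
        SS q (2 ^ (k + 2)) (fun j => (G.Mf hD hq).ψ k j - (G.Mf hD hq).ν k j) +
        SS q (2 ^ (k + 2)) (fun j => (G.fam3 hD hq).env.avg.ν k j - (G.fam3 hD hq).avg.ν k j) := by
      rw [← SS_add]
      congr 1
      funext j
      rw [fam_ν_eq]
      unfold Mf
      ring
    rw [e]
    set A := SS q (2 ^ (k + 2)) (fun j => (G.fam3 hD hq).env.avg.ν k j - (G.fam3 hD hq).avg.ν k j)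
      with hA
    have hq' : (0 : ℝ) < q := by exact_mod_cast hq
    have h4 : A ≤ 1 / (6400 * (q : ℝ) ^ 2) *
        (((G.fam3 hD hq).env.T k - (G.fam3 hD hq).T k) / 16 ^ k) * 4 ^ k := by
      have e16 : (16 : ℝ) ^ k = 4 ^ k * 4 ^ k := by rw [← mul_pow]; norm_num
      have p4 : (0 : ℝ) < 4 ^ k := by positivity
      rw [e16]
      have : 1 / (6400 * (q : ℝ) ^ 2) *
        (((G.fam3 hD hq).env.T k - (G.fam3 hD hq).T k) / (4 ^ k * 4 ^ k)) * 4 ^ k =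
        ((G.fam3 hD hq).env.T k - (G.fam3 hD hq).T k) / (6400 * (q : ℝ) ^ 2 * 4 ^ k) := by
        field_simp
      rw [this, le_div_iff₀ (by positivity)]
      linarith
    linarith

/-- the envelope has the right total. -/
theorem XF_env_le (P₀ : T.X.Pt) (hq : 0 < q) {s₀ : ℝ} (hS : G.Crit s₀ 0) (k : ℕ) :
    XF (G.Mf hD hq).env T.t k ≤ 1024 * s₀ * 32 ^ k +
      400000 * T.t * (q : ℝ) ^ 2 * (4 * G.Λ) * 8 ^ k := by
  have h := XF_le hq (G.Mf hD hq).env T.t (s := 1024 * s₀) ?_ k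
  · exact h
  · intro ε hε
    obtain ⟨η, h1, h2⟩ := close0 (G := G) hD hq
    have h3 := XF_fam_upper hD P₀ hq hS (ε / 2) (half_pos hε)
    have t1 : Tendsto (fun k => 4200000 * T.t * (q : ℝ) ^ 3 * η k) atTop (nhds 0) := by
      have := h1.const_mul (4200000 * (T.t : ℝ) * (q : ℝ) ^ 3)
      simpa using this
    filter_upwards [h3, t1.eventually (gt_mem_nhds (half_pos hε))] with k hk hk'
    have h4 := XF_diff_le (A := G.fam hD hq) (B := (G.Mf hD hq).env) T.t k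
      (fun j hj => (nb_le_Mf hD hq hj).trans (Mf_le_ψ hD hq hj))
    have h5 := mul_le_mul_of_nonneg_left (h2 k)
      (show 0 ≤ 4200000 * T.t * (q : ℝ) ^ 3 * 8 ^ k by positivity)
    have e : (G.Mf hD hq).env.ν k = (G.Mf hD hq).ψ k := rfl
    rw [e] at h4
    have e32 : (32 : ℝ) ^ k = 8 ^ k * 4 ^ k := by rw [← mul_pow]; norm_num
    have p32 : (0 : ℝ) < 32 ^ k := by positivity
    have h6 : 4200000 * T.t * (q : ℝ) ^ 3 * 8 ^ k * (η k * 4 ^ k) ≤ ε / 2 * 32 ^ k := by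
      have := mul_le_mul_of_nonneg_right hk'.le p32.le
      rw [e32] at this ⊢
      linarith
    nlinarith

/-- main closeness statement. -/
theorem close1 (P₀ : T.X.Pt) (hq : 0 < q) {s₀ : ℝ} (hS : G.Crit s₀ 0) :
    ∃ η : ℕ → ℝ, Tendsto η atTop (nhds 0) ∧ ∀ᶠ k : ℕ in atTop,
    SS q (2 ^ (k + 2)) (fun j => (G.Mf hD hq).ψ k j - (G.fam hD hq).ν k j) ≤ η k * 2 ^ k := by
  obtain ⟨err, h1, h2⟩ := deficit hD P₀ hq hS
  have ht : (0 : ℝ) < T.t := by exact_mod_cast T.t_pos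
  have hq' : (0 : ℝ) < q := by exact_mod_cast hq
  set c : ℝ := 1 / (64000 * T.t * (q : ℝ) ^ 3) with hc
  set C : ℝ := 400000 * T.t * (q : ℝ) ^ 2 * (4 * G.Λ) with hC
  refine ⟨fun k => c * (err k + C * (1 / 2) ^ k), ?_, ?_⟩
  · have := (h1.add (half_tendsto C)).const_mul c
    simpa using this
  · filter_upwards [h2] with k hk
    have h3 := XF_env_le hD P₀ hq hS k
    rw [← hC] at h3
    have h4 := XF_diff_ge (A := G.fam hD hq) (B := (G.Mf hD hq).env) T.t k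
      (fun j hj => (nb_le_Mf hD hq hj).trans (Mf_le_ψ hD hq hj))
    have e : (G.Mf hD hq).env.ν k = (G.Mf hD hq).ψ k := rfl
    rw [e] at h4
    have hy := XX_yb_nonneg (G := G) hD hq (four_le k)
    set A := SS q (2 ^ (k + 2)) (fun j => (G.Mf hD hq).ψ k j - (G.fam hD hq).ν k j) with hA
    have h5 : 64000 * T.t * (q : ℝ) ^ 3 * 8 ^ k * A ≤ err k * 16 ^ k + C * 8 ^ k := by linarith
    have e8 : (16 : ℝ) ^ k = 2 ^ k * 8 ^ k := by rw [← mul_pow]; norm_num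
    have e1 : (2 : ℝ) ^ k * (1 / 2) ^ k = 1 := by rw [← mul_pow]; norm_num
    have p8 : (0 : ℝ) < 8 ^ k := by positivity
    have h6 : (64000 * T.t * (q : ℝ) ^ 3 * A) * 8 ^ k ≤
        ((err k + C * (1 / 2) ^ k) * 2 ^ k) * 8 ^ k := by
      have : ((err k + C * (1 / 2) ^ k) * 2 ^ k) * 8 ^ k =
          err k * (2 ^ k * 8 ^ k) + C * 8 ^ k * (2 ^ k * (1 / 2) ^ k) := by ring
      rw [this, e1, ← e8]
      linarith
    have h7 := le_of_mul_le_mul_right h6 p8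
    have h8 : A ≤ c * ((err k + C * (1 / 2) ^ k) * 2 ^ k) := by
      rw [hc, one_div, inv_mul_eq_div, le_div_iff₀ (by positivity)]
      linarith
    linarith

/-- the gap of the family of averages of the envelope. -/
theorem gap_Mf (P₀ : T.X.Pt) (hq : 0 < q) {s₀ : ℝ} (hS : G.Crit s₀ 0) :
    ∃ η : ℕ → ℝ, Tendsto η atTop (nhds 0) ∧ ∀ᶠ k : ℕ in atTop,
    (G.Mf hD hq).gap k ≤ η k * 16 ^ k := by
  obtain ⟨err, h1, h2⟩ := basic_ineq hD P₀ hq hS
  obtain ⟨η, h3, h4⟩ := close1 hD P₀ hq hS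
  have ht : (0 : ℝ) < T.t := by exact_mod_cast T.t_pos
  set C : ℝ := 400000 * T.t * (q : ℝ) ^ 2 * (4 * G.Λ) with hC
  refine ⟨fun k => 12 / T.t * (err k + C * (1 / 2) ^ k) + (320000 * q * G.Λ * (1 / 4) ^ k +
    1032000 * (q : ℝ) ^ 2 * (G.Mf hD hq).def_ k) + 1032000 * (q : ℝ) ^ 2 * (η k * (1 / 2) ^ k), ?_, ?_⟩
  · have t1 := (h1.add (half_tendsto C)).const_mul (12 / (T.t : ℝ))
    have t2 := (quarter_tendsto (320000 * (q : ℝ) * G.Λ)).add
      ((G.Mf hD hq).def_tendsto.const_mul (1032000 * (q : ℝ) ^ 2))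
    have t3 : Tendsto (fun k => 1032000 * (q : ℝ) ^ 2 * (η k * (1 / 2 : ℝ) ^ k)) atTop (nhds 0) := by
      have := (h3.mul (tendsto_pow_atTop_nhds_zero_of_lt_one (r := (1 / 2 : ℝ)) (by norm_num)
        (by norm_num))).const_mul (1032000 * (q : ℝ) ^ 2)
      simpa using this
    have := (t1.add t2).add t3
    simpa using this
  · filter_upwards [h2, h4] with k hk hk'
    have h5 := XF_env_le hD P₀ hq hS k
    rw [← hC] at h5
    have h6 := XF_diff_ge (A := G.fam hD hq) (B := (G.Mf hD hq).env) T.t k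
      (fun j hj => (nb_le_Mf hD hq hj).trans (Mf_le_ψ hD hq hj))
    have e : (G.Mf hD hq).env.ν k = (G.Mf hD hq).ψ k := rfl
    rw [e] at h6
    set A := SS q (2 ^ (k + 2)) (fun j => (G.Mf hD hq).ψ k j - (G.fam hD hq).ν k j) with hA
    have hA0 : 0 ≤ A := SS_nonneg fun j hj =>
      sub_nonneg.2 ((nb_le_Mf hD hq hj).trans (Mf_le_ψ hD hq hj))
    have h6' : 0 ≤ 64000 * T.t * (q : ℝ) ^ 3 * 8 ^ k * A := by positivity
    -- the vertical parts
    have hy := XX_yb_nonneg (G := G) hD hq (four_le k)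
    have hy' : 0 ≤ SS q (2 ^ (k + 2)) (G.yb (2 ^ (k + 2))) :=
      SS_nonneg fun j hj => yb_nonneg hD hq (four_le k) hj
    have hy'' : (0 : ℝ) ≤ 50 * (q * ((2 ^ (k + 2) : ℕ) : ℝ)) *
      SS q (2 ^ (k + 2)) (G.yb (2 ^ (k + 2))) := by positivity
    have h7 : -(T.t * Lam q (2 ^ (k + 2)) (G.nb (2 ^ (k + 2)))) ≤ err k * 16 ^ k + C * 8 ^ k := by
      linarith
    -- comparison of `Lam`
    have h8 : Lam q (2 ^ (k + 2)) (G.nb (2 ^ (k + 2))) ≤
        Lam q (2 ^ (k + 2)) ((G.Mf hD hq).ν k) +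
        5375 * ((q : ℝ) * ((2 ^ (k + 2) : ℕ) : ℝ)) ^ 2 *
          SS q (2 ^ (k + 2)) (fun j => (G.Mf hD hq).ν k j - (G.fam hD hq).ν k j) := by
      unfold Lam
      rw [SS_eq_Icc, mul_sum, add_right_comm, ← sum_add_distrib]
      apply add_le_add
      · apply sum_le_sum
        intro j hj
        have hj' := mem_Icc_iff.1 hj
        have h9 := nb_le_Mf (G := G) hD hq hj'
        rw [fam_ν] at h9
        rw [fam_ν]
        have h10 : |(j : ℝ)| ≤ 5 * q * ((2 ^ (k + 2) : ℕ) : ℝ) := by exact_mod_cast hj'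
        set Q : ℝ := (q : ℝ) * ((2 ^ (k + 2) : ℕ) : ℝ) with hQ
        have hQ0 : 0 ≤ Q := by positivity
        have h11 : max 0 (|(j : ℝ)| - 4 * Q) ≤ Q := by
          apply max_le hQ0
          rw [hQ]
          linarith
        have h12 : 5000 * Q * max 0 (|(j : ℝ)| - 4 * Q) ≤ 5000 * Q * Q :=
          mul_le_mul_of_nonneg_left h11 (by positivity)
        have h13 : -(5375 * Q ^ 2) ≤ 81 * (j : ℝ) ^ 2 - 375 * Q ^ 2 -
            5000 * Q * max 0 (|(j : ℝ)| - 4 * Q) := by nlinarith [sq_nonneg (j : ℝ)]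
        nlinarith
      · apply mul_le_mul_of_nonneg_left _ (by positivity)
        apply add_le_add
        · have := nb_le_Mf (G := G) hD hq (k := k) (j := ((5 * q * 2 ^ (k + 2) : ℕ) : ℤ)) (by
            rw [abs_of_nonneg (by positivity)]
            push_cast
            exact le_rfl)
          rwa [fam_ν] at this
        · have := nb_le_Mf (G := G) hD hq (k := k) (j := -((5 * q * 2 ^ (k + 2) : ℕ) : ℤ)) (by
            rw [abs_neg, abs_of_nonneg (by positivity)]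
            push_cast
            exact le_rfl)
          rwa [fam_ν] at this
    have h9 : SS q (2 ^ (k + 2)) (fun j => (G.Mf hD hq).ν k j - (G.fam hD hq).ν k j) ≤ A :=
      SS_mono fun j hj => by
        have := Mf_le_ψ (G := G) hD hq hj
        linarith
    have h10 := (G.Mf hD hq).lam_le hq k
    have eC : (G.Mf hD hq).C = 4 * G.Λ := rfl
    rw [eC] at h10
    obtain ⟨B, hB⟩ : ∃ B, B = SS q (2 ^ (k + 2)) (fun j => (G.Mf hD hq).ν k j -
      (G.fam hD hq).ν k j) := ⟨_, rfl⟩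
    rw [← hB] at h8 h9
    have eQ : 5375 * ((q : ℝ) * ((2 ^ (k + 2) : ℕ) : ℝ)) ^ 2 = 86000 * (q : ℝ) ^ 2 * 4 ^ k := by
      push_cast
      rw [show (4 : ℝ) ^ k = 2 ^ k * 2 ^ k by rw [← mul_pow]; norm_num, pow_add]
      ring
    rw [eQ] at h8
    have h11 : 86000 * (q : ℝ) ^ 2 * 4 ^ k * B ≤ 86000 * (q : ℝ) ^ 2 * 4 ^ k * (η k * 2 ^ k) :=
      mul_le_mul_of_nonneg_left (h9.trans hk') (by positivity)
    have e4 : (4 : ℝ) ^ k = (1 / 4) ^ k * 16 ^ k := by rw [← mul_pow]; norm_num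
    have e8 : (8 : ℝ) ^ k = (1 / 2) ^ k * 16 ^ k := by rw [← mul_pow]; norm_num
    have e82 : (4 : ℝ) ^ k * 2 ^ k = (1 / 2) ^ k * 16 ^ k := by
      rw [← mul_pow, ← mul_pow]; norm_num
    have h12 : 86000 * (q : ℝ) ^ 2 * 4 ^ k * (η k * 2 ^ k) =
        86000 * (q : ℝ) ^ 2 * (η k * ((1 / 2) ^ k * 16 ^ k)) := by
      rw [← e82]; ring
    rw [h12] at h11
    rw [e4] at h10
    rw [e8] at h7
    -- combine
    have h13 : -(12 * Lam q (2 ^ (k + 2)) (G.nb (2 ^ (k + 2)))) ≤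
        12 / T.t * (err k * 16 ^ k + C * ((1 / 2) ^ k * 16 ^ k)) := by
      rw [div_mul_eq_mul_div, le_div_iff₀ ht]
      linarith
    have e14 : (12 / T.t * (err k + C * (1 / 2) ^ k) + (320000 * q * G.Λ * (1 / 4) ^ k +
      1032000 * (q : ℝ) ^ 2 * (G.Mf hD hq).def_ k) + 1032000 * (q : ℝ) ^ 2 *
      (η k * (1 / 2) ^ k)) * 16 ^ k =
      12 / T.t * (err k * 16 ^ k + C * ((1 / 2) ^ k * 16 ^ k)) +
      (320000 * q * G.Λ * ((1 / 4) ^ k * 16 ^ k) +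
      1032000 * (q : ℝ) ^ 2 * (G.Mf hD hq).def_ k * 16 ^ k) +
      1032000 * (q : ℝ) ^ 2 * (η k * ((1 / 2) ^ k * 16 ^ k)) := by ring
    rw [e14]
    linarith

end Graded

end Pool.Agent.YTD


end

/- source: Pool.Agent.YTD.Rigid6 -/

section

/-!
Equality analysis: the loss of the averaging over the rectangles.
-/

namespace Pool.Agent.YTD

open Finset Filter

theorem second_le (g : ℕ → ℝ) (A : ℕ) (hg : ∀ a, a + 2 ≤ A → g a + g (a + 2) ≤ 2 * g (a + 1))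
    {h x : ℕ} (hh : 1 ≤ h) (hx : 2 * h ≤ x + 1) (hx' : x + 2 * h ≤ A + 1) :
    (h : ℝ) * (2 * g x - g (x - h) - g (x + h)) ≤
      2 * ∑ a ∈ range (A + 1), g a - (A + 1) * (g 0 + g A) := by
  obtain ⟨A', rfl⟩ : ∃ A', A = A' + 1 := ⟨A - 1, by omega⟩
  obtain ⟨y, rfl⟩ : ∃ y, x = y + h := ⟨x - h, by omega⟩
  obtain ⟨h', rfl⟩ : ∃ h', h = h' + 1 := ⟨h - 1, by omega⟩
  have mono : ∀ d y : ℕ, y + d + 1 ≤ A' + 1 → g (y + d + 1) - g (y + d) ≤ g (y + 1) - g y := by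
    intro d
    induction d with
    | zero => intro y _; simp
    | succ d ih =>
      intro y hy
      have h1 := ih y (by omega)
      have h2 := hg (y + d) (by omega)
      rw [show y + (d + 1) + 1 = y + d + 2 by ring, show y + (d + 1) = y + d + 1 by ring]
      linarith
  have up : ∀ i : ℕ, y + i ≤ A' + 1 → g (y + i) - g y ≤ i * (g (y + 1) - g y) := by
    intro i
    induction i with
    | zero => intro _; simp
    | succ i ih =>
      intro hi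
      have h1 := ih (by omega)
      have h2 := mono i y (by omega)
      rw [← add_assoc]
      push_cast
      linarith
  set z := y + (h' + 1) + h' with hz
  have dn : ∀ i : ℕ, i ≤ z → z + 1 ≤ A' + 1 →
      i * (g (z + 1) - g z) ≤ g z - g (z - i) := by
    intro i
    induction i with
    | zero => intro _ _; simp
    | succ i ih =>
      intro hi hi'
      have h1 := ih (by omega) hi'
      obtain ⟨w, hw⟩ : ∃ w, z = w + (i + 1) := ⟨z - (i + 1), by omega⟩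
      have h2 := mono (i + 1) w (by omega)
      rw [← hw] at h2
      have e1 : z - i = w + 1 := by omega
      have e2 : z - (i + 1) = w := by omega
      rw [e1] at h1
      rw [e2]
      push_cast
      linarith
  have a1 := up (h' + 1) (by omega)
  have a2 := dn h' (by omega) (by omega)
  have e3 : z - h' = y + (h' + 1) := by omega
  rw [e3] at a2
  have a3 := slope_le g A' (fun a ha => hg a (by omega)) (h := h' + 1) (x := y)
    (n := 2 * h' + 1) (by omega) (by omega)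
  have e4 : y + (2 * h' + 1) = z := by omega
  rw [e4] at a3
  rw [show y + (h' + 1) - (h' + 1) = y by omega]
  have e5 : y + (h' + 1) + (h' + 1) = z + 1 := by omega
  rw [e5]
  have hp : (0 : ℝ) ≤ ((h' + 1 : ℕ) : ℝ) := by positivity
  have a4 : 2 * g (y + (h' + 1)) - g y - g (z + 1) ≤
      ((h' + 1 : ℕ) : ℝ) * ((g (y + 1) - g y) - (g (z + 1) - g z)) := by
    push_cast at a1 ⊢
    linarith
  have a5 := mul_le_mul_of_nonneg_left a4 hp
  push_cast at a3 a5 ⊢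
  nlinarith

theorem W_nonneg (g : ℕ → ℝ) (A : ℕ) (hA : 1 ≤ A)
    (hg : ∀ a, a + 2 ≤ A → g a + g (a + 2) ≤ 2 * g (a + 1)) :
    0 ≤ 2 * ∑ a ∈ range (A + 1), g a - (A + 1) * (g 0 + g A) := by
  obtain ⟨A', rfl⟩ : ∃ A', A = A' + 1 := ⟨A - 1, by omega⟩
  have := slope_le g A' (fun a ha => hg a (by omega)) (h := 0) (x := 0) (n := 0) (by omega)
    (by omega)
  push_cast at this ⊢
  simpa [add_assoc, show (1 : ℝ) + 1 = 2 by norm_num] using this

namespace Fam3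

theorem m_chain {Q : ℕ} (F : Fam3 Q) {k : ℕ} {j a b u v w : ℤ} (h : P3 Q k j a b)
    (h' : P3 Q k u v w) (s : ℕ) :
    P3 Q (k + s) ((2 ^ s - 1) * j + u) ((2 ^ s - 1) * a + v) ((2 ^ s - 1) * b + w) ∧
    (2 ^ s - 1) * F.m k j a b + F.m k u v w ≤
      F.m (k + s) ((2 ^ s - 1) * j + u) ((2 ^ s - 1) * a + v) ((2 ^ s - 1) * b + w) := by
  induction s with
  | zero =>
    simp only [pow_zero, sub_self, zero_mul, zero_add, add_zero]
    exact ⟨h', le_rfl⟩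
  | succ s ih =>
    obtain ⟨ih1, ih2⟩ := ih
    have h1 := h.pow s
    have e : ∀ x y : ℤ, 2 ^ s * x + ((2 ^ s - 1) * x + y) = (2 ^ (s + 1) - 1) * x + y := by
      intro x y
      rw [pow_succ]
      ring
    have h2 := h1.add ih1
    have h3 := F.m_add h1 ih1
    rw [e, e, e] at h2 h3
    refine ⟨h2, le_trans ?_ h3⟩
    rw [F.m_pow h]
    have e2 : ((2 : ℝ) ^ (s + 1) - 1) * F.m k j a b + F.m k u v w =
        2 ^ s * F.m k j a b + ((2 ^ s - 1) * F.m k j a b + F.m k u v w) := by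
      rw [pow_succ]
      ring
    rw [e2]
    linarith

variable {q : ℕ} (F : Fam3 (4 * q))

/-- the defect of concavity along a line. -/
noncomputable def WW (k : ℕ) (j b : ℤ) : ℝ :=
  2 * ∑ a ∈ range (AA q (2 ^ (k + 2)) j + 1), F.m k j a b -
    ((AA q (2 ^ (k + 2)) j : ℝ) + 1) * (F.m k j 0 b + F.m k j (AA q (2 ^ (k + 2)) j) b)

theorem AA_cast {q k : ℕ} {j : ℤ} (hj : |j| ≤ 5 * ((4 * q : ℕ) : ℤ) * 2 ^ k) :
    (AA q (2 ^ (k + 2)) j : ℤ) = 25 * ((4 * q : ℕ) : ℤ) * 2 ^ k + 3 * j := by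
  unfold AA
  have h := abs_le.1 hj
  have h0 : (0 : ℤ) ≤ ((4 * q : ℕ) : ℤ) * 2 ^ k := by positivity
  have e : (25 * (q : ℤ) * ((2 ^ (k + 2) : ℕ) : ℤ)) = 25 * ((4 * q : ℕ) : ℤ) * 2 ^ k := by
    push_cast
    rw [pow_add]
    ring
  rw [e, Int.toNat_of_nonneg]
  linarith [h.1]

theorem BB_cast {q k : ℕ} {j : ℤ} (hj : |j| ≤ 5 * ((4 * q : ℕ) : ℤ) * 2 ^ k) :
    (BB q (2 ^ (k + 2)) j : ℤ) = 25 * ((4 * q : ℕ) : ℤ) * 2 ^ k - 3 * j := by
  unfold BB
  have h := abs_le.1 hj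
  have h0 : (0 : ℤ) ≤ ((4 * q : ℕ) : ℤ) * 2 ^ k := by positivity
  have e : (25 * (q : ℤ) * ((2 ^ (k + 2) : ℕ) : ℤ)) = 25 * ((4 * q : ℕ) : ℤ) * 2 ^ k := by
    push_cast
    rw [pow_add]
    ring
  rw [e, Int.toNat_of_nonneg]
  linarith [h.2]

theorem P3_line {q k : ℕ} {j b : ℤ} (hj : |j| ≤ 5 * ((4 * q : ℕ) : ℤ) * 2 ^ k) (hb : 0 ≤ b)
    (hb' : b ≤ 25 * ((4 * q : ℕ) : ℤ) * 2 ^ k - 3 * j) {a : ℕ} (ha : a ≤ AA q (2 ^ (k + 2)) j) :
    P3 (4 * q) k j a b := by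
  refine ⟨hj, by positivity, ?_, hb, hb'⟩
  rw [← AA_cast hj]
  exact_mod_cast ha

theorem line_concave {k : ℕ} {j b : ℤ} (hj : |j| ≤ 5 * ((4 * q : ℕ) : ℤ) * 2 ^ k) (hb : 0 ≤ b)
    (hb' : b ≤ 25 * ((4 * q : ℕ) : ℤ) * 2 ^ k - 3 * j) (a : ℕ)
    (ha : a + 2 ≤ AA q (2 ^ (k + 2)) j) :
    F.m k j (a : ℕ) b + F.m k j ((a + 2 : ℕ) : ℤ) b ≤ 2 * F.m k j ((a + 1 : ℕ) : ℤ) b :=
  F.m_concave (P3_line hj hb hb' (by omega)) (P3_line hj hb hb' ha)
    (P3_line hj hb hb' (by omega)) (by ring) (by push_cast; ring) (by ring)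

theorem AA_pos {q k : ℕ} (hq : 0 < q) {j : ℤ} (hj : |j| ≤ 5 * ((4 * q : ℕ) : ℤ) * 2 ^ k) :
    1 ≤ AA q (2 ^ (k + 2)) j := by
  have h1 := AA_cast hj
  have h2 := (abs_le.1 hj).1
  have h3 : (1 : ℤ) ≤ ((4 * q : ℕ) : ℤ) * 2 ^ k := by
    have : 1 ≤ (4 * q) * 2 ^ k := Nat.mul_pos (by omega) (by positivity)
    exact_mod_cast this
  have : (1 : ℤ) ≤ (AA q (2 ^ (k + 2)) j : ℤ) := by
    rw [h1]
    linarith
  exact_mod_cast this

theorem WW_nonneg (hq : 0 < q) {k : ℕ} {j b : ℤ} (hj : |j| ≤ 5 * ((4 * q : ℕ) : ℤ) * 2 ^ k)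
    (hb : 0 ≤ b) (hb' : b ≤ 25 * ((4 * q : ℕ) : ℤ) * 2 ^ k - 3 * j) : 0 ≤ F.WW k j b := by
  have := W_nonneg (fun a => F.m k j a b) (AA q (2 ^ (k + 2)) j) (AA_pos hq hj)
    (fun a ha => F.line_concave hj hb hb' a ha)
  unfold WW
  simpa using this

/-- the total defect is controlled by the loss. -/
theorem sum_WW_le (hq : 0 < q) (k : ℕ) :
    SS q (2 ^ (k + 2)) (fun j => ∑ b ∈ range (BB q (2 ^ (k + 2)) j + 1), F.WW k j b) ≤
      20000000 * (q : ℝ) ^ 3 * 8 ^ k *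
        SS q (2 ^ (k + 2)) (fun j => F.env.avg.ψ k j - F.env.avg.ν k j) := by
  rw [← SS_mul]
  apply SS_mono
  intro j hj
  have hj' := rng4.1 hj
  set A := AA q (2 ^ (k + 2)) j with hA
  set B := BB q (2 ^ (k + 2)) j with hB
  have hAc := AA_cast hj'
  have hBc := BB_cast hj'
  rw [← hA] at hAc
  rw [← hB] at hBc
  have hj2 : |2 * j| ≤ 5 * ((4 * q : ℕ) : ℤ) * 2 ^ (k + 1) := by
    have := Fam.rng_pow hj' 1
    rwa [pow_one] at this
  have eA : AA q (2 ^ (k + 1 + 2)) (2 * j) = 2 * A := by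
    have h1 := AA_cast hj2
    have : (AA q (2 ^ (k + 1 + 2)) (2 * j) : ℤ) = ((2 * A : ℕ) : ℤ) := by
      rw [h1]
      push_cast at hAc ⊢
      rw [hAc, pow_succ]
      ring
    exact_mod_cast this
  have eB : BB q (2 ^ (k + 1 + 2)) (2 * j) = 2 * B := by
    have h1 := BB_cast hj2
    have : (BB q (2 ^ (k + 1 + 2)) (2 * j) : ℤ) = ((2 * B : ℕ) : ℤ) := by
      rw [h1]
      push_cast at hBc ⊢
      rw [hBc, pow_succ]
      ring
    exact_mod_cast this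
  have hP : ∀ a b : ℕ, a ≤ A → b ≤ B → P3 (4 * q) k j a b := by
    intro a b ha hb
    exact P3_of_InR ((inR_iff hj).2 ⟨ha, hb⟩)
  set f : ℕ → ℕ → ℝ := fun a b => F.m k j a b with hf
  set h : ℕ → ℕ → ℝ := fun a b => F.m (k + 1) (2 * j) a b with hh
  have D := avg2_double (A := A) (B := B) (f := f) (h := h) (by
    intro a ha a' ha' b hb b' hb'
    have := F.m_add (hP a b ha hb) (hP a' b' ha' hb')
    simp only [hf, hh]
    push_cast
    rw [two_mul]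
    exact this)
  have e1 : F.env.avg.ν k j = avg2 A B f := rfl
  have e2 : F.env.avg.ν (k + 1) (2 * j) = avg2 (2 * A) (2 * B) h := by
    show avg2 (AA q (2 ^ (k + 1 + 2)) (2 * j)) (BB q (2 ^ (k + 1 + 2)) (2 * j)) _ = _
    rw [eA, eB]
    rfl
  have e3 := F.env.avg.ψ_double hj'
  have e4 := F.env.avg.ν_le_ψ hj2
  rw [e2, e3] at e4
  rw [e1]
  -- the sum over `b`
  have e5 : ∑ b ∈ range (B + 1), F.WW k j b =
      ((A : ℝ) + 1) * (B + 1) * (2 * avg2 A B f - YTD.avg B (f 0) - YTD.avg B (f A)) := by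
    have h1 := avg2_eq A B f
    have h2 : ((B : ℝ) + 1) * YTD.avg B (f 0) = ∑ b ∈ range (B + 1), f 0 b := by
      unfold YTD.avg
      field_simp
    have h3 : ((B : ℝ) + 1) * YTD.avg B (f A) = ∑ b ∈ range (B + 1), f A b := by
      unfold YTD.avg
      field_simp
    have h4 : ((A : ℝ) + 1) * (B + 1) * (2 * avg2 A B f - YTD.avg B (f 0) - YTD.avg B (f A)) =
        2 * (((A : ℝ) + 1) * (B + 1) * avg2 A B f) - (A + 1) * (((B : ℝ) + 1) * YTD.avg B (f 0) +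
          ((B : ℝ) + 1) * YTD.avg B (f A)) := by ring
    rw [h4, h1, h2, h3, sum_comm, ← sum_add_distrib, mul_sum, mul_sum, ← sum_sub_distrib]
    apply sum_congr rfl
    intro b _
    unfold WW
    simp only [hf, Nat.cast_zero]
    rw [← hA]
  rw [e5]
  have hψ := F.env.avg.ν_le_ψ hj'
  rw [e1] at hψ
  -- bounds for A, B
  have h5 := abs_le.1 hj'
  have h0 : (1 : ℤ) ≤ ((4 * q : ℕ) : ℤ) * 2 ^ k := by
    have : 1 ≤ (4 * q) * 2 ^ k := Nat.mul_pos (by omega) (by positivity)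
    exact_mod_cast this
  have bA : (A : ℤ) + 1 ≤ 41 * (((4 * q : ℕ) : ℤ) * 2 ^ k) := by rw [hAc]; linarith [h5.2]
  have bB : (B : ℤ) + 1 ≤ 41 * (((4 * q : ℕ) : ℤ) * 2 ^ k) := by rw [hBc]; linarith [h5.1]
  have bA' : (A : ℝ) + 1 ≤ 41 * (4 * q * 2 ^ k) := by exact_mod_cast bA
  have bB' : (B : ℝ) + 1 ≤ 41 * (4 * q * 2 ^ k) := by exact_mod_cast bB
  set x : ℝ := 4 * q * 2 ^ k with hx
  have hx0 : 0 ≤ x := by positivity
  have hA0 : (0 : ℝ) ≤ A := by positivity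
  have hB0 : (0 : ℝ) ≤ B := by positivity
  set d := F.env.avg.ψ k j - avg2 A B f with hd
  have hd0 : 0 ≤ d := by rw [hd]; linarith
  have D' : 2 * avg2 A B f - YTD.avg B (f 0) - YTD.avg B (f A) ≤ (2 * (A : ℝ) + 1) * (2 * d) := by
    have : avg2 (2 * A) (2 * B) h - 2 * avg2 A B f ≤ 2 * d := by rw [hd]; linarith
    have := mul_le_mul_of_nonneg_left this (show (0 : ℝ) ≤ 2 * A + 1 by positivity)
    linarith
  have p1 : ((A : ℝ) + 1) * (B + 1) * (2 * avg2 A B f - YTD.avg B (f 0) - YTD.avg B (f A)) ≤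
      ((A : ℝ) + 1) * (B + 1) * ((2 * (A : ℝ) + 1) * (2 * d)) :=
    mul_le_mul_of_nonneg_left D' (by positivity)
  refine p1.trans ?_
  have p2 : ((A : ℝ) + 1) * (B + 1) ≤ (41 * x) * (41 * x) :=
    mul_le_mul bA' bB' (by positivity) (by positivity)
  have p3 : (2 * (A : ℝ) + 1) * (2 * d) ≤ (82 * x) * (2 * d) :=
    mul_le_mul_of_nonneg_right (by linarith) (by positivity)
  have p4 : ((A : ℝ) + 1) * (B + 1) * ((2 * (A : ℝ) + 1) * (2 * d)) ≤
      ((41 * x) * (41 * x)) * ((82 * x) * (2 * d)) :=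
    mul_le_mul p2 p3 (by positivity) (by positivity)
  refine p4.trans ?_
  have e8 : (8 : ℝ) ^ k = 2 ^ k * 2 ^ k * 2 ^ k := by rw [← mul_pow, ← mul_pow]; norm_num
  have e9 : ((41 * x) * (41 * x)) * ((82 * x) * (2 * d)) = 17643776 * (q ^ 3 * 8 ^ k * d) := by
    rw [e8, hx]
    ring
  rw [e9]
  have : (0 : ℝ) ≤ q ^ 3 * 8 ^ k * d := by positivity
  linarith

end Fam3

end Pool.Agent.YTD


end

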