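import Pool.Agent.YTDM.P10
import Pool.Agent.YTDM.P11

/- source: Pool.Agent.YTD.AvgPsi -/

/-!
The envelope of the averages of an affine family.
-/

namespace Pool.Agent.YTD

open Finset Filter

theorem avg_id (A : ℕ) : avg A (fun a => (a : ℝ)) = A / 2 := by
  unfold avg
  have h : ∀ n : ℕ, ∑ a ∈ range (n + 1), (a : ℝ) = n * (n + 1) / 2 := by
    intro n
    induction n with
    | zero => simp
    | succ n ih =>
      rw [sum_range_succ, ih]
      push_cast
      ring
  rw [h]
  have : (0 : ℝ) < A + 1 := by positivity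
  field_simp

theorem avg_end_le (A : ℕ) : avg A (fun a => if a = 0 ∨ a = A then (1 : ℝ) else 0) ≤ 2 / (A + 1) := by
  unfold avg
  apply div_le_div_of_nonneg_right _ (by positivity)
  rw [← sum_filter, sum_const, nsmul_eq_mul, mul_one]
  have h : (range (A + 1)).filter (fun a => a = 0 ∨ a = A) ⊆ {0, A} := by
    intro a ha
    rw [mem_filter] at ha
    simp only [mem_insert, mem_singleton]
    exact ha.2
  have h2 := (card_le_card h).trans (card_le_two)
  exact_mod_cast h2

theorem avg2_lin (A B : ℕ) (α β c : ℝ) :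
    avg2 A B (fun a b => α * a + β * b + c) = α * (A / 2) + β * (B / 2) + c := by
  have h1 : ∀ a : ℕ, avg B (fun b => α * (a : ℝ) + β * b + c) = α * a + (β * (B / 2) + c) := by
    intro a
    have e : (fun b : ℕ => α * (a : ℝ) + β * b + c) = fun b : ℕ => (α * a + c) + β * (b : ℝ) := by
      funext b
      ring
    rw [e, avg_add, avg_const, avg_mul, avg_id]
    ring
  unfold avg2
  simp only [h1]
  rw [avg_add, avg_mul, avg_id, avg_const]
  ring

theorem avg2_close {A B : ℕ} {f : ℕ → ℕ → ℝ} {α β c E : ℝ} (hE : 0 ≤ E)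
    (h1 : ∀ a b, 0 < a → a < A → 0 < b → b < B → f a b = α * a + β * b + c)
    (h2 : ∀ a ≤ A, ∀ b ≤ B, |f a b - (α * a + β * b + c)| ≤ E) :
    |avg2 A B f - (α * (A / 2) + β * (B / 2) + c)| ≤ E * (2 / (A + 1) + 2 / (B + 1)) := by
  set d : ℕ → ℝ := fun a => if a = 0 ∨ a = A then (1 : ℝ) else 0 with hd
  set d' : ℕ → ℝ := fun b => if b = 0 ∨ b = B then (1 : ℝ) else 0 with hd'
  have hd0 : ∀ a, 0 ≤ d a := by
    intro a
    simp only [hd]
    split_ifs <;> norm_num
  have hd0' : ∀ a, 0 ≤ d' a := by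
    intro a
    simp only [hd']
    split_ifs <;> norm_num
  have hpt : ∀ a ≤ A, ∀ b ≤ B, |f a b - (α * a + β * b + c)| ≤ E * (d a + d' b) := by
    intro a ha b hb
    by_cases h3 : a = 0 ∨ a = A
    · have : d a = 1 := by simp only [hd]; rw [if_pos h3]
      refine (h2 a ha b hb).trans ?_
      rw [this]
      nlinarith [hd0' b]
    by_cases h4 : b = 0 ∨ b = B
    · have : d' b = 1 := by simp only [hd']; rw [if_pos h4]
      refine (h2 a ha b hb).trans ?_
      rw [this]
      nlinarith [hd0 a]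
    push Not at h3 h4
    rw [h1 a b (by omega) (by omega) (by omega) (by omega), sub_self, abs_zero]
    have := hd0 a
    have := hd0' b
    positivity
  have hav : avg2 A B (fun a b => d a + d' b) ≤ 2 / (A + 1) + 2 / (B + 1) := by
    rw [avg2_add]
    have e1 : avg2 A B (fun a _ => d a) = avg A d := by
      unfold avg2
      simp only [avg_const]
    have e2 : avg2 A B (fun _ b => d' b) = avg B d' := by
      unfold avg2
      rw [avg_const]
    rw [e1, e2]
    exact add_le_add (avg_end_le A) (avg_end_le B)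
  have up : avg2 A B f ≤ avg2 A B (fun a b => (α * a + β * b + c) + E * (d a + d' b)) := by
    apply avg2_mono
    intro a ha b hb
    have := (abs_le.1 (hpt a ha b hb)).2
    linarith
  have lo : avg2 A B (fun a b => (α * a + β * b + c) + (-E) * (d a + d' b)) ≤ avg2 A B f := by
    apply avg2_mono
    intro a ha b hb
    have := (abs_le.1 (hpt a ha b hb)).1
    linarith
  rw [avg2_add A B (fun a b => α * (a : ℝ) + β * b + c) (fun a b => E * (d a + d' b)), avg2_lin,
    avg2_mul] at up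
  rw [avg2_add A B (fun a b => α * (a : ℝ) + β * b + c) (fun a b => (-E) * (d a + d' b)), avg2_lin,
    avg2_mul] at lo
  have h5 := mul_le_mul_of_nonneg_left hav hE
  rw [abs_le]
  constructor <;> linarith

/-- (A) -/
theorem Fam3.avg_ψ {q : ℕ} (hq : 0 < q) (F : Fam3 (4 * q)) {α β : ℝ} {u : ℕ → ℤ → ℝ}
    (H : ∀ k j a b, Int3 (4 * q) k j a b → F.m k j a b = α * a + β * b + u k j)
    {k : ℕ} {j : ℤ} (hj : |j| < 5 * ((4 * q : ℕ) : ℤ) * 2 ^ k) :
    F.env.avg.ψ k j = α * ((25 * (4 * q) * 2 ^ k + 3 * j) / 2) +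
      β * ((25 * (4 * q) * 2 ^ k - 3 * j) / 2) + u k j := by
  have hQ : 0 < 4 * q := by positivity
  have hpow : ∀ i : ℕ, |2 ^ i * j| < 5 * ((4 * q : ℕ) : ℤ) * 2 ^ (k + i) := by
    intro i
    rw [abs_mul, abs_of_nonneg (by positivity : (0 : ℤ) ≤ 2 ^ i), pow_add]
    have := mul_lt_mul_of_pos_left hj (by positivity : (0 : ℤ) < 2 ^ i)
    linarith
  have hpos : ∀ k : ℕ, (1 : ℤ) ≤ ((4 * q : ℕ) : ℤ) * 2 ^ k := by
    intro k
    have p1 : (1 : ℤ) ≤ ((4 * q : ℕ) : ℤ) := by exact_mod_cast hQ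
    have p2 : (1 : ℤ) ≤ 2 ^ k := by exact_mod_cast Nat.one_le_two_pow
    nlinarith
  have hu : ∀ i : ℕ, u (k + i) (2 ^ i * j) = 2 ^ i * u k j := by
    intro i
    have hp := hpos k
    have h1 : Int3 (4 * q) k j 1 1 := int3_small hQ hj one_pos (by linarith) one_pos (by linarith)
    have h2 := F.m_pow h1.toP3 i
    have h3 : Int3 (4 * q) (k + i) (2 ^ i * j) (2 ^ i * 1) (2 ^ i * 1) := by
      have h4 : (2 : ℤ) ^ i * 1 ≤ 10 * ((4 * q : ℕ) : ℤ) * 2 ^ (k + i) := by
        rw [pow_add, mul_one]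
        have : (0 : ℤ) < 2 ^ i := by positivity
        nlinarith
      exact int3_small hQ (hpow i) (by positivity) h4 (by positivity) h4
    rw [H _ _ _ _ h1, H _ _ _ _ h3] at h2
    push_cast at h2
    linarith
  set E₀ : ℝ := F.C * 2 ^ k + |α| * (25 * (4 * q) * 2 ^ k + 3 * j) +
    |β| * (25 * (4 * q) * 2 ^ k - 3 * j) + |u k j| with hE₀
  set target : ℝ := α * ((25 * (4 * q) * 2 ^ k + 3 * j) / 2) +
      β * ((25 * (4 * q) * 2 ^ k - 3 * j) / 2) + u k j with htar
  have hjr : |(j : ℝ)| < 5 * (4 * q) * 2 ^ k := by exact_mod_cast hj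
  have hjr' := abs_lt.1 hjr
  have hq1 : (1 : ℝ) ≤ q := by exact_mod_cast hq
  have h2k : (1 : ℝ) ≤ 2 ^ k := one_le_pow₀ (by norm_num)
  have hq2 : (1 : ℝ) ≤ q * 2 ^ k := by nlinarith
  have hA1 : (1 : ℝ) ≤ 25 * (4 * q) * 2 ^ k + 3 * j := by linarith [hjr'.1]
  have hB1 : (1 : ℝ) ≤ 25 * (4 * q) * 2 ^ k - 3 * j := by linarith [hjr'.2]
  have hC := F.C_nonneg
  have hE₀0 : 0 ≤ E₀ := by
    rw [hE₀]
    have := abs_nonneg α
    have := abs_nonneg β
    have := abs_nonneg (u k j)
    positivity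
  have hclose : ∀ i : ℕ, |F.env.avg.ap k j i - target| ≤ E₀ * 4 * (1 / 2) ^ i := by
    intro i
    set K := k + i with hK
    set J := 2 ^ i * j with hJ
    have hJr : |J| ≤ 5 * q * ((2 ^ (K + 2) : ℕ) : ℤ) := rng4.2 (hpow i).le
    set A := AA q (2 ^ (K + 2)) J with hA
    set B := BB q (2 ^ (K + 2)) J with hB
    have hAc : (A : ℤ) = 25 * ((4 * q : ℕ) : ℤ) * 2 ^ K + 3 * J := by
      rw [hA, YTD.AA_cast hJr, pow_add]
      push_cast
      ring
    have hBc : (B : ℤ) = 25 * ((4 * q : ℕ) : ℤ) * 2 ^ K - 3 * J := by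
      rw [hB, YTD.BB_cast hJr, pow_add]
      push_cast
      ring
    have hAr : (A : ℝ) = 2 ^ i * (25 * (4 * q) * 2 ^ k + 3 * j) := by
      have : (A : ℝ) = 25 * (4 * q) * 2 ^ K + 3 * (2 ^ i * j) := by
        rw [hJ] at hAc
        exact_mod_cast hAc
      rw [this, hK, pow_add]
      ring
    have hBr : (B : ℝ) = 2 ^ i * (25 * (4 * q) * 2 ^ k - 3 * j) := by
      have : (B : ℝ) = 25 * (4 * q) * 2 ^ K - 3 * (2 ^ i * j) := by
        rw [hJ] at hBc
        exact_mod_cast hBc
      rw [this, hK, pow_add]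
      ring
    have p2 : (0 : ℝ) < 2 ^ i := by positivity
    have h1 : ∀ a b : ℕ, 0 < a → a < A → 0 < b → b < B →
        F.m K J a b = α * a + β * b + 2 ^ i * u k j := by
      intro a b ha ha' hb hb'
      have hin : Int3 (4 * q) K J a b := by
        refine ⟨hpow i, by exact_mod_cast ha, ?_, by exact_mod_cast hb, ?_⟩
        · rw [← hAc]
          exact_mod_cast ha'
        · rw [← hBc]
          exact_mod_cast hb'
      rw [H _ _ _ _ hin, hu i]
      push_cast
      ring
    have h2 : ∀ a ≤ A, ∀ b ≤ B,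
        |F.m K J a b - (α * a + β * b + 2 ^ i * u k j)| ≤ 2 ^ i * E₀ := by
      intro a ha b hb
      have hin : P3 (4 * q) K J a b := by
        refine ⟨(hpow i).le, by positivity, ?_, by positivity, ?_⟩
        · rw [← hAc]
          exact_mod_cast ha
        · rw [← hBc]
          exact_mod_cast hb
      have m1 := F.m_nonneg hin
      have m2 := F.m_le hin
      have t1 := abs_sub (F.m K J a b) (α * a + β * b + 2 ^ i * u k j)
      have t2 := abs_add_le (α * (a : ℝ) + β * b) (2 ^ i * u k j)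
      have t3 := abs_add_le (α * (a : ℝ)) (β * b)
      have t4 : |α * (a : ℝ)| ≤ |α| * A := by
        rw [abs_mul, Nat.abs_cast]
        exact mul_le_mul_of_nonneg_left (by exact_mod_cast ha) (abs_nonneg _)
      have t5 : |β * (b : ℝ)| ≤ |β| * B := by
        rw [abs_mul, Nat.abs_cast]
        exact mul_le_mul_of_nonneg_left (by exact_mod_cast hb) (abs_nonneg _)
      have t6 : |2 ^ i * u k j| = 2 ^ i * |u k j| := by
        rw [abs_mul, abs_of_pos p2]
      have t7 : |F.m K J a b| ≤ F.C * 2 ^ K := by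
        rw [abs_of_nonneg m1]
        exact m2
      have e : 2 ^ i * E₀ = F.C * 2 ^ K + |α| * A + |β| * B + 2 ^ i * |u k j| := by
        rw [hE₀, hAr, hBr, hK, pow_add]
        ring
      rw [e]
      rw [t6] at t2
      linarith
    have h3 := avg2_close (by positivity) h1 h2
    have e1 : α * ((A : ℝ) / 2) + β * (B / 2) + 2 ^ i * u k j = 2 ^ i * target := by
      rw [htar, hAr, hBr]
      ring
    rw [e1] at h3
    have e2 : F.env.avg.ap k j i = avg2 A B (fun a b => F.m K J a b) / 2 ^ i := rfl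
    have e3 : F.env.avg.ap k j i - target =
        (avg2 A B (fun a b => F.m K J a b) - 2 ^ i * target) / 2 ^ i := by
      rw [e2]
      field_simp
    rw [e3, abs_div, abs_of_pos p2, div_le_iff₀ p2]
    refine h3.trans ?_
    have g1 : 2 / ((A : ℝ) + 1) ≤ 2 / 2 ^ i := by
      apply div_le_div_of_nonneg_left (by norm_num) p2
      rw [hAr]
      nlinarith
    have g2 : 2 / ((B : ℝ) + 1) ≤ 2 / 2 ^ i := by
      apply div_le_div_of_nonneg_left (by norm_num) p2
      rw [hBr]
      nlinarith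
    have e4 : (1 / 2 : ℝ) ^ i = 1 / 2 ^ i := by rw [one_div, inv_pow, one_div]
    have g3 : 2 ^ i * E₀ * (2 / ((A : ℝ) + 1) + 2 / (B + 1)) ≤ 2 ^ i * E₀ * (2 / 2 ^ i + 2 / 2 ^ i) :=
      mul_le_mul_of_nonneg_left (add_le_add g1 g2) (by positivity)
    refine g3.trans (le_of_eq ?_)
    rw [e4]
    field_simp
    ring
  have hlim : Tendsto (fun i : ℕ => F.env.avg.ap k j i) atTop (nhds target) := by
    rw [tendsto_iff_norm_sub_tendsto_zero]
    have t : Tendsto (fun i : ℕ => E₀ * 4 * (1 / 2 : ℝ) ^ i) atTop (nhds 0) := by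
      have := (tendsto_pow_atTop_nhds_zero_of_lt_one (r := (1 / 2 : ℝ)) (by norm_num)
        (by norm_num)).const_mul (E₀ * 4)
      simpa using this
    exact squeeze_zero (fun i => norm_nonneg _) hclose t
  exact tendsto_nhds_unique (F.env.avg.tendsto_ψ hj.le) hlim

end Pool.Agent.YTD
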