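import Pool.Agent.YTDM.P03

/- source: Pool.Agent.YTD.Initial -/

section

/-!
Initial spaces of subspaces of polynomial rings with respect to a monomial order.
-/

namespace Pool.Agent.YTD

open MvPolynomial Module

variable {σ : Type} {K : Type} [Field K] [Algebra ℂ K]

/-- The coefficient at `e`, as a `ℂ`-linear map. -/
noncomputable def coeffLin (e : σ →₀ ℕ) : MvPolynomial σ K →ₗ[ℂ] K :=
  (MvPolynomial.lcoeff K e).restrictScalars ℂ

@[simp] theorem coeffLin_apply (e : σ →₀ ℕ) (f : MvPolynomial σ K) :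
    coeffLin e f = f.coeff e := rfl

/-- polynomials all of whose exponents are at most `e`. -/
def leDeg (m : MonomialOrder σ) (e : σ →₀ ℕ) : Submodule ℂ (MvPolynomial σ K) where
  carrier := {f | ∀ e', f.coeff e' ≠ 0 → m.toSyn e' ≤ m.toSyn e}
  zero_mem' := by
    intro e' h
    simp at h
  add_mem' := by
    intro f g hf hg e' h
    by_cases h1 : f.coeff e' = 0
    · apply hg
      intro h2
      apply h
      rw [coeff_add, h1, h2, add_zero]
    · exact hf e' h1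
  smul_mem' := by
    intro c f hf e' h
    apply hf
    intro h1
    apply h
    rw [coeff_smul, h1, smul_zero]

theorem mem_leDeg {m : MonomialOrder σ} {e : σ →₀ ℕ} {f : MvPolynomial σ K} :
    f ∈ leDeg m e ↔ ∀ e', f.coeff e' ≠ 0 → m.toSyn e' ≤ m.toSyn e := Iff.rfl

/-- The space of leading coefficients at `e` of the elements of `U` of degree at most `e`. -/
noncomputable def ini (m : MonomialOrder σ) (U : Submodule ℂ (MvPolynomial σ K)) (e : σ →₀ ℕ) :
    Submodule ℂ K := (U ⊓ leDeg m e).map (coeffLin e)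

theorem mem_ini {m : MonomialOrder σ} {U : Submodule ℂ (MvPolynomial σ K)} {e : σ →₀ ℕ} {c : K} :
    c ∈ ini m U e ↔ ∃ f ∈ U, (∀ e', f.coeff e' ≠ 0 → m.toSyn e' ≤ m.toSyn e) ∧ f.coeff e = c := by
  constructor
  · rintro ⟨f, ⟨hf, hf'⟩, rfl⟩
    exact ⟨f, hf, hf', rfl⟩
  · rintro ⟨f, hf, hf', rfl⟩
    exact ⟨f, ⟨hf, hf'⟩, rfl⟩

theorem ini_mono {m : MonomialOrder σ} {U U' : Submodule ℂ (MvPolynomial σ K)} (h : U ≤ U')
    (e : σ →₀ ℕ) : ini m U e ≤ ini m U' e :=
  Submodule.map_mono (inf_le_inf_right _ h)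

theorem ini_bot {m : MonomialOrder σ} (e : σ →₀ ℕ) :
    ini m (⊥ : Submodule ℂ (MvPolynomial σ K)) e = ⊥ := by
  rw [eq_bot_iff]
  intro c hc
  obtain ⟨f, hf, _, rfl⟩ := mem_ini.1 hc
  rw [Submodule.mem_bot] at hf
  subst hf
  simp

theorem degree_le_of_coeff {m : MonomialOrder σ} {e : σ →₀ ℕ} {f : MvPolynomial σ K}
    (h : ∀ e', f.coeff e' ≠ 0 → m.toSyn e' ≤ m.toSyn e) : m.toSyn (m.degree f) ≤ m.toSyn e := by
  by_cases hf : f = 0
  · subst hf
    rw [MonomialOrder.degree_zero, map_zero]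
    exact MonomialOrder.zero_le m _
  · apply h
    have := MonomialOrder.degree_mem_support (m := m) hf
    rwa [MvPolynomial.mem_support_iff] at this

theorem ini_mul {m : MonomialOrder σ} {U U' U'' : Submodule ℂ (MvPolynomial σ K)}
    (H : ∀ f ∈ U, ∀ g ∈ U', f * g ∈ U'') {e e' : σ →₀ ℕ} {c c' : K}
    (hc : c ∈ ini m U e) (hc' : c' ∈ ini m U' e') : c * c' ∈ ini m U'' (e + e') := by
  obtain ⟨f, hf, hf', rfl⟩ := mem_ini.1 hc
  obtain ⟨g, hg, hg', rfl⟩ := mem_ini.1 hc'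
  rw [mem_ini]
  have h1 := degree_le_of_coeff hf'
  have h2 := degree_le_of_coeff hg'
  refine ⟨f * g, H f hf g hg, ?_, ?_⟩
  · intro e'' h
    have h3 : m.toSyn e'' ≤ m.toSyn (m.degree (f * g)) := by
      apply MonomialOrder.le_degree
      rwa [MvPolynomial.mem_support_iff]
    refine h3.trans ?_
    refine (MonomialOrder.degree_mul_le (m := m)).trans ?_
    rw [map_add, map_add]
    exact add_le_add h1 h2
  · exact MonomialOrder.coeff_mul_of_add_of_degree_le h1 h2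

theorem finrank_eq_sum_ini (m : MonomialOrder σ) (E : Finset (σ →₀ ℕ)) :
    ∀ (U : Submodule ℂ (MvPolynomial σ K)), FiniteDimensional ℂ U →
    (∀ f ∈ U, ∀ e, f.coeff e ≠ 0 → e ∈ E) → finrank ℂ U = ∑ e ∈ E, finrank ℂ (ini m U e) := by
  classical
  induction hn : E.card using Nat.strong_induction_on generalizing E with
  | _ n ih =>
    intro U hfin hU
    rcases E.eq_empty_or_nonempty with rfl | hne
    · have : U = ⊥ := by
        rw [eq_bot_iff]
        intro f hf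
        rw [Submodule.mem_bot]
        ext e
        by_contra h
        have := hU f hf e h
        simp at this
      rw [this]
      simp
    · obtain ⟨e₀, he₀, hmax⟩ := E.exists_max_image (fun e => m.toSyn e) hne
      -- the restriction of the coefficient map
      let φ : U →ₗ[ℂ] K := (coeffLin e₀).comp U.subtype
      have hrange : LinearMap.range φ = ini m U e₀ := by
        ext c
        rw [mem_ini]
        constructor
        · rintro ⟨f, rfl⟩
          exact ⟨f, f.2, fun e' he' => hmax e' (hU f f.2 e' he'), rfl⟩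
        · rintro ⟨f, hf, _, rfl⟩
          exact ⟨⟨f, hf⟩, rfl⟩
      set U' : Submodule ℂ (MvPolynomial σ K) := U ⊓ LinearMap.ker (coeffLin e₀) with hU'
      have hker : finrank ℂ (LinearMap.ker φ) = finrank ℂ U' := by
        have e1 : (LinearMap.ker φ).map U.subtype = U' := by
          ext f
          constructor
          · rintro ⟨g, hg, rfl⟩
            exact ⟨g.2, hg⟩
          · rintro ⟨hf, hf'⟩
            exact ⟨⟨f, hf⟩, hf', rfl⟩
        rw [← e1]
        exact (LinearEquiv.finrank_eq (Submodule.equivMapOfInjective U.subtype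
          U.injective_subtype (LinearMap.ker φ)))
      have h1 := LinearMap.finrank_range_add_finrank_ker φ
      rw [hrange, hker] at h1
      have hfin' : FiniteDimensional ℂ U' := Submodule.finiteDimensional_of_le inf_le_left
      have h2 := ih (E.erase e₀).card (by
        rw [Finset.card_erase_of_mem he₀]
        have := Finset.card_pos.2 hne
        omega) (E.erase e₀) rfl U' hfin' (by
        intro f hf e he
        rw [Finset.mem_erase]
        refine ⟨?_, hU f hf.1 e he⟩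
        rintro rfl
        exact he hf.2)
      have h3 : ∀ e ∈ E.erase e₀, finrank ℂ (ini m U' e) = finrank ℂ (ini m U e) := by
        intro e he
        have : ini m U' e = ini m U e := by
          apply le_antisymm (ini_mono inf_le_left e)
          intro c hc
          obtain ⟨f, hf, hf', rfl⟩ := mem_ini.1 hc
          rw [mem_ini]
          refine ⟨f, ⟨hf, ?_⟩, hf', rfl⟩
          show f.coeff e₀ = 0
          by_contra h
          have h4 := hf' e₀ h
          have h5 := hmax e (Finset.mem_of_mem_erase he)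
          have h6 : e = e₀ := m.toSyn.injective (le_antisymm h5 h4)
          exact (Finset.ne_of_mem_erase he) h6
        rw [this]
      rw [Finset.sum_congr rfl h3] at h2
      rw [← Finset.add_sum_erase E _ he₀, ← h2, h1]

end Pool.Agent.YTD


end

/- source: Pool.Agent.YTD.Expo -/

section

/-!
The exponents of the monomials occurring in the section rings.
-/

namespace Pool.Agent.YTD

open Finset Module MvPolynomial

variable {K : Type} [Field K] [Algebra ℂ K]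

/-- the exponent with index `j` and second coordinates `a, b`. -/
noncomputable def expo (q N : ℕ) (j : ℤ) (a b : ℕ) : Fin 4 →₀ ℕ :=
  Finsupp.equivFunOnFinite.symm ![AA q N j - a, a, BB q N j - b, b]

theorem expo_0 (q N : ℕ) (j : ℤ) (a b : ℕ) : expo q N j a b 0 = AA q N j - a := rfl
theorem expo_1 (q N : ℕ) (j : ℤ) (a b : ℕ) : expo q N j a b 1 = a := rfl
theorem expo_2 (q N : ℕ) (j : ℤ) (a b : ℕ) : expo q N j a b 2 = BB q N j - b := rfl
theorem expo_3 (q N : ℕ) (j : ℤ) (a b : ℕ) : expo q N j a b 3 = b := rfl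

theorem expo_add {q N N' : ℕ} {j j' : ℤ} {a a' b b' : ℕ} (h : InR q N j a b)
    (h' : InR q N' j' a' b') :
    expo q N j a b + expo q N' j' a' b' = expo q (N + N') (j + j') (a + a') (b + b') := by
  have h1 := (inR_iff h.1).1 h
  have h1' := (inR_iff h'.1).1 h'
  have h2 := AA_add h.1 h'.1
  have h3 := BB_add h.1 h'.1
  ext i
  rw [Finsupp.add_apply]
  fin_cases i
  · show expo q N j a b 0 + expo q N' j' a' b' 0 = expo q (N + N') (j + j') (a + a') (b + b') 0
    rw [expo_0, expo_0, expo_0, h2]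
    omega
  · rfl
  · show expo q N j a b 2 + expo q N' j' a' b' 2 = expo q (N + N') (j + j') (a + a') (b + b') 2
    rw [expo_2, expo_2, expo_2, h3]
    omega
  · rfl

theorem expo_sum_x {q N : ℕ} {j : ℤ} {a b : ℕ} (h : InR q N j a b) :
    (expo q N j a b 0 : ℤ) + expo q N j a b 1 = 25 * q * N + 3 * j := by
  have h1 := (inR_iff h.1).1 h
  rw [expo_0, expo_1, ← AA_cast h.1]
  omega

theorem expo_sum_y {q N : ℕ} {j : ℤ} {a b : ℕ} (h : InR q N j a b) :
    (expo q N j a b 2 : ℤ) + expo q N j a b 3 = 25 * q * N - 3 * j := by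
  have h1 := (inR_iff h.1).1 h
  rw [expo_2, expo_3, ← BB_cast h.1]
  omega

theorem exists_expo {q N : ℕ} {j : ℤ} (hj : |j| ≤ 5 * q * N) {e : Fin 4 →₀ ℕ}
    (hx : (e 0 : ℤ) + e 1 = 25 * q * N + 3 * j) (hy : (e 2 : ℤ) + e 3 = 25 * q * N - 3 * j) :
    InR q N j (e 1) (e 3) ∧ e = expo q N j (e 1) (e 3) := by
  refine ⟨⟨hj, by omega, by omega⟩, ?_⟩
  rw [← AA_cast hj] at hx
  rw [← BB_cast hj] at hy
  ext i
  fin_cases i
  · show e 0 = expo q N j (e 1) (e 3) 0
    rw [expo_0]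
    omega
  · rfl
  · show e 2 = expo q N j (e 1) (e 3) 2
    rw [expo_2]
    omega
  · rfl

open Classical in
/-- all exponents at level `N`. -/
noncomputable def Eset (q N : ℕ) : Finset (Fin 4 →₀ ℕ) :=
  (Icc (-((5 * q * N : ℕ) : ℤ)) ((5 * q * N : ℕ) : ℤ)).biUnion fun j =>
    (range (AA q N j + 1) ×ˢ range (BB q N j + 1)).image fun p => expo q N j p.1 p.2

theorem mem_Icc_iff' {q N : ℕ} {j : ℤ} :
    j ∈ Icc (-((5 * q * N : ℕ) : ℤ)) ((5 * q * N : ℕ) : ℤ) ↔ |j| ≤ 5 * q * N := by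
  rw [mem_Icc, abs_le]
  push_cast
  rfl

theorem mem_Eset {q N : ℕ} {e : Fin 4 →₀ ℕ} :
    e ∈ Eset q N ↔ ∃ j a b, InR q N j a b ∧ e = expo q N j a b := by
  classical
  unfold Eset
  rw [mem_biUnion]
  constructor
  · rintro ⟨j, hj, h⟩
    obtain ⟨p, hp, rfl⟩ := mem_image.1 h
    obtain ⟨h1, h2⟩ := mem_product.1 hp
    have h1 := mem_range.1 h1
    have h2 := mem_range.1 h2
    exact ⟨j, p.1, p.2, (inR_iff (mem_Icc_iff'.1 hj)).2 ⟨by omega, by omega⟩, rfl⟩
  · rintro ⟨j, a, b, h, rfl⟩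
    refine ⟨j, mem_Icc_iff'.2 h.1, ?_⟩
    rw [mem_image]
    have := (inR_iff h.1).1 h
    refine ⟨(a, b), ?_, rfl⟩
    rw [mem_product, mem_range, mem_range]
    exact ⟨by omega, by omega⟩

theorem sum_Eset (q N : ℕ) (f : (Fin 4 →₀ ℕ) → ℝ) :
    ∑ e ∈ Eset q N, f e = ∑ j ∈ Icc (-((5 * q * N : ℕ) : ℤ)) ((5 * q * N : ℕ) : ℤ),
      ∑ a ∈ range (AA q N j + 1), ∑ b ∈ range (BB q N j + 1), f (expo q N j a b) := by
  classical
  unfold Eset
  rw [sum_biUnion]
  · apply sum_congr rfl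
    intro j hj
    rw [sum_image, sum_product]
    intro p _ p' _ h
    have h1 : expo q N j p.1 p.2 1 = expo q N j p'.1 p'.2 1 := by
      simp only at h
      rw [h]
    have h2 : expo q N j p.1 p.2 3 = expo q N j p'.1 p'.2 3 := by
      simp only at h
      rw [h]
    exact Prod.ext h1 h2
  · intro j hj j' hj' hne
    rw [Function.onFun, disjoint_left]
    intro e he he'
    apply hne
    obtain ⟨p, hp, rfl⟩ := mem_image.1 he
    obtain ⟨p', hp', h⟩ := mem_image.1 he'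
    obtain ⟨h1, h2⟩ := mem_product.1 hp
    obtain ⟨h1', h2'⟩ := mem_product.1 hp'
    rw [mem_range] at h1 h2 h1' h2'
    have g1 := expo_sum_x ((inR_iff (mem_Icc_iff'.1 hj)).2
      ⟨Nat.lt_succ_iff.1 h1, Nat.lt_succ_iff.1 h2⟩)
    have g2 := expo_sum_x ((inR_iff (mem_Icc_iff'.1 hj')).2
      ⟨Nat.lt_succ_iff.1 h1', Nat.lt_succ_iff.1 h2'⟩)
    rw [h] at g2
    linarith

namespace Datum

variable (T : Datum K)

theorem coeff_mem_V {q : ℕ} {D₀ : T.X.Pt →₀ ℤ} {N : ℕ} {f : MvPolynomial (Fin 4) K}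
    (hf : f ∈ T.sec q D₀ N) {j : ℤ} {a b : ℕ} (h : InR q N j a b) :
    f.coeff (expo q N j a b) ∈ T.V q D₀ N j := by
  by_cases h0 : f.coeff (expo q N j a b) = 0
  · rw [h0]
    exact zero_mem _
  · obtain ⟨j', _, h2, _, h4⟩ := hf _ h0
    rw [expo_sum_x h] at h2
    have : j' = j := by linarith
    rwa [this] at h4

theorem mem_Eset_of_coeff {q : ℕ} {D₀ : T.X.Pt →₀ ℤ} {N : ℕ} {f : MvPolynomial (Fin 4) K}
    (hf : f ∈ T.sec q D₀ N) {e : Fin 4 →₀ ℕ} (h0 : f.coeff e ≠ 0) : e ∈ Eset q N := by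
  obtain ⟨j', h1, h2, h3, _⟩ := hf _ h0
  rw [mem_Eset]
  obtain ⟨g1, g2⟩ := exists_expo h1 h2 h3
  exact ⟨j', _, _, g1, g2⟩

theorem monomial_mem_sec {q : ℕ} {D₀ : T.X.Pt →₀ ℤ} {N : ℕ} {j : ℤ} {a b : ℕ}
    (h : InR q N j a b) {c : K} (hc : c ∈ T.V q D₀ N j) :
    monomial (expo q N j a b) c ∈ T.sec q D₀ N := by
  classical
  intro e he
  rw [coeff_monomial] at he ⊢
  by_cases h1 : expo q N j a b = e
  · rw [if_pos h1]
    subst h1
    exact ⟨j, h.1, expo_sum_x h, expo_sum_y h, hc⟩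
  · rw [if_neg h1] at he
    exact (he rfl).elim

theorem ini_sec (m : MonomialOrder (Fin 4)) {q : ℕ} {D₀ : T.X.Pt →₀ ℤ} {N : ℕ} {j : ℤ} {a b : ℕ}
    (h : InR q N j a b) : ini m (T.sec q D₀ N) (expo q N j a b) = T.V q D₀ N j := by
  classical
  apply le_antisymm
  · intro c hc
    obtain ⟨f, hf, _, rfl⟩ := mem_ini.1 hc
    exact T.coeff_mem_V hf h
  · intro c hc
    rw [mem_ini]
    refine ⟨monomial (expo q N j a b) c, T.monomial_mem_sec h hc, ?_, ?_⟩
    · intro e' he'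
      rw [coeff_monomial] at he'
      by_cases h1 : expo q N j a b = e'
      · rw [h1]
      · rw [if_neg h1] at he'
        exact (he' rfl).elim
    · rw [coeff_monomial, if_pos rfl]

/-- monomials with a fixed exponent, as a linear map in the coefficient. -/
noncomputable def monoLin (e : Fin 4 →₀ ℕ) : K →ₗ[ℂ] MvPolynomial (Fin 4) K :=
  (MvPolynomial.monomial e).restrictScalars ℂ

theorem monoLin_apply (e : Fin 4 →₀ ℕ) (c : K) : monoLin e c = monomial e c := rfl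

theorem finite_sec (P₀ : T.X.Pt) (q : ℕ) (D₀ : T.X.Pt →₀ ℤ) (N : ℕ) :
    FiniteDimensional ℂ (T.sec q D₀ N) := by
  classical
  let U : Submodule ℂ (MvPolynomial (Fin 4) K) :=
    (Icc (-((5 * q * N : ℕ) : ℤ)) ((5 * q * N : ℕ) : ℤ)).sup fun j =>
      (Eset q N).sup fun e => (T.V q D₀ N j).map (monoLin e)
  have hV : ∀ (j : ℤ) (e : Fin 4 →₀ ℕ),
      FiniteDimensional ℂ ((T.V q D₀ N j).map (monoLin e)) := by
    intro j e
    have : FiniteDimensional ℂ (T.V q D₀ N j) := T.X.finite_L P₀ _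
    infer_instance
  have hU1 : ∀ j : ℤ, FiniteDimensional ℂ
      ((Eset q N).sup fun e => (T.V q D₀ N j).map (monoLin e) :
        Submodule ℂ (MvPolynomial (Fin 4) K)) := by
    intro j
    have := hV j
    exact Submodule.finiteDimensional_finset_sup _ _
  have hU : FiniteDimensional ℂ U := Submodule.finiteDimensional_finset_sup _ _
  have hle : T.sec q D₀ N ≤ U := by
    intro f hf
    rw [f.as_sum]
    apply sum_mem
    intro e he
    have he' := MvPolynomial.mem_support_iff.1 he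
    obtain ⟨j, h1, h2, h3, h4⟩ := hf e he'
    have g1 : (T.V q D₀ N j).map (monoLin e) ≤ (Eset q N).sup fun e =>
      (T.V q D₀ N j).map (monoLin e) :=
      Finset.le_sup (f := fun e => (T.V q D₀ N j).map (monoLin e)) (T.mem_Eset_of_coeff hf he')
    have g2 : ((Eset q N).sup fun e => (T.V q D₀ N j).map (monoLin e)) ≤ U :=
      Finset.le_sup (f := fun j => (Eset q N).sup fun e => (T.V q D₀ N j).map (monoLin e))
        (mem_Icc_iff'.2 h1)
    exact g2 (g1 ⟨_, h4, rfl⟩)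
  exact Submodule.finiteDimensional_of_le hle

/-- dimension of a subspace of the space of sections through its initial spaces. -/
theorem finrank_eq_sum (P₀ : T.X.Pt) (m : MonomialOrder (Fin 4)) {q : ℕ} {D₀ : T.X.Pt →₀ ℤ} {N : ℕ}
    {U : Submodule ℂ (MvPolynomial (Fin 4) K)} (hU : U ≤ T.sec q D₀ N) :
    (finrank ℂ U : ℝ) = ∑ j ∈ Icc (-((5 * q * N : ℕ) : ℤ)) ((5 * q * N : ℕ) : ℤ),
      ∑ a ∈ range (AA q N j + 1), ∑ b ∈ range (BB q N j + 1),
        (finrank ℂ (ini m U (expo q N j a b)) : ℝ) := by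
  rw [← sum_Eset q N (fun e => (finrank ℂ (ini m U e) : ℝ))]
  have := T.finite_sec P₀ q D₀ N
  have hfin : FiniteDimensional ℂ U := Submodule.finiteDimensional_of_le hU
  rw [finrank_eq_sum_ini m (Eset q N) U hfin (fun f hf e he => T.mem_Eset_of_coeff (hU hf) he)]
  push_cast
  rfl

theorem dvs_mul (r q : ℕ) (D₀ : T.X.Pt →₀ ℤ) (N : ℕ) (j : ℤ) :
    T.dvs (r * q) (r • D₀) N j = T.dvs q D₀ (r * N) j := by
  unfold dvs
  have e1 : N • r • D₀ = (r * N) • D₀ := by rw [smul_smul, mul_comm]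
  have e2 : 4 * ((r * q : ℕ) : ℤ) * N = 4 * (q : ℤ) * ((r * N : ℕ) : ℤ) := by push_cast; ring
  rw [e1, e2]

theorem sec_mul (r q : ℕ) (D₀ : T.X.Pt →₀ ℤ) (N : ℕ) :
    T.sec (r * q) (r • D₀) N = T.sec q D₀ (r * N) := by
  have e5 : 5 * ((r * q : ℕ) : ℤ) * N = 5 * (q : ℤ) * ((r * N : ℕ) : ℤ) := by push_cast; ring
  have e25 : 25 * ((r * q : ℕ) : ℤ) * N = 25 * (q : ℤ) * ((r * N : ℕ) : ℤ) := by push_cast; ring
  ext f
  show (∀ e, _) ↔ (∀ e, _)
  rw [e5, e25]
  unfold V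
  simp only [T.dvs_mul r q D₀ N]

end Datum

end Pool.Agent.YTD


end

/- source: Pool.Agent.YTD.Bridge -/

section

/-!
From filtrations of the section ring to torus-graded filtrations.
-/

namespace Pool.Agent.YTD

open Finset Module MvPolynomial Filter

variable {K : Type} [Field K] [Algebra ℂ K]
variable {T : Datum K} {q : ℕ} {D₀ : T.X.Pt →₀ ℤ} {r : ℕ}

namespace Filt

variable (χ : Filt T q D₀ r)

/-- a bound for the filtration. -/
noncomputable def lam : ℕ := χ.bound.choose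

theorem lam_spec (N : ℕ) : χ.F N (-(χ.lam * N)) = T.sec q D₀ (r * N) ∧
    χ.F N (χ.lam * N + 1) = ⊥ := χ.bound.choose_spec N

/-- the graded filtration of initial spaces of `χ`. -/
noncomputable def graded : Graded T (r * q) (r • D₀) where
  Λ := 2 * χ.lam
  W := fun N l j a b => ini (MonomialOrder.lex (σ := Fin 4)) (χ.F N ((l : ℤ) - χ.lam * N))
    (expo (r * q) N j a b)
  W_zero := by
    intro N j a b h
    have e : ((0 : ℕ) : ℤ) - χ.lam * N = -(χ.lam * N) := by simp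
    rw [e, (χ.lam_spec N).1, ← T.sec_mul r q D₀ N, T.ini_sec _ h]
  W_anti := by
    intro N l l' j a b h
    exact ini_mono (χ.anti N _ _ (by
      have : (l : ℤ) ≤ l' := by exact_mod_cast h
      linarith)) _
  W_mul := by
    intro N N' l l' j j' a a' b b' h h' f hf g hg
    rw [← expo_add h h']
    refine ini_mul ?_ hf hg
    intro f hf g hg
    have := χ.mul N N' _ _ f hf g hg
    have e : ((l + l' : ℕ) : ℤ) - χ.lam * ((N + N' : ℕ) : ℤ) =
      ((l : ℤ) - χ.lam * N) + ((l' : ℤ) - χ.lam * N') := by push_cast; ring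
    rw [e]
    exact this
  W_top := by
    intro N l j a b h
    have h1 : χ.F N ((l : ℤ) - χ.lam * N) = ⊥ := by
      rw [eq_bot_iff, ← (χ.lam_spec N).2]
      apply χ.anti
      have : ((2 * χ.lam * N : ℕ) : ℤ) < l := by exact_mod_cast h
      push_cast at this
      linarith
    rw [h1, ini_bot]

theorem graded_Λ : χ.graded.Λ = 2 * χ.lam := rfl

theorem graded_tot (P₀ : T.X.Pt) (N : ℕ) : χ.graded.tot N =
    ∑ l ∈ range (2 * χ.lam * N), (finrank ℂ (χ.F N ((l : ℤ) + 1 - χ.lam * N)) : ℝ) := by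
  have h0 : ∀ (l : ℕ) (j : ℤ) (a b : ℕ), χ.graded.W N (l + 1) j a b =
      ini (MonomialOrder.lex (σ := Fin 4)) (χ.F N ((l : ℤ) + 1 - χ.lam * N))
        (expo (r * q) N j a b) := by
    intro l j a b
    show ini (MonomialOrder.lex (σ := Fin 4)) (χ.F N (((l + 1 : ℕ) : ℤ) - χ.lam * N))
        (expo (r * q) N j a b) = _
    have e : ((l + 1 : ℕ) : ℤ) = (l : ℤ) + 1 := by push_cast; rfl
    rw [e]
  have h1 : ∀ l : ℕ, (finrank ℂ (χ.F N ((l : ℤ) + 1 - χ.lam * N)) : ℝ) =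
      ∑ j ∈ Icc (-((5 * (r * q) * N : ℕ) : ℤ)) ((5 * (r * q) * N : ℕ) : ℤ),
      ∑ a ∈ range (AA (r * q) N j + 1), ∑ b ∈ range (BB (r * q) N j + 1),
        (finrank ℂ (χ.graded.W N (l + 1) j a b) : ℝ) := by
    intro l
    rw [T.finrank_eq_sum P₀ (MonomialOrder.lex (σ := Fin 4)) (q := r * q) (D₀ := r • D₀) (N := N)
      (by rw [T.sec_mul]; exact χ.le N _)]
    refine sum_congr rfl fun j _ => sum_congr rfl fun a _ => sum_congr rfl fun b _ => ?_
    rw [h0]
  unfold Graded.tot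
  rw [graded_Λ]
  rw [sum_congr rfl (fun l _ => h1 l)]
  symm
  rw [sum_comm]
  apply sum_congr rfl
  intro j _
  rw [sum_comm]
  apply sum_congr rfl
  intro a _
  rw [sum_comm]

theorem F_of_le {N : ℕ} {l : ℤ} (h : l ≤ -(χ.lam * N)) : χ.F N l = T.sec q D₀ (r * N) := by
  apply le_antisymm (χ.le N l)
  rw [← (χ.lam_spec N).1]
  exact χ.anti N _ _ h

theorem F_of_gt {N : ℕ} {l : ℤ} (h : χ.lam * N < l) : χ.F N l = ⊥ := by
  rw [eq_bot_iff, ← (χ.lam_spec N).2]
  exact χ.anti N _ _ (by linarith)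

theorem wt_eq_zero_of_lt {N : ℕ} {l : ℤ} (h : l < -(χ.lam * N)) : χ.wt N l = 0 := by
  unfold wt
  rw [χ.F_of_le (by linarith), χ.F_of_le (by linarith), sub_self]

theorem wt_eq_zero_of_gt {N : ℕ} {l : ℤ} (h : χ.lam * N < l) : χ.wt N l = 0 := by
  unfold wt
  rw [χ.F_of_gt h, χ.F_of_gt (by linarith), sub_self]

/-- the traces as finite sums. -/
theorem tr_eq (p N : ℕ) : χ.tr p N = ∑ i ∈ range (2 * χ.lam * N + 1),
    (((i : ℤ) - χ.lam * N : ℤ) : ℝ) ^ p * χ.wt N ((i : ℤ) - χ.lam * N) := by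
  unfold tr
  have h1 : ∑ᶠ l : ℤ, (l : ℝ) ^ p * χ.wt N l =
      ∑ l ∈ Icc (-((χ.lam * N : ℕ) : ℤ)) ((χ.lam * N : ℕ) : ℤ), (l : ℝ) ^ p * χ.wt N l := by
    apply finsum_eq_sum_of_support_subset
    intro l hl
    rw [Function.mem_support] at hl
    rw [Finset.coe_Icc, Set.mem_Icc]
    constructor
    · by_contra h
      apply hl
      rw [χ.wt_eq_zero_of_lt (by push_cast at h; linarith), mul_zero]
    · by_contra h
      apply hl
      rw [χ.wt_eq_zero_of_gt (by push_cast at h; linarith), mul_zero]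
  rw [h1, ← sum_range_eq_Icc (χ.lam * N) (fun l => (l : ℝ) ^ p * χ.wt N l), ← mul_assoc]
  push_cast
  rfl

/-- Abel summation for the trace. -/
theorem tr_one (P₀ : T.X.Pt) (N : ℕ) :
    χ.tr 1 N = χ.graded.tot N - χ.lam * N * χ.dimN N := by
  rw [tr_eq, χ.graded_tot P₀]
  have key : ∀ (h : ℤ → ℝ) (c : ℤ) (M : ℕ), ∑ i ∈ range (M + 1),
      (((i : ℤ) - c : ℤ) : ℝ) ^ 1 * (h ((i : ℤ) - c) - h ((i : ℤ) - c + 1)) =
      ∑ i ∈ range M, h ((i : ℤ) + 1 - c) - c * h (-c) - ((M : ℝ) - c) * h ((M : ℤ) - c + 1) := by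
    intro h c M
    induction M with
    | zero =>
      simp
      ring
    | succ M ih =>
      rw [sum_range_succ, ih, sum_range_succ]
      push_cast
      have e1 : (M : ℤ) + 1 - c = (M : ℤ) - c + 1 := by ring
      rw [e1]
      ring
  have h1 := key (fun l => (finrank ℂ (χ.F N l) : ℝ)) (χ.lam * N) (2 * χ.lam * N)
  have h2 : (finrank ℂ (χ.F N (((2 * χ.lam * N : ℕ) : ℤ) - χ.lam * N + 1)) : ℝ) = 0 := by
    rw [χ.F_of_gt (by push_cast; linarith)]
    simp
  have h3 : (finrank ℂ (χ.F N (-(χ.lam * N))) : ℝ) = χ.dimN N := by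
    rw [χ.F_of_le le_rfl]
    rfl
  rw [h2, h3, mul_zero, sub_zero] at h1
  unfold wt
  rw [h1]
  push_cast
  ring

end Filt

end Pool.Agent.YTD


end

/- source: Pool.Agent.YTD.BridgeM -/

section

/-!
From filtrations of the section ring to torus-graded filtrations, for an arbitrary monomial order.
-/

namespace Pool.Agent.YTD

open Finset Module MvPolynomial Filter

variable {K : Type} [Field K] [Algebra ℂ K]
variable {T : Datum K} {q : ℕ} {D₀ : T.X.Pt →₀ ℤ} {r : ℕ}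

namespace Filt

variable (χ : Filt T q D₀ r)

/-- the graded filtration of initial spaces of `χ` for the monomial order `m`. -/
noncomputable def gradedM (m : MonomialOrder (Fin 4)) : Graded T (r * q) (r • D₀) where
  Λ := 2 * χ.lam
  W := fun N l j a b => ini m (χ.F N ((l : ℤ) - χ.lam * N)) (expo (r * q) N j a b)
  W_zero := by
    intro N j a b h
    have e : ((0 : ℕ) : ℤ) - χ.lam * N = -(χ.lam * N) := by simp
    rw [e, (χ.lam_spec N).1, ← T.sec_mul r q D₀ N, T.ini_sec _ h]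
  W_anti := by
    intro N l l' j a b h
    exact ini_mono (χ.anti N _ _ (by
      have : (l : ℤ) ≤ l' := by exact_mod_cast h
      linarith)) _
  W_mul := by
    intro N N' l l' j j' a a' b b' h h' f hf g hg
    rw [← expo_add h h']
    refine ini_mul ?_ hf hg
    intro f hf g hg
    have := χ.mul N N' _ _ f hf g hg
    have e : ((l + l' : ℕ) : ℤ) - χ.lam * ((N + N' : ℕ) : ℤ) =
      ((l : ℤ) - χ.lam * N) + ((l' : ℤ) - χ.lam * N') := by push_cast; ring
    rw [e]
    exact this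
  W_top := by
    intro N l j a b h
    have h1 : χ.F N ((l : ℤ) - χ.lam * N) = ⊥ := by
      rw [eq_bot_iff, ← (χ.lam_spec N).2]
      apply χ.anti
      have : ((2 * χ.lam * N : ℕ) : ℤ) < l := by exact_mod_cast h
      push_cast at this
      linarith
    rw [h1, ini_bot]

theorem gradedM_Λ (m : MonomialOrder (Fin 4)) : (χ.gradedM m).Λ = 2 * χ.lam := rfl

theorem gradedM_W (m : MonomialOrder (Fin 4)) (N l : ℕ) (j : ℤ) (a b : ℕ) :
    (χ.gradedM m).W N l j a b =
      ini m (χ.F N ((l : ℤ) - χ.lam * N)) (expo (r * q) N j a b) := rfl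

theorem gradedM_tot (m : MonomialOrder (Fin 4)) (P₀ : T.X.Pt) (N : ℕ) : (χ.gradedM m).tot N =
    ∑ l ∈ range (2 * χ.lam * N), (finrank ℂ (χ.F N ((l : ℤ) + 1 - χ.lam * N)) : ℝ) := by
  have h0 : ∀ (l : ℕ) (j : ℤ) (a b : ℕ), (χ.gradedM m).W N (l + 1) j a b =
      ini m (χ.F N ((l : ℤ) + 1 - χ.lam * N)) (expo (r * q) N j a b) := by
    intro l j a b
    show ini m (χ.F N (((l + 1 : ℕ) : ℤ) - χ.lam * N)) (expo (r * q) N j a b) = _
    have e : ((l + 1 : ℕ) : ℤ) = (l : ℤ) + 1 := by push_cast; rfl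
    rw [e]
  have h1 : ∀ l : ℕ, (finrank ℂ (χ.F N ((l : ℤ) + 1 - χ.lam * N)) : ℝ) =
      ∑ j ∈ Icc (-((5 * (r * q) * N : ℕ) : ℤ)) ((5 * (r * q) * N : ℕ) : ℤ),
      ∑ a ∈ range (AA (r * q) N j + 1), ∑ b ∈ range (BB (r * q) N j + 1),
        (finrank ℂ ((χ.gradedM m).W N (l + 1) j a b) : ℝ) := by
    intro l
    rw [T.finrank_eq_sum P₀ m (q := r * q) (D₀ := r • D₀) (N := N)
      (by rw [T.sec_mul]; exact χ.le N _)]
    refine sum_congr rfl fun j _ => sum_congr rfl fun a _ => sum_congr rfl fun b _ => ?_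
    rw [h0]
  unfold Graded.tot
  rw [gradedM_Λ]
  rw [sum_congr rfl (fun l _ => h1 l)]
  symm
  rw [sum_comm]
  apply sum_congr rfl
  intro j _
  rw [sum_comm]
  apply sum_congr rfl
  intro a _
  rw [sum_comm]

theorem gradedM_tot_eq (m : MonomialOrder (Fin 4)) (P₀ : T.X.Pt) (N : ℕ) :
    (χ.gradedM m).tot N = χ.graded.tot N := by
  rw [gradedM_tot χ m P₀, graded_tot χ P₀]

/-- Abel summation for the trace. -/
theorem tr_one_M (m : MonomialOrder (Fin 4)) (P₀ : T.X.Pt) (N : ℕ) :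
    χ.tr 1 N = (χ.gradedM m).tot N - χ.lam * N * χ.dimN N := by
  rw [gradedM_tot_eq χ m P₀, χ.tr_one P₀]

/-- the expansion of the total dimension, for all monomial orders. -/
theorem totExp_M (m : MonomialOrder (Fin 4)) (P₀ : T.X.Pt) {a₀ a₁ b₀ b₁ c₀ : ℝ}
    (h : χ.Expansion a₀ a₁ b₀ b₁ c₀) :
    (χ.gradedM m).TotExp (b₀ + χ.lam * a₀) (b₁ + χ.lam * a₁) := by
  obtain ⟨⟨C₁, h1⟩, ⟨C₂, h2⟩, _⟩ := h
  refine ⟨C₂ + χ.lam * C₁, ?_⟩
  filter_upwards [h1, h2] with N g1 g2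
  have e := χ.tr_one_M m P₀ N
  have hlam : (0 : ℝ) ≤ χ.lam * N := by positivity
  have g3 : |(χ.lam : ℝ) * N * χ.dimN N - χ.lam * N * (a₀ * N ^ 4 + a₁ * N ^ 3)| ≤
      χ.lam * N * (C₁ * N ^ 2) := by
    rw [← mul_sub, abs_mul, abs_of_nonneg hlam]
    exact mul_le_mul_of_nonneg_left g1 hlam
  rw [abs_le] at g2 g3 ⊢
  rw [e] at g2
  constructor <;> nlinarith [g2.1, g2.2, g3.1, g3.2]

end Filt

end Pool.Agent.YTD


end

/- source: Pool.Agent.YTD.LinW -/

section

/-!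
Affine weights on the exponents.
-/

namespace Pool.Agent.YTD

open Finset Module MvPolynomial

/-- the affine weight with coefficients `al, be, ga, de`. -/
def lw (al be ga de : ℤ) (N : ℕ) (j : ℤ) (a b : ℕ) : ℤ := al * a + be * b + ga * j + de * N

theorem lw_add (al be ga de : ℤ) (N N' : ℕ) (j j' : ℤ) (a a' b b' : ℕ) :
    lw al be ga de (N + N') (j + j') (a + a') (b + b') =
      lw al be ga de N j a b + lw al be ga de N' j' a' b' := by
  unfold lw
  push_cast
  ring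

theorem lw_smul (al be ga de : ℤ) (k N : ℕ) (j : ℤ) (a b : ℕ) :
    lw al be ga de (k * N) (k * j) (k * a) (k * b) = k * lw al be ga de N j a b := by
  unfold lw
  push_cast
  ring

theorem InR.smul {q N : ℕ} {j : ℤ} {a b : ℕ} (h : InR q N j a b) (k : ℕ) :
    InR q (k * N) (k * j) (k * a) (k * b) := by
  obtain ⟨h1, h2, h3⟩ := h
  have hk : (0 : ℤ) ≤ k := by positivity
  refine ⟨?_, ?_, ?_⟩
  · rw [abs_mul, abs_of_nonneg hk]
    push_cast
    nlinarith
  · push_cast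
    nlinarith
  · push_cast
    nlinarith

/-- a vertex at which the affine weight is minimal. -/
theorem exists_min_vertex (al be ga de : ℤ) (q : ℕ) :
    ∃ (j₁ : ℤ) (a₁ b₁ : ℕ), InR q 1 j₁ a₁ b₁ ∧ (j₁ = 5 * q ∨ j₁ = -(5 * q)) ∧
      ∀ (N : ℕ) (j : ℤ) (a b : ℕ), InR q N j a b →
        N * lw al be ga de 1 j₁ a₁ b₁ ≤ lw al be ga de N j a b := by
  -- the minimal value in the directions `a`, `b` for fixed `j`
  have key : ∀ (ε : ℤ), (ε = 1 ∨ ε = -1) →
      (∀ x : ℤ, |x| ≤ 1 → 0 ≤ (3 * min 0 al - 3 * min 0 be + ga) * (x - ε)) →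
      ∃ (j₁ : ℤ) (a₁ b₁ : ℕ), InR q 1 j₁ a₁ b₁ ∧ (j₁ = 5 * q ∨ j₁ = -(5 * q)) ∧
      ∀ (N : ℕ) (j : ℤ) (a b : ℕ), InR q N j a b →
        N * lw al be ga de 1 j₁ a₁ b₁ ≤ lw al be ga de N j a b := by
    intro ε hε hc
    have hq : (0 : ℤ) ≤ q := by positivity
    have hA : (0 : ℤ) ≤ 25 * q + 3 * (ε * (5 * q)) := by
      rcases hε with rfl | rfl <;> linarith
    have hB : (0 : ℤ) ≤ 25 * q - 3 * (ε * (5 * q)) := by
      rcases hε with rfl | rfl <;> linarith
    refine ⟨ε * (5 * q), if al < 0 then (25 * q + 3 * (ε * (5 * q)) : ℤ).toNat else 0,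
      if be < 0 then (25 * q - 3 * (ε * (5 * q)) : ℤ).toNat else 0, ⟨?_, ?_, ?_⟩, ?_, ?_⟩
    · rcases hε with rfl | rfl
      · rw [one_mul, abs_of_nonneg (by linarith)]
        push_cast
        linarith
      · rw [neg_mul, one_mul, abs_neg, abs_of_nonneg (by linarith)]
        push_cast
        linarith
    · split_ifs
      · rw [Int.toNat_of_nonneg hA]
        push_cast
        linarith
      · push_cast
        linarith
    · split_ifs
      · rw [Int.toNat_of_nonneg hB]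
        push_cast
        linarith
      · push_cast
        linarith
    · rcases hε with rfl | rfl
      · left
        ring
      · right
        ring
    · intro N j a b h
      obtain ⟨h1, h2, h3⟩ := h
      have hN : (0 : ℤ) ≤ N := by positivity
      have ha0 : (0 : ℤ) ≤ a := by positivity
      have hb0 : (0 : ℤ) ≤ b := by positivity
      have ea : al * ((if al < 0 then (25 * q + 3 * (ε * (5 * q)) : ℤ).toNat else 0 : ℕ) : ℤ) =
          min 0 al * (25 * q + 3 * (ε * (5 * q))) := by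
        split_ifs with h4
        · rw [Int.toNat_of_nonneg hA, min_eq_right h4.le]
        · rw [min_eq_left (not_lt.1 h4)]
          simp
      have eb : be * ((if be < 0 then (25 * q - 3 * (ε * (5 * q)) : ℤ).toNat else 0 : ℕ) : ℤ) =
          min 0 be * (25 * q - 3 * (ε * (5 * q))) := by
        split_ifs with h4
        · rw [Int.toNat_of_nonneg hB, min_eq_right h4.le]
        · rw [min_eq_left (not_lt.1 h4)]
          simp
      have fa : min 0 al * (25 * q * N + 3 * j) ≤ al * a := by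
        rcases le_total 0 al with h4 | h4
        · rw [min_eq_left h4, zero_mul]
          positivity
        · rw [min_eq_right h4]
          nlinarith
      have fb : min 0 be * (25 * q * N - 3 * j) ≤ be * b := by
        rcases le_total 0 be with h4 | h4
        · rw [min_eq_left h4, zero_mul]
          positivity
        · rw [min_eq_right h4]
          nlinarith
      have fc : 0 ≤ (3 * min 0 al - 3 * min 0 be + ga) * (j - ε * (5 * q) * N) := by
        rw [abs_le] at h1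
        have h5 := hc 1 (by norm_num)
        have h6 := hc (-1) (by norm_num)
        generalize 3 * min 0 al - 3 * min 0 be + ga = c at h5 h6 ⊢
        rcases hε with rfl | rfl
        · have : c ≤ 0 := by linarith
          nlinarith
        · have : 0 ≤ c := by linarith
          nlinarith
      unfold lw
      rw [ea, eb]
      push_cast
      nlinarith
  by_cases h : 3 * min 0 al - 3 * min 0 be + ga ≤ 0
  · refine key 1 (Or.inl rfl) ?_
    intro x hx
    rw [abs_le] at hx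
    nlinarith
  · refine key (-1) (Or.inr rfl) ?_
    intro x hx
    rw [abs_le] at hx
    push Not at h
    nlinarith

/-- crude bound on a small box. -/
theorem lw_le_box (al be ga de : ℤ) (s : ℕ) {x y z : ℕ} (hx : x ≤ s) (hy : y ≤ s) (hz : z ≤ s) :
    lw al be ga de s (x : ℤ) y z ≤ s * (|al| + |be| + |ga| + |de|) := by
  unfold lw
  have hx' : (x : ℤ) ≤ s := by exact_mod_cast hx
  have hy' : (y : ℤ) ≤ s := by exact_mod_cast hy
  have hz' : (z : ℤ) ≤ s := by exact_mod_cast hz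
  have hx0 : (0 : ℤ) ≤ x := by positivity
  have hy0 : (0 : ℤ) ≤ y := by positivity
  have hz0 : (0 : ℤ) ≤ z := by positivity
  have hs0 : (0 : ℤ) ≤ s := by positivity
  have h1 : al * y ≤ |al| * s :=
    (mul_le_mul_of_nonneg_right (le_abs_self al) hy0).trans
      (mul_le_mul_of_nonneg_left hy' (abs_nonneg al))
  have h2 : be * z ≤ |be| * s :=
    (mul_le_mul_of_nonneg_right (le_abs_self be) hz0).trans
      (mul_le_mul_of_nonneg_left hz' (abs_nonneg be))
  have h3 : ga * x ≤ |ga| * s :=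
    (mul_le_mul_of_nonneg_right (le_abs_self ga) hx0).trans
      (mul_le_mul_of_nonneg_left hx' (abs_nonneg ga))
  have h4 : de * s ≤ |de| * s := mul_le_mul_of_nonneg_right (le_abs_self de) hs0
  linarith

theorem inR_box {q s : ℕ} (hq : 0 < q) {x y z : ℕ} (hx : x ≤ s) (hy : y ≤ s) (hz : z ≤ s) :
    InR q s (x : ℤ) y z := by
  have hq' : (1 : ℤ) ≤ q := by exact_mod_cast hq
  have hx' : (x : ℤ) ≤ s := by exact_mod_cast hx
  have hy' : (y : ℤ) ≤ s := by exact_mod_cast hy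
  have hz' : (z : ℤ) ≤ s := by exact_mod_cast hz
  have hx0 : (0 : ℤ) ≤ x := by positivity
  have hs0 : (0 : ℤ) ≤ s := by positivity
  have h1 : (s : ℤ) ≤ q * s := by nlinarith
  refine ⟨?_, ?_, ?_⟩
  · rw [abs_of_nonneg hx0]
    linarith
  · linarith
  · linarith

end Pool.Agent.YTD


end

/- source: Pool.Agent.YTD.RigidDef -/

section

/-!
Filtrations all of whose initial spaces are described by one affine weight, up to `O(N^3)`.
-/

namespace Pool.Agent.YTD

open Finset Module MvPolynomial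

variable {K : Type} [Field K] [Algebra ℂ K]
variable {T : Datum K} {q : ℕ} {D₀ : T.X.Pt →₀ ℤ} {r : ℕ}

namespace Filt

/-- The initial spaces of `χ` for the monomial order `m` vanish above the affine weight with
coefficients `al, be, ga, de`, and are almost everything below it. -/
structure Rigid (χ : Filt T q D₀ r) (m : MonomialOrder (Fin 4)) (al be ga de : ℤ) : Prop where
  upper : ∀ N : ℕ, 4 ≤ N → ∀ (l : ℤ) (j : ℤ) (a b : ℕ), InR (r * q) N j a b →
    ini m (χ.F N l) (expo (r * q) N j a b) ≠ ⊥ → l ≤ lw al be ga de N j a b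
  full : ∃ C : ℝ, ∀ N : ℕ, 4 ≤ N →
    ∑ j ∈ Icc (-((5 * (r * q) * N : ℕ) : ℤ)) ((5 * (r * q) * N : ℕ) : ℤ),
      ∑ a ∈ range (AA (r * q) N j + 1), ∑ b ∈ range (BB (r * q) N j + 1),
        ∑ l ∈ Ioc (-((χ.lam : ℤ) * N)) (lw al be ga de N j a b),
          ((finrank ℂ (T.V (r * q) (r • D₀) N j) : ℝ) -
            finrank ℂ (ini m (χ.F N l) (expo (r * q) N j a b))) ≤ C * (N : ℝ) ^ 3

end Filt

end Pool.Agent.YTD


end

/- source: Pool.Agent.YTD.Greedy -/

section

/-!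
Weights and initial spaces: layer sums and the greedy inequality.
-/

namespace Pool.Agent.YTD

open MvPolynomial Module Finset

variable {σ : Type} {K : Type} [Field K] [Algebra ℂ K]

/-- polynomials all of whose exponents have weight at most `c`. -/
def Wle (w : (σ →₀ ℕ) → ℕ) (c : ℕ) : Submodule ℂ (MvPolynomial σ K) where
  carrier := {f | ∀ e, f.coeff e ≠ 0 → w e ≤ c}
  zero_mem' := by
    intro e h
    simp at h
  add_mem' := by
    intro f g hf hg e h
    by_cases h1 : f.coeff e = 0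
    · apply hg
      intro h2
      apply h
      rw [coeff_add, h1, h2, add_zero]
    · exact hf e h1
  smul_mem' := by
    intro c f hf e h
    apply hf
    intro h1
    apply h
    rw [coeff_smul, h1, smul_zero]

theorem mem_Wle {w : (σ →₀ ℕ) → ℕ} {c : ℕ} {f : MvPolynomial σ K} :
    f ∈ Wle w c ↔ ∀ e, f.coeff e ≠ 0 → w e ≤ c := Iff.rfl

/-- the order `m` refines the weight `w` on `E`. -/
def Refines (m : MonomialOrder σ) (w : (σ →₀ ℕ) → ℕ) (E : Finset (σ →₀ ℕ)) : Prop :=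
  ∀ e ∈ E, ∀ e' ∈ E, m.toSyn e' ≤ m.toSyn e → w e' ≤ w e

theorem ini_Wle_bot {m : MonomialOrder σ} {U : Submodule ℂ (MvPolynomial σ K)}
    {w : (σ →₀ ℕ) → ℕ} {c : ℕ} {e : σ →₀ ℕ} (h : c < w e) : ini m (U ⊓ Wle w c) e = ⊥ := by
  rw [eq_bot_iff]
  intro x hx
  obtain ⟨f, hf, _, rfl⟩ := mem_ini.1 hx
  rw [Submodule.mem_bot]
  by_contra h0
  have := hf.2 e h0
  omega

theorem ini_Wle_eq {m : MonomialOrder σ} {U : Submodule ℂ (MvPolynomial σ K)}
    {w : (σ →₀ ℕ) → ℕ} {E : Finset (σ →₀ ℕ)} (hm : Refines m w E)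
    (hU : ∀ f ∈ U, ∀ e, f.coeff e ≠ 0 → e ∈ E) {c : ℕ} {e : σ →₀ ℕ} (he : e ∈ E) (h : w e ≤ c) :
    ini m (U ⊓ Wle w c) e = ini m U e := by
  apply le_antisymm (ini_mono inf_le_left e)
  intro x hx
  obtain ⟨f, hf, hf', rfl⟩ := mem_ini.1 hx
  rw [mem_ini]
  refine ⟨f, ⟨hf, fun e' he' => ?_⟩, hf', rfl⟩
  exact (hm e he e' (hU f hf e' he') (hf' e' he')).trans h

theorem finite_inf {U U' : Submodule ℂ (MvPolynomial σ K)} (h : FiniteDimensional ℂ U) :
    FiniteDimensional ℂ (U ⊓ U' : Submodule ℂ (MvPolynomial σ K)) :=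
  Submodule.finiteDimensional_of_le inf_le_left

/-- Layer sums are intrinsic. -/
theorem finrank_Wle (m : MonomialOrder σ) {U : Submodule ℂ (MvPolynomial σ K)}
    (hfin : FiniteDimensional ℂ U) {w : (σ →₀ ℕ) → ℕ} {E : Finset (σ →₀ ℕ)} (hm : Refines m w E)
    (hU : ∀ f ∈ U, ∀ e, f.coeff e ≠ 0 → e ∈ E) (c : ℕ) :
    finrank ℂ (U ⊓ Wle w c : Submodule ℂ (MvPolynomial σ K)) =
      ∑ e ∈ E with w e ≤ c, finrank ℂ (ini m U e) := by
  rw [finrank_eq_sum_ini m E _ (finite_inf hfin) (fun f hf => hU f hf.1), Finset.sum_filter]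
  apply Finset.sum_congr rfl
  intro e he
  split_ifs with h
  · rw [ini_Wle_eq hm hU he h]
  · rw [ini_Wle_bot (by omega)]
    simp

theorem finrank_Wle_le (m : MonomialOrder σ) {U : Submodule ℂ (MvPolynomial σ K)}
    (hfin : FiniteDimensional ℂ U) (w : (σ →₀ ℕ) → ℕ) {E : Finset (σ →₀ ℕ)}
    (hU : ∀ f ∈ U, ∀ e, f.coeff e ≠ 0 → e ∈ E)
    (hfin' : ∀ e ∈ E, FiniteDimensional ℂ (ini m U e)) (c : ℕ) :
    finrank ℂ (U ⊓ Wle w c : Submodule ℂ (MvPolynomial σ K)) ≤
      ∑ e ∈ E with w e ≤ c, finrank ℂ (ini m U e) := by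
  rw [finrank_eq_sum_ini m E _ (finite_inf hfin) (fun f hf => hU f hf.1), Finset.sum_filter]
  apply Finset.sum_le_sum
  intro e he
  split_ifs with h
  · have := hfin' e he
    exact Submodule.finrank_mono (ini_mono inf_le_left e)
  · rw [ini_Wle_bot (by omega)]
    simp

theorem finite_ini (m : MonomialOrder σ) {U : Submodule ℂ (MvPolynomial σ K)}
    (hfin : FiniteDimensional ℂ U) (e : σ →₀ ℕ) : FiniteDimensional ℂ (ini m U e) := by
  unfold ini
  have : FiniteDimensional ℂ (U ⊓ leDeg m e : Submodule ℂ (MvPolynomial σ K)) := finite_inf hfin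
  infer_instance

/-- layer cake for a natural weight bounded by `M`. -/
theorem sum_weight (E : Finset (σ →₀ ℕ)) (w : (σ →₀ ℕ) → ℕ) (d : (σ →₀ ℕ) → ℕ) (M : ℕ)
    (hM : ∀ e ∈ E, w e ≤ M) :
    ∑ e ∈ E, w e * d e + ∑ c ∈ range M, ∑ e ∈ E with w e ≤ c, d e = M * ∑ e ∈ E, d e := by
  have h : ∀ e ∈ E, w e * d e + ∑ c ∈ range M, (if w e ≤ c then d e else 0) = M * d e := by
    intro e he
    rw [← Finset.sum_filter, Finset.sum_const, smul_eq_mul, ← add_mul]
    congr 1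
    have h1 : (range M).filter (fun c => w e ≤ c) = Finset.Ico (w e) M := by
      ext c
      simp only [Finset.mem_filter, Finset.mem_range, Finset.mem_Ico]
      tauto
    rw [h1, Nat.card_Ico]
    have := hM e he
    omega
  rw [Finset.mul_sum, ← Finset.sum_congr rfl h, Finset.sum_add_distrib]
  congr 1
  rw [Finset.sum_comm]
  apply Finset.sum_congr rfl
  intro c _
  rw [Finset.sum_filter]

/-- The greedy inequality: if `m` refines `w`, and `w'` is a second weight whose layers have the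
same dimensions, then the total `w'`-weight of the leading exponents is at most the total
`w`-weight. -/
theorem greedy (m : MonomialOrder σ) {U : Submodule ℂ (MvPolynomial σ K)}
    (hfin : FiniteDimensional ℂ U) {w w' : (σ →₀ ℕ) → ℕ} {E : Finset (σ →₀ ℕ)}
    (hm : Refines m w E) (hU : ∀ f ∈ U, ∀ e, f.coeff e ≠ 0 → e ∈ E)
    (hww' : ∀ c, finrank ℂ (U ⊓ Wle w c : Submodule ℂ (MvPolynomial σ K)) ≤
      finrank ℂ (U ⊓ Wle w' c : Submodule ℂ (MvPolynomial σ K))) :
    ∑ e ∈ E, w' e * finrank ℂ (ini m U e) ≤ ∑ e ∈ E, w e * finrank ℂ (ini m U e) := by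
  obtain ⟨M, hM⟩ : ∃ M, ∀ e ∈ E, w e ≤ M ∧ w' e ≤ M := by
    refine ⟨∑ e ∈ E, (w e + w' e), fun e he => ?_⟩
    have h : w e + w' e ≤ ∑ e ∈ E, (w e + w' e) :=
      Finset.single_le_sum (f := fun e => w e + w' e) (fun i _ => Nat.zero_le _) he
    constructor <;> omega
  have h1 := sum_weight E w (fun e => finrank ℂ (ini m U e)) M (fun e he => (hM e he).1)
  have h2 := sum_weight E w' (fun e => finrank ℂ (ini m U e)) M (fun e he => (hM e he).2)
  have h3 : ∑ c ∈ range M, ∑ e ∈ E with w e ≤ c, finrank ℂ (ini m U e) ≤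
      ∑ c ∈ range M, ∑ e ∈ E with w' e ≤ c, finrank ℂ (ini m U e) := by
    apply Finset.sum_le_sum
    intro c _
    rw [← finrank_Wle m hfin hm hU c]
    exact (hww' c).trans (finrank_Wle_le m hfin w' hU (fun e _ => finite_ini m hfin e) c)
  omega

end Pool.Agent.YTD


end

/- source: Pool.Agent.YTD.RigidMoments -/

section

/-!
Moments of rigid filtrations.
-/

namespace Pool.Agent.YTD

open Module Finset MvPolynomial

variable {K : Type} [Field K] [Algebra ℂ K]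
variable {T : Datum K} {q : ℕ} {D₀ : T.X.Pt →₀ ℤ} {r : ℕ}

theorem Datum.exists_point_mom (T : Datum K) : Nonempty T.X.Pt := by
  have h : 0 < T.S.card := by
    rw [T.card_S]
    have := T.t_pos
    omega
  obtain ⟨P, _⟩ := Finset.card_pos.1 h
  exact ⟨P⟩

/-- indices at level `N` -/
noncomputable def JJ (q N : ℕ) : Finset ℤ := Icc (-((5 * q * N : ℕ) : ℤ)) ((5 * q * N : ℕ) : ℤ)

theorem mem_JJ {q N : ℕ} {j : ℤ} : j ∈ JJ q N ↔ |j| ≤ 5 * q * N := mem_Icc_iff'

namespace Filt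

variable (χ : Filt T q D₀ r)

/-- dimension of the full graded piece. -/
noncomputable def vdim (_ : Filt T q D₀ r) (N : ℕ) (j : ℤ) : ℝ :=
  finrank ℂ (T.V (r * q) (r • D₀) N j)

/-- dimension of the graded piece of the initial space. -/
noncomputable def idim (m : MonomialOrder (Fin 4)) (N : ℕ) (l j : ℤ) (a b : ℕ) : ℝ :=
  finrank ℂ (ini m (χ.F N l) (expo (r * q) N j a b))

theorem F_le_sec (N : ℕ) (l : ℤ) : χ.F N l ≤ T.sec (r * q) (r • D₀) N := by
  rw [T.sec_mul]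
  exact χ.le N l

theorem finite_F (N : ℕ) (l : ℤ) : FiniteDimensional ℂ (χ.F N l) := by
  obtain ⟨P₀⟩ := T.exists_point_mom
  have := T.finite_sec P₀ (r * q) (r • D₀) N
  exact Submodule.finiteDimensional_of_le (χ.F_le_sec N l)

theorem F_exp {N : ℕ} {l : ℤ} : ∀ f ∈ χ.F N l, ∀ e, f.coeff e ≠ 0 → e ∈ Eset (r * q) N :=
  fun _ hf _ he => T.mem_Eset_of_coeff (χ.F_le_sec N l hf) he

theorem ini_le_V (m : MonomialOrder (Fin 4)) {N : ℕ} (l : ℤ) {j : ℤ} {a b : ℕ}
    (h : InR (r * q) N j a b) :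
    ini m (χ.F N l) (expo (r * q) N j a b) ≤ T.V (r * q) (r • D₀) N j := by
  rw [← T.ini_sec m h]
  exact ini_mono (χ.F_le_sec N l) _

theorem idim_nonneg (m : MonomialOrder (Fin 4)) (N : ℕ) (l j : ℤ) (a b : ℕ) :
    0 ≤ χ.idim m N l j a b := by
  unfold idim
  positivity

theorem idim_le (m : MonomialOrder (Fin 4)) {N : ℕ} (l : ℤ) {j : ℤ} {a b : ℕ}
    (h : InR (r * q) N j a b) : χ.idim m N l j a b ≤ χ.vdim N j := by
  obtain ⟨P₀⟩ := T.exists_point_mom
  have : FiniteDimensional ℂ (T.V (r * q) (r • D₀) N j) := T.X.finite_L P₀ _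
  unfold idim vdim
  exact_mod_cast Submodule.finrank_mono (χ.ini_le_V m l h)

theorem idim_eq_vdim (m : MonomialOrder (Fin 4)) {N : ℕ} {l : ℤ} {j : ℤ} {a b : ℕ}
    (h : InR (r * q) N j a b) (hl : l ≤ -(χ.lam * N)) : χ.idim m N l j a b = χ.vdim N j := by
  unfold idim vdim
  rw [χ.F_of_le hl, ← T.sec_mul, T.ini_sec m h]

theorem idim_eq_zero (m : MonomialOrder (Fin 4)) {N : ℕ} {l : ℤ} {j : ℤ} {a b : ℕ}
    (hl : χ.lam * N < l) : χ.idim m N l j a b = 0 := by
  unfold idim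
  rw [χ.F_of_gt hl, ini_bot]
  simp

end Filt

theorem Filt.Rigid.idim_eq_zero {χ : Filt T q D₀ r} {m : MonomialOrder (Fin 4)} {al be ga de : ℤ}
    (hR : χ.Rigid m al be ga de) {N : ℕ} (hN : 4 ≤ N) {l j : ℤ} {a b : ℕ}
    (h : InR (r * q) N j a b) (hl : lw al be ga de N j a b < l) : χ.idim m N l j a b = 0 := by
  unfold Filt.idim
  have : ini m (χ.F N l) (expo (r * q) N j a b) = ⊥ := by
    by_contra h0
    have := hR.upper N hN l j a b h h0
    omega
  rw [this]
  simp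

/-- sums over a level -/
theorem forall_JJ {Q N : ℕ} {j : ℤ} (hj : j ∈ JJ Q N) {a b : ℕ} (ha : a ∈ range (AA Q N j + 1))
    (hb : b ∈ range (BB Q N j + 1)) : InR Q N j a b :=
  (inR_iff (mem_JJ.1 hj)).2 ⟨Nat.lt_succ_iff.1 (mem_range.1 ha), Nat.lt_succ_iff.1 (mem_range.1 hb)⟩

/-- Transfer of moments. -/
theorem Filt.Rigid.moment {χ : Filt T q D₀ r} {m : MonomialOrder (Fin 4)} {al be ga de : ℤ}
    (hR : χ.Rigid m al be ga de) : ∃ C : ℝ, 0 ≤ C ∧ ∀ N : ℕ, 4 ≤ N → ∀ Λ : ℕ, χ.lam ≤ Λ →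
    ∀ (φ : ℤ → ℕ → ℕ → ℤ → ℝ) (Ω : ℝ), 0 ≤ Ω →
    (∀ j a b l, InR (r * q) N j a b → -((Λ * N : ℕ) : ℤ) < l → l ≤ lw al be ga de N j a b →
      |φ j a b l| ≤ Ω) →
    ∑ j ∈ JJ (r * q) N, |∑ a ∈ range (AA (r * q) N j + 1), ∑ b ∈ range (BB (r * q) N j + 1),
      (χ.vdim N j * ∑ l ∈ Ioc (-((Λ * N : ℕ) : ℤ)) (lw al be ga de N j a b), φ j a b l -
        ∑ l ∈ Ioc (-((Λ * N : ℕ) : ℤ)) ((Λ * N : ℕ) : ℤ), φ j a b l * χ.idim m N l j a b)| ≤
      Ω * C * (N : ℝ) ^ 3 := by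
  obtain ⟨C, hC⟩ := hR.full
  refine ⟨max C 0, le_max_right _ _, ?_⟩
  intro N hN Λ hΛ φ Ω hΩ hφ
  have hΛN : ((χ.lam * N : ℕ) : ℤ) ≤ ((Λ * N : ℕ) : ℤ) := by
    exact_mod_cast Nat.mul_le_mul_right N hΛ
  have key : ∀ j ∈ JJ (r * q) N, ∀ a ∈ range (AA (r * q) N j + 1),
      ∀ b ∈ range (BB (r * q) N j + 1),
      |χ.vdim N j * ∑ l ∈ Ioc (-((Λ * N : ℕ) : ℤ)) (lw al be ga de N j a b), φ j a b l -
        ∑ l ∈ Ioc (-((Λ * N : ℕ) : ℤ)) ((Λ * N : ℕ) : ℤ), φ j a b l * χ.idim m N l j a b| ≤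
      Ω * ∑ l ∈ Ioc (-((χ.lam : ℤ) * N)) (lw al be ga de N j a b),
        (χ.vdim N j - χ.idim m N l j a b) := by
    intro j hj a ha b hb
    have hin := forall_JJ hj ha hb
    set L := lw al be ga de N j a b with hL
    have e1 : ∑ l ∈ Ioc (-((Λ * N : ℕ) : ℤ)) ((Λ * N : ℕ) : ℤ), φ j a b l * χ.idim m N l j a b =
        ∑ l ∈ Ioc (-((Λ * N : ℕ) : ℤ)) L, φ j a b l * χ.idim m N l j a b := by
      have h1 : ∑ l ∈ Ioc (-((Λ * N : ℕ) : ℤ)) ((Λ * N : ℕ) : ℤ), φ j a b l * χ.idim m N l j a b =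
          ∑ l ∈ Ioc (-((Λ * N : ℕ) : ℤ)) (max ((Λ * N : ℕ) : ℤ) L),
            φ j a b l * χ.idim m N l j a b := by
        apply sum_subset (Ioc_subset_Ioc_right (le_max_left _ _))
        intro l hl hl'
        rw [mem_Ioc] at hl hl'
        have h2 : χ.lam * N < l := by
          have h3 : ((Λ * N : ℕ) : ℤ) < l := by
            by_contra h
            exact hl' ⟨hl.1, by omega⟩
          have h4 : ((χ.lam * N : ℕ) : ℤ) = (χ.lam : ℤ) * N := by push_cast; rfl
          omega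
        rw [χ.idim_eq_zero m h2, mul_zero]
      have h2 : ∑ l ∈ Ioc (-((Λ * N : ℕ) : ℤ)) L, φ j a b l * χ.idim m N l j a b =
          ∑ l ∈ Ioc (-((Λ * N : ℕ) : ℤ)) (max ((Λ * N : ℕ) : ℤ) L),
            φ j a b l * χ.idim m N l j a b := by
        apply sum_subset (Ioc_subset_Ioc_right (le_max_right _ _))
        intro l hl hl'
        rw [mem_Ioc] at hl hl'
        rw [hR.idim_eq_zero hN hin (by
          by_contra h
          exact hl' ⟨hl.1, by omega⟩), mul_zero]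
      rw [h1, h2]
    rw [e1, mul_sum, ← sum_sub_distrib]
    have e2 : ∀ l ∈ Ioc (-((Λ * N : ℕ) : ℤ)) L, |χ.vdim N j * φ j a b l -
        φ j a b l * χ.idim m N l j a b| ≤ Ω * (χ.vdim N j - χ.idim m N l j a b) := by
      intro l hl
      rw [mem_Ioc] at hl
      have h1 : χ.vdim N j * φ j a b l - φ j a b l * χ.idim m N l j a b =
          φ j a b l * (χ.vdim N j - χ.idim m N l j a b) := by ring
      have h2 := χ.idim_le m l hin
      rw [h1, abs_mul, abs_of_nonneg (by linarith : 0 ≤ χ.vdim N j - χ.idim m N l j a b)]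
      exact mul_le_mul_of_nonneg_right (hφ j a b l hin hl.1 hl.2) (by linarith)
    refine (abs_sum_le_sum_abs _ _).trans ((sum_le_sum e2).trans ?_)
    rw [← mul_sum]
    apply mul_le_mul_of_nonneg_left _ hΩ
    apply le_of_eq
    symm
    apply sum_subset (Ioc_subset_Ioc_left (by omega))
    intro l hl hl'
    rw [mem_Ioc] at hl hl'
    have h3 : l ≤ -(χ.lam * N) := by
      have h4 : ((χ.lam * N : ℕ) : ℤ) = (χ.lam : ℤ) * N := by push_cast; rfl
      have h5 : l ≤ -((χ.lam * N : ℕ) : ℤ) := by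
        by_contra h
        exact hl' ⟨by omega, hl.2⟩
      omega
    rw [χ.idim_eq_vdim m hin h3, sub_self]
  calc _ ≤ ∑ j ∈ JJ (r * q) N, ∑ a ∈ range (AA (r * q) N j + 1),
        ∑ b ∈ range (BB (r * q) N j + 1),
        Ω * ∑ l ∈ Ioc (-((χ.lam : ℤ) * N)) (lw al be ga de N j a b),
          (χ.vdim N j - χ.idim m N l j a b) := by
        apply sum_le_sum
        intro j hj
        refine (abs_sum_le_sum_abs _ _).trans (sum_le_sum fun a ha => ?_)
        exact (abs_sum_le_sum_abs _ _).trans (sum_le_sum fun b hb => key j hj a ha b hb)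
    _ = Ω * ∑ j ∈ JJ (r * q) N, ∑ a ∈ range (AA (r * q) N j + 1),
        ∑ b ∈ range (BB (r * q) N j + 1),
        ∑ l ∈ Ioc (-((χ.lam : ℤ) * N)) (lw al be ga de N j a b),
          (χ.vdim N j - χ.idim m N l j a b) := by
        simp only [mul_sum]
    _ ≤ Ω * (C * (N : ℝ) ^ 3) := mul_le_mul_of_nonneg_left (hC N hN) hΩ
    _ ≤ Ω * (max C 0 * (N : ℝ) ^ 3) := by
        apply mul_le_mul_of_nonneg_left _ hΩ
        apply mul_le_mul_of_nonneg_right (le_max_left _ _) (by positivity)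
    _ = _ := by ring

end Pool.Agent.YTD


end

/- source: Pool.Agent.YTD.RigidLayers -/

section

/-!
The mean and the second moment of a rigid filtration on a layer are intrinsic.
-/

namespace Pool.Agent.YTD

open Module Finset MvPolynomial

variable {K : Type} [Field K] [Algebra ℂ K]
variable {T : Datum K} {q : ℕ} {D₀ : T.X.Pt →₀ ℤ} {r : ℕ}

/-- the degree in `x₀, x₁`. -/
def xd (e : Fin 4 →₀ ℕ) : ℕ := e 0 + e 1

/-- the degree in `y₀, y₁`. -/
def yd (e : Fin 4 →₀ ℕ) : ℕ := e 2 + e 3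

theorem xd_expo {Q N : ℕ} {j : ℤ} {a b : ℕ} (ha : a ≤ AA Q N j) : xd (expo Q N j a b) = AA Q N j := by
  unfold xd
  rw [expo_0, expo_1]
  omega

theorem yd_expo {Q N : ℕ} {j : ℤ} {a b : ℕ} (hb : b ≤ BB Q N j) : yd (expo Q N j a b) = BB Q N j := by
  unfold yd
  rw [expo_2, expo_3]
  omega

theorem ten_le_AA {Q N : ℕ} {j : ℤ} (hj : j ∈ JJ Q N) : 10 * Q * N ≤ AA Q N j := by
  have h := mem_JJ.1 hj
  have h1 := AA_cast h
  rw [abs_le] at h
  have : ((10 * Q * N : ℕ) : ℤ) ≤ AA Q N j := by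
    rw [h1]
    push_cast
    linarith
  exact_mod_cast this

theorem ten_le_BB {Q N : ℕ} {j : ℤ} (hj : j ∈ JJ Q N) : 10 * Q * N ≤ BB Q N j := by
  have h := mem_JJ.1 hj
  have h1 := BB_cast h
  rw [abs_le] at h
  have : ((10 * Q * N : ℕ) : ℤ) ≤ BB Q N j := by
    rw [h1]
    push_cast
    linarith
  exact_mod_cast this

theorem AA_inj {Q N : ℕ} {j j' : ℤ} (hj : j ∈ JJ Q N) (hj' : j' ∈ JJ Q N)
    (h : AA Q N j = AA Q N j') : j = j' := by
  have h1 := AA_cast (mem_JJ.1 hj)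
  have h2 := AA_cast (mem_JJ.1 hj')
  rw [h] at h1
  linarith

theorem BB_inj {Q N : ℕ} {j j' : ℤ} (hj : j ∈ JJ Q N) (hj' : j' ∈ JJ Q N)
    (h : BB Q N j = BB Q N j') : j = j' := by
  have h1 := BB_cast (mem_JJ.1 hj)
  have h2 := BB_cast (mem_JJ.1 hj')
  rw [h] at h1
  linarith

/-- splitting off a layer. -/
theorem sum_layer {Q N : ℕ} {j : ℤ} (hj : j ∈ JJ Q N) {w : (Fin 4 →₀ ℕ) → ℕ} {κ : ℤ → ℕ}
    (hw : ∀ j ∈ JJ Q N, ∀ a b, a ≤ AA Q N j → b ≤ BB Q N j → w (expo Q N j a b) = κ j)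
    (hκ : ∀ j ∈ JJ Q N, ∀ j' ∈ JJ Q N, κ j = κ j' → j = j') (hpos : 0 < κ j)
    (f : (Fin 4 →₀ ℕ) → ℝ) :
    ∑ e ∈ Eset Q N with w e ≤ κ j, f e = ∑ e ∈ Eset Q N with w e ≤ κ j - 1, f e +
      ∑ a ∈ range (AA Q N j + 1), ∑ b ∈ range (BB Q N j + 1), f (expo Q N j a b) := by
  have key : ∀ c : ℕ, ∑ e ∈ Eset Q N with w e ≤ c, f e = ∑ i ∈ JJ Q N,
      if κ i ≤ c then ∑ a ∈ range (AA Q N i + 1), ∑ b ∈ range (BB Q N i + 1), f (expo Q N i a b)
        else 0 := by
    intro c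
    rw [sum_filter, sum_Eset]
    apply sum_congr rfl
    intro i hi
    split_ifs with h
    · apply sum_congr rfl
      intro a ha
      apply sum_congr rfl
      intro b hb
      rw [if_pos]
      rw [hw i hi a b (Nat.lt_succ_iff.1 (mem_range.1 ha)) (Nat.lt_succ_iff.1 (mem_range.1 hb))]
      exact h
    · apply sum_eq_zero
      intro a ha
      apply sum_eq_zero
      intro b hb
      rw [if_neg]
      rw [hw i hi a b (Nat.lt_succ_iff.1 (mem_range.1 ha)) (Nat.lt_succ_iff.1 (mem_range.1 hb))]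
      exact h
  rw [key, key, ← sub_eq_iff_eq_add', ← sum_sub_distrib, sum_eq_single_of_mem j hj]
  · rw [if_pos le_rfl, if_neg (by omega), sub_zero]
  · intro i hi hne
    have h1 : κ i ≠ κ j := fun h => hne (hκ i hi j hj h)
    by_cases h2 : κ i ≤ κ j
    · rw [if_pos h2, if_pos (by omega), sub_self]
    · rw [if_neg h2, if_neg (by omega), sub_self]

/-- `w` is an injective function of the layer. -/
structure LayerWt (w : (Fin 4 →₀ ℕ) → ℕ) (Q N : ℕ) (κ : ℤ → ℕ) : Prop where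
  eq : ∀ j ∈ JJ Q N, ∀ a b, a ≤ AA Q N j → b ≤ BB Q N j → w (expo Q N j a b) = κ j
  inj : ∀ j ∈ JJ Q N, ∀ j' ∈ JJ Q N, κ j = κ j' → j = j'
  pos : ∀ j ∈ JJ Q N, 0 < κ j

theorem layerWt_xd {Q N : ℕ} (hQ : 0 < Q) (hN : 0 < N) : LayerWt xd Q N (AA Q N) where
  eq := fun _ _ _ _ ha _ => xd_expo ha
  inj := fun _ hj _ hj' h => AA_inj hj hj' h
  pos := fun _ hj => lt_of_lt_of_le (by positivity) (ten_le_AA hj)

theorem layerWt_yd {Q N : ℕ} (hQ : 0 < Q) (hN : 0 < N) : LayerWt yd Q N (BB Q N) where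
  eq := fun _ _ _ _ _ hb => yd_expo hb
  inj := fun _ hj _ hj' h => BB_inj hj hj' h
  pos := fun _ hj => lt_of_lt_of_le (by positivity) (ten_le_BB hj)

namespace Filt

/-- The sum of the dimensions of the initial spaces over a layer is intrinsic. -/
theorem sum_idim_layer (χ : Filt T q D₀ r) {m : MonomialOrder (Fin 4)} {w : (Fin 4 →₀ ℕ) → ℕ}
    {N : ℕ} {κ : ℤ → ℕ} (hw : LayerWt w (r * q) N κ) (hm : Refines m w (Eset (r * q) N))
    (l : ℤ) {j : ℤ} (hj : j ∈ JJ (r * q) N) :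
    ∑ a ∈ range (AA (r * q) N j + 1), ∑ b ∈ range (BB (r * q) N j + 1), χ.idim m N l j a b =
      (finrank ℂ (χ.F N l ⊓ Wle w (κ j) : Submodule ℂ (MvPolynomial (Fin 4) K)) : ℝ) -
      finrank ℂ (χ.F N l ⊓ Wle w (κ j - 1) : Submodule ℂ (MvPolynomial (Fin 4) K)) := by
  rw [finrank_Wle m (χ.finite_F N l) hm χ.F_exp, finrank_Wle m (χ.finite_F N l) hm χ.F_exp]
  push_cast
  rw [sum_layer hj hw.eq hw.inj (hw.pos j hj) (fun e => (finrank ℂ (ini m (χ.F N l) e) : ℝ))]
  unfold idim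
  ring

/-- dimension of the pieces. -/
theorem vdim_eq (χ : Filt T q D₀ r) (hD : T.X.deg D₀ = 105 * T.t * q) (hq : 0 < q) (hr : 0 < r)
    {N : ℕ} (hN : 4 ≤ N) {j : ℤ} (hj : j ∈ JJ (r * q) N) :
    χ.vdim N j = (dg T.t (r * q) N j : ℝ) - 9 * T.t := by
  have hD' : T.X.deg (r • D₀) = 105 * T.t * (r * q : ℕ) := by
    rw [T.X.deg_nsmul, hD]
    push_cast
    ring
  have h1 := deg_dvs_crit T (r * q) (r • D₀) hD' N j
  have ht := T.t_pos
  have h2 : 5 * (T.t : ℤ) * (r * q : ℕ) * N ≤ dg T.t (r * q) N j := le_dg (mem_JJ.1 hj)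
  have h3 : 20 * (T.t : ℤ) ≤ 5 * (T.t : ℤ) * (r * q : ℕ) * N := by
    have h4 : 1 ≤ r * q := Nat.mul_pos hr hq
    have h5 : 1 * 4 ≤ (r * q) * N := Nat.mul_le_mul h4 hN
    have h6 : 5 * T.t * (1 * 4) ≤ 5 * T.t * ((r * q) * N) := Nat.mul_le_mul_left _ h5
    have h7 : ((5 * T.t * (1 * 4) : ℕ) : ℤ) ≤ ((5 * T.t * ((r * q) * N) : ℕ) : ℤ) := by
      exact_mod_cast h6
    push_cast at h7 ⊢
    linarith
  have h8 := T.X.riemann_roch (T.dvs (r * q) (r • D₀) N j) (by
    rw [h1, T.genus_eq]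
    push_cast
    omega)
  rw [h1, T.genus_eq] at h8
  have h9 : (finrank ℂ (T.V (r * q) (r • D₀) N j) : ℤ) = dg T.t (r * q) N j - 9 * T.t := by
    unfold Datum.V
    rw [h8]
    push_cast
    ring
  unfold vdim
  have h10 : ((finrank ℂ (T.V (r * q) (r • D₀) N j) : ℤ) : ℝ) =
      ((dg T.t (r * q) N j - 9 * T.t : ℤ) : ℝ) := by rw [h9]
  push_cast at h10
  exact h10

theorem le_vdim (χ : Filt T q D₀ r) (hD : T.X.deg D₀ = 105 * T.t * q) (hq : 0 < q) (hr : 0 < r)
    {N : ℕ} (hN : 4 ≤ N) {j : ℤ} (hj : j ∈ JJ (r * q) N) : (N : ℝ) ≤ χ.vdim N j := by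
  rw [χ.vdim_eq hD hq hr hN hj]
  have h2 : 5 * (T.t : ℤ) * (r * q : ℕ) * N ≤ dg T.t (r * q) N j := le_dg (mem_JJ.1 hj)
  have h3 : ((5 * (T.t : ℤ) * (r * q : ℕ) * N : ℤ) : ℝ) ≤ (dg T.t (r * q) N j : ℝ) := by
    exact_mod_cast h2
  push_cast at h3
  have ht : (1 : ℝ) ≤ T.t := by exact_mod_cast T.t_pos
  have h4 : (1 : ℝ) ≤ r * q := by exact_mod_cast Nat.mul_pos hr hq
  have hN' : (4 : ℝ) ≤ N := by exact_mod_cast hN
  have h5 : (T.t : ℝ) * N * 1 ≤ T.t * N * (r * q) := by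
    apply mul_le_mul_of_nonneg_left h4
    positivity
  nlinarith

theorem vdim_pos (χ : Filt T q D₀ r) (hD : T.X.deg D₀ = 105 * T.t * q) (hq : 0 < q) (hr : 0 < r)
    {N : ℕ} (hN : 4 ≤ N) {j : ℤ} (hj : j ∈ JJ (r * q) N) : 0 < χ.vdim N j := by
  have h := χ.le_vdim hD hq hr hN hj
  have hN' : (4 : ℝ) ≤ N := by exact_mod_cast hN
  linarith

/-- the linear form of a rigid filtration is bounded below. -/
theorem Rigid.lower {χ : Filt T q D₀ r} {m : MonomialOrder (Fin 4)} {al be ga de : ℤ}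
    (hR : χ.Rigid m al be ga de) (hD : T.X.deg D₀ = 105 * T.t * q) (hq : 0 < q) (hr : 0 < r)
    {N : ℕ} (hN : 4 ≤ N) {j : ℤ} {a b : ℕ} (h : InR (r * q) N j a b) :
    -((χ.lam : ℤ) * N) ≤ lw al be ga de N j a b := by
  apply hR.upper N hN _ j a b h
  have h1 := χ.vdim_pos hD hq hr hN (mem_JJ.2 h.1)
  intro h0
  have h2 := χ.idim_eq_vdim m (l := -((χ.lam : ℤ) * N)) h le_rfl
  unfold idim at h2
  rw [h0] at h2
  simp at h2
  linarith

end Filt

end Pool.Agent.YTD


end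

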