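import Pool.Agent.YTDM.P02

/- source: Pool.Agent.YTD.HypLoc -/

section

/-!
An abstract field of formal Laurent series over `ℂ`.
-/

namespace Pool.Agent.YTD.Hyp

section gen

variable {Γ : Type} [AddCommGroup Γ] [LinearOrder Γ] [IsOrderedAddMonoid Γ]

theorem hs_sqrt_one {z : HahnSeries Γ ℂ} (hz : 0 < (z - 1).orderTop) :
    ∃ w : HahnSeries Γ ℂ, w ^ 2 = z := by
  refine ⟨PowerSeries.heval (z - 1) (PowerSeries.binomialSeries ℂ (1 / 2 : ℂ)), ?_⟩
  rw [← map_pow, sq, ← PowerSeries.binomialSeries_add]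
  have h1 : (1 / 2 : ℂ) + 1 / 2 = ((1 : ℕ) : ℂ) := by norm_num
  rw [h1, PowerSeries.binomialSeries_nat, pow_one, map_add, map_one, PowerSeries.heval_X _ hz]
  ring

theorem hs_lc_neg (z : HahnSeries Γ ℂ) : (-z).leadingCoeff = - z.leadingCoeff := by
  exact HahnSeries.leadingCoeff_neg

theorem hs_sqrt {z : HahnSeries Γ ℂ} (hz : z ≠ 0) (he : Even z.order) (b : ℂ)
    (hb : b ^ 2 = z.leadingCoeff) :
    ∃ η : HahnSeries Γ ℂ, η ^ 2 = z ∧ η.leadingCoeff = b := by
  obtain ⟨m, hm⟩ := he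
  have hc := HahnSeries.leadingCoeff_ne_zero.2 hz
  have hb0 : b ≠ 0 := by
    rintro rfl
    apply hc
    rw [← hb]
    simp
  set u : HahnSeries Γ ℂ := HahnSeries.single m b with hu
  have hu0 : u ≠ 0 := HahnSeries.single_ne_zero hb0
  have hul : u.leadingCoeff = b := HahnSeries.leadingCoeff_of_single
  have huo : u.order = m := HahnSeries.order_single hb0
  have h1 : 0 < (z * (u ^ 2)⁻¹ - 1).orderTop := by
    rw [HahnSeries.orderTop_self_sub_one_pos_iff]
    have h2 : (z * (u ^ 2)⁻¹) * u ^ 2 = z := by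
      field_simp
    have h3 : z * (u ^ 2)⁻¹ ≠ 0 := mul_ne_zero hz (inv_ne_zero (pow_ne_zero 2 hu0))
    constructor
    · have h4 := HahnSeries.order_mul h3 (pow_ne_zero 2 hu0)
      rw [h2, HahnSeries.order_pow, huo, hm] at h4
      rw [← HahnSeries.order_eq_orderTop_of_ne_zero h3]
      have h5 : (z * (u ^ 2)⁻¹).order = 0 := by
        rw [two_nsmul] at h4
        exact (add_right_cancel (b := m + m) (by rw [zero_add]; exact h4)).symm
      rw [h5]
      rfl
    · have h4 := HahnSeries.leadingCoeff_mul (z * (u ^ 2)⁻¹) (u ^ 2)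
      have h6 : (u ^ 2).leadingCoeff = b ^ 2 := by
        rw [sq u, HahnSeries.leadingCoeff_mul, hul, ← sq]
      rw [h2, h6, ← hb] at h4
      have h5 : b ^ 2 ≠ 0 := pow_ne_zero 2 hb0
      exact (mul_right_cancel₀ h5 (by rw [one_mul]; exact h4)).symm
  obtain ⟨w, hw⟩ := hs_sqrt_one h1
  have h2 : (w * u) ^ 2 = z := by
    rw [mul_pow, hw]
    field_simp
  have h3 : (w * u).leadingCoeff ^ 2 = b ^ 2 := by
    rw [hb, sq, ← HahnSeries.leadingCoeff_mul, ← sq, h2]
  rcases sq_eq_sq_iff_eq_or_eq_neg.1 h3 with h4 | h4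
  · exact ⟨w * u, h2, h4⟩
  · refine ⟨-(w * u), (neg_sq (w * u)).trans h2, ?_⟩
    rw [hs_lc_neg, h4, neg_neg]

theorem hs_res {x y : HahnSeries Γ ℂ} (hx : x ≠ 0) (hy : y ≠ 0) (h : x.order = y.order) :
    ∃ c : ℂ, x - HahnSeries.C c * y = 0 ∨ x.order < (x - HahnSeries.C c * y).order := by
  have hy' := HahnSeries.leadingCoeff_ne_zero.2 hy
  have hx' := HahnSeries.leadingCoeff_ne_zero.2 hx
  refine ⟨x.leadingCoeff / y.leadingCoeff, ?_⟩
  by_cases h0 : x - HahnSeries.C (x.leadingCoeff / y.leadingCoeff) * y = 0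
  · exact Or.inl h0
  right
  have hc0 : HahnSeries.C (Γ := Γ) (x.leadingCoeff / y.leadingCoeff) ≠ 0 :=
    (map_ne_zero _).2 (div_ne_zero hx' hy')
  have hcy : HahnSeries.C (Γ := Γ) (x.leadingCoeff / y.leadingCoeff) * y ≠ 0 :=
    mul_ne_zero hc0 hy
  have ho : (HahnSeries.C (Γ := Γ) (x.leadingCoeff / y.leadingCoeff) * y).order = x.order := by
    rw [HahnSeries.order_mul hc0 hy, HahnSeries.order_C, zero_add, h]
  have hle : x.order ≤ (x - HahnSeries.C (x.leadingCoeff / y.leadingCoeff) * y).order := by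
    have h1 := HahnSeries.min_order_le_order_add (x := x)
      (y := -(HahnSeries.C (Γ := Γ) (x.leadingCoeff / y.leadingCoeff) * y))
      (by rw [← sub_eq_add_neg]; exact h0)
    rw [HahnSeries.order_neg, ho, min_self, ← sub_eq_add_neg] at h1
    exact h1
  refine lt_of_le_of_ne hle ?_
  intro he
  have h1 : (x - HahnSeries.C (x.leadingCoeff / y.leadingCoeff) * y).coeff x.order ≠ 0 := by
    rw [he]
    exact fun h2 => h0 (HahnSeries.coeff_order_eq_zero.1 h2)
  apply h1
  rw [HahnSeries.coeff_sub, HahnSeries.C_mul_eq_smul, HahnSeries.coeff_smul, smul_eq_mul]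
  have h2 : x.coeff x.order = x.leadingCoeff := HahnSeries.leadingCoeff_eq.symm
  have h3 : y.coeff x.order = y.leadingCoeff := by
    rw [h]
    exact HahnSeries.leadingCoeff_eq.symm
  rw [h2, h3, div_mul_cancel₀ _ hy', sub_self]

theorem hs_lc_add {x y : HahnSeries Γ ℂ} (hx : x ≠ 0) (hy : y ≠ 0) (h : x.order < y.order) :
    (x + y).leadingCoeff = x.leadingCoeff := by
  apply HahnSeries.leadingCoeff_add_eq_left
  rw [← HahnSeries.order_eq_orderTop_of_ne_zero hx, ← HahnSeries.order_eq_orderTop_of_ne_zero hy]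
  exact_mod_cast h

end gen

/-- A field with the properties of the field of Laurent series over `ℂ`. -/
structure LF (F : Type) [Field F] [Algebra ℂ F] where
  ord : F → ℤ
  lc : F → ℂ
  ord_mul : ∀ {x y : F}, x ≠ 0 → y ≠ 0 → ord (x * y) = ord x + ord y
  ord_add : ∀ {x y : F}, x + y ≠ 0 → min (ord x) (ord y) ≤ ord (x + y)
  ord_const : ∀ c : ℂ, ord (algebraMap ℂ F c) = 0
  lc_mul : ∀ x y : F, lc (x * y) = lc x * lc y
  lc_const : ∀ c : ℂ, lc (algebraMap ℂ F c) = c
  lc_neg : ∀ x : F, lc (-x) = - lc x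
  lc_add : ∀ {x y : F}, x ≠ 0 → y ≠ 0 → ord x < ord y → lc (x + y) = lc x
  res : ∀ {x y : F}, x ≠ 0 → y ≠ 0 → ord x = ord y →
    ∃ c : ℂ, x - c • y = 0 ∨ ord x < ord (x - c • y)
  sqrt : ∀ {z : F}, z ≠ 0 → Even (ord z) → ∀ b : ℂ, b ^ 2 = lc z → ∃ η : F, η ^ 2 = z ∧ lc η = b
  s : F
  s_ne : s ≠ 0
  ord_s : ord s = 1
  lc_s : lc s = 1

theorem exists_LF : ∃ (F : Type) (_ : Field F) (_ : Algebra ℂ F), Nonempty (LF F) := by
  letI : Algebra ℂ (HahnSeries ℤ ℂ) := RingHom.toAlgebra HahnSeries.C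
  refine ⟨HahnSeries ℤ ℂ, inferInstance, inferInstance, ⟨?_⟩⟩
  exact
  { ord := fun x => x.order
    lc := fun x => x.leadingCoeff
    ord_mul := fun hx hy => HahnSeries.order_mul hx hy
    ord_add := fun h => HahnSeries.min_order_le_order_add h
    ord_const := fun c => HahnSeries.order_C
    lc_mul := fun x y => HahnSeries.leadingCoeff_mul x y
    lc_const := fun c => HahnSeries.leadingCoeff_of_single
    lc_neg := fun x => hs_lc_neg x
    lc_add := fun hx hy h => hs_lc_add hx hy h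
    res := by
      intro x y hx hy h
      obtain ⟨c, hc⟩ := hs_res hx hy h
      refine ⟨c, ?_⟩
      rw [Algebra.smul_def]
      exact hc
    sqrt := fun hz he b hb => hs_sqrt hz he b hb
    s := HahnSeries.single 1 1
    s_ne := HahnSeries.single_ne_zero one_ne_zero
    ord_s := HahnSeries.order_single one_ne_zero
    lc_s := HahnSeries.leadingCoeff_of_single }

end Pool.Agent.YTD.Hyp


end

/- source: Pool.Agent.YTD.HypRR -/

section

/-!
An elementary proof of Riemann-Roch in the non-special range, for a curve with a function `x`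
whose only pole is a double pole.
-/

namespace Pool.Agent.YTD
namespace CurveOrd

open Module

variable {K : Type} [Field K] [Algebra ℂ K] (X : CurveOrd K)

/-- all residue fields are `ℂ` -/
def Res : Prop := ∀ (P : X.Pt) (f g : K), f ≠ 0 → g ≠ 0 → X.ord P f = X.ord P g →
  ∃ c : ℂ, f - c • g = 0 ∨ X.ord P f < X.ord P (f - c • g)

variable {X}

theorem L_add_single_le (hR : X.Res) (D : X.Pt →₀ ℤ) (P : X.Pt) :
    ∃ f₀, X.L (D + Finsupp.single P 1) ≤ X.L D ⊔ Submodule.span ℂ {f₀} := by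
  by_cases h : X.L (D + Finsupp.single P 1) ≤ X.L D
  · exact ⟨0, h.trans le_sup_left⟩
  obtain ⟨f₀, hf₀, hf₀'⟩ := Set.not_subset.1 h
  have key : ∀ f ∈ X.L (D + Finsupp.single P 1), f ∉ X.L D → f ≠ 0 ∧ X.ord P f = - D P - 1 := by
    intro f hf hf'
    have h0 : f ≠ 0 := by
      rintro rfl
      exact hf' (zero_mem _)
    refine ⟨h0, ?_⟩
    have h1 : ¬ (f ≠ 0 → ∀ Q, 0 ≤ X.ord Q f + D Q) := hf'
    push Not at h1
    obtain ⟨_, Q, hQ⟩ := h1
    have h2 := hf h0 Q
    rw [Finsupp.add_apply] at h2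
    by_cases hQP : Q = P
    · subst hQP
      rw [Finsupp.single_eq_same] at h2
      linarith
    · rw [Finsupp.single_eq_of_ne hQP] at h2
      linarith
  refine ⟨f₀, ?_⟩
  intro f hf
  by_cases hfD : f ∈ X.L D
  · exact (le_sup_left : X.L D ≤ X.L D ⊔ Submodule.span ℂ {f₀}) hfD
  obtain ⟨h0, h1⟩ := key f hf hfD
  obtain ⟨h0', h1'⟩ := key f₀ hf₀ hf₀'
  obtain ⟨c, hc⟩ := hR P f f₀ h0 h0' (by rw [h1, h1'])
  have h2 : f - c • f₀ ∈ X.L D := by
    rcases hc with hc | hc
    · rw [hc]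
      exact zero_mem _
    · have h3 : f - c • f₀ ∈ X.L (D + Finsupp.single P 1) :=
        sub_mem hf (Submodule.smul_mem _ _ hf₀)
      intro h4 Q
      have h5 := h3 h4 Q
      rw [Finsupp.add_apply] at h5
      by_cases hQP : Q = P
      · subst hQP
        linarith
      · rw [Finsupp.single_eq_of_ne hQP] at h5
        linarith
  rw [Submodule.mem_sup]
  exact ⟨_, h2, c • f₀, Submodule.smul_mem _ _ (Submodule.mem_span_singleton_self f₀), by abel⟩

theorem finite_L_of_res (hR : X.Res) (P : X.Pt) :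
    ∀ (n : ℕ) (D : X.Pt →₀ ℤ), X.deg D < n → Module.Finite ℂ (X.L D) := by
  intro n
  induction n with
  | zero =>
    intro D hD
    rw [X.L_eq_bot (by simpa using hD)]
    infer_instance
  | succ n ih =>
    intro D hD
    have h1 : X.deg (D - Finsupp.single P 1) < n := by
      rw [deg_sub, deg_single]
      push_cast at hD
      linarith
    have h2 := ih _ h1
    obtain ⟨f₀, hf₀⟩ := L_add_single_le hR (D - Finsupp.single P 1) P
    rw [sub_add_cancel] at hf₀
    exact Submodule.finiteDimensional_of_le hf₀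

theorem finite_L' (hR : X.Res) (D : X.Pt →₀ ℤ) [Nonempty X.Pt] : Module.Finite ℂ (X.L D) := by
  obtain ⟨P⟩ := ‹Nonempty X.Pt›
  exact finite_L_of_res hR P ((X.deg D + 1).toNat) D (by have := Int.self_le_toNat (X.deg D + 1); linarith)

theorem finrank_L_add_single (hR : X.Res) (D : X.Pt →₀ ℤ) (P : X.Pt) :
    finrank ℂ (X.L (D + Finsupp.single P 1)) ≤ finrank ℂ (X.L D) + 1 := by
  haveI : Nonempty X.Pt := ⟨P⟩
  obtain ⟨f₀, hf₀⟩ := L_add_single_le hR D P
  haveI := finite_L' hR D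
  have h1 := Submodule.finrank_mono hf₀
  have h2 := Submodule.finrank_add_le_finrank_add_finrank (X.L D) (Submodule.span ℂ {f₀})
  have h3 : finrank ℂ (Submodule.span ℂ {f₀}) ≤ 1 := by
    have := finrank_span_le_card (R := ℂ) ({f₀} : Set K)
    simpa using this
  omega

/-- `dim L(D) - deg D` is non-increasing in `D`. -/
theorem finrank_L_mono (hR : X.Res) {D E : X.Pt →₀ ℤ} (h : ∀ P, D P ≤ E P) :
    (finrank ℂ (X.L E) : ℤ) - X.deg E ≤ finrank ℂ (X.L D) - X.deg D := by
  obtain ⟨n, hn⟩ : ∃ n : ℕ, (n : ℤ) = X.deg (E - D) :=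
    ⟨(X.deg (E - D)).toNat, Int.toNat_of_nonneg (X.deg_nonneg (by intro P; simp [h P]))⟩
  induction n generalizing E with
  | zero =>
    have h0 : E - D = 0 := by
      by_contra h0
      obtain ⟨P, hP⟩ := Finsupp.support_nonempty_iff.2 h0
      have h1 : 0 < X.deg (E - D) := by
        unfold deg
        apply Finset.sum_pos'
        · intro Q _
          simp [h Q]
        · refine ⟨P, hP, ?_⟩
          have h2 : 0 ≤ (E - D) P := by simp [h P]
          exact lt_of_le_of_ne h2 (Ne.symm (Finsupp.mem_support_iff.1 hP))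
      rw [← hn] at h1
      simp at h1
    rw [sub_eq_zero] at h0
    rw [h0]
  | succ n ih =>
    have h0 : ∃ P, D P < E P := by
      by_contra h0
      push Not at h0
      have h1 : E = D := Finsupp.ext fun P => le_antisymm (h0 P) (h P)
      rw [h1, sub_self, deg_zero] at hn
      push_cast at hn
      linarith
    obtain ⟨P, hP⟩ := h0
    have h1 : ∀ Q, D Q ≤ (E - Finsupp.single P (1 : ℤ)) Q := by
      intro Q
      rw [Finsupp.sub_apply]
      by_cases hQP : Q = P
      · subst hQP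
        rw [Finsupp.single_eq_same]
        linarith
      · rw [Finsupp.single_eq_of_ne hQP]
        linarith [h Q]
    have h2 := ih h1 (by
      rw [sub_right_comm, deg_sub, deg_single, ← hn]
      push_cast
      ring)
    have h3 := finrank_L_add_single hR (E - Finsupp.single P 1) P
    rw [sub_add_cancel] at h3
    rw [deg_sub, deg_single] at h2
    have h4 : (finrank ℂ (X.L E) : ℤ) ≤ finrank ℂ (X.L (E - Finsupp.single P 1)) + 1 := by
      exact_mod_cast h3
    linarith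

theorem mulLeft_inj {f : K} (hf : f ≠ 0) : Function.Injective (LinearMap.mulLeft ℂ f) :=
  fun _ _ h => mul_left_cancel₀ hf h

theorem finrank_L_add_dv (D : X.Pt →₀ ℤ) {f : K} (hf : f ≠ 0) :
    finrank ℂ (X.L (D + X.dv f)) = finrank ℂ (X.L D) := by
  have h1 : (X.L (D + X.dv f)).map (LinearMap.mulLeft ℂ f) = X.L D := by
    ext z
    simp only [Submodule.mem_map, LinearMap.mulLeft_apply]
    constructor
    · rintro ⟨w, hw, rfl⟩
      exact (X.mul_mem_L_iff hf).2 hw
    · intro hz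
      refine ⟨f⁻¹ * z, ?_, ?_⟩
      · rw [← X.mul_mem_L_iff hf, mul_inv_cancel_left₀ hf]
        exact hz
      · rw [mul_inv_cancel_left₀ hf]
  rw [← h1]
  exact LinearEquiv.finrank_eq (Submodule.equivMapOfInjective (LinearMap.mulLeft ℂ f)
    (mulLeft_inj hf) (X.L (D + X.dv f)))

/-- Integer sequences which are convex, eventually of slope two, eventually zero. -/
theorem convex_lemma {h : ℤ → ℤ} {d g : ℤ} (hc : ∀ n, 2 * h n ≤ h (n + 1) + h (n - 1))
    (h2 : ∃ n₀ : ℕ, ∀ n : ℤ, (n₀ : ℤ) ≤ n → h n = d + 2 * n + 1 - g)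
    (h0 : ∀ n, d + 2 * n < 0 → h n = 0) (hg : 0 ≤ g) (hd : 2 * g - 2 < d) :
    h 0 = d + 1 - g := by
  obtain ⟨n₀, hn₀⟩ := h2
  -- monotone slopes
  have hs : ∀ (m : ℤ) (k : ℕ), h (m + 1) - h m ≤ h (m + k + 1) - h (m + k) := by
    intro m k
    induction k with
    | zero => simp
    | succ k ih =>
      have := hc (m + k + 1)
      have e1 : m + ((k + 1 : ℕ) : ℤ) = m + k + 1 := by push_cast; ring
      rw [e1]
      have e2 : m + (k : ℤ) + 1 - 1 = m + k := by ring
      rw [e2] at this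
      linarith
  have hs2 : ∀ m : ℤ, h (m + 1) - h m ≤ 2 := by
    intro m
    have h3 := hs m (n₀ + m.natAbs)
    have e1 : (n₀ : ℤ) ≤ m + ((n₀ + m.natAbs : ℕ) : ℤ) := by omega
    rw [hn₀ (m + ((n₀ + m.natAbs : ℕ) : ℤ)) e1,
      hn₀ (m + ((n₀ + m.natAbs : ℕ) : ℤ) + 1) (by linarith)] at h3
    linarith
  have hlow : ∀ k : ℕ, h k ≤ h 0 + 2 * k := by
    intro k
    induction k with
    | zero => simp
    | succ k ih =>
      have := hs2 k
      push_cast
      linarith
  have h3 := hlow n₀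
  rw [hn₀ _ le_rfl] at h3
  by_contra hne
  have h4 : d + 2 - g ≤ h 0 := by omega
  have h5 : h 0 - h (-1) ≤ 1 := by
    by_contra h5
    have h6 : ∀ k : ℕ, h 0 + 2 * k ≤ h k := by
      intro k
      induction k with
      | zero => simp
      | succ k ih =>
        have h7 := hs (-1) (k + 1)
        have e1 : (-1 : ℤ) + ((k + 1 : ℕ) : ℤ) = k := by push_cast; ring
        have e2 : (-1 : ℤ) + 1 = 0 := by norm_num
        rw [e1, e2] at h7
        push_cast
        linarith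
    have h7 := h6 n₀
    rw [hn₀ _ le_rfl] at h7
    linarith
  have h6 : ∀ k : ℕ, h 0 - k ≤ h (-k) := by
    intro k
    induction k with
    | zero => simp
    | succ k ih =>
      have h7 := hs (-(k : ℤ) - 1) k
      have e1 : -(k : ℤ) - 1 + k = -1 := by ring
      have e2 : -(k : ℤ) - 1 + 1 = -k := by ring
      have e3 : (-1 : ℤ) + 1 = 0 := by norm_num
      rw [e1, e2, e3] at h7
      have e4 : (-((k + 1 : ℕ) : ℤ)) = -(k : ℤ) - 1 := by push_cast; ring
      rw [e4]
      push_cast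
      linarith
  have h7 := h6 (d / 2 + 1).toNat
  have h8 : (((d / 2 + 1).toNat : ℕ) : ℤ) = d / 2 + 1 := Int.toNat_of_nonneg (by omega)
  rw [h8, h0 (-(d / 2 + 1)) (by omega)] at h7
  omega

/-- The convexity of `n ↦ dim L(D + 2 n ∞)`. -/
theorem finrank_L_convex (hR : X.Res) {inf : X.Pt} {x : K} (hx : x ≠ 0)
    (hxi : X.ord inf x = -2) (hxP : ∀ P, P ≠ inf → 0 ≤ X.ord P x) (D : X.Pt →₀ ℤ) (n : ℤ) :
    2 * (finrank ℂ (X.L (D + Finsupp.single inf (2 * n))) : ℤ) ≤
      finrank ℂ (X.L (D + Finsupp.single inf (2 * (n + 1)))) +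
      finrank ℂ (X.L (D + Finsupp.single inf (2 * (n - 1)))) := by
  haveI : Nonempty X.Pt := ⟨inf⟩
  haveI := fun D => finite_L' hR D
  set A : ℤ → Submodule ℂ K := fun n => X.L (D + Finsupp.single inf (2 * n)) with hA
  have hinj := mulLeft_inj hx
  set B := (A n).map (LinearMap.mulLeft ℂ x) with hB
  have hfB : finrank ℂ B = finrank ℂ (A n) :=
    (LinearEquiv.finrank_eq (Submodule.equivMapOfInjective (LinearMap.mulLeft ℂ x) hinj _)).symm
  have hfA : finrank ℂ ((A (n - 1)).map (LinearMap.mulLeft ℂ x)) = finrank ℂ (A (n - 1)) :=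
    (LinearEquiv.finrank_eq (Submodule.equivMapOfInjective (LinearMap.mulLeft ℂ x) hinj _)).symm
  have h1 : A n ≤ A (n + 1) := by
    apply X.L_mono
    intro P
    simp only [Finsupp.add_apply]
    by_cases hP : P = inf
    · subst hP
      rw [Finsupp.single_eq_same, Finsupp.single_eq_same]
      linarith
    · rw [Finsupp.single_eq_of_ne hP, Finsupp.single_eq_of_ne hP]
  have h2 : B ≤ A (n + 1) := by
    rintro _ ⟨z, hz, rfl⟩
    intro h0 P
    rw [LinearMap.mulLeft_apply] at h0 ⊢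
    have hz0 : z ≠ 0 := right_ne_zero_of_mul h0
    have h3 := hz hz0 P
    rw [X.ord_mul P x z hx hz0]
    rw [Finsupp.add_apply] at h3 ⊢
    by_cases hP : P = inf
    · subst hP
      rw [Finsupp.single_eq_same] at h3 ⊢
      rw [hxi]
      linarith
    · rw [Finsupp.single_eq_of_ne hP] at h3 ⊢
      have := hxP P hP
      linarith
  have h3 : A n ⊓ B ≤ (A (n - 1)).map (LinearMap.mulLeft ℂ x) := by
    rintro _ ⟨hz, w, hw, rfl⟩
    refine ⟨w, ?_, rfl⟩
    rw [LinearMap.mulLeft_apply] at hz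
    intro h0 P
    have h4 := hw h0 P
    have h5 := hz (mul_ne_zero hx h0) P
    rw [X.ord_mul P x w hx h0] at h5
    rw [Finsupp.add_apply] at h4 h5 ⊢
    by_cases hP : P = inf
    · subst hP
      rw [Finsupp.single_eq_same] at h4 h5 ⊢
      rw [hxi] at h5
      linarith
    · rw [Finsupp.single_eq_of_ne hP] at h4 ⊢
      linarith
  haveI : ∀ m, Module.Finite ℂ (A m) := fun m => finite_L' hR _
  have h4 := Submodule.finrank_sup_add_finrank_inf_eq (A n) B
  have h5 := Submodule.finrank_mono h3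
  have h6 := Submodule.finrank_mono (sup_le h1 h2)
  rw [hfA] at h5
  rw [hfB] at h4
  have h7 : 2 * finrank ℂ (A n) ≤ finrank ℂ (A (n + 1)) + finrank ℂ (A (n - 1)) := by omega
  exact_mod_cast h7

theorem ord_pow (P : X.Pt) {f : K} (hf : f ≠ 0) (n : ℕ) : X.ord P (f ^ n) = n * X.ord P f := by
  induction n with
  | zero => simp [X.ord_one P]
  | succ n ih =>
    rw [pow_succ, X.ord_mul P _ _ (pow_ne_zero n hf) hf, ih]
    push_cast
    ring

theorem exists_bounding {inf : X.Pt}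
    (hu : ∀ P, P ≠ inf → ∃ u : K, u ≠ 0 ∧ 1 ≤ X.ord P u ∧ (∀ Q, Q ≠ inf → 0 ≤ X.ord Q u) ∧
      Even (X.ord inf u)) (D : X.Pt →₀ ℤ) :
    ∃ u : K, u ≠ 0 ∧ (∀ Q, Q ≠ inf → D Q ≤ X.ord Q u) ∧ (∀ Q, Q ≠ inf → 0 ≤ X.ord Q u) ∧
      Even (X.ord inf u) := by
  induction D using Finsupp.induction_linear with
  | zero =>
    refine ⟨1, one_ne_zero, ?_, ?_, ?_⟩
    · intro Q _
      rw [X.ord_one]
      simp
    · intro Q _
      rw [X.ord_one]
    · rw [X.ord_one]
      simp
  | add D E hD hE =>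
    obtain ⟨u, hu1, hu2, hu3, hu4⟩ := hD
    obtain ⟨v, hv1, hv2, hv3, hv4⟩ := hE
    refine ⟨u * v, mul_ne_zero hu1 hv1, ?_, ?_, ?_⟩
    · intro Q hQ
      rw [X.ord_mul Q _ _ hu1 hv1, Finsupp.add_apply]
      exact add_le_add (hu2 Q hQ) (hv2 Q hQ)
    · intro Q hQ
      rw [X.ord_mul Q _ _ hu1 hv1]
      exact add_nonneg (hu3 Q hQ) (hv3 Q hQ)
    · rw [X.ord_mul _ _ _ hu1 hv1]
      exact hu4.add hv4
  | single P n =>
    by_cases hP : P = inf
    · refine ⟨1, one_ne_zero, ?_, ?_, ?_⟩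
      · intro Q hQ
        rw [X.ord_one, Finsupp.single_eq_of_ne (by rw [hP]; exact hQ)]
      · intro Q _
        rw [X.ord_one]
      · rw [X.ord_one]
        simp
    · obtain ⟨u, hu1, hu2, hu3, hu4⟩ := hu P hP
      refine ⟨u ^ n.natAbs, pow_ne_zero _ hu1, ?_, ?_, ?_⟩
      · intro Q hQ
        rw [ord_pow Q hu1]
        by_cases hQP : Q = P
        · subst hQP
          rw [Finsupp.single_eq_same]
          have h1 : (0 : ℤ) ≤ n.natAbs := by positivity
          have h2 : n ≤ n.natAbs := Int.le_natAbs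
          nlinarith
        · rw [Finsupp.single_eq_of_ne hQP]
          have := hu3 Q hQ
          positivity
      · intro Q hQ
        rw [ord_pow Q hu1]
        have := hu3 Q hQ
        positivity
      · rw [ord_pow _ hu1]
        exact hu4.mul_left _

theorem rr_of (hR : X.Res) {inf : X.Pt} {x : K} (hx : x ≠ 0)
    (hxi : X.ord inf x = -2) (hxP : ∀ P, P ≠ inf → 0 ≤ X.ord P x)
    (hu : ∀ P, P ≠ inf → ∃ u : K, u ≠ 0 ∧ 1 ≤ X.ord P u ∧ (∀ Q, Q ≠ inf → 0 ≤ X.ord Q u) ∧
      Even (X.ord inf u)) {g : ℕ}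
    (hk : ∃ k₀ : ℕ, ∀ k : ℤ, (k₀ : ℤ) ≤ k →
      (finrank ℂ (X.L (Finsupp.single inf (2 * k))) : ℤ) = 2 * k + 1 - g)
    (D : X.Pt →₀ ℤ) (hD : 2 * (g : ℤ) - 2 < X.deg D) :
    (finrank ℂ (X.L D) : ℤ) = X.deg D + 1 - g := by
  obtain ⟨k₀, hk⟩ := hk
  have hmain := convex_lemma (h := fun n => (finrank ℂ (X.L (D + Finsupp.single inf (2 * n))) : ℤ))
    (d := X.deg D) (g := g) (fun n => finrank_L_convex hR hx hxi hxP D n) ?_ ?_
    (by positivity) hD
  · have e0 : D + Finsupp.single inf (2 * (0 : ℤ)) = D := by simp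
    rw [e0] at hmain
    exact hmain
  · -- Riemann's theorem
    obtain ⟨u, hu1, hu2, hu3, hu4⟩ := exists_bounding hu D
    obtain ⟨v, hv1, hv2, hv3, hv4⟩ := exists_bounding hu (-D)
    have hw0 := mul_ne_zero hu1 hv1
    obtain ⟨M, hM⟩ : ∃ M : ℤ, X.ord inf (u * v) = -(2 * M) := by
      rw [X.ord_mul _ _ _ hu1 hv1]
      obtain ⟨a, ha⟩ := hu4
      obtain ⟨b, hb⟩ := hv4
      exact ⟨-a - b, by rw [ha, hb]; ring⟩
    have hw1 : ∀ Q, Q ≠ inf → |D Q| ≤ X.ord Q (u * v) := by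
      intro Q hQ
      rw [X.ord_mul _ _ _ hu1 hv1]
      have h1 := hu2 Q hQ
      have h2 := hu3 Q hQ
      have h3 := hv2 Q hQ
      have h4 := hv3 Q hQ
      rw [Finsupp.neg_apply] at h3
      rw [abs_le]
      constructor <;> linarith
    refine ⟨k₀ + M.natAbs + (D inf).natAbs, ?_⟩
    intro n hn
    push_cast at hn
    have hM1 := abs_le.1 (le_refl |M|)
    have hM2 := abs_le.1 (le_refl |D inf|)
    -- upper divisor
    set m : ℤ := n + M + |D inf| with hm
    set m' : ℤ := n - M - |D inf| with hm'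
    have h1 := finrank_L_mono hR (D := D + Finsupp.single inf (2 * n))
      (E := Finsupp.single inf (2 * m) + X.dv (u * v)) (by
        intro P
        rw [Finsupp.add_apply, Finsupp.add_apply, X.dv_apply hw0]
        by_cases hP : P = inf
        · subst hP
          rw [Finsupp.single_eq_same, Finsupp.single_eq_same, hM, hm]
          linarith
        · rw [Finsupp.single_eq_of_ne hP, Finsupp.single_eq_of_ne hP]
          have := abs_le.1 (hw1 P hP)
          linarith)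
    have h2 := finrank_L_mono hR (E := D + Finsupp.single inf (2 * n))
      (D := Finsupp.single inf (2 * m') + X.dv (u * v)⁻¹) (by
        intro P
        rw [Finsupp.add_apply, Finsupp.add_apply, X.dv_apply (inv_ne_zero hw0), X.ord_inv P hw0]
        by_cases hP : P = inf
        · subst hP
          rw [Finsupp.single_eq_same, Finsupp.single_eq_same, hM, hm']
          linarith
        · rw [Finsupp.single_eq_of_ne hP, Finsupp.single_eq_of_ne hP]
          have := abs_le.1 (hw1 P hP)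
          linarith)
    rw [finrank_L_add_dv _ hw0, deg_add, deg_add, deg_single, deg_single, X.deg_dv hw0,
      hk m (by rw [hm]; linarith)] at h1
    rw [finrank_L_add_dv _ (inv_ne_zero hw0), deg_add, deg_add, deg_single, deg_single,
      X.deg_dv (inv_ne_zero hw0), hk m' (by rw [hm']; linarith)] at h2
    linarith
  · intro n hn
    rw [X.L_eq_bot (by rw [deg_add, deg_single]; exact hn)]
    simp

end CurveOrd
end Pool.Agent.YTD


end

/- source: Pool.Agent.YTD.HypPar -/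

section

/-!
Local parametrisations of plane curves `y² = f(x)` by Laurent series.
-/

namespace Pool.Agent.YTD.Hyp

open Polynomial

noncomputable section

/-- induction principle for polynomials over `ℂ` -/
theorem poly_ind {M : ℂ[X] → Prop} (hC : ∀ c : ℂ, c ≠ 0 → M (C c)) (hX : ∀ a : ℂ, M (X - C a))
    (hmul : ∀ p q : ℂ[X], p ≠ 0 → q ≠ 0 → M p → M q → M (p * q)) : ∀ p : ℂ[X], p ≠ 0 → M p := by
  intro p
  induction h : p.natDegree using Nat.strong_induction_on generalizing p with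
  | _ n ih =>
    intro hp
    by_cases hn : p.natDegree = 0
    · rw [Polynomial.eq_C_of_natDegree_eq_zero hn]
      apply hC
      intro h0
      apply hp
      rw [Polynomial.eq_C_of_natDegree_eq_zero hn, h0, map_zero]
    · obtain ⟨a, ha⟩ := IsAlgClosed.exists_root p (by
        intro h0
        apply hn
        exact Polynomial.natDegree_eq_zero_iff_degree_le_zero.2 (le_of_eq h0))
      obtain ⟨q, hq⟩ := Polynomial.dvd_iff_isRoot.2 ha
      have hq0 : q ≠ 0 := by
        rintro rfl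
        rw [mul_zero] at hq
        exact hp hq
      have hd : q.natDegree < n := by
        rw [← h, hq, Polynomial.natDegree_mul (Polynomial.X_sub_C_ne_zero a) hq0,
          Polynomial.natDegree_X_sub_C]
        omega
      rw [hq]
      exact hmul _ _ (Polynomial.X_sub_C_ne_zero a) hq0 (hX a) (ih _ hd q rfl hq0)

variable {F : Type} [Field F] [Algebra ℂ F] (Λ : LF F)

namespace LF

variable {Λ}

theorem ord_one : Λ.ord 1 = 0 := by
  have := Λ.ord_const 1
  rwa [map_one] at this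

theorem ord_neg (x : F) : Λ.ord (-x) = Λ.ord x := by
  by_cases hx : x = 0
  · rw [hx, neg_zero]
  have h1 : -x = algebraMap ℂ F (-1) * x := by
    rw [map_neg, map_one]
    ring
  have h2 : algebraMap ℂ F (-1) ≠ 0 := by
    rw [map_neg, map_one]
    exact neg_ne_zero.2 one_ne_zero
  rw [h1, Λ.ord_mul h2 hx, Λ.ord_const, zero_add]

theorem ord_pow {x : F} (hx : x ≠ 0) (n : ℕ) : Λ.ord (x ^ n) = n * Λ.ord x := by
  induction n with
  | zero => simp [ord_one]
  | succ n ih =>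
    rw [pow_succ, Λ.ord_mul (pow_ne_zero n hx) hx, ih]
    push_cast
    ring

theorem ord_inv {x : F} (hx : x ≠ 0) : Λ.ord x⁻¹ = - Λ.ord x := by
  have h1 := Λ.ord_mul hx (inv_ne_zero hx)
  rw [mul_inv_cancel₀ hx, ord_one] at h1
  linarith

theorem ord_div {x y : F} (hx : x ≠ 0) (hy : y ≠ 0) : Λ.ord (x / y) = Λ.ord x - Λ.ord y := by
  rw [div_eq_mul_inv, Λ.ord_mul hx (inv_ne_zero hy), ord_inv hy]
  ring

theorem add_ne_zero_of_ord {x y : F} (h : Λ.ord x ≠ Λ.ord y) : x + y ≠ 0 := by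
  intro h0
  apply h
  rw [eq_neg_of_add_eq_zero_left h0, ord_neg]

theorem ord_add_lt {x y : F} (hx : x ≠ 0) (h : Λ.ord x < Λ.ord y) :
    Λ.ord (x + y) = Λ.ord x := by
  have h0 : x + y ≠ 0 := add_ne_zero_of_ord (ne_of_lt h)
  have h1 := Λ.ord_add h0
  rw [min_eq_left (le_of_lt h)] at h1
  have h2 := Λ.ord_add (x := x + y) (y := -y) (by rw [add_neg_cancel_right]; exact hx)
  rw [add_neg_cancel_right, ord_neg] at h2
  rcases min_choice (Λ.ord (x + y)) (Λ.ord y) with h3 | h3 <;> rw [h3] at h2 <;> linarith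

theorem ord_add_ne {x y : F} (hx : x ≠ 0) (hy : y ≠ 0) (h : Λ.ord x ≠ Λ.ord y) :
    Λ.ord (x + y) = min (Λ.ord x) (Λ.ord y) := by
  rcases lt_or_gt_of_ne h with h1 | h1
  · rw [ord_add_lt hx h1, min_eq_left (le_of_lt h1)]
  · rw [add_comm, ord_add_lt hy h1, min_eq_right (le_of_lt h1)]

end LF

/-- A local parametrisation of the curve `y² = f(x)`. -/
structure Par (F : Type) [Field F] [Algebra ℂ F] (f : ℂ[X]) where
  θ : F
  η : F
  hη : η ^ 2 = aeval θ f
  hθ : ∀ c : ℂ, θ - algebraMap ℂ F c ≠ 0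

variable {f : ℂ[X]}

theorem aeval_X_sub_C (θ : F) (a : ℂ) : aeval θ (X - C a) = θ - algebraMap ℂ F a := by
  rw [map_sub, aeval_X, aeval_C]

theorem Par.aeval_ne (P : Par F f) : ∀ p : ℂ[X], p ≠ 0 → aeval P.θ p ≠ 0 := by
  apply poly_ind
  · intro c hc
    rw [aeval_C]
    exact (_root_.map_ne_zero _).2 hc
  · intro a
    rw [aeval_X_sub_C]
    exact P.hθ a
  · intro p q _ _ h1 h2
    rw [map_mul]
    exact mul_ne_zero h1 h2

theorem Par.inj (P : Par F f) : Function.Injective (aeval (R := ℂ) P.θ) := by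
  rw [injective_iff_map_eq_zero]
  intro p hp
  by_contra h
  exact P.aeval_ne p h hp

theorem Par.η_ne (P : Par F f) (hf : f ≠ 0) : P.η ≠ 0 := by
  intro h
  apply P.aeval_ne f hf
  rw [← P.hη, h]
  ring

/-- restriction to `ℂ(x)` -/
def Par.psi (P : Par F f) : RatFunc ℂ →ₐ[ℂ] F :=
  RatFunc.liftAlgHom (aeval P.θ) (nonZeroDivisors_le_comap_nonZeroDivisors_of_injective _ P.inj)

theorem Par.psi_algebraMap (P : Par F f) (p : ℂ[X]) :
    P.psi (algebraMap ℂ[X] (RatFunc ℂ) p) = aeval P.θ p := by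
  have := RatFunc.liftAlgHom_apply_div (aeval P.θ)
    (nonZeroDivisors_le_comap_nonZeroDivisors_of_injective _ P.inj) p 1
  simpa [Par.psi] using this

/-- The function field of `y² = f(x)`. -/
abbrev KK (f : ℂ[X]) := QuadraticAlgebra (RatFunc ℂ) (algebraMap ℂ[X] (RatFunc ℂ) f) 0

/-- The embedding of the function field in the field of Laurent series. -/
def Par.phi (P : Par F f) : KK f →ₐ[ℂ] F where
  toFun z := P.psi z.re + P.psi z.im * P.η
  map_one' := by
    rw [QuadraticAlgebra.re_one, QuadraticAlgebra.im_one, map_one, map_zero]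
    ring
  map_zero' := by
    rw [QuadraticAlgebra.re_zero, QuadraticAlgebra.im_zero, map_zero]
    ring
  map_mul' z w := by
    rw [QuadraticAlgebra.re_mul, QuadraticAlgebra.im_mul, map_add, map_mul, map_mul, map_mul,
      map_add, map_add, map_mul, map_mul, map_mul, map_mul, map_zero, P.psi_algebraMap, ← P.hη]
    ring
  map_add' z w := by
    rw [QuadraticAlgebra.re_add, QuadraticAlgebra.im_add, map_add, map_add]
    ring
  commutes' c := by
    have h1 : (algebraMap ℂ (KK f) c).re = algebraMap ℂ (RatFunc ℂ) c := rfl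
    have h2 : (algebraMap ℂ (KK f) c).im = 0 := rfl
    rw [h1, h2, map_zero, zero_mul, add_zero, AlgHom.commutes]

theorem Par.phi_apply (P : Par F f) (z : KK f) : P.phi z = P.psi z.re + P.psi z.im * P.η := rfl

/-- the conjugate parametrisation -/
def Par.conj (P : Par F f) : Par F f where
  θ := P.θ
  η := -P.η
  hη := by rw [neg_sq, P.hη]
  hθ := P.hθ

theorem Par.phi_conj (P : Par F f) (z : KK f) : P.conj.phi z = P.phi (star z) := by
  rw [phi_apply, phi_apply, QuadraticAlgebra.re_star, QuadraticAlgebra.im_star, zero_mul, add_zero,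
    map_neg]
  show P.psi z.re + P.psi z.im * (-P.η) = _
  ring

end

end Pool.Agent.YTD.Hyp


end

/- source: Pool.Agent.YTD.HypPts -/

section

/-!
The points of the projective curve `y² = f(x)` and their local parametrisations.
-/

namespace Pool.Agent.YTD.Hyp

open Polynomial

noncomputable section

variable {F : Type} [Field F] [Algebra ℂ F] (Λ : LF F)

/-- the value of `x` at an affine point -/
def thA (e : ℕ) (a : ℂ) : F := algebraMap ℂ F a + Λ.s ^ e

/-- the value of `x` at infinity -/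
def thI : F := (Λ.s ^ 2)⁻¹

variable {Λ}

theorem ord_s_pow (e : ℕ) : Λ.ord (Λ.s ^ e) = e := by
  rw [LF.ord_pow Λ.s_ne, Λ.ord_s, mul_one]

theorem lc_s_pow (e : ℕ) : Λ.lc (Λ.s ^ e) = 1 := by
  induction e with
  | zero =>
    have := Λ.lc_const 1
    rw [map_one] at this
    rw [pow_zero, this]
  | succ n ih => rw [pow_succ, Λ.lc_mul, ih, Λ.lc_s, mul_one]

theorem thA_sub (e : ℕ) (a c : ℂ) :
    thA Λ e a - algebraMap ℂ F c = algebraMap ℂ F (a - c) + Λ.s ^ e := by
  unfold thA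
  rw [map_sub]
  ring

theorem thA_sub_self (e : ℕ) (a : ℂ) : thA Λ e a - algebraMap ℂ F a = Λ.s ^ e := by
  rw [thA_sub, sub_self, map_zero, zero_add]

theorem ord_thA_sub {e : ℕ} (he : 0 < e) {a c : ℂ} (h : a ≠ c) :
    Λ.ord (thA Λ e a - algebraMap ℂ F c) = 0 := by
  have h1 : algebraMap ℂ F (a - c) ≠ 0 := (_root_.map_ne_zero _).2 (sub_ne_zero.2 h)
  rw [thA_sub, LF.ord_add_lt h1, Λ.ord_const]
  rw [Λ.ord_const, ord_s_pow]
  exact_mod_cast he

theorem lc_thA_sub {e : ℕ} (he : 0 < e) {a c : ℂ} (h : a ≠ c) :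
    Λ.lc (thA Λ e a - algebraMap ℂ F c) = a - c := by
  have h1 : algebraMap ℂ F (a - c) ≠ 0 := (_root_.map_ne_zero _).2 (sub_ne_zero.2 h)
  rw [thA_sub, Λ.lc_add h1 (pow_ne_zero e Λ.s_ne), Λ.lc_const]
  rw [Λ.ord_const, ord_s_pow]
  exact_mod_cast he

theorem thA_sub_ne {e : ℕ} (he : 0 < e) (a c : ℂ) : thA Λ e a - algebraMap ℂ F c ≠ 0 := by
  by_cases h : a = c
  · subst h
    rw [thA_sub_self]
    exact pow_ne_zero e Λ.s_ne
  · rw [thA_sub]
    apply LF.add_ne_zero_of_ord (Λ := Λ)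
    rw [Λ.ord_const, ord_s_pow]
    exact_mod_cast (Nat.ne_of_gt he).symm

theorem ord_thI : Λ.ord (thI Λ) = -2 := by
  unfold thI
  rw [LF.ord_inv (pow_ne_zero 2 Λ.s_ne), ord_s_pow]
  rfl

theorem thI_ne : thI Λ ≠ 0 := inv_ne_zero (pow_ne_zero 2 Λ.s_ne)

theorem thI_sub_ne (c : ℂ) : thI Λ - algebraMap ℂ F c ≠ 0 := by
  rw [sub_eq_add_neg]
  apply LF.add_ne_zero_of_ord (Λ := Λ)
  rw [LF.ord_neg, Λ.ord_const, ord_thI]
  norm_num

theorem ord_thI_sub (c : ℂ) : Λ.ord (thI Λ - algebraMap ℂ F c) = -2 := by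
  rw [sub_eq_add_neg, LF.ord_add_lt thI_ne, ord_thI]
  rw [LF.ord_neg, Λ.ord_const, ord_thI]
  norm_num

theorem aeval_ne_of {θ : F} (h : ∀ c : ℂ, θ - algebraMap ℂ F c ≠ 0) :
    ∀ p : ℂ[X], p ≠ 0 → aeval θ p ≠ 0 := by
  apply poly_ind
  · intro c hc
    rw [aeval_C]
    exact (_root_.map_ne_zero _).2 hc
  · intro a
    rw [aeval_X_sub_C]
    exact h a
  · intro p q _ _ h1 h2
    rw [map_mul]
    exact mul_ne_zero h1 h2

theorem ord_aff {e : ℕ} (he : 0 < e) (a : ℂ) : ∀ p : ℂ[X], p ≠ 0 →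
    (p.eval a ≠ 0 → Λ.ord (aeval (thA Λ e a) p) = 0 ∧ Λ.lc (aeval (thA Λ e a) p) = p.eval a) ∧
    (p.eval a = 0 → 0 < Λ.ord (aeval (thA Λ e a) p)) := by
  apply poly_ind
  · intro c hc
    rw [aeval_C, eval_C]
    exact ⟨fun _ => ⟨Λ.ord_const c, Λ.lc_const c⟩, fun h => absurd h hc⟩
  · intro c
    rw [aeval_X_sub_C, eval_sub, eval_X, eval_C]
    constructor
    · intro h
      exact ⟨ord_thA_sub he (sub_ne_zero.1 h), lc_thA_sub he (sub_ne_zero.1 h)⟩
    · intro h
      rw [sub_eq_zero] at h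
      subst h
      rw [thA_sub_self, ord_s_pow]
      exact_mod_cast he
  · intro p q hp hq h1 h2
    rw [map_mul, eval_mul, Λ.ord_mul (aeval_ne_of (thA_sub_ne he a) p hp)
      (aeval_ne_of (thA_sub_ne he a) q hq), Λ.lc_mul]
    constructor
    · intro h
      obtain ⟨h3, h4⟩ := h1.1 (left_ne_zero_of_mul h)
      obtain ⟨h5, h6⟩ := h2.1 (right_ne_zero_of_mul h)
      rw [h3, h4, h5, h6]
      simp
    · intro h
      have h3 : 0 ≤ Λ.ord (aeval (thA Λ e a) p) := by
        by_cases h4 : p.eval a = 0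
        · exact le_of_lt (h1.2 h4)
        · exact le_of_eq (h1.1 h4).1.symm
      have h4 : 0 ≤ Λ.ord (aeval (thA Λ e a) q) := by
        by_cases h4 : q.eval a = 0
        · exact le_of_lt (h2.2 h4)
        · exact le_of_eq (h2.1 h4).1.symm
      rcases mul_eq_zero.1 h with h5 | h5
      · have := h1.2 h5
        linarith
      · have := h2.2 h5
        linarith

theorem ord_aff_nonneg {e : ℕ} (he : 0 < e) (a : ℂ) {p : ℂ[X]} (hp : p ≠ 0) :
    0 ≤ Λ.ord (aeval (thA Λ e a) p) := by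
  by_cases h4 : p.eval a = 0
  · exact le_of_lt ((ord_aff he a p hp).2 h4)
  · exact le_of_eq ((ord_aff he a p hp).1 h4).1.symm

theorem ord_aff_even (a : ℂ) : ∀ p : ℂ[X], p ≠ 0 → Even (Λ.ord (aeval (thA Λ 2 a) p)) := by
  apply poly_ind
  · intro c _
    rw [aeval_C, Λ.ord_const]
    exact Even.zero
  · intro c
    rw [aeval_X_sub_C]
    by_cases h : a = c
    · subst h
      rw [thA_sub_self, ord_s_pow]
      exact even_two
    · rw [ord_thA_sub (by norm_num) h]
      exact Even.zero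
  · intro p q hp hq h1 h2
    rw [map_mul, Λ.ord_mul (aeval_ne_of (thA_sub_ne (by norm_num) a) p hp)
      (aeval_ne_of (thA_sub_ne (by norm_num) a) q hq)]
    exact h1.add h2

theorem ord_inf : ∀ p : ℂ[X], p ≠ 0 → Λ.ord (aeval (thI Λ) p) = -2 * (p.natDegree : ℤ) := by
  apply poly_ind
  · intro c _
    rw [aeval_C, Λ.ord_const]
    simp
  · intro c
    rw [aeval_X_sub_C, ord_thI_sub, natDegree_X_sub_C]
    norm_num
  · intro p q hp hq h1 h2
    rw [map_mul, Λ.ord_mul (aeval_ne_of thI_sub_ne p hp) (aeval_ne_of thI_sub_ne q hq), h1, h2,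
      natDegree_mul hp hq]
    push_cast
    ring

variable (f : ℂ[X])

/-- the points of the affine curve -/
abbrev APt := {p : ℂ × ℂ // p.2 ^ 2 = f.eval p.1}

/-- the points of the projective curve -/
abbrev Pts := Option (APt f)

variable {f}

/-- ramification index -/
def ram (P : APt f) : ℕ := if P.1.2 = 0 then 2 else 1

theorem ram_pos (P : APt f) : 0 < ram P := by
  unfold ram
  split <;> norm_num

theorem exists_parA (Λ : LF F) (hf : f ≠ 0) (P : APt f) : ∃ Q : Par F f,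
    Q.θ = thA Λ (ram P) P.1.1 ∧ (P.1.2 ≠ 0 → Λ.lc Q.η = P.1.2) := by
  have hne := aeval_ne_of (thA_sub_ne (Λ := Λ) (ram_pos P) P.1.1) f hf
  by_cases hb : P.1.2 = 0
  · obtain ⟨b, hb'⟩ := IsAlgClosed.exists_pow_nat_eq (Λ.lc (aeval (thA Λ (ram P) P.1.1) f))
      (n := 2) (by norm_num)
    have he : Even (Λ.ord (aeval (thA Λ (ram P) P.1.1) f)) := by
      have : ram P = 2 := by
        unfold ram
        rw [if_pos hb]
      rw [this]
      exact ord_aff_even _ f hf
    obtain ⟨η, h1, h2⟩ := Λ.sqrt hne he b hb'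
    exact ⟨⟨_, η, h1, thA_sub_ne (ram_pos P) P.1.1⟩, rfl, fun h => absurd hb h⟩
  · have h3 : f.eval P.1.1 ≠ 0 := by
      rw [← P.2]
      exact pow_ne_zero 2 hb
    obtain ⟨h4, h5⟩ := (ord_aff (Λ := Λ) (ram_pos P) P.1.1 f hf).1 h3
    obtain ⟨η, h1, h2⟩ := Λ.sqrt hne (by rw [h4]; exact Even.zero) P.1.2 (by rw [h5, ← P.2])
    exact ⟨⟨_, η, h1, thA_sub_ne (ram_pos P) P.1.1⟩, rfl, fun _ => h2⟩

theorem exists_parI (Λ : LF F) (hf : f ≠ 0) : ∃ Q : Par F f, Q.θ = thI Λ := by
  have hne := aeval_ne_of (thI_sub_ne (Λ := Λ)) f hf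
  obtain ⟨b, hb'⟩ := IsAlgClosed.exists_pow_nat_eq (Λ.lc (aeval (thI Λ) f))
      (n := 2) (by norm_num)
  obtain ⟨η, h1, _⟩ := Λ.sqrt hne (by rw [ord_inf f hf]; exact Even.mul_right (by decide) _) b hb'
  exact ⟨⟨_, η, h1, thI_sub_ne⟩, rfl⟩

/-- the local parametrisation at a point -/
def parAt (Λ : LF F) (hf : f ≠ 0) : Pts f → Par F f
  | none => (exists_parI Λ hf).choose
  | some P => (exists_parA Λ hf P).choose

theorem parAt_none (Λ : LF F) (hf : f ≠ 0) : (parAt Λ hf none).θ = thI Λ :=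
  (exists_parI Λ hf).choose_spec

theorem parAt_some (Λ : LF F) (hf : f ≠ 0) (P : APt f) :
    (parAt Λ hf (some P)).θ = thA Λ (ram P) P.1.1 :=
  (exists_parA Λ hf P).choose_spec.1

theorem parAt_some_lc (Λ : LF F) (hf : f ≠ 0) (P : APt f) (h : P.1.2 ≠ 0) :
    Λ.lc (parAt Λ hf (some P)).η = P.1.2 :=
  (exists_parA Λ hf P).choose_spec.2 h

/-- the order of vanishing at a point -/
def ordAt (Λ : LF F) (hf : f ≠ 0) (P : Pts f) (z : KK f) : ℤ := Λ.ord ((parAt Λ hf P).phi z)

/-- polynomials in `x` as rational functions -/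
def emb (p : ℂ[X]) : KK f := algebraMap (RatFunc ℂ) (KK f) (algebraMap ℂ[X] (RatFunc ℂ) p)

theorem phi_emb (P : Par F f) (p : ℂ[X]) : P.phi (emb p) = aeval P.θ p := by
  rw [Par.phi_apply]
  have h1 : (emb p : KK f).re = algebraMap ℂ[X] (RatFunc ℂ) p := rfl
  have h2 : (emb p : KK f).im = 0 := rfl
  rw [h1, h2, map_zero, zero_mul, add_zero, P.psi_algebraMap]

theorem ordAt_emb_none (hf : f ≠ 0) {p : ℂ[X]} (hp : p ≠ 0) :
    ordAt Λ hf none (emb p) = -2 * (p.natDegree : ℤ) := by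
  unfold ordAt
  rw [phi_emb, parAt_none, ord_inf p hp]

theorem ordAt_emb_nonneg (hf : f ≠ 0) {p : ℂ[X]} (hp : p ≠ 0) (P : APt f) :
    0 ≤ ordAt Λ hf (some P) (emb p) := by
  unfold ordAt
  rw [phi_emb, parAt_some]
  exact ord_aff_nonneg (ram_pos P) _ hp

theorem ordAt_emb_zero (hf : f ≠ 0) {p : ℂ[X]} (P : APt f) (h : p.eval P.1.1 ≠ 0) :
    ordAt Λ hf (some P) (emb p) = 0 := by
  have hp : p ≠ 0 := by
    rintro rfl
    simp at h
  unfold ordAt
  rw [phi_emb, parAt_some]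
  exact ((ord_aff (ram_pos P) _ p hp).1 h).1

theorem ordAt_emb_pos (hf : f ≠ 0) {p : ℂ[X]} (hp : p ≠ 0) (P : APt f) (h : p.eval P.1.1 = 0) :
    0 < ordAt Λ hf (some P) (emb p) := by
  unfold ordAt
  rw [phi_emb, parAt_some]
  exact (ord_aff (ram_pos P) _ p hp).2 h

theorem ordAt_X_sub_C_self (hf : f ≠ 0) (P : APt f) :
    ordAt Λ hf (some P) (emb (X - C P.1.1)) = ram P := by
  unfold ordAt
  rw [phi_emb, parAt_some, aeval_X_sub_C, thA_sub_self, ord_s_pow]

theorem two_ord_eta (hf : f ≠ 0) (P : Pts f) :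
    2 * Λ.ord (parAt Λ hf P).η = ordAt Λ hf P (emb f) := by
  unfold ordAt
  rw [phi_emb, ← (parAt Λ hf P).hη, LF.ord_pow ((parAt Λ hf P).η_ne hf)]
  rfl

/-- At a ramified point the order only depends on the class modulo conjugation. -/
theorem ram_min (P : Par F f) (hf : f ≠ 0) (he : ∀ p : ℂ[X], p ≠ 0 → Even (Λ.ord (aeval P.θ p)))
    (ho : Odd (Λ.ord P.η)) {z : KK f} (h1 : z.re ≠ 0) (h2 : z.im ≠ 0) :
    Λ.ord (P.phi z) = min (Λ.ord (P.psi z.re)) (Λ.ord (P.psi z.im) + Λ.ord P.η) := by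
  have hev : ∀ r : RatFunc ℂ, r ≠ 0 → Even (Λ.ord (P.psi r)) := by
    intro r hr
    obtain ⟨p, q, hq, hpq⟩ := IsFractionRing.div_surjective (A := ℂ[X]) r
    have hq0 : q ≠ 0 := nonZeroDivisors.ne_zero hq
    have hp0 : p ≠ 0 := by
      rintro rfl
      apply hr
      rw [← hpq, map_zero, zero_div]
    rw [← hpq, map_div₀, P.psi_algebraMap, P.psi_algebraMap,
      LF.ord_div (P.aeval_ne p hp0) (P.aeval_ne q hq0)]
    exact (he p hp0).sub (he q hq0)
  have h3 : P.psi z.re ≠ 0 := (_root_.map_ne_zero _).2 h1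
  have h4 : P.psi z.im ≠ 0 := (_root_.map_ne_zero _).2 h2
  rw [Par.phi_apply, LF.ord_add_ne h3 (mul_ne_zero h4 (P.η_ne hf)), Λ.ord_mul h4 (P.η_ne hf)]
  rw [Λ.ord_mul h4 (P.η_ne hf)]
  intro h5
  have h6 := hev _ h1
  rw [h5] at h6
  exact (Int.not_even_iff_odd.2 ((hev _ h2).add_odd ho)) h6

theorem ram_star (P : Par F f) (hf : f ≠ 0) (he : ∀ p : ℂ[X], p ≠ 0 → Even (Λ.ord (aeval P.θ p)))
    (ho : Odd (Λ.ord P.η)) (z : KK f) : Λ.ord (P.phi (star z)) = Λ.ord (P.phi z) := by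
  have e1 : (star z).re = z.re := by
    rw [QuadraticAlgebra.re_star, zero_mul, add_zero]
  have e2 : (star z).im = - z.im := QuadraticAlgebra.im_star z
  by_cases h1 : z.re = 0
  · rw [Par.phi_apply, Par.phi_apply, e1, e2, h1, map_zero, zero_add, zero_add, map_neg, neg_mul,
      LF.ord_neg]
  by_cases h2 : z.im = 0
  · rw [Par.phi_apply, Par.phi_apply, e1, e2, h2, neg_zero]
  rw [ram_min P hf he ho h1 h2, ram_min P hf he ho (by rw [e1]; exact h1)
    (by rw [e2]; exact neg_ne_zero.2 h2), e1, e2, map_neg, LF.ord_neg]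

/-- the hyperelliptic involution -/
def tau : Pts f → Pts f
  | none => none
  | some P => some ⟨(P.1.1, -P.1.2), by
      have := P.2
      simp only [neg_sq]
      exact this⟩

theorem tau_tau (P : Pts f) : tau (tau P) = P := by
  rcases P with _ | P
  · rfl
  · unfold tau
    simp

/-- conditions on `f` -/
structure Good (f : ℂ[X]) : Prop where
  ne : f ≠ 0
  odd : Odd f.natDegree
  simple : ∀ a : ℂ, f.eval a = 0 → ∃ q : ℂ[X], f = (X - C a) * q ∧ q.eval a ≠ 0
  sqf : Squarefree f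

variable (G : Good f)
include G

theorem ord_eta_inf : Λ.ord (parAt Λ G.ne none).η = - (f.natDegree : ℤ) := by
  have h1 := two_ord_eta (Λ := Λ) G.ne none
  rw [ordAt_emb_none G.ne G.ne] at h1
  linarith

theorem ord_eta_ram (P : APt f) (h : P.1.2 = 0) : Λ.ord (parAt Λ G.ne (some P)).η = 1 := by
  have h1 := two_ord_eta (Λ := Λ) G.ne (some P)
  have h2 : f.eval P.1.1 = 0 := by
    rw [← P.2, h]
    ring
  obtain ⟨q, hq, hq0⟩ := G.simple _ h2
  have hqn : q ≠ 0 := by
    rintro rfl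
    simp at hq0
  have h3 : ordAt Λ G.ne (some P) (emb f) = 2 := by
    have e : (emb f : KK f) = emb (X - C P.1.1) * emb q := by
      unfold emb
      rw [← map_mul, ← map_mul, ← hq]
    have h4 : ordAt Λ G.ne (some P) (emb f) = ordAt Λ G.ne (some P) (emb (X - C P.1.1)) +
        ordAt Λ G.ne (some P) (emb q) := by
      unfold ordAt
      rw [e, map_mul, Λ.ord_mul]
      · rw [phi_emb]
        exact Par.aeval_ne _ _ (X_sub_C_ne_zero _)
      · rw [phi_emb]
        exact Par.aeval_ne _ _ hqn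
    rw [h4, ordAt_X_sub_C_self, ordAt_emb_zero G.ne P hq0]
    unfold ram
    rw [if_pos h]
    rfl
  rw [h3] at h1
  linarith

theorem ordAt_tau (P : Pts f) (z : KK f) : ordAt Λ G.ne (tau P) z = ordAt Λ G.ne P (star z) := by
  rcases P with _ | P
  · show Λ.ord _ = Λ.ord _
    symm
    apply ram_star _ G.ne
    · intro p hp
      rw [parAt_none, ord_inf p hp]
      exact Even.mul_right (by decide) _
    · rw [ord_eta_inf G]
      have := G.odd
      exact ((Int.odd_coe_nat _).2 this).neg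
  · by_cases hb : P.1.2 = 0
    · have h1 : tau (some P) = some P := by
        show some _ = some P
        apply congrArg some
        apply Subtype.ext
        apply Prod.ext
        · rfl
        · show - P.1.2 = P.1.2
          rw [hb, neg_zero]
      rw [h1]
      symm
      apply ram_star _ G.ne
      · intro p hp
        rw [parAt_some]
        have : ram P = 2 := by
          unfold ram
          rw [if_pos hb]
        rw [this]
        exact ord_aff_even _ p hp
      · rw [ord_eta_ram G P hb]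
        exact odd_one
    · set P' : APt f := ⟨(P.1.1, -P.1.2), by
        have := P.2
        simp only [neg_sq]
        exact this⟩ with hP'
      have h1 : tau (some P) = some P' := rfl
      rw [h1]
      have hb' : P'.1.2 ≠ 0 := neg_ne_zero.2 hb
      have hθ : (parAt Λ G.ne (some P')).θ = (parAt Λ G.ne (some P)).θ := by
        rw [parAt_some, parAt_some]
        have : ram P' = ram P := by
          unfold ram
          rw [if_neg hb, if_neg hb']
        rw [this]
      have hη : (parAt Λ G.ne (some P')).η = - (parAt Λ G.ne (some P)).η := by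
        have h2 : (parAt Λ G.ne (some P')).η ^ 2 = (parAt Λ G.ne (some P)).η ^ 2 := by
          rw [Par.hη, Par.hη, hθ]
        rcases sq_eq_sq_iff_eq_or_eq_neg.1 h2 with h3 | h3
        · exfalso
          have h4 := parAt_some_lc Λ G.ne P hb
          have h5 := parAt_some_lc Λ G.ne P' hb'
          rw [h3, h4] at h5
          apply hb
          have h6 : P.1.2 = - P.1.2 := h5
          exact self_eq_neg.1 h6
        · exact h3
      have h4 : parAt Λ G.ne (some P') = (parAt Λ G.ne (some P)).conj := by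
        cases h5 : parAt Λ G.ne (some P') with
        | mk θ' η' hη' hθ' =>
          rw [h5] at hθ hη
          unfold Par.conj
          congr
      unfold ordAt
      rw [h4, Par.phi_conj]

end

end Pool.Agent.YTD.Hyp


end

/- source: Pool.Agent.YTD.HypCurve -/

section

/-!
The curve `y² = f(x)` as an instance of `CurveOrd`.
-/

namespace Pool.Agent.YTD.Hyp

open Polynomial

noncomputable section

variable {F : Type} [Field F] [Algebra ℂ F] {Λ : LF F} {f : ℂ[X]}

/-- the function `y` -/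
def yy : KK f := ⟨0, 1⟩

theorem phi_yy (P : Par F f) : P.phi (yy : KK f) = P.η := by
  rw [Par.phi_apply]
  show P.psi 0 + P.psi 1 * P.η = P.η
  rw [map_zero, map_one]
  ring

theorem emb_mul (p q : ℂ[X]) : (emb (p * q) : KK f) = emb p * emb q := by
  unfold emb
  rw [map_mul, map_mul]

theorem emb_add (p q : ℂ[X]) : (emb (p + q) : KK f) = emb p + emb q := by
  unfold emb
  rw [map_add, map_add]

theorem emb_one : (emb 1 : KK f) = 1 := by
  unfold emb
  rw [map_one, map_one]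

theorem emb_zero : (emb 0 : KK f) = 0 := by
  unfold emb
  rw [map_zero, map_zero]

theorem emb_C (c : ℂ) : (emb (C c) : KK f) = algebraMap ℂ (KK f) c := by
  unfold emb
  rw [← Polynomial.algebraMap_eq, ← IsScalarTower.algebraMap_apply ℂ ℂ[X] (RatFunc ℂ)]
  rfl

theorem emb_inj : Function.Injective (emb : ℂ[X] → KK f) := by
  intro p q h
  unfold emb at h
  exact RatFunc.algebraMap_injective ℂ (QuadraticAlgebra.algebraMap_injective h)

theorem emb_ne {p : ℂ[X]} (hp : p ≠ 0) : (emb p : KK f) ≠ 0 := by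
  intro h
  apply hp
  apply emb_inj (f := f)
  rw [h, emb_zero]

theorem yy_sq : (yy : KK f) * yy = emb f := by
  apply QuadraticAlgebra.ext
  · simp [yy, emb]
  · simp [yy, emb]

/-- Elements `u + v y` of the affine coordinate ring. -/
def aff (u v : ℂ[X]) : KK f := emb u + emb v * yy

theorem aff_re (u v : ℂ[X]) : (aff u v : KK f).re = algebraMap ℂ[X] (RatFunc ℂ) u := by
  simp [aff, emb, yy]

theorem aff_im (u v : ℂ[X]) : (aff u v : KK f).im = algebraMap ℂ[X] (RatFunc ℂ) v := by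
  simp [aff, emb, yy]

theorem star_aff (u v : ℂ[X]) : star (aff u v : KK f) = aff u (-v) := by
  apply QuadraticAlgebra.ext
  · rw [QuadraticAlgebra.re_star, aff_re, aff_re, zero_mul, add_zero]
  · rw [QuadraticAlgebra.im_star, aff_im, aff_im, map_neg]

theorem exists_aff (z : KK f) : ∃ u v q : ℂ[X], q ≠ 0 ∧ z * emb q = aff u v := by
  obtain ⟨a, b, hb, h1⟩ := IsFractionRing.div_surjective (A := ℂ[X]) z.re
  obtain ⟨c, d, hd, h2⟩ := IsFractionRing.div_surjective (A := ℂ[X]) z.im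
  have hb0 : b ≠ 0 := nonZeroDivisors.ne_zero hb
  have hd0 : d ≠ 0 := nonZeroDivisors.ne_zero hd
  have hb1 : algebraMap ℂ[X] (RatFunc ℂ) b ≠ 0 := by
    intro h
    exact hb0 (RatFunc.algebraMap_injective ℂ (by rw [h, map_zero]))
  have hd1 : algebraMap ℂ[X] (RatFunc ℂ) d ≠ 0 := by
    intro h
    exact hd0 (RatFunc.algebraMap_injective ℂ (by rw [h, map_zero]))
  refine ⟨a * d, c * b, b * d, mul_ne_zero hb0 hd0, ?_⟩
  have e1 : (emb (b * d) : KK f).re = algebraMap ℂ[X] (RatFunc ℂ) (b * d) := rfl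
  have e2 : (emb (b * d) : KK f).im = 0 := rfl
  apply QuadraticAlgebra.ext
  · rw [aff_re, QuadraticAlgebra.re_mul, e1, e2, ← h1, map_mul, map_mul]
    field_simp
    ring
  · rw [aff_im, QuadraticAlgebra.im_mul, e1, e2, ← h2, map_mul, map_mul]
    field_simp
    ring

/-- nonsquare condition, needed for the field structure -/
abbrev NonSq (f : ℂ[X]) : Prop :=
  Fact (∀ r : RatFunc ℂ, r ^ 2 ≠ algebraMap ℂ[X] (RatFunc ℂ) f + 0 * r)

theorem Good.nonSq (G : Good f) : NonSq f := by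
  refine ⟨?_⟩
  intro r h
  rw [zero_mul, add_zero] at h
  have hf : algebraMap ℂ[X] (RatFunc ℂ) f ≠ 0 := by
    intro h1
    exact G.ne (RatFunc.algebraMap_injective ℂ (by rw [h1, map_zero]))
  have hr : r ≠ 0 := by
    rintro rfl
    apply hf
    rw [← h]
    ring
  have h1 : (r ^ 2).intDegree = 2 * r.intDegree := by
    rw [sq, RatFunc.intDegree_mul hr hr]
    ring
  rw [h, RatFunc.intDegree_polynomial] at h1
  obtain ⟨m, hm⟩ := G.odd
  rw [hm] at h1
  push_cast at h1
  omega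

section fld

variable [NonSq f]

theorem phi_ne (P : Par F f) {z : KK f} (hz : z ≠ 0) : P.phi z ≠ 0 := by
  intro h
  have h1 : P.phi z * P.phi z⁻¹ = 1 := by
    rw [← map_mul, mul_inv_cancel₀ hz, map_one]
  rw [h, zero_mul] at h1
  exact zero_ne_one h1

theorem ordAt_mul (hf : f ≠ 0) (P : Pts f) {z w : KK f} (hz : z ≠ 0) (hw : w ≠ 0) :
    ordAt Λ hf P (z * w) = ordAt Λ hf P z + ordAt Λ hf P w := by
  unfold ordAt
  rw [map_mul, Λ.ord_mul (phi_ne _ hz) (phi_ne _ hw)]

theorem ordAt_add (hf : f ≠ 0) (P : Pts f) {z w : KK f} (h : z + w ≠ 0) :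
    min (ordAt Λ hf P z) (ordAt Λ hf P w) ≤ ordAt Λ hf P (z + w) := by
  unfold ordAt
  rw [map_add]
  apply Λ.ord_add
  rw [← map_add]
  exact phi_ne _ h

theorem ordAt_const (hf : f ≠ 0) (P : Pts f) (c : ℂ) :
    ordAt Λ hf P (algebraMap ℂ (KK f) c) = 0 := by
  unfold ordAt
  rw [AlgHom.commutes, Λ.ord_const]

theorem ordAt_neg (hf : f ≠ 0) (P : Pts f) (z : KK f) : ordAt Λ hf P (-z) = ordAt Λ hf P z := by
  unfold ordAt
  rw [map_neg, LF.ord_neg]

theorem ordAt_res (hf : f ≠ 0) (P : Pts f) {z w : KK f} (hz : z ≠ 0) (hw : w ≠ 0)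
    (h : ordAt Λ hf P z = ordAt Λ hf P w) :
    ∃ c : ℂ, z - c • w = 0 ∨ ordAt Λ hf P z < ordAt Λ hf P (z - c • w) := by
  obtain ⟨c, hc⟩ := Λ.res (phi_ne (parAt Λ hf P) hz) (phi_ne (parAt Λ hf P) hw) h
  refine ⟨c, ?_⟩
  by_cases h0 : z - c • w = 0
  · exact Or.inl h0
  right
  have h1 := phi_ne (parAt Λ hf P) h0
  have h2 : (parAt Λ hf P).phi (z - c • w) =
      (parAt Λ hf P).phi z - c • (parAt Λ hf P).phi w := by
    rw [map_sub, map_smul]
  rcases hc with hc | hc
  · rw [h2] at h1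
    exact absurd hc h1
  · unfold ordAt
    rw [h2]
    exact hc

theorem ordAt_yy_nonneg (hf : f ≠ 0) (P : APt f) : 0 ≤ ordAt Λ hf (some P) yy := by
  have h1 := two_ord_eta (Λ := Λ) hf (some P)
  have h2 := ordAt_emb_nonneg (Λ := Λ) hf hf P
  unfold ordAt
  rw [phi_yy]
  linarith

theorem yy_ne : (yy : KK f) ≠ 0 := by
  intro h
  have : (yy : KK f).im = (0 : KK f).im := by rw [h]
  have h1 : (1 : RatFunc ℂ) = 0 := this
  exact one_ne_zero h1

theorem ordAt_aff_nonneg (hf : f ≠ 0) (P : APt f) {u v : ℂ[X]} (h : (aff u v : KK f) ≠ 0) :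
    0 ≤ ordAt Λ hf (some P) (aff u v) := by
  by_cases hu : u = 0
  · have hv : v ≠ 0 := by
      rintro rfl
      apply h
      rw [hu, aff, emb_zero]
      ring
    rw [hu, aff, emb_zero, zero_add, ordAt_mul hf _ (emb_ne hv) yy_ne]
    exact add_nonneg (ordAt_emb_nonneg hf hv P) (ordAt_yy_nonneg hf P)
  by_cases hv : v = 0
  · rw [hv, aff, emb_zero, zero_mul, add_zero]
    exact ordAt_emb_nonneg hf hu P
  have h1 := ordAt_add (Λ := Λ) hf (some P) h
  rw [ordAt_mul hf _ (emb_ne hv) yy_ne] at h1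
  have h2 := ordAt_emb_nonneg (Λ := Λ) hf hu P
  have h3 := add_nonneg (ordAt_emb_nonneg (Λ := Λ) hf hv P) (ordAt_yy_nonneg (Λ := Λ) hf P)
  exact le_trans (le_min h2 h3) h1

theorem finite_fiber (hf : f ≠ 0) (a : ℂ) : {P : APt f | P.1.1 = a}.Finite := by
  obtain ⟨b, hb⟩ := IsAlgClosed.exists_pow_nat_eq (f.eval a) (n := 2) (by norm_num)
  have h1 : ({b, -b} : Set ℂ).Finite := Set.toFinite _
  apply Set.Finite.of_finite_image (f := fun P : APt f => P.1.2)
  · apply h1.subset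
    rintro _ ⟨P, hP, rfl⟩
    have h2 : P.1.2 ^ 2 = b ^ 2 := by
      rw [hb, P.2, show P.1.1 = a from hP]
    rcases sq_eq_sq_iff_eq_or_eq_neg.1 h2 with h3 | h3
    · left
      exact h3
    · right
      exact h3
  · intro P hP Q hQ h
    apply Subtype.ext
    apply Prod.ext
    · rw [show P.1.1 = a from hP, show Q.1.1 = a from hQ]
    · exact h

theorem finite_emb (hf : f ≠ 0) {p : ℂ[X]} (hp : p ≠ 0) :
    {P : Pts f | ordAt Λ hf P (emb p) ≠ 0}.Finite := by
  have h1 : {P : APt f | p.eval P.1.1 = 0}.Finite := by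
    have h2 : {P : APt f | p.eval P.1.1 = 0} ⊆
        ⋃ a ∈ p.roots.toFinset, {P : APt f | P.1.1 = a} := by
      intro P hP
      simp only [Set.mem_iUnion]
      refine ⟨P.1.1, ?_, rfl⟩
      rw [Multiset.mem_toFinset, mem_roots hp]
      exact hP
    apply Set.Finite.subset _ h2
    exact Set.Finite.biUnion (Finset.finite_toSet _) (fun a _ => finite_fiber hf a)
  have h2 : {P : Pts f | ordAt Λ hf P (emb p) ≠ 0} ⊆
      {none} ∪ some '' {P : APt f | p.eval P.1.1 = 0} := by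
    intro P hP
    rcases P with _ | P
    · left
      rfl
    · right
      refine ⟨P, ?_, rfl⟩
      by_contra h
      exact hP (ordAt_emb_zero hf P h)
  exact ((Set.finite_singleton _).union (h1.image _)).subset h2

theorem star_ne {z : KK f} (hz : z ≠ 0) : star z ≠ 0 := by
  intro h
  apply hz
  rw [← star_star z, h, star_zero]

theorem aff_mul_star (u v : ℂ[X]) :
    (aff u v : KK f) * star (aff u v) = emb (u * u - f * v * v) := by
  rw [star_aff]
  have e : (emb (u * u - f * v * v) : KK f) = emb (u * u) - emb (f * v * v) := by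
    unfold emb
    rw [map_sub, map_sub]
  have e2 : (emb (-v) : KK f) = - emb v := by
    unfold emb
    rw [map_neg, map_neg]
  rw [aff, aff, e, emb_mul, emb_mul, emb_mul, ← yy_sq, e2]
  ring

theorem finite_aff (hf : f ≠ 0) {u v : ℂ[X]} (h : (aff u v : KK f) ≠ 0) :
    {P : Pts f | ordAt Λ hf P (aff u v) ≠ 0}.Finite := by
  have hN : u * u - f * v * v ≠ 0 := by
    intro h0
    have h1 := aff_mul_star (f := f) u v
    rw [h0, emb_zero] at h1
    exact mul_ne_zero h (star_ne h) h1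
  apply ((Set.finite_singleton (none : Pts f)).union (finite_emb (Λ := Λ) hf hN)).subset
  intro P hP
  rcases P with _ | P
  · left
    rfl
  · right
    intro h0
    apply hP
    rw [← aff_mul_star, ordAt_mul hf _ h (star_ne h)] at h0
    have h1 := ordAt_aff_nonneg (Λ := Λ) hf P h
    have h2 : 0 ≤ ordAt Λ hf (some P) (star (aff u v)) := by
      rw [star_aff]
      apply ordAt_aff_nonneg hf P
      rw [← star_aff]
      exact star_ne h
    linarith

theorem finite_ordAt (hf : f ≠ 0) {z : KK f} (hz : z ≠ 0) :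
    {P : Pts f | ordAt Λ hf P z ≠ 0}.Finite := by
  obtain ⟨u, v, q, hq, h⟩ := exists_aff z
  have h1 : (aff u v : KK f) ≠ 0 := by
    rw [← h]
    exact mul_ne_zero hz (emb_ne hq)
  apply ((finite_aff (Λ := Λ) hf h1).union (finite_emb (Λ := Λ) hf hq)).subset
  intro P hP
  by_contra h2
  simp only [Set.mem_union, Set.mem_ofPred_eq, not_or, not_not] at h2
  obtain ⟨h3, h4⟩ := h2
  rw [← h, ordAt_mul hf P hz (emb_ne hq), h4, add_zero] at h3
  exact hP h3

/-- total degree of the divisor of a function -/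
def tot (Λ : LF F) (hf : f ≠ 0) (z : KK f) : ℤ := ∑ᶠ P, ordAt Λ hf P z

theorem tot_mul (hf : f ≠ 0) {z w : KK f} (hz : z ≠ 0) (hw : w ≠ 0) :
    tot Λ hf (z * w) = tot Λ hf z + tot Λ hf w := by
  unfold tot
  rw [← finsum_add_distrib (finite_ordAt hf hz) (finite_ordAt hf hw)]
  congr 1
  funext P
  exact ordAt_mul hf P hz hw

theorem tot_const (hf : f ≠ 0) (c : ℂ) : tot Λ hf (algebraMap ℂ (KK f) c) = 0 := by
  unfold tot
  simp only [ordAt_const]
  exact finsum_zero

theorem tot_X_sub_C (hf : f ≠ 0) (c : ℂ) : tot Λ hf (emb (X - C c) : KK f) = 0 := by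
  classical
  have hi : ordAt Λ hf none (emb (X - C c)) = -2 := by
    rw [ordAt_emb_none hf (X_sub_C_ne_zero c), natDegree_X_sub_C]
    norm_num
  have hz : ∀ P : APt f, P.1.1 ≠ c → ordAt Λ hf (some P) (emb (X - C c)) = 0 := by
    intro P hP
    apply ordAt_emb_zero hf P
    rw [eval_sub, eval_X, eval_C]
    exact sub_ne_zero.2 hP
  unfold tot
  by_cases h0 : f.eval c = 0
  · set P₀ : APt f := ⟨(c, 0), by simp [h0]⟩ with hP₀
    have hs : Function.support (fun P => ordAt Λ hf P (emb (X - C c))) ⊆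
        (({none, some P₀} : Finset (Pts f)) : Set (Pts f)) := by
      intro P hP
      rcases P with _ | P
      · simp
      · simp only [Finset.coe_insert, Finset.coe_singleton, Set.mem_insert_iff,
          Set.mem_singleton_iff]
        right
        congr 1
        have h1 : P.1.1 = c := by
          by_contra h1
          exact hP (hz P h1)
        apply Subtype.ext
        apply Prod.ext
        · exact h1
        · have h2 := P.2
          rw [h1, h0] at h2
          exact pow_eq_zero_iff (two_ne_zero) |>.1 h2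
    rw [finsum_eq_sum_of_support_subset _ hs, Finset.sum_pair (by simp), hi]
    have h1 : ordAt Λ hf (some P₀) (emb (X - C c)) = ram P₀ := ordAt_X_sub_C_self hf P₀
    rw [h1]
    unfold ram
    rw [if_pos rfl]
    norm_num
  · obtain ⟨b, hb⟩ := IsAlgClosed.exists_pow_nat_eq (f.eval c) (n := 2) (by norm_num)
    have hb0 : b ≠ 0 := by
      rintro rfl
      apply h0
      rw [← hb]
      ring
    set P₁ : APt f := ⟨(c, b), hb⟩ with hP₁
    set P₂ : APt f := ⟨(c, -b), by simpa using hb⟩ with hP₂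
    have hne : (some P₁ : Pts f) ≠ some P₂ := by
      intro h
      have h1 := Option.some_injective _ h
      have h2 : b = -b := congrArg (fun P : APt f => P.1.2) h1
      exact hb0 (self_eq_neg.1 h2)
    have hs : Function.support (fun P => ordAt Λ hf P (emb (X - C c))) ⊆
        (({none, some P₁, some P₂} : Finset (Pts f)) : Set (Pts f)) := by
      intro P hP
      rcases P with _ | P
      · simp
      · simp only [Finset.coe_insert, Finset.coe_singleton, Set.mem_insert_iff,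
          Set.mem_singleton_iff]
        right
        have h1 : P.1.1 = c := by
          by_contra h1
          exact hP (hz P h1)
        have h2 := P.2
        rw [h1, ← hb] at h2
        rcases sq_eq_sq_iff_eq_or_eq_neg.1 h2 with h3 | h3
        · left
          congr 1
          apply Subtype.ext
          apply Prod.ext
          · exact h1
          · exact h3
        · right
          congr 1
          apply Subtype.ext
          apply Prod.ext
          · exact h1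
          · exact h3
    rw [finsum_eq_sum_of_support_subset _ hs, Finset.sum_insert (by simp), Finset.sum_pair hne, hi]
    have h1 : ordAt Λ hf (some P₁) (emb (X - C c)) = ram P₁ := ordAt_X_sub_C_self hf P₁
    have h2 : ordAt Λ hf (some P₂) (emb (X - C c)) = ram P₂ := ordAt_X_sub_C_self hf P₂
    rw [h1, h2]
    unfold ram
    rw [if_neg hb0, if_neg (show P₂.1.2 ≠ 0 from neg_ne_zero.2 hb0)]
    norm_num

theorem tot_emb (hf : f ≠ 0) : ∀ p : ℂ[X], p ≠ 0 → tot Λ hf (emb p : KK f) = 0 := by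
  apply poly_ind
  · intro c _
    rw [emb_C]
    exact tot_const hf c
  · exact tot_X_sub_C hf
  · intro p q hp hq h1 h2
    rw [emb_mul, tot_mul hf (emb_ne hp) (emb_ne hq), h1, h2, add_zero]

theorem tot_star (G : Good f) (z : KK f) : tot Λ G.ne (star z) = tot Λ G.ne z := by
  unfold tot
  have h1 : (fun P => ordAt Λ G.ne P (star z)) = fun P => ordAt Λ G.ne (tau P) z := by
    funext P
    rw [ordAt_tau G]
  rw [h1]
  exact finsum_comp_equiv (f := fun P => ordAt Λ G.ne P z) ⟨tau, tau, tau_tau, tau_tau⟩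

theorem tot_eq_zero (G : Good f) {z : KK f} (hz : z ≠ 0) : tot Λ G.ne z = 0 := by
  obtain ⟨u, v, q, hq, h⟩ := exists_aff z
  have h1 : (aff u v : KK f) ≠ 0 := by
    rw [← h]
    exact mul_ne_zero hz (emb_ne hq)
  have hN : u * u - f * v * v ≠ 0 := by
    intro h0
    have h2 := aff_mul_star (f := f) u v
    rw [h0, emb_zero] at h2
    exact mul_ne_zero h1 (star_ne h1) h2
  have h2 := tot_emb (Λ := Λ) G.ne _ hN
  rw [← aff_mul_star, tot_mul G.ne h1 (star_ne h1), tot_star G] at h2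
  have h3 : tot Λ G.ne (aff u v) = 0 := by linarith
  rw [← h, tot_mul G.ne hz (emb_ne hq), tot_emb G.ne q hq, add_zero] at h3
  exact h3

/-- The curve `y² = f(x)`. -/
def cOrd (Λ : LF F) (G : Good f) : CurveOrd (KK f) where
  Pt := Pts f
  ord := ordAt Λ G.ne
  ord_mul P z w hz hw := ordAt_mul G.ne P hz hw
  ord_add P z w _ _ h := ordAt_add G.ne P h
  ord_const P c _ := ordAt_const G.ne P c
  finite_ord z hz := finite_ordAt G.ne hz
  sum_ord z hz := tot_eq_zero G hz

theorem cOrd_res (Λ : LF F) (G : Good f) : (cOrd Λ G).Res :=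
  fun P _ _ hz hw h => ordAt_res G.ne P hz hw h

end fld

end

end Pool.Agent.YTD.Hyp


end

/- source: Pool.Agent.YTD.UnstSum -/

section

/-!
Exact evaluation of the sums giving the dimensions and the traces.
-/

namespace Pool.Agent.YTD

open Finset

theorem sum_even (M : ℕ) (f : ℤ → ℝ) (h : ∀ j, f (-j) = f j) :
    ∑ j ∈ Icc (-(M : ℤ)) M, f j = 2 * ∑ k ∈ range (M + 1), f k - f 0 := by
  induction M with
  | zero => simp; ring
  | succ n ih =>
    have h1 : Icc (-((n + 1 : ℕ) : ℤ)) ((n + 1 : ℕ) : ℤ) =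
        insert (-((n : ℤ) + 1)) (insert ((n : ℤ) + 1) (Icc (-(n : ℤ)) n)) := by
      ext x
      simp only [mem_insert, mem_Icc]
      push_cast
      constructor
      · rintro ⟨h1, h2⟩
        omega
      · rintro (h | h | h) <;> omega
    rw [h1, sum_insert, sum_insert, ih, sum_range_succ _ (n + 1)]
    · rw [h]
      push_cast
      ring
    · simp only [mem_Icc, not_and, not_le]
      omega
    · simp only [mem_insert, mem_Icc, not_or, not_and, not_le]
      omega

theorem sum_tail (a n : ℕ) (g : ℕ → ℝ) (h : ∀ k < a, g k = 0) :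
    ∑ k ∈ range (a + n), g k = ∑ i ∈ range n, g (a + i) := by
  rw [sum_range_add]
  rw [sum_eq_zero (s := range a) (fun k hk => h k (mem_range.1 hk)), zero_add]

theorem sum_poly (n : ℕ) (c0 c1 c2 c3 c4 c5 : ℝ) :
    ∑ i ∈ range (n + 1), (c0 + c1 * (i : ℝ) + c2 * (i : ℝ) ^ 2 + c3 * (i : ℝ) ^ 3 +
      c4 * (i : ℝ) ^ 4 + c5 * (i : ℝ) ^ 5) =
    c0 * (n + 1) + c1 * (n * (n + 1) / 2) + c2 * (n * (n + 1) * (2 * n + 1) / 6) +
      c3 * (n ^ 2 * (n + 1) ^ 2 / 4) +
      c4 * (n * (n + 1) * (2 * n + 1) * (3 * n ^ 2 + 3 * n - 1) / 30) +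
      c5 * (n ^ 2 * (n + 1) ^ 2 * (2 * n ^ 2 + 2 * n - 1) / 12) := by
  induction n with
  | zero => simp
  | succ n ih =>
    rw [sum_range_succ, ih]
    push_cast
    ring

section

variable (q N t : ℕ) (e : ℝ)

/-- the dimension of `V N j`. -/
noncomputable def dm (j : ℤ) : ℝ :=
  e * N - 9 * t - 100 * t * max 0 (|(j : ℝ)| - 4 * q * N)

/-- the multiplicity. -/
noncomputable def mu (j : ℤ) : ℝ :=
  (25 * (q : ℝ) * N + 3 * j + 1) * (25 * (q : ℝ) * N - 3 * j + 1)

theorem max_term {k : ℕ} (h : k < 4 * (q * N)) : max 0 (|((k : ℤ) : ℝ)| - 4 * (q : ℝ) * N) = 0 := by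
  apply max_eq_left
  have h1 : (k : ℝ) ≤ 4 * (q * N) := by exact_mod_cast h.le
  have h2 : |((k : ℤ) : ℝ)| = k := by
    push_cast
    exact abs_of_nonneg (by positivity)
  rw [h2]
  linarith

theorem max_term' (i : ℕ) :
    max 0 (|(((4 * (q * N) + i : ℕ) : ℤ) : ℝ)| - 4 * (q : ℝ) * N) = i := by
  have h2 : |(((4 * (q * N) + i : ℕ) : ℤ) : ℝ)| = 4 * (q * N) + i := by
    push_cast
    exact abs_of_nonneg (by positivity)
  rw [h2]
  rw [max_eq_right]
  · ring
  · have : (0 : ℝ) ≤ i := by positivity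
    linarith

theorem sum_dim : ∑ j ∈ Icc (-((5 * q * N : ℕ) : ℤ)) ((5 * q * N : ℕ) : ℤ),
    mu q N j * dm q N t e j =
    (-42850 * q ^ 4 * t + 5500 * q ^ 3 * e) * N ^ 4 + (-94500 * q ^ 3 * t + 900 * q ^ 2 * e) * N ^ 3 +
    (-10350 * q ^ 2 * t + 45 * q * e) * N ^ 2 + (-505 * q * t + e) * N - 9 * t := by
  rw [sum_even]
  · have e1 : ∑ k ∈ range (5 * q * N + 1), mu q N (k : ℤ) * dm q N t e (k : ℤ) =
        ∑ k ∈ range (5 * q * N + 1), ((25 * (q : ℝ) * N + 1) ^ 2 * (e * N - 9 * t) +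
          0 * (k : ℝ) + (-9 * (e * N - 9 * t)) * (k : ℝ) ^ 2 + 0 * (k : ℝ) ^ 3 +
          0 * (k : ℝ) ^ 4 + 0 * (k : ℝ) ^ 5) -
        100 * t * ∑ k ∈ range (4 * (q * N) + (q * N + 1)),
          mu q N (k : ℤ) * max 0 (|((k : ℤ) : ℝ)| - 4 * (q : ℝ) * N) := by
      have e0 : 4 * (q * N) + (q * N + 1) = 5 * q * N + 1 := by ring
      rw [e0, mul_sum, ← sum_sub_distrib]
      apply sum_congr rfl
      intro k _
      unfold mu dm
      push_cast
      ring
    have e2 : ∑ k ∈ range (4 * (q * N) + (q * N + 1)),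
          mu q N (k : ℤ) * max 0 (|((k : ℤ) : ℝ)| - 4 * (q : ℝ) * N) =
        ∑ i ∈ range (q * N + 1), (0 + ((25 * (q : ℝ) * N + 1) ^ 2 - 144 * (q * N) ^ 2) * (i : ℝ) +
          (-72 * ((q : ℝ) * N)) * (i : ℝ) ^ 2 + (-9) * (i : ℝ) ^ 3 + 0 * (i : ℝ) ^ 4 +
          0 * (i : ℝ) ^ 5) := by
      rw [sum_tail]
      · apply sum_congr rfl
        intro i _
        rw [max_term']
        unfold mu
        push_cast
        ring
      · intro k hk
        rw [max_term q N hk, mul_zero]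
    rw [e1, e2, sum_poly, sum_poly]
    unfold mu dm
    rw [max_eq_left (by simp only [Int.cast_zero, abs_zero, zero_sub, Left.neg_nonpos_iff]; positivity)]
    push_cast
    ring
  · intro j
    unfold mu dm
    push_cast
    rw [abs_neg]
    ring

/-- the weight. -/
noncomputable def ww (u : ℕ) (j : ℤ) : ℝ := min 0 ((u : ℝ) * N - |(j : ℝ)|)

theorem ww_zero (u : ℕ) {k : ℕ} (h : k < u * N) : ww N u (k : ℤ) = 0 := by
  apply min_eq_left
  have h1 : (k : ℝ) ≤ u * N := by exact_mod_cast h.le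
  have h2 : |((k : ℤ) : ℝ)| = k := by
    push_cast
    exact abs_of_nonneg (by positivity)
  rw [h2]
  linarith

theorem ww_tail (u : ℕ) (i : ℕ) : ww N u ((u * N + i : ℕ) : ℤ) = - i := by
  unfold ww
  have h2 : |(((u * N + i : ℕ) : ℤ) : ℝ)| = u * N + i := by
    push_cast
    exact abs_of_nonneg (by positivity)
  rw [h2, min_eq_right]
  · ring
  · have : (0 : ℝ) ≤ i := by positivity
    linarith

theorem ww_top {u : ℕ} (hu : u ≤ 4 * q) (i : ℕ) : ww N u ((4 * (q * N) + i : ℕ) : ℤ) =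
    (u : ℝ) * N - 4 * (q * N) - i := by
  unfold ww
  have h2 : |(((4 * (q * N) + i : ℕ) : ℤ) : ℝ)| = 4 * (q * N) + i := by
    push_cast
    exact abs_of_nonneg (by positivity)
  have h3 : (u : ℝ) * N ≤ 4 * (q * N) := by
    have : (u : ℝ) ≤ 4 * q := by exact_mod_cast hu
    nlinarith [(Nat.cast_nonneg N : (0 : ℝ) ≤ N)]
  rw [h2, min_eq_right]
  · ring
  · have : (0 : ℝ) ≤ i := by positivity
    linarith

theorem sum_tr_one {u v : ℕ} (hu : u ≤ 4 * q) (huv : u + v = 5 * q) :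
    ∑ j ∈ Icc (-((5 * q * N : ℕ) : ℤ)) ((5 * q * N : ℕ) : ℤ), mu q N j * dm q N t e j * ww N u j =
    ((598520 / 3) * q ^ 5 * t + (-42850) * q ^ 4 * u * t + (-25625 / 2) * q ^ 4 * e + (5500) * q ^ 3 * u * e + (-625) * q ^ 2 * u ^ 2 * e + (3 / 2) * u ^ 4 * e) * N ^ 5 +
    ((2031875 / 6) * q ^ 4 * t + (-94500) * q ^ 3 * u * t + (-3250) * q ^ 3 * e + (5625) * q ^ 2 * u ^ 2 * t + (900) * q ^ 2 * u * e + (-50) * q * u ^ 2 * e + (-27 / 2) * u ^ 4 * t) * N ^ 4 +
    ((55150) * q ^ 3 * t + (-10350) * q ^ 2 * u * t + (-325 / 2) * q ^ 2 * e + (450) * q * u ^ 2 * t + (45) * q * u * e + (-5 / 2) * u ^ 2 * e) * N ^ 3 +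
    ((21775 / 6) * q ^ 2 * t + (-505) * q * u * t + (-5) * q * e + (45 / 2) * u ^ 2 * t + (1) * u * e) * N ^ 2 +
    ((415 / 3) * q * t + (-9) * u * t) * N ^ 1 := by
  rw [sum_even]
  · have hv : (v : ℝ) = 5 * q - u := by
      have : (u : ℝ) + v = 5 * q := by exact_mod_cast huv
      linarith
    have e0 : 4 * (q * N) + (q * N + 1) = 5 * q * N + 1 := by ring
    have e0' : u * N + (v * N + 1) = 5 * q * N + 1 := by rw [← huv]; ring
    have e1 : ∑ k ∈ range (5 * q * N + 1), mu q N (k : ℤ) * dm q N t e (k : ℤ) * ww N u (k : ℤ) =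
        (e * N - 9 * t) * ∑ k ∈ range (u * N + (v * N + 1)), mu q N (k : ℤ) * ww N u (k : ℤ) -
        100 * t * ∑ k ∈ range (4 * (q * N) + (q * N + 1)),
          mu q N (k : ℤ) * max 0 (|((k : ℤ) : ℝ)| - 4 * (q : ℝ) * N) * ww N u (k : ℤ) := by
      rw [e0, e0', mul_sum, mul_sum, ← sum_sub_distrib]
      apply sum_congr rfl
      intro k _
      unfold dm
      ring
    have e2 : ∑ k ∈ range (u * N + (v * N + 1)), mu q N (k : ℤ) * ww N u (k : ℤ) =
        ∑ i ∈ range (v * N + 1), (0 + (-((25 * (q : ℝ) * N + 1) ^ 2 - 9 * (u * N) ^ 2)) * (i : ℝ) +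
          (18 * ((u : ℝ) * N)) * (i : ℝ) ^ 2 + 9 * (i : ℝ) ^ 3 + 0 * (i : ℝ) ^ 4 +
          0 * (i : ℝ) ^ 5) := by
      rw [sum_tail]
      · apply sum_congr rfl
        intro i _
        rw [ww_tail]
        unfold mu
        push_cast
        ring
      · intro k hk
        rw [ww_zero N u hk, mul_zero]
    have e3 : ∑ k ∈ range (4 * (q * N) + (q * N + 1)),
          mu q N (k : ℤ) * max 0 (|((k : ℤ) : ℝ)| - 4 * (q : ℝ) * N) * ww N u (k : ℤ) =
        ∑ i ∈ range (q * N + 1), (0 + (-((25 * (q : ℝ) * N + 1) ^ 2 - 144 * (q * N) ^ 2) *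
          (4 * (q * N) - u * N)) * (i : ℝ) +
          (72 * ((q : ℝ) * N) * (4 * (q * N) - u * N) -
            ((25 * (q : ℝ) * N + 1) ^ 2 - 144 * (q * N) ^ 2)) * (i : ℝ) ^ 2 +
          (72 * ((q : ℝ) * N) + 9 * (4 * (q * N) - u * N)) * (i : ℝ) ^ 3 + 9 * (i : ℝ) ^ 4 +
          0 * (i : ℝ) ^ 5) := by
      rw [sum_tail]
      · apply sum_congr rfl
        intro i _
        rw [max_term', ww_top q N hu]
        unfold mu
        push_cast
        ring
      · intro k hk
        rw [max_term q N hk, mul_zero, zero_mul]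
    rw [e1, e2, e3, sum_poly, sum_poly]
    have e4 : ww N u 0 = 0 := by
      unfold ww
      rw [min_eq_left]
      simp only [Int.cast_zero, abs_zero, sub_zero]
      positivity
    rw [e4]
    push_cast
    rw [hv]
    ring
  · intro j
    unfold mu dm ww
    push_cast
    rw [abs_neg]
    ring

theorem sum_tr_two {u v : ℕ} (hu : u ≤ 4 * q) (huv : u + v = 5 * q) :
    ∑ j ∈ Icc (-((5 * q * N : ℕ) : ℤ)) ((5 * q * N : ℕ) : ℤ),
      mu q N j * dm q N t e j * ww N u j ^ 2 =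
    ((-2793970 / 3) * q ^ 6 * t + (1197040 / 3) * q ^ 5 * u * t + (122500 / 3) * q ^ 5 * e + (-42850) * q ^ 4 * u ^ 2 * t + (-25625) * q ^ 4 * u * e + (5500) * q ^ 3 * u ^ 2 * e + (-1250 / 3) * q ^ 2 * u ^ 3 * e + (3 / 5) * u ^ 5 * e) * N ^ 6 +
    ((-4430000 / 3) * q ^ 5 * t + (2031875 / 3) * q ^ 4 * u * t + (42500 / 3) * q ^ 4 * e + (-94500) * q ^ 3 * u ^ 2 * t + (-6500) * q ^ 3 * u * e + (3750) * q ^ 2 * u ^ 3 * t + (900) * q ^ 2 * u ^ 2 * e + (-100 / 3) * q * u ^ 3 * e + (-27 / 5) * u ^ 5 * t) * N ^ 5 +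
    ((-322250) * q ^ 4 * t + (110300) * q ^ 3 * u * t + (1625) * q ^ 3 * e + (-10350) * q ^ 2 * u ^ 2 * t + (-1600 / 3) * q ^ 2 * u * e + (300) * q * u ^ 3 * t + (45) * q * u ^ 2 * e + (-2 / 3) * u ^ 3 * e) * N ^ 4 +
    ((-98875 / 3) * q ^ 3 * t + (27400 / 3) * q ^ 2 * u * t + (325 / 3) * q ^ 2 * e + (-505) * q * u ^ 2 * t + (-80 / 3) * q * u * e + (6) * u ^ 3 * t + (1) * u ^ 2 * e) * N ^ 3 +
    ((-7205 / 3) * q ^ 2 * t + (1280 / 3) * q * u * t + (14 / 3) * q * e + (-9) * u ^ 2 * t + (-14 / 15) * u * e) * N ^ 2 +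
    ((-42) * q * t + (42 / 5) * u * t) * N ^ 1 := by
  rw [sum_even]
  · have hv : (v : ℝ) = 5 * q - u := by
      have : (u : ℝ) + v = 5 * q := by exact_mod_cast huv
      linarith
    have e0 : 4 * (q * N) + (q * N + 1) = 5 * q * N + 1 := by ring
    have e0' : u * N + (v * N + 1) = 5 * q * N + 1 := by rw [← huv]; ring
    have e1 : ∑ k ∈ range (5 * q * N + 1),
          mu q N (k : ℤ) * dm q N t e (k : ℤ) * ww N u (k : ℤ) ^ 2 =
        (e * N - 9 * t) * ∑ k ∈ range (u * N + (v * N + 1)), mu q N (k : ℤ) * ww N u (k : ℤ) ^ 2 -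
        100 * t * ∑ k ∈ range (4 * (q * N) + (q * N + 1)),
          mu q N (k : ℤ) * max 0 (|((k : ℤ) : ℝ)| - 4 * (q : ℝ) * N) * ww N u (k : ℤ) ^ 2 := by
      rw [e0, e0', mul_sum, mul_sum, ← sum_sub_distrib]
      apply sum_congr rfl
      intro k _
      unfold dm
      ring
    have e2 : ∑ k ∈ range (u * N + (v * N + 1)), mu q N (k : ℤ) * ww N u (k : ℤ) ^ 2 =
        ∑ i ∈ range (v * N + 1), (0 + 0 * (i : ℝ) +
          ((25 * (q : ℝ) * N + 1) ^ 2 - 9 * (u * N) ^ 2) * (i : ℝ) ^ 2 +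
          (-18 * ((u : ℝ) * N)) * (i : ℝ) ^ 3 + (-9) * (i : ℝ) ^ 4 +
          0 * (i : ℝ) ^ 5) := by
      rw [sum_tail]
      · apply sum_congr rfl
        intro i _
        rw [ww_tail]
        unfold mu
        push_cast
        ring
      · intro k hk
        rw [ww_zero N u hk]
        ring
    have e3 : ∑ k ∈ range (4 * (q * N) + (q * N + 1)),
          mu q N (k : ℤ) * max 0 (|((k : ℤ) : ℝ)| - 4 * (q : ℝ) * N) * ww N u (k : ℤ) ^ 2 =
        ∑ i ∈ range (q * N + 1), (0 + (((25 * (q : ℝ) * N + 1) ^ 2 - 144 * (q * N) ^ 2) *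
          (4 * (q * N) - u * N) ^ 2) * (i : ℝ) +
          (2 * (4 * (q * N) - u * N) * ((25 * (q : ℝ) * N + 1) ^ 2 - 144 * (q * N) ^ 2) -
            72 * ((q : ℝ) * N) * (4 * (q * N) - u * N) ^ 2) * (i : ℝ) ^ 2 +
          ((25 * (q : ℝ) * N + 1) ^ 2 - 144 * (q * N) ^ 2 -
            144 * ((q : ℝ) * N) * (4 * (q * N) - u * N) -
            9 * (4 * (q * N) - u * N) ^ 2) * (i : ℝ) ^ 3 +
          (-72 * ((q : ℝ) * N) - 18 * (4 * (q * N) - u * N)) * (i : ℝ) ^ 4 +
          (-9) * (i : ℝ) ^ 5) := by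
      rw [sum_tail]
      · apply sum_congr rfl
        intro i _
        rw [max_term', ww_top q N hu]
        unfold mu
        push_cast
        ring
      · intro k hk
        rw [max_term q N hk, mul_zero, zero_mul]
    rw [e1, e2, e3, sum_poly, sum_poly]
    have e4 : ww N u 0 = 0 := by
      unfold ww
      rw [min_eq_left]
      simp only [Int.cast_zero, abs_zero, sub_zero]
      positivity
    rw [e4]
    push_cast
    rw [hv]
    ring
  · intro j
    unfold mu dm ww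
    push_cast
    rw [abs_neg]
    ring

end

end Pool.Agent.YTD


end

/- source: Pool.Agent.YTD.RRLarge -/

section

/-!
Riemann-Roch in the range `deg > 2 g - 2` from Riemann-Roch in large degrees.
-/

namespace Pool.Agent.YTD
namespace CurveOrd

open Module

variable {K : Type} [Field K] [Algebra ℂ K] {X : CurveOrd K}

theorem L_inf (A B : X.Pt →₀ ℤ) : X.L (A ⊓ B) = X.L A ⊓ X.L B := by
  apply le_antisymm
  · exact le_inf (X.L_mono fun P => by rw [Finsupp.inf_apply]; exact inf_le_left)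
      (X.L_mono fun P => by rw [Finsupp.inf_apply]; exact inf_le_right)
  · rintro f ⟨h1, h2⟩ h0 P
    rw [Finsupp.inf_apply]
    have g1 := h1 h0 P
    have g2 := h2 h0 P
    rcases min_choice (A P) (B P) with h | h
    · show 0 ≤ X.ord P f + min (A P) (B P)
      rw [h]
      exact g1
    · show 0 ≤ X.ord P f + min (A P) (B P)
      rw [h]
      exact g2

theorem deg_inf_sup (A B : X.Pt →₀ ℤ) : X.deg (A ⊓ B) + X.deg (A ⊔ B) = X.deg A + X.deg B := by
  rw [← X.deg_add, ← X.deg_add]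
  congr 1
  ext P
  rw [Finsupp.add_apply, Finsupp.inf_apply, Finsupp.sup_apply, Finsupp.add_apply]
  exact min_add_max _ _

/-- Riemann-Roch in large degrees. -/
def RRLarge (X : CurveOrd K) (g c : ℤ) : Prop :=
  ∀ D : X.Pt →₀ ℤ, c ≤ X.deg D → (finrank ℂ (X.L D) : ℤ) = X.deg D + 1 - g

theorem L_sup_eq {g c : ℤ} (h : X.RRLarge g c) [∀ D : X.Pt →₀ ℤ, FiniteDimensional ℂ (X.L D)]
    {A B : X.Pt →₀ ℤ} (hc : c ≤ X.deg (A ⊓ B)) : X.L A ⊔ X.L B = X.L (A ⊔ B) := by
  have hA : c ≤ X.deg A := hc.trans (X.deg_mono fun P => by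
    rw [Finsupp.inf_apply]; exact inf_le_left)
  have hB : c ≤ X.deg B := hc.trans (X.deg_mono fun P => by
    rw [Finsupp.inf_apply]; exact inf_le_right)
  have hAB : c ≤ X.deg (A ⊔ B) := hA.trans (X.deg_mono fun P => by
    rw [Finsupp.sup_apply]; exact le_sup_left)
  apply Submodule.eq_of_le_of_finrank_eq
  · exact sup_le (X.L_mono fun P => by rw [Finsupp.sup_apply]; exact le_sup_left)
      (X.L_mono fun P => by rw [Finsupp.sup_apply]; exact le_sup_right)
  · have h1 := Submodule.finrank_sup_add_finrank_inf_eq (X.L A) (X.L B)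
    rw [← L_inf] at h1
    have h2 := deg_inf_sup A B
    have e1 := h _ hc
    have e2 := h _ hA
    have e3 := h _ hB
    have e4 := h _ hAB
    omega

/-- the positive part of a divisor -/
noncomputable def posp (E : X.Pt →₀ ℤ) : X.Pt →₀ ℤ := E ⊔ 0

theorem posp_apply (E : X.Pt →₀ ℤ) (P : X.Pt) : posp E P = max (E P) 0 := by
  unfold posp
  rw [Finsupp.sup_apply]
  rfl

theorem deg_posp_dv {E : X.Pt →₀ ℤ} {f : K} (hf : f ∈ X.L E) (hf0 : f ≠ 0) :
    X.deg (posp (X.dv f)) ≤ X.deg (posp E) := by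
  have h1 : X.deg (posp (X.dv f)) = X.deg (posp (-X.dv f)) := by
    have h2 : posp (X.dv f) = X.dv f + posp (-X.dv f) := by
      ext P
      rw [Finsupp.add_apply, posp_apply, posp_apply, Finsupp.neg_apply]
      rcases le_total (X.dv f P) 0 with h | h
      · rw [max_eq_right h, max_eq_left (by linarith)]
        ring
      · rw [max_eq_left h, max_eq_right (by linarith)]
        ring
    rw [h2, X.deg_add, X.deg_dv hf0, zero_add]
  rw [h1]
  apply X.deg_mono
  intro P
  rw [posp_apply, posp_apply, Finsupp.neg_apply, X.dv_apply hf0]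
  have := hf hf0 P
  exact max_le_max (by linarith) le_rfl

theorem exists_nat_ge (z : ℤ) : ∃ n : ℕ, z ≤ n := ⟨z.toNat, Int.self_le_toNat z⟩

/-- The image of the multiplication map. -/
theorem claim {g c : ℤ} (hR : X.Res) (h : X.RRLarge g c) {Q R : X.Pt} (hQR : Q ≠ R)
    {D : X.Pt →₀ ℤ} (hD : X.deg D + 1 - g < finrank ℂ (X.L D)) (E : X.Pt →₀ ℤ) :
    (finrank ℂ (X.L E) : ℤ) ≤ finrank ℂ (X.L (D - E)) - (X.deg (D - E) + 1 - g) := by
  classical
  have : Nonempty X.Pt := ⟨Q⟩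
  have hfin : ∀ D : X.Pt →₀ ℤ, FiniteDimensional ℂ (X.L D) := fun D => finite_L' hR D
  -- the auxiliary divisors
  obtain ⟨m, hm⟩ : ∃ m : ℕ, c ≤ X.deg D + m ∧ c ≤ X.deg D + m - X.deg E := by
    obtain ⟨m₁, h1⟩ := exists_nat_ge (c - X.deg D)
    obtain ⟨m₂, h2⟩ := exists_nat_ge (c - X.deg D + X.deg E)
    have k1 := Int.natCast_nonneg m₁
    have k2 := Int.natCast_nonneg m₂
    refine ⟨m₁ + m₂, ?_⟩
    push_cast
    constructor <;> linarith
  obtain ⟨B, hB⟩ : ∃ B : X.Pt →₀ ℤ, B = D + Finsupp.single R (m : ℤ) := ⟨_, rfl⟩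
  obtain ⟨B₁, hB₁⟩ : ∃ B₁ : X.Pt →₀ ℤ, B₁ = B - E := ⟨_, rfl⟩
  have hdegB : X.deg B = X.deg D + m := by rw [hB, X.deg_add, X.deg_single]
  have hdegB₁ : X.deg B₁ = X.deg D + m - X.deg E := by rw [hB₁, X.deg_sub, hdegB]
  have hBQ : B Q = D Q := by
    rw [hB, Finsupp.add_apply, Finsupp.single_eq_of_ne hQR, add_zero]
  have hDB : ∀ P, D P ≤ B P := by
    intro P
    rw [hB, Finsupp.add_apply, Finsupp.single_apply]
    split_ifs
    · linarith [Int.natCast_nonneg m]
    · linarith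
  obtain ⟨n, hn1, hn2, hn3⟩ : ∃ n : ℕ, c ≤ n + X.deg (B₁ ⊓ D) - X.deg (posp E) ∧
      c ≤ n + X.deg D ∧ c ≤ n + X.deg (D - E) := by
    obtain ⟨n₁, h1⟩ := exists_nat_ge (c - X.deg (B₁ ⊓ D) + X.deg (posp E))
    obtain ⟨n₂, h2⟩ := exists_nat_ge (c - X.deg D)
    obtain ⟨n₃, h3⟩ := exists_nat_ge (c - X.deg (D - E))
    have k1 := Int.natCast_nonneg n₁
    have k2 := Int.natCast_nonneg n₂
    have k3 := Int.natCast_nonneg n₃
    refine ⟨n₁ + n₂ + n₃, ?_⟩
    push_cast
    refine ⟨?_, ?_, ?_⟩ <;> linarith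
  obtain ⟨nQ, hnQ⟩ : ∃ nQ : X.Pt →₀ ℤ, nQ = Finsupp.single Q (n : ℤ) := ⟨_, rfl⟩
  have hnQQ : nQ Q = n := by
    rw [hnQ]
    exact Finsupp.single_eq_same
  have hnQP : ∀ P, P ≠ Q → nQ P = 0 := by
    intro P hP
    rw [hnQ]
    exact Finsupp.single_eq_of_ne hP
  have hn0 : (0 : ℤ) ≤ n := Int.natCast_nonneg n
  have hnQ0 : ∀ P, 0 ≤ nQ P := by
    intro P
    by_cases hP : P = Q
    · rw [hP, hnQQ]
      exact hn0
    · rw [hnQP P hP]
  have hdegnQ : X.deg nQ = n := by rw [hnQ, X.deg_single]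
  -- general fact on intersections
  have hinf : ∀ A A' : X.Pt →₀ ℤ, (∀ P, A P ≤ A' P) → A Q = A' Q → (A + nQ) ⊓ A' = A := by
    intro A A' h1 h2
    ext P
    rw [Finsupp.inf_apply, Finsupp.add_apply]
    by_cases hP : P = Q
    · rw [hP, hnQQ, ← h2]
      exact min_eq_right (by linarith)
    · rw [hnQP P hP, add_zero]
      exact min_eq_left (h1 P)
  -- dimensions
  have hcod : ∀ A A' : X.Pt →₀ ℤ, (∀ P, A P ≤ A' P) → A Q = A' Q → c ≤ X.deg (A + nQ) →
      c ≤ X.deg A' → (finrank ℂ (X.L (A + nQ) ⊔ X.L A' : Submodule ℂ K) : ℤ) =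
        finrank ℂ (X.L (A' + nQ)) - (finrank ℂ (X.L A) - (X.deg A + 1 - g)) := by
    intro A A' h1 h2 h3 h4
    have k1 := Submodule.finrank_sup_add_finrank_inf_eq (X.L (A + nQ)) (X.L A')
    rw [← L_inf, hinf A A' h1 h2] at k1
    have k2 := h _ h3
    have k3 := h _ h4
    have k4 := h (A' + nQ) (by rw [X.deg_add, hdegnQ]; linarith)
    rw [X.deg_add, hdegnQ] at k2 k4
    omega
  -- the functional
  set T₀ : Submodule ℂ K := X.L (D + nQ) ⊔ X.L B with hT₀
  set T : Submodule ℂ K := X.L (B + nQ) with hT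
  have hT₀T : T₀ ≤ T := by
    apply sup_le
    · exact X.L_mono fun P => by
        rw [Finsupp.add_apply, Finsupp.add_apply]
        linarith [hDB P]
    · exact X.L_mono fun P => by
        rw [Finsupp.add_apply]
        linarith [hnQ0 P]
  have hlt : finrank ℂ T₀ < finrank ℂ T := by
    have := hcod D B hDB hBQ.symm (by rw [X.deg_add, hdegnQ]; linarith) (by rw [hdegB]; exact hm.1)
    rw [← hT₀, ← hT] at this
    omega
  obtain ⟨t, htT, htT₀⟩ : ∃ t ∈ T, t ∉ T₀ := by
    by_contra hcon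
    push Not at hcon
    have h1 := Submodule.finrank_mono (show T ≤ T₀ from hcon)
    omega
  obtain ⟨ω, hω1, hω2⟩ := Submodule.exists_dual_map_eq_bot_of_notMem htT₀ inferInstance
  have hω : ∀ z ∈ T₀, ω z = 0 := by
    intro z hz
    have : ω z ∈ T₀.map ω := ⟨z, hz, rfl⟩
    rw [hω2, Submodule.mem_bot] at this
    exact this
  -- the pairing
  set V : Submodule ℂ K := X.L (B₁ + nQ) with hV
  set U₀ : Submodule ℂ K := X.L ((D - E) + nQ) ⊔ X.L B₁ with hU₀
  have hDE : ∀ P, (D - E) P ≤ B₁ P := by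
    intro P
    rw [hB₁, Finsupp.sub_apply, Finsupp.sub_apply]
    linarith [hDB P]
  have hDEQ : (D - E) Q = B₁ Q := by
    rw [hB₁, Finsupp.sub_apply, Finsupp.sub_apply, hBQ]
  have hU₀V : U₀ ≤ V := by
    apply sup_le
    · exact X.L_mono fun P => by
        rw [Finsupp.add_apply, Finsupp.add_apply]
        linarith [hDE P]
    · exact X.L_mono fun P => by
        rw [Finsupp.add_apply]
        linarith [hnQ0 P]
  have hdimU := hcod (D - E) B₁ hDE hDEQ (by rw [X.deg_add, hdegnQ]; linarith)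
    (by rw [hdegB₁]; exact hm.2)
  let Φ : X.L E →ₗ[ℂ] Module.Dual ℂ V :=
    { toFun := fun f => (ω.comp (LinearMap.mulLeft ℂ (f : K))).comp V.subtype
      map_add' := by
        intro f f'
        ext v
        simp [add_mul]
      map_smul' := by
        intro a f
        ext v
        simp }
  have hΦ : ∀ (f : X.L E) (v : V), Φ f v = ω ((f : K) * v) := fun f v => rfl
  have hker : ∀ f : X.L E, Φ f ∈ (U₀.comap V.subtype).dualAnnihilator := by
    intro f
    rw [Submodule.mem_dualAnnihilator]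
    intro v hv
    rw [hΦ]
    apply hω
    obtain ⟨y, hy, z, hz, hyz⟩ := Submodule.mem_sup.1 (show (v : K) ∈ U₀ from hv)
    rw [← hyz, mul_add]
    apply add_mem
    · apply (le_sup_left : X.L (D + nQ) ≤ T₀)
      have h1 := X.mul_mem_L f.2 hy
      have e1 : E + (D - E + nQ) = D + nQ := by abel
      rwa [e1] at h1
    · apply (le_sup_right : X.L B ≤ T₀)
      have h1 := X.mul_mem_L f.2 hz
      have e1 : E + B₁ = B := by
        rw [hB₁]
        abel
      rwa [e1] at h1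
  have hinj : Function.Injective Φ := by
    rw [injective_iff_map_eq_zero]
    intro f hf
    by_contra hf0
    have hf0' : (f : K) ≠ 0 := fun h0 => hf0 (Subtype.ext h0)
    -- `ω` vanishes on `T`
    obtain ⟨F₁, hF₁⟩ : ∃ F₁ : X.Pt →₀ ℤ, F₁ = B₁ - X.dv (f : K) := ⟨_, rfl⟩
    have hz1 : ∀ z ∈ X.L (F₁ + nQ), ω z = 0 := by
      intro z hz
      have h1 : (f : K)⁻¹ * z ∈ V := by
        have h2 : (f : K) * ((f : K)⁻¹ * z) ∈ X.L (F₁ + nQ) := by
          rw [mul_inv_cancel_left₀ hf0']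
          exact hz
        have h3 := (X.mul_mem_L_iff hf0').1 h2
        have e1 : F₁ + nQ + X.dv (f : K) = B₁ + nQ := by
          rw [hF₁]
          abel
        rwa [e1] at h3
      have h4 := LinearMap.congr_fun hf (⟨_, h1⟩ : V)
      rw [hΦ] at h4
      simp only at h4
      rw [mul_inv_cancel_left₀ hf0'] at h4
      exact h4
    have hpd := deg_posp_dv f.2 hf0'
    have hS1 : c ≤ X.deg ((F₁ + nQ) ⊓ (D + nQ)) := by
      have h1 : X.deg (nQ + (B₁ ⊓ D) - posp (X.dv (f : K))) ≤ X.deg ((F₁ + nQ) ⊓ (D + nQ)) := by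
        apply X.deg_mono
        intro P
        rw [Finsupp.sub_apply, Finsupp.add_apply, Finsupp.inf_apply, Finsupp.inf_apply, hF₁,
          Finsupp.add_apply, Finsupp.add_apply, Finsupp.sub_apply, posp_apply]
        have h2 := le_max_left (X.dv (f : K) P) 0
        have h3 := le_max_right (X.dv (f : K) P) 0
        have h4 : min (B₁ P) (D P) ≤ B₁ P := min_le_left _ _
        have h5 : min (B₁ P) (D P) ≤ D P := min_le_right _ _
        show nQ P + min (B₁ P) (D P) - max (X.dv (f : K) P) 0 ≤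
          min (B₁ P - X.dv (f : K) P + nQ P) (D P + nQ P)
        apply le_min <;> linarith
      rw [X.deg_sub, X.deg_add, hdegnQ] at h1
      linarith
    have hsum1 := L_sup_eq h hS1
    obtain ⟨S, hS⟩ : ∃ S : X.Pt →₀ ℤ, S = (F₁ + nQ) ⊔ (D + nQ) := ⟨_, rfl⟩
    have hz2 : ∀ z ∈ X.L S, ω z = 0 := by
      intro z hz
      rw [hS, ← hsum1] at hz
      obtain ⟨y, hy, w, hw, hyw⟩ := Submodule.mem_sup.1 hz
      rw [← hyw, map_add, hz1 y hy, hω w ((le_sup_left : X.L (D + nQ) ≤ T₀) hw), add_zero]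
    have hF₁B : ∀ P, F₁ P ≤ B P := by
      intro P
      rw [hF₁, hB₁, Finsupp.sub_apply, Finsupp.sub_apply, X.dv_apply hf0']
      have := f.2 hf0' P
      linarith
    have hSP : ∀ P, S P = max (F₁ P + nQ P) (D P + nQ P) := by
      intro P
      rw [hS, Finsupp.sup_apply, Finsupp.add_apply, Finsupp.add_apply]
    have hS2 : c ≤ X.deg (S ⊓ B) := by
      have h1 : X.deg F₁ ≤ X.deg (S ⊓ B) := by
        apply X.deg_mono
        intro P
        rw [Finsupp.inf_apply, hSP]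
        apply le_inf
        · exact le_trans (by linarith [hnQ0 P]) (le_max_left _ _)
        · exact hF₁B P
      rw [hF₁, X.deg_sub, X.deg_dv hf0', hdegB₁] at h1
      linarith [hm.2]
    have hsum2 := L_sup_eq h hS2
    have hSB : S ⊔ B = B + nQ := by
      ext P
      rw [Finsupp.sup_apply, Finsupp.add_apply, hSP]
      show max (max (F₁ P + nQ P) (D P + nQ P)) (B P) = B P + nQ P
      by_cases hP : P = Q
      · rw [hP, hBQ, hnQQ]
        have h1 := hF₁B Q
        rw [hBQ] at h1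
        rw [max_eq_right (by linarith : F₁ Q + n ≤ D Q + n), max_eq_left (by linarith)]
      · rw [hnQP P hP, add_zero, add_zero, add_zero]
        exact max_eq_right (max_le (hF₁B P) (hDB P))
    rw [hSB] at hsum2
    apply hω1
    rw [hT, ← hsum2] at htT
    obtain ⟨y, hy, w, hw, hyw⟩ := Submodule.mem_sup.1 htT
    rw [← hyw, map_add, hz2 y hy, hω w ((le_sup_right : X.L B ≤ T₀) hw), add_zero]
  -- count dimensions
  have hle : finrank ℂ (X.L E) ≤ finrank ℂ (U₀.comap V.subtype).dualAnnihilator :=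
    LinearMap.finrank_le_finrank_of_injective (f := Φ.codRestrict _ hker) (by
      intro f f' hff
      exact hinj (congrArg Subtype.val hff))
  have hann := Subspace.finrank_add_finrank_dualAnnihilator_eq (U₀.comap V.subtype)
  have hcomap : finrank ℂ (U₀.comap V.subtype) = finrank ℂ U₀ :=
    LinearEquiv.finrank_eq (Submodule.comapSubtypeEquivOfLe hU₀V)
  rw [hcomap] at hann
  have hVr := h (B₁ + nQ) (by rw [X.deg_add, hdegnQ]; linarith [hm.2])
  rw [← hU₀, ← hV] at hdimU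
  omega

/-- Riemann-Roch in the range `deg > 2 g - 2` from large degrees. -/
theorem rr_of_large (X : CurveOrd K) (hR : X.Res) {Q R : X.Pt} (hQR : Q ≠ R) {g c : ℤ}
    (h : X.RRLarge g c) (D : X.Pt →₀ ℤ) (hD : 2 * g - 2 < X.deg D) :
    (finrank ℂ (X.L D) : ℤ) = X.deg D + 1 - g := by
  classical
  have : Nonempty X.Pt := ⟨Q⟩
  have hfin : ∀ D : X.Pt →₀ ℤ, FiniteDimensional ℂ (X.L D) := fun D => finite_L' hR D
  have hge : X.deg D + 1 - g ≤ finrank ℂ (X.L D) := by
    obtain ⟨n, hn⟩ := exists_nat_ge (c - X.deg D)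
    have h1 := finrank_L_mono hR (D := D) (E := D + Finsupp.single Q (n : ℤ)) (by
      intro P
      rw [Finsupp.add_apply, Finsupp.single_apply]
      split_ifs
      · linarith [Int.natCast_nonneg n]
      · linarith)
    have h2 := h (D + Finsupp.single Q (n : ℤ)) (by rw [X.deg_add, X.deg_single]; linarith)
    rw [h2, X.deg_add, X.deg_single] at h1
    linarith
  by_contra hne
  have hlt : X.deg D + 1 - g < finrank ℂ (X.L D) := lt_of_le_of_ne hge (Ne.symm hne)
  -- a divisor of large degree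
  obtain ⟨k, hk⟩ : ∃ k : ℕ, X.deg D < k ∧ c ≤ k := by
    obtain ⟨k₁, h1⟩ := exists_nat_ge (X.deg D + 1)
    obtain ⟨k₂, h2⟩ := exists_nat_ge c
    have k1 := Int.natCast_nonneg k₁
    have k2 := Int.natCast_nonneg k₂
    refine ⟨k₁ + k₂, ?_⟩
    push_cast
    constructor <;> linarith
  set E : X.Pt →₀ ℤ := Finsupp.single Q (k : ℤ) with hE
  have hdegE : X.deg E = k := by rw [hE, X.deg_single]
  have h1 := claim hR h hQR hlt E
  have h2 := h E (by rw [hdegE]; exact hk.2)
  have h3 : X.L (D - E) = ⊥ := X.L_eq_bot (by rw [X.deg_sub, hdegE]; linarith [hk.1])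
  rw [h3, finrank_bot, X.deg_sub, h2, hdegE] at h1
  push_cast at h1
  linarith

end CurveOrd
end Pool.Agent.YTD


end

/- source: Pool.Agent.YTDA.Germ -/

section

/-!
The field of germs at `0` of meromorphic functions of one complex variable.
-/

namespace Pool.Agent.YTDA

open Complex Set Topology Filter Metric
open Pool.Agent.YTD

noncomputable section

/-- the ring of germs at `0` of meromorphic functions, as germs on punctured neighbourhoods -/
def MGs : Subring (Filter.Germ (𝓝[≠] (0 : ℂ)) ℂ) where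
  carrier := {g | ∃ f : ℂ → ℂ, MeromorphicAt f 0 ∧ (f : Filter.Germ (𝓝[≠] (0 : ℂ)) ℂ) = g}
  mul_mem' := by
    rintro _ _ ⟨f, hf, rfl⟩ ⟨g, hg, rfl⟩
    exact ⟨f * g, hf.mul hg, rfl⟩
  one_mem' := ⟨1, MeromorphicAt.const 1 0, rfl⟩
  add_mem' := by
    rintro _ _ ⟨f, hf, rfl⟩ ⟨g, hg, rfl⟩
    exact ⟨f + g, hf.add hg, rfl⟩
  zero_mem' := ⟨0, MeromorphicAt.const 0 0, rfl⟩
  neg_mem' := by
    rintro _ ⟨f, hf, rfl⟩
    exact ⟨-f, hf.neg, rfl⟩

/-- the field of germs at `0` of meromorphic functions -/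
def Germ : Type := MGs

instance : CommRing Germ := inferInstanceAs (CommRing MGs)

/-- the germ of a function (`0` if the function is not meromorphic at `0`) -/
def gm (f : ℂ → ℂ) : Germ :=
  open Classical in
  if h : MeromorphicAt f 0 then (⟨(f : Filter.Germ (𝓝[≠] (0 : ℂ)) ℂ), f, h, rfl⟩ : MGs) else (0 : MGs)

theorem gm_val {f : ℂ → ℂ} (hf : MeromorphicAt f 0) :
    (show MGs from gm f).1 = (f : Filter.Germ (𝓝[≠] (0 : ℂ)) ℂ) := by
  unfold gm
  rw [dif_pos hf]

theorem gm_eq_iff {f g : ℂ → ℂ} (hf : MeromorphicAt f 0) (hg : MeromorphicAt g 0) :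
    gm f = gm g ↔ f =ᶠ[𝓝[≠] 0] g := by
  rw [← Filter.Germ.coe_eq, ← gm_val hf, ← gm_val hg]
  exact Subtype.ext_iff

theorem gm_congr {f g : ℂ → ℂ} (h : f =ᶠ[𝓝[≠] 0] g) : gm f = gm g := by
  by_cases hf : MeromorphicAt f 0
  · exact (gm_eq_iff hf (hf.congr h)).2 h
  · have hg : ¬ MeromorphicAt g 0 := fun hg => hf (hg.congr h.symm)
    unfold gm
    rw [dif_neg hf, dif_neg hg]

theorem gm_surj (x : Germ) : ∃ f : ℂ → ℂ, MeromorphicAt f 0 ∧ gm f = x := by
  obtain ⟨f, hf, hx⟩ := (show MGs from x).2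
  refine ⟨f, hf, ?_⟩
  apply Subtype.ext
  rw [← hx]
  exact gm_val hf

theorem gm_add {f g : ℂ → ℂ} (hf : MeromorphicAt f 0) (hg : MeromorphicAt g 0) :
    gm (f + g) = gm f + gm g := by
  apply Subtype.ext
  refine (gm_val (hf.add hg)).trans ?_
  show _ = (show MGs from gm f).1 + (show MGs from gm g).1
  rw [gm_val hf, gm_val hg]
  rfl

theorem gm_mul {f g : ℂ → ℂ} (hf : MeromorphicAt f 0) (hg : MeromorphicAt g 0) :
    gm (f * g) = gm f * gm g := by
  apply Subtype.ext
  refine (gm_val (hf.mul hg)).trans ?_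
  show _ = (show MGs from gm f).1 * (show MGs from gm g).1
  rw [gm_val hf, gm_val hg]
  rfl

theorem gm_neg {f : ℂ → ℂ} (hf : MeromorphicAt f 0) : gm (-f) = - gm f := by
  apply Subtype.ext
  refine (gm_val hf.neg).trans ?_
  show _ = - (show MGs from gm f).1
  rw [gm_val hf]
  rfl

theorem gm_one : gm 1 = 1 := by
  apply Subtype.ext
  exact gm_val (MeromorphicAt.const 1 0)

theorem gm_zero : gm 0 = 0 := by
  apply Subtype.ext
  exact gm_val (MeromorphicAt.const 0 0)

theorem gm_eq_zero_iff {f : ℂ → ℂ} (hf : MeromorphicAt f 0) :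
    gm f = 0 ↔ ∀ᶠ z in 𝓝[≠] (0 : ℂ), f z = 0 := by
  rw [← gm_zero]
  exact gm_eq_iff hf (MeromorphicAt.const 0 0)

theorem gm_inv_mul {f : ℂ → ℂ} (hf : MeromorphicAt f 0) (h0 : gm f ≠ 0) :
    gm f * gm f⁻¹ = 1 := by
  rw [← gm_mul hf hf.inv, ← gm_one]
  apply gm_congr
  have h1 := hf.eventually_eq_zero_or_eventually_ne_zero
  rw [Ne, gm_eq_zero_iff hf] at h0
  rcases h1 with h1 | h1
  · exact absurd h1 h0
  · filter_upwards [h1] with z hz
    show f z * (f z)⁻¹ = 1
    exact mul_inv_cancel₀ hz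

theorem germ_isField : IsField Germ where
  exists_pair_ne := ⟨0, 1, by
    rw [← gm_zero, ← gm_one]
    intro h0
    have h := (gm_eq_iff (MeromorphicAt.const 0 0) (MeromorphicAt.const 1 0)).1 h0
    obtain ⟨z, hz⟩ := h.exists
    exact zero_ne_one hz⟩
  mul_comm := mul_comm
  mul_inv_cancel := by
    intro a ha
    obtain ⟨f, hf, rfl⟩ := gm_surj a
    exact ⟨gm f⁻¹, gm_inv_mul hf ha⟩

instance : Field Germ := germ_isField.toField

theorem gm_inv {f : ℂ → ℂ} (hf : MeromorphicAt f 0) : gm f⁻¹ = (gm f)⁻¹ := by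
  by_cases h : gm f = 0
  · rw [h, inv_zero]
    rw [gm_eq_zero_iff hf] at h
    rw [gm_eq_zero_iff hf.inv]
    filter_upwards [h] with z hz
    show (f z)⁻¹ = 0
    rw [hz, inv_zero]
  · exact eq_inv_of_mul_eq_one_right (gm_inv_mul hf h)

theorem gm_pow {f : ℂ → ℂ} (hf : MeromorphicAt f 0) (n : ℕ) : gm (f ^ n) = gm f ^ n := by
  induction n with
  | zero => rw [pow_zero, pow_zero, gm_one]
  | succ n ih => rw [pow_succ, pow_succ, gm_mul (hf.pow n) hf, ih]

theorem gm_zpow {f : ℂ → ℂ} (hf : MeromorphicAt f 0) (n : ℤ) : gm (f ^ n) = gm f ^ n := by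
  cases n with
  | ofNat n => exact (congrArg gm (zpow_natCast f n)).trans ((gm_pow hf n).trans (zpow_natCast _ n).symm)
  | negSucc n =>
    rw [zpow_negSucc, zpow_negSucc, gm_inv (hf.pow _), gm_pow hf]

theorem gm_sub {f g : ℂ → ℂ} (hf : MeromorphicAt f 0) (hg : MeromorphicAt g 0) :
    gm (f - g) = gm f - gm g := by
  rw [sub_eq_add_neg, gm_add hf hg.neg, gm_neg hg, ← sub_eq_add_neg]

/-- the constant germs -/
def gmC : ℂ →+* Germ where
  toFun c := gm (fun _ => c)
  map_one' := gm_one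
  map_zero' := gm_zero
  map_mul' a b := gm_mul (MeromorphicAt.const a 0) (MeromorphicAt.const b 0)
  map_add' a b := gm_add (MeromorphicAt.const a 0) (MeromorphicAt.const b 0)

instance : Algebra ℂ Germ := gmC.toAlgebra

theorem algebraMap_germ (c : ℂ) : algebraMap ℂ Germ c = gm (fun _ => c) := rfl

theorem smul_germ (c : ℂ) {f : ℂ → ℂ} (hf : MeromorphicAt f 0) :
    c • gm f = gm (fun z => c * f z) := by
  rw [Algebra.smul_def, algebraMap_germ, ← gm_mul (MeromorphicAt.const c 0) hf]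
  rfl

/-! ### Order and leading coefficient -/

/-- a representative -/
def rep₀ (x : Germ) : ℂ → ℂ := (gm_surj x).choose

theorem rep₀_mero (x : Germ) : MeromorphicAt (rep₀ x) 0 := (gm_surj x).choose_spec.1

theorem gm_rep₀ (x : Germ) : gm (rep₀ x) = x := (gm_surj x).choose_spec.2

theorem rep₀_gm {f : ℂ → ℂ} (hf : MeromorphicAt f 0) : rep₀ (gm f) =ᶠ[𝓝[≠] 0] f :=
  (gm_eq_iff (rep₀_mero _) hf).1 (gm_rep₀ _)

/-- order of a germ, with values in `ℤ ∪ {∞}` -/
def mo (x : Germ) : WithTop ℤ := meromorphicOrderAt (rep₀ x) 0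

theorem mo_gm {f : ℂ → ℂ} (hf : MeromorphicAt f 0) : mo (gm f) = meromorphicOrderAt f 0 :=
  meromorphicOrderAt_congr (rep₀_gm hf)

theorem mo_eq_top {x : Germ} : mo x = ⊤ ↔ x = 0 := by
  unfold mo
  rw [meromorphicOrderAt_eq_top_iff, ← gm_eq_zero_iff (rep₀_mero x), gm_rep₀]

/-- order of a germ -/
def go (x : Germ) : ℤ := (mo x).untop₀

theorem go_gm {f : ℂ → ℂ} (hf : MeromorphicAt f 0) :
    go (gm f) = (meromorphicOrderAt f 0).untop₀ := by
  unfold go
  rw [mo_gm hf]

theorem coe_go {x : Germ} (hx : x ≠ 0) : ((go x : ℤ) : WithTop ℤ) = mo x :=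
  WithTop.coe_untop₀_of_ne_top (fun h => hx (mo_eq_top.1 h))

/-- leading coefficient of a germ -/
def glc (x : Germ) : ℂ := meromorphicTrailingCoeffAt (rep₀ x) 0

theorem glc_gm {f : ℂ → ℂ} (hf : MeromorphicAt f 0) :
    glc (gm f) = meromorphicTrailingCoeffAt f 0 :=
  meromorphicTrailingCoeffAt_congr_nhdsNE (rep₀_gm hf)

/-- standard form of a nonzero germ -/
theorem exists_std {x : Germ} (hx : x ≠ 0) : ∃ g : ℂ → ℂ, AnalyticAt ℂ g 0 ∧ g 0 = glc x ∧ glc x ≠ 0 ∧
    x = gm (fun z => z ^ go x * g z) := by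
  have h1 := rep₀_mero x
  have h2 : meromorphicOrderAt (rep₀ x) 0 = (go x : ℤ) := (coe_go hx).symm
  obtain ⟨g, hg, hg0, he⟩ := (meromorphicOrderAt_eq_int_iff h1).1 h2
  have h3 := hg.meromorphicTrailingCoeffAt_of_ne_zero_of_eq_nhdsNE hg0 he
  refine ⟨g, hg, h3.symm, by rw [glc, h3]; exact hg0, ?_⟩
  nth_rewrite 1 [← gm_rep₀ x]
  apply gm_congr
  filter_upwards [he] with z hz
  rw [hz, sub_zero, smul_eq_mul]

theorem std_mero {g : ℂ → ℂ} (hg : AnalyticAt ℂ g 0) (n : ℤ) :
    MeromorphicAt (fun z => z ^ n * g z) 0 := by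
  have h1 : MeromorphicAt (fun z : ℂ => z ^ n) 0 := (MeromorphicAt.id 0).zpow n
  exact h1.mul hg.meromorphicAt

theorem std_ord {g : ℂ → ℂ} (hg : AnalyticAt ℂ g 0) (hg0 : g 0 ≠ 0) (n : ℤ) :
    gm (fun z => z ^ n * g z) ≠ 0 ∧ go (gm (fun z => z ^ n * g z)) = n ∧
      glc (gm (fun z => z ^ n * g z)) = g 0 := by
  have h1 := std_mero hg n
  have h2 : meromorphicOrderAt (fun z => z ^ n * g z) 0 = n := by
    rw [meromorphicOrderAt_eq_int_iff h1]
    refine ⟨g, hg, hg0, ?_⟩
    filter_upwards with z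
    rw [sub_zero, smul_eq_mul]
  refine ⟨?_, ?_, ?_⟩
  · rw [Ne, ← mo_eq_top, mo_gm h1, h2]
    exact WithTop.coe_ne_top
  · rw [go_gm h1, h2]
    rfl
  · rw [glc_gm h1]
    apply hg.meromorphicTrailingCoeffAt_of_ne_zero_of_eq_nhdsNE (n := n) hg0
    filter_upwards with z
    rw [sub_zero, smul_eq_mul]

theorem go_mul {x y : Germ} (hx : x ≠ 0) (hy : y ≠ 0) : go (x * y) = go x + go y := by
  obtain ⟨f, hf, rfl⟩ := gm_surj x
  obtain ⟨g, hg, rfl⟩ := gm_surj y
  have h1 : mo (gm f) ≠ ⊤ := fun h => hx (mo_eq_top.1 h)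
  have h2 : mo (gm g) ≠ ⊤ := fun h => hy (mo_eq_top.1 h)
  rw [mo_gm hf] at h1
  rw [mo_gm hg] at h2
  rw [← gm_mul hf hg, go_gm (hf.mul hg), go_gm hf, go_gm hg, meromorphicOrderAt_mul hf hg,
    WithTop.untop₀_add h1 h2]

theorem go_add {x y : Germ} (h : x + y ≠ 0) : min (go x) (go y) ≤ go (x + y) := by
  by_cases hx : x = 0
  · rw [hx, zero_add]
    exact min_le_right _ _
  by_cases hy : y = 0
  · rw [hy, add_zero]
    exact min_le_left _ _
  have key : min (mo x) (mo y) ≤ mo (x + y) := by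
    obtain ⟨f, hf, rfl⟩ := gm_surj x
    obtain ⟨g, hg, rfl⟩ := gm_surj y
    rw [← gm_add hf hg, mo_gm (hf.add hg), mo_gm hf, mo_gm hg]
    exact meromorphicOrderAt_add hf hg
  rw [← coe_go hx, ← coe_go hy, ← coe_go h] at key
  exact_mod_cast key

theorem go_const (c : ℂ) : go (algebraMap ℂ Germ c) = 0 := by
  classical
  rw [algebraMap_germ, go_gm (MeromorphicAt.const c 0), meromorphicOrderAt_const]
  split_ifs <;> rfl

theorem glc_mul (x y : Germ) : glc (x * y) = glc x * glc y := by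
  obtain ⟨f, hf, rfl⟩ := gm_surj x
  obtain ⟨g, hg, rfl⟩ := gm_surj y
  rw [← gm_mul hf hg, glc_gm (hf.mul hg), glc_gm hf, glc_gm hg]
  exact hf.meromorphicTrailingCoeffAt_mul hg

theorem glc_const (c : ℂ) : glc (algebraMap ℂ Germ c) = c := by
  rw [algebraMap_germ, glc_gm (MeromorphicAt.const c 0)]
  exact meromorphicTrailingCoeffAt_const

theorem glc_neg (x : Germ) : glc (-x) = - glc x := by
  obtain ⟨f, hf, rfl⟩ := gm_surj x
  rw [← gm_neg hf, glc_gm hf.neg, glc_gm hf]
  exact meromorphicTrailingCoeffAt_neg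

theorem glc_add {x y : Germ} (hx : x ≠ 0) (hy : y ≠ 0) (h : go x < go y) :
    glc (x + y) = glc x := by
  have h2 : mo x < mo y := by
    rw [← coe_go hx, ← coe_go hy]
    exact_mod_cast h
  obtain ⟨f, hf, rfl⟩ := gm_surj x
  obtain ⟨g, hg, rfl⟩ := gm_surj y
  rw [mo_gm hf, mo_gm hg] at h2
  rw [← gm_add hf hg, glc_gm (hf.add hg), glc_gm hf]
  exact hg.meromorphicTrailingCoeffAt_add_eq_left_of_lt h2

theorem glc_ne {x : Germ} (hx : x ≠ 0) : glc x ≠ 0 := by
  obtain ⟨_, _, _, h, _⟩ := exists_std hx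
  exact h

theorem go_res {x y : Germ} (hx : x ≠ 0) (hy : y ≠ 0) (h : go x = go y) :
    ∃ c : ℂ, x - c • y = 0 ∨ go x < go (x - c • y) := by
  obtain ⟨f, hf, hf0, hf1, hfx⟩ := exists_std hx
  obtain ⟨g, hg, hg0, hg1, hgx⟩ := exists_std hy
  refine ⟨glc x / glc y, ?_⟩
  rw [← h] at hgx
  set n := go x with hn
  set c := glc x / glc y with hc
  have hk : AnalyticAt ℂ (fun z => f z - c * g z) 0 := hf.sub (analyticAt_const.mul hg)
  have e1 : x - c • y = gm (fun z => z ^ n * (f z - c * g z)) := by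
    nth_rewrite 1 [hfx]
    nth_rewrite 1 [hgx]
    rw [smul_germ c (std_mero hg n)]
    refine (gm_sub (std_mero hf n) ((MeromorphicAt.const c 0).mul (std_mero hg n))).symm.trans ?_
    congr 1
    funext z
    simp only [Pi.sub_apply, Pi.mul_apply]
    ring
  by_cases h0 : x - c • y = 0
  · exact Or.inl h0
  right
  have h2 : (n : WithTop ℤ) < mo (x - c • y) := by
    rw [e1, mo_gm (std_mero hk n)]
    have h3 : meromorphicOrderAt (fun z : ℂ => z ^ n * (f z - c * g z)) 0 =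
        n + meromorphicOrderAt (fun z => f z - c * g z) 0 := by
      have h4 : MeromorphicAt (fun z : ℂ => z ^ n) 0 := (MeromorphicAt.id 0).zpow n
      have h5 : meromorphicOrderAt (fun z : ℂ => z ^ n) 0 = n := by
        rw [meromorphicOrderAt_eq_int_iff h4]
        refine ⟨fun _ => 1, analyticAt_const, one_ne_zero, ?_⟩
        filter_upwards with z
        rw [sub_zero, smul_eq_mul, mul_one]
      rw [← h5]
      exact meromorphicOrderAt_mul h4 hk.meromorphicAt
    rw [h3]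
    have h6 : 0 < meromorphicOrderAt (fun z => f z - c * g z) 0 := by
      rw [← tendsto_zero_iff_meromorphicOrderAt_pos hk.meromorphicAt]
      have h7 := hk.continuousAt.tendsto
      have h8 : f 0 - c * g 0 = 0 := by
        rw [hf0, hg0, hc, div_mul_cancel₀ _ hg1, sub_self]
      simp only [h8] at h7
      exact h7.mono_left nhdsWithin_le_nhds
    cases h9 : meromorphicOrderAt (fun z => f z - c * g z) 0 with
    | top => exact WithTop.coe_lt_top n
    | coe m =>
      rw [h9] at h6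
      have h10 : 0 < m := by exact_mod_cast h6
      have h11 : n < n + m := by linarith
      exact_mod_cast h11
  rw [← coe_go h0] at h2
  exact_mod_cast h2

/-- analytic square roots -/
theorem exists_sqrt_analytic {g : ℂ → ℂ} {a : ℂ} (hg : AnalyticAt ℂ g a) (hg0 : g a ≠ 0) {b : ℂ}
    (hb : b ^ 2 = g a) : ∃ r : ℂ → ℂ, AnalyticAt ℂ r a ∧ r a = b ∧ ∀ᶠ z in 𝓝 a, r z ^ 2 = g z := by
  have h1 : AnalyticAt ℂ (fun z => g z / g a) a := hg.div analyticAt_const hg0
  have h2 : g a / g a ∈ slitPlane := by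
    rw [div_self hg0]
    exact one_mem_slitPlane
  have h3 : AnalyticAt ℂ (fun z => log (g z / g a)) a := h1.clog h2
  refine ⟨fun z => b * exp (log (g z / g a) / 2), ?_, ?_, ?_⟩
  · exact analyticAt_const.mul ((h3.div analyticAt_const two_ne_zero).cexp)
  · show b * exp (log (g a / g a) / 2) = b
    rw [div_self hg0, log_one, zero_div, exp_zero, mul_one]
  · filter_upwards [hg.continuousAt.eventually_ne hg0] with z hz
    rw [mul_pow, ← exp_nat_mul, hb]
    have : ((2 : ℕ) : ℂ) * (log (g z / g a) / 2) = log (g z / g a) := by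
      push_cast
      ring
    rw [this, exp_log (div_ne_zero hz hg0), mul_div_cancel₀ _ hg0]

theorem go_sqrt {z : Germ} (hz : z ≠ 0) (he : Even (go z)) (b : ℂ) (hb : b ^ 2 = glc z) :
    ∃ η : Germ, η ^ 2 = z ∧ glc η = b := by
  obtain ⟨g, hg, hg0, hg1, hgz⟩ := exists_std hz
  obtain ⟨m, hm⟩ := he
  obtain ⟨r, hr, hr0, hr1⟩ := exists_sqrt_analytic hg (by rw [hg0]; exact hg1) (by rw [hb, hg0])
  have hb0 : r 0 ≠ 0 := by
    rw [hr0]
    rintro rfl
    apply hg1
    rw [← hb]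
    ring
  obtain ⟨h1, h2, h3⟩ := std_ord hr hb0 m
  refine ⟨gm (fun z => z ^ m * r z), ?_, by rw [h3, hr0]⟩
  rw [← gm_pow (std_mero hr m)]
  refine Eq.trans ?_ hgz.symm
  apply gm_congr
  filter_upwards [hr1.filter_mono nhdsWithin_le_nhds, self_mem_nhdsWithin] with w hw hw0
  show (w ^ m * r w) ^ 2 = w ^ go z * g w
  rw [mul_pow, hw, hm, zpow_add₀ hw0]
  ring

/-- the germ of the identity -/
def gs : Germ := gm (fun z => z)

theorem gs_spec : gs ≠ 0 ∧ go gs = 1 ∧ glc gs = 1 := by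
  have h := std_ord (g := fun _ => (1 : ℂ)) analyticAt_const one_ne_zero 1
  have e : (fun z : ℂ => z ^ (1 : ℤ) * 1) = fun z => z := by
    funext z
    rw [zpow_one, mul_one]
  rw [e] at h
  exact h

/-- The field of germs of meromorphic functions has the properties of the field of Laurent
series. -/
def lam : Hyp.LF Germ where
  ord := go
  lc := glc
  ord_mul := go_mul
  ord_add := go_add
  ord_const := go_const
  lc_mul := glc_mul
  lc_const := glc_const
  lc_neg := glc_neg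
  lc_add := glc_add
  res := go_res
  sqrt := go_sqrt
  s := gs
  s_ne := gs_spec.1
  ord_s := gs_spec.2.1
  lc_s := gs_spec.2.2

/-! ### Interface -/

namespace Germ

/-- the germ of a meromorphic function -/
def mk (f : ℂ → ℂ) (_ : MeromorphicAt f 0) : Germ := gm f

/-- a representative of a germ -/
def rep (x : Germ) : ℂ → ℂ := rep₀ x

theorem rep_mero (x : Germ) : MeromorphicAt x.rep 0 := rep₀_mero x

theorem rep_mk (f : ℂ → ℂ) (hf : MeromorphicAt f 0) : (mk f hf).rep =ᶠ[𝓝[≠] 0] f := rep₀_gm hf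

theorem gm_rep (x : Germ) : gm x.rep = x := gm_rep₀ x

theorem mk_rep (x : Germ) : mk x.rep x.rep_mero = x := gm_rep₀ x

theorem ext {x y : Germ} (h : x.rep =ᶠ[𝓝[≠] 0] y.rep) : x = y := by
  rw [← gm_rep x, ← gm_rep y]
  exact gm_congr h

theorem ext_iff {x y : Germ} : x = y ↔ x.rep =ᶠ[𝓝[≠] 0] y.rep := by
  constructor
  · rintro rfl
    exact EventuallyEq.rfl
  · exact ext

theorem mk_eq_iff {f : ℂ → ℂ} (hf : MeromorphicAt f 0) {x : Germ} :
    mk f hf = x ↔ f =ᶠ[𝓝[≠] 0] x.rep := by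
  rw [ext_iff]
  exact ⟨fun h => (rep_mk f hf).symm.trans h, fun h => (rep_mk f hf).trans h⟩

theorem eq_mk_iff {f : ℂ → ℂ} (hf : MeromorphicAt f 0) {x : Germ} :
    x = mk f hf ↔ x.rep =ᶠ[𝓝[≠] 0] f := by
  rw [eq_comm, mk_eq_iff]
  exact ⟨fun h => h.symm, fun h => h.symm⟩

theorem rep_gm {f : ℂ → ℂ} (hf : MeromorphicAt f 0) : (gm f).rep =ᶠ[𝓝[≠] 0] f := rep₀_gm hf

theorem rep_add (x y : Germ) : (x + y).rep =ᶠ[𝓝[≠] 0] fun s => x.rep s + y.rep s := by
  have h := rep_gm (x.rep_mero.add y.rep_mero)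
  rw [gm_add x.rep_mero y.rep_mero, gm_rep, gm_rep] at h
  exact h

theorem rep_mul (x y : Germ) : (x * y).rep =ᶠ[𝓝[≠] 0] fun s => x.rep s * y.rep s := by
  have h := rep_gm (x.rep_mero.mul y.rep_mero)
  rw [gm_mul x.rep_mero y.rep_mero, gm_rep, gm_rep] at h
  exact h

theorem rep_neg (x : Germ) : (-x).rep =ᶠ[𝓝[≠] 0] fun s => - x.rep s := by
  have h := rep_gm x.rep_mero.neg
  rw [gm_neg x.rep_mero, gm_rep] at h
  exact h

theorem rep_sub (x y : Germ) : (x - y).rep =ᶠ[𝓝[≠] 0] fun s => x.rep s - y.rep s := by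
  have h := rep_gm (x.rep_mero.sub y.rep_mero)
  rw [gm_sub x.rep_mero y.rep_mero, gm_rep, gm_rep] at h
  exact h

theorem rep_one : (1 : Germ).rep =ᶠ[𝓝[≠] 0] fun _ => 1 := by
  have h := rep_gm (MeromorphicAt.const (1 : ℂ) 0)
  have h1 : gm (fun _ => (1 : ℂ)) = 1 := gm_one
  rw [h1] at h
  exact h

theorem rep_zero : (0 : Germ).rep =ᶠ[𝓝[≠] 0] fun _ => 0 := by
  have h := rep_gm (MeromorphicAt.const (0 : ℂ) 0)
  have h1 : gm (fun _ => (0 : ℂ)) = 0 := gm_zero
  rw [h1] at h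
  exact h

theorem rep_inv (x : Germ) : (x⁻¹).rep =ᶠ[𝓝[≠] 0] fun s => (x.rep s)⁻¹ := by
  have h := rep_gm x.rep_mero.inv
  rw [gm_inv x.rep_mero, gm_rep] at h
  exact h

theorem rep_div (x y : Germ) : (x / y).rep =ᶠ[𝓝[≠] 0] fun s => x.rep s / y.rep s := by
  rw [div_eq_mul_inv]
  filter_upwards [rep_mul x y⁻¹, rep_inv y] with s h1 h2
  rw [h1, h2, div_eq_mul_inv]

theorem rep_pow (x : Germ) (n : ℕ) : (x ^ n).rep =ᶠ[𝓝[≠] 0] fun s => x.rep s ^ n := by
  have h := rep_gm (x.rep_mero.pow n)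
  rw [gm_pow x.rep_mero, gm_rep] at h
  exact h

theorem rep_zpow (x : Germ) (n : ℤ) : (x ^ n).rep =ᶠ[𝓝[≠] 0] fun s => x.rep s ^ n := by
  have h := rep_gm (x.rep_mero.zpow n)
  rw [gm_zpow x.rep_mero, gm_rep] at h
  exact h

theorem rep_const (a : ℂ) : (algebraMap ℂ Germ a).rep =ᶠ[𝓝[≠] 0] fun _ => a :=
  rep_gm (MeromorphicAt.const a 0)

theorem rep_smul (a : ℂ) (x : Germ) : (a • x).rep =ᶠ[𝓝[≠] 0] fun s => a * x.rep s := by
  rw [Algebra.smul_def]
  filter_upwards [rep_mul (algebraMap ℂ Germ a) x, rep_const a] with s h1 h2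
  rw [h1, h2]

theorem ord_eq {x : Germ} (hx : x ≠ 0) : meromorphicOrderAt x.rep 0 = (lam.ord x : ℤ) :=
  (coe_go hx).symm

theorem rep_s : lam.s.rep =ᶠ[𝓝[≠] 0] fun s => s := rep_gm (MeromorphicAt.id 0)

theorem lc_eq {x : Germ} {n : ℤ} {g : ℂ → ℂ} (hg : AnalyticAt ℂ g 0) (hg0 : g 0 ≠ 0)
    (h : x.rep =ᶠ[𝓝[≠] 0] fun s => s ^ n * g s) : lam.ord x = n ∧ lam.lc x = g 0 := by
  have h1 := std_ord hg hg0 n
  have h2 : x = gm (fun z => z ^ n * g z) := by
    rw [← gm_rep x]
    exact gm_congr h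
  rw [← h2] at h1
  exact h1.2

/-- standard form of a nonzero germ -/
theorem exists_std {x : Germ} (hx : x ≠ 0) : ∃ g : ℂ → ℂ, AnalyticAt ℂ g 0 ∧ g 0 = lam.lc x ∧
    g 0 ≠ 0 ∧ x.rep =ᶠ[𝓝[≠] 0] fun s => s ^ lam.ord x * g s := by
  obtain ⟨g, h1, h2, h3, h4⟩ := Pool.Agent.YTDA.exists_std hx
  refine ⟨g, h1, h2, by rw [h2]; exact h3, ?_⟩
  have h5 := rep_gm (std_mero h1 (go x))
  rw [← h4] at h5
  exact h5

theorem lc_ne {x : Germ} (hx : x ≠ 0) : lam.lc x ≠ 0 := glc_ne hx

theorem eq_zero_iff {x : Germ} : x = 0 ↔ ∀ᶠ s in 𝓝[≠] (0 : ℂ), x.rep s = 0 := by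
  rw [← gm_eq_zero_iff x.rep_mero, gm_rep]

theorem eventually_ne {x : Germ} (hx : x ≠ 0) : ∀ᶠ s in 𝓝[≠] (0 : ℂ), x.rep s ≠ 0 := by
  rcases x.rep_mero.eventually_eq_zero_or_eventually_ne_zero with h | h
  · exact absurd (eq_zero_iff.2 h) hx
  · exact h

/-- a radius for the representative: on the punctured disc the representative is analytic and
has no zeros unless it vanishes identically -/
theorem exists_rad (x : Germ) : ∃ r : ℝ, 0 < r ∧
    ∀ s : ℂ, s ≠ 0 → ‖s‖ < r → AnalyticAt ℂ x.rep s ∧ (x ≠ 0 → x.rep s ≠ 0) := by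
  have h1 : ∀ᶠ s in 𝓝[≠] (0 : ℂ), AnalyticAt ℂ x.rep s ∧ (x ≠ 0 → x.rep s ≠ 0) := by
    by_cases hx : x = 0
    · filter_upwards [x.rep_mero.eventually_analyticAt] with s h
      exact ⟨h, fun h' => absurd hx h'⟩
    · filter_upwards [x.rep_mero.eventually_analyticAt, eventually_ne hx] with s h h'
      exact ⟨h, fun _ => h'⟩
  rw [eventually_nhdsWithin_iff, Metric.eventually_nhds_iff] at h1
  obtain ⟨r, hr, h⟩ := h1
  refine ⟨r, hr, fun s hs hs' => h (by rwa [dist_zero_right]) hs⟩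

/-- radius of the representative -/
def rad (x : Germ) : ℝ := x.exists_rad.choose

theorem rad_pos (x : Germ) : 0 < x.rad := x.exists_rad.choose_spec.1

theorem rep_analytic (x : Germ) {s : ℂ} (h0 : s ≠ 0) (hs : ‖s‖ < x.rad) : AnalyticAt ℂ x.rep s :=
  (x.exists_rad.choose_spec.2 s h0 hs).1

theorem rep_ne {x : Germ} (hx : x ≠ 0) {s : ℂ} (h0 : s ≠ 0) (hs : ‖s‖ < x.rad) : x.rep s ≠ 0 :=
  (x.exists_rad.choose_spec.2 s h0 hs).2 hx

theorem rep_meroOn (x : Germ) : MeromorphicOn x.rep (ball 0 x.rad) := by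
  intro s hs
  by_cases h0 : s = 0
  · rw [h0]
    exact x.rep_mero
  · exact (x.rep_analytic h0 (by simpa using hs)).meromorphicAt

end Germ

end

end Pool.Agent.YTDA


end

/- source: Pool.Agent.YTDA.LocBih -/

section

/-!
Local biholomorphisms of `ℂ` and the identity theorem for meromorphic functions.
-/

namespace Pool.Agent.YTDA

open Complex Set Topology Metric Filter

noncomputable section

/-- `κ` is a local biholomorphism at `x` with value `y`. -/
structure LB (κ : ℂ → ℂ) (x y : ℂ) : Prop where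
  an : AnalyticAt ℂ κ x
  val : κ x = y
  der : deriv κ x ≠ 0

namespace LB

variable {κ μ : ℂ → ℂ} {x y z : ℂ}

theorem refl (x : ℂ) : LB (fun t => t) x x :=
  ⟨analyticAt_id, rfl, by rw [deriv_id'']; exact one_ne_zero⟩

theorem comp (h : LB κ x y) (h' : LB μ y z) : LB (fun t => μ (κ t)) x z := by
  refine ⟨?_, ?_, ?_⟩
  · have h1 : AnalyticAt ℂ μ (κ x) := by
      rw [h.val]
      exact h'.an
    exact h1.comp h.an
  · show μ (κ x) = z
    rw [h.val, h'.val]
  · have h1 : DifferentiableAt ℂ μ (κ x) := by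
      rw [h.val]
      exact h'.an.differentiableAt
    have h2 := deriv_comp x h1 h.an.differentiableAt
    have h3 : deriv (fun t => μ (κ t)) x = deriv μ (κ x) * deriv κ x := h2
    rw [h3, h.val]
    exact mul_ne_zero h'.der h.der

theorem congr (h : LB κ x y) (h' : μ =ᶠ[𝓝 x] κ) : LB μ x y := by
  refine ⟨h.an.congr h'.symm, ?_, ?_⟩
  · rw [h'.eq_of_nhds, h.val]
  · rw [h'.deriv_eq]
    exact h.der

theorem continuousAt (h : LB κ x y) : ContinuousAt κ x := h.an.continuousAt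

theorem tendsto (h : LB κ x y) : Tendsto κ (𝓝 x) (𝓝 y) := by
  have := h.continuousAt.tendsto
  rwa [h.val] at this

theorem exists_inv (h : LB κ x y) : ∃ μ, LB μ y x ∧ (∀ᶠ t in 𝓝 x, μ (κ t) = t) ∧
    (∀ᶠ t in 𝓝 y, κ (μ t) = t) := by
  have hs := h.an.hasStrictDerivAt
  have e1 : ∀ᶠ t in 𝓝 x, (hs.localInverse _ _ _ h.der) (κ t) = t :=
    HasStrictFDerivAt.eventually_left_inverse (hs.hasStrictFDerivAt_equiv h.der)
  have e2 : ∀ᶠ t in 𝓝 (κ x), κ ((hs.localInverse _ _ _ h.der) t) = t :=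
    HasStrictFDerivAt.eventually_right_inverse (hs.hasStrictFDerivAt_equiv h.der)
  have a1 := h.an.analyticAt_localInverse h.der
  refine ⟨hs.localInverse _ _ _ h.der, ⟨?_, ?_, ?_⟩, e1, ?_⟩
  · rw [h.val] at a1
    exact a1
  · have := e1.self_of_nhds
    rwa [h.val] at this
  · have h1 : HasStrictDerivAt (hs.localInverse _ _ _ h.der) (deriv κ x)⁻¹ (κ x) :=
      hs.to_localInverse h.der
    rw [h.val] at h1
    rw [h1.hasDerivAt.deriv]
    exact inv_ne_zero h.der
  · rw [h.val] at e2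
    exact e2

theorem tendsto_ne (h : LB κ x y) : Tendsto κ (𝓝[≠] x) (𝓝[≠] y) := by
  obtain ⟨μ, h1, h2, _⟩ := h.exists_inv
  rw [tendsto_nhdsWithin_iff]
  refine ⟨h.tendsto.mono_left nhdsWithin_le_nhds, ?_⟩
  have h3 : ∀ᶠ t in 𝓝[≠] x, μ (κ t) = t := h2.filter_mono nhdsWithin_le_nhds
  filter_upwards [h3, self_mem_nhdsWithin] with t ht ht'
  intro h4
  apply ht'
  show t = x
  rw [← ht, show κ t = y from h4, h1.val]

theorem order (h : LB κ x y) (f : ℂ → ℂ) :
    meromorphicOrderAt (fun t => f (κ t)) x = meromorphicOrderAt f y := by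
  have := meromorphicOrderAt_comp_of_deriv_ne_zero (f := f) h.an h.der
  rwa [h.val] at this

theorem mero (h : LB κ x y) {f : ℂ → ℂ} (hf : MeromorphicAt f y) :
    MeromorphicAt (fun t => f (κ t)) x := by
  rw [← h.val] at hf
  exact hf.comp_analyticAt h.an

end LB

/-- Identity theorem for meromorphic functions. -/
theorem mero_identity {f g : ℂ → ℂ} {U : Set ℂ} (hU : IsPreconnected U)
    (hf : MeromorphicOn f U) (hg : MeromorphicOn g U) {x : ℂ} (hx : x ∈ U)
    (h : f =ᶠ[𝓝[≠] x] g) : ∀ y ∈ U, f =ᶠ[𝓝[≠] y] g := by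
  intro y hy
  have h1 : meromorphicOrderAt (f - g) x = ⊤ := by
    rw [meromorphicOrderAt_eq_top_iff]
    filter_upwards [h] with t ht
    rw [Pi.sub_apply, ht, sub_self]
  have h2 : meromorphicOrderAt (f - g) y = ⊤ := by
    by_contra h3
    exact (hf.sub hg).meromorphicOrderAt_ne_top_of_isPreconnected hU hy hx h3 h1
  rw [meromorphicOrderAt_eq_top_iff] at h2
  filter_upwards [h2] with t ht
  rw [Pi.sub_apply] at ht
  exact sub_eq_zero.1 ht

theorem mero_identity_ball {f g : ℂ → ℂ} {x : ℂ} {r : ℝ}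
    (hf : MeromorphicOn f (ball x r)) (hg : MeromorphicOn g (ball x r))
    (h : f =ᶠ[𝓝[≠] x] g) : ∀ y ∈ ball x r, f =ᶠ[𝓝[≠] y] g := by
  intro y hy
  have hr : 0 < r := by
    by_contra h0
    rw [ball_eq_empty.2 (not_lt.1 h0)] at hy
    exact hy
  exact mero_identity (convex_ball x r).isPreconnected hf hg (mem_ball_self hr) h y hy

end

end Pool.Agent.YTDA


end

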