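import Pool.Agent.YTDM.P03
import Pool.Agent.YTDM.P14

/- source: Pool.Agent.YTD.HypFinal -/

section

/-!
Riemann-Roch for the hyperelliptic curve `y² = f(x)`, and existence of the data `(C, S, S')`.
-/

namespace Pool.Agent.YTD.Hyp

open Polynomial Module

noncomputable section

variable {F : Type} [Field F] [Algebra ℂ F] {Λ : LF F} {f : ℂ[X]}

theorem exists_pt (a : ℂ) : ∃ P : APt f, P.1.1 = a := by
  obtain ⟨b, hb⟩ := IsAlgClosed.exists_pow_nat_eq (f.eval a) (n := 2) (by norm_num)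
  exact ⟨⟨(a, b), hb⟩, rfl⟩

theorem infinite_pts (f : ℂ[X]) : Infinite (Pts f) := by
  have h1 : ∀ a : ℂ, ∃ P : APt f, P.1.1 = a := exists_pt
  choose P hP using h1
  exact Infinite.of_injective (fun a => (some (P a) : Pts f)) (by
    intro a b h
    have h2 := Option.some_injective _ h
    rw [← hP a, ← hP b, h2])

theorem exists_disjoint {α : Type} [Infinite α] (m : ℕ) :
    ∃ S S' : Finset α, S.card = m ∧ S'.card = m ∧ Disjoint S S' := by
  classical
  obtain ⟨U, hU⟩ := Infinite.exists_subset_card_eq α (m + m)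
  obtain ⟨S, hS, hSc⟩ := Finset.exists_subset_card_eq (s := U) (n := m) (by omega)
  refine ⟨S, U \ S, hSc, ?_, Finset.disjoint_sdiff⟩
  rw [Finset.card_sdiff_of_subset hS, hU, hSc]
  omega

theorem emb_smul (c : ℂ) (p : ℂ[X]) : (emb (c • p) : KK f) = algebraMap ℂ (KK f) c * emb p := by
  rw [Polynomial.smul_eq_C_mul, emb_mul, emb_C]

section fld

variable [NonSq f]

/-- rational functions of `x` as elements of the function field -/
def rat (r : RatFunc ℂ) : KK f := algebraMap (RatFunc ℂ) (KK f) r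

theorem rat_mul (r s : RatFunc ℂ) : (rat (r * s) : KK f) = rat r * rat s := map_mul _ _ _

theorem rat_ne {r : RatFunc ℂ} (hr : r ≠ 0) : (rat r : KK f) ≠ 0 := by
  intro h
  apply hr
  apply QuadraticAlgebra.algebraMap_injective (a := algebraMap ℂ[X] (RatFunc ℂ) f) (b := 0)
  rw [map_zero]
  exact h

/-- A rational function of `x` without poles at finite distance is a polynomial. -/
theorem poly_of_nonneg (hf : f ≠ 0) {r : RatFunc ℂ} (hr : r ≠ 0)
    (h : ∀ P : APt f, 0 ≤ ordAt Λ hf (some P) (rat r)) :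
    ∃ p : ℂ[X], r = algebraMap ℂ[X] (RatFunc ℂ) p := by
  have hd0 : r.denom ≠ 0 := r.denom_ne_zero
  have hn0 : r.num ≠ 0 := RatFunc.num_ne_zero hr
  have hq : r.denom.natDegree = 0 := by
    by_contra hn
    obtain ⟨a, ha⟩ := IsAlgClosed.exists_root r.denom (by
      intro h0
      apply hn
      exact Polynomial.natDegree_eq_zero_iff_degree_le_zero.2 (le_of_eq h0))
    obtain ⟨P, hP⟩ := exists_pt (f := f) a
    have h1 : (rat r : KK f) * emb r.denom = emb r.num := by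
      have h2 : r * algebraMap ℂ[X] (RatFunc ℂ) r.denom = algebraMap ℂ[X] (RatFunc ℂ) r.num := by
        have h3 : algebraMap ℂ[X] (RatFunc ℂ) r.denom ≠ 0 := by
          intro h
          exact hd0 (RatFunc.algebraMap_injective ℂ (by rw [h, map_zero]))
        have h4 := RatFunc.num_div_denom r
        rw [div_eq_iff h3] at h4
        exact h4.symm
      unfold rat emb
      rw [← map_mul, h2]
    have h2 := congrArg (ordAt Λ hf (some P)) h1
    rw [ordAt_mul hf _ (rat_ne hr) (emb_ne hd0)] at h2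
    have h3 := ordAt_emb_pos (Λ := Λ) hf hd0 P (by rw [hP]; exact ha)
    have h4 : r.num.eval P.1.1 ≠ 0 := by
      rw [hP]
      intro h5
      obtain ⟨s, t, hst⟩ := RatFunc.isCoprime_num_denom r
      have h6 := congrArg (eval a) hst
      rw [eval_add, eval_mul, eval_mul, h5, show eval a r.denom = 0 from ha, eval_one] at h6
      simp at h6
    rw [ordAt_emb_zero hf P h4] at h2
    have := h P
    linarith
  have h1 : r.denom = 1 := by
    have h2 := RatFunc.monic_denom r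
    exact h2.natDegree_eq_zero.1 hq
  refine ⟨r.num, ?_⟩
  have h4 := RatFunc.num_div_denom r
  rw [h1, map_one, div_one] at h4
  exact h4.symm

theorem ordAt_two (hf : f ≠ 0) (P : Pts f) {z : KK f} (hz : z ≠ 0) :
    ordAt Λ hf P (algebraMap ℂ (KK f) 2 * z) = ordAt Λ hf P z := by
  rw [ordAt_mul hf P ((_root_.map_ne_zero _).2 two_ne_zero) hz, ordAt_const, zero_add]

/-- The functions without poles at finite distance. -/
theorem aff_of_nonneg (G : Good f) {z : KK f} (hz : z ≠ 0)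
    (h : ∀ P : APt f, 0 ≤ ordAt Λ G.ne (some P) z) : ∃ u v : ℂ[X], z = aff u v := by
  have hs : ∀ P : APt f, 0 ≤ ordAt Λ G.ne (some P) (star z) := by
    intro P
    rw [← ordAt_tau G]
    exact h _
  have h1 : ∃ u : ℂ[X], z.re = algebraMap ℂ[X] (RatFunc ℂ) u := by
    by_cases h0 : z.re = 0
    · exact ⟨0, by rw [h0, map_zero]⟩
    apply poly_of_nonneg (Λ := Λ) G.ne h0
    intro P
    have e : z + star z = algebraMap ℂ (KK f) 2 * rat z.re := by
      apply QuadraticAlgebra.ext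
      · rw [QuadraticAlgebra.re_add, QuadraticAlgebra.re_star, zero_mul, add_zero,
          QuadraticAlgebra.re_mul]
        have e1 : (algebraMap ℂ (KK f) 2).re = algebraMap ℂ (RatFunc ℂ) 2 := rfl
        have e2 : (algebraMap ℂ (KK f) 2).im = 0 := rfl
        have e3 : (rat z.re : KK f).re = z.re := rfl
        rw [e1, e2, e3, map_ofNat]
        ring
      · rw [QuadraticAlgebra.im_add, QuadraticAlgebra.im_star, QuadraticAlgebra.im_mul]
        have e2 : (algebraMap ℂ (KK f) 2).im = 0 := rfl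
        have e3 : (rat z.re : KK f).im = 0 := rfl
        rw [e2, e3]
        ring
    have hne : z + star z ≠ 0 := by
      rw [e]
      exact mul_ne_zero ((_root_.map_ne_zero _).2 two_ne_zero) (rat_ne h0)
    have h2 := ordAt_add (Λ := Λ) G.ne (some P) hne
    rw [e, ordAt_two G.ne _ (rat_ne h0)] at h2
    exact le_trans (le_min (h P) (hs P)) h2
  have h2 : ∃ v : ℂ[X], z.im = algebraMap ℂ[X] (RatFunc ℂ) v := by
    by_cases h0 : z.im = 0
    · exact ⟨0, by rw [h0, map_zero]⟩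
    -- `(v y)² = v² f` is a polynomial
    have h3 : ∀ P : APt f, 0 ≤ ordAt Λ G.ne (some P) (rat z.im * yy) := by
      intro P
      have e : z + (- star z) = algebraMap ℂ (KK f) 2 * (rat z.im * yy) := by
        apply QuadraticAlgebra.ext
        · rw [QuadraticAlgebra.re_add, QuadraticAlgebra.re_neg, QuadraticAlgebra.re_star, zero_mul,
            add_zero, QuadraticAlgebra.re_mul, QuadraticAlgebra.re_mul, QuadraticAlgebra.im_mul]
          have e1 : (algebraMap ℂ (KK f) 2).re = algebraMap ℂ (RatFunc ℂ) 2 := rfl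
          have e2 : (algebraMap ℂ (KK f) 2).im = 0 := rfl
          have e3 : (rat z.im : KK f).re = z.im := rfl
          have e4 : (rat z.im : KK f).im = 0 := rfl
          have e5 : (yy : KK f).re = 0 := rfl
          rw [e2, e4, e5]
          ring
        · rw [QuadraticAlgebra.im_add, QuadraticAlgebra.im_neg, QuadraticAlgebra.im_star,
            QuadraticAlgebra.im_mul, QuadraticAlgebra.im_mul, QuadraticAlgebra.re_mul]
          have e1 : (algebraMap ℂ (KK f) 2).re = algebraMap ℂ (RatFunc ℂ) 2 := rfl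
          have e2 : (algebraMap ℂ (KK f) 2).im = 0 := rfl
          have e3 : (rat z.im : KK f).re = z.im := rfl
          have e4 : (rat z.im : KK f).im = 0 := rfl
          have e5 : (yy : KK f).re = 0 := rfl
          have e6 : (yy : KK f).im = 1 := rfl
          rw [e1, e2, e3, e4, e5, e6, map_ofNat]
          ring
      have hry : (rat z.im : KK f) * yy ≠ 0 := mul_ne_zero (rat_ne h0) yy_ne
      have hne : z + (-star z) ≠ 0 := by
        rw [e]
        exact mul_ne_zero ((_root_.map_ne_zero _).2 two_ne_zero) hry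
      have h2 := ordAt_add (Λ := Λ) G.ne (some P) hne
      rw [e, ordAt_two G.ne _ hry, ordAt_neg] at h2
      exact le_trans (le_min (h P) (hs P)) h2
    have hf0 : algebraMap ℂ[X] (RatFunc ℂ) f ≠ 0 := by
      intro h1
      exact G.ne (RatFunc.algebraMap_injective ℂ (by rw [h1, map_zero]))
    obtain ⟨t, ht⟩ := poly_of_nonneg (Λ := Λ) (r := z.im * z.im * algebraMap ℂ[X] (RatFunc ℂ) f)
      G.ne (mul_ne_zero (mul_ne_zero h0 h0) hf0) (by
        intro P
        have e : (rat (z.im * z.im * algebraMap ℂ[X] (RatFunc ℂ) f) : KK f) =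
            (rat z.im * yy) * (rat z.im * yy) := by
          rw [rat_mul, rat_mul]
          have : (rat (algebraMap ℂ[X] (RatFunc ℂ) f) : KK f) = yy * yy := by
            rw [yy_sq]
            rfl
          rw [this]
          ring
        have hry : (rat z.im : KK f) * yy ≠ 0 := mul_ne_zero (rat_ne h0) yy_ne
        rw [e, ordAt_mul G.ne _ hry hry]
        exact add_nonneg (h3 P) (h3 P))
    -- descent
    have hd0 : z.im.denom ≠ 0 := z.im.denom_ne_zero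
    have hd1 : algebraMap ℂ[X] (RatFunc ℂ) z.im.denom ≠ 0 := by
      intro h
      exact hd0 (RatFunc.algebraMap_injective ℂ (by rw [h, map_zero]))
    have h4 := RatFunc.num_div_denom z.im
    have h5 : z.im.num * z.im.num * f = t * (z.im.denom * z.im.denom) := by
      apply RatFunc.algebraMap_injective ℂ
      rw [map_mul, map_mul, map_mul, map_mul, ← ht]
      rw [div_eq_iff hd1] at h4
      rw [h4]
      ring
    have h6 : z.im.denom * z.im.denom ∣ f := by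
      have h7 : IsCoprime (z.im.denom * z.im.denom) (z.im.num * z.im.num) := by
        have := (RatFunc.isCoprime_num_denom z.im).symm
        exact (this.mul_left this).mul_right (this.mul_left this)
      exact h7.dvd_of_dvd_mul_left ⟨t, by rw [h5]; ring⟩
    have h7 := G.sqf _ h6
    have h8 : z.im.denom = 1 := (RatFunc.monic_denom z.im).isUnit_iff.1 h7
    refine ⟨z.im.num, ?_⟩
    rw [h8, map_one, div_one] at h4
    exact h4.symm
  obtain ⟨u, hu⟩ := h1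
  obtain ⟨v, hv⟩ := h2
  refine ⟨u, v, ?_⟩
  apply QuadraticAlgebra.ext
  · rw [aff_re, hu]
  · rw [aff_im, hv]

/-- order at infinity -/
theorem ordAt_inf_aff (G : Good f) {u v : ℂ[X]} (hu : u ≠ 0) (hv : v ≠ 0) :
    ordAt Λ G.ne none (aff u v) =
      min (-2 * (u.natDegree : ℤ)) (-2 * (v.natDegree : ℤ) - f.natDegree) := by
  have hu' : (aff u v : KK f).re ≠ 0 := by
    rw [aff_re]
    intro h
    exact hu (RatFunc.algebraMap_injective ℂ (by rw [h, map_zero]))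
  have hv' : (aff u v : KK f).im ≠ 0 := by
    rw [aff_im]
    intro h
    exact hv (RatFunc.algebraMap_injective ℂ (by rw [h, map_zero]))
  unfold ordAt
  rw [ram_min _ G.ne _ _ hu' hv', aff_re, aff_im, Par.psi_algebraMap, Par.psi_algebraMap,
    parAt_none, ord_inf u hu, ord_inf v hv, ord_eta_inf G]
  · rfl
  · intro p hp
    rw [parAt_none, ord_inf p hp]
    exact Even.mul_right (by decide) _
  · rw [ord_eta_inf G]
    exact ((Int.odd_coe_nat _).2 G.odd).neg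

theorem ordAt_inf_yy (G : Good f) {v : ℂ[X]} (hv : v ≠ 0) :
    ordAt Λ G.ne none (emb v * yy : KK f) = -2 * (v.natDegree : ℤ) - f.natDegree := by
  rw [ordAt_mul G.ne _ (emb_ne hv) yy_ne, ordAt_emb_none G.ne hv]
  unfold ordAt
  rw [phi_yy, ord_eta_inf G]
  rfl

theorem ordAt_inf_iff (G : Good f) {u v : ℂ[X]} (h : (aff u v : KK f) ≠ 0) (m : ℤ) :
    0 ≤ ordAt Λ G.ne none (aff u v) + m ↔
      (u ≠ 0 → 2 * (u.natDegree : ℤ) ≤ m) ∧ (v ≠ 0 → 2 * (v.natDegree : ℤ) + f.natDegree ≤ m) := by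
  by_cases hu : u = 0
  · have hv : v ≠ 0 := by
      rintro rfl
      apply h
      rw [hu, aff, emb_zero]
      ring
    rw [hu, aff, emb_zero, zero_add, ordAt_inf_yy G hv]
    constructor
    · intro h1
      exact ⟨fun h2 => absurd rfl h2, fun _ => by linarith⟩
    · intro h1
      linarith [h1.2 hv]
  by_cases hv : v = 0
  · rw [hv, aff, emb_zero, zero_mul, add_zero, ordAt_emb_none G.ne hu]
    constructor
    · intro h1
      exact ⟨fun _ => by linarith, fun h2 => absurd rfl h2⟩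
    · intro h1
      linarith [h1.1 hu]
  rw [ordAt_inf_aff G hu hv]
  constructor
  · intro h1
    have h2 := min_le_left (-2 * (u.natDegree : ℤ)) (-2 * (v.natDegree : ℤ) - f.natDegree)
    have h3 := min_le_right (-2 * (u.natDegree : ℤ)) (-2 * (v.natDegree : ℤ) - f.natDegree)
    exact ⟨fun _ => by linarith, fun _ => by linarith⟩
  · intro h1
    have h2 := h1.1 hu
    have h3 := h1.2 hv
    rcases min_choice (-2 * (u.natDegree : ℤ)) (-2 * (v.natDegree : ℤ) - f.natDegree) with h4 | h4 <;>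
      rw [h4] <;> linarith

/-- the parametrisation of `L(2 k ∞)` -/
def parL (f : ℂ[X]) (m n : ℕ) : (degreeLT ℂ m × degreeLT ℂ n) →ₗ[ℂ] KK f where
  toFun p := aff p.1 p.2
  map_add' p q := by
    simp only [aff, Prod.fst_add, Prod.snd_add, Submodule.coe_add, emb_add]
    ring
  map_smul' c p := by
    simp only [aff, Prod.smul_fst, Prod.smul_snd, SetLike.val_smul, RingHom.id_apply, emb_smul,
      Algebra.smul_def (A := KK f)]
    ring

theorem parL_inj (m n : ℕ) : Function.Injective (parL f m n) := by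
  intro p q h
  have h1 : (aff (p.1 : ℂ[X]) p.2 : KK f) = aff q.1 q.2 := h
  have h2 := congrArg QuadraticAlgebra.re h1
  have h3 := congrArg QuadraticAlgebra.im h1
  rw [aff_re, aff_re] at h2
  rw [aff_im, aff_im] at h3
  apply Prod.ext
  · exact Subtype.ext (RatFunc.algebraMap_injective ℂ h2)
  · exact Subtype.ext (RatFunc.algebraMap_injective ℂ h3)

theorem finrank_degreeLT (n : ℕ) : finrank ℂ (degreeLT ℂ n) = n := by
  rw [(degreeLTEquiv ℂ n).finrank_eq]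
  simp

theorem range_parL (G : Good f) {g : ℕ} (hg : f.natDegree = 2 * g + 1) {k : ℕ} (hk : g ≤ k) :
    LinearMap.range (parL f (k + 1) (k - g)) =
      (cOrd Λ G).L (Finsupp.single (none : Pts f) (2 * (k : ℤ))) := by
  have hdeg : ∀ {p : ℂ[X]} {n : ℕ}, p ∈ degreeLT ℂ n ↔ (p ≠ 0 → p.natDegree < n) := by
    intro p n
    rw [mem_degreeLT]
    constructor
    · intro h hp
      exact (natDegree_lt_iff_degree_lt hp).2 h
    · intro h
      by_cases hp : p = 0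
      · rw [hp, degree_zero]
        exact WithBot.bot_lt_coe _
      · exact (natDegree_lt_iff_degree_lt hp).1 (h hp)
  apply le_antisymm
  · rintro _ ⟨⟨⟨u, hu⟩, ⟨v, hv⟩⟩, rfl⟩
    intro h0 P
    rw [hdeg] at hu hv
    have h0' : (aff u v : KK f) ≠ 0 := h0
    rcases P with _ | P
    · rw [Finsupp.single_eq_same]
      show 0 ≤ ordAt Λ G.ne none (aff u v) + 2 * (k : ℤ)
      rw [ordAt_inf_iff G h0', hg]
      constructor
      · intro h
        have := hu h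
        omega
      · intro h
        have := hv h
        omega
    · rw [Finsupp.single_eq_of_ne (by simp), add_zero]
      exact ordAt_aff_nonneg G.ne P h0'
  · intro z hz
    by_cases h0 : z = 0
    · rw [h0]
      exact zero_mem _
    have h1 := hz h0
    obtain ⟨u, v, rfl⟩ := aff_of_nonneg (Λ := Λ) G h0 (by
      intro P
      have h2 := h1 (some P)
      rw [Finsupp.single_eq_of_ne (by simp), add_zero] at h2
      exact h2)
    have h2 := h1 none
    rw [Finsupp.single_eq_same] at h2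
    have h3 : 0 ≤ ordAt Λ G.ne none (aff u v) + 2 * (k : ℤ) := h2
    rw [ordAt_inf_iff G h0, hg] at h3
    refine ⟨⟨⟨u, ?_⟩, ⟨v, ?_⟩⟩, rfl⟩
    · rw [hdeg]
      intro h
      have := h3.1 h
      omega
    · rw [hdeg]
      intro h
      have := h3.2 h
      push_cast at this
      omega

theorem finrank_parL (G : Good f) {g : ℕ} (hg : f.natDegree = 2 * g + 1) {k : ℕ} (hk : g ≤ k) :
    (finrank ℂ ((cOrd Λ G).L (Finsupp.single (none : Pts f) (2 * (k : ℤ)))) : ℤ) =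
      2 * k + 1 - g := by
  rw [← range_parL G hg hk, LinearMap.finrank_range_of_inj (parL_inj _ _), finrank_prod,
    finrank_degreeLT, finrank_degreeLT]
  omega

/-- The hyperelliptic curve `y² = f(x)` of genus `g`. -/
def curve (Λ : LF F) (G : Good f) {g : ℕ} (hg : f.natDegree = 2 * g + 1) : Curve (KK f) where
  toCurveOrd := cOrd Λ G
  genus := g
  riemann_roch D hD := by
    apply CurveOrd.rr_of (cOrd_res Λ G) (inf := (none : Pts f)) (x := emb X) (emb_ne X_ne_zero)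
    · show ordAt Λ G.ne none (emb X) = -2
      rw [ordAt_emb_none G.ne X_ne_zero, natDegree_X]
      norm_num
    · intro P hP
      rcases P with _ | P
      · exact absurd rfl hP
      · exact ordAt_emb_nonneg G.ne X_ne_zero P
    · intro P hP
      rcases P with _ | P
      · exact absurd rfl hP
      · refine ⟨emb (X - C P.1.1), emb_ne (X_sub_C_ne_zero _), ?_, ?_, ?_⟩
        · show 1 ≤ ordAt Λ G.ne (some P) (emb (X - C P.1.1))
          rw [ordAt_X_sub_C_self]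
          exact_mod_cast ram_pos P
        · intro Q hQ
          rcases Q with _ | Q
          · exact absurd rfl hQ
          · exact ordAt_emb_nonneg G.ne (X_sub_C_ne_zero _) Q
        · show Even (ordAt Λ G.ne none (emb (X - C P.1.1)))
          rw [ordAt_emb_none G.ne (X_sub_C_ne_zero _)]
          exact Even.mul_right (by decide) _
    · refine ⟨g, ?_⟩
      intro k hk
      obtain ⟨n, rfl⟩ : ∃ n : ℕ, k = n := ⟨k.toNat, (Int.toNat_of_nonneg (by omega)).symm⟩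
      exact finrank_parL G hg (by exact_mod_cast hk)
    · exact hD

end fld

/-- the polynomial `x^(2g+1) - 1` -/
def fg (g : ℕ) : ℂ[X] := X ^ (2 * g + 1) - 1

theorem natDegree_fg (g : ℕ) : (fg g).natDegree = 2 * g + 1 := by
  unfold fg
  exact natDegree_X_pow_sub_C (r := (1 : ℂ))

theorem separable_fg (g : ℕ) : (fg g).Separable := by
  unfold fg
  have := separable_X_pow_sub_C (n := 2 * g + 1) (1 : ℂ) (by
    exact_mod_cast Nat.succ_ne_zero (2 * g)) one_ne_zero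
  simpa using this

theorem good_fg (g : ℕ) : Good (fg g) where
  ne := (separable_fg g).ne_zero
  odd := by
    rw [natDegree_fg]
    exact ⟨g, rfl⟩
  simple := by
    intro a ha
    obtain ⟨q, hq⟩ := dvd_iff_isRoot.2 ha
    refine ⟨q, hq, ?_⟩
    intro h0
    obtain ⟨r, hr⟩ := dvd_iff_isRoot.2 h0
    have h1 : (X - C a) * (X - C a) ∣ fg g := ⟨r, by rw [mul_assoc, ← hr, ← hq]⟩
    have h2 := (separable_fg g).squarefree _ h1
    exact not_isUnit_X_sub_C a h2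
  sqf := (separable_fg g).squarefree

/-- Existence of the data `(C, S, S')` for every `t`. -/
theorem exists_datum (t : ℕ) (ht : 0 < t) :
    ∃ (K : Type) (_ : Field K) (_ : Algebra ℂ K) (T : Datum K), T.t = t := by
  obtain ⟨F, _, _, ⟨Λ⟩⟩ := exists_LF
  have G := good_fg (9 * t + 1)
  haveI : NonSq (fg (9 * t + 1)) := G.nonSq
  refine ⟨KK (fg (9 * t + 1)), inferInstance, inferInstance, ?_⟩
  haveI := infinite_pts (fg (9 * t + 1))
  obtain ⟨S, S', h1, h2, h3⟩ := exists_disjoint (α := Pts (fg (9 * t + 1))) (100 * t)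
  exact ⟨
    { X := curve Λ G (natDegree_fg _)
      t := t
      t_pos := ht
      genus_eq := rfl
      S := S
      S' := S'
      card_S := h1
      card_S' := h2
      disj := h3 }, rfl⟩

end

end Pool.Agent.YTD.Hyp


end

/- source: Pool.Agent.YTD.HypInv -/

section

/-!
A hyperelliptic curve with a fixed point free involution: `y² = x^(2g+1) + x`, `g` odd, with the
involution `(x, y) ↦ (1/x, -y/x^(g+1))`.
-/

namespace Pool.Agent.YTD.Hyp

open Polynomial Module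

noncomputable section

variable {F : Type} [Field F] [Algebra ℂ F] {Λ : LF F} {f : ℂ[X]}

theorem good_of_separable (h : f.Separable) (ho : Odd f.natDegree) : Good f where
  ne := h.ne_zero
  odd := ho
  simple := by
    intro a ha
    obtain ⟨q, hq⟩ := dvd_iff_isRoot.2 ha
    refine ⟨q, hq, ?_⟩
    intro h0
    obtain ⟨r, hr⟩ := dvd_iff_isRoot.2 h0
    have h1 : (X - C a) * (X - C a) ∣ f := ⟨r, by rw [mul_assoc, ← hr, ← hq]⟩
    have h2 := h.squarefree _ h1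
    exact not_isUnit_X_sub_C a h2
  sqf := h.squarefree

/-- the polynomial `x^(2g+1) + x` -/
def fh (g : ℕ) : ℂ[X] := X ^ (2 * g + 1) + X

theorem natDegree_fh {g : ℕ} (hg : 0 < g) : (fh g).natDegree = 2 * g + 1 := by
  unfold fh
  rw [natDegree_add_eq_left_of_natDegree_lt, natDegree_X_pow]
  rw [natDegree_X_pow, natDegree_X]
  omega

theorem separable_fh {g : ℕ} (hg : 0 < g) : (fh g).Separable := by
  obtain ⟨n, rfl⟩ : ∃ n, g = n + 1 := ⟨g - 1, by omega⟩
  have hne : (2 * ((n : ℂ) + 1)) ≠ 0 := by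
    have : ((n : ℂ) + 1) ≠ 0 := by exact_mod_cast Nat.succ_ne_zero n
    exact mul_ne_zero two_ne_zero this
  have hC : C ((2 * ((n : ℂ) + 1))⁻¹) * (2 * ((n : ℂ[X]) + 1)) = 1 := by
    have e : (2 * ((n : ℂ[X]) + 1)) = C (2 * ((n : ℂ) + 1)) := by
      rw [C_mul, C_add, C_1, map_natCast C, map_ofNat C]
    rw [e, ← C_mul, inv_mul_cancel₀ hne, C_1]
  have hd : derivative (fh (n + 1)) = (2 * (n : ℂ[X]) + 3) * X ^ (2 * n + 2) + 1 := by
    unfold fh
    rw [derivative_add, derivative_X, derivative_X_pow]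
    have e : 2 * (n + 1) + 1 - 1 = 2 * n + 2 := by omega
    rw [e]
    congr 2
    rw [Nat.cast_add, Nat.cast_mul, Nat.cast_add, Nat.cast_one, Nat.cast_ofNat, C_add, C_mul,
      C_add, C_1, map_natCast C, map_ofNat C]
    ring
  rw [separable_def, hd]
  refine ⟨-(C ((2 * ((n : ℂ) + 1))⁻¹) * (2 * (n : ℂ[X]) + 3) ^ 2 * X ^ (2 * n + 1)),
    1 + C ((2 * ((n : ℂ) + 1))⁻¹) * (2 * (n : ℂ[X]) + 3) * X ^ (2 * n + 2), ?_⟩
  unfold fh
  have e : (X : ℂ[X]) ^ (2 * (n + 1) + 1) = X ^ (2 * n + 1) * X ^ 2 := by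
    rw [← pow_add]
    congr 1
  have e2 : (X : ℂ[X]) ^ (2 * n + 2) = X ^ (2 * n + 1) * X := by
    rw [← pow_succ]
  rw [e, e2]
  linear_combination (-(2 * (n : ℂ[X]) + 3) * X ^ (2 * n + 1) * X) * hC

theorem good_fh {g : ℕ} (hg : 0 < g) : Good (fh g) :=
  good_of_separable (separable_fh hg) (by rw [natDegree_fh hg]; exact ⟨g, rfl⟩)

section ext

theorem emb_eq_aeval (p : ℂ[X]) : (emb p : KK f) = aeval (emb X : KK f) p := by
  induction p using Polynomial.induction_on' with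
  | add p q hp hq => rw [emb_add, hp, hq, map_add]
  | monomial n a =>
    rw [← C_mul_X_pow_eq_monomial, emb_mul, emb_C, map_mul, aeval_C, map_pow, aeval_X]
    congr 1
    unfold emb
    rw [map_pow, map_pow]

theorem algHom_emb {E : Type} [Field E] [Algebra ℂ E] (φ : KK f →ₐ[ℂ] E) (p : ℂ[X]) :
    φ (emb p) = aeval (φ (emb X)) p := by
  rw [emb_eq_aeval, ← aeval_algHom_apply]

variable [NonSq f]

theorem algHom_ne {E : Type} [Field E] [Algebra ℂ E] (φ : KK f →ₐ[ℂ] E) {z : KK f} (hz : z ≠ 0) :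
    φ z ≠ 0 := by
  intro h
  have h1 : φ z * φ z⁻¹ = 1 := by
    rw [← map_mul, mul_inv_cancel₀ hz, map_one]
  rw [h, zero_mul] at h1
  exact zero_ne_one h1

theorem algHom_ext' {E : Type} [Field E] [Algebra ℂ E] {φ ψ : KK f →ₐ[ℂ] E}
    (hx : φ (emb X) = ψ (emb X)) (hy : φ yy = ψ yy) : φ = ψ := by
  apply AlgHom.ext
  intro z
  obtain ⟨u, v, q, hq, h⟩ := exists_aff z
  have hp : ∀ p : ℂ[X], φ (emb p) = ψ (emb p) := by
    intro p
    exact (algHom_emb φ p).trans (by rw [hx]; exact (algHom_emb ψ p).symm)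
  have h1 := congrArg φ h
  have h2 := congrArg ψ h
  rw [map_mul, aff, map_add, map_mul, hp, hp, hp, hy] at h1
  rw [map_mul, aff, map_add, map_mul, ← h1] at h2
  exact (mul_right_cancel₀ (algHom_ne ψ (emb_ne hq)) h2).symm

end ext

section val

variable [NonSq f]

/-- valuations -/
structure IsVal (w : KK f → ℤ) : Prop where
  mul : ∀ {z z' : KK f}, z ≠ 0 → z' ≠ 0 → w (z * z') = w z + w z'
  add : ∀ {z z' : KK f}, z + z' ≠ 0 → min (w z) (w z') ≤ w (z + z')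
  const : ∀ c : ℂ, w (algebraMap ℂ (KK f) c) = 0

theorem isVal_ordAt (hf : f ≠ 0) (P : Pts f) : IsVal (ordAt Λ hf P) where
  mul hz hz' := ordAt_mul hf P hz hz'
  add h := ordAt_add hf P h
  const c := ordAt_const hf P c

theorem IsVal.comp {w : KK f → ℤ} (hw : IsVal w) (φ : KK f →ₐ[ℂ] KK f) :
    IsVal (fun z => w (φ z)) where
  mul hz hz' := by
    rw [map_mul, hw.mul (algHom_ne φ hz) (algHom_ne φ hz')]
  add h := by
    rw [map_add]
    apply hw.add
    rw [← map_add]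
    exact algHom_ne φ h
  const c := by
    rw [AlgHom.commutes, hw.const]

namespace IsVal

variable {w w' : KK f → ℤ}

theorem neg (hw : IsVal w) (z : KK f) : w (-z) = w z := by
  by_cases hz : z = 0
  · rw [hz, neg_zero]
  have h1 : -z = algebraMap ℂ (KK f) (-1) * z := by
    rw [map_neg, map_one]
    ring
  have h2 : algebraMap ℂ (KK f) (-1) ≠ 0 := by
    rw [map_neg, map_one]
    exact neg_ne_zero.2 one_ne_zero
  rw [h1, hw.mul h2 hz, hw.const, zero_add]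

theorem inv (hw : IsVal w) {z : KK f} (hz : z ≠ 0) : w z⁻¹ = - w z := by
  have h1 := hw.mul hz (inv_ne_zero hz)
  have h2 := hw.const 1
  rw [map_one] at h2
  rw [mul_inv_cancel₀ hz, h2] at h1
  linarith

theorem pos_add (hw : IsVal w) {z z' : KK f} (h : z = 0 ∨ 0 < w z) (h' : z' = 0 ∨ 0 < w z') :
    z + z' = 0 ∨ 0 < w (z + z') := by
  by_cases h0 : z + z' = 0
  · exact Or.inl h0
  right
  rcases h with rfl | h
  · rw [zero_add] at h0 ⊢
    rcases h' with h' | h'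
    · exact absurd h' h0
    · exact h'
  rcases h' with rfl | h'
  · rw [add_zero]
    exact h
  exact lt_of_lt_of_le (lt_min h h') (hw.add h0)

theorem pos_mul (hw : IsVal w) {z z' : KK f} (h : z = 0 ∨ 0 < w z) (h' : 0 ≤ w z') :
    z * z' = 0 ∨ 0 < w (z * z') := by
  by_cases h0 : z * z' = 0
  · exact Or.inl h0
  right
  have hz := left_ne_zero_of_mul h0
  have hz' := right_ne_zero_of_mul h0
  rw [hw.mul hz hz']
  rcases h with h | h
  · exact absurd h hz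
  · linarith

theorem const_add (hw : IsVal w) {c : ℂ} (hc : c ≠ 0) {z : KK f} (h : z = 0 ∨ 0 < w z) :
    w (algebraMap ℂ (KK f) c + z) = 0 := by
  rcases h with rfl | h
  · rw [add_zero, hw.const]
  have hc0 : algebraMap ℂ (KK f) c ≠ 0 := (_root_.map_ne_zero _).2 hc
  have h0 : algebraMap ℂ (KK f) c + z ≠ 0 := by
    intro h0
    have h1 : w (algebraMap ℂ (KK f) c) = w z := by
      rw [eq_neg_of_add_eq_zero_left h0, hw.neg]
    rw [hw.const] at h1
    linarith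
  have h1 := hw.add h0
  rw [hw.const, min_eq_left (le_of_lt h)] at h1
  have h2 := hw.add (z := algebraMap ℂ (KK f) c + z) (z' := -z)
    (by rw [add_neg_cancel_right]; exact hc0)
  rw [add_neg_cancel_right, hw.neg, hw.const] at h2
  rcases min_choice (w (algebraMap ℂ (KK f) c + z)) (w z) with h3 | h3 <;> rw [h3] at h2 <;> linarith

theorem eq_emb (hw : IsVal w) (hw' : IsVal w')
    (h : ∀ c : ℂ, w (emb (X - C c)) = w' (emb (X - C c))) :
    ∀ p : ℂ[X], p ≠ 0 → w (emb p) = w' (emb p) := by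
  apply poly_ind
  · intro c _
    rw [emb_C, hw.const, hw'.const]
  · exact h
  · intro p q hp hq h1 h2
    rw [emb_mul, hw.mul (emb_ne hp) (emb_ne hq), hw'.mul (emb_ne hp) (emb_ne hq), h1, h2]

theorem eq_of_aff (hw : IsVal w) (hw' : IsVal w')
    (hp : ∀ p : ℂ[X], p ≠ 0 → w (emb p) = w' (emb p))
    (ha : ∀ u v : ℂ[X], (aff u v : KK f) ≠ 0 → w (aff u v) = w' (aff u v)) :
    ∀ z : KK f, z ≠ 0 → w z = w' z := by
  intro z hz
  obtain ⟨u, v, q, hq, h⟩ := exists_aff z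
  have h1 : (aff u v : KK f) ≠ 0 := by
    rw [← h]
    exact mul_ne_zero hz (emb_ne hq)
  have h2 := ha u v h1
  rw [← h, hw.mul hz (emb_ne hq), hw'.mul hz (emb_ne hq), hp q hq] at h2
  linarith

theorem norm_ne {u v : ℂ[X]} (h : (aff u v : KK f) ≠ 0) : u * u - f * v * v ≠ 0 := by
  intro h0
  have h2 := aff_mul_star (f := f) u v
  rw [h0, emb_zero] at h2
  exact mul_ne_zero h (star_ne h) h2

theorem add_star (hw : IsVal w) (hw' : IsVal w')
    (hp : ∀ p : ℂ[X], p ≠ 0 → w (emb p) = w' (emb p)) {u v : ℂ[X]} (h : (aff u v : KK f) ≠ 0) :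
    w (aff u v) + w (star (aff u v)) = w' (aff u v) + w' (star (aff u v)) := by
  rw [← hw.mul h (star_ne h), ← hw'.mul h (star_ne h), aff_mul_star]
  exact hp _ (norm_ne h)

/-- Uniqueness of extensions at ramified points. -/
theorem uniq_ram (hw : IsVal w) (hw' : IsVal w')
    (h : ∀ c : ℂ, w (emb (X - C c)) = w' (emb (X - C c)))
    (hs : ∀ z, w (star z) = w z) (hs' : ∀ z, w' (star z) = w' z) :
    ∀ z : KK f, z ≠ 0 → w z = w' z := by
  have hp := hw.eq_emb hw' h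
  apply hw.eq_of_aff hw' hp
  intro u v h0
  have h1 := hw.add_star hw' hp h0
  rw [hs, hs'] at h1
  linarith

/-- value of an affine function not vanishing at `(a, b)` -/
theorem aff_zero (hw : IsVal w) {a b : ℂ} (hwp : ∀ p : ℂ[X], p ≠ 0 → p.eval a = 0 → 0 < w (emb p))
    (hwy : 0 ≤ w yy) (hwb : 0 < w (yy - algebraMap ℂ (KK f) b)) {u v : ℂ[X]}
    (h : u.eval a + v.eval a * b ≠ 0) : w (aff u v) = 0 := by
  have hq : ∀ p : ℂ[X], (emb (p - C (p.eval a)) : KK f) = 0 ∨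
      0 < w (emb (p - C (p.eval a))) := by
    intro p
    by_cases h0 : p - C (p.eval a) = 0
    · left
      rw [h0, emb_zero]
    · right
      apply hwp _ h0
      simp
  have e : (aff u v : KK f) = algebraMap ℂ (KK f) (u.eval a + v.eval a * b) +
      (emb (u - C (u.eval a)) + (emb (v - C (v.eval a)) * yy +
        (yy - algebraMap ℂ (KK f) b) * algebraMap ℂ (KK f) (v.eval a))) := by
    have e1 : ∀ p : ℂ[X], (emb (p - C (p.eval a)) : KK f) =
        emb p - algebraMap ℂ (KK f) (p.eval a) := by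
      intro p
      rw [← emb_C]
      unfold emb
      rw [map_sub, map_sub]
    rw [aff, e1, e1, map_add, map_mul]
    ring
  rw [e]
  apply hw.const_add h
  apply hw.pos_add (hq u)
  apply hw.pos_add (hw.pos_mul (hq v) hwy)
  exact hw.pos_mul (Or.inr hwb) (le_of_eq (hw.const _).symm)

/-- Uniqueness of extensions at unramified points. -/
theorem uniq_unram (hw : IsVal w) (hw' : IsVal w') {a b : ℂ} (hb : b ≠ 0)
    (h : ∀ c : ℂ, w (emb (X - C c)) = w' (emb (X - C c)))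
    (hwp : ∀ p : ℂ[X], p ≠ 0 → p.eval a = 0 → 0 < w' (emb p))
    (hwy : 0 ≤ w yy) (hwy' : 0 ≤ w' yy) (hwb : 0 < w (yy - algebraMap ℂ (KK f) b))
    (hwb' : 0 < w' (yy - algebraMap ℂ (KK f) b)) :
    ∀ z : KK f, z ≠ 0 → w z = w' z := by
  have hp := hw.eq_emb hw' h
  have hwp2 : ∀ p : ℂ[X], p ≠ 0 → p.eval a = 0 → 0 < w (emb p) := by
    intro p h1 h2
    rw [hp p h1]
    exact hwp p h1 h2
  apply hw.eq_of_aff hw' hp
  intro u v
  induction hn : u.natDegree + v.natDegree using Nat.strong_induction_on generalizing u v with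
  | _ n ih =>
    intro h0
    by_cases h1 : u.eval a + v.eval a * b = 0
    · by_cases h2 : u.eval a + (-v).eval a * b = 0
      · -- both vanish
        rw [eval_neg] at h2
        have hu : u.eval a = 0 := by
          have : 2 * u.eval a = 0 := by linear_combination h1 + h2
          exact (mul_eq_zero.1 this).resolve_left two_ne_zero
        have hv : v.eval a = 0 := by
          have : 2 * b * v.eval a = 0 := by linear_combination h1 - h2
          exact (mul_eq_zero.1 this).resolve_left (mul_ne_zero two_ne_zero hb)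
        obtain ⟨u', rfl⟩ := dvd_iff_isRoot.2 hu
        obtain ⟨v', rfl⟩ := dvd_iff_isRoot.2 hv
        have e : (aff ((X - C a) * u') ((X - C a) * v') : KK f) = emb (X - C a) * aff u' v' := by
          rw [aff, aff, emb_mul, emb_mul]
          ring
        rw [e] at h0 ⊢
        have h3 := right_ne_zero_of_mul h0
        have h4 : u'.natDegree + v'.natDegree < n := by
          rw [← hn]
          by_cases hu' : u' = 0
          · have hv' : v' ≠ 0 := by
              rintro rfl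
              apply h3
              rw [hu', aff, emb_zero]
              ring
            rw [hu', mul_zero, natDegree_mul (X_sub_C_ne_zero a) hv', natDegree_X_sub_C]
            omega
          · rw [natDegree_mul (X_sub_C_ne_zero a) hu', natDegree_X_sub_C]
            by_cases hv' : v' = 0
            · rw [hv', mul_zero]
              omega
            · rw [natDegree_mul (X_sub_C_ne_zero a) hv', natDegree_X_sub_C]
              omega
        rw [hw.mul (emb_ne (X_sub_C_ne_zero a)) h3, hw'.mul (emb_ne (X_sub_C_ne_zero a)) h3,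
          h a, ih _ h4 u' v' rfl h3]
      · have h3 := hw.add_star hw' hp h0
        rw [star_aff, hw.aff_zero hwp2 hwy hwb h2, hw'.aff_zero hwp hwy' hwb' h2] at h3
        linarith
    · rw [hw.aff_zero hwp2 hwy hwb h1, hw'.aff_zero hwp hwy' hwb' h1]

end IsVal

/-- `y - b` vanishes at `(a, b)`. -/
theorem ordAt_yy_sub (hf : f ≠ 0) (P : APt f) (hb : P.1.2 ≠ 0) :
    0 < ordAt Λ hf (some P) (yy - algebraMap ℂ (KK f) P.1.2) := by
  unfold ordAt
  rw [map_sub, phi_yy, AlgHom.commutes]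
  set Q := parAt Λ hf (some P) with hQ
  have h1 := two_ord_eta (Λ := Λ) hf (some P)
  have h2 : f.eval P.1.1 ≠ 0 := by
    rw [← P.2]
    exact pow_ne_zero 2 hb
  rw [ordAt_emb_zero hf P h2] at h1
  have h3 : Λ.ord Q.η = 0 := by
    rw [hQ]
    linarith
  have hlc : Λ.lc Q.η = P.1.2 := parAt_some_lc Λ hf P hb
  have hη : Q.η ≠ 0 := Q.η_ne hf
  have hone : (1 : F) ≠ 0 := one_ne_zero
  obtain ⟨c, hc⟩ := Λ.res hη hone (by rw [h3, LF.ord_one])
  have hs : c • (1 : F) = algebraMap ℂ F c := by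
    rw [Algebra.smul_def, mul_one]
  rw [hs, h3] at hc
  have hne : (yy - algebraMap ℂ (KK f) P.1.2 : KK f) ≠ 0 := by
    intro h
    have h5 := congrArg QuadraticAlgebra.im h
    have h6 : (1 : RatFunc ℂ) - 0 = 0 := h5
    rw [sub_zero] at h6
    exact one_ne_zero h6
  rcases hc with hc | hc
  · -- `η` constant: impossible
    exfalso
    have h4 : Q.η = algebraMap ℂ F c := sub_eq_zero.1 hc
    have h5 : Λ.lc Q.η = c := by rw [h4, Λ.lc_const]
    rw [hlc] at h5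
    apply phi_ne Q hne
    rw [map_sub, phi_yy, AlgHom.commutes, h5]
    exact hc
  · have hc0 : c ≠ 0 := by
      rintro rfl
      rw [map_zero, sub_zero, h3] at hc
      exact lt_irrefl _ hc
    have hcc : algebraMap ℂ F c ≠ 0 := (_root_.map_ne_zero _).2 hc0
    have h4 : Q.η - algebraMap ℂ F c ≠ 0 := by
      intro h4
      have h5 : Q.η = algebraMap ℂ F c := sub_eq_zero.1 h4
      have h6 : Λ.lc Q.η = c := by rw [h5, Λ.lc_const]
      rw [hlc] at h6
      apply phi_ne Q hne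
      rw [map_sub, phi_yy, AlgHom.commutes, h6]
      exact h4
    have h5 := Λ.lc_add hcc h4 (by rw [Λ.ord_const]; exact hc)
    rw [add_sub_cancel, hlc, Λ.lc_const] at h5
    rw [h5]
    exact hc

end val

end

end Pool.Agent.YTD.Hyp


end

/- source: Pool.Agent.YTD.UnstDim -/

section

/-!
Bigraded spaces of polynomials and their dimensions.
-/

namespace Pool.Agent.YTD

open Finset Module MvPolynomial

variable {K : Type} [Field K] [Algebra ℂ K]

/-- Polynomials whose monomials have degree `25qN+3j` in `x`, degree `25qN-3j` in `y` for some `j`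
with `|j| ≤ 5qN` and coefficient in `U j`. -/
noncomputable def bigr (q N : ℕ) (U : ℤ → Submodule ℂ K) : Submodule ℂ (MvPolynomial (Fin 4) K)
    where
  carrier := {f | ∀ e, f.coeff e ≠ 0 → ∃ j : ℤ, |j| ≤ 5 * q * N ∧
    (e 0 : ℤ) + e 1 = 25 * q * N + 3 * j ∧ (e 2 : ℤ) + e 3 = 25 * q * N - 3 * j ∧
    f.coeff e ∈ U j}
  zero_mem' := by
    intro e h
    simp at h
  add_mem' := by
    intro f g hf hg e h
    by_cases h1 : f.coeff e = 0
    · rw [coeff_add, h1, zero_add] at h ⊢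
      exact hg e h
    by_cases h2 : g.coeff e = 0
    · rw [coeff_add, h2, add_zero] at h ⊢
      exact hf e h
    obtain ⟨j, h3, h4, h5, h6⟩ := hf e h1
    obtain ⟨j', _, h4', _, h6'⟩ := hg e h2
    have hj : j' = j := by linarith
    subst hj
    exact ⟨j', h3, h4, h5, by rw [coeff_add]; exact add_mem h6 h6'⟩
  smul_mem' := by
    intro c f hf e h
    have h1 : f.coeff e ≠ 0 := by
      intro h1
      apply h
      rw [coeff_smul, h1, smul_zero]
    obtain ⟨j, h3, h4, h5, h6⟩ := hf e h1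
    exact ⟨j, h3, h4, h5, by rw [coeff_smul]; exact Submodule.smul_mem _ _ h6⟩

theorem mem_bigr {q N : ℕ} {U : ℤ → Submodule ℂ K} {f : MvPolynomial (Fin 4) K} :
    f ∈ bigr q N U ↔ ∀ e, f.coeff e ≠ 0 → ∃ j : ℤ, |j| ≤ 5 * q * N ∧
    (e 0 : ℤ) + e 1 = 25 * q * N + 3 * j ∧ (e 2 : ℤ) + e 3 = 25 * q * N - 3 * j ∧
    f.coeff e ∈ U j := Iff.rfl

theorem sec_eq_bigr (T : Datum K) (q : ℕ) (D₀ : T.X.Pt →₀ ℤ) (N : ℕ) :
    T.sec q D₀ N = bigr q N (T.V q D₀ N) := rfl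

/-- the set of indices `(j, a, b)`. -/
noncomputable def idx (q N : ℕ) : Finset ((_ : ℤ) × (ℕ × ℕ)) :=
  (Icc (-((5 * q * N : ℕ) : ℤ)) ((5 * q * N : ℕ) : ℤ)).sigma fun j =>
    range (AA q N j + 1) ×ˢ range (BB q N j + 1)

/-- the exponent of index `(j, a, b)`. -/
noncomputable def uexpo (q N : ℕ) (i : (_ : ℤ) × (ℕ × ℕ)) : Fin 4 →₀ ℕ :=
  Finsupp.equivFunOnFinite.symm ![i.2.1, AA q N i.1 - i.2.1, i.2.2, BB q N i.1 - i.2.2]

theorem uexpo_zero (q N : ℕ) (i : (_ : ℤ) × (ℕ × ℕ)) : uexpo q N i 0 = i.2.1 := rfl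
theorem uexpo_one (q N : ℕ) (i : (_ : ℤ) × (ℕ × ℕ)) : uexpo q N i 1 = AA q N i.1 - i.2.1 := rfl
theorem uexpo_two (q N : ℕ) (i : (_ : ℤ) × (ℕ × ℕ)) : uexpo q N i 2 = i.2.2 := rfl
theorem uexpo_three (q N : ℕ) (i : (_ : ℤ) × (ℕ × ℕ)) : uexpo q N i 3 = BB q N i.1 - i.2.2 := rfl

theorem mem_idx {q N : ℕ} {i : (_ : ℤ) × (ℕ × ℕ)} :
    i ∈ idx q N ↔ |i.1| ≤ 5 * q * N ∧ i.2.1 ≤ AA q N i.1 ∧ i.2.2 ≤ BB q N i.1 := by
  unfold idx
  rw [mem_sigma, mem_Icc, mem_product, mem_range, mem_range, abs_le]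
  push_cast
  constructor
  · rintro ⟨⟨h1, h2⟩, h3, h4⟩
    exact ⟨⟨h1, h2⟩, by omega, by omega⟩
  · rintro ⟨⟨h1, h2⟩, h3, h4⟩
    exact ⟨⟨h1, h2⟩, by omega, by omega⟩

theorem expo_x {q N : ℕ} {i : (_ : ℤ) × (ℕ × ℕ)} (h : i ∈ idx q N) :
    (uexpo q N i 0 : ℤ) + uexpo q N i 1 = 25 * q * N + 3 * i.1 := by
  obtain ⟨h1, h2, h3⟩ := mem_idx.1 h
  rw [uexpo_zero, uexpo_one, ← AA_cast h1]
  push_cast [Nat.cast_sub h2]
  ring

theorem expo_y {q N : ℕ} {i : (_ : ℤ) × (ℕ × ℕ)} (h : i ∈ idx q N) :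
    (uexpo q N i 2 : ℤ) + uexpo q N i 3 = 25 * q * N - 3 * i.1 := by
  obtain ⟨h1, h2, h3⟩ := mem_idx.1 h
  rw [uexpo_two, uexpo_three, ← BB_cast h1]
  push_cast [Nat.cast_sub h3]
  ring

theorem expo_inj {q N : ℕ} {i i' : (_ : ℤ) × (ℕ × ℕ)} (h : i ∈ idx q N) (h' : i' ∈ idx q N)
    (he : uexpo q N i = uexpo q N i') : i = i' := by
  have h1 := expo_x h
  have h2 := expo_x h'
  rw [he] at h1
  have hj : i.1 = i'.1 := by linarith
  have ha : i.2.1 = i'.2.1 := by rw [← uexpo_zero q N i, ← uexpo_zero q N i', he]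
  have hb : i.2.2 = i'.2.2 := by rw [← uexpo_two q N i, ← uexpo_two q N i', he]
  obtain ⟨j, a, b⟩ := i
  obtain ⟨j', a', b'⟩ := i'
  simp only at hj ha hb
  subst hj ha hb
  rfl

theorem exists_uexpo {q N : ℕ} {e : Fin 4 →₀ ℕ} {j : ℤ} (hj : |j| ≤ 5 * q * N)
    (h1 : (e 0 : ℤ) + e 1 = 25 * q * N + 3 * j) (h2 : (e 2 : ℤ) + e 3 = 25 * q * N - 3 * j) :
    (⟨j, (e 0, e 2)⟩ : (_ : ℤ) × (ℕ × ℕ)) ∈ idx q N ∧ uexpo q N ⟨j, (e 0, e 2)⟩ = e := by
  have hA := AA_cast hj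
  have hB := BB_cast hj
  rw [← hA] at h1
  rw [← hB] at h2
  constructor
  · rw [mem_idx]
    refine ⟨hj, ?_, ?_⟩
    · show e 0 ≤ AA q N j
      omega
    · show e 2 ≤ BB q N j
      omega
  · ext k
    fin_cases k
    · rfl
    · show AA q N j - e 0 = e 1
      omega
    · rfl
    · show BB q N j - e 2 = e 3
      omega

/-- coefficients as an isomorphism. -/
noncomputable def bigrEquiv (q N : ℕ) (U : ℤ → Submodule ℂ K) :
    bigr q N U ≃ₗ[ℂ] ((i : {i // i ∈ idx q N}) → U i.1.1) where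
  toFun f i := ⟨(f : MvPolynomial (Fin 4) K).coeff (uexpo q N i.1), by
    by_cases h : (f : MvPolynomial (Fin 4) K).coeff (uexpo q N i.1) = 0
    · rw [h]
      exact zero_mem _
    · obtain ⟨j, h1, h2, h3, h4⟩ := f.2 _ h
      have h5 := expo_x i.2
      have hj : j = i.1.1 := by linarith
      rw [← hj]
      exact h4⟩
  map_add' f g := by
    funext i
    apply Subtype.ext
    simp
  map_smul' c f := by
    funext i
    apply Subtype.ext
    simp
  invFun g := ⟨∑ i : {i // i ∈ idx q N}, monomial (uexpo q N i.1) ((g i : U i.1.1) : K), by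
    refine sum_mem fun i _ => ?_
    intro e he
    rw [coeff_monomial] at he ⊢
    by_cases h : uexpo q N i.1 = e
    · rw [if_pos h]
      subst h
      exact ⟨i.1.1, (mem_idx.1 i.2).1, expo_x i.2, expo_y i.2, (g i).2⟩
    · rw [if_neg h] at he
      exact (he rfl).elim⟩
  left_inv f := by
    apply Subtype.ext
    ext e
    show (∑ i : {i // i ∈ idx q N}, monomial (uexpo q N i.1)
      ((f : MvPolynomial (Fin 4) K).coeff (uexpo q N i.1))).coeff e = _
    rw [coeff_sum]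
    simp only [coeff_monomial]
    by_cases h : (f : MvPolynomial (Fin 4) K).coeff e = 0
    · rw [h]
      apply Finset.sum_eq_zero
      intro i _
      split_ifs with h1
      · rw [h1, h]
      · rfl
    · obtain ⟨j, h1, h2, h3, h4⟩ := f.2 e h
      obtain ⟨h5, h6⟩ := exists_uexpo h1 h2 h3
      rw [Finset.sum_eq_single (⟨⟨j, (e 0, e 2)⟩, h5⟩ : {i // i ∈ idx q N})]
      · rw [if_pos h6, h6]
      · intro i _ hi
        rw [if_neg]
        intro h7
        apply hi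
        apply Subtype.ext
        apply expo_inj i.2 h5
        rw [h6, h7]
      · intro h7
        exact (h7 (mem_univ _)).elim
  right_inv g := by
    funext i
    apply Subtype.ext
    show (∑ i' : {i // i ∈ idx q N}, monomial (uexpo q N i'.1)
      ((g i' : U i'.1.1) : K)).coeff (uexpo q N i.1) = g i
    rw [coeff_sum]
    simp only [coeff_monomial]
    rw [Finset.sum_eq_single i]
    · rw [if_pos rfl]
    · intro i' _ hi'
      rw [if_neg]
      intro h7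
      apply hi'
      apply Subtype.ext
      exact expo_inj i'.2 i.2 h7
    · intro h7
      exact (h7 (mem_univ _)).elim

theorem finite_bigr (q N : ℕ) (U : ℤ → Submodule ℂ K) (hU : ∀ j, FiniteDimensional ℂ (U j)) :
    FiniteDimensional ℂ (bigr q N U) := by
  have : ∀ i : {i // i ∈ idx q N}, FiniteDimensional ℂ (U i.1.1) := fun i => hU _
  exact Module.Finite.equiv (bigrEquiv q N U).symm

theorem finrank_bigr (q N : ℕ) (U : ℤ → Submodule ℂ K) (hU : ∀ j, FiniteDimensional ℂ (U j)) :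
    (finrank ℂ (bigr q N U) : ℝ) =
      ∑ j ∈ Icc (-((5 * q * N : ℕ) : ℤ)) ((5 * q * N : ℕ) : ℤ),
        (25 * (q : ℝ) * N + 3 * j + 1) * (25 * (q : ℝ) * N - 3 * j + 1) * finrank ℂ (U j) := by
  have : ∀ i : {i // i ∈ idx q N}, FiniteDimensional ℂ (U i.1.1) := fun i => hU _
  rw [LinearEquiv.finrank_eq (bigrEquiv q N U), Module.finrank_pi_fintype]
  rw [show (∑ i : {i // i ∈ idx q N}, finrank ℂ (U i.1.1)) =
    ∑ i ∈ idx q N, finrank ℂ (U i.1) from by
      rw [← Finset.sum_coe_sort (idx q N) (fun i => finrank ℂ (U i.1))]]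
  unfold idx
  rw [Finset.sum_sigma]
  push_cast
  apply Finset.sum_congr rfl
  intro j hj
  rw [mem_Icc] at hj
  have hj' : |j| ≤ 5 * q * N := by
    rw [abs_le]
    exact_mod_cast hj
  show (∑ _x ∈ range (AA q N j + 1) ×ˢ range (BB q N j + 1), ((finrank ℂ (U j) : ℕ) : ℝ)) = _
  rw [Finset.sum_const, nsmul_eq_mul, Finset.card_product, card_range, card_range]
  have h1 : ((AA q N j : ℕ) : ℝ) = 25 * q * N + 3 * j := by exact_mod_cast AA_cast hj'
  have h2 : ((BB q N j : ℕ) : ℝ) = 25 * q * N - 3 * j := by exact_mod_cast BB_cast hj'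
  push_cast
  rw [h1, h2]

end Pool.Agent.YTD


end

/- source: Pool.Agent.YTD.UnstFilt -/

section

/-!
The filtrations defined by the concave piecewise linear functions `min 0 (uN - |j|)`.
-/

namespace Pool.Agent.YTD

open Finset Module MvPolynomial

variable {K : Type} [Field K] [Algebra ℂ K]

theorem bigr_mul {q N N' : ℕ} {U U' U'' : ℤ → Submodule ℂ K}
    (H : ∀ j j' : ℤ, |j| ≤ 5 * q * N → |j'| ≤ 5 * q * N' → ∀ a ∈ U j, ∀ b ∈ U' j',
      a * b ∈ U'' (j + j')) {f g : MvPolynomial (Fin 4) K} (hf : f ∈ bigr q N U)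
    (hg : g ∈ bigr q N' U') : f * g ∈ bigr q (N + N') U'' := by
  intro e he
  rw [coeff_mul] at he ⊢
  obtain ⟨x, hx, hx0⟩ := Finset.exists_ne_zero_of_sum_ne_zero he
  rw [Finset.HasAntidiagonal.mem_antidiagonal] at hx
  obtain ⟨j, h1, h2, h3, h4⟩ := hf _ (left_ne_zero_of_mul hx0)
  obtain ⟨j', h1', h2', h3', h4'⟩ := hg _ (right_ne_zero_of_mul hx0)
  have ex : ∀ k, e k = x.1 k + x.2 k := fun k => by rw [← hx]; rfl
  refine ⟨j + j', ?_, ?_, ?_, ?_⟩
  · push_cast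
    calc |j + j'| ≤ |j| + |j'| := abs_add_le _ _
      _ ≤ _ := by linarith
  · rw [ex, ex]
    push_cast
    linarith
  · rw [ex, ex]
    push_cast
    linarith
  · refine sum_mem fun y hy => ?_
    rw [Finset.HasAntidiagonal.mem_antidiagonal] at hy
    by_cases hy0 : f.coeff y.1 * g.coeff y.2 = 0
    · rw [hy0]
      exact zero_mem _
    obtain ⟨i, g1, g2, g3, g4⟩ := hf _ (left_ne_zero_of_mul hy0)
    obtain ⟨i', g1', g2', g3', g4'⟩ := hg _ (right_ne_zero_of_mul hy0)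
    have ey : ∀ k, e k = y.1 k + y.2 k := fun k => by rw [← hy]; rfl
    have hi : i + i' = j + j' := by
      have e0 : (x.1 0 : ℤ) + x.2 0 = y.1 0 + y.2 0 := by
        have := (ex 0).symm.trans (ey 0)
        exact_mod_cast this
      have e1 : (x.1 1 : ℤ) + x.2 1 = y.1 1 + y.2 1 := by
        have := (ex 1).symm.trans (ey 1)
        exact_mod_cast this
      linarith
    rw [← hi]
    exact H _ _ g1 g1' _ g4 _ g4'

theorem bigr_mono {q N : ℕ} {U U' : ℤ → Submodule ℂ K} (H : ∀ j : ℤ, |j| ≤ 5 * q * N → U j ≤ U' j) :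
    bigr q N U ≤ bigr q N U' := by
  intro f hf e he
  obtain ⟨j, h1, h2, h3, h4⟩ := hf e he
  exact ⟨j, h1, h2, h3, H j h1 h4⟩

theorem bigr_eq_bot {q N : ℕ} {U : ℤ → Submodule ℂ K} (H : ∀ j : ℤ, |j| ≤ 5 * q * N → U j = ⊥) :
    bigr q N U = ⊥ := by
  rw [eq_bot_iff]
  intro f hf
  rw [Submodule.mem_bot]
  ext e
  rw [coeff_zero]
  by_contra he
  obtain ⟨j, h1, h2, h3, h4⟩ := hf e he
  rw [H j h1, Submodule.mem_bot] at h4
  exact he h4

theorem monomial_mem_bigr {q N : ℕ} {U : ℤ → Submodule ℂ K} {e : Fin 4 →₀ ℕ} {j : ℤ} {c : K}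
    (h1 : |j| ≤ 5 * q * N) (h2 : (e 0 : ℤ) + e 1 = 25 * q * N + 3 * j)
    (h3 : (e 2 : ℤ) + e 3 = 25 * q * N - 3 * j) (hc : c ∈ U j) :
    monomial e c ∈ bigr q N U := by
  intro e' he'
  rw [coeff_monomial] at he' ⊢
  by_cases h : e = e'
  · subst h
    rw [if_pos rfl]
    exact ⟨j, h1, h2, h3, hc⟩
  · rw [if_neg h] at he'
    exact (he' rfl).elim

/-! ### The divisors -/

namespace Datum

variable (T : Datum K)

/-- the reduced divisor `S`. -/
noncomputable def IS : T.X.Pt →₀ ℤ := ∑ y ∈ T.S, Finsupp.single y 1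

/-- the reduced divisor `S'`. -/
noncomputable def IS' : T.X.Pt →₀ ℤ := ∑ y ∈ T.S', Finsupp.single y 1

theorem IS_nonneg (P : T.X.Pt) : 0 ≤ T.IS P := by
  classical
  unfold IS
  rw [Finsupp.finsetSum_apply]
  refine Finset.sum_nonneg fun y _ => ?_
  rw [Finsupp.single_apply]
  split_ifs <;> norm_num

theorem IS'_nonneg (P : T.X.Pt) : 0 ≤ T.IS' P := by
  classical
  unfold IS'
  rw [Finsupp.finsetSum_apply]
  refine Finset.sum_nonneg fun y _ => ?_
  rw [Finsupp.single_apply]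
  split_ifs <;> norm_num

theorem dvs_eq (q : ℕ) (D₀ : T.X.Pt →₀ ℤ) (N : ℕ) (j : ℤ) :
    T.dvs q D₀ N j = N • D₀ - (max 0 (j - 4 * q * N)) • T.IS -
      (max 0 (-j - 4 * q * N)) • T.IS' := by
  unfold dvs IS IS'
  rw [Finset.smul_sum, Finset.smul_sum]
  simp only [Finsupp.smul_single, smul_eq_mul, mul_one]

theorem dvs_superadd (q : ℕ) (D₀ : T.X.Pt →₀ ℤ) (N N' : ℕ) (j j' : ℤ) (P : T.X.Pt) :
    (T.dvs q D₀ N j + T.dvs q D₀ N' j') P ≤ T.dvs q D₀ (N + N') (j + j') P := by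
  rw [dvs_eq, dvs_eq, dvs_eq]
  simp only [Finsupp.add_apply, Finsupp.sub_apply, Finsupp.smul_apply, nsmul_eq_mul, smul_eq_mul]
  push_cast
  have h1 := T.IS_nonneg P
  have h2 := T.IS'_nonneg P
  have h3 : max 0 (j + j' - 4 * (q : ℤ) * (N + N')) ≤
      max 0 (j - 4 * q * N) + max 0 (j' - 4 * q * N') := by
    have e : 4 * (q : ℤ) * (N + N') = 4 * q * N + 4 * q * N' := by ring
    rw [e]
    generalize 4 * (q : ℤ) * N = a
    generalize 4 * (q : ℤ) * N' = b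
    omega
  have h4 : max 0 (-(j + j') - 4 * (q : ℤ) * (N + N')) ≤
      max 0 (-j - 4 * q * N) + max 0 (-j' - 4 * q * N') := by
    have e : 4 * (q : ℤ) * (N + N') = 4 * q * N + 4 * q * N' := by ring
    rw [e]
    generalize 4 * (q : ℤ) * N = a
    generalize 4 * (q : ℤ) * N' = b
    omega
  nlinarith [mul_le_mul_of_nonneg_right h3 h1, mul_le_mul_of_nonneg_right h4 h2]

theorem V_mul {q : ℕ} {D₀ : T.X.Pt →₀ ℤ} {N N' : ℕ} {j j' : ℤ} {a b : K}
    (ha : a ∈ T.V q D₀ N j) (hb : b ∈ T.V q D₀ N' j') : a * b ∈ T.V q D₀ (N + N') (j + j') :=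
  T.X.L_mono (T.dvs_superadd q D₀ N N' j j') (T.X.mul_mem_L ha hb)

theorem exists_pt : Nonempty T.X.Pt := by
  have h := T.card_S
  have h1 : 0 < T.S.card := by rw [h]; have := T.t_pos; positivity
  obtain ⟨P, _⟩ := Finset.card_pos.1 h1
  exact ⟨P⟩

theorem finite_V (q : ℕ) (D₀ : T.X.Pt →₀ ℤ) (N : ℕ) (j : ℤ) :
    FiniteDimensional ℂ (T.V q D₀ N j) := by
  obtain ⟨P₀⟩ := T.exists_pt
  exact T.X.finite_L P₀ _

end Datum

/-! ### The filtration -/

variable (T : Datum K)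

/-- the coefficient spaces of the filtration. -/
noncomputable def UF (q u : ℕ) (D₀ : T.X.Pt →₀ ℤ) (N : ℕ) (l : ℤ) (j : ℤ) : Submodule ℂ K :=
  if l ≤ min 0 ((u : ℤ) * N - |j|) then T.V q D₀ N j else ⊥

theorem UF_pos {q u : ℕ} {D₀ : T.X.Pt →₀ ℤ} {N : ℕ} {l : ℤ} {j : ℤ}
    (h : l ≤ min 0 ((u : ℤ) * N - |j|)) : UF T q u D₀ N l j = T.V q D₀ N j := if_pos h

theorem UF_neg {q u : ℕ} {D₀ : T.X.Pt →₀ ℤ} {N : ℕ} {l : ℤ} {j : ℤ}
    (h : ¬ l ≤ min 0 ((u : ℤ) * N - |j|)) : UF T q u D₀ N l j = ⊥ := if_neg h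

theorem finite_UF (q u : ℕ) (D₀ : T.X.Pt →₀ ℤ) (N : ℕ) (l : ℤ) (j : ℤ) :
    FiniteDimensional ℂ (UF T q u D₀ N l j) := by
  by_cases h : l ≤ min 0 ((u : ℤ) * N - |j|)
  · rw [UF_pos T h]
    exact T.finite_V q D₀ N j
  · rw [UF_neg T h]
    infer_instance

theorem UF_le (q u : ℕ) (D₀ : T.X.Pt →₀ ℤ) (N : ℕ) (l : ℤ) (j : ℤ) :
    UF T q u D₀ N l j ≤ T.V q D₀ N j := by
  unfold UF
  split_ifs
  · exact le_rfl
  · exact bot_le

/-- the filtration. -/
noncomputable def filtU (q u : ℕ) (D₀ : T.X.Pt →₀ ℤ) : Filt T q D₀ 1 where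
  F N l := bigr q N (UF T q u D₀ N l)
  le N l := by
    rw [one_mul, sec_eq_bigr]
    exact bigr_mono fun j _ => UF_le T q u D₀ N l j
  anti N l l' h := by
    refine bigr_mono fun j _ => ?_
    unfold UF
    split_ifs with h1 h2 h2
    · exact le_rfl
    · exact (h2 (h.trans h1)).elim
    · exact bot_le
    · exact bot_le
  mul N N' l l' f hf g hg := by
    refine bigr_mul ?_ hf hg
    intro j j' _ _ a ha b hb
    unfold UF at ha hb ⊢
    by_cases h : l ≤ min 0 ((u : ℤ) * N - |j|)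
    · by_cases h' : l' ≤ min 0 ((u : ℤ) * N' - |j'|)
      · rw [if_pos h] at ha
        rw [if_pos h'] at hb
        rw [if_pos]
        · exact T.V_mul ha hb
        · have h3 := abs_add_le j j'
          have e : (u : ℤ) * ((N + N' : ℕ) : ℤ) = u * N + u * N' := by push_cast; ring
          rw [e]
          omega
      · rw [if_neg h', Submodule.mem_bot] at hb
        rw [hb, mul_zero]
        exact zero_mem _
    · rw [if_neg h, Submodule.mem_bot] at ha
      rw [ha, zero_mul]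
      exact zero_mem _
  bound := by
    refine ⟨5 * q, fun N => ⟨?_, ?_⟩⟩
    · rw [one_mul, sec_eq_bigr]
      apply le_antisymm
      · exact bigr_mono fun j _ => UF_le T q u D₀ N _ j
      · refine bigr_mono fun j hj => ?_
        unfold UF
        rw [if_pos]
        push_cast
        have h1 : (0 : ℤ) ≤ u * N := by positivity
        have h2 : (0 : ℤ) ≤ 5 * q * N := by positivity
        apply le_min <;> linarith
    · refine bigr_eq_bot fun j _ => ?_
      unfold UF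
      rw [if_neg]
      intro h
      have h1 := h.trans (min_le_left _ _)
      have h2 : (0 : ℤ) ≤ ((5 * q : ℕ) : ℤ) * N := by positivity
      linarith

theorem filtU_F (q u : ℕ) (D₀ : T.X.Pt →₀ ℤ) (N : ℕ) (l : ℤ) :
    (filtU T q u D₀).F N l = bigr q N (UF T q u D₀ N l) := rfl

/-! ### Traces -/

theorem finrank_UF (q u : ℕ) (D₀ : T.X.Pt →₀ ℤ) (N : ℕ) (l : ℤ) (j : ℤ) :
    (finrank ℂ (UF T q u D₀ N l j) : ℝ) =
      if l ≤ min 0 ((u : ℤ) * N - |j|) then (finrank ℂ (T.V q D₀ N j) : ℝ) else 0 := by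
  by_cases h : l ≤ min 0 ((u : ℤ) * N - |j|)
  · rw [UF_pos T h, if_pos h]
  · rw [UF_neg T h, if_neg h, finrank_bot]
    norm_num

theorem wt_filtU (q u : ℕ) (D₀ : T.X.Pt →₀ ℤ) (N : ℕ) (l : ℤ) :
    (filtU T q u D₀).wt N l = ∑ j ∈ Icc (-((5 * q * N : ℕ) : ℤ)) ((5 * q * N : ℕ) : ℤ),
      if l = min 0 ((u : ℤ) * N - |j|) then mu q N j * finrank ℂ (T.V q D₀ N j) else 0 := by
  unfold Filt.wt
  rw [filtU_F, filtU_F, finrank_bigr _ _ _ (finite_UF T q u D₀ N l),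
    finrank_bigr _ _ _ (finite_UF T q u D₀ N (l + 1)), ← sum_sub_distrib]
  apply sum_congr rfl
  intro j _
  rw [finrank_UF, finrank_UF]
  generalize min 0 ((u : ℤ) * N - |j|) = m
  unfold mu
  rcases lt_trichotomy l m with h | h | h
  · rw [if_pos h.le, if_pos (by omega), if_neg (by omega)]
    ring
  · rw [if_pos h.le, if_neg (by omega), if_pos h]
    ring
  · rw [if_neg (by omega), if_neg (by omega), if_neg (by omega)]
    ring

theorem ww_eq (N u : ℕ) (j : ℤ) : ((min 0 ((u : ℤ) * N - |j|) : ℤ) : ℝ) = ww N u j := by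
  unfold ww
  push_cast
  rfl

theorem tr_filtU (q u : ℕ) (D₀ : T.X.Pt →₀ ℤ) (p N : ℕ) :
    (filtU T q u D₀).tr p N = ∑ j ∈ Icc (-((5 * q * N : ℕ) : ℤ)) ((5 * q * N : ℕ) : ℤ),
      mu q N j * finrank ℂ (T.V q D₀ N j) * ww N u j ^ p := by
  unfold Filt.tr
  have hsupp : (Function.support fun l : ℤ => (l : ℝ) ^ p * (filtU T q u D₀).wt N l) ⊆
      (((Icc (-((5 * q * N : ℕ) : ℤ)) ((5 * q * N : ℕ) : ℤ)).image
        fun j => min 0 ((u : ℤ) * N - |j|) : Finset ℤ) : Set ℤ) := by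
    intro l hl
    rw [Function.mem_support] at hl
    have h1 := right_ne_zero_of_mul hl
    rw [wt_filtU] at h1
    obtain ⟨j, hj, hj0⟩ := Finset.exists_ne_zero_of_sum_ne_zero h1
    rw [Finset.mem_coe, mem_image]
    refine ⟨j, hj, ?_⟩
    by_contra h
    rw [if_neg (fun h' => h h'.symm)] at hj0
    exact hj0 rfl
  rw [finsum_eq_sum_of_support_subset _ hsupp]
  simp only [wt_filtU, mul_sum]
  rw [sum_comm]
  apply sum_congr rfl
  intro j hj
  rw [sum_eq_single (min 0 ((u : ℤ) * N - |j|))]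
  · rw [if_pos rfl, ww_eq]
    ring
  · intro l _ hl
    rw [if_neg hl, mul_zero]
  · intro h
    exact (h (mem_image_of_mem _ hj)).elim

theorem dimN_filtU (q u : ℕ) (D₀ : T.X.Pt →₀ ℤ) (N : ℕ) :
    (filtU T q u D₀).dimN N = ∑ j ∈ Icc (-((5 * q * N : ℕ) : ℤ)) ((5 * q * N : ℕ) : ℤ),
      mu q N j * finrank ℂ (T.V q D₀ N j) := by
  unfold Filt.dimN
  rw [one_mul, sec_eq_bigr, finrank_bigr _ _ _ (T.finite_V q D₀ N)]
  rfl

/-- dimension of `V`. -/
theorem finrank_V {q : ℕ} {D₀ : T.X.Pt →₀ ℤ} {N : ℕ}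
    (hN : 18 * (T.t : ℤ) + 1 ≤ (T.X.deg D₀ - 100 * T.t * q) * N) {j : ℤ}
    (hj : |j| ≤ 5 * q * N) :
    (finrank ℂ (T.V q D₀ N j) : ℝ) = dm q N T.t (T.X.deg D₀ : ℤ) j := by
  have hd := deg_dvs T q D₀ N j
  have hm : max 0 (j - 4 * (q : ℤ) * N) + max 0 (-j - 4 * (q : ℤ) * N) =
      max 0 (|j| - 4 * q * N) := by
    have : (0 : ℤ) ≤ 4 * q * N := by positivity
    generalize 4 * (q : ℤ) * N = a at *
    rcases abs_cases j with ⟨h, h'⟩ | ⟨h, h'⟩ <;> omega
  have hm2 : max 0 (|j| - 4 * (q : ℤ) * N) ≤ q * N := by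
    have : (0 : ℤ) ≤ q * N := by positivity
    have e : 5 * (q : ℤ) * N = 4 * q * N + q * N := by ring
    rw [e] at hj
    generalize 4 * (q : ℤ) * N = a at *
    generalize (q : ℤ) * N = b at *
    omega
  rw [hm] at hd
  have ht : (0 : ℤ) ≤ T.t := by positivity
  have h1 : 2 * (T.X.genus : ℤ) - 2 < T.X.deg (T.dvs q D₀ N j) := by
    rw [hd, T.genus_eq]
    push_cast
    nlinarith [mul_le_mul_of_nonneg_left hm2 ht]
  have h2 := T.X.riemann_roch _ h1
  rw [hd, T.genus_eq] at h2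
  have h3 : ((finrank ℂ (T.V q D₀ N j) : ℕ) : ℝ) =
      ((((finrank ℂ (T.V q D₀ N j) : ℕ) : ℤ)) : ℝ) := by push_cast; rfl
  rw [h3]
  show ((((finrank ℂ (T.X.L (T.dvs q D₀ N j)) : ℕ) : ℤ)) : ℝ) = _
  rw [h2]
  unfold dm
  push_cast
  ring

end Pool.Agent.YTD


end

/- source: Pool.Agent.YTD.UnstFut -/

section

/-!
Exact dimension and trace polynomials, and the Futaki invariant of the filtrations `filtU`.
-/

namespace Pool.Agent.YTD

open Finset Module MvPolynomial Filter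

/-- coefficient. -/
noncomputable def ca0 (q t : ℕ) (e : ℝ) : ℝ :=
  ((-42850) * q ^ 4 * t + (5500) * q ^ 3 * e)

/-- coefficient. -/
noncomputable def ca1 (q t : ℕ) (e : ℝ) : ℝ :=
  ((-94500) * q ^ 3 * t + (900) * q ^ 2 * e)

/-- coefficient. -/
noncomputable def cb0 (q u t : ℕ) (e : ℝ) : ℝ :=
  ((598520 / 3) * q ^ 5 * t + (-42850) * q ^ 4 * u * t + (-25625 / 2) * q ^ 4 * e + (5500) * q ^ 3 * u * e + (-625) * q ^ 2 * u ^ 2 * e + (3 / 2) * u ^ 4 * e)

/-- coefficient. -/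
noncomputable def cb1 (q u t : ℕ) (e : ℝ) : ℝ :=
  ((2031875 / 6) * q ^ 4 * t + (-94500) * q ^ 3 * u * t + (-3250) * q ^ 3 * e + (5625) * q ^ 2 * u ^ 2 * t + (900) * q ^ 2 * u * e + (-50) * q * u ^ 2 * e + (-27 / 2) * u ^ 4 * t)

/-- coefficient. -/
noncomputable def cc0 (q u t : ℕ) (e : ℝ) : ℝ :=
  ((-2793970 / 3) * q ^ 6 * t + (1197040 / 3) * q ^ 5 * u * t + (122500 / 3) * q ^ 5 * e + (-42850) * q ^ 4 * u ^ 2 * t + (-25625) * q ^ 4 * u * e + (5500) * q ^ 3 * u ^ 2 * e + (-1250 / 3) * q ^ 2 * u ^ 3 * e + (3 / 5) * u ^ 5 * e)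

theorem abs_pow_le (c x : ℝ) (hx : 1 ≤ x) {k m : ℕ} (h : k ≤ m) :
    |c * x ^ k| ≤ |c| * x ^ m := by
  rw [abs_mul, abs_of_nonneg (by positivity : (0 : ℝ) ≤ x ^ k)]
  exact mul_le_mul_of_nonneg_left (pow_le_pow_right₀ hx h) (abs_nonneg _)

theorem abs_poly_le (c0 c1 c2 c3 c4 c5 x : ℝ) (hx : 1 ≤ x) {m : ℕ} (hm : 5 ≤ m) :
    |c5 * x ^ 5 + c4 * x ^ 4 + c3 * x ^ 3 + c2 * x ^ 2 + c1 * x ^ 1 + c0 * x ^ 0| ≤
      (|c5| + |c4| + |c3| + |c2| + |c1| + |c0|) * x ^ m := by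
  have h0 := abs_pow_le c0 x hx (show 0 ≤ m by omega)
  have h1 := abs_pow_le c1 x hx (show 1 ≤ m by omega)
  have h2 := abs_pow_le c2 x hx (show 2 ≤ m by omega)
  have h3 := abs_pow_le c3 x hx (show 3 ≤ m by omega)
  have h4 := abs_pow_le c4 x hx (show 4 ≤ m by omega)
  have h5 := abs_pow_le c5 x hx (show 5 ≤ m by omega)
  calc |c5 * x ^ 5 + c4 * x ^ 4 + c3 * x ^ 3 + c2 * x ^ 2 + c1 * x ^ 1 + c0 * x ^ 0| ≤
        |c5 * x ^ 5| + |c4 * x ^ 4| + |c3 * x ^ 3| + |c2 * x ^ 2| + |c1 * x ^ 1| + |c0 * x ^ 0| := by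
        refine (abs_add_le _ _).trans ?_
        gcongr
        refine (abs_add_le _ _).trans ?_
        gcongr
        refine (abs_add_le _ _).trans ?_
        gcongr
        refine (abs_add_le _ _).trans ?_
        gcongr
        exact abs_add_le _ _
    _ ≤ _ := by linarith

theorem abs_poly3_le (c0 c1 c2 c3 x : ℝ) (hx : 1 ≤ x) :
    |c3 * x ^ 3 + c2 * x ^ 2 + c1 * x ^ 1 + c0 * x ^ 0| ≤
      (|c3| + |c2| + |c1| + |c0|) * x ^ 3 := by
  have h0 := abs_pow_le c0 x hx (show 0 ≤ 3 by omega)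
  have h1 := abs_pow_le c1 x hx (show 1 ≤ 3 by omega)
  have h2 := abs_pow_le c2 x hx (show 2 ≤ 3 by omega)
  have h3 := abs_pow_le c3 x hx (show 3 ≤ 3 by omega)
  calc |c3 * x ^ 3 + c2 * x ^ 2 + c1 * x ^ 1 + c0 * x ^ 0| ≤
        |c3 * x ^ 3| + |c2 * x ^ 2| + |c1 * x ^ 1| + |c0 * x ^ 0| := by
        refine (abs_add_le _ _).trans ?_
        gcongr
        refine (abs_add_le _ _).trans ?_
        gcongr
        exact abs_add_le _ _
    _ ≤ _ := by linarith

theorem abs_poly2_le (c0 c1 c2 x : ℝ) (hx : 1 ≤ x) :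
    |c2 * x ^ 2 + c1 * x ^ 1 + c0 * x ^ 0| ≤ (|c2| + |c1| + |c0|) * x ^ 2 := by
  have h0 := abs_pow_le c0 x hx (show 0 ≤ 2 by omega)
  have h1 := abs_pow_le c1 x hx (show 1 ≤ 2 by omega)
  have h2 := abs_pow_le c2 x hx (show 2 ≤ 2 by omega)
  calc |c2 * x ^ 2 + c1 * x ^ 1 + c0 * x ^ 0| ≤
        |c2 * x ^ 2| + |c1 * x ^ 1| + |c0 * x ^ 0| := by
        refine (abs_add_le _ _).trans ?_
        gcongr
        exact abs_add_le _ _
    _ ≤ _ := by linarith

theorem eb2 {f g : ℕ → ℝ} {c0 c1 c2 : ℝ} {N0 : ℕ}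
    (h : ∀ N : ℕ, N0 ≤ N → f N = g N + (c2 * N ^ 2 + c1 * N ^ 1 + c0 * N ^ 0)) :
    ∃ C : ℝ, ∀ᶠ N : ℕ in atTop, |f N - g N| ≤ C * N ^ 2 := by
  refine ⟨|c2| + |c1| + |c0|, ?_⟩
  filter_upwards [eventually_ge_atTop N0, eventually_ge_atTop 1] with N hN hN1
  rw [h N hN, add_sub_cancel_left]
  exact abs_poly2_le _ _ _ _ (by exact_mod_cast hN1)

theorem eb3 {f g : ℕ → ℝ} {c0 c1 c2 c3 : ℝ} {N0 : ℕ}
    (h : ∀ N : ℕ, N0 ≤ N → f N = g N + (c3 * N ^ 3 + c2 * N ^ 2 + c1 * N ^ 1 + c0 * N ^ 0)) :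
    ∃ C : ℝ, ∀ᶠ N : ℕ in atTop, |f N - g N| ≤ C * N ^ 3 := by
  refine ⟨|c3| + |c2| + |c1| + |c0|, ?_⟩
  filter_upwards [eventually_ge_atTop N0, eventually_ge_atTop 1] with N hN hN1
  rw [h N hN, add_sub_cancel_left]
  exact abs_poly3_le _ _ _ _ _ (by exact_mod_cast hN1)

theorem eb5 {f g : ℕ → ℝ} {c0 c1 c2 c3 c4 c5 : ℝ} {N0 : ℕ}
    (h : ∀ N : ℕ, N0 ≤ N → f N = g N + (c5 * N ^ 5 + c4 * N ^ 4 + c3 * N ^ 3 + c2 * N ^ 2 +
      c1 * N ^ 1 + c0 * N ^ 0)) :
    ∃ C : ℝ, ∀ᶠ N : ℕ in atTop, |f N - g N| ≤ C * N ^ 5 := by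
  refine ⟨|c5| + |c4| + |c3| + |c2| + |c1| + |c0|, ?_⟩
  filter_upwards [eventually_ge_atTop N0, eventually_ge_atTop 1] with N hN hN1
  rw [h N hN, add_sub_cancel_left]
  exact abs_poly_le _ _ _ _ _ _ _ (by exact_mod_cast hN1) le_rfl

variable {K : Type} [Field K] [Algebra ℂ K] (T : Datum K)

section

variable {T}
variable {q : ℕ} {D₀ : T.X.Pt →₀ ℤ} {N : ℕ}

theorem mem_Icc_abs {q N : ℕ} {j : ℤ}
    (hj : j ∈ Icc (-((5 * q * N : ℕ) : ℤ)) ((5 * q * N : ℕ) : ℤ)) : |j| ≤ 5 * q * N := by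
  rw [mem_Icc] at hj
  rw [abs_le]
  exact_mod_cast hj

/-- The dimension of `sec N`. -/
theorem finrank_sec (hN : 18 * (T.t : ℤ) + 1 ≤ (T.X.deg D₀ - 100 * T.t * q) * N) :
    (finrank ℂ (T.sec q D₀ N) : ℝ) = ca0 q T.t (T.X.deg D₀ : ℤ) * N ^ 4 +
      ca1 q T.t (T.X.deg D₀ : ℤ) * N ^ 3 +
      (((-10350) * (q : ℝ) ^ 2 * (T.t : ℝ) + (45) * (q : ℝ) * ((T.X.deg D₀ : ℤ) : ℝ)) * N ^ 2 + ((-505) * (q : ℝ) * (T.t : ℝ) + (1) * ((T.X.deg D₀ : ℤ) : ℝ)) * N ^ 1 + ((-9) * (T.t : ℝ)) * N ^ 0) := by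
  rw [sec_eq_bigr, finrank_bigr _ _ _ (T.finite_V q D₀ N)]
  have h : ∑ j ∈ Icc (-((5 * q * N : ℕ) : ℤ)) ((5 * q * N : ℕ) : ℤ),
        (25 * (q : ℝ) * N + 3 * j + 1) * (25 * (q : ℝ) * N - 3 * j + 1) *
          (finrank ℂ (T.V q D₀ N j) : ℝ) =
      ∑ j ∈ Icc (-((5 * q * N : ℕ) : ℤ)) ((5 * q * N : ℕ) : ℤ),
        mu q N j * dm q N T.t (T.X.deg D₀ : ℤ) j := by
    apply sum_congr rfl
    intro j hj
    rw [finrank_V T hN (mem_Icc_abs hj)]
    rfl
  rw [h, sum_dim]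
  unfold ca0 ca1
  ring

theorem tr_one_filtU (hN : 18 * (T.t : ℤ) + 1 ≤ (T.X.deg D₀ - 100 * T.t * q) * N) {u : ℕ}
    (hu : u ≤ 4 * q) :
    (filtU T q u D₀).tr 1 N = cb0 q u T.t (T.X.deg D₀ : ℤ) * N ^ 5 +
      cb1 q u T.t (T.X.deg D₀ : ℤ) * N ^ 4 +
      (((55150) * (q : ℝ) ^ 3 * (T.t : ℝ) + (-10350) * (q : ℝ) ^ 2 * (u : ℝ) * (T.t : ℝ) + (-325 / 2) * (q : ℝ) ^ 2 * ((T.X.deg D₀ : ℤ) : ℝ) + (450) * (q : ℝ) * (u : ℝ) ^ 2 * (T.t : ℝ) + (45) * (q : ℝ) * (u : ℝ) * ((T.X.deg D₀ : ℤ) : ℝ) + (-5 / 2) * (u : ℝ) ^ 2 * ((T.X.deg D₀ : ℤ) : ℝ)) * N ^ 3 + ((21775 / 6) * (q : ℝ) ^ 2 * (T.t : ℝ) + (-505) * (q : ℝ) * (u : ℝ) * (T.t : ℝ) + (-5) * (q : ℝ) * ((T.X.deg D₀ : ℤ) : ℝ) + (45 / 2) * (u : ℝ) ^ 2 * (T.t : ℝ) + (1) * (u : ℝ) * ((T.X.deg D₀ : ℤ) : ℝ)) * N ^ 2 + ((415 / 3) * (q : ℝ) * (T.t : ℝ) + (-9) * (u : ℝ) * (T.t : ℝ)) * N ^ 1 + 0 * N ^ 0) := by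
  obtain ⟨v, hv⟩ : ∃ v, u + v = 5 * q := ⟨5 * q - u, by omega⟩
  have h := sum_tr_one q N T.t (T.X.deg D₀ : ℤ) hu hv
  rw [tr_filtU]
  have h' : ∑ j ∈ Icc (-((5 * q * N : ℕ) : ℤ)) ((5 * q * N : ℕ) : ℤ),
        mu q N j * (finrank ℂ (T.V q D₀ N j) : ℝ) * ww N u j ^ 1 =
      ∑ j ∈ Icc (-((5 * q * N : ℕ) : ℤ)) ((5 * q * N : ℕ) : ℤ),
        mu q N j * dm q N T.t (T.X.deg D₀ : ℤ) j * ww N u j := by
    apply sum_congr rfl
    intro j hj
    rw [finrank_V T hN (mem_Icc_abs hj), pow_one]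
  rw [h', h]
  unfold cb0 cb1
  ring

theorem tr_two_filtU (hN : 18 * (T.t : ℤ) + 1 ≤ (T.X.deg D₀ - 100 * T.t * q) * N) {u : ℕ}
    (hu : u ≤ 4 * q) :
    (filtU T q u D₀).tr 2 N = cc0 q u T.t (T.X.deg D₀ : ℤ) * N ^ 6 +
      (((-4430000 / 3) * (q : ℝ) ^ 5 * (T.t : ℝ) + (2031875 / 3) * (q : ℝ) ^ 4 * (u : ℝ) * (T.t : ℝ) + (42500 / 3) * (q : ℝ) ^ 4 * ((T.X.deg D₀ : ℤ) : ℝ) + (-94500) * (q : ℝ) ^ 3 * (u : ℝ) ^ 2 * (T.t : ℝ) + (-6500) * (q : ℝ) ^ 3 * (u : ℝ) * ((T.X.deg D₀ : ℤ) : ℝ) + (3750) * (q : ℝ) ^ 2 * (u : ℝ) ^ 3 * (T.t : ℝ) + (900) * (q : ℝ) ^ 2 * (u : ℝ) ^ 2 * ((T.X.deg D₀ : ℤ) : ℝ) + (-100 / 3) * (q : ℝ) * (u : ℝ) ^ 3 * ((T.X.deg D₀ : ℤ) : ℝ) + (-27 / 5) * (u : ℝ) ^ 5 * (T.t : ℝ)) * N ^ 5 + ((-322250) * (q : ℝ) ^ 4 * (T.t : ℝ) + (110300) * (q : ℝ) ^ 3 * (u : ℝ) * (T.t : ℝ) + (1625) * (q : ℝ) ^ 3 * ((T.X.deg D₀ : ℤ) : ℝ) + (-10350) * (q : ℝ) ^ 2 * (u : ℝ) ^ 2 * (T.t : ℝ) + (-1600 / 3) * (q : ℝ) ^ 2 * (u : ℝ)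 * ((T.X.deg D₀ : ℤ) : ℝ) + (300) * (q : ℝ) * (u : ℝ) ^ 3 * (T.t : ℝ) + (45) * (q : ℝ) * (u : ℝ) ^ 2 * ((T.X.deg D₀ : ℤ) : ℝ) + (-2 / 3) * (u : ℝ) ^ 3 * ((T.X.deg D₀ : ℤ) : ℝ)) * N ^ 4 + ((-98875 / 3) * (q : ℝ) ^ 3 * (T.t : ℝ) + (27400 / 3) * (q : ℝ) ^ 2 * (u : ℝ) * (T.t : ℝ) + (325 / 3) * (q : ℝ) ^ 2 * ((T.X.deg D₀ : ℤ) : ℝ) + (-505) * (q : ℝ) * (u : ℝ) ^ 2 * (T.t : ℝ) + (-80 / 3) * (q : ℝ) * (u : ℝ) * ((T.X.deg D₀ : ℤ) : ℝ) + (6) * (u : ℝ) ^ 3 * (T.t : ℝ) + (1) * (u : ℝ) ^ 2 * ((T.X.deg D₀ : ℤ) : ℝ)) * N ^ 3 + ((-7205 / 3) * (q : ℝ) ^ 2 * (T.t : ℝ) + (1280 / 3) * (q : ℝ) * (u : ℝ) * (T.t : ℝ) + (14 / 3) * (q : ℝ) * ((T.X.deg D₀ : ℤ) : ℝ) + (-9) * (u : ℝ) ^ 2 * (T.t : ℝ) + (-14 / 15) * (u : ℝ) * ((T.X.deg D₀ : ℤ) : ℝ)) * N ^ 2 + ((-42) * (q : ℝ) * (T.t : ℝ) + (42 / 5) * (u : ℝ) * (T.t : ℝ)) * N ^ 1 + 0 * N ^ 0) := by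
  obtain ⟨v, hv⟩ : ∃ v, u + v = 5 * q := ⟨5 * q - u, by omega⟩
  have h := sum_tr_two q N T.t (T.X.deg D₀ : ℤ) hu hv
  rw [tr_filtU]
  have h' : ∑ j ∈ Icc (-((5 * q * N : ℕ) : ℤ)) ((5 * q * N : ℕ) : ℤ),
        mu q N j * (finrank ℂ (T.V q D₀ N j) : ℝ) * ww N u j ^ 2 =
      ∑ j ∈ Icc (-((5 * q * N : ℕ) : ℤ)) ((5 * q * N : ℕ) : ℤ),
        mu q N j * dm q N T.t (T.X.deg D₀ : ℤ) j * ww N u j ^ 2 := by
    apply sum_congr rfl
    intro j hj
    rw [finrank_V T hN (mem_Icc_abs hj)]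
  rw [h', h]
  unfold cc0
  ring

theorem large_of_lt (hD : 100 * (T.t : ℤ) * q < T.X.deg D₀) (hN : 18 * T.t + 1 ≤ N) :
    18 * (T.t : ℤ) + 1 ≤ (T.X.deg D₀ - 100 * T.t * q) * N := by
  have h1 : (1 : ℤ) ≤ T.X.deg D₀ - 100 * T.t * q := by linarith
  have h2 : (18 * (T.t : ℤ) + 1) ≤ N := by exact_mod_cast hN
  nlinarith

end

/-- The asymptotic expansions of `filtU`. -/
theorem expansion_filtU {q : ℕ} {D₀ : T.X.Pt →₀ ℤ} (hD : 100 * (T.t : ℤ) * q < T.X.deg D₀)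
    {u : ℕ} (hu : u ≤ 4 * q) :
    (filtU T q u D₀).Expansion (ca0 q T.t (T.X.deg D₀ : ℤ)) (ca1 q T.t (T.X.deg D₀ : ℤ))
      (cb0 q u T.t (T.X.deg D₀ : ℤ)) (cb1 q u T.t (T.X.deg D₀ : ℤ))
      (cc0 q u T.t (T.X.deg D₀ : ℤ)) := by
  refine ⟨?_, ?_, ?_⟩
  · have e : ∀ N : ℕ, (filtU T q u D₀).dimN N = (finrank ℂ (T.sec q D₀ N) : ℝ) := by
      intro N
      unfold Filt.dimN
      rw [one_mul]
    simp only [e]
    exact eb2 (N0 := 18 * T.t + 1) fun N hN => finrank_sec (large_of_lt hD hN)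
  · exact eb3 (N0 := 18 * T.t + 1) fun N hN => tr_one_filtU (large_of_lt hD hN) hu
  · exact eb5 (N0 := 18 * T.t + 1) fun N hN => tr_two_filtU (large_of_lt hD hN) hu

end Pool.Agent.YTD


end

/- source: Pool.Agent.YTD.UnstSign -/

section

/-!
The sign of the Futaki invariant of `filtU` for polarizations of slope slightly less than the
critical one.
-/

namespace Pool.Agent.YTD

/-- `b₀` for `t = 1`, `deg D₀ = 105 q - 1`. -/
noncomputable def B0 (q u : ℝ) : ℝ :=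
  598520 / 3 * q ^ 5 - 42850 * q ^ 4 * u +
    (105 * q - 1) * (-25625 / 2 * q ^ 4 + 5500 * q ^ 3 * u - 625 * q ^ 2 * u ^ 2 + 3 / 2 * u ^ 4)

/-- `b₁` for `t = 1`, `deg D₀ = 105 q - 1`. -/
noncomputable def B1 (q u : ℝ) : ℝ :=
  -(125 * q ^ 2 - 9 * u ^ 2) ^ 2 / 6 + 50 * q * (5 * q - u) * (13 * q - u)

theorem num_pos_large {q u : ℝ} (hq : 6 ≤ q) (hu : 0 ≤ u) (h1 : 9 * u ^ 2 ≤ 125 * q ^ 2)
    (h2 : 125 * q ^ 2 < 9 * (u + 1) ^ 2) :
    0 < 50 * q * (10693 * q - 110) * B1 q u + 900 * B0 q u := by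
  have hu1 : u ≤ 3.727 * q := by
    by_contra h
    push Not at h
    nlinarith
  have hu2 : 3.55 * q ≤ u := by
    have : 3.726 * q < u + 1 := by
      by_contra h
      push Not at h
      nlinarith
    linarith
  have hX0 : 0 ≤ 125 * q ^ 2 - 9 * u ^ 2 := by linarith
  have hX1 : 125 * q ^ 2 - 9 * u ^ 2 ≤ 68.6 * q := by nlinarith
  have hX2 : (125 * q ^ 2 - 9 * u ^ 2) ^ 2 ≤ 4706 * q ^ 2 := by
    have := pow_le_pow_left₀ hX0 hX1 2
    nlinarith
  have hX3 : 4706 * q ^ 2 ≤ 785 * q ^ 3 := by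
    have : 0 ≤ q ^ 2 := by positivity
    nlinarith
  have h3 : 11.8 * q ^ 2 ≤ (5 * q - u) * (13 * q - u) := by
    have a1 : 1.273 * q ≤ 5 * q - u := by linarith
    have a2 : 9.273 * q ≤ 13 * q - u := by linarith
    have := mul_le_mul a1 a2 (by linarith) (by linarith)
    nlinarith
  have hB1 : 459 * q ^ 3 ≤ B1 q u := by
    unfold B1
    have : 50 * q * (11.8 * q ^ 2) ≤ 50 * q * ((5 * q - u) * (13 * q - u)) :=
      mul_le_mul_of_nonneg_left h3 (by linarith)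
    nlinarith
  have hu3 : u ^ 2 ≤ 13.8906 * q ^ 2 := by
    have := pow_le_pow_left₀ hu hu1 2
    nlinarith
  have hu4 : 12.6 * q ^ 2 ≤ u ^ 2 := by
    have := pow_le_pow_left₀ (by linarith) hu2 2
    nlinarith
  have hu5 : u ^ 4 ≤ 193 * q ^ 4 := by
    have := pow_le_pow_left₀ (by positivity) hu3 2
    nlinarith [pow_nonneg (show (0 : ℝ) ≤ q by linarith) 4]
  have hB0 : -160000 * q ^ 5 ≤ B0 q u := by
    have g1 : -12812.5 * q ^ 4 + 5500 * q ^ 3 * (3.55 * q) - 625 * q ^ 2 * (13.8906 * q ^ 2) ≤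
        -25625 / 2 * q ^ 4 + 5500 * q ^ 3 * u - 625 * q ^ 2 * u ^ 2 + 3 / 2 * u ^ 4 := by
      have b1 : q ^ 3 * (3.55 * q) ≤ q ^ 3 * u := mul_le_mul_of_nonneg_left hu2 (by positivity)
      have b2 : q ^ 2 * u ^ 2 ≤ q ^ 2 * (13.8906 * q ^ 2) :=
        mul_le_mul_of_nonneg_left hu3 (by positivity)
      have b3 : 0 ≤ u ^ 4 := by positivity
      nlinarith
    have g2 : q ^ 4 * u ≤ q ^ 4 * (3.727 * q) := mul_le_mul_of_nonneg_left hu1 (by positivity)
    have g3 : (105 * q - 1) * (-12812.5 * q ^ 4 + 5500 * q ^ 3 * (3.55 * q) -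
        625 * q ^ 2 * (13.8906 * q ^ 2)) ≤ (105 * q - 1) * (-25625 / 2 * q ^ 4 +
        5500 * q ^ 3 * u - 625 * q ^ 2 * u ^ 2 + 3 / 2 * u ^ 4) :=
      mul_le_mul_of_nonneg_left g1 (by linarith)
    unfold B0
    have g4 : 0 ≤ q ^ 4 := by positivity
    have g5 : 0 ≤ q ^ 5 := by positivity
    nlinarith
  have h5 : 10674 * q ≤ 10693 * q - 110 := by linarith
  have h6 : 50 * q * (10674 * q) * (459 * q ^ 3) ≤ 50 * q * (10693 * q - 110) * B1 q u := by
    apply mul_le_mul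
    · exact mul_le_mul_of_nonneg_left h5 (by linarith)
    · exact hB1
    · positivity
    · apply mul_nonneg <;> linarith
  have h7 : 0 < q ^ 5 := by positivity
  nlinarith

theorem num_pos {q u : ℕ} (hq : 0 < q) (h1 : 9 * u ^ 2 ≤ 125 * q ^ 2)
    (h2 : 125 * q ^ 2 < 9 * (u + 1) ^ 2) :
    0 < 50 * (q : ℝ) * (10693 * q - 110) * B1 q u + 900 * B0 q u := by
  rcases Nat.lt_or_ge q 6 with h | h
  · have hu : u < 20 := by
      by_contra h'
      push Not at h'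
      have : q ^ 2 ≤ 5 ^ 2 := Nat.pow_le_pow_left (by omega) 2
      nlinarith
    interval_cases q <;> interval_cases u <;> first | omega | (unfold B1 B0; norm_num)
  · exact num_pos_large (by exact_mod_cast h) (by positivity) (by exact_mod_cast h1)
      (by exact_mod_cast h2)

theorem num_eq (q u t : ℕ) :
    ca0 q t (t * (105 * q - 1)) * cb1 q u t (t * (105 * q - 1)) -
      ca1 q t (t * (105 * q - 1)) * cb0 q u t (t * (105 * q - 1)) =
    t ^ 2 * q ^ 2 * (50 * (q : ℝ) * (10693 * q - 110) * B1 q u + 900 * B0 q u) := by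
  unfold ca0 ca1 cb0 cb1 B1 B0
  ring

theorem exists_u (q : ℕ) : ∃ u : ℕ, 9 * u ^ 2 ≤ 125 * q ^ 2 ∧ 125 * q ^ 2 < 9 * (u + 1) ^ 2 ∧
    3 * q ≤ u ∧ u ≤ 4 * q := by
  have h1 := Nat.sqrt_le' (125 * q ^ 2 / 9)
  have h2 := Nat.lt_succ_sqrt' (125 * q ^ 2 / 9)
  refine ⟨Nat.sqrt (125 * q ^ 2 / 9), ?_, ?_, ?_, ?_⟩
  · omega
  · simp only [Nat.succ_eq_add_one] at h2
    omega
  · apply Nat.le_sqrt'.2
    rw [Nat.le_div_iff_mul_le (by norm_num)]
    nlinarith
  · by_contra h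
    push Not at h
    have h3 : (4 * q + 1) ^ 2 ≤ Nat.sqrt (125 * q ^ 2 / 9) ^ 2 := Nat.pow_le_pow_left h 2
    have h4 : 9 * (125 * q ^ 2 / 9) ≤ 125 * q ^ 2 := Nat.mul_div_le _ _
    nlinarith

theorem fut_neg {q u t : ℕ} (hq : 0 < q) (ht : 0 < t) (h1 : 9 * u ^ 2 ≤ 125 * q ^ 2)
    (h2 : 125 * q ^ 2 < 9 * (u + 1) ^ 2) :
    (ca1 q t (t * (105 * q - 1)) * cb0 q u t (t * (105 * q - 1)) -
      ca0 q t (t * (105 * q - 1)) * cb1 q u t (t * (105 * q - 1))) /
      ca0 q t (t * (105 * q - 1)) ^ 2 < 0 := by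
  have h3 := num_pos hq h1 h2
  have h4 := num_eq q u t
  have hq' : (1 : ℝ) ≤ q := by exact_mod_cast hq
  have ht' : (0 : ℝ) < t := by exact_mod_cast ht
  have h5 : 0 < ca0 q t (t * (105 * q - 1)) := by
    have e : ca0 q t (t * (105 * q - 1)) = t * q ^ 3 * (534650 * q - 5500) := by
      unfold ca0
      ring
    rw [e]
    have : (0 : ℝ) < 534650 * q - 5500 := by linarith
    positivity
  apply div_neg_of_neg_of_pos
  · have : (0 : ℝ) < t ^ 2 * q ^ 2 * (50 * (q : ℝ) * (10693 * q - 110) * B1 q u + 900 * B0 q u) := by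
      positivity
    linarith
  · positivity

end Pool.Agent.YTD


end

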