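import Pool.Agent.YTDM.P15

/- source: Pool.Agent.YTD.Cov -/

section

/-!
Étale double covers of curves presented by local parametrisations.
-/

namespace Pool.Agent.YTD.Hyp

open Module

noncomputable section

/-- A curve together with embeddings of its function field in the field of Laurent series, one
for each point. -/
structure CurveP {F : Type} [Field F] [Algebra ℂ F] (Λ : LF F) (K : Type) [Field K]
    [Algebra ℂ K] where
  Pt : Type
  phi : Pt → K →ₐ[ℂ] F
  finite_ord : ∀ z : K, z ≠ 0 → {P : Pt | Λ.ord (phi P z) ≠ 0}.Finite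
  sum_ord : ∀ z : K, z ≠ 0 → ∑ᶠ P, Λ.ord (phi P z) = 0

namespace CurveP

variable {F : Type} [Field F] [Algebra ℂ F] {Λ : LF F} {K : Type} [Field K] [Algebra ℂ K]
variable (X : CurveP Λ K)

theorem phi_ne (P : X.Pt) {z : K} (hz : z ≠ 0) : X.phi P z ≠ 0 := (map_ne_zero _).2 hz

/-- the underlying curve -/
@[reducible] def toOrd : CurveOrd K where
  Pt := X.Pt
  ord P z := Λ.ord (X.phi P z)
  ord_mul P f g hf hg := by
    rw [map_mul, Λ.ord_mul (X.phi_ne P hf) (X.phi_ne P hg)]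
  ord_add P f g _ _ h := by
    rw [map_add]
    apply Λ.ord_add
    rw [← map_add]
    exact X.phi_ne P h
  ord_const P c _ := by
    rw [AlgHom.commutes, Λ.ord_const]
  finite_ord := X.finite_ord
  sum_ord := X.sum_ord

theorem res : X.toOrd.Res := by
  intro P f g hf hg h
  obtain ⟨c, hc⟩ := Λ.res (X.phi_ne P hf) (X.phi_ne P hg) h
  refine ⟨c, ?_⟩
  by_cases h0 : f - c • g = 0
  · exact Or.inl h0
  right
  have h1 := X.phi_ne P h0
  have h2 : X.phi P (f - c • g) = X.phi P f - c • X.phi P g := by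
    rw [map_sub, map_smul]
  rcases hc with hc | hc
  · rw [h2] at h1
    exact absurd hc h1
  · show Λ.ord _ < Λ.ord _
    rw [h2]
    exact hc

/-- Riemann-Roch in large degrees -/
def RRL (g : ℤ) : Prop := ∃ c : ℤ, ∀ D : X.Pt →₀ ℤ, c ≤ X.toOrd.deg D →
  (finrank ℂ (X.toOrd.L D) : ℤ) = X.toOrd.deg D + 1 - g

end CurveP

theorem deg_eq_finsum {K : Type} [Field K] [Algebra ℂ K] (X : CurveOrd K) (D : X.Pt →₀ ℤ) :
    X.deg D = ∑ᶠ P, D P := by
  unfold CurveOrd.deg
  rw [Finsupp.sum]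
  symm
  exact finsum_eq_sum_of_support_subset _ (by
    intro P hP
    simpa using hP)

/-! ### Double covers -/

/-- nonsquare condition -/
abbrev NonSqK {K : Type} [Field K] (h : K) : Prop := Fact (∀ r : K, r ^ 2 ≠ h + 0 * r)

/-- the field `K(√h)` -/
abbrev DK {K : Type} [Field K] (h : K) := QuadraticAlgebra K h 0

section dbl

variable {F : Type} [Field F] [Algebra ℂ F] {Λ : LF F} {K : Type} [Field K] [Algebra ℂ K]
variable (X : CurveP Λ K) (h : K)

/-- the points of the double cover -/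
abbrev DPt : Type := {x : X.Pt × F // x.2 ^ 2 = X.phi x.1 h}

variable {X h}

/-- the local parametrisation of the double cover -/
def dphi (x : DPt X h) : DK h →ₐ[ℂ] F where
  toFun z := X.phi x.1.1 z.re + X.phi x.1.1 z.im * x.1.2
  map_one' := by
    rw [QuadraticAlgebra.re_one, QuadraticAlgebra.im_one, map_one, map_zero]
    ring
  map_zero' := by
    rw [QuadraticAlgebra.re_zero, QuadraticAlgebra.im_zero, map_zero]
    ring
  map_mul' z w := by
    rw [QuadraticAlgebra.re_mul, QuadraticAlgebra.im_mul, map_add, map_mul, map_mul, map_mul,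
      map_add, map_add, map_mul, map_mul, map_mul, map_mul, map_zero, ← x.2]
    ring
  map_add' z w := by
    rw [QuadraticAlgebra.re_add, QuadraticAlgebra.im_add, map_add, map_add]
    ring
  commutes' c := by
    have h1 : (algebraMap ℂ (DK h) c).re = algebraMap ℂ K c := rfl
    have h2 : (algebraMap ℂ (DK h) c).im = 0 := rfl
    rw [h1, h2, map_zero, zero_mul, add_zero, AlgHom.commutes]

theorem dphi_apply (x : DPt X h) (z : DK h) :
    dphi x z = X.phi x.1.1 z.re + X.phi x.1.1 z.im * x.1.2 := rfl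

/-- the conjugate point -/
def dneg (x : DPt X h) : DPt X h := ⟨(x.1.1, -x.1.2), by
  show (-x.1.2) ^ 2 = X.phi x.1.1 h
  rw [neg_sq, x.2]⟩

theorem dneg_dneg (x : DPt X h) : dneg (dneg x) = x := by
  apply Subtype.ext
  apply Prod.ext
  · rfl
  · show - - x.1.2 = x.1.2
    rw [neg_neg]

theorem dphi_dneg (x : DPt X h) (z : DK h) : dphi (dneg x) z = dphi x (star z) := by
  rw [dphi_apply, dphi_apply, QuadraticAlgebra.re_star, QuadraticAlgebra.im_star, zero_mul,
    add_zero, map_neg]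
  show X.phi x.1.1 z.re + X.phi x.1.1 z.im * (-x.1.2) = _
  ring

/-- the norm -/
def nrm (z : DK h) : K := z.re * z.re - h * (z.im * z.im)

theorem dphi_mul_dneg (x : DPt X h) (z : DK h) :
    dphi x z * dphi (dneg x) z = X.phi x.1.1 (nrm z) := by
  unfold nrm
  rw [dphi_apply, dphi_apply, map_sub, map_mul, map_mul, map_mul, ← x.2]
  show (X.phi x.1.1 z.re + X.phi x.1.1 z.im * x.1.2) *
    (X.phi x.1.1 z.re + X.phi x.1.1 z.im * (-x.1.2)) = _
  ring

theorem mul_star_eq (z : DK h) : z * star z = algebraMap K (DK h) (nrm z) := by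
  apply QuadraticAlgebra.ext
  · rw [QuadraticAlgebra.re_mul, QuadraticAlgebra.re_star, QuadraticAlgebra.im_star]
    show _ = nrm z
    unfold nrm
    ring
  · rw [QuadraticAlgebra.im_mul, QuadraticAlgebra.re_star, QuadraticAlgebra.im_star]
    show _ = (0 : K)
    ring

variable [hns : NonSqK h]

include hns in
theorem h_ne : h ≠ 0 := by
  intro h0
  apply hns.out 0
  rw [h0]
  ring

theorem dstar_ne {z : DK h} (hz : z ≠ 0) : star z ≠ 0 := by
  intro h1
  apply hz
  rw [← star_star z, h1, star_zero]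

theorem nrm_ne {z : DK h} (hz : z ≠ 0) : nrm z ≠ 0 := by
  intro h1
  have h2 := mul_star_eq z
  rw [h1, map_zero] at h2
  exact mul_ne_zero hz (dstar_ne hz) h2

theorem dphi_ne (x : DPt X h) {z : DK h} (hz : z ≠ 0) : dphi x z ≠ 0 := (map_ne_zero _).2 hz

theorem eta_ne (x : DPt X h) : x.1.2 ≠ 0 := by
  intro h0
  have h1 := x.2
  rw [h0] at h1
  exact X.phi_ne x.1.1 (h_ne (h := h)) (by rw [← h1]; ring)

theorem ord_eta (x : DPt X h) : 2 * Λ.ord x.1.2 = Λ.ord (X.phi x.1.1 h) := by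
  rw [← x.2, LF.ord_pow (eta_ne x)]
  rfl

theorem ord_dneg (x : DPt X h) {z : DK h} (hz : z ≠ 0) :
    Λ.ord (dphi x z) + Λ.ord (dphi (dneg x) z) = Λ.ord (X.phi x.1.1 (nrm z)) := by
  rw [← dphi_mul_dneg, Λ.ord_mul (dphi_ne _ hz) (dphi_ne _ hz)]

/-- lower bound for the order of `u + v √h` -/
theorem le_ord_dphi (x : DPt X h) {z : DK h} (hz : z ≠ 0) {m : ℤ}
    (h1 : z.re ≠ 0 → m ≤ Λ.ord (X.phi x.1.1 z.re))
    (h2 : z.im ≠ 0 → m ≤ Λ.ord (X.phi x.1.1 z.im) + Λ.ord x.1.2) : m ≤ Λ.ord (dphi x z) := by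
  by_cases ha : z.re = 0
  · have hb : z.im ≠ 0 := by
      intro hb
      apply hz
      exact QuadraticAlgebra.ext ha hb
    rw [dphi_apply, ha, map_zero, zero_add, Λ.ord_mul (X.phi_ne _ hb) (eta_ne x)]
    exact h2 hb
  by_cases hb : z.im = 0
  · rw [dphi_apply, hb, map_zero, zero_mul, add_zero]
    exact h1 ha
  have h3 : dphi x z ≠ 0 := dphi_ne x hz
  rw [dphi_apply] at h3 ⊢
  have h4 := Λ.ord_add h3
  rw [Λ.ord_mul (X.phi_ne _ hb) (eta_ne x)] at h4
  exact le_trans (le_min (h1 ha) (h2 hb)) h4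

theorem eta_eq_or (x y : DPt X h) (hxy : x.1.1 = y.1.1) : y = x ∨ y = dneg x := by
  have h1 : y.1.2 ^ 2 = x.1.2 ^ 2 := by
    rw [x.2, y.2, hxy]
  rcases sq_eq_sq_iff_eq_or_eq_neg.1 h1 with h2 | h2
  · left
    apply Subtype.ext
    exact Prod.ext hxy.symm h2
  · right
    apply Subtype.ext
    exact Prod.ext hxy.symm h2

theorem finite_dfiber (P : X.Pt) : {x : DPt X h | x.1.1 = P}.Finite := by
  by_cases h0 : ∃ x : DPt X h, x.1.1 = P
  · obtain ⟨x, hx⟩ := h0
    apply (Set.toFinite ({x, dneg x} : Set (DPt X h))).subset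
    intro y hy
    have hy' : y.1.1 = P := hy
    rcases eta_eq_or x y (by rw [hx, hy']) with h1 | h1
    · left
      exact h1
    · right
      exact h1
  · push Not at h0
    have : {x : DPt X h | x.1.1 = P} = ∅ := by
      ext x
      simp [h0 x]
    rw [this]
    exact Set.finite_empty

theorem finite_preim {A : Set X.Pt} (hA : A.Finite) : {x : DPt X h | x.1.1 ∈ A}.Finite := by
  have : {x : DPt X h | x.1.1 ∈ A} = ⋃ P ∈ A, {x : DPt X h | x.1.1 = P} := by
    ext x
    simp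
  rw [this]
  exact hA.biUnion fun P _ => finite_dfiber P

theorem finite_dord {z : DK h} (hz : z ≠ 0) : {x : DPt X h | Λ.ord (dphi x z) ≠ 0}.Finite := by
  have hA1 : {P : X.Pt | z.re ≠ 0 ∧ Λ.ord (X.phi P z.re) ≠ 0}.Finite := by
    by_cases h0 : z.re = 0
    · simp [h0]
    · exact (X.finite_ord _ h0).subset fun P hP => hP.2
  have hA2 : {P : X.Pt | z.im ≠ 0 ∧ Λ.ord (X.phi P z.im) ≠ 0}.Finite := by
    by_cases h0 : z.im = 0
    · simp [h0]
    · exact (X.finite_ord _ h0).subset fun P hP => hP.2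
  have hA3 := X.finite_ord h (h_ne (h := h))
  have hA4 := X.finite_ord _ (nrm_ne hz)
  apply (finite_preim (X := X) (h := h) (hA1.union (hA2.union (hA3.union hA4)))).subset
  intro x hx
  by_contra hP
  simp only [Set.mem_ofPred_eq, Set.mem_union, not_or, not_and, not_not] at hP
  obtain ⟨h1, h2, h3, h4⟩ := hP
  have he : Λ.ord x.1.2 = 0 := by
    have := ord_eta x
    rw [h3] at this
    linarith
  have h5 : 0 ≤ Λ.ord (dphi x z) := by
    apply le_ord_dphi x hz
    · intro h0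
      rw [h1 h0]
    · intro h0
      rw [h2 h0, he, add_zero]
  have h6 : 0 ≤ Λ.ord (dphi (dneg x) z) := by
    apply le_ord_dphi (dneg x) hz
    · intro h0
      show 0 ≤ Λ.ord (X.phi x.1.1 z.re)
      rw [h1 h0]
    · intro h0
      show 0 ≤ Λ.ord (X.phi x.1.1 z.im) + Λ.ord (-x.1.2)
      rw [h2 h0, LF.ord_neg, he, add_zero]
  have h7 := ord_dneg x hz
  rw [h4] at h7
  exact hx (by linarith)

theorem exists_root (hev : ∀ P, Even (Λ.ord (X.phi P h))) (P : X.Pt) :
    ∃ η : F, η ^ 2 = X.phi P h := by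
  obtain ⟨b, hb⟩ := IsAlgClosed.exists_pow_nat_eq (Λ.lc (X.phi P h)) (n := 2) (by norm_num)
  obtain ⟨η, h1, _⟩ := Λ.sqrt (X.phi_ne P (h_ne (h := h))) (hev P) b hb
  exact ⟨η, h1⟩

/-- a chosen root at every point -/
def rt (hev : ∀ P, Even (Λ.ord (X.phi P h))) (P : X.Pt) : F := (exists_root hev P).choose

theorem rt_sq (hev : ∀ P, Even (Λ.ord (X.phi P h))) (P : X.Pt) :
    rt hev P ^ 2 = X.phi P h := (exists_root hev P).choose_spec

/-- the chosen point over `P` -/
def lft (hev : ∀ P, Even (Λ.ord (X.phi P h))) (P : X.Pt) : DPt X h := ⟨(P, rt hev P), rt_sq hev P⟩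

/-- a point is given by its image and a sign -/
def dEquiv (hev : ∀ P, Even (Λ.ord (X.phi P h))) : X.Pt × Bool ≃ DPt X h :=
  Equiv.ofBijective (fun y => if y.2 then lft hev y.1 else dneg (lft hev y.1)) (by
    constructor
    · rintro ⟨P, b⟩ ⟨Q, c⟩ hPQ
      have h1 : P = Q := by
        have h2 := congrArg (fun x : DPt X h => x.1.1) hPQ
        cases b <;> cases c <;> exact h2
      subst h1
      have h2 := congrArg (fun x : DPt X h => x.1.2) hPQ
      have h3 : rt hev P ≠ - rt hev P := by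
        intro h4
        have h5 : (2 : F) * rt hev P = 0 := by
          rw [two_mul]
          nth_rewrite 1 [h4]
          ring
        rcases mul_eq_zero.1 h5 with h6 | h6
        · have h7 : (algebraMap ℂ F 2) = 0 := by
            rw [map_ofNat]
            exact h6
          exact (map_ne_zero (algebraMap ℂ F)).2 (two_ne_zero) h7
        · exact eta_ne (lft hev P) h6
      cases b <;> cases c
      · rfl
      · exfalso
        exact h3 h2.symm
      · exfalso
        exact h3 h2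
      · rfl
    · intro x
      rcases eta_eq_or (lft hev x.1.1) x rfl with h1 | h1
      · exact ⟨(x.1.1, true), h1.symm⟩
      · exact ⟨(x.1.1, false), h1.symm⟩)

theorem dEquiv_true (hev : ∀ P, Even (Λ.ord (X.phi P h))) (P : X.Pt) :
    dEquiv hev (P, true) = lft hev P := rfl

theorem dEquiv_false (hev : ∀ P, Even (Λ.ord (X.phi P h))) (P : X.Pt) :
    dEquiv hev (P, false) = dneg (lft hev P) := rfl

theorem finsum_fib (hev : ∀ P, Even (Λ.ord (X.phi P h))) {f : DPt X h → ℤ}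
    (hf : (Function.support f).Finite) :
    ∑ᶠ x, f x = ∑ᶠ P, (f (lft hev P) + f (dneg (lft hev P))) := by
  rw [← finsum_comp_equiv (dEquiv hev) (f := f), finsum_curry]
  · apply finsum_congr
    intro P
    rw [finsum_eq_sum_of_fintype, Fintype.sum_bool]
    rfl
  · have : (Function.support fun i => f (dEquiv hev i)) = (dEquiv hev) ⁻¹' Function.support f := rfl
    show (Function.support fun i => f (dEquiv hev i)).Finite
    rw [this]
    exact hf.preimage (dEquiv hev).injective.injOn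

variable (X h)

/-- The étale double cover of `X` given by `√h`, where `h` has even orders. -/
@[reducible] def CurveP.dbl (hev : ∀ P, Even (Λ.ord (X.phi P h))) : CurveP Λ (DK h) where
  Pt := DPt X h
  phi := dphi
  finite_ord z hz := finite_dord hz
  sum_ord z hz := by
    rw [finsum_fib hev (finite_dord hz)]
    have h1 : (fun P => Λ.ord (dphi (lft hev P) z) + Λ.ord (dphi (dneg (lft hev P)) z)) =
        fun P => Λ.ord (X.phi P (nrm z)) := by
      funext P
      exact ord_dneg (lft hev P) hz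
    rw [h1]
    exact X.sum_ord _ (nrm_ne hz)

variable {X h}

end dbl

end

end Pool.Agent.YTD.Hyp


end

/- source: Pool.Agent.YTD.CovRR -/

section

/-!
Riemann-Roch in large degrees for étale double covers.
-/

namespace Pool.Agent.YTD.Hyp

open Module

noncomputable section

variable {F : Type} [Field F] [Algebra ℂ F] {Λ : LF F} {K : Type} [Field K] [Algebra ℂ K]
variable {X : CurveP Λ K} {h : K} [hns : NonSqK h]

/-- pull-back of divisors -/
def pb (D : X.Pt →₀ ℤ) : DPt X h →₀ ℤ :=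
  Finsupp.ofSupportFinite (fun x => D x.1.1) (by
    have h1 := finite_preim (X := X) (h := h) (D.support.finite_toSet)
    apply h1.subset
    intro x hx
    simpa using hx)

theorem pb_apply (D : X.Pt →₀ ℤ) (x : DPt X h) : pb D x = D x.1.1 := rfl

theorem deg_pb (hev : ∀ P, Even (Λ.ord (X.phi P h))) (D : X.Pt →₀ ℤ) :
    (X.dbl h hev).toOrd.deg (pb D) = 2 * X.toOrd.deg D := by
  rw [deg_eq_finsum, deg_eq_finsum]
  have h1 : (Function.support fun x : DPt X h => pb D x).Finite := by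
    apply (pb (h := h) D).support.finite_toSet.subset
    intro x hx
    simpa using hx
  show ∑ᶠ x : DPt X h, pb D x = _
  rw [finsum_fib hev h1]
  have h2 : (fun P => pb (h := h) D (lft hev P) + pb D (dneg (lft hev P))) = fun P => 2 * D P := by
    funext P
    show D P + D P = _
    ring
  rw [h2]
  have h3 : (Function.support fun P => D P).Finite := by
    apply D.support.finite_toSet.subset
    intro x hx
    simpa using hx
  exact (mul_finsum (fun P => D P) 2).symm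

/-- half of the divisor of `h` -/
def hdv (X : CurveP Λ K) (h : K) [hns : NonSqK h] : X.Pt →₀ ℤ :=
  Finsupp.ofSupportFinite (fun P => Λ.ord (X.phi P h) / 2) (by
    apply (X.finite_ord h (h_ne (h := h))).subset
    intro P hP h0
    apply hP
    show Λ.ord (X.phi P h) / 2 = 0
    rw [h0]
    rfl)

theorem hdv_apply (P : X.Pt) : hdv X h P = Λ.ord (X.phi P h) / 2 := rfl

theorem hdv_eq (x : DPt X h) : hdv X h x.1.1 = Λ.ord x.1.2 := by
  rw [hdv_apply, ← ord_eta x]
  exact Int.mul_ediv_cancel_left _ two_ne_zero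

theorem deg_hdv (hev : ∀ P, Even (Λ.ord (X.phi P h))) : X.toOrd.deg (hdv X h) = 0 := by
  have h1 : hdv X h + hdv X h = X.toOrd.dv h := by
    ext P
    rw [Finsupp.add_apply, X.toOrd.dv_apply (h_ne (h := h)), hdv_apply]
    show _ = Λ.ord (X.phi P h)
    obtain ⟨m, hm⟩ := hev P
    rw [hm]
    omega
  have h2 := X.toOrd.deg_add (hdv X h) (hdv X h)
  rw [h1, X.toOrd.deg_dv (h_ne (h := h))] at h2
  linarith

theorem two_ord (X : CurveP Λ K) (P : X.Pt) {u : K} (hu : u ≠ 0) :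
    Λ.ord (X.phi P (algebraMap ℂ K 2 * u)) = Λ.ord (X.phi P u) := by
  rw [map_mul, Λ.ord_mul (X.phi_ne P ((map_ne_zero _).2 two_ne_zero)) (X.phi_ne P hu),
    AlgHom.commutes, Λ.ord_const, zero_add]

/-- membership in `L` for the double cover -/
theorem mem_L_dbl (hev : ∀ P, Even (Λ.ord (X.phi P h))) (D : X.Pt →₀ ℤ) (z : DK h) :
    z ∈ (X.dbl h hev).toOrd.L (pb D) ↔
      z.re ∈ X.toOrd.L D ∧ z.im ∈ X.toOrd.L (D + hdv X h) := by
  constructor
  · intro hz
    by_cases h0 : z = 0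
    · rw [h0, QuadraticAlgebra.re_zero, QuadraticAlgebra.im_zero]
      exact ⟨zero_mem _, zero_mem _⟩
    have h1 : ∀ x : DPt X h, - D x.1.1 ≤ Λ.ord (dphi x z) := by
      intro x
      have := hz h0 x
      have h2 : 0 ≤ Λ.ord (dphi x z) + D x.1.1 := this
      linarith
    have h2 : ∀ x : DPt X h, - D x.1.1 ≤ Λ.ord (dphi (dneg x) z) := fun x => h1 (dneg x)
    constructor
    · intro hre P
      have h3 := h1 (lft hev P)
      have h4 := h2 (lft hev P)
      have h5 : dphi (lft hev P) z + dphi (dneg (lft hev P)) z =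
          X.phi P (algebraMap ℂ K 2 * z.re) := by
        rw [dphi_apply, dphi_apply, map_mul, AlgHom.commutes, map_ofNat]
        show X.phi P z.re + X.phi P z.im * rt hev P +
          (X.phi P z.re + X.phi P z.im * (- rt hev P)) = _
        ring
      have h6 : dphi (lft hev P) z + dphi (dneg (lft hev P)) z ≠ 0 := by
        rw [h5]
        exact X.phi_ne P (mul_ne_zero ((map_ne_zero _).2 two_ne_zero) hre)
      have h7 := Λ.ord_add h6
      rw [h5, two_ord X P hre] at h7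
      have h8 := le_trans (le_min h3 h4) h7
      show 0 ≤ Λ.ord (X.phi P z.re) + D P
      have h9 : - D P ≤ Λ.ord (X.phi P z.re) := h8
      linarith
    · intro him P
      have h3 := h1 (lft hev P)
      have h4 := h2 (lft hev P)
      have h5 : dphi (lft hev P) z + - dphi (dneg (lft hev P)) z =
          X.phi P (algebraMap ℂ K 2 * z.im) * rt hev P := by
        rw [dphi_apply, dphi_apply, map_mul, AlgHom.commutes, map_ofNat]
        show X.phi P z.re + X.phi P z.im * rt hev P +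
          - (X.phi P z.re + X.phi P z.im * (- rt hev P)) = _
        ring
      have hr : rt hev P ≠ 0 := eta_ne (lft hev P)
      have h2' : X.phi P (algebraMap ℂ K 2 * z.im) ≠ 0 :=
        X.phi_ne P (mul_ne_zero ((map_ne_zero _).2 two_ne_zero) him)
      have h6 : dphi (lft hev P) z + - dphi (dneg (lft hev P)) z ≠ 0 := by
        rw [h5]
        exact mul_ne_zero h2' hr
      have h7 := Λ.ord_add h6
      rw [h5, Λ.ord_mul h2' hr, two_ord X P him, LF.ord_neg] at h7
      have h8 := le_trans (le_min h3 h4) h7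
      have h9 : - D P ≤ Λ.ord (X.phi P z.im) + Λ.ord (rt hev P) := h8
      have h10 : hdv X h P = Λ.ord (rt hev P) := hdv_eq (lft hev P)
      show 0 ≤ Λ.ord (X.phi P z.im) + (D + hdv X h) P
      rw [Finsupp.add_apply, h10]
      linarith
  · rintro ⟨h1, h2⟩ h0 x
    show 0 ≤ Λ.ord (dphi x z) + D x.1.1
    have h3 : - D x.1.1 ≤ Λ.ord (dphi x z) := by
      apply le_ord_dphi x h0
      · intro hre
        have : 0 ≤ Λ.ord (X.phi x.1.1 z.re) + D x.1.1 := h1 hre x.1.1
        linarith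
      · intro him
        have : 0 ≤ Λ.ord (X.phi x.1.1 z.im) + (D + hdv X h) x.1.1 := h2 him x.1.1
        rw [Finsupp.add_apply, hdv_eq] at this
        linarith
    linarith

/-- the linear equivalence -/
def lEquiv (hev : ∀ P, Even (Λ.ord (X.phi P h))) (D : X.Pt →₀ ℤ) :
    (X.dbl h hev).toOrd.L (pb D) ≃ₗ[ℂ] (X.toOrd.L D × X.toOrd.L (D + hdv X h)) where
  toFun z := (⟨z.1.re, ((mem_L_dbl hev D z.1).1 z.2).1⟩, ⟨z.1.im, ((mem_L_dbl hev D z.1).1 z.2).2⟩)
  invFun p := ⟨⟨p.1, p.2⟩, (mem_L_dbl hev D _).2 ⟨p.1.2, p.2.2⟩⟩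
  map_add' z w := rfl
  map_smul' c z := rfl
  left_inv z := rfl
  right_inv p := rfl

theorem finrank_pb (hev : ∀ P, Even (Λ.ord (X.phi P h))) (P₀ : X.Pt) (D : X.Pt →₀ ℤ) :
    finrank ℂ ((X.dbl h hev).toOrd.L (pb D)) =
      finrank ℂ (X.toOrd.L D) + finrank ℂ (X.toOrd.L (D + hdv X h)) := by
  haveI : Nonempty X.toOrd.Pt := ⟨P₀⟩
  haveI := CurveOrd.finite_L' X.res D
  haveI := CurveOrd.finite_L' X.res (D + hdv X h)
  rw [(lEquiv hev D).finrank_eq, finrank_prod]

/-- every divisor is bounded by a pull-back of large degree -/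
theorem exists_pb_ge (P₀ : X.Pt) (E : DPt X h →₀ ℤ) (c : ℤ) :
    ∃ D : X.Pt →₀ ℤ, (∀ x, E x ≤ pb D x) ∧ c ≤ X.toOrd.deg D := by
  classical
  have key : ∃ D : X.Pt →₀ ℤ, (∀ x, E x ≤ pb D x) ∧ ∀ P, 0 ≤ D P := by
    induction E using Finsupp.induction_linear with
    | zero => exact ⟨0, fun x => le_rfl, fun P => le_rfl⟩
    | add A B hA hB =>
      obtain ⟨D, h1, h2⟩ := hA
      obtain ⟨D', h3, h4⟩ := hB
      refine ⟨D + D', ?_, ?_⟩
      · intro x
        rw [Finsupp.add_apply, pb_apply, Finsupp.add_apply]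
        exact add_le_add (h1 x) (h3 x)
      · intro P
        rw [Finsupp.add_apply]
        exact add_nonneg (h2 P) (h4 P)
    | single y n =>
      refine ⟨Finsupp.single y.1.1 |n|, ?_, ?_⟩
      · intro x
        rw [pb_apply]
        by_cases hx : x = y
        · subst hx
          rw [Finsupp.single_eq_same, Finsupp.single_eq_same]
          exact le_abs_self n
        · rw [Finsupp.single_eq_of_ne hx]
          rw [Finsupp.single_apply]
          split_ifs
          · exact abs_nonneg n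
          · exact le_rfl
      · intro P
        rw [Finsupp.single_apply]
        split_ifs
        · exact abs_nonneg n
        · exact le_rfl
  obtain ⟨D, h1, h2⟩ := key
  refine ⟨D + Finsupp.single P₀ |c|, ?_, ?_⟩
  · intro x
    have h3 := h1 x
    rw [pb_apply] at h3 ⊢
    rw [Finsupp.add_apply, Finsupp.single_apply]
    split_ifs
    · have := abs_nonneg c
      linarith
    · linarith
  · rw [X.toOrd.deg_add, X.toOrd.deg_single]
    have h3 := X.toOrd.deg_nonneg h2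
    have := le_abs_self c
    linarith

/-- Riemann-Roch in large degrees from Riemann-Roch for a cofinal set of divisors. -/
theorem rrl_of {K' : Type} [Field K'] [Algebra ℂ K'] (Y : CurveOrd K') (hR : Y.Res) (P₀ : Y.Pt)
    (g' : ℤ) (A : Set (Y.Pt →₀ ℤ)) (hA : ∀ E : Y.Pt →₀ ℤ, ∃ D ∈ A, ∀ x, E x ≤ D x)
    (h1 : ∀ D ∈ A, (finrank ℂ (Y.L D) : ℤ) = Y.deg D + 1 - g') :
    ∃ c : ℤ, ∀ D : Y.Pt →₀ ℤ, c ≤ Y.deg D → (finrank ℂ (Y.L D) : ℤ) = Y.deg D + 1 - g' := by
  haveI : Nonempty Y.Pt := ⟨P₀⟩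
  have h2 : ∀ E : Y.Pt →₀ ℤ, Y.deg E + 1 - g' ≤ finrank ℂ (Y.L E) := by
    intro E
    obtain ⟨D, hD1, hD2⟩ := hA E
    have h3 := CurveOrd.finrank_L_mono hR hD2
    rw [h1 D hD1] at h3
    linarith
  obtain ⟨D₁, hD₁, _⟩ := hA 0
  refine ⟨Y.deg D₁ + g', ?_⟩
  intro E hE
  apply le_antisymm _ (h2 E)
  have h3 := h2 (E - D₁)
  rw [Y.deg_sub] at h3
  have h4 : 0 < finrank ℂ (Y.L (E - D₁)) := by
    have h5 : (0 : ℤ) < finrank ℂ (Y.L (E - D₁)) := by
      linarith
    exact_mod_cast h5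
  have h5 : Y.L (E - D₁) ≠ ⊥ := by
    intro h6
    rw [h6, finrank_bot] at h4
    exact lt_irrefl 0 h4
  obtain ⟨z, hz, hz0⟩ := Submodule.exists_mem_ne_zero_of_ne_bot h5
  have h6 : ∀ x, D₁ x ≤ (E + Y.dv z) x := by
    intro x
    have h7 := hz hz0 x
    rw [Finsupp.sub_apply] at h7
    rw [Finsupp.add_apply, Y.dv_apply hz0]
    linarith
  have h7 := CurveOrd.finrank_L_mono hR h6
  rw [CurveOrd.finrank_L_add_dv E hz0, Y.deg_add, Y.deg_dv hz0, add_zero, h1 D₁ hD₁] at h7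
  linarith

/-- Riemann-Roch in large degrees for the double cover. -/
theorem CurveP.RRL.dbl {g : ℤ} (hg : X.RRL g) (hev : ∀ P, Even (Λ.ord (X.phi P h)))
    (P₀ : X.Pt) : (X.dbl h hev).RRL (2 * g - 1) := by
  obtain ⟨c, hc⟩ := hg
  apply rrl_of (X.dbl h hev).toOrd (X.dbl h hev).res (lft hev P₀) (2 * g - 1)
    {E | ∃ D : X.Pt →₀ ℤ, c ≤ X.toOrd.deg D ∧ E = pb D}
  · intro E
    obtain ⟨D, hD1, hD2⟩ := exists_pb_ge P₀ E c
    exact ⟨pb D, ⟨D, hD2, rfl⟩, hD1⟩
  · rintro _ ⟨D, hD, rfl⟩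
    have e1 : X.toOrd.deg (D + hdv X h) = X.toOrd.deg D := by
      rw [X.toOrd.deg_add, deg_hdv hev, add_zero]
    have e2 := hc D hD
    have e3 := hc (D + hdv X h) (by rw [e1]; exact hD)
    rw [finrank_pb hev P₀ D, deg_pb hev D]
    push_cast
    rw [e2, e3, e1]
    ring

end

end Pool.Agent.YTD.Hyp


end

/- source: Pool.Agent.YTD.CovDeck -/

section

/-!
Deck transformations of étale double covers, and squares in quadratic extensions.
-/

namespace Pool.Agent.YTD.Hyp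

open Module

noncomputable section

/-! ### Squares -/

theorem sq_of_sq {K : Type} [Field K] [CharZero K] {h u : K} {r : DK h}
    (hr : r ^ 2 = algebraMap K (DK h) u) : (∃ a : K, a ^ 2 = u) ∨ ∃ a : K, a ^ 2 = u * h := by
  have h1 := congrArg QuadraticAlgebra.re hr
  have h2 := congrArg QuadraticAlgebra.im hr
  rw [sq, QuadraticAlgebra.re_mul] at h1
  rw [sq, QuadraticAlgebra.im_mul] at h2
  have h3 : (algebraMap K (DK h) u).re = u := rfl
  have h4 : (algebraMap K (DK h) u).im = 0 := rfl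
  rw [h3] at h1
  rw [h4] at h2
  have h5 : (2 : K) * (r.re * r.im) = 0 := by
    linear_combination h2
  rcases mul_eq_zero.1 h5 with h6 | h6
  · exact absurd h6 two_ne_zero
  rcases mul_eq_zero.1 h6 with h7 | h7
  · right
    refine ⟨h * r.im, ?_⟩
    rw [h7] at h1
    linear_combination h * h1
  · left
    refine ⟨r.re, ?_⟩
    rw [h7] at h1
    linear_combination h1

theorem nonSqK_of {K : Type} [Field K] [CharZero K] {h u : K} (h1 : ∀ a : K, a ^ 2 ≠ u)
    (h2 : ∀ a : K, a ^ 2 ≠ u * h) : ∀ r : DK h, r ^ 2 ≠ algebraMap K (DK h) u := by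
  intro r hr
  rcases sq_of_sq hr with ⟨a, ha⟩ | ⟨a, ha⟩
  · exact h1 a ha
  · exact h2 a ha

theorem NonSqK.mk' {K : Type} [Field K] {h : K} (h1 : ∀ a : K, a ^ 2 ≠ h) : NonSqK h := by
  refine ⟨?_⟩
  intro r hr
  rw [zero_mul, add_zero] at hr
  exact h1 r hr

/-! ### Deck transformations -/

variable {F : Type} [Field F] [Algebra ℂ F] {Λ : LF F} {K : Type} [Field K] [Algebra ℂ K]

/-- An involution of the curve compatible with the parametrisations. -/
structure Deck (X : CurveP Λ K) where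
  θ : K ≃ₐ[ℂ] K
  σ : X.Pt → X.Pt
  θθ : ∀ z, θ (θ z) = z
  σσ : ∀ P, σ (σ P) = P
  comp : ∀ P z, X.phi (σ P) (θ z) = X.phi P z

variable {X : CurveP Λ K} {h : K}

/-- extension of an automorphism fixing `h` -/
def liftHom (θ : K ≃ₐ[ℂ] K) (hθ : θ h = h) : DK h →ₐ[ℂ] DK h where
  toFun z := ⟨θ z.re, θ z.im⟩
  map_one' := by
    apply QuadraticAlgebra.ext
    · show θ (1 : DK h).re = (1 : DK h).re
      rw [QuadraticAlgebra.re_one, map_one]
    · show θ (1 : DK h).im = (1 : DK h).im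
      rw [QuadraticAlgebra.im_one, map_zero]
  map_zero' := by
    apply QuadraticAlgebra.ext
    · show θ (0 : DK h).re = (0 : DK h).re
      rw [QuadraticAlgebra.re_zero, map_zero]
    · show θ (0 : DK h).im = (0 : DK h).im
      rw [QuadraticAlgebra.im_zero, map_zero]
  map_mul' z w := by
    apply QuadraticAlgebra.ext
    · show θ (z * w).re = ((⟨θ z.re, θ z.im⟩ : DK h) * ⟨θ w.re, θ w.im⟩).re
      simp only [QuadraticAlgebra.re_mul, map_add, map_mul, hθ]
    · show θ (z * w).im = ((⟨θ z.re, θ z.im⟩ : DK h) * ⟨θ w.re, θ w.im⟩).im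
      simp only [QuadraticAlgebra.im_mul, map_add, map_mul, map_zero]
  map_add' z w := by
    apply QuadraticAlgebra.ext
    · show θ (z + w).re = ((⟨θ z.re, θ z.im⟩ : DK h) + ⟨θ w.re, θ w.im⟩).re
      simp only [QuadraticAlgebra.re_add, map_add]
    · show θ (z + w).im = ((⟨θ z.re, θ z.im⟩ : DK h) + ⟨θ w.re, θ w.im⟩).im
      simp only [QuadraticAlgebra.im_add, map_add]
  commutes' c := by
    have h1 : (algebraMap ℂ (DK h) c).re = algebraMap ℂ K c := rfl
    have h2 : (algebraMap ℂ (DK h) c).im = 0 := rfl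
    apply QuadraticAlgebra.ext
    · show θ (algebraMap ℂ (DK h) c).re = (algebraMap ℂ (DK h) c).re
      rw [h1, AlgEquiv.commutes]
    · show θ (algebraMap ℂ (DK h) c).im = (algebraMap ℂ (DK h) c).im
      rw [h2, map_zero]

/-- conjugation -/
def conjHom (h : K) : DK h →ₐ[ℂ] DK h where
  toFun z := ⟨z.re, -z.im⟩
  map_one' := by
    apply QuadraticAlgebra.ext
    · rfl
    · show - (1 : DK h).im = (1 : DK h).im
      rw [QuadraticAlgebra.im_one, neg_zero]
  map_zero' := by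
    apply QuadraticAlgebra.ext
    · rfl
    · show - (0 : DK h).im = (0 : DK h).im
      rw [QuadraticAlgebra.im_zero, neg_zero]
  map_mul' z w := by
    apply QuadraticAlgebra.ext
    · show (z * w).re = ((⟨z.re, -z.im⟩ : DK h) * ⟨w.re, -w.im⟩).re
      simp only [QuadraticAlgebra.re_mul]
      ring
    · show - (z * w).im = ((⟨z.re, -z.im⟩ : DK h) * ⟨w.re, -w.im⟩).im
      simp only [QuadraticAlgebra.im_mul]
      ring
  map_add' z w := by
    apply QuadraticAlgebra.ext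
    · show (z + w).re = ((⟨z.re, -z.im⟩ : DK h) + ⟨w.re, -w.im⟩).re
      simp only [QuadraticAlgebra.re_add]
    · show - (z + w).im = ((⟨z.re, -z.im⟩ : DK h) + ⟨w.re, -w.im⟩).im
      simp only [QuadraticAlgebra.im_add]
      ring
  commutes' c := by
    have h2 : (algebraMap ℂ (DK h) c).im = 0 := rfl
    apply QuadraticAlgebra.ext
    · rfl
    · show - (algebraMap ℂ (DK h) c).im = (algebraMap ℂ (DK h) c).im
      rw [h2, neg_zero]

theorem conjHom_alg (h u : K) : conjHom h (algebraMap K (DK h) u) = algebraMap K (DK h) u := by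
  apply QuadraticAlgebra.ext
  · rfl
  · show - (0 : K) = 0
    rw [neg_zero]

theorem liftHom_alg (θ : K ≃ₐ[ℂ] K) (hθ : θ h = h) (u : K) :
    liftHom θ hθ (algebraMap K (DK h) u) = algebraMap K (DK h) (θ u) := by
  apply QuadraticAlgebra.ext
  · rfl
  · show θ 0 = 0
    rw [map_zero]

/-- extension of an involution -/
def liftEquiv (θ : K ≃ₐ[ℂ] K) (hθ : θ h = h) (hθθ : ∀ z, θ (θ z) = z) : DK h ≃ₐ[ℂ] DK h :=
  AlgEquiv.ofAlgHom (liftHom θ hθ) (liftHom θ hθ)
    (AlgHom.ext fun z => QuadraticAlgebra.ext (hθθ z.re) (hθθ z.im))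
    (AlgHom.ext fun z => QuadraticAlgebra.ext (hθθ z.re) (hθθ z.im))

/-- conjugation as an automorphism -/
def conjEquiv (h : K) : DK h ≃ₐ[ℂ] DK h :=
  AlgEquiv.ofAlgHom (conjHom h) (conjHom h)
    (AlgHom.ext fun z => QuadraticAlgebra.ext rfl (neg_neg z.im))
    (AlgHom.ext fun z => QuadraticAlgebra.ext rfl (neg_neg z.im))

variable [hns : NonSqK h] {hev : ∀ P, Even (Λ.ord (X.phi P h))}

/-- the deck transformation of the double cover -/
def deckConj (hev : ∀ P, Even (Λ.ord (X.phi P h))) : Deck (X.dbl h hev) where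
  θ := conjEquiv h
  σ := dneg
  θθ z := QuadraticAlgebra.ext rfl (neg_neg z.im)
  σσ := dneg_dneg
  comp x z := by
    show dphi (dneg x) (conjHom h z) = dphi x z
    rw [dphi_apply, dphi_apply]
    show X.phi x.1.1 z.re + X.phi x.1.1 (- z.im) * (- x.1.2) = _
    rw [map_neg]
    ring

/-- extension of an involution on points -/
def liftPt (δ : Deck X) (hδ : δ.θ h = h) (x : DPt X h) : DPt X h :=
  ⟨(δ.σ x.1.1, x.1.2), by
    show x.1.2 ^ 2 = X.phi (δ.σ x.1.1) h
    have h1 := δ.comp x.1.1 h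
    rw [hδ] at h1
    rw [h1, x.2]⟩

/-- extension of an involution of the curve to the double cover -/
def Deck.lift (δ : Deck X) (hδ : δ.θ h = h) (hev : ∀ P, Even (Λ.ord (X.phi P h))) :
    Deck (X.dbl h hev) where
  θ := liftEquiv δ.θ hδ δ.θθ
  σ := liftPt δ hδ
  θθ z := QuadraticAlgebra.ext (δ.θθ z.re) (δ.θθ z.im)
  σσ x := by
    apply Subtype.ext
    apply Prod.ext
    · exact δ.σσ x.1.1
    · rfl
  comp x z := by
    show dphi (liftPt δ hδ x) (liftHom δ.θ hδ z) = dphi x z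
    rw [dphi_apply, dphi_apply]
    show X.phi (δ.σ x.1.1) (δ.θ z.re) + X.phi (δ.σ x.1.1) (δ.θ z.im) * x.1.2 = _
    rw [δ.comp, δ.comp]

/-- two commuting involutions -/
structure Deck.Comm (δ ε : Deck X) : Prop where
  θ : ∀ z, δ.θ (ε.θ z) = ε.θ (δ.θ z)
  σ : ∀ P, δ.σ (ε.σ P) = ε.σ (δ.σ P)

theorem Deck.Comm.lift {δ ε : Deck X} (c : δ.Comm ε) (hδ : δ.θ h = h) (hε : ε.θ h = h) :
    (δ.lift hδ hev).Comm (ε.lift hε hev) where
  θ z := QuadraticAlgebra.ext (c.θ z.re) (c.θ z.im)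
  σ x := by
    apply Subtype.ext
    apply Prod.ext
    · exact c.σ x.1.1
    · rfl

theorem Deck.lift_comm_conj (δ : Deck X) (hδ : δ.θ h = h) :
    (δ.lift hδ hev).Comm (deckConj hev) where
  θ z := QuadraticAlgebra.ext rfl (map_neg δ.θ z.im)
  σ x := by
    apply Subtype.ext
    apply Prod.ext
    · rfl
    · rfl

theorem Deck.Comm.symm {δ ε : Deck X} (c : δ.Comm ε) : ε.Comm δ :=
  ⟨fun z => (c.θ z).symm, fun P => (c.σ P).symm⟩

theorem dneg_ne [CharZero F] (x : DPt X h) : dneg x ≠ x := by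
  intro h1
  have h2 : - x.1.2 = x.1.2 := congrArg (fun y : DPt X h => y.1.2) h1
  exact eta_ne x (self_eq_neg.1 h2.symm)

end

end Pool.Agent.YTD.Hyp


end

/- source: Pool.Agent.YTD.CovTower -/

section

/-!
The tower of three étale double covers of a hyperelliptic curve.
-/

namespace Pool.Agent.YTD.Hyp

open Polynomial Module

noncomputable section

variable {F : Type} [Field F] [Algebra ℂ F] {Λ : LF F} {f : ℂ[X]}

/-- the hyperelliptic curve with its parametrisations -/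
@[reducible] def baseP (Λ : LF F) (G : Good f) [NonSq f] : CurveP Λ (KK f) where
  Pt := Pts f
  phi P := (parAt Λ G.ne P).phi
  finite_ord _ hz := finite_ordAt G.ne hz
  sum_ord _ hz := tot_eq_zero G hz

theorem baseP_rrl (Λ : LF F) (G : Good f) [NonSq f] {g : ℕ} (hg : f.natDegree = 2 * g + 1) :
    (baseP Λ G).RRL g := by
  refine ⟨2 * g - 1, fun D hD => ?_⟩
  exact (curve Λ G hg).riemann_roch D (by
    have h1 : 2 * (g : ℤ) - 1 ≤ (cOrd Λ G).deg D := hD
    show 2 * (g : ℤ) - 2 < (cOrd Λ G).deg D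
    linarith)

/-! ### Nonsquares -/

theorem ratfunc_not_sq (Λ : LF F) (a : ℂ) {q : ℂ[X]} (hq : q.eval a ≠ 0) (r : RatFunc ℂ) :
    r ^ 2 ≠ algebraMap ℂ[X] (RatFunc ℂ) ((X - C a) * q) := by
  intro hr
  have hq0 : q ≠ 0 := by
    rintro rfl
    simp at hq
  have hθ : ∀ c : ℂ, thA Λ 1 a - algebraMap ℂ F c ≠ 0 := thA_sub_ne (by norm_num) a
  let P : Par F (1 : ℂ[X]) := ⟨thA Λ 1 a, 1, by simp, hθ⟩
  have h1 : P.psi r ^ 2 = aeval (thA Λ 1 a) ((X - C a) * q) := by
    rw [← map_pow, hr, P.psi_algebraMap]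
  have hr0 : r ≠ 0 := by
    rintro rfl
    rw [map_zero] at h1
    have h2 := aeval_ne_of hθ _ (mul_ne_zero (X_sub_C_ne_zero a) hq0)
    rw [← h1] at h2
    exact h2 (by ring)
  have h2 : Λ.ord (P.psi r ^ 2) = 2 * Λ.ord (P.psi r) := by
    rw [LF.ord_pow ((_root_.map_ne_zero _).2 hr0)]
    rfl
  have h3 : Λ.ord (aeval (thA Λ 1 a) ((X - C a) * q)) = 1 := by
    rw [map_mul, Λ.ord_mul (aeval_ne_of hθ _ (X_sub_C_ne_zero a)) (aeval_ne_of hθ _ hq0),
      ((ord_aff (by norm_num) a q hq0).1 hq).1, aeval_X_sub_C, thA_sub_self, ord_s_pow]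
    norm_num
  rw [h1, h3] at h2
  omega

theorem charZero_of_alg (K : Type) [Field K] [Algebra ℂ K] : CharZero K :=
  charZero_of_injective_algebraMap (algebraMap ℂ K).injective

theorem nonsq0 (Λ : LF F) (G : Good f) {a b : ℂ} {p q : ℂ[X]} (hp : p = (X - C a) * q)
    (hq : q.eval a ≠ 0) (hb : f.eval b = 0) (hpb : p.eval b ≠ 0) :
    ∀ r : KK f, r ^ 2 ≠ emb p := by
  haveI := charZero_of_alg (RatFunc ℂ)
  apply nonSqK_of
  · intro r
    rw [hp]
    exact ratfunc_not_sq Λ a hq r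
  · intro r
    obtain ⟨q', hq', hq0'⟩ := G.simple b hb
    have e : algebraMap ℂ[X] (RatFunc ℂ) p * algebraMap ℂ[X] (RatFunc ℂ) f =
        algebraMap ℂ[X] (RatFunc ℂ) ((X - C b) * (p * q')) := by
      rw [← map_mul]
      congr 1
      nth_rewrite 1 [hq']
      ring
    rw [e]
    apply ratfunc_not_sq Λ b
    rw [eval_mul]
    exact mul_ne_zero hpb hq0'

/-- the first radicand -/
abbrev hh₁ (f : ℂ[X]) (a₁ : ℂ) : KK f := emb (X - C a₁)

/-- the second radicand -/
abbrev hh₂ (f : ℂ[X]) (a₁ a₂ : ℂ) [NonSq f] : DK (hh₁ f a₁) :=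
  algebraMap (KK f) (DK (hh₁ f a₁)) (emb (X - C a₂))

/-- the third radicand -/
abbrev hh₃ (f : ℂ[X]) (a₁ a₂ a₃ : ℂ) [NonSq f] [NonSqK (hh₁ f a₁)] : DK (hh₂ f a₁ a₂) :=
  algebraMap (DK (hh₁ f a₁)) (DK (hh₂ f a₁ a₂))
    (algebraMap (KK f) (DK (hh₁ f a₁)) (emb (X - C a₃)))

section nonsq

variable [NonSq f] (Λ) (G : Good f) {a₁ a₂ a₃ b : ℂ} (hb : f.eval b = 0)
  (h12 : a₁ ≠ a₂) (h13 : a₁ ≠ a₃) (h23 : a₂ ≠ a₃) (h1b : a₁ ≠ b) (h2b : a₂ ≠ b) (h3b : a₃ ≠ b)

include Λ G hb

include h1b in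
theorem ns₁ : NonSqK (hh₁ f a₁) := by
  apply NonSqK.mk'
  apply nonsq0 Λ G (a := a₁) (q := 1) (by ring) (by simp) hb
  simp only [eval_sub, eval_X, eval_C]
  exact sub_ne_zero.2 h1b.symm

include h1b h2b h12 in
theorem ns₂ : ∀ r : DK (hh₁ f a₁), r ^ 2 ≠ hh₂ f a₁ a₂ := by
  haveI := charZero_of_alg (KK f)
  apply nonSqK_of
  · apply nonsq0 Λ G (a := a₂) (q := 1) (by ring) (by simp) hb
    simp only [eval_sub, eval_X, eval_C]
    exact sub_ne_zero.2 h2b.symm
  · intro r
    rw [hh₁, ← emb_mul]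
    apply nonsq0 Λ G (a := a₂) (q := X - C a₁) rfl _ hb
    · simp only [eval_mul, eval_sub, eval_X, eval_C]
      exact mul_ne_zero (sub_ne_zero.2 h2b.symm) (sub_ne_zero.2 h1b.symm)
    · simp only [eval_sub, eval_X, eval_C]
      exact sub_ne_zero.2 h12.symm

include h1b h2b h3b h12 h13 h23 in
theorem ns₃ [NonSqK (hh₁ f a₁)] : ∀ r : DK (hh₂ f a₁ a₂), r ^ 2 ≠ hh₃ f a₁ a₂ a₃ := by
  haveI := charZero_of_alg (KK f)
  haveI := charZero_of_alg (DK (hh₁ f a₁))
  apply nonSqK_of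
  · apply ns₂ Λ G hb h13 h1b h3b
  · intro r
    have e : algebraMap (KK f) (DK (hh₁ f a₁)) (emb (X - C a₃)) * hh₂ f a₁ a₂ =
        algebraMap (KK f) (DK (hh₁ f a₁)) (emb ((X - C a₃) * (X - C a₂))) := by
      rw [emb_mul, map_mul]
    rw [e]
    revert r
    apply nonSqK_of
    · apply nonsq0 Λ G (a := a₃) (q := X - C a₂) rfl _ hb
      · simp only [eval_mul, eval_sub, eval_X, eval_C]
        exact mul_ne_zero (sub_ne_zero.2 h3b.symm) (sub_ne_zero.2 h2b.symm)
      · simp only [eval_sub, eval_X, eval_C]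
        exact sub_ne_zero.2 h23.symm
    · intro r
      rw [hh₁, ← emb_mul]
      apply nonsq0 Λ G (a := a₃) (q := (X - C a₂) * (X - C a₁)) (by ring) _ hb
      · simp only [eval_mul, eval_sub, eval_X, eval_C]
        exact mul_ne_zero (mul_ne_zero (sub_ne_zero.2 h3b.symm) (sub_ne_zero.2 h2b.symm))
          (sub_ne_zero.2 h1b.symm)
      · simp only [eval_mul, eval_sub, eval_X, eval_C]
        exact mul_ne_zero (sub_ne_zero.2 h23.symm) (sub_ne_zero.2 h13.symm)

end nonsq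

/-! ### Even orders -/

theorem even_emb (G : Good f) {a : ℂ} (ha : f.eval a = 0) (P : Pts f) :
    Even (ordAt Λ G.ne P (emb (X - C a))) := by
  rcases P with _ | P
  · rw [ordAt_emb_none G.ne (X_sub_C_ne_zero a)]
    exact Even.mul_right (by decide) _
  · by_cases h : P.1.1 = a
    · subst h
      rw [ordAt_X_sub_C_self]
      have h1 : P.1.2 = 0 := by
        have h2 := P.2
        rw [ha] at h2
        exact pow_eq_zero_iff (two_ne_zero) |>.1 h2
      unfold ram
      rw [if_pos h1]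
      exact even_two
    · rw [ordAt_emb_zero G.ne P]
      · exact Even.zero
      · simp only [eval_sub, eval_X, eval_C]
        exact sub_ne_zero.2 h

theorem dphi_alg {K : Type} [Field K] [Algebra ℂ K] {X : CurveP Λ K} {h : K} (x : DPt X h)
    (u : K) : dphi x (algebraMap K (DK h) u) = X.phi x.1.1 u := by
  rw [dphi_apply]
  show X.phi x.1.1 u + X.phi x.1.1 0 * x.1.2 = _
  rw [map_zero]
  ring

section tower

variable [NonSq f] (G : Good f) {a₁ a₂ a₃ : ℂ} [NonSqK (hh₁ f a₁)] [NonSqK (hh₂ f a₁ a₂)]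
  [NonSqK (hh₃ f a₁ a₂ a₃)]

theorem ev₁ (h1 : f.eval a₁ = 0) :
    ∀ P, Even (Λ.ord ((baseP Λ G).phi P (hh₁ f a₁))) := even_emb G h1

theorem ev₂ (h1 : f.eval a₁ = 0) (h2 : f.eval a₂ = 0) :
    ∀ P, Even (Λ.ord (((baseP Λ G).dbl (hh₁ f a₁) (ev₁ G h1)).phi P (hh₂ f a₁ a₂))) := by
  intro P
  show Even (Λ.ord (dphi P (hh₂ f a₁ a₂)))
  rw [dphi_alg]
  exact even_emb G h2 _

theorem ev₃ (h1 : f.eval a₁ = 0) (h2 : f.eval a₂ = 0) (h3 : f.eval a₃ = 0) :
    ∀ P, Even (Λ.ord ((((baseP Λ G).dbl (hh₁ f a₁) (ev₁ G h1)).dbl (hh₂ f a₁ a₂)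
      (ev₂ G h1 h2)).phi P (hh₃ f a₁ a₂ a₃))) := by
  intro P
  show Even (Λ.ord (dphi P (hh₃ f a₁ a₂ a₃)))
  rw [dphi_alg]
  show Even (Λ.ord (dphi P.1.1 _))
  rw [dphi_alg]
  exact even_emb G h3 _

variable (h1 : f.eval a₁ = 0) (h2 : f.eval a₂ = 0) (h3 : f.eval a₃ = 0)

/-- first cover -/
@[reducible] def X₁ (Λ : LF F) : CurveP Λ (DK (hh₁ f a₁)) := (baseP Λ G).dbl (hh₁ f a₁) (ev₁ G h1)

/-- second cover -/
@[reducible] def X₂ (Λ : LF F) : CurveP Λ (DK (hh₂ f a₁ a₂)) :=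
  (X₁ G h1 Λ).dbl (hh₂ f a₁ a₂) (ev₂ G h1 h2)

/-- third cover -/
@[reducible] def X₃ (Λ : LF F) : CurveP Λ (DK (hh₃ f a₁ a₂ a₃)) :=
  (X₂ G h1 h2 Λ).dbl (hh₃ f a₁ a₂ a₃) (ev₃ G h1 h2 h3)

theorem X₃_rrl {g : ℕ} (hg : f.natDegree = 2 * g + 1) :
    (X₃ G h1 h2 h3 Λ).RRL (8 * g - 7) := by
  have e0 := baseP_rrl Λ G hg
  have e1 := e0.dbl (ev₁ G h1) none
  have e2 := e1.dbl (ev₂ G h1 h2) (lft (ev₁ G h1) none)
  have e3 := e2.dbl (ev₃ G h1 h2 h3) (lft (ev₂ G h1 h2) (lft (ev₁ G h1) none))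
  have e : (2 * (2 * (2 * (g : ℤ) - 1) - 1) - 1) = 8 * g - 7 := by ring
  rw [e] at e3
  exact e3

/-! ### The group -/

/-- third involution -/
def dk₃ : Deck (X₃ G h1 h2 h3 Λ) := deckConj (ev₃ G h1 h2 h3)

/-- second involution -/
def dk₂ : Deck (X₃ G h1 h2 h3 Λ) :=
  (deckConj (ev₂ G h1 h2)).lift (conjHom_alg _ _) (ev₃ G h1 h2 h3)

/-- first involution -/
def dk₁ : Deck (X₃ G h1 h2 h3 Λ) :=
  ((deckConj (ev₁ G h1)).lift (conjHom_alg _ _) (ev₂ G h1 h2)).lift (by
    show liftHom (conjEquiv (hh₁ f a₁)) (conjHom_alg _ _) (hh₃ f a₁ a₂ a₃) = hh₃ f a₁ a₂ a₃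
    rw [liftHom_alg]
    congr 1
    exact conjHom_alg _ _) (ev₃ G h1 h2 h3)

theorem comm₂₃ : (dk₂ (Λ := Λ) G h1 h2 h3).Comm (dk₃ G h1 h2 h3) := Deck.lift_comm_conj _ _

theorem comm₁₃ : (dk₁ (Λ := Λ) G h1 h2 h3).Comm (dk₃ G h1 h2 h3) := Deck.lift_comm_conj _ _

theorem comm₁₂ : (dk₁ (Λ := Λ) G h1 h2 h3).Comm (dk₂ G h1 h2 h3) :=
  Deck.Comm.lift (Deck.lift_comm_conj _ _) _ _

end tower

end

end Pool.Agent.YTD.Hyp


end

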