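import Pool.Agent.YTDM.P13
import Pool.Agent.YTDM.P15

/- source: Pool.Agent.YTD.HypTau -/

section

/-!
The involution `(x, y) ↦ (1/x, -y/x^(g+1))` of the curve `y² = x^(2g+1) + x`, `g` odd.
-/

namespace Pool.Agent.YTD.Hyp

open Polynomial Module

noncomputable section

variable {F : Type} [Field F] [Algebra ℂ F] {Λ : LF F}

/-- conjugation as an algebra homomorphism -/
def starHom (f : ℂ[X]) : KK f →ₐ[ℂ] KK f where
  toFun := star
  map_one' := by simp
  map_mul' z w := by rw [star_mul, mul_comm]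
  map_zero' := by simp
  map_add' z w := by simp
  commutes' c := by
    apply QuadraticAlgebra.ext
    · rw [QuadraticAlgebra.re_star, zero_mul, add_zero]
    · rw [QuadraticAlgebra.im_star]
      have : (algebraMap ℂ (KK f) c).im = 0 := rfl
      rw [this, neg_zero]

theorem starHom_apply {f : ℂ[X]} (z : KK f) : starHom f z = star z := rfl

theorem star_emb {f : ℂ[X]} (p : ℂ[X]) : star (emb p : KK f) = emb p := by
  apply QuadraticAlgebra.ext
  · rw [QuadraticAlgebra.re_star, zero_mul, add_zero]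
  · rw [QuadraticAlgebra.im_star]
    have : (emb p : KK f).im = 0 := rfl
    rw [this, neg_zero]

theorem star_yy {f : ℂ[X]} : star (yy : KK f) = -yy := by
  apply QuadraticAlgebra.ext
  · rw [QuadraticAlgebra.re_star, zero_mul, add_zero, QuadraticAlgebra.re_neg]
    have : (yy : KK f).re = 0 := rfl
    rw [this, neg_zero]
  · rw [QuadraticAlgebra.im_star, QuadraticAlgebra.im_neg]

theorem inv_identity {E : Type} [Field E] {x : E} (hx : x ≠ 0) (g : ℕ) :
    (x ^ (2 * g + 1) + x) * x⁻¹ ^ ((g + 1) * 2) = x⁻¹ ^ (2 * g + 1) + x⁻¹ := by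
  have h1 : x ^ (2 * g + 1) * x⁻¹ ^ (2 * g + 1) = 1 := by
    rw [← mul_pow, mul_inv_cancel₀ hx, one_pow]
  have h2 : x * x⁻¹ = 1 := mul_inv_cancel₀ hx
  have e : x⁻¹ ^ ((g + 1) * 2) = x⁻¹ ^ (2 * g + 1) * x⁻¹ := by
    rw [← pow_succ]
    congr 1
    ring
  rw [e]
  linear_combination x⁻¹ * h1 + x⁻¹ ^ (2 * g + 1) * h2

section

variable {g : ℕ} [NonSq (fh g)]

/-- The involution as a parametrisation. -/
def thPar (g : ℕ) [NonSq (fh g)] : Par (KK (fh g)) (fh g) where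
  θ := (emb X)⁻¹
  η := -(yy * ((emb X)⁻¹) ^ (g + 1))
  hη := by
    have hx : (emb X : KK (fh g)) ≠ 0 := emb_ne X_ne_zero
    have h1 : (yy : KK (fh g)) ^ 2 = emb X ^ (2 * g + 1) + emb X := by
      rw [sq, yy_sq]
      unfold fh
      rw [emb_add]
      congr 1
      unfold emb
      rw [map_pow, map_pow]
    have h2 : aeval ((emb X : KK (fh g))⁻¹) (fh g) = ((emb X)⁻¹) ^ (2 * g + 1) + (emb X)⁻¹ := by
      unfold fh
      rw [map_add, map_pow, aeval_X]
    rw [neg_sq, mul_pow, h1, h2, ← pow_mul]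
    exact inv_identity hx g
  hθ := by
    intro c h
    have hx : (emb X : KK (fh g)) ≠ 0 := emb_ne X_ne_zero
    have h1 : (emb X : KK (fh g))⁻¹ = algebraMap ℂ (KK (fh g)) c := sub_eq_zero.1 h
    have hc : c ≠ 0 := by
      rintro rfl
      rw [map_zero] at h1
      exact inv_ne_zero hx h1
    have h2 : (emb X : KK (fh g)) = emb (C c⁻¹) := by
      rw [emb_C, map_inv₀, ← h1, inv_inv]
    have h3 := emb_inj h2
    have h4 := congrArg natDegree h3
    rw [natDegree_X, natDegree_C] at h4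
    exact one_ne_zero h4

/-- the involution on functions, as a homomorphism -/
def thHom (g : ℕ) [NonSq (fh g)] : KK (fh g) →ₐ[ℂ] KK (fh g) := (thPar g).phi

theorem thHom_X : thHom g (emb X) = (emb X)⁻¹ := by
  unfold thHom
  rw [phi_emb, aeval_X]
  rfl

theorem thHom_yy : thHom g yy = -(yy * ((emb X)⁻¹) ^ (g + 1)) := by
  unfold thHom
  rw [phi_yy]
  rfl

theorem thHom_thHom (z : KK (fh g)) : thHom g (thHom g z) = z := by
  have hx : (emb X : KK (fh g)) ≠ 0 := emb_ne X_ne_zero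
  have h : (thHom g).comp (thHom g) = AlgHom.id ℂ (KK (fh g)) := by
    apply algHom_ext'
    · rw [AlgHom.comp_apply, thHom_X, map_inv₀, thHom_X, inv_inv]
      rfl
    · rw [AlgHom.comp_apply, thHom_yy, map_neg, map_mul, map_pow, map_inv₀, thHom_X, inv_inv,
        thHom_yy, neg_mul, neg_neg, mul_assoc, ← mul_pow, inv_mul_cancel₀ hx, one_pow, mul_one]
      rfl
  exact congrArg (fun φ : KK (fh g) →ₐ[ℂ] KK (fh g) => φ z) h

theorem thHom_star (z : KK (fh g)) : thHom g (star z) = star (thHom g z) := by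
  have h : (thHom g).comp (starHom (fh g)) = (starHom (fh g)).comp (thHom g) := by
    have hi : star ((emb X : KK (fh g))⁻¹) = (emb X)⁻¹ := by
      rw [← starHom_apply, map_inv₀, starHom_apply, star_emb]
    apply algHom_ext'
    · rw [AlgHom.comp_apply, AlgHom.comp_apply, starHom_apply, starHom_apply, star_emb, thHom_X, hi]
    · have hs : star (-(yy * ((emb X : KK (fh g))⁻¹) ^ (g + 1))) =
          yy * ((emb X)⁻¹) ^ (g + 1) := by
        show starHom (fh g) (-(yy * ((emb X)⁻¹) ^ (g + 1))) = _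
        rw [map_neg, map_mul, map_pow, starHom_apply, starHom_apply, star_yy, hi, neg_mul, neg_neg]
      rw [AlgHom.comp_apply, AlgHom.comp_apply, starHom_apply, star_yy, map_neg, thHom_yy,
        starHom_apply, hs, neg_neg]
  exact congrArg (fun φ : KK (fh g) →ₐ[ℂ] KK (fh g) => φ z) h

/-- the involution on functions -/
def thEquiv (g : ℕ) [NonSq (fh g)] : KK (fh g) ≃ₐ[ℂ] KK (fh g) :=
  AlgEquiv.ofAlgHom (thHom g) (thHom g)
    (AlgHom.ext fun z => thHom_thHom z) (AlgHom.ext fun z => thHom_thHom z)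

theorem thEquiv_apply (z : KK (fh g)) : thEquiv g z = thHom g z := rfl

end

section pts

variable {g : ℕ}

theorem fh_eval (a : ℂ) : (fh g).eval a = a ^ (2 * g + 1) + a := by
  unfold fh
  simp

/-- the point `(0, 0)` -/
def origin (g : ℕ) : APt (fh g) := ⟨(0, 0), by rw [fh_eval]; simp⟩

theorem sig_proof {a b : ℂ} (ha : a ≠ 0) (h : b ^ 2 = (fh g).eval a) :
    (-(b * (a⁻¹) ^ (g + 1))) ^ 2 = (fh g).eval a⁻¹ := by
  rw [fh_eval] at h ⊢
  rw [neg_sq, mul_pow, h, ← pow_mul]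
  exact inv_identity ha g

open Classical in
/-- the involution on points -/
def sig (g : ℕ) : Pts (fh g) → Pts (fh g)
  | none => some (origin g)
  | some P => if h : P.1.1 = 0 then none else
      some ⟨(P.1.1⁻¹, -(P.1.2 * (P.1.1⁻¹) ^ (g + 1))), sig_proof h P.2⟩

theorem eq_origin {P : APt (fh g)} (h : P.1.1 = 0) : P = origin g := by
  apply Subtype.ext
  apply Prod.ext
  · exact h
  · have h1 := P.2
    rw [h, fh_eval] at h1
    simp only [ne_eq, Nat.add_eq_zero_iff, mul_eq_zero, OfNat.ofNat_ne_zero, false_or,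
      one_ne_zero, and_false, not_false_eq_true, zero_pow, add_zero] at h1
    exact (pow_eq_zero_iff two_ne_zero).1 h1

theorem sig_none : sig g none = some (origin g) := rfl

theorem sig_origin : sig g (some (origin g)) = none := by
  unfold sig
  exact dif_pos rfl

theorem sig_some {P : APt (fh g)} (h : P.1.1 ≠ 0) : sig g (some P) =
    some ⟨(P.1.1⁻¹, -(P.1.2 * (P.1.1⁻¹) ^ (g + 1))), sig_proof h P.2⟩ := by
  unfold sig
  exact dif_neg h

theorem sig_sig (P : Pts (fh g)) : sig g (sig g P) = P := by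
  rcases P with _ | P
  · rw [sig_none, sig_origin]
  · by_cases h : P.1.1 = 0
    · rw [eq_origin h, sig_origin, sig_none]
    · rw [sig_some h, sig_some (P := ⟨(P.1.1⁻¹, -(P.1.2 * (P.1.1⁻¹) ^ (g + 1))), sig_proof h P.2⟩)
        (inv_ne_zero h)]
      congr 1
      apply Subtype.ext
      apply Prod.ext
      · exact inv_inv _
      · show -(-(P.1.2 * (P.1.1⁻¹) ^ (g + 1)) * (P.1.1⁻¹⁻¹) ^ (g + 1)) = P.1.2
        rw [neg_mul, neg_neg, mul_assoc, ← mul_pow, mul_inv_cancel₀ (inv_ne_zero h), one_pow,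
          mul_one]

theorem sig_ne (hg : Odd g) (P : Pts (fh g)) : sig g P ≠ P := by
  rcases P with _ | P
  · rw [sig_none]
    simp
  · by_cases h : P.1.1 = 0
    · rw [eq_origin h, sig_origin]
      simp
    · rw [sig_some h]
      intro h1
      have h2 := Option.some_injective _ h1
      have h3 : P.1.1⁻¹ = P.1.1 := congrArg (fun Q : APt (fh g) => Q.1.1) h2
      have h4 : -(P.1.2 * (P.1.1⁻¹) ^ (g + 1)) = P.1.2 :=
        congrArg (fun Q : APt (fh g) => Q.1.2) h2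
      have h5 : P.1.1 ^ 2 = 1 := by
        rw [sq]
        nth_rewrite 1 [← h3]
        exact inv_mul_cancel₀ h
      obtain ⟨m, hm⟩ := hg
      have h6 : (P.1.1⁻¹) ^ (g + 1) = 1 := by
        have e : g + 1 = 2 * (m + 1) := by omega
        rw [h3, e, pow_mul, h5, one_pow]
      rw [h6, mul_one] at h4
      have h7 : P.1.2 = 0 := neg_eq_self.1 h4
      have h8 := P.2
      rw [h7, fh_eval, pow_add, pow_mul, h5, one_pow] at h8
      apply h
      have h9 : 2 * P.1.1 = 0 := by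
        linear_combination -h8
      exact (mul_eq_zero.1 h9).resolve_left two_ne_zero

end pts

section main

variable {g : ℕ} [NonSq (fh g)] (G : Good (fh g))
include G

theorem ordAt_none_X_sub (c : ℂ) : ordAt Λ G.ne none (emb (X - C c)) = -2 := by
  rw [ordAt_emb_none G.ne (X_sub_C_ne_zero c), natDegree_X_sub_C]
  norm_num

open Classical in
theorem ordAt_some_X_sub (P : APt (fh g)) (c : ℂ) :
    ordAt Λ G.ne (some P) (emb (X - C c)) = if P.1.1 = c then (ram P : ℤ) else 0 := by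
  split_ifs with h
  · rw [← h]
    exact ordAt_X_sub_C_self G.ne P
  · apply ordAt_emb_zero G.ne P
    rw [eval_sub, eval_X, eval_C]
    exact sub_ne_zero.2 h

theorem ord_th_zero (Q : Pts (fh g)) :
    ordAt Λ G.ne Q (thHom g (emb (X - C 0))) = - ordAt Λ G.ne Q (emb (X - C 0)) := by
  rw [map_zero C, sub_zero, thHom_X]
  exact (isVal_ordAt G.ne Q).inv (emb_ne X_ne_zero)

theorem ord_th_ne (Q : Pts (fh g)) {c : ℂ} (hc : c ≠ 0) :
    ordAt Λ G.ne Q (thHom g (emb (X - C c))) =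
      ordAt Λ G.ne Q (emb (X - C c⁻¹)) - ordAt Λ G.ne Q (emb (X - C 0)) := by
  have hx : (emb X : KK (fh g)) ≠ 0 := emb_ne X_ne_zero
  have hv := isVal_ordAt (Λ := Λ) G.ne Q
  have es : ∀ d : ℂ, (emb (X - C d) : KK (fh g)) = emb X - algebraMap ℂ (KK (fh g)) d := by
    intro d
    rw [← emb_C]
    unfold emb
    rw [map_sub, map_sub]
  have e : thHom g (emb (X - C c)) =
      algebraMap ℂ (KK (fh g)) (-c) * (emb (X - C c⁻¹) * (emb X)⁻¹) := by
    rw [es, es, map_sub, thHom_X, AlgHom.commutes, sub_mul, mul_inv_cancel₀ hx, map_neg, mul_sub]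
    have h1 : algebraMap ℂ (KK (fh g)) c * algebraMap ℂ (KK (fh g)) c⁻¹ = 1 := by
      rw [← map_mul, mul_inv_cancel₀ hc, map_one]
    linear_combination (-(emb X : KK (fh g))⁻¹) * h1
  have hc0 : algebraMap ℂ (KK (fh g)) (-c) ≠ 0 := (_root_.map_ne_zero _).2 (neg_ne_zero.2 hc)
  rw [e, hv.mul hc0 (mul_ne_zero (emb_ne (X_sub_C_ne_zero _)) (inv_ne_zero hx)), hv.const,
    hv.mul (emb_ne (X_sub_C_ne_zero _)) (inv_ne_zero hx), hv.inv hx, map_zero C, sub_zero]
  ring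

theorem ord_sig_X_sub (P : Pts (fh g)) (c : ℂ) :
    ordAt Λ G.ne (sig g P) (thHom g (emb (X - C c))) = ordAt Λ G.ne P (emb (X - C c)) := by
  classical
  have e1 : (origin g).1.1 = 0 := rfl
  have ho : ram (origin g) = 2 := by
    unfold ram
    have e2 : (origin g).1.2 = 0 := rfl
    rw [if_pos e2]
  rcases P with _ | P
  · rw [sig_none, ordAt_none_X_sub G]
    by_cases hc : c = 0
    · rw [hc, ord_th_zero G, ordAt_some_X_sub G, if_pos e1, ho]
      rfl
    · rw [ord_th_ne G _ hc, ordAt_some_X_sub G, ordAt_some_X_sub G, if_pos e1, if_neg, ho]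
      · rfl
      · exact (inv_ne_zero hc).symm
  · by_cases h : P.1.1 = 0
    · rw [eq_origin h, sig_origin, ordAt_some_X_sub G]
      by_cases hc : c = 0
      · rw [hc, ord_th_zero G, ordAt_none_X_sub G, if_pos e1, ho]
        rfl
      · rw [ord_th_ne G _ hc, ordAt_none_X_sub G, ordAt_none_X_sub G, if_neg]
        · rfl
        · exact fun h => hc h.symm
    · set P' : APt (fh g) := ⟨(P.1.1⁻¹, -(P.1.2 * (P.1.1⁻¹) ^ (g + 1))), sig_proof h P.2⟩ with hP'
      rw [sig_some h, ← hP', ordAt_some_X_sub G]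
      have hP1 : P'.1.1 = P.1.1⁻¹ := rfl
      have hram : ram P' = ram P := by
        unfold ram
        by_cases hb : P.1.2 = 0
        · rw [if_pos hb, if_pos]
          show -(P.1.2 * (P.1.1⁻¹) ^ (g + 1)) = 0
          rw [hb, zero_mul, neg_zero]
        · rw [if_neg hb, if_neg]
          exact neg_ne_zero.2 (mul_ne_zero hb (pow_ne_zero _ (inv_ne_zero h)))
      by_cases hc : c = 0
      · rw [hc, ord_th_zero G, ordAt_some_X_sub G, if_neg h, if_neg]
        · rfl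
        · rw [hP1]
          exact inv_ne_zero h
      · rw [ord_th_ne G _ hc, ordAt_some_X_sub G, ordAt_some_X_sub G, hram, hP1,
          if_neg (inv_ne_zero h), sub_zero]
        by_cases hac : P.1.1 = c
        · rw [if_pos hac, if_pos (by rw [hac])]
        · rw [if_neg hac, if_neg (fun h => hac (inv_injective h))]

theorem ord_sig (P : Pts (fh g)) {z : KK (fh g)} (hz : z ≠ 0) :
    ordAt Λ G.ne (sig g P) (thHom g z) = ordAt Λ G.ne P z := by
  have hw : IsVal (fun z => ordAt Λ G.ne (sig g P) (thHom g z)) :=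
    (isVal_ordAt (Λ := Λ) G.ne (sig g P)).comp (thHom g)
  have hw' : IsVal (ordAt Λ G.ne P) := isVal_ordAt (Λ := Λ) G.ne P
  have hX := ord_sig_X_sub (Λ := Λ) G P
  by_cases hram : tau P = P
  · -- ramified
    have hram' : tau (sig g P) = sig g P := by
      rcases P with _ | P
      · rw [sig_none]
        show some _ = some _
        apply congrArg some
        apply Subtype.ext
        apply Prod.ext
        · rfl
        · exact neg_zero
      · by_cases h : P.1.1 = 0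
        · rw [eq_origin h, sig_origin]
          rfl
        · rw [sig_some h]
          show some _ = some _
          apply congrArg some
          apply Subtype.ext
          apply Prod.ext
          · rfl
          · have h1 : (some (⟨(P.1.1, -P.1.2), _⟩ : APt (fh g))) = some P := hram
            have h2 := Option.some_injective _ h1
            have h3 : -P.1.2 = P.1.2 := congrArg (fun Q : APt (fh g) => Q.1.2) h2
            have h4 : P.1.2 = 0 := neg_eq_self.1 h3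
            show - -(P.1.2 * (P.1.1⁻¹) ^ (g + 1)) = -(P.1.2 * (P.1.1⁻¹) ^ (g + 1))
            rw [h4]
            simp
    refine hw.uniq_ram hw' hX ?_ ?_ z hz
    · intro z
      rw [thHom_star, ← ordAt_tau G, hram']
    · intro z
      rw [← ordAt_tau G, hram]
  · rcases P with _ | P
    · exact absurd rfl hram
    · have hb : P.1.2 ≠ 0 := by
        intro hb
        apply hram
        show some _ = some _
        apply congrArg some
        apply Subtype.ext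
        apply Prod.ext
        · rfl
        · show -P.1.2 = P.1.2
          rw [hb, neg_zero]
      have ha : P.1.1 ≠ 0 := by
        intro ha
        apply hb
        rw [eq_origin ha]
        rfl
      set P' : APt (fh g) := ⟨(P.1.1⁻¹, -(P.1.2 * (P.1.1⁻¹) ^ (g + 1))), sig_proof ha P.2⟩ with hP'
      have hsP : sig g (some P) = some P' := sig_some ha
      have hb' : P'.1.2 ≠ 0 :=
        neg_ne_zero.2 (mul_ne_zero hb (pow_ne_zero _ (inv_ne_zero ha)))
      have hv := isVal_ordAt (Λ := Λ) G.ne (some P')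
      have hx : (emb X : KK (fh g)) ≠ 0 := emb_ne X_ne_zero
      have hx0 : ordAt Λ G.ne (some P') (emb X) = 0 := by
        apply ordAt_emb_zero G.ne P'
        rw [eval_X]
        exact inv_ne_zero ha
      have hxi : ordAt Λ G.ne (some P') ((emb X)⁻¹ ^ (g + 1)) = 0 := by
        have h1 : ∀ n : ℕ, ordAt Λ G.ne (some P') ((emb X)⁻¹ ^ n) = 0 := by
          intro n
          induction n with
          | zero =>
            have := hv.const 1
            rw [map_one] at this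
            rw [pow_zero, this]
          | succ n ih =>
            rw [pow_succ, hv.mul (pow_ne_zero n (inv_ne_zero hx)) (inv_ne_zero hx), ih, hv.inv hx,
              hx0]
            rfl
        exact h1 _
      refine hw.uniq_unram hw' hb (a := P.1.1) hX ?_ ?_ ?_ ?_ ?_ z hz
      · intro p hp h0
        exact ordAt_emb_pos G.ne hp P h0
      · show 0 ≤ ordAt Λ G.ne (sig g (some P)) (thHom g yy)
        rw [hsP, thHom_yy, hv.neg, hv.mul yy_ne (pow_ne_zero _ (inv_ne_zero hx)), hxi, add_zero]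
        exact ordAt_yy_nonneg G.ne P'
      · exact ordAt_yy_nonneg G.ne P
      · show 0 < ordAt Λ G.ne (sig g (some P)) (thHom g (yy - algebraMap ℂ (KK (fh g)) P.1.2))
        rw [hsP, map_sub, thHom_yy, AlgHom.commutes]
        -- `- y x^{-(g+1)} - b = - x^{-(g+1)} ((y - b') + (b' + b x^(g+1)))`
        have e : -(yy * ((emb X)⁻¹) ^ (g + 1)) - algebraMap ℂ (KK (fh g)) P.1.2 =
            -(((emb X)⁻¹) ^ (g + 1) * ((yy - algebraMap ℂ (KK (fh g)) P'.1.2) +
              emb (C P'.1.2 + C P.1.2 * X ^ (g + 1)))) := by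
          have e1 : (emb (C P'.1.2 + C P.1.2 * X ^ (g + 1)) : KK (fh g)) =
              algebraMap ℂ (KK (fh g)) P'.1.2 + algebraMap ℂ (KK (fh g)) P.1.2 *
                emb X ^ (g + 1) := by
            rw [emb_add, emb_mul, emb_C, emb_C]
            congr 2
            unfold emb
            rw [map_pow, map_pow]
          have e2 : ((emb X : KK (fh g))⁻¹) ^ (g + 1) * emb X ^ (g + 1) = 1 := by
            rw [← mul_pow, inv_mul_cancel₀ hx, one_pow]
          rw [e1]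
          linear_combination (algebraMap ℂ (KK (fh g)) P.1.2) * e2
        have h0 : thHom g (yy - algebraMap ℂ (KK (fh g)) P.1.2) ≠ 0 := by
          apply algHom_ne
          intro h
          have h5 := congrArg QuadraticAlgebra.im h
          have h6 : (1 : RatFunc ℂ) - 0 = 0 := h5
          rw [sub_zero] at h6
          exact one_ne_zero h6
        rw [map_sub, thHom_yy, AlgHom.commutes, e] at h0
        rw [e, hv.neg]
        have h1 := neg_ne_zero.1 h0
        rw [hv.mul (left_ne_zero_of_mul h1) (right_ne_zero_of_mul h1), hxi, zero_add]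
        have h2 := hv.pos_add (z := yy - algebraMap ℂ (KK (fh g)) P'.1.2)
          (z' := emb (C P'.1.2 + C P.1.2 * X ^ (g + 1))) (Or.inr (ordAt_yy_sub G.ne P' hb')) (by
            by_cases h3 : (C P'.1.2 + C P.1.2 * X ^ (g + 1) : ℂ[X]) = 0
            · left
              rw [h3, emb_zero]
            · right
              apply ordAt_emb_pos G.ne h3 P'
              rw [eval_add, eval_mul, eval_C, eval_C, eval_pow, eval_X]
              show -(P.1.2 * (P.1.1⁻¹) ^ (g + 1)) + P.1.2 * (P.1.1⁻¹) ^ (g + 1) = 0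
              ring)
        exact h2.resolve_left (right_ne_zero_of_mul h1)
      · exact ordAt_yy_sub G.ne P hb

end main

theorem exists_swap {α : Type} [Infinite α] {s : α → α} (hs : ∀ a, s (s a) = a)
    (hn : ∀ a, s a ≠ a) (m : ℕ) :
    ∃ S S' : Finset α, S.card = m ∧ S'.card = m ∧ Disjoint S S' ∧ ∀ a, a ∈ S ↔ s a ∈ S' := by
  classical
  have hinj : Function.Injective s := fun a b h => by rw [← hs a, h, hs b]
  have key : ∀ m : ℕ, ∃ S : Finset α, S.card = m ∧ Disjoint S (S.image s) := by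
    intro m
    induction m with
    | zero => exact ⟨∅, rfl, by simp⟩
    | succ m ih =>
      obtain ⟨S, hS, hd⟩ := ih
      obtain ⟨a, ha⟩ := Infinite.exists_notMem_finset (S ∪ S.image s)
      rw [Finset.mem_union, not_or] at ha
      refine ⟨insert a S, by rw [Finset.card_insert_of_notMem ha.1, hS], ?_⟩
      rw [Finset.image_insert, Finset.disjoint_insert_left, Finset.disjoint_insert_right]
      refine ⟨?_, ?_, hd⟩
      · rw [Finset.mem_insert, not_or]
        exact ⟨(hn a).symm, ha.2⟩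
      · intro h
        apply ha.2
        rw [Finset.mem_image]
        exact ⟨s a, h, hs a⟩
  obtain ⟨S, hS, hd⟩ := key m
  refine ⟨S, S.image s, hS, by rw [Finset.card_image_of_injective _ hinj, hS], hd, ?_⟩
  intro a
  rw [Finset.mem_image]
  constructor
  · intro h
    exact ⟨a, h, rfl⟩
  · rintro ⟨b, hb, hab⟩
    rw [← hinj hab]
    exact hb

/-- Existence of the data `(C, S, S')` with a fixed point free involution of the curve `C`
exchanging `S` and `S'`, for every even `t`. -/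
theorem exists_datum_inv (t : ℕ) (ht : 0 < t) (hev : Even t) :
    ∃ (K : Type) (_ : Field K) (_ : Algebra ℂ K) (T : Datum K) (θ : K ≃ₐ[ℂ] K)
      (σ : T.X.Pt → T.X.Pt), T.t = t ∧ (∀ z, θ (θ z) = z) ∧ (∀ P, σ (σ P) = P) ∧ (∀ P, σ P ≠ P) ∧
      (∀ P z, z ≠ 0 → T.X.ord (σ P) (θ z) = T.X.ord P z) ∧ (∀ P, P ∈ T.S ↔ σ P ∈ T.S') := by
  obtain ⟨F, _, _, ⟨Λ⟩⟩ := exists_LF
  have hg : 0 < 9 * t + 1 := by omega
  have ho : Odd (9 * t + 1) := by
    obtain ⟨m, hm⟩ := hev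
    exact ⟨9 * m, by rw [hm]; ring⟩
  have G := good_fh hg
  haveI : NonSq (fh (9 * t + 1)) := G.nonSq
  refine ⟨KK (fh (9 * t + 1)), inferInstance, inferInstance, ?_⟩
  haveI := infinite_pts (fh (9 * t + 1))
  obtain ⟨S, S', h1, h2, h3, h4⟩ := exists_swap (α := Pts (fh (9 * t + 1)))
    (s := sig (9 * t + 1)) sig_sig (sig_ne ho) (100 * t)
  exact ⟨
    { X := curve Λ G (natDegree_fh hg)
      t := t
      t_pos := ht
      genus_eq := rfl
      S := S
      S' := S'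
      card_S := h1
      card_S' := h2
      disj := h3 }, thEquiv _, sig _, rfl, thHom_thHom, sig_sig, sig_ne ho,
      fun P z hz => ord_sig G P hz, h4⟩

end

end Pool.Agent.YTD.Hyp


end

/- source: Pool.Agent.YTD.Orders -/

section

/-!
Monomial orders comparing first a weight.
-/

namespace Pool.Agent.YTD

variable {σ : Type}

/-- the exponents, ordered by the weight `w` first and then by `m`. -/
def WSyn (_ : MonomialOrder σ) (_ : (σ →₀ ℕ) →+ ℕ) : Type := σ →₀ ℕ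

variable (m : MonomialOrder σ) (w : (σ →₀ ℕ) →+ ℕ)

noncomputable instance : AddCommMonoid (WSyn m w) := inferInstanceAs (AddCommMonoid (σ →₀ ℕ))

/-- the comparison key -/
noncomputable def wkey (e : WSyn m w) : ℕ ×ₗ m.syn := toLex (w e, m.toSyn e)

theorem wkey_injective : Function.Injective (wkey m w) := by
  intro e e' h
  have h1 : (w e, m.toSyn e) = (w e', m.toSyn e') := toLex.injective h
  exact m.toSyn.injective (Prod.ext_iff.1 h1).2

noncomputable instance : LinearOrder (WSyn m w) :=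
  LinearOrder.lift' (wkey m w) (wkey_injective m w)

theorem wle_iff (e e' : WSyn m w) :
    e ≤ e' ↔ w e < w e' ∨ w e = w e' ∧ m.toSyn e ≤ m.toSyn e' := by
  show wkey m w e ≤ wkey m w e' ↔ _
  unfold wkey
  rw [Prod.Lex.toLex_le_toLex]

theorem wlt_iff (e e' : WSyn m w) :
    e < e' ↔ w e < w e' ∨ w e = w e' ∧ m.toSyn e < m.toSyn e' := by
  show wkey m w e < wkey m w e' ↔ _
  unfold wkey
  rw [Prod.Lex.toLex_lt_toLex]

theorem w_add (e e' : WSyn m w) : w ((e + e' : WSyn m w) : σ →₀ ℕ) = w e + w e' := map_add w _ _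

theorem toSyn_add (e e' : WSyn m w) :
    m.toSyn ((e + e' : WSyn m w) : σ →₀ ℕ) = m.toSyn e + m.toSyn e' := map_add m.toSyn _ _

instance : IsOrderedAddMonoid (WSyn m w) where
  add_le_add_left := by
    intro a b h c
    rw [wle_iff] at h ⊢
    rw [w_add, w_add, toSyn_add, toSyn_add]
    rcases h with h | ⟨h, h'⟩
    · left
      omega
    · right
      exact ⟨by omega, add_le_add_left h' _⟩

instance : WellFoundedLT (WSyn m w) := by
  constructor
  have h : WellFounded (fun a b : ℕ ×ₗ m.syn => a < b) := wellFounded_lt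
  exact InvImage.wf (wkey m w) h

/-- The monomial order comparing first the weight `w` and then `m`. -/
noncomputable def weigh : MonomialOrder σ where
  syn := WSyn m w
  toSyn := AddEquiv.refl _
  toSyn_monotone := by
    intro e e' h
    obtain ⟨d, rfl⟩ := exists_add_of_le h
    refine (wle_iff m w e (e + d)).2 ?_
    rw [map_add w, map_add m.toSyn]
    by_cases hd : w d = 0
    · right
      refine ⟨?_, ?_⟩
      · rw [hd, add_zero]
      · have := m.toSyn_monotone (show e ≤ e + d from le_self_add)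
        rwa [map_add] at this
    · left
      omega

theorem weigh_le (e e' : σ →₀ ℕ) : (weigh m w).toSyn e ≤ (weigh m w).toSyn e' ↔
    w e < w e' ∨ w e = w e' ∧ m.toSyn e ≤ m.toSyn e' := wle_iff m w e e'

theorem weigh_lt (e e' : σ →₀ ℕ) : (weigh m w).toSyn e < (weigh m w).toSyn e' ↔
    w e < w e' ∨ w e = w e' ∧ m.toSyn e < m.toSyn e' := wlt_iff m w e e'

theorem w_le_of_weigh_le {e e' : σ →₀ ℕ} (h : (weigh m w).toSyn e ≤ (weigh m w).toSyn e') :
    w e ≤ w e' := by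
  rcases (weigh_le m w e e').1 h with h | h
  · exact le_of_lt h
  · exact le_of_eq h.1

/-- The weight with coefficients `c`. -/
def wvec (c : Fin 4 → ℕ) : (Fin 4 →₀ ℕ) →+ ℕ where
  toFun e := c 0 * e 0 + c 1 * e 1 + c 2 * e 2 + c 3 * e 3
  map_zero' := by simp
  map_add' e e' := by
    simp only [Finsupp.add_apply]
    ring

theorem wvec_apply (c : Fin 4 → ℕ) (e : Fin 4 →₀ ℕ) :
    wvec c e = c 0 * e 0 + c 1 * e 1 + c 2 * e 2 + c 3 * e 3 := rfl

/-- The order `w+(r₁, r₂)`: larger `x`-degree first, then larger `r₁ e₁ + r₂ e₃`, then `lex`. -/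
noncomputable def mPlus (r₁ r₂ : ℕ) : MonomialOrder (Fin 4) :=
  weigh (weigh MonomialOrder.lex (wvec ![0, r₁, 0, r₂])) (wvec ![1, 1, 0, 0])

/-- The order `w-(r₁, r₂)`: larger `y`-degree first, then larger `r₁ e₁ + r₂ e₃`, then `lex`. -/
noncomputable def mMinus (r₁ r₂ : ℕ) : MonomialOrder (Fin 4) :=
  weigh (weigh MonomialOrder.lex (wvec ![0, r₁, 0, r₂])) (wvec ![0, 0, 1, 1])

/-- The order `wx`: larger `j - e₀` first (i.e. larger `3 e₁ + 2 e₂ + 2 e₃`), then `lex`. -/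
noncomputable def mX : MonomialOrder (Fin 4) :=
  weigh MonomialOrder.lex (wvec ![0, 3, 2, 2])

theorem wx_apply (e : Fin 4 →₀ ℕ) : wvec ![1, 1, 0, 0] e = e 0 + e 1 := by
  rw [wvec_apply]
  simp

theorem wy_apply (e : Fin 4 →₀ ℕ) : wvec ![0, 0, 1, 1] e = e 2 + e 3 := by
  rw [wvec_apply]
  simp

theorem wr_apply (r₁ r₂ : ℕ) (e : Fin 4 →₀ ℕ) :
    wvec ![0, r₁, 0, r₂] e = r₁ * e 1 + r₂ * e 3 := by
  rw [wvec_apply]
  simp

theorem wX_apply (e : Fin 4 →₀ ℕ) : wvec ![0, 3, 2, 2] e = 3 * e 1 + 2 * e 2 + 2 * e 3 := by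
  rw [wvec_apply]
  simp

theorem mPlus_le {r₁ r₂ : ℕ} {e e' : Fin 4 →₀ ℕ}
    (h : (mPlus r₁ r₂).toSyn e ≤ (mPlus r₁ r₂).toSyn e') :
    e 0 + e 1 < e' 0 + e' 1 ∨ e 0 + e 1 = e' 0 + e' 1 ∧
      r₁ * e 1 + r₂ * e 3 ≤ r₁ * e' 1 + r₂ * e' 3 := by
  unfold mPlus at h
  rw [weigh_le, wx_apply, wx_apply] at h
  rcases h with h | ⟨h, h'⟩
  · exact Or.inl h
  · right
    refine ⟨h, ?_⟩
    have := w_le_of_weigh_le _ _ h'
    rwa [wr_apply, wr_apply] at this

theorem mMinus_le {r₁ r₂ : ℕ} {e e' : Fin 4 →₀ ℕ}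
    (h : (mMinus r₁ r₂).toSyn e ≤ (mMinus r₁ r₂).toSyn e') :
    e 2 + e 3 < e' 2 + e' 3 ∨ e 2 + e 3 = e' 2 + e' 3 ∧
      r₁ * e 1 + r₂ * e 3 ≤ r₁ * e' 1 + r₂ * e' 3 := by
  unfold mMinus at h
  rw [weigh_le, wy_apply, wy_apply] at h
  rcases h with h | ⟨h, h'⟩
  · exact Or.inl h
  · right
    refine ⟨h, ?_⟩
    have := w_le_of_weigh_le _ _ h'
    rwa [wr_apply, wr_apply] at this

theorem mX_le {e e' : Fin 4 →₀ ℕ} (h : mX.toSyn e ≤ mX.toSyn e') :
    3 * e 1 + 2 * e 2 + 2 * e 3 ≤ 3 * e' 1 + 2 * e' 2 + 2 * e' 3 := by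
  have := w_le_of_weigh_le _ _ h
  rwa [wX_apply, wX_apply] at this

end Pool.Agent.YTD


end

/- source: Pool.Agent.YTD.UnstEq -/

section

/-!
Invariance of the bigraded spaces under linear substitutions.
-/

namespace Pool.Agent.YTD

open Finset Module MvPolynomial

variable {K : Type} [Field K] [Algebra ℂ K]

/-- Polynomials of bidegree `(a, b)` with coefficients in `W`. -/
noncomputable def bih (a b : ℕ) (W : Submodule ℂ K) : Submodule ℂ (MvPolynomial (Fin 4) K) where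
  carrier := {f | ∀ e, f.coeff e ≠ 0 → e 0 + e 1 = a ∧ e 2 + e 3 = b ∧ f.coeff e ∈ W}
  zero_mem' := by
    intro e h
    simp at h
  add_mem' := by
    intro f g hf hg e h
    by_cases h1 : f.coeff e = 0
    · rw [coeff_add, h1, zero_add] at h ⊢
      exact hg e h
    by_cases h2 : g.coeff e = 0
    · rw [coeff_add, h2, add_zero] at h ⊢
      exact hf e h
    obtain ⟨h3, h4, h5⟩ := hf e h1
    obtain ⟨_, _, h5'⟩ := hg e h2
    exact ⟨h3, h4, by rw [coeff_add]; exact add_mem h5 h5'⟩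
  smul_mem' := by
    intro c f hf e h
    have h1 : f.coeff e ≠ 0 := by
      intro h1
      apply h
      rw [coeff_smul, h1, smul_zero]
    obtain ⟨h3, h4, h5⟩ := hf e h1
    exact ⟨h3, h4, by rw [coeff_smul]; exact Submodule.smul_mem _ _ h5⟩

theorem bih_mul {a b a' b' : ℕ} {W W' W'' : Submodule ℂ K}
    (H : ∀ x ∈ W, ∀ y ∈ W', x * y ∈ W'') {f g : MvPolynomial (Fin 4) K} (hf : f ∈ bih a b W)
    (hg : g ∈ bih a' b' W') : f * g ∈ bih (a + a') (b + b') W'' := by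
  intro e he
  rw [coeff_mul] at he ⊢
  obtain ⟨x, hx, hx0⟩ := Finset.exists_ne_zero_of_sum_ne_zero he
  rw [Finset.HasAntidiagonal.mem_antidiagonal] at hx
  obtain ⟨h1, h2, h3⟩ := hf _ (left_ne_zero_of_mul hx0)
  obtain ⟨h1', h2', h3'⟩ := hg _ (right_ne_zero_of_mul hx0)
  have ex : ∀ k, e k = x.1 k + x.2 k := fun k => by rw [← hx]; rfl
  refine ⟨?_, ?_, ?_⟩
  · rw [ex, ex]
    omega
  · rw [ex, ex]
    omega
  · refine sum_mem fun y _ => ?_
    by_cases hy0 : f.coeff y.1 * g.coeff y.2 = 0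
    · rw [hy0]
      exact zero_mem _
    exact H _ (hf _ (left_ne_zero_of_mul hy0)).2.2 _ (hg _ (right_ne_zero_of_mul hy0)).2.2

theorem one_mul_mem {W : Submodule ℂ K} : ∀ x ∈ (1 : Submodule ℂ K), ∀ y ∈ W, x * y ∈ W := by
  intro x hx y hy
  obtain ⟨c, rfl⟩ := Submodule.mem_one.1 hx
  rw [← Algebra.smul_def]
  exact W.smul_mem c hy

theorem C_mem_bih {W : Submodule ℂ K} {c : K} (hc : c ∈ W) : C c ∈ bih 0 0 W := by
  intro e he
  rw [coeff_C] at he ⊢
  by_cases h : 0 = e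
  · subst h
    rw [if_pos rfl]
    exact ⟨rfl, rfl, hc⟩
  · rw [if_neg h] at he
    exact (he rfl).elim

theorem X_mem_bih_x {i : Fin 4} (hi : i = 0 ∨ i = 1) : (X i : MvPolynomial (Fin 4) K) ∈
    bih 1 0 (1 : Submodule ℂ K) := by
  intro e he
  rw [coeff_X] at he ⊢
  by_cases h : Finsupp.single i 1 = e
  · subst h
    rw [if_pos rfl]
    refine ⟨?_, ?_, Submodule.one_le.1 le_rfl⟩
    · rcases hi with rfl | rfl <;> simp
    · rcases hi with rfl | rfl <;> simp
  · rw [if_neg h] at he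
    exact (he rfl).elim

theorem X_mem_bih_y {i : Fin 4} (hi : i = 2 ∨ i = 3) : (X i : MvPolynomial (Fin 4) K) ∈
    bih 0 1 (1 : Submodule ℂ K) := by
  intro e he
  rw [coeff_X] at he ⊢
  by_cases h : Finsupp.single i 1 = e
  · subst h
    rw [if_pos rfl]
    refine ⟨?_, ?_, Submodule.one_le.1 le_rfl⟩
    · rcases hi with rfl | rfl <;> simp
    · rcases hi with rfl | rfl <;> simp
  · rw [if_neg h] at he
    exact (he rfl).elim

theorem pow_mem_bih {a b : ℕ} {f : MvPolynomial (Fin 4) K} (hf : f ∈ bih a b (1 : Submodule ℂ K))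
    (n : ℕ) : f ^ n ∈ bih (n * a) (n * b) (1 : Submodule ℂ K) := by
  induction n with
  | zero =>
    rw [pow_zero, zero_mul, zero_mul, ← C_1]
    exact C_mem_bih (Submodule.one_le.1 le_rfl)
  | succ n ih =>
    rw [pow_succ, Nat.succ_mul, Nat.succ_mul]
    exact bih_mul one_mul_mem ih hf

theorem subst_monomial_mem (g h : Matrix (Fin 2) (Fin 2) ℂ) {W : Submodule ℂ K} {c : K}
    (hc : c ∈ W) (e : Fin 4 →₀ ℕ) :
    subst g h (monomial e c) ∈ bih (e 0 + e 1) (e 2 + e 3) W := by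
  unfold subst
  rw [aeval_monomial, Finsupp.prod_fintype _ _ (fun i => pow_zero _), Fin.prod_univ_four]
  have h0 : ((g 0 0 • X 0 + g 0 1 • X 1 : MvPolynomial (Fin 4) K)) ^ e 0 ∈
      bih (e 0 * 1) (e 0 * 0) (1 : Submodule ℂ K) :=
    pow_mem_bih (add_mem (Submodule.smul_mem _ _ (X_mem_bih_x (Or.inl rfl)))
      (Submodule.smul_mem _ _ (X_mem_bih_x (Or.inr rfl)))) _
  have h1 : ((g 1 0 • X 0 + g 1 1 • X 1 : MvPolynomial (Fin 4) K)) ^ e 1 ∈
      bih (e 1 * 1) (e 1 * 0) (1 : Submodule ℂ K) :=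
    pow_mem_bih (add_mem (Submodule.smul_mem _ _ (X_mem_bih_x (Or.inl rfl)))
      (Submodule.smul_mem _ _ (X_mem_bih_x (Or.inr rfl)))) _
  have h2 : ((h 0 0 • X 2 + h 0 1 • X 3 : MvPolynomial (Fin 4) K)) ^ e 2 ∈
      bih (e 2 * 0) (e 2 * 1) (1 : Submodule ℂ K) :=
    pow_mem_bih (add_mem (Submodule.smul_mem _ _ (X_mem_bih_y (Or.inl rfl)))
      (Submodule.smul_mem _ _ (X_mem_bih_y (Or.inr rfl)))) _
  have h3 : ((h 1 0 • X 2 + h 1 1 • X 3 : MvPolynomial (Fin 4) K)) ^ e 3 ∈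
      bih (e 3 * 0) (e 3 * 1) (1 : Submodule ℂ K) :=
    pow_mem_bih (add_mem (Submodule.smul_mem _ _ (X_mem_bih_y (Or.inl rfl)))
      (Submodule.smul_mem _ _ (X_mem_bih_y (Or.inr rfl)))) _
  have h4 := bih_mul one_mul_mem (bih_mul one_mul_mem (bih_mul one_mul_mem h0 h1) h2) h3
  have h5 := bih_mul (W'' := W) (fun x hx y hy => by rw [mul_comm]; exact one_mul_mem y hy x hx)
    (C_mem_bih hc) h4
  have e1 : 0 + (e 0 * 1 + e 1 * 1 + e 2 * 0 + e 3 * 0) = e 0 + e 1 := by ring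
  have e2 : 0 + (e 0 * 0 + e 1 * 0 + e 2 * 1 + e 3 * 1) = e 2 + e 3 := by ring
  rw [e1, e2] at h5
  exact h5

theorem subst_mem_bigr (g h : Matrix (Fin 2) (Fin 2) ℂ) {q N : ℕ} {U : ℤ → Submodule ℂ K}
    {f : MvPolynomial (Fin 4) K} (hf : f ∈ bigr q N U) : subst g h f ∈ bigr q N U := by
  rw [f.as_sum, map_sum]
  refine sum_mem fun e he => ?_
  rw [MvPolynomial.mem_support_iff] at he
  obtain ⟨j, h1, h2, h3, h4⟩ := hf e he
  intro e' he'
  obtain ⟨g1, g2, g3⟩ := subst_monomial_mem g h h4 e e' he'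
  refine ⟨j, h1, ?_, ?_, g3⟩
  · rw [← h2]
    exact_mod_cast g1
  · rw [← h3]
    exact_mod_cast g2

theorem filtU_equivariant (T : Datum K) (q u : ℕ) (D₀ : T.X.Pt →₀ ℤ) :
    (filtU T q u D₀).Equivariant := by
  intro g h _ _ N l f hf
  exact subst_mem_bigr g h hf

end Pool.Agent.YTD


end

/- source: Pool.Agent.YTD.Twist -/

section

/-!
Twisting filtrations by automorphisms of the section ring.
-/

namespace Pool.Agent.YTD

open Finset Module MvPolynomial Filter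

variable {K : Type} [Field K] [Algebra ℂ K]
variable {T : Datum K} {q : ℕ} {D₀ : T.X.Pt →₀ ℤ} {r : ℕ}

/-- `ℂ`-algebra automorphisms of `K[x₀, x₁, y₀, y₁]`. -/
abbrev Autom (K : Type) [Field K] [Algebra ℂ K] :=
  MvPolynomial (Fin 4) K ≃ₐ[ℂ] MvPolynomial (Fin 4) K

/-- The automorphism `E` preserves the section ring. -/
def Pres (T : Datum K) (q : ℕ) (D₀ : T.X.Pt →₀ ℤ) (E : Autom K) : Prop :=
  ∀ N, (T.sec q D₀ N).map E.toLinearMap = T.sec q D₀ N

theorem Pres.of_le {E : Autom K} (h1 : ∀ N, ∀ f ∈ T.sec q D₀ N, E f ∈ T.sec q D₀ N)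
    (h2 : ∀ N, ∀ f ∈ T.sec q D₀ N, E.symm f ∈ T.sec q D₀ N) : Pres T q D₀ E := by
  intro N
  apply le_antisymm
  · rintro _ ⟨f, hf, rfl⟩
    exact h1 N f hf
  · intro f hf
    exact ⟨E.symm f, h2 N f hf, E.apply_symm_apply f⟩

theorem Pres.mem {E : Autom K} (h : Pres T q D₀ E) {N : ℕ} {f : MvPolynomial (Fin 4) K}
    (hf : f ∈ T.sec q D₀ N) : E f ∈ T.sec q D₀ N := by
  rw [← h N]
  exact ⟨f, hf, rfl⟩

theorem Pres.symm {E : Autom K} (h : Pres T q D₀ E) : Pres T q D₀ E.symm := by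
  intro N
  conv_lhs => rw [← h N]
  ext f
  constructor
  · rintro ⟨_, ⟨g, hg, rfl⟩, rfl⟩
    have : E.symm.toLinearMap (E.toLinearMap g) = g := E.symm_apply_apply g
    rw [this]
    exact hg
  · intro hf
    exact ⟨E f, ⟨f, hf, rfl⟩, E.symm_apply_apply f⟩

theorem Pres.trans {E E' : Autom K} (h : Pres T q D₀ E) (h' : Pres T q D₀ E') :
    Pres T q D₀ (E.trans E') := by
  intro N
  have e : (E.trans E').toLinearMap = E'.toLinearMap.comp E.toLinearMap := rfl
  rw [e, Submodule.map_comp, h N, h' N]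

theorem autom_injective (E : Autom K) : Function.Injective E.toLinearMap := E.injective

namespace Filt

variable (χ : Filt T q D₀ r)

/-- The filtration twisted by an automorphism preserving the section ring. -/
noncomputable def tw (E : Autom K) (hE : Pres T q D₀ E) : Filt T q D₀ r where
  F N l := (χ.F N l).map E.toLinearMap
  le N l := by
    rw [← hE (r * N)]
    exact Submodule.map_mono (χ.le N l)
  anti N l l' h := Submodule.map_mono (χ.anti N l l' h)
  mul := by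
    rintro N N' l l' _ ⟨f, hf, rfl⟩ _ ⟨g, hg, rfl⟩
    exact ⟨f * g, χ.mul N N' l l' f hf g hg, map_mul E f g⟩
  bound := by
    obtain ⟨Λ, h⟩ := χ.bound
    refine ⟨Λ, fun N => ?_⟩
    rw [(h N).1, (h N).2, hE, Submodule.map_bot]
    exact ⟨rfl, rfl⟩

variable (E : Autom K) (hE : Pres T q D₀ E)

theorem tw_F (N : ℕ) (l : ℤ) : (χ.tw E hE).F N l = (χ.F N l).map E.toLinearMap := rfl

theorem mem_tw {N : ℕ} {l : ℤ} {f : MvPolynomial (Fin 4) K} :
    f ∈ (χ.tw E hE).F N l ↔ E.symm f ∈ χ.F N l := by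
  rw [tw_F]
  constructor
  · rintro ⟨g, hg, rfl⟩
    have : E.symm (E.toLinearMap g) = g := E.symm_apply_apply g
    rw [this]
    exact hg
  · intro h
    exact ⟨E.symm f, h, E.apply_symm_apply f⟩

theorem apply_mem_tw {N : ℕ} {l : ℤ} {f : MvPolynomial (Fin 4) K} :
    E f ∈ (χ.tw E hE).F N l ↔ f ∈ χ.F N l := by
  rw [mem_tw, E.symm_apply_apply]

theorem finrank_tw (N : ℕ) (l : ℤ) : finrank ℂ ((χ.tw E hE).F N l) = finrank ℂ (χ.F N l) := by
  rw [tw_F]
  exact (LinearEquiv.finrank_eq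
    (Submodule.equivMapOfInjective E.toLinearMap (autom_injective E) (χ.F N l))).symm

theorem wt_tw (N : ℕ) (l : ℤ) : (χ.tw E hE).wt N l = χ.wt N l := by
  unfold wt
  rw [finrank_tw, finrank_tw]

theorem tr_tw (p N : ℕ) : (χ.tw E hE).tr p N = χ.tr p N := by
  unfold tr
  simp only [wt_tw]

theorem dimN_tw (N : ℕ) : (χ.tw E hE).dimN N = χ.dimN N := rfl

theorem expansion_tw {a₀ a₁ b₀ b₁ c₀ : ℝ} :
    (χ.tw E hE).Expansion a₀ a₁ b₀ b₁ c₀ ↔ χ.Expansion a₀ a₁ b₀ b₁ c₀ := by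
  unfold Expansion
  simp only [tr_tw, dimN_tw]

theorem lam_tw : (χ.tw E hE).lam = χ.lam := by
  have key : (fun Λ : ℕ => ∀ N : ℕ, (χ.tw E hE).F N (-(Λ * N)) = T.sec q D₀ (r * N) ∧
      (χ.tw E hE).F N (Λ * N + 1) = ⊥) =
      fun Λ : ℕ => ∀ N : ℕ, χ.F N (-(Λ * N)) = T.sec q D₀ (r * N) ∧ χ.F N (Λ * N + 1) = ⊥ := by
    funext Λ
    apply propext
    apply forall_congr'
    intro N
    rw [tw_F, tw_F]
    apply and_congr
    · constructor
      · intro h
        exact Submodule.map_injective_of_injective (autom_injective E) (h.trans (hE (r * N)).symm)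
      · intro h
        rw [h]
        exact hE (r * N)
    · exact Submodule.map_eq_bot_iff (p := χ.F N (Λ * N + 1))
        (e := E.toLinearEquiv)
  unfold lam
  congr 1

/-- The filtration is stable under `E`. -/
def Stable (E : Autom K) : Prop := ∀ N l, ∀ f ∈ χ.F N l, E f ∈ χ.F N l

theorem Stable.tw_le {E : Autom K} {hE : Pres T q D₀ E} (h : χ.Stable E) (N : ℕ) (l : ℤ) :
    (χ.tw E hE).F N l ≤ χ.F N l := by
  rintro _ ⟨f, hf, rfl⟩
  exact h N l f hf

theorem Stable.tw_F_eq (P₀ : T.X.Pt) {E : Autom K} {hE : Pres T q D₀ E} (h : χ.Stable E) (N : ℕ)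
    (l : ℤ) : (χ.tw E hE).F N l = χ.F N l := by
  have hfin : FiniteDimensional ℂ (χ.F N l) := by
    have := T.finite_sec P₀ q D₀ (r * N)
    exact Submodule.finiteDimensional_of_le (χ.le N l)
  exact Submodule.eq_of_le_of_finrank_eq (h.tw_le χ N l) (finrank_tw χ E hE N l)

end Filt

/-! ### Linear substitutions -/

theorem subst_X0 (g h : Matrix (Fin 2) (Fin 2) ℂ) :
    subst (K := K) g h (X 0) = g 0 0 • X 0 + g 0 1 • X 1 := by
  unfold subst
  rw [aeval_X]
  rfl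

theorem subst_X1 (g h : Matrix (Fin 2) (Fin 2) ℂ) :
    subst (K := K) g h (X 1) = g 1 0 • X 0 + g 1 1 • X 1 := by
  unfold subst
  rw [aeval_X]
  rfl

theorem subst_X2 (g h : Matrix (Fin 2) (Fin 2) ℂ) :
    subst (K := K) g h (X 2) = h 0 0 • X 2 + h 0 1 • X 3 := by
  unfold subst
  rw [aeval_X]
  rfl

theorem subst_X3 (g h : Matrix (Fin 2) (Fin 2) ℂ) :
    subst (K := K) g h (X 3) = h 1 0 • X 2 + h 1 1 • X 3 := by
  unfold subst
  rw [aeval_X]
  rfl

theorem subst_smul (g h : Matrix (Fin 2) (Fin 2) ℂ) (c : ℂ) (f : MvPolynomial (Fin 4) K) :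
    subst g h (c • f) = c • subst g h f :=
  ((subst (K := K) g h).toLinearMap.restrictScalars ℂ).map_smul c f

theorem subst_subst (g h g' h' : Matrix (Fin 2) (Fin 2) ℂ) (f : MvPolynomial (Fin 4) K) :
    subst g h (subst g' h' f) = subst (g' * g) (h' * h) f := by
  have key : (subst (K := K) g h).comp (subst g' h') = subst (g' * g) (h' * h) := by
    apply MvPolynomial.algHom_ext
    intro i
    rw [AlgHom.comp_apply]
    have hi : i = 0 ∨ i = 1 ∨ i = 2 ∨ i = 3 := by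
      fin_cases i <;> simp
    rcases hi with rfl | rfl | rfl | rfl
    · rw [subst_X0, subst_X0, map_add, subst_smul, subst_smul, subst_X0, subst_X1,
        Matrix.mul_apply, Matrix.mul_apply, Fin.sum_univ_two, Fin.sum_univ_two]
      module
    · rw [subst_X1, subst_X1, map_add, subst_smul, subst_smul, subst_X0, subst_X1,
        Matrix.mul_apply, Matrix.mul_apply, Fin.sum_univ_two, Fin.sum_univ_two]
      module
    · rw [subst_X2, subst_X2, map_add, subst_smul, subst_smul, subst_X2, subst_X3,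
        Matrix.mul_apply, Matrix.mul_apply, Fin.sum_univ_two, Fin.sum_univ_two]
      module
    · rw [subst_X3, subst_X3, map_add, subst_smul, subst_smul, subst_X2, subst_X3,
        Matrix.mul_apply, Matrix.mul_apply, Fin.sum_univ_two, Fin.sum_univ_two]
      module
  exact congrArg (fun φ : MvPolynomial (Fin 4) K →ₐ[K] MvPolynomial (Fin 4) K => φ f) key

theorem subst_one (f : MvPolynomial (Fin 4) K) : subst 1 1 f = f := by
  have key : (subst (K := K) 1 1) = AlgHom.id K _ := by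
    apply MvPolynomial.algHom_ext
    intro i
    have hi : i = 0 ∨ i = 1 ∨ i = 2 ∨ i = 3 := by
      fin_cases i <;> simp
    rcases hi with rfl | rfl | rfl | rfl
    · rw [subst_X0]
      simp
    · rw [subst_X1]
      simp
    · rw [subst_X2]
      simp
    · rw [subst_X3]
      simp
  rw [key]
  rfl

/-- The automorphism given by a pair of invertible matrices. -/
noncomputable def substE (K : Type) [Field K] [Algebra ℂ K] (g h : Matrix (Fin 2) (Fin 2) ℂ)
    (hg : IsUnit g) (hh : IsUnit h) : Autom K :=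
  AlgEquiv.ofAlgHom ((subst (K := K) g h).restrictScalars ℂ)
    ((subst (K := K) g⁻¹ h⁻¹).restrictScalars ℂ)
    (by
      apply AlgHom.ext
      intro f
      show subst g h (subst g⁻¹ h⁻¹ f) = f
      rw [subst_subst, Matrix.nonsing_inv_mul _ ((Matrix.isUnit_iff_isUnit_det g).1 hg),
        Matrix.nonsing_inv_mul _ ((Matrix.isUnit_iff_isUnit_det h).1 hh), subst_one])
    (by
      apply AlgHom.ext
      intro f
      show subst g⁻¹ h⁻¹ (subst g h f) = f
      rw [subst_subst, Matrix.mul_nonsing_inv _ ((Matrix.isUnit_iff_isUnit_det g).1 hg),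
        Matrix.mul_nonsing_inv _ ((Matrix.isUnit_iff_isUnit_det h).1 hh), subst_one])

theorem substE_apply {g h : Matrix (Fin 2) (Fin 2) ℂ} (hg : IsUnit g) (hh : IsUnit h)
    (f : MvPolynomial (Fin 4) K) : substE K g h hg hh f = subst g h f := rfl

theorem substE_symm_apply {g h : Matrix (Fin 2) (Fin 2) ℂ} (hg : IsUnit g) (hh : IsUnit h)
    (f : MvPolynomial (Fin 4) K) : (substE K g h hg hh).symm f = subst g⁻¹ h⁻¹ f := rfl

theorem subst_mem_sec (g h : Matrix (Fin 2) (Fin 2) ℂ) {N : ℕ} {f : MvPolynomial (Fin 4) K}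
    (hf : f ∈ T.sec q D₀ N) : subst g h f ∈ T.sec q D₀ N :=
  subst_mem_bigr g h (q := q) (N := N) (U := T.V q D₀ N) hf

theorem pres_substE {g h : Matrix (Fin 2) (Fin 2) ℂ} (hg : IsUnit g) (hh : IsUnit h) :
    Pres T q D₀ (substE K g h hg hh) :=
  Pres.of_le (fun _ _ hf => subst_mem_sec g h hf) (fun _ _ hf => subst_mem_sec _ _ hf)

/-! ### Involutions -/

/-- An involution of the curve exchanging `S` and `S'`. -/
structure Inv (T : Datum K) where
  θ : K ≃ₐ[ℂ] K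
  σ : T.X.Pt → T.X.Pt
  θθ : ∀ z, θ (θ z) = z
  σσ : ∀ P, σ (σ P) = P
  free : ∀ P, σ P ≠ P
  ord_σ : ∀ P z, z ≠ 0 → T.X.ord (σ P) (θ z) = T.X.ord P z
  S_iff : ∀ P, P ∈ T.S ↔ σ P ∈ T.S'

namespace Inv

variable (ι : Inv T)

theorem S'_iff (P : T.X.Pt) : P ∈ T.S' ↔ ι.σ P ∈ T.S := by
  rw [ι.S_iff (ι.σ P), ι.σσ]

theorem symm_eq : ι.θ.symm = ι.θ := by
  apply AlgEquiv.ext
  intro z
  rw [AlgEquiv.symm_apply_eq, ι.θθ]

/-- The divisor is invariant. -/
def Fixes (D : T.X.Pt →₀ ℤ) : Prop := ∀ P, D (ι.σ P) = D P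

open Classical in
theorem sum_single_apply (A : Finset T.X.Pt) (c : ℤ) (P : T.X.Pt) :
    (∑ y ∈ A, Finsupp.single y c : T.X.Pt →₀ ℤ) P = if P ∈ A then c else 0 := by
  rw [Finsupp.finset_sum_apply]
  simp only [Finsupp.single_apply]
  rw [Finset.sum_ite_eq' A P]

theorem dvs_σ (hD : ι.Fixes D₀) (N : ℕ) (j : ℤ) (P : T.X.Pt) :
    T.dvs q D₀ N (-j) (ι.σ P) = T.dvs q D₀ N j P := by
  classical
  unfold Datum.dvs
  have h1 : (ι.σ P ∈ T.S) = (P ∈ T.S') := propext (ι.S'_iff P).symm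
  have h2 : (ι.σ P ∈ T.S') = (P ∈ T.S) := propext (ι.S_iff P).symm
  simp only [Finsupp.sub_apply, Finsupp.smul_apply, sum_single_apply, h1, h2, hD P, neg_neg]
  ring

theorem θ_mem_V (hD : ι.Fixes D₀) {N : ℕ} {j : ℤ} {z : K} (hz : z ∈ T.V q D₀ N j) :
    ι.θ z ∈ T.V q D₀ N (-j) := by
  intro h0 P
  have hz0 : z ≠ 0 := by
    rintro rfl
    exact h0 (map_zero _)
  have h1 := hz hz0 (ι.σ P)
  have h2 := ι.ord_σ (ι.σ P) z hz0
  rw [ι.σσ] at h2
  have h3 := ι.dvs_σ (q := q) hD N j (ι.σ P)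
  rw [ι.σσ] at h3
  rw [h2, h3]
  exact h1

/-- the exchange of the `x` and `y` variables -/
def swp : Equiv.Perm (Fin 4) := Equiv.swap 0 2 * Equiv.swap 1 3

theorem swp_0 : swp 0 = 2 := by decide
theorem swp_1 : swp 1 = 3 := by decide
theorem swp_2 : swp 2 = 0 := by decide
theorem swp_3 : swp 3 = 1 := by decide
theorem swp_swp (i : Fin 4) : swp (swp i) = i := by
  revert i
  decide

theorem swp_symm : swp.symm = swp := by
  apply Equiv.ext
  intro i
  rw [Equiv.symm_apply_eq, swp_swp]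

/-- The involution `τ` of the section ring: it exchanges `x` and `y` and acts by `θ` on the
coefficients. -/
noncomputable def tauE : Autom K :=
  (AlgEquiv.restrictScalars ℂ (renameEquiv K swp)).trans (mapAlgEquiv (Fin 4) ι.θ)

theorem tauE_apply (f : MvPolynomial (Fin 4) K) :
    ι.tauE f = MvPolynomial.map (ι.θ : K →+* K) (rename swp f) := rfl

/-- action of `τ` on exponents -/
noncomputable def swe (e : Fin 4 →₀ ℕ) : Fin 4 →₀ ℕ := e.mapDomain swp

theorem swe_apply (e : Fin 4 →₀ ℕ) (i : Fin 4) : swe e i = e (swp i) := by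
  unfold swe
  have : e.mapDomain swp (swp (swp i)) = e (swp i) :=
    Finsupp.mapDomain_apply swp.injective e (swp i)
  rwa [swp_swp] at this

theorem swe_swe (e : Fin 4 →₀ ℕ) : swe (swe e) = e := by
  ext i
  rw [swe_apply, swe_apply, swp_swp]

theorem coeff_tauE (f : MvPolynomial (Fin 4) K) (e : Fin 4 →₀ ℕ) :
    (ι.tauE f).coeff e = ι.θ (f.coeff (swe e)) := by
  rw [tauE_apply, coeff_map]
  have h := coeff_rename_mapDomain swp swp.injective f (swe e)
  have h2 : (swe e).mapDomain swp = e := swe_swe e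
  rw [h2] at h
  rw [h]
  rfl

theorem tauE_tauE (f : MvPolynomial (Fin 4) K) : ι.tauE (ι.tauE f) = f := by
  ext e
  rw [coeff_tauE, coeff_tauE, swe_swe, ι.θθ]

theorem tauE_symm : ι.tauE.symm = ι.tauE := by
  apply AlgEquiv.ext
  intro z
  rw [AlgEquiv.symm_apply_eq, ι.tauE_tauE]

theorem tauE_mem_sec (hD : ι.Fixes D₀) {N : ℕ} {f : MvPolynomial (Fin 4) K}
    (hf : f ∈ T.sec q D₀ N) : ι.tauE f ∈ T.sec q D₀ N := by
  intro e he
  rw [coeff_tauE] at he ⊢
  have h0 : f.coeff (swe e) ≠ 0 := by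
    intro h0
    apply he
    rw [h0, map_zero]
  obtain ⟨j, h1, h2, h3, h4⟩ := hf _ h0
  rw [swe_apply, swe_apply, swp_0, swp_1] at h2
  rw [swe_apply, swe_apply, swp_2, swp_3] at h3
  exact ⟨-j, by rw [abs_neg]; exact h1, by rw [h3]; ring, by rw [h2]; ring, ι.θ_mem_V hD h4⟩

theorem pres_tauE (hD : ι.Fixes D₀) : Pres T q D₀ ι.tauE :=
  Pres.of_le (fun _ _ hf => ι.tauE_mem_sec hD hf) (fun _ _ hf => by
    rw [tauE_symm]
    exact ι.tauE_mem_sec hD hf)

theorem fixes_nsmul {D : T.X.Pt →₀ ℤ} (h : ι.Fixes D) (n : ℕ) : ι.Fixes (n • D) := by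
  intro P
  rw [Finsupp.smul_apply, Finsupp.smul_apply, h P]

end Inv

/-! ### The group `Γ` -/

/-- the diagonal matrix `(1, -1)` -/
def s1 : Matrix (Fin 2) (Fin 2) ℂ := !![1, 0; 0, -1]

/-- the antidiagonal matrix -/
def s2 : Matrix (Fin 2) (Fin 2) ℂ := !![0, 1; 1, 0]

theorem isUnit_s1 : IsUnit s1 := by
  rw [Matrix.isUnit_iff_isUnit_det, s1, Matrix.det_fin_two_of]
  norm_num

theorem isUnit_s2 : IsUnit s2 := by
  rw [Matrix.isUnit_iff_isUnit_det, s2, Matrix.det_fin_two_of]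
  norm_num

/-- Invariance of a filtration under the group `Γ = V₄ × ⟨τ⟩`. -/
structure Filt.GammaInv (χ : Filt T q D₀ r) (ι : Inv T) : Prop where
  s1 : ∀ N l, ∀ f ∈ χ.F N l, subst s1 s1 f ∈ χ.F N l
  s2 : ∀ N l, ∀ f ∈ χ.F N l, subst s2 s2 f ∈ χ.F N l
  tau : ∀ N l, ∀ f ∈ χ.F N l, ι.tauE f ∈ χ.F N l

end Pool.Agent.YTD


end

/- source: Pool.Agent.YTD.UnstFg -/

section

/-!
Finite generation of the Rees algebra of `filtU`.
-/

namespace Pool.Agent.YTD

open Finset Module MvPolynomial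

variable {K : Type} [Field K] [Algebra ℂ K]

section span

variable {k : ℕ} (n : Fin k → ℕ) (w : Fin k → ℤ) (f : Fin k → MvPolynomial (Fin 4) K)

/-- the span of the products of generators of degree `N` and weight at least `l`. -/
noncomputable def gspan (N : ℕ) (l : ℤ) : Submodule ℂ (MvPolynomial (Fin 4) K) :=
  Submodule.span ℂ {g | ∃ m : Fin k → ℕ,
      ∑ i, m i * n i = N ∧ l ≤ ∑ i, m i * w i ∧ g = ∏ i, f i ^ m i}

variable {n w f}

theorem gspan_anti {N : ℕ} {l l' : ℤ} (h : l ≤ l') : gspan n w f N l' ≤ gspan n w f N l := by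
  apply Submodule.span_mono
  rintro g ⟨m, h1, h2, h3⟩
  exact ⟨m, h1, h.trans h2, h3⟩

theorem gspan_mul {N N' : ℕ} {l l' : ℤ} {x y : MvPolynomial (Fin 4) K}
    (hx : x ∈ gspan n w f N l) (hy : y ∈ gspan n w f N' l') :
    x * y ∈ gspan n w f (N + N') (l + l') := by
  have h : gspan n w f N l * gspan n w f N' l' ≤ gspan n w f (N + N') (l + l') := by
    unfold gspan
    rw [Submodule.span_mul_span]
    apply Submodule.span_mono
    rintro _ ⟨g, ⟨m, h1, h2, rfl⟩, g', ⟨m', h1', h2', rfl⟩, rfl⟩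
    refine ⟨m + m', ?_, ?_, ?_⟩
    · rw [← h1, ← h1', ← sum_add_distrib]
      exact sum_congr rfl fun i _ => by rw [Pi.add_apply]; ring
    · have : ∑ i, (((m + m') i : ℕ) : ℤ) * w i = ∑ i, (m i : ℤ) * w i + ∑ i, (m' i : ℤ) * w i := by
        rw [← sum_add_distrib]
        exact sum_congr rfl fun i _ => by rw [Pi.add_apply]; push_cast; ring
      rw [this]
      exact add_le_add h2 h2'
    · simp only
      rw [← prod_mul_distrib]
      exact prod_congr rfl fun i _ => by rw [Pi.add_apply, pow_add]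
  exact h (Submodule.mul_mem_mul hx hy)

theorem gen_mem_gspan (i : Fin k) : f i ∈ gspan n w f (n i) (w i) := by
  apply Submodule.subset_span
  refine ⟨Pi.single i 1, ?_, ?_, ?_⟩
  · rw [sum_eq_single i]
    · rw [Pi.single_eq_same, one_mul]
    · intro j _ hj
      rw [Pi.single_eq_of_ne hj, zero_mul]
    · intro h
      exact (h (mem_univ _)).elim
  · rw [sum_eq_single i]
    · rw [Pi.single_eq_same, Nat.cast_one, one_mul]
    · intro j _ hj
      rw [Pi.single_eq_of_ne hj, Nat.cast_zero, zero_mul]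
    · intro h
      exact (h (mem_univ _)).elim
  · rw [prod_eq_single i]
    · rw [Pi.single_eq_same, pow_one]
    · intro j _ hj
      rw [Pi.single_eq_of_ne hj, pow_zero]
    · intro h
      exact (h (mem_univ _)).elim

end span

/-- splitting an index within a chamber. -/
theorem split_index {A B C D j : ℤ} (_hA : 0 ≤ A) (hB : 0 ≤ B) (hC : 0 ≤ C) (hD : 0 ≤ D)
    (hCA : C ≤ 4 * A) (hDB : D ≤ 4 * B) (hj : |j| ≤ 5 * (A + B)) :
    ∃ j₁ j₂ : ℤ, j₁ + j₂ = j ∧ |j₁| ≤ 5 * A ∧ |j₂| ≤ 5 * B ∧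
      max 0 (j - 4 * (A + B)) = max 0 (j₁ - 4 * A) + max 0 (j₂ - 4 * B) ∧
      max 0 (-j - 4 * (A + B)) = max 0 (-j₁ - 4 * A) + max 0 (-j₂ - 4 * B) ∧
      min 0 (C + D - |j|) ≤ min 0 (C - |j₁|) + min 0 (D - |j₂|) := by
  have key : ∀ i : ℤ, 0 ≤ i → i ≤ 5 * (A + B) → ∃ i₁ i₂ : ℤ, i₁ + i₂ = i ∧ 0 ≤ i₁ ∧ 0 ≤ i₂ ∧
      i₁ ≤ 5 * A ∧ i₂ ≤ 5 * B ∧
      max 0 (i - 4 * (A + B)) = max 0 (i₁ - 4 * A) + max 0 (i₂ - 4 * B) ∧
      min 0 (C + D - i) ≤ min 0 (C - i₁) + min 0 (D - i₂) := by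
    intro i h0 h1
    rcases le_or_gt i (C + D) with h2 | h2
    · exact ⟨max 0 (i - D), i - max 0 (i - D), by omega, by omega, by omega, by omega, by omega,
        by omega, by omega⟩
    · rcases le_or_gt i (4 * (A + B)) with h3 | h3
      · exact ⟨max C (i - 4 * B), i - max C (i - 4 * B), by omega, by omega, by omega, by omega,
          by omega, by omega, by omega⟩
      · exact ⟨max (4 * A) (i - 5 * B), i - max (4 * A) (i - 5 * B), by omega, by omega,
          by omega, by omega, by omega, by omega, by omega⟩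
  rcases le_or_gt 0 j with h | h
  · obtain ⟨i₁, i₂, h1, h2, h3, h4, h5, h6, h7⟩ := key j h (by rwa [abs_of_nonneg h] at hj)
    refine ⟨i₁, i₂, h1, ?_, ?_, h6, ?_, ?_⟩
    · rwa [abs_of_nonneg h2]
    · rwa [abs_of_nonneg h3]
    · omega
    · rw [abs_of_nonneg h, abs_of_nonneg h2, abs_of_nonneg h3]
      exact h7
  · obtain ⟨i₁, i₂, h1, h2, h3, h4, h5, h6, h7⟩ := key (-j) (by omega)
      (by rwa [abs_of_neg h] at hj)
    refine ⟨-i₁, -i₂, by omega, ?_, ?_, ?_, ?_, ?_⟩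
    · rwa [abs_neg, abs_of_nonneg h2]
    · rwa [abs_neg, abs_of_nonneg h3]
    · omega
    · rw [neg_neg, neg_neg]
      exact h6
    · rw [abs_neg, abs_neg, abs_of_neg h, abs_of_nonneg h2, abs_of_nonneg h3]
      exact h7

/-- splitting an exponent. -/
theorem split_expo {e : Fin 4 →₀ ℕ} {a₁ a₂ b₁ b₂ : ℤ} (ha₁ : 0 ≤ a₁) (ha₂ : 0 ≤ a₂)
    (hb₁ : 0 ≤ b₁) (hb₂ : 0 ≤ b₂) (h1 : (e 0 : ℤ) + e 1 = a₁ + a₂)
    (h2 : (e 2 : ℤ) + e 3 = b₁ + b₂) :
    ∃ e₁ e₂ : Fin 4 →₀ ℕ, e₁ + e₂ = e ∧ (e₁ 0 : ℤ) + e₁ 1 = a₁ ∧ (e₂ 0 : ℤ) + e₂ 1 = a₂ ∧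
      (e₁ 2 : ℤ) + e₁ 3 = b₁ ∧ (e₂ 2 : ℤ) + e₂ 3 = b₂ := by
  obtain ⟨a, ha⟩ := Int.eq_ofNat_of_zero_le ha₁
  obtain ⟨b, hb⟩ := Int.eq_ofNat_of_zero_le hb₁
  obtain ⟨a', ha'⟩ := Int.eq_ofNat_of_zero_le ha₂
  obtain ⟨b', hb'⟩ := Int.eq_ofNat_of_zero_le hb₂
  subst ha hb ha' hb'
  refine ⟨Finsupp.equivFunOnFinite.symm ![min (e 0) a, a - min (e 0) a, min (e 2) b,
      b - min (e 2) b], Finsupp.equivFunOnFinite.symm ![e 0 - min (e 0) a,
      e 1 - (a - min (e 0) a), e 2 - min (e 2) b, e 3 - (b - min (e 2) b)], ?_, ?_, ?_, ?_, ?_⟩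
  · ext i
    fin_cases i
    · show min (e 0) a + (e 0 - min (e 0) a) = e 0
      omega
    · show (a - min (e 0) a) + (e 1 - (a - min (e 0) a)) = e 1
      omega
    · show min (e 2) b + (e 2 - min (e 2) b) = e 2
      omega
    · show (b - min (e 2) b) + (e 3 - (b - min (e 2) b)) = e 3
      omega
  · show ((min (e 0) a : ℕ) : ℤ) + ((a - min (e 0) a : ℕ) : ℤ) = _
    omega
  · show ((e 0 - min (e 0) a : ℕ) : ℤ) + ((e 1 - (a - min (e 0) a) : ℕ) : ℤ) = _
    omega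
  · show ((min (e 2) b : ℕ) : ℤ) + ((b - min (e 2) b : ℕ) : ℤ) = _
    omega
  · show ((e 2 - min (e 2) b : ℕ) : ℤ) + ((e 3 - (b - min (e 2) b) : ℕ) : ℤ) = _
    omega

variable (T : Datum K)

theorem V_split {q : ℕ} {D₀ : T.X.Pt →₀ ℤ} (hD : 100 * (T.t : ℤ) * q < T.X.deg D₀)
    {N₁ N₂ : ℕ} {j₁ j₂ : ℤ} (h₁ : |j₁| ≤ 5 * q * N₁) (h₂ : |j₂| ≤ 5 * q * N₂)
    (hN₁ : 18 * T.t + 2 ≤ N₁) (hN₂ : T.X.deg D₀ * N₁ + 18 * T.t + 1 ≤ N₂)
    (hp : max 0 (j₁ + j₂ - 4 * q * ((N₁ + N₂ : ℕ) : ℤ)) =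
      max 0 (j₁ - 4 * q * N₁) + max 0 (j₂ - 4 * q * N₂))
    (hm : max 0 (-(j₁ + j₂) - 4 * q * ((N₁ + N₂ : ℕ) : ℤ)) =
      max 0 (-j₁ - 4 * q * N₁) + max 0 (-j₂ - 4 * q * N₂)) :
    T.V q D₀ (N₁ + N₂) (j₁ + j₂) ≤ T.V q D₀ N₁ j₁ * T.V q D₀ N₂ j₂ := by
  obtain ⟨P₀⟩ := T.exists_pt
  have ht := T.t_pos
  have hdl : ∀ (N : ℕ) (j : ℤ), |j| ≤ 5 * q * N →
      (T.X.deg D₀ - 100 * T.t * q) * N ≤ T.X.deg (T.dvs q D₀ N j) := by
    intro N j hj
    rw [deg_dvs]
    have h3 : max 0 (j - 4 * (q : ℤ) * N) + max 0 (-j - 4 * (q : ℤ) * N) ≤ q * N := by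
      have h0 : (0 : ℤ) ≤ q * N := by positivity
      have e : 5 * (q : ℤ) * N = 5 * (q * N) := by ring
      have e' : 4 * (q : ℤ) * N = 4 * (q * N) := by ring
      rw [e] at hj
      rw [e']
      generalize (q : ℤ) * N = a at *
      rw [abs_le] at hj
      omega
    have h4 : (0 : ℤ) ≤ 100 * T.t := by positivity
    nlinarith [mul_le_mul_of_nonneg_left h3 h4]
  have hge : ∀ (N : ℕ) (j : ℤ), |j| ≤ 5 * q * N → (N : ℤ) ≤ T.X.deg (T.dvs q D₀ N j) := by
    intro N j hj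
    have h5 := hdl N j hj
    have h6 : (1 : ℤ) ≤ T.X.deg D₀ - 100 * T.t * q := by linarith
    have h7 : (0 : ℤ) ≤ N := by positivity
    nlinarith
  have hdeg1 : 2 * (T.X.genus : ℤ) ≤ T.X.deg (T.dvs q D₀ N₁ j₁) := by
    have h5 := hge N₁ j₁ h₁
    rw [T.genus_eq]
    push_cast
    have : (18 * (T.t : ℤ) + 2) ≤ N₁ := by exact_mod_cast hN₁
    linarith
  have hW : T.V q D₀ N₁ j₁ ≠ ⊥ := T.X.L_ne_bot hdeg1
  have hmdeg : T.X.mdeg (T.V q D₀ N₁ j₁) = T.X.deg (T.dvs q D₀ N₁ j₁) := T.X.mdeg_L P₀ hdeg1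
  have hmdiv : T.X.mdiv (T.V q D₀ N₁ j₁) = T.dvs q D₀ N₁ j₁ := T.X.mdiv_L P₀ hdeg1
  have hup : T.X.deg (T.dvs q D₀ N₁ j₁) ≤ T.X.deg D₀ * N₁ := by
    rw [deg_dvs]
    have h6 : (0 : ℤ) ≤ 100 * T.t *
        (max 0 (j₁ - 4 * (q : ℤ) * N₁) + max 0 (-j₁ - 4 * (q : ℤ) * N₁)) := by positivity
    linarith
  have h := T.X.pencil P₀ (W := T.V q D₀ N₁ j₁) (E := T.dvs q D₀ N₁ j₁)
    (D := T.dvs q D₀ N₂ j₂) le_rfl hW (by
      rw [hmdeg, T.genus_eq]
      have h5 := hge N₂ j₂ h₂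
      push_cast
      linarith)
  rw [hmdiv] at h
  have e : T.dvs q D₀ (N₁ + N₂) (j₁ + j₂) = T.dvs q D₀ N₂ j₂ + T.dvs q D₀ N₁ j₁ := by
    rw [T.dvs_eq, T.dvs_eq, T.dvs_eq, hp, hm, add_smul, add_smul, add_smul]
    abel
  show T.X.L (T.dvs q D₀ (N₁ + N₂) (j₁ + j₂)) ≤ _
  rw [e]
  exact h

/-- Finite generation. -/
theorem filtU_fg {q : ℕ} {D₀ : T.X.Pt →₀ ℤ} (hD : 100 * (T.t : ℤ) * q < T.X.deg D₀) {u : ℕ}
    (hu : u ≤ 4 * q) :
    ∃ (k : ℕ) (n : Fin k → ℕ) (w : Fin k → ℤ) (f : Fin k → MvPolynomial (Fin 4) K),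
    (∀ i, f i ∈ (filtU T q u D₀).F (n i) (w i)) ∧
    ∀ N l, (filtU T q u D₀).F N l ≤ Submodule.span ℂ {g | ∃ m : Fin k → ℕ,
      ∑ i, m i * n i = N ∧ l ≤ ∑ i, m i * w i ∧ g = ∏ i, f i ^ m i} := by
  classical
  have hfin := T.finite_V q D₀
  obtain ⟨d, hd⟩ : ∃ d : ℕ, T.X.deg D₀ = d := by
    apply Int.eq_ofNat_of_zero_le
    have : (0 : ℤ) ≤ 100 * T.t * q := by positivity
    linarith
  set N₁ : ℕ := 18 * T.t + 2 with hN₁
  set M : ℕ := N₁ + (d * N₁ + 18 * T.t + 1) with hM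
  let I : Type := (N : Fin M) × (i : {i // i ∈ idx q (N : ℕ)}) ×
    Fin (finrank ℂ (T.V q D₀ (N : ℕ) i.1.1))
  let φ : Fin (Fintype.card I) ≃ I := (Fintype.equivFin I).symm
  let n : Fin (Fintype.card I) → ℕ := fun i => ((φ i).1 : ℕ)
  let w : Fin (Fintype.card I) → ℤ := fun i =>
    min 0 ((u : ℤ) * ((φ i).1 : ℕ) - |(φ i).2.1.1.1|)
  let f : Fin (Fintype.card I) → MvPolynomial (Fin 4) K := fun i =>
    monomial (uexpo q ((φ i).1 : ℕ) (φ i).2.1.1)
      ((Module.finBasis ℂ (T.V q D₀ ((φ i).1 : ℕ) (φ i).2.1.1.1) (φ i).2.2 :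
        T.V q D₀ ((φ i).1 : ℕ) (φ i).2.1.1.1) : K)
  refine ⟨Fintype.card I, n, w, f, ?_, ?_⟩
  · intro i
    rw [filtU_F]
    have hi := (φ i).2.1.2
    refine monomial_mem_bigr (mem_idx.1 hi).1 (expo_x hi) (expo_y hi) ?_
    rw [UF_pos T le_rfl]
    exact Subtype.coe_prop _
  -- the main induction
  have main : ∀ (N : ℕ) (j : ℤ), |j| ≤ 5 * q * N → ∀ e : Fin 4 →₀ ℕ,
      (e 0 : ℤ) + e 1 = 25 * q * N + 3 * j → (e 2 : ℤ) + e 3 = 25 * q * N - 3 * j →
      ∀ c ∈ T.V q D₀ N j, monomial e c ∈ gspan n w f N (min 0 ((u : ℤ) * N - |j|)) := by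
    intro N
    induction N using Nat.strong_induction_on with
    | _ N ih =>
      intro j hj e h1 h2 c hc
      rcases Nat.lt_or_ge N M with hNM | hNM
      · obtain ⟨h3, h4⟩ := exists_uexpo hj h1 h2
        have h5 : ∀ r : Fin (finrank ℂ (T.V q D₀ N j)),
            monomial e ((Module.finBasis ℂ (T.V q D₀ N j) r : T.V q D₀ N j) : K) ∈
              gspan n w f N (min 0 ((u : ℤ) * N - |j|)) := by
          intro r
          let x : I := ⟨⟨N, hNM⟩, ⟨⟨j, (e 0, e 2)⟩, h3⟩, r⟩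
          have h6 := gen_mem_gspan (n := n) (w := w) (f := f) (φ.symm x)
          have hx : φ (φ.symm x) = x := φ.apply_symm_apply x
          have e1 : n (φ.symm x) = N := by
            show ((φ (φ.symm x)).1 : ℕ) = N
            rw [hx]
          have e2 : w (φ.symm x) = min 0 ((u : ℤ) * N - |j|) := by
            show min 0 ((u : ℤ) * ((φ (φ.symm x)).1 : ℕ) - |(φ (φ.symm x)).2.1.1.1|) = _
            rw [hx]
          have e3 : f (φ.symm x) =
              monomial e ((Module.finBasis ℂ (T.V q D₀ N j) r : T.V q D₀ N j) : K) := by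
            show monomial (uexpo q ((φ (φ.symm x)).1 : ℕ) (φ (φ.symm x)).2.1.1)
              ((Module.finBasis ℂ (T.V q D₀ ((φ (φ.symm x)).1 : ℕ) (φ (φ.symm x)).2.1.1.1)
                (φ (φ.symm x)).2.2 :
                T.V q D₀ ((φ (φ.symm x)).1 : ℕ) (φ (φ.symm x)).2.1.1.1) : K) = _
            rw [hx]
            show monomial (uexpo q N ⟨j, (e 0, e 2)⟩) _ = _
            rw [h4]
          rw [e1, e2, e3] at h6
          exact h6
        have h7 : c = ∑ r, (Module.finBasis ℂ (T.V q D₀ N j)).repr ⟨c, hc⟩ r •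
            ((Module.finBasis ℂ (T.V q D₀ N j) r : T.V q D₀ N j) : K) := by
          have h8 := (Module.finBasis ℂ (T.V q D₀ N j)).sum_repr ⟨c, hc⟩
          have h9 := congrArg (Subtype.val) h8
          rw [AddSubmonoidClass.coe_finsetSum] at h9
          exact h9.symm
        rw [h7, map_sum]
        refine sum_mem fun r _ => ?_
        have h10 : monomial e ((Module.finBasis ℂ (T.V q D₀ N j)).repr ⟨c, hc⟩ r •
            ((Module.finBasis ℂ (T.V q D₀ N j) r : T.V q D₀ N j) : K)) =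
            (Module.finBasis ℂ (T.V q D₀ N j)).repr ⟨c, hc⟩ r • monomial e
              ((Module.finBasis ℂ (T.V q D₀ N j) r : T.V q D₀ N j) : K) := by
          rw [smul_monomial]
        rw [h10]
        exact Submodule.smul_mem _ _ (h5 r)
      · obtain ⟨N₂, rfl⟩ : ∃ N₂, N = N₁ + N₂ := ⟨N - N₁, by omega⟩
        have hN₂ : d * N₁ + 18 * T.t + 1 ≤ N₂ := by omega
        have eq1 : 5 * (q : ℤ) * ((N₁ + N₂ : ℕ) : ℤ) = 5 * (q * N₁ + q * N₂) := by push_cast; ring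
        rw [eq1] at hj
        obtain ⟨j₁, j₂, rfl, g1, g2, g3, g4, g5⟩ := split_index (A := q * N₁) (B := q * N₂)
          (C := u * N₁) (D := u * N₂) (by positivity) (by positivity) (by positivity)
          (by positivity) (by
            have : (u : ℤ) ≤ 4 * q := by exact_mod_cast hu
            nlinarith [(Nat.cast_nonneg N₁ : (0 : ℤ) ≤ N₁)]) (by
            have : (u : ℤ) ≤ 4 * q := by exact_mod_cast hu
            nlinarith [(Nat.cast_nonneg N₂ : (0 : ℤ) ≤ N₂)]) hj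
        have g1' : |j₁| ≤ 5 * q * N₁ := by rw [mul_assoc]; exact g1
        have g2' : |j₂| ≤ 5 * q * N₂ := by rw [mul_assoc]; exact g2
        have hr : ∀ (N : ℕ) (j : ℤ), |j| ≤ 5 * q * N → 0 ≤ 25 * (q : ℤ) * N + 3 * j ∧
            0 ≤ 25 * (q : ℤ) * N - 3 * j := by
          intro N j h
          rw [abs_le] at h
          have : (0 : ℤ) ≤ q * N := by positivity
          constructor <;> nlinarith
        obtain ⟨e₁, e₂, he, k1, k2, k3, k4⟩ := split_expo (e := e)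
          (a₁ := 25 * q * N₁ + 3 * j₁) (a₂ := 25 * q * N₂ + 3 * j₂)
          (b₁ := 25 * q * N₁ - 3 * j₁) (b₂ := 25 * q * N₂ - 3 * j₂)
          (hr _ _ g1').1 (hr _ _ g2').1 (hr _ _ g1').2 (hr _ _ g2').2
          (by rw [h1]; push_cast; ring) (by rw [h2]; push_cast; ring)
        have hsplit := V_split T hD g1' g2' hN₁.ge (by
          rw [hd]
          exact_mod_cast hN₂) (by
          have a1 : 4 * (q : ℤ) * ((N₁ + N₂ : ℕ) : ℤ) = 4 * (q * N₁ + q * N₂) := by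
            push_cast; ring
          rw [a1, g3, mul_assoc, mul_assoc]) (by
          have a1 : 4 * (q : ℤ) * ((N₁ + N₂ : ℕ) : ℤ) = 4 * (q * N₁ + q * N₂) := by
            push_cast; ring
          rw [a1, g4, mul_assoc, mul_assoc])
        have hc' := hsplit hc
        refine gspan_anti (l' := min 0 ((u : ℤ) * N₁ - |j₁|) + min 0 ((u : ℤ) * N₂ - |j₂|)) ?_ ?_
        · refine le_trans (le_of_eq ?_) g5
          congr 2
          push_cast
          ring
        · refine Submodule.mul_induction_on hc' ?_ ?_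
          · intro a ha b hb
            have e3 : monomial e (a * b) = monomial e₁ a * monomial e₂ b := by
              rw [monomial_mul, he]
            rw [e3]
            exact gspan_mul (ih N₁ (by omega) j₁ g1' e₁ k1 k3 a ha)
              (ih N₂ (by omega) j₂ g2' e₂ k2 k4 b hb)
          · intro x y hx hy
            rw [map_add]
            exact add_mem hx hy
  intro N l g hg
  rw [filtU_F] at hg
  show g ∈ gspan n w f N l
  rw [g.as_sum]
  refine sum_mem fun e he => ?_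
  rw [MvPolynomial.mem_support_iff] at he
  obtain ⟨j, h1, h2, h3, h4⟩ := hg e he
  by_cases hl : l ≤ min 0 ((u : ℤ) * N - |j|)
  · rw [UF_pos T hl] at h4
    exact gspan_anti hl (main N j h1 e h2 h3 _ h4)
  · rw [UF_neg T hl, Submodule.mem_bot] at h4
    exact (he h4).elim

/-- the test configurations. -/
noncomputable def testU {q : ℕ} {D₀ : T.X.Pt →₀ ℤ} (hD : 100 * (T.t : ℤ) * q < T.X.deg D₀)
    {u : ℕ} (hu : u ≤ 4 * q) : TestConf T q D₀ 1 where
  toFilt := filtU T q u D₀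
  fg := filtU_fg T hD hu

/-- Instability of the polarizations of slope slightly less than the critical one. -/
theorem unstable {q : ℕ} (hq : 0 < q) (D₀ : T.X.Pt →₀ ℤ)
    (hD : T.X.deg D₀ = T.t * (105 * q - 1)) :
    ∃ χ : TestConf T q D₀ 1, χ.Equivariant ∧ ∃ Fut : ℝ, χ.HasFutaki Fut ∧ Fut < 0 := by
  obtain ⟨u, h1, h2, _, h4⟩ := exists_u q
  have ht := T.t_pos
  have hD' : 100 * (T.t : ℤ) * q < T.X.deg D₀ := by
    rw [hD]
    have h5 : (1 : ℤ) ≤ q := by exact_mod_cast hq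
    have h6 : (1 : ℤ) ≤ T.t := by exact_mod_cast ht
    nlinarith
  have e : ((T.X.deg D₀ : ℤ) : ℝ) = T.t * (105 * q - 1) := by
    rw [hD]
    push_cast
    ring
  refine ⟨testU T hD' h4, filtU_equivariant T q u D₀, _, ⟨_, _, _, _, _,
    expansion_filtU T hD' h4, rfl⟩, ?_⟩
  rw [e]
  exact fut_neg hq ht h1 h2

end Pool.Agent.YTD


end

/- source: Pool.Agent.YTD.HypGamma -/

section

/-!
Existence of the data `(C, S, S', τ)`, invariant divisors, and `Γ`-invariance of the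
destabilizing filtration.
-/

namespace Pool.Agent.YTD

open Finset Module MvPolynomial

theorem exists_datum_Inv (t : ℕ) (ht : 0 < t) (hev : Even t) :
    ∃ (K : Type) (_ : Field K) (_ : Algebra ℂ K) (T : Datum K) (_ : Inv T), T.t = t := by
  obtain ⟨K, i1, i2, T, θ, σ, h1, h2, h3, h4, h5, h6⟩ := Hyp.exists_datum_inv t ht hev
  exact ⟨K, i1, i2, T, ⟨θ, σ, h2, h3, h4, h5, h6⟩, h1⟩

variable {K : Type} [Field K] [Algebra ℂ K] {T : Datum K}

/-- Invariant divisors of every even degree. -/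
theorem Inv.exists_divisor (ι : Inv T) (P : T.X.Pt) (m : ℤ) :
    ∃ D₀ : T.X.Pt →₀ ℤ, T.X.deg D₀ = 2 * m ∧ ι.Fixes D₀ := by
  classical
  refine ⟨Finsupp.single P m + Finsupp.single (ι.σ P) m, ?_, ?_⟩
  · rw [T.X.deg_add, T.X.deg_single, T.X.deg_single]
    ring
  · intro Q
    rw [Finsupp.add_apply, Finsupp.add_apply]
    simp only [Finsupp.single_apply]
    have h1 : (P = ι.σ Q) = (ι.σ P = Q) := propext
      ⟨fun h => by rw [h, ι.σσ], fun h => by rw [← h, ι.σσ]⟩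
    have h2 : (ι.σ P = ι.σ Q) = (P = Q) := propext
      ⟨fun h => by rw [← ι.σσ P, h, ι.σσ], fun h => by rw [h]⟩
    simp only [h1, h2]
    ring

theorem Datum.exists_point (T : Datum K) : Nonempty T.X.Pt := by
  have h : T.S.Nonempty := by
    rw [← Finset.card_pos, T.card_S]
    have := T.t_pos
    omega
  obtain ⟨P, _⟩ := h
  exact ⟨P⟩

/-- The destabilizing filtration is `Γ`-invariant. -/
theorem filtU_gammaInv (ι : Inv T) {q : ℕ} {D₀ : T.X.Pt →₀ ℤ} (hD : ι.Fixes D₀) (u : ℕ) :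
    (filtU T q u D₀).GammaInv ι where
  s1 N l f hf := filtU_equivariant T q u D₀ s1 s1 isUnit_s1 isUnit_s1 N l f hf
  s2 N l f hf := filtU_equivariant T q u D₀ s2 s2 isUnit_s2 isUnit_s2 N l f hf
  tau := by
    intro N l f hf e he
    rw [ι.coeff_tauE] at he ⊢
    have h0 : f.coeff (Inv.swe e) ≠ 0 := by
      intro h0
      apply he
      rw [h0, map_zero]
    obtain ⟨j, h1, h2, h3, h4⟩ := hf _ h0
    rw [Inv.swe_apply, Inv.swe_apply, Inv.swp_0, Inv.swp_1] at h2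
    rw [Inv.swe_apply, Inv.swe_apply, Inv.swp_2, Inv.swp_3] at h3
    refine ⟨-j, by rw [abs_neg]; exact h1, by rw [h3]; ring, by rw [h2]; ring, ?_⟩
    unfold UF at h4 ⊢
    rw [abs_neg]
    split_ifs at h4 ⊢ with h5
    · exact ι.θ_mem_V hD h4
    · rw [Submodule.mem_bot] at h4 ⊢
      rw [h4, map_zero]

/-- `Γ`-invariant instability of the polarizations of slope slightly less than the critical
one. -/
theorem unstable_gamma (ι : Inv T) {q : ℕ} (hq : 0 < q) (D₀ : T.X.Pt →₀ ℤ) (hι : ι.Fixes D₀)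
    (hD : T.X.deg D₀ = T.t * (105 * q - 1)) :
    ∃ χ : TestConf T q D₀ 1, χ.Equivariant ∧ χ.GammaInv ι ∧
      ∃ Fut : ℝ, χ.HasFutaki Fut ∧ Fut < 0 := by
  obtain ⟨u, h1, h2, _, h4⟩ := exists_u q
  have ht := T.t_pos
  have hD' : 100 * (T.t : ℤ) * q < T.X.deg D₀ := by
    rw [hD]
    have h5 : (1 : ℤ) ≤ q := by exact_mod_cast hq
    have h6 : (1 : ℤ) ≤ T.t := by exact_mod_cast ht
    nlinarith
  have e : ((T.X.deg D₀ : ℤ) : ℝ) = T.t * (105 * q - 1) := by
    rw [hD]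
    push_cast
    ring
  refine ⟨testU T hD' h4, filtU_equivariant T q u D₀, filtU_gammaInv ι hι u, _,
    ⟨_, _, _, _, _, expansion_filtU T hD' h4, rfl⟩, ?_⟩
  rw [e]
  exact fut_neg hq ht h1 h2

end Pool.Agent.YTD


end

/- source: Pool.Agent.YTD.Gam -/

section

/-!
The group `Γ = (ℤ/2)³` acting freely on the curve and on the section ring.
-/

namespace Pool.Agent.YTD

open Finset Module MvPolynomial Filter

variable {K : Type} [Field K] [Algebra ℂ K]
variable {T : Datum K} {q : ℕ} {D₀ : T.X.Pt →₀ ℤ} {r : ℕ}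

/-! ### Automorphisms of the coefficient field -/

/-- The automorphism of `K[x₀, x₁, y₀, y₁]` acting by `θ` on the coefficients. -/
noncomputable def coefE (θ : K ≃ₐ[ℂ] K) : Autom K := mapAlgEquiv (Fin 4) θ

theorem coefE_apply (θ : K ≃ₐ[ℂ] K) (f : MvPolynomial (Fin 4) K) :
    coefE θ f = MvPolynomial.map (θ : K →+* K) f := rfl

theorem coefE_symm (θ : K ≃ₐ[ℂ] K) : (coefE θ).symm = coefE θ.symm := rfl

theorem coeff_coefE (θ : K ≃ₐ[ℂ] K) (f : MvPolynomial (Fin 4) K) (e : Fin 4 →₀ ℕ) :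
    (coefE θ f).coeff e = θ (f.coeff e) := by
  rw [coefE_apply, coeff_map]
  rfl

theorem coefE_X (θ : K ≃ₐ[ℂ] K) (i : Fin 4) : coefE θ (X i) = X i := by
  rw [coefE_apply, map_X]

theorem coefE_C (θ : K ≃ₐ[ℂ] K) (c : K) : coefE θ (C c) = C (θ c) := by
  rw [coefE_apply, map_C]
  rfl

/-- Complex substitutions commute with automorphisms of the coefficients. -/
theorem coefE_subst (θ : K ≃ₐ[ℂ] K) (g h : Matrix (Fin 2) (Fin 2) ℂ)
    (f : MvPolynomial (Fin 4) K) : coefE θ (subst g h f) = subst g h (coefE θ f) := by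
  induction f using MvPolynomial.induction_on with
  | C a =>
    have e1 : subst g h (C a) = C a := (subst (K := K) g h).commutes a
    have e2 : subst g h (C (θ a)) = C (θ a) := (subst (K := K) g h).commutes (θ a)
    rw [e1, coefE_C, e2]
  | add p p' h1 h2 => rw [map_add, map_add, h1, h2, map_add, map_add]
  | mul_X p i hp =>
    rw [map_mul, map_mul, hp, map_mul, map_mul, coefE_X]
    congr 1
    have hi : i = 0 ∨ i = 1 ∨ i = 2 ∨ i = 3 := by
      fin_cases i <;> simp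
    rcases hi with rfl | rfl | rfl | rfl
    · rw [subst_X0, map_add, map_smul, map_smul, coefE_X, coefE_X]
    · rw [subst_X1, map_add, map_smul, map_smul, coefE_X, coefE_X]
    · rw [subst_X2, map_add, map_smul, map_smul, coefE_X, coefE_X]
    · rw [subst_X3, map_add, map_smul, map_smul, coefE_X, coefE_X]

/-- An automorphism of the curve (a field automorphism with the corresponding permutation of
the points) of order two preserving `S` and `S'`. -/
structure Sym (T : Datum K) where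
  θ : K ≃ₐ[ℂ] K
  σ : T.X.Pt → T.X.Pt
  θθ : ∀ z, θ (θ z) = z
  σσ : ∀ P, σ (σ P) = P
  ord_σ : ∀ P z, z ≠ 0 → T.X.ord (σ P) (θ z) = T.X.ord P z
  S_iff : ∀ P, P ∈ T.S ↔ σ P ∈ T.S
  S'_iff : ∀ P, P ∈ T.S' ↔ σ P ∈ T.S'

namespace Sym

variable (κ : Sym T)

/-- The divisor is invariant. -/
def Fixes (D : T.X.Pt →₀ ℤ) : Prop := ∀ P, D (κ.σ P) = D P

theorem symm_eq : κ.θ.symm = κ.θ := by
  apply AlgEquiv.ext
  intro z
  rw [AlgEquiv.symm_apply_eq, κ.θθ]

theorem dvs_σ (hD : κ.Fixes D₀) (N : ℕ) (j : ℤ) (P : T.X.Pt) :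
    T.dvs q D₀ N j (κ.σ P) = T.dvs q D₀ N j P := by
  classical
  unfold Datum.dvs
  have h1 : (κ.σ P ∈ T.S) = (P ∈ T.S) := propext (κ.S_iff P).symm
  have h2 : (κ.σ P ∈ T.S') = (P ∈ T.S') := propext (κ.S'_iff P).symm
  simp only [Finsupp.sub_apply, Finsupp.smul_apply, Inv.sum_single_apply, h1, h2, hD P]

theorem θ_mem_V (hD : κ.Fixes D₀) {N : ℕ} {j : ℤ} {z : K} (hz : z ∈ T.V q D₀ N j) :
    κ.θ z ∈ T.V q D₀ N j := by
  intro h0 P
  have hz0 : z ≠ 0 := by
    rintro rfl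
    exact h0 (map_zero _)
  have h1 := hz hz0 (κ.σ P)
  have h2 := κ.ord_σ (κ.σ P) z hz0
  rw [κ.σσ] at h2
  have h3 := κ.dvs_σ (q := q) hD N j (κ.σ P)
  rw [κ.σσ] at h3
  rw [h2, h3]
  exact h1

theorem coefE_mem_sec (hD : κ.Fixes D₀) {N : ℕ} {f : MvPolynomial (Fin 4) K}
    (hf : f ∈ T.sec q D₀ N) : coefE κ.θ f ∈ T.sec q D₀ N := by
  intro e he
  rw [coeff_coefE] at he ⊢
  have h0 : f.coeff e ≠ 0 := by
    intro h0
    apply he
    rw [h0, map_zero]
  obtain ⟨j, h1, h2, h3, h4⟩ := hf _ h0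
  exact ⟨j, h1, h2, h3, κ.θ_mem_V hD h4⟩

/-- The automorphism of the section ring given by a symmetry of the curve and a pair of
matrices: `f ↦ θ (f ∘ (g, h))`. -/
noncomputable def autE (g h : Matrix (Fin 2) (Fin 2) ℂ) (hg : IsUnit g) (hh : IsUnit h) :
    Autom K := (substE K g h hg hh).trans (coefE κ.θ)

theorem autE_apply {g h : Matrix (Fin 2) (Fin 2) ℂ} (hg : IsUnit g) (hh : IsUnit h)
    (f : MvPolynomial (Fin 4) K) :
    κ.autE g h hg hh f = MvPolynomial.map (κ.θ : K →+* K) (subst g h f) := rfl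

theorem autE_symm_apply {g h : Matrix (Fin 2) (Fin 2) ℂ} (hg : IsUnit g) (hh : IsUnit h)
    (f : MvPolynomial (Fin 4) K) :
    (κ.autE g h hg hh).symm f = subst g⁻¹ h⁻¹ (MvPolynomial.map (κ.θ : K →+* K) f) := by
  have h1 : (κ.autE g h hg hh).symm f = (substE K g h hg hh).symm ((coefE κ.θ).symm f) := rfl
  rw [h1, coefE_symm, κ.symm_eq]
  rfl

theorem pres_coefE (hD : κ.Fixes D₀) : Pres T q D₀ (coefE κ.θ) :=
  Pres.of_le (fun _ _ hf => κ.coefE_mem_sec hD hf) (fun _ _ hf => by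
    rw [coefE_symm, κ.symm_eq]
    exact κ.coefE_mem_sec hD hf)

theorem pres_autE (hD : κ.Fixes D₀) {g h : Matrix (Fin 2) (Fin 2) ℂ} (hg : IsUnit g)
    (hh : IsUnit h) : Pres T q D₀ (κ.autE g h hg hh) :=
  (pres_substE hg hh).trans (κ.pres_coefE hD)

theorem fixes_nsmul {D : T.X.Pt →₀ ℤ} (h : κ.Fixes D) (n : ℕ) : κ.Fixes (n • D) := by
  intro P
  rw [Finsupp.smul_apply, Finsupp.smul_apply, h P]

end Sym

/-! ### The group -/

/-- Three commuting involutions of the curve generating a group `(ℤ/2)³` which acts freely on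
the points. The first one exchanges `S` and `S'`, the other two (`θ₁` and `θ₂`) preserve `S` and
`S'`. -/
structure Gam (T : Datum K) extends Inv T where
  θ₁ : K ≃ₐ[ℂ] K
  θ₂ : K ≃ₐ[ℂ] K
  σ₁ : T.X.Pt → T.X.Pt
  σ₂ : T.X.Pt → T.X.Pt
  θθ₁ : ∀ z, θ₁ (θ₁ z) = z
  θθ₂ : ∀ z, θ₂ (θ₂ z) = z
  σσ₁ : ∀ P, σ₁ (σ₁ P) = P
  σσ₂ : ∀ P, σ₂ (σ₂ P) = P
  ord_σ₁ : ∀ P z, z ≠ 0 → T.X.ord (σ₁ P) (θ₁ z) = T.X.ord P z
  ord_σ₂ : ∀ P z, z ≠ 0 → T.X.ord (σ₂ P) (θ₂ z) = T.X.ord P z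
  S_iff₁ : ∀ P, P ∈ T.S ↔ σ₁ P ∈ T.S
  S_iff₂ : ∀ P, P ∈ T.S ↔ σ₂ P ∈ T.S
  S'_iff₁ : ∀ P, P ∈ T.S' ↔ σ₁ P ∈ T.S'
  S'_iff₂ : ∀ P, P ∈ T.S' ↔ σ₂ P ∈ T.S'
  comm₁₂ : ∀ z, θ₁ (θ₂ z) = θ₂ (θ₁ z)
  comm₁ : ∀ z, θ (θ₁ z) = θ₁ (θ z)
  comm₂ : ∀ z, θ (θ₂ z) = θ₂ (θ z)
  σcomm₁₂ : ∀ P, σ₁ (σ₂ P) = σ₂ (σ₁ P)
  σcomm₁ : ∀ P, σ (σ₁ P) = σ₁ (σ P)
  σcomm₂ : ∀ P, σ (σ₂ P) = σ₂ (σ P)
  free₁ : ∀ P, σ₁ P ≠ P
  free₂ : ∀ P, σ₂ P ≠ P
  free₁₂ : ∀ P, σ₁ (σ₂ P) ≠ P
  free₀₁ : ∀ P, σ (σ₁ P) ≠ P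
  free₀₂ : ∀ P, σ (σ₂ P) ≠ P
  free₀₁₂ : ∀ P, σ (σ₁ (σ₂ P)) ≠ P

namespace Gam

variable (γ : Gam T)

/-- the first symmetry -/
def sym₁ : Sym T := ⟨γ.θ₁, γ.σ₁, γ.θθ₁, γ.σσ₁, γ.ord_σ₁, γ.S_iff₁, γ.S'_iff₁⟩

/-- the second symmetry -/
def sym₂ : Sym T := ⟨γ.θ₂, γ.σ₂, γ.θθ₂, γ.σσ₂, γ.ord_σ₂, γ.S_iff₂, γ.S'_iff₂⟩

/-- The divisor is invariant under the three involutions. -/
def Fixes (D : T.X.Pt →₀ ℤ) : Prop :=
  (∀ P, D (γ.σ P) = D P) ∧ (∀ P, D (γ.σ₁ P) = D P) ∧ ∀ P, D (γ.σ₂ P) = D P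

variable {γ}

theorem Fixes.inv {D : T.X.Pt →₀ ℤ} (h : γ.Fixes D) : γ.toInv.Fixes D := h.1

theorem Fixes.fst {D : T.X.Pt →₀ ℤ} (h : γ.Fixes D) : γ.sym₁.Fixes D := h.2.1

theorem Fixes.snd {D : T.X.Pt →₀ ℤ} (h : γ.Fixes D) : γ.sym₂.Fixes D := h.2.2

theorem Fixes.nsmul {D : T.X.Pt →₀ ℤ} (h : γ.Fixes D) (n : ℕ) : γ.Fixes (n • D) :=
  ⟨γ.toInv.fixes_nsmul h.inv n, γ.sym₁.fixes_nsmul h.fst n, γ.sym₂.fixes_nsmul h.snd n⟩

variable (γ)

/-- The automorphism `E₁ : f ↦ θ₁ (f (x₀, -x₁, y₀, -y₁))` of the section ring. -/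
noncomputable def E₁ : Autom K := γ.sym₁.autE s1 s1 isUnit_s1 isUnit_s1

/-- The automorphism `E₂ : f ↦ θ₂ (f (x₁, x₀, y₁, y₀))` of the section ring. -/
noncomputable def E₂ : Autom K := γ.sym₂.autE s2 s2 isUnit_s2 isUnit_s2

theorem E₁_apply (f : MvPolynomial (Fin 4) K) :
    γ.E₁ f = MvPolynomial.map (γ.θ₁ : K →+* K) (subst s1 s1 f) := rfl

theorem E₂_apply (f : MvPolynomial (Fin 4) K) :
    γ.E₂ f = MvPolynomial.map (γ.θ₂ : K →+* K) (subst s2 s2 f) := rfl

theorem E₁_eq (f : MvPolynomial (Fin 4) K) :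
    γ.E₁ f = subst s1 s1 (MvPolynomial.map (γ.θ₁ : K →+* K) f) :=
  coefE_subst γ.θ₁ s1 s1 f

theorem E₂_eq (f : MvPolynomial (Fin 4) K) :
    γ.E₂ f = subst s2 s2 (MvPolynomial.map (γ.θ₂ : K →+* K) f) :=
  coefE_subst γ.θ₂ s2 s2 f

variable {γ}

theorem pres_E₁ (hD : γ.Fixes D₀) : Pres T q D₀ γ.E₁ := γ.sym₁.pres_autE hD.fst _ _

theorem pres_E₂ (hD : γ.Fixes D₀) : Pres T q D₀ γ.E₂ := γ.sym₂.pres_autE hD.snd _ _

theorem pres_tauE (hD : γ.Fixes D₀) : Pres T q D₀ γ.tauE := γ.toInv.pres_tauE hD.inv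

end Gam

/-- Invariance of a filtration under the group `Γ`: it is stable under `E₁`, `E₂` and `τ`. -/
structure Filt.GamInv (χ : Filt T q D₀ r) (γ : Gam T) : Prop where
  E₁ : ∀ N l, ∀ f ∈ χ.F N l, γ.E₁ f ∈ χ.F N l
  E₂ : ∀ N l, ∀ f ∈ χ.F N l, γ.E₂ f ∈ χ.F N l
  tau : ∀ N l, ∀ f ∈ χ.F N l, γ.tauE f ∈ χ.F N l

/-- Coefficient automorphisms preserve the destabilizing filtration. -/
theorem Sym.filtU_coefE (κ : Sym T) (hD : κ.Fixes D₀) (u : ℕ) {N : ℕ} {l : ℤ}
    {f : MvPolynomial (Fin 4) K} (hf : f ∈ (filtU T q u D₀).F N l) :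
    coefE κ.θ f ∈ (filtU T q u D₀).F N l := by
  intro e he
  rw [coeff_coefE] at he ⊢
  have h0 : f.coeff e ≠ 0 := by
    intro h0
    apply he
    rw [h0, map_zero]
  obtain ⟨j, h1, h2, h3, h4⟩ := hf _ h0
  refine ⟨j, h1, h2, h3, ?_⟩
  unfold UF at h4 ⊢
  split_ifs at h4 ⊢ with h5
  · exact κ.θ_mem_V hD h4
  · rw [Submodule.mem_bot] at h4 ⊢
    rw [h4, map_zero]

theorem filtU_gamInv (γ : Gam T) (hD : γ.Fixes D₀) (u : ℕ) : (filtU T q u D₀).GamInv γ where
  E₁ N l f hf := γ.sym₁.filtU_coefE hD.fst u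
    (filtU_equivariant T q u D₀ s1 s1 isUnit_s1 isUnit_s1 N l f hf)
  E₂ N l f hf := γ.sym₂.filtU_coefE hD.snd u
    (filtU_equivariant T q u D₀ s2 s2 isUnit_s2 isUnit_s2 N l f hf)
  tau N l f hf := (filtU_gammaInv γ.toInv hD.inv u).tau N l f hf

/-- `Γ`-invariant instability of the polarizations of slope slightly less than the critical
one. -/
theorem unstable_gam (γ : Gam T) {q : ℕ} (hq : 0 < q) (D₀ : T.X.Pt →₀ ℤ) (hγ : γ.Fixes D₀)
    (hD : T.X.deg D₀ = T.t * (105 * q - 1)) :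
    ∃ χ : TestConf T q D₀ 1, χ.Equivariant ∧ χ.GamInv γ ∧
      ∃ Fut : ℝ, χ.HasFutaki Fut ∧ Fut < 0 := by
  obtain ⟨u, h1, h2, _, h4⟩ := exists_u q
  have ht := T.t_pos
  have hD' : 100 * (T.t : ℤ) * q < T.X.deg D₀ := by
    rw [hD]
    have h5 : (1 : ℤ) ≤ q := by exact_mod_cast hq
    have h6 : (1 : ℤ) ≤ T.t := by exact_mod_cast ht
    nlinarith
  have e : ((T.X.deg D₀ : ℤ) : ℝ) = T.t * (105 * q - 1) := by
    rw [hD]
    push_cast
    ring
  refine ⟨testU T hD' h4, filtU_equivariant T q u D₀, filtU_gamInv γ hγ u, _,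
    ⟨_, _, _, _, _, expansion_filtU T hD' h4, rfl⟩, ?_⟩
  rw [e]
  exact fut_neg hq ht h1 h2

/-! ### Invariant divisors -/

open Classical in
/-- The orbit sum of a point. -/
noncomputable def Gam.orb (γ : Gam T) (P : T.X.Pt) (m : ℤ) : T.X.Pt →₀ ℤ :=
  (Finsupp.single P m + Finsupp.single (γ.σ P) m) +
  (Finsupp.single (γ.σ₁ P) m + Finsupp.single (γ.σ (γ.σ₁ P)) m) +
  ((Finsupp.single (γ.σ₂ P) m + Finsupp.single (γ.σ (γ.σ₂ P)) m) +
  (Finsupp.single (γ.σ₁ (γ.σ₂ P)) m + Finsupp.single (γ.σ (γ.σ₁ (γ.σ₂ P))) m))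

/-- Invariant divisors of every degree divisible by eight. -/
theorem Gam.exists_divisor (γ : Gam T) (P : T.X.Pt) (m : ℤ) :
    ∃ D₀ : T.X.Pt →₀ ℤ, T.X.deg D₀ = 8 * m ∧ γ.Fixes D₀ := by
  classical
  refine ⟨γ.orb P m, ?_, ?_, ?_, ?_⟩
  · unfold Gam.orb
    simp only [T.X.deg_add, T.X.deg_single]
    ring
  · intro Q
    unfold Gam.orb
    simp only [Finsupp.add_apply, Finsupp.single_apply]
    have inv : ∀ A B : T.X.Pt, (γ.σ A = γ.σ B) = (A = B) := fun A B => propext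
      ⟨fun h => by rw [← γ.σσ A, h, γ.σσ], fun h => by rw [h]⟩
    have inv' : ∀ A B : T.X.Pt, (A = γ.σ B) = (γ.σ A = B) := fun A B => propext
      ⟨fun h => by rw [h, γ.σσ], fun h => by rw [← h, γ.σσ]⟩
    simp only [inv]
    simp only [inv']
    ring
  · intro Q
    unfold Gam.orb
    simp only [Finsupp.add_apply, Finsupp.single_apply]
    have inv' : ∀ A B : T.X.Pt, (A = γ.σ₁ B) = (γ.σ₁ A = B) := fun A B => propext
      ⟨fun h => by rw [h, γ.σσ₁], fun h => by rw [← h, γ.σσ₁]⟩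
    have c1 : ∀ A, γ.σ₁ (γ.σ A) = γ.σ (γ.σ₁ A) := fun A => (γ.σcomm₁ A).symm
    simp only [inv', c1, γ.σσ₁]
    ring
  · intro Q
    unfold Gam.orb
    simp only [Finsupp.add_apply, Finsupp.single_apply]
    have inv' : ∀ A B : T.X.Pt, (A = γ.σ₂ B) = (γ.σ₂ A = B) := fun A B => propext
      ⟨fun h => by rw [h, γ.σσ₂], fun h => by rw [← h, γ.σσ₂]⟩
    have c1 : ∀ A, γ.σ₂ (γ.σ A) = γ.σ (γ.σ₂ A) := fun A => (γ.σcomm₂ A).symm
    have c2 : ∀ A, γ.σ₂ (γ.σ₁ A) = γ.σ₁ (γ.σ₂ A) := fun A => (γ.σcomm₁₂ A).symm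
    simp only [inv', c1, c2, γ.σσ₂]
    ring

end Pool.Agent.YTD


end

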