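import Pool.Agent.YTDM.P07
import Pool.Agent.YTDM.P17

/- source: Pool.Agent.YTD.RigidCor -/

section

/-!
From the rigidity theorem for graded filtrations to rigidity of filtrations, for all monomial
orders and all automorphisms of the section ring.
-/

namespace Pool.Agent.YTD

open Finset Module MvPolynomial Filter

/-- uniqueness of the coefficients of an asymptotic expansion. -/
theorem coeff_unique {p : ℕ → ℝ} {x y x' y' : ℝ} {k : ℕ}
    (h : ∃ C : ℝ, ∀ᶠ N : ℕ in atTop, |p N - (x * N ^ (k + 2) + y * N ^ (k + 1))| ≤ C * N ^ k)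
    (h' : ∃ C : ℝ, ∀ᶠ N : ℕ in atTop, |p N - (x' * N ^ (k + 2) + y' * N ^ (k + 1))| ≤ C * N ^ k) :
    x = x' ∧ y = y' := by
  obtain ⟨C, hC⟩ := h
  obtain ⟨C', hC'⟩ := h'
  have h1 : ∀ᶠ N : ℕ in atTop, |(x - x') * N + (y - y')| ≤ (C + C') * (1 / N) := by
    filter_upwards [hC, hC', eventually_ge_atTop 1] with N g1 g2 hN
    have hN' : (0 : ℝ) < N := by exact_mod_cast hN
    have g3 : |((x - x') * N + (y - y')) * N ^ (k + 1)| ≤ (C + C') * N ^ k := by
      have e : ((x - x') * N + (y - y')) * N ^ (k + 1) =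
          (p N - (x' * N ^ (k + 2) + y' * N ^ (k + 1))) -
            (p N - (x * N ^ (k + 2) + y * N ^ (k + 1))) := by ring
      rw [e, add_mul]
      refine (abs_sub _ _).trans ?_
      linarith
    rw [abs_mul, abs_of_pos (show (0 : ℝ) < (N : ℝ) ^ (k + 1) by positivity)] at g3
    have e2 : (C + C') * (N : ℝ) ^ k = ((C + C') * (1 / N)) * N ^ (k + 1) := by
      rw [pow_succ]
      field_simp
    rw [e2] at g3
    exact le_of_mul_le_mul_right g3 (by positivity)
  have h2 : Tendsto (fun N : ℕ => (x - x') * (N : ℝ) + (y - y')) atTop (nhds 0) := by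
    apply squeeze_zero_norm' h1
    have := tendsto_one_div_atTop_nhds_zero_nat (𝕜 := ℝ)
    simpa using this.const_mul (C + C')
  have h3 : Tendsto (fun N : ℕ => (x - x') * ((N + 1 : ℕ) : ℝ) + (y - y')) atTop (nhds 0) :=
    (tendsto_add_atTop_iff_nat 1).2 h2
  have h4 := h3.sub h2
  have h5 : (fun N : ℕ => (x - x') * ((N + 1 : ℕ) : ℝ) + (y - y') -
      ((x - x') * (N : ℝ) + (y - y'))) = fun _ => x - x' := by
    funext N
    push_cast
    ring
  rw [h5, sub_zero] at h4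
  have hx : x - x' = 0 := tendsto_nhds_unique tendsto_const_nhds h4
  rw [hx] at h2
  have h6 : (fun N : ℕ => (0 : ℝ) * (N : ℝ) + (y - y')) = fun _ => y - y' := by
    funext N
    ring
  rw [h6] at h2
  have hy : y - y' = 0 := tendsto_nhds_unique tendsto_const_nhds h2
  exact ⟨sub_eq_zero.1 hx, sub_eq_zero.1 hy⟩

variable {K : Type} [Field K] [Algebra ℂ K]
variable {T : Datum K} {q : ℕ} {D₀ : T.X.Pt →₀ ℤ} {r : ℕ}

/-- The coefficients `a₀, a₁` at the critical slope. -/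
theorem Filt.a_eq (hq : 0 < q) (hr : 0 < r) (hD : T.X.deg D₀ = 105 * T.t * q)
    (χ : Filt T q D₀ r) {a₀ a₁ b₀ b₁ c₀ : ℝ} (h : χ.Expansion a₀ a₁ b₀ b₁ c₀) :
    a₀ = 534650 * T.t * ((r * q : ℕ) : ℝ) ^ 4 ∧ a₁ = 0 := by
  have h1 : ∃ C : ℝ, ∀ᶠ N : ℕ in atTop,
      |χ.dimN N - ((534650 * T.t * ((r * q : ℕ) : ℝ) ^ 4) * N ^ (2 + 2) + 0 * N ^ (2 + 1))| ≤
        C * N ^ 2 := by
    refine ⟨|(-10350) * (q : ℝ) ^ 2 * T.t + 45 * q * (105 * T.t * q)| * r ^ 2 +
      |(-505) * (q : ℝ) * T.t + 1 * (105 * T.t * q)| * r + |(-9) * (T.t : ℝ)|, ?_⟩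
    filter_upwards [eventually_ge_atTop (18 * T.t + 1)] with N hN
    have hN1 : (1 : ℝ) ≤ N := by
      have : 1 ≤ N := by omega
      exact_mod_cast this
    have ht := T.t_pos
    have h2 : 18 * (T.t : ℤ) + 1 ≤ (T.X.deg D₀ - 100 * T.t * q) * ((r * N : ℕ) : ℤ) := by
      rw [hD]
      push_cast
      have e1 : (105 * (T.t : ℤ) * q - 100 * T.t * q) * (r * N) = (5 * (T.t * q) * r) * N := by ring
      rw [e1]
      have g1 : (1 : ℤ) ≤ T.t := by exact_mod_cast ht
      have g2 : (1 : ℤ) ≤ q := by exact_mod_cast hq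
      have g3 : (1 : ℤ) ≤ r := by exact_mod_cast hr
      have g4 : (18 * (T.t : ℤ) + 1) ≤ N := by exact_mod_cast hN
      have g5 : (1 : ℤ) ≤ T.t * q := by nlinarith
      have g6 : (1 : ℤ) ≤ 5 * (T.t * q) * r := by nlinarith
      nlinarith
    have h3 := finrank_sec (q := q) (D₀ := D₀) (N := r * N) h2
    have h4 : χ.dimN N = (finrank ℂ (T.sec q D₀ (r * N)) : ℝ) := rfl
    have e : ((T.X.deg D₀ : ℤ) : ℝ) = 105 * T.t * q := by
      rw [hD]
      push_cast
      ring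
    rw [h4, h3, e]
    unfold ca0 ca1
    have e2 : ((-42850) * (q : ℝ) ^ 4 * T.t + 5500 * q ^ 3 * (105 * T.t * q)) *
        ((r * N : ℕ) : ℝ) ^ 4 + ((-94500) * (q : ℝ) ^ 3 * T.t + 900 * q ^ 2 * (105 * T.t * q)) *
        ((r * N : ℕ) : ℝ) ^ 3 +
        (((-10350) * (q : ℝ) ^ 2 * T.t + 45 * q * (105 * T.t * q)) * ((r * N : ℕ) : ℝ) ^ 2 +
        ((-505) * (q : ℝ) * T.t + 1 * (105 * T.t * q)) * ((r * N : ℕ) : ℝ) ^ 1 +
        ((-9) * (T.t : ℝ)) * ((r * N : ℕ) : ℝ) ^ 0) -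
        ((534650 * T.t * ((r * q : ℕ) : ℝ) ^ 4) * N ^ (2 + 2) + 0 * N ^ (2 + 1)) =
        ((-10350) * (q : ℝ) ^ 2 * T.t + 45 * q * (105 * T.t * q)) * (r ^ 2 * N ^ 2) +
        ((-505) * (q : ℝ) * T.t + 1 * (105 * T.t * q)) * (r * N) + (-9) * (T.t : ℝ) := by
      push_cast
      ring
    rw [e2]
    refine (abs_add_three _ _ _).trans ?_
    rw [abs_mul _ ((r : ℝ) ^ 2 * (N : ℝ) ^ 2), abs_mul _ ((r : ℝ) * (N : ℝ)),
      abs_of_nonneg (show (0 : ℝ) ≤ (r : ℝ) ^ 2 * (N : ℝ) ^ 2 by positivity),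
      abs_of_nonneg (show (0 : ℝ) ≤ (r : ℝ) * (N : ℝ) by positivity), add_mul, add_mul]
    have g1 : (N : ℝ) ≤ N ^ 2 := by nlinarith
    have g2 : (1 : ℝ) ≤ N ^ 2 := by nlinarith
    have g3 : |(-505) * (q : ℝ) * T.t + 1 * (105 * T.t * q)| * (r * N) ≤
        |(-505) * (q : ℝ) * T.t + 1 * (105 * T.t * q)| * r * N ^ 2 := by
      rw [mul_assoc |(-505) * (q : ℝ) * T.t + 1 * (105 * T.t * q)|]
      exact mul_le_mul_of_nonneg_left (mul_le_mul_of_nonneg_left g1 (by positivity)) (abs_nonneg _)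
    have g4 : |(-9) * (T.t : ℝ)| ≤ |(-9) * (T.t : ℝ)| * N ^ 2 :=
      le_mul_of_one_le_right (abs_nonneg _) g2
    rw [mul_assoc (|(-10350) * (q : ℝ) ^ 2 * T.t + 45 * q * (105 * T.t * q)|)]
    linarith
  exact coeff_unique h.1 h1

/-- The conclusion of the rigidity theorem for graded filtrations. -/
def Graded.RigidG (G : Graded T q D₀) (al be ga de : ℤ) : Prop :=
  (∀ N ≥ 4, ∀ (l : ℕ) (j : ℤ) (a b : ℕ), InR q N j a b → G.W N l j a b ≠ ⊥ →
    (l : ℤ) ≤ al * a + be * b + ga * j + de * N) ∧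
  ∃ C : ℝ, ∀ N ≥ 4, ∑ j ∈ Icc (-((5 * q * N : ℕ) : ℤ)) ((5 * q * N : ℕ) : ℤ),
    ∑ a ∈ range (AA q N j + 1), ∑ b ∈ range (BB q N j + 1),
      ∑ l ∈ Ioc 0 (al * a + be * b + ga * j + de * N),
        ((finrank ℂ (T.V q D₀ N j) : ℝ) - finrank ℂ (G.W N l.toNat j a b)) ≤ C * (N : ℝ) ^ 3

/-- From rigidity of the graded filtration to rigidity of the filtration. -/
theorem Filt.Rigid.of_graded {χ : Filt T q D₀ r} {m : MonomialOrder (Fin 4)} {al be ga de : ℤ}
    (h : (χ.gradedM m).RigidG al be ga de) : χ.Rigid m al be ga (de - χ.lam) := by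
  obtain ⟨h1, C, h2⟩ := h
  refine ⟨?_, C, ?_⟩
  · intro N hN l j a b hin hne
    by_cases hl : -((χ.lam : ℤ) * N) ≤ l
    · have e : (((l + χ.lam * N).toNat : ℕ) : ℤ) = l + χ.lam * N :=
        Int.toNat_of_nonneg (by linarith)
      have h3 := h1 N hN (l + χ.lam * N).toNat j a b hin (by
        rw [χ.gradedM_W m, e, add_sub_cancel_right]
        exact hne)
      rw [e] at h3
      unfold lw
      linarith
    · have h3 := h1 N hN 0 j a b hin (by
        rw [χ.gradedM_W m]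
        have e0 : ((0 : ℕ) : ℤ) - χ.lam * N = -(χ.lam * N) := by simp
        rw [e0, (χ.lam_spec N).1]
        rw [χ.F_of_le (by linarith)] at hne
        exact hne)
      unfold lw
      push_cast at h3
      push Not at hl
      linarith
  · intro N hN
    refine le_trans (le_of_eq ?_) (h2 N hN)
    refine sum_congr rfl fun j _ => sum_congr rfl fun a _ => sum_congr rfl fun b _ => ?_
    have e1 : Ioc (0 : ℤ) (al * a + be * b + ga * j + de * N) =
        (Ioc (-((χ.lam : ℤ) * N)) (lw al be ga (de - χ.lam) N j a b)).map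
          (addRightEmbedding ((χ.lam : ℤ) * N)) := by
      ext x
      simp only [Finset.mem_map, mem_Ioc, addRightEmbedding_apply]
      unfold lw
      constructor
      · intro hx
        exact ⟨x - χ.lam * N, ⟨by linarith [hx.1], by linarith [hx.2]⟩, by ring⟩
      · rintro ⟨y, hy, rfl⟩
        exact ⟨by linarith [hy.1], by linarith [hy.2]⟩
    rw [e1, sum_map]
    apply sum_congr rfl
    intro l hl
    rw [mem_Ioc] at hl
    have e : (((l + χ.lam * N).toNat : ℕ) : ℤ) = l + χ.lam * N :=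
      Int.toNat_of_nonneg (by linarith [hl.1])
    rw [addRightEmbedding_apply, χ.gradedM_W m, e, add_sub_cancel_right]

/-- The rigidity theorem for graded filtrations, as a statement about `T`. -/
def ThmA (T : Datum K) : Prop := ∀ (q : ℕ) (D₀ : T.X.Pt →₀ ℤ) (G : Graded T q D₀), 0 < q →
  T.X.deg D₀ = 105 * T.t * q → ∀ s₀ : ℝ, G.TotExp s₀ 0 → ∃ al be ga de : ℤ, G.RigidG al be ga de

/-- Rigidity of filtrations with vanishing Futaki invariant, for all monomial orders and all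
automorphisms preserving the section ring. -/
theorem Filt.rigid_all (hA : ThmA T) (hq : 0 < q) (hr : 0 < r) (hD : T.X.deg D₀ = 105 * T.t * q)
    (χ : Filt T q D₀ r) {a₀ a₁ b₀ c₀ : ℝ} (h : χ.Expansion a₀ a₁ b₀ 0 c₀)
    (E : Autom K) (hE : Pres T q D₀ E) (m : MonomialOrder (Fin 4)) :
    ∃ al be ga de : ℤ, (χ.tw E hE).Rigid m al be ga de := by
  obtain ⟨P₀, _⟩ : T.S.Nonempty := by
    rw [← Finset.card_pos, T.card_S]
    have := T.t_pos
    omega
  have h1 := (χ.a_eq hq hr hD h).2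
  have h2 := (χ.tw E hE).totExp_M m P₀ ((χ.expansion_tw E hE).2 h)
  rw [h1, mul_zero, add_zero] at h2
  obtain ⟨al, be, ga, de, h3⟩ := hA (r * q) (r • D₀) ((χ.tw E hE).gradedM m) (Nat.mul_pos hr hq)
    (by rw [T.X.deg_nsmul, hD]; push_cast; ring) _ h2
  exact ⟨al, be, ga, _, Filt.Rigid.of_graded h3⟩

end Pool.Agent.YTD


end

/- source: Pool.Agent.YTD.KSpan -/

section

/-!
The leading exponents of the `K`-linear combinations of the elements of a rigid filtration.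
-/

namespace Pool.Agent.YTD

open Finset Module MvPolynomial Filter

variable {K : Type} [Field K] [Algebra ℂ K]
variable {T : Datum K} {q : ℕ} {D₀ : T.X.Pt →₀ ℤ} {r : ℕ}

theorem ini_le_V (m : MonomialOrder (Fin 4)) {N : ℕ} {U : Submodule ℂ (MvPolynomial (Fin 4) K)}
    (hU : U ≤ T.sec q D₀ N) {j : ℤ} {a b : ℕ} (h : InR q N j a b) :
    ini m U (expo q N j a b) ≤ T.V q D₀ N j := by
  rw [← T.ini_sec m h]
  exact ini_mono hU _

/-- existence of a multiplier into a subspace of small codimension. -/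
theorem exists_multiplier {Z : Submodule ℂ K} {R S U : Submodule ℂ (MvPolynomial (Fin 4) K)}
    [FiniteDimensional ℂ Z] [FiniteDimensional ℂ S] [FiniteDimensional ℂ R]
    (hUS : U ≤ S) (hmul : ∀ z ∈ Z, ∀ u ∈ R, C z * u ∈ S)
    (hdim : finrank ℂ Z * (finrank ℂ S - finrank ℂ U) < finrank ℂ R) :
    ∃ u ∈ R, u ≠ 0 ∧ ∀ z ∈ Z, C z * u ∈ U := by
  classical
  -- the multiplication map
  let B := Module.finBasis ℂ Z
  let US : Submodule ℂ S := U.submoduleOf S
  let μ : Fin (finrank ℂ Z) → (R →ₗ[ℂ] S) := fun i =>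
    { toFun := fun u => ⟨C (B i : K) * (u : MvPolynomial (Fin 4) K), hmul _ (B i).2 _ u.2⟩
      map_add' := by
        intro u v
        apply Subtype.ext
        simp [mul_add]
      map_smul' := by
        intro c u
        apply Subtype.ext
        simp }
  let φ : R →ₗ[ℂ] (Fin (finrank ℂ Z) → (S ⧸ US)) := LinearMap.pi fun i => US.mkQ.comp (μ i)
  have hker : LinearMap.ker φ ≠ ⊥ := by
    apply LinearMap.ker_ne_bot_of_finrank_lt
    rw [Module.finrank_pi_fintype, Finset.sum_const, Finset.card_univ, Fintype.card_fin,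
      smul_eq_mul]
    refine lt_of_le_of_lt ?_ hdim
    apply Nat.mul_le_mul_left
    have h1 := Submodule.finrank_quotient_add_finrank US
    have h2 : finrank ℂ US = finrank ℂ U :=
      LinearEquiv.finrank_eq (Submodule.submoduleOfEquivOfLe hUS)
    omega
  obtain ⟨u, hu, hu0⟩ := Submodule.exists_mem_ne_zero_of_ne_bot hker
  refine ⟨u, u.2, fun h => hu0 (Subtype.ext h), ?_⟩
  have h1 : ∀ i, C (B i : K) * (u : MvPolynomial (Fin 4) K) ∈ U := by
    intro i
    have h2 : φ u i = 0 := by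
      rw [LinearMap.mem_ker.1 hu]
      rfl
    have h3 : US.mkQ (μ i u) = 0 := h2
    rw [Submodule.mkQ_apply, Submodule.Quotient.mk_eq_zero] at h3
    exact h3
  intro z hz
  have h2 : (⟨z, hz⟩ : Z) ∈ Submodule.span ℂ (Set.range B) := by
    rw [B.span_eq]
    trivial
  have h3 : ∀ w : Z, w ∈ Submodule.span ℂ (Set.range B) →
      C (w : K) * (u : MvPolynomial (Fin 4) K) ∈ U := by
    intro w hw
    induction hw using Submodule.span_induction with
    | mem x hx =>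
      obtain ⟨i, rfl⟩ := hx
      exact h1 i
    | zero =>
      simp
    | add x y _ _ hx hy =>
      rw [Submodule.coe_add, map_add, add_mul]
      exact add_mem hx hy
    | smul c x _ hx =>
      have : C ((c • x : Z) : K) * (u : MvPolynomial (Fin 4) K) =
          c • (C (x : K) * (u : MvPolynomial (Fin 4) K)) := by
        rw [Submodule.coe_smul, Algebra.smul_def, Algebra.smul_def, map_mul, mul_assoc]
        rfl
      rw [this]
      exact Submodule.smul_mem _ _ hx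
  exact h3 ⟨z, hz⟩ h2

namespace Filt

variable (χ : Filt T q D₀ r)

theorem one_mem : (1 : MvPolynomial (Fin 4) K) ∈ χ.F 0 0 := by
  classical
  have h := (χ.lam_spec 0).1
  have e : (-(χ.lam * ((0 : ℕ) : ℤ)) : ℤ) = 0 := by simp
  rw [e] at h
  rw [h]
  intro e he
  have h1 : e = 0 := by
    by_contra h1
    apply he
    rw [← C_1, coeff_C, if_neg (Ne.symm h1)]
  subst h1
  refine ⟨0, by simp, by simp, by simp, ?_⟩
  rw [← C_1, coeff_C, if_pos rfl]
  intro _ P
  rw [CurveOrd.ord_one]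
  have : T.dvs q D₀ (r * 0) 0 = 0 := by
    unfold Datum.dvs
    simp
  rw [this]
  simp

/-- powers of a `K`-linear combination of elements of `F N l`. -/
theorem pow_mem_span {N : ℕ} {l : ℤ} {f : MvPolynomial (Fin 4) K} {E : T.X.Pt →₀ ℤ}
    (hf : f ∈ Submodule.span ℂ {h | ∃ z ∈ T.X.L E, ∃ g ∈ χ.F N l, h = C z * g}) (k : ℕ) :
    f ^ k ∈ Submodule.span ℂ {h | ∃ z ∈ T.X.L (k • E), ∃ g ∈ χ.F (k * N) (k * l), h = C z * g} := by
  induction k with
  | zero =>
    apply Submodule.subset_span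
    refine ⟨1, ?_, 1, ?_, by simp⟩
    · intro _ P
      rw [CurveOrd.ord_one]
      simp
    · have e1 : 0 * N = 0 := by simp
      have e2 : ((0 : ℕ) : ℤ) * l = 0 := by simp
      rw [e1, e2]
      exact χ.one_mem
  | succ k ih =>
    rw [pow_succ]
    have h1 := Submodule.mul_mem_mul ih hf
    rw [Submodule.span_mul_span] at h1
    refine Submodule.span_mono ?_ h1
    rintro _ ⟨_, ⟨z, hz, g, hg, rfl⟩, _, ⟨z', hz', g', hg', rfl⟩, rfl⟩
    refine ⟨z * z', ?_, g * g', ?_, ?_⟩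
    · rw [succ_nsmul]
      exact T.X.mul_mem_L hz hz'
    · have := χ.mul _ _ _ _ g hg g' hg'
      have e1 : (k + 1) * N = k * N + N := by ring
      have e2 : ((k + 1 : ℕ) : ℤ) * l = k * l + l := by push_cast; ring
      rw [e1, e2]
      exact this
    · simp only [map_mul]
      ring

/-- a `K`-linear combination of elements of `F N l`, with coefficients in a space `L(E)`. -/
theorem exists_div {N : ℕ} {l : ℤ} {f : MvPolynomial (Fin 4) K}
    (hf : f ∈ Submodule.span K (χ.F N l : Set (MvPolynomial (Fin 4) K))) :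
    ∃ E : T.X.Pt →₀ ℤ, (∀ P, 0 ≤ E P) ∧
      f ∈ Submodule.span ℂ {h | ∃ z ∈ T.X.L E, ∃ g ∈ χ.F N l, h = C z * g} := by
  classical
  induction hf using Submodule.span_induction with
  | mem x hx =>
    refine ⟨0, by simp, Submodule.subset_span ⟨1, ?_, x, hx, by simp⟩⟩
    intro _ P
    rw [CurveOrd.ord_one]
    simp
  | zero => exact ⟨0, by simp, zero_mem _⟩
  | add x y _ _ hx hy =>
    obtain ⟨E, hE, hx⟩ := hx
    obtain ⟨E', hE', hy⟩ := hy
    refine ⟨E + E', fun P => by rw [Finsupp.add_apply]; exact add_nonneg (hE P) (hE' P), ?_⟩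
    apply add_mem
    · refine Submodule.span_mono ?_ hx
      rintro _ ⟨z, hz, g, hg, rfl⟩
      exact ⟨z, T.X.L_mono (fun P => by rw [Finsupp.add_apply]; linarith [hE' P]) hz, g, hg, rfl⟩
    · refine Submodule.span_mono ?_ hy
      rintro _ ⟨z, hz, g, hg, rfl⟩
      exact ⟨z, T.X.L_mono (fun P => by rw [Finsupp.add_apply]; linarith [hE P]) hz, g, hg, rfl⟩
  | smul c x _ hx =>
    obtain ⟨E, hE, hx⟩ := hx
    by_cases hc : c = 0
    · subst hc
      refine ⟨0, by simp, ?_⟩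
      rw [zero_smul]
      exact zero_mem _
    -- a divisor allowing `c`
    let E' : T.X.Pt →₀ ℤ := (T.X.dv c).mapRange (fun n => max 0 (-n)) (by simp)
    have hE'0 : ∀ P, 0 ≤ E' P := by
      intro P
      rw [Finsupp.mapRange_apply]
      exact le_max_left _ _
    have hcE' : c ∈ T.X.L E' := by
      intro _ P
      rw [Finsupp.mapRange_apply, T.X.dv_apply hc]
      have := le_max_right 0 (-T.X.ord P c)
      linarith
    refine ⟨E' + E, fun P => by rw [Finsupp.add_apply]; exact add_nonneg (hE'0 P) (hE P), ?_⟩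
    have h1 : ∀ y, y ∈ Submodule.span ℂ {h | ∃ z ∈ T.X.L E, ∃ g ∈ χ.F N l, h = C z * g} →
        c • y ∈ Submodule.span ℂ {h | ∃ z ∈ T.X.L (E' + E), ∃ g ∈ χ.F N l, h = C z * g} := by
      intro y hy
      induction hy using Submodule.span_induction with
      | mem y hy =>
        obtain ⟨z, hz, g, hg, rfl⟩ := hy
        apply Submodule.subset_span
        refine ⟨c * z, T.X.mul_mem_L hcE' hz, g, hg, ?_⟩
        rw [smul_eq_C_mul, map_mul, mul_assoc]
      | zero =>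
        rw [smul_zero]
        exact zero_mem _
      | add y y' _ _ hy hy' =>
        rw [smul_add]
        exact add_mem hy hy'
      | smul d y _ hy =>
        rw [smul_comm]
        exact Submodule.smul_mem _ _ hy
    exact h1 x hx

end Filt

end Pool.Agent.YTD


end

/- source: Pool.Agent.YTD.KSpan2 -/

section

namespace Pool.Agent.YTD

open Finset Module MvPolynomial Filter

variable {K : Type} [Field K] [Algebra ℂ K]
variable {T : Datum K} {q : ℕ} {D₀ : T.X.Pt →₀ ℤ} {r : ℕ}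

namespace Filt

variable (χ : Filt T q D₀ r)

theorem F_le (N : ℕ) (l : ℤ) : χ.F N l ≤ T.sec (r * q) (r • D₀) N := by
  rw [T.sec_mul]
  exact χ.le N l

theorem F_eq_sec {N : ℕ} {l : ℤ} (h : l ≤ -(χ.lam * N)) :
    χ.F N l = T.sec (r * q) (r • D₀) N := by
  rw [χ.F_of_le h, T.sec_mul]

theorem ini_le (m : MonomialOrder (Fin 4)) {N : ℕ} {l : ℤ} {j : ℤ} {a b : ℕ}
    (h : InR (r * q) N j a b) :
    ini m (χ.F N l) (expo (r * q) N j a b) ≤ T.V (r * q) (r • D₀) N j :=
  YTD.ini_le_V m (χ.F_le N l) h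

theorem codim_nonneg (P₀ : T.X.Pt) (m : MonomialOrder (Fin 4)) {N : ℕ} (l : ℤ) {j : ℤ} {a b : ℕ}
    (h : InR (r * q) N j a b) : (0 : ℝ) ≤ (finrank ℂ (T.V (r * q) (r • D₀) N j) : ℝ) -
      finrank ℂ (ini m (χ.F N l) (expo (r * q) N j a b)) := by
  have : FiniteDimensional ℂ (T.V (r * q) (r • D₀) N j) := T.X.finite_L P₀ _
  have h1 := Submodule.finrank_mono (χ.ini_le m (l := l) h)
  have h2 : (finrank ℂ (ini m (χ.F N l) (expo (r * q) N j a b)) : ℝ) ≤
    finrank ℂ (T.V (r * q) (r • D₀) N j) := by exact_mod_cast h1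
  linarith

theorem codim_anti (P₀ : T.X.Pt) (m : MonomialOrder (Fin 4)) {N : ℕ} {l l' : ℤ} (hl : l ≤ l')
    {j : ℤ} {a b : ℕ} (h : InR (r * q) N j a b) :
    (finrank ℂ (ini m (χ.F N l') (expo (r * q) N j a b)) : ℝ) ≤
      finrank ℂ (ini m (χ.F N l) (expo (r * q) N j a b)) := by
  have : FiniteDimensional ℂ (T.V (r * q) (r • D₀) N j) := T.X.finite_L P₀ _
  have : FiniteDimensional ℂ (ini m (χ.F N l) (expo (r * q) N j a b)) :=
    Submodule.finiteDimensional_of_le (χ.ini_le m h)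
  exact_mod_cast Submodule.finrank_mono (ini_mono (χ.anti N l l' hl) _)

variable {χ}

theorem Rigid.codim_le {m : MonomialOrder (Fin 4)} {al be ga de : ℤ}
    (hR : χ.Rigid m al be ga de) (P₀ : T.X.Pt) : ∃ C : ℝ, 0 ≤ C ∧ ∀ (M : ℕ) (l' : ℤ) (h : ℕ), 4 ≤ M →
      (∀ j a b, InR (r * q) M j a b → l' + h ≤ lw al be ga de M j a b) →
      (h : ℝ) * ((finrank ℂ (T.sec (r * q) (r • D₀) M) : ℝ) - finrank ℂ (χ.F M l')) ≤
        C * (M : ℝ) ^ 3 := by
  obtain ⟨C, hC⟩ := hR.full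
  refine ⟨max C 0, le_max_right _ _, ?_⟩
  intro M l' h hM hl'
  have hM3 : (0 : ℝ) ≤ (M : ℝ) ^ 3 := by positivity
  have hCC : C * (M : ℝ) ^ 3 ≤ max C 0 * (M : ℝ) ^ 3 :=
    mul_le_mul_of_nonneg_right (le_max_left _ _) hM3
  by_cases hcase : l' ≤ -(χ.lam * M)
  · rw [χ.F_eq_sec hcase, sub_self, mul_zero]
    exact mul_nonneg (le_max_right _ _) hM3
  push Not at hcase
  refine le_trans ?_ ((hC M hM).trans hCC)
  rw [T.finrank_eq_sum P₀ m (le_refl (T.sec (r * q) (r • D₀) M)),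
    T.finrank_eq_sum P₀ m (χ.F_le M l'), ← sum_sub_distrib, mul_sum]
  apply sum_le_sum
  intro j hj
  rw [← sum_sub_distrib, mul_sum]
  apply sum_le_sum
  intro a ha
  rw [← sum_sub_distrib, mul_sum]
  apply sum_le_sum
  intro b hb
  have hin : InR (r * q) M j a b := (inR_iff (mem_Icc_iff'.1 hj)).2
    ⟨Nat.lt_succ_iff.1 (mem_range.1 ha), Nat.lt_succ_iff.1 (mem_range.1 hb)⟩
  rw [T.ini_sec m hin]
  have h1 := hl' j a b hin
  have hsub : Ioc l' (l' + h) ⊆ Ioc (-((χ.lam : ℤ) * M)) (lw al be ga de M j a b) := by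
    intro x hx
    rw [mem_Ioc] at hx ⊢
    exact ⟨by linarith, by linarith⟩
  refine le_trans ?_ (sum_le_sum_of_subset_of_nonneg hsub
    (fun l _ _ => χ.codim_nonneg P₀ m l hin))
  have h2 : ∑ _l ∈ Ioc l' (l' + h), ((finrank ℂ (T.V (r * q) (r • D₀) M j) : ℝ) -
      finrank ℂ (ini m (χ.F M l') (expo (r * q) M j a b))) = (h : ℝ) *
      ((finrank ℂ (T.V (r * q) (r • D₀) M j) : ℝ) -
        finrank ℂ (ini m (χ.F M l') (expo (r * q) M j a b))) := by
    rw [sum_const, Int.card_Ioc, nsmul_eq_mul]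
    congr 1
    have : (l' + h - l').toNat = h := by simp
    rw [this]
  rw [← h2]
  apply sum_le_sum
  intro l hl
  have := χ.codim_anti P₀ m (mem_Ioc.1 hl).1.le hin
  linarith

end Filt

/-! ### the space of candidates for the multiplier -/

section cand

/-- polynomials with coefficients in `L(E)` and exponents in a small box, times a monomial. -/
noncomputable def candMap (Q s : ℕ) (e₁ : Fin 4 →₀ ℕ) (W : Submodule ℂ K) :
    (Fin s × Fin s × Fin s → W) →ₗ[ℂ] MvPolynomial (Fin 4) K where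
  toFun c := ∑ p : Fin s × Fin s × Fin s,
    monomial (e₁ + expo Q s ((p.1 : ℕ) : ℤ) (p.2.1 : ℕ) (p.2.2 : ℕ)) (c p : K)
  map_add' c c' := by
    rw [← sum_add_distrib]
    apply sum_congr rfl
    intro p _
    rw [Pi.add_apply, Submodule.coe_add, map_add]
  map_smul' x c := by
    rw [RingHom.id_apply, smul_sum]
    apply sum_congr rfl
    intro p _
    rw [Pi.smul_apply, Submodule.coe_smul, smul_monomial]

theorem expo_box_injective {Q s : ℕ} (hQ : 0 < Q) (e₁ : Fin 4 →₀ ℕ)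
    {p p' : Fin s × Fin s × Fin s}
    (h : e₁ + expo Q s ((p.1 : ℕ) : ℤ) (p.2.1 : ℕ) (p.2.2 : ℕ) =
      e₁ + expo Q s ((p'.1 : ℕ) : ℤ) (p'.2.1 : ℕ) (p'.2.2 : ℕ)) : p = p' := by
  have h := add_left_cancel h
  have h1 : ((p.2.1 : ℕ)) = (p'.2.1 : ℕ) := by
    have := DFunLike.congr_fun h 1
    exact this
  have h2 : ((p.2.2 : ℕ)) = (p'.2.2 : ℕ) := by
    have := DFunLike.congr_fun h 3
    exact this
  have i1 := inR_box hQ p.1.2.le p.2.1.2.le p.2.2.2.le
  have i2 := inR_box hQ p'.1.2.le p'.2.1.2.le p'.2.2.2.le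
  have h3 := expo_sum_x i1
  have h4 := expo_sum_x i2
  rw [h] at h3
  have h5 : ((p.1 : ℕ) : ℤ) = ((p'.1 : ℕ) : ℤ) := by linarith
  refine Prod.ext (Fin.ext (by exact_mod_cast h5)) (Prod.ext (Fin.ext h1) (Fin.ext h2))

theorem candMap_injective {Q s : ℕ} (hQ : 0 < Q) (e₁ : Fin 4 →₀ ℕ) (W : Submodule ℂ K) :
    Function.Injective (candMap Q s e₁ W) := by
  classical
  rw [injective_iff_map_eq_zero]
  intro c hc
  funext p
  have h1 : (candMap Q s e₁ W c).coeff
      (e₁ + expo Q s ((p.1 : ℕ) : ℤ) (p.2.1 : ℕ) (p.2.2 : ℕ)) = 0 := by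
    rw [hc, coeff_zero]
  have h2 : candMap Q s e₁ W c = ∑ p : Fin s × Fin s × Fin s,
    monomial (e₁ + expo Q s ((p.1 : ℕ) : ℤ) (p.2.1 : ℕ) (p.2.2 : ℕ)) (c p : K) := rfl
  rw [h2, coeff_sum, Finset.sum_eq_single p] at h1
  · rw [coeff_monomial, if_pos rfl] at h1
    exact Subtype.ext h1
  · intro p' _ hp'
    rw [coeff_monomial, if_neg]
    intro h
    exact hp' (expo_box_injective hQ e₁ h)
  · intro h
    exact absurd (mem_univ p) h

theorem finrank_cand {Q s : ℕ} (hQ : 0 < Q) (e₁ : Fin 4 →₀ ℕ) (W : Submodule ℂ K)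
    [FiniteDimensional ℂ W] :
    finrank ℂ (LinearMap.range (candMap Q s e₁ W)) = s ^ 3 * finrank ℂ W := by
  rw [LinearMap.finrank_range_of_inj (candMap_injective hQ e₁ W), Module.finrank_pi_fintype]
  simp only [sum_const, card_univ, Fintype.card_prod, Fintype.card_fin, smul_eq_mul]
  ring

theorem cand_coeff {Q s : ℕ} {e₁ : Fin 4 →₀ ℕ} {W : Submodule ℂ K}
    {u : MvPolynomial (Fin 4) K} (hu : u ∈ LinearMap.range (candMap Q s e₁ W))
    {e : Fin 4 →₀ ℕ} (he : u.coeff e ≠ 0) :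
    u.coeff e ∈ W ∧ ∃ x y z : ℕ, x < s ∧ y < s ∧ z < s ∧ e = e₁ + expo Q s (x : ℤ) y z := by
  classical
  obtain ⟨c, rfl⟩ := hu
  have h2 : candMap Q s e₁ W c = ∑ p : Fin s × Fin s × Fin s,
    monomial (e₁ + expo Q s ((p.1 : ℕ) : ℤ) (p.2.1 : ℕ) (p.2.2 : ℕ)) (c p : K) := rfl
  rw [h2, coeff_sum] at he ⊢
  constructor
  · apply sum_mem
    intro p _
    rw [coeff_monomial]
    split_ifs
    · exact (c p).2
    · exact zero_mem _
  · obtain ⟨p, _, hp⟩ := Finset.exists_ne_zero_of_sum_ne_zero he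
    rw [coeff_monomial] at hp
    split_ifs at hp with h
    · exact ⟨p.1, p.2.1, p.2.2, p.1.2, p.2.1.2, p.2.2.2, h.symm⟩
    · exact absurd rfl hp

end cand

end Pool.Agent.YTD


end

/- source: Pool.Agent.YTD.KSpan3 -/

section

namespace Pool.Agent.YTD

open Finset Module MvPolynomial Filter

variable {K : Type} [Field K] [Algebra ℂ K]
variable {T : Datum K} {q : ℕ} {D₀ : T.X.Pt →₀ ℤ} {r : ℕ}

theorem finrank_L_le (X : Curve K) (P₀ : X.Pt) (D : X.Pt →₀ ℤ) (hD : 0 ≤ X.deg D) :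
    (finrank ℂ (X.L D) : ℤ) ≤ X.deg D + X.genus + 1 := by
  classical
  have := X.finite_L P₀ (D + Finsupp.single P₀ (2 * (X.genus : ℤ)))
  have h1 := Submodule.finrank_mono (X.L_mono (D := D)
    (E := D + Finsupp.single P₀ (2 * (X.genus : ℤ))) (by
    intro P
    rw [Finsupp.add_apply, Finsupp.single_apply]
    split_ifs
    · have := Int.natCast_nonneg X.genus
      linarith
    · simp))
  have h2 := X.riemann_roch (D + Finsupp.single P₀ (2 * (X.genus : ℤ))) (by
    rw [X.deg_add, X.deg_single]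
    linarith)
  rw [X.deg_add, X.deg_single] at h2
  have h3 : (finrank ℂ (X.L D) : ℤ) ≤
    (finrank ℂ (X.L (D + Finsupp.single P₀ (2 * (X.genus : ℤ)))) : ℤ) := by exact_mod_cast h1
  rw [h2] at h3
  linarith

theorem dvs_apply (T : Datum K) (Q : ℕ) (D : T.X.Pt →₀ ℤ) (M : ℕ) (j : ℤ) (P : T.X.Pt) :
    T.dvs Q D M j P = M * D P - (∑ y ∈ T.S, Finsupp.single y (max 0 (j - 4 * (Q : ℤ) * M))) P
      - (∑ y ∈ T.S', Finsupp.single y (max 0 (-j - 4 * (Q : ℤ) * M))) P := by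
  unfold Datum.dvs
  rw [Finsupp.sub_apply, Finsupp.sub_apply, Finsupp.smul_apply, nsmul_eq_mul]

theorem sum_single_mono (X : CurveOrd K) (A : Finset X.Pt) {x y : ℤ} (h : x ≤ y) (P : X.Pt) :
    (∑ p ∈ A, Finsupp.single p x) P ≤ (∑ p ∈ A, Finsupp.single p y) P := by
  classical
  rw [Finsupp.finsetSum_apply, Finsupp.finsetSum_apply]
  apply sum_le_sum
  intro p _
  rw [Finsupp.single_apply, Finsupp.single_apply]
  split_ifs
  · exact h
  · exact le_rfl

/-- a divisor of degree `5 t Q M` below the divisors of the spaces `V M j`, for `j` near an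
extreme value. -/
theorem exists_low (T : Datum K) {Q : ℕ} {D : T.X.Pt →₀ ℤ} (hD : T.X.deg D = 105 * T.t * Q)
    {j₁ : ℤ} (hj : j₁ = 5 * Q ∨ j₁ = -(5 * Q)) (hQ : 0 < Q) (M s : ℕ) (hs : 2 * s ≤ M) :
    ∃ F : T.X.Pt →₀ ℤ, T.X.deg F = 5 * T.t * Q * M ∧
      ∀ x : ℕ, x ≤ s → ∀ P, F P ≤ T.dvs Q D M (((M - s : ℕ) : ℤ) * j₁ + x) P := by
  have hQ' : (1 : ℤ) ≤ Q := by exact_mod_cast hQ
  have hM0 : (0 : ℤ) ≤ M := by positivity
  have hs0 : (0 : ℤ) ≤ s := by positivity
  have hs' : 2 * (s : ℤ) ≤ M := by exact_mod_cast hs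
  have hsub : ((M - s : ℕ) : ℤ) = M - s := by
    rw [Nat.cast_sub (by omega)]
  have hQM : (M : ℤ) ≤ Q * M := le_mul_of_one_le_left hM0 hQ'
  have hQs : (s : ℤ) ≤ Q * s := le_mul_of_one_le_left hs0 hQ'
  have hQs2 : (Q : ℤ) * (2 * s) ≤ Q * M := mul_le_mul_of_nonneg_left hs' (by linarith)
  rcases hj with rfl | rfl
  · refine ⟨M • D - ∑ y ∈ T.S, Finsupp.single y ((Q : ℤ) * M), ?_, ?_⟩
    · rw [T.X.deg_sub, T.X.deg_nsmul, T.X.deg_sum]
      simp only [T.X.deg_single, sum_const, T.card_S, nsmul_eq_mul]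
      rw [hD]
      push_cast
      ring
    · intro x hx P
      have hx' : (x : ℤ) ≤ s := by exact_mod_cast hx
      have hx0 : (0 : ℤ) ≤ x := by positivity
      rw [dvs_apply, hsub]
      have h1 : max 0 (-((M - s : ℤ) * (5 * Q) + x) - 4 * (Q : ℤ) * M) = 0 := by
        apply max_eq_left
        linarith only [hQM, hQs, hQs2, hx0, hx', hM0, hs0, hs']
      have h2 : max 0 ((M - s : ℤ) * (5 * Q) + x - 4 * (Q : ℤ) * M) ≤ (Q : ℤ) * M := by
        apply max_le
        · exact hM0.trans hQM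
        · linarith only [hQM, hQs, hQs2, hx0, hx', hM0, hs0, hs']
      have h3 := sum_single_mono T.X.toCurveOrd T.S h2 P
      rw [h1]
      simp only [Finsupp.single_zero, sum_const_zero, Finsupp.coe_zero, Pi.zero_apply, sub_zero]
      rw [Finsupp.sub_apply, Finsupp.smul_apply, nsmul_eq_mul]
      linarith
  · refine ⟨M • D - ∑ y ∈ T.S', Finsupp.single y ((Q : ℤ) * M), ?_, ?_⟩
    · rw [T.X.deg_sub, T.X.deg_nsmul, T.X.deg_sum]
      simp only [T.X.deg_single, sum_const, T.card_S', nsmul_eq_mul]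
      rw [hD]
      push_cast
      ring
    · intro x hx P
      have hx' : (x : ℤ) ≤ s := by exact_mod_cast hx
      have hx0 : (0 : ℤ) ≤ x := by positivity
      rw [dvs_apply, hsub]
      have h1 : max 0 ((M - s : ℤ) * (-(5 * Q)) + x - 4 * (Q : ℤ) * M) = 0 := by
        apply max_eq_left
        linarith only [hQM, hQs, hQs2, hx0, hx', hM0, hs0, hs']
      have h2 : max 0 (-((M - s : ℤ) * (-(5 * Q)) + x) - 4 * (Q : ℤ) * M) ≤ (Q : ℤ) * M := by
        apply max_le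
        · exact hM0.trans hQM
        · linarith only [hQM, hQs, hQs2, hx0, hx', hM0, hs0, hs']
      have h3 := sum_single_mono T.X.toCurveOrd T.S' h2 P
      rw [h1]
      simp only [Finsupp.single_zero, sum_const_zero, Finsupp.coe_zero, Pi.zero_apply, sub_zero]
      rw [Finsupp.sub_apply, Finsupp.smul_apply, nsmul_eq_mul]
      linarith

namespace Filt

variable {χ : Filt T q D₀ r}

/-- `B3`: the leading exponents of the `K`-linear combinations of elements of `F N l`. -/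
theorem Rigid.kspan {m : MonomialOrder (Fin 4)} {al be ga de : ℤ}
    (hR : χ.Rigid m al be ga de) (P₀ : T.X.Pt) (hQ : 0 < r * q)
    (hD : T.X.deg (r • D₀) = 105 * T.t * (r * q : ℕ)) {N : ℕ} {l : ℤ}
    {f : MvPolynomial (Fin 4) K}
    (hf : f ∈ Submodule.span K (χ.F N l : Set (MvPolynomial (Fin 4) K))) (hf0 : f ≠ 0)
    {j : ℤ} {a b : ℕ} (hin : InR (r * q) N j a b) (hdeg : m.degree f = expo (r * q) N j a b) :
    l ≤ lw al be ga de N j a b := by
  classical
  by_contra hlt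
  push Not at hlt
  set Q := r * q with hQdef
  set D := r • D₀ with hDdef
  obtain ⟨j₁, a₁, b₁, hin₁, hj₁, hmin⟩ := exists_min_vertex al be ga de Q
  set μ := lw al be ga de 1 j₁ a₁ b₁ with hμ
  obtain ⟨E, hE0, hE⟩ := χ.exists_div hf
  obtain ⟨C₀, hC0, hC⟩ := hR.codim_le P₀
  -- constants
  set B : ℤ := |al| + |be| + |ga| + |de| with hB
  have hBμ : μ ≤ B := by
    have h1 := hmin 1 ((0 : ℕ) : ℤ) 0 0 (inR_box hQ (Nat.zero_le _) (Nat.zero_le _) (Nat.zero_le _))
    have h2 := lw_le_box al be ga de 1 (x := 0) (y := 0) (z := 0) (by norm_num) (by norm_num)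
      (by norm_num)
    push_cast at h1 h2
    linarith
  set e₀ : ℕ := (T.X.deg E).toNat with he₀
  have hdegE : (e₀ : ℤ) = T.X.deg E := Int.toNat_of_nonneg (T.X.deg_nonneg hE0)
  set Θ : ℕ := e₀ + 1 with hΘ
  set b₀ : ℕ := (B - μ).toNat with hb₀
  have hb₀' : (b₀ : ℤ) = B - μ := Int.toNat_of_nonneg (by linarith)
  set d : ℕ := Θ * b₀ + 2 with hd
  obtain ⟨n, hn⟩ := exists_nat_gt (max (max ((d * e₀ + T.X.genus + 1 : ℕ) * C₀ * (d : ℝ) ^ 2) 4)
    (T.X.genus : ℝ))
  have hn1 : ((d * e₀ + T.X.genus + 1 : ℕ) : ℝ) * C₀ * (d : ℝ) ^ 2 < n :=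
    lt_of_le_of_lt ((le_max_left _ _).trans (le_max_left _ _)) hn
  have hn4 : 4 < n := by
    have : (4 : ℝ) < n := lt_of_le_of_lt ((le_max_right _ _).trans (le_max_left _ _)) hn
    exact_mod_cast this
  have hng : T.X.genus < n := by
    have : (T.X.genus : ℝ) < n := lt_of_le_of_lt (le_max_right _ _) hn
    exact_mod_cast this
  set k : ℕ := d * n with hk
  set s : ℕ := Θ * n with hs
  set M : ℕ := Θ * d * n with hM
  have hΘ1 : 1 ≤ Θ := by omega
  have hd2 : 2 ≤ d := by omega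
  have hMs : M = d * s := by rw [hM, hs]; ring
  have hMk : M = Θ * k := by rw [hM, hk]; ring
  have h2s : 2 * s ≤ M := by rw [hMs]; exact Nat.mul_le_mul_right s hd2
  have hsM : s ≤ M := by omega
  have hnk : n ≤ k := Nat.le_mul_of_pos_left n (by omega)
  have hkM : k ≤ M := by rw [hMk]; exact Nat.le_mul_of_pos_left k (by omega)
  have hnM : n ≤ M := hnk.trans hkM
  have hM4 : 4 ≤ M := by omega
  -- the divisor of the coefficients
  obtain ⟨F₁, hF₁deg, hF₁⟩ := exists_low T hD hj₁ hQ M s h2s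
  set E₁ : T.X.Pt →₀ ℤ := F₁ - k • E with hE₁
  have ht : (1 : ℤ) ≤ T.t := by exact_mod_cast T.t_pos
  have hQ1 : (1 : ℤ) ≤ (Q : ℤ) := by exact_mod_cast hQ
  have hdegE₁ : 4 * (M : ℤ) ≤ T.X.deg E₁ := by
    rw [hE₁, T.X.deg_sub, hF₁deg, T.X.deg_nsmul, ← hdegE]
    have h1 : (k : ℤ) * e₀ ≤ M := by
      have : k * e₀ ≤ M := by
        rw [hMk, hΘ, Nat.mul_comm]
        exact Nat.mul_le_mul_right k (Nat.le_succ e₀)
      exact_mod_cast this
    have h2 : (M : ℤ) ≤ T.t * Q * M := by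
      have h3 : (1 : ℤ) ≤ T.t * Q := one_le_mul_of_one_le_of_one_le ht hQ1
      exact le_mul_of_one_le_left (Int.natCast_nonneg M) h3
    have h5 : (5 : ℤ) * T.t * Q * M = 5 * (T.t * Q * M) := by ring
    rw [h5]
    linarith only [h1, h2]
  have hgM : (T.X.genus : ℤ) ≤ M := by
    have : T.X.genus ≤ M := by omega
    exact_mod_cast this
  have hM0 : (0 : ℤ) ≤ M := by positivity
  have hrr := T.X.riemann_roch E₁ (by linarith)
  have hdimE₁ : M ≤ finrank ℂ (T.X.L E₁) := by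
    have : (M : ℤ) ≤ (finrank ℂ (T.X.L E₁) : ℤ) := by
      rw [hrr]; linarith
    exact_mod_cast this
  have hfinE₁ : FiniteDimensional ℂ (T.X.L E₁) := T.X.finite_L P₀ _
  have hfinZ : FiniteDimensional ℂ (T.X.L (k • E)) := T.X.finite_L P₀ _
  have hfinS : FiniteDimensional ℂ (T.sec Q D M) := T.finite_sec P₀ _ _ _
  -- the vertex at level `M - s`
  have hinv : InR Q (M - s) (((M - s : ℕ) : ℤ) * j₁) ((M - s) * a₁) ((M - s) * b₁) := by
    have := hin₁.smul (M - s)
    rwa [mul_one] at this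
  set e₁ : Fin 4 →₀ ℕ := expo Q (M - s) (((M - s : ℕ) : ℤ) * j₁) ((M - s) * a₁) ((M - s) * b₁)
    with he₁
  have hsum : M - s + s = M := by omega
  have hexp : ∀ x y z : ℕ, x < s → y < s → z < s →
      InR Q M (((M - s : ℕ) : ℤ) * j₁ + x) ((M - s) * a₁ + y) ((M - s) * b₁ + z) ∧
      e₁ + expo Q s (x : ℤ) y z =
        expo Q M (((M - s : ℕ) : ℤ) * j₁ + x) ((M - s) * a₁ + y) ((M - s) * b₁ + z) := by
    intro x y z hx hy hz
    have hbox := inR_box (q := Q) hQ hx.le hy.le hz.le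
    have h1 := hinv.add hbox
    have h2 := expo_add hinv hbox
    rw [hsum] at h1 h2
    exact ⟨h1, h2⟩
  set R := LinearMap.range (candMap Q s e₁ (T.X.L E₁)) with hRdef
  have hfinR : FiniteDimensional ℂ R := by
    rw [hRdef]
    infer_instance
  have hdimR : finrank ℂ R = s ^ 3 * finrank ℂ (T.X.L E₁) := finrank_cand hQ _ _
  have hmul : ∀ z ∈ T.X.L (k • E), ∀ u ∈ R, C z * u ∈ T.sec Q D M := by
    intro z hz u hu e he
    rw [coeff_C_mul] at he
    have hu0 : u.coeff e ≠ 0 := right_ne_zero_of_mul he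
    obtain ⟨hc, x, y, w, hx, hy, hw, rfl⟩ := cand_coeff hu hu0
    obtain ⟨g1, g2⟩ := hexp x y w hx hy hw
    rw [coeff_C_mul]
    rw [g2] at hc ⊢
    refine ⟨_, g1.1, expo_sum_x g1, expo_sum_y g1, ?_⟩
    have h3 := T.X.mul_mem_L hz hc
    refine T.X.L_mono ?_ h3
    intro P
    have h4 := hF₁ x hx.le P
    rw [Finsupp.add_apply, hE₁, Finsupp.sub_apply]
    linarith
  -- the subspace of small codimension
  set l' : ℤ := M * μ - n with hl'
  have hcod := hC M l' n hM4 (by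
    intro j a b h
    have := hmin M j a b h
    rw [hl']
    linarith)
  have hUS : χ.F M l' ≤ T.sec Q D M := χ.F_le M l'
  have hdim : finrank ℂ (T.X.L (k • E)) * (finrank ℂ (T.sec Q D M) - finrank ℂ (χ.F M l')) <
      finrank ℂ R := by
    have hle : finrank ℂ (χ.F M l') ≤ finrank ℂ (T.sec Q D M) := Submodule.finrank_mono hUS
    have hZ : (finrank ℂ (T.X.L (k • E)) : ℝ) ≤ (d * e₀ + T.X.genus + 1 : ℕ) * (n : ℝ) := by
      have h1 := finrank_L_le T.X P₀ (k • E) (by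
        rw [T.X.deg_nsmul, ← hdegE]; positivity)
      rw [T.X.deg_nsmul, ← hdegE] at h1
      have h2 : finrank ℂ (T.X.L (k • E)) ≤ k * e₀ + T.X.genus + 1 := by exact_mod_cast h1
      have h3 : k * e₀ + T.X.genus + 1 ≤ (d * e₀ + T.X.genus + 1) * n := by
        have h4 : (T.X.genus + 1) * 1 ≤ (T.X.genus + 1) * n :=
          Nat.mul_le_mul_left _ (by omega)
        have h5 : (d * e₀ + T.X.genus + 1) * n = d * n * e₀ + (T.X.genus + 1) * n := by ring
        rw [hk, h5]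
        omega
      exact_mod_cast h2.trans h3
    have hn0 : (0 : ℝ) < n := by
      have : 0 < n := by omega
      exact_mod_cast this
    have hcod' : ((finrank ℂ (T.sec Q D M) : ℝ) - finrank ℂ (χ.F M l')) ≤
        C₀ * (Θ : ℝ) ^ 3 * (d : ℝ) ^ 3 * (n : ℝ) ^ 2 := by
      have hMr : (M : ℝ) = Θ * d * n := by rw [hM]; push_cast; ring
      rw [hMr] at hcod
      have h1 : (n : ℝ) * ((finrank ℂ (T.sec Q D M) : ℝ) - finrank ℂ (χ.F M l')) ≤
          n * (C₀ * (Θ : ℝ) ^ 3 * (d : ℝ) ^ 3 * (n : ℝ) ^ 2) := by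
        refine hcod.trans (le_of_eq ?_)
        ring
      exact le_of_mul_le_mul_left h1 hn0
    have hcodnn : (0 : ℝ) ≤ (finrank ℂ (T.sec Q D M) : ℝ) - finrank ℂ (χ.F M l') := by
      have : (finrank ℂ (χ.F M l') : ℝ) ≤ finrank ℂ (T.sec Q D M) := by exact_mod_cast hle
      linarith
    have hgoal : (finrank ℂ (T.X.L (k • E)) : ℝ) *
        ((finrank ℂ (T.sec Q D M) : ℝ) - finrank ℂ (χ.F M l')) < (finrank ℂ R : ℝ) := by
      rw [hdimR]
      have hΘr : (1 : ℝ) ≤ Θ := by exact_mod_cast hΘ1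
      have hdr : (2 : ℝ) ≤ d := by exact_mod_cast hd2
      calc (finrank ℂ (T.X.L (k • E)) : ℝ) *
            ((finrank ℂ (T.sec Q D M) : ℝ) - finrank ℂ (χ.F M l'))
          ≤ ((d * e₀ + T.X.genus + 1 : ℕ) * (n : ℝ)) *
            (C₀ * (Θ : ℝ) ^ 3 * (d : ℝ) ^ 3 * (n : ℝ) ^ 2) :=
            mul_le_mul hZ hcod' hcodnn (by positivity)
        _ = (((d * e₀ + T.X.genus + 1 : ℕ) : ℝ) * C₀ * (d : ℝ) ^ 2) *
            ((Θ : ℝ) ^ 3 * d * (n : ℝ) ^ 3) := by ring
        _ < (n : ℝ) * ((Θ : ℝ) ^ 3 * d * (n : ℝ) ^ 3) :=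
            mul_lt_mul_of_pos_right hn1 (by positivity)
        _ ≤ (Θ : ℝ) * ((n : ℝ) * ((Θ : ℝ) ^ 3 * d * (n : ℝ) ^ 3)) :=
            le_mul_of_one_le_left (by positivity) hΘr
        _ = (s : ℝ) ^ 3 * (M : ℝ) := by rw [hs, hM]; push_cast; ring
        _ ≤ ((s ^ 3 * finrank ℂ (T.X.L E₁) : ℕ) : ℝ) := by
            push_cast
            exact mul_le_mul_of_nonneg_left (by exact_mod_cast hdimE₁) (by positivity)
    have h5 : ((finrank ℂ (T.X.L (k • E)) *
        (finrank ℂ (T.sec Q D M) - finrank ℂ (χ.F M l')) : ℕ) : ℝ) < (finrank ℂ R : ℝ) := by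
      rw [Nat.cast_mul, Nat.cast_sub hle]
      exact hgoal
    exact_mod_cast h5
  obtain ⟨u, huR, hu0, hu⟩ := exists_multiplier hUS hmul hdim
  -- the product `u * f ^ k`
  have hfk := χ.pow_mem_span hE k
  have hprod : ∀ h ∈ Submodule.span ℂ {h | ∃ z ∈ T.X.L (k • E), ∃ g ∈ χ.F (k * N) (k * l),
      h = C z * g}, u * h ∈ χ.F (M + k * N) (l' + k * l) := by
    intro h hh
    induction hh using Submodule.span_induction with
    | mem x hx =>
      obtain ⟨z, hz, g, hg, rfl⟩ := hx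
      have e : u * (C z * g) = (C z * u) * g := by ring
      rw [e]
      exact χ.mul _ _ _ _ _ (hu z hz) _ hg
    | zero =>
      rw [mul_zero]
      exact zero_mem _
    | add x y _ _ hx hy =>
      rw [mul_add]
      exact add_mem hx hy
    | smul c x _ hx =>
      rw [mul_smul_comm]
      exact Submodule.smul_mem _ _ hx
  have hmem := hprod _ hfk
  have hufk : u * f ^ k ≠ 0 := mul_ne_zero hu0 (pow_ne_zero _ hf0)
  have hdeg' : m.degree (u * f ^ k) = m.degree u + k • m.degree f := by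
    rw [MonomialOrder.degree_mul hu0 (pow_ne_zero _ hf0), MonomialOrder.degree_pow]
  have hcu : u.coeff (m.degree u) ≠ 0 := by
    have := MonomialOrder.degree_mem_support (m := m) hu0
    rwa [MvPolynomial.mem_support_iff] at this
  obtain ⟨_, x, y, z, hx, hy, hz, hdu⟩ := cand_coeff huR hcu
  obtain ⟨g1, g2⟩ := hexp x y z hx hy hz
  have hkin := hin.smul k
  have hkexp : k • expo Q N j a b = expo Q (k * N) (k * j) (k * a) (k * b) := by
    ext i
    rw [Finsupp.smul_apply, smul_eq_mul]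
    have h3 := hin.1
    have h4 := hkin.1
    have hA : AA Q (k * N) (k * j) = k * AA Q N j := by
      zify
      rw [AA_cast h4, AA_cast h3]
      push_cast
      ring
    have hB : BB Q (k * N) (k * j) = k * BB Q N j := by
      zify
      rw [BB_cast h4, BB_cast h3]
      push_cast
      ring
    fin_cases i
    · show k * expo Q N j a b 0 = expo Q (k * N) (k * j) (k * a) (k * b) 0
      rw [expo_0, expo_0, hA, Nat.mul_sub]
    · rfl
    · show k * expo Q N j a b 2 = expo Q (k * N) (k * j) (k * a) (k * b) 2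
      rw [expo_2, expo_2, hB, Nat.mul_sub]
    · rfl
  have hfin := g1.add hkin
  have hexpfin := expo_add g1 hkin
  rw [hdu, g2, hdeg, hkexp, hexpfin] at hdeg'
  have hub := hR.upper (M + k * N) (by omega) (l' + k * l) _ _ _ hfin (by
    intro h0
    have h1 : (u * f ^ k).coeff (expo (r * q) (M + k * N) (((M - s : ℕ) : ℤ) * j₁ + x + k * j)
        ((M - s) * a₁ + y + k * a) ((M - s) * b₁ + z + k * b)) ∈
        ini m (χ.F (M + k * N) (l' + k * l)) (expo (r * q) (M + k * N)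
          (((M - s : ℕ) : ℤ) * j₁ + x + k * j)
          ((M - s) * a₁ + y + k * a) ((M - s) * b₁ + z + k * b)) := by
      rw [mem_ini]
      refine ⟨u * f ^ k, hmem, ?_, rfl⟩
      intro e' he'
      rw [← hQdef, ← hdeg']
      apply MonomialOrder.le_degree
      rwa [MvPolynomial.mem_support_iff]
    rw [h0, Submodule.mem_bot, ← hQdef, ← hdeg'] at h1
    have h2 := MonomialOrder.degree_mem_support (m := m) hufk
    rw [MvPolynomial.mem_support_iff] at h2
    exact h2 h1)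
  rw [lw_add, lw_smul] at hub
  have hlw1 : lw al be ga de M (((M - s : ℕ) : ℤ) * j₁ + x) ((M - s) * a₁ + y)
      ((M - s) * b₁ + z) = (M - s) * μ + lw al be ga de s (x : ℤ) y z := by
    have h1 := lw_add al be ga de (M - s) s (((M - s : ℕ) : ℤ) * j₁) (x : ℤ) ((M - s) * a₁) y
      ((M - s) * b₁) z
    rw [hsum] at h1
    rw [h1]
    have h2 := lw_smul al be ga de (M - s) 1 j₁ a₁ b₁
    rw [mul_one] at h2
    rw [h2, ← hμ, Nat.cast_sub hsM]
  rw [hlw1] at hub
  have hbox := lw_le_box al be ga de s hx.le hy.le hz.le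
  rw [← hB] at hbox
  have hfinal : (k : ℤ) * (l - lw al be ga de N j a b) ≤ s * (B - μ) + n := by
    rw [hl'] at hub
    linarith
  have h1 : (k : ℤ) ≤ k * (l - lw al be ga de N j a b) := by
    have : (1 : ℤ) ≤ l - lw al be ga de N j a b := by linarith
    exact le_mul_of_one_le_right (Int.natCast_nonneg k) this
  have h2 : (k : ℤ) ≤ s * b₀ + n := by
    rw [hb₀']
    linarith
  have h3 : k ≤ s * b₀ + n := by exact_mod_cast h2
  rw [hk, hs, hd] at h3
  have h4 : (Θ * b₀ + 2) * n = Θ * n * b₀ + 2 * n := by ring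
  omega

end Filt

end Pool.Agent.YTD


end

/- source: Pool.Agent.YTD.SatL1 -/

section

/-!
Torus-graded filtrations with an explicit bound, and a criterion for the one-sided hypotheses
on the total dimension.
-/

namespace Pool.Agent.YTD

open Finset Module MvPolynomial Filter

variable {K : Type} [Field K] [Algebra ℂ K]
variable {T : Datum K} {q : ℕ} {D₀ : T.X.Pt →₀ ℤ} {r : ℕ}

namespace Graded

/-- the functional depends on the level only. -/
theorem ub_congr {G G' : Graded T q D₀} (hΛ : G.Λ = G'.Λ) {N : ℕ}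
    (h : ∀ l j a b, G.W N l j a b = G'.W N l j a b) (j : ℤ) : G.ub N j = G'.ub N j := by
  unfold ub Uf nn
  simp only [h, hΛ]

variable {G : Graded T q D₀}

/-- upper bound for the functional from an upper bound of the total dimension. -/
theorem Phi_le_up (hD : T.X.deg D₀ = 105 * T.t * q) (P₀ : T.X.Pt) (hq : 0 < q) {s₀ C₀ : ℝ}
    (hS : ∀ᶠ M : ℕ in atTop, G.tot M ≤ s₀ * M ^ 5 + C₀ * M ^ 4) {N : ℕ} (hN : 4 ≤ N) :
    ∑ j ∈ Icc (-((5 * q * N : ℕ) : ℤ)) ((5 * q * N : ℕ) : ℤ), Wt q N j * G.ub N j ≤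
      s₀ * N ^ 5 + 600000 * T.t * (q : ℝ) ^ 2 * G.Λ * (N : ℝ) ^ 3 := by
  rw [← base_Phi hD P₀ hq hN]
  set s := G.base hD P₀ hq hN
  set E : ℝ := 600000 * T.t * (q : ℝ) ^ 2 * G.Λ * (N : ℝ) ^ 3 with hE
  have hE0 : 0 ≤ E := by positivity
  -- the sequence of levels
  let M : ℕ → ℕ := fun i => 2 * N + 2 ^ i * N
  have hM : Tendsto M atTop atTop := by
    apply tendsto_atTop_mono (f := fun i : ℕ => i)
    · intro i
      have h1 : i < 2 ^ i := Nat.lt_two_pow_self
      have h2 : 2 ^ i ≤ 2 ^ i * N := Nat.le_mul_of_pos_right _ (by omega)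
      simp only [M]
      omega
    · exact tendsto_id
  -- bound for large i
  have h1 : ∀ᶠ i : ℕ in atTop, s.Phi - E ≤ s₀ * ((M i : ℝ) / 2 ^ i) ^ 5 +
      C₀ * ((M i : ℝ) / 2 ^ i) ^ 4 * (1 / 2) ^ i := by
    filter_upwards [hM.eventually hS] with i hi
    obtain ⟨s', hs'⟩ := iterate hq (show 0 < N by omega) s i
    have h2 := Phi_le_tot hD P₀ hq hN s'
    have h4 : G.tot (2 * N + 2 ^ i * N) = G.tot (M i) := rfl
    rw [h4] at h2
    have h5 : (32 : ℝ) ^ i * (s.Phi - E) ≤ s₀ * (M i : ℝ) ^ 5 + C₀ * (M i : ℝ) ^ 4 := by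
      have h6 : E * (((32 : ℝ) ^ i - 8 ^ i) / 24) ≤ E * 32 ^ i := by
        apply mul_le_mul_of_nonneg_left _ hE0
        have : (0 : ℝ) < 8 ^ i := by positivity
        have : (0 : ℝ) < 32 ^ i := by positivity
        linarith
      have h7 : 600000 * T.t * (q : ℝ) ^ 2 * G.Λ * (N : ℝ) ^ 3 * (((32 : ℝ) ^ i - 8 ^ i) / 24) =
        E * (((32 : ℝ) ^ i - 8 ^ i) / 24) := by rw [hE]
      rw [h7] at hs'
      linarith
    have h8 : (0 : ℝ) < 32 ^ i := by positivity
    have h9 : s.Phi - E ≤ (s₀ * (M i : ℝ) ^ 5 + C₀ * (M i : ℝ) ^ 4) / 32 ^ i := by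
      rw [le_div_iff₀ h8]
      linarith
    refine h9.trans (le_of_eq ?_)
    have e2 : (32 : ℝ) ^ i = (2 ^ i) ^ 5 := by rw [← pow_mul, mul_comm, pow_mul]; norm_num
    have e3 : (1 / 2 : ℝ) ^ i = 1 / 2 ^ i := by rw [div_pow, one_pow]
    rw [e2, e3]
    have h10 : (0 : ℝ) < 2 ^ i := by positivity
    field_simp
  -- limits
  have h2 : Tendsto (fun i : ℕ => (M i : ℝ) / 2 ^ i) atTop (nhds N) := by
    have e : (fun i : ℕ => (M i : ℝ) / 2 ^ i) = fun i : ℕ => (N : ℝ) + 2 * N * (1 / 2) ^ i := by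
      funext i
      simp only [M]
      push_cast
      have h10 : (0 : ℝ) < 2 ^ i := by positivity
      rw [show (1 / 2 : ℝ) ^ i = 1 / 2 ^ i by rw [div_pow, one_pow]]
      field_simp
      ring
    rw [e]
    have h3 : Tendsto (fun i : ℕ => (1 / 2 : ℝ) ^ i) atTop (nhds 0) :=
      tendsto_pow_atTop_nhds_zero_of_lt_one (by norm_num) (by norm_num)
    have h4 := (h3.const_mul (2 * (N : ℝ))).const_add (N : ℝ)
    rw [mul_zero, add_zero] at h4
    exact h4
  have h3 : Tendsto (fun i : ℕ => (1 / 2 : ℝ) ^ i) atTop (nhds 0) :=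
    tendsto_pow_atTop_nhds_zero_of_lt_one (by norm_num) (by norm_num)
  have h4 : Tendsto (fun i : ℕ => s₀ * ((M i : ℝ) / 2 ^ i) ^ 5 +
      C₀ * ((M i : ℝ) / 2 ^ i) ^ 4 * (1 / 2) ^ i) atTop
      (nhds (s₀ * (N : ℝ) ^ 5 + C₀ * (N : ℝ) ^ 4 * 0)) :=
    ((h2.pow 5).const_mul s₀).add (((h2.pow 4).const_mul C₀).mul h3)
  rw [mul_zero, add_zero] at h4
  have h5 := ge_of_tendsto h4 h1
  linarith

end Graded

namespace Filt

/-- `L` is a bound for the filtration. -/
def Bdd (χ : Filt T q D₀ r) (L : ℕ) : Prop :=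
  ∀ N : ℕ, χ.F N (-(L * N)) = T.sec q D₀ (r * N) ∧ χ.F N (L * N + 1) = ⊥

variable (χ : Filt T q D₀ r) {L : ℕ} (hL : χ.Bdd L)

include hL in
theorem Bdd.F_of_le {N : ℕ} {l : ℤ} (h : l ≤ -(L * N)) : χ.F N l = T.sec q D₀ (r * N) := by
  apply le_antisymm (χ.le N l)
  rw [← (hL N).1]
  exact χ.anti N _ _ h

include hL in
theorem Bdd.F_of_gt {N : ℕ} {l : ℤ} (h : L * N < l) : χ.F N l = ⊥ := by
  rw [eq_bot_iff, ← (hL N).2]
  exact χ.anti N _ _ (by linarith)

include hL in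
theorem Bdd.tw (E : Autom K) (hE : Pres T q D₀ E) : (χ.tw E hE).Bdd L := by
  intro N
  rw [tw_F, tw_F, (hL N).1, (hL N).2, hE, Submodule.map_bot]
  exact ⟨rfl, rfl⟩

/-- the graded filtration of initial spaces of `χ` for the monomial order `m`, normalized by the
bound `L`. -/
noncomputable def gradedL (m : MonomialOrder (Fin 4)) : Graded T (r * q) (r • D₀) where
  Λ := 2 * L
  W := fun N l j a b => ini m (χ.F N ((l : ℤ) - L * N)) (expo (r * q) N j a b)
  W_zero := by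
    intro N j a b h
    have e : ((0 : ℕ) : ℤ) - L * N = -(L * N) := by simp
    rw [e, (hL N).1, ← T.sec_mul r q D₀ N, T.ini_sec _ h]
  W_anti := by
    intro N l l' j a b h
    exact ini_mono (χ.anti N _ _ (by
      have : (l : ℤ) ≤ l' := by exact_mod_cast h
      linarith)) _
  W_mul := by
    intro N N' l l' j j' a a' b b' h h' f hf g hg
    rw [← expo_add h h']
    refine ini_mul ?_ hf hg
    intro f hf g hg
    have := χ.mul N N' _ _ f hf g hg
    have e : ((l + l' : ℕ) : ℤ) - L * ((N + N' : ℕ) : ℤ) =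
      ((l : ℤ) - L * N) + ((l' : ℤ) - L * N') := by push_cast; ring
    rw [e]
    exact this
  W_top := by
    intro N l j a b h
    have h1 : χ.F N ((l : ℤ) - L * N) = ⊥ := by
      rw [eq_bot_iff, ← (hL N).2]
      apply χ.anti
      have : ((2 * L * N : ℕ) : ℤ) < l := by exact_mod_cast h
      push_cast at this
      linarith
    rw [h1, ini_bot]

theorem gradedL_Λ (m : MonomialOrder (Fin 4)) : (χ.gradedL hL m).Λ = 2 * L := rfl

theorem gradedL_W (m : MonomialOrder (Fin 4)) (N l : ℕ) (j : ℤ) (a b : ℕ) :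
    (χ.gradedL hL m).W N l j a b = ini m (χ.F N ((l : ℤ) - L * N)) (expo (r * q) N j a b) := rfl

/-- the total dimension in the window given by `L`. -/
noncomputable def totL (L : ℕ) (N : ℕ) : ℝ :=
  ∑ l ∈ Ioc (-((L * N : ℕ) : ℤ)) ((L * N : ℕ) : ℤ), (finrank ℂ (χ.F N l) : ℝ)

theorem sum_range_eq_Ioc (M : ℕ) (F : ℤ → ℝ) :
    ∑ i ∈ range (2 * M), F ((i : ℤ) + 1 - M) = ∑ l ∈ Ioc (-(M : ℤ)) M, F l := by
  refine sum_bij' (fun i _ => (i : ℤ) + 1 - M) (fun j _ => (j - 1 + M).toNat) ?_ ?_ ?_ ?_ ?_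
  · intro i hi
    have := mem_range.1 hi
    rw [mem_Ioc]
    constructor <;> omega
  · intro j hj
    have := mem_Ioc.1 hj
    rw [mem_range]
    omega
  · intro i hi
    have := mem_range.1 hi
    omega
  · intro j hj
    have := mem_Ioc.1 hj
    rw [Int.toNat_of_nonneg (by linarith)]
    ring
  · intro i hi
    rfl

theorem gradedL_tot (m : MonomialOrder (Fin 4)) (P₀ : T.X.Pt) (N : ℕ) :
    (χ.gradedL hL m).tot N = χ.totL L N := by
  have e0 : χ.totL L N = ∑ l ∈ range (2 * L * N), (finrank ℂ (χ.F N ((l : ℤ) + 1 - L * N)) : ℝ) := by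
    unfold totL
    rw [← sum_range_eq_Ioc (L * N) (fun l => (finrank ℂ (χ.F N l) : ℝ)), ← mul_assoc]
    push_cast
    rfl
  rw [e0]
  have h0 : ∀ (l : ℕ) (j : ℤ) (a b : ℕ), (χ.gradedL hL m).W N (l + 1) j a b =
      ini m (χ.F N ((l : ℤ) + 1 - L * N)) (expo (r * q) N j a b) := by
    intro l j a b
    show ini m (χ.F N (((l + 1 : ℕ) : ℤ) - L * N)) (expo (r * q) N j a b) = _
    have e : ((l + 1 : ℕ) : ℤ) = (l : ℤ) + 1 := by push_cast; rfl
    rw [e]
  have h1 : ∀ l : ℕ, (finrank ℂ (χ.F N ((l : ℤ) + 1 - L * N)) : ℝ) =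
      ∑ j ∈ Icc (-((5 * (r * q) * N : ℕ) : ℤ)) ((5 * (r * q) * N : ℕ) : ℤ),
      ∑ a ∈ range (AA (r * q) N j + 1), ∑ b ∈ range (BB (r * q) N j + 1),
        (finrank ℂ ((χ.gradedL hL m).W N (l + 1) j a b) : ℝ) := by
    intro l
    rw [T.finrank_eq_sum P₀ m (q := r * q) (D₀ := r • D₀) (N := N)
      (by rw [T.sec_mul]; exact χ.le N _)]
    refine sum_congr rfl fun j _ => sum_congr rfl fun a _ => sum_congr rfl fun b _ => ?_
    rw [h0]
  unfold Graded.tot
  rw [gradedL_Λ]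
  rw [sum_congr rfl (fun l _ => h1 l)]
  symm
  rw [sum_comm]
  apply sum_congr rfl
  intro j _
  rw [sum_comm]
  apply sum_congr rfl
  intro a _
  rw [sum_comm]

theorem totL_tw (E : Autom K) (hE : Pres T q D₀ E) (L N : ℕ) : (χ.tw E hE).totL L N = χ.totL L N := by
  unfold totL
  simp only [finrank_tw]

/-- the upper half of the criterion: every level can be embedded into a filtration of total
dimension at most `s₀ M⁵ + O(M⁴)`. -/
def UpHyp (L : ℕ) (s₀ : ℝ) : Prop :=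
  ∀ N : ℕ, ∃ G : Filt T q D₀ r, G.Bdd L ∧ (∀ l, G.F N l = χ.F N l) ∧
    ∃ C₀ : ℝ, ∀ᶠ M : ℕ in atTop, G.totL L M ≤ s₀ * M ^ 5 + C₀ * M ^ 4

/-- the lower half of the criterion -/
def LowHyp (L : ℕ) (s₀ s₁ : ℝ) : Prop :=
  ∃ C : ℝ, ∀ᶠ N : ℕ in atTop, s₀ * N ^ 5 + s₁ * N ^ 4 - C * N ^ 3 ≤ χ.totL L N

variable {χ}

theorem UpHyp.tw {s₀ : ℝ} (h : χ.UpHyp L s₀) (E : Autom K) (hE : Pres T q D₀ E) :
    (χ.tw E hE).UpHyp L s₀ := by
  intro N
  obtain ⟨G, h1, h2, C₀, h3⟩ := h N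
  refine ⟨G.tw E hE, Bdd.tw G h1 E hE, fun l => ?_, C₀, ?_⟩
  · rw [tw_F, tw_F, h2]
  · filter_upwards [h3] with M hM
    rwa [totL_tw]

theorem LowHyp.tw {s₀ s₁ : ℝ} (h : χ.LowHyp L s₀ s₁) (E : Autom K) (hE : Pres T q D₀ E) :
    (χ.tw E hE).LowHyp L s₀ s₁ := by
  obtain ⟨C, h⟩ := h
  refine ⟨C, ?_⟩
  filter_upwards [h] with N hN
  rwa [totL_tw]

theorem deg_smul' (hD : T.X.deg D₀ = 105 * T.t * q) :
    T.X.deg (r • D₀) = 105 * T.t * ((r * q : ℕ) : ℤ) := by
  rw [T.X.deg_nsmul, hD]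
  push_cast
  ring

/-- the criterion -/
theorem crit_of_hyp (hq : 0 < q) (hr : 0 < r) (hD : T.X.deg D₀ = 105 * T.t * q) {s₀ s₁ : ℝ}
    (h : χ.UpHyp L s₀) (h' : χ.LowHyp L s₀ s₁) (m : MonomialOrder (Fin 4)) :
    (χ.gradedL hL m).Crit s₀ s₁ := by
  obtain ⟨P₀⟩ := T.exists_pt
  refine ⟨⟨600000 * T.t * ((r * q : ℕ) : ℝ) ^ 2 * ((2 * L : ℕ) : ℝ), fun N hN => ?_⟩, ?_⟩
  · obtain ⟨G, h1, h2, C₀, h3⟩ := h N
    have e : ∀ j, (χ.gradedL hL m).ub N j = (G.gradedL h1 m).ub N j := by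
      apply Graded.ub_congr
      · rfl
      · intro l j a b
        rw [gradedL_W, gradedL_W, h2]
    simp only [e]
    refine Graded.Phi_le_up (G := G.gradedL h1 m) (deg_smul' hD) P₀ (Nat.mul_pos hr hq)
      (C₀ := C₀) ?_ hN
    filter_upwards [h3] with M hM
    rwa [gradedL_tot G h1 m P₀]
  · obtain ⟨C, h'⟩ := h'
    refine ⟨C, ?_⟩
    filter_upwards [h'] with N hN
    rwa [gradedL_tot χ hL m P₀]

/-- From rigidity of the graded filtration to rigidity of the filtration. -/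
theorem Rigid.of_gradedL {m : MonomialOrder (Fin 4)} {al be ga de : ℤ}
    (h : (χ.gradedL hL m).RigidG al be ga de) : χ.Rigid m al be ga (de - L) := by
  obtain ⟨h1, C, h2⟩ := h
  have up : ∀ N : ℕ, 4 ≤ N → ∀ (l : ℤ) (j : ℤ) (a b : ℕ), InR (r * q) N j a b →
      ini m (χ.F N l) (expo (r * q) N j a b) ≠ ⊥ → l ≤ lw al be ga (de - L) N j a b := by
    intro N hN l j a b hin hne
    by_cases hl : -((L : ℤ) * N) ≤ l
    · have e : (((l + L * N).toNat : ℕ) : ℤ) = l + L * N :=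
        Int.toNat_of_nonneg (by linarith)
      have h3 := h1 N hN (l + L * N).toNat j a b hin (by
        rw [gradedL_W, e, add_sub_cancel_right]
        exact hne)
      rw [e] at h3
      unfold lw
      linarith
    · have h3 := h1 N hN 0 j a b hin (by
        rw [gradedL_W]
        have e0 : ((0 : ℕ) : ℤ) - L * N = -(L * N) := by simp
        rw [e0, (hL N).1]
        rw [Bdd.F_of_le χ hL (by linarith)] at hne
        exact hne)
      unfold lw
      push_cast at h3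
      push Not at hl
      linarith
  refine ⟨up, C, ?_⟩
  intro N hN
  refine le_trans (sum_le_sum fun j hj => sum_le_sum fun a ha => sum_le_sum fun b hb => ?_)
    (h2 N hN)
  obtain ⟨P₀⟩ := T.exists_pt
  have hj' : |j| ≤ 5 * (r * q : ℕ) * N := by
    rw [mem_Icc] at hj
    rw [abs_le]
    push_cast at hj ⊢
    constructor
    · linarith [hj.1]
    · linarith [hj.2]
  have hin : InR (r * q) N j a b := (inR_iff hj').2
    ⟨Nat.lt_succ_iff.1 (mem_range.1 ha), Nat.lt_succ_iff.1 (mem_range.1 hb)⟩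
  -- compare the two windows
  set f : ℤ → ℝ := fun l => (finrank ℂ (T.V (r * q) (r • D₀) N j) : ℝ) -
    finrank ℂ (ini m (χ.F N l) (expo (r * q) N j a b)) with hf
  have hV := T.ini_sec m hin (D₀ := r • D₀)
  have f0 : ∀ l, χ.F N l = T.sec q D₀ (r * N) → f l = 0 := by
    intro l hl
    rw [hf]
    simp only
    rw [hl, ← T.sec_mul, hV, sub_self]
  have fnn : ∀ l, 0 ≤ f l := by
    intro l
    have : FiniteDimensional ℂ (T.V (r * q) (r • D₀) N j) := T.X.finite_L P₀ _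
    have h3 : ini m (χ.F N l) (expo (r * q) N j a b) ≤ T.V (r * q) (r • D₀) N j := by
      rw [← hV]
      apply ini_mono
      rw [T.sec_mul]
      exact χ.le N l
    have h4 := Submodule.finrank_mono h3
    have h5 : (finrank ℂ (ini m (χ.F N l) (expo (r * q) N j a b)) : ℝ) ≤
        finrank ℂ (T.V (r * q) (r • D₀) N j) := by exact_mod_cast h4
    rw [hf]
    simp only
    linarith
  have e1 : Ioc (0 : ℤ) (al * a + be * b + ga * j + de * N) =
      (Ioc (-((L : ℤ) * N)) (lw al be ga (de - L) N j a b)).map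
        (addRightEmbedding ((L : ℤ) * N)) := by
    ext x
    simp only [Finset.mem_map, mem_Ioc, addRightEmbedding_apply]
    unfold lw
    constructor
    · intro hx
      exact ⟨x - L * N, ⟨by linarith [hx.1], by linarith [hx.2]⟩, by ring⟩
    · rintro ⟨y, hy, rfl⟩
      exact ⟨by linarith [hy.1], by linarith [hy.2]⟩
  have e2 : ∑ l ∈ Ioc 0 (al * a + be * b + ga * j + de * N),
      ((finrank ℂ (T.V (r * q) (r • D₀) N j) : ℝ) -
        finrank ℂ ((χ.gradedL hL m).W N l.toNat j a b)) =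
      ∑ l ∈ Ioc (-((L : ℤ) * N)) (lw al be ga (de - L) N j a b), f l := by
    rw [e1, sum_map]
    apply sum_congr rfl
    intro l hl
    rw [mem_Ioc] at hl
    have e : (((l + L * N).toNat : ℕ) : ℤ) = l + L * N :=
      Int.toNat_of_nonneg (by linarith [hl.1])
    rw [addRightEmbedding_apply, gradedL_W, e, add_sub_cancel_right]
  rw [e2]
  have e3 : ∑ l ∈ Ioc (-((χ.lam : ℤ) * N)) (lw al be ga (de - L) N j a b), f l =
      ∑ l ∈ (Ioc (-((χ.lam : ℤ) * N)) (lw al be ga (de - L) N j a b)).filter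
        (fun l => -((L : ℤ) * N) < l), f l := by
    symm
    apply sum_subset (filter_subset _ _)
    intro l hl hl'
    rw [mem_filter] at hl'
    push Not at hl'
    exact f0 l (Bdd.F_of_le χ hL (hl' hl))
  rw [e3]
  apply sum_le_sum_of_subset_of_nonneg
  · intro l hl
    rw [mem_filter, mem_Ioc] at hl
    rw [mem_Ioc]
    exact ⟨hl.2, hl.1.2⟩
  · intro l _ _
    exact fnn l

end Filt

end Pool.Agent.YTD


end

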