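import Pool.Agent.YTDM.P10

/- source: Pool.Agent.YTD.GapKink -/

section

/-!
A small gap forces the envelope to be affine away from the zeros of `gg`.
-/

namespace Pool.Agent.YTD

open Finset Filter

theorem tel_second (g : ℕ → ℝ) (m : ℕ) :
    ∑ c ∈ range m, (g (c + 2) - 2 * g (c + 1) + g c) = (g (m + 1) - g m) - (g 1 - g 0) := by
  induction m with
  | zero => simp
  | succ m ih =>
    rw [sum_range_succ, ih]
    ring

theorem concave_tent (g : ℕ → ℝ) (n : ℕ) (hn : 0 < n)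
    (h : ∀ c < 2 * n - 1, g (c + 2) - 2 * g (c + 1) + g c ≤ 0) :
    -(g (2 * n) - 2 * g n + g 0) ≤
      n * ∑ c ∈ range (2 * n - 1), -(g (c + 2) - 2 * g (c + 1) + g c) := by
  have hs : ∀ c c', c ≤ c' → c' ≤ 2 * n - 1 → g (c' + 1) - g c' ≤ g (c + 1) - g c := by
    intro c c' hc hc'
    induction c', hc using Nat.le_induction with
    | base => exact le_rfl
    | succ c' _ ih =>
      have h1 := ih (by omega)
      have h2 := h c' (by omega)
      linarith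
  rw [sum_neg_distrib, tel_second]
  have e1 : 2 * n - 1 + 1 = 2 * n := by omega
  rw [e1]
  have h1 : g n - g 0 ≤ n * (g 1 - g 0) := by
    rw [← sum_range_sub]
    calc ∑ i ∈ range n, (g (i + 1) - g i) ≤ ∑ _i ∈ range n, (g (0 + 1) - g 0) := by
          apply sum_le_sum
          intro i hi
          have := mem_range.1 hi
          exact hs 0 i (Nat.zero_le _) (by omega)
      _ = n * (g 1 - g 0) := by rw [sum_const, card_range, nsmul_eq_mul]
  have h2 : n * (g (2 * n) - g (2 * n - 1)) ≤ g (2 * n) - g n := by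
    have e2 : g (2 * n) - g n = ∑ i ∈ range n, (g (n + i + 1) - g (n + i)) := by
      have := sum_range_sub (fun i => g (n + i)) n
      simp only [add_zero] at this
      rw [two_mul, ← this]
      rfl
    rw [e2]
    calc n * (g (2 * n) - g (2 * n - 1)) = ∑ _i ∈ range n, (g (2 * n - 1 + 1) - g (2 * n - 1)) := by
          rw [sum_const, card_range, nsmul_eq_mul, e1]
      _ ≤ ∑ i ∈ range n, (g (n + i + 1) - g (n + i)) := by
          apply sum_le_sum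
          intro i hi
          have := mem_range.1 hi
          exact hs (n + i) (2 * n - 1) (by omega) le_rfl
  nlinarith

theorem gg_pos_real {Q x : ℝ} (hQ : 0 < Q) (hx : |x| < 5 * Q) (h : 9 * x ^ 2 ≠ 125 * Q ^ 2) :
    0 < gg Q x := by
  unfold gg
  rcases le_total (|x|) (4 * Q) with h1 | h1
  · rw [max_eq_left (by linarith)]
    have : 9 * x ^ 2 - 125 * Q ^ 2 ≠ 0 := sub_ne_zero.2 h
    have h2 : 0 < (9 * x ^ 2 - 125 * Q ^ 2) ^ 2 := by positivity
    norm_num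
    exact h2
  · rw [max_eq_right (by linarith)]
    obtain ⟨u, hu⟩ : ∃ u, |x| = 4 * Q + u := ⟨|x| - 4 * Q, by ring⟩
    have hu0 : 0 ≤ u := by linarith
    have hu1 : u < Q := by linarith
    have hx2 : x ^ 2 = (4 * Q + u) ^ 2 := by rw [← sq_abs, hu]
    rw [hx2, hu]
    have e : (9 * (4 * Q + u) ^ 2 - 125 * Q ^ 2) ^ 2 - 10000 * Q * (4 * Q + u - 4 * Q) ^ 3 =
        (Q - u) * (361 * Q ^ 3 + 3097 * Q ^ 2 * u + 8623 * Q * u ^ 2 - 81 * u ^ 3) := by ring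
    rw [e]
    apply mul_pos (by linarith)
    have h1 : 81 * u ^ 3 ≤ 81 * (Q * u ^ 2) := by
      have : u ^ 3 = u * u ^ 2 := by ring
      rw [this]
      have := mul_le_mul_of_nonneg_right hu1.le (sq_nonneg u)
      linarith
    have h2 : 0 < Q ^ 3 := by positivity
    have h3 : 0 ≤ Q ^ 2 * u := by positivity
    have h4 : 0 ≤ Q * u ^ 2 := by positivity
    linarith

theorem gg_continuous (Q : ℝ) : Continuous (gg Q) := by
  unfold gg
  fun_prop

theorem gg_scale_pow (Q x : ℝ) (i : ℕ) : gg (Q * 2 ^ i) (2 ^ i * x) = 16 ^ i * gg Q x := by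
  unfold gg
  have p : (0 : ℝ) < 2 ^ i := by positivity
  have e1 : |2 ^ i * x| - 4 * (Q * 2 ^ i) = 2 ^ i * (|x| - 4 * Q) := by
    rw [abs_mul, abs_of_pos p]
    ring
  have e2 : max 0 (2 ^ i * (|x| - 4 * Q)) = 2 ^ i * max 0 (|x| - 4 * Q) := by
    rw [mul_max_of_nonneg _ _ p.le, mul_zero]
  have e3 : (16 : ℝ) ^ i = (2 ^ i) ^ 4 := by
    rw [← pow_mul, mul_comm i 4, pow_mul]
    norm_num
  rw [e1, e2, e3]
  ring

theorem Fam.ψ_pow {Q : ℕ} (F : Fam Q) {k : ℕ} {j : ℤ} (h : |j| ≤ 5 * Q * 2 ^ k) (i : ℕ) :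
    F.ψ (k + i) (2 ^ i * j) = 2 ^ i * F.ψ k j := by
  induction i with
  | zero => simp
  | succ i ih =>
    have h1 := F.ψ_double (Fam.rng_pow h i)
    have e : (2 : ℤ) ^ (i + 1) * j = 2 * (2 ^ i * j) := by
      rw [pow_succ]
      ring
    rw [e, ← add_assoc, h1, ih, pow_succ]
    ring

/-- (K) -/
theorem Fam.kink {Q : ℕ} (hQ : 0 < Q) (F : Fam Q)
    (h : ∃ η : ℕ → ℝ, Tendsto η atTop (nhds 0) ∧ ∀ᶠ k : ℕ in atTop, F.gap k ≤ η k * 16 ^ k)
    {k : ℕ} {j : ℤ} (hj : |j| + 1 < 5 * Q * 2 ^ k)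
    (hx : ∀ x : ℝ, |x - j| ≤ 1 → 9 * x ^ 2 ≠ 125 * ((Q : ℝ) * 2 ^ k) ^ 2) :
    F.ψ k (j - 1) + F.ψ k (j + 1) = 2 * F.ψ k j := by
  obtain ⟨η, hη, hgap⟩ := h
  have hj0 := abs_nonneg j
  have hj1 : |j| ≤ 5 * Q * 2 ^ k := by linarith
  have hj2 : |j - 1| ≤ 5 * Q * 2 ^ k := by
    have := abs_sub j 1
    rw [abs_one] at this
    linarith
  have hj3 : |j + 1| ≤ 5 * Q * 2 ^ k := by
    have := abs_add_le j 1
    rw [abs_one] at this
    linarith
  -- the lower bound for `gg`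
  have hQk : (0 : ℝ) < (Q : ℝ) * 2 ^ k := by positivity
  obtain ⟨c₀, hc₀, hc₁⟩ : ∃ c₀ : ℝ, 0 < c₀ ∧ ∀ x : ℝ, |x - j| ≤ 1 → c₀ ≤ gg ((Q : ℝ) * 2 ^ k) x := by
    have hcpt : IsCompact (Set.Icc ((j : ℝ) - 1) (j + 1)) := isCompact_Icc
    obtain ⟨x₀, hx₀, hmin⟩ := hcpt.exists_isMinOn ⟨(j : ℝ), by constructor <;> linarith⟩
      (gg_continuous ((Q : ℝ) * 2 ^ k)).continuousOn
    have hmem : ∀ x : ℝ, |x - j| ≤ 1 → x ∈ Set.Icc ((j : ℝ) - 1) (j + 1) := by
      intro x hx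
      rw [abs_le] at hx
      constructor <;> linarith [hx.1, hx.2]
    have hx₀' : |x₀ - j| ≤ 1 := by
      rw [abs_le]
      constructor <;> linarith [hx₀.1, hx₀.2]
    refine ⟨gg ((Q : ℝ) * 2 ^ k) x₀, ?_, fun x hx => hmin (hmem x hx)⟩
    apply gg_pos_real hQk _ (hx x₀ hx₀')
    have h1 : |x₀| ≤ |(j : ℝ)| + 1 := by
      have := abs_add_le (x₀ - j) (j : ℝ)
      rw [sub_add_cancel] at this
      linarith
    have h2 : |(j : ℝ)| + 1 < 5 * Q * 2 ^ k := by exact_mod_cast hj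
    linarith
  -- the main inequality
  have key : ∀ i : ℕ, c₀ * -(F.ψ k (j + 1) - 2 * F.ψ k j + F.ψ k (j - 1)) * 16 ^ i ≤
      F.gap (k + i) := by
    intro i
    set M : ℕ := 5 * (Q * 2 ^ (k + i)) with hM
    have hMe : (5 * (Q : ℤ) * 2 ^ (k + i)) = (M : ℤ) := by
      rw [hM]
      push_cast
      ring
    set n : ℕ := 2 ^ i with hn
    have hn0 : 0 < n := by positivity
    have hne : ((2 : ℤ) ^ i) = (n : ℤ) := by
      rw [hn]
      push_cast
      rfl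
    have r2 := Fam.rng_pow hj2 i
    have r3 := Fam.rng_pow hj3 i
    have r1 := Fam.rng_pow hj1 i
    rw [hMe, hne, abs_le] at r1 r2 r3
    have q2 : (n : ℤ) * (j - 1) = n * j - n := by ring
    have q3 : (n : ℤ) * (j + 1) = n * j + n := by ring
    rw [q2] at r2
    rw [q3] at r3
    obtain ⟨s, hs⟩ : ∃ s : ℕ, (s : ℤ) = n * j - n + M := ⟨((n : ℤ) * j - n + M).toNat,
      Int.toNat_of_nonneg (by linarith [r2.1])⟩
    set g : ℕ → ℝ := fun c => F.ψ (k + i) ((n : ℤ) * j - n + c) with hg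
    have hg0 : g 0 = 2 ^ i * F.ψ k (j - 1) := by
      rw [hg]
      simp only
      rw [← F.ψ_pow hj2 i, hne]
      congr 1
      push_cast
      ring
    have hgn : g n = 2 ^ i * F.ψ k j := by
      rw [hg]
      simp only
      rw [← F.ψ_pow hj1 i, hne]
      congr 1
      ring
    have hg2 : g (2 * n) = 2 ^ i * F.ψ k (j + 1) := by
      rw [hg]
      simp only
      rw [← F.ψ_pow hj3 i, hne]
      congr 1
      push_cast
      ring
    -- terms of the gap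
    have hterm : ∀ c < 2 * n - 1, s + c ∈ range (2 * M - 1) := by
      intro c hc
      rw [mem_range]
      have : (s : ℤ) + c < 2 * M - 1 := by
        have : (c : ℤ) < 2 * n - 1 := by omega
        rw [hs]
        linarith [r3.2]
      omega
    have hidx : ∀ c : ℕ, ((s + c : ℕ) : ℤ) + 1 - M = n * j - n + c + 1 := by
      intro c
      push_cast
      rw [hs]
      ring
    have hidx2 : ∀ c : ℕ, ((s + c : ℕ) : ℤ) + 2 - M = n * j - n + c + 2 := by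
      intro c
      push_cast
      rw [hs]
      ring
    have hidx0 : ∀ c : ℕ, ((s + c : ℕ) : ℤ) - M = n * j - n + c := by
      intro c
      push_cast
      rw [hs]
      ring
    have hgc : ∀ c : ℕ, g (c + 2) - 2 * g (c + 1) + g c =
        F.ψ (k + i) (((s + c : ℕ) : ℤ) + 2 - M) - 2 * F.ψ (k + i) (((s + c : ℕ) : ℤ) + 1 - M) +
          F.ψ (k + i) (((s + c : ℕ) : ℤ) - M) := by
      intro c
      rw [hidx, hidx2, hidx0, hg]
      simp only
      push_cast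
      rw [add_assoc, add_assoc]
    have hneg : ∀ c < 2 * n - 1, g (c + 2) - 2 * g (c + 1) + g c ≤ 0 := by
      intro c hc
      rw [hgc]
      exact (F.gap_term (k + i) (hterm c hc)).2
    have hggc : ∀ c < 2 * n - 1, 16 ^ i * c₀ ≤
        gg ((Q * 2 ^ (k + i) : ℕ) : ℝ) ((((s + c : ℕ) : ℤ) + 1 - M : ℤ) : ℝ) := by
      intro c hc
      rw [hidx]
      have hn' : ((n : ℕ) : ℝ) = 2 ^ i := by
        rw [hn]
        push_cast
        rfl
      have p : (0 : ℝ) < 2 ^ i := by positivity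
      have e1 : (((n : ℤ) * j - n + c + 1 : ℤ) : ℝ) = 2 ^ i * (j - 1 + (c + 1) / 2 ^ i) := by
        push_cast
        rw [hn']
        field_simp
        ring
      have e2 : ((Q * 2 ^ (k + i) : ℕ) : ℝ) = (Q * 2 ^ k) * 2 ^ i := by
        push_cast
        rw [pow_add]
        ring
      rw [e1, e2, gg_scale_pow]
      apply mul_le_mul_of_nonneg_left _ (by positivity)
      apply hc₁
      have hc' : (c : ℝ) + 1 ≤ 2 * 2 ^ i := by
        rw [← hn']
        have : c + 1 ≤ 2 * n := by omega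
        exact_mod_cast this
      have h1 : ((c : ℝ) + 1) / 2 ^ i ≤ 2 := by
        rw [div_le_iff₀ p]
        exact hc'
      have h2 : 0 ≤ ((c : ℝ) + 1) / 2 ^ i := by positivity
      rw [abs_le]
      constructor <;> linarith
    have hgap' : 16 ^ i * c₀ * ∑ c ∈ range (2 * n - 1), -(g (c + 2) - 2 * g (c + 1) + g c) ≤
        F.gap (k + i) := by
      unfold Fam.gap
      rw [← hM, ← sum_neg_distrib]
      have hsub : (range (2 * n - 1)).image (fun c => s + c) ⊆ range (2 * M - 1) := by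
        intro x hx
        obtain ⟨c, hc, rfl⟩ := mem_image.1 hx
        exact hterm c (mem_range.1 hc)
      refine le_trans ?_ (sum_le_sum_of_subset_of_nonneg hsub ?_)
      · rw [sum_image (by intro i _ j _ hij; simp only at hij; omega), mul_sum]
        apply sum_le_sum
        intro c hc
        have hc' := mem_range.1 hc
        rw [← hgc, ← mul_neg]
        apply mul_le_mul_of_nonneg_right (hggc c hc')
        linarith [hneg c hc']
      · intro x hx _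
        obtain ⟨h1, h2⟩ := F.gap_term (k + i) hx
        rw [neg_nonneg]
        exact mul_nonpos_of_nonneg_of_nonpos h1 h2
    have htent := concave_tent g n hn0 hneg
    rw [hg0, hgn, hg2] at htent
    have hn' : ((n : ℕ) : ℝ) = 2 ^ i := by
      rw [hn]
      push_cast
      rfl
    rw [hn'] at htent
    have p : (0 : ℝ) < 2 ^ i := by positivity
    have h3 : 2 ^ i * -(F.ψ k (j + 1) - 2 * F.ψ k j + F.ψ k (j - 1)) ≤
        2 ^ i * ∑ c ∈ range (2 * n - 1), -(g (c + 2) - 2 * g (c + 1) + g c) := by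
      refine le_trans (le_of_eq ?_) htent
      ring
    have h4 := le_of_mul_le_mul_left h3 p
    have h5 := mul_le_mul_of_nonneg_left h4 (show 0 ≤ 16 ^ i * c₀ by positivity)
    linarith
  -- the limit
  have hle : c₀ * -(F.ψ k (j + 1) - 2 * F.ψ k j + F.ψ k (j - 1)) ≤ 0 := by
    have t1 : Tendsto (fun i : ℕ => η (k + i) * 16 ^ k) atTop (nhds (0 * 16 ^ k)) := by
      apply Tendsto.mul_const
      have := hη.comp (tendsto_add_atTop_nat k)
      refine this.congr ?_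
      intro i
      simp only [Function.comp]
      rw [add_comm]
    rw [zero_mul] at t1
    apply ge_of_tendsto t1
    have h1 : ∀ᶠ i : ℕ in atTop, F.gap (k + i) ≤ η (k + i) * 16 ^ (k + i) := by
      have := (tendsto_add_atTop_nat k).eventually hgap
      refine this.mono ?_
      intro i hi
      rw [add_comm k i]
      exact hi
    refine h1.mono ?_
    intro i hi
    have h2 := (key i).trans hi
    rw [pow_add, ← mul_assoc] at h2
    exact le_of_mul_le_mul_right h2 (by positivity)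
  have h5 : -(F.ψ k (j + 1) - 2 * F.ψ k j + F.ψ k (j - 1)) ≤ 0 := by
    by_contra h6
    push Not at h6
    have := mul_pos hc₀ h6
    linarith
  have h6 := F.ψ_concave hj2 hj3 hj1 (by ring)
  linarith

end Pool.Agent.YTD


end

/- source: Pool.Agent.YTD.Rigid7 -/

section

/-!
Equality analysis: the envelope is affine in the fibre directions.
-/

namespace Pool.Agent.YTD

open Finset Filter

theorem Int3.p3 {Q k : ℕ} {j a b : ℤ} (h : Int3 Q k j a b) : P3 Q k j a b :=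
  ⟨h.1.le, h.2.1.le, h.2.2.1.le, h.2.2.2.1.le, h.2.2.2.2.le⟩

namespace Fam3

variable {Q : ℕ} (F : Fam3 Q)

theorem P3_pert {K : ℕ} {j a b : ℤ} (h : Int3 Q K j a b) (i : ℕ) {r1 r3 : ℤ}
    (h1 : 0 ≤ r1) (h1' : 4 * r1 ≤ 2 ^ i) (h3 : 0 ≤ r3) (h3' : 4 * r3 ≤ 2 ^ i) :
    P3 Q (K + i) (2 ^ i * j + r1) (2 ^ i * a) (2 ^ i * b + r3) := by
  obtain ⟨g1, g2, g3, g4, g5⟩ := h
  rw [abs_lt] at g1
  have p : (0 : ℤ) < 2 ^ i := by positivity
  have e5 : 5 * (Q : ℤ) * 2 ^ (K + i) = 2 ^ i * (5 * Q * 2 ^ K) := by rw [pow_add]; ring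
  have e25 : 25 * (Q : ℤ) * 2 ^ (K + i) = 2 ^ i * (25 * Q * 2 ^ K) := by rw [pow_add]; ring
  have k1 : 2 ^ i * (j + 1) ≤ 2 ^ i * (5 * Q * 2 ^ K) :=
    mul_le_mul_of_nonneg_left (by linarith [g1.2]) p.le
  have k2 : 2 ^ i * (-(5 * Q * 2 ^ K) + 1) ≤ 2 ^ i * j :=
    mul_le_mul_of_nonneg_left (by linarith [g1.1]) p.le
  have k3 : 2 ^ i * (a + 1) ≤ 2 ^ i * (25 * Q * 2 ^ K + 3 * j) :=
    mul_le_mul_of_nonneg_left (by linarith) p.le
  have k4 : 2 ^ i * (b + 1) ≤ 2 ^ i * (25 * Q * 2 ^ K - 3 * j) :=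
    mul_le_mul_of_nonneg_left (by linarith) p.le
  have k5 : 0 ≤ 2 ^ i * a := mul_nonneg p.le g2.le
  have k6 : 0 ≤ 2 ^ i * b := mul_nonneg p.le g4.le
  refine ⟨?_, k5, ?_, by linarith, ?_⟩
  · rw [abs_le, e5]
    constructor <;> linarith
  · rw [e25]; linarith
  · rw [e25]; linarith

theorem P3_pert' {K : ℕ} {j a b : ℤ} (h : Int3 Q K j a b) (i : ℕ) {r1 r3 : ℤ}
    (h1 : 0 ≤ r1) (h1' : 4 * r1 ≤ 2 ^ i) (h3 : 0 ≤ r3) (h3' : 4 * r3 ≤ 2 ^ i) :
    P3 Q (K + i) (2 ^ i * j - r1) (2 ^ i * a) (2 ^ i * b - r3) := by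
  obtain ⟨g1, g2, g3, g4, g5⟩ := h
  rw [abs_lt] at g1
  have p : (0 : ℤ) < 2 ^ i := by positivity
  have e5 : 5 * (Q : ℤ) * 2 ^ (K + i) = 2 ^ i * (5 * Q * 2 ^ K) := by rw [pow_add]; ring
  have e25 : 25 * (Q : ℤ) * 2 ^ (K + i) = 2 ^ i * (25 * Q * 2 ^ K) := by rw [pow_add]; ring
  have k1 : 2 ^ i * (j + 1) ≤ 2 ^ i * (5 * Q * 2 ^ K) :=
    mul_le_mul_of_nonneg_left (by linarith [g1.2]) p.le
  have k2 : 2 ^ i * (-(5 * Q * 2 ^ K) + 1) ≤ 2 ^ i * j :=
    mul_le_mul_of_nonneg_left (by linarith [g1.1]) p.le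
  have k3 : 2 ^ i * (a + 1) ≤ 2 ^ i * (25 * Q * 2 ^ K + 3 * j) :=
    mul_le_mul_of_nonneg_left (by linarith) p.le
  have k4 : 2 ^ i * (b + 1) ≤ 2 ^ i * (25 * Q * 2 ^ K - 3 * j) :=
    mul_le_mul_of_nonneg_left (by linarith) p.le
  have k5 : 0 ≤ 2 ^ i * a := mul_nonneg p.le g2.le
  have k6 : 2 ^ i * 1 ≤ 2 ^ i * b := mul_le_mul_of_nonneg_left (by linarith) p.le
  refine ⟨?_, k5, ?_, by linarith, ?_⟩
  · rw [abs_le, e5]
    constructor <;> linarith
  · rw [e25]; linarith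
  · rw [e25]; linarith

theorem pert_lower {K : ℕ} {j a b : ℤ} (h : Int3 Q K j a b) (s n : ℕ) {r1 r3 : ℤ}
    (h1 : 0 ≤ r1) (h1' : r1 < 2 ^ n) (h3 : 0 ≤ r3) (h3' : r3 < 2 ^ n) :
    (2 ^ s - 1) * 2 ^ (n + 2) * F.m K j a b ≤ F.m (K + (s + 2 + n)) (2 ^ (s + 2 + n) * j + r1)
      (2 ^ (s + 2 + n) * a) (2 ^ (s + 2 + n) * b + r3) := by
  have e4 : (2 : ℤ) ^ (n + 2) = 4 * 2 ^ n := by rw [pow_add]; ring
  have hy := P3_pert h (n + 2) h1 (by rw [e4]; linarith) h3 (by rw [e4]; linarith)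
  have hx := h.p3.pow (n + 2)
  obtain ⟨_, g2⟩ := F.m_chain hx hy s
  have g3 := F.m_nonneg hy
  rw [F.m_pow h.p3] at g2
  have e : K + (n + 2) + s = K + (s + 2 + n) := by ring
  have e1 : ∀ x y : ℤ, (2 ^ s - 1) * (2 ^ (n + 2) * x) + (2 ^ (n + 2) * x + y) =
      2 ^ (s + 2 + n) * x + y := by
    intro x y
    have : (2 : ℤ) ^ (s + 2 + n) = 2 ^ s * 2 ^ (n + 2) := by rw [← pow_add]; congr 1; ring
    rw [this]
    ring
  have e2 : (2 ^ s - 1) * (2 ^ (n + 2) * a) + (2 ^ (n + 2) * a) = 2 ^ (s + 2 + n) * a := by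
    have := e1 a 0
    simpa using this
  rw [e, e1, e1, e2] at g2
  linarith

theorem pert_upper {K : ℕ} {j a b : ℤ} (h : Int3 Q K j a b) (s n : ℕ) {r1 r3 : ℤ}
    (h1 : 0 ≤ r1) (h1' : r1 < 2 ^ n) (h3 : 0 ≤ r3) (h3' : r3 < 2 ^ n) :
    (2 ^ s - 1) * F.m (K + (s + 2 + n)) (2 ^ (s + 2 + n) * j + r1)
      (2 ^ (s + 2 + n) * a) (2 ^ (s + 2 + n) * b + r3) ≤
      2 ^ (s + (s + 2 + n)) * F.m K j a b := by
  have e4 : (2 : ℤ) ^ (s + 2 + n) = 4 * (2 ^ s * 2 ^ n) := by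
    rw [← pow_add, show s + 2 + n = 2 + (s + n) by ring, pow_add]; ring
  have ps : (1 : ℤ) ≤ 2 ^ s := one_le_pow₀ (by norm_num)
  have pn : (0 : ℤ) < 2 ^ n := by positivity
  have b1 : 4 * r1 ≤ 2 ^ (s + 2 + n) := by rw [e4]; nlinarith
  have b3 : 4 * r3 ≤ 2 ^ (s + 2 + n) := by rw [e4]; nlinarith
  have c1 : 4 * ((2 ^ s - 1) * r1) ≤ 2 ^ (s + 2 + n) := by rw [e4]; nlinarith
  have c3 : 4 * ((2 ^ s - 1) * r3) ≤ 2 ^ (s + 2 + n) := by rw [e4]; nlinarith
  have hx := P3_pert h (s + 2 + n) h1 b1 h3 b3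
  have hy := P3_pert' h (s + 2 + n) (mul_nonneg (by linarith) h1) c1
    (mul_nonneg (by linarith) h3) c3
  obtain ⟨_, g2⟩ := F.m_chain hx hy s
  have g3 := F.m_nonneg hy
  have e : K + (s + 2 + n) + s = K + (s + (s + 2 + n)) := by ring
  have e1 : ∀ x y : ℤ, (2 ^ s - 1) * (2 ^ (s + 2 + n) * x + y) +
      (2 ^ (s + 2 + n) * x - (2 ^ s - 1) * y) = 2 ^ (s + (s + 2 + n)) * x := by
    intro x y
    rw [pow_add 2 s (s + 2 + n)]
    ring
  have e2 : (2 ^ s - 1) * (2 ^ (s + 2 + n) * a) + (2 ^ (s + 2 + n) * a) =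
      2 ^ (s + (s + 2 + n)) * a := by
    have := e1 a 0
    simpa using this
  rw [e, e1, e1, e2, F.m_pow h.p3] at g2
  linarith

end Fam3

namespace Fam3

variable {q : ℕ} (F : Fam3 (4 * q))

theorem line_le (hq : 0 < q) {K : ℕ} {j b : ℤ} {a : ℕ} (h1 : Int3 (4 * q) K j ((a : ℤ) - 1) b)
    (h2 : Int3 (4 * q) K j ((a : ℤ) + 1) b) (s n : ℕ) {r1 r3 : ℤ}
    (g1 : 0 ≤ r1) (g1' : r1 < 2 ^ n) (g3 : 0 ≤ r3) (g3' : r3 < 2 ^ n) :
    2 ^ (s + 2 + n + (n + 2)) * (4 ^ s * (2 * F.m K j a b - F.m K j (a - 1) b -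
      F.m K j (a + 1) b) - 4 * 2 ^ s * F.m K j a b) ≤
      (2 ^ s - 1) * F.WW (K + (s + 2 + n)) (2 ^ (s + 2 + n) * j + r1)
        (2 ^ (s + 2 + n) * b + r3) := by
  have h0 : Int3 (4 * q) K j a b :=
    ⟨h1.1, by linarith [h1.2.1], by linarith [h2.2.2.1], h1.2.2.2.1, h1.2.2.2.2⟩
  have ha2 : 2 ≤ a := by
    have := h1.2.1
    omega
  have e4 : (2 : ℤ) ^ (s + 2 + n) = 4 * (2 ^ s * 2 ^ n) := by
    rw [← pow_add, show s + 2 + n = 2 + (s + n) by ring, pow_add]; ring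
  have ps : (1 : ℤ) ≤ 2 ^ s := one_le_pow₀ (by norm_num)
  have pn : (0 : ℤ) < 2 ^ n := by positivity
  have b1 : 4 * r1 ≤ 2 ^ (s + 2 + n) := by rw [e4]; nlinarith
  have b3 : 4 * r3 ≤ 2 ^ (s + 2 + n) := by rw [e4]; nlinarith
  have hx := P3_pert h0 (s + 2 + n) g1 b1 g3 b3
  have L0 := F.pert_lower h0 s n g1 g1' g3 g3'
  have L1 := F.pert_upper h1 s n g1 g1' g3 g3'
  have L2 := F.pert_upper h2 s n g1 g1' g3 g3'
  set i := s + 2 + n with hi
  set k := K + i with hk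
  set j' : ℤ := 2 ^ i * j + r1 with hj'
  set b' : ℤ := 2 ^ i * b + r3 with hb'
  have hA := AA_cast hx.1
  set A := AA q (2 ^ (k + 2)) j' with hAdef
  have pi : (0 : ℤ) < 2 ^ i := by positivity
  have hAge : 2 ^ i * a + 2 * 2 ^ i ≤ A + 1 := by
    have t1 : 2 ^ i * ((a : ℤ) + 2) ≤ 2 ^ i * (25 * ((4 * q : ℕ) : ℤ) * 2 ^ K + 3 * j) :=
      mul_le_mul_of_nonneg_left (by linarith [h2.2.2.1]) pi.le
    have t2 : 25 * ((4 * q : ℕ) : ℤ) * 2 ^ k = 2 ^ i * (25 * ((4 * q : ℕ) : ℤ) * 2 ^ K) := by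
      rw [hk, pow_add]; ring
    have t3 : (2 : ℤ) ^ i * a + 2 * 2 ^ i ≤ A + 1 := by
      rw [hA, t2, hj']
      linarith
    exact_mod_cast t3
  have S := second_le (fun x => F.m k j' x b') A
    (fun x hx' => F.line_concave hx.1 hx.2.2.2.1 hx.2.2.2.2 x hx') (h := 2 ^ i) (x := 2 ^ i * a)
    Nat.one_le_two_pow (by nlinarith [Nat.one_le_two_pow (n := i)]) hAge
  have eW : 2 * ∑ x ∈ range (A + 1), F.m k j' x b' - ((A : ℝ) + 1) *
      (F.m k j' ((0 : ℕ) : ℤ) b' + F.m k j' A b') = F.WW k j' b' := by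
    unfold WW
    rw [← hAdef, Nat.cast_zero]
  rw [eW] at S
  have c1 : ((2 ^ i * a - 2 ^ i : ℕ) : ℤ) = 2 ^ i * ((a : ℤ) - 1) := by
    rw [Nat.cast_sub (by nlinarith [Nat.one_le_two_pow (n := i)])]
    push_cast
    ring
  have c2 : ((2 ^ i * a + 2 ^ i : ℕ) : ℤ) = 2 ^ i * ((a : ℤ) + 1) := by push_cast; ring
  have c0 : ((2 ^ i * a : ℕ) : ℤ) = 2 ^ i * (a : ℤ) := by push_cast; ring
  rw [c1, c2, c0] at S
  set m0 := F.m k j' (2 ^ i * (a : ℤ)) b'
  set m1 := F.m k j' (2 ^ i * ((a : ℤ) - 1)) b'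
  set m2 := F.m k j' (2 ^ i * ((a : ℤ) + 1)) b'
  set M0 := F.m K j a b with hM0
  set M1 := F.m K j (a - 1) b
  set M2 := F.m K j (a + 1) b
  have hM0' : 0 ≤ M0 := F.m_nonneg h0.p3
  push_cast at S
  set x : ℝ := 2 ^ s with hx'
  have hx1 : (1 : ℝ) ≤ x := one_le_pow₀ (by norm_num)
  set y : ℝ := 2 ^ n with hy
  have hy0 : (0 : ℝ) < y := by positivity
  have ei : (2 : ℝ) ^ i = 4 * (x * y) := by
    rw [hi, hx', hy, ← pow_add, show s + 2 + n = 2 + (s + n) by ring, pow_add]; ring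
  have en : (2 : ℝ) ^ (n + 2) = 4 * y := by rw [pow_add, hy]; ring
  have e44 : (4 : ℝ) ^ s = x * x := by rw [hx', ← mul_pow]; norm_num
  rw [pow_add (2 : ℝ) i (n + 2), ei, en, e44]
  rw [en] at L0
  rw [pow_add (2 : ℝ) s i, ei, ← hx'] at L1 L2
  rw [ei] at S
  have hxm : (0 : ℝ) ≤ x - 1 := by linarith
  have S' := mul_le_mul_of_nonneg_left S hxm
  refine le_trans ?_ S'
  have hL0 : (x - 1) * ((x - 1) * (4 * y) * M0) ≤ (x - 1) * m0 :=
    mul_le_mul_of_nonneg_left L0 hxm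
  have key : 4 * y * (x * x * (2 * M0 - M1 - M2) - 4 * x * M0) ≤ (x - 1) * (2 * m0 - m1 - m2) := by
    have t1 : (x - 1) * (2 * m0 - m1 - m2) = 2 * ((x - 1) * m0) - (x - 1) * m1 - (x - 1) * m2 := by
      ring
    rw [t1]
    have t2 : 0 ≤ y * M0 := by positivity
    nlinarith
  have := mul_le_mul_of_nonneg_left key (show (0 : ℝ) ≤ 4 * (x * y) by positivity)
  linarith

/-- summing over the perturbations. -/
theorem line_sum (hq : 0 < q) {K : ℕ} {j b : ℤ} {a : ℕ} (h1 : Int3 (4 * q) K j ((a : ℤ) - 1) b)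
    (h2 : Int3 (4 * q) K j ((a : ℤ) + 1) b) (s n : ℕ) :
    4 ^ n * (2 ^ (s + 2 + n + (n + 2)) * (4 ^ s * (2 * F.m K j a b - F.m K j (a - 1) b -
      F.m K j (a + 1) b) - 4 * 2 ^ s * F.m K j a b)) ≤
      (2 ^ s - 1) * SS q (2 ^ (K + (s + 2 + n) + 2)) (fun j =>
        ∑ b ∈ range (BB q (2 ^ (K + (s + 2 + n) + 2)) j + 1), F.WW (K + (s + 2 + n)) j b) := by
  have h0 : Int3 (4 * q) K j a b :=
    ⟨h1.1, by linarith [h1.2.1], by linarith [h2.2.2.1], h1.2.2.2.1, h1.2.2.2.2⟩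
  set X := 2 ^ (s + 2 + n + (n + 2)) * (4 ^ s * (2 * F.m K j a b - F.m K j (a - 1) b -
      F.m K j (a + 1) b) - 4 * 2 ^ s * F.m K j a b) with hX
  have e4 : (2 : ℤ) ^ (s + 2 + n) = 4 * (2 ^ s * 2 ^ n) := by
    rw [← pow_add, show s + 2 + n = 2 + (s + n) by ring, pow_add]; ring
  have ps : (1 : ℤ) ≤ 2 ^ s := one_le_pow₀ (by norm_num)
  have pn : (0 : ℤ) < 2 ^ n := by positivity
  have hin : ∀ r1 ∈ range (2 ^ n), ∀ r3 ∈ range (2 ^ n), P3 (4 * q) (K + (s + 2 + n))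
      (2 ^ (s + 2 + n) * j + (r1 : ℕ)) (2 ^ (s + 2 + n) * a) (2 ^ (s + 2 + n) * b + (r3 : ℕ)) := by
    intro r1 hr1 r3 hr3
    have c1 : (r1 : ℤ) < 2 ^ n := by exact_mod_cast mem_range.1 hr1
    have c3 : (r3 : ℤ) < 2 ^ n := by exact_mod_cast mem_range.1 hr3
    exact P3_pert h0 (s + 2 + n) (by positivity) (by rw [e4]; nlinarith) (by positivity)
      (by rw [e4]; nlinarith)
  have h4 : ∀ r1 ∈ range (2 ^ n), ∀ r3 ∈ range (2 ^ n), X ≤
      (2 ^ s - 1) * F.WW (K + (s + 2 + n)) (2 ^ (s + 2 + n) * j + (r1 : ℕ))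
        (2 ^ (s + 2 + n) * b + (r3 : ℕ)) := by
    intro r1 hr1 r3 hr3
    have c1 : (r1 : ℤ) < 2 ^ n := by exact_mod_cast mem_range.1 hr1
    have c3 : (r3 : ℤ) < 2 ^ n := by exact_mod_cast mem_range.1 hr3
    exact F.line_le hq h1 h2 s n (by positivity) c1 (by positivity) c3
  have h5 : ∑ r1 ∈ range (2 ^ n), ∑ r3 ∈ range (2 ^ n), X ≤
      ∑ r1 ∈ range (2 ^ n), ∑ r3 ∈ range (2 ^ n), (2 ^ s - 1) *
        F.WW (K + (s + 2 + n)) (2 ^ (s + 2 + n) * j + (r1 : ℕ)) (2 ^ (s + 2 + n) * b + (r3 : ℕ)) :=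
    sum_le_sum fun r1 hr1 => sum_le_sum fun r3 hr3 => h4 r1 hr1 r3 hr3
  have e1 : ∑ _r1 ∈ range (2 ^ n), ∑ _r3 ∈ range (2 ^ n), X = 4 ^ n * X := by
    simp only [sum_const, card_range, nsmul_eq_mul]
    push_cast
    rw [← mul_assoc, ← mul_pow]
    norm_num
  rw [e1] at h5
  refine h5.trans ?_
  have e2 : ∑ r1 ∈ range (2 ^ n), ∑ r3 ∈ range (2 ^ n), ((2 : ℝ) ^ s - 1) *
        F.WW (K + (s + 2 + n)) (2 ^ (s + 2 + n) * j + (r1 : ℕ)) (2 ^ (s + 2 + n) * b + (r3 : ℕ)) =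
      (2 ^ s - 1) * ∑ r1 ∈ range (2 ^ n), ∑ r3 ∈ range (2 ^ n),
        F.WW (K + (s + 2 + n)) (2 ^ (s + 2 + n) * j + (r1 : ℕ))
          (2 ^ (s + 2 + n) * b + (r3 : ℕ)) := by
    rw [mul_sum]
    apply sum_congr rfl
    intro r1 _
    rw [mul_sum]
  rw [e2]
  apply mul_le_mul_of_nonneg_left _ (by
    have : (1 : ℝ) ≤ 2 ^ s := one_le_pow₀ (by norm_num)
    linarith)
  set k := K + (s + 2 + n) with hk
  set i := s + 2 + n with hi
  rw [SS_eq_Icc]
  have hIcc : ∀ j' : ℤ, j' ∈ Icc (-((5 * q * 2 ^ (k + 2) : ℕ) : ℤ)) ((5 * q * 2 ^ (k + 2) : ℕ) : ℤ) ↔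
      |j'| ≤ 5 * ((4 * q : ℕ) : ℤ) * 2 ^ k := by
    intro j'
    rw [← rng4, abs_le, mem_Icc]
    push_cast
    exact Iff.rfl
  have hnn : ∀ j' : ℤ, |j'| ≤ 5 * ((4 * q : ℕ) : ℤ) * 2 ^ k →
      ∀ b' ∈ range (BB q (2 ^ (k + 2)) j' + 1), 0 ≤ F.WW k j' b' := by
    intro j' hj' b' hb'
    apply F.WW_nonneg hq hj' (by positivity)
    rw [← BB_cast hj']
    have := mem_range.1 hb'
    omega
  have inj1 : Set.InjOn (fun r : ℕ => 2 ^ i * j + (r : ℤ)) (range (2 ^ n) : Finset ℕ) := by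
    intro x _ y _ hxy
    simp only at hxy
    omega
  have sub1 : (range (2 ^ n)).image (fun r : ℕ => 2 ^ i * j + (r : ℤ)) ⊆
      Icc (-((5 * q * 2 ^ (k + 2) : ℕ) : ℤ)) ((5 * q * 2 ^ (k + 2) : ℕ) : ℤ) := by
    intro x hx
    obtain ⟨r, hr, rfl⟩ := mem_image.1 hx
    rw [hIcc]
    exact (hin r hr 0 (mem_range.2 (by positivity))).1
  refine le_trans ?_ (sum_le_sum_of_subset_of_nonneg sub1
    (fun j' hj' _ => sum_nonneg (hnn j' ((hIcc j').1 hj'))))
  rw [sum_image inj1]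
  apply sum_le_sum
  intro r1 hr1
  have hb0 : 0 ≤ b := h0.2.2.2.1.le
  obtain ⟨b0, rfl⟩ := Int.eq_ofNat_of_zero_le hb0
  have inj2 : Set.InjOn (fun r : ℕ => 2 ^ i * b0 + r) (range (2 ^ n) : Finset ℕ) := by
    intro x _ y _ hxy
    simp only at hxy
    omega
  have hj1 := (hin r1 hr1 0 (mem_range.2 (by positivity))).1
  have sub2 : (range (2 ^ n)).image (fun r : ℕ => 2 ^ i * b0 + r) ⊆
      range (BB q (2 ^ (k + 2)) (2 ^ i * j + (r1 : ℤ)) + 1) := by
    intro x hx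
    obtain ⟨r, hr, rfl⟩ := mem_image.1 hx
    have h6 := (hin r1 hr1 r hr).2.2.2.2
    rw [← BB_cast hj1] at h6
    rw [mem_range, Nat.lt_succ_iff]
    exact_mod_cast h6
  refine le_trans (le_of_eq ?_) (sum_le_sum_of_subset_of_nonneg sub2
    (fun b' hb' _ => hnn _ hj1 b' hb'))
  rw [sum_image inj2]
  apply sum_congr rfl
  intro r3 _
  push_cast
  rfl

/-- (L) the envelope is affine in `a` in the interior. -/
theorem affine_a (hq : 0 < q)
    (h : ∃ η : ℕ → ℝ, Tendsto η atTop (nhds 0) ∧ ∀ᶠ k : ℕ in atTop,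
      SS q (2 ^ (k + 2)) (fun j => F.env.avg.ψ k j - F.env.avg.ν k j) ≤ η k * 2 ^ k)
    {k : ℕ} {j a b : ℤ} (h1 : Int3 (4 * q) k j (a - 1) b) (h2 : Int3 (4 * q) k j (a + 1) b) :
    F.m k j (a - 1) b + F.m k j (a + 1) b = 2 * F.m k j a b := by
  obtain ⟨η, hη, hη'⟩ := h
  have ha0 : 0 ≤ a := by linarith [h1.2.1]
  obtain ⟨a, rfl⟩ := Int.eq_ofNat_of_zero_le ha0
  have h0 : Int3 (4 * q) k j a b :=
    ⟨h1.1, by linarith [h1.2.1], by linarith [h2.2.2.1], h1.2.2.2.1, h1.2.2.2.2⟩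
  have hle := F.m_concave h1.p3 h2.p3 h0.p3 (by ring) (by ring) (by ring)
  set D := 2 * F.m k j a b - F.m k j (a - 1) b - F.m k j (a + 1) b with hD
  have hD0 : 0 ≤ D := by rw [hD]; linarith
  set M0 := F.m k j a b with hM0
  have hM0' : 0 ≤ M0 := F.m_nonneg h0.p3
  -- for all `s`
  have key : ∀ s : ℕ, 2 ^ s * D ≤ 4 * M0 := by
    intro s
    have ev : ∀ᶠ n : ℕ in atTop, 2 ^ s * D - 4 * M0 ≤
        (2 ^ (3 * s + 4) * (20000000 * (q : ℝ) ^ 3) * 16 ^ k) * η (n + (k + (s + 2))) := by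
      have := (tendsto_add_atTop_nat (k + (s + 2))).eventually hη'
      filter_upwards [this] with n hn
      have g1 := F.line_sum hq h1 h2 s n
      have g2 := F.sum_WW_le hq (k + (s + 2 + n))
      have ek : n + (k + (s + 2)) = k + (s + 2 + n) := by ring
      rw [ek] at hn ⊢
      rw [← hD, ← hM0] at g1
      set kk := k + (s + 2 + n) with hkk
      set P := SS q (2 ^ (kk + 2)) (fun j => F.env.avg.ψ kk j - F.env.avg.ν kk j) with hP
      set R := SS q (2 ^ (kk + 2)) (fun j => ∑ b ∈ range (BB q (2 ^ (kk + 2)) j + 1),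
        F.WW kk j b) with hR
      have hR0 : 0 ≤ R := by
        apply SS_nonneg
        intro j' hj'
        apply sum_nonneg
        intro b' hb'
        apply F.WW_nonneg hq (rng4.1 hj') (by positivity)
        rw [← BB_cast (rng4.1 hj')]
        have := mem_range.1 hb'
        omega
      have g3 : R ≤ 20000000 * (q : ℝ) ^ 3 * 8 ^ kk * (η kk * 2 ^ kk) :=
        g2.trans (mul_le_mul_of_nonneg_left hn (by positivity))
      have g4 : ((2 : ℝ) ^ s - 1) * R ≤ 2 ^ s * (20000000 * (q : ℝ) ^ 3 * 8 ^ kk *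
          (η kk * 2 ^ kk)) := by
        have : ((2 : ℝ) ^ s - 1) * R ≤ 2 ^ s * R :=
          mul_le_mul_of_nonneg_right (by linarith) hR0
        exact this.trans (mul_le_mul_of_nonneg_left g3 (by positivity))
      have g5 := g1.trans g4
      have x1 : (4 : ℝ) ^ n * (2 ^ (s + 2 + n + (n + 2)) * (4 ^ s * D - 4 * 2 ^ s * M0)) =
          (2 ^ s * D - 4 * M0) * (2 ^ (4 * n + 2 * s + 4)) := by
        have y1 : (4 : ℝ) ^ n = 2 ^ n * 2 ^ n := by rw [← mul_pow]; norm_num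
        have y2 : (4 : ℝ) ^ s = 2 ^ s * 2 ^ s := by rw [← mul_pow]; norm_num
        rw [y1, y2]
        simp only [pow_add, pow_mul, mul_comm 4 n, mul_comm 2 s]
        rw [show ((2 : ℝ) ^ n) ^ 4 = 2 ^ n * 2 ^ n * 2 ^ n * 2 ^ n by ring]
        ring
      have x2 : (2 : ℝ) ^ s * (20000000 * (q : ℝ) ^ 3 * 8 ^ kk * (η kk * 2 ^ kk)) =
          ((2 ^ (3 * s + 4) * (20000000 * (q : ℝ) ^ 3) * 16 ^ k) * η kk) *
            (2 ^ (4 * n + 2 * s + 4)) := by
        have y1 : (8 : ℝ) ^ kk * 2 ^ kk = 16 ^ k * 2 ^ (4 * (s + 2 + n)) := by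
          rw [← mul_pow, hkk, pow_add, pow_mul]
          norm_num
        have y2 : (2 : ℝ) ^ s * 2 ^ (4 * (s + 2 + n)) =
            2 ^ (3 * s + 4) * 2 ^ (4 * n + 2 * s + 4) := by
          rw [← pow_add, ← pow_add]
          congr 1
          ring
        calc (2 : ℝ) ^ s * (20000000 * (q : ℝ) ^ 3 * 8 ^ kk * (η kk * 2 ^ kk)) =
            20000000 * (q : ℝ) ^ 3 * η kk * (2 ^ s * (8 ^ kk * 2 ^ kk)) := by ring
          _ = 20000000 * (q : ℝ) ^ 3 * η kk * 16 ^ k * (2 ^ s * 2 ^ (4 * (s + 2 + n))) := by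
            rw [y1]; ring
          _ = _ := by rw [y2]; ring
      rw [x1, x2] at g5
      exact le_of_mul_le_mul_right g5 (by positivity)
    have lim : Tendsto (fun n : ℕ => (2 ^ (3 * s + 4) * (20000000 * (q : ℝ) ^ 3) * 16 ^ k) *
        η (n + (k + (s + 2)))) atTop (nhds 0) := by
      have := ((tendsto_add_atTop_iff_nat (k + (s + 2))).2 hη).const_mul
        (2 ^ (3 * s + 4) * (20000000 * (q : ℝ) ^ 3) * 16 ^ k)
      rwa [mul_zero] at this
    have := ge_of_tendsto lim ev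
    linarith
  have hfin : D ≤ 0 := by
    have lim := half_tendsto' (4 * M0)
    apply ge_of_tendsto' lim
    intro s
    have := key s
    have e1 : (2 : ℝ) ^ s * (1 / 2) ^ s = 1 := by rw [← mul_pow]; norm_num
    have p : (0 : ℝ) < (1 / 2) ^ s := by positivity
    have h3 := mul_le_mul_of_nonneg_right this p.le
    nlinarith
  rw [hD] at hfin hD0
  linarith
where
  half_tendsto' (c : ℝ) : Tendsto (fun k : ℕ => c * (1 / 2 : ℝ) ^ k) atTop (nhds 0) :=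
    Graded.half_tendsto c

end Fam3

end Pool.Agent.YTD


end

/- source: Pool.Agent.YTD.Rigid8 -/

section

/-!
The symmetric statement, by swapping the two fibre directions.
-/

namespace Pool.Agent.YTD

open Finset Filter

theorem P3_swap {Q k : ℕ} {j a b : ℤ} : P3 Q k (-j) b a ↔ P3 Q k j a b := by
  unfold P3
  rw [abs_neg, mul_neg, sub_neg_eq_add, ← sub_eq_add_neg]
  tauto

theorem Int3_swap {Q k : ℕ} {j a b : ℤ} : Int3 Q k (-j) b a ↔ Int3 Q k j a b := by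
  unfold Int3
  rw [abs_neg, mul_neg, sub_neg_eq_add, ← sub_eq_add_neg]
  tauto

theorem SS_neg (q L : ℕ) (f : ℤ → ℝ) : SS q L (fun j => f (-j)) = SS q L f := by
  rw [SS_eq_Icc, SS_eq_Icc]
  refine sum_bij' (fun x _ => -x) (fun x _ => -x) ?_ ?_ ?_ ?_ ?_
  · intro x hx; rw [mem_Icc] at hx ⊢; constructor <;> linarith [hx.1, hx.2]
  · intro x hx; rw [mem_Icc] at hx ⊢; constructor <;> linarith [hx.1, hx.2]
  · intro x _; simp
  · intro x _; simp
  · intro x _; rfl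

theorem AA_neg_aux (q L : ℕ) (j : ℤ) : AA q L (-j) = BB q L j := by
  unfold AA BB
  congr 1
  ring

theorem BB_neg_aux (q L : ℕ) (j : ℤ) : BB q L (-j) = AA q L j := by
  unfold AA BB
  congr 1
  ring

namespace Fam3

section
variable {Q : ℕ} (F : Fam3 Q)

/-- the swapped family. -/
def swap : Fam3 Q where
  ν := fun k j a b => F.ν k (-j) b a
  C := F.C
  nonneg := fun k j a b h => F.nonneg k (-j) b a (P3_swap.2 h)
  le := fun k j a b h => F.le k (-j) b a (P3_swap.2 h)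
  add := by
    intro k j a b j' a' b' h h'
    have := F.add k (-j) b a (-j') b' a' (P3_swap.2 h) (P3_swap.2 h')
    rwa [← neg_add] at this

theorem swap_m (k : ℕ) (j a b : ℤ) : F.swap.m k j a b = F.m k (-j) b a := by
  unfold m ap
  simp only [swap, mul_neg]

end

section
variable {q : ℕ} (F : Fam3 (4 * q))

theorem swap_avg (k : ℕ) (j : ℤ) : F.swap.env.avg.ν k j = F.env.avg.ν k (-j) := by
  show avg2 (AA q (2 ^ (k + 2)) j) (BB q (2 ^ (k + 2)) j) (fun a b => F.swap.m k j a b) =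
    avg2 (AA q (2 ^ (k + 2)) (-j)) (BB q (2 ^ (k + 2)) (-j)) (fun a b => F.m k (-j) a b)
  rw [AA_neg_aux, BB_neg_aux, avg2_comm]
  simp only [swap_m]

theorem swap_ψ (k : ℕ) (j : ℤ) : F.swap.env.avg.ψ k j = F.env.avg.ψ k (-j) := by
  unfold Fam.ψ Fam.ap
  simp only [swap_avg, mul_neg]

theorem affine_b (hq : 0 < q)
    (h : ∃ η : ℕ → ℝ, Tendsto η atTop (nhds 0) ∧ ∀ᶠ k : ℕ in atTop,
      SS q (2 ^ (k + 2)) (fun j => F.env.avg.ψ k j - F.env.avg.ν k j) ≤ η k * 2 ^ k)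
    {k : ℕ} {j a b : ℤ} (h1 : Int3 (4 * q) k j a (b - 1)) (h2 : Int3 (4 * q) k j a (b + 1)) :
    F.m k j a (b - 1) + F.m k j a (b + 1) = 2 * F.m k j a b := by
  obtain ⟨η, h3, h4⟩ := h
  have := F.swap.affine_a hq (k := k) (j := -j) (a := b) (b := a) ⟨η, h3, by
    filter_upwards [h4] with k hk
    refine le_trans (le_of_eq ?_) hk
    rw [← SS_neg]
    simp only [swap_ψ, swap_avg, neg_neg]⟩ (Int3_swap.2 h1) (Int3_swap.2 h2)
  simpa only [swap_m, neg_neg] using this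

end

end Fam3

end Pool.Agent.YTD


end

/- source: Pool.Agent.YTD.Rigid9 -/

section

/-!
Integrality: rounding forces the slopes of the envelope to be integers.
-/

namespace Pool.Agent.YTD

open Finset Filter

/-- distance to the nearest integer -/
noncomputable def rd (x : ℝ) : ℝ := |x - round x|

theorem rd_nonneg (x : ℝ) : 0 ≤ rd x := abs_nonneg _

theorem rd_le (x : ℝ) (z : ℤ) : rd x ≤ |x - z| := round_le x z

theorem rd_add_le (x y : ℝ) : rd (x + y) ≤ rd x + rd y := by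
  refine (rd_le (x + y) (round x + round y)).trans ?_
  push_cast
  have : x + y - ((round x : ℝ) + round y) = (x - round x) + (y - round y) := by ring
  rw [this]
  exact abs_add_le _ _

theorem rd_neg_le (x : ℝ) : rd (-x) ≤ rd x := by
  refine (rd_le (-x) (-round x)).trans ?_
  push_cast
  rw [show -x - -(round x : ℝ) = -(x - round x) by ring, abs_neg]
  exact le_rfl

theorem rd_sub_le (x y : ℝ) : rd (x - y) ≤ rd x + rd y := by
  rw [sub_eq_add_neg]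
  exact (rd_add_le _ _).trans (by linarith [rd_neg_le y])

theorem rd_int (z : ℤ) : rd (z : ℝ) = 0 := by
  unfold rd
  simp

theorem rd_add_int (x : ℝ) (z : ℤ) : rd (x + z) = rd x := by
  apply le_antisymm
  · have := rd_add_le x z
    rw [rd_int] at this
    linarith
  · have := rd_sub_le (x + z) z
    rw [rd_int, add_sub_cancel_right] at this
    linarith

theorem eq_of_rd {x : ℝ} (h : rd x = 0) : ∃ z : ℤ, x = z :=
  ⟨round x, by unfold rd at h; rw [abs_eq_zero] at h; linarith⟩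

theorem rd_double {x : ℝ} (h : rd x < 1 / 4) : rd (2 * x) = 2 * rd x := by
  apply le_antisymm
  · rw [two_mul, two_mul]
    exact rd_add_le x x
  · by_cases hw : round (2 * x) = 2 * round x
    · unfold rd
      rw [hw]
      push_cast
      rw [show 2 * x - 2 * (round x : ℝ) = 2 * (x - round x) by ring, abs_mul]
      norm_num
    · exfalso
      have h1 : (1 : ℝ) ≤ |((round (2 * x) - 2 * round x : ℤ) : ℝ)| := by
        have h2 : (1 : ℤ) ≤ |round (2 * x) - 2 * round x| := Int.one_le_abs (sub_ne_zero.2 hw)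
        exact_mod_cast h2
      have h3 : |2 * x - round (2 * x)| ≤ 1 / 2 := abs_sub_round (2 * x)
      unfold rd at h
      have h4 : |((round (2 * x) - 2 * round x : ℤ) : ℝ)| ≤
          |2 * x - round (2 * x)| + 2 * |x - round x| := by
        have e : ((round (2 * x) - 2 * round x : ℤ) : ℝ) =
            -(2 * x - round (2 * x)) + 2 * (x - round x) := by push_cast; ring
        rw [e]
        refine (abs_add_le _ _).trans ?_
        rw [abs_neg, abs_mul]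
        norm_num
      linarith

theorem dyadic {δ : ℝ} {η : ℕ → ℝ} (hη : Tendsto η atTop (nhds 0))
    (h : ∀ᶠ k : ℕ in atTop, rd (δ * 2 ^ k) ≤ η k) : ∃ (k : ℕ) (z : ℤ), δ * 2 ^ k = z := by
  have h1 : ∀ᶠ k : ℕ in atTop, rd (δ * 2 ^ k) < 1 / 4 := by
    filter_upwards [h, hη.eventually (gt_mem_nhds (show (0 : ℝ) < 1 / 4 by norm_num))] with k h2 h3
    linarith
  obtain ⟨k₀, hk₀⟩ := eventually_atTop.1 h1
  refine ⟨k₀, ?_⟩
  apply eq_of_rd
  by_contra hne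
  have hpos : 0 < rd (δ * 2 ^ k₀) := lt_of_le_of_ne (rd_nonneg _) (Ne.symm hne)
  have h2 : ∀ i : ℕ, rd (δ * 2 ^ (k₀ + i)) = 2 ^ i * rd (δ * 2 ^ k₀) := by
    intro i
    induction i with
    | zero => simp
    | succ i ih =>
      have h3 := rd_double (hk₀ (k₀ + i) (by omega))
      rw [ih] at h3
      rw [← add_assoc, pow_succ, ← mul_assoc, mul_comm _ (2 : ℝ), h3, pow_succ]
      ring
  obtain ⟨n, hn⟩ := pow_unbounded_of_one_lt (1 / rd (δ * 2 ^ k₀)) (by norm_num : (1 : ℝ) < 2)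
  have h4 := hk₀ (k₀ + n) (by omega)
  rw [h2] at h4
  rw [div_lt_iff₀ hpos] at hn
  linarith

namespace Fam3

variable {Q : ℕ} (F : Fam3 Q)

theorem T_sub (k : ℕ) : F.env.T k - F.T k = ∑ p ∈ Pset Q k,
    (F.m k p.1 p.2.1 p.2.2 - F.ν k p.1 p.2.1 p.2.2) := by
  unfold T
  rw [← sum_sub_distrib]
  rfl

theorem block (hint : ∀ k j a b, P3 Q k j a b → ∃ z : ℤ, F.ν k j a b = z) (k : ℕ) (J A B : ℤ)
    (hP : ∀ x y z : ℕ, x < 2 ^ k → y < 2 ^ k → z < 2 ^ k → P3 Q k (J + x) (A + y) (B + z)) :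
    ∑ x ∈ range (2 ^ k), ∑ y ∈ range (2 ^ k), ∑ z ∈ range (2 ^ k),
      rd (F.m k (J + (x : ℕ)) (A + (y : ℕ)) (B + (z : ℕ))) ≤ F.env.T k - F.T k := by
  classical
  rw [T_sub]
  have h0 : ∀ p ∈ Pset Q k, 0 ≤ F.m k p.1 p.2.1 p.2.2 - F.ν k p.1 p.2.1 p.2.2 :=
    fun p hp => sub_nonneg.2 (F.ν_le_m (mem_Pset.1 hp))
  set R : Finset (ℕ × ℕ × ℕ) := range (2 ^ k) ×ˢ range (2 ^ k) ×ˢ range (2 ^ k) with hR
  let φ : ℕ × ℕ × ℕ → ℤ × ℤ × ℤ := fun r => (J + (r.1 : ℕ), A + (r.2.1 : ℕ), B + (r.2.2 : ℕ))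
  have hinj : Set.InjOn φ R := by
    rintro ⟨x, y, z⟩ _ ⟨x', y', z'⟩ _ h
    simp only [φ, Prod.mk.injEq] at h
    obtain ⟨h1, h2, h3⟩ := h
    have e1 : x = x' := by omega
    have e2 : y = y' := by omega
    have e3 : z = z' := by omega
    rw [e1, e2, e3]
  have hP' : ∀ r ∈ R, P3 Q k (φ r).1 (φ r).2.1 (φ r).2.2 := by
    intro r hr
    rw [hR, mem_product, mem_product, mem_range, mem_range, mem_range] at hr
    exact hP _ _ _ hr.1 hr.2.1 hr.2.2
  have hsub : R.image φ ⊆ Pset Q k := by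
    intro p hp
    obtain ⟨r, hr, rfl⟩ := mem_image.1 hp
    exact mem_Pset.2 (hP' r hr)
  refine le_trans ?_ (sum_le_sum_of_subset_of_nonneg hsub fun p hp _ => h0 p hp)
  rw [sum_image hinj, hR, sum_product]
  apply sum_le_sum
  intro x hx
  rw [sum_product]
  apply sum_le_sum
  intro y hy
  apply sum_le_sum
  intro z hz
  have h1 := hP x y z (mem_range.1 hx) (mem_range.1 hy) (mem_range.1 hz)
  obtain ⟨w, hw⟩ := hint _ _ _ _ h1
  simp only [φ]
  rw [hw]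
  have h2 := F.ν_le_m h1
  rw [hw] at h2
  refine (rd_le _ w).trans ?_
  rw [abs_of_nonneg (by linarith)]

/-- a number which is a constant difference over a block is an integer. -/
theorem block_diff (hint : ∀ k j a b, P3 Q k j a b → ∃ z : ℤ, F.ν k j a b = z)
    (hc : ∃ η : ℕ → ℝ, Tendsto η atTop (nhds 0) ∧ ∀ᶠ k : ℕ in atTop,
      F.env.T k - F.T k ≤ η k * 8 ^ k) (θ : ℝ) (J A B : ℕ → ℤ) (e1 e2 e3 : ℤ)
    (hP : ∀ (k x y z : ℕ), x < 2 ^ k → y < 2 ^ k → z < 2 ^ k →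
      P3 Q k (J k + x) (A k + y) (B k + z) ∧
      P3 Q k (J k + e1 + x) (A k + e2 + y) (B k + e3 + z) ∧
      F.m k (J k + e1 + x) (A k + e2 + y) (B k + e3 + z) - F.m k (J k + x) (A k + y) (B k + z) =
        θ) : ∃ z : ℤ, θ = z := by
  obtain ⟨η, hη, hk⟩ := hc
  apply eq_of_rd
  apply le_antisymm _ (rd_nonneg θ)
  have lim : Tendsto (fun k => 2 * η k) atTop (nhds 0) := by
    have := hη.const_mul 2
    rwa [mul_zero] at this
  apply ge_of_tendsto lim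
  filter_upwards [hk] with k hk
  have b1 := F.block hint k (J k) (A k) (B k) fun x y z hx hy hz => (hP k x y z hx hy hz).1
  have b2 := F.block hint k (J k + e1) (A k + e2) (B k + e3)
    fun x y z hx hy hz => (hP k x y z hx hy hz).2.1
  have b3 : ∑ x ∈ range (2 ^ k), ∑ y ∈ range (2 ^ k), ∑ z ∈ range (2 ^ k), rd θ ≤
      ∑ x ∈ range (2 ^ k), ∑ y ∈ range (2 ^ k), ∑ z ∈ range (2 ^ k),
        (rd (F.m k (J k + e1 + (x : ℕ)) (A k + e2 + (y : ℕ)) (B k + e3 + (z : ℕ))) +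
          rd (F.m k (J k + (x : ℕ)) (A k + (y : ℕ)) (B k + (z : ℕ)))) := by
    apply sum_le_sum
    intro x hx
    apply sum_le_sum
    intro y hy
    apply sum_le_sum
    intro z hz
    have := (hP k x y z (mem_range.1 hx) (mem_range.1 hy) (mem_range.1 hz)).2.2
    rw [← this]
    exact rd_sub_le _ _
  simp only [sum_add_distrib] at b3
  have e : ∑ _x ∈ range (2 ^ k), ∑ _y ∈ range (2 ^ k), ∑ _z ∈ range (2 ^ k), rd θ =
      8 ^ k * rd θ := by
    simp only [sum_const, card_range, nsmul_eq_mul]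
    push_cast
    rw [← mul_assoc, ← mul_assoc, ← mul_pow, ← mul_pow]
    norm_num
  rw [e] at b3
  have p8 : (0 : ℝ) < 8 ^ k := by positivity
  have : 8 ^ k * rd θ ≤ 8 ^ k * (2 * η k) := by linarith
  exact le_of_mul_le_mul_left this p8

/-- the constant values on blocks are nearly integers. -/
theorem block_val (hint : ∀ k j a b, P3 Q k j a b → ∃ z : ℤ, F.ν k j a b = z)
    {k : ℕ} {η : ℝ} (hk : F.env.T k - F.T k ≤ η * 8 ^ k) (θ : ℝ) (J A B : ℤ)
    (hP : ∀ (x y z : ℕ), x < 2 ^ k → y < 2 ^ k → z < 2 ^ k →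
      P3 Q k (J + x) (A + y) (B + z) ∧ ∃ w : ℤ, F.m k (J + x) (A + y) (B + z) = θ + w) :
    rd θ ≤ η := by
  have b1 := F.block hint k J A B fun x y z hx hy hz => (hP x y z hx hy hz).1
  have b3 : ∑ x ∈ range (2 ^ k), ∑ y ∈ range (2 ^ k), ∑ z ∈ range (2 ^ k), rd θ =
      ∑ x ∈ range (2 ^ k), ∑ y ∈ range (2 ^ k), ∑ z ∈ range (2 ^ k),
        rd (F.m k (J + (x : ℕ)) (A + (y : ℕ)) (B + (z : ℕ))) := by
    apply sum_congr rfl
    intro x hx
    apply sum_congr rfl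
    intro y hy
    apply sum_congr rfl
    intro z hz
    obtain ⟨w, hw⟩ := (hP x y z (mem_range.1 hx) (mem_range.1 hy) (mem_range.1 hz)).2
    rw [hw, rd_add_int]
  have e : ∑ _x ∈ range (2 ^ k), ∑ _y ∈ range (2 ^ k), ∑ _z ∈ range (2 ^ k), rd θ =
      8 ^ k * rd θ := by
    simp only [sum_const, card_range, nsmul_eq_mul]
    push_cast
    rw [← mul_assoc, ← mul_assoc, ← mul_pow, ← mul_pow]
    norm_num
  rw [← b3, e] at b1
  have p8 : (0 : ℝ) < 8 ^ k := by positivity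
  have : 8 ^ k * rd θ ≤ 8 ^ k * η := by linarith
  exact le_of_mul_le_mul_left this p8

theorem swap_T (k : ℕ) : F.swap.T k = F.T k := by
  unfold T
  refine sum_bij' (fun p _ => (-p.1, p.2.2, p.2.1)) (fun p _ => (-p.1, p.2.2, p.2.1))
    ?_ ?_ ?_ ?_ ?_
  · intro p hp
    rw [mem_Pset] at hp ⊢
    exact P3_swap.2 hp
  · intro p hp
    rw [mem_Pset] at hp ⊢
    exact P3_swap.2 hp
  · intro p _; simp
  · intro p _; simp
  · intro p _; rfl

theorem swap_env_T (k : ℕ) : F.swap.env.T k = F.env.T k := by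
  have : F.swap.env.T k = F.env.swap.T k := by
    unfold T
    apply sum_congr rfl
    intro p _
    exact F.swap_m k p.1 p.2.1 p.2.2
  rw [this, swap_T]

end Fam3

end Pool.Agent.YTD


end

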