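import Pool.Agent.YTDM.P12
import Pool.Agent.YTDM.P20

/- source: Pool.Agent.YTD.Rigid10 -/

section

/-!
Piecewise affine functions with kinks only at an irrational place.
-/

namespace Pool.Agent.YTD

open Finset Filter

/-- a sequence with vanishing second differences is affine. -/
theorem affine_of {f : ℤ → ℝ} {a b : ℤ} (c : ℤ) (hc : a ≤ c) (hc' : c + 1 ≤ b)
    (h : ∀ j, a < j → j < b → f (j - 1) + f (j + 1) = 2 * f j) :
    ∀ j, a ≤ j → j ≤ b → f j = f c + (j - c) * (f (c + 1) - f c) := by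
  have up : ∀ n : ℕ, c + 1 + n ≤ b → f (c + n) = f c + n * (f (c + 1) - f c) ∧
      f (c + 1 + n) = f c + (n + 1) * (f (c + 1) - f c) := by
    intro n
    induction n with
    | zero => intro _; simp
    | succ n ih =>
      intro hn
      push_cast at hn
      obtain ⟨h1, h2⟩ := ih (by omega)
      have h3 := h (c + 1 + n) (by omega) (by omega)
      have e1 : c + 1 + (n : ℤ) - 1 = c + n := by ring
      have e2 : c + 1 + (n : ℤ) + 1 = c + 1 + ((n + 1 : ℕ) : ℤ) := by push_cast; ring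
      have e3 : c + ((n + 1 : ℕ) : ℤ) = c + 1 + n := by push_cast; ring
      rw [e1, e2, h1, h2] at h3
      rw [e3, h2]
      push_cast
      constructor
      · ring
      · have e4 : c + 1 + ((n : ℤ) + 1) = c + 1 + ((n + 1 : ℕ) : ℤ) := by push_cast; ring
        rw [e4]
        linarith
  have dn : ∀ n : ℕ, a ≤ c - n → f (c - n) = f c - n * (f (c + 1) - f c) ∧
      f (c - n + 1) = f c - (n - 1) * (f (c + 1) - f c) := by
    intro n
    induction n with
    | zero => intro _; simp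
    | succ n ih =>
      intro hn
      push_cast at hn
      obtain ⟨h1, h2⟩ := ih (by omega)
      have h3 := h (c - n) (by omega) (by omega)
      have e1 : c - (n : ℤ) - 1 = c - ((n + 1 : ℕ) : ℤ) := by push_cast; ring
      have e3 : c - ((n + 1 : ℕ) : ℤ) + 1 = c - n := by push_cast; ring
      rw [e1, h1, h2] at h3
      rw [e3, h1]
      constructor
      · push_cast at h3 ⊢
        linarith
      · push_cast
        ring
  intro j hj hj'
  rcases le_total c j with hcj | hcj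
  · obtain ⟨n, rfl⟩ : ∃ n : ℕ, j = c + n := ⟨(j - c).toNat, by omega⟩
    rcases Nat.eq_zero_or_pos n with rfl | hn
    · simp
    · obtain ⟨n', rfl⟩ : ∃ n', n = n' + 1 := ⟨n - 1, by omega⟩
      have := (up n' (by push_cast at hj'; omega)).2
      have e3 : c + ((n' + 1 : ℕ) : ℤ) = c + 1 + n' := by push_cast; ring
      rw [e3, this]
      push_cast
      ring
  · obtain ⟨n, rfl⟩ : ∃ n : ℕ, j = c - n := ⟨(c - j).toNat, by omega⟩
    have := (dn n hj).1
    rw [this]
    push_cast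
    ring

/-- `125 x² = 9 y²` has no solutions. -/
theorem no_sol {x y : ℤ} (hx : x ≠ 0) : 9 * y ^ 2 ≠ 125 * x ^ 2 := by
  intro h
  have h5 : ∀ n : ℕ, ∀ x y : ℤ, x.natAbs ≤ n → x ≠ 0 → 9 * y ^ 2 ≠ 5 * x ^ 2 := by
    intro n
    induction n with
    | zero =>
      intro x y hn hx0
      exfalso
      apply hx0
      omega
    | succ n ih =>
      intro x y hn hx0 he
      have hy : (5 : ℤ) ∣ y := by
        have h1 : (5 : ℤ) ∣ 9 * y ^ 2 := ⟨x ^ 2, he⟩
        have h2 : (5 : ℤ) ∣ y ^ 2 := by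
          apply (IsCoprime.dvd_of_dvd_mul_left _ h1)
          exact ⟨2, -1, by norm_num⟩
        exact Int.Prime.dvd_pow' (by norm_num) h2
      obtain ⟨y', rfl⟩ := hy
      have h3 : x ^ 2 = 5 * (9 * y' ^ 2) := by linarith
      have hx5 : (5 : ℤ) ∣ x := Int.Prime.dvd_pow' (by norm_num) (Dvd.intro _ h3.symm)
      obtain ⟨x', rfl⟩ := hx5
      have hx0' : x' ≠ 0 := by
        rintro rfl
        exact hx0 (by ring)
      exact ih x' y' (by omega) hx0' (by linarith)
  exact h5 _ (5 * x) y le_rfl (by omega) (by linarith)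

/-- The pieces of `u`. -/
theorem pieces {Q : ℕ} (hQ : 4 ≤ Q) {u : ℕ → ℤ → ℝ}
    (hom : ∀ (k : ℕ) (j : ℤ), |j| < 5 * Q * 2 ^ k → u (k + 1) (2 * j) = 2 * u k j)
    (Hk : ∀ (k : ℕ) (j : ℤ), |j| + 1 < 5 * Q * 2 ^ k →
      (∀ x : ℝ, |x - j| ≤ 1 → 9 * x ^ 2 ≠ 125 * ((Q : ℝ) * 2 ^ k) ^ 2) →
      u k (j - 1) + u k (j + 1) = 2 * u k j) :
    ∃ γ δ γ' δ' : ℝ, (∀ (k : ℕ) (j : ℤ), 9 * j ^ 2 < 125 * ((Q : ℤ) * 2 ^ k) ^ 2 →
      u k j = γ * j + δ * 2 ^ k) ∧
      (∀ (k : ℕ) (j : ℤ), 0 < j → 125 * ((Q : ℤ) * 2 ^ k) ^ 2 < 9 * j ^ 2 → j < 5 * Q * 2 ^ k →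
      u k j = γ' * j + δ' * 2 ^ k) := by
  have hQk : ∀ k : ℕ, (4 : ℤ) ≤ Q * 2 ^ k := by
    intro k
    have h1 : (4 : ℤ) ≤ Q := by exact_mod_cast hQ
    have h2 : (1 : ℤ) ≤ 2 ^ k := one_le_pow₀ (by norm_num)
    nlinarith
  refine ⟨u 0 1 - u 0 0, u 0 0, u 0 (4 * Q + 1) - u 0 (4 * Q),
    u 0 (4 * Q) - 4 * Q * (u 0 (4 * Q + 1) - u 0 (4 * Q)), ?_, ?_⟩
  · have h1 : ∀ k : ℕ, u k 0 = 2 ^ k * u 0 0 := by
      intro k
      induction k with
      | zero => simp
      | succ k ih =>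
        have := hom k 0 (by rw [abs_zero]; linarith [hQk k])
        rw [mul_zero, ih] at this
        rw [this, pow_succ]
        ring
    -- affine in the middle
    have mid : ∀ (k : ℕ) (j : ℤ), 9 * j ^ 2 < 125 * ((Q : ℤ) * 2 ^ k) ^ 2 →
        u k j = u k 0 + j * (u k 1 - u k 0) := by
      intro k j hj
      set X : ℤ := Q * 2 ^ k with hX
      have hX4 := hQk k
      rw [← hX] at hX4
      have gen : ∀ M : ℤ, 1 ≤ M → 9 * M ^ 2 < 125 * X ^ 2 → ∀ j, -M ≤ j → j ≤ M →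
          u k j = u k 0 + j * (u k 1 - u k 0) := by
        intro M hM hMX j hj1 hj2
        have := affine_of (f := u k) (a := -M) (b := M) 0 (by linarith) (by linarith) (by
          intro i hi1 hi2
          have hMX5 : M < 5 * X := by nlinarith
          have hi : |i| + 1 ≤ M := by
            rcases abs_cases i with ⟨h2, _⟩ | ⟨h2, _⟩ <;> rw [h2] <;> omega
          apply Hk
          · rw [mul_assoc, ← hX]; linarith
          · intro x hx he
            have h3 : |x| ≤ M := by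
              have h4 : |x| ≤ |x - i| + |(i : ℝ)| := by
                have := abs_add_le (x - i) (i : ℝ)
                rwa [sub_add_cancel] at this
              have h5 : |(i : ℝ)| + 1 ≤ M := by exact_mod_cast hi
              linarith
            have h6 : x ^ 2 ≤ (M : ℝ) ^ 2 := sq_le_sq' (by linarith [(abs_le.1 h3).1])
              (abs_le.1 h3).2
            have h7 : 9 * (M : ℝ) ^ 2 < 125 * ((Q : ℝ) * 2 ^ k) ^ 2 := by
              rw [hX] at hMX
              exact_mod_cast hMX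
            linarith) j hj1 hj2
        rw [this]
        push_cast
        ring_nf
      rcases lt_or_ge |j| 1 with h0 | h0
      · have : j = 0 := by
          rw [abs_lt] at h0
          omega
        rw [this]
        simp
      · exact gen |j| h0 (by rw [sq_abs]; exact hj) j (neg_abs_le j) (le_abs_self j)
    have h2 : ∀ k : ℕ, u k 1 - u k 0 = u 0 1 - u 0 0 := by
      intro k
      induction k with
      | zero => rfl
      | succ k ih =>
        have h3 := hom k 1 (by rw [abs_one]; linarith [hQk k])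
        have h4 := hom k 0 (by rw [abs_zero]; linarith [hQk k])
        have h5 := mid (k + 1) 2 (by nlinarith [hQk (k + 1)])
        rw [mul_one] at h3
        rw [mul_zero] at h4
        push_cast at h5
        rw [h3] at h5
        linarith
    intro k j hj
    rw [mid k j hj, h2 k, h1 k]
    ring
  · have h1 : ∀ k : ℕ, u k (4 * Q * 2 ^ k) = 2 ^ k * u 0 (4 * Q) := by
      intro k
      induction k with
      | zero => simp
      | succ k ih =>
        have := hom k (4 * Q * 2 ^ k) (by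
          rw [abs_of_nonneg (by positivity)]
          linarith [hQk k])
        rw [ih] at this
        have e : 2 * (4 * (Q : ℤ) * 2 ^ k) = 4 * Q * 2 ^ (k + 1) := by rw [pow_succ]; ring
        rw [e] at this
        rw [this, pow_succ]
        ring
    -- affine on the right
    have rt : ∀ (k : ℕ) (j : ℤ), 0 < j → 125 * ((Q : ℤ) * 2 ^ k) ^ 2 < 9 * j ^ 2 →
        j < 5 * Q * 2 ^ k → u k j = u k (4 * Q * 2 ^ k) + (j - 4 * Q * 2 ^ k) *
          (u k (4 * Q * 2 ^ k + 1) - u k (4 * Q * 2 ^ k)) := by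
      intro k j hj0 hj hj5
      set X : ℤ := Q * 2 ^ k with hX
      have hX4 := hQk k
      rw [← hX] at hX4
      have e4 : 4 * (Q : ℤ) * 2 ^ k = 4 * X := by rw [hX]; ring
      have e5 : 5 * (Q : ℤ) * 2 ^ k = 5 * X := by rw [hX]; ring
      rw [e5] at hj5
      have := affine_of (f := u k) (a := min j (4 * X)) (b := 5 * X - 1) (4 * X)
        (min_le_right _ _) (by linarith) (by
        intro i hi1 hi2
        have hi3 : 125 * X ^ 2 < 9 * (i - 1) ^ 2 ∧ 0 ≤ i - 1 := by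
          rcases min_cases j (4 * X) with ⟨h2, _⟩ | ⟨h2, _⟩
          · rw [h2] at hi1
            constructor
            · nlinarith
            · linarith
          · rw [h2] at hi1
            constructor
            · nlinarith
            · linarith
        apply Hk
        · rw [e5, abs_of_nonneg (by linarith [hi3.2])]
          linarith
        · intro x hx he
          have h3 : (i : ℝ) - 1 ≤ x := by linarith [(abs_le.1 hx).1]
          have h4 : (0 : ℝ) ≤ (i : ℝ) - 1 := by exact_mod_cast hi3.2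
          have h6 : ((i : ℝ) - 1) ^ 2 ≤ x ^ 2 := by nlinarith
          have h7 : 125 * ((Q : ℝ) * 2 ^ k) ^ 2 < 9 * ((i : ℝ) - 1) ^ 2 := by
            have := hi3.1
            rw [hX] at this
            exact_mod_cast this
          linarith) j (min_le_left _ _) (by linarith)
      rw [e4, this, hX]
      push_cast
      ring_nf
    have h2 : ∀ k : ℕ, u k (4 * Q * 2 ^ k + 1) - u k (4 * Q * 2 ^ k) =
        u 0 (4 * Q + 1) - u 0 (4 * Q) := by
      intro k
      induction k with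
      | zero => simp
      | succ k ih =>
        have hX4 := hQk k
        have h3 := hom k (4 * Q * 2 ^ k + 1) (by
          rw [abs_of_nonneg (by positivity)]
          linarith)
        have h4 := hom k (4 * Q * 2 ^ k) (by
          rw [abs_of_nonneg (by positivity)]
          linarith)
        have e : 2 * (4 * (Q : ℤ) * 2 ^ k) = 4 * Q * 2 ^ (k + 1) := by rw [pow_succ]; ring
        have e' : 2 * (4 * (Q : ℤ) * 2 ^ k + 1) = 4 * Q * 2 ^ (k + 1) + 2 := by rw [pow_succ]; ring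
        have eX : 4 * (Q : ℤ) * 2 ^ (k + 1) = 8 * (Q * 2 ^ k) := by rw [pow_succ]; ring
        have eX2 : (Q : ℤ) * 2 ^ (k + 1) = 2 * (Q * 2 ^ k) := by rw [pow_succ]; ring
        have eX5 : 5 * (Q : ℤ) * 2 ^ (k + 1) = 10 * (Q * 2 ^ k) := by rw [pow_succ]; ring
        have h5 := rt (k + 1) (4 * Q * 2 ^ (k + 1) + 2) (by positivity) (by
          rw [eX, eX2]
          nlinarith) (by rw [eX, eX5]; linarith)
        rw [e] at h4
        rw [e'] at h3
        push_cast at h5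
        rw [h3, h4] at h5
        rw [h4]
        linarith
    intro k j hj0 hj hj5
    rw [rt k j hj0 hj hj5, h2 k, h1 k]
    ring

end Pool.Agent.YTD


end

/- source: Pool.Agent.YTD.Rigid11 -/

section

/-!
Integrality of the linear form, and absence of kinks.
-/

namespace Pool.Agent.YTD

open Finset Filter

theorem no_kink_env {Q : ℕ} (hQ : 4 ≤ Q) {u : ℕ → ℤ → ℝ} {γ δ γ' δ' : ℝ}
    (mid : ∀ (k : ℕ) (j : ℤ), 9 * j ^ 2 < 125 * ((Q : ℤ) * 2 ^ k) ^ 2 →
      u k j = γ * j + δ * 2 ^ k)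
    (rt : ∀ (k : ℕ) (j : ℤ), 0 < j → 125 * ((Q : ℤ) * 2 ^ k) ^ 2 < 9 * j ^ 2 →
      j < 5 * Q * 2 ^ k → u k j = γ' * j + δ' * 2 ^ k)
    (conc : ∀ (k : ℕ) (j : ℤ), |j| + 1 < 5 * Q * 2 ^ k → u k (j - 1) + u k (j + 1) ≤ 2 * u k j)
    (hγ : ∃ z : ℤ, γ = z) (hγ' : ∃ z : ℤ, γ' = z) (hδ : ∃ (k : ℕ) (z : ℤ), δ * 2 ^ k = z)
    (hδ' : ∃ (k : ℕ) (z : ℤ), δ' * 2 ^ k = z) : γ' = γ ∧ δ' = δ := by
  have hQr : (4 : ℝ) ≤ Q := by exact_mod_cast hQ
  set w : ℝ := Real.sqrt 125 / 3 * Q with hw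
  have hw0 : 0 ≤ w := by positivity
  have hw2 : 9 * w ^ 2 = 125 * (Q : ℝ) ^ 2 := by
    rw [hw, mul_pow, div_pow, Real.sq_sqrt (by norm_num)]
    ring
  have hw4 : w ≤ 4 * Q := by
    apply le_of_sq_le_sq _ (by positivity)
    nlinarith [sq_nonneg (Q : ℝ)]
  have hw3 : 3 * (Q : ℝ) ≤ w := by
    apply le_of_sq_le_sq _ hw0
    nlinarith [sq_nonneg (Q : ℝ)]
  have key : ∀ k : ℕ, |(γ' - γ) * w + (δ' - δ)| * 2 ^ k ≤ |γ' - γ| := by
    intro k
    have p : (0 : ℝ) < 2 ^ k := by positivity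
    have p1 : (1 : ℝ) ≤ 2 ^ k := one_le_pow₀ (by norm_num)
    set j := ⌊w * 2 ^ k⌋ with hj
    have f1 : (j : ℝ) ≤ w * 2 ^ k := Int.floor_le _
    have f2 : w * 2 ^ k < j + 1 := Int.lt_floor_add_one _
    have hj1 : 1 ≤ j := by
      have h1 : (1 : ℝ) ≤ w * 2 ^ k :=
        one_le_mul_of_one_le_of_one_le (by linarith only [hw3, hQr]) p1
      have : (1 : ℝ) < j + 1 := by linarith
      have : (1 : ℤ) < j + 1 := by exact_mod_cast this
      omega
    have hX4 : (4 : ℤ) ≤ Q * 2 ^ k := by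
      have h1 : (4 : ℤ) ≤ Q := by exact_mod_cast hQ
      have h2 : (1 : ℤ) ≤ 2 ^ k := one_le_pow₀ (by norm_num)
      exact h1.trans (le_mul_of_one_le_right (by linarith only [h1]) h2)
    have hj4 : j ≤ 4 * (Q * 2 ^ k) := by
      have : (j : ℝ) ≤ 4 * (Q * 2 ^ k) := by
        linarith only [f1, mul_le_mul_of_nonneg_right hw4 p.le]
      exact_mod_cast this
    have hjr : (1 : ℝ) ≤ j := by exact_mod_cast hj1
    have hsq : 9 * (w * 2 ^ k) ^ 2 = 125 * ((Q : ℝ) * 2 ^ k) ^ 2 := by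
      rw [mul_pow w, ← mul_assoc, hw2]; ring
    have g1 : 9 * j ^ 2 < 125 * ((Q : ℤ) * 2 ^ k) ^ 2 := by
      have h1 : 9 * (j : ℝ) ^ 2 ≤ 125 * ((Q : ℝ) * 2 ^ k) ^ 2 := by
        rw [← hsq]
        linarith only [pow_le_pow_left₀ (by linarith only [hjr] : (0 : ℝ) ≤ j) f1 2]
      have h2 : 9 * j ^ 2 ≤ 125 * ((Q : ℤ) * 2 ^ k) ^ 2 := by exact_mod_cast h1
      exact lt_of_le_of_ne h2 (no_sol (by omega))
    have g1' : 9 * (j - 1) ^ 2 < 125 * ((Q : ℤ) * 2 ^ k) ^ 2 := by linarith only [g1, hj1]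
    have g2 : 125 * ((Q : ℤ) * 2 ^ k) ^ 2 < 9 * (j + 1) ^ 2 := by
      have h1 : 125 * ((Q : ℝ) * 2 ^ k) ^ 2 < 9 * ((j : ℝ) + 1) ^ 2 := by
        rw [← hsq]
        have : 0 ≤ w * 2 ^ k := by positivity
        linarith only [pow_lt_pow_left₀ f2 this two_ne_zero]
      exact_mod_cast h1
    have g2' : 125 * ((Q : ℤ) * 2 ^ k) ^ 2 < 9 * (j + 2) ^ 2 := by linarith only [g2, hj1]
    have m0 := mid k j g1
    have m1 := mid k (j - 1) g1'
    have r1 := rt k (j + 1) (by omega) g2 (by rw [mul_assoc]; omega)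
    have r2 := rt k (j + 2) (by omega) g2' (by rw [mul_assoc]; omega)
    have c1 := conc k j (by rw [abs_of_nonneg (by omega), mul_assoc]; omega)
    have c2 := conc k (j + 1) (by rw [abs_of_nonneg (by omega), mul_assoc]; omega)
    rw [m0, m1, r1] at c1
    rw [add_sub_cancel_right, show j + 1 + 1 = j + 2 by ring, m0, r1, r2] at c2
    push_cast at c1 c2
    have d1 : (γ' - γ) * (j + 1) + (δ' - δ) * 2 ^ k ≤ 0 := by linarith
    have d2 : 0 ≤ (γ' - γ) * j + (δ' - δ) * 2 ^ k := by linarith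
    have e : |(γ' - γ) * w + (δ' - δ)| * 2 ^ k =
        |(γ' - γ) * (w * 2 ^ k) + (δ' - δ) * 2 ^ k| := by
      rw [show (γ' - γ) * (w * 2 ^ k) + (δ' - δ) * 2 ^ k =
        ((γ' - γ) * w + (δ' - δ)) * 2 ^ k by ring, abs_mul, abs_of_pos p]
    rw [e]
    have hD : γ' - γ ≤ 0 := by linarith
    rw [abs_of_nonpos hD, abs_le]
    have t1 : 0 ≤ (γ' - γ) * (w * 2 ^ k - (j + 1)) :=
      mul_nonneg_of_nonpos_of_nonpos hD (by linarith only [f2])
    have t2 : (γ' - γ) * (w * 2 ^ k - j) ≤ 0 :=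
      mul_nonpos_of_nonpos_of_nonneg hD (by linarith only [f1])
    constructor
    · linarith only [t1, d2]
    · linarith only [t2, d1]
  have h0 : (γ' - γ) * w + (δ' - δ) = 0 := by
    by_contra hne
    have hpos : 0 < |(γ' - γ) * w + (δ' - δ)| := abs_pos.2 hne
    obtain ⟨n, hn⟩ := pow_unbounded_of_one_lt (|γ' - γ| / |(γ' - γ) * w + (δ' - δ)|)
      (by norm_num : (1 : ℝ) < 2)
    rw [div_lt_iff₀ hpos] at hn
    have := key n
    linarith
  obtain ⟨z, hz⟩ := hγ
  obtain ⟨z', hz'⟩ := hγ'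
  obtain ⟨k1, x1, h1⟩ := hδ
  obtain ⟨k2, x2, h2⟩ := hδ'
  have hd : z' - z = 0 := by
    by_contra hne
    have e1 : (δ' - δ) * 2 ^ (k1 + k2) = ((x2 * 2 ^ k1 - x1 * 2 ^ k2 : ℤ) : ℝ) := by
      push_cast
      rw [← h1, ← h2, pow_add]
      ring
    have e2 : ((z' - z : ℤ) : ℝ) * 2 ^ (k1 + k2) * w =
        -((x2 * 2 ^ k1 - x1 * 2 ^ k2 : ℤ) : ℝ) := by
      rw [← e1]
      push_cast
      rw [← hz, ← hz']
      linear_combination (2 : ℝ) ^ (k1 + k2) * h0
    have e3 : (125 : ℝ) * ((Q : ℝ) * ((z' - z : ℤ) : ℝ) * 2 ^ (k1 + k2)) ^ 2 =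
        9 * ((x2 * 2 ^ k1 - x1 * 2 ^ k2 : ℤ) : ℝ) ^ 2 := by
      have : ((x2 * 2 ^ k1 - x1 * 2 ^ k2 : ℤ) : ℝ) =
          -(((z' - z : ℤ) : ℝ) * 2 ^ (k1 + k2) * w) := by rw [e2]; ring
      rw [this]
      have e4 : 9 * (-(((z' - z : ℤ) : ℝ) * 2 ^ (k1 + k2) * w)) ^ 2 =
          (9 * w ^ 2) * (((z' - z : ℤ) : ℝ) * 2 ^ (k1 + k2)) ^ 2 := by ring
      rw [e4, hw2]
      ring
    have e5 : 9 * (x2 * 2 ^ k1 - x1 * 2 ^ k2) ^ 2 =
        125 * ((Q : ℤ) * (z' - z) * 2 ^ (k1 + k2)) ^ 2 := by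
      exact_mod_cast e3.symm
    refine no_sol ?_ e5
    apply mul_ne_zero (mul_ne_zero _ hne) (by positivity)
    have : (4 : ℤ) ≤ Q := by exact_mod_cast hQ
    omega
  have hγγ : γ' = γ := by
    rw [hz, hz']
    have : z' = z := by omega
    rw [this]
  refine ⟨hγγ, ?_⟩
  rw [hγγ, sub_self, zero_mul, zero_add] at h0
  linarith

namespace Fam3

variable {Q : ℕ} (F : Fam3 Q)

theorem integral_aux (hQ : 4 ≤ Q)
    (hint : ∀ k j a b, P3 Q k j a b → ∃ z : ℤ, F.ν k j a b = z)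
    (hc : ∃ η : ℕ → ℝ, Tendsto η atTop (nhds 0) ∧ ∀ᶠ k : ℕ in atTop,
      F.env.T k - F.T k ≤ η k * 8 ^ k) {α β : ℝ} {u : ℕ → ℤ → ℝ}
    (H : ∀ k j a b, Int3 Q k j a b → F.m k j a b = α * a + β * b + u k j)
    (Hk : ∀ (k : ℕ) (j : ℤ), |j| + 1 < 5 * (Q : ℤ) * 2 ^ k →
      (∀ x : ℝ, |x - j| ≤ 1 → 9 * x ^ 2 ≠ 125 * ((Q : ℝ) * 2 ^ k) ^ 2) →
      u k (j - 1) + u k (j + 1) = 2 * u k j) :
    ∃ (al be ga : ℤ) (δ : ℝ), α = al ∧ β = be ∧ ∀ (k : ℕ) (j : ℤ),
      |j| < 5 * (Q : ℤ) * 2 ^ k →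
      (9 * j ^ 2 < 125 * ((Q : ℤ) * 2 ^ k) ^ 2 ∨ 0 < j) →
      u k j = ga * j + δ * 2 ^ k := by
  have hQk : ∀ k : ℕ, (4 : ℤ) * 2 ^ k ≤ Q * 2 ^ k ∧ (1 : ℤ) ≤ 2 ^ k := by
    intro k
    have h1 : (4 : ℤ) ≤ Q := by exact_mod_cast hQ
    have h2 : (1 : ℤ) ≤ 2 ^ k := one_le_pow₀ (by norm_num)
    exact ⟨by nlinarith, h2⟩
  have hin1 : ∀ (k : ℕ) (j a b : ℤ), |j| < 5 * Q * 2 ^ k → 0 < a → a ≤ 9 * (Q * 2 ^ k) → 0 < b →
      b ≤ 9 * (Q * 2 ^ k) → Int3 Q k j a b := by
    intro k j a b hj ha ha' hb hb'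
    have h1 := abs_lt.1 hj
    have h2 := hQk k
    refine ⟨hj, ha, ?_, hb, ?_⟩
    · linarith [h1.1]
    · linarith [h1.2]
  have hom : ∀ (k : ℕ) (j : ℤ), |j| < 5 * Q * 2 ^ k → u (k + 1) (2 * j) = 2 * u k j := by
    intro k j hj
    have h2 := hQk k
    have i1 := hin1 k j 1 1 hj (by norm_num) (by linarith) (by norm_num) (by linarith)
    have e := F.m_double i1.p3
    have i2 : Int3 Q (k + 1) (2 * j) (2 * 1) (2 * 1) := by
      apply hin1
      · rw [abs_mul, show |(2 : ℤ)| = 2 by rfl, pow_succ]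
        linarith
      · norm_num
      · rw [pow_succ]; linarith
      · norm_num
      · rw [pow_succ]; linarith
    rw [H _ _ _ _ i1, H _ _ _ _ i2] at e
    push_cast at e
    linarith
  have conc : ∀ (k : ℕ) (j : ℤ), |j| + 1 < 5 * Q * 2 ^ k →
      u k (j - 1) + u k (j + 1) ≤ 2 * u k j := by
    intro k j hj
    have h2 := hQk k
    have hj' : -(5 * Q * 2 ^ k) + 1 < j ∧ j < 5 * Q * 2 ^ k - 1 := by
      have := abs_lt.1 (show |j| < 5 * Q * 2 ^ k - 1 by linarith)
      constructor <;> linarith [this.1, this.2]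
    have i0 := hin1 k j 1 1 (by linarith) (by norm_num) (by linarith) (by norm_num) (by linarith)
    have i1 := hin1 k (j - 1) 1 1 (by rw [abs_lt]; constructor <;> linarith [hj'.1, hj'.2])
      (by norm_num) (by linarith) (by norm_num) (by linarith)
    have i2 := hin1 k (j + 1) 1 1 (by rw [abs_lt]; constructor <;> linarith [hj'.1, hj'.2])
      (by norm_num) (by linarith) (by norm_num) (by linarith)
    have e := F.m_concave i1.p3 i2.p3 i0.p3 (by ring) (by ring) (by ring)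
    rw [H _ _ _ _ i0, H _ _ _ _ i1, H _ _ _ _ i2] at e
    push_cast at e
    linarith
  obtain ⟨γ, δ, γ', δ', mid, rt⟩ := pieces hQ hom Hk
  -- the two blocks
  have blk : ∀ (k : ℕ) (J j a b : ℤ), (J = 0 ∨ J = 4 * (Q * 2 ^ k)) → J ≤ j → j ≤ J + 2 ^ k →
      5 * (Q * 2 ^ k) ≤ a → a ≤ 5 * (Q * 2 ^ k) + 2 ^ k → 5 * (Q * 2 ^ k) ≤ b →
      b ≤ 5 * (Q * 2 ^ k) + 2 ^ k → Int3 Q k j a b := by
    intro k J j a b hJ hj hj' ha ha' hb hb'
    have h2 := hQk k
    apply hin1
    · rcases hJ with rfl | rfl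
      · rw [abs_of_nonneg (by linarith)]; linarith
      · rw [abs_of_nonneg (by linarith)]; linarith
    all_goals linarith
  have midv : ∀ (k : ℕ) (j : ℤ), 0 ≤ j → j ≤ 2 ^ k → u k j = γ * j + δ * 2 ^ k := by
    intro k j hj hj'
    have h2 := hQk k
    apply mid
    nlinarith
  have rtv : ∀ (k : ℕ) (j : ℤ), 4 * (Q * 2 ^ k) ≤ j → j ≤ 4 * (Q * 2 ^ k) + 2 ^ k →
      u k j = γ' * j + δ' * 2 ^ k := by
    intro k j hj hj'
    have h2 := hQk k
    apply rt
    · linarith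
    · nlinarith
    · linarith
  have cst : ∀ k x : ℕ, x < 2 ^ k → (x : ℤ) + 1 ≤ 2 ^ k := by
    intro k x hx
    exact_mod_cast hx
  have hα : ∃ z : ℤ, α = z := by
    refine F.block_diff hint hc α (fun _ => 0) (fun k => 5 * (Q * 2 ^ k))
      (fun k => 5 * (Q * 2 ^ k)) 0 1 0 ?_
    intro k x y z hx hy hz
    have hx' := cst k x hx
    have hy' := cst k y hy
    have hz' := cst k z hz
    have px : (0 : ℤ) ≤ x := Int.natCast_nonneg x
    have py : (0 : ℤ) ≤ y := Int.natCast_nonneg y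
    have pz : (0 : ℤ) ≤ z := Int.natCast_nonneg z
    have i1 := blk k 0 (0 + x) (5 * (Q * 2 ^ k) + y) (5 * (Q * 2 ^ k) + z) (Or.inl rfl)
      (by linarith only [px, py, pz, hx', hy', hz']) (by linarith only [px, py, pz, hx', hy', hz']) (by linarith only [px, py, pz, hx', hy', hz']) (by linarith only [px, py, pz, hx', hy', hz'])
      (by linarith only [px, py, pz, hx', hy', hz']) (by linarith only [px, py, pz, hx', hy', hz'])
    have i2 := blk k 0 (0 + 0 + x) (5 * (Q * 2 ^ k) + 1 + y) (5 * (Q * 2 ^ k) + 0 + z)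
      (Or.inl rfl)
      (by linarith only [px, py, pz, hx', hy', hz']) (by linarith only [px, py, pz, hx', hy', hz']) (by linarith only [px, py, pz, hx', hy', hz']) (by linarith only [px, py, pz, hx', hy', hz'])
      (by linarith only [px, py, pz, hx', hy', hz']) (by linarith only [px, py, pz, hx', hy', hz'])
    refine ⟨i1.p3, i2.p3, ?_⟩
    rw [H _ _ _ _ i1, H _ _ _ _ i2]
    push_cast
    ring_nf
  have hβ : ∃ z : ℤ, β = z := by
    refine F.block_diff hint hc β (fun _ => 0) (fun k => 5 * (Q * 2 ^ k))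
      (fun k => 5 * (Q * 2 ^ k)) 0 0 1 ?_
    intro k x y z hx hy hz
    have hx' := cst k x hx
    have hy' := cst k y hy
    have hz' := cst k z hz
    have px : (0 : ℤ) ≤ x := Int.natCast_nonneg x
    have py : (0 : ℤ) ≤ y := Int.natCast_nonneg y
    have pz : (0 : ℤ) ≤ z := Int.natCast_nonneg z
    have i1 := blk k 0 (0 + x) (5 * (Q * 2 ^ k) + y) (5 * (Q * 2 ^ k) + z) (Or.inl rfl)
      (by linarith only [px, py, pz, hx', hy', hz']) (by linarith only [px, py, pz, hx', hy', hz']) (by linarith only [px, py, pz, hx', hy', hz']) (by linarith only [px, py, pz, hx', hy', hz'])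
      (by linarith only [px, py, pz, hx', hy', hz']) (by linarith only [px, py, pz, hx', hy', hz'])
    have i2 := blk k 0 (0 + 0 + x) (5 * (Q * 2 ^ k) + 0 + y) (5 * (Q * 2 ^ k) + 1 + z)
      (Or.inl rfl)
      (by linarith only [px, py, pz, hx', hy', hz']) (by linarith only [px, py, pz, hx', hy', hz']) (by linarith only [px, py, pz, hx', hy', hz']) (by linarith only [px, py, pz, hx', hy', hz'])
      (by linarith only [px, py, pz, hx', hy', hz']) (by linarith only [px, py, pz, hx', hy', hz'])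
    refine ⟨i1.p3, i2.p3, ?_⟩
    rw [H _ _ _ _ i1, H _ _ _ _ i2]
    push_cast
    ring_nf
  have hγ : ∃ z : ℤ, γ = z := by
    refine F.block_diff hint hc γ (fun _ => 0) (fun k => 5 * (Q * 2 ^ k))
      (fun k => 5 * (Q * 2 ^ k)) 1 0 0 ?_
    intro k x y z hx hy hz
    have hx' := cst k x hx
    have hy' := cst k y hy
    have hz' := cst k z hz
    have px : (0 : ℤ) ≤ x := Int.natCast_nonneg x
    have py : (0 : ℤ) ≤ y := Int.natCast_nonneg y
    have pz : (0 : ℤ) ≤ z := Int.natCast_nonneg z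
    have i1 := blk k 0 (0 + x) (5 * (Q * 2 ^ k) + y) (5 * (Q * 2 ^ k) + z) (Or.inl rfl)
      (by linarith only [px, py, pz, hx', hy', hz']) (by linarith only [px, py, pz, hx', hy', hz']) (by linarith only [px, py, pz, hx', hy', hz']) (by linarith only [px, py, pz, hx', hy', hz'])
      (by linarith only [px, py, pz, hx', hy', hz']) (by linarith only [px, py, pz, hx', hy', hz'])
    have i2 := blk k 0 (0 + 1 + x) (5 * (Q * 2 ^ k) + 0 + y) (5 * (Q * 2 ^ k) + 0 + z)
      (Or.inl rfl)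
      (by linarith only [px, py, pz, hx', hy', hz']) (by linarith only [px, py, pz, hx', hy', hz']) (by linarith only [px, py, pz, hx', hy', hz']) (by linarith only [px, py, pz, hx', hy', hz'])
      (by linarith only [px, py, pz, hx', hy', hz']) (by linarith only [px, py, pz, hx', hy', hz'])
    refine ⟨i1.p3, i2.p3, ?_⟩
    rw [H _ _ _ _ i1, H _ _ _ _ i2, midv k (0 + x) (by linarith only [px, py, pz, hx', hy', hz']) (by linarith only [px, py, pz, hx', hy', hz']),
      midv k (0 + 1 + x) (by linarith only [px, py, pz, hx', hy', hz']) (by linarith only [px, py, pz, hx', hy', hz'])]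
    push_cast
    ring_nf
  have hγ' : ∃ z : ℤ, γ' = z := by
    refine F.block_diff hint hc γ' (fun k => 4 * (Q * 2 ^ k)) (fun k => 5 * (Q * 2 ^ k))
      (fun k => 5 * (Q * 2 ^ k)) 1 0 0 ?_
    intro k x y z hx hy hz
    have hx' := cst k x hx
    have hy' := cst k y hy
    have hz' := cst k z hz
    have px : (0 : ℤ) ≤ x := Int.natCast_nonneg x
    have py : (0 : ℤ) ≤ y := Int.natCast_nonneg y
    have pz : (0 : ℤ) ≤ z := Int.natCast_nonneg z
    have i1 := blk k (4 * (Q * 2 ^ k)) (4 * (Q * 2 ^ k) + x) (5 * (Q * 2 ^ k) + y)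
      (5 * (Q * 2 ^ k) + z) (Or.inr rfl)
      (by linarith only [px, py, pz, hx', hy', hz']) (by linarith only [px, py, pz, hx', hy', hz']) (by linarith only [px, py, pz, hx', hy', hz']) (by linarith only [px, py, pz, hx', hy', hz'])
      (by linarith only [px, py, pz, hx', hy', hz']) (by linarith only [px, py, pz, hx', hy', hz'])
    have i2 := blk k (4 * (Q * 2 ^ k)) (4 * (Q * 2 ^ k) + 1 + x) (5 * (Q * 2 ^ k) + 0 + y)
      (5 * (Q * 2 ^ k) + 0 + z) (Or.inr rfl)
      (by linarith only [px, py, pz, hx', hy', hz']) (by linarith only [px, py, pz, hx', hy', hz']) (by linarith only [px, py, pz, hx', hy', hz']) (by linarith only [px, py, pz, hx', hy', hz'])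
      (by linarith only [px, py, pz, hx', hy', hz']) (by linarith only [px, py, pz, hx', hy', hz'])
    refine ⟨i1.p3, i2.p3, ?_⟩
    rw [H _ _ _ _ i1, H _ _ _ _ i2, rtv k (4 * (Q * 2 ^ k) + x) (by linarith only [px, py, pz, hx', hy', hz']) (by linarith only [px, py, pz, hx', hy', hz']),
      rtv k (4 * (Q * 2 ^ k) + 1 + x) (by linarith only [px, py, pz, hx', hy', hz']) (by linarith only [px, py, pz, hx', hy', hz'])]
    push_cast
    ring_nf
  obtain ⟨al, hal⟩ := hα
  obtain ⟨be, hbe⟩ := hβ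
  obtain ⟨g, hg⟩ := hγ
  obtain ⟨g', hg'⟩ := hγ'
  obtain ⟨η, hη, hη'⟩ := hc
  have hδ : ∃ (k : ℕ) (z : ℤ), δ * 2 ^ k = z := by
    refine dyadic hη ?_
    filter_upwards [hη'] with k hk
    refine F.block_val hint hk (δ * 2 ^ k) 0 (5 * (Q * 2 ^ k)) (5 * (Q * 2 ^ k)) ?_
    intro x y z hx hy hz
    have hx' := cst k x hx
    have hy' := cst k y hy
    have hz' := cst k z hz
    have px : (0 : ℤ) ≤ x := Int.natCast_nonneg x
    have py : (0 : ℤ) ≤ y := Int.natCast_nonneg y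
    have pz : (0 : ℤ) ≤ z := Int.natCast_nonneg z
    have i1 := blk k 0 (0 + x) (5 * (Q * 2 ^ k) + y) (5 * (Q * 2 ^ k) + z) (Or.inl rfl)
      (by linarith only [px, py, pz, hx', hy', hz']) (by linarith only [px, py, pz, hx', hy', hz']) (by linarith only [px, py, pz, hx', hy', hz']) (by linarith only [px, py, pz, hx', hy', hz'])
      (by linarith only [px, py, pz, hx', hy', hz']) (by linarith only [px, py, pz, hx', hy', hz'])
    refine ⟨i1.p3, al * (5 * (Q * 2 ^ k) + y) + be * (5 * (Q * 2 ^ k) + z) + g * x, ?_⟩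
    rw [H _ _ _ _ i1, midv k (0 + x) (by linarith only [px, py, pz, hx', hy', hz'])
      (by linarith only [px, py, pz, hx', hy', hz']), hal, hbe, hg]
    push_cast
    ring
  have hδ' : ∃ (k : ℕ) (z : ℤ), δ' * 2 ^ k = z := by
    refine dyadic hη ?_
    filter_upwards [hη'] with k hk
    refine F.block_val hint hk (δ' * 2 ^ k) (4 * (Q * 2 ^ k)) (5 * (Q * 2 ^ k))
      (5 * (Q * 2 ^ k)) ?_
    intro x y z hx hy hz
    have hx' := cst k x hx
    have hy' := cst k y hy
    have hz' := cst k z hz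
    have px : (0 : ℤ) ≤ x := Int.natCast_nonneg x
    have py : (0 : ℤ) ≤ y := Int.natCast_nonneg y
    have pz : (0 : ℤ) ≤ z := Int.natCast_nonneg z
    have i1 := blk k (4 * (Q * 2 ^ k)) (4 * (Q * 2 ^ k) + x) (5 * (Q * 2 ^ k) + y)
      (5 * (Q * 2 ^ k) + z) (Or.inr rfl)
      (by linarith only [px, py, pz, hx', hy', hz']) (by linarith only [px, py, pz, hx', hy', hz']) (by linarith only [px, py, pz, hx', hy', hz']) (by linarith only [px, py, pz, hx', hy', hz'])
      (by linarith only [px, py, pz, hx', hy', hz']) (by linarith only [px, py, pz, hx', hy', hz'])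
    refine ⟨i1.p3, al * (5 * (Q * 2 ^ k) + y) + be * (5 * (Q * 2 ^ k) + z) +
      g' * (4 * (Q * 2 ^ k) + x), ?_⟩
    rw [H _ _ _ _ i1, rtv k (4 * (Q * 2 ^ k) + x) (by linarith only [px, py, pz, hx', hy', hz']) (by linarith only [px, py, pz, hx', hy', hz']), hal, hbe, hg']
    push_cast
    ring
  obtain ⟨e1, e2⟩ := no_kink_env hQ mid rt conc ⟨g, hg⟩ ⟨g', hg'⟩ hδ hδ'
  refine ⟨al, be, g, δ, hal, hbe, ?_⟩
  intro k j hj hj'
  rcases hj' with h | h
  · rw [mid k j h, hg]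
  · have hX := hQk k
    rcases lt_or_ge (9 * j ^ 2) (125 * ((Q : ℤ) * 2 ^ k) ^ 2) with h1 | h1
    · rw [mid k j h1, hg]
    · have h2 : 125 * ((Q : ℤ) * 2 ^ k) ^ 2 < 9 * j ^ 2 :=
        lt_of_le_of_ne h1 (Ne.symm (no_sol (by linarith)))
      rw [rt k j h h2 (lt_of_abs_lt hj), e1, e2, hg]

theorem integral (hQ : 4 ≤ Q)
    (hint : ∀ k j a b, P3 Q k j a b → ∃ z : ℤ, F.ν k j a b = z)
    (hc : ∃ η : ℕ → ℝ, Tendsto η atTop (nhds 0) ∧ ∀ᶠ k : ℕ in atTop,
      F.env.T k - F.T k ≤ η k * 8 ^ k) {α β : ℝ} {u : ℕ → ℤ → ℝ}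
    (H : ∀ k j a b, Int3 Q k j a b → F.m k j a b = α * a + β * b + u k j)
    (Hk : ∀ (k : ℕ) (j : ℤ), |j| + 1 < 5 * (Q : ℤ) * 2 ^ k →
      (∀ x : ℝ, |x - j| ≤ 1 → 9 * x ^ 2 ≠ 125 * ((Q : ℝ) * 2 ^ k) ^ 2) →
      u k (j - 1) + u k (j + 1) = 2 * u k j) :
    ∃ (al be ga : ℤ) (δ : ℝ), ∀ k j a b, Int3 Q k j a b →
      F.m k j a b = al * a + be * b + ga * j + δ * 2 ^ k := by
  obtain ⟨al, be, ga, δ, h1, h2, h3⟩ := F.integral_aux hQ hint hc H Hk
  obtain ⟨al', be', ga', δ', h1', h2', h3'⟩ := F.swap.integral_aux hQ (α := β) (β := α)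
    (u := fun k j => u k (-j))
    (fun k j a b h => hint k (-j) b a (P3_swap.2 h))
    (by
      obtain ⟨η, hη, hη'⟩ := hc
      refine ⟨η, hη, ?_⟩
      filter_upwards [hη'] with k hk
      rwa [swap_env_T, swap_T])
    (by
      intro k j a b h
      rw [swap_m, H _ _ _ _ (Int3_swap.2 h)]
      ring)
    (by
      intro k j hj hx
      have := Hk k (-j) (by rwa [abs_neg]) (by
        intro x hx1 hx2
        refine hx (-x) ?_ (by rwa [neg_sq])
        push_cast at hx1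
        rw [show -x - (j : ℝ) = -(x - -(j : ℝ)) by ring, abs_neg]
        exact hx1)
      rw [show -(j - 1) = -j + 1 by ring, show -(j + 1) = -j - 1 by ring, add_comm]
      exact this)
  have hQ' : (4 : ℤ) ≤ (Q : ℤ) := by exact_mod_cast hQ
  -- compare the two linear forms
  have a0 := h3 0 0 (by rw [abs_zero]; simp only [pow_zero]; linarith)
    (Or.inl (by simp only [pow_zero]; nlinarith))
  have a0' := h3' 0 0 (by rw [abs_zero]; simp only [pow_zero]; linarith)
    (Or.inl (by simp only [pow_zero]; nlinarith))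
  have a1 := h3 0 (-1) (by rw [abs_neg, abs_one]; simp only [pow_zero]; linarith)
    (Or.inl (by simp only [pow_zero]; nlinarith))
  have a1' := h3' 0 1 (by rw [abs_one]; simp only [pow_zero]; linarith)
    (Or.inl (by simp only [pow_zero]; nlinarith))
  simp only [neg_zero] at a0'
  push_cast at a0 a0' a1 a1'
  have eδ : δ' = δ := by linarith
  have eg : (ga' : ℝ) = -ga := by linarith
  refine ⟨al, be, ga, δ, ?_⟩
  intro k j a b h
  rw [H k j a b h, h1, h2]
  rcases lt_trichotomy j 0 with hj | hj | hj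
  · have := h3' k (-j) (by rw [abs_neg]; exact h.1) (Or.inr (by linarith))
    simp only [neg_neg] at this
    rw [this, eδ, eg]
    push_cast
    ring
  · rw [h3 k j h.1 (Or.inl ?_)]
    · ring
    · rw [hj]
      have : (1 : ℤ) ≤ 2 ^ k := one_le_pow₀ (by norm_num)
      have : (4 : ℤ) ≤ (Q : ℤ) * 2 ^ k := by nlinarith
      nlinarith
  · rw [h3 k j h.1 (Or.inr hj)]
    ring

end Fam3

end Pool.Agent.YTD


end

/- source: Pool.Agent.YTD.Rigid12 -/

section

/-!
The envelope of the lengths is an integral linear form.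
-/

namespace Pool.Agent.YTD

open Finset Module Filter

variable {K : Type} [Field K] [Algebra ℂ K]
variable {T : Datum K} {q : ℕ} {D₀ : T.X.Pt →₀ ℤ}

namespace Graded

theorem linear (G : Graded T q D₀) (P₀ : T.X.Pt) (hq : 0 < q)
    (hD : T.X.deg D₀ = 105 * T.t * q) {s₀ : ℝ} (hS : G.Crit s₀ 0) :
    ∃ (al be ga : ℤ) (δ : ℝ), ∀ k j a b, Int3 (4 * q) k j a b →
      (G.fam3 hD hq).m k j a b = al * a + be * b + ga * j + δ * 2 ^ k := by
  have hQ : 4 ≤ 4 * q := by omega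
  obtain ⟨η, hη, hcl⟩ := close1 (G := G) hD P₀ hq hS
  have hloss : ∃ η : ℕ → ℝ, Tendsto η atTop (nhds 0) ∧ ∀ᶠ k : ℕ in atTop,
      SS q (2 ^ (k + 2)) (fun j => (G.fam3 hD hq).env.avg.ψ k j - (G.fam3 hD hq).env.avg.ν k j) ≤
        η k * 2 ^ k := by
    refine ⟨η, hη, ?_⟩
    filter_upwards [hcl] with k hk
    refine le_trans ?_ hk
    apply SS_mono
    intro j hj
    have := nb_le_Mf (G := G) hD hq hj
    exact sub_le_sub_left this _
  obtain ⟨α, β, u, H⟩ := Fam3.shape (by omega) (G.fam3 hD hq)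
    (fun k j a b h1 h2 => (G.fam3 hD hq).affine_a hq hloss h1 h2)
    (fun k j a b h1 h2 => (G.fam3 hD hq).affine_b hq hloss h1 h2)
  refine (G.fam3 hD hq).integral hQ ?_ ?_ H ?_
  · intro k j a b _
    exact ⟨((G.nn (2 ^ (k + 2)) j a.toNat b.toNat : ℕ) : ℤ), by
      show ((G.nn (2 ^ (k + 2)) j a.toNat b.toNat : ℕ) : ℝ) = _
      push_cast
      rfl⟩
  · refine ⟨fun k => 676 * 16 * (q : ℝ) ^ 2 * η k, ?_, ?_⟩
    · have := hη.const_mul (676 * 16 * (q : ℝ) ^ 2)
      rwa [mul_zero] at this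
    · filter_upwards [hcl] with k hk
      rw [Fam3.T_eq, Fam3.T_eq, ← SS_sub]
      have h1 : SS q (2 ^ (k + 2)) (fun j => mult q (2 ^ (k + 2)) j *
          (G.fam3 hD hq).env.avg.ν k j - mult q (2 ^ (k + 2)) j * (G.fam3 hD hq).avg.ν k j) ≤
          SS q (2 ^ (k + 2)) (fun j => (676 * 16 * (q : ℝ) ^ 2 * 4 ^ k) *
            ((G.Mf hD hq).ψ k j - (G.fam hD hq).ν k j)) := by
        apply SS_mono
        intro j hj
        have g1 := nb_le_Mf (G := G) hD hq hj
        have g2 := Mf_le_ψ (G := G) hD hq hj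
        have e1 : (G.fam3 hD hq).env.avg.ν k j = (G.Mf hD hq).ν k j := rfl
        rw [e1, ← fam_ν_eq, ← mul_sub]
        have hm : mult q (2 ^ (k + 2)) j ≤ 676 * 16 * (q : ℝ) ^ 2 * 4 ^ k := by
          rw [mult_eq]
          have hx : (1 : ℝ) ≤ q * ((2 ^ (k + 2) : ℕ) : ℝ) := by
            have : 1 ≤ q * 2 ^ (k + 2) := Nat.mul_pos hq (by positivity)
            exact_mod_cast this
          have e2 : 676 * 16 * (q : ℝ) ^ 2 * 4 ^ k = 676 * (q * ((2 ^ (k + 2) : ℕ) : ℝ)) ^ 2 := by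
            push_cast
            rw [show (4 : ℝ) ^ k = 2 ^ k * 2 ^ k by rw [← mul_pow]; norm_num, pow_add]
            ring
          rw [e2]
          nlinarith [sq_nonneg (j : ℝ)]
        have hm0 : 0 ≤ mult q (2 ^ (k + 2)) j := le_trans (by positivity) (Fam3.mult_ge hj)
        apply mul_le_mul hm (by linarith) (by linarith) (by positivity)
      refine h1.trans ?_
      rw [SS_mul]
      have h2 := mul_le_mul_of_nonneg_left hk
        (show (0 : ℝ) ≤ 676 * 16 * (q : ℝ) ^ 2 * 4 ^ k by positivity)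
      refine h2.trans (le_of_eq ?_)
      rw [show (8 : ℝ) ^ k = 4 ^ k * 2 ^ k by rw [← mul_pow]; norm_num]
      ring
  · intro k j hj hx
    have hk := Fam.kink (by omega) (G.Mf hD hq) (gap_Mf hD P₀ hq hS) hj hx
    have hj' := abs_lt.1 (show |j| < 5 * ((4 * q : ℕ) : ℤ) * 2 ^ k - 1 by linarith)
    have a0 := Fam3.avg_ψ hq (G.fam3 hD hq) H (k := k) (j := j) (by linarith)
    have a1 := Fam3.avg_ψ hq (G.fam3 hD hq) H (k := k) (j := j - 1) (by
      rw [abs_lt]; constructor <;> linarith [hj'.1, hj'.2])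
    have a2 := Fam3.avg_ψ hq (G.fam3 hD hq) H (k := k) (j := j + 1) (by
      rw [abs_lt]; constructor <;> linarith [hj'.1, hj'.2])
    have e1 : (G.fam3 hD hq).env.avg = G.Mf hD hq := rfl
    rw [e1] at a0 a1 a2
    rw [a0, a1, a2] at hk
    push_cast at hk
    linarith

end Graded

end Pool.Agent.YTD


end

/- source: Pool.Agent.YTD.Rigid13 -/

section

/-!
The weighted sum of a linear form.
-/

namespace Pool.Agent.YTD

open Finset Module Filter

theorem sum_cl (n : ℕ) (c s : ℝ) : ∑ i ∈ range n, (c - 9 * ((i : ℝ) - s) ^ 2) =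
    c * n - 9 * (n * s ^ 2 - s * n * (n - 1) + (n - 1) * n * (2 * n - 1) / 6) := by
  induction n with
  | zero => simp
  | succ n ih =>
    rw [sum_range_succ, ih]
    push_cast
    ring

theorem sum_cu (n : ℕ) (c s : ℝ) : ∑ i ∈ range n, (c - 9 * (s + (i : ℝ)) ^ 2) * i =
    (c - 9 * s ^ 2) * (n * (n - 1) / 2) - 18 * s * ((n - 1) * n * (2 * n - 1) / 6) -
      9 * (n * (n - 1) / 2) ^ 2 := by
  induction n with
  | zero => simp
  | succ n ih =>
    rw [sum_range_succ, ih]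
    push_cast
    ring

/-- the symmetric sum of the kernel. -/
theorem sum_max (Q : ℕ) : ∑ i ∈ range (2 * (5 * Q) + 1),
    (625 * (Q : ℝ) ^ 2 - 9 * ((i : ℝ) - 5 * Q) ^ 2) * max 0 (|(i : ℝ) - 5 * Q| - 4 * Q) =
    2 * ∑ u ∈ range (Q + 1), (625 * (Q : ℝ) ^ 2 - 9 * (4 * (Q : ℝ) + u) ^ 2) * u := by
  have e : 2 * (5 * Q) + 1 = (Q + 1) + (8 * Q - 1) + (Q + 1) ∨ Q = 0 := by omega
  rcases e with e | e
  swap
  · subst e; simp
  rcases Nat.eq_zero_or_pos Q with hQ | hQ
  · subst hQ; simp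
  rw [e, sum_range_add, sum_range_add]
  have hQr : (1 : ℝ) ≤ Q := by exact_mod_cast hQ
  have m1 : ∑ x ∈ range (8 * Q - 1),
      (625 * (Q : ℝ) ^ 2 - 9 * (((Q + 1 + x : ℕ) : ℝ) - 5 * Q) ^ 2) *
        max 0 (|((Q + 1 + x : ℕ) : ℝ) - 5 * Q| - 4 * Q) = 0 := by
    apply sum_eq_zero
    intro x hx
    have hx' := mem_range.1 hx
    have h1 : (x : ℝ) + 1 ≤ 8 * Q - 1 := by
      have : x + 1 + 1 ≤ 8 * Q := by omega
      have : (x : ℝ) + 1 + 1 ≤ 8 * Q := by exact_mod_cast this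
      linarith
    have h0 : (0 : ℝ) ≤ x := by positivity
    rw [max_eq_left, mul_zero]
    push_cast
    rw [sub_nonpos, abs_le]
    constructor <;> linarith
  rw [m1, add_zero]
  have a1 : ∑ i ∈ range (Q + 1), (625 * (Q : ℝ) ^ 2 - 9 * ((i : ℝ) - 5 * Q) ^ 2) *
      max 0 (|(i : ℝ) - 5 * Q| - 4 * Q) =
      ∑ u ∈ range (Q + 1), (625 * (Q : ℝ) ^ 2 - 9 * (4 * (Q : ℝ) + u) ^ 2) * u := by
    rw [← sum_range_reflect]
    apply sum_congr rfl
    intro u hu
    have hu' := mem_range.1 hu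
    have h1 : ((Q + 1 - 1 - u : ℕ) : ℝ) = Q - u := by
      rw [show Q + 1 - 1 - u = Q - u by omega, Nat.cast_sub (by omega)]
    have h2 : (u : ℝ) ≤ Q := by exact_mod_cast (by omega : u ≤ Q)
    rw [h1, abs_of_nonpos (by linarith), max_eq_right (by linarith)]
    ring
  have a2 : ∑ x ∈ range (Q + 1),
      (625 * (Q : ℝ) ^ 2 - 9 * (((Q + 1 + (8 * Q - 1) + x : ℕ) : ℝ) - 5 * Q) ^ 2) *
        max 0 (|((Q + 1 + (8 * Q - 1) + x : ℕ) : ℝ) - 5 * Q| - 4 * Q) =
      ∑ u ∈ range (Q + 1), (625 * (Q : ℝ) ^ 2 - 9 * (4 * (Q : ℝ) + u) ^ 2) * u := by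
    apply sum_congr rfl
    intro u _
    have h1 : ((Q + 1 + (8 * Q - 1) + u : ℕ) : ℝ) = 9 * Q + u := by
      rw [show Q + 1 + (8 * Q - 1) + u = 9 * Q + u by omega]
      push_cast
      ring
    have h2 : (0 : ℝ) ≤ u := by positivity
    rw [h1, abs_of_nonneg (by linarith), max_eq_right (by linarith)]
    ring
  rw [a1, a2]
  ring

/-- the weighted sum of the degrees. -/
theorem XX_dg {t q N : ℕ} (hQ : 0 < q * N) : XX q N (fun j => (dg t q N j : ℝ)) =
    t * (534650 * ((q : ℝ) * N) ^ 4 + 1275 * ((q : ℝ) * N) ^ 2) := by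
  obtain ⟨Q, hQdef⟩ : ∃ Q : ℕ, Q = q * N := ⟨_, rfl⟩
  have hQr : (Q : ℝ) = q * N := by rw [hQdef]; push_cast; ring
  rw [← hQdef] at hQ
  have e5 : 5 * q * N = 5 * Q := by rw [hQdef]; ring
  rw [← hQr]
  unfold XX
  rw [e5]
  have term : ∀ i ∈ range (2 * (5 * Q) + 1), Wt q N ((i : ℤ) - (5 * Q : ℕ)) *
      (dg t q N ((i : ℤ) - (5 * Q : ℕ)) : ℝ) =
      (105 * t * Q) * (625 * (Q : ℝ) ^ 2 - 9 * ((i : ℝ) - 5 * Q) ^ 2) -
      (100 * t) * ((625 * (Q : ℝ) ^ 2 - 9 * ((i : ℝ) - 5 * Q) ^ 2) *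
        max 0 (|(i : ℝ) - 5 * Q| - 4 * Q)) -
      ((if i = 0 then 1000 * t * (Q : ℝ) ^ 3 else 0) +
        (if i = 2 * (5 * Q) then 1000 * t * (Q : ℝ) ^ 3 else 0)) := by
    intro i hi
    have hi' := mem_range.1 hi
    rw [dg_real]
    have e1 : (((i : ℤ) - (5 * Q : ℕ) : ℤ) : ℝ) = (i : ℝ) - 5 * Q := by push_cast; ring
    rw [e1, ← hQr]
    by_cases h : |(i : ℤ) - (5 * Q : ℕ)| = 5 * q * N
    · rw [Wt_end h, ← hQr]
      have e2 : (5 * (q : ℤ) * N) = 5 * (Q : ℤ) := by rw [hQdef]; push_cast; ring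
      rw [e2] at h
      push_cast at h
      have hQ1 : (1 : ℤ) ≤ Q := by exact_mod_cast hQ
      rcases abs_cases ((i : ℤ) - 5 * Q) with ⟨h1, _⟩ | ⟨h1, _⟩
      · rw [h1] at h
        have hi2 : i = 2 * (5 * Q) := by omega
        rw [if_neg (by omega), if_pos hi2, hi2]
        push_cast
        rw [show 2 * (5 * (Q : ℝ)) - 5 * Q = 5 * Q by ring, abs_of_nonneg (by positivity),
          max_eq_right (by
            have : (0 : ℝ) ≤ Q := by positivity
            linarith)]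
        ring
      · rw [h1] at h
        have hi2 : i = 0 := by omega
        rw [if_pos hi2, if_neg (by omega), hi2]
        push_cast
        rw [show (0 : ℝ) - 5 * Q = -(5 * Q) by ring, abs_neg, abs_of_nonneg (by positivity),
          max_eq_right (by
            have : (0 : ℝ) ≤ Q := by positivity
            linarith)]
        ring
    · rw [Wt_mid h, e1, ← hQr]
      have e2 : (5 * (q : ℤ) * N) = 5 * (Q : ℤ) := by rw [hQdef]; push_cast; ring
      rw [e2] at h
      rw [if_neg, if_neg]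
      · ring
      · rintro rfl
        apply h
        push_cast
        rw [show 2 * (5 * (Q : ℤ)) - 5 * Q = 5 * Q by ring, abs_of_nonneg (by positivity)]
      · rintro rfl
        apply h
        push_cast
        rw [show (0 : ℤ) - 5 * Q = -(5 * Q) by ring, abs_neg, abs_of_nonneg (by positivity)]
  rw [sum_congr rfl term, sum_sub_distrib, sum_sub_distrib, sum_add_distrib, ← mul_sum, ← mul_sum,
    sum_ite_eq', sum_ite_eq', if_pos (mem_range.2 (by omega)), if_pos (mem_range.2 (by omega)),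
    sum_cl, sum_max, sum_cu]
  push_cast
  ring

theorem XX_odd {q N : ℕ} (t : ℕ) : XX q N (fun j => (dg t q N j : ℝ) * j) = 0 := by
  have h1 : XX q N (fun j => (dg t q N j : ℝ) * j) = -XX q N (fun j => (dg t q N j : ℝ) * j) := by
    conv_lhs => rw [XX_eq_SS, ← SS_neg]
    rw [XX_eq_SS, ← neg_one_mul, ← SS_mul]
    apply SS_congr
    intro j _
    have e1 : Wt q N (-j) = Wt q N j := by
      unfold Wt
      rw [abs_neg]
      push_cast
      rw [neg_sq]
    have e2 : (dg t q N (-j) : ℝ) = dg t q N j := by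
      rw [dg_real, dg_real]
      push_cast
      rw [abs_neg]
    rw [e1, e2]
    push_cast
    ring
  linarith

variable {K : Type} [Field K] [Algebra ℂ K]
variable {T : Datum K} {q : ℕ} {D₀ : T.X.Pt →₀ ℤ}

namespace Graded

theorem kappa_le (G : Graded T q D₀) (P₀ : T.X.Pt) (hq : 0 < q)
    (hD : T.X.deg D₀ = 105 * T.t * q) {s₀ : ℝ} (hS : G.Crit s₀ 0) {al be ga : ℤ} {δ : ℝ}
    (H : ∀ k j a b, Int3 (4 * q) k j a b →
      (G.fam3 hD hq).m k j a b = al * a + be * b + ga * j + δ * 2 ^ k) :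
    (δ / 4 + 25 * q * (al + be) / 2) * (534650 * T.t * (q : ℝ) ^ 4) ≤ s₀ := by
  set κ : ℝ := δ / 4 + 25 * q * (al + be) / 2 with hκ
  set κ' : ℝ := 3 * (al - be) / 2 + ga with hκ'
  set t := T.t with ht
  have H' : ∀ k j a b, Int3 (4 * q) k j a b → (G.fam3 hD hq).m k j a b =
      (al : ℝ) * a + (be : ℝ) * b + (fun (k : ℕ) (j : ℤ) => ga * (j : ℝ) + δ * 2 ^ k) k j := by
    intro k j a b h
    rw [H k j a b h]
    ring
  set A : ℝ := |κ| + 5 * q * |κ'| with hA
  set C : ℝ := 400000 * t * (q : ℝ) ^ 2 * (4 * G.Λ) with hC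
  have key : ∀ k : ℕ, κ * (534650 * t * (q : ℝ) ^ 4) * (1024 * 32 ^ k) ≤
      s₀ * (1024 * 32 ^ k) + (C + 64 * (1275 * t * (q : ℝ) ^ 2 * |κ|)) * 16 ^ k +
        256 * (2000 * t * (q : ℝ) ^ 3 * A) * 16 ^ k := by
    intro k
    obtain ⟨N, hN⟩ : ∃ N : ℕ, N = 2 ^ (k + 2) := ⟨_, rfl⟩
    have hNr : (N : ℝ) = 4 * 2 ^ k := by rw [hN]; push_cast; rw [pow_add]; ring
    have hN1 : (1 : ℝ) ≤ N := by
      rw [hNr]
      have : (1 : ℝ) ≤ 2 ^ k := one_le_pow₀ (by norm_num)
      linarith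
    have h1 := XF_env_le hD P₀ hq hS k
    rw [← hC] at h1
    -- lower bound for the envelope
    have h2 : XX q N (fun j => (dg t q N j : ℝ) * (κ * N + κ' * j)) -
        XX q N (fun j => if |j| = 5 * q * N then (dg t q N j : ℝ) * (A * N) else 0) ≤
        XF (G.Mf hD hq).env t k := by
      unfold XF
      rw [← hN, XX_eq_SS, XX_eq_SS, XX_eq_SS, ← SS_sub]
      apply SS_mono
      intro j hj
      have hw := Wt_nonneg hj
      rw [← mul_sub]
      apply mul_le_mul_of_nonneg_left _ hw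
      have hd : (0 : ℝ) ≤ dg t q N j := le_trans (by positivity) (dgr_ge (t := t) hj)
      have hj' : |j| ≤ 5 * ((4 * q : ℕ) : ℤ) * 2 ^ k := by
        rw [hN] at hj
        exact rng4.1 hj
      have hψ0 : 0 ≤ (G.Mf hD hq).ψ k j := (G.Mf hD hq).ψ_nonneg hj'
      have e0 : (G.Mf hD hq).env.ν k j = (G.Mf hD hq).ψ k j := rfl
      rw [e0]
      split_ifs with hend
      · have hjr : |(j : ℝ)| ≤ 5 * q * N := by exact_mod_cast hj
        have g1 : κ * N + κ' * j ≤ A * N := by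
          have g2 : κ * N ≤ |κ| * N := mul_le_mul_of_nonneg_right (le_abs_self κ) (by positivity)
          have g3 : κ' * j ≤ |κ'| * (5 * q * N) := by
            calc κ' * j ≤ |κ' * j| := le_abs_self _
              _ = |κ'| * |(j : ℝ)| := abs_mul _ _
              _ ≤ |κ'| * (5 * q * N) := mul_le_mul_of_nonneg_left hjr (abs_nonneg _)
          rw [hA]
          nlinarith
        have g4 := mul_le_mul_of_nonneg_left g1 hd
        have g5 : 0 ≤ (dg t q N j : ℝ) * (G.Mf hD hq).ψ k j := mul_nonneg hd hψ0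
        linarith
      · have hlt : |j| < 5 * ((4 * q : ℕ) : ℤ) * 2 ^ k := by
          apply lt_of_le_of_ne hj'
          intro he
          apply hend
          rw [he, hN]
          push_cast
          rw [pow_add]
          ring
        have e1 : (G.fam3 hD hq).env.avg = G.Mf hD hq := rfl
        have := Fam3.avg_ψ hq (G.fam3 hD hq) H' hlt
        rw [e1] at this
        rw [this, sub_zero]
        apply mul_le_mul_of_nonneg_left _ hd
        apply le_of_eq
        rw [hκ, hκ', hNr]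
        ring
    have e3 : XX q N (fun j => (dg t q N j : ℝ) * (κ * N + κ' * j)) =
        κ * N * (t * (534650 * ((q : ℝ) * N) ^ 4 + 1275 * ((q : ℝ) * N) ^ 2)) := by
      have hQ : 0 < q * N := Nat.mul_pos hq (by rw [hN]; positivity)
      rw [← XX_dg hQ]
      have : XX q N (fun j => (dg t q N j : ℝ) * (κ * N + κ' * j)) =
          (κ * N) * XX q N (fun j => (dg t q N j : ℝ)) +
            κ' * XX q N (fun j => (dg t q N j : ℝ) * j) := by
        rw [XX_eq_SS, XX_eq_SS, XX_eq_SS, ← SS_mul, ← SS_mul, ← SS_add]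
        apply SS_congr
        intro j _
        ring
      rw [this, XX_odd]
      ring
    have e4 : XX q N (fun j => if |j| = 5 * q * N then (dg t q N j : ℝ) * (A * N) else 0) ≤
        2000 * t * (q : ℝ) ^ 3 * A * N ^ 4 := by
      have hA0 : 0 ≤ A := by positivity
      have g1 : ∀ j : ℤ, |j| ≤ 5 * q * N → Wt q N j *
          (if |j| = 5 * q * N then (dg t q N j : ℝ) * (A * N) else 0) ≤
          (if j = ((5 * q * N : ℕ) : ℤ) then 1000 * t * (q : ℝ) ^ 3 * A * N ^ 4 else 0) +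
          (if j = -((5 * q * N : ℕ) : ℤ) then 1000 * t * (q : ℝ) ^ 3 * A * N ^ 4 else 0) := by
        intro j _
        have p : (0 : ℝ) ≤ 1000 * t * (q : ℝ) ^ 3 * A * N ^ 4 := by positivity
        by_cases hend : |j| = 5 * q * N
        · rw [if_pos hend, Wt_end hend, dg_real]
          have hjr : |(j : ℝ)| = 5 * q * N := by exact_mod_cast hend
          rw [hjr, max_eq_right (by
            have : (0 : ℝ) ≤ q * N := by positivity
            linarith)]
          have e5 : 200 * ((q : ℝ) * N) ^ 2 * ((105 * t * (q * N) - 100 * t *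
              (5 * q * N - 4 * (q * N))) * (A * N)) = 1000 * t * (q : ℝ) ^ 3 * A * N ^ 4 := by
            ring
          rw [e5]
          rcases abs_cases j with ⟨h3, _⟩ | ⟨h3, _⟩
          · rw [h3] at hend
            rw [if_pos (by push_cast; exact hend)]
            split_ifs <;> linarith
          · rw [h3] at hend
            rw [add_comm, if_pos (by push_cast; omega)]
            split_ifs <;> linarith
        · rw [if_neg hend, mul_zero]
          split_ifs <;> linarith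
      rw [XX_eq_SS]
      refine (SS_mono g1).trans ?_
      rw [SS_eq_Icc, sum_add_distrib, sum_ite_eq', sum_ite_eq']
      have p : (0 : ℝ) ≤ 1000 * t * (q : ℝ) ^ 3 * A * N ^ 4 := by positivity
      split_ifs <;> linarith
    rw [e3] at h2
    have p2 : (0 : ℝ) < 2 ^ k := by positivity
    have e32 : (32 : ℝ) ^ k = (2 ^ k) ^ 5 := by rw [← pow_mul, mul_comm, pow_mul]; norm_num
    have e16 : (16 : ℝ) ^ k = (2 ^ k) ^ 4 := by rw [← pow_mul, mul_comm, pow_mul]; norm_num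
    have e8 : (8 : ℝ) ^ k = (2 ^ k) ^ 3 := by rw [← pow_mul, mul_comm, pow_mul]; norm_num
    set x : ℝ := 2 ^ k with hx
    have hx1 : (1 : ℝ) ≤ x := one_le_pow₀ (by norm_num)
    rw [e32, e8] at h1
    rw [e32, e16]
    rw [hNr] at h2 e4
    have hx3 : x ^ 3 ≤ x ^ 4 := pow_le_pow_right₀ hx1 (by norm_num)
    have c1 : C * x ^ 3 ≤ C * x ^ 4 := mul_le_mul_of_nonneg_left hx3 (by positivity)
    have c2 : -(κ * (4 * x) * (t * (1275 * ((q : ℝ) * (4 * x)) ^ 2))) ≤
        64 * (1275 * t * (q : ℝ) ^ 2 * |κ|) * x ^ 4 := by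
      have d1 : -κ ≤ |κ| := neg_le_abs κ
      have d2 : -(κ * (4 * x) * (t * (1275 * ((q : ℝ) * (4 * x)) ^ 2))) =
          (-κ) * (64 * 1275 * t * (q : ℝ) ^ 2 * x ^ 3) := by ring
      rw [d2]
      calc (-κ) * (64 * 1275 * t * (q : ℝ) ^ 2 * x ^ 3) ≤
          |κ| * (64 * 1275 * t * (q : ℝ) ^ 2 * x ^ 3) :=
            mul_le_mul_of_nonneg_right d1 (by positivity)
        _ ≤ |κ| * (64 * 1275 * t * (q : ℝ) ^ 2 * x ^ 4) := by
            apply mul_le_mul_of_nonneg_left _ (abs_nonneg _)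
            exact mul_le_mul_of_nonneg_left hx3 (by positivity)
        _ = _ := by ring
    have c3 : κ * (4 * x) * (t * (534650 * ((q : ℝ) * (4 * x)) ^ 4 +
        1275 * ((q : ℝ) * (4 * x)) ^ 2)) = κ * (534650 * t * (q : ℝ) ^ 4) * (1024 * x ^ 5) +
        κ * (4 * x) * (t * (1275 * ((q : ℝ) * (4 * x)) ^ 2)) := by ring
    have c4 : 2000 * t * (q : ℝ) ^ 3 * A * (4 * x) ^ 4 =
        256 * (2000 * t * (q : ℝ) ^ 3 * A) * x ^ 4 := by ring
    rw [c3] at h2
    rw [c4] at e4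
    nlinarith
  -- limit
  set B : ℝ := ((C + 64 * (1275 * t * (q : ℝ) ^ 2 * |κ|)) +
    256 * (2000 * t * (q : ℝ) ^ 3 * A)) / 1024 with hB
  have lim : Tendsto (fun k : ℕ => s₀ + B * (1 / 2 : ℝ) ^ k) atTop (nhds s₀) := by
    have := (half_tendsto B).const_add s₀
    simpa using this
  apply ge_of_tendsto' lim
  intro k
  have h := key k
  have p : (0 : ℝ) < 1024 * 32 ^ k := by positivity
  have e16 : (16 : ℝ) ^ k = (1 / 2) ^ k * 32 ^ k := by rw [← mul_pow]; norm_num
  rw [e16] at h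
  have h' : (κ * (534650 * t * (q : ℝ) ^ 4)) * (1024 * 32 ^ k) ≤
      (s₀ + B * (1 / 2) ^ k) * (1024 * 32 ^ k) := by
    rw [hB]
    refine h.trans (le_of_eq ?_)
    ring
  exact le_of_mul_le_mul_right h' p

end Graded

end Pool.Agent.YTD


end

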