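import Pool.Agent.YTDM.P13
import Pool.Agent.YTDM.P14

/- source: Pool.Agent.YTD.RigidCompare -/

section

/-!
Comparison of the layers of two rigid filtrations.
-/

namespace Pool.Agent.YTD

open Module Finset MvPolynomial

variable {K : Type} [Field K] [Algebra ℂ K]
variable {T : Datum K} {q : ℕ} {D₀ : T.X.Pt →₀ ℤ} {r : ℕ}

/-! ### elementary sums -/

theorem sum_one_range (A : ℕ) : ∑ a ∈ range (A + 1), (a : ℝ) = A * (A + 1) / 2 := by
  induction A with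
  | zero => simp
  | succ n ih =>
    rw [sum_range_succ, ih]
    push_cast
    ring

theorem sum_sq_range (A : ℕ) :
    ∑ a ∈ range (A + 1), (a : ℝ) ^ 2 = A * (A + 1) * (2 * A + 1) / 6 := by
  induction A with
  | zero => simp
  | succ n ih =>
    rw [sum_range_succ, ih]
    push_cast
    ring

theorem sum_lin (A B : ℕ) (p u s : ℝ) :
    ∑ a ∈ range (A + 1), ∑ b ∈ range (B + 1), (p * a + u * b + s) =
      (A + 1) * (B + 1) * (p * A / 2 + u * B / 2 + s) := by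
  have h : ∀ a : ℕ, ∑ b ∈ range (B + 1), (p * a + u * b + s) =
      (B + 1) * p * a + (B + 1) * (u * B / 2 + s) := by
    intro a
    rw [sum_add_distrib, sum_add_distrib, ← mul_sum (range (B + 1)) (fun b : ℕ => (b : ℝ)) u,
      sum_one_range]
    simp
    ring
  rw [sum_congr rfl (fun a _ => h a), sum_add_distrib,
    ← mul_sum (range (A + 1)) (fun a : ℕ => (a : ℝ)), sum_one_range]
  simp
  ring

theorem sum_bilin (A B : ℕ) (p u s p' u' s' : ℝ) :
    ∑ a ∈ range (A + 1), ∑ b ∈ range (B + 1), (p * a + u * b + s) * (p' * a + u' * b + s') =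
      (A + 1) * (B + 1) * (p * p' * (A * (A + 2)) / 12 + u * u' * (B * (B + 2)) / 12 +
        (p * A / 2 + u * B / 2 + s) * (p' * A / 2 + u' * B / 2 + s')) := by
  have h : ∀ a : ℕ, ∑ b ∈ range (B + 1), (p * a + u * b + s) * (p' * a + u' * b + s') =
      (B + 1) * p * p' * (a : ℝ) ^ 2 +
        ((B + 1) * (p * (u' * B / 2 + s') + p' * (u * B / 2 + s))) * a +
        (u * u' * (B * (B + 1) * (2 * B + 1) / 6) + (u * s' + u' * s) * (B * (B + 1) / 2) +
          (B + 1) * s * s') := by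
    intro a
    have h1 : ∀ b ∈ range (B + 1), (p * a + u * b + s) * (p' * a + u' * b + s') =
        (p * p' * (a : ℝ) ^ 2 + (p * s' + p' * s) * a + s * s') +
        ((p * u' + p' * u) * a + (u * s' + u' * s)) * b + u * u' * (b : ℝ) ^ 2 := by
      intro b _
      ring
    rw [sum_congr rfl h1, sum_add_distrib, sum_add_distrib, ← mul_sum, ← mul_sum, sum_one_range,
      sum_sq_range]
    simp
    ring
  rw [sum_congr rfl (fun a _ => h a), sum_add_distrib, sum_add_distrib, ← mul_sum, ← mul_sum,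
    sum_one_range, sum_sq_range]
  simp
  ring

theorem sum_Ioc_one {c L : ℤ} (h : -c ≤ L) : ∑ _l ∈ Ioc (-c) L, (1 : ℝ) = L + c := by
  rw [sum_const, Int.card_Ioc, nsmul_eq_mul, mul_one]
  have h1 : ((L - -c).toNat : ℤ) = L + c := by
    rw [Int.toNat_of_nonneg (by linarith)]
    ring
  exact_mod_cast h1

theorem sum_Ioc_odd {c L : ℤ} (h : -c ≤ L) :
    ∑ l ∈ Ioc (-c) L, (2 * ((l : ℝ) + c) - 1) = ((L : ℝ) + c) ^ 2 := by
  obtain ⟨n, hn⟩ : ∃ n : ℕ, L = -c + n := ⟨(L + c).toNat, by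
    rw [Int.toNat_of_nonneg (by linarith)]
    ring⟩
  subst hn
  clear h
  induction n with
  | zero => simp
  | succ n ih =>
    have h1 : Ioc (-c) (-c + ((n + 1 : ℕ) : ℤ)) = insert (-c + ((n : ℤ) + 1)) (Ioc (-c) (-c + (n : ℤ))) := by
      ext x
      rw [mem_insert, mem_Ioc, mem_Ioc]
      push_cast
      omega
    rw [h1, sum_insert, ih]
    · push_cast
      ring
    · rw [mem_Ioc]
      omega

theorem int_eq_zero_of_bdd {y : ℤ} {C : ℝ} (h : ∀ N : ℕ, 4 ≤ N → |(y : ℝ)| * N ≤ C) : y = 0 := by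
  by_contra h0
  have h1 : (1 : ℝ) ≤ |(y : ℝ)| := by
    have : 1 ≤ |y| := Int.one_le_abs h0
    exact_mod_cast this
  obtain ⟨n, hn⟩ := exists_nat_gt C
  have h2 := h (n + 4) (by omega)
  push_cast at h2
  have h3 : (0 : ℝ) ≤ n := by positivity
  nlinarith

namespace Filt

/-- transfer of layer moments between two rigid filtrations with the same layer sums. -/
theorem Rigid.layer_compare {χ χ' : Filt T q D₀ r} {m m' : MonomialOrder (Fin 4)}
    {al be ga de al' be' ga' de' : ℤ} (hR : χ.Rigid m al be ga de)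
    (hR' : χ'.Rigid m' al' be' ga' de')
    (hlay : ∀ N : ℕ, 4 ≤ N → ∀ l : ℤ, ∀ j ∈ JJ (r * q) N,
      ∑ a ∈ range (AA (r * q) N j + 1), ∑ b ∈ range (BB (r * q) N j + 1), χ.idim m N l j a b =
      ∑ a ∈ range (AA (r * q) N j + 1), ∑ b ∈ range (BB (r * q) N j + 1), χ'.idim m' N l j a b) :
    ∃ C : ℝ, 0 ≤ C ∧ ∀ N : ℕ, 4 ≤ N → ∀ Λ : ℕ, χ.lam ≤ Λ → χ'.lam ≤ Λ →
    ∀ (φ : ℤ → ℝ) (Ω : ℝ), 0 ≤ Ω →
    (∀ j a b l, InR (r * q) N j a b → -((Λ * N : ℕ) : ℤ) < l →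
      (l ≤ lw al be ga de N j a b ∨ l ≤ lw al' be' ga' de' N j a b) → |φ l| ≤ Ω) →
    ∀ j ∈ JJ (r * q) N, |χ.vdim N j * (∑ a ∈ range (AA (r * q) N j + 1),
      ∑ b ∈ range (BB (r * q) N j + 1),
      (∑ l ∈ Ioc (-((Λ * N : ℕ) : ℤ)) (lw al be ga de N j a b), φ l -
        ∑ l ∈ Ioc (-((Λ * N : ℕ) : ℤ)) (lw al' be' ga' de' N j a b), φ l))| ≤
      Ω * C * (N : ℝ) ^ 3 := by
  obtain ⟨C, hC0, hC⟩ := hR.moment
  obtain ⟨C', hC0', hC'⟩ := hR'.moment
  refine ⟨C + C', by positivity, ?_⟩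
  intro N hN Λ hΛ hΛ' φ Ω hΩ hφ j hj
  have h1 := hC N hN Λ hΛ (fun _ _ _ l => φ l) Ω hΩ
    (fun j a b l h h1 h2 => hφ j a b l h h1 (Or.inl h2))
  have h2 := hC' N hN Λ hΛ' (fun _ _ _ l => φ l) Ω hΩ
    (fun j a b l h h1 h2 => hφ j a b l h h1 (Or.inr h2))
  have h1j := (single_le_sum (f := fun j => |∑ a ∈ range (AA (r * q) N j + 1),
      ∑ b ∈ range (BB (r * q) N j + 1),
      (χ.vdim N j * ∑ l ∈ Ioc (-((Λ * N : ℕ) : ℤ)) (lw al be ga de N j a b), φ l -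
        ∑ l ∈ Ioc (-((Λ * N : ℕ) : ℤ)) ((Λ * N : ℕ) : ℤ), φ l * χ.idim m N l j a b)|)
      (fun i _ => abs_nonneg _) hj).trans h1
  have h2j := (single_le_sum (f := fun j => |∑ a ∈ range (AA (r * q) N j + 1),
      ∑ b ∈ range (BB (r * q) N j + 1),
      (χ'.vdim N j * ∑ l ∈ Ioc (-((Λ * N : ℕ) : ℤ)) (lw al' be' ga' de' N j a b), φ l -
        ∑ l ∈ Ioc (-((Λ * N : ℕ) : ℤ)) ((Λ * N : ℕ) : ℤ), φ l * χ'.idim m' N l j a b)|)
      (fun i _ => abs_nonneg _) hj).trans h2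
  have e1 : ∀ (d : ℤ → ℕ → ℕ → ℝ),
      ∑ a ∈ range (AA (r * q) N j + 1), ∑ b ∈ range (BB (r * q) N j + 1),
      ∑ l ∈ Ioc (-((Λ * N : ℕ) : ℤ)) ((Λ * N : ℕ) : ℤ), φ l * d l a b =
      ∑ l ∈ Ioc (-((Λ * N : ℕ) : ℤ)) ((Λ * N : ℕ) : ℤ), φ l *
        ∑ a ∈ range (AA (r * q) N j + 1), ∑ b ∈ range (BB (r * q) N j + 1), d l a b := by
    intro d
    simp only [mul_sum]
    rw [sum_congr rfl (fun a _ => sum_comm), sum_comm]
  have e2 : ∑ a ∈ range (AA (r * q) N j + 1), ∑ b ∈ range (BB (r * q) N j + 1),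
      ∑ l ∈ Ioc (-((Λ * N : ℕ) : ℤ)) ((Λ * N : ℕ) : ℤ), φ l * χ.idim m N l j a b =
      ∑ a ∈ range (AA (r * q) N j + 1), ∑ b ∈ range (BB (r * q) N j + 1),
      ∑ l ∈ Ioc (-((Λ * N : ℕ) : ℤ)) ((Λ * N : ℕ) : ℤ), φ l * χ'.idim m' N l j a b := by
    rw [e1 (fun l a b => χ.idim m N l j a b), e1 (fun l a b => χ'.idim m' N l j a b)]
    apply sum_congr rfl
    intro l _
    rw [hlay N hN l j hj]
  have e3 : χ.vdim N j * (∑ a ∈ range (AA (r * q) N j + 1),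
      ∑ b ∈ range (BB (r * q) N j + 1),
      (∑ l ∈ Ioc (-((Λ * N : ℕ) : ℤ)) (lw al be ga de N j a b), φ l -
        ∑ l ∈ Ioc (-((Λ * N : ℕ) : ℤ)) (lw al' be' ga' de' N j a b), φ l)) =
      ∑ a ∈ range (AA (r * q) N j + 1), ∑ b ∈ range (BB (r * q) N j + 1),
      (χ.vdim N j * ∑ l ∈ Ioc (-((Λ * N : ℕ) : ℤ)) (lw al be ga de N j a b), φ l -
        ∑ l ∈ Ioc (-((Λ * N : ℕ) : ℤ)) ((Λ * N : ℕ) : ℤ), φ l * χ.idim m N l j a b) -
      ∑ a ∈ range (AA (r * q) N j + 1), ∑ b ∈ range (BB (r * q) N j + 1),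
      (χ'.vdim N j * ∑ l ∈ Ioc (-((Λ * N : ℕ) : ℤ)) (lw al' be' ga' de' N j a b), φ l -
        ∑ l ∈ Ioc (-((Λ * N : ℕ) : ℤ)) ((Λ * N : ℕ) : ℤ), φ l * χ'.idim m' N l j a b) := by
    simp only [sum_sub_distrib, mul_sub]
    rw [e2]
    have e4 : χ'.vdim N j = χ.vdim N j := rfl
    rw [e4]
    simp only [mul_sum]
    ring
  rw [e3]
  calc _ ≤ _ := abs_sub _ _
    _ ≤ Ω * C * (N : ℝ) ^ 3 + Ω * C' * (N : ℝ) ^ 3 := add_le_add h1j h2j
    _ = _ := by ring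

end Filt

end Pool.Agent.YTD


end

/- source: Pool.Agent.YTD.RigidB1 -/

section

/-!
Two rigid filtrations with the same layer dimensions: the mean and the second moments agree.
-/

namespace Pool.Agent.YTD

open Module Finset MvPolynomial

variable {K : Type} [Field K] [Algebra ℂ K]
variable {T : Datum K} {q : ℕ} {D₀ : T.X.Pt →₀ ℤ} {r : ℕ}

theorem lw_real (al be ga de : ℤ) (N : ℕ) (j : ℤ) (a b : ℕ) (c : ℝ) :
    (lw al be ga de N j a b : ℝ) + c = al * a + be * b + (ga * j + de * N + c) := by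
  unfold lw
  push_cast
  ring

/-- crude bound for the linear form. -/
theorem abs_lw_le (al be ga de : ℤ) {Q N : ℕ} {j : ℤ} {a b : ℕ} (h : InR Q N j a b) :
    |(lw al be ga de N j a b : ℝ)| ≤
      (40 * Q * (|(al : ℝ)| + |(be : ℝ)| + |(ga : ℝ)|) + |(de : ℝ)|) * N := by
  obtain ⟨h1, h2, h3⟩ := h
  rw [abs_le] at h1
  have hQN : (0 : ℝ) ≤ Q * N := by positivity
  have ha : (a : ℝ) ≤ 40 * Q * N := by
    have h4 : (a : ℤ) ≤ 40 * Q * N := by linarith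
    exact_mod_cast h4
  have hb : (b : ℝ) ≤ 40 * Q * N := by
    have h4 : (b : ℤ) ≤ 40 * Q * N := by linarith
    exact_mod_cast h4
  have hj : |(j : ℝ)| ≤ 40 * Q * N := by
    have h5 : |(j : ℤ)| ≤ 5 * Q * N := abs_le.2 h1
    have h4 : |(j : ℝ)| ≤ 5 * Q * N := by exact_mod_cast h5
    linarith
  have e : (lw al be ga de N j a b : ℝ) = al * a + be * b + ga * j + de * N := by
    unfold lw
    push_cast
    ring
  rw [e]
  have g1 : |(al : ℝ) * a| ≤ |(al : ℝ)| * (40 * Q * N) := by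
    rw [abs_mul, Nat.abs_cast]
    exact mul_le_mul_of_nonneg_left ha (abs_nonneg _)
  have g2 : |(be : ℝ) * b| ≤ |(be : ℝ)| * (40 * Q * N) := by
    rw [abs_mul, Nat.abs_cast]
    exact mul_le_mul_of_nonneg_left hb (abs_nonneg _)
  have g3 : |(ga : ℝ) * j| ≤ |(ga : ℝ)| * (40 * Q * N) := by
    rw [abs_mul]
    exact mul_le_mul_of_nonneg_left hj (abs_nonneg _)
  have g4 : |(de : ℝ) * N| = |(de : ℝ)| * N := by
    rw [abs_mul, Nat.abs_cast]
  calc |(al : ℝ) * a + be * b + ga * j + de * N|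
      ≤ |(al : ℝ) * a| + |(be : ℝ) * b| + |(ga : ℝ) * j| + |(de : ℝ) * N| := by
        refine (abs_add_le _ _).trans (add_le_add_left ((abs_add_le _ _).trans
          (add_le_add_left (abs_add_le _ _) _)) _)
    _ ≤ |(al : ℝ)| * (40 * Q * N) + |(be : ℝ)| * (40 * Q * N) + |(ga : ℝ)| * (40 * Q * N) +
        |(de : ℝ)| * N := by linarith
    _ = _ := by ring

namespace Filt

/-- size of a layer. -/
noncomputable def msz (χ : Filt T q D₀ r) (N : ℕ) (j : ℤ) : ℝ :=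
  χ.vdim N j * ((AA (r * q) N j + 1) * (BB (r * q) N j + 1))

theorem le_msz (χ : Filt T q D₀ r) (hD : T.X.deg D₀ = 105 * T.t * q) (hq : 0 < q) (hr : 0 < r)
    {N : ℕ} (hN : 4 ≤ N) {j : ℤ} (hj : j ∈ JJ (r * q) N) :
    100 * (N : ℝ) ^ 3 ≤ χ.msz N j := by
  unfold msz
  have h1 := χ.le_vdim hD hq hr hN hj
  have h4 : 1 ≤ r * q := Nat.mul_pos hr hq
  have h2 : (10 : ℝ) * N ≤ AA (r * q) N j + 1 := by
    have h5 := ten_le_AA hj
    have h6 : 10 * N ≤ AA (r * q) N j := by nlinarith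
    have h7 : ((10 * N : ℕ) : ℝ) ≤ AA (r * q) N j := by exact_mod_cast h6
    push_cast at h7
    linarith
  have h3 : (10 : ℝ) * N ≤ BB (r * q) N j + 1 := by
    have h5 := ten_le_BB hj
    have h6 : 10 * N ≤ BB (r * q) N j := by nlinarith
    have h7 : ((10 * N : ℕ) : ℝ) ≤ BB (r * q) N j := by exact_mod_cast h6
    push_cast at h7
    linarith
  calc 100 * (N : ℝ) ^ 3 = N * ((10 * N) * (10 * N)) := by ring
    _ ≤ _ := by
        apply mul_le_mul h1 _ (by positivity) (le_trans (by positivity) h1)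
        exact mul_le_mul h2 h3 (by positivity) (by positivity)

/-- Two rigid filtrations with the same layer sums have the same mean and second moments on all
layers. -/
theorem Rigid.layer_eq {χ χ' : Filt T q D₀ r} {m m' : MonomialOrder (Fin 4)}
    {al be ga de al' be' ga' de' : ℤ} (hR : χ.Rigid m al be ga de)
    (hR' : χ'.Rigid m' al' be' ga' de') (hD : T.X.deg D₀ = 105 * T.t * q) (hq : 0 < q) (hr : 0 < r)
    (hlay : ∀ N : ℕ, 4 ≤ N → ∀ l : ℤ, ∀ j ∈ JJ (r * q) N,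
      ∑ a ∈ range (AA (r * q) N j + 1), ∑ b ∈ range (BB (r * q) N j + 1), χ.idim m N l j a b =
      ∑ a ∈ range (AA (r * q) N j + 1), ∑ b ∈ range (BB (r * q) N j + 1), χ'.idim m' N l j a b) :
    3 * (al - be) + 2 * ga = 3 * (al' - be') + 2 * ga' ∧
    25 * (r * q) * (al + be) + 2 * de = 25 * (r * q) * (al' + be') + 2 * de' ∧
    al ^ 2 = al' ^ 2 ∧ be ^ 2 = be' ^ 2 := by
  obtain ⟨C, hC0, hC⟩ := hR.layer_compare hR' hlay
  set Λ : ℕ := max χ.lam χ'.lam with hΛ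
  have hΛ1 : χ.lam ≤ Λ := le_max_left _ _
  have hΛ2 : χ'.lam ≤ Λ := le_max_right _ _
  have hlow1 : ∀ N : ℕ, 4 ≤ N → ∀ j a b, InR (r * q) N j a b →
      -((Λ * N : ℕ) : ℤ) ≤ lw al be ga de N j a b := by
    intro N hN j a b h
    refine le_trans ?_ (hR.lower hD hq hr hN h)
    have : ((χ.lam * N : ℕ) : ℤ) ≤ ((Λ * N : ℕ) : ℤ) := by
      exact_mod_cast Nat.mul_le_mul_right N hΛ1
    push_cast at this ⊢
    linarith
  have hlow2 : ∀ N : ℕ, 4 ≤ N → ∀ j a b, InR (r * q) N j a b →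
      -((Λ * N : ℕ) : ℤ) ≤ lw al' be' ga' de' N j a b := by
    intro N hN j a b h
    refine le_trans ?_ (hR'.lower hD hq hr hN h)
    have : ((χ'.lam * N : ℕ) : ℤ) ≤ ((Λ * N : ℕ) : ℤ) := by
      exact_mod_cast Nat.mul_le_mul_right N hΛ2
    push_cast at this ⊢
    linarith
  -- the value of the linear form
  have hA : ∀ N : ℕ, ∀ j ∈ JJ (r * q) N, (AA (r * q) N j : ℝ) = 25 * (r * q) * N + 3 * j := by
    intro N j hj
    have h := AA_cast (mem_JJ.1 hj)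
    have h' : ((AA (r * q) N j : ℤ) : ℝ) = ((25 * (r * q : ℕ) * N + 3 * j : ℤ) : ℝ) := by rw [h]
    push_cast at h'
    exact h'
  have hB : ∀ N : ℕ, ∀ j ∈ JJ (r * q) N, (BB (r * q) N j : ℝ) = 25 * (r * q) * N - 3 * j := by
    intro N j hj
    have h := BB_cast (mem_JJ.1 hj)
    have h' : ((BB (r * q) N j : ℤ) : ℝ) = ((25 * (r * q : ℕ) * N - 3 * j : ℤ) : ℝ) := by rw [h]
    push_cast at h'
    exact h'
  -- first moments
  have first : ∀ N : ℕ, 4 ≤ N → ∀ j ∈ JJ (r * q) N,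
      |(3 * ((al : ℝ) - be) + 2 * ga - (3 * (al' - be') + 2 * ga')) * j +
        (25 * (r * q) * ((al : ℝ) + be) + 2 * de - (25 * (r * q) * (al' + be') + 2 * de')) * N| ≤
      C / 50 := by
    intro N hN j hj
    have hNpos : (0 : ℝ) < N := by
      have : (4 : ℝ) ≤ N := by exact_mod_cast hN
      linarith
    have h1 := hC N hN Λ hΛ1 hΛ2 (fun _ => 1) 1 zero_le_one (fun _ _ _ _ _ _ _ => by simp) j hj
    have e1 : χ.vdim N j * (∑ a ∈ range (AA (r * q) N j + 1), ∑ b ∈ range (BB (r * q) N j + 1),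
        (∑ _l ∈ Ioc (-((Λ * N : ℕ) : ℤ)) (lw al be ga de N j a b), (1 : ℝ) -
        ∑ _l ∈ Ioc (-((Λ * N : ℕ) : ℤ)) (lw al' be' ga' de' N j a b), (1 : ℝ))) =
        χ.msz N j / 2 * ((3 * ((al : ℝ) - be) + 2 * ga - (3 * (al' - be') + 2 * ga')) * j +
        (25 * (r * q) * ((al : ℝ) + be) + 2 * de - (25 * (r * q) * (al' + be') + 2 * de')) *
          N) := by
      have e2 : ∑ a ∈ range (AA (r * q) N j + 1), ∑ b ∈ range (BB (r * q) N j + 1),
        (∑ _l ∈ Ioc (-((Λ * N : ℕ) : ℤ)) (lw al be ga de N j a b), (1 : ℝ) -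
        ∑ _l ∈ Ioc (-((Λ * N : ℕ) : ℤ)) (lw al' be' ga' de' N j a b), (1 : ℝ)) =
        ∑ a ∈ range (AA (r * q) N j + 1), ∑ b ∈ range (BB (r * q) N j + 1),
          (((al : ℝ) - al') * a + ((be : ℝ) - be') * b +
            (((ga : ℝ) - ga') * j + ((de : ℝ) - de') * N)) := by
        apply sum_congr rfl
        intro a ha
        apply sum_congr rfl
        intro b hb
        have hin := forall_JJ hj ha hb
        rw [sum_Ioc_one (hlow1 N hN j a b hin), sum_Ioc_one (hlow2 N hN j a b hin), lw_real,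
          lw_real]
        ring
      rw [e2, sum_lin, hA N j hj, hB N j hj]
      unfold msz
      rw [hA N j hj, hB N j hj]
      ring
    rw [e1, abs_mul] at h1
    have h2 := χ.le_msz hD hq hr hN hj
    have h3 : (0 : ℝ) < N ^ 3 := by positivity
    rw [abs_of_nonneg (by linarith : (0 : ℝ) ≤ χ.msz N j / 2), one_mul] at h1
    generalize |(3 * ((al : ℝ) - be) + 2 * ga - (3 * (al' - be') + 2 * ga')) * j +
        (25 * (r * q) * ((al : ℝ) + be) + 2 * de - (25 * (r * q) * (al' + be') + 2 * de')) *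
          N| = z at h1 ⊢
    by_contra h4
    push Not at h4
    have h5 : 0 ≤ z := by
      have : 0 ≤ C / 50 := by positivity
      linarith
    have h6 : 50 * (N : ℝ) ^ 3 * z ≤ χ.msz N j / 2 * z :=
      mul_le_mul_of_nonneg_right (by linarith) h5
    have h7 : 50 * (N : ℝ) ^ 3 * z > 50 * (N : ℝ) ^ 3 * (C / 50) :=
      mul_lt_mul_of_pos_left h4 (by positivity)
    have h8 : 50 * (N : ℝ) ^ 3 * (C / 50) = C * (N : ℝ) ^ 3 := by ring
    linarith
  have hj0 : ∀ N : ℕ, (0 : ℤ) ∈ JJ (r * q) N := by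
    intro N
    rw [mem_JJ, abs_zero]
    positivity
  have hj5 : ∀ N : ℕ, (5 * ((r * q : ℕ) : ℤ) * N) ∈ JJ (r * q) N := by
    intro N
    rw [mem_JJ, abs_of_nonneg (by positivity)]
  have hY : 25 * (r * q) * (al + be) + 2 * de - (25 * (r * q) * (al' + be') + 2 * de') = 0 := by
    apply int_eq_zero_of_bdd (C := C / 50)
    intro N hN
    have h1 := first N hN 0 (hj0 N)
    rw [Int.cast_zero, mul_zero, zero_add, abs_mul, Nat.abs_cast] at h1
    push_cast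
    exact h1
  have hX : 3 * (al - be) + 2 * ga - (3 * (al' - be') + 2 * ga') = 0 := by
    have h0 : 5 * ((r * q : ℕ) : ℤ) * (3 * (al - be) + 2 * ga - (3 * (al' - be') + 2 * ga')) = 0 := by
      apply int_eq_zero_of_bdd (C := C / 50)
      intro N hN
      have h1 := first N hN _ (hj5 N)
      have hY' : (25 * (r * q) * ((al : ℝ) + be) + 2 * de -
          (25 * (r * q) * (al' + be') + 2 * de')) = 0 := by
        exact_mod_cast hY
      rw [hY', zero_mul, add_zero] at h1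
      have e : (3 * ((al : ℝ) - be) + 2 * ga - (3 * (al' - be') + 2 * ga')) *
          ((5 * ((r * q : ℕ) : ℤ) * N : ℤ) : ℝ) =
          ((5 * ((r * q : ℕ) : ℤ) * (3 * (al - be) + 2 * ga - (3 * (al' - be') + 2 * ga')) : ℤ) : ℝ)
            * N := by
        push_cast
        ring
      rw [e, abs_mul, Nat.abs_cast] at h1
      exact h1
    have hrq : (5 * ((r * q : ℕ) : ℤ)) ≠ 0 := by
      have : 1 ≤ r * q := Nat.mul_pos hr hq
      omega
    exact (mul_eq_zero.1 h0).resolve_left hrq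
  refine ⟨by linarith, by linarith, ?_⟩
  -- second moments
  obtain ⟨c, hc0, hc⟩ : ∃ c : ℝ, 0 ≤ c ∧ ∀ N : ℕ, 4 ≤ N → ∀ j a b l, InR (r * q) N j a b →
      -((Λ * N : ℕ) : ℤ) < l →
      (l ≤ lw al be ga de N j a b ∨ l ≤ lw al' be' ga' de' N j a b) →
      |2 * ((l : ℝ) + ((Λ * N : ℕ) : ℤ)) - 1| ≤ c * N := by
    refine ⟨2 * ((40 * (r * q : ℕ) * (|(al : ℝ)| + |(be : ℝ)| + |(ga : ℝ)|) + |(de : ℝ)|) +
      (40 * (r * q : ℕ) * (|(al' : ℝ)| + |(be' : ℝ)| + |(ga' : ℝ)|) + |(de' : ℝ)|)) + 2 * Λ,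
      by positivity, ?_⟩
    intro N hN j a b l hin h1 h2
    have h3 : (1 : ℝ) ≤ (l : ℝ) + ((Λ * N : ℕ) : ℤ) := by
      have : 1 ≤ l + ((Λ * N : ℕ) : ℤ) := by omega
      exact_mod_cast this
    rw [abs_of_nonneg (by linarith)]
    have g1 := abs_lw_le al be ga de hin
    have g2 := abs_lw_le al' be' ga' de' hin
    have g3 := le_abs_self (lw al be ga de N j a b : ℝ)
    have g4 := le_abs_self (lw al' be' ga' de' N j a b : ℝ)
    have g5 := abs_nonneg (lw al be ga de N j a b : ℝ)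
    have g6 := abs_nonneg (lw al' be' ga' de' N j a b : ℝ)
    have h4 : (l : ℝ) ≤ (40 * (r * q : ℕ) * (|(al : ℝ)| + |(be : ℝ)| + |(ga : ℝ)|) + |(de : ℝ)|) * N +
      (40 * (r * q : ℕ) * (|(al' : ℝ)| + |(be' : ℝ)| + |(ga' : ℝ)|) + |(de' : ℝ)|) * N := by
      rcases h2 with h2 | h2
      · have : (l : ℝ) ≤ (lw al be ga de N j a b : ℝ) := by exact_mod_cast h2
        linarith
      · have : (l : ℝ) ≤ (lw al' be' ga' de' N j a b : ℝ) := by exact_mod_cast h2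
        linarith
    push_cast at h4 ⊢
    linarith
  have second : ∀ N : ℕ, 4 ≤ N → ∀ j ∈ JJ (r * q) N,
      |((al : ℝ) ^ 2 - (al' : ℝ) ^ 2) * (AA (r * q) N j * (AA (r * q) N j + 2)) +
        ((be : ℝ) ^ 2 - (be' : ℝ) ^ 2) * (BB (r * q) N j * (BB (r * q) N j + 2))| ≤
      c * C * N := by
    intro N hN j hj
    have hNpos : (0 : ℝ) < N := by
      have : (4 : ℝ) ≤ N := by exact_mod_cast hN
      linarith
    have h1 := hC N hN Λ hΛ1 hΛ2 (fun l => 2 * ((l : ℝ) + ((Λ * N : ℕ) : ℤ)) - 1) (c * N)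
      (by positivity) (fun j a b l hin g1 g2 => hc N hN j a b l hin g1 g2) j hj
    have hX' : (3 * ((al : ℝ) - be) + 2 * ga - (3 * (al' - be') + 2 * ga')) = 0 := by
      exact_mod_cast hX
    have hY' : (25 * (r * q) * ((al : ℝ) + be) + 2 * de -
        (25 * (r * q) * (al' + be') + 2 * de')) = 0 := by
      exact_mod_cast hY
    have e1 : χ.vdim N j * (∑ a ∈ range (AA (r * q) N j + 1), ∑ b ∈ range (BB (r * q) N j + 1),
        (∑ l ∈ Ioc (-((Λ * N : ℕ) : ℤ)) (lw al be ga de N j a b),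
          (2 * ((l : ℝ) + ((Λ * N : ℕ) : ℤ)) - 1) -
        ∑ l ∈ Ioc (-((Λ * N : ℕ) : ℤ)) (lw al' be' ga' de' N j a b),
          (2 * ((l : ℝ) + ((Λ * N : ℕ) : ℤ)) - 1))) =
        χ.msz N j / 12 * (((al : ℝ) ^ 2 - (al' : ℝ) ^ 2) *
          (AA (r * q) N j * (AA (r * q) N j + 2)) +
        ((be : ℝ) ^ 2 - (be' : ℝ) ^ 2) * (BB (r * q) N j * (BB (r * q) N j + 2))) := by
      have e2 : ∑ a ∈ range (AA (r * q) N j + 1), ∑ b ∈ range (BB (r * q) N j + 1),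
        (∑ l ∈ Ioc (-((Λ * N : ℕ) : ℤ)) (lw al be ga de N j a b),
          (2 * ((l : ℝ) + ((Λ * N : ℕ) : ℤ)) - 1) -
        ∑ l ∈ Ioc (-((Λ * N : ℕ) : ℤ)) (lw al' be' ga' de' N j a b),
          (2 * ((l : ℝ) + ((Λ * N : ℕ) : ℤ)) - 1)) =
        ∑ a ∈ range (AA (r * q) N j + 1), ∑ b ∈ range (BB (r * q) N j + 1),
          ((al : ℝ) * a + be * b + (ga * j + de * N + ((Λ * N : ℕ) : ℤ))) *
          ((al : ℝ) * a + be * b + (ga * j + de * N + ((Λ * N : ℕ) : ℤ))) -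
        ∑ a ∈ range (AA (r * q) N j + 1), ∑ b ∈ range (BB (r * q) N j + 1),
          ((al' : ℝ) * a + be' * b + (ga' * j + de' * N + ((Λ * N : ℕ) : ℤ))) *
          ((al' : ℝ) * a + be' * b + (ga' * j + de' * N + ((Λ * N : ℕ) : ℤ))) := by
        rw [← sum_sub_distrib]
        apply sum_congr rfl
        intro a ha
        rw [← sum_sub_distrib]
        apply sum_congr rfl
        intro b hb
        have hin := forall_JJ hj ha hb
        rw [sum_Ioc_odd (hlow1 N hN j a b hin), sum_Ioc_odd (hlow2 N hN j a b hin), lw_real,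
          lw_real]
        ring
      have e3 : (al : ℝ) * AA (r * q) N j / 2 + be * BB (r * q) N j / 2 +
          (ga * j + de * N + ((Λ * N : ℕ) : ℤ)) = (al' : ℝ) * AA (r * q) N j / 2 +
          be' * BB (r * q) N j / 2 + (ga' * j + de' * N + ((Λ * N : ℕ) : ℤ)) := by
        rw [hA N j hj, hB N j hj]
        linear_combination (j : ℝ) / 2 * hX' + (N : ℝ) / 2 * hY'
      rw [e2, sum_bilin, sum_bilin, e3]
      unfold msz
      ring
    rw [e1, abs_mul] at h1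
    have h2 := χ.le_msz hD hq hr hN hj
    have h3 : (0 : ℝ) < N ^ 3 := by positivity
    rw [abs_of_nonneg (by linarith : (0 : ℝ) ≤ χ.msz N j / 12)] at h1
    generalize |((al : ℝ) ^ 2 - (al' : ℝ) ^ 2) * (AA (r * q) N j * (AA (r * q) N j + 2)) +
        ((be : ℝ) ^ 2 - (be' : ℝ) ^ 2) * (BB (r * q) N j * (BB (r * q) N j + 2))| = z at h1 ⊢
    by_contra h4
    push Not at h4
    have h4' : 0 ≤ c * C * N := by positivity
    have h5 : 0 ≤ z := by linarith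
    have h6 : (N : ℝ) ^ 3 * z ≤ χ.msz N j / 12 * z :=
      mul_le_mul_of_nonneg_right (by linarith) h5
    have h7 : (N : ℝ) ^ 3 * z > (N : ℝ) ^ 3 * (c * C * N) :=
      mul_lt_mul_of_pos_left h4 (by positivity)
    have h8 : (N : ℝ) ^ 3 * (c * C * N) = c * N * C * (N : ℝ) ^ 3 := by ring
    linarith
  have hrq1 : (1 : ℝ) ≤ r * q := by exact_mod_cast Nat.mul_pos hr hq
  have hsum : (al ^ 2 - al' ^ 2) + (be ^ 2 - be' ^ 2) = 0 := by
    apply int_eq_zero_of_bdd (C := c * C)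
    intro N hN
    have hN4 : (4 : ℝ) ≤ N := by exact_mod_cast hN
    have h1 := second N hN 0 (hj0 N)
    rw [hA N 0 (hj0 N), hB N 0 (hj0 N)] at h1
    have e1 : ((al : ℝ) ^ 2 - (al' : ℝ) ^ 2) *
        ((25 * (r * q) * N + 3 * ((0 : ℤ) : ℝ)) * (25 * (r * q) * N + 3 * ((0 : ℤ) : ℝ) + 2)) +
        ((be : ℝ) ^ 2 - (be' : ℝ) ^ 2) *
        ((25 * (r * q) * N - 3 * ((0 : ℤ) : ℝ)) * (25 * (r * q) * N - 3 * ((0 : ℤ) : ℝ) + 2)) =
        (((al ^ 2 - al' ^ 2) + (be ^ 2 - be' ^ 2) : ℤ) : ℝ) *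
          ((25 * (r * q) * N) * (25 * (r * q) * N + 2)) := by
      push_cast
      ring
    rw [e1, abs_mul, abs_of_nonneg (by positivity :
      (0 : ℝ) ≤ (25 * (r * q) * N) * (25 * (r * q) * N + 2))] at h1
    have h2 : (N : ℝ) * N ≤ (25 * (r * q) * N) * (25 * (r * q) * N + 2) := by
      have h3 : (N : ℝ) ≤ 25 * (r * q) * N := by nlinarith
      apply mul_le_mul h3 (by linarith) (by positivity) (by positivity)
    have h3 : |(((al ^ 2 - al' ^ 2) + (be ^ 2 - be' ^ 2) : ℤ) : ℝ)| * (N * N) ≤ c * C * N :=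
      (mul_le_mul_of_nonneg_left h2 (abs_nonneg _)).trans h1
    have h4 : |(((al ^ 2 - al' ^ 2) + (be ^ 2 - be' ^ 2) : ℤ) : ℝ)| * N * N ≤ c * C * N := by
      linarith
    exact le_of_mul_le_mul_right h4 (by linarith)
  have hal : al ^ 2 - al' ^ 2 = 0 := by
    apply int_eq_zero_of_bdd (C := c * C)
    intro N hN
    have hN4 : (4 : ℝ) ≤ N := by exact_mod_cast hN
    have h1 := second N hN _ (hj5 N)
    rw [hA N _ (hj5 N), hB N _ (hj5 N)] at h1
    have hsum' : ((be : ℝ) ^ 2 - (be' : ℝ) ^ 2) = -((al : ℝ) ^ 2 - (al' : ℝ) ^ 2) := by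
      have h : (((al ^ 2 - al' ^ 2) + (be ^ 2 - be' ^ 2) : ℤ) : ℝ) = 0 := by exact_mod_cast hsum
      push_cast at h
      linarith
    have e1 : ((al : ℝ) ^ 2 - (al' : ℝ) ^ 2) *
        ((25 * (r * q) * N + 3 * ((5 * ((r * q : ℕ) : ℤ) * N : ℤ) : ℝ)) *
          (25 * (r * q) * N + 3 * ((5 * ((r * q : ℕ) : ℤ) * N : ℤ) : ℝ) + 2)) +
        ((be : ℝ) ^ 2 - (be' : ℝ) ^ 2) *
        ((25 * (r * q) * N - 3 * ((5 * ((r * q : ℕ) : ℤ) * N : ℤ) : ℝ)) *
          (25 * (r * q) * N - 3 * ((5 * ((r * q : ℕ) : ℤ) * N : ℤ) : ℝ) + 2)) =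
        ((al ^ 2 - al' ^ 2 : ℤ) : ℝ) *
          (1500 * (r * q * N) ^ 2 + 60 * (r * q * N)) := by
      rw [hsum']
      push_cast
      ring
    rw [e1, abs_mul, abs_of_nonneg (by positivity :
      (0 : ℝ) ≤ 1500 * (r * q * N) ^ 2 + 60 * (r * q * N))] at h1
    have h2 : (N : ℝ) * N ≤ 1500 * (r * q * N) ^ 2 + 60 * (r * q * N) := by
      have h3 : (N : ℝ) ≤ r * q * N := by nlinarith
      nlinarith
    have h3 : |((al ^ 2 - al' ^ 2 : ℤ) : ℝ)| * (N * N) ≤ c * C * N :=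
      (mul_le_mul_of_nonneg_left h2 (abs_nonneg _)).trans h1
    have h4 : |((al ^ 2 - al' ^ 2 : ℤ) : ℝ)| * N * N ≤ c * C * N := by
      linarith
    exact le_of_mul_le_mul_right h4 (by linarith)
  constructor <;> linarith

/-- The layers of two filtrations have the same dimensions. -/
def SameLayers (χ χ' : Filt T q D₀ r) (w : (Fin 4 →₀ ℕ) → ℕ) : Prop :=
  ∀ N l c, finrank ℂ (χ.F N l ⊓ Wle w c : Submodule ℂ (MvPolynomial (Fin 4) K)) =
    finrank ℂ (χ'.F N l ⊓ Wle w c : Submodule ℂ (MvPolynomial (Fin 4) K))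

/-- Intrinsic moments for orders refining the degree in `x` (`w = xd`) or in `y` (`w = yd`). -/
theorem Rigid.compare {χ χ' : Filt T q D₀ r} {m m' : MonomialOrder (Fin 4)}
    {al be ga de al' be' ga' de' : ℤ} (hR : χ.Rigid m al be ga de)
    (hR' : χ'.Rigid m' al' be' ga' de') (hD : T.X.deg D₀ = 105 * T.t * q) (hq : 0 < q) (hr : 0 < r)
    {w : (Fin 4 →₀ ℕ) → ℕ} {κ : ℕ → ℤ → ℕ} (hw : ∀ N, 4 ≤ N → LayerWt w (r * q) N (κ N))
    (hm : ∀ N, 4 ≤ N → Refines m w (Eset (r * q) N))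
    (hm' : ∀ N, 4 ≤ N → Refines m' w (Eset (r * q) N)) (hs : SameLayers χ χ' w) :
    3 * (al - be) + 2 * ga = 3 * (al' - be') + 2 * ga' ∧
    25 * (r * q) * (al + be) + 2 * de = 25 * (r * q) * (al' + be') + 2 * de' ∧
    al ^ 2 = al' ^ 2 ∧ be ^ 2 = be' ^ 2 := by
  apply hR.layer_eq hR' hD hq hr
  intro N hN l j hj
  rw [χ.sum_idim_layer (hw N hN) (hm N hN) l hj, χ'.sum_idim_layer (hw N hN) (hm' N hN) l hj,
    hs, hs]

end Filt

end Pool.Agent.YTD


end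

/- source: Pool.Agent.YTD.RigidSign -/

section

/-!
The greedy inequality for rigid filtrations and the sign of the slopes for filtrations stable
under an involution exchanging the coordinates.
-/

namespace Pool.Agent.YTD

open Module Finset MvPolynomial

section greedy

variable {σ : Type} {K : Type} [Field K] [Algebra ℂ K]

/-- The greedy inequality for two spaces and two orders. -/
theorem greedy' (m m' : MonomialOrder σ) {U U' : Submodule ℂ (MvPolynomial σ K)}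
    (hfin : FiniteDimensional ℂ U) (hfin' : FiniteDimensional ℂ U')
    {w w' : (σ →₀ ℕ) → ℕ} {E : Finset (σ →₀ ℕ)}
    (hm : Refines m w E) (hU : ∀ f ∈ U, ∀ e, f.coeff e ≠ 0 → e ∈ E)
    (hU' : ∀ f ∈ U', ∀ e, f.coeff e ≠ 0 → e ∈ E) (hdim : finrank ℂ U = finrank ℂ U')
    (hww' : ∀ c, finrank ℂ (U ⊓ Wle w c : Submodule ℂ (MvPolynomial σ K)) ≤
      finrank ℂ (U' ⊓ Wle w' c : Submodule ℂ (MvPolynomial σ K))) :
    ∑ e ∈ E, w' e * finrank ℂ (ini m' U' e) ≤ ∑ e ∈ E, w e * finrank ℂ (ini m U e) := by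
  obtain ⟨M, hM⟩ : ∃ M, ∀ e ∈ E, w e ≤ M ∧ w' e ≤ M := by
    refine ⟨∑ e ∈ E, (w e + w' e), fun e he => ?_⟩
    have h : w e + w' e ≤ ∑ e ∈ E, (w e + w' e) :=
      Finset.single_le_sum (f := fun e => w e + w' e) (fun i _ => Nat.zero_le _) he
    constructor <;> omega
  have h1 := sum_weight E w (fun e => finrank ℂ (ini m U e)) M (fun e he => (hM e he).1)
  have h2 := sum_weight E w' (fun e => finrank ℂ (ini m' U' e)) M (fun e he => (hM e he).2)
  have h3 : ∑ c ∈ range M, ∑ e ∈ E with w e ≤ c, finrank ℂ (ini m U e) ≤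
      ∑ c ∈ range M, ∑ e ∈ E with w' e ≤ c, finrank ℂ (ini m' U' e) := by
    apply Finset.sum_le_sum
    intro c _
    rw [← finrank_Wle m hfin hm hU c]
    exact (hww' c).trans (finrank_Wle_le m' hfin' w' hU' (fun e _ => finite_ini m' hfin' e) c)
  rw [← finrank_eq_sum_ini m E U hfin hU] at h1
  rw [← finrank_eq_sum_ini m' E U' hfin' hU', ← hdim] at h2
  omega

/-- exchange of the coordinates `x₀, x₁` and of `y₀, y₁`. -/
noncomputable def swapE (e : Fin 4 →₀ ℕ) : Fin 4 →₀ ℕ :=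
  Finsupp.equivFunOnFinite.symm ![e 1, e 0, e 3, e 2]

theorem swapE_0 (e : Fin 4 →₀ ℕ) : swapE e 0 = e 1 := rfl
theorem swapE_1 (e : Fin 4 →₀ ℕ) : swapE e 1 = e 0 := rfl
theorem swapE_2 (e : Fin 4 →₀ ℕ) : swapE e 2 = e 3 := rfl
theorem swapE_3 (e : Fin 4 →₀ ℕ) : swapE e 3 = e 2 := rfl

theorem swapE_swapE (e : Fin 4 →₀ ℕ) : swapE (swapE e) = e := by
  ext i
  fin_cases i <;> rfl

theorem swapE_inj {e e' : Fin 4 →₀ ℕ} (h : swapE e = swapE e') : e = e' := by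
  rw [← swapE_swapE e, h, swapE_swapE]

/-- antidiagonal invertible matrices. -/
structure Anti (s : Matrix (Fin 2) (Fin 2) ℂ) : Prop where
  z0 : s 0 0 = 0
  z1 : s 1 1 = 0
  n0 : s 0 1 ≠ 0
  n1 : s 1 0 ≠ 0

/-- the scalar by which the monomial with exponent `e` is multiplied. -/
noncomputable def antiC (s s' : Matrix (Fin 2) (Fin 2) ℂ) (e : Fin 4 →₀ ℕ) : ℂ :=
  s 0 1 ^ e 0 * s 1 0 ^ e 1 * s' 0 1 ^ e 2 * s' 1 0 ^ e 3

theorem antiC_ne {s s' : Matrix (Fin 2) (Fin 2) ℂ} (hs : Anti s) (hs' : Anti s')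
    (e : Fin 4 →₀ ℕ) : antiC s s' e ≠ 0 := by
  unfold antiC
  have := hs.n0
  have := hs.n1
  have := hs'.n0
  have := hs'.n1
  positivity

theorem subst_monomial {s s' : Matrix (Fin 2) (Fin 2) ℂ} (hs : Anti s) (hs' : Anti s')
    (e : Fin 4 →₀ ℕ) (c : K) :
    subst s s' (monomial e c) = monomial (swapE e) (antiC s s' e • c) := by
  unfold subst
  rw [aeval_monomial, Finsupp.prod_fintype _ _ (by intro i; exact pow_zero _), Fin.prod_univ_four]
  have e0 : (![s 0 0 • X 0 + s 0 1 • X 1, s 1 0 • X 0 + s 1 1 • X 1,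
      s' 0 0 • X 2 + s' 0 1 • X 3, s' 1 0 • X 2 + s' 1 1 • X 3] : Fin 4 → MvPolynomial (Fin 4) K) 0
      = s 0 1 • X 1 := by
    show s 0 0 • X 0 + s 0 1 • X 1 = _
    rw [hs.z0, zero_smul, zero_add]
  have e1 : (![s 0 0 • X 0 + s 0 1 • X 1, s 1 0 • X 0 + s 1 1 • X 1,
      s' 0 0 • X 2 + s' 0 1 • X 3, s' 1 0 • X 2 + s' 1 1 • X 3] : Fin 4 → MvPolynomial (Fin 4) K) 1
      = s 1 0 • X 0 := by
    show s 1 0 • X 0 + s 1 1 • X 1 = _
    rw [hs.z1, zero_smul, add_zero]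
  have e2 : (![s 0 0 • X 0 + s 0 1 • X 1, s 1 0 • X 0 + s 1 1 • X 1,
      s' 0 0 • X 2 + s' 0 1 • X 3, s' 1 0 • X 2 + s' 1 1 • X 3] : Fin 4 → MvPolynomial (Fin 4) K) 2
      = s' 0 1 • X 3 := by
    show s' 0 0 • X 2 + s' 0 1 • X 3 = _
    rw [hs'.z0, zero_smul, zero_add]
  have e3 : (![s 0 0 • X 0 + s 0 1 • X 1, s 1 0 • X 0 + s 1 1 • X 1,
      s' 0 0 • X 2 + s' 0 1 • X 3, s' 1 0 • X 2 + s' 1 1 • X 3] : Fin 4 → MvPolynomial (Fin 4) K) 3
      = s' 1 0 • X 2 := by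
    show s' 1 0 • X 2 + s' 1 1 • X 3 = _
    rw [hs'.z1, zero_smul, add_zero]
  rw [e0, e1, e2, e3, smul_pow, smul_pow, smul_pow, smul_pow]
  have e4 : (monomial (swapE e) (antiC s s' e • c) : MvPolynomial (Fin 4) K) =
      antiC s s' e • (C c * (X 0 ^ e 1 * X 1 ^ e 0 * X 2 ^ e 3 * X 3 ^ e 2)) := by
    have h1 : (monomial (swapE e) (antiC s s' e • c) : MvPolynomial (Fin 4) K) =
        antiC s s' e • monomial (swapE e) c := by
      rw [smul_monomial]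
    rw [h1, monomial_eq, Finsupp.prod_fintype _ _ (by intro i; exact pow_zero _),
      Fin.prod_univ_four]
    rfl
  rw [e4, smul_mul_smul_comm, smul_mul_smul_comm, smul_mul_smul_comm, mul_smul_comm]
  have e5 : algebraMap K (MvPolynomial (Fin 4) K) c *
      (X 1 ^ e 0 * X 0 ^ e 1 * X 3 ^ e 2 * X 2 ^ e 3) =
      C c * (X 0 ^ e 1 * X 1 ^ e 0 * X 2 ^ e 3 * X 3 ^ e 2) := by
    rw [algebraMap_eq]
    ring
  rw [e5]
  rfl

theorem subst_coeff {s s' : Matrix (Fin 2) (Fin 2) ℂ} (hs : Anti s) (hs' : Anti s')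
    (f : MvPolynomial (Fin 4) K) (e : Fin 4 →₀ ℕ) :
    (subst s s' f).coeff (swapE e) = antiC s s' e • f.coeff e := by
  induction f using MvPolynomial.induction_on' with
  | monomial e' c =>
    classical
    rw [subst_monomial hs hs', coeff_monomial, coeff_monomial]
    by_cases h : e' = e
    · subst h
      simp
    · rw [if_neg h, if_neg (fun h' => h (swapE_inj h')), smul_zero]
  | add f g hf hg => rw [map_add, coeff_add, hf, hg, coeff_add, smul_add]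

theorem subst_injective {s s' : Matrix (Fin 2) (Fin 2) ℂ} (hs : Anti s) (hs' : Anti s') :
    Function.Injective (subst (K := K) s s') := by
  rw [injective_iff_map_eq_zero]
  intro f hf
  ext e
  have h := subst_coeff hs hs' f e
  rw [hf, coeff_zero] at h
  rw [coeff_zero]
  exact (smul_eq_zero.1 h.symm).resolve_left (antiC_ne hs hs' e)

/-- the layers of a subspace stable under `map θ ∘ subst s s'` have the same dimension for a
weight and its transform. -/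
theorem finrank_swap_map {s s' : Matrix (Fin 2) (Fin 2) ℂ} (hs : Anti s) (hs' : Anti s')
    (θ : K ≃ₐ[ℂ] K) {U : Submodule ℂ (MvPolynomial (Fin 4) K)} (hfin : FiniteDimensional ℂ U)
    (hinv : ∀ f ∈ U, MvPolynomial.map (θ : K →+* K) (subst s s' f) ∈ U)
    (w : (Fin 4 →₀ ℕ) → ℕ) (c : ℕ) :
    finrank ℂ (U ⊓ Wle w c : Submodule ℂ (MvPolynomial (Fin 4) K)) ≤
      finrank ℂ (U ⊓ Wle (fun e => w (swapE e)) c : Submodule ℂ (MvPolynomial (Fin 4) K)) := by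
  have : FiniteDimensional ℂ (U ⊓ Wle (fun e => w (swapE e)) c :
    Submodule ℂ (MvPolynomial (Fin 4) K)) := finite_inf hfin
  have hcoef : ∀ (f : MvPolynomial (Fin 4) K) (e : Fin 4 →₀ ℕ),
      (MvPolynomial.map (θ : K →+* K) (subst s s' f)).coeff (swapE e) =
        antiC s s' e • θ (f.coeff e) := by
    intro f e
    rw [coeff_map, subst_coeff hs hs']
    show θ (antiC s s' e • f.coeff e) = _
    rw [map_smul]
  have hmem : ∀ f : (U ⊓ Wle w c : Submodule ℂ (MvPolynomial (Fin 4) K)),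
      MvPolynomial.map (θ : K →+* K) (subst s s' (f : MvPolynomial (Fin 4) K)) ∈
        U ⊓ Wle (fun e => w (swapE e)) c := by
    intro f
    refine ⟨hinv _ f.2.1, ?_⟩
    intro e he
    have h1 := hcoef (f : MvPolynomial (Fin 4) K) (swapE e)
    rw [swapE_swapE] at h1
    apply f.2.2
    intro h2
    apply he
    rw [h1, h2, map_zero, smul_zero]
  let ψ : MvPolynomial (Fin 4) K →ₗ[ℂ] MvPolynomial (Fin 4) K :=
    { toFun := fun f => MvPolynomial.map (θ : K →+* K) (subst s s' f)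
      map_add' := fun f g => by rw [map_add, map_add]
      map_smul' := fun c f => by
        ext e
        have h1 := hcoef (c • f) (swapE e)
        have h2 := hcoef f (swapE e)
        rw [swapE_swapE] at h1 h2
        rw [h1, RingHom.id_apply, coeff_smul, coeff_smul, h2, map_smul, smul_comm] }
  let φ : (U ⊓ Wle w c : Submodule ℂ (MvPolynomial (Fin 4) K)) →ₗ[ℂ]
      (U ⊓ Wle (fun e => w (swapE e)) c : Submodule ℂ (MvPolynomial (Fin 4) K)) :=
    LinearMap.codRestrict _ (ψ.comp (Submodule.subtype _)) hmem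
  apply LinearMap.finrank_le_finrank_of_injective (f := φ)
  intro f g h
  have h1 : MvPolynomial.map (θ : K →+* K) (subst s s' (f : MvPolynomial (Fin 4) K)) =
    MvPolynomial.map (θ : K →+* K) (subst s s' (g : MvPolynomial (Fin 4) K)) :=
    congrArg Subtype.val h
  apply Subtype.ext
  ext e
  have h2 := hcoef (f : MvPolynomial (Fin 4) K) e
  rw [h1, hcoef] at h2
  have h3 := smul_right_injective K (antiC_ne hs hs' e) h2
  exact (θ.injective h3).symm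

/-- the layers of a stable subspace have the same dimension for a weight and its transform. -/
theorem finrank_swap {s s' : Matrix (Fin 2) (Fin 2) ℂ} (hs : Anti s) (hs' : Anti s')
    {U : Submodule ℂ (MvPolynomial (Fin 4) K)} (hfin : FiniteDimensional ℂ U)
    (hinv : ∀ f ∈ U, subst s s' f ∈ U) (w : (Fin 4 →₀ ℕ) → ℕ) (c : ℕ) :
    finrank ℂ (U ⊓ Wle w c : Submodule ℂ (MvPolynomial (Fin 4) K)) ≤
      finrank ℂ (U ⊓ Wle (fun e => w (swapE e)) c : Submodule ℂ (MvPolynomial (Fin 4) K)) := by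
  apply finrank_swap_map hs hs' (AlgEquiv.refl (R := ℂ) (A₁ := K)) hfin _ w c
  intro f hf
  have e : ((AlgEquiv.refl (R := ℂ) (A₁ := K)) : K →+* K) = RingHom.id K := rfl
  rw [e, MvPolynomial.map_id]
  exact hinv f hf

end greedy

variable {K : Type} [Field K] [Algebra ℂ K]
variable {T : Datum K} {q : ℕ} {D₀ : T.X.Pt →₀ ℤ} {r : ℕ}

namespace Filt

/-- sum over the exponents of a level. -/
theorem sum_Eset_idim (χ : Filt T q D₀ r) (m : MonomialOrder (Fin 4)) (N : ℕ) (l : ℤ)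
    (w : (Fin 4 →₀ ℕ) → ℝ) :
    ∑ e ∈ Eset (r * q) N, w e * (finrank ℂ (ini m (χ.F N l) e) : ℝ) =
    ∑ j ∈ JJ (r * q) N, ∑ a ∈ range (AA (r * q) N j + 1), ∑ b ∈ range (BB (r * q) N j + 1),
      w (expo (r * q) N j a b) * χ.idim m N l j a b :=
  sum_Eset (r * q) N (fun e => w e * (finrank ℂ (ini m (χ.F N l) e) : ℝ))

/-- Greedy inequality for one rigid filtration and two weights. -/
theorem Rigid.greedy {χ : Filt T q D₀ r} {m : MonomialOrder (Fin 4)}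
    {al be ga de : ℤ} (hR : χ.Rigid m al be ga de)
    (hD : T.X.deg D₀ = 105 * T.t * q) (hq : 0 < q) (hr : 0 < r)
    {w w' : ℕ → (Fin 4 →₀ ℕ) → ℕ} (hm : ∀ N, 4 ≤ N → Refines m (w N) (Eset (r * q) N))
    (hww' : ∀ N, 4 ≤ N → ∀ l c,
      finrank ℂ (χ.F N l ⊓ Wle (w N) c : Submodule ℂ (MvPolynomial (Fin 4) K)) ≤
      finrank ℂ (χ.F N l ⊓ Wle (w' N) c : Submodule ℂ (MvPolynomial (Fin 4) K)))
    {B : ℝ} (hB : ∀ N, 4 ≤ N → ∀ j a b, InR (r * q) N j a b →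
      |(w N (expo (r * q) N j a b) : ℝ) - w' N (expo (r * q) N j a b)| ≤ B * N) :
    ∃ C : ℝ, 0 ≤ C ∧ ∀ N : ℕ, 4 ≤ N → -(C * (N : ℝ) ^ 4) ≤
      ∑ j ∈ JJ (r * q) N, χ.vdim N j * ∑ a ∈ range (AA (r * q) N j + 1),
      ∑ b ∈ range (BB (r * q) N j + 1),
      ((w N (expo (r * q) N j a b) : ℝ) - w' N (expo (r * q) N j a b)) *
        ((lw al be ga de N j a b : ℝ) + ((χ.lam * N : ℕ) : ℤ)) := by
  obtain ⟨C, hC0, hC⟩ := hR.moment
  refine ⟨max B 0 * C, by positivity, ?_⟩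
  intro N hN
  have h1 := hC N hN χ.lam le_rfl
    (fun j a b _ => (w N (expo (r * q) N j a b) : ℝ) - w' N (expo (r * q) N j a b)) (max B 0 * N)
    (by positivity) (fun j a b l h _ _ => (hB N hN j a b h).trans
      (mul_le_mul_of_nonneg_right (le_max_left _ _) (by positivity)))
  have h2 : ∀ l : ℤ, 0 ≤ ∑ j ∈ JJ (r * q) N, ∑ a ∈ range (AA (r * q) N j + 1),
      ∑ b ∈ range (BB (r * q) N j + 1),
      ((w N (expo (r * q) N j a b) : ℝ) - w' N (expo (r * q) N j a b)) *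
        χ.idim m N l j a b := by
    intro l
    have h3 := greedy' m m (χ.finite_F N l) (χ.finite_F N l) (hm N hN) χ.F_exp χ.F_exp rfl
      (fun c => hww' N hN l c)
    have h4 : ((∑ e ∈ Eset (r * q) N, w' N e * finrank ℂ (ini m (χ.F N l) e) : ℕ) : ℝ) ≤
        ((∑ e ∈ Eset (r * q) N, w N e * finrank ℂ (ini m (χ.F N l) e) : ℕ) : ℝ) := by
      exact_mod_cast h3
    push_cast at h4
    rw [χ.sum_Eset_idim m N l (fun e => (w' N e : ℝ)),
      χ.sum_Eset_idim m N l (fun e => (w N e : ℝ))] at h4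
    simp only [sub_mul, sum_sub_distrib]
    linarith
  have h5 : 0 ≤ ∑ j ∈ JJ (r * q) N, ∑ a ∈ range (AA (r * q) N j + 1),
      ∑ b ∈ range (BB (r * q) N j + 1),
      ∑ l ∈ Ioc (-((χ.lam * N : ℕ) : ℤ)) ((χ.lam * N : ℕ) : ℤ),
      ((w N (expo (r * q) N j a b) : ℝ) - w' N (expo (r * q) N j a b)) *
        χ.idim m N l j a b := by
    have e1 : ∑ j ∈ JJ (r * q) N, ∑ a ∈ range (AA (r * q) N j + 1),
      ∑ b ∈ range (BB (r * q) N j + 1),
      ∑ l ∈ Ioc (-((χ.lam * N : ℕ) : ℤ)) ((χ.lam * N : ℕ) : ℤ),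
      ((w N (expo (r * q) N j a b) : ℝ) - w' N (expo (r * q) N j a b)) *
        χ.idim m N l j a b = ∑ l ∈ Ioc (-((χ.lam * N : ℕ) : ℤ)) ((χ.lam * N : ℕ) : ℤ),
        ∑ j ∈ JJ (r * q) N, ∑ a ∈ range (AA (r * q) N j + 1),
        ∑ b ∈ range (BB (r * q) N j + 1),
        ((w N (expo (r * q) N j a b) : ℝ) - w' N (expo (r * q) N j a b)) *
          χ.idim m N l j a b := by
      symm
      rw [sum_comm]
      apply sum_congr rfl
      intro j _
      rw [sum_comm]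
      apply sum_congr rfl
      intro a _
      rw [sum_comm]
    rw [e1]
    exact sum_nonneg fun l _ => h2 l
  have e2 : ∀ j ∈ JJ (r * q) N, ∀ a ∈ range (AA (r * q) N j + 1),
      ∀ b ∈ range (BB (r * q) N j + 1),
      ∑ l ∈ Ioc (-((χ.lam * N : ℕ) : ℤ)) (lw al be ga de N j a b),
        ((w N (expo (r * q) N j a b) : ℝ) - w' N (expo (r * q) N j a b)) =
      ((w N (expo (r * q) N j a b) : ℝ) - w' N (expo (r * q) N j a b)) *
        ((lw al be ga de N j a b : ℝ) + ((χ.lam * N : ℕ) : ℤ)) := by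
    intro j hj a ha b hb
    have hlow := hR.lower hD hq hr hN (forall_JJ hj ha hb)
    have h6 := sum_Ioc_one (c := ((χ.lam * N : ℕ) : ℤ)) (L := lw al be ga de N j a b) (by
      push_cast
      linarith)
    rw [← h6, mul_sum]
    simp
  have h7 := (abs_le.1 ((abs_sum_le_sum_abs _ _).trans h1)).1
  simp only [sum_sub_distrib] at h7
  have e3 : ∑ j ∈ JJ (r * q) N, ∑ a ∈ range (AA (r * q) N j + 1),
      ∑ b ∈ range (BB (r * q) N j + 1), χ.vdim N j *
      ∑ l ∈ Ioc (-((χ.lam * N : ℕ) : ℤ)) (lw al be ga de N j a b),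
        ((w N (expo (r * q) N j a b) : ℝ) - w' N (expo (r * q) N j a b)) =
      ∑ j ∈ JJ (r * q) N, χ.vdim N j * ∑ a ∈ range (AA (r * q) N j + 1),
      ∑ b ∈ range (BB (r * q) N j + 1),
      ((w N (expo (r * q) N j a b) : ℝ) - w' N (expo (r * q) N j a b)) *
        ((lw al be ga de N j a b : ℝ) + ((χ.lam * N : ℕ) : ℤ)) := by
    apply sum_congr rfl
    intro j hj
    rw [mul_sum]
    apply sum_congr rfl
    intro a ha
    rw [mul_sum]
    apply sum_congr rfl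
    intro b hb
    rw [e2 j hj a ha b hb]
  simp only [sum_sub_distrib] at e3
  rw [e3] at h7
  have h8 : max B 0 * N * C * (N : ℝ) ^ 3 = max B 0 * C * (N : ℝ) ^ 4 := by ring
  rw [h8] at h7
  linarith

end Filt

end Pool.Agent.YTD


end

/- source: Pool.Agent.YTD.RigidB2 -/

section

/-!
Sign of the slopes for filtrations stable under an involution exchanging the coordinates.
-/

namespace Pool.Agent.YTD

open Module Finset MvPolynomial

variable {K : Type} [Field K] [Algebra ℂ K]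
variable {T : Datum K} {q : ℕ} {D₀ : T.X.Pt →₀ ℤ} {r : ℕ}

/-- a lexicographic order refines the combined weight. -/
theorem Refines.of_lex {m : MonomialOrder (Fin 4)} {w1 w2 : (Fin 4 →₀ ℕ) → ℕ}
    {E : Finset (Fin 4 →₀ ℕ)} {M : ℕ}
    (h : ∀ e ∈ E, ∀ e' ∈ E, m.toSyn e' ≤ m.toSyn e → w1 e' < w1 e ∨ w1 e' = w1 e ∧ w2 e' ≤ w2 e)
    (hM : ∀ e ∈ E, w2 e ≤ M) : Refines m (fun e => M * w1 e + w2 e) E := by
  intro e he e' he' hle
  rcases h e he e' he' hle with h1 | ⟨h1, h2⟩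
  · have h3 := hM e' he'
    have h4 : M * (w1 e' + 1) ≤ M * w1 e := Nat.mul_le_mul_left M h1
    rw [Nat.mul_add, Nat.mul_one] at h4
    show M * w1 e' + w2 e' ≤ M * w1 e + w2 e
    omega
  · show M * w1 e' + w2 e' ≤ M * w1 e + w2 e
    rw [h1]
    omega

theorem Refines.of_lex' {m : MonomialOrder (Fin 4)} {w1 w2 : (Fin 4 →₀ ℕ) → ℕ}
    {E : Finset (Fin 4 →₀ ℕ)}
    (h : ∀ e ∈ E, ∀ e' ∈ E, m.toSyn e' ≤ m.toSyn e → w1 e' < w1 e ∨ w1 e' = w1 e ∧ w2 e' ≤ w2 e) :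
    Refines m w1 E := by
  intro e he e' he' hle
  rcases h e he e' he' hle with h1 | ⟨h1, _⟩
  · exact h1.le
  · exact h1.le

theorem neg_mem_JJ {Q N : ℕ} {j : ℤ} (h : j ∈ JJ Q N) : -j ∈ JJ Q N := by
  rw [mem_JJ] at h ⊢
  rwa [abs_neg]

theorem AA_neg (Q N : ℕ) (j : ℤ) : AA Q N (-j) = BB Q N j := by
  unfold AA BB
  congr 1
  ring

theorem BB_neg (Q N : ℕ) (j : ℤ) : BB Q N (-j) = AA Q N j := by
  unfold AA BB
  congr 1
  ring

theorem dg_neg (t Q N : ℕ) (j : ℤ) : dg t Q N (-j) = dg t Q N j := by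
  unfold dg
  rw [neg_neg]
  ring

theorem sum_JJ_neg (Q N : ℕ) (f : ℤ → ℝ) : ∑ j ∈ JJ Q N, f (-j) = ∑ j ∈ JJ Q N, f j :=
  sum_nbij' (fun j => -j) (fun j => -j) (fun _ h => neg_mem_JJ h) (fun _ h => neg_mem_JJ h)
    (fun _ _ => neg_neg _) (fun _ _ => neg_neg _) (fun _ _ => rfl)

theorem AA_real {Q N : ℕ} {j : ℤ} (hj : j ∈ JJ Q N) : (AA Q N j : ℝ) = 25 * Q * N + 3 * j := by
  have h := AA_cast (mem_JJ.1 hj)
  have h' : ((AA Q N j : ℤ) : ℝ) = ((25 * Q * N + 3 * j : ℤ) : ℝ) := by rw [h]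
  push_cast at h'
  exact h'

theorem BB_real {Q N : ℕ} {j : ℤ} (hj : j ∈ JJ Q N) : (BB Q N j : ℝ) = 25 * Q * N - 3 * j := by
  have h := BB_cast (mem_JJ.1 hj)
  have h' : ((BB Q N j : ℤ) : ℝ) = ((25 * Q * N - 3 * j : ℤ) : ℝ) := by rw [h]
  push_cast at h'
  exact h'

theorem zero_mem_JJ (Q N : ℕ) : (0 : ℤ) ∈ JJ Q N := by
  rw [mem_JJ, abs_zero]
  positivity

namespace Filt

theorem vdim_neg (χ : Filt T q D₀ r) (hD : T.X.deg D₀ = 105 * T.t * q) (hq : 0 < q) (hr : 0 < r)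
    {N : ℕ} (hN : 4 ≤ N) {j : ℤ} (hj : j ∈ JJ (r * q) N) : χ.vdim N (-j) = χ.vdim N j := by
  rw [χ.vdim_eq hD hq hr hN hj, χ.vdim_eq hD hq hr hN (neg_mem_JJ hj), dg_neg]

theorem msz_neg (χ : Filt T q D₀ r) (hD : T.X.deg D₀ = 105 * T.t * q) (hq : 0 < q) (hr : 0 < r)
    {N : ℕ} (hN : 4 ≤ N) {j : ℤ} (hj : j ∈ JJ (r * q) N) : χ.msz N (-j) = χ.msz N j := by
  unfold msz
  rw [χ.vdim_neg hD hq hr hN hj, AA_neg, BB_neg]
  ring

theorem msz_nonneg (χ : Filt T q D₀ r) (N : ℕ) (j : ℤ) : 0 ≤ χ.msz N j := by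
  unfold msz vdim
  positivity

/-- second moment of `a` -/
noncomputable def sA (χ : Filt T q D₀ r) (N : ℕ) : ℝ :=
  ∑ j ∈ JJ (r * q) N, χ.msz N j * (AA (r * q) N j * (AA (r * q) N j + 2))

theorem sA_eq (χ : Filt T q D₀ r) (hD : T.X.deg D₀ = 105 * T.t * q) (hq : 0 < q) (hr : 0 < r)
    {N : ℕ} (hN : 4 ≤ N) :
    ∑ j ∈ JJ (r * q) N, χ.msz N j * (BB (r * q) N j * (BB (r * q) N j + 2)) = χ.sA N := by
  unfold sA
  rw [← sum_JJ_neg (r * q) N (fun j => χ.msz N j * (AA (r * q) N j * (AA (r * q) N j + 2)))]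
  apply sum_congr rfl
  intro j hj
  rw [χ.msz_neg hD hq hr hN hj, AA_neg]

theorem le_sA (χ : Filt T q D₀ r) (hD : T.X.deg D₀ = 105 * T.t * q) (hq : 0 < q) (hr : 0 < r)
    {N : ℕ} (hN : 4 ≤ N) : 62500 * (N : ℝ) ^ 5 ≤ χ.sA N := by
  have h0 : (0 : ℤ) ∈ JJ (r * q) N := zero_mem_JJ _ _
  refine le_trans ?_ (single_le_sum (f := fun j => χ.msz N j *
    (AA (r * q) N j * (AA (r * q) N j + 2))) (fun j _ => mul_nonneg (χ.msz_nonneg N j)
      (by positivity)) h0)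
  have h1 := χ.le_msz hD hq hr hN h0
  have hrq : (1 : ℝ) ≤ (r * q : ℕ) := by exact_mod_cast Nat.mul_pos hr hq
  have hN4 : (4 : ℝ) ≤ N := by exact_mod_cast hN
  have h2 : (25 : ℝ) * N ≤ AA (r * q) N 0 := by
    rw [AA_real h0]
    have : (25 : ℝ) * N * 1 ≤ 25 * N * (r * q : ℕ) :=
      mul_le_mul_of_nonneg_left hrq (by positivity)
    simp
    push_cast at this
    linarith
  calc 62500 * (N : ℝ) ^ 5 = 100 * (N : ℝ) ^ 3 * ((25 * N) * (25 * N)) := by ring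
    _ ≤ _ := by
        apply mul_le_mul h1 _ (by positivity) (χ.msz_nonneg N 0)
        apply mul_le_mul h2 (by linarith) (by positivity) (by positivity)

/-- Sign of the slopes. -/
theorem Rigid.sign_core {χ : Filt T q D₀ r} {m : MonomialOrder (Fin 4)}
    {al be ga de : ℤ} (hR : χ.Rigid m al be ga de)
    (hD : T.X.deg D₀ = 105 * T.t * q) (hq : 0 < q) (hr : 0 < r)
    (hinv : ∀ N l w c,
      finrank ℂ (χ.F N l ⊓ Wle w c : Submodule ℂ (MvPolynomial (Fin 4) K)) ≤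
      finrank ℂ (χ.F N l ⊓ Wle (fun e => w (swapE e)) c :
        Submodule ℂ (MvPolynomial (Fin 4) K)))
    (r1 r2 : ℕ) (v : ℕ → (Fin 4 →₀ ℕ) → ℕ) (hv : ∀ N e, v N (swapE e) = v N e)
    (hm : ∀ N, 4 ≤ N → Refines m (fun e => v N e + (r1 * e 1 + r2 * e 3)) (Eset (r * q) N)) :
    0 ≤ r1 * al + r2 * be := by
  have hval : ∀ N j a b, InR (r * q) N j a b →
      ((v N (expo (r * q) N j a b) + (r1 * (expo (r * q) N j a b) 1 +
        r2 * (expo (r * q) N j a b) 3) : ℕ) : ℝ) -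
      ((v N (swapE (expo (r * q) N j a b)) + (r1 * (swapE (expo (r * q) N j a b)) 1 +
        r2 * (swapE (expo (r * q) N j a b)) 3) : ℕ) : ℝ) =
      2 * r1 * a + 2 * r2 * b + (-(r1 * AA (r * q) N j) - r2 * BB (r * q) N j) := by
    intro N j a b h
    rw [hv, swapE_1, swapE_3, expo_0, expo_1, expo_2, expo_3]
    have h1 := (inR_iff h.1).1 h
    push_cast [Nat.cast_sub h1.1, Nat.cast_sub h1.2]
    ring
  obtain ⟨C, hC0, hC⟩ := hR.greedy hD hq hr (w := fun N e => v N e + (r1 * e 1 + r2 * e 3))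
    (w' := fun N e => v N (swapE e) + (r1 * (swapE e) 1 + r2 * (swapE e) 3))
    hm (fun N _ l c => hinv N l _ c)
    (B := 40 * (r * q : ℕ) * (r1 + r2)) (by
      intro N hN j a b h
      rw [hval N j a b h]
      have h1 := (inR_iff h.1).1 h
      have ha : (a : ℝ) ≤ AA (r * q) N j := by exact_mod_cast h1.1
      have hb : (b : ℝ) ≤ BB (r * q) N j := by exact_mod_cast h1.2
      have ha0 : (0 : ℝ) ≤ a := by positivity
      have hb0 : (0 : ℝ) ≤ b := by positivity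
      have hj := mem_JJ.2 h.1
      have hj' : |(j : ℝ)| ≤ 5 * (r * q : ℕ) * N := by exact_mod_cast h.1
      rw [abs_le] at hj'
      have hA : (AA (r * q) N j : ℝ) ≤ 40 * (r * q : ℕ) * N := by
        rw [AA_real hj]
        linarith
      have hB : (BB (r * q) N j : ℝ) ≤ 40 * (r * q : ℕ) * N := by
        rw [BB_real hj]
        linarith
      have g1 : |2 * (a : ℝ) - AA (r * q) N j| ≤ 40 * (r * q : ℕ) * N := by
        rw [abs_le]
        constructor <;> linarith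
      have g2 : |2 * (b : ℝ) - BB (r * q) N j| ≤ 40 * (r * q : ℕ) * N := by
        rw [abs_le]
        constructor <;> linarith
      calc |2 * (r1 : ℝ) * a + 2 * r2 * b + (-(r1 * AA (r * q) N j) - r2 * BB (r * q) N j)|
          = |(r1 : ℝ) * (2 * a - AA (r * q) N j) + r2 * (2 * b - BB (r * q) N j)| := by
            congr 1
            ring
        _ ≤ |(r1 : ℝ) * (2 * a - AA (r * q) N j)| + |(r2 : ℝ) * (2 * b - BB (r * q) N j)| :=
            abs_add_le _ _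
        _ = r1 * |2 * (a : ℝ) - AA (r * q) N j| + r2 * |2 * (b : ℝ) - BB (r * q) N j| := by
            rw [abs_mul, abs_mul, Nat.abs_cast, Nat.abs_cast]
        _ ≤ r1 * (40 * (r * q : ℕ) * N) + r2 * (40 * (r * q : ℕ) * N) :=
            add_le_add (mul_le_mul_of_nonneg_left g1 (by positivity))
              (mul_le_mul_of_nonneg_left g2 (by positivity))
        _ = _ := by ring)
  have hsum : ∀ N : ℕ, 4 ≤ N → ∑ j ∈ JJ (r * q) N, χ.vdim N j *
      ∑ a ∈ range (AA (r * q) N j + 1), ∑ b ∈ range (BB (r * q) N j + 1),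
      (((v N (expo (r * q) N j a b) + (r1 * (expo (r * q) N j a b) 1 +
        r2 * (expo (r * q) N j a b) 3) : ℕ) : ℝ) -
      ((v N (swapE (expo (r * q) N j a b)) + (r1 * (swapE (expo (r * q) N j a b)) 1 +
        r2 * (swapE (expo (r * q) N j a b)) 3) : ℕ) : ℝ)) *
        ((lw al be ga de N j a b : ℝ) + ((χ.lam * N : ℕ) : ℤ)) =
      ((r1 * al + r2 * be : ℤ) : ℝ) / 6 * χ.sA N := by
    intro N hN
    have e1 : ∀ j ∈ JJ (r * q) N, χ.vdim N j *
      ∑ a ∈ range (AA (r * q) N j + 1), ∑ b ∈ range (BB (r * q) N j + 1),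
      (((v N (expo (r * q) N j a b) + (r1 * (expo (r * q) N j a b) 1 +
        r2 * (expo (r * q) N j a b) 3) : ℕ) : ℝ) -
      ((v N (swapE (expo (r * q) N j a b)) + (r1 * (swapE (expo (r * q) N j a b)) 1 +
        r2 * (swapE (expo (r * q) N j a b)) 3) : ℕ) : ℝ)) *
        ((lw al be ga de N j a b : ℝ) + ((χ.lam * N : ℕ) : ℤ)) =
      (r1 * al : ℝ) / 6 * (χ.msz N j * (AA (r * q) N j * (AA (r * q) N j + 2))) +
      (r2 * be : ℝ) / 6 * (χ.msz N j * (BB (r * q) N j * (BB (r * q) N j + 2))) := by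
      intro j hj
      have e2 : ∑ a ∈ range (AA (r * q) N j + 1), ∑ b ∈ range (BB (r * q) N j + 1),
        (((v N (expo (r * q) N j a b) + (r1 * (expo (r * q) N j a b) 1 +
        r2 * (expo (r * q) N j a b) 3) : ℕ) : ℝ) -
        ((v N (swapE (expo (r * q) N j a b)) + (r1 * (swapE (expo (r * q) N j a b)) 1 +
        r2 * (swapE (expo (r * q) N j a b)) 3) : ℕ) : ℝ)) *
        ((lw al be ga de N j a b : ℝ) + ((χ.lam * N : ℕ) : ℤ)) =
        ∑ a ∈ range (AA (r * q) N j + 1), ∑ b ∈ range (BB (r * q) N j + 1),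
        (2 * (r1 : ℝ) * a + 2 * r2 * b + (-(r1 * AA (r * q) N j) - r2 * BB (r * q) N j)) *
        ((al : ℝ) * a + be * b + (ga * j + de * N + ((χ.lam * N : ℕ) : ℤ))) := by
        apply sum_congr rfl
        intro a ha
        apply sum_congr rfl
        intro b hb
        rw [hval N j a b (forall_JJ hj ha hb), lw_real]
      rw [e2, sum_bilin]
      unfold msz
      ring
    rw [sum_congr rfl e1, sum_add_distrib, ← mul_sum, ← mul_sum, χ.sA_eq hD hq hr hN]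
    unfold sA
    push_cast
    ring
  by_contra hneg
  push Not at hneg
  have h1 : ((r1 * al + r2 * be : ℤ) : ℝ) ≤ -1 := by
    have : r1 * al + r2 * be ≤ -1 := by omega
    exact_mod_cast this
  obtain ⟨n, hn⟩ := exists_nat_gt C
  have h2 := hC (n + 4) (by omega)
  rw [hsum (n + 4) (by omega)] at h2
  have h3 := χ.le_sA hD hq hr (N := n + 4) (by omega)
  have h4 : (0 : ℝ) < ((n + 4 : ℕ) : ℝ) ^ 4 := by positivity
  have h5 : C < ((n + 4 : ℕ) : ℝ) := by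
    push_cast
    linarith
  have h6 : C * ((n + 4 : ℕ) : ℝ) ^ 4 < ((n + 4 : ℕ) : ℝ) * ((n + 4 : ℕ) : ℝ) ^ 4 :=
    mul_lt_mul_of_pos_right h5 h4
  have h7 : ((n + 4 : ℕ) : ℝ) * ((n + 4 : ℕ) : ℝ) ^ 4 = ((n + 4 : ℕ) : ℝ) ^ 5 := by ring
  have h8 : (0 : ℝ) < ((n + 4 : ℕ) : ℝ) ^ 5 := by positivity
  have h9 : ((r1 * al + r2 * be : ℤ) : ℝ) / 6 * χ.sA (n + 4) ≤ -1 / 6 * χ.sA (n + 4) :=
    mul_le_mul_of_nonneg_right (by linarith) (by linarith)
  linarith

theorem Rigid.sign_lex_core {χ : Filt T q D₀ r} {m : MonomialOrder (Fin 4)}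
    {al be ga de : ℤ} (hR : χ.Rigid m al be ga de)
    (hD : T.X.deg D₀ = 105 * T.t * q) (hq : 0 < q) (hr : 0 < r)
    (hinv : ∀ N l w c,
      finrank ℂ (χ.F N l ⊓ Wle w c : Submodule ℂ (MvPolynomial (Fin 4) K)) ≤
      finrank ℂ (χ.F N l ⊓ Wle (fun e => w (swapE e)) c :
        Submodule ℂ (MvPolynomial (Fin 4) K)))
    (r1 r2 : ℕ) (v : (Fin 4 →₀ ℕ) → ℕ) (hv : ∀ e, v (swapE e) = v e)
    (hm : ∀ N, 4 ≤ N → ∀ e ∈ Eset (r * q) N, ∀ e' ∈ Eset (r * q) N, m.toSyn e' ≤ m.toSyn e →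
      v e' < v e ∨ v e' = v e ∧ r1 * e' 1 + r2 * e' 3 ≤ r1 * e 1 + r2 * e 3) :
    0 ≤ r1 * al + r2 * be := by
  refine hR.sign_core hD hq hr hinv r1 r2
    (fun N e => (∑ e ∈ Eset (r * q) N, (r1 * e 1 + r2 * e 3)) * v e)
    (fun N e => by simp only [hv e]) ?_
  intro N hN
  exact Refines.of_lex (hm N hN) (fun e he =>
    single_le_sum (f := fun e : Fin 4 →₀ ℕ => r1 * e 1 + r2 * e 3) (fun _ _ => Nat.zero_le _) he)

/-- Sign of the slopes for an order which compares first a weight `v N` invariant under the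
exchange of the coordinates (`xd` or `yd`), then `r1 * e 1 + r2 * e 3`, for a filtration stable
under `map θ ∘ subst s s'`. -/
theorem Rigid.sign_lex_map {χ : Filt T q D₀ r} {m : MonomialOrder (Fin 4)}
    {al be ga de : ℤ} (hR : χ.Rigid m al be ga de)
    (hD : T.X.deg D₀ = 105 * T.t * q) (hq : 0 < q) (hr : 0 < r)
    {s s' : Matrix (Fin 2) (Fin 2) ℂ} (hs : Anti s) (hs' : Anti s') (θ : K ≃ₐ[ℂ] K)
    (hinv : ∀ N l, ∀ f ∈ χ.F N l, MvPolynomial.map (θ : K →+* K) (subst s s' f) ∈ χ.F N l)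
    (r1 r2 : ℕ) (v : (Fin 4 →₀ ℕ) → ℕ) (hv : ∀ e, v (swapE e) = v e)
    (hm : ∀ N, 4 ≤ N → ∀ e ∈ Eset (r * q) N, ∀ e' ∈ Eset (r * q) N, m.toSyn e' ≤ m.toSyn e →
      v e' < v e ∨ v e' = v e ∧ r1 * e' 1 + r2 * e' 3 ≤ r1 * e 1 + r2 * e 3) :
    0 ≤ r1 * al + r2 * be :=
  hR.sign_lex_core hD hq hr (fun N l w c =>
    finrank_swap_map hs hs' θ (χ.finite_F N l) (hinv N l) w c) r1 r2 v hv hm

/-- Sign of the slopes for an order which compares first a weight `v N` invariant under the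
exchange of the coordinates (`xd` or `yd`), then `r1 * e 1 + r2 * e 3`. -/
theorem Rigid.sign_lex {χ : Filt T q D₀ r} {m : MonomialOrder (Fin 4)}
    {al be ga de : ℤ} (hR : χ.Rigid m al be ga de)
    (hD : T.X.deg D₀ = 105 * T.t * q) (hq : 0 < q) (hr : 0 < r)
    {s s' : Matrix (Fin 2) (Fin 2) ℂ} (hs : Anti s) (hs' : Anti s')
    (hinv : ∀ N l, ∀ f ∈ χ.F N l, subst s s' f ∈ χ.F N l)
    (r1 r2 : ℕ) (v : (Fin 4 →₀ ℕ) → ℕ) (hv : ∀ e, v (swapE e) = v e)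
    (hm : ∀ N, 4 ≤ N → ∀ e ∈ Eset (r * q) N, ∀ e' ∈ Eset (r * q) N, m.toSyn e' ≤ m.toSyn e →
      v e' < v e ∨ v e' = v e ∧ r1 * e' 1 + r2 * e' 3 ≤ r1 * e 1 + r2 * e 3) :
    0 ≤ r1 * al + r2 * be :=
  hR.sign_lex_core hD hq hr (fun N l w c =>
    finrank_swap hs hs' (χ.finite_F N l) (hinv N l) w c) r1 r2 v hv hm

end Filt

theorem xd_swapE (e : Fin 4 →₀ ℕ) : xd (swapE e) = xd e := by
  unfold xd
  rw [swapE_0, swapE_1, add_comm]

theorem yd_swapE (e : Fin 4 →₀ ℕ) : yd (swapE e) = yd e := by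
  unfold yd
  rw [swapE_2, swapE_3, add_comm]

end Pool.Agent.YTD


end

/- source: Pool.Agent.YTD.RigidSums -/

section

/-!
The total size and the second moments of a level.
-/

namespace Pool.Agent.YTD

open Module Finset MvPolynomial

theorem sum_dim_sq (q N t : ℕ) : ∑ j ∈ Icc (-((5 * q * N : ℕ) : ℤ)) ((5 * q * N : ℕ) : ℤ),
    mu q N j * dm q N t (105 * t * q) j * (j : ℝ) ^ 2 =
    t * (10068530 / 3 * (q * N : ℝ) ^ 6 + 32500 / 3 * (q * N : ℝ) ^ 5 - 151625 * (q * N : ℝ) ^ 4 -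
      64750 / 3 * (q * N : ℝ) ^ 3 - 5735 / 3 * (q * N : ℝ) ^ 2 - 42 * (q * N : ℝ)) := by
  rw [sum_even]
  · have e1 : ∑ k ∈ range (5 * q * N + 1), mu q N (k : ℤ) * dm q N t (105 * t * q) (k : ℤ) *
          (((k : ℤ) : ℝ)) ^ 2 =
        ∑ k ∈ range (5 * q * N + 1), (0 + 0 * (k : ℝ) +
          ((25 * (q : ℝ) * N + 1) ^ 2 * (105 * t * q * N - 9 * t)) * (k : ℝ) ^ 2 + 0 * (k : ℝ) ^ 3 +
          (-9 * (105 * t * q * N - 9 * t)) * (k : ℝ) ^ 4 + 0 * (k : ℝ) ^ 5) -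
        100 * t * ∑ k ∈ range (4 * (q * N) + (q * N + 1)),
          mu q N (k : ℤ) * (((k : ℤ) : ℝ)) ^ 2 * max 0 (|((k : ℤ) : ℝ)| - 4 * (q : ℝ) * N) := by
      have e0 : 4 * (q * N) + (q * N + 1) = 5 * q * N + 1 := by ring
      rw [e0, mul_sum, ← sum_sub_distrib]
      apply sum_congr rfl
      intro k _
      unfold mu dm
      push_cast
      ring
    have e2 : ∑ k ∈ range (4 * (q * N) + (q * N + 1)),
          mu q N (k : ℤ) * (((k : ℤ) : ℝ)) ^ 2 * max 0 (|((k : ℤ) : ℝ)| - 4 * (q : ℝ) * N) =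
        ∑ i ∈ range (q * N + 1), (0 +
          (((25 * (q : ℝ) * N + 1) ^ 2 - 144 * (q * N) ^ 2) * (16 * (q * N) ^ 2)) * (i : ℝ) +
          (-72 * ((q : ℝ) * N) * (16 * (q * N) ^ 2) +
            8 * (q * N) * ((25 * (q : ℝ) * N + 1) ^ 2 - 144 * (q * N) ^ 2)) * (i : ℝ) ^ 2 +
          (-9 * (16 * (q * N) ^ 2) + 8 * (q * N) * (-72 * ((q : ℝ) * N)) +
            ((25 * (q : ℝ) * N + 1) ^ 2 - 144 * (q * N) ^ 2)) * (i : ℝ) ^ 3 +
          (-72 * ((q : ℝ) * N) - 9 * (8 * (q * N))) * (i : ℝ) ^ 4 +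
          (-9) * (i : ℝ) ^ 5) := by
      rw [sum_tail]
      · apply sum_congr rfl
        intro i _
        rw [max_term']
        unfold mu
        push_cast
        ring
      · intro k hk
        rw [max_term q N hk, mul_zero]
    rw [e1, e2, sum_poly, sum_poly]
    push_cast
    ring
  · intro j
    unfold mu dm
    push_cast
    rw [abs_neg]
    ring

theorem dg_real_sub (t Q N : ℕ) (j : ℤ) :
    (dg t Q N j : ℝ) - 9 * t = dm Q N t (105 * t * Q) j := by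
  unfold dg dm
  have h : ((max 0 (j - 4 * Q * N) + max 0 (-j - 4 * Q * N) : ℤ) : ℝ) =
      max 0 (|(j : ℝ)| - 4 * Q * N) := by
    push_cast
    have hn : (0 : ℝ) ≤ 4 * Q * N := by positivity
    rcases le_total 0 (j : ℝ) with h | h
    · rw [abs_of_nonneg h, max_eq_left (by linarith : -(j : ℝ) - 4 * Q * N ≤ 0), add_zero]
    · rw [abs_of_nonpos h, max_eq_left (by linarith : (j : ℝ) - 4 * Q * N ≤ 0), zero_add]
  have e : ((105 * t * Q * N - 100 * t * (max 0 (j - 4 * Q * N) + max 0 (-j - 4 * Q * N)) : ℤ) : ℝ) =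
      105 * t * Q * N - 100 * t * ((max 0 (j - 4 * Q * N) + max 0 (-j - 4 * Q * N) : ℤ) : ℝ) := by
    push_cast
    ring
  rw [e, h]
  ring

variable {K : Type} [Field K] [Algebra ℂ K]
variable {T : Datum K} {q : ℕ} {D₀ : T.X.Pt →₀ ℤ} {r : ℕ}

namespace Filt

theorem msz_eq (χ : Filt T q D₀ r) (hD : T.X.deg D₀ = 105 * T.t * q) (hq : 0 < q) (hr : 0 < r)
    {N : ℕ} (hN : 4 ≤ N) {j : ℤ} (hj : j ∈ JJ (r * q) N) :
    χ.msz N j = mu (r * q) N j * dm (r * q) N T.t (105 * T.t * (r * q : ℕ)) j := by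
  unfold msz
  rw [χ.vdim_eq hD hq hr hN hj, dg_real_sub, AA_real hj, BB_real hj]
  unfold mu
  ring

/-- total size -/
noncomputable def s0 (χ : Filt T q D₀ r) (N : ℕ) : ℝ := ∑ j ∈ JJ (r * q) N, χ.msz N j

/-- second moment of `j` -/
noncomputable def sJ (χ : Filt T q D₀ r) (N : ℕ) : ℝ :=
  ∑ j ∈ JJ (r * q) N, χ.msz N j * (j : ℝ) ^ 2

theorem s0_eq (χ : Filt T q D₀ r) (hD : T.X.deg D₀ = 105 * T.t * q) (hq : 0 < q) (hr : 0 < r)
    {N : ℕ} (hN : 4 ≤ N) : χ.s0 N = T.t * (534650 * ((r * q : ℕ) * N : ℝ) ^ 4 -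
      5625 * ((r * q : ℕ) * N : ℝ) ^ 2 - 400 * ((r * q : ℕ) * N : ℝ) - 9) := by
  unfold s0
  rw [sum_congr rfl (fun j hj => χ.msz_eq hD hq hr hN hj)]
  have h := sum_dim (r * q) N T.t (105 * T.t * (r * q : ℕ))
  unfold JJ
  rw [h]
  ring

theorem sJ_eq (χ : Filt T q D₀ r) (hD : T.X.deg D₀ = 105 * T.t * q) (hq : 0 < q) (hr : 0 < r)
    {N : ℕ} (hN : 4 ≤ N) : χ.sJ N = T.t * (10068530 / 3 * ((r * q : ℕ) * N : ℝ) ^ 6 +
      32500 / 3 * ((r * q : ℕ) * N : ℝ) ^ 5 - 151625 * ((r * q : ℕ) * N : ℝ) ^ 4 -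
      64750 / 3 * ((r * q : ℕ) * N : ℝ) ^ 3 - 5735 / 3 * ((r * q : ℕ) * N : ℝ) ^ 2 -
      42 * ((r * q : ℕ) * N : ℝ)) := by
  unfold sJ
  rw [sum_congr rfl (fun j hj => by rw [χ.msz_eq hD hq hr hN hj])]
  exact sum_dim_sq (r * q) N T.t

theorem sA_eq' (χ : Filt T q D₀ r) (hD : T.X.deg D₀ = 105 * T.t * q) (hq : 0 < q) (hr : 0 < r)
    {N : ℕ} (hN : 4 ≤ N) : χ.sA N = (625 * ((r * q : ℕ) * N : ℝ) ^ 2 +
      50 * ((r * q : ℕ) * N : ℝ)) * χ.s0 N + 9 * χ.sJ N := by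
  have h1 := χ.sA_eq hD hq hr hN
  have h2 : 2 * χ.sA N = ∑ j ∈ JJ (r * q) N, χ.msz N j *
      (AA (r * q) N j * (AA (r * q) N j + 2)) +
      ∑ j ∈ JJ (r * q) N, χ.msz N j * (BB (r * q) N j * (BB (r * q) N j + 2)) := by
    rw [h1]
    unfold sA
    ring
  rw [← sum_add_distrib] at h2
  have h3 : ∑ j ∈ JJ (r * q) N, (χ.msz N j *
      (AA (r * q) N j * (AA (r * q) N j + 2)) +
      χ.msz N j * (BB (r * q) N j * (BB (r * q) N j + 2))) =
      (2 * (625 * ((r * q : ℕ) * N : ℝ) ^ 2 + 50 * ((r * q : ℕ) * N : ℝ))) * χ.s0 N +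
        18 * χ.sJ N := by
    unfold s0 sJ
    rw [mul_sum, mul_sum, ← sum_add_distrib]
    apply sum_congr rfl
    intro j hj
    rw [AA_real hj, BB_real hj]
    ring
  rw [h3] at h2
  linarith

/-- the odd moments vanish. -/
theorem sum_msz_odd (χ : Filt T q D₀ r) (hD : T.X.deg D₀ = 105 * T.t * q) (hq : 0 < q) (hr : 0 < r)
    {N : ℕ} (hN : 4 ≤ N) : ∑ j ∈ JJ (r * q) N, χ.msz N j * (j : ℝ) = 0 := by
  have h := sum_JJ_neg (r * q) N (fun j => χ.msz N j * (j : ℝ))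
  have h1 : ∑ j ∈ JJ (r * q) N, χ.msz N (-j) * (((-j : ℤ) : ℝ)) =
      - ∑ j ∈ JJ (r * q) N, χ.msz N j * (j : ℝ) := by
    rw [← sum_neg_distrib]
    apply sum_congr rfl
    intro j hj
    rw [χ.msz_neg hD hq hr hN hj]
    push_cast
    ring
  rw [h1] at h
  linarith

end Filt

end Pool.Agent.YTD


end

/- source: Pool.Agent.YTD.RigidTotal -/

section

/-!
The total mean and the total second moment of a rigid filtration do not depend on the order.
-/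

namespace Pool.Agent.YTD

open Module Finset MvPolynomial

variable {K : Type} [Field K] [Algebra ℂ K]
variable {T : Datum K} {q : ℕ} {D₀ : T.X.Pt →₀ ℤ} {r : ℕ}

theorem poly_b1 {z : ℝ} (hz1 : 1 ≤ z) : |(26830000 * z ^ 5 - 4880250 * z ^ 4 - 725500 * z ^ 3 -
    42830 * z ^ 2 - 828 * z) / 12| ≤ 10 ^ 8 * z ^ 5 := by
  have hz2 : z ^ 2 ≤ z ^ 5 := pow_le_pow_right₀ hz1 (by norm_num)
  have hz3 : z ^ 3 ≤ z ^ 5 := pow_le_pow_right₀ hz1 (by norm_num)
  have hz4 : z ^ 4 ≤ z ^ 5 := pow_le_pow_right₀ hz1 (by norm_num)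
  have hz5 : z ≤ z ^ 5 := by
    calc z = z ^ 1 := (pow_one z).symm
      _ ≤ z ^ 5 := pow_le_pow_right₀ hz1 (by norm_num)
  have hz0 : 0 ≤ z := by linarith
  have p2 : 0 ≤ z ^ 2 := by positivity
  have p3 : 0 ≤ z ^ 3 := by positivity
  have p4 : 0 ≤ z ^ 4 := by positivity
  have p5 : 0 ≤ z ^ 5 := by positivity
  rw [abs_le]
  constructor <;> linarith

theorem poly_b2 {z : ℝ} (hz1 : 1 ≤ z) : |(32500 / 3 * z ^ 5 - 151625 * z ^ 4 -
    64750 / 3 * z ^ 3 - 5735 / 3 * z ^ 2 - 42 * z) / 4| ≤ 10 ^ 8 * z ^ 5 := by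
  have hz2 : z ^ 2 ≤ z ^ 5 := pow_le_pow_right₀ hz1 (by norm_num)
  have hz3 : z ^ 3 ≤ z ^ 5 := pow_le_pow_right₀ hz1 (by norm_num)
  have hz4 : z ^ 4 ≤ z ^ 5 := pow_le_pow_right₀ hz1 (by norm_num)
  have hz5 : z ≤ z ^ 5 := by
    calc z = z ^ 1 := (pow_one z).symm
      _ ≤ z ^ 5 := pow_le_pow_right₀ hz1 (by norm_num)
  have hz0 : 0 ≤ z := by linarith
  have p2 : 0 ≤ z ^ 2 := by positivity
  have p3 : 0 ≤ z ^ 3 := by positivity
  have p4 : 0 ≤ z ^ 4 := by positivity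
  have p5 : 0 ≤ z ^ 5 := by positivity
  rw [abs_le]
  constructor <;> linarith

namespace Filt

theorem sum_idim (χ : Filt T q D₀ r) (m : MonomialOrder (Fin 4)) (N : ℕ) (l : ℤ) :
    ∑ j ∈ JJ (r * q) N, ∑ a ∈ range (AA (r * q) N j + 1), ∑ b ∈ range (BB (r * q) N j + 1),
      χ.idim m N l j a b = (finrank ℂ (χ.F N l) : ℝ) := by
  obtain ⟨P₀⟩ := T.exists_point_mom
  exact (T.finrank_eq_sum P₀ m (χ.F_le_sec N l)).symm

theorem sum_idim_comm (χ : Filt T q D₀ r) (m : MonomialOrder (Fin 4)) (N : ℕ) (S : Finset ℤ)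
    (φ : ℤ → ℝ) :
    ∑ j ∈ JJ (r * q) N, ∑ a ∈ range (AA (r * q) N j + 1), ∑ b ∈ range (BB (r * q) N j + 1),
      ∑ l ∈ S, φ l * χ.idim m N l j a b = ∑ l ∈ S, φ l * (finrank ℂ (χ.F N l) : ℝ) := by
  have e1 : ∑ j ∈ JJ (r * q) N, ∑ a ∈ range (AA (r * q) N j + 1),
      ∑ b ∈ range (BB (r * q) N j + 1), ∑ l ∈ S, φ l * χ.idim m N l j a b =
      ∑ l ∈ S, ∑ j ∈ JJ (r * q) N, ∑ a ∈ range (AA (r * q) N j + 1),
      ∑ b ∈ range (BB (r * q) N j + 1), φ l * χ.idim m N l j a b := by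
    symm
    rw [sum_comm]
    apply sum_congr rfl
    intro j _
    rw [sum_comm]
    apply sum_congr rfl
    intro a _
    rw [sum_comm]
  rw [e1]
  apply sum_congr rfl
  intro l _
  rw [← χ.sum_idim m N l]
  simp only [mul_sum]

/-- total moment of one filtration. -/
theorem Rigid.total {χ : Filt T q D₀ r} {m : MonomialOrder (Fin 4)} {al be ga de : ℤ}
    (hR : χ.Rigid m al be ga de) :
    ∃ C : ℝ, 0 ≤ C ∧ ∀ N : ℕ, 4 ≤ N → ∀ Λ : ℕ, χ.lam ≤ Λ →
    ∀ (φ : ℤ → ℝ) (Ω : ℝ), 0 ≤ Ω →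
    (∀ j a b l, InR (r * q) N j a b → -((Λ * N : ℕ) : ℤ) < l →
      l ≤ lw al be ga de N j a b → |φ l| ≤ Ω) →
    |∑ j ∈ JJ (r * q) N, χ.vdim N j * ∑ a ∈ range (AA (r * q) N j + 1),
      ∑ b ∈ range (BB (r * q) N j + 1),
      ∑ l ∈ Ioc (-((Λ * N : ℕ) : ℤ)) (lw al be ga de N j a b), φ l -
      ∑ l ∈ Ioc (-((Λ * N : ℕ) : ℤ)) ((Λ * N : ℕ) : ℤ), φ l * (finrank ℂ (χ.F N l) : ℝ)| ≤
      Ω * C * (N : ℝ) ^ 3 := by
  obtain ⟨C, hC0, hC⟩ := hR.moment
  refine ⟨C, hC0, ?_⟩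
  intro N hN Λ hΛ φ Ω hΩ hφ
  have h1 := hC N hN Λ hΛ (fun _ _ _ l => φ l) Ω hΩ hφ
  refine le_trans (le_of_eq ?_) ((abs_sum_le_sum_abs _ _).trans h1)
  congr 1
  rw [← χ.sum_idim_comm m]
  simp only [sum_sub_distrib, mul_sum]

/-- transfer of total moments between two rigid filtrations. -/
theorem Rigid.total_compare {χ χ' : Filt T q D₀ r} {m m' : MonomialOrder (Fin 4)}
    {al be ga de al' be' ga' de' : ℤ} (hR : χ.Rigid m al be ga de)
    (hR' : χ'.Rigid m' al' be' ga' de')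
    (hdim : ∀ N : ℕ, 4 ≤ N → ∀ l : ℤ, finrank ℂ (χ.F N l) = finrank ℂ (χ'.F N l)) :
    ∃ C : ℝ, 0 ≤ C ∧ ∀ N : ℕ, 4 ≤ N → ∀ Λ : ℕ, χ.lam ≤ Λ → χ'.lam ≤ Λ →
    ∀ (φ : ℤ → ℝ) (Ω : ℝ), 0 ≤ Ω →
    (∀ j a b l, InR (r * q) N j a b → -((Λ * N : ℕ) : ℤ) < l →
      (l ≤ lw al be ga de N j a b ∨ l ≤ lw al' be' ga' de' N j a b) → |φ l| ≤ Ω) →
    |∑ j ∈ JJ (r * q) N, χ.vdim N j * ∑ a ∈ range (AA (r * q) N j + 1),
      ∑ b ∈ range (BB (r * q) N j + 1),
      (∑ l ∈ Ioc (-((Λ * N : ℕ) : ℤ)) (lw al be ga de N j a b), φ l -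
        ∑ l ∈ Ioc (-((Λ * N : ℕ) : ℤ)) (lw al' be' ga' de' N j a b), φ l)| ≤
      Ω * C * (N : ℝ) ^ 3 := by
  obtain ⟨C, hC0, hC⟩ := hR.total
  obtain ⟨C', hC0', hC'⟩ := hR'.total
  refine ⟨C + C', by positivity, ?_⟩
  intro N hN Λ hΛ hΛ' φ Ω hΩ hφ
  have h1 := hC N hN Λ hΛ φ Ω hΩ (fun j a b l h h1 h2 => hφ j a b l h h1 (Or.inl h2))
  have h2 := hC' N hN Λ hΛ' φ Ω hΩ (fun j a b l h h1 h2 => hφ j a b l h h1 (Or.inr h2))
  have e2 : ∑ l ∈ Ioc (-((Λ * N : ℕ) : ℤ)) ((Λ * N : ℕ) : ℤ), φ l * (finrank ℂ (χ.F N l) : ℝ) =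
      ∑ l ∈ Ioc (-((Λ * N : ℕ) : ℤ)) ((Λ * N : ℕ) : ℤ), φ l * (finrank ℂ (χ'.F N l) : ℝ) := by
    apply sum_congr rfl
    intro l _
    rw [hdim N hN l]
  rw [e2] at h1
  have e4 : ∀ j, χ'.vdim N j = χ.vdim N j := fun _ => rfl
  simp only [e4] at h2
  have e3 : ∑ j ∈ JJ (r * q) N, χ.vdim N j * ∑ a ∈ range (AA (r * q) N j + 1),
      ∑ b ∈ range (BB (r * q) N j + 1),
      (∑ l ∈ Ioc (-((Λ * N : ℕ) : ℤ)) (lw al be ga de N j a b), φ l -
        ∑ l ∈ Ioc (-((Λ * N : ℕ) : ℤ)) (lw al' be' ga' de' N j a b), φ l) =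
      ∑ j ∈ JJ (r * q) N, χ.vdim N j * ∑ a ∈ range (AA (r * q) N j + 1),
      ∑ b ∈ range (BB (r * q) N j + 1),
      ∑ l ∈ Ioc (-((Λ * N : ℕ) : ℤ)) (lw al be ga de N j a b), φ l -
      ∑ j ∈ JJ (r * q) N, χ.vdim N j * ∑ a ∈ range (AA (r * q) N j + 1),
      ∑ b ∈ range (BB (r * q) N j + 1),
      ∑ l ∈ Ioc (-((Λ * N : ℕ) : ℤ)) (lw al' be' ga' de' N j a b), φ l := by
    rw [← sum_sub_distrib]
    apply sum_congr rfl
    intro j _
    simp only [sum_sub_distrib, mul_sub]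
  rw [e3]
  rw [abs_le] at h1 h2 ⊢
  have e5 : Ω * (C + C') * (N : ℝ) ^ 3 = Ω * C * (N : ℝ) ^ 3 + Ω * C' * (N : ℝ) ^ 3 := by ring
  rw [e5]
  constructor <;> linarith

theorem le_s0 (χ : Filt T q D₀ r) (hD : T.X.deg D₀ = 105 * T.t * q) (hq : 0 < q) (hr : 0 < r)
    {N : ℕ} (hN : 4 ≤ N) : 100 * (N : ℝ) ^ 3 ≤ χ.s0 N :=
  (χ.le_msz hD hq hr hN (zero_mem_JJ _ _)).trans
    (single_le_sum (f := fun j => χ.msz N j) (fun j _ => χ.msz_nonneg N j) (zero_mem_JJ _ _))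

/-- the total mean is intrinsic. -/
theorem Rigid.total_mean {χ χ' : Filt T q D₀ r} {m m' : MonomialOrder (Fin 4)}
    {al be ga de al' be' ga' de' : ℤ} (hR : χ.Rigid m al be ga de)
    (hR' : χ'.Rigid m' al' be' ga' de') (hD : T.X.deg D₀ = 105 * T.t * q) (hq : 0 < q) (hr : 0 < r)
    (hdim : ∀ N : ℕ, 4 ≤ N → ∀ l : ℤ, finrank ℂ (χ.F N l) = finrank ℂ (χ'.F N l)) :
    25 * (r * q) * (al + be) + 2 * de = 25 * (r * q) * (al' + be') + 2 * de' := by
  obtain ⟨C, hC0, hC⟩ := hR.total_compare hR' hdim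
  set Λ : ℕ := max χ.lam χ'.lam with hΛ
  have hΛ1 : χ.lam ≤ Λ := le_max_left _ _
  have hΛ2 : χ'.lam ≤ Λ := le_max_right _ _
  have hlow1 : ∀ N : ℕ, 4 ≤ N → ∀ j a b, InR (r * q) N j a b →
      -((Λ * N : ℕ) : ℤ) ≤ lw al be ga de N j a b := by
    intro N hN j a b h
    refine le_trans ?_ (hR.lower hD hq hr hN h)
    have : ((χ.lam * N : ℕ) : ℤ) ≤ ((Λ * N : ℕ) : ℤ) := by
      exact_mod_cast Nat.mul_le_mul_right N hΛ1
    push_cast at this ⊢
    linarith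
  have hlow2 : ∀ N : ℕ, 4 ≤ N → ∀ j a b, InR (r * q) N j a b →
      -((Λ * N : ℕ) : ℤ) ≤ lw al' be' ga' de' N j a b := by
    intro N hN j a b h
    refine le_trans ?_ (hR'.lower hD hq hr hN h)
    have : ((χ'.lam * N : ℕ) : ℤ) ≤ ((Λ * N : ℕ) : ℤ) := by
      exact_mod_cast Nat.mul_le_mul_right N hΛ2
    push_cast at this ⊢
    linarith
  have hY : 25 * (r * q) * (al + be) + 2 * de - (25 * (r * q) * (al' + be') + 2 * de') = 0 := by
    apply int_eq_zero_of_bdd (C := C / 50)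
    intro N hN
    have h1 := hC N hN Λ hΛ1 hΛ2 (fun _ => 1) 1 zero_le_one (fun _ _ _ _ _ _ _ => by simp)
    have e1 : ∑ j ∈ JJ (r * q) N, χ.vdim N j * ∑ a ∈ range (AA (r * q) N j + 1),
        ∑ b ∈ range (BB (r * q) N j + 1),
        (∑ _l ∈ Ioc (-((Λ * N : ℕ) : ℤ)) (lw al be ga de N j a b), (1 : ℝ) -
        ∑ _l ∈ Ioc (-((Λ * N : ℕ) : ℤ)) (lw al' be' ga' de' N j a b), (1 : ℝ)) =
        ((25 * (r * q) * (al + be) + 2 * de - (25 * (r * q) * (al' + be') + 2 * de') : ℤ) : ℝ) *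
          (N / 2 * χ.s0 N) := by
      have e2 : ∀ j ∈ JJ (r * q) N, χ.vdim N j * ∑ a ∈ range (AA (r * q) N j + 1),
        ∑ b ∈ range (BB (r * q) N j + 1),
        (∑ _l ∈ Ioc (-((Λ * N : ℕ) : ℤ)) (lw al be ga de N j a b), (1 : ℝ) -
        ∑ _l ∈ Ioc (-((Λ * N : ℕ) : ℤ)) (lw al' be' ga' de' N j a b), (1 : ℝ)) =
        (3 * ((al : ℝ) - be) + 2 * ga - (3 * (al' - be') + 2 * ga')) / 2 * (χ.msz N j * j) +
        (25 * (r * q) * ((al : ℝ) + be) + 2 * de - (25 * (r * q) * (al' + be') + 2 * de')) *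
          (N / 2) * χ.msz N j := by
        intro j hj
        have e3 : ∑ a ∈ range (AA (r * q) N j + 1), ∑ b ∈ range (BB (r * q) N j + 1),
          (∑ _l ∈ Ioc (-((Λ * N : ℕ) : ℤ)) (lw al be ga de N j a b), (1 : ℝ) -
          ∑ _l ∈ Ioc (-((Λ * N : ℕ) : ℤ)) (lw al' be' ga' de' N j a b), (1 : ℝ)) =
          ∑ a ∈ range (AA (r * q) N j + 1), ∑ b ∈ range (BB (r * q) N j + 1),
          (((al : ℝ) - al') * a + ((be : ℝ) - be') * b +
            (((ga : ℝ) - ga') * j + ((de : ℝ) - de') * N)) := by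
          apply sum_congr rfl
          intro a ha
          apply sum_congr rfl
          intro b hb
          have hin := forall_JJ hj ha hb
          rw [sum_Ioc_one (hlow1 N hN j a b hin), sum_Ioc_one (hlow2 N hN j a b hin), lw_real,
            lw_real]
          ring
        rw [e3, sum_lin]
        unfold msz
        rw [AA_real hj, BB_real hj]
        push_cast
        ring
      rw [sum_congr rfl e2, sum_add_distrib, ← mul_sum, ← mul_sum, χ.sum_msz_odd hD hq hr hN]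
      unfold s0
      push_cast
      ring
    rw [e1, abs_mul] at h1
    have h2 := χ.le_s0 hD hq hr hN
    have hNpos : (0 : ℝ) < N := by
      have : (4 : ℝ) ≤ N := by exact_mod_cast hN
      linarith
    have h3 : 50 * (N : ℝ) ^ 3 * N ≤ N / 2 * χ.s0 N := by
      have := mul_le_mul_of_nonneg_left h2 (by positivity : (0 : ℝ) ≤ N / 2)
      linarith
    rw [abs_of_nonneg (le_trans (by positivity) h3 : (0 : ℝ) ≤ N / 2 * χ.s0 N)] at h1
    have h4 := (mul_le_mul_of_nonneg_left h3 (abs_nonneg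
      ((25 * (r * q) * (al + be) + 2 * de - (25 * (r * q) * (al' + be') + 2 * de') : ℤ) : ℝ))).trans
        h1
    have h5 : (0 : ℝ) < 50 * (N : ℝ) ^ 3 := by positivity
    have h6 : |((25 * (r * q) * (al + be) + 2 * de - (25 * (r * q) * (al' + be') + 2 * de') : ℤ)
        : ℝ)| * N * (50 * (N : ℝ) ^ 3) ≤ C / 50 * (50 * (N : ℝ) ^ 3) := by
      linarith
    exact le_of_mul_le_mul_right h6 h5
  linarith

/-- the total second moment is intrinsic. -/
theorem Rigid.total_second {χ χ' : Filt T q D₀ r} {m m' : MonomialOrder (Fin 4)}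
    {al be ga de al' be' ga' de' : ℤ} (hR : χ.Rigid m al be ga de)
    (hR' : χ'.Rigid m' al' be' ga' de') (hD : T.X.deg D₀ = 105 * T.t * q) (hq : 0 < q) (hr : 0 < r)
    (hdim : ∀ N : ℕ, 4 ≤ N → ∀ l : ℤ, finrank ℂ (χ.F N l) = finrank ℂ (χ'.F N l)) :
    36436184 * (al ^ 2 + be ^ 2) + 1006853 * (3 * (al - be) + 2 * ga) ^ 2 =
    36436184 * (al' ^ 2 + be' ^ 2) + 1006853 * (3 * (al' - be') + 2 * ga') ^ 2 := by
  have hmean := hR.total_mean hR' hD hq hr hdim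
  obtain ⟨C, hC0, hC⟩ := hR.total_compare hR' hdim
  set Λ : ℕ := max χ.lam χ'.lam with hΛ
  have hΛ1 : χ.lam ≤ Λ := le_max_left _ _
  have hΛ2 : χ'.lam ≤ Λ := le_max_right _ _
  have hlow1 : ∀ N : ℕ, 4 ≤ N → ∀ j a b, InR (r * q) N j a b →
      -((Λ * N : ℕ) : ℤ) ≤ lw al be ga de N j a b := by
    intro N hN j a b h
    refine le_trans ?_ (hR.lower hD hq hr hN h)
    have : ((χ.lam * N : ℕ) : ℤ) ≤ ((Λ * N : ℕ) : ℤ) := by
      exact_mod_cast Nat.mul_le_mul_right N hΛ1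
    push_cast at this ⊢
    linarith
  have hlow2 : ∀ N : ℕ, 4 ≤ N → ∀ j a b, InR (r * q) N j a b →
      -((Λ * N : ℕ) : ℤ) ≤ lw al' be' ga' de' N j a b := by
    intro N hN j a b h
    refine le_trans ?_ (hR'.lower hD hq hr hN h)
    have : ((χ'.lam * N : ℕ) : ℤ) ≤ ((Λ * N : ℕ) : ℤ) := by
      exact_mod_cast Nat.mul_le_mul_right N hΛ2
    push_cast at this ⊢
    linarith
  obtain ⟨c, hc0, hc⟩ : ∃ c : ℝ, 0 ≤ c ∧ ∀ N : ℕ, 4 ≤ N → ∀ j a b l, InR (r * q) N j a b →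
      -((Λ * N : ℕ) : ℤ) < l →
      (l ≤ lw al be ga de N j a b ∨ l ≤ lw al' be' ga' de' N j a b) →
      |2 * ((l : ℝ) + ((Λ * N : ℕ) : ℤ)) - 1| ≤ c * N := by
    refine ⟨2 * ((40 * (r * q : ℕ) * (|(al : ℝ)| + |(be : ℝ)| + |(ga : ℝ)|) + |(de : ℝ)|) +
      (40 * (r * q : ℕ) * (|(al' : ℝ)| + |(be' : ℝ)| + |(ga' : ℝ)|) + |(de' : ℝ)|)) + 2 * Λ,
      by positivity, ?_⟩
    intro N hN j a b l hin h1 h2
    have h3 : (1 : ℝ) ≤ (l : ℝ) + ((Λ * N : ℕ) : ℤ) := by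
      have : 1 ≤ l + ((Λ * N : ℕ) : ℤ) := by omega
      exact_mod_cast this
    rw [abs_of_nonneg (by linarith)]
    have g1 := abs_lw_le al be ga de hin
    have g2 := abs_lw_le al' be' ga' de' hin
    have g3 := le_abs_self (lw al be ga de N j a b : ℝ)
    have g4 := le_abs_self (lw al' be' ga' de' N j a b : ℝ)
    have g5 := abs_nonneg (lw al be ga de N j a b : ℝ)
    have g6 := abs_nonneg (lw al' be' ga' de' N j a b : ℝ)
    have h4 : (l : ℝ) ≤ (40 * (r * q : ℕ) * (|(al : ℝ)| + |(be : ℝ)| + |(ga : ℝ)|) + |(de : ℝ)|) * N +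
      (40 * (r * q : ℕ) * (|(al' : ℝ)| + |(be' : ℝ)| + |(ga' : ℝ)|) + |(de' : ℝ)|) * N := by
      rcases h2 with h2 | h2
      · have : (l : ℝ) ≤ (lw al be ga de N j a b : ℝ) := by exact_mod_cast h2
        linarith
      · have : (l : ℝ) ≤ (lw al' be' ga' de' N j a b : ℝ) := by exact_mod_cast h2
        linarith
    push_cast at h4 ⊢
    linarith
  have hY' : (25 * (r * q) * ((al : ℝ) + be) + 2 * de -
      (25 * (r * q) * (al' + be') + 2 * de')) = 0 := by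
    have h : 25 * (r * q) * (al + be) + 2 * de - (25 * (r * q) * (al' + be') + 2 * de') = 0 := by
      linarith
    exact_mod_cast h
  -- the difference of the second moments
  have hdiff : ∀ N : ℕ, 4 ≤ N →
      |(((al : ℝ) ^ 2 + be ^ 2) - ((al' : ℝ) ^ 2 + be' ^ 2)) / 12 * χ.sA N +
        ((3 * ((al : ℝ) - be) + 2 * ga) ^ 2 - (3 * ((al' : ℝ) - be') + 2 * ga') ^ 2) / 4 * χ.sJ N|
        ≤ c * C * (N : ℝ) ^ 4 := by
    intro N hN
    have h1 := hC N hN Λ hΛ1 hΛ2 (fun l => 2 * ((l : ℝ) + ((Λ * N : ℕ) : ℤ)) - 1) (c * N)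
      (by positivity) (fun j a b l hin g1 g2 => hc N hN j a b l hin g1 g2)
    have e1 : ∑ j ∈ JJ (r * q) N, χ.vdim N j * ∑ a ∈ range (AA (r * q) N j + 1),
        ∑ b ∈ range (BB (r * q) N j + 1),
        (∑ l ∈ Ioc (-((Λ * N : ℕ) : ℤ)) (lw al be ga de N j a b),
          (2 * ((l : ℝ) + ((Λ * N : ℕ) : ℤ)) - 1) -
        ∑ l ∈ Ioc (-((Λ * N : ℕ) : ℤ)) (lw al' be' ga' de' N j a b),
          (2 * ((l : ℝ) + ((Λ * N : ℕ) : ℤ)) - 1)) =
        (((al : ℝ) ^ 2 + be ^ 2) - ((al' : ℝ) ^ 2 + be' ^ 2)) / 12 * χ.sA N +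
        ((3 * ((al : ℝ) - be) + 2 * ga) ^ 2 - (3 * ((al' : ℝ) - be') + 2 * ga') ^ 2) / 4 *
          χ.sJ N := by
      have e2 : ∀ j ∈ JJ (r * q) N, χ.vdim N j * ∑ a ∈ range (AA (r * q) N j + 1),
        ∑ b ∈ range (BB (r * q) N j + 1),
        (∑ l ∈ Ioc (-((Λ * N : ℕ) : ℤ)) (lw al be ga de N j a b),
          (2 * ((l : ℝ) + ((Λ * N : ℕ) : ℤ)) - 1) -
        ∑ l ∈ Ioc (-((Λ * N : ℕ) : ℤ)) (lw al' be' ga' de' N j a b),
          (2 * ((l : ℝ) + ((Λ * N : ℕ) : ℤ)) - 1)) =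
        ((al : ℝ) ^ 2 - al' ^ 2) / 12 * (χ.msz N j * (AA (r * q) N j * (AA (r * q) N j + 2))) +
        ((be : ℝ) ^ 2 - be' ^ 2) / 12 * (χ.msz N j * (BB (r * q) N j * (BB (r * q) N j + 2))) +
        ((3 * ((al : ℝ) - be) + 2 * ga) ^ 2 - (3 * ((al' : ℝ) - be') + 2 * ga') ^ 2) / 4 *
          (χ.msz N j * (j : ℝ) ^ 2) +
        ((3 * ((al : ℝ) - be) + 2 * ga) - (3 * ((al' : ℝ) - be') + 2 * ga')) *
          ((25 * (r * q) * ((al : ℝ) + be) + 2 * de) * N / 2 + ((Λ * N : ℕ) : ℤ)) *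
          (χ.msz N j * (j : ℝ)) := by
        intro j hj
        have e3 : ∑ a ∈ range (AA (r * q) N j + 1), ∑ b ∈ range (BB (r * q) N j + 1),
          (∑ l ∈ Ioc (-((Λ * N : ℕ) : ℤ)) (lw al be ga de N j a b),
            (2 * ((l : ℝ) + ((Λ * N : ℕ) : ℤ)) - 1) -
          ∑ l ∈ Ioc (-((Λ * N : ℕ) : ℤ)) (lw al' be' ga' de' N j a b),
            (2 * ((l : ℝ) + ((Λ * N : ℕ) : ℤ)) - 1)) =
          ∑ a ∈ range (AA (r * q) N j + 1), ∑ b ∈ range (BB (r * q) N j + 1),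
            ((al : ℝ) * a + be * b + (ga * j + de * N + ((Λ * N : ℕ) : ℤ))) *
            ((al : ℝ) * a + be * b + (ga * j + de * N + ((Λ * N : ℕ) : ℤ))) -
          ∑ a ∈ range (AA (r * q) N j + 1), ∑ b ∈ range (BB (r * q) N j + 1),
            ((al' : ℝ) * a + be' * b + (ga' * j + de' * N + ((Λ * N : ℕ) : ℤ))) *
            ((al' : ℝ) * a + be' * b + (ga' * j + de' * N + ((Λ * N : ℕ) : ℤ))) := by
          rw [← sum_sub_distrib]
          apply sum_congr rfl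
          intro a ha
          rw [← sum_sub_distrib]
          apply sum_congr rfl
          intro b hb
          have hin := forall_JJ hj ha hb
          rw [sum_Ioc_odd (hlow1 N hN j a b hin), sum_Ioc_odd (hlow2 N hN j a b hin), lw_real,
            lw_real]
          ring
        have e4 : (al : ℝ) * AA (r * q) N j / 2 + be * BB (r * q) N j / 2 +
            (ga * j + de * N + ((Λ * N : ℕ) : ℤ)) =
            (3 * ((al : ℝ) - be) + 2 * ga) / 2 * j +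
            ((25 * (r * q) * ((al : ℝ) + be) + 2 * de) * N / 2 + ((Λ * N : ℕ) : ℤ)) := by
          rw [AA_real hj, BB_real hj]
          push_cast
          ring
        have e5 : (al' : ℝ) * AA (r * q) N j / 2 + be' * BB (r * q) N j / 2 +
            (ga' * j + de' * N + ((Λ * N : ℕ) : ℤ)) =
            (3 * ((al' : ℝ) - be') + 2 * ga') / 2 * j +
            ((25 * (r * q) * ((al : ℝ) + be) + 2 * de) * N / 2 + ((Λ * N : ℕ) : ℤ)) := by
          rw [AA_real hj, BB_real hj]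
          push_cast
          linear_combination (-(N : ℝ) / 2) * hY'
        rw [e3, sum_bilin, sum_bilin, e4, e5]
        unfold msz
        ring
      rw [sum_congr rfl e2, sum_add_distrib, sum_add_distrib, sum_add_distrib, ← mul_sum,
        ← mul_sum, ← mul_sum, ← mul_sum, χ.sum_msz_odd hD hq hr hN, χ.sA_eq hD hq hr hN]
      unfold sA sJ
      ring
    rw [e1] at h1
    have h8 : c * N * C * (N : ℝ) ^ 3 = c * C * (N : ℝ) ^ 4 := by ring
    rw [h8] at h1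
    exact h1
  -- asymptotics
  set n : ℕ := r * q with hn
  have hn1 : (1 : ℝ) ≤ n := by exact_mod_cast Nat.mul_pos hr hq
  have ht1 : (1 : ℝ) ≤ T.t := by exact_mod_cast T.t_pos
  set u : ℝ := ((al : ℝ) ^ 2 + be ^ 2) - ((al' : ℝ) ^ 2 + be' ^ 2) with hu
  set v : ℝ := (3 * ((al : ℝ) - be) + 2 * ga) ^ 2 - (3 * ((al' : ℝ) - be') + 2 * ga') ^ 2 with hv
  have hzero : 36436184 * ((al ^ 2 + be ^ 2) - (al' ^ 2 + be' ^ 2)) +
      1006853 * ((3 * (al - be) + 2 * ga) ^ 2 - (3 * (al' - be') + 2 * ga') ^ 2) = 0 := by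
    apply int_eq_zero_of_bdd (C := 2 * (c * C + (|u| + |v|) * 10 ^ 9 * T.t * (n : ℝ) ^ 6))
    intro N hN
    have hN4 : (4 : ℝ) ≤ N := by exact_mod_cast hN
    have h1 := hdiff N hN
    rw [χ.sA_eq' hD hq hr hN, χ.s0_eq hD hq hr hN, χ.sJ_eq hD hq hr hN, ← hn] at h1
    set z : ℝ := (n : ℝ) * N with hz
    have hz1 : 1 ≤ z := one_le_mul_of_one_le_of_one_le hn1 (by linarith only [hN4])
    have hcast : ((36436184 * ((al ^ 2 + be ^ 2) - (al' ^ 2 + be' ^ 2)) +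
      1006853 * ((3 * (al - be) + 2 * ga) ^ 2 - (3 * (al' - be') + 2 * ga') ^ 2) : ℤ) : ℝ) =
      36436184 * u + 1006853 * v := by
      rw [hu, hv]
      push_cast
      ring
    rw [hcast]
    set g : ℝ := 36436184 * u + 1006853 * v with hg
    -- main term and remainder
    have e1 : u / 12 * ((625 * z ^ 2 + 50 * z) * (T.t * (534650 * z ^ 4 - 5625 * z ^ 2 -
        400 * z - 9)) + 9 * (T.t * (10068530 / 3 * z ^ 6 + 32500 / 3 * z ^ 5 - 151625 * z ^ 4 -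
        64750 / 3 * z ^ 3 - 5735 / 3 * z ^ 2 - 42 * z))) +
        v / 4 * (T.t * (10068530 / 3 * z ^ 6 + 32500 / 3 * z ^ 5 - 151625 * z ^ 4 -
        64750 / 3 * z ^ 3 - 5735 / 3 * z ^ 2 - 42 * z)) =
        5 / 6 * T.t * g * z ^ 6 + T.t * (u * (26830000 * z ^ 5 - 4880250 * z ^ 4 - 725500 * z ^ 3 -
          42830 * z ^ 2 - 828 * z) / 12 + v * (32500 / 3 * z ^ 5 - 151625 * z ^ 4 -
          64750 / 3 * z ^ 3 - 5735 / 3 * z ^ 2 - 42 * z) / 4) := by
      rw [hg]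
      ring
    rw [e1] at h1
    have b1 := poly_b1 hz1
    have b2 := poly_b2 hz1
    have b3 : |T.t * (u * (26830000 * z ^ 5 - 4880250 * z ^ 4 - 725500 * z ^ 3 -
          42830 * z ^ 2 - 828 * z) / 12 + v * (32500 / 3 * z ^ 5 - 151625 * z ^ 4 -
          64750 / 3 * z ^ 3 - 5735 / 3 * z ^ 2 - 42 * z) / 4)| ≤
          T.t * ((|u| + |v|) * (10 ^ 8 * z ^ 5)) := by
      rw [abs_mul, Nat.abs_cast]
      apply mul_le_mul_of_nonneg_left _ (by positivity)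
      calc _ ≤ |u * (26830000 * z ^ 5 - 4880250 * z ^ 4 - 725500 * z ^ 3 -
          42830 * z ^ 2 - 828 * z) / 12| + |v * (32500 / 3 * z ^ 5 - 151625 * z ^ 4 -
          64750 / 3 * z ^ 3 - 5735 / 3 * z ^ 2 - 42 * z) / 4| := abs_add_le _ _
        _ ≤ |u| * (10 ^ 8 * z ^ 5) + |v| * (10 ^ 8 * z ^ 5) := by
          rw [mul_div_assoc, mul_div_assoc, abs_mul, abs_mul]
          exact add_le_add (mul_le_mul_of_nonneg_left b1 (abs_nonneg _))
            (mul_le_mul_of_nonneg_left b2 (abs_nonneg _))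
        _ = _ := by ring
    have b4 : |5 / 6 * T.t * g * z ^ 6| ≤ c * C * (N : ℝ) ^ 4 +
        T.t * ((|u| + |v|) * (10 ^ 8 * z ^ 5)) := by
      have h9 := abs_sub (5 / 6 * T.t * g * z ^ 6 + T.t * (u * (26830000 * z ^ 5 -
          4880250 * z ^ 4 - 725500 * z ^ 3 -
          42830 * z ^ 2 - 828 * z) / 12 + v * (32500 / 3 * z ^ 5 - 151625 * z ^ 4 -
          64750 / 3 * z ^ 3 - 5735 / 3 * z ^ 2 - 42 * z) / 4)) (T.t * (u * (26830000 * z ^ 5 -
          4880250 * z ^ 4 - 725500 * z ^ 3 -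
          42830 * z ^ 2 - 828 * z) / 12 + v * (32500 / 3 * z ^ 5 - 151625 * z ^ 4 -
          64750 / 3 * z ^ 3 - 5735 / 3 * z ^ 2 - 42 * z) / 4))
      rw [add_sub_cancel_right] at h9
      linarith only [h9, h1, b3]
    have e2 : |5 / 6 * T.t * g * z ^ 6| = 5 / 6 * T.t * |g| * z ^ 6 := by
      rw [abs_mul, abs_mul, abs_mul, Nat.abs_cast, abs_of_nonneg (by positivity : 0 ≤ z ^ 6),
        abs_of_nonneg (by norm_num : (0 : ℝ) ≤ 5 / 6)]
    rw [e2] at b4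
    -- divide by `N ^ 5`
    have hzN : z ^ 5 = (n : ℝ) ^ 5 * (N : ℝ) ^ 5 := by rw [hz, mul_pow]
    have hz6 : (N : ℝ) ^ 6 ≤ z ^ 6 := by
      apply pow_le_pow_left₀ (by positivity)
      rw [hz]
      exact le_mul_of_one_le_left (by linarith only [hN4]) hn1
    have hg0 := abs_nonneg g
    have b5 : 5 / 6 * |g| * (N : ℝ) ^ 6 ≤ 5 / 6 * T.t * |g| * z ^ 6 := by
      have : 5 / 6 * |g| * (N : ℝ) ^ 6 ≤ 5 / 6 * |g| * z ^ 6 :=
        mul_le_mul_of_nonneg_left hz6 (by positivity)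
      have h10 : 5 / 6 * |g| * z ^ 6 * 1 ≤ 5 / 6 * |g| * z ^ 6 * T.t :=
        mul_le_mul_of_nonneg_left ht1 (by positivity)
      linarith only [this, h10]
    have hn5 : (n : ℝ) ^ 5 ≤ (n : ℝ) ^ 6 := pow_le_pow_right₀ hn1 (by norm_num)
    have b6 : T.t * ((|u| + |v|) * (10 ^ 8 * z ^ 5)) ≤
        (|u| + |v|) * 10 ^ 8 * T.t * (n : ℝ) ^ 6 * (N : ℝ) ^ 5 := by
      rw [hzN]
      have : (|u| + |v|) * 10 ^ 8 * T.t * (N : ℝ) ^ 5 * (n : ℝ) ^ 5 ≤
        (|u| + |v|) * 10 ^ 8 * T.t * (N : ℝ) ^ 5 * (n : ℝ) ^ 6 :=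
        mul_le_mul_of_nonneg_left hn5 (by positivity)
      linarith only [this]
    have b7 : c * C * (N : ℝ) ^ 4 ≤ c * C * (N : ℝ) ^ 5 := by
      apply mul_le_mul_of_nonneg_left _ (by positivity)
      exact pow_le_pow_right₀ (by linarith) (by norm_num)
    have b8 : 5 / 6 * |g| * N * (N : ℝ) ^ 5 ≤
        (c * C + (|u| + |v|) * 10 ^ 8 * T.t * (n : ℝ) ^ 6) * (N : ℝ) ^ 5 := by
      have e : 5 / 6 * |g| * N * (N : ℝ) ^ 5 = 5 / 6 * |g| * (N : ℝ) ^ 6 := by ring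
      rw [e]
      linarith only [b4, b5, b6, b7]
    have b9 : 5 / 6 * |g| * N ≤ c * C + (|u| + |v|) * 10 ^ 8 * T.t * (n : ℝ) ^ 6 :=
      le_of_mul_le_mul_right b8 (by positivity)
    have b10 : (0 : ℝ) ≤ (|u| + |v|) * 10 ^ 8 * T.t * (n : ℝ) ^ 6 := by positivity
    have b11 : (0 : ℝ) ≤ c * C := by positivity
    linarith only [b9, b10, b11]
  linarith

end Filt

end Pool.Agent.YTD


end

/- source: Pool.Agent.YTD.RigidRange -/

section

/-!
The maximum and the minimum over the polytope of a rigid filtration do not depend on the order.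
-/

namespace Pool.Agent.YTD

open Module Finset MvPolynomial

variable {K : Type} [Field K] [Algebra ℂ K]
variable {T : Datum K} {q : ℕ} {D₀ : T.X.Pt →₀ ℤ} {r : ℕ}

theorem sum_shift_int {f : ℤ → ℝ} {S : Finset ℤ} {c : ℤ} {s : ℕ}
    (h : ∀ i : ℕ, i ≤ s → c + i ∈ S) (hf : ∀ j ∈ S, 0 ≤ f j) :
    ∑ i ∈ range (s + 1), f (c + i) ≤ ∑ j ∈ S, f j := by
  classical
  have h1 : ∑ i ∈ range (s + 1), f (c + i) =
      ∑ j ∈ (range (s + 1)).image (fun i : ℕ => c + (i : ℤ)), f j := by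
    rw [sum_image]
    intro i _ i' _ h
    simp only at h
    omega
  rw [h1]
  apply sum_le_sum_of_subset_of_nonneg
  · intro j hj
    obtain ⟨i, hi, rfl⟩ := mem_image.1 hj
    exact h i (Nat.lt_succ_iff.1 (mem_range.1 hi))
  · intro j hj _
    exact hf j hj

theorem sum_shift_nat {f : ℕ → ℝ} {M c s : ℕ}
    (h : c + s ≤ M) (hf : ∀ j ∈ range (M + 1), 0 ≤ f j) :
    ∑ i ∈ range (s + 1), f (c + i) ≤ ∑ j ∈ range (M + 1), f j := by
  classical
  have h1 : ∑ i ∈ range (s + 1), f (c + i) =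
      ∑ j ∈ (range (s + 1)).image (fun i : ℕ => c + i), f j := by
    rw [sum_image]
    intro i _ i' _ h
    simp only at h
    omega
  rw [h1]
  apply sum_le_sum_of_subset_of_nonneg
  · intro j hj
    obtain ⟨i, hi, rfl⟩ := mem_image.1 hj
    have := mem_range.1 hi
    rw [mem_range]
    omega
  · intro j hj _
    exact hf j hj

namespace Filt

/-- A linear form whose positive part is small is non-positive. -/
theorem nonpos_of_sum_le (χ : Filt T q D₀ r) (hD : T.X.deg D₀ = 105 * T.t * q) (hq : 0 < q)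
    (hr : 0 < r) {al be ga de : ℤ} {C : ℝ}
    (hC : ∀ N : ℕ, 4 ≤ N → ∑ j ∈ JJ (r * q) N, χ.vdim N j *
      ∑ a ∈ range (AA (r * q) N j + 1), ∑ b ∈ range (BB (r * q) N j + 1),
        max 0 (lw al be ga de N j a b : ℝ) ≤ C * (N : ℝ) ^ 3)
    {N : ℕ} {j : ℤ} {a b : ℕ} (h : InR (r * q) N j a b) : lw al be ga de N j a b ≤ 0 := by
  by_contra hneg
  push Not at hneg
  have hrq : 0 < r * q := Nat.mul_pos hr hq
  obtain ⟨c, hc⟩ : ∃ c : ℕ, |al| + |be| + |ga| + |de| ≤ c :=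
    ⟨(|al| + |be| + |ga| + |de|).toNat, by
      rw [Int.toNat_of_nonneg (by positivity)]⟩
  -- parameters
  set k : ℕ → ℕ := fun s => (c + 1) * s with hk
  set M : ℕ := (c + 1) * N + 1 with hM
  obtain ⟨s0, hs0⟩ := exists_nat_gt (C * (M : ℝ) ^ 3)
  set s : ℕ := s0 + 4 with hs
  have hs4 : 4 ≤ s := by omega
  have hlev : k s * N + s = M * s := by
    rw [hk, hM]
    ring
  have hM1 : 1 ≤ M := by omega
  have hL4 : 4 ≤ M * s := by nlinarith
  have hbound := hC (M * s) hL4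
  have hin : ∀ x y z : ℕ, x ≤ s → y ≤ s → z ≤ s →
      InR (r * q) (M * s) (k s * j + x) (k s * a + y) (k s * b + z) := by
    intro x y z hx hy hz
    rw [← hlev]
    exact (h.smul (k s)).add (inR_box hrq hx hy hz)
  have hlow : ∀ x y z : ℕ, x ≤ s → y ≤ s → z ≤ s →
      (s : ℝ) ≤ max 0 (lw al be ga de (M * s) (k s * j + x) (k s * a + y) (k s * b + z) : ℝ) := by
    intro x y z hx hy hz
    have e1 : lw al be ga de (M * s) (k s * j + x) (k s * a + y) (k s * b + z) =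
        k s * lw al be ga de N j a b + lw al be ga de s (x : ℤ) y z := by
      rw [← hlev, lw_add, lw_smul]
    have e2 : -(s * (c : ℤ)) ≤ lw al be ga de s (x : ℤ) y z := by
      have h1 := lw_le_box (-al) (-be) (-ga) (-de) s hx hy hz
      have h2 : lw (-al) (-be) (-ga) (-de) s (x : ℤ) y z = - lw al be ga de s (x : ℤ) y z := by
        unfold lw
        ring
      rw [h2, abs_neg, abs_neg, abs_neg, abs_neg] at h1
      have h3 : (s : ℤ) * (|al| + |be| + |ga| + |de|) ≤ s * c :=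
        mul_le_mul_of_nonneg_left hc (by positivity)
      linarith
    have e3 : (s : ℤ) ≤ lw al be ga de (M * s) (k s * j + x) (k s * a + y) (k s * b + z) := by
      rw [e1]
      have h1 : (k s : ℤ) * 1 ≤ k s * lw al be ga de N j a b :=
        mul_le_mul_of_nonneg_left hneg (by positivity)
      have h2 : (k s : ℤ) = (c + 1) * s := by
        rw [hk]
        push_cast
        ring
      rw [h2] at h1 ⊢
      linarith
    refine le_trans ?_ (le_max_right _ _)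
    exact_mod_cast e3
  have hsum : (s : ℝ) ^ 3 * (s * s) ≤ ∑ j ∈ JJ (r * q) (M * s), χ.vdim (M * s) j *
      ∑ a ∈ range (AA (r * q) (M * s) j + 1), ∑ b ∈ range (BB (r * q) (M * s) j + 1),
        max 0 (lw al be ga de (M * s) j a b : ℝ) := by
    have hvpos : ∀ j, 0 ≤ χ.vdim (M * s) j := fun _ => by
      unfold vdim
      positivity
    have g1 := sum_shift_int (f := fun j => χ.vdim (M * s) j *
      ∑ a ∈ range (AA (r * q) (M * s) j + 1), ∑ b ∈ range (BB (r * q) (M * s) j + 1),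
        max 0 (lw al be ga de (M * s) j a b : ℝ)) (S := JJ (r * q) (M * s)) (c := k s * j) (s := s)
      (fun x hx => mem_JJ.2 (hin x 0 0 hx (Nat.zero_le _) (Nat.zero_le _)).1)
      (fun j _ => mul_nonneg (hvpos j) (sum_nonneg fun _ _ => sum_nonneg fun _ _ =>
        le_max_left _ _))
    refine le_trans ?_ g1
    have g2 : ∀ x ∈ range (s + 1), (s : ℝ) ^ 2 * (s * s) ≤ χ.vdim (M * s) (k s * j + x) *
      ∑ a ∈ range (AA (r * q) (M * s) (k s * j + x) + 1),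
        ∑ b ∈ range (BB (r * q) (M * s) (k s * j + x) + 1),
        max 0 (lw al be ga de (M * s) (k s * j + x) a b : ℝ) := by
      intro x hx
      have hx' : x ≤ s := Nat.lt_succ_iff.1 (mem_range.1 hx)
      have hj := mem_JJ.2 (hin x 0 0 hx' (Nat.zero_le _) (Nat.zero_le _)).1
      have g3 := χ.le_vdim hD hq hr hL4 hj
      have hMs : (s : ℝ) ≤ ((M * s : ℕ) : ℝ) := by
        exact_mod_cast Nat.le_mul_of_pos_left s hM1
      have g4 : (s : ℝ) ≤ χ.vdim (M * s) (k s * j + x) := hMs.trans g3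
      have g5 : (s : ℝ) ^ 2 * s ≤ ∑ a ∈ range (AA (r * q) (M * s) (k s * j + x) + 1),
        ∑ b ∈ range (BB (r * q) (M * s) (k s * j + x) + 1),
        max 0 (lw al be ga de (M * s) (k s * j + x) a b : ℝ) := by
        have hAle : k s * a + s ≤ AA (r * q) (M * s) (k s * j + x) :=
          ((inR_iff (mem_JJ.1 hj)).1 (hin x s 0 hx' le_rfl (Nat.zero_le _))).1
        have g6 := sum_shift_nat (f := fun a =>
          ∑ b ∈ range (BB (r * q) (M * s) (k s * j + x) + 1),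
          max 0 (lw al be ga de (M * s) (k s * j + x) a b : ℝ)) hAle
          (fun _ _ => sum_nonneg fun _ _ => le_max_left _ _)
        refine le_trans ?_ g6
        have g7 : ∀ y ∈ range (s + 1), (s : ℝ) * s ≤
          ∑ b ∈ range (BB (r * q) (M * s) (k s * j + x) + 1),
          max 0 (lw al be ga de (M * s) (k s * j + x) (k s * a + y) b : ℝ) := by
          intro y hy
          have hy' : y ≤ s := Nat.lt_succ_iff.1 (mem_range.1 hy)
          have hBle : k s * b + s ≤ BB (r * q) (M * s) (k s * j + x) :=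
            ((inR_iff (mem_JJ.1 hj)).1 (hin x 0 s hx' (Nat.zero_le _) le_rfl)).2
          have g8 := sum_shift_nat (f := fun b =>
            max 0 (lw al be ga de (M * s) (k s * j + x) (k s * a + y) b : ℝ)) hBle
            (fun _ _ => le_max_left _ _)
          refine le_trans ?_ g8
          have g9 : ∑ _z ∈ range (s + 1), (s : ℝ) ≤ ∑ z ∈ range (s + 1),
              max 0 (lw al be ga de (M * s) (k s * j + x) (k s * a + y) (k s * b + z) : ℝ) :=
            sum_le_sum fun z hz => hlow x y z hx' hy' (Nat.lt_succ_iff.1 (mem_range.1 hz))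
          refine le_trans ?_ g9
          rw [sum_const, card_range, nsmul_eq_mul]
          push_cast
          have : (0 : ℝ) ≤ s := by positivity
          nlinarith
        refine le_trans ?_ (sum_le_sum g7)
        rw [sum_const, card_range, nsmul_eq_mul]
        push_cast
        have : (0 : ℝ) ≤ s * s := by positivity
        nlinarith
      calc (s : ℝ) ^ 2 * (s * s) = s * (s ^ 2 * s) := by ring
        _ ≤ _ := mul_le_mul g4 g5 (by positivity) (hvpos _)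
    refine le_trans ?_ (sum_le_sum g2)
    rw [sum_const, card_range, nsmul_eq_mul]
    push_cast
    have : (0 : ℝ) ≤ s ^ 2 * (s * s) := by positivity
    nlinarith
  have h1 := hsum.trans hbound
  have hspos : (0 : ℝ) < (s : ℝ) ^ 3 := by positivity
  have h2 : (s : ℝ) ^ 3 * (s * s) ≤ (s : ℝ) ^ 3 * (C * (M : ℝ) ^ 3) := by
    push_cast at h1
    calc _ ≤ _ := h1
      _ = _ := by ring
  have h3 : (s : ℝ) * s ≤ C * (M : ℝ) ^ 3 := le_of_mul_le_mul_left h2 hspos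
  have h4 : (s0 : ℝ) + 4 = s := by
    rw [hs]
    push_cast
    ring
  have h5 : (4 : ℝ) ≤ s := by exact_mod_cast hs4
  nlinarith

/-- number of `l` above a level -/
theorem sum_Ioc_gt {c L M : ℤ} (hM : -c ≤ M) :
    ∑ l ∈ Ioc (-c) L, (if M < l then (1 : ℝ) else 0) = max 0 ((L : ℝ) - M) := by
  rw [← sum_filter]
  have h1 : (Ioc (-c) L).filter (fun l => M < l) = Ioc M L := by
    ext l
    rw [mem_filter, mem_Ioc, mem_Ioc]
    omega
  rw [h1, sum_const, Int.card_Ioc, nsmul_eq_mul, mul_one]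
  have h2 : (((L - M).toNat : ℕ) : ℝ) = (((L - M).toNat : ℤ) : ℝ) := by push_cast; rfl
  rw [h2, Int.toNat_eq_max]
  push_cast
  rw [max_comm]

/-- The maximum is intrinsic. -/
theorem Rigid.max_le {χ χ' : Filt T q D₀ r} {m m' : MonomialOrder (Fin 4)}
    {al be ga de al' be' ga' de' : ℤ} (hR : χ.Rigid m al be ga de)
    (hR' : χ'.Rigid m' al' be' ga' de') (hD : T.X.deg D₀ = 105 * T.t * q) (hq : 0 < q) (hr : 0 < r)
    (hdim : ∀ N : ℕ, 4 ≤ N → ∀ l : ℤ, finrank ℂ (χ.F N l) = finrank ℂ (χ'.F N l)) {M : ℤ}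
    (hM : ∀ N j a b, InR (r * q) N j a b → lw al' be' ga' de' N j a b ≤ M * N)
    {N : ℕ} {j : ℤ} {a b : ℕ} (h : InR (r * q) N j a b) : lw al be ga de N j a b ≤ M * N := by
  obtain ⟨C, hC0, hC⟩ := hR.total_compare hR' hdim
  have key := χ.nonpos_of_sum_le hD hq hr (al := al) (be := be) (ga := ga) (de := de - M)
    (C := C) (by
      intro N hN
      set Λ : ℕ := max χ.lam χ'.lam with hΛ
      have hΛ1 : χ.lam ≤ Λ := le_max_left _ _
      have hΛ2 : χ'.lam ≤ Λ := le_max_right _ _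
      have hMN : -((Λ * N : ℕ) : ℤ) ≤ M * N := by
        have h00 : (0 : ℤ) ≤ 25 * ((r * q : ℕ) : ℤ) * N := by positivity
        have h0 : InR (r * q) N 0 0 0 :=
          ⟨by rw [abs_zero]; positivity, by simpa using h00, by simpa using h00⟩
        have h1 := hR'.lower hD hq hr hN h0
        have h2 := hM N 0 0 0 h0
        have : ((χ'.lam * N : ℕ) : ℤ) ≤ ((Λ * N : ℕ) : ℤ) := by
          exact_mod_cast Nat.mul_le_mul_right N hΛ2
        push_cast at this ⊢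
        linarith
      have h1 := hC N hN Λ hΛ1 hΛ2 (fun l => if M * N < l then 1 else 0) 1 zero_le_one
        (fun _ _ _ l _ _ _ => by split_ifs <;> simp)
      rw [one_mul] at h1
      refine le_trans (le_of_eq ?_) ((le_abs_self _).trans h1)
      apply sum_congr rfl
      intro j hj
      congr 1
      apply sum_congr rfl
      intro a ha
      apply sum_congr rfl
      intro b hb
      have hin := forall_JJ hj ha hb
      rw [sum_Ioc_gt hMN, sum_Ioc_gt hMN]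
      have h2 : ((lw al' be' ga' de' N j a b : ℝ) - ((M * N : ℤ) : ℝ)) ≤ 0 := by
        have := hM N j a b hin
        have h3 : (lw al' be' ga' de' N j a b : ℝ) ≤ ((M * N : ℤ) : ℝ) := by exact_mod_cast this
        linarith
      rw [max_eq_left h2, sub_zero]
      congr 1
      unfold lw
      push_cast
      ring) h
  have e : lw al be ga (de - M) N j a b = lw al be ga de N j a b - M * N := by
    unfold lw
    ring
  rw [e] at key
  linarith

/-- The minimum is intrinsic. -/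
theorem Rigid.min_le {χ χ' : Filt T q D₀ r} {m m' : MonomialOrder (Fin 4)}
    {al be ga de al' be' ga' de' : ℤ} (hR : χ.Rigid m al be ga de)
    (hR' : χ'.Rigid m' al' be' ga' de') (hD : T.X.deg D₀ = 105 * T.t * q) (hq : 0 < q) (hr : 0 < r)
    (hdim : ∀ N : ℕ, 4 ≤ N → ∀ l : ℤ, finrank ℂ (χ.F N l) = finrank ℂ (χ'.F N l)) {M : ℤ}
    (hM : ∀ N j a b, InR (r * q) N j a b → M * N ≤ lw al' be' ga' de' N j a b)
    {N : ℕ} {j : ℤ} {a b : ℕ} (h : InR (r * q) N j a b) : M * N ≤ lw al be ga de N j a b := by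
  obtain ⟨C, hC0, hC⟩ := hR.total_compare hR' hdim
  have key := χ.nonpos_of_sum_le hD hq hr (al := -al) (be := -be) (ga := -ga) (de := M - de)
    (C := C) (by
      intro N hN
      set Λ : ℕ := max (max χ.lam χ'.lam) M.natAbs with hΛ
      have hΛ1 : χ.lam ≤ Λ := (le_max_left _ _).trans (le_max_left _ _)
      have hΛ2 : χ'.lam ≤ Λ := (le_max_right _ _).trans (le_max_left _ _)
      have hΛ3 : M.natAbs ≤ Λ := le_max_right _ _
      have hMN : -((Λ * N : ℕ) : ℤ) ≤ M * N := by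
        have h4 : -(Λ : ℤ) ≤ M := by omega
        have h5 : -(Λ : ℤ) * N ≤ M * N := mul_le_mul_of_nonneg_right h4 (by positivity)
        push_cast
        linarith
      have hlow1 : ∀ j a b, InR (r * q) N j a b →
          -((Λ * N : ℕ) : ℤ) ≤ lw al be ga de N j a b := by
        intro j a b h
        refine le_trans ?_ (hR.lower hD hq hr hN h)
        have : ((χ.lam * N : ℕ) : ℤ) ≤ ((Λ * N : ℕ) : ℤ) := by
          exact_mod_cast Nat.mul_le_mul_right N hΛ1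
        push_cast at this ⊢
        linarith
      have hlow2 : ∀ j a b, InR (r * q) N j a b →
          -((Λ * N : ℕ) : ℤ) ≤ lw al' be' ga' de' N j a b := by
        intro j a b h
        refine le_trans ?_ (hR'.lower hD hq hr hN h)
        have : ((χ'.lam * N : ℕ) : ℤ) ≤ ((Λ * N : ℕ) : ℤ) := by
          exact_mod_cast Nat.mul_le_mul_right N hΛ2
        push_cast at this ⊢
        linarith
      have h1 := hC N hN Λ hΛ1 hΛ2 (fun l => 1 - if M * N < l then 1 else 0) 1 zero_le_one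
        (fun _ _ _ l _ _ _ => by split_ifs <;> simp)
      rw [one_mul] at h1
      refine le_trans (le_of_eq ?_) ((neg_le_abs _).trans h1)
      rw [← sum_neg_distrib]
      apply sum_congr rfl
      intro j hj
      rw [← mul_neg, ← sum_neg_distrib]
      congr 1
      apply sum_congr rfl
      intro a ha
      rw [← sum_neg_distrib]
      apply sum_congr rfl
      intro b hb
      have hin := forall_JJ hj ha hb
      rw [sum_sub_distrib, sum_sub_distrib, sum_Ioc_gt hMN, sum_Ioc_gt hMN,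
        sum_Ioc_one (hlow1 j a b hin), sum_Ioc_one (hlow2 j a b hin)]
      have h2 : 0 ≤ ((lw al' be' ga' de' N j a b : ℝ) - ((M * N : ℤ) : ℝ)) := by
        have := hM N j a b hin
        have h3 : ((M * N : ℤ) : ℝ) ≤ (lw al' be' ga' de' N j a b : ℝ) := by exact_mod_cast this
        linarith
      rw [max_eq_right h2]
      have e : (lw (-al) (-be) (-ga) (M - de) N j a b : ℝ) =
          -((lw al be ga de N j a b : ℝ) - ((M * N : ℤ) : ℝ)) := by
        unfold lw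
        push_cast
        ring
      rw [e]
      rcases le_total 0 ((lw al be ga de N j a b : ℝ) - ((M * N : ℤ) : ℝ)) with h4 | h4
      · rw [max_eq_left (by linarith), max_eq_right h4]
        ring
      · rw [max_eq_right (by linarith), max_eq_left h4]
        ring) h
  have e : lw (-al) (-be) (-ga) (M - de) N j a b = M * N - lw al be ga de N j a b := by
    unfold lw
    ring
  rw [e] at key
  linarith

end Filt

end Pool.Agent.YTD


end

/- source: Pool.Agent.YTD.RigidWx -/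

section

/-!
Comparison of the order `wx` with the orders in which small `j` come first.
-/

namespace Pool.Agent.YTD

open Module Finset MvPolynomial

variable {K : Type} [Field K] [Algebra ℂ K]
variable {T : Datum K} {q : ℕ} {D₀ : T.X.Pt →₀ ℤ} {r : ℕ}

namespace Filt

/-- Greedy inequality for two orders. -/
theorem Rigid.greedy_two {χ : Filt T q D₀ r} {m m' : MonomialOrder (Fin 4)}
    {al be ga de al' be' ga' de' : ℤ} (hR : χ.Rigid m al be ga de)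
    (hR' : χ.Rigid m' al' be' ga' de')
    (hD : T.X.deg D₀ = 105 * T.t * q) (hq : 0 < q) (hr : 0 < r)
    {w : ℕ → (Fin 4 →₀ ℕ) → ℕ} (hm : ∀ N, 4 ≤ N → Refines m (w N) (Eset (r * q) N))
    {B : ℝ} (hB : ∀ N, 4 ≤ N → ∀ j a b, InR (r * q) N j a b →
      (w N (expo (r * q) N j a b) : ℝ) ≤ B * N) :
    ∃ C : ℝ, 0 ≤ C ∧ ∀ N : ℕ, 4 ≤ N → -(C * (N : ℝ) ^ 4) ≤
      ∑ j ∈ JJ (r * q) N, χ.vdim N j * ∑ a ∈ range (AA (r * q) N j + 1),
      ∑ b ∈ range (BB (r * q) N j + 1), (w N (expo (r * q) N j a b) : ℝ) *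
        ((lw al be ga de N j a b : ℝ) - (lw al' be' ga' de' N j a b : ℝ)) := by
  obtain ⟨C, hC0, hC⟩ := hR.moment
  obtain ⟨C', hC0', hC'⟩ := hR'.moment
  refine ⟨max B 0 * (C + C'), by positivity, ?_⟩
  intro N hN
  have hφ : ∀ j a b, InR (r * q) N j a b →
      |(w N (expo (r * q) N j a b) : ℝ)| ≤ max B 0 * N := by
    intro j a b h
    rw [Nat.abs_cast]
    exact (hB N hN j a b h).trans (mul_le_mul_of_nonneg_right (le_max_left _ _) (by positivity))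
  have h1 := hC N hN χ.lam le_rfl (fun j a b _ => (w N (expo (r * q) N j a b) : ℝ))
    (max B 0 * N) (by positivity) (fun j a b l h _ _ => hφ j a b h)
  have h1' := hC' N hN χ.lam le_rfl (fun j a b _ => (w N (expo (r * q) N j a b) : ℝ))
    (max B 0 * N) (by positivity) (fun j a b l h _ _ => hφ j a b h)
  have h2 : ∀ l : ℤ, ∑ j ∈ JJ (r * q) N, ∑ a ∈ range (AA (r * q) N j + 1),
      ∑ b ∈ range (BB (r * q) N j + 1),
      (w N (expo (r * q) N j a b) : ℝ) * χ.idim m' N l j a b ≤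
      ∑ j ∈ JJ (r * q) N, ∑ a ∈ range (AA (r * q) N j + 1),
      ∑ b ∈ range (BB (r * q) N j + 1),
      (w N (expo (r * q) N j a b) : ℝ) * χ.idim m N l j a b := by
    intro l
    have h3 := greedy' m m' (χ.finite_F N l) (χ.finite_F N l) (hm N hN) χ.F_exp χ.F_exp rfl
      (fun c => le_rfl)
    have h4 : ((∑ e ∈ Eset (r * q) N, w N e * finrank ℂ (ini m' (χ.F N l) e) : ℕ) : ℝ) ≤
        ((∑ e ∈ Eset (r * q) N, w N e * finrank ℂ (ini m (χ.F N l) e) : ℕ) : ℝ) := by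
      exact_mod_cast h3
    push_cast at h4
    rw [χ.sum_Eset_idim m N l (fun e => (w N e : ℝ)),
      χ.sum_Eset_idim m' N l (fun e => (w N e : ℝ))] at h4
    exact h4
  have hcomm : ∀ d : ℤ → ℤ → ℕ → ℕ → ℝ, ∑ j ∈ JJ (r * q) N, ∑ a ∈ range (AA (r * q) N j + 1),
      ∑ b ∈ range (BB (r * q) N j + 1),
      ∑ l ∈ Ioc (-((χ.lam * N : ℕ) : ℤ)) ((χ.lam * N : ℕ) : ℤ), d l j a b =
      ∑ l ∈ Ioc (-((χ.lam * N : ℕ) : ℤ)) ((χ.lam * N : ℕ) : ℤ),
        ∑ j ∈ JJ (r * q) N, ∑ a ∈ range (AA (r * q) N j + 1),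
        ∑ b ∈ range (BB (r * q) N j + 1), d l j a b := by
    intro d
    symm
    rw [sum_comm]
    apply sum_congr rfl
    intro j _
    rw [sum_comm]
    apply sum_congr rfl
    intro a _
    rw [sum_comm]
  have h5 : ∑ j ∈ JJ (r * q) N, ∑ a ∈ range (AA (r * q) N j + 1),
      ∑ b ∈ range (BB (r * q) N j + 1),
      ∑ l ∈ Ioc (-((χ.lam * N : ℕ) : ℤ)) ((χ.lam * N : ℕ) : ℤ),
      (w N (expo (r * q) N j a b) : ℝ) * χ.idim m' N l j a b ≤
      ∑ j ∈ JJ (r * q) N, ∑ a ∈ range (AA (r * q) N j + 1),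
      ∑ b ∈ range (BB (r * q) N j + 1),
      ∑ l ∈ Ioc (-((χ.lam * N : ℕ) : ℤ)) ((χ.lam * N : ℕ) : ℤ),
      (w N (expo (r * q) N j a b) : ℝ) * χ.idim m N l j a b := by
    rw [hcomm (fun l j a b => (w N (expo (r * q) N j a b) : ℝ) * χ.idim m' N l j a b),
      hcomm (fun l j a b => (w N (expo (r * q) N j a b) : ℝ) * χ.idim m N l j a b)]
    exact sum_le_sum fun l _ => h2 l
  have e2 : ∀ {al be ga de : ℤ}, (∀ j a b, InR (r * q) N j a b →
      -((χ.lam : ℤ) * N) ≤ lw al be ga de N j a b) →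
      ∑ j ∈ JJ (r * q) N, ∑ a ∈ range (AA (r * q) N j + 1),
      ∑ b ∈ range (BB (r * q) N j + 1), χ.vdim N j *
      ∑ _l ∈ Ioc (-((χ.lam * N : ℕ) : ℤ)) (lw al be ga de N j a b),
        (w N (expo (r * q) N j a b) : ℝ) =
      ∑ j ∈ JJ (r * q) N, χ.vdim N j * ∑ a ∈ range (AA (r * q) N j + 1),
      ∑ b ∈ range (BB (r * q) N j + 1), (w N (expo (r * q) N j a b) : ℝ) *
        ((lw al be ga de N j a b : ℝ) + ((χ.lam * N : ℕ) : ℤ)) := by
    intro al be ga de hlow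
    apply sum_congr rfl
    intro j hj
    rw [mul_sum]
    apply sum_congr rfl
    intro a ha
    rw [mul_sum]
    apply sum_congr rfl
    intro b hb
    have h6 := sum_Ioc_one (c := ((χ.lam * N : ℕ) : ℤ)) (L := lw al be ga de N j a b) (by
      have := hlow j a b (forall_JJ hj ha hb)
      push_cast
      linarith)
    rw [← h6, mul_sum]
    simp
    ring
  have h7 := (abs_le.1 ((abs_sum_le_sum_abs _ _).trans h1)).1
  have h7' := (abs_le.1 ((abs_sum_le_sum_abs _ _).trans h1')).2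
  simp only [sum_sub_distrib] at h7 h7'
  rw [e2 (fun j a b h => hR.lower hD hq hr hN h)] at h7
  rw [e2 (fun j a b h => hR'.lower hD hq hr hN h)] at h7'
  have e3 : ∑ j ∈ JJ (r * q) N, χ.vdim N j * ∑ a ∈ range (AA (r * q) N j + 1),
      ∑ b ∈ range (BB (r * q) N j + 1), (w N (expo (r * q) N j a b) : ℝ) *
        ((lw al be ga de N j a b : ℝ) - (lw al' be' ga' de' N j a b : ℝ)) =
      ∑ j ∈ JJ (r * q) N, χ.vdim N j * ∑ a ∈ range (AA (r * q) N j + 1),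
      ∑ b ∈ range (BB (r * q) N j + 1), (w N (expo (r * q) N j a b) : ℝ) *
        ((lw al be ga de N j a b : ℝ) + ((χ.lam * N : ℕ) : ℤ)) -
      ∑ j ∈ JJ (r * q) N, χ.vdim N j * ∑ a ∈ range (AA (r * q) N j + 1),
      ∑ b ∈ range (BB (r * q) N j + 1), (w N (expo (r * q) N j a b) : ℝ) *
        ((lw al' be' ga' de' N j a b : ℝ) + ((χ.lam * N : ℕ) : ℤ)) := by
    rw [← sum_sub_distrib]
    apply sum_congr rfl
    intro j _
    rw [← mul_sub, ← sum_sub_distrib]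
    congr 1
    apply sum_congr rfl
    intro a _
    rw [← sum_sub_distrib]
    apply sum_congr rfl
    intro b _
    ring
  rw [e3]
  have h8 : max B 0 * (C + C') * (N : ℝ) ^ 4 =
      max B 0 * N * C * (N : ℝ) ^ 3 + max B 0 * N * C' * (N : ℝ) ^ 3 := by ring
  rw [h8]
  linarith

theorem le_sJ (χ : Filt T q D₀ r) (hD : T.X.deg D₀ = 105 * T.t * q) (hq : 0 < q) (hr : 0 < r)
    {N : ℕ} (hN : 4 ≤ N) : 2500 * (N : ℝ) ^ 5 ≤ χ.sJ N := by
  have h5 : (5 * ((r * q : ℕ) : ℤ) * N) ∈ JJ (r * q) N := by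
    rw [mem_JJ, abs_of_nonneg (by positivity)]
  refine le_trans ?_ (single_le_sum (f := fun j => χ.msz N j * (j : ℝ) ^ 2)
    (fun j _ => mul_nonneg (χ.msz_nonneg N j) (by positivity)) h5)
  have h1 := χ.le_msz hD hq hr hN h5
  have hrq : (1 : ℝ) ≤ (r * q : ℕ) := by exact_mod_cast Nat.mul_pos hr hq
  have h2 : (5 * (N : ℝ)) ≤ ((5 * ((r * q : ℕ) : ℤ) * N : ℤ) : ℝ) := by
    push_cast
    push_cast at hrq
    have : (5 : ℝ) * N * 1 ≤ 5 * N * (r * q) :=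
      mul_le_mul_of_nonneg_left hrq (by positivity)
    linarith
  calc 2500 * (N : ℝ) ^ 5 = 100 * (N : ℝ) ^ 3 * (5 * N) ^ 2 := by ring
    _ ≤ _ := by
        apply mul_le_mul h1 _ (by positivity) (χ.msz_nonneg N _)
        exact pow_le_pow_left₀ (by positivity) h2 2

/-- the arithmetic of the comparison. -/
theorem wx_arith {p u X s : ℤ} (hp : 0 ≤ p) (hu : 0 ≤ u)
    (h1 : 8 * p + 2 * u + |X| ≤ 2 * s) (h2 : 2 * p + 8 * u + |X| ≤ 2 * s)
    (h3 : 36436184 * (p ^ 2 + u ^ 2) + 1006853 * X ^ 2 = 1006853 * (4 * s ^ 2)) :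
    p = 0 ∧ u = 0 := by
  have hX := abs_nonneg X
  have hX2 : X ^ 2 = |X| ^ 2 := (sq_abs X).symm
  rw [hX2] at h3
  generalize |X| = Y at h1 h2 h3 hX
  have h4 : (8 * p + 2 * u + Y) ^ 2 ≤ (2 * s) ^ 2 := by
    apply pow_le_pow_left₀ (by positivity) h1
  have h5 : (2 * p + 8 * u + Y) ^ 2 ≤ (2 * s) ^ 2 := by
    apply pow_le_pow_left₀ (by positivity) h2
  have hpY : 0 ≤ p * Y := by positivity
  have huY : 0 ≤ u * Y := by positivity
  have hpu : 0 ≤ p * u := by positivity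
  rcases le_total u p with h | h
  · have h6 : u * u ≤ p * u := mul_le_mul_of_nonneg_right h hu
    have h7 : p ^ 2 ≤ 0 := by nlinarith
    have h8 : p = 0 := by
      have : p ^ 2 = 0 := le_antisymm h7 (by positivity)
      exact pow_eq_zero_iff (by norm_num) |>.1 this
    exact ⟨h8, by linarith⟩
  · have h6 : p * p ≤ p * u := mul_le_mul_of_nonneg_left h hp
    have h7 : u ^ 2 ≤ 0 := by nlinarith
    have h8 : u = 0 := by
      have : u ^ 2 = 0 := le_antisymm h7 (by positivity)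
      exact pow_eq_zero_iff (by norm_num) |>.1 this
    exact ⟨by linarith, h8⟩

/-- The linear form at the vertices. -/
theorem vertex_le {Q : ℕ} (hQ : 0 < Q) {al be ga de c M : ℤ}
    (hmean : 25 * Q * (al + be) + 2 * de = 2 * c)
    (h : ∀ N j a b, InR Q N j a b → lw al be ga de N j a b ≤ (5 * Q * M + c) * N) :
    8 * |al| + 2 * |be| + (3 * (al - be) + 2 * ga) ≤ 2 * M ∧
    2 * |al| + 8 * |be| - (3 * (al - be) + 2 * ga) ≤ 2 * M := by
  have hQ' : (0 : ℤ) < Q := by exact_mod_cast hQ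
  have key : ∀ (ε : ℤ) (A B : ℕ), (ε = 1 ∨ ε = -1) → (A : ℤ) = 25 * Q + 15 * ε * Q →
      (B : ℤ) = 25 * Q - 15 * ε * Q →
      |al| * A + |be| * B + (3 * (al - be) + 2 * ga) * (5 * ε * Q) ≤ 10 * Q * M := by
    intro ε A B hε hA hB
    have hin : ∀ a b : ℕ, a ≤ A → b ≤ B → InR Q 1 (5 * ε * Q) a b := by
      intro a b ha hb
      have ha' : (a : ℤ) ≤ A := by exact_mod_cast ha
      have hb' : (b : ℤ) ≤ B := by exact_mod_cast hb
      refine ⟨?_, ?_, ?_⟩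
      · rcases hε with rfl | rfl
        · rw [abs_of_nonneg (by positivity)]
          push_cast
          linarith
        · rw [abs_of_nonpos (by linarith)]
          push_cast
          linarith
      · push_cast
        linarith
      · push_cast
        linarith
    have h1 := h 1 (5 * ε * Q) (if 0 ≤ al then A else 0) (if 0 ≤ be then B else 0)
      (hin _ _ (by split_ifs <;> omega) (by split_ifs <;> omega))
    have ea : 2 * al * ((if 0 ≤ al then A else 0 : ℕ) : ℤ) = |al| * A + al * A := by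
      split_ifs with h2
      · rw [abs_of_nonneg h2]
        ring
      · rw [abs_of_neg (not_le.1 h2)]
        push_cast
        ring
    have eb : 2 * be * ((if 0 ≤ be then B else 0 : ℕ) : ℤ) = |be| * B + be * B := by
      split_ifs with h2
      · rw [abs_of_nonneg h2]
        ring
      · rw [abs_of_neg (not_le.1 h2)]
        push_cast
        ring
    unfold lw at h1
    have h3 : 2 * al * ((if 0 ≤ al then A else 0 : ℕ) : ℤ) +
        2 * be * ((if 0 ≤ be then B else 0 : ℕ) : ℤ) + 2 * ga * (5 * ε * Q) + 2 * de ≤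
        2 * (5 * Q * M + c) := by
      rw [Nat.cast_one, mul_one, mul_one] at h1
      linarith
    rw [ea, eb] at h3
    have h4 : al * (A : ℤ) = al * (25 * Q + 15 * ε * Q) := by rw [hA]
    have h5 : be * (B : ℤ) = be * (25 * Q - 15 * ε * Q) := by rw [hB]
    rw [h4, h5] at h3
    linarith
  have hA1 : (((40 * Q : ℕ)) : ℤ) = 25 * Q + 15 * 1 * Q := by push_cast; ring
  have hB1 : (((10 * Q : ℕ)) : ℤ) = 25 * Q - 15 * 1 * Q := by push_cast; ring
  have hA2 : (((10 * Q : ℕ)) : ℤ) = 25 * Q + 15 * (-1) * Q := by push_cast; ring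
  have hB2 : (((40 * Q : ℕ)) : ℤ) = 25 * Q - 15 * (-1) * Q := by push_cast; ring
  have k1 := key 1 (40 * Q) (10 * Q) (Or.inl rfl) hA1 hB1
  have k2 := key (-1) (10 * Q) (40 * Q) (Or.inr rfl) hA2 hB2
  push_cast at k1 k2
  constructor
  · have : (5 * (Q : ℤ)) * (8 * |al| + 2 * |be| + (3 * (al - be) + 2 * ga)) ≤ 5 * Q * (2 * M) := by
      linarith
    exact le_of_mul_le_mul_left this (by positivity)
  · have : (5 * (Q : ℤ)) * (2 * |al| + 8 * |be| - (3 * (al - be) + 2 * ga)) ≤ 5 * Q * (2 * M) := by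
      linarith
    exact le_of_mul_le_mul_left this (by positivity)

/-- the weight `3 (j - e₀) + 125 q N`. -/
def wxw (e : Fin 4 →₀ ℕ) : ℕ := 3 * e 1 + 2 * e 2 + 2 * e 3

/-- Any order can only be one of `± s j + c`. -/
theorem Rigid.slope_eq {χ χ' : Filt T q D₀ r} {m m' : MonomialOrder (Fin 4)}
    {al be ga de s c : ℤ} (hR : χ.Rigid m al be ga de) (hR' : χ'.Rigid m' 0 0 (-s) c)
    (hs : 0 ≤ s) (hD : T.X.deg D₀ = 105 * T.t * q) (hq : 0 < q) (hr : 0 < r)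
    (hdim : ∀ N : ℕ, 4 ≤ N → ∀ l : ℤ, finrank ℂ (χ.F N l) = finrank ℂ (χ'.F N l)) :
    al = 0 ∧ be = 0 ∧ de = c ∧ (ga = s ∨ ga = -s) := by
  have hrq : 0 < r * q := Nat.mul_pos hr hq
  have hmean := hR.total_mean hR' hD hq hr hdim
  have hsec := hR.total_second hR' hD hq hr hdim
  have hmean' : 25 * ((r * q : ℕ) : ℤ) * (al + be) + 2 * de = 2 * c := by
    push_cast
    linarith
  have hmax : ∀ N j a b, InR (r * q) N j a b →
      lw al be ga de N j a b ≤ (5 * (r * q : ℕ) * s + c) * N := by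
    intro N j a b h
    apply hR.max_le hR' hD hq hr hdim _ h
    intro N j a b h
    have h1 := h.1
    rw [abs_le] at h1
    unfold lw
    have h2 : s * (-j) ≤ s * (5 * (r * q : ℕ) * N) := mul_le_mul_of_nonneg_left (by linarith) hs
    linarith
  have hmin : ∀ N j a b, InR (r * q) N j a b →
      (-(5 * (r * q : ℕ) * s) + c) * N ≤ lw al be ga de N j a b := by
    intro N j a b h
    apply hR.min_le hR' hD hq hr hdim _ h
    intro N j a b h
    have h1 := h.1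
    rw [abs_le] at h1
    unfold lw
    have h2 : s * j ≤ s * (5 * (r * q : ℕ) * N) := mul_le_mul_of_nonneg_left (by linarith) hs
    linarith
  have v1 := vertex_le hrq hmean' hmax
  have v2 := vertex_le hrq (al := -al) (be := -be) (ga := -ga) (de := -de) (c := -c) (M := s)
    (by linarith) (by
      intro N j a b h
      have h1 := hmin N j a b h
      unfold lw at h1 ⊢
      linarith)
  rw [abs_neg, abs_neg] at v2
  have hX1 : 8 * |al| + 2 * |be| + |3 * (al - be) + 2 * ga| ≤ 2 * s := by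
    rcases abs_cases (3 * (al - be) + 2 * ga) with ⟨h, _⟩ | ⟨h, _⟩
    · rw [h]
      linarith [v1.1]
    · rw [h]
      linarith [v2.1]
  have hX2 : 2 * |al| + 8 * |be| + |3 * (al - be) + 2 * ga| ≤ 2 * s := by
    rcases abs_cases (3 * (al - be) + 2 * ga) with ⟨h, _⟩ | ⟨h, _⟩
    · rw [h]
      linarith [v2.2]
    · rw [h]
      linarith [v1.2]
  obtain ⟨ha, hb⟩ := wx_arith (abs_nonneg al) (abs_nonneg be) hX1 hX2 (by
    rw [sq_abs, sq_abs, hsec]
    ring)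
  rw [abs_eq_zero] at ha hb
  subst ha hb
  refine ⟨rfl, rfl, by linarith, ?_⟩
  have h1 : ga ^ 2 = s ^ 2 := by linarith
  exact sq_eq_sq_iff_eq_or_eq_neg.1 h1

/-- For an order refining the weight `wxw`, the filtration is described by the same linear form
as for the orders in which small `j` come first. -/
theorem Rigid.wx_eq {χ : Filt T q D₀ r} {m m' : MonomialOrder (Fin 4)}
    {al be ga de s c : ℤ} (hR : χ.Rigid m al be ga de) (hR' : χ.Rigid m' 0 0 (-s) c)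
    (hs : 0 ≤ s) (hD : T.X.deg D₀ = 105 * T.t * q) (hq : 0 < q) (hr : 0 < r)
    (hm : ∀ N, 4 ≤ N → Refines m wxw (Eset (r * q) N)) :
    al = 0 ∧ be = 0 ∧ ga = -s ∧ de = c := by
  obtain ⟨rfl, rfl, rfl, h⟩ := hR.slope_eq hR' hs hD hq hr (fun _ _ _ => rfl)
  refine ⟨rfl, rfl, ?_, rfl⟩
  rcases h with rfl | h
  swap
  · exact h
  obtain ⟨C, hC0, hC⟩ := hR.greedy_two hR' hD hq hr (w := fun _ => wxw) hm
    (B := 140 * (r * q : ℕ)) (by
      intro N hN j a b h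
      have h1 := (inR_iff h.1).1 h
      have hj := mem_JJ.2 h.1
      have hj' : |(j : ℝ)| ≤ 5 * (r * q : ℕ) * N := by exact_mod_cast h.1
      rw [abs_le] at hj'
      have ha : (a : ℝ) ≤ AA (r * q) N j := by exact_mod_cast h1.1
      unfold wxw
      rw [expo_1, expo_2, expo_3]
      push_cast [Nat.cast_sub h1.2]
      rw [AA_real hj] at ha
      rw [BB_real hj]
      push_cast at ha hj' ⊢
      linarith)
  have hval : ∀ N : ℕ, 4 ≤ N → ∑ j ∈ JJ (r * q) N, χ.vdim N j *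
      ∑ a ∈ range (AA (r * q) N j + 1),
      ∑ b ∈ range (BB (r * q) N j + 1), (wxw (expo (r * q) N j a b) : ℝ) *
        ((lw 0 0 ga de N j a b : ℝ) - (lw 0 0 (-ga) de N j a b : ℝ)) = -(3 * ga * χ.sJ N) := by
    intro N hN
    have e1 : ∀ j ∈ JJ (r * q) N, χ.vdim N j * ∑ a ∈ range (AA (r * q) N j + 1),
      ∑ b ∈ range (BB (r * q) N j + 1), (wxw (expo (r * q) N j a b) : ℝ) *
        ((lw 0 0 ga de N j a b : ℝ) - (lw 0 0 (-ga) de N j a b : ℝ)) =
        -(3 * ga) * (χ.msz N j * (j : ℝ) ^ 2) +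
          (175 * (r * q : ℕ) * N * ga) * (χ.msz N j * (j : ℝ)) := by
      intro j hj
      have e2 : ∑ a ∈ range (AA (r * q) N j + 1), ∑ b ∈ range (BB (r * q) N j + 1),
        (wxw (expo (r * q) N j a b) : ℝ) *
        ((lw 0 0 ga de N j a b : ℝ) - (lw 0 0 (-ga) de N j a b : ℝ)) =
        ∑ a ∈ range (AA (r * q) N j + 1), ∑ b ∈ range (BB (r * q) N j + 1),
        ((6 * ga * j : ℝ) * a + 0 * b + 4 * BB (r * q) N j * ga * j) := by
        apply sum_congr rfl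
        intro a ha
        apply sum_congr rfl
        intro b hb
        have hin := forall_JJ hj ha hb
        have h1 := (inR_iff hin.1).1 hin
        unfold wxw lw
        rw [expo_1, expo_2, expo_3]
        push_cast [Nat.cast_sub h1.2]
        ring
      rw [e2, sum_lin]
      unfold msz
      rw [AA_real hj, BB_real hj]
      ring
    rw [sum_congr rfl e1, sum_add_distrib, ← mul_sum, ← mul_sum, χ.sum_msz_odd hD hq hr hN]
    unfold sJ
    ring
  have hga : ga = 0 := by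
    apply int_eq_zero_of_bdd (C := C)
    intro N hN
    have h1 := hC N hN
    rw [hval N hN] at h1
    have h2 := χ.le_sJ hD hq hr hN
    have hg0 : (0 : ℝ) ≤ ga := by exact_mod_cast hs
    rw [abs_of_nonneg hg0]
    have hNpos : (0 : ℝ) < N := by
      have : (4 : ℝ) ≤ N := by exact_mod_cast hN
      linarith
    have h3 : ga * (2500 * (N : ℝ) ^ 5) ≤ ga * χ.sJ N := mul_le_mul_of_nonneg_left h2 hg0
    have h4 : ga * (N : ℝ) * (N : ℝ) ^ 4 ≤ C * (N : ℝ) ^ 4 := by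
      have h5 : 0 ≤ ga * (N : ℝ) ^ 5 := by positivity
      have h6 : ga * (N : ℝ) * (N : ℝ) ^ 4 = ga * (N : ℝ) ^ 5 := by ring
      rw [h6]
      linarith
    exact le_of_mul_le_mul_right h4 (by positivity)
  rw [hga]
  rfl

end Filt

end Pool.Agent.YTD


end

/- source: Pool.Agent.YTD.RigidNorm -/

section

/-!
A rigid filtration with constant linear form has norm zero.
-/

namespace Pool.Agent.YTD

open Module Finset MvPolynomial Filter

variable {K : Type} [Field K] [Algebra ℂ K]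
variable {T : Datum K} {q : ℕ} {D₀ : T.X.Pt →₀ ℤ} {r : ℕ}

theorem sum_range_Ioc (M : ℕ) (f : ℤ → ℝ) :
    ∑ i ∈ range (2 * M), f ((i : ℤ) + 1 - M) = ∑ l ∈ Ioc (-(M : ℤ)) M, f l := by
  have h1 : Ioc (-(M : ℤ)) M = (range (2 * M)).image (fun i : ℕ => (i : ℤ) + 1 - M) := by
    classical
    ext l
    rw [mem_Ioc, mem_image]
    constructor
    · rintro ⟨h1, h2⟩
      refine ⟨(l + M - 1).toNat, ?_, ?_⟩
      · rw [mem_range]
        omega
      · omega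
    · rintro ⟨i, hi, rfl⟩
      rw [mem_range] at hi
      omega
  classical
  rw [h1, sum_image]
  intro i _ i' _ h
  simp only at h
  omega

theorem real_eq_zero_of_bdd {x C : ℝ} (h : ∀ᶠ N : ℕ in atTop, |x| * N ≤ C) : x = 0 := by
  by_contra h0
  have h1 : 0 < |x| := abs_pos.2 h0
  obtain ⟨N0, hN0⟩ := eventually_atTop.1 h
  obtain ⟨n, hn⟩ := exists_nat_gt (C / |x|)
  have h2 := hN0 (max n N0) (le_max_right _ _)
  have h3 : (n : ℝ) ≤ (max n N0 : ℕ) := by exact_mod_cast le_max_left _ _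
  rw [div_lt_iff₀ h1] at hn
  nlinarith

namespace Filt

theorem dimN_eq (χ : Filt T q D₀ r) (N : ℕ) : χ.dimN N = χ.s0 N := by
  have h := χ.sum_idim (MonomialOrder.lex (σ := Fin 4)) N (-((χ.lam : ℤ) * N))
  have h1 : (finrank ℂ (χ.F N (-((χ.lam : ℤ) * N))) : ℝ) = χ.dimN N := by
    rw [χ.F_of_le le_rfl]
    rfl
  rw [h1] at h
  rw [← h]
  unfold s0 msz
  apply sum_congr rfl
  intro j hj
  have h2 : ∀ a ∈ range (AA (r * q) N j + 1), ∑ b ∈ range (BB (r * q) N j + 1),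
      χ.idim (MonomialOrder.lex (σ := Fin 4)) N (-((χ.lam : ℤ) * N)) j a b =
      ∑ _b ∈ range (BB (r * q) N j + 1), χ.vdim N j := by
    intro a ha
    apply sum_congr rfl
    intro b hb
    exact χ.idim_eq_vdim _ (forall_JJ hj ha hb) le_rfl
  rw [sum_congr rfl h2, sum_const, sum_const, card_range, card_range, nsmul_eq_mul, nsmul_eq_mul]
  push_cast
  ring

theorem tr_one' (χ : Filt T q D₀ r) (N : ℕ) :
    χ.tr 1 N = ∑ l ∈ Ioc (-((χ.lam * N : ℕ) : ℤ)) ((χ.lam * N : ℕ) : ℤ),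
      (finrank ℂ (χ.F N l) : ℝ) - χ.lam * N * χ.dimN N := by
  obtain ⟨P₀⟩ := T.exists_point_mom
  rw [χ.tr_one P₀, χ.graded_tot P₀, ← sum_range_Ioc]
  have e : 2 * χ.lam * N = 2 * (χ.lam * N) := by ring
  rw [e]
  push_cast
  rfl

/-- Abel summation for the second trace. -/
theorem tr_two (χ : Filt T q D₀ r) (N : ℕ) :
    χ.tr 2 N = ∑ l ∈ Ioc (-((χ.lam * N : ℕ) : ℤ)) ((χ.lam * N : ℕ) : ℤ),
      (2 * (l : ℝ) - 1) * (finrank ℂ (χ.F N l) : ℝ) + (χ.lam * N) ^ 2 * χ.dimN N := by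
  rw [tr_eq]
  have key : ∀ (h : ℤ → ℝ) (c : ℤ) (M : ℕ), ∑ i ∈ range (M + 1),
      (((i : ℤ) - c : ℤ) : ℝ) ^ 2 * (h ((i : ℤ) - c) - h ((i : ℤ) - c + 1)) =
      ∑ i ∈ range M, (2 * (((i : ℤ) + 1 - c : ℤ) : ℝ) - 1) * h ((i : ℤ) + 1 - c) +
        (c : ℝ) ^ 2 * h (-c) - ((M : ℝ) - c) ^ 2 * h ((M : ℤ) - c + 1) := by
    intro h c M
    induction M with
    | zero =>
      simp
      ring
    | succ M ih =>
      rw [sum_range_succ, ih, sum_range_succ]
      push_cast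
      have e1 : (M : ℤ) + 1 - c = (M : ℤ) - c + 1 := by ring
      rw [e1]
      ring
  have h1 := key (fun l => (finrank ℂ (χ.F N l) : ℝ)) (χ.lam * N) (2 * χ.lam * N)
  have h2 : (finrank ℂ (χ.F N (((2 * χ.lam * N : ℕ) : ℤ) - χ.lam * N + 1)) : ℝ) = 0 := by
    rw [χ.F_of_gt (by push_cast; linarith)]
    simp
  have h3 : (finrank ℂ (χ.F N (-(χ.lam * N))) : ℝ) = χ.dimN N := by
    rw [χ.F_of_le le_rfl]
    rfl
  rw [h2, h3, mul_zero, sub_zero] at h1
  unfold wt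
  rw [h1, ← sum_range_Ioc (χ.lam * N) (fun l => (2 * (l : ℝ) - 1) * (finrank ℂ (χ.F N l) : ℝ))]
  have e : 2 * χ.lam * N = 2 * (χ.lam * N) := by ring
  rw [e]
  push_cast
  rfl

theorem sum_Ioc_odd' {c L : ℤ} (h : -c ≤ L) :
    ∑ l ∈ Ioc (-c) L, (2 * (l : ℝ) - 1) = (L : ℝ) ^ 2 - (c : ℝ) ^ 2 := by
  have h1 := sum_Ioc_odd h
  have h2 := sum_Ioc_one h
  have h3 : ∑ l ∈ Ioc (-c) L, (2 * ((l : ℝ) + c) - 1) =
      ∑ l ∈ Ioc (-c) L, (2 * (l : ℝ) - 1) + 2 * c * ∑ _l ∈ Ioc (-c) L, (1 : ℝ) := by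
    rw [mul_sum, ← sum_add_distrib]
    apply sum_congr rfl
    intro l _
    ring
  rw [h3, h2] at h1
  linarith

/-- A rigid filtration with constant linear form has norm zero. -/
theorem Rigid.norm_zero {χ : Filt T q D₀ r} {m : MonomialOrder (Fin 4)} {c : ℤ}
    (hR : χ.Rigid m 0 0 0 c) (hD : T.X.deg D₀ = 105 * T.t * q) (hq : 0 < q) (hr : 0 < r)
    {a₀ a₁ b₀ b₁ c₀ : ℝ} (hE : χ.Expansion a₀ a₁ b₀ b₁ c₀) :
    b₀ = c * a₀ ∧ c₀ = c ^ 2 * a₀ := by
  obtain ⟨C, hC0, hC⟩ := hR.total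
  have hlow : ∀ N : ℕ, 4 ≤ N → ∀ j a b, InR (r * q) N j a b →
      -((χ.lam * N : ℕ) : ℤ) ≤ lw 0 0 0 c N j a b := by
    intro N hN j a b h
    have h1 := hR.lower hD hq hr hN h
    push_cast
    linarith
  have hconst : ∀ (N : ℕ) (z : ℝ), ∑ j ∈ JJ (r * q) N, χ.vdim N j *
      ∑ _a ∈ range (AA (r * q) N j + 1), ∑ _b ∈ range (BB (r * q) N j + 1), z = z * χ.dimN N := by
    intro N z
    rw [χ.dimN_eq]
    unfold s0 msz
    rw [mul_sum]
    apply sum_congr rfl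
    intro j _
    rw [sum_const, sum_const, card_range, card_range, nsmul_eq_mul, nsmul_eq_mul]
    push_cast
    ring
  have hlw : ∀ (N : ℕ) (j : ℤ) (a b : ℕ), (lw 0 0 0 c N j a b : ℝ) = c * N := by
    intro N j a b
    unfold lw
    push_cast
    ring
  -- first trace
  have h1 : ∀ N : ℕ, 4 ≤ N → |χ.tr 1 N - c * N * χ.dimN N| ≤ C * (N : ℝ) ^ 3 := by
    intro N hN
    have g1 := hC N hN χ.lam le_rfl (fun _ => 1) 1 zero_le_one (fun _ _ _ _ _ _ _ => by simp)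
    have e1 : ∑ j ∈ JJ (r * q) N, χ.vdim N j * ∑ a ∈ range (AA (r * q) N j + 1),
        ∑ b ∈ range (BB (r * q) N j + 1),
        ∑ _l ∈ Ioc (-((χ.lam * N : ℕ) : ℤ)) (lw 0 0 0 c N j a b), (1 : ℝ) =
        (c * N + χ.lam * N) * χ.dimN N := by
      rw [← hconst]
      apply sum_congr rfl
      intro j hj
      congr 1
      apply sum_congr rfl
      intro a ha
      apply sum_congr rfl
      intro b hb
      rw [sum_Ioc_one (hlow N hN j a b (forall_JJ hj ha hb)), hlw]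
      push_cast
      ring
    rw [e1] at g1
    simp only [one_mul] at g1
    rw [χ.tr_one', abs_sub_comm]
    calc _ = _ := by congr 1; ring
      _ ≤ _ := g1
  -- second trace
  obtain ⟨d, hd0, hd⟩ : ∃ d : ℝ, 0 ≤ d ∧ ∀ N : ℕ, 4 ≤ N → ∀ j a b l, InR (r * q) N j a b →
      -((χ.lam * N : ℕ) : ℤ) < l → l ≤ lw 0 0 0 c N j a b → |2 * (l : ℝ) - 1| ≤ d * N := by
    refine ⟨2 * (χ.lam + |(c : ℝ)|) + 1, by positivity, ?_⟩
    intro N hN j a b l _ g1 g2
    have hN4 : (4 : ℝ) ≤ N := by exact_mod_cast hN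
    have g3 : -((χ.lam : ℝ) * N) ≤ l := by
      have : -((χ.lam * N : ℕ) : ℤ) ≤ l := g1.le
      have h5 : ((-((χ.lam * N : ℕ) : ℤ) : ℤ) : ℝ) ≤ l := by exact_mod_cast this
      push_cast at h5
      exact h5
    have g4 : (l : ℝ) ≤ c * N := by
      rw [← hlw N j a b]
      exact_mod_cast g2
    have g5 : (c : ℝ) * N ≤ |(c : ℝ)| * N := mul_le_mul_of_nonneg_right (le_abs_self _) (by positivity)
    have g6 : 0 ≤ |(c : ℝ)| * N := by positivity
    have g7 : 0 ≤ (χ.lam : ℝ) * N := by positivity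
    rw [abs_le]
    constructor <;> nlinarith
  have h2 : ∀ N : ℕ, 4 ≤ N → |χ.tr 2 N - c ^ 2 * (N : ℝ) ^ 2 * χ.dimN N| ≤
      d * C * (N : ℝ) ^ 4 := by
    intro N hN
    have g1 := hC N hN χ.lam le_rfl (fun l => 2 * (l : ℝ) - 1) (d * N) (by positivity)
      (fun j a b l h g1 g2 => hd N hN j a b l h g1 g2)
    have e1 : ∑ j ∈ JJ (r * q) N, χ.vdim N j * ∑ a ∈ range (AA (r * q) N j + 1),
        ∑ b ∈ range (BB (r * q) N j + 1),
        ∑ l ∈ Ioc (-((χ.lam * N : ℕ) : ℤ)) (lw 0 0 0 c N j a b), (2 * (l : ℝ) - 1) =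
        ((c * N) ^ 2 - (χ.lam * N) ^ 2) * χ.dimN N := by
      rw [← hconst]
      apply sum_congr rfl
      intro j hj
      congr 1
      apply sum_congr rfl
      intro a ha
      apply sum_congr rfl
      intro b hb
      rw [sum_Ioc_odd' (hlow N hN j a b (forall_JJ hj ha hb)), hlw]
      push_cast
      ring
    rw [e1] at g1
    rw [χ.tr_two, abs_sub_comm]
    calc _ = _ := by congr 1; ring
      _ ≤ _ := g1
      _ = _ := by ring
  obtain ⟨⟨E1, hE1⟩, ⟨E2, hE2⟩, ⟨E3, hE3⟩⟩ := hE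
  have hb : b₀ - c * a₀ = 0 := by
    apply real_eq_zero_of_bdd (C := |b₁ - c * a₁| + |(c : ℝ)| * |E1| + |E2| + C)
    filter_upwards [hE1, hE2, eventually_ge_atTop 4] with N g1 g2 hN
    have hN4 : (4 : ℝ) ≤ N := by exact_mod_cast hN
    have hN1 : (1 : ℝ) ≤ N := by linarith
    have g3 := h1 N hN
    have e1 : (b₀ - c * a₀) * (N : ℝ) ^ 5 = -((b₁ - c * a₁) * (N : ℝ) ^ 4) +
        (c * N * (χ.dimN N - (a₀ * N ^ 4 + a₁ * N ^ 3))) -
        (χ.tr 1 N - (b₀ * N ^ 5 + b₁ * N ^ 4)) + (χ.tr 1 N - c * N * χ.dimN N) := by ring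
    have p32 : (N : ℝ) ^ 3 ≤ (N : ℝ) ^ 4 := pow_le_pow_right₀ hN1 (by norm_num)
    have f1 : |(b₁ - c * a₁) * (N : ℝ) ^ 4| = |b₁ - c * a₁| * (N : ℝ) ^ 4 := by
      rw [abs_mul, abs_of_nonneg (by positivity : (0 : ℝ) ≤ (N : ℝ) ^ 4)]
    have f2 : |c * N * (χ.dimN N - (a₀ * N ^ 4 + a₁ * N ^ 3))| ≤ |(c : ℝ)| * |E1| * (N : ℝ) ^ 4 := by
      rw [abs_mul, abs_mul, Nat.abs_cast]
      calc |(c : ℝ)| * N * |χ.dimN N - (a₀ * N ^ 4 + a₁ * N ^ 3)|
          ≤ |(c : ℝ)| * N * (|E1| * N ^ 2) := by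
            apply mul_le_mul_of_nonneg_left _ (by positivity)
            exact g1.trans (mul_le_mul_of_nonneg_right (le_abs_self _) (by positivity))
        _ = |(c : ℝ)| * |E1| * N ^ 3 := by ring
        _ ≤ _ := mul_le_mul_of_nonneg_left p32 (by positivity)
    have f3 : |χ.tr 1 N - (b₀ * N ^ 5 + b₁ * N ^ 4)| ≤ |E2| * (N : ℝ) ^ 4 :=
      g2.trans (mul_le_mul (le_abs_self _) p32 (by positivity) (abs_nonneg _))
    have f4 : |χ.tr 1 N - c * N * χ.dimN N| ≤ C * (N : ℝ) ^ 4 :=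
      g3.trans (mul_le_mul_of_nonneg_left p32 hC0)
    have f5 : |b₀ - c * a₀| * (N : ℝ) ^ 5 ≤
        (|b₁ - c * a₁| + |(c : ℝ)| * |E1| + |E2| + C) * (N : ℝ) ^ 4 := by
      have : |b₀ - c * a₀| * (N : ℝ) ^ 5 = |(b₀ - c * a₀) * (N : ℝ) ^ 5| := by
        rw [abs_mul, abs_of_nonneg (by positivity : (0 : ℝ) ≤ (N : ℝ) ^ 5)]
      rw [this, e1]
      have t1 := abs_add_le (-((b₁ - c * a₁) * (N : ℝ) ^ 4) +
        (c * N * (χ.dimN N - (a₀ * N ^ 4 + a₁ * N ^ 3))) -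
        (χ.tr 1 N - (b₀ * N ^ 5 + b₁ * N ^ 4))) (χ.tr 1 N - c * N * χ.dimN N)
      have t2 := abs_sub (-((b₁ - c * a₁) * (N : ℝ) ^ 4) +
        (c * N * (χ.dimN N - (a₀ * N ^ 4 + a₁ * N ^ 3)))) (χ.tr 1 N - (b₀ * N ^ 5 + b₁ * N ^ 4))
      have t3 := abs_add_le (-((b₁ - c * a₁) * (N : ℝ) ^ 4))
        (c * N * (χ.dimN N - (a₀ * N ^ 4 + a₁ * N ^ 3)))
      rw [abs_neg, f1] at t3
      linarith
    have f6 : |b₀ - c * a₀| * N * (N : ℝ) ^ 4 ≤
        (|b₁ - c * a₁| + |(c : ℝ)| * |E1| + |E2| + C) * (N : ℝ) ^ 4 := by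
      calc _ = |b₀ - c * a₀| * (N : ℝ) ^ 5 := by ring
        _ ≤ _ := f5
    exact le_of_mul_le_mul_right f6 (by positivity)
  have hc : c₀ - c ^ 2 * a₀ = 0 := by
    apply real_eq_zero_of_bdd (C := |c ^ 2 * a₁| + |(c : ℝ) ^ 2| * |E1| + |E3| + d * C)
    filter_upwards [hE1, hE3, eventually_ge_atTop 4] with N g1 g2 hN
    have hN4 : (4 : ℝ) ≤ N := by exact_mod_cast hN
    have hN1 : (1 : ℝ) ≤ N := by linarith
    have g3 := h2 N hN
    have e1 : (c₀ - c ^ 2 * a₀) * (N : ℝ) ^ 6 = (c ^ 2 * a₁) * (N : ℝ) ^ 5 +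
        (c ^ 2 * N ^ 2 * (χ.dimN N - (a₀ * N ^ 4 + a₁ * N ^ 3))) -
        (χ.tr 2 N - c₀ * N ^ 6) + (χ.tr 2 N - c ^ 2 * N ^ 2 * χ.dimN N) := by ring
    have p45 : (N : ℝ) ^ 4 ≤ (N : ℝ) ^ 5 := pow_le_pow_right₀ hN1 (by norm_num)
    have f1 : |(c ^ 2 * a₁) * (N : ℝ) ^ 5| = |c ^ 2 * a₁| * (N : ℝ) ^ 5 := by
      rw [abs_mul, abs_of_nonneg (by positivity : (0 : ℝ) ≤ (N : ℝ) ^ 5)]
    have f2 : |c ^ 2 * N ^ 2 * (χ.dimN N - (a₀ * N ^ 4 + a₁ * N ^ 3))| ≤
        |(c : ℝ) ^ 2| * |E1| * (N : ℝ) ^ 5 := by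
      rw [abs_mul, abs_mul, abs_of_nonneg (by positivity : (0 : ℝ) ≤ (N : ℝ) ^ 2)]
      calc |(c : ℝ) ^ 2| * N ^ 2 * |χ.dimN N - (a₀ * N ^ 4 + a₁ * N ^ 3)|
          ≤ |(c : ℝ) ^ 2| * N ^ 2 * (|E1| * N ^ 2) := by
            apply mul_le_mul_of_nonneg_left _ (by positivity)
            exact g1.trans (mul_le_mul_of_nonneg_right (le_abs_self _) (by positivity))
        _ = |(c : ℝ) ^ 2| * |E1| * N ^ 4 := by ring
        _ ≤ _ := mul_le_mul_of_nonneg_left p45 (by positivity)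
    have f3 : |χ.tr 2 N - c₀ * N ^ 6| ≤ |E3| * (N : ℝ) ^ 5 :=
      g2.trans (mul_le_mul_of_nonneg_right (le_abs_self _) (by positivity))
    have f4 : |χ.tr 2 N - c ^ 2 * N ^ 2 * χ.dimN N| ≤ d * C * (N : ℝ) ^ 5 :=
      g3.trans (mul_le_mul_of_nonneg_left p45 (by positivity))
    have f5 : |c₀ - c ^ 2 * a₀| * (N : ℝ) ^ 6 ≤
        (|c ^ 2 * a₁| + |(c : ℝ) ^ 2| * |E1| + |E3| + d * C) * (N : ℝ) ^ 5 := by
      have : |c₀ - c ^ 2 * a₀| * (N : ℝ) ^ 6 = |(c₀ - c ^ 2 * a₀) * (N : ℝ) ^ 6| := by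
        rw [abs_mul, abs_of_nonneg (by positivity : (0 : ℝ) ≤ (N : ℝ) ^ 6)]
      rw [this, e1]
      have t1 := abs_add_le ((c ^ 2 * a₁) * (N : ℝ) ^ 5 +
        (c ^ 2 * N ^ 2 * (χ.dimN N - (a₀ * N ^ 4 + a₁ * N ^ 3))) -
        (χ.tr 2 N - c₀ * N ^ 6)) (χ.tr 2 N - c ^ 2 * N ^ 2 * χ.dimN N)
      have t2 := abs_sub ((c ^ 2 * a₁) * (N : ℝ) ^ 5 +
        (c ^ 2 * N ^ 2 * (χ.dimN N - (a₀ * N ^ 4 + a₁ * N ^ 3)))) (χ.tr 2 N - c₀ * N ^ 6)
      have t3 := abs_add_le ((c ^ 2 * a₁) * (N : ℝ) ^ 5)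
        (c ^ 2 * N ^ 2 * (χ.dimN N - (a₀ * N ^ 4 + a₁ * N ^ 3)))
      rw [f1] at t3
      linarith
    have f6 : |c₀ - c ^ 2 * a₀| * N * (N : ℝ) ^ 5 ≤
        (|c ^ 2 * a₁| + |(c : ℝ) ^ 2| * |E1| + |E3| + d * C) * (N : ℝ) ^ 5 := by
      calc _ = |c₀ - c ^ 2 * a₀| * (N : ℝ) ^ 6 := by ring
        _ ≤ _ := f5
    exact le_of_mul_le_mul_right f6 (by positivity)
  constructor <;> linarith

/-- the norm vanishes. -/
theorem Rigid.norm_zero' {χ : Filt T q D₀ r} {m : MonomialOrder (Fin 4)} {c : ℤ}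
    (hR : χ.Rigid m 0 0 0 c) (hD : T.X.deg D₀ = 105 * T.t * q) (hq : 0 < q) (hr : 0 < r)
    {a₀ a₁ b₀ b₁ c₀ : ℝ} (hE : χ.Expansion a₀ a₁ b₀ b₁ c₀) : c₀ - b₀ ^ 2 / a₀ = 0 := by
  obtain ⟨rfl, rfl⟩ := hR.norm_zero hD hq hr hE
  by_cases h : a₀ = 0
  · simp [h]
  · field_simp
    ring

end Filt

end Pool.Agent.YTD


end

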