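import Pool.Agent.YTDM.P19
import Pool.Agent.YTDM.P22

/- source: Pool.Agent.YTD.RigidForms -/

section

/-!
The comparison theorems for arbitrary flags and orders.
-/

namespace Pool.Agent.YTD

open Module Finset MvPolynomial

variable {K : Type} [Field K] [Algebra ℂ K]
variable {T : Datum K} {q : ℕ} {D₀ : T.X.Pt →₀ ℤ} {r : ℕ}

theorem subst_mem_Wle_xd (g h : Matrix (Fin 2) (Fin 2) ℂ) {c : ℕ} {f : MvPolynomial (Fin 4) K}
    (hf : f ∈ Wle xd c) : subst g h f ∈ Wle xd c := by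
  rw [f.as_sum, map_sum]
  refine sum_mem fun e he => ?_
  rw [MvPolynomial.mem_support_iff] at he
  have h1 := hf e he
  intro e' he'
  obtain ⟨g1, _, _⟩ := subst_monomial_mem g h (W := (⊤ : Submodule ℂ K)) (c := f.coeff e)
    trivial e e' he'
  unfold xd at h1 ⊢
  omega

theorem subst_mem_Wle_yd (g h : Matrix (Fin 2) (Fin 2) ℂ) {c : ℕ} {f : MvPolynomial (Fin 4) K}
    (hf : f ∈ Wle yd c) : subst g h f ∈ Wle yd c := by
  rw [f.as_sum, map_sum]
  refine sum_mem fun e he => ?_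
  rw [MvPolynomial.mem_support_iff] at he
  have h1 := hf e he
  intro e' he'
  obtain ⟨_, g1, _⟩ := subst_monomial_mem g h (W := (⊤ : Submodule ℂ K)) (c := f.coeff e)
    trivial e e' he'
  unfold yd at h1 ⊢
  omega

/-- The layers are preserved by automorphisms preserving the weight. -/
theorem finrank_map_Wle {E : Autom K} {w : (Fin 4 →₀ ℕ) → ℕ} {c : ℕ}
    (h1 : ∀ f ∈ Wle (K := K) w c, E f ∈ Wle (K := K) w c)
    (h2 : ∀ f ∈ Wle (K := K) w c, E.symm f ∈ Wle (K := K) w c)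
    (U : Submodule ℂ (MvPolynomial (Fin 4) K)) :
    finrank ℂ (U.map E.toLinearMap ⊓ Wle w c : Submodule ℂ (MvPolynomial (Fin 4) K)) =
      finrank ℂ (U ⊓ Wle w c : Submodule ℂ (MvPolynomial (Fin 4) K)) := by
  have h : (U.map E.toLinearMap ⊓ Wle w c : Submodule ℂ (MvPolynomial (Fin 4) K)) =
      (U ⊓ Wle w c : Submodule ℂ (MvPolynomial (Fin 4) K)).map E.toLinearMap := by
    ext f
    constructor
    · rintro ⟨⟨g, hg, rfl⟩, hg'⟩
      refine ⟨g, ⟨hg, ?_⟩, rfl⟩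
      have := h2 _ hg'
      have e : E.symm (E.toLinearMap g) = g := E.symm_apply_apply g
      rwa [e] at this
    · rintro ⟨g, ⟨hg, hg'⟩, rfl⟩
      exact ⟨⟨g, hg, rfl⟩, h1 g hg'⟩
  rw [h]
  exact (LinearEquiv.finrank_eq
    (Submodule.equivMapOfInjective E.toLinearMap (autom_injective E) _)).symm

namespace Filt

/-- (L), general weight. -/
theorem layer_forms (χ : Filt T q D₀ r) (hq : 0 < q) (hr : 0 < r)
    (hD : T.X.deg D₀ = 105 * T.t * q) {E E' : Autom K} {hE : Pres T q D₀ E} {hE' : Pres T q D₀ E'}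
    {w : (Fin 4 →₀ ℕ) → ℕ} {κ : ℕ → ℤ → ℕ} (hw : ∀ N, 4 ≤ N → LayerWt w (r * q) N (κ N))
    (h1 : ∀ c, ∀ f ∈ Wle (K := K) w c, E f ∈ Wle (K := K) w c)
    (h2 : ∀ c, ∀ f ∈ Wle (K := K) w c, E.symm f ∈ Wle (K := K) w c)
    (h1' : ∀ c, ∀ f ∈ Wle (K := K) w c, E' f ∈ Wle (K := K) w c)
    (h2' : ∀ c, ∀ f ∈ Wle (K := K) w c, E'.symm f ∈ Wle (K := K) w c)
    {m m' : MonomialOrder (Fin 4)} (hm : ∀ e e', m.toSyn e ≤ m.toSyn e' → w e ≤ w e')
    (hm' : ∀ e e', m'.toSyn e ≤ m'.toSyn e' → w e ≤ w e')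
    {al be ga de al' be' ga' de' : ℤ} (hR : (χ.tw E hE).Rigid m al be ga de)
    (hR' : (χ.tw E' hE').Rigid m' al' be' ga' de') :
    al ^ 2 = al' ^ 2 ∧ be ^ 2 = be' ^ 2 ∧
    2 * ga + 3 * (al - be) = 2 * ga' + 3 * (al' - be') ∧
    2 * de + 25 * ((r * q : ℕ) : ℤ) * (al + be) = 2 * de' + 25 * ((r * q : ℕ) : ℤ) * (al' + be') := by
  obtain ⟨g1, g2, g3, g4⟩ := hR.compare hR' hD hq hr hw
    (fun N _ e _ e' _ h => hm e' e h) (fun N _ e _ e' _ h => hm' e' e h) (by
      intro N l c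
      rw [tw_F, tw_F, finrank_map_Wle (h1 c) (h2 c), finrank_map_Wle (h1' c) (h2' c)])
  refine ⟨g3, g4, by linarith, ?_⟩
  push_cast
  linarith

/-- (L) for flags. -/
theorem layer_flags (χ : Filt T q D₀ r) (hq : 0 < q) (hr : 0 < r)
    (hD : T.X.deg D₀ = 105 * T.t * q) {g h g' h' : Matrix (Fin 2) (Fin 2) ℂ}
    {hg : IsUnit g} {hh : IsUnit h} {hg' : IsUnit g'} {hh' : IsUnit h'}
    {m m' : MonomialOrder (Fin 4)}
    (hm : ∀ e e', m.toSyn e ≤ m.toSyn e' → e 0 + e 1 ≤ e' 0 + e' 1)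
    (hm' : ∀ e e', m'.toSyn e ≤ m'.toSyn e' → e 0 + e 1 ≤ e' 0 + e' 1)
    {al be ga de al' be' ga' de' : ℤ}
    (hR : (χ.tw (substE K g h hg hh) (pres_substE hg hh)).Rigid m al be ga de)
    (hR' : (χ.tw (substE K g' h' hg' hh') (pres_substE hg' hh')).Rigid m' al' be' ga' de') :
    al ^ 2 = al' ^ 2 ∧ be ^ 2 = be' ^ 2 ∧
    2 * ga + 3 * (al - be) = 2 * ga' + 3 * (al' - be') ∧
    2 * de + 25 * ((r * q : ℕ) : ℤ) * (al + be) = 2 * de' + 25 * ((r * q : ℕ) : ℤ) * (al' + be') :=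
  χ.layer_forms hq hr hD (E := substE K g h hg hh) (E' := substE K g' h' hg' hh')
    (w := xd) (κ := AA (r * q))
    (fun N hN => layerWt_xd (Nat.mul_pos hr hq) (by omega))
    (fun c f hf => subst_mem_Wle_xd g h hf) (fun c f hf => subst_mem_Wle_xd g⁻¹ h⁻¹ hf)
    (fun c f hf => subst_mem_Wle_xd g' h' hf) (fun c f hf => subst_mem_Wle_xd g'⁻¹ h'⁻¹ hf)
    hm hm' hR hR'

/-- (L) for flags and orders in which small `j` come first. -/
theorem layer_flags_y (χ : Filt T q D₀ r) (hq : 0 < q) (hr : 0 < r)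
    (hD : T.X.deg D₀ = 105 * T.t * q) {g h g' h' : Matrix (Fin 2) (Fin 2) ℂ}
    {hg : IsUnit g} {hh : IsUnit h} {hg' : IsUnit g'} {hh' : IsUnit h'}
    {m m' : MonomialOrder (Fin 4)}
    (hm : ∀ e e', m.toSyn e ≤ m.toSyn e' → e 2 + e 3 ≤ e' 2 + e' 3)
    (hm' : ∀ e e', m'.toSyn e ≤ m'.toSyn e' → e 2 + e 3 ≤ e' 2 + e' 3)
    {al be ga de al' be' ga' de' : ℤ}
    (hR : (χ.tw (substE K g h hg hh) (pres_substE hg hh)).Rigid m al be ga de)
    (hR' : (χ.tw (substE K g' h' hg' hh') (pres_substE hg' hh')).Rigid m' al' be' ga' de') :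
    al ^ 2 = al' ^ 2 ∧ be ^ 2 = be' ^ 2 ∧
    2 * ga + 3 * (al - be) = 2 * ga' + 3 * (al' - be') ∧
    2 * de + 25 * ((r * q : ℕ) : ℤ) * (al + be) = 2 * de' + 25 * ((r * q : ℕ) : ℤ) * (al' + be') :=
  χ.layer_forms hq hr hD (E := substE K g h hg hh) (E' := substE K g' h' hg' hh')
    (w := yd) (κ := BB (r * q))
    (fun N hN => layerWt_yd (Nat.mul_pos hr hq) (by omega))
    (fun c f hf => subst_mem_Wle_yd g h hf) (fun c f hf => subst_mem_Wle_yd g⁻¹ h⁻¹ hf)
    (fun c f hf => subst_mem_Wle_yd g' h' hf) (fun c f hf => subst_mem_Wle_yd g'⁻¹ h'⁻¹ hf)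
    hm hm' hR hR'

theorem anti_eps {ε : ℂ} (hε : ε = 1 ∨ ε = -1) : Anti !![0, 1; ε, 0] where
  z0 := rfl
  z1 := rfl
  n0 := one_ne_zero
  n1 := by
    show ε ≠ 0
    rcases hε with rfl | rfl
    · exact one_ne_zero
    · exact neg_ne_zero.2 one_ne_zero

/-- (S) -/
theorem Rigid.sign_eps {χ : Filt T q D₀ r} {m : MonomialOrder (Fin 4)}
    {al be ga de : ℤ} (hR : χ.Rigid m al be ga de)
    (hq : 0 < q) (hr : 0 < r) (hD : T.X.deg D₀ = 105 * T.t * q) {r1 r2 : ℕ}
    (hm : ∀ e e', m.toSyn e ≤ m.toSyn e' → e 0 + e 1 < e' 0 + e' 1 ∨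
      e 0 + e 1 = e' 0 + e' 1 ∧ r1 * e 1 + r2 * e 3 ≤ r1 * e' 1 + r2 * e' 3)
    {ε ε' : ℂ} (hε : ε = 1 ∨ ε = -1) (hε' : ε' = 1 ∨ ε' = -1)
    (hinv : ∀ N l, ∀ f ∈ χ.F N l, subst !![0, 1; ε, 0] !![0, 1; ε', 0] f ∈ χ.F N l) :
    0 ≤ al * r1 + be * r2 := by
  have h := hR.sign_lex hD hq hr (anti_eps hε) (anti_eps hε') hinv r1 r2 xd xd_swapE
    (fun N _ e _ e' _ h => hm e' e h)
  linarith

/-- (S), for a filtration stable under `map θ ∘ subst`. -/
theorem Rigid.sign_eps_map {χ : Filt T q D₀ r} {m : MonomialOrder (Fin 4)}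
    {al be ga de : ℤ} (hR : χ.Rigid m al be ga de)
    (hq : 0 < q) (hr : 0 < r) (hD : T.X.deg D₀ = 105 * T.t * q) {r1 r2 : ℕ}
    (hm : ∀ e e', m.toSyn e ≤ m.toSyn e' → e 0 + e 1 < e' 0 + e' 1 ∨
      e 0 + e 1 = e' 0 + e' 1 ∧ r1 * e 1 + r2 * e 3 ≤ r1 * e' 1 + r2 * e' 3)
    {ε ε' : ℂ} (hε : ε = 1 ∨ ε = -1) (hε' : ε' = 1 ∨ ε' = -1) (θ : K ≃ₐ[ℂ] K)
    (hinv : ∀ N l, ∀ f ∈ χ.F N l,
      MvPolynomial.map (θ : K →+* K) (subst !![0, 1; ε, 0] !![0, 1; ε', 0] f) ∈ χ.F N l) :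
    0 ≤ al * r1 + be * r2 := by
  have h := hR.sign_lex_map hD hq hr (anti_eps hε) (anti_eps hε') θ hinv r1 r2 xd xd_swapE
    (fun N _ e _ e' _ h => hm e' e h)
  linarith

/-- (T) -/
theorem total_forms (χ : Filt T q D₀ r) (hq : 0 < q) (hr : 0 < r)
    (hD : T.X.deg D₀ = 105 * T.t * q) {E E' : Autom K} {hE : Pres T q D₀ E} {hE' : Pres T q D₀ E'}
    {m m' : MonomialOrder (Fin 4)}
    {al be ga de al' be' ga' de' : ℤ} (hR : (χ.tw E hE).Rigid m al be ga de)
    (hR' : (χ.tw E' hE').Rigid m' al' be' ga' de') :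
    2 * de + 25 * ((r * q : ℕ) : ℤ) * (al + be) =
      2 * de' + 25 * ((r * q : ℕ) : ℤ) * (al' + be') ∧
    9109046 * (al ^ 2 + be ^ 2) * 4 + 1006853 * (2 * ga + 3 * (al - be)) ^ 2 =
      9109046 * (al' ^ 2 + be' ^ 2) * 4 + 1006853 * (2 * ga' + 3 * (al' - be')) ^ 2 := by
  have hdim : ∀ N : ℕ, 4 ≤ N → ∀ l : ℤ,
      finrank ℂ ((χ.tw E hE).F N l) = finrank ℂ ((χ.tw E' hE').F N l) := by
    intro N _ l
    rw [finrank_tw, finrank_tw]
  have h1 := hR.total_mean hR' hD hq hr hdim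
  have h2 := hR.total_second hR' hD hq hr hdim
  constructor
  · push_cast
    linarith
  · linarith

/-- (Max) -/
theorem max_forms (χ : Filt T q D₀ r) (hq : 0 < q) (hr : 0 < r)
    (hD : T.X.deg D₀ = 105 * T.t * q) {E E' : Autom K} {hE : Pres T q D₀ E} {hE' : Pres T q D₀ E'}
    {m m' : MonomialOrder (Fin 4)}
    {al be ga de al' be' ga' de' : ℤ} (hR : (χ.tw E hE).Rigid m al be ga de)
    (hR' : (χ.tw E' hE').Rigid m' al' be' ga' de') {μ : ℤ}
    (h : ∀ j a b, InR (r * q) 1 j a b → lw al be ga de 1 j a b ≤ μ)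
    {N : ℕ} {j : ℤ} {a b : ℕ} (hin : InR (r * q) N j a b) :
    lw al' be' ga' de' N j a b ≤ μ * N := by
  have hdim : ∀ N : ℕ, 4 ≤ N → ∀ l : ℤ,
      finrank ℂ ((χ.tw E' hE').F N l) = finrank ℂ ((χ.tw E hE).F N l) := by
    intro N _ l
    rw [finrank_tw, finrank_tw]
  apply hR'.max_le hR hD hq hr hdim _ hin
  intro N j a b hin
  obtain ⟨j₁, a₁, b₁, g1, _, g2⟩ := exists_min_vertex (-al) (-be) (-ga) (-de) (r * q)
  have g3 := g2 N j a b hin
  have g4 := h j₁ a₁ b₁ g1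
  have e1 : lw (-al) (-be) (-ga) (-de) N j a b = -lw al be ga de N j a b := by
    unfold lw
    ring
  have e2 : lw (-al) (-be) (-ga) (-de) 1 j₁ a₁ b₁ = -lw al be ga de 1 j₁ a₁ b₁ := by
    unfold lw
    ring
  rw [e1, e2] at g3
  have g5 : (N : ℤ) * lw al be ga de 1 j₁ a₁ b₁ ≤ N * μ :=
    mul_le_mul_of_nonneg_left g4 (by positivity)
  linarith

/-- (Min) -/
theorem min_forms (χ : Filt T q D₀ r) (hq : 0 < q) (hr : 0 < r)
    (hD : T.X.deg D₀ = 105 * T.t * q) {E E' : Autom K} {hE : Pres T q D₀ E} {hE' : Pres T q D₀ E'}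
    {m m' : MonomialOrder (Fin 4)}
    {al be ga de al' be' ga' de' : ℤ} (hR : (χ.tw E hE).Rigid m al be ga de)
    (hR' : (χ.tw E' hE').Rigid m' al' be' ga' de') {μ : ℤ}
    (h : ∀ j a b, InR (r * q) 1 j a b → μ ≤ lw al be ga de 1 j a b)
    {N : ℕ} {j : ℤ} {a b : ℕ} (hin : InR (r * q) N j a b) :
    μ * N ≤ lw al' be' ga' de' N j a b := by
  have hdim : ∀ N : ℕ, 4 ≤ N → ∀ l : ℤ,
      finrank ℂ ((χ.tw E' hE').F N l) = finrank ℂ ((χ.tw E hE).F N l) := by
    intro N _ l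
    rw [finrank_tw, finrank_tw]
  apply hR'.min_le hR hD hq hr hdim _ hin
  intro N j a b hin
  obtain ⟨j₁, a₁, b₁, g1, _, g2⟩ := exists_min_vertex al be ga de (r * q)
  have g3 := g2 N j a b hin
  have g4 := h j₁ a₁ b₁ g1
  have g5 : (N : ℤ) * μ ≤ N * lw al be ga de 1 j₁ a₁ b₁ :=
    mul_le_mul_of_nonneg_left g4 (by positivity)
  linarith

theorem min_forms_one (χ : Filt T q D₀ r) (hq : 0 < q) (hr : 0 < r)
    (hD : T.X.deg D₀ = 105 * T.t * q) {E E' : Autom K} {hE : Pres T q D₀ E} {hE' : Pres T q D₀ E'}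
    {m m' : MonomialOrder (Fin 4)}
    {al be ga de al' be' ga' de' : ℤ} (hR : (χ.tw E hE).Rigid m al be ga de)
    (hR' : (χ.tw E' hE').Rigid m' al' be' ga' de') {μ : ℤ}
    (h : ∀ j a b, InR (r * q) 1 j a b → μ ≤ lw al be ga de 1 j a b) :
    ∀ j a b, InR (r * q) 1 j a b → μ ≤ lw al' be' ga' de' 1 j a b := by
  intro j a b hin
  have := χ.min_forms hq hr hD hR hR' h hin
  simpa using this

theorem max_forms_one (χ : Filt T q D₀ r) (hq : 0 < q) (hr : 0 < r)
    (hD : T.X.deg D₀ = 105 * T.t * q) {E E' : Autom K} {hE : Pres T q D₀ E} {hE' : Pres T q D₀ E'}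
    {m m' : MonomialOrder (Fin 4)}
    {al be ga de al' be' ga' de' : ℤ} (hR : (χ.tw E hE).Rigid m al be ga de)
    (hR' : (χ.tw E' hE').Rigid m' al' be' ga' de') {μ : ℤ}
    (h : ∀ j a b, InR (r * q) 1 j a b → lw al be ga de 1 j a b ≤ μ) :
    ∀ j a b, InR (r * q) 1 j a b → lw al' be' ga' de' 1 j a b ≤ μ := by
  intro j a b hin
  have := χ.max_forms hq hr hD hR hR' h hin
  simpa using this

/-- (G), for an arbitrary order refining the weight `wxw`. -/
theorem Rigid.greedy_wx {χ : Filt T q D₀ r} {m m' : MonomialOrder (Fin 4)}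
    {ga de ga' de' : ℤ} (hR : χ.Rigid m 0 0 ga de) (hR' : χ.Rigid m' 0 0 ga' de')
    (hq : 0 < q) (hr : 0 < r) (hD : T.X.deg D₀ = 105 * T.t * q)
    (hm : ∀ e e', m.toSyn e ≤ m.toSyn e' →
      3 * e 1 + 2 * e 2 + 2 * e 3 ≤ 3 * e' 1 + 2 * e' 2 + 2 * e' 3) : ga ≤ ga' := by
  have hmean := hR.total_mean hR' hD hq hr (fun _ _ _ => rfl)
  have hde : de = de' := by linarith
  subst hde
  obtain ⟨C, hC0, hC⟩ := hR.greedy_two hR' hD hq hr (w := fun _ => wxw)
    (fun N _ e _ e' _ h => hm e' e h)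
    (B := 140 * (r * q : ℕ)) (by
      intro N hN j a b h
      have h1 := (inR_iff h.1).1 h
      have hj := mem_JJ.2 h.1
      have hj' : |(j : ℝ)| ≤ 5 * (r * q : ℕ) * N := by exact_mod_cast h.1
      rw [abs_le] at hj'
      have ha : (a : ℝ) ≤ AA (r * q) N j := by exact_mod_cast h1.1
      unfold wxw
      rw [expo_1, expo_2, expo_3]
      push_cast [Nat.cast_sub h1.2]
      rw [AA_real hj] at ha
      rw [BB_real hj]
      push_cast at ha hj' ⊢
      linarith)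
  have hval : ∀ N : ℕ, 4 ≤ N → ∑ j ∈ JJ (r * q) N, χ.vdim N j *
      ∑ a ∈ range (AA (r * q) N j + 1),
      ∑ b ∈ range (BB (r * q) N j + 1), (wxw (expo (r * q) N j a b) : ℝ) *
        ((lw 0 0 ga de N j a b : ℝ) - (lw 0 0 ga' de N j a b : ℝ)) =
      -(3 / 2 * (ga - ga') * χ.sJ N) := by
    intro N hN
    have e1 : ∀ j ∈ JJ (r * q) N, χ.vdim N j * ∑ a ∈ range (AA (r * q) N j + 1),
      ∑ b ∈ range (BB (r * q) N j + 1), (wxw (expo (r * q) N j a b) : ℝ) *
        ((lw 0 0 ga de N j a b : ℝ) - (lw 0 0 ga' de N j a b : ℝ)) =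
        -(3 / 2 * (ga - ga')) * (χ.msz N j * (j : ℝ) ^ 2) +
          (175 / 2 * (r * q : ℕ) * N * (ga - ga')) * (χ.msz N j * (j : ℝ)) := by
      intro j hj
      have e2 : ∑ a ∈ range (AA (r * q) N j + 1), ∑ b ∈ range (BB (r * q) N j + 1),
        (wxw (expo (r * q) N j a b) : ℝ) *
        ((lw 0 0 ga de N j a b : ℝ) - (lw 0 0 ga' de N j a b : ℝ)) =
        ∑ a ∈ range (AA (r * q) N j + 1), ∑ b ∈ range (BB (r * q) N j + 1),
        ((3 * (ga - ga') * j : ℝ) * a + 0 * b + 2 * BB (r * q) N j * (ga - ga') * j) := by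
        apply sum_congr rfl
        intro a ha
        apply sum_congr rfl
        intro b hb
        have hin := forall_JJ hj ha hb
        have h1 := (inR_iff hin.1).1 hin
        unfold wxw lw
        rw [expo_1, expo_2, expo_3]
        push_cast [Nat.cast_sub h1.2]
        ring
      rw [e2, sum_lin]
      unfold msz
      rw [AA_real hj, BB_real hj]
      ring
    rw [sum_congr rfl e1, sum_add_distrib, ← mul_sum, ← mul_sum, χ.sum_msz_odd hD hq hr hN]
    unfold sJ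
    ring
  by_contra hlt
  push Not at hlt
  have h1 : (1 : ℝ) ≤ (ga : ℝ) - ga' := by
    have : ga' + 1 ≤ ga := hlt
    have h2 : ((ga' + 1 : ℤ) : ℝ) ≤ ga := by exact_mod_cast this
    push_cast at h2
    linarith
  obtain ⟨n, hn⟩ := exists_nat_gt C
  have h2 := hC (n + 4) (by omega)
  rw [hval (n + 4) (by omega)] at h2
  have h3 := χ.le_sJ hD hq hr (N := n + 4) (by omega)
  have h4 : (0 : ℝ) < ((n + 4 : ℕ) : ℝ) ^ 4 := by positivity
  have h5 : C < ((n + 4 : ℕ) : ℝ) := by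
    push_cast
    linarith
  have h6 : C * ((n + 4 : ℕ) : ℝ) ^ 4 < ((n + 4 : ℕ) : ℝ) * ((n + 4 : ℕ) : ℝ) ^ 4 :=
    mul_lt_mul_of_pos_right h5 h4
  have h7 : ((n + 4 : ℕ) : ℝ) * ((n + 4 : ℕ) : ℝ) ^ 4 = ((n + 4 : ℕ) : ℝ) ^ 5 := by ring
  have h8 : (0 : ℝ) < ((n + 4 : ℕ) : ℝ) ^ 5 := by positivity
  have h9 : 1 * χ.sJ (n + 4) ≤ ((ga : ℝ) - ga') * χ.sJ (n + 4) :=
    mul_le_mul_of_nonneg_right h1 (by linarith)
  linarith

end Filt

end Pool.Agent.YTD


end

/- source: Pool.Agent.YTD.Spec -/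

section

/-!
Specialization of sections to the fibre over a point of the curve.
-/

namespace Pool.Agent.YTD

open Finset Module MvPolynomial Filter

variable {K : Type} [Field K] [Algebra ℂ K]

namespace CurveOrd

variable (X : CurveOrd K)

/-- the order of vanishing of `z` at `P` is at least `c`. -/
def vge (P : X.Pt) (c : ℤ) (z : K) : Prop := z ≠ 0 → c ≤ X.ord P z

variable {X}

theorem vge_zero (P : X.Pt) (c : ℤ) : X.vge P c 0 := fun h => (h rfl).elim

theorem vge.mono {P : X.Pt} {c c' : ℤ} {z : K} (h : X.vge P c z) (hc : c' ≤ c) : X.vge P c' z :=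
  fun h0 => hc.trans (h h0)

theorem vge.add {P : X.Pt} {c : ℤ} {z w : K} (hz : X.vge P c z) (hw : X.vge P c w) :
    X.vge P c (z + w) := by
  intro h
  by_cases hz0 : z = 0
  · subst hz0
    rw [zero_add] at h ⊢
    exact hw h
  by_cases hw0 : w = 0
  · subst hw0
    rw [add_zero] at h ⊢
    exact hz h
  exact (le_min (hz hz0) (hw hw0)).trans (X.ord_add P z w hz0 hw0 h)

theorem vge_sum {P : X.Pt} {c : ℤ} {ι : Type*} (s : Finset ι) (f : ι → K)
    (h : ∀ i ∈ s, X.vge P c (f i)) : X.vge P c (∑ i ∈ s, f i) := by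
  classical
  induction s using Finset.induction_on with
  | empty => exact vge_zero P c
  | insert a s ha ih =>
    rw [sum_insert ha]
    exact (h a (mem_insert_self _ _)).add (ih fun i hi => h i (mem_insert_of_mem hi))

theorem vge.mul {P : X.Pt} {c d : ℤ} {z w : K} (hz : X.vge P c z) (hw : X.vge P d w) :
    X.vge P (c + d) (z * w) := by
  intro h
  rw [X.ord_mul P z w (left_ne_zero_of_mul h) (right_ne_zero_of_mul h)]
  exact add_le_add (hz (left_ne_zero_of_mul h)) (hw (right_ne_zero_of_mul h))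

theorem ord_neg (P : X.Pt) {z : K} (hz : z ≠ 0) : X.ord P (-z) = X.ord P z := by
  have h1 : -z = algebraMap ℂ K (-1) * z := by
    rw [map_neg, map_one, neg_one_mul]
  have h2 : algebraMap ℂ K (-1) ≠ 0 := by
    rw [map_neg, map_one]
    exact neg_ne_zero.2 one_ne_zero
  rw [h1, X.ord_mul P _ _ h2 hz, X.ord_const P _ (by norm_num), zero_add]

theorem vge.neg {P : X.Pt} {c : ℤ} {z : K} (hz : X.vge P c z) : X.vge P c (-z) := by
  intro h
  have hz0 : z ≠ 0 := fun h0 => h (by rw [h0, neg_zero])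
  rw [ord_neg P hz0]
  exact hz hz0

theorem ord_add_eq {P : X.Pt} {c : ℤ} {z w : K} (hz0 : z ≠ 0) (hz : X.ord P z = c)
    (hw : X.vge P (c + 1) w) : z + w ≠ 0 ∧ X.ord P (z + w) = c := by
  have h0 : z + w ≠ 0 := by
    intro h
    have h1 : w = -z := by
      rw [eq_neg_iff_add_eq_zero, add_comm]
      exact h
    have h2 := hw (by rw [h1]; exact neg_ne_zero.2 hz0)
    rw [h1, ord_neg P hz0, hz] at h2
    linarith
  refine ⟨h0, ?_⟩
  have hzc : X.vge P c z := fun _ => hz.ge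
  have h1 := (hzc.add (hw.mono (by linarith))) h0
  by_contra h2
  have h3 : c + 1 ≤ X.ord P (z + w) := by
    rcases lt_or_eq_of_le h1 with h | h
    · linarith
    · exact absurd h.symm h2
  have h4 : X.vge P (c + 1) (z + w) := fun _ => h3
  have h5 := (h4.add hw.neg) (by rw [add_neg_cancel_right]; exact hz0)
  rw [add_neg_cancel_right, hz] at h5
  linarith

/-- all coefficients of `s` have order at least `-n` at `P`. -/
def Int (P : X.Pt) (n : ℤ) (s : MvPolynomial (Fin 4) K) : Prop :=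
  ∀ e, X.vge P (-n) (s.coeff e)

/-- `e` is the leading exponent of the restriction of `s` to the fibre over `P`. -/
def SpecLead (m : MonomialOrder (Fin 4)) (P : X.Pt) (n : ℤ) (s : MvPolynomial (Fin 4) K)
    (e : Fin 4 →₀ ℕ) : Prop :=
  s.coeff e ≠ 0 ∧ X.ord P (s.coeff e) = -n ∧
    ∀ e', m.toSyn e < m.toSyn e' → X.vge P (-n + 1) (s.coeff e')

theorem Int.mul {P : X.Pt} {n n' : ℤ} {s s' : MvPolynomial (Fin 4) K} (h : X.Int P n s)
    (h' : X.Int P n' s') : X.Int P (n + n') (s * s') := by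
  classical
  intro e
  rw [coeff_mul]
  apply vge_sum
  intro x _
  have := (h x.1).mul (h' x.2)
  exact this.mono (by linarith)

theorem SpecLead.mul {m : MonomialOrder (Fin 4)} {P : X.Pt} {n n' : ℤ}
    {s s' : MvPolynomial (Fin 4) K} {e e' : Fin 4 →₀ ℕ} (hi : X.Int P n s) (hi' : X.Int P n' s')
    (h : X.SpecLead m P n s e) (h' : X.SpecLead m P n' s' e') :
    X.SpecLead m P (n + n') (s * s') (e + e') := by
  classical
  -- the terms of the product
  have key : ∀ x : (Fin 4 →₀ ℕ) × (Fin 4 →₀ ℕ), m.toSyn (e + e') ≤ m.toSyn (x.1 + x.2) →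
      x ≠ (e, e') → X.vge P (-(n + n') + 1) (s.coeff x.1 * s'.coeff x.2) := by
    intro x hx hne
    rw [map_add, map_add] at hx
    rcases lt_trichotomy (m.toSyn e) (m.toSyn x.1) with h1 | h1 | h1
    · exact ((h.2.2 _ h1).mul (hi' x.2)).mono (by linarith)
    · have h2 : m.toSyn e' ≤ m.toSyn x.2 := by
        rw [h1] at hx
        exact le_of_add_le_add_left hx
      rcases lt_or_eq_of_le h2 with h3 | h3
      · exact ((hi x.1).mul (h'.2.2 _ h3)).mono (by linarith)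
      · exact absurd (Prod.ext (m.toSyn.injective h1.symm) (m.toSyn.injective h3.symm)) hne
    · have h2 : m.toSyn e' < m.toSyn x.2 := by
        by_contra h3
        push Not at h3
        have := add_lt_add_of_lt_of_le h1 h3
        exact absurd hx (not_le.2 this)
      exact ((hi x.1).mul (h'.2.2 _ h2)).mono (by linarith)
  have h1 : (s * s').coeff (e + e') = s.coeff e * s'.coeff e' +
      ∑ x ∈ (antidiagonal (e + e')).erase (e, e'), s.coeff x.1 * s'.coeff x.2 := by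
    have hm : ((e, e') : (Fin 4 →₀ ℕ) × (Fin 4 →₀ ℕ)) ∈ HasAntidiagonal.antidiagonal (e + e') :=
      HasAntidiagonal.mem_antidiagonal.2 rfl
    rw [coeff_mul]
    symm
    exact Finset.add_sum_erase _ (fun x => s.coeff x.1 * s'.coeff x.2) hm
  have h2 : X.vge P (-(n + n') + 1)
      (∑ x ∈ (antidiagonal (e + e')).erase (e, e'), s.coeff x.1 * s'.coeff x.2) := by
    apply vge_sum
    intro x hx
    rw [mem_erase, HasAntidiagonal.mem_antidiagonal] at hx
    exact key x (by rw [hx.2]) hx.1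
  have h3 := ord_add_eq (P := P) (c := -(n + n')) (mul_ne_zero h.1 h'.1)
    (by rw [X.ord_mul P _ _ h.1 h'.1, h.2.1, h'.2.1]; ring) h2
  rw [← h1] at h3
  refine ⟨h3.1, h3.2, ?_⟩
  intro e'' he''
  rw [coeff_mul]
  apply vge_sum
  intro x hx
  rw [HasAntidiagonal.mem_antidiagonal] at hx
  apply key x (by rw [hx]; exact he''.le)
  rintro rfl
  rw [← hx] at he''
  exact lt_irrefl _ he''

end CurveOrd

end Pool.Agent.YTD


end

/- source: Pool.Agent.YTD.Spec2 -/

section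

/-!
Counting the leading exponents of the restrictions of sections to a fibre.
-/

namespace Pool.Agent.YTD

open Finset Module MvPolynomial Filter CurveOrd

variable {K : Type} [Field K] [Algebra ℂ K]
variable {T : Datum K} {q : ℕ} {D₀ : T.X.Pt →₀ ℤ} {r : ℕ}

/-- the affine weight as a function of the exponent. -/
noncomputable def lwE (al be ga de : ℤ) (Q M : ℕ) (e : Fin 4 →₀ ℕ) : ℤ :=
  lw al be ga de M (((e 0 : ℤ) + e 1 - 25 * Q * M) / 3) (e 1) (e 3)

theorem lwE_expo (al be ga de : ℤ) {Q M : ℕ} {j : ℤ} {a b : ℕ} (h : InR Q M j a b) :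
    lwE al be ga de Q M (expo Q M j a b) = lw al be ga de M j a b := by
  unfold lwE
  rw [expo_sum_x h, expo_1, expo_3]
  congr 1
  have : 25 * (Q : ℤ) * M + 3 * j - 25 * Q * M = 3 * j := by ring
  rw [this]
  exact Int.mul_ediv_cancel_left j (by norm_num)

theorem dvs_off {Q : ℕ} {D : T.X.Pt →₀ ℤ} {P : T.X.Pt} (hS : P ∉ T.S) (hS' : P ∉ T.S') (M : ℕ)
    (j : ℤ) : T.dvs Q D M j P = M * D P := by
  classical
  rw [dvs_apply, Finsupp.finsetSum_apply, Finsupp.finsetSum_apply]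
  rw [sum_eq_zero, sum_eq_zero]
  · ring
  · intro x hx
    rw [Finsupp.single_apply, if_neg]
    rintro rfl
    exact hS' hx
  · intro x hx
    rw [Finsupp.single_apply, if_neg]
    rintro rfl
    exact hS hx

theorem sec_int {Q : ℕ} {D : T.X.Pt →₀ ℤ} {P : T.X.Pt} (hS : P ∉ T.S) (hS' : P ∉ T.S') {M : ℕ}
    {s : MvPolynomial (Fin 4) K} (hs : s ∈ T.sec Q D M) : T.X.Int P (M * D P) s := by
  intro e he
  obtain ⟨j, _, _, _, h⟩ := hs e he
  have := h he P
  rw [dvs_off hS hS'] at this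
  linarith

theorem expo_nsmul {Q N : ℕ} {j : ℤ} {a b : ℕ} (hin : InR Q N j a b) (k : ℕ) :
    k • expo Q N j a b = expo Q (k * N) (k * j) (k * a) (k * b) := by
  have hkin := hin.smul k
  ext i
  rw [Finsupp.smul_apply, smul_eq_mul]
  have h3 := hin.1
  have h4 := hkin.1
  have hA : AA Q (k * N) (k * j) = k * AA Q N j := by
    zify
    rw [AA_cast h4, AA_cast h3]
    push_cast
    ring
  have hB : BB Q (k * N) (k * j) = k * BB Q N j := by
    zify
    rw [BB_cast h4, BB_cast h3]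
    push_cast
    ring
  fin_cases i
  · show k * expo Q N j a b 0 = expo Q (k * N) (k * j) (k * a) (k * b) 0
    rw [expo_0, expo_0, hA, Nat.mul_sub]
  · rfl
  · show k * expo Q N j a b 2 = expo Q (k * N) (k * j) (k * a) (k * b) 2
    rw [expo_2, expo_2, hB, Nat.mul_sub]
  · rfl

theorem CurveOrd.SpecLead.pow {X : CurveOrd K} {m : MonomialOrder (Fin 4)} {P : X.Pt} {n : ℤ}
    {s : MvPolynomial (Fin 4) K} {e : Fin 4 →₀ ℕ} (hi : X.Int P n s)
    (h : X.SpecLead m P n s e) (k : ℕ) :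
    X.Int P (k * n) (s ^ k) ∧ X.SpecLead m P (k * n) (s ^ k) (k • e) := by
  classical
  induction k with
  | zero =>
    have h1 : X.Int P (((0 : ℕ) : ℤ) * n) (s ^ 0) := by
      intro e he
      rw [pow_zero, ← C_1, coeff_C] at he ⊢
      split_ifs at he ⊢ with h0
      · rw [X.ord_one]
        simp
      · exact absurd rfl he
    refine ⟨h1, ?_, ?_, ?_⟩
    · rw [zero_smul, pow_zero, ← C_1, coeff_C, if_pos rfl]
      exact one_ne_zero
    · rw [zero_smul, pow_zero, ← C_1, coeff_C, if_pos rfl, X.ord_one]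
      simp
    · intro e' he'
      rw [zero_smul] at he'
      rw [pow_zero, ← C_1, coeff_C, if_neg]
      · exact vge_zero _ _
      · rintro rfl
        exact lt_irrefl _ he'
  | succ k ih =>
    have e1 : ((k + 1 : ℕ) : ℤ) * n = k * n + n := by push_cast; ring
    rw [pow_succ, e1, succ_nsmul]
    exact ⟨ih.1.mul hi, ih.2.mul ih.1 hi h⟩

namespace Filt

variable {χ : Filt T q D₀ r}

/-- exponents of elements of the `K`-span. -/
theorem mem_Eset_of_span {M : ℕ} {l : ℤ} {f : MvPolynomial (Fin 4) K}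
    (hf : f ∈ Submodule.span K (χ.F M l : Set (MvPolynomial (Fin 4) K))) {e : Fin 4 →₀ ℕ}
    (he : f.coeff e ≠ 0) : e ∈ Eset (r * q) M := by
  by_contra h
  apply he
  clear he
  induction hf using Submodule.span_induction with
  | mem x hx =>
    by_contra h1
    exact h (T.mem_Eset_of_coeff (χ.F_le M l hx) h1)
  | zero => simp
  | add x y _ _ hx hy => rw [coeff_add, hx, hy, add_zero]
  | smul c x _ hx => rw [coeff_smul, hx, smul_zero]

open Classical in
/-- the leading exponents of the restrictions to the fibre over `P` of the elements of `F M l`. -/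
noncomputable def specSet (χ : Filt T q D₀ r) (m : MonomialOrder (Fin 4)) (P : T.X.Pt) (M : ℕ)
    (l : ℤ) : Finset (Fin 4 →₀ ℕ) :=
  (Eset (r * q) M).filter fun e => ∃ s ∈ χ.F M l, T.X.SpecLead m P (M * (r • D₀) P) s e

theorem Rigid.card_specSet_le {m : MonomialOrder (Fin 4)} {al be ga de : ℤ}
    (hR : χ.Rigid m al be ga de) (P₀ : T.X.Pt) (hQ : 0 < r * q)
    (hD : T.X.deg (r • D₀) = 105 * T.t * (r * q : ℕ)) {P : T.X.Pt} (hS : P ∉ T.S) (hS' : P ∉ T.S')
    (M : ℕ) (l : ℤ) : (χ.specSet m P M l).card ≤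
      ((Eset (r * q) M).filter fun e => l ≤ lwE al be ga de (r * q) M e).card := by
  classical
  set I := χ.specSet m P M l with hI
  set J := (Eset (r * q) M).filter fun e => l ≤ lwE al be ga de (r * q) M e with hJ
  have hIs : ∀ e : I, ∃ s ∈ χ.F M l, T.X.SpecLead m P (M * (r • D₀) P) s (e : Fin 4 →₀ ℕ) := by
    intro e
    exact (mem_filter.1 e.2).2
  choose s hs hs' using hIs
  have hint : ∀ e : I, T.X.Int P (M * (r • D₀) P) (s e) := fun e => sec_int hS hS' (χ.F_le M l (hs e))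
  let Ψ : (I → K) →ₗ[K] MvPolynomial (Fin 4) K :=
    { toFun := fun x => ∑ e : I, x e • s e
      map_add' := by
        intro x y
        rw [← sum_add_distrib]
        exact sum_congr rfl fun e _ => by rw [Pi.add_apply, add_smul]
      map_smul' := by
        intro c x
        rw [RingHom.id_apply, smul_sum]
        exact sum_congr rfl fun e _ => by rw [Pi.smul_apply, smul_eq_mul, mul_smul] }
  have hΨ : ∀ x, Ψ x = ∑ e : I, x e • s e := fun x => rfl
  have hΨspan : ∀ x, Ψ x ∈ Submodule.span K (χ.F M l : Set (MvPolynomial (Fin 4) K)) := by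
    intro x
    rw [hΨ]
    exact sum_mem fun e _ => Submodule.smul_mem _ _ (Submodule.subset_span (hs e))
  -- non-vanishing
  have hne : ∀ x, x ≠ 0 → Ψ x ≠ 0 := by
    intro x hx
    obtain ⟨e₀, he₀⟩ := Function.ne_iff.1 hx
    have hA : (univ.filter fun e : I => x e ≠ 0).Nonempty := ⟨e₀, by simpa using he₀⟩
    obtain ⟨e₁, he₁, hmin⟩ := exists_min_image _ (fun e => T.X.ord P (x e)) hA
    rw [mem_filter] at he₁
    set v := T.X.ord P (x e₁) with hv
    have hB : (univ.filter fun e : I => x e ≠ 0 ∧ T.X.ord P (x e) = v).Nonempty :=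
      ⟨e₁, by
        rw [mem_filter]
        exact ⟨mem_univ _, he₁.2, rfl⟩⟩
    obtain ⟨e₂, he₂, hmax⟩ := exists_max_image _ (fun e : I => m.toSyn (e : Fin 4 →₀ ℕ)) hB
    rw [mem_filter] at he₂
    obtain ⟨_, hx2, hord2⟩ := he₂
    intro h0
    have h1 : (Ψ x).coeff (e₂ : Fin 4 →₀ ℕ) = x e₂ * (s e₂).coeff (e₂ : Fin 4 →₀ ℕ) +
        ∑ e ∈ univ.erase e₂, x e * (s e).coeff (e₂ : Fin 4 →₀ ℕ) := by
      rw [hΨ, coeff_sum]
      simp only [coeff_smul, smul_eq_mul]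
      symm
      exact Finset.add_sum_erase univ (fun e => x e * (s e).coeff (e₂ : Fin 4 →₀ ℕ)) (mem_univ _)
    have h2 : T.X.vge P (v + -(M * (r • D₀) P) + 1)
        (∑ e ∈ univ.erase e₂, x e * (s e).coeff (e₂ : Fin 4 →₀ ℕ)) := by
      apply vge_sum
      intro e he
      rw [mem_erase] at he
      by_cases hxe : x e = 0
      · rw [hxe, zero_mul]
        exact vge_zero _ _
      have hve : v ≤ T.X.ord P (x e) := hmin e (by
        rw [mem_filter]
        exact ⟨mem_univ _, hxe⟩)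
      rcases lt_or_eq_of_le hve with h3 | h3
      · have g1 : T.X.vge P (v + 1) (x e) := fun _ => h3
        exact (g1.mul (hint e (e₂ : Fin 4 →₀ ℕ))).mono (by linarith)
      · have g2 : m.toSyn (e : Fin 4 →₀ ℕ) ≤ m.toSyn (e₂ : Fin 4 →₀ ℕ) := hmax e (by
          rw [mem_filter]
          exact ⟨mem_univ _, hxe, h3.symm⟩)
        have g3 : m.toSyn (e : Fin 4 →₀ ℕ) ≠ m.toSyn (e₂ : Fin 4 →₀ ℕ) := by
          intro h4
          exact he.1 (Subtype.ext (m.toSyn.injective h4))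
        have g4 := (hs' e).2.2 _ (lt_of_le_of_ne g2 g3)
        have g5 : T.X.vge P v (x e) := fun _ => hve
        exact (g5.mul g4).mono (by linarith)
    have h3 := ord_add_eq (P := P) (c := v + -(M * (r • D₀) P))
      (mul_ne_zero hx2 (hs' e₂).1) (by
        rw [T.X.ord_mul P _ _ hx2 (hs' e₂).1, hord2, (hs' e₂).2.1]) h2
    rw [← h1, h0, coeff_zero] at h3
    exact h3.1 rfl
  -- the comparison of dimensions
  let Φ : (I → K) →ₗ[K] (J → K) := LinearMap.pi fun e => (MvPolynomial.lcoeff K (e : Fin 4 →₀ ℕ)).comp Ψ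
  have hΦ : Function.Injective Φ := by
    rw [injective_iff_map_eq_zero]
    intro x hx
    by_contra hx0
    have h1 := hne x hx0
    have h2 := MonomialOrder.degree_mem_support (m := m) h1
    rw [MvPolynomial.mem_support_iff] at h2
    have h3 := mem_Eset_of_span (hΨspan x) h2
    obtain ⟨j, a, b, hin, he⟩ := mem_Eset.1 h3
    have h4 := hR.kspan P₀ hQ hD (hΨspan x) h1 hin he
    have h5 : m.degree (Ψ x) ∈ J := by
      rw [hJ, mem_filter]
      refine ⟨h3, ?_⟩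
      rw [he, lwE_expo _ _ _ _ hin]
      exact h4
    have h6 := congrFun hx ⟨_, h5⟩
    exact h2 h6
  have h := LinearMap.finrank_le_finrank_of_injective hΦ
  rw [Module.finrank_pi, Module.finrank_pi, Fintype.card_coe, Fintype.card_coe] at h
  exact h

/-- full pieces give leading exponents on the fibre. -/
theorem mem_specSet_of_full (P₀ : T.X.Pt) (hQ : 0 < r * q)
    (hD : T.X.deg (r • D₀) = 105 * T.t * (r * q : ℕ)) {P : T.X.Pt} (hS : P ∉ T.S) (hS' : P ∉ T.S')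
    {m : MonomialOrder (Fin 4)} {M : ℕ} (hM : 4 ≤ M) {l : ℤ} {e : Fin 4 →₀ ℕ}
    (he : e ∈ Eset (r * q) M)
    (hfull : ini m (χ.F M l) e = ini m (T.sec (r * q) (r • D₀) M) e) : e ∈ χ.specSet m P M l := by
  classical
  unfold specSet
  rw [mem_filter]
  refine ⟨he, ?_⟩
  obtain ⟨j, a, b, hin, rfl⟩ := mem_Eset.1 he
  rw [T.ini_sec m hin] at hfull
  obtain ⟨z, hz, hz0, hz1⟩ := T.X.exists_ord_eq P₀ (Graded.deg_ge hD hQ hM hin.1) P
  have hz' : z ∈ ini m (χ.F M l) (expo (r * q) M j a b) := by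
    rw [hfull]
    exact hz
  obtain ⟨s, hs, hs1, rfl⟩ := mem_ini.1 hz'
  refine ⟨s, hs, hz0, ?_, ?_⟩
  · rw [hz1, dvs_off hS hS']
  · intro e' he'
    have : s.coeff e' = 0 := by
      by_contra h
      exact absurd (hs1 e' h) (not_le.2 he')
    rw [this]
    exact vge_zero _ _

open Classical in
/-- the number of non-full pieces is `O(M^3)`. -/
theorem Rigid.count {m : MonomialOrder (Fin 4)} {al be ga de : ℤ}
    (hR : χ.Rigid m al be ga de) (P₀ : T.X.Pt) : ∃ C : ℝ, 0 ≤ C ∧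
      ∀ (M : ℕ) (Ls : (Fin 4 →₀ ℕ) → Finset ℤ), 4 ≤ M →
      ∑ e ∈ Eset (r * q) M, (((Ls e).filter fun l => l ≤ lwE al be ga de (r * q) M e ∧
        ini m (χ.F M l) e ≠ ini m (T.sec (r * q) (r • D₀) M) e).card : ℝ) ≤ C * (M : ℝ) ^ 3 := by
  obtain ⟨C, hC⟩ := hR.full
  refine ⟨max C 0, le_max_right _ _, ?_⟩
  intro M Ls hM
  have hM3 : (0 : ℝ) ≤ (M : ℝ) ^ 3 := by positivity
  refine le_trans ?_ ((hC M hM).trans (mul_le_mul_of_nonneg_right (le_max_left _ _) hM3))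
  rw [sum_Eset]
  apply sum_le_sum
  intro j hj
  apply sum_le_sum
  intro a ha
  apply sum_le_sum
  intro b hb
  have hin : InR (r * q) M j a b := (inR_iff (mem_Icc_iff'.1 hj)).2
    ⟨Nat.lt_succ_iff.1 (mem_range.1 ha), Nat.lt_succ_iff.1 (mem_range.1 hb)⟩
  rw [lwE_expo _ _ _ _ hin, T.ini_sec m hin]
  have hfinV : FiniteDimensional ℂ (T.V (r * q) (r • D₀) M j) := T.X.finite_L P₀ _
  calc ((((Ls (expo (r * q) M j a b)).filter fun l => l ≤ lw al be ga de M j a b ∧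
        ini m (χ.F M l) (expo (r * q) M j a b) ≠ T.V (r * q) (r • D₀) M j).card : ℕ) : ℝ)
      = ∑ _l ∈ (Ls (expo (r * q) M j a b)).filter (fun l => l ≤ lw al be ga de M j a b ∧
        ini m (χ.F M l) (expo (r * q) M j a b) ≠ T.V (r * q) (r • D₀) M j), (1 : ℝ) := by
        rw [sum_const, nsmul_eq_mul, mul_one]
    _ ≤ ∑ l ∈ (Ls (expo (r * q) M j a b)).filter (fun l => l ≤ lw al be ga de M j a b ∧
        ini m (χ.F M l) (expo (r * q) M j a b) ≠ T.V (r * q) (r • D₀) M j),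
          ((finrank ℂ (T.V (r * q) (r • D₀) M j) : ℝ) -
            finrank ℂ (ini m (χ.F M l) (expo (r * q) M j a b))) := by
        apply sum_le_sum
        intro l hl
        rw [mem_filter] at hl
        have h1 : ini m (χ.F M l) (expo (r * q) M j a b) < T.V (r * q) (r • D₀) M j :=
          lt_of_le_of_ne (χ.ini_le m hin) hl.2.2
        have h2 := Submodule.finrank_lt_finrank_of_lt h1
        have h3 : (finrank ℂ (ini m (χ.F M l) (expo (r * q) M j a b)) : ℝ) + 1 ≤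
          finrank ℂ (T.V (r * q) (r • D₀) M j) := by exact_mod_cast h2
        linarith
    _ ≤ _ := by
        apply sum_le_sum_of_subset_of_nonneg
        · intro l hl
          rw [mem_filter] at hl
          rw [mem_Ioc]
          refine ⟨?_, hl.2.1⟩
          by_contra h
          push Not at h
          apply hl.2.2
          rw [χ.F_eq_sec h, T.ini_sec m hin]
        · intro l _ _
          exact χ.codim_nonneg P₀ m l hin

end Filt

end Pool.Agent.YTD


end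

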