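import Pool.Agent.YTDM.P17

/- source: Pool.Agent.YTD.MaxSlope -/

section

/-!
The maximal slope of a filtration: it is attained for test configurations, and it is the maximum
of the affine weight of a rigid filtration.
-/

namespace Pool.Agent.YTD

open Finset Module MvPolynomial

variable {K : Type} [Field K] [Algebra ℂ K]
variable {T : Datum K} {q : ℕ} {D₀ : T.X.Pt →₀ ℤ} {r : ℕ}

theorem deg_crit_mul (hD : T.X.deg D₀ = 105 * T.t * q) (r : ℕ) :
    T.X.deg (r • D₀) = 105 * T.t * ((r * q : ℕ) : ℤ) := by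
  rw [T.X.deg_nsmul, hD]
  push_cast
  ring

theorem finrank_V_ge (hD : T.X.deg D₀ = 105 * T.t * q) (hq : 0 < q) {N : ℕ} (hN : 4 ≤ N) {j : ℤ}
    (hj : |j| ≤ 5 * q * N) : N ≤ finrank ℂ (T.V q D₀ N j) := by
  have ht : (1 : ℤ) ≤ T.t := by exact_mod_cast T.t_pos
  have hq' : (1 : ℤ) ≤ q := by exact_mod_cast hq
  have hN' : (4 : ℤ) ≤ N := by exact_mod_cast hN
  have h1 := le_dg (t := T.t) hj
  have h2 := deg_dvs_crit T q D₀ hD N j
  have hg : (T.X.genus : ℤ) = 9 * T.t + 1 := by
    rw [T.genus_eq]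
    push_cast
    ring
  have hqN : (N : ℤ) ≤ q * N := by nlinarith
  have h3 : 5 * (T.t : ℤ) * N ≤ 5 * (T.t : ℤ) * q * N := by
    have : 5 * (T.t : ℤ) * N ≤ 5 * (T.t : ℤ) * (q * N) :=
      mul_le_mul_of_nonneg_left hqN (by positivity)
    linarith
  have h4 : 5 * (T.t : ℤ) * 4 ≤ 5 * (T.t : ℤ) * N :=
    mul_le_mul_of_nonneg_left hN' (by positivity)
  have h5 := T.X.riemann_roch (T.dvs q D₀ N j) (by rw [h2, hg]; linarith)
  rw [h2, hg] at h5
  have h6 : (N : ℤ) ≤ finrank ℂ (T.V q D₀ N j) := by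
    show (N : ℤ) ≤ finrank ℂ (T.X.L (T.dvs q D₀ N j))
    rw [h5]
    nlinarith
  exact_mod_cast h6

theorem sum_range_box {A B a₀ b₀ n : ℕ} (ha : a₀ + n ≤ A) (hb : b₀ + n ≤ B) {f : ℕ → ℕ → ℝ}
    (hf : ∀ a ≤ A, ∀ b ≤ B, 0 ≤ f a b) {c : ℝ}
    (hc : ∀ a ≤ n, ∀ b ≤ n, c ≤ f (a₀ + a) (b₀ + b)) :
    ((n : ℝ) + 1) ^ 2 * c ≤ ∑ a ∈ range (A + 1), ∑ b ∈ range (B + 1), f a b := by
  have h1 : ∑ a ∈ (range (n + 1)).image (fun a => a₀ + a),
      ∑ b ∈ (range (n + 1)).image (fun b => b₀ + b), f a b ≤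
      ∑ a ∈ range (A + 1), ∑ b ∈ range (B + 1), f a b := by
    have hsa : (range (n + 1)).image (fun a => a₀ + a) ⊆ range (A + 1) := by
      intro a h
      obtain ⟨a', h', rfl⟩ := mem_image.1 h
      rw [mem_range] at h' ⊢
      omega
    have hsb : (range (n + 1)).image (fun b => b₀ + b) ⊆ range (B + 1) := by
      intro a h
      obtain ⟨a', h', rfl⟩ := mem_image.1 h
      rw [mem_range] at h' ⊢
      omega
    refine (sum_le_sum fun a ha' => sum_le_sum_of_subset_of_nonneg hsb fun b hb' _ => ?_).trans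
      (sum_le_sum_of_subset_of_nonneg hsa fun a ha' _ => sum_nonneg fun b hb' => ?_)
    · have h2 := hsa ha'
      rw [mem_range] at h2 hb'
      exact hf a (by omega) b (by omega)
    · rw [mem_range] at ha' hb'
      exact hf a (by omega) b (by omega)
  refine le_trans ?_ h1
  rw [sum_image (fun a _ a' _ h => by simpa using h)]
  have h3 : ∀ a ∈ range (n + 1), ((n : ℝ) + 1) * c ≤
      ∑ b ∈ (range (n + 1)).image (fun b => b₀ + b), f (a₀ + a) b := by
    intro a ha'
    rw [sum_image (fun a _ a' _ h => by simpa using h)]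
    have := card_nsmul_le_sum (range (n + 1)) (fun b => f (a₀ + a) (b₀ + b)) c (fun b hb' => by
      rw [mem_range] at ha' hb'
      exact hc a (by omega) b (by omega))
    rw [card_range, nsmul_eq_mul] at this
    push_cast at this
    exact this
  have h4 := card_nsmul_le_sum (range (n + 1)) _ (((n : ℝ) + 1) * c) h3
  rw [card_range, nsmul_eq_mul] at h4
  push_cast at h4
  rw [sq, mul_assoc]
  exact h4

namespace Filt

variable {χ : Filt T q D₀ r} {m : MonomialOrder (Fin 4)} {al be ga de : ℤ}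

theorem ini_le_V_slope (χ : Filt T q D₀ r) (m : MonomialOrder (Fin 4)) {N : ℕ} (l : ℤ) {j : ℤ} {a b : ℕ}
    (h : InR (r * q) N j a b) :
    ini m (χ.F N l) (expo (r * q) N j a b) ≤ T.V (r * q) (r • D₀) N j := by
  rw [← T.ini_sec m h, T.sec_mul]
  exact ini_mono (χ.le N l) _

theorem finite_V (P₀ : T.X.Pt) (q N : ℕ) (D₀ : T.X.Pt →₀ ℤ) (j : ℤ) :
    FiniteDimensional ℂ (T.V q D₀ N j) := T.X.finite_L P₀ _

/-- all terms of the deficit sums are nonnegative. -/
theorem defi_nonneg (P₀ : T.X.Pt) (χ : Filt T q D₀ r) (m : MonomialOrder (Fin 4)) {N : ℕ} (l : ℤ)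
    {j : ℤ} {a b : ℕ} (h : InR (r * q) N j a b) :
    0 ≤ (finrank ℂ (T.V (r * q) (r • D₀) N j) : ℝ) -
      finrank ℂ (ini m (χ.F N l) (expo (r * q) N j a b)) := by
  have := finite_V P₀ (r * q) N (r • D₀) j
  have h1 := Submodule.finrank_mono (χ.ini_le_V_slope m l h)
  have : ((finrank ℂ (ini m (χ.F N l) (expo (r * q) N j a b)) : ℕ) : ℝ) ≤
    finrank ℂ (T.V (r * q) (r • D₀) N j) := by exact_mod_cast h1
  linarith

/-- In a large enough box below the affine weight some initial space is not zero. -/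
theorem Rigid.exists_ne_bot (hR : χ.Rigid m al be ga de) (P₀ : T.X.Pt) (hQ : 0 < r * q)
    (hD : T.X.deg (r • D₀) = 105 * T.t * ((r * q : ℕ) : ℤ)) (M : ℕ) (hM : 0 < M) :
    ∃ n₀ : ℕ, ∀ n ≥ n₀, ∀ (j : ℤ) (a₀ b₀ : ℕ) (l : ℤ),
      (∀ a ≤ n, ∀ b ≤ n, InR (r * q) (M * n) j (a₀ + a) (b₀ + b) ∧
        l + n ≤ lw al be ga de (M * n) j (a₀ + a) (b₀ + b)) →
      ∃ a ≤ n, ∃ b ≤ n, ini m (χ.F (M * n) l) (expo (r * q) (M * n) j (a₀ + a) (b₀ + b)) ≠ ⊥ := by
  obtain ⟨C, hC⟩ := hR.full
  refine ⟨4 + (Nat.ceil (C * M ^ 2) + 1), ?_⟩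
  intro n hn j a₀ b₀ l hbox
  have hn4 : 4 ≤ n := by omega
  have hN : 4 ≤ M * n := le_trans hn4 (Nat.le_mul_of_pos_left n hM)
  by_contra hcon
  push Not at hcon
  have h00 := hbox 0 (Nat.zero_le _) 0 (Nat.zero_le _)
  have hj := h00.1.1
  -- `l` is above the trivial range
  have hV : (M * n : ℕ) ≤ finrank ℂ (T.V (r * q) (r • D₀) (M * n) j) := finrank_V_ge hD hQ hN hj
  have hl : -((χ.lam : ℤ) * ((M * n : ℕ) : ℤ)) < l := by
    by_contra hl
    have h1 : χ.F (M * n) l = T.sec q D₀ (r * (M * n)) := χ.F_of_le (not_lt.1 hl)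
    have h2 := hcon 0 (Nat.zero_le _) 0 (Nat.zero_le _)
    rw [h1, ← T.sec_mul, T.ini_sec m h00.1] at h2
    rw [h2, finrank_bot] at hV
    omega
  have hfull := hC (M * n) hN
  -- restrict to the layer `j`
  have hsub := single_le_sum (s := Icc (-((5 * (r * q) * (M * n) : ℕ) : ℤ))
      ((5 * (r * q) * (M * n) : ℕ) : ℤ)) (f := fun j => ∑ a ∈ range (AA (r * q) (M * n) j + 1),
      ∑ b ∈ range (BB (r * q) (M * n) j + 1),
        ∑ l ∈ Ioc (-((χ.lam : ℤ) * ((M * n : ℕ) : ℤ))) (lw al be ga de (M * n) j a b),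
          ((finrank ℂ (T.V (r * q) (r • D₀) (M * n) j) : ℝ) -
            finrank ℂ (ini m (χ.F (M * n) l) (expo (r * q) (M * n) j a b)))) (by
      intro j' hj'
      have hj'' := mem_Icc_iff'.1 hj'
      refine sum_nonneg fun a ha => sum_nonneg fun b hb => sum_nonneg fun l' _ => ?_
      rw [mem_range] at ha hb
      exact defi_nonneg P₀ χ m l' ((inR_iff hj'').2 ⟨by omega, by omega⟩)) (mem_Icc_iff'.2 hj)
  have h1 := hsub.trans hfull
  -- the box
  have hnn := hbox n le_rfl n le_rfl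
  have hAB := (inR_iff hj).1 hnn.1
  have h2 := sum_range_box (A := AA (r * q) (M * n) j) (B := BB (r * q) (M * n) j) (a₀ := a₀)
    (b₀ := b₀) (n := n) hAB.1 hAB.2 (f := fun a b =>
        ∑ l ∈ Ioc (-((χ.lam : ℤ) * ((M * n : ℕ) : ℤ))) (lw al be ga de (M * n) j a b),
          ((finrank ℂ (T.V (r * q) (r • D₀) (M * n) j) : ℝ) -
            finrank ℂ (ini m (χ.F (M * n) l) (expo (r * q) (M * n) j a b)))) (by
      intro a ha b hb
      refine sum_nonneg fun l' _ => ?_
      exact defi_nonneg P₀ χ m l' ((inR_iff hj).2 ⟨ha, hb⟩)) (c := (n : ℝ) * ((M * n : ℕ) : ℝ)) (by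
      intro a ha b hb
      obtain ⟨g1, g2⟩ := hbox a ha b hb
      have g3 := hcon a ha b hb
      have hss : Ioc l (lw al be ga de (M * n) j (a₀ + a) (b₀ + b)) ⊆
          Ioc (-((χ.lam : ℤ) * ((M * n : ℕ) : ℤ))) (lw al be ga de (M * n) j (a₀ + a) (b₀ + b)) := by
        intro x hx
        rw [mem_Ioc] at hx ⊢
        exact ⟨by linarith [hx.1], hx.2⟩
      refine le_trans ?_ (sum_le_sum_of_subset_of_nonneg hss fun l' _ _ =>
        defi_nonneg P₀ χ m l' g1)
      have g4 := card_nsmul_le_sum (Ioc l (lw al be ga de (M * n) j (a₀ + a) (b₀ + b)))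
        (fun l' => (finrank ℂ (T.V (r * q) (r • D₀) (M * n) j) : ℝ) -
            finrank ℂ (ini m (χ.F (M * n) l') (expo (r * q) (M * n) j (a₀ + a) (b₀ + b))))
        ((M * n : ℕ) : ℝ) (by
          intro l' hl'
          rw [mem_Ioc] at hl'
          have : ini m (χ.F (M * n) l') (expo (r * q) (M * n) j (a₀ + a) (b₀ + b)) = ⊥ := by
            rw [eq_bot_iff, ← g3]
            exact ini_mono (χ.anti _ _ _ hl'.1.le) _
          rw [this, finrank_bot]
          push_cast
          rw [sub_zero]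
          exact_mod_cast hV)
      refine le_trans ?_ g4
      rw [Int.card_Ioc, nsmul_eq_mul]
      apply mul_le_mul_of_nonneg_right _ (by positivity)
      have : (n : ℤ) ≤ (lw al be ga de (M * n) j (a₀ + a) (b₀ + b) - l).toNat := by
        rw [Int.toNat_of_nonneg (by linarith)]
        linarith
      exact_mod_cast this)
  have h3 := h2.trans h1
  have h4 : C * M ^ 2 < n := by
    have := Nat.le_ceil (C * (M : ℝ) ^ 2)
    have h5 : ((4 + (Nat.ceil (C * M ^ 2) + 1) : ℕ) : ℝ) ≤ n := by exact_mod_cast hn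
    push_cast at h5
    linarith
  have hn0 : (0 : ℝ) < n := by
    have : 0 < n := by omega
    exact_mod_cast this
  have hM0 : (0 : ℝ) < M := by exact_mod_cast hM
  push_cast at h3
  have h5 : (n : ℝ) ^ 2 * (n * (M * n)) ≤ ((n : ℝ) + 1) ^ 2 * (n * (M * n)) := by
    apply mul_le_mul_of_nonneg_right _ (by positivity)
    nlinarith
  have h6 : C * ((M : ℝ) * n) ^ 3 = (C * M ^ 2) * (M * n ^ 3) := by ring
  have h7 : (C * M ^ 2) * (M * (n : ℝ) ^ 3) < n * (M * n ^ 3) :=
    mul_lt_mul_of_pos_right h4 (by positivity)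
  have h8 : (n : ℝ) ^ 2 * (n * (M * n)) = n * (M * n ^ 3) := by ring
  linarith

/-- all slopes are at most `l₀ / N₀`. -/
def SlopeLe (χ : Filt T q D₀ r) (N₀ : ℕ) (l₀ : ℤ) : Prop :=
  ∀ (N : ℕ) (l : ℤ), χ.F N l ≠ ⊥ → l * N₀ ≤ l₀ * N

theorem SlopeLe.tw {N₀ : ℕ} {l₀ : ℤ} (h : χ.SlopeLe N₀ l₀) (E : Autom K) (hE : Pres T q D₀ E) :
    (χ.tw E hE).SlopeLe N₀ l₀ := by
  intro N l hne
  apply h N l
  intro h0
  apply hne
  rw [tw_F, h0, Submodule.map_bot]

theorem abs_lw_box (al be : ℤ) {n a b : ℕ} (ha : a ≤ n) (hb : b ≤ n) :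
    -((|al| + |be|) * n) ≤ al * a + be * b := by
  have ha' : (a : ℤ) ≤ n := by exact_mod_cast ha
  have hb' : (b : ℤ) ≤ n := by exact_mod_cast hb
  have ha0 : (0 : ℤ) ≤ a := by positivity
  have hb0 : (0 : ℤ) ≤ b := by positivity
  have h1 : -(|al| * n) ≤ al * a := by
    have := neg_abs_le (al * a)
    rw [abs_mul, abs_of_nonneg ha0] at this
    have := mul_le_mul_of_nonneg_left ha' (abs_nonneg al)
    linarith
  have h2 : -(|be| * n) ≤ be * b := by
    have := neg_abs_le (be * b)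
    rw [abs_mul, abs_of_nonneg hb0] at this
    have := mul_le_mul_of_nonneg_left hb' (abs_nonneg be)
    linarith
  linarith

/-- the affine weight is at most the maximal slope. -/
theorem Rigid.lw_le (hR : χ.Rigid m al be ga de) (P₀ : T.X.Pt) (hQ : 0 < r * q)
    (hD : T.X.deg (r • D₀) = 105 * T.t * ((r * q : ℕ) : ℤ)) {N₀ : ℕ} {l₀ : ℤ}
    (hS : χ.SlopeLe N₀ l₀) {N : ℕ} {j : ℤ} {a b : ℕ} (h : InR (r * q) N j a b) :
    lw al be ga de N j a b * N₀ ≤ l₀ * N := by
  by_contra hcon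
  push Not at hcon
  set w := lw al be ga de N j a b with hw
  set c : ℤ := |al| + |be| + |de| + 1 with hc
  have hc0 : 0 ≤ c := by positivity
  set D : ℕ := (c * N₀ + |l₀| + 1).toNat with hDd
  have hDc : (D : ℤ) = c * N₀ + |l₀| + 1 := by
    rw [hDd, Int.toNat_of_nonneg (by positivity)]
  obtain ⟨n₀, hn₀⟩ := hR.exists_ne_bot P₀ hQ hD (D * N + 1) (by omega)
  set n := n₀ + 1 with hn
  have e1 : (D * N + 1) * n = (n * D) * N + n := by ring
  have key := hn₀ n (by omega) ((n * D : ℕ) * j) (n * D * a) (n * D * b)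
    ((n * D : ℕ) * w - c * n) (by
      intro a' ha' b' hb'
      rw [e1]
      have g1 : InR (r * q) n 0 a' b' := by
        have h1 : (1 : ℤ) ≤ ((r * q : ℕ) : ℤ) := by exact_mod_cast hQ
        have h2 : (a' : ℤ) ≤ n := by exact_mod_cast ha'
        have h3 : (b' : ℤ) ≤ n := by exact_mod_cast hb'
        have h4 : (0 : ℤ) ≤ n := by positivity
        have h5 : (n : ℤ) ≤ ((r * q : ℕ) : ℤ) * n := by nlinarith
        refine ⟨?_, ?_, ?_⟩
        · rw [abs_zero]
          positivity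
        · linarith
        · linarith
      have g2 := (h.smul (n * D)).add g1
      rw [add_zero] at g2
      refine ⟨g2, ?_⟩
      have g3 := lw_add al be ga de (n * D * N) n ((n * D : ℕ) * j) 0 (n * D * a) a' (n * D * b) b'
      rw [add_zero, lw_smul, ← hw] at g3
      rw [g3]
      have g4 : lw al be ga de n 0 a' b' = al * a' + be * b' + de * n := by
        unfold lw
        ring
      have g5 := abs_lw_box al be ha' hb'
      have g6 : -(|de| * (n : ℤ)) ≤ de * n := by
        have := neg_abs_le de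
        have h4 : (0 : ℤ) ≤ n := by positivity
        nlinarith
      rw [g4]
      have : c * (n : ℤ) = (|al| + |be|) * n + |de| * n + n := by
        rw [hc]
        ring
      linarith)
  obtain ⟨a', _, b', _, hne⟩ := key
  have hF : χ.F ((D * N + 1) * n) ((n * D : ℕ) * w - c * n) ≠ ⊥ := by
    intro h0
    apply hne
    rw [h0, ini_bot]
  have h1 := hS _ _ hF
  push_cast at h1
  have hn0 : (0 : ℤ) < n := by
    rw [hn]
    positivity
  -- divide by `n`
  have h2 : (D : ℤ) * (w * N₀ - l₀ * N) ≤ c * N₀ + l₀ := by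
    have h3 : (n : ℤ) * ((D : ℤ) * (w * N₀ - l₀ * N)) ≤ n * (c * N₀ + l₀) := by linarith
    exact le_of_mul_le_mul_left h3 hn0
  have h3 : 1 ≤ w * N₀ - l₀ * N := by linarith
  have h4 : (D : ℤ) ≤ (D : ℤ) * (w * N₀ - l₀ * N) := by
    have : (0 : ℤ) ≤ D := by positivity
    nlinarith
  have h5 := le_abs_self l₀
  linarith

theorem exists_degree_expo (χ : Filt T q D₀ r) (m : MonomialOrder (Fin 4)) {N : ℕ} {l : ℤ}
    {f : MvPolynomial (Fin 4) K} (hf : f ∈ χ.F N l) (hf0 : f ≠ 0) :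
    ∃ j a b, InR (r * q) N j a b ∧ m.degree f = expo (r * q) N j a b ∧
      ini m (χ.F N l) (expo (r * q) N j a b) ≠ ⊥ := by
  have h1 : f ∈ T.sec (r * q) (r • D₀) N := by
    rw [T.sec_mul]
    exact χ.le N l hf
  have h2 : f.coeff (m.degree f) ≠ 0 := MonomialOrder.coeff_degree_ne_zero_iff.2 hf0
  obtain ⟨j, a, b, h3, h4⟩ := mem_Eset.1 (T.mem_Eset_of_coeff h1 h2)
  refine ⟨j, a, b, h3, h4, ?_⟩
  rw [← h4]
  intro h5
  have h6 : f.coeff (m.degree f) ∈ ini m (χ.F N l) (m.degree f) := by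
    rw [mem_ini]
    exact ⟨f, hf, fun e' he' => m.le_degree (by rwa [MvPolynomial.mem_support_iff]), rfl⟩
  rw [h5, Submodule.mem_bot] at h6
  exact h2 h6

end Filt

/-- The maximal slope of a test configuration is attained. -/
theorem TestConf.exists_max (χ : TestConf T q D₀ r) (hQ : 0 < r * q)
    (hD : T.X.deg (r • D₀) = 105 * T.t * ((r * q : ℕ) : ℤ)) :
    ∃ (N₀ : ℕ) (l₀ : ℤ), 4 ≤ N₀ ∧ (∃ s ∈ χ.F N₀ l₀, s ≠ 0) ∧ χ.SlopeLe N₀ l₀ := by
  classical
  obtain ⟨k, n, w, f, hf, hspan⟩ := χ.fg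
  -- the indices that matter
  let I : Finset (Fin k) := univ.filter fun i => f i ≠ 0 ∧ 0 < n i
  -- a non-zero product
  have hprod : ∀ N l, χ.F N l ≠ ⊥ → ∃ mm : Fin k → ℕ, ∑ i, mm i * n i = N ∧
      l ≤ ∑ i, mm i * w i ∧ ∀ i, mm i ≠ 0 → f i ≠ 0 := by
    intro N l hne
    by_contra hcon
    push Not at hcon
    apply hne
    rw [eq_bot_iff]
    refine (hspan N l).trans ?_
    rw [Submodule.span_le]
    rintro g ⟨mm, h1, h2, rfl⟩
    obtain ⟨i, h3, h4⟩ := hcon mm h1 h2
    show ∏ i, f i ^ mm i ∈ (⊥ : Submodule ℂ (MvPolynomial (Fin 4) K))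
    rw [Submodule.mem_bot]
    apply prod_eq_zero (mem_univ i)
    rw [h4, zero_pow h3]
  -- weights of degree zero are nonpositive
  have hw0 : ∀ i, f i ≠ 0 → n i = 0 → w i ≤ 0 := by
    intro i h1 h2
    by_contra h3
    have h4 := hf i
    rw [h2, χ.F_of_gt (by push_cast; push Not at h3; linarith), Submodule.mem_bot] at h4
    exact h1 h4
  have hI : I.Nonempty := by
    have hV := finrank_V_ge hD hQ (N := 4) le_rfl (j := 0) (by rw [abs_zero]; positivity)
    have hin : InR (r * q) 4 0 0 0 := by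
      refine ⟨by rw [abs_zero]; positivity, ?_, ?_⟩
      · have : (0 : ℤ) ≤ ((r * q : ℕ) : ℤ) := by positivity
        push_cast at this ⊢
        linarith
      · have : (0 : ℤ) ≤ ((r * q : ℕ) : ℤ) := by positivity
        push_cast at this ⊢
        linarith
    have hne : χ.F 4 (-(χ.lam * (4 : ℕ))) ≠ ⊥ := by
      intro h0
      rw [(χ.lam_spec 4).1, ← T.sec_mul] at h0
      rw [← T.ini_sec MonomialOrder.lex hin, h0, ini_bot, finrank_bot] at hV
      omega
    obtain ⟨mm, h1, _, h3⟩ := hprod _ _ hne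
    obtain ⟨i, _, hi⟩ := exists_ne_zero_of_sum_ne_zero (s := univ) (f := fun i => mm i * n i)
      (by rw [h1]; norm_num)
    exact ⟨i, mem_filter.2 ⟨mem_univ i, h3 i (left_ne_zero_of_mul hi),
      Nat.pos_of_ne_zero (right_ne_zero_of_mul hi)⟩⟩
  obtain ⟨i₀, hi₀, hmax⟩ := I.exists_max_image (fun i => (w i : ℚ) / n i) hI
  obtain ⟨_, hi0, hi1⟩ := mem_filter.1 hi₀
  have hmax' : ∀ i, f i ≠ 0 → w i * (n i₀ : ℤ) ≤ w i₀ * n i := by
    intro i h1
    rcases Nat.eq_zero_or_pos (n i) with h2 | h2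
    · rw [h2]
      have := hw0 i h1 h2
      have h3 : (0 : ℤ) ≤ n i₀ := by positivity
      push_cast
      nlinarith
    · have h3 := hmax i (mem_filter.2 ⟨mem_univ i, h1, h2⟩)
      have h4 : (0 : ℚ) < n i := by exact_mod_cast h2
      have h5 : (0 : ℚ) < n i₀ := by exact_mod_cast hi1
      rw [div_le_div_iff₀ h4 h5] at h3
      exact_mod_cast h3
  refine ⟨4 * n i₀, 4 * w i₀, by omega, ⟨f i₀ ^ 4, ?_, pow_ne_zero 4 hi0⟩, ?_⟩
  · have h1 := χ.mul _ _ _ _ _ (hf i₀) _ (hf i₀)
    have h2 := χ.mul _ _ _ _ _ h1 _ h1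
    have e1 : f i₀ * f i₀ * (f i₀ * f i₀) = f i₀ ^ 4 := by ring
    have e2 : n i₀ + n i₀ + (n i₀ + n i₀) = 4 * n i₀ := by ring
    have e3 : w i₀ + w i₀ + (w i₀ + w i₀) = 4 * w i₀ := by ring
    rw [e1, e2, e3] at h2
    exact h2
  · intro N l hne
    obtain ⟨mm, h1, h2, h3⟩ := hprod N l hne
    have h4 : (∑ i, (mm i : ℤ) * w i) * n i₀ ≤ w i₀ * N := by
      rw [← h1]
      push_cast
      rw [sum_mul, mul_sum]
      apply sum_le_sum
      intro i _
      by_cases h5 : mm i = 0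
      · rw [h5]
        simp
      · have := hmax' i (h3 i h5)
        have h6 : (0 : ℤ) ≤ mm i := by positivity
        nlinarith
    have h5 : l * (n i₀ : ℤ) ≤ (∑ i, (mm i : ℤ) * w i) * n i₀ :=
      mul_le_mul_of_nonneg_right h2 (by positivity)
    push_cast
    linarith

end Pool.Agent.YTD


end

/- source: Pool.Agent.YTD.GenPoint -/

section

/-!
General points of the curve and residues at them.
-/

namespace Pool.Agent.YTD

open Finset Module MvPolynomial

variable {K : Type} [Field K] [Algebra ℂ K]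

namespace Curve

variable (X : Curve K)

theorem infinite_Pt (P₀ : X.Pt) : Infinite X.Pt := by
  classical
  obtain ⟨f, hf, hf0, hord⟩ := X.exists_ord_eq P₀ (D := Finsupp.single P₀ (2 * (X.genus : ℤ) + 1))
    (by rw [X.deg_single]; linarith) P₀
  rw [Finsupp.single_eq_same] at hord
  have hneg : X.ord P₀ f < 0 := by
    rw [hord]
    have : (0 : ℤ) ≤ X.genus := by positivity
    linarith
  have hsub : ∀ c : ℂ, f - algebraMap ℂ K c ≠ 0 ∧ X.ord P₀ (f - algebraMap ℂ K c) < 0 := by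
    intro c
    by_cases hc : c = 0
    · rw [hc, map_zero, sub_zero]
      exact ⟨hf0, hneg⟩
    have hc' : algebraMap ℂ K c ≠ 0 := (map_ne_zero _).2 hc
    have h1 : f - algebraMap ℂ K c ≠ 0 := by
      intro h
      rw [sub_eq_zero.1 h, X.ord_const P₀ c hc] at hneg
      exact lt_irrefl _ hneg
    refine ⟨h1, ?_⟩
    have h2 := X.ord_add P₀ (f - algebraMap ℂ K c) (algebraMap ℂ K c) h1 hc'
      (by rw [sub_add_cancel]; exact hf0)
    rw [sub_add_cancel, X.ord_const P₀ c hc] at h2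
    by_contra h3
    rw [min_eq_right (not_lt.1 h3)] at h2
    linarith
  have hpos : ∀ c : ℂ, ∃ P : X.Pt, 0 < X.ord P (f - algebraMap ℂ K c) := by
    intro c
    obtain ⟨h1, h2⟩ := hsub c
    by_contra hcon
    push Not at hcon
    have h3 : X.deg (Finsupp.single P₀ 1) ≤ X.deg (-X.dv (f - algebraMap ℂ K c)) := by
      apply X.deg_mono
      intro P
      rw [Finsupp.neg_apply, X.dv_apply h1, Finsupp.single_apply]
      split_ifs with h
      · subst h
        linarith
      · linarith [hcon P]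
    rw [X.deg_single, X.deg_neg, X.deg_dv h1] at h3
    linarith
  choose φ hφ using hpos
  apply Infinite.of_injective φ
  intro c c' h
  by_contra hne
  have h1 := hφ c
  have h2 := hφ c'
  rw [← h] at h2
  have h3 : f - algebraMap ℂ K c ≠ 0 := (hsub c).1
  have h4 : f - algebraMap ℂ K c' ≠ 0 := (hsub c').1
  have hcc : c' - c ≠ 0 := sub_ne_zero.2 (Ne.symm hne)
  have e1 : f - algebraMap ℂ K c = (f - algebraMap ℂ K c') + algebraMap ℂ K (c' - c) := by
    rw [map_sub]
    ring
  have h5 : X.ord (φ c) (algebraMap ℂ K (c' - c)) = 0 := X.ord_const _ _ hcc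
  have e2 : algebraMap ℂ K (c' - c) = (f - algebraMap ℂ K c) + (-(f - algebraMap ℂ K c')) := by
    rw [map_sub]
    ring
  have h6 := X.ord_add (φ c) (f - algebraMap ℂ K c) (-(f - algebraMap ℂ K c')) h3
    (neg_ne_zero.2 h4) (by rw [← e2]; exact (map_ne_zero _).2 hcc)
  rw [← e2, h5] at h6
  have h7 : X.ord (φ c) (-(f - algebraMap ℂ K c')) = X.ord (φ c) (f - algebraMap ℂ K c') := by
    have h8 : -(f - algebraMap ℂ K c') = algebraMap ℂ K (-1) * (f - algebraMap ℂ K c') := by
      rw [map_neg, map_one]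
      ring
    rw [h8, X.ord_mul _ _ _ ((map_ne_zero _).2 (by norm_num)) h4,
      X.ord_const _ _ (by norm_num), zero_add]
  rw [h7] at h6
  rcases min_choice (X.ord (φ c) (f - algebraMap ℂ K c)) (X.ord (φ c) (f - algebraMap ℂ K c'))
    with h8 | h8 <;> rw [h8] at h6 <;> linarith

/-- elements vanishing to order at least `n` at `c`. -/
def ovan (c : X.Pt) (n : ℤ) : Submodule ℂ K where
  carrier := {z | z ≠ 0 → n ≤ X.ord c z}
  zero_mem' := fun h => (h rfl).elim
  add_mem' := by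
    intro f g hf hg h
    by_cases hf0 : f = 0
    · subst hf0
      rw [zero_add] at h ⊢
      exact hg h
    by_cases hg0 : g = 0
    · subst hg0
      rw [add_zero] at h ⊢
      exact hf h
    have h1 := X.ord_add c f g hf0 hg0 h
    have h2 := hf hf0
    have h3 := hg hg0
    rcases min_choice (X.ord c f) (X.ord c g) with h4 | h4 <;> rw [h4] at h1 <;> linarith
  smul_mem' := by
    intro x f hf h
    have hc : x ≠ 0 := by
      rintro rfl
      exact h (zero_smul ℂ f)
    have hf0 : f ≠ 0 := by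
      rintro rfl
      exact h (smul_zero x)
    rw [Algebra.smul_def, X.ord_mul c _ _ ((map_ne_zero _).2 hc) hf0, X.ord_const c x hc, zero_add]
    exact hf hf0

theorem mem_ovan {c : X.Pt} {n : ℤ} {z : K} : z ∈ X.ovan c n ↔ (z ≠ 0 → n ≤ X.ord c z) := Iff.rfl

/-- The residue field at a point is `ℂ`. -/
theorem exists_const_sub_mem {c P₁ : X.Pt} (h1 : P₁ ≠ c) {z : K} (hz : z ∈ X.ovan c 0) :
    ∃ x : ℂ, z - algebraMap ℂ K x ∈ X.ovan c 1 := by
  classical
  by_cases hz0 : z = 0
  · refine ⟨0, ?_⟩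
    rw [map_zero, sub_zero, hz0]
    exact zero_mem _
  -- a large divisor with trivial multiplicity at `c`
  set E : X.Pt →₀ ℤ := Finsupp.onFinset (X.dv z).support (fun P => max 0 (-X.ord P z)) (by
    intro P hP
    rw [Finsupp.mem_support_iff, X.dv_apply hz0]
    intro h
    apply hP
    rw [h]
    simp) with hE
  have hEa : ∀ P, E P = max 0 (-X.ord P z) := fun P => rfl
  set n : ℤ := 2 * X.genus with hn
  set D : X.Pt →₀ ℤ := E + Finsupp.single P₁ n with hD
  have hn0 : 0 ≤ n := by positivity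
  have hDP : ∀ P, E P ≤ D P ∧ 0 ≤ D P := by
    intro P
    rw [hD, Finsupp.add_apply, hEa, Finsupp.single_apply]
    have := le_max_left 0 (-X.ord P z)
    split_ifs <;> constructor <;> linarith
  have hDc : D c = 0 := by
    rw [hD, Finsupp.add_apply, hEa, Finsupp.single_eq_of_ne (Ne.symm h1), add_zero]
    have := (X.mem_ovan).1 hz hz0
    exact max_eq_left (by linarith)
  have hdeg : 2 * (X.genus : ℤ) ≤ X.deg D := by
    rw [hD, X.deg_add, X.deg_single]
    have : 0 ≤ X.deg E := X.deg_nonneg (fun P => by rw [hEa]; exact le_max_left _ _)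
    linarith
  have hfin := X.finite_L c D
  have hle : X.L (D - Finsupp.single c 1) ≤ X.L D := X.L_mono (by
    intro Q
    rw [Finsupp.sub_apply, Finsupp.single_apply]
    split_ifs <;> linarith)
  have hfin' : FiniteDimensional ℂ (X.L (D - Finsupp.single c 1)) :=
    Submodule.finiteDimensional_of_le hle
  have hd1 := X.riemann_roch D (by linarith)
  have hd2 := X.riemann_roch (D - Finsupp.single c 1) (by
    rw [X.deg_sub, X.deg_single]
    linarith)
  rw [X.deg_sub, X.deg_single] at hd2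
  have h1D : (1 : K) ∈ X.L D := by
    intro _ P
    rw [X.ord_one, zero_add]
    exact (hDP P).2
  have h1nD : (1 : K) ∉ X.L (D - Finsupp.single c 1) := by
    intro h
    have := h one_ne_zero c
    rw [X.ord_one, Finsupp.sub_apply, Finsupp.single_eq_same, hDc] at this
    linarith
  have hzD : z ∈ X.L D := by
    intro _ P
    have h2 := (hDP P).1
    rw [hEa] at h2
    have := le_max_right 0 (-X.ord P z)
    linarith
  -- the span of one and the smaller space is everything
  have hsup : X.L (D - Finsupp.single c 1) ⊔ Submodule.span ℂ {(1 : K)} = X.L D := by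
    apply Submodule.eq_of_le_of_finrank_le
    · apply sup_le hle
      rw [Submodule.span_singleton_le_iff_mem]
      exact h1D
    · have hlt : X.L (D - Finsupp.single c 1) <
          X.L (D - Finsupp.single c 1) ⊔ Submodule.span ℂ {(1 : K)} := by
        apply lt_of_le_of_ne le_sup_left
        intro h
        apply h1nD
        rw [h]
        exact Submodule.mem_sup_right (Submodule.mem_span_singleton_self _)
      have := Submodule.finrank_lt_finrank_of_lt hlt
      omega
  rw [← hsup, Submodule.mem_sup] at hzD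
  obtain ⟨y, hy, w, hw, hyw⟩ := hzD
  obtain ⟨x, rfl⟩ := Submodule.mem_span_singleton.1 hw
  refine ⟨x, ?_⟩
  have e : z - algebraMap ℂ K x = y := by
    rw [← hyw, Algebra.smul_def, mul_one]
    ring
  rw [e]
  intro hy0
  have := hy hy0 c
  rw [Finsupp.sub_apply, Finsupp.single_eq_same, hDc] at this
  linarith

/-- A `ℂ`-linear extension of the residue map at `c`. -/
theorem exists_residue {c P₁ : X.Pt} (h1 : P₁ ≠ c) :
    ∃ ρ : K →ₗ[ℂ] ℂ, ∀ z ∈ X.ovan c 0, (ρ z = 0 ↔ z ∈ X.ovan c 1) := by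
  have hone : (1 : K) ∉ X.ovan c 1 := by
    intro h
    have := h one_ne_zero
    rw [X.ord_one] at this
    linarith
  obtain ⟨ρ, hρ1, hρ2⟩ := Submodule.exists_dual_map_eq_bot_of_notMem hone inferInstance
  have hker : ∀ z ∈ X.ovan c 1, ρ z = 0 := by
    intro z hz
    have : ρ z ∈ (X.ovan c 1).map ρ := ⟨z, hz, rfl⟩
    rw [hρ2, Submodule.mem_bot] at this
    exact this
  refine ⟨ρ, fun z hz => ⟨fun h => ?_, hker z⟩⟩
  obtain ⟨x, hx⟩ := X.exists_const_sub_mem h1 hz
  have h2 := hker _ hx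
  have h3 : ρ (algebraMap ℂ K x) = x * ρ 1 := by
    rw [Algebra.algebraMap_eq_smul_one, map_smul, smul_eq_mul]
  rw [map_sub, h, h3, zero_sub, neg_eq_zero] at h2
  have h4 : x = 0 := by
    rcases mul_eq_zero.1 h2 with h4 | h4
    · exact h4
    · exact (hρ1 h4).elim
  rw [h4, map_zero, sub_zero] at hx
  exact hx

end Curve

namespace Datum

variable (T : Datum K)

theorem exists_general_point (P₀ : T.X.Pt) (D : T.X.Pt →₀ ℤ) (Z : Finset K) :
    ∃ c : T.X.Pt, c ∉ T.S ∧ c ∉ T.S' ∧ D c = 0 ∧ ∀ z ∈ Z, z ≠ 0 → T.X.ord c z = 0 := by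
  classical
  have := T.X.infinite_Pt P₀
  have hfin : ((T.S : Set T.X.Pt) ∪ T.S' ∪ D.support ∪
      ⋃ z ∈ Z, {P | z ≠ 0 ∧ T.X.ord P z ≠ 0}).Finite := by
    refine (((T.S.finite_toSet).union (T.S'.finite_toSet)).union D.support.finite_toSet).union ?_
    refine Set.Finite.biUnion Z.finite_toSet fun z _ => ?_
    by_cases hz : z = 0
    · convert Set.finite_empty (α := T.X.Pt)
      ext P
      simp [hz]
    · apply (T.X.finite_ord z hz).subset
      intro P hP
      exact hP.2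
  obtain ⟨c, hc⟩ := hfin.exists_notMem
  simp only [Set.mem_union, Finset.mem_coe, Finsupp.mem_support_iff, Set.mem_iUnion,
    Set.mem_ofPred_eq, exists_prop, not_or, not_exists, not_and, not_not] at hc
  obtain ⟨⟨⟨h1, h2⟩, h3⟩, h4⟩ := hc
  exact ⟨c, h1, h2, h3, h4⟩

theorem exists_ne_point (c : T.X.Pt) : ∃ P : T.X.Pt, P ≠ c := by
  classical
  have h := T.card_S
  have ht := T.t_pos
  by_contra hcon
  push Not at hcon
  have : T.S ⊆ {c} := by
    intro P _
    rw [Finset.mem_singleton]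
    exact hcon P
  have := Finset.card_le_card this
  rw [Finset.card_singleton, h] at this
  omega

end Datum

/-! ### Coefficientwise application of a linear functional -/

/-- Apply a linear functional to all coefficients. -/
noncomputable def specm (ρ : K →ₗ[ℂ] ℂ) (f : MvPolynomial (Fin 4) K) : MvPolynomial (Fin 4) ℂ :=
  ∑ e ∈ f.support, monomial e (ρ (f.coeff e))

theorem coeff_specm (ρ : K →ₗ[ℂ] ℂ) (f : MvPolynomial (Fin 4) K) (e : Fin 4 →₀ ℕ) :
    (specm ρ f).coeff e = ρ (f.coeff e) := by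
  classical
  unfold specm
  rw [coeff_sum]
  simp only [coeff_monomial]
  rw [Finset.sum_ite_eq']
  split_ifs with h
  · rfl
  · rw [MvPolynomial.notMem_support_iff.1 h, map_zero]

theorem specm_add (ρ : K →ₗ[ℂ] ℂ) (f g : MvPolynomial (Fin 4) K) :
    specm ρ (f + g) = specm ρ f + specm ρ g := by
  ext e
  rw [coeff_specm, coeff_add, coeff_add, coeff_specm, coeff_specm, map_add]

theorem specm_zero (ρ : K →ₗ[ℂ] ℂ) : specm ρ 0 = 0 := by
  ext e
  rw [coeff_specm, coeff_zero, coeff_zero, map_zero]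

theorem specm_sum (ρ : K →ₗ[ℂ] ℂ) {ι : Type*} (s : Finset ι) (f : ι → MvPolynomial (Fin 4) K) :
    specm ρ (∑ i ∈ s, f i) = ∑ i ∈ s, specm ρ (f i) := by
  classical
  induction s using Finset.induction_on with
  | empty => simp [specm_zero]
  | insert a s ha ih => rw [Finset.sum_insert ha, Finset.sum_insert ha, specm_add, ih]

theorem specm_C_mul (ρ : K →ₗ[ℂ] ℂ) (z : K) (G : MvPolynomial (Fin 4) ℂ) :
    specm ρ (C z * MvPolynomial.map (algebraMap ℂ K) G) = C (ρ z) * G := by
  ext e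
  rw [coeff_specm, coeff_C_mul, coeff_C_mul, coeff_map, mul_comm, ← Algebra.smul_def, map_smul,
    smul_eq_mul, mul_comm]

theorem subst_map (g h : Matrix (Fin 2) (Fin 2) ℂ) (G : MvPolynomial (Fin 4) ℂ) :
    subst g h (MvPolynomial.map (algebraMap ℂ K) G) =
      MvPolynomial.map (algebraMap ℂ K) (subst g h G) := by
  have key : ((subst (K := K) g h) : MvPolynomial (Fin 4) K →+* MvPolynomial (Fin 4) K).comp
      (MvPolynomial.map (algebraMap ℂ K)) =
      (MvPolynomial.map (algebraMap ℂ K)).comp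
        ((subst (K := ℂ) g h) : MvPolynomial (Fin 4) ℂ →+* MvPolynomial (Fin 4) ℂ) := by
    apply MvPolynomial.ringHom_ext
    · intro x
      simp only [RingHom.comp_apply, map_C, RingHom.coe_coe]
      rw [← MvPolynomial.algebraMap_eq, ← MvPolynomial.algebraMap_eq, AlgHom.commutes,
        AlgHom.commutes, MvPolynomial.algebraMap_eq, MvPolynomial.algebraMap_eq, map_C]
    · intro i
      have hs : ∀ (x : ℂ) (p : MvPolynomial (Fin 4) ℂ),
          MvPolynomial.map (algebraMap ℂ K) (x • p) =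
            x • MvPolynomial.map (algebraMap ℂ K) p := by
        intro x p
        ext e
        rw [coeff_map, coeff_smul, coeff_smul, coeff_map, smul_eq_mul, map_mul,
          ← Algebra.smul_def]
      have hi : i = 0 ∨ i = 1 ∨ i = 2 ∨ i = 3 := by
        fin_cases i <;> simp
      simp only [RingHom.comp_apply, map_X, RingHom.coe_coe]
      rcases hi with rfl | rfl | rfl | rfl
      · rw [subst_X0, subst_X0, map_add, hs, hs, map_X, map_X]
      · rw [subst_X1, subst_X1, map_add, hs, hs, map_X, map_X]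
      · rw [subst_X2, subst_X2, map_add, hs, hs, map_X, map_X]
      · rw [subst_X3, subst_X3, map_add, hs, hs, map_X, map_X]
  exact congrArg (fun φ : MvPolynomial (Fin 4) ℂ →+* MvPolynomial (Fin 4) K => φ G) key

theorem specm_subst (ρ : K →ₗ[ℂ] ℂ) (g h : Matrix (Fin 2) (Fin 2) ℂ)
    (f : MvPolynomial (Fin 4) K) : specm ρ (subst g h f) = subst g h (specm ρ f) := by
  have hmono : ∀ (e : Fin 4 →₀ ℕ) (z : K), specm ρ (subst g h (monomial e z)) =
      subst g h (monomial e (ρ z)) := by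
    intro e z
    have e1 : (monomial e z : MvPolynomial (Fin 4) K) =
        C z * MvPolynomial.map (algebraMap ℂ K) (monomial e 1) := by
      rw [map_monomial, map_one, C_mul_monomial, mul_one]
    have e2 : (monomial e (ρ z) : MvPolynomial (Fin 4) ℂ) = C (ρ z) * monomial e 1 := by
      rw [C_mul_monomial, mul_one]
    have e3 : subst g h (C z : MvPolynomial (Fin 4) K) = C z := by
      rw [← MvPolynomial.algebraMap_eq, AlgHom.commutes]
    have e4 : subst g h (C (ρ z) : MvPolynomial (Fin 4) ℂ) = C (ρ z) := by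
      rw [← MvPolynomial.algebraMap_eq, AlgHom.commutes]
    rw [e1, e2, map_mul, map_mul, e3, e4, subst_map, specm_C_mul]
  conv_lhs => rw [f.as_sum]
  rw [map_sum, specm_sum]
  unfold specm
  rw [map_sum]
  apply Finset.sum_congr rfl
  intro e _
  have := hmono e (f.coeff e)
  unfold specm at this
  exact this

end Pool.Agent.YTD


end

/- source: Pool.Agent.YTD.GamRel -/

section

/-!
Relations between the generators of `Γ`.
-/

namespace Pool.Agent.YTD

open Finset Module MvPolynomial Filter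

variable {K : Type} [Field K] [Algebra ℂ K]
variable {T : Datum K} {q : ℕ} {D₀ : T.X.Pt →₀ ℤ} {r : ℕ}

theorem s1_mul_s1 : s1 * s1 = 1 := by
  ext i j
  fin_cases i <;> fin_cases j <;> simp [s1]

theorem s2_mul_s2 : s2 * s2 = 1 := by
  ext i j
  fin_cases i <;> fin_cases j <;> simp [s2]

theorem s2_mul_s1 : s2 * s1 = (-1) * (s1 * s2) := by
  ext i j
  fin_cases i <;> fin_cases j <;> simp [s1, s2]

/-- All monomials have even total degree. -/
def EvenDeg (f : MvPolynomial (Fin 4) K) : Prop :=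
  ∀ e, f.coeff e ≠ 0 → Even (e 0 + e 1 + e 2 + e 3)

theorem evenDeg_of_bigr {q N : ℕ} {U : ℤ → Submodule ℂ K} {f : MvPolynomial (Fin 4) K}
    (hf : f ∈ bigr q N U) : EvenDeg f := by
  intro e he
  obtain ⟨j, _, h1, h2, _⟩ := hf e he
  have h3 : ((e 0 + e 1 + e 2 + e 3 : ℕ) : ℤ) = 2 * (25 * q * N) := by
    push_cast
    linarith
  have h4 : e 0 + e 1 + e 2 + e 3 = 2 * (25 * q * N) := by exact_mod_cast h3
  rw [h4]
  exact even_two_mul _

theorem evenDeg_of_sec {N : ℕ} {f : MvPolynomial (Fin 4) K} (hf : f ∈ T.sec q D₀ N) :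
    EvenDeg f := evenDeg_of_bigr hf

theorem EvenDeg.coefE {f : MvPolynomial (Fin 4) K} (hf : EvenDeg f) (θ : K ≃ₐ[ℂ] K) :
    EvenDeg (MvPolynomial.map (θ : K →+* K) f) := by
  intro e he
  apply hf e
  intro h
  apply he
  rw [coeff_map, h, map_zero]

theorem subst_neg_one_monomial (e : Fin 4 →₀ ℕ) (z : K) :
    subst (-1) (-1) (monomial e z) = (-1) ^ (e 0 + e 1 + e 2 + e 3) * monomial e z := by
  have hX : ∀ i : Fin 4, subst (K := K) (-1) (-1) (X i) = -X i := by
    intro i
    have hi : i = 0 ∨ i = 1 ∨ i = 2 ∨ i = 3 := by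
      fin_cases i <;> simp
    rcases hi with rfl | rfl | rfl | rfl
    · rw [subst_X0]
      simp
    · rw [subst_X1]
      simp
    · rw [subst_X2]
      simp
    · rw [subst_X3]
      simp
  have h1 : monomial e z = C z * (X 0 ^ e 0 * X 1 ^ e 1 * X 2 ^ e 2 * X 3 ^ e 3) := by
    rw [monomial_eq, Finsupp.prod_fintype _ _ (fun i => pow_zero _), Fin.prod_univ_four]
  have hC : subst (K := K) (-1) (-1) (C z) = C z := (subst (K := K) (-1) (-1)).commutes z
  rw [h1, map_mul, map_mul, map_mul, map_mul, map_pow, map_pow, map_pow, map_pow, hX, hX, hX, hX,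
    hC, neg_pow (X 0 : MvPolynomial (Fin 4) K), neg_pow (X 1 : MvPolynomial (Fin 4) K),
    neg_pow (X 2 : MvPolynomial (Fin 4) K), neg_pow (X 3 : MvPolynomial (Fin 4) K)]
  ring

theorem EvenDeg.subst_neg_one {f : MvPolynomial (Fin 4) K} (hf : EvenDeg f) :
    subst (-1) (-1) f = f := by
  conv_lhs => rw [f.as_sum]
  conv_rhs => rw [f.as_sum]
  rw [map_sum]
  apply sum_congr rfl
  intro e he
  rw [subst_neg_one_monomial, (hf e (MvPolynomial.mem_support_iff.1 he)).neg_one_pow, one_mul]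

theorem map_map_comm {θ θ' : K ≃ₐ[ℂ] K} (h : ∀ z, θ (θ' z) = θ' (θ z))
    (f : MvPolynomial (Fin 4) K) : MvPolynomial.map (θ : K →+* K) (MvPolynomial.map (θ' : K →+* K) f) =
      MvPolynomial.map (θ' : K →+* K) (MvPolynomial.map (θ : K →+* K) f) := by
  ext e
  rw [coeff_map, coeff_map, coeff_map, coeff_map]
  exact h _

theorem map_map_self {θ : K ≃ₐ[ℂ] K} (h : ∀ z, θ (θ z) = z)
    (f : MvPolynomial (Fin 4) K) :
    MvPolynomial.map (θ : K →+* K) (MvPolynomial.map (θ : K →+* K) f) = f := by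
  ext e
  rw [coeff_map, coeff_map]
  exact h _

theorem map_subst (θ : K ≃ₐ[ℂ] K) (g h : Matrix (Fin 2) (Fin 2) ℂ)
    (f : MvPolynomial (Fin 4) K) : MvPolynomial.map (θ : K →+* K) (subst g h f) =
      subst g h (MvPolynomial.map (θ : K →+* K) f) := coefE_subst θ g h f

theorem rename_subst (g h : Matrix (Fin 2) (Fin 2) ℂ) (f : MvPolynomial (Fin 4) K) :
    rename Inv.swp (subst g h f) = subst h g (rename Inv.swp f) := by
  have key : (rename (R := K) Inv.swp).comp (subst (K := K) g h) =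
      (subst (K := K) h g).comp (rename Inv.swp) := by
    apply MvPolynomial.algHom_ext
    intro i
    rw [AlgHom.comp_apply, AlgHom.comp_apply, rename_X]
    have hi : i = 0 ∨ i = 1 ∨ i = 2 ∨ i = 3 := by
      fin_cases i <;> simp
    have hs : ∀ (c : ℂ) (p : MvPolynomial (Fin 4) K), rename Inv.swp (c • p) =
        c • rename Inv.swp p := fun c p =>
      ((rename (R := K) Inv.swp).toLinearMap.restrictScalars ℂ).map_smul c p
    rcases hi with rfl | rfl | rfl | rfl
    · rw [subst_X0, map_add, hs, hs, rename_X, rename_X, Inv.swp_0, Inv.swp_1, subst_X2]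
    · rw [subst_X1, map_add, hs, hs, rename_X, rename_X, Inv.swp_0, Inv.swp_1, subst_X3]
    · rw [subst_X2, map_add, hs, hs, rename_X, rename_X, Inv.swp_2, Inv.swp_3, subst_X0]
    · rw [subst_X3, map_add, hs, hs, rename_X, rename_X, Inv.swp_2, Inv.swp_3, subst_X1]
  exact congrArg (fun φ : MvPolynomial (Fin 4) K →ₐ[K] MvPolynomial (Fin 4) K => φ f) key

namespace Gam

variable (γ : Gam T)

theorem E₁_E₁ (f : MvPolynomial (Fin 4) K) : γ.E₁ (γ.E₁ f) = f := by
  rw [γ.E₁_eq f, γ.E₁_apply, subst_subst, s1_mul_s1, subst_one, map_map_self γ.θθ₁]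

theorem E₂_E₂ (f : MvPolynomial (Fin 4) K) : γ.E₂ (γ.E₂ f) = f := by
  rw [γ.E₂_eq f, γ.E₂_apply, subst_subst, s2_mul_s2, subst_one, map_map_self γ.θθ₂]

theorem E₁_tauE (f : MvPolynomial (Fin 4) K) : γ.E₁ (γ.tauE f) = γ.tauE (γ.E₁ f) := by
  rw [γ.E₁_eq, γ.E₁_eq, γ.toInv.tauE_apply, γ.toInv.tauE_apply, rename_subst, map_subst,
    map_rename, map_rename, map_rename, map_map_comm (fun z => (γ.comm₁ z).symm)]

theorem E₂_tauE (f : MvPolynomial (Fin 4) K) : γ.E₂ (γ.tauE f) = γ.tauE (γ.E₂ f) := by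
  rw [γ.E₂_eq, γ.E₂_eq, γ.toInv.tauE_apply, γ.toInv.tauE_apply, rename_subst, map_subst,
    map_rename, map_rename, map_rename, map_map_comm (fun z => (γ.comm₂ z).symm)]

theorem E₁_E₂' {f : MvPolynomial (Fin 4) K} (hf : EvenDeg f) :
    γ.E₁ (γ.E₂ f) = γ.E₂ (γ.E₁ f) := by
  rw [γ.E₁_eq (γ.E₂ f), γ.E₂_eq f, γ.E₂_eq (γ.E₁ f), γ.E₁_eq f, map_subst, map_subst, subst_subst,
    subst_subst, map_map_comm γ.comm₁₂, s2_mul_s1, ← subst_subst,
    ((hf.coefE γ.θ₁).coefE γ.θ₂).subst_neg_one]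

theorem E₁_E₂ {q N : ℕ} {U : ℤ → Submodule ℂ K} {f : MvPolynomial (Fin 4) K}
    (hf : f ∈ bigr q N U) : γ.E₁ (γ.E₂ f) = γ.E₂ (γ.E₁ f) := γ.E₁_E₂' (evenDeg_of_bigr hf)

theorem E₁_smul (z : K) (f : MvPolynomial (Fin 4) K) : γ.E₁ (z • f) = γ.θ₁ z • γ.E₁ f := by
  rw [MvPolynomial.smul_eq_C_mul, map_mul, MvPolynomial.smul_eq_C_mul]
  congr 1
  rw [γ.E₁_apply]
  have h1 : subst (K := K) s1 s1 (C z) = C z := (subst (K := K) s1 s1).commutes z
  rw [h1, map_C]
  rfl

theorem E₂_smul (z : K) (f : MvPolynomial (Fin 4) K) : γ.E₂ (z • f) = γ.θ₂ z • γ.E₂ f := by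
  rw [MvPolynomial.smul_eq_C_mul, map_mul, MvPolynomial.smul_eq_C_mul]
  congr 1
  rw [γ.E₂_apply]
  have h1 : subst (K := K) s2 s2 (C z) = C z := (subst (K := K) s2 s2).commutes z
  rw [h1, map_C]
  rfl

theorem tauE_smul (z : K) (f : MvPolynomial (Fin 4) K) : γ.tauE (z • f) = γ.θ z • γ.tauE f := by
  rw [MvPolynomial.smul_eq_C_mul, map_mul, MvPolynomial.smul_eq_C_mul]
  congr 1
  rw [γ.toInv.tauE_apply, rename_C, map_C]
  rfl

theorem evenDeg_E₁ {f : MvPolynomial (Fin 4) K} (hf : EvenDeg f) : EvenDeg (γ.E₁ f) := by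
  intro e he
  rw [γ.E₁_apply, coeff_map] at he
  have h1 : (subst s1 s1 f).coeff e ≠ 0 := by
    intro h
    apply he
    rw [h, map_zero]
  have h2 : subst (-1) (-1) (subst s1 s1 f) = subst s1 s1 f := by
    rw [subst_subst, show s1 * -1 = -1 * s1 by rw [mul_neg, neg_mul, mul_one, one_mul],
      ← subst_subst, hf.subst_neg_one]
  have h3 : (subst (-1) (-1) (subst s1 s1 f)).coeff e =
      (-1) ^ (e 0 + e 1 + e 2 + e 3) * (subst s1 s1 f).coeff e := by
    generalize subst s1 s1 f = g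
    conv_lhs => rw [g.as_sum]
    rw [map_sum, coeff_sum]
    have h4 : ∀ x ∈ g.support, (subst (-1) (-1) (monomial x (g.coeff x))).coeff e =
        if x = e then (-1) ^ (e 0 + e 1 + e 2 + e 3) * g.coeff e else 0 := by
      intro x _
      rw [subst_neg_one_monomial]
      have h5 : ((-1 : MvPolynomial (Fin 4) K)) ^ (x 0 + x 1 + x 2 + x 3) =
          C ((-1) ^ (x 0 + x 1 + x 2 + x 3)) := by
        rw [map_pow, map_neg, C_1]
      rw [h5, coeff_C_mul, coeff_monomial]
      split_ifs with h6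
      · rw [h6]
      · rw [mul_zero]
    rw [sum_congr rfl h4, sum_ite_eq' g.support e]
    split_ifs with h7
    · rfl
    · rw [MvPolynomial.notMem_support_iff.1 h7, mul_zero]
  rw [h2] at h3
  by_contra hodd
  rw [Nat.not_even_iff_odd] at hodd
  rw [hodd.neg_one_pow, neg_one_mul] at h3
  have h8 : (2 : K) * (subst s1 s1 f).coeff e = 0 := by
    rw [two_mul]
    nth_rewrite 1 [h3]
    exact neg_add_cancel _
  have h9 : (2 : K) ≠ 0 := by
    have : (algebraMap ℂ K) 2 ≠ 0 := (map_ne_zero _).2 two_ne_zero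
    rwa [map_ofNat] at this
  rcases mul_eq_zero.1 h8 with h | h
  · exact h9 h
  · exact h1 h

end Gam

end Pool.Agent.YTD


end

/- source: Pool.Agent.YTD.HilbComb -/

section

/-!
Lower sets of `ℕ^k` and their counting functions.
-/

namespace Pool.Agent.YTD

open Finset

/-- the translated coordinate subspace -/
def Box {k : ℕ} (b : Fin k → ℕ) (A : Finset (Fin k)) : Set (Fin k → ℕ) :=
  {m | (∀ i, b i ≤ m i) ∧ ∀ i, i ∉ A → m i = b i}

theorem stab {k : ℕ} (S : ℕ → Set (Fin k → ℕ)) (hS : ∀ c, IsLowerSet (S c))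
    (hanti : ∀ c c', c ≤ c' → S c' ⊆ S c) : ∃ c₀, ∀ c, c₀ ≤ c → S c = S c₀ := by
  by_contra hcon
  push Not at hcon
  have h1 : ∀ c₀, ∃ c, c₀ < c ∧ ∃ m, m ∈ S c₀ ∧ m ∉ S c := by
    intro c₀
    obtain ⟨c, hc, hne⟩ := hcon c₀
    have hne' : ¬ S c₀ ⊆ S c := fun h => hne (Set.Subset.antisymm (hanti _ _ hc) h)
    obtain ⟨m, hm, hm'⟩ := Set.not_subset.1 hne'
    refine ⟨c, ?_, m, hm, hm'⟩
    rcases hc.lt_or_eq with h | h
    · exact h
    · subst h
      exact (hm' hm).elim
  choose nx hnx mm hmm hmm' using h1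
  let seq : ℕ → ℕ := fun i => nx^[i] 0
  have hseq : ∀ i, seq (i + 1) = nx (seq i) := fun i => Function.iterate_succ_apply' nx i 0
  have hmono : StrictMono seq := strictMono_nat_of_lt_succ fun i => by
    rw [hseq]
    exact hnx _
  obtain ⟨i, j, hij, hle⟩ := wellQuasiOrdered_le (α := Fin k → ℕ) (fun i => mm (seq i))
  have h2 : mm (seq j) ∈ S (seq j) := hmm _
  have h3 : S (seq j) ⊆ S (nx (seq i)) := by
    apply hanti
    rw [← hseq]
    exact hmono.monotone hij
  exact hmm' (seq i) (hS _ hle (h3 h2))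

/-- A lower set is a finite union of translated coordinate subspaces. -/
theorem exists_boxes : ∀ (k : ℕ) (S : Set (Fin k → ℕ)), IsLowerSet S →
    ∃ T : Finset ((Fin k → ℕ) × Finset (Fin k)), ∀ m, m ∈ S ↔ ∃ t ∈ T, m ∈ Box t.1 t.2 := by
  classical
  intro k
  induction k with
  | zero =>
    intro S _
    by_cases h : (0 : Fin 0 → ℕ) ∈ S
    · refine ⟨{(0, ∅)}, fun m => ⟨fun _ => ⟨(0, ∅), mem_singleton_self _, ?_⟩, fun _ => ?_⟩⟩
      · exact ⟨fun i => i.elim0, fun i => i.elim0⟩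
      · rw [Subsingleton.elim m 0]
        exact h
    · refine ⟨∅, fun m => ⟨fun hm => (h ?_).elim, ?_⟩⟩
      · rw [Subsingleton.elim 0 m]
        exact hm
      · rintro ⟨t, ht, _⟩
        exact absurd ht (notMem_empty _)
  | succ k ih =>
    intro S hS
    let Sl : ℕ → Set (Fin k → ℕ) := fun c => {m | (Fin.cons c m : Fin (k + 1) → ℕ) ∈ S}
    have hcons : ∀ {c c' : ℕ} {m m' : Fin k → ℕ}, c ≤ c' → m ≤ m' →
        (Fin.cons c m : Fin (k + 1) → ℕ) ≤ Fin.cons c' m' := by
      intro c c' m m' hc hm i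
      refine Fin.cases ?_ (fun i => ?_) i
      · exact hc
      · exact hm i
    have hSl : ∀ c, IsLowerSet (Sl c) := fun c m m' hle hm => hS (hcons le_rfl hle) hm
    obtain ⟨c₀, hc₀⟩ := stab Sl hSl fun c c' h m hm => hS (hcons h le_rfl) hm
    choose T hT using fun c => ih (Sl c) (hSl c)
    let lift₁ : ℕ → (Fin k → ℕ) × Finset (Fin k) → (Fin (k + 1) → ℕ) × Finset (Fin (k + 1)) :=
      fun c t => (Fin.cons c t.1, t.2.map (Fin.succEmb k))
    let lift₂ : (Fin k → ℕ) × Finset (Fin k) → (Fin (k + 1) → ℕ) × Finset (Fin (k + 1)) :=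
      fun t => (Fin.cons c₀ t.1, insert 0 (t.2.map (Fin.succEmb k)))
    have hmem : ∀ (A : Finset (Fin k)) (i : Fin k),
        i.succ ∈ A.map (Fin.succEmb k) ↔ i ∈ A := by
      intro A i
      rw [mem_map]
      constructor
      · rintro ⟨j, hj, hji⟩
        have : j = i := Fin.succ_injective _ hji
        rwa [this] at hj
      · intro hi
        exact ⟨i, hi, rfl⟩
    have h0 : ∀ (A : Finset (Fin k)), (0 : Fin (k + 1)) ∉ A.map (Fin.succEmb k) := by
      intro A h
      rw [mem_map] at h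
      obtain ⟨j, _, hj⟩ := h
      exact Fin.succ_ne_zero j hj
    have hb₁ : ∀ c t (m : Fin (k + 1) → ℕ), m ∈ Box (lift₁ c t).1 (lift₁ c t).2 ↔
        m 0 = c ∧ (fun i => m (Fin.succ i)) ∈ Box t.1 t.2 := by
      intro c t m
      constructor
      · rintro ⟨h1, h2⟩
        refine ⟨h2 0 (h0 _), fun i => h1 i.succ, fun i hi => ?_⟩
        exact h2 i.succ (fun h => hi ((hmem _ _).1 h))
      · rintro ⟨h1, h2, h3⟩
        refine ⟨fun i => ?_, fun i => ?_⟩
        · refine Fin.cases ?_ (fun i => ?_) i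
          · exact h1.ge
          · exact h2 i
        · refine Fin.cases ?_ (fun i => ?_) i
          · intro _
            exact h1
          · intro hi
            exact h3 i (fun h => hi ((hmem _ _).2 h))
    have hb₂ : ∀ t (m : Fin (k + 1) → ℕ), m ∈ Box (lift₂ t).1 (lift₂ t).2 ↔
        c₀ ≤ m 0 ∧ (fun i => m (Fin.succ i)) ∈ Box t.1 t.2 := by
      intro t m
      constructor
      · rintro ⟨h1, h2⟩
        refine ⟨h1 0, fun i => h1 i.succ, fun i hi => ?_⟩
        refine h2 i.succ (fun h => hi ?_)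
        rcases mem_insert.1 h with h | h
        · exact (Fin.succ_ne_zero _ h).elim
        · exact (hmem _ _).1 h
      · rintro ⟨h1, h2, h3⟩
        refine ⟨fun i => ?_, fun i => ?_⟩
        · refine Fin.cases ?_ (fun i => ?_) i
          · exact h1
          · exact h2 i
        · refine Fin.cases ?_ (fun i => ?_) i
          · intro h
            exact (h (mem_insert_self _ _)).elim
          · intro hi
            exact h3 i (fun h => hi (mem_insert_of_mem ((hmem _ _).2 h)))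
    refine ⟨(range c₀).biUnion (fun c => (T c).image (lift₁ c)) ∪ (T c₀).image lift₂,
      fun m => ?_⟩
    have hm : m ∈ S ↔ (fun i => m (Fin.succ i)) ∈ Sl (m 0) := by
      have : (Fin.cons (m 0) (fun i => m (Fin.succ i)) : Fin (k + 1) → ℕ) = m := Fin.cons_self_tail m
      show m ∈ S ↔ (Fin.cons (m 0) (fun i => m (Fin.succ i)) : Fin (k + 1) → ℕ) ∈ S
      rw [this]
    rw [hm]
    constructor
    · intro h
      rcases lt_or_ge (m 0) c₀ with hlt | hge
      · obtain ⟨t, ht, htm⟩ := (hT _ _).1 h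
        refine ⟨lift₁ (m 0) t, mem_union_left _ (mem_biUnion.2 ⟨m 0, mem_range.2 hlt,
          mem_image_of_mem _ ht⟩), ?_⟩
        rw [hb₁]
        exact ⟨rfl, htm⟩
      · rw [hc₀ _ hge] at h
        obtain ⟨t, ht, htm⟩ := (hT _ _).1 h
        refine ⟨lift₂ t, mem_union_right _ (mem_image_of_mem _ ht), ?_⟩
        rw [hb₂]
        exact ⟨hge, htm⟩
    · rintro ⟨u, hu, hum⟩
      rcases mem_union.1 hu with hu | hu
      · obtain ⟨c, hc, hu⟩ := mem_biUnion.1 hu
        obtain ⟨t, ht, rfl⟩ := mem_image.1 hu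
        rw [hb₁] at hum
        rw [hum.1]
        exact (hT _ _).2 ⟨t, ht, hum.2⟩
      · obtain ⟨t, ht, rfl⟩ := mem_image.1 hu
        rw [hb₂] at hum
        rw [hc₀ _ hum.1]
        exact (hT _ _).2 ⟨t, ht, hum.2⟩

variable {k : ℕ} (n : Fin k → ℕ)

/-- the degree -/
def dgm (m : Fin k → ℕ) : ℕ := ∑ i, m i * n i

theorem dgm_add (m m' : Fin k → ℕ) : dgm n (m + m') = dgm n m + dgm n m' := by
  unfold dgm
  rw [← sum_add_distrib]
  exact sum_congr rfl fun i _ => by rw [Pi.add_apply, add_mul]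

variable {n}

theorem le_dgm (hn : ∀ i, 1 ≤ n i) (m : Fin k → ℕ) (i : Fin k) : m i ≤ dgm n m := by
  unfold dgm
  calc m i = m i * 1 := (mul_one _).symm
    _ ≤ m i * n i := Nat.mul_le_mul_left _ (hn i)
    _ ≤ ∑ i, m i * n i := single_le_sum (f := fun i => m i * n i) (fun _ _ => Nat.zero_le _)
        (mem_univ i)

variable (n) in
/-- the exponents of degree `N` -/
def degSet (N : ℕ) : Finset (Fin k → ℕ) :=
  (Fintype.piFinset fun _ => range (N + 1)).filter fun m => dgm n m = N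

theorem mem_degSet (hn : ∀ i, 1 ≤ n i) {N : ℕ} {m : Fin k → ℕ} :
    m ∈ degSet n N ↔ dgm n m = N := by
  unfold degSet
  rw [mem_filter, Fintype.mem_piFinset]
  constructor
  · exact fun h => h.2
  · intro h
    refine ⟨fun i => ?_, h⟩
    rw [mem_range, ← h]
    exact Nat.lt_succ_of_le (le_dgm hn m i)

open Classical in
theorem card_box_le (hn : ∀ i, 1 ≤ n i) {b : Fin k → ℕ} {A : Finset (Fin k)} (hA : A.card ≤ 4)
    (N : ℕ) : ((degSet n N).filter fun m => m ∈ Box b A).card ≤ (N + 1) ^ 3 := by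
  rcases A.eq_empty_or_nonempty with rfl | ⟨i₀, hi₀⟩
  · have : ((degSet n N).filter fun m => m ∈ Box b ∅).card ≤ 1 := by
      rw [card_le_one]
      intro m hm m' hm'
      rw [mem_filter] at hm hm'
      funext i
      rw [hm.2.2 i (notMem_empty _), hm'.2.2 i (notMem_empty _)]
    exact this.trans (Nat.one_le_pow _ _ (Nat.succ_pos _))
  · let R : Fin k → Finset ℕ := fun i => if i ∈ A.erase i₀ then range (N + 1) else {0}
    have hR : (Fintype.piFinset R).card ≤ (N + 1) ^ 3 := by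
      rw [Fintype.card_piFinset]
      have h1 : ∀ i, (R i).card = if i ∈ A.erase i₀ then N + 1 else 1 := by
        intro i
        show (if i ∈ A.erase i₀ then range (N + 1) else {0}).card = _
        split_ifs
        · rw [card_range]
        · rw [card_singleton]
      rw [prod_congr rfl fun i _ => h1 i, prod_ite, prod_const, prod_const_one, mul_one]
      apply Nat.pow_le_pow_right (Nat.succ_pos _)
      have h2 : (univ.filter fun i => i ∈ A.erase i₀) = A.erase i₀ := by
        ext i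
        simp
      rw [h2, card_erase_of_mem hi₀]
      omega
    refine le_trans ?_ hR
    apply card_le_card_of_injOn (fun m i => if i ∈ A.erase i₀ then m i else 0)
    · intro m hm
      rw [mem_coe, mem_filter, mem_degSet hn] at hm
      rw [mem_coe, Fintype.mem_piFinset]
      intro i
      show (if i ∈ A.erase i₀ then m i else 0) ∈ (if i ∈ A.erase i₀ then range (N + 1) else {0})
      split_ifs
      · rw [mem_range, ← hm.1]
        exact Nat.lt_succ_of_le (le_dgm hn m i)
      · exact mem_singleton_self _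
    · intro m hm m' hm' heq
      rw [mem_coe, mem_filter, mem_degSet hn] at hm hm'
      have h3 : ∀ i, i ≠ i₀ → m i = m' i := by
        intro i hi
        by_cases hiA : i ∈ A
        · have h4 := congrFun heq i
          simp only [mem_erase, ne_eq, hi, not_false_eq_true, hiA, and_self, if_true] at h4
          exact h4
        · rw [hm.2.2 i hiA, hm'.2.2 i hiA]
      have h5 : dgm n m = dgm n m' := hm.1.trans hm'.1.symm
      unfold dgm at h5
      rw [← add_sum_erase _ _ (mem_univ i₀), ← add_sum_erase _ _ (mem_univ i₀)] at h5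
      have h6 : ∑ i ∈ univ.erase i₀, m i * n i = ∑ i ∈ univ.erase i₀, m' i * n i :=
        sum_congr rfl fun i hi => by rw [h3 i (ne_of_mem_erase hi)]
      rw [h6] at h5
      have h7 : m i₀ * n i₀ = m' i₀ * n i₀ := Nat.add_right_cancel h5
      have h8 : m i₀ = m' i₀ := Nat.eq_of_mul_eq_mul_right (hn i₀) h7
      funext i
      by_cases hi : i = i₀
      · rw [hi]
        exact h8
      · exact h3 i hi

open Classical in
theorem card_box_ge (A : Finset (Fin k)) {S : Set (Fin k → ℕ)} (hn : ∀ i, 1 ≤ n i)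
    (hS : Box 0 A ⊆ S) (M : ℕ) :
    (M + 1) ^ A.card ≤ ∑ N ∈ range ((∑ i, n i) * M + 1), ((degSet n N).filter (· ∈ S)).card := by
  let R : Fin k → Finset ℕ := fun i => if i ∈ A then range (M + 1) else {0}
  have hR : (Fintype.piFinset R).card = (M + 1) ^ A.card := by
    rw [Fintype.card_piFinset]
    have h1 : ∀ i, (R i).card = if i ∈ A then M + 1 else 1 := by
      intro i
      show (if i ∈ A then range (M + 1) else {0}).card = _
      split_ifs
      · rw [card_range]
      · rw [card_singleton]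
    rw [prod_congr rfl fun i _ => h1 i, prod_ite, prod_const, prod_const_one, mul_one]
    have h2 : (univ.filter fun i => i ∈ A) = A := by
      ext i
      simp
    rw [h2]
  rw [← hR]
  refine le_trans (card_le_card ?_) card_biUnion_le
  intro m hm
  rw [Fintype.mem_piFinset] at hm
  have h1 : ∀ i, m i ≤ M := by
    intro i
    have h := hm i
    change m i ∈ (if i ∈ A then range (M + 1) else {0}) at h
    split_ifs at h
    · rw [mem_range] at h
      omega
    · rw [mem_singleton] at h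
      omega
  have h2 : ∀ i, i ∉ A → m i = 0 := by
    intro i hi
    have h := hm i
    change m i ∈ (if i ∈ A then range (M + 1) else {0}) at h
    rw [if_neg hi, mem_singleton] at h
    exact h
  rw [mem_biUnion]
  refine ⟨dgm n m, ?_, ?_⟩
  · rw [mem_range, Nat.lt_succ_iff]
    unfold dgm
    rw [sum_mul]
    exact sum_le_sum fun i _ => by
      rw [mul_comm]
      exact Nat.mul_le_mul_left _ (h1 i)
  · rw [mem_filter, mem_degSet hn]
    exact ⟨rfl, hS ⟨fun i => Nat.zero_le _, h2⟩⟩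

open Classical in
/-- If the cumulative counting function of a lower set grows at most like `N ^ 4`, its counting
function grows at most like `N ^ 3`. -/
theorem hl1 (hn : ∀ i, 1 ≤ n i) {S : Set (Fin k → ℕ)} (hS : IsLowerSet S) {C : ℕ}
    (hC : ∀ N, ∑ N' ∈ range (N + 1), ((degSet n N').filter (· ∈ S)).card ≤ C * (N + 1) ^ 4) :
    ∃ C' : ℕ, ∀ N, ((degSet n N).filter (· ∈ S)).card ≤ C' * (N + 1) ^ 3 := by
  obtain ⟨T, hT⟩ := exists_boxes k S hS
  have hA : ∀ t ∈ T, t.2.card ≤ 4 := by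
    intro t ht
    by_contra hcon
    push Not at hcon
    have hsub : Box 0 t.2 ⊆ S := by
      intro m hm
      have h1 : t.1 + m ∈ S := by
        refine (hT _).2 ⟨t, ht, fun i => ?_, fun i hi => ?_⟩
        · rw [Pi.add_apply]
          exact Nat.le_add_right _ _
        · rw [Pi.add_apply, hm.2 i hi]
          rfl
      exact hS (fun i => by rw [Pi.add_apply]; exact Nat.le_add_left _ _) h1
    set D := ∑ i, n i with hD
    have h1 : ∀ M : ℕ, (M + 1) ^ 5 ≤ C * (D + 1) ^ 4 * (M + 1) ^ 4 := by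
      intro M
      calc (M + 1) ^ 5 ≤ (M + 1) ^ t.2.card := Nat.pow_le_pow_right (Nat.succ_pos _) hcon
        _ ≤ _ := card_box_ge t.2 hn hsub M
        _ ≤ C * (D * M + 1) ^ 4 := hC _
        _ ≤ C * ((D + 1) * (M + 1)) ^ 4 :=
          Nat.mul_le_mul_left _ (Nat.pow_le_pow_left (by nlinarith) _)
        _ = _ := by ring
    have h2 := h1 (C * (D + 1) ^ 4)
    rw [pow_succ _ 4, mul_comm] at h2
    have h3 := Nat.le_of_mul_le_mul_right h2 (Nat.pow_pos (Nat.succ_pos _))
    omega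
  refine ⟨T.card, fun N => ?_⟩
  calc ((degSet n N).filter (· ∈ S)).card
      ≤ (T.biUnion fun t => (degSet n N).filter fun m => m ∈ Box t.1 t.2).card := by
        apply card_le_card
        intro m hm
        rw [mem_filter] at hm
        obtain ⟨t, ht, htm⟩ := (hT m).1 hm.2
        rw [mem_biUnion]
        exact ⟨t, ht, mem_filter.2 ⟨hm.1, htm⟩⟩
    _ ≤ ∑ t ∈ T, ((degSet n N).filter fun m => m ∈ Box t.1 t.2).card := card_biUnion_le
    _ ≤ ∑ t ∈ T, (N + 1) ^ 3 := sum_le_sum fun t ht => card_box_le hn (hA t ht) N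
    _ = _ := by rw [sum_const, smul_eq_mul]

end Pool.Agent.YTD


end

/- source: Pool.Agent.YTD.HilbAlg -/

section

/-!
The Hilbert function of the quotient of a bigraded algebra by an element.
-/

namespace Pool.Agent.YTD

open Finset Module

set_option linter.unusedSectionVars false

section lin

variable {K R : Type} [Field K] [AddCommGroup R] [Module K R]

open Classical in
/-- counting the elements of a finite family which do not depend on the previous ones. -/
theorem finrank_std {α β : Type} [LinearOrder β] {κ : α → β} (hκ : Function.Injective κ)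
    (W : Submodule K R) [FiniteDimensional K W] (u : α → R) (s : Finset α) :
    finrank K (W ⊔ Submodule.span K (u '' s) : Submodule K R) = finrank K W +
      (s.filter fun a => u a ∉ W ⊔ Submodule.span K (u '' {b | b ∈ s ∧ κ b < κ a})).card := by
  induction s using Finset.induction_on_max_value κ with
  | empty =>
    rw [coe_empty, Set.image_empty, Submodule.span_empty, sup_bot_eq, filter_empty, card_empty,
      add_zero]
  | insert a s ha hmax ih =>
    have hfin : FiniteDimensional K (Submodule.span K (u '' (s : Set α))) :=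
      FiniteDimensional.span_of_finite K (s.finite_toSet.image u)
    have h1 : {b | b ∈ insert a s ∧ κ b < κ a} = (s : Set α) := by
      ext b
      rw [Set.mem_setOf_eq, mem_insert, mem_coe]
      constructor
      · rintro ⟨h | h, h'⟩
        · subst h
          exact (lt_irrefl _ h').elim
        · exact h
      · intro h
        refine ⟨Or.inr h, lt_of_le_of_ne (hmax b h) fun h' => ?_⟩
        exact ha (hκ h' ▸ h)
    have h2 : ∀ x ∈ s, {b | b ∈ insert a s ∧ κ b < κ x} = {b | b ∈ s ∧ κ b < κ x} := by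
      intro x hx
      ext b
      rw [Set.mem_setOf_eq, Set.mem_setOf_eq, mem_insert]
      constructor
      · rintro ⟨h | h, h'⟩
        · subst h
          exact (not_lt.2 (hmax x hx) h').elim
        · exact ⟨h, h'⟩
      · rintro ⟨h, h'⟩
        exact ⟨Or.inr h, h'⟩
    have h3 : (W ⊔ Submodule.span K (u '' ((insert a s : Finset α) : Set α)) : Submodule K R) =
        (W ⊔ Submodule.span K (u '' (s : Set α))) ⊔ Submodule.span K {u a} := by
      rw [coe_insert, Set.image_insert_eq, Submodule.span_insert, sup_comm (Submodule.span K {u a}),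
        ← sup_assoc]
    rw [h3, filter_insert, h1]
    have h4 : (s.filter fun x => u x ∉ W ⊔
        Submodule.span K (u '' {b | b ∈ insert a s ∧ κ b < κ x})) =
        s.filter fun x => u x ∉ W ⊔ Submodule.span K (u '' {b | b ∈ s ∧ κ b < κ x}) :=
      filter_congr fun x hx => by rw [h2 x hx]
    rw [h4]
    set Y : Submodule K R := W ⊔ Submodule.span K (u '' (s : Set α)) with hY
    by_cases hu : u a ∈ Y
    · rw [if_neg (not_not.2 hu), sup_eq_left.2 ((Submodule.span_singleton_le_iff_mem _ _).2 hu)]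
      exact ih
    · rw [if_pos hu, card_insert_of_notMem (fun h => ha (mem_filter.1 h).1), ← add_assoc, ← ih]
      have hu0 : u a ≠ 0 := fun h => hu (h ▸ zero_mem _)
      have h5 := Submodule.finrank_sup_add_finrank_inf_eq Y (Submodule.span K {u a})
      have h6 : Y ⊓ Submodule.span K {u a} = ⊥ := by
        rw [← disjoint_iff]
        exact (Submodule.disjoint_span_singleton' hu0).2 hu
      rw [h6, finrank_bot, add_zero, finrank_span_singleton hu0] at h5
      exact h5

end lin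

variable {K R : Type} [Field K] [CommRing R] [IsDomain R] [Algebra K R]
variable {k : ℕ} (n : Fin k → ℕ) (v : Fin k → ℤ) (g : Fin k → R)

/-- the weight -/
def wtm (m : Fin k → ℕ) : ℤ := ∑ i, (m i : ℤ) * v i

/-- the monomial -/
def mon (m : Fin k → ℕ) : R := ∏ i, g i ^ m i

theorem wtm_add (m m' : Fin k → ℕ) : wtm v (m + m') = wtm v m + wtm v m' := by
  unfold wtm
  rw [← sum_add_distrib]
  exact sum_congr rfl fun i _ => by rw [Pi.add_apply]; push_cast; ring

theorem mon_add (m m' : Fin k → ℕ) : mon g (m + m') = mon g m * mon g m' := by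
  unfold mon
  rw [← prod_mul_distrib]
  exact prod_congr rfl fun i _ => by rw [Pi.add_apply, pow_add]

variable {n v g}

theorem wtm_ge {Λ : ℕ} (hv : ∀ i, -((Λ * n i : ℕ) : ℤ) ≤ v i) (m : Fin k → ℕ) :
    -((Λ * dgm n m : ℕ) : ℤ) ≤ wtm v m := by
  unfold wtm dgm
  push_cast
  rw [mul_sum, ← sum_neg_distrib]
  refine sum_le_sum fun i _ => ?_
  have h := mul_le_mul_of_nonneg_left (hv i) (Nat.cast_nonneg (m i) : (0 : ℤ) ≤ m i)
  push_cast at h
  linarith

/-- the data of a bigraded algebra -/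
structure BigrData (n : Fin k → ℕ) (v : Fin k → ℤ) (g : Fin k → R)
    (B : ℕ → ℤ → Submodule K R) (Λ : ℕ) (e : R) : Prop where
  hn : ∀ i, 1 ≤ n i
  hv : ∀ i, -((Λ * n i : ℕ) : ℤ) ≤ v i
  hgen : ∀ N l, -((Λ * N : ℕ) : ℤ) ≤ l →
    B N l = Submodule.span K (mon g '' {m | dgm n m = N ∧ wtm v m = l})
  hmul : ∀ N N' l l', ∀ x ∈ B N l, ∀ y ∈ B N' l', x * y ∈ B (N + N') (l + l')
  htop : ∀ N l, ((Λ * N : ℕ) : ℤ) < l → B N l = ⊥
  he : e ∈ B 1 (-(Λ : ℤ))
  he0 : e ≠ 0

variable {B : ℕ → ℤ → Submodule K R} {Λ : ℕ} {e : R}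

/-- the multiples of `e` -/
def EE (B : ℕ → ℤ → Submodule K R) (Λ : ℕ) (e : R) : ℕ → ℤ → Submodule K R
  | 0, _ => ⊥
  | N + 1, l => (B N (l + Λ)).map (LinearMap.mulLeft K e)

/-- the standard exponents -/
def StdS (n : Fin k → ℕ) (v : Fin k → ℤ) (g : Fin k → R) (B : ℕ → ℤ → Submodule K R) (Λ : ℕ)
    (e : R) : Set (Fin k → ℕ) :=
  {m | mon g m ∉ EE B Λ e (dgm n m) (wtm v m) ⊔ Submodule.span K
    (mon g '' {m' | (dgm n m' = dgm n m ∧ wtm v m' = wtm v m) ∧ toLex m' < toLex m})}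

namespace BigrData

variable (H : BigrData n v g B Λ e)
include H

theorem mon_mem (m : Fin k → ℕ) : mon g m ∈ B (dgm n m) (wtm v m) := by
  rw [H.hgen _ _ (wtm_ge H.hv m)]
  exact Submodule.subset_span ⟨m, ⟨rfl, rfl⟩, rfl⟩

theorem mul_mem_EE {N : ℕ} {l : ℤ} {x : R} (hx : x ∈ EE B Λ e N l) (a : Fin k → ℕ) :
    mon g a * x ∈ EE B Λ e (N + dgm n a) (l + wtm v a) := by
  cases N with
  | zero =>
    rw [(Submodule.mem_bot K).1 hx, mul_zero]
    exact zero_mem _
  | succ N =>
    obtain ⟨b, hb, rfl⟩ := hx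
    have e1 : N + 1 + dgm n a = (N + dgm n a) + 1 := by ring
    rw [e1]
    refine ⟨b * mon g a, ?_, ?_⟩
    · have h := H.hmul _ _ _ _ b hb (mon g a) (H.mon_mem a)
      have e2 : l + wtm v a + Λ = l + Λ + wtm v a := by ring
      show b * mon g a ∈ B (N + dgm n a) (l + wtm v a + Λ)
      rw [e2]
      exact h
    · rw [LinearMap.mulLeft_apply, LinearMap.mulLeft_apply]
      ring

theorem lower : IsLowerSet (StdS n v g B Λ e) := by
  intro m' m hle hm'
  obtain ⟨a, rfl⟩ : ∃ a, m' = m + a := ⟨m' - m, by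
    funext i
    have h : m i ≤ m' i := hle i
    rw [Pi.add_apply, Pi.sub_apply]
    omega⟩
  intro hm
  apply hm'
  obtain ⟨x, hx, y, hy, hxy⟩ := Submodule.mem_sup.1 hm
  rw [mon_add, mul_comm, ← hxy, mul_add]
  apply Submodule.add_mem_sup
  · rw [dgm_add, wtm_add]
    exact H.mul_mem_EE hx a
  · have h1 : LinearMap.mulLeft K (mon g a) y ∈ (Submodule.span K (mon g '' {m' |
        (dgm n m' = dgm n m ∧ wtm v m' = wtm v m) ∧ toLex m' < toLex m})).map
        (LinearMap.mulLeft K (mon g a)) := ⟨y, hy, rfl⟩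
    rw [Submodule.map_span] at h1
    refine Submodule.span_mono ?_ h1
    rintro _ ⟨_, ⟨m', ⟨⟨h2, h3⟩, h4⟩, rfl⟩, rfl⟩
    refine ⟨m' + a, ⟨⟨?_, ?_⟩, ?_⟩, ?_⟩
    · rw [dgm_add, dgm_add, h2]
    · rw [wtm_add, wtm_add, h3]
    · exact add_lt_add_left h4 _
    · rw [mon_add, LinearMap.mulLeft_apply, mul_comm]

end BigrData

end Pool.Agent.YTD


end

/- source: Pool.Agent.YTD.HilbCount -/

section

/-!
The growth of the Hilbert function.
-/

namespace Pool.Agent.YTD

open Finset Module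

set_option linter.unusedSectionVars false

variable {K R : Type} [Field K] [CommRing R] [IsDomain R] [Algebra K R]
variable {k : ℕ} {n : Fin k → ℕ} {v : Fin k → ℤ} {g : Fin k → R}
variable {B : ℕ → ℤ → Submodule K R} {Λ : ℕ} {e : R}

namespace BigrData

variable (H : BigrData n v g B Λ e)
include H

theorem finite (N : ℕ) (l : ℤ) (hl : -((Λ * N : ℕ) : ℤ) ≤ l) : FiniteDimensional K (B N l) := by
  rw [H.hgen N l hl]
  apply FiniteDimensional.span_of_finite
  apply Set.Finite.image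
  refine (degSet n N).finite_toSet.subset ?_
  rintro m ⟨hm, _⟩
  rw [mem_coe, mem_degSet H.hn]
  exact hm

theorem EE_le (N : ℕ) (l : ℤ) : EE B Λ e N l ≤ B N l := by
  cases N with
  | zero => exact bot_le
  | succ N =>
    rintro _ ⟨b, hb, rfl⟩
    have h := H.hmul _ _ _ _ b hb e H.he
    rw [LinearMap.mulLeft_apply, mul_comm]
    have e1 : l + Λ + -(Λ : ℤ) = l := by ring
    rw [e1] at h
    exact h

theorem finrank_EE (N : ℕ) (l : ℤ) : finrank K (EE B Λ e (N + 1) l) = finrank K (B N (l + Λ)) :=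
  (LinearEquiv.finrank_eq (Submodule.equivMapOfInjective (LinearMap.mulLeft K e)
    (mul_right_injective₀ H.he0) (B N (l + Λ)))).symm

open Classical in
theorem finrank_B (N : ℕ) (l : ℤ) (hl : -((Λ * N : ℕ) : ℤ) ≤ l) :
    finrank K (B N l) = finrank K (EE B Λ e N l) +
      ((degSet n N).filter fun m => m ∈ StdS n v g B Λ e ∧ wtm v m = l).card := by
  have hfin := H.finite N l hl
  have : FiniteDimensional K (EE B Λ e N l) := Submodule.finiteDimensional_of_le (H.EE_le N l)
  have h := finrank_std (κ := fun m : Fin k → ℕ => toLex m) toLex.injective (EE B Λ e N l)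
    (mon g) ((degSet n N).filter fun m => wtm v m = l)
  have h1 : ((((degSet n N).filter fun m => wtm v m = l : Finset (Fin k → ℕ)) : Set (Fin k → ℕ))) =
      {m | dgm n m = N ∧ wtm v m = l} := by
    ext m
    rw [mem_coe, mem_filter, mem_degSet H.hn]
    rfl
  rw [h1, ← H.hgen N l hl, sup_eq_right.2 (H.EE_le N l)] at h
  rw [h]
  congr 2
  rw [filter_filter]
  ext m
  rw [mem_filter, mem_filter, mem_degSet H.hn]
  constructor
  · rintro ⟨h2, h3, h4⟩
    refine ⟨h2, ?_, h3⟩
    show mon g m ∉ EE B Λ e (dgm n m) (wtm v m) ⊔ Submodule.span K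
      (mon g '' {m' | (dgm n m' = dgm n m ∧ wtm v m' = wtm v m) ∧ toLex m' < toLex m})
    simp only [mem_filter, mem_degSet H.hn] at h4
    rw [h2, h3]
    exact h4
  · rintro ⟨h2, h3, h4⟩
    refine ⟨h2, h4, ?_⟩
    change mon g m ∉ EE B Λ e (dgm n m) (wtm v m) ⊔ Submodule.span K
      (mon g '' {m' | (dgm n m' = dgm n m ∧ wtm v m' = wtm v m) ∧ toLex m' < toLex m}) at h3
    rw [h2, h4] at h3
    simp only [mem_filter, mem_degSet H.hn]
    exact h3

theorem wtm_le {m : Fin k → ℕ} (hm : m ∈ StdS n v g B Λ e) :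
    wtm v m ≤ ((Λ * dgm n m : ℕ) : ℤ) := by
  by_contra h
  push Not at h
  have h1 := H.mon_mem m
  rw [H.htop _ _ h, Submodule.mem_bot] at h1
  apply hm
  rw [h1]
  exact zero_mem _

open Classical in
/-- the number of standard exponents of degree `N` -/
theorem card_std (N : ℕ) : ((degSet n N).filter (· ∈ StdS n v g B Λ e)).card =
    ∑ l ∈ Icc (-((Λ * N : ℕ) : ℤ)) ((Λ * N : ℕ) : ℤ),
      ((degSet n N).filter fun m => m ∈ StdS n v g B Λ e ∧ wtm v m = l).card := by
  have h := card_eq_sum_card_fiberwise (f := fun m => wtm v m)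
    (s := (degSet n N).filter (· ∈ StdS n v g B Λ e))
    (t := Icc (-((Λ * N : ℕ) : ℤ)) ((Λ * N : ℕ) : ℤ)) (by
      intro m hm
      rw [mem_coe, mem_filter, mem_degSet H.hn] at hm
      rw [mem_coe, mem_Icc]
      have h1 := wtm_ge H.hv m
      have h2 := H.wtm_le hm.2
      rw [hm.1] at h1 h2
      exact ⟨h1, h2⟩)
  rw [h]
  refine sum_congr rfl fun l _ => ?_
  rw [filter_filter]

theorem finrank_zero {N : ℕ} {l : ℤ} (h : ((Λ * N : ℕ) : ℤ) < l) : finrank K (B N l) = 0 := by
  rw [H.htop N l h, finrank_bot]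

/-- reindexing -/
theorem sum_shift (N : ℕ) : ∑ l ∈ Icc (-((Λ * (N + 1) : ℕ) : ℤ)) ((Λ * (N + 1) : ℕ) : ℤ),
    finrank K (B N (l + Λ)) =
    ∑ l ∈ Icc (-((Λ * N : ℕ) : ℤ)) ((Λ * N : ℕ) : ℤ), finrank K (B N l) := by
  have h1 : ∑ l ∈ Icc (-((Λ * (N + 1) : ℕ) : ℤ)) ((Λ * (N + 1) : ℕ) : ℤ), finrank K (B N (l + Λ)) =
      ∑ l ∈ Icc (-((Λ * N : ℕ) : ℤ)) ((Λ * (N + 2) : ℕ) : ℤ), finrank K (B N l) := by
    refine sum_bij' (fun l _ => l + Λ) (fun l _ => l - Λ) ?_ ?_ ?_ ?_ ?_
    · intro l hl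
      rw [mem_Icc] at hl ⊢
      push_cast at hl ⊢
      constructor <;> linarith
    · intro l hl
      rw [mem_Icc] at hl ⊢
      push_cast at hl ⊢
      constructor <;> linarith
    · intro l _
      ring
    · intro l _
      ring
    · intro l _
      rfl
  rw [h1]
  symm
  apply sum_subset
  · intro l hl
    rw [mem_Icc] at hl ⊢
    push_cast at hl ⊢
    refine ⟨hl.1, hl.2.trans ?_⟩
    have : (0 : ℤ) ≤ Λ := by positivity
    linarith
  · intro l hl hl'
    rw [mem_Icc] at hl hl'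
    apply H.finrank_zero
    by_contra h
    push Not at h
    exact hl' ⟨hl.1, h⟩

open Classical in
theorem sum_succ (N : ℕ) :
    ∑ l ∈ Icc (-((Λ * (N + 1) : ℕ) : ℤ)) ((Λ * (N + 1) : ℕ) : ℤ), finrank K (B (N + 1) l) =
    ∑ l ∈ Icc (-((Λ * N : ℕ) : ℤ)) ((Λ * N : ℕ) : ℤ), finrank K (B N l) +
      ((degSet n (N + 1)).filter (· ∈ StdS n v g B Λ e)).card := by
  rw [H.card_std, ← H.sum_shift N, ← sum_add_distrib]
  refine sum_congr rfl fun l hl => ?_
  rw [H.finrank_B (N + 1) l (mem_Icc.1 hl).1, H.finrank_EE]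

open Classical in
theorem sum_cum (N : ℕ) :
    ∑ N' ∈ range (N + 1), ((degSet n N').filter (· ∈ StdS n v g B Λ e)).card =
    ∑ l ∈ Icc (-((Λ * N : ℕ) : ℤ)) ((Λ * N : ℕ) : ℤ), finrank K (B N l) := by
  induction N with
  | zero =>
    rw [sum_range_one, H.card_std]
    refine sum_congr rfl fun l hl => ?_
    rw [H.finrank_B 0 l (mem_Icc.1 hl).1]
    show _ = finrank K (⊥ : Submodule K R) + _
    rw [finrank_bot, zero_add]
  | succ N ih =>
    rw [sum_range_succ, ih, H.sum_succ]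

/-- The main result. -/
theorem hilb {C : ℕ} (hC : ∀ N l, finrank K (B N l) ≤ C * (N + 1) ^ 3) :
    ∃ C' : ℕ, ∀ N, ∑ l ∈ Ioc (-((Λ * (N + 1) : ℕ) : ℤ)) ((Λ * (N + 1) : ℕ) : ℤ),
      finrank K (B (N + 1) l) ≤
      ∑ l ∈ Ioc (-((Λ * N : ℕ) : ℤ)) ((Λ * N : ℕ) : ℤ), finrank K (B N l) +
        C' * (N + 2) ^ 3 := by
  classical
  obtain ⟨C', hC'⟩ := hl1 H.hn H.lower (C := (2 * Λ + 1) * C) (by
    intro N
    rw [H.sum_cum]
    calc ∑ l ∈ Icc (-((Λ * N : ℕ) : ℤ)) ((Λ * N : ℕ) : ℤ), finrank K (B N l)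
        ≤ ∑ l ∈ Icc (-((Λ * N : ℕ) : ℤ)) ((Λ * N : ℕ) : ℤ), C * (N + 1) ^ 3 :=
          sum_le_sum fun l _ => hC N l
      _ = (2 * (Λ * N) + 1) * (C * (N + 1) ^ 3) := by
          rw [sum_const, smul_eq_mul, Int.card_Icc]
          congr 1
          omega
      _ ≤ ((2 * Λ + 1) * (N + 1)) * (C * (N + 1) ^ 3) := Nat.mul_le_mul_right _ (by nlinarith)
      _ = _ := by ring)
  refine ⟨C', fun N => ?_⟩
  have h1 := H.sum_succ N
  have h2 := hC' (N + 1)
  have hI : ∀ M : ℕ, ∀ f : ℤ → ℕ, ∑ l ∈ Icc (-((Λ * M : ℕ) : ℤ)) ((Λ * M : ℕ) : ℤ), f l =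
      f (-((Λ * M : ℕ) : ℤ)) + ∑ l ∈ Ioc (-((Λ * M : ℕ) : ℤ)) ((Λ * M : ℕ) : ℤ), f l := by
    intro M f
    rw [← Ioc_insert_left (show -((Λ * M : ℕ) : ℤ) ≤ ((Λ * M : ℕ) : ℤ) by omega), sum_insert
      (by simp)]
  rw [hI (N + 1), hI N] at h1
  have h3 : finrank K (B N (-((Λ * N : ℕ) : ℤ))) ≤
      finrank K (B (N + 1) (-((Λ * (N + 1) : ℕ) : ℤ))) := by
    rw [H.finrank_B (N + 1) _ le_rfl, H.finrank_EE]
    have e1 : -((Λ * (N + 1) : ℕ) : ℤ) + Λ = -((Λ * N : ℕ) : ℤ) := by
      push_cast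
      ring
    rw [e1]
    exact Nat.le_add_right _ _
  have e2 : N + 1 + 1 = N + 2 := rfl
  rw [e2] at h2
  omega

end BigrData

end Pool.Agent.YTD


end

/- source: Pool.Agent.YTD.SatDef -/

section

/-!
The sheaf generated by a space of sections over a curve, and its twists: definitions.
The section rings of the quotients by `Γ` and their filtrations.
-/

namespace Pool.Agent.YTD

open Finset Module MvPolynomial Filter

namespace CurveOrd

variable {K : Type} [Field K] [Algebra ℂ K] (X : CurveOrd K)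

/-- The local ring of the functions regular at `P`. -/
def OO (P : X.Pt) : Subring K where
  carrier := {z | z ≠ 0 → 0 ≤ X.ord P z}
  one_mem' := fun _ => (X.ord_one P).ge
  zero_mem' := fun h => (h rfl).elim
  mul_mem' := by
    intro a b ha hb h
    have ha0 : a ≠ 0 := left_ne_zero_of_mul h
    have hb0 : b ≠ 0 := right_ne_zero_of_mul h
    rw [X.ord_mul P a b ha0 hb0]
    have := ha ha0
    have := hb hb0
    linarith
  add_mem' := by
    intro a b ha hb h
    by_cases ha0 : a = 0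
    · subst ha0
      rw [zero_add] at h ⊢
      exact hb h
    by_cases hb0 : b = 0
    · subst hb0
      rw [add_zero] at h ⊢
      exact ha h
    have h1 := X.ord_add P a b ha0 hb0 h
    have h2 := ha ha0
    have h3 := hb hb0
    rcases min_choice (X.ord P a) (X.ord P b) with h4 | h4 <;> rw [h4] at h1 <;> linarith
  neg_mem' := by
    intro a ha h
    have ha0 : a ≠ 0 := by
      rintro rfl
      exact h neg_zero
    have h1 : -a = algebraMap ℂ K (-1) * a := by
      rw [map_neg, map_one, neg_one_mul]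
    have h2 : algebraMap ℂ K (-1) ≠ 0 := by
      rw [map_neg, map_one]
      exact neg_ne_zero.2 one_ne_zero
    rw [h1, X.ord_mul P _ _ h2 ha0, X.ord_const P (-1) (by norm_num), zero_add]
    exact ha ha0

theorem mem_OO {P : X.Pt} {z : K} : z ∈ X.OO P ↔ (z ≠ 0 → 0 ≤ X.ord P z) := Iff.rfl

variable {V : Type} [AddCommGroup V] [Module K V] [Module ℂ V] [IsScalarTower ℂ K V]

/-- The stalk at `P` of the sheaf generated by `U`. -/
def loc (P : X.Pt) (U : Submodule ℂ V) : Submodule (X.OO P) V :=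
  Submodule.span (X.OO P) (U : Set V)

/-- The global sections of the sheaf generated by `U`, twisted by the divisor `D`. -/
def satD (D : X.Pt →₀ ℤ) (U : Submodule ℂ V) : Submodule ℂ V where
  carrier := {f | ∀ (P : X.Pt) (z : K), z ≠ 0 → D P ≤ X.ord P z → z • f ∈ X.loc P U}
  zero_mem' := by
    intro P z _ _
    rw [smul_zero]
    exact Submodule.zero_mem _
  add_mem' := by
    intro f g hf hg P z hz h
    rw [smul_add]
    exact Submodule.add_mem _ (hf P z hz h) (hg P z hz h)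
  smul_mem' := by
    intro c f hf P z hz h
    by_cases hc : c = 0
    · rw [hc, zero_smul, smul_zero]
      exact Submodule.zero_mem _
    have hc' : algebraMap ℂ K c ≠ 0 := (map_ne_zero _).2 hc
    have e : z • c • f = (z * algebraMap ℂ K c) • f := by
      rw [mul_smul, algebraMap_smul]
    rw [e]
    apply hf P _ (mul_ne_zero hz hc')
    rw [X.ord_mul P _ _ hz hc', X.ord_const P c hc, add_zero]
    exact h

/-- The dimension of the `K`-span. -/
noncomputable def kdim (K : Type) [Field K] [Algebra ℂ K] {V : Type} [AddCommGroup V]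
    [Module K V] [Module ℂ V] (U : Submodule ℂ V) : ℕ :=
  finrank K (Submodule.span K (U : Set V))

/-- `Bd U h`: the first cohomology of the sheaf generated by `U` has dimension at most `h`. -/
def Bd (U : Submodule ℂ V) (h : ℕ) : Prop := ∀ A : X.Pt →₀ ℤ, (∀ P, 0 ≤ A P) →
  (kdim K U : ℤ) * X.deg A + finrank ℂ (X.satD 0 U) ≤ finrank ℂ (X.satD A U) + h

end CurveOrd

variable {K : Type} [Field K] [Algebra ℂ K]
variable {T : Datum K} {q : ℕ} {D₀ : T.X.Pt →₀ ℤ} {r : ℕ}

/-- The sections of the `N`-th power of the line bundle on the quotient by `Γ`: the elements of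
`sec N` fixed by `Γ`. -/
noncomputable def Gam.secQ (γ : Gam T) (q : ℕ) (D₀ : T.X.Pt →₀ ℤ) (N : ℕ) :
    Submodule ℂ (MvPolynomial (Fin 4) K) where
  carrier := {f | f ∈ T.sec q D₀ N ∧ γ.E₁ f = f ∧ γ.E₂ f = f ∧ γ.tauE f = f}
  zero_mem' := ⟨zero_mem _, map_zero _, map_zero _, map_zero _⟩
  add_mem' := by
    rintro f g ⟨h1, h2, h3, h4⟩ ⟨h1', h2', h3', h4'⟩
    exact ⟨add_mem h1 h1', by rw [map_add, h2, h2'], by rw [map_add, h3, h3'],
      by rw [map_add, h4, h4']⟩
  smul_mem' := by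
    rintro c f ⟨h1, h2, h3, h4⟩
    exact ⟨Submodule.smul_mem _ _ h1, by rw [map_smul, h2], by rw [map_smul, h3],
      by rw [map_smul, h4]⟩

theorem Gam.mem_secQ {γ : Gam T} {N : ℕ} {f : MvPolynomial (Fin 4) K} :
    f ∈ γ.secQ q D₀ N ↔ f ∈ T.sec q D₀ N ∧ γ.E₁ f = f ∧ γ.E₂ f = f ∧ γ.tauE f = f := Iff.rfl

theorem Gam.secQ_le (γ : Gam T) (q : ℕ) (D₀ : T.X.Pt →₀ ℤ) (N : ℕ) :
    γ.secQ q D₀ N ≤ T.sec q D₀ N := fun _ h => h.1

/-- A linearly bounded multiplicative decreasing filtration of the graded ring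
`⊕_N secQ (r N)` of the quotient. -/
structure QFilt (γ : Gam T) (q : ℕ) (D₀ : T.X.Pt →₀ ℤ) (r : ℕ) where
  F : ℕ → ℤ → Submodule ℂ (MvPolynomial (Fin 4) K)
  le : ∀ N l, F N l ≤ γ.secQ q D₀ (r * N)
  anti : ∀ N l l', l ≤ l' → F N l' ≤ F N l
  mul : ∀ N N' l l', ∀ f ∈ F N l, ∀ g ∈ F N' l', f * g ∈ F (N + N') (l + l')
  bound : ∃ Λ : ℕ, ∀ N : ℕ, F N (-(Λ * N)) = γ.secQ q D₀ (r * N) ∧ F N (Λ * N + 1) = ⊥

/-- A test configuration of exponent `r` of the quotient: a filtration whose Rees algebra is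
finitely generated. -/
structure QTestConf (γ : Gam T) (q : ℕ) (D₀ : T.X.Pt →₀ ℤ) (r : ℕ) extends QFilt γ q D₀ r where
  fg : ∃ (k : ℕ) (n : Fin k → ℕ) (w : Fin k → ℤ) (f : Fin k → MvPolynomial (Fin 4) K),
    (∀ i, f i ∈ F (n i) (w i)) ∧
    ∀ N l, F N l ≤ Submodule.span ℂ {g | ∃ m : Fin k → ℕ,
      ∑ i, m i * n i = N ∧ l ≤ ∑ i, m i * w i ∧ g = ∏ i, f i ^ m i}

namespace QFilt

variable {γ : Gam T} (χ : QFilt γ q D₀ r)

/-- The dimension of the degree `N` part of the section ring. -/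
noncomputable def dimN (_ : QFilt γ q D₀ r) (N : ℕ) : ℝ := finrank ℂ (γ.secQ q D₀ (r * N))

/-- The dimension of the part of weight `l`. -/
noncomputable def wt (N : ℕ) (l : ℤ) : ℝ := finrank ℂ (χ.F N l) - finrank ℂ (χ.F N (l + 1))

/-- The trace of the `p`-th power of the generator of the `ℂ*`-action. -/
noncomputable def tr (p N : ℕ) : ℝ := ∑ᶠ l : ℤ, (l : ℝ) ^ p * χ.wt N l

/-- `a₀, a₁, b₀, b₁, c₀` are the coefficients of the asymptotic expansions. -/
def Expansion (a₀ a₁ b₀ b₁ c₀ : ℝ) : Prop :=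
  (∃ C : ℝ, ∀ᶠ N : ℕ in Filter.atTop, |χ.dimN N - (a₀ * N ^ 4 + a₁ * N ^ 3)| ≤ C * N ^ 2) ∧
  (∃ C : ℝ, ∀ᶠ N : ℕ in Filter.atTop, |χ.tr 1 N - (b₀ * N ^ 5 + b₁ * N ^ 4)| ≤ C * N ^ 3) ∧
  (∃ C : ℝ, ∀ᶠ N : ℕ in Filter.atTop, |χ.tr 2 N - c₀ * N ^ 6| ≤ C * N ^ 5)

/-- `Fut` is the Futaki invariant. -/
def HasFutaki (Fut : ℝ) : Prop :=
  ∃ a₀ a₁ b₀ b₁ c₀ : ℝ, χ.Expansion a₀ a₁ b₀ b₁ c₀ ∧ Fut = (a₁ * b₀ - a₀ * b₁) / a₀ ^ 2

end QFilt

end Pool.Agent.YTD


end

/- source: Pool.Agent.YTD.SatA -/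

section

/-!
Basic properties of the sheaf generated by a space of sections.
-/

namespace Pool.Agent.YTD

open Finset Module MvPolynomial Filter

namespace CurveOrd

variable {K : Type} [Field K] [Algebra ℂ K] (X : CurveOrd K)
variable {V : Type} [AddCommGroup V] [Module K V] [Module ℂ V]

theorem smul_mem_loc {P : X.Pt} {U : Submodule ℂ V} {z : K} (hz : z ≠ 0 → 0 ≤ X.ord P z) {f : V}
    (hf : f ∈ X.loc P U) : z • f ∈ X.loc P U :=
  (X.loc P U).smul_mem (⟨z, hz⟩ : X.OO P) hf

theorem mem_loc (P : X.Pt) {U : Submodule ℂ V} {f : V} (hf : f ∈ U) : f ∈ X.loc P U :=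
  Submodule.subset_span hf

theorem loc_mono (P : X.Pt) {U U' : Submodule ℂ V} (h : U ≤ U') : X.loc P U ≤ X.loc P U' :=
  Submodule.span_mono h

/-- The local ring is local. -/
instance OO_isLocalRing (P : X.Pt) : IsLocalRing (X.OO P) := by
  apply IsLocalRing.of_isUnit_or_isUnit_one_sub_self
  have unit : ∀ a : X.OO P, (a : K) ≠ 0 → X.ord P (a : K) = 0 → IsUnit a := by
    intro a ha h
    refine ⟨⟨a, ⟨(a : K)⁻¹, ?_⟩, ?_, ?_⟩, rfl⟩
    · intro _
      rw [X.ord_inv P ha, h, neg_zero]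
    · apply Subtype.ext
      exact mul_inv_cancel₀ ha
    · apply Subtype.ext
      exact inv_mul_cancel₀ ha
  intro a
  by_cases ha : (a : K) = 0
  · right
    have h1 : a = 0 := Subtype.ext ha
    rw [h1, sub_zero]
    exact isUnit_one
  have h0 : 0 ≤ X.ord P (a : K) := a.2 ha
  rcases h0.eq_or_lt with h | h
  · left
    exact unit a ha h.symm
  · right
    have h1 : (1 : K) - a ≠ 0 := by
      intro h2
      have h3 : (a : K) = 1 := (sub_eq_zero.1 h2).symm
      rw [h3, X.ord_one] at h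
      exact lt_irrefl _ h
    apply unit (1 - a) h1
    have h2 : 0 ≤ X.ord P ((1 : K) - a) := (1 - a).2 h1
    by_contra h3
    have h4 : 0 < X.ord P ((1 : K) - a) := lt_of_le_of_ne h2 (Ne.symm h3)
    have h5 := X.ord_add P (a : K) (1 - a) ha h1 (by
      rw [add_sub_cancel]
      exact one_ne_zero)
    rw [add_sub_cancel, X.ord_one] at h5
    rcases min_choice (X.ord P (a : K)) (X.ord P ((1 : K) - a)) with h6 | h6 <;>
      rw [h6] at h5 <;> linarith

variable [IsScalarTower ℂ K V]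

theorem mem_satD {D : X.Pt →₀ ℤ} {U : Submodule ℂ V} {f : V} : f ∈ X.satD D U ↔
    ∀ (P : X.Pt) (z : K), z ≠ 0 → D P ≤ X.ord P z → z • f ∈ X.loc P U := Iff.rfl

theorem mem_satD_zero {U : Submodule ℂ V} {f : V} : f ∈ X.satD 0 U ↔ ∀ P, f ∈ X.loc P U := by
  rw [mem_satD]
  constructor
  · intro h P
    have := h P 1 one_ne_zero (X.ord_one P).ge
    rwa [one_smul] at this
  · intro h P z _ hz
    exact X.smul_mem_loc (fun _ => hz) (h P)

theorem le_satD (U : Submodule ℂ V) : U ≤ X.satD 0 U := fun _ hf =>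
  X.mem_satD_zero.2 fun P => X.mem_loc P hf

theorem satD_mono {D E : X.Pt →₀ ℤ} (h : ∀ P, D P ≤ E P) {U U' : Submodule ℂ V} (hU : U ≤ U') :
    X.satD D U ≤ X.satD E U' := fun _ hf P z hz0 hz =>
  X.loc_mono P hU (hf P z hz0 ((h P).trans hz))

theorem satD_zero_bot (P₀ : X.Pt) : X.satD 0 (⊥ : Submodule ℂ V) = ⊥ := by
  rw [eq_bot_iff]
  intro f hf
  have h := X.mem_satD_zero.1 hf P₀
  have e : X.loc P₀ (⊥ : Submodule ℂ V) = ⊥ := by
    unfold loc
    rw [Submodule.span_eq_bot]
    intro x hx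
    exact hx
  rw [e] at h
  exact h

theorem smul_mem_satD {D : X.Pt →₀ ℤ} {U : Submodule ℂ V} {z : K} (hz : z ≠ 0) {f : V} :
    z • f ∈ X.satD D U ↔ f ∈ X.satD (D + X.dv z) U := by
  rw [mem_satD, mem_satD]
  constructor
  · intro h P w hw hw'
    rw [Finsupp.add_apply, X.dv_apply hz] at hw'
    have h1 := h P (w * z⁻¹) (mul_ne_zero hw (inv_ne_zero hz)) (by
      rw [X.ord_mul P _ _ hw (inv_ne_zero hz), X.ord_inv P hz]
      linarith)
    rwa [smul_smul, mul_assoc, inv_mul_cancel₀ hz, mul_one] at h1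
  · intro h P w hw hw'
    rw [smul_smul]
    apply h P (w * z) (mul_ne_zero hw hz)
    rw [Finsupp.add_apply, X.dv_apply hz, X.ord_mul P _ _ hw hz]
    linarith

theorem loc_satD (P : X.Pt) (U : Submodule ℂ V) : X.loc P (X.satD 0 U) = X.loc P U := by
  apply le_antisymm
  · apply Submodule.span_le.2
    intro f hf
    exact X.mem_satD_zero.1 hf P
  · exact X.loc_mono P (X.le_satD U)

theorem satD_satD (D : X.Pt →₀ ℤ) (U : Submodule ℂ V) :
    X.satD D (X.satD 0 U) = X.satD D U := by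
  ext f
  rw [mem_satD, mem_satD]
  simp only [X.loc_satD]

theorem mul_mem_loc {P : X.Pt} {U U' : Submodule ℂ (MvPolynomial (Fin 4) K)}
    {f f' : MvPolynomial (Fin 4) K} (hf : f ∈ X.loc P U) (hf' : f' ∈ X.loc P U') :
    f * f' ∈ X.loc P (U * U') := by
  induction hf using Submodule.span_induction with
  | mem x hx =>
    induction hf' using Submodule.span_induction with
    | mem y hy => exact X.mem_loc P (Submodule.mul_mem_mul hx hy)
    | zero =>
      rw [mul_zero]
      exact zero_mem _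
    | add y y' _ _ h1 h2 =>
      rw [mul_add]
      exact add_mem h1 h2
    | smul a y _ h =>
      have e : x * (a • y) = a • (x * y) := mul_smul_comm a x y
      rw [e]
      exact Submodule.smul_mem _ a h
  | zero =>
    rw [zero_mul]
    exact zero_mem _
  | add x x' _ _ h1 h2 =>
    rw [add_mul]
    exact add_mem h1 h2
  | smul a x _ h =>
    have e : (a • x) * f' = a • (x * f') := smul_mul_assoc a x f'
    rw [e]
    exact Submodule.smul_mem _ a h

theorem mul_mem_satD {U U' : Submodule ℂ (MvPolynomial (Fin 4) K)}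
    {f f' : MvPolynomial (Fin 4) K} (hf : f ∈ X.satD 0 U) (hf' : f' ∈ X.satD 0 U') :
    f * f' ∈ X.satD 0 (U * U') :=
  X.mem_satD_zero.2 fun P => X.mul_mem_loc (X.mem_satD_zero.1 hf P) (X.mem_satD_zero.1 hf' P)

/-- the span over the local ring of a `ℂ`-span -/
theorem loc_span (P : X.Pt) (s : Set V) : X.loc P (Submodule.span ℂ s) =
    Submodule.span (X.OO P) s := by
  apply le_antisymm
  · apply Submodule.span_le.2
    intro f hf
    induction hf using Submodule.span_induction with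
    | mem x hx => exact Submodule.subset_span hx
    | zero => exact zero_mem _
    | add x y _ _ h1 h2 => exact add_mem h1 h2
    | smul c x _ h =>
      by_cases hc : c = 0
      · rw [hc, zero_smul]
        exact zero_mem _
      have e : c • x = (⟨algebraMap ℂ K c, fun _ => (X.ord_const P c hc).ge⟩ : X.OO P) • x := by
        show c • x = algebraMap ℂ K c • x
        rw [algebraMap_smul]
      rw [e]
      exact Submodule.smul_mem _ _ h
  · exact Submodule.span_mono Submodule.subset_span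

/-- the stalks of a finite-dimensional space are finitely generated -/
theorem loc_fg (P : X.Pt) (U : Submodule ℂ V) [FiniteDimensional ℂ U] : (X.loc P U).FG := by
  obtain ⟨s, hs⟩ := (Submodule.fg_iff_finiteDimensional U).2 inferInstance
  refine ⟨s, ?_⟩
  rw [← hs, X.loc_span]

/-- Nakayama's lemma for stalks: it is enough to generate modulo functions vanishing at `P`. -/
theorem loc_le_of_nakayama (P : X.Pt) {U : Submodule ℂ V} [FiniteDimensional ℂ U]
    {N : Submodule (X.OO P) V} (h : ∀ f ∈ U, ∃ g ∈ N, ∃ h ∈ Submodule.span (X.OO P)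
      {x : V | ∃ z : K, (z ≠ 0 → 0 < X.ord P z) ∧ ∃ u ∈ X.loc P U, x = z • u}, f = g + h) :
    X.loc P U ≤ N := by
  apply Submodule.le_of_le_smul_of_le_jacobson_bot (X.loc_fg P U)
    (I := IsLocalRing.maximalIdeal (X.OO P)) (IsLocalRing.maximalIdeal_le_jacobson _)
  apply Submodule.span_le.2
  intro f hf
  obtain ⟨g, hg, k, hk, rfl⟩ := h f hf
  refine add_mem (Submodule.mem_sup_left hg) (Submodule.mem_sup_right ?_)
  clear hf
  induction hk using Submodule.span_induction with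
  | mem x hx =>
    obtain ⟨z, hz, u, hu, rfl⟩ := hx
    have h1 : (⟨z, fun h0 => (hz h0).le⟩ : X.OO P) ∈ IsLocalRing.maximalIdeal (X.OO P) := by
      rw [IsLocalRing.mem_maximalIdeal, mem_nonunits_iff]
      intro h2
      obtain ⟨⟨a, b, hab, hba⟩, h3⟩ := h2
      have h4 : (a : K) = z := by
        have := congrArg Subtype.val h3
        exact this
      have h5 : (a : K) * (b : K) = 1 := by
        have := congrArg Subtype.val hab
        exact this
      have ha0 : (a : K) ≠ 0 := left_ne_zero_of_mul_eq_one h5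
      have hb0 : (b : K) ≠ 0 := right_ne_zero_of_mul_eq_one h5
      have h6 := X.ord_mul P _ _ ha0 hb0
      rw [h5, X.ord_one] at h6
      have h7 := b.2 hb0
      rw [h4] at h6 ha0
      have h8 := hz ha0
      linarith
    exact Submodule.smul_mem_smul h1 hu
  | zero => exact zero_mem _
  | add x y _ _ h1 h2 => exact add_mem h1 h2
  | smul a x _ h => exact Submodule.smul_mem _ a h

/-- coefficients of elements of a stalk -/
theorem coeff_mem_of_loc {P : X.Pt} {U : Submodule ℂ (MvPolynomial (Fin 4) K)}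
    {f : MvPolynomial (Fin 4) K} (hf : f ∈ X.loc P U) {e : Fin 4 →₀ ℕ} {n : ℤ}
    (hU : ∀ u ∈ U, u.coeff e ≠ 0 → n ≤ X.ord P (u.coeff e)) :
    f.coeff e ≠ 0 → n ≤ X.ord P (f.coeff e) := by
  induction hf using Submodule.span_induction with
  | mem x hx => exact hU x hx
  | zero => exact fun h => (h (coeff_zero e)).elim
  | add x y _ _ h1 h2 =>
    rw [coeff_add]
    intro h
    by_cases hx : x.coeff e = 0
    · rw [hx, zero_add] at h ⊢
      exact h2 h
    by_cases hy : y.coeff e = 0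
    · rw [hy, add_zero] at h ⊢
      exact h1 h
    have h3 := X.ord_add P _ _ hx hy h
    have h4 := h1 hx
    have h5 := h2 hy
    rcases min_choice (X.ord P (x.coeff e)) (X.ord P (y.coeff e)) with h6 | h6 <;>
      rw [h6] at h3 <;> linarith
  | smul a x _ h =>
    have e1 : (a • x).coeff e = (a : K) * x.coeff e := by
      show ((a : K) • x).coeff e = _
      rw [coeff_smul, smul_eq_mul]
    rw [e1]
    intro h0
    have ha : (a : K) ≠ 0 := left_ne_zero_of_mul h0
    have hx : x.coeff e ≠ 0 := right_ne_zero_of_mul h0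
    rw [X.ord_mul P _ _ ha hx]
    have h1 := a.2 ha
    have h2 := h hx
    linarith

theorem coeff_eq_zero_of_loc {P : X.Pt} {U : Submodule ℂ (MvPolynomial (Fin 4) K)}
    {f : MvPolynomial (Fin 4) K} (hf : f ∈ X.loc P U) {e : Fin 4 →₀ ℕ}
    (hU : ∀ u ∈ U, u.coeff e = 0) : f.coeff e = 0 := by
  induction hf using Submodule.span_induction with
  | mem x hx => exact hU x hx
  | zero => exact coeff_zero e
  | add x y _ _ h1 h2 => rw [coeff_add, h1, h2, add_zero]
  | smul a x _ h =>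
    show ((a : K) • x).coeff e = _
    rw [coeff_smul, h, smul_zero]

end CurveOrd

end Pool.Agent.YTD


end

/- source: Pool.Agent.YTD.SatH -/

section

/-!
Growth of the dimensions of the `K`-spans of the levels of a test configuration of the quotient.
-/

namespace Pool.Agent.YTD

open Finset Module MvPolynomial Filter

variable {K : Type} [Field K] [Algebra ℂ K]
variable {T : Datum K} {q : ℕ} {D₀ : T.X.Pt →₀ ℤ} {r : ℕ}

namespace QFilt

variable {γ : Gam T} (χ : QFilt γ q D₀ r)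

/-- The `K`-span of a level. -/
noncomputable def KB (N : ℕ) (l : ℤ) : Submodule K (MvPolynomial (Fin 4) K) :=
  Submodule.span K (χ.F N l : Set (MvPolynomial (Fin 4) K))

theorem KB_mul (N N' : ℕ) (l l' : ℤ) (x : MvPolynomial (Fin 4) K) (hx : x ∈ χ.KB N l)
    (y : MvPolynomial (Fin 4) K) (hy : y ∈ χ.KB N' l') : x * y ∈ χ.KB (N + N') (l + l') := by
  have h : χ.KB N l * χ.KB N' l' ≤ χ.KB (N + N') (l + l') := by
    unfold KB
    rw [Submodule.span_mul_span]
    apply Submodule.span_mono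
    rintro _ ⟨a, ha, b, hb, rfl⟩
    exact χ.mul _ _ _ _ a ha b hb
  exact h (Submodule.mul_mem_mul hx hy)

theorem KB_anti {N : ℕ} {l l' : ℤ} (h : l ≤ l') : χ.KB N l' ≤ χ.KB N l :=
  Submodule.span_mono (χ.anti N l l' h)

theorem F_zero_le {l : ℤ} {f : MvPolynomial (Fin 4) K} (hf : f ∈ χ.F 0 l) :
    ∃ c : K, f = c • (1 : MvPolynomial (Fin 4) K) := by
  have h := (χ.le 0 l hf).1
  refine ⟨f.coeff 0, ?_⟩
  rw [MvPolynomial.smul_eq_C_mul, mul_one]
  ext e
  rw [coeff_C]
  split_ifs with he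
  · rw [he]
  · by_contra h1
    obtain ⟨j, h2, h3, h4, _⟩ := h e h1
    have h5 : j = 0 := by
      rw [mul_zero, Nat.cast_zero, mul_zero] at h2
      exact abs_eq_zero.1 (le_antisymm h2 (abs_nonneg _))
    rw [h5, mul_zero, Nat.cast_zero, mul_zero] at h3 h4
    apply he
    ext i
    rw [Finsupp.zero_apply]
    fin_cases i
    · show 0 = e 0
      omega
    · show 0 = e 1
      omega
    · show 0 = e 2
      omega
    · show 0 = e 3
      omega

section

variable {Λ : ℕ} (hΛ : ∀ N : ℕ, χ.F N (-(Λ * N)) = γ.secQ q D₀ (r * N) ∧ χ.F N (Λ * N + 1) = ⊥)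
include hΛ

theorem F_eq_bot {N : ℕ} {l : ℤ} (h : ((Λ * N : ℕ) : ℤ) < l) : χ.F N l = ⊥ := by
  rw [eq_bot_iff, ← (hΛ N).2]
  apply χ.anti
  push_cast at h
  linarith

theorem F_le (N : ℕ) (l : ℤ) : χ.F N l ≤ χ.F N (-((Λ * N : ℕ) : ℤ)) := by
  have h := (hΛ N).1
  push_cast
  rw [h]
  exact χ.le N l

theorem KB_eq_bot {N : ℕ} {l : ℤ} (h : ((Λ * N : ℕ) : ℤ) < l) : χ.KB N l = ⊥ := by
  unfold KB
  rw [χ.F_eq_bot hΛ h]
  simp

theorem one_mem : (1 : MvPolynomial (Fin 4) K) ∈ χ.F 0 0 := by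
  classical
  have h := (hΛ 0).1
  have e : (-(Λ * ((0 : ℕ) : ℤ)) : ℤ) = 0 := by simp
  rw [e] at h
  rw [h]
  refine ⟨?_, map_one _, map_one _, map_one _⟩
  intro e he
  have h1 : e = 0 := by
    by_contra h1
    apply he
    rw [← C_1, coeff_C, if_neg (Ne.symm h1)]
  subst h1
  refine ⟨0, by simp, by simp, by simp, ?_⟩
  rw [← C_1, coeff_C, if_pos rfl]
  intro _ P
  rw [CurveOrd.ord_one]
  have : T.dvs q D₀ (r * 0) 0 = 0 := by
    unfold Datum.dvs
    simp
  rw [this]
  simp

end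

/-- the exponents of the monomials of `sec M` -/
theorem KB_le (N : ℕ) (l : ℤ) : χ.KB N l ≤ Submodule.span K
    ((fun i => monomial (uexpo q (r * N) i) (1 : K)) '' (idx q (r * N) : Set _)) := by
  unfold KB
  rw [Submodule.span_le]
  intro f hf
  have h := (χ.le N l hf).1
  rw [SetLike.mem_coe, f.as_sum]
  refine sum_mem fun e he => ?_
  rw [MvPolynomial.mem_support_iff] at he
  obtain ⟨j, h1, h2, h3, _⟩ := h e he
  obtain ⟨h4, h5⟩ := exists_uexpo h1 h2 h3
  have e1 : monomial e (f.coeff e) = f.coeff e • monomial e (1 : K) := by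
    rw [smul_monomial, smul_eq_mul, mul_one]
  rw [e1]
  apply Submodule.smul_mem
  apply Submodule.subset_span
  refine ⟨⟨j, (e 0, e 2)⟩, h4, ?_⟩
  show monomial (uexpo q (r * N) ⟨j, (e 0, e 2)⟩) (1 : K) = _
  rw [h5]

theorem card_idx_le (q M : ℕ) : (idx q M).card ≤ (10 * q * M + 1) * (40 * q * M + 1) ^ 2 := by
  unfold idx
  rw [card_sigma]
  calc ∑ j ∈ Icc (-((5 * q * M : ℕ) : ℤ)) ((5 * q * M : ℕ) : ℤ),
        (range (AA q M j + 1) ×ˢ range (BB q M j + 1)).card
      ≤ ∑ j ∈ Icc (-((5 * q * M : ℕ) : ℤ)) ((5 * q * M : ℕ) : ℤ), (40 * q * M + 1) ^ 2 := by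
        refine sum_le_sum fun j hj => ?_
        rw [mem_Icc] at hj
        rw [card_product, card_range, card_range, sq]
        have h1 : AA q M j ≤ 40 * q * M := by
          unfold AA
          rw [Int.toNat_le]
          push_cast at hj ⊢
          linarith
        have h2 : BB q M j ≤ 40 * q * M := by
          unfold BB
          rw [Int.toNat_le]
          push_cast at hj ⊢
          linarith
        exact Nat.mul_le_mul (by omega) (by omega)
    _ = _ := by
        rw [sum_const, smul_eq_mul, Int.card_Icc]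
        congr 1
        have : 10 * q * M = 2 * (5 * q * M) := by ring
        rw [this]
        omega

theorem finrank_KB_le (N : ℕ) (l : ℤ) : finrank K (χ.KB N l) ≤
    ((10 * q * r + 1) * (40 * q * r + 1) ^ 2) * (N + 1) ^ 3 := by
  classical
  have hfin : ((fun i => monomial (uexpo q (r * N) i) (1 : K)) ''
      (idx q (r * N) : Set _)).Finite := (idx q (r * N)).finite_toSet.image _
  have : FiniteDimensional K (Submodule.span K
    ((fun i => monomial (uexpo q (r * N) i) (1 : K)) '' (idx q (r * N) : Set _))) :=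
    FiniteDimensional.span_of_finite K hfin
  calc finrank K (χ.KB N l) ≤ finrank K (Submodule.span K
        ((fun i => monomial (uexpo q (r * N) i) (1 : K)) '' (idx q (r * N) : Set _))) :=
        Submodule.finrank_mono (χ.KB_le N l)
    _ ≤ (idx q (r * N)).card := by
        rw [← coe_image]
        exact (finrank_span_finset_le_card _).trans card_image_le
    _ ≤ (10 * q * (r * N) + 1) * (40 * q * (r * N) + 1) ^ 2 := card_idx_le q (r * N)
    _ ≤ ((10 * q * r + 1) * (N + 1)) * ((40 * q * r + 1) * (N + 1)) ^ 2 := by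
        apply Nat.mul_le_mul
        · nlinarith
        · apply Nat.pow_le_pow_left
          nlinarith
    _ = _ := by ring

end QFilt

end Pool.Agent.YTD


end

/- source: Pool.Agent.YTD.SatH2 -/

section

/-!
Growth of the dimensions of the `K`-spans of the levels of a test configuration of the quotient.
-/

namespace Pool.Agent.YTD

open Finset Module MvPolynomial Filter

section

set_option linter.unusedSectionVars false

variable {K R : Type} [Field K] [CommRing R] [IsDomain R] [Algebra K R]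
variable {k : ℕ} (n : Fin k → ℕ) (v : Fin k → ℤ) (g : Fin k → R)

theorem dgm_single (a : Fin k) : dgm n (Pi.single a 1) = n a := by
  unfold dgm
  rw [sum_eq_single a]
  · rw [Pi.single_eq_same, one_mul]
  · intro j _ hj
    rw [Pi.single_eq_of_ne hj, zero_mul]
  · intro h
    exact (h (mem_univ _)).elim

theorem wtm_single (a : Fin k) : wtm v (Pi.single a 1) = v a := by
  unfold wtm
  rw [sum_eq_single a]
  · rw [Pi.single_eq_same, Nat.cast_one, one_mul]
  · intro j _ hj
    rw [Pi.single_eq_of_ne hj, Nat.cast_zero, zero_mul]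
  · intro h
    exact (h (mem_univ _)).elim

theorem mon_single (a : Fin k) : mon g (Pi.single a 1) = g a := by
  unfold mon
  rw [prod_eq_single a]
  · rw [Pi.single_eq_same, pow_one]
  · intro j _ hj
    rw [Pi.single_eq_of_ne hj, pow_zero]
  · intro h
    exact (h (mem_univ _)).elim

theorem dgm_zero : dgm n 0 = 0 := by
  unfold dgm
  simp

theorem wtm_zero : wtm v 0 = 0 := by
  unfold wtm
  simp

theorem mon_zero : mon g 0 = 1 := by
  unfold mon
  simp

variable {n v g}

theorem one_mem_span_mon : (1 : R) ∈ Submodule.span K (mon g '' {m | dgm n m = 0 ∧ wtm v m = 0}) :=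
  Submodule.subset_span ⟨0, ⟨dgm_zero n, wtm_zero v⟩, mon_zero g⟩

theorem mul_mem_span_mon {N : ℕ} {l : ℤ} (a : Fin k) {x : R}
    (hx : x ∈ Submodule.span K (mon g '' {m | dgm n m = N ∧ wtm v m = l})) :
    x * g a ∈ Submodule.span K (mon g '' {m | dgm n m = N + n a ∧ wtm v m = l + v a}) := by
  have h1 : LinearMap.mulLeft K (g a) x ∈ (Submodule.span K (mon g '' {m |
      dgm n m = N ∧ wtm v m = l})).map (LinearMap.mulLeft K (g a)) := ⟨x, hx, rfl⟩
  rw [Submodule.map_span] at h1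
  rw [mul_comm]
  refine Submodule.span_mono ?_ h1
  rintro _ ⟨_, ⟨m, ⟨h2, h3⟩, rfl⟩, rfl⟩
  refine ⟨m + Pi.single a 1, ⟨?_, ?_⟩, ?_⟩
  · rw [dgm_add, dgm_single, h2]
  · rw [wtm_add, wtm_single, h3]
  · rw [mon_add, mon_single, LinearMap.mulLeft_apply, mul_comm]

end

variable {K : Type} [Field K] [Algebra ℂ K]
variable {T : Datum K} {q : ℕ} {D₀ : T.X.Pt →₀ ℤ} {r : ℕ}

theorem QTestConf.exists_bigr {γ : Gam T} (χ : QTestConf γ q D₀ r) {Λ : ℕ}
    (hΛ : ∀ N : ℕ, χ.F N (-(Λ * N)) = γ.secQ q D₀ (r * N) ∧ χ.F N (Λ * N + 1) = ⊥)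
    {e : MvPolynomial (Fin 4) K} (he : e ∈ χ.F 1 (-(Λ : ℤ))) (he0 : e ≠ 0) :
    ∃ (k' : ℕ) (n' : Fin k' → ℕ) (v' : Fin k' → ℤ) (g' : Fin k' → MvPolynomial (Fin 4) K),
      BigrData n' v' g' χ.KB Λ e := by
  classical
  obtain ⟨k, n, w, f, hf, hspan⟩ := χ.fg
  let w' : Fin k → ℤ := fun i => max (w i) (-((Λ * n i : ℕ) : ℤ))
  have hw' : ∀ i, f i ∈ χ.F (n i) (w' i) := by
    intro i
    rcases max_choice (w i) (-((Λ * n i : ℕ) : ℤ)) with h | h
    · show f i ∈ χ.F (n i) (max (w i) (-((Λ * n i : ℕ) : ℤ)))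
      rw [h]
      exact hf i
    · show f i ∈ χ.F (n i) (max (w i) (-((Λ * n i : ℕ) : ℤ)))
      rw [h]
      exact χ.F_le hΛ _ _ (hf i)
  let I : Type := (i : {i : Fin k // 1 ≤ n i}) ×
    {v : ℤ // v ∈ Icc (-((Λ * n i.1 : ℕ) : ℤ)) (w' i.1)}
  let φ : Fin (Fintype.card I) ≃ I := (Fintype.equivFin I).symm
  let n' : Fin (Fintype.card I) → ℕ := fun a => n (φ a).1.1
  let v' : Fin (Fintype.card I) → ℤ := fun a => (φ a).2.1
  let g' : Fin (Fintype.card I) → MvPolynomial (Fin 4) K := fun a => f (φ a).1.1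
  have hmem : ∀ a, g' a ∈ χ.F (n' a) (v' a) := by
    intro a
    exact χ.anti _ _ _ (mem_Icc.1 (φ a).2.2).2 (hw' _)
  -- monomials in the new generators
  have hmon : ∀ (s : ℕ) (m : Fin (Fintype.card I) → ℕ), ∑ a, m a = s →
      mon g' m ∈ χ.F (dgm n' m) (wtm v' m) := by
    intro s
    induction s with
    | zero =>
      intro m hm
      have h0 : m = 0 := by
        funext a
        exact (sum_eq_zero_iff.1 hm) a (mem_univ _)
      rw [h0, mon_zero, dgm_zero, wtm_zero]
      exact χ.one_mem hΛ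
    | succ s ih =>
      intro m hm
      obtain ⟨a, ha⟩ : ∃ a, m a ≠ 0 := by
        by_contra hcon
        push Not at hcon
        rw [sum_congr rfl fun a _ => hcon a, sum_const_zero] at hm
        omega
      obtain ⟨m₁, rfl⟩ : ∃ m₁ : Fin (Fintype.card I) → ℕ, m = m₁ + Pi.single a 1 :=
        ⟨m - Pi.single a 1, by
          funext b
          rw [Pi.add_apply, Pi.sub_apply]
          by_cases hb : b = a
          · subst hb
            rw [Pi.single_eq_same]
            omega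
          · rw [Pi.single_eq_of_ne hb]
            omega⟩
      rw [mon_add, dgm_add, wtm_add, mon_single, dgm_single, wtm_single]
      refine χ.mul _ _ _ _ _ (ih m₁ ?_) _ (hmem a)
      simp only [Pi.add_apply] at hm
      rw [sum_add_distrib, sum_pi_single' a 1 univ, if_pos (mem_univ _)] at hm
      omega
  -- the converse
  have hconv : ∀ (s : ℕ) (m : Fin k → ℕ), ∑ i, m i = s → ∀ l : ℤ,
      -((Λ * dgm n m : ℕ) : ℤ) ≤ l → l ≤ wtm w' m → mon f m ∈ Submodule.span K
        (mon g' '' {m' | dgm n' m' = dgm n m ∧ wtm v' m' = l}) := by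
    intro s
    induction s with
    | zero =>
      intro m hm l hl1 hl2
      have h0 : m = 0 := by
        funext a
        exact (sum_eq_zero_iff.1 hm) a (mem_univ _)
      rw [h0, dgm_zero] at hl1
      rw [h0, wtm_zero] at hl2
      have h1 : l = 0 := by
        rw [mul_zero, Nat.cast_zero, neg_zero] at hl1
        exact le_antisymm hl2 hl1
      rw [h0, mon_zero, dgm_zero, h1]
      exact one_mem_span_mon
    | succ s ih =>
      intro m hm l hl1 hl2
      obtain ⟨i, hi⟩ : ∃ i, m i ≠ 0 := by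
        by_contra hcon
        push Not at hcon
        rw [sum_congr rfl fun a _ => hcon a, sum_const_zero] at hm
        omega
      obtain ⟨m₁, rfl⟩ : ∃ m₁ : Fin k → ℕ, m = m₁ + Pi.single i 1 :=
        ⟨m - Pi.single i 1, by
          funext b
          rw [Pi.add_apply, Pi.sub_apply]
          by_cases hb : b = i
          · subst hb
            rw [Pi.single_eq_same]
            omega
          · rw [Pi.single_eq_of_ne hb]
            omega⟩
      have hm₁ : ∑ i, m₁ i = s := by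
        simp only [Pi.add_apply] at hm
        rw [sum_add_distrib, sum_pi_single' i 1 univ, if_pos (mem_univ _)] at hm
        omega
      rw [dgm_add, dgm_single] at hl1 ⊢
      rw [wtm_add, wtm_single] at hl2
      rw [mon_add, mon_single]
      have hwge : -((Λ * dgm n m₁ : ℕ) : ℤ) ≤ wtm w' m₁ :=
        wtm_ge (fun i => le_max_right _ _) m₁
      rcases Nat.eq_zero_or_pos (n i) with hni | hni
      · have hwi : w' i = max (w i) 0 := by
          show max (w i) (-((Λ * n i : ℕ) : ℤ)) = _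
          rw [hni, mul_zero, Nat.cast_zero, neg_zero]
        have hfi := hw' i
        rw [hni] at hfi
        rw [hni, add_zero] at hl1 ⊢
        rcases lt_or_ge 0 (w i) with hwpos | hwneg
        · rw [χ.F_eq_bot hΛ (by
            rw [mul_zero, Nat.cast_zero, hwi]
            exact lt_max_of_lt_left hwpos), Submodule.mem_bot] at hfi
          rw [hfi, mul_zero]
          exact zero_mem _
        · obtain ⟨c, hc⟩ := χ.F_zero_le hfi
          rw [hwi, max_eq_right hwneg, add_zero] at hl2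
          rw [hc, mul_smul_comm, mul_one]
          exact Submodule.smul_mem _ _ (ih m₁ hm₁ l hl1 hl2)
      · set u : ℤ := max (-((Λ * n i : ℕ) : ℤ)) (l - wtm w' m₁) with hu
        have hu1 : -((Λ * n i : ℕ) : ℤ) ≤ u := le_max_left _ _
        have hu2 : l - wtm w' m₁ ≤ u := le_max_right _ _
        have hu3 : u ≤ w' i := max_le (le_max_right _ _) (by linarith)
        let x : I := ⟨⟨i, hni⟩, ⟨u, mem_Icc.2 ⟨hu1, hu3⟩⟩⟩
        have hx : φ (φ.symm x) = x := φ.apply_symm_apply x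
        have e1 : n' (φ.symm x) = n i := by
          show n (φ (φ.symm x)).1.1 = n i
          rw [hx]
        have e2 : v' (φ.symm x) = u := by
          show (φ (φ.symm x)).2.1 = u
          rw [hx]
        have e3 : g' (φ.symm x) = f i := by
          show f (φ (φ.symm x)).1.1 = f i
          rw [hx]
        have h1 : -((Λ * dgm n m₁ : ℕ) : ℤ) ≤ l - u := by
          rcases max_choice (-((Λ * n i : ℕ) : ℤ)) (l - wtm w' m₁) with h | h
          · rw [hu, h]
            push_cast at hl1 ⊢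
            linarith
          · rw [hu, h]
            linarith
        have h2 := ih m₁ hm₁ (l - u) h1 (by linarith)
        have h3 := mul_mem_span_mon (n := n') (v := v') (g := g') (φ.symm x) h2
        rw [e1, e2, e3, sub_add_cancel] at h3
        exact h3
  refine ⟨Fintype.card I, n', v', g', ?_⟩
  refine
    { hn := fun a => (φ a).1.2
      hv := fun a => (mem_Icc.1 (φ a).2.2).1
      hgen := ?_
      hmul := χ.KB_mul
      htop := fun N l h => χ.KB_eq_bot hΛ h
      he := Submodule.subset_span he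
      he0 := he0 }
  intro N l hl
  apply le_antisymm
  · unfold QFilt.KB
    rw [Submodule.span_le]
    intro x hx
    have h1 := hspan N l hx
    have h2 : Submodule.span ℂ {g | ∃ m : Fin k → ℕ,
        ∑ i, m i * n i = N ∧ l ≤ ∑ i, m i * w i ∧ g = ∏ i, f i ^ m i} ≤
        (Submodule.span K (mon g' '' {m | dgm n' m = N ∧ wtm v' m = l})).restrictScalars ℂ := by
      rw [Submodule.span_le]
      rintro _ ⟨m, h3, h4, rfl⟩
      have h5 : wtm w m ≤ wtm w' m := by
        unfold wtm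
        exact sum_le_sum fun i _ => mul_le_mul_of_nonneg_left (le_max_left _ _)
          (Nat.cast_nonneg _)
      have h6 : dgm n m = N := h3
      have h7 := hconv _ m rfl l (by rw [h6]; exact hl) (le_trans h4 h5)
      rw [h6] at h7
      exact h7
    exact h2 h1
  · rw [Submodule.span_le]
    rintro _ ⟨m, ⟨h1, h2⟩, rfl⟩
    have h3 := hmon _ m rfl
    rw [h1, h2] at h3
    exact Submodule.subset_span h3

/-- (H), given a section of degree one. -/
theorem QTestConf.hilb_of {γ : Gam T} (χ : QTestConf γ q D₀ r) {Λ : ℕ}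
    (hΛ : ∀ N : ℕ, χ.F N (-(Λ * N)) = γ.secQ q D₀ (r * N) ∧ χ.F N (Λ * N + 1) = ⊥)
    {e : MvPolynomial (Fin 4) K} (he : e ∈ γ.secQ q D₀ r) (he0 : e ≠ 0) :
    ∃ C : ℝ, ∀ N : ℕ, 1 ≤ N →
      ∑ l ∈ Ioc (-((Λ * N : ℕ) : ℤ)) ((Λ * N : ℕ) : ℤ), (CurveOrd.kdim K (χ.F N l) : ℝ) ≤
      ∑ l ∈ Ioc (-((Λ * (N - 1) : ℕ) : ℤ)) ((Λ * (N - 1) : ℕ) : ℤ),
        (CurveOrd.kdim K (χ.F (N - 1) l) : ℝ) + C * (N : ℝ) ^ 3 := by
  have he' : e ∈ χ.F 1 (-(Λ : ℤ)) := by
    have h := (hΛ 1).1
    rw [Nat.cast_one, mul_one, mul_one] at h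
    rw [h]
    exact he
  obtain ⟨k', n', v', g', H⟩ := χ.exists_bigr hΛ he' he0
  obtain ⟨C', hC'⟩ := H.hilb (C := (10 * q * r + 1) * (40 * q * r + 1) ^ 2)
    (fun N l => χ.finrank_KB_le N l)
  refine ⟨C' * 8, fun N hN => ?_⟩
  obtain ⟨N, rfl⟩ : ∃ M, N = M + 1 := ⟨N - 1, by omega⟩
  have h := hC' N
  have h' : ((∑ l ∈ Ioc (-((Λ * (N + 1) : ℕ) : ℤ)) ((Λ * (N + 1) : ℕ) : ℤ),
      finrank K (χ.KB (N + 1) l) : ℕ) : ℝ) ≤
      ((∑ l ∈ Ioc (-((Λ * N : ℕ) : ℤ)) ((Λ * N : ℕ) : ℤ), finrank K (χ.KB N l) +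
        C' * (N + 2) ^ 3 : ℕ) : ℝ) := by
    exact_mod_cast h
  rw [Nat.add_sub_cancel]
  push_cast at h' ⊢
  refine le_trans h' ?_
  have h2 : ((N : ℝ) + 2) ^ 3 ≤ 8 * ((N : ℝ) + 1) ^ 3 := by
    have h0 : (0 : ℝ) ≤ N := Nat.cast_nonneg N
    calc ((N : ℝ) + 2) ^ 3 ≤ (2 * ((N : ℝ) + 1)) ^ 3 :=
          pow_le_pow_left₀ (by positivity) (by linarith) 3
      _ = _ := by ring
  have h3 : (C' : ℝ) * ((N : ℝ) + 2) ^ 3 ≤ C' * 8 * ((N : ℝ) + 1) ^ 3 := by
    rw [mul_assoc]
    exact mul_le_mul_of_nonneg_left h2 (Nat.cast_nonneg _)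
  have h4 : ∀ N l, CurveOrd.kdim K (χ.F N l) = finrank K (χ.KB N l) := fun _ _ => rfl
  simp only [h4]
  linarith

end Pool.Agent.YTD


end

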