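import Pool.Agent.YTDM.P12
import Pool.Agent.YTDM.P23
import Pool.Agent.YTDM.P24

/- source: Pool.Agent.YTD.Fin1 -/

section

/-!
Upper bound of the lengths by an affine function, from the shape of the envelope.
-/

namespace Pool.Agent.YTD

open Finset Module Filter

theorem int3_add {Q k : ℕ} {j a b j' a' b' : ℤ} (h : P3 Q k j a b) (h' : Int3 Q k j' a' b') :
    Int3 Q (k + 1) (j + j') (a + a') (b + b') := by
  obtain ⟨h1, h2, h3, h4, h5⟩ := h
  obtain ⟨h1', h2', h3', h4', h5'⟩ := h'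
  have e1 : 5 * (Q : ℤ) * 2 ^ (k + 1) = 5 * Q * 2 ^ k + 5 * Q * 2 ^ k := by rw [pow_succ]; ring
  have e2 : 25 * (Q : ℤ) * 2 ^ (k + 1) = 25 * Q * 2 ^ k + 25 * Q * 2 ^ k := by rw [pow_succ]; ring
  refine ⟨?_, by linarith, by rw [e2]; linarith, by linarith, by rw [e2]; linarith⟩
  rw [e1]
  exact (abs_add_le _ _).trans_lt (add_lt_add_of_le_of_lt h1 h1')

theorem Fam3.m_le_lin {Q : ℕ} (hQ : 0 < Q) (F : Fam3 Q) {al be ga δ : ℝ}
    (H : ∀ k j a b, Int3 Q k j a b → F.m k j a b = al * a + be * b + ga * j + δ * 2 ^ k)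
    {k : ℕ} {j a b : ℤ} (h : P3 Q k j a b) :
    F.m k j a b ≤ al * a + be * b + ga * j + δ * 2 ^ k := by
  have hp : (1 : ℤ) ≤ Q * 2 ^ k := by
    have p1 : (1 : ℤ) ≤ Q := by exact_mod_cast hQ
    have p2 : (1 : ℤ) ≤ 2 ^ k := by exact_mod_cast Nat.one_le_two_pow
    nlinarith
  have h0 : Int3 Q k 0 (5 * Q * 2 ^ k) (5 * Q * 2 ^ k) :=
    int3_small hQ (by rw [abs_zero]; linarith) (by linarith) (by linarith) (by linarith)
      (by linarith)
  have h1 := F.m_add h h0.toP3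
  rw [H _ _ _ _ h0, H _ _ _ _ (int3_add h h0)] at h1
  rw [pow_succ] at h1
  push_cast at h1
  linarith

variable {K : Type} [Field K] [Algebra ℂ K]
variable {T : Datum K} {q : ℕ} {D₀ : T.X.Pt →₀ ℤ}

namespace Graded

variable {G : Graded T q D₀}
variable (hD : T.X.deg D₀ = 105 * T.t * q)

include hD in
theorem nn_smul (hq : 0 < q) {N : ℕ} (hN : 4 ≤ N) {j : ℤ} {a b : ℕ} (h : InR q N j a b) {c : ℕ}
    (hc : 1 ≤ c) : c * G.nn N j a b ≤ G.nn (c * N) (c * j) (c * a) (c * b) := by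
  induction c, hc using Nat.le_induction with
  | base => simp
  | succ c hc ih =>
    have h1 := nn_add (G := G) hD hq (N := c * N) (N' := N) (by nlinarith) hN (h.smul c) h
    have e1 : (c + 1) * N = c * N + N := by ring
    have e2 : ((c + 1 : ℕ) : ℤ) * j = c * j + j := by push_cast; ring
    have e3 : (c + 1) * a = c * a + a := by ring
    have e4 : (c + 1) * b = c * b + b := by ring
    have e5 : (c + 1) * G.nn N j a b = c * G.nn N j a b + G.nn N j a b := by ring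
    rw [e1, e2, e3, e4, e5]
    exact (Nat.add_le_add_right ih _).trans h1

theorem nn_le_lin (hq : 0 < q) {al be ga δ : ℝ}
    (H : ∀ k j a b, Int3 (4 * q) k j a b →
      (G.fam3 hD hq).m k j a b = al * a + be * b + ga * j + δ * 2 ^ k)
    {N : ℕ} (hN : 4 ≤ N) {j : ℤ} {a b : ℕ} (h : InR q N j a b) :
    (G.nn N j a b : ℝ) ≤ al * a + be * b + ga * j + δ / 4 * N := by
  set y : ℝ := (G.nn N j a b : ℝ) - (al * a + be * b + ga * j + δ / 4 * N) with hy
  have hb : ∀ R : ℕ, ∃ c : ℕ, R < c ∧ (c : ℝ) * y ≤ |δ| / 4 * (N + 4) := by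
    intro R
    obtain ⟨k, hk⟩ : ∃ k : ℕ, (R + 1) * N + 4 ≤ 2 ^ (k + 2) := by
      refine ⟨(R + 1) * N + 4, ?_⟩
      have := Nat.lt_two_pow_self (n := (R + 1) * N + 4 + 2)
      omega
    obtain ⟨c, M, hcM, hM4, hMN, hRc⟩ : ∃ c M : ℕ, 2 ^ (k + 2) = c * N + M ∧ 4 ≤ M ∧ M ≤ N + 4 ∧
        R < c := by
      have hNpos : 0 < N := by omega
      have h4 : 4 ≤ 2 ^ (k + 2) := by omega
      refine ⟨(2 ^ (k + 2) - 4) / N, (2 ^ (k + 2) - 4) % N + 4, ?_, by omega, ?_, ?_⟩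
      · have := Nat.div_add_mod' (2 ^ (k + 2) - 4) N
        omega
      · have := Nat.mod_lt (2 ^ (k + 2) - 4) hNpos
        omega
      · have : (R + 1) * N ≤ 2 ^ (k + 2) - 4 := by omega
        exact (Nat.le_div_iff_mul_le hNpos).2 this
    refine ⟨c, hRc, ?_⟩
    have h1 := nn_smul (G := G) hD hq hN h (c := c) (by omega)
    have hz : InR q M 0 0 0 := by
      refine ⟨?_, ?_, ?_⟩
      · rw [abs_zero]
        positivity
      · push_cast
        positivity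
      · push_cast
        rw [sub_zero]
        positivity
    have h2 := nn_add (G := G) hD hq (N := c * N) (N' := M) (by nlinarith) hM4 (h.smul c) hz
    rw [← hcM, add_zero, add_zero, add_zero] at h2
    have h3 : c * G.nn N j a b ≤ G.nn (2 ^ (k + 2)) (c * j) (c * a) (c * b) := by omega
    have hin : InR q (2 ^ (k + 2)) (c * j) (c * a) (c * b) := by
      have := (h.smul c).add hz
      rw [← hcM, add_zero, add_zero, add_zero] at this
      exact this
    have hP := P3_of_InR hin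
    have h4 := (G.fam3 hD hq).ν_le_m hP
    have h5 := (G.fam3 hD hq).m_le_lin (by positivity) H hP
    have h6 : (G.fam3 hD hq).ν k (c * j) ((c * a : ℕ) : ℤ) ((c * b : ℕ) : ℤ) =
        (G.nn (2 ^ (k + 2)) (c * j) (c * a) (c * b) : ℝ) := by
      show (G.nn (2 ^ (k + 2)) (c * j) (((c * a : ℕ) : ℤ).toNat) (((c * b : ℕ) : ℤ).toNat) : ℝ) = _
      rw [Int.toNat_natCast, Int.toNat_natCast]
    rw [h6] at h4
    have h7 : ((c * G.nn N j a b : ℕ) : ℝ) ≤ (G.nn (2 ^ (k + 2)) (c * j) (c * a) (c * b) : ℝ) := by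
      exact_mod_cast h3
    have h8 : (2 : ℝ) ^ k = ((c : ℝ) * N + M) / 4 := by
      have : ((2 ^ (k + 2) : ℕ) : ℝ) = c * N + M := by
        rw [hcM]
        push_cast
        ring
      rw [← this]
      push_cast
      rw [pow_add]
      ring
    rw [h8] at h5
    have h45 := h4.trans h5
    push_cast at h45 h7
    have h9 : δ / 4 * M ≤ |δ| / 4 * (N + 4) := by
      have m1 : (M : ℝ) ≤ N + 4 := by exact_mod_cast hMN
      have m2 : (0 : ℝ) ≤ M := by positivity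
      have m3 : δ ≤ |δ| := le_abs_self δ
      have m4 : 0 ≤ |δ| := abs_nonneg δ
      nlinarith
    rw [hy]
    linarith
  by_contra hcon
  push Not at hcon
  have hy0 : 0 < y := by linarith
  obtain ⟨R, hR⟩ := exists_nat_gt (|δ| / 4 * ((N : ℝ) + 4) / y)
  obtain ⟨c, hc, hc'⟩ := hb R
  rw [div_lt_iff₀ hy0] at hR
  have : (R : ℝ) < c := by exact_mod_cast hc
  nlinarith

end Graded

end Pool.Agent.YTD


end

/- source: Pool.Agent.YTD.Fin2 -/

section

/-!
The total dimension and the slope of the affine function.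
-/

namespace Pool.Agent.YTD

open Finset Module Filter

theorem sum_odd_zero {M : ℕ} {f : ℤ → ℝ} (h : ∀ j ∈ Icc (-(M : ℤ)) M, f (-j) = - f j) :
    ∑ j ∈ Icc (-(M : ℤ)) M, f j = 0 := by
  have h1 : ∑ j ∈ Icc (-(M : ℤ)) M, f (-j) = ∑ j ∈ Icc (-(M : ℤ)) M, f j := by
    refine sum_nbij' (fun j => -j) (fun j => -j) ?_ ?_ ?_ ?_ ?_
    · intro j hj
      rw [mem_Icc] at hj ⊢
      constructor <;> linarith [hj.1, hj.2]
    · intro j hj
      rw [mem_Icc] at hj ⊢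
      constructor <;> linarith [hj.1, hj.2]
    · intro j _
      simp
    · intro j _
      simp
    · intro j _
      rfl
  rw [sum_congr rfl h, sum_neg_distrib] at h1
  linarith

theorem dg_neg_fin (t q N : ℕ) (j : ℤ) : dg t q N (-j) = dg t q N j := by
  unfold dg
  rw [neg_neg, add_comm (max 0 (-j - 4 * (q : ℤ) * N))]

theorem mult_neg (q N : ℕ) (j : ℤ) : mult q N (-j) = mult q N j := by
  unfold mult
  push_cast
  ring

theorem le_zero_of_pow {y C : ℝ} (h : ∀ n : ℕ, ∃ N : ℕ, n ≤ N ∧ 0 < N ∧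
    y * (N : ℝ) ^ 5 ≤ C * (N : ℝ) ^ 4) : y ≤ 0 := by
  by_contra hcon
  push Not at hcon
  obtain ⟨n, hn⟩ := exists_nat_gt (C / y)
  obtain ⟨N, hnN, hN0, hN⟩ := h n
  have p : (0 : ℝ) < (N : ℝ) ^ 4 := by
    have : (0 : ℝ) < N := by exact_mod_cast hN0
    positivity
  have h1 : (y * N) * (N : ℝ) ^ 4 ≤ C * (N : ℝ) ^ 4 := by
    refine le_trans (le_of_eq ?_) hN
    ring
  have h2 := le_of_mul_le_mul_right h1 p
  rw [div_lt_iff₀ hcon] at hn
  have h3 : (n : ℝ) ≤ N := by exact_mod_cast hnN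
  nlinarith

variable {K : Type} [Field K] [Algebra ℂ K]
variable {T : Datum K} {q : ℕ} {D₀ : T.X.Pt →₀ ℤ}

theorem finV (hD : T.X.deg D₀ = 105 * T.t * q) (hq : 0 < q) {N : ℕ} (hN : 4 ≤ N) {j : ℤ}
    (hj : |j| ≤ 5 * q * N) :
    (finrank ℂ (T.V q D₀ N j) : ℝ) = (dg T.t q N j : ℝ) - 9 * T.t := by
  have h1 := Graded.deg_ge hD hq hN hj
  have h2 := T.X.riemann_roch (T.dvs q D₀ N j) (by linarith)
  rw [deg_dvs_crit T q D₀ hD, T.genus_eq] at h2
  have h3 : (finrank ℂ (T.V q D₀ N j) : ℤ) = dg T.t q N j - 9 * T.t := by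
    unfold Datum.V
    rw [h2]
    push_cast
    ring
  exact_mod_cast h3

/-- the dimension of `sec N`. -/
noncomputable def dN (T : Datum K) (q : ℕ) (D₀ : T.X.Pt →₀ ℤ) (N : ℕ) : ℝ :=
  ∑ j ∈ Icc (-((5 * q * N : ℕ) : ℤ)) ((5 * q * N : ℕ) : ℤ),
    mult q N j * (finrank ℂ (T.V q D₀ N j) : ℝ)

theorem dN_eq (hD : T.X.deg D₀ = 105 * T.t * q) (hq : 0 < q) {N : ℕ} (hN : 4 ≤ N) :
    dN T q D₀ N = 534650 * T.t * (q : ℝ) ^ 4 * N ^ 4 - 5625 * T.t * (q : ℝ) ^ 2 * N ^ 2 -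
      400 * T.t * q * N - 9 * T.t := by
  have hcond : 18 * (T.t : ℤ) + 1 ≤ (T.X.deg D₀ - 100 * T.t * q) * N := by
    rw [hD]
    have g1 : (1 : ℤ) ≤ T.t := by exact_mod_cast T.t_pos
    have g2 : (1 : ℤ) ≤ q := by exact_mod_cast hq
    have g3 : (4 : ℤ) ≤ N := by exact_mod_cast hN
    have g4 : (4 : ℤ) ≤ q * N := by nlinarith
    have e : (105 * (T.t : ℤ) * q - 100 * T.t * q) * N = 5 * T.t * (q * N) := by ring
    rw [e]
    nlinarith
  have h := finrank_sec (T := T) (q := q) (D₀ := D₀) (N := N) hcond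
  rw [sec_eq_bigr, finrank_bigr _ _ _ (T.finite_V q D₀ N)] at h
  unfold dN mult
  rw [h, hD]
  unfold ca0 ca1
  push_cast
  ring

theorem sum_lin_dim (hD : T.X.deg D₀ = 105 * T.t * q) (hq : 0 < q) {N : ℕ} (hN : 4 ≤ N)
    (al be ga x : ℝ) : ∑ j ∈ Icc (-((5 * q * N : ℕ) : ℤ)) ((5 * q * N : ℕ) : ℤ),
      ∑ a ∈ range (AA q N j + 1), ∑ b ∈ range (BB q N j + 1),
        (al * a + be * b + ga * j + x * N) * (finrank ℂ (T.V q D₀ N j) : ℝ) =
      (25 * q * (al + be) / 2 + x) * N * dN T q D₀ N := by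
  have h1 : ∀ j ∈ Icc (-((5 * q * N : ℕ) : ℤ)) ((5 * q * N : ℕ) : ℤ),
      ∑ a ∈ range (AA q N j + 1), ∑ b ∈ range (BB q N j + 1),
        (al * a + be * b + ga * j + x * N) * (finrank ℂ (T.V q D₀ N j) : ℝ) =
      (25 * q * (al + be) / 2 + x) * N * (mult q N j * (finrank ℂ (T.V q D₀ N j) : ℝ)) +
      (ga + 3 * (al - be) / 2) * (mult q N j * (finrank ℂ (T.V q D₀ N j) : ℝ) * j) := by
    intro j hj
    have hj' := mem_Icc_iff.1 hj
    have h2 := av_mult hj' (fun a b : ℕ => al * (a : ℝ) + be * b + (ga * j + x * N))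
    have h3 : av q N j (fun a b : ℕ => al * (a : ℝ) + be * b + (ga * j + x * N)) =
        al * ((25 * q * N + 3 * j) / 2) + be * ((25 * q * N - 3 * j) / 2) + (ga * j + x * N) := by
      unfold av
      rw [avg2_lin]
      have e1 : ((AA q N j : ℕ) : ℝ) = 25 * q * N + 3 * j := by exact_mod_cast AA_cast hj'
      have e2 : ((BB q N j : ℕ) : ℝ) = 25 * q * N - 3 * j := by exact_mod_cast BB_cast hj'
      rw [e1, e2]
    have h4 : ∑ a ∈ range (AA q N j + 1), ∑ b ∈ range (BB q N j + 1),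
        (al * a + be * b + ga * j + x * N) * (finrank ℂ (T.V q D₀ N j) : ℝ) =
        (∑ a ∈ range (AA q N j + 1), ∑ b ∈ range (BB q N j + 1),
          (al * (a : ℝ) + be * b + (ga * j + x * N))) * (finrank ℂ (T.V q D₀ N j) : ℝ) := by
      rw [sum_mul]
      apply sum_congr rfl
      intro a _
      rw [sum_mul]
      apply sum_congr rfl
      intro b _
      ring
    rw [h4, ← h2, h3]
    unfold mult
    ring
  rw [sum_congr rfl h1, sum_add_distrib, ← mul_sum, ← mul_sum]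
  have h5 : ∑ j ∈ Icc (-((5 * q * N : ℕ) : ℤ)) ((5 * q * N : ℕ) : ℤ),
      (mult q N j * (finrank ℂ (T.V q D₀ N j) : ℝ) * j) = 0 := by
    apply sum_odd_zero
    intro j hj
    have hj' := mem_Icc_iff.1 hj
    rw [mult_neg, finV hD hq hN hj', finV hD hq hN (by rw [abs_neg]; exact hj'), dg_neg_fin]
    push_cast
    ring
  rw [h5, mul_zero, add_zero]
  rfl

namespace Graded

variable {G : Graded T q D₀}
variable (hD : T.X.deg D₀ = 105 * T.t * q)

theorem sum_W_eq (N : ℕ) (j : ℤ) (a b : ℕ) :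
    ∑ l ∈ range (G.Λ * N), (finrank ℂ (G.W N (l + 1) j a b) : ℝ) =
      ∑ l ∈ range (G.nn N j a b), (finrank ℂ (G.W N (l + 1) j a b) : ℝ) := by
  symm
  apply sum_subset (range_subset_range.2 (G.nn_le N j a b))
  intro l _ hl
  rw [mem_range, not_lt] at hl
  rw [G.W_eq_bot (show G.nn N j a b < l + 1 by omega), finrank_bot]
  simp

theorem finrank_W_le (P₀ : T.X.Pt) {N l : ℕ} {j : ℤ} {a b : ℕ} (h : InR q N j a b) :
    (finrank ℂ (G.W N l j a b) : ℝ) ≤ finrank ℂ (T.V q D₀ N j) := by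
  have hfin : Module.Finite ℂ (T.X.L (T.dvs q D₀ N j)) := T.X.finite_L P₀ _
  exact_mod_cast Submodule.finrank_mono (G.W_le N l j a b h)

theorem sum_W_le (P₀ : T.X.Pt) {N : ℕ} {j : ℤ} {a b : ℕ} (h : InR q N j a b) :
    ∑ l ∈ range (G.Λ * N), (finrank ℂ (G.W N (l + 1) j a b) : ℝ) ≤
      G.nn N j a b * finrank ℂ (T.V q D₀ N j) := by
  rw [sum_W_eq]
  calc ∑ l ∈ range (G.nn N j a b), (finrank ℂ (G.W N (l + 1) j a b) : ℝ) ≤
      ∑ _l ∈ range (G.nn N j a b), (finrank ℂ (T.V q D₀ N j) : ℝ) :=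
        sum_le_sum fun l _ => finrank_W_le P₀ h
    _ = _ := by rw [sum_const, card_range, nsmul_eq_mul]

include hD in
theorem tot_le_lin (P₀ : T.X.Pt) (hq : 0 < q) {al be ga x : ℝ} {N : ℕ} (hN : 4 ≤ N)
    (hn : ∀ j a b, InR q N j a b → (G.nn N j a b : ℝ) ≤ al * a + be * b + ga * j + x * N) :
    G.tot N ≤ (25 * q * (al + be) / 2 + x) * N * dN T q D₀ N := by
  rw [← sum_lin_dim hD hq hN al be ga x]
  unfold tot
  apply sum_le_sum
  intro j hj
  apply sum_le_sum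
  intro a ha
  apply sum_le_sum
  intro b hb
  have hin : InR q N j a b := (inR_iff (mem_Icc_iff.1 hj)).2
    ⟨Nat.lt_succ_iff.1 (mem_range.1 ha), Nat.lt_succ_iff.1 (mem_range.1 hb)⟩
  exact (sum_W_le P₀ hin).trans (mul_le_mul_of_nonneg_right (hn j a b hin) (by positivity))

end Graded

end Pool.Agent.YTD


end

/- source: Pool.Agent.YTD.Fin3 -/

section

/-!
Rigidity of the graded filtration from the shape of the envelope and the lower bound of the
leading coefficient.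
-/

namespace Pool.Agent.YTD

open Finset Module Filter

theorem int_of_fract {x C : ℝ} (h : ∀ᶠ N : ℕ in atTop, Int.fract (x * N) * N ≤ C) :
    ∃ z : ℤ, x = z := by
  by_contra hcon
  push Not at hcon
  have hf : 0 < Int.fract x := by
    rcases (Int.fract_nonneg x).lt_or_eq with h0 | h0
    · exact h0
    · exact absurd (Int.floor_add_fract x).symm (by rw [← h0, add_zero]; exact hcon _)
  have hf1 : Int.fract x < 1 := Int.fract_lt_one x
  set ε := min (Int.fract x) (1 - Int.fract x) with hε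
  have hε0 : 0 < ε := lt_min hf (by linarith)
  obtain ⟨N₀, hN₀⟩ := eventually_atTop.1 h
  obtain ⟨n, hn⟩ := exists_nat_gt (C / ε)
  set N := max N₀ (max n 1) with hN
  have hNn : (n : ℝ) ≤ N := by
    have : n ≤ N := (le_max_left _ _).trans (le_max_right _ _)
    exact_mod_cast this
  have hN1 : (1 : ℝ) ≤ N := by
    have : 1 ≤ N := (le_max_right _ _).trans (le_max_right _ _)
    exact_mod_cast this
  rw [div_lt_iff₀ hε0] at hn
  have hlt : ∀ M : ℕ, N ≤ M → Int.fract (x * M) < ε := by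
    intro M hM
    have h1 := hN₀ M ((le_max_left _ _).trans hM)
    have hM' : (N : ℝ) ≤ M := by exact_mod_cast hM
    by_contra h2
    push Not at h2
    have h3 : ε * M ≤ Int.fract (x * M) * M := mul_le_mul_of_nonneg_right h2 (by positivity)
    nlinarith
  have h1 := hlt N le_rfl
  have h2 := hlt (N + 1) (Nat.le_succ N)
  have h3 : Int.fract (x * ((N + 1 : ℕ) : ℝ)) = Int.fract (x * N) + Int.fract x := by
    rw [Int.fract_eq_iff]
    refine ⟨by linarith [Int.fract_nonneg (x * N)], ?_, ⌊x * N⌋ + ⌊x⌋, ?_⟩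
    · have := min_le_right (Int.fract x) (1 - Int.fract x)
      linarith
    · have e1 := Int.floor_add_fract (x * N)
      have e2 := Int.floor_add_fract x
      push_cast
      linarith
  rw [h3] at h2
  have h4 := min_le_left (Int.fract x) (1 - Int.fract x)
  linarith [Int.fract_nonneg (x * N)]

theorem bound_all {E : ℕ → ℝ} {C : ℝ} (h : ∀ᶠ N : ℕ in atTop, E N ≤ C * (N : ℝ) ^ 3) :
    ∃ C' : ℝ, ∀ N ≥ 4, E N ≤ C' * (N : ℝ) ^ 3 := by
  obtain ⟨N₀, hN₀⟩ := eventually_atTop.1 h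
  refine ⟨|C| + ∑ N ∈ range N₀, |E N|, fun N hN => ?_⟩
  have p : (1 : ℝ) ≤ (N : ℝ) ^ 3 := by
    have : (1 : ℝ) ≤ N := by
      have : 1 ≤ N := by omega
      exact_mod_cast this
    exact one_le_pow₀ this
  have hs : 0 ≤ ∑ N ∈ range N₀, |E N| := sum_nonneg fun _ _ => abs_nonneg _
  have hC : 0 ≤ |C| := abs_nonneg C
  have hC' : C ≤ |C| := le_abs_self C
  rcases le_or_gt N₀ N with h1 | h1
  · have h2 := hN₀ N h1
    nlinarith
  · have h2 : |E N| ≤ ∑ N ∈ range N₀, |E N| :=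
      single_le_sum (f := fun N => |E N|) (fun _ _ => abs_nonneg _) (mem_range.2 h1)
    have h3 := le_abs_self (E N)
    nlinarith

theorem sum_Ioc_int (f : ℕ → ℝ) (L : ℕ) :
    ∑ l ∈ Ioc (0 : ℤ) L, f l.toNat = ∑ l ∈ range L, f (l + 1) := by
  refine sum_nbij' (fun l => l.toNat - 1) (fun l => (l : ℤ) + 1) ?_ ?_ ?_ ?_ ?_
  · intro l hl
    rw [mem_Ioc] at hl
    rw [mem_range]
    omega
  · intro l hl
    rw [mem_range] at hl
    rw [mem_Ioc]
    omega
  · intro l hl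
    rw [mem_Ioc] at hl
    show ((l.toNat - 1 : ℕ) : ℤ) + 1 = l
    omega
  · intro l hl
    show ((l : ℤ) + 1).toNat - 1 = l
    omega
  · intro l hl
    rw [mem_Ioc] at hl
    show f l.toNat = f (l.toNat - 1 + 1)
    congr 1
    omega

variable {K : Type} [Field K] [Algebra ℂ K]
variable {T : Datum K} {q : ℕ} {D₀ : T.X.Pt →₀ ℤ}

theorem dN_ge (hD : T.X.deg D₀ = 105 * T.t * q) (hq : 0 < q) {N : ℕ} (hN : 4 ≤ N) :
    (N : ℝ) ^ 4 ≤ dN T q D₀ N := by
  rw [dN_eq hD hq hN]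
  have ht : (1 : ℝ) ≤ T.t := by exact_mod_cast T.t_pos
  have hq1 : (1 : ℝ) ≤ q := by exact_mod_cast hq
  have hN1 : (1 : ℝ) ≤ N := by
    have : 1 ≤ N := by omega
    exact_mod_cast this
  have hqN : (1 : ℝ) ≤ q * N := by nlinarith
  have e1 : (q : ℝ) ^ 4 * N ^ 4 = (q * N) ^ 4 := by ring
  have e2 : (q : ℝ) ^ 2 * N ^ 2 = (q * N) ^ 2 := by ring
  have i1 : ((q : ℝ) * N) ^ 2 ≤ (q * N) ^ 4 := pow_le_pow_right₀ hqN (by norm_num)
  have i2 : (q : ℝ) * N ≤ (q * N) ^ 4 := by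
    calc (q : ℝ) * N = (q * N) ^ 1 := (pow_one _).symm
      _ ≤ _ := pow_le_pow_right₀ hqN (by norm_num)
  have i3 : (1 : ℝ) ≤ ((q : ℝ) * N) ^ 4 := one_le_pow₀ hqN
  have i4 : (N : ℝ) ^ 4 ≤ (q * N) ^ 4 := by
    apply pow_le_pow_left₀ (by positivity)
    nlinarith
  have i5 : ((q : ℝ) * N) ^ 4 ≤ T.t * ((q : ℝ) * N) ^ 4 := by nlinarith
  have j1 : (T.t : ℝ) * ((q : ℝ) * N) ^ 2 ≤ T.t * (q * N) ^ 4 :=
    mul_le_mul_of_nonneg_left i1 (by linarith)
  have j2 : (T.t : ℝ) * ((q : ℝ) * N) ≤ T.t * (q * N) ^ 4 :=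
    mul_le_mul_of_nonneg_left i2 (by linarith)
  have j3 : (T.t : ℝ) * 1 ≤ T.t * (q * N) ^ 4 := mul_le_mul_of_nonneg_left i3 (by linarith)
  have e3 : 534650 * (T.t : ℝ) * (q : ℝ) ^ 4 * N ^ 4 - 5625 * T.t * (q : ℝ) ^ 2 * N ^ 2 -
      400 * T.t * q * N - 9 * T.t = 534650 * (T.t * (q * N) ^ 4) - 5625 * (T.t * (q * N) ^ 2) -
      400 * (T.t * (q * N)) - 9 * (T.t * 1) := by ring
  rw [e3]
  linarith

namespace Graded

variable {G : Graded T q D₀}
variable (hD : T.X.deg D₀ = 105 * T.t * q)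

include hD in
theorem defect_le (hq : 0 < q) {s₀ κ : ℝ} (hS : G.Crit s₀ 0)
    (hk : κ * (534650 * T.t * (q : ℝ) ^ 4) ≤ s₀) :
    ∃ C : ℝ, ∀ N ≥ 4, κ * N * dN T q D₀ N - G.tot N ≤ C * (N : ℝ) ^ 3 := by
  obtain ⟨-, C₁, hC₁⟩ := hS
  apply bound_all (C := |κ| * (6034 * T.t * (q : ℝ) ^ 2) + C₁)
  filter_upwards [hC₁, eventually_ge_atTop 4] with N hN h4
  rw [dN_eq hD hq h4]
  have h1 := hN
  have ht : (1 : ℝ) ≤ T.t := by exact_mod_cast T.t_pos
  have hq1 : (1 : ℝ) ≤ q := by exact_mod_cast hq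
  have hN1 : (1 : ℝ) ≤ N := by
    have : 1 ≤ N := by omega
    exact_mod_cast this
  have h2 : κ * (534650 * T.t * (q : ℝ) ^ 4) * N ^ 5 ≤ s₀ * N ^ 5 :=
    mul_le_mul_of_nonneg_right hk (by positivity)
  have h3 : 5625 * T.t * (q : ℝ) ^ 2 * N ^ 2 + 400 * T.t * q * N + 9 * T.t ≤
      6034 * T.t * (q : ℝ) ^ 2 * N ^ 2 := by
    have i0 : (1 : ℝ) ≤ q * N := by nlinarith
    have i1 : (q : ℝ) * N ≤ (q * N) ^ 2 := by nlinarith
    have i2 : (1 : ℝ) ≤ (q * N) ^ 2 := by nlinarith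
    have j1 : (T.t : ℝ) * ((q : ℝ) * N) ≤ T.t * (q * N) ^ 2 :=
      mul_le_mul_of_nonneg_left i1 (by linarith)
    have j2 : (T.t : ℝ) * 1 ≤ T.t * (q * N) ^ 2 := mul_le_mul_of_nonneg_left i2 (by linarith)
    nlinarith
  have h4' : 0 ≤ 5625 * T.t * (q : ℝ) ^ 2 * N ^ 2 + 400 * T.t * q * N + 9 * T.t := by positivity
  have h5 : -κ * (N * (5625 * T.t * (q : ℝ) ^ 2 * N ^ 2 + 400 * T.t * q * N + 9 * T.t)) ≤
      |κ| * (N * (6034 * T.t * (q : ℝ) ^ 2 * N ^ 2)) := by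
    calc _ ≤ |κ| * (N * (5625 * T.t * (q : ℝ) ^ 2 * N ^ 2 + 400 * T.t * q * N + 9 * T.t)) :=
          mul_le_mul_of_nonneg_right (neg_le_abs κ) (by positivity)
      _ ≤ _ := by
          apply mul_le_mul_of_nonneg_left _ (abs_nonneg κ)
          exact mul_le_mul_of_nonneg_left h3 (by positivity)
  have e1 : κ * N * (534650 * T.t * (q : ℝ) ^ 4 * N ^ 4 - 5625 * T.t * (q : ℝ) ^ 2 * N ^ 2 -
      400 * T.t * q * N - 9 * T.t) = κ * (534650 * T.t * (q : ℝ) ^ 4) * N ^ 5 +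
      -κ * (N * (5625 * T.t * (q : ℝ) ^ 2 * N ^ 2 + 400 * T.t * q * N + 9 * T.t)) := by ring
  have e2 : |κ| * (N * (6034 * T.t * (q : ℝ) ^ 2 * N ^ 2)) =
      |κ| * (6034 * T.t * (q : ℝ) ^ 2) * N ^ 3 := by ring
  rw [e1]
  rw [e2] at h5
  linarith

include hD in
theorem int_of_defect (P₀ : T.X.Pt) (hq : 0 < q) {al be ga : ℤ} {x C : ℝ}
    (hn : ∀ N ≥ 4, ∀ (j : ℤ) (a b : ℕ), InR q N j a b →
      (G.nn N j a b : ℝ) ≤ al * a + be * b + ga * j + x * N)
    (hC : ∀ N ≥ 4, (25 * q * (al + be) / 2 + x) * N * dN T q D₀ N - G.tot N ≤ C * (N : ℝ) ^ 3) :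
    ∃ de : ℤ, x = de := by
  apply int_of_fract (C := C)
  filter_upwards [eventually_ge_atTop 4] with N h4
  have hN1 : (1 : ℝ) ≤ N := by
    have : 1 ≤ N := by omega
    exact_mod_cast this
  have h1 : G.tot N ≤ (25 * q * ((al : ℝ) + be) / 2 + ⌊x * N⌋ / N) * N * dN T q D₀ N := by
    apply tot_le_lin hD P₀ hq (ga := ga) h4
    intro j a b hin
    have h2 := hn N h4 j a b hin
    have h3 : ((G.nn N j a b : ℤ) - (al * a + be * b + ga * j) : ℤ) ≤ ⌊x * N⌋ := by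
      rw [Int.le_floor]
      push_cast
      linarith
    have h4 : ((((G.nn N j a b : ℤ) - (al * a + be * b + ga * j) : ℤ)) : ℝ) ≤ (⌊x * N⌋ : ℤ) := by
      exact_mod_cast h3
    push_cast at h4
    rw [div_mul_cancel₀ _ (by positivity)]
    linarith
  have h2 := hC N h4
  have h3 : Int.fract (x * N) * dN T q D₀ N ≤ C * (N : ℝ) ^ 3 := by
    have e : (25 * q * ((al : ℝ) + be) / 2 + ⌊x * N⌋ / N) * N * dN T q D₀ N =
        (25 * q * ((al : ℝ) + be) / 2 + x) * N * dN T q D₀ N - Int.fract (x * N) * dN T q D₀ N := by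
      have e1 := Int.floor_add_fract (x * N)
      have e2 : (⌊x * N⌋ : ℝ) / N * N = ⌊x * N⌋ := div_mul_cancel₀ _ (by positivity)
      have e3 : (25 * q * ((al : ℝ) + be) / 2 + ⌊x * N⌋ / N) * N * dN T q D₀ N =
        (25 * q * ((al : ℝ) + be) / 2 * N + ⌊x * N⌋ / N * N) * dN T q D₀ N := by ring
      rw [e3, e2]
      have e4 : (⌊x * N⌋ : ℝ) = x * N - Int.fract (x * N) := by linarith
      rw [e4]
      ring
    rw [e] at h1
    linarith
  have h4 := mul_le_mul_of_nonneg_left (dN_ge hD hq h4) (Int.fract_nonneg (x * N))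
  have h5 : Int.fract (x * N) * N * (N : ℝ) ^ 3 ≤ C * (N : ℝ) ^ 3 := by
    calc _ = Int.fract (x * N) * (N : ℝ) ^ 4 := by ring
      _ ≤ _ := h4.trans h3
  exact le_of_mul_le_mul_right h5 (by positivity)

theorem sum_defect_eq (N : ℕ) (j : ℤ) (a b : ℕ) {L : ℤ} (hL : (G.nn N j a b : ℤ) ≤ L) :
    ∑ l ∈ Ioc 0 L, ((finrank ℂ (T.V q D₀ N j) : ℝ) - finrank ℂ (G.W N l.toNat j a b)) =
      L * finrank ℂ (T.V q D₀ N j) -
        ∑ l ∈ range (G.Λ * N), (finrank ℂ (G.W N (l + 1) j a b) : ℝ) := by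
  obtain ⟨L', rfl⟩ := Int.eq_ofNat_of_zero_le (show 0 ≤ L by omega)
  rw [sum_sub_distrib, sum_const, sum_W_eq]
  congr 1
  · rw [Int.card_Ioc, nsmul_eq_mul]
    simp
  · rw [sum_Ioc_int (fun l => (finrank ℂ (G.W N l j a b) : ℝ))]
    symm
    apply sum_subset (range_subset_range.2 (by exact_mod_cast hL))
    intro l _ hl
    rw [mem_range, not_lt] at hl
    rw [G.W_eq_bot (show G.nn N j a b < l + 1 by omega), finrank_bot]
    simp

theorem rigid_of_kappa (P₀ : T.X.Pt) (hq : 0 < q) (hD : T.X.deg D₀ = 105 * T.t * q) {s₀ : ℝ}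
    (hS : G.Crit s₀ 0) {al be ga : ℤ} {x : ℝ}
    (hn : ∀ N ≥ 4, ∀ (j : ℤ) (a b : ℕ), InR q N j a b →
      (G.nn N j a b : ℝ) ≤ al * a + be * b + ga * j + x * N)
    (hk : (25 * q * (al + be) / 2 + x) * (534650 * T.t * (q : ℝ) ^ 4) ≤ s₀) :
    ∃ de : ℤ, (∀ N ≥ 4, ∀ (l : ℕ) (j : ℤ) (a b : ℕ), InR q N j a b → G.W N l j a b ≠ ⊥ →
      (l : ℤ) ≤ al * a + be * b + ga * j + de * N) ∧
    ∃ C : ℝ, ∀ N ≥ 4,
      ∑ j ∈ Icc (-((5 * q * N : ℕ) : ℤ)) ((5 * q * N : ℕ) : ℤ),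
        ∑ a ∈ range (AA q N j + 1), ∑ b ∈ range (BB q N j + 1),
          ∑ l ∈ Ioc 0 (al * a + be * b + ga * j + de * N),
            ((finrank ℂ (T.V q D₀ N j) : ℝ) - finrank ℂ (G.W N l.toNat j a b)) ≤ C * N ^ 3 := by
  obtain ⟨C, hC⟩ := defect_le hD hq hS hk
  obtain ⟨de, rfl⟩ := int_of_defect hD P₀ hq hn hC
  have hn' : ∀ N ≥ 4, ∀ (j : ℤ) (a b : ℕ), InR q N j a b →
      (G.nn N j a b : ℤ) ≤ al * a + be * b + ga * j + de * N := by
    intro N hN j a b hin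
    exact_mod_cast hn N hN j a b hin
  refine ⟨de, fun N hN l j a b hin hW => ?_, C, fun N hN => ?_⟩
  · have h1 : l ≤ G.nn N j a b := by
      by_contra h2
      exact hW (G.W_eq_bot (not_le.1 h2))
    exact le_trans (by exact_mod_cast h1) (hn' N hN j a b hin)
  · refine le_trans (le_of_eq ?_) (hC N hN)
    have h1 := sum_lin_dim hD hq hN (al : ℝ) be ga de
    rw [← h1]
    unfold tot
    rw [← sum_sub_distrib]
    apply sum_congr rfl
    intro j hj
    rw [← sum_sub_distrib]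
    apply sum_congr rfl
    intro a ha
    rw [← sum_sub_distrib]
    apply sum_congr rfl
    intro b hb
    have hin : InR q N j a b := (inR_iff (mem_Icc_iff.1 hj)).2
      ⟨Nat.lt_succ_iff.1 (mem_range.1 ha), Nat.lt_succ_iff.1 (mem_range.1 hb)⟩
    rw [sum_defect_eq N j a b (hn' N hN j a b hin)]
    push_cast
    ring

end Graded

end Pool.Agent.YTD


end

/- source: Pool.Agent.YTD.Spec3 -/

section

/-!
The weight bound for the restrictions of sections to a fibre.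
-/

namespace Pool.Agent.YTD

open Finset Module MvPolynomial Filter CurveOrd

variable {K : Type} [Field K] [Algebra ℂ K]
variable {T : Datum K} {q : ℕ} {D₀ : T.X.Pt →₀ ℤ} {r : ℕ}

namespace Filt

variable {χ : Filt T q D₀ r}

open Classical in
/-- the number of violators is `O(M^3)`. -/
theorem Rigid.violators {m : MonomialOrder (Fin 4)} {al be ga de : ℤ}
    (hR : χ.Rigid m al be ga de) (P₀ : T.X.Pt) (hQ : 0 < r * q)
    (hD : T.X.deg (r • D₀) = 105 * T.t * (r * q : ℕ)) {P : T.X.Pt} (hS : P ∉ T.S)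
    (hS' : P ∉ T.S') : ∃ C : ℝ, 0 ≤ C ∧ ∀ (M : ℕ) (Ls : Finset ℤ), 4 ≤ M →
      ∑ l ∈ Ls, (((χ.specSet m P M l).filter fun e => lwE al be ga de (r * q) M e < l).card : ℝ) ≤
        C * (M : ℝ) ^ 3 := by
  obtain ⟨C, hC0, hC⟩ := hR.count P₀
  refine ⟨C, hC0, ?_⟩
  intro M Ls hM
  refine le_trans ?_ (hC M (fun _ => Ls) hM)
  have h1 : ∀ l : ℤ, ((χ.specSet m P M l).filter fun e => lwE al be ga de (r * q) M e < l).card ≤
      ((Eset (r * q) M).filter fun e => l ≤ lwE al be ga de (r * q) M e ∧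
        ini m (χ.F M l) e ≠ ini m (T.sec (r * q) (r • D₀) M) e).card := by
    intro l
    have h2 := hR.card_specSet_le P₀ hQ hD hS hS' M l
    have h3 := card_filter_add_card_filter_not (s := χ.specSet m P M l)
      (p := fun e => lwE al be ga de (r * q) M e < l)
    have h4 := card_filter_add_card_filter_not
      (s := (Eset (r * q) M).filter fun e => l ≤ lwE al be ga de (r * q) M e)
      (p := fun e => e ∈ χ.specSet m P M l)
    have h5 : ((χ.specSet m P M l).filter fun e => ¬ lwE al be ga de (r * q) M e < l) =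
        ((Eset (r * q) M).filter fun e => l ≤ lwE al be ga de (r * q) M e).filter
          fun e => e ∈ χ.specSet m P M l := by
      ext e
      simp only [mem_filter, not_lt]
      constructor
      · rintro ⟨h6, h7⟩
        exact ⟨⟨(mem_filter.1 h6).1, h7⟩, h6⟩
      · rintro ⟨⟨_, h7⟩, h6⟩
        exact ⟨h6, h7⟩
    have h6 : (((Eset (r * q) M).filter fun e => l ≤ lwE al be ga de (r * q) M e).filter
          fun e => ¬ e ∈ χ.specSet m P M l).card ≤
        ((Eset (r * q) M).filter fun e => l ≤ lwE al be ga de (r * q) M e ∧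
        ini m (χ.F M l) e ≠ ini m (T.sec (r * q) (r • D₀) M) e).card := by
      apply card_le_card
      intro e he
      rw [mem_filter, mem_filter] at he
      rw [mem_filter]
      refine ⟨he.1.1, he.1.2, ?_⟩
      intro h7
      exact he.2 (mem_specSet_of_full P₀ hQ hD hS hS' hM he.1.1 h7)
    rw [h5] at h3
    omega
  calc ∑ l ∈ Ls, (((χ.specSet m P M l).filter fun e =>
          lwE al be ga de (r * q) M e < l).card : ℝ)
      ≤ ∑ l ∈ Ls, (((Eset (r * q) M).filter fun e => l ≤ lwE al be ga de (r * q) M e ∧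
        ini m (χ.F M l) e ≠ ini m (T.sec (r * q) (r • D₀) M) e).card : ℝ) := by
        apply sum_le_sum
        intro l _
        exact_mod_cast h1 l
    _ = ∑ e ∈ Eset (r * q) M, ((Ls.filter fun l => l ≤ lwE al be ga de (r * q) M e ∧
        ini m (χ.F M l) e ≠ ini m (T.sec (r * q) (r • D₀) M) e).card : ℝ) := by
        have := sum_card_bipartiteAbove_eq_sum_card_bipartiteBelow (s := Ls) (t := Eset (r * q) M)
          (fun (l : ℤ) (e : Fin 4 →₀ ℕ) => l ≤ lwE al be ga de (r * q) M e ∧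
            ini m (χ.F M l) e ≠ ini m (T.sec (r * q) (r • D₀) M) e)
        exact_mod_cast this

theorem pow_mem_F {N : ℕ} {l : ℤ} {s : MvPolynomial (Fin 4) K} (hs : s ∈ χ.F N l) (k : ℕ)
    (hk : 1 ≤ k) : s ^ k ∈ χ.F (k * N) (k * l) := by
  induction k, hk using Nat.le_induction with
  | base =>
    rw [pow_one, one_mul, Nat.cast_one, one_mul]
    exact hs
  | succ k _ ih =>
    have h := χ.mul (k * N) N (k * l) l _ ih _ hs
    rw [pow_succ]
    have e1 : (k + 1) * N = k * N + N := by ring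
    have e2 : ((k + 1 : ℕ) : ℤ) * l = k * l + l := by push_cast; ring
    rw [e1, e2]
    exact h

/-- **The weight bound on the fibres.** -/
theorem Rigid.spec {m : MonomialOrder (Fin 4)} {al be ga de : ℤ}
    (hR : χ.Rigid m al be ga de) (P₀ : T.X.Pt) (hQ : 0 < r * q)
    (hD : T.X.deg (r • D₀) = 105 * T.t * (r * q : ℕ)) {P : T.X.Pt} (hS : P ∉ T.S)
    (hS' : P ∉ T.S') {N : ℕ} {l : ℤ} {s : MvPolynomial (Fin 4) K} (hs : s ∈ χ.F N l)
    {j : ℤ} {a b : ℕ} (hin : InR (r * q) N j a b)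
    (hlead : T.X.SpecLead m P (N * (r • D₀) P) s (expo (r * q) N j a b)) :
    l ≤ lw al be ga de N j a b := by
  classical
  by_contra hlt
  push Not at hlt
  obtain ⟨C₁, hC₁0, hC₁⟩ := hR.violators P₀ hQ hD hS hS'
  obtain ⟨C₂, hC₂0, hC₂⟩ := hR.count P₀
  obtain ⟨M, hM⟩ := exists_nat_gt (C₂ + C₁ * ((N : ℝ) + 1) ^ 3 + 4)
  have hNp : 0 ≤ C₁ * ((N : ℝ) + 1) ^ 3 := by positivity
  have hM4' : (4 : ℝ) < M := by linarith
  have hM4 : 4 ≤ M := by exact_mod_cast hM4'.le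
  -- the box
  set E : ℕ × ℕ × ℕ → (Fin 4 →₀ ℕ) := fun p => expo (r * q) M (p.1 : ℤ) p.2.1 p.2.2 with hE
  set R : Finset (ℕ × ℕ × ℕ) := range M ×ˢ range M ×ˢ range M with hRdef
  have hRin : ∀ p ∈ R, InR (r * q) M (p.1 : ℤ) p.2.1 p.2.2 := by
    intro p hp
    rw [hRdef, mem_product, mem_product, mem_range, mem_range, mem_range] at hp
    exact inR_box hQ hp.1.le hp.2.1.le hp.2.2.le
  have hEinj : Set.InjOn E (R : Set (ℕ × ℕ × ℕ)) := by
    intro p hp p' hp' h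
    have h0 := expo_sum_x (hRin p hp)
    have h0' := expo_sum_x (hRin p' hp')
    have h1 : p.2.1 = p'.2.1 := by
      have := congrArg (fun e : Fin 4 →₀ ℕ => e 1) h
      exact this
    have h2 : p.2.2 = p'.2.2 := by
      have := congrArg (fun e : Fin 4 →₀ ℕ => e 3) h
      exact this
    have h3 : p.1 = p'.1 := by
      have h4 : expo (r * q) M (p.1 : ℤ) p.2.1 p.2.2 = expo (r * q) M (p'.1 : ℤ) p'.2.1 p'.2.2 := h
      rw [h4] at h0
      rw [h0] at h0'
      have : (p.1 : ℤ) = p'.1 := by linarith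
      exact_mod_cast this
    exact Prod.ext h3 (Prod.ext h1 h2)
  set B : Finset (Fin 4 →₀ ℕ) := R.image E with hB
  have hBcard : B.card = M * (M * M) := by
    rw [hB, card_image_of_injOn hEinj, hRdef, card_product, card_product, card_range]
  have hBE : B ⊆ Eset (r * q) M := by
    intro e he
    obtain ⟨p, hp, rfl⟩ := mem_image.1 he
    exact mem_Eset.2 ⟨_, _, _, hRin p hp, rfl⟩
  set Ls : (Fin 4 →₀ ℕ) → Finset ℤ := fun e =>
    (range M).image fun i : ℕ => lwE al be ga de (r * q) M e - i with hLs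
  have hLcard : ∀ e, (Ls e).card = M := by
    intro e
    rw [hLs]
    simp only
    rw [card_image_of_injective, card_range]
    intro i i' h
    have : (i : ℤ) = i' := by
      simp only at h
      linarith
    exact_mod_cast this
  have hLle : ∀ e, ∀ l' ∈ Ls e, l' ≤ lwE al be ga de (r * q) M e ∧
      lwE al be ga de (r * q) M e < l' + M := by
    intro e l' hl'
    obtain ⟨i, hi, rfl⟩ := mem_image.1 hl'
    rw [mem_range] at hi
    have hi' : (i : ℤ) < M := by exact_mod_cast hi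
    have hi0 : (0 : ℤ) ≤ i := by positivity
    constructor <;> linarith
  set G : Finset ((_ : Fin 4 →₀ ℕ) × ℤ) := B.sigma fun e => (Ls e).filter fun l' =>
    ¬ (l' ≤ lwE al be ga de (r * q) M e ∧
        ini m (χ.F M l') e ≠ ini m (T.sec (r * q) (r • D₀) M) e) with hG
  have hGcard : (M : ℝ) ^ 4 - C₂ * (M : ℝ) ^ 3 ≤ G.card := by
    have h1 : G.card + ∑ e ∈ B, ((Ls e).filter fun l' => (l' ≤ lwE al be ga de (r * q) M e ∧
        ini m (χ.F M l') e ≠ ini m (T.sec (r * q) (r • D₀) M) e)).card = M * (M * M) * M := by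
      rw [hG, card_sigma, ← sum_add_distrib, ← hBcard, ← smul_eq_mul (a := B.card), ← sum_const]
      apply sum_congr rfl
      intro e _
      rw [add_comm, card_filter_add_card_filter_not, hLcard]
    have h2 : (G.card : ℝ) + ∑ e ∈ B, (((Ls e).filter fun l' =>
        (l' ≤ lwE al be ga de (r * q) M e ∧
        ini m (χ.F M l') e ≠ ini m (T.sec (r * q) (r • D₀) M) e)).card : ℝ) = M * (M * M) * M := by
      exact_mod_cast h1
    have h3 : ∑ e ∈ B, (((Ls e).filter fun l' =>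
        (l' ≤ lwE al be ga de (r * q) M e ∧
        ini m (χ.F M l') e ≠ ini m (T.sec (r * q) (r • D₀) M) e)).card : ℝ) ≤ C₂ * (M : ℝ) ^ 3 := by
      refine le_trans ?_ (hC₂ M Ls hM4)
      apply sum_le_sum_of_subset_of_nonneg hBE
      intro _ _ _
      positivity
    have h4 : (M : ℝ) * (M * M) * M = (M : ℝ) ^ 4 := by ring
    linarith
  -- the violators
  set L' : Finset ℤ := G.image fun p => (M : ℤ) * l + p.2 with hL'
  set V : Finset ((_ : ℤ) × (Fin 4 →₀ ℕ)) := L'.sigma fun l' =>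
    (χ.specSet m P (M * N + M) l').filter fun e => lwE al be ga de (r * q) (M * N + M) e < l'
    with hV
  have hVcard : (V.card : ℝ) ≤ C₁ * ((M * N + M : ℕ) : ℝ) ^ 3 := by
    rw [hV, card_sigma, Nat.cast_sum]
    exact hC₁ (M * N + M) L' (by nlinarith)
  have hpow : s ^ M ∈ χ.F (M * N) (M * l) := pow_mem_F hs M (by omega)
  have hint : T.X.Int P (N * (r • D₀) P) s := sec_int hS hS' (χ.F_le N l hs)
  obtain ⟨hpi, hpl⟩ := hlead.pow hint M
  have hGV : G.card ≤ V.card := by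
    apply card_le_card_of_injOn
      (fun p => (⟨(M : ℤ) * l + p.2, M • expo (r * q) N j a b + p.1⟩ : (_ : ℤ) × (Fin 4 →₀ ℕ)))
    · intro p hp
      have hp' := hp
      rw [mem_coe, hG, mem_sigma, mem_filter] at hp'
      obtain ⟨hpB, hpL, hpf⟩ := hp'
      obtain ⟨hle, hlt'⟩ := hLle _ _ hpL
      have hfull : ini m (χ.F M p.2) p.1 = ini m (T.sec (r * q) (r • D₀) M) p.1 := by
        by_contra h
        exact hpf ⟨hle, h⟩
      have hsp := mem_specSet_of_full P₀ hQ hD hS hS' hM4 (hBE hpB) hfull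
      unfold specSet at hsp
      rw [mem_filter] at hsp
      obtain ⟨_, s', hs', hsl'⟩ := hsp
      have hint' : T.X.Int P (M * (r • D₀) P) s' := sec_int hS hS' (χ.F_le M _ hs')
      have hprod := χ.mul (M * N) M (M * l) p.2 _ hpow _ hs'
      have hpr := hpl.mul hpi hint' hsl'
      have hMn : (M : ℤ) * (N * (r • D₀) P) + M * (r • D₀) P =
          ((M * N + M : ℕ) : ℤ) * (r • D₀) P := by
        push_cast
        ring
      rw [hMn] at hpr
      -- the exponent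
      obtain ⟨p', hp'R, hp'E⟩ := mem_image.1 hpB
      have hpin := hRin p' hp'R
      have hkin := hin.smul M
      have hexp : M • expo (r * q) N j a b + p.1 =
          expo (r * q) (M * N + M) (M * j + p'.1) (M * a + p'.2.1) (M * b + p'.2.2) := by
        rw [expo_nsmul hin, ← hp'E, hE]
        simp only
        rw [expo_add hkin hpin]
      have hsum := hkin.add hpin
      have hEs : M • expo (r * q) N j a b + p.1 ∈ Eset (r * q) (M * N + M) := by
        rw [hexp]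
        exact mem_Eset.2 ⟨_, _, _, hsum, rfl⟩
      have hlw : lwE al be ga de (r * q) (M * N + M) (M • expo (r * q) N j a b + p.1) =
          M * lw al be ga de N j a b + lwE al be ga de (r * q) M p.1 := by
        rw [hexp, lwE_expo _ _ _ _ hsum, lw_add, lw_smul, ← hp'E, hE]
        simp only
        rw [lwE_expo _ _ _ _ hpin]
      rw [mem_coe, hV, mem_sigma, mem_filter]
      refine ⟨mem_image.2 ⟨p, hp, rfl⟩, ?_, ?_⟩
      · unfold specSet
        rw [mem_filter]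
        exact ⟨hEs, s ^ M * s', hprod, hpr⟩
      · simp only
        rw [hlw]
        have hM0 : (0 : ℤ) ≤ M := by positivity
        nlinarith
    · intro p _ p' _ h
      simp only [Sigma.mk.injEq, add_right_inj, heq_eq_eq] at h
      obtain ⟨h1, h2⟩ := h
      exact Sigma.ext h2 (heq_of_eq h1)
  have hfin : (M : ℝ) ^ 4 - C₂ * (M : ℝ) ^ 3 ≤ C₁ * ((M * N + M : ℕ) : ℝ) ^ 3 := by
    refine hGcard.trans (le_trans ?_ hVcard)
    exact_mod_cast hGV
  have h1 : ((M * N + M : ℕ) : ℝ) ^ 3 = ((N : ℝ) + 1) ^ 3 * (M : ℝ) ^ 3 := by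
    push_cast
    ring
  rw [h1] at hfin
  have h2 : (0 : ℝ) < (M : ℝ) ^ 3 := by positivity
  have h3 : (M : ℝ) * (M : ℝ) ^ 3 ≤ (C₂ + C₁ * ((N : ℝ) + 1) ^ 3) * (M : ℝ) ^ 3 := by
    nlinarith
  have h4 := le_of_mul_le_mul_right h3 h2
  linarith

end Filt

end Pool.Agent.YTD


end

/- source: Pool.Agent.YTD.ZeroFlag -/

section

/-!
Evaluation of bihomogeneous polynomials at pairs of points with complex coordinates, and
coordinates adapted to the Klein four group.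
-/

namespace Pool.Agent.YTD

open Finset Module MvPolynomial

variable {K : Type} [Field K] [Algebra ℂ K]

/-- evaluation at a pair of vectors with complex coordinates -/
noncomputable def evp (ξ η : Fin 2 → ℂ) : MvPolynomial (Fin 4) K →ₐ[K] K :=
  aeval ![algebraMap ℂ K (ξ 0), algebraMap ℂ K (ξ 1), algebraMap ℂ K (η 0), algebraMap ℂ K (η 1)]

theorem evp_monomial (ξ η : Fin 2 → ℂ) (e : Fin 4 →₀ ℕ) (c : K) :
    evp ξ η (monomial e c) =
      c * algebraMap ℂ K (ξ 0 ^ e 0 * ξ 1 ^ e 1 * (η 0 ^ e 2 * η 1 ^ e 3)) := by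
  unfold evp
  rw [aeval_monomial, Finsupp.prod_fintype _ _ (fun i => pow_zero _), Fin.prod_univ_four]
  simp only [map_mul, map_pow]
  show c * (algebraMap ℂ K (ξ 0) ^ e 0 * algebraMap ℂ K (ξ 1) ^ e 1 *
    algebraMap ℂ K (η 0) ^ e 2 * algebraMap ℂ K (η 1) ^ e 3) = _
  ring

theorem evp_eq (ξ η : Fin 2 → ℂ) (f : MvPolynomial (Fin 4) K) :
    evp ξ η f = ∑ e ∈ f.support, f.coeff e *
      algebraMap ℂ K (ξ 0 ^ e 0 * ξ 1 ^ e 1 * (η 0 ^ e 2 * η 1 ^ e 3)) := by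
  conv_lhs => rw [f.as_sum]
  rw [map_sum]
  exact sum_congr rfl fun e _ => evp_monomial ξ η e _

theorem evp_subst (g h : Matrix (Fin 2) (Fin 2) ℂ) (ξ η : Fin 2 → ℂ)
    (f : MvPolynomial (Fin 4) K) :
    evp ξ η (subst g h f) = evp (g.mulVec ξ) (h.mulVec η) f := by
  have key : (evp (K := K) ξ η).comp (subst g h) = evp (g.mulVec ξ) (h.mulVec η) := by
    apply MvPolynomial.algHom_ext
    intro i
    have hs : ∀ (x : ℂ) (p : MvPolynomial (Fin 4) K), evp ξ η (x • p) = x • evp ξ η p := by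
      intro x p
      exact ((evp (K := K) ξ η).toLinearMap.restrictScalars ℂ).map_smul x p
    have hi : i = 0 ∨ i = 1 ∨ i = 2 ∨ i = 3 := by
      fin_cases i <;> simp
    rw [AlgHom.comp_apply]
    rcases hi with rfl | rfl | rfl | rfl
    · rw [subst_X0, map_add, hs, hs]
      unfold evp
      rw [aeval_X, aeval_X, aeval_X]
      show g 0 0 • algebraMap ℂ K (ξ 0) + g 0 1 • algebraMap ℂ K (ξ 1) =
        algebraMap ℂ K ((g.mulVec ξ) 0)
      rw [Algebra.smul_def, Algebra.smul_def, ← map_mul, ← map_mul, ← map_add]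
      simp [Matrix.mulVec, dotProduct, Fin.sum_univ_two]
    · rw [subst_X1, map_add, hs, hs]
      unfold evp
      rw [aeval_X, aeval_X, aeval_X]
      show g 1 0 • algebraMap ℂ K (ξ 0) + g 1 1 • algebraMap ℂ K (ξ 1) =
        algebraMap ℂ K ((g.mulVec ξ) 1)
      rw [Algebra.smul_def, Algebra.smul_def, ← map_mul, ← map_mul, ← map_add]
      simp [Matrix.mulVec, dotProduct, Fin.sum_univ_two]
    · rw [subst_X2, map_add, hs, hs]
      unfold evp
      rw [aeval_X, aeval_X, aeval_X]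
      show h 0 0 • algebraMap ℂ K (η 0) + h 0 1 • algebraMap ℂ K (η 1) =
        algebraMap ℂ K ((h.mulVec η) 0)
      rw [Algebra.smul_def, Algebra.smul_def, ← map_mul, ← map_mul, ← map_add]
      simp [Matrix.mulVec, dotProduct, Fin.sum_univ_two]
    · rw [subst_X3, map_add, hs, hs]
      unfold evp
      rw [aeval_X, aeval_X, aeval_X]
      show h 1 0 • algebraMap ℂ K (η 0) + h 1 1 • algebraMap ℂ K (η 1) =
        algebraMap ℂ K ((h.mulVec η) 1)
      rw [Algebra.smul_def, Algebra.smul_def, ← map_mul, ← map_mul, ← map_add]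
      simp [Matrix.mulVec, dotProduct, Fin.sum_univ_two]
  exact congrArg (fun φ : MvPolynomial (Fin 4) K →ₐ[K] K => φ f) key

/-- if the value is not zero, some monomial does not vanish. -/
theorem exists_of_evp_ne {ξ η : Fin 2 → ℂ} {f : MvPolynomial (Fin 4) K} (h : evp ξ η f ≠ 0) :
    ∃ e, f.coeff e ≠ 0 ∧ (ξ 0 = 0 → e 0 = 0) ∧ (η 0 = 0 → e 2 = 0) := by
  rw [evp_eq] at h
  obtain ⟨e, _, he⟩ := exists_ne_zero_of_sum_ne_zero h
  refine ⟨e, left_ne_zero_of_mul he, ?_, ?_⟩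
  · intro h0
    by_contra h1
    apply right_ne_zero_of_mul he
    rw [h0, zero_pow h1]
    simp
  · intro h0
    by_contra h1
    apply right_ne_zero_of_mul he
    rw [h0, zero_pow h1]
    simp

/-- the value at the coordinate points of a bihomogeneous polynomial -/
theorem evp_coord {A B : ℕ} {f : MvPolynomial (Fin 4) K} (hf : f ∈ bih A B (⊤ : Submodule ℂ K))
    {e : Fin 4 →₀ ℕ} (h0 : e 0 = 0) (h1 : e 1 = A) (h2 : e 2 = 0) (h3 : e 3 = B) :
    evp ![0, 1] ![0, 1] f = f.coeff e := by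
  classical
  rw [evp_eq]
  have key : ∀ e' ∈ f.support, e' ≠ e → f.coeff e' * algebraMap ℂ K
      ((![0, 1] : Fin 2 → ℂ) 0 ^ e' 0 * (![0, 1] : Fin 2 → ℂ) 1 ^ e' 1 *
        ((![0, 1] : Fin 2 → ℂ) 0 ^ e' 2 * (![0, 1] : Fin 2 → ℂ) 1 ^ e' 3)) = 0 := by
    intro e' he' hne
    rw [MvPolynomial.mem_support_iff] at he'
    obtain ⟨g1, g2, _⟩ := hf e' he'
    by_cases k0 : e' 0 = 0
    · by_cases k2 : e' 2 = 0
      · exfalso
        apply hne
        ext i
        have hi : i = 0 ∨ i = 1 ∨ i = 2 ∨ i = 3 := by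
          fin_cases i <;> simp
        rcases hi with rfl | rfl | rfl | rfl <;> omega
      · rw [show (![0, 1] : Fin 2 → ℂ) 0 = 0 from rfl, zero_pow k2]
        simp
    · rw [show (![0, 1] : Fin 2 → ℂ) 0 = 0 from rfl, zero_pow k0]
      simp
  by_cases he : e ∈ f.support
  · rw [sum_eq_single_of_mem e he key, h0, h1, h2, h3]
    simp
  · rw [sum_eq_zero (fun e' he' => key e' he' (by
      rintro rfl
      exact he he')), MvPolynomial.notMem_support_iff.1 he]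

/-- a non-zero polynomial does not vanish at some complex point. -/
theorem exists_evp_ne {f : MvPolynomial (Fin 4) K} (hf : f ≠ 0) :
    ∃ ξ η : Fin 2 → ℂ, ξ 1 ≠ 0 ∧ η 1 ≠ 0 ∧ evp ξ η f ≠ 0 := by
  by_contra hcon
  push Not at hcon
  apply hf
  have hinj : Function.Injective (algebraMap ℂ K) := (algebraMap ℂ K).injective
  apply MvPolynomial.funext_set (fun _ => algebraMap ℂ K '' {x | x ≠ 0})
  · intro _
    apply Set.Infinite.image hinj.injOn
    have : ({x : ℂ | x ≠ 0}) = ({0} : Set ℂ)ᶜ := by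
      ext x
      simp
    rw [this]
    exact (Set.finite_singleton (0 : ℂ)).infinite_compl
  · intro x hx
    rw [map_zero]
    choose y hy using fun i => hx i (Set.mem_univ i)
    have h1 := hcon ![y 0, y 1] ![y 2, y 3] (hy 1).1 (hy 3).1
    have e : x = ![algebraMap ℂ K (y 0), algebraMap ℂ K (y 1), algebraMap ℂ K (y 2),
        algebraMap ℂ K (y 3)] := by
      ext i
      have hi : i = 0 ∨ i = 1 ∨ i = 2 ∨ i = 3 := by
        fin_cases i <;> simp
      rcases hi with rfl | rfl | rfl | rfl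
      · exact (hy 0).2.symm
      · exact (hy 1).2.symm
      · exact (hy 2).2.symm
      · exact (hy 3).2.symm
    rw [e]
    unfold evp at h1
    rw [aeval_eq_eval] at h1
    exact h1

/-- binary forms have zeros -/
theorem exists_root_form (A : ℕ) (hA : 0 < A) (c : ℕ → ℂ) :
    ∃ ξ : Fin 2 → ℂ, ξ ≠ 0 ∧ ∑ i ∈ range (A + 1), c i * (ξ 0 ^ i * ξ 1 ^ (A - i)) = 0 := by
  set p : Polynomial ℂ := ∑ i ∈ range (A + 1), Polynomial.C (c i) * Polynomial.X ^ i with hp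
  by_cases hroot : ∃ t, p.IsRoot t
  · obtain ⟨t, ht⟩ := hroot
    refine ⟨![t, 1], ?_, ?_⟩
    · intro h
      have := congrFun h 1
      simp at this
    · rw [Polynomial.IsRoot, hp, Polynomial.eval_finsetSum] at ht
      rw [← ht]
      apply sum_congr rfl
      intro i _
      simp
  · have hdeg : p.degree = 0 := by
      by_contra h
      exact hroot (IsAlgClosed.exists_root p h)
    refine ⟨![1, 0], ?_, ?_⟩
    · intro h
      have := congrFun h 0
      simp at this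
    · have h1 : p.coeff A = 0 := by
        apply Polynomial.coeff_eq_zero_of_degree_lt
        rw [hdeg]
        exact_mod_cast hA
      rw [hp, Polynomial.finsetSum_coeff] at h1
      simp only [Polynomial.coeff_C_mul, Polynomial.coeff_X_pow] at h1
      refine Eq.trans ?_ h1
      apply sum_congr rfl
      intro i hi
      rw [mem_range] at hi
      rw [show (![1, 0] : Fin 2 → ℂ) 0 = 1 from rfl, show (![1, 0] : Fin 2 → ℂ) 1 = 0 from rfl,
        one_pow, one_mul]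
      by_cases h : A = i
      · rw [if_pos h, h, Nat.sub_self, pow_zero]
      · rw [if_neg h, zero_pow (by omega)]

theorem exists_zero_left {A B : ℕ} (hA : 0 < A) {f : MvPolynomial (Fin 4) ℂ}
    (hf : f ∈ bih A B (⊤ : Submodule ℂ ℂ)) (η : Fin 2 → ℂ) :
    ∃ ξ : Fin 2 → ℂ, ξ ≠ 0 ∧ evp ξ η f = 0 := by
  classical
  obtain ⟨ξ, h1, h2⟩ := exists_root_form A hA
    (fun i => ∑ e ∈ f.support with e 0 = i, f.coeff e * (η 0 ^ e 2 * η 1 ^ e 3))
  refine ⟨ξ, h1, ?_⟩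
  rw [evp_eq, ← h2, ← sum_fiberwise_of_maps_to (s := f.support) (t := range (A + 1))
    (g := fun e => e 0) (by
      intro e he
      rw [MvPolynomial.mem_support_iff] at he
      obtain ⟨g1, _, _⟩ := hf e he
      rw [mem_range]
      omega)]
  apply sum_congr rfl
  intro i _
  rw [sum_mul]
  apply sum_congr rfl
  intro e he
  obtain ⟨he, hei⟩ := mem_filter.1 he
  rw [MvPolynomial.mem_support_iff] at he
  obtain ⟨g1, _, _⟩ := hf e he
  have e1 : e 1 = A - i := by omega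
  rw [hei, e1]
  simp only [Algebra.algebraMap_self, RingHom.id_apply]
  ring

theorem exists_zero_right {A B : ℕ} (hB : 0 < B) {f : MvPolynomial (Fin 4) ℂ}
    (hf : f ∈ bih A B (⊤ : Submodule ℂ ℂ)) (ξ : Fin 2 → ℂ) :
    ∃ η : Fin 2 → ℂ, η ≠ 0 ∧ evp ξ η f = 0 := by
  classical
  obtain ⟨η, h1, h2⟩ := exists_root_form B hB
    (fun i => ∑ e ∈ f.support with e 2 = i, f.coeff e * (ξ 0 ^ e 0 * ξ 1 ^ e 1))
  refine ⟨η, h1, ?_⟩
  rw [evp_eq, ← h2, ← sum_fiberwise_of_maps_to (s := f.support) (t := range (B + 1))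
    (g := fun e => e 2) (by
      intro e he
      rw [MvPolynomial.mem_support_iff] at he
      obtain ⟨_, g1, _⟩ := hf e he
      rw [mem_range]
      omega)]
  apply sum_congr rfl
  intro i _
  rw [sum_mul]
  apply sum_congr rfl
  intro e he
  obtain ⟨he, hei⟩ := mem_filter.1 he
  rw [MvPolynomial.mem_support_iff] at he
  obtain ⟨_, g1, _⟩ := hf e he
  have e1 : e 3 = B - i := by omega
  rw [hei, e1]
  simp only [Algebra.algebraMap_self, RingHom.id_apply]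
  ring

/-! ### Adapted coordinates -/

/-- the matrix with columns `s ξ` and `ξ` -/
def flagM (s : Matrix (Fin 2) (Fin 2) ℂ) (ξ : Fin 2 → ℂ) : Matrix (Fin 2) (Fin 2) ℂ :=
  !![s 0 0 * ξ 0 + s 0 1 * ξ 1, ξ 0; s 1 0 * ξ 0 + s 1 1 * ξ 1, ξ 1]

theorem flagM_mulVec (s : Matrix (Fin 2) (Fin 2) ℂ) (ξ : Fin 2 → ℂ) :
    (flagM s ξ).mulVec ![0, 1] = ξ := by
  ext i
  fin_cases i <;> simp [flagM, Matrix.mulVec, dotProduct, Fin.sum_univ_two]

/-- the three involutions -/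
def IsV (s : Matrix (Fin 2) (Fin 2) ℂ) (ε : ℂ) : Prop :=
  (s = s1 ∧ ε = 1) ∨ (s = s2 ∧ ε = 1) ∨ (s = s2 * s1 ∧ ε = -1)

theorem IsV.ne {s : Matrix (Fin 2) (Fin 2) ℂ} {ε : ℂ} (h : IsV s ε) : ε ≠ 0 := by
  rcases h with ⟨_, rfl⟩ | ⟨_, rfl⟩ | ⟨_, rfl⟩ <;> norm_num

theorem flagM_mul {s : Matrix (Fin 2) (Fin 2) ℂ} {ε : ℂ} (h : IsV s ε) (ξ : Fin 2 → ℂ) :
    flagM s ξ * !![0, 1; ε, 0] = s * flagM s ξ := by
  rcases h with ⟨rfl, rfl⟩ | ⟨rfl, rfl⟩ | ⟨rfl, rfl⟩ <;> ext i j <;> fin_cases i <;>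
    fin_cases j <;> simp [flagM, s1, s2, Matrix.mul_apply, Fin.sum_univ_two]

theorem exists_IsV {ξ η : Fin 2 → ℂ} (hξ : ξ ≠ 0) (hη : η ≠ 0) :
    ∃ s ε, IsV s ε ∧ IsUnit (flagM s ξ) ∧ IsUnit (flagM s η) := by
  have h1 : ∀ ζ : Fin 2 → ℂ, IsUnit (flagM s1 ζ) ↔ ζ 0 * ζ 1 ≠ 0 := by
    intro ζ
    rw [Matrix.isUnit_iff_isUnit_det, flagM, Matrix.det_fin_two_of, isUnit_iff_ne_zero]
    have : (s1 0 0 * ζ 0 + s1 0 1 * ζ 1) * ζ 1 - ζ 0 * (s1 1 0 * ζ 0 + s1 1 1 * ζ 1) =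
        2 * (ζ 0 * ζ 1) := by
      simp [s1]
      ring
    rw [this]
    simp
  have h2 : ∀ ζ : Fin 2 → ℂ, IsUnit (flagM s2 ζ) ↔ ζ 1 ^ 2 - ζ 0 ^ 2 ≠ 0 := by
    intro ζ
    rw [Matrix.isUnit_iff_isUnit_det, flagM, Matrix.det_fin_two_of, isUnit_iff_ne_zero]
    have : (s2 0 0 * ζ 0 + s2 0 1 * ζ 1) * ζ 1 - ζ 0 * (s2 1 0 * ζ 0 + s2 1 1 * ζ 1) =
        ζ 1 ^ 2 - ζ 0 ^ 2 := by
      simp [s2]
      ring
    rw [this]
  have h3 : ∀ ζ : Fin 2 → ℂ, IsUnit (flagM (s2 * s1) ζ) ↔ ζ 1 ^ 2 + ζ 0 ^ 2 ≠ 0 := by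
    intro ζ
    rw [Matrix.isUnit_iff_isUnit_det, flagM, Matrix.det_fin_two_of, isUnit_iff_ne_zero]
    have : ((s2 * s1) 0 0 * ζ 0 + (s2 * s1) 0 1 * ζ 1) * ζ 1 -
        ζ 0 * ((s2 * s1) 1 0 * ζ 0 + (s2 * s1) 1 1 * ζ 1) = -(ζ 1 ^ 2 + ζ 0 ^ 2) := by
      simp [s1, s2, Matrix.mul_apply, Fin.sum_univ_two]
      ring
    rw [this, neg_ne_zero]
  -- at most one of the three fails
  have hz : ∀ ζ : Fin 2 → ℂ, ζ 0 = 0 → ζ 1 = 0 → ζ = 0 := by
    intro ζ g0 g1
    ext i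
    fin_cases i
    · exact g0
    · exact g1
  have k12 : ∀ ζ : Fin 2 → ℂ, ζ ≠ 0 → ζ 0 * ζ 1 = 0 → ζ 1 ^ 2 - ζ 0 ^ 2 ≠ 0 := by
    intro ζ hζ g1 g2
    apply hζ
    rcases mul_eq_zero.1 g1 with g | g
    · rw [g] at g2
      have : ζ 1 ^ 2 = 0 := by linear_combination g2
      exact hz ζ g (pow_eq_zero_iff (by norm_num) |>.1 this)
    · rw [g] at g2
      have : ζ 0 ^ 2 = 0 := by linear_combination -g2
      exact hz ζ (pow_eq_zero_iff (by norm_num) |>.1 this) g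
  have k13 : ∀ ζ : Fin 2 → ℂ, ζ ≠ 0 → ζ 0 * ζ 1 = 0 → ζ 1 ^ 2 + ζ 0 ^ 2 ≠ 0 := by
    intro ζ hζ g1 g2
    apply hζ
    rcases mul_eq_zero.1 g1 with g | g
    · rw [g] at g2
      have : ζ 1 ^ 2 = 0 := by linear_combination g2
      exact hz ζ g (pow_eq_zero_iff (by norm_num) |>.1 this)
    · rw [g] at g2
      have : ζ 0 ^ 2 = 0 := by linear_combination g2
      exact hz ζ (pow_eq_zero_iff (by norm_num) |>.1 this) g
  have k23 : ∀ ζ : Fin 2 → ℂ, ζ ≠ 0 → ζ 1 ^ 2 - ζ 0 ^ 2 = 0 → ζ 1 ^ 2 + ζ 0 ^ 2 ≠ 0 := by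
    intro ζ hζ g1 g2
    apply hζ
    have e0 : ζ 0 ^ 2 = 0 := by linear_combination (g2 - g1) / 2
    have e1 : ζ 1 ^ 2 = 0 := by linear_combination (g2 + g1) / 2
    exact hz ζ (pow_eq_zero_iff (by norm_num) |>.1 e0) (pow_eq_zero_iff (by norm_num) |>.1 e1)
  by_cases a1 : ξ 0 * ξ 1 = 0
  · by_cases b2 : η 1 ^ 2 - η 0 ^ 2 = 0
    · exact ⟨_, _, Or.inr (Or.inr ⟨rfl, rfl⟩), (h3 ξ).2 (k13 ξ hξ a1), (h3 η).2 (k23 η hη b2)⟩
    · exact ⟨_, _, Or.inr (Or.inl ⟨rfl, rfl⟩), (h2 ξ).2 (k12 ξ hξ a1), (h2 η).2 b2⟩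
  · by_cases b1 : η 0 * η 1 = 0
    · by_cases a2 : ξ 1 ^ 2 - ξ 0 ^ 2 = 0
      · exact ⟨_, _, Or.inr (Or.inr ⟨rfl, rfl⟩), (h3 ξ).2 (k23 ξ hξ a2), (h3 η).2 (k13 η hη b1)⟩
      · exact ⟨_, _, Or.inr (Or.inl ⟨rfl, rfl⟩), (h2 ξ).2 a2, (h2 η).2 (k12 η hη b1)⟩
    · exact ⟨_, _, Or.inl ⟨rfl, rfl⟩, (h1 ξ).2 a1, (h1 η).2 b1⟩

variable {T : Datum K} {q : ℕ} {D₀ : T.X.Pt →₀ ℤ} {r : ℕ}

/-- The filtration is invariant under the Klein four group, acting also on the coefficients. -/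
def Filt.VInv (χ : Filt T q D₀ r) : Prop :=
  ∀ (s : Matrix (Fin 2) (Fin 2) ℂ) (ε : ℂ), IsV s ε → ∃ θ : K ≃ₐ[ℂ] K,
    ∀ N l, ∀ f ∈ χ.F N l, MvPolynomial.map (θ : K →+* K) (subst s s f) ∈ χ.F N l

theorem Filt.GamInv.vInv {χ : Filt T q D₀ r} {γ : Gam T} (h : χ.GamInv γ) : χ.VInv := by
  intro s ε hs
  rcases hs with ⟨rfl, _⟩ | ⟨rfl, _⟩ | ⟨rfl, _⟩
  · exact ⟨γ.θ₁, fun N l f hf => h.E₁ N l f hf⟩
  · exact ⟨γ.θ₂, fun N l f hf => h.E₂ N l f hf⟩
  · refine ⟨γ.θ₂.trans γ.θ₁, fun N l f hf => ?_⟩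
    have h1 := h.E₁ N l _ (h.E₂ N l f hf)
    rw [γ.E₁_eq, γ.E₂_apply, MvPolynomial.map_map] at h1
    have h2 : subst s1 s1 (MvPolynomial.map ((γ.θ₁ : K →+* K).comp (γ.θ₂ : K →+* K))
        (subst s2 s2 f)) = MvPolynomial.map (((γ.θ₂.trans γ.θ₁ : K ≃ₐ[ℂ] K)) : K →+* K)
          (subst s1 s1 (subst s2 s2 f)) :=
      (coefE_subst (γ.θ₂.trans γ.θ₁) s1 s1 (subst s2 s2 f)).symm
    rw [h2, subst_subst] at h1
    exact h1

/-- In adapted coordinates the involution becomes antidiagonal. -/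
theorem Filt.anti_stable {χ : Filt T q D₀ r} {s : Matrix (Fin 2) (Fin 2) ℂ} {ε : ℂ}
    (hs : IsV s ε) {θ : K ≃ₐ[ℂ] K}
    (hχ : ∀ N l, ∀ f ∈ χ.F N l, MvPolynomial.map (θ : K →+* K) (subst s s f) ∈ χ.F N l)
    (ξ η : Fin 2 → ℂ) (hg : IsUnit (flagM s ξ)) (hh : IsUnit (flagM s η)) :
    ∀ N l, ∀ f ∈ (χ.tw (substE K (flagM s ξ) (flagM s η) hg hh) (pres_substE hg hh)).F N l,
      MvPolynomial.map (θ : K →+* K) (subst !![0, 1; ε, 0] !![0, 1; ε, 0] f) ∈
        (χ.tw (substE K (flagM s ξ) (flagM s η) hg hh) (pres_substE hg hh)).F N l := by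
  rintro N l _ ⟨f, hf, rfl⟩
  have e1 : (substE K (flagM s ξ) (flagM s η) hg hh).toLinearMap f =
      subst (flagM s ξ) (flagM s η) f := rfl
  rw [e1, subst_subst, flagM_mul hs, flagM_mul hs, ← subst_subst]
  have e2 := coefE_subst θ (flagM s ξ) (flagM s η) (subst s s f)
  rw [coefE_apply, coefE_apply] at e2
  rw [e2]
  exact ⟨_, hχ N l f hf, rfl⟩

end Pool.Agent.YTD


end

/- source: Pool.Agent.YTD.TopLayer -/

section

/-!
The component of maximal degree in `x` and leading exponents of specializations.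
-/

namespace Pool.Agent.YTD

open Finset Module MvPolynomial

variable {K : Type} [Field K] [Algebra ℂ K]

/-- the component of degree `A` in `x₀, x₁` -/
noncomputable def xpart (A : ℕ) (f : MvPolynomial (Fin 4) K) : MvPolynomial (Fin 4) K :=
  ∑ e ∈ f.support with xd e = A, monomial e (f.coeff e)

theorem coeff_xpart (A : ℕ) (f : MvPolynomial (Fin 4) K) (e : Fin 4 →₀ ℕ) :
    (xpart A f).coeff e = if xd e = A then f.coeff e else 0 := by
  classical
  unfold xpart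
  rw [coeff_sum]
  simp only [coeff_monomial]
  rw [Finset.sum_ite_eq']
  by_cases h : xd e = A
  · rw [if_pos h]
    by_cases he : e ∈ f.support
    · rw [if_pos (mem_filter.2 ⟨he, h⟩)]
    · rw [if_neg (fun h' => he (mem_filter.1 h').1), MvPolynomial.notMem_support_iff.1 he]
  · rw [if_neg h, if_neg]
    intro h'
    exact h (mem_filter.1 h').2

theorem xpart_subst (g h : Matrix (Fin 2) (Fin 2) ℂ) (A : ℕ) (f : MvPolynomial (Fin 4) K) :
    xpart A (subst g h f) = subst g h (xpart A f) := by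
  classical
  ext e
  rw [coeff_xpart]
  have h1 : subst g h f = ∑ e' ∈ f.support, subst g h (monomial e' (f.coeff e')) := by
    conv_lhs => rw [f.as_sum]
    rw [map_sum]
  have h2 : subst g h (xpart A f) =
      ∑ e' ∈ f.support with xd e' = A, subst g h (monomial e' (f.coeff e')) := by
    unfold xpart
    rw [map_sum]
  have h3 : ∀ e' : Fin 4 →₀ ℕ, ∀ c : K, (subst g h (monomial e' c)).coeff e ≠ 0 →
      xd e = xd e' := by
    intro e' c hne
    exact (subst_monomial_mem g h (W := (⊤ : Submodule ℂ K)) (c := c) trivial e' e hne).1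
  rw [h1, h2, coeff_sum, coeff_sum]
  split_ifs with hA
  · rw [Finset.sum_filter]
    apply sum_congr rfl
    intro e' _
    split_ifs with hA'
    · rfl
    · by_contra hne
      exact hA' ((h3 e' _ hne).symm.trans hA)
  · symm
    apply sum_eq_zero
    intro e' he'
    by_contra hne
    exact hA ((h3 e' _ hne).trans (mem_filter.1 he').2)

theorem substU_injective {g h : Matrix (Fin 2) (Fin 2) ℂ} (hg : IsUnit g) (hh : IsUnit h) :
    Function.Injective (subst (K := K) g h) := (substE K g h hg hh).injective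

variable {T : Datum K} {q : ℕ} {D₀ : T.X.Pt →₀ ℤ} {r : ℕ}

/-- the coefficients after a substitution are combinations of the coefficients. -/
theorem coeff_subst_mem (g h : Matrix (Fin 2) (Fin 2) ℂ) {W : Submodule ℂ K}
    {f : MvPolynomial (Fin 4) K} (hf : ∀ e, f.coeff e ∈ W) (e : Fin 4 →₀ ℕ) :
    (subst g h f).coeff e ∈ W := by
  have h1 : subst g h f = ∑ e' ∈ f.support, subst g h (monomial e' (f.coeff e')) := by
    conv_lhs => rw [f.as_sum]
    rw [map_sum]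
  rw [h1, coeff_sum]
  refine sum_mem fun e' _ => ?_
  by_cases h2 : (subst g h (monomial e' (f.coeff e'))).coeff e = 0
  · rw [h2]
    exact zero_mem _
  · exact (subst_monomial_mem g h (hf e') e' e h2).2.2

namespace Filt

theorem sameLayers_tw (χ : Filt T q D₀ r) {g h g' h' : Matrix (Fin 2) (Fin 2) ℂ} (hg : IsUnit g)
    (hh : IsUnit h) (hg' : IsUnit g') (hh' : IsUnit h') :
    SameLayers (χ.tw (substE K g h hg hh) (pres_substE hg hh))
      (χ.tw (substE K g' h' hg' hh') (pres_substE hg' hh')) xd := by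
  have key : ∀ {g h : Matrix (Fin 2) (Fin 2) ℂ} (hg : IsUnit g) (hh : IsUnit h) (N : ℕ) (l : ℤ)
      (c : ℕ), finrank ℂ ((χ.tw (substE K g h hg hh) (pres_substE hg hh)).F N l ⊓ Wle xd c :
        Submodule ℂ (MvPolynomial (Fin 4) K)) =
        finrank ℂ (χ.F N l ⊓ Wle xd c : Submodule ℂ (MvPolynomial (Fin 4) K)) := by
    intro g h hg hh N l c
    have e : ((χ.tw (substE K g h hg hh) (pres_substE hg hh)).F N l ⊓ Wle xd c :
        Submodule ℂ (MvPolynomial (Fin 4) K)) =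
        (χ.F N l ⊓ Wle xd c : Submodule ℂ (MvPolynomial (Fin 4) K)).map
          (substE K g h hg hh).toLinearMap := by
      ext f
      constructor
      · rintro ⟨⟨f', hf', rfl⟩, hw⟩
        refine ⟨f', ⟨hf', ?_⟩, rfl⟩
        have h1 : (substE K g h hg hh).toLinearMap f' = subst g h f' := rfl
        rw [h1] at hw
        have h2 := subst_mem_Wle_xd g⁻¹ h⁻¹ hw
        rw [subst_subst, Matrix.mul_nonsing_inv _ ((Matrix.isUnit_iff_isUnit_det g).1 hg),
          Matrix.mul_nonsing_inv _ ((Matrix.isUnit_iff_isUnit_det h).1 hh), subst_one] at h2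
        exact h2
      · rintro ⟨f', ⟨hf', hw⟩, rfl⟩
        exact ⟨⟨f', hf', rfl⟩, subst_mem_Wle_xd g h hw⟩
    rw [e]
    exact (LinearEquiv.finrank_eq (Submodule.equivMapOfInjective _
      (autom_injective (substE K g h hg hh)) _)).symm
  intro N l c
  rw [key hg hh, key hg' hh']

end Filt

/-! ### The specialization -/

/-- the bidegree in the top layer of an element of the specialized section space -/
theorem xpart_mem_bih {Q N A : ℕ} {f : MvPolynomial (Fin 4) K}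
    (hf : ∀ e, f.coeff e ≠ 0 → e ∈ Eset Q N) :
    xpart A f ∈ bih A (50 * Q * N - A) (⊤ : Submodule ℂ K) := by
  intro e he
  rw [coeff_xpart] at he
  split_ifs at he with h
  · refine ⟨h, ?_, trivial⟩
    obtain ⟨j, a, b, h1, rfl⟩ := mem_Eset.1 (hf e he)
    have h2 := expo_sum_x h1
    have h3 := expo_sum_y h1
    have hQN : ((50 * Q * N : ℕ) : ℤ) = 2 * (25 * (Q : ℤ) * N) := by
      push_cast
      ring
    unfold xd at h
    rw [← h]
    generalize (25 * (Q : ℤ) * N) = u at *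
    generalize 50 * Q * N = v at *
    omega
  · exact (he rfl).elim

/-- the top layer of `P` -/
structure TopX (A : ℕ) (P : MvPolynomial (Fin 4) K) : Prop where
  le : P ∈ Wle xd A
  ne : xpart A P ≠ 0

theorem exists_topX {P : MvPolynomial (Fin 4) K} (hP : P ≠ 0) : ∃ A, TopX A P := by
  classical
  have hne : P.support.Nonempty := by
    rw [Finset.nonempty_iff_ne_empty]
    intro h
    exact hP (MvPolynomial.support_eq_empty.1 h)
  obtain ⟨e₀, he₀, hmax⟩ := P.support.exists_max_image xd hne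
  refine ⟨xd e₀, ?_, ?_⟩
  · intro e he
    exact hmax e (MvPolynomial.mem_support_iff.2 he)
  · intro h
    have h1 := coeff_xpart (xd e₀) P e₀
    rw [h, coeff_zero, if_pos rfl] at h1
    exact (MvPolynomial.mem_support_iff.1 he₀) h1.symm

theorem TopX.subst {A : ℕ} {P : MvPolynomial (Fin 4) K} (h : TopX A P)
    {g g' : Matrix (Fin 2) (Fin 2) ℂ} (hg : IsUnit g) (hg' : IsUnit g') :
    TopX A (subst g g' P) := by
  refine ⟨subst_mem_Wle_xd g g' h.le, ?_⟩
  rw [xpart_subst]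
  intro h0
  apply h.ne
  apply substU_injective hg hg'
  rw [h0, map_zero]

theorem TopX.xd_degree {A : ℕ} {P : MvPolynomial (Fin 4) K} (h : TopX A P)
    {m : MonomialOrder (Fin 4)} {E : Finset (Fin 4 →₀ ℕ)} (hm : Refines m xd E)
    (hP : ∀ e, P.coeff e ≠ 0 → e ∈ E) : xd (m.degree P) = A := by
  have hP0 : P ≠ 0 := by
    rintro rfl
    apply h.ne
    ext e
    rw [coeff_xpart]
    simp
  have h1 : P.coeff (m.degree P) ≠ 0 := MonomialOrder.coeff_degree_ne_zero_iff.2 hP0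
  apply le_antisymm (h.le _ h1)
  obtain ⟨e, he⟩ := MvPolynomial.ne_zero_iff.1 h.ne
  rw [coeff_xpart] at he
  split_ifs at he with hA
  · rw [← hA]
    exact hm _ (hP _ h1) e (hP e he) (m.le_degree (MvPolynomial.mem_support_iff.2 he))
  · exact (he rfl).elim

/-- no corner monomial at a zero -/
theorem no_corner {A B : ℕ} {P : MvPolynomial (Fin 4) K} {ξ η : Fin 2 → ℂ}
    (hz : evp ξ η (xpart A P) = 0) {g h : Matrix (Fin 2) (Fin 2) ℂ} (hg : g.mulVec ![0, 1] = ξ)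
    (hh : h.mulVec ![0, 1] = η) (hb' : xpart A (subst g h P) ∈ bih A B (⊤ : Submodule ℂ K))
    {e : Fin 4 →₀ ℕ} (he : (subst g h P).coeff e ≠ 0) (hA : xd e = A) (h0 : e 0 = 0)
    (h2 : e 2 = 0) : False := by
  have h1 : (xpart A (subst g h P)).coeff e ≠ 0 := by
    rw [coeff_xpart, if_pos hA]
    exact he
  obtain ⟨g1, g2, _⟩ := hb' e h1
  have h3 := evp_coord hb' h0 (by omega) h2 (by omega)
  rw [xpart_subst, evp_subst, hg, hh, hz] at h3
  rw [xpart_subst] at h1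
  exact h1 h3.symm

theorem exists_e2 {A : ℕ} {P : MvPolynomial (Fin 4) K} {x η : Fin 2 → ℂ}
    (hz : evp x η (xpart A P) ≠ 0) {g h : Matrix (Fin 2) (Fin 2) ℂ} (hg : IsUnit g)
    (hh : h.mulVec ![0, 1] = η) :
    ∃ e, (subst g h P).coeff e ≠ 0 ∧ xd e = A ∧ e 2 = 0 := by
  have h1 : evp (g⁻¹.mulVec x) ![0, 1] (xpart A (subst g h P)) ≠ 0 := by
    rw [xpart_subst, evp_subst, hh, Matrix.mulVec_mulVec,
      Matrix.mul_nonsing_inv _ ((Matrix.isUnit_iff_isUnit_det g).1 hg), Matrix.one_mulVec]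
    exact hz
  obtain ⟨e, he, _, h2⟩ := exists_of_evp_ne h1
  rw [coeff_xpart] at he
  split_ifs at he with hA
  · exact ⟨e, he, hA, h2 rfl⟩
  · exact (he rfl).elim

theorem exists_e0 {A : ℕ} {P : MvPolynomial (Fin 4) K} {ξ y : Fin 2 → ℂ}
    (hz : evp ξ y (xpart A P) ≠ 0) {g h : Matrix (Fin 2) (Fin 2) ℂ} (hh : IsUnit h)
    (hg : g.mulVec ![0, 1] = ξ) :
    ∃ e, (subst g h P).coeff e ≠ 0 ∧ xd e = A ∧ e 0 = 0 := by
  have h1 : evp ![0, 1] (h⁻¹.mulVec y) (xpart A (subst g h P)) ≠ 0 := by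
    rw [xpart_subst, evp_subst, hg, Matrix.mulVec_mulVec,
      Matrix.mul_nonsing_inv _ ((Matrix.isUnit_iff_isUnit_det h).1 hh), Matrix.one_mulVec]
    exact hz
  obtain ⟨e, he, h2, _⟩ := exists_of_evp_ne h1
  rw [coeff_xpart] at he
  split_ifs at he with hA
  · exact ⟨e, he, hA, h2 rfl⟩
  · exact (he rfl).elim

/-- Data of a section realizing the maximal slope together with its restriction to a general
fibre. -/
structure MaxData (χ : Filt T q D₀ r) (N₀ : ℕ) (l₀ : ℤ) (s : MvPolynomial (Fin 4) K)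
    (c : T.X.Pt) (ρ : K →ₗ[ℂ] ℂ) : Prop where
  N4 : 4 ≤ N₀
  mem : s ∈ χ.F N₀ l₀
  ne : s ≠ 0
  slope : χ.SlopeLe N₀ l₀
  hS : c ∉ T.S
  hS' : c ∉ T.S'
  hD : D₀ c = 0
  ord : ∀ e, s.coeff e ∈ T.X.ovan c 0
  res : ∀ z ∈ T.X.ovan c 0, (ρ z = 0 ↔ z ∈ T.X.ovan c 1)
  sne : specm ρ s ≠ 0

theorem TestConf.exists_maxData (χ : TestConf T q D₀ r) (P₀ : T.X.Pt) (hQ : 0 < r * q)
    (hD : T.X.deg (r • D₀) = 105 * T.t * ((r * q : ℕ) : ℤ)) :
    ∃ N₀ l₀ s c ρ, MaxData χ.toFilt N₀ l₀ s c ρ := by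
  classical
  obtain ⟨N₀, l₀, hN, ⟨s, hs, hs0⟩, hslope⟩ := χ.exists_max hQ hD
  obtain ⟨c, h1, h2, h3, h4⟩ := T.exists_general_point P₀ D₀ (s.support.image s.coeff)
  obtain ⟨P₁, hP₁⟩ := T.exists_ne_point c
  obtain ⟨ρ, hρ⟩ := T.X.exists_residue hP₁
  have hord : ∀ e, s.coeff e ≠ 0 → T.X.ord c (s.coeff e) = 0 := by
    intro e he
    exact h4 _ (mem_image.2 ⟨e, MvPolynomial.mem_support_iff.2 he, rfl⟩) he
  have hov : ∀ e, s.coeff e ∈ T.X.ovan c 0 := by
    intro e he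
    rw [hord e he]
  refine ⟨N₀, l₀, s, c, ρ, hN, hs, hs0, hslope, h1, h2, h3, hov, hρ, ?_⟩
  obtain ⟨e, he⟩ := MvPolynomial.ne_zero_iff.1 hs0
  intro h0
  have h5 := coeff_specm ρ s e
  rw [h0, coeff_zero] at h5
  have h6 := (hρ _ (hov e)).1 h5.symm
  have h7 := (T.X.mem_ovan).1 h6 he
  rw [hord e he] at h7
  norm_num at h7

/-- the specialization has exponents in the usual range -/
theorem MaxData.supp {χ : Filt T q D₀ r} {N₀ : ℕ} {l₀ : ℤ} {s : MvPolynomial (Fin 4) K}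
    {c : T.X.Pt} {ρ : K →ₗ[ℂ] ℂ} (h : MaxData χ N₀ l₀ s c ρ) (g g' : Matrix (Fin 2) (Fin 2) ℂ) :
    ∀ e, (subst g g' (specm ρ s)).coeff e ≠ 0 → e ∈ Eset (r * q) N₀ := by
  intro e he
  rw [← specm_subst, coeff_specm] at he
  have h1 : (subst g g' s).coeff e ≠ 0 := by
    intro h0
    rw [h0, map_zero] at he
    exact he rfl
  have h2 : subst g g' s ∈ T.sec (r * q) (r • D₀) N₀ := by
    rw [T.sec_mul]
    exact subst_mem_sec g g' (χ.le _ _ h.mem)
  exact T.mem_Eset_of_coeff h2 h1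

/-- The leading exponent of the specialization maximizes the affine weight. -/
theorem MaxData.argmax {χ : Filt T q D₀ r} {N₀ : ℕ} {l₀ : ℤ} {s : MvPolynomial (Fin 4) K}
    {c : T.X.Pt} {ρ : K →ₗ[ℂ] ℂ} (h : MaxData χ N₀ l₀ s c ρ) (hQ : 0 < r * q)
    (hDeg : T.X.deg (r • D₀) = 105 * T.t * ((r * q : ℕ) : ℤ))
    {g g' : Matrix (Fin 2) (Fin 2) ℂ} (hg : IsUnit g) (hg' : IsUnit g')
    {m : MonomialOrder (Fin 4)} {al be ga de : ℤ}
    (hR : (χ.tw (substE K g g' hg hg') (pres_substE hg hg')).Rigid m al be ga de)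
    {j : ℤ} {a b : ℕ} (hin : InR (r * q) N₀ j a b)
    (he : m.degree (subst g g' (specm ρ s)) = expo (r * q) N₀ j a b) :
    l₀ = lw al be ga de N₀ j a b ∧ ∀ j' a' b', InR (r * q) N₀ j' a' b' →
      lw al be ga de N₀ j' a' b' ≤ l₀ := by
  have hN0 : (0 : ℤ) < N₀ := by
    have := h.N4
    have : 0 < N₀ := by omega
    exact_mod_cast this
  have hup : ∀ j' a' b', InR (r * q) N₀ j' a' b' → lw al be ga de N₀ j' a' b' ≤ l₀ := by
    intro j' a' b' h'
    exact le_of_mul_le_mul_right (hR.lw_le c hQ hDeg (h.slope.tw _ _) h') hN0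
  refine ⟨le_antisymm ?_ (hup _ _ _ hin), hup⟩
  set P' := subst g g' (specm ρ s) with hP'
  have hP'0 : P' ≠ 0 := by
    intro h0
    apply h.sne
    apply substU_injective hg hg'
    rw [← hP', h0, map_zero]
  have hcoeff : ∀ e, P'.coeff e = ρ ((subst g g' s).coeff e) := by
    intro e
    rw [hP', ← specm_subst, coeff_specm]
  have hov : ∀ e, (subst g g' s).coeff e ∈ T.X.ovan c 0 := fun e => coeff_subst_mem g g' h.ord e
  have hs' : subst g g' s ∈ (χ.tw (substE K g g' hg hg') (pres_substE hg hg')).F N₀ l₀ :=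
    ⟨s, h.mem, rfl⟩
  have hrD : (r • D₀) c = 0 := by
    rw [Finsupp.smul_apply, h.hD, smul_zero]
  have hlc : P'.coeff (m.degree P') ≠ 0 := MonomialOrder.coeff_degree_ne_zero_iff.2 hP'0
  rw [hcoeff] at hlc
  have hlc0 : (subst g g' s).coeff (m.degree P') ≠ 0 := by
    intro h0
    rw [h0, map_zero] at hlc
    exact hlc rfl
  have hlead : T.X.SpecLead m c (N₀ * (r • D₀) c) (subst g g' s) (expo (r * q) N₀ j a b) := by
    rw [hrD, mul_zero, ← he]
    refine ⟨hlc0, ?_, ?_⟩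
    · have h1 : 0 ≤ T.X.ord c ((subst g g' s).coeff (m.degree P')) := (T.X.mem_ovan).1 (hov _) hlc0
      have h2 : ¬ (subst g g' s).coeff (m.degree P') ∈ T.X.ovan c 1 := by
        intro h3
        exact hlc ((h.res _ (hov _)).2 h3)
      have h3 : ¬ 1 ≤ T.X.ord c ((subst g g' s).coeff (m.degree P')) := by
        intro h4
        exact h2 (fun _ => h4)
      omega
    · intro e' hlt
      have h1 : P'.coeff e' = 0 := m.coeff_eq_zero_of_lt hlt
      rw [hcoeff] at h1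
      have h2 := (h.res _ (hov e')).1 h1
      intro h3
      have := h2 h3
      rw [neg_zero, zero_add]
      exact this
  exact hR.spec c hQ hDeg h.hS h.hS' hs' hin hlead

end Pool.Agent.YTD


end

/- source: Pool.Agent.YTD.NearMax -/

section

/-!
Near-maximal elements of two layers exclude opposite slopes for neighbouring orders.
-/

namespace Pool.Agent.YTD

open Finset Module MvPolynomial

variable {K : Type} [Field K] [Algebra ℂ K]
variable {T : Datum K} {q : ℕ} {D₀ : T.X.Pt →₀ ℤ} {r : ℕ}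

namespace Filt

variable {χ : Filt T q D₀ r}

/-- One layer. -/
theorem Rigid.near_step {u v : ℕ} (hu : 1 ≤ u) (hv : 1 ≤ v) {ga₁ de₁ ga₂ de₂ : ℤ}
    (hR₁ : χ.Rigid (mPlus (10 * v - 1) (10 * u)) (-u) v ga₁ de₁)
    (hR₂ : χ.Rigid (mPlus (10 * v + 1) (10 * u)) u (-v) ga₂ de₂)
    (hga : ga₁ = ga₂ + 3 * (u + v)) (hde : de₁ = de₂ + 25 * (r * q) * (u - v))
    (P₀ : T.X.Pt) (hQ : 0 < r * q)
    (hD : T.X.deg (r • D₀) = 105 * T.t * ((r * q : ℕ) : ℤ)) {k : ℤ} (hk0 : 0 ≤ k)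
    (hk : k ≤ 2 * ((r * q : ℕ) : ℤ)) {M : ℕ} (hM : 0 < M) :
    (10 * v - 1) * (25 * ((r * q : ℕ) : ℤ) + 3 * k) * M ≤
      10 * u * (25 * ((r * q : ℕ) : ℤ) - 3 * k) * M + (10 * v - 1) * (u + v + 2) ∧
    10 * u * (25 * ((r * q : ℕ) : ℤ) - 3 * k) * M ≤
      (10 * v + 1) * (25 * ((r * q : ℕ) : ℤ) + 3 * k) * M + 10 * u * (u + v + 2) := by
  set Q := r * q with hQdef
  have hQ' : (1 : ℤ) ≤ (Q : ℤ) := by exact_mod_cast hQ
  obtain ⟨n₀, hn₀⟩ := hR₁.exists_ne_bot P₀ hQ hD M hM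
  set n := n₀ + 4 with hn
  set N := M * n with hN
  have hn0 : (0 : ℤ) < n := by
    rw [hn]
    positivity
  have hM1 : (1 : ℤ) ≤ M := by exact_mod_cast hM
  have hNn : (N : ℤ) = M * n := by
    rw [hN]
    push_cast
    ring
  have hnN : (n : ℤ) ≤ N := by
    rw [hNn]
    exact le_mul_of_one_le_left hn0.le hM1
  have hN4 : 4 ≤ N := by
    have h1 : (4 : ℤ) ≤ n := by
      rw [hn]
      push_cast
      have : (0 : ℤ) ≤ n₀ := by positivity
      linarith
    have : (4 : ℤ) ≤ N := by linarith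
    exact_mod_cast this
  have hN0 : (0 : ℤ) ≤ N := by positivity
  have hkN : k * N ≤ 2 * (Q : ℤ) * N := mul_le_mul_of_nonneg_right hk hN0
  have hkN0 : 0 ≤ k * N := mul_nonneg hk0 hN0
  have hQN : (N : ℤ) ≤ Q * N := le_mul_of_one_le_left hN0 hQ'
  set j : ℤ := k * N with hj
  have hjr : |j| ≤ 5 * Q * N := by
    rw [abs_of_nonneg hkN0]
    linarith
  set B := BB Q N j with hB
  have hBc : (B : ℤ) = 25 * Q * N - 3 * j := BB_cast hjr
  have hnB : n ≤ B := by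
    have : (n : ℤ) ≤ B := by
      rw [hBc]
      linarith
    exact_mod_cast this
  have hBn : ((B - n : ℕ) : ℤ) = B - n := by
    push_cast [hnB]
    ring
  obtain ⟨a, ha, b, hb, hne⟩ := hn₀ n (by omega) j 0 (B - n)
    (v * B + ga₁ * j + de₁ * N - (u + v + 1) * n) (by
      intro a ha b hb
      have ha' : (a : ℤ) ≤ n := by exact_mod_cast ha
      have hb' : (b : ℤ) ≤ n := by exact_mod_cast hb
      have hb0 : (0 : ℤ) ≤ b := by positivity
      have hu0 : (0 : ℤ) ≤ u := by positivity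
      have hv0 : (0 : ℤ) ≤ v := by positivity
      change InR Q N j (0 + a) (B - n + b) ∧
        (v * B + ga₁ * j + de₁ * N - (u + v + 1) * n) + n ≤
          lw (-u) v ga₁ de₁ N j (0 + a) (B - n + b)
      have hBnb : ((B - n + b : ℕ) : ℤ) = B - n + b := by rw [Nat.cast_add, hBn]
      rw [zero_add]
      refine ⟨⟨hjr, ?_, ?_⟩, ?_⟩
      · linarith
      · rw [hBnb]
        linarith
      · unfold lw
        rw [hBnb]
        linarith only [mul_le_mul_of_nonneg_left ha' hu0, mul_nonneg hv0 hb0])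
  rw [zero_add, ← hN] at hne
  obtain ⟨c, hc, hc0⟩ := Submodule.exists_mem_ne_zero_of_ne_bot hne
  obtain ⟨f, hf, hlead, hcf⟩ := mem_ini.1 hc
  have hf0 : f ≠ 0 := by
    rintro rfl
    rw [coeff_zero] at hcf
    exact hc0 hcf.symm
  have hfe : f.coeff (expo Q N j a (B - n + b)) ≠ 0 := by
    rw [hcf]
    exact hc0
  have hin1 : InR Q N j a (B - n + b) := by
    rw [inR_iff hjr]
    refine ⟨?_, by omega⟩
    have h1 := AA_cast hjr
    have : (a : ℤ) ≤ AA Q N j := by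
      rw [h1]
      have ha' : (a : ℤ) ≤ n := by exact_mod_cast ha
      linarith
    exact_mod_cast this
  -- the second order
  obtain ⟨j', a', b', hin2, hdeg, hne2⟩ := χ.exists_degree_expo (mPlus (10 * v + 1) (10 * u)) hf hf0
  have hup := hR₂.upper N hN4 _ j' a' b' hin2 hne2
  have hc2 : f.coeff (expo Q N j' a' b') ≠ 0 := by
    rw [hQdef, ← hdeg]
    exact MonomialOrder.coeff_degree_ne_zero_iff.2 hf0
  have k1 := mPlus_le (hlead _ hc2)
  have k2 := mPlus_le ((mPlus (10 * v + 1) (10 * u)).le_degree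
    (MvPolynomial.mem_support_iff.2 hfe))
  rw [hdeg] at k2
  have x1 := expo_sum_x hin1
  have x2 := expo_sum_x hin2
  rw [expo_0, expo_1, expo_0, expo_1, expo_3, expo_3] at k1 k2
  rw [expo_0, expo_1] at x1 x2
  simp only [← hQdef] at k1 k2 x1 x2
  have hjj : j' = j ∧ (10 * v - 1) * a' + 10 * u * b' ≤ (10 * v - 1) * a + 10 * u * (B - n + b) ∧
      (10 * v + 1) * a + 10 * u * (B - n + b) ≤ (10 * v + 1) * a' + 10 * u * b' := by
    rcases k1 with k1 | ⟨k1, k1'⟩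
    · rcases k2 with k2 | ⟨k2, k2'⟩
      · omega
      · omega
    · rcases k2 with k2 | ⟨k2, k2'⟩
      · omega
      · exact ⟨by omega, k1', k2'⟩
  obtain ⟨hjj, kk1, kk2⟩ := hjj
  rw [hjj] at hin2 hup
  -- integers
  have i1 : (10 * (v : ℤ) - 1) * a' + 10 * u * b' ≤
      (10 * v - 1) * a + 10 * u * (B - n + b) := by
    have h1 : ((10 * v - 1 : ℕ) : ℤ) = 10 * v - 1 := by
      push_cast [show 1 ≤ 10 * v by omega]
      ring
    have h2 : (((10 * v - 1) * a' + 10 * u * b' : ℕ) : ℤ) ≤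
        (((10 * v - 1) * a + 10 * u * (B - n + b) : ℕ) : ℤ) := by exact_mod_cast kk1
    rw [Nat.cast_add, Nat.cast_mul, h1] at h2
    rw [Nat.cast_add, Nat.cast_mul, Nat.cast_mul, Nat.cast_mul, Nat.cast_mul, Nat.cast_mul,
      Nat.cast_add, hBn, h1] at h2
    push_cast at h2
    linarith
  have i2 : (10 * (v : ℤ) + 1) * a + 10 * u * (B - n + b) ≤
      (10 * v + 1) * a' + 10 * u * b' := by
    have h2 : (((10 * v + 1) * a + 10 * u * (B - n + b) : ℕ) : ℤ) ≤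
        (((10 * v + 1) * a' + 10 * u * b' : ℕ) : ℤ) := by exact_mod_cast kk2
    push_cast [hnB] at h2
    linarith
  have hA' : (a' : ℤ) ≤ 25 * Q * N + 3 * j := hin2.2.1
  have hu0 : (1 : ℤ) ≤ u := by exact_mod_cast hu
  have hv0 : (1 : ℤ) ≤ v := by exact_mod_cast hv
  have hb'0 : (0 : ℤ) ≤ b' := by positivity
  have ha0 : (0 : ℤ) ≤ a := by positivity
  have hb0 : (0 : ℤ) ≤ b := by positivity
  have han : (a : ℤ) ≤ n := by exact_mod_cast ha
  have hbn : (b : ℤ) ≤ n := by exact_mod_cast hb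
  have i3 : u * (25 * Q * N + 3 * j - a') + v * b' ≤ (u + v + 1) * (n : ℤ) := by
    unfold lw at hup
    rw [hga, hde, hBc] at hup
    rw [hQdef] at hup ⊢
    push_cast at hup ⊢
    linarith
  have i4 : 25 * Q * N + 3 * j - a' ≤ (u + v + 1) * (n : ℤ) := by
    have h1 : 0 ≤ 25 * (Q : ℤ) * N + 3 * j - a' := by linarith
    linarith only [i3, mul_nonneg (by linarith only [hu0] : (0 : ℤ) ≤ (u : ℤ) - 1) h1,
      mul_nonneg (by linarith only [hv0] : (0 : ℤ) ≤ (v : ℤ)) hb'0]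
  have i5 : (b' : ℤ) ≤ (u + v + 1) * (n : ℤ) := by
    have h1 : 0 ≤ 25 * (Q : ℤ) * N + 3 * j - a' := by linarith
    linarith only [i3, mul_nonneg (by linarith only [hu0] : (0 : ℤ) ≤ (u : ℤ)) h1,
      mul_nonneg (by linarith only [hv0] : (0 : ℤ) ≤ (v : ℤ) - 1) hb'0]
  have e1 : 25 * (Q : ℤ) * N + 3 * j = (25 * Q + 3 * k) * M * n := by
    rw [hj, hNn]
    ring
  have e2 : (B : ℤ) = (25 * Q - 3 * k) * M * n := by
    rw [hBc, hj, hNn]
    ring
  have p1 : (0 : ℤ) ≤ 10 * v - 1 := by linarith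
  constructor
  · have h1 : (n : ℤ) * ((10 * v - 1) * (25 * (Q : ℤ) + 3 * k) * M) ≤
        n * (10 * u * (25 * (Q : ℤ) - 3 * k) * M + (10 * v - 1) * (u + v + 2)) := by
      have h2 : (10 * (v : ℤ) - 1) * (25 * Q * N + 3 * j) ≤
          (10 * v - 1) * (a' + (u + v + 1) * n) := mul_le_mul_of_nonneg_left (by linarith) p1
      have h3 : (10 * (v : ℤ) - 1) * a ≤ (10 * v - 1) * n := mul_le_mul_of_nonneg_left han p1
      have h4 : 10 * (u : ℤ) * (B - n + b) ≤ 10 * u * B :=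
        mul_le_mul_of_nonneg_left (by linarith) (by positivity)
      have h5 : 0 ≤ 10 * (u : ℤ) * b' := by positivity
      rw [e1] at h2
      rw [e2] at h4 i1
      linarith
    exact le_of_mul_le_mul_left h1 hn0
  · have h1 : (n : ℤ) * (10 * u * (25 * (Q : ℤ) - 3 * k) * M) ≤
        n * ((10 * v + 1) * (25 * (Q : ℤ) + 3 * k) * M + 10 * u * (u + v + 2)) := by
      have h2 : (10 * (v : ℤ) + 1) * a' ≤ (10 * v + 1) * (25 * Q * N + 3 * j) :=
        mul_le_mul_of_nonneg_left hA' (by positivity)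
      have h3 : 0 ≤ (10 * (v : ℤ) + 1) * a := by positivity
      have h4 : 10 * (u : ℤ) * (B - n) ≤ 10 * u * (B - n + b) :=
        mul_le_mul_of_nonneg_left (by linarith) (by positivity)
      have h5 : 10 * (u : ℤ) * b' ≤ 10 * u * ((u + v + 1) * n) :=
        mul_le_mul_of_nonneg_left i5 (by positivity)
      rw [e1] at h2
      rw [e2] at h4 i2
      linarith
    exact le_of_mul_le_mul_left h1 hn0

theorem Rigid.near_max {u v : ℕ} (hu : 1 ≤ u) (hv : 1 ≤ v) {ga₁ de₁ ga₂ de₂ : ℤ}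
    (hR₁ : χ.Rigid (mPlus (10 * v - 1) (10 * u)) (-u) v ga₁ de₁)
    (hR₂ : χ.Rigid (mPlus (10 * v + 1) (10 * u)) u (-v) ga₂ de₂)
    (hga : ga₁ = ga₂ + 3 * (u + v)) (hde : de₁ = de₂ + 25 * (r * q) * (u - v))
    (P₀ : T.X.Pt) (hQ : 0 < r * q)
    (hD : T.X.deg (r • D₀) = 105 * T.t * ((r * q : ℕ) : ℤ)) : False := by
  have hu0 : (1 : ℤ) ≤ u := by exact_mod_cast hu
  have hv0 : (1 : ℤ) ≤ v := by exact_mod_cast hv
  have hQ' : (1 : ℤ) ≤ ((r * q : ℕ) : ℤ) := by exact_mod_cast hQ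
  set M : ℕ := (10 * u + 10 * v) * (u + v + 2) + 1 with hM
  have hMc : (M : ℤ) = (10 * u + 10 * v) * (u + v + 2) + 1 := by
    rw [hM]
    push_cast
    ring
  have hM0 : (0 : ℤ) < M := by
    rw [hMc]
    positivity
  have key : ∀ k : ℤ, 0 ≤ k → k ≤ 2 * ((r * q : ℕ) : ℤ) →
      10 * v * (25 * ((r * q : ℕ) : ℤ) + 3 * k) - 10 * u * (25 * ((r * q : ℕ) : ℤ) - 3 * k) ≤
        25 * ((r * q : ℕ) : ℤ) + 3 * k ∧
      10 * u * (25 * ((r * q : ℕ) : ℤ) - 3 * k) - 10 * v * (25 * ((r * q : ℕ) : ℤ) + 3 * k) ≤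
        25 * ((r * q : ℕ) : ℤ) + 3 * k := by
    intro k hk0 hk
    obtain ⟨h1, h2⟩ := hR₁.near_step hu hv hR₂ hga hde P₀ hQ hD hk0 hk (M := M) (by omega)
    have g1 : (10 * (v : ℤ) - 1) * (u + v + 2) < M := by
      rw [hMc]
      linarith only [mul_nonneg (by linarith only [hu0] : (0 : ℤ) ≤ 10 * (u : ℤ) + 1)
        (by linarith only [hu0, hv0] : (0 : ℤ) ≤ (u : ℤ) + v + 2)]
    have g2 : 10 * (u : ℤ) * (u + v + 2) < M := by
      rw [hMc]
      linarith only [mul_nonneg (by linarith only [hv0] : (0 : ℤ) ≤ 10 * (v : ℤ))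
        (by linarith only [hu0, hv0] : (0 : ℤ) ≤ (u : ℤ) + v + 2)]
    constructor
    · by_contra hcon
      push Not at hcon
      have h3 : 1 ≤ 10 * v * (25 * ((r * q : ℕ) : ℤ) + 3 * k) -
        10 * u * (25 * ((r * q : ℕ) : ℤ) - 3 * k) - (25 * ((r * q : ℕ) : ℤ) + 3 * k) := by linarith
      have h4 := mul_le_mul_of_nonneg_right h3 hM0.le
      linarith
    · by_contra hcon
      push Not at hcon
      have h3 : 1 ≤ 10 * u * (25 * ((r * q : ℕ) : ℤ) - 3 * k) -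
        10 * v * (25 * ((r * q : ℕ) : ℤ) + 3 * k) - (25 * ((r * q : ℕ) : ℤ) + 3 * k) := by linarith
      have h4 := mul_le_mul_of_nonneg_right h3 hM0.le
      linarith
  obtain ⟨h1, h2⟩ := key 0 le_rfl (by positivity)
  obtain ⟨h3, _⟩ := key (2 * ((r * q : ℕ) : ℤ)) (by positivity) le_rfl
  generalize ((r * q : ℕ) : ℤ) = Q at *
  have h4 : (v : ℤ) ≤ u := by
    by_contra hcon
    push Not at hcon
    linarith only [h1, hQ', mul_nonneg (by linarith only [hcon] : (0 : ℤ) ≤ (v : ℤ) - (u + 1))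
      (by linarith only [hQ'] : 0 ≤ Q)]
  have h5 : (u : ℤ) ≤ v := by
    by_contra hcon
    push Not at hcon
    linarith only [h2, hQ', mul_nonneg (by linarith only [hcon] : (0 : ℤ) ≤ (u : ℤ) - (v + 1))
      (by linarith only [hQ'] : 0 ≤ Q)]
  have h6 : (u : ℤ) = v := le_antisymm h5 h4
  rw [← h6] at h3
  linarith only [h3, hQ', mul_nonneg (by linarith only [hu0] : (0 : ℤ) ≤ (u : ℤ) - 1)
    (by linarith only [hQ'] : 0 ≤ Q)]

end Filt

end Pool.Agent.YTD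


end

/- source: Pool.Agent.YTD.FlagB5 -/

section

/-!
For orders refining the degree in `x` the slopes in the directions `a`, `b` vanish.
-/

namespace Pool.Agent.YTD

open Finset Module MvPolynomial

variable {K : Type} [Field K] [Algebra ℂ K]
variable {T : Datum K} {q : ℕ} {D₀ : T.X.Pt →₀ ℤ} {r : ℕ}

/-- the order refines the degree in `x` -/
def RefX (m : MonomialOrder (Fin 4)) : Prop := ∀ e e', m.toSyn e' ≤ m.toSyn e → xd e' ≤ xd e

theorem RefX.refines {m : MonomialOrder (Fin 4)} (h : RefX m) (E : Finset (Fin 4 →₀ ℕ)) :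
    Refines m xd E := fun e _ e' _ hle => h e e' hle

theorem refX_mPlus (r₁ r₂ : ℕ) : RefX (mPlus r₁ r₂) := by
  intro e e' h
  rcases mPlus_le h with h | ⟨h, _⟩
  · exact h.le
  · exact h.le

namespace Filt

/-- the twist by a pair of matrices -/
noncomputable def fl (χ : Filt T q D₀ r) {g h : Matrix (Fin 2) (Fin 2) ℂ} (hg : IsUnit g)
    (hh : IsUnit h) : Filt T q D₀ r := χ.tw (substE K g h hg hh) (pres_substE hg hh)

/-- All twists are rigid for all monomial orders. -/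
def AllRigid (χ : Filt T q D₀ r) : Prop :=
  ∀ (g h : Matrix (Fin 2) (Fin 2) ℂ) (hg : IsUnit g) (hh : IsUnit h)
    (m : MonomialOrder.{0, 0} (Fin 4)), ∃ al be ga de : ℤ, (χ.fl hg hh).Rigid m al be ga de

variable {χ : Filt T q D₀ r}

theorem cmpX (hD : T.X.deg D₀ = 105 * T.t * q) (hq : 0 < q) (hr : 0 < r)
    {g h g' h' : Matrix (Fin 2) (Fin 2) ℂ} (hg : IsUnit g) (hh : IsUnit h) (hg' : IsUnit g')
    (hh' : IsUnit h') {m m' : MonomialOrder (Fin 4)} (hm : RefX m) (hm' : RefX m')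
    {al be ga de al' be' ga' de' : ℤ} (hR : (χ.fl hg hh).Rigid m al be ga de)
    (hR' : (χ.fl hg' hh').Rigid m' al' be' ga' de') :
    3 * (al - be) + 2 * ga = 3 * (al' - be') + 2 * ga' ∧
    25 * (r * q) * (al + be) + 2 * de = 25 * (r * q) * (al' + be') + 2 * de' ∧
    al ^ 2 = al' ^ 2 ∧ be ^ 2 = be' ^ 2 :=
  hR.compare hR' hD hq hr (w := xd) (κ := fun N => AA (r * q) N)
    (fun N hN => layerWt_xd (Nat.mul_pos hr hq) (by omega)) (fun N _ => hm.refines _)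
    (fun N _ => hm'.refines _) (χ.sameLayers_tw hg hh hg' hh')

/-- Everything about one adapted flag and one order. -/
theorem flagdata (hΓ : χ.VInv)
    (H : χ.AllRigid) (hD : T.X.deg D₀ = 105 * T.t * q) (hq : 0 < q) (hr : 0 < r)
    {N₀ : ℕ} {l₀ : ℤ} {s : MvPolynomial (Fin 4) K} {c : T.X.Pt} {ρ : K →ₗ[ℂ] ℂ}
    (h : MaxData χ N₀ l₀ s c ρ) {A : ℕ} (hA : TopX A (specm ρ s)) {ξ η : Fin 2 → ℂ}
    (hz : evp ξ η (xpart A (specm ρ s)) = 0) {σ : Matrix (Fin 2) (Fin 2) ℂ} {ε : ℂ}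
    (hσ : IsV σ ε) (hg : IsUnit (flagM σ ξ)) (hh : IsUnit (flagM σ η)) (r₁ r₂ : ℕ) :
    ∃ al be ga de : ℤ, (χ.fl hg hh).Rigid (mPlus r₁ r₂) al be ga de ∧ 0 ≤ r₁ * al + r₂ * be ∧
      ∃ (j : ℤ) (a b : ℕ), InR (r * q) N₀ j a b ∧
      (mPlus r₁ r₂).degree (subst (flagM σ ξ) (flagM σ η) (specm ρ s)) =
        expo (r * q) N₀ j a b ∧ AA (r * q) N₀ j = A ∧
      (0 < al → a = AA (r * q) N₀ j) ∧ (0 < be → b = BB (r * q) N₀ j) ∧
      ¬ (a = AA (r * q) N₀ j ∧ b = BB (r * q) N₀ j) := by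
  obtain ⟨al, be, ga, de, hR⟩ := H _ _ hg hh (mPlus r₁ r₂)
  have hQ : 0 < r * q := Nat.mul_pos hr hq
  have hDeg := deg_crit_mul hD r
  refine ⟨al, be, ga, de, hR, ?_, ?_⟩
  · have hAnti : Anti !![(0 : ℂ), 1; ε, 0] := by
      refine ⟨rfl, rfl, ?_, ?_⟩
      · show (1 : ℂ) ≠ 0
        exact one_ne_zero
      · show ε ≠ 0
        exact hσ.ne
    obtain ⟨θ, hθ⟩ := hΓ σ ε hσ
    refine hR.sign_lex_map hD hq hr hAnti hAnti θ (anti_stable hσ hθ ξ η hg hh) r₁ r₂ xd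
      xd_swapE ?_
    intro N _ e _ e' _ hle
    exact mPlus_le hle
  · set P' := subst (flagM σ ξ) (flagM σ η) (specm ρ s) with hP'
    have hTop : TopX A P' := hA.subst hg hh
    have hsupp := h.supp (flagM σ ξ) (flagM σ η)
    have hP'0 : P' ≠ 0 := by
      intro h0
      apply hTop.ne
      rw [h0]
      ext e
      rw [coeff_xpart]
      simp
    have hlc : P'.coeff ((mPlus r₁ r₂).degree P') ≠ 0 :=
      MonomialOrder.coeff_degree_ne_zero_iff.2 hP'0
    obtain ⟨j, a, b, hin, hdeg⟩ := mem_Eset.1 (hsupp _ hlc)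
    obtain ⟨hmax, hup⟩ := h.argmax hQ hDeg hg hh hR hin hdeg
    have hxd := hTop.xd_degree ((refX_mPlus r₁ r₂).refines _) hsupp
    have hab := (inR_iff hin.1).1 hin
    rw [hdeg, xd_expo hab.1] at hxd
    refine ⟨j, a, b, hin, hdeg, hxd, ?_, ?_, ?_⟩
    · intro hal
      by_contra hne
      have hin' : InR (r * q) N₀ j (a + 1) b := (inR_iff hin.1).2 ⟨by omega, hab.2⟩
      have h1 := hup _ _ _ hin'
      rw [hmax] at h1
      unfold lw at h1
      push_cast at h1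
      linarith
    · intro hbe
      by_contra hne
      have hin' : InR (r * q) N₀ j a (b + 1) := (inR_iff hin.1).2 ⟨hab.1, by omega⟩
      have h1 := hup _ _ _ hin'
      rw [hmax] at h1
      unfold lw at h1
      push_cast at h1
      linarith
    · rintro ⟨ha, hb⟩
      rw [hdeg] at hlc
      refine no_corner (A := A) (B := 50 * (r * q) * N₀ - A) hz (flagM_mulVec σ ξ)
        (flagM_mulVec σ η) (xpart_mem_bih hsupp) hlc ?_ ?_ ?_
      · rw [xd_expo hab.1, hxd]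
      · rw [expo_0, ha, Nat.sub_self]
      · rw [expo_2, hb, Nat.sub_self]

theorem expo_of_e2 {Q N : ℕ} {e : Fin 4 →₀ ℕ} (he : e ∈ Eset Q N) {j : ℤ} (hj : |j| ≤ 5 * Q * N)
    (hx : xd e = AA Q N j) : e 2 + e 3 = BB Q N j := by
  obtain ⟨j', a, b, hin, rfl⟩ := mem_Eset.1 he
  have hab := (inR_iff hin.1).1 hin
  rw [xd_expo hab.1] at hx
  have h1 := AA_cast hin.1
  have h2 := AA_cast hj
  rw [hx] at h1
  have h3 : j' = j := by linarith
  subst h3
  rw [expo_2, expo_3]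
  omega

theorem al_be_zero (hΓ : χ.VInv)
    (H : χ.AllRigid) (hD : T.X.deg D₀ = 105 * T.t * q) (hq : 0 < q) (hr : 0 < r)
    {N₀ : ℕ} {l₀ : ℤ} {s : MvPolynomial (Fin 4) K} {c : T.X.Pt} {ρ : K →ₗ[ℂ] ℂ}
    (h : MaxData χ N₀ l₀ s c ρ) {g₀ h₀ : Matrix (Fin 2) (Fin 2) ℂ} (hg₀ : IsUnit g₀)
    (hh₀ : IsUnit h₀) {m₀ : MonomialOrder (Fin 4)} (hm₀ : RefX m₀) {al₀ be₀ ga₀ de₀ : ℤ}
    (hR₀ : (χ.fl hg₀ hh₀).Rigid m₀ al₀ be₀ ga₀ de₀) : al₀ = 0 ∧ be₀ = 0 := by
  have hQ : 0 < r * q := Nat.mul_pos hr hq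
  have hDeg := deg_crit_mul hD r
  obtain ⟨A, hA⟩ := exists_topX h.sne
  set P := specm ρ s with hP
  -- positivity of the bidegree
  have hsuppP : ∀ e, P.coeff e ≠ 0 → e ∈ Eset (r * q) N₀ := by
    have := h.supp 1 1
    intro e he
    apply this e
    rw [subst_one]
    exact he
  obtain ⟨e₁, he₁⟩ := MvPolynomial.ne_zero_iff.1 hA.ne
  rw [coeff_xpart] at he₁
  have hAB : 0 < A ∧ 0 < 50 * (r * q) * N₀ - A := by
    split_ifs at he₁ with hxA
    · obtain ⟨j, a, b, hin, rfl⟩ := mem_Eset.1 (hsuppP _ he₁)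
      have hab := (inR_iff hin.1).1 hin
      rw [xd_expo hab.1] at hxA
      have h1 := AA_cast hin.1
      have h2 := hin.1
      rw [abs_le] at h2
      have hN : (4 : ℤ) ≤ N₀ := by exact_mod_cast h.N4
      have hQ' : (1 : ℤ) ≤ ((r * q : ℕ) : ℤ) := by exact_mod_cast hQ
      have hQN : (4 : ℤ) ≤ ((r * q : ℕ) : ℤ) * N₀ :=
        hN.trans (le_mul_of_one_le_left (by linarith only [hN]) hQ')
      rw [hxA] at h1
      have e1 : ((50 * (r * q) * N₀ : ℕ) : ℤ) = 50 * (((r * q : ℕ) : ℤ) * N₀) := by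
        push_cast
        ring
      have e2 : 25 * ((r * q : ℕ) : ℤ) * N₀ = 25 * (((r * q : ℕ) : ℤ) * N₀) := by ring
      have e3 : 5 * ((r * q : ℕ) : ℤ) * N₀ = 5 * (((r * q : ℕ) : ℤ) * N₀) := by ring
      rw [e2] at h1
      rw [e3] at h2
      generalize ((r * q : ℕ) : ℤ) * N₀ = x at *
      generalize 50 * (r * q) * N₀ = y at *
      omega
    · exact (he₁ rfl).elim
  have hbih : xpart A P ∈ bih A (50 * (r * q) * N₀ - A) (⊤ : Submodule ℂ ℂ) :=
    xpart_mem_bih hsuppP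
  obtain ⟨x, y, _, hy1, hxy⟩ := exists_evp_ne hA.ne
  have hx0 : x ≠ 0 := by
    rintro rfl
    apply hxy
    rw [evp_eq]
    apply sum_eq_zero
    intro e he
    rw [MvPolynomial.mem_support_iff] at he
    obtain ⟨g1, _, _⟩ := hbih e he
    have : e 0 ≠ 0 ∨ e 1 ≠ 0 := by omega
    rcases this with h1 | h1
    · simp [zero_pow h1]
    · simp [zero_pow h1]
  have hy0 : y ≠ 0 := by
    rintro rfl
    exact hy1 rfl
  -- the first zero
  obtain ⟨ξ, hξ, hzξ⟩ := exists_zero_left hAB.1 hbih y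
  obtain ⟨σ, ε, hσ, hg, hh⟩ := exists_IsV hξ hy0
  -- the second zero
  obtain ⟨η, hη, hzη⟩ := exists_zero_right hAB.2 hbih x
  obtain ⟨σ', ε', hσ', hg', hh'⟩ := exists_IsV hx0 hη
  by_cases hal : al₀ = 0
  · refine ⟨hal, ?_⟩
    by_contra hbe
    subst hal
    set R := 50 * (r * q) * N₀ + 1 with hRdef
    obtain ⟨al, be, ga, de, hR, hsign, j, a, b, hin, hdeg, hAj, ha, hb, hno⟩ :=
      flagdata hΓ H hD hq hr h hA hzη hσ' hg' hh' R 1
    obtain ⟨_, _, c1, c2⟩ := cmpX hD hq hr hg' hh' hg₀ hh₀ (refX_mPlus R 1) hm₀ hR hR₀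
    have hal0 : al = 0 := by
      have : al ^ 2 = 0 := by rw [c1]; ring
      exact pow_eq_zero_iff (by norm_num) |>.1 this
    rw [hal0] at hsign
    have hbe0 : be ≠ 0 := by
      rintro rfl
      apply hbe
      have : be₀ ^ 2 = 0 := by rw [← c2]; ring
      exact pow_eq_zero_iff (by norm_num) |>.1 this
    have hbe1 : 0 < be := by
      have : 0 ≤ be := by
        push_cast at hsign
        linarith
      omega
    apply hno
    refine ⟨?_, hb hbe1⟩
    obtain ⟨e, he, hxe, he0⟩ := exists_e0 (g := flagM σ' x) (h := flagM σ' η) (y := y) hxy hh'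
      (flagM_mulVec σ' x)
    have hle := mPlus_le ((mPlus R 1).le_degree (MvPolynomial.mem_support_iff.2 he))
    rw [hdeg, expo_0, expo_1, expo_3] at hle
    have hab := (inR_iff hin.1).1 hin
    unfold xd at hxe
    rw [he0, zero_add] at hxe
    have h1 := expo_of_e2 (h.supp _ _ e he) hin.1 (by unfold xd; rw [he0, zero_add, hxe, hAj])
    rcases hle with hle | ⟨_, hle⟩
    · omega
    · have hBB : BB (r * q) N₀ j ≤ 50 * (r * q) * N₀ := by
        have k1 := BB_cast hin.1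
        have k2 := hin.1
        rw [abs_le] at k2
        have : (BB (r * q) N₀ j : ℤ) ≤ ((50 * (r * q) * N₀ : ℕ) : ℤ) := by
          rw [k1]
          push_cast at k2 ⊢
          have : (0 : ℤ) ≤ (r : ℤ) * q * N₀ := by positivity
          linarith only [k2.1, this]
        exact_mod_cast this
      by_contra hne
      have h2 : a + 1 ≤ e 1 := by omega
      have h3 : R * (a + 1) ≤ R * e 1 := Nat.mul_le_mul_left R h2
      rw [Nat.mul_add, Nat.mul_one] at h3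
      omega
  · exfalso
    by_cases hbe : be₀ = 0
    · subst hbe
      set R := 50 * (r * q) * N₀ + 1 with hRdef
      obtain ⟨al, be, ga, de, hR, hsign, j, a, b, hin, hdeg, hAj, ha, hb, hno⟩ :=
        flagdata hΓ H hD hq hr h hA hzξ hσ hg hh 1 R
      obtain ⟨_, _, c1, c2⟩ := cmpX hD hq hr hg hh hg₀ hh₀ (refX_mPlus 1 R) hm₀ hR hR₀
      have hbe0 : be = 0 := by
        have : be ^ 2 = 0 := by rw [c2]; ring
        exact pow_eq_zero_iff (by norm_num) |>.1 this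
      rw [hbe0] at hsign
      have hal0 : al ≠ 0 := by
        rintro rfl
        apply hal
        have : al₀ ^ 2 = 0 := by rw [← c1]; ring
        exact pow_eq_zero_iff (by norm_num) |>.1 this
      have hal1 : 0 < al := by
        have : 0 ≤ al := by
          push_cast at hsign
          linarith
        omega
      apply hno
      refine ⟨ha hal1, ?_⟩
      obtain ⟨e, he, hxe, he2⟩ := exists_e2 (g := flagM σ ξ) (h := flagM σ y) (x := x) hxy hg
        (flagM_mulVec σ y)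
      have hle := mPlus_le ((mPlus 1 R).le_degree (MvPolynomial.mem_support_iff.2 he))
      rw [hdeg, expo_0, expo_1, expo_3] at hle
      have hab := (inR_iff hin.1).1 hin
      have h1 := expo_of_e2 (h.supp _ _ e he) hin.1 (by rw [hxe, hAj])
      rw [he2, zero_add] at h1
      unfold xd at hxe
      rcases hle with hle | ⟨_, hle⟩
      · omega
      · have hAA : AA (r * q) N₀ j ≤ 50 * (r * q) * N₀ := by
          rw [hAj]
          omega
        by_contra hne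
        have h2 : b + 1 ≤ e 3 := by omega
        have h3 : R * (b + 1) ≤ R * e 3 := Nat.mul_le_mul_left R h2
        rw [Nat.mul_add, Nat.mul_one] at h3
        omega
    · -- both slopes are non-zero
      set u := al₀.natAbs with hu
      set v := be₀.natAbs with hv
      have hu1 : 1 ≤ u := by omega
      have hv1 : 1 ≤ v := by omega
      have hu2 : al₀ ^ 2 = (u : ℤ) ^ 2 := by rw [hu, Int.natAbs_sq]
      have hv2 : be₀ ^ 2 = (v : ℤ) ^ 2 := by rw [hv, Int.natAbs_sq]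
      have hu1' : (1 : ℤ) ≤ u := by exact_mod_cast hu1
      have hv1' : (1 : ℤ) ≤ v := by exact_mod_cast hv1
      obtain ⟨al₁, be₁, ga₁, de₁, hR₁, hsign₁, j₁, a₁, b₁, _, _, _, ha₁, hb₁, hno₁⟩ :=
        flagdata hΓ H hD hq hr h hA hzξ hσ hg hh (10 * v - 1) (10 * u)
      obtain ⟨al₂, be₂, ga₂, de₂, hR₂, hsign₂, j₂, a₂, b₂, _, _, _, ha₂, hb₂, hno₂⟩ :=
        flagdata hΓ H hD hq hr h hA hzξ hσ hg hh (10 * v + 1) (10 * u)
      obtain ⟨_, _, c1, c2⟩ := cmpX hD hq hr hg hh hg₀ hh₀ (refX_mPlus _ _) hm₀ hR₁ hR₀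
      obtain ⟨_, _, c1', c2'⟩ := cmpX hD hq hr hg hh hg₀ hh₀ (refX_mPlus _ _) hm₀ hR₂ hR₀
      rw [hu2] at c1 c1'
      rw [hv2] at c2 c2'
      have hc : ((10 * v - 1 : ℕ) : ℤ) = 10 * v - 1 := by
        push_cast [show 1 ≤ 10 * v by omega]
        ring
      rw [hc] at hsign₁
      push_cast at hsign₁ hsign₂
      have g1 : al₁ = -u ∧ be₁ = v := by
        rcases sq_eq_sq_iff_eq_or_eq_neg.1 c1 with h1 | h1 <;>
        rcases sq_eq_sq_iff_eq_or_eq_neg.1 c2 with h2 | h2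
        · exact (hno₁ ⟨ha₁ (by linarith), hb₁ (by linarith)⟩).elim
        · rw [h1, h2] at hsign₁
          linarith only [hsign₁, hu1']
        · exact ⟨h1, h2⟩
        · rw [h1, h2] at hsign₁
          linarith only [hsign₁, hu1', mul_nonneg (by linarith only [hu1'] : (0 : ℤ) ≤ (u : ℤ))
            (by linarith only [hv1'] : (0 : ℤ) ≤ (v : ℤ) - 1)]
      have g2 : al₂ = u ∧ be₂ = -v := by
        rcases sq_eq_sq_iff_eq_or_eq_neg.1 c1' with h1 | h1 <;>
        rcases sq_eq_sq_iff_eq_or_eq_neg.1 c2' with h2 | h2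
        · exact (hno₂ ⟨ha₂ (by linarith), hb₂ (by linarith)⟩).elim
        · exact ⟨h1, h2⟩
        · rw [h1, h2] at hsign₂
          linarith only [hsign₂, hu1']
        · rw [h1, h2] at hsign₂
          linarith only [hsign₂, hu1', mul_nonneg (by linarith only [hu1'] : (0 : ℤ) ≤ (u : ℤ))
            (by linarith only [hv1'] : (0 : ℤ) ≤ (v : ℤ))]
      obtain ⟨rfl, rfl⟩ := g1
      obtain ⟨rfl, rfl⟩ := g2
      obtain ⟨d1, d2, _, _⟩ := cmpX hD hq hr hg hh hg hh (refX_mPlus _ _) (refX_mPlus _ _) hR₁ hR₂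
      exact hR₁.near_max hu1 hv1 hR₂ (by linarith) (by linarith) c hQ hDeg

/-- For all orders refining the degree in `x` and all flags the weight is the same multiple of
`j` plus the same multiple of `N`. -/
theorem exists_sc (hΓ : χ.VInv)
    (H : χ.AllRigid) (hD : T.X.deg D₀ = 105 * T.t * q) (hq : 0 < q) (hr : 0 < r)
    {N₀ : ℕ} {l₀ : ℤ} {s : MvPolynomial (Fin 4) K} {c : T.X.Pt} {ρ : K →ₗ[ℂ] ℂ}
    (h : MaxData χ N₀ l₀ s c ρ) : ∃ s' c' : ℤ, ∀ (g h : Matrix (Fin 2) (Fin 2) ℂ)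
      (hg : IsUnit g) (hh : IsUnit h) (m : MonomialOrder.{0, 0} (Fin 4)), RefX m →
      (χ.fl hg hh).Rigid m 0 0 s' c' := by
  obtain ⟨al, be, ga, de, hR⟩ := H 1 1 isUnit_one isUnit_one (mPlus 1 1)
  obtain ⟨rfl, rfl⟩ := al_be_zero hΓ H hD hq hr h isUnit_one isUnit_one (refX_mPlus 1 1) hR
  refine ⟨ga, de, ?_⟩
  intro g h' hg hh m hm
  obtain ⟨al, be, ga', de', hR'⟩ := H g h' hg hh m
  obtain ⟨rfl, rfl⟩ := al_be_zero hΓ H hD hq hr h hg hh hm hR'
  obtain ⟨d1, d2, _, _⟩ := cmpX hD hq hr hg hh isUnit_one isUnit_one hm (refX_mPlus 1 1) hR' hR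
  have e1 : ga' = ga := by linarith
  have e2 : de' = de := by linarith
  rw [← e1, ← e2]
  exact hR'

end Filt

end Pool.Agent.YTD


end

/- source: Pool.Agent.YTD.TauRigid -/

section

/-!
Transport of rigidity by the involution exchanging `x` and `y`.
-/

namespace Pool.Agent.YTD

open Finset Module MvPolynomial

variable {K : Type} [Field K] [Algebra ℂ K]
variable {T : Datum K} {q : ℕ} {D₀ : T.X.Pt →₀ ℤ} {r : ℕ}

/-- the exchange of the exponents of `x` and `y` -/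
noncomputable def sweE : (Fin 4 →₀ ℕ) ≃+ (Fin 4 →₀ ℕ) where
  toFun := Inv.swe
  invFun := Inv.swe
  left_inv := Inv.swe_swe
  right_inv := Inv.swe_swe
  map_add' e e' := by
    ext i
    rw [Inv.swe_apply, Finsupp.add_apply, Finsupp.add_apply, Inv.swe_apply, Inv.swe_apply]

/-- the monomial order transported by the exchange of `x` and `y` -/
noncomputable def tauOrd (m : MonomialOrder (Fin 4)) : MonomialOrder (Fin 4) where
  syn := m.syn
  toSyn := sweE.trans m.toSyn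
  toSyn_monotone := by
    intro e e' h
    apply m.toSyn_monotone
    intro i
    show Inv.swe e i ≤ Inv.swe e' i
    rw [Inv.swe_apply, Inv.swe_apply]
    exact h _

theorem tauOrd_toSyn (m : MonomialOrder (Fin 4)) (e : Fin 4 →₀ ℕ) :
    (tauOrd m).toSyn e = m.toSyn (Inv.swe e) := rfl

theorem swe_expo (Q N : ℕ) (j : ℤ) (a b : ℕ) :
    Inv.swe (expo Q N j a b) = expo Q N (-j) b a := by
  ext i
  rw [Inv.swe_apply]
  have hi : i = 0 ∨ i = 1 ∨ i = 2 ∨ i = 3 := by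
    fin_cases i <;> simp
  rcases hi with rfl | rfl | rfl | rfl
  · rw [Inv.swp_0, expo_2, expo_0, AA_neg]
  · rw [Inv.swp_1, expo_3, expo_1]
  · rw [Inv.swp_2, expo_0, expo_2, BB_neg]
  · rw [Inv.swp_3, expo_1, expo_3]

theorem InR.neg {Q N : ℕ} {j : ℤ} {a b : ℕ} (h : InR Q N j a b) : InR Q N (-j) b a := by
  obtain ⟨h1, h2, h3⟩ := h
  exact ⟨by rw [abs_neg]; exact h1, by linarith, by linarith⟩

theorem ini_tau (ι : Inv T) (m : MonomialOrder (Fin 4))
    (U : Submodule ℂ (MvPolynomial (Fin 4) K)) (e : Fin 4 →₀ ℕ) :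
    ini (tauOrd m) (U.map ι.tauE.toLinearMap) (Inv.swe e) =
      (ini m U e).map (ι.θ.toLinearMap : K →ₗ[ℂ] K) := by
  ext z
  constructor
  · intro hz
    obtain ⟨f, ⟨f', hf', rfl⟩, h1, h2⟩ := mem_ini.1 hz
    refine ⟨f'.coeff e, mem_ini.2 ⟨f', hf', ?_, rfl⟩, ?_⟩
    · intro e' he'
      have h3 := h1 (Inv.swe e') (by
        show (ι.tauE f').coeff (Inv.swe e') ≠ 0
        rw [ι.coeff_tauE, Inv.swe_swe]
        intro h0
        exact he' ((map_eq_zero ι.θ).1 h0))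
      rw [tauOrd_toSyn, tauOrd_toSyn, Inv.swe_swe, Inv.swe_swe] at h3
      exact h3
    · rw [← h2]
      show ι.θ (f'.coeff e) = (ι.tauE f').coeff (Inv.swe e)
      rw [ι.coeff_tauE, Inv.swe_swe]
  · rintro ⟨w, hw, rfl⟩
    obtain ⟨f', hf', h1, rfl⟩ := mem_ini.1 hw
    refine mem_ini.2 ⟨ι.tauE f', ⟨f', hf', rfl⟩, ?_, ?_⟩
    · intro e' he'
      rw [ι.coeff_tauE] at he'
      rw [tauOrd_toSyn, tauOrd_toSyn, Inv.swe_swe]
      apply h1
      intro h0
      apply he'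
      rw [h0, map_zero]
    · rw [ι.coeff_tauE, Inv.swe_swe]
      rfl

theorem finrank_ini_tau (ι : Inv T) (m : MonomialOrder (Fin 4))
    (U : Submodule ℂ (MvPolynomial (Fin 4) K)) (e : Fin 4 →₀ ℕ) :
    finrank ℂ (ini (tauOrd m) (U.map ι.tauE.toLinearMap) (Inv.swe e)) =
      finrank ℂ (ini m U e) := by
  rw [ini_tau]
  exact (LinearEquiv.finrank_eq (Submodule.equivMapOfInjective _
    (show Function.Injective (ι.θ.toLinearMap : K →ₗ[ℂ] K) from ι.θ.injective) _)).symm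

theorem tau_subst (ι : Inv T) (g h : Matrix (Fin 2) (Fin 2) ℂ) (f : MvPolynomial (Fin 4) K) :
    ι.tauE (subst g h f) = subst h g (ι.tauE f) := by
  have hX : ∀ i, ι.tauE (X i : MvPolynomial (Fin 4) K) = X (Inv.swp i) := by
    intro i
    rw [ι.tauE_apply, rename_X, map_X]
  have hC : ∀ z, ι.tauE (C z : MvPolynomial (Fin 4) K) = C (ι.θ z) := by
    intro z
    rw [ι.tauE_apply, rename_C, map_C]
    rfl
  have hsC : ∀ (g h : Matrix (Fin 2) (Fin 2) ℂ) (z : K),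
      subst g h (C z : MvPolynomial (Fin 4) K) = C z := by
    intro g h z
    rw [← MvPolynomial.algebraMap_eq, AlgHom.commutes]
  have key : (ι.tauE : MvPolynomial (Fin 4) K →+* MvPolynomial (Fin 4) K).comp
      ((subst (K := K) g h) : MvPolynomial (Fin 4) K →+* MvPolynomial (Fin 4) K) =
      ((subst (K := K) h g) : MvPolynomial (Fin 4) K →+* MvPolynomial (Fin 4) K).comp
        (ι.tauE : MvPolynomial (Fin 4) K →+* MvPolynomial (Fin 4) K) := by
    apply MvPolynomial.ringHom_ext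
    · intro z
      show ι.tauE (subst g h (C z)) = subst h g (ι.tauE (C z))
      rw [hsC, hC, hsC]
    · intro i
      show ι.tauE (subst g h (X i)) = subst h g (ι.tauE (X i))
      have hi : i = 0 ∨ i = 1 ∨ i = 2 ∨ i = 3 := by
        fin_cases i <;> simp
      rcases hi with rfl | rfl | rfl | rfl
      · rw [subst_X0, map_add, map_smul, map_smul, hX, hX, Inv.swp_0, Inv.swp_1, subst_X2]
      · rw [subst_X1, map_add, map_smul, map_smul, hX, hX, Inv.swp_0, Inv.swp_1, subst_X3]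
      · rw [subst_X2, map_add, map_smul, map_smul, hX, hX, Inv.swp_2, Inv.swp_3, subst_X0]
      · rw [subst_X3, map_add, map_smul, map_smul, hX, hX, Inv.swp_2, Inv.swp_3, subst_X1]
  exact congrArg (fun φ : MvPolynomial (Fin 4) K →+* MvPolynomial (Fin 4) K => φ f) key

namespace Filt

theorem Rigid.tau {χ χ' : Filt T q D₀ r} (ι : Inv T) (hD : T.X.deg D₀ = 105 * T.t * q)
    (hq : 0 < q) (hr : 0 < r)
    (hF : ∀ N l, χ'.F N l = (χ.F N l).map ι.tauE.toLinearMap) (hlam : χ'.lam = χ.lam)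
    {m : MonomialOrder (Fin 4)} {al be ga de : ℤ} (hR : χ.Rigid m al be ga de) :
    χ'.Rigid (tauOrd m) be al (-ga) de := by
  have hlw : ∀ (N : ℕ) (j : ℤ) (a b : ℕ),
      lw be al (-ga) de N j a b = lw al be ga de N (-j) b a := by
    intro N j a b
    unfold lw
    ring
  have hsw : ∀ (N : ℕ) (j : ℤ) (a b : ℕ), expo (r * q) N j a b =
      Inv.swe (expo (r * q) N (-j) b a) := by
    intro N j a b
    rw [swe_expo, neg_neg]
  refine ⟨?_, ?_⟩
  · intro N hN l j a b hin hne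
    rw [hlw]
    apply hR.upper N hN l (-j) b a hin.neg
    intro h0
    apply hne
    rw [hF, hsw, ini_tau, h0, Submodule.map_bot]
  · obtain ⟨C, hC⟩ := hR.full
    refine ⟨C, fun N hN => le_trans (le_of_eq ?_) (hC N hN)⟩
    rw [hlam]
    have e1 := sum_JJ_neg (r * q) N (fun j => ∑ a ∈ range (AA (r * q) N j + 1),
      ∑ b ∈ range (BB (r * q) N j + 1),
        ∑ l ∈ Ioc (-((χ.lam : ℤ) * N)) (lw be al (-ga) de N j a b),
          ((finrank ℂ (T.V (r * q) (r • D₀) N j) : ℝ) -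
            finrank ℂ (ini (tauOrd m) (χ'.F N l) (expo (r * q) N j a b))))
    unfold JJ at e1
    rw [← e1]
    apply sum_congr rfl
    intro j hj
    rw [AA_neg, BB_neg, sum_comm]
    apply sum_congr rfl
    intro b _
    apply sum_congr rfl
    intro a _
    rw [hlw, neg_neg]
    apply sum_congr rfl
    intro l _
    have e2 : (finrank ℂ (T.V (r * q) (r • D₀) N (-j)) : ℝ) =
        finrank ℂ (T.V (r * q) (r • D₀) N j) := χ.vdim_neg hD hq hr hN hj
    rw [e2, hF, hsw, neg_neg, finrank_ini_tau]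

theorem fl_F (χ : Filt T q D₀ r) {g h : Matrix (Fin 2) (Fin 2) ℂ} (hg : IsUnit g)
    (hh : IsUnit h) (N : ℕ) (l : ℤ) :
    (χ.fl hg hh).F N l = (χ.F N l).map (substE K g h hg hh).toLinearMap := rfl

theorem fl_tau (χ : Filt T q D₀ r) (ι : Inv T) (P₀ : T.X.Pt) (hfix : ι.Fixes D₀)
    (htau : ∀ N l, ∀ f ∈ χ.F N l, ι.tauE f ∈ χ.F N l) {g h : Matrix (Fin 2) (Fin 2) ℂ}
    (hg : IsUnit g) (hh : IsUnit h) (N : ℕ) (l : ℤ) :
    (χ.fl hh hg).F N l = ((χ.fl hg hh).F N l).map ι.tauE.toLinearMap := by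
  have h1 : (χ.tw ι.tauE (ι.pres_tauE hfix)).F N l = χ.F N l :=
    Stable.tw_F_eq χ P₀ (E := ι.tauE) (hE := ι.pres_tauE hfix) htau N l
  rw [tw_F] at h1
  rw [fl_F, fl_F, ← Submodule.map_comp]
  conv_lhs => rw [← h1]
  rw [← Submodule.map_comp]
  congr 1
  refine LinearMap.ext fun f => ?_
  show subst h g (ι.tauE f) = ι.tauE (subst g h f)
  rw [tau_subst]

theorem rigid_fl_tau (χ : Filt T q D₀ r) (ι : Inv T) (P₀ : T.X.Pt) (hfix : ι.Fixes D₀)
    (hD : T.X.deg D₀ = 105 * T.t * q) (hq : 0 < q) (hr : 0 < r)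
    (htau : ∀ N l, ∀ f ∈ χ.F N l, ι.tauE f ∈ χ.F N l) {g h : Matrix (Fin 2) (Fin 2) ℂ}
    (hg : IsUnit g) (hh : IsUnit h) {m : MonomialOrder (Fin 4)} {al be ga de : ℤ}
    (hR : (χ.fl hg hh).Rigid m al be ga de) :
    (χ.fl hh hg).Rigid (tauOrd m) be al (-ga) de :=
  hR.tau ι hD hq hr (χ.fl_tau ι P₀ hfix htau hg hh) (by
    unfold fl
    rw [lam_tw, lam_tw])

end Filt

end Pool.Agent.YTD


end

/- source: Pool.Agent.YTD.SlopeB6 -/

section

/-!
The slope in the direction `j` vanishes.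
-/

namespace Pool.Agent.YTD

open Finset Module MvPolynomial

variable {K : Type} [Field K] [Algebra ℂ K]
variable {T : Datum K} {q : ℕ} {D₀ : T.X.Pt →₀ ℤ} {r : ℕ}

theorem inR_vertex (Q N : ℕ) (ε : ℤ) (hε : ε = 1 ∨ ε = -1) : InR Q N (ε * (5 * Q * N)) 0 0 := by
  have h : (0 : ℤ) ≤ Q * N := by positivity
  have e5 : 5 * (Q : ℤ) * N = 5 * (Q * N) := by ring
  have e25 : 25 * (Q : ℤ) * N = 25 * (Q * N) := by ring
  unfold InR
  rw [e5, e25]
  generalize (Q : ℤ) * N = x at *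
  rcases hε with rfl | rfl
  · rw [one_mul, abs_of_nonneg (by positivity)]
    push_cast
    exact ⟨le_rfl, by linarith, by linarith⟩
  · rw [neg_mul, one_mul, abs_neg, abs_of_nonneg (by positivity)]
    push_cast
    exact ⟨le_rfl, by linarith, by linarith⟩

namespace Filt

variable {χ : Filt T q D₀ r}

/-- The leading exponent of the section of maximal slope, for a form depending on `j` only. -/
theorem MaxData_lead {N₀ : ℕ} {l₀ : ℤ} {s : MvPolynomial (Fin 4) K} {c : T.X.Pt}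
    {ρ : K →ₗ[ℂ] ℂ} (h : MaxData χ N₀ l₀ s c ρ) (hD : T.X.deg D₀ = 105 * T.t * q) (hq : 0 < q)
    (hr : 0 < r) {g g' : Matrix (Fin 2) (Fin 2) ℂ} (hg : IsUnit g) (hg' : IsUnit g')
    {m : MonomialOrder (Fin 4)} {ga de : ℤ} (hR : (χ.fl hg hg').Rigid m 0 0 ga de) :
    ∃ j a b, InR (r * q) N₀ j a b ∧ m.degree (subst g g' s) = expo (r * q) N₀ j a b ∧
      |ga| * (5 * ((r * q : ℕ) : ℤ) * N₀) ≤ ga * j := by
  have hQ : 0 < r * q := Nat.mul_pos hr hq
  have hs' : subst g g' s ∈ (χ.fl hg hg').F N₀ l₀ := ⟨s, h.mem, rfl⟩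
  have hs0 : subst g g' s ≠ 0 := by
    intro h0
    apply h.ne
    apply substU_injective hg hg'
    rw [h0, map_zero]
  obtain ⟨j, a, b, hin, hdeg, hne⟩ := (χ.fl hg hg').exists_degree_expo m hs' hs0
  refine ⟨j, a, b, hin, hdeg, ?_⟩
  have h1 := hR.upper N₀ h.N4 l₀ j a b hin hne
  have hN0 : (0 : ℤ) < N₀ := by
    have := h.N4
    have : 0 < N₀ := by omega
    exact_mod_cast this
  have hup : ∀ ε : ℤ, (ε = 1 ∨ ε = -1) →
      ga * (ε * (5 * ((r * q : ℕ) : ℤ) * N₀)) + de * N₀ ≤ l₀ := by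
    intro ε hε
    have h2 := hR.lw_le c hQ (deg_crit_mul hD r) (h.slope.tw _ _) (inR_vertex (r * q) N₀ ε hε)
    have h3 := le_of_mul_le_mul_right h2 hN0
    unfold lw at h3
    linarith
  have h2 := hup 1 (Or.inl rfl)
  have h3 := hup (-1) (Or.inr rfl)
  unfold lw at h1
  rcases abs_cases ga with ⟨h4, _⟩ | ⟨h4, _⟩
  · rw [h4]
    linarith
  · rw [h4]
    linarith

theorem slope_nonneg (ι : Inv T) (hfix : ι.Fixes D₀)
    (htau : ∀ N l, ∀ f ∈ χ.F N l, ι.tauE f ∈ χ.F N l)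
    (hD : T.X.deg D₀ = 105 * T.t * q) (hq : 0 < q) (hr : 0 < r)
    {N₀ : ℕ} {l₀ : ℤ} {s : MvPolynomial (Fin 4) K} {c : T.X.Pt} {ρ : K →ₗ[ℂ] ℂ}
    (h : MaxData χ N₀ l₀ s c ρ) {s' c' : ℤ}
    (hR : (χ.fl isUnit_one isUnit_one).Rigid (mPlus 1 1) 0 0 s' c') : 0 ≤ s' := by
  by_contra hneg
  push Not at hneg
  have hQN : (0 : ℤ) < ((r * q : ℕ) : ℤ) * N₀ := by
    have h1 : 0 < r * q := Nat.mul_pos hr hq
    have h2 : 0 < N₀ := by
      have := h.N4
      omega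
    have := Nat.mul_pos h1 h2
    exact_mod_cast this
  obtain ⟨j, a, b, hin, hdeg, hj⟩ := MaxData_lead h hD hq hr isUnit_one isUnit_one hR
  have hR2 := χ.rigid_fl_tau ι c hfix hD hq hr htau isUnit_one isUnit_one hR
  obtain ⟨j', a', b', hin', hdeg', hj'⟩ := MaxData_lead h hD hq hr isUnit_one isUnit_one hR2
  rw [abs_neg, abs_of_neg hneg] at hj'
  rw [abs_of_neg hneg] at hj
  have e5 : 5 * ((r * q : ℕ) : ℤ) * N₀ = 5 * (((r * q : ℕ) : ℤ) * N₀) := by ring
  rw [e5] at hj hj'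
  have k1 : j ≤ -(5 * (((r * q : ℕ) : ℤ) * N₀)) := by
    by_contra hcon
    push Not at hcon
    nlinarith
  have k2 : 5 * (((r * q : ℕ) : ℤ) * N₀) ≤ j' := by
    by_contra hcon
    push Not at hcon
    nlinarith
  -- both are exponents of the same section
  set s'' := subst (1 : Matrix (Fin 2) (Fin 2) ℂ) 1 s with hs''
  have hs0 : s'' ≠ 0 := by
    rw [hs'', subst_one]
    exact h.ne
  have hc' : s''.coeff (expo (r * q) N₀ j' a' b') ≠ 0 := by
    rw [← hdeg']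
    exact MonomialOrder.coeff_degree_ne_zero_iff.2 hs0
  have hle := refX_mPlus 1 1 _ _ ((mPlus 1 1).le_degree (MvPolynomial.mem_support_iff.2 hc'))
  rw [hdeg, xd_expo ((inR_iff hin.1).1 hin).1, xd_expo ((inR_iff hin'.1).1 hin').1] at hle
  have h1 := AA_cast hin.1
  have h2 := AA_cast hin'.1
  have h3 : (AA (r * q) N₀ j' : ℤ) ≤ AA (r * q) N₀ j := by exact_mod_cast hle
  linarith

theorem slope_nonpos (ι : Inv T) (hfix : ι.Fixes D₀)
    (htau : ∀ N l, ∀ f ∈ χ.F N l, ι.tauE f ∈ χ.F N l) (H : χ.AllRigid)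
    (hD : T.X.deg D₀ = 105 * T.t * q) (hq : 0 < q) (hr : 0 < r)
    {N₀ : ℕ} {l₀ : ℤ} {s : MvPolynomial (Fin 4) K} {c : T.X.Pt} {ρ : K →ₗ[ℂ] ℂ}
    (h : MaxData χ N₀ l₀ s c ρ) {s' c' : ℤ}
    (hR : ∀ (g h : Matrix (Fin 2) (Fin 2) ℂ) (hg : IsUnit g) (hh : IsUnit h),
      (χ.fl hg hh).Rigid (mPlus 1 1) 0 0 s' c') : s' ≤ 0 := by
  by_contra hpos
  push Not at hpos
  have hQ : 0 < r * q := Nat.mul_pos hr hq
  have hQN : (0 : ℤ) < ((r * q : ℕ) : ℤ) * N₀ := by
    have h2 : 0 < N₀ := by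
      have := h.N4
      omega
    have := Nat.mul_pos hQ h2
    exact_mod_cast this
  have e5 : 5 * ((r * q : ℕ) : ℤ) * N₀ = 5 * (((r * q : ℕ) : ℤ) * N₀) := by ring
  have e25 : 25 * ((r * q : ℕ) : ℤ) * N₀ = 25 * (((r * q : ℕ) : ℤ) * N₀) := by ring
  -- the top layer
  obtain ⟨j, a, b, hin, hdeg, hj⟩ :=
    MaxData_lead h hD hq hr isUnit_one isUnit_one (hR 1 1 isUnit_one isUnit_one)
  rw [abs_of_pos hpos, e5] at hj
  have hjeq : j = 5 * (((r * q : ℕ) : ℤ) * N₀) := by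
    apply le_antisymm
    · have := (abs_le.1 hin.1).2
      linarith
    · exact le_of_mul_le_mul_left hj hpos
  obtain ⟨A, hA⟩ := exists_topX h.ne
  have hsupp : ∀ e, s.coeff e ≠ 0 → e ∈ Eset (r * q) N₀ := by
    intro e he
    have h2 : s ∈ T.sec (r * q) (r • D₀) N₀ := by
      rw [T.sec_mul]
      exact χ.le _ _ h.mem
    exact T.mem_Eset_of_coeff h2 he
  have hxd := hA.xd_degree ((refX_mPlus 1 1).refines _) hsupp
  rw [subst_one] at hdeg
  rw [hdeg, xd_expo ((inR_iff hin.1).1 hin).1] at hxd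
  have hAc : (A : ℤ) = 40 * (((r * q : ℕ) : ℤ) * N₀) := by
    rw [← hxd, AA_cast hin.1, hjeq]
    ring
  -- a flag in which the top layer is not divisible by `x₀`
  obtain ⟨ξ, η, hξ1, _, hne⟩ := exists_evp_ne hA.ne
  set g : Matrix (Fin 2) (Fin 2) ℂ := !![1, ξ 0; 0, ξ 1] with hgdef
  have hg : IsUnit g := by
    rw [Matrix.isUnit_iff_isUnit_det, hgdef, Matrix.det_fin_two_of, isUnit_iff_ne_zero]
    simpa using hξ1
  have hgξ : g.mulVec ![0, 1] = ξ := by
    ext i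
    fin_cases i <;> simp [hgdef, Matrix.mulVec, dotProduct, Fin.sum_univ_two]
  obtain ⟨e, he, hxe, he0⟩ := exists_e0 (h := 1) hne isUnit_one hgξ
  -- the forms for `w-` and `wx`
  have hR2 := χ.rigid_fl_tau ι c hfix hD hq hr htau isUnit_one hg (hR 1 g isUnit_one hg)
  obtain ⟨al, be, ga, de, hRX⟩ := H g 1 hg isUnit_one mX
  obtain ⟨rfl, rfl, rfl, rfl⟩ := hRX.wx_eq hR2 hpos.le hD hq hr (by
    intro N _ e _ e' _ hle
    exact mX_le hle)
  obtain ⟨j', a', b', hin', hdeg', hj'⟩ := MaxData_lead h hD hq hr hg isUnit_one hRX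
  rw [abs_neg, abs_of_pos hpos, e5] at hj'
  have k2 : j' ≤ -(5 * (((r * q : ℕ) : ℤ) * N₀)) := by
    by_contra hcon
    push Not at hcon
    nlinarith
  -- compare the weights
  have hle := mX_le (mX.le_degree (MvPolynomial.mem_support_iff.2 he))
  rw [hdeg', expo_1, expo_2, expo_3] at hle
  have hsupp' : e ∈ Eset (r * q) N₀ := by
    have h2 : subst g 1 s ∈ T.sec (r * q) (r • D₀) N₀ := by
      rw [T.sec_mul]
      exact subst_mem_sec g 1 (χ.le _ _ h.mem)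
    exact T.mem_Eset_of_coeff h2 he
  have hye := expo_of_e2 hsupp' hin.1 (by rw [hxe, hxd])
  have hBc := BB_cast hin.1
  have hBc' := BB_cast hin'.1
  have hab' := (inR_iff hin'.1).1 hin'
  unfold xd at hxe
  rw [he0, zero_add] at hxe
  rw [e25] at hBc hBc'
  rw [hjeq] at hBc
  have ha' := hin'.2.1
  rw [e25] at ha'
  have m1 : ((BB (r * q) N₀ j' - b' : ℕ) : ℤ) = BB (r * q) N₀ j' - b' := by
    push_cast [hab'.2]
    ring
  have m2 : (3 * e 1 + 2 * e 2 + 2 * e 3 : ℤ) ≤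
      3 * a' + 2 * ((BB (r * q) N₀ j' - b' : ℕ) : ℤ) + 2 * b' := by exact_mod_cast hle
  have m3 : (e 1 : ℤ) = 40 * (((r * q : ℕ) : ℤ) * N₀) := by
    rw [← hAc]
    exact_mod_cast hxe
  have m4 : (e 2 : ℤ) + e 3 = BB (r * q) N₀ j := by exact_mod_cast hye
  rw [m1] at m2
  linarith

/-- The weight is constant. -/
theorem exists_const (hΓ : χ.VInv) (ι : Inv T) (hfix : ι.Fixes D₀)
    (htau : ∀ N l, ∀ f ∈ χ.F N l, ι.tauE f ∈ χ.F N l) (H : χ.AllRigid)
    (hD : T.X.deg D₀ = 105 * T.t * q) (hq : 0 < q) (hr : 0 < r)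
    {N₀ : ℕ} {l₀ : ℤ} {s : MvPolynomial (Fin 4) K} {c : T.X.Pt} {ρ : K →ₗ[ℂ] ℂ}
    (h : MaxData χ N₀ l₀ s c ρ) :
    ∃ c' : ℤ, (χ.fl isUnit_one isUnit_one).Rigid (mPlus 1 1) 0 0 0 c' := by
  obtain ⟨s', c', hR⟩ := exists_sc hΓ H hD hq hr h
  have h1 := slope_nonneg ι hfix htau hD hq hr h (hR 1 1 isUnit_one isUnit_one _ (refX_mPlus 1 1))
  have h2 := slope_nonpos ι hfix htau H hD hq hr h
    (fun g h' hg hh => hR g h' hg hh _ (refX_mPlus 1 1))
  obtain rfl : s' = 0 := le_antisymm h2 h1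
  exact ⟨c', hR 1 1 isUnit_one isUnit_one _ (refX_mPlus 1 1)⟩

end Filt

/-- The norm of an invariant test configuration with vanishing Futaki invariant is zero. -/
theorem TestConf.norm_eq_zero (χ : TestConf T q D₀ r) (γ : Gam T) (hfix : γ.Fixes D₀)
    (hΓ : χ.GamInv γ) (H : χ.toFilt.AllRigid)
    (hD : T.X.deg D₀ = 105 * T.t * q) (hq : 0 < q) (hr : 0 < r)
    {a₀ a₁ b₀ b₁ c₀ : ℝ} (hE : χ.Expansion a₀ a₁ b₀ b₁ c₀) : c₀ - b₀ ^ 2 / a₀ = 0 := by
  obtain ⟨P₀, _⟩ : ∃ P : T.X.Pt, P ∈ T.S := by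
    have h1 := T.card_S
    have h2 := T.t_pos
    have h3 : 0 < T.S.card := by omega
    exact Finset.card_pos.1 h3
  obtain ⟨N₀, l₀, s, c, ρ, h⟩ := χ.exists_maxData P₀ (Nat.mul_pos hr hq) (deg_crit_mul hD r)
  obtain ⟨c', hR⟩ := Filt.exists_const hΓ.vInv γ.toInv hfix.inv hΓ.tau H hD hq hr h
  exact hR.norm_zero' hD hq hr ((Filt.expansion_tw χ.toFilt _ _).2 hE)

/-- Strictness: invariant test configurations of positive norm have non-zero `b₁`, given the
rigidity theorem for graded filtrations. -/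
theorem TestConf.norm_eq_zero_of_b1 (hA : ThmA T) (χ : TestConf T q D₀ r) (γ : Gam T)
    (hfix : γ.Fixes D₀) (hΓ : χ.GamInv γ)
    (hD : T.X.deg D₀ = 105 * T.t * q) (hq : 0 < q) (hr : 0 < r)
    {a₀ a₁ b₀ c₀ : ℝ} (hE : χ.Expansion a₀ a₁ b₀ 0 c₀) : c₀ - b₀ ^ 2 / a₀ = 0 :=
  χ.norm_eq_zero γ hfix hΓ (fun g h hg hh m =>
    χ.toFilt.rigid_all hA hq hr hD hE (substE K g h hg hh) (pres_substE hg hh) m) hD hq hr hE

end Pool.Agent.YTD


end

/- source: Pool.Agent.YTD.SatM -/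

section

/-!
A rigid invariant filtration whose maximal slope is attained is trivial up to a shift and `O(N^3)`.
-/

namespace Pool.Agent.YTD

open Finset Module MvPolynomial Filter

variable {K : Type} [Field K] [Algebra ℂ K]
variable {T : Datum K} {q : ℕ} {D₀ : T.X.Pt →₀ ℤ} {r : ℕ}

namespace Filt

theorem exists_maxData_of_slope (χ : Filt T q D₀ r) (P₀ : T.X.Pt) {N₀ : ℕ} {l₀ : ℤ}
    (hN : 0 < N₀) {s : MvPolynomial (Fin 4) K} (hs : s ∈ χ.F N₀ l₀) (hs0 : s ≠ 0)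
    (hslope : χ.SlopeLe N₀ l₀) : ∃ N₁ l₁ s₁ c ρ, MaxData χ N₁ l₁ s₁ c ρ := by
  classical
  have hs4 : s ^ 4 ∈ χ.F (4 * N₀) (4 * l₀) := by
    have h1 := χ.mul _ _ _ _ _ hs _ hs
    have h2 := χ.mul _ _ _ _ _ h1 _ h1
    have e1 : s * s * (s * s) = s ^ 4 := by ring
    have e2 : N₀ + N₀ + (N₀ + N₀) = 4 * N₀ := by ring
    have e3 : l₀ + l₀ + (l₀ + l₀) = 4 * l₀ := by ring
    rw [e1, e2, e3] at h2
    exact h2
  have hslope4 : χ.SlopeLe (4 * N₀) (4 * l₀) := by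
    intro N l hne
    have := hslope N l hne
    push_cast
    linarith
  obtain ⟨c, h1, h2, h3, h4⟩ := T.exists_general_point P₀ D₀ ((s ^ 4).support.image (s ^ 4).coeff)
  obtain ⟨P₁, hP₁⟩ := T.exists_ne_point c
  obtain ⟨ρ, hρ⟩ := T.X.exists_residue hP₁
  have hord : ∀ e, (s ^ 4).coeff e ≠ 0 → T.X.ord c ((s ^ 4).coeff e) = 0 := by
    intro e he
    exact h4 _ (mem_image.2 ⟨e, MvPolynomial.mem_support_iff.2 he, rfl⟩) he
  have hov : ∀ e, (s ^ 4).coeff e ∈ T.X.ovan c 0 := by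
    intro e he
    rw [hord e he]
  refine ⟨4 * N₀, 4 * l₀, s ^ 4, c, ρ, by omega, hs4, pow_ne_zero 4 hs0, hslope4, h1, h2, h3,
    hov, hρ, ?_⟩
  obtain ⟨e, he⟩ := MvPolynomial.ne_zero_iff.1 (pow_ne_zero 4 hs0)
  intro h0
  have h5 := coeff_specm ρ (s ^ 4) e
  rw [h0, coeff_zero] at h5
  have h6 := (hρ _ (hov e)).1 h5.symm
  have h7 := (T.X.mem_ovan).1 h6 he
  rw [hord e he] at h7
  norm_num at h7

/-- Consequences of rigidity with constant linear form. -/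
theorem Rigid.trivial {χ : Filt T q D₀ r} {m : MonomialOrder (Fin 4)} {c : ℤ}
    (hR : χ.Rigid m 0 0 0 c) (hD : T.X.deg D₀ = 105 * T.t * q) (hq : 0 < q) (hr : 0 < r) :
    (∀ N : ℕ, 4 ≤ N → ∀ l : ℤ, χ.F N l ≠ ⊥ → l ≤ c * N) ∧
    ∃ C : ℝ, 0 ≤ C ∧ ∀ N : ℕ, 4 ≤ N → ∀ Λ : ℤ,
      ∑ l ∈ Ioc (-(Λ * N)) (c * N), (χ.dimN N - (finrank ℂ (χ.F N l) : ℝ)) ≤ C * (N : ℝ) ^ 3 := by
  have hlw : ∀ (N : ℕ) (j : ℤ) (a b : ℕ), lw 0 0 0 c N j a b = c * N := by
    intro N j a b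
    unfold lw
    ring
  have hup : ∀ N : ℕ, 4 ≤ N → ∀ l : ℤ, χ.F N l ≠ ⊥ → l ≤ c * N := by
    intro N hN l hne
    obtain ⟨f, hf, hf0⟩ := Submodule.exists_mem_ne_zero_of_ne_bot hne
    obtain ⟨j, a, b, hin, _, hne'⟩ := χ.exists_degree_expo m hf hf0
    have := hR.upper N hN l j a b hin hne'
    rwa [hlw] at this
  refine ⟨hup, ?_⟩
  obtain ⟨C, hC0, hC⟩ := hR.total
  have hconst : ∀ (N : ℕ) (z : ℝ), ∑ j ∈ JJ (r * q) N, χ.vdim N j *
      ∑ _a ∈ range (AA (r * q) N j + 1), ∑ _b ∈ range (BB (r * q) N j + 1), z = z * χ.dimN N := by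
    intro N z
    rw [χ.dimN_eq]
    unfold s0 msz
    rw [mul_sum]
    apply sum_congr rfl
    intro j _
    rw [sum_const, sum_const, card_range, card_range, nsmul_eq_mul, nsmul_eq_mul]
    push_cast
    ring
  obtain ⟨P₀⟩ := T.exists_point_mom
  have hnn : ∀ (N : ℕ) (l : ℤ), 0 ≤ χ.dimN N - (finrank ℂ (χ.F N l) : ℝ) := by
    intro N l
    have := T.finite_sec P₀ q D₀ (r * N)
    have h1 := Submodule.finrank_mono (χ.le N l)
    have : ((finrank ℂ (χ.F N l) : ℕ) : ℝ) ≤ finrank ℂ (T.sec q D₀ (r * N)) := by exact_mod_cast h1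
    unfold dimN
    linarith
  refine ⟨C, hC0, ?_⟩
  intro N hN Λ
  -- a larger constant
  set M : ℕ := max χ.lam Λ.toNat with hM
  have hM1 : χ.lam ≤ M := le_max_left _ _
  have hM2 : Λ ≤ M := by
    have : Λ ≤ Λ.toNat := Int.self_le_toNat Λ
    have h2 : (Λ.toNat : ℤ) ≤ M := by exact_mod_cast le_max_right _ _
    linarith
  have hNpos : (0 : ℤ) ≤ N := by positivity
  have hsub : Ioc (-(Λ * (N : ℤ))) (c * N) ⊆ Ioc (-((M * N : ℕ) : ℤ)) (c * N) := by
    intro l hl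
    rw [mem_Ioc] at hl ⊢
    refine ⟨lt_of_le_of_lt ?_ hl.1, hl.2⟩
    push_cast
    have := mul_le_mul_of_nonneg_right hM2 hNpos
    linarith
  refine (sum_le_sum_of_subset_of_nonneg hsub fun l _ _ => hnn N l).trans ?_
  have hlow : -((M * N : ℕ) : ℤ) ≤ c * N := by
    have h0 : InR (r * q) N 0 0 0 := by
      refine ⟨by rw [abs_zero]; positivity, ?_, ?_⟩
      · have : (0 : ℤ) ≤ ((r * q : ℕ) : ℤ) * N := by positivity
        push_cast at this ⊢
        linarith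
      · have : (0 : ℤ) ≤ ((r * q : ℕ) : ℤ) * N := by positivity
        push_cast at this ⊢
        linarith
    have h1 := hR.lower hD hq hr hN h0
    rw [hlw] at h1
    refine le_trans ?_ h1
    have h2 : ((χ.lam * N : ℕ) : ℤ) ≤ ((M * N : ℕ) : ℤ) := by
      exact_mod_cast Nat.mul_le_mul_right N hM1
    push_cast at h2 ⊢
    linarith
  have g1 := hC N hN M hM1 (fun _ => 1) 1 zero_le_one (fun _ _ _ _ _ _ _ => by simp)
  have e1 : ∑ j ∈ JJ (r * q) N, χ.vdim N j * ∑ a ∈ range (AA (r * q) N j + 1),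
      ∑ b ∈ range (BB (r * q) N j + 1),
      ∑ _l ∈ Ioc (-((M * N : ℕ) : ℤ)) (lw 0 0 0 c N j a b), (1 : ℝ) =
      (c * N + M * N) * χ.dimN N := by
    rw [← hconst]
    apply sum_congr rfl
    intro j hj
    congr 1
    apply sum_congr rfl
    intro a ha
    apply sum_congr rfl
    intro b hb
    rw [hlw, sum_Ioc_one hlow]
    push_cast
    ring
  rw [e1] at g1
  simp only [one_mul] at g1
  -- the sum of the dimensions
  have e2 : ∑ l ∈ Ioc (-((M * N : ℕ) : ℤ)) (c * N), (finrank ℂ (χ.F N l) : ℝ) =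
      ∑ l ∈ Ioc (-((M * N : ℕ) : ℤ)) ((M * N : ℕ) : ℤ), (finrank ℂ (χ.F N l) : ℝ) := by
    have hz1 : ∀ l : ℤ, c * N < l → (finrank ℂ (χ.F N l) : ℝ) = 0 := by
      intro l hl
      by_cases h : χ.F N l = ⊥
      · rw [h]
        simp
      · exact absurd (hup N hN l h) (not_le.2 hl)
    have hz2 : ∀ l : ℤ, ((M * N : ℕ) : ℤ) < l → (finrank ℂ (χ.F N l) : ℝ) = 0 := by
      intro l hl
      have h2 : ((χ.lam * N : ℕ) : ℤ) ≤ ((M * N : ℕ) : ℤ) := by
        exact_mod_cast Nat.mul_le_mul_right N hM1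
      rw [χ.F_of_gt (by push_cast at h2 hl ⊢; linarith)]
      simp
    rcases le_total (c * (N : ℤ)) ((M * N : ℕ) : ℤ) with h | h
    · apply sum_subset (Ioc_subset_Ioc_right h)
      intro l hl hl'
      apply hz1
      rw [mem_Ioc] at hl hl'
      by_contra hcon
      exact hl' ⟨hl.1, not_lt.1 hcon⟩
    · symm
      apply sum_subset (Ioc_subset_Ioc_right h)
      intro l hl hl'
      apply hz2
      rw [mem_Ioc] at hl hl'
      by_contra hcon
      exact hl' ⟨hl.1, not_lt.1 hcon⟩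
  rw [sum_sub_distrib, e2]
  have e3 : ∑ _l ∈ Ioc (-((M * N : ℕ) : ℤ)) (c * N), χ.dimN N = (c * N + M * N) * χ.dimN N := by
    have h1 := sum_Ioc_one hlow
    rw [← mul_one (χ.dimN N), ← mul_sum, h1]
    push_cast
    ring
  rw [e3]
  exact (le_abs_self _).trans g1

/-- An invariant filtration with rigid initial spaces whose maximal slope is attained. -/
theorem exists_trivial (χ : Filt T q D₀ r) (γ : Gam T) (hfix : γ.Fixes D₀)
    (hΓ : χ.GamInv γ) (H : χ.AllRigid)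
    (hD : T.X.deg D₀ = 105 * T.t * q) (hq : 0 < q) (hr : 0 < r) {N₀ : ℕ} {l₀ : ℤ}
    (hN : 0 < N₀) {s : MvPolynomial (Fin 4) K} (hs : s ∈ χ.F N₀ l₀) (hs0 : s ≠ 0)
    (hslope : χ.SlopeLe N₀ l₀) :
    ∃ c : ℤ, (∀ N : ℕ, 4 ≤ N → ∀ l : ℤ, χ.F N l ≠ ⊥ → l ≤ c * N) ∧
    ∃ C : ℝ, 0 ≤ C ∧ ∀ N : ℕ, 4 ≤ N → ∀ Λ : ℤ,
      ∑ l ∈ Ioc (-(Λ * N)) (c * N), (χ.dimN N - (finrank ℂ (χ.F N l) : ℝ)) ≤ C * (N : ℝ) ^ 3 := by
  obtain ⟨P₀, _⟩ : ∃ P : T.X.Pt, P ∈ T.S := by
    have h1 := T.card_S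
    have h2 := T.t_pos
    have h3 : 0 < T.S.card := by omega
    exact Finset.card_pos.1 h3
  obtain ⟨N₁, l₁, s₁, c, ρ, h⟩ := χ.exists_maxData_of_slope P₀ hN hs hs0 hslope
  obtain ⟨c', hR⟩ := Filt.exists_const hΓ.vInv γ.toInv hfix.inv hΓ.tau H hD hq hr h
  have key := hR.trivial hD hq hr
  have hbot : ∀ (N : ℕ) (l : ℤ), (χ.fl isUnit_one isUnit_one).F N l = ⊥ ↔ χ.F N l = ⊥ := by
    intro N l
    unfold fl
    rw [tw_F]
    constructor
    · intro h0
      rw [eq_bot_iff]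
      intro f hf
      have h1 := Submodule.mem_map_of_mem (f := (substE K 1 1 isUnit_one isUnit_one).toLinearMap) hf
      rw [h0, Submodule.mem_bot] at h1
      exact (Submodule.mem_bot ℂ).2 (autom_injective _ (h1.trans (map_zero _).symm))
    · intro h0
      rw [h0, Submodule.map_bot]
  have hfr : ∀ (N : ℕ) (l : ℤ), finrank ℂ ((χ.fl isUnit_one isUnit_one).F N l) =
      finrank ℂ (χ.F N l) := by
    intro N l
    exact finrank_tw χ _ _ N l
  refine ⟨c', ?_, ?_⟩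
  · intro N hN l hne
    apply key.1 N hN l
    intro h0
    exact hne ((hbot N l).1 h0)
  · obtain ⟨C, hC0, hC⟩ := key.2
    refine ⟨C, hC0, ?_⟩
    intro N hN Λ
    have := hC N hN Λ
    simp only [hfr] at this
    exact this

end Filt

end Pool.Agent.YTD


end

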