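import Mathlib

/- source: Pool.Agent.YTD.RedAlg -/

section

/-!
An element `x` of an extension field of the fraction field of a factorial noetherian domain `A`
is integral over `A` as soon as `a * x ^ s` is integral for some `a ≠ 0` all whose prime factors
have a multiplicity small compared with `s`.
-/

namespace Pool.Agent.YTD

open Polynomial

section frac

variable {A K : Type*} [CommRing A] [IsDomain A] [UniqueFactorizationMonoid A] [Field K]
  [Algebra A K] [IsFractionRing A K]

theorem mem_range_of_coprime_mul {c : K} {α β : A} (h : IsRelPrime α β)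
    (hα : c * algebraMap A K α ∈ (algebraMap A K).range)
    (hβ : c * algebraMap A K β ∈ (algebraMap A K).range) : c ∈ (algebraMap A K).range := by
  obtain ⟨u, v, huv, hc⟩ := IsFractionRing.exists_reduced_fraction A c
  have hv0 : (v : A) ≠ 0 := nonZeroDivisors.coe_ne_zero v
  have hv0' : algebraMap A K v ≠ 0 := by
    rw [Ne, IsFractionRing.to_map_eq_zero_iff]
    exact hv0
  have hc' : c * algebraMap A K v = algebraMap A K u := by
    rw [← hc, IsLocalization.mk'_spec]
  have key : ∀ γ : A, c * algebraMap A K γ ∈ (algebraMap A K).range → (v : A) ∣ γ := by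
    rintro γ ⟨r, hr⟩
    have h1 : algebraMap A K (u * γ) = algebraMap A K (r * v) := by
      rw [map_mul, map_mul, hr, ← hc']
      ring
    have h2 : u * γ = r * v := IsFractionRing.injective A K h1
    have h3 : (v : A) ∣ u * γ := ⟨r, by rw [h2, mul_comm]⟩
    exact huv.symm.dvd_of_dvd_mul_left h3
  obtain ⟨w, hw⟩ := h (key α hα) (key β hβ)
  refine ⟨u * ↑w⁻¹, ?_⟩
  rw [map_mul, ← hc', mul_assoc, ← map_mul, ← hw, Units.mul_inv, map_one, mul_one]

variable {L : Type*} [Field L] [Algebra K L] [Algebra A L] [IsScalarTower A K L]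

include K in
/-- If `α w` and `β w` are integral with `α`, `β` coprime then `w` is integral. -/
theorem isIntegral_of_coprime_mul {w : L} {α β : A} (h : IsRelPrime α β)
    (hα0 : α ≠ 0) (hβ0 : β ≠ 0)
    (hα : IsIntegral A (algebraMap A L α * w)) (hβ : IsIntegral A (algebraMap A L β * w)) :
    IsIntegral A w := by
  have hint : ∀ γ : A, γ ≠ 0 → IsIntegral A (algebraMap A L γ * w) → IsIntegral K w ∧
      ∀ i, (minpoly K w).coeff i * algebraMap A K (γ ^ ((minpoly K w).natDegree - i)) ∈
        (algebraMap A K).range := by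
    intro γ hγ0 hγ
    have hγK : algebraMap A K γ ≠ 0 := by
      rw [Ne, IsFractionRing.to_map_eq_zero_iff]
      exact hγ0
    have e1 : algebraMap A L γ * w = (algebraMap A K γ) • w := by
      rw [Algebra.smul_def, ← IsScalarTower.algebraMap_apply]
    have hK : IsIntegral K w := by
      have h1 : IsIntegral K (algebraMap A L γ * w) := hγ.tower_top
      have h2 : w = (algebraMap A K γ)⁻¹ • (algebraMap A L γ * w) := by
        rw [e1, smul_smul, inv_mul_cancel₀ hγK, one_smul]
      rw [h2]
      exact h1.smul _
    refine ⟨hK, fun i => ?_⟩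
    have h3 := IsIntegrallyClosed.minpoly_smul hγK hK
    rw [← e1, minpoly.isIntegrallyClosed_eq_field_fractions' K hγ] at h3
    have h4 := congrArg (fun p => p.coeff i) h3
    simp only [coeff_map, coeff_scaleRoots] at h4
    rw [map_pow]
    exact ⟨_, h4⟩
  obtain ⟨hK, h1⟩ := hint α hα0 hα
  obtain ⟨-, h2⟩ := hint β hβ0 hβ
  have h3 : ∀ i, (minpoly K w).coeff i ∈ (algebraMap A K).range := fun i =>
    mem_range_of_coprime_mul (h.pow (m := (minpoly K w).natDegree - i)
      (n := (minpoly K w).natDegree - i)) (h1 i) (h2 i)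
  obtain ⟨p, hp, hdeg, hmon⟩ := lifts_and_natDegree_eq_and_monic
    ((lifts_iff_coeff_lifts (f := algebraMap A K) (minpoly K w)).2 h3) (minpoly.monic hK)
  refine ⟨p, hmon, ?_⟩
  have h5 := minpoly.aeval K w
  rw [← hp, aeval_map_algebraMap] at h5
  exact h5

include K in
/-- The denominators of `w` form a principal ideal. -/
theorem exists_denominator {w : L} (hw : ∃ b : A, b ≠ 0 ∧ IsIntegral A (algebraMap A L b * w)) :
    ∃ δ : A, δ ≠ 0 ∧ IsIntegral A (algebraMap A L δ * w) ∧
      ∀ b : A, IsIntegral A (algebraMap A L b * w) → δ ∣ b := by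
  have hwf : WellFounded (DvdNotUnit (α := A)) := wellFounded_dvdNotUnit
  obtain ⟨δ, ⟨hδ0, hδ⟩, hmin⟩ := hwf.has_min
    {b : A | b ≠ 0 ∧ IsIntegral A (algebraMap A L b * w)} hw
  refine ⟨δ, hδ0, hδ, fun b hb => ?_⟩
  by_cases hb0 : b = 0
  · rw [hb0]
    exact dvd_zero _
  obtain ⟨δ', b', g, hrel, h1, h2⟩ := UniqueFactorizationMonoid.exists_reduced_factors δ hδ0 b
  have hg0 : g ≠ 0 := by
    rintro rfl
    rw [zero_mul] at h1
    exact hδ0 h1.symm
  have hδ'0 : δ' ≠ 0 := by
    rintro rfl
    rw [mul_zero] at h1
    exact hδ0 h1.symm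
  have hb'0 : b' ≠ 0 := by
    rintro rfl
    rw [mul_zero] at h2
    exact hb0 h2.symm
  have hg : IsIntegral A (algebraMap A L g * w) := by
    apply isIntegral_of_coprime_mul (K := K) hrel hδ'0 hb'0
    · rw [← mul_assoc, ← map_mul, mul_comm δ' g, h1]
      exact hδ
    · rw [← mul_assoc, ← map_mul, mul_comm b' g, h2]
      exact hb
  by_cases hu : IsUnit δ'
  · obtain ⟨u, rfl⟩ := hu
    refine ⟨↑u⁻¹ * b', ?_⟩
    rw [← h1, ← h2]
    calc g * b' = g * (↑u * ↑u⁻¹) * b' := by rw [Units.mul_inv, mul_one]
      _ = g * ↑u * (↑u⁻¹ * b') := by ring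
  · exact (hmin g ⟨hg0, hg⟩ ⟨hg0, δ', hu, h1.symm⟩).elim

end frac

section mult

variable {A : Type*} [CommRing A] [IsDomain A] [UniqueFactorizationMonoid A]

omit [IsDomain A] in
theorem dvd_of_prime_pow {t : A} (x : A) (hx : x ≠ 0)
    (h : ∀ p : A, Prime p → ∀ e : ℕ, p ^ e ∣ x → p ^ e ∣ t) : x ∣ t := by
  induction x using UniqueFactorizationMonoid.induction_on_coprime with
  | h0 => exact (hx rfl).elim
  | h1 hu => exact hu.dvd
  | hpr i hp => exact h _ hp i dvd_rfl
  | hcp hrel h1 h2 =>
    apply hrel.mul_dvd
    · exact h1 (left_ne_zero_of_mul hx) fun p hp e he => h p hp e (he.mul_right _)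
    · exact h2 (right_ne_zero_of_mul hx) fun p hp e he => h p hp e (he.mul_left _)

theorem dvd_pow_of_mult {δ a d : A} {D j s N : ℕ} (hδ : δ ≠ 0) (ha : a ≠ 0)
    (hD : ∀ p : A, Prime p → ∀ e : ℕ, p ^ e ∣ a → e ≤ D) (hs : j * D ≤ s)
    (h1 : δ ∣ a ^ j) (h2 : δ ∣ d ^ N) : δ ∣ d ^ s := by
  apply dvd_of_prime_pow δ hδ
  intro p hp e he
  by_cases he0 : e = 0
  · rw [he0, pow_zero]
    exact one_dvd _
  have hpd : p ∣ d := hp.dvd_of_dvd_pow ((dvd_pow_self p he0).trans (he.trans h2))
  obtain ⟨c, hc, hpc⟩ := (FiniteMultiplicity.of_prime_left hp ha).exists_eq_pow_mul_and_not_dvd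
  set m := multiplicity p a with hm
  have hmD : m ≤ D := hD p hp m ⟨c, hc⟩
  have h3 : p ^ e ∣ p ^ (m * j) := by
    have h4 : p ^ e ∣ p ^ (m * j) * c ^ j := by
      rw [pow_mul, ← mul_pow, ← hc]
      exact he.trans h1
    exact hp.pow_dvd_of_dvd_mul_right e (fun h => hpc (hp.dvd_of_dvd_pow h)) h4
  have h5 : e ≤ m * j := (pow_dvd_pow_iff hp.ne_zero hp.not_isUnit).1 h3
  have h6 : e ≤ s := by
    calc e ≤ m * j := h5
      _ ≤ D * j := Nat.mul_le_mul_right _ hmD
      _ = j * D := mul_comm _ _
      _ ≤ s := hs
  exact (pow_dvd_pow p h6).trans (pow_dvd_pow_of_dvd hpd s)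

end mult

section main

variable {A K : Type*} [CommRing A] [IsDomain A] [UniqueFactorizationMonoid A]
  [IsNoetherianRing A] [Field K] [Algebra A K] [IsFractionRing A K] [CharZero K]
variable {L : Type*} [Field L] [Algebra K L] [Algebra A L] [IsScalarTower A K L]

include K in
/-- An almost integral element is integral. -/
theorem isIntegral_of_almost {x : L} {d : A} (hd : d ≠ 0)
    (h : ∀ j : ℕ, IsIntegral A (algebraMap A L d * x ^ j)) : IsIntegral A x := by
  have hdK : algebraMap A K d ≠ 0 := by
    rw [Ne, IsFractionRing.to_map_eq_zero_iff]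
    exact hd
  have hxK : IsIntegral K x := by
    have h1 : IsIntegral K (algebraMap A L d * x ^ 1) := (h 1).tower_top
    have h2 : x = (algebraMap A K d)⁻¹ • (algebraMap A L d * x ^ 1) := by
      rw [pow_one, Algebra.smul_def, IsScalarTower.algebraMap_apply A K L, ← mul_assoc, ← map_mul,
        inv_mul_cancel₀ hdK, map_one, one_mul]
    rw [h2]
    exact h1.smul _
  let F := IntermediateField.adjoin K {x}
  have hfin : FiniteDimensional K F := IntermediateField.adjoin.finiteDimensional hxK
  let x' : F := ⟨x, IntermediateField.mem_adjoin_simple_self K x⟩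
  have hinjF : Function.Injective (algebraMap F L) := (algebraMap F L).injective
  have htower : IsScalarTower A F L := IsScalarTower.of_algebraMap_eq fun a => by
    rw [IsScalarTower.algebraMap_apply A K F, ← IsScalarTower.algebraMap_apply K F L,
      ← IsScalarTower.algebraMap_apply A K L]
  have hF : ∀ j : ℕ, IsIntegral A (algebraMap A F d * x' ^ j) := by
    intro j
    rw [← isIntegral_algebraMap_iff hinjF, map_mul, map_pow, ← IsScalarTower.algebraMap_apply]
    exact h j
  have hnoeth : IsNoetherian A (integralClosure A F) :=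
    IsIntegralClosure.isNoetherian A K F (integralClosure A F)
  have hmem : ∀ y ∈ Algebra.adjoin A {x'}, IsIntegral A (algebraMap A F d * y) := by
    intro y hy
    have hy' : y ∈ Submodule.span A ((Submonoid.closure {x'} : Submonoid F) : Set F) := by
      rw [← Algebra.adjoin_eq_span]
      exact hy
    induction hy' using Submodule.span_induction with
    | mem z hz =>
      obtain ⟨n, rfl⟩ := Submonoid.mem_closure_singleton.1 hz
      exact hF n
    | zero =>
      rw [mul_zero]
      exact isIntegral_zero
    | add a b ha hb h1 h2 =>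
      rw [mul_add]
      refine (h1 ?_).add (h2 ?_)
      · exact (Algebra.adjoin_eq_span A {x'} ▸ ha :)
      · exact (Algebra.adjoin_eq_span A {x'} ▸ hb :)
    | smul c a ha h1 =>
      rw [mul_smul_comm]
      refine (h1 ?_).smul c
      exact (Algebra.adjoin_eq_span A {x'} ▸ ha :)
  let μ : (Algebra.adjoin A {x'}) →ₗ[A] integralClosure A F :=
    { toFun := fun y => ⟨algebraMap A F d * (y : F), hmem y y.2⟩
      map_add' := fun a b => Subtype.ext (mul_add _ _ _)
      map_smul' := fun c a => Subtype.ext (mul_smul_comm _ _ _) }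
  have hdF : algebraMap A F d ≠ 0 := by
    rw [IsScalarTower.algebraMap_apply A K F, Ne, map_eq_zero]
    exact hdK
  have hμ : Function.Injective μ := by
    intro a b hab
    apply Subtype.ext
    exact mul_left_cancel₀ hdF (congrArg Subtype.val hab)
  have hN : IsNoetherian A (Algebra.adjoin A {x'}) := isNoetherian_of_injective μ hμ
  have hx' : IsIntegral A x' :=
    IsIntegral.of_mem_of_fg (Algebra.adjoin A {x'})
      ((Submodule.fg_top _).1 (isNoetherian_def.1 hN ⊤)) x'
      (Algebra.self_mem_adjoin_singleton A x')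
  exact (isIntegral_algebraMap_iff hinjF).2 hx'

include K in
/-- The main lemma. -/
theorem isIntegral_of_small {x : L} {deg : A → ℕ}
    (hdeg : ∀ a : A, a ≠ 0 → ∀ p : A, Prime p → ∀ e : ℕ, p ^ e ∣ a → e ≤ deg a)
    (h : ∀ n : ℕ, 1 ≤ n → ∃ s : ℕ, 1 ≤ s ∧ ∃ a : A, a ≠ 0 ∧ n * deg a ≤ s ∧
      IsIntegral A (algebraMap A L a * x ^ s)) : IsIntegral A x := by
  -- a denominator of `x`
  obtain ⟨s₁, hs₁, d, hd0, -, hd⟩ := h 1 le_rfl
  have hdx : IsIntegral A (algebraMap A L d * x) := by
    apply IsIntegral.of_pow (n := s₁) hs₁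
    have e : (algebraMap A L d * x) ^ s₁ =
        algebraMap A L (d ^ (s₁ - 1)) * (algebraMap A L d * x ^ s₁) := by
      rw [mul_pow, map_pow, ← mul_assoc, ← pow_succ, Nat.sub_add_cancel hs₁]
    rw [e]
    exact isIntegral_algebraMap.mul hd
  apply isIntegral_of_almost (K := K) hd0
  intro j
  by_cases hj : j = 0
  · rw [hj, pow_zero, mul_one]
    exact isIntegral_algebraMap
  obtain ⟨s, hs, a, ha0, has, ha⟩ := h j (Nat.one_le_iff_ne_zero.2 hj)
  have h1 : IsIntegral A (algebraMap A L (a ^ j) * x ^ (j * s)) := by
    have e : algebraMap A L (a ^ j) * x ^ (j * s) = (algebraMap A L a * x ^ s) ^ j := by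
      rw [mul_pow, map_pow, ← pow_mul, mul_comm s j]
    rw [e]
    exact ha.pow j
  have h2 : IsIntegral A (algebraMap A L (d ^ (j * s)) * x ^ (j * s)) := by
    have e : algebraMap A L (d ^ (j * s)) * x ^ (j * s) = (algebraMap A L d * x) ^ (j * s) := by
      rw [mul_pow, map_pow]
    rw [e]
    exact hdx.pow _
  obtain ⟨δ, hδ0, hδ, hδ'⟩ := exists_denominator (K := K)
    ⟨a ^ j, pow_ne_zero _ ha0, h1⟩
  obtain ⟨c, hc⟩ := dvd_pow_of_mult hδ0 ha0 (hdeg a ha0) has (hδ' _ h1) (hδ' _ h2)
  apply IsIntegral.of_pow (n := s) hs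
  have e : (algebraMap A L d * x ^ j) ^ s =
      algebraMap A L c * (algebraMap A L δ * x ^ (j * s)) := by
    rw [mul_pow, ← pow_mul, ← map_pow, hc, map_mul]
    ring
  rw [e]
  exact isIntegral_algebraMap.mul hδ

end main

/-- The prime factors of a polynomial have multiplicity at most the total degree. -/
theorem mult_le_totalDegree {σ : Type*} {a : MvPolynomial σ ℂ} (ha : a ≠ 0)
    {p : MvPolynomial σ ℂ} (hp : Prime p) {e : ℕ} (h : p ^ e ∣ a) : e ≤ a.totalDegree := by
  obtain ⟨c, rfl⟩ := h
  have hc : c ≠ 0 := right_ne_zero_of_mul ha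
  have hpow : ∀ n : ℕ, (p ^ n).totalDegree = n * p.totalDegree := by
    intro n
    induction n with
    | zero => rw [pow_zero, MvPolynomial.totalDegree_one, zero_mul]
    | succ n ih =>
      rw [pow_succ, MvPolynomial.totalDegree_mul_of_isDomain (pow_ne_zero _ hp.ne_zero) hp.ne_zero,
        ih, add_mul, one_mul]
  have h1 : 1 ≤ p.totalDegree := by
    by_contra hcon
    have h2 : p.totalDegree = 0 := by omega
    rw [MvPolynomial.totalDegree_eq_zero_iff_eq_C] at h2
    have h3 : p.coeff 0 ≠ 0 := by
      intro h4
      rw [h4, map_zero] at h2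
      exact hp.ne_zero h2
    apply hp.not_isUnit
    rw [h2]
    exact (IsUnit.mk0 _ h3).map MvPolynomial.C
  rw [MvPolynomial.totalDegree_mul_of_isDomain (pow_ne_zero _ hp.ne_zero) hc, hpow]
  nlinarith

/-- Step 6 of the proof, with `A` a polynomial ring. -/
theorem red_alg {k : ℕ} {L : Type*} [Field L] (φ : MvPolynomial (Fin k) ℂ →+* L)
    (hφ : Function.Injective φ) {x : L}
    (h : ∀ n : ℕ, 1 ≤ n → ∃ s : ℕ, 1 ≤ s ∧ ∃ a : MvPolynomial (Fin k) ℂ, a ≠ 0 ∧
      n * a.totalDegree ≤ s ∧ φ.IsIntegralElem (φ a * x ^ s)) : φ.IsIntegralElem x := by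
  let _ : Algebra (MvPolynomial (Fin k) ℂ) L := φ.toAlgebra
  have hfaith : FaithfulSMul (MvPolynomial (Fin k) ℂ) L :=
    (faithfulSMul_iff_algebraMap_injective _ _).2 hφ
  let _ : Algebra (FractionRing (MvPolynomial (Fin k) ℂ)) L :=
    FractionRing.liftAlgebra (MvPolynomial (Fin k) ℂ) L
  have hchar : CharZero (FractionRing (MvPolynomial (Fin k) ℂ)) := inferInstance
  exact isIntegral_of_small (K := FractionRing (MvPolynomial (Fin k) ℂ))
    (deg := MvPolynomial.totalDegree) (fun a ha p hp e he => mult_le_totalDegree ha hp he) h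

end Pool.Agent.YTD


end

/- source: Pool.Agent.YTD.RedNN -/

section

/-!
Linear Noether normalisation of finitely many homogeneous polynomials of equal degree.
-/

namespace Pool.Agent.YTD

open Finset MvPolynomial

section NN

variable {k P : Type} [Field k] [CommRing P] [Algebra k P]

/-- Substituting linear forms `b i + c i T` into a form of degree `m`: the coefficient of `T ^ m`
is the value at `c`. -/
theorem coeff_subst_lin {S : Type} [CommRing S] [Algebra k S] {ι : Type} {m : ℕ}
    (G : MvPolynomial ι k) (hG : G.IsHomogeneous m) (b : ι → S) (c : ι → k) :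
    (aeval (fun i => Polynomial.C (b i) + Polynomial.C (algebraMap k S (c i)) * Polynomial.X) G
      : Polynomial S).natDegree ≤ m ∧
    (aeval (fun i => Polynomial.C (b i) + Polynomial.C (algebraMap k S (c i)) * Polynomial.X) G
      : Polynomial S).coeff m = algebraMap k S (MvPolynomial.eval c G) := by
  classical
  set F : ι → Polynomial S := fun i =>
    Polynomial.C (b i) + Polynomial.C (algebraMap k S (c i)) * Polynomial.X with hF
  have h1 : ∀ i, (F i).natDegree ≤ 1 := by
    intro i
    refine (Polynomial.natDegree_add_le _ _).trans ?_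
    rw [Polynomial.natDegree_C]
    refine max_le (Nat.zero_le _) ?_
    refine (Polynomial.natDegree_C_mul_le _ _).trans Polynomial.natDegree_X_le
  have h2 : ∀ i, (F i).coeff 1 = algebraMap k S (c i) := by
    intro i
    simp [hF, Polynomial.coeff_add, Polynomial.coeff_C]
  have h3 : ∀ e : ι →₀ ℕ, (e.prod fun i n => F i ^ n).natDegree ≤ e.degree ∧
      (e.prod fun i n => F i ^ n).coeff e.degree =
        algebraMap k S (e.prod fun i n => c i ^ n) := by
    intro e
    have hd : e.degree = ∑ i ∈ e.support, e i := rfl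
    constructor
    · rw [hd]
      refine (Polynomial.natDegree_prod_le _ _).trans (Finset.sum_le_sum fun i _ => ?_)
      refine (Polynomial.natDegree_pow_le).trans ?_
      calc e i * (F i).natDegree ≤ e i * 1 := Nat.mul_le_mul_left _ (h1 i)
        _ = e i := mul_one _
    · have h4 : ∀ i ∈ e.support, (F i ^ e i).natDegree ≤ e i := by
        intro i _
        refine (Polynomial.natDegree_pow_le).trans ?_
        calc e i * (F i).natDegree ≤ e i * 1 := Nat.mul_le_mul_left _ (h1 i)
          _ = e i := mul_one _
      have h5 : ∀ (s : Finset ι), (∏ i ∈ s, F i ^ e i).natDegree ≤ ∑ i ∈ s, e i ∧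
          (∏ i ∈ s, F i ^ e i).coeff (∑ i ∈ s, e i) = ∏ i ∈ s, algebraMap k S (c i) ^ e i := by
        intro s
        induction s using Finset.induction_on with
        | empty => simp
        | insert i s hi ih =>
          have h6 : (F i ^ e i).natDegree ≤ e i := by
            refine (Polynomial.natDegree_pow_le).trans ?_
            calc e i * (F i).natDegree ≤ e i * 1 := Nat.mul_le_mul_left _ (h1 i)
              _ = e i := mul_one _
          have h7 : (F i ^ e i).coeff (e i) = algebraMap k S (c i) ^ e i := by
            have := Polynomial.coeff_pow_of_natDegree_le (m := e i) (h1 i)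
            rw [mul_one] at this
            rw [this, h2]
          rw [Finset.prod_insert hi, Finset.sum_insert hi, Finset.prod_insert hi]
          refine ⟨(Polynomial.natDegree_mul_le).trans (add_le_add h6 ih.1), ?_⟩
          rw [Polynomial.coeff_mul_add_eq_of_natDegree_le h6 ih.1, h7, ih.2]
      rw [hd, Finsupp.prod, (h5 e.support).2, Finsupp.prod, map_prod]
      exact Finset.prod_congr rfl fun i _ => by rw [map_pow]
  have h8 : aeval F G = ∑ e ∈ G.support, Polynomial.C (algebraMap k S (G.coeff e)) *
      (e.prod fun i n => F i ^ n) := by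
    rw [aeval_def, eval₂_eq]
    refine Finset.sum_congr rfl fun e _ => ?_
    rfl
  have h9 : ∀ e ∈ G.support, e.degree = m := by
    intro e he
    have := hG (MvPolynomial.mem_support_iff.1 he)
    rw [Finsupp.degree_eq_weight_one (R := ℕ)]
    exact this
  constructor
  · rw [h8]
    refine Polynomial.natDegree_sum_le_of_forall_le _ _ fun e he => ?_
    refine (Polynomial.natDegree_C_mul_le _ _).trans ?_
    rw [← h9 e he]
    exact (h3 e).1
  · rw [h8, Polynomial.finsetSum_coeff, MvPolynomial.eval_eq, map_sum]
    refine Finset.sum_congr rfl fun e he => ?_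
    rw [Polynomial.coeff_C_mul, ← h9 e he, (h3 e).2, map_mul]
    rfl

/-- A nonzero relation between homogeneous polynomials of equal degree gives a homogeneous one. -/
theorem exists_homogeneous_relation {K σ ι : Type} [Field K] [Algebra k K] {d : ℕ}
    (g : ι → MvPolynomial σ K) (hg : ∀ i, (g i).IsHomogeneous d) (hd : 0 < d)
    (G : MvPolynomial ι k) (hG : G ≠ 0) (h0 : aeval g G = 0) :
    ∃ (m : ℕ) (G' : MvPolynomial ι k), G' ≠ 0 ∧ G'.IsHomogeneous m ∧ aeval g G' = 0 := by
  classical
  have h1 : ∀ (m : ℕ) (H : MvPolynomial ι k), H.IsHomogeneous m →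
      (aeval g H).IsHomogeneous (d * m) := by
    intro m H hH
    rw [aeval_def, eval₂_eq]
    refine MvPolynomial.IsHomogeneous.sum _ _ _ fun e he => ?_
    have h2 : (∏ i ∈ e.support, g i ^ e i).IsHomogeneous (∑ i ∈ e.support, d * e i) :=
      MvPolynomial.IsHomogeneous.prod _ _ _ fun i _ => (hg i).pow _
    have h3 : ∑ i ∈ e.support, d * e i = d * m := by
      rw [← Finset.mul_sum]
      congr 1
      have := hH (MvPolynomial.mem_support_iff.1 he)
      rw [← this]
      have h6 : e.degree = Finsupp.weight (1 : ι → ℕ) e :=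
        congrFun (congrArg _ (Finsupp.degree_eq_weight_one (R := ℕ))) e
      exact h6
    rw [← h3]
    have h4 : algebraMap k (MvPolynomial σ K) (H.coeff e) * ∏ i ∈ e.support, g i ^ e i =
        C (algebraMap k K (H.coeff e)) * ∏ i ∈ e.support, g i ^ e i := rfl
    rw [h4]
    exact h2.C_mul _
  obtain ⟨m, hm⟩ : ∃ m, homogeneousComponent m G ≠ 0 := by
    by_contra hcon
    simp only [not_exists, not_not] at hcon
    apply hG
    rw [← sum_homogeneousComponent G]
    exact Finset.sum_eq_zero fun i _ => hcon i
  refine ⟨m, homogeneousComponent m G, hm, homogeneousComponent_isHomogeneous m G, ?_⟩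
  have h5 : homogeneousComponent (d * m) (aeval g G) = aeval g (homogeneousComponent m G) := by
    conv_lhs => rw [← sum_homogeneousComponent G]
    rw [map_sum, map_sum]
    by_cases hm' : m ∈ Finset.range (G.totalDegree + 1)
    · rw [Finset.sum_eq_single_of_mem m hm']
      · exact (homogeneousComponent_of_mem
          (h1 m _ (homogeneousComponent_isHomogeneous m G))).trans (if_pos rfl)
      · intro j _ hj
        rw [homogeneousComponent_of_mem (h1 j _ (homogeneousComponent_isHomogeneous j G))]
        rw [if_neg]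
        intro h
        exact hj (Nat.eq_of_mul_eq_mul_left hd h).symm
    · exfalso
      apply hm
      apply homogeneousComponent_eq_zero
      rw [Finset.mem_range] at hm'
      omega
  rw [← h5, h0, map_zero]

/-- **Linear Noether normalisation.** -/
theorem exists_linear_noether [Infinite k] {K σ : Type} [Field K] [Algebra k K] {d : ℕ}
    (hd : 0 < d) : ∀ (p : ℕ) (g : Fin p → MvPolynomial σ K)
    (_ : ∀ i, (g i).IsHomogeneous d),
    ∃ (c : ℕ) (y : Fin c → MvPolynomial σ K),
      (∀ j, y j ∈ Submodule.span k (Set.range g)) ∧ AlgebraicIndependent k y ∧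
      ∀ i, IsIntegral (Algebra.adjoin k (Set.range y)) (g i) := by
  classical
  intro p
  induction p with
  | zero =>
    intro g _
    refine ⟨0, g, fun j => j.elim0, ?_, fun i => i.elim0⟩
    rw [algebraicIndependent_empty_type_iff]
    exact (algebraMap k (MvPolynomial σ K)).injective
  | succ p ih =>
    intro g hg
    by_cases hind : AlgebraicIndependent k g
    · refine ⟨p + 1, g, fun j => Submodule.subset_span ⟨j, rfl⟩, hind, fun i => ?_⟩
      have : g i = algebraMap (Algebra.adjoin k (Set.range g)) (MvPolynomial σ K)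
          ⟨g i, Algebra.subset_adjoin ⟨i, rfl⟩⟩ := rfl
      rw [this]
      exact isIntegral_algebraMap
    · rw [algebraicIndependent_iff] at hind
      simp only [not_forall] at hind
      obtain ⟨G₀, hG₀, hG₀'⟩ := hind
      obtain ⟨m, G, hG, hGm, hG0⟩ := exists_homogeneous_relation g hg hd G₀ hG₀' hG₀
      obtain ⟨c, hc⟩ : ∃ c : Fin (p + 1) → k, MvPolynomial.eval c (G * X 0) ≠ 0 := by
        by_contra hcon
        have h1 : G * X 0 = 0 := MvPolynomial.funext fun x => by
          rw [map_zero]
          by_contra hx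
          exact hcon ⟨x, hx⟩
        rcases mul_eq_zero.1 h1 with h2 | h2
        · exact hG h2
        · exact X_ne_zero _ h2
      rw [map_mul, eval_X] at hc
      have hc1 : MvPolynomial.eval c G ≠ 0 := left_ne_zero_of_mul hc
      have hc0 : c 0 ≠ 0 := right_ne_zero_of_mul hc
      set g' : Fin p → MvPolynomial σ K := fun j => g j.succ - (c j.succ * (c 0)⁻¹) • g 0 with hg'
      have hg'h : ∀ j, (g' j).IsHomogeneous d := by
        intro j
        refine (hg _).sub ?_
        rw [Algebra.smul_def]
        exact (hg 0).C_mul (algebraMap k K (c j.succ * (c 0)⁻¹))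
      obtain ⟨r, y, hy1, hy2, hy3⟩ := ih g' hg'h
      have hsp : ∀ j, g' j ∈ Submodule.span k (Set.range g) := fun j =>
        Submodule.sub_mem _ (Submodule.subset_span ⟨_, rfl⟩)
          (Submodule.smul_mem _ _ (Submodule.subset_span ⟨_, rfl⟩))
      refine ⟨r, y, fun j => ?_, hy2, ?_⟩
      · refine Submodule.span_le.2 ?_ (hy1 j)
        rintro _ ⟨i, rfl⟩
        exact hsp i
      set z : MvPolynomial σ K := (c 0)⁻¹ • g 0 with hz
      have hz1 : IsIntegral (Algebra.adjoin k (Set.range g')) z := by
        set S := Algebra.adjoin k (Set.range g') with hS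
        let b : Fin (p + 1) → S := Fin.cons 0 (fun j => ⟨g' j, Algebra.subset_adjoin ⟨j, rfl⟩⟩)
        let F : Polynomial S := aeval (fun i => Polynomial.C (b i) +
          Polynomial.C (algebraMap k S (c i)) * Polynomial.X) G
        obtain ⟨h1, h2⟩ := coeff_subst_lin G hGm b c
        have h3 : Polynomial.aeval z F = 0 := by
          have h4 : Polynomial.aeval z F = aeval g G := by
            have h5 := MvPolynomial.comp_aeval_apply (φ := (Polynomial.aeval (R := S) z).restrictScalars k)
              (f := fun i => Polynomial.C (b i) +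
                Polynomial.C (algebraMap k S (c i)) * Polynomial.X) G
            have h6 : ((Polynomial.aeval (R := S) z).restrictScalars k) F =
              Polynomial.aeval z F := rfl
            rw [← h6, h5]
            congr 1
            congr 1
            funext i
            show Polynomial.aeval z (Polynomial.C (b i) +
              Polynomial.C (algebraMap k S (c i)) * Polynomial.X) = g i
            rw [map_add, map_mul, Polynomial.aeval_C, Polynomial.aeval_C, Polynomial.aeval_X]
            have h7 : algebraMap S (MvPolynomial σ K) (algebraMap k S (c i)) * z = c i • z := by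
              rw [Algebra.smul_def]
              rfl
            rw [h7, hz, smul_smul]
            refine Fin.cases ?_ (fun j => ?_) i
            · have h8 : algebraMap S (MvPolynomial σ K) (b 0) = 0 := rfl
              rw [h8, zero_add, mul_inv_cancel₀ hc0, one_smul]
            · have h8 : algebraMap S (MvPolynomial σ K) (b j.succ) = g' j := rfl
              rw [h8, hg']
              exact sub_add_cancel _ _
          rw [h4, hG0]
        refine ⟨Polynomial.C (algebraMap k S (MvPolynomial.eval c G)⁻¹) * F, ?_, ?_⟩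
        · refine Polynomial.monic_of_natDegree_le_of_coeff_eq_one m
            ((Polynomial.natDegree_C_mul_le _ _).trans h1) ?_
          rw [Polynomial.coeff_C_mul]
          refine (congrArg _ h2).trans ?_
          rw [← map_mul, inv_mul_cancel₀ hc1, map_one]
        · have h9 : Polynomial.aeval z
            (Polynomial.C (algebraMap k S (MvPolynomial.eval c G)⁻¹) * F) = 0 := by
            rw [map_mul, h3, mul_zero]
          exact h9
      set A := Algebra.adjoin k (Set.range y) with hA
      have hI : ∀ x ∈ Algebra.adjoin k (Set.range g'), x ∈ integralClosure A (MvPolynomial σ K) := by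
        have h1 : Algebra.adjoin k (Set.range g') ≤
            (integralClosure A (MvPolynomial σ K)).restrictScalars k := by
          refine Algebra.adjoin_le ?_
          rintro _ ⟨j, rfl⟩
          exact hy3 j
        intro x hx
        exact h1 hx
      have hz2 : IsIntegral A z := by
        have h1 : IsIntegral (integralClosure A (MvPolynomial σ K)) z := by
          let φ : Algebra.adjoin k (Set.range g') →+* integralClosure A (MvPolynomial σ K) :=
            { toFun := fun x => ⟨x.1, hI x.1 x.2⟩
              map_one' := rfl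
              map_mul' := fun _ _ => rfl
              map_zero' := rfl
              map_add' := fun _ _ => rfl }
          exact hz1.map_of_comp_eq φ (RingHom.id _) rfl
        exact isIntegral_trans _ h1
      have hg0 : IsIntegral A (g 0) := by
        have h1 : g 0 = algebraMap k (MvPolynomial σ K) (c 0) * z := by
          rw [← Algebra.smul_def, hz, smul_smul, mul_inv_cancel₀ hc0, one_smul]
        rw [h1]
        refine IsIntegral.mul ?_ hz2
        have h2 : algebraMap k (MvPolynomial σ K) (c 0) =
          algebraMap A (MvPolynomial σ K) (algebraMap k A (c 0)) := rfl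
        rw [h2]
        exact isIntegral_algebraMap
      intro i
      refine Fin.cases hg0 (fun j => ?_) i
      have h1 : g j.succ = g' j + algebraMap k (MvPolynomial σ K) (c j.succ * (c 0)⁻¹) * g 0 := by
        rw [← Algebra.smul_def, hg']
        exact (sub_add_cancel _ _).symm
      rw [h1]
      refine IsIntegral.add (hy3 j) (IsIntegral.mul ?_ hg0)
      have h2 : algebraMap k (MvPolynomial σ K) (c j.succ * (c 0)⁻¹) =
        algebraMap A (MvPolynomial σ K) (algebraMap k A (c j.succ * (c 0)⁻¹)) := rfl
      rw [h2]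
      exact isIntegral_algebraMap

end NN

end Pool.Agent.YTD


end

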