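import Pool.Agent.YTDM.P19
import Pool.Agent.YTDM.P24

/- source: Pool.Agent.YTD.SatB -/

section

/-!
Dimensions of the spaces of global sections of the sheaf generated by a space of sections.
-/

namespace Pool.Agent.YTD

open Finset Module MvPolynomial Filter

/-- Coordinates with respect to a linearly independent family, extended to the whole space. -/
theorem exists_coord {K : Type} [Field K] {V : Type} [AddCommGroup V] [Module K V] {ι : Type}
    [Fintype ι] {w : ι → V} (hw : LinearIndependent K w) :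
    ∃ g : V →ₗ[K] (ι → K), ∀ a : ι → K, g (∑ i, a i • w i) = a := by
  classical
  have hinj : LinearMap.ker (Fintype.linearCombination K w) = ⊥ := by
    rw [LinearMap.ker_eq_bot]
    exact hw.fintypeLinearCombination_injective
  obtain ⟨g, hg⟩ := (Fintype.linearCombination K w).exists_leftInverse_of_injective hinj
  refine ⟨g, fun a => ?_⟩
  have h1 := LinearMap.congr_fun hg a
  rw [LinearMap.comp_apply, Fintype.linearCombination_apply, LinearMap.id_apply] at h1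
  exact h1

theorem coord_sum {K : Type} [Field K] {V : Type} [AddCommGroup V] [Module K V] {ι : Type}
    [Fintype ι] {w : ι → V} {g : V →ₗ[K] (ι → K)} (hg : ∀ a : ι → K, g (∑ i, a i • w i) = a)
    {f : V} (hf : f ∈ Submodule.span K (Set.range w)) : ∑ i, g f i • w i = f := by
  obtain ⟨a, rfl⟩ := (Submodule.mem_span_range_iff_exists_fun K).1 hf
  rw [hg]

namespace Curve

variable {K : Type} [Field K] [Algebra ℂ K] (X : Curve K)
variable {V : Type} [AddCommGroup V] [Module K V] [Module ℂ V] [IsScalarTower ℂ K V]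

/-- Every function lies in the Riemann-Roch space of an effective divisor. -/
theorem exists_mem_L (z : K) : ∃ B : X.Pt →₀ ℤ, (∀ P, 0 ≤ B P) ∧ z ∈ X.L B := by
  classical
  refine ⟨Finsupp.onFinset (X.dv z).support (fun P => max 0 (-(X.dv z P))) (by
    intro P hP
    rw [Finsupp.mem_support_iff]
    intro h
    rw [h] at hP
    simp at hP), fun P => ?_, ?_⟩
  · rw [Finsupp.onFinset_apply]
    exact le_max_left _ _
  · intro hz P
    rw [Finsupp.onFinset_apply, X.dv_apply hz]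
    have := le_max_right 0 (-X.ord P z)
    linarith

/-- The values of a linear map on a finite-dimensional space lie in the Riemann-Roch space of an
effective divisor. -/
theorem exists_map_le_L {ι : Type} [Finite ι] (g : V →ₗ[K] (ι → K)) (U : Submodule ℂ V)
    [FiniteDimensional ℂ U] :
    ∃ B : X.Pt →₀ ℤ, (∀ P, 0 ≤ B P) ∧ ∀ u ∈ U, ∀ i, g u i ∈ X.L B := by
  classical
  have := Fintype.ofFinite ι
  obtain ⟨s, hs⟩ := (Submodule.fg_iff_finiteDimensional U).2 inferInstance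
  choose B hB hB' using X.exists_mem_L
  have hBn : ∀ P, 0 ≤ (∑ u ∈ s, ∑ i, B (g u i)) P := by
    intro P
    rw [Finsupp.finsetSum_apply]
    apply Finset.sum_nonneg
    intro u _
    rw [Finsupp.finsetSum_apply]
    exact Finset.sum_nonneg fun i _ => hB _ P
  refine ⟨∑ u ∈ s, ∑ i, B (g u i), hBn, ?_⟩
  intro u hu i
  rw [← hs] at hu
  induction hu using Submodule.span_induction with
  | mem x hx =>
    refine X.L_mono (fun P => ?_) (hB' (g x i))
    rw [Finsupp.finsetSum_apply]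
    refine le_trans ?_ (Finset.single_le_sum (f := fun u => (∑ i, B (g u i)) P)
      (fun u _ => ?_) hx)
    · show _ ≤ (∑ i, B (g x i)) P
      rw [Finsupp.finsetSum_apply]
      exact Finset.single_le_sum (f := fun i => B (g x i) P) (fun i _ => hB _ P)
        (Finset.mem_univ i)
    · show 0 ≤ (∑ i, B (g u i)) P
      rw [Finsupp.finsetSum_apply]
      exact Finset.sum_nonneg fun i _ => hB _ P
  | zero =>
    rw [map_zero]
    exact zero_mem _
  | add x y _ _ h1 h2 =>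
    rw [map_add]
    exact add_mem h1 h2
  | smul c x _ h =>
    have e : g (c • x) i = c • (g x i) := by
      rw [← algebraMap_smul K c x, map_smul, Pi.smul_apply, algebraMap_smul]
    rw [e]
    exact Submodule.smul_mem _ c h

omit [IsScalarTower ℂ K V] in
/-- Values of a linear map on a stalk. -/
theorem map_mem_ovan {ι : Type} (g : V →ₗ[K] (ι → K)) {P : X.Pt} {U : Submodule ℂ V} {n : ℤ}
    (i : ι) (hU : ∀ u ∈ U, g u i ∈ X.ovan P n) {f : V} (hf : f ∈ X.loc P U) :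
    g f i ∈ X.ovan P n := by
  induction hf using Submodule.span_induction with
  | mem x hx => exact hU x hx
  | zero =>
    rw [map_zero]
    exact zero_mem _
  | add x y _ _ h1 h2 =>
    rw [map_add]
    exact add_mem h1 h2
  | smul a x _ h =>
    have e : g (a • x) i = (a : K) * g x i := by
      have e1 : a • x = (a : K) • x := rfl
      rw [e1, map_smul, Pi.smul_apply, smul_eq_mul]
    rw [e]
    intro h0
    have ha : (a : K) ≠ 0 := left_ne_zero_of_mul h0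
    have hx : g x i ≠ 0 := right_ne_zero_of_mul h0
    rw [X.ord_mul P _ _ ha hx]
    have h1 := a.2 ha
    have h2 := h hx
    linarith

theorem exists_ord (P : X.Pt) (n : ℤ) : ∃ z : K, z ≠ 0 ∧ X.ord P z = n := by
  classical
  have := X.infinite_Pt P
  obtain ⟨P₁, hP₁⟩ := exists_ne P
  obtain ⟨f, -, hf0, hf⟩ := X.exists_ord_eq P
    (D := Finsupp.single P (-n) + Finsupp.single P₁ (2 * (X.genus : ℤ) + n)) (by
      rw [X.deg_add, X.deg_single, X.deg_single]
      linarith) P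
  refine ⟨f, hf0, ?_⟩
  rw [hf, Finsupp.add_apply, Finsupp.single_eq_same, Finsupp.single_eq_of_ne (Ne.symm hP₁),
    add_zero, neg_neg]

/-- Values of a linear map on global sections. -/
theorem map_mem_L {ι : Type} (g : V →ₗ[K] (ι → K)) {U : Submodule ℂ V}
    {B D : X.Pt →₀ ℤ} (i : ι) (hU : ∀ u ∈ U, g u i ∈ X.L B) {f : V} (hf : f ∈ X.satD D U) :
    g f i ∈ X.L (D + B) := by
  intro h0 P
  obtain ⟨z, hz0, hz⟩ := X.exists_ord P (D P)
  have h1 := hf P z hz0 hz.ge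
  have h2 := X.map_mem_ovan g (n := -(B P)) i (fun u hu h => by
    have := hU u hu h P
    linarith) h1
  rw [map_smul, Pi.smul_apply, smul_eq_mul] at h2
  have h3 := h2 (mul_ne_zero hz0 h0)
  rw [X.ord_mul P _ _ hz0 h0, hz] at h3
  rw [Finsupp.add_apply]
  linarith

omit [IsScalarTower ℂ K V] in
theorem loc_le_span (P : X.Pt) (U : Submodule ℂ V) {f : V} (hf : f ∈ X.loc P U) :
    f ∈ Submodule.span K (U : Set V) := by
  induction hf using Submodule.span_induction with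
  | mem x hx => exact Submodule.subset_span hx
  | zero => exact zero_mem _
  | add x y _ _ h1 h2 => exact add_mem h1 h2
  | smul a x _ h => exact Submodule.smul_mem _ (a : K) h

theorem satD_le_span (P₀ : X.Pt) (D : X.Pt →₀ ℤ) (U : Submodule ℂ V) {f : V}
    (hf : f ∈ X.satD D U) : f ∈ Submodule.span K (U : Set V) := by
  obtain ⟨z, hz0, hz⟩ := X.exists_ord P₀ (D P₀)
  have h1 := X.loc_le_span P₀ U (hf P₀ z hz0 hz.ge)
  have h2 := Submodule.smul_mem _ z⁻¹ h1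
  rwa [smul_smul, inv_mul_cancel₀ hz0, one_smul] at h2

/-- A basis of the `K`-span consisting of elements of `U`. -/
theorem exists_basis (U : Submodule ℂ V) [FiniteDimensional ℂ U] :
    ∃ w : Fin (CurveOrd.kdim K U) → V, (∀ i, w i ∈ U) ∧ LinearIndependent K w ∧
      Submodule.span K (Set.range w) = Submodule.span K (U : Set V) := by
  obtain ⟨s, hs⟩ := (Submodule.fg_iff_finiteDimensional U).2 inferInstance
  have hfin : FiniteDimensional K (Submodule.span K (U : Set V)) := by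
    have e : Submodule.span K (U : Set V) = Submodule.span K (s : Set V) := by
      apply le_antisymm
      · apply Submodule.span_le.2
        intro u hu
        rw [SetLike.mem_coe, ← hs] at hu
        exact Submodule.span_le_restrictScalars ℂ K (s : Set V) hu
      · apply Submodule.span_mono
        rw [← hs]
        exact Submodule.subset_span
    rw [e]
    infer_instance
  obtain ⟨b, hb1, hb2, hb3⟩ := exists_linearIndependent K (U : Set V)
  have hbfin : Finite b := by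
    have : FiniteDimensional K (Submodule.span K b) := by
      rw [hb2]
      exact hfin
    have h3 : LinearIndependent K (fun x : b => (⟨x, Submodule.subset_span x.2⟩ :
        Submodule.span K b)) := by
      apply LinearIndependent.of_comp (Submodule.subtype _)
      exact hb3
    exact h3.finite
  have := Fintype.ofFinite b
  have hcard : Fintype.card b = CurveOrd.kdim K U := by
    unfold CurveOrd.kdim
    rw [← hb2]
    have := finrank_span_eq_card hb3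
    rw [Subtype.range_coe] at this
    exact this.symm
  let e := (Fintype.equivFinOfCardEq hcard).symm
  refine ⟨fun i => (e i : V), fun i => hb1 (e i).2, hb3.comp e e.injective, ?_⟩
  rw [← hb2]
  congr 1
  ext x
  constructor
  · rintro ⟨i, rfl⟩
    exact (e i).2
  · intro hx
    exact ⟨e.symm ⟨x, hx⟩, by simp⟩

theorem finite_satD (P₀ : X.Pt) (D : X.Pt →₀ ℤ) (U : Submodule ℂ V) [FiniteDimensional ℂ U] :
    FiniteDimensional ℂ (X.satD D U) := by
  obtain ⟨w, hwU, hw, hspan⟩ := exists_basis (K := K) U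
  obtain ⟨g, hg⟩ := exists_coord hw
  obtain ⟨B, -, hB⟩ := X.exists_map_le_L g U
  have := X.finite_L P₀ (D + B)
  let φ : X.satD D U →ₗ[ℂ] (Fin (CurveOrd.kdim K U) → X.L (D + B)) :=
    { toFun := fun f i => ⟨g (f : V) i, X.map_mem_L g i (fun u hu => hB u hu i) f.2⟩
      map_add' := by
        intro x y
        funext i
        apply Subtype.ext
        show g ((x : V) + y) i = _
        rw [map_add]
        rfl
      map_smul' := by
        intro c x
        funext i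
        apply Subtype.ext
        show g (c • (x : V)) i = _
        rw [← algebraMap_smul K c (x : V), map_smul, Pi.smul_apply, algebraMap_smul]
        rfl }
  apply FiniteDimensional.of_injective φ
  intro x y hxy
  apply Subtype.ext
  have hx := coord_sum hg (f := (x : V)) (by
    rw [hspan]
    exact X.satD_le_span P₀ D U x.2)
  have hy := coord_sum hg (f := (y : V)) (by
    rw [hspan]
    exact X.satD_le_span P₀ D U y.2)
  rw [← hx, ← hy]
  apply Finset.sum_congr rfl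
  intro i _
  have h1 : (φ x i : K) = φ y i := by rw [hxy]
  have h2 : g (x : V) i = g (y : V) i := h1
  rw [h2]

end Curve

end Pool.Agent.YTD


end

/- source: Pool.Agent.YTD.SatB2 -/

section

/-!
Local bases of the sheaf generated by a space of sections, and the growth of the dimension of the
space of global sections.
-/

namespace Pool.Agent.YTD

open Finset Module MvPolynomial Filter

namespace Curve

variable {K : Type} [Field K] [Algebra ℂ K] (X : Curve K)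

theorem mem_OO_of_ord {P : X.Pt} {z : K} (h : z ≠ 0 → 0 ≤ X.ord P z) : z ∈ X.OO P := h

/-- The local ring is a principal ideal domain. -/
theorem OO_isPrincipalIdealRing (P : X.Pt) : IsPrincipalIdealRing (X.OO P) := by
  refine ⟨fun I => ?_⟩
  by_cases hI : I = ⊥
  · rw [hI]
    exact ⟨0, by simp⟩
  obtain ⟨x, hxI, hx0⟩ := Submodule.exists_mem_ne_zero_of_ne_bot hI
  have hne : ∃ n : ℕ, ∃ a ∈ I, a ≠ 0 ∧ X.ord P (a : K) = n := by
    have h1 : (x : K) ≠ 0 := fun h => hx0 (Subtype.ext h)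
    refine ⟨(X.ord P (x : K)).toNat, x, hxI, hx0, ?_⟩
    rw [Int.toNat_of_nonneg (x.2 h1)]
  classical
  obtain ⟨a, haI, ha0, ha⟩ := Nat.find_spec hne
  have hmin : ∀ b ∈ I, b ≠ 0 → X.ord P (a : K) ≤ X.ord P (b : K) := by
    intro b hb hb0
    have h1 : (b : K) ≠ 0 := fun h => hb0 (Subtype.ext h)
    have h2 : Nat.find hne ≤ (X.ord P (b : K)).toNat :=
      Nat.find_min' hne ⟨b, hb, hb0, by rw [Int.toNat_of_nonneg (b.2 h1)]⟩
    rw [ha]
    have h3 := b.2 h1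
    omega
  refine ⟨a, ?_⟩
  apply le_antisymm
  · intro b hb
    by_cases hb0 : b = 0
    · rw [hb0]
      exact Submodule.zero_mem _
    have h1 : (b : K) ≠ 0 := fun h => hb0 (Subtype.ext h)
    have h2 : (a : K) ≠ 0 := fun h => ha0 (Subtype.ext h)
    rw [Submodule.mem_span_singleton]
    refine ⟨⟨(b : K) * (a : K)⁻¹, fun _ => ?_⟩, ?_⟩
    · rw [X.ord_mul P _ _ h1 (inv_ne_zero h2), X.ord_inv P h2]
      have := hmin b hb hb0
      linarith
    · apply Subtype.ext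
      show (b : K) * (a : K)⁻¹ * (a : K) = b
      rw [mul_assoc, inv_mul_cancel₀ h2, mul_one]
  · rw [Submodule.span_singleton_le_iff_mem]
    exact haI

variable {V : Type} [AddCommGroup V] [Module K V] [Module ℂ V] [IsScalarTower ℂ K V]

omit [IsScalarTower ℂ K V] [Module ℂ V] in
theorem linearIndependent_of_OO (P : X.Pt) {ι : Type} [Fintype ι] {b : ι → V}
    (hb : LinearIndependent (X.OO P) b) : LinearIndependent K b := by
  classical
  rw [Fintype.linearIndependent_iff] at hb ⊢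
  intro a ha
  -- a common denominator
  obtain ⟨n, hn⟩ : ∃ n : ℕ, ∀ i, a i ≠ 0 → -(n : ℤ) ≤ X.ord P (a i) := by
    refine ⟨∑ i, (X.ord P (a i)).natAbs, fun i _ => ?_⟩
    have h1 : (X.ord P (a i)).natAbs ≤ ∑ i, (X.ord P (a i)).natAbs :=
      Finset.single_le_sum (f := fun i => (X.ord P (a i)).natAbs) (fun _ _ => Nat.zero_le _)
        (Finset.mem_univ i)
    omega
  obtain ⟨z, hz0, hz⟩ := X.exists_ord P n
  have hmem : ∀ i, z * a i ∈ X.OO P := by
    intro i h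
    have hi : a i ≠ 0 := right_ne_zero_of_mul h
    rw [X.ord_mul P _ _ hz0 hi, hz]
    have := hn i hi
    linarith
  have h1 := hb (fun i => ⟨z * a i, hmem i⟩) (by
    have e : ∀ i, (⟨z * a i, hmem i⟩ : X.OO P) • b i = z • (a i • b i) := by
      intro i
      rw [smul_smul]
      rfl
    simp only [e]
    rw [← Finset.smul_sum, ha, smul_zero])
  intro i
  have h2 : z * a i = 0 := congrArg Subtype.val (h1 i)
  exact (mul_eq_zero.1 h2).resolve_left hz0

/-- The stalks are free of rank `kdim`. -/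
theorem exists_local_basis (P : X.Pt) (U : Submodule ℂ V) [FiniteDimensional ℂ U] :
    ∃ b : Fin (CurveOrd.kdim K U) → V, LinearIndependent K b ∧
      X.loc P U = Submodule.span (X.OO P) (Set.range b) := by
  have h1 := X.OO_isPrincipalIdealRing P
  have h2 : Module.Finite (X.OO P) (X.loc P U) :=
    Module.Finite.iff_fg.2 (X.loc_fg P U)
  have h3 : Module.IsTorsionFree (X.OO P) (X.loc P U) := by
    apply Module.IsTorsionFree.of_smul_eq_zero
    intro r m h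
    have h4 : (r : K) • (m : V) = 0 := congrArg Subtype.val h
    rcases smul_eq_zero.1 h4 with h5 | h5
    · exact Or.inl (Subtype.ext h5)
    · exact Or.inr (Subtype.ext h5)
  have h4 : Module.Free (X.OO P) (X.loc P U) := inferInstance
  have b := Module.finBasis (X.OO P) (X.loc P U)
  have hli : LinearIndependent (X.OO P) (fun i => (b i : V)) :=
    b.linearIndependent.map' (X.loc P U).subtype (Submodule.ker_subtype _)
  have hspan : X.loc P U = Submodule.span (X.OO P) (Set.range fun i => (b i : V)) := by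
    have h5 := b.span_eq
    have h6 := congrArg (Submodule.map (X.loc P U).subtype) h5
    rw [Submodule.map_span, Submodule.map_top, Submodule.range_subtype, ← Set.range_comp] at h6
    exact h6.symm
  have hK := X.linearIndependent_of_OO P hli
  have hspanK : Submodule.span K (Set.range fun i => (b i : V)) =
      Submodule.span K (U : Set V) := by
    apply le_antisymm
    · apply Submodule.span_le.2
      rintro _ ⟨i, rfl⟩
      exact X.loc_le_span P U (b i).2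
    · apply Submodule.span_le.2
      intro u hu
      have h7 : u ∈ X.loc P U := Submodule.subset_span hu
      rw [hspan] at h7
      exact Submodule.span_le_restrictScalars (X.OO P) K _ h7
  have hcard : finrank (X.OO P) (X.loc P U) = CurveOrd.kdim K U := by
    unfold CurveOrd.kdim
    rw [← hspanK, finrank_span_eq_card hK, Fintype.card_fin]
  rw [← hcard]
  exact ⟨fun i => (b i : V), hK, hspan⟩

theorem finrank_satD_add_single (D : X.Pt →₀ ℤ) (P : X.Pt) (U : Submodule ℂ V)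
    [FiniteDimensional ℂ U] : finrank ℂ (X.satD (D + Finsupp.single P 1) U) ≤
      finrank ℂ (X.satD D U) + CurveOrd.kdim K U := by
  classical
  obtain ⟨b, hb, hbs⟩ := X.exists_local_basis P U
  obtain ⟨g, hg⟩ := exists_coord hb
  obtain ⟨z₀, hz0, hz⟩ := X.exists_ord P (D P + 1)
  have := X.infinite_Pt P
  obtain ⟨P₁, hP₁⟩ := exists_ne P
  obtain ⟨ρ, hρ⟩ := X.exists_residue hP₁
  have := X.finite_satD P D U
  have := X.finite_satD P (D + Finsupp.single P 1) U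
  have hcoord : ∀ x ∈ X.loc P U, (∀ i, g x i ∈ X.ovan P 0) ∧ ∑ i, g x i • b i = x := by
    intro x hx
    rw [hbs] at hx
    obtain ⟨a, ha⟩ := (Submodule.mem_span_range_iff_exists_fun (X.OO P)).1 hx
    have e : g x = fun i => (a i : K) := by
      rw [← ha, ← hg (fun i => (a i : K))]
      rfl
    refine ⟨fun i => ?_, ?_⟩
    · rw [e]
      exact (a i).2
    · rw [e, ← ha]
      rfl
  have hmem : ∀ f ∈ X.satD (D + Finsupp.single P 1) U, z₀ • f ∈ X.loc P U := by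
    intro f hf
    apply hf P z₀ hz0
    rw [Finsupp.add_apply, Finsupp.single_eq_same, hz]
  let φ : X.satD (D + Finsupp.single P 1) U →ₗ[ℂ] (Fin (CurveOrd.kdim K U) → ℂ) :=
    { toFun := fun f i => ρ (g (z₀ • (f : V)) i)
      map_add' := by
        intro x y
        funext i
        show ρ (g (z₀ • ((x : V) + y)) i) = _
        rw [smul_add, map_add, Pi.add_apply, map_add]
        rfl
      map_smul' := by
        intro c x
        funext i
        show ρ (g (z₀ • (c • (x : V))) i) = _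
        rw [← algebraMap_smul K c (x : V), smul_comm, map_smul, Pi.smul_apply, algebraMap_smul,
          map_smul]
        rfl }
  have hker : (LinearMap.ker φ).map (Submodule.subtype _) ≤ X.satD D U := by
    rintro _ ⟨f, hf, rfl⟩
    rw [SetLike.mem_coe, LinearMap.mem_ker] at hf
    obtain ⟨h1, h2⟩ := hcoord _ (hmem f f.2)
    have h3 : ∀ i, g (z₀ • (f : V)) i ∈ X.ovan P 1 := fun i =>
      (hρ _ (h1 i)).1 (congrFun hf i)
    show (f : V) ∈ X.satD D U
    intro Q w hw hDQ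
    by_cases hQ : Q = P
    · subst hQ
      have h4 : w • (f : V) = ∑ i, (w * z₀⁻¹ * g (z₀ • (f : V)) i) • b i := by
        have e : w • (f : V) = (w * z₀⁻¹) • (z₀ • (f : V)) := by
          rw [smul_smul, mul_assoc, inv_mul_cancel₀ hz0, mul_one]
        rw [e]
        conv_lhs => rw [← h2]
        rw [Finset.smul_sum]
        apply Finset.sum_congr rfl
        intro i _
        rw [smul_smul]
      rw [h4, hbs]
      apply Submodule.sum_mem
      intro i _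
      have h5 : w * z₀⁻¹ * g (z₀ • (f : V)) i ∈ X.OO Q := by
        intro h0
        have h6 : g (z₀ • (f : V)) i ≠ 0 := right_ne_zero_of_mul h0
        rw [X.ord_mul Q _ _ (mul_ne_zero hw (inv_ne_zero hz0)) h6,
          X.ord_mul Q _ _ hw (inv_ne_zero hz0), X.ord_inv Q hz0, hz]
        have := h3 i h6
        linarith
      exact Submodule.smul_mem _ (⟨_, h5⟩ : X.OO Q) (Submodule.subset_span ⟨i, rfl⟩)
    · apply f.2 Q w hw
      rw [Finsupp.add_apply, Finsupp.single_eq_of_ne hQ, add_zero]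
      exact hDQ
  have h1 := Submodule.finrank_mono hker
  rw [Submodule.finrank_map_subtype_eq] at h1
  have h2 := LinearMap.finrank_range_add_finrank_ker φ
  have h3 := Submodule.finrank_le (LinearMap.range φ)
  rw [Module.finrank_fin_fun] at h3
  omega

theorem finrank_satD_le (P₀ : X.Pt) {D E : X.Pt →₀ ℤ} (h : ∀ P, D P ≤ E P) (U : Submodule ℂ V)
    [FiniteDimensional ℂ U] : (finrank ℂ (X.satD E U) : ℤ) ≤
      finrank ℂ (X.satD D U) + CurveOrd.kdim K U * (X.deg E - X.deg D) := by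
  classical
  obtain ⟨n, hn⟩ : ∃ n : ℕ, X.deg E - X.deg D = n :=
    ⟨(X.deg E - X.deg D).toNat, by
      have := X.deg_mono h
      rw [Int.toNat_of_nonneg (by linarith)]⟩
  induction n generalizing E with
  | zero =>
    have e : E = D := by
      by_contra hne
      obtain ⟨P, hP⟩ : ∃ P, D P < E P := by
        by_contra hcon
        push Not at hcon
        apply hne
        ext P
        exact le_antisymm (hcon P) (h P)
      have h1 : ∀ Q, (D + Finsupp.single P 1 : X.Pt →₀ ℤ) Q ≤ E Q := by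
        intro Q
        rw [Finsupp.add_apply, Finsupp.single_apply]
        split_ifs with hQ
        · subst hQ
          linarith
        · rw [add_zero]
          exact h Q
      have h2 := X.deg_mono h1
      rw [X.deg_add, X.deg_single] at h2
      push_cast at hn
      linarith
    subst e
    rw [sub_self, mul_zero, add_zero]
  | succ n ih =>
    obtain ⟨P, hP⟩ : ∃ P, D P < E P := by
      by_contra hcon
      push Not at hcon
      have h2 := X.deg_mono hcon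
      push_cast at hn
      linarith [Int.natCast_nonneg n]
    have h1 : ∀ Q, D Q ≤ (E - Finsupp.single P 1 : X.Pt →₀ ℤ) Q := by
      intro Q
      rw [Finsupp.sub_apply, Finsupp.single_apply]
      split_ifs with hQ
      · subst hQ
        linarith
      · rw [sub_zero]
        exact h Q
    have h2 := ih h1 (by
      rw [X.deg_sub, X.deg_single]
      push_cast at hn
      linarith)
    have h3 := X.finrank_satD_add_single (E - Finsupp.single P 1) P U
    rw [sub_add_cancel] at h3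
    rw [X.deg_sub, X.deg_single] at h2
    have h4 : (finrank ℂ (X.satD E U) : ℤ) ≤
        finrank ℂ (X.satD (E - Finsupp.single P 1) U) + CurveOrd.kdim K U := by
      exact_mod_cast h3
    nlinarith

end Curve

end Pool.Agent.YTD


end

/- source: Pool.Agent.YTD.SatC -/

section

/-!
A bound for the dimension of the first cohomology of the sheaf generated by a space of sections.
-/

namespace Pool.Agent.YTD

open Finset Module MvPolynomial Filter

namespace Curve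

variable {K : Type} [Field K] [Algebra ℂ K] (X : Curve K)
variable {V : Type} [AddCommGroup V] [Module K V] [Module ℂ V] [IsScalarTower ℂ K V]

/-- linearly equivalent twists -/
theorem finrank_satD_add_dv {D : X.Pt →₀ ℤ} {U : Submodule ℂ V} {z : K} (hz : z ≠ 0) :
    finrank ℂ (X.satD (D + X.dv z) U) = finrank ℂ (X.satD D U) := by
  let φ : V →ₗ[ℂ] V :=
    { toFun := fun f => z • f
      map_add' := fun x y => smul_add z x y
      map_smul' := fun c x => by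
        show z • c • x = c • z • x
        rw [← algebraMap_smul K c x, ← algebraMap_smul K c (z • x), smul_comm] }
  have hinj : Function.Injective φ := by
    intro x y h
    have h1 : z • x = z • y := h
    have h2 := congrArg (fun v => z⁻¹ • v) h1
    simp only [smul_smul, inv_mul_cancel₀ hz, one_smul] at h2
    exact h2
  have e : (X.satD (D + X.dv z) U).map φ = X.satD D U := by
    ext f
    constructor
    · rintro ⟨x, hx, rfl⟩
      exact (X.smul_mem_satD hz).2 hx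
    · intro hf
      refine ⟨z⁻¹ • f, ?_, ?_⟩
      · apply (X.smul_mem_satD hz).1
        rw [smul_smul, mul_inv_cancel₀ hz, one_smul]
        exact hf
      · show z • z⁻¹ • f = f
        rw [smul_smul, mul_inv_cancel₀ hz, one_smul]
  rw [← e]
  exact LinearEquiv.finrank_eq (Submodule.equivMapOfInjective φ hinj _)

/-- The constants are the only functions without poles. -/
theorem finrank_L_zero_le (P₀ : X.Pt) : finrank ℂ (X.L 0) ≤ 1 := by
  have := X.infinite_Pt P₀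
  obtain ⟨P₁, hP₁⟩ := exists_ne P₀
  have h1 : X.L 0 ≤ Submodule.span ℂ {(1 : K)} := by
    intro f hf
    have h2 : f ∈ X.ovan P₀ 0 := by
      intro h
      have := hf h P₀
      rwa [Finsupp.zero_apply, add_zero] at this
    obtain ⟨x, hx⟩ := X.exists_const_sub_mem hP₁ h2
    have h3 : algebraMap ℂ K x ∈ X.L 0 := by
      intro h P
      have hx0 : x ≠ 0 := by
        rintro rfl
        exact h (map_zero _)
      rw [X.ord_const P x hx0, Finsupp.zero_apply, add_zero]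
    have h4 : f - algebraMap ℂ K x ∈ X.L 0 := sub_mem hf h3
    have h5 : f - algebraMap ℂ K x ∈ X.L (-(Finsupp.single P₀ 1)) := by
      classical
      intro h P
      rw [Finsupp.neg_apply, Finsupp.single_apply]
      split_ifs with hP
      · subst hP
        have := hx h
        linarith
      · have := h4 h P
        rw [Finsupp.zero_apply] at this
        linarith
    rw [X.L_eq_bot (by rw [X.deg_neg, X.deg_single]; norm_num), Submodule.mem_bot,
      sub_eq_zero] at h5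
    rw [Submodule.mem_span_singleton]
    refine ⟨x, ?_⟩
    rw [h5, Algebra.smul_def, mul_one]
  have h2 := Submodule.finrank_mono h1
  exact h2.trans (finrank_span_singleton one_ne_zero).le

/-- The space of the combinations `∑ aᵢ wᵢ` with `aᵢ ∈ L(Eᵢ)`. -/
noncomputable def combo {ι : Type} [Fintype ι] (w : ι → V) (E : ι → X.Pt →₀ ℤ) :
    (∀ i, X.L (E i)) →ₗ[ℂ] V where
  toFun a := ∑ i, (a i : K) • w i
  map_add' a b := by
    rw [← Finset.sum_add_distrib]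
    apply Finset.sum_congr rfl
    intro i _
    rw [← add_smul]
    rfl
  map_smul' c a := by
    rw [RingHom.id_apply, Finset.smul_sum]
    apply Finset.sum_congr rfl
    intro i _
    rw [← smul_assoc]
    rfl

theorem finrank_range_combo {ι : Type} [Fintype ι] {w : ι → V} (hw : LinearIndependent K w)
    (E : ι → X.Pt →₀ ℤ) (P₀ : X.Pt) :
    finrank ℂ (LinearMap.range (X.combo w E)) = ∑ i, finrank ℂ (X.L (E i)) := by
  have hfin : ∀ i, FiniteDimensional ℂ (X.L (E i)) := fun i => X.finite_L P₀ (E i)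
  obtain ⟨g, hg⟩ := exists_coord hw
  have hinj : Function.Injective (X.combo w E) := by
    intro a b hab
    funext i
    apply Subtype.ext
    have h1 : g (∑ i, (a i : K) • w i) = g (∑ i, (b i : K) • w i) := congrArg g hab
    rw [hg, hg] at h1
    exact congrFun h1 i
  rw [LinearMap.finrank_range_of_inj hinj, Module.finrank_pi_fintype]

theorem finrank_add_le_of_good {ι : Type} [Fintype ι] {w : ι → V} (hw : LinearIndependent K w)
    {g : V →ₗ[K] (ι → K)} (hg : ∀ a : ι → K, g (∑ i, a i • w i) = a)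
    (P₀ : X.Pt) (U : Submodule ℂ V) [FiniteDimensional ℂ U]
    (D : ι → X.Pt →₀ ℤ)
    (h : ∀ i P (z : K), z ≠ 0 → -(D i P) ≤ X.ord P z → z • w i ∈ X.loc P U)
    {A : X.Pt →₀ ℤ} (hA : ∀ P, 0 ≤ A P)
    (hgood : ∀ P, A P ≠ 0 → ∀ i, D i P = 0 ∧ ∀ u ∈ U, g u i ∈ X.ovan P 0) :
    finrank ℂ (X.satD 0 U) + ∑ i, finrank ℂ (X.L (D i + A)) ≤
      finrank ℂ (X.satD A U) + ∑ i, finrank ℂ (X.L (D i)) := by
  have h0 := X.finite_satD P₀ 0 U
  have hAf := X.finite_satD P₀ A U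
  have hfin : ∀ i, FiniteDimensional ℂ (X.L (D i + A)) := fun i => X.finite_L P₀ _
  have hfin' : ∀ i, FiniteDimensional ℂ (X.L (D i)) := fun i => X.finite_L P₀ _
  set M := LinearMap.range (X.combo w (fun i => D i + A)) with hM
  set M₀ := LinearMap.range (X.combo w D) with hM₀
  have h1 : X.satD 0 U ≤ X.satD A U := X.satD_mono (fun P => hA P) le_rfl
  have h2 : M ≤ X.satD A U := by
    rintro _ ⟨a, rfl⟩ P z hz0 hz
    show z • ∑ i, (a i : K) • w i ∈ _
    rw [Finset.smul_sum]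
    apply Submodule.sum_mem
    intro i _
    rw [smul_smul]
    by_cases ha : (a i : K) = 0
    · rw [ha, mul_zero, zero_smul]
      exact zero_mem _
    apply h i P _ (mul_ne_zero hz0 ha)
    rw [X.ord_mul P _ _ hz0 ha]
    have h3 := (a i).2 ha P
    rw [Finsupp.add_apply] at h3
    linarith
  have h3 : X.satD 0 U ⊓ M ≤ M₀ := by
    rintro f ⟨hf, ⟨a, rfl⟩⟩
    have hga : g (X.combo w (fun i => D i + A) a) = fun i => (a i : K) := hg _
    have hmem : ∀ i, (a i : K) ∈ X.L (D i) := by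
      intro i ha P
      by_cases hP : A P = 0
      · have h4 := (a i).2 ha P
        rwa [Finsupp.add_apply, hP, add_zero] at h4
      · obtain ⟨h5, h6⟩ := hgood P hP i
        have h7 := X.map_mem_ovan g i h6 (X.mem_satD_zero.1 hf P)
        rw [hga] at h7
        have h8 := h7 ha
        rw [h5]
        linarith
    exact ⟨fun i => ⟨a i, hmem i⟩, rfl⟩
  have h4 := Submodule.finrank_mono (sup_le h1 h2)
  have h5 := Submodule.finrank_mono h3
  have h6 := Submodule.finrank_sup_add_finrank_inf_eq (X.satD 0 U) M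
  rw [hM, X.finrank_range_combo hw _ P₀, ← hM] at h6
  rw [hM₀, X.finrank_range_combo hw _ P₀] at h5
  omega

theorem finrank_L_add_single (Q : X.Pt) {D : X.Pt →₀ ℤ} {n : ℕ}
    (hD : 2 * (X.genus : ℤ) - 1 ≤ X.deg D) :
    finrank ℂ (X.L D) + n = finrank ℂ (X.L (D + Finsupp.single Q (n : ℤ))) := by
  have h1 := X.riemann_roch D (by linarith)
  have h2 := X.riemann_roch (D + Finsupp.single Q (n : ℤ)) (by
    rw [X.deg_add, X.deg_single]
    linarith [Int.natCast_nonneg n])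
  rw [X.deg_add, X.deg_single] at h2
  omega

theorem finrank_L_single (Q : X.Pt) {n : ℕ} (hn : 2 * X.genus ≤ n) :
    finrank ℂ (X.L 0) + n ≤ finrank ℂ (X.L (0 + Finsupp.single Q (n : ℤ))) + X.genus := by
  have h1 := X.finrank_L_zero_le Q
  have h2 := X.riemann_roch (0 + Finsupp.single Q (n : ℤ)) (by
    rw [zero_add, X.deg_single]
    omega)
  rw [zero_add, X.deg_single] at h2
  rw [zero_add]
  omega

theorem bd_of_family (P₀ : X.Pt) (U : Submodule ℂ V) [FiniteDimensional ℂ U] {k₁ : ℕ}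
    (v : Fin k₁ → V) (hv : LinearIndependent K v) (D : Fin k₁ → X.Pt →₀ ℤ)
    (hD : ∀ i, 2 * (X.genus : ℤ) - 1 ≤ X.deg (D i))
    (h : ∀ i P (z : K), z ≠ 0 → -(D i P) ≤ X.ord P z → z • v i ∈ X.loc P U) :
    X.Bd U (X.genus * (CurveOrd.kdim K U - k₁)) := by
  classical
  obtain ⟨b, hbt, hvb, htb, hb⟩ := exists_linearIndepOn_id_extension (s := Set.range v)
    (t := Set.range v ∪ (U : Set V)) hv.linearIndepOn_id Set.subset_union_left
  have hvspan : ∀ i, v i ∈ Submodule.span K (U : Set V) := by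
    intro i
    obtain ⟨z, hz0, hz⟩ := X.exists_ord P₀ (-(D i P₀))
    have h1 := X.loc_le_span P₀ U (h i P₀ z hz0 hz.ge)
    have h2 := Submodule.smul_mem _ z⁻¹ h1
    rwa [smul_smul, inv_mul_cancel₀ hz0, one_smul] at h2
  have hbspan : Submodule.span K b = Submodule.span K (U : Set V) := by
    apply le_antisymm
    · apply Submodule.span_le.2
      intro x hx
      rcases hbt hx with ⟨i, rfl⟩ | hx
      · exact hvspan i
      · exact Submodule.subset_span hx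
    · apply Submodule.span_le.2
      intro x hx
      exact htb (Or.inr hx)
  obtain ⟨w₀, -, hw₀, hw₀s⟩ := exists_basis (K := K) U
  have hfin : FiniteDimensional K (Submodule.span K b) := by
    rw [hbspan, ← hw₀s]
    exact FiniteDimensional.span_of_finite K (Set.finite_range w₀)
  have hbli : LinearIndependent K (fun x : b => (x : V)) := hb
  have hbfin : Finite b := by
    have h3 : LinearIndependent K (fun x : b => (⟨x, Submodule.subset_span x.2⟩ :
        Submodule.span K b)) := by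
      apply LinearIndependent.of_comp (Submodule.subtype _)
      exact hbli
    exact h3.finite
  have := Fintype.ofFinite b
  have hcard : Fintype.card b = CurveOrd.kdim K U := by
    unfold CurveOrd.kdim
    rw [← hbspan]
    have := finrank_span_eq_card hbli
    rw [Subtype.range_coe] at this
    exact this.symm
  obtain ⟨g, hg⟩ := exists_coord hbli
  obtain ⟨B, hB0, hB⟩ := X.exists_map_le_L g U
  let D' : b → X.Pt →₀ ℤ := fun x =>
    if hx : (x : V) ∈ Set.range v then D hx.choose else 0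
  have hD' : ∀ (x : b) P (z : K), z ≠ 0 → -(D' x P) ≤ X.ord P z → z • (x : V) ∈ X.loc P U := by
    intro x P z hz0 hz
    by_cases hx : (x : V) ∈ Set.range v
    · simp only [D', dif_pos hx] at hz
      have h1 := h _ P z hz0 hz
      rwa [hx.choose_spec] at h1
    · simp only [D', dif_neg hx, Finsupp.zero_apply, neg_zero] at hz
      apply X.smul_mem_loc (fun _ => hz)
      rcases hbt x.2 with h1 | h1
      · exact (hx h1).elim
      · exact X.mem_loc P h1
  -- a good point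
  have := X.infinite_Pt P₀
  obtain ⟨Q, hQ⟩ := (B.support ∪ Finset.univ.biUnion fun x : b => (D' x).support).exists_notMem
  rw [Finset.mem_union, not_or, Finset.mem_biUnion] at hQ
  push Not at hQ
  obtain ⟨hQ1, hQ2⟩ := hQ
  rw [Finsupp.notMem_support_iff] at hQ1
  have hQ3 : ∀ x : b, D' x Q = 0 := fun x =>
    Finsupp.notMem_support_iff.1 (hQ2 x (Finset.mem_univ x))
  -- the inequality for multiples of `Q`
  let c : b → ℕ := fun x => if (x : V) ∈ Set.range v then 0 else X.genus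
  have hc : ∑ x, c x = X.genus * (CurveOrd.kdim K U - k₁) := by
    have h1 : ∀ x : b, c x = X.genus * (if ¬ (x : V) ∈ Set.range v then 1 else 0) := by
      intro x
      by_cases hx : (x : V) ∈ Set.range v
      · rw [if_neg (not_not.2 hx), mul_zero]
        exact if_pos hx
      · rw [if_pos hx, mul_one]
        exact if_neg hx
    rw [Finset.sum_congr rfl fun x _ => h1 x, ← Finset.mul_sum, Finset.sum_boole]
    congr 1
    have h2 : #{x : b | (x : V) ∈ Set.range v} = k₁ := by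
      have h3 : ({x : b | (x : V) ∈ Set.range v} : Finset b) =
          Finset.univ.image fun i : Fin k₁ => (⟨v i, hvb ⟨i, rfl⟩⟩ : b) := by
        ext x
        simp only [Finset.mem_filter, Finset.mem_univ, true_and, Finset.mem_image, Set.mem_range]
        constructor
        · rintro ⟨i, hi⟩
          exact ⟨i, Subtype.ext hi⟩
        · rintro ⟨i, hi⟩
          exact ⟨i, congrArg Subtype.val hi⟩
      rw [h3, Finset.card_image_of_injective, Finset.card_univ, Fintype.card_fin]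
      intro i j hij
      exact hv.injective (congrArg Subtype.val hij)
    have h4 := Finset.card_filter_add_card_filter_not (s := (Finset.univ : Finset b))
      (fun x : b => (x : V) ∈ Set.range v)
    rw [Finset.card_univ, hcard, h2] at h4
    simp only [Nat.cast_id]
    omega
  have hkey : ∀ n : ℕ, 2 * X.genus ≤ n → finrank ℂ (X.satD 0 U) + n * CurveOrd.kdim K U ≤
      finrank ℂ (X.satD (Finsupp.single Q (n : ℤ)) U) +
        X.genus * (CurveOrd.kdim K U - k₁) := by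
    intro n hn
    have h1 := X.finrank_add_le_of_good hbli hg P₀ U D' hD' (A := Finsupp.single Q (n : ℤ))
      (by
        intro P
        rw [Finsupp.single_apply]
        split_ifs <;> omega)
      (by
        intro P hP x
        have hPQ : P = Q := by
          by_contra hne
          exact hP (Finsupp.single_eq_of_ne hne)
        subst hPQ
        refine ⟨hQ3 x, fun u hu h0 => ?_⟩
        have := hB u hu x h0 P
        rw [hQ1, add_zero] at this
        exact this)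
    have h2 : ∀ x : b, finrank ℂ (X.L (D' x)) + n ≤
        finrank ℂ (X.L (D' x + Finsupp.single Q (n : ℤ))) + c x := by
      intro x
      by_cases hx : (x : V) ∈ Set.range v
      · have e1 : D' x = D hx.choose := dif_pos hx
        have e2 : c x = 0 := if_pos hx
        rw [e1, e2, add_zero]
        exact (X.finrank_L_add_single Q (hD _)).le
      · have e1 : D' x = 0 := dif_neg hx
        have e2 : c x = X.genus := if_neg hx
        rw [e1, e2]
        exact X.finrank_L_single Q hn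
    have h3 := Finset.sum_le_sum fun x (_ : x ∈ (Finset.univ : Finset b)) => h2 x
    rw [Finset.sum_add_distrib, Finset.sum_add_distrib, hc, Finset.sum_const, Finset.card_univ,
      hcard, smul_eq_mul] at h3
    have h4 : CurveOrd.kdim K U * n = n * CurveOrd.kdim K U := mul_comm _ _
    omega
  -- the general case
  intro A hA
  have hdegA := X.deg_nonneg hA
  set n : ℕ := 2 * X.genus + (X.deg A).toNat with hn
  have hn' : (n : ℤ) = 2 * X.genus + X.deg A := by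
    rw [hn]
    push_cast
    rw [Int.toNat_of_nonneg hdegA]
  have hne : X.L (Finsupp.single Q (n : ℤ) - A) ≠ ⊥ := by
    apply X.L_ne_bot
    rw [X.deg_sub, X.deg_single]
    linarith
  obtain ⟨z, hz, hz0⟩ := Submodule.exists_mem_ne_zero_of_ne_bot hne
  have h1 := X.finrank_satD_le P₀ (D := A) (E := Finsupp.single Q (n : ℤ) + X.dv z) (by
    intro P
    have := hz hz0 P
    rw [Finsupp.sub_apply] at this
    rw [Finsupp.add_apply, X.dv_apply hz0]
    linarith) U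
  rw [X.finrank_satD_add_dv hz0, X.deg_add, X.deg_single, X.deg_dv hz0] at h1
  have h2 := hkey n (by omega)
  have h3 : (finrank ℂ (X.satD 0 U) : ℤ) + n * CurveOrd.kdim K U ≤
      finrank ℂ (X.satD (Finsupp.single Q (n : ℤ)) U) +
        (X.genus * (CurveOrd.kdim K U - k₁) : ℕ) := by
    exact_mod_cast h2
  have h4 : (CurveOrd.kdim K U : ℤ) * ((n : ℤ) + 0 - X.deg A) =
      n * CurveOrd.kdim K U - CurveOrd.kdim K U * X.deg A := by ring
  rw [h4] at h1
  linarith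

end Curve

end Pool.Agent.YTD


end

/- source: Pool.Agent.YTD.SatD -/

section

/-!
Local generation of the section ring by the invariants of `Γ`.
-/

namespace Pool.Agent.YTD

open Finset Module MvPolynomial Filter

variable {K : Type} [Field K] [Algebra ℂ K]

/-- The functions with orders at least `d`. -/
def CurveOrd.Lf (X : CurveOrd K) (d : X.Pt → ℤ) : Submodule ℂ K where
  carrier := {z | z ≠ 0 → ∀ Q, d Q ≤ X.ord Q z}
  zero_mem' := fun h => (h rfl).elim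
  add_mem' := by
    intro f g hf hg h Q
    by_cases hf0 : f = 0
    · subst hf0
      rw [zero_add] at h ⊢
      exact hg h Q
    by_cases hg0 : g = 0
    · subst hg0
      rw [add_zero] at h ⊢
      exact hf h Q
    have h1 := X.ord_add Q f g hf0 hg0 h
    have h2 := hf hf0 Q
    have h3 := hg hg0 Q
    rcases min_choice (X.ord Q f) (X.ord Q g) with h4 | h4 <;> rw [h4] at h1 <;> linarith
  smul_mem' := by
    intro x f hf h Q
    have hc : x ≠ 0 := by
      rintro rfl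
      exact h (zero_smul ℂ f)
    have hf0 : f ≠ 0 := by
      rintro rfl
      exact h (smul_zero x)
    rw [Algebra.smul_def, X.ord_mul Q _ _ ((map_ne_zero _).2 hc) hf0, X.ord_const Q x hc, zero_add]
    exact hf hf0 Q

theorem CurveOrd.mem_Lf {X : CurveOrd K} {d : X.Pt → ℤ} {z : K} :
    z ∈ X.Lf d ↔ (z ≠ 0 → ∀ Q, d Q ≤ X.ord Q z) := Iff.rfl

theorem CurveOrd.Lf_mono (X : CurveOrd K) {d d' : X.Pt → ℤ} (h : ∀ Q, d Q ≤ d' Q) :
    X.Lf d' ≤ X.Lf d := fun _ hz h0 Q => (h Q).trans (hz h0 Q)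

theorem Curve.exists_sub_smul (X : Curve K) {P : X.Pt} {z w : K} (hz : z ≠ 0) (hw : w ≠ 0)
    (h : X.ord P z = X.ord P w) :
    ∃ c : ℂ, z - c • w ≠ 0 → X.ord P w < X.ord P (z - c • w) := by
  have hinf := X.infinite_Pt P
  obtain ⟨P₁, hP₁⟩ := exists_ne P
  obtain ⟨c, hc⟩ := X.exists_const_sub_mem (c := P) hP₁ (z := z * w⁻¹) (fun _ => by
    rw [X.ord_mul P _ _ hz (inv_ne_zero hw), X.ord_inv P hw, h]
    linarith)
  refine ⟨c, fun h0 => ?_⟩
  have e : z - c • w = w * (z * w⁻¹ - algebraMap ℂ K c) := by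
    rw [Algebra.smul_def]
    field_simp
  rw [e] at h0 ⊢
  have h1 := right_ne_zero_of_mul h0
  rw [X.ord_mul P _ _ hw h1]
  have := hc h1
  linarith

variable {T : Datum K} {q : ℕ} {D₀ : T.X.Pt →₀ ℤ} {r : ℕ}

open Classical in
/-- The coefficient spaces `V N j` for `j` with `p j`, with additional vanishing `d`. -/
noncomputable def Datum.PV (T : Datum K) (q : ℕ) (D₀ : T.X.Pt →₀ ℤ) (N : ℕ) (p : ℤ → Prop)
    (d : T.X.Pt → ℤ) (j : ℤ) : Submodule ℂ K :=
  if p j then T.X.Lf (fun Q => d Q - T.dvs q D₀ N j Q) else ⊥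

open Classical in
/-- The part of `sec N` supported on the indices `j` with `p j`. -/
noncomputable def Datum.secP (T : Datum K) (q : ℕ) (D₀ : T.X.Pt →₀ ℤ) (N : ℕ) (p : ℤ → Prop) :
    Submodule ℂ (MvPolynomial (Fin 4) K) :=
  bigr q N (fun j => if p j then T.V q D₀ N j else ⊥)

theorem Datum.mem_PV {N : ℕ} {p : ℤ → Prop} {d : T.X.Pt → ℤ} {j : ℤ} {z : K} :
    z ∈ T.PV q D₀ N p d j ↔ (z ≠ 0 → p j ∧ ∀ Q, d Q - T.dvs q D₀ N j Q ≤ T.X.ord Q z) := by
  unfold Datum.PV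
  split_ifs with h
  · rw [CurveOrd.mem_Lf]
    exact ⟨fun h1 h0 => ⟨h, h1 h0⟩, fun h1 h0 => (h1 h0).2⟩
  · rw [Submodule.mem_bot]
    constructor
    · intro h1 h2
      exact (h2 h1).elim
    · intro h1
      by_contra h2
      exact h (h1 h2).1

theorem Datum.secP_eq (T : Datum K) (q : ℕ) (D₀ : T.X.Pt →₀ ℤ) (N : ℕ) (p : ℤ → Prop) :
    T.secP q D₀ N p = bigr q N (T.PV q D₀ N p (fun _ => 0)) := by
  unfold Datum.secP
  congr 1
  funext j
  ext z
  rw [Datum.mem_PV]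
  split_ifs with h
  · unfold Datum.V
    rw [T.X.mem_L]
    constructor
    · intro h1 h0
      exact ⟨h, fun Q => by linarith [h1 h0 Q]⟩
    · intro h1 h0 Q
      linarith [(h1 h0).2 Q]
  · rw [Submodule.mem_bot]
    constructor
    · intro h1 h2
      exact (h2 h1).elim
    · intro h1
      by_contra h2
      exact h (h1 h2).1

theorem Datum.secP_le_sec (T : Datum K) (q : ℕ) (D₀ : T.X.Pt →₀ ℤ) (N : ℕ) (p : ℤ → Prop) :
    T.secP q D₀ N p ≤ T.sec q D₀ N := by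
  rw [sec_eq_bigr]
  apply bigr_mono
  intro j _
  split_ifs
  · exact le_rfl
  · exact bot_le

theorem Datum.secP_true (T : Datum K) (q : ℕ) (D₀ : T.X.Pt →₀ ℤ) (N : ℕ) :
    T.secP q D₀ N (fun _ => True) = T.sec q D₀ N := by
  unfold Datum.secP
  rw [sec_eq_bigr]
  congr 1
  funext j
  rw [if_pos trivial]

theorem PV_mono {N : ℕ} {p : ℤ → Prop} {d d' : T.X.Pt → ℤ} (h : ∀ Q, d Q ≤ d' Q) (j : ℤ) :
    T.PV q D₀ N p d' j ≤ T.PV q D₀ N p d j := by
  intro z hz
  rw [Datum.mem_PV] at hz ⊢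
  exact fun h0 => ⟨(hz h0).1, fun Q => by linarith [(hz h0).2 Q, h Q]⟩

/-! ### The action of `Γ` -/

theorem Sym.mem_PV (κ : Sym T) (hD : κ.Fixes D₀) {N : ℕ} {p : ℤ → Prop} {d : T.X.Pt → ℤ} {j : ℤ}
    {z : K} (hz : z ∈ T.PV q D₀ N p d j) : κ.θ z ∈ T.PV q D₀ N p (fun Q => d (κ.σ Q)) j := by
  rw [Datum.mem_PV] at hz ⊢
  intro h0
  have hz0 : z ≠ 0 := by
    rintro rfl
    exact h0 (map_zero _)
  obtain ⟨h1, h2⟩ := hz hz0
  refine ⟨h1, fun Q => ?_⟩
  have h3 := κ.ord_σ (κ.σ Q) z hz0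
  rw [κ.σσ] at h3
  rw [h3, ← κ.dvs_σ (q := q) hD N j Q]
  exact h2 (κ.σ Q)

theorem Inv.mem_PV (ι : Inv T) (hD : ι.Fixes D₀) {N : ℕ} {p : ℤ → Prop} (hp : ∀ j, p j → p (-j))
    {d : T.X.Pt → ℤ} {j : ℤ} {z : K} (hz : z ∈ T.PV q D₀ N p d j) :
    ι.θ z ∈ T.PV q D₀ N p (fun Q => d (ι.σ Q)) (-j) := by
  rw [Datum.mem_PV] at hz ⊢
  intro h0
  have hz0 : z ≠ 0 := by
    rintro rfl
    exact h0 (map_zero _)
  obtain ⟨h1, h2⟩ := hz hz0
  refine ⟨hp j h1, fun Q => ?_⟩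
  have h3 := ι.ord_σ (ι.σ Q) z hz0
  rw [ι.σσ] at h3
  have h4 := ι.dvs_σ (q := q) hD N j (ι.σ Q)
  rw [ι.σσ] at h4
  rw [h3, h4]
  exact h2 (ι.σ Q)

theorem Sym.coefE_mem_bigr (κ : Sym T) (hD : κ.Fixes D₀) {N : ℕ} {p : ℤ → Prop}
    {d : T.X.Pt → ℤ} {f : MvPolynomial (Fin 4) K} (hf : f ∈ bigr q N (T.PV q D₀ N p d)) :
    MvPolynomial.map (κ.θ : K →+* K) f ∈ bigr q N (T.PV q D₀ N p (fun Q => d (κ.σ Q))) := by
  intro e he
  rw [coeff_map] at he ⊢
  have h0 : f.coeff e ≠ 0 := by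
    intro h0
    apply he
    rw [h0, map_zero]
  obtain ⟨j, h1, h2, h3, h4⟩ := hf e h0
  exact ⟨j, h1, h2, h3, κ.mem_PV hD h4⟩

namespace Gam

variable {γ : Gam T}

theorem E₁_mem_PV (hD : γ.Fixes D₀) {N : ℕ} {p : ℤ → Prop} {d : T.X.Pt → ℤ}
    {f : MvPolynomial (Fin 4) K} (hf : f ∈ bigr q N (T.PV q D₀ N p d)) :
    γ.E₁ f ∈ bigr q N (T.PV q D₀ N p (fun Q => d (γ.σ₁ Q))) := by
  rw [γ.E₁_apply]
  exact γ.sym₁.coefE_mem_bigr hD.fst (subst_mem_bigr s1 s1 hf)

theorem E₂_mem_PV (hD : γ.Fixes D₀) {N : ℕ} {p : ℤ → Prop} {d : T.X.Pt → ℤ}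
    {f : MvPolynomial (Fin 4) K} (hf : f ∈ bigr q N (T.PV q D₀ N p d)) :
    γ.E₂ f ∈ bigr q N (T.PV q D₀ N p (fun Q => d (γ.σ₂ Q))) := by
  rw [γ.E₂_apply]
  exact γ.sym₂.coefE_mem_bigr hD.snd (subst_mem_bigr s2 s2 hf)

theorem tauE_mem_PV (hD : γ.Fixes D₀) {N : ℕ} {p : ℤ → Prop} (hp : ∀ j, p j → p (-j))
    {d : T.X.Pt → ℤ} {f : MvPolynomial (Fin 4) K} (hf : f ∈ bigr q N (T.PV q D₀ N p d)) :
    γ.tauE f ∈ bigr q N (T.PV q D₀ N p (fun Q => d (γ.σ Q))) := by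
  intro e he
  rw [γ.toInv.coeff_tauE] at he ⊢
  have h0 : f.coeff (Inv.swe e) ≠ 0 := by
    intro h0
    apply he
    rw [h0, map_zero]
  obtain ⟨j, h1, h2, h3, h4⟩ := hf _ h0
  rw [Inv.swe_apply, Inv.swe_apply, Inv.swp_0, Inv.swp_1] at h2
  rw [Inv.swe_apply, Inv.swe_apply, Inv.swp_2, Inv.swp_3] at h3
  exact ⟨-j, by rw [abs_neg]; exact h1, by rw [h3]; ring, by rw [h2]; ring,
    γ.toInv.mem_PV hD.inv hp h4⟩

/-- the sum over `Γ` -/
noncomputable def av (γ : Gam T) (f : MvPolynomial (Fin 4) K) : MvPolynomial (Fin 4) K :=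
  ((f + γ.E₁ f) + γ.E₂ (f + γ.E₁ f)) + γ.tauE ((f + γ.E₁ f) + γ.E₂ (f + γ.E₁ f))

theorem E₁_av {f : MvPolynomial (Fin 4) K} (hf : EvenDeg f) : γ.E₁ (γ.av f) = γ.av f := by
  have h1 : γ.E₁ (f + γ.E₁ f) = f + γ.E₁ f := by
    rw [map_add, γ.E₁_E₁, add_comm]
  have h2 : EvenDeg (f + γ.E₁ f) := by
    intro e he
    by_cases h : f.coeff e = 0
    · apply γ.evenDeg_E₁ hf e
      intro h3
      apply he
      rw [coeff_add, h, h3, add_zero]
    · exact hf e h
  have h3 : γ.E₁ ((f + γ.E₁ f) + γ.E₂ (f + γ.E₁ f)) = (f + γ.E₁ f) + γ.E₂ (f + γ.E₁ f) := by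
    rw [map_add, h1, γ.E₁_E₂' h2, h1]
  unfold av
  rw [map_add, γ.E₁_tauE, h3]

theorem E₂_av (f : MvPolynomial (Fin 4) K) : γ.E₂ (γ.av f) = γ.av f := by
  have h3 : γ.E₂ ((f + γ.E₁ f) + γ.E₂ (f + γ.E₁ f)) = (f + γ.E₁ f) + γ.E₂ (f + γ.E₁ f) := by
    rw [map_add, γ.E₂_E₂, add_comm]
  unfold av
  rw [map_add, γ.E₂_tauE, h3]

theorem tauE_av (f : MvPolynomial (Fin 4) K) : γ.tauE (γ.av f) = γ.av f := by
  unfold av
  rw [map_add, γ.toInv.tauE_tauE, add_comm]

theorem av_eq (f : MvPolynomial (Fin 4) K) : γ.av f = f + (γ.E₁ f + γ.E₂ f + γ.E₂ (γ.E₁ f) +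
    γ.tauE f + γ.tauE (γ.E₁ f) + γ.tauE (γ.E₂ f) + γ.tauE (γ.E₂ (γ.E₁ f))) := by
  unfold av
  simp only [map_add]
  ring

end Gam

/-! ### Local generation -/

open Classical in
/-- vanishing at one point -/
noncomputable def delta {α : Type} (P : α) : α → ℤ := fun Q => if Q = P then 1 else 0

/-- Sections vanishing at `P` are in the maximal ideal times the stalk. -/
theorem mem_span_of_vanish {N : ℕ} {p : ℤ → Prop}
    (hdeg : ∀ j, p j → |j| ≤ 5 * q * N → 2 * (T.X.genus : ℤ) ≤ T.X.deg (T.dvs q D₀ N j))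
    (P : T.X.Pt) {f : MvPolynomial (Fin 4) K} (hf : f ∈ bigr q N (T.PV q D₀ N p (delta P))) :
    f ∈ Submodule.span (T.X.OO P) {x : MvPolynomial (Fin 4) K | ∃ z : K,
      (z ≠ 0 → 0 < T.X.ord P z) ∧ ∃ u ∈ T.X.loc P (T.secP q D₀ N p), x = z • u} := by
  rw [f.as_sum]
  refine sum_mem fun e he => ?_
  have he0 := MvPolynomial.mem_support_iff.1 he
  obtain ⟨j, h1, h2, h3, h4⟩ := hf e he0
  rw [Datum.mem_PV] at h4
  obtain ⟨hp, h5⟩ := h4 he0
  obtain ⟨w, hw, hw0, hw1⟩ := T.X.exists_ord_eq P (hdeg j hp h1) P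
  apply Submodule.subset_span
  refine ⟨f.coeff e * w⁻¹, ?_, monomial e w, ?_, ?_⟩
  · intro _
    have h6 := h5 P
    unfold delta at h6
    rw [if_pos rfl] at h6
    rw [T.X.ord_mul P _ _ he0 (inv_ne_zero hw0), T.X.ord_inv P hw0, hw1]
    linarith
  · apply T.X.mem_loc
    unfold Datum.secP
    refine monomial_mem_bigr h1 h2 h3 ?_
    rw [if_pos hp]
    exact hw
  · rw [smul_monomial, smul_eq_mul, mul_assoc, inv_mul_cancel₀ hw0, mul_one]

theorem Gam.loc_secP (γ : Gam T) (hfix : γ.Fixes D₀) {N : ℕ} (p : ℤ → Prop)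
    (hp : ∀ j, p j → p (-j))
    (hdeg : ∀ j, p j → |j| ≤ 5 * q * N → 2 * (T.X.genus : ℤ) + 7 ≤ T.X.deg (T.dvs q D₀ N j))
    (P : T.X.Pt) : T.X.loc P (T.secP q D₀ N p) ≤
      T.X.loc P (T.secP q D₀ N p ⊓ γ.secQ q D₀ N) := by
  classical
  have hfin : FiniteDimensional ℂ (T.secP q D₀ N p) := by
    unfold Datum.secP
    apply finite_bigr
    intro j
    by_cases h : p j
    · rw [if_pos h]
      exact T.finite_V q D₀ N j
    · rw [if_neg h]
      infer_instance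
  apply T.X.loc_le_of_nakayama P
  -- it is enough to treat monomials
  suffices H : T.secP q D₀ N p ≤ ((T.X.loc P (T.secP q D₀ N p ⊓ γ.secQ q D₀ N) ⊔
      Submodule.span (T.X.OO P) {x : MvPolynomial (Fin 4) K | ∃ z : K,
      (z ≠ 0 → 0 < T.X.ord P z) ∧ ∃ u ∈ T.X.loc P (T.secP q D₀ N p), x = z • u} :
        Submodule (T.X.OO P) (MvPolynomial (Fin 4) K)) : Set (MvPolynomial (Fin 4) K)) by
    intro f hf
    obtain ⟨g, hg, h, hh, e⟩ := Submodule.mem_sup.1 (H hf)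
    exact ⟨g, hg, h, hh, e.symm⟩
  intro f hf
  rw [SetLike.mem_coe]
  have hf' := hf
  rw [T.secP_eq] at hf'
  rw [f.as_sum]
  refine sum_mem fun e he => ?_
  have he0 := MvPolynomial.mem_support_iff.1 he
  obtain ⟨j, h1, h2, h3, h4⟩ := hf' e he0
  rw [Datum.mem_PV] at h4
  obtain ⟨hpj, h5⟩ := h4 he0
  set z := f.coeff e with hz
  -- the orbit without `P`
  set B : Finset T.X.Pt := {γ.σ₁ P, γ.σ₂ P, γ.σ₁ (γ.σ₂ P), γ.σ P, γ.σ₁ (γ.σ P), γ.σ₂ (γ.σ P),
    γ.σ₁ (γ.σ₂ (γ.σ P))} with hB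
  have hPB : P ∉ B := by
    rw [hB]
    simp only [Finset.mem_insert, Finset.mem_singleton, not_or]
    refine ⟨(γ.free₁ P).symm, (γ.free₂ P).symm, (γ.free₁₂ P).symm, (γ.free P).symm, ?_, ?_, ?_⟩
    · rw [← γ.σcomm₁]
      exact (γ.free₀₁ P).symm
    · rw [← γ.σcomm₂]
      exact (γ.free₀₂ P).symm
    · rw [← γ.σcomm₂, ← γ.σcomm₁]
      exact (γ.free₀₁₂ P).symm
  have hBcard : B.card ≤ 7 :=
    (Finset.card_insert_le _ _).trans (Nat.succ_le_succ Finset.card_le_six)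
  set DB : T.X.Pt →₀ ℤ := ∑ Q ∈ B, Finsupp.single Q 1 with hDB
  have hDBd : T.X.deg DB ≤ 7 := by
    rw [hDB, T.X.deg_sum]
    simp only [T.X.deg_single, Finset.sum_const, nsmul_eq_mul, mul_one]
    exact_mod_cast hBcard
  have hDBa : ∀ Q, DB Q = if Q ∈ B then 1 else 0 := by
    intro Q
    rw [hDB, Finsupp.finsetSum_apply]
    simp only [Finsupp.single_apply]
    rw [Finset.sum_ite_eq' B Q]
  obtain ⟨w, hw, hw0, hw1⟩ := T.X.exists_ord_eq P (D := T.dvs q D₀ N j - DB) (by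
    rw [T.X.deg_sub]
    have := hdeg j hpj h1
    linarith) P
  rw [Finsupp.sub_apply, hDBa, if_neg hPB, sub_zero] at hw1
  -- approximate `z` by a multiple of `w`
  obtain ⟨c, hc⟩ : ∃ c : ℂ, z - c • w ≠ 0 → -(T.dvs q D₀ N j P) < T.X.ord P (z - c • w) := by
    by_cases h6 : T.X.ord P z = T.X.ord P w
    · obtain ⟨c, hc⟩ := T.X.exists_sub_smul he0 hw0 h6
      exact ⟨c, fun h => by rw [← hw1]; exact hc h⟩
    · refine ⟨0, fun _ => ?_⟩
      rw [zero_smul, sub_zero]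
      have h7 := h5 P
      rw [zero_sub] at h7
      exact lt_of_le_of_ne h7 (by rw [← hw1]; exact Ne.symm h6)
  -- the average of the approximation
  set d : T.X.Pt → ℤ := fun Q => if Q ∈ B then 1 else 0 with hd
  have hd0 : ∀ Q, 0 ≤ d Q := by
    intro Q
    rw [hd]
    dsimp only
    split_ifs <;> norm_num
  have hcw : c • w ∈ T.PV q D₀ N p d j := by
    rw [Datum.mem_PV]
    intro h0
    refine ⟨hpj, fun Q => ?_⟩
    have h6 : c • w ∈ T.X.L (T.dvs q D₀ N j - DB) := Submodule.smul_mem _ _ hw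
    have h7 := h6 h0 Q
    rw [Finsupp.sub_apply, hDBa] at h7
    rw [hd]
    dsimp only
    linarith
  set h : MvPolynomial (Fin 4) K := monomial e (c • w) with hh
  have hmem : h ∈ bigr q N (T.PV q D₀ N p d) := monomial_mem_bigr h1 h2 h3 hcw
  have hmem0 : ∀ {d' : T.X.Pt → ℤ} {g : MvPolynomial (Fin 4) K}, (∀ Q, 0 ≤ d' Q) →
      g ∈ bigr q N (T.PV q D₀ N p d') → g ∈ T.secP q D₀ N p := by
    intro d' g hd' hg
    rw [T.secP_eq]
    exact bigr_mono (fun j _ => PV_mono hd' j) hg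
  have hvan : ∀ {d' : T.X.Pt → ℤ} {g : MvPolynomial (Fin 4) K}, (∀ Q, 0 ≤ d' Q) → 1 ≤ d' P →
      g ∈ bigr q N (T.PV q D₀ N p d') → g ∈ bigr q N (T.PV q D₀ N p (delta P)) := by
    intro d' g hd' h1 hg
    refine bigr_mono (fun j _ => PV_mono ?_ j) hg
    intro Q
    unfold delta
    split_ifs with h6
    · rw [h6]
      exact h1
    · exact hd' Q
  have t1 := γ.E₁_mem_PV hfix hmem
  have t2 := γ.E₂_mem_PV hfix hmem
  have t12 := γ.E₂_mem_PV hfix t1
  have t0 := γ.tauE_mem_PV hfix hp hmem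
  have t01 := γ.tauE_mem_PV hfix hp t1
  have t02 := γ.tauE_mem_PV hfix hp t2
  have t012 := γ.tauE_mem_PV hfix hp t12
  have hdB : ∀ Q, Q ∈ B → 1 ≤ d Q := by
    intro Q hQ
    rw [hd]
    dsimp only
    rw [if_pos hQ]
  have hBm : ∀ Q, (Q = γ.σ₁ P ∨ Q = γ.σ₂ P ∨ Q = γ.σ₁ (γ.σ₂ P) ∨ Q = γ.σ P ∨
      Q = γ.σ₁ (γ.σ P) ∨ Q = γ.σ₂ (γ.σ P) ∨ Q = γ.σ₁ (γ.σ₂ (γ.σ P))) → Q ∈ B := by
    intro Q hQ
    rw [hB]
    simpa only [Finset.mem_insert, Finset.mem_singleton] using hQ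
  have havm : γ.av h ∈ T.secP q D₀ N p ⊓ γ.secQ q D₀ N := by
    have g1 : γ.av h ∈ T.secP q D₀ N p := by
      rw [γ.av_eq]
      exact add_mem (hmem0 hd0 hmem) (add_mem (add_mem (add_mem (add_mem (add_mem (add_mem
        (hmem0 (fun Q => hd0 _) t1) (hmem0 (fun Q => hd0 _) t2)) (hmem0 (fun Q => hd0 _) t12))
        (hmem0 (fun Q => hd0 _) t0)) (hmem0 (fun Q => hd0 _) t01)) (hmem0 (fun Q => hd0 _) t02))
        (hmem0 (fun Q => hd0 _) t012))
    exact ⟨g1, T.secP_le_sec q D₀ N p g1, Gam.E₁_av (evenDeg_of_bigr hmem), Gam.E₂_av h,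
      Gam.tauE_av h⟩
  have hrest : γ.E₁ h + γ.E₂ h + γ.E₂ (γ.E₁ h) + γ.tauE h + γ.tauE (γ.E₁ h) + γ.tauE (γ.E₂ h) +
      γ.tauE (γ.E₂ (γ.E₁ h)) ∈ bigr q N (T.PV q D₀ N p (delta P)) := by
    refine add_mem (add_mem (add_mem (add_mem (add_mem (add_mem
        (hvan (fun Q => hd0 _) ?_ t1) (hvan (fun Q => hd0 _) ?_ t2)) (hvan (fun Q => hd0 _) ?_ t12))
        (hvan (fun Q => hd0 _) ?_ t0)) (hvan (fun Q => hd0 _) ?_ t01))
        (hvan (fun Q => hd0 _) ?_ t02)) (hvan (fun Q => hd0 _) ?_ t012)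
    all_goals
      apply hdB
      apply hBm
      simp
  have hdiff : monomial e (z - c • w) ∈ bigr q N (T.PV q D₀ N p (delta P)) := by
    refine monomial_mem_bigr h1 h2 h3 ?_
    rw [Datum.mem_PV]
    intro h0
    refine ⟨hpj, fun Q => ?_⟩
    unfold delta
    split_ifs with h6
    · rw [h6]
      have := hc h0
      linarith
    · have g1 : z ∈ T.X.L (T.dvs q D₀ N j) := by
        intro _ Q
        linarith [h5 Q]
      have g2 : c • w ∈ T.X.L (T.dvs q D₀ N j) := by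
        apply Submodule.smul_mem
        refine T.X.L_mono ?_ hw
        intro Q
        rw [Finsupp.sub_apply, hDBa]
        split_ifs <;> linarith
      have g3 := sub_mem g1 g2
      have := g3 h0 Q
      linarith
  have efin : monomial e z = γ.av h - (γ.E₁ h + γ.E₂ h + γ.E₂ (γ.E₁ h) + γ.tauE h +
      γ.tauE (γ.E₁ h) + γ.tauE (γ.E₂ h) + γ.tauE (γ.E₂ (γ.E₁ h))) + monomial e (z - c • w) := by
    rw [γ.av_eq, add_sub_cancel_right, hh, ← map_add]
    congr 1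
    ring
  rw [efin]
  have hdeg' : ∀ j, p j → |j| ≤ 5 * q * N → 2 * (T.X.genus : ℤ) ≤ T.X.deg (T.dvs q D₀ N j) :=
    fun j h7 h8 => by linarith [hdeg j h7 h8]
  refine add_mem (sub_mem (Submodule.mem_sup_left (T.X.mem_loc P havm))
    (Submodule.mem_sup_right (mem_span_of_vanish hdeg' P hrest)))
    (Submodule.mem_sup_right (mem_span_of_vanish hdeg' P hdiff))

end Pool.Agent.YTD


end

/- source: Pool.Agent.YTD.SatE -/

section

/-!
The saturated filtration of the section ring of the covering.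
-/

namespace Pool.Agent.YTD

open Finset Module MvPolynomial Filter

variable {K : Type} [Field K] [Algebra ℂ K]
variable {T : Datum K} {q : ℕ} {D₀ : T.X.Pt →₀ ℤ} {r : ℕ}

theorem Datum.satD_secP (T : Datum K) (q : ℕ) (D₀ : T.X.Pt →₀ ℤ) (N : ℕ) (p : ℤ → Prop) :
    T.X.satD 0 (T.secP q D₀ N p) = T.secP q D₀ N p := by
  classical
  apply le_antisymm _ (T.X.le_satD _)
  intro f hf
  rw [T.X.mem_satD_zero] at hf
  obtain ⟨P₀⟩ := T.exists_pt
  rw [T.secP_eq] at hf ⊢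
  intro e he
  have h1 : ∃ u ∈ bigr q N (T.PV q D₀ N p (fun _ => 0)), u.coeff e ≠ 0 := by
    by_contra hcon
    push Not at hcon
    exact he (T.X.coeff_eq_zero_of_loc (hf P₀) hcon)
  obtain ⟨u, hu, hue⟩ := h1
  obtain ⟨j, h1, h2, h3, h4⟩ := hu e hue
  refine ⟨j, h1, h2, h3, ?_⟩
  rw [Datum.mem_PV] at h4 ⊢
  intro _
  refine ⟨(h4 hue).1, fun Q => ?_⟩
  refine T.X.coeff_mem_of_loc (hf Q) (n := 0 - T.dvs q D₀ N j Q) ?_ he
  intro u' hu' hue'
  obtain ⟨j', g1, g2, g3, g4⟩ := hu' e hue'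
  have hj : j' = j := by linarith
  subst hj
  rw [Datum.mem_PV] at g4
  exact (g4 hue').2 Q

theorem Datum.satD_sec (T : Datum K) (q : ℕ) (D₀ : T.X.Pt →₀ ℤ) (N : ℕ) :
    T.X.satD 0 (T.sec q D₀ N) = T.sec q D₀ N := by
  rw [← T.secP_true, T.satD_secP]

theorem Gam.loc_secP_eq (γ : Gam T) (hfix : γ.Fixes D₀) {N : ℕ} (p : ℤ → Prop)
    (hp : ∀ j, p j → p (-j))
    (hdeg : ∀ j, p j → |j| ≤ 5 * q * N → 2 * (T.X.genus : ℤ) + 7 ≤ T.X.deg (T.dvs q D₀ N j))
    (P : T.X.Pt) : T.X.loc P (T.secP q D₀ N p ⊓ γ.secQ q D₀ N) =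
      T.X.loc P (T.secP q D₀ N p) :=
  le_antisymm (T.X.loc_mono P inf_le_left) (γ.loc_secP hfix p hp hdeg P)

theorem Gam.satD_secP (γ : Gam T) (hfix : γ.Fixes D₀) {N : ℕ} (p : ℤ → Prop)
    (hp : ∀ j, p j → p (-j))
    (hdeg : ∀ j, p j → |j| ≤ 5 * q * N → 2 * (T.X.genus : ℤ) + 7 ≤ T.X.deg (T.dvs q D₀ N j)) :
    T.X.satD 0 (T.secP q D₀ N p ⊓ γ.secQ q D₀ N) = T.secP q D₀ N p := by
  rw [← T.satD_secP q D₀ N p]
  ext f
  rw [T.X.mem_satD_zero, T.X.mem_satD_zero]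
  simp only [T.satD_secP, γ.loc_secP_eq hfix p hp hdeg]

theorem Gam.loc_secQ (γ : Gam T) (hfix : γ.Fixes D₀) {N : ℕ}
    (hdeg : ∀ j : ℤ, |j| ≤ 5 * q * N → 2 * (T.X.genus : ℤ) + 7 ≤ T.X.deg (T.dvs q D₀ N j))
    (P : T.X.Pt) : T.X.loc P (γ.secQ q D₀ N) = T.X.loc P (T.sec q D₀ N) := by
  have h := γ.loc_secP_eq hfix (N := N) (fun _ => True) (fun _ _ => trivial)
    (fun j _ hj => hdeg j hj) P
  rwa [T.secP_true, inf_eq_right.2 (γ.secQ_le q D₀ N)] at h

theorem Gam.satD_secQ (γ : Gam T) (hfix : γ.Fixes D₀) {N : ℕ}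
    (hdeg : ∀ j : ℤ, |j| ≤ 5 * q * N → 2 * (T.X.genus : ℤ) + 7 ≤ T.X.deg (T.dvs q D₀ N j)) :
    T.X.satD 0 (γ.secQ q D₀ N) = T.sec q D₀ N := by
  have h := γ.satD_secP hfix (N := N) (fun _ => True) (fun _ _ => trivial)
    (fun j _ hj => hdeg j hj)
  rwa [T.secP_true, inf_eq_right.2 (γ.secQ_le q D₀ N)] at h

/-- the degree bound at the critical slope -/
theorem deg_bound_crit (hD : T.X.deg D₀ = 105 * T.t * q) (hq : 0 < q) {N : ℕ} (hN : 8 ≤ N)
    (j : ℤ) (hj : |j| ≤ 5 * q * N) : 2 * (T.X.genus : ℤ) + 7 ≤ T.X.deg (T.dvs q D₀ N j) := by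
  rw [deg_dvs_crit T q D₀ hD]
  have h1 := le_dg (t := T.t) hj
  have h2 : (T.X.genus : ℤ) = 9 * T.t + 1 := by
    rw [T.genus_eq]
    push_cast
    ring
  have h3 : (1 : ℤ) ≤ T.t := by exact_mod_cast T.t_pos
  have h4 : (1 : ℤ) ≤ q := by exact_mod_cast hq
  have h5 : (8 : ℤ) ≤ N := by exact_mod_cast hN
  have h6 : (8 : ℤ) ≤ q * N := by nlinarith
  have h7 : 5 * (T.t : ℤ) * 8 ≤ 5 * T.t * (q * N) := by
    apply mul_le_mul_of_nonneg_left h6
    positivity
  rw [h2]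
  nlinarith

/-- regular functions on the curve are constant -/
theorem Curve.exists_const (X : Curve K) (P₀ : X.Pt) {z : K} (hz : z ∈ X.L 0) :
    ∃ c : ℂ, z = algebraMap ℂ K c := by
  classical
  have hinf := X.infinite_Pt P₀
  obtain ⟨P₁, hP₁⟩ := exists_ne P₀
  obtain ⟨c, hc⟩ := X.exists_const_sub_mem (c := P₀) hP₁ (z := z) (fun h0 => by
    have := hz h0 P₀
    rwa [Finsupp.zero_apply, add_zero] at this)
  refine ⟨c, ?_⟩
  by_contra hne
  have h0 : z - algebraMap ℂ K c ≠ 0 := sub_ne_zero.2 hne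
  have h1 : z - algebraMap ℂ K c ∈ X.L 0 := by
    apply sub_mem hz
    intro h2 Q
    have h3 : c ≠ 0 := by
      rintro rfl
      exact h2 (map_zero _)
    rw [X.ord_const Q c h3, Finsupp.zero_apply, add_zero]
  have h2 : z - algebraMap ℂ K c ∈ X.L (0 - Finsupp.single P₀ 1) := by
    intro _ Q
    rw [Finsupp.sub_apply, Finsupp.single_apply]
    split_ifs with h3
    · subst h3
      have := hc h0
      rw [Finsupp.zero_apply]
      linarith
    · have := h1 h0 Q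
      rw [Finsupp.zero_apply] at this ⊢
      linarith
  rw [X.L_eq_bot (by rw [X.deg_sub, X.deg_zero, X.deg_single]; norm_num)] at h2
  exact h0 h2

theorem Gam.secQ_zero (γ : Gam T) (q : ℕ) (D₀ : T.X.Pt →₀ ℤ) :
    γ.secQ q D₀ 0 = T.sec q D₀ 0 := by
  apply le_antisymm (γ.secQ_le q D₀ 0)
  intro f hf
  obtain ⟨P₀⟩ := T.exists_pt
  have key : ∃ c : ℂ, f = c • (1 : MvPolynomial (Fin 4) K) := by
    have h0 : ∀ e, f.coeff e ≠ 0 → e = 0 ∧ f.coeff e ∈ T.X.L 0 := by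
      intro e he
      obtain ⟨j, h1, h2, h3, h4⟩ := hf e he
      have hj : j = 0 := by simpa using h1
      subst hj
      simp only [Nat.cast_zero, mul_zero, add_zero, sub_zero] at h2 h3
      refine ⟨?_, ?_⟩
      · ext i
        have a0 : e 0 = 0 := by omega
        have a1 : e 1 = 0 := by omega
        have a2 : e 2 = 0 := by omega
        have a3 : e 3 = 0 := by omega
        fin_cases i
        · exact a0
        · exact a1
        · exact a2
        · exact a3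
      · have h5 : T.dvs q D₀ 0 0 = 0 := by
          unfold Datum.dvs
          simp
        unfold Datum.V at h4
        rwa [h5] at h4
    by_cases hf0 : f.coeff 0 = 0
    · refine ⟨0, ?_⟩
      rw [zero_smul]
      ext e
      rw [coeff_zero]
      by_contra he
      rw [(h0 e he).1] at he
      exact he hf0
    · obtain ⟨c, hc⟩ := T.X.exists_const P₀ (h0 0 hf0).2
      refine ⟨c, ?_⟩
      ext e
      rw [coeff_smul, coeff_one]
      by_cases he : 0 = e
      · rw [if_pos he, ← he, hc, Algebra.smul_def, mul_one]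
      · rw [if_neg he, smul_zero]
        by_contra h1
        exact he (h0 e h1).1.symm
  obtain ⟨c, rfl⟩ := key
  exact ⟨hf, by rw [map_smul, map_one], by rw [map_smul, map_one], by rw [map_smul, map_one]⟩

/-- A semilinear automorphism fixing `U` pointwise preserves the saturation of `U`. -/
theorem satD_stable {E : Autom K} {θ : K ≃ₐ[ℂ] K} {σ : T.X.Pt → T.X.Pt}
    (hσσ : ∀ P, σ (σ P) = P) (hσ : ∀ P z, z ≠ 0 → T.X.ord (σ P) (θ z) = T.X.ord P z)
    (hE : ∀ (z : K) (f : MvPolynomial (Fin 4) K), E (z • f) = θ z • E f)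
    {U : Submodule ℂ (MvPolynomial (Fin 4) K)} (hU : ∀ u ∈ U, E u ∈ U)
    {f : MvPolynomial (Fin 4) K} (hf : f ∈ T.X.satD 0 U) : E f ∈ T.X.satD 0 U := by
  rw [T.X.mem_satD_zero] at hf ⊢
  intro P
  have h1 := hf (σ P)
  clear hf
  induction h1 using Submodule.span_induction with
  | mem x hx => exact T.X.mem_loc P (hU x hx)
  | zero =>
    rw [map_zero]
    exact zero_mem _
  | add x y _ _ h1 h2 =>
    rw [map_add]
    exact add_mem h1 h2
  | smul a x _ h =>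
    have e : E (a • x) = θ (a : K) • E x := hE a x
    rw [e]
    apply T.X.smul_mem_loc _ h
    intro h0
    have ha : (a : K) ≠ 0 := by
      intro h2
      exact h0 (by rw [h2, map_zero])
    have h2 := hσ (σ P) a ha
    rw [hσσ] at h2
    rw [h2]
    exact a.2 ha

/-- The filtration of the section ring generated, locally over the curve, by a filtration of the
section ring of the quotient. -/
noncomputable def QFilt.sat {γ : Gam T} (χ : QFilt γ q D₀ r) (hfix : γ.Fixes D₀)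
    (hD : T.X.deg D₀ = 105 * T.t * q) (hq : 0 < q) (hr : 8 ≤ r) : Filt T q D₀ r where
  F := fun N l => T.X.satD 0 (χ.F N l)
  le := by
    intro N l
    rw [← T.satD_sec]
    exact T.X.satD_mono (fun _ => le_rfl) ((χ.le N l).trans (γ.secQ_le q D₀ _))
  anti := fun N l l' h => T.X.satD_mono (fun _ => le_rfl) (χ.anti N l l' h)
  mul := by
    intro N N' l l' f hf g hg
    refine T.X.satD_mono (fun _ => le_rfl) ?_ (T.X.mul_mem_satD hf hg)
    exact Submodule.mul_le.2 fun a ha b hb => χ.mul N N' l l' a ha b hb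
  bound := by
    obtain ⟨Λ, hΛ⟩ := χ.bound
    obtain ⟨P₀⟩ := T.exists_pt
    refine ⟨Λ, fun N => ⟨?_, ?_⟩⟩
    · rw [(hΛ N).1]
      rcases Nat.eq_zero_or_pos N with h | h
      · subst h
        rw [mul_zero, γ.secQ_zero, T.satD_sec]
      · exact γ.satD_secQ hfix (deg_bound_crit hD hq (hr.trans (Nat.le_mul_of_pos_right r h)))
    · rw [(hΛ N).2, T.X.satD_zero_bot P₀]

theorem QFilt.sat_F {γ : Gam T} (χ : QFilt γ q D₀ r) (hfix : γ.Fixes D₀)
    (hD : T.X.deg D₀ = 105 * T.t * q) (hq : 0 < q) (hr : 8 ≤ r) (N : ℕ) (l : ℤ) :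
    (χ.sat hfix hD hq hr).F N l = T.X.satD 0 (χ.F N l) := rfl

/-- the same bound holds -/
theorem QFilt.sat_bound {γ : Gam T} (χ : QFilt γ q D₀ r) (hfix : γ.Fixes D₀)
    (hD : T.X.deg D₀ = 105 * T.t * q) (hq : 0 < q) (hr : 8 ≤ r) {Λ : ℕ}
    (hΛ : ∀ N : ℕ, χ.F N (-(Λ * N)) = γ.secQ q D₀ (r * N) ∧ χ.F N (Λ * N + 1) = ⊥) (N : ℕ) :
    (χ.sat hfix hD hq hr).F N (-(Λ * N)) = T.sec q D₀ (r * N) ∧
      (χ.sat hfix hD hq hr).F N (Λ * N + 1) = ⊥ := by
  obtain ⟨P₀⟩ := T.exists_pt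
  rw [QFilt.sat_F, QFilt.sat_F, (hΛ N).1, (hΛ N).2, T.X.satD_zero_bot P₀]
  refine ⟨?_, rfl⟩
  rcases Nat.eq_zero_or_pos N with h | h
  · subst h
    rw [mul_zero, γ.secQ_zero, T.satD_sec]
  · exact γ.satD_secQ hfix (deg_bound_crit hD hq (hr.trans (Nat.le_mul_of_pos_right r h)))

theorem QFilt.sat_gamInv {γ : Gam T} (χ : QFilt γ q D₀ r) (hfix : γ.Fixes D₀)
    (hD : T.X.deg D₀ = 105 * T.t * q) (hq : 0 < q) (hr : 8 ≤ r) :
    (χ.sat hfix hD hq hr).GamInv γ where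
  E₁ N l f hf := satD_stable γ.σσ₁ γ.ord_σ₁ γ.E₁_smul (fun u hu => by
    rw [(χ.le N l hu).2.1]
    exact hu) hf
  E₂ N l f hf := satD_stable γ.σσ₂ γ.ord_σ₂ γ.E₂_smul (fun u hu => by
    rw [(χ.le N l hu).2.2.1]
    exact hu) hf
  tau N l f hf := satD_stable γ.σσ γ.ord_σ γ.tauE_smul (fun u hu => by
    rw [(χ.le N l hu).2.2.2]
    exact hu) hf

end Pool.Agent.YTD


end

/- source: Pool.Agent.YTD.SatF1 -/

section

/-!
Semilinear involutions and the isotypic decomposition of the sections.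
-/

namespace Pool.Agent.YTD

open Finset Module MvPolynomial Filter

namespace CurveOrd

variable {K : Type} [Field K] [Algebra ℂ K] {X : CurveOrd K}
variable {V : Type} [AddCommGroup V] [Module K V] [Module ℂ V] [IsScalarTower ℂ K V]

variable (X) in
/-- The stalk of the sheaf generated by `U`, twisted by `n P`. -/
def stk (P : X.Pt) (n : ℤ) (U : Submodule ℂ V) : Set V :=
  {f | ∀ z : K, z ≠ 0 → n ≤ X.ord P z → z • f ∈ X.loc P U}

theorem mem_satD_iff {D : X.Pt →₀ ℤ} {U : Submodule ℂ V} {f : V} :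
    f ∈ X.satD D U ↔ ∀ P, f ∈ X.stk P (D P) U := Iff.rfl

/-- A semilinear involution. -/
structure SInv (X : CurveOrd K) (V : Type) [AddCommGroup V] [Module K V] [Module ℂ V]
    [IsScalarTower ℂ K V] where
  θ : K ≃ₐ[ℂ] K
  σ : X.Pt → X.Pt
  θθ : ∀ z, θ (θ z) = z
  σσ : ∀ P, σ (σ P) = P
  ord_σ : ∀ P z, z ≠ 0 → X.ord (σ P) (θ z) = X.ord P z
  E : V →ₗ[ℂ] V
  E_smul : ∀ (z : K) (v : V), E (z • v) = θ z • E v

namespace SInv

variable (S : SInv X V) {U : Submodule ℂ V}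

theorem ord_θ (P : X.Pt) {z : K} (hz : z ≠ 0) : X.ord P (S.θ z) = X.ord (S.σ P) z := by
  have := S.ord_σ (S.σ P) z hz
  rwa [S.σσ] at this

theorem E_span (hU : ∀ u ∈ U, S.E u = u) {f : V} (hf : f ∈ Submodule.span K (U : Set V)) :
    S.E f ∈ Submodule.span K (U : Set V) := by
  induction hf using Submodule.span_induction with
  | mem x h => rw [hU x h]; exact Submodule.subset_span h
  | zero => rw [map_zero]; exact zero_mem _
  | add x y _ _ hx hy => rw [map_add]; exact add_mem hx hy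
  | smul a x _ hx => rw [S.E_smul]; exact Submodule.smul_mem _ _ hx

theorem E_E (hU : ∀ u ∈ U, S.E u = u) {f : V} (hf : f ∈ Submodule.span K (U : Set V)) :
    S.E (S.E f) = f := by
  induction hf using Submodule.span_induction with
  | mem x h => rw [hU x h, hU x h]
  | zero => rw [map_zero, map_zero]
  | add x y _ _ hx hy => rw [map_add, map_add, hx, hy]
  | smul a x _ hx => rw [S.E_smul, S.E_smul, S.θθ, hx]

theorem E_comm {S' : SInv X V} (hc : ∀ z, S.θ (S'.θ z) = S'.θ (S.θ z))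
    (hU : ∀ u ∈ U, S.E u = u) (hU' : ∀ u ∈ U, S'.E u = u) {f : V}
    (hf : f ∈ Submodule.span K (U : Set V)) : S.E (S'.E f) = S'.E (S.E f) := by
  induction hf using Submodule.span_induction with
  | mem x h => rw [hU' x h, hU x h, hU' x h]
  | zero => rw [map_zero, map_zero, map_zero]
  | add x y _ _ hx hy => rw [map_add, map_add, map_add, map_add, hx, hy]
  | smul a x _ hx => rw [S'.E_smul, S.E_smul, S.E_smul, S'.E_smul, hx, hc]

theorem E_loc (hU : ∀ u ∈ U, S.E u = u) {P : X.Pt} {f : V} (hf : f ∈ X.loc P U) :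
    S.E f ∈ X.loc (S.σ P) U := by
  unfold loc at hf
  induction hf using Submodule.span_induction with
  | mem x h => rw [hU x h]; exact Submodule.subset_span h
  | zero => rw [map_zero]; exact zero_mem _
  | add x y _ _ hx hy => rw [map_add]; exact add_mem hx hy
  | smul a x _ hx =>
    have e : S.E (a • x) = S.θ (a : K) • S.E x := S.E_smul a x
    rw [e]
    have ha : S.θ (a : K) ∈ X.OO (S.σ P) := by
      intro h0
      have h1 : (a : K) ≠ 0 := by
        intro h2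
        rw [h2, map_zero] at h0
        exact h0 rfl
      rw [S.ord_σ P _ h1]
      exact a.2 h1
    exact Submodule.smul_mem (X.loc (S.σ P) U) (⟨S.θ (a : K), ha⟩ : X.OO (S.σ P)) hx

theorem E_stk (hU : ∀ u ∈ U, S.E u = u) {P : X.Pt} {n : ℤ} {f : V} (hf : f ∈ X.stk P n U) :
    S.E f ∈ X.stk (S.σ P) n U := by
  intro z hz hn
  have hz' : S.θ z ≠ 0 := (map_ne_zero _).2 hz
  have h1 := hf (S.θ z) hz' (by rwa [S.ord_θ P hz])
  have h2 := S.E_loc hU h1
  rwa [S.E_smul, S.θθ] at h2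

theorem E_satD (hU : ∀ u ∈ U, S.E u = u) {D : X.Pt →₀ ℤ} (hD : ∀ P, D (S.σ P) = D P) {f : V}
    (hf : f ∈ X.satD D U) : S.E f ∈ X.satD D U := by
  rw [mem_satD_iff] at hf ⊢
  intro P
  have h1 := S.E_stk hU (hf (S.σ P))
  rwa [S.σσ, hD] at h1

end SInv

/-- the eigenspaces of an involution -/
def eig (E : V →ₗ[ℂ] V) (ε : ℤˣ) : Submodule ℂ V where
  carrier := {f | E f = (ε : ℤ) • f}
  zero_mem' := by
    show E 0 = (ε : ℤ) • (0 : V)
    rw [map_zero, smul_zero]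
  add_mem' := by
    intro f g hf hg
    show E (f + g) = (ε : ℤ) • (f + g)
    rw [map_add, show E f = (ε : ℤ) • f from hf, show E g = (ε : ℤ) • g from hg, smul_add]
  smul_mem' := by
    intro c f hf
    show E (c • f) = (ε : ℤ) • (c • f)
    rw [map_smul, show E f = (ε : ℤ) • f from hf, smul_comm]

theorem mem_eig {E : V →ₗ[ℂ] V} {ε : ℤˣ} {f : V} : f ∈ eig E ε ↔ E f = (ε : ℤ) • f := Iff.rfl

theorem finrank_split (W : Submodule ℂ V) [FiniteDimensional ℂ W] (E : V →ₗ[ℂ] V)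
    (h1 : ∀ f ∈ W, E f ∈ W) (h2 : ∀ f ∈ W, E (E f) = f) :
    ∑ ε : ℤˣ, finrank ℂ (W ⊓ eig E ε : Submodule ℂ V) = finrank ℂ W := by
  have hsup : (W ⊓ eig E 1) ⊔ (W ⊓ eig E (-1)) = W := by
    apply le_antisymm
    · exact sup_le inf_le_left inf_le_left
    · intro f hf
      have e : f = ((1 / 2 : ℂ) • (f + E f)) + ((1 / 2 : ℂ) • (f - E f)) := by
        rw [← smul_add, add_add_sub_cancel, ← two_smul ℂ f, smul_smul]
        norm_num
      rw [e]
      apply Submodule.add_mem_sup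
      · refine ⟨Submodule.smul_mem _ _ (add_mem hf (h1 f hf)), ?_⟩
        rw [SetLike.mem_coe, mem_eig, map_smul, map_add, h2 f hf]
        rw [Units.val_one, one_smul, add_comm]
      · refine ⟨Submodule.smul_mem _ _ (sub_mem hf (h1 f hf)), ?_⟩
        rw [SetLike.mem_coe, mem_eig, map_smul, map_sub, h2 f hf]
        rw [Units.val_neg, Units.val_one, neg_smul, one_smul, ← smul_neg, neg_sub]
  have hinf : (W ⊓ eig E 1) ⊓ (W ⊓ eig E (-1)) = ⊥ := by
    rw [eq_bot_iff]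
    rintro f ⟨⟨_, h3⟩, ⟨_, h4⟩⟩
    rw [SetLike.mem_coe, mem_eig, Units.val_one, one_smul] at h3
    rw [SetLike.mem_coe, mem_eig, Units.val_neg, Units.val_one, neg_smul, one_smul, h3] at h4
    rw [Submodule.mem_bot]
    have h5 : (2 : ℂ) • f = 0 := by
      rw [two_smul]
      nth_rewrite 1 [h4]
      rw [neg_add_cancel]
    rcases smul_eq_zero.1 h5 with h6 | h6
    · norm_num at h6
    · exact h6
  have f1 : FiniteDimensional ℂ (W ⊓ eig E 1 : Submodule ℂ V) :=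
    Submodule.finiteDimensional_of_le (inf_le_left : W ⊓ eig E 1 ≤ W)
  have f2 : FiniteDimensional ℂ (W ⊓ eig E (-1) : Submodule ℂ V) :=
    Submodule.finiteDimensional_of_le (inf_le_left : W ⊓ eig E (-1) ≤ W)
  have h3 := Submodule.finrank_sup_add_finrank_inf_eq (W ⊓ eig E 1) (W ⊓ eig E (-1))
  rw [hsup, hinf, finrank_bot, add_zero] at h3
  rw [h3, UnitsInt.univ, Finset.sum_insert (by decide), Finset.sum_singleton]

/-- isotypic part -/
def iso (W : Submodule ℂ V) (E₀ E₁ E₂ : V →ₗ[ℂ] V) (ε : ℤˣ × ℤˣ × ℤˣ) : Submodule ℂ V :=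
  ((W ⊓ eig E₀ ε.1) ⊓ eig E₁ ε.2.1) ⊓ eig E₂ ε.2.2

theorem iso_le (W : Submodule ℂ V) (E₀ E₁ E₂ : V →ₗ[ℂ] V) (ε : ℤˣ × ℤˣ × ℤˣ) :
    iso W E₀ E₁ E₂ ε ≤ W := (inf_le_left.trans inf_le_left).trans inf_le_left

theorem mem_iso {W : Submodule ℂ V} {E₀ E₁ E₂ : V →ₗ[ℂ] V} {ε : ℤˣ × ℤˣ × ℤˣ} {f : V} :
    f ∈ iso W E₀ E₁ E₂ ε ↔ f ∈ W ∧ E₀ f = (ε.1 : ℤ) • f ∧ E₁ f = (ε.2.1 : ℤ) • f ∧
      E₂ f = (ε.2.2 : ℤ) • f := by
  unfold iso
  simp only [Submodule.mem_inf, mem_eig]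
  tauto

theorem sum_iso (W : Submodule ℂ V) [FiniteDimensional ℂ W] (E₀ E₁ E₂ : V →ₗ[ℂ] V)
    (a0 : ∀ f ∈ W, E₀ f ∈ W) (a1 : ∀ f ∈ W, E₁ f ∈ W) (a2 : ∀ f ∈ W, E₂ f ∈ W)
    (b0 : ∀ f ∈ W, E₀ (E₀ f) = f) (b1 : ∀ f ∈ W, E₁ (E₁ f) = f) (b2 : ∀ f ∈ W, E₂ (E₂ f) = f)
    (c01 : ∀ f ∈ W, E₀ (E₁ f) = E₁ (E₀ f)) (c02 : ∀ f ∈ W, E₀ (E₂ f) = E₂ (E₀ f))
    (c12 : ∀ f ∈ W, E₁ (E₂ f) = E₂ (E₁ f)) :
    ∑ ε : ℤˣ × ℤˣ × ℤˣ, finrank ℂ (iso W E₀ E₁ E₂ ε) = finrank ℂ W := by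
  have hfin : ∀ W' : Submodule ℂ V, W' ≤ W → FiniteDimensional ℂ W' := fun W' h =>
    Submodule.finiteDimensional_of_le h
  rw [Fintype.sum_prod_type]
  simp only [Fintype.sum_prod_type]
  have s2 : ∀ ε₀ ε₁ : ℤˣ, ∑ ε₂ : ℤˣ, finrank ℂ (iso W E₀ E₁ E₂ (ε₀, ε₁, ε₂)) =
      finrank ℂ ((W ⊓ eig E₀ ε₀) ⊓ eig E₁ ε₁ : Submodule ℂ V) := by
    intro ε₀ ε₁
    have := hfin ((W ⊓ eig E₀ ε₀) ⊓ eig E₁ ε₁) (inf_le_left.trans inf_le_left)
    refine finrank_split ((W ⊓ eig E₀ ε₀) ⊓ eig E₁ ε₁) E₂ ?_ ?_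
    · rintro f ⟨⟨h1, h2⟩, h3⟩
      rw [SetLike.mem_coe, mem_eig] at h2 h3
      refine ⟨⟨a2 f h1, ?_⟩, ?_⟩
      · rw [SetLike.mem_coe, mem_eig, c02 f h1, h2, map_zsmul]
      · rw [SetLike.mem_coe, mem_eig, c12 f h1, h3, map_zsmul]
    · rintro f ⟨⟨h1, _⟩, _⟩
      exact b2 f h1
  have s1 : ∀ ε₀ : ℤˣ, ∑ ε₁ : ℤˣ, finrank ℂ ((W ⊓ eig E₀ ε₀) ⊓ eig E₁ ε₁ : Submodule ℂ V) =
      finrank ℂ (W ⊓ eig E₀ ε₀ : Submodule ℂ V) := by
    intro ε₀
    have := hfin (W ⊓ eig E₀ ε₀) inf_le_left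
    refine finrank_split (W ⊓ eig E₀ ε₀) E₁ ?_ ?_
    · rintro f ⟨h1, h2⟩
      rw [SetLike.mem_coe, mem_eig] at h2
      refine ⟨a1 f h1, ?_⟩
      rw [SetLike.mem_coe, mem_eig, c01 f h1, h2, map_zsmul]
    · rintro f ⟨h1, _⟩
      exact b1 f h1
  simp only [s2, s1]
  exact finrank_split W E₀ a0 b0

end CurveOrd

end Pool.Agent.YTD


end

/- source: Pool.Agent.YTD.SatF2 -/

section

/-!
Isotypic components of the sections of the twists of the sheaf generated by a space of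
`Γ`-invariant sections.
-/

namespace Pool.Agent.YTD

open Finset Module MvPolynomial Filter CurveOrd

variable {K : Type} [Field K] [Algebra ℂ K]
variable {T : Datum K} {q : ℕ} {D₀ : T.X.Pt →₀ ℤ}

namespace Gam

variable (γ : Gam T)

/-- the semilinear involution `τ` -/
noncomputable def S₀ : SInv T.X.toCurveOrd (MvPolynomial (Fin 4) K) where
  θ := γ.θ
  σ := γ.σ
  θθ := γ.θθ
  σσ := γ.σσ
  ord_σ := γ.ord_σ
  E := γ.tauE.toLinearMap
  E_smul := by
    intro z v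
    show γ.tauE (z • v) = γ.θ z • γ.tauE v
    rw [MvPolynomial.smul_eq_C_mul, MvPolynomial.smul_eq_C_mul, map_mul]
    congr 1
    rw [Inv.tauE_apply, rename_C, map_C]
    rfl

/-- the semilinear involution `E₁` -/
noncomputable def S₁ : SInv T.X.toCurveOrd (MvPolynomial (Fin 4) K) where
  θ := γ.θ₁
  σ := γ.σ₁
  θθ := γ.θθ₁
  σσ := γ.σσ₁
  ord_σ := γ.ord_σ₁
  E := γ.E₁.toLinearMap
  E_smul := by
    intro z v
    show γ.E₁ (z • v) = γ.θ₁ z • γ.E₁ v
    rw [E₁_apply, map_smul, MvPolynomial.smul_eq_C_mul, MvPolynomial.smul_eq_C_mul, map_mul, map_C]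
    rfl

/-- the semilinear involution `E₂` -/
noncomputable def S₂ : SInv T.X.toCurveOrd (MvPolynomial (Fin 4) K) where
  θ := γ.θ₂
  σ := γ.σ₂
  θθ := γ.θθ₂
  σσ := γ.σσ₂
  ord_σ := γ.ord_σ₂
  E := γ.E₂.toLinearMap
  E_smul := by
    intro z v
    show γ.E₂ (z • v) = γ.θ₂ z • γ.E₂ v
    rw [E₂_apply, map_smul, MvPolynomial.smul_eq_C_mul, MvPolynomial.smul_eq_C_mul, map_mul, map_C]
    rfl

/-! ### Orbits -/

theorem orb_fixes (P : T.X.Pt) (m : ℤ) : γ.Fixes (γ.orb P m) := by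
  classical
  refine ⟨?_, ?_, ?_⟩
  · intro Q
    unfold Gam.orb
    simp only [Finsupp.add_apply, Finsupp.single_apply]
    have inv : ∀ A B : T.X.Pt, (γ.σ A = γ.σ B) = (A = B) := fun A B => propext
      ⟨fun h => by rw [← γ.σσ A, h, γ.σσ], fun h => by rw [h]⟩
    have inv' : ∀ A B : T.X.Pt, (A = γ.σ B) = (γ.σ A = B) := fun A B => propext
      ⟨fun h => by rw [h, γ.σσ], fun h => by rw [← h, γ.σσ]⟩
    simp only [inv]
    simp only [inv']
    ring
  · intro Q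
    unfold Gam.orb
    simp only [Finsupp.add_apply, Finsupp.single_apply]
    have inv' : ∀ A B : T.X.Pt, (A = γ.σ₁ B) = (γ.σ₁ A = B) := fun A B => propext
      ⟨fun h => by rw [h, γ.σσ₁], fun h => by rw [← h, γ.σσ₁]⟩
    have c1 : ∀ A, γ.σ₁ (γ.σ A) = γ.σ (γ.σ₁ A) := fun A => (γ.σcomm₁ A).symm
    simp only [inv', c1, γ.σσ₁]
    ring
  · intro Q
    unfold Gam.orb
    simp only [Finsupp.add_apply, Finsupp.single_apply]
    have inv' : ∀ A B : T.X.Pt, (A = γ.σ₂ B) = (γ.σ₂ A = B) := fun A B => propext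
      ⟨fun h => by rw [h, γ.σσ₂], fun h => by rw [← h, γ.σσ₂]⟩
    have c1 : ∀ A, γ.σ₂ (γ.σ A) = γ.σ (γ.σ₂ A) := fun A => (γ.σcomm₂ A).symm
    have c2 : ∀ A, γ.σ₂ (γ.σ₁ A) = γ.σ₁ (γ.σ₂ A) := fun A => (γ.σcomm₁₂ A).symm
    simp only [inv', c1, c2, γ.σσ₂]
    ring

theorem deg_orb (P : T.X.Pt) (m : ℤ) : T.X.deg (γ.orb P m) = 8 * m := by
  unfold Gam.orb
  simp only [T.X.deg_add, T.X.deg_single]
  ring

theorem orb_self (P : T.X.Pt) : γ.orb P 1 P = 1 := by
  classical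
  unfold Gam.orb
  simp only [Finsupp.add_apply, Finsupp.single_apply, γ.free P, γ.free₁ P, γ.free₂ P,
    γ.free₁₂ P, γ.free₀₁ P, γ.free₀₂ P, γ.free₀₁₂ P, if_true, if_false]
  norm_num

/-- induction over the points of an orbit -/
theorem orb_induction (P : T.X.Pt) {p : T.X.Pt → Prop} (h₀ : ∀ Q, p Q → p (γ.σ Q))
    (h₁ : ∀ Q, p Q → p (γ.σ₁ Q)) (h₂ : ∀ Q, p Q → p (γ.σ₂ Q)) (hP : p P)
    (h : ∀ Q, γ.orb P 1 Q = 0 → p Q) (Q : T.X.Pt) : p Q := by
  classical
  by_cases h0 : γ.orb P 1 Q = 0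
  · exact h Q h0
  · unfold Gam.orb at h0
    simp only [Finsupp.add_apply, Finsupp.single_apply] at h0
    by_cases e1 : P = Q
    · rw [← e1]; exact hP
    by_cases e2 : γ.σ P = Q
    · rw [← e2]; exact h₀ _ hP
    by_cases e3 : γ.σ₁ P = Q
    · rw [← e3]; exact h₁ _ hP
    by_cases e4 : γ.σ (γ.σ₁ P) = Q
    · rw [← e4]; exact h₀ _ (h₁ _ hP)
    by_cases e5 : γ.σ₂ P = Q
    · rw [← e5]; exact h₂ _ hP
    by_cases e6 : γ.σ (γ.σ₂ P) = Q
    · rw [← e6]; exact h₀ _ (h₂ _ hP)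
    by_cases e7 : γ.σ₁ (γ.σ₂ P) = Q
    · rw [← e7]; exact h₁ _ (h₂ _ hP)
    by_cases e8 : γ.σ (γ.σ₁ (γ.σ₂ P)) = Q
    · rw [← e8]; exact h₀ _ (h₁ _ (h₂ _ hP))
    rw [if_neg e1, if_neg e2, if_neg e3, if_neg e4, if_neg e5, if_neg e6, if_neg e7,
      if_neg e8] at h0
    exact (h0 rfl).elim

end Gam

/-! ### Eigenvectors and stalks -/

theorem neg_mem_stk {X : CurveOrd K} {V : Type} [AddCommGroup V] [Module K V] [Module ℂ V]
    [IsScalarTower ℂ K V] {P : X.Pt} {n : ℤ} {U : Submodule ℂ V} {f : V}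
    (hf : f ∈ X.stk P n U) : -f ∈ X.stk P n U := by
  intro z hz hn
  rw [smul_neg]
  exact neg_mem (hf z hz hn)

theorem SInv.stk_of_eig {X : CurveOrd K} {V : Type} [AddCommGroup V] [Module K V] [Module ℂ V]
    [IsScalarTower ℂ K V] (S : SInv X V) {U : Submodule ℂ V} (hU : ∀ u ∈ U, S.E u = u)
    {P : X.Pt} {n : ℤ} {f : V} {ε : ℤˣ} (hε : S.E f = (ε : ℤ) • f) (hf : f ∈ X.stk P n U) :
    f ∈ X.stk (S.σ P) n U := by
  have h1 := S.E_stk hU hf
  rw [hε] at h1
  rcases Int.units_eq_one_or ε with rfl | rfl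
  · rwa [Units.val_one, one_smul] at h1
  · rw [Units.val_neg, Units.val_one, neg_smul, one_smul] at h1
    have h2 := neg_mem_stk h1
    rwa [neg_neg] at h2

namespace Gam

variable (γ : Gam T) {U : Submodule ℂ (MvPolynomial (Fin 4) K)}

/-- the space is pointwise fixed -/
structure Fixed (U : Submodule ℂ (MvPolynomial (Fin 4) K)) : Prop where
  h₀ : ∀ u ∈ U, γ.S₀.E u = u
  h₁ : ∀ u ∈ U, γ.S₁.E u = u
  h₂ : ∀ u ∈ U, γ.S₂.E u = u

theorem fixed_of_le {M : ℕ} (hU : U ≤ γ.secQ q D₀ M) : γ.Fixed U where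
  h₀ _ hu := (hU hu).2.2.2
  h₁ _ hu := (hU hu).2.1
  h₂ _ hu := (hU hu).2.2.1

/-- isotypic part of the sections of the twist by `D` -/
noncomputable def ic (U : Submodule ℂ (MvPolynomial (Fin 4) K)) (D : T.X.Pt →₀ ℤ)
    (ε : ℤˣ × ℤˣ × ℤˣ) : Submodule ℂ (MvPolynomial (Fin 4) K) :=
  iso (T.X.satD D U) γ.S₀.E γ.S₁.E γ.S₂.E ε

theorem ic_le (U : Submodule ℂ (MvPolynomial (Fin 4) K)) (D : T.X.Pt →₀ ℤ)
    (ε : ℤˣ × ℤˣ × ℤˣ) : γ.ic U D ε ≤ T.X.satD D U := iso_le _ _ _ _ _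

variable {γ}

theorem Fixed.sum_ic (h : γ.Fixed U) [FiniteDimensional ℂ U] {D : T.X.Pt →₀ ℤ}
    (hD : γ.Fixes D) :
    ∑ ε : ℤˣ × ℤˣ × ℤˣ, finrank ℂ (γ.ic U D ε) = finrank ℂ (T.X.satD D U) := by
  obtain ⟨P₀⟩ := T.exists_pt
  have := T.X.finite_satD P₀ D U
  have hs : ∀ f ∈ T.X.satD D U, f ∈ Submodule.span K (U : Set (MvPolynomial (Fin 4) K)) :=
    fun f hf => T.X.satD_le_span P₀ D U hf
  refine sum_iso (T.X.satD D U) γ.S₀.E γ.S₁.E γ.S₂.E
    (fun f hf => γ.S₀.E_satD h.h₀ hD.1 hf) (fun f hf => γ.S₁.E_satD h.h₁ hD.2.1 hf)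
    (fun f hf => γ.S₂.E_satD h.h₂ hD.2.2 hf)
    (fun f hf => γ.S₀.E_E h.h₀ (hs f hf)) (fun f hf => γ.S₁.E_E h.h₁ (hs f hf))
    (fun f hf => γ.S₂.E_E h.h₂ (hs f hf))
    (fun f hf => γ.S₀.E_comm (S' := γ.S₁) γ.comm₁ h.h₀ h.h₁ (hs f hf))
    (fun f hf => γ.S₀.E_comm (S' := γ.S₂) γ.comm₂ h.h₀ h.h₂ (hs f hf))
    (fun f hf => γ.S₁.E_comm (S' := γ.S₂) γ.comm₁₂ h.h₁ h.h₂ (hs f hf))

theorem Fixes.sub_orb {D : T.X.Pt →₀ ℤ} (hD : γ.Fixes D) (P : T.X.Pt) :
    γ.Fixes (D - γ.orb P 1) := by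
  have h := γ.orb_fixes P 1
  refine ⟨fun Q => ?_, fun Q => ?_, fun Q => ?_⟩
  · rw [Finsupp.sub_apply, Finsupp.sub_apply, hD.1, h.1]
  · rw [Finsupp.sub_apply, Finsupp.sub_apply, hD.2.1, h.2.1]
  · rw [Finsupp.sub_apply, Finsupp.sub_apply, hD.2.2, h.2.2]

theorem Fixed.ic_inf_le (h : γ.Fixed U) {D : T.X.Pt →₀ ℤ} (hD : γ.Fixes D) (P : T.X.Pt)
    (ε : ℤˣ × ℤˣ × ℤˣ) :
    γ.ic U D ε ⊓ T.X.satD (D - Finsupp.single P 1) U ≤ γ.ic U (D - γ.orb P 1) ε := by
  rintro f ⟨hf, hf'⟩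
  have hf1 := mem_iso.1 hf
  refine mem_iso.2 ⟨?_, hf1.2⟩
  rw [mem_satD_iff]
  have hF := hD.sub_orb P
  refine γ.orb_induction P ?_ ?_ ?_ ?_ ?_
  · intro Q hQ
    have := SInv.stk_of_eig γ.S₀ h.h₀ hf1.2.1 hQ
    rw [hF.1]
    exact this
  · intro Q hQ
    have := SInv.stk_of_eig γ.S₁ h.h₁ hf1.2.2.1 hQ
    rw [hF.2.1]
    exact this
  · intro Q hQ
    have := SInv.stk_of_eig γ.S₂ h.h₂ hf1.2.2.2 hQ
    rw [hF.2.2]
    exact this
  · have h1 := mem_satD_iff.1 hf' P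
    rw [Finsupp.sub_apply, γ.orb_self]
    rw [Finsupp.sub_apply, Finsupp.single_eq_same] at h1
    exact h1
  · intro Q hQ
    have h1 := mem_satD_iff.1 hf1.1 Q
    rw [Finsupp.sub_apply, hQ, sub_zero]
    exact h1

end Gam

theorem finrank_le_inf {V : Type} [AddCommGroup V] [Module ℂ V] (W A B : Submodule ℂ V)
    [FiniteDimensional ℂ W] (hA : A ≤ W) (hB : B ≤ W) :
    finrank ℂ A + finrank ℂ B ≤ finrank ℂ (A ⊓ B : Submodule ℂ V) + finrank ℂ W := by
  have : FiniteDimensional ℂ A := Submodule.finiteDimensional_of_le hA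
  have : FiniteDimensional ℂ B := Submodule.finiteDimensional_of_le hB
  have h1 := Submodule.finrank_sup_add_finrank_inf_eq A B
  have h2 := Submodule.finrank_mono (sup_le hA hB)
  omega

namespace Gam

variable {γ : Gam T} {U : Submodule ℂ (MvPolynomial (Fin 4) K)}

theorem Fixed.step (h : γ.Fixed U) [FiniteDimensional ℂ U] {D : T.X.Pt →₀ ℤ}
    (hD : γ.Fixes D) (P : T.X.Pt) (ε : ℤˣ × ℤˣ × ℤˣ) :
    finrank ℂ (γ.ic U D ε) ≤ finrank ℂ (γ.ic U (D - γ.orb P 1) ε) + kdim K U := by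
  classical
  obtain ⟨P₀⟩ := T.exists_pt
  have i1 := T.X.finite_satD P₀ D U
  have i2 := T.X.finite_satD P₀ (D - γ.orb P 1) U
  have i3 : FiniteDimensional ℂ (γ.ic U (D - γ.orb P 1) ε) :=
    Submodule.finiteDimensional_of_le (γ.ic_le U _ ε)
  have hle : ∀ Q, (D - Finsupp.single P 1 : T.X.Pt →₀ ℤ) Q ≤ D Q := by
    intro Q
    rw [Finsupp.sub_apply, Finsupp.single_apply]
    split_ifs <;> simp
  have h1 := finrank_le_inf (T.X.satD D U) (γ.ic U D ε) (T.X.satD (D - Finsupp.single P 1) U)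
    (γ.ic_le U D ε) (T.X.satD_mono hle le_rfl)
  have h2 := Submodule.finrank_mono (h.ic_inf_le hD P ε)
  have h3 := T.X.finrank_satD_le P₀ hle U
  rw [T.X.deg_sub, T.X.deg_single] at h3
  have h4 : (finrank ℂ (T.X.satD D U) : ℤ) ≤
      finrank ℂ (T.X.satD (D - Finsupp.single P 1) U) + kdim K U := by
    linarith
  have h5 : finrank ℂ (T.X.satD D U) ≤
      finrank ℂ (T.X.satD (D - Finsupp.single P 1) U) + kdim K U := by exact_mod_cast h4
  omega

theorem Fixed.incr (h : γ.Fixed U) [FiniteDimensional ℂ U] {D : T.X.Pt →₀ ℤ}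
    (hD : γ.Fixes D) (ε : ℤˣ × ℤˣ × ℤˣ) : ∀ (n : ℕ) (D' : T.X.Pt →₀ ℤ), γ.Fixes D' →
    (∀ P, D P ≤ D' P) → T.X.deg D' - T.X.deg D = n →
    8 * finrank ℂ (γ.ic U D' ε) ≤ 8 * finrank ℂ (γ.ic U D ε) + kdim K U * n := by
  intro n
  induction n using Nat.strong_induction_on with
  | _ n ih =>
    intro D' hD' hle hn
    by_cases heq : D' = D
    · rw [heq]
      exact Nat.le_add_right _ _
    · obtain ⟨P, hP⟩ : ∃ P, D' P ≠ D P := by
        by_contra hc
        push Not at hc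
        exact heq (Finsupp.ext hc)
      have hP' : D P < D' P := lt_of_le_of_ne (hle P) (Ne.symm hP)
      have hle' : ∀ Q, D Q ≤ (D' - γ.orb P 1 : T.X.Pt →₀ ℤ) Q := by
        have hF := hD'.sub_orb P
        refine γ.orb_induction P ?_ ?_ ?_ ?_ ?_
        · intro Q hQ
          rw [hF.1, hD.1]
          exact hQ
        · intro Q hQ
          rw [hF.2.1, hD.2.1]
          exact hQ
        · intro Q hQ
          rw [hF.2.2, hD.2.2]
          exact hQ
        · rw [Finsupp.sub_apply, γ.orb_self]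
          omega
        · intro Q hQ
          rw [Finsupp.sub_apply, hQ, sub_zero]
          exact hle Q
      have hdeg : T.X.deg (D' - γ.orb P 1) = T.X.deg D' - 8 := by
        rw [T.X.deg_sub, γ.deg_orb]
        ring
      have h0 := T.X.deg_mono hle'
      rw [hdeg] at h0
      have hn8 : 8 ≤ n := by omega
      have h1 := ih (n - 8) (by omega) (D' - γ.orb P 1) (hD'.sub_orb P) hle' (by
        rw [hdeg]
        omega)
      have h2 := h.step hD' P ε
      obtain ⟨m, rfl⟩ : ∃ m, n = m + 8 := ⟨n - 8, by omega⟩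
      rw [Nat.add_sub_cancel] at h1
      nlinarith

end Gam

end Pool.Agent.YTD


end

/- source: Pool.Agent.YTD.SatF3 -/

section

/-!
The isotypic components of the sections of the sheaf generated by a space of `Γ`-invariant
sections have almost the same dimension.
-/

namespace Pool.Agent.YTD

open Finset Module MvPolynomial Filter CurveOrd

variable {K : Type} [Field K] [Algebra ℂ K]
variable {T : Datum K} {q : ℕ} {D₀ : T.X.Pt →₀ ℤ}

/-! ### Semi-invariant functions -/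

theorem units_smul_self {A : Type} [AddCommGroup A] (ε : ℤˣ) (a : A) :
    (ε : ℤ) • (ε : ℤ) • a = a := by
  rcases Int.units_eq_one_or ε with rfl | rfl
  · rw [Units.val_one, one_smul, one_smul]
  · rw [Units.val_neg, Units.val_one, neg_smul, one_smul, neg_smul, one_smul, neg_neg]

theorem semi_self (θ : K ≃ₐ[ℂ] K) (h : ∀ z, θ (θ z) = z) (ε : ℤˣ) (x : K) :
    θ (x + (ε : ℤ) • θ x) = (ε : ℤ) • (x + (ε : ℤ) • θ x) := by
  rw [map_add, map_zsmul, h, smul_add, units_smul_self, add_comm]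

theorem semi_comm (θ θ' : K ≃ₐ[ℂ] K) (h : ∀ z, θ (θ' z) = θ' (θ z)) (ε ε' : ℤˣ) (x : K)
    (hx : θ x = (ε : ℤ) • x) :
    θ (x + (ε' : ℤ) • θ' x) = (ε : ℤ) • (x + (ε' : ℤ) • θ' x) := by
  rw [map_add, map_zsmul, h, hx, map_zsmul, smul_add]
  congr 1
  rw [smul_smul, smul_smul, mul_comm]

/-- semi-invariant functions exist for every character -/
theorem Gam.exists_semi (γ : Gam T) (χ : ℤˣ × ℤˣ × ℤˣ) :
    ∃ h : K, h ≠ 0 ∧ γ.θ h = (χ.1 : ℤ) • h ∧ γ.θ₁ h = (χ.2.1 : ℤ) • h ∧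
      γ.θ₂ h = (χ.2.2 : ℤ) • h := by
  classical
  obtain ⟨P⟩ := T.exists_pt
  obtain ⟨f, hf, hf0, hf1⟩ := T.X.exists_ord_eq P
    (D := Finsupp.single P (2 * (T.X.genus : ℤ) + 1)) (by rw [T.X.deg_single]; linarith) P
  rw [Finsupp.single_eq_same] at hf1
  obtain ⟨a, b, c⟩ := χ
  set x₂ := f + (c : ℤ) • γ.θ₂ f with hx₂
  set x₁ := x₂ + (b : ℤ) • γ.θ₁ x₂ with hx₁
  set x₀ := x₁ + (a : ℤ) • γ.θ x₁ with hx₀
  have e22 : γ.θ₂ x₂ = (c : ℤ) • x₂ := semi_self γ.θ₂ γ.θθ₂ c f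
  have e21 : γ.θ₂ x₁ = (c : ℤ) • x₁ :=
    semi_comm γ.θ₂ γ.θ₁ (fun z => (γ.comm₁₂ z).symm) c b x₂ e22
  have e20 : γ.θ₂ x₀ = (c : ℤ) • x₀ :=
    semi_comm γ.θ₂ γ.θ (fun z => (γ.comm₂ z).symm) c a x₁ e21
  have e11 : γ.θ₁ x₁ = (b : ℤ) • x₁ := semi_self γ.θ₁ γ.θθ₁ b x₂
  have e10 : γ.θ₁ x₀ = (b : ℤ) • x₀ :=
    semi_comm γ.θ₁ γ.θ (fun z => (γ.comm₁ z).symm) b a x₁ e11
  have e00 : γ.θ x₀ = (a : ℤ) • x₀ := semi_self γ.θ γ.θθ a x₁
  refine ⟨x₀, ?_, e00, e10, e20⟩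
  intro h0
  -- regularity of the conjugates at `P`
  have key : ∀ Q : T.X.Pt, Q ≠ P → 0 ≤ T.X.ord Q f := by
    intro Q hQ
    have h1 := hf hf0 Q
    rw [Finsupp.single_eq_of_ne hQ, add_zero] at h1
    exact h1
  have hz : ∀ (R : Subring K) (n : ℤ) (x : K), x ∈ R → n • x ∈ R := fun R n x hx =>
    zsmul_mem hx n
  have o0 : ∀ (Q : T.X.Pt) (z : K), z ≠ 0 → T.X.ord Q (γ.θ z) = T.X.ord (γ.σ Q) z :=
    fun Q z h => γ.S₀.ord_θ Q h
  have o1 : ∀ (Q : T.X.Pt) (z : K), z ≠ 0 → T.X.ord Q (γ.θ₁ z) = T.X.ord (γ.σ₁ Q) z :=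
    fun Q z h => γ.S₁.ord_θ Q h
  have o2 : ∀ (Q : T.X.Pt) (z : K), z ≠ 0 → T.X.ord Q (γ.θ₂ z) = T.X.ord (γ.σ₂ Q) z :=
    fun Q z h => γ.S₂.ord_θ Q h
  have n0 : γ.θ f ≠ 0 := (map_ne_zero _).2 hf0
  have n1 : γ.θ₁ f ≠ 0 := (map_ne_zero _).2 hf0
  have n2 : γ.θ₂ f ≠ 0 := (map_ne_zero _).2 hf0
  have n12 : γ.θ₁ (γ.θ₂ f) ≠ 0 := (map_ne_zero _).2 n2
  have r2 : γ.θ₂ f ∈ T.X.OO P := fun _ => by
    rw [o2 P f hf0]
    exact key _ (γ.free₂ P)
  have r1 : γ.θ₁ f ∈ T.X.OO P := fun _ => by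
    rw [o1 P f hf0]
    exact key _ (γ.free₁ P)
  have r0 : γ.θ f ∈ T.X.OO P := fun _ => by
    rw [o0 P f hf0]
    exact key _ (γ.free P)
  have r12 : γ.θ₁ (γ.θ₂ f) ∈ T.X.OO P := fun _ => by
    rw [o1 P _ n2, o2 _ _ hf0]
    apply key
    rw [← γ.σcomm₁₂]
    exact γ.free₁₂ P
  have r01 : γ.θ (γ.θ₁ f) ∈ T.X.OO P := fun _ => by
    rw [o0 P _ n1, o1 _ _ hf0]
    apply key
    rw [← γ.σcomm₁]
    exact γ.free₀₁ P
  have r02 : γ.θ (γ.θ₂ f) ∈ T.X.OO P := fun _ => by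
    rw [o0 P _ n2, o2 _ _ hf0]
    apply key
    rw [← γ.σcomm₂]
    exact γ.free₀₂ P
  have r012 : γ.θ (γ.θ₁ (γ.θ₂ f)) ∈ T.X.OO P := fun _ => by
    rw [o0 P _ n12, o1 _ _ n2, o2 _ _ hf0]
    apply key
    rw [← γ.σcomm₁, ← γ.σcomm₂, ← γ.σcomm₁₂]
    exact γ.free₀₁₂ P
  have hsum : x₀ - f ∈ T.X.OO P := by
    have e : x₀ - f = (c : ℤ) • γ.θ₂ f + (b : ℤ) • (γ.θ₁ f + (c : ℤ) • γ.θ₁ (γ.θ₂ f)) +
        (a : ℤ) • (γ.θ f + (c : ℤ) • γ.θ (γ.θ₂ f) +
          (b : ℤ) • (γ.θ (γ.θ₁ f) + (c : ℤ) • γ.θ (γ.θ₁ (γ.θ₂ f)))) := by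
      rw [hx₀, hx₁, hx₂]
      simp only [map_add, map_zsmul]
      abel
    rw [e]
    exact add_mem (add_mem (hz _ _ _ r2) (hz _ _ _ (add_mem r1 (hz _ _ _ r12))))
      (hz _ _ _ (add_mem (add_mem r0 (hz _ _ _ r02))
        (hz _ _ _ (add_mem r01 (hz _ _ _ r012)))))
  rw [h0, zero_sub] at hsum
  have h1 := neg_mem hsum
  rw [neg_neg] at h1
  have h2 := h1 hf0
  rw [hf1] at h2
  have h3 : (0 : ℤ) ≤ (T.X.genus : ℤ) := Int.natCast_nonneg _
  linarith

namespace Gam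

variable {γ : Gam T} {U : Submodule ℂ (MvPolynomial (Fin 4) K)}

theorem smul_ic {D : T.X.Pt →₀ ℤ} {h : K} (h0 : h ≠ 0) {χ : ℤˣ × ℤˣ × ℤˣ}
    (hχ : γ.θ h = (χ.1 : ℤ) • h ∧ γ.θ₁ h = (χ.2.1 : ℤ) • h ∧ γ.θ₂ h = (χ.2.2 : ℤ) • h)
    {ε : ℤˣ × ℤˣ × ℤˣ} {f : MvPolynomial (Fin 4) K} (hf : f ∈ γ.ic U (D + T.X.dv h) ε) :
    h • f ∈ γ.ic U D (χ * ε) := by
  have key : ∀ (S : SInv T.X.toCurveOrd (MvPolynomial (Fin 4) K)) (c e : ℤˣ),
      S.θ h = (c : ℤ) • h → S.E f = (e : ℤ) • f → S.E (h • f) = ((c * e : ℤˣ) : ℤ) • h • f := by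
    intro S c e h1 h2
    rw [S.E_smul, h1, h2, Units.val_mul, mul_smul, smul_assoc, smul_comm h (e : ℤ) f]
  obtain ⟨h1, h2, h3, h4⟩ := mem_iso.1 hf
  exact mem_iso.2 ⟨(T.X.smul_mem_satD h0).2 h1, key γ.S₀ _ _ hχ.1 h2, key γ.S₁ _ _ hχ.2.1 h3,
    key γ.S₂ _ _ hχ.2.2 h4⟩

theorem finrank_ic_le [FiniteDimensional ℂ U] {D : T.X.Pt →₀ ℤ} {h : K} (h0 : h ≠ 0)
    {χ : ℤˣ × ℤˣ × ℤˣ}
    (hχ : γ.θ h = (χ.1 : ℤ) • h ∧ γ.θ₁ h = (χ.2.1 : ℤ) • h ∧ γ.θ₂ h = (χ.2.2 : ℤ) • h)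
    (ε : ℤˣ × ℤˣ × ℤˣ) :
    finrank ℂ (γ.ic U (D + T.X.dv h) ε) ≤ finrank ℂ (γ.ic U D (χ * ε)) := by
  obtain ⟨P₀⟩ := T.exists_pt
  have i1 := T.X.finite_satD P₀ D U
  have i2 : FiniteDimensional ℂ (γ.ic U D (χ * ε)) :=
    Submodule.finiteDimensional_of_le (γ.ic_le U _ _)
  let m : MvPolynomial (Fin 4) K →ₗ[ℂ] MvPolynomial (Fin 4) K :=
    { toFun := fun f => h • f
      map_add' := fun f g => smul_add _ _ _
      map_smul' := fun c f => smul_comm _ _ _ }
  have hinj : Function.Injective m := by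
    intro f g hfg
    have h1 : h • f = h • g := hfg
    have h2 := congrArg (fun x => h⁻¹ • x) h1
    simpa only [inv_smul_smul₀ h0] using h2
  have e : finrank ℂ ((γ.ic U (D + T.X.dv h) ε).map m) = finrank ℂ (γ.ic U (D + T.X.dv h) ε) :=
    (LinearEquiv.finrank_eq (Submodule.equivMapOfInjective m hinj _)).symm
  rw [← e]
  apply Submodule.finrank_mono
  rintro _ ⟨f, hf, rfl⟩
  exact smul_ic h0 hχ hf

theorem fixes_dv {h : K} (h0 : h ≠ 0) {χ : ℤˣ × ℤˣ × ℤˣ}
    (hχ : γ.θ h = (χ.1 : ℤ) • h ∧ γ.θ₁ h = (χ.2.1 : ℤ) • h ∧ γ.θ₂ h = (χ.2.2 : ℤ) • h) :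
    γ.Fixes (T.X.dv h) := by
  have hneg : ∀ Q : T.X.Pt, T.X.ord Q (-h) = T.X.ord Q h := by
    intro Q
    have e : -h = algebraMap ℂ K (-1) * h := by
      rw [map_neg, map_one, neg_one_mul]
    have h2 : algebraMap ℂ K (-1) ≠ 0 := by
      rw [map_neg, map_one]
      exact neg_ne_zero.2 one_ne_zero
    rw [e, T.X.ord_mul Q _ _ h2 h0, T.X.ord_const Q (-1) (by norm_num), zero_add]
  have hu : ∀ (Q : T.X.Pt) (c : ℤˣ), T.X.ord Q ((c : ℤ) • h) = T.X.ord Q h := by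
    intro Q c
    rcases Int.units_eq_one_or c with rfl | rfl
    · rw [Units.val_one, one_smul]
    · rw [Units.val_neg, Units.val_one, neg_smul, one_smul, hneg]
  refine ⟨fun Q => ?_, fun Q => ?_, fun Q => ?_⟩
  · rw [T.X.dv_apply h0, T.X.dv_apply h0, ← γ.ord_σ Q h h0, hχ.1, hu]
  · rw [T.X.dv_apply h0, T.X.dv_apply h0, ← γ.ord_σ₁ Q h h0, hχ.2.1, hu]
  · rw [T.X.dv_apply h0, T.X.dv_apply h0, ← γ.ord_σ₂ Q h h0, hχ.2.2, hu]

theorem Fixed.ic_zero_le (hF : γ.Fixed U) [FiniteDimensional ℂ U] {h : ℕ} (hB : T.X.Bd U h)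
    (χ ε : ℤˣ × ℤˣ × ℤˣ) :
    finrank ℂ (γ.ic U 0 ε) ≤ finrank ℂ (γ.ic U 0 (χ * ε)) + h := by
  classical
  obtain ⟨z, z0, hz⟩ := γ.exists_semi χ
  have hdv := fixes_dv z0 hz
  -- the effective divisor
  set A : T.X.Pt →₀ ℤ := (T.X.dv z) ⊔ 0 with hA
  have hA' : ∀ P, A P = max (T.X.dv z P) 0 := fun P => by
    rw [hA, Finsupp.sup_apply]
    rfl
  have hAf : γ.Fixes A := by
    refine ⟨fun Q => ?_, fun Q => ?_, fun Q => ?_⟩
    · rw [hA', hA', hdv.1]
    · rw [hA', hA', hdv.2.1]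
    · rw [hA', hA', hdv.2.2]
  have hA0 : ∀ P, (0 : T.X.Pt →₀ ℤ) P ≤ A P := fun P => by
    rw [hA']
    exact le_max_right _ _
  have hAd : ∀ P, T.X.dv z P ≤ A P := fun P => by
    rw [hA']
    exact le_max_left _ _
  have h0f : γ.Fixes (0 : T.X.Pt →₀ ℤ) := ⟨fun _ => rfl, fun _ => rfl, fun _ => rfl⟩
  have hdegA : 0 ≤ T.X.deg A := T.X.deg_nonneg hA0
  obtain ⟨n, hn⟩ : ∃ n : ℕ, T.X.deg A = n := ⟨(T.X.deg A).toNat, by omega⟩
  have h1 : ∀ ε', 8 * finrank ℂ (γ.ic U A ε') ≤ 8 * finrank ℂ (γ.ic U 0 ε') + kdim K U * n :=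
    fun ε' => hF.incr h0f ε' n A hAf hA0 (by rw [T.X.deg_zero, sub_zero, hn])
  have h2 : 8 * finrank ℂ (γ.ic U A ε) ≤ 8 * finrank ℂ (γ.ic U (T.X.dv z) ε) + kdim K U * n :=
    hF.incr hdv ε n A hAf hAd (by rw [T.X.deg_dv z0, sub_zero, hn])
  have h3 : finrank ℂ (γ.ic U (T.X.dv z) ε) ≤ finrank ℂ (γ.ic U 0 (χ * ε)) := by
    have := finrank_ic_le (U := U) (D := 0) z0 hz ε
    rwa [zero_add] at this
  have h4 := hB A hA0
  rw [hn] at h4
  have h5 : kdim K U * n + finrank ℂ (T.X.satD 0 U) ≤ finrank ℂ (T.X.satD A U) + h := by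
    exact_mod_cast h4
  rw [← hF.sum_ic h0f, ← hF.sum_ic hAf] at h5
  have hcard : (Finset.univ.erase ε : Finset (ℤˣ × ℤˣ × ℤˣ)).card = 7 := by
    rw [Finset.card_erase_of_mem (Finset.mem_univ ε)]
    rfl
  have h6 : 8 * ∑ ε' ∈ Finset.univ.erase ε, finrank ℂ (γ.ic U A ε') ≤
      8 * ∑ ε' ∈ Finset.univ.erase ε, finrank ℂ (γ.ic U 0 ε') + 7 * (kdim K U * n) := by
    rw [Finset.mul_sum, Finset.mul_sum, ← hcard, ← smul_eq_mul (a := (_ : ℕ)) (b := kdim K U * n),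
      ← Finset.sum_const, ← Finset.sum_add_distrib]
    exact Finset.sum_le_sum fun ε' _ => h1 ε'
  rw [← Finset.add_sum_erase Finset.univ _ (Finset.mem_univ ε),
    ← Finset.add_sum_erase Finset.univ _ (Finset.mem_univ ε)] at h5
  set S0 := ∑ ε' ∈ Finset.univ.erase ε, finrank ℂ (γ.ic U 0 ε')
  set SA := ∑ ε' ∈ Finset.univ.erase ε, finrank ℂ (γ.ic U A ε')
  set kn := kdim K U * n
  omega

end Gam

/-- (F): the isotypic components have almost equal dimensions. -/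
theorem Gam.finrank_satD' (γ : Gam T) {M : ℕ}
    (U : Submodule ℂ (MvPolynomial (Fin 4) K)) (hU : U ≤ γ.secQ q D₀ M) {h : ℕ}
    (hB : T.X.Bd U h) :
    8 * finrank ℂ (T.X.satD 0 U ⊓ γ.secQ q D₀ M : Submodule ℂ (MvPolynomial (Fin 4) K)) ≤
      finrank ℂ (T.X.satD 0 U) + 7 * h ∧
    finrank ℂ (T.X.satD 0 U) ≤
      8 * finrank ℂ (T.X.satD 0 U ⊓ γ.secQ q D₀ M : Submodule ℂ (MvPolynomial (Fin 4) K)) +
        7 * h := by
  classical
  obtain ⟨P₀⟩ := T.exists_pt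
  have i0 := T.finite_sec P₀ q D₀ M
  have i1 : FiniteDimensional ℂ U :=
    Submodule.finiteDimensional_of_le (hU.trans (γ.secQ_le q D₀ M))
  have hF : γ.Fixed U := γ.fixed_of_le hU
  have h0f : γ.Fixes (0 : T.X.Pt →₀ ℤ) := ⟨fun _ => rfl, fun _ => rfl, fun _ => rfl⟩
  have e1 : T.X.satD 0 U ⊓ γ.secQ q D₀ M = γ.ic U 0 1 := by
    ext f
    constructor
    · rintro ⟨h1, h2⟩
      refine mem_iso.2 ⟨h1, ?_, ?_, ?_⟩
      · rw [Prod.fst_one, Units.val_one, one_smul]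
        exact h2.2.2.2
      · rw [Prod.snd_one, Prod.fst_one, Units.val_one, one_smul]
        exact h2.2.1
      · rw [Prod.snd_one, Prod.snd_one, Units.val_one, one_smul]
        exact h2.2.2.1
    · intro hf
      obtain ⟨h1, h2, h3, h4⟩ := mem_iso.1 hf
      rw [Prod.fst_one, Units.val_one, one_smul] at h2
      rw [Prod.snd_one, Prod.fst_one, Units.val_one, one_smul] at h3
      rw [Prod.snd_one, Prod.snd_one, Units.val_one, one_smul] at h4
      refine ⟨h1, ?_, h3, h4, h2⟩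
      rw [← T.satD_sec q D₀ M]
      exact (T.X.satD_mono (fun _ => le_rfl) (hU.trans (γ.secQ_le q D₀ M)) h1)
  rw [e1, ← hF.sum_ic h0f, ← Finset.add_sum_erase Finset.univ _ (Finset.mem_univ 1)]
  have hcard : (Finset.univ.erase 1 : Finset (ℤˣ × ℤˣ × ℤˣ)).card = 7 := by
    rw [Finset.card_erase_of_mem (Finset.mem_univ 1)]
    rfl
  have h1 : 7 * finrank ℂ (γ.ic U 0 1) ≤
      ∑ ε ∈ Finset.univ.erase 1, finrank ℂ (γ.ic U 0 ε) + 7 * h := by
    rw [← hcard, ← smul_eq_mul (a := (_ : ℕ)) (b := finrank ℂ (γ.ic U 0 1)),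
      ← smul_eq_mul (a := (_ : ℕ)) (b := h), ← Finset.sum_const, ← Finset.sum_const,
      ← Finset.sum_add_distrib]
    refine Finset.sum_le_sum fun ε _ => ?_
    have := hF.ic_zero_le hB ε 1
    rwa [mul_one] at this
  have h2 : ∑ ε ∈ Finset.univ.erase 1, finrank ℂ (γ.ic U 0 ε) ≤
      7 * finrank ℂ (γ.ic U 0 1) + 7 * h := by
    rw [← hcard, ← smul_eq_mul (a := (_ : ℕ)) (b := finrank ℂ (γ.ic U 0 1)),
      ← smul_eq_mul (a := (_ : ℕ)) (b := h), ← Finset.sum_const, ← Finset.sum_const,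
      ← Finset.sum_add_distrib]
    refine Finset.sum_le_sum fun ε _ => ?_
    have := hF.ic_zero_le hB ε⁻¹ ε
    rwa [inv_mul_cancel] at this
  constructor <;> omega

theorem Gam.finrank_satD (γ : Gam T) (_ : γ.Fixes D₀) {M : ℕ}
    (U : Submodule ℂ (MvPolynomial (Fin 4) K)) (hU : U ≤ γ.secQ q D₀ M) {h : ℕ}
    (hB : T.X.Bd U h) :
    8 * finrank ℂ (T.X.satD 0 U ⊓ γ.secQ q D₀ M : Submodule ℂ (MvPolynomial (Fin 4) K)) ≤
      finrank ℂ (T.X.satD 0 U) + 7 * h ∧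
    finrank ℂ (T.X.satD 0 U) ≤
      8 * finrank ℂ (T.X.satD 0 U ⊓ γ.secQ q D₀ M : Submodule ℂ (MvPolynomial (Fin 4) K)) +
        7 * h := γ.finrank_satD' U hU hB

end Pool.Agent.YTD


end

/- source: Pool.Agent.YTD.SatJ -/

section

/-!
Veronese subfiltrations of test configurations of the quotient.
-/

namespace Pool.Agent.YTD

open Finset Module MvPolynomial Filter

variable {K : Type} [Field K] [Algebra ℂ K]

section

variable {k : ℕ} {n : Fin k → ℕ} {w : Fin k → ℤ} {f : Fin k → MvPolynomial (Fin 4) K}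

theorem one_mem_gspan : (1 : MvPolynomial (Fin 4) K) ∈ gspan n w f 0 0 := by
  apply Submodule.subset_span
  refine ⟨0, ?_, ?_, ?_⟩
  · simp
  · simp
  · simp

theorem pow_mem_gspan {N : ℕ} {l : ℤ} {x : MvPolynomial (Fin 4) K} (hx : x ∈ gspan n w f N l)
    (c : ℕ) : x ^ c ∈ gspan n w f (c * N) (c * l) := by
  induction c with
  | zero =>
    rw [pow_zero, zero_mul, Nat.cast_zero, zero_mul]
    exact one_mem_gspan
  | succ c ih =>
    rw [pow_succ, Nat.succ_mul]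
    have e : ((c + 1 : ℕ) : ℤ) * l = c * l + l := by push_cast; ring
    rw [e]
    exact gspan_mul ih hx

theorem prod_mem_gspan {ι : Type} (s : Finset ι) (d : ι → ℕ) (u : ι → ℤ)
    (x : ι → MvPolynomial (Fin 4) K) (hx : ∀ i ∈ s, x i ∈ gspan n w f (d i) (u i)) :
    ∏ i ∈ s, x i ∈ gspan n w f (∑ i ∈ s, d i) (∑ i ∈ s, u i) := by
  classical
  induction s using Finset.induction_on with
  | empty =>
    rw [prod_empty, sum_empty, sum_empty]
    exact one_mem_gspan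
  | insert a s ha ih =>
    rw [prod_insert ha, sum_insert ha, sum_insert ha]
    exact gspan_mul (hx a (mem_insert_self _ _)) (ih fun i hi => hx i (mem_insert_of_mem hi))

end

variable {T : Datum K} {q : ℕ} {D₀ : T.X.Pt →₀ ℤ} {r : ℕ}

namespace QFilt

variable {γ : Gam T} (χ : QFilt γ q D₀ r)

theorem one_mem' : (1 : MvPolynomial (Fin 4) K) ∈ χ.F 0 0 := by
  obtain ⟨Λ, hΛ⟩ := χ.bound
  exact χ.one_mem hΛ

theorem pow_mem {N : ℕ} {l : ℤ} {x : MvPolynomial (Fin 4) K} (hx : x ∈ χ.F N l) (c : ℕ) :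
    x ^ c ∈ χ.F (c * N) (c * l) := by
  induction c with
  | zero =>
    rw [pow_zero, zero_mul, Nat.cast_zero, zero_mul]
    exact χ.one_mem'
  | succ c ih =>
    rw [pow_succ, Nat.succ_mul]
    have e : ((c + 1 : ℕ) : ℤ) * l = c * l + l := by push_cast; ring
    rw [e]
    exact χ.mul _ _ _ _ _ ih _ hx

theorem prod_mem {ι : Type} (s : Finset ι) (d : ι → ℕ) (u : ι → ℤ)
    (x : ι → MvPolynomial (Fin 4) K) (hx : ∀ i ∈ s, x i ∈ χ.F (d i) (u i)) :
    ∏ i ∈ s, x i ∈ χ.F (∑ i ∈ s, d i) (∑ i ∈ s, u i) := by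
  classical
  induction s using Finset.induction_on with
  | empty =>
    rw [prod_empty, sum_empty, sum_empty]
    exact χ.one_mem'
  | insert a s ha ih =>
    rw [prod_insert ha, sum_insert ha, sum_insert ha]
    exact χ.mul _ _ _ _ _ (hx a (mem_insert_self _ _)) _
      (ih fun i hi => hx i (mem_insert_of_mem hi))

end QFilt

theorem QTestConf.ver_fg {γ : Gam T} (χ : QTestConf γ q D₀ r) (m : ℕ) (hm : 0 < m) :
    ∃ (k : ℕ) (n : Fin k → ℕ) (w : Fin k → ℤ) (f : Fin k → MvPolynomial (Fin 4) K),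
    (∀ i, f i ∈ χ.F (m * n i) (w i)) ∧
    ∀ N l, χ.F (m * N) l ≤ Submodule.span ℂ {g | ∃ a : Fin k → ℕ,
      ∑ i, a i * n i = N ∧ l ≤ ∑ i, a i * w i ∧ g = ∏ i, f i ^ a i} := by
  classical
  obtain ⟨k, n, w, f, hf, hspan⟩ := χ.fg
  let I : Type := Fin k ⊕ {b : Fin k → Fin m // m ∣ ∑ i, (b i : ℕ) * n i}
  let φ : Fin (Fintype.card I) ≃ I := (Fintype.equivFin I).symm
  let nI : I → ℕ := fun x => Sum.elim (fun i => n i) (fun b => (∑ i, (b.1 i : ℕ) * n i) / m) x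
  let wI : I → ℤ := fun x => Sum.elim (fun i => (m : ℤ) * w i)
    (fun b => ∑ i, ((b.1 i : ℕ) : ℤ) * w i) x
  let fI : I → MvPolynomial (Fin 4) K := fun x => Sum.elim (fun i => f i ^ m)
    (fun b => ∏ i, f i ^ (b.1 i : ℕ)) x
  have hfI : ∀ x, fI x ∈ χ.F (m * nI x) (wI x) := by
    intro x
    rcases x with i | b
    · exact χ.pow_mem (hf i) m
    · show ∏ i, f i ^ (b.1 i : ℕ) ∈ χ.F (m * ((∑ i, (b.1 i : ℕ) * n i) / m))
        (∑ i, ((b.1 i : ℕ) : ℤ) * w i)
      rw [Nat.mul_div_cancel' b.2]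
      exact χ.prod_mem univ _ _ _ fun i _ => χ.pow_mem (hf i) _
  refine ⟨Fintype.card I, fun a => nI (φ a), fun a => wI (φ a), fun a => fI (φ a),
    fun a => hfI (φ a), ?_⟩
  have hgen : ∀ x : I, fI x ∈ gspan (fun a => nI (φ a)) (fun a => wI (φ a))
      (fun a => fI (φ a)) (nI x) (wI x) := by
    intro x
    have h := gen_mem_gspan (n := fun a => nI (φ a)) (w := fun a => wI (φ a))
      (f := fun a => fI (φ a)) (φ.symm x)
    have hx : φ (φ.symm x) = x := φ.apply_symm_apply x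
    simp only [hx] at h
    exact h
  intro N l
  refine (hspan (m * N) l).trans ?_
  rw [Submodule.span_le]
  rintro _ ⟨a, h1, h2, rfl⟩
  have hlt : ∀ i, a i % m < m := fun i => Nat.mod_lt _ hm
  have hdvd : m ∣ ∑ i, (a i % m) * n i := by
    have e1 : ∑ i, a i * n i = m * ∑ i, (a i / m) * n i + ∑ i, (a i % m) * n i := by
      rw [mul_sum, ← sum_add_distrib]
      refine sum_congr rfl fun i _ => ?_
      conv_lhs => rw [← Nat.div_add_mod (a i) m]
      ring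
    rw [e1] at h1
    exact (Nat.dvd_add_right (Dvd.intro _ rfl)).1 (h1 ▸ Dvd.intro _ rfl)
  let b : {b : Fin k → Fin m // m ∣ ∑ i, (b i : ℕ) * n i} := ⟨fun i => ⟨a i % m, hlt i⟩, hdvd⟩
  have e2 : ∏ i, f i ^ a i = (∏ i, fI (Sum.inl i) ^ (a i / m)) * fI (Sum.inr b) := by
    show ∏ i, f i ^ a i = (∏ i, (f i ^ m) ^ (a i / m)) * ∏ i, f i ^ (a i % m)
    rw [← prod_mul_distrib]
    refine prod_congr rfl fun i _ => ?_
    rw [← pow_mul, ← pow_add, Nat.div_add_mod]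
  have h3 : (∏ i, fI (Sum.inl i) ^ (a i / m)) * fI (Sum.inr b) ∈
      gspan (fun a => nI (φ a)) (fun a => wI (φ a)) (fun a => fI (φ a))
        (∑ i, (a i / m) * nI (Sum.inl i) + nI (Sum.inr b))
        (∑ i, ((a i / m : ℕ) : ℤ) * wI (Sum.inl i) + wI (Sum.inr b)) :=
    gspan_mul (prod_mem_gspan univ _ _ _ fun i _ => pow_mem_gspan (hgen _) _) (hgen _)
  have e3 : ∑ i, (a i / m) * nI (Sum.inl i) + nI (Sum.inr b) = N := by
    show ∑ i, (a i / m) * n i + (∑ i, (a i % m) * n i) / m = N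
    have e1 : m * (∑ i, (a i / m) * n i + (∑ i, (a i % m) * n i) / m) = m * N := by
      rw [mul_add, Nat.mul_div_cancel' hdvd, ← h1, mul_sum, ← sum_add_distrib]
      refine sum_congr rfl fun i _ => ?_
      conv_rhs => rw [← Nat.div_add_mod (a i) m]
      ring
    exact Nat.eq_of_mul_eq_mul_left hm e1
  have e4 : ∑ i, ((a i / m : ℕ) : ℤ) * wI (Sum.inl i) + wI (Sum.inr b) = ∑ i, (a i : ℤ) * w i := by
    show ∑ i, ((a i / m : ℕ) : ℤ) * (m * w i) + ∑ i, ((a i % m : ℕ) : ℤ) * w i = _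
    rw [← sum_add_distrib]
    refine sum_congr rfl fun i _ => ?_
    have h5 : ((m * (a i / m) + a i % m : ℕ) : ℤ) = a i := by rw [Nat.div_add_mod]
    rw [← h5]
    push_cast
    ring
  rw [e3, e4] at h3
  show ∏ i, f i ^ a i ∈ gspan (fun a => nI (φ a)) (fun a => wI (φ a)) (fun a => fI (φ a)) N l
  rw [e2]
  exact gspan_anti h2 h3

/-- the Veronese -/
noncomputable def QTestConf.ver {γ : Gam T} (χ : QTestConf γ q D₀ r) (m : ℕ) (hm : 0 < m) :
    QTestConf γ q D₀ (r * m) where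
  F := fun N l => χ.F (m * N) l
  le := by
    intro N l
    rw [mul_assoc]
    exact χ.le (m * N) l
  anti := fun N l l' h => χ.anti (m * N) l l' h
  mul := by
    intro N N' l l' f hf g hg
    rw [mul_add]
    exact χ.mul _ _ _ _ f hf g hg
  bound := by
    obtain ⟨Λ, hΛ⟩ := χ.bound
    refine ⟨Λ * m, fun N => ?_⟩
    have := hΛ (m * N)
    push_cast at this ⊢
    rw [mul_assoc (Λ : ℤ), mul_assoc r]
    exact this
  fg := χ.ver_fg m hm

theorem QTestConf.ver_expansion {γ : Gam T} (χ : QTestConf γ q D₀ r) {m : ℕ} (hm : 0 < m)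
    {a₀ a₁ b₀ b₁ c₀ : ℝ} (h : χ.Expansion a₀ a₁ b₀ b₁ c₀) :
    (χ.ver m hm).Expansion (a₀ * m ^ 4) (a₁ * m ^ 3) (b₀ * m ^ 5) (b₁ * m ^ 4)
      (c₀ * m ^ 6) := by
  have ht : Tendsto (fun N : ℕ => m * N) atTop atTop :=
    tendsto_atTop_mono (fun N => Nat.le_mul_of_pos_left N hm) tendsto_id
  have hdim : ∀ N, (χ.ver m hm).dimN N = χ.dimN (m * N) := by
    intro N
    unfold QFilt.dimN
    rw [mul_assoc]
  have htr : ∀ p N, (χ.ver m hm).tr p N = χ.tr p (m * N) := fun _ _ => rfl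
  obtain ⟨⟨C₁, h₁⟩, ⟨C₂, h₂⟩, ⟨C₃, h₃⟩⟩ := h
  refine ⟨⟨C₁ * m ^ 2, ?_⟩, ⟨C₂ * m ^ 3, ?_⟩, ⟨C₃ * m ^ 5, ?_⟩⟩
  · filter_upwards [ht.eventually h₁] with N hN
    rw [hdim]
    push_cast at hN
    have e1 : a₀ * (m : ℝ) ^ 4 * N ^ 4 + a₁ * m ^ 3 * N ^ 3 =
      a₀ * (m * N) ^ 4 + a₁ * (m * N) ^ 3 := by ring
    have e2 : C₁ * (m : ℝ) ^ 2 * N ^ 2 = C₁ * (m * N) ^ 2 := by ring
    rw [e1, e2]
    exact hN
  · filter_upwards [ht.eventually h₂] with N hN
    rw [htr]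
    push_cast at hN
    have e1 : b₀ * (m : ℝ) ^ 5 * N ^ 5 + b₁ * m ^ 4 * N ^ 4 =
      b₀ * (m * N) ^ 5 + b₁ * (m * N) ^ 4 := by ring
    have e2 : C₂ * (m : ℝ) ^ 3 * N ^ 3 = C₂ * (m * N) ^ 3 := by ring
    rw [e1, e2]
    exact hN
  · filter_upwards [ht.eventually h₃] with N hN
    rw [htr]
    push_cast at hN
    have e1 : c₀ * (m : ℝ) ^ 6 * N ^ 6 = c₀ * (m * N) ^ 6 := by ring
    have e2 : C₃ * (m : ℝ) ^ 5 * N ^ 5 = C₃ * (m * N) ^ 5 := by ring
    rw [e1, e2]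
    exact hN

/-! ### Non-zero sections -/

theorem CurveOrd.exists_ne_zero_of_loc {X : CurveOrd K} {V : Type} [AddCommGroup V] [Module K V]
    [Module ℂ V] [IsScalarTower ℂ K V] {P : X.Pt} {U : Submodule ℂ V} {f : V}
    (hf : f ∈ X.loc P U) (h0 : f ≠ 0) : ∃ u ∈ U, u ≠ 0 := by
  by_contra hcon
  push Not at hcon
  apply h0
  have h : X.loc P U ≤ ⊥ := by
    unfold CurveOrd.loc
    rw [Submodule.span_le]
    intro u hu
    exact hcon u hu
  exact (Submodule.mem_bot _).1 (h hf)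

theorem Datum.exists_sec_ne_zero (T : Datum K) {q : ℕ} {D₀ : T.X.Pt →₀ ℤ} {N : ℕ}
    (hD : 18 * (T.t : ℤ) + 2 ≤ N * T.X.deg D₀) : ∃ f ∈ T.sec q D₀ N, f ≠ 0 := by
  have h0 : 2 * (T.X.genus : ℤ) ≤ T.X.deg (T.dvs q D₀ N 0) := by
    rw [deg_dvs, T.genus_eq]
    have h1 : max 0 ((0 : ℤ) - 4 * q * N) = 0 := max_eq_left (by
      have : (0 : ℤ) ≤ 4 * q * N := by positivity
      linarith)
    have h2 : max 0 (-(0 : ℤ) - 4 * q * N) = 0 := max_eq_left (by
      have : (0 : ℤ) ≤ 4 * q * N := by positivity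
      linarith)
    rw [h1, h2]
    push_cast
    linarith
  obtain ⟨z, hz, hz0⟩ := Submodule.exists_mem_ne_zero_of_ne_bot (T.X.L_ne_bot h0)
  have hj : |(0 : ℤ)| ≤ 5 * q * N := by
    rw [abs_zero]
    positivity
  have hi : (⟨0, (0, 0)⟩ : (_ : ℤ) × (ℕ × ℕ)) ∈ idx q N :=
    mem_idx.2 ⟨hj, Nat.zero_le _, Nat.zero_le _⟩
  refine ⟨monomial (uexpo q N ⟨0, (0, 0)⟩) z, ?_, ?_⟩
  · rw [sec_eq_bigr]
    exact monomial_mem_bigr hj (expo_x hi) (expo_y hi) hz
  · rw [Ne, monomial_eq_zero]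
    exact hz0

end Pool.Agent.YTD


end

/- source: Pool.Agent.YTD.SatK1 -/

section

/-!
Finite generation of the invariants of an involution acting on a finitely generated filtration.
-/

namespace Pool.Agent.YTD

open Finset Module MvPolynomial Filter

variable {K : Type} [Field K] [Algebra ℂ K]

/-- A multiplicative decreasing family of subspaces which contains the generators contains the
spans of the products of the generators. -/
theorem gspan_le {k : ℕ} {n : Fin k → ℕ} {w : Fin k → ℤ} {f : Fin k → MvPolynomial (Fin 4) K}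
    (R : ℕ → ℤ → Submodule ℂ (MvPolynomial (Fin 4) K)) (h1 : (1 : MvPolynomial (Fin 4) K) ∈ R 0 0)
    (hanti : ∀ N l l', l ≤ l' → R N l' ≤ R N l)
    (hmul : ∀ N N' l l', ∀ x ∈ R N l, ∀ y ∈ R N' l', x * y ∈ R (N + N') (l + l'))
    (hf : ∀ i, f i ∈ R (n i) (w i)) (N : ℕ) (l : ℤ) : gspan n w f N l ≤ R N l := by
  classical
  unfold gspan
  rw [Submodule.span_le]
  rintro _ ⟨m, e1, e2, rfl⟩
  have hpow : ∀ i (c : ℕ), f i ^ c ∈ R (c * n i) (c * w i) := by
    intro i c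
    induction c with
    | zero =>
      rw [pow_zero, zero_mul, Nat.cast_zero, zero_mul]
      exact h1
    | succ c ih =>
      rw [pow_succ, Nat.succ_mul]
      have e : ((c + 1 : ℕ) : ℤ) * w i = c * w i + w i := by push_cast; ring
      rw [e]
      exact hmul _ _ _ _ _ ih _ (hf i)
  have hprod : ∀ s : Finset (Fin k), ∏ i ∈ s, f i ^ m i ∈ R (∑ i ∈ s, m i * n i)
      (∑ i ∈ s, (m i : ℤ) * w i) := by
    intro s
    induction s using Finset.induction_on with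
    | empty =>
      rw [prod_empty, sum_empty, sum_empty]
      exact h1
    | insert a s ha ih =>
      rw [prod_insert ha, sum_insert ha, sum_insert ha]
      exact hmul _ _ _ _ _ (hpow a (m a)) _ ih
  have h := hprod univ
  rw [e1] at h
  exact hanti _ _ _ e2 h

/-- Finite generation of the invariants of an involution. -/
theorem fg_inv (F F' : ℕ → ℤ → Submodule ℂ (MvPolynomial (Fin 4) K)) (E : Autom K)
    (hE : ∀ N l, ∀ x ∈ F N l, E x ∈ F N l) (hEE : ∀ N l, ∀ x ∈ F N l, E (E x) = x)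
    (hF' : ∀ N l x, x ∈ F' N l ↔ x ∈ F N l ∧ E x = x)
    (hmul : ∀ N N' l l', ∀ x ∈ F N l, ∀ y ∈ F N' l', x * y ∈ F (N + N') (l + l'))
    (hfg : ∃ (k : ℕ) (n : Fin k → ℕ) (w : Fin k → ℤ) (f : Fin k → MvPolynomial (Fin 4) K),
      (∀ i, f i ∈ F (n i) (w i)) ∧
      ∀ N l, F N l ≤ Submodule.span ℂ {g | ∃ m : Fin k → ℕ,
        ∑ i, m i * n i = N ∧ l ≤ ∑ i, m i * w i ∧ g = ∏ i, f i ^ m i}) :
    ∃ (k : ℕ) (n : Fin k → ℕ) (w : Fin k → ℤ) (f : Fin k → MvPolynomial (Fin 4) K),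
      (∀ i, f i ∈ F' (n i) (w i)) ∧
      ∀ N l, F' N l ≤ Submodule.span ℂ {g | ∃ m : Fin k → ℕ,
        ∑ i, m i * n i = N ∧ l ≤ ∑ i, m i * w i ∧ g = ∏ i, f i ^ m i} := by
  classical
  obtain ⟨k, n, w, f, hf, hspan⟩ := hfg
  -- the even and odd parts of the generators
  let a : Fin k → MvPolynomial (Fin 4) K := fun i => (1 / 2 : ℂ) • (f i + E (f i))
  let b : Fin k → MvPolynomial (Fin 4) K := fun i => (1 / 2 : ℂ) • (f i - E (f i))
  have hab : ∀ i, f i = a i + b i := by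
    intro i
    show f i = (1 / 2 : ℂ) • (f i + E (f i)) + (1 / 2 : ℂ) • (f i - E (f i))
    rw [← smul_add, add_add_sub_cancel, ← two_smul ℂ (f i), smul_smul]
    norm_num
  have haF : ∀ i, a i ∈ F (n i) (w i) := fun i =>
    Submodule.smul_mem _ _ (add_mem (hf i) (hE _ _ _ (hf i)))
  have hbF : ∀ i, b i ∈ F (n i) (w i) := fun i =>
    Submodule.smul_mem _ _ (sub_mem (hf i) (hE _ _ _ (hf i)))
  have haE : ∀ i, E (a i) = a i := by
    intro i
    show E ((1 / 2 : ℂ) • (f i + E (f i))) = (1 / 2 : ℂ) • (f i + E (f i))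
    rw [map_smul, map_add, hEE _ _ _ (hf i), add_comm]
  have hbE : ∀ i, E (b i) = -b i := by
    intro i
    show E ((1 / 2 : ℂ) • (f i - E (f i))) = -((1 / 2 : ℂ) • (f i - E (f i)))
    rw [map_smul, map_sub, hEE _ _ _ (hf i), ← smul_neg, neg_sub]
  let I : Type := Fin k ⊕ (Fin k × Fin k)
  let φ : Fin (Fintype.card I) ≃ I := (Fintype.equivFin I).symm
  let nI : I → ℕ := Sum.elim (fun i => n i) (fun p => n p.1 + n p.2)
  let wI : I → ℤ := Sum.elim (fun i => w i) (fun p => w p.1 + w p.2)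
  let fI : I → MvPolynomial (Fin 4) K := Sum.elim (fun i => a i) (fun p => b p.1 * b p.2)
  have hfI : ∀ x, fI x ∈ F' (nI x) (wI x) := by
    intro x
    rw [hF']
    rcases x with i | p
    · exact ⟨haF i, haE i⟩
    · refine ⟨hmul _ _ _ _ _ (hbF p.1) _ (hbF p.2), ?_⟩
      show E (b p.1 * b p.2) = b p.1 * b p.2
      rw [map_mul, hbE, hbE, neg_mul_neg]
  refine ⟨Fintype.card I, fun x => nI (φ x), fun x => wI (φ x), fun x => fI (φ x),
    fun x => hfI (φ x), ?_⟩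
  set G : ℕ → ℤ → Submodule ℂ (MvPolynomial (Fin 4) K) :=
    gspan (fun x => nI (φ x)) (fun x => wI (φ x)) (fun x => fI (φ x)) with hG
  have hgen : ∀ x : I, fI x ∈ G (nI x) (wI x) := by
    intro x
    have h := gen_mem_gspan (n := fun a => nI (φ a)) (w := fun a => wI (φ a))
      (f := fun a => fI (φ a)) (φ.symm x)
    have hx : φ (φ.symm x) = x := φ.apply_symm_apply x
    simp only [hx] at h
    exact h
  have hGE : ∀ N l, ∀ x ∈ G N l, E x = x := by
    intro N l x hx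
    rw [hG] at hx
    unfold gspan at hx
    induction hx using Submodule.span_induction with
    | mem x h =>
      obtain ⟨m, _, _, rfl⟩ := h
      rw [map_prod]
      refine prod_congr rfl fun i _ => ?_
      rw [map_pow, ((hF' _ _ _).1 (hfI (φ i))).2]
    | zero => rw [map_zero]
    | add x y _ _ hx hy => rw [map_add, hx, hy]
    | smul c x _ hx => rw [map_smul, hx]
  let H : ℕ → ℤ → Submodule ℂ (MvPolynomial (Fin 4) K) := fun N l =>
    Submodule.span ℂ {y | ∃ (i : Fin k) (N' : ℕ) (l' : ℤ), N = N' + n i ∧ l ≤ l' + w i ∧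
      ∃ g ∈ G N' l', y = b i * g}
  have hHE : ∀ N l, ∀ x ∈ H N l, E x = -x := by
    intro N l x hx
    induction hx using Submodule.span_induction with
    | mem x h =>
      obtain ⟨i, N', l', _, _, g, hg, rfl⟩ := h
      rw [map_mul, hbE, hGE _ _ _ hg, neg_mul]
    | zero => rw [map_zero, neg_zero]
    | add x y _ _ hx hy => rw [map_add, hx, hy, neg_add]
    | smul c x _ hx => rw [map_smul, hx, smul_neg]
  have hGanti : ∀ N l l', l ≤ l' → G N l' ≤ G N l := fun N l l' h => gspan_anti h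
  have hHanti : ∀ N l l', l ≤ l' → H N l' ≤ H N l := by
    intro N l l' h
    apply Submodule.span_mono
    rintro _ ⟨i, N', l'', e1, e2, g, hg, rfl⟩
    exact ⟨i, N', l'', e1, h.trans e2, g, hg, rfl⟩
  have hGG : ∀ N N' l l', G N l * G N' l' ≤ G (N + N') (l + l') := by
    intro N N' l l'
    rw [Submodule.mul_le]
    intro x hx y hy
    exact gspan_mul hx hy
  have hHG : ∀ N N' l l', H N l * G N' l' ≤ H (N + N') (l + l') := by
    intro N N' l l'
    rw [Submodule.mul_le]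
    intro x hx y hy
    induction hx using Submodule.span_induction with
    | mem x h =>
      obtain ⟨i, M, l'', e1, e2, g, hg, rfl⟩ := h
      apply Submodule.subset_span
      refine ⟨i, M + N', l'' + l', by omega, by omega, g * y, gspan_mul hg hy, ?_⟩
      rw [mul_assoc]
    | zero => rw [zero_mul]; exact zero_mem _
    | add x x' _ _ hx hx' => rw [add_mul]; exact add_mem hx hx'
    | smul c x _ hx => rw [smul_mul_assoc]; exact Submodule.smul_mem _ _ hx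
  have hHH : ∀ N N' l l', H N l * H N' l' ≤ G (N + N') (l + l') := by
    intro N N' l l'
    show Submodule.span ℂ _ * Submodule.span ℂ _ ≤ _
    rw [Submodule.span_mul_span, Submodule.span_le]
    rintro _ ⟨_, ⟨i, M, u, e1, e2, g, hg, rfl⟩, _, ⟨i', M', u', e1', e2', g', hg', rfl⟩, rfl⟩
    have e : b i * g * (b i' * g') = fI (Sum.inr (i, i')) * (g * g') := by
      show b i * g * (b i' * g') = (b i * b i') * (g * g')
      ring
    have h1 : fI (Sum.inr (i, i')) * (g * g') ∈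
        G (nI (Sum.inr (i, i')) + (M + M')) (wI (Sum.inr (i, i')) + (u + u')) :=
      gspan_mul (hgen _) (gspan_mul hg hg')
    show b i * g * (b i' * g') ∈ G (N + N') (l + l')
    rw [e]
    have e3 : nI (Sum.inr (i, i')) + (M + M') = N + N' := by
      show n i + n i' + (M + M') = N + N'
      omega
    rw [e3] at h1
    refine hGanti _ _ _ ?_ h1
    show l + l' ≤ w i + w i' + (u + u')
    omega
  -- every element is the sum of an even and of an odd element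
  have hR := gspan_le (n := n) (w := w) (f := f) (fun N l => G N l ⊔ H N l)
    (Submodule.mem_sup_left one_mem_gspan)
    (fun N l l' h => sup_le_sup (hGanti N l l' h) (hHanti N l l' h))
    (by
      intro N N' l l' x hx y hy
      obtain ⟨x₁, hx₁, x₂, hx₂, rfl⟩ := Submodule.mem_sup.1 hx
      obtain ⟨y₁, hy₁, y₂, hy₂, rfl⟩ := Submodule.mem_sup.1 hy
      have e : (x₁ + x₂) * (y₁ + y₂) = (x₁ * y₁ + x₂ * y₂) + (x₂ * y₁ + y₂ * x₁) := by ring
      rw [e]
      apply Submodule.add_mem_sup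
      · exact add_mem (hGG _ _ _ _ (Submodule.mul_mem_mul hx₁ hy₁))
          (hHH _ _ _ _ (Submodule.mul_mem_mul hx₂ hy₂))
      · refine add_mem (hHG _ _ _ _ (Submodule.mul_mem_mul hx₂ hy₁)) ?_
        have := hHG _ _ _ _ (Submodule.mul_mem_mul hy₂ hx₁)
        rwa [add_comm N' N, add_comm l' l] at this)
    (by
      intro i
      show f i ∈ G (n i) (w i) ⊔ H (n i) (w i)
      rw [hab i]
      apply Submodule.add_mem_sup
      · exact hgen (Sum.inl i)
      · apply Submodule.subset_span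
        exact ⟨i, 0, 0, by omega, by omega, 1, one_mem_gspan, by rw [mul_one]⟩)
  intro N l x hx
  obtain ⟨hxF, hxE⟩ := (hF' _ _ _).1 hx
  have h1 : x ∈ gspan n w f N l := hspan N l hxF
  obtain ⟨g, hg, h, hh, rfl⟩ := Submodule.mem_sup.1 (hR N l h1)
  have h2 : h = 0 := by
    have h3 : g + -h = g + h := by
      rw [map_add, hGE _ _ _ hg, hHE _ _ _ hh] at hxE
      exact hxE
    have h4 : -h = h := add_left_cancel h3
    have h5 : (2 : ℂ) • h = 0 := by
      rw [two_smul]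
      nth_rewrite 1 [← h4]
      rw [neg_add_cancel]
    rcases smul_eq_zero.1 h5 with h6 | h6
    · norm_num at h6
    · exact h6
  rw [h2, add_zero]
  exact hg

end Pool.Agent.YTD


end

/- source: Pool.Agent.YTD.SatK2 -/

section

/-!
The test configuration of the quotient given by a `Γ`-invariant test configuration.
-/

namespace Pool.Agent.YTD

open Finset Module MvPolynomial Filter

variable {K : Type} [Field K] [Algebra ℂ K]
variable {T : Datum K} {q : ℕ} {D₀ : T.X.Pt →₀ ℤ} {r : ℕ}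

/-- The test configuration of the quotient: the invariants of a `Γ`-invariant test
configuration. -/
noncomputable def TestConf.quot (χ : TestConf T q D₀ r) {γ : Gam T} (h : χ.GamInv γ) :
    QTestConf γ q D₀ r where
  F := fun N l => χ.F N l ⊓ γ.secQ q D₀ (r * N)
  le := fun _ _ => inf_le_right
  anti := fun N l l' hl => inf_le_inf_right _ (χ.anti N l l' hl)
  mul := by
    rintro N N' l l' f ⟨hf, hf'⟩ g ⟨hg, hg'⟩
    have h1 := χ.mul N N' l l' f hf g hg
    refine ⟨h1, χ.le _ _ h1, ?_, ?_, ?_⟩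
    · rw [map_mul, hf'.2.1, hg'.2.1]
    · rw [map_mul, hf'.2.2.1, hg'.2.2.1]
    · rw [map_mul, hf'.2.2.2, hg'.2.2.2]
  bound := by
    obtain ⟨Λ, hΛ⟩ := χ.bound
    refine ⟨Λ, fun N => ⟨?_, ?_⟩⟩
    · show χ.F N (-(Λ * N)) ⊓ γ.secQ q D₀ (r * N) = γ.secQ q D₀ (r * N)
      rw [(hΛ N).1]
      exact inf_eq_right.2 (γ.secQ_le q D₀ (r * N))
    · show χ.F N (Λ * N + 1) ⊓ γ.secQ q D₀ (r * N) = ⊥
      rw [(hΛ N).2, bot_inf_eq]
  fg := by
    let F₁ : ℕ → ℤ → Submodule ℂ (MvPolynomial (Fin 4) K) := fun N l =>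
      χ.F N l ⊓ LinearMap.eqLocus (γ.E₁.toLinearMap) LinearMap.id
    let F₂ : ℕ → ℤ → Submodule ℂ (MvPolynomial (Fin 4) K) := fun N l =>
      F₁ N l ⊓ LinearMap.eqLocus (γ.E₂.toLinearMap) LinearMap.id
    have m₁ : ∀ N l x, x ∈ F₁ N l ↔ x ∈ χ.F N l ∧ γ.E₁ x = x := fun N l x => Iff.rfl
    have m₂ : ∀ N l x, x ∈ F₂ N l ↔ x ∈ F₁ N l ∧ γ.E₂ x = x := fun N l x => Iff.rfl
    have m₃ : ∀ N l x, x ∈ χ.F N l ⊓ γ.secQ q D₀ (r * N) ↔ x ∈ F₂ N l ∧ γ.tauE x = x := by
      intro N l x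
      rw [m₂, m₁, Submodule.mem_inf, Gam.mem_secQ]
      constructor
      · rintro ⟨h1, _, h2, h3, h4⟩
        exact ⟨⟨⟨h1, h2⟩, h3⟩, h4⟩
      · rintro ⟨⟨⟨h1, h2⟩, h3⟩, h4⟩
        exact ⟨h1, χ.le _ _ h1, h2, h3, h4⟩
    have f₁ := fg_inv χ.F F₁ γ.E₁ h.E₁ (fun _ _ x _ => γ.E₁_E₁ x) m₁ χ.mul χ.fg
    have f₂ := fg_inv F₁ F₂ γ.E₂ (fun N l x hx => (m₁ _ _ _).2 ⟨h.E₂ _ _ _ ((m₁ _ _ _).1 hx).1, by
        rw [γ.E₁_E₂' (evenDeg_of_sec (χ.le _ _ ((m₁ _ _ _).1 hx).1)), ((m₁ _ _ _).1 hx).2]⟩)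
      (fun _ _ x _ => γ.E₂_E₂ x) m₂ (fun N N' l l' x hx y hy =>
        (m₁ _ _ _).2 ⟨χ.mul _ _ _ _ _ ((m₁ _ _ _).1 hx).1 _ ((m₁ _ _ _).1 hy).1, by
          rw [map_mul, ((m₁ _ _ _).1 hx).2, ((m₁ _ _ _).1 hy).2]⟩) f₁
    exact fg_inv F₂ _ γ.tauE (fun N l x hx => by
        obtain ⟨h1, h2⟩ := (m₂ _ _ _).1 hx
        obtain ⟨h3, h4⟩ := (m₁ _ _ _).1 h1
        exact (m₂ _ _ _).2 ⟨(m₁ _ _ _).2 ⟨h.tau _ _ _ h3, by rw [γ.E₁_tauE, h4]⟩, by
          rw [γ.E₂_tauE, h2]⟩)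
      (fun _ _ x _ => γ.toInv.tauE_tauE x) m₃ (fun N N' l l' x hx y hy => by
        obtain ⟨h1, h2⟩ := (m₂ _ _ _).1 hx
        obtain ⟨h3, h4⟩ := (m₁ _ _ _).1 h1
        obtain ⟨h1', h2'⟩ := (m₂ _ _ _).1 hy
        obtain ⟨h3', h4'⟩ := (m₁ _ _ _).1 h1'
        exact (m₂ _ _ _).2 ⟨(m₁ _ _ _).2 ⟨χ.mul _ _ _ _ _ h3 _ h3', by rw [map_mul, h4, h4']⟩, by
          rw [map_mul, h2, h2']⟩) f₂

theorem TestConf.quot_F (χ : TestConf T q D₀ r) {γ : Gam T} (h : χ.GamInv γ) (N : ℕ) (l : ℤ) :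
    (χ.quot h).F N l = χ.F N l ⊓ γ.secQ q D₀ (r * N) := rfl

end Pool.Agent.YTD


end

/- source: Pool.Agent.YTD.SatI -/

section

/-!
Levelwise approximation of the saturated filtration by filtrations of small volume.
-/

namespace Pool.Agent.YTD

open Finset Module MvPolynomial Filter

variable {K : Type} [Field K] [Algebra ℂ K]
variable {T : Datum K} {q : ℕ} {D₀ : T.X.Pt →₀ ℤ} {r : ℕ}

/-! ### Semi-invariants -/

namespace Gam

variable {γ : Gam T}

/-- the projection to an isotypic component, up to a factor -/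
noncomputable def piE (γ : Gam T) (a b c : ℂ) (f : MvPolynomial (Fin 4) K) :
    MvPolynomial (Fin 4) K :=
  ((f + a • γ.E₁ f) + b • γ.E₂ (f + a • γ.E₁ f)) +
    c • γ.tauE ((f + a • γ.E₁ f) + b • γ.E₂ (f + a • γ.E₁ f))

theorem piE_eq (a b c : ℂ) (f : MvPolynomial (Fin 4) K) : γ.piE a b c f =
    f + (a • γ.E₁ f + b • γ.E₂ f + (b * a) • γ.E₂ (γ.E₁ f) +
    c • γ.tauE f + (c * a) • γ.tauE (γ.E₁ f) + (c * b) • γ.tauE (γ.E₂ f) +
      (c * (b * a)) • γ.tauE (γ.E₂ (γ.E₁ f))) := by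
  unfold piE
  simp only [map_add, map_smul, smul_add, smul_smul]
  ring

theorem sum_piE (f : MvPolynomial (Fin 4) K) :
    γ.piE 1 1 1 f + γ.piE 1 1 (-1) f + γ.piE 1 (-1) 1 f + γ.piE 1 (-1) (-1) f +
    γ.piE (-1) 1 1 f + γ.piE (-1) 1 (-1) f + γ.piE (-1) (-1) 1 f + γ.piE (-1) (-1) (-1) f =
      (8 : ℂ) • f := by
  simp only [piE_eq]
  module

theorem evenDeg_add {f g : MvPolynomial (Fin 4) K} (hf : EvenDeg f) (hg : EvenDeg g) :
    EvenDeg (f + g) := by
  intro e he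
  by_cases h : f.coeff e = 0
  · apply hg e
    intro h3
    apply he
    rw [coeff_add, h, h3, add_zero]
  · exact hf e h

theorem evenDeg_smul {f : MvPolynomial (Fin 4) K} (hf : EvenDeg f) (c : ℂ) :
    EvenDeg (c • f) := by
  intro e he
  apply hf e
  intro h
  apply he
  rw [coeff_smul, h, smul_zero]

theorem E₁_piE {a : ℂ} (ha : a * a = 1) (b c : ℂ) {f : MvPolynomial (Fin 4) K}
    (hf : EvenDeg f) : γ.E₁ (γ.piE a b c f) = a • γ.piE a b c f := by
  have h1 : γ.E₁ (f + a • γ.E₁ f) = a • (f + a • γ.E₁ f) := by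
    rw [map_add, map_smul, γ.E₁_E₁, smul_add, smul_smul, ha, one_smul, add_comm]
  have h2 : EvenDeg (f + a • γ.E₁ f) := evenDeg_add hf (evenDeg_smul (γ.evenDeg_E₁ hf) a)
  have h3 : γ.E₁ ((f + a • γ.E₁ f) + b • γ.E₂ (f + a • γ.E₁ f)) =
      a • ((f + a • γ.E₁ f) + b • γ.E₂ (f + a • γ.E₁ f)) := by
    rw [map_add, map_smul, h1, γ.E₁_E₂' h2, h1, map_smul]
    module
  unfold piE
  rw [map_add, map_smul, γ.E₁_tauE, h3, map_smul]
  module

theorem E₂_piE (a : ℂ) {b : ℂ} (hb : b * b = 1) (c : ℂ) (f : MvPolynomial (Fin 4) K) :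
    γ.E₂ (γ.piE a b c f) = b • γ.piE a b c f := by
  have h3 : γ.E₂ ((f + a • γ.E₁ f) + b • γ.E₂ (f + a • γ.E₁ f)) =
      b • ((f + a • γ.E₁ f) + b • γ.E₂ (f + a • γ.E₁ f)) := by
    generalize f + a • γ.E₁ f = A
    rw [map_add, map_smul, γ.E₂_E₂, smul_add, smul_smul, hb, one_smul, add_comm]
  unfold piE
  rw [map_add, map_smul, γ.E₂_tauE, h3, map_smul]
  module

theorem tauE_piE (a b : ℂ) {c : ℂ} (hc : c * c = 1) (f : MvPolynomial (Fin 4) K) :
    γ.tauE (γ.piE a b c f) = c • γ.piE a b c f := by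
  unfold piE
  generalize (f + a • γ.E₁ f) + b • γ.E₂ (f + a • γ.E₁ f) = A
  rw [map_add, map_smul, γ.toInv.tauE_tauE, smul_add, smul_smul, hc, one_smul, add_comm]

/-- multiplication by a semi-invariant -/
theorem av_mul {a b c : ℂ} {g : MvPolynomial (Fin 4) K} (h1 : γ.E₁ g = a • g)
    (h2 : γ.E₂ g = b • g) (h3 : γ.tauE g = c • g) (f : MvPolynomial (Fin 4) K) :
    γ.av (f * g) = γ.piE a b c f * g := by
  rw [av_eq, piE_eq]
  simp only [map_mul, h1, h2, h3, map_smul]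
  simp only [Algebra.smul_def, map_mul]
  ring

theorem av_mul_fixed {g : MvPolynomial (Fin 4) K} (h1 : γ.E₁ g = g)
    (h2 : γ.E₂ g = g) (h3 : γ.tauE g = g) (f : MvPolynomial (Fin 4) K) :
    γ.av (g * f) = g * γ.av f := by
  rw [av_eq, av_eq]
  simp only [map_mul, h1, h2, h3]
  ring

theorem av_add (f g : MvPolynomial (Fin 4) K) : γ.av (f + g) = γ.av f + γ.av g := by
  rw [av_eq, av_eq, av_eq]
  simp only [map_add]
  ring

theorem av_smul (c : ℂ) (f : MvPolynomial (Fin 4) K) : γ.av (c • f) = c • γ.av f := by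
  rw [av_eq, av_eq]
  simp only [map_smul, smul_add]

theorem av_fixed {g : MvPolynomial (Fin 4) K} (h1 : γ.E₁ g = g)
    (h2 : γ.E₂ g = g) (h3 : γ.tauE g = g) : γ.av g = (8 : ℂ) • g := by
  rw [av_eq, h1, h2, h3]
  module

theorem av_mem_secQ (hfix : γ.Fixes D₀) {N : ℕ} {f : MvPolynomial (Fin 4) K}
    (hf : f ∈ T.sec q D₀ N) : γ.av f ∈ γ.secQ q D₀ N := by
  have p1 := fun {g : MvPolynomial (Fin 4) K} (hg : g ∈ T.sec q D₀ N) =>
    (pres_E₁ hfix (q := q)).mem hg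
  have p2 := fun {g : MvPolynomial (Fin 4) K} (hg : g ∈ T.sec q D₀ N) =>
    (pres_E₂ hfix (q := q)).mem hg
  have p3 := fun {g : MvPolynomial (Fin 4) K} (hg : g ∈ T.sec q D₀ N) =>
    (pres_tauE hfix (q := q)).mem hg
  refine ⟨?_, E₁_av (evenDeg_of_sec hf), E₂_av f, tauE_av f⟩
  unfold av
  have h1 := add_mem hf (p1 hf)
  have h2 := add_mem h1 (p2 h1)
  exact add_mem h2 (p3 h2)

/-- Semi-invariant sections of every character. -/
theorem exists_semi_sec (hfix : γ.Fixes D₀) {N : ℕ}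
    (hdeg : 2 * (T.X.genus : ℤ) + 7 ≤ T.X.deg (T.dvs q D₀ N 0))
    {a b c : ℂ} (ha : a * a = 1) (hb : b * b = 1) (hc : c * c = 1) :
    ∃ g ∈ T.sec q D₀ N, g ≠ 0 ∧ γ.E₁ g = a • g ∧ γ.E₂ g = b • g ∧ γ.tauE g = c • g := by
  classical
  obtain ⟨P⟩ := T.exists_pt
  set B : Finset T.X.Pt := {γ.σ₁ P, γ.σ₂ P, γ.σ₁ (γ.σ₂ P), γ.σ P, γ.σ₁ (γ.σ P), γ.σ₂ (γ.σ P),
    γ.σ₁ (γ.σ₂ (γ.σ P))} with hB
  have hPB : P ∉ B := by
    rw [hB]
    simp only [Finset.mem_insert, Finset.mem_singleton, not_or]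
    refine ⟨(γ.free₁ P).symm, (γ.free₂ P).symm, (γ.free₁₂ P).symm, (γ.free P).symm, ?_, ?_, ?_⟩
    · rw [← γ.σcomm₁]
      exact (γ.free₀₁ P).symm
    · rw [← γ.σcomm₂]
      exact (γ.free₀₂ P).symm
    · rw [← γ.σcomm₂, ← γ.σcomm₁]
      exact (γ.free₀₁₂ P).symm
  have hBcard : B.card ≤ 7 :=
    (Finset.card_insert_le _ _).trans (Nat.succ_le_succ Finset.card_le_six)
  set DB : T.X.Pt →₀ ℤ := ∑ Q ∈ B, Finsupp.single Q 1 with hDB
  have hDBd : T.X.deg DB ≤ 7 := by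
    rw [hDB, T.X.deg_sum]
    simp only [T.X.deg_single, Finset.sum_const, nsmul_eq_mul, mul_one]
    exact_mod_cast hBcard
  have hDBa : ∀ Q, DB Q = if Q ∈ B then 1 else 0 := by
    intro Q
    rw [hDB, Finsupp.finsetSum_apply]
    simp only [Finsupp.single_apply]
    rw [Finset.sum_ite_eq' B Q]
  obtain ⟨w, hw, hw0, hw1⟩ := T.X.exists_ord_eq P (D := T.dvs q D₀ N 0 - DB) (by
    rw [T.X.deg_sub]
    linarith) P
  rw [Finsupp.sub_apply, hDBa, if_neg hPB, sub_zero] at hw1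
  set d : T.X.Pt → ℤ := fun Q => if Q ∈ B then 1 else 0 with hd
  have hd0 : ∀ Q, 0 ≤ d Q := by
    intro Q
    rw [hd]
    dsimp only
    split_ifs <;> norm_num
  set p : ℤ → Prop := fun _ => True with hp
  have hp' : ∀ j, p j → p (-j) := fun _ _ => trivial
  have hcw : w ∈ T.PV q D₀ N p d 0 := by
    rw [Datum.mem_PV]
    intro h0
    refine ⟨trivial, fun Q => ?_⟩
    have h7 := hw h0 Q
    rw [Finsupp.sub_apply, hDBa] at h7
    rw [hd]
    dsimp only
    linarith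
  set e : Fin 4 →₀ ℕ := Finsupp.equivFunOnFinite.symm ![25 * q * N, 0, 25 * q * N, 0] with he
  have e0 : e 0 = 25 * q * N := rfl
  have e1 : e 1 = 0 := rfl
  have e2 : e 2 = 25 * q * N := rfl
  have e3 : e 3 = 0 := rfl
  set h : MvPolynomial (Fin 4) K := monomial e w with hh
  have hmem : h ∈ bigr q N (T.PV q D₀ N p d) := monomial_mem_bigr (j := 0)
    (by rw [abs_zero]; positivity) (by rw [e0, e1]; push_cast; ring)
    (by rw [e2, e3]; push_cast; ring) hcw
  have hvan : ∀ {d' : T.X.Pt → ℤ} {g : MvPolynomial (Fin 4) K} (x : ℂ), (∀ Q, 0 ≤ d' Q) →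
      1 ≤ d' P → g ∈ bigr q N (T.PV q D₀ N p d') →
      x • g ∈ bigr q N (T.PV q D₀ N p (delta P)) := by
    intro d' g x hd' h1 hg
    apply Submodule.smul_mem
    refine bigr_mono (fun j _ => PV_mono ?_ j) hg
    intro Q
    unfold delta
    split_ifs with h6
    · rw [h6]
      exact h1
    · exact hd' Q
  have t1 := γ.E₁_mem_PV hfix hmem
  have t2 := γ.E₂_mem_PV hfix hmem
  have t12 := γ.E₂_mem_PV hfix t1
  have t0 := γ.tauE_mem_PV hfix hp' hmem
  have t01 := γ.tauE_mem_PV hfix hp' t1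
  have t02 := γ.tauE_mem_PV hfix hp' t2
  have t012 := γ.tauE_mem_PV hfix hp' t12
  have hdB : ∀ Q, Q ∈ B → 1 ≤ d Q := by
    intro Q hQ
    rw [hd]
    dsimp only
    rw [if_pos hQ]
  have hBm : ∀ Q, (Q = γ.σ₁ P ∨ Q = γ.σ₂ P ∨ Q = γ.σ₁ (γ.σ₂ P) ∨ Q = γ.σ P ∨
      Q = γ.σ₁ (γ.σ P) ∨ Q = γ.σ₂ (γ.σ P) ∨ Q = γ.σ₁ (γ.σ₂ (γ.σ P))) → Q ∈ B := by
    intro Q hQ
    rw [hB]
    simpa only [Finset.mem_insert, Finset.mem_singleton] using hQ
  have hrest : a • γ.E₁ h + b • γ.E₂ h + (b * a) • γ.E₂ (γ.E₁ h) +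
      c • γ.tauE h + (c * a) • γ.tauE (γ.E₁ h) + (c * b) • γ.tauE (γ.E₂ h) +
      (c * (b * a)) • γ.tauE (γ.E₂ (γ.E₁ h)) ∈ bigr q N (T.PV q D₀ N p (delta P)) := by
    refine add_mem (add_mem (add_mem (add_mem (add_mem (add_mem
        (hvan _ (fun Q => hd0 _) ?_ t1) (hvan _ (fun Q => hd0 _) ?_ t2))
        (hvan _ (fun Q => hd0 _) ?_ t12))
        (hvan _ (fun Q => hd0 _) ?_ t0)) (hvan _ (fun Q => hd0 _) ?_ t01))
        (hvan _ (fun Q => hd0 _) ?_ t02)) (hvan _ (fun Q => hd0 _) ?_ t012)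
    all_goals
      apply hdB
      apply hBm
      simp
  have hsec : h ∈ T.sec q D₀ N := by
    rw [← T.secP_true, T.secP_eq]
    exact bigr_mono (fun j _ => PV_mono hd0 j) hmem
  refine ⟨γ.piE a b c h, ?_, ?_, E₁_piE ha b c (evenDeg_of_bigr hmem), E₂_piE a hb c h,
    tauE_piE a b hc h⟩
  · have p1 := fun {g : MvPolynomial (Fin 4) K} (hg : g ∈ T.sec q D₀ N) =>
      (pres_E₁ hfix (q := q)).mem hg
    have p2 := fun {g : MvPolynomial (Fin 4) K} (hg : g ∈ T.sec q D₀ N) =>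
      (pres_E₂ hfix (q := q)).mem hg
    have p3 := fun {g : MvPolynomial (Fin 4) K} (hg : g ∈ T.sec q D₀ N) =>
      (pres_tauE hfix (q := q)).mem hg
    unfold piE
    have h1 := add_mem hsec (Submodule.smul_mem _ a (p1 hsec))
    have h2 := add_mem h1 (Submodule.smul_mem _ b (p2 h1))
    exact add_mem h2 (Submodule.smul_mem _ c (p3 h2))
  · intro h0
    rw [piE_eq] at h0
    have h1 : h ∈ bigr q N (T.PV q D₀ N p (delta P)) := by
      rw [eq_neg_of_add_eq_zero_left h0]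
      exact neg_mem hrest
    have h2 : h.coeff e = w := by
      rw [hh, coeff_monomial, if_pos rfl]
    obtain ⟨j, g1, g2, g3, g4⟩ := h1 e (by rw [h2]; exact hw0)
    rw [h2, Datum.mem_PV] at g4
    have hj : j = 0 := by
      rw [e0, e1] at g2
      push_cast at g2
      linarith
    subst hj
    have := (g4 hw0).2 P
    unfold delta at this
    rw [if_pos rfl, hw1] at this
    linarith

end Gam

end Pool.Agent.YTD


end

/- source: Pool.Agent.YTD.SatI2 -/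

section

/-!
Levelwise approximation of the saturated filtration by filtrations of small volume: construction.
-/

namespace Pool.Agent.YTD

open Finset Module MvPolynomial Filter

variable {K : Type} [Field K] [Algebra ℂ K]
variable {T : Datum K} {q : ℕ} {D₀ : T.X.Pt →₀ ℤ} {r : ℕ}

/-- the naive multiples of `U` by functions in `L(D)` -/
noncomputable def CurveOrd.LD (X : CurveOrd K) (D : X.Pt →₀ ℤ) (U : Submodule ℂ (MvPolynomial (Fin 4) K)) :
    Submodule ℂ (MvPolynomial (Fin 4) K) :=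
  Submodule.span ℂ {f | ∃ z ∈ X.L D, ∃ u ∈ U, f = z • u}

/-- the average as a linear map -/
noncomputable def Gam.avL (γ : Gam T) :
    MvPolynomial (Fin 4) K →ₗ[ℂ] MvPolynomial (Fin 4) K where
  toFun := γ.av
  map_add' := Gam.av_add
  map_smul' := Gam.av_smul

theorem finite_sec (T : Datum K) (q : ℕ) (D₀ : T.X.Pt →₀ ℤ) (N : ℕ) :
    FiniteDimensional ℂ (T.sec q D₀ N) := by
  rw [sec_eq_bigr]
  exact finite_bigr _ _ _ (T.finite_V q D₀ N)

theorem Datum.sec_mul_mem (T : Datum K) {q : ℕ} {D₀ : T.X.Pt →₀ ℤ} {N N' : ℕ}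
    {f g : MvPolynomial (Fin 4) K} (hf : f ∈ T.sec q D₀ N) (hg : g ∈ T.sec q D₀ N') :
    f * g ∈ T.sec q D₀ (N + N') :=
  bigr_mul (fun _ _ _ _ _ ha _ hb => T.V_mul ha hb) hf hg

theorem one_mem_sec_zero (T : Datum K) (q : ℕ) (D₀ : T.X.Pt →₀ ℤ) :
    (1 : MvPolynomial (Fin 4) K) ∈ T.sec q D₀ 0 := by
  have h : (1 : MvPolynomial (Fin 4) K) = monomial 0 1 := rfl
  rw [h, sec_eq_bigr]
  refine monomial_mem_bigr (j := 0) (by simp) (by simp) (by simp) ?_
  intro _ P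
  have h5 : T.dvs q D₀ 0 0 = 0 := by
    unfold Datum.dvs
    simp
  rw [T.X.ord_one, h5]
  simp

namespace QFilt

variable {γ : Gam T} (χ : QFilt γ q D₀ r)

theorem one_mem_le {Λ : ℕ}
    (hΛ : ∀ N : ℕ, χ.F N (-(Λ * N)) = γ.secQ q D₀ (r * N) ∧ χ.F N (Λ * N + 1) = ⊥)
    {l : ℤ} (hl : l ≤ 0) : (1 : MvPolynomial (Fin 4) K) ∈ χ.F 0 l := by
  have h1 := (hΛ 0).1
  rw [mul_zero, γ.secQ_zero, Nat.cast_zero, mul_zero, neg_zero] at h1
  apply χ.anti 0 l 0 hl
  rw [h1]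
  exact one_mem_sec_zero T q D₀

/-- The filtration generated by `χ` and by all sections in weight `-Λ`. -/
noncomputable def F2 (Λ : ℕ) (M : ℕ) (l : ℤ) : Submodule ℂ (MvPolynomial (Fin 4) K) :=
  Submodule.span ℂ {x | ∃ (M₁ d : ℕ), M₁ + d = M ∧ ∃ f ∈ χ.F M₁ (l + Λ * d),
    ∃ g ∈ T.sec q D₀ (r * d), x = f * g}

variable {χ} {Λ : ℕ}

theorem F2_mul {M M' : ℕ} {l l' : ℤ} {x y : MvPolynomial (Fin 4) K} (hx : x ∈ χ.F2 Λ M l)
    (hy : y ∈ χ.F2 Λ M' l') : x * y ∈ χ.F2 Λ (M + M') (l + l') := by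
  have h : χ.F2 Λ M l * χ.F2 Λ M' l' ≤ χ.F2 Λ (M + M') (l + l') := by
    unfold F2
    rw [Submodule.span_mul_span]
    apply Submodule.span_mono
    rintro _ ⟨_, ⟨M₁, d, h1, f, hf, g, hg, rfl⟩, _, ⟨M₁', d', h1', f', hf', g', hg', rfl⟩, rfl⟩
    refine ⟨M₁ + M₁', d + d', by omega, f * f', ?_, g * g', ?_, ?_⟩
    · have := χ.mul _ _ _ _ f hf f' hf'
      have e : l + l' + (Λ : ℤ) * ((d + d' : ℕ) : ℤ) = (l + Λ * d) + (l' + Λ * d') := by
        push_cast
        ring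
      rw [e]
      exact this
    · rw [mul_add]
      have h2 := T.secP_true q D₀ (r * d)
      exact T.sec_mul_mem hg hg'
    · simp only
      ring
  exact h (Submodule.mul_mem_mul hx hy)

theorem F2_anti {M : ℕ} {l l' : ℤ} (h : l ≤ l') : χ.F2 Λ M l' ≤ χ.F2 Λ M l := by
  apply Submodule.span_mono
  rintro _ ⟨M₁, d, h1, f, hf, g, hg, rfl⟩
  exact ⟨M₁, d, h1, f, χ.anti _ _ _ (by linarith) hf, g, hg, rfl⟩

theorem F_le_F2 {M : ℕ} {l : ℤ} {f : MvPolynomial (Fin 4) K} (hf : f ∈ χ.F M l) :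
    f ∈ χ.F2 Λ M l := by
  apply Submodule.subset_span
  refine ⟨M, 0, add_zero M, f, ?_, 1, ?_, (mul_one f).symm⟩
  · rw [Nat.cast_zero, mul_zero, add_zero]
    exact hf
  · rw [mul_zero]
    exact one_mem_sec_zero T q D₀

theorem sec_le_F2 (hΛ : ∀ N : ℕ, χ.F N (-(Λ * N)) = γ.secQ q D₀ (r * N) ∧ χ.F N (Λ * N + 1) = ⊥)
    {M : ℕ} {l : ℤ} (hl : l ≤ -(Λ * M)) {g : MvPolynomial (Fin 4) K}
    (hg : g ∈ T.sec q D₀ (r * M)) : g ∈ χ.F2 Λ M l := by
  apply Submodule.subset_span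
  exact ⟨0, M, zero_add M, 1, χ.one_mem_le hΛ (by linarith), g, hg, (one_mul g).symm⟩

theorem av_F2 (hfix : γ.Fixes D₀)
    (hΛ : ∀ N : ℕ, χ.F N (-(Λ * N)) = γ.secQ q D₀ (r * N) ∧ χ.F N (Λ * N + 1) = ⊥)
    {M : ℕ} {l : ℤ} {x : MvPolynomial (Fin 4) K} (hx : x ∈ χ.F2 Λ M l) : γ.av x ∈ χ.F M l := by
  have h : (χ.F2 Λ M l).map γ.avL ≤ χ.F M l := by
    unfold F2
    rw [Submodule.map_span, Submodule.span_le]
    rintro _ ⟨_, ⟨M₁, d, h1, f, hf, g, hg, rfl⟩, rfl⟩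
    show γ.av (f * g) ∈ χ.F M l
    obtain ⟨_, g1, g2, g3⟩ := χ.le _ _ hf
    rw [Gam.av_mul_fixed g1 g2 g3]
    have h2 : γ.av g ∈ χ.F d (-(Λ * d)) := by
      rw [(hΛ d).1]
      exact Gam.av_mem_secQ hfix hg
    have h3 := χ.mul _ _ _ _ f hf _ h2
    rw [h1] at h3
    have e : l + (Λ : ℤ) * d + -(Λ * d) = l := by ring
    rwa [e] at h3
  exact h ⟨x, hx, rfl⟩

theorem F2_le_sec {M : ℕ} {l : ℤ} : χ.F2 Λ M l ≤ T.sec q D₀ (r * M) := by
  unfold F2
  rw [Submodule.span_le]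
  rintro _ ⟨M₁, d, h1, f, hf, g, hg, rfl⟩
  rw [← h1, mul_add]
  exact T.sec_mul_mem (χ.le _ _ hf).1 hg

theorem finite_F (M : ℕ) (l : ℤ) : FiniteDimensional ℂ (χ.F M l) := by
  have := finite_sec T q D₀ (r * M)
  exact Submodule.finiteDimensional_of_le ((χ.le M l).trans (γ.secQ_le q D₀ _))

theorem finite_F2 (M : ℕ) (l : ℤ) : FiniteDimensional ℂ (χ.F2 Λ M l) := by
  have := finite_sec T q D₀ (r * M)
  exact Submodule.finiteDimensional_of_le F2_le_sec

/-- the signs -/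
def sg (i : Fin 2) : ℂ := if i = 0 then 1 else -1

theorem sg_mul (i : Fin 2) : sg i * sg i = 1 := by
  unfold sg
  split_ifs <;> norm_num

theorem finrank_F2_le (hfix : γ.Fixes D₀) (hD : T.X.deg D₀ = 105 * T.t * q) (hq : 0 < q)
    (hr : 8 ≤ r)
    (hΛ : ∀ N : ℕ, χ.F N (-(Λ * N)) = γ.secQ q D₀ (r * N) ∧ χ.F N (Λ * N + 1) = ⊥)
    (M : ℕ) (l : ℤ) : finrank ℂ (χ.F2 Λ M l) ≤ 8 * finrank ℂ (χ.F (M + 1) (l - Λ)) := by
  have hdeg := deg_bound_crit hD hq (N := r * 1) (by rw [mul_one]; exact hr) 0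
    (by rw [abs_zero]; positivity)
  choose g hg hg0 hg1 hg2 hg3 using fun i : Fin 2 × Fin 2 × Fin 2 =>
    Gam.exists_semi_sec (γ := γ) hfix (q := q) (N := r * 1) hdeg (sg_mul i.1) (sg_mul i.2.1)
      (sg_mul i.2.2)
  have hmem : ∀ (w : MvPolynomial (Fin 4) K), w ∈ χ.F2 Λ M l → ∀ i,
      γ.av (w * g i) ∈ χ.F (M + 1) (l - Λ) := by
    intro w hw i
    apply av_F2 hfix hΛ
    have h1 := F2_mul hw (sec_le_F2 (χ := χ) hΛ le_rfl (hg i))
    have e : l + -((Λ : ℤ) * ((1 : ℕ) : ℤ)) = l - Λ := by push_cast; ring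
    rwa [e] at h1
  let Φ : χ.F2 Λ M l →ₗ[ℂ] (Fin 2 × Fin 2 × Fin 2 → χ.F (M + 1) (l - Λ)) :=
    { toFun := fun w i => ⟨γ.av (w * g i), hmem w w.2 i⟩
      map_add' := by
        intro w w'
        funext i
        apply Subtype.ext
        show γ.av ((w + w' : MvPolynomial (Fin 4) K) * g i) = γ.av (w * g i) + γ.av (w' * g i)
        rw [add_mul, Gam.av_add]
      map_smul' := by
        intro c w
        funext i
        apply Subtype.ext
        show γ.av ((c • w : MvPolynomial (Fin 4) K) * g i) = c • γ.av (w * g i)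
        rw [smul_mul_assoc, Gam.av_smul] }
  have hΦ : Function.Injective Φ := by
    rw [injective_iff_map_eq_zero]
    intro w hw
    have h1 : ∀ i : Fin 2 × Fin 2 × Fin 2, γ.piE (sg i.1) (sg i.2.1) (sg i.2.2)
        (w : MvPolynomial (Fin 4) K) = 0 := by
      intro i
      have h2 : γ.av ((w : MvPolynomial (Fin 4) K) * g i) = 0 := by
        have := congrFun hw i
        exact congrArg Subtype.val this
      rw [Gam.av_mul (hg1 i) (hg2 i) (hg3 i)] at h2
      exact (mul_eq_zero.1 h2).resolve_right (hg0 i)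
    have h3 := Gam.sum_piE (γ := γ) (w : MvPolynomial (Fin 4) K)
    have s0 : sg 0 = 1 := rfl
    have s1 : sg 1 = -1 := rfl
    have e1 := h1 (0, 0, 0)
    have e2 := h1 (0, 0, 1)
    have e3 := h1 (0, 1, 0)
    have e4 := h1 (0, 1, 1)
    have e5 := h1 (1, 0, 0)
    have e6 := h1 (1, 0, 1)
    have e7 := h1 (1, 1, 0)
    have e8 := h1 (1, 1, 1)
    simp only [s0, s1] at e1 e2 e3 e4 e5 e6 e7 e8
    rw [e1, e2, e3, e4, e5, e6, e7, e8] at h3
    apply Subtype.ext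
    have h4 : (8 : ℂ) • (w : MvPolynomial (Fin 4) K) = 0 := by
      rw [← h3]
      simp
    exact (smul_eq_zero.1 h4).resolve_left (by norm_num)
  have hfin := finite_F (χ := χ) (M + 1) (l - Λ)
  have h1 := LinearMap.finrank_le_finrank_of_injective hΦ
  rw [Module.finrank_pi_fintype] at h1
  simpa using h1

end QFilt

/-! ### The generated filtration -/

/-- Generators: `χ`, all sections in weight `-Λ`, and the level `N` of the saturation. -/
def QFilt.Gen {γ : Gam T} (χ : QFilt γ q D₀ r) (Λ N : ℕ) (x : ℕ × ℤ × MvPolynomial (Fin 4) K) :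
    Prop :=
  x.2.2 ∈ χ.F x.1 x.2.1 ∨ (x.2.2 ∈ T.sec q D₀ (r * x.1) ∧ x.2.1 ≤ -(Λ * x.1)) ∨
    (x.1 = N ∧ x.2.2 ∈ T.X.satD 0 (χ.F N x.2.1))

/-- the span of the products of generators -/
noncomputable def QFilt.GF {γ : Gam T} (χ : QFilt γ q D₀ r) (Λ N : ℕ) (M : ℕ) (l : ℤ) :
    Submodule ℂ (MvPolynomial (Fin 4) K) :=
  Submodule.span ℂ {g | ∃ L : List (ℕ × ℤ × MvPolynomial (Fin 4) K), (∀ x ∈ L, χ.Gen Λ N x) ∧
    (L.map fun x => x.1).sum = M ∧ l ≤ (L.map fun x => x.2.1).sum ∧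
    g = (L.map fun x => x.2.2).prod}

namespace QFilt

variable {γ : Gam T} {χ : QFilt γ q D₀ r} {Λ N : ℕ}

theorem GF_anti {M : ℕ} {l l' : ℤ} (h : l ≤ l') : χ.GF Λ N M l' ≤ χ.GF Λ N M l := by
  apply Submodule.span_mono
  rintro _ ⟨L, h1, h2, h3, rfl⟩
  exact ⟨L, h1, h2, h.trans h3, rfl⟩

theorem GF_mul {M M' : ℕ} {l l' : ℤ} {x y : MvPolynomial (Fin 4) K} (hx : x ∈ χ.GF Λ N M l)
    (hy : y ∈ χ.GF Λ N M' l') : x * y ∈ χ.GF Λ N (M + M') (l + l') := by
  have h : χ.GF Λ N M l * χ.GF Λ N M' l' ≤ χ.GF Λ N (M + M') (l + l') := by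
    unfold GF
    rw [Submodule.span_mul_span]
    apply Submodule.span_mono
    rintro _ ⟨_, ⟨L, h1, h2, h3, rfl⟩, _, ⟨L', h1', h2', h3', rfl⟩, rfl⟩
    refine ⟨L ++ L', ?_, ?_, ?_, ?_⟩
    · intro x hx
      rcases List.mem_append.1 hx with h | h
      · exact h1 x h
      · exact h1' x h
    · rw [List.map_append, List.sum_append, h2, h2']
    · rw [List.map_append, List.sum_append]
      exact add_le_add h3 h3'
    · simp only
      rw [List.map_append, List.prod_append]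
  exact h (Submodule.mul_mem_mul hx hy)

theorem gen_mem_GF {M : ℕ} {l : ℤ} {f : MvPolynomial (Fin 4) K} (h : χ.Gen Λ N (M, l, f)) :
    f ∈ χ.GF Λ N M l := by
  apply Submodule.subset_span
  refine ⟨[(M, l, f)], ?_, ?_, ?_, ?_⟩
  · intro x hx
    rw [List.mem_singleton] at hx
    rw [hx]
    exact h
  · simp
  · simp
  · simp

variable (hfix : γ.Fixes D₀) (hD : T.X.deg D₀ = 105 * T.t * q) (hq : 0 < q) (hr : 8 ≤ r)

theorem Gen.mem_sat
    (hΛ : ∀ N : ℕ, χ.F N (-(Λ * N)) = γ.secQ q D₀ (r * N) ∧ χ.F N (Λ * N + 1) = ⊥)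
    {x : ℕ × ℤ × MvPolynomial (Fin 4) K} (hx : χ.Gen Λ N x) :
    x.2.2 ∈ (χ.sat hfix hD hq hr).F x.1 x.2.1 := by
  rcases hx with h | ⟨h, h'⟩ | ⟨h, h'⟩
  · exact T.X.le_satD _ h
  · apply (χ.sat hfix hD hq hr).anti _ _ _ h'
    rw [(χ.sat_bound hfix hD hq hr hΛ x.1).1]
    exact h
  · rw [h]
    exact h'

theorem GF_le_sat
    (hΛ : ∀ N : ℕ, χ.F N (-(Λ * N)) = γ.secQ q D₀ (r * N) ∧ χ.F N (Λ * N + 1) = ⊥)
    (M : ℕ) (l : ℤ) : χ.GF Λ N M l ≤ (χ.sat hfix hD hq hr).F M l := by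
  unfold GF
  rw [Submodule.span_le]
  rintro _ ⟨L, h1, h2, h3, rfl⟩
  apply (χ.sat hfix hD hq hr).anti _ _ _ h3
  rw [← h2]
  clear h2 h3
  induction L with
  | nil =>
    simp only [List.map_nil, List.sum_nil, List.prod_nil]
    have h := (χ.sat_bound hfix hD hq hr hΛ 0).1
    rw [Nat.cast_zero, mul_zero, neg_zero, mul_zero] at h
    show (1 : MvPolynomial (Fin 4) K) ∈ (χ.sat hfix hD hq hr).F 0 0
    rw [h]
    exact one_mem_sec_zero T q D₀
  | cons x L ih =>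
    simp only [List.map_cons, List.sum_cons, List.prod_cons]
    exact (χ.sat hfix hD hq hr).mul _ _ _ _ _
      ((h1 x (List.mem_cons_self ..)).mem_sat hfix hD hq hr hΛ) _
      (ih fun y hy => h1 y (List.mem_cons_of_mem _ hy))

/-- the generated filtration -/
noncomputable def GFilt
    (hΛ : ∀ N : ℕ, χ.F N (-(Λ * N)) = γ.secQ q D₀ (r * N) ∧ χ.F N (Λ * N + 1) = ⊥)
    (N : ℕ) : Filt T q D₀ r where
  F := fun M l => χ.GF Λ N M l
  le := fun M l => (GF_le_sat hfix hD hq hr hΛ M l).trans ((χ.sat hfix hD hq hr).le M l)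
  anti := fun M l l' h => GF_anti h
  mul := fun M M' l l' f hf g hg => GF_mul hf hg
  bound := by
    refine ⟨Λ, fun M => ⟨?_, ?_⟩⟩
    · apply le_antisymm ((GF_le_sat hfix hD hq hr hΛ M _).trans ((χ.sat hfix hD hq hr).le M _))
      intro f hf
      exact gen_mem_GF (Or.inr (Or.inl ⟨hf, le_rfl⟩))
    · rw [eq_bot_iff, ← (χ.sat_bound hfix hD hq hr hΛ M).2]
      exact GF_le_sat hfix hD hq hr hΛ M _

theorem GFilt_level
    (hΛ : ∀ N : ℕ, χ.F N (-(Λ * N)) = γ.secQ q D₀ (r * N) ∧ χ.F N (Λ * N + 1) = ⊥)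
    (N : ℕ) (l : ℤ) : (GFilt hfix hD hq hr hΛ N).F N l = (χ.sat hfix hD hq hr).F N l := by
  apply le_antisymm (GF_le_sat hfix hD hq hr hΛ N l)
  intro f hf
  exact gen_mem_GF (Or.inr (Or.inr ⟨rfl, hf⟩))

theorem GFilt_bound
    (hΛ : ∀ N : ℕ, χ.F N (-(Λ * N)) = γ.secQ q D₀ (r * N) ∧ χ.F N (Λ * N + 1) = ⊥)
    (N M : ℕ) : (GFilt hfix hD hq hr hΛ N).F M (-(Λ * M)) = T.sec q D₀ (r * M) ∧
      (GFilt hfix hD hq hr hΛ N).F M (Λ * M + 1) = ⊥ := by
  refine ⟨?_, ?_⟩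
  · apply le_antisymm ((GF_le_sat hfix hD hq hr hΛ M _).trans ((χ.sat hfix hD hq hr).le M _))
    intro f hf
    exact gen_mem_GF (Or.inr (Or.inl ⟨hf, le_rfl⟩))
  · rw [eq_bot_iff, ← (χ.sat_bound hfix hD hq hr hΛ M).2]
    exact GF_le_sat hfix hD hq hr hΛ M _

/-! ### Comparison -/

theorem mul_mem_LD {D : T.X.Pt →₀ ℤ} {U U' U'' : Submodule ℂ (MvPolynomial (Fin 4) K)}
    (hU : ∀ a ∈ U, ∀ b ∈ U', a * b ∈ U'') {a y : MvPolynomial (Fin 4) K} (ha : a ∈ U)
    (hy : y ∈ T.X.LD D U') : a * y ∈ T.X.LD D U'' := by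
  unfold CurveOrd.LD at hy
  induction hy using Submodule.span_induction with
  | mem x hx =>
    obtain ⟨z, hz, u, hu, rfl⟩ := hx
    apply Submodule.subset_span
    exact ⟨z, hz, a * u, hU a ha u hu, mul_smul_comm z a u⟩
  | zero =>
    rw [mul_zero]
    exact zero_mem _
  | add x x' _ _ h1 h2 =>
    rw [mul_add]
    exact add_mem h1 h2
  | smul c x _ h =>
    rw [mul_smul_comm]
    exact Submodule.smul_mem _ c h

theorem LD_mono {D : T.X.Pt →₀ ℤ} {U U' : Submodule ℂ (MvPolynomial (Fin 4) K)} (h : U ≤ U') :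
    T.X.LD D U ≤ T.X.LD D U' := by
  apply Submodule.span_mono
  rintro _ ⟨z, hz, u, hu, rfl⟩
  exact ⟨z, hz, u, h hu, rfl⟩

/-- `L(D)` times the generated filtration is contained in `L(D)` times `F₂`. -/
theorem smul_GF_mem
    (hΛ : ∀ N : ℕ, χ.F N (-(Λ * N)) = γ.secQ q D₀ (r * N) ∧ χ.F N (Λ * N + 1) = ⊥)
    {D : T.X.Pt →₀ ℤ}
    (hS : ∀ (l : ℤ), ∀ z ∈ T.X.L D, ∀ f ∈ T.X.satD 0 (χ.F N l), z • f ∈ T.X.LD D (χ.F N l))
    {M : ℕ} {l : ℤ} {z : K} (hz : z ∈ T.X.L D) {f : MvPolynomial (Fin 4) K}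
    (hf : f ∈ χ.GF Λ N M l) : z • f ∈ T.X.LD D (χ.F2 Λ M l) := by
  unfold GF at hf
  induction hf using Submodule.span_induction with
  | mem x hx =>
    obtain ⟨L, h1, h2, h3, rfl⟩ := hx
    apply LD_mono (F2_anti h3)
    rw [← h2]
    clear h2 h3
    induction L generalizing z with
    | nil =>
      simp only [List.map_nil, List.sum_nil, List.prod_nil]
      apply Submodule.subset_span
      exact ⟨z, hz, 1, F_le_F2 (χ.one_mem_le hΛ le_rfl), rfl⟩
    | cons x L ih =>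
      simp only [List.map_cons, List.sum_cons, List.prod_cons]
      have hL : ∀ y ∈ L, χ.Gen Λ N y := fun y hy => h1 y (List.mem_cons_of_mem _ hy)
      rcases h1 x (List.mem_cons_self ..) with h | ⟨h, h'⟩ | ⟨h, h'⟩
      · rw [← mul_smul_comm]
        exact mul_mem_LD (fun a ha b hb => F2_mul ha hb) (F_le_F2 h) (ih hz hL)
      · rw [← mul_smul_comm]
        exact mul_mem_LD (fun a ha b hb => F2_mul ha hb) (sec_le_F2 hΛ h' h) (ih hz hL)
      · rw [← smul_mul_assoc]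
        have h4 := hS x.2.1 z hz x.2.2 h'
        unfold CurveOrd.LD at h4
        generalize z • x.2.2 = w at h4 ⊢
        induction h4 using Submodule.span_induction with
        | mem y hy =>
          obtain ⟨z', hz', u, hu, rfl⟩ := hy
          rw [smul_mul_assoc, ← mul_smul_comm]
          rw [← h] at hu
          exact mul_mem_LD (fun a ha b hb => F2_mul ha hb) (F_le_F2 hu) (ih hz' hL)
        | zero =>
          rw [zero_mul]
          exact zero_mem _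
        | add y y' _ _ g1 g2 =>
          rw [add_mul]
          exact add_mem g1 g2
        | smul c y _ g =>
          rw [smul_mul_assoc]
          exact Submodule.smul_mem _ c g
  | zero =>
    rw [smul_zero]
    exact zero_mem _
  | add x x' _ _ h1 h2 =>
    rw [smul_add]
    exact add_mem h1 h2
  | smul c x _ h =>
    rw [smul_comm]
    exact Submodule.smul_mem _ c h

end QFilt

end Pool.Agent.YTD


end

/- source: Pool.Agent.YTD.SatI3 -/

section

/-!
Levelwise approximation of the saturated filtration by filtrations of small volume: conclusion.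
-/

namespace Pool.Agent.YTD

open Finset Module MvPolynomial Filter

variable {K : Type} [Field K] [Algebra ℂ K]
variable {T : Datum K} {q : ℕ} {D₀ : T.X.Pt →₀ ℤ} {r : ℕ}

theorem dvs_zero (T : Datum K) (q : ℕ) (D₀ : T.X.Pt →₀ ℤ) (N : ℕ) :
    T.dvs q D₀ N 0 = N • D₀ := by
  unfold Datum.dvs
  have h : max 0 (0 - 4 * (q : ℤ) * N) = 0 := by
    apply max_eq_left
    have : (0 : ℤ) ≤ 4 * q * N := by positivity
    linarith
  have h' : max 0 (-0 - 4 * (q : ℤ) * N) = 0 := by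
    rw [neg_zero]
    exact h
  simp only [h, h', Finsupp.single_zero, sum_const_zero, sub_zero]

namespace QFilt

variable {γ : Gam T} {Λ : ℕ}

/-- The volume of the generated filtration is at most that of the original one. -/
theorem exists_level (χ : QFilt γ q D₀ r) (hfix : γ.Fixes D₀)
    (hD : T.X.deg D₀ = 105 * T.t * q) (hq : 0 < q) (hr : 8 ≤ r)
    (hΛ : ∀ N : ℕ, χ.F N (-(Λ * N)) = γ.secQ q D₀ (r * N) ∧ χ.F N (Λ * N + 1) = ⊥)
    (hSer : ∀ U : Submodule ℂ (MvPolynomial (Fin 4) K), FiniteDimensional ℂ U →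
      ∃ d₀ : ℤ, ∀ D : T.X.Pt →₀ ℤ, d₀ ≤ T.X.deg D → T.X.satD D U ≤ T.X.LD D U) (N : ℕ) :
    ∃ G : Filt T q D₀ r, (∀ l, G.F N l = (χ.sat hfix hD hq hr).F N l) ∧
      (∀ M : ℕ, G.F M (-(Λ * M)) = T.sec q D₀ (r * M) ∧ G.F M (Λ * M + 1) = ⊥) ∧
      ∃ c : ℕ, ∀ (M : ℕ) (l : ℤ),
        finrank ℂ (G.F M l) ≤ 8 * finrank ℂ (χ.F (M + c) (l - Λ * c)) := by
  classical
  obtain ⟨P₀⟩ := T.exists_pt
  refine ⟨GFilt hfix hD hq hr hΛ N, GFilt_level hfix hD hq hr hΛ N,
    GFilt_bound hfix hD hq hr hΛ N, ?_⟩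
  -- the divisor `D`
  choose d₀ hd₀ using fun l : ℤ => hSer (χ.F N l) (finite_F N l)
  set I : Finset ℤ := Icc (-((Λ * N : ℕ) : ℤ)) ((Λ * N : ℕ) : ℤ) with hI
  obtain ⟨B, hB0, hBg, hBI⟩ : ∃ B : ℕ, 0 < B ∧ 2 * (T.X.genus : ℤ) ≤ B ∧ ∀ l ∈ I, d₀ l ≤ B := by
    refine ⟨2 * T.X.genus + ∑ l ∈ I, (d₀ l).natAbs + 1, by omega, by omega, ?_⟩
    intro l hl
    have h1 : (d₀ l).natAbs ≤ ∑ l ∈ I, (d₀ l).natAbs :=
      single_le_sum (f := fun l => (d₀ l).natAbs) (fun _ _ => Nat.zero_le _) hl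
    have h2 : d₀ l ≤ (d₀ l).natAbs := Int.le_natAbs
    have h3 : (((d₀ l).natAbs : ℕ) : ℤ) ≤ ((∑ l ∈ I, (d₀ l).natAbs : ℕ) : ℤ) := by
      exact_mod_cast h1
    have h4 : ((2 * T.X.genus + ∑ l ∈ I, (d₀ l).natAbs + 1 : ℕ) : ℤ) =
        2 * T.X.genus + ((∑ l ∈ I, (d₀ l).natAbs : ℕ) : ℤ) + 1 := by push_cast; ring
    rw [h4]
    have h5 : (0 : ℤ) ≤ 2 * T.X.genus := by positivity
    linarith
  set D : T.X.Pt →₀ ℤ := Finsupp.single P₀ (B : ℤ) with hDdef
  have hDdeg : T.X.deg D = B := T.X.deg_single _ _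
  have hS : ∀ (l : ℤ), ∀ z ∈ T.X.L D, ∀ f ∈ T.X.satD 0 (χ.F N l), z • f ∈ T.X.LD D (χ.F N l) := by
    -- for `l` in the range
    have key : ∀ l ∈ I, ∀ z ∈ T.X.L D, ∀ f ∈ T.X.satD 0 (χ.F N l),
        z • f ∈ T.X.LD D (χ.F N l) := by
      intro l hl z hz f hf
      apply hd₀ l D (by rw [hDdeg]; exact hBI l hl)
      by_cases hz0 : z = 0
      · rw [hz0, zero_smul]
        exact zero_mem _
      rw [T.X.smul_mem_satD hz0]
      apply T.X.satD_mono _ le_rfl hf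
      intro P
      rw [Finsupp.zero_apply, Finsupp.add_apply, T.X.dv_apply hz0]
      have := hz hz0 P
      linarith
    have hΛN := hΛ N
    have eN : ((Λ * N : ℕ) : ℤ) = (Λ : ℤ) * N := by push_cast; ring
    intro l z hz f hf
    by_cases h1 : l < -((Λ * N : ℕ) : ℤ)
    · have e : χ.F N l = χ.F N (-((Λ * N : ℕ) : ℤ)) := by
        apply le_antisymm
        · rw [eN, hΛN.1]
          exact χ.le N l
        · exact χ.anti N _ _ h1.le
      rw [e] at hf ⊢
      have h0 : (0 : ℤ) ≤ ((Λ * N : ℕ) : ℤ) := by positivity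
      exact key _ (by rw [hI, mem_Icc]; exact ⟨le_rfl, by linarith⟩) z hz f hf
    · by_cases h2 : ((Λ * N : ℕ) : ℤ) < l
      · have e : χ.F N l = ⊥ := by
          rw [eq_bot_iff, ← hΛN.2]
          apply χ.anti
          rw [eN] at h2
          linarith
        rw [e, T.X.satD_zero_bot P₀, Submodule.mem_bot] at hf
        rw [hf, smul_zero]
        exact zero_mem _
      · exact key l (by rw [hI, mem_Icc]; exact ⟨not_lt.1 h1, not_lt.1 h2⟩) z hz f hf
  -- a nonzero function in `L(D)`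
  obtain ⟨m, hm, hm0, _⟩ := T.X.exists_ord_eq P₀ (D := D) (by rw [hDdeg]; exact hBg) P₀
  -- the element `e`
  set d : ℕ := B + 2 * T.X.genus with hd
  obtain ⟨a, ha, ha0, _⟩ := T.X.exists_ord_eq P₀ (D := (r * d) • D₀ - D) (by
    rw [T.X.deg_sub, T.X.deg_nsmul, hD, hDdeg]
    have h1 : (1 : ℤ) ≤ T.t := by exact_mod_cast T.t_pos
    have h2 : (1 : ℤ) ≤ q := by exact_mod_cast hq
    have h3 : (1 : ℤ) ≤ r := by
      have : 1 ≤ r := by omega
      exact_mod_cast this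
    have h4 : (d : ℤ) = B + 2 * T.X.genus := by rw [hd]; push_cast; ring
    have h5 : (1 : ℤ) ≤ T.t * q := by nlinarith
    have h6 : (1 : ℤ) ≤ r * (105 * T.t * q) := by nlinarith
    have h7 : (0 : ℤ) ≤ d := by positivity
    have h8 : (d : ℤ) ≤ d * (r * (105 * T.t * q)) := by nlinarith
    push_cast
    nlinarith) P₀
  set e₀ : Fin 4 →₀ ℕ := Finsupp.equivFunOnFinite.symm
    ![25 * q * (r * d), 0, 25 * q * (r * d), 0] with he₀
  have e0 : e₀ 0 = 25 * q * (r * d) := rfl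
  have e1 : e₀ 1 = 0 := rfl
  have e2 : e₀ 2 = 25 * q * (r * d) := rfl
  have e3 : e₀ 3 = 0 := rfl
  set e : MvPolynomial (Fin 4) K := monomial e₀ a with he
  have he0 : e ≠ 0 := by
    intro h
    apply ha0
    have := congrArg (coeff e₀) h
    rwa [he, coeff_monomial, if_pos rfl, coeff_zero] at this
  have hze : ∀ z ∈ T.X.L D, z • e ∈ T.sec q D₀ (r * d) := by
    intro z hz
    rw [he, smul_monomial, smul_eq_mul, sec_eq_bigr]
    refine monomial_mem_bigr (j := 0) (by rw [abs_zero]; positivity)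
      (by rw [e0, e1]; push_cast; ring) (by rw [e2, e3]; push_cast; ring) ?_
    have h1 := T.X.mul_mem_L hz ha
    have h2 : D + ((r * d) • D₀ - D) = T.dvs q D₀ (r * d) 0 := by
      rw [dvs_zero]
      abel
    rw [h2] at h1
    exact h1
  -- the comparison map
  refine ⟨d + 1, fun M l => ?_⟩
  have hmap : ∀ f ∈ χ.GF Λ N M l, (m • f) * e ∈ χ.F2 Λ (M + d) (l - Λ * d) := by
    intro f hf
    have h1 := smul_GF_mem hΛ hS hm hf
    unfold CurveOrd.LD at h1
    generalize m • f = w at h1 ⊢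
    induction h1 using Submodule.span_induction with
    | mem y hy =>
      obtain ⟨z, hz, u, hu, rfl⟩ := hy
      have h2 : z • u * e = u * (z • e) := by
        rw [smul_mul_assoc, ← mul_smul_comm]
      rw [h2]
      have h3 := F2_mul hu (sec_le_F2 (χ := χ) hΛ le_rfl (hze z hz))
      rwa [← sub_eq_add_neg] at h3
    | zero =>
      rw [zero_mul]
      exact zero_mem _
    | add y y' _ _ h1 h2 =>
      rw [add_mul]
      exact add_mem h1 h2
    | smul c y _ h =>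
      rw [smul_mul_assoc]
      exact Submodule.smul_mem _ c h
  let Φ : χ.GF Λ N M l →ₗ[ℂ] χ.F2 Λ (M + d) (l - Λ * d) :=
    { toFun := fun f => ⟨(m • (f : MvPolynomial (Fin 4) K)) * e, hmap f f.2⟩
      map_add' := by
        intro f f'
        apply Subtype.ext
        show (m • ((f : MvPolynomial (Fin 4) K) + f')) * e = (m • (f : MvPolynomial (Fin 4) K)) * e +
          (m • (f' : MvPolynomial (Fin 4) K)) * e
        rw [smul_add, add_mul]
      map_smul' := by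
        intro c f
        apply Subtype.ext
        show (m • (c • (f : MvPolynomial (Fin 4) K))) * e =
          c • ((m • (f : MvPolynomial (Fin 4) K)) * e)
        rw [smul_comm, smul_mul_assoc] }
  have hΦ : Function.Injective Φ := by
    rw [injective_iff_map_eq_zero]
    intro f hf
    have h1 : (m • (f : MvPolynomial (Fin 4) K)) * e = 0 := congrArg Subtype.val hf
    have h2 := (mul_eq_zero.1 h1).resolve_right he0
    apply Subtype.ext
    exact (smul_eq_zero.1 h2).resolve_left hm0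
  have hfin := finite_F2 (χ := χ) (Λ := Λ) (M + d) (l - Λ * d)
  have h1 := LinearMap.finrank_le_finrank_of_injective hΦ
  have h2 := finrank_F2_le hfix hD hq hr hΛ (M + d) (l - Λ * d)
  have e5 : l - (Λ : ℤ) * d - Λ = l - Λ * ((d + 1 : ℕ) : ℤ) := by push_cast; ring
  rw [e5, add_assoc] at h2
  exact h1.trans h2

end QFilt

end Pool.Agent.YTD


end

/- source: Pool.Agent.YTD.SatB3 -/

section

/-!
Serre's theorem: for divisors of large degree the twisted sheaf is generated in the naive sense.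
-/

namespace Pool.Agent.YTD

open Finset Module MvPolynomial Filter

namespace Curve

variable {K : Type} [Field K] [Algebra ℂ K] (X : Curve K)
variable {V : Type} [AddCommGroup V] [Module K V] [Module ℂ V] [IsScalarTower ℂ K V]

/-- Approximation of finitely many local functions by a global one. -/
theorem exists_approx (D : X.Pt →₀ ℤ) (c : X.Pt → K) : ∀ (n : ℕ) (B : X.Pt →₀ ℤ),
    (∀ P, 0 ≤ B P) → X.deg B = n → 2 * (X.genus : ℤ) - 1 ≤ X.deg D - n →
    (∀ Q, 0 < B Q → c Q ∈ X.ovan Q (-(D Q))) →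
    ∃ z ∈ X.L D, ∀ Q, 0 < B Q → z - c Q ∈ X.ovan Q (B Q - D Q) := by
  classical
  intro n
  induction n with
  | zero =>
    intro B hB hdeg _ _
    refine ⟨0, zero_mem _, fun Q hQ => ?_⟩
    exfalso
    have h1 : ∀ P, (Finsupp.single Q 1 : X.Pt →₀ ℤ) P ≤ B P := by
      intro P
      rw [Finsupp.single_apply]
      split_ifs with h
      · subst h
        omega
      · exact hB P
    have h2 := X.deg_mono h1
    rw [X.deg_single, hdeg] at h2
    norm_num at h2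
  | succ n ih =>
    intro B hB hdeg hD hc
    obtain ⟨P, hP⟩ : ∃ P, 0 < B P := by
      by_contra hcon
      push Not at hcon
      have h1 : ∀ P, B P ≤ (0 : X.Pt →₀ ℤ) P := hcon
      have h2 := X.deg_mono h1
      rw [hdeg, X.deg_zero] at h2
      push_cast at h2
      linarith [Int.natCast_nonneg n]
    set B' : X.Pt →₀ ℤ := B - Finsupp.single P 1 with hB'
    have hB'P : B' P = B P - 1 := by
      rw [hB', Finsupp.sub_apply, Finsupp.single_eq_same]
    have hB'Q : ∀ Q, Q ≠ P → B' Q = B Q := by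
      intro Q hQ
      rw [hB', Finsupp.sub_apply, Finsupp.single_eq_of_ne hQ, sub_zero]
    have hB'0 : ∀ Q, 0 ≤ B' Q := by
      intro Q
      by_cases hQ : Q = P
      · rw [hQ, hB'P]
        omega
      · rw [hB'Q Q hQ]
        exact hB Q
    have hB'B : ∀ Q, B' Q ≤ B Q := by
      intro Q
      by_cases hQ : Q = P
      · rw [hQ, hB'P]
        omega
      · rw [hB'Q Q hQ]
    have hdeg' : X.deg B' = n := by
      rw [hB', X.deg_sub, X.deg_single, hdeg]
      push_cast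
      ring
    obtain ⟨z, hz, hzc⟩ := ih B' hB'0 hdeg' (by push_cast at hD; linarith)
      (fun Q hQ => hc Q (lt_of_lt_of_le hQ (hB'B Q)))
    -- the error at `P`
    have he : c P - z ∈ X.ovan P (B' P - D P) := by
      by_cases h0 : 0 < B' P
      · have h1 := neg_mem (hzc P h0)
        rwa [neg_sub] at h1
      · have h1 : B' P = 0 := le_antisymm (not_lt.1 h0) (hB'0 P)
        rw [h1, zero_sub]
        refine sub_mem (hc P hP) ?_
        intro h2
        have h3 := hz h2 P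
        linarith
    obtain ⟨y₀, hy₀, hy₀0, hy₀P⟩ := X.exists_ord_eq P (D := D - B') (by
      rw [X.deg_sub, hdeg']
      push_cast at hD
      linarith) P
    have hy₀P' : X.ord P y₀ = B' P - D P := by
      rw [hy₀P, Finsupp.sub_apply]
      ring
    obtain ⟨a, ha⟩ : ∃ a : ℂ, (c P - z) - a • y₀ ∈ X.ovan P (B P - D P) := by
      by_cases h0 : c P - z = 0
      · refine ⟨0, ?_⟩
        rw [h0, zero_smul, sub_zero]
        exact zero_mem _
      · rcases eq_or_lt_of_le (he h0) with h1 | h1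
        · obtain ⟨a, ha⟩ := X.exists_sub_smul (P := P) h0 hy₀0 (by rw [hy₀P', h1])
          refine ⟨a, fun h2 => ?_⟩
          have h3 := ha h2
          rw [hy₀P', hB'P] at h3
          omega
        · refine ⟨0, ?_⟩
          rw [zero_smul, sub_zero]
          intro _
          rw [hB'P] at h1
          omega
    have hy : ∀ Q, a • y₀ ∈ X.ovan Q (B' Q - D Q) := by
      intro Q
      apply Submodule.smul_mem
      intro _
      have h1 := hy₀ hy₀0 Q
      rw [Finsupp.sub_apply] at h1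
      linarith
    refine ⟨z + a • y₀, add_mem hz (Submodule.smul_mem _ _ (X.L_mono (fun Q => ?_) hy₀)), ?_⟩
    · rw [Finsupp.sub_apply]
      linarith [hB'0 Q]
    · intro Q hQ
      by_cases hQP : Q = P
      · subst hQP
        have e : z + a • y₀ - c Q = -((c Q - z) - a • y₀) := by ring
        rw [e]
        exact neg_mem ha
      · have e : z + a • y₀ - c Q = (z - c Q) + a • y₀ := by ring
        rw [e, ← hB'Q Q hQP]
        refine add_mem (hzc Q ?_) (hy Q)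
        rw [hB'Q Q hQP]
        exact hQ

/-- Serre: for divisors of large degree the twisted sheaf is generated in the naive sense. -/
theorem exists_satD_le (P₀ : X.Pt) (U : Submodule ℂ V) [FiniteDimensional ℂ U] :
    ∃ d₀ : ℤ, ∀ D : X.Pt →₀ ℤ, d₀ ≤ X.deg D →
      X.satD D U ≤ Submodule.span ℂ {f | ∃ z ∈ X.L D, ∃ u ∈ U, f = z • u} := by
  classical
  obtain ⟨w, hwU, hw, hspan⟩ := exists_basis (K := K) U
  obtain ⟨g, hg⟩ := exists_coord hw
  obtain ⟨B, hB0, hB⟩ := X.exists_map_le_L g U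
  obtain ⟨s, hs⟩ := (Submodule.fg_iff_finiteDimensional U).2 inferInstance
  have hsU : ∀ u ∈ s, u ∈ U := fun u hu => by
    rw [← hs]
    exact Submodule.subset_span hu
  obtain ⟨n, hn⟩ : ∃ n : ℕ, X.deg B = n := ⟨(X.deg B).toNat, by
    rw [Int.toNat_of_nonneg (X.deg_nonneg hB0)]⟩
  refine ⟨2 * (X.genus : ℤ) - 1 + n, fun D hD f hf => ?_⟩
  -- local expansions
  have hloc : ∀ Q : X.Pt, ∃ c : V → K, (∀ u, c u ∈ X.ovan Q (-(D Q))) ∧
      f = ∑ u ∈ s, c u • u := by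
    intro Q
    obtain ⟨z₀, hz0, hz⟩ := X.exists_ord Q (D Q)
    have h1 := hf Q z₀ hz0 hz.ge
    rw [← hs, X.loc_span] at h1
    obtain ⟨a, -, ha⟩ := Submodule.mem_span_finset.1 h1
    refine ⟨fun u => z₀⁻¹ * (a u : K), fun u h0 => ?_, ?_⟩
    · have h2 := right_ne_zero_of_mul h0
      rw [X.ord_mul Q _ _ (inv_ne_zero hz0) h2, X.ord_inv Q hz0, hz]
      linarith [(a u).2 h2]
    · have h3 : f = z₀⁻¹ • (z₀ • f) := by
        rw [smul_smul, inv_mul_cancel₀ hz0, one_smul]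
      rw [h3, ← ha, Finset.smul_sum]
      refine Finset.sum_congr rfl fun u _ => ?_
      rw [mul_smul]
      rfl
  choose c hc hcf using hloc
  -- global approximations
  have happ : ∀ u : V, ∃ z ∈ X.L D, ∀ Q, 0 < B Q → z - c Q u ∈ X.ovan Q (B Q - D Q) := fun u =>
    X.exists_approx D (fun Q => c Q u) n B hB0 hn (by linarith) (fun Q _ => hc Q u)
  choose z hz hzc using happ
  set f' : V := f - ∑ u ∈ s, z u • u with hf'
  have hsat : f' ∈ X.satD D U := by
    refine sub_mem hf (sum_mem fun u hu => ?_)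
    intro Q y hy hyD
    rw [smul_smul]
    apply X.smul_mem_loc _ (X.mem_loc Q (hsU u hu))
    intro h0
    have h1 := right_ne_zero_of_mul h0
    rw [X.ord_mul Q _ _ hy h1]
    linarith [hz u h1 Q]
  have hcoord : ∀ i, g f' i ∈ X.L D := by
    intro i h0 Q
    by_cases hQ : 0 < B Q
    · have e : g f' i = ∑ u ∈ s, (c Q u - z u) * g u i := by
        have e1 : f' = ∑ u ∈ s, (c Q u - z u) • u := by
          rw [hf']
          nth_rewrite 1 [hcf Q]
          rw [← Finset.sum_sub_distrib]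
          refine Finset.sum_congr rfl fun u _ => ?_
          rw [sub_smul]
        rw [e1, map_sum, Finset.sum_apply]
        refine Finset.sum_congr rfl fun u _ => ?_
        rw [map_smul, Pi.smul_apply, smul_eq_mul]
      have h1 : g f' i ∈ X.ovan Q (-(D Q)) := by
        rw [e]
        refine sum_mem fun u hu => ?_
        intro h2
        have h3 := left_ne_zero_of_mul h2
        have h4 := right_ne_zero_of_mul h2
        rw [X.ord_mul Q _ _ h3 h4]
        have h5 := neg_mem (hzc u Q hQ)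
        rw [neg_sub] at h5
        have h6 := h5 h3
        have h7 := hB u (hsU u hu) i h4 Q
        linarith
      have h8 := h1 h0
      linarith
    · have hQ0 : B Q = 0 := le_antisymm (not_lt.1 hQ) (hB0 Q)
      have h1 := X.map_mem_L g i (fun u hu => hB u hu i) hsat h0 Q
      rw [Finsupp.add_apply, hQ0, add_zero] at h1
      exact h1
  have hf'eq : ∑ i, g f' i • w i = f' := coord_sum hg (by
    rw [hspan]
    exact X.satD_le_span P₀ D U hsat)
  have e : f = ∑ i, g f' i • w i + ∑ u ∈ s, z u • u := by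
    rw [hf'eq, hf', sub_add_cancel]
  rw [e]
  refine add_mem (sum_mem fun i _ => ?_) (sum_mem fun u hu => ?_)
  · exact Submodule.subset_span ⟨_, hcoord i, _, hwU i, rfl⟩
  · exact Submodule.subset_span ⟨_, hz u, _, hsU u hu, rfl⟩

end Curve

end Pool.Agent.YTD


end

/- source: Pool.Agent.YTD.SatH3 -/

section

/-!
The Hilbert function of a test configuration of the quotient.
-/

namespace Pool.Agent.YTD

open Finset Module MvPolynomial Filter

variable {K : Type} [Field K] [Algebra ℂ K]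
variable {T : Datum K} {q : ℕ} {D₀ : T.X.Pt →₀ ℤ} {r : ℕ}

/-- The quotient has non-zero sections. -/
theorem Gam.exists_secQ_ne_zero (γ : Gam T) (hfix : γ.Fixes D₀)
    (hD : T.X.deg D₀ = 105 * T.t * q) (hq : 0 < q) {N : ℕ} (hN : 8 ≤ N) :
    ∃ e ∈ γ.secQ q D₀ N, e ≠ 0 := by
  obtain ⟨P₀⟩ := T.exists_pt
  obtain ⟨f, hf, hf0⟩ := T.exists_sec_ne_zero (q := q) (D₀ := D₀) (N := N) (by
    rw [hD]
    have h3 : (1 : ℤ) ≤ T.t := by exact_mod_cast T.t_pos
    have h4 : (1 : ℤ) ≤ q := by exact_mod_cast hq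
    have h5 : (8 : ℤ) ≤ N := by exact_mod_cast hN
    have h6 : (8 : ℤ) ≤ N * q := by nlinarith
    have h7 : (T.t : ℤ) * 8 ≤ T.t * (N * q) := by
      apply mul_le_mul_of_nonneg_left h6
      positivity
    nlinarith)
  have h1 : f ∈ T.X.loc P₀ (γ.secQ q D₀ N) := by
    rw [γ.loc_secQ hfix (fun j hj => deg_bound_crit hD hq hN j hj)]
    exact T.X.mem_loc P₀ hf
  exact CurveOrd.exists_ne_zero_of_loc h1 hf0

theorem QTestConf.hilb {γ : Gam T} (χ : QTestConf γ q D₀ r) (hfix : γ.Fixes D₀)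
    (hD : T.X.deg D₀ = 105 * T.t * q) (hq : 0 < q) (hr : 8 ≤ r) {Λ : ℕ}
    (hΛ : ∀ N : ℕ, χ.F N (-(Λ * N)) = γ.secQ q D₀ (r * N) ∧ χ.F N (Λ * N + 1) = ⊥) :
    ∃ C : ℝ, ∀ N : ℕ, 1 ≤ N →
      ∑ l ∈ Ioc (-((Λ * N : ℕ) : ℤ)) ((Λ * N : ℕ) : ℤ), (CurveOrd.kdim K (χ.F N l) : ℝ) ≤
      ∑ l ∈ Ioc (-((Λ * (N - 1) : ℕ) : ℤ)) ((Λ * (N - 1) : ℕ) : ℤ),
        (CurveOrd.kdim K (χ.F (N - 1) l) : ℝ) + C * (N : ℝ) ^ 3 := by
  obtain ⟨e, he, he0⟩ := γ.exists_secQ_ne_zero hfix hD hq hr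
  exact χ.hilb_of hΛ he he0

end Pool.Agent.YTD


end

/- source: Pool.Agent.YTD.SatL2 -/

section

/-!
Consequences of the one-sided hypotheses; asymptotics of the dimensions.
-/

namespace Pool.Agent.YTD

open Finset Module MvPolynomial Filter

variable {K : Type} [Field K] [Algebra ℂ K]
variable {T : Datum K} {q : ℕ} {D₀ : T.X.Pt →₀ ℤ} {r : ℕ}

theorem mult_le {q N : ℕ} (hN : 1 ≤ q * N) (j : ℤ) : mult q N j ≤ 676 * ((q : ℝ) * N) ^ 2 := by
  have h1 : (1 : ℝ) ≤ q * N := by exact_mod_cast hN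
  unfold mult
  nlinarith [sq_nonneg (j : ℝ)]

theorem mult_sub_Wt {q N : ℕ} (hN : 1 ≤ q * N) {j : ℤ} (hj : |j| ≤ 5 * q * N) :
    mult q N j - Wt q N j ≤ 51 * ((q : ℝ) * N) +
      ((if j = ((5 * q * N : ℕ) : ℤ) then 251 * ((q : ℝ) * N) ^ 2 else 0) +
       (if j = -((5 * q * N : ℕ) : ℤ) then 251 * ((q : ℝ) * N) ^ 2 else 0)) := by
  have h1 : (1 : ℝ) ≤ q * N := by exact_mod_cast hN
  have p1 : (0 : ℝ) ≤ if j = ((5 * q * N : ℕ) : ℤ) then 251 * ((q : ℝ) * N) ^ 2 else 0 := by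
    split_ifs <;> positivity
  have p2 : (0 : ℝ) ≤ if j = -((5 * q * N : ℕ) : ℤ) then 251 * ((q : ℝ) * N) ^ 2 else 0 := by
    split_ifs <;> positivity
  by_cases h : |j| = 5 * q * N
  · rw [Wt_end h]
    have hj2 : (j : ℝ) ^ 2 = 25 * ((q : ℝ) * N) ^ 2 := by
      have : (j : ℝ) ^ 2 = ((|j| : ℤ) : ℝ) ^ 2 := by
        rw [Int.cast_abs, sq_abs]
      rw [this, h]
      push_cast
      ring
    have e : mult q N j = 625 * ((q : ℝ) * N) ^ 2 + 50 * (q * N) + 1 - 9 * (j : ℝ) ^ 2 := by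
      unfold mult
      ring
    rw [e, hj2]
    rcases abs_cases j with ⟨h2, _⟩ | ⟨h2, _⟩
    · have h3 : j = ((5 * q * N : ℕ) : ℤ) := by
        rw [← h2, h]
        push_cast
        ring
      rw [if_pos h3]
      nlinarith
    · have h3 : j = -((5 * q * N : ℕ) : ℤ) := by
        have : -j = 5 * q * N := by rw [← h2, h]
        push_cast
        linarith
      rw [if_pos h3]
      nlinarith
  · rw [Wt_mid h]
    have e : mult q N j = 625 * ((q : ℝ) * N) ^ 2 + 50 * (q * N) + 1 - 9 * (j : ℝ) ^ 2 := by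
      unfold mult
      ring
    rw [e]
    linarith

namespace Graded

variable {G : Graded T q D₀}

/-- upper bound for the total dimension. -/
theorem tot_le_Phi (hD : T.X.deg D₀ = 105 * T.t * q) (P₀ : T.X.Pt) (hq : 0 < q) :
    ∃ C : ℝ, ∀ N ≥ 4, G.tot N ≤
      ∑ j ∈ Icc (-((5 * q * N : ℕ) : ℤ)) ((5 * q * N : ℕ) : ℤ), Wt q N j * G.ub N j +
        C * N ^ 4 := by
  refine ⟨1063 * (q : ℝ) ^ 2 * (G.Λ * (105 * T.t * q)) +
    (18 * T.t + 1) * (7436 * (q : ℝ) ^ 3 * G.Λ), fun N hN => ?_⟩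
  have hqN : 1 ≤ q * N := Nat.mul_pos hq (by omega)
  have hqN' : (1 : ℝ) ≤ q * N := by exact_mod_cast hqN
  have hN1 : (1 : ℝ) ≤ N := by
    have : 1 ≤ N := by omega
    exact_mod_cast this
  refine (tot_le (G := G) hD P₀ hq hN).trans ?_
  set U : ℝ := G.Λ * N * (105 * T.t * q * N) with hU
  have hU0 : 0 ≤ U := by positivity
  set S := Icc (-((5 * q * N : ℕ) : ℤ)) ((5 * q * N : ℕ) : ℤ) with hS
  have hcard : ((S.card : ℕ) : ℝ) ≤ 11 * (q * N) := by
    rw [hS, Int.card_Icc]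
    have : (((5 * q * N : ℕ) : ℤ) + 1 - -((5 * q * N : ℕ) : ℤ)).toNat = 10 * (q * N) + 1 := by
      have e : ((5 * q * N : ℕ) : ℤ) = 5 * ((q * N : ℕ) : ℤ) := by push_cast; ring
      rw [e]
      omega
    rw [this]
    push_cast
    linarith
  -- the first sum
  have h1 : ∀ j ∈ S, mult q N j * (G.ub N j - 9 * T.t * G.nb N j) ≤ Wt q N j * G.ub N j +
      (51 * ((q : ℝ) * N) * U +
      ((if j = ((5 * q * N : ℕ) : ℤ) then 251 * ((q : ℝ) * N) ^ 2 * U else 0) +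
       (if j = -((5 * q * N : ℕ) : ℤ) then 251 * ((q : ℝ) * N) ^ 2 * U else 0))) := by
    intro j hj
    have hj' := mem_Icc_iff.1 hj
    have g1 := (mult_pos hj').le
    have g2 := nb_nonneg (G := G) hj'
    have g3 := ub_nonneg (G := G) hD hq hN hj'
    have g4 := ub_le (G := G) hD hq hN hj'
    have g5 := mult_sub_Wt hqN hj'
    have g6 : mult q N j * (G.ub N j - 9 * T.t * G.nb N j) ≤ mult q N j * G.ub N j := by
      apply mul_le_mul_of_nonneg_left _ g1
      have : (0 : ℝ) ≤ 9 * T.t * G.nb N j := by positivity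
      linarith
    have g7 : (mult q N j - Wt q N j) * G.ub N j ≤ (51 * ((q : ℝ) * N) +
      ((if j = ((5 * q * N : ℕ) : ℤ) then 251 * ((q : ℝ) * N) ^ 2 else 0) +
       (if j = -((5 * q * N : ℕ) : ℤ) then 251 * ((q : ℝ) * N) ^ 2 else 0))) * U := by
      refine (mul_le_mul_of_nonneg_right g5 g3).trans ?_
      apply mul_le_mul_of_nonneg_left g4
      have p1 : (0 : ℝ) ≤ if j = ((5 * q * N : ℕ) : ℤ) then 251 * ((q : ℝ) * N) ^ 2 else 0 := by
        split_ifs <;> positivity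
      have p2 : (0 : ℝ) ≤ if j = -((5 * q * N : ℕ) : ℤ) then 251 * ((q : ℝ) * N) ^ 2 else 0 := by
        split_ifs <;> positivity
      positivity
    have g8 : (51 * ((q : ℝ) * N) +
      ((if j = ((5 * q * N : ℕ) : ℤ) then 251 * ((q : ℝ) * N) ^ 2 else 0) +
       (if j = -((5 * q * N : ℕ) : ℤ) then 251 * ((q : ℝ) * N) ^ 2 else 0))) * U =
      (51 * ((q : ℝ) * N) * U +
      ((if j = ((5 * q * N : ℕ) : ℤ) then 251 * ((q : ℝ) * N) ^ 2 * U else 0) +
       (if j = -((5 * q * N : ℕ) : ℤ) then 251 * ((q : ℝ) * N) ^ 2 * U else 0))) := by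
      rw [add_mul, add_mul, ite_mul, ite_mul, zero_mul]
    rw [g8] at g7
    linarith
  have hmem1 : ((5 * q * N : ℕ) : ℤ) ∈ S := by
    rw [hS, mem_Icc]
    constructor
    · have : (0 : ℤ) ≤ ((5 * q * N : ℕ) : ℤ) := by positivity
      linarith
    · exact le_rfl
  have hmem2 : -((5 * q * N : ℕ) : ℤ) ∈ S := by
    rw [hS, mem_Icc]
    constructor
    · exact le_rfl
    · have : (0 : ℤ) ≤ ((5 * q * N : ℕ) : ℤ) := by positivity
      linarith
  have h2 := sum_le_sum h1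
  rw [sum_add_distrib, sum_add_distrib, sum_add_distrib, sum_ite_eq', sum_ite_eq', if_pos hmem1,
    if_pos hmem2, sum_const, nsmul_eq_mul] at h2
  have h3 : ((S.card : ℕ) : ℝ) * (51 * ((q : ℝ) * N) * U) ≤ 11 * (q * N) * (51 * (q * N) * U) :=
    mul_le_mul_of_nonneg_right hcard (by positivity)
  -- the second sum
  have h4 : G.Z N ≤ 11 * (q * N) * (676 * ((q : ℝ) * N) ^ 2 * (G.Λ * N)) := by
    unfold Z
    refine le_trans (sum_le_sum (g := fun _ => 676 * ((q : ℝ) * N) ^ 2 * (G.Λ * N)) ?_) ?_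
    · intro j hj
      have hj' := mem_Icc_iff.1 hj
      have g1 := nb_le (G := G) hj'
      have g2 := nb'_nonneg (G := G) hj'
      have g3 := nb'_le_nb (G := G) hj'
      have g4 := mult_le hqN j
      calc mult q N j * (G.nb N j - G.nb' N j) ≤ (676 * ((q : ℝ) * N) ^ 2) *
            (G.nb N j - G.nb' N j) := mul_le_mul_of_nonneg_right g4 (by linarith)
        _ ≤ (676 * ((q : ℝ) * N) ^ 2) * (G.Λ * N) :=
            mul_le_mul_of_nonneg_left (by linarith) (by positivity)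
    · rw [sum_const, nsmul_eq_mul]
      exact mul_le_mul_of_nonneg_right hcard (by positivity)
  have h5 : (18 * (T.t : ℝ) + 1) * G.Z N ≤
      (18 * T.t + 1) * (11 * (q * N) * (676 * ((q : ℝ) * N) ^ 2 * (G.Λ * N))) :=
    mul_le_mul_of_nonneg_left h4 (by positivity)
  have e1 : 11 * ((q : ℝ) * N) * (51 * (q * N) * U) + (251 * ((q : ℝ) * N) ^ 2 * U +
      251 * ((q : ℝ) * N) ^ 2 * U) = 1063 * (q : ℝ) ^ 2 * (G.Λ * (105 * T.t * q)) * N ^ 4 := by
    rw [hU]
    ring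
  have e2 : (18 * (T.t : ℝ) + 1) * (11 * (q * N) * (676 * ((q : ℝ) * N) ^ 2 * (G.Λ * N))) =
      (18 * T.t + 1) * (7436 * (q : ℝ) ^ 3 * G.Λ) * N ^ 4 := by ring
  rw [e2] at h5
  have e3 : (1063 * (q : ℝ) ^ 2 * (G.Λ * (105 * T.t * q)) +
    (18 * T.t + 1) * (7436 * (q : ℝ) ^ 3 * G.Λ)) * N ^ 4 =
    1063 * (q : ℝ) ^ 2 * (G.Λ * (105 * T.t * q)) * N ^ 4 +
    (18 * T.t + 1) * (7436 * (q : ℝ) ^ 3 * G.Λ) * N ^ 4 := by ring
  rw [e3, ← e1]
  linarith

theorem Crit.tot_le (hD : T.X.deg D₀ = 105 * T.t * q) (P₀ : T.X.Pt) (hq : 0 < q) {s₀ s₁ : ℝ}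
    (hS : G.Crit s₀ s₁) : ∃ C : ℝ, ∀ N ≥ 4, G.tot N ≤ s₀ * N ^ 5 + C * N ^ 4 := by
  obtain ⟨⟨C₀, hC₀⟩, -⟩ := hS
  obtain ⟨C, hC⟩ := tot_le_Phi (G := G) hD P₀ hq
  refine ⟨|C₀| + C, fun N hN => ?_⟩
  have h1 := hC₀ N hN
  have h2 := hC N hN
  have hN1 : (1 : ℝ) ≤ N := by
    have : 1 ≤ N := by omega
    exact_mod_cast this
  have h3 : C₀ * (N : ℝ) ^ 3 ≤ |C₀| * N ^ 4 := by
    calc C₀ * (N : ℝ) ^ 3 ≤ |C₀| * N ^ 3 := mul_le_mul_of_nonneg_right (le_abs_self _) (by positivity)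
      _ ≤ |C₀| * N ^ 4 := mul_le_mul_of_nonneg_left
          (pow_le_pow_right₀ hN1 (by norm_num)) (abs_nonneg _)
  linarith

end Graded

/-- The dimensions of the spaces of sections at the critical slope. -/
theorem dim_sec_asymp (hq : 0 < q) (hr : 0 < r) (hD : T.X.deg D₀ = 105 * T.t * q) :
    ∃ C : ℝ, ∀ᶠ N : ℕ in atTop, |(finrank ℂ (T.sec q D₀ (r * N)) : ℝ) -
      (534650 * T.t * ((r * q : ℕ) : ℝ) ^ 4) * N ^ 4| ≤ C * N ^ 2 := by
  refine ⟨5625 * T.t * (q : ℝ) ^ 2 * r ^ 2 + 400 * T.t * q * r + 9 * T.t, ?_⟩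
  have ht := T.t_pos
  have hlt : 100 * (T.t : ℤ) * q < T.X.deg D₀ := by
    rw [hD]
    have h1 : (1 : ℤ) ≤ T.t := by exact_mod_cast ht
    have h2 : (1 : ℤ) ≤ q := by exact_mod_cast hq
    nlinarith
  filter_upwards [eventually_ge_atTop (18 * T.t + 1)] with N h2
  have hN1 : (1 : ℝ) ≤ N := by
    have : 1 ≤ N := by omega
    exact_mod_cast this
  have h3 : 18 * T.t + 1 ≤ r * N := h2.trans (Nat.le_mul_of_pos_left N hr)
  have h4 := finrank_sec (T := T) (large_of_lt hlt h3)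
  have e : ((T.X.deg D₀ : ℤ) : ℝ) = 105 * T.t * q := by rw [hD]; push_cast; ring
  rw [h4, e]
  have h6 : ca0 q T.t (105 * T.t * q) * ((r * N : ℕ) : ℝ) ^ 4 + ca1 q T.t (105 * T.t * q) * ((r * N : ℕ) : ℝ) ^ 3 +
        (((-10350) * (q : ℝ) ^ 2 * T.t + 45 * q * (105 * T.t * q)) * ((r * N : ℕ) : ℝ) ^ 2 +
        ((-505) * (q : ℝ) * T.t + 1 * (105 * T.t * q)) * ((r * N : ℕ) : ℝ) ^ 1 +
        ((-9) * (T.t : ℝ)) * ((r * N : ℕ) : ℝ) ^ 0) -
      (534650 * T.t * ((r * q : ℕ) : ℝ) ^ 4) * N ^ 4 =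
      -(5625 * q ^ 2 * T.t * r ^ 2 * N ^ 2 + 400 * q * T.t * r * N + 9 * T.t) := by
    unfold ca0 ca1
    push_cast
    ring
  rw [h6, abs_neg]
  have h7 : (0 : ℝ) ≤ 5625 * q ^ 2 * T.t * r ^ 2 * N ^ 2 + 400 * q * T.t * r * N + 9 * T.t := by
    positivity
  rw [abs_of_nonneg h7]
  have hN2 : (N : ℝ) ≤ N ^ 2 := by nlinarith
  have hN3 : (1 : ℝ) ≤ N ^ 2 := by nlinarith
  have h8 : 400 * (q : ℝ) * T.t * r * N ≤ 400 * q * T.t * r * N ^ 2 :=
    mul_le_mul_of_nonneg_left hN2 (by positivity)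
  have h9 : 9 * (T.t : ℝ) ≤ 9 * T.t * N ^ 2 := by
    have : (0 : ℝ) ≤ 9 * T.t := by positivity
    nlinarith
  nlinarith

end Pool.Agent.YTD


end

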