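import Pool.Agent.YTDA.FinDefs
import Pool.Agent.YTDM.P18
import Pool.Agent.YTDM.P27

/- source: Pool.Agent.YTD.SatK3 -/

section

/-!
The dimension of the invariant part of the sections supported on a symmetric set of indices.
-/

namespace Pool.Agent.YTD

open Finset Module MvPolynomial Filter

variable {K : Type} [Field K] [Algebra ℂ K]
variable {T : Datum K} {q : ℕ} {D₀ : T.X.Pt →₀ ℤ} {r : ℕ}

theorem Datum.finite_secP (T : Datum K) (q : ℕ) (D₀ : T.X.Pt →₀ ℤ) (N : ℕ) (p : ℤ → Prop) :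
    FiniteDimensional ℂ (T.secP q D₀ N p) := by
  classical
  unfold Datum.secP
  apply finite_bigr
  intro j
  by_cases h : p j
  · rw [if_pos h]
    exact T.finite_V q D₀ N j
  · rw [if_neg h]
    infer_instance

theorem Gam.bd_secP (γ : Gam T) (hfix : γ.Fixes D₀) {N : ℕ} (p : ℤ → Prop)
    (hp : ∀ j, p j → p (-j))
    (hdeg : ∀ j, p j → |j| ≤ 5 * q * N → 2 * (T.X.genus : ℤ) + 7 ≤ T.X.deg (T.dvs q D₀ N j)) :
    T.X.Bd (T.secP q D₀ N p ⊓ γ.secQ q D₀ N) 0 := by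
  classical
  obtain ⟨P₀⟩ := T.exists_pt
  have hfin := T.finite_secP q D₀ N p
  set U : Submodule ℂ (MvPolynomial (Fin 4) K) := T.secP q D₀ N p ⊓ γ.secQ q D₀ N with hU
  have hfinU : FiniteDimensional ℂ U := Submodule.finiteDimensional_of_le inf_le_left
  set s : Finset ((_ : ℤ) × (ℕ × ℕ)) := (idx q N).filter fun i => p i.1 with hs
  let e : Fin s.card ≃ s := s.equivFin.symm
  let v : Fin s.card → MvPolynomial (Fin 4) K := fun a => monomial (uexpo q N (e a).1) 1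
  have hmem : ∀ a, (e a).1 ∈ idx q N ∧ p (e a).1.1 := fun a => mem_filter.1 (e a).2
  have hv : LinearIndependent K v := by
    have h1 := (MvPolynomial.basisMonomials (Fin 4) K).linearIndependent
    have h2 : Function.Injective fun a : Fin s.card => uexpo q N (e a).1 := by
      intro a a' h
      exact e.injective (Subtype.ext (expo_inj (hmem a).1 (hmem a').1 h))
    have h3 := h1.comp _ h2
    have h4 : v = (⇑(MvPolynomial.basisMonomials (Fin 4) K)) ∘
        (fun a : Fin s.card => uexpo q N (e a).1) := by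
      funext a
      show _ = MvPolynomial.basisMonomials (Fin 4) K (uexpo q N (e a).1)
      rw [MvPolynomial.coe_basisMonomials]
    rw [h4]
    exact h3
  have hk : CurveOrd.kdim K U ≤ s.card := by
    unfold CurveOrd.kdim
    have hle : Submodule.span K (U : Set (MvPolynomial (Fin 4) K)) ≤
        Submodule.span K (Set.range v) := by
      rw [Submodule.span_le]
      intro f hf
      have hf1 : f ∈ T.secP q D₀ N p := hf.1
      rw [T.secP_eq] at hf1
      rw [SetLike.mem_coe, f.as_sum]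
      refine sum_mem fun x hx => ?_
      have hx0 := MvPolynomial.mem_support_iff.1 hx
      obtain ⟨j, h1, h2, h3, h4⟩ := hf1 x hx0
      rw [Datum.mem_PV] at h4
      obtain ⟨h5, h6⟩ := exists_uexpo h1 h2 h3
      have h7 : (⟨j, (x 0, x 2)⟩ : (_ : ℤ) × (ℕ × ℕ)) ∈ s := by
        rw [hs, mem_filter]
        exact ⟨h5, (h4 hx0).1⟩
      have h8 : monomial x (f.coeff x) = (f.coeff x) • v (e.symm ⟨_, h7⟩) := by
        show _ = (f.coeff x) • monomial (uexpo q N (e (e.symm ⟨_, h7⟩)).1) 1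
        rw [Equiv.apply_symm_apply]
        show _ = (f.coeff x) • monomial (uexpo q N ⟨j, (x 0, x 2)⟩) 1
        rw [h6, smul_monomial, smul_eq_mul, mul_one]
      rw [h8]
      exact Submodule.smul_mem _ _ (Submodule.subset_span ⟨_, rfl⟩)
    have h9 : Module.Finite K (Submodule.span K (Set.range v)) :=
      Module.Finite.span_of_finite K (Set.finite_range v)
    refine (Submodule.finrank_mono hle).trans ?_
    refine (finrank_range_le_card v).trans ?_
    rw [Fintype.card_fin]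
  have h := T.X.bd_of_family P₀ U v hv (fun a => T.dvs q D₀ N (e a).1.1) (by
    intro a
    have h1 := hdeg _ (hmem a).2 (mem_idx.1 (hmem a).1).1
    linarith) (by
    intro a P z hz hzP
    obtain ⟨w, hw, hw0, hw1⟩ := T.X.exists_ord_eq P (D := T.dvs q D₀ N (e a).1.1)
      (by have h1 := hdeg _ (hmem a).2 (mem_idx.1 (hmem a).1).1
          linarith) P
    have e1 : z • v a = (z * w⁻¹) • (w • v a) := by
      rw [smul_smul, mul_assoc, inv_mul_cancel₀ hw0, mul_one]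
    rw [e1]
    apply T.X.smul_mem_loc
    · intro _
      rw [T.X.ord_mul P _ _ hz (inv_ne_zero hw0), T.X.ord_inv P hw0, hw1]
      linarith
    · rw [hU, γ.loc_secP_eq hfix p hp hdeg]
      apply T.X.mem_loc
      show w • monomial (uexpo q N (e a).1) 1 ∈ _
      rw [smul_monomial, smul_eq_mul, mul_one]
      unfold Datum.secP
      refine monomial_mem_bigr (mem_idx.1 (hmem a).1).1 (expo_x (hmem a).1)
        (expo_y (hmem a).1) ?_
      rw [if_pos (hmem a).2]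
      exact hw)
  rw [Nat.sub_eq_zero_of_le hk, mul_zero] at h
  exact h

/-- One eighth of the sections supported on a symmetric set of indices is invariant. -/
theorem Gam.finrank_secP_inf (γ : Gam T) (hfix : γ.Fixes D₀) {N : ℕ} (p : ℤ → Prop)
    (hp : ∀ j, p j → p (-j))
    (hdeg : ∀ j, p j → |j| ≤ 5 * q * N → 2 * (T.X.genus : ℤ) + 7 ≤ T.X.deg (T.dvs q D₀ N j)) :
    8 * finrank ℂ (T.secP q D₀ N p ⊓ γ.secQ q D₀ N : Submodule ℂ (MvPolynomial (Fin 4) K)) =
      finrank ℂ (T.secP q D₀ N p) := by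
  have h := γ.finrank_satD' (T.secP q D₀ N p ⊓ γ.secQ q D₀ N) inf_le_right
    (γ.bd_secP hfix p hp hdeg)
  rw [γ.satD_secP hfix p hp hdeg] at h
  omega

/-- the degree bound for large `N` -/
theorem deg_bound_large (hD : 100 * (T.t : ℤ) * q < T.X.deg D₀) {N : ℕ}
    (hN : 18 * T.t + 9 ≤ N) (j : ℤ) (hj : |j| ≤ 5 * q * N) :
    2 * (T.X.genus : ℤ) + 7 ≤ T.X.deg (T.dvs q D₀ N j) := by
  rw [deg_dvs, T.genus_eq]
  have h3 : max 0 (j - 4 * (q : ℤ) * N) + max 0 (-j - 4 * (q : ℤ) * N) ≤ q * N := by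
    have h0 : (0 : ℤ) ≤ q * N := by positivity
    have e : 5 * (q : ℤ) * N = 5 * (q * N) := by ring
    have e' : 4 * (q : ℤ) * N = 4 * (q * N) := by ring
    rw [e] at hj
    rw [e']
    generalize (q : ℤ) * N = a at *
    rw [abs_le] at hj
    omega
  have h4 : (0 : ℤ) ≤ 100 * T.t := by positivity
  have h5 := mul_le_mul_of_nonneg_left h3 h4
  have h6 : (1 : ℤ) ≤ T.X.deg D₀ - 100 * T.t * q := by linarith
  have h7 : (18 * (T.t : ℤ) + 9) ≤ N := by exact_mod_cast hN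
  have h8 : (N : ℤ) ≤ (T.X.deg D₀ - 100 * T.t * q) * N := by
    have : (0 : ℤ) ≤ N := by positivity
    nlinarith
  push_cast
  nlinarith

/-- The dimension of the sections of the quotient. -/
theorem Gam.finrank_secQ (γ : Gam T) (hfix : γ.Fixes D₀) {N : ℕ}
    (hdeg : ∀ j : ℤ, |j| ≤ 5 * q * N → 2 * (T.X.genus : ℤ) + 7 ≤ T.X.deg (T.dvs q D₀ N j)) :
    8 * finrank ℂ (γ.secQ q D₀ N) = finrank ℂ (T.sec q D₀ N) := by
  have h := γ.finrank_secP_inf hfix (N := N) (fun _ => True) (fun _ _ => trivial)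
    (fun j _ hj => hdeg j hj)
  rwa [T.secP_true, inf_eq_right.2 (γ.secQ_le q D₀ N)] at h

/-! ### The filtrations `filtU` -/

theorem filtU_F_eq_secP (T : Datum K) (q u : ℕ) (D₀ : T.X.Pt →₀ ℤ) (N : ℕ) (l : ℤ) :
    (filtU T q u D₀).F N l = T.secP q D₀ N (fun j => l ≤ min 0 ((u : ℤ) * N - |j|)) := by
  rw [filtU_F]
  unfold Datum.secP
  congr 1
  funext j
  by_cases h : l ≤ min 0 ((u : ℤ) * N - |j|)
  · rw [UF_pos T h, if_pos h]
  · rw [UF_neg T h, if_neg h]

/-- The test configurations of the quotients. -/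
noncomputable def testQ (γ : Gam T) (hfix : γ.Fixes D₀) (hD : 100 * (T.t : ℤ) * q < T.X.deg D₀)
    {u : ℕ} (hu : u ≤ 4 * q) : QTestConf γ q D₀ 1 :=
  (testU T hD hu).quot (filtU_gamInv γ hfix u)

theorem testQ_F (γ : Gam T) (hfix : γ.Fixes D₀) (hD : 100 * (T.t : ℤ) * q < T.X.deg D₀)
    {u : ℕ} (hu : u ≤ 4 * q) (N : ℕ) (l : ℤ) :
    (testQ γ hfix hD hu).F N l =
      T.secP q D₀ N (fun j => l ≤ min 0 ((u : ℤ) * N - |j|)) ⊓ γ.secQ q D₀ N := by
  show (filtU T q u D₀).F N l ⊓ γ.secQ q D₀ (1 * N) = _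
  rw [filtU_F_eq_secP, one_mul]

theorem finrank_testQ (γ : Gam T) (hfix : γ.Fixes D₀) (hD : 100 * (T.t : ℤ) * q < T.X.deg D₀)
    {u : ℕ} (hu : u ≤ 4 * q) {N : ℕ} (hN : 18 * T.t + 9 ≤ N) (l : ℤ) :
    (finrank ℂ ((testQ γ hfix hD hu).F N l) : ℝ) =
      (finrank ℂ ((filtU T q u D₀).F N l) : ℝ) / 8 := by
  rw [testQ_F, filtU_F_eq_secP, ← γ.finrank_secP_inf hfix _ (fun j hj => by rwa [abs_neg])
    (fun j _ hj => deg_bound_large hD hN j hj)]
  push_cast
  ring

theorem wt_testQ (γ : Gam T) (hfix : γ.Fixes D₀) (hD : 100 * (T.t : ℤ) * q < T.X.deg D₀)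
    {u : ℕ} (hu : u ≤ 4 * q) {N : ℕ} (hN : 18 * T.t + 9 ≤ N) (l : ℤ) :
    (testQ γ hfix hD hu).wt N l = (filtU T q u D₀).wt N l / 8 := by
  unfold QFilt.wt Filt.wt
  rw [finrank_testQ γ hfix hD hu hN, finrank_testQ γ hfix hD hu hN]
  ring

theorem tr_testQ (γ : Gam T) (hfix : γ.Fixes D₀) (hD : 100 * (T.t : ℤ) * q < T.X.deg D₀)
    {u : ℕ} (hu : u ≤ 4 * q) {N : ℕ} (hN : 18 * T.t + 9 ≤ N) (p : ℕ) :
    (testQ γ hfix hD hu).tr p N = (filtU T q u D₀).tr p N / 8 := by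
  unfold QFilt.tr Filt.tr
  rw [div_eq_inv_mul, ← smul_eq_mul, smul_finsum]
  refine finsum_congr fun l => ?_
  rw [wt_testQ γ hfix hD hu hN, smul_eq_mul]
  ring

theorem dimN_testQ (γ : Gam T) (hfix : γ.Fixes D₀) (hD : 100 * (T.t : ℤ) * q < T.X.deg D₀)
    {u : ℕ} (hu : u ≤ 4 * q) {N : ℕ} (hN : 18 * T.t + 9 ≤ N) :
    (testQ γ hfix hD hu).dimN N = (filtU T q u D₀).dimN N / 8 := by
  unfold QFilt.dimN Filt.dimN
  rw [one_mul, ← γ.finrank_secQ hfix (fun j hj => deg_bound_large hD hN j hj)]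
  push_cast
  ring

/-- The asymptotic expansions of `testQ`. -/
theorem expansion_testQ (γ : Gam T) (hfix : γ.Fixes D₀) (hD : 100 * (T.t : ℤ) * q < T.X.deg D₀)
    {u : ℕ} (hu : u ≤ 4 * q) :
    (testQ γ hfix hD hu).Expansion (ca0 q T.t (T.X.deg D₀ : ℤ) / 8)
      (ca1 q T.t (T.X.deg D₀ : ℤ) / 8) (cb0 q u T.t (T.X.deg D₀ : ℤ) / 8)
      (cb1 q u T.t (T.X.deg D₀ : ℤ) / 8) (cc0 q u T.t (T.X.deg D₀ : ℤ) / 8) := by
  obtain ⟨⟨C₁, h₁⟩, ⟨C₂, h₂⟩, ⟨C₃, h₃⟩⟩ := expansion_filtU T hD hu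
  have key : ∀ {a b c : ℝ}, |a - b| ≤ c → |a / 8 - b / 8| ≤ c / 8 := by
    intro a b c h
    rw [← sub_div, abs_div, abs_of_pos (by norm_num : (0 : ℝ) < 8)]
    linarith
  refine ⟨⟨C₁ / 8, ?_⟩, ⟨C₂ / 8, ?_⟩, ⟨C₃ / 8, ?_⟩⟩
  · filter_upwards [h₁, eventually_ge_atTop (18 * T.t + 9)] with N hN hN'
    rw [dimN_testQ γ hfix hD hu hN']
    have := key hN
    convert this using 1 <;> [congr 1; skip] <;> ring
  · filter_upwards [h₂, eventually_ge_atTop (18 * T.t + 9)] with N hN hN'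
    rw [tr_testQ γ hfix hD hu hN']
    have := key hN
    convert this using 1 <;> [congr 1; skip] <;> ring
  · filter_upwards [h₃, eventually_ge_atTop (18 * T.t + 9)] with N hN hN'
    rw [tr_testQ γ hfix hD hu hN']
    have := key hN
    convert this using 1 <;> [congr 1; skip] <;> ring

/-- (K): instability of the quotient near the critical slope. -/
theorem unstable_quot (γ : Gam T) {q : ℕ} (hq : 0 < q) (D₀ : T.X.Pt →₀ ℤ) (hγ : γ.Fixes D₀)
    (hD : T.X.deg D₀ = T.t * (105 * q - 1)) :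
    ∃ χ : QTestConf γ q D₀ 1, ∃ Fut : ℝ, χ.HasFutaki Fut ∧ Fut < 0 := by
  obtain ⟨u, h1, h2, _, h4⟩ := exists_u q
  have ht := T.t_pos
  have hD' : 100 * (T.t : ℤ) * q < T.X.deg D₀ := by
    rw [hD]
    have h5 : (1 : ℤ) ≤ q := by exact_mod_cast hq
    have h6 : (1 : ℤ) ≤ T.t := by exact_mod_cast ht
    nlinarith
  have e : ((T.X.deg D₀ : ℤ) : ℝ) = T.t * (105 * q - 1) := by
    rw [hD]
    push_cast
    ring
  refine ⟨testQ γ hγ hD' h4, _, ⟨_, _, _, _, _, expansion_testQ γ hγ hD' h4, rfl⟩, ?_⟩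
  have h5 := fut_neg hq ht h1 h2
  rw [e]
  refine lt_of_eq_of_lt ?_ h5
  rw [div_pow]
  generalize ca0 q T.t (T.t * (105 * q - 1)) = x0
  generalize ca1 q T.t (T.t * (105 * q - 1)) = x1
  generalize cb0 q u T.t (T.t * (105 * q - 1)) = y0
  generalize cb1 q u T.t (T.t * (105 * q - 1)) = y1
  rcases eq_or_ne x0 0 with rfl | h0
  · simp
  · field_simp

end Pool.Agent.YTD


end

/- source: Pool.Agent.YTD.SatK4 -/

section

/-!
The quotients with critical polarization are not uniformly K-stable.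
-/

namespace Pool.Agent.YTD

open Finset Module MvPolynomial Filter

variable {K : Type} [Field K] [Algebra ℂ K]
variable {T : Datum K} {q : ℕ} {D₀ : T.X.Pt →₀ ℤ} {r : ℕ}

/-- The maximal weight of the filtration, divided by the degree:
`m` is the supremum of `l / N` over all `N ≥ 1` and `l` with `F N l ≠ 0`. -/
def QFilt.HasMaxWeight {γ : Gam T} (χ : QFilt γ q D₀ r) (m : ℝ) : Prop :=
  IsLUB {x : ℝ | ∃ (N : ℕ) (l : ℤ), 0 < N ∧ χ.F N l ≠ ⊥ ∧ x = l / N} m

/-- `J` is the value of the non-archimedean `J`-functional at `χ`, the difference of the maximal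
and the average (normalized) weight. -/
def QFilt.HasJ {γ : Gam T} (χ : QFilt γ q D₀ r) (J : ℝ) : Prop :=
  ∃ m a₀ a₁ b₀ b₁ c₀ : ℝ, χ.HasMaxWeight m ∧ χ.Expansion a₀ a₁ b₀ b₁ c₀ ∧ J = (m - b₀ / a₀) / r

theorem Gam.secQ_mul (γ : Gam T) (q : ℕ) (D₀ : T.X.Pt →₀ ℤ) (r N : ℕ) :
    γ.secQ (r * q) (r • D₀) N = γ.secQ q D₀ (r * N) := by
  ext f
  rw [Gam.mem_secQ, Gam.mem_secQ, T.sec_mul]

/-- Regard a filtration of exponent one for `L^r` as a filtration of exponent `r` for `L`. -/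
noncomputable def QFilt.desc {γ : Gam T} (χ : QFilt γ (r * q) (r • D₀) 1) : QFilt γ q D₀ r where
  F := χ.F
  le N l := by
    have h := χ.le N l
    rw [γ.secQ_mul, one_mul] at h
    exact h
  anti := χ.anti
  mul := χ.mul
  bound := by
    obtain ⟨Λ, hΛ⟩ := χ.bound
    refine ⟨Λ, fun N => ?_⟩
    have h := hΛ N
    rw [γ.secQ_mul, one_mul] at h
    exact h

theorem QFilt.desc_expansion {γ : Gam T} {χ : QFilt γ (r * q) (r • D₀) 1}
    {a₀ a₁ b₀ b₁ c₀ : ℝ} (h : χ.Expansion a₀ a₁ b₀ b₁ c₀) :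
    χ.desc.Expansion a₀ a₁ b₀ b₁ c₀ := by
  have e1 : χ.desc.dimN = χ.dimN := by
    funext N
    unfold QFilt.dimN
    rw [γ.secQ_mul, one_mul]
  have e2 : χ.desc.tr = χ.tr := rfl
  unfold QFilt.Expansion at h ⊢
  rw [e1, e2]
  exact h

/-- Regard a test configuration of exponent one for `L^r` as one of exponent `r` for `L`. -/
noncomputable def QTestConf.desc {γ : Gam T} (χ : QTestConf γ (r * q) (r • D₀) 1) :
    QTestConf γ q D₀ r where
  toQFilt := χ.toQFilt.desc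
  fg := χ.fg

/-- zero is the maximal weight of `testQ`. -/
theorem testQ_maxWeight (γ : Gam T) (hfix : γ.Fixes D₀) (hD : 100 * (T.t : ℤ) * q < T.X.deg D₀)
    {u : ℕ} (hu : u ≤ 4 * q) : (testQ γ hfix hD hu).HasMaxWeight 0 := by
  obtain ⟨hub, -⟩ := filtU_maxWeight (T := T) (D₀ := D₀) hD u
  constructor
  · rintro x ⟨N, l, hN, hF, rfl⟩
    refine hub ⟨N, l, hN, ?_, rfl⟩
    intro h
    apply hF
    rw [testQ_F, ← filtU_F_eq_secP, h, bot_inf_eq]
  · intro b hb
    apply hb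
    set N : ℕ := 18 * T.t + 9 with hN
    refine ⟨N, 0, by omega, ?_, by simp⟩
    have hj : |(0 : ℤ)| ≤ 5 * q * N := by
      rw [abs_zero]
      positivity
    have h0 := deg_bound_large (q := q) hD (N := N) le_rfl 0 hj
    obtain ⟨c, hc, hc0⟩ := Submodule.exists_mem_ne_zero_of_ne_bot
      (T.X.L_ne_bot (D := T.dvs q D₀ N 0) (by linarith))
    have h1 : monomial (Finsupp.single 0 (25 * q * N) + Finsupp.single 2 (25 * q * N)) c ∈
        (filtU T q u D₀).F N 0 := by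
      rw [filtU_F]
      refine monomial_mem_bigr (j := 0) hj ?_ ?_ ?_
      · simp
      · simp
      · rw [UF_pos]
        · exact hc
        · simp only [abs_zero, sub_zero]
          apply le_min le_rfl
          positivity
    intro h
    have h2 := finrank_testQ γ hfix hD hu (N := N) le_rfl 0
    have h3 : (testQ γ hfix hD hu).F N 0 = ⊥ := h
    rw [h3, finrank_bot] at h2
    have h4 : finrank ℂ ((filtU T q u D₀).F N 0) = 0 := by
      have : (finrank ℂ ((filtU T q u D₀).F N 0) : ℝ) = 0 := by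
        rw [Nat.cast_zero] at h2
        linarith
      exact_mod_cast this
    have hfin : FiniteDimensional ℂ ((filtU T q u D₀).F N 0) := by
      rw [filtU_F_eq_secP]
      exact T.finite_secP _ _ _ _
    rw [Submodule.finrank_eq_zero] at h4
    rw [h4, Submodule.mem_bot, monomial_eq_zero] at h1
    exact hc0 h1

theorem QFilt.desc_maxWeight {γ : Gam T} {χ : QFilt γ (r * q) (r • D₀) 1} {m : ℝ}
    (h : χ.HasMaxWeight m) : χ.desc.HasMaxWeight m := h

/-- At the critical slope there are test configurations of the quotient with arbitrarily small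
Futaki invariant and with `J` and the norm bounded from below. -/
theorem exists_small_fut_quot (γ : Gam T) {q : ℕ} (hq : 0 < q) (D₀ : T.X.Pt →₀ ℤ)
    (hγ : γ.Fixes D₀) (hD : T.X.deg D₀ = 105 * T.t * q) {ε : ℝ} (hε : 0 < ε) :
    ∃ r : ℕ, 0 < r ∧ ∃ χ : QTestConf γ q D₀ r,
      ∃ a₀ a₁ b₀ b₁ c₀ : ℝ, χ.Expansion a₀ a₁ b₀ b₁ c₀ ∧ χ.HasMaxWeight 0 ∧
        0 < (a₁ * b₀ - a₀ * b₁) / a₀ ^ 2 ∧ (a₁ * b₀ - a₀ * b₁) / a₀ ^ 2 < ε ∧
        1 / 20 ≤ (0 - b₀ / a₀) / r ∧ 1 / 160 ≤ (c₀ - b₀ ^ 2 / a₀) / r ^ 6 := by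
  obtain ⟨n, hn⟩ := exists_nat_gt (1 / ε)
  set r : ℕ := max 38 (n + 1) with hr
  have hr38 : 38 ≤ r := le_max_left _ _
  have hrn : n + 1 ≤ r := le_max_right _ _
  have hr0 : 0 < r := by omega
  obtain ⟨u, h1, h2, h3, h4⟩ := exists_u (r * q)
  have hq1 : (1 : ℤ) ≤ q := by exact_mod_cast hq
  have ht1 : (1 : ℤ) ≤ T.t := by exact_mod_cast T.t_pos
  have hr1 : (1 : ℤ) ≤ r := by exact_mod_cast hr0
  have hdeg : T.X.deg (r • D₀) = 105 * T.t * ((r * q : ℕ) : ℤ) := by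
    rw [T.X.deg_nsmul, hD]
    push_cast
    ring
  have hD' : 100 * (T.t : ℤ) * ((r * q : ℕ) : ℤ) < T.X.deg (r • D₀) := by
    rw [hdeg]
    have : (0 : ℤ) < T.t * ((r * q : ℕ) : ℤ) := by positivity
    linarith
  have he : ((T.X.deg (r • D₀) : ℤ) : ℝ) = 105 * T.t * ((r * q : ℕ) : ℝ) := by
    rw [hdeg]
    push_cast
    ring
  have hexp := expansion_testQ γ (hγ.nsmul r) hD' h4
  rw [he] at hexp
  have hQ : 38 ≤ r * q := le_trans hr38 (Nat.le_mul_of_pos_right r hq)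
  have hnum := numbers (Q := r * q) (u := u) (t := T.t) (q := q) (r := r)
    (by exact_mod_cast hq) (by exact_mod_cast hr0) (by push_cast; ring) T.t_pos h1 h2 h4 hQ
    rfl rfl rfl rfl
  obtain ⟨n1, n2, n3, n4, n5⟩ := hnum
  have n3' := n3 (irr (by omega))
  have ha0 : (0 : ℝ) < ca0 (r * q) T.t (105 * T.t * ((r * q : ℕ) : ℝ)) := by
    rw [ca0_crit]
    have h5 : (0 : ℝ) < T.t := by exact_mod_cast T.t_pos
    have h6 : (0 : ℝ) < ((r * q : ℕ) : ℝ) := by exact_mod_cast (by omega : 0 < r * q)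
    positivity
  have hfut : (ca1 (r * q) T.t (105 * T.t * ((r * q : ℕ) : ℝ)) / 8 *
      (cb0 (r * q) u T.t (105 * T.t * ((r * q : ℕ) : ℝ)) / 8) -
      ca0 (r * q) T.t (105 * T.t * ((r * q : ℕ) : ℝ)) / 8 *
      (cb1 (r * q) u T.t (105 * T.t * ((r * q : ℕ) : ℝ)) / 8)) /
      (ca0 (r * q) T.t (105 * T.t * ((r * q : ℕ) : ℝ)) / 8) ^ 2 =
      -cb1 (r * q) u T.t (105 * T.t * ((r * q : ℕ) : ℝ)) /
        ca0 (r * q) T.t (105 * T.t * ((r * q : ℕ) : ℝ)) := by
    rw [ca1_crit, div_eq_div_iff (by positivity) (by positivity)]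
    ring
  refine ⟨r, hr0, (testQ γ (hγ.nsmul r) hD' h4).desc, _, _, _, _, _,
    QFilt.desc_expansion hexp,
    QFilt.desc_maxWeight (testQ_maxWeight γ (hγ.nsmul r) hD' h4), ?_, ?_, ?_, ?_⟩
  · rw [hfut]
    exact n3'
  · rw [hfut]
    refine lt_of_le_of_lt n2 ?_
    have h7 : (1 : ℝ) / ε < ((r * q : ℕ) : ℝ) := by
      have : ((n + 1 : ℕ) : ℝ) ≤ ((r * q : ℕ) : ℝ) := by
        exact_mod_cast le_trans hrn (Nat.le_mul_of_pos_right r hq)
      push_cast at this ⊢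
      linarith
    rw [div_lt_iff₀ (by positivity)]
    rw [div_lt_iff₀ hε] at h7
    linarith
  · have e : cb0 (r * q) u T.t (105 * T.t * ((r * q : ℕ) : ℝ)) / 8 /
        (ca0 (r * q) T.t (105 * T.t * ((r * q : ℕ) : ℝ)) / 8) =
        cb0 (r * q) u T.t (105 * T.t * ((r * q : ℕ) : ℝ)) /
        ca0 (r * q) T.t (105 * T.t * ((r * q : ℕ) : ℝ)) := by
      rw [div_div_div_cancel_right₀ (by norm_num)]
    rw [e]
    exact n4
  · have e : (cc0 (r * q) u T.t (105 * T.t * ((r * q : ℕ) : ℝ)) / 8 -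
        (cb0 (r * q) u T.t (105 * T.t * ((r * q : ℕ) : ℝ)) / 8) ^ 2 /
        (ca0 (r * q) T.t (105 * T.t * ((r * q : ℕ) : ℝ)) / 8)) / (r : ℝ) ^ 6 =
        (cc0 (r * q) u T.t (105 * T.t * ((r * q : ℕ) : ℝ)) -
        cb0 (r * q) u T.t (105 * T.t * ((r * q : ℕ) : ℝ)) ^ 2 /
        ca0 (r * q) T.t (105 * T.t * ((r * q : ℕ) : ℝ))) / (r : ℝ) ^ 6 / 8 := by
      field_simp
    rw [e]
    have : (1 : ℝ) / 160 = 1 / 20 / 8 := by norm_num
    rw [this]
    exact div_le_div_of_nonneg_right n5 (by norm_num)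

/-- The quotient is uniformly K-stable: `Fut ≥ ε J` for some `ε > 0` and all of its test
configurations. -/
def UniformlyStableQ (γ : Gam T) (q : ℕ) (D₀ : T.X.Pt →₀ ℤ) : Prop :=
  ∃ ε : ℝ, 0 < ε ∧ ∀ (r : ℕ), 0 < r → ∀ χ : QTestConf γ q D₀ r,
    ∀ J Fut : ℝ, χ.HasJ J → χ.HasFutaki Fut → ε * J ≤ Fut

/-- The quotients with critical polarization are not uniformly K-stable. -/
theorem not_uniformlyStableQ (γ : Gam T) {q : ℕ} (hq : 0 < q) (D₀ : T.X.Pt →₀ ℤ)
    (hγ : γ.Fixes D₀) (hD : T.X.deg D₀ = 105 * T.t * q) : ¬ UniformlyStableQ γ q D₀ := by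
  rintro ⟨ε, hε, h⟩
  obtain ⟨r, hr, χ, a₀, a₁, b₀, b₁, c₀, hE, hm, -, hf, hJ, -⟩ :=
    exists_small_fut_quot γ hq D₀ hγ hD (ε := ε / 20) (by positivity)
  have h1 := h r hr χ _ _ ⟨0, a₀, a₁, b₀, b₁, c₀, hm, hE, rfl⟩ ⟨a₀, a₁, b₀, b₁, c₀, hE, rfl⟩
  have h2 : ε * (1 / 20) ≤ ε * ((0 - b₀ / a₀) / r) := mul_le_mul_of_nonneg_left hJ hε.le
  linarith

end Pool.Agent.YTD


end

/- source: Pool.Agent.YTDA.KStabIso -/

section

/-!
# K-stability only depends on the graded ring of sections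

Transport of test configurations of a polarized manifold `(M, L)` along an isomorphism of its
section ring with the ring `⊕ secQ N`.
-/

namespace Pool.Agent.YTDA

open Complex Set Topology ContDiff Manifold Module MvPolynomial
open Pool.Agent.YTD

noncomputable section

namespace LineBundle

variable {n : ℕ} {M : Type} [TopologicalSpace M] [ChartedSpace (E n) M] (L : LineBundle n M)

theorem H0_mul {k k' : ℕ} {f f' : L.ι → M → ℂ} (hf : f ∈ L.H0 k) (hf' : f' ∈ L.H0 k') :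
    f * f' ∈ L.H0 (k + k') := by
  obtain ⟨h1, h2, h3⟩ := hf
  obtain ⟨h1', h2', h3'⟩ := hf'
  refine ⟨fun i x hx => ?_, fun i => (h2 i).mul (h2' i), fun i j x hx => ?_⟩
  · rw [Pi.mul_apply, Pi.mul_apply, h1 i x hx, zero_mul]
  · rw [Pi.mul_apply, Pi.mul_apply, Pi.mul_apply, Pi.mul_apply, h3 i j x hx, h3' i j x hx, pow_add]
    ring

/-- An isomorphism of the ring of sections with a graded ring. -/
structure RingIso {B : Type} [CommRing B] [Algebra ℂ B] (S : ℕ → Submodule ℂ B) where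
  Φ : ∀ k, L.H0 k ≃ₗ[ℂ] S k
  mul : ∀ (k k' : ℕ) (f : L.H0 k) (f' : L.H0 k') (h : f.1 * f'.1 ∈ L.H0 (k + k')),
    (Φ (k + k') ⟨f.1 * f'.1, h⟩ : B) = Φ k f * Φ k' f'

namespace RingIso

variable {L} {B : Type} [CommRing B] [Algebra ℂ B] {S : ℕ → Submodule ℂ B} (R : L.RingIso S)

open Classical in
/-- The isomorphism, extended by zero. -/
def φ (k : ℕ) (f : L.ι → M → ℂ) : B := if h : f ∈ L.H0 k then (R.Φ k ⟨f, h⟩ : B) else 0

theorem φ_of_mem {k : ℕ} {f : L.ι → M → ℂ} (h : f ∈ L.H0 k) : R.φ k f = (R.Φ k ⟨f, h⟩ : B) :=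
  dif_pos h

theorem φ_mem {k : ℕ} {f : L.ι → M → ℂ} (h : f ∈ L.H0 k) : R.φ k f ∈ S k := by
  rw [R.φ_of_mem h]
  exact (R.Φ k ⟨f, h⟩).2

theorem φ_add {k : ℕ} {f f' : L.ι → M → ℂ} (h : f ∈ L.H0 k) (h' : f' ∈ L.H0 k) :
    R.φ k (f + f') = R.φ k f + R.φ k f' := by
  rw [R.φ_of_mem h, R.φ_of_mem h', R.φ_of_mem (add_mem h h')]
  have e : (⟨f + f', add_mem h h'⟩ : L.H0 k) = ⟨f, h⟩ + ⟨f', h'⟩ := rfl
  rw [e, map_add]
  rfl

theorem φ_smul {k : ℕ} {f : L.ι → M → ℂ} (h : f ∈ L.H0 k) (c : ℂ) :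
    R.φ k (c • f) = c • R.φ k f := by
  rw [R.φ_of_mem h, R.φ_of_mem ((L.H0 k).smul_mem c h)]
  have e : (⟨c • f, (L.H0 k).smul_mem c h⟩ : L.H0 k) = c • ⟨f, h⟩ := rfl
  rw [e, map_smul]
  rfl

theorem φ_zero (k : ℕ) : R.φ k 0 = 0 := by
  have h := R.φ_smul (L.H0 k).zero_mem 0
  rw [zero_smul, zero_smul] at h
  exact h

theorem φ_mul {k k' : ℕ} {f f' : L.ι → M → ℂ} (h : f ∈ L.H0 k) (h' : f' ∈ L.H0 k') :
    R.φ (k + k') (f * f') = R.φ k f * R.φ k' f' := by
  rw [R.φ_of_mem h, R.φ_of_mem h', R.φ_of_mem (L.H0_mul h h')]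
  exact R.mul k k' ⟨f, h⟩ ⟨f', h'⟩ (L.H0_mul h h')

theorem exists_of_mem {k : ℕ} {y : B} (hy : y ∈ S k) : ∃ f ∈ L.H0 k, R.φ k f = y := by
  refine ⟨((R.Φ k).symm ⟨y, hy⟩ : L.H0 k), Subtype.coe_prop _, ?_⟩
  rw [R.φ_of_mem (Subtype.coe_prop _)]
  simp

/-- The image of a space of sections. -/
def im (k : ℕ) (W : Submodule ℂ (L.ι → M → ℂ)) : Submodule ℂ B :=
  (W.comap (L.H0 k).subtype).map ((S k).subtype ∘ₗ (R.Φ k : L.H0 k →ₗ[ℂ] S k))

theorem mem_im {k : ℕ} {W : Submodule ℂ (L.ι → M → ℂ)} {y : B} :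
    y ∈ R.im k W ↔ ∃ f ∈ W, f ∈ L.H0 k ∧ R.φ k f = y := by
  unfold im
  rw [Submodule.mem_map]
  constructor
  · rintro ⟨f, hf, rfl⟩
    refine ⟨f.1, hf, f.2, ?_⟩
    rw [R.φ_of_mem f.2]
    rfl
  · rintro ⟨f, hf, hf', rfl⟩
    refine ⟨⟨f, hf'⟩, hf, ?_⟩
    rw [R.φ_of_mem hf']
    rfl

theorem im_mono {k : ℕ} {W W' : Submodule ℂ (L.ι → M → ℂ)} (h : W ≤ W') : R.im k W ≤ R.im k W' := by
  intro y hy
  obtain ⟨f, hf, hf', rfl⟩ := R.mem_im.1 hy
  exact R.mem_im.2 ⟨f, h hf, hf', rfl⟩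

theorem im_le (k : ℕ) (W : Submodule ℂ (L.ι → M → ℂ)) : R.im k W ≤ S k := by
  intro y hy
  obtain ⟨f, _, hf', rfl⟩ := R.mem_im.1 hy
  exact R.φ_mem hf'

theorem im_H0 (k : ℕ) : R.im k (L.H0 k) = S k := by
  apply le_antisymm (R.im_le k _)
  intro y hy
  obtain ⟨f, hf, rfl⟩ := R.exists_of_mem hy
  exact R.mem_im.2 ⟨f, hf, hf, rfl⟩

theorem im_bot (k : ℕ) : R.im k ⊥ = ⊥ := by
  rw [eq_bot_iff]
  intro y hy
  obtain ⟨f, hf, _, rfl⟩ := R.mem_im.1 hy
  rw [(Submodule.mem_bot ℂ).1 hf, R.φ_zero]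
  exact zero_mem _

theorem finrank_im {k : ℕ} {W : Submodule ℂ (L.ι → M → ℂ)} (hW : W ≤ L.H0 k) :
    finrank ℂ (R.im k W) = finrank ℂ W := by
  have hinj : Function.Injective ((S k).subtype ∘ₗ (R.Φ k : L.H0 k →ₗ[ℂ] S k)) := by
    intro x y hxy
    exact (R.Φ k).injective (Subtype.ext hxy)
  have e1 := (Submodule.equivMapOfInjective _ hinj (W.comap (L.H0 k).subtype)).finrank_eq
  have e2 := (Submodule.comapSubtypeEquivOfLe hW).finrank_eq
  unfold im
  rw [← e1, e2]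

include R in
theorem finrank_eq (k : ℕ) : finrank ℂ (L.H0 k) = finrank ℂ (S k) :=
  LinearEquiv.finrank_eq (R.Φ k)

end RingIso

variable {K : Type} [Field K] [Algebra ℂ K] {T : Datum K} {q : ℕ} {D₀ : T.X.Pt →₀ ℤ}

/-- The sections of degree zero are the constants. -/
theorem sec_zero_le (T : Datum K) (q : ℕ) (D₀ : T.X.Pt →₀ ℤ) {f : MvPolynomial (Fin 4) K}
    (hf : f ∈ T.sec q D₀ 0) : ∃ c : ℂ, f = c • (1 : MvPolynomial (Fin 4) K) := by
  obtain ⟨P₀⟩ := T.exists_pt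
  have h0 : ∀ e, f.coeff e ≠ 0 → e = 0 ∧ f.coeff e ∈ T.X.L 0 := by
    intro e he
    obtain ⟨j, h1, h2, h3, h4⟩ := hf e he
    have hj : j = 0 := by simpa using h1
    subst hj
    simp only [Nat.cast_zero, mul_zero, add_zero, sub_zero] at h2 h3
    refine ⟨?_, ?_⟩
    · ext i
      have a0 : e 0 = 0 := by omega
      have a1 : e 1 = 0 := by omega
      have a2 : e 2 = 0 := by omega
      have a3 : e 3 = 0 := by omega
      fin_cases i
      · exact a0
      · exact a1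
      · exact a2
      · exact a3
    · have h5 : T.dvs q D₀ 0 0 = 0 := by
        unfold Datum.dvs
        simp
      unfold Datum.V at h4
      rwa [h5] at h4
  by_cases hf0 : f.coeff 0 = 0
  · refine ⟨0, ?_⟩
    rw [zero_smul]
    ext e
    rw [coeff_zero]
    by_contra he
    rw [(h0 e he).1] at he
    exact he hf0
  · obtain ⟨c, hc⟩ := T.X.exists_const P₀ (h0 0 hf0).2
    refine ⟨c, ?_⟩
    ext e
    rw [coeff_smul, coeff_one]
    by_cases he : 0 = e
    · rw [if_pos he, ← he, hc, Algebra.smul_def, mul_one]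
    · rw [if_neg he, smul_zero]
      by_contra h1
      exact he (h0 e h1).1.symm

variable {L} {γ : Gam T}

/-- The products of generators. -/
theorem RingIso.prod_pow (R : L.RingIso (γ.secQ q D₀)) {r : ℕ} (χ : L.TestConfiguration r) {p : ℕ}
    {m : Fin p → ℕ} {w : Fin p → ℤ} {f : Fin p → L.ι → M → ℂ} (hf : ∀ i, f i ∈ χ.F (m i) (w i)) :
    ∀ (N : ℕ) (e : Fin p → ℕ), ∑ i, e i = N + 1 →
      ∏ i, f i ^ e i ∈ χ.F (∑ i, e i * m i) (∑ i, (e i : ℤ) * w i) ∧
      R.φ (r * ∑ i, e i * m i) (∏ i, f i ^ e i) = ∏ i, R.φ (r * m i) (f i) ^ e i := by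
  classical
  intro N
  induction N with
  | zero =>
    intro e he
    obtain ⟨i₀, hi₀⟩ : ∃ i, e i ≠ 0 := by
      by_contra hcon
      push Not at hcon
      rw [Finset.sum_eq_zero fun i _ => hcon i] at he
      omega
    have h1 : e = Pi.single i₀ 1 := by
      funext i
      have h2 := Finset.add_sum_erase Finset.univ e (Finset.mem_univ i₀)
      by_cases hi : i = i₀
      · rw [hi, Pi.single_eq_same]
        omega
      · rw [Pi.single_eq_of_ne hi]
        have h3 := Finset.single_le_sum (f := e) (fun _ _ => Nat.zero_le _)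
          (Finset.mem_erase.2 ⟨hi, Finset.mem_univ i⟩)
        omega
    have s1 : ∀ v : Fin p → ℕ, ∑ i, (Pi.single i₀ 1 : Fin p → ℕ) i * v i = v i₀ := by
      intro v
      rw [Finset.sum_eq_single i₀]
      · rw [Pi.single_eq_same, one_mul]
      · intro j _ hj
        rw [Pi.single_eq_of_ne hj, zero_mul]
      · intro h
        exact (h (Finset.mem_univ _)).elim
    have s2 : ∑ i, (((Pi.single i₀ 1 : Fin p → ℕ) i : ℕ) : ℤ) * w i = w i₀ := by
      rw [Finset.sum_eq_single i₀]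
      · rw [Pi.single_eq_same, Nat.cast_one, one_mul]
      · intro j _ hj
        rw [Pi.single_eq_of_ne hj, Nat.cast_zero, zero_mul]
      · intro h
        exact (h (Finset.mem_univ _)).elim
    have s3 : ∀ {C : Type} [CommRing C] (x : Fin p → C),
        ∏ i, x i ^ (Pi.single i₀ 1 : Fin p → ℕ) i = x i₀ := by
      intro C _ x
      rw [Finset.prod_eq_single i₀]
      · rw [Pi.single_eq_same, pow_one]
      · intro j _ hj
        rw [Pi.single_eq_of_ne hj, pow_zero]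
      · intro h
        exact (h (Finset.mem_univ _)).elim
    rw [h1, s1, s2, s3, s3]
    exact ⟨hf i₀, rfl⟩
  | succ N ih =>
    intro e he
    obtain ⟨i₀, hi₀⟩ : ∃ i, e i ≠ 0 := by
      by_contra hcon
      push Not at hcon
      rw [Finset.sum_eq_zero fun i _ => hcon i] at he
      omega
    set e' : Fin p → ℕ := Function.update e i₀ (e i₀ - 1) with he'
    have hupd : ∀ i, e i = e' i + (if i = i₀ then 1 else 0) := by
      intro i
      by_cases hi : i = i₀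
      · subst hi
        rw [he', Function.update_self, if_pos rfl]
        omega
      · rw [he', Function.update_of_ne hi, if_neg hi, add_zero]
    have hs : ∑ i, e' i = N + 1 := by
      have h1 : ∑ i, e i = ∑ i, e' i + 1 := by
        rw [Finset.sum_congr rfl fun i _ => hupd i, Finset.sum_add_distrib]
        simp
      omega
    obtain ⟨h1, h2⟩ := ih e' hs
    have s1 : ∑ i, e i * m i = ∑ i, e' i * m i + m i₀ := by
      have : ∀ i, e i * m i = e' i * m i + (if i = i₀ then m i else 0) := by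
        intro i
        rw [hupd i, add_mul]
        split_ifs <;> simp
      rw [Finset.sum_congr rfl fun i _ => this i, Finset.sum_add_distrib]
      simp
    have s2 : ∑ i, (e i : ℤ) * w i = ∑ i, (e' i : ℤ) * w i + w i₀ := by
      have : ∀ i, (e i : ℤ) * w i = (e' i : ℤ) * w i + (if i = i₀ then w i else 0) := by
        intro i
        rw [hupd i]
        push_cast
        split_ifs <;> ring
      rw [Finset.sum_congr rfl fun i _ => this i, Finset.sum_add_distrib]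
      simp
    have s3 : ∀ {C : Type} [CommRing C] (x : Fin p → C),
        ∏ i, x i ^ e i = (∏ i, x i ^ e' i) * x i₀ := by
      intro C _ x
      have : ∀ i, x i ^ e i = x i ^ e' i * (if i = i₀ then x i else 1) := by
        intro i
        rw [hupd i]
        split_ifs with h
        · rw [pow_add, pow_one]
        · rw [add_zero, mul_one]
      rw [Finset.prod_congr rfl fun i _ => this i, Finset.prod_mul_distrib]
      simp
    rw [s1, s2, s3, s3]
    refine ⟨χ.mul _ _ _ _ _ h1 _ (hf i₀), ?_⟩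
    rw [mul_add, R.φ_mul (χ.le _ _ h1) (χ.le _ _ (hf i₀)), h2]

/-- The test configuration of the graded ring. -/
def RingIso.toQ (R : L.RingIso (γ.secQ q D₀)) {r : ℕ} (χ : L.TestConfiguration r) :
    QTestConf γ q D₀ r where
  F k l := R.im (r * k) (χ.F k l)
  le k l := R.im_le _ _
  anti k l l' h := R.im_mono (χ.anti k l l' h)
  mul := by
    intro k k' l l' x hx y hy
    obtain ⟨f, hf, hf', rfl⟩ := R.mem_im.1 hx
    obtain ⟨g, hg, hg', rfl⟩ := R.mem_im.1 hy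
    rw [mul_add, R.mem_im]
    exact ⟨f * g, χ.mul _ _ _ _ f hf g hg, L.H0_mul hf' hg', R.φ_mul hf' hg'⟩
  bound := by
    obtain ⟨b, hb⟩ := χ.bound
    refine ⟨b, fun k => ⟨?_, ?_⟩⟩
    · rw [(hb k).1, R.im_H0]
    · rw [(hb k).2, R.im_bot]
  fg := by
    classical
    obtain ⟨p, m, w, f, hf, hspan⟩ := χ.fg
    refine ⟨p, m, w, fun i => R.φ (r * m i) (f i), fun i =>
      R.mem_im.2 ⟨f i, hf i, χ.le _ _ (hf i), rfl⟩, ?_⟩
    intro k l y hy
    obtain ⟨x, hx, hx', rfl⟩ := R.mem_im.1 hy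
    rcases Nat.eq_zero_or_pos k with rfl | hk
    · -- degree zero
      rcases le_or_gt l 0 with hl | hl
      · have h1 := R.φ_mem hx'
        rw [mul_zero] at h1 ⊢
        obtain ⟨c, hc⟩ := sec_zero_le T q D₀ (γ.secQ_le q D₀ 0 h1)
        rw [hc]
        apply Submodule.smul_mem
        apply Submodule.subset_span
        refine ⟨0, ?_, ?_, ?_⟩
        · simp
        · simpa using hl
        · simp
      · obtain ⟨b, hb⟩ := χ.bound
        have h1 := (hb 0).2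
        have h2 : x ∈ χ.F 0 (b * (0 : ℕ) + 1) := χ.anti 0 _ _ (by
          push_cast
          rw [mul_zero, zero_add]
          omega) hx
        rw [h1, Submodule.mem_bot] at h2
        rw [h2, R.φ_zero]
        exact zero_mem _
    · have h1 := hspan k l hx
      clear hy hx
      -- the linear span
      have key : ∀ z ∈ Submodule.span ℂ {g | ∃ e : Fin p → ℕ,
          ∑ i, e i * m i = k ∧ l ≤ ∑ i, e i * w i ∧ g = ∏ i, f i ^ e i},
          z ∈ L.H0 (r * k) ∧ R.φ (r * k) z ∈ Submodule.span ℂ {g | ∃ e : Fin p → ℕ,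
          ∑ i, e i * m i = k ∧ l ≤ ∑ i, e i * w i ∧ g = ∏ i, R.φ (r * m i) (f i) ^ e i} := by
        intro z hz
        induction hz using Submodule.span_induction with
        | mem z h =>
          obtain ⟨e, e1, e2, rfl⟩ := h
          obtain ⟨N, hN⟩ : ∃ N, ∑ i, e i = N + 1 := by
            refine ⟨∑ i, e i - 1, ?_⟩
            have h3 : ∑ i, e i ≠ 0 := by
              intro h4
              rw [Finset.sum_eq_zero_iff] at h4
              rw [Finset.sum_eq_zero fun i _ => by rw [h4 i (Finset.mem_univ i), zero_mul]] at e1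
              omega
            omega
          obtain ⟨h5, h6⟩ := R.prod_pow χ hf N e hN
          rw [e1] at h5 h6
          refine ⟨χ.le _ _ h5, ?_⟩
          rw [h6]
          exact Submodule.subset_span ⟨e, e1, e2, rfl⟩
        | zero =>
          rw [R.φ_zero]
          exact ⟨zero_mem _, zero_mem _⟩
        | add z z' _ _ h h' =>
          rw [R.φ_add h.1 h'.1]
          exact ⟨add_mem h.1 h'.1, add_mem h.2 h'.2⟩
        | smul c z _ h =>
          rw [R.φ_smul h.1]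
          exact ⟨Submodule.smul_mem _ _ h.1, Submodule.smul_mem _ _ h.2⟩
      exact (key x h1).2

theorem RingIso.toQ_F (R : L.RingIso (γ.secQ q D₀)) {r : ℕ} (χ : L.TestConfiguration r) (k : ℕ)
    (l : ℤ) : (R.toQ χ).F k l = R.im (r * k) (χ.F k l) := rfl

theorem RingIso.toQ_wt (R : L.RingIso (γ.secQ q D₀)) {r : ℕ} (χ : L.TestConfiguration r) (k : ℕ)
    (l : ℤ) : (R.toQ χ).wt k l = χ.wt k l := by
  unfold QFilt.wt TestConfiguration.wt
  rw [R.toQ_F, R.toQ_F, R.finrank_im (χ.le k l), R.finrank_im (χ.le k (l + 1))]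

theorem RingIso.toQ_tr (R : L.RingIso (γ.secQ q D₀)) {r : ℕ} (χ : L.TestConfiguration r)
    (p k : ℕ) : (R.toQ χ).tr p k = χ.tr p k := by
  unfold QFilt.tr TestConfiguration.tr
  simp only [R.toQ_wt]

theorem RingIso.toQ_dimN (R : L.RingIso (γ.secQ q D₀)) {r : ℕ} (χ : L.TestConfiguration r)
    (k : ℕ) : (R.toQ χ).dimN k = finrank ℂ (L.H0 (r * k)) := by
  unfold QFilt.dimN
  rw [R.finrank_eq]

end LineBundle

/-- K-stability of a polarized fourfold whose ring of sections is isomorphic to `⊕ secQ N`. -/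
theorem LineBundle.kStable_of_ringIso {M : Type} [TopologicalSpace M] [ChartedSpace (E 4) M]
    {L : LineBundle 4 M} {K : Type} [Field K] [Algebra ℂ K] {T : Datum K} {q : ℕ}
    {D₀ : T.X.Pt →₀ ℤ} {γ : Gam T} (R : L.RingIso (γ.secQ q D₀))
    (hfut : ∀ r : ℕ, 0 < r → ∀ (χ : QTestConf γ q D₀ r) (a₀ a₁ b₀ b₁ c₀ : ℝ),
      χ.Expansion a₀ a₁ b₀ b₁ c₀ → 0 < c₀ - b₀ ^ 2 / a₀ →
      0 < (a₁ * b₀ - a₀ * b₁) / a₀ ^ 2) : L.KStable := by
  intro r hr χ a₀ a₁ b₀ b₁ c₀ hE hn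
  have hr' : (0 : ℝ) < r := by exact_mod_cast hr
  refine hfut r hr (R.toQ χ) a₀ a₁ b₀ b₁ c₀ ?_ ?_
  · obtain ⟨⟨C₁, h₁⟩, ⟨C₂, h₂⟩, ⟨C₃, h₃⟩⟩ := hE
    refine ⟨⟨C₁, ?_⟩, ⟨C₂, ?_⟩, ⟨C₃, ?_⟩⟩
    · filter_upwards [h₁, Filter.eventually_gt_atTop 0] with k hk hk0
      have hk' : (0 : ℝ) < k := by exact_mod_cast hk0
      rw [R.toQ_dimN]
      have e1 : a₀ * (k : ℝ) ^ 4 + a₁ * k ^ 3 = k ^ 4 * (a₀ + a₁ / k) := by
        field_simp
      have e2 : C₁ * (k : ℝ) ^ 2 = C₁ * (k ^ 4 / k ^ 2) := by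
        field_simp
      rw [e1, e2]
      exact hk
    · filter_upwards [h₂, Filter.eventually_gt_atTop 0] with k hk hk0
      have hk' : (0 : ℝ) < k := by exact_mod_cast hk0
      rw [R.toQ_tr]
      have e1 : b₀ * (k : ℝ) ^ 5 + b₁ * k ^ 4 = k ^ (4 + 1) * (b₀ + b₁ / k) := by
        have h7 : (k : ℝ) ^ (4 + 1) * (b₁ / k) = b₁ * k ^ 4 := by
          rw [pow_succ]
          field_simp
        rw [mul_add, h7]
        ring
      have e2 : C₂ * (k : ℝ) ^ 3 = C₂ * (k ^ (4 + 1) / k ^ 2) := by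
        have h7 : (k : ℝ) ^ (4 + 1) = k ^ 3 * k ^ 2 := by ring
        rw [h7, mul_div_assoc, div_self (by positivity), mul_one]
      rw [e1, e2]
      exact hk
    · filter_upwards [h₃] with k hk
      rw [R.toQ_tr]
      exact hk
  · have h6 : (0 : ℝ) < r ^ (4 + 2) := by positivity
    rcases div_pos_iff.1 hn with h | h
    · exact h.1
    · linarith [h.2]

end

end Pool.Agent.YTDA


end

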