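import Pool.Agent.YTDM.P27

/- source: Pool.Agent.YTD.SatG -/

section

/-!
The first cohomology of the sheaf generated by a level of a filtration of the section ring of the
quotient.
-/

namespace Pool.Agent.YTD

open Finset Module MvPolynomial Filter

variable {K : Type} [Field K] [Algebra ℂ K]
variable {T : Datum K} {q : ℕ} {D₀ : T.X.Pt →₀ ℤ} {r : ℕ}

/-- multiplication by a nonzero polynomial preserves linear independence over `K`. -/
theorem linearIndependent_mul {ι : Type} {w : ι → MvPolynomial (Fin 4) K}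
    (hw : LinearIndependent K w) {e : MvPolynomial (Fin 4) K} (he : e ≠ 0) :
    LinearIndependent K (fun i => e * w i) := by
  have h := hw.map' (LinearMap.mulLeft K e) (LinearMap.ker_eq_bot.2 (mul_right_injective₀ he))
  exact h

/-- the local sections `z x^e` with `j = 0`. -/
theorem Datum.smul_monomial_mem_loc {M : ℕ}
    (hdeg : 2 * (T.X.genus : ℤ) ≤ T.X.deg (T.dvs q D₀ M 0)) (P : T.X.Pt) {z : K} (hz0 : z ≠ 0)
    (hz : -((M • D₀) P) ≤ T.X.ord P z) :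
    z • (monomial (expo q M 0 0 0) (1 : K)) ∈ T.X.loc P (T.sec q D₀ M) := by
  have hin : InR q M 0 0 0 := by
    refine ⟨by rw [abs_zero]; positivity, ?_, ?_⟩
    · have : (0 : ℤ) ≤ (q : ℤ) * M := by positivity
      push_cast
      linarith
    · have : (0 : ℤ) ≤ (q : ℤ) * M := by positivity
      push_cast
      linarith
  obtain ⟨f, hf, hf0, hford⟩ := T.X.exists_ord_eq P hdeg P
  have h1 : monomial (expo q M 0 0 0) f ∈ T.sec q D₀ M := T.monomial_mem_sec hin hf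
  have h2 : z • (monomial (expo q M 0 0 0) (1 : K)) =
      (z / f) • (monomial (expo q M 0 0 0) f) := by
    rw [smul_monomial, smul_monomial]
    congr 1
    rw [smul_eq_mul, smul_eq_mul, mul_one, div_mul_cancel₀ _ hf0]
  rw [h2]
  apply T.X.smul_mem_loc
  · intro _
    have h3 : T.X.ord P z = T.X.ord P (z / f) + T.X.ord P f := by
      rw [← T.X.ord_mul P _ _ (div_ne_zero hz0 hf0) hf0, div_mul_cancel₀ _ hf0]
    rw [dvs_zero] at hford
    linarith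
  · exact T.X.mem_loc P h1

theorem QFilt.bd_level {γ : Gam T} (χ : QFilt γ q D₀ r) (hfix : γ.Fixes D₀)
    (hD : T.X.deg D₀ = 105 * T.t * q) (hq : 0 < q) (hr : 8 ≤ r) {Λ : ℕ}
    (hΛ : ∀ N : ℕ, χ.F N (-(Λ * N)) = γ.secQ q D₀ (r * N) ∧ χ.F N (Λ * N + 1) = ⊥)
    {N : ℕ} (hN : 1 ≤ N) (l : ℤ) :
    T.X.Bd (χ.F N l) (T.X.genus * (CurveOrd.kdim K (χ.F N l) -
      CurveOrd.kdim K (χ.F (N - 1) (l + Λ)))) := by
  obtain ⟨P₀, _⟩ : ∃ P : T.X.Pt, P ∈ T.S := by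
    have h1 := T.card_S
    have h2 := T.t_pos
    have h3 : 0 < T.S.card := by omega
    exact Finset.card_pos.1 h3
  have hfin := χ.finite_F N l
  have hfin' := χ.finite_F (N - 1) (l + Λ)
  have hdeg := deg_bound_crit hD hq hr
  have hdeg0 : 2 * (T.X.genus : ℤ) + 7 ≤ T.X.deg (T.dvs q D₀ r 0) :=
    hdeg 0 (by rw [abs_zero]; positivity)
  obtain ⟨w, hwU, hw, -⟩ := Curve.exists_basis (K := K) (χ.F (N - 1) (l + Λ))
  set e : MvPolynomial (Fin 4) K := monomial (expo q r 0 0 0) 1 with he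
  have he0 : e ≠ 0 := by
    rw [he]
    exact (monomial_eq_zero (s := expo q r 0 0 0) (b := (1 : K))).not.2 one_ne_zero
  refine T.X.bd_of_family P₀ (χ.F N l) (fun i => e * w i) (linearIndependent_mul hw he0)
    (fun _ => r • D₀) (fun _ => ?_) ?_
  · rw [dvs_zero] at hdeg0
    linarith
  · intro i P z hz0 hz
    have h1 := Datum.smul_monomial_mem_loc (q := q) (by linarith) P hz0 hz
    rw [← γ.loc_secQ hfix hdeg P] at h1
    have h2 := T.X.mul_mem_loc h1 (T.X.mem_loc P (hwU i))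
    rw [smul_mul_assoc] at h2
    refine T.X.loc_mono P ?_ h2
    rw [Submodule.mul_le]
    intro s hs u hu
    have h3 : s ∈ χ.F 1 (-(Λ * (1 : ℕ))) := by
      rw [(hΛ 1).1, mul_one]
      exact hs
    have h4 := χ.mul _ _ _ _ s h3 u hu
    have e1 : 1 + (N - 1) = N := by omega
    have e2 : -((Λ : ℤ) * (1 : ℕ)) + (l + Λ) = l := by
      push_cast
      ring
    rw [e1, e2] at h4
    exact h4

end Pool.Agent.YTD


end

/- source: Pool.Agent.YTD.SatI4 -/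

section

namespace Pool.Agent.YTD

open Finset Module MvPolynomial Filter

variable {K : Type} [Field K] [Algebra ℂ K]
variable {T : Datum K} {q : ℕ} {D₀ : T.X.Pt →₀ ℤ} {r : ℕ}

/-- Levelwise approximation by filtrations of small volume. -/
theorem QFilt.exists_level' {γ : Gam T} {Λ : ℕ} (χ : QFilt γ q D₀ r) (hfix : γ.Fixes D₀)
    (hD : T.X.deg D₀ = 105 * T.t * q) (hq : 0 < q) (hr : 8 ≤ r)
    (hΛ : ∀ N : ℕ, χ.F N (-(Λ * N)) = γ.secQ q D₀ (r * N) ∧ χ.F N (Λ * N + 1) = ⊥) (N : ℕ) :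
    ∃ G : Filt T q D₀ r, (∀ l, G.F N l = (χ.sat hfix hD hq hr).F N l) ∧
      (∀ M : ℕ, G.F M (-(Λ * M)) = T.sec q D₀ (r * M) ∧ G.F M (Λ * M + 1) = ⊥) ∧
      ∃ c : ℕ, ∀ (M : ℕ) (l : ℤ),
        finrank ℂ (G.F M l) ≤ 8 * finrank ℂ (χ.F (M + c) (l - Λ * c)) := by
  obtain ⟨P₀⟩ := T.exists_pt
  exact χ.exists_level hfix hD hq hr hΛ (fun U _ => T.X.exists_satD_le P₀ U) N

end Pool.Agent.YTD


end

/- source: Pool.Agent.YTD.SatL3 -/

section

/-!
The traces of the filtrations of the section rings of the quotients as sums of dimensions.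
-/

namespace Pool.Agent.YTD

open Finset Module MvPolynomial Filter

/-! ### Abel summation -/

/-- first moments -/
theorem abel_sum (h : ℤ → ℝ) (M : ℕ) (h1 : ∀ l, (M : ℤ) < l → h l = 0) :
    ∑ l ∈ Icc (-(M : ℤ)) M, (h l - h (l + 1)) = h (-M) ∧
    ∑ l ∈ Icc (-(M : ℤ)) M, (l : ℝ) * (h l - h (l + 1)) =
      ∑ l ∈ Ioc (-(M : ℤ)) M, h l - M * h (-M) := by
  have key : ∀ (c : ℤ) (m : ℕ), ∑ i ∈ range (m + 1),
      (((i : ℤ) - c : ℤ) : ℝ) * (h ((i : ℤ) - c) - h ((i : ℤ) - c + 1)) =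
      ∑ i ∈ range m, h ((i : ℤ) + 1 - c) - c * h (-c) - ((m : ℝ) - c) * h ((m : ℤ) - c + 1) := by
    intro c m
    induction m with
    | zero =>
      simp
      ring
    | succ M ih =>
      rw [sum_range_succ, ih, sum_range_succ]
      push_cast
      have e1 : (M : ℤ) + 1 - c = (M : ℤ) - c + 1 := by ring
      rw [e1]
      ring
  have key0 : ∀ (c : ℤ) (m : ℕ), ∑ i ∈ range (m + 1),
      (h ((i : ℤ) - c) - h ((i : ℤ) - c + 1)) = h (-c) - h ((m : ℤ) - c + 1) := by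
    intro c m
    induction m with
    | zero => simp
    | succ M ih =>
      rw [sum_range_succ, ih]
      push_cast
      have e1 : (M : ℤ) + 1 - c = (M : ℤ) - c + 1 := by ring
      rw [e1]
      ring
  constructor
  · rw [← sum_range_eq_Icc M (fun l => h l - h (l + 1)), key0]
    rw [h1 (((2 * M : ℕ) : ℤ) - M + 1) (by push_cast; linarith), sub_zero]
  · rw [← sum_range_eq_Icc M (fun l => (l : ℝ) * (h l - h (l + 1))), key,
      ← Filt.sum_range_eq_Ioc M h]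
    rw [h1 (((2 * M : ℕ) : ℤ) - M + 1) (by push_cast; linarith)]
    push_cast
    ring

/-- the moments as finite sums -/
theorem finsum_eq_Icc (h : ℤ → ℝ) (M : ℕ) (h0 : ∀ l, l ≤ -(M : ℤ) → h l = h (-M))
    (h1 : ∀ l, (M : ℤ) < l → h l = 0) (p : ℕ) :
    ∑ᶠ l : ℤ, (l : ℝ) ^ p * (h l - h (l + 1)) =
      ∑ l ∈ Icc (-(M : ℤ)) M, (l : ℝ) ^ p * (h l - h (l + 1)) := by
  apply finsum_eq_sum_of_support_subset
  intro l hl
  rw [Function.mem_support] at hl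
  rw [Finset.coe_Icc, Set.mem_Icc]
  constructor
  · by_contra h2
    apply hl
    rw [h0 l (by linarith), h0 (l + 1) (by omega), sub_self, mul_zero]
  · by_contra h2
    apply hl
    rw [h1 l (by linarith), h1 (l + 1) (by linarith), sub_self, mul_zero]

variable {K : Type} [Field K] [Algebra ℂ K]
variable {T : Datum K} {q : ℕ} {D₀ : T.X.Pt →₀ ℤ} {r : ℕ}

namespace QFilt

variable {γ : Gam T} (χ : QFilt γ q D₀ r)

/-- the total dimension in the window given by `L`. -/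
noncomputable def totL (L : ℕ) (N : ℕ) : ℝ :=
  ∑ l ∈ Ioc (-((L * N : ℕ) : ℤ)) ((L * N : ℕ) : ℤ), (finrank ℂ (χ.F N l) : ℝ)

/-- `L` is a bound for the filtration. -/
def Bdd (L : ℕ) : Prop :=
  ∀ N : ℕ, χ.F N (-(L * N)) = γ.secQ q D₀ (r * N) ∧ χ.F N (L * N + 1) = ⊥

variable {L : ℕ} (hL : χ.Bdd L)

include hL in
theorem Bdd.F_of_le {N : ℕ} {l : ℤ} (h : l ≤ -(((L * N : ℕ)) : ℤ)) :
    χ.F N l = γ.secQ q D₀ (r * N) := by
  apply le_antisymm (χ.le N l)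
  rw [← (hL N).1]
  exact χ.anti N _ _ (by push_cast at h; exact h)

include hL in
theorem Bdd.F_of_gt {N : ℕ} {l : ℤ} (h : ((L * N : ℕ) : ℤ) < l) : χ.F N l = ⊥ := by
  rw [eq_bot_iff, ← (hL N).2]
  exact χ.anti N _ _ (by push_cast at h; linarith)

include hL in
theorem Bdd.tr_eq (p N : ℕ) : χ.tr p N =
    ∑ l ∈ Icc (-((L * N : ℕ) : ℤ)) ((L * N : ℕ) : ℤ), (l : ℝ) ^ p * χ.wt N l := by
  unfold tr wt
  apply finsum_eq_Icc (fun l => (finrank ℂ (χ.F N l) : ℝ))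
  · intro l hl
    rw [Bdd.F_of_le χ hL hl, Bdd.F_of_le χ hL le_rfl]
  · intro l hl
    rw [Bdd.F_of_gt χ hL hl, finrank_bot, Nat.cast_zero]

include hL in
theorem Bdd.dimN_eq (N : ℕ) : χ.dimN N =
    ∑ l ∈ Icc (-((L * N : ℕ) : ℤ)) ((L * N : ℕ) : ℤ), χ.wt N l := by
  unfold wt
  rw [(abel_sum (fun l => (finrank ℂ (χ.F N l) : ℝ)) (L * N) (fun l hl => by
    rw [Bdd.F_of_gt χ hL hl, finrank_bot, Nat.cast_zero])).1, Bdd.F_of_le χ hL le_rfl]
  rfl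

include hL in
theorem Bdd.tr_one (N : ℕ) : χ.tr 1 N = χ.totL L N - L * N * χ.dimN N := by
  rw [Bdd.tr_eq χ hL]
  simp only [pow_one]
  unfold wt
  rw [(abel_sum (fun l => (finrank ℂ (χ.F N l) : ℝ)) (L * N) (fun l hl => by
    rw [Bdd.F_of_gt χ hL hl, finrank_bot, Nat.cast_zero])).2, Bdd.F_of_le χ hL le_rfl]
  unfold totL dimN
  push_cast
  ring

theorem finite_F' (N : ℕ) (l : ℤ) : FiniteDimensional ℂ (χ.F N l) := by
  obtain ⟨P₀⟩ := T.exists_pt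
  have := T.finite_sec P₀ q D₀ (r * N)
  exact Submodule.finiteDimensional_of_le ((χ.le N l).trans (γ.secQ_le q D₀ (r * N)))

theorem wt_nonneg (N : ℕ) (l : ℤ) : 0 ≤ χ.wt N l := by
  have := χ.finite_F' N l
  have h := Submodule.finrank_mono (χ.anti N l (l + 1) (by linarith))
  unfold wt
  have h' : (finrank ℂ (χ.F N (l + 1)) : ℝ) ≤ finrank ℂ (χ.F N l) := by exact_mod_cast h
  linarith

include hL in
/-- expansion of the total dimension -/
theorem Bdd.tot_exp {a₀ a₁ b₀ b₁ c₀ : ℝ} (h : χ.Expansion a₀ a₁ b₀ b₁ c₀) :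
    ∃ C : ℝ, ∀ᶠ N : ℕ in atTop, |χ.totL L N - ((b₀ + L * a₀) * N ^ 5 + (b₁ + L * a₁) * N ^ 4)| ≤
      C * N ^ 3 := by
  obtain ⟨⟨C₁, h1⟩, ⟨C₂, h2⟩, _⟩ := h
  refine ⟨C₂ + L * C₁, ?_⟩
  filter_upwards [h1, h2] with N g1 g2
  have e := Bdd.tr_one χ hL N
  have hlam : (0 : ℝ) ≤ L * N := by positivity
  have g3 : |(L : ℝ) * N * χ.dimN N - L * N * (a₀ * N ^ 4 + a₁ * N ^ 3)| ≤
      L * N * (C₁ * N ^ 2) := by
    rw [← mul_sub, abs_mul, abs_of_nonneg hlam]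
    exact mul_le_mul_of_nonneg_left g1 hlam
  rw [abs_le] at g2 g3 ⊢
  rw [e] at g2
  constructor <;> nlinarith [g2.1, g2.2, g3.1, g3.2]

/-! ### `K`-dimensions -/

theorem finite_KB (N : ℕ) (l : ℤ) : FiniteDimensional K (χ.KB N l) := by
  classical
  have hfin : ((fun i => monomial (uexpo q (r * N) i) (1 : K)) ''
      (idx q (r * N) : Set _)).Finite := (idx q (r * N)).finite_toSet.image _
  have : FiniteDimensional K (Submodule.span K
    ((fun i => monomial (uexpo q (r * N) i) (1 : K)) '' (idx q (r * N) : Set _))) :=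
    FiniteDimensional.span_of_finite K hfin
  exact Submodule.finiteDimensional_of_le (χ.KB_le N l)

include hL in
theorem Bdd.kdim_le {e : MvPolynomial (Fin 4) K} (he : e ∈ γ.secQ q D₀ r) (he0 : e ≠ 0)
    {N : ℕ} (hN : 1 ≤ N) (l : ℤ) :
    CurveOrd.kdim K (χ.F (N - 1) (l + L)) ≤ CurveOrd.kdim K (χ.F N l) := by
  have he' : e ∈ χ.F 1 (-(L : ℤ)) := by
    have h := (hL 1).1
    rw [Nat.cast_one, mul_one, mul_one] at h
    rw [h]
    exact he
  have hinj : Function.Injective (LinearMap.mulLeft K e) := by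
    intro x y hxy
    exact mul_left_cancel₀ he0 hxy
  have := χ.finite_KB N l
  have h1 : finrank K ((χ.KB (N - 1) (l + L)).map (LinearMap.mulLeft K e)) =
      finrank K (χ.KB (N - 1) (l + L)) :=
    (LinearEquiv.finrank_eq (Submodule.equivMapOfInjective _ hinj _)).symm
  have h2 : (χ.KB (N - 1) (l + L)).map (LinearMap.mulLeft K e) ≤ χ.KB N l := by
    rintro _ ⟨x, hx, rfl⟩
    have h3 := χ.KB_mul 1 (N - 1) (-(L : ℤ)) (l + L) e (Submodule.subset_span he') x hx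
    have e1 : 1 + (N - 1) = N := by omega
    have e2 : -(L : ℤ) + (l + L) = l := by ring
    rw [e1, e2] at h3
    exact h3
  have h3 := Submodule.finrank_mono h2
  rw [h1] at h3
  exact h3

end QFilt

end Pool.Agent.YTD


end

/- source: Pool.Agent.YTD.SatL4 -/

section

/-!
The one-sided hypotheses on the total dimension for the saturated filtration.
-/

namespace Pool.Agent.YTD

open Finset Module MvPolynomial Filter

variable {K : Type} [Field K] [Algebra ℂ K]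
variable {T : Datum K} {q : ℕ} {D₀ : T.X.Pt →₀ ℤ} {r : ℕ}

variable {γ : Gam T} {L : ℕ}

/-- the sum of the bounds for the first cohomology -/
theorem QTestConf.sum_h (χ : QTestConf γ q D₀ r) (hfix : γ.Fixes D₀)
    (hD : T.X.deg D₀ = 105 * T.t * q) (hq : 0 < q) (hr : 8 ≤ r) (hL : χ.toQFilt.Bdd L) :
    ∃ C : ℝ, ∀ N : ℕ, 1 ≤ N → ∑ l ∈ Ioc (-((L * N : ℕ) : ℤ)) ((L * N : ℕ) : ℤ),
      ((T.X.genus * (CurveOrd.kdim K (χ.F N l) -
        CurveOrd.kdim K (χ.F (N - 1) (l + L))) : ℕ) : ℝ) ≤ C * (N : ℝ) ^ 3 := by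
  obtain ⟨C, hC⟩ := χ.hilb hfix hD hq hr hL
  obtain ⟨e, he, he0⟩ := γ.exists_secQ_ne_zero hfix hD hq hr
  refine ⟨T.X.genus * C, fun N hN => ?_⟩
  have h1 := hC N hN
  have hk : ∀ l : ℤ, CurveOrd.kdim K (χ.F (N - 1) (l + L)) ≤ CurveOrd.kdim K (χ.F N l) :=
    fun l => QFilt.Bdd.kdim_le χ.toQFilt hL he he0 hN l
  have h2 : ∀ l : ℤ, ((T.X.genus * (CurveOrd.kdim K (χ.F N l) -
      CurveOrd.kdim K (χ.F (N - 1) (l + L))) : ℕ) : ℝ) = T.X.genus *
      ((CurveOrd.kdim K (χ.F N l) : ℝ) - CurveOrd.kdim K (χ.F (N - 1) (l + L))) := by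
    intro l
    rw [Nat.cast_mul, Nat.cast_sub (hk l)]
  rw [sum_congr rfl (fun l _ => h2 l), ← mul_sum, sum_sub_distrib, mul_assoc]
  apply mul_le_mul_of_nonneg_left _ (by positivity)
  have h3 : ∑ l ∈ Ioc (-((L * (N - 1) : ℕ) : ℤ)) ((L * (N - 1) : ℕ) : ℤ),
      (CurveOrd.kdim K (χ.F (N - 1) l) : ℝ) ≤
      ∑ l ∈ Ioc (-((L * N : ℕ) : ℤ)) ((L * N : ℕ) : ℤ),
        (CurveOrd.kdim K (χ.F (N - 1) (l + L)) : ℝ) := by
    have e1 : ∑ l ∈ Ioc (-((L * N : ℕ) : ℤ)) ((L * N : ℕ) : ℤ),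
        (CurveOrd.kdim K (χ.F (N - 1) (l + L)) : ℝ) =
        ∑ l ∈ (Ioc (-((L * N : ℕ) : ℤ)) ((L * N : ℕ) : ℤ)).map (addRightEmbedding (L : ℤ)),
          (CurveOrd.kdim K (χ.F (N - 1) l) : ℝ) := by
      rw [sum_map]
      rfl
    rw [e1]
    apply sum_le_sum_of_subset_of_nonneg
    · intro l hl
      rw [mem_Ioc] at hl
      rw [Finset.mem_map]
      refine ⟨l - L, ?_, by rw [addRightEmbedding_apply]; ring⟩
      rw [mem_Ioc]
      obtain ⟨N', rfl⟩ : ∃ N', N = N' + 1 := ⟨N - 1, by omega⟩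
      rw [Nat.add_sub_cancel] at hl
      push_cast at hl ⊢
      constructor
      · linarith [hl.1]
      · have : (0 : ℤ) ≤ L := by positivity
        linarith [hl.2]
    · intro _ _ _
      positivity
  linarith

/-- the total dimension of the saturated filtration -/
theorem QTestConf.tot_le_sat (χ : QTestConf γ q D₀ r) (hfix : γ.Fixes D₀)
    (hD : T.X.deg D₀ = 105 * T.t * q) (hq : 0 < q) (hr : 8 ≤ r) (hL : χ.toQFilt.Bdd L) :
    ∃ C : ℝ, ∀ N : ℕ, 1 ≤ N →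
      8 * χ.toQFilt.totL L N ≤ (χ.toQFilt.sat hfix hD hq hr).totL L N + C * (N : ℝ) ^ 3 := by
  obtain ⟨C, hC⟩ := χ.sum_h hfix hD hq hr hL
  refine ⟨7 * C, fun N hN => ?_⟩
  have h1 := hC N hN
  have h2 : ∀ l : ℤ, 8 * (finrank ℂ (χ.F N l) : ℝ) ≤
      (finrank ℂ ((χ.toQFilt.sat hfix hD hq hr).F N l) : ℝ) +
      7 * ((T.X.genus * (CurveOrd.kdim K (χ.F N l) -
        CurveOrd.kdim K (χ.F (N - 1) (l + L))) : ℕ) : ℝ) := by
    intro l
    have g1 := γ.finrank_satD hfix (χ.F N l) (χ.le N l)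
      (χ.toQFilt.bd_level hfix hD hq hr hL hN l)
    obtain ⟨P₀⟩ := T.exists_pt
    have g2 := T.finite_sec P₀ q D₀ (r * N)
    have g3 : FiniteDimensional ℂ (T.X.satD 0 (χ.F N l) ⊓ γ.secQ q D₀ (r * N) :
        Submodule ℂ (MvPolynomial (Fin 4) K)) :=
      Submodule.finiteDimensional_of_le (inf_le_right.trans (γ.secQ_le q D₀ (r * N)))
    have g4 := Submodule.finrank_mono (le_inf (T.X.le_satD (χ.F N l)) (χ.le N l))
    have g5 : (χ.toQFilt.sat hfix hD hq hr).F N l = T.X.satD 0 (χ.F N l) := rfl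
    rw [g5]
    have g6 : 8 * finrank ℂ (χ.F N l) ≤ finrank ℂ (T.X.satD 0 (χ.F N l)) +
        7 * (T.X.genus * (CurveOrd.kdim K (χ.F N l) -
        CurveOrd.kdim K (χ.F (N - 1) (l + L)))) :=
      (Nat.mul_le_mul_left 8 g4).trans g1.1
    exact_mod_cast g6
  have h3 := sum_le_sum (s := Ioc (-((L * N : ℕ) : ℤ)) ((L * N : ℕ) : ℤ)) (fun l _ => h2 l)
  rw [← mul_sum, sum_add_distrib, ← mul_sum] at h3
  unfold QFilt.totL Filt.totL
  linarith

/-- the lower half of the one-sided hypotheses -/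
theorem QTestConf.lowHyp (χ : QTestConf γ q D₀ r) (hfix : γ.Fixes D₀)
    (hD : T.X.deg D₀ = 105 * T.t * q) (hq : 0 < q) (hr : 8 ≤ r) (hL : χ.toQFilt.Bdd L)
    {a₀ a₁ b₀ b₁ c₀ : ℝ} (hE : χ.Expansion a₀ a₁ b₀ b₁ c₀) :
    (χ.toQFilt.sat hfix hD hq hr).LowHyp L (8 * (b₀ + L * a₀)) (8 * (b₁ + L * a₁)) := by
  obtain ⟨C, hC⟩ := χ.tot_le_sat hfix hD hq hr hL
  obtain ⟨C', hC'⟩ := QFilt.Bdd.tot_exp χ.toQFilt hL hE
  refine ⟨8 * C' + C, ?_⟩
  filter_upwards [hC', eventually_ge_atTop 1] with N g1 g2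
  have g3 := hC N g2
  have g4 := (abs_le.1 g1).1
  nlinarith

/-- the upper half of the one-sided hypotheses -/
theorem QTestConf.upHyp (χ : QTestConf γ q D₀ r) (hfix : γ.Fixes D₀)
    (hD : T.X.deg D₀ = 105 * T.t * q) (hq : 0 < q) (hr : 8 ≤ r) (hL : χ.toQFilt.Bdd L)
    {a₀ a₁ b₀ b₁ c₀ : ℝ} (hE : χ.Expansion a₀ a₁ b₀ b₁ c₀) :
    (χ.toQFilt.sat hfix hD hq hr).UpHyp L (8 * (b₀ + L * a₀)) := by
  intro N
  obtain ⟨G, h1, h2, c, h3⟩ := χ.toQFilt.exists_level' hfix hD hq hr hL N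
  refine ⟨G, h2, h1, ?_⟩
  obtain ⟨C', hC'⟩ := QFilt.Bdd.tot_exp χ.toQFilt hL hE
  set s₀ : ℝ := b₀ + L * a₀
  set s₁ : ℝ := b₁ + L * a₁
  have h4 : ∀ M : ℕ, G.totL L M ≤ 8 * χ.toQFilt.totL L (M + c) := by
    intro M
    unfold Filt.totL QFilt.totL
    rw [mul_sum]
    have g1 : ∑ l ∈ Ioc (-((L * M : ℕ) : ℤ)) ((L * M : ℕ) : ℤ), (finrank ℂ (G.F M l) : ℝ) ≤
        ∑ l ∈ Ioc (-((L * M : ℕ) : ℤ)) ((L * M : ℕ) : ℤ),
          8 * (finrank ℂ (χ.F (M + c) (l - L * c)) : ℝ) :=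
      sum_le_sum fun l _ => by exact_mod_cast h3 M l
    refine g1.trans ?_
    have e1 : ∑ l ∈ Ioc (-((L * M : ℕ) : ℤ)) ((L * M : ℕ) : ℤ),
        8 * (finrank ℂ (χ.F (M + c) (l - L * c)) : ℝ) =
        ∑ l ∈ (Ioc (-((L * M : ℕ) : ℤ)) ((L * M : ℕ) : ℤ)).map
          (addRightEmbedding (-(L * c : ℤ))), 8 * (finrank ℂ (χ.F (M + c) l) : ℝ) := by
      rw [sum_map]
      rfl
    rw [e1]
    apply sum_le_sum_of_subset_of_nonneg
    · intro l hl
      rw [Finset.mem_map] at hl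
      obtain ⟨l', hl', rfl⟩ := hl
      rw [mem_Ioc] at hl'
      rw [addRightEmbedding_apply, mem_Ioc]
      have g2 : (0 : ℤ) ≤ L * c := by positivity
      push_cast at hl' ⊢
      constructor
      · linarith [hl'.1]
      · linarith [hl'.2]
    · intro _ _ _
      positivity
  -- the polynomial estimate
  have hev := (tendsto_add_atTop_nat c).eventually hC'
  refine ⟨8 * (|s₀| * (31 * (1 + c) ^ 5) + (|s₁| + |C'|) * (1 + c) ^ 4), ?_⟩
  filter_upwards [hev, eventually_ge_atTop 1] with M g1 g2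
  have g3 := h4 M
  have g4 := (abs_le.1 g1).2
  have hM : (1 : ℝ) ≤ M := by exact_mod_cast g2
  have hc : (0 : ℝ) ≤ c := by positivity
  have p1 : ((M + c : ℕ) : ℝ) ≤ M * (1 + c) := by
    push_cast
    nlinarith
  have p0 : (0 : ℝ) ≤ ((M + c : ℕ) : ℝ) := by positivity
  have q1 : s₁ * ((M + c : ℕ) : ℝ) ^ 4 ≤ |s₁| * (1 + c) ^ 4 * M ^ 4 := by
    calc s₁ * ((M + c : ℕ) : ℝ) ^ 4 ≤ |s₁| * ((M + c : ℕ) : ℝ) ^ 4 :=
          mul_le_mul_of_nonneg_right (le_abs_self _) (by positivity)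
      _ ≤ |s₁| * (M * (1 + c)) ^ 4 := mul_le_mul_of_nonneg_left
          (pow_le_pow_left₀ p0 p1 4) (abs_nonneg _)
      _ = _ := by ring
  have q2 : C' * ((M + c : ℕ) : ℝ) ^ 3 ≤ |C'| * (1 + c) ^ 4 * M ^ 4 := by
    have hc1 : (1 : ℝ) ≤ 1 + c := by linarith
    calc C' * ((M + c : ℕ) : ℝ) ^ 3 ≤ |C'| * ((M + c : ℕ) : ℝ) ^ 3 :=
          mul_le_mul_of_nonneg_right (le_abs_self _) (by positivity)
      _ ≤ |C'| * (M * (1 + c)) ^ 3 := mul_le_mul_of_nonneg_left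
          (pow_le_pow_left₀ p0 p1 3) (abs_nonneg _)
      _ ≤ |C'| * (M * (1 + c)) ^ 4 := mul_le_mul_of_nonneg_left
          (pow_le_pow_right₀ (by nlinarith) (by norm_num)) (abs_nonneg _)
      _ = _ := by ring
  have q3 : s₀ * ((M + c : ℕ) : ℝ) ^ 5 ≤ s₀ * M ^ 5 + |s₀| * (31 * (1 + c) ^ 5) * M ^ 4 := by
    have e2 : ((M + c : ℕ) : ℝ) ^ 5 - M ^ 5 ≤ 31 * (1 + c) ^ 5 * M ^ 4 := by
      have e3 : ((M + c : ℕ) : ℝ) ^ 5 - M ^ 5 = c * (5 * M ^ 4 + 10 * M ^ 3 * c + 10 * M ^ 2 * c ^ 2 +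
          5 * M * c ^ 3 + c ^ 4) := by
        push_cast
        ring
      rw [e3]
      have m3 : (M : ℝ) ^ 3 ≤ M ^ 4 := pow_le_pow_right₀ hM (by norm_num)
      have m2 : (M : ℝ) ^ 2 ≤ M ^ 4 := pow_le_pow_right₀ hM (by norm_num)
      have m1 : (M : ℝ) ≤ M ^ 4 := by
        calc (M : ℝ) = M ^ 1 := (pow_one _).symm
          _ ≤ M ^ 4 := pow_le_pow_right₀ hM (by norm_num)
      have m0 : (1 : ℝ) ≤ M ^ 4 := one_le_pow₀ hM
      have n4 : (1 : ℝ) ≤ (1 + c) ^ 4 := one_le_pow₀ (by linarith)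
      have n1 : (c : ℝ) ≤ (1 + c) ^ 4 := by
        calc (c : ℝ) ≤ 1 + c := by linarith
          _ = (1 + c) ^ 1 := (pow_one _).symm
          _ ≤ (1 + c) ^ 4 := pow_le_pow_right₀ (by linarith) (by norm_num)
      have n2 : (c : ℝ) ^ 2 ≤ (1 + c) ^ 4 := by
        calc (c : ℝ) ^ 2 ≤ (1 + c) ^ 2 := pow_le_pow_left₀ hc (by linarith) 2
          _ ≤ (1 + c) ^ 4 := pow_le_pow_right₀ (by linarith) (by norm_num)
      have n3 : (c : ℝ) ^ 3 ≤ (1 + c) ^ 4 := by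
        calc (c : ℝ) ^ 3 ≤ (1 + c) ^ 3 := pow_le_pow_left₀ hc (by linarith) 3
          _ ≤ (1 + c) ^ 4 := pow_le_pow_right₀ (by linarith) (by norm_num)
      have n5 : (c : ℝ) ^ 4 ≤ (1 + c) ^ 4 := pow_le_pow_left₀ hc (by linarith) 4
      have k0 : 5 * (M : ℝ) ^ 4 ≤ 5 * ((1 + c) ^ 4 * M ^ 4) := by
        have : (0 : ℝ) ≤ M ^ 4 := by positivity
        nlinarith
      have k1 : 10 * (M : ℝ) ^ 3 * c ≤ 10 * ((1 + c) ^ 4 * M ^ 4) := by
        have : (M : ℝ) ^ 3 * c ≤ M ^ 4 * (1 + c) ^ 4 := mul_le_mul m3 n1 hc (by positivity)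
        linarith
      have k2 : 10 * (M : ℝ) ^ 2 * c ^ 2 ≤ 10 * ((1 + c) ^ 4 * M ^ 4) := by
        have : (M : ℝ) ^ 2 * c ^ 2 ≤ M ^ 4 * (1 + c) ^ 4 :=
          mul_le_mul m2 n2 (by positivity) (by positivity)
        linarith
      have k3 : 5 * (M : ℝ) * c ^ 3 ≤ 5 * ((1 + c) ^ 4 * M ^ 4) := by
        have : (M : ℝ) * c ^ 3 ≤ M ^ 4 * (1 + c) ^ 4 :=
          mul_le_mul m1 n3 (by positivity) (by positivity)
        linarith
      have k4 : (c : ℝ) ^ 4 ≤ (1 + c) ^ 4 * M ^ 4 := by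
        have : (1 : ℝ) * c ^ 4 ≤ M ^ 4 * (1 + c) ^ 4 :=
          mul_le_mul m0 n5 (by positivity) (by positivity)
        linarith
      calc c * (5 * (M : ℝ) ^ 4 + 10 * M ^ 3 * c + 10 * M ^ 2 * c ^ 2 + 5 * M * c ^ 3 + c ^ 4) ≤
          c * (31 * ((1 + c) ^ 4 * M ^ 4)) := mul_le_mul_of_nonneg_left (by linarith) hc
        _ ≤ (1 + c) * (31 * ((1 + c) ^ 4 * M ^ 4)) :=
            mul_le_mul_of_nonneg_right (by linarith) (by positivity)
        _ = _ := by ring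
    have e4 : s₀ * (((M + c : ℕ) : ℝ) ^ 5 - M ^ 5) ≤ |s₀| * (31 * (1 + c) ^ 5 * M ^ 4) := by
      have e5 : (0 : ℝ) ≤ ((M + c : ℕ) : ℝ) ^ 5 - M ^ 5 := by
        have : (M : ℝ) ≤ ((M + c : ℕ) : ℝ) := by push_cast; linarith
        have := pow_le_pow_left₀ (by positivity : (0 : ℝ) ≤ M) this 5
        linarith
      calc s₀ * (((M + c : ℕ) : ℝ) ^ 5 - M ^ 5) ≤ |s₀| * (((M + c : ℕ) : ℝ) ^ 5 - M ^ 5) :=
            mul_le_mul_of_nonneg_right (le_abs_self _) e5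
        _ ≤ _ := mul_le_mul_of_nonneg_left e2 (abs_nonneg _)
    linarith
  have e6 : 8 * (|s₀| * (31 * (1 + (c : ℝ)) ^ 5) + (|s₁| + |C'|) * (1 + c) ^ 4) * M ^ 4 =
      8 * (|s₀| * (31 * (1 + c) ^ 5) * M ^ 4) + 8 * (|s₁| * (1 + c) ^ 4 * M ^ 4) +
      8 * (|C'| * (1 + c) ^ 4 * M ^ 4) := by ring
  rw [e6]
  linarith

end Pool.Agent.YTD


end

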