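import Pool.Agent.YTDM.P26

/- source: Pool.Agent.YTD.RedGrow -/

section

/-!
Growth: an algebra generated by elements integral over `k[y₁, …, y_c]` has growth at most `t ^ c`.
-/

namespace Pool.Agent.YTD

open Finset MvPolynomial Module

section Grow

variable {k P : Type} [Field k] [CommRing P] [Algebra k P]

theorem finrank_restrictTotalDegree_le (c t : ℕ) :
    finrank k (restrictTotalDegree (Fin c) k t) ≤ (t + 1) ^ c := by
  have h1 : finrank k (restrictDegree (Fin c) k t) = (t + 1) ^ c := by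
    have h2 := Module.finrank_eq_nat_card_basis
      (basisRestrictSupport k {n : Fin c →₀ ℕ | ∀ i, n i ≤ t})
    have h3 : Nat.card {n : Fin c →₀ ℕ | ∀ i, n i ≤ t} = (t + 1) ^ c := by
      let e : {n : Fin c →₀ ℕ | ∀ i, n i ≤ t} ≃ (Fin c → Fin (t + 1)) :=
        { toFun := fun n i => ⟨n.1 i, Nat.lt_succ_of_le (n.2 i)⟩
          invFun := fun g => ⟨Finsupp.equivFunOnFinite.symm fun i => (g i : ℕ), fun i => by
            show (g i : ℕ) ≤ t
            exact Nat.lt_succ_iff.1 (g i).2⟩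
          left_inv := fun n => by
            apply Subtype.ext
            apply Finsupp.ext
            intro i
            rfl
          right_inv := fun g => by
            funext i
            apply Fin.ext
            rfl }
      rw [Nat.card_congr e, Nat.card_eq_fintype_card, Fintype.card_fun, Fintype.card_fin,
        Fintype.card_fin]
    rw [← h3, ← h2]
    rfl
  rw [← h1]
  exact Submodule.finrank_mono (restrictTotalDegree_le_restrictDegree (Fin c) k t)

/-- The monomials in elements integral over `k[y₁, …, y_c]` of total degree at most `t` lie in a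
space of dimension `O(t ^ c)`. -/
theorem exists_growth_bound {c p : ℕ} (y : Fin c → P) (f : Fin p → P)
    (hf : ∀ i, IsIntegral (Algebra.adjoin k (Set.range y)) (f i)) :
    ∃ D R : ℕ, ∀ t : ℕ, ∃ E : Submodule k P, Module.Finite k E ∧
      finrank k E ≤ R * (D * (t + 1) + 1) ^ c ∧
      ∀ m : Fin p → ℕ, ∑ i, m i ≤ t → ∏ i, f i ^ m i ∈ E := by
  classical
  set A := Algebra.adjoin k (Set.range y) with hA
  have hAm : ∀ a : A, ∃ q : MvPolynomial (Fin c) k, aeval y q = (a : P) := by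
    intro a
    have h1 : (a : P) ∈ (aeval (R := k) y).range := by
      rw [← Algebra.adjoin_range_eq_range_aeval]
      exact a.2
    exact h1
  have hfg : (Subalgebra.toSubmodule (Algebra.adjoin A (Set.range f))).FG :=
    fg_adjoin_of_finite (Set.finite_range f) (by rintro _ ⟨i, rfl⟩; exact hf i)
  obtain ⟨w, hw⟩ := hfg
  have hexp : ∀ x ∈ Algebra.adjoin A (Set.range f), ∃ q : P → MvPolynomial (Fin c) k,
      x = ∑ u ∈ w, aeval y (q u) * u := by
    intro x hx
    have h1 : x ∈ Submodule.span A (w : Set P) := by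
      rw [hw]
      exact hx
    obtain ⟨a, -, ha⟩ := Submodule.mem_span_finset.1 h1
    choose q hq using fun u => hAm (a u)
    refine ⟨q, ?_⟩
    rw [← ha]
    refine Finset.sum_congr rfl fun u _ => ?_
    rw [hq, Subalgebra.smul_def, smul_eq_mul]
  have hwm : ∀ v ∈ w, v ∈ Algebra.adjoin A (Set.range f) := by
    intro v hv
    have h1 : v ∈ Submodule.span A (w : Set P) := Submodule.subset_span hv
    rw [hw] at h1
    exact h1
  have h1 : ∀ (i : Fin p) (v : P), ∃ q : P → MvPolynomial (Fin c) k,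
      v ∈ w → f i * v = ∑ u ∈ w, aeval y (q u) * u := by
    intro i v
    by_cases hv : v ∈ w
    · obtain ⟨q, hq⟩ := hexp (f i * v)
        (mul_mem (Algebra.subset_adjoin ⟨i, rfl⟩) (hwm v hv))
      exact ⟨q, fun _ => hq⟩
    · exact ⟨0, fun h => absurd h hv⟩
  choose q hq using h1
  obtain ⟨q₀, hq₀⟩ := hexp 1 (one_mem _)
  set D : ℕ := ∑ i, ∑ v ∈ w, ∑ u ∈ w, (q i v u).totalDegree + ∑ u ∈ w, (q₀ u).totalDegree with hD
  have hD1 : ∀ i, ∀ v ∈ w, ∀ u ∈ w, (q i v u).totalDegree ≤ D := by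
    intro i v hv u hu
    refine le_trans ?_ (Nat.le_add_right _ _)
    refine le_trans ?_ (Finset.single_le_sum (f := fun i => ∑ v ∈ w, ∑ u ∈ w,
      (q i v u).totalDegree) (fun _ _ => Nat.zero_le _) (Finset.mem_univ i))
    refine le_trans ?_ (Finset.single_le_sum (f := fun v => ∑ u ∈ w,
      (q i v u).totalDegree) (fun _ _ => Nat.zero_le _) hv)
    exact Finset.single_le_sum (f := fun u => (q i v u).totalDegree)
      (fun _ _ => Nat.zero_le _) hu
  have hD2 : ∀ u ∈ w, (q₀ u).totalDegree ≤ D := by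
    intro u hu
    refine le_trans ?_ (Nat.le_add_left _ _)
    exact Finset.single_le_sum (f := fun u => (q₀ u).totalDegree)
      (fun _ _ => Nat.zero_le _) hu
  let S : ℕ → P → Prop := fun t x => ∃ Q : P → MvPolynomial (Fin c) k,
    (∀ u ∈ w, (Q u).totalDegree ≤ D * (t + 1)) ∧ x = ∑ u ∈ w, aeval y (Q u) * u
  have hS0 : S 0 1 := ⟨q₀, fun u hu => by simpa using hD2 u hu, hq₀⟩
  have hSm : ∀ {s t : ℕ} {x : P}, s ≤ t → S s x → S t x := by
    rintro s t x hst ⟨Q, hQ1, hQ2⟩
    exact ⟨Q, fun u hu => (hQ1 u hu).trans (Nat.mul_le_mul_left _ (by omega)), hQ2⟩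
  have hSf : ∀ (t : ℕ) (x : P) (i : Fin p), S t x → S (t + 1) (f i * x) := by
    rintro t x i ⟨Q, hQ1, hQ2⟩
    refine ⟨fun u => ∑ v ∈ w, Q v * q i v u, fun u hu => ?_, ?_⟩
    · refine totalDegree_finsetSum_le fun v hv => ?_
      refine (totalDegree_mul _ _).trans ?_
      have h2 := hQ1 v hv
      have h3 := hD1 i v hv u hu
      calc _ ≤ D * (t + 1) + D := add_le_add h2 h3
        _ = D * (t + 1 + 1) := by ring
    · rw [hQ2, Finset.mul_sum]
      have h4 : ∀ v ∈ w, f i * (aeval y (Q v) * v) =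
          ∑ u ∈ w, aeval y (Q v) * (aeval y (q i v u) * u) := by
        intro v hv
        rw [mul_left_comm, hq i v hv, Finset.mul_sum]
      rw [Finset.sum_congr rfl h4, Finset.sum_comm]
      refine Finset.sum_congr rfl fun u _ => ?_
      rw [map_sum, Finset.sum_mul]
      refine Finset.sum_congr rfl fun v _ => ?_
      rw [map_mul, mul_assoc]
  have hSp : ∀ (n t : ℕ) (x : P) (i : Fin p), S t x → S (t + n) (f i ^ n * x) := by
    intro n
    induction n with
    | zero =>
      intro t x i h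
      rw [pow_zero, one_mul]
      exact h
    | succ n ih =>
      intro t x i h
      have h2 := hSf _ _ i (ih t x i h)
      rw [← mul_assoc, ← pow_succ'] at h2
      exact h2
  have hSprod : ∀ (m : Fin p → ℕ) (s : Finset (Fin p)),
      S (∑ i ∈ s, m i) (∏ i ∈ s, f i ^ m i) := by
    intro m s
    induction s using Finset.induction_on with
    | empty =>
      rw [Finset.sum_empty, Finset.prod_empty]
      exact hS0
    | insert i s hi ih =>
      rw [Finset.sum_insert hi, Finset.prod_insert hi, add_comm]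
      exact hSp _ _ _ _ ih
  refine ⟨D, w.card, fun t => ?_⟩
  let Φ : (w → restrictTotalDegree (Fin c) k (D * (t + 1))) →ₗ[k] P :=
    ∑ u : w, (LinearMap.mulRight k (u : P)) ∘ₗ (aeval (R := k) y).toLinearMap ∘ₗ
      (Submodule.subtype _) ∘ₗ (LinearMap.proj u)
  refine ⟨LinearMap.range Φ, inferInstance, ?_, fun m hm => ?_⟩
  · refine (LinearMap.finrank_range_le Φ).trans ?_
    rw [Module.finrank_pi_fintype, Finset.sum_const, Finset.card_univ, Fintype.card_coe,
      smul_eq_mul]
    exact Nat.mul_le_mul_left _ (finrank_restrictTotalDegree_le _ _)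
  · obtain ⟨Q, hQ1, hQ2⟩ := hSm hm (hSprod m Finset.univ)
    refine ⟨fun u => ⟨Q u, (mem_restrictTotalDegree _ _ _).2 (hQ1 u u.2)⟩, ?_⟩
    rw [hQ2, LinearMap.sum_apply, ← Finset.sum_coe_sort w]
    rfl

/-- If the growth of the algebra generated by `f` is at least `a t ^ 5` then `5 ≤ c`. -/
theorem five_le_of_growth {c p : ℕ} (y : Fin c → P) (f : Fin p → P)
    (hf : ∀ i, IsIntegral (Algebra.adjoin k (Set.range y)) (f i))
    (V : ℕ → Submodule k P) (t₀ : ℕ)
    (hV : ∀ t ≥ t₀, V t ≤ Submodule.span k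
      {x | ∃ m : Fin p → ℕ, ∑ i, m i ≤ t ∧ x = ∏ i, f i ^ m i})
    (a : ℝ) (ha : 0 < a) (hgr : ∀ t ≥ t₀, a * (t : ℝ) ^ 5 ≤ finrank k (V t)) : 5 ≤ c := by
  by_contra hc
  push Not at hc
  obtain ⟨D, R, h⟩ := exists_growth_bound y f hf
  have h1 : ∀ t ≥ t₀, a * (t : ℝ) ^ 5 ≤ R * (D * (t + 1) + 1) ^ 4 := by
    intro t ht
    obtain ⟨E, hE1, hE2, hE3⟩ := h t
    have h2 : V t ≤ E := by
      refine (hV t ht).trans (Submodule.span_le.2 ?_)
      rintro _ ⟨m, hm, rfl⟩
      exact hE3 m hm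
    have h3 : finrank k (V t) ≤ R * (D * (t + 1) + 1) ^ c :=
      (Submodule.finrank_mono h2).trans hE2
    have h4 : R * (D * (t + 1) + 1) ^ c ≤ R * (D * (t + 1) + 1) ^ 4 :=
      Nat.mul_le_mul_left _ (Nat.pow_le_pow_right (by omega) (by omega))
    have h5 : ((finrank k (V t) : ℕ) : ℝ) ≤ ((R * (D * (t + 1) + 1) ^ 4 : ℕ) : ℝ) := by
      exact_mod_cast h3.trans h4
    refine (hgr t ht).trans (h5.trans (le_of_eq ?_))
    push_cast
    ring
  -- for `t ≥ 1`, `D (t + 1) + 1 ≤ (2 D + 1) t`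
  obtain ⟨t, ht⟩ := exists_nat_gt ((R : ℝ) * (2 * D + 1) ^ 4 / a)
  have h6 := h1 (max t₀ (t + 1)) (le_max_left _ _)
  set s : ℕ := max t₀ (t + 1) with hs
  have hs1 : (1 : ℝ) ≤ s := by
    have : 1 ≤ s := le_trans (by omega) (le_max_right t₀ (t + 1))
    exact_mod_cast this
  have hst : (t : ℝ) ≤ s := by
    have : t ≤ s := le_trans (by omega) (le_max_right t₀ (t + 1))
    exact_mod_cast this
  have h7 : ((D : ℝ) * (s + 1) + 1) ≤ (2 * D + 1) * s := by
    have hD0 : (0 : ℝ) ≤ D := Nat.cast_nonneg _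
    nlinarith
  have h8 : ((D : ℝ) * (s + 1) + 1) ^ 4 ≤ ((2 * D + 1) * s) ^ 4 := by
    have hD0 : (0 : ℝ) ≤ D := Nat.cast_nonneg _
    gcongr
  have h9 : a * (s : ℝ) ^ 5 ≤ R * ((2 * D + 1) * s) ^ 4 :=
    h6.trans (mul_le_mul_of_nonneg_left h8 (Nat.cast_nonneg _))
  have h10 : (R : ℝ) * (2 * D + 1) ^ 4 < a * s := by
    rw [div_lt_iff₀ ha] at ht
    calc (R : ℝ) * (2 * D + 1) ^ 4 < t * a := ht
      _ ≤ s * a := mul_le_mul_of_nonneg_right hst ha.le
      _ = a * s := mul_comm _ _
  have h11 : (0 : ℝ) < (s : ℝ) ^ 4 := by positivity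
  have h12 : (R : ℝ) * ((2 * D + 1) * s) ^ 4 < a * (s : ℝ) ^ 5 := by
    calc (R : ℝ) * ((2 * D + 1) * s) ^ 4 = (R * (2 * D + 1) ^ 4) * s ^ 4 := by ring
      _ < (a * s) * s ^ 4 := mul_lt_mul_of_pos_right h10 h11
      _ = a * (s : ℝ) ^ 5 := by ring
  exact absurd h9 (not_le.2 h12)

end Grow

end Pool.Agent.YTD


end

/- source: Pool.Agent.YTD.RedInt -/

section

/-!
Two graded families of polynomials `B ≤ A` with `B` finitely generated, of dimension five, and
`dim A_N / B_N = O(N³)`: every element of `A` is integral over `B`.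
-/

namespace Pool.Agent.YTD

open Finset MvPolynomial Module

section Int

variable {K σ : Type} [Field K] [Algebra ℂ K]

/-- A graded family of spaces of forms. -/
structure GrFam (K σ : Type) [Field K] [Algebra ℂ K] (δ : ℕ) where
  B : ℕ → Submodule ℂ (MvPolynomial σ K)
  hom : ∀ N, ∀ f ∈ B N, f.IsHomogeneous (δ * N)
  mul : ∀ N N', ∀ f ∈ B N, ∀ g ∈ B N', f * g ∈ B (N + N')
  one : 1 ∈ B 0
  fin : ∀ N, FiniteDimensional ℂ (B N)

namespace GrFam

variable {δ : ℕ} (B : GrFam K σ δ)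

theorem pow_mem {N : ℕ} {x : MvPolynomial σ K} (hx : x ∈ B.B N) (c : ℕ) :
    x ^ c ∈ B.B (c * N) := by
  induction c with
  | zero =>
    rw [pow_zero, zero_mul]
    exact B.one
  | succ c ih =>
    rw [pow_succ, Nat.succ_mul]
    exact B.mul _ _ _ ih _ hx

theorem prod_mem {ι : Type} (s : Finset ι) (d : ι → ℕ)
    (x : ι → MvPolynomial σ K) (hx : ∀ i ∈ s, x i ∈ B.B (d i)) :
    ∏ i ∈ s, x i ∈ B.B (∑ i ∈ s, d i) := by
  classical
  induction s using Finset.induction_on with
  | empty =>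
    rw [prod_empty, sum_empty]
    exact B.one
  | insert a s ha ih =>
    rw [prod_insert ha, sum_insert ha]
    exact B.mul _ _ _ (hx a (mem_insert_self _ _)) _ (ih fun i hi => hx i (mem_insert_of_mem hi))

/-- the sum of the first pieces -/
noncomputable def sumL (t : ℕ) : ((N : Fin (t + 1)) → B.B N) →ₗ[ℂ] MvPolynomial σ K where
  toFun := fun v => ∑ N, (v N : MvPolynomial σ K)
  map_add' := by
    intro v w
    rw [← sum_add_distrib]
    rfl
  map_smul' := by
    intro c v
    rw [RingHom.id_apply, smul_sum]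
    rfl

theorem sumL_apply (t : ℕ) (v : (N : Fin (t + 1)) → B.B N) :
    B.sumL t v = ∑ N, (v N : MvPolynomial σ K) := rfl

theorem sumL_injective (hδ : 0 < δ) (t : ℕ) : Function.Injective (B.sumL t) := by
  classical
  rw [← LinearMap.ker_eq_bot, LinearMap.ker_eq_bot']
  intro v hv
  funext N
  have h1 : homogeneousComponent (δ * N) (B.sumL t v) = (v N : MvPolynomial σ K) := by
    rw [sumL_apply, map_sum, sum_eq_single N]
    · rw [homogeneousComponent_of_mem (n := δ * N) (B.hom _ _ (v N).2), if_pos rfl]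
    · intro N' _ hN'
      rw [homogeneousComponent_of_mem (n := δ * N') (B.hom _ _ (v N').2), if_neg]
      intro h
      exact hN' (Fin.ext (Nat.eq_of_mul_eq_mul_left hδ h.symm))
    · intro h
      exact (h (mem_univ _)).elim
  rw [hv, map_zero] at h1
  exact Subtype.ext h1.symm

theorem finrank_sumL (hδ : 0 < δ) (t : ℕ) :
    finrank ℂ (LinearMap.range (B.sumL t)) = ∑ N : Fin (t + 1), finrank ℂ (B.B N) := by
  have : ∀ N, FiniteDimensional ℂ (B.B N) := B.fin
  rw [LinearMap.finrank_range_of_inj (B.sumL_injective hδ t), Module.finrank_pi_fintype]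

/-- Homogeneous generators of a graded family. -/
structure Gen where
  p : ℕ
  n : Fin p → ℕ
  f : Fin p → MvPolynomial σ K
  pos : ∀ i, 0 < n i
  mem : ∀ i, f i ∈ B.B (n i)
  gen : ∀ N, B.B N ≤ Submodule.span ℂ
    {x | ∃ m : Fin p → ℕ, ∑ i, m i * n i = N ∧ x = ∏ i, f i ^ m i}

variable {B}

theorem exists_param (hδ : 0 < δ) (G : B.Gen) {a : ℝ} (ha : 0 < a) {N₁ : ℕ}
    (hgr : ∀ N : ℕ, N₁ ≤ N → a * (N : ℝ) ^ 4 ≤ finrank ℂ (B.B N)) :
    ∃ (c L : ℕ) (y : Fin c → MvPolynomial σ K), 5 ≤ c ∧ 0 < L ∧ (∀ j, y j ∈ B.B L) ∧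
      AlgebraicIndependent ℂ y ∧
      ∀ N, ∀ x ∈ B.B N, IsIntegral (Algebra.adjoin ℂ (Set.range y)) x := by
  classical
  have : ∀ N, FiniteDimensional ℂ (B.B N) := B.fin
  set L : ℕ := ∏ i, G.n i with hL
  have hLpos : 0 < L := prod_pos fun i _ => G.pos i
  have hdvd : ∀ i, G.n i ∣ L := fun i => dvd_prod_of_mem _ (mem_univ i)
  have hq : ∀ i, 0 < L / G.n i := fun i => Nat.div_pos (Nat.le_of_dvd hLpos (hdvd i)) (G.pos i)
  set g : Fin G.p → MvPolynomial σ K := fun i => G.f i ^ (L / G.n i) with hg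
  have hgB : ∀ i, g i ∈ B.B L := by
    intro i
    have h := B.pow_mem (G.mem i) (L / G.n i)
    rwa [Nat.div_mul_cancel (hdvd i)] at h
  obtain ⟨c, y, h1, h2, h3⟩ := exists_linear_noether (k := ℂ) (d := δ * L)
    (Nat.mul_pos hδ hLpos) G.p g fun i => B.hom _ _ (hgB i)
  have hy : ∀ j, y j ∈ B.B L := by
    intro j
    refine (Submodule.span_le.2 ?_) (h1 j)
    rintro _ ⟨i, rfl⟩
    exact hgB i
  have hf : ∀ i, IsIntegral (Algebra.adjoin ℂ (Set.range y)) (G.f i) := fun i =>
    IsIntegral.of_pow (hq i) (h3 i)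
  refine ⟨c, L, y, ?_, hLpos, hy, h2, ?_⟩
  · refine five_le_of_growth y G.f hf (fun t => LinearMap.range (B.sumL t)) (2 * N₁ + 2) ?_
      (a / 64) (by positivity) ?_
    · rintro t _ _ ⟨v, rfl⟩
      rw [B.sumL_apply]
      refine Submodule.sum_mem _ fun N _ => ?_
      refine Submodule.span_mono ?_ (G.gen N (v N).2)
      rintro x ⟨m, hm, rfl⟩
      refine ⟨m, ?_, rfl⟩
      calc ∑ i, m i ≤ ∑ i, m i * G.n i :=
            sum_le_sum fun i _ => Nat.le_mul_of_pos_right _ (G.pos i)
        _ = N := hm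
        _ ≤ t := Nat.le_of_lt_succ N.2
    · intro t ht
      rw [B.finrank_sumL hδ]
      push_cast
      -- the upper half of the terms
      have h4 : ∀ N ∈ (univ : Finset (Fin (t + 1))), (if t ≤ 2 * (N : ℕ) then
          a * ((t : ℝ) / 2) ^ 4 else 0) ≤ (finrank ℂ (B.B N) : ℝ) := by
        intro N _
        split_ifs with h
        · have h5 : N₁ ≤ (N : ℕ) := by omega
          refine le_trans ?_ (hgr N h5)
          have h6 : (t : ℝ) / 2 ≤ N := by
            have : (t : ℝ) ≤ 2 * (N : ℕ) := by exact_mod_cast h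
            linarith
          gcongr
        · positivity
      refine le_trans ?_ (sum_le_sum h4)
      rw [← sum_filter, sum_const, nsmul_eq_mul]
      have h7 : (t : ℝ) / 2 ≤ ((univ.filter fun N : Fin (t + 1) => t ≤ 2 * (N : ℕ)).card : ℝ) := by
        have h8 : t / 2 + 1 ≤ (univ.filter fun N : Fin (t + 1) => t ≤ 2 * (N : ℕ)).card := by
          have : Function.Injective (fun i : Fin (t / 2 + 1) =>
              (⟨t - i, by omega⟩ : Fin (t + 1))) := by
            intro i j hij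
            have := Fin.mk.inj_iff.1 hij
            apply Fin.ext
            omega
          calc t / 2 + 1 = (univ : Finset (Fin (t / 2 + 1))).card := by simp
            _ = (univ.map ⟨_, this⟩).card := by rw [card_map]
            _ ≤ _ := by
              apply card_le_card
              intro N hN
              rw [mem_map] at hN
              obtain ⟨i, _, rfl⟩ := hN
              rw [mem_filter]
              refine ⟨mem_univ _, ?_⟩
              show t ≤ 2 * (t - i)
              omega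
        have h9 : t ≤ 2 * (t / 2 + 1) := by omega
        have h10 : (t : ℝ) ≤ 2 * ((t / 2 + 1 : ℕ) : ℝ) := by exact_mod_cast h9
        have h11 : ((t / 2 + 1 : ℕ) : ℝ) ≤
          ((univ.filter fun N : Fin (t + 1) => t ≤ 2 * (N : ℕ)).card : ℝ) := by exact_mod_cast h8
        linarith
      calc a / 64 * (t : ℝ) ^ 5 ≤ (t / 2) * (a * ((t : ℝ) / 2) ^ 4) := by
            have : (0 : ℝ) ≤ (t : ℝ) ^ 5 := by positivity
            nlinarith
        _ ≤ _ := by gcongr
  · intro N x hx
    have h4 : x ∈ (integralClosure (Algebra.adjoin ℂ (Set.range y))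
        (MvPolynomial σ K)).toSubmodule.restrictScalars ℂ := by
      refine (Submodule.span_le.2 ?_) (G.gen N hx)
      rintro _ ⟨m, _, rfl⟩
      show ∏ i, G.f i ^ m i ∈ integralClosure _ _
      exact _root_.prod_mem fun i _ => _root_.pow_mem (hf i) _
    exact h4

/-- the exponent `y₀^{4u - ∑ i} ∏ y_j^{i_j}` -/
noncomputable def kexp (c : ℕ) (hc : 5 ≤ c) (u : ℕ) (i : Fin 4 → Fin (u + 1)) : Fin c →₀ ℕ :=
  Finsupp.single ⟨0, by omega⟩ (4 * u - ∑ j, (i j : ℕ)) +
    ∑ j : Fin 4, Finsupp.single ⟨j + 1, by omega⟩ (i j : ℕ)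

theorem kexp_apply (c : ℕ) (hc : 5 ≤ c) (u : ℕ) (i : Fin 4 → Fin (u + 1)) (j : Fin 4) :
    kexp c hc u i ⟨j + 1, by omega⟩ = i j := by
  classical
  unfold kexp
  rw [Finsupp.add_apply, Finsupp.single_apply, if_neg, zero_add, Finsupp.finsetSum_apply,
    sum_eq_single j]
  · rw [Finsupp.single_apply, if_pos rfl]
  · intro k _ hk
    rw [Finsupp.single_apply, if_neg]
    intro h
    apply hk
    have := Fin.mk.inj_iff.1 h
    exact Fin.ext (by omega)
  · intro h
    exact (h (mem_univ _)).elim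
  · intro h
    have := Fin.mk.inj_iff.1 h
    omega

theorem kexp_injective (c : ℕ) (hc : 5 ≤ c) (u : ℕ) : Function.Injective (kexp c hc u) := by
  intro i j h
  funext k
  have h1 := kexp_apply c hc u i k
  rw [h, kexp_apply] at h1
  exact Fin.ext h1.symm

theorem kexp_degree (c : ℕ) (hc : 5 ≤ c) (u : ℕ) (i : Fin 4 → Fin (u + 1)) :
    (kexp c hc u i).degree = 4 * u := by
  have h : ∑ j, (i j : ℕ) ≤ 4 * u := by
    calc ∑ j, (i j : ℕ) ≤ ∑ _j : Fin 4, u := sum_le_sum fun j _ => Nat.le_of_lt_succ (i j).2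
      _ = 4 * u := by simp
  unfold kexp
  rw [map_add, map_sum, Finsupp.degree_single]
  simp only [Finsupp.degree_single]
  omega

/-- the polynomial with coefficients `v` -/
noncomputable def kpoly (c : ℕ) (hc : 5 ≤ c) (u : ℕ) :
    ((Fin 4 → Fin (u + 1)) → ℂ) →ₗ[ℂ] MvPolynomial (Fin c) ℂ where
  toFun := fun v => ∑ i, monomial (kexp c hc u i) (v i)
  map_add' := by
    intro v w
    rw [← sum_add_distrib]
    exact sum_congr rfl fun i _ => (monomial (kexp c hc u i)).map_add (v i) (w i)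
  map_smul' := by
    intro a v
    rw [RingHom.id_apply, smul_sum]
    exact sum_congr rfl fun i _ => by rw [smul_monomial]; rfl

theorem kpoly_injective (c : ℕ) (hc : 5 ≤ c) (u : ℕ) : Function.Injective (kpoly c hc u) := by
  classical
  rw [← LinearMap.ker_eq_bot, LinearMap.ker_eq_bot']
  intro v hv
  funext i
  have h1 : (kpoly c hc u v).coeff (kexp c hc u i) = v i := by
    show (∑ i, monomial (kexp c hc u i) (v i)).coeff (kexp c hc u i) = v i
    rw [coeff_sum, sum_eq_single i]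
    · rw [coeff_monomial, if_pos rfl]
    · intro j _ hj
      rw [coeff_monomial, if_neg]
      intro h
      exact hj (kexp_injective c hc u h)
    · intro h
      exact (h (mem_univ _)).elim
  rw [hv, coeff_zero] at h1
  exact h1.symm

theorem kpoly_hom (c : ℕ) (hc : 5 ≤ c) (u : ℕ) (v : (Fin 4 → Fin (u + 1)) → ℂ) :
    (kpoly c hc u v).IsHomogeneous (4 * u) := by
  refine IsHomogeneous.sum _ _ _ fun i _ => ?_
  exact isHomogeneous_monomial _ (kexp_degree c hc u i)

theorem aeval_mem {L : ℕ} {c : ℕ} {y : Fin c → MvPolynomial σ K} (hy : ∀ j, y j ∈ B.B L)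
    {p : MvPolynomial (Fin c) ℂ} {d : ℕ} (hp : p.IsHomogeneous d) : aeval y p ∈ B.B (d * L) := by
  classical
  rw [aeval_def, eval₂_eq]
  refine Submodule.sum_mem _ fun e he => ?_
  rw [← Algebra.smul_def]
  refine Submodule.smul_mem _ _ ?_
  have h1 : e.degree = d := by
    rw [Finsupp.degree_eq_weight_one]
    exact hp (mem_support_iff.1 he)
  have h2 := B.prod_mem e.support (fun i => e i * L) (fun i => y i ^ e i)
    fun i _ => B.pow_mem (hy i) _
  rw [← sum_mul] at h2
  have h3 : ∑ i ∈ e.support, e i = d := h1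
  rwa [h3] at h2

variable {A : GrFam K σ δ}

/-- the kernel of `(E ⊗ x^s) ⊕ B → A` -/
theorem exists_kernel (hBA : ∀ N, B.B N ≤ A.B N) {L c : ℕ} (hc : 5 ≤ c)
    {y : Fin c → MvPolynomial σ K} (hy : ∀ j, y j ∈ B.B L)
    {N₀ : ℕ} {x : MvPolynomial σ K} (hx : x ∈ A.B N₀) {u s M : ℕ} (hM : M = 4 * u * L + s * N₀)
    (hlt : finrank ℂ (A.B M) < finrank ℂ (B.B M) + (u + 1) ^ 4) :
    ∃ a : MvPolynomial (Fin c) ℂ, a ≠ 0 ∧ a.totalDegree ≤ 4 * u ∧
      aeval y a * x ^ s ∈ B.B M := by
  classical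
  subst hM
  set M : ℕ := 4 * u * L + s * N₀ with hM
  have : ∀ N, FiniteDimensional ℂ (B.B N) := B.fin
  have : ∀ N, FiniteDimensional ℂ (A.B N) := A.fin
  let Θ : ((Fin 4 → Fin (u + 1)) → ℂ) × B.B M →ₗ[ℂ] MvPolynomial σ K :=
    { toFun := fun v => aeval y (kpoly c hc u v.1) * x ^ s - v.2
      map_add' := by
        intro v w
        rw [Prod.fst_add, map_add, map_add, Prod.snd_add, Submodule.coe_add]
        ring
      map_smul' := by
        intro a v
        rw [Prod.smul_fst, map_smul, map_smul, Prod.smul_snd, Submodule.coe_smul,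
          RingHom.id_apply, smul_mul_assoc, smul_sub] }
  have hΘ : ∀ v, Θ v ∈ A.B M := by
    intro v
    exact Submodule.sub_mem _ (A.mul _ _ _ (hBA _ (aeval_mem hy (kpoly_hom c hc u v.1))) _
      (A.pow_mem hx s)) (hBA M v.2.2)
  have hni : ¬ Function.Injective (Θ.codRestrict (A.B M) hΘ) := by
    intro h
    have h1 := LinearMap.finrank_le_finrank_of_injective h
    rw [Module.finrank_prod, Module.finrank_fintype_fun_eq_card, Fintype.card_fun, Fintype.card_fin,
      Fintype.card_fin] at h1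
    omega
  rw [← LinearMap.ker_eq_bot, LinearMap.ker_eq_bot'] at hni
  push Not at hni
  obtain ⟨⟨v, b⟩, h1, h2⟩ := hni
  have h3 : aeval y (kpoly c hc u v) * x ^ s - b = 0 := congrArg Subtype.val h1
  refine ⟨kpoly c hc u v, ?_, (kpoly_hom c hc u v).totalDegree_le, ?_⟩
  · intro h4
    apply h2
    have h5 : v = 0 := kpoly_injective c hc u (by rw [h4, map_zero])
    rw [h4, map_zero, zero_mul, zero_sub, neg_eq_zero] at h3
    exact Prod.ext h5 (Subtype.ext h3)
  · rw [sub_eq_zero.1 h3]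
    exact b.2

/-- integrality over `ℂ[y]` -/
theorem isIntegralElem_of {c : ℕ} {y : Fin c → MvPolynomial σ K} (hal : AlgebraicIndependent ℂ y)
    {b : MvPolynomial σ K} (hb : IsIntegral (Algebra.adjoin ℂ (Set.range y)) b) :
    ((algebraMap (MvPolynomial σ K) (FractionRing (MvPolynomial σ K))).comp
      (aeval y : MvPolynomial (Fin c) ℂ →ₐ[ℂ] MvPolynomial σ K).toRingHom).IsIntegralElem
      (algebraMap _ _ b) := by
  obtain ⟨p, hp, h0⟩ := hb
  set φ : MvPolynomial (Fin c) ℂ →+* FractionRing (MvPolynomial σ K) :=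
    (algebraMap (MvPolynomial σ K) (FractionRing (MvPolynomial σ K))).comp
      (aeval y : MvPolynomial (Fin c) ℂ →ₐ[ℂ] MvPolynomial σ K).toRingHom with hφ
  refine ⟨p.map (hal.aevalEquiv.symm : _ →+* MvPolynomial (Fin c) ℂ), hp.map _, ?_⟩
  have h1 : φ.comp (hal.aevalEquiv.symm : _ →+* MvPolynomial (Fin c) ℂ) =
      (algebraMap (MvPolynomial σ K) (FractionRing (MvPolynomial σ K))).comp
        (algebraMap (Algebra.adjoin ℂ (Set.range y)) (MvPolynomial σ K)) := by
    refine RingHom.ext fun z => ?_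
    obtain ⟨w, rfl⟩ := hal.aevalEquiv.surjective z
    show algebraMap _ _ (aeval y (hal.aevalEquiv.symm (hal.aevalEquiv w))) = _
    rw [AlgEquiv.symm_apply_apply, ← hal.algebraMap_aevalEquiv]
    rfl
  rw [Polynomial.eval₂_map, h1, ← Polynomial.hom_eval₂, h0, map_zero]

theorem exists_monic (hδ : 0 < δ) (G : B.Gen) (hBA : ∀ N, B.B N ≤ A.B N) {a C : ℝ} (ha : 0 < a)
    {N₁ : ℕ} (hgr : ∀ N : ℕ, N₁ ≤ N → a * (N : ℝ) ^ 4 ≤ finrank ℂ (B.B N))
    (hco : ∀ N : ℕ, N₁ ≤ N → (finrank ℂ (A.B N) : ℝ) ≤ finrank ℂ (B.B N) + C * (N : ℝ) ^ 3) :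
    ∃ (c L : ℕ) (y : Fin c → MvPolynomial σ K), 0 < L ∧ (∀ j, y j ∈ B.B L) ∧
      ∀ N₀, ∀ x ∈ A.B N₀, ∃ p : Polynomial (MvPolynomial (Fin c) ℂ), p.Monic ∧
        p.eval₂ (aeval y : MvPolynomial (Fin c) ℂ →ₐ[ℂ] MvPolynomial σ K).toRingHom x = 0 := by
  classical
  obtain ⟨c, L, y, hc, hL, hy, hal, hint⟩ := exists_param hδ G ha hgr
  refine ⟨c, L, y, hL, hy, fun N₀ x hx => ?_⟩
  set φ : MvPolynomial (Fin c) ℂ →+* FractionRing (MvPolynomial σ K) :=
    (algebraMap (MvPolynomial σ K) (FractionRing (MvPolynomial σ K))).comp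
      (aeval y : MvPolynomial (Fin c) ℂ →ₐ[ℂ] MvPolynomial σ K).toRingHom with hφ
  have hinj : Function.Injective φ := by
    intro p p' h
    exact hal (IsFractionRing.injective (MvPolynomial σ K) (FractionRing (MvPolynomial σ K)) h)
  have key : φ.IsIntegralElem (algebraMap _ _ x) := by
    refine red_alg φ hinj fun ν hν => ?_
    obtain ⟨u, hu⟩ := exists_nat_gt (|C| * (4 * (L + ν * N₀) : ℕ) ^ 3 + N₁ : ℝ)
    have hu0 : 0 < u := by
      have : (0 : ℝ) < u := lt_of_le_of_lt (by positivity) hu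
      exact_mod_cast this
    have hu1 : N₁ ≤ u := by
      have : (N₁ : ℝ) < u := lt_of_le_of_lt (le_add_of_nonneg_left (by positivity)) hu
      exact_mod_cast this.le
    have hu2 : |C| * (4 * (L + ν * N₀) : ℕ) ^ 3 < (u : ℝ) :=
      lt_of_le_of_lt (le_add_of_nonneg_right (by positivity)) hu
    have hM1 : 4 * u * L + 4 * u * ν * N₀ = u * (4 * (L + ν * N₀)) := by ring
    have hM2 : N₁ ≤ 4 * u * L + 4 * u * ν * N₀ := by
      rw [hM1]
      exact hu1.trans (Nat.le_mul_of_pos_right _ (by positivity))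
    obtain ⟨b, hb0, hb1, hb2⟩ := exists_kernel hBA hc hy hx (u := u) (s := 4 * u * ν) rfl (by
      have h1 := hco _ hM2
      have h2 : C * ((4 * u * L + 4 * u * ν * N₀ : ℕ) : ℝ) ^ 3 < ((u + 1) ^ 4 : ℕ) := by
        rw [hM1]
        push_cast
        push_cast at hu2
        have h3 : C * ((u : ℝ) * (4 * (L + ν * N₀))) ^ 3 ≤
            (u : ℝ) ^ 3 * (|C| * (4 * (L + ν * N₀)) ^ 3) := by
          have : C ≤ |C| := le_abs_self C
          have h4 : 0 ≤ ((u : ℝ) * (4 * (L + ν * N₀))) ^ 3 := by positivity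
          nlinarith
        have h5 : (u : ℝ) ^ 3 * (|C| * (4 * (L + ν * N₀)) ^ 3) ≤ (u : ℝ) ^ 3 * u := by
          gcongr
        have h6 : (u : ℝ) ^ 3 * u < (u + 1) ^ 4 := by
          have : (u : ℝ) ^ 3 * u = (u : ℝ) ^ 4 := by ring
          rw [this]
          gcongr
          linarith
        linarith
      have h3 : (finrank ℂ (A.B (4 * u * L + 4 * u * ν * N₀)) : ℝ) <
          finrank ℂ (B.B (4 * u * L + 4 * u * ν * N₀)) + ((u + 1) ^ 4 : ℕ) := by linarith
      exact_mod_cast h3)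
    refine ⟨4 * u * ν, Nat.mul_pos (Nat.mul_pos (by norm_num) hu0) hν, b, hb0, ?_, ?_⟩
    · calc ν * b.totalDegree ≤ ν * (4 * u) := Nat.mul_le_mul_left _ hb1
        _ = 4 * u * ν := by ring
    · have h4 := isIntegralElem_of hal (hint _ _ hb2)
      rw [map_mul, map_pow] at h4
      exact h4
  obtain ⟨p, hp, h0⟩ := key
  refine ⟨p, hp, ?_⟩
  apply IsFractionRing.injective (MvPolynomial σ K) (FractionRing (MvPolynomial σ K))
  rw [map_zero, Polynomial.hom_eval₂]
  exact h0

/-- Every element of `A` satisfies a homogeneous integral equation over `B`. -/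
theorem exists_int_eq (hδ : 0 < δ) (G : B.Gen) (hBA : ∀ N, B.B N ≤ A.B N) {a C : ℝ} (ha : 0 < a)
    {N₁ : ℕ} (hgr : ∀ N : ℕ, N₁ ≤ N → a * (N : ℝ) ^ 4 ≤ finrank ℂ (B.B N))
    (hco : ∀ N : ℕ, N₁ ≤ N → (finrank ℂ (A.B N) : ℝ) ≤ finrank ℂ (B.B N) + C * (N : ℝ) ^ 3)
    {N₀ : ℕ} {x : MvPolynomial σ K} (hx : x ∈ A.B N₀) :
    ∃ (e m : ℕ) (b : ℕ → MvPolynomial σ K), 0 < e ∧ 0 < m ∧
      (∀ i < m, b i ∈ B.B (e * N₀ * (m - i))) ∧
      (x ^ e) ^ m = ∑ i ∈ range m, b i * (x ^ e) ^ i := by
  classical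
  obtain ⟨c, L, y, hL, hy, h⟩ := exists_monic hδ G hBA ha hgr hco
  have hz : x ^ L ∈ A.B (L * N₀) := A.pow_mem hx L
  obtain ⟨p, hp, h0⟩ := h _ _ hz
  set z := x ^ L with hzdef
  set m := p.natDegree with hm
  have hm0 : 0 < m := by
    rcases Nat.eq_zero_or_pos m with h1 | h1
    · exfalso
      have h2 : p = 1 := hp.natDegree_eq_zero.1 h1
      rw [h2, Polynomial.eval₂_one] at h0
      exact one_ne_zero h0
    · exact h1
  have hcomp : ∀ i ≤ m, ∀ q : MvPolynomial (Fin c) ℂ,
      homogeneousComponent (δ * (L * N₀ * m)) (aeval y q * z ^ i) =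
        aeval y (homogeneousComponent (N₀ * (m - i)) q) * z ^ i := by
    intro i hi q
    have hk : ∀ k, homogeneousComponent (δ * (L * N₀ * m))
        (aeval y (homogeneousComponent k q) * z ^ i) =
        if k = N₀ * (m - i) then aeval y (homogeneousComponent k q) * z ^ i else 0 := by
      intro k
      have h1 : aeval y (homogeneousComponent k q) * z ^ i ∈ A.B (k * L + i * (L * N₀)) :=
        A.mul _ _ _ (hBA _ (aeval_mem hy (homogeneousComponent_isHomogeneous k q))) _
          (A.pow_mem hz i)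
      rw [homogeneousComponent_of_mem (n := δ * (k * L + i * (L * N₀))) (A.hom _ _ h1)]
      have h2 : δ * (L * N₀ * m) = δ * (k * L + i * (L * N₀)) ↔ k = N₀ * (m - i) := by
        constructor
        · intro h3
          have h4 := Nat.eq_of_mul_eq_mul_left hδ h3
          have h5 : L * (N₀ * m) = L * (k + i * N₀) := by
            calc L * (N₀ * m) = L * N₀ * m := by ring
              _ = k * L + i * (L * N₀) := h4
              _ = L * (k + i * N₀) := by ring
          have h6 := Nat.eq_of_mul_eq_mul_left hL h5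
          rw [Nat.mul_sub, h6, mul_comm N₀ i, Nat.add_sub_cancel]
        · rintro rfl
          congr 1
          obtain ⟨j, hj⟩ := Nat.exists_eq_add_of_le hi
          rw [hj, Nat.add_sub_cancel_left]
          ring
      simp only [h2]
    calc homogeneousComponent (δ * (L * N₀ * m)) (aeval y q * z ^ i)
        = homogeneousComponent (δ * (L * N₀ * m))
            (aeval y (∑ k ∈ range (q.totalDegree + 1), homogeneousComponent k q) * z ^ i) := by
          rw [sum_homogeneousComponent]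
      _ = ∑ k ∈ range (q.totalDegree + 1),
            if k = N₀ * (m - i) then aeval y (homogeneousComponent k q) * z ^ i else 0 := by
          rw [map_sum, sum_mul, map_sum]
          exact sum_congr rfl fun k _ => hk k
      _ = _ := by
          rw [sum_ite_eq']
          split_ifs with h1
          · rfl
          · rw [mem_range, not_lt] at h1
            rw [homogeneousComponent_eq_zero _ _ (by omega), map_zero, zero_mul]
  have h1 : ∑ i ∈ range (m + 1), aeval y (homogeneousComponent (N₀ * (m - i)) (p.coeff i)) * z ^ i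
      = 0 := by
    have h2 : ∑ i ∈ range (m + 1), aeval y (p.coeff i) * z ^ i = 0 := by
      rw [← h0, Polynomial.eval₂_eq_sum_range]
      rfl
    have h3 := congrArg (homogeneousComponent (δ * (L * N₀ * m))) h2
    rw [map_zero, map_sum] at h3
    rw [← h3]
    exact sum_congr rfl fun i hi => (hcomp i (Nat.lt_succ_iff.1 (mem_range.1 hi)) _).symm
  rw [sum_range_succ] at h1
  have h2 : aeval y (homogeneousComponent (N₀ * (m - m)) (p.coeff m)) = 1 := by
    have : p.coeff m = 1 := hp.coeff_natDegree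
    rw [this, Nat.sub_self, mul_zero, homogeneousComponent_of_mem (n := 0)
      (isHomogeneous_one _ _), if_pos rfl, map_one]
  rw [h2, one_mul] at h1
  refine ⟨L, m, fun i => -aeval y (homogeneousComponent (N₀ * (m - i)) (p.coeff i)), hL, hm0,
    fun i hi => ?_, ?_⟩
  · have h3 := aeval_mem hy (homogeneousComponent_isHomogeneous (N₀ * (m - i)) (p.coeff i))
    have e : N₀ * (m - i) * L = L * N₀ * (m - i) := by ring
    rw [e] at h3
    exact Submodule.neg_mem _ h3
  · rw [eq_comm, ← sub_eq_zero]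
    simp only [neg_mul, sum_neg_distrib]
    rw [← neg_eq_zero, neg_sub, sub_neg_eq_add, add_comm]
    exact h1

end GrFam

end Int

end Pool.Agent.YTD


end

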