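import Pool.Agent.YTDM.P27
import Pool.Agent.YTDM.P30

/- source: Pool.Agent.YTD.RedTriv -/

/-!
A test configuration of the quotient whose central fibre is reduced and whose filtration is
trivial up to dimension `O(N³)` is trivial.
-/

namespace Pool.Agent.YTD

open Finset Module MvPolynomial Filter

variable {K : Type} [Field K] [Algebra ℂ K]
variable {T : Datum K} {q : ℕ} {D₀ : T.X.Pt →₀ ℤ} {r : ℕ}

/-- The central fibre is reduced: the graded ring of the filtration has no nilpotents. -/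
def QFilt.Reduced {γ : Gam T} (χ : QFilt γ q D₀ r) : Prop := ∀ (N : ℕ) (l : ℤ), ∀ f ∈ χ.F N l,
  ∀ m : ℕ, 0 < m → f ^ m ∈ χ.F (m * N) (m * l + 1) → f ∈ χ.F N (l + 1)

theorem Datum.sec_hom (T : Datum K) {q : ℕ} {D₀ : T.X.Pt →₀ ℤ} {N : ℕ}
    {f : MvPolynomial (Fin 4) K} (hf : f ∈ T.sec q D₀ N) : f.IsHomogeneous (50 * q * N) := by
  intro e he
  obtain ⟨j, _, h2, h3, _⟩ := hf e he
  have h : e.degree = 50 * q * N := by
    have h1 : e.degree = e 0 + e 1 + e 2 + e 3 := by
      rw [Finsupp.degree_eq_sum]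
      simp [Fin.sum_univ_four]
    rw [h1]
    have : ((e 0 + e 1 + e 2 + e 3 : ℕ) : ℤ) = ((50 * q * N : ℕ) : ℤ) := by
      push_cast
      linarith
    exact_mod_cast this
  rw [← h, Finsupp.degree_eq_weight_one]
  rfl

theorem Gam.secQ_mul_mem (γ : Gam T) {q : ℕ} {D₀ : T.X.Pt →₀ ℤ} {N N' : ℕ}
    {f g : MvPolynomial (Fin 4) K} (hf : f ∈ γ.secQ q D₀ N) (hg : g ∈ γ.secQ q D₀ N') :
    f * g ∈ γ.secQ q D₀ (N + N') := by
  obtain ⟨h1, h2, h3, h4⟩ := hf
  obtain ⟨h1', h2', h3', h4'⟩ := hg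
  exact ⟨T.sec_mul_mem h1 h1', by rw [map_mul, h2, h2'], by rw [map_mul, h3, h3'],
    by rw [map_mul, h4, h4']⟩

theorem Gam.finite_secQ (γ : Gam T) (q : ℕ) (D₀ : T.X.Pt →₀ ℤ) (N : ℕ) :
    FiniteDimensional ℂ (γ.secQ q D₀ N) := by
  have := finite_sec T q D₀ N
  exact Submodule.finiteDimensional_of_le (γ.secQ_le q D₀ N)

/-- The sections of degree zero are the constants. -/
theorem Datum.sec_zero_const (T : Datum K) (q : ℕ) (D₀ : T.X.Pt →₀ ℤ) {f : MvPolynomial (Fin 4) K}
    (hf : f ∈ T.sec q D₀ 0) : ∃ c : ℂ, f = c • (1 : MvPolynomial (Fin 4) K) := by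
  obtain ⟨P₀⟩ := T.exists_pt
  have h0 : ∀ e, f.coeff e ≠ 0 → e = 0 ∧ f.coeff e ∈ T.X.L 0 := by
    intro e he
    obtain ⟨j, h1, h2, h3, h4⟩ := hf e he
    have hj : j = 0 := by simpa using h1
    subst hj
    simp only [Nat.cast_zero, mul_zero, add_zero, sub_zero] at h2 h3
    refine ⟨?_, ?_⟩
    · ext i
      have a0 : e 0 = 0 := by omega
      have a1 : e 1 = 0 := by omega
      have a2 : e 2 = 0 := by omega
      have a3 : e 3 = 0 := by omega
      fin_cases i
      · exact a0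
      · exact a1
      · exact a2
      · exact a3
    · have h5 : T.dvs q D₀ 0 0 = 0 := by
        unfold Datum.dvs
        simp
      unfold Datum.V at h4
      rwa [h5] at h4
  by_cases hf0 : f.coeff 0 = 0
  · refine ⟨0, ?_⟩
    rw [zero_smul]
    ext e
    rw [coeff_zero]
    by_contra he
    rw [(h0 e he).1] at he
    exact he hf0
  · obtain ⟨c, hc⟩ := T.X.exists_const P₀ (h0 0 hf0).2
    refine ⟨c, ?_⟩
    ext e
    rw [coeff_smul, coeff_one]
    by_cases he : 0 = e
    · rw [if_pos he, ← he, hc, Algebra.smul_def, mul_one]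
    · rw [if_neg he, smul_zero]
      by_contra h1
      exact he (h0 e h1).1.symm

/-- the graded family of all sections -/
noncomputable def Gam.fam (γ : Gam T) (q : ℕ) (D₀ : T.X.Pt →₀ ℤ) (r : ℕ) :
    GrFam K (Fin 4) (50 * q * r) where
  B N := γ.secQ q D₀ (r * N)
  hom := by
    intro N f hf
    have h := T.sec_hom hf.1
    have e : 50 * q * (r * N) = 50 * q * r * N := by ring
    rwa [e] at h
  mul := by
    intro N N' f hf g hg
    rw [mul_add]
    exact γ.secQ_mul_mem hf hg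
  one := by
    rw [mul_zero]
    exact ⟨one_mem_sec_zero T q D₀, map_one _, map_one _, map_one _⟩
  fin N := γ.finite_secQ q D₀ _

namespace QFilt

variable {γ : Gam T} (χ : QFilt γ q D₀ r)

/-- the graded family of the sections of maximal slope -/
noncomputable def slopeFam (c : ℤ) : GrFam K (Fin 4) (50 * q * r) where
  B N := χ.F N (c * N)
  hom := by
    intro N f hf
    exact (γ.fam q D₀ r).hom N f (χ.le _ _ hf)
  mul := by
    intro N N' f hf g hg
    have h := χ.mul _ _ _ _ f hf g hg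
    have e : c * ((N + N' : ℕ) : ℤ) = c * N + c * N' := by push_cast; ring
    rw [e]
    exact h
  one := by
    have h := χ.one_mem'
    have e : c * ((0 : ℕ) : ℤ) = 0 := by simp
    rwa [e]
  fin N := χ.finite_F _ _

theorem F_zero_eq_bot {l : ℤ} (hl : 0 < l) : χ.F 0 l = ⊥ := by
  obtain ⟨Λ, hΛ⟩ := χ.bound
  rw [eq_bot_iff, ← (hΛ 0).2]
  apply χ.anti
  simp
  omega

theorem F_zero_eq {l : ℤ} (hl : l ≤ 0) : χ.F 0 l = γ.secQ q D₀ (r * 0) := by
  obtain ⟨Λ, hΛ⟩ := χ.bound
  apply le_antisymm (χ.le _ _)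
  rw [← (hΛ 0).1]
  apply χ.anti
  simpa using hl

/-- the slope bound holds in all degrees -/
theorem slope_all {c : ℤ} (h1 : ∀ N : ℕ, 4 ≤ N → ∀ l : ℤ, χ.F N l ≠ ⊥ → l ≤ c * N) (N : ℕ) (l : ℤ)
    {f : MvPolynomial (Fin 4) K} (hf : f ∈ χ.F N l) (hf0 : f ≠ 0) : l ≤ c * N := by
  rcases Nat.eq_zero_or_pos N with rfl | hN
  · rcases le_or_gt l 0 with h | h
    · simpa using h
    · rw [χ.F_zero_eq_bot h] at hf
      exact (hf0 hf).elim
  · have h2 := χ.pow_mem hf 4
    have h3 := h1 (4 * N) (by omega) _ (fun h => by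
      rw [h, Submodule.mem_bot] at h2
      exact pow_ne_zero 4 hf0 h2)
    push_cast at h3
    linarith

end QFilt

/-- homogeneous generators of the sections of maximal slope -/
theorem QTestConf.exists_gen {γ : Gam T} (χ : QTestConf γ q D₀ r) {c : ℤ}
    (h1 : ∀ N : ℕ, 4 ≤ N → ∀ l : ℤ, χ.F N l ≠ ⊥ → l ≤ c * N) :
    Nonempty (χ.slopeFam c).Gen := by
  classical
  obtain ⟨k, n, w, f, hf, hspan⟩ := χ.fg
  set good : Fin k → Prop := fun i => 0 < n i ∧ w i = c * n i with hgood
  refine ⟨⟨k, fun i => if good i then n i else 1, fun i => if good i then f i else 0, ?_, ?_, ?_⟩⟩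
  · intro i
    split_ifs with h
    · exact h.1
    · exact one_pos
  · intro i
    split_ifs with h
    · show f i ∈ χ.F (n i) (c * n i)
      rw [← h.2]
      exact hf i
    · exact zero_mem _
  · intro N
    refine (hspan N (c * N)).trans ?_
    rw [Submodule.span_le]
    rintro _ ⟨m, hm1, hm2, rfl⟩
    by_cases h0 : ∏ i, f i ^ m i = 0
    · rw [h0]
      exact zero_mem _
    have hne : ∀ i, m i ≠ 0 → f i ≠ 0 := by
      intro i hi hfi
      apply h0
      apply prod_eq_zero (mem_univ i)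
      rw [hfi, zero_pow hi]
    have hle : ∀ i, (m i : ℤ) * w i ≤ c * (m i * n i) := by
      intro i
      by_cases hi : m i = 0
      · rw [hi]
        simp
      · have h2 := χ.slope_all h1 _ _ (hf i) (hne i hi)
        calc (m i : ℤ) * w i ≤ m i * (c * n i) := mul_le_mul_of_nonneg_left h2 (by positivity)
          _ = c * (m i * n i) := by ring
    have hsum : c * N = ∑ i, c * ((m i : ℤ) * n i) := by
      rw [← mul_sum, ← hm1]
      push_cast
      rfl
    have heq : ∀ i, (m i : ℤ) * w i = c * (m i * n i) := by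
      have h3 : ∑ i, (m i : ℤ) * w i = ∑ i, c * ((m i : ℤ) * n i) :=
        le_antisymm (sum_le_sum fun i _ => hle i) (hsum ▸ hm2)
      intro i
      exact (sum_eq_sum_iff_of_le fun i _ => hle i).1 h3 i (mem_univ i)
    have hbad : ∀ i, m i ≠ 0 → ¬ good i → n i = 0 := by
      intro i hi hb
      by_contra hn
      apply hb
      refine ⟨Nat.pos_of_ne_zero hn, ?_⟩
      have h3 := heq i
      have h4 : (m i : ℤ) ≠ 0 := by exact_mod_cast hi
      apply mul_left_cancel₀ h4
      rw [h3]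
      ring
    -- constants
    have hconst : ∀ i, ¬ good i → ∃ a : ℂ, f i ^ m i = a • (1 : MvPolynomial (Fin 4) K) := by
      intro i hb
      by_cases hi : m i = 0
      · exact ⟨1, by rw [hi, pow_zero, one_smul]⟩
      · have h3 := χ.le _ _ (hf i)
        rw [hbad i hi hb, mul_zero] at h3
        obtain ⟨a, ha⟩ := T.sec_zero_const q D₀ h3.1
        refine ⟨a ^ m i, ?_⟩
        rw [ha, smul_pow, one_pow]
    choose! a ha using hconst
    have hterm : ∀ i, f i ^ m i = (if good i then (1 : ℂ) else a i) •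
        (if good i then f i else 0) ^ (if good i then m i else 0) := by
      intro i
      by_cases h : good i
      · rw [if_pos h, if_pos h, if_pos h, one_smul]
      · rw [if_neg h, if_neg h, if_neg h, pow_zero]
        exact ha i h
    have hprod : ∏ i, f i ^ m i = (∏ i, if good i then (1 : ℂ) else a i) •
        ∏ i, (if good i then f i else 0) ^ (if good i then m i else 0) := by
      rw [prod_congr rfl fun i _ => hterm i]
      simp only [Algebra.smul_def, prod_mul_distrib, map_prod]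
    rw [hprod]
    apply Submodule.smul_mem
    apply Submodule.subset_span
    refine ⟨fun i => if good i then m i else 0, ?_, rfl⟩
    rw [← hm1]
    refine sum_congr rfl fun i _ => ?_
    dsimp only
    by_cases h : good i
    · rw [if_pos h, if_pos h]
    · rw [if_neg h, if_neg h, zero_mul]
      by_cases hi : m i = 0
      · rw [hi, zero_mul]
      · rw [hbad i hi h, mul_zero]

/-- A test configuration of the quotient with reduced central fibre which is trivial up to
dimension `O(N³)` is trivial. -/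
theorem QTestConf.trivial_of_deficit {γ : Gam T} (χ : QTestConf γ q D₀ r) (hq : 0 < q) (hr : 0 < r)
    (hred : χ.Reduced) {c : ℤ}
    (h1 : ∀ N : ℕ, 4 ≤ N → ∀ l : ℤ, χ.F N l ≠ ⊥ → l ≤ c * N) {C : ℝ}
    (h2 : ∀ N : ℕ, 4 ≤ N → (finrank ℂ (γ.secQ q D₀ (r * N)) : ℝ) -
      finrank ℂ (χ.F N (c * N)) ≤ C * (N : ℝ) ^ 3) {a : ℝ} (ha : 0 < a) {N₁ : ℕ}
    (h3 : ∀ N : ℕ, N₁ ≤ N → a * (N : ℝ) ^ 4 ≤ finrank ℂ (γ.secQ q D₀ (r * N))) (N : ℕ) (l : ℤ) :
    χ.F N l = if l ≤ c * N then γ.secQ q D₀ (r * N) else ⊥ := by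
  classical
  have hslope := fun N l f hf hf0 => χ.slope_all h1 N l (f := f) hf hf0
  obtain ⟨G⟩ := χ.exists_gen h1
  have hδ : 0 < 50 * q * r := by positivity
  have hBA : ∀ N, (χ.slopeFam c).B N ≤ (γ.fam q D₀ r).B N := fun N => χ.le _ _
  obtain ⟨N₂, hN₂⟩ := exists_nat_gt (2 * |C| / a)
  have hgr : ∀ N : ℕ, max (max N₁ N₂) 4 ≤ N →
      a / 2 * (N : ℝ) ^ 4 ≤ finrank ℂ ((χ.slopeFam c).B N) := by
    intro N hN
    have e1 := h3 N ((le_max_left _ _).trans ((le_max_left _ _).trans hN))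
    have e2 := h2 N ((le_max_right _ _).trans hN)
    have e3 : (N₂ : ℝ) ≤ N := by exact_mod_cast (le_max_right _ _).trans ((le_max_left _ _).trans hN)
    have e4 : 2 * |C| < a * N := by
      rw [div_lt_iff₀ ha] at hN₂
      nlinarith
    have e5 : C * (N : ℝ) ^ 3 ≤ |C| * N ^ 3 := by
      have := le_abs_self C
      gcongr
    have e6 : |C| * (N : ℝ) ^ 3 ≤ a / 2 * N ^ 4 := by
      have : (0 : ℝ) ≤ (N : ℝ) ^ 3 := by positivity
      have e7 : (a * N - 2 * |C|) * (N : ℝ) ^ 3 ≥ 0 := mul_nonneg (by linarith) this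
      nlinarith
    show a / 2 * (N : ℝ) ^ 4 ≤ finrank ℂ (χ.F N (c * N))
    linarith
  have hco : ∀ N : ℕ, max (max N₁ N₂) 4 ≤ N → (finrank ℂ ((γ.fam q D₀ r).B N) : ℝ) ≤
      finrank ℂ ((χ.slopeFam c).B N) + C * (N : ℝ) ^ 3 := by
    intro N hN
    have e2 := h2 N ((le_max_right _ _).trans hN)
    show (finrank ℂ (γ.secQ q D₀ (r * N)) : ℝ) ≤ finrank ℂ (χ.F N (c * N)) + C * (N : ℝ) ^ 3
    linarith
  -- every element has weight at least `c N`
  have key : ∀ (N : ℕ) (l : ℤ) (f : MvPolynomial (Fin 4) K), l < c * N → f ∈ χ.F N l →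
      f ∈ χ.F N (l + 1) := by
    intro N l f hl hf
    obtain ⟨e, m, b, he, hm, hb, heq⟩ := GrFam.exists_int_eq hδ G hBA (half_pos ha) hgr hco
      (χ.le _ _ hf)
    refine hred N l f hf (e * m) (Nat.mul_pos he hm) ?_
    rw [pow_mul, heq]
    refine Submodule.sum_mem _ fun i hi => ?_
    rw [Finset.mem_range] at hi
    have h4 : b i ∈ χ.F (e * N * (m - i)) (c * ((e * N * (m - i) : ℕ) : ℤ)) := hb i hi
    have h5 := χ.pow_mem (χ.pow_mem hf e) i
    have h6 := χ.mul _ _ _ _ _ h4 _ h5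
    obtain ⟨j, rfl⟩ := Nat.exists_eq_add_of_lt hi
    have e1 : i + j + 1 - i = j + 1 := by omega
    rw [e1] at h6
    have e2 : e * N * (j + 1) + i * (e * N) = e * (i + j + 1) * N := by ring
    rw [e2] at h6
    refine χ.anti _ _ _ ?_ h6
    have e3 : (1 : ℤ) ≤ e := by exact_mod_cast he
    have e4 : (0 : ℤ) ≤ j := by positivity
    have e5 : (1 : ℤ) ≤ (c * N - l) * e * (j + 1) := by
      have e6 : (1 : ℤ) ≤ c * N - l := by linarith
      have e7 : (1 : ℤ) ≤ (c * N - l) * e := by nlinarith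
      nlinarith
    push_cast
    nlinarith
  -- conclusion
  have hall : ∀ (N : ℕ) (k : ℕ), χ.F N (c * N) = χ.F N (c * N - k) := by
    intro N k
    induction k with
    | zero => simp
    | succ k ih =>
      rw [ih]
      apply le_antisymm
      · apply χ.anti
        push_cast
        linarith
      · intro f hf
        have h4 := key N (c * N - (k + 1 : ℕ)) f (by push_cast; linarith) hf
        have e : c * (N : ℤ) - ((k + 1 : ℕ) : ℤ) + 1 = c * N - k := by push_cast; ring
        rwa [e] at h4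
  split_ifs with hl
  · obtain ⟨Λ, hΛ⟩ := χ.bound
    apply le_antisymm (χ.le _ _)
    rw [← (hΛ N).1]
    have h4 : χ.F N (c * N) ≤ χ.F N l := χ.anti _ _ _ hl
    refine le_trans ?_ h4
    rcases le_or_gt (c * (N : ℤ)) (-(Λ * N)) with h5 | h5
    · exact χ.anti _ _ _ h5
    · obtain ⟨k, hk⟩ := Int.eq_ofNat_of_zero_le (show (0 : ℤ) ≤ c * N - -(Λ * N) by linarith)
      rw [hall N k]
      apply χ.anti
      rw [← hk]
      linarith
  · rw [eq_bot_iff]
    intro f hf
    by_contra hf0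
    exact hl (hslope N l f hf hf0)

end Pool.Agent.YTD
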