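import Pool.Agent.YTDM.P21
import Pool.Agent.YTDM.P25
import Pool.Agent.YTDM.P28
import Pool.Agent.YTDM.P29
import Pool.Agent.YTDM.P31

/- source: Pool.Agent.YTD.Fin4 -/

section

/-!
Rigidity of the graded filtration from the shape of the envelope.
-/

namespace Pool.Agent.YTD

open Finset Module Filter

variable {K : Type} [Field K] [Algebra ℂ K]
variable {T : Datum K} {q : ℕ} {D₀ : T.X.Pt →₀ ℤ}

theorem Graded.rigid_of_env (G : Graded T q D₀) (P₀ : T.X.Pt) (hq : 0 < q)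
    (hD : T.X.deg D₀ = 105 * T.t * q) {s₀ : ℝ} (hS : G.Crit s₀ 0)
    {al be ga : ℤ} {δ : ℝ} (H : ∀ k j a b, Int3 (4 * q) k j a b →
      (G.fam3 hD hq).m k j a b = al * a + be * b + ga * j + δ * 2 ^ k) :
    ∃ de : ℤ, (∀ N ≥ 4, ∀ (l : ℕ) (j : ℤ) (a b : ℕ), InR q N j a b → G.W N l j a b ≠ ⊥ →
      (l : ℤ) ≤ al * a + be * b + ga * j + de * N) ∧
    ∃ C : ℝ, ∀ N ≥ 4,
      ∑ j ∈ Icc (-((5 * q * N : ℕ) : ℤ)) ((5 * q * N : ℕ) : ℤ),
        ∑ a ∈ range (AA q N j + 1), ∑ b ∈ range (BB q N j + 1),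
          ∑ l ∈ Ioc 0 (al * a + be * b + ga * j + de * N),
            ((finrank ℂ (T.V q D₀ N j) : ℝ) - finrank ℂ (G.W N l.toNat j a b)) ≤ C * N ^ 3 := by
  have hk := G.kappa_le P₀ hq hD hS H
  refine Graded.rigid_of_kappa P₀ hq hD hS (x := δ / 4)
    (fun N hN j a b hin => Graded.nn_le_lin hD hq H hN hin) ?_
  rw [add_comm]
  exact hk

end Pool.Agent.YTD


end

/- source: Pool.Agent.YTD.Rigid14 -/

section

/-!
The rigidity theorem for graded filtrations with vanishing Futaki invariant.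
-/

namespace Pool.Agent.YTD

open Finset Module Filter

variable {K : Type} [Field K] [Algebra ℂ K]

/-- Theorem A: a torus-graded filtration with vanishing Futaki invariant is given, up to lower
order terms, by an integral linear form (one-sided hypotheses). -/
theorem thmA' {T : Datum K} {q : ℕ} {D₀ : T.X.Pt →₀ ℤ} (G : Graded T q D₀) (hq : 0 < q)
    (hD : T.X.deg D₀ = 105 * T.t * q) {s₀ : ℝ} (hS : G.Crit s₀ 0) :
    ∃ al be ga de : ℤ, G.RigidG al be ga de := by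
  have P₀ : T.X.Pt := T.exists_pt.some
  obtain ⟨al, be, ga, δ, H⟩ := G.linear P₀ hq hD hS
  obtain ⟨de, h1, h2⟩ := G.rigid_of_env P₀ hq hD hS H
  exact ⟨al, be, ga, de, h1, h2⟩

/-- Theorem A: a torus-graded filtration with vanishing Futaki invariant is given, up to lower
order terms, by an integral linear form. -/
theorem thmA (T : Datum K) : ThmA T := by
  intro q D₀ G hq hD s₀ hS
  have P₀ : T.X.Pt := T.exists_pt.some
  exact thmA' G hq hD (hS.crit hD P₀ hq)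

end Pool.Agent.YTD


end

/- source: Pool.Agent.YTD.SatL5 -/

section

/-!
Rigidity of the test configurations of the quotient with vanishing Futaki invariant.
-/

namespace Pool.Agent.YTD

open Finset Module MvPolynomial Filter

/-- comparison of leading coefficients -/
theorem lead_le {x y C : ℝ} {k : ℕ}
    (h : ∀ᶠ N : ℕ in atTop, x * (N : ℝ) ^ (k + 1) ≤ y * N ^ (k + 1) + C * N ^ k) : x ≤ y := by
  have hinv : Tendsto (fun N : ℕ => (1 : ℝ) / N) atTop (nhds 0) :=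
    tendsto_one_div_atTop_nhds_zero_nat
  have h1 : ∀ᶠ N : ℕ in atTop, x ≤ y + C * (1 / (N : ℝ)) := by
    filter_upwards [h, eventually_gt_atTop 0] with N hN h0
    have hp : (0 : ℝ) < N := by exact_mod_cast h0
    have e : y * (N : ℝ) ^ (k + 1) + C * N ^ k = (y + C * (1 / (N : ℝ))) * N ^ (k + 1) := by
      rw [pow_succ]
      field_simp
    rw [e] at hN
    exact le_of_mul_le_mul_right hN (by positivity)
  have h2 := (hinv.const_mul C).const_add y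
  rw [mul_zero, add_zero] at h2
  exact ge_of_tendsto h2 h1

variable {K : Type} [Field K] [Algebra ℂ K]
variable {T : Datum K} {q : ℕ} {D₀ : T.X.Pt →₀ ℤ} {r : ℕ}
variable {γ : Gam T} {L : ℕ}

/-- the dimensions of the quotient -/
theorem QFilt.eight_dimN (χ : QFilt γ q D₀ r) (hfix : γ.Fixes D₀)
    (hD : T.X.deg D₀ = 105 * T.t * q) (hq : 0 < q) (hr : 8 ≤ r) {N : ℕ} (hN : 1 ≤ N) :
    8 * χ.dimN N = (finrank ℂ (T.sec q D₀ (r * N)) : ℝ) := by
  have h8 : 8 ≤ r * N := hr.trans (Nat.le_mul_of_pos_right r hN)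
  unfold QFilt.dimN
  exact_mod_cast γ.finrank_secQ hfix (fun j hj => deg_bound_crit hD hq h8 j hj)

/-- The coefficients `a₀, a₁`. -/
theorem QFilt.a_eq (χ : QFilt γ q D₀ r) (hfix : γ.Fixes D₀)
    (hD : T.X.deg D₀ = 105 * T.t * q) (hq : 0 < q) (hr : 8 ≤ r)
    {a₀ a₁ b₀ b₁ c₀ : ℝ} (hE : χ.Expansion a₀ a₁ b₀ b₁ c₀) :
    a₀ = 534650 * T.t * ((r * q : ℕ) : ℝ) ^ 4 / 8 ∧ a₁ = 0 := by
  obtain ⟨C, hC⟩ := dim_sec_asymp (r := r) hq (by omega) hD
  refine coeff_unique (p := χ.dimN) (k := 2) hE.1 ⟨C / 8, ?_⟩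
  filter_upwards [hC, eventually_ge_atTop 1] with N h1 h2
  rw [← χ.eight_dimN hfix hD hq hr h2] at h1
  have e : χ.dimN N - (534650 * T.t * ((r * q : ℕ) : ℝ) ^ 4 / 8 * N ^ (2 + 2) + 0 * N ^ (2 + 1)) =
      (8 * χ.dimN N - 534650 * T.t * ((r * q : ℕ) : ℝ) ^ 4 * N ^ 4) / 8 := by ring
  rw [e, abs_div, abs_of_pos (by norm_num : (0 : ℝ) < 8)]
  rw [div_mul_eq_mul_div]
  exact div_le_div_of_nonneg_right h1 (by norm_num)

theorem QFilt.a0_pos (χ : QFilt γ q D₀ r) (hfix : γ.Fixes D₀)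
    (hD : T.X.deg D₀ = 105 * T.t * q) (hq : 0 < q) (hr : 8 ≤ r)
    {a₀ a₁ b₀ b₁ c₀ : ℝ} (hE : χ.Expansion a₀ a₁ b₀ b₁ c₀) : 0 < a₀ := by
  rw [(χ.a_eq hfix hD hq hr hE).1]
  have h1 : (0 : ℝ) < T.t := by exact_mod_cast T.t_pos
  have h2 : (0 : ℝ) < ((r * q : ℕ) : ℝ) := by
    have : 0 < r * q := Nat.mul_pos (by omega) hq
    exact_mod_cast this
  positivity

theorem QTestConf.sat_bdd (χ : QTestConf γ q D₀ r) (hfix : γ.Fixes D₀)
    (hD : T.X.deg D₀ = 105 * T.t * q) (hq : 0 < q) (hr : 8 ≤ r) (hL : χ.toQFilt.Bdd L) :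
    (χ.toQFilt.sat hfix hD hq hr).Bdd L := fun N => χ.toQFilt.sat_bound hfix hD hq hr hL N

/-- The one-sided hypotheses hold for all twists and all monomial orders. -/
theorem QTestConf.crit (χ : QTestConf γ q D₀ r) (hfix : γ.Fixes D₀)
    (hD : T.X.deg D₀ = 105 * T.t * q) (hq : 0 < q) (hr : 8 ≤ r) (hL : χ.toQFilt.Bdd L)
    {a₀ a₁ b₀ b₁ c₀ : ℝ} (hE : χ.Expansion a₀ a₁ b₀ b₁ c₀) (E : Autom K) (hE' : Pres T q D₀ E)
    (m : MonomialOrder (Fin 4)) :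
    (((χ.toQFilt.sat hfix hD hq hr).tw E hE').gradedL
      (Filt.Bdd.tw _ (χ.sat_bdd hfix hD hq hr hL) E hE') m).Crit
      (8 * (b₀ + L * a₀)) (8 * (b₁ + L * a₁)) :=
  Filt.crit_of_hyp _ hq (by omega) hD ((χ.upHyp hfix hD hq hr hL hE).tw E hE')
    ((χ.lowHyp hfix hD hq hr hL hE).tw E hE') m

theorem pres_refl : Pres T q D₀ (AlgEquiv.refl : Autom K) := by
  intro N
  exact Submodule.map_id _

/-- K-semistability of the quotient -/
theorem QTestConf.b1_nonpos (χ : QTestConf γ q D₀ r) (hfix : γ.Fixes D₀)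
    (hD : T.X.deg D₀ = 105 * T.t * q) (hq : 0 < q) (hr : 8 ≤ r)
    {a₀ a₁ b₀ b₁ c₀ : ℝ} (hE : χ.Expansion a₀ a₁ b₀ b₁ c₀) : b₁ ≤ 0 := by
  obtain ⟨L, hL⟩ := χ.bound
  obtain ⟨P₀⟩ := T.exists_pt
  have h := (χ.crit hfix hD hq hr (L := L) hL hE AlgEquiv.refl pres_refl
    MonomialOrder.lex).s1_nonpos P₀ (Filt.deg_smul' hD) (Nat.mul_pos (by omega) hq)
  rw [(χ.toQFilt.a_eq hfix hD hq hr hE).2] at h
  linarith

/-- Rigidity of the saturated filtration. -/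
theorem QTestConf.allRigid (χ : QTestConf γ q D₀ r) (hfix : γ.Fixes D₀)
    (hD : T.X.deg D₀ = 105 * T.t * q) (hq : 0 < q) (hr : 8 ≤ r)
    {a₀ a₁ b₀ c₀ : ℝ} (hE : χ.Expansion a₀ a₁ b₀ 0 c₀) :
    (χ.toQFilt.sat hfix hD hq hr).AllRigid := by
  obtain ⟨L, hL⟩ := χ.bound
  intro g h hg hh m
  have h1 := χ.crit hfix hD hq hr (L := L) hL hE (substE K g h hg hh) (pres_substE hg hh) m
  rw [(χ.toQFilt.a_eq hfix hD hq hr hE).2, mul_zero, add_zero, mul_zero] at h1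
  obtain ⟨al, be, ga, de, h2⟩ := thmA' _ (Nat.mul_pos (by omega) hq) (Filt.deg_smul' hD) h1
  exact ⟨al, be, ga, _, Filt.Rigid.of_gradedL _ h2⟩

/-- The maximal slope of a test configuration is attained. -/
theorem QTestConf.exists_max (χ : QTestConf γ q D₀ r) (hfix : γ.Fixes D₀)
    (hD : T.X.deg D₀ = 105 * T.t * q) (hq : 0 < q) (hr : 8 ≤ r) :
    ∃ (N₀ : ℕ) (l₀ : ℤ), 0 < N₀ ∧ (∃ s ∈ χ.F N₀ l₀, s ≠ 0) ∧
      ∀ (N : ℕ) (l : ℤ), χ.F N l ≠ ⊥ → l * N₀ ≤ l₀ * N := by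
  classical
  obtain ⟨L, hL⟩ := χ.bound
  obtain ⟨k, n, w, f, hf, hspan⟩ := χ.fg
  -- the indices that matter
  let I : Finset (Fin k) := univ.filter fun i => f i ≠ 0 ∧ 0 < n i
  -- a non-zero product
  have hprod : ∀ N l, χ.F N l ≠ ⊥ → ∃ mm : Fin k → ℕ, ∑ i, mm i * n i = N ∧
      l ≤ ∑ i, mm i * w i ∧ ∀ i, mm i ≠ 0 → f i ≠ 0 := by
    intro N l hne
    by_contra hcon
    push Not at hcon
    apply hne
    rw [eq_bot_iff]
    refine (hspan N l).trans ?_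
    rw [Submodule.span_le]
    rintro g ⟨mm, h1, h2, rfl⟩
    obtain ⟨i, h3, h4⟩ := hcon mm h1 h2
    show ∏ i, f i ^ mm i ∈ (⊥ : Submodule ℂ (MvPolynomial (Fin 4) K))
    rw [Submodule.mem_bot]
    apply prod_eq_zero (mem_univ i)
    rw [h4, zero_pow h3]
  -- weights of degree zero are nonpositive
  have hw0 : ∀ i, f i ≠ 0 → n i = 0 → w i ≤ 0 := by
    intro i h1 h2
    by_contra h3
    have h4 := hf i
    rw [h2, QFilt.Bdd.F_of_gt χ.toQFilt hL (by push_cast; push Not at h3; linarith),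
      Submodule.mem_bot] at h4
    exact h1 h4
  have hI : I.Nonempty := by
    obtain ⟨e, he, he0⟩ := γ.exists_secQ_ne_zero hfix hD hq hr
    have hne : χ.F 1 (-(L : ℤ)) ≠ ⊥ := by
      intro h0
      have h := (hL 1).1
      rw [Nat.cast_one, mul_one, mul_one] at h
      rw [h] at h0
      rw [h0, Submodule.mem_bot] at he
      exact he0 he
    obtain ⟨mm, h1, _, h3⟩ := hprod _ _ hne
    obtain ⟨i, _, hi⟩ := exists_ne_zero_of_sum_ne_zero (s := univ) (f := fun i => mm i * n i)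
      (by rw [h1]; norm_num)
    exact ⟨i, mem_filter.2 ⟨mem_univ i, h3 i (left_ne_zero_of_mul hi),
      Nat.pos_of_ne_zero (right_ne_zero_of_mul hi)⟩⟩
  obtain ⟨i₀, hi₀, hmax⟩ := I.exists_max_image (fun i => (w i : ℚ) / n i) hI
  obtain ⟨_, hi0, hi1⟩ := mem_filter.1 hi₀
  have hmax' : ∀ i, f i ≠ 0 → w i * (n i₀ : ℤ) ≤ w i₀ * n i := by
    intro i h1
    rcases Nat.eq_zero_or_pos (n i) with h2 | h2
    · rw [h2]
      have := hw0 i h1 h2
      have h3 : (0 : ℤ) ≤ n i₀ := by positivity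
      push_cast
      nlinarith
    · have h3 := hmax i (mem_filter.2 ⟨mem_univ i, h1, h2⟩)
      have h4 : (0 : ℚ) < n i := by exact_mod_cast h2
      have h5 : (0 : ℚ) < n i₀ := by exact_mod_cast hi1
      rw [div_le_div_iff₀ h4 h5] at h3
      exact_mod_cast h3
  refine ⟨n i₀, w i₀, hi1, ⟨f i₀, hf i₀, hi0⟩, ?_⟩
  intro N l hne
  obtain ⟨mm, h1, h2, h3⟩ := hprod N l hne
  have h4 : (∑ i, (mm i : ℤ) * w i) * n i₀ ≤ w i₀ * N := by
    rw [← h1]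
    push_cast
    rw [sum_mul, mul_sum]
    apply sum_le_sum
    intro i _
    by_cases h5 : mm i = 0
    · rw [h5]
      simp
    · have := hmax' i (h3 i h5)
      have h6 : (0 : ℤ) ≤ mm i := by positivity
      nlinarith
  have h7 : (0 : ℤ) ≤ n i₀ := by positivity
  nlinarith

/-- The data of a rigid test configuration. -/
theorem QTestConf.exists_slope (χ : QTestConf γ q D₀ r) (hfix : γ.Fixes D₀)
    (hD : T.X.deg D₀ = 105 * T.t * q) (hq : 0 < q) (hr : 8 ≤ r)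
    {a₀ a₁ b₀ c₀ : ℝ} (hE : χ.Expansion a₀ a₁ b₀ 0 c₀) :
    ∃ c : ℤ, (∀ N : ℕ, 4 ≤ N → ∀ l : ℤ, χ.F N l ≠ ⊥ → l ≤ c * N) ∧ (c : ℝ) * a₀ ≤ b₀ := by
  obtain ⟨L, hL⟩ := χ.bound
  obtain ⟨P₀⟩ := T.exists_pt
  obtain ⟨N₀, l₀, hN₀, ⟨s, hs, hs0⟩, hslope⟩ := χ.exists_max hfix hD hq hr
  set F := χ.toQFilt.sat hfix hD hq hr with hF
  have hle : ∀ N l, χ.F N l ≤ F.F N l := fun N l => T.X.le_satD _
  have hbot : ∀ N l, F.F N l ≠ ⊥ → χ.F N l ≠ ⊥ := by
    intro N l h1 h2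
    apply h1
    rw [hF, QFilt.sat_F, h2, T.X.satD_zero_bot P₀]
  obtain ⟨c, h1, C, hC0, h2⟩ := F.exists_trivial γ hfix (χ.toQFilt.sat_gamInv hfix hD hq hr)
    (χ.allRigid hfix hD hq hr hE) hD hq (by omega) hN₀ (hle _ _ hs) hs0
    (fun N l h => hslope N l (hbot N l h))
  refine ⟨c, ?_, ?_⟩
  · intro N hN l hne
    apply h1 N hN l
    intro h3
    apply hne
    rw [eq_bot_iff, ← h3]
    exact hle N l
  · -- comparison of the leading coefficients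
    have hcr := χ.crit hfix hD hq hr (L := L) hL hE AlgEquiv.refl pres_refl MonomialOrder.lex
    obtain ⟨C₁, hC₁⟩ := hcr.tot_le (Filt.deg_smul' hD) P₀ (Nat.mul_pos (by omega) hq)
    obtain ⟨C₂, hC₂⟩ := dim_sec_asymp (r := r) hq (by omega) hD
    obtain ⟨ha0, ha1⟩ := χ.toQFilt.a_eq hfix hD hq hr hE
    have key : ∀ᶠ N : ℕ in atTop, (8 * ((c : ℝ) + L) * a₀) * (N : ℝ) ^ (4 + 1) ≤
        (8 * (b₀ + L * a₀)) * N ^ (4 + 1) + (C₁ + C + |(c : ℝ) + L| * |C₂|) * N ^ 4 := by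
      filter_upwards [hC₂, eventually_ge_atTop 4] with N g1 g2
      have hN1 : (1 : ℝ) ≤ N := by
        have : 1 ≤ N := by omega
        exact_mod_cast this
      have g3 := hC₁ N g2
      rw [Filt.gradedL_tot _ _ _ P₀, Filt.totL_tw] at g3
      have g4 := h2 N g2 L
      have g5 : F.dimN N = (finrank ℂ (T.sec q D₀ (r * N)) : ℝ) := rfl
      rw [sum_sub_distrib, sum_const, Int.card_Ioc, nsmul_eq_mul, g5] at g4
      have g6 : ((c * N - -((L : ℤ) * N)).toNat : ℝ) ≥ ((c : ℝ) + L) * N := by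
        have := Int.self_le_toNat (c * N - -((L : ℤ) * N))
        have h3 : (((c * N - -((L : ℤ) * N)) : ℤ) : ℝ) ≤
          (((c * N - -((L : ℤ) * N)).toNat : ℤ) : ℝ) := by exact_mod_cast this
        push_cast at h3
        have h4 : (((c * N - -((L : ℤ) * N)).toNat : ℤ) : ℝ) =
          ((c * N - -((L : ℤ) * N)).toNat : ℝ) := by rfl
        linarith
      have g7 : ∑ l ∈ Ioc (-((L : ℤ) * N)) (c * N), (finrank ℂ (F.F N l) : ℝ) ≤ F.totL L N := by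
        unfold Filt.totL
        have e1 : ∑ l ∈ Ioc (-((L : ℤ) * N)) (c * N), (finrank ℂ (F.F N l) : ℝ) =
            ∑ l ∈ (Ioc (-((L : ℤ) * N)) (c * N)).filter (fun l : ℤ => l ≤ (L : ℤ) * N),
              (finrank ℂ (F.F N l) : ℝ) := by
          symm
          apply sum_subset (filter_subset _ _)
          intro l hl hl'
          rw [mem_filter] at hl'
          push Not at hl'
          rw [Filt.Bdd.F_of_gt F (χ.sat_bdd hfix hD hq hr hL) (hl' hl), finrank_bot,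
            Nat.cast_zero]
        rw [e1]
        apply sum_le_sum_of_subset_of_nonneg
        · intro l hl
          rw [mem_filter, mem_Ioc] at hl
          rw [mem_Ioc]
          push_cast
          exact ⟨hl.1.1, hl.2⟩
        · intro _ _ _
          positivity
      have g8 : ((c : ℝ) + L) * N * (finrank ℂ (T.sec q D₀ (r * N)) : ℝ) ≤
          ((c * N - -((L : ℤ) * N)).toNat : ℝ) * (finrank ℂ (T.sec q D₀ (r * N)) : ℝ) :=
        mul_le_mul_of_nonneg_right g6 (by positivity)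
      have g9 : ((c : ℝ) + L) * (8 * a₀ * N ^ 4) - |(c : ℝ) + L| * (|C₂| * N ^ 2) ≤
          ((c : ℝ) + L) * (finrank ℂ (T.sec q D₀ (r * N)) : ℝ) := by
        have e2 : 8 * a₀ * (N : ℝ) ^ 4 = 534650 * T.t * ((r * q : ℕ) : ℝ) ^ 4 * N ^ 4 := by
          rw [ha0]
          ring
        rw [e2]
        have h5 : |((c : ℝ) + L) * ((finrank ℂ (T.sec q D₀ (r * N)) : ℝ) -
            534650 * T.t * ((r * q : ℕ) : ℝ) ^ 4 * N ^ 4)| ≤ |(c : ℝ) + L| * (|C₂| * N ^ 2) := by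
          rw [abs_mul]
          apply mul_le_mul_of_nonneg_left _ (abs_nonneg _)
          exact g1.trans (mul_le_mul_of_nonneg_right (le_abs_self _) (by positivity))
        have h6 := (abs_le.1 h5).1
        linarith
      have g10 := mul_le_mul_of_nonneg_right g9 (by positivity : (0 : ℝ) ≤ N)
      have k1 : |(c : ℝ) + L| * (|C₂| * (N : ℝ) ^ 2) * N ≤ |(c : ℝ) + L| * |C₂| * N ^ 4 := by
        have h3 : (N : ℝ) ^ 3 ≤ (N : ℝ) ^ 4 := pow_le_pow_right₀ hN1 (by norm_num)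
        calc |(c : ℝ) + L| * (|C₂| * (N : ℝ) ^ 2) * N = |(c : ℝ) + L| * |C₂| * (N : ℝ) ^ 3 := by ring
          _ ≤ _ := mul_le_mul_of_nonneg_left h3 (by positivity)
      have k2 : C * (N : ℝ) ^ 3 ≤ C * N ^ 4 :=
        mul_le_mul_of_nonneg_left (pow_le_pow_right₀ hN1 (by norm_num)) hC0
      have e3 : (8 * ((c : ℝ) + L) * a₀) * (N : ℝ) ^ (4 + 1) =
        ((c : ℝ) + L) * (8 * a₀ * N ^ 4) * N := by ring
      have e4 : (C₁ + C + |(c : ℝ) + L| * |C₂|) * (N : ℝ) ^ 4 =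
        C₁ * N ^ 4 + C * N ^ 4 + |(c : ℝ) + L| * |C₂| * N ^ 4 := by ring
      rw [e3, e4]
      have e5 : (8 * (b₀ + (L : ℝ) * a₀)) * (N : ℝ) ^ (4 + 1) =
        8 * (b₀ + L * a₀) * N ^ 5 := by ring
      rw [e5]
      linarith
    have h3 := lead_le key
    linarith

end Pool.Agent.YTD


end

/- source: Pool.Agent.YTD.SatL6 -/

section

/-!
K-stability of the quotient.
-/

namespace Pool.Agent.YTD

open Finset Module MvPolynomial Filter

variable {K : Type} [Field K] [Algebra ℂ K]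
variable {T : Datum K} {q : ℕ} {D₀ : T.X.Pt →₀ ℤ} {r : ℕ}
variable {γ : Gam T} {L : ℕ}

/-- A filtration of the quotient whose slopes are at most `c` satisfies `b₀ ≤ c a₀`, and its norm
vanishes in the case of equality. -/
theorem QFilt.norm_le (χ : QFilt γ q D₀ r) (hL : χ.Bdd L)
    {a₀ b₀ c₀ : ℝ} (hE : χ.Expansion a₀ 0 b₀ 0 c₀) {c : ℤ}
    (hc : ∀ N : ℕ, 4 ≤ N → ∀ l : ℤ, χ.F N l ≠ ⊥ → l ≤ c * N) :
    b₀ ≤ c * a₀ ∧ (b₀ = c * a₀ → c₀ ≤ (c : ℝ) ^ 2 * a₀) := by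
  obtain ⟨⟨E1, hE1⟩, ⟨E2, hE2⟩, ⟨E3, hE3⟩⟩ := hE
  -- the weights vanish above the slope
  have hw : ∀ N : ℕ, 4 ≤ N → ∀ l : ℤ, c * N < l → χ.wt N l = 0 := by
    intro N hN l hl
    have h1 : χ.F N l = ⊥ := by
      by_contra h
      have := hc N hN l h
      linarith
    have h2 : χ.F N (l + 1) = ⊥ := by
      by_contra h
      have := hc N hN (l + 1) h
      linarith
    unfold QFilt.wt
    rw [h1, h2, sub_self]
  -- first moment
  have m1 : ∀ N : ℕ, ∑ l ∈ Icc (-((L * N : ℕ) : ℤ)) ((L * N : ℕ) : ℤ),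
      ((c : ℝ) * N - l) * χ.wt N l = c * N * χ.dimN N - χ.tr 1 N := by
    intro N
    rw [QFilt.Bdd.dimN_eq χ hL N, QFilt.Bdd.tr_eq χ hL 1 N, mul_sum, ← sum_sub_distrib]
    apply sum_congr rfl
    intro l _
    ring
  have m2 : ∀ N : ℕ, ∑ l ∈ Icc (-((L * N : ℕ) : ℤ)) ((L * N : ℕ) : ℤ),
      ((c : ℝ) * N - l) ^ 2 * χ.wt N l =
      (c : ℝ) ^ 2 * N ^ 2 * χ.dimN N - 2 * c * N * χ.tr 1 N + χ.tr 2 N := by
    intro N
    rw [QFilt.Bdd.dimN_eq χ hL N, QFilt.Bdd.tr_eq χ hL 1 N, QFilt.Bdd.tr_eq χ hL 2 N, mul_sum,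
      mul_sum, ← sum_sub_distrib, ← sum_add_distrib]
    apply sum_congr rfl
    intro l _
    ring
  have pos1 : ∀ N : ℕ, 4 ≤ N → 0 ≤ (c : ℝ) * N * χ.dimN N - χ.tr 1 N := by
    intro N hN
    rw [← m1]
    apply sum_nonneg
    intro l _
    rcases le_or_gt l (c * N) with h | h
    · apply mul_nonneg _ (χ.wt_nonneg N l)
      have : (l : ℝ) ≤ c * N := by exact_mod_cast h
      linarith
    · rw [hw N hN l h, mul_zero]
  have comp : ∀ N : ℕ, 4 ≤ N → (c : ℝ) ^ 2 * N ^ 2 * χ.dimN N - 2 * c * N * χ.tr 1 N + χ.tr 2 N ≤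
      (|(c : ℝ)| + L) * N * ((c : ℝ) * N * χ.dimN N - χ.tr 1 N) := by
    intro N hN
    rw [← m1, ← m2, mul_sum]
    apply sum_le_sum
    intro l hl
    rcases le_or_gt l (c * N) with h | h
    · have h1 : (l : ℝ) ≤ c * N := by exact_mod_cast h
      have h2 : -((L : ℝ) * N) ≤ l := by
        have := (mem_Icc.1 hl).1
        exact_mod_cast this
      have h3 : (c : ℝ) * N ≤ |(c : ℝ)| * N := mul_le_mul_of_nonneg_right (le_abs_self _) (by positivity)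
      rw [sq, mul_assoc]
      apply mul_le_mul_of_nonneg_right _ (mul_nonneg (by linarith) (χ.wt_nonneg N l))
      linarith
    · rw [hw N hN l h, mul_zero, mul_zero, mul_zero]
  have hge : ∀ᶠ N : ℕ in atTop, 4 ≤ N := eventually_ge_atTop 4
  constructor
  · -- `b₀ ≤ c a₀`
    have key : ∀ᶠ N : ℕ in atTop, b₀ * (N : ℝ) ^ (4 + 1) ≤ (c * a₀) * N ^ (4 + 1) +
        (|(c : ℝ)| * |E1| + |E2|) * N ^ 4 := by
      filter_upwards [hE1, hE2, hge] with N g1 g2 g3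
      have hN1 : (1 : ℝ) ≤ N := by
        have : 1 ≤ N := by omega
        exact_mod_cast this
      have g4 := pos1 N g3
      have g5 := (abs_le.1 g2).1
      have g6 : |(c : ℝ) * N * (χ.dimN N - (a₀ * N ^ 4 + 0 * N ^ 3))| ≤
          |(c : ℝ)| * N * (E1 * N ^ 2) := by
        rw [abs_mul, abs_mul, Nat.abs_cast]
        exact mul_le_mul_of_nonneg_left g1 (by positivity)
      have g7 := (abs_le.1 g6).2
      have k1 : |(c : ℝ)| * N * (E1 * N ^ 2) ≤ |(c : ℝ)| * |E1| * N ^ 4 := by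
        have h3 : (N : ℝ) ^ 3 ≤ (N : ℝ) ^ 4 := pow_le_pow_right₀ hN1 (by norm_num)
        calc |(c : ℝ)| * N * (E1 * N ^ 2) = |(c : ℝ)| * E1 * (N : ℝ) ^ 3 := by ring
          _ ≤ |(c : ℝ)| * |E1| * (N : ℝ) ^ 3 := by
              apply mul_le_mul_of_nonneg_right _ (by positivity)
              exact mul_le_mul_of_nonneg_left (le_abs_self _) (abs_nonneg _)
          _ ≤ _ := mul_le_mul_of_nonneg_left h3 (by positivity)
      have k2 : E2 * (N : ℝ) ^ 3 ≤ |E2| * N ^ 4 := by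
        have h3 : (N : ℝ) ^ 3 ≤ (N : ℝ) ^ 4 := pow_le_pow_right₀ hN1 (by norm_num)
        calc E2 * (N : ℝ) ^ 3 ≤ |E2| * (N : ℝ) ^ 3 :=
              mul_le_mul_of_nonneg_right (le_abs_self _) (by positivity)
          _ ≤ _ := mul_le_mul_of_nonneg_left h3 (abs_nonneg _)
      have e1 : b₀ * (N : ℝ) ^ (4 + 1) = b₀ * N ^ 5 := by ring
      have e2 : (c * a₀) * (N : ℝ) ^ (4 + 1) = c * N * (a₀ * N ^ 4 + 0 * N ^ 3) := by ring
      rw [e1, e2]
      linarith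
    exact lead_le key
  · intro hb
    have key : ∀ᶠ N : ℕ in atTop, c₀ * (N : ℝ) ^ (5 + 1) ≤ ((c : ℝ) ^ 2 * a₀) * N ^ (5 + 1) +
        (((|(c : ℝ)| + L) * |(c : ℝ)| + (c : ℝ) ^ 2) * |E1| +
          (|(c : ℝ)| + L + 2 * |(c : ℝ)|) * |E2| + |E3|) * N ^ 5 := by
      filter_upwards [hE1, hE2, hE3, hge] with N g1 g2 g3 g4
      have hN1 : (1 : ℝ) ≤ N := by
        have : 1 ≤ N := by omega
        exact_mod_cast this
      have g5 := comp N g4
      -- set up the errors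
      set x := χ.dimN N - (a₀ * N ^ 4 + 0 * N ^ 3) with hx
      set y := χ.tr 1 N - (b₀ * N ^ 5 + 0 * N ^ 4) with hy
      set z := χ.tr 2 N - c₀ * N ^ 6 with hz
      have ex : χ.dimN N = a₀ * N ^ 4 + x := by rw [hx]; ring
      have ey : χ.tr 1 N = b₀ * N ^ 5 + y := by rw [hy]; ring
      have ez : χ.tr 2 N = c₀ * N ^ 6 + z := by rw [hz]; ring
      have n34 : (N : ℝ) ^ 3 ≤ (N : ℝ) ^ 4 := pow_le_pow_right₀ hN1 (by norm_num)
      have n45 : (N : ℝ) ^ 4 ≤ (N : ℝ) ^ 5 := pow_le_pow_right₀ hN1 (by norm_num)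
      have x1 : |x| ≤ |E1| * N ^ 2 := g1.trans (mul_le_mul_of_nonneg_right (le_abs_self _) (by positivity))
      have y1 : |y| ≤ |E2| * N ^ 3 := g2.trans (mul_le_mul_of_nonneg_right (le_abs_self _) (by positivity))
      have z1 : |z| ≤ |E3| * N ^ 5 := g3.trans (mul_le_mul_of_nonneg_right (le_abs_self _) (by positivity))
      rw [ex, ey, ez, hb] at g5
      -- the inequality for the leading coefficients
      have g6 : c₀ * (N : ℝ) ^ 6 ≤ ((c : ℝ) ^ 2 * a₀) * N ^ 6 +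
          ((|(c : ℝ)| + L) * N * (c * N * x - y) - (c : ℝ) ^ 2 * N ^ 2 * x + 2 * c * N * y - z) := by
        nlinarith [g5]
      have t1 : (|(c : ℝ)| + L) * N * (c * N * x - y) ≤
          (|(c : ℝ)| + L) * |(c : ℝ)| * |E1| * N ^ 5 + (|(c : ℝ)| + L) * |E2| * N ^ 5 := by
        have u1 : (c : ℝ) * N * x - y ≤ |(c : ℝ)| * N * (|E1| * N ^ 2) + |E2| * N ^ 3 := by
          have v1 : (c : ℝ) * N * x ≤ |(c : ℝ)| * N * (|E1| * N ^ 2) := by
            calc (c : ℝ) * N * x ≤ |(c : ℝ) * N * x| := le_abs_self _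
              _ = |(c : ℝ)| * N * |x| := by rw [abs_mul, abs_mul, Nat.abs_cast]
              _ ≤ _ := mul_le_mul_of_nonneg_left x1 (by positivity)
          have v2 : -y ≤ |E2| * N ^ 3 := (neg_le_abs y).trans y1
          linarith
        calc (|(c : ℝ)| + L) * N * (c * N * x - y) ≤
            (|(c : ℝ)| + L) * N * (|(c : ℝ)| * N * (|E1| * N ^ 2) + |E2| * N ^ 3) :=
              mul_le_mul_of_nonneg_left u1 (by positivity)
          _ = (|(c : ℝ)| + L) * |(c : ℝ)| * |E1| * (N : ℝ) ^ 4 + (|(c : ℝ)| + L) * |E2| * (N : ℝ) ^ 4 := by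
              ring
          _ ≤ _ := add_le_add (mul_le_mul_of_nonneg_left n45 (by positivity))
              (mul_le_mul_of_nonneg_left n45 (by positivity))
      have t2 : -((c : ℝ) ^ 2 * N ^ 2 * x) ≤ (c : ℝ) ^ 2 * |E1| * N ^ 5 := by
        calc -((c : ℝ) ^ 2 * N ^ 2 * x) ≤ |(c : ℝ) ^ 2 * N ^ 2 * x| := neg_le_abs _
          _ = (c : ℝ) ^ 2 * N ^ 2 * |x| := by
              rw [abs_mul, abs_of_nonneg (by positivity : (0 : ℝ) ≤ (c : ℝ) ^ 2 * N ^ 2)]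
          _ ≤ (c : ℝ) ^ 2 * N ^ 2 * (|E1| * N ^ 2) := mul_le_mul_of_nonneg_left x1 (by positivity)
          _ = (c : ℝ) ^ 2 * |E1| * (N : ℝ) ^ 4 := by ring
          _ ≤ _ := mul_le_mul_of_nonneg_left n45 (by positivity)
      have t3 : 2 * (c : ℝ) * N * y ≤ 2 * |(c : ℝ)| * |E2| * N ^ 5 := by
        calc 2 * (c : ℝ) * N * y ≤ |2 * (c : ℝ) * N * y| := le_abs_self _
          _ = 2 * |(c : ℝ)| * N * |y| := by
              rw [abs_mul, abs_mul, abs_mul, Nat.abs_cast, abs_of_pos (by norm_num : (0 : ℝ) < 2)]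
          _ ≤ 2 * |(c : ℝ)| * N * (|E2| * N ^ 3) := mul_le_mul_of_nonneg_left y1 (by positivity)
          _ = 2 * |(c : ℝ)| * |E2| * (N : ℝ) ^ 4 := by ring
          _ ≤ _ := mul_le_mul_of_nonneg_left n45 (by positivity)
      have t4 : -z ≤ |E3| * N ^ 5 := (neg_le_abs z).trans z1
      have e1 : c₀ * (N : ℝ) ^ (5 + 1) = c₀ * N ^ 6 := by ring
      have e2 : ((c : ℝ) ^ 2 * a₀) * (N : ℝ) ^ (5 + 1) = ((c : ℝ) ^ 2 * a₀) * N ^ 6 := by ring
      have e3 : (((|(c : ℝ)| + L) * |(c : ℝ)| + (c : ℝ) ^ 2) * |E1| +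
          (|(c : ℝ)| + L + 2 * |(c : ℝ)|) * |E2| + |E3|) * (N : ℝ) ^ 5 =
          (|(c : ℝ)| + L) * |(c : ℝ)| * |E1| * N ^ 5 + (|(c : ℝ)| + L) * |E2| * N ^ 5 +
          (c : ℝ) ^ 2 * |E1| * N ^ 5 + 2 * |(c : ℝ)| * |E2| * N ^ 5 + |E3| * N ^ 5 := by ring
      rw [e1, e2, e3]
      linarith
    exact lead_le key

/-- Test configurations of the quotient with vanishing Futaki invariant. -/
theorem QTestConf.exists_slope' (χ : QTestConf γ q D₀ r) (hfix : γ.Fixes D₀)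
    (hD : T.X.deg D₀ = 105 * T.t * q) (hq : 0 < q) (hr : 8 ≤ r)
    {a₀ a₁ b₀ c₀ : ℝ} (hE : χ.Expansion a₀ a₁ b₀ 0 c₀) :
    ∃ c : ℤ, (∀ N : ℕ, 4 ≤ N → ∀ l : ℤ, χ.F N l ≠ ⊥ → l ≤ c * N) ∧ b₀ = c * a₀ ∧
      c₀ - b₀ ^ 2 / a₀ ≤ 0 := by
  obtain ⟨L, hL⟩ := χ.bound
  have ha := χ.toQFilt.a0_pos hfix hD hq hr hE
  obtain ⟨c, h1, h2⟩ := χ.exists_slope hfix hD hq hr hE
  have ha1 := (χ.toQFilt.a_eq hfix hD hq hr hE).2
  subst ha1
  obtain ⟨h3, h4⟩ := χ.toQFilt.norm_le (L := L) hL hE h1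
  have hb : b₀ = c * a₀ := le_antisymm h3 h2
  refine ⟨c, h1, hb, ?_⟩
  have h5 := h4 hb
  have e : b₀ ^ 2 / a₀ = (c : ℝ) ^ 2 * a₀ := by
    rw [hb]
    field_simp
  rw [e]
  linarith

/-- K-stability for large exponents. -/
theorem QTestConf.fut_pos_aux (χ : QTestConf γ q D₀ r) (hfix : γ.Fixes D₀)
    (hD : T.X.deg D₀ = 105 * T.t * q) (hq : 0 < q) (hr : 8 ≤ r)
    {a₀ a₁ b₀ b₁ c₀ : ℝ} (hE : χ.Expansion a₀ a₁ b₀ b₁ c₀) (hn : 0 < c₀ - b₀ ^ 2 / a₀) :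
    0 < (a₁ * b₀ - a₀ * b₁) / a₀ ^ 2 := by
  have ha := χ.toQFilt.a0_pos hfix hD hq hr hE
  have ha1 := (χ.toQFilt.a_eq hfix hD hq hr hE).2
  have hb1 := χ.b1_nonpos hfix hD hq hr hE
  have hb1' : b₁ ≠ 0 := by
    rintro rfl
    obtain ⟨c, _, _, h⟩ := χ.exists_slope' hfix hD hq hr hE
    linarith
  have hb : b₁ < 0 := lt_of_le_of_ne hb1 hb1'
  rw [ha1, zero_mul, zero_sub]
  apply div_pos _ (by positivity)
  nlinarith

/-- K-semistability: the Futaki invariant of every test configuration of the quotient is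
non-negative. -/
theorem QTestConf.fut_nonneg (χ : QTestConf γ q D₀ r) (hfix : γ.Fixes D₀)
    (hD : T.X.deg D₀ = 105 * T.t * q) (hq : 0 < q) (hr : 0 < r)
    {a₀ a₁ b₀ b₁ c₀ : ℝ} (hE : χ.Expansion a₀ a₁ b₀ b₁ c₀) :
    0 ≤ (a₁ * b₀ - a₀ * b₁) / a₀ ^ 2 := by
  have h8 : (8 : ℕ) ≤ r * 8 := Nat.le_mul_of_pos_left 8 hr
  have hE8 := χ.ver_expansion (m := 8) (by norm_num) hE
  have ha := (χ.ver 8 (by norm_num)).toQFilt.a0_pos hfix hD hq h8 hE8
  have ha1 := ((χ.ver 8 (by norm_num)).toQFilt.a_eq hfix hD hq h8 hE8).2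
  have hb1 := (χ.ver 8 (by norm_num)).b1_nonpos hfix hD hq h8 hE8
  have c8 : (0 : ℝ) < ((8 : ℕ) : ℝ) := by norm_num
  have ha0 : 0 < a₀ := by
    by_contra h
    push Not at h
    have : a₀ * ((8 : ℕ) : ℝ) ^ 4 ≤ 0 := mul_nonpos_of_nonpos_of_nonneg h (by positivity)
    linarith
  have ha1' : a₁ = 0 := by
    rcases mul_eq_zero.1 ha1 with h | h
    · exact h
    · exact absurd h (by positivity)
  have hb1' : b₁ ≤ 0 := by
    by_contra h
    push Not at h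
    have : 0 < b₁ * ((8 : ℕ) : ℝ) ^ 4 := by positivity
    linarith
  rw [ha1', zero_mul, zero_sub]
  apply div_nonneg _ (by positivity)
  nlinarith

/-- K-stability of the quotient: the Futaki invariant of every test configuration of positive
norm is positive. -/
theorem QTestConf.fut_pos (χ : QTestConf γ q D₀ r) (hfix : γ.Fixes D₀)
    (hD : T.X.deg D₀ = 105 * T.t * q) (hq : 0 < q) (hr : 0 < r)
    {a₀ a₁ b₀ b₁ c₀ : ℝ} (hE : χ.Expansion a₀ a₁ b₀ b₁ c₀) (hn : 0 < c₀ - b₀ ^ 2 / a₀) :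
    0 < (a₁ * b₀ - a₀ * b₁) / a₀ ^ 2 := by
  have h8 : (8 : ℕ) ≤ r * 8 := Nat.le_mul_of_pos_left 8 hr
  have hE8 := χ.ver_expansion (m := 8) (by norm_num) hE
  have ha := (χ.ver 8 (by norm_num)).toQFilt.a0_pos hfix hD hq h8 hE8
  have c8 : (0 : ℝ) < ((8 : ℕ) : ℝ) := by norm_num
  have ha0 : a₀ ≠ 0 := by
    rintro rfl
    rw [zero_mul] at ha
    exact lt_irrefl _ ha
  have h := (χ.ver 8 (by norm_num)).fut_pos_aux hfix hD hq h8 hE8 (by
    have e : c₀ * ((8 : ℕ) : ℝ) ^ 6 - (b₀ * ((8 : ℕ) : ℝ) ^ 5) ^ 2 / (a₀ * ((8 : ℕ) : ℝ) ^ 4) =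
        (c₀ - b₀ ^ 2 / a₀) * ((8 : ℕ) : ℝ) ^ 6 := by
      field_simp
    rw [e]
    positivity)
  have e : (a₁ * ((8 : ℕ) : ℝ) ^ 3 * (b₀ * ((8 : ℕ) : ℝ) ^ 5) - a₀ * ((8 : ℕ) : ℝ) ^ 4 *
      (b₁ * ((8 : ℕ) : ℝ) ^ 4)) / (a₀ * ((8 : ℕ) : ℝ) ^ 4) ^ 2 =
      (a₁ * b₀ - a₀ * b₁) / a₀ ^ 2 := by
    field_simp
  rwa [e] at h

end Pool.Agent.YTD


end

/- source: Pool.Agent.YTD.SatL7 -/

section

/-!
Test configurations of the quotient with vanishing Futaki invariant are almost trivial.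
-/

namespace Pool.Agent.YTD

open Finset Module MvPolynomial Filter

variable {K : Type} [Field K] [Algebra ℂ K]
variable {T : Datum K} {q : ℕ} {D₀ : T.X.Pt →₀ ℤ} {r : ℕ}
variable {γ : Gam T} {L : ℕ}

/-- The total deficit of a test configuration with vanishing Futaki invariant. -/
theorem QTestConf.deficit (χ : QTestConf γ q D₀ r) (hfix : γ.Fixes D₀)
    (hD : T.X.deg D₀ = 105 * T.t * q) (hq : 0 < q) (hr : 8 ≤ r)
    {a₀ a₁ b₀ c₀ : ℝ} (hE : χ.Expansion a₀ a₁ b₀ 0 c₀) :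
    ∃ c : ℤ, (∀ N : ℕ, 4 ≤ N → ∀ l : ℤ, χ.F N l ≠ ⊥ → l ≤ c * N) ∧ b₀ = c * a₀ ∧
      ∃ C : ℝ, ∀ N : ℕ, 4 ≤ N → (finrank ℂ (γ.secQ q D₀ (r * N)) : ℝ) -
        finrank ℂ (χ.F N (c * N)) ≤ C * (N : ℝ) ^ 3 := by
  obtain ⟨L, hL⟩ := χ.bound
  have hL' : χ.toQFilt.Bdd L := hL
  obtain ⟨P₀⟩ := T.exists_pt
  obtain ⟨c, h1, hb, _⟩ := χ.exists_slope' hfix hD hq hr hE
  have ha1 := (χ.toQFilt.a_eq hfix hD hq hr hE).2
  subst ha1
  refine ⟨c, h1, hb, ?_⟩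
  obtain ⟨C, hC⟩ := QFilt.Bdd.tot_exp χ.toQFilt hL' hE
  obtain ⟨⟨E1, hE1⟩, -⟩ := hE
  -- the slope is at least `-L`
  have hcL : -(L : ℤ) ≤ c := by
    obtain ⟨e, he, he0⟩ := γ.exists_secQ_ne_zero hfix hD hq (N := r * 4) (by omega)
    have h2 := h1 4 le_rfl (-(L * (4 : ℕ))) (by
      intro h0
      rw [(hL 4).1] at h0
      rw [h0, Submodule.mem_bot] at he
      exact he0 he)
    push_cast at h2
    linarith
  have hfin : ∀ N l, (finrank ℂ (χ.F N l) : ℝ) ≤ χ.dimN N := by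
    intro N l
    have i1 := T.finite_sec P₀ q D₀ (r * N)
    have i2 : FiniteDimensional ℂ (γ.secQ q D₀ (r * N)) :=
      Submodule.finiteDimensional_of_le (γ.secQ_le q D₀ (r * N))
    have := Submodule.finrank_mono (χ.le N l)
    unfold QFilt.dimN
    exact_mod_cast this
  apply bound_all (C := ((c : ℝ) + L) * |E1| + |C|)
  filter_upwards [hC, hE1, eventually_ge_atTop 4] with N g1 g2 g3
  have hN1 : (1 : ℝ) ≤ N := by
    have : 1 ≤ N := by omega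
    exact_mod_cast this
  have hcL' : (0 : ℝ) ≤ (c : ℝ) + L := by
    have : -(L : ℝ) ≤ c := by exact_mod_cast hcL
    linarith
  have hN0 : (0 : ℤ) ≤ N := by positivity
  show χ.dimN N - (finrank ℂ (χ.F N (c * N)) : ℝ) ≤ _
  rcases lt_or_ge (-((L : ℤ) * N)) (c * N) with hlt | hge
  · -- the sum of the deficits
    have s1 : χ.dimN N - (finrank ℂ (χ.F N (c * N)) : ℝ) ≤
        ∑ l ∈ Ioc (-((L : ℤ) * N)) (c * N), (χ.dimN N - (finrank ℂ (χ.F N l) : ℝ)) :=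
      single_le_sum (f := fun l => χ.dimN N - (finrank ℂ (χ.F N l) : ℝ))
        (fun l _ => by have := hfin N l; linarith) (mem_Ioc.2 ⟨hlt, le_rfl⟩)
    have s2 : χ.toQFilt.totL L N ≤ ∑ l ∈ Ioc (-((L : ℤ) * N)) (c * N), (finrank ℂ (χ.F N l) : ℝ) := by
      unfold QFilt.totL
      have e1 : ∑ l ∈ Ioc (-((L * N : ℕ) : ℤ)) ((L * N : ℕ) : ℤ), (finrank ℂ (χ.F N l) : ℝ) =
          ∑ l ∈ (Ioc (-((L * N : ℕ) : ℤ)) ((L * N : ℕ) : ℤ)).filter (fun l : ℤ => l ≤ c * N),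
            (finrank ℂ (χ.F N l) : ℝ) := by
        symm
        apply sum_subset (filter_subset _ _)
        intro l hl hl'
        rw [mem_filter] at hl'
        push Not at hl'
        have h3 : χ.F N l = ⊥ := by
          by_contra h4
          have := h1 N g3 l h4
          have := hl' hl
          linarith
        rw [h3, finrank_bot, Nat.cast_zero]
      rw [e1]
      apply sum_le_sum_of_subset_of_nonneg
      · intro l hl
        rw [mem_filter, mem_Ioc] at hl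
        rw [mem_Ioc]
        push_cast at hl
        exact ⟨hl.1.1, hl.2⟩
      · intro _ _ _
        positivity
    rw [sum_sub_distrib, sum_const, Int.card_Ioc, nsmul_eq_mul] at s1
    have s3 : (((c * N - -((L : ℤ) * N)).toNat : ℕ) : ℝ) = ((c : ℝ) + L) * N := by
      have h3 : (((c * N - -((L : ℤ) * N)).toNat : ℕ) : ℤ) = c * N - -((L : ℤ) * N) :=
        Int.toNat_of_nonneg (by linarith)
      have h4 : ((((c * N - -((L : ℤ) * N)).toNat : ℕ) : ℤ) : ℝ) =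
        ((c * N - -((L : ℤ) * N) : ℤ) : ℝ) := by rw [h3]
      push_cast at h4
      rw [h4]
      ring
    rw [s3] at s1
    have g4 := (abs_le.1 g1).1
    have g5 := (abs_le.1 g2).2
    have g6 : ((c : ℝ) + L) * N * (χ.dimN N - (a₀ * N ^ 4 + 0 * N ^ 3)) ≤
        ((c : ℝ) + L) * |E1| * N ^ 3 := by
      calc ((c : ℝ) + L) * N * (χ.dimN N - (a₀ * N ^ 4 + 0 * N ^ 3)) ≤
          ((c : ℝ) + L) * N * (E1 * N ^ 2) := mul_le_mul_of_nonneg_left g5 (by positivity)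
        _ ≤ ((c : ℝ) + L) * N * (|E1| * N ^ 2) := by
            apply mul_le_mul_of_nonneg_left _ (by positivity)
            exact mul_le_mul_of_nonneg_right (le_abs_self _) (by positivity)
        _ = _ := by ring
    have g7 : C * (N : ℝ) ^ 3 ≤ |C| * N ^ 3 :=
      mul_le_mul_of_nonneg_right (le_abs_self _) (by positivity)
    have e2 : (b₀ + (L : ℝ) * a₀) * N ^ 5 + (0 + L * 0) * N ^ 4 =
        ((c : ℝ) + L) * N * (a₀ * N ^ 4 + 0 * N ^ 3) := by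
      rw [hb]
      ring
    rw [e2] at g4
    have e3 : (((c : ℝ) + L) * |E1| + |C|) * (N : ℝ) ^ 3 =
      ((c : ℝ) + L) * |E1| * N ^ 3 + |C| * N ^ 3 := by ring
    rw [e3]
    linarith
  · have h3 : χ.F N (c * N) = γ.secQ q D₀ (r * N) :=
      QFilt.Bdd.F_of_le χ.toQFilt hL' (by push_cast; exact hge)
    have h4 : χ.dimN N - (finrank ℂ (χ.F N (c * N)) : ℝ) = 0 := by
      rw [h3]
      unfold QFilt.dimN
      rw [sub_self]
    rw [h4]
    positivity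

end Pool.Agent.YTD


end

/- source: Pool.Agent.YTD.RedFut -/

section

/-!
The coefficients of trivial test configurations, and the consequences of the vanishing of the
Futaki invariant for all exponents.
-/

namespace Pool.Agent.YTD

open Finset Module MvPolynomial Filter

variable {K : Type} [Field K] [Algebra ℂ K]
variable {T : Datum K} {q : ℕ} {D₀ : T.X.Pt →₀ ℤ} {r : ℕ}
variable {γ : Gam T}

/-- The traces of a trivial filtration. -/
theorem QFilt.tr_trivial (χ : QFilt γ q D₀ r) {c : ℤ}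
    (h : ∀ (N : ℕ) (l : ℤ), χ.F N l = if l ≤ c * N then γ.secQ q D₀ (r * N) else ⊥) (p N : ℕ) :
    χ.tr p N = ((c : ℝ) * N) ^ p * χ.dimN N := by
  have h1 : ∀ l : ℤ, l ≠ c * N → (l : ℝ) ^ p * χ.wt N l = 0 := by
    intro l hl
    have : χ.wt N l = 0 := by
      unfold QFilt.wt
      rw [h, h]
      rcases lt_or_gt_of_ne hl with h2 | h2
      · rw [if_pos h2.le, if_pos (by omega), sub_self]
      · rw [if_neg (by omega), if_neg (by omega), sub_self]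
    rw [this, mul_zero]
  unfold QFilt.tr
  rw [finsum_eq_single _ (c * N) h1]
  have h2 : χ.wt N (c * N) = χ.dimN N := by
    unfold QFilt.wt QFilt.dimN
    rw [h, h, if_pos le_rfl, if_neg (by omega), finrank_bot, Nat.cast_zero, sub_zero]
  rw [h2]
  push_cast
  rfl

/-- The coefficients of a trivial filtration. -/
theorem QFilt.expansion_trivial (χ : QFilt γ q D₀ r) {c : ℤ}
    (h : ∀ (N : ℕ) (l : ℤ), χ.F N l = if l ≤ c * N then γ.secQ q D₀ (r * N) else ⊥)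
    {a₀ a₁ b₀ b₁ c₀ : ℝ} (hE : χ.Expansion a₀ a₁ b₀ b₁ c₀) :
    b₀ = c * a₀ ∧ b₁ = c * a₁ ∧ c₀ = (c : ℝ) ^ 2 * a₀ := by
  obtain ⟨⟨C₁, h₁⟩, h₂, ⟨C₃, h₃⟩⟩ := hE
  have k2 : b₀ = c * a₀ ∧ b₁ = c * a₁ := by
    refine coeff_unique (p := χ.tr 1) (k := 3) h₂ ⟨|(c : ℝ)| * C₁, ?_⟩
    filter_upwards [h₁] with N g1
    rw [χ.tr_trivial h, pow_one]
    have e : (c : ℝ) * N * χ.dimN N - (c * a₀ * N ^ (3 + 2) + c * a₁ * N ^ (3 + 1)) =
        c * N * (χ.dimN N - (a₀ * N ^ 4 + a₁ * N ^ 3)) := by ring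
    rw [e, abs_mul, abs_mul, Nat.abs_cast]
    calc |(c : ℝ)| * N * |χ.dimN N - (a₀ * N ^ 4 + a₁ * N ^ 3)| ≤ |(c : ℝ)| * N * (C₁ * N ^ 2) :=
          mul_le_mul_of_nonneg_left g1 (by positivity)
      _ = _ := by ring
  refine ⟨k2.1, k2.2, ?_⟩
  -- the bound for the difference of the leading coefficients
  have k3 : ∀ᶠ N : ℕ in atTop, |((c : ℝ) ^ 2 * a₀ - c₀) * (N : ℝ) ^ (5 + 1)| ≤
      ((c : ℝ) ^ 2 * |C₁| + (c : ℝ) ^ 2 * |a₁| + |C₃|) * (N : ℝ) ^ 5 := by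
    filter_upwards [h₁, h₃, eventually_ge_atTop 1] with N g1 g3 hN
    have hN1 : (1 : ℝ) ≤ N := by exact_mod_cast hN
    rw [χ.tr_trivial h] at g3
    have n45 : (N : ℝ) ^ 4 ≤ (N : ℝ) ^ 5 := pow_le_pow_right₀ hN1 (by norm_num)
    have e : ((c : ℝ) ^ 2 * a₀ - c₀) * (N : ℝ) ^ (5 + 1) =
        (((c : ℝ) * N) ^ 2 * χ.dimN N - c₀ * N ^ 6) -
          (c : ℝ) ^ 2 * N ^ 2 * (χ.dimN N - (a₀ * N ^ 4 + a₁ * N ^ 3)) -
          (c : ℝ) ^ 2 * a₁ * N ^ 5 := by ring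
    rw [e]
    have t1 := abs_sub (((((c : ℝ) * N) ^ 2 * χ.dimN N - c₀ * N ^ 6) -
          (c : ℝ) ^ 2 * N ^ 2 * (χ.dimN N - (a₀ * N ^ 4 + a₁ * N ^ 3)))) ((c : ℝ) ^ 2 * a₁ * N ^ 5)
    have t2 := abs_sub (((c : ℝ) * N) ^ 2 * χ.dimN N - c₀ * N ^ 6)
      ((c : ℝ) ^ 2 * N ^ 2 * (χ.dimN N - (a₀ * N ^ 4 + a₁ * N ^ 3)))
    have t3 : |(c : ℝ) ^ 2 * N ^ 2 * (χ.dimN N - (a₀ * N ^ 4 + a₁ * N ^ 3))| ≤
        (c : ℝ) ^ 2 * |C₁| * N ^ 5 := by
      rw [abs_mul, abs_of_nonneg (by positivity : (0 : ℝ) ≤ (c : ℝ) ^ 2 * N ^ 2)]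
      calc (c : ℝ) ^ 2 * N ^ 2 * |χ.dimN N - (a₀ * N ^ 4 + a₁ * N ^ 3)| ≤
          (c : ℝ) ^ 2 * N ^ 2 * (|C₁| * N ^ 2) := by
            apply mul_le_mul_of_nonneg_left _ (by positivity)
            exact g1.trans (mul_le_mul_of_nonneg_right (le_abs_self _) (by positivity))
        _ = (c : ℝ) ^ 2 * |C₁| * N ^ 4 := by ring
        _ ≤ _ := mul_le_mul_of_nonneg_left n45 (by positivity)
    have t4 : |(c : ℝ) ^ 2 * a₁ * N ^ 5| = (c : ℝ) ^ 2 * |a₁| * N ^ 5 := by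
      rw [abs_mul, abs_mul, abs_of_nonneg (by positivity : (0 : ℝ) ≤ (c : ℝ) ^ 2),
        abs_of_nonneg (by positivity : (0 : ℝ) ≤ (N : ℝ) ^ 5)]
    have t5 : C₃ * (N : ℝ) ^ 5 ≤ |C₃| * N ^ 5 :=
      mul_le_mul_of_nonneg_right (le_abs_self _) (by positivity)
    have e2 : ((c : ℝ) ^ 2 * |C₁| + (c : ℝ) ^ 2 * |a₁| + |C₃|) * (N : ℝ) ^ 5 =
      (c : ℝ) ^ 2 * |C₁| * N ^ 5 + (c : ℝ) ^ 2 * |a₁| * N ^ 5 + |C₃| * N ^ 5 := by ring
    rw [e2]
    linarith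
  apply le_antisymm
  · apply lead_le (k := 5) (C := (c : ℝ) ^ 2 * |C₁| + (c : ℝ) ^ 2 * |a₁| + |C₃|)
    filter_upwards [k3] with N hN
    have := (abs_le.1 hN).1
    linarith
  · apply lead_le (k := 5) (C := (c : ℝ) ^ 2 * |C₁| + (c : ℝ) ^ 2 * |a₁| + |C₃|)
    filter_upwards [k3] with N hN
    have := (abs_le.1 hN).2
    linarith

/-- The Futaki invariant and the norm of a trivial filtration vanish. -/
theorem QFilt.fut_trivial (χ : QFilt γ q D₀ r) {c : ℤ}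
    (h : ∀ (N : ℕ) (l : ℤ), χ.F N l = if l ≤ c * N then γ.secQ q D₀ (r * N) else ⊥)
    {a₀ a₁ b₀ b₁ c₀ : ℝ} (hE : χ.Expansion a₀ a₁ b₀ b₁ c₀) :
    (a₁ * b₀ - a₀ * b₁) / a₀ ^ 2 = 0 ∧ c₀ - b₀ ^ 2 / a₀ = 0 := by
  obtain ⟨h1, h2, h3⟩ := χ.expansion_trivial h hE
  constructor
  · rw [h1, h2]
    have : a₁ * (c * a₀) - a₀ * (c * a₁) = 0 := by ring
    rw [this, zero_div]
  · rw [h1, h3]
    rcases eq_or_ne a₀ 0 with h0 | h0
    · rw [h0]
      simp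
    · field_simp
      ring

/-- The leading coefficients for all exponents. -/
theorem QTestConf.a_signs (χ : QTestConf γ q D₀ r) (hfix : γ.Fixes D₀)
    (hD : T.X.deg D₀ = 105 * T.t * q) (hq : 0 < q) (hr : 0 < r)
    {a₀ a₁ b₀ b₁ c₀ : ℝ} (hE : χ.Expansion a₀ a₁ b₀ b₁ c₀) : 0 < a₀ ∧ a₁ = 0 := by
  have h8 : (8 : ℕ) ≤ r * 8 := Nat.le_mul_of_pos_left 8 hr
  have hE8 := χ.ver_expansion (m := 8) (by norm_num) hE
  have ha := (χ.ver 8 (by norm_num)).toQFilt.a0_pos hfix hD hq h8 hE8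
  have ha1 := ((χ.ver 8 (by norm_num)).toQFilt.a_eq hfix hD hq h8 hE8).2
  constructor
  · by_contra h
    push Not at h
    have : a₀ * ((8 : ℕ) : ℝ) ^ 4 ≤ 0 := mul_nonpos_of_nonpos_of_nonneg h (by positivity)
    linarith
  · rcases mul_eq_zero.1 ha1 with h | h
    · exact h
    · exact absurd h (by positivity)

/-- The deficit of the Veronese of a test configuration with vanishing Futaki invariant. -/
theorem QTestConf.deficit_ver (χ : QTestConf γ q D₀ r) (hfix : γ.Fixes D₀)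
    (hD : T.X.deg D₀ = 105 * T.t * q) (hq : 0 < q) (hr : 0 < r) {m : ℕ} (hm : 0 < m)
    (h8 : 8 ≤ r * m) {a₀ a₁ b₀ b₁ c₀ : ℝ} (hE : χ.Expansion a₀ a₁ b₀ b₁ c₀)
    (hfut : (a₁ * b₀ - a₀ * b₁) / a₀ ^ 2 = 0) :
    b₁ = 0 ∧ ∃ c : ℤ, (∀ N : ℕ, 4 ≤ N → ∀ l : ℤ, χ.F (m * N) l ≠ ⊥ → l ≤ c * N) ∧
      b₀ * m = c * a₀ ∧
      ∃ C : ℝ, ∀ N : ℕ, 4 ≤ N → (finrank ℂ (γ.secQ q D₀ (r * m * N)) : ℝ) -
        finrank ℂ (χ.F (m * N) (c * N)) ≤ C * (N : ℝ) ^ 3 := by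
  obtain ⟨ha0, ha1⟩ := χ.a_signs hfix hD hq hr hE
  have hb1 : b₁ = 0 := by
    rw [ha1, zero_mul, zero_sub, div_eq_zero_iff, neg_eq_zero, mul_eq_zero] at hfut
    rcases hfut with (h | h) | h
    · exact absurd h ha0.ne'
    · exact h
    · exact absurd h (by positivity)
  refine ⟨hb1, ?_⟩
  subst hb1
  have hEm := χ.ver_expansion (m := m) hm hE
  rw [zero_mul] at hEm
  obtain ⟨c, h1, h2, C, h3⟩ := (χ.ver m hm).deficit hfix hD hq h8 hEm
  refine ⟨c, h1, ?_, C, h3⟩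
  have hm' : ((m : ℝ)) ^ 4 ≠ 0 := by positivity
  have e : (b₀ * m) * (m : ℝ) ^ 4 = (c * a₀) * (m : ℝ) ^ 4 := by
    calc (b₀ * m) * (m : ℝ) ^ 4 = b₀ * (m : ℝ) ^ 5 := by ring
      _ = c * (a₀ * (m : ℝ) ^ 4) := h2
      _ = _ := by ring
  exact mul_right_cancel₀ hm' e

/-- A reduced filtration with trivial Veronese is trivial. -/
theorem QFilt.trivial_of_ver (χ : QFilt γ q D₀ r) (hfix : γ.Fixes D₀)
    (hD : T.X.deg D₀ = 105 * T.t * q) (hq : 0 < q) (hr : 0 < r) {m : ℕ} (hm : 0 < m)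
    (hred : ∀ (N : ℕ) (l : ℤ), ∀ f ∈ χ.F N l, f ∉ χ.F N (l + 1) → ∀ k : ℕ, 0 < k →
      f ^ k ∉ χ.F (k * N) (k * l + 1)) {c : ℤ}
    (hver : ∀ (N : ℕ) (l : ℤ), χ.F (m * N) l =
      if l ≤ c * N then γ.secQ q D₀ (r * (m * N)) else ⊥) :
    ∃ c' : ℤ, ∀ (N : ℕ) (l : ℤ), χ.F N l = if l ≤ c' * N then γ.secQ q D₀ (r * N) else ⊥ := by
  obtain ⟨Λ, hΛ⟩ := χ.bound
  -- powers
  have hpow : ∀ (N : ℕ) (l : ℤ) (f), f ∈ χ.F N l → ∀ k : ℕ, 0 < k → f ^ k ∈ χ.F (k * N) (k * l) := by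
    intro N l f hf k hk
    induction k, hk using Nat.le_induction with
    | base => simpa using hf
    | succ k hk ih =>
      rw [pow_succ, Nat.succ_mul]
      have e : (((k + 1 : ℕ) : ℤ)) * l = k * l + l := by push_cast; ring
      rw [e]
      exact χ.mul _ _ _ _ _ ih _ hf
  -- the level of every section
  have hlev : ∀ (N : ℕ) (f), f ∈ γ.secQ q D₀ (r * N) → f ≠ 0 →
      ∃ l : ℤ, f ∈ χ.F N l ∧ f ∉ χ.F N (l + 1) ∧ m * l = c * N := by
    intro N f hf hf0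
    have hex : ∃ l : ℤ, f ∈ χ.F N l ∧ f ∉ χ.F N (l + 1) := by
      by_contra hcon
      push Not at hcon
      have : ∀ n : ℕ, f ∈ χ.F N (-(Λ * N) + n) := by
        intro n
        induction n with
        | zero =>
          rw [Nat.cast_zero, add_zero, (hΛ N).1]
          exact hf
        | succ n ih =>
          have := hcon _ ih
          push_cast
          rw [← add_assoc]
          exact this
      have h1 := this (2 * Λ * N + 1)
      have e : (-(Λ * N) + ((2 * Λ * N + 1 : ℕ) : ℤ)) = (Λ * N + 1 : ℤ) := by push_cast; ring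
      rw [e, (hΛ N).2, Submodule.mem_bot] at h1
      exact hf0 h1
    obtain ⟨l, h1, h2⟩ := hex
    refine ⟨l, h1, h2, ?_⟩
    have h3 := hpow N l f h1 m hm
    have h4 := hred N l f h1 h2 m hm
    rw [hver] at h3 h4
    have hne : f ^ m ≠ 0 := pow_ne_zero _ hf0
    have h5 : (m : ℤ) * l ≤ c * N := by
      by_contra h
      rw [if_neg h, Submodule.mem_bot] at h3
      exact hne h3
    rw [if_pos h5] at h3
    have h6 : ¬ ((m : ℤ) * l + 1 ≤ c * N) := by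
      intro h
      rw [if_pos h] at h4
      exact h4 h3
    omega
  -- divisibility
  have hdiv : ∃ c' : ℤ, c = m * c' := by
    obtain ⟨e1, he1, he10⟩ := γ.exists_secQ_ne_zero hfix hD hq (N := r * 8) (by
      exact Nat.le_mul_of_pos_left 8 hr)
    obtain ⟨e2, he2, he20⟩ := γ.exists_secQ_ne_zero hfix hD hq (N := r * 9) (by
      have : 9 ≤ r * 9 := Nat.le_mul_of_pos_left 9 hr
      omega)
    obtain ⟨l1, _, _, h1⟩ := hlev 8 e1 he1 he10
    obtain ⟨l2, _, _, h2⟩ := hlev 9 e2 he2 he20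
    refine ⟨l2 - l1, ?_⟩
    rw [mul_sub, h1, h2]
    push_cast
    ring
  obtain ⟨c', rfl⟩ := hdiv
  have hm' : (m : ℤ) ≠ 0 := by exact_mod_cast hm.ne'
  have hlev' : ∀ (N : ℕ) (f), f ∈ γ.secQ q D₀ (r * N) → f ≠ 0 →
      f ∈ χ.F N (c' * N) ∧ f ∉ χ.F N (c' * N + 1) := by
    intro N f hf hf0
    obtain ⟨l, h1, h2, h3⟩ := hlev N f hf hf0
    have h4 : l = c' * N := by
      rw [mul_assoc] at h3
      exact mul_left_cancel₀ hm' h3
    subst h4
    exact ⟨h1, h2⟩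
  refine ⟨c', fun N l => ?_⟩
  by_cases hl : l ≤ c' * N
  · rw [if_pos hl]
    apply le_antisymm (χ.le N l)
    intro f hf
    by_cases hf0 : f = 0
    · rw [hf0]
      exact zero_mem _
    · exact χ.anti N _ _ hl (hlev' N f hf hf0).1
  · rw [if_neg hl]
    rw [eq_bot_iff]
    intro f hf
    rw [Submodule.mem_bot]
    by_contra hf0
    exact (hlev' N f (χ.le N l hf) hf0).2 (χ.anti N _ _ (by omega) hf)

end Pool.Agent.YTD


end

/- source: Pool.Agent.YTD.RedQ -/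

section

/-!
Test configurations of the quotient with reduced central fibre: the Futaki invariant vanishes
exactly for the trivial ones.
-/

namespace Pool.Agent.YTD

open Finset Module MvPolynomial Filter

variable {K : Type} [Field K] [Algebra ℂ K]
variable {T : Datum K} {q : ℕ} {D₀ : T.X.Pt →₀ ℤ} {r : ℕ} {γ : Gam T}

theorem QTestConf.ver_reduced (χ : QTestConf γ q D₀ r) (hred : χ.Reduced) {m : ℕ} (hm : 0 < m) :
    (χ.ver m hm).Reduced := by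
  intro N l f hf k hk hfk
  refine hred (m * N) l f hf k hk ?_
  have e : k * (m * N) = m * (k * N) := by ring
  rw [e]
  exact hfk

/-- The dimension grows at least like a multiple of `N⁴`. -/
theorem QTestConf.exists_growth (χ : QTestConf γ q D₀ r) (hfix : γ.Fixes D₀)
    (hD : T.X.deg D₀ = 105 * T.t * q) (hq : 0 < q) (hr : 0 < r)
    {a₀ a₁ b₀ b₁ c₀ : ℝ} (hE : χ.Expansion a₀ a₁ b₀ b₁ c₀) :
    ∃ a : ℝ, 0 < a ∧ ∃ N₁ : ℕ, ∀ N : ℕ, N₁ ≤ N →
      a * (N : ℝ) ^ 4 ≤ finrank ℂ (γ.secQ q D₀ (r * N)) := by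
  obtain ⟨ha0, ha1⟩ := χ.a_signs hfix hD hq hr hE
  obtain ⟨⟨C, hC⟩, _, _⟩ := hE
  refine ⟨a₀ / 2, half_pos ha0, ?_⟩
  obtain ⟨n₀, hn₀⟩ := exists_nat_gt (2 * |C| / a₀)
  have hev : ∀ᶠ N : ℕ in atTop, a₀ / 2 * (N : ℝ) ^ 4 ≤ finrank ℂ (γ.secQ q D₀ (r * N)) := by
    filter_upwards [hC, eventually_ge_atTop (max n₀ 1)] with N hN hN1
    have h1 : (n₀ : ℝ) ≤ N := by exact_mod_cast (le_max_left _ _).trans hN1
    have h1' : (1 : ℝ) ≤ N := by exact_mod_cast (le_max_right _ _).trans hN1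
    have h2 : 2 * |C| < a₀ * N := by
      rw [div_lt_iff₀ ha0] at hn₀
      nlinarith
    rw [ha1, zero_mul, add_zero] at hN
    have h3 := (abs_le.1 hN).1
    have h4 : C * (N : ℝ) ^ 2 ≤ |C| * N ^ 2 := by
      have := le_abs_self C
      gcongr
    have h5 : |C| * (N : ℝ) ^ 2 ≤ a₀ / 2 * N ^ 4 := by
      have h6 : (N : ℝ) ≤ N ^ 2 := by nlinarith
      have h7 : |C| ≤ a₀ / 2 * N ^ 2 := by
        have : a₀ / 2 * N ≤ a₀ / 2 * (N : ℝ) ^ 2 := by gcongr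
        linarith
      calc |C| * (N : ℝ) ^ 2 ≤ a₀ / 2 * N ^ 2 * N ^ 2 := by gcongr
        _ = _ := by ring
    have h8 : χ.dimN N = finrank ℂ (γ.secQ q D₀ (r * N)) := rfl
    rw [← h8]
    linarith
  exact eventually_atTop.1 hev

/-- A test configuration of the quotient with reduced central fibre has Futaki invariant zero if
and only if it is trivial. -/
theorem QTestConf.reduced_fut (χ : QTestConf γ q D₀ r) (hfix : γ.Fixes D₀)
    (hD : T.X.deg D₀ = 105 * T.t * q) (hq : 0 < q) (hr : 0 < r) (hred : χ.Reduced)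
    {a₀ a₁ b₀ b₁ c₀ : ℝ} (hE : χ.Expansion a₀ a₁ b₀ b₁ c₀) :
    (a₁ * b₀ - a₀ * b₁) / a₀ ^ 2 = 0 ↔
      ∃ c : ℤ, ∀ (N : ℕ) (l : ℤ), χ.F N l = if l ≤ c * N then γ.secQ q D₀ (r * N) else ⊥ := by
  constructor
  · intro hfut
    have h8 : (8 : ℕ) ≤ r * 8 := Nat.le_mul_of_pos_left 8 hr
    have hm : 0 < 8 := by norm_num
    obtain ⟨_, c, h1, _, C, h2⟩ := χ.deficit_ver hfix hD hq hr hm h8 hE hfut
    have hE8 := χ.ver_expansion (m := 8) hm hE
    obtain ⟨a, ha, N₁, h3⟩ := (χ.ver 8 hm).exists_growth hfix hD hq (by omega) hE8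
    have h4 := (χ.ver 8 hm).trivial_of_deficit hq (by omega) (χ.ver_reduced hred hm) h1 h2 ha h3
    refine χ.toQFilt.trivial_of_ver hfix hD hq hr hm ?_ (c := c) ?_
    · intro N l f hf hf' k hk hfk
      exact hf' (hred N l f hf k hk hfk)
    · intro N l
      have h5 := h4 N l
      rw [mul_assoc] at h5
      exact h5
  · rintro ⟨c, hc⟩
    exact (χ.toQFilt.fut_trivial hc hE).1

end Pool.Agent.YTD


end

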