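import Mathlib

/- source: Pool.Agent.YTDA.Alg -/

/-!
Kähler geometry in a commutative ring with commuting derivations.
-/

namespace Pool.Agent.YTDA.Alg

open Finset Matrix

variable {A : Type*} [CommRing A] {n : ℕ}

/-- entrywise derivative -/
def mder (D : Derivation ℤ A A) (M : Matrix (Fin n) (Fin n) A) : Matrix (Fin n) (Fin n) A :=
  fun i j => D (M i j)

theorem mder_mul (D : Derivation ℤ A A) (M N : Matrix (Fin n) (Fin n) A) :
    mder D (M * N) = mder D M * N + M * mder D N := by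
  ext i j
  simp only [mder, Matrix.mul_apply, Matrix.add_apply, map_sum, Derivation.leibniz, smul_eq_mul,
    Finset.sum_add_distrib]
  rw [add_comm]
  congr 1
  · exact Finset.sum_congr rfl fun k _ => mul_comm _ _

theorem mder_one (D : Derivation ℤ A A) : mder D (1 : Matrix (Fin n) (Fin n) A) = 0 := by
  ext i j
  simp only [mder, Matrix.one_apply, Matrix.zero_apply]
  split
  · exact D.map_one_eq_zero
  · exact map_zero D

theorem mder_inv (D : Derivation ℤ A A) {g gi : Matrix (Fin n) (Fin n) A} (h : gi * g = 1)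
    (h' : g * gi = 1) : mder D gi = - (gi * mder D g * gi) := by
  have h1 := mder_mul D gi g
  rw [h, mder_one] at h1
  have h2 : mder D gi * g = - (gi * mder D g) := by
    rw [eq_neg_iff_add_eq_zero, ← h1]
  calc mder D gi = mder D gi * (g * gi) := by rw [h', Matrix.mul_one]
    _ = (mder D gi * g) * gi := by rw [Matrix.mul_assoc]
    _ = _ := by rw [h2, Matrix.neg_mul]

theorem der_trace (D : Derivation ℤ A A) (M : Matrix (Fin n) (Fin n) A) :
    D (M.trace) = (mder D M).trace := by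
  simp only [Matrix.trace, Matrix.diag, map_sum, mder]

/-- A Kähler metric over a ring with commuting derivations `d i = ∂/∂z_i`, `db i = ∂/∂z̄_i`. -/
structure KR (A : Type*) [CommRing A] (n : ℕ) where
  d : Fin n → Derivation ℤ A A
  db : Fin n → Derivation ℤ A A
  dd : ∀ i j f, d i (d j f) = d j (d i f)
  ddb : ∀ i j f, d i (db j f) = db j (d i f)
  dbdb : ∀ i j f, db i (db j f) = db j (db i f)
  g : Matrix (Fin n) (Fin n) A
  gi : Matrix (Fin n) (Fin n) A
  inv : gi * g = 1
  inv' : g * gi = 1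
  k1 : ∀ i j a, d i (g j a) = d j (g i a)
  k2 : ∀ a b i, db a (g i b) = db b (g i a)

namespace KR

variable (k : KR A n)

/-- `∂_i log det g` -/
def F (i : Fin n) : A := (k.gi * mder (k.d i) k.g).trace

/-- `∂̄_i log det g` -/
def Fb (i : Fin n) : A := (k.gi * mder (k.db i) k.g).trace

/-- the Ricci curvature -/
def R (i j : Fin n) : A := - k.db j (k.F i)

/-- the Laplacian -/
def lap (f : A) : A := ∑ i, ∑ j, k.gi j i * k.d i (k.db j f)

/-- the gradient `g^{i m̄} f_m̄` -/
def W (f : A) (i : Fin n) : A := ∑ m, k.db m f * k.gi m i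

/-- the conjugate gradient -/
def Wb (f : A) (m : Fin n) : A := ∑ j, k.gi m j * k.d j f

/-- scalar curvature -/
def S : A := ∑ i, ∑ j, k.gi j i * k.R i j

/-- divergence of a vector field of type `(1,0)` -/
def div (ξ : Fin n → A) : A := ∑ i, (k.d i (ξ i) + ξ i * k.F i)

/-- divergence of a vector field of type `(0,1)` -/
def divb (ξ : Fin n → A) : A := ∑ i, (k.db i (ξ i) + ξ i * k.Fb i)

/-- the Ricci term of the Lichnerowicz operator -/
def Q (v : A) : A := ∑ q, ∑ i, ∑ j, ∑ p, k.gi q i * (k.R i j * (k.gi j p * k.db q (k.d p v)))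

/-- the linearized scalar curvature (up to sign) -/
def lich (v : A) : A := k.lap (k.lap v) + k.Q v

theorem mder_comm (i j : Fin n) (M : Matrix (Fin n) (Fin n) A) :
    mder (k.d i) (mder (k.db j) M) = mder (k.db j) (mder (k.d i) M) := by
  ext a b
  exact k.ddb i j (M a b)

theorem d_gi (i a b : Fin n) : k.d i (k.gi a b) =
    - ∑ e, (∑ c, k.gi a c * k.d i (k.g c e)) * k.gi e b := by
  have h := congrFun (congrFun (mder_inv (k.d i) k.inv k.inv') a) b
  rw [Matrix.neg_apply, Matrix.mul_apply] at h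
  exact h

theorem db_gi (i a b : Fin n) : k.db i (k.gi a b) =
    - ∑ e, (∑ c, k.gi a c * k.db i (k.g c e)) * k.gi e b := by
  have h := congrFun (congrFun (mder_inv (k.db i) k.inv k.inv') a) b
  rw [Matrix.neg_apply, Matrix.mul_apply] at h
  exact h

theorem F_eq (i : Fin n) : k.F i = ∑ a, ∑ b, k.gi a b * k.d i (k.g b a) := rfl

theorem Fb_eq (i : Fin n) : k.Fb i = ∑ a, ∑ b, k.gi a b * k.db i (k.g b a) := rfl

/-- `log det g` has commuting mixed derivatives. -/
theorem db_F (i j : Fin n) : k.db j (k.F i) = k.d i (k.Fb j) := by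
  unfold F Fb
  rw [der_trace, der_trace, mder_mul, mder_mul, mder_inv (k.db j) k.inv k.inv',
    mder_inv (k.d i) k.inv k.inv', mder_comm, Matrix.trace_add, Matrix.trace_add]
  congr 1
  rw [Matrix.neg_mul, Matrix.neg_mul, Matrix.trace_neg, Matrix.trace_neg]
  congr 1
  rw [Matrix.trace_mul_comm, ← Matrix.mul_assoc, ← Matrix.mul_assoc, Matrix.trace_mul_comm]
  simp only [Matrix.mul_assoc]

theorem R_eq (i j : Fin n) : k.R i j = - k.d i (k.Fb j) := by
  rw [R, db_F]

theorem db_R (i j q : Fin n) : k.db q (k.R i j) = k.db j (k.R i q) := by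
  unfold R
  rw [map_neg, map_neg, k.dbdb]

/-- `∂_i (det g · g^{j̄ i}) = 0` -/
theorem key (j : Fin n) : ∑ i, (k.d i (k.gi j i) + k.gi j i * k.F i) = 0 := by
  rw [Finset.sum_add_distrib, add_eq_zero_iff_eq_neg, ← Finset.sum_neg_distrib]
  have h1 : ∀ i, k.d i (k.gi j i) = - ∑ c, k.gi j c * ∑ e, k.d c (k.g i e) * k.gi e i := by
    intro i
    rw [k.d_gi]
    congr 1
    simp only [Finset.sum_mul, Finset.mul_sum]
    rw [Finset.sum_comm]
    refine Finset.sum_congr rfl fun c _ => Finset.sum_congr rfl fun e _ => ?_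
    rw [k.k1 i c e]
    ring
  simp only [h1, Finset.sum_neg_distrib]
  congr 1
  rw [Finset.sum_comm]
  refine Finset.sum_congr rfl fun c _ => ?_
  rw [k.F_eq, ← Finset.mul_sum]
  congr 1
  rw [Finset.sum_comm]
  refine Finset.sum_congr rfl fun e _ => Finset.sum_congr rfl fun i _ => ?_
  rw [mul_comm]

/-- `∂̄_i (det g · g^{ī j}) = 0` -/
theorem key' (j : Fin n) : ∑ i, (k.db i (k.gi i j) + k.gi i j * k.Fb i) = 0 := by
  rw [Finset.sum_add_distrib, add_eq_zero_iff_eq_neg, ← Finset.sum_neg_distrib]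
  have h1 : ∀ i, k.db i (k.gi i j) = - ∑ e, (∑ c, k.gi i c * k.db e (k.g c i)) * k.gi e j := by
    intro i
    rw [k.db_gi]
    congr 1
    refine Finset.sum_congr rfl fun e _ => ?_
    congr 1
    refine Finset.sum_congr rfl fun c _ => ?_
    rw [k.k2 i e c]
  simp only [h1, Finset.sum_neg_distrib]
  congr 1
  rw [Finset.sum_comm]
  refine Finset.sum_congr rfl fun e _ => ?_
  rw [k.Fb_eq, mul_comm, ← Finset.sum_mul]

/-- `div (grad f) = Δ f` -/
theorem div_W (f : A) : k.div (k.W f) = k.lap f := by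
  unfold div W lap
  have h1 : ∀ i, k.d i (∑ m, k.db m f * k.gi m i) + (∑ m, k.db m f * k.gi m i) * k.F i =
      ∑ m, (k.gi m i * k.d i (k.db m f) + k.db m f * (k.d i (k.gi m i) + k.gi m i * k.F i)) := by
    intro i
    rw [map_sum, Finset.sum_mul, ← Finset.sum_add_distrib]
    refine Finset.sum_congr rfl fun m _ => ?_
    rw [Derivation.leibniz, smul_eq_mul, smul_eq_mul]
    ring
  simp only [h1, Finset.sum_add_distrib]
  have h2 : ∑ i, ∑ m, k.db m f * (k.d i (k.gi m i) + k.gi m i * k.F i) = 0 := by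
    rw [Finset.sum_comm]
    refine Finset.sum_eq_zero fun m _ => ?_
    rw [← Finset.mul_sum, k.key, mul_zero]
  rw [← Finset.sum_add_distrib, Finset.sum_congr rfl (fun i _ => rfl), Finset.sum_add_distrib, h2,
    add_zero]

theorem div_add (ξ η : Fin n → A) : k.div (fun i => ξ i + η i) = k.div ξ + k.div η := by
  unfold div
  rw [← Finset.sum_add_distrib]
  refine Finset.sum_congr rfl fun i _ => ?_
  rw [map_add]
  ring

theorem div_sub (ξ η : Fin n → A) : k.div (fun i => ξ i - η i) = k.div ξ - k.div η := by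
  unfold div
  rw [← Finset.sum_sub_distrib]
  refine Finset.sum_congr rfl fun i _ => ?_
  rw [map_sub]
  ring

theorem div_smul (f : A) (ξ : Fin n → A) :
    k.div (fun i => f * ξ i) = f * k.div ξ + ∑ i, k.d i f * ξ i := by
  unfold div
  rw [Finset.mul_sum, ← Finset.sum_add_distrib]
  refine Finset.sum_congr rfl fun i _ => ?_
  rw [Derivation.leibniz, smul_eq_mul, smul_eq_mul]
  ring

theorem divb_smul (f : A) (ξ : Fin n → A) :
    k.divb (fun i => f * ξ i) = f * k.divb ξ + ∑ i, k.db i f * ξ i := by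
  unfold divb
  rw [Finset.mul_sum, ← Finset.sum_add_distrib]
  refine Finset.sum_congr rfl fun i _ => ?_
  rw [Derivation.leibniz, smul_eq_mul, smul_eq_mul]
  ring

/-- commutation of `∂̄_k` with the divergence of the gradient -/
theorem div_dbW (v : A) (m : Fin n) : k.div (fun i => k.db m (k.W v i)) =
    k.db m (k.lap v) + ∑ i, k.R i m * k.W v i := by
  have h1 := congrArg (k.db m) (k.div_W v)
  rw [← h1]
  unfold div
  rw [map_sum, ← Finset.sum_add_distrib]
  refine Finset.sum_congr rfl fun i _ => ?_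
  rw [map_add, Derivation.leibniz, smul_eq_mul, smul_eq_mul, k.ddb]
  unfold R
  ring

/-- `|∂̄ grad v|²` -/
def P (v : A) : A := ∑ i, ∑ m, k.d i (k.Wb v m) * k.db m (k.W v i)

/-- the vector field `ξ` -/
def xi (v : A) (i : Fin n) : A := ∑ m, k.Wb v m * k.db m (k.W v i)

/-- the vector field `Y` -/
def Yv (v : A) (q : Fin n) : A := ∑ i, k.gi q i * ∑ j, k.R i j * k.Wb v j

theorem sum_db_gi (f v : A) : ∑ i, k.d i v * k.W f i = ∑ m, k.Wb v m * k.db m f := by
  unfold W Wb
  simp only [Finset.mul_sum, Finset.sum_mul]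
  rw [Finset.sum_comm]
  refine Finset.sum_congr rfl fun m _ => Finset.sum_congr rfl fun i _ => ?_
  ring

theorem div_xi (v : A) : k.div (k.xi v) =
    k.P v + ∑ m, k.Wb v m * k.db m (k.lap v) + ∑ m, k.Wb v m * ∑ i, k.R i m * k.W v i := by
  have h1 : k.div (k.xi v) = ∑ m, k.div (fun i => k.Wb v m * k.db m (k.W v i)) := by
    unfold div xi
    rw [Finset.sum_comm]
    refine Finset.sum_congr rfl fun i _ => ?_
    rw [map_sum, Finset.sum_mul, ← Finset.sum_add_distrib]
  rw [h1]
  have h2 : ∀ m, k.div (fun i => k.Wb v m * k.db m (k.W v i)) =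
      k.Wb v m * k.db m (k.lap v) + k.Wb v m * (∑ i, k.R i m * k.W v i) +
      ∑ i, k.d i (k.Wb v m) * k.db m (k.W v i) := by
    intro m
    rw [k.div_smul, k.div_dbW, mul_add]
  simp only [h2, Finset.sum_add_distrib]
  unfold P
  rw [Finset.sum_comm (f := fun i m => k.d i (k.Wb v m) * k.db m (k.W v i))]
  ring

theorem div_kappa (v : A) : k.div (fun i => v * k.W (k.lap v) i) =
    v * k.lap (k.lap v) + ∑ m, k.Wb v m * k.db m (k.lap v) := by
  rw [k.div_smul, k.div_W, k.sum_db_gi]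

theorem lem_swap (v : A) : ∑ q, ∑ i, k.gi q i * ∑ j, k.R i j * (∑ p, k.db q (k.gi j p) * k.d p v) =
    ∑ j, k.Wb v j * ∑ i, ∑ q, k.db j (k.gi q i) * k.R i q := by
  have h1 : ∀ q j, ∑ p, k.db q (k.gi j p) * k.d p v =
      - ∑ e, (∑ c, k.gi j c * k.db q (k.g c e)) * k.Wb v e := by
    intro q j
    simp only [k.db_gi, Wb, Finset.sum_mul, Finset.mul_sum, neg_mul, Finset.sum_neg_distrib]
    refine congrArg Neg.neg ?_
    rw [Finset.sum_comm]
    refine Finset.sum_congr rfl fun e _ => ?_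
    refine Finset.sum_congr rfl fun p _ => Finset.sum_congr rfl fun c _ => ?_
    ring
  have h2 : ∀ j, ∑ i, ∑ q, k.db j (k.gi q i) * k.R i q =
      - ∑ i, ∑ q, ∑ e, ∑ c, k.gi q c * k.db e (k.g c j) * k.gi e i * k.R i q := by
    intro j
    simp only [k.db_gi, Finset.sum_mul, neg_mul, Finset.sum_neg_distrib]
    refine congrArg Neg.neg ?_
    refine Finset.sum_congr rfl fun i _ => Finset.sum_congr rfl fun q _ =>
      Finset.sum_congr rfl fun e _ => Finset.sum_congr rfl fun c _ => ?_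
    rw [k.k2 j e c]
  simp only [h1, h2, Finset.mul_sum, Finset.sum_mul, mul_neg, Finset.sum_neg_distrib]
  refine congrArg Neg.neg ?_
  -- LHS: sum over q i j e c ; RHS: sum over j i q e c
  have h3 : ∀ f : Fin n → Fin n → Fin n → Fin n → Fin n → A,
      ∑ q, ∑ i, ∑ j, ∑ e, ∑ c, f q i j e c = ∑ e, ∑ i, ∑ j, ∑ q, ∑ c, f q i j e c := by
    intro f
    rw [Finset.sum_comm]
    have : ∀ i, ∑ q, ∑ j, ∑ e, ∑ c, f q i j e c = ∑ e, ∑ j, ∑ q, ∑ c, f q i j e c := by
      intro i
      rw [Finset.sum_comm]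
      have : ∀ j, ∑ q, ∑ e, ∑ c, f q i j e c = ∑ e, ∑ q, ∑ c, f q i j e c :=
        fun j => Finset.sum_comm
      simp only [this]
      rw [Finset.sum_comm]
    simp only [this]
    rw [Finset.sum_comm]
  rw [h3]
  refine Finset.sum_congr rfl fun j _ => Finset.sum_congr rfl fun i _ =>
      Finset.sum_congr rfl fun q _ => Finset.sum_congr rfl fun e _ =>
      Finset.sum_congr rfl fun c _ => ?_
  ring

theorem divb_Y (v : A) : k.divb (k.Yv v) = k.Q v + ∑ j, k.Wb v j * k.db j k.S := by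
  have h1 : k.divb (k.Yv v) = ∑ q, ∑ i, k.gi q i * k.db q (∑ j, k.R i j * k.Wb v j) := by
    unfold divb Yv
    have h2 : ∀ q, k.db q (∑ i, k.gi q i * ∑ j, k.R i j * k.Wb v j) +
        (∑ i, k.gi q i * ∑ j, k.R i j * k.Wb v j) * k.Fb q =
        ∑ i, (k.gi q i * k.db q (∑ j, k.R i j * k.Wb v j) +
          (∑ j, k.R i j * k.Wb v j) * (k.db q (k.gi q i) + k.gi q i * k.Fb q)) := by
      intro q
      rw [map_sum, Finset.sum_mul, ← Finset.sum_add_distrib]
      refine Finset.sum_congr rfl fun i _ => ?_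
      rw [Derivation.leibniz, smul_eq_mul, smul_eq_mul]
      ring
    simp only [h2]
    rw [show (∑ q, ∑ i, (k.gi q i * k.db q (∑ j, k.R i j * k.Wb v j) +
          (∑ j, k.R i j * k.Wb v j) * (k.db q (k.gi q i) + k.gi q i * k.Fb q))) =
        ∑ q, ∑ i, k.gi q i * k.db q (∑ j, k.R i j * k.Wb v j) + ∑ q, ∑ i,
          (∑ j, k.R i j * k.Wb v j) * (k.db q (k.gi q i) + k.gi q i * k.Fb q) from by
      rw [← Finset.sum_add_distrib]
      exact Finset.sum_congr rfl fun q _ => Finset.sum_add_distrib]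
    have h3 : ∑ q, ∑ i, (∑ j, k.R i j * k.Wb v j) * (k.db q (k.gi q i) + k.gi q i * k.Fb q) =
        0 := by
      rw [Finset.sum_comm]
      refine Finset.sum_eq_zero fun i _ => ?_
      rw [← Finset.mul_sum, k.key', mul_zero]
    rw [h3, add_zero]
  rw [h1]
  have h4 : ∀ q i, k.db q (∑ j, k.R i j * k.Wb v j) = ∑ j, k.db q (k.R i j) * k.Wb v j +
      ∑ j, k.R i j * (∑ p, k.gi j p * k.db q (k.d p v)) +
      ∑ j, k.R i j * (∑ p, k.db q (k.gi j p) * k.d p v) := by
    intro q i
    rw [map_sum, ← Finset.sum_add_distrib, ← Finset.sum_add_distrib]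
    refine Finset.sum_congr rfl fun j _ => ?_
    rw [Derivation.leibniz, smul_eq_mul, smul_eq_mul]
    have h5 : k.db q (k.Wb v j) = ∑ p, k.gi j p * k.db q (k.d p v) +
        ∑ p, k.db q (k.gi j p) * k.d p v := by
      unfold Wb
      rw [map_sum, ← Finset.sum_add_distrib]
      refine Finset.sum_congr rfl fun p _ => ?_
      rw [Derivation.leibniz, smul_eq_mul, smul_eq_mul]
      ring
    rw [h5]
    ring
  simp only [h4, mul_add]
  have h6 : (∑ q, ∑ i, (k.gi q i * ∑ j, k.db q (k.R i j) * k.Wb v j +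
      k.gi q i * ∑ j, k.R i j * (∑ p, k.gi j p * k.db q (k.d p v)) +
      k.gi q i * ∑ j, k.R i j * (∑ p, k.db q (k.gi j p) * k.d p v))) =
      ∑ q, ∑ i, k.gi q i * ∑ j, k.db q (k.R i j) * k.Wb v j +
      ∑ q, ∑ i, k.gi q i * ∑ j, k.R i j * (∑ p, k.gi j p * k.db q (k.d p v)) +
      ∑ q, ∑ i, k.gi q i * ∑ j, k.R i j * (∑ p, k.db q (k.gi j p) * k.d p v) := by
    simp only [Finset.sum_add_distrib]
  rw [h6, k.lem_swap]
  have h7 : ∑ q, ∑ i, k.gi q i * ∑ j, k.R i j * (∑ p, k.gi j p * k.db q (k.d p v)) = k.Q v := by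
    unfold Q
    simp only [Finset.mul_sum]
  rw [h7]
  have h8 : ∑ j, k.Wb v j * k.db j k.S =
      ∑ q, ∑ i, k.gi q i * ∑ j, k.db q (k.R i j) * k.Wb v j +
      ∑ j, k.Wb v j * ∑ i, ∑ q, k.db j (k.gi q i) * k.R i q := by
    have h9 : ∀ j, k.db j k.S = ∑ i, ∑ q, k.gi q i * k.db j (k.R i q) +
        ∑ i, ∑ q, k.db j (k.gi q i) * k.R i q := by
      intro j
      unfold S
      rw [map_sum, ← Finset.sum_add_distrib]
      refine Finset.sum_congr rfl fun i _ => ?_
      rw [map_sum, ← Finset.sum_add_distrib]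
      refine Finset.sum_congr rfl fun q _ => ?_
      rw [Derivation.leibniz, smul_eq_mul, smul_eq_mul]
      ring
    simp only [h9, mul_add, Finset.sum_add_distrib]
    congr 1
    simp only [Finset.mul_sum]
    rw [Finset.sum_comm]
    have h10 : ∀ i, ∑ j, ∑ q, k.Wb v j * (k.gi q i * k.db j (k.R i q)) =
        ∑ q, ∑ j, k.gi q i * (k.db q (k.R i j) * k.Wb v j) := by
      intro i
      rw [Finset.sum_comm]
      refine Finset.sum_congr rfl fun q _ => Finset.sum_congr rfl fun j _ => ?_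
      rw [k.db_R i j q]
      ring
    simp only [h10]
    rw [Finset.sum_comm]
  rw [h8]
  ring

theorem sum_db_Y (v : A) : ∑ q, k.db q v * k.Yv v q = ∑ m, k.Wb v m * ∑ i, k.R i m * k.W v i := by
  unfold Yv W
  simp only [Finset.mul_sum]
  have : ∀ f : Fin n → Fin n → Fin n → A, ∑ q, ∑ i, ∑ j, f q i j = ∑ j, ∑ i, ∑ q, f q i j := by
    intro f
    rw [Finset.sum_comm]
    have : ∀ i, ∑ q, ∑ j, f q i j = ∑ j, ∑ q, f q i j := fun i => Finset.sum_comm
    simp only [this]
    rw [Finset.sum_comm]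
  rw [this]
  refine Finset.sum_congr rfl fun m _ => Finset.sum_congr rfl fun i _ =>
    Finset.sum_congr rfl fun q _ => ?_
  ring

/-- The Bochner identity. -/
theorem bochner (v : A) : k.P v = k.div (fun i => k.xi v i - v * k.W (k.lap v) i) -
    k.divb (fun q => v * k.Yv v q) + v * k.lich v + v * ∑ j, k.Wb v j * k.db j k.S := by
  rw [k.div_sub, k.div_xi, k.div_kappa, k.divb_smul, k.divb_Y, k.sum_db_Y]
  unfold lich
  ring

/-! ### Symmetry of `∂̄ grad v` -/

/-- `g_{i l̄} ∂̄_m W^i` -/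
def Am (v : A) (l m : Fin n) : A := ∑ i, k.g i l * k.db m (k.W v i)

theorem sum_g_W (v : A) (l : Fin n) : ∑ i, k.g i l * k.W v i = k.db l v := by
  unfold W
  simp only [Finset.mul_sum]
  rw [Finset.sum_comm]
  have h1 : ∀ m, ∑ i, k.g i l * (k.db m v * k.gi m i) = k.db m v * (1 : Matrix _ _ A) m l := by
    intro m
    rw [← k.inv, Matrix.mul_apply, Finset.mul_sum]
    refine Finset.sum_congr rfl fun i _ => ?_
    ring
  simp only [h1, Matrix.one_apply, mul_ite, mul_one, mul_zero, Finset.sum_ite_eq',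
    Finset.mem_univ, if_true]

theorem sum_g_Wb (v : A) (l : Fin n) : ∑ i, k.g l i * k.Wb v i = k.d l v := by
  unfold Wb
  simp only [Finset.mul_sum]
  rw [Finset.sum_comm]
  have h1 : ∀ j, ∑ i, k.g l i * (k.gi i j * k.d j v) = (1 : Matrix _ _ A) l j * k.d j v := by
    intro j
    rw [← k.inv', Matrix.mul_apply, Finset.sum_mul]
    refine Finset.sum_congr rfl fun i _ => ?_
    ring
  simp only [h1, Matrix.one_apply, ite_mul, one_mul, zero_mul, Finset.sum_ite_eq,
    Finset.mem_univ, if_true]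

theorem Am_eq (v : A) (l m : Fin n) : k.Am v l m =
    k.db m (k.db l v) - ∑ i, k.db m (k.g i l) * k.W v i := by
  rw [← k.sum_g_W v l, map_sum, ← Finset.sum_sub_distrib]
  unfold Am
  refine Finset.sum_congr rfl fun i _ => ?_
  rw [Derivation.leibniz, smul_eq_mul, smul_eq_mul]
  ring

theorem Am_symm (v : A) (l m : Fin n) : k.Am v l m = k.Am v m l := by
  rw [Am_eq, Am_eq, k.dbdb]
  congr 1
  refine Finset.sum_congr rfl fun i _ => ?_
  rw [k.k2]

theorem dbW_eq (v : A) (m i : Fin n) : k.db m (k.W v i) = ∑ l, k.Am v l m * k.gi l i := by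
  unfold Am
  simp only [Finset.sum_mul]
  rw [Finset.sum_comm]
  have h1 : ∀ j, ∑ l, k.g j l * k.db m (k.W v j) * k.gi l i =
      (1 : Matrix _ _ A) j i * k.db m (k.W v j) := by
    intro j
    rw [← k.inv', Matrix.mul_apply, Finset.sum_mul]
    refine Finset.sum_congr rfl fun l _ => ?_
    ring
  simp only [h1, Matrix.one_apply, ite_mul, one_mul, zero_mul, Finset.sum_ite_eq',
    Finset.mem_univ, if_true]

/-- `g_{l m̄} ∂_i W̄^m` -/
def Bm (v : A) (l i : Fin n) : A := ∑ m, k.g l m * k.d i (k.Wb v m)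

theorem dWb_eq (v : A) (i m : Fin n) : k.d i (k.Wb v m) = ∑ l, k.gi m l * k.Bm v l i := by
  unfold Bm
  simp only [Finset.mul_sum]
  rw [Finset.sum_comm]
  have h1 : ∀ j, ∑ l, k.gi m l * (k.g l j * k.d i (k.Wb v j)) =
      (1 : Matrix _ _ A) m j * k.d i (k.Wb v j) := by
    intro j
    rw [← k.inv, Matrix.mul_apply, Finset.sum_mul]
    refine Finset.sum_congr rfl fun l _ => ?_
    ring
  simp only [h1, Matrix.one_apply, ite_mul, one_mul, zero_mul, Finset.sum_ite_eq,
    Finset.mem_univ, if_true]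

/-- `P` as a quadratic expression -/
theorem P_eq (v : A) : k.P v =
    (k.gi * Matrix.of (k.Bm v) * k.gi.transpose * Matrix.of (k.Am v)).trace := by
  unfold P
  simp only [Matrix.trace, Matrix.diag, Matrix.mul_apply, Matrix.transpose_apply, Matrix.of_apply]
  rw [Finset.sum_comm]
  refine Finset.sum_congr rfl fun m _ => ?_
  have h1 : ∀ l, (∑ i, (∑ a, k.gi m a * k.Bm v a i) * k.gi l i) * k.Am v l m =
      ∑ i, k.d i (k.Wb v m) * (k.Am v l m * k.gi l i) := by
    intro l
    rw [Finset.sum_mul]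
    refine Finset.sum_congr rfl fun i _ => ?_
    rw [k.dWb_eq]
    ring
  simp only [h1]
  rw [Finset.sum_comm]
  refine Finset.sum_congr rfl fun i _ => ?_
  rw [← Finset.mul_sum, ← k.dbW_eq]

/-! ### Variation of the scalar curvature -/

variable (D : Derivation ℤ A A) (hd : ∀ i f, D (k.d i f) = k.d i (D f))
  (hdb : ∀ i f, D (k.db i f) = k.db i (D f)) (v : A) (hg : ∀ i j, D (k.g i j) = k.d i (k.db j v))

include hg in
theorem lap_eq_trace : k.lap v = (k.gi * mder D k.g).trace := by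
  unfold lap
  simp only [Matrix.trace, Matrix.diag, Matrix.mul_apply, mder, hg]
  rw [Finset.sum_comm]

include hd hg in
theorem D_F (i : Fin n) : D (k.F i) = k.d i (k.lap v) := by
  rw [k.lap_eq_trace D v hg]
  unfold F
  have hc : mder D (mder (k.d i) k.g) = mder (k.d i) (mder D k.g) := by
    ext a b
    exact hd i _
  rw [der_trace, der_trace, mder_mul, mder_mul, mder_inv D k.inv k.inv',
    mder_inv (k.d i) k.inv k.inv', hc, Matrix.trace_add, Matrix.trace_add]
  congr 1
  rw [Matrix.neg_mul, Matrix.neg_mul, Matrix.trace_neg, Matrix.trace_neg]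
  congr 1
  rw [Matrix.trace_mul_comm, ← Matrix.mul_assoc, ← Matrix.mul_assoc, Matrix.trace_mul_comm]
  simp only [Matrix.mul_assoc]

include hd hdb hg in
theorem D_S : D k.S = - k.lich v := by
  have hR : ∀ i j, D (k.R i j) = - k.d i (k.db j (k.lap v)) := by
    intro i j
    unfold R
    rw [map_neg, hdb, k.D_F D hd v hg, k.ddb]
  have hgi : ∀ a b, D (k.gi a b) = - ∑ e, (∑ c, k.gi a c * k.d c (k.db e v)) * k.gi e b := by
    intro a b
    have h := congrFun (congrFun (mder_inv D k.inv k.inv') a) b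
    rw [Matrix.neg_apply, Matrix.mul_apply] at h
    simp only [Matrix.mul_apply, mder, hg] at h
    exact h
  unfold S lich
  rw [map_sum]
  have h1 : ∀ i, D (∑ j, k.gi j i * k.R i j) = - ∑ j, k.gi j i * k.d i (k.db j (k.lap v)) -
      ∑ j, ∑ e, ∑ c, k.gi j c * k.d c (k.db e v) * k.gi e i * k.R i j := by
    intro i
    rw [map_sum, ← Finset.sum_neg_distrib, ← Finset.sum_sub_distrib]
    refine Finset.sum_congr rfl fun j _ => ?_
    rw [Derivation.leibniz, smul_eq_mul, smul_eq_mul, hR, hgi]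
    simp only [Finset.sum_mul, Finset.mul_sum, mul_neg]
    rw [sub_eq_add_neg]
    congr 1
    congr 1
    refine Finset.sum_congr rfl fun e _ => Finset.sum_congr rfl fun c _ => ?_
    ring
  simp only [h1, Finset.sum_sub_distrib, Finset.sum_neg_distrib]
  rw [neg_add, ← sub_eq_add_neg]
  congr 1
  unfold Q
  -- sum over i j e c versus q i j p
  have h3 : ∀ f : Fin n → Fin n → Fin n → Fin n → A,
      ∑ i, ∑ j, ∑ e, ∑ c, f i j e c = ∑ e, ∑ i, ∑ j, ∑ c, f i j e c := by
    intro f
    have : ∀ i, ∑ j, ∑ e, ∑ c, f i j e c = ∑ e, ∑ j, ∑ c, f i j e c := fun i => Finset.sum_comm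
    simp only [this]
    rw [Finset.sum_comm]
  rw [h3]
  refine Finset.sum_congr rfl fun e _ => Finset.sum_congr rfl fun i _ =>
    Finset.sum_congr rfl fun j _ => Finset.sum_congr rfl fun c _ => ?_
  rw [k.ddb]
  ring

end KR

end Pool.Agent.YTDA.Alg
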