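import Pool.Agent.YTDA.Defs

/- source: Pool.Agent.YTDA.Osgood -/

section

/-!
# Holomorphic functions of several variables are smooth
-/

namespace Pool.Agent.YTDA

open Complex Set Topology ContDiff MeasureTheory Metric

noncomputable section

set_option linter.unusedSectionVars false

variable {E F : Type} [NormedAddCommGroup E] [NormedSpace ℂ E] [FiniteDimensional ℂ E]
  [NormedAddCommGroup F] [NormedSpace ℂ F] [FiniteDimensional ℂ F]

theorem norm_fderiv_le_of_bound {f : E → F} {w : E} {R C : ℝ} (hR : 0 < R)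
    (hd : ∀ z ∈ closedBall w R, DifferentiableAt ℂ f z)
    (hC : ∀ z ∈ closedBall w R, ‖f z‖ ≤ C) : ‖fderiv ℂ f w‖ ≤ C / R := by
  have hC0 : 0 ≤ C := (norm_nonneg _).trans (hC w (mem_closedBall_self hR.le))
  refine ContinuousLinearMap.opNorm_le_bound _ (by positivity) fun u => ?_
  rcases eq_or_ne u 0 with rfl | hu
  · simp
  have hu0 : 0 < ‖u‖ := norm_pos_iff.2 hu
  have hmem : ∀ t : ℂ, ‖t‖ ≤ R / ‖u‖ → w + t • u ∈ closedBall w R := by
    intro t ht
    rw [mem_closedBall, dist_eq_norm, add_sub_cancel_left, norm_smul]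
    rwa [le_div_iff₀ hu0] at ht
  have hderiv : ∀ t : ℂ, ‖t‖ ≤ R / ‖u‖ →
      HasDerivAt (fun t : ℂ => f (w + t • u)) (fderiv ℂ f (w + t • u) u) t := by
    intro t ht
    have h1 : HasFDerivAt f (fderiv ℂ f (w + t • u)) (w + t • u) :=
      (hd _ (hmem t ht)).hasFDerivAt
    have h2 : HasDerivAt (fun t : ℂ => w + t • u) u t := by
      simpa using ((hasDerivAt_id t).smul_const u).const_add w
    exact h1.comp_hasDerivAt t h2
  have h0 := hderiv 0 (by simpa using (by positivity : 0 ≤ R / ‖u‖))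
  have h3 : ‖deriv (fun t : ℂ => f (w + t • u)) 0‖ ≤ C / (R / ‖u‖) := by
    refine norm_deriv_le_of_forall_mem_sphere_norm_le (by positivity) ?_ ?_
    · refine DifferentiableOn.diffContOnCl ?_
      intro t ht
      rw [closure_ball _ (by positivity : R / ‖u‖ ≠ 0), mem_closedBall_zero_iff] at ht
      exact (hderiv t ht).differentiableAt.differentiableWithinAt
    · intro t ht
      rw [mem_sphere_zero_iff_norm] at ht
      exact hC _ (hmem t ht.le)
  rw [h0.deriv] at h3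
  simp only [zero_smul, add_zero] at h3
  calc ‖fderiv ℂ f w u‖ ≤ C / (R / ‖u‖) := h3
    _ = C / R * ‖u‖ := by
      field_simp

/-- directional derivatives of holomorphic functions are holomorphic -/
theorem differentiableOn_fderiv_apply {f : E → F} {s : Set E} (hs : IsOpen s)
    (hf : DifferentiableOn ℂ f s) (v : E) : DifferentiableOn ℂ (fun z => fderiv ℂ f z v) s := by
  intro z₀ hz₀
  have : ProperSpace E := FiniteDimensional.proper ℂ E
  obtain ⟨R', hR', hR's⟩ := Metric.isOpen_iff.1 hs z₀ hz₀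
  obtain ⟨R, hR, hRR'⟩ : ∃ R : ℝ, 0 < R ∧ 2 * R < R' := ⟨R' / 4, by positivity, by linarith⟩
  have hsub : closedBall z₀ (2 * R) ⊆ s := (closedBall_subset_ball hRR').trans hR's
  have hda : ∀ z ∈ s, DifferentiableAt ℂ f z := fun z hz => hf.differentiableAt (hs.mem_nhds hz)
  obtain ⟨C, hC⟩ := (isCompact_closedBall z₀ (2 * R)).exists_bound_of_continuousOn
    (hf.continuousOn.mono hsub)
  have hC0 : 0 ≤ C := (norm_nonneg _).trans (hC z₀ (mem_closedBall_self (by positivity)))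
  have hbd : ∀ w ∈ closedBall z₀ R, ‖fderiv ℂ f w‖ ≤ C / R := by
    intro w hw
    have h1 : closedBall w R ⊆ closedBall z₀ (2 * R) := by
      intro x hx
      rw [mem_closedBall] at hx hw ⊢
      linarith [dist_triangle x w z₀]
    exact norm_fderiv_le_of_bound hR (fun z hz => hda z (hsub (h1 hz))) fun z hz => hC z (h1 hz)
  obtain ⟨r, hr, hrv⟩ : ∃ r : ℝ, 0 < r ∧ r * ‖v‖ ≤ R / 2 := by
    refine ⟨R / 2 / (‖v‖ + 1), by positivity, ?_⟩
    rw [div_mul_eq_mul_div, div_le_iff₀ (by positivity)]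
    nlinarith [norm_nonneg v]
  have hmem : ∀ z ∈ ball z₀ (R / 2), ∀ t : ℂ, ‖t‖ ≤ r → z + t • v ∈ closedBall z₀ R := by
    intro z hz t ht
    rw [mem_ball, dist_eq_norm] at hz
    rw [mem_closedBall, dist_eq_norm]
    have h1 : ‖z + t • v - z₀‖ ≤ ‖z - z₀‖ + ‖t • v‖ := by
      have h2 : z + t • v - z₀ = (z - z₀) + t • v := by abel
      rw [h2]
      exact norm_add_le _ _
    rw [norm_smul] at h1
    nlinarith [norm_nonneg v]
  have hmems : ∀ z ∈ ball z₀ (R / 2), ∀ t : ℂ, ‖t‖ ≤ r → z + t • v ∈ s := fun z hz t ht =>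
    hsub (closedBall_subset_closedBall (by linarith) (hmem z hz t ht))
  have hrepr : ∀ z ∈ ball z₀ (R / 2), fderiv ℂ f z v =
      (2 * Real.pi * I : ℂ)⁻¹ • ∮ t in C(0, r), (1 / (t - 0) ^ 2) • f (z + t • v) := by
    intro z hz
    have hderiv : ∀ t : ℂ, ‖t‖ ≤ r →
        HasDerivAt (fun t : ℂ => f (z + t • v)) (fderiv ℂ f (z + t • v) v) t := by
      intro t ht
      have h1 : HasFDerivAt f (fderiv ℂ f (z + t • v)) (z + t • v) :=
        (hda _ (hmems z hz t ht)).hasFDerivAt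
      have h2 : HasDerivAt (fun t : ℂ => z + t • v) v t := by
        simpa using ((hasDerivAt_id t).smul_const v).const_add z
      exact h1.comp_hasDerivAt t h2
    have h0 := hderiv 0 (by simpa using hr.le)
    have hdo : DifferentiableOn ℂ (fun t : ℂ => f (z + t • v)) (closedBall 0 r) := by
      intro t ht
      rw [mem_closedBall_zero_iff] at ht
      exact (hderiv t ht).differentiableAt.differentiableWithinAt
    rw [hdo.deriv_eq_smul_circleIntegral hr, h0.deriv, smul_smul,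
      inv_mul_cancel₀ two_pi_I_ne_zero, one_smul]
    simp
  have hev : (fun z => fderiv ℂ f z v) =ᶠ[𝓝 z₀] fun z =>
      (2 * Real.pi * I : ℂ)⁻¹ • ∮ t in C(0, r), (1 / (t - 0) ^ 2) • f (z + t • v) :=
    Filter.eventuallyEq_of_mem (ball_mem_nhds z₀ (by positivity)) hrepr
  refine DifferentiableAt.differentiableWithinAt (DifferentiableAt.congr_of_eventuallyEq ?_ hev)
  refine DifferentiableAt.const_smul ?_ _
  set c : ℝ → ℂ := fun θ => deriv (circleMap 0 r) θ * (1 / (circleMap 0 r θ - 0) ^ 2) with hc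
  have hcm : Continuous c := by
    have h1 : Continuous (deriv (circleMap 0 r)) := by
      have : deriv (circleMap 0 r) = fun θ => circleMap 0 r θ * I := by
        ext θ
        rw [deriv_circleMap]
      rw [this]
      exact (continuous_circleMap 0 r).mul continuous_const
    refine h1.mul ?_
    refine continuous_const.div (((continuous_circleMap 0 r).sub continuous_const).pow 2)
      fun θ => pow_ne_zero 2 ?_
    have h2 := circleMap_ne_center (c := 0) (θ := θ) hr.ne'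
    simpa using h2
  have hnc : ∀ θ, ‖circleMap 0 r θ‖ ≤ r := fun θ => by
    rw [norm_circleMap_zero, abs_of_pos hr]
  have hcirc : (fun z => ∮ t in C(0, r), (1 / (t - 0) ^ 2) • f (z + t • v)) =
      fun z => ∫ θ in (0 : ℝ)..2 * Real.pi, c θ • f (z + circleMap 0 r θ • v) := by
    ext z
    simp only [circleIntegral, hc, mul_smul]
  rw [hcirc]
  have hcontF : ∀ z ∈ ball z₀ (R / 2), Continuous fun θ : ℝ =>
      c θ • f (z + circleMap 0 r θ • v) := by
    intro z hz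
    refine hcm.smul ?_
    refine ContinuousOn.comp_continuous hf.continuousOn ?_ fun θ => hmems z hz _ (hnc θ)
    exact continuous_const.add ((continuous_circleMap 0 r).smul continuous_const)
  obtain ⟨B, hB⟩ : ∃ B, ∀ θ ∈ uIcc (0 : ℝ) (2 * Real.pi), ‖c θ‖ ≤ B :=
    isCompact_uIcc.exists_bound_of_continuousOn hcm.continuousOn
  have hB0 : 0 ≤ B := (norm_nonneg _).trans (hB 0 left_mem_uIcc)
  have hmeas : Measurable fun θ : ℝ => fderiv ℂ f (z₀ + circleMap 0 r θ • v) := by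
    let : MeasurableSpace E := borel E
    have : BorelSpace E := ⟨rfl⟩
    have h1 : Measurable fun θ : ℝ => z₀ + circleMap 0 r θ • v :=
      (continuous_const.add ((continuous_circleMap 0 r).smul continuous_const)).measurable
    exact (measurable_fderiv ℂ f).comp h1
  refine (intervalIntegral.hasFDerivAt_integral_of_dominated_of_fderiv_le
    (F' := fun z θ => c θ • fderiv ℂ f (z + circleMap 0 r θ • v)) (bound := fun _ => B * (C / R))
    (s := ball z₀ (R / 2)) (ball_mem_nhds z₀ (by positivity)) ?_ ?_ ?_ ?_ ?_ ?_).differentiableAt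
  · filter_upwards [ball_mem_nhds z₀ (half_pos hR)] with z hz
    exact (hcontF z hz).aestronglyMeasurable
  · exact (hcontF z₀ (mem_ball_self (half_pos hR))).intervalIntegrable _ _
  · exact (hcm.measurable.smul hmeas).aestronglyMeasurable
  · refine Filter.Eventually.of_forall fun θ hθ z hz => ?_
    rw [norm_smul]
    exact mul_le_mul (hB θ (uIoc_subset_uIcc hθ)) (hbd _ (hmem z hz _ (hnc θ))) (norm_nonneg _) hB0
  · exact intervalIntegrable_const
  · refine Filter.Eventually.of_forall fun θ hθ z hz => ?_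
    have h1 : HasFDerivAt f (fderiv ℂ f (z + circleMap 0 r θ • v)) (z + circleMap 0 r θ • v) :=
      (hda _ (hmems z hz _ (hnc θ))).hasFDerivAt
    have h2 : HasFDerivAt (fun z : E => z + circleMap 0 r θ • v)
        (ContinuousLinearMap.id ℂ E) z := (hasFDerivAt_id z).add_const _
    have h3 := h1.comp z h2
    rw [ContinuousLinearMap.comp_id] at h3
    exact h3.const_smul (c θ)

theorem differentiableOn_fderiv {f : E → F} {s : Set E} (hs : IsOpen s)
    (hf : DifferentiableOn ℂ f s) : DifferentiableOn ℂ (fderiv ℂ f) s := by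
  let b := Module.finBasis ℂ E
  let e : (E →L[ℂ] F) →ₗ[ℂ] (Fin (Module.finrank ℂ E) → F) :=
    { toFun := fun A i => A (b i)
      map_add' := fun A B => rfl
      map_smul' := fun c A => rfl }
  have he : Function.Injective e := by
    intro A B h
    have h1 : (A : E →ₗ[ℂ] F) = B := b.ext fun i => congrFun h i
    exact ContinuousLinearMap.coe_injective h1
  have : FiniteDimensional ℂ (E →L[ℂ] F) := inferInstance
  let eC := LinearMap.toContinuousLinearMap e
  obtain ⟨g, hg⟩ := LinearMap.exists_leftInverse_of_injective e (LinearMap.ker_eq_bot.2 he)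
  let gC := LinearMap.toContinuousLinearMap g
  have h1 : fderiv ℂ f = fun z => gC (fun i => fderiv ℂ f z (b i)) := by
    ext1 z
    exact (LinearMap.congr_fun hg (fderiv ℂ f z)).symm
  rw [h1]
  exact gC.differentiable.comp_differentiableOn
    (differentiableOn_pi.2 fun i => differentiableOn_fderiv_apply hs hf (b i))

/-- Holomorphic functions of several variables are smooth. -/
theorem contDiffOn_of_differentiableOn {f : E → F} {s : Set E} (hs : IsOpen s)
    (hf : DifferentiableOn ℂ f s) : ContDiffOn ℂ ∞ f s := by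
  rw [contDiffOn_infty]
  intro n
  have key : ∀ n : ℕ, ∀ (G : Type) [NormedAddCommGroup G] [NormedSpace ℂ G]
      [FiniteDimensional ℂ G] (f : E → G), DifferentiableOn ℂ f s → ContDiffOn ℂ n f s := by
    intro n
    induction n with
    | zero =>
      intro G _ _ _ f hf
      exact contDiffOn_zero.2 hf.continuousOn
    | succ n ih =>
      intro G _ _ _ f hf
      have h1 : ((n + 1 : ℕ) : WithTop ℕ∞) = (n : WithTop ℕ∞) + 1 := by norm_cast
      rw [h1, contDiffOn_succ_iff_fderiv_of_isOpen hs]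
      refine ⟨hf, fun h => absurd h (by simp), ih _ _ (differentiableOn_fderiv hs hf)⟩
  exact key n F f hf

theorem contDiffOn_real_of_differentiableOn {f : E → F} {s : Set E}
    [NormedSpace ℝ E] [IsScalarTower ℝ ℂ E] [NormedSpace ℝ F] [IsScalarTower ℝ ℂ F]
    (hs : IsOpen s) (hf : DifferentiableOn ℂ f s) : ContDiffOn ℝ ∞ f s :=
  (contDiffOn_of_differentiableOn hs hf).restrict_scalars ℝ

end

end Pool.Agent.YTDA


end

/- source: Pool.Agent.YTDA.Smr1 -/

section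

/-!
# The algebra of smooth functions on an open set and its commuting derivations
-/

namespace Pool.Agent.YTDA

open Complex Set Topology ContDiff ComplexOrder TopologicalSpace

noncomputable section

section Ring

set_option linter.unusedSectionVars false

variable {V : Type} [NormedAddCommGroup V] [NormedSpace ℝ V] {Ω : Opens V}

/-- extension by zero of a function on `Ω` -/
def ext (f : Ω → ℂ) : V → ℂ := Function.extend (fun z : Ω => (z : V)) f 0

theorem ext_coe (f : Ω → ℂ) (z : Ω) : ext f z = f z :=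
  Subtype.val_injective.extend_apply f 0 z

theorem ext_mk (f : Ω → ℂ) {z : V} (hz : z ∈ Ω) : ext f z = f ⟨z, hz⟩ :=
  ext_coe f ⟨z, hz⟩

theorem ext_eqOn (F : V → ℂ) : EqOn (ext (fun z : Ω => F z)) F Ω := fun _ hz => ext_mk _ hz

theorem ext_eventuallyEq (F : V → ℂ) {z : V} (hz : z ∈ Ω) :
    ext (fun z : Ω => F z) =ᶠ[𝓝 z] F :=
  Filter.eventuallyEq_of_mem (Ω.isOpen.mem_nhds hz) (ext_eqOn F)

variable (Ω) in
/-- smooth complex functions on `Ω` -/
structure Sm : Type where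
  /-- the function -/
  toFun : Ω → ℂ
  smooth' : ContDiffOn ℝ ∞ (ext toFun) Ω

theorem smooth_ext (f : Sm Ω) : ContDiffOn ℝ ∞ (ext f.1) Ω := f.2

theorem smoothAt_ext (f : Sm Ω) {z : V} (hz : z ∈ Ω) : ContDiffAt ℝ ∞ (ext f.1) z :=
  f.2.contDiffAt (Ω.isOpen.mem_nhds hz)

theorem diffAt_ext (f : Sm Ω) {z : V} (hz : z ∈ Ω) : DifferentiableAt ℝ (ext f.1) z :=
  (smoothAt_ext f hz).differentiableAt (by simp)

theorem Sm.inj : Function.Injective (fun f : Sm Ω => f.1) := by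
  rintro ⟨f, hf⟩ ⟨g, hg⟩ h
  simp only at h
  subst h
  rfl

theorem Sm.ext' {f g : Sm Ω} (h : ∀ z, f.1 z = g.1 z) : f = g := Sm.inj (funext h)

instance : Zero (Sm Ω) := ⟨⟨fun _ => 0, contDiffOn_const.congr (ext_eqOn fun _ => 0)⟩⟩

instance : One (Sm Ω) := ⟨⟨fun _ => 1, contDiffOn_const.congr (ext_eqOn fun _ => 1)⟩⟩

instance : NatCast (Sm Ω) :=
  ⟨fun n => ⟨fun _ => n, contDiffOn_const.congr (ext_eqOn fun _ => (n : ℂ))⟩⟩

instance : IntCast (Sm Ω) :=
  ⟨fun n => ⟨fun _ => n, contDiffOn_const.congr (ext_eqOn fun _ => (n : ℂ))⟩⟩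

instance : Add (Sm Ω) := ⟨fun f g => ⟨fun z => f.1 z + g.1 z, (f.2.add g.2).congr fun z hz => by
  simp only [ext_mk _ hz]⟩⟩

instance : Mul (Sm Ω) := ⟨fun f g => ⟨fun z => f.1 z * g.1 z, (f.2.mul g.2).congr fun z hz => by
  simp only [ext_mk _ hz]⟩⟩

instance : Neg (Sm Ω) := ⟨fun f => ⟨fun z => -f.1 z, f.2.neg.congr fun z hz => by
  simp only [ext_mk _ hz]⟩⟩

instance : Sub (Sm Ω) := ⟨fun f g => ⟨fun z => f.1 z - g.1 z, (f.2.sub g.2).congr fun z hz => by
  simp only [ext_mk _ hz]⟩⟩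

instance : SMul ℂ (Sm Ω) := ⟨fun c f => ⟨fun z => c * f.1 z,
  ((contDiffOn_const (c := c)).mul f.2).congr fun z hz => by
    simp only [ext_mk _ hz]⟩⟩

instance : SMul ℕ (Sm Ω) := ⟨fun c f => ⟨fun z => c • f.1 z,
  ((contDiffOn_const (c := (c : ℂ))).mul f.2).congr fun z hz => by
    simp only [ext_mk _ hz, nsmul_eq_mul]⟩⟩

instance : SMul ℤ (Sm Ω) := ⟨fun c f => ⟨fun z => c • f.1 z,
  ((contDiffOn_const (c := (c : ℂ))).mul f.2).congr fun z hz => by
    simp only [ext_mk _ hz, zsmul_eq_mul]⟩⟩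

instance : Pow (Sm Ω) ℕ := ⟨fun f k => ⟨fun z => f.1 z ^ k, (f.2.pow k).congr fun z hz => by
  simp only [ext_mk _ hz]⟩⟩

instance : CommRing (Sm Ω) := Sm.inj.commRing (fun f : Sm Ω => f.1) rfl rfl (fun _ _ => rfl)
  (fun _ _ => rfl) (fun _ => rfl) (fun _ _ => rfl) (fun _ _ => rfl) (fun _ _ => rfl)
  (fun _ _ => rfl) (fun _ => rfl) (fun _ => rfl)

@[simp] theorem Sm.add_apply (f g : Sm Ω) (z : Ω) : (f + g).1 z = f.1 z + g.1 z := rfl
@[simp] theorem Sm.mul_apply (f g : Sm Ω) (z : Ω) : (f * g).1 z = f.1 z * g.1 z := rfl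
@[simp] theorem Sm.sub_apply (f g : Sm Ω) (z : Ω) : (f - g).1 z = f.1 z - g.1 z := rfl
@[simp] theorem Sm.neg_apply (f : Sm Ω) (z : Ω) : (-f).1 z = -(f.1 z) := rfl
@[simp] theorem Sm.zero_apply (z : Ω) : (0 : Sm Ω).1 z = 0 := rfl
@[simp] theorem Sm.one_apply (z : Ω) : (1 : Sm Ω).1 z = 1 := rfl
@[simp] theorem Sm.smul_apply (c : ℂ) (f : Sm Ω) (z : Ω) : (c • f).1 z = c * f.1 z := rfl
@[simp] theorem Sm.pow_apply (f : Sm Ω) (k : ℕ) (z : Ω) : (f ^ k).1 z = f.1 z ^ k := rfl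

instance : Algebra ℂ (Sm Ω) where
  algebraMap :=
    { toFun := fun c => ⟨fun _ => c, contDiffOn_const.congr (ext_eqOn fun _ => c)⟩
      map_one' := rfl
      map_mul' := fun _ _ => rfl
      map_zero' := rfl
      map_add' := fun _ _ => rfl }
  commutes' _ _ := Sm.ext' fun _ => mul_comm _ _
  smul_def' _ _ := rfl

@[simp] theorem Sm.algebraMap_apply (c : ℂ) (z : Ω) : (algebraMap ℂ (Sm Ω) c).1 z = c := rfl

/-- evaluation at a point -/
def evalS (z : Ω) : Sm Ω →ₐ[ℂ] ℂ where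
  toFun f := f.1 z
  map_one' := rfl
  map_mul' _ _ := rfl
  map_zero' := rfl
  map_add' _ _ := rfl
  commutes' _ := rfl

@[simp] theorem evalS_apply (z : Ω) (f : Sm Ω) : evalS z f = f.1 z := rfl

theorem Sm.sum_apply {ι : Type*} (s : Finset ι) (f : ι → Sm Ω) (z : Ω) :
    (∑ i ∈ s, f i).1 z = ∑ i ∈ s, (f i).1 z := map_sum (evalS z) f s

/-- the element given by a function that is smooth on `Ω` -/
def ofFn (F : V → ℂ) (hF : ContDiffOn ℝ ∞ F Ω) : Sm Ω :=
  ⟨fun z => F z, hF.congr (ext_eqOn F)⟩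

@[simp] theorem ofFn_apply (F : V → ℂ) (hF : ContDiffOn ℝ ∞ F Ω) (z : Ω) :
    (ofFn F hF).1 z = F z := rfl

theorem ofFn_ext (f : Sm Ω) : ofFn (ext f.1) f.2 = f := Sm.ext' fun z => ext_coe _ z

theorem ext_ofFn_eventuallyEq (F : V → ℂ) (hF : ContDiffOn ℝ ∞ F Ω) {z : V} (hz : z ∈ Ω) :
    ext (ofFn F hF).1 =ᶠ[𝓝 z] F := ext_eventuallyEq F hz

theorem fderiv_ext_ofFn (F : V → ℂ) (hF : ContDiffOn ℝ ∞ F Ω) {z : V} (hz : z ∈ Ω) :
    fderiv ℝ (ext (ofFn F hF).1) z = fderiv ℝ F z :=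
  (ext_ofFn_eventuallyEq F hF hz).fderiv_eq

theorem contDiffOn_fderiv_apply (f : Sm Ω) (v : V) :
    ContDiffOn ℝ ∞ (fun z => fderiv ℝ (ext f.1) z v) Ω :=
  (f.2.fderiv_of_isOpen Ω.isOpen (by simp)).clm_apply contDiffOn_const

/-- directional derivative -/
def D (v : V) : Derivation ℂ (Sm Ω) (Sm Ω) :=
  Derivation.mk'
    { toFun := fun f => ofFn (fun z => fderiv ℝ (ext f.1) z v) (contDiffOn_fderiv_apply f v)
      map_add' := fun f g => Sm.ext' fun z => by
        have h : ext (f + g).1 =ᶠ[𝓝 (z : V)] ext f.1 + ext g.1 :=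
          Filter.eventuallyEq_of_mem (Ω.isOpen.mem_nhds z.2) fun w hw => by
            simp only [ext_mk _ hw, Sm.add_apply, Pi.add_apply]
        simp only [ofFn_apply, Sm.add_apply]
        rw [h.fderiv_eq, fderiv_add (diffAt_ext f z.2) (diffAt_ext g z.2)]
        rfl
      map_smul' := fun c f => Sm.ext' fun z => by
        have h : ext (c • f).1 =ᶠ[𝓝 (z : V)] fun w => c * ext f.1 w :=
          Filter.eventuallyEq_of_mem (Ω.isOpen.mem_nhds z.2) fun w hw => by
            simp only [ext_mk _ hw, Sm.smul_apply]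
        simp only [ofFn_apply, Sm.smul_apply, RingHom.id_apply]
        rw [h.fderiv_eq, fderiv_const_mul (diffAt_ext f z.2)]
        rfl }
    (fun f g => Sm.ext' fun z => by
      have h : ext (f * g).1 =ᶠ[𝓝 (z : V)] fun w => ext f.1 w * ext g.1 w :=
        Filter.eventuallyEq_of_mem (Ω.isOpen.mem_nhds z.2) fun w hw => by
          simp only [ext_mk _ hw, Sm.mul_apply]
      simp only [LinearMap.coe_mk, AddHom.coe_mk, ofFn_apply, smul_eq_mul, Sm.add_apply,
        Sm.mul_apply]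
      rw [h.fderiv_eq, fderiv_fun_mul (diffAt_ext f z.2) (diffAt_ext g z.2)]
      simp only [_root_.add_apply, _root_.smul_apply, smul_eq_mul,
        ext_coe])

theorem D_apply (v : V) (f : Sm Ω) (z : Ω) : (D v f).1 z = fderiv ℝ (ext f.1) z v := rfl

theorem D_ofFn (v : V) (F : V → ℂ) (hF : ContDiffOn ℝ ∞ F Ω) (z : Ω) :
    (D v (ofFn F hF)).1 z = fderiv ℝ F z v := by
  rw [D_apply, fderiv_ext_ofFn F hF z.2]

theorem D_add (v w : V) : (D (v + w) : Derivation ℂ (Sm Ω) (Sm Ω)) = D v + D w := by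
  apply Derivation.ext
  intro f
  apply Sm.ext'
  intro z
  rw [Derivation.add_apply, Sm.add_apply]
  simp only [D_apply, map_add]

theorem D_smul (r : ℝ) (v : V) :
    (D (r • v) : Derivation ℂ (Sm Ω) (Sm Ω)) =
      (r : ℂ) • (D v : Derivation ℂ (Sm Ω) (Sm Ω)) := by
  apply Derivation.ext
  intro f
  apply Sm.ext'
  intro z
  rw [Derivation.smul_apply, Sm.smul_apply]
  simp only [D_apply, map_smul, real_smul]

theorem D_neg (v : V) : (D (-v) : Derivation ℂ (Sm Ω) (Sm Ω)) = -D v := by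
  apply Derivation.ext
  intro f
  apply Sm.ext'
  intro z
  rw [Derivation.neg_apply, Sm.neg_apply]
  simp only [D_apply, map_neg]

theorem D_zero : (D (0 : V) : Derivation ℂ (Sm Ω) (Sm Ω)) = 0 := by
  apply Derivation.ext
  intro f
  apply Sm.ext'
  intro z
  simp only [D_apply, map_zero]
  rfl

theorem D_comm (v w : V) (f : Sm Ω) : D v (D w f) = D w (D v f) := by
  apply Sm.ext'
  intro z
  have hs : IsSymmSndFDerivAt ℝ (ext f.1) (z : V) :=
    (smoothAt_ext f z.2).isSymmSndFDerivAt (by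
      simp only [minSmoothness_of_isRCLikeNormedField]
      exact WithTop.coe_le_coe.2 (le_top : (2 : ℕ∞) ≤ ⊤))
  have hd : DifferentiableAt ℝ (fderiv ℝ (ext f.1)) (z : V) :=
    ((smoothAt_ext f z.2).fderiv_right (m := 1) (by norm_cast)).differentiableAt (by simp)
  have key : ∀ u t : V, (D u (D t f)).1 z = fderiv ℝ (fderiv ℝ (ext f.1)) z u t := by
    intro u t
    have h1 : (D u (D t f)).1 z = fderiv ℝ (fun y => fderiv ℝ (ext f.1) y t) z u :=
      D_ofFn u (fun y => fderiv ℝ (ext f.1) y t) (contDiffOn_fderiv_apply f t) z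
    rw [h1, fderiv_clm_apply hd (differentiableAt_const t)]
    simp
  rw [key, key]
  exact hs.eq v w

end Ring

end

end Pool.Agent.YTDA


end

/- source: Pool.Agent.YTDA.Smr2 -/

section

/-!
# The algebra of smooth functions: conjugation, units, logarithm, complex derivations
-/

namespace Pool.Agent.YTDA

open Complex Set Topology ContDiff ComplexOrder TopologicalSpace

noncomputable section

set_option linter.unusedSectionVars false

section Star

variable {V : Type} [NormedAddCommGroup V] [NormedSpace ℝ V] {Ω : Opens V}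

theorem contDiffOn_conj {F : V → ℂ} {s : Set V} (h : ContDiffOn ℝ ∞ F s) :
    ContDiffOn ℝ ∞ (fun z => (starRingEnd ℂ) (F z)) s :=
  Complex.conjCLE.contDiff.comp_contDiffOn h

instance : Star (Sm Ω) := ⟨fun f => ofFn (fun z => (starRingEnd ℂ) (ext f.1 z))
  (contDiffOn_conj f.2)⟩

@[simp] theorem star_apply (f : Sm Ω) (z : Ω) : (star f).1 z = (starRingEnd ℂ) (f.1 z) := by
  show (starRingEnd ℂ) (ext f.1 z) = _
  rw [ext_coe]

instance : StarRing (Sm Ω) where
  star_involutive f := Sm.ext' fun z => by simp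
  star_mul f g := Sm.ext' fun z => by simp [mul_comm]
  star_add f g := Sm.ext' fun z => by simp

instance : StarModule ℂ (Sm Ω) where
  star_smul c f := Sm.ext' fun z => by simp

theorem star_smul_real (r : ℝ) (f : Sm Ω) : star ((r : ℂ) • f) = (r : ℂ) • star f := by
  rw [star_smul]
  simp

theorem D_star (v : V) (f : Sm Ω) : D v (star f) = star (D v f) := by
  apply Sm.ext'
  intro z
  have h : ext (star f).1 =ᶠ[𝓝 (z : V)] fun w => conjCLE (ext f.1 w) :=
    Filter.eventuallyEq_of_mem (Ω.isOpen.mem_nhds z.2) fun w hw => by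
      simp only [ext_mk _ hw, star_apply]
      rfl
  rw [D_apply, h.fderiv_eq, star_apply, D_apply]
  have h1 : fderiv ℝ (fun w => conjCLE (ext f.1 w)) z =
      (conjCLE : ℂ →L[ℝ] ℂ).comp (fderiv ℝ (ext f.1) z) :=
    ContinuousLinearEquiv.comp_fderiv conjCLE
  rw [h1]
  rfl

end Star

section Units

variable {V : Type} [NormedAddCommGroup V] [NormedSpace ℝ V] {Ω : Opens V}

/-- the inverse of a nowhere vanishing function -/
def invS (f : Sm Ω) (hf : ∀ z, f.1 z ≠ 0) : Sm Ω :=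
  ofFn (fun z => (ext f.1 z)⁻¹) (f.2.inv fun z hz => by
    rw [ext_mk _ hz]
    exact hf _)

@[simp] theorem invS_apply (f : Sm Ω) (hf : ∀ z, f.1 z ≠ 0) (z : Ω) :
    (invS f hf).1 z = (f.1 z)⁻¹ := by
  show (ext f.1 z)⁻¹ = _
  rw [ext_coe]

theorem mul_invS (f : Sm Ω) (hf : ∀ z, f.1 z ≠ 0) : f * invS f hf = 1 :=
  Sm.ext' fun z => by simp [hf z]

theorem invS_mul (f : Sm Ω) (hf : ∀ z, f.1 z ≠ 0) : invS f hf * f = 1 :=
  Sm.ext' fun z => by simp [hf z]

theorem isUnit_iff_ne (f : Sm Ω) : IsUnit f ↔ ∀ z, f.1 z ≠ 0 := by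
  constructor
  · intro h z
    exact (h.map (evalS z)).ne_zero
  · intro h
    exact ⟨⟨f, invS f h, mul_invS f h, invS_mul f h⟩, rfl⟩

/-- the element given by a real valued smooth function -/
def ofR (φ : V → ℝ) (hφ : ContDiffOn ℝ ∞ φ Ω) : Sm Ω :=
  ofFn (fun z => (φ z : ℂ)) (ofRealCLM.contDiff.comp_contDiffOn hφ)

@[simp] theorem ofR_apply (φ : V → ℝ) (hφ : ContDiffOn ℝ ∞ φ Ω) (z : Ω) :
    (ofR φ hφ).1 z = φ z := rfl

theorem star_ofR (φ : V → ℝ) (hφ : ContDiffOn ℝ ∞ φ Ω) : star (ofR φ hφ : Sm Ω) = ofR φ hφ :=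
  Sm.ext' fun z => by simp

theorem contDiffOn_log (f : Sm Ω) (hf : ∀ z, 0 < f.1 z) :
    ContDiffOn ℝ ∞ (fun z => Real.log (ext f.1 z).re) Ω := by
  have h1 : ContDiffOn ℝ ∞ (fun z => (ext f.1 z).re) Ω := reCLM.contDiff.comp_contDiffOn f.2
  refine h1.log fun z hz => ?_
  rw [ext_mk _ hz]
  exact (pos_iff.1 (hf ⟨z, hz⟩)).1.ne'

/-- the logarithm of a positive function -/
def logS (f : Sm Ω) (hf : ∀ z, 0 < f.1 z) : Sm Ω :=
  ofR (fun z => Real.log (ext f.1 z).re) (contDiffOn_log f hf)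

theorem logS_apply (f : Sm Ω) (hf : ∀ z, 0 < f.1 z) (z : Ω) :
    (logS f hf).1 z = (Real.log (f.1 z).re : ℝ) := by
  show ((Real.log (ext f.1 z).re : ℝ) : ℂ) = _
  rw [ext_coe]

theorem star_logS (f : Sm Ω) (hf : ∀ z, 0 < f.1 z) : star (logS f hf) = logS f hf :=
  star_ofR _ _

theorem exp_logS (f : Sm Ω) (hf : ∀ z, 0 < f.1 z) (z : Ω) : exp ((logS f hf).1 z) = f.1 z := by
  rw [logS_apply, ← ofReal_exp, Real.exp_log (pos_iff.1 (hf z)).1]
  apply Complex.ext
  · simp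
  · simp [← (pos_iff.1 (hf z)).2]

theorem mul_D_logS (v : V) (f : Sm Ω) (hf : ∀ z, 0 < f.1 z) :
    f * D v (logS f hf) = D v f := by
  apply Sm.ext'
  intro z
  have h : ext f.1 =ᶠ[𝓝 (z : V)] fun w => exp (ext (logS f hf).1 w) :=
    Filter.eventuallyEq_of_mem (Ω.isOpen.mem_nhds z.2) fun w hw => by
      simp only [ext_mk _ hw, exp_logS]
  rw [Sm.mul_apply, D_apply, D_apply, h.fderiv_eq,
    (diffAt_ext (logS f hf) z.2).hasFDerivAt.cexp.fderiv]
  rw [_root_.smul_apply, ext_coe, exp_logS, smul_eq_mul]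

end Units

section Span

variable {V : Type} [NormedAddCommGroup V] [NormedSpace ℝ V] {Ω : Opens V}

variable (Ω) in
/-- the module of derivations spanned by the directional derivatives -/
def DS : Submodule (Sm Ω) (Derivation ℂ (Sm Ω) (Sm Ω)) := Submodule.span _ (range D)

variable (Ω) in
/-- the complex span of the directional derivatives -/
def DC : Submodule ℂ (Derivation ℂ (Sm Ω) (Sm Ω)) := Submodule.span _ (range D)

theorem D_mem_DC (v : V) : (D v : Derivation ℂ (Sm Ω) (Sm Ω)) ∈ DC Ω :=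
  Submodule.subset_span ⟨v, rfl⟩

theorem D_mem_DS (v : V) : (D v : Derivation ℂ (Sm Ω) (Sm Ω)) ∈ DS Ω :=
  Submodule.subset_span ⟨v, rfl⟩

theorem DC_le_DS {δ : Derivation ℂ (Sm Ω) (Sm Ω)} (h : δ ∈ DC Ω) : δ ∈ DS Ω := by
  refine Submodule.span_induction ?_ ?_ ?_ ?_ h
  · rintro _ ⟨v, rfl⟩
    exact D_mem_DS v
  · exact Submodule.zero_mem _
  · intro x y _ _ hx hy
    exact Submodule.add_mem _ hx hy
  · intro c x _ hx
    have : c • x = (algebraMap ℂ (Sm Ω) c) • x := by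
      apply Derivation.ext
      intro f
      simp only [Derivation.smul_apply, algebraMap_smul]
    rw [this]
    exact Submodule.smul_mem _ _ hx

theorem DC_comm {δ δ' : Derivation ℂ (Sm Ω) (Sm Ω)} (h : δ ∈ DC Ω) (h' : δ' ∈ DC Ω)
    (f : Sm Ω) : δ (δ' f) = δ' (δ f) := by
  refine Submodule.span_induction (p := fun δ _ => δ (δ' f) = δ' (δ f)) ?_ ?_ ?_ ?_ h
  · rintro _ ⟨v, rfl⟩
    refine Submodule.span_induction (p := fun δ' _ => D v (δ' f) = δ' (D v f)) ?_ ?_ ?_ ?_ h'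
    · rintro _ ⟨w, rfl⟩
      exact D_comm v w f
    · simp
    · intro x y _ _ hx hy
      simp only [Derivation.add_apply, map_add, hx, hy]
    · intro c x _ hx
      simp only [Derivation.smul_apply, Derivation.map_smul, hx]
  · simp
  · intro x y _ _ hx hy
    simp only [Derivation.add_apply, map_add, hx, hy]
  · intro c x _ hx
    simp only [Derivation.smul_apply, Derivation.map_smul, hx]

theorem mul_DS_logS {δ : Derivation ℂ (Sm Ω) (Sm Ω)} (h : δ ∈ DS Ω) (f : Sm Ω)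
    (hf : ∀ z, 0 < f.1 z) : f * δ (logS f hf) = δ f := by
  refine Submodule.span_induction (p := fun δ _ => f * δ (logS f hf) = δ f) ?_ ?_ ?_ ?_ h
  · rintro _ ⟨v, rfl⟩
    exact mul_D_logS v f hf
  · simp
  · intro x y _ _ hx hy
    simp only [Derivation.add_apply, mul_add, hx, hy]
  · intro c x _ hx
    rw [Derivation.smul_apply, Derivation.smul_apply, smul_eq_mul, smul_eq_mul, ← hx]
    ring

/-- `δ f` at a point only depends on the germ of `f` -/
theorem DS_congr {δ : Derivation ℂ (Sm Ω) (Sm Ω)} (h : δ ∈ DS Ω) {f g : Sm Ω} {z : Ω}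
    (hfg : ext f.1 =ᶠ[𝓝 (z : V)] ext g.1) : (δ f).1 z = (δ g).1 z := by
  refine Submodule.span_induction (p := fun δ _ => (δ f).1 z = (δ g).1 z) ?_ ?_ ?_ ?_ h
  · rintro _ ⟨v, rfl⟩
    rw [D_apply, D_apply, hfg.fderiv_eq]
  · simp
  · intro x y _ _ hx hy
    rw [Derivation.add_apply, Derivation.add_apply, Sm.add_apply, Sm.add_apply, hx, hy]
  · intro c x _ hx
    rw [Derivation.smul_apply, Derivation.smul_apply, smul_eq_mul, smul_eq_mul, Sm.mul_apply,
      Sm.mul_apply, hx]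

end Span

section Cplx

variable {V : Type} [NormedAddCommGroup V] [NormedSpace ℝ V] {Ω : Opens V} {n : ℕ}

/-- `∂/∂z_i` along an embedding `j` of `ℂⁿ` -/
def dzJ (j : E n →ₗ[ℝ] V) (i : Fin n) : Derivation ℂ (Sm Ω) (Sm Ω) :=
  (1 / 2 : ℂ) • (D (j (Pi.single i 1)) - I • D (j (Pi.single i I)))

/-- `∂/∂z̄_i` along an embedding `j` of `ℂⁿ` -/
def dzbJ (j : E n →ₗ[ℝ] V) (i : Fin n) : Derivation ℂ (Sm Ω) (Sm Ω) :=
  (1 / 2 : ℂ) • (D (j (Pi.single i 1)) + I • D (j (Pi.single i I)))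

theorem dzJ_eq (j : E n →ₗ[ℝ] V) (i : Fin n) (f : Sm Ω) :
    dzJ j i f = (1 / 2 : ℂ) • (D (j (Pi.single i 1)) f - I • D (j (Pi.single i I)) f) := rfl

theorem dzbJ_eq (j : E n →ₗ[ℝ] V) (i : Fin n) (f : Sm Ω) :
    dzbJ j i f = (1 / 2 : ℂ) • (D (j (Pi.single i 1)) f + I • D (j (Pi.single i I)) f) := rfl

theorem dzJ_mem_DC (j : E n →ₗ[ℝ] V) (i : Fin n) :
    (dzJ j i : Derivation ℂ (Sm Ω) (Sm Ω)) ∈ DC Ω := by
  have h : (dzJ j i : Derivation ℂ (Sm Ω) (Sm Ω)) =
      (1 / 2 : ℂ) • (D (j (Pi.single i 1)) + (-I) • D (j (Pi.single i I))) := by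
    apply Derivation.ext
    intro f
    simp only [dzJ, Derivation.smul_apply, Derivation.add_apply, neg_smul,
      Derivation.neg_apply, sub_eq_add_neg]
  rw [h]
  exact Submodule.smul_mem _ _
    (Submodule.add_mem _ (D_mem_DC _) (Submodule.smul_mem _ _ (D_mem_DC _)))

theorem dzbJ_mem_DC (j : E n →ₗ[ℝ] V) (i : Fin n) :
    (dzbJ j i : Derivation ℂ (Sm Ω) (Sm Ω)) ∈ DC Ω :=
  Submodule.smul_mem _ _ (Submodule.add_mem _ (D_mem_DC _) (Submodule.smul_mem _ _ (D_mem_DC _)))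

theorem star_dzJ (j : E n →ₗ[ℝ] V) (i : Fin n) (f : Sm Ω) :
    star (dzJ j i f) = dzbJ j i (star f) := by
  rw [dzJ_eq, dzbJ_eq, D_star, D_star, star_smul, star_sub, star_smul]
  have h1 : star (1 / 2 : ℂ) = 1 / 2 := by simp
  have h2 : star I = -I := conj_I
  rw [h1, h2, neg_smul, sub_neg_eq_add]

theorem star_dzbJ (j : E n →ₗ[ℝ] V) (i : Fin n) (f : Sm Ω) :
    star (dzbJ j i f) = dzJ j i (star f) := by
  rw [dzJ_eq, dzbJ_eq, D_star, D_star, star_smul, star_add, star_smul]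
  have h1 : star (1 / 2 : ℂ) = 1 / 2 := by simp
  have h2 : star I = -I := conj_I
  rw [h1, h2, neg_smul, sub_eq_add_neg]

theorem dzJ_comm (j j' : E n →ₗ[ℝ] V) (i i' : Fin n) (f : Sm Ω) :
    dzJ j i (dzJ j' i' f) = dzJ j' i' (dzJ j i f) := DC_comm (dzJ_mem_DC _ _) (dzJ_mem_DC _ _) f

theorem dzbJ_comm (j j' : E n →ₗ[ℝ] V) (i i' : Fin n) (f : Sm Ω) :
    dzbJ j i (dzbJ j' i' f) = dzbJ j' i' (dzbJ j i f) :=
  DC_comm (dzbJ_mem_DC _ _) (dzbJ_mem_DC _ _) f

theorem dzJ_dzbJ_comm (j j' : E n →ₗ[ℝ] V) (i i' : Fin n) (f : Sm Ω) :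
    dzJ j i (dzbJ j' i' f) = dzbJ j' i' (dzJ j i f) :=
  DC_comm (dzJ_mem_DC _ _) (dzbJ_mem_DC _ _) f

theorem D_dzJ_comm (v : V) (j : E n →ₗ[ℝ] V) (i : Fin n) (f : Sm Ω) :
    D v (dzJ j i f) = dzJ j i (D v f) := DC_comm (D_mem_DC _) (dzJ_mem_DC _ _) f

theorem D_dzbJ_comm (v : V) (j : E n →ₗ[ℝ] V) (i : Fin n) (f : Sm Ω) :
    D v (dzbJ j i f) = dzbJ j i (D v f) := DC_comm (D_mem_DC _) (dzbJ_mem_DC _ _) f

end Cplx

section En

variable {n : ℕ} {Ω : Opens (E n)}

/-- `∂/∂z_i` -/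
def dzD (i : Fin n) : Derivation ℂ (Sm Ω) (Sm Ω) := dzJ LinearMap.id i

/-- `∂/∂z̄_i` -/
def dzbD (i : Fin n) : Derivation ℂ (Sm Ω) (Sm Ω) := dzbJ LinearMap.id i

theorem dzD_mem_DC (i : Fin n) : (dzD i : Derivation ℂ (Sm Ω) (Sm Ω)) ∈ DC Ω := dzJ_mem_DC _ _

theorem dzbD_mem_DC (i : Fin n) : (dzbD i : Derivation ℂ (Sm Ω) (Sm Ω)) ∈ DC Ω :=
  dzbJ_mem_DC _ _

theorem dzD_mem_DS (i : Fin n) : (dzD i : Derivation ℂ (Sm Ω) (Sm Ω)) ∈ DS Ω :=
  DC_le_DS (dzD_mem_DC i)

theorem dzbD_mem_DS (i : Fin n) : (dzbD i : Derivation ℂ (Sm Ω) (Sm Ω)) ∈ DS Ω :=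
  DC_le_DS (dzbD_mem_DC i)

theorem dzD_apply (i : Fin n) (f : Sm Ω) (z : Ω) : (dzD i f).1 z = dz i (ext f.1) z := by
  show (1 / 2 : ℂ) * ((D (Pi.single i 1) f).1 z - I * (D (Pi.single i I) f).1 z) = _
  rw [D_apply, D_apply, dz]
  ring

theorem dzbD_apply (i : Fin n) (f : Sm Ω) (z : Ω) : (dzbD i f).1 z = dzb i (ext f.1) z := by
  show (1 / 2 : ℂ) * ((D (Pi.single i 1) f).1 z + I * (D (Pi.single i I) f).1 z) = _
  rw [D_apply, D_apply, dzb]
  ring

theorem dz_congr {i : Fin n} {f g : E n → ℂ} {z : E n} (h : f =ᶠ[𝓝 z] g) :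
    dz i f z = dz i g z := by rw [dz, dz, h.fderiv_eq]

theorem dzb_congr {i : Fin n} {f g : E n → ℂ} {z : E n} (h : f =ᶠ[𝓝 z] g) :
    dzb i f z = dzb i g z := by rw [dzb, dzb, h.fderiv_eq]

theorem dzD_ofFn (i : Fin n) (F : E n → ℂ) (hF : ContDiffOn ℝ ∞ F Ω) (z : Ω) :
    (dzD i (ofFn F hF)).1 z = dz i F z := by
  rw [dzD_apply, dz_congr (ext_ofFn_eventuallyEq F hF z.2)]

theorem dzbD_ofFn (i : Fin n) (F : E n → ℂ) (hF : ContDiffOn ℝ ∞ F Ω) (z : Ω) :
    (dzbD i (ofFn F hF)).1 z = dzb i F z := by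
  rw [dzbD_apply, dzb_congr (ext_ofFn_eventuallyEq F hF z.2)]

theorem star_dzD (i : Fin n) (f : Sm Ω) : star (dzD i f) = dzbD i (star f) := star_dzJ _ _ _

theorem star_dzbD (i : Fin n) (f : Sm Ω) : star (dzbD i f) = dzD i (star f) := star_dzbJ _ _ _

theorem dzD_comm (i j : Fin n) (f : Sm Ω) : dzD i (dzD j f) = dzD j (dzD i f) :=
  dzJ_comm _ _ _ _ _

theorem dzbD_comm (i j : Fin n) (f : Sm Ω) : dzbD i (dzbD j f) = dzbD j (dzbD i f) :=
  dzbJ_comm _ _ _ _ _

theorem dzD_dzbD_comm (i j : Fin n) (f : Sm Ω) : dzD i (dzbD j f) = dzbD j (dzD i f) :=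
  dzJ_dzbJ_comm _ _ _ _ _

/-- the real derivative in terms of `dz`, `dzb` -/
theorem fderiv_eq_dz_dzb (F : E n → ℂ) (z u : E n) :
    fderiv ℝ F z u = ∑ b, (dz b F z * u b + dzb b F z * (starRingEnd ℂ) (u b)) := by
  have hu : u = ∑ b, ((u b).re • (Pi.single b 1 : E n) + (u b).im • (Pi.single b I : E n)) := by
    ext a
    simp only [Finset.sum_apply, Pi.add_apply, Pi.smul_apply, Pi.single_apply, smul_ite,
      smul_zero, real_smul, mul_one]
    rw [Finset.sum_add_distrib]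
    simp [re_add_im]
  have h1 : fderiv ℝ F z u = ∑ b, ((u b).re • fderiv ℝ F z (Pi.single b 1) +
      (u b).im • fderiv ℝ F z (Pi.single b I)) := by
    conv_lhs => rw [hu]
    simp only [map_sum, map_add, map_smul]
  rw [h1]
  refine Finset.sum_congr rfl fun b _ => ?_
  simp only [dz, dzb, real_smul]
  have h2 : u b = (u b).re + (u b).im * I := (re_add_im _).symm
  have h3 : (starRingEnd ℂ) (u b) = (u b).re - (u b).im * I := by
    apply Complex.ext <;> simp
  rw [h3]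
  conv_rhs => rw [h2]
  simp only [add_re, ofReal_re, mul_re, I_re, mul_zero, ofReal_im, I_im, mul_one, sub_self,
    add_zero, add_im, mul_im, zero_add]
  linear_combination ((u b).im * fderiv ℝ F z (Pi.single b I)) * I_sq

theorem dzb_eq_zero {F : E n → ℂ} {z : E n} (h : DifferentiableAt ℂ F z) (i : Fin n) :
    dzb i F z = 0 := by
  have h1 : fderiv ℝ F z = (fderiv ℂ F z).restrictScalars ℝ := h.fderiv_restrictScalars ℝ
  have h2 : (Pi.single i I : E n) = I • (Pi.single i 1 : E n) := by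
    rw [← Pi.single_smul, smul_eq_mul, mul_one]
  rw [dzb, h1]
  simp only [ContinuousLinearMap.coe_restrictScalars', h2, map_smul, smul_eq_mul]
  rw [← mul_assoc, I_mul_I]
  ring

theorem dz_eq_fderiv {F : E n → ℂ} {z : E n} (h : DifferentiableAt ℂ F z) (i : Fin n) :
    dz i F z = fderiv ℂ F z (Pi.single i 1) := by
  have h1 : fderiv ℝ F z = (fderiv ℂ F z).restrictScalars ℝ := h.fderiv_restrictScalars ℝ
  have h2 : (Pi.single i I : E n) = I • (Pi.single i 1 : E n) := by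
    rw [← Pi.single_smul, smul_eq_mul, mul_one]
  rw [dz, h1]
  simp only [ContinuousLinearMap.coe_restrictScalars', h2, map_smul, smul_eq_mul]
  rw [← mul_assoc, I_mul_I]
  ring

end En

end

end Pool.Agent.YTDA


end

/- source: Pool.Agent.YTDA.P1Defs -/

section

/-!
The bundle over the projective line associated with a polarized manifold with `ℂˣ`-action:
`P1Y D α β = (Y × (ℂ² ∖ 0)) / ℂˣ` where `(y, λ x) ∼ (λ^α • act (λ^β) y, x)`.
-/

namespace Pool.Agent.YTDA

open Complex Set Topology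

noncomputable section

/-- `ℂ² ∖ 0` -/
abbrev V2 := {x : Fin 2 → ℂ // x ≠ 0}

theorem V2.smul_ne (c : ℂˣ) (x : V2) : (c : ℂ) • x.1 ≠ 0 := by
  intro h
  rcases smul_eq_zero.1 h with h1 | h1
  · exact c.ne_zero h1
  · exact x.2 h1

instance : MulAction ℂˣ V2 where
  smul c x := ⟨(c : ℂ) • x.1, V2.smul_ne c x⟩
  one_smul x := Subtype.ext (one_smul ℂ x.1)
  mul_smul c d x := Subtype.ext (by
    show ((c * d : ℂˣ) : ℂ) • x.1 = (c : ℂ) • (d : ℂ) • x.1
    rw [Units.val_mul, mul_smul])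

theorem V2.coe_smul (c : ℂˣ) (x : V2) : ((c • x : V2) : Fin 2 → ℂ) = (c : ℂ) • x.1 := rfl

/-- the vector `(1, z)` (for `false`) or `(z, 1)` (for `true`) -/
def vec (b : Bool) (z : ℂ) : V2 := if b then ⟨![z, 1], by
    intro h
    have := congrFun h 1
    simp at this⟩ else ⟨![1, z], by
    intro h
    have := congrFun h 0
    simp at this⟩

theorem vec_false (z : ℂ) : (vec false z : Fin 2 → ℂ) = ![1, z] := rfl

theorem vec_true (z : ℂ) : (vec true z : Fin 2 → ℂ) = ![z, 1] := rfl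

variable {n : ℕ} {Y : Type} [MulAction ℂˣ Y] {A : PolAtlas n Y}

namespace PolAtlas.DAct

variable (D : A.DAct)

theorem act_pow_add (α : ℤ) (c d : ℂˣ) (y : Y) :
    D.act ((c * d) ^ α) y = D.act (c ^ α) (D.act (d ^ α) y) := by
  rw [mul_zpow, D.act_mul]

end PolAtlas.DAct

/-- the equivalence relation -/
def p1Setoid (D : A.DAct) (α β : ℤ) : Setoid (Y × V2) where
  r p p' := ∃ c : ℂˣ, p.2 = c • p'.2 ∧ p'.1 = c ^ α • D.act (c ^ β) p.1
  iseqv := by
    refine ⟨?_, ?_, ?_⟩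
    · rintro ⟨y, x⟩
      exact ⟨1, (one_smul ℂˣ x).symm, by simp [D.act_one]⟩
    · rintro ⟨y, x⟩ ⟨y', x'⟩ ⟨c, h1, h2⟩
      refine ⟨c⁻¹, ?_, ?_⟩
      · simp only at h1 ⊢
        rw [h1, inv_smul_smul]
      · simp only at h2 ⊢
        rw [h2, D.act_smul, ← D.act_mul, smul_smul, ← mul_zpow, ← mul_zpow, inv_mul_cancel,
          one_zpow, one_zpow, D.act_one, one_smul]
    · rintro ⟨y, x⟩ ⟨y', x'⟩ ⟨y'', x''⟩ ⟨c, h1, h2⟩ ⟨d, h3, h4⟩
      refine ⟨c * d, ?_, ?_⟩
      · simp only at h1 h3 ⊢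
        rw [h1, h3, smul_smul]
      · simp only at h2 h4 ⊢
        rw [h4, h2, D.act_smul, ← D.act_mul, smul_smul, ← mul_zpow, ← mul_zpow, mul_comm d c]

/-- the total space (minus zero section) of the line bundle over the bundle over `ℙ¹` -/
def P1Y (D : A.DAct) (α β : ℤ) : Type := Quotient (p1Setoid D α β)

namespace P1Y

variable {D : A.DAct} {α β : ℤ}

/-- the point `[y, x]` -/
def mk (y : Y) (x : V2) : P1Y D α β := Quotient.mk (p1Setoid D α β) (y, x)

theorem mk_eq {y y' : Y} {x x' : V2} : (mk y x : P1Y D α β) = mk y' x' ↔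
    ∃ c : ℂˣ, x = c • x' ∧ y' = c ^ α • D.act (c ^ β) y := by
  constructor
  · intro h
    exact Quotient.exact h
  · intro h
    exact Quotient.sound h

theorem mk_smul (c : ℂˣ) (y : Y) (x : V2) :
    (mk y (c • x) : P1Y D α β) = mk (c ^ α • D.act (c ^ β) y) x :=
  mk_eq.2 ⟨c, rfl, rfl⟩

theorem exists_mk (p : P1Y D α β) : ∃ y x, p = mk y x := by
  obtain ⟨⟨y, x⟩, rfl⟩ := Quotient.exists_rep p
  exact ⟨y, x, rfl⟩

instance : MulAction ℂˣ (P1Y D α β) where
  smul c := Quotient.map (fun p => (c • p.1, p.2)) (by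
    rintro ⟨y, x⟩ ⟨y', x'⟩ ⟨d, h1, h2⟩
    refine ⟨d, h1, ?_⟩
    simp only at h2 ⊢
    rw [h2, D.act_smul, smul_smul, smul_smul, mul_comm])
  one_smul p := by
    obtain ⟨y, x, rfl⟩ := exists_mk p
    show (mk ((1 : ℂˣ) • y) x : P1Y D α β) = mk y x
    rw [one_smul]
  mul_smul c d p := by
    obtain ⟨y, x, rfl⟩ := exists_mk p
    show (mk ((c * d) • y) x : P1Y D α β) = mk (c • d • y) x
    rw [mul_smul]

theorem smul_mk (c : ℂˣ) (y : Y) (x : V2) : c • (mk y x : P1Y D α β) = mk (c • y) x := rfl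

/-- maps of the fibre commuting with the actions extend -/
def map (f : Y → Y) (hf : ∀ (c : ℂˣ) y, f (c • y) = c • f y)
    (hf' : ∀ (c : ℂˣ) y, f (D.act c y) = D.act c (f y)) : P1Y D α β → P1Y D α β :=
  Quotient.map (fun p => (f p.1, p.2)) (by
    rintro ⟨y, x⟩ ⟨y', x'⟩ ⟨d, h1, h2⟩
    refine ⟨d, h1, ?_⟩
    simp only at h2 ⊢
    rw [h2, hf, hf'])

theorem map_mk (f : Y → Y) (hf : ∀ (c : ℂˣ) y, f (c • y) = c • f y)
    (hf' : ∀ (c : ℂˣ) y, f (D.act c y) = D.act c (f y)) (y : Y) (x : V2) :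
    map f hf hf' (mk y x : P1Y D α β) = mk (f y) x := rfl

/-- the action of `GL₂(ℂ)` -/
def gl (g : GL (Fin 2) ℂ) : P1Y D α β → P1Y D α β :=
  Quotient.map (fun p => (p.1, ⟨g.1.mulVec p.2.1, by
    intro h
    apply p.2.2
    have h1 := congrArg (fun v => (g⁻¹).1.mulVec v) h
    simp only [Matrix.mulVec_mulVec, Matrix.mulVec_zero] at h1
    rwa [← Units.val_mul, inv_mul_cancel, Units.val_one, Matrix.one_mulVec] at h1⟩)) (by
    rintro ⟨y, x⟩ ⟨y', x'⟩ ⟨d, h1, h2⟩
    refine ⟨d, ?_, h2⟩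
    simp only at h1
    subst h1
    apply Subtype.ext
    show g.1.mulVec ((d : ℂ) • x'.1) = (d : ℂ) • g.1.mulVec x'.1
    rw [Matrix.mulVec_smul])

end P1Y

end

end Pool.Agent.YTDA


end

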