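import Pool.Agent.YTDM.P33
import Pool.Agent.YTDM.P34

/- source: Pool.Agent.YTDA.AlgNat -/

section

/-!
Naturality of the constructions of `Alg.lean` under holomorphic maps.
-/

namespace Pool.Agent.YTDA.Alg

open Finset Matrix

variable {A B : Type*} [CommRing A] [CommRing B] {n : ℕ}

/-- A local holomorphic isometry: `T` is the pull-back of functions, `J b a = ∂_a τ^b`. -/
structure Hol (kB : KR B n) (kA : KR A n) where
  T : B →+* A
  J : Matrix (Fin n) (Fin n) A
  Jb : Matrix (Fin n) (Fin n) A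
  Ji : Matrix (Fin n) (Fin n) A
  Jbi : Matrix (Fin n) (Fin n) A
  hJ : Ji * J = 1
  hJ' : J * Ji = 1
  hJb : Jbi * Jb = 1
  hJb' : Jb * Jbi = 1
  d_T : ∀ a f, kA.d a (T f) = ∑ b, T (kB.d b f) * J b a
  db_T : ∀ a f, kA.db a (T f) = ∑ b, T (kB.db b f) * Jb b a
  db_J : ∀ c b a, kA.db c (J b a) = 0
  d_Jb : ∀ c b a, kA.d c (Jb b a) = 0
  g : kA.g = J.transpose * kB.g.map T * Jb

namespace Hol

variable {kB : KR B n} {kA : KR A n} (t : Hol kB kA)

theorem map_inv : (kB.gi.map t.T) * (kB.g.map t.T) = 1 := by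
  rw [← Matrix.map_mul, kB.inv, Matrix.map_one _ (map_zero _) (map_one _)]

theorem map_inv' : (kB.g.map t.T) * (kB.gi.map t.T) = 1 := by
  rw [← Matrix.map_mul, kB.inv', Matrix.map_one _ (map_zero _) (map_one _)]

theorem JtI : t.Ji.transpose * t.J.transpose = 1 := by
  rw [← Matrix.transpose_mul, t.hJ', Matrix.transpose_one]

theorem JtI' : t.J.transpose * t.Ji.transpose = 1 := by
  rw [← Matrix.transpose_mul, t.hJ, Matrix.transpose_one]

theorem gi : kA.gi = t.Jbi * kB.gi.map t.T * t.Ji.transpose := by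
  have h1 : (t.Jbi * kB.gi.map t.T * t.Ji.transpose) * kA.g = 1 := by
    rw [t.g]
    calc t.Jbi * kB.gi.map t.T * t.Ji.transpose * (t.J.transpose * kB.g.map t.T * t.Jb)
        = t.Jbi * kB.gi.map t.T * (t.Ji.transpose * t.J.transpose) * kB.g.map t.T * t.Jb := by
          simp only [Matrix.mul_assoc]
      _ = t.Jbi * (kB.gi.map t.T * kB.g.map t.T) * t.Jb := by
          rw [t.JtI, Matrix.mul_one]
          simp only [Matrix.mul_assoc]
      _ = 1 := by rw [t.map_inv, Matrix.mul_one, t.hJb]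
  calc kA.gi = 1 * kA.gi := (Matrix.one_mul _).symm
    _ = (t.Jbi * kB.gi.map t.T * t.Ji.transpose) * (kA.g * kA.gi) := by
        rw [← h1, Matrix.mul_assoc]
    _ = _ := by rw [kA.inv', Matrix.mul_one]

theorem sum_JJi (f : Fin n → A) (a : Fin n) : ∑ b, t.J a b * ∑ c, t.Ji b c * f c = f a := by
  simp only [Finset.mul_sum]
  rw [Finset.sum_comm]
  have h1 : ∀ c, ∑ b, t.J a b * (t.Ji b c * f c) = (1 : Matrix _ _ A) a c * f c := by
    intro c
    rw [← t.hJ', Matrix.mul_apply, Finset.sum_mul]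
    exact Finset.sum_congr rfl fun b _ => by ring
  simp only [h1, Matrix.one_apply, ite_mul, one_mul, zero_mul, Finset.sum_ite_eq,
    Finset.mem_univ, if_true]

theorem sum_JbJbi (f : Fin n → A) (a : Fin n) : ∑ b, t.Jb a b * ∑ c, t.Jbi b c * f c = f a := by
  simp only [Finset.mul_sum]
  rw [Finset.sum_comm]
  have h1 : ∀ c, ∑ b, t.Jb a b * (t.Jbi b c * f c) = (1 : Matrix _ _ A) a c * f c := by
    intro c
    rw [← t.hJb', Matrix.mul_apply, Finset.sum_mul]
    exact Finset.sum_congr rfl fun b _ => by ring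
  simp only [h1, Matrix.one_apply, ite_mul, one_mul, zero_mul, Finset.sum_ite_eq,
    Finset.mem_univ, if_true]

theorem gi_apply (m a : Fin n) : kA.gi m a =
    ∑ b, ∑ e, t.Jbi m e * t.T (kB.gi e b) * t.Ji a b := by
  rw [t.gi, Matrix.mul_apply]
  refine Finset.sum_congr rfl fun b _ => ?_
  rw [Matrix.mul_apply, Finset.sum_mul]
  rfl

/-- contraction of the first index of `gi` -/
theorem sum_Jb_gi (e a : Fin n) : ∑ m, t.Jb e m * kA.gi m a = ∑ b, t.T (kB.gi e b) * t.Ji a b := by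
  have h : t.Jb * kA.gi = kB.gi.map t.T * t.Ji.transpose := by
    rw [t.gi, ← Matrix.mul_assoc, ← Matrix.mul_assoc, t.hJb', Matrix.one_mul]
  have h1 := congrFun (congrFun h e) a
  rw [Matrix.mul_apply, Matrix.mul_apply] at h1
  exact h1

/-- contraction of the second index of `gi` -/
theorem sum_gi_J (m b : Fin n) : ∑ a, kA.gi m a * t.J b a = ∑ e, t.Jbi m e * t.T (kB.gi e b) := by
  have h : kA.gi * t.J.transpose = t.Jbi * kB.gi.map t.T := by
    rw [t.gi, Matrix.mul_assoc, t.JtI, Matrix.mul_one]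
  have h1 := congrFun (congrFun h m) b
  rw [Matrix.mul_apply, Matrix.mul_apply] at h1
  exact h1

theorem W_eq (f : B) (a : Fin n) : kA.W (t.T f) a = ∑ b, t.Ji a b * t.T (kB.W f b) := by
  unfold KR.W
  simp only [t.db_T, Finset.sum_mul, map_sum, map_mul, Finset.mul_sum]
  rw [Finset.sum_comm]
  have h1 : ∀ e, ∑ m, t.T (kB.db e f) * t.Jb e m * kA.gi m a =
      ∑ b, t.Ji a b * (t.T (kB.db e f) * t.T (kB.gi e b)) := by
    intro e
    have h2 := t.sum_Jb_gi e a
    calc ∑ m, t.T (kB.db e f) * t.Jb e m * kA.gi m a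
        = t.T (kB.db e f) * ∑ m, t.Jb e m * kA.gi m a := by
          rw [Finset.mul_sum]
          exact Finset.sum_congr rfl fun m _ => by ring
      _ = _ := by
          rw [h2, Finset.mul_sum]
          exact Finset.sum_congr rfl fun m _ => by ring
  simp only [h1]
  rw [Finset.sum_comm]

theorem J_W (f : B) (b : Fin n) : ∑ a, t.J b a * kA.W (t.T f) a = t.T (kB.W f b) := by
  simp only [t.W_eq]
  exact t.sum_JJi _ _

theorem Wb_eq (f : B) (m : Fin n) : kA.Wb (t.T f) m = ∑ e, t.Jbi m e * t.T (kB.Wb f e) := by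
  unfold KR.Wb
  simp only [t.d_T, map_sum, map_mul, Finset.mul_sum]
  rw [Finset.sum_comm]
  have h1 : ∀ b, ∑ a, kA.gi m a * (t.T (kB.d b f) * t.J b a) =
      ∑ e, t.Jbi m e * (t.T (kB.gi e b) * t.T (kB.d b f)) := by
    intro b
    have h2 := t.sum_gi_J m b
    calc ∑ a, kA.gi m a * (t.T (kB.d b f) * t.J b a)
        = (∑ a, kA.gi m a * t.J b a) * t.T (kB.d b f) := by
          rw [Finset.sum_mul]
          exact Finset.sum_congr rfl fun m _ => by ring
      _ = _ := by
          rw [h2, Finset.sum_mul]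
          exact Finset.sum_congr rfl fun m _ => by ring
  simp only [h1]
  rw [Finset.sum_comm]

theorem Jb_Wb (f : B) (e : Fin n) : ∑ m, t.Jb e m * kA.Wb (t.T f) m = t.T (kB.Wb f e) := by
  simp only [t.Wb_eq]
  exact t.sum_JbJbi _ _

theorem ddb_T (i j : Fin n) (f : B) : kA.d i (kA.db j (t.T f)) =
    ∑ b, ∑ e, t.T (kB.d b (kB.db e f)) * t.J b i * t.Jb e j := by
  rw [t.db_T, map_sum]
  have h1 : ∀ e, kA.d i (t.T (kB.db e f) * t.Jb e j) =
      ∑ b, t.T (kB.d b (kB.db e f)) * t.J b i * t.Jb e j := by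
    intro e
    rw [Derivation.leibniz, t.d_Jb, t.d_T, smul_zero, zero_add, smul_eq_mul, Finset.mul_sum]
    exact Finset.sum_congr rfl fun b _ => by ring
  simp only [h1]
  rw [Finset.sum_comm]

/-- contraction of a tensor of type `(1,1)` -/
theorem contract (X : Fin n → Fin n → A) : ∑ i, ∑ j, kA.gi j i *
    ∑ b, ∑ e, X b e * t.J b i * t.Jb e j = ∑ b, ∑ e, t.T (kB.gi e b) * X b e := by
  have h0 : ∀ b e, ∑ i, ∑ j, kA.gi j i * (t.J b i * t.Jb e j) = t.T (kB.gi e b) := by
    intro b e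
    rw [Finset.sum_comm]
    have h1 : ∀ j, ∑ i, kA.gi j i * (t.J b i * t.Jb e j) =
        t.Jb e j * ∑ c, t.Jbi j c * t.T (kB.gi c b) := by
      intro j
      rw [← t.sum_gi_J j b, Finset.mul_sum]
      exact Finset.sum_congr rfl fun m _ => by ring
    simp only [h1]
    exact t.sum_JbJbi (fun c => t.T (kB.gi c b)) e
  calc ∑ i, ∑ j, kA.gi j i * ∑ b, ∑ e, X b e * t.J b i * t.Jb e j
      = ∑ b, ∑ e, X b e * ∑ i, ∑ j, kA.gi j i * (t.J b i * t.Jb e j) := by
        simp only [Finset.mul_sum]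
        have : ∀ f : Fin n → Fin n → Fin n → Fin n → A,
            ∑ i, ∑ j, ∑ b, ∑ e, f i j b e = ∑ b, ∑ e, ∑ i, ∑ j, f i j b e := by
          intro f
          have h1 : ∀ i, ∑ j, ∑ b, ∑ e, f i j b e = ∑ b, ∑ e, ∑ j, f i j b e := by
            intro i
            rw [Finset.sum_comm]
            exact Finset.sum_congr rfl fun b _ => Finset.sum_comm
          simp only [h1]
          rw [Finset.sum_comm]
          exact Finset.sum_congr rfl fun b _ => Finset.sum_comm
        rw [this]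
        refine Finset.sum_congr rfl fun b _ => Finset.sum_congr rfl fun e _ =>
          Finset.sum_congr rfl fun i _ => Finset.sum_congr rfl fun j _ => ?_
        ring
    _ = _ := by
        simp only [h0]
        refine Finset.sum_congr rfl fun b _ => Finset.sum_congr rfl fun e _ => ?_
        ring

theorem lap_eq (f : B) : kA.lap (t.T f) = t.T (kB.lap f) := by
  unfold KR.lap
  simp only [t.ddb_T, map_sum, map_mul]
  rw [t.contract]

theorem mder_T (a : Fin n) (M : Matrix (Fin n) (Fin n) B) :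
    mder (kA.d a) (M.map t.T) = ∑ b, t.J b a • (mder (kB.d b) M).map t.T := by
  ext i j
  rw [Matrix.sum_apply]
  show kA.d a (t.T (M i j)) = _
  rw [t.d_T]
  refine Finset.sum_congr rfl fun b _ => ?_
  rw [Matrix.smul_apply, smul_eq_mul, mul_comm]
  rfl

theorem F_T (a : Fin n) : kA.F a = ∑ b, t.T (kB.F b) * t.J b a +
    (t.Ji * mder (kA.d a) t.J).trace := by
  have h0 : mder (kA.d a) t.Jb = 0 := by
    ext i j
    exact t.d_Jb a i j
  have h1 : mder (kA.d a) kA.g = mder (kA.d a) t.J.transpose * kB.g.map t.T * t.Jb +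
      t.J.transpose * mder (kA.d a) (kB.g.map t.T) * t.Jb := by
    rw [t.g, mder_mul, h0, Matrix.mul_zero, add_zero, mder_mul, Matrix.add_mul]
  unfold KR.F
  rw [h1, Matrix.mul_add, Matrix.trace_add, add_comm]
  congr 1
  · rw [t.gi, t.mder_T]
    have e1 : t.Jbi * kB.gi.map t.T * t.Ji.transpose *
        (t.J.transpose * (∑ b, t.J b a • (mder (kB.d b) kB.g).map t.T) * t.Jb) =
        t.Jbi * (kB.gi.map t.T * (∑ b, t.J b a • (mder (kB.d b) kB.g).map t.T)) * t.Jb := by
      calc _ = t.Jbi * kB.gi.map t.T * (t.Ji.transpose * t.J.transpose) *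
            (∑ b, t.J b a • (mder (kB.d b) kB.g).map t.T) * t.Jb := by
              simp only [Matrix.mul_assoc]
        _ = _ := by
              rw [t.JtI, Matrix.mul_one]
              simp only [Matrix.mul_assoc]
    rw [e1, Matrix.trace_mul_comm, ← Matrix.mul_assoc, t.hJb', Matrix.one_mul, Matrix.mul_sum,
      Matrix.trace_sum]
    refine Finset.sum_congr rfl fun b _ => ?_
    rw [Matrix.mul_smul, Matrix.trace_smul, smul_eq_mul, mul_comm]
    congr 1
    rw [← Matrix.map_mul]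
    simp only [Matrix.trace, Matrix.diag, Matrix.map_apply, map_sum]
  · rw [t.gi]
    have e1 : t.Jbi * kB.gi.map t.T * t.Ji.transpose *
        (mder (kA.d a) t.J.transpose * kB.g.map t.T * t.Jb) =
        t.Jbi * (kB.gi.map t.T * (t.Ji.transpose * mder (kA.d a) t.J.transpose) *
          kB.g.map t.T) * t.Jb := by
      simp only [Matrix.mul_assoc]
    rw [e1, Matrix.trace_mul_comm, ← Matrix.mul_assoc, t.hJb', Matrix.one_mul,
      Matrix.trace_mul_comm, ← Matrix.mul_assoc, t.map_inv', Matrix.one_mul]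
    have e2 : mder (kA.d a) t.J.transpose = (mder (kA.d a) t.J).transpose := rfl
    rw [e2, ← Matrix.transpose_mul, Matrix.trace_transpose, Matrix.trace_mul_comm]

theorem R_T (i j : Fin n) : kA.R i j = ∑ b, ∑ e, t.T (kB.R b e) * t.J b i * t.Jb e j := by
  have h0 : ∀ a, kA.db j (t.Ji * mder (kA.d a) t.J).trace = 0 := by
    intro a
    have e1 : mder (kA.db j) t.J = 0 := by
      ext b c
      exact t.db_J j b c
    rw [der_trace, mder_mul, mder_inv (kA.db j) t.hJ t.hJ', e1, Matrix.mul_zero, Matrix.zero_mul,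
      neg_zero, Matrix.zero_mul, zero_add]
    have e2 : mder (kA.db j) (mder (kA.d a) t.J) = 0 := by
      ext b c
      show kA.db j (kA.d a (t.J b c)) = 0
      rw [← kA.ddb, t.db_J, map_zero]
    rw [e2, Matrix.mul_zero, Matrix.trace_zero]
  unfold KR.R
  rw [t.F_T, map_add, h0, add_zero, map_sum, ← Finset.sum_neg_distrib]
  refine Finset.sum_congr rfl fun b _ => ?_
  rw [Derivation.leibniz, t.db_J, smul_zero, zero_add, t.db_T, smul_eq_mul, Finset.mul_sum,
    ← Finset.sum_neg_distrib]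
  refine Finset.sum_congr rfl fun e _ => ?_
  rw [map_neg]
  ring

theorem S_T : kA.S = t.T kB.S := by
  unfold KR.S
  simp only [t.R_T, map_sum, map_mul]
  rw [t.contract]

theorem db_W (f : B) (m a : Fin n) : kA.db m (kA.W (t.T f) a) =
    ∑ b, t.Ji a b * ∑ e, t.T (kB.db e (kB.W f b)) * t.Jb e m := by
  have h0 : ∀ a b, kA.db m (t.Ji a b) = 0 := by
    intro a b
    have e1 : mder (kA.db m) t.J = 0 := by
      ext b c
      exact t.db_J m b c
    have e2 := mder_inv (kA.db m) t.hJ t.hJ'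
    rw [e1, Matrix.mul_zero, Matrix.zero_mul, neg_zero] at e2
    exact congrFun (congrFun e2 a) b
  rw [t.W_eq, map_sum]
  refine Finset.sum_congr rfl fun b _ => ?_
  rw [Derivation.leibniz, h0, smul_zero, add_zero, smul_eq_mul, t.db_T]

theorem d_Wb (f : B) (i m : Fin n) : kA.d i (kA.Wb (t.T f) m) =
    ∑ e, t.Jbi m e * ∑ b, t.T (kB.d b (kB.Wb f e)) * t.J b i := by
  have h0 : ∀ a b, kA.d i (t.Jbi a b) = 0 := by
    intro a b
    have e1 : mder (kA.d i) t.Jb = 0 := by
      ext b c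
      exact t.d_Jb i b c
    have e2 := mder_inv (kA.d i) t.hJb t.hJb'
    rw [e1, Matrix.mul_zero, Matrix.zero_mul, neg_zero] at e2
    exact congrFun (congrFun e2 a) b
  rw [t.Wb_eq, map_sum]
  refine Finset.sum_congr rfl fun b _ => ?_
  rw [Derivation.leibniz, h0, smul_zero, add_zero, smul_eq_mul, t.d_T]

theorem xi_T (v : B) (b : Fin n) : ∑ a, t.J b a * kA.xi (t.T v) a = t.T (kB.xi v b) := by
  have h1 : ∀ a, kA.xi (t.T v) a = ∑ c, t.Ji a c * t.T (kB.xi v c) := by
    intro a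
    unfold KR.xi
    simp only [t.db_W, map_sum, map_mul]
    have h2 : ∀ m, kA.Wb (t.T v) m * ∑ b, t.Ji a b * ∑ e, t.T (kB.db e (kB.W v b)) * t.Jb e m =
        ∑ b, t.Ji a b * ∑ e, t.T (kB.db e (kB.W v b)) * (t.Jb e m * kA.Wb (t.T v) m) := by
      intro m
      simp only [Finset.mul_sum]
      exact Finset.sum_congr rfl fun b _ => Finset.sum_congr rfl fun e _ => by ring
    simp only [h2]
    rw [Finset.sum_comm]
    refine Finset.sum_congr rfl fun c _ => ?_
    rw [← Finset.mul_sum]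
    congr 1
    rw [Finset.sum_comm]
    refine Finset.sum_congr rfl fun e _ => ?_
    rw [← Finset.mul_sum, t.Jb_Wb]
    ring
  simp only [h1]
  exact t.sum_JJi _ _

theorem P_T (v : B) : kA.P (t.T v) = t.T (kB.P v) := by
  unfold KR.P
  simp only [map_sum, map_mul]
  -- first contract the index `m`
  have h1 : ∀ i, ∑ m, kA.d i (kA.Wb (t.T v) m) * kA.db m (kA.W (t.T v) i) =
      ∑ c, t.Ji i c * ∑ e, t.T (kB.db e (kB.W v c)) * ∑ b, t.T (kB.d b (kB.Wb v e)) * t.J b i := by
    intro i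
    have h2 : ∀ m, kA.d i (kA.Wb (t.T v) m) * kA.db m (kA.W (t.T v) i) =
        ∑ c, t.Ji i c * ∑ e, t.T (kB.db e (kB.W v c)) *
          (t.Jb e m * ∑ e', t.Jbi m e' * ∑ b, t.T (kB.d b (kB.Wb v e')) * t.J b i) := by
      intro m
      rw [t.db_W, t.d_Wb]
      rw [Finset.mul_sum]
      refine Finset.sum_congr rfl fun c _ => ?_
      rw [mul_left_comm, Finset.mul_sum]
      congr 1
      exact Finset.sum_congr rfl fun e _ => by ring
    simp only [h2]
    rw [Finset.sum_comm]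
    refine Finset.sum_congr rfl fun c _ => ?_
    rw [← Finset.mul_sum]
    congr 1
    rw [Finset.sum_comm]
    refine Finset.sum_congr rfl fun e _ => ?_
    rw [← Finset.mul_sum]
    congr 1
    exact t.sum_JbJbi (fun e' => ∑ b, t.T (kB.d b (kB.Wb v e')) * t.J b i) e
  simp only [h1]
  -- now contract `i`
  have h3 : ∀ c b, ∑ i, t.Ji i c * t.J b i = (1 : Matrix _ _ A) b c := by
    intro c b
    rw [← t.hJ', Matrix.mul_apply]
    exact Finset.sum_congr rfl fun i _ => mul_comm _ _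
  have h4 : ∀ f : Fin n → Fin n → A, ∑ i, ∑ c, t.Ji i c * ∑ e, f e c *
      ∑ b, t.T (kB.d b (kB.Wb v e)) * t.J b i =
      ∑ c, ∑ e, f e c * t.T (kB.d c (kB.Wb v e)) := by
    intro f
    rw [Finset.sum_comm]
    refine Finset.sum_congr rfl fun c _ => ?_
    simp only [Finset.mul_sum]
    rw [Finset.sum_comm]
    refine Finset.sum_congr rfl fun e _ => ?_
    rw [Finset.sum_comm]
    have h5 : ∀ b, ∑ i, t.Ji i c * (f e c * (t.T (kB.d b (kB.Wb v e)) * t.J b i)) =
        f e c * t.T (kB.d b (kB.Wb v e)) * (1 : Matrix _ _ A) b c := by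
      intro b
      rw [← h3 c b, Finset.mul_sum]
      exact Finset.sum_congr rfl fun i _ => by ring
    simp only [h5, Matrix.one_apply, mul_ite, mul_one, mul_zero, Finset.sum_ite_eq',
      Finset.mem_univ, if_true]
  rw [h4 (fun e c => t.T (kB.db e (kB.W v c)))]
  refine Finset.sum_congr rfl fun c _ => Finset.sum_congr rfl fun e _ => mul_comm _ _

theorem Yv_T (v : B) (e : Fin n) : ∑ q, t.Jb e q * kA.Yv (t.T v) q = t.T (kB.Yv v e) := by
  unfold KR.Yv
  simp only [map_sum, map_mul]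
  have h1 : ∀ i, ∑ j, kA.R i j * kA.Wb (t.T v) j =
      ∑ b, t.J b i * ∑ e, t.T (kB.R b e) * t.T (kB.Wb v e) := by
    intro i
    have h2 : ∀ j, kA.R i j * kA.Wb (t.T v) j = ∑ b, t.J b i * ∑ e, t.T (kB.R b e) *
        (t.Jb e j * kA.Wb (t.T v) j) := by
      intro j
      rw [t.R_T, Finset.sum_mul]
      refine Finset.sum_congr rfl fun b _ => ?_
      rw [Finset.sum_mul, Finset.mul_sum]
      exact Finset.sum_congr rfl fun e _ => by ring
    simp only [h2]
    rw [Finset.sum_comm]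
    refine Finset.sum_congr rfl fun b _ => ?_
    rw [← Finset.mul_sum]
    congr 1
    rw [Finset.sum_comm]
    refine Finset.sum_congr rfl fun e _ => ?_
    rw [← Finset.mul_sum, t.Jb_Wb]
  simp only [h1]
  have h3 : ∀ q, ∑ i, kA.gi q i * ∑ b, t.J b i * ∑ e, t.T (kB.R b e) * t.T (kB.Wb v e) =
      ∑ c, t.Jbi q c * ∑ b, t.T (kB.gi c b) * ∑ e, t.T (kB.R b e) * t.T (kB.Wb v e) := by
    intro q
    have h4 : ∀ i, kA.gi q i * ∑ b, t.J b i * ∑ e, t.T (kB.R b e) * t.T (kB.Wb v e) =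
        ∑ b, kA.gi q i * t.J b i * ∑ e, t.T (kB.R b e) * t.T (kB.Wb v e) := by
      intro i
      rw [Finset.mul_sum]
      exact Finset.sum_congr rfl fun b _ => by ring
    simp only [h4]
    rw [Finset.sum_comm]
    have h5 : ∀ b, ∑ i, kA.gi q i * t.J b i * ∑ e, t.T (kB.R b e) * t.T (kB.Wb v e) =
        ∑ c, t.Jbi q c * (t.T (kB.gi c b) * ∑ e, t.T (kB.R b e) * t.T (kB.Wb v e)) := by
      intro b
      rw [← Finset.sum_mul, t.sum_gi_J, Finset.sum_mul]
      exact Finset.sum_congr rfl fun b _ => by ring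
    simp only [h5]
    rw [Finset.sum_comm]
    refine Finset.sum_congr rfl fun c _ => ?_
    rw [Finset.mul_sum]
  simp only [h3]
  exact t.sum_JbJbi (fun c => ∑ b, t.T (kB.gi c b) * ∑ e, t.T (kB.R b e) * t.T (kB.Wb v e)) e

end Hol

end Pool.Agent.YTDA.Alg


end

/- source: Pool.Agent.YTDA.Bochner1 -/

section

/-!
Jacobi's formula, divergence with a density, positivity.
-/

namespace Pool.Agent.YTDA.Alg

open Finset Matrix

variable {A B : Type*} [CommRing A] [CommRing B] {n : ℕ}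

/-- the ring morphism `a ↦ a + ε D a` -/
def epsHom (D : Derivation ℤ A A) : A →+* DualNumber A where
  toFun a := TrivSqZeroExt.inl a + TrivSqZeroExt.inr (D a)
  map_one' := by
    rw [D.map_one_eq_zero, TrivSqZeroExt.inr_zero, add_zero, TrivSqZeroExt.inl_one]
  map_zero' := by
    rw [map_zero, TrivSqZeroExt.inr_zero, add_zero, TrivSqZeroExt.inl_zero]
  map_add' a b := by
    rw [map_add, TrivSqZeroExt.inr_add, TrivSqZeroExt.inl_add]
    ring
  map_mul' a b := by
    apply TrivSqZeroExt.ext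
    · simp
    · simp [Derivation.leibniz, mul_comm]

theorem der_det (D : Derivation ℤ A A) {g gi : Matrix (Fin n) (Fin n) A}
    (h' : g * gi = 1) : D g.det = g.det * (gi * mder D g).trace := by
  have h2 : (epsHom D).mapMatrix g = ((TrivSqZeroExt.inlHom A A).mapMatrix g) *
      (1 + (DualNumber.eps : DualNumber A) •
        (TrivSqZeroExt.inlHom A A).mapMatrix (gi * mder D g)) := by
    rw [Matrix.mul_add, Matrix.mul_one, Matrix.mul_smul, ← map_mul, ← Matrix.mul_assoc, h',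
      Matrix.one_mul]
    ext i j
    · simp [-DualNumber.inr_eq_smul_eps, epsHom, mder, DualNumber.eps]
    · simp [-DualNumber.inr_eq_smul_eps, epsHom, mder, DualNumber.eps]
  have h3 : epsHom D g.det = TrivSqZeroExt.inlHom A A g.det *
      (1 + TrivSqZeroExt.inlHom A A ((gi * mder D g).trace) * DualNumber.eps) := by
    rw [RingHom.map_det, h2, Matrix.det_mul, ← RingHom.map_det, Matrix.det_one_add_smul]
    congr 1
    have h4 : (DualNumber.eps : DualNumber A) ^ 2 = 0 := by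
      rw [sq]
      exact TrivSqZeroExt.inr_mul_inr A 1 1
    rw [h4, mul_zero, add_zero]
    congr 2
    simp only [Matrix.trace, Matrix.diag, map_sum, RingHom.mapMatrix_apply, Matrix.map_apply]
  have h5 := congrArg TrivSqZeroExt.snd h3
  simpa [-DualNumber.inr_eq_smul_eps, epsHom, DualNumber.eps] using h5

namespace KR

variable (k : KR A n)

theorem d_det (i : Fin n) : k.d i k.g.det = k.g.det * k.F i := der_det (k.d i) k.inv'

theorem db_det (i : Fin n) : k.db i k.g.det = k.g.det * k.Fb i := der_det (k.db i) k.inv'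

theorem rho_div (ξ : Fin n → A) : k.g.det * k.div ξ = ∑ i, k.d i (k.g.det * ξ i) := by
  unfold div
  rw [Finset.mul_sum]
  refine Finset.sum_congr rfl fun i _ => ?_
  rw [Derivation.leibniz, k.d_det, smul_eq_mul, smul_eq_mul]
  ring

theorem rho_divb (ξ : Fin n → A) : k.g.det * k.divb ξ = ∑ i, k.db i (k.g.det * ξ i) := by
  unfold divb
  rw [Finset.mul_sum]
  refine Finset.sum_congr rfl fun i _ => ?_
  rw [Derivation.leibniz, k.db_det, smul_eq_mul, smul_eq_mul]
  ring

end KR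

open scoped MatrixOrder ComplexOrder

theorem trace_pos_aux {G : Matrix (Fin n) (Fin n) ℂ} (hG : G.PosDef)
    {M : Matrix (Fin n) (Fin n) ℂ} (hs : M.transpose = M) :
    ∃ r : ℝ, 0 ≤ r ∧ (G⁻¹ * M.map (starRingEnd ℂ) * G⁻¹.transpose * M).trace = r ∧
      (r = 0 → M = 0) := by
  obtain ⟨B, hB⟩ := CStarAlgebra.nonneg_iff_eq_star_mul_self.mp hG.inv.posSemidef.nonneg
  rw [star_eq_conjTranspose] at hB
  have hBu : IsUnit B := by
    have h1 : IsUnit (Bᴴ * B) := hB ▸ hG.inv.isUnit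
    have h2 : IsUnit (Bᴴ * B).det := (Matrix.isUnit_iff_isUnit_det _).1 h1
    rw [Matrix.det_mul] at h2
    exact (Matrix.isUnit_iff_isUnit_det _).2 (isUnit_of_mul_isUnit_right h2)
  set C : Matrix (Fin n) (Fin n) ℂ := B.map (starRingEnd ℂ) * M * Bᴴ with hC
  have hMc : M.map (starRingEnd ℂ) = Mᴴ := by
    rw [Matrix.conjTranspose, hs]
    rfl
  have hCs : Cᴴ = B * M.map (starRingEnd ℂ) * B.transpose := by
    rw [hC, Matrix.conjTranspose_mul, Matrix.conjTranspose_mul, Matrix.conjTranspose_conjTranspose,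
      ← hMc, Matrix.mul_assoc]
    congr 2
    ext i j
    simp [Matrix.conjTranspose_apply]
  have h1 : (G⁻¹ * M.map (starRingEnd ℂ) * G⁻¹.transpose * M).trace = (Cᴴ * C).trace := by
    have e1 : (Bᴴ * B).transpose = B.transpose * B.map (starRingEnd ℂ) := by
      rw [Matrix.transpose_mul]
      rfl
    rw [hCs, hB, e1, hC]
    have e2 : B * M.map (starRingEnd ℂ) * B.transpose * (B.map (starRingEnd ℂ) * M * Bᴴ) =
        (B * M.map (starRingEnd ℂ) * B.transpose * B.map (starRingEnd ℂ) * M) * Bᴴ := by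
      simp only [Matrix.mul_assoc]
    rw [e2]
    conv_rhs => rw [Matrix.trace_mul_comm]
    simp only [Matrix.mul_assoc]
  have h2 : (Cᴴ * C).trace = ((∑ i, ∑ j, ‖C j i‖ ^ 2 : ℝ) : ℂ) := by
    simp only [Matrix.trace, Matrix.diag, Matrix.mul_apply, Matrix.conjTranspose_apply]
    push_cast
    refine Finset.sum_congr rfl fun i _ => Finset.sum_congr rfl fun j _ => ?_
    rw [← Complex.conj_mul', RCLike.star_def]
  refine ⟨∑ i, ∑ j, ‖C j i‖ ^ 2, ?_, h1.trans h2, fun h0 => ?_⟩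
  · positivity
  · have h3 : (Cᴴ * C).trace = 0 := by
      rw [h2, h0, Complex.ofReal_zero]
    have h4 : C = 0 := Matrix.trace_conjTranspose_mul_self_eq_zero_iff.1 h3
    have hB1 : IsUnit (B.map (starRingEnd ℂ)) := by
      have h5 : IsUnit (Bᴴ) := (Matrix.isUnit_conjTranspose B).2 hBu
      have h6 : IsUnit (Bᴴ).transpose := (Matrix.isUnit_transpose _).2 h5
      exact h6
    have hB2 : IsUnit (Bᴴ) := (Matrix.isUnit_conjTranspose B).2 hBu
    rw [hC] at h4
    have h7 : B.map (starRingEnd ℂ) * M = 0 := by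
      rw [← hB2.mul_left_inj, Matrix.zero_mul]
      exact h4
    rw [← hB1.mul_right_inj, Matrix.mul_zero]
    exact h7

end Pool.Agent.YTDA.Alg


end

/- source: Pool.Agent.YTDA.Bochner2 -/

section

/-!
Pointwise formulas for a Kähler structure on the ring of smooth functions; glueing.
-/

namespace Pool.Agent.YTDA

open Complex Set Topology ContDiff ComplexOrder TopologicalSpace

noncomputable section

variable {n : ℕ}

/-! ### Wirtinger derivatives and conjugation -/

theorem fderiv_conjB (f : E n → ℂ) (z v : E n) :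
    fderiv ℝ (fun w => (starRingEnd ℂ) (f w)) z v = (starRingEnd ℂ) (fderiv ℝ f z v) := by
  have h := Complex.conjCLE.comp_fderiv (f := f) (x := z)
  have h1 : (fun w => (starRingEnd ℂ) (f w)) = Complex.conjCLE ∘ f := rfl
  rw [h1, h]
  rfl

theorem dz_conjB (i : Fin n) (f : E n → ℂ) (z : E n) :
    dz i (fun w => (starRingEnd ℂ) (f w)) z = (starRingEnd ℂ) (dzb i f z) := by
  unfold dz dzb
  rw [fderiv_conjB, fderiv_conjB]
  simp only [map_div₀, map_add, map_mul, conj_I, map_ofNat]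
  ring

theorem dzb_conjB (i : Fin n) (f : E n → ℂ) (z : E n) :
    dzb i (fun w => (starRingEnd ℂ) (f w)) z = (starRingEnd ℂ) (dz i f z) := by
  unfold dz dzb
  rw [fderiv_conjB, fderiv_conjB]
  simp only [map_div₀, map_sub, map_mul, conj_I, map_ofNat]
  ring

theorem re_dz (i : Fin n) (f : E n → ℂ) (z : E n) : (dz i f z).re =
    ((fderiv ℝ f z (Pi.single i 1)).re + (fderiv ℝ f z (Pi.single i I)).im) / 2 := by
  unfold dz
  rw [show (2 : ℂ) = ((2 : ℝ) : ℂ) by norm_num, div_ofReal_re]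
  simp

theorem re_dzb (i : Fin n) (f : E n → ℂ) (z : E n) : (dzb i f z).re =
    ((fderiv ℝ f z (Pi.single i 1)).re - (fderiv ℝ f z (Pi.single i I)).im) / 2 := by
  unfold dzb
  rw [show (2 : ℂ) = ((2 : ℝ) : ℂ) by norm_num, div_ofReal_re]
  simp [sub_eq_add_neg]

/-- a real differentiable function with vanishing `∂̄` is holomorphic -/
theorem differentiableAt_of_dzbB {f : E n → ℂ} {z : E n} (hf : DifferentiableAt ℝ f z)
    (h : ∀ i, dzb i f z = 0) : DifferentiableAt ℂ f z := by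
  have h1 : ∀ i, fderiv ℝ f z (Pi.single i I) = I * fderiv ℝ f z (Pi.single i 1) := by
    intro i
    have h2 := h i
    unfold dzb at h2
    rw [div_eq_zero_iff, or_iff_left (two_ne_zero)] at h2
    have h3 : fderiv ℝ f z (Pi.single i 1) = - (I * fderiv ℝ f z (Pi.single i I)) :=
      eq_neg_of_add_eq_zero_left h2
    rw [h3]
    ring_nf
    rw [I_sq]
    ring
  have hsum : ∀ v : E n, v = ∑ i, ((v i).re • (Pi.single i 1 : E n) +
      (v i).im • (Pi.single i I : E n)) := by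
    intro v
    ext j
    rw [Finset.sum_apply]
    have : ∀ i, ((v i).re • (Pi.single i 1 : E n) + (v i).im • (Pi.single i I : E n)) j =
        if j = i then v j else 0 := by
      intro i
      by_cases hij : j = i
      · subst hij
        simp [Complex.re_add_im]
      · simp [hij]
    simp only [this, Finset.sum_ite_eq, Finset.mem_univ, if_true]
  have h4 : ∀ v : E n, fderiv ℝ f z v = ∑ i, v i * fderiv ℝ f z (Pi.single i 1) := by
    intro v
    conv_lhs => rw [hsum v]
    rw [map_sum]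
    refine Finset.sum_congr rfl fun i _ => ?_
    rw [map_add, map_smul, map_smul, h1, real_smul, real_smul]
    conv_rhs => rw [← Complex.re_add_im (v i)]
    ring
  let L : E n →L[ℂ] ℂ := ∑ i, (fderiv ℝ f z (Pi.single i 1)) •
    (ContinuousLinearMap.proj i : E n →L[ℂ] ℂ)
  have h5 : L.restrictScalars ℝ = fderiv ℝ f z := by
    ext v
    rw [h4 v]
    simp only [L, ContinuousLinearMap.coe_restrictScalars', FunLike.coe_sum, Finset.sum_apply,
      _root_.smul_apply, ContinuousLinearMap.proj_apply, smul_eq_mul]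
    exact Finset.sum_congr rfl fun i _ => mul_comm _ _
  exact (differentiableAt_iff_restrictScalars ℝ hf).2 ⟨L, h5⟩

/-! ### Kähler structures -/

/-- The ring of smooth functions on `Ω` with the Kähler structure of potential `φ`. -/
structure KRAt (Ω : Opens (E n)) (φ : E n → ℝ) where
  k : Alg.KR (Sm Ω) n
  d_eq : ∀ i f, k.d i f = dzD i f
  db_eq : ∀ i f, k.db i f = dzbD i f
  g_eval : ∀ i j (z : Ω), (k.g i j).1 z = hess φ z i j
  S_eval : ∀ z : Ω, (k.S).1 z = scal φ z

namespace PolAtlas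

variable {Y : Type} [MulAction ℂˣ Y] (A : PolAtlas n Y)

theorem mem_O_ofB {a b : A.ι} {z z' : E n} {c : ℂˣ} (hz : z ∈ A.U a) (hz' : z' ∈ A.U b)
    (h : A.γ b z' = c • A.γ a z) : z ∈ A.O a b ∧ A.τ a b z = z' ∧ A.h a b z = c := by
  have h0 : z ∈ A.O a b := ⟨hz, z', hz', c, h⟩
  obtain ⟨h1, h2⟩ := A.trans a b z hz ⟨z', hz', c, h⟩
  have h3 : A.γ b (A.τ a b z) = (A.h a b z * c⁻¹) • A.γ b z' := by
    rw [h2, h, smul_smul, inv_mul_cancel_right]
  obtain ⟨h4, h5⟩ := A.inj b z' hz' (A.τ a b z) h1 _ h3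
  refine ⟨h0, h4, ?_⟩
  rwa [mul_inv_eq_one] at h5

/-- glueing of local functions -/
theorem exists_glue {R : Type} (f : A.ι → E n → R)
    (hf : ∀ a b, ∀ z ∈ A.O a b, f a z = f b (A.τ a b z)) :
    ∃ F : Y → R, (∀ (c : ℂˣ) y, F (c • y) = F y) ∧ ∀ a, ∀ z ∈ A.U a, F (A.γ a z) = f a z := by
  choose ia zz hz cc hc using A.cover
  have key : ∀ y a z (c : ℂˣ), z ∈ A.U a → y = c • A.γ a z → f (ia y) (zz y) = f a z := by
    intro y a z c hza hy
    have h1 : A.γ a z = (c⁻¹ * cc y) • A.γ (ia y) (zz y) := by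
      rw [mul_smul, ← hc y, hy, inv_smul_smul]
    obtain ⟨h2, h3, -⟩ := A.mem_O_ofB (hz y) hza h1
    rw [hf _ _ _ h2, h3]
  refine ⟨fun y => f (ia y) (zz y), fun c y => ?_, fun a z hza => ?_⟩
  · exact key (c • y) (ia y) (zz y) (c * cc y) (hz y) (by
      conv_lhs => rw [hc y]
      rw [mul_smul])
  · exact key _ a z 1 hza (one_smul _ _).symm

theorem O_subsetB (a b : A.ι) : A.O a b ⊆ A.U a := fun _ hz => hz.1

theorem τ_memB {a b : A.ι} {z : E n} (hz : z ∈ A.O a b) : A.τ a b z ∈ A.U b :=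
  (A.trans a b z hz.1 hz.2).1

theorem γ_τB {a b : A.ι} {z : E n} (hz : z ∈ A.O a b) :
    A.γ b (A.τ a b z) = A.h a b z • A.γ a z :=
  (A.trans a b z hz.1 hz.2).2

/-! ### The derivative of the potential along the circle action -/

/-- `exp (i θ)` as a unit -/
def expU (θ : ℝ) : ℂˣ := Units.mk0 (exp (θ * I)) (exp_ne_zero _)

theorem norm_expU (θ : ℝ) : ‖(expU θ : ℂ)‖ = 1 := by
  show ‖exp (θ * I)‖ = 1
  exact norm_exp_ofReal_mul_I θ

theorem expU_zpow (θ : ℝ) (k : ℤ) : ((expU θ ^ k : ℂˣ) : ℂ) = exp ((k : ℂ) * θ * I) := by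
  rw [Units.val_zpow_eq_zpow_val]
  show (exp (θ * I)) ^ k = _
  rw [← exp_int_mul]
  congr 1
  ring

theorem dact_expU (k : Fin n → ℤ) (θ : ℝ) (z : E n) :
    dact k (expU θ) z = fun j => exp ((k j : ℂ) * θ * I) * z j := by
  funext j
  unfold dact
  rw [expU_zpow]

theorem norm_zpow_of {c : ℂˣ} (hc : ‖(c : ℂ)‖ = 1) (m : ℤ) : ‖((c ^ m : ℂˣ) : ℂ)‖ = 1 := by
  rw [Units.val_zpow_eq_zpow_val, norm_zpow, hc, one_zpow]

variable {A}

theorem H_act {H : Y → ℝ} (hK : A.IsKahler H) (D : A.DAct) {a : A.ι} {z : E n} (hz : z ∈ A.U a)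
    {c : ℂˣ} (hc : ‖(c : ℂ)‖ = 1) : H (D.act c (A.γ a z)) = H (A.γ a (dact (D.k a) c z)) := by
  rw [D.act_γ a z hz, hK.hom, norm_zpow_of hc, one_pow, one_mul]

end PolAtlas

end

end Pool.Agent.YTDA


end

/- source: Pool.Agent.YTDA.Smr3 -/

section

/-!
# The algebra of smooth functions: pull-back and chain rules, derivations and determinants
-/

namespace Pool.Agent.YTDA

open Complex Set Topology ContDiff ComplexOrder TopologicalSpace

noncomputable section

set_option linter.unusedSectionVars false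

section Pull

variable {V W : Type} [NormedAddCommGroup V] [NormedSpace ℝ V] [NormedAddCommGroup W]
  [NormedSpace ℝ W] {Ω : Opens V} {Ω' : Opens W} {τ : V → W}

/-- pull-back along a smooth map -/
def pull (hτ : ContDiffOn ℝ ∞ τ Ω) (hm : MapsTo τ Ω Ω') : Sm Ω' →ₐ[ℂ] Sm Ω where
  toFun f := ofFn (fun z => ext f.1 (τ z)) (f.2.comp hτ hm)
  map_one' := Sm.ext' fun z => by
    show ext (1 : Sm Ω').1 (τ z) = 1
    rw [ext_mk _ (hm z.2)]
    rfl
  map_mul' f g := Sm.ext' fun z => by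
    show ext (f * g).1 (τ z) = ext f.1 (τ z) * ext g.1 (τ z)
    rw [ext_mk _ (hm z.2), ext_mk _ (hm z.2), ext_mk _ (hm z.2)]
    rfl
  map_zero' := Sm.ext' fun z => by
    show ext (0 : Sm Ω').1 (τ z) = 0
    rw [ext_mk _ (hm z.2)]
    rfl
  map_add' f g := Sm.ext' fun z => by
    show ext (f + g).1 (τ z) = ext f.1 (τ z) + ext g.1 (τ z)
    rw [ext_mk _ (hm z.2), ext_mk _ (hm z.2), ext_mk _ (hm z.2)]
    rfl
  commutes' c := Sm.ext' fun z => by
    show ext (algebraMap ℂ (Sm Ω') c).1 (τ z) = c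
    rw [ext_mk _ (hm z.2)]
    rfl

variable (hτ : ContDiffOn ℝ ∞ τ Ω) (hm : MapsTo τ Ω Ω')

@[simp] theorem pull_apply (f : Sm Ω') (z : Ω) :
    (pull hτ hm f).1 z = f.1 ⟨τ z, hm z.2⟩ := by
  show ext f.1 (τ z) = _
  rw [ext_mk _ (hm z.2)]

theorem ext_pull (f : Sm Ω') {z : V} (hz : z ∈ Ω) :
    ext (pull hτ hm f).1 z = ext f.1 (τ z) := by
  rw [ext_mk _ hz]
  rfl

theorem star_pull (f : Sm Ω') : star (pull hτ hm f) = pull hτ hm (star f) :=
  Sm.ext' fun z => by simp

theorem pull_ofFn (F : W → ℂ) (hF : ContDiffOn ℝ ∞ F Ω') :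
    pull hτ hm (ofFn F hF) = ofFn (fun z => F (τ z)) (hF.comp hτ hm) :=
  Sm.ext' fun z => by simp

theorem pull_ofR (φ : W → ℝ) (hφ : ContDiffOn ℝ ∞ φ Ω') :
    pull hτ hm (ofR φ hφ) = ofR (fun z => φ (τ z)) (hφ.comp hτ hm) :=
  Sm.ext' fun z => by simp

theorem pull_logS (f : Sm Ω') (hf : ∀ z, 0 < f.1 z) :
    pull hτ hm (logS f hf) = logS (pull hτ hm f) (fun z => by
      rw [pull_apply]
      exact hf _) :=
  Sm.ext' fun z => by simp [logS_apply]

theorem D_pull_apply (v : V) (f : Sm Ω') (z : Ω) :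
    (D v (pull hτ hm f)).1 z = fderiv ℝ (ext f.1) (τ z) (fderiv ℝ τ z v) := by
  have h : ext (pull hτ hm f).1 =ᶠ[𝓝 (z : V)] fun w => ext f.1 (τ w) :=
    Filter.eventuallyEq_of_mem (Ω.isOpen.mem_nhds z.2) fun w hw => ext_pull hτ hm f hw
  have h1 : DifferentiableAt ℝ τ z :=
    (hτ.contDiffAt (Ω.isOpen.mem_nhds z.2)).differentiableAt (by simp)
  have h2 : DifferentiableAt ℝ (ext f.1) (τ z) := diffAt_ext f (hm z.2)
  rw [D_apply, h.fderiv_eq]
  have h3 : fderiv ℝ (fun w => ext f.1 (τ w)) z = (fderiv ℝ (ext f.1) (τ z)).comp (fderiv ℝ τ z) :=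
    fderiv_comp (z : V) h2 h1
  rw [h3]
  rfl

end Pull

section PullE

variable {V : Type} [NormedAddCommGroup V] [NormedSpace ℝ V] {m : ℕ}
  {Ω : Opens V} {Ω' : Opens (E m)} {τ : V → E m}

/-- the components of a smooth map -/
def coS (hτ : ContDiffOn ℝ ∞ τ Ω) (b : Fin m) : Sm Ω :=
  ofFn (fun z => τ z b) (contDiffOn_pi.1 hτ b)

@[simp] theorem coS_apply (hτ : ContDiffOn ℝ ∞ τ Ω) (b : Fin m) (z : Ω) :
    (coS hτ b).1 z = τ z b := rfl

theorem D_coS (hτ : ContDiffOn ℝ ∞ τ Ω) (v : V) (b : Fin m) (z : Ω) :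
    (D v (coS hτ b)).1 z = fderiv ℝ τ z v b := by
  have h1 : DifferentiableAt ℝ τ z :=
    (hτ.contDiffAt (Ω.isOpen.mem_nhds z.2)).differentiableAt (by simp)
  rw [coS, D_ofFn]
  have h2 : fderiv ℝ (fun w => τ w b) z = _ :=
    ((ContinuousLinearMap.proj (R := ℝ) (φ := fun _ : Fin m => ℂ) b).hasFDerivAt.comp (z : V)
      h1.hasFDerivAt).fderiv
  rw [h2]
  rfl

variable (hτ : ContDiffOn ℝ ∞ τ Ω) (hm : MapsTo τ Ω Ω')

theorem D_pull (v : V) (f : Sm Ω') : D v (pull hτ hm f) =
    ∑ b, (pull hτ hm (dzD b f) * D v (coS hτ b) +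
      pull hτ hm (dzbD b f) * D v (star (coS hτ b))) := by
  apply Sm.ext'
  intro z
  rw [D_pull_apply, fderiv_eq_dz_dzb, Sm.sum_apply]
  refine Finset.sum_congr rfl fun b _ => ?_
  rw [Sm.add_apply, Sm.mul_apply, Sm.mul_apply, D_star, star_apply, D_coS, pull_apply, pull_apply,
    dzD_apply, dzbD_apply]

/-- the chain rule -/
theorem DS_pull {δ : Derivation ℂ (Sm Ω) (Sm Ω)} (hδ : δ ∈ DS Ω) (f : Sm Ω') :
    δ (pull hτ hm f) = ∑ b, (pull hτ hm (dzD b f) * δ (coS hτ b) +
      pull hτ hm (dzbD b f) * δ (star (coS hτ b))) := by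
  refine Submodule.span_induction (p := fun δ _ => δ (pull hτ hm f) =
    ∑ b, (pull hτ hm (dzD b f) * δ (coS hτ b) +
      pull hτ hm (dzbD b f) * δ (star (coS hτ b)))) ?_ ?_ ?_ ?_ hδ
  · rintro _ ⟨v, rfl⟩
    exact D_pull hτ hm v f
  · simp
  · intro x y _ _ hx hy
    simp only [Derivation.add_apply, hx, hy, ← Finset.sum_add_distrib]
    refine Finset.sum_congr rfl fun b _ => ?_
    ring
  · intro c x _ hx
    simp only [Derivation.smul_apply, smul_eq_mul, hx, Finset.mul_sum]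
    refine Finset.sum_congr rfl fun b _ => ?_
    ring

theorem DS_pull_of_star {δ : Derivation ℂ (Sm Ω) (Sm Ω)} (hδ : δ ∈ DS Ω)
    (h0 : ∀ b, δ (star (coS hτ b)) = 0) (f : Sm Ω') :
    δ (pull hτ hm f) = ∑ b, pull hτ hm (dzD b f) * δ (coS hτ b) := by
  rw [DS_pull hτ hm hδ]
  simp [h0]

theorem DS_pull_of_zero {δ : Derivation ℂ (Sm Ω) (Sm Ω)} (hδ : δ ∈ DS Ω)
    (h0 : ∀ b, δ (coS hτ b) = 0) (f : Sm Ω') :
    δ (pull hτ hm f) = ∑ b, pull hτ hm (dzbD b f) * δ (star (coS hτ b)) := by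
  rw [DS_pull hτ hm hδ]
  simp [h0]

end PullE

section Hol

variable {n m : ℕ} {Ω : Opens (E n)} {Ω' : Opens (E m)} {τ : E n → E m}

theorem smooth_of_hol (hτ : DifferentiableOn ℂ τ Ω) : ContDiffOn ℝ ∞ τ Ω :=
  contDiffOn_real_of_differentiableOn Ω.isOpen hτ

theorem smooth_of_hol' {f : E n → ℂ} (hf : DifferentiableOn ℂ f Ω) : ContDiffOn ℝ ∞ f Ω :=
  contDiffOn_real_of_differentiableOn Ω.isOpen hf

theorem dzbD_ofFn_hol {f : E n → ℂ} (hf : DifferentiableOn ℂ f Ω) (a : Fin n) :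
    dzbD a (ofFn f (smooth_of_hol' hf)) = 0 := by
  apply Sm.ext'
  intro z
  rw [dzbD_ofFn, dzb_eq_zero (hf.differentiableAt (Ω.isOpen.mem_nhds z.2)), Sm.zero_apply]

theorem dzD_ofFn_hol {f : E n → ℂ} (hf : DifferentiableOn ℂ f Ω) (a : Fin n) (z : Ω) :
    (dzD a (ofFn f (smooth_of_hol' hf))).1 z = fderiv ℂ f z (Pi.single a 1) := by
  rw [dzD_ofFn, dz_eq_fderiv (hf.differentiableAt (Ω.isOpen.mem_nhds z.2))]

theorem dzD_star_ofFn_hol {f : E n → ℂ} (hf : DifferentiableOn ℂ f Ω) (a : Fin n) :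
    dzD a (star (ofFn f (smooth_of_hol' hf))) = 0 := by
  rw [← star_dzbD, dzbD_ofFn_hol hf, star_zero]

variable (hτ : DifferentiableOn ℂ τ Ω) (hm : MapsTo τ Ω Ω')

theorem dzbD_coS (a : Fin n) (b : Fin m) : dzbD a (coS (smooth_of_hol hτ) b) = 0 :=
  dzbD_ofFn_hol (differentiableOn_pi.1 hτ b) a

theorem dzD_star_coS (a : Fin n) (b : Fin m) : dzD a (star (coS (smooth_of_hol hτ) b)) = 0 := by
  rw [← star_dzbD, dzbD_coS hτ, star_zero]

/-- the entries of the holomorphic Jacobian matrix -/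
theorem dzD_coS (a : Fin n) (b : Fin m) (z : Ω) :
    (dzD a (coS (smooth_of_hol hτ) b)).1 z = fderiv ℂ τ z (Pi.single a 1) b := by
  have h1 : DifferentiableAt ℂ τ z := hτ.differentiableAt (Ω.isOpen.mem_nhds z.2)
  have h2 : fderiv ℂ (fun w => τ w b) z = _ :=
    ((ContinuousLinearMap.proj (R := ℂ) (φ := fun _ : Fin m => ℂ) b).hasFDerivAt.comp (z : E n)
      h1.hasFDerivAt).fderiv
  have h3 : (dzD a (coS (smooth_of_hol hτ) b)).1 z = fderiv ℂ (fun w => τ w b) z (Pi.single a 1) :=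
    dzD_ofFn_hol (differentiableOn_pi.1 hτ b) a z
  rw [h3, h2]
  rfl

theorem dzD_pull (a : Fin n) (f : Sm Ω') : dzD a (pull (smooth_of_hol hτ) hm f) =
    ∑ b, pull (smooth_of_hol hτ) hm (dzD b f) * dzD a (coS (smooth_of_hol hτ) b) :=
  DS_pull_of_star _ hm (dzD_mem_DS a) (fun b => dzD_star_coS hτ a b) f

theorem dzbD_pull (a : Fin n) (f : Sm Ω') : dzbD a (pull (smooth_of_hol hτ) hm f) =
    ∑ b, pull (smooth_of_hol hτ) hm (dzbD b f) * star (dzD a (coS (smooth_of_hol hτ) b)) := by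
  rw [DS_pull_of_zero _ hm (dzbD_mem_DS a) (fun b => dzbD_coS hτ a b) f]
  simp only [star_dzD]

theorem dzD_star_dzD_coS (i j : Fin n) (b : Fin m) :
    dzD i (star (dzD j (coS (smooth_of_hol hτ) b))) = 0 := by
  rw [← star_dzbD, ← dzD_dzbD_comm, dzbD_coS hτ, map_zero, star_zero]

/-- transformation of the complex Hessian -/
theorem hess_pull (i j : Fin n) (f : Sm Ω') :
    dzD i (dzbD j (pull (smooth_of_hol hτ) hm f)) =
    ∑ b, ∑ a, pull (smooth_of_hol hτ) hm (dzD a (dzbD b f)) *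
      dzD i (coS (smooth_of_hol hτ) a) * star (dzD j (coS (smooth_of_hol hτ) b)) := by
  rw [dzbD_pull hτ, map_sum]
  refine Finset.sum_congr rfl fun b _ => ?_
  rw [Derivation.leibniz, smul_eq_mul, smul_eq_mul, dzD_star_dzD_coS hτ, mul_zero, zero_add,
    dzD_pull hτ, Finset.mul_sum]
  refine Finset.sum_congr rfl fun a _ => ?_
  ring

end Hol

section Prod

variable {n : ℕ} {Ω : Opens (ℝ × E n)}

/-- the slice of an open set -/
def slice (Ω : Opens (ℝ × E n)) (t : ℝ) : Opens (E n) :=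
  ⟨{z | (t, z) ∈ Ω}, Ω.isOpen.preimage (Continuous.prodMk_right t)⟩

theorem mem_slice (t : ℝ) (z : E n) : z ∈ slice Ω t ↔ (t, z) ∈ Ω := Iff.rfl

theorem mem_of_slice {t : ℝ} (z : slice Ω t) : (t, (z : E n)) ∈ Ω := z.2

theorem mapsTo_slice (t : ℝ) : MapsTo (fun z : E n => (t, z)) (slice Ω t) Ω := fun _ hz => hz

/-- `∂/∂z_i` on `ℝ × ℂⁿ` -/
def dzP (i : Fin n) : Derivation ℂ (Sm Ω) (Sm Ω) := dzJ (LinearMap.inr ℝ ℝ (E n)) i

/-- `∂/∂z̄_i` on `ℝ × ℂⁿ` -/
def dzbP (i : Fin n) : Derivation ℂ (Sm Ω) (Sm Ω) := dzbJ (LinearMap.inr ℝ ℝ (E n)) i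

/-- `∂/∂t` on `ℝ × ℂⁿ` -/
def dtP : Derivation ℂ (Sm Ω) (Sm Ω) := D ((1, 0) : ℝ × E n)

theorem fderiv_slice {F : ℝ × E n → ℂ} {t : ℝ} {z : E n} (hF : DifferentiableAt ℝ F (t, z))
    (u : E n) : fderiv ℝ (fun w => F (t, w)) z u = fderiv ℝ F (t, z) (0, u) := by
  have h1 : HasFDerivAt (fun w : E n => (t, w)) (ContinuousLinearMap.inr ℝ ℝ (E n)) z :=
    hasFDerivAt_prodMk_right t z
  have h2 := (hF.hasFDerivAt.comp z h1).fderiv
  have h3 : fderiv ℝ (fun w => F (t, w)) z =
      (fderiv ℝ F (t, z)).comp (ContinuousLinearMap.inr ℝ ℝ (E n)) := h2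
  rw [h3]
  rfl

theorem dzP_apply (i : Fin n) (f : Sm Ω) (t : ℝ) (z : E n) (h : (t, z) ∈ Ω) :
    (dzP i f).1 ⟨(t, z), h⟩ = dz i (fun w => ext f.1 (t, w)) z := by
  show (1 / 2 : ℂ) * ((D ((0 : ℝ), (Pi.single i 1 : E n)) f).1 ⟨(t, z), h⟩ -
    I * (D ((0 : ℝ), (Pi.single i I : E n)) f).1 ⟨(t, z), h⟩) = _
  rw [D_apply, D_apply, dz, fderiv_slice (diffAt_ext f h), fderiv_slice (diffAt_ext f h)]
  ring

theorem dzbP_apply (i : Fin n) (f : Sm Ω) (t : ℝ) (z : E n) (h : (t, z) ∈ Ω) :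
    (dzbP i f).1 ⟨(t, z), h⟩ = dzb i (fun w => ext f.1 (t, w)) z := by
  show (1 / 2 : ℂ) * ((D ((0 : ℝ), (Pi.single i 1 : E n)) f).1 ⟨(t, z), h⟩ +
    I * (D ((0 : ℝ), (Pi.single i I : E n)) f).1 ⟨(t, z), h⟩) = _
  rw [D_apply, D_apply, dzb, fderiv_slice (diffAt_ext f h), fderiv_slice (diffAt_ext f h)]
  ring

theorem dtP_apply (f : Sm Ω) (t : ℝ) (z : E n) (h : (t, z) ∈ Ω) :
    (dtP f).1 ⟨(t, z), h⟩ = deriv (fun s => ext f.1 (s, z)) t := by
  have h1 : HasFDerivAt (fun s : ℝ => (s, z)) (ContinuousLinearMap.inl ℝ ℝ (E n)) t :=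
    hasFDerivAt_prodMk_left t z
  have h2 := ((diffAt_ext f h).hasFDerivAt.comp t h1).hasDerivAt.deriv
  have h3 : deriv (fun s => ext f.1 (s, z)) t =
      (fderiv ℝ (ext f.1) (t, z)).comp (ContinuousLinearMap.inl ℝ ℝ (E n)) 1 := h2
  rw [h3]
  rfl

theorem star_dzP (i : Fin n) (f : Sm Ω) : star (dzP i f) = dzbP i (star f) := star_dzJ _ _ _

theorem star_dzbP (i : Fin n) (f : Sm Ω) : star (dzbP i f) = dzP i (star f) := star_dzbJ _ _ _

theorem star_dtP (f : Sm Ω) : star (dtP f) = dtP (star f) := (D_star _ _).symm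

theorem dzP_comm (i j : Fin n) (f : Sm Ω) : dzP i (dzP j f) = dzP j (dzP i f) :=
  dzJ_comm _ _ _ _ _

theorem dzbP_comm (i j : Fin n) (f : Sm Ω) : dzbP i (dzbP j f) = dzbP j (dzbP i f) :=
  dzbJ_comm _ _ _ _ _

theorem dzP_dzbP_comm (i j : Fin n) (f : Sm Ω) : dzP i (dzbP j f) = dzbP j (dzP i f) :=
  dzJ_dzbJ_comm _ _ _ _ _

theorem dtP_dzP_comm (i : Fin n) (f : Sm Ω) : dtP (dzP i f) = dzP i (dtP f) :=
  D_dzJ_comm _ _ _ _

theorem dtP_dzbP_comm (i : Fin n) (f : Sm Ω) : dtP (dzbP i f) = dzbP i (dtP f) :=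
  D_dzbJ_comm _ _ _ _

theorem dzP_mem_DS (i : Fin n) : (dzP i : Derivation ℂ (Sm Ω) (Sm Ω)) ∈ DS Ω :=
  DC_le_DS (dzJ_mem_DC _ _)

theorem dzbP_mem_DS (i : Fin n) : (dzbP i : Derivation ℂ (Sm Ω) (Sm Ω)) ∈ DS Ω :=
  DC_le_DS (dzbJ_mem_DC _ _)

theorem dtP_mem_DS : (dtP : Derivation ℂ (Sm Ω) (Sm Ω)) ∈ DS Ω := D_mem_DS _

theorem smooth_slice (t : ℝ) (S : Set (E n)) : ContDiffOn ℝ ∞ (fun z : E n => (t, z)) S :=
  (contDiff_prodMk_right t).contDiffOn

/-- restriction to a slice -/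
def sl (t : ℝ) : Sm Ω →ₐ[ℂ] Sm (slice Ω t) :=
  pull (smooth_slice t _) (mapsTo_slice t)

theorem sl_apply (t : ℝ) (f : Sm Ω) (z : slice Ω t) :
    (sl t f).1 z = f.1 ⟨(t, z), mem_of_slice z⟩ := by
  rw [sl, pull_apply]

theorem dzD_sl (t : ℝ) (i : Fin n) (f : Sm Ω) : dzD i (sl t f) = sl t (dzP i f) := by
  apply Sm.ext'
  intro z
  rw [sl_apply, dzP_apply, dzD_apply]
  refine dz_congr ?_
  exact Filter.eventuallyEq_of_mem ((slice Ω t).isOpen.mem_nhds z.2) fun w hw => ext_pull _ _ f hw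

theorem dzbD_sl (t : ℝ) (i : Fin n) (f : Sm Ω) : dzbD i (sl t f) = sl t (dzbP i f) := by
  apply Sm.ext'
  intro z
  rw [sl_apply, dzbP_apply, dzbD_apply]
  refine dzb_congr ?_
  exact Filter.eventuallyEq_of_mem ((slice Ω t).isOpen.mem_nhds z.2) fun w hw => ext_pull _ _ f hw

end Prod

end

end Pool.Agent.YTDA


end

/- source: Pool.Agent.YTDA.Smr4 -/

section

/-!
# Derivations and determinants; the complex Hessian, its determinant, the scalar curvature
-/

namespace Pool.Agent.YTDA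

open Complex Set Topology ContDiff ComplexOrder TopologicalSpace Matrix

noncomputable section

set_option linter.unusedSectionVars false

section Jacobi

variable {R A : Type*} [CommRing R] [CommRing A] [Algebra R A] {n : Type*} [Fintype n]
  [DecidableEq n] (δ : Derivation R A A)

theorem der_prod {ι : Type*} [DecidableEq ι] (s : Finset ι) (f : ι → A) :
    δ (∏ i ∈ s, f i) = ∑ i ∈ s, (∏ j ∈ s.erase i, f j) * δ (f i) := by
  induction s using Finset.induction_on with
  | empty => simp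
  | insert a s ha ih =>
    rw [Finset.prod_insert ha, Derivation.leibniz, ih, Finset.sum_insert ha,
      Finset.erase_insert ha, smul_eq_mul, smul_eq_mul, Finset.mul_sum, add_comm]
    congr 1
    refine Finset.sum_congr rfl fun i hi => ?_
    have hia : i ≠ a := fun h => ha (h ▸ hi)
    rw [Finset.erase_insert_of_ne hia.symm, Finset.prod_insert]
    · ring
    · intro h
      exact ha (Finset.mem_of_mem_erase h)

/-- Jacobi's formula -/
theorem der_det (M : Matrix n n A) : δ M.det = ∑ i, ∑ j, M.adjugate i j * δ (M j i) := by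
  have h1 : ∀ k, ∑ j, M.adjugate k j * δ (M j k) = (M.updateCol k fun j => δ (M j k)).det := by
    intro k
    rw [← cramer_apply, cramer_eq_adjugate_mulVec]
    rfl
  simp only [h1]
  rw [det_apply, map_sum]
  have h2 : ∀ k, (M.updateCol k fun j => δ (M j k)).det = ∑ σ : Equiv.Perm n,
      Equiv.Perm.sign σ • ((∏ j ∈ Finset.univ.erase k, M (σ j) j) * δ (M (σ k) k)) := by
    intro k
    rw [det_apply]
    refine Finset.sum_congr rfl fun σ _ => ?_
    congr 1
    rw [← Finset.mul_prod_erase Finset.univ _ (Finset.mem_univ k), mul_comm]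
    congr 1
    · refine Finset.prod_congr rfl fun j hj => ?_
      rw [updateCol_ne (Finset.ne_of_mem_erase hj)]
    · rw [updateCol_self]
  simp only [h2]
  rw [Finset.sum_comm]
  refine Finset.sum_congr rfl fun σ _ => ?_
  have h3 : δ (Equiv.Perm.sign σ • ∏ i, M (σ i) i) = Equiv.Perm.sign σ • δ (∏ i, M (σ i) i) := by
    rcases Int.units_eq_one_or (Equiv.Perm.sign σ) with h | h <;> rw [h] <;> simp
  rw [h3, der_prod, Finset.smul_sum]

theorem der_det' (M : Matrix n n A) (hM : IsUnit M.det) :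
    δ M.det = M.det * ∑ i, ∑ j, M⁻¹ i j * δ (M j i) := by
  rw [der_det, Finset.mul_sum]
  refine Finset.sum_congr rfl fun i _ => ?_
  rw [Finset.mul_sum]
  refine Finset.sum_congr rfl fun j _ => ?_
  have h : M.adjugate i j = M.det * M⁻¹ i j := by
    rw [Matrix.inv_def, Matrix.smul_apply, smul_eq_mul, ← mul_assoc,
      Ring.mul_inverse_cancel _ hM, one_mul]
  rw [h]
  ring

/-- the derivative of a matrix product -/
theorem der_mul {l m k : Type*} [Fintype m] (M : Matrix l m A) (N : Matrix m k A) :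
    (M * N).map δ = M.map δ * N + M * N.map δ := by
  ext i j
  simp only [Matrix.map_apply, Matrix.mul_apply, Matrix.add_apply, map_sum,
    ← Finset.sum_add_distrib]
  refine Finset.sum_congr rfl fun x _ => ?_
  rw [Derivation.leibniz, smul_eq_mul, smul_eq_mul]
  ring

/-- the derivative of the inverse matrix -/
theorem der_inv (M : Matrix n n A) (hM : IsUnit M.det) :
    (M⁻¹).map δ = -(M⁻¹ * M.map δ * M⁻¹) := by
  have h1 : (M⁻¹ * M).map δ = 0 := by
    rw [Matrix.nonsing_inv_mul M hM]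
    ext i j
    by_cases h : i = j
    · subst h
      simp
    · simp [h]
  rw [der_mul] at h1
  have h2 : (M⁻¹).map δ * M = -(M⁻¹ * M.map δ) := eq_neg_of_add_eq_zero_left h1
  calc (M⁻¹).map δ = (M⁻¹).map δ * (M * M⁻¹) := by
        rw [Matrix.mul_nonsing_inv M hM, Matrix.mul_one]
    _ = (M⁻¹).map δ * M * M⁻¹ := by rw [Matrix.mul_assoc]
    _ = -(M⁻¹ * M.map δ * M⁻¹) := by rw [h2, Matrix.neg_mul]

theorem der_inv_apply (M : Matrix n n A) (hM : IsUnit M.det) (i j : n) :
    δ (M⁻¹ i j) = -∑ k, ∑ l, M⁻¹ i k * δ (M k l) * M⁻¹ l j := by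
  have h := congrFun (congrFun (der_inv δ M hM) i) j
  simp only [Matrix.map_apply, Matrix.neg_apply, Matrix.mul_apply, Finset.sum_mul] at h
  rw [h, Finset.sum_comm]

end Jacobi

section Ev

variable {V : Type} [NormedAddCommGroup V] [NormedSpace ℝ V] {Ω : Opens V} {n : ℕ}

/-- the value of a matrix of functions -/
def evM (z : Ω) (M : Matrix (Fin n) (Fin n) (Sm Ω)) : Matrix (Fin n) (Fin n) ℂ :=
  M.map fun f => f.1 z

@[simp] theorem evM_apply (z : Ω) (M : Matrix (Fin n) (Fin n) (Sm Ω)) (i j : Fin n) :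
    evM z M i j = (M i j).1 z := rfl

theorem det_evM (z : Ω) (M : Matrix (Fin n) (Fin n) (Sm Ω)) : (evM z M).det = M.det.1 z :=
  ((evalS z).map_det M).symm

theorem evM_one (z : Ω) : evM z (1 : Matrix (Fin n) (Fin n) (Sm Ω)) = 1 := by
  ext i j
  by_cases h : i = j
  · subst h
    simp
  · simp [h]

theorem evM_mul (z : Ω) (M N : Matrix (Fin n) (Fin n) (Sm Ω)) :
    evM z (M * N) = evM z M * evM z N := by
  ext i j
  simp only [evM_apply, Matrix.mul_apply, Sm.sum_apply, Sm.mul_apply]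

theorem evM_inv (z : Ω) (M : Matrix (Fin n) (Fin n) (Sm Ω)) (hM : IsUnit M.det) :
    evM z M⁻¹ = (evM z M)⁻¹ := by
  symm
  refine Matrix.inv_eq_left_inv ?_
  rw [← evM_mul, Matrix.nonsing_inv_mul M hM, evM_one]

theorem inv_evM_apply (z : Ω) (M : Matrix (Fin n) (Fin n) (Sm Ω)) (hM : IsUnit M.det)
    (i j : Fin n) : (evM z M)⁻¹ i j = (M⁻¹ i j).1 z := by
  rw [← evM_inv z M hM]
  rfl

theorem isUnit_of_pos {f : Sm Ω} (hf : ∀ z, 0 < f.1 z) : IsUnit f :=
  (isUnit_iff_ne f).2 fun z => (hf z).ne'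

/-- derivative of `log det` -/
theorem DS_logdet {δ : Derivation ℂ (Sm Ω) (Sm Ω)} (hδ : δ ∈ DS Ω)
    (M : Matrix (Fin n) (Fin n) (Sm Ω)) (hM : ∀ z, 0 < M.det.1 z) :
    δ (logS M.det hM) = ∑ i, ∑ j, M⁻¹ i j * δ (M j i) := by
  have h1 := mul_DS_logS hδ M.det hM
  rw [der_det' δ M (isUnit_of_pos hM)] at h1
  exact (isUnit_of_pos hM).mul_left_cancel h1

end Ev

section Bridge

variable {n : ℕ} {Ω : Opens (E n)}

/-- the complex Hessian as a matrix of functions -/
def hessS (f : Sm Ω) : Matrix (Fin n) (Fin n) (Sm Ω) := Matrix.of fun i j => dzD i (dzbD j f)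

@[simp] theorem hessS_apply (f : Sm Ω) (i j : Fin n) : hessS f i j = dzD i (dzbD j f) := rfl

theorem star_hessS {f : Sm Ω} (hf : star f = f) (i j : Fin n) :
    star (hessS f i j) = hessS f j i := by
  rw [hessS_apply, hessS_apply, star_dzD, star_dzbD, hf, dzD_dzbD_comm]

theorem isHermitian_hessS {f : Sm Ω} (hf : star f = f) : (hessS f).IsHermitian := by
  ext i j
  rw [Matrix.conjTranspose_apply, star_hessS hf]

/-- Kähler symmetry -/
theorem dzD_hessS (f : Sm Ω) (k i j : Fin n) : dzD k (hessS f i j) = dzD i (hessS f k j) := by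
  rw [hessS_apply, hessS_apply, dzD_comm]

theorem dzbD_hessS (f : Sm Ω) (k i j : Fin n) : dzbD k (hessS f i j) = dzbD j (hessS f i k) := by
  rw [hessS_apply, hessS_apply, ← dzD_dzbD_comm, ← dzD_dzbD_comm, dzbD_comm]

theorem hess_eq (φ : E n → ℝ) (hφ : ContDiffOn ℝ ∞ φ Ω) (z : Ω) :
    hess φ z = evM z (hessS (ofR φ hφ)) := by
  ext i j
  rw [evM_apply, hessS_apply, dzD_apply]
  show dz i (dzb j fun w => (φ w : ℂ)) z = _
  refine (dz_congr ?_).symm
  refine Filter.eventuallyEq_of_mem (Ω.isOpen.mem_nhds z.2) fun w hw => ?_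
  rw [ext_mk _ hw]
  exact dzbD_ofFn j (fun w => (φ w : ℂ)) _ ⟨w, hw⟩

theorem hess_apply_eq (φ : E n → ℝ) (hφ : ContDiffOn ℝ ∞ φ Ω) (z : Ω) (i j : Fin n) :
    hess φ z i j = (dzD i (dzbD j (ofR φ hφ))).1 z := by
  rw [hess_eq φ hφ z]
  rfl

theorem det_hess_eq (φ : E n → ℝ) (hφ : ContDiffOn ℝ ∞ φ Ω) (z : Ω) :
    (hess φ z).det = (hessS (ofR φ hφ)).det.1 z := by
  rw [hess_eq φ hφ z, det_evM]

variable {φ : E n → ℝ} (hφ : ContDiffOn ℝ ∞ φ Ω)

theorem det_pos_of_posDef (hp : ∀ z ∈ Ω, (hess φ z).PosDef) (z : Ω) :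
    0 < (hessS (ofR φ hφ : Sm Ω)).det.1 z := by
  rw [← det_hess_eq]
  exact (hp z z.2).det_pos

theorem logdet_eq (hd : ∀ z, 0 < (hessS (ofR φ hφ : Sm Ω)).det.1 z) (z : Ω) :
    ((logdet φ z : ℝ) : ℂ) = (logS (hessS (ofR φ hφ : Sm Ω)).det hd).1 z := by
  rw [logS_apply, logdet, det_hess_eq φ hφ z]

theorem contDiffOn_logdet (hd : ∀ z, 0 < (hessS (ofR φ hφ : Sm Ω)).det.1 z) :
    ContDiffOn ℝ ∞ (logdet φ) Ω := by
  refine (contDiffOn_log _ hd).congr fun z hz => ?_
  rw [logdet, det_hess_eq φ hφ ⟨z, hz⟩, ext_mk _ hz]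

theorem ofR_logdet (hd : ∀ z, 0 < (hessS (ofR φ hφ : Sm Ω)).det.1 z)
    (hl : ContDiffOn ℝ ∞ (logdet φ) Ω) :
    (ofR (logdet φ) hl : Sm Ω) = logS (hessS (ofR φ hφ)).det hd :=
  Sm.ext' fun z => by
    rw [ofR_apply]
    exact logdet_eq hφ hd z

theorem scal_eq (hd : ∀ z, 0 < (hessS (ofR φ hφ : Sm Ω)).det.1 z) (z : Ω) :
    scal φ z = (-∑ i, ∑ j, (hessS (ofR φ hφ))⁻¹ j i *
      dzD i (dzbD j (logS (hessS (ofR φ hφ)).det hd))).1 z := by
  rw [scal, Sm.neg_apply, Sm.sum_apply]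
  congr 1
  refine Finset.sum_congr rfl fun i _ => ?_
  rw [Sm.sum_apply]
  refine Finset.sum_congr rfl fun j _ => ?_
  rw [Sm.mul_apply, hess_apply_eq (logdet φ) (contDiffOn_logdet hφ hd) z i j,
    ofR_logdet hφ hd, hess_eq φ hφ z, inv_evM_apply z _ (isUnit_of_pos hd)]

end Bridge

end

end Pool.Agent.YTDA


end

/- source: Pool.Agent.YTDA.Chart2 -/

section

/-!
# T13: pointwise identities for a circle invariant Kähler potential in one chart
-/

namespace Pool.Agent.YTDA

open Complex Set Topology ContDiff ComplexOrder TopologicalSpace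

noncomputable section

/-! ## coordinates -/

section Coord

variable {n : ℕ} {Ω : Opens (E n)}

theorem coord_hol (i : Fin n) : DifferentiableOn ℂ (fun z : E n => z i) Ω :=
  (ContinuousLinearMap.proj (R := ℂ) (φ := fun _ : Fin n => ℂ) i).differentiable.differentiableOn

/-- the coordinate function -/
def XS (i : Fin n) : Sm Ω := ofFn (fun z => z i) (smooth_of_hol' (coord_hol i))

@[simp] theorem XS_apply (i : Fin n) (z : Ω) : (XS i : Sm Ω).1 z = (z : E n) i := rfl

theorem dzbD_XS (a i : Fin n) : dzbD a (XS i : Sm Ω) = 0 := dzbD_ofFn_hol (coord_hol i) a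

theorem dzD_XS (a i : Fin n) : dzD a (XS i : Sm Ω) = if a = i then 1 else 0 := by
  apply Sm.ext'
  intro z
  rw [XS, dzD_ofFn_hol (coord_hol i)]
  have h : fderiv ℂ (fun z : E n => z i) (z : E n) =
      ContinuousLinearMap.proj (R := ℂ) (φ := fun _ : Fin n => ℂ) i :=
    (ContinuousLinearMap.proj (R := ℂ) (φ := fun _ : Fin n => ℂ) i).fderiv
  rw [h]
  by_cases hai : a = i
  · subst hai
    simp
  · rw [if_neg hai]
    show (Pi.single a (1 : ℂ) : E n) i = _
    rw [Pi.single_eq_of_ne (Ne.symm hai), Sm.zero_apply]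

theorem dzD_star_XS (a i : Fin n) : dzD a (star (XS i : Sm Ω)) = 0 :=
  dzD_star_ofFn_hol (coord_hol i) a

theorem dzbD_star_XS (a i : Fin n) : dzbD a (star (XS i : Sm Ω)) = if a = i then 1 else 0 := by
  rw [← star_dzD, dzD_XS]
  split_ifs
  · exact star_one _
  · exact star_zero _

theorem der_intCast (δ : Derivation ℂ (Sm Ω) (Sm Ω)) (k : ℤ) : δ (k : Sm Ω) = 0 := by
  simp

theorem intCast_apply (k : ℤ) (z : Ω) : (k : Sm Ω).1 z = k := rfl

theorem star_intCast' (k : ℤ) : star (k : Sm Ω) = k := Sm.ext' fun z => by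
  rw [star_apply, intCast_apply]
  simp

end Coord

/-! ## one-parameter groups -/

section Exp

variable {n : ℕ}

/-- the exponential as a unit -/
def expU (t : ℂ) : ℂˣ := Units.mk0 (exp t) (exp_ne_zero t)

@[simp] theorem expU_val (t : ℂ) : ((expU t : ℂˣ) : ℂ) = exp t := rfl

theorem expU_zero : expU 0 = 1 := Units.ext (by simp)

theorem expU_add (s t : ℂ) : expU (s + t) = expU s * expU t := Units.ext (by simp [exp_add])

theorem expU_zpow (t : ℂ) (k : ℤ) : expU t ^ k = expU (k * t) := Units.ext (by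
  rw [Units.val_zpow_eq_zpow_val, expU_val, expU_val, exp_int_mul])

theorem norm_expU (t : ℂ) : ‖((expU t : ℂˣ) : ℂ)‖ = Real.exp t.re := by
  rw [expU_val, norm_exp]

theorem dact_expU (k : Fin n → ℤ) (t : ℂ) (z : E n) :
    dact k (expU t) z = fun j => exp (k j * t) * z j := by
  funext j
  rw [dact, expU_zpow, expU_val]

theorem hasDerivAt_dactC (k : Fin n → ℤ) (a : ℂ) (z : E n) :
    HasDerivAt (fun t : ℝ => dact k (expU (t * a)) z) (fun j => k j * a * z j) 0 := by
  rw [hasDerivAt_pi]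
  intro j
  have h1 : HasDerivAt (fun t : ℝ => (k j : ℂ) * ((t : ℂ) * a)) (k j * a) 0 := by
    have h2 : HasDerivAt (fun t : ℝ => (t : ℂ)) 1 0 := ofRealCLM.hasDerivAt
    simpa using (h2.mul_const a).const_mul (k j : ℂ)
  have h3 := (h1.cexp).mul_const (z j)
  simp only [ofReal_zero, zero_mul, mul_zero, exp_zero, one_mul] at h3
  refine h3.congr_of_eventuallyEq (Filter.Eventually.of_forall fun t => ?_)
  simp only [dact_expU]

/-- derivative in a direction of the torus -/
theorem deriv_dact {F : E n → ℂ} {z : E n} (hF : DifferentiableAt ℝ F z) (k : Fin n → ℤ)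
    (a : ℂ) : HasDerivAt (fun t : ℝ => F (dact k (expU (t * a)) z))
      (a * ∑ j, k j * z j * dz j F z +
        (starRingEnd ℂ) a * ∑ j, k j * (starRingEnd ℂ) (z j) * dzb j F z) 0 := by
  have h1 := hasDerivAt_dactC k a z
  have h0 : dact k (expU (((0 : ℝ) : ℂ) * a)) z = z := by
    rw [ofReal_zero, zero_mul, expU_zero]
    funext j
    simp [dact]
  have h2 : HasFDerivAt F (fderiv ℝ F z) (dact k (expU (((0 : ℝ) : ℂ) * a)) z) := by
    rw [h0]
    exact hF.hasFDerivAt
  have h3 := h2.comp_hasDerivAt (0 : ℝ) h1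
  have h4 : fderiv ℝ F z (fun j => (k j : ℂ) * a * z j) =
      (a * ∑ j, k j * z j * dz j F z +
        (starRingEnd ℂ) a * ∑ j, k j * (starRingEnd ℂ) (z j) * dzb j F z) := by
    rw [fderiv_eq_dz_dzb, Finset.mul_sum, Finset.mul_sum, ← Finset.sum_add_distrib]
    refine Finset.sum_congr rfl fun j _ => ?_
    simp only [map_mul, map_intCast]
    ring
  rw [h4] at h3
  exact h3

/-- (P6) a function that is invariant under the circle -/
theorem circ_inv {F : E n → ℂ} {z : E n} (hF : DifferentiableAt ℝ F z) (k : Fin n → ℤ)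
    (h : ∀ c : ℂˣ, ‖(c : ℂ)‖ = 1 → F (dact k c z) = F z) :
    ∑ j, k j * z j * dz j F z = ∑ j, k j * (starRingEnd ℂ) (z j) * dzb j F z := by
  have h1 := deriv_dact hF k I
  have h2 : (fun t : ℝ => F (dact k (expU (t * I)) z)) = fun _ => F z := by
    funext t
    refine h _ ?_
    rw [norm_expU]
    simp
  rw [h2] at h1
  have h3 := h1.unique (hasDerivAt_const (0 : ℝ) (F z))
  rw [conj_I] at h3
  have h4 : I * (∑ j, k j * z j * dz j F z -
      ∑ j, k j * (starRingEnd ℂ) (z j) * dzb j F z) = 0 := by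
    rw [← h3]
    ring
  rcases mul_eq_zero.1 h4 with h5 | h5
  · exact absurd h5 I_ne_zero
  · exact sub_eq_zero.1 h5

/-- the radial derivative of a circle invariant function -/
theorem deriv_radial {F : E n → ℂ} {z : E n} (hF : DifferentiableAt ℝ F z) (k : Fin n → ℤ)
    (h : ∀ c : ℂˣ, ‖(c : ℂ)‖ = 1 → F (dact k c z) = F z) :
    HasDerivAt (fun t : ℝ => F (dact k (expU t) z)) (2 * ∑ j, k j * z j * dz j F z) 0 := by
  have h1 := deriv_dact hF k 1
  simp only [mul_one, map_one, one_mul] at h1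
  rw [← circ_inv hF k h, ← two_mul] at h1
  exact h1

end Exp

/-! ## the identities in the ring of smooth functions -/

section Ring

open Matrix

variable {n : ℕ} {Ω : Opens (E n)} (k : Fin n → ℤ) (m : ℤ) (f : Sm Ω)

/-- the components of the holomorphic vector field of the action -/
def ZS (i : Fin n) : Sm Ω := (k i : Sm Ω) * XS i

@[simp] theorem ZS_apply (i : Fin n) (z : Ω) : (ZS k i : Sm Ω).1 z = k i * (z : E n) i := rfl

theorem dzbD_ZS (a i : Fin n) : dzbD a (ZS k i : Sm Ω) = 0 := by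
  rw [ZS, Derivation.leibniz, dzbD_XS, der_intCast]
  simp

theorem dzD_ZS (a i : Fin n) : dzD a (ZS k i : Sm Ω) = if a = i then (k i : Sm Ω) else 0 := by
  rw [ZS, Derivation.leibniz, dzD_XS, der_intCast]
  simp

theorem dzD_star_ZS (a i : Fin n) : dzD a (star (ZS k i : Sm Ω)) = 0 := by
  rw [← star_dzbD, dzbD_ZS, star_zero]

/-- the moment map -/
def muSC : Sm Ω := (m : Sm Ω) + ∑ j, ZS k j * dzD j f

theorem dzbD_muS (j : Fin n) : dzbD j (muSC k m f) = ∑ i, ZS k i * hessS f i j := by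
  rw [muSC, map_add, der_intCast, zero_add, map_sum]
  refine Finset.sum_congr rfl fun i _ => ?_
  rw [Derivation.leibniz, dzbD_ZS, hessS_apply, dzD_dzbD_comm]
  simp only [smul_eq_mul, mul_zero, add_zero]

variable (hf : star f = f)
  (hinv : ∑ j, ZS k j * dzD j f = ∑ j, star (ZS k j) * dzbD j f)

include hf hinv

theorem star_muS : star (muSC k m f) = muSC k m f := by
  have h1 : star (∑ j, ZS k j * dzD j f) = ∑ j, star (ZS k j) * dzbD j f := by
    rw [star_sum]
    refine Finset.sum_congr rfl fun j _ => ?_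
    rw [star_mul', star_dzD, hf]
  rw [muSC, star_add, star_intCast', h1, hinv]

theorem dzD_muS (i : Fin n) : dzD i (muSC k m f) = ∑ j, star (ZS k j) * hessS f i j := by
  rw [← star_muS k m f hf hinv, ← star_dzbD, dzbD_muS, star_sum]
  refine Finset.sum_congr rfl fun j _ => ?_
  rw [star_mul', star_hessS hf]

omit hf hinv

theorem adj_mul_right (c : Fin n → Sm Ω) (j : Fin n) :
    ∑ i, (hessS f).adjugate j i * ∑ l, c l * hessS f i l = (hessS f).det * c j := by
  have h1 : ∑ i, (hessS f).adjugate j i * ∑ l, c l * hessS f i l =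
      ∑ l, c l * ((hessS f).adjugate * hessS f) j l := by
    simp only [Matrix.mul_apply, Finset.mul_sum]
    rw [Finset.sum_comm]
    refine Finset.sum_congr rfl fun l _ => Finset.sum_congr rfl fun i _ => ?_
    ring
  rw [h1, Matrix.adjugate_mul]
  simp only [Matrix.smul_apply, smul_eq_mul]
  rw [Finset.sum_eq_single j]
  · rw [Matrix.one_apply_eq]
    ring
  · intro l _ hl
    rw [Matrix.one_apply_ne hl.symm]
    ring
  · intro h
    exact absurd (Finset.mem_univ j) h

theorem adj_mul_left (c : Fin n → Sm Ω) (i : Fin n) :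
    ∑ j, (hessS f).adjugate j i * ∑ l, c l * hessS f l j = (hessS f).det * c i := by
  have h1 : ∑ j, (hessS f).adjugate j i * ∑ l, c l * hessS f l j =
      ∑ l, c l * (hessS f * (hessS f).adjugate) l i := by
    simp only [Matrix.mul_apply, Finset.mul_sum]
    rw [Finset.sum_comm]
    refine Finset.sum_congr rfl fun l _ => Finset.sum_congr rfl fun i _ => ?_
    ring
  rw [h1, Matrix.mul_adjugate]
  simp only [Matrix.smul_apply, smul_eq_mul]
  rw [Finset.sum_eq_single i]
  · rw [Matrix.one_apply_eq]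
    ring
  · intro l _ hl
    rw [Matrix.one_apply_ne hl]
    ring
  · intro h
    exact absurd (Finset.mem_univ i) h

theorem adj_dzbD_muS (i : Fin n) :
    ∑ j, (hessS f).adjugate j i * dzbD j (muSC k m f) = (hessS f).det * ZS k i := by
  simp only [dzbD_muS]
  exact adj_mul_left f _ i

include hf hinv in
theorem adj_dzD_muS (j : Fin n) :
    ∑ i, (hessS f).adjugate j i * dzD i (muSC k m f) = (hessS f).det * star (ZS k j) := by
  simp only [dzD_muS k m f hf hinv]
  exact adj_mul_right f _ j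

theorem adj_hessS (i : Fin n) :
    ∑ j, (hessS f).adjugate j i * hessS f i j = (hessS f).det := by
  have h := adj_mul_left f (fun l => if l = i then 1 else 0) i
  simpa using h

theorem dzD_dzbD_muS (i j : Fin n) : dzD i (dzbD j (muSC k m f)) =
    (k i : Sm Ω) * hessS f i j + ∑ l, ZS k l * dzD l (hessS f i j) := by
  rw [dzbD_muS, map_sum]
  have h1 : ∀ l, dzD i (ZS k l * hessS f l j) =
      (if l = i then (k i : Sm Ω) * hessS f i j else 0) + ZS k l * dzD l (hessS f i j) := by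
    intro l
    rw [Derivation.leibniz, dzD_ZS, dzD_hessS f i l j]
    simp only [smul_eq_mul]
    by_cases hl : l = i
    · subst hl
      simp
      ring
    · rw [if_neg hl, if_neg (Ne.symm hl)]
      ring
  simp only [h1]
  rw [Finset.sum_add_distrib]
  simp

/-- (P4) -/
theorem adj_hess_muS (hd : ∀ z, 0 < (hessS f).det.1 z) :
    ∑ i, ∑ j, (hessS f).adjugate j i * dzD i (dzbD j (muSC k m f)) =
      (hessS f).det * (∑ l, ZS k l * dzD l (logS (hessS f).det hd) + ∑ i, (k i : Sm Ω)) := by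
  have h1 : ∀ l, (hessS f).det * (ZS k l * dzD l (logS (hessS f).det hd)) =
      ZS k l * ∑ i, ∑ j, (hessS f).adjugate j i * dzD l (hessS f i j) := by
    intro l
    have h2 := mul_DS_logS (dzD_mem_DS l) (hessS f).det hd
    rw [der_det (dzD l) (hessS f)] at h2
    rw [show (hessS f).det * (ZS k l * dzD l (logS (hessS f).det hd)) =
      ZS k l * ((hessS f).det * dzD l (logS (hessS f).det hd)) by ring, h2,
      Finset.sum_comm]
  rw [mul_add, Finset.mul_sum, Finset.mul_sum]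
  simp only [h1, dzD_dzbD_muS, mul_add, Finset.sum_add_distrib]
  rw [add_comm]
  congr 1
  · simp only [Finset.mul_sum]
    have h3 : ∀ i : Fin n, ∑ j, ∑ l, (hessS f).adjugate j i * (ZS k l *
        dzD l (hessS f i j)) = ∑ l, ∑ j, ZS k l * ((hessS f).adjugate j i *
        dzD l (hessS f i j)) := by
      intro i
      rw [Finset.sum_comm]
      refine Finset.sum_congr rfl fun l _ => Finset.sum_congr rfl fun j _ => ?_
      ring
    simp only [h3]
    rw [Finset.sum_comm]
  · refine Finset.sum_congr rfl fun i _ => ?_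
    have h4 := adj_hessS f i
    calc ∑ j, (hessS f).adjugate j i * ((k i : Sm Ω) * hessS f i j)
        = (k i : Sm Ω) * ∑ j, (hessS f).adjugate j i * hessS f i j := by
          rw [Finset.mul_sum]
          refine Finset.sum_congr rfl fun j _ => ?_
          ring
      _ = _ := by rw [h4]; ring

/-- (P5) -/
theorem sum_adj_hessS :
    ∑ i, ∑ j, (hessS f).adjugate j i * hessS f i j = (n : Sm Ω) * (hessS f).det := by
  rw [Finset.sum_congr rfl fun i _ => adj_hessS f i]
  simp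

/-- (P3) -/
theorem V_muS (hf : star f = f)
    (hinv : ∑ j, ZS k j * dzD j f = ∑ j, star (ZS k j) * dzbD j f) :
    ∑ i, ZS k i * dzD i (muSC k m f) =
      ∑ i, ∑ j, ZS k i * star (ZS k j) * hessS f i j := by
  simp only [dzD_muS k m f hf hinv, Finset.mul_sum]
  refine Finset.sum_congr rfl fun i _ => Finset.sum_congr rfl fun j _ => ?_
  ring

end Ring

section Ring2

variable {Ω : Opens (E 2)} (f : Sm Ω)

/-- (P2) the columns of the adjugate are divergence free -/
theorem div_adj (j : Fin 2) : ∑ i, dzD i ((hessS f).adjugate j i) = 0 := by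
  rw [Matrix.adjugate_fin_two, Fin.sum_univ_two]
  fin_cases j
  · show dzD 0 (hessS f 1 1) + dzD 1 (-hessS f 0 1) = 0
    rw [map_neg, dzD_hessS f 0 1 1]
    ring
  · show dzD 0 (-hessS f 1 0) + dzD 1 (hessS f 0 0) = 0
    rw [map_neg, dzD_hessS f 0 1 0]
    ring

theorem div_adj' (i : Fin 2) : ∑ j, dzbD j ((hessS f).adjugate j i) = 0 := by
  rw [Matrix.adjugate_fin_two, Fin.sum_univ_two]
  fin_cases i
  · show dzbD 0 (hessS f 1 1) + dzbD 1 (-hessS f 1 0) = 0
    rw [map_neg, dzbD_hessS f 0 1 1]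
    ring
  · show dzbD 0 (-hessS f 0 1) + dzbD 1 (hessS f 0 0) = 0
    rw [map_neg, dzbD_hessS f 0 0 1]
    ring

end Ring2

end

end Pool.Agent.YTDA


end

/- source: Pool.Agent.YTDA.FinalIneq -/

section

/-!
# T13(e): the final inequality

`PP q x = (25q + 3x)(25q - 3x)`, `dd q t x` is the density of the Duistermaat-Heckman measure.
-/

namespace Pool.Agent.YTDA

open Set Topology ContDiff MeasureTheory Real

noncomputable section

/-- `P(x) = (25q+3x)(25q-3x)` -/
def PP (q x : ℝ) : ℝ := (25 * q + 3 * x) * (25 * q - 3 * x)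

/-- the Duistermaat-Heckman density `105 t q - 100 t (|x| - 4q)⁺` -/
def dd (q t x : ℝ) : ℝ := 105 * t * q - 100 * t * max (|x| - 4 * q) 0

theorem continuous_PP (q : ℝ) : Continuous (PP q) := by unfold PP; fun_prop

theorem continuous_dd (q t : ℝ) : Continuous (dd q t) := by unfold dd; fun_prop

theorem hasDerivAt_max_pow (n : ℕ) (x : ℝ) :
    HasDerivAt (fun x : ℝ => (max x 0) ^ (n + 2)) ((n + 2 : ℝ) * (max x 0) ^ (n + 1)) x := by
  rcases lt_trichotomy x 0 with h | h | h
  · have h1 : (fun _ : ℝ => (0 : ℝ)) =ᶠ[𝓝 x] fun x : ℝ => (max x 0) ^ (n + 2) := by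
      filter_upwards [Iio_mem_nhds h] with y hy
      rw [max_eq_right (le_of_lt hy), zero_pow (by omega)]
    rw [max_eq_right h.le, zero_pow (by omega), mul_zero]
    exact (hasDerivAt_const x (0 : ℝ)).congr_of_eventuallyEq h1.symm
  · subst h
    rw [max_self, zero_pow (by omega), mul_zero]
    have h2 : HasDerivWithinAt (fun x : ℝ => (max x 0) ^ (n + 2)) 0 (Iic 0) 0 := by
      refine (hasDerivWithinAt_const (0 : ℝ) (Iic 0) (0 : ℝ)).congr ?_ ?_
      · intro y hy
        rw [max_eq_right hy, zero_pow (by omega)]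
      · simp
    have h3 : HasDerivWithinAt (fun x : ℝ => (max x 0) ^ (n + 2)) 0 (Ici 0) 0 := by
      have h4 : HasDerivAt (fun x : ℝ => x ^ (n + 2)) 0 0 := by
        have := hasDerivAt_pow (n + 2) (0 : ℝ)
        simpa using this
      refine h4.hasDerivWithinAt.congr ?_ ?_
      · intro y hy
        rw [max_eq_left hy]
      · simp
    have h5 := h2.union h3
    rw [Iic_union_Ici] at h5
    exact hasDerivWithinAt_univ.1 h5
  · have h1 : (fun y : ℝ => y ^ (n + 2)) =ᶠ[𝓝 x] fun x : ℝ => (max x 0) ^ (n + 2) := by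
      filter_upwards [Ioi_mem_nhds h] with y hy
      rw [max_eq_left (le_of_lt hy)]
    rw [max_eq_left h.le]
    have := hasDerivAt_pow (n + 2) x
    push_cast at this
    refine HasDerivAt.congr_of_eventuallyEq ?_ h1.symm
    convert this using 2

/-- the kernel `G` on `[0, 5q]` -/
def GG (q t u : ℝ) : ℝ :=
  t / 6 * ((9 * u ^ 2 - 125 * q ^ 2) ^ 2 - 10000 * q * (max (u - 4 * q) 0) ^ 3)

/-- its derivative -/
def GG' (q t u : ℝ) : ℝ :=
  t / 6 * (36 * u * (9 * u ^ 2 - 125 * q ^ 2) - 30000 * q * (max (u - 4 * q) 0) ^ 2)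

theorem hasDerivAt_GG (q t u : ℝ) : HasDerivAt (GG q t) (GG' q t u) u := by
  have h1 : HasDerivAt (fun u : ℝ => (max (u - 4 * q) 0) ^ 3)
      (((1 : ℕ) + 2 : ℝ) * (max (u - 4 * q) 0) ^ 2) u := by
    exact (hasDerivAt_max_pow 1 (u - 4 * q)).comp_sub_const u (4 * q)
  have h2 : HasDerivAt (fun u : ℝ => (9 * u ^ 2 - 125 * q ^ 2) ^ 2)
      (2 * (9 * u ^ 2 - 125 * q ^ 2) * (9 * (2 * u))) u := by
    have h3 : HasDerivAt (fun u : ℝ => 9 * u ^ 2 - 125 * q ^ 2) (9 * (2 * u)) u := by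
      have := ((hasDerivAt_pow 2 u).const_mul 9).sub_const (125 * q ^ 2)
      simpa using this
    have := h3.fun_pow 2
    simpa using this
  have h4 := (h2.sub (h1.const_mul (10000 * q))).const_mul (t / 6)
  refine h4.congr_deriv ?_
  unfold GG'
  push_cast
  ring

theorem hasDerivAt_GG' (q t u : ℝ) (hu : 0 ≤ u) :
    HasDerivAt (GG' q t) (100 * q * dd q t u - 18 * t * PP q u) u := by
  have h1 : HasDerivAt (fun u : ℝ => (max (u - 4 * q) 0) ^ 2)
      (((0 : ℕ) + 2 : ℝ) * (max (u - 4 * q) 0) ^ 1) u := by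
    exact (hasDerivAt_max_pow 0 (u - 4 * q)).comp_sub_const u (4 * q)
  have h2 : HasDerivAt (fun u : ℝ => 36 * u * (9 * u ^ 2 - 125 * q ^ 2))
      (36 * (9 * u ^ 2 - 125 * q ^ 2) + 36 * u * (9 * (2 * u))) u := by
    have h3 : HasDerivAt (fun u : ℝ => 9 * u ^ 2 - 125 * q ^ 2) (9 * (2 * u)) u := by
      have := ((hasDerivAt_pow 2 u).const_mul 9).sub_const (125 * q ^ 2)
      simpa using this
    have h5 : HasDerivAt (fun u : ℝ => 36 * u) 36 u := by
      simpa using (hasDerivAt_id u).const_mul (36 : ℝ)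
    exact h5.mul h3
  have h4 := (h2.sub (h1.const_mul (30000 * q))).const_mul (t / 6)
  refine h4.congr_deriv ?_
  unfold dd PP
  rw [abs_of_nonneg hu]
  push_cast
  ring

theorem even_integral {f : ℝ → ℝ} (hf : Continuous f) (he : ∀ x, f (-x) = f x) (a : ℝ) :
    ∫ x in (-a)..a, f x = 2 * ∫ x in (0 : ℝ)..a, f x := by
  have h1 : ∫ x in (-a)..0, f x = ∫ x in (0 : ℝ)..a, f x := by
    have := intervalIntegral.integral_comp_neg (a := 0) (b := a) f
    rw [neg_zero] at this
    rw [← this]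
    simp_rw [he]
  rw [← intervalIntegral.integral_add_adjacent_intervals (hf.intervalIntegrable (-a) 0)
    (hf.intervalIntegrable 0 a), h1]
  ring

/-- the right hand side for even functions -/
theorem rhs_even {q t : ℝ} (hq : 0 < q) {f f' f'' : ℝ → ℝ} (h1 : ∀ x, HasDerivAt f (f' x) x)
    (h2 : ∀ x, HasDerivAt f' (f'' x) x) (h3 : Continuous f'') (he : ∀ x, f (-x) = f x) :
    100 * q * (∫ x in (-(5 * q))..(5 * q), f x * dd q t x) -
      18 * t * (∫ x in (-(5 * q))..(5 * q), f x * PP q x) +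
      f (5 * q) * PP q (5 * q) * dd q t (5 * q) +
      f (-(5 * q)) * PP q (-(5 * q)) * dd q t (-(5 * q)) =
    2 * ∫ x in (0 : ℝ)..(5 * q), f'' x * GG q t x := by
  have hcf : Continuous f := continuous_iff_continuousAt.2 fun x => (h1 x).continuousAt
  have hcf' : Continuous f' := continuous_iff_continuousAt.2 fun x => (h2 x).continuousAt
  have hcG : Continuous (GG q t) :=
    continuous_iff_continuousAt.2 fun x => (hasDerivAt_GG q t x).continuousAt
  have hcG' : Continuous (GG' q t) := by unfold GG'; fun_prop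
  have hf'0 : f' 0 = 0 := by
    have h4 : HasDerivAt (fun x => f (-x)) (-f' 0) 0 := by
      have h5 : HasDerivAt f (f' 0) (-0) := by rw [neg_zero]; exact h1 0
      have h6 : HasDerivAt (fun x => f (-x)) (f' 0 * (-1)) 0 :=
        h5.comp (0 : ℝ) (hasDerivAt_neg (0 : ℝ))
      rwa [mul_neg_one] at h6
    have h5 : (fun x => f (-x)) = f := funext he
    rw [h5] at h4
    have := h4.unique (h1 0)
    linarith
  have hcd := continuous_dd q t
  have hcP := continuous_PP q
  rw [even_integral (f := fun x => f x * dd q t x) (hcf.mul hcd)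
      (fun x => by simp only [he]; unfold dd; rw [abs_neg]),
    even_integral (f := fun x => f x * PP q x) (hcf.mul hcP)
      (fun x => by simp only [he]; unfold PP; ring)]
  have hint : ∀ g : ℝ → ℝ, Continuous g → IntervalIntegrable g volume 0 (5 * q) :=
    fun g hg => hg.intervalIntegrable _ _
  have e1 : 100 * q * (2 * ∫ x in (0 : ℝ)..(5 * q), f x * dd q t x) -
      18 * t * (2 * ∫ x in (0 : ℝ)..(5 * q), f x * PP q x) =
      2 * ∫ x in (0 : ℝ)..(5 * q), f x * (100 * q * dd q t x - 18 * t * PP q x) := by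
    have e2 : ∀ x, f x * (100 * q * dd q t x - 18 * t * PP q x) =
      100 * q * (f x * dd q t x) - 18 * t * (f x * PP q x) := fun x => by ring
    simp_rw [e2]
    rw [intervalIntegral.integral_sub (hint _ (by fun_prop)) (hint _ (by fun_prop)),
      intervalIntegral.integral_const_mul, intervalIntegral.integral_const_mul]
    ring
  rw [e1]
  -- two integrations by parts
  have e3 : ∫ x in (0 : ℝ)..(5 * q), f x * (100 * q * dd q t x - 18 * t * PP q x) =
      f (5 * q) * GG' q t (5 * q) - f 0 * GG' q t 0 - ∫ x in (0 : ℝ)..(5 * q), f' x * GG' q t x := by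
    refine intervalIntegral.integral_mul_deriv_eq_deriv_mul (fun x _ => h1 x) ?_ (hint _ hcf')
      (hint _ (by fun_prop))
    intro x hx
    rw [uIcc_of_le (by positivity)] at hx
    exact hasDerivAt_GG' q t x hx.1
  have e4 : ∫ x in (0 : ℝ)..(5 * q), f' x * GG' q t x =
      f' (5 * q) * GG q t (5 * q) - f' 0 * GG q t 0 - ∫ x in (0 : ℝ)..(5 * q), f'' x * GG q t x :=
    intervalIntegral.integral_mul_deriv_eq_deriv_mul (fun x _ => h2 x)
      (fun x _ => hasDerivAt_GG q t x) (hint _ h3) (hint _ hcG')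
  have e5 : max (5 * q - 4 * q) 0 = q := by rw [max_eq_left (by linarith)]; ring
  have e6 : max (0 - 4 * q) 0 = 0 := max_eq_right (by linarith)
  have e7 : |5 * q| = 5 * q := abs_of_pos (by positivity)
  have g1 : GG q t (5 * q) = 0 := by unfold GG; rw [e5]; ring
  have g2 : GG' q t (5 * q) = - 2000 * t * q ^ 3 := by unfold GG'; rw [e5]; ring
  have g3 : GG' q t 0 = 0 := by unfold GG'; rw [e6]; ring
  have g4 : dd q t (5 * q) = 5 * t * q := by unfold dd; rw [e7, e5]; ring
  have g5 : dd q t (-(5 * q)) = 5 * t * q := by unfold dd; rw [abs_neg, e7, e5]; ring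
  have g6 : PP q (5 * q) = 400 * q ^ 2 := by unfold PP; ring
  have g7 : PP q (-(5 * q)) = 400 * q ^ 2 := by unfold PP; ring
  rw [e3, e4, g1, g2, g3, g4, g5, g6, g7, he, hf'0]
  ring

/-- **T13(e)** -/
theorem final_ineq {q t : ℝ} (hq : 0 < q) (ht : 0 < t) (J Λ : (ℝ → ℝ) → ℝ) (s : ℝ)
    (hΛ : Λ (fun _ => 0) = 0)
    (H1 : ∀ f : ℝ → ℝ, ContDiff ℝ ∞ f → (∀ x, f (-x) = f x) →
      Λ (deriv (deriv f)) + s * J (fun x => f x * PP q x) = (2 * π) ^ 2 *
      (100 * q * (∫ x in (-(5 * q))..(5 * q), f x * dd q t x) -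
      18 * t * (∫ x in (-(5 * q))..(5 * q), f x * PP q x) +
      f (5 * q) * PP q (5 * q) * dd q t (5 * q) +
      f (-(5 * q)) * PP q (-(5 * q)) * dd q t (-(5 * q))))
    (H2 : ∀ k : ℝ → ℝ, ContDiff ℝ ∞ k → J k = (2 * π) ^ 2 *
      ∫ x in (-(5 * q))..(5 * q), k x * dd q t x)
    (H3 : ∃ c > 0, ∀ k : ℝ → ℝ, ContDiff ℝ ∞ k → (∀ x, 0 ≤ k x) →
      (∀ x, 39 / 10 * q ≤ |x| → k x = 0) → c * J k ≤ Λ k) : False := by
  -- `s = 0`
  have hs : s = 0 := by
    have h1 := H1 (fun _ => 1) contDiff_const (fun _ => rfl)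
    rw [rhs_even hq (f' := fun _ => 0) (f'' := fun _ => 0) (fun x => hasDerivAt_const x 1)
      (fun x => hasDerivAt_const x 0) continuous_const (fun _ => rfl)] at h1
    have h2 : deriv (deriv (fun _ : ℝ => (1 : ℝ))) = fun _ => 0 := by
      ext x
      simp
    rw [h2, hΛ] at h1
    simp only [one_mul, zero_mul, intervalIntegral.integral_zero, mul_zero, zero_add] at h1
    rcases mul_eq_zero.1 h1 with h | h
    · exact h
    · exfalso
      rw [H2 (fun x => PP q x) (by unfold PP; fun_prop)] at h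
      have h3 : 0 < ∫ x in (-(5 * q))..(5 * q), PP q x * dd q t x := by
        refine intervalIntegral.intervalIntegral_pos_of_pos_on
          (((continuous_PP q).mul (continuous_dd q t)).intervalIntegrable _ _) ?_ (by linarith)
        intro x hx
        have hx' : |x| < 5 * q := abs_lt.2 hx
        refine mul_pos ?_ ?_
        · unfold PP
          exact mul_pos (by linarith [hx.1]) (by linarith [hx.2])
        · unfold dd
          have : max (|x| - 4 * q) 0 ≤ q := max_le (by linarith) hq.le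
          nlinarith
      have h4 : (0 : ℝ) < (2 * π) ^ 2 := by positivity
      exact (mul_pos h4 h3).ne' h
  obtain ⟨c, hc, H3⟩ := H3
  -- the bump
  set x₀ : ℝ := √125 / 3 * q with hx₀
  have hsq : √125 ^ 2 = 125 := Real.sq_sqrt (by norm_num)
  have hs1 : √125 < 11.2 := by
    rw [Real.sqrt_lt' (by norm_num)]
    norm_num
  have hs2 : 11.1 < √125 := by
    apply Real.lt_sqrt_of_sq_lt
    norm_num
  have hx0l : 3.6 * q < x₀ := by
    rw [hx₀]
    exact mul_lt_mul_of_pos_right (by linarith) hq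
  have hx0u : x₀ < 3.75 * q := by
    rw [hx₀]
    exact mul_lt_mul_of_pos_right (by linarith) hq
  have hx0sq : 9 * x₀ ^ 2 = 125 * q ^ 2 := by
    rw [hx₀, mul_pow, div_pow, hsq]
    ring
  obtain ⟨ε, hε, hε1, hε2⟩ : ∃ ε > 0, ε ≤ q / 10 ∧ 1350 * q ^ 2 * ε ^ 2 < 105 * q * c := by
    refine ⟨min (q / 10) (√(c / (20 * q))), lt_min (by positivity) (by positivity),
      min_le_left _ _, ?_⟩
    have h1 : (min (q / 10) (√(c / (20 * q)))) ^ 2 ≤ c / (20 * q) := by
      have h2 : (√(c / (20 * q))) ^ 2 = c / (20 * q) := Real.sq_sqrt (by positivity)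
      calc (min (q / 10) (√(c / (20 * q)))) ^ 2 ≤ (√(c / (20 * q))) ^ 2 :=
            pow_le_pow_left₀ (le_min (by positivity) (by positivity)) (min_le_right _ _) 2
        _ = _ := h2
    have h3 : 1350 * q ^ 2 * (c / (20 * q)) = 67.5 * q * c := by
      field_simp
      norm_num
    have h4 : 0 < q * c := by positivity
    calc 1350 * q ^ 2 * (min (q / 10) (√(c / (20 * q)))) ^ 2 ≤ 1350 * q ^ 2 * (c / (20 * q)) :=
          mul_le_mul_of_nonneg_left h1 (by positivity)
      _ = 67.5 * q * c := h3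
      _ < 105 * q * c := by nlinarith
  let ψ : ContDiffBump x₀ := ⟨ε / 2, ε, by positivity, by linarith⟩
  have hψs : ContDiff ℝ ∞ ψ := ψ.contDiff
  have hψ0 : ∀ x, ε ≤ |x - x₀| → ψ x = 0 := by
    intro x hx
    apply ψ.zero_of_le_dist
    rw [Real.dist_eq]
    exact hx
  set φ : ℝ → ℝ := fun x => ψ x + ψ (-x) with hφ
  have hφs : ContDiff ℝ ∞ φ := hψs.add (hψs.comp contDiff_neg)
  have hφc : Continuous φ := hφs.continuous
  have hφe : ∀ x, φ (-x) = φ x := by
    intro x
    rw [hφ]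
    simp only [neg_neg]
    exact add_comm _ _
  have hφ0 : ∀ x, 0 ≤ φ x := fun x => add_nonneg ψ.nonneg ψ.nonneg
  -- the function `f`
  set g : ℝ → ℝ := fun x => ∫ y in (0 : ℝ)..x, φ y with hg
  have hg' : ∀ x, HasDerivAt g (φ x) x := fun x =>
    intervalIntegral.integral_hasDerivAt_right (hφc.intervalIntegrable _ _)
      (hφc.stronglyMeasurableAtFilter _ _) hφc.continuousAt
  have hgc : Continuous g := continuous_iff_continuousAt.2 fun x => (hg' x).continuousAt
  have hgd : deriv g = φ := funext fun x => (hg' x).deriv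
  have hgs : ContDiff ℝ ∞ g := by
    rw [contDiff_infty_iff_deriv]
    exact ⟨fun x => (hg' x).differentiableAt, by rw [hgd]; exact hφs⟩
  set f : ℝ → ℝ := fun x => ∫ y in (0 : ℝ)..x, g y with hf
  have hf' : ∀ x, HasDerivAt f (g x) x := fun x =>
    intervalIntegral.integral_hasDerivAt_right (hgc.intervalIntegrable _ _)
      (hgc.stronglyMeasurableAtFilter _ _) hgc.continuousAt
  have hfd : deriv f = g := funext fun x => (hf' x).deriv
  have hfs : ContDiff ℝ ∞ f := by
    rw [contDiff_infty_iff_deriv]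
    exact ⟨fun x => (hf' x).differentiableAt, by rw [hfd]; exact hgs⟩
  have hgo : ∀ x, g (-x) = - g x := by
    intro x
    rw [hg]
    simp only
    have := intervalIntegral.integral_comp_neg (a := 0) (b := x) φ
    rw [neg_zero] at this
    simp_rw [hφe] at this
    rw [intervalIntegral.integral_symm, ← this]
  have hfe : ∀ x, f (-x) = f x := by
    intro x
    rw [hf]
    simp only
    have := intervalIntegral.integral_comp_neg (a := 0) (b := x) g
    rw [neg_zero] at this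
    simp_rw [hgo] at this
    rw [intervalIntegral.integral_neg] at this
    rw [intervalIntegral.integral_symm, ← this, neg_neg]
  have hmain := H1 f hfs hfe
  rw [hfd, hgd, hs, zero_mul, add_zero, rhs_even hq hf' hg' hφc hfe] at hmain
  -- support of `φ`
  have hsupp : ∀ x, 39 / 10 * q ≤ |x| → φ x = 0 := by
    intro x hx
    rw [hφ]
    simp only
    rw [hψ0 x, hψ0 (-x), add_zero]
    · rw [le_abs] at hx ⊢
      rcases hx with h | h
      · right; linarith
      · left; linarith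
    · rw [le_abs] at hx ⊢
      rcases hx with h | h
      · left; linarith
      · right; linarith
  have hlow := H3 φ hφs hφ0 hsupp
  rw [H2 φ hφs, hmain] at hlow
  have hd : ∫ x in (-(5 * q))..(5 * q), φ x * dd q t x =
      105 * t * q * (2 * ∫ x in (0 : ℝ)..(5 * q), φ x) := by
    rw [← even_integral hφc hφe, ← intervalIntegral.integral_const_mul]
    congr 1
    ext x
    by_cases hx : 39 / 10 * q ≤ |x|
    · rw [hsupp x hx]; ring
    · unfold dd
      rw [max_eq_right (by push Not at hx; linarith)]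
      ring
  rw [hd] at hlow
  have hpos : 0 < ∫ x in (0 : ℝ)..(5 * q), φ x := by
    refine intervalIntegral.integral_pos (by positivity) hφc.continuousOn (fun x _ => hφ0 x)
      ⟨x₀, ⟨by linarith, by linarith⟩, ?_⟩
    refine add_pos_of_pos_of_nonneg ?_ ψ.nonneg
    exact ψ.pos_of_mem_ball (by
      rw [Metric.mem_ball, dist_self]
      exact hε)
  have hup : ∫ x in (0 : ℝ)..(5 * q), φ x * GG q t x ≤
      ∫ x in (0 : ℝ)..(5 * q), φ x * (1350 * t * q ^ 2 * ε ^ 2) := by
    have hcG : Continuous (GG q t) :=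
      continuous_iff_continuousAt.2 fun x => (hasDerivAt_GG q t x).continuousAt
    refine intervalIntegral.integral_mono_on (by positivity)
      ((hφc.mul hcG).intervalIntegrable _ _) ((hφc.mul continuous_const).intervalIntegrable _ _) ?_
    intro x hx
    by_cases h : ε ≤ |x - x₀|
    · have h1 : φ x = 0 := by
        rw [hφ]
        simp only
        rw [hψ0 x h, hψ0 (-x), add_zero]
        rw [le_abs]
        right
        linarith [hx.1]
      rw [h1, zero_mul, zero_mul]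
    · refine mul_le_mul_of_nonneg_left ?_ (hφ0 x)
      rw [not_le, abs_lt] at h
      have h1 : 0 ≤ 10000 * q * (max (x - 4 * q) 0) ^ 3 := by
        have : 0 ≤ max (x - 4 * q) 0 := le_max_right _ _
        positivity
      have h2 : (9 * x ^ 2 - 125 * q ^ 2) ^ 2 ≤ 8100 * q ^ 2 * ε ^ 2 := by
        have h3 : 9 * x ^ 2 - 125 * q ^ 2 = 9 * (x - x₀) * (x + x₀) := by
          rw [← hx0sq]; ring
        rw [h3]
        have h4 : (x - x₀) ^ 2 ≤ ε ^ 2 := by nlinarith
        have h5 : (x + x₀) ^ 2 ≤ (10 * q) ^ 2 := by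
          apply pow_le_pow_left₀
          · linarith [hx.1]
          · linarith [hx.2]
        have h6 : (9 * (x - x₀) * (x + x₀)) ^ 2 = 81 * ((x - x₀) ^ 2 * (x + x₀) ^ 2) := by ring
        have h7 : (x - x₀) ^ 2 * (x + x₀) ^ 2 ≤ ε ^ 2 * (10 * q) ^ 2 :=
          mul_le_mul h4 h5 (by positivity) (by positivity)
        rw [h6]
        linarith
      have h8 : GG q t x ≤ t / 6 * (8100 * q ^ 2 * ε ^ 2) := by
        unfold GG
        exact mul_le_mul_of_nonneg_left (by linarith) (by positivity)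
      linarith
  rw [intervalIntegral.integral_mul_const] at hup
  set S := ∫ x in (0 : ℝ)..(5 * q), φ x with hS
  set R := ∫ x in (0 : ℝ)..(5 * q), φ x * GG q t x with hR
  have hpi : (0 : ℝ) < (2 * π) ^ 2 := by positivity
  have h9 : c * (105 * t * q * (2 * S)) ≤ 2 * R := by
    have : (2 * π) ^ 2 * (c * (105 * t * q * (2 * S))) ≤ (2 * π) ^ 2 * (2 * R) := by linarith
    exact le_of_mul_le_mul_left this hpi
  have h10 : S * (t * (105 * q * c - 1350 * q ^ 2 * ε ^ 2)) ≤ 0 := by nlinarith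
  have h11 : 0 < S * (t * (105 * q * c - 1350 * q ^ 2 * ε ^ 2)) := by
    apply mul_pos hpos
    apply mul_pos ht
    linarith
  linarith

end

end Pool.Agent.YTDA


end

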