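import Pool.Agent.YTDA.Defs
import Pool.Agent.YTDM.P34

/- source: Pool.Agent.YTDA.Pull -/

section

/-!
# Pull-back of potentials under holomorphic maps

`hess (φ ∘ t) = Jᵀ (hess φ ∘ t) J̄`, `scal (φ ∘ t + log |h|²) = scal φ ∘ t`.
-/

namespace Pool.Agent.YTDA

namespace Pl

open Complex Set Topology ContDiff ComplexOrder

noncomputable section

variable {n m : ℕ}

/-! ### Locality -/

theorem dz_congr_at {f g : E n → ℂ} {z : E n} (h : f =ᶠ[𝓝 z] g) (i : Fin n) :
    dz i f z = dz i g z := by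
  unfold dz
  rw [h.fderiv_eq]

theorem dzb_congr_at {f g : E n → ℂ} {z : E n} (h : f =ᶠ[𝓝 z] g) (i : Fin n) :
    dzb i f z = dzb i g z := by
  unfold dzb
  rw [h.fderiv_eq]

theorem dzb_eventuallyEq {f g : E n → ℂ} {z : E n} (h : f =ᶠ[𝓝 z] g) (i : Fin n) :
    dzb i f =ᶠ[𝓝 z] dzb i g := by
  filter_upwards [h.eventuallyEq_nhds] with w hw
  exact dzb_congr_at hw i

theorem dz_eventuallyEq {f g : E n → ℂ} {z : E n} (h : f =ᶠ[𝓝 z] g) (i : Fin n) :
    dz i f =ᶠ[𝓝 z] dz i g := by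
  filter_upwards [h.eventuallyEq_nhds] with w hw
  exact dz_congr_at hw i

theorem hess_congr {φ ψ : E n → ℝ} {z : E n} (h : φ =ᶠ[𝓝 z] ψ) : hess φ z = hess ψ z := by
  ext i j
  unfold hess
  apply dz_congr_at
  apply dzb_eventuallyEq
  filter_upwards [h] with w hw
  rw [hw]

theorem hess_eventuallyEq {φ ψ : E n → ℝ} {z : E n} (h : φ =ᶠ[𝓝 z] ψ) :
    hess φ =ᶠ[𝓝 z] hess ψ := by
  filter_upwards [h.eventuallyEq_nhds] with w hw
  exact hess_congr hw

theorem logdet_eventuallyEq {φ ψ : E n → ℝ} {z : E n} (h : φ =ᶠ[𝓝 z] ψ) :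
    logdet φ =ᶠ[𝓝 z] logdet ψ := by
  filter_upwards [hess_eventuallyEq h] with w hw
  unfold logdet
  rw [hw]

theorem scal_congr {φ ψ : E n → ℝ} {z : E n} (h : φ =ᶠ[𝓝 z] ψ) : scal φ z = scal ψ z := by
  unfold scal
  rw [hess_congr h, hess_congr (logdet_eventuallyEq h)]

/-! ### Smoothness -/

theorem _root_.ContDiffAt.fderiv_apply_const {F : Type*} [NormedAddCommGroup F] [NormedSpace ℝ F]
    {f : E n → F} {z : E n} (hf : ContDiffAt ℝ ∞ f z) (v : E n) :
    ContDiffAt ℝ ∞ (fun w => fderiv ℝ f w v) z :=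
  (hf.fderiv_right (m := ∞) (by norm_cast)).clm_apply contDiffAt_const

theorem contDiffAt_dz {f : E n → ℂ} {z : E n} (hf : ContDiffAt ℝ ∞ f z) (i : Fin n) :
    ContDiffAt ℝ ∞ (dz i f) z := by
  have : dz i f = fun z => (fderiv ℝ f z (Pi.single i 1) - I * fderiv ℝ f z (Pi.single i I)) / 2 :=
    rfl
  rw [this]
  exact ((hf.fderiv_apply_const _).sub (contDiffAt_const.mul (hf.fderiv_apply_const _))).div_const _

theorem contDiffAt_dzb {f : E n → ℂ} {z : E n} (hf : ContDiffAt ℝ ∞ f z) (i : Fin n) :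
    ContDiffAt ℝ ∞ (dzb i f) z := by
  have : dzb i f = fun z => (fderiv ℝ f z (Pi.single i 1) + I * fderiv ℝ f z (Pi.single i I)) / 2 :=
    rfl
  rw [this]
  exact ((hf.fderiv_apply_const _).add (contDiffAt_const.mul (hf.fderiv_apply_const _))).div_const _

theorem contDiffAt_ofReal {φ : E n → ℝ} {z : E n} (hφ : ContDiffAt ℝ ∞ φ z) :
    ContDiffAt ℝ ∞ (fun w => (φ w : ℂ)) z :=
  (Complex.ofRealCLM.contDiff.contDiffAt).comp z hφ

theorem contDiffAt_hess {φ : E n → ℝ} {z : E n} (hφ : ContDiffAt ℝ ∞ φ z) (i j : Fin n) :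
    ContDiffAt ℝ ∞ (fun w => hess φ w i j) z :=
  contDiffAt_dz (contDiffAt_dzb (contDiffAt_ofReal hφ) j) i

theorem contDiffAt_det {M : E n → Matrix (Fin m) (Fin m) ℂ} {z : E n}
    (h : ∀ i j, ContDiffAt ℝ ∞ (fun w => M w i j) z) : ContDiffAt ℝ ∞ (fun w => (M w).det) z := by
  simp only [Matrix.det_apply]
  refine ContDiffAt.sum fun σ _ => ?_
  refine ContDiffAt.const_smul _ ?_
  exact contDiffAt_prod fun i _ => h _ _

theorem det_re_pos {M : Matrix (Fin n) (Fin n) ℂ} (h : M.PosDef) : 0 < M.det.re :=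
  (Complex.pos_iff.1 h.det_pos).1

theorem det_eq_re {M : Matrix (Fin n) (Fin n) ℂ} (h : M.PosDef) : M.det = (M.det.re : ℂ) := by
  have := (Complex.pos_iff.1 h.det_pos).2
  exact Complex.ext rfl (by simp [← this])

theorem contDiffAt_logdet {φ : E n → ℝ} {z : E n} (hφ : ContDiffAt ℝ ∞ φ z)
    (hp : (hess φ z).PosDef) : ContDiffAt ℝ ∞ (logdet φ) z := by
  have h1 : ContDiffAt ℝ ∞ (fun w => (hess φ w).det) z := contDiffAt_det fun i j =>
    contDiffAt_hess hφ i j
  have h2 : ContDiffAt ℝ ∞ (fun w => (hess φ w).det.re) z :=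
    (Complex.reCLM.contDiff.contDiffAt).comp z h1
  exact h2.log (det_re_pos hp).ne'

/-! ### Chain rules -/

/-- the (real) derivative in terms of `∂` and `∂̄` -/
theorem fderiv_eq_dz (f : E n → ℂ) (w u : E n) :
    fderiv ℝ f w u = ∑ k, (u k * dz k f w + (starRingEnd ℂ) (u k) * dzb k f w) := by
  have hu : u = ∑ k, ((u k).re • (Pi.single k 1 : E n) + (u k).im • (Pi.single k I : E n)) := by
    ext j
    rw [Finset.sum_apply, Finset.sum_eq_single j]
    · simp
    · intro k _ hk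
      simp [Pi.single_apply, hk.symm]
    · simp
  conv_lhs => rw [hu]
  rw [map_sum]
  refine Finset.sum_congr rfl fun k _ => ?_
  rw [map_add, map_smul, map_smul]
  unfold dz dzb
  set a := fderiv ℝ f w (Pi.single k 1)
  set b := fderiv ℝ f w (Pi.single k I)
  rw [real_smul, real_smul]
  have h1 : u k = (u k).re + (u k).im * I := (re_add_im _).symm
  have h2 : (starRingEnd ℂ) (u k) = (u k).re - (u k).im * I := by
    apply Complex.ext <;> simp
  linear_combination (-(a - I * b) / 2) * h1 + (-(a + I * b) / 2) * h2 + ((u k).im * b) * I_sq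

/-- the Jacobian matrix -/
def jac (t : E n → E m) (z : E n) : Matrix (Fin m) (Fin n) ℂ :=
  fun k i => fderiv ℂ t z (Pi.single i 1) k

theorem fderiv_real {F : Type*} [NormedAddCommGroup F] [NormedSpace ℂ F] {t : E n → F} {z : E n}
    (ht : DifferentiableAt ℂ t z) (v : E n) : fderiv ℝ t z v = fderiv ℂ t z v := by
  rw [ht.fderiv_restrictScalars ℝ]
  rfl

theorem single_I (i : Fin n) : (Pi.single i I : E n) = I • (Pi.single i 1 : E n) := by
  ext j
  by_cases h : j = i
  · subst h; simp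
  · simp [Pi.single_apply, h]

theorem dz_comp {t : E n → E m} {z : E n} (ht : DifferentiableAt ℂ t z) {f : E m → ℂ}
    (hf : DifferentiableAt ℝ f (t z)) (i : Fin n) :
    dz i (fun w => f (t w)) z = ∑ k, jac t z k i * dz k f (t z) := by
  have h1 : ∀ v, fderiv ℝ (fun w => f (t w)) z v = fderiv ℝ f (t z) (fderiv ℂ t z v) := by
    intro v
    have := fderiv_comp (𝕜 := ℝ) z hf (ht.restrictScalars ℝ)
    show fderiv ℝ (f ∘ t) z v = _
    rw [this, ContinuousLinearMap.comp_apply, fderiv_real ht]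
  have h2 : dz i (fun w => f (t w)) z = (fderiv ℝ (fun w => f (t w)) z (Pi.single i 1) -
      I * fderiv ℝ (fun w => f (t w)) z (Pi.single i I)) / 2 := rfl
  rw [h2, h1, h1, single_I, map_smul, fderiv_eq_dz, fderiv_eq_dz, Finset.mul_sum,
    ← Finset.sum_sub_distrib, Finset.sum_div]
  refine Finset.sum_congr rfl fun k _ => ?_
  simp only [Pi.smul_apply, smul_eq_mul, map_mul, conj_I, jac]
  linear_combination (((starRingEnd ℂ) (fderiv ℂ t z (Pi.single i 1) k) * dzb k f (t z) -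
    fderiv ℂ t z (Pi.single i 1) k * dz k f (t z)) / 2) * I_sq

theorem dzb_comp {t : E n → E m} {z : E n} (ht : DifferentiableAt ℂ t z) {f : E m → ℂ}
    (hf : DifferentiableAt ℝ f (t z)) (i : Fin n) :
    dzb i (fun w => f (t w)) z = ∑ k, (starRingEnd ℂ) (jac t z k i) * dzb k f (t z) := by
  have h1 : ∀ v, fderiv ℝ (fun w => f (t w)) z v = fderiv ℝ f (t z) (fderiv ℂ t z v) := by
    intro v
    have := fderiv_comp (𝕜 := ℝ) z hf (ht.restrictScalars ℝ)
    show fderiv ℝ (f ∘ t) z v = _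
    rw [this, ContinuousLinearMap.comp_apply, fderiv_real ht]
  have h2 : dzb i (fun w => f (t w)) z = (fderiv ℝ (fun w => f (t w)) z (Pi.single i 1) +
      I * fderiv ℝ (fun w => f (t w)) z (Pi.single i I)) / 2 := rfl
  rw [h2, h1, h1, single_I, map_smul, fderiv_eq_dz, fderiv_eq_dz, Finset.mul_sum,
    ← Finset.sum_add_distrib, Finset.sum_div]
  refine Finset.sum_congr rfl fun k _ => ?_
  simp only [Pi.smul_apply, smul_eq_mul, map_mul, conj_I, jac]
  linear_combination ((fderiv ℂ t z (Pi.single i 1) k * dz k f (t z) -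
    (starRingEnd ℂ) (fderiv ℂ t z (Pi.single i 1) k) * dzb k f (t z)) / 2) * I_sq

/-! ### Holomorphic and antiholomorphic functions -/

theorem dzb_of_holomorphic {f : E n → ℂ} {z : E n} (hf : DifferentiableAt ℂ f z) (i : Fin n) :
    dzb i f z = 0 := by
  unfold dzb
  rw [fderiv_real hf, fderiv_real hf, single_I, map_smul, smul_eq_mul]
  linear_combination (fderiv ℂ f z (Pi.single i 1) / 2) * I_sq

theorem dz_of_holomorphic {f : E n → ℂ} {z : E n} (hf : DifferentiableAt ℂ f z) (i : Fin n) :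
    dz i f z = fderiv ℂ f z (Pi.single i 1) := by
  unfold dz
  rw [fderiv_real hf, fderiv_real hf, single_I, map_smul, smul_eq_mul]
  linear_combination (-fderiv ℂ f z (Pi.single i 1) / 2) * I_sq

theorem fderiv_conj {f : E n → ℂ} {z : E n} (hf : DifferentiableAt ℝ f z) (v : E n) :
    fderiv ℝ (fun w => (starRingEnd ℂ) (f w)) z v = (starRingEnd ℂ) (fderiv ℝ f z v) := by
  have h : HasFDerivAt (fun w => (starRingEnd ℂ) (f w))
      ((conjCLE : ℂ →L[ℝ] ℂ).comp (fderiv ℝ f z)) z :=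
    (conjCLE : ℂ →L[ℝ] ℂ).hasFDerivAt.comp z hf.hasFDerivAt
  rw [h.fderiv]
  rfl

theorem dz_conj {f : E n → ℂ} {z : E n} (hf : DifferentiableAt ℝ f z) (i : Fin n) :
    dz i (fun w => (starRingEnd ℂ) (f w)) z = (starRingEnd ℂ) (dzb i f z) := by
  unfold dz dzb
  rw [fderiv_conj hf, fderiv_conj hf]
  simp only [map_div₀, map_add, map_mul, conj_I, map_ofNat]
  ring

theorem dzb_conj {f : E n → ℂ} {z : E n} (hf : DifferentiableAt ℝ f z) (i : Fin n) :
    dzb i (fun w => (starRingEnd ℂ) (f w)) z = (starRingEnd ℂ) (dz i f z) := by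
  unfold dz dzb
  rw [fderiv_conj hf, fderiv_conj hf]
  simp only [map_div₀, map_sub, map_mul, conj_I, map_ofNat]
  ring

theorem dz_mul_at {f g : E n → ℂ} {z : E n} (hf : DifferentiableAt ℝ f z)
    (hg : DifferentiableAt ℝ g z) (i : Fin n) :
    dz i (fun w => f w * g w) z = dz i f z * g z + f z * dz i g z := by
  unfold dz
  rw [fderiv_fun_mul hf hg]
  simp only [ContinuousLinearMap.add_apply, ContinuousLinearMap.smul_apply, smul_eq_mul]
  ring

theorem dz_sum {ι : Type*} (s : Finset ι) {f : ι → E n → ℂ} {z : E n}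
    (hf : ∀ k ∈ s, DifferentiableAt ℝ (f k) z) (i : Fin n) :
    dz i (fun w => ∑ k ∈ s, f k w) z = ∑ k ∈ s, dz i (f k) z := by
  unfold dz
  rw [fderiv_fun_sum hf]
  simp only [ContinuousLinearMap.sum_apply, Finset.mul_sum]
  rw [← Finset.sum_sub_distrib, Finset.sum_div]

theorem dz_add {f g : E n → ℂ} {z : E n} (hf : DifferentiableAt ℝ f z)
    (hg : DifferentiableAt ℝ g z) (i : Fin n) :
    dz i (fun w => f w + g w) z = dz i f z + dz i g z := by
  unfold dz
  rw [fderiv_fun_add hf hg]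
  simp only [ContinuousLinearMap.add_apply]
  ring

theorem dzb_add {f g : E n → ℂ} {z : E n} (hf : DifferentiableAt ℝ f z)
    (hg : DifferentiableAt ℝ g z) (i : Fin n) :
    dzb i (fun w => f w + g w) z = dzb i f z + dzb i g z := by
  unfold dzb
  rw [fderiv_fun_add hf hg]
  simp only [ContinuousLinearMap.add_apply]
  ring

/-! ### The complex Hessian -/

theorem jac_differentiableAt {t : E n → E m} {V : Set (E n)} (hV : IsOpen V)
    (ht : DifferentiableOn ℂ t V) {z : E n} (hz : z ∈ V) (k : Fin m) (j : Fin n) :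
    DifferentiableAt ℂ (fun w => jac t w k j) z := by
  have h1 := (differentiableOn_fderiv_apply hV ht (Pi.single j 1)).differentiableAt
    (hV.mem_nhds hz)
  exact (differentiableAt_pi.1 h1) k

/-- smooth near `z` -/
def SmNear (φ : E n → ℝ) (z : E n) : Prop := ∀ᶠ w in 𝓝 z, ContDiffAt ℝ ∞ φ w

theorem SmNear.at {φ : E n → ℝ} {z : E n} (h : SmNear φ z) : ContDiffAt ℝ ∞ φ z := h.self_of_nhds

theorem SmNear.eventually {φ : E n → ℝ} {z : E n} (h : SmNear φ z) :
    ∀ᶠ w in 𝓝 z, SmNear φ w := eventually_eventually_nhds.2 h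

theorem SmNear.congr {φ ψ : E n → ℝ} {z : E n} (h : SmNear φ z) (he : φ =ᶠ[𝓝 z] ψ) :
    SmNear ψ z := by
  filter_upwards [he.eventuallyEq_nhds, h] with w hw hw'
  exact hw'.congr_of_eventuallyEq hw.symm

theorem SmNear.of_contDiffOn {φ : E n → ℝ} {U : Set (E n)} (hU : IsOpen U)
    (h : ContDiffOn ℝ ∞ φ U) {z : E n} (hz : z ∈ U) : SmNear φ z := by
  filter_upwards [hU.mem_nhds hz] with w hw
  exact h.contDiffAt (hU.mem_nhds hw)

theorem SmNear.add {φ ψ : E n → ℝ} {z : E n} (h : SmNear φ z) (h' : SmNear ψ z) :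
    SmNear (fun w => φ w + ψ w) z := by
  filter_upwards [h, h'] with w hw hw'
  exact hw.add hw'

theorem SmNear.comp {t : E n → E m} {V : Set (E n)} (hV : IsOpen V)
    (ht : DifferentiableOn ℂ t V) {z : E n} (hz : z ∈ V) {φ : E m → ℝ}
    (hφ : SmNear φ (t z)) : SmNear (fun w => φ (t w)) z := by
  have htz : DifferentiableAt ℂ t z := ht.differentiableAt (hV.mem_nhds hz)
  filter_upwards [htz.continuousAt.eventually hφ, hV.mem_nhds hz] with w hw hwV
  exact hw.comp w ((contDiffOn_real_of_differentiableOn hV ht).contDiffAt (hV.mem_nhds hwV))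

theorem hess_comp {t : E n → E m} {V : Set (E n)} (hV : IsOpen V)
    (ht : DifferentiableOn ℂ t V) {z : E n} (hz : z ∈ V) {φ : E m → ℝ}
    (hφ : SmNear φ (t z)) :
    hess (fun w => φ (t w)) z =
      (jac t z).transpose * hess φ (t z) * (jac t z).map (starRingEnd ℂ) := by
  have htz : DifferentiableAt ℂ t z := ht.differentiableAt (hV.mem_nhds hz)
  have hφc := contDiffAt_ofReal hφ.at
  have hev : ∀ᶠ w in 𝓝 (t z), ContDiffAt ℝ ∞ (fun w => (φ w : ℂ)) w := by
    filter_upwards [hφ] with w hw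
    exact contDiffAt_ofReal hw
  have hev2 : ∀ᶠ w in 𝓝 z, ContDiffAt ℝ ∞ (fun w => (φ w : ℂ)) (t w) :=
    htz.continuousAt.eventually hev
  ext i j
  have h1 : dzb j (fun w => ((φ (t w) : ℝ) : ℂ)) =ᶠ[𝓝 z] fun w =>
      ∑ k, (starRingEnd ℂ) (jac t w k j) * dzb k (fun w => (φ w : ℂ)) (t w) := by
    filter_upwards [hev2, hV.mem_nhds hz] with w hw hwV
    exact dzb_comp (ht.differentiableAt (hV.mem_nhds hwV)) (hw.differentiableAt (by simp)) j
  have h2 : hess (fun w => φ (t w)) z i j = dz i (fun w =>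
      ∑ k, (starRingEnd ℂ) (jac t w k j) * dzb k (fun w => (φ w : ℂ)) (t w)) z :=
    dz_congr_at h1 i
  have hdj : ∀ k, DifferentiableAt ℝ (fun w => jac t w k j) z := fun k =>
    (jac_differentiableAt hV ht hz k j).restrictScalars ℝ
  have hdc : ∀ k, DifferentiableAt ℝ (fun w => (starRingEnd ℂ) (jac t w k j)) z := fun k =>
    (conjCLE : ℂ →L[ℝ] ℂ).differentiableAt.comp z (hdj k)
  have hdp0 : ∀ k, DifferentiableAt ℝ (dzb k (fun w => (φ w : ℂ))) (t z) := fun k =>
    (contDiffAt_dzb hφc k).differentiableAt (by simp)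
  have hdp : ∀ k, DifferentiableAt ℝ (fun w => dzb k (fun w => (φ w : ℂ)) (t w)) z := fun k =>
    (hdp0 k).comp z (htz.restrictScalars ℝ)
  rw [h2, dz_sum (f := fun k w => (starRingEnd ℂ) (jac t w k j) *
    dzb k (fun w => (φ w : ℂ)) (t w)) _ (fun k _ => (hdc k).mul (hdp k))]
  rw [Matrix.mul_apply]
  refine Finset.sum_congr rfl fun k _ => ?_
  rw [dz_mul_at (hdc k) (hdp k), dz_conj (hdj k), dzb_of_holomorphic (jac_differentiableAt hV ht hz k j),
    map_zero, zero_mul, zero_add, dz_comp htz (hdp0 k), Matrix.mul_apply, Matrix.map_apply,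
    mul_comm]
  congr 1

theorem hess_add {φ ψ : E n → ℝ} {z : E n} (h : SmNear φ z) (h' : SmNear ψ z) :
    hess (fun w => φ w + ψ w) z = hess φ z + hess ψ z := by
  ext i j
  have h1 : dzb j (fun w => ((φ w + ψ w : ℝ) : ℂ)) =ᶠ[𝓝 z] fun w =>
      dzb j (fun w => (φ w : ℂ)) w + dzb j (fun w => (ψ w : ℂ)) w := by
    filter_upwards [h, h'] with w hw hw'
    rw [← dzb_add ((contDiffAt_ofReal hw).differentiableAt (by simp))
      ((contDiffAt_ofReal hw').differentiableAt (by simp))]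
    simp only [ofReal_add]
  have h2 : hess (fun w => φ w + ψ w) z i j = dz i (fun w =>
      dzb j (fun w => (φ w : ℂ)) w + dzb j (fun w => (ψ w : ℂ)) w) z := dz_congr_at h1 i
  rw [h2, dz_add ((contDiffAt_dzb (contDiffAt_ofReal h.at) j).differentiableAt (by simp))
    ((contDiffAt_dzb (contDiffAt_ofReal h'.at) j).differentiableAt (by simp))]
  rfl

/-! ### Pluriharmonic functions -/

theorem smNear_log_norm {g : E n → ℂ} {V : Set (E n)} (hV : IsOpen V)
    (hg : DifferentiableOn ℂ g V) (h0 : ∀ w ∈ V, g w ≠ 0) {z : E n} (hz : z ∈ V) :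
    SmNear (fun w => Real.log (‖g w‖ ^ 2)) z := by
  filter_upwards [hV.mem_nhds hz] with w hw
  have h1 : ContDiffAt ℝ ∞ g w :=
    (contDiffOn_real_of_differentiableOn hV hg).contDiffAt (hV.mem_nhds hw)
  exact (h1.norm_sq ℝ).log (by simpa using h0 w hw)

theorem dzb_log_norm {g : E n → ℂ} {z : E n} (hg : DifferentiableAt ℂ g z) (h0 : g z ≠ 0)
    (j : Fin n) : dzb j (fun w => ((Real.log (‖g w‖ ^ 2) : ℝ) : ℂ)) z =
      (starRingEnd ℂ) (fderiv ℂ g z (Pi.single j 1) / g z) := by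
  have hgR : HasFDerivAt g (fderiv ℝ g z) z := (hg.restrictScalars ℝ).hasFDerivAt
  have h1 : HasFDerivAt (fun w => ‖g w‖ ^ 2) (2 • (innerSL ℝ (g z)).comp (fderiv ℝ g z)) z :=
    hgR.norm_sq
  have h2 : HasFDerivAt (fun w => Real.log (‖g w‖ ^ 2))
      ((‖g z‖ ^ 2)⁻¹ • (2 • (innerSL ℝ (g z)).comp (fderiv ℝ g z))) z :=
    h1.log (by simpa using h0)
  have h3 : HasFDerivAt (fun w => ((Real.log (‖g w‖ ^ 2) : ℝ) : ℂ))
      (Complex.ofRealCLM.comp ((‖g z‖ ^ 2)⁻¹ • (2 • (innerSL ℝ (g z)).comp (fderiv ℝ g z)))) z :=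
    Complex.ofRealCLM.hasFDerivAt.comp z h2
  have key : ∀ v, fderiv ℝ (fun w => ((Real.log (‖g w‖ ^ 2) : ℝ) : ℂ)) z v =
      fderiv ℂ g z v / g z + (starRingEnd ℂ) (fderiv ℂ g z v / g z) := by
    intro v
    rw [h3.fderiv]
    have h4 : fderiv ℝ g z v = fderiv ℂ g z v := fderiv_real hg v
    have hn : ((‖g z‖ ^ 2 : ℝ) : ℂ) = g z * (starRingEnd ℂ) (g z) := by
      rw [mul_conj, normSq_eq_norm_sq]
    have hc : (starRingEnd ℂ) (g z) ≠ 0 := by simpa using h0
    rw [Complex.add_conj]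
    have h5 : (Complex.ofRealCLM.comp ((‖g z‖ ^ 2)⁻¹ • (2 • (innerSL ℝ (g z)).comp
        (fderiv ℝ g z)))) v = (((‖g z‖ ^ 2)⁻¹ * (2 * inner ℝ (g z) (fderiv ℂ g z v)) : ℝ) : ℂ) := by
      simp [h4]
      ring
    rw [h5]
    congr 1
    rw [Complex.inner]
    have h6 : fderiv ℂ g z v / g z = ((starRingEnd ℂ) (g z) * fderiv ℂ g z v) /
        ((‖g z‖ ^ 2 : ℝ) : ℂ) := by
      rw [hn]; field_simp
    rw [h6, Complex.div_ofReal_re]
    ring
  unfold dzb
  rw [key, key, single_I, map_smul, smul_eq_mul]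
  simp only [map_div₀, map_mul, conj_I]
  have hc : (starRingEnd ℂ) (g z) ≠ 0 := by simpa using h0
  field_simp
  linear_combination (fderiv ℂ g z (Pi.single j 1) * (starRingEnd ℂ) (g z) -
    (starRingEnd ℂ) (fderiv ℂ g z (Pi.single j 1)) * g z) * I_sq

theorem hess_log_norm {g : E n → ℂ} {V : Set (E n)} (hV : IsOpen V)
    (hg : DifferentiableOn ℂ g V) (h0 : ∀ w ∈ V, g w ≠ 0) {z : E n} (hz : z ∈ V) :
    hess (fun w => Real.log (‖g w‖ ^ 2)) z = 0 := by
  ext i j
  have h1 : dzb j (fun w => ((Real.log (‖g w‖ ^ 2) : ℝ) : ℂ)) =ᶠ[𝓝 z] fun w =>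
      (starRingEnd ℂ) (fderiv ℂ g w (Pi.single j 1) / g w) := by
    filter_upwards [hV.mem_nhds hz] with w hw
    exact dzb_log_norm (hg.differentiableAt (hV.mem_nhds hw)) (h0 w hw) j
  have h2 : DifferentiableAt ℂ (fun w => fderiv ℂ g w (Pi.single j 1) / g w) z := by
    simp only [div_eq_mul_inv]
    exact ((differentiableOn_fderiv_apply hV hg _).differentiableAt (hV.mem_nhds hz)).fun_mul
      ((hg.differentiableAt (hV.mem_nhds hz)).inv (h0 z hz))
  have h3 : hess (fun w => Real.log (‖g w‖ ^ 2)) z i j = dz i (fun w =>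
      (starRingEnd ℂ) (fderiv ℂ g w (Pi.single j 1) / g w)) z := dz_congr_at h1 i
  rw [h3, dz_conj (h2.restrictScalars ℝ), dzb_of_holomorphic h2, map_zero]
  rfl

/-! ### The scalar curvature -/

theorem map_conj_eq (M : Matrix (Fin n) (Fin n) ℂ) :
    M.transpose = (M.map (starRingEnd ℂ)).conjTranspose := by
  ext i j
  simp [Matrix.conjTranspose_apply]

theorem posDef_comp {M J : Matrix (Fin n) (Fin n) ℂ} (hM : M.PosDef) (hJ : J.det ≠ 0) :
    (J.transpose * M * J.map (starRingEnd ℂ)).PosDef := by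
  rw [map_conj_eq]
  apply hM.conjTranspose_mul_mul_same
  rw [Matrix.mulVec_injective_iff_isUnit, Matrix.isUnit_iff_isUnit_det, isUnit_iff_ne_zero]
  have : (J.map (starRingEnd ℂ)).det = (starRingEnd ℂ) J.det := by
    rw [RingHom.map_det]; rfl
  rw [this]
  simpa using hJ

theorem det_comp_re {M J : Matrix (Fin n) (Fin n) ℂ} (hM : M.PosDef) :
    (J.transpose * M * J.map (starRingEnd ℂ)).det.re = ‖J.det‖ ^ 2 * M.det.re := by
  have : (J.map (starRingEnd ℂ)).det = (starRingEnd ℂ) J.det := by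
    rw [RingHom.map_det]; rfl
  rw [Matrix.det_mul, Matrix.det_mul, Matrix.det_transpose, this, det_eq_re hM]
  have h2 : J.det * (M.det.re : ℂ) * (starRingEnd ℂ) J.det =
      ((‖J.det‖ ^ 2 * M.det.re : ℝ) : ℂ) := by
    rw [ofReal_mul, ← normSq_eq_norm_sq, ← mul_conj]; ring
  rw [h2, ofReal_re, ofReal_re]

theorem sum_inv_eq_trace (M R : Matrix (Fin n) (Fin n) ℂ) :
    ∑ i, ∑ j, M⁻¹ j i * R i j = (M⁻¹ * R).trace := by
  rw [Finset.sum_comm]
  rfl

theorem trace_comp {M R J : Matrix (Fin n) (Fin n) ℂ} (hM : M.det ≠ 0) (hJ : J.det ≠ 0) :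
    ((J.transpose * M * J.map (starRingEnd ℂ))⁻¹ *
      (J.transpose * R * J.map (starRingEnd ℂ))).trace = (M⁻¹ * R).trace := by
  have hJt : IsUnit J.transpose.det := by rw [Matrix.det_transpose]; exact hJ.isUnit
  have hJc : IsUnit (J.map (starRingEnd ℂ)).det := by
    have : (J.map (starRingEnd ℂ)).det = (starRingEnd ℂ) J.det := by
      rw [RingHom.map_det]; rfl
    rw [this, isUnit_iff_ne_zero]
    simpa using hJ
  rw [Matrix.mul_inv_rev, Matrix.mul_inv_rev]
  have h1 : (J.map (starRingEnd ℂ))⁻¹ * (M⁻¹ * J.transpose⁻¹) *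
      (J.transpose * R * J.map (starRingEnd ℂ)) =
      (J.map (starRingEnd ℂ))⁻¹ * ((M⁻¹ * R) * J.map (starRingEnd ℂ)) := by
    have : J.transpose⁻¹ * J.transpose = 1 := Matrix.nonsing_inv_mul _ hJt
    calc _ = (J.map (starRingEnd ℂ))⁻¹ * (M⁻¹ * (J.transpose⁻¹ * J.transpose) * R *
        J.map (starRingEnd ℂ)) := by simp only [Matrix.mul_assoc]
      _ = _ := by rw [this, Matrix.mul_one]
  rw [h1, Matrix.trace_mul_comm, Matrix.mul_assoc, Matrix.mul_nonsing_inv _ hJc, Matrix.mul_one]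

/-- the potential `φ ∘ t + log |h|²` -/
def ppull (t : E n → E m) (h : E n → ℂ) (φ : E m → ℝ) (w : E n) : ℝ :=
  Real.log (‖h w‖ ^ 2) + φ (t w)

theorem smNear_pull {t : E n → E m} {h : E n → ℂ} {V : Set (E n)} (hV : IsOpen V)
    (ht : DifferentiableOn ℂ t V) (hh : DifferentiableOn ℂ h V) (h0 : ∀ w ∈ V, h w ≠ 0)
    {z : E n} (hz : z ∈ V) {φ : E m → ℝ} (hφ : SmNear φ (t z)) : SmNear (ppull t h φ) z :=
  (smNear_log_norm hV hh h0 hz).add (SmNear.comp hV ht hz hφ)

theorem hess_ppull {t : E n → E m} {h : E n → ℂ} {V : Set (E n)} (hV : IsOpen V)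
    (ht : DifferentiableOn ℂ t V) (hh : DifferentiableOn ℂ h V) (h0 : ∀ w ∈ V, h w ≠ 0)
    {z : E n} (hz : z ∈ V) {φ : E m → ℝ} (hφ : SmNear φ (t z)) :
    hess (ppull t h φ) z =
      (jac t z).transpose * hess φ (t z) * (jac t z).map (starRingEnd ℂ) := by
  have := hess_add (smNear_log_norm hV hh h0 hz) (SmNear.comp hV ht hz hφ)
  rw [hess_log_norm hV hh h0 hz, zero_add, hess_comp hV ht hz hφ] at this
  exact this

theorem jac_det_differentiableOn {t : E n → E n} {V : Set (E n)} (hV : IsOpen V)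
    (ht : DifferentiableOn ℂ t V) : DifferentiableOn ℂ (fun w => (jac t w).det) V := by
  intro w hw
  refine DifferentiableAt.differentiableWithinAt ?_
  simp only [Matrix.det_apply]
  refine DifferentiableAt.fun_sum fun σ _ => ?_
  refine DifferentiableAt.const_smul ?_ _
  have h := HasFDerivAt.finsetProd (u := Finset.univ) (g := fun i w => jac t w (σ i) i)
    (x := w) (fun i _ => (jac_differentiableAt hV ht hw (σ i) i).hasFDerivAt)
  exact h.differentiableAt

theorem ppull_apply (t : E n → E m) (h : E n → ℂ) (φ : E m → ℝ) (w : E n) :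
    ppull t h φ w = Real.log (‖h w‖ ^ 2) + φ (t w) := rfl

theorem logdet_apply (φ : E n → ℝ) (z : E n) : logdet φ z = Real.log ((hess φ z).det.re) := rfl

theorem logdet_pull {t : E n → E n} {h : E n → ℂ} {V : Set (E n)} (hV : IsOpen V)
    (ht : DifferentiableOn ℂ t V) (hh : DifferentiableOn ℂ h V) (h0 : ∀ w ∈ V, h w ≠ 0)
    (hJ : ∀ w ∈ V, (jac t w).det ≠ 0)
    {z : E n} (hz : z ∈ V) {φ : E n → ℝ} (hφ : SmNear φ (t z)) (hp : (hess φ (t z)).PosDef) :
    logdet (ppull t h φ) z = ppull t (fun w => (jac t w).det) (logdet φ) z := by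
  rw [logdet_apply, ppull_apply, logdet_apply, hess_ppull hV ht hh h0 hz hφ, det_comp_re hp,
    Real.log_mul (by simpa using hJ z hz) (det_re_pos hp).ne']

theorem scal_pull {t : E n → E n} {h : E n → ℂ} {V : Set (E n)} (hV : IsOpen V)
    (ht : DifferentiableOn ℂ t V) (hh : DifferentiableOn ℂ h V) (h0 : ∀ w ∈ V, h w ≠ 0)
    (hJ : ∀ w ∈ V, (jac t w).det ≠ 0)
    {z : E n} (hz : z ∈ V) {φ : E n → ℝ} (hφ : SmNear φ (t z))
    (hp : ∀ᶠ w in 𝓝 (t z), (hess φ w).PosDef) :
    scal (ppull t h φ) z = scal φ (t z) := by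
  have htc : ContinuousAt t z := (ht.differentiableAt (hV.mem_nhds hz)).continuousAt
  have hld : SmNear (logdet φ) (t z) := by
    filter_upwards [hφ, hp] with w hw hw'
    exact contDiffAt_logdet hw hw'
  have hev : logdet (ppull t h φ) =ᶠ[𝓝 z] ppull t (fun w => (jac t w).det) (logdet φ) := by
    filter_upwards [htc.eventually hφ.eventually, htc.eventually hp, hV.mem_nhds hz] with w h1 h2 h3
    exact logdet_pull hV ht hh h0 hJ h3 h1 h2
  unfold scal
  rw [hess_congr hev, hess_ppull hV ht hh h0 hz hφ,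
    hess_ppull hV ht (jac_det_differentiableOn hV ht) hJ hz hld, sum_inv_eq_trace,
    sum_inv_eq_trace, trace_comp hp.self_of_nhds.det_pos.ne' (hJ z hz)]

end

end Pl

end Pool.Agent.YTDA


end

/- source: Pool.Agent.YTDA.LogPole -/

section

/-!
# T13(a): integrals with simple poles in one chart
-/

namespace Pool.Agent.YTDA

open Complex Set Topology ContDiff MeasureTheory Real

noncomputable section

/-! ## One variable -/

/-- polar coordinates -/
theorem integral_polar (f : ℂ → ℂ) :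
    ∫ z, f z = ∫ p in Ioi (0 : ℝ) ×ˢ Ioo (-π) π, (p.1 : ℂ) * f (p.1 * exp (p.2 * I)) := by
  rw [← Complex.integral_comp_polarCoord_symm]
  rw [show polarCoord.target = Ioi (0 : ℝ) ×ˢ Ioo (-π) π from rfl]
  congr 1
  ext p
  rw [Complex.polarCoord_symm_apply, exp_mul_I, Complex.real_smul]
  simp

theorem lintegral_polar (f : ℂ → ENNReal) :
    ∫⁻ z, f z = ∫⁻ p in Ioi (0 : ℝ) ×ˢ Ioo (-π) π,
      ENNReal.ofReal p.1 * f (p.1 * exp (p.2 * I)) := by
  rw [← Complex.lintegral_comp_polarCoord_symm]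
  rw [show polarCoord.target = Ioi (0 : ℝ) ×ˢ Ioo (-π) π from rfl]
  congr 1
  ext p
  rw [Complex.polarCoord_symm_apply, exp_mul_I]
  simp

/-- a function with compact support vanishes outside a ball -/
theorem exists_radius {V : Type*} [NormedAddCommGroup V] {F : Type*} [Zero F] {f : V → F}
    (hf : HasCompactSupport f) : ∃ R : ℝ, 0 < R ∧ ∀ x, R ≤ ‖x‖ → f x = 0 := by
  obtain ⟨R, hR⟩ := hf.isBounded.subset_ball (0 : V)
  refine ⟨max R 1, lt_max_of_lt_right one_pos, fun x hx => ?_⟩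
  by_contra h
  have h1 := hR (subset_tsupport f h)
  rw [mem_ball_zero_iff] at h1
  exact absurd (le_trans (le_max_left R 1) hx) (not_le.2 h1)

/-- the integral of `1/|z|` over a disc is finite -/
theorem integrable_inv_disc (R : ℝ) :
    Integrable (fun z : ℂ => (Metric.ball (0 : ℂ) R).indicator (fun z => ‖z‖⁻¹) z) := by
  refine ⟨?_, ?_⟩
  · exact ((measurable_norm.inv).indicator measurableSet_ball).aestronglyMeasurable
  · rw [HasFiniteIntegral, lintegral_polar]
    have h1 : ∀ p ∈ Ioi (0 : ℝ) ×ˢ Ioo (-π) π,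
        ENNReal.ofReal p.1 * ‖(Metric.ball (0 : ℂ) R).indicator (fun z => ‖z‖⁻¹)
          (p.1 * exp (p.2 * I))‖ₑ ≤ (Ioo (0 : ℝ) R ×ˢ Ioo (-π) π).indicator (fun _ => 1) p := by
      rintro ⟨r, θ⟩ ⟨hr, hθ⟩
      simp only [mem_Ioi] at hr
      by_cases h : r < R
      · have h2 : (r, θ) ∈ Ioo (0 : ℝ) R ×ˢ Ioo (-π) π := ⟨⟨hr, h⟩, hθ⟩
        have h3 : (r : ℂ) * exp (θ * I) ∈ Metric.ball (0 : ℂ) R := by
          rw [mem_ball_zero_iff, norm_mul, norm_exp_ofReal_mul_I, mul_one, Complex.norm_real,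
            Real.norm_eq_abs, abs_of_pos hr]
          exact h
        rw [indicator_of_mem h2, indicator_of_mem h3, norm_mul, norm_exp_ofReal_mul_I, mul_one,
          Complex.norm_real, Real.norm_eq_abs, abs_of_pos hr, Real.enorm_eq_ofReal (by positivity),
          ← ENNReal.ofReal_mul hr.le, mul_inv_cancel₀ hr.ne']
        simp
      · have h3 : (r : ℂ) * exp (θ * I) ∉ Metric.ball (0 : ℂ) R := by
          rw [mem_ball_zero_iff, norm_mul, norm_exp_ofReal_mul_I, mul_one, Complex.norm_real,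
            Real.norm_eq_abs, abs_of_pos hr]
          exact h
        rw [indicator_of_notMem h3]
        simp
    refine lt_of_le_of_lt (setLIntegral_mono' (measurableSet_Ioi.prod measurableSet_Ioo) h1) ?_
    refine lt_of_le_of_lt (setLIntegral_le_lintegral _ _) ?_
    rw [lintegral_indicator (measurableSet_Ioo.prod measurableSet_Ioo), lintegral_const, one_mul,
      Measure.restrict_apply_univ, Measure.volume_eq_prod, Measure.prod_prod, Real.volume_Ioo,
      Real.volume_Ioo]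
    exact ENNReal.mul_lt_top ENNReal.ofReal_lt_top ENNReal.ofReal_lt_top

/-- `1/|z|` is locally integrable -/
theorem integrable_bound_one {K : ℂ → ℂ} (hK : Measurable K) {C R : ℝ} (hC : ∀ z, ‖K z‖ ≤ C)
    (hR : ∀ z, R ≤ ‖z‖ → K z = 0) (L : ℂ → ℂ) (hL : Measurable L) (hLn : ∀ z, ‖L z‖ = ‖z‖) :
    Integrable (fun z => K z / L z) := by
  refine ((integrable_inv_disc R).const_mul C).mono' (hK.div hL).aestronglyMeasurable ?_
  refine Filter.Eventually.of_forall fun z => ?_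
  by_cases h : ‖z‖ < R
  · have h3 : z ∈ Metric.ball (0 : ℂ) R := mem_ball_zero_iff.2 h
    rw [indicator_of_mem h3, norm_div, hLn, div_eq_mul_inv]
    exact mul_le_mul_of_nonneg_right (hC z) (by positivity)
  · have h3 : z ∉ Metric.ball (0 : ℂ) R := fun h' => h (mem_ball_zero_iff.1 h')
    rw [indicator_of_notMem h3, hR z (not_lt.1 h)]
    simp

theorem integrable_div_one {K : ℂ → ℂ} (hK : Continuous K) (hc : HasCompactSupport K) :
    Integrable (fun z => K z / (starRingEnd ℂ) z) := by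
  obtain ⟨C, hC⟩ := hc.exists_bound_of_continuous hK
  obtain ⟨R, _, hR⟩ := exists_radius hc
  exact integrable_bound_one hK.measurable hC hR _ continuous_conj.measurable
    (fun z => RCLike.norm_conj z)

/-- The fundamental formula. -/
theorem integral_dz_div_one (w : ℂ → ℂ) (hw : ContDiff ℝ 1 w) (hc : HasCompactSupport w) :
    ∫ z : ℂ, ((fderiv ℝ w z 1 - I * fderiv ℝ w z I) / 2) / (starRingEnd ℂ) z = - π * w 0 := by
  have hD : Continuous (fderiv ℝ w) := hw.continuous_fderiv one_ne_zero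
  have hDc : HasCompactSupport (fderiv ℝ w) := hc.fderiv ℝ
  obtain ⟨R, hR0, hR⟩ := exists_radius hDc
  obtain ⟨R', hR0', hR'⟩ := exists_radius hc
  set e : ℝ → ℂ := fun θ => exp (θ * I) with he
  have hecont : Continuous e := by fun_prop
  set G1 : ℝ × ℝ → ℂ := fun p => fderiv ℝ w (p.1 * e p.2) (e p.2) with hG1
  set G2 : ℝ × ℝ → ℂ := fun p => fderiv ℝ w (p.1 * e p.2) (I * e p.2) with hG2
  have hG1c : Continuous G1 := by
    have h1 : Continuous fun p : ℝ × ℝ => ((p.1 : ℂ) * e p.2) := by fun_prop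
    exact (hD.comp h1).clm_apply (by fun_prop)
  have hG2c : Continuous G2 := by
    have h1 : Continuous fun p : ℝ × ℝ => ((p.1 : ℂ) * e p.2) := by fun_prop
    exact (hD.comp h1).clm_apply (by fun_prop)
  have hnorm : ∀ r θ : ℝ, 0 < r → ‖(r : ℂ) * e θ‖ = r := by
    intro r θ hr
    rw [he]
    simp only
    rw [norm_mul, norm_exp_ofReal_mul_I, mul_one, Complex.norm_real, Real.norm_eq_abs,
      abs_of_pos hr]
  have hint : ∀ G : ℝ × ℝ → ℂ, Continuous G → (∀ p : ℝ × ℝ, R ≤ p.1 → G p = 0) →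
      IntegrableOn G (Ioi (0 : ℝ) ×ˢ Ioo (-π) π) := by
    intro G hG hG0
    have h1 : IntegrableOn G (Icc (0 : ℝ) R ×ˢ Icc (-π) π) :=
      hG.continuousOn.integrableOn_compact (isCompact_Icc.prod isCompact_Icc)
    have h2 : IntegrableOn G (Ioi (R : ℝ) ×ˢ Ioo (-π) π) := by
      refine IntegrableOn.congr_fun (f := fun _ => 0) (by simp) ?_
        (measurableSet_Ioi.prod measurableSet_Ioo)
      rintro p ⟨hp, -⟩
      exact (hG0 p (le_of_lt hp)).symm
    refine (h1.union h2).mono_set ?_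
    rintro ⟨r, θ⟩ ⟨hr, hθ⟩
    simp only [mem_Ioi] at hr
    rcases le_or_gt r R with h | h
    · exact Or.inl ⟨⟨hr.le, h⟩, ⟨hθ.1.le, hθ.2.le⟩⟩
    · exact Or.inr ⟨h, hθ⟩
  have hI1 : IntegrableOn G1 (Ioi (0 : ℝ) ×ˢ Ioo (-π) π) := hint G1 hG1c (by
    intro p hp
    rw [hG1]
    simp only
    rw [hR _ (by rw [hnorm _ _ (lt_of_lt_of_le hR0 hp)]; exact hp)]
    rfl)
  have hI2 : IntegrableOn G2 (Ioi (0 : ℝ) ×ˢ Ioo (-π) π) := hint G2 hG2c (by
    intro p hp
    rw [hG2]
    simp only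
    rw [hR _ (by rw [hnorm _ _ (lt_of_lt_of_le hR0 hp)]; exact hp)]
    rfl)
  -- the integrand in polar coordinates
  have hkey : ∀ p ∈ Ioi (0 : ℝ) ×ˢ Ioo (-π) π,
      (p.1 : ℂ) * (((fderiv ℝ w (p.1 * exp (p.2 * I)) 1
        - I * fderiv ℝ w (p.1 * exp (p.2 * I)) I) / 2) /
        (starRingEnd ℂ) (p.1 * exp (p.2 * I))) = (G1 p - I * G2 p) / 2 := by
    rintro ⟨r, θ⟩ ⟨hr, -⟩
    simp only [mem_Ioi] at hr
    have hr' : (r : ℂ) ≠ 0 := by exact_mod_cast hr.ne'
    have hconj : (starRingEnd ℂ) (exp (θ * I)) * exp (θ * I) = 1 := by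
      rw [← exp_conj, ← Complex.exp_add]
      simp
    have hexp : exp (θ * I) ≠ 0 := exp_ne_zero _
    have hconj0 : (starRingEnd ℂ) (exp (θ * I)) ≠ 0 := by
      intro h
      rw [h, zero_mul] at hconj
      exact zero_ne_one hconj
    rw [hG1, hG2, he]
    simp only
    set z : ℂ := r * exp (θ * I) with hz
    have hx : exp (θ * I) = (Real.cos θ : ℝ) • (1 : ℂ) + (Real.sin θ : ℝ) • I := by
      rw [exp_mul_I]
      simp
    have hy : I * exp (θ * I) = (-Real.sin θ : ℝ) • (1 : ℂ) + (Real.cos θ : ℝ) • I := by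
      rw [exp_mul_I]
      simp only [Complex.real_smul, ofReal_neg, ofReal_sin, ofReal_cos, mul_one]
      linear_combination (sin (θ : ℂ)) * I_mul_I
    have e1 : fderiv ℝ w z (exp (θ * I)) =
        (Real.cos θ : ℂ) * fderiv ℝ w z 1 + (Real.sin θ : ℂ) * fderiv ℝ w z I := by
      rw [hx, map_add, map_smul, map_smul, Complex.real_smul, Complex.real_smul]
    have e2 : fderiv ℝ w z (I * exp (θ * I)) =
        (-Real.sin θ : ℂ) * fderiv ℝ w z 1 + (Real.cos θ : ℂ) * fderiv ℝ w z I := by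
      rw [hy, map_add, map_smul, map_smul, Complex.real_smul, Complex.real_smul, ofReal_neg]
    rw [e1, e2, hz, map_mul, conj_ofReal]
    have hinv : ((starRingEnd ℂ) (exp (θ * I)))⁻¹ = Real.cos θ + Real.sin θ * I := by
      rw [inv_eq_of_mul_eq_one_right hconj, exp_mul_I]
      simp
    rw [mul_div_assoc', div_mul_eq_div_div, mul_div_cancel_left₀ _ hr', div_eq_mul_inv _
      ((starRingEnd ℂ) (exp (θ * I))), hinv]
    linear_combination (-(Real.sin θ : ℂ) * fderiv ℝ w (↑r * exp (↑θ * I)) I / 2) * I_mul_I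
  rw [integral_polar, setIntegral_congr_fun (measurableSet_Ioi.prod measurableSet_Ioo) hkey]
  have hsplit : ∫ p in Ioi (0 : ℝ) ×ˢ Ioo (-π) π, (G1 p - I * G2 p) / 2 =
      ((∫ p in Ioi (0 : ℝ) ×ˢ Ioo (-π) π, G1 p) - I * ∫ p in Ioi (0 : ℝ) ×ˢ Ioo (-π) π, G2 p)
        / 2 := by
    rw [integral_div, integral_sub hI1 (hI2.const_mul I), integral_const_mul]
  rw [hsplit]
  have hint1 : ∫ p in Ioi (0 : ℝ) ×ˢ Ioo (-π) π, G1 p = - (2 * π) * w 0 := by
    rw [Measure.volume_eq_prod, ← Measure.prod_restrict]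
    rw [IntegrableOn, Measure.volume_eq_prod, ← Measure.prod_restrict] at hI1
    rw [integral_prod_symm _ hI1]
    have h1 : ∀ θ ∈ Ioo (-π) π, ∫ r in Ioi (0 : ℝ), G1 (r, θ) = - w 0 := by
      intro θ _
      have hder : ∀ r ∈ Ici (0 : ℝ), HasDerivAt (fun r : ℝ => w (r * e θ)) (G1 (r, θ)) r := by
        intro r _
        have h1 : HasDerivAt (fun r : ℝ => (r : ℂ) * e θ) (e θ) r := by
          simpa using (Complex.ofRealCLM.hasDerivAt (x := r)).mul_const (e θ)
        exact ((hw.differentiable one_ne_zero _).hasFDerivAt).comp_hasDerivAt r h1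
      have hcont' : Continuous fun r : ℝ => G1 (r, θ) := by fun_prop
      have hint' : IntegrableOn (fun r : ℝ => G1 (r, θ)) (Ioi 0) := by
        have h1 : IntegrableOn (fun r : ℝ => G1 (r, θ)) (Icc (0 : ℝ) R) :=
          hcont'.continuousOn.integrableOn_compact isCompact_Icc
        have h2 : IntegrableOn (fun r : ℝ => G1 (r, θ)) (Ioi (R : ℝ)) := by
          refine IntegrableOn.congr_fun (f := fun _ => 0) (by simp) ?_ measurableSet_Ioi
          intro r hr
          show 0 = fderiv ℝ w (r * e θ) (e θ)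
          have hr' : R < r := hr
          rw [hR _ (by rw [hnorm _ _ (hR0.trans hr')]; exact hr'.le)]
          rfl
        refine (h1.union h2).mono_set ?_
        intro r hr
        rcases le_or_gt r R with h | h
        · exact Or.inl ⟨le_of_lt hr, h⟩
        · exact Or.inr h
      have htend : Filter.Tendsto (fun r : ℝ => w (r * e θ)) Filter.atTop (𝓝 0) := by
        refine tendsto_const_nhds.congr' ?_
        filter_upwards [Filter.eventually_ge_atTop R'] with r hr
        exact (hR' _ (by rw [hnorm _ _ (lt_of_lt_of_le hR0' hr)]; exact hr)).symm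
      rw [integral_Ioi_of_hasDerivAt_of_tendsto' hder hint' htend]
      simp
    rw [setIntegral_congr_fun measurableSet_Ioo h1, setIntegral_const, Measure.real,
      Real.volume_Ioo, ENNReal.toReal_ofReal (by linarith [Real.pi_pos]), Complex.real_smul]
    push_cast
    ring
  have hint2 : ∫ p in Ioi (0 : ℝ) ×ˢ Ioo (-π) π, G2 p = 0 := by
    rw [Measure.volume_eq_prod, ← Measure.prod_restrict]
    rw [IntegrableOn, Measure.volume_eq_prod, ← Measure.prod_restrict] at hI2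
    rw [integral_prod _ hI2]
    have h1 : ∀ r ∈ Ioi (0 : ℝ), ∫ θ in Ioo (-π) π, G2 (r, θ) = 0 := by
      intro r hr
      have hr' : (r : ℂ) ≠ 0 := by exact_mod_cast (ne_of_gt hr)
      have hder : ∀ θ : ℝ, HasDerivAt (fun θ : ℝ => w (r * e θ)) (r * G2 (r, θ)) θ := by
        intro θ
        have h1 : HasDerivAt (fun θ : ℝ => (r : ℂ) * e θ) ((r : ℂ) * (I * e θ)) θ := by
          have h2 : HasDerivAt e (e θ * (1 * I)) θ :=
            ((Complex.ofRealCLM.hasDerivAt (x := θ)).mul_const I).cexp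
          have h3 := h2.const_mul (r : ℂ)
          rwa [one_mul, mul_comm (e θ) I] at h3
        have h4 := ((hw.differentiable one_ne_zero (r * e θ)).hasFDerivAt).comp_hasDerivAt θ h1
        have h5 : fderiv ℝ w (r * e θ) ((r : ℂ) * (I * e θ)) = r * G2 (r, θ) := by
          have h7 : (r : ℂ) * (I * e θ) = r • (I * e θ) := Complex.real_smul.symm
          rw [h7, map_smul, Complex.real_smul]
        rw [← h5]
        exact h4
      have hcont' : Continuous fun θ : ℝ => (r : ℂ) * G2 (r, θ) := by fun_prop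
      have h6 : ∫ θ in (-π)..π, (r : ℂ) * G2 (r, θ) = 0 := by
        rw [intervalIntegral.integral_eq_sub_of_hasDerivAt (fun θ _ => hder θ)
          (hcont'.intervalIntegrable _ _)]
        have : e π = e (-π) := by
          rw [he]
          simp only [ofReal_neg, neg_mul, Complex.exp_neg, exp_pi_mul_I]
          norm_num
        rw [this, sub_self]
      rw [intervalIntegral.integral_const_mul, intervalIntegral.integral_of_le
        (by linarith [Real.pi_pos]), integral_Ioc_eq_integral_Ioo] at h6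
      rcases mul_eq_zero.1 h6 with h | h
      · exact absurd h hr'
      · exact h
    rw [setIntegral_congr_fun measurableSet_Ioi h1]
    simp
  rw [hint1, hint2]
  ring

theorem integral_fderiv_zero {V : Type*} [NormedAddCommGroup V] [NormedSpace ℝ V]
    [FiniteDimensional ℝ V] [MeasurableSpace V] [BorelSpace V] (μ : Measure V)
    [μ.IsAddHaarMeasure] {w : V → ℂ} (hw : ContDiff ℝ 1 w) (hc : HasCompactSupport w) (v : V) :
    ∫ z, fderiv ℝ w z v ∂μ = 0 := by
  have h := integral_mul_fderiv_eq_neg_fderiv_mul_of_integrable (μ := μ) (f := fun _ : V => (1 : ℂ))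
    (g := w) (v := v) (by simp) (by
      simp only [one_mul]
      refine Continuous.integrable_of_hasCompactSupport
        ((hw.continuous_fderiv one_ne_zero).clm_apply continuous_const) ?_
      exact (hc.fderiv ℝ).comp_left (g := fun L : V →L[ℝ] ℂ => L v) rfl) (by
      simp only [one_mul]
      exact hw.continuous.integrable_of_hasCompactSupport hc)
      (fun x _ => differentiableAt_const _) (fun x _ => hw.differentiable one_ne_zero x)
  simpa using h

/-! ## Several variables -/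

variable {n : ℕ}

theorem continuous_dz (i : Fin n) {V : E n → ℂ} (hV : ContDiff ℝ 1 V) :
    Continuous (dz i V) := by
  have hD : Continuous (fderiv ℝ V) := hV.continuous_fderiv one_ne_zero
  unfold dz
  fun_prop

theorem continuous_dzb (i : Fin n) {V : E n → ℂ} (hV : ContDiff ℝ 1 V) :
    Continuous (dzb i V) := by
  have hD : Continuous (fderiv ℝ V) := hV.continuous_fderiv one_ne_zero
  unfold dzb
  fun_prop

theorem hasCompactSupport_dz (i : Fin n) {V : E n → ℂ} (hc : HasCompactSupport V) :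
    HasCompactSupport (dz i V) :=
  (hc.fderiv ℝ).comp_left (g := fun L : E n →L[ℝ] ℂ =>
    (L (Pi.single i 1) - I * L (Pi.single i I)) / 2) (by simp)

theorem hasCompactSupport_dzb (i : Fin n) {V : E n → ℂ} (hc : HasCompactSupport V) :
    HasCompactSupport (dzb i V) :=
  (hc.fderiv ℝ).comp_left (g := fun L : E n →L[ℝ] ℂ =>
    (L (Pi.single i 1) + I * L (Pi.single i I)) / 2) (by simp)

/-- `∫ ∂_i V = 0` -/
theorem integral_dz (i : Fin n) {V : E n → ℂ} (hV : ContDiff ℝ 1 V) (hc : HasCompactSupport V) :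
    ∫ z, dz i V z = 0 := by
  have hD : Continuous (fderiv ℝ V) := hV.continuous_fderiv one_ne_zero
  have h : ∀ v, Integrable (fun z => fderiv ℝ V z v) := fun v =>
    Continuous.integrable_of_hasCompactSupport (hD.clm_apply continuous_const)
      ((hc.fderiv ℝ).comp_left (g := fun L : E n →L[ℝ] ℂ => L v) rfl)
  unfold dz
  rw [integral_div, integral_sub (h _) ((h _).const_mul I), integral_const_mul,
    integral_fderiv_zero volume hV hc, integral_fderiv_zero volume hV hc]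
  simp

/-- `∫ ∂̄_i V = 0` -/
theorem integral_dzb (i : Fin n) {V : E n → ℂ} (hV : ContDiff ℝ 1 V) (hc : HasCompactSupport V) :
    ∫ z, dzb i V z = 0 := by
  have hD : Continuous (fderiv ℝ V) := hV.continuous_fderiv one_ne_zero
  have h : ∀ v, Integrable (fun z => fderiv ℝ V z v) := fun v =>
    Continuous.integrable_of_hasCompactSupport (hD.clm_apply continuous_const)
      ((hc.fderiv ℝ).comp_left (g := fun L : E n →L[ℝ] ℂ => L v) rfl)
  unfold dzb
  rw [integral_div, integral_add (h _) ((h _).const_mul I), integral_const_mul,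
    integral_fderiv_zero volume hV hc, integral_fderiv_zero volume hV hc]
  simp

/-- splitting off one variable -/
theorem integral_split (j : Fin (n + 1)) {g : E (n + 1) → ℂ} (hg : Integrable g) :
    ∫ z, g z = ∫ b : E n, ∫ a : ℂ, g (j.insertNth a b) := by
  have hmp := (volume_preserving_piFinSuccAbove (fun _ : Fin (n + 1) => ℂ) j).symm
  have h1 : Integrable (fun p : ℂ × E n => g (j.insertNth p.1 p.2)) :=
    (hmp.integrable_comp_emb (MeasurableEquiv.measurableEmbedding _)).2 hg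
  have h2 : ∫ p : ℂ × E n, g (j.insertNth p.1 p.2) = ∫ z, g z :=
    hmp.integral_comp (MeasurableEquiv.measurableEmbedding _) g
  rw [← h2, Measure.volume_eq_prod]
  rw [Measure.volume_eq_prod] at h1
  exact integral_prod_symm _ h1

theorem norm_insertNth_left (j : Fin (n + 1)) (a : ℂ) (b : E n) :
    ‖a‖ ≤ ‖(j.insertNth a b : E (n + 1))‖ := by
  have h := norm_le_pi_norm (j.insertNth a b : E (n + 1)) j
  rwa [Fin.insertNth_apply_same] at h

theorem norm_insertNth_right (j : Fin (n + 1)) (a : ℂ) (b : E n) :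
    ‖b‖ ≤ ‖(j.insertNth a b : E (n + 1))‖ := by
  rw [pi_norm_le_iff_of_nonneg (norm_nonneg _)]
  intro k
  have h := norm_le_pi_norm (j.insertNth a b : E (n + 1)) (j.succAbove k)
  rwa [Fin.insertNth_apply_succAbove] at h

/-- `K / L(z_j)` is integrable for bounded `K` with bounded support -/
theorem integrable_bound (j : Fin (n + 1)) {K : E (n + 1) → ℂ} (hK : Measurable K) {C R : ℝ}
    (hC : ∀ z, ‖K z‖ ≤ C) (hR : ∀ z, R ≤ ‖z‖ → K z = 0) (L : ℂ → ℂ) (hL : Measurable L)
    (hLn : ∀ z, ‖L z‖ = ‖z‖) :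
    Integrable (fun z => K z / L (z j)) := by
  have hmp := (volume_preserving_piFinSuccAbove (fun _ : Fin (n + 1) => ℂ) j).symm
  rw [← hmp.integrable_comp_emb (MeasurableEquiv.measurableEmbedding _)]
  have h1 : Integrable (fun b : E n => (Metric.ball (0 : E n) R).indicator (fun _ => (1 : ℝ)) b) := by
    rw [integrable_indicator_iff measurableSet_ball]
    exact integrableOn_const (by
      exact measure_ball_lt_top.ne)
  have h2 := (integrable_inv_disc R).mul_prod h1
  rw [← Measure.volume_eq_prod] at h2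
  refine (h2.const_mul C).mono' ?_ ?_
  · refine Measurable.aestronglyMeasurable ?_
    exact (hK.div (hL.comp (measurable_pi_apply j))).comp (MeasurableEquiv.measurable _)
  · refine Filter.Eventually.of_forall fun p => ?_
    obtain ⟨a, b⟩ := p
    show ‖K (j.insertNth a b) / L ((j.insertNth a b : E (n + 1)) j)‖ ≤ _
    rw [Fin.insertNth_apply_same]
    simp only
    have hC0 : 0 ≤ C := (norm_nonneg _).trans (hC 0)
    by_cases h : ‖(j.insertNth a b : E (n + 1))‖ < R
    · have ha : a ∈ Metric.ball (0 : ℂ) R :=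
        mem_ball_zero_iff.2 (lt_of_le_of_lt (norm_insertNth_left j a b) h)
      have hb : b ∈ Metric.ball (0 : E n) R :=
        mem_ball_zero_iff.2 (lt_of_le_of_lt (norm_insertNth_right j a b) h)
      rw [indicator_of_mem ha, indicator_of_mem hb, norm_div, hLn, div_eq_mul_inv, mul_one]
      exact mul_le_mul_of_nonneg_right (hC _) (by positivity)
    · rw [hR _ (not_lt.1 h), zero_div, norm_zero]
      refine mul_nonneg hC0 (mul_nonneg ?_ ?_)
      · exact indicator_nonneg (fun _ _ => by positivity) _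
      · exact indicator_nonneg (fun _ _ => by positivity) _

theorem integrable_div_conj (j : Fin (n + 1)) {K : E (n + 1) → ℂ} (hK : Continuous K)
    (hc : HasCompactSupport K) : Integrable (fun z => K z / (starRingEnd ℂ) (z j)) := by
  obtain ⟨C, hC⟩ := hc.exists_bound_of_continuous hK
  obtain ⟨R, _, hR⟩ := exists_radius hc
  exact integrable_bound j hK.measurable hC hR _ continuous_conj.measurable
    (fun z => RCLike.norm_conj z)

theorem integrable_div_coord (j : Fin (n + 1)) {K : E (n + 1) → ℂ} (hK : Continuous K)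
    (hc : HasCompactSupport K) : Integrable (fun z => K z / z j) := by
  obtain ⟨C, hC⟩ := hc.exists_bound_of_continuous hK
  obtain ⟨R, _, hR⟩ := exists_radius hc
  exact integrable_bound j hK.measurable hC hR (fun z => z) measurable_id (fun z => rfl)

theorem insertNth_eq (j : Fin (n + 1)) (a : ℂ) (b : E n) :
    (j.insertNth a b : E (n + 1)) = j.insertNth 0 b + Pi.single j a := by
  ext k
  refine Fin.succAboveCases j ?_ (fun k => ?_) k
  · simp
  · simp

theorem hasFDerivAt_insertNth (j : Fin (n + 1)) (a : ℂ) (b : E n) :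
    HasFDerivAt (fun a : ℂ => (j.insertNth a b : E (n + 1)))
      (ContinuousLinearMap.single ℝ (fun _ : Fin (n + 1) => ℂ) j) a := by
  have h : (fun a : ℂ => (j.insertNth a b : E (n + 1))) = fun a =>
      (j.insertNth 0 b : E (n + 1)) + ContinuousLinearMap.single ℝ (fun _ : Fin (n + 1) => ℂ) j a := by
    ext1 a
    rw [insertNth_eq]
    rfl
  rw [h]
  exact ((ContinuousLinearMap.single ℝ (fun _ : Fin (n + 1) => ℂ) j).hasFDerivAt).const_add _

theorem contDiff_insertNth (j : Fin (n + 1)) (b : E n) :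
    ContDiff ℝ 1 (fun a : ℂ => (j.insertNth a b : E (n + 1))) := by
  have h : (fun a : ℂ => (j.insertNth a b : E (n + 1))) = fun a =>
      (j.insertNth 0 b : E (n + 1)) + ContinuousLinearMap.single ℝ (fun _ : Fin (n + 1) => ℂ) j a := by
    ext1 a
    rw [insertNth_eq]
    rfl
  rw [h]
  exact contDiff_const.add (ContinuousLinearMap.contDiff _)

theorem fderiv_insertNth (j : Fin (n + 1)) {V : E (n + 1) → ℂ} (hV : ContDiff ℝ 1 V) (a : ℂ)
    (b : E n) (v : ℂ) : fderiv ℝ (fun a : ℂ => V (j.insertNth a b)) a v =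
      fderiv ℝ V (j.insertNth a b) (Pi.single j v) := by
  have h := ((hV.differentiable one_ne_zero _).hasFDerivAt).comp a (hasFDerivAt_insertNth j a b)
  have h2 : (fun a : ℂ => V (j.insertNth a b)) = V ∘ fun a : ℂ => (j.insertNth a b : E (n + 1)) := rfl
  rw [h2, h.fderiv]
  rfl

theorem hasCompactSupport_insertNth (j : Fin (n + 1)) {V : E (n + 1) → ℂ}
    (hc : HasCompactSupport V) (b : E n) : HasCompactSupport (fun a : ℂ => V (j.insertNth a b)) := by
  obtain ⟨R, _, hR⟩ := exists_radius hc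
  refine HasCompactSupport.intro (isCompact_closedBall (0 : ℂ) R) (fun a ha => ?_)
  apply hR
  rw [mem_closedBall_zero_iff, not_le] at ha
  exact ha.le.trans (norm_insertNth_left j a b)

/-- **T13(a)**: integrals with simple poles -/
theorem integral_dz_div (i j : Fin (n + 1)) {V : E (n + 1) → ℂ} (hV : ContDiff ℝ 1 V)
    (hc : HasCompactSupport V) :
    ∫ z, dz i V z / (starRingEnd ℂ) (z j) =
      if i = j then - π * ∫ b : E n, V (j.insertNth 0 b) else 0 := by
  have hint : Integrable (fun z => dz i V z / (starRingEnd ℂ) (z j)) :=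
    integrable_div_conj j (continuous_dz i hV) (hasCompactSupport_dz i hc)
  rw [integral_split i hint]
  have hinner : ∀ b : E n, ∀ a : ℂ, dz i V (i.insertNth a b) =
      (fderiv ℝ (fun a : ℂ => V (i.insertNth a b)) a 1 -
        I * fderiv ℝ (fun a : ℂ => V (i.insertNth a b)) a I) / 2 := by
    intro b a
    rw [fderiv_insertNth i hV, fderiv_insertNth i hV]
    rfl
  split_ifs with hij
  · subst hij
    rw [← integral_const_mul]
    congr 1
    ext b
    rw [← integral_dz_div_one (fun a : ℂ => V (i.insertNth a b))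
      (hV.comp (contDiff_insertNth i b)) (hasCompactSupport_insertNth i hc b)]
    congr 1
    ext a
    rw [hinner, Fin.insertNth_apply_same]
  · obtain ⟨k, hk⟩ := Fin.exists_succAbove_eq (Ne.symm hij)
    have h0 : ∀ b : E n, ∫ a : ℂ, dz i V (i.insertNth a b) /
        (starRingEnd ℂ) ((i.insertNth a b : E (n + 1)) j) = 0 := by
      intro b
      have hw : ContDiff ℝ 1 (fun a : ℂ => V (i.insertNth a b)) :=
        hV.comp (contDiff_insertNth i b)
      have hwc := hasCompactSupport_insertNth i hc b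
      have hD : Continuous (fderiv ℝ (fun a : ℂ => V (i.insertNth a b))) :=
        hw.continuous_fderiv one_ne_zero
      have h : ∀ v, Integrable (fun z => fderiv ℝ (fun a : ℂ => V (i.insertNth a b)) z v) :=
        fun v => Continuous.integrable_of_hasCompactSupport (hD.clm_apply continuous_const)
          ((hwc.fderiv ℝ).comp_left (g := fun L : ℂ →L[ℝ] ℂ => L v) rfl)
      have h1 : ∀ a : ℂ, dz i V (i.insertNth a b) /
          (starRingEnd ℂ) ((i.insertNth a b : E (n + 1)) j) =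
          ((fderiv ℝ (fun a : ℂ => V (i.insertNth a b)) a 1 -
        I * fderiv ℝ (fun a : ℂ => V (i.insertNth a b)) a I) / 2) / (starRingEnd ℂ) (b k) := by
        intro a
        rw [hinner, ← hk, Fin.insertNth_apply_succAbove]
      simp_rw [h1]
      rw [integral_div, integral_div, integral_sub (h _) ((h _).const_mul I), integral_const_mul,
        integral_fderiv_zero volume hw hwc, integral_fderiv_zero volume hw hwc]
      simp
    simp_rw [h0]
    simp

theorem fderiv_conj_comp {V : E n → ℂ} (hV : ContDiff ℝ 1 V) (z v : E n) :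
    fderiv ℝ (fun z => (starRingEnd ℂ) (V z)) z v = (starRingEnd ℂ) (fderiv ℝ V z v) := by
  have h := (conjCLE.toContinuousLinearMap.hasFDerivAt (x := V z)).comp z
    ((hV.differentiable one_ne_zero z).hasFDerivAt)
  have h2 : (fun z => (starRingEnd ℂ) (V z)) = (conjCLE.toContinuousLinearMap) ∘ V := rfl
  rw [h2, h.fderiv]
  rfl

theorem dzb_eq_conj (i : Fin n) {V : E n → ℂ} (hV : ContDiff ℝ 1 V) (z : E n) :
    dzb i V z = (starRingEnd ℂ) (dz i (fun z => (starRingEnd ℂ) (V z)) z) := by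
  unfold dz dzb
  rw [fderiv_conj_comp hV, fderiv_conj_comp hV]
  have h2 : (starRingEnd ℂ) 2 = 2 := map_ofNat _ 2
  simp [h2]

theorem integral_dzb_div (i j : Fin (n + 1)) {V : E (n + 1) → ℂ} (hV : ContDiff ℝ 1 V)
    (hc : HasCompactSupport V) :
    ∫ z, dzb i V z / z j =
      if i = j then - π * ∫ b : E n, V (j.insertNth 0 b) else 0 := by
  have hV' : ContDiff ℝ 1 (fun z => (starRingEnd ℂ) (V z)) := conjCLE.contDiff.comp hV
  have hc' : HasCompactSupport (fun z => (starRingEnd ℂ) (V z)) :=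
    hc.comp_left (g := (starRingEnd ℂ)) (map_zero _)
  have h := integral_dz_div i j hV' hc'
  have h1 : ∀ z, dzb i V z / z j = (starRingEnd ℂ)
      (dz i (fun z => (starRingEnd ℂ) (V z)) z / (starRingEnd ℂ) (z j)) := by
    intro z
    rw [dzb_eq_conj i hV, map_div₀, Complex.conj_conj]
  simp_rw [h1]
  rw [integral_conj, h]
  split_ifs
  · rw [integral_conj]
    simp
  · simp


/-! ## Two variables -/

/-- integrals over `E 1` -/
theorem integral_E1 (g : E 1 → ℂ) : ∫ b : E 1, g b = ∫ w : ℂ, g (fun _ => w) := by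
  have hmp := (volume_preserving_funUnique (Fin 1) ℂ).symm
  exact (hmp.integral_comp (MeasurableEquiv.measurableEmbedding _) g).symm

theorem integral_dz_div_00 {V : E 2 → ℂ} (hV : ContDiff ℝ 1 V) (hc : HasCompactSupport V) :
    ∫ z, dz 0 V z / (starRingEnd ℂ) (z 0) = - π * ∫ w : ℂ, V ![0, w] := by
  rw [integral_dz_div 0 0 hV hc, if_pos rfl, integral_E1]
  congr 2
  ext w
  congr 1
  ext k
  fin_cases k <;> rfl

theorem integral_dz_div_11 {V : E 2 → ℂ} (hV : ContDiff ℝ 1 V) (hc : HasCompactSupport V) :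
    ∫ z, dz 1 V z / (starRingEnd ℂ) (z 1) = - π * ∫ w : ℂ, V ![w, 0] := by
  rw [integral_dz_div 1 1 hV hc, if_pos rfl, integral_E1]
  congr 2
  ext w
  congr 1
  ext k
  fin_cases k <;> rfl

theorem integral_dz_div_01 {V : E 2 → ℂ} (hV : ContDiff ℝ 1 V) (hc : HasCompactSupport V) :
    ∫ z, dz 0 V z / (starRingEnd ℂ) (z 1) = 0 := by
  rw [integral_dz_div 0 1 hV hc, if_neg (by decide)]

theorem integral_dz_div_10 {V : E 2 → ℂ} (hV : ContDiff ℝ 1 V) (hc : HasCompactSupport V) :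
    ∫ z, dz 1 V z / (starRingEnd ℂ) (z 0) = 0 := by
  rw [integral_dz_div 1 0 hV hc, if_neg (by decide)]

theorem integral_dzb_div_00 {V : E 2 → ℂ} (hV : ContDiff ℝ 1 V) (hc : HasCompactSupport V) :
    ∫ z, dzb 0 V z / z 0 = - π * ∫ w : ℂ, V ![0, w] := by
  rw [integral_dzb_div 0 0 hV hc, if_pos rfl, integral_E1]
  congr 2
  ext w
  congr 1
  ext k
  fin_cases k <;> rfl

theorem integral_dzb_div_11 {V : E 2 → ℂ} (hV : ContDiff ℝ 1 V) (hc : HasCompactSupport V) :
    ∫ z, dzb 1 V z / z 1 = - π * ∫ w : ℂ, V ![w, 0] := by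
  rw [integral_dzb_div 1 1 hV hc, if_pos rfl, integral_E1]
  congr 2
  ext w
  congr 1
  ext k
  fin_cases k <;> rfl

theorem integral_dzb_div_01 {V : E 2 → ℂ} (hV : ContDiff ℝ 1 V) (hc : HasCompactSupport V) :
    ∫ z, dzb 0 V z / z 1 = 0 := by
  rw [integral_dzb_div 0 1 hV hc, if_neg (by decide)]

theorem integral_dzb_div_10 {V : E 2 → ℂ} (hV : ContDiff ℝ 1 V) (hc : HasCompactSupport V) :
    ∫ z, dzb 1 V z / z 0 = 0 := by
  rw [integral_dzb_div 1 0 hV hc, if_neg (by decide)]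

end

end Pool.Agent.YTDA


end

/- source: Pool.Agent.YTDA.Cv -/

section

/-! The hamiltonian of a diagonal circle action. -/

namespace Pool.Agent.YTDA

open Complex Set Topology ContDiff ComplexOrder

noncomputable section

namespace PolAtlas

variable {n : ℕ} {Y : Type} [MulAction ℂˣ Y] (A : PolAtlas n Y)

/-- derivative of the potential along the circle action -/
def cv (D : A.DAct) (H : Y → ℝ) (a : A.ι) (z : E n) : ℝ :=
  deriv (fun θ : ℝ => A.pot H a (fun j => exp ((D.k a j : ℂ) * θ * I) * z j)) 0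

end PolAtlas

end

end Pool.Agent.YTDA


end

/- source: Pool.Agent.YTDA.CircleB -/

section

/-!
# T3b: from a holomorphic gradient commuting with the circle to invariance

`circle_of_field`: if the gradient `W` of the hamiltonian `v = d/dθ log H` is a holomorphic vector
field which is invariant under the circle, then `H` is invariant under the circle.
-/

namespace Pool.Agent.YTDA

open Complex Set Topology ContDiff ComplexOrder

noncomputable section

/-! ## Wirtinger calculus in terms of `fderiv` -/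

section Wirtinger
variable {n : ℕ}

/-- `e^{iθ}` as a unit -/
def cb_uexp (θ : ℝ) : ℂˣ := Units.mk0 (Complex.exp (θ * I)) (Complex.exp_ne_zero _)

theorem uexp_coe (θ : ℝ) : ((cb_uexp θ : ℂˣ) : ℂ) = Complex.exp (θ * I) := rfl

theorem uexp_zero : cb_uexp 0 = 1 := by
  ext; simp [uexp_coe]

theorem uexp_add (θ η : ℝ) : cb_uexp (θ + η) = cb_uexp θ * cb_uexp η := by
  ext; simp [uexp_coe, add_mul, Complex.exp_add]

theorem uexp_two_pi : cb_uexp (2 * Real.pi) = 1 := by
  ext; simp [uexp_coe, Complex.exp_two_pi_mul_I]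

theorem cb_norm_uexp (θ : ℝ) : ‖((cb_uexp θ : ℂˣ) : ℂ)‖ = 1 := by
  rw [uexp_coe, Complex.norm_exp_ofReal_mul_I]

theorem cb_norm_uexp_zpow (θ : ℝ) (m : ℤ) : ‖(((cb_uexp θ) ^ m : ℂˣ) : ℂ)‖ = 1 := by
  rw [Units.val_zpow_eq_zpow_val, norm_zpow, cb_norm_uexp, one_zpow]

theorem exists_uexp (c : ℂˣ) (hc : ‖(c : ℂ)‖ = 1) : ∃ θ : ℝ, c = cb_uexp θ := by
  refine ⟨Complex.arg c, ?_⟩
  ext
  rw [uexp_coe]
  have := Complex.norm_mul_exp_arg_mul_I (c : ℂ)
  rw [hc] at this
  simpa using this.symm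

/-- the generator of the diagonal circle action -/
def gen (k : Fin n → ℤ) : E n →L[ℂ] E n :=
  ContinuousLinearMap.pi fun j => ((k j : ℂ) * I) • ContinuousLinearMap.proj j

theorem gen_apply (k : Fin n → ℤ) (z : E n) (j : Fin n) : gen k z j = (k j : ℂ) * I * z j := rfl

theorem dact_uexp (k : Fin n → ℤ) (θ : ℝ) (z : E n) :
    dact k (cb_uexp θ) z = fun j => Complex.exp ((k j : ℂ) * θ * I) * z j := by
  funext j
  unfold dact
  rw [Units.val_zpow_eq_zpow_val, uexp_coe, ← Complex.exp_int_mul]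
  congr 2
  ring

theorem dact_one (k : Fin n → ℤ) (z : E n) : dact k 1 z = z := by
  funext j; simp [dact]

theorem dact_mul (k : Fin n → ℤ) (c c' : ℂˣ) (z : E n) :
    dact k (c * c') z = dact k c (dact k c' z) := by
  funext j; simp [dact, mul_zpow, mul_assoc]

theorem cb_hasDerivAt_dact (k : Fin n → ℤ) (θ : ℝ) (z : E n) :
    HasDerivAt (fun t : ℝ => dact k (cb_uexp t) z) (gen k (dact k (cb_uexp θ) z)) θ := by
  rw [hasDerivAt_pi]
  intro j
  simp only [dact_uexp, gen_apply]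
  have h1 : HasDerivAt (fun t : ℝ => (k j : ℂ) * t * I) ((k j : ℂ) * I) θ := by
    have h0 : HasDerivAt (fun t : ℝ => (t : ℂ)) 1 θ := Complex.ofRealCLM.hasDerivAt
    have := (h0.const_mul (k j : ℂ)).mul_const I
    simpa using this
  have h2 := h1.cexp.mul_const (z j)
  have h3 : (k j : ℂ) * I * (Complex.exp ((k j : ℂ) * θ * I) * z j)
      = Complex.exp ((k j : ℂ) * θ * I) * ((k j : ℂ) * I) * z j := by ring
  rw [h3]
  exact h2

theorem hasDerivAt_comp_dact (k : Fin n → ℤ) {f : E n → ℝ} {z : E n}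
    (hd : DifferentiableAt ℝ f z) (θ₀ : ℝ) :
    HasDerivAt (fun θ : ℝ => f (dact k (cb_uexp (θ - θ₀)) z)) (fderiv ℝ f z (gen k z)) θ₀ := by
  have h3 := cb_hasDerivAt_dact k 0 z
  rw [uexp_zero, dact_one] at h3
  have h4 : HasFDerivAt f (fderiv ℝ f z) (dact k (cb_uexp 0) z) := by
    rw [uexp_zero, dact_one]; exact hd.hasFDerivAt
  have h5 : HasDerivAt (fun θ : ℝ => f (dact k (cb_uexp θ) z))
      (fderiv ℝ f z (gen k z)) (θ₀ - θ₀) := by
    rw [sub_self]; exact h4.comp_hasDerivAt 0 h3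
  exact h5.comp_sub_const θ₀ θ₀

/-- a real-linear map -/
theorem fderiv_dz (f : E n → ℂ) (z : E n) (w : E n) :
    fderiv ℝ f z w = ∑ i, (dz i f z * w i + dzb i f z * (starRingEnd ℂ) (w i)) := by
  have hw : w = ∑ i, ((w i).re • (Pi.single i (1 : ℂ) : E n)
      + (w i).im • (Pi.single i I : E n)) := by
    funext j
    rw [Finset.sum_apply, Finset.sum_eq_single j]
    · simp [Complex.re_add_im]
    · intro b _ hb
      simp [Pi.single_eq_of_ne hb.symm]
    · intro h; exact absurd (Finset.mem_univ j) h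
  conv_lhs => rw [hw]
  rw [map_sum]
  refine Finset.sum_congr rfl fun i _ => ?_
  rw [map_add, map_smul, map_smul]
  unfold dz dzb
  have h1 : w i = (w i).re + (w i).im * I := (Complex.re_add_im (w i)).symm
  have h2 : (starRingEnd ℂ) (w i) = (w i).re - (w i).im * I := by
    apply Complex.ext <;> simp
  have h3 : (fderiv ℝ f z (Pi.single i 1) - I * fderiv ℝ f z (Pi.single i I)) / 2 * w i
      = (fderiv ℝ f z (Pi.single i 1) - I * fderiv ℝ f z (Pi.single i I)) / 2
        * ((w i).re + (w i).im * I) := by rw [← h1]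
  rw [h2, h3]
  simp only [Complex.real_smul]
  generalize (fderiv ℝ f z) (Pi.single i 1) = p
  generalize (fderiv ℝ f z) (Pi.single i I) = q
  generalize ((w i).re : ℂ) = a
  generalize ((w i).im : ℂ) = b
  linear_combination (q * b) * Complex.I_sq

theorem differentiableAt_of_dzb {f : E n → ℂ} {z : E n} (hf : DifferentiableAt ℝ f z)
    (h : ∀ i, dzb i f z = 0) : DifferentiableAt ℂ f z := by
  rw [differentiableAt_iff_restrictScalars ℝ hf]
  refine ⟨∑ i, (dz i f z) • ContinuousLinearMap.proj (R := ℂ) (φ := fun _ : Fin n => ℂ) i, ?_⟩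
  ext w
  rw [fderiv_dz]
  simp [h]

theorem pair_dz (f : E n → ℂ) (z w : E n) :
    ∑ i, dz i f z * w i = (fderiv ℝ f z w - I * fderiv ℝ f z (I • w)) / 2 := by
  rw [fderiv_dz f z w, fderiv_dz f z (I • w), Finset.mul_sum, ← Finset.sum_sub_distrib,
    Finset.sum_div]
  refine Finset.sum_congr rfl fun i _ => ?_
  simp only [Pi.smul_apply, smul_eq_mul, map_mul, Complex.conj_I]
  linear_combination (dz i f z * w i / 2 - dzb i f z * (starRingEnd ℂ) (w i) / 2)
    * Complex.I_sq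

theorem cb_dz_mul {f g : E n → ℂ} {z : E n} (hf : DifferentiableAt ℝ f z)
    (hg : DifferentiableAt ℝ g z) (i : Fin n) :
    dz i (fun w => f w * g w) z = dz i f z * g z + f z * dz i g z := by
  unfold dz
  have h : fderiv ℝ (fun w => f w * g w) z = f z • fderiv ℝ g z + g z • fderiv ℝ f z :=
    fderiv_fun_mul hf hg
  rw [h]
  simp only [add_apply, smul_apply, smul_eq_mul]
  ring

theorem cb_dzb_mul {f g : E n → ℂ} {z : E n} (hf : DifferentiableAt ℝ f z)
    (hg : DifferentiableAt ℝ g z) (i : Fin n) :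
    dzb i (fun w => f w * g w) z = dzb i f z * g z + f z * dzb i g z := by
  unfold dzb
  have h : fderiv ℝ (fun w => f w * g w) z = f z • fderiv ℝ g z + g z • fderiv ℝ f z :=
    fderiv_fun_mul hf hg
  rw [h]
  simp only [add_apply, smul_apply, smul_eq_mul]
  ring

theorem dzb_sum {ι : Type*} (s : Finset ι) {f : ι → E n → ℂ} {z : E n}
    (hf : ∀ j ∈ s, DifferentiableAt ℝ (f j) z) (i : Fin n) :
    dzb i (fun w => ∑ j ∈ s, f j w) z = ∑ j ∈ s, dzb i (f j) z := by
  unfold dzb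
  rw [fderiv_fun_sum hf]
  simp only [sum_apply]
  rw [Finset.mul_sum, ← Finset.sum_add_distrib, Finset.sum_div]

theorem dzb_sub {f g : E n → ℂ} {z : E n} (hf : DifferentiableAt ℝ f z)
    (hg : DifferentiableAt ℝ g z) (i : Fin n) :
    dzb i (fun w => f w - g w) z = dzb i f z - dzb i g z := by
  unfold dzb
  rw [fderiv_fun_sub hf hg]
  simp only [sub_apply]
  ring

theorem dzb_of_holo {f : E n → ℂ} {z : E n} (hf : DifferentiableAt ℂ f z) (i : Fin n) :
    dzb i f z = 0 := by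
  unfold dzb
  have h : fderiv ℝ f z = (fderiv ℂ f z).restrictScalars ℝ :=
    (hf.hasFDerivAt.restrictScalars ℝ).fderiv
  rw [h]
  simp only [ContinuousLinearMap.coe_restrictScalars']
  have h1 : (Pi.single i I : E n) = I • Pi.single i (1 : ℂ) := by
    rw [← Pi.single_smul]; simp
  rw [h1, map_smul, smul_eq_mul]
  linear_combination ((fderiv ℂ f z) (Pi.single i 1) / 2) * Complex.I_sq

theorem dz_conj_real (f : E n → ℝ) {z : E n} (hf : DifferentiableAt ℝ f z) (i : Fin n) :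
    dz i (fun w => (f w : ℂ)) z = (starRingEnd ℂ) (dzb i (fun w => (f w : ℂ)) z) := by
  have h : fderiv ℝ (fun w => (f w : ℂ)) z = Complex.ofRealCLM.comp (fderiv ℝ f z) :=
    (Complex.ofRealCLM.hasFDerivAt.comp z hf.hasFDerivAt).fderiv
  unfold dz dzb
  rw [h]
  simp only [ContinuousLinearMap.comp_apply, Complex.ofRealCLM_apply, map_div₀, map_add, map_mul,
    Complex.conj_ofReal, Complex.conj_I]
  congr 1
  · ring
  · exact (map_ofNat (starRingEnd ℂ) 2).symm

/-- smoothness of the Wirtinger derivatives -/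
theorem contDiffOn_dz {f : E n → ℂ} {U : Set (E n)} (hU : IsOpen U) (hf : ContDiffOn ℝ ∞ f U)
    (i : Fin n) : ContDiffOn ℝ ∞ (dz i f) U := by
  have h := hf.fderiv_of_isOpen (m := ∞) hU (by simp)
  unfold dz
  exact ((h.clm_apply contDiffOn_const).sub
    (contDiffOn_const.mul (h.clm_apply contDiffOn_const))).div_const _

theorem contDiffOn_dzb {f : E n → ℂ} {U : Set (E n)} (hU : IsOpen U) (hf : ContDiffOn ℝ ∞ f U)
    (i : Fin n) : ContDiffOn ℝ ∞ (dzb i f) U := by
  have h := hf.fderiv_of_isOpen (m := ∞) hU (by simp)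
  unfold dzb
  exact ((h.clm_apply contDiffOn_const).add
    (contDiffOn_const.mul (h.clm_apply contDiffOn_const))).div_const _


theorem dzb_dz_symm {f : E n → ℂ} {U : Set (E n)} (hU : IsOpen U) (hf : ContDiffOn ℝ ∞ f U)
    {z : E n} (hz : z ∈ U) (i m : Fin n) : dzb m (dz i f) z = dz i (dzb m f) z := by
  have h1 : ContDiffAt ℝ ∞ f z := hf.contDiffAt (hU.mem_nhds hz)
  have hsym : IsSymmSndFDerivAt ℝ f z := h1.isSymmSndFDerivAt (by
    rw [minSmoothness_of_isRCLikeNormedField]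
    exact ENat.LEInfty.out)
  have hd : DifferentiableAt ℝ (fderiv ℝ f) z := by
    have h := hf.fderiv_of_isOpen (m := ∞) hU (by simp)
    exact (h.contDiffAt (hU.mem_nhds hz)).differentiableAt (by simp)
  have e : ∀ w : E n, HasFDerivAt (fun y => fderiv ℝ f y w)
      ((ContinuousLinearMap.apply ℝ ℂ w).comp (fderiv ℝ (fderiv ℝ f) z)) z := fun w =>
    (ContinuousLinearMap.apply ℝ ℂ w).hasFDerivAt.comp z hd.hasFDerivAt
  have e1 : fderiv ℝ (dz i f) z = (2 : ℂ)⁻¹ •
      (((ContinuousLinearMap.apply ℝ ℂ (Pi.single i 1 : E n)).comp (fderiv ℝ (fderiv ℝ f) z))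
        - I • ((ContinuousLinearMap.apply ℝ ℂ (Pi.single i I : E n)).comp
          (fderiv ℝ (fderiv ℝ f) z))) := by
    have h := (((e (Pi.single i 1)).sub ((e (Pi.single i I)).const_mul I)).mul_const
      (2 : ℂ)⁻¹).fderiv
    unfold dz
    simp only [div_eq_mul_inv]
    exact h
  have e2 : fderiv ℝ (dzb m f) z = (2 : ℂ)⁻¹ •
      (((ContinuousLinearMap.apply ℝ ℂ (Pi.single m 1 : E n)).comp (fderiv ℝ (fderiv ℝ f) z))
        + I • ((ContinuousLinearMap.apply ℝ ℂ (Pi.single m I : E n)).comp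
          (fderiv ℝ (fderiv ℝ f) z))) := by
    have h := (((e (Pi.single m 1)).add ((e (Pi.single m I)).const_mul I)).mul_const
      (2 : ℂ)⁻¹).fderiv
    unfold dzb
    simp only [div_eq_mul_inv]
    exact h
  have l1 : dzb m (dz i f) z = (fderiv ℝ (dz i f) z (Pi.single m 1)
      + I * fderiv ℝ (dz i f) z (Pi.single m I)) / 2 := rfl
  have l2 : dz i (dzb m f) z = (fderiv ℝ (dzb m f) z (Pi.single i 1)
      - I * fderiv ℝ (dzb m f) z (Pi.single i I)) / 2 := rfl
  rw [l1, l2, e1, e2]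
  simp only [smul_apply, sub_apply, add_apply, ContinuousLinearMap.comp_apply,
    ContinuousLinearMap.apply_apply, smul_eq_mul]
  rw [hsym (Pi.single m 1) (Pi.single i 1), hsym (Pi.single m 1) (Pi.single i I),
    hsym (Pi.single m I) (Pi.single i 1), hsym (Pi.single m I) (Pi.single i I)]
  ring

end Wirtinger

/-! ## The chart computation -/

section Chart

variable {n : ℕ}

/-- hypotheses in a chart -/
structure ChartHyp (U : Set (E n)) (φ v : E n → ℝ) (k : Fin n → ℤ) (W : E n → E n) : Prop where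
  hU : IsOpen U
  hφ : ContDiffOn ℝ ∞ φ U
  pos : ∀ z ∈ U, (hess φ z).PosDef
  hv : ∀ z ∈ U, v z = fderiv ℝ φ z (gen k z)
  hW : DifferentiableOn ℂ W U
  grad : ∀ z ∈ U, ∀ m, ∑ i, hess φ z i m * W z i = dzb m (fun w => (v w : ℂ)) z
  comm : ∀ z ∈ U, fderiv ℝ W z (gen k z) = gen k (W z)

variable {U : Set (E n)} {φ v : E n → ℝ} {k : Fin n → ℤ} {W : E n → E n}

namespace ChartHyp

variable (h : ChartHyp U φ v k W)
include h

theorem smooth_φc : ContDiffOn ℝ ∞ (fun w => (φ w : ℂ)) U :=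
  Complex.ofRealCLM.contDiff.comp_contDiffOn h.hφ

theorem smooth_v : ContDiffOn ℝ ∞ v U := by
  have h1 := h.hφ.fderiv_of_isOpen (m := ∞) h.hU (by simp)
  have h2 : ContDiffOn ℝ ∞ (fun z => fderiv ℝ φ z (gen k z)) U :=
    h1.clm_apply ((gen k).restrictScalars ℝ).contDiff.contDiffOn
  exact h2.congr h.hv

theorem smooth_vc : ContDiffOn ℝ ∞ (fun w => (v w : ℂ)) U :=
  Complex.ofRealCLM.contDiff.comp_contDiffOn h.smooth_v

theorem smooth_W : ContDiffOn ℝ ∞ W U := contDiffOn_real_of_differentiableOn h.hU h.hW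

theorem smooth_Wi (i : Fin n) : ContDiffOn ℝ ∞ (fun z => W z i) U :=
  contDiffOn_pi.1 h.smooth_W i

theorem diffAt {G : Type*} [NormedAddCommGroup G] [NormedSpace ℝ G] {f : E n → G}
    (hf : ContDiffOn ℝ ∞ f U) {z : E n} (hz : z ∈ U) : DifferentiableAt ℝ f z :=
  (hf.contDiffAt (h.hU.mem_nhds hz)).differentiableAt (by simp)

/-- `W v = |W|² ` -/
theorem Wv_eq {z : E n} (hz : z ∈ U) : ∑ i, dz i (fun w => (v w : ℂ)) z * W z i
    = star (fun i => (starRingEnd ℂ) (W z i)) ⬝ᵥ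
      Matrix.mulVec (hess φ z) (fun i => (starRingEnd ℂ) (W z i)) := by
  have hH := (h.pos z hz).isHermitian
  have e1 : ∀ m, dz m (fun w => (v w : ℂ)) z
      = ∑ i, hess φ z m i * (starRingEnd ℂ) (W z i) := by
    intro m
    rw [dz_conj_real v (h.diffAt h.smooth_v hz), ← h.grad z hz m, map_sum]
    refine Finset.sum_congr rfl fun i _ => ?_
    rw [map_mul]
    congr 1
    exact hH.apply m i
  simp only [dotProduct, Matrix.mulVec, Pi.star_apply, RCLike.star_def, Complex.conj_conj]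
  refine Finset.sum_congr rfl fun m _ => ?_
  rw [e1 m, mul_comm]

/-- the function `N = |W|²` -/
theorem N_eq {z : E n} (hz : z ∈ U) : ∑ i, dz i (fun w => (v w : ℂ)) z * W z i
    = ((fderiv ℝ v z (W z) / 2 : ℝ) : ℂ) := by
  -- real part from `pair_dz`, the imaginary part vanishes by positivity
  have h1 := h.Wv_eq hz
  have him : (∑ i, dz i (fun w => (v w : ℂ)) z * W z i).im = 0 := by
    rw [h1]
    by_cases hW0 : (fun i => (starRingEnd ℂ) (W z i)) = 0
    · rw [hW0]; simp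
    · have := (h.pos z hz).dotProduct_mulVec_pos hW0
      exact ((Complex.lt_def.1 this).2).symm
  have hfd : fderiv ℝ (fun w => (v w : ℂ)) z = Complex.ofRealCLM.comp (fderiv ℝ v z) :=
    (Complex.ofRealCLM.hasFDerivAt.comp z (h.diffAt h.smooth_v hz).hasFDerivAt).fderiv
  have h2 := pair_dz (fun w => (v w : ℂ)) z (W z)
  rw [hfd] at h2
  simp only [ContinuousLinearMap.comp_apply, Complex.ofRealCLM_apply] at h2
  apply Complex.ext
  · rw [h2]
    simp
  · rw [him, Complex.ofReal_im]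

theorem N_nonneg {z : E n} (hz : z ∈ U) : 0 ≤ fderiv ℝ v z (W z) / 2 := by
  have h1 := h.Wv_eq hz
  rw [h.N_eq hz] at h1
  have h2 : (0 : ℂ) ≤ ((fderiv ℝ v z (W z) / 2 : ℝ) : ℂ) := by
    rw [h1]
    exact (h.pos z hz).posSemidef.dotProduct_mulVec_nonneg _
  exact_mod_cast h2

theorem W_eq_zero {z : E n} (hz : z ∈ U) (h0 : fderiv ℝ v z (W z) / 2 = 0) : W z = 0 := by
  have h1 := h.Wv_eq hz
  rw [h.N_eq hz, h0] at h1
  by_contra hW0
  have hne : (fun i => (starRingEnd ℂ) (W z i)) ≠ 0 := by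
    intro hc
    apply hW0
    funext i
    have := congrFun hc i
    simpa using this
  have := (h.pos z hz).dotProduct_mulVec_pos hne
  rw [← h1] at this
  simp at this

/-- if the differential of `v` vanishes then `W` vanishes -/
theorem W_eq_zero' {z : E n} (hz : z ∈ U) (h0 : fderiv ℝ v z = 0) : W z = 0 := by
  apply h.W_eq_zero hz
  rw [h0]; simp

/-- the function `a = W φ - v` -/
def _root_.Pool.Agent.YTDA.afun (φ v : E n → ℝ) (W : E n → E n) (z : E n) : ℂ :=
  ∑ i, dz i (fun w => (φ w : ℂ)) z * W z i - (v z : ℂ)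

theorem smooth_a : ContDiffOn ℝ ∞ (afun φ v W) U := by
  unfold afun
  refine ContDiffOn.sub ?_ h.smooth_vc
  exact ContDiffOn.sum fun i _ => (contDiffOn_dz h.hU h.smooth_φc i).mul (h.smooth_Wi i)

theorem dzb_a {z : E n} (hz : z ∈ U) (m : Fin n) : dzb m (afun φ v W) z = 0 := by
  have hd : ∀ i, DifferentiableAt ℝ (dz i (fun w => (φ w : ℂ))) z := fun i =>
    h.diffAt (contDiffOn_dz h.hU h.smooth_φc i) hz
  have hw : ∀ i, DifferentiableAt ℝ (fun w => W w i) z := fun i => h.diffAt (h.smooth_Wi i) hz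
  have hwc : ∀ i, DifferentiableAt ℂ (fun w => W w i) z := fun i =>
    differentiableAt_pi.1 (h.hW.differentiableAt (h.hU.mem_nhds hz)) i
  have hp : ∀ i ∈ Finset.univ, DifferentiableAt ℝ
      (fun w => dz i (fun w => (φ w : ℂ)) w * W w i) z := fun i _ => (hd i).mul (hw i)
  have hs : DifferentiableAt ℝ (fun w => ∑ i, dz i (fun w => (φ w : ℂ)) w * W w i) z :=
    DifferentiableAt.fun_sum hp
  have e0 : dzb m (afun φ v W) z = dzb m (fun w => ∑ i, dz i (fun w => (φ w : ℂ)) w * W w i) z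
      - dzb m (fun w => (v w : ℂ)) z := dzb_sub hs (h.diffAt h.smooth_vc hz) m
  rw [e0, dzb_sum _ hp, ← h.grad z hz m, ← Finset.sum_sub_distrib]
  refine Finset.sum_eq_zero fun i _ => ?_
  rw [cb_dzb_mul (hd i) (hw i), dzb_of_holo (hwc i), mul_zero, add_zero,
    dzb_dz_symm h.hU h.smooth_φc hz]
  exact sub_self _

/-- `Z a = W v - Z v` -/
theorem Za_eq {z : E n} (hz : z ∈ U) : fderiv ℝ (afun φ v W) z (gen k z)
    = ((fderiv ℝ v z (W z) / 2 - fderiv ℝ v z (gen k z) : ℝ) : ℂ) := by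
  set Φ : E n → ℂ := fun w => (φ w : ℂ) with hΦ
  set V : E n → ℂ := fun w => (v w : ℂ) with hV
  have hsm := h.smooth_φc
  have h1 : ContDiffAt ℝ ∞ Φ z := hsm.contDiffAt (h.hU.mem_nhds hz)
  have hsym : IsSymmSndFDerivAt ℝ Φ z := h1.isSymmSndFDerivAt (by
    rw [minSmoothness_of_isRCLikeNormedField]
    exact ENat.LEInfty.out)
  have hd : DifferentiableAt ℝ (fderiv ℝ Φ) z :=
    h.diffAt (hsm.fderiv_of_isOpen (m := ∞) h.hU (by simp)) hz
  have hdv : HasFDerivAt V (fderiv ℝ V z) z := (h.diffAt h.smooth_vc hz).hasFDerivAt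
  have hdW : HasFDerivAt W (fderiv ℝ W z) z := (h.diffAt h.smooth_W hz).hasFDerivAt
  have hdIW : HasFDerivAt (fun w => I • W w) (I • fderiv ℝ W z) z := hdW.const_smul I
  -- `F w = (Φ'(W) - I Φ'(I W)) / 2`
  have ea : ∀ w, afun φ v W w = (fderiv ℝ Φ w (W w) - I * fderiv ℝ Φ w (I • W w)) * (2 : ℂ)⁻¹
      - V w := by
    intro w
    unfold afun
    rw [pair_dz, div_eq_mul_inv]
  have hF := (((hd.hasFDerivAt.clm_apply hdW).sub
    ((hd.hasFDerivAt.clm_apply hdIW).const_mul I)).mul_const (2 : ℂ)⁻¹).sub hdv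
  have hFa : HasFDerivAt (afun φ v W) _ z := hF.congr_of_eventuallyEq
    (Filter.Eventually.of_forall ea)
  rw [hFa.fderiv]
  -- `v w = Φ'(gen w)`
  have ev : V =ᶠ[𝓝 z] fun w => fderiv ℝ Φ w (gen k w) := by
    filter_upwards [h.hU.mem_nhds hz] with w hw
    have hfd : fderiv ℝ Φ w = Complex.ofRealCLM.comp (fderiv ℝ φ w) :=
      (Complex.ofRealCLM.hasFDerivAt.comp w (h.diffAt h.hφ hw).hasFDerivAt).fderiv
    rw [hfd, hV]
    simp only [ContinuousLinearMap.comp_apply, Complex.ofRealCLM_apply]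
    rw [h.hv w hw]
  have hgen : HasFDerivAt (fun w => gen k w) ((gen k).restrictScalars ℝ) z :=
    ((gen k).restrictScalars ℝ).hasFDerivAt
  have hv' := (hd.hasFDerivAt.clm_apply hgen).congr_of_eventuallyEq ev
  have hfdv : ∀ w, fderiv ℝ V z w = fderiv ℝ (fderiv ℝ Φ) z w (gen k z)
      + fderiv ℝ Φ z (gen k w) := by
    intro w
    rw [hv'.fderiv]
    simp [add_comm]
  have hN := h.N_eq hz
  rw [pair_dz] at hN
  have hfdV : fderiv ℝ V z (gen k z) = ((fderiv ℝ v z (gen k z) : ℝ) : ℂ) := by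
    have : fderiv ℝ V z = Complex.ofRealCLM.comp (fderiv ℝ v z) :=
      (Complex.ofRealCLM.hasFDerivAt.comp z (h.diffAt h.smooth_v hz).hasFDerivAt).fderiv
    rw [this]; rfl
  rw [Complex.ofReal_sub, ← hN, ← hfdV]
  rw [hfdv (W z), hfdv (I • W z)]
  simp only [sub_apply, smul_apply, add_apply, ContinuousLinearMap.comp_apply,
    ContinuousLinearMap.flip_apply, smul_eq_mul, h.comm z hz, map_smul]
  rw [hsym (gen k z) (W z), hsym (gen k z) (I • W z)]
  ring

theorem smooth_c0 :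
    ContDiffOn ℝ ∞ (fun z => fderiv ℝ v z (W z) / 2 - fderiv ℝ v z (gen k z)) U := by
  have h1 := h.smooth_v.fderiv_of_isOpen (m := ∞) h.hU (by simp)
  exact ((h1.clm_apply h.smooth_W).div_const 2).sub
    (h1.clm_apply ((gen k).restrictScalars ℝ).contDiff.contDiffOn)

/-- `c₀ = |W|² - Z v` is locally constant -/
theorem fderiv_c0 {z : E n} (hz : z ∈ U) :
    fderiv ℝ (fun z => fderiv ℝ v z (W z) / 2 - fderiv ℝ v z (gen k z)) z = 0 := by
  set c0 : E n → ℝ := fun z => fderiv ℝ v z (W z) / 2 - fderiv ℝ v z (gen k z) with hc0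
  set a := afun φ v W with ha
  have hsm := h.smooth_a
  have h1 : ContDiffAt ℝ ∞ a z := hsm.contDiffAt (h.hU.mem_nhds hz)
  have hsym : IsSymmSndFDerivAt ℝ a z := h1.isSymmSndFDerivAt (by
    rw [minSmoothness_of_isRCLikeNormedField]
    exact ENat.LEInfty.out)
  have hd : DifferentiableAt ℝ (fderiv ℝ a) z :=
    h.diffAt (hsm.fderiv_of_isOpen (m := ∞) h.hU (by simp)) hz
  set B := fderiv ℝ (fderiv ℝ a) z with hB
  have l1 : ∀ z' ∈ U, ∀ x : E n, fderiv ℝ a z' (I • x) = I * fderiv ℝ a z' x := by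
    intro z' hz' x
    rw [fderiv_dz, fderiv_dz, Finset.mul_sum]
    refine Finset.sum_congr rfl fun i _ => ?_
    rw [h.dzb_a hz' i]
    simp only [Pi.smul_apply, smul_eq_mul, zero_mul, add_zero]
    ring
  have l2 : ∀ w x : E n, B w (I • x) = I * B w x := by
    intro w x
    have e1 : HasFDerivAt (fun z' => fderiv ℝ a z' (I • x))
        ((ContinuousLinearMap.apply ℝ ℂ (I • x)).comp B) z :=
      (ContinuousLinearMap.apply ℝ ℂ (I • x)).hasFDerivAt.comp z hd.hasFDerivAt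
    have e2 : HasFDerivAt (fun z' => I * fderiv ℝ a z' x)
        (I • (ContinuousLinearMap.apply ℝ ℂ x).comp B) z :=
      ((ContinuousLinearMap.apply ℝ ℂ x).hasFDerivAt.comp z hd.hasFDerivAt).const_mul I
    have e3 : (fun z' => fderiv ℝ a z' (I • x)) =ᶠ[𝓝 z] fun z' => I * fderiv ℝ a z' x := by
      filter_upwards [h.hU.mem_nhds hz] with z' hz'
      exact l1 z' hz' x
    have e4 := (e1.congr_of_eventuallyEq e3.symm).unique e2
    have e5 := congrArg (fun T => T w) e4
    simpa using e5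
  have hgen : HasFDerivAt (fun w => gen k w) ((gen k).restrictScalars ℝ) z :=
    ((gen k).restrictScalars ℝ).hasFDerivAt
  have l3 := hd.hasFDerivAt.clm_apply hgen
  have l4 : (fun y => fderiv ℝ a y (gen k y)) =ᶠ[𝓝 z] fun y => (c0 y : ℂ) := by
    filter_upwards [h.hU.mem_nhds hz] with y hy
    rw [ha, h.Za_eq hy]
  have l5 : HasFDerivAt (fun y => (c0 y : ℂ)) (Complex.ofRealCLM.comp (fderiv ℝ c0 z)) z :=
    Complex.ofRealCLM.hasFDerivAt.comp z (h.diffAt h.smooth_c0 hz).hasFDerivAt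
  have l6 := (l3.congr_of_eventuallyEq l4.symm).unique l5
  have l7 : ∀ w : E n, ((fderiv ℝ c0 z w : ℝ) : ℂ) = B w (gen k z) + fderiv ℝ a z (gen k w) := by
    intro w
    have := congrArg (fun T => T w) l6
    simp at this
    rw [← this]; ring
  ext w
  have e1 := l7 w
  have e2 := l7 (I • w)
  have e0 : gen k (I • w) = I • gen k w := (gen k).map_smul I w
  rw [hsym (I • w) (gen k z), l2, e0, l1 z hz, ← mul_add, hsym (gen k z) w, ← e1] at e2
  have e3 := congrArg Complex.im e2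
  simp at e3
  simpa using e3.symm

end ChartHyp

end Chart

/-! ## Global part -/

namespace PolAtlas

variable {n : ℕ} {Y : Type} [MulAction ℂˣ Y] (A : PolAtlas n Y)

/-- a continuous invariant function on a compact `M` has a maximum -/
theorem exists_max (hc : A.IsCpt) [Nonempty Y] (F : Y → ℝ) (hF : ∀ (c : ℂˣ) y, F (c • y) = F y)
    (hcont : ∀ a, ContinuousOn (fun z => F (A.γ a z)) (A.U a)) : ∃ y₀, ∀ y, F y ≤ F y₀ := by
  classical
  obtain ⟨m, a, K, hK, hcov⟩ := hc
  -- the maximum on each nonempty compact piece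
  have h1 : ∀ k, (K k).Nonempty → ∃ z ∈ K k, ∀ w ∈ K k, F (A.γ (a k) w) ≤ F (A.γ (a k) z) := by
    intro k hk
    obtain ⟨z, hz, hmax⟩ := (hK k).1.exists_isMaxOn hk ((hcont (a k)).mono (hK k).2)
    exact ⟨z, hz, fun w hw => hmax hw⟩
  choose! z hz hmax using h1
  let s : Finset (Fin m) := Finset.univ.filter fun k => (K k).Nonempty
  obtain ⟨y₁⟩ := ‹Nonempty Y›
  have hs : s.Nonempty := by
    obtain ⟨k, w, hw, c, -⟩ := hcov y₁
    exact ⟨k, by simpa [s] using ⟨w, hw⟩⟩
  obtain ⟨k₀, hk₀, hmax₀⟩ := s.exists_max_image (fun k => F (A.γ (a k) (z k))) hs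
  refine ⟨A.γ (a k₀) (z k₀), fun y => ?_⟩
  obtain ⟨k, w, hw, c, rfl⟩ := hcov y
  rw [hF]
  have hk : (K k).Nonempty := ⟨w, hw⟩
  exact (hmax k hk w hw).trans (hmax₀ k (by simpa [s] using hk))

variable {A}

section Circle

variable (D : A.DAct) (H : Y → ℝ)

/-- the hamiltonian as a function on `Y` -/
def Vg (y : Y) : ℝ := deriv (fun θ : ℝ => Real.log (H (D.act (cb_uexp θ) y))) 0

variable {H}

theorem cb_log_act (hK : A.IsKahler H) {a : A.ι} {z : E n} (hz : z ∈ A.U a) (c : ℂˣ) (θ : ℝ) :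
    Real.log (H (D.act (cb_uexp θ) (c • A.γ a z)))
      = Real.log (‖(c : ℂ)‖ ^ 2) + A.pot H a (dact (D.k a) (cb_uexp θ) z) := by
  rw [D.act_smul, D.act_γ a z hz, hK.hom, hK.hom, cb_norm_uexp_zpow, one_pow, one_mul,
    Real.log_mul (by have := c.ne_zero; positivity) (hK.pos _).ne']
  rfl

theorem diffAt_pot (hK : A.IsKahler H) {a : A.ι} {z : E n} (hz : z ∈ A.U a) :
    DifferentiableAt ℝ (A.pot H a) z :=
  ((hK.smooth a).contDiffAt ((A.isOpen_U a).mem_nhds hz)).differentiableAt (by simp)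

theorem cv_eq (hK : A.IsKahler H) {a : A.ι} {z : E n} (hz : z ∈ A.U a) :
    A.cv D H a z = fderiv ℝ (A.pot H a) z (gen (D.k a) z) := by
  unfold cv
  have h1 : (fun θ : ℝ => A.pot H a (fun j => exp ((D.k a j : ℂ) * θ * I) * z j))
      = fun θ : ℝ => A.pot H a (dact (D.k a) (cb_uexp θ) z) := by
    funext θ; rw [dact_uexp]
  rw [h1]
  have h2 := cb_hasDerivAt_dact (D.k a) 0 z
  rw [uexp_zero, dact_one] at h2
  have h3 : HasFDerivAt (A.pot H a) (fderiv ℝ (A.pot H a) z) (dact (D.k a) (cb_uexp 0) z) := by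
    rw [uexp_zero, dact_one]; exact (diffAt_pot hK hz).hasFDerivAt
  exact (h3.comp_hasDerivAt 0 h2).deriv

theorem Vg_eq (hK : A.IsKahler H) {a : A.ι} {z : E n} (hz : z ∈ A.U a) (c : ℂˣ) :
    Vg D H (c • A.γ a z) = A.cv D H a z := by
  unfold Vg
  have h1 : (fun θ : ℝ => Real.log (H (D.act (cb_uexp θ) (c • A.γ a z))))
      = fun θ : ℝ => Real.log (‖(c : ℂ)‖ ^ 2) + A.pot H a (dact (D.k a) (cb_uexp θ) z) := by
    funext θ; exact cb_log_act D hK hz c θ
  rw [h1, deriv_const_add]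
  unfold cv
  congr 1
  funext θ; rw [dact_uexp]

/-- derivative of an invariant function along the orbits of the circle -/
theorem hasDerivAt_orbit {F : Y → ℝ} {a : A.ι} {f : E n → ℝ}
    (hf : ∀ z ∈ A.U a, ∀ c : ℂˣ, F (c • A.γ a z) = f z)
    (y : Y) (θ₀ : ℝ) {z : E n} (hz : z ∈ A.U a) (hd : DifferentiableAt ℝ f z) (c : ℂˣ)
    (hy : D.act (cb_uexp θ₀) y = c • A.γ a z) :
    HasDerivAt (fun θ : ℝ => F (D.act (cb_uexp θ) y)) (fderiv ℝ f z (gen (D.k a) z)) θ₀ := by
  have h1 : ∀ θ : ℝ, F (D.act (cb_uexp θ) y) = f (dact (D.k a) (cb_uexp (θ - θ₀)) z) := by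
    intro θ
    have e1 : D.act (cb_uexp θ) y = (c * cb_uexp (θ - θ₀) ^ D.m a) •
        A.γ a (dact (D.k a) (cb_uexp (θ - θ₀)) z) := by
      have : cb_uexp θ = cb_uexp (θ - θ₀) * cb_uexp θ₀ := by rw [← uexp_add]; congr 1; ring
      rw [this, D.act_mul, hy, D.act_smul, D.act_γ a z hz, mul_smul]
    rw [e1, hf _ (D.dom a z hz _)]
  have h2 : (fun θ : ℝ => F (D.act (cb_uexp θ) y))
      = fun θ : ℝ => f (dact (D.k a) (cb_uexp (θ - θ₀)) z) := funext h1
  rw [h2]
  exact hasDerivAt_comp_dact (D.k a) hd θ₀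

/-- the log of `H` along the orbits -/
theorem hasDerivAt_log (hK : A.IsKahler H) (y : Y) (θ₀ : ℝ) :
    HasDerivAt (fun θ : ℝ => Real.log (H (D.act (cb_uexp θ) y)))
      (Vg D H (D.act (cb_uexp θ₀) y)) θ₀ := by
  obtain ⟨a, z, hz, c, hy⟩ := A.cover (D.act (cb_uexp θ₀) y)
  have h1 : ∀ θ : ℝ, Real.log (H (D.act (cb_uexp θ) y)) = Real.log (‖(c : ℂ)‖ ^ 2)
      + A.pot H a (dact (D.k a) (cb_uexp (θ - θ₀)) z) := by
    intro θ
    have : cb_uexp θ = cb_uexp (θ - θ₀) * cb_uexp θ₀ := by rw [← uexp_add]; congr 1; ring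
    rw [this, D.act_mul, hy, cb_log_act D hK hz]
  have h2 : (fun θ : ℝ => Real.log (H (D.act (cb_uexp θ) y))) = fun θ : ℝ =>
      Real.log (‖(c : ℂ)‖ ^ 2) + A.pot H a (dact (D.k a) (cb_uexp (θ - θ₀)) z) := funext h1
  rw [h2, hy, Vg_eq D hK hz, cv_eq D hK hz]
  exact (hasDerivAt_comp_dact (D.k a) (diffAt_pot hK hz) θ₀).const_add _

/-- the chart hypotheses for a circle-invariant holomorphic gradient -/
theorem chartHyp (hK : A.IsKahler H) (W : A.HolField)
    (hW : ∀ a, ∀ z ∈ A.U a, ∀ m, ∑ k, hess (A.pot H a) z k m * W.W a z k =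
        dzb m (fun w => (A.cv D H a w : ℂ)) z)
    (hinv : ∀ a, ∀ z ∈ A.U a, ∀ c : ℂˣ, ‖(c : ℂ)‖ = 1 →
        W.W a (dact (D.k a) c z) = dact (D.k a) c (W.W a z)) (a : A.ι) :
    ChartHyp (A.U a) (A.pot H a) (A.cv D H a) (D.k a) (W.W a) where
  hU := A.isOpen_U a
  hφ := hK.smooth a
  pos := hK.posDef a
  hv := fun z hz => cv_eq D hK hz
  hW := W.hol a
  grad := hW a
  comm := by
    intro z hz
    have hd : DifferentiableAt ℝ (W.W a) z :=
      ((W.hol a).differentiableAt ((A.isOpen_U a).mem_nhds hz)).restrictScalars ℝ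
    have h3 := cb_hasDerivAt_dact (D.k a) 0 z
    rw [uexp_zero, dact_one] at h3
    have h4 : HasFDerivAt (W.W a) (fderiv ℝ (W.W a) z) (dact (D.k a) (cb_uexp 0) z) := by
      rw [uexp_zero, dact_one]; exact hd.hasFDerivAt
    have h5 : HasDerivAt (fun θ : ℝ => W.W a (dact (D.k a) (cb_uexp θ) z))
        (fderiv ℝ (W.W a) z (gen (D.k a) z)) 0 := h4.comp_hasDerivAt (0 : ℝ) h3
    have h6 := cb_hasDerivAt_dact (D.k a) 0 (W.W a z)
    rw [uexp_zero, dact_one] at h6
    have h7 : (fun θ : ℝ => W.W a (dact (D.k a) (cb_uexp θ) z))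
        = fun θ : ℝ => dact (D.k a) (cb_uexp θ) (W.W a z) := by
      funext θ; exact hinv a z hz _ (cb_norm_uexp θ)
    rw [h7] at h5
    exact h5.unique h6

/-- **T3b.** If the gradient of the hamiltonian is a holomorphic vector field which is invariant
under the circle, then the metric is invariant under the circle. -/
theorem circle_of_field (hc : A.IsCpt) (hK : A.IsKahler H) (W : A.HolField)
    (hW : ∀ a, ∀ z ∈ A.U a, ∀ m, ∑ k, hess (A.pot H a) z k m * W.W a z k =
        dzb m (fun w => (A.cv D H a w : ℂ)) z)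
    (hinv : ∀ a, ∀ z ∈ A.U a, ∀ c : ℂˣ, ‖(c : ℂ)‖ = 1 →
        W.W a (dact (D.k a) c z) = dact (D.k a) c (W.W a z)) :
    ∀ (c : ℂˣ) y, ‖(c : ℂ)‖ = 1 → H (D.act c y) = H y := by
  classical
  have hC := fun a => chartHyp D hK W hW hinv a
  -- the global functions
  have hVinv : ∀ (c : ℂˣ) y, Vg D H (c • y) = Vg D H y := by
    intro c y
    obtain ⟨a, z, hz, c', rfl⟩ := A.cover y
    rw [← mul_smul, Vg_eq D hK hz, Vg_eq D hK hz]
  -- `N = |W|²`, independent of the chart
  have hNex : ∀ y : Y, ∃ r : ℝ, ∀ a, ∀ z ∈ A.U a, ∀ c : ℂˣ, y = c • A.γ a z →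
      r = fderiv ℝ (A.cv D H a) z (W.W a z) / 2 := by
    intro y
    obtain ⟨a, z, hz, c, hy⟩ := A.cover y
    refine ⟨fderiv ℝ (A.cv D H a) z (W.W a z) / 2, ?_⟩
    intro b z' hz' c' hy'
    have hO : z ∈ A.O a b := by
      refine ⟨hz, z', hz', c'⁻¹ * c, ?_⟩
      rw [mul_smul, ← hy, hy', inv_smul_smul]
    obtain ⟨t1, t2⟩ := A.trans a b z hz hO.2
    have hτ : A.τ a b z = z' := by
      have e : A.γ b (A.τ a b z) = (A.h a b z * c⁻¹ * c') • A.γ b z' := by
        rw [t2, mul_smul, mul_smul, ← hy', hy, inv_smul_smul]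
      exact (A.inj b z' hz' _ t1 _ e).1
    have hOo : A.O a b ∈ 𝓝 z := (A.isOpen_O a b).mem_nhds hO
    have hdτ : DifferentiableAt ℂ (A.τ a b) z := (A.hol_τ a b).differentiableAt hOo
    have hdτ' : HasFDerivAt (A.τ a b) ((fderiv ℂ (A.τ a b) z).restrictScalars ℝ) z :=
      hdτ.hasFDerivAt.restrictScalars ℝ
    have hv : A.cv D H a =ᶠ[𝓝 z] fun w => A.cv D H b (A.τ a b w) := by
      filter_upwards [hOo] with w hw
      obtain ⟨s1, s2⟩ := A.trans a b w hw.1 hw.2
      have e1 := Vg_eq D hK hw.1 (1 : ℂˣ)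
      have e2 := Vg_eq D hK s1 (1 : ℂˣ)
      rw [one_smul] at e1 e2
      rw [← e1, ← e2, s2, hVinv]
    have hdb : HasFDerivAt (A.cv D H b) (fderiv ℝ (A.cv D H b) z') (A.τ a b z) := by
      rw [hτ]
      exact ((hC b).diffAt (hC b).smooth_v hz').hasFDerivAt
    have hcomp := (hdb.comp z hdτ').congr_of_eventuallyEq hv
    rw [hcomp.fderiv, ContinuousLinearMap.comp_apply]
    have hWt := W.trans a b z hO
    rw [hτ] at hWt
    rw [hWt]
    rfl
  choose N hN using hNex
  have hN' : ∀ a, ∀ z ∈ A.U a, ∀ c : ℂˣ, N (c • A.γ a z)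
      = fderiv ℝ (A.cv D H a) z (W.W a z) / 2 := fun a z hz c => hN _ a z hz c rfl
  -- `Z v`
  set ZV : Y → ℝ := fun y => deriv (fun θ : ℝ => Vg D H (D.act (cb_uexp θ) y)) 0 with hZV
  have hdV : ∀ a, ∀ z ∈ A.U a, DifferentiableAt ℝ (A.cv D H a) z := fun a z hz =>
    (hC a).diffAt (hC a).smooth_v hz
  have hact0 : ∀ y, D.act (cb_uexp 0) y = y := fun y => by rw [uexp_zero, D.act_one]
  have hZV' : ∀ a, ∀ z ∈ A.U a, ∀ c : ℂˣ, ZV (c • A.γ a z)
      = fderiv ℝ (A.cv D H a) z (gen (D.k a) z) := by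
    intro a z hz c
    exact (hasDerivAt_orbit D (F := Vg D H) (fun z hz c => Vg_eq D hK hz c) _ 0 hz (hdV a z hz) c
      (hact0 _)).deriv
  have hVd : ∀ y θ₀, HasDerivAt (fun θ : ℝ => Vg D H (D.act (cb_uexp θ) y))
      (ZV (D.act (cb_uexp θ₀) y)) θ₀ := by
    intro y θ₀
    obtain ⟨a, z, hz, c, hy⟩ := A.cover (D.act (cb_uexp θ₀) y)
    rw [hy, hZV' a z hz c]
    exact hasDerivAt_orbit D (F := Vg D H) (fun z hz c => Vg_eq D hK hz c) _ θ₀ hz (hdV a z hz) c hy
  set C0 : Y → ℝ := fun y => N y - ZV y with hC0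
  have hC0' : ∀ a, ∀ z ∈ A.U a, ∀ c : ℂˣ, C0 (c • A.γ a z)
      = fderiv ℝ (A.cv D H a) z (W.W a z) / 2 - fderiv ℝ (A.cv D H a) z (gen (D.k a) z) := by
    intro a z hz c
    rw [hC0]; simp only; rw [hN' a z hz c, hZV' a z hz c]
  have hC0inv : ∀ (c : ℂˣ) y, C0 (c • y) = C0 y := by
    intro c y
    obtain ⟨a, z, hz, c', rfl⟩ := A.cover y
    rw [← mul_smul, hC0' a z hz, hC0' a z hz]
  -- `C0` is constant in charts near every point
  have hC0loc : ∀ a, ∀ z ∈ A.U a, ∀ᶠ w in 𝓝 z, C0 (A.γ a w) = C0 (A.γ a z) := by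
    intro a z hz
    obtain ⟨ε, hε, hball⟩ := Metric.isOpen_iff.1 (A.isOpen_U a) z hz
    filter_upwards [Metric.ball_mem_nhds z hε] with w hw
    have h1 : ∀ x ∈ A.U a, C0 (A.γ a x) = (fun z => fderiv ℝ (A.cv D H a) z (W.W a z) / 2
        - fderiv ℝ (A.cv D H a) z (gen (D.k a) z)) x := by
      intro x hx
      have := hC0' a x hx 1
      rwa [one_smul] at this
    rw [h1 w (hball hw), h1 z hz]
    have hconv : Convex ℝ (Metric.ball z ε) := convex_ball z ε
    refine hconv.is_const_of_fderivWithin_eq_zero (𝕜 := ℝ)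
      (f := fun z => fderiv ℝ (A.cv D H a) z (W.W a z) / 2
        - fderiv ℝ (A.cv D H a) z (gen (D.k a) z)) ?_ ?_ hw (Metric.mem_ball_self hε)
    · intro x hx
      exact ((hC a).diffAt (hC a).smooth_c0 (hball hx)).differentiableWithinAt
    · intro x hx
      rw [fderivWithin_of_isOpen Metric.isOpen_ball hx]
      exact (hC a).fderiv_c0 (hball hx)
  have hC0cont : ∀ a, ContinuousOn (fun z => C0 (A.γ a z)) (A.U a) := by
    intro a z hz
    refine ContinuousAt.continuousWithinAt ?_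
    exact continuousAt_const.congr (Filter.EventuallyEq.symm (hC0loc a z hz))
  have hVcont : ∀ a, ContinuousOn (fun z => Vg D H (A.γ a z)) (A.U a) := by
    intro a
    refine (hC a).smooth_v.continuousOn.congr fun z hz => ?_
    have := Vg_eq D hK hz (1 : ℂˣ)
    rwa [one_smul] at this
  -- `C0 = 0`
  intro c₁ y₁ hc₁
  have _ : Nonempty Y := ⟨y₁⟩
  have hmax : ∀ κ : ℝ, ∃ y₀, C0 y₀ = 0 ∧ ∀ y, κ * C0 y + Vg D H y ≤ Vg D H y₀ := by
    intro κ
    obtain ⟨y₀, hy₀⟩ := A.exists_max hc (fun y => κ * C0 y + Vg D H y)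
      (fun c y => by simp only [hC0inv, hVinv])
      (fun a => (continuousOn_const.mul (hC0cont a)).add (hVcont a))
    obtain ⟨a, z, hz, c, rfl⟩ := A.cover y₀
    have hloc : IsLocalMax (A.cv D H a) z := by
      filter_upwards [hC0loc a z hz, (A.isOpen_U a).mem_nhds hz] with w hw hwU
      have h1 := hy₀ (c • A.γ a w)
      simp only [hC0inv] at h1
      rw [hw, Vg_eq D hK hwU, Vg_eq D hK hz] at h1
      linarith
    have hfd := hloc.fderiv_eq_zero
    have h0 : C0 (c • A.γ a z) = 0 := by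
      rw [hC0' a z hz c, hfd]; simp
    refine ⟨_, h0, fun y => ?_⟩
    have h1 := hy₀ y
    rw [h0, mul_zero, zero_add] at h1
    exact h1
  have hC0z : ∀ y, C0 y = 0 := by
    intro y
    by_contra hne
    obtain ⟨y₂, -, h2⟩ := hmax 0
    obtain ⟨y₃, -, h3⟩ := hmax ((Vg D H y₂ - Vg D H y + 1) / C0 y)
    have e1 := h3 y
    rw [div_mul_cancel₀ _ hne] at e1
    have e2 := h2 y₃
    rw [zero_mul, zero_add] at e2
    linarith
  -- `N ≥ 0`, so `v` is nondecreasing along the orbits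
  have hNnn : ∀ y, 0 ≤ N y := by
    intro y
    obtain ⟨a, z, hz, c, rfl⟩ := A.cover y
    rw [hN' a z hz c]
    exact (hC a).N_nonneg hz
  have hZN : ∀ y, ZV y = N y := fun y => by
    have := hC0z y
    simp only [hC0] at this
    linarith
  have hact2 : ∀ y (θ : ℝ), D.act (cb_uexp (θ + 2 * Real.pi)) y = D.act (cb_uexp θ) y := by
    intro y θ; rw [uexp_add, uexp_two_pi, mul_one]
  have hZ0 : ∀ y, ZV y = 0 := by
    intro y
    set f : ℝ → ℝ := fun θ => Vg D H (D.act (cb_uexp θ) y) with hf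
    have hmono : Monotone f := by
      refine monotone_of_deriv_nonneg (fun θ => (hVd y θ).differentiableAt) fun θ => ?_
      rw [(hVd y θ).deriv, hZN]
      exact hNnn _
    have hper : ∀ θ, f (θ + 2 * Real.pi) = f θ := fun θ => by rw [hf]; simp only [hact2]
    have hconst : ∀ θ, f θ = f 0 := by
      have key : ∀ θ η, θ ≤ η → f η = f θ := by
        intro θ η hθη
        obtain ⟨m, hm⟩ := exists_nat_ge ((η - θ) / (2 * Real.pi))
        have hper' : ∀ m : ℕ, f (θ + m * (2 * Real.pi)) = f θ := by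
          intro m
          induction m with
          | zero => simp
          | succ m ih =>
            rw [← ih, ← hper (θ + m * (2 * Real.pi))]
            congr 1
            push_cast
            ring
        refine le_antisymm ?_ (hmono hθη)
        rw [← hper' m]
        apply hmono
        have hpi := Real.two_pi_pos
        have := (div_le_iff₀ hpi).1 hm
        linarith
      intro θ
      rcases le_total θ 0 with h | h
      · exact (key θ 0 h).symm
      · exact key 0 θ h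
    have h1 := (hVd y 0)
    rw [hact0] at h1
    have h2 : HasDerivAt f 0 0 := by
      have : f = fun _ => f 0 := funext hconst
      rw [this]
      exact hasDerivAt_const _ _
    exact h1.unique h2
  -- conclusion
  set g : ℝ → ℝ := fun θ => Real.log (H (D.act (cb_uexp θ) y₁)) with hg
  have hgd : ∀ θ, HasDerivAt g (Vg D H (D.act (cb_uexp θ) y₁)) θ := fun θ =>
    hasDerivAt_log D hK y₁ θ
  have hVc : ∀ θ, Vg D H (D.act (cb_uexp θ) y₁) = Vg D H y₁ := by
    intro θ
    have h1 := is_const_of_deriv_eq_zero (f := fun θ => Vg D H (D.act (cb_uexp θ) y₁))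
      (fun θ => (hVd y₁ θ).differentiableAt) (fun θ => by rw [(hVd y₁ θ).deriv, hZ0]) θ 0
    rw [h1, hact0]
  have hg2 : ∀ θ, g θ - Vg D H y₁ * θ = g 0 := by
    intro θ
    have hd : ∀ θ, HasDerivAt (fun θ => g θ - Vg D H y₁ * θ) 0 θ := by
      intro θ
      have h1 := (hgd θ).sub ((hasDerivAt_id θ).const_mul (Vg D H y₁))
      simp only [hVc, id, mul_one, sub_self] at h1
      exact h1
    have h1 := is_const_of_deriv_eq_zero (f := fun θ => g θ - Vg D H y₁ * θ)
      (fun θ => (hd θ).differentiableAt) (fun θ => (hd θ).deriv) θ 0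
    simp only [mul_zero, sub_zero] at h1
    exact h1
  have hV0 : Vg D H y₁ = 0 := by
    have h1 := hg2 (2 * Real.pi)
    have h2 : g (2 * Real.pi) = g 0 := by
      have := hact2 y₁ 0
      rw [zero_add] at this
      simp only [hg, this]
    rw [h2] at h1
    have h3 : Vg D H y₁ * (2 * Real.pi) = 0 := by linarith
    rcases mul_eq_zero.1 h3 with h | h
    · exact h
    · exact absurd h Real.two_pi_pos.ne'
  obtain ⟨θ, rfl⟩ := exists_uexp c₁ hc₁
  have h1 := hg2 θ
  rw [hV0, zero_mul, sub_zero] at h1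
  simp only [hg, hact0] at h1
  exact Real.log_injOn_pos (Set.mem_Ioi.2 (hK.pos _)) (Set.mem_Ioi.2 (hK.pos _)) h1

end Circle

end PolAtlas

end

end Pool.Agent.YTDA


end

/- source: Pool.Agent.YTDA.SecPoly -/

section

/-!
# Expansion of functions on the fibres of `X`: polynomials from charts at zero and infinity
-/

set_option autoImplicit false

namespace Pool.Agent.YTDA

open Complex Set Topology Filter Finset

noncomputable section

/-- An entire function with a pole at infinity is a polynomial. -/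
theorem poly_of_inv (M : ℕ) : ∀ {H G : ℂ → ℂ}, Differentiable ℂ H → Differentiable ℂ G →
    (∀ w ≠ 0, H w = w ^ M * G w⁻¹) → ∃ a : ℕ → ℂ, ∀ w, H w = ∑ l ∈ range (M + 1), a l * w ^ l := by
  induction M with
  | zero =>
    intro H G hH hG h
    refine ⟨fun _ => H 0, fun w => ?_⟩
    have hb : Bornology.IsBounded (Set.range H) := by
      obtain ⟨C, hC⟩ := (isCompact_closedBall (0 : ℂ) 1).exists_bound_of_continuousOn
        hH.continuous.continuousOn
      obtain ⟨C', hC'⟩ := (isCompact_closedBall (0 : ℂ) 1).exists_bound_of_continuousOn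
        hG.continuous.continuousOn
      rw [isBounded_iff_forall_norm_le]
      refine ⟨max C C', ?_⟩
      rintro _ ⟨w, rfl⟩
      by_cases hw : ‖w‖ ≤ 1
      · exact (hC w (by simpa using hw)).trans (le_max_left _ _)
      · have hw0 : w ≠ 0 := by
          rintro rfl
          simp at hw
        rw [h w hw0, pow_zero, one_mul]
        refine (hC' _ ?_).trans (le_max_right _ _)
        simp only [mem_closedBall_zero_iff, norm_inv]
        exact inv_le_one_of_one_le₀ (not_le.1 hw).le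
    have := hH.apply_eq_apply_of_bounded hb w 0
    simp [this]
  | succ M ih =>
    intro H G hH hG h
    have hd : Differentiable ℂ (dslope H 0) := by
      rw [← differentiableOn_univ, Complex.differentiableOn_dslope univ_mem, differentiableOn_univ]
      exact hH
    have hG' : Differentiable ℂ fun v => G v - H 0 * v ^ (M + 1) := by fun_prop
    obtain ⟨a, ha⟩ := ih hd hG' (by
      intro w hw
      rw [dslope_of_ne _ hw, slope_def_field, h w hw, inv_pow, sub_zero, div_eq_iff hw]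
      have h2 : w ^ (M + 1) * (w ^ (M + 1))⁻¹ = 1 := mul_inv_cancel₀ (pow_ne_zero _ hw)
      linear_combination (H 0) * h2)
    have e : ∀ w, H w = H 0 + w * dslope H 0 w := by
      intro w
      by_cases hw : w = 0
      · subst hw
        simp
      · rw [dslope_of_ne _ hw, slope_def_field]
        field_simp
        ring
    refine ⟨fun l => if l = 0 then H 0 else a (l - 1), fun w => ?_⟩
    rw [e w, ha w, Finset.sum_range_succ' _ (M + 1), Finset.mul_sum]
    simp only [Nat.add_eq_zero_iff, one_ne_zero, and_false, if_false, Nat.add_sub_cancel, if_true,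
      pow_zero, mul_one]
    rw [add_comm]
    congr 1
    apply Finset.sum_congr rfl
    intro l _
    ring

/-- the nodes of interpolation -/
def nd {L : ℕ} (i : Fin (L + 1)) : ℂ := (i : ℂ) + 1

theorem nd_ne_zero {L : ℕ} (i : Fin (L + 1)) : nd i ≠ 0 := by
  unfold nd
  exact_mod_cast Nat.succ_ne_zero (i : ℕ)

theorem nd_inj {L : ℕ} : Function.Injective (nd (L := L)) := by
  intro i j h
  unfold nd at h
  have : ((i : ℕ) : ℂ) = ((j : ℕ) : ℂ) := by simpa using h
  exact Fin.ext (by exact_mod_cast this)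

/-- the weights which extract the coefficient of degree `k` of a polynomial of degree `≤ L` -/
def cvS (L k : ℕ) (i : Fin (L + 1)) : ℂ :=
  if h : k < L + 1 then (Matrix.vandermonde (nd (L := L)))⁻¹ ⟨k, h⟩ i else 0

/-- the coefficient of degree `k` of a polynomial function of degree `≤ L` -/
def cf (L k : ℕ) (H : ℂ → ℂ) : ℂ := ∑ i : Fin (L + 1), cvS L k i * H (nd i)

theorem cf_congr {L k : ℕ} {H H' : ℂ → ℂ} (h : ∀ i : Fin (L + 1), H (nd i) = H' (nd i)) :
    cf L k H = cf L k H' := by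
  unfold cf
  simp only [h]

theorem cf_mul_left {L k : ℕ} (c : ℂ) (H : ℂ → ℂ) : cf L k (fun w => c * H w) = c * cf L k H := by
  unfold cf
  rw [Finset.mul_sum]
  apply Finset.sum_congr rfl
  intro i _
  ring

theorem cf_sum {L k : ℕ} {ι : Type*} (s : Finset ι) (H : ι → ℂ → ℂ) :
    cf L k (fun w => ∑ j ∈ s, H j w) = ∑ j ∈ s, cf L k (H j) := by
  unfold cf
  rw [Finset.sum_comm]
  apply Finset.sum_congr rfl
  intro i _
  rw [Finset.mul_sum]

theorem cf_poly {L k : ℕ} (hk : k ≤ L) (a : ℕ → ℂ) :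
    cf L k (fun w => ∑ l ∈ range (L + 1), a l * w ^ l) = a k := by
  have hk' : k < L + 1 := Nat.lt_succ_of_le hk
  have hdet : (Matrix.vandermonde (nd (L := L))).det ≠ 0 :=
    Matrix.det_vandermonde_ne_zero_iff.2 nd_inj
  have h1 : (Matrix.vandermonde (nd (L := L)))⁻¹ * Matrix.vandermonde (nd (L := L)) = 1 :=
    Matrix.nonsing_inv_mul _ (isUnit_iff_ne_zero.2 hdet)
  have h2 := congrArg (fun B => B.mulVec (fun l : Fin (L + 1) => a l) ⟨k, hk'⟩) h1
  simp only [← Matrix.mulVec_mulVec, Matrix.one_mulVec] at h2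
  rw [← h2]
  unfold cf
  simp only [Matrix.mulVec, dotProduct, Matrix.vandermonde_apply]
  apply Finset.sum_congr rfl
  intro i _
  unfold cvS
  rw [dif_pos hk', Finset.sum_range]
  congr 1
  apply Finset.sum_congr rfl
  intro l _
  rw [mul_comm]

theorem cf_poly_le {L M k : ℕ} (hM : M ≤ L) (hk : k ≤ L) (a : ℕ → ℂ) :
    cf L k (fun w => ∑ l ∈ range (M + 1), a l * w ^ l) = if k ≤ M then a k else 0 := by
  have h1 : (fun w : ℂ => ∑ l ∈ range (M + 1), a l * w ^ l) =
      fun w => ∑ l ∈ range (L + 1), (if l ≤ M then a l else 0) * w ^ l := by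
    funext w
    symm
    rw [← Finset.sum_subset (Finset.range_mono (Nat.succ_le_succ hM))]
    · apply Finset.sum_congr rfl
      intro l hl
      rw [if_pos (Nat.lt_succ_iff.1 (Finset.mem_range.1 hl))]
    · intro l _ hl
      rw [if_neg (by
        intro h
        exact hl (Finset.mem_range.2 (Nat.lt_succ_of_le h))), zero_mul]
  rw [h1, cf_poly hk]

/-- expansion of an entire function with a pole at infinity -/
theorem expand {L M : ℕ} (hM : M ≤ L) {H G : ℂ → ℂ} (hH : Differentiable ℂ H)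
    (hG : Differentiable ℂ G) (h : ∀ w ≠ 0, H w = w ^ M * G w⁻¹) :
    (∀ w, H w = ∑ l ∈ range (M + 1), cf L l H * w ^ l) ∧ ∀ k, M < k → k ≤ L → cf L k H = 0 := by
  obtain ⟨a, ha⟩ := poly_of_inv M hH hG h
  have h1 : H = fun w => ∑ l ∈ range (M + 1), a l * w ^ l := funext ha
  constructor
  · intro w
    rw [ha w]
    apply Finset.sum_congr rfl
    intro l hl
    have hl' : l ≤ M := Nat.lt_succ_iff.1 (Finset.mem_range.1 hl)
    rw [h1, cf_poly_le hM (hl'.trans hM), if_pos hl']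
  · intro k hk hkL
    rw [h1, cf_poly_le hM hkL, if_neg (not_le.2 hk)]

/-- a nonzero complex number as a unit (`1` for `0`) -/
def uu (w : ℂ) : ℂˣ := if h : w = 0 then 1 else Units.mk0 w h

theorem uu_val {w : ℂ} (h : w ≠ 0) : ((uu w : ℂˣ) : ℂ) = w := by
  unfold uu
  rw [dif_neg h]
  rfl

theorem uu_coe (w : ℂˣ) : uu (w : ℂ) = w := by
  apply Units.ext
  rw [uu_val w.ne_zero]

theorem vec_swap' {u : ℂ} (hu : u ≠ 0) (b : Bool) :
    vec b u = (Units.mk0 u hu) • vec (!b) u⁻¹ := by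
  apply Subtype.ext
  rw [V2.coe_smul]
  cases b
  · show (vec false u : Fin 2 → ℂ) = u • (vec true u⁻¹ : Fin 2 → ℂ)
    rw [vec_false, vec_true]
    ext i; fin_cases i <;> simp [hu]
  · show (vec true u : Fin 2 → ℂ) = u • (vec false u⁻¹ : Fin 2 → ℂ)
    rw [vec_false, vec_true]
    ext i; fin_cases i <;> simp [hu]

theorem exists_vecS (x : V2) : ∃ (c : ℂˣ) (b : Bool) (z : ℂ), x = c • vec b z := by
  by_cases h : x.1 0 = 0
  · have h1 : x.1 1 ≠ 0 := by
      intro h1
      apply x.2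
      ext i; fin_cases i
      · exact h
      · exact h1
    refine ⟨Units.mk0 _ h1, true, 0, ?_⟩
    apply Subtype.ext
    rw [V2.coe_smul, vec_true]
    ext i; fin_cases i <;> simp [h]
  · refine ⟨Units.mk0 _ h, false, x.1 1 / x.1 0, ?_⟩
    apply Subtype.ext
    rw [V2.coe_smul, vec_false]
    ext i; fin_cases i
    · simp
    · simp only [Units.val_mk0, Pi.smul_apply, smul_eq_mul]
      show x.1 1 = x.1 0 * (x.1 1 / x.1 0)
      field_simp

/-- expansion of a homogeneous function -/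
theorem expand_hom {L d : ℕ} (hd : d ≤ L) {H : V2 → ℂ}
    (hom : ∀ (c : ℂˣ) x, H (c • x) = (c : ℂ) ^ d * H x)
    (h0 : ∀ b, Differentiable ℂ fun z => H (vec b z)) (x : V2) :
    H x = ∑ e ∈ range (d + 1),
      cf L e (fun z => H (vec false z)) * (x.1 0 ^ (d - e) * x.1 1 ^ e) := by
  have key := (expand hd (h0 false) (h0 true) (by
    intro z hz
    rw [vec_swap' hz false, hom, Units.val_mk0]
    rfl)).1
  set R : V2 → ℂ := fun x => ∑ e ∈ range (d + 1),
      cf L e (fun z => H (vec false z)) * (x.1 0 ^ (d - e) * x.1 1 ^ e) with hR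
  have hRh : ∀ (c : ℂˣ) x, R (c • x) = (c : ℂ) ^ d * R x := by
    intro c x
    simp only [hR]
    rw [Finset.mul_sum]
    apply Finset.sum_congr rfl
    intro e he
    have he' : e ≤ d := Nat.lt_succ_iff.1 (Finset.mem_range.1 he)
    rw [V2.coe_smul]
    simp only [Pi.smul_apply, smul_eq_mul]
    rw [mul_pow, mul_pow]
    have : (c : ℂ) ^ d = (c : ℂ) ^ (d - e) * (c : ℂ) ^ e := by
      rw [← pow_add, Nat.sub_add_cancel he']
    rw [this]
    ring
  have hf : ∀ z, H (vec false z) = R (vec false z) := by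
    intro z
    rw [key z]
    simp only [hR]
    apply Finset.sum_congr rfl
    intro e _
    rw [vec_false]
    simp
  have ht' : ∀ z ≠ 0, H (vec true z) = R (vec true z) := by
    intro z hz
    rw [vec_swap' hz true, hom, hRh, Bool.not_true, hf]
  have ht : ∀ z, H (vec true z) = R (vec true z) := by
    have h1 : Continuous fun z => H (vec true z) := (h0 true).continuous
    have h2 : Continuous fun z => R (vec true z) := by
      simp only [hR, vec_true]
      simp only [Matrix.cons_val_zero, Matrix.cons_val_one]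
      fun_prop
    intro z
    by_cases hz : z = 0
    · subst hz
      exact tendsto_nhds_unique_of_eventuallyEq
        (h1.tendsto 0 |>.mono_left (nhdsWithin_le_nhds (s := {0}ᶜ)))
        (h2.tendsto 0 |>.mono_left (nhdsWithin_le_nhds (s := {0}ᶜ)))
        (eventually_nhdsWithin_of_forall fun z hz => ht' z hz)
    · exact ht' z hz
  obtain ⟨c, b, z, rfl⟩ := exists_vecS x
  show H (c • vec b z) = R (c • vec b z)
  rw [hom, hRh]
  cases b
  · rw [hf]
  · rw [ht]

/-- A function on the open orbit of the fibre, with the homogeneity and regularity of the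
restriction of a section. -/
structure TF (m α : ℕ) (Ψ : ℂˣ → V2 → V2 → ℂ) : Prop where
  h1 : ∀ (c w : ℂˣ) x x', Ψ w (c • x) x' = (c : ℂ) ^ α * Ψ (c ^ 3 * w) x x'
  h2 : ∀ (c w : ℂˣ) x x', Ψ w x (c • x') = (c : ℂ) ^ α * Ψ (c ^ (-3 : ℤ) * w) x x'
  bot : ∀ b₁ b₂ z₁ z₂, ∃ G : ℂ → ℂ, Differentiable ℂ G ∧
    ∀ w : ℂˣ, G w = (w : ℂ) ^ m * Ψ w (vec b₁ z₁) (vec b₂ z₂)
  top : ∀ b₁ b₂ z₁ z₂, ∃ G : ℂ → ℂ, Differentiable ℂ G ∧
    ∀ w : ℂˣ, G w = (w : ℂ) ^ m * Ψ w⁻¹ (vec b₁ z₁) (vec b₂ z₂)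
  d1 : ∀ w b₁ b₂ z₂, Differentiable ℂ fun z₁ => Ψ w (vec b₁ z₁) (vec b₂ z₂)
  d2 : ∀ w b₁ b₂ z₁, Differentiable ℂ fun z₂ => Ψ w (vec b₁ z₁) (vec b₂ z₂)

/-- the coefficient of `w^(k-m)` -/
def BB (L m : ℕ) (Ψ : ℂˣ → V2 → V2 → ℂ) (k : ℕ) (x x' : V2) : ℂ :=
  cf L k fun w => w ^ m * Ψ (uu w) x x'

/-- the coefficient of `w^(k-m) z₁^e` -/
def CC (L m : ℕ) (Ψ : ℂˣ → V2 → V2 → ℂ) (k e : ℕ) (x' : V2) : ℂ :=
  cf L e fun z => BB L m Ψ k (vec false z) x'

/-- the coefficient of `w^(k-m) z₁^e z₂^e'` -/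
def DD (L m : ℕ) (Ψ : ℂˣ → V2 → V2 → ℂ) (k e e' : ℕ) : ℂ :=
  cf L e' fun z => CC L m Ψ k e (vec false z)

namespace TF

variable {m α L : ℕ} {Ψ : ℂˣ → V2 → V2 → ℂ}

theorem h12 (h : TF m α Ψ) (c d w : ℂˣ) (x x' : V2) :
    Ψ w (c • x) (d • x') = (c : ℂ) ^ α * (d : ℂ) ^ α * Ψ (c ^ 3 * d ^ (-3 : ℤ) * w) x x' := by
  have e : d ^ (-3 : ℤ) * (c ^ 3 * w) = c ^ 3 * d ^ (-3 : ℤ) * w := by
    rw [mul_left_comm, mul_assoc]
  rw [h.h1, h.h2, mul_assoc, e]

theorem bot' (h : TF m α Ψ) (x x' : V2) : ∃ G : ℂ → ℂ, Differentiable ℂ G ∧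
    ∀ w : ℂˣ, G w = (w : ℂ) ^ m * Ψ w x x' := by
  obtain ⟨c, b₁, z₁, rfl⟩ := exists_vecS x
  obtain ⟨d, b₂, z₂, rfl⟩ := exists_vecS x'
  obtain ⟨G, hG, hG'⟩ := h.bot b₁ b₂ z₁ z₂
  set κ : ℂˣ := c ^ 3 * d ^ (-3 : ℤ) with hκ
  refine ⟨fun w => (c : ℂ) ^ α * (d : ℂ) ^ α * ((κ : ℂ) ^ m)⁻¹ * G (κ * w), by fun_prop, ?_⟩
  intro w
  have e1 := hG' (κ * w)
  rw [Units.val_mul] at e1
  have hk : (κ : ℂ) ^ m ≠ 0 := pow_ne_zero _ κ.ne_zero
  simp only
  rw [e1, h.h12, ← hκ, mul_pow]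
  field_simp

theorem top' (h : TF m α Ψ) (x x' : V2) : ∃ G : ℂ → ℂ, Differentiable ℂ G ∧
    ∀ w : ℂˣ, G w = (w : ℂ) ^ m * Ψ w⁻¹ x x' := by
  obtain ⟨c, b₁, z₁, rfl⟩ := exists_vecS x
  obtain ⟨d, b₂, z₂, rfl⟩ := exists_vecS x'
  obtain ⟨G, hG, hG'⟩ := h.top b₁ b₂ z₁ z₂
  obtain ⟨κ, hκ⟩ : ∃ κ : ℂˣ, κ = c ^ 3 * d ^ (-3 : ℤ) := ⟨_, rfl⟩
  refine ⟨fun w => (c : ℂ) ^ α * (d : ℂ) ^ α * (κ : ℂ) ^ m * G ((κ⁻¹ : ℂˣ) * w),
    by fun_prop, ?_⟩
  intro w
  have e1 := hG' (κ⁻¹ * w)
  have e2 : (κ⁻¹ * w)⁻¹ = κ * w⁻¹ := by rw [mul_inv, inv_inv]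
  rw [Units.val_mul, e2] at e1
  simp only
  rw [e1, h.h12, ← hκ, mul_pow]
  have hk : (κ : ℂ) ^ m * ((κ⁻¹ : ℂˣ) : ℂ) ^ m = 1 := by
    rw [← mul_pow, Units.mul_inv, one_pow]
  linear_combination (c : ℂ) ^ α * (d : ℂ) ^ α * (w : ℂ) ^ m *
    Ψ (κ * w⁻¹) (vec b₁ z₁) (vec b₂ z₂) * hk

theorem d1' (h : TF m α Ψ) (w : ℂˣ) (b₁ : Bool) (x' : V2) :
    Differentiable ℂ fun z₁ => Ψ w (vec b₁ z₁) x' := by
  obtain ⟨d, b₂, z₂, rfl⟩ := exists_vecS x'
  simp only [h.h2]
  exact (h.d1 _ _ _ _).const_mul _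

theorem d2' (h : TF m α Ψ) (w : ℂˣ) (x : V2) (b₂ : Bool) :
    Differentiable ℂ fun z₂ => Ψ w x (vec b₂ z₂) := by
  obtain ⟨d, b₁, z₁, rfl⟩ := exists_vecS x
  simp only [h.h1]
  exact (h.d2 _ _ _ _).const_mul _

theorem expand_w (h : TF m α Ψ) (hL : 2 * m ≤ L) (x x' : V2) (w : ℂˣ) :
    (w : ℂ) ^ m * Ψ w x x' = ∑ k ∈ range (2 * m + 1), BB L m Ψ k x x' * (w : ℂ) ^ k := by
  obtain ⟨G, hG, hG'⟩ := h.bot' x x'
  obtain ⟨G₁, hG₁, hG₁'⟩ := h.top' x x'
  have key := (expand (L := L) hL hG hG₁ (by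
    intro w hw
    have e1 := hG' (Units.mk0 w hw)
    have e2 := hG₁' (Units.mk0 w hw)⁻¹
    rw [Units.val_mk0] at e1
    rw [inv_inv, Units.val_inv_eq_inv_val, Units.val_mk0] at e2
    rw [e1, e2]
    have : w ^ (2 * m) * (w⁻¹ ^ m) = w ^ m := by
      rw [two_mul, pow_add, mul_assoc, ← mul_pow, mul_inv_cancel₀ hw, one_pow, mul_one]
    rw [← mul_assoc, this])).1 (w : ℂ)
  rw [← hG' w, key]
  apply Finset.sum_congr rfl
  intro k _
  congr 1
  apply cf_congr
  intro i
  have := hG' (uu (nd i))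
  rw [uu_val (nd_ne_zero i)] at this
  exact this

theorem BB_smul1 (h : TF m α Ψ) (hα : 3 * m ≤ α) (hL : 2 * m ≤ L) {k : ℕ} (hk : k ≤ 2 * m)
    (c : ℂˣ) (x x' : V2) :
    BB L m Ψ k (c • x) x' = (c : ℂ) ^ (α - 3 * m + 3 * k) * BB L m Ψ k x x' := by
  have h1 : ∀ i : Fin (L + 1), (nd i) ^ m * Ψ (uu (nd i)) (c • x) x' =
      ∑ l ∈ range (2 * m + 1),
        ((c : ℂ) ^ (α - 3 * m + 3 * l) * BB L m Ψ l x x') * nd i ^ l := by
    intro i
    have e1 := h.expand_w hL x x' (c ^ 3 * uu (nd i))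
    have e2 : ((c ^ 3 * uu (nd i) : ℂˣ) : ℂ) = (c : ℂ) ^ 3 * nd i := by
      rw [Units.val_mul, Units.val_pow_eq_pow_val, uu_val (nd_ne_zero i)]
    rw [e2] at e1
    rw [h.h1]
    have e3 : (nd i) ^ m * ((c : ℂ) ^ α * Ψ (c ^ 3 * uu (nd i)) x x') =
        (c : ℂ) ^ (α - 3 * m) * (((c : ℂ) ^ 3 * nd i) ^ m *
          Ψ (c ^ 3 * uu (nd i)) x x') := by
      have : (c : ℂ) ^ α = (c : ℂ) ^ (α - 3 * m) * ((c : ℂ) ^ 3) ^ m := by
        rw [← pow_mul, ← pow_add, Nat.sub_add_cancel hα]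
      rw [this, mul_pow]
      ring
    rw [e3, e1, Finset.mul_sum]
    apply Finset.sum_congr rfl
    intro l _
    rw [mul_pow, pow_add, pow_mul]
    ring
  refine (cf_congr (H := fun w => w ^ m * Ψ (uu w) (c • x) x')
    (H' := fun w => ∑ l ∈ range (2 * m + 1),
      ((c : ℂ) ^ (α - 3 * m + 3 * l) * BB L m Ψ l x x') * w ^ l) h1).trans ?_
  rw [cf_poly_le hL (hk.trans hL)
    (fun l => (c : ℂ) ^ (α - 3 * m + 3 * l) * BB L m Ψ l x x'), if_pos hk]

theorem BB_smul2 (h : TF m α Ψ) (hL : 2 * m ≤ L) {k : ℕ} (hk : k ≤ 2 * m)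
    (c : ℂˣ) (x x' : V2) :
    BB L m Ψ k x (c • x') = (c : ℂ) ^ ((α : ℤ) + 3 * m - 3 * k) * BB L m Ψ k x x' := by
  have hc := c.ne_zero
  have h1 : ∀ i : Fin (L + 1), (nd i) ^ m * Ψ (uu (nd i)) x (c • x') =
      ∑ l ∈ range (2 * m + 1),
        ((c : ℂ) ^ ((α : ℤ) + 3 * m - 3 * l) * BB L m Ψ l x x') * nd i ^ l := by
    intro i
    have e1 := h.expand_w hL x x' (c ^ (-3 : ℤ) * uu (nd i))
    have e2 : ((c ^ (-3 : ℤ) * uu (nd i) : ℂˣ) : ℂ) = (c : ℂ) ^ (-3 : ℤ) * nd i := by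
      rw [Units.val_mul, Units.val_zpow_eq_zpow_val, uu_val (nd_ne_zero i)]
    rw [e2] at e1
    rw [h.h2]
    have e3 : (nd i) ^ m * ((c : ℂ) ^ α * Ψ (c ^ (-3 : ℤ) * uu (nd i)) x x') =
        (c : ℂ) ^ ((α : ℤ) + 3 * m) * (((c : ℂ) ^ (-3 : ℤ) * nd i) ^ m *
          Ψ (c ^ (-3 : ℤ) * uu (nd i)) x x') := by
      have : (c : ℂ) ^ ((α : ℤ) + 3 * m) * ((c : ℂ) ^ (-3 : ℤ)) ^ m = (c : ℂ) ^ α := by
        rw [← zpow_natCast, ← zpow_mul, ← zpow_add₀ hc, ← zpow_natCast]
        congr 1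
        ring
      rw [← this, mul_pow]
      ring
    rw [e3, e1, Finset.mul_sum]
    apply Finset.sum_congr rfl
    intro l _
    have : (c : ℂ) ^ ((α : ℤ) + 3 * m - 3 * l) =
        (c : ℂ) ^ ((α : ℤ) + 3 * m) * ((c : ℂ) ^ (-3 : ℤ)) ^ l := by
      rw [← zpow_natCast, ← zpow_mul, ← zpow_add₀ hc]
      ring_nf
    rw [this, mul_pow]
    ring
  refine (cf_congr (H := fun w => w ^ m * Ψ (uu w) x (c • x'))
    (H' := fun w => ∑ l ∈ range (2 * m + 1),
      ((c : ℂ) ^ ((α : ℤ) + 3 * m - 3 * l) * BB L m Ψ l x x') * w ^ l)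
    h1).trans ?_
  rw [cf_poly_le hL (hk.trans hL)
    (fun l => (c : ℂ) ^ ((α : ℤ) + 3 * m - 3 * l) * BB L m Ψ l x x'),
    if_pos hk]

theorem BB_d1 (h : TF m α Ψ) (k : ℕ) (b₁ : Bool) (x' : V2) :
    Differentiable ℂ fun z₁ => BB L m Ψ k (vec b₁ z₁) x' := by
  unfold BB cf
  apply Differentiable.fun_sum
  intro i _
  exact ((h.d1' (uu (nd i)) b₁ x').const_mul _).const_mul _

theorem BB_d2 (h : TF m α Ψ) (k : ℕ) (x : V2) (b₂ : Bool) :
    Differentiable ℂ fun z₂ => BB L m Ψ k x (vec b₂ z₂) := by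
  unfold BB cf
  apply Differentiable.fun_sum
  intro i _
  exact ((h.d2' (uu (nd i)) x b₂).const_mul _).const_mul _

theorem expand_z1 (h : TF m α Ψ) (hα : 3 * m ≤ α) (hL : α + 3 * m ≤ L) {k : ℕ} (hk : k ≤ 2 * m)
    (x x' : V2) : BB L m Ψ k x x' = ∑ e ∈ range (α - 3 * m + 3 * k + 1),
      CC L m Ψ k e x' * (x.1 0 ^ (α - 3 * m + 3 * k - e) * x.1 1 ^ e) :=
  expand_hom (H := fun x => BB L m Ψ k x x') (by omega)
    (fun c x => h.BB_smul1 hα (by omega) hk c x x') (fun b => h.BB_d1 k b x') x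

theorem CC_smul (h : TF m α Ψ) (hα : 3 * m ≤ α) (hL : 2 * m ≤ L) {k : ℕ} (hk : k ≤ 2 * m) (e : ℕ)
    (c : ℂˣ) (x' : V2) : CC L m Ψ k e (c • x') =
      (c : ℂ) ^ (α + 3 * m - 3 * k) * CC L m Ψ k e x' := by
  unfold CC
  rw [← cf_mul_left]
  apply cf_congr
  intro i
  rw [h.BB_smul2 hL hk]
  congr 1
  rw [← zpow_natCast]
  congr 1
  omega

theorem CC_d (h : TF m α Ψ) (k e : ℕ) (b₂ : Bool) :
    Differentiable ℂ fun z₂ => CC L m Ψ k e (vec b₂ z₂) := by
  unfold CC
  unfold cf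
  apply Differentiable.fun_sum
  intro i _
  exact (h.BB_d2 (L := L) k (vec false (nd i)) b₂).const_mul _

theorem expand_z2 (h : TF m α Ψ) (hα : 3 * m ≤ α) (hL : α + 3 * m ≤ L) {k : ℕ} (hk : k ≤ 2 * m)
    (e : ℕ) (x' : V2) : CC L m Ψ k e x' = ∑ e' ∈ range (α + 3 * m - 3 * k + 1),
      DD L m Ψ k e e' * (x'.1 0 ^ (α + 3 * m - 3 * k - e') * x'.1 1 ^ e') :=
  expand_hom (H := fun x' => CC L m Ψ k e x') (by omega)
    (fun c x' => h.CC_smul hα (by omega) hk e c x') (fun b => h.CC_d k e b) x'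

/-- the expansion of a section on the open orbits -/
theorem expand_all (h : TF m α Ψ) (hα : 3 * m ≤ α) (hL : α + 3 * m ≤ L) (w : ℂˣ) (x x' : V2) :
    (w : ℂ) ^ m * Ψ w x x' =
      ∑ k ∈ range (2 * m + 1), ∑ e ∈ range (α - 3 * m + 3 * k + 1),
        ∑ e' ∈ range (α + 3 * m - 3 * k + 1), DD L m Ψ k e e' * (w : ℂ) ^ k *
          (x.1 0 ^ (α - 3 * m + 3 * k - e) * x.1 1 ^ e) *
          (x'.1 0 ^ (α + 3 * m - 3 * k - e') * x'.1 1 ^ e') := by
  rw [h.expand_w (L := L) (by omega)]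
  apply Finset.sum_congr rfl
  intro k hk
  have hk' : k ≤ 2 * m := Nat.lt_succ_iff.1 (Finset.mem_range.1 hk)
  rw [h.expand_z1 hα hL hk' x x', Finset.sum_mul]
  apply Finset.sum_congr rfl
  intro e _
  rw [h.expand_z2 hα hL hk' e x', Finset.sum_mul, Finset.sum_mul]
  apply Finset.sum_congr rfl
  intro e' _
  ring

end TF

theorem DD_mul_left {m L : ℕ} (c : ℂ) (Ψ : ℂˣ → V2 → V2 → ℂ) (k e e' : ℕ) :
    DD L m (fun w x x' => c * Ψ w x x') k e e' = c * DD L m Ψ k e e' := by
  unfold DD CC BB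
  rw [← cf_mul_left]
  apply cf_congr
  intro i
  rw [← cf_mul_left]
  apply cf_congr
  intro i'
  rw [← cf_mul_left]
  apply cf_congr
  intro i''
  ring

end

end Pool.Agent.YTDA


end

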