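import Pool.Agent.YTDA.Defs
import Pool.Agent.YTDM.P35
import Pool.Agent.YTDM.P36

/- source: Pool.Agent.YTDA.AlgLin -/

section

/-!
Variation of the scalar curvature along a derivation `D` which commutes with the coordinate
derivations up to constants (a linear diagonal vector field).
-/

namespace Pool.Agent.YTDA.Alg

open Finset Matrix

variable {A : Type*} [CommRing A] {n : ℕ}

namespace KR

variable (k : KR A n) (D : Derivation ℤ A A) (a b : Fin n → A)
  (ha : ∀ i j, k.d j (a i) = 0) (ha' : ∀ i j, k.db j (a i) = 0)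
  (hd : ∀ i f, D (k.d i f) = k.d i (D f) - a i * k.d i f)
  (hdb : ∀ i f, D (k.db i f) = k.db i (D f) - b i * k.db i f)
  (hb : ∀ i j, k.d j (b i) = 0)
  (v : A) (hg : ∀ i j, D (k.g i j) = k.d i (k.db j v) - (a i + b j) * k.g i j)

include hg in
theorem lin_mder_g : mder D k.g = Matrix.of (fun i j => k.d i (k.db j v)) -
    Matrix.diagonal a * k.g - k.g * Matrix.diagonal b := by
  ext i j
  simp only [mder, hg, Matrix.sub_apply, Matrix.of_apply, Matrix.diagonal_mul,
    Matrix.mul_diagonal]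
  ring

include hg in
theorem lin_mder_gi : mder D k.gi =
    - (k.gi * Matrix.of (fun i j => k.d i (k.db j v)) * k.gi) +
    k.gi * Matrix.diagonal a + Matrix.diagonal b * k.gi := by
  rw [mder_inv D k.inv k.inv', k.lin_mder_g D a b v hg, Matrix.mul_sub, Matrix.mul_sub,
    Matrix.sub_mul, Matrix.sub_mul]
  have h1 : k.gi * (Matrix.diagonal a * k.g) * k.gi = k.gi * Matrix.diagonal a := by
    rw [Matrix.mul_assoc, Matrix.mul_assoc, k.inv', Matrix.mul_one]
  have h2 : k.gi * (k.g * Matrix.diagonal b) * k.gi = Matrix.diagonal b * k.gi := by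
    rw [← Matrix.mul_assoc, k.inv, Matrix.one_mul]
  rw [h1, h2]
  abel

include ha hb hd hg in
theorem lin_D_F (i : Fin n) : D (k.F i) = k.d i (k.lap v) - a i * k.F i := by
  set V : Matrix (Fin n) (Fin n) A := Matrix.of (fun i j => k.d i (k.db j v)) with hV
  have hlap : k.lap v = (k.gi * V).trace := by
    unfold lap
    simp only [Matrix.trace, Matrix.diag, Matrix.mul_apply, hV, Matrix.of_apply]
    rw [Finset.sum_comm]
  have hc : mder D (mder (k.d i) k.g) = mder (k.d i) V - Matrix.diagonal a * mder (k.d i) k.g -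
      mder (k.d i) k.g * Matrix.diagonal b - a i • mder (k.d i) k.g := by
    ext p q
    simp only [mder, hd, hg, Matrix.sub_apply, Matrix.smul_apply, Matrix.diagonal_mul,
      Matrix.mul_diagonal, map_sub, Derivation.leibniz, smul_eq_mul, map_add, ha, hb, hV,
      Matrix.of_apply]
    ring
  rw [hlap]
  unfold F
  rw [der_trace, der_trace, mder_mul, mder_mul, mder_inv (k.d i) k.inv k.inv',
    k.lin_mder_gi D a b v hg, hc]
  rw [← hV]
  simp only [Matrix.mul_sub, Matrix.add_mul, Matrix.neg_mul, Matrix.trace_add, Matrix.trace_sub,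
    Matrix.trace_neg, Matrix.mul_smul, Matrix.trace_smul, smul_eq_mul]
  have t1 : (k.gi * V * k.gi * mder (k.d i) k.g).trace =
      (k.gi * mder (k.d i) k.g * k.gi * V).trace := by
    rw [Matrix.trace_mul_comm, ← Matrix.mul_assoc, ← Matrix.mul_assoc, Matrix.trace_mul_comm]
    simp only [Matrix.mul_assoc]
  have t2 : (Matrix.diagonal b * k.gi * mder (k.d i) k.g).trace =
      (k.gi * (mder (k.d i) k.g * Matrix.diagonal b)).trace := by
    rw [Matrix.mul_assoc, Matrix.trace_mul_comm, Matrix.mul_assoc]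
  have t3 : (k.gi * Matrix.diagonal a * mder (k.d i) k.g).trace =
      (k.gi * (Matrix.diagonal a * mder (k.d i) k.g)).trace := by
    rw [Matrix.mul_assoc]
  rw [t1, t2, t3]
  ring

include ha ha' hb hd hdb hg in
/-- **variation of the scalar curvature** along a derivation commuting with the coordinate
derivations up to constants -/
theorem lin_D_S : D k.S = - k.lich v := by
  have hR : ∀ i j, D (k.R i j) = - k.d i (k.db j (k.lap v)) - (a i + b j) * k.R i j := by
    intro i j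
    unfold R
    rw [map_neg, hdb, k.lin_D_F D a b ha hd hb v hg, k.ddb, map_sub, Derivation.leibniz,
      smul_eq_mul, smul_eq_mul, ha']
    ring
  have hgi : ∀ p q, D (k.gi p q) = - ∑ e, (∑ c, k.gi p c * k.d c (k.db e v)) * k.gi e q +
      (b p + a q) * k.gi p q := by
    intro p q
    have h := congrFun (congrFun (k.lin_mder_gi D a b v hg) p) q
    rw [Matrix.add_apply, Matrix.add_apply, Matrix.neg_apply, Matrix.mul_apply,
      Matrix.mul_diagonal, Matrix.diagonal_mul] at h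
    simp only [Matrix.mul_apply, mder, Matrix.of_apply] at h
    rw [h]
    ring
  unfold S lich
  rw [map_sum]
  have h1 : ∀ i, D (∑ j, k.gi j i * k.R i j) = - ∑ j, k.gi j i * k.d i (k.db j (k.lap v)) -
      ∑ j, ∑ e, ∑ c, k.gi j c * k.d c (k.db e v) * k.gi e i * k.R i j := by
    intro i
    rw [map_sum, ← Finset.sum_neg_distrib, ← Finset.sum_sub_distrib]
    refine Finset.sum_congr rfl fun j _ => ?_
    rw [Derivation.leibniz, smul_eq_mul, smul_eq_mul, hR, hgi]
    have h2 : ∑ e, ∑ c, k.gi j c * k.d c (k.db e v) * k.gi e i * k.R i j =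
        (∑ e, (∑ c, k.gi j c * k.d c (k.db e v)) * k.gi e i) * k.R i j := by
      simp only [Finset.sum_mul]
    rw [h2]
    ring
  simp only [h1, Finset.sum_sub_distrib, Finset.sum_neg_distrib]
  rw [neg_add, ← sub_eq_add_neg]
  congr 1
  unfold Q
  have h3 : ∀ f : Fin n → Fin n → Fin n → Fin n → A,
      ∑ i, ∑ j, ∑ e, ∑ c, f i j e c = ∑ e, ∑ i, ∑ j, ∑ c, f i j e c := by
    intro f
    have : ∀ i, ∑ j, ∑ e, ∑ c, f i j e c = ∑ e, ∑ j, ∑ c, f i j e c := fun i => Finset.sum_comm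
    simp only [this]
    rw [Finset.sum_comm]
  rw [h3]
  refine Finset.sum_congr rfl fun e _ => Finset.sum_congr rfl fun i _ =>
    Finset.sum_congr rfl fun j _ => Finset.sum_congr rfl fun c _ => ?_
  rw [k.ddb]
  ring

end KR

end Pool.Agent.YTDA.Alg


end

/- source: Pool.Agent.YTDA.Glue -/

section

/-!
Construction of a `PolAtlas` from local holomorphic transitions between the frames, and
the Hausdorff property.
-/

namespace Pool.Agent.YTDA

open Complex Set Topology Filter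

noncomputable section

variable {n : ℕ} {Y : Type} [MulAction ℂˣ Y]

/-- local holomorphic transition between two parametrizations -/
def Loc (γ : E n → Y) (z : E n) (γ' : E n → Y) (z' : E n) : Prop :=
  ∃ f : E n → E n, ∃ g : E n → ℂˣ, AnalyticAt ℂ f z ∧ AnalyticAt ℂ (fun ζ => (g ζ : ℂ)) z ∧
    f z = z' ∧ ∀ᶠ ζ in 𝓝 z, γ' (f ζ) = g ζ • γ ζ

theorem Loc.refl (γ : E n → Y) (z : E n) : Loc γ z γ z :=
  ⟨id, fun _ => 1, analyticAt_id, by simpa using analyticAt_const, rfl,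
    Eventually.of_forall fun ζ => (one_smul _ _).symm⟩

theorem Loc.of_eventuallyEq {γ γ' : E n → Y} {z : E n} (h : ∀ᶠ ζ in 𝓝 z, γ' ζ = γ ζ) :
    Loc γ z γ' z :=
  ⟨id, fun _ => 1, analyticAt_id, by simpa using analyticAt_const, rfl,
    h.mono fun ζ hζ => by simpa using hζ⟩

theorem Loc.trans {γ γ' γ'' : E n → Y} {z z' z'' : E n} (h : Loc γ z γ' z')
    (h' : Loc γ' z' γ'' z'') : Loc γ z γ'' z'' := by
  obtain ⟨f, g, hf, hg, rfl, h1⟩ := h
  obtain ⟨f', g', hf', hg', rfl, h2⟩ := h'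
  refine ⟨fun ζ => f' (f ζ), fun ζ => g' (f ζ) * g ζ, hf'.comp hf, ?_, rfl, ?_⟩
  · have h3 : AnalyticAt ℂ (fun ζ => ((g' (f ζ) : ℂˣ) : ℂ)) z :=
      AnalyticAt.comp (g := fun ζ => ((g' ζ : ℂˣ) : ℂ)) (f := f) hg' hf
    exact (h3.mul hg).congr (Eventually.of_forall fun ζ => (Units.val_mul _ _).symm)
  · filter_upwards [h1, hf.continuousAt.eventually h2] with ζ e1 e2
    rw [e2, e1, smul_smul]

/-- two-sided local transition -/
def LocS (γ : E n → Y) (z : E n) (γ' : E n → Y) (z' : E n) : Prop :=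
  Loc γ z γ' z' ∧ Loc γ' z' γ z

theorem LocS.refl (γ : E n → Y) (z : E n) : LocS γ z γ z := ⟨Loc.refl γ z, Loc.refl γ z⟩

theorem LocS.symm {γ γ' : E n → Y} {z z' : E n} (h : LocS γ z γ' z') : LocS γ' z' γ z :=
  ⟨h.2, h.1⟩

theorem LocS.trans {γ γ' γ'' : E n → Y} {z z' z'' : E n} (h : LocS γ z γ' z')
    (h' : LocS γ' z' γ'' z'') : LocS γ z γ'' z'' := ⟨h.1.trans h'.1, h'.2.trans h.2⟩

/-- separation of two points of `M` -/
def Sep (γ : E n → Y) (z : E n) (γ' : E n → Y) (z' : E n) : Prop :=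
  ∃ V ∈ 𝓝 z, ∃ V' ∈ 𝓝 z', ∀ w ∈ V, ∀ w' ∈ V', ∀ c : ℂˣ, γ' w' ≠ c • γ w

theorem Sep.symm {γ γ' : E n → Y} {z z' : E n} (h : Sep γ z γ' z') : Sep γ' z' γ z := by
  obtain ⟨V, hV, V', hV', h1⟩ := h
  refine ⟨V', hV', V, hV, fun w hw w' hw' c hc => h1 w' hw' w hw c⁻¹ ?_⟩
  rw [hc, inv_smul_smul]

theorem Sep.of_loc {γ γ₁ γ' : E n → Y} {z z₁ z' : E n} (hl : Loc γ z γ₁ z₁)
    (h : Sep γ₁ z₁ γ' z') : Sep γ z γ' z' := by
  obtain ⟨f, g, hf, _, rfl, h1⟩ := hl
  obtain ⟨V, hV, V', hV', h2⟩ := h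
  refine ⟨{ζ | f ζ ∈ V ∧ γ₁ (f ζ) = g ζ • γ ζ},
    (hf.continuousAt.eventually hV).and h1, V', hV', ?_⟩
  rintro w ⟨hw1, hw2⟩ w' hw' c hc
  refine h2 (f w) hw1 w' hw' (c * (g w)⁻¹) ?_
  rw [hc, hw2, smul_smul, inv_mul_cancel_right]

theorem Sep.of_loc₂ {γ γ₁ γ' γ'₁ : E n → Y} {z z₁ z' z'₁ : E n} (hl : Loc γ z γ₁ z₁)
    (hl' : Loc γ' z' γ'₁ z'₁) (h : Sep γ₁ z₁ γ'₁ z'₁) : Sep γ z γ' z' :=
  Sep.of_loc hl (Sep.symm (Sep.of_loc hl' h.symm))

/-- two different points in one chart are separated -/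
theorem Sep.of_inj {γ : E n → Y} {z z' : E n} {U : Set (E n)} (hU : IsOpen U) (hz : z ∈ U)
    (hz' : z' ∈ U) (inj : ∀ z ∈ U, ∀ z' ∈ U, ∀ c : ℂˣ, γ z' = c • γ z → z' = z) (hne : z ≠ z') :
    Sep γ z γ z' := by
  obtain ⟨V, V', hV, hV', hzV, hzV', hd⟩ := t2_separation hne
  refine ⟨V ∩ U, Filter.inter_mem (hV.mem_nhds hzV) (hU.mem_nhds hz), V' ∩ U,
    Filter.inter_mem (hV'.mem_nhds hzV') (hU.mem_nhds hz'), ?_⟩
  rintro w ⟨hw, hwU⟩ w' ⟨hw', hwU'⟩ c hc
  have := inj w hwU w' hwU' c hc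
  subst this
  exact (Set.disjoint_left.1 hd hw hw').elim

/-- A family of frames related by local holomorphic transitions. -/
structure PreAtlas (n : ℕ) (Y : Type) [MulAction ℂˣ Y] where
  ι : Type
  U : ι → Set (E n)
  γ : ι → E n → Y
  isOpen_U : ∀ a, IsOpen (U a)
  inj : ∀ a, ∀ z ∈ U a, ∀ z' ∈ U a, ∀ c : ℂˣ, γ a z' = c • γ a z → z' = z ∧ c = 1
  cover : ∀ y, ∃ a, ∃ z ∈ U a, ∃ c : ℂˣ, y = c • γ a z
  loc : ∀ a b, ∀ z ∈ U a, ∀ z' ∈ U b, ∀ c : ℂˣ, γ b z' = c • γ a z → Loc (γ a) z (γ b) z'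

namespace PreAtlas

variable (B : PreAtlas n Y)

/-- the domain of the transition -/
def O (a b : B.ι) : Set (E n) := {z | z ∈ B.U a ∧ ∃ z' ∈ B.U b, ∃ c : ℂˣ, B.γ b z' = c • B.γ a z}

open Classical in
/-- the coordinate change -/
def τ (a b : B.ι) (z : E n) : E n :=
  if h : ∃ z' ∈ B.U b, ∃ c : ℂˣ, B.γ b z' = c • B.γ a z then h.choose else 0

open Classical in
/-- the change of frames -/
def h (a b : B.ι) (z : E n) : ℂˣ :=
  if h : ∃ z' ∈ B.U b, ∃ c : ℂˣ, B.γ b z' = c • B.γ a z then h.choose_spec.2.choose else 1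

theorem trans (a b : B.ι) (z : E n)
    (h : ∃ z' ∈ B.U b, ∃ c : ℂˣ, B.γ b z' = c • B.γ a z) :
    B.τ a b z ∈ B.U b ∧ B.γ b (B.τ a b z) = B.h a b z • B.γ a z := by
  unfold τ PreAtlas.h
  rw [dif_pos h, dif_pos h]
  exact ⟨h.choose_spec.1, h.choose_spec.2.choose_spec⟩

theorem exists_germ (a b : B.ι) (z : E n) (hz : z ∈ B.O a b) :
    ∃ f : E n → E n, ∃ g : E n → ℂˣ, AnalyticAt ℂ f z ∧ AnalyticAt ℂ (fun ζ => (g ζ : ℂ)) z ∧
      ∀ᶠ ζ in 𝓝 z, ζ ∈ B.O a b ∧ B.τ a b ζ = f ζ ∧ B.h a b ζ = g ζ := by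
  obtain ⟨hza, hzb⟩ := hz
  obtain ⟨h1, h2⟩ := B.trans a b z hzb
  obtain ⟨f, g, hf, hg, hfz, hfg⟩ := B.loc a b z hza _ h1 _ h2
  refine ⟨f, g, hf, hg, ?_⟩
  have h3 : ∀ᶠ ζ in 𝓝 z, f ζ ∈ B.U b := by
    apply hf.continuousAt.eventually
    rw [hfz]
    exact (B.isOpen_U b).mem_nhds h1
  have h4 : ∀ᶠ ζ in 𝓝 z, ζ ∈ B.U a := (B.isOpen_U a).mem_nhds hza
  filter_upwards [h3, h4, hfg] with ζ e3 e4 e5
  have hO : ∃ z' ∈ B.U b, ∃ c : ℂˣ, B.γ b z' = c • B.γ a ζ := ⟨f ζ, e3, g ζ, e5⟩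
  obtain ⟨h5, h6⟩ := B.trans a b ζ hO
  have h7 : B.γ b (B.τ a b ζ) = (B.h a b ζ * (g ζ)⁻¹) • B.γ b (f ζ) := by
    rw [h6, e5, smul_smul, inv_mul_cancel_right]
  obtain ⟨h8, h9⟩ := B.inj b _ e3 _ h5 _ h7
  exact ⟨⟨e4, hO⟩, h8, mul_inv_eq_one.1 h9⟩

/-- The atlas. -/
def toAtlas : PolAtlas n Y where
  ι := B.ι
  U := B.U
  γ := B.γ
  isOpen_U := B.isOpen_U
  inj := B.inj
  cover := B.cover
  τ := B.τ
  h := B.h
  isOpen_O a b := by
    rw [isOpen_iff_mem_nhds]
    intro z hz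
    obtain ⟨f, g, _, _, h⟩ := B.exists_germ a b z hz
    exact h.mono fun ζ hζ => hζ.1
  trans a b z _ hz := B.trans a b z hz
  hol_τ a b := by
    intro z hz
    obtain ⟨f, g, hf, _, h⟩ := B.exists_germ a b z hz
    exact (hf.differentiableAt.congr_of_eventuallyEq
      (h.mono fun ζ hζ => hζ.2.1)).differentiableWithinAt
  hol_h a b := by
    intro z hz
    obtain ⟨f, g, _, hg, h⟩ := B.exists_germ a b z hz
    refine (hg.differentiableAt.congr_of_eventuallyEq ?_).differentiableWithinAt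
    exact h.mono fun ζ hζ => by simp only [hζ.2.2]

theorem toAtlas_ι : B.toAtlas.ι = B.ι := rfl

/-- The Hausdorff property. -/
theorem isT2 (hs : ∀ a b, ∀ z ∈ B.U a, ∀ z' ∈ B.U b, (∀ c : ℂˣ, B.γ b z' ≠ c • B.γ a z) →
    Sep (B.γ a) z (B.γ b) z') : B.toAtlas.IsT2 := by
  intro a b z hz z' hz' hne
  obtain ⟨V, hV, V', hV', h⟩ := hs a b z hz z' hz' hne
  exact ⟨V, hV, V', hV', fun w hw w' hw' c => h w hw.1 w' hw'.1 c⟩

end PreAtlas

end

end Pool.Agent.YTDA


end

/- source: Pool.Agent.YTDA.Bihol -/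

section

/-!
# Holomorphic maps between polarized manifolds

`IsHol A B f`: `f : Y → Y'` commutes with the scalars and is holomorphic in the charts.
`IsBihol A B f`: moreover with invertible derivative. Then `H ∘ f` is Kähler / csc if `H` is.
-/

namespace Pool.Agent.YTDA

open Complex Set Topology ContDiff ComplexOrder Pl

noncomputable section

variable {n : ℕ} {Y Y' Y'' : Type} [MulAction ℂˣ Y] [MulAction ℂˣ Y'] [MulAction ℂˣ Y'']

/-- A map which commutes with scalars and is holomorphic in the charts. -/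
structure IsHol (A : PolAtlas n Y) (B : PolAtlas n Y') (f : Y → Y') : Prop where
  smul : ∀ (c : ℂˣ) y, f (c • y) = c • f y
  loc : ∀ a, ∀ z ∈ A.U a, ∃ b, ∃ z' ∈ B.U b, Loc (fun ζ => f (A.γ a ζ)) z (B.γ b) z'

/-- A map which commutes with scalars and is locally biholomorphic in the charts. -/
structure IsBihol (A : PolAtlas n Y) (B : PolAtlas n Y') (f : Y → Y') : Prop where
  smul : ∀ (c : ℂˣ) y, f (c • y) = c • f y
  loc : ∀ a, ∀ z ∈ A.U a, ∃ b, ∃ t : E n → E n, ∃ h : E n → ℂˣ, AnalyticAt ℂ t z ∧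
    AnalyticAt ℂ (fun ζ => (h ζ : ℂ)) z ∧ t z ∈ B.U b ∧ (jac t z).det ≠ 0 ∧
    ∀ᶠ ζ in 𝓝 z, f (A.γ a ζ) = h ζ • B.γ b (t ζ)

theorem Loc.map {γ : E n → Y} {z : E n} {γ' : E n → Y} {z' : E n} (h : Loc γ z γ' z')
    {f : Y → Y'} (hf : ∀ (c : ℂˣ) y, f (c • y) = c • f y) :
    Loc (fun ζ => f (γ ζ)) z (fun ζ => f (γ' ζ)) z' := by
  obtain ⟨t, g, ht, hg, hz, he⟩ := h
  refine ⟨t, g, ht, hg, hz, ?_⟩
  filter_upwards [he] with ζ hζ
  rw [hζ, hf]

theorem isHol_id (A : PolAtlas n Y) : IsHol A A id :=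
  ⟨fun _ _ => rfl, fun a z hz => ⟨a, z, hz, Loc.refl _ _⟩⟩

theorem IsHol.comp {A : PolAtlas n Y} {B : PolAtlas n Y'} {C : PolAtlas n Y''} {f : Y → Y'}
    {g : Y' → Y''} (hg : IsHol B C g) (hf : IsHol A B f) : IsHol A C (g ∘ f) := by
  refine ⟨fun c y => ?_, fun a z hz => ?_⟩
  · simp only [Function.comp]
    rw [hf.smul, hg.smul]
  · obtain ⟨b, z', hz', h⟩ := hf.loc a z hz
    obtain ⟨c, z'', hz'', h'⟩ := hg.loc b z' hz'
    exact ⟨c, z'', hz'', (h.map hg.smul).trans h'⟩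

theorem isHol_smul (A : PolAtlas n Y) (c : ℂˣ) : IsHol A A (fun y => c • y) := by
  refine ⟨fun c' y => by rw [smul_smul, smul_smul, mul_comm], fun a z hz => ⟨a, z, hz, ?_⟩⟩
  exact ⟨id, fun _ => c⁻¹, analyticAt_id, analyticAt_const, rfl, Filter.Eventually.of_forall
    fun ζ => by simp [smul_smul]⟩

theorem jac_comp {k l m : ℕ} {t : E k → E l} {s : E l → E m} {z : E k}
    (ht : DifferentiableAt ℂ t z) (hs : DifferentiableAt ℂ s (t z)) :
    jac (fun w => s (t w)) z = jac s (t z) * jac t z := by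
  ext i j
  have h1 : fderiv ℂ (fun w => s (t w)) z = (fderiv ℂ s (t z)).comp (fderiv ℂ t z) :=
    fderiv_comp z hs ht
  unfold jac
  rw [h1, Matrix.mul_apply, ContinuousLinearMap.comp_apply]
  have h2 : fderiv ℂ t z (Pi.single j 1) =
      ∑ k, (fderiv ℂ t z (Pi.single j 1) k) • (Pi.single k 1 : E l) := by
    ext r
    rw [Finset.sum_apply, Finset.sum_eq_single r]
    · simp
    · intro k _ hk
      simp [Pi.single_apply, hk.symm]
    · simp
  conv_lhs => rw [h2]
  rw [map_sum, Finset.sum_apply]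
  refine Finset.sum_congr rfl fun k _ => ?_
  rw [map_smul, Pi.smul_apply, smul_eq_mul, mul_comm]

theorem jac_id (z : E n) : jac (fun w : E n => w) z = 1 := by
  ext i j
  unfold jac
  rw [fderiv_id']
  simp [Matrix.one_apply, Pi.single_apply]

/-- A holomorphic map with a holomorphic inverse is biholomorphic. -/
theorem IsHol.isBihol {A : PolAtlas n Y} {B : PolAtlas n Y'} {f : Y → Y'} {g : Y' → Y}
    (hf : IsHol A B f) (hg : IsHol B A g) (hgf : ∀ y, g (f y) = y) : IsBihol A B f := by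
  refine ⟨hf.smul, fun a z hz => ?_⟩
  obtain ⟨b, z', hz', t, h, ht, hh, rfl, he⟩ := hf.loc a z hz
  obtain ⟨c, z'', hz'', s, k, hs, hk, rfl, he'⟩ := hg.loc b _ hz'
  refine ⟨b, t, fun ζ => (h ζ)⁻¹, ht, ?_, hz', ?_, ?_⟩
  · have : AnalyticAt ℂ (fun ζ => ((h ζ : ℂ))⁻¹) z := hh.inv (h z).ne_zero
    simpa only [Units.val_inv_eq_inv_val] using this
  · -- the derivative
    have hc : A.γ c (s (t z)) = (k (t z) * h z) • A.γ a z := by
      have e1 : A.γ c (s (t z)) = k (t z) • g (B.γ b (t z)) := he'.self_of_nhds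
      have e2 : B.γ b (t z) = h z • f (A.γ a z) := he.self_of_nhds
      rw [e1, e2, hg.smul, hgf, smul_smul]
    have hO : s (t z) ∈ A.O c a := ⟨hz'', z, hz, (k (t z) * h z)⁻¹, by rw [hc, inv_smul_smul]⟩
    have hopen : IsOpen (A.O c a) := A.isOpen_O c a
    have hev : ∀ᶠ ζ in 𝓝 z, A.τ c a (s (t ζ)) = ζ := by
      have h1 : ∀ᶠ ζ in 𝓝 z, s (t ζ) ∈ A.O c a :=
        (hs.continuousAt.comp ht.continuousAt).eventually (hopen.mem_nhds hO)
      have h2 : ∀ᶠ ζ in 𝓝 z, A.γ c (s (t ζ)) = k (t ζ) • g (B.γ b (t ζ)) :=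
        ht.continuousAt.eventually he'
      filter_upwards [h1, h2, he, (A.isOpen_U a).mem_nhds hz] with ζ e1 e2 e3 e4
      obtain ⟨e5, e6⟩ := A.trans c a (s (t ζ)) e1.1 e1.2
      have e7 : A.γ a (A.τ c a (s (t ζ))) = (A.h c a (s (t ζ)) * (k (t ζ) * h ζ)) • A.γ a ζ := by
        rw [e6, e2, e3, hg.smul, hgf, smul_smul, smul_smul, mul_assoc]
      exact (A.inj a ζ e4 _ e5 _ e7).1
    have hτ : DifferentiableAt ℂ (A.τ c a) (s (t z)) :=
      (A.hol_τ c a).differentiableAt (hopen.mem_nhds hO)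
    have hst : DifferentiableAt ℂ (fun ζ => s (t ζ)) z :=
      hs.differentiableAt.comp z ht.differentiableAt
    have h3 : jac (fun ζ => A.τ c a (s (t ζ))) z = 1 := by
      have : jac (fun ζ => A.τ c a (s (t ζ))) z = jac (fun ζ : E n => ζ) z := by
        unfold jac
        rw [Filter.EventuallyEq.fderiv_eq hev]
      rw [this, jac_id]
    rw [jac_comp hst hτ, jac_comp ht.differentiableAt hs.differentiableAt] at h3
    intro h0
    have h4 := congrArg Matrix.det h3
    rw [Matrix.det_mul, Matrix.det_mul, h0, mul_zero, mul_zero, Matrix.det_one] at h4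
    exact zero_ne_one h4
  · filter_upwards [he] with ζ hζ
    rw [hζ, inv_smul_smul]

theorem IsBihol.exists_open {A : PolAtlas n Y} {B : PolAtlas n Y'} {f : Y → Y'}
    (hf : IsBihol A B f) (a : A.ι) (z : E n) (hz : z ∈ A.U a) :
    ∃ (b : B.ι) (t : E n → E n) (h : E n → ℂˣ) (V : Set (E n)), IsOpen V ∧ z ∈ V ∧ V ⊆ A.U a ∧
      DifferentiableOn ℂ t V ∧ DifferentiableOn ℂ (fun ζ => (h ζ : ℂ)) V ∧
      ∀ w ∈ V, t w ∈ B.U b ∧ (jac t w).det ≠ 0 ∧ f (A.γ a w) = h w • B.γ b (t w) := by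
  obtain ⟨b, t, h, ht, hh, hb, hj, he⟩ := hf.loc a z hz
  have hdo : DifferentiableOn ℂ t {w | AnalyticAt ℂ t w} := fun w hw =>
    hw.differentiableAt.differentiableWithinAt
  have hjc : ContinuousAt (fun w => (jac t w).det) z :=
    ((jac_det_differentiableOn (isOpen_analyticAt ℂ t) hdo).differentiableAt
      ((isOpen_analyticAt ℂ t).mem_nhds ht)).continuousAt
  have hev : ∀ᶠ w in 𝓝 z, AnalyticAt ℂ t w ∧ AnalyticAt ℂ (fun ζ => (h ζ : ℂ)) w ∧
      t w ∈ B.U b ∧ (jac t w).det ≠ 0 ∧ f (A.γ a w) = h w • B.γ b (t w) ∧ w ∈ A.U a := by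
    filter_upwards [ht.eventually_analyticAt, hh.eventually_analyticAt,
      ht.continuousAt.eventually ((B.isOpen_U b).mem_nhds hb), hjc.eventually_ne hj, he,
      (A.isOpen_U a).mem_nhds hz] with w h1 h2 h3 h4 h5 h6
    exact ⟨h1, h2, h3, h4, h5, h6⟩
  obtain ⟨V, hVs, hV, hzV⟩ := eventually_nhds_iff.1 hev
  exact ⟨b, t, h, V, hV, hzV, fun w hw => (hVs w hw).2.2.2.2.2,
    fun w hw => (hVs w hw).1.differentiableAt.differentiableWithinAt,
    fun w hw => (hVs w hw).2.1.differentiableAt.differentiableWithinAt,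
    fun w hw => ⟨(hVs w hw).2.2.1, (hVs w hw).2.2.2.1, (hVs w hw).2.2.2.2.1⟩⟩

theorem IsBihol.isHol {A : PolAtlas n Y} {B : PolAtlas n Y'} {f : Y → Y'}
    (hf : IsBihol A B f) : IsHol A B f := by
  refine ⟨hf.smul, fun a z hz => ?_⟩
  obtain ⟨b, t, h, ht, hh, hb, hj, he⟩ := hf.loc a z hz
  refine ⟨b, t z, hb, t, fun ζ => (h ζ)⁻¹, ht, ?_, rfl, ?_⟩
  · have : AnalyticAt ℂ (fun ζ => ((h ζ : ℂ))⁻¹) z := hh.inv (h z).ne_zero
    simpa only [Units.val_inv_eq_inv_val] using this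
  · filter_upwards [he] with ζ hζ
    rw [hζ, inv_smul_smul]

theorem isBihol_id (A : PolAtlas n Y) : IsBihol A A id :=
  (isHol_id A).isBihol (isHol_id A) fun _ => rfl

theorem IsBihol.comp {A : PolAtlas n Y} {B : PolAtlas n Y'} {C : PolAtlas n Y''} {f : Y → Y'}
    {g : Y' → Y''} (hg : IsBihol B C g) (hf : IsBihol A B f) : IsBihol A C (g ∘ f) := by
  refine ⟨fun c y => ?_, fun a z hz => ?_⟩
  · simp only [Function.comp]
    rw [hf.smul, hg.smul]
  · obtain ⟨b, t, h, ht, hh, hb, hj, he⟩ := hf.loc a z hz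
    obtain ⟨c, s, k, hs, hk, hc, hj', he'⟩ := hg.loc b _ hb
    refine ⟨c, fun w => s (t w), fun w => h w * k (t w), hs.comp ht, ?_, hc, ?_, ?_⟩
    · have h3 : AnalyticAt ℂ (fun ζ => ((k (t ζ) : ℂˣ) : ℂ)) z :=
        AnalyticAt.comp (g := fun ζ => ((k ζ : ℂˣ) : ℂ)) (f := t) hk ht
      exact (hh.mul h3).congr (Filter.Eventually.of_forall fun ζ => (Units.val_mul _ _).symm)
    · rw [jac_comp ht.differentiableAt hs.differentiableAt, Matrix.det_mul]
      exact mul_ne_zero hj' hj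
    · filter_upwards [he, ht.continuousAt.eventually he'] with ζ e1 e2
      simp only [Function.comp]
      rw [e1, hg.smul, e2, smul_smul]

/-- the potentials of `H ∘ f` -/
theorem pot_comp {A : PolAtlas n Y} {B : PolAtlas n Y'} {f : Y → Y'} {H : Y' → ℝ}
    (hpos : ∀ y, 0 < H y) (hhom : ∀ (c : ℂˣ) y, H (c • y) = ‖(c : ℂ)‖ ^ 2 * H y)
    {a : A.ι} {b : B.ι} {w w' : E n} {c : ℂˣ} (h : f (A.γ a w) = c • B.γ b w') :
    A.pot (fun y => H (f y)) a w = Real.log (‖(c : ℂ)‖ ^ 2) + B.pot H b w' := by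
  unfold PolAtlas.pot
  simp only
  rw [h, hhom, Real.log_mul (by simp) (hpos _).ne']

section ppull

variable {A : PolAtlas n Y} {B : PolAtlas n Y'} {f : Y → Y'} {H : Y' → ℝ}

theorem PolAtlas.IsKahler.smNear (hH : B.IsKahler H) {b : B.ι} {z : E n} (hz : z ∈ B.U b) :
    SmNear (B.pot H b) z := SmNear.of_contDiffOn (B.isOpen_U b) (hH.smooth b) hz

theorem IsBihol.exists_pull (hf : IsBihol A B f) (hH : B.IsKahler H) (a : A.ι) (z : E n)
    (hz : z ∈ A.U a) : ∃ (b : B.ι) (t : E n → E n) (h : E n → ℂ) (V : Set (E n)), IsOpen V ∧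
      z ∈ V ∧ DifferentiableOn ℂ t V ∧ DifferentiableOn ℂ h V ∧ (∀ w ∈ V, h w ≠ 0) ∧
      (∀ w ∈ V, (jac t w).det ≠ 0) ∧ (∀ w ∈ V, t w ∈ B.U b) ∧
      A.pot (fun y => H (f y)) a =ᶠ[𝓝 z] ppull t h (B.pot H b) := by
  obtain ⟨b, t, h, V, hV, hzV, hVU, ht, hh, hw⟩ := hf.exists_open a z hz
  refine ⟨b, t, fun ζ => (h ζ : ℂ), V, hV, hzV, ht, hh, fun w _ => (h w).ne_zero,
    fun w hwV => (hw w hwV).2.1, fun w hwV => (hw w hwV).1, ?_⟩
  filter_upwards [hV.mem_nhds hzV] with w hwV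
  exact pot_comp hH.pos hH.hom (hw w hwV).2.2

/-- The pull-back of a Kähler metric under a locally biholomorphic map. -/
theorem IsBihol.isKahler (hf : IsBihol A B f) (hH : B.IsKahler H) :
    A.IsKahler (fun y => H (f y)) where
  pos y := hH.pos _
  hom c y := by
    rw [hf.smul, hH.hom]
  smooth a := by
    intro z hz
    obtain ⟨b, t, h, V, hV, hzV, ht, hh, h0, hJ, hB, he⟩ := hf.exists_pull hH a z hz
    have h1 : SmNear (ppull t h (B.pot H b)) z :=
      smNear_pull hV ht hh h0 hzV (hH.smNear (hB z hzV))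
    exact (h1.at.congr_of_eventuallyEq he).contDiffWithinAt
  posDef a z hz := by
    obtain ⟨b, t, h, V, hV, hzV, ht, hh, h0, hJ, hB, he⟩ := hf.exists_pull hH a z hz
    rw [hess_congr he, hess_ppull hV ht hh h0 hzV (hH.smNear (hB z hzV))]
    exact posDef_comp (hH.posDef b _ (hB z hzV)) (hJ z hzV)

/-- The pull-back of a csc metric under a locally biholomorphic map. -/
theorem IsBihol.isCsc (hf : IsBihol A B f) (hH : B.IsKahler H) {s : ℂ} (hs : B.IsCsc H s) :
    A.IsCsc (fun y => H (f y)) s := by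
  intro a z hz
  obtain ⟨b, t, h, V, hV, hzV, ht, hh, h0, hJ, hB, he⟩ := hf.exists_pull hH a z hz
  have hp : ∀ᶠ w in 𝓝 (t z), (hess (B.pot H b) w).PosDef := by
    filter_upwards [(B.isOpen_U b).mem_nhds (hB z hzV)] with w hw
    exact hH.posDef b w hw
  rw [scal_congr he, scal_pull hV ht hh h0 hJ hzV (hH.smNear (hB z hzV)) hp]
  exact hs b _ (hB z hzV)

end ppull

end

end Pool.Agent.YTDA


end

/- source: Pool.Agent.YTDA.Bochner3 -/

section

/-!
Local part of the Bochner argument.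
-/

namespace Pool.Agent.YTDA

open Complex Set Topology ContDiff ComplexOrder TopologicalSpace Matrix

noncomputable section

variable {n : ℕ}

/-- real divergence of a vector field on `ℂⁿ = ℝ²ⁿ` -/
def rdiv' (X : E n → E n) (z : E n) : ℝ :=
  ∑ i, ((fderiv ℝ X z (Pi.single i 1) i).re + (fderiv ℝ X z (Pi.single i I) i).im)

theorem rdiv'_eq {X : E n → E n} {z : E n} (hX : DifferentiableAt ℝ X z) :
    rdiv' X z = ∑ i, ((fderiv ℝ (fun w => X w i) z (Pi.single i 1)).re +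
      (fderiv ℝ (fun w => X w i) z (Pi.single i I)).im) := by
  unfold rdiv'
  refine Finset.sum_congr rfl fun i _ => ?_
  have h1 : ∀ v, fderiv ℝ (fun w => X w i) z v = fderiv ℝ X z v i := by
    intro v
    have h2 := (hasFDerivAt_pi'.1 hX.hasFDerivAt) i
    rw [h2.fderiv]
    rfl
  rw [h1, h1]

namespace KRAt

variable {Ω : Opens (E n)} {φ : E n → ℝ} (K : KRAt Ω φ)

theorem star_d (i : Fin n) (f : Sm Ω) : star (K.k.d i f) = K.k.db i (star f) := by
  rw [K.d_eq, K.db_eq, star_dzD]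

theorem star_db (i : Fin n) (f : Sm Ω) : star (K.k.db i f) = K.k.d i (star f) := by
  rw [K.d_eq, K.db_eq, star_dzbD]

variable (hp : ∀ z ∈ Ω, (hess φ z).PosDef)

include hp in
theorem star_g (i j : Fin n) : star (K.k.g i j) = K.k.g j i := by
  apply Sm.ext'
  intro z
  rw [star_apply, K.g_eval, K.g_eval]
  exact (hp z z.2).1.apply j i

include hp in
theorem star_gi (i j : Fin n) : star (K.k.gi i j) = K.k.gi j i := by
  have h1 : K.k.g.conjTranspose = K.k.g := by
    ext i j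
    rw [Matrix.conjTranspose_apply, K.star_g hp]
  have h2 : K.k.gi.conjTranspose * K.k.g = 1 := by
    have := congrArg Matrix.conjTranspose K.k.inv'
    rwa [Matrix.conjTranspose_mul, h1, Matrix.conjTranspose_one] at this
  have h3 : K.k.gi.conjTranspose = K.k.gi := by
    calc K.k.gi.conjTranspose = K.k.gi.conjTranspose * (K.k.g * K.k.gi) := by
          rw [K.k.inv', Matrix.mul_one]
      _ = K.k.gi := by rw [← Matrix.mul_assoc, h2, Matrix.one_mul]
  have h4 := congrFun (congrFun h3 j) i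
  rwa [Matrix.conjTranspose_apply] at h4

variable {v : Sm Ω} (hv : star v = v)

include hp hv in
theorem star_W (i : Fin n) : star (K.k.W v i) = K.k.Wb v i := by
  unfold Alg.KR.W Alg.KR.Wb
  rw [star_sum]
  refine Finset.sum_congr rfl fun m _ => ?_
  rw [star_mul', K.star_db, K.star_gi hp, hv, mul_comm]

include hp hv in
theorem star_Am (l m : Fin n) : star (K.k.Am v l m) = K.k.Bm v l m := by
  unfold Alg.KR.Am Alg.KR.Bm
  rw [star_sum]
  refine Finset.sum_congr rfl fun i _ => ?_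
  rw [star_mul', K.star_db, K.star_g hp, K.star_W hp hv]

theorem gi_eval (z : Ω) : K.k.gi.map (evalS z) = (hess φ z)⁻¹ := by
  have h0 : K.k.g.map (evalS z) = hess φ z := by
    ext i j
    exact K.g_eval i j z
  have h1 : K.k.gi.map (evalS z) * hess φ z = 1 := by
    rw [← h0, ← Matrix.map_mul, K.k.inv, Matrix.map_one _ (map_zero _) (map_one _)]
  exact (Matrix.inv_eq_left_inv h1).symm

theorem gi_apply (z : Ω) (i j : Fin n) : (K.k.gi i j).1 z = (hess φ z)⁻¹ i j :=
  congrFun (congrFun (K.gi_eval z) i) j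

theorem det_eval (z : Ω) : (K.k.g.det).1 z = (hess φ z).det := by
  have h0 : K.k.g.map (evalS z) = hess φ z := by
    ext i j
    exact K.g_eval i j z
  rw [← h0, ← evalS_apply]
  have := RingHom.map_det (evalS z : Sm Ω →+* ℂ) K.k.g
  exact this

include hp in
theorem det_real (z : Ω) : ((hess φ z).det.re : ℂ) = (hess φ z).det := by
  have h1 := (hp z z.2).1
  have h2 : (starRingEnd ℂ) (hess φ z).det = (hess φ z).det := by
    have h3 := Matrix.det_conjTranspose (hess φ z)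
    rw [h1.eq] at h3
    exact h3.symm
  exact Complex.conj_eq_iff_re.1 h2

include hp hv in
/-- positivity of the Bochner term -/
theorem P_pos (z : Ω) : 0 ≤ ((K.k.P v).1 z).re ∧ (((K.k.P v).1 z).re = 0 →
    ∀ m i, (K.k.db m (K.k.W v i)).1 z = 0) := by
  set M : Matrix (Fin n) (Fin n) ℂ := fun l m => (K.k.Am v l m).1 z with hM
  have hs : M.transpose = M := by
    ext l m
    show (K.k.Am v m l).1 z = (K.k.Am v l m).1 z
    rw [K.k.Am_symm]
  obtain ⟨r, hr0, hr, hr1⟩ := Alg.trace_pos_aux (hp z z.2) hs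
  have h1 : (K.k.P v).1 z = r := by
    rw [← hr, K.k.P_eq, ← evalS_apply]
    have e1 : ∀ N : Matrix (Fin n) (Fin n) (Sm Ω), evalS z N.trace = (N.map (evalS z)).trace := by
      intro N
      simp only [Matrix.trace, Matrix.diag, map_sum, Matrix.map_apply]
    have e2 : (Matrix.of (K.k.Bm v)).map (evalS z) = M.map (starRingEnd ℂ) := by
      ext l m
      show (K.k.Bm v l m).1 z = (starRingEnd ℂ) ((K.k.Am v l m).1 z)
      rw [← K.star_Am hp hv, star_apply]
    have e3 : (Matrix.of (K.k.Am v)).map (evalS z) = M := rfl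
    rw [e1, Matrix.map_mul, Matrix.map_mul, Matrix.map_mul, K.gi_eval, e2, e3,
      Matrix.transpose_map, K.gi_eval]
  refine ⟨by rw [h1, ofReal_re]; exact hr0, fun h0 m i => ?_⟩
  rw [h1, ofReal_re] at h0
  have h2 := hr1 h0
  rw [K.k.dbW_eq, Sm.sum_apply]
  refine Finset.sum_eq_zero fun l _ => ?_
  have h3 : (K.k.Am v l m).1 z = 0 := congrFun (congrFun h2 l) m
  rw [Sm.mul_apply, h3, zero_mul]

/-- the vector field of the Bochner argument -/
def Xi (v : Sm Ω) (i : Fin n) : Sm Ω :=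
  (1 / 2 : ℂ) • ((K.k.xi v i - v * K.k.W (K.k.lap v) i) - star (v * K.k.Yv v i))

/-- the same as a function on `ℂⁿ` -/
def XiF (v : Sm Ω) (w : E n) : E n := fun i => ext (K.Xi v i).1 w

theorem contDiffOn_XiF (v : Sm Ω) : ContDiffOn ℝ ∞ (K.XiF v) Ω :=
  contDiffOn_pi.2 fun i => (K.Xi v i).2

include K in
theorem contDiffOn_det : ContDiffOn ℝ ∞ (fun z => (hess φ z).det.re) Ω := by
  have h1 : ContDiffOn ℝ ∞ (ext (K.k.g.det).1) Ω := (K.k.g.det).2
  have h2 : ContDiffOn ℝ ∞ (fun z => (ext (K.k.g.det).1 z).re) Ω :=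
    Complex.reCLM.contDiff.comp_contDiffOn h1
  refine h2.congr fun z hz => ?_
  rw [ext_mk _ hz, K.det_eval]

/-- real part of a Wirtinger derivative -/
theorem re_dzD (i : Fin n) (f : Sm Ω) (z : Ω) : ((dzD i f).1 z).re =
    ((fderiv ℝ (ext f.1) z (Pi.single i 1)).re + (fderiv ℝ (ext f.1) z (Pi.single i I)).im) / 2 := by
  rw [dzD_apply, re_dz]

include hp hv in
theorem local_div (hS : ∀ i, K.k.db i K.k.S = 0) (hl : K.k.lich v = 0) (z : Ω) :
    (hess φ z).det.re * ((K.k.P v).1 z).re =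
      rdiv' (fun w => ((hess φ w).det.re : ℂ) • K.XiF v w) z := by
  -- the vector field as an element of the ring
  set Z : Fin n → Sm Ω := fun i => K.k.g.det * K.Xi v i with hZ
  have hdet : star K.k.g.det = K.k.g.det := by
    apply Sm.ext'
    intro w
    rw [star_apply, K.det_eval, ← KRAt.det_real hp w, conj_ofReal]
  have e1 : K.k.g.det * K.k.P v = ∑ i, (K.k.d i (K.k.g.det * (K.k.xi v i -
      v * K.k.W (K.k.lap v) i)) - K.k.db i (K.k.g.det * (v * K.k.Yv v i))) := by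
    rw [K.k.bochner v, hl]
    simp only [hS, mul_zero, Finset.sum_const_zero, add_zero]
    rw [mul_sub, K.k.rho_div, K.k.rho_divb, ← Finset.sum_sub_distrib]
  have e2 : ∀ i, ((K.k.d i (Z i)).1 z).re = (((K.k.d i (K.k.g.det * (K.k.xi v i -
      v * K.k.W (K.k.lap v) i)) - K.k.db i (K.k.g.det * (v * K.k.Yv v i))).1 z).re) / 2 := by
    intro i
    have f1 : Z i = (1 / 2 : ℂ) • (K.k.g.det * (K.k.xi v i - v * K.k.W (K.k.lap v) i) -
        star (K.k.g.det * (v * K.k.Yv v i))) := by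
      rw [hZ]
      simp only [Xi]
      rw [mul_smul_comm, mul_sub, star_mul', star_mul', hdet, star_mul']
    have f2 : (K.k.d i (Z i)).1 z = (1 / 2 : ℂ) * ((K.k.d i (K.k.g.det * (K.k.xi v i -
        v * K.k.W (K.k.lap v) i))).1 z - (starRingEnd ℂ)
        ((K.k.db i (K.k.g.det * (v * K.k.Yv v i))).1 z)) := by
      rw [f1, K.d_eq]
      have g1 : ∀ f : Sm Ω, dzD i ((1 / 2 : ℂ) • f) = (1 / 2 : ℂ) • dzD i f :=
        fun f => (dzD i).map_smul _ _
      rw [g1, Sm.smul_apply, map_sub, Sm.sub_apply, ← K.d_eq, ← K.d_eq, ← K.star_db, star_apply]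
    rw [f2, Sm.sub_apply, Complex.sub_re]
    rw [show (1 / 2 : ℂ) = ((1 / 2 : ℝ) : ℂ) by norm_num, re_ofReal_mul, Complex.sub_re,
      Complex.conj_re]
    ring
  have e3 : (hess φ z).det.re * ((K.k.P v).1 z).re = 2 * ∑ i, ((K.k.d i (Z i)).1 z).re := by
    have f1 : ((K.k.g.det * K.k.P v).1 z).re = (hess φ z).det.re * ((K.k.P v).1 z).re := by
      rw [Sm.mul_apply, K.det_eval, ← KRAt.det_real hp z, re_ofReal_mul, ofReal_re]
    rw [← f1, e1, Sm.sum_apply, Complex.re_sum, Finset.mul_sum]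
    refine Finset.sum_congr rfl fun i _ => ?_
    rw [e2]
    ring
  have hdiff : DifferentiableAt ℝ (fun w => ((hess φ w).det.re : ℂ) • K.XiF v w) z := by
    have h1 : ContDiffOn ℝ ∞ (fun w => ((hess φ w).det.re : ℂ)) Ω :=
      Complex.ofRealCLM.contDiff.comp_contDiffOn (K.contDiffOn_det)
    have h2 : ContDiffOn ℝ ∞ (fun w => ((hess φ w).det.re : ℂ) • K.XiF v w) Ω :=
      h1.smul (K.contDiffOn_XiF v)
    exact (h2.contDiffAt (Ω.isOpen.mem_nhds z.2)).differentiableAt (by simp)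
  rw [e3, rdiv'_eq hdiff, Finset.mul_sum]
  refine Finset.sum_congr rfl fun i _ => ?_
  have h3 : (fun w => (((hess φ w).det.re : ℂ) • K.XiF v w) i) =ᶠ[𝓝 (z : E n)] ext (Z i).1 := by
    refine Filter.eventuallyEq_of_mem (Ω.isOpen.mem_nhds z.2) fun w hw => ?_
    simp only [Pi.smul_apply, smul_eq_mul, XiF]
    rw [ext_mk _ hw, ext_mk _ hw, hZ]
    simp only [Sm.mul_apply]
    rw [K.det_eval, KRAt.det_real hp ⟨w, hw⟩]
  rw [K.d_eq, re_dzD, h3.fderiv_eq]
  ring

end KRAt

/-! ### Naturality -/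

/-- A local holomorphic isometry `τ`. -/
structure HolIso {Ω' Ω : Opens (E n)} {φ' φ : E n → ℝ} (K' : KRAt Ω' φ') (K : KRAt Ω φ)
    (τ : E n → E n) where
  t : Alg.Hol K'.k K.k
  maps : ∀ z ∈ Ω, τ z ∈ Ω'
  T_eval : ∀ f (z : Ω), (t.T f).1 z = f.1 ⟨τ z, maps z z.2⟩
  J_eval : ∀ b a (z : Ω), (t.J b a).1 z = fderiv ℂ τ z (Pi.single a 1) b
  Jb_eq : ∀ b a, t.Jb b a = star (t.J b a)

namespace HolIso

variable {Ω' Ω : Opens (E n)} {φ' φ : E n → ℝ} {K' : KRAt Ω' φ'} {K : KRAt Ω φ} {τ : E n → E n}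
  (h : HolIso K' K τ)

theorem T_star (f : Sm Ω') : h.t.T (star f) = star (h.t.T f) := by
  apply Sm.ext'
  intro z
  rw [h.T_eval, star_apply, star_apply, h.T_eval]

/-- A vector field which is natural for `J`. -/
theorem fderiv_apply' {X' : Fin n → Sm Ω'} {X : Fin n → Sm Ω}
    (hX : ∀ b, ∑ a, h.t.J b a * X a = h.t.T (X' b)) (z : Ω) :
    fderiv ℂ τ z (fun i => (X i).1 z) = fun b => (X' b).1 ⟨τ z, h.maps z z.2⟩ := by
  have h1 : (fun i => (X i).1 z : E n) = ∑ a, (X a).1 z • (Pi.single a (1 : ℂ) : E n) := by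
    ext i
    simp [Finset.sum_apply, Pi.single_apply]
  funext b
  rw [h1, map_sum, Finset.sum_apply, ← h.T_eval, ← hX b, Sm.sum_apply]
  refine Finset.sum_congr rfl fun a _ => ?_
  rw [map_smul, Pi.smul_apply, smul_eq_mul, Sm.mul_apply, h.J_eval, mul_comm]

theorem Xi_T (v : Sm Ω') (b : Fin n) :
    ∑ a, h.t.J b a * K.Xi (h.t.T v) a = h.t.T (K'.Xi v b) := by
  have h1 : ∀ a, h.t.J b a * K.Xi (h.t.T v) a = (1 / 2 : ℂ) • (h.t.J b a * K.k.xi (h.t.T v) a -
      h.t.T v * (h.t.J b a * K.k.W (K.k.lap (h.t.T v)) a) -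
      star (h.t.T v * (h.t.Jb b a * K.k.Yv (h.t.T v) a))) := by
    intro a
    have f1 : star (h.t.Jb b a) = h.t.J b a := by rw [h.Jb_eq, star_star]
    unfold KRAt.Xi
    rw [mul_smul_comm, star_mul', star_mul', star_mul', f1]
    congr 1
    ring
  simp only [h1]
  rw [← Finset.smul_sum, Finset.sum_sub_distrib, Finset.sum_sub_distrib, h.t.xi_T,
    ← Finset.mul_sum, h.t.lap_eq, h.t.J_W, ← star_sum, ← Finset.mul_sum, h.t.Yv_T]
  unfold KRAt.Xi
  have h2 : ∀ f : Sm Ω', h.t.T ((1 / 2 : ℂ) • f) = (1 / 2 : ℂ) • h.t.T f := by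
    intro f
    apply Sm.ext'
    intro z
    rw [h.T_eval, Sm.smul_apply, Sm.smul_apply, h.T_eval]
  rw [h2, map_sub, map_sub, map_mul, h.T_star, map_mul]

end HolIso

end

end Pool.Agent.YTDA


end

/- source: Pool.Agent.YTDA.Bochner4 -/

section

/-!
The derivation along the circle action; the local Lichnerowicz equation.
-/

namespace Pool.Agent.YTDA

open Complex Set Topology ContDiff ComplexOrder TopologicalSpace Matrix

noncomputable section

variable {n : ℕ}

/-- the vector field generating the linear circle action with weights `k` -/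
def rot (k : Fin n → ℤ) (z : E n) : E n := fun j => I * (k j : ℂ) * z j

theorem contDiff_rot (k : Fin n → ℤ) : ContDiff ℝ ∞ (rot k) := by
  apply contDiff_pi.2
  intro i
  unfold rot
  exact contDiff_const.mul (contDiff_apply ℝ ℂ i)

theorem hasDerivAt_rot (k : Fin n → ℤ) (z : E n) :
    HasDerivAt (fun θ : ℝ => (fun j => exp ((k j : ℂ) * θ * I) * z j : E n)) (rot k z) 0 := by
  apply hasDerivAt_pi.2
  intro j
  have h1 : HasDerivAt (fun θ : ℝ => ((k j : ℂ) * θ * I)) ((k j : ℂ) * I) 0 := by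
    have h0 : HasDerivAt (fun θ : ℝ => (θ : ℂ)) 1 (0 : ℝ) := Complex.ofRealCLM.hasDerivAt
    have := (h0.const_mul (k j : ℂ)).mul_const I
    simpa using this
  have h2 := (h1.cexp).mul_const (z j)
  have h3 : rot k z j = exp ((k j : ℂ) * (0 : ℝ) * I) * ((k j : ℂ) * I) * z j := by
    rw [show ((k j : ℂ) * ((0 : ℝ) : ℂ) * I) = 0 by simp, Complex.exp_zero]
    unfold rot
    ring
  rw [h3]
  exact h2

theorem exp_rot_zero (k : Fin n → ℤ) (z : E n) :
    (fun j => exp ((k j : ℂ) * (0 : ℝ) * I) * z j : E n) = z := by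
  funext j
  simp

theorem deriv_rot {φ : E n → ℝ} {z : E n} (hφ : DifferentiableAt ℝ φ z) (k : Fin n → ℤ) :
    deriv (fun θ : ℝ => φ (fun j => exp ((k j : ℂ) * θ * I) * z j)) 0 =
      fderiv ℝ φ z (rot k z) := by
  have h1 : HasFDerivAt φ (fderiv ℝ φ z)
      ((fun θ : ℝ => (fun j => exp ((k j : ℂ) * θ * I) * z j : E n)) 0) := by
    have := exp_rot_zero k z
    simp only at this ⊢
    rw [this]
    exact hφ.hasFDerivAt
  exact (h1.comp_hasDerivAt 0 (hasDerivAt_rot k z)).deriv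

theorem fderiv_ofReal {φ : E n → ℝ} {z : E n} (hφ : DifferentiableAt ℝ φ z) (u : E n) :
    fderiv ℝ (fun w => (φ w : ℂ)) z u = (fderiv ℝ φ z u : ℝ) := by
  have h := (Complex.ofRealCLM.hasFDerivAt (x := φ z)).comp z hφ.hasFDerivAt
  have h2 : fderiv ℝ (fun w => (φ w : ℂ)) z = Complex.ofRealCLM.comp (fderiv ℝ φ z) := h.fderiv
  rw [h2]
  rfl

/-- the derivative of `φ` along the circle action -/
def cvF (φ : E n → ℝ) (k : Fin n → ℤ) (z : E n) : ℝ := fderiv ℝ φ z (rot k z)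

theorem contDiffOn_cvF {Ω : Opens (E n)} {φ : E n → ℝ} (hφ : ContDiffOn ℝ ∞ φ Ω)
    (k : Fin n → ℤ) : ContDiffOn ℝ ∞ (cvF φ k) Ω :=
  (hφ.fderiv_of_isOpen Ω.isOpen (by simp)).clm_apply (contDiff_rot k).contDiffOn

variable {Ω : Opens (E n)}

/-- the coordinate functions -/
def coor (j : Fin n) : Sm Ω := ofFn (fun z => z j) (contDiff_apply ℝ ℂ j).contDiffOn

theorem coor_apply (j : Fin n) (z : Ω) : (coor j : Sm Ω).1 z = (z : E n) j := rfl

theorem fderiv_coor (j : Fin n) (z u : E n) : fderiv ℝ (fun w : E n => w j) z u = u j := by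
  have : (fun w : E n => w j) = (ContinuousLinearMap.proj j : E n →L[ℝ] ℂ) := rfl
  rw [this, ContinuousLinearMap.fderiv]
  rfl

theorem dzD_coor (i j : Fin n) : dzD i (coor j : Sm Ω) = if i = j then 1 else 0 := by
  apply Sm.ext'
  intro z
  unfold coor
  rw [dzD_ofFn]
  unfold dz
  rw [fderiv_coor, fderiv_coor]
  by_cases h : i = j
  · subst h
    simp
  · have h' : j ≠ i := fun e => h e.symm
    simp [h, h']

theorem dzbD_coor (i j : Fin n) : dzbD i (coor j : Sm Ω) = 0 := by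
  apply Sm.ext'
  intro z
  unfold coor
  rw [dzbD_ofFn]
  unfold dzb
  rw [fderiv_coor, fderiv_coor]
  by_cases h : i = j
  · subst h
    simp
  · have h' : j ≠ i := fun e => h e.symm
    simp [h']

theorem dzD_star_coor (i j : Fin n) : dzD i (star (coor j : Sm Ω)) = 0 := by
  rw [← star_dzbD, dzbD_coor, star_zero]

theorem dzbD_star_coor (i j : Fin n) :
    dzbD i (star (coor j : Sm Ω)) = if i = j then 1 else 0 := by
  rw [← star_dzD, dzD_coor]
  split
  · exact star_one _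
  · exact star_zero _

/-- constants -/
def cst (c : ℂ) : Sm Ω := algebraMap ℂ (Sm Ω) c

theorem cst_apply (c : ℂ) (z : Ω) : (cst c : Sm Ω).1 z = c := rfl

theorem dzD_cst (i : Fin n) (c : ℂ) : dzD i (cst c : Sm Ω) = 0 := (dzD i).map_algebraMap c

theorem dzbD_cst (i : Fin n) (c : ℂ) : dzbD i (cst c : Sm Ω) = 0 := (dzbD i).map_algebraMap c

/-- the derivation along the circle action -/
def DX (k : Fin n → ℤ) : Derivation ℂ (Sm Ω) (Sm Ω) :=
  ∑ j, ((cst (I * (k j : ℂ)) * coor j : Sm Ω) • dzD j -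
    (cst (I * (k j : ℂ)) * star (coor j) : Sm Ω) • dzbD j)

theorem DX_apply (k : Fin n → ℤ) (f : Sm Ω) : DX k f =
    ∑ j, (cst (I * (k j : ℂ)) * coor j * dzD j f -
      cst (I * (k j : ℂ)) * star (coor j) * dzbD j f) := by
  unfold DX
  have h : ∀ (s : Finset (Fin n)) (F : Fin n → Derivation ℂ (Sm Ω) (Sm Ω)),
      (∑ j ∈ s, F j) f = ∑ j ∈ s, F j f := by
    intro s F
    induction s using Finset.induction_on with
    | empty => simp
    | insert a s ha ih => rw [Finset.sum_insert ha, Finset.sum_insert ha, Derivation.add_apply, ih]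
  rw [h]
  refine Finset.sum_congr rfl fun j _ => ?_
  rw [Derivation.sub_apply, Derivation.smul_apply, Derivation.smul_apply, smul_eq_mul, smul_eq_mul]

theorem DX_dzD (k : Fin n → ℤ) (i : Fin n) (f : Sm Ω) :
    DX k (dzD i f) = dzD i (DX k f) - cst (I * (k i : ℂ)) * dzD i f := by
  rw [DX_apply, DX_apply, map_sum, eq_sub_iff_add_eq]
  have h1 : ∀ j, dzD i (cst (I * (k j : ℂ)) * coor j * dzD j f -
      cst (I * (k j : ℂ)) * star (coor j) * dzbD j f) =
      (cst (I * (k j : ℂ)) * coor j * dzD j (dzD i f) -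
      cst (I * (k j : ℂ)) * star (coor j) * dzbD j (dzD i f)) +
      (if i = j then cst (I * (k j : ℂ)) * dzD j f else 0) := by
    intro j
    rw [map_sub, Derivation.leibniz, Derivation.leibniz, Derivation.leibniz, Derivation.leibniz,
      dzD_coor, dzD_star_coor, dzD_cst, dzD_comm, dzD_dzbD_comm]
    simp only [smul_eq_mul]
    split
    · ring
    · ring
  simp only [h1, Finset.sum_add_distrib, Finset.sum_ite_eq, Finset.mem_univ, if_true]

theorem DX_dzbD (k : Fin n → ℤ) (i : Fin n) (f : Sm Ω) :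
    DX k (dzbD i f) = dzbD i (DX k f) - cst (-(I * (k i : ℂ))) * dzbD i f := by
  rw [DX_apply, DX_apply, map_sum, eq_sub_iff_add_eq]
  have h1 : ∀ j, dzbD i (cst (I * (k j : ℂ)) * coor j * dzD j f -
      cst (I * (k j : ℂ)) * star (coor j) * dzbD j f) =
      (cst (I * (k j : ℂ)) * coor j * dzD j (dzbD i f) -
      cst (I * (k j : ℂ)) * star (coor j) * dzbD j (dzbD i f)) +
      (if i = j then cst (-(I * (k j : ℂ))) * dzbD j f else 0) := by
    intro j
    have h2 : (cst (-(I * (k j : ℂ))) : Sm Ω) = - cst (I * (k j : ℂ)) := by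
      apply Sm.ext'
      intro z
      rw [cst_apply, Sm.neg_apply, cst_apply]
    rw [map_sub, Derivation.leibniz, Derivation.leibniz, Derivation.leibniz, Derivation.leibniz,
      dzbD_coor, dzbD_star_coor, dzbD_cst, dzbD_comm, ← dzD_dzbD_comm, h2]
    simp only [smul_eq_mul]
    split
    · ring
    · ring
  simp only [h1, Finset.sum_add_distrib, Finset.sum_ite_eq, Finset.mem_univ, if_true]

theorem DX_ofR {φ : E n → ℝ} (hφ : ContDiffOn ℝ ∞ φ Ω) (k : Fin n → ℤ) :
    DX k (ofR φ hφ : Sm Ω) = ofR (cvF φ k) (contDiffOn_cvF hφ k) := by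
  apply Sm.ext'
  intro z
  have hd : DifferentiableAt ℝ φ z :=
    (hφ.contDiffAt (Ω.isOpen.mem_nhds z.2)).differentiableAt (by simp)
  rw [DX_apply, Sm.sum_apply, ofR_apply, cvF, ← fderiv_ofReal hd, fderiv_eq_dz_dzb]
  refine Finset.sum_congr rfl fun j _ => ?_
  have h1 : (dzD j (ofR φ hφ : Sm Ω)).1 z = dz j (fun w => (φ w : ℂ)) z := dzD_ofFn _ _ _ _
  have h2 : (dzbD j (ofR φ hφ : Sm Ω)).1 z = dzb j (fun w => (φ w : ℂ)) z := dzbD_ofFn _ _ _ _
  simp only [Sm.sub_apply, Sm.mul_apply, h1, h2, cst_apply, coor_apply, star_apply, rot]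
  simp only [map_mul, conj_I, map_intCast]
  ring

namespace KRAt

variable {φ : E n → ℝ} (K : KRAt Ω φ) (hφ : ContDiffOn ℝ ∞ φ Ω)

theorem g_eq (i j : Fin n) : K.k.g i j = dzD i (dzbD j (ofR φ hφ)) := by
  apply Sm.ext'
  intro z
  rw [K.g_eval, dzD_apply]
  refine dz_congr ?_
  refine Filter.eventuallyEq_of_mem (Ω.isOpen.mem_nhds z.2) fun w hw => ?_
  rw [ext_mk _ hw]
  exact (dzbD_ofFn j (fun w => (φ w : ℂ)) _ ⟨w, hw⟩).symm

theorem S_const {s : ℂ} (hs : ∀ z ∈ Ω, scal φ z = s) : K.k.S = cst s := by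
  apply Sm.ext'
  intro z
  rw [K.S_eval, hs z z.2, cst_apply]

include K hφ in
/-- the Lichnerowicz equation -/
theorem lich_eq {s : ℂ} (hs : ∀ z ∈ Ω, scal φ z = s) (k : Fin n → ℤ) :
    K.k.lich (ofR (cvF φ k) (contDiffOn_cvF hφ k)) = 0 := by
  have h := K.k.lin_D_S ((DX k).restrictScalars ℤ) (fun i => cst (I * (k i : ℂ)))
    (fun i => cst (-(I * (k i : ℂ))))
    (fun i j => by rw [K.d_eq, dzD_cst]) (fun i j => by rw [K.db_eq, dzbD_cst])
    (fun i f => by
      rw [K.d_eq, K.d_eq]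
      exact DX_dzD k i f)
    (fun i f => by
      rw [K.db_eq, K.db_eq]
      exact DX_dzbD k i f)
    (fun i j => by rw [K.d_eq, dzD_cst])
    (ofR (cvF φ k) (contDiffOn_cvF hφ k))
    (fun i j => by
      rw [K.g_eq hφ, ← DX_ofR hφ, K.d_eq, K.db_eq]
      show DX k _ = _
      rw [DX_dzD, DX_dzbD, map_sub, Derivation.leibniz, dzD_cst]
      simp only [smul_eq_mul]
      ring)
  rw [K.S_const hs] at h
  have h2 : ((DX k).restrictScalars ℤ : Derivation ℤ (Sm Ω) (Sm Ω)) (cst s) = 0 :=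
    (DX k).map_algebraMap s
  rw [h2] at h
  exact neg_eq_zero.1 h.symm

end KRAt

end

end Pool.Agent.YTDA


end

/- source: Pool.Agent.YTDA.KrOf -/

section

/-!
# The Kähler ring of a potential; naturality under holomorphic maps
-/

namespace Pool.Agent.YTDA

open Complex Set Topology ContDiff ComplexOrder TopologicalSpace Matrix Alg

noncomputable section

set_option linter.unusedSectionVars false

section KrS

variable {n : ℕ} {Ω : Opens (E n)}

/-- the Kähler ring of a function whose complex Hessian is invertible -/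
def krS (f : Sm Ω) (hd : IsUnit (hessS f).det) : KR (Sm Ω) n where
  d i := (dzD i).restrictScalars ℤ
  db i := (dzbD i).restrictScalars ℤ
  dd i j f := dzD_comm i j f
  ddb i j f := dzD_dzbD_comm i j f
  dbdb i j f := dzbD_comm i j f
  g := hessS f
  gi := (hessS f)⁻¹
  inv := Matrix.nonsing_inv_mul _ hd
  inv' := Matrix.mul_nonsing_inv _ hd
  k1 i j a := dzD_hessS f i j a
  k2 a b i := dzbD_hessS f a i b

variable (f : Sm Ω) (hd : IsUnit (hessS f).det)

@[simp] theorem krS_d (i : Fin n) (u : Sm Ω) : (krS f hd).d i u = dzD i u := rfl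

@[simp] theorem krS_db (i : Fin n) (u : Sm Ω) : (krS f hd).db i u = dzbD i u := rfl

@[simp] theorem krS_g (i j : Fin n) : (krS f hd).g i j = dzD i (dzbD j f) := rfl

theorem krS_g' : (krS f hd).g = hessS f := rfl

theorem krS_gi : (krS f hd).gi = (hessS f)⁻¹ := rfl

variable {f} (hf : star f = f)
include hf

theorem star_krS_g (i j : Fin n) : star ((krS f hd).g i j) = (krS f hd).g j i := star_hessS hf i j

theorem star_krS_gi (i j : Fin n) : star ((krS f hd).gi i j) = (krS f hd).gi j i := by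
  have h1 : ((hessS f)⁻¹)ᴴ = (hessS f)⁻¹ := by
    rw [Matrix.conjTranspose_nonsing_inv, (isHermitian_hessS hf).eq]
  have h2 := congrFun (congrFun h1 j) i
  rw [Matrix.conjTranspose_apply] at h2
  exact h2

theorem star_krS_F (i : Fin n) : star ((krS f hd).F i) = (krS f hd).Fb i := by
  rw [KR.F_eq, KR.Fb_eq, star_sum]
  simp only [star_sum, star_mul', star_krS_gi hd hf, krS_d, krS_db, star_dzD, star_krS_g hd hf]
  rw [Finset.sum_comm]

theorem star_krS_R (i j : Fin n) : star ((krS f hd).R i j) = (krS f hd).R j i := by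
  rw [KR.R, KR.R_eq, star_neg, krS_db, krS_d, star_dzbD, star_krS_F hd hf]

theorem star_krS_lap (u : Sm Ω) : star ((krS f hd).lap u) = (krS f hd).lap (star u) := by
  rw [KR.lap, KR.lap, star_sum]
  simp only [star_sum, star_mul', star_krS_gi hd hf, krS_d, krS_db, star_dzD, star_dzbD]
  rw [Finset.sum_comm]
  refine Finset.sum_congr rfl fun i _ => Finset.sum_congr rfl fun j _ => ?_
  rw [dzD_dzbD_comm]

theorem star_krS_W (u : Sm Ω) (i : Fin n) :
    star ((krS f hd).W u i) = (krS f hd).Wb (star u) i := by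
  rw [KR.W, KR.Wb, star_sum]
  refine Finset.sum_congr rfl fun j _ => ?_
  rw [star_mul', star_krS_gi hd hf, krS_db, krS_d, star_dzbD, mul_comm]

theorem star_krS_Wb (u : Sm Ω) (i : Fin n) :
    star ((krS f hd).Wb u i) = (krS f hd).W (star u) i := by
  have h := star_krS_W hd hf (star u) i
  rw [star_star] at h
  rw [← h, star_star]

theorem star_krS_S : star (krS f hd).S = (krS f hd).S := by
  rw [KR.S, star_sum]
  simp only [star_sum, star_mul', star_krS_gi hd hf, star_krS_R hd hf]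
  rw [Finset.sum_comm]

omit hf

/-- the logarithmic derivative of the determinant -/
theorem krS_F (hp : ∀ z, 0 < (hessS f).det.1 z) (i : Fin n) :
    (krS f hd).F i = dzD i (logS (hessS f).det hp) := by
  rw [KR.F_eq, DS_logdet (dzD_mem_DS i) _ hp]
  rfl

theorem krS_Fb (hp : ∀ z, 0 < (hessS f).det.1 z) (i : Fin n) :
    (krS f hd).Fb i = dzbD i (logS (hessS f).det hp) := by
  rw [KR.Fb_eq, DS_logdet (dzbD_mem_DS i) _ hp]
  rfl

theorem krS_R (hp : ∀ z, 0 < (hessS f).det.1 z) (i j : Fin n) :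
    (krS f hd).R i j = -dzD i (dzbD j (logS (hessS f).det hp)) := by
  rw [KR.R_eq, krS_Fb hd hp]
  rfl

theorem krS_S (hp : ∀ z, 0 < (hessS f).det.1 z) :
    (krS f hd).S = -∑ i, ∑ j, (hessS f)⁻¹ j i * dzD i (dzbD j (logS (hessS f).det hp)) := by
  rw [KR.S, ← Finset.sum_neg_distrib]
  refine Finset.sum_congr rfl fun i _ => ?_
  rw [← Finset.sum_neg_distrib]
  refine Finset.sum_congr rfl fun j _ => ?_
  rw [krS_R hd hp, mul_neg, krS_gi]

end KrS

section KrOf

variable {n : ℕ} {Ω : Opens (E n)} {φ : E n → ℝ} (hφ : ContDiffOn ℝ ∞ φ Ω)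
  (hp : ∀ z ∈ Ω, (hess φ z).PosDef)

include hp in
theorem isUnit_det_hessS : IsUnit (hessS (ofR φ hφ : Sm Ω)).det :=
  isUnit_of_pos (det_pos_of_posDef hφ hp)

/-- the Kähler ring of a strictly plurisubharmonic potential -/
def krOf : KR (Sm Ω) n := krS (ofR φ hφ) (isUnit_det_hessS hφ hp)

@[simp] theorem krOf_d (i : Fin n) (u : Sm Ω) : (krOf hφ hp).d i u = dzD i u := rfl

@[simp] theorem krOf_db (i : Fin n) (u : Sm Ω) : (krOf hφ hp).db i u = dzbD i u := rfl

theorem krOf_g (i j : Fin n) : (krOf hφ hp).g i j = dzD i (dzbD j (ofR φ hφ)) := rfl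

theorem krOf_g' : (krOf hφ hp).g = hessS (ofR φ hφ) := rfl

theorem krOf_gi : (krOf hφ hp).gi = (hessS (ofR φ hφ))⁻¹ := rfl

theorem krOf_g_apply (i j : Fin n) (z : Ω) : ((krOf hφ hp).g i j).1 z = hess φ z i j :=
  (hess_apply_eq φ hφ z i j).symm

theorem evM_krOf_g (z : Ω) : evM z (krOf hφ hp).g = hess φ z := (hess_eq φ hφ z).symm

theorem evM_krOf_gi (z : Ω) : evM z (krOf hφ hp).gi = (hess φ z)⁻¹ := by
  rw [krOf_gi, evM_inv z _ (isUnit_det_hessS hφ hp), ← hess_eq]

theorem krOf_gi_apply (i j : Fin n) (z : Ω) : ((krOf hφ hp).gi i j).1 z = (hess φ z)⁻¹ i j := by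
  rw [← evM_krOf_gi hφ hp]
  rfl

theorem krOf_F (i : Fin n) :
    (krOf hφ hp).F i = dzD i (logS (hessS (ofR φ hφ)).det (det_pos_of_posDef hφ hp)) :=
  krS_F _ _ i

theorem krOf_Fb (i : Fin n) :
    (krOf hφ hp).Fb i = dzbD i (logS (hessS (ofR φ hφ)).det (det_pos_of_posDef hφ hp)) :=
  krS_Fb _ _ i

theorem krOf_F_apply (i : Fin n) (z : Ω) :
    ((krOf hφ hp).F i).1 z = dz i (fun w => (logdet φ w : ℂ)) z := by
  rw [krOf_F, ← ofR_logdet hφ (det_pos_of_posDef hφ hp)
    (contDiffOn_logdet hφ (det_pos_of_posDef hφ hp))]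
  exact dzD_ofFn i _ _ z

theorem krOf_Fb_apply (i : Fin n) (z : Ω) :
    ((krOf hφ hp).Fb i).1 z = dzb i (fun w => (logdet φ w : ℂ)) z := by
  rw [krOf_Fb, ← ofR_logdet hφ (det_pos_of_posDef hφ hp)
    (contDiffOn_logdet hφ (det_pos_of_posDef hφ hp))]
  exact dzbD_ofFn i _ _ z

theorem krOf_R_apply (i j : Fin n) (z : Ω) :
    ((krOf hφ hp).R i j).1 z = -hess (logdet φ) z i j := by
  have h := krS_R (isUnit_det_hessS hφ hp) (det_pos_of_posDef hφ hp) i j
  rw [hess_apply_eq (logdet φ) (contDiffOn_logdet hφ (det_pos_of_posDef hφ hp)),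
    ofR_logdet hφ (det_pos_of_posDef hφ hp)]
  show ((krS _ _).R i j).1 z = _
  rw [h]
  rfl

theorem krOf_S_apply (z : Ω) : (krOf hφ hp).S.1 z = scal φ z := by
  rw [scal_eq hφ (det_pos_of_posDef hφ hp) z]
  show (krS _ _).S.1 z = _
  rw [krS_S _ (det_pos_of_posDef hφ hp)]

theorem star_krOf_g (i j : Fin n) : star ((krOf hφ hp).g i j) = (krOf hφ hp).g j i :=
  star_krS_g _ (star_ofR _ _) i j

theorem star_krOf_gi (i j : Fin n) : star ((krOf hφ hp).gi i j) = (krOf hφ hp).gi j i :=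
  star_krS_gi _ (star_ofR _ _) i j

theorem star_krOf_F (i : Fin n) : star ((krOf hφ hp).F i) = (krOf hφ hp).Fb i :=
  star_krS_F _ (star_ofR _ _) i

theorem star_krOf_R (i j : Fin n) : star ((krOf hφ hp).R i j) = (krOf hφ hp).R j i :=
  star_krS_R _ (star_ofR _ _) i j

theorem star_krOf_lap (u : Sm Ω) : star ((krOf hφ hp).lap u) = (krOf hφ hp).lap (star u) :=
  star_krS_lap _ (star_ofR _ _) u

theorem star_krOf_W (u : Sm Ω) (i : Fin n) :
    star ((krOf hφ hp).W u i) = (krOf hφ hp).Wb (star u) i :=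
  star_krS_W _ (star_ofR _ _) u i

theorem star_krOf_Wb (u : Sm Ω) (i : Fin n) :
    star ((krOf hφ hp).Wb u i) = (krOf hφ hp).W (star u) i :=
  star_krS_Wb _ (star_ofR _ _) u i

theorem star_krOf_S : star (krOf hφ hp).S = (krOf hφ hp).S := star_krS_S _ (star_ofR _ _)

end KrOf

section PH

variable {n : ℕ} {Ω : Opens (E n)} {h : E n → ℂ}

theorem contDiffOn_log_norm (hh : DifferentiableOn ℂ h Ω) (h0 : ∀ z ∈ Ω, h z ≠ 0) :
    ContDiffOn ℝ ∞ (fun z => Real.log (‖h z‖ ^ 2)) Ω := by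
  refine ContDiffOn.log ?_ fun z hz => pow_ne_zero 2 (norm_ne_zero_iff.2 (h0 z hz))
  exact (smooth_of_hol' hh).norm_sq ℝ

/-- `log |h|²` is pluriharmonic -/
theorem hess_log_norm (hh : DifferentiableOn ℂ h Ω) (h0 : ∀ z ∈ Ω, h z ≠ 0)
    (hc : ContDiffOn ℝ ∞ (fun z => Real.log (‖h z‖ ^ 2)) Ω) (i j : Fin n) :
    dzD i (dzbD j (ofR (fun z => Real.log (‖h z‖ ^ 2)) hc : Sm Ω)) = 0 := by
  set H : Sm Ω := ofFn h (smooth_of_hol' hh) with hH
  have hpos : ∀ z : Ω, 0 < (H * star H).1 z := by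
    intro z
    rw [Sm.mul_apply, star_apply, mul_conj]
    exact_mod_cast normSq_pos.2 (h0 z z.2)
  have hL : (ofR (fun z => Real.log (‖h z‖ ^ 2)) hc : Sm Ω) = logS (H * star H) hpos := by
    apply Sm.ext'
    intro z
    rw [ofR_apply, logS_apply, Sm.mul_apply, star_apply, mul_conj, ofReal_re, normSq_eq_norm_sq]
    rfl
  have hu : IsUnit H := (isUnit_iff_ne H).2 fun z => h0 z z.2
  have hus : IsUnit (star H) := by
    rw [isUnit_iff_ne]
    intro z
    rw [star_apply]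
    exact (map_ne_zero _).2 (h0 z z.2)
  have h1 : star H * dzbD j (logS (H * star H) hpos) = dzbD j (star H) := by
    apply hu.mul_left_cancel
    rw [← mul_assoc, mul_DS_logS (dzbD_mem_DS j), Derivation.leibniz,
      show dzbD j H = 0 from dzbD_ofFn_hol hh j]
    simp
  have h2 : star H * dzD i (dzbD j (logS (H * star H) hpos)) = 0 := by
    have h3 := congrArg (dzD i) h1
    rw [Derivation.leibniz, dzD_dzbD_comm i j (star H),
      show dzD i (star H) = 0 from dzD_star_ofFn_hol hh i, map_zero] at h3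
    simpa using h3
  rw [hL]
  exact hus.mul_left_cancel (h2.trans (mul_zero _).symm)

end PH

section HolOf

variable {n : ℕ} {Ω Ω' : Opens (E n)} {τ : E n → E n}

/-- the holomorphic Jacobian matrix -/
def jacS (hτ : DifferentiableOn ℂ τ Ω) : Matrix (Fin n) (Fin n) (Sm Ω) :=
  Matrix.of fun b a => dzD a (coS (smooth_of_hol hτ) b)

theorem jacS_apply (hτ : DifferentiableOn ℂ τ Ω) (b a : Fin n) (z : Ω) :
    (jacS hτ b a).1 z = fderiv ℂ τ z (Pi.single a 1) b := dzD_coS hτ a b z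

theorem evM_jacS (hτ : DifferentiableOn ℂ τ Ω) (z : Ω) :
    evM z (jacS hτ) = LinearMap.toMatrix' (fderiv ℂ τ z : E n →ₗ[ℂ] E n) := by
  ext b a
  rw [evM_apply, jacS_apply, LinearMap.toMatrix'_apply]
  congr 2

theorem det_jacS (hτ : DifferentiableOn ℂ τ Ω) (z : Ω) :
    (jacS hτ).det.1 z = (fderiv ℂ τ z).det := by
  rw [← det_evM, evM_jacS, LinearMap.det_toMatrix']

theorem isUnit_det_jacS (hτ : DifferentiableOn ℂ τ Ω)
    (hdet : ∀ z ∈ Ω, (fderiv ℂ τ z).det ≠ 0) : IsUnit (jacS hτ).det := by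
  rw [isUnit_iff_ne]
  intro z
  rw [det_jacS]
  exact hdet z z.2

theorem map_star_mul (M N : Matrix (Fin n) (Fin n) (Sm Ω)) :
    (M * N).map star = M.map star * N.map star := by
  ext i j
  simp only [Matrix.map_apply, Matrix.mul_apply, star_sum, star_mul']

theorem map_star_one : (1 : Matrix (Fin n) (Fin n) (Sm Ω)).map star = 1 := by
  ext i j
  by_cases h : i = j
  · subst h
    simp
  · simp [h]

variable {φ φ' : E n → ℝ} (hφ : ContDiffOn ℝ ∞ φ Ω) (hp : ∀ z ∈ Ω, (hess φ z).PosDef)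
  (hφ' : ContDiffOn ℝ ∞ φ' Ω') (hp' : ∀ z ∈ Ω', (hess φ' z).PosDef)

/-- transformation of the complex Hessian matrix -/
theorem hessS_trans (hτ : DifferentiableOn ℂ τ Ω) (hm : MapsTo τ Ω Ω')
    (h : E n → ℂ) (hh : DifferentiableOn ℂ h Ω) (h0 : ∀ z ∈ Ω, h z ≠ 0)
    (hφφ' : ∀ z ∈ Ω, φ' (τ z) = φ z + Real.log (‖h z‖ ^ 2)) :
    hessS (ofR φ hφ : Sm Ω) = (jacS hτ).transpose *
      (hessS (ofR φ' hφ')).map (pull (smooth_of_hol hτ) hm : Sm Ω' →+* Sm Ω) *
      (jacS hτ).map star := by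
  have hc := contDiffOn_log_norm hh h0
  have h1 : (ofR φ hφ : Sm Ω) = pull (smooth_of_hol hτ) hm (ofR φ' hφ') -
      ofR (fun z => Real.log (‖h z‖ ^ 2)) hc := by
    apply Sm.ext'
    intro z
    rw [Sm.sub_apply, pull_apply, ofR_apply, ofR_apply, ofR_apply]
    have h2 := hφφ' z z.2
    simp only [h2]
    push_cast
    ring
  ext i j
  show dzD i (dzbD j (ofR φ hφ)) = _
  rw [h1, map_sub, map_sub, hess_log_norm hh h0 hc, sub_zero, hess_pull hτ hm,
    Matrix.mul_apply]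
  refine Finset.sum_congr rfl fun b _ => ?_
  rw [Matrix.mul_apply, Finset.sum_mul]
  refine Finset.sum_congr rfl fun a _ => ?_
  show _ = jacS hτ a i * pull (smooth_of_hol hτ) hm (dzD a (dzbD b (ofR φ' hφ'))) *
    star (jacS hτ b j)
  rw [mul_comm (jacS hτ a i)]
  rfl

/-- the pull-back of a Kähler ring under a local biholomorphism; `φ' ∘ τ = φ + log |h|²` -/
def holOf (hτ : DifferentiableOn ℂ τ Ω) (hm : MapsTo τ Ω Ω')
    (hdet : ∀ z ∈ Ω, (fderiv ℂ τ z).det ≠ 0) (h : E n → ℂ) (hh : DifferentiableOn ℂ h Ω)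
    (h0 : ∀ z ∈ Ω, h z ≠ 0) (hφφ' : ∀ z ∈ Ω, φ' (τ z) = φ z + Real.log (‖h z‖ ^ 2)) :
    Hol (krOf hφ' hp') (krOf hφ hp) where
  T := (pull (smooth_of_hol hτ) hm : Sm Ω' →+* Sm Ω)
  J := jacS hτ
  Jb := (jacS hτ).map star
  Ji := (jacS hτ)⁻¹
  Jbi := ((jacS hτ)⁻¹).map star
  hJ := Matrix.nonsing_inv_mul _ (isUnit_det_jacS hτ hdet)
  hJ' := Matrix.mul_nonsing_inv _ (isUnit_det_jacS hτ hdet)
  hJb := by
    rw [← map_star_mul, Matrix.nonsing_inv_mul _ (isUnit_det_jacS hτ hdet), map_star_one]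
  hJb' := by
    rw [← map_star_mul, Matrix.mul_nonsing_inv _ (isUnit_det_jacS hτ hdet), map_star_one]
  d_T a f := dzD_pull hτ hm a f
  db_T a f := dzbD_pull hτ hm a f
  db_J c b a := by
    show dzbD c (dzD a (coS (smooth_of_hol hτ) b)) = 0
    rw [← dzD_dzbD_comm, dzbD_coS hτ, map_zero]
  d_Jb c b a := dzD_star_dzD_coS hτ c a b
  g := hessS_trans hφ hφ' hτ hm h hh h0 hφφ'

section

variable (hτ : DifferentiableOn ℂ τ Ω) (hm : MapsTo τ Ω Ω')
    (hdet : ∀ z ∈ Ω, (fderiv ℂ τ z).det ≠ 0) (h : E n → ℂ) (hh : DifferentiableOn ℂ h Ω)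
    (h0 : ∀ z ∈ Ω, h z ≠ 0) (hφφ' : ∀ z ∈ Ω, φ' (τ z) = φ z + Real.log (‖h z‖ ^ 2))

@[simp] theorem holOf_T (f : Sm Ω') : (holOf hφ hp hφ' hp' hτ hm hdet h hh h0 hφφ').T f =
    pull (smooth_of_hol hτ) hm f := rfl

theorem holOf_T_apply (f : Sm Ω') (z : Ω) :
    ((holOf hφ hp hφ' hp' hτ hm hdet h hh h0 hφφ').T f).1 z = f.1 ⟨τ z, hm z.2⟩ := by
  rw [holOf_T, pull_apply]

theorem holOf_J_apply (b a : Fin n) (z : Ω) :
    ((holOf hφ hp hφ' hp' hτ hm hdet h hh h0 hφφ').J b a).1 z =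
      fderiv ℂ τ z (Pi.single a 1) b := jacS_apply hτ b a z

theorem holOf_Jb_apply (b a : Fin n) (z : Ω) :
    ((holOf hφ hp hφ' hp' hτ hm hdet h hh h0 hφφ').Jb b a).1 z =
      (starRingEnd ℂ) (fderiv ℂ τ z (Pi.single a 1) b) := by
  show (star (jacS hτ b a)).1 z = _
  rw [star_apply, jacS_apply]

end

/-- restriction to a smaller open set -/
def holRes (hle : Ω ≤ Ω') (hφφ' : ∀ z ∈ Ω, φ' z = φ z) : Hol (krOf hφ' hp') (krOf hφ hp) :=
  holOf hφ hp hφ' hp' (τ := id) differentiableOn_id (fun z hz => hle hz)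
    (fun z _ => by
      rw [fderiv_id]
      show LinearMap.det (ContinuousLinearMap.id ℂ (E n) : E n →ₗ[ℂ] E n) ≠ 0
      have : (ContinuousLinearMap.id ℂ (E n) : E n →ₗ[ℂ] E n) = LinearMap.id := rfl
      rw [this, LinearMap.det_id]
      exact one_ne_zero)
    (fun _ => 1) (differentiableOn_const _) (fun _ _ => one_ne_zero)
    (fun z hz => by
      rw [id, hφφ' z hz]
      simp)

theorem holRes_T_apply (hle : Ω ≤ Ω') (hφφ' : ∀ z ∈ Ω, φ' z = φ z) (f : Sm Ω') (z : Ω) :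
    ((holRes hφ hp hφ' hp' hle hφφ').T f).1 z = f.1 ⟨z, hle z.2⟩ :=
  holOf_T_apply _ _ _ _ _ _ _ _ _ _ _ f z

end HolOf

end

end Pool.Agent.YTDA


end

/- source: Pool.Agent.YTDA.Bochner5 -/

section

/-!
The Bochner theorem: the gradient field of the derivative of the potential of a csc Kähler
metric along a circle action is holomorphic.
-/

namespace Pool.Agent.YTDA

open Complex Set Topology ContDiff ComplexOrder TopologicalSpace Matrix

noncomputable section

variable {n : ℕ}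

/-- the Kähler structure with potential `φ` -/
def krAt {Ω : Opens (E n)} {φ : E n → ℝ} (h : ContDiffOn ℝ ∞ φ Ω)
    (hp : ∀ z ∈ Ω, (hess φ z).PosDef) : KRAt Ω φ where
  k := krOf h hp
  d_eq _ _ := rfl
  db_eq _ _ := rfl
  g_eval i j z := krOf_g_apply h hp i j z
  S_eval z := krOf_S_apply h hp z

/-- the isometry given by a local biholomorphism -/
def holIso {Ω' Ω : Opens (E n)} {φ' φ : E n → ℝ} (h : ContDiffOn ℝ ∞ φ Ω)
    (hp : ∀ z ∈ Ω, (hess φ z).PosDef) (h' : ContDiffOn ℝ ∞ φ' Ω')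
    (hp' : ∀ z ∈ Ω', (hess φ' z).PosDef)
    {τ : E n → E n} (hτ : DifferentiableOn ℂ τ Ω) (hm : ∀ z ∈ Ω, τ z ∈ Ω')
    (hdet : ∀ z ∈ Ω, (fderiv ℂ τ z).det ≠ 0) (u : E n → ℂ) (hu : DifferentiableOn ℂ u Ω)
    (hu0 : ∀ z ∈ Ω, u z ≠ 0) (hφ : ∀ z ∈ Ω, φ' (τ z) = φ z + Real.log (‖u z‖ ^ 2)) :
    HolIso (krAt h' hp') (krAt h hp) τ where
  t := holOf h hp h' hp' hτ hm hdet u hu hu0 hφ
  maps := hm
  T_eval f z := holOf_T_apply h hp h' hp' hτ hm hdet u hu hu0 hφ f z
  J_eval b a z := holOf_J_apply h hp h' hp' hτ hm hdet u hu hu0 hφ b a z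
  Jb_eq _ _ := rfl

namespace PolAtlas

variable {Y : Type} [MulAction ℂˣ Y] (A : PolAtlas n Y)

/-- the domain of a chart -/
def Ω (a : A.ι) : Opens (E n) := ⟨A.U a, A.isOpen_U a⟩

/-- the domain of a transition map -/
def Ω₂ (a b : A.ι) : Opens (E n) := ⟨A.O a b, A.isOpen_O a b⟩

theorem τ_mem_OB {a b : A.ι} {z : E n} (hz : z ∈ A.O a b) : A.τ a b z ∈ A.O b a ∧
    A.τ b a (A.τ a b z) = z := by
  have h1 : A.γ a z = (A.h a b z)⁻¹ • A.γ b (A.τ a b z) := by
    rw [A.γ_τB hz, inv_smul_smul]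
  obtain ⟨h2, h3, -⟩ := A.mem_O_ofB (A.τ_memB hz) hz.1 h1
  exact ⟨h2, h3⟩

theorem hasFDerivAt_τB {a b : A.ι} {z : E n} (hz : z ∈ A.O a b) :
    DifferentiableAt ℂ (A.τ a b) z :=
  (A.hol_τ a b).differentiableAt ((A.isOpen_O a b).mem_nhds hz)

theorem fderiv_τ_compB {a b : A.ι} {z : E n} (hz : z ∈ A.O a b) :
    (fderiv ℂ (A.τ b a) (A.τ a b z)).comp (fderiv ℂ (A.τ a b) z) =
      ContinuousLinearMap.id ℂ (E n) := by
  have h1 := (A.hasFDerivAt_τB (A.τ_mem_OB hz).1).hasFDerivAt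
  have h2 := (A.hasFDerivAt_τB hz).hasFDerivAt
  have h3 := h1.comp z h2
  have h4 : (A.τ b a ∘ A.τ a b) =ᶠ[𝓝 z] id := by
    refine Filter.eventuallyEq_of_mem ((A.isOpen_O a b).mem_nhds hz) fun w hw => ?_
    exact (A.τ_mem_OB hw).2
  have h5 := (hasFDerivAt_id (𝕜 := ℂ) z).congr_of_eventuallyEq h4
  exact h3.unique h5

theorem det_τ {a b : A.ι} {z : E n} (hz : z ∈ A.O a b) : (fderiv ℂ (A.τ a b) z).det ≠ 0 := by
  intro h0
  have h1 := congrArg (fun L : E n →L[ℂ] E n => L.det) (A.fderiv_τ_compB hz)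
  have h2 : ((fderiv ℂ (A.τ b a) (A.τ a b z)).comp (fderiv ℂ (A.τ a b) z)).det =
      (fderiv ℂ (A.τ b a) (A.τ a b z)).det * (fderiv ℂ (A.τ a b) z).det := by
    unfold ContinuousLinearMap.det
    rw [ContinuousLinearMap.toLinearMap_comp, LinearMap.det_comp]
  have h3 : (ContinuousLinearMap.id ℂ (E n)).det = 1 := by
    unfold ContinuousLinearMap.det
    exact LinearMap.det_id
  have h4 : ((fderiv ℂ (A.τ b a) (A.τ a b z)).comp (fderiv ℂ (A.τ a b) z)).det =
      (ContinuousLinearMap.id ℂ (E n)).det := h1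
  rw [h2, h0, mul_zero, h3] at h4
  exact zero_ne_one h4

variable {A} {H : Y → ℝ}

theorem pot_τ (hK : A.IsKahler H) {a b : A.ι} {z : E n} (hz : z ∈ A.O a b) :
    A.pot H b (A.τ a b z) = A.pot H a z + Real.log (‖(A.h a b z : ℂ)‖ ^ 2) := by
  unfold pot
  rw [A.γ_τB hz, hK.hom, Real.log_mul, add_comm]
  · have := (A.h a b z).ne_zero
    positivity
  · exact (hK.pos _).ne'

theorem cv_eqB (hK : A.IsKahler H) (D : A.DAct) {a : A.ι} {z : E n} (hz : z ∈ A.U a) :
    deriv (fun θ : ℝ => A.pot H a (fun j => exp ((D.k a j : ℂ) * θ * I) * z j)) 0 =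
      cvF (A.pot H a) (D.k a) z :=
  deriv_rot (((hK.smooth a).contDiffAt ((A.isOpen_U a).mem_nhds hz)).differentiableAt (by simp)) _

/-- the derivative of `log H` along the circle action is a function on `M` -/
theorem cvF_τ (hK : A.IsKahler H) (D : A.DAct) {a b : A.ι} {z : E n} (hz : z ∈ A.O a b) :
    cvF (A.pot H b) (D.k b) (A.τ a b z) = cvF (A.pot H a) (D.k a) z := by
  have key : ∀ {c : A.ι} {w : E n}, w ∈ A.U c → cvF (A.pot H c) (D.k c) w =
      deriv (fun θ : ℝ => Real.log (H (D.act (expU θ) (A.γ c w)))) 0 := by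
    intro c w hw
    rw [← cv_eqB hK D hw]
    congr 1
    funext θ
    rw [H_act hK D hw (norm_expU θ), dact_expU]
    rfl
  rw [key (A.τ_memB hz), key hz.1, A.γ_τB hz]
  have h1 : (fun θ : ℝ => Real.log (H (D.act (expU θ) (A.h a b z • A.γ a z)))) =
      fun θ : ℝ => Real.log (‖(A.h a b z : ℂ)‖ ^ 2) +
        Real.log (H (D.act (expU θ) (A.γ a z))) := by
    funext θ
    rw [D.act_smul, hK.hom, Real.log_mul]
    · have := (A.h a b z).ne_zero
      positivity
    · exact (hK.pos _).ne'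
  rw [h1, deriv_const_add]

/-- The Bochner theorem. -/
theorem exists_holField (hc : A.IsCpt) (ht : A.IsT2) (hK : A.IsKahler H) {s : ℂ}
    (hS : A.IsCsc H s) (D : A.DAct)
    (hdiv : ∀ (F : Y → ℝ) (_ : ∀ (c : ℂˣ) y, F (c • y) = F y)
      (_ : ∀ y, 0 ≤ F y) (_ : ∀ a, ContinuousOn (fun z => F (A.γ a z)) (A.U a))
      (ρ : A.ι → E n → ℝ) (_ : ∀ a, ContDiffOn ℝ ∞ (ρ a) (A.U a))
      (_ : ∀ a, ∀ z ∈ A.U a, 0 < ρ a z)
      (_ : ∀ a b, ∀ z ∈ A.O a b,
        ρ a z = ρ b (A.τ a b z) * ‖(fderiv ℂ (A.τ a b) z).det‖ ^ 2)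
      (Ξ : A.ι → E n → E n) (_ : ∀ a, ContDiffOn ℝ ∞ (Ξ a) (A.U a))
      (_ : ∀ a b, ∀ z ∈ A.O a b, Ξ b (A.τ a b z) = fderiv ℂ (A.τ a b) z (Ξ a z))
      (_ : ∀ a, ∀ z ∈ A.U a, ρ a z * F (A.γ a z) = rdiv' (fun w => (ρ a w : ℂ) • Ξ a w) z),
      ∀ y, F y = 0) : ∃ W : A.HolField,
      ∀ a, ∀ z ∈ A.U a, ∀ m, ∑ k, hess (A.pot H a) z k m * W.W a z k =
        dzb m (fun w => (cvF (A.pot H a) (D.k a) w : ℂ)) z := by
  classical
  obtain ⟨K, hKK⟩ : ∃ K : ∀ a, KRAt (A.Ω a) (A.pot H a),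
      K = fun a => krAt (Ω := A.Ω a) (hK.smooth a) (hK.posDef a) := ⟨_, rfl⟩
  have hsm2 : ∀ a b, ContDiffOn ℝ ∞ (A.pot H a) (A.Ω₂ a b) := fun a b =>
    (hK.smooth a).mono (A.O_subsetB a b)
  obtain ⟨K₂, hKK₂⟩ : ∃ K₂ : ∀ a b, KRAt (A.Ω₂ a b) (A.pot H a),
      K₂ = fun a b => krAt (Ω := A.Ω₂ a b) (hsm2 a b) (fun z hz => hK.posDef a z hz.1) :=
    ⟨_, rfl⟩
  have ht1 : ∀ a b, Nonempty (HolIso (K a) (K₂ a b) id) := by
    intro a b
    rw [hKK, hKK₂]
    exact ⟨holIso _ _ _ _ differentiableOn_id (fun z hz => hz.1)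
      (fun z _ => by
        rw [fderiv_id]
        unfold ContinuousLinearMap.det
        erw [LinearMap.det_id]
        exact one_ne_zero) (fun _ => 1) (differentiableOn_const _) (fun _ _ => one_ne_zero)
      (fun z _ => by simp)⟩
  obtain ⟨t1⟩ := Classical.nonempty_pi.2 fun a => Classical.nonempty_pi.2 (ht1 a)
  have ht2 : ∀ a b, Nonempty (HolIso (K b) (K₂ a b) (A.τ a b)) := by
    intro a b
    rw [hKK, hKK₂]
    exact ⟨holIso _ _ _ _ (A.hol_τ a b) (fun z hz => A.τ_memB hz)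
      (fun z hz => A.det_τ hz) (fun z => (A.h a b z : ℂ)) (A.hol_h a b)
      (fun z _ => (A.h a b z).ne_zero) (fun z hz => pot_τ hK hz)⟩
  clear hKK hKK₂
  obtain ⟨t2⟩ := Classical.nonempty_pi.2 fun a => Classical.nonempty_pi.2 (ht2 a)
  -- the function `v`
  let v : ∀ a, Sm (A.Ω a) := fun a =>
    ofR (cvF (A.pot H a) (D.k a)) (contDiffOn_cvF (Ω := A.Ω a) (hK.smooth a) (D.k a))
  have hv : ∀ a, star (v a) = v a := fun a => star_ofR _ _
  let v₂ : ∀ a b, Sm (A.Ω₂ a b) := fun a b =>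
    ofR (cvF (A.pot H a) (D.k a)) (contDiffOn_cvF (Ω := A.Ω₂ a b) (hsm2 a b) (D.k a))
  have hv1 : ∀ a b, (t1 a b).t.T (v a) = v₂ a b := by
    intro a b
    apply Sm.ext'
    intro z
    rw [(t1 a b).T_eval, ofR_apply, ofR_apply]
    rfl
  have hv2 : ∀ a b, (t2 a b).t.T (v b) = v₂ a b := by
    intro a b
    apply Sm.ext'
    intro z
    rw [(t2 a b).T_eval, ofR_apply, ofR_apply]
    rw [cvF_τ hK D z.2]
  have hl : ∀ a, (K a).k.lich (v a) = 0 := fun a =>
    (K a).lich_eq (hK.smooth a) (fun z hz => hS a z hz) (D.k a)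
  have hdS : ∀ a i, (K a).k.db i (K a).k.S = 0 := by
    intro a i
    rw [(K a).S_const (fun z hz => hS a z hz), (K a).db_eq, dzbD_cst]
  -- natural vector fields
  have nat : ∀ (X : ∀ a, Fin n → Sm (A.Ω a)) (X₂ : ∀ a b, Fin n → Sm (A.Ω₂ a b)),
      (∀ a b i, ∑ j, (t1 a b).t.J i j * X₂ a b j = (t1 a b).t.T (X a i)) →
      (∀ a b i, ∑ j, (t2 a b).t.J i j * X₂ a b j = (t2 a b).t.T (X b i)) →
      ∀ a b, ∀ z ∈ A.O a b, (fun i => ext (X b i).1 (A.τ a b z) : E n) =
        fderiv ℂ (A.τ a b) z (fun i => ext (X a i).1 z) := by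
    intro X X₂ h1 h2 a b z hz
    have e1 := (t1 a b).fderiv_apply' (h1 a b) ⟨z, hz⟩
    have e2 := (t2 a b).fderiv_apply' (h2 a b) ⟨z, hz⟩
    rw [fderiv_id] at e1
    have e3 : (fun i => (X₂ a b i).1 ⟨z, hz⟩ : E n) = fun i => ext (X a i).1 z := by
      refine Eq.trans e1 ?_
      funext i
      exact (ext_mk _ _).symm
    rw [e3] at e2
    refine Eq.trans ?_ e2.symm
    funext i
    exact ext_mk _ _
  -- natural functions
  have natf : ∀ (f : ∀ a, Sm (A.Ω a)) (f₂ : ∀ a b, Sm (A.Ω₂ a b)),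
      (∀ a b, f₂ a b = (t1 a b).t.T (f a)) → (∀ a b, f₂ a b = (t2 a b).t.T (f b)) →
      ∀ a b, ∀ z ∈ A.O a b, ext (f a).1 z = ext (f b).1 (A.τ a b z) := by
    intro f f₂ h1 h2 a b z hz
    have e1 := congrArg (fun g : Sm (A.Ω₂ a b) => g.1 ⟨z, hz⟩) ((h1 a b).symm.trans (h2 a b))
    simp only [(t1 a b).T_eval, (t2 a b).T_eval] at e1
    rw [ext_mk _ (show z ∈ A.Ω a from hz.1), ext_mk _ (show A.τ a b z ∈ A.Ω b from A.τ_memB hz)]
    exact e1
  -- the Bochner term
  have hP := natf (fun a => (K a).k.P (v a)) (fun a b => (K₂ a b).k.P (v₂ a b))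
    (fun a b => by rw [← hv1, (t1 a b).t.P_T]) (fun a b => by rw [← hv2, (t2 a b).t.P_T])
  obtain ⟨F, hF1, hF2⟩ := A.exists_glue (fun a z => (ext ((K a).k.P (v a)).1 z).re)
    (fun a b z hz => congrArg Complex.re (hP a b z hz))
  have hdet := natf (fun a => (K a).k.g.det)
  have hF0 : ∀ y, F y = 0 := by
    refine hdiv F hF1 ?_ ?_ (fun a z => (hess (A.pot H a) z).det.re) ?_ ?_ ?_
      (fun a => (K a).XiF (v a)) (fun a => (K a).contDiffOn_XiF (v a)) ?_ ?_
    · intro y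
      obtain ⟨a, z, hz, c, rfl⟩ := A.cover y
      rw [hF1, hF2 a z hz, ext_mk _ (show z ∈ A.Ω a from hz)]
      exact ((K a).P_pos (hK.posDef a) (hv a) ⟨z, hz⟩).1
    · intro a
      have h1 : ContinuousOn (ext ((K a).k.P (v a)).1) (A.U a) :=
        ((K a).k.P (v a)).2.continuousOn
      exact (Complex.continuous_re.comp_continuousOn h1).congr fun z hz => hF2 a z hz
    · intro a
      exact (K a).contDiffOn_det
    · intro a z hz
      have h1 := (hK.posDef a z hz).det_pos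
      exact (Complex.lt_def.1 h1).1
    · intro a b z hz
      have e0 : (K₂ a b).k.g.det = (t2 a b).t.J.det * (t2 a b).t.T (K b).k.g.det *
          (t2 a b).t.Jb.det := by
        rw [(t2 a b).t.g, Matrix.det_mul, Matrix.det_mul, Matrix.det_transpose,
          RingHom.map_det]
        rfl
      have e1 : (t2 a b).t.Jb.det = star ((t2 a b).t.J.det) := by
        rw [← Matrix.det_conjTranspose, ← Matrix.det_transpose]
        congr 1
        ext i j
        rw [Matrix.transpose_apply, Matrix.conjTranspose_apply, (t2 a b).Jb_eq]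
      have e2 : ((t2 a b).t.J.det).1 ⟨z, hz⟩ = (fderiv ℂ (A.τ a b) z).det := by
        rw [← evalS_apply]
        have f1 := RingHom.map_det (evalS (⟨z, hz⟩ : A.Ω₂ a b) : Sm (A.Ω₂ a b) →+* ℂ)
          (t2 a b).t.J
        refine Eq.trans f1 ?_
        unfold ContinuousLinearMap.det
        rw [← LinearMap.det_toMatrix']
        congr 1
        ext i j
        rw [LinearMap.toMatrix'_apply]
        refine Eq.trans ((t2 a b).J_eval i j ⟨z, hz⟩) ?_
        rfl
      have e3 := congrArg (fun g : Sm (A.Ω₂ a b) => g.1 ⟨z, hz⟩) e0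
      simp only [Sm.mul_apply, e1, star_apply, e2, (t2 a b).T_eval, (K₂ a b).det_eval,
        (K b).det_eval] at e3
      have e4 := KRAt.det_real (Ω := A.Ω a) (hK.posDef a) ⟨z, hz.1⟩
      have e5 := KRAt.det_real (Ω := A.Ω b) (hK.posDef b) ⟨A.τ a b z, A.τ_memB hz⟩
      simp only at e4 e5
      rw [← e4, ← e5] at e3
      have e6 : ((fderiv ℂ (A.τ a b) z).det) * (starRingEnd ℂ) ((fderiv ℂ (A.τ a b) z).det) =
          ((‖(fderiv ℂ (A.τ a b) z).det‖ ^ 2 : ℝ) : ℂ) := by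
        rw [Complex.mul_conj, Complex.normSq_eq_norm_sq]
      have e7 : (((hess (A.pot H a) z).det.re : ℝ) : ℂ) =
          (((hess (A.pot H b) (A.τ a b z)).det.re * ‖(fderiv ℂ (A.τ a b) z).det‖ ^ 2 : ℝ) : ℂ) := by
        rw [e3, Complex.ofReal_mul, ← e6]
        ring
      exact Complex.ofReal_injective e7
    · exact nat (fun a i => (K a).Xi (v a) i) (fun a b i => (K₂ a b).Xi (v₂ a b) i)
        (fun a b i => by rw [← hv1, (t1 a b).Xi_T]) (fun a b i => by rw [← hv2, (t2 a b).Xi_T])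
    · intro a z hz
      rw [hF2 a z hz, ext_mk _ (show z ∈ A.Ω a from hz)]
      exact (K a).local_div (hK.posDef a) (hv a) (hdS a) (hl a) ⟨z, hz⟩
  -- the gradient field is holomorphic
  refine ⟨⟨fun a z i => ext ((K a).k.W (v a) i).1 z, ?_, ?_⟩, ?_⟩
  · intro a
    apply differentiableOn_pi.2
    intro i z hz
    apply DifferentiableAt.differentiableWithinAt
    refine differentiableAt_of_dzbB (diffAt_ext _ (show z ∈ A.Ω a from hz)) fun m => ?_
    have h1 := hF2 a z hz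
    rw [hF0, ext_mk _ (show z ∈ A.Ω a from hz)] at h1
    have h2 := ((K a).P_pos (hK.posDef a) (hv a) ⟨z, hz⟩).2 h1.symm m i
    rw [(K a).db_eq, dzbD_apply] at h2
    exact h2
  · intro a b z hz
    exact nat (fun a i => (K a).k.W (v a) i) (fun a b i => (K₂ a b).k.W (v₂ a b) i)
      (fun a b i => by rw [← hv1, (t1 a b).t.J_W]) (fun a b i => by rw [← hv2, (t2 a b).t.J_W])
      a b z hz
  · intro a z hz m
    have h1 := congrArg (fun g : Sm (A.Ω a) => g.1 ⟨z, hz⟩) ((K a).k.sum_g_W (v a) m)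
    simp only [Sm.sum_apply, Sm.mul_apply, (K a).g_eval] at h1
    have h2 : ((K a).k.db m (v a)).1 ⟨z, hz⟩ =
        dzb m (fun w => (cvF (A.pot H a) (D.k a) w : ℂ)) z := by
      rw [(K a).db_eq]
      exact dzbD_ofFn m _ _ _
    rw [h2] at h1
    rw [← h1]
    refine Finset.sum_congr rfl fun i _ => ?_
    congr 1
    exact ext_mk _ _

end PolAtlas

end

end Pool.Agent.YTDA


end

/- source: Pool.Agent.YTDA.RedDefs -/

section

/-!
# The reduced equation on the surface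
-/

namespace Pool.Agent.YTDA

open Complex Set Topology ContDiff

noncomputable section

/-- `∑ k_j z_j ∂_j f` -/
def wdz {n : ℕ} (k : Fin n → ℤ) (f : E n → ℂ) (z : E n) : ℂ :=
  ∑ j, (k j : ℂ) * z j * dz j f z

/-- the moment map in a chart: `m + ∑ k_j z_j ∂_j φ` -/
def mom {n : ℕ} (k : Fin n → ℤ) (m : ℤ) (φ : E n → ℝ) (z : E n) : ℝ :=
  m + (wdz k (fun w => (φ w : ℂ)) z).re

/-- `log det (∂_i ∂_j̄ φ) + log P(μ)` -/
def redF {n : ℕ} (q : ℕ) (k : Fin n → ℤ) (m : ℤ) (φ : E n → ℝ) (z : E n) : ℝ :=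
  logdet φ z + Real.log (PP q (mom k m φ z))

namespace PolAtlas

variable {n : ℕ} {Y : Type} [MulAction ℂˣ Y]

/-- the reduced equation for a metric `h` on the surface -/
structure IsPde (A : PolAtlas n Y) (D : A.DAct) (q : ℕ) (s : ℂ) (h : Y → ℝ) : Prop where
  /-- `h` is circle invariant -/
  inv : ∀ (c : ℂˣ) y, ‖(c : ℂ)‖ = 1 → h (D.act c y) = h y
  pos : ∀ a, ∀ z ∈ A.U a, 0 < 25 * (q : ℝ) + 3 * mom (D.k a) (D.m a) (A.pot h a) z
  pos' : ∀ a, ∀ z ∈ A.U a, 0 < 25 * (q : ℝ) - 3 * mom (D.k a) (D.m a) (A.pot h a) z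
  pde : ∀ a, ∀ z ∈ A.U a, s * (PP q (mom (D.k a) (D.m a) (A.pot h a) z) : ℝ) =
    -((PP q (mom (D.k a) (D.m a) (A.pot h a) z) : ℝ) *
        ∑ i, ∑ j, (hess (A.pot h a) z)⁻¹ j i * hess (redF q (D.k a) (D.m a) (A.pot h a)) z i j +
      -18 * (mom (D.k a) (D.m a) (A.pot h a) z : ℝ) *
        (wdz (D.k a) (fun w => (redF q (D.k a) (D.m a) (A.pot h a) w : ℂ)) z +
          ((∑ j, D.k a j : ℤ) : ℂ)) - 100 * (q : ℂ))

end PolAtlas

end

end Pool.Agent.YTDA


end

/- source: Pool.Agent.YTDA.PartI -/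

section

/-!
# Partitions of unity and change of charts
-/

namespace Pool.Agent.YTDA

open Complex Set Topology ContDiff MeasureTheory

noncomputable section

namespace PolAtlas

variable {n : ℕ} {Y : Type} [MulAction ℂˣ Y] {A : PolAtlas n Y}

variable (A) in
/-- A smooth partition of unity on `M = Y / ℂˣ` subordinate to finitely many charts. -/
structure Part where
  m : ℕ
  a : Fin m → A.ι
  χ : Fin m → Y → ℝ
  K : Fin m → Set (E n)
  nonneg : ∀ k y, 0 ≤ χ k y
  inv : ∀ k (c : ℂˣ) y, χ k (c • y) = χ k y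
  sum : ∀ y, ∑ k, χ k y = 1
  smooth : ∀ k b, ContDiffOn ℝ ∞ (fun z => χ k (A.γ b z)) (A.U b)
  cpt : ∀ k, IsCompact (K k)
  sub : ∀ k, K k ⊆ A.U (a k)
  supp : ∀ k y, χ k y ≠ 0 → ∃ z ∈ K k, ∃ c : ℂˣ, y = c • A.γ (a k) z

theorem mem_OP {a b : A.ι} {z : E n} : z ∈ A.O a b ↔
    z ∈ A.U a ∧ ∃ z' ∈ A.U b, ∃ c : ℂˣ, A.γ b z' = c • A.γ a z := Iff.rfl

theorem isOpenO (a b : A.ι) : IsOpen (A.O a b) := A.isOpen_O a b

theorem τ_memP {a b : A.ι} {z : E n} (hz : z ∈ A.O a b) : A.τ a b z ∈ A.U b :=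
  (A.trans a b z hz.1 hz.2).1

theorem γ_τP {a b : A.ι} {z : E n} (hz : z ∈ A.O a b) :
    A.γ b (A.τ a b z) = A.h a b z • A.γ a z := (A.trans a b z hz.1 hz.2).2

theorem τ_mem_OP {a b : A.ι} {z : E n} (hz : z ∈ A.O a b) : A.τ a b z ∈ A.O b a := by
  refine ⟨τ_memP hz, z, hz.1, (A.h a b z)⁻¹, ?_⟩
  rw [γ_τP hz, inv_smul_smul]

theorem τ_τP {a b : A.ι} {z : E n} (hz : z ∈ A.O a b) : A.τ b a (A.τ a b z) = z := by
  have h1 := γ_τP (τ_mem_OP hz)
  rw [γ_τP hz, smul_smul] at h1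
  exact (A.inj a z hz.1 _ (τ_memP (τ_mem_OP hz)) _ h1).1

theorem image_τ (a b : A.ι) : A.τ a b '' A.O a b = A.O b a := by
  apply Subset.antisymm
  · rintro _ ⟨z, hz, rfl⟩
    exact τ_mem_OP hz
  · intro z hz
    exact ⟨A.τ b a z, τ_mem_OP hz, τ_τP hz⟩

theorem injOn_τ (a b : A.ι) : InjOn (A.τ a b) (A.O a b) := by
  intro z hz w hw h
  rw [← τ_τP hz, h, τ_τP hw]

theorem diff_τ {a b : A.ι} {z : E n} (hz : z ∈ A.O a b) : DifferentiableAt ℂ (A.τ a b) z :=
  (A.hol_τ a b).differentiableAt ((isOpenO a b).mem_nhds hz)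

theorem hasFDerivAt_τP {a b : A.ι} {z : E n} (hz : z ∈ A.O a b) :
    HasFDerivAt (A.τ a b) ((fderiv ℂ (A.τ a b) z).restrictScalars ℝ) z :=
  (diff_τ hz).hasFDerivAt.restrictScalars ℝ

/-- the real determinant of a complex linear map -/
theorem det_restrict (L : E n →L[ℂ] E n) : |(L.restrictScalars ℝ).det| = ‖L.det‖ ^ 2 := by
  have h1 : (L.restrictScalars ℝ).det = Algebra.norm ℝ L.det := by
    rw [ContinuousLinearMap.det, ContinuousLinearMap.det, ← LinearMap.det_restrictScalars]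
    rfl
  rw [h1, Algebra.norm_complex_apply, normSq_eq_norm_sq, abs_of_nonneg (by positivity)]

/-- change of charts for integrals -/
theorem integral_O (a b : A.ι) (f g : E n → ℂ)
    (h : ∀ᵐ z, z ∈ A.O a b → f z = ‖(fderiv ℂ (A.τ a b) z).det‖ ^ 2 * g (A.τ a b z)) :
    ∫ z in A.O a b, f z = ∫ z in A.O b a, g z := by
  rw [← image_τ a b, integral_image_eq_integral_abs_det_fderiv_smul volume
    (isOpenO a b).measurableSet (fun z hz => (hasFDerivAt_τP hz).hasFDerivWithinAt) (injOn_τ a b)]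
  apply integral_congr_ae
  rw [Filter.EventuallyEq, ae_restrict_iff' (isOpenO a b).measurableSet]
  filter_upwards [h] with z hz hz'
  rw [hz hz', det_restrict, real_smul]
  push_cast
  rfl

/-- null sets are preserved by transitions -/
theorem null_τ (a b : A.ι) {s : Set (E n)} (hs : volume s = 0) :
    ∀ᵐ z, z ∈ A.O a b → A.τ a b z ∉ s := by
  have h1 : volume (A.τ b a '' (s ∩ A.O b a)) = 0 := by
    refine addHaar_image_eq_zero_of_differentiableOn_of_addHaar_eq_zero volume ?_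
      (measure_mono_null inter_subset_left hs)
    intro z hz
    exact (hasFDerivAt_τP hz.2).differentiableAt.differentiableWithinAt
  have h2 : {z | ¬ (z ∈ A.O a b → A.τ a b z ∉ s)} ⊆ A.τ b a '' (s ∩ A.O b a) := by
    intro z hz
    simp only [mem_ofPred_eq, Classical.not_imp, not_not] at hz
    exact ⟨A.τ a b z, ⟨hz.2, τ_mem_OP hz.1⟩, τ_τP hz.1⟩
  exact measure_mono_null h2 h1

/-- coordinate hyperplanes are null sets -/
theorem null_coord (j : Fin n) : volume {z : E n | z j = 0} = 0 := by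
  have h := Measure.addHaar_affineSubspace (volume : Measure (E n))
    ((LinearMap.ker (ContinuousLinearMap.proj (R := ℝ) (φ := fun _ : Fin n => ℂ) j :
      E n →ₗ[ℝ] ℂ)).toAffineSubspace) (by
      intro h
      have h1 : (Pi.single j 1 : E n) ∈ ((LinearMap.ker (ContinuousLinearMap.proj (R := ℝ)
          (φ := fun _ : Fin n => ℂ) j : E n →ₗ[ℝ] ℂ)).toAffineSubspace : Set (E n)) := by
        rw [h]
        trivial
      simp at h1)
  convert h using 2
  ext z
  simp

theorem ae_coord_ne : ∀ᵐ z : E n, ∀ j, z j ≠ 0 := by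
  rw [ae_all_iff]
  intro j
  have : {z : E n | ¬ z j ≠ 0} = {z : E n | z j = 0} := by
    ext z
    simp
  rw [ae_iff, this]
  exact null_coord j

theorem ae_coord_τ_ne (a b : A.ι) : ∀ᵐ z, z ∈ A.O a b → ∀ j, A.τ a b z j ≠ 0 := by
  have h : ∀ᵐ z, ∀ j : Fin n, z ∈ A.O a b → A.τ a b z j ≠ 0 := by
    rw [ae_all_iff]
    intro j
    exact null_τ a b (null_coord j)
  filter_upwards [h] with z hz hz' j
  exact hz j hz'

end PolAtlas

end

end Pool.Agent.YTDA


end

/- source: Pool.Agent.YTDA.Residue -/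

section

/-!
# The divergence theorem with simple poles along coordinate hyperplanes
-/

namespace Pool.Agent.YTDA

open Complex Set Topology ContDiff MeasureTheory

noncomputable section

/-! ## Cutting off -/

variable {n : ℕ}

theorem cut_contDiff {F : Type*} [NormedAddCommGroup F] [NormedSpace ℝ F] {m : ℕ∞}
    {U K : Set (E n)} (hU : IsOpen U) (hK : IsCompact K) (hKU : K ⊆ U) {g : E n → F}
    (hg : ContDiffOn ℝ m g U) (hg0 : ∀ z ∈ U, z ∉ K → g z = 0) : ContDiff ℝ m (U.indicator g) := by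
  rw [contDiff_iff_contDiffAt]
  intro z
  by_cases hz : z ∈ U
  · refine ((hg.contDiffAt (hU.mem_nhds hz)).congr_of_eventuallyEq ?_)
    filter_upwards [hU.mem_nhds hz] with w hw
    exact indicator_of_mem hw g
  · have hzK : z ∈ Kᶜ := fun h => hz (hKU h)
    refine (contDiffAt_const (c := (0 : F))).congr_of_eventuallyEq ?_
    filter_upwards [hK.isClosed.isOpen_compl.mem_nhds hzK] with w hw
    by_cases hwU : w ∈ U
    · rw [indicator_of_mem hwU, hg0 w hwU hw]
    · exact indicator_of_notMem hwU g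

theorem cut_continuous {F : Type*} [NormedAddCommGroup F]
    {U K : Set (E n)} (hU : IsOpen U) (hK : IsCompact K) (hKU : K ⊆ U) {g : E n → F}
    (hg : ContinuousOn g U) (hg0 : ∀ z ∈ U, z ∉ K → g z = 0) : Continuous (U.indicator g) := by
  rw [continuous_iff_continuousAt]
  intro z
  by_cases hz : z ∈ U
  · refine ((hg.continuousAt (hU.mem_nhds hz)).congr ?_)
    filter_upwards [hU.mem_nhds hz] with w hw
    exact (indicator_of_mem hw g).symm
  · have hzK : z ∈ Kᶜ := fun h => hz (hKU h)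
    refine (continuousAt_const (y := (0 : F))).congr ?_
    filter_upwards [hK.isClosed.isOpen_compl.mem_nhds hzK] with w hw
    by_cases hwU : w ∈ U
    · rw [indicator_of_mem hwU, hg0 w hwU hw]
    · exact (indicator_of_notMem hwU g).symm

theorem cut_compact {F : Type*} [NormedAddCommGroup F]
    {U K : Set (E n)} (hK : IsCompact K) {g : E n → F}
    (hg0 : ∀ z ∈ U, z ∉ K → g z = 0) : HasCompactSupport (U.indicator g) := by
  refine HasCompactSupport.intro hK fun z hz => ?_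
  by_cases hzU : z ∈ U
  · rw [indicator_of_mem hzU, hg0 z hzU hz]
  · exact indicator_of_notMem hzU g

theorem integrableOn_cut_div {U K : Set (E (n + 1))} (hU : IsOpen U) (hK : IsCompact K)
    (hKU : K ⊆ U) {g : E (n + 1) → ℂ} (hg : ContinuousOn g U) (hg0 : ∀ z ∈ U, z ∉ K → g z = 0)
    (j : Fin (n + 1)) : IntegrableOn (fun z => g z / (starRingEnd ℂ) (z j)) U := by
  rw [← integrable_indicator_iff hU.measurableSet]
  have h := integrable_div_conj j (cut_continuous hU hK hKU hg hg0) (cut_compact hK hg0)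
  refine h.congr (Filter.Eventually.of_forall fun z => ?_)
  by_cases hz : z ∈ U
  · simp only [indicator_of_mem hz]
  · simp only [indicator_of_notMem hz, zero_div]

theorem integrableOn_cut {U K : Set (E n)} (hU : IsOpen U) (hK : IsCompact K)
    (hKU : K ⊆ U) {g : E n → ℂ} (hg : ContinuousOn g U) (hg0 : ∀ z ∈ U, z ∉ K → g z = 0) :
    IntegrableOn g U := by
  rw [← integrable_indicator_iff hU.measurableSet]
  exact (cut_continuous hU hK hKU hg hg0).integrable_of_hasCompactSupport (cut_compact hK hg0)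

/-! ## Derivatives -/

theorem res_dz_mul {f g : E n → ℂ} {z : E n} (hf : DifferentiableAt ℝ f z)
    (hg : DifferentiableAt ℝ g z) (i : Fin n) :
    dz i (fun w => f w * g w) z = f z * dz i g z + dz i f z * g z := by
  unfold dz
  rw [fderiv_fun_mul hf hg]
  simp only [_root_.add_apply, _root_.smul_apply, smul_eq_mul]
  ring

theorem dz_indicator {U : Set (E n)} (hU : IsOpen U) {g : E n → ℂ} {z : E n} (hz : z ∈ U)
    (i : Fin n) : dz i (U.indicator g) z = dz i g z :=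
  dz_congr (Filter.eventuallyEq_of_mem (hU.mem_nhds hz) fun _ hw => indicator_of_mem hw g)

theorem continuousOn_dz {U : Set (E n)} (hU : IsOpen U) {g : E n → ℂ} (hg : ContDiffOn ℝ 1 g U)
    (i : Fin n) : ContinuousOn (dz i g) U := by
  have h : ContinuousOn (fderiv ℝ g) U := hg.continuousOn_fderiv_of_isOpen hU le_rfl
  unfold dz
  fun_prop

theorem dz_eq_zero_of_min {g : E n → ℝ} {z : E n} (h : IsLocalMin g z) (i : Fin n) :
    dz i (fun w => (g w : ℂ)) z = 0 := by
  have h1 : fderiv ℝ (fun w => (g w : ℂ)) z = 0 := by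
    by_cases hd : DifferentiableAt ℝ g z
    · have h2 := (ofRealCLM.hasFDerivAt (x := g z)).comp z hd.hasFDerivAt
      have h3 : fderiv ℝ (fun w => (g w : ℂ)) z = ofRealCLM.comp (fderiv ℝ g z) := h2.fderiv
      rw [h3, h.fderiv_eq_zero]
      ext
      simp
    · refine fderiv_zero_of_not_differentiableAt fun hd' => hd ?_
      have h4 : g = fun w => ((g w : ℂ)).re := by
        ext w
        simp
      rw [h4]
      exact reCLM.differentiableAt.comp z hd'
  unfold dz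
  rw [h1]
  simp

namespace PolAtlas.Part

variable {Y : Type} [MulAction ℂˣ Y]

section

variable {A : PolAtlas n Y} (P : A.Part)

/-- `χ_k` in the chart `b` -/
def X (k : Fin P.m) (b : A.ι) (z : E n) : ℂ := (P.χ k (A.γ b z) : ℂ)

theorem contDiffOn_X (k : Fin P.m) (b : A.ι) : ContDiffOn ℝ ∞ (P.X k b) (A.U b) :=
  ofRealCLM.contDiff.comp_contDiffOn (P.smooth k b)

theorem X_zero (k : Fin P.m) {z : E n} (hz : z ∈ A.U (P.a k)) (hzK : z ∉ P.K k) :
    P.X k (P.a k) z = 0 := by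
  unfold X
  rw [ofReal_eq_zero]
  by_contra h
  obtain ⟨w, hw, c, hc⟩ := P.supp k _ h
  have h1 := (A.inj (P.a k) w (P.sub k hw) z hz c hc).1
  exact hzK (h1 ▸ hw)

theorem dz_X_zero (k : Fin P.m) {z : E n} (hz : z ∈ A.U (P.a k)) (hzK : z ∉ P.K k) (i : Fin n) :
    dz i (P.X k (P.a k)) z = 0 := by
  have h1 : P.X k (P.a k) =ᶠ[𝓝 z] fun _ => 0 := by
    have hzK' : z ∈ (P.K k)ᶜ := hzK
    filter_upwards [(A.isOpen_U _).mem_nhds hz,
      (P.cpt k).isClosed.isOpen_compl.mem_nhds hzK'] with w hw hw'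
    exact P.X_zero k hw hw'
  rw [dz_congr h1]
  simp [dz]

theorem sum_X (b : A.ι) (z : E n) : ∑ k, P.X k b z = 1 := by
  unfold X
  rw [← ofReal_sum, P.sum, ofReal_one]

theorem sum_dz_X (b : A.ι) {z : E n} (hz : z ∈ A.U b) (i : Fin n) :
    ∑ k, dz i (P.X k b) z = 0 := by
  have hd : ∀ k ∈ Finset.univ, DifferentiableAt ℝ (P.X k b) z := fun k _ =>
    ((P.contDiffOn_X k b).contDiffAt ((A.isOpen_U b).mem_nhds hz)).differentiableAt (by simp)
  have h1 : fderiv ℝ (fun w => ∑ k, P.X k b w) z = ∑ k, fderiv ℝ (P.X k b) z :=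
    fderiv_fun_sum hd
  have h2 : (fun w => ∑ k, P.X k b w) = fun _ => 1 := funext fun w => P.sum_X b w
  rw [h2] at h1
  simp only [fderiv_fun_const, Pi.zero_apply] at h1
  unfold dz
  rw [← Finset.sum_div, Finset.sum_sub_distrib, ← Finset.mul_sum]
  have h3 : ∀ v, ∑ k, fderiv ℝ (P.X k b) z v = 0 := by
    intro v
    rw [← _root_.sum_apply, ← h1]
    rfl
  rw [h3, h3]
  simp

/-- `χ_l` vanishes outside the overlap -/
theorem X_zero_of_notMem_O (l : Fin P.m) (b : A.ι) {z : E n} (hz : z ∈ A.U b)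
    (h : z ∉ A.O b (P.a l)) : P.X l b z = 0 := by
  unfold X
  rw [ofReal_eq_zero]
  by_contra h0
  obtain ⟨w, hw, c, hc⟩ := P.supp l _ h0
  apply h
  refine ⟨hz, w, P.sub l hw, c⁻¹, ?_⟩
  rw [hc, inv_smul_smul]

theorem dz_X_zero_of_notMem_O (l : Fin P.m) (b : A.ι) {z : E n} (hz : z ∈ A.U b)
    (h : z ∉ A.O b (P.a l)) (i : Fin n) : dz i (P.X l b) z = 0 := by
  apply dz_eq_zero_of_min
  have h0 := P.X_zero_of_notMem_O l b hz h
  unfold X at h0
  rw [ofReal_eq_zero] at h0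
  refine Filter.Eventually.of_forall fun w => ?_
  show P.χ l (A.γ b z) ≤ P.χ l (A.γ b w)
  rw [h0]
  exact P.nonneg l _

theorem X_τ (k : Fin P.m) {a b : A.ι} {z : E n} (hz : z ∈ A.O a b) :
    P.X k b (A.τ a b z) = P.X k a z := by
  unfold X
  rw [γ_τP hz, P.inv]

theorem dz_X_τ (k : Fin P.m) {a b : A.ι} {z : E n} (hz : z ∈ A.O a b) (i : Fin n) :
    dz i (P.X k a) z = ∑ l, dz l (P.X k b) (A.τ a b z) * fderiv ℂ (A.τ a b) z (Pi.single i 1) l := by
  have h1 : P.X k a =ᶠ[𝓝 z] fun w => P.X k b (A.τ a b w) := by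
    filter_upwards [(isOpenO a b).mem_nhds hz] with w hw
    exact (P.X_τ k hw).symm
  have hd : DifferentiableAt ℝ (P.X k b) (A.τ a b z) :=
    ((P.contDiffOn_X k b).contDiffAt ((A.isOpen_U b).mem_nhds (τ_memP hz))).differentiableAt
      (by simp)
  have h2 : ∀ v, fderiv ℝ (fun w => P.X k b (A.τ a b w)) z v =
      fderiv ℝ (P.X k b) (A.τ a b z) (fderiv ℂ (A.τ a b) z v) := by
    intro v
    have h3 := hd.hasFDerivAt.comp z (hasFDerivAt_τP hz)
    have h4 : fderiv ℝ (fun w => P.X k b (A.τ a b w)) z =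
        (fderiv ℝ (P.X k b) (A.τ a b z)).comp ((fderiv ℂ (A.τ a b) z).restrictScalars ℝ) :=
      h3.fderiv
    rw [h4]
    rfl
  have h5 : (Pi.single i I : E n) = I • (Pi.single i 1 : E n) := by
    rw [← Pi.single_smul, smul_eq_mul, mul_one]
  have h6 : dz i (fun w => P.X k b (A.τ a b w)) z =
      (fderiv ℝ (fun w => P.X k b (A.τ a b w)) z (Pi.single i 1) -
        I * fderiv ℝ (fun w => P.X k b (A.τ a b w)) z (Pi.single i I)) / 2 := rfl
  rw [dz_congr h1, h6, h2, h2, h5, map_smul, fderiv_eq_dz_dzb, fderiv_eq_dz_dzb, Finset.mul_sum,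
    ← Finset.sum_sub_distrib, Finset.sum_div]
  refine Finset.sum_congr rfl fun l _ => ?_
  simp only [Pi.smul_apply, smul_eq_mul, map_mul, conj_I]
  linear_combination (-(dz l (P.X k b) (A.τ a b z) * fderiv ℂ (A.τ a b) z (Pi.single i 1) l) / 2 +
    dzb l (P.X k b) (A.τ a b z) * (starRingEnd ℂ) (fderiv ℂ (A.τ a b) z (Pi.single i 1) l) / 2) *
    I_sq

/-- derivative of `χ_k` along a (weighted) vector field -/
def Q (X : A.ι → Fin n → E n → ℂ) (k : Fin P.m) (b : A.ι) (z : E n) : ℂ :=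
  ∑ i, dz i (P.X k b) z * X b i z

/-- the transformation law of a weighted vector field at a point -/
def Law (X : A.ι → Fin n → E n → ℂ) (a b : A.ι) (z : E n) : Prop :=
  ∀ l, ∑ i, fderiv ℂ (A.τ a b) z (Pi.single i 1) l * X a i z =
    (‖(fderiv ℂ (A.τ a b) z).det‖ : ℂ) ^ 2 * X b l (A.τ a b z)

theorem Q_τ (X : A.ι → Fin n → E n → ℂ) (k : Fin P.m) {a b : A.ι} {z : E n} (hz : z ∈ A.O a b)
    (h : Law X a b z) :
    P.Q X k a z = (‖(fderiv ℂ (A.τ a b) z).det‖ : ℂ) ^ 2 * P.Q X k b (A.τ a b z) := by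
  unfold Q
  have h1 : ∀ i, dz i (P.X k a) z * X a i z = ∑ l, dz l (P.X k b) (A.τ a b z) *
      (fderiv ℂ (A.τ a b) z (Pi.single i 1) l * X a i z) := by
    intro i
    rw [P.dz_X_τ k hz i, Finset.sum_mul]
    exact Finset.sum_congr rfl fun l _ => by ring
  simp_rw [h1]
  rw [Finset.sum_comm, Finset.mul_sum]
  refine Finset.sum_congr rfl fun l _ => ?_
  rw [← Finset.mul_sum, h l]
  ring

theorem transfer (X : A.ι → Fin n → E n → ℂ)
    (h : ∀ a b, ∀ᵐ z, z ∈ A.O a b → Law X a b z) (k l : Fin P.m) :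
    ∫ z in A.U (P.a k), P.X l (P.a k) z * P.Q X k (P.a k) z =
    ∫ z in A.U (P.a l), P.X l (P.a l) z * P.Q X k (P.a l) z := by
  have h1 : ∫ z in A.U (P.a k), P.X l (P.a k) z * P.Q X k (P.a k) z =
      ∫ z in A.O (P.a k) (P.a l), P.X l (P.a k) z * P.Q X k (P.a k) z := by
    refine setIntegral_eq_of_subset_of_forall_sdiff_eq_zero (A.isOpen_U _).measurableSet
      (fun z hz => hz.1) ?_
    rintro z ⟨hz, hz'⟩
    rw [P.X_zero_of_notMem_O l _ hz hz', zero_mul]
  have h2 : ∫ z in A.U (P.a l), P.X l (P.a l) z * P.Q X k (P.a l) z =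
      ∫ z in A.O (P.a l) (P.a k), P.X l (P.a l) z * P.Q X k (P.a l) z := by
    refine setIntegral_eq_of_subset_of_forall_sdiff_eq_zero (A.isOpen_U _).measurableSet
      (fun z hz => hz.1) ?_
    rintro z ⟨hz, hz'⟩
    have h3 : P.Q X k (P.a l) z = 0 := by
      unfold Q
      refine Finset.sum_eq_zero fun i _ => ?_
      rw [P.dz_X_zero_of_notMem_O k _ hz hz', zero_mul]
    rw [h3, mul_zero]
  rw [h1, h2]
  apply integral_O
  filter_upwards [h (P.a k) (P.a l)] with z hz hz'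
  rw [P.Q_τ X k hz' (hz hz'), P.X_τ l hz']
  ring

theorem sum_Q (X : A.ι → Fin n → E n → ℂ) (b : A.ι) {z : E n} (hz : z ∈ A.U b) :
    ∑ k, P.Q X k b z = 0 := by
  unfold Q
  rw [Finset.sum_comm]
  refine Finset.sum_eq_zero fun i _ => ?_
  rw [← Finset.sum_mul, P.sum_dz_X b hz i, zero_mul]

/-- The vector field part cancels. -/
theorem sum_integral_Q (X : A.ι → Fin n → E n → ℂ)
    (h : ∀ a b, ∀ᵐ z, z ∈ A.O a b → Law X a b z)
    (hint : ∀ k l, IntegrableOn (fun z => P.X l (P.a k) z * P.Q X k (P.a k) z) (A.U (P.a k)))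
    (hint' : ∀ k l, IntegrableOn (fun z => P.X l (P.a l) z * P.Q X k (P.a l) z) (A.U (P.a l))) :
    ∑ k, ∫ z in A.U (P.a k), P.Q X k (P.a k) z = 0 := by
  have h1 : ∀ k, ∫ z in A.U (P.a k), P.Q X k (P.a k) z =
      ∑ l, ∫ z in A.U (P.a k), P.X l (P.a k) z * P.Q X k (P.a k) z := by
    intro k
    rw [← integral_finsetSum _ (fun l _ => hint k l)]
    congr 1
    ext z
    rw [← Finset.sum_mul, P.sum_X, one_mul]
  have h2 : ∀ k, ∫ z in A.U (P.a k), P.Q X k (P.a k) z =
      ∑ l, ∫ z in A.U (P.a l), P.X l (P.a l) z * P.Q X k (P.a l) z := fun k =>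
    (h1 k).trans (Finset.sum_congr rfl fun l _ => P.transfer X h k l)
  rw [Finset.sum_congr rfl fun k _ => h2 k, Finset.sum_comm]
  refine Finset.sum_eq_zero fun l _ => ?_
  rw [← integral_finsetSum _ (fun k _ => hint' k l)]
  rw [← integral_zero (E n) ℂ (μ := volume.restrict (A.U (P.a l)))]
  refine setIntegral_congr_fun (A.isOpen_U _).measurableSet ?_
  intro z hz
  show ∑ k, P.X l (P.a l) z * P.Q X k (P.a l) z = 0
  rw [← Finset.mul_sum, P.sum_Q X _ hz, mul_zero]

end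

section

variable {A : PolAtlas (n + 1) Y} (P : A.Part)

/-- A weighted vector field with simple poles: `∑_j W_ij / z̄_j + R_i`. -/
def polar (W : A.ι → Fin (n + 1) → Fin (n + 1) → E (n + 1) → ℂ)
    (R : A.ι → Fin (n + 1) → E (n + 1) → ℂ) (b : A.ι) (i : Fin (n + 1)) (z : E (n + 1)) : ℂ :=
  ∑ j, W b i j z / (starRingEnd ℂ) (z j) + R b i z

/-- its divergence (off the poles) -/
def polarDiv (W : A.ι → Fin (n + 1) → Fin (n + 1) → E (n + 1) → ℂ)
    (R : A.ι → Fin (n + 1) → E (n + 1) → ℂ) (b : A.ι) (z : E (n + 1)) : ℂ :=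
  ∑ i, (∑ j, dz i (W b i j) z / (starRingEnd ℂ) (z j) + dz i (R b i) z)

/-- **The divergence theorem with simple poles.** -/
theorem residue (W : A.ι → Fin (n + 1) → Fin (n + 1) → E (n + 1) → ℂ)
    (R : A.ι → Fin (n + 1) → E (n + 1) → ℂ)
    (hW : ∀ a i j, ContDiffOn ℝ 1 (W a i j) (A.U a)) (hR : ∀ a i, ContDiffOn ℝ 1 (R a i) (A.U a))
    (h : ∀ a b, ∀ᵐ z, z ∈ A.O a b → Law (polar W R) a b z) :
    ∑ k, ∫ z in A.U (P.a k), P.X k (P.a k) z * polarDiv W R (P.a k) z =
      - Real.pi * ∑ k, ∑ j, ∫ b : E n, (A.U (P.a k)).indicator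
        (fun z => P.X k (P.a k) z * W (P.a k) j j z) (j.insertNth 0 b) := by
  have hXc : ∀ k b, ContDiffOn ℝ 1 (P.X k b) (A.U b) := fun k b =>
    (P.contDiffOn_X k b).of_le (by exact_mod_cast le_top)
  -- integrability of products with the vector field
  have hgen : ∀ (k : Fin P.m) (g : E (n + 1) → ℂ) (i : Fin (n + 1)),
      ContinuousOn g (A.U (P.a k)) → (∀ z ∈ A.U (P.a k), z ∉ P.K k → g z = 0) →
      IntegrableOn (fun z => g z * polar W R (P.a k) i z) (A.U (P.a k)) := by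
    intro k g i hg hg0
    have h1 : ∀ z, g z * polar W R (P.a k) i z =
        ∑ j, (g z * W (P.a k) i j z) / (starRingEnd ℂ) (z j) + g z * R (P.a k) i z := by
      intro z
      unfold polar
      rw [mul_add, Finset.mul_sum]
      congr 1
      exact Finset.sum_congr rfl fun j _ => by ring
    simp_rw [h1]
    refine Integrable.add (integrable_finsetSum _ fun j _ => ?_) ?_
    · refine integrableOn_cut_div (A.isOpen_U _) (P.cpt k) (P.sub k)
        (g := fun z => g z * W (P.a k) i j z)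
        (hg.mul (hW _ i j).continuousOn) (fun z hz hz' => ?_) j
      rw [hg0 z hz hz', zero_mul]
    · refine integrableOn_cut (A.isOpen_U _) (P.cpt k) (P.sub k)
        (g := fun z => g z * R (P.a k) i z)
        (hg.mul (hR _ i).continuousOn) (fun z hz hz' => ?_)
      rw [hg0 z hz hz', zero_mul]
  have hcd : ∀ k b i, ContinuousOn (dz i (P.X k b)) (A.U b) := fun k b i =>
    continuousOn_dz (A.isOpen_U b) (hXc k b) i
  have hQ0 : ∀ k l, IntegrableOn (fun z => P.X l (P.a k) z * P.Q (polar W R) k (P.a k) z)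
      (A.U (P.a k)) := by
    intro k l
    unfold Q
    simp_rw [Finset.mul_sum, ← mul_assoc]
    refine integrable_finsetSum _ fun i _ => ?_
    refine hgen k (fun z => P.X l (P.a k) z * dz i (P.X k (P.a k)) z) i
      ((hXc l _).continuousOn.mul (hcd _ _ _)) ?_
    intro z hz hz'
    rw [P.dz_X_zero k hz hz', mul_zero]
  have hQ1 : ∀ k l, IntegrableOn (fun z => P.X l (P.a l) z * P.Q (polar W R) k (P.a l) z)
      (A.U (P.a l)) := by
    intro k l
    unfold Q
    simp_rw [Finset.mul_sum, ← mul_assoc]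
    refine integrable_finsetSum _ fun i _ => ?_
    refine hgen l (fun z => P.X l (P.a l) z * dz i (P.X k (P.a l)) z) i
      ((hXc l _).continuousOn.mul (hcd _ _ _)) ?_
    intro z hz hz'
    rw [P.X_zero l hz hz', zero_mul]
  have hcancel := P.sum_integral_Q (polar W R) h hQ0 hQ1
  -- one chart
  have hone : ∀ k, (∫ z in A.U (P.a k), P.X k (P.a k) z * polarDiv W R (P.a k) z) +
      ∫ z in A.U (P.a k), P.Q (polar W R) k (P.a k) z =
      - Real.pi * ∑ j, ∫ b : E n, (A.U (P.a k)).indicator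
        (fun z => P.X k (P.a k) z * W (P.a k) j j z) (j.insertNth 0 b) := by
    intro k
    set U := A.U (P.a k) with hU
    have hUo : IsOpen U := A.isOpen_U _
    set χ := P.X k (P.a k) with hχ
    have hχ0 : ∀ z ∈ U, z ∉ P.K k → χ z = 0 := fun z hz hz' => P.X_zero k hz hz'
    have hcut : ∀ g : E (n + 1) → ℂ, ContDiffOn ℝ 1 g U →
        ContDiff ℝ 1 (U.indicator fun z => χ z * g z) ∧
        HasCompactSupport (U.indicator fun z => χ z * g z) := by
      intro g hg
      have h0 : ∀ z ∈ U, z ∉ P.K k → χ z * g z = 0 := fun z hz hz' => by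
        rw [hχ0 z hz hz', zero_mul]
      exact ⟨cut_contDiff hUo (P.cpt k) (P.sub k) ((hXc _ _).mul hg) h0,
        cut_compact (P.cpt k) h0⟩
    -- the total divergence
    have htot : ∑ i, ((∑ j, ∫ z, dz i (U.indicator fun z => χ z * W (P.a k) i j z) z /
        (starRingEnd ℂ) (z j)) + ∫ z, dz i (U.indicator fun z => χ z * R (P.a k) i z) z) =
        - Real.pi * ∑ j, ∫ b : E n, U.indicator
        (fun z => χ z * W (P.a k) j j z) (j.insertNth 0 b) := by
      have h1 : ∀ i, ((∑ j, ∫ z, dz i (U.indicator fun z => χ z * W (P.a k) i j z) z /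
          (starRingEnd ℂ) (z j)) + ∫ z, dz i (U.indicator fun z => χ z * R (P.a k) i z) z) =
          - Real.pi * ∫ b : E n, U.indicator
            (fun z => χ z * W (P.a k) i i z) (i.insertNth 0 b) := by
        intro i
        rw [integral_dz i (hcut _ (hR _ i)).1 (hcut _ (hR _ i)).2, add_zero]
        rw [Finset.sum_eq_single i]
        · rw [integral_dz_div i i (hcut _ (hW _ i i)).1 (hcut _ (hW _ i i)).2, if_pos rfl]
        · intro j _ hj
          rw [integral_dz_div i j (hcut _ (hW _ i j)).1 (hcut _ (hW _ i j)).2,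
            if_neg (Ne.symm hj)]
        · simp
      simp_rw [h1]
      rw [Finset.mul_sum]
    rw [← htot]
    have hsupp : ∀ g : E (n + 1) → ℂ, ∀ i, ∀ z ∉ U,
        dz i (U.indicator fun z => χ z * g z) z = 0 := by
      intro g i z hz
      have hzK : z ∈ (P.K k)ᶜ := fun h => hz (P.sub k h)
      have h1 : (U.indicator fun z => χ z * g z) =ᶠ[𝓝 z] fun _ => 0 := by
        filter_upwards [(P.cpt k).isClosed.isOpen_compl.mem_nhds hzK] with w hw
        by_cases hwU : w ∈ U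
        · rw [indicator_of_mem hwU, hχ0 w hwU hw, zero_mul]
        · exact indicator_of_notMem hwU _
      rw [dz_congr h1]
      simp [dz]
    have hA : ∀ i j, ∫ z, dz i (U.indicator fun z => χ z * W (P.a k) i j z) z /
        (starRingEnd ℂ) (z j) = ∫ z in U, dz i (U.indicator fun z => χ z * W (P.a k) i j z) z /
        (starRingEnd ℂ) (z j) := by
      intro i j
      symm
      refine setIntegral_eq_integral_of_forall_compl_eq_zero fun z hz => ?_
      rw [hsupp _ i z hz, zero_div]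
    have hB : ∀ i, ∫ z, dz i (U.indicator fun z => χ z * R (P.a k) i z) z =
        ∫ z in U, dz i (U.indicator fun z => χ z * R (P.a k) i z) z := by
      intro i
      symm
      exact setIntegral_eq_integral_of_forall_compl_eq_zero fun z hz => hsupp _ i z hz
    have hAi : ∀ i j, IntegrableOn (fun z => dz i (U.indicator fun z => χ z * W (P.a k) i j z) z /
        (starRingEnd ℂ) (z j)) U := fun i j =>
      (integrable_div_conj j (continuous_dz i (hcut _ (hW _ i j)).1)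
        (hasCompactSupport_dz i (hcut _ (hW _ i j)).2)).integrableOn
    have hBi : ∀ i, IntegrableOn (fun z => dz i (U.indicator fun z => χ z * R (P.a k) i z) z) U :=
      fun i => ((continuous_dz i (hcut _ (hR _ i)).1).integrable_of_hasCompactSupport
        (hasCompactSupport_dz i (hcut _ (hR _ i)).2)).integrableOn
    have hsum : ∑ i, ((∑ j, ∫ z, dz i (U.indicator fun z => χ z * W (P.a k) i j z) z /
        (starRingEnd ℂ) (z j)) + ∫ z, dz i (U.indicator fun z => χ z * R (P.a k) i z) z) =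
        ∫ z in U, ∑ i, (∑ j, dz i (U.indicator fun z => χ z * W (P.a k) i j z) z /
        (starRingEnd ℂ) (z j) + dz i (U.indicator fun z => χ z * R (P.a k) i z) z) := by
      have hI : ∀ i ∈ (Finset.univ : Finset (Fin (n + 1))), IntegrableOn (fun z =>
          ∑ j, dz i (U.indicator fun z => χ z * W (P.a k) i j z) z / (starRingEnd ℂ) (z j) +
          dz i (U.indicator fun z => χ z * R (P.a k) i z) z) U := fun i _ =>
        (integrable_finsetSum _ fun j _ => hAi i j).add (hBi i)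
      rw [integral_finsetSum _ hI]
      refine Finset.sum_congr rfl fun i _ => ?_
      rw [integral_add (integrable_finsetSum _ fun j _ => hAi i j) (hBi i),
        integral_finsetSum _ fun j _ => hAi i j, hB i]
      congr 1
      exact Finset.sum_congr rfl fun j _ => hA i j
    rw [hsum]
    -- pointwise identity
    have hpt : ∀ z ∈ U, ∑ i, (∑ j, dz i (U.indicator fun z => χ z * W (P.a k) i j z) z /
        (starRingEnd ℂ) (z j) + dz i (U.indicator fun z => χ z * R (P.a k) i z) z) =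
        χ z * polarDiv W R (P.a k) z + P.Q (polar W R) k (P.a k) z := by
      intro z hz
      have hd : ∀ g : E (n + 1) → ℂ, ContDiffOn ℝ 1 g U → DifferentiableAt ℝ g z := fun g hg =>
        (hg.contDiffAt (hUo.mem_nhds hz)).differentiableAt one_ne_zero
      have h1 : ∀ g : E (n + 1) → ℂ, ContDiffOn ℝ 1 g U → ∀ i,
          dz i (U.indicator fun z => χ z * g z) z = χ z * dz i g z + dz i χ z * g z := by
        intro g hg i
        rw [dz_indicator hUo hz, res_dz_mul (hd _ (hXc _ _)) (hd _ hg)]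
      unfold polarDiv Q polar
      rw [Finset.mul_sum, ← Finset.sum_add_distrib]
      refine Finset.sum_congr rfl fun i _ => ?_
      rw [h1 _ (hR _ i), mul_add, mul_add, Finset.mul_sum, Finset.mul_sum]
      have h2 : ∀ j, dz i (U.indicator fun z => χ z * W (P.a k) i j z) z / (starRingEnd ℂ) (z j) =
          χ z * (dz i (W (P.a k) i j) z / (starRingEnd ℂ) (z j)) +
          dz i χ z * (W (P.a k) i j z / (starRingEnd ℂ) (z j)) := by
        intro j
        rw [h1 _ (hW _ i j)]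
        ring
      simp_rw [h2]
      rw [Finset.sum_add_distrib]
      ring
    rw [setIntegral_congr_fun hUo.measurableSet hpt]
    have hI2 : IntegrableOn (fun z => P.Q (polar W R) k (P.a k) z) U := by
      unfold Q
      refine integrable_finsetSum _ fun i _ => ?_
      exact hgen k (fun z => dz i (P.X k (P.a k)) z) i (hcd _ _ _)
        (fun z hz hz' => P.dz_X_zero k hz hz' i)
    have hI1 : IntegrableOn (fun z => χ z * polarDiv W R (P.a k) z) U := by
      have h3 : IntegrableOn (fun z => ∑ i, (∑ j, dz i (U.indicator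
          fun z => χ z * W (P.a k) i j z) z / (starRingEnd ℂ) (z j) +
          dz i (U.indicator fun z => χ z * R (P.a k) i z) z)) U :=
        integrable_finsetSum _ fun i _ =>
          (integrable_finsetSum _ fun j _ => hAi i j).add (hBi i)
      have h4 := (h3.congr_fun hpt hUo.measurableSet).sub hI2
      refine h4.congr (Filter.Eventually.of_forall fun z => ?_)
      simp
    rw [integral_add hI1 hI2]
  have hsum := Finset.sum_congr rfl fun k (_ : k ∈ Finset.univ) => hone k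
  rw [Finset.sum_add_distrib, hcancel, add_zero, ← Finset.mul_sum] at hsum
  exact hsum

end

end PolAtlas.Part

end

end Pool.Agent.YTDA


end

/- source: Pool.Agent.YTDA.DHFin -/

section

/-!
# T13, M5.4: from the three residue identities to the contradiction
-/

namespace Pool.Agent.YTDA

open Set Topology ContDiff MeasureTheory Real

noncomputable section

/-- The Duistermaat-Heckman identity for a smooth function from the identity for primitives. -/
theorem dh_primitive {q t : ℝ} (hq : 0 < q) {u k : ℝ → ℝ} (hu : ∀ x, HasDerivAt u (k x) x)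
    (hk : Continuous k) :
    -u (-(5 * q)) * (5 * t * q) + u (5 * q) * (5 * t * q) -
      100 * t * (∫ x in (-(5 * q))..(-(4 * q)), u x) + 100 * t * (∫ x in (4 * q)..(5 * q), u x) =
    ∫ x in (-(5 * q))..(5 * q), k x * dd q t x := by
  have hcu : Continuous u := continuous_iff_continuousAt.2 fun x => (hu x).continuousAt
  have hint : ∀ (g : ℝ → ℝ), Continuous g → ∀ a b, IntervalIntegrable g volume a b :=
    fun g hg a b => hg.intervalIntegrable _ _
  have hcd := continuous_dd q t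
  -- split the right hand side
  have e0 : ∫ x in (-(5 * q))..(5 * q), k x * dd q t x =
      (∫ x in (-(5 * q))..(-(4 * q)), k x * dd q t x) +
      (∫ x in (-(4 * q))..(4 * q), k x * dd q t x) +
      (∫ x in (4 * q)..(5 * q), k x * dd q t x) := by
    have hcm : Continuous (fun x => k x * dd q t x) := hk.mul hcd
    rw [intervalIntegral.integral_add_adjacent_intervals (hint _ hcm _ _)
      (hint _ hcm _ _), intervalIntegral.integral_add_adjacent_intervals
      (hint _ hcm _ _) (hint _ hcm _ _)]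
  -- the middle part
  have e1 : ∫ x in (-(4 * q))..(4 * q), k x * dd q t x = (u (4 * q) - u (-(4 * q))) *
      (105 * t * q) := by
    rw [← intervalIntegral.integral_eq_sub_of_hasDerivAt (fun x _ => hu x) (hint k hk _ _),
      ← intervalIntegral.integral_mul_const]
    apply intervalIntegral.integral_congr
    intro x hx
    rw [uIcc_of_le (by linarith)] at hx
    have h1 : |x| - 4 * q ≤ 0 := by
      have := abs_le.2 ⟨hx.1, hx.2⟩
      linarith
    show k x * dd q t x = _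
    unfold dd
    rw [max_eq_right h1]
    ring
  -- the right part
  have e2 : ∫ x in (4 * q)..(5 * q), k x * dd q t x =
      u (5 * q) * (5 * t * q) - u (4 * q) * (105 * t * q) +
        100 * t * ∫ x in (4 * q)..(5 * q), u x := by
    have h1 : ∀ x, HasDerivAt (fun x : ℝ => 105 * t * q - 100 * t * (x - 4 * q)) (-(100 * t)) x := by
      intro x
      have := (((hasDerivAt_id x).sub_const (4 * q)).const_mul (100 * t)).const_sub (105 * t * q)
      simpa using this
    have h2 := intervalIntegral.integral_mul_deriv_eq_deriv_mul (a := 4 * q) (b := 5 * q)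
      (fun x _ => h1 x) (fun x _ => hu x) (hint _ continuous_const _ _) (hint _ hk _ _)
    have h3 : ∫ x in (4 * q)..(5 * q), k x * dd q t x =
        ∫ x in (4 * q)..(5 * q), (105 * t * q - 100 * t * (x - 4 * q)) * k x := by
      apply intervalIntegral.integral_congr
      intro x hx
      rw [uIcc_of_le (by linarith)] at hx
      show k x * dd q t x = _
      unfold dd
      rw [abs_of_pos (by linarith [hx.1]), max_eq_left (by linarith [hx.1])]
      ring
    rw [h3, h2, intervalIntegral.integral_const_mul]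
    ring
  -- the left part
  have e3 : ∫ x in (-(5 * q))..(-(4 * q)), k x * dd q t x =
      u (-(4 * q)) * (105 * t * q) - u (-(5 * q)) * (5 * t * q) -
        100 * t * ∫ x in (-(5 * q))..(-(4 * q)), u x := by
    have h1 : ∀ x, HasDerivAt (fun x : ℝ => 105 * t * q - 100 * t * (-x - 4 * q)) (100 * t) x := by
      intro x
      have := ((((hasDerivAt_id x).neg).sub_const (4 * q)).const_mul (100 * t)).const_sub
        (105 * t * q)
      simpa using this
    have h2 := intervalIntegral.integral_mul_deriv_eq_deriv_mul (a := -(5 * q)) (b := -(4 * q))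
      (fun x _ => h1 x) (fun x _ => hu x) (hint _ continuous_const _ _) (hint _ hk _ _)
    have h3 : ∫ x in (-(5 * q))..(-(4 * q)), k x * dd q t x =
        ∫ x in (-(5 * q))..(-(4 * q)), (105 * t * q - 100 * t * (-x - 4 * q)) * k x := by
      apply intervalIntegral.integral_congr
      intro x hx
      rw [uIcc_of_le (by linarith)] at hx
      show k x * dd q t x = _
      unfold dd
      rw [abs_of_neg (by linarith [hx.2]), max_eq_left (by linarith [hx.2])]
      ring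
    rw [h3, h2, intervalIntegral.integral_const_mul]
    ring
  rw [e0, e1, e2, e3]
  ring

/-- **T13 (M5.4)**: the three residue identities, the positivity and the equation are
contradictory. `I k = ∫ k(μ) ρ`, `Λ k = ∫ k(μ) P(μ) |V|² ρ`. -/
theorem dh_final {q t : ℝ} (hq : 0 < q) (ht : 0 < t) (I Λ : (ℝ → ℝ) → ℝ) (s α β : ℝ)
    (hΛ : Λ (fun _ => 0) = 0) (hI : ∀ (c : ℝ) (k : ℝ → ℝ), I (fun x => c * k x) = c * I k)
    (F1 : ∀ u : ℝ → ℝ, ContDiff ℝ ∞ u → I (deriv u) = π ^ 2 *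
      (-u (-(5 * q)) * α + u (5 * q) * β - 100 * t * (∫ x in (-(5 * q))..(-(4 * q)), u x) +
        100 * t * (∫ x in (4 * q)..(5 * q), u x)))
    (F2 : ∀ u : ℝ → ℝ, ContDiff ℝ ∞ u → I (fun x => 2 * u x + (x + 5 * q) * deriv u x) = π ^ 2 *
      (105 * t * q * (∫ x in (-(5 * q))..(5 * q), u x) -
        q * (100 * t) * (∫ x in (-(5 * q))..(-(4 * q)), u x) +
        9 * q * (100 * t) * (∫ x in (4 * q)..(5 * q), u x) + 10 * q * β * u (5 * q)))
    (F3 : ∀ f : ℝ → ℝ, ContDiff ℝ ∞ f →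
      Λ (deriv (deriv f)) + s * I (fun x => f x * PP q x) = 100 * q * I f + π ^ 2 *
      (f (-(5 * q)) * PP q (-(5 * q)) * α + f (5 * q) * PP q (5 * q) * β -
        18 * t * (∫ x in (-(5 * q))..(5 * q), f x * PP q x)))
    (H3 : ∃ c > 0, ∀ k : ℝ → ℝ, ContDiff ℝ ∞ k → (∀ x, 0 ≤ k x) →
      (∀ x, 39 / 10 * q ≤ |x| → k x = 0) → c * I k ≤ Λ k) : False := by
  have hI0 : I (fun _ => 0) = 0 := by
    have := hI 0 (fun _ => 0)
    simpa using this
  -- `α = β`
  have hαβ : α = β := by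
    have h1 := F1 (fun _ => 1) contDiff_const
    have h2 : deriv (fun _ : ℝ => (1 : ℝ)) = fun _ => 0 := by
      ext x
      simp
    rw [h2, hI0] at h1
    simp only [intervalIntegral.integral_const, smul_eq_mul, mul_one] at h1
    have h3 : (π ^ 2 : ℝ) ≠ 0 := by positivity
    have h4 := (mul_eq_zero.1 h1.symm).resolve_left h3
    linarith
  have hβ : β = 5 * t * q := by
    have h1 := F1 (fun x => x) contDiff_id
    have h2 : deriv (fun x : ℝ => x) = fun _ => 1 := by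
      ext x
      exact (hasDerivAt_id x).deriv
    rw [h2] at h1
    have h3 := F2 (fun _ => 1) contDiff_const
    have h4 : (fun x : ℝ => 2 * (1 : ℝ) + (x + 5 * q) * deriv (fun _ : ℝ => (1 : ℝ)) x) =
        fun x => 2 * (fun _ : ℝ => (1 : ℝ)) x := by
      ext x
      simp
    rw [h4, hI 2 (fun _ => 1)] at h3
    simp only [intervalIntegral.integral_const, smul_eq_mul, mul_one, integral_id] at h1 h3
    rw [h1, hαβ] at h3
    have h5 : (π ^ 2 : ℝ) ≠ 0 := by positivity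
    have h6 : π ^ 2 * (10 * q * (β - 5 * t * q)) = 0 := by
      linear_combination h3
    have h7 := (mul_eq_zero.1 h6).resolve_left h5
    have h8 := (mul_eq_zero.1 h7).resolve_left (by positivity)
    linarith
  have hα : α = 5 * t * q := hαβ.trans hβ
  -- the Duistermaat-Heckman measure
  have hDH : ∀ k : ℝ → ℝ, ContDiff ℝ ∞ k →
      I k = π ^ 2 * ∫ x in (-(5 * q))..(5 * q), k x * dd q t x := by
    intro k hk
    have hkc : Continuous k := hk.continuous
    have hu' : ∀ x, HasDerivAt (fun x => ∫ y in (0 : ℝ)..x, k y) (k x) x := fun x =>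
      intervalIntegral.integral_hasDerivAt_right (hkc.intervalIntegrable _ _)
        (hkc.stronglyMeasurableAtFilter _ _) hkc.continuousAt
    have hud : deriv (fun x => ∫ y in (0 : ℝ)..x, k y) = k := funext fun x => (hu' x).deriv
    have hus : ContDiff ℝ ∞ (fun x => ∫ y in (0 : ℝ)..x, k y) := by
      rw [contDiff_infty_iff_deriv]
      exact ⟨fun x => (hu' x).differentiableAt, by rw [hud]; exact hk⟩
    have h1 := F1 _ hus
    rw [hud, hα, hβ, dh_primitive hq hu' hkc] at h1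
    exact h1
  have g4 : dd q t (5 * q) = 5 * t * q := by
    unfold dd
    rw [abs_of_pos (by positivity), max_eq_left (by linarith)]
    ring
  have g5 : dd q t (-(5 * q)) = 5 * t * q := by
    unfold dd
    rw [abs_neg, abs_of_pos (by positivity), max_eq_left (by linarith)]
    ring
  refine final_ineq hq ht (fun k => 4 * I k) (fun k => 4 * Λ k) s ?_ ?_ ?_ ?_
  · show 4 * Λ (fun _ => 0) = 0
    rw [hΛ, mul_zero]
  · intro f hf _
    have h1 := F3 f hf
    rw [hDH f hf, hα, hβ] at h1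
    show 4 * Λ (deriv (deriv f)) + s * (4 * I (fun x => f x * PP q x)) = _
    rw [g4, g5]
    linear_combination 4 * h1
  · intro k hk
    show 4 * I k = _
    rw [hDH k hk]
    ring
  · obtain ⟨c, hc, h⟩ := H3
    refine ⟨c, hc, fun k hk h0 h1 => ?_⟩
    have h2 := h k hk h0 h1
    show c * (4 * I k) ≤ 4 * Λ k
    linarith

end

end Pool.Agent.YTDA


end

/- source: Pool.Agent.YTDA.Orbit1 -/

section

/-!
# Integrals of radial functions over the plane (orbit integrals)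
-/

namespace Pool.Agent.YTDA

open Set Topology MeasureTheory Filter

noncomputable section

section Radial

variable {f f' : ℝ → ℝ} {a b : ℝ}

theorem tendsto_comp_log (ha : Tendsto f atBot (𝓝 a)) :
    Tendsto (fun r => f (Real.log r)) (𝓝[>] 0) (𝓝 a) :=
  ha.comp Real.tendsto_log_nhdsGT_zero

/-- integrals over `(0, ∞)` in logarithmic coordinate -/
theorem integral_log_coord (h1 : ∀ τ, HasDerivAt f (f' τ) τ) (hpos : ∀ τ, 0 ≤ f' τ)
    (hc : Continuous f') (ha : Tendsto f atBot (𝓝 a)) (hb : Tendsto f atTop (𝓝 b))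
    {u : ℝ → ℝ} (hu : Continuous u) :
    IntegrableOn (fun r => u (f (Real.log r)) * (f' (Real.log r) / r)) (Ioi 0) ∧
    ∫ r in Ioi (0 : ℝ), u (f (Real.log r)) * (f' (Real.log r) / r) = ∫ x in a..b, u x := by
  have hmono : Monotone f := monotone_of_deriv_nonneg (fun τ => (h1 τ).differentiableAt)
    fun τ => by rw [(h1 τ).deriv]; exact hpos τ
  have hfa : ∀ τ, a ≤ f τ := fun τ => hmono.le_of_tendsto ha τ
  have hfb : ∀ τ, f τ ≤ b := fun τ => hmono.ge_of_tendsto hb τ
  have hfc : Continuous f := continuous_iff_continuousAt.2 fun τ => (h1 τ).continuousAt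
  -- the function f (log r), extended by a at 0
  have hext : ∀ (g : ℝ → ℝ) (c : ℝ), Tendsto g atBot (𝓝 c) →
      ContinuousWithinAt (fun r => if r ≤ 0 then c else g (Real.log r)) (Ici 0) 0 := by
    intro g c hg
    have h2 : ContinuousWithinAt (fun r => if r ≤ 0 then c else g (Real.log r)) (Ioi 0) 0 := by
      show Tendsto _ (𝓝[>] 0) (𝓝 _)
      simp only [le_refl, if_true]
      refine (tendsto_comp_log hg).congr' ?_
      filter_upwards [self_mem_nhdsWithin] with r hr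
      rw [if_neg (not_le.2 hr)]
    exact continuousWithinAt_Ioi_iff_Ici.1 h2
  have hder : ∀ (g g' : ℝ → ℝ) (c : ℝ), (∀ τ, HasDerivAt g (g' τ) τ) → ∀ r ∈ Ioi (0 : ℝ),
      HasDerivAt (fun r => if r ≤ 0 then c else g (Real.log r)) (g' (Real.log r) / r) r := by
    intro g g' c hg r hr
    have h2 : HasDerivAt (fun r => g (Real.log r)) (g' (Real.log r) * r⁻¹) r :=
      (hg _).comp r (Real.hasDerivAt_log (ne_of_gt hr))
    rw [div_eq_mul_inv]
    refine h2.congr_of_eventuallyEq ?_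
    filter_upwards [Ioi_mem_nhds hr] with s hs
    rw [if_neg (not_le.2 hs)]
  have hlim : ∀ (g : ℝ → ℝ) (c d : ℝ), Tendsto g atTop (𝓝 d) →
      Tendsto (fun r => if r ≤ 0 then c else g (Real.log r)) atTop (𝓝 d) := by
    intro g c d hg
    refine (hg.comp Real.tendsto_log_atTop).congr' ?_
    filter_upwards [Ioi_mem_atTop 0] with r hr
    rw [if_neg (not_le.2 hr)]
    rfl
  have hint0 : IntegrableOn (fun r => f' (Real.log r) / r) (Ioi 0) :=
    integrableOn_Ioi_deriv_of_nonneg (hext f a ha) (hder f f' a h1)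
      (fun r hr => div_nonneg (hpos _) (le_of_lt hr)) (hlim f a b hb)
  obtain ⟨B, hB⟩ : ∃ B, ∀ x ∈ Icc a b, ‖u x‖ ≤ B :=
    isCompact_Icc.exists_bound_of_continuousOn hu.continuousOn
  have hlogc : ContinuousOn Real.log (Ioi 0) :=
    Real.continuousOn_log.mono fun r hr => ne_of_gt hr
  have hint : IntegrableOn (fun r => u (f (Real.log r)) * (f' (Real.log r) / r)) (Ioi 0) := by
    refine hint0.bdd_mul (c := B) ?_ ?_
    · exact ((hu.comp hfc).comp_continuousOn hlogc).aestronglyMeasurable measurableSet_Ioi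
    · exact Eventually.of_forall fun r => hB _ ⟨hfa _, hfb _⟩
  refine ⟨hint, ?_⟩
  set U : ℝ → ℝ := fun x => ∫ t in a..x, u t with hU
  have hUd : ∀ x, HasDerivAt U (u x) x := fun x =>
    intervalIntegral.integral_hasDerivAt_right (hu.intervalIntegrable _ _)
      (hu.stronglyMeasurableAtFilter _ _) hu.continuousAt
  have hUc : Continuous U := continuous_iff_continuousAt.2 fun x => (hUd x).continuousAt
  have hg : ∀ τ, HasDerivAt (fun τ => U (f τ)) (u (f τ) * f' τ) τ := fun τ =>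
    (hUd (f τ)).comp τ (h1 τ)
  have hga : Tendsto (fun τ => U (f τ)) atBot (𝓝 (U a)) := (hUc.tendsto a).comp ha
  have hgb : Tendsto (fun τ => U (f τ)) atTop (𝓝 (U b)) := (hUc.tendsto b).comp hb
  have h3 := integral_Ioi_of_hasDerivAt_of_tendsto (hext _ _ hga) (hder _ _ (U a) hg)
    (by simpa only [mul_div_assoc] using hint) (hlim _ (U a) _ hgb)
  simp only [mul_div_assoc, le_refl, if_true] at h3
  rw [h3, hU]
  simp

/-- orbit integral -/
theorem integral_radial (h1 : ∀ τ, HasDerivAt f (f' τ) τ) (hpos : ∀ τ, 0 ≤ f' τ)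
    (hc : Continuous f') (ha : Tendsto f atBot (𝓝 (2 * a))) (hb : Tendsto f atTop (𝓝 (2 * b)))
    {u : ℝ → ℝ} (hu : Continuous u) :
    Integrable (fun c : ℂ => u (f (Real.log ‖c‖) / 2) * (f' (Real.log ‖c‖) / (4 * ‖c‖ ^ 2))) ∧
    ∫ c : ℂ, u (f (Real.log ‖c‖) / 2) * (f' (Real.log ‖c‖) / (4 * ‖c‖ ^ 2)) =
      Real.pi * ∫ x in a..b, u x := by
  have ha' : Tendsto (fun τ => f τ / 2) atBot (𝓝 a) := by
    have := ha.div_const 2
    rwa [mul_div_cancel_left₀ a (two_ne_zero)] at this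
  have hb' : Tendsto (fun τ => f τ / 2) atTop (𝓝 b) := by
    have := hb.div_const 2
    rwa [mul_div_cancel_left₀ b (two_ne_zero)] at this
  obtain ⟨h2, h3⟩ := integral_log_coord (f := fun τ => f τ / 2) (f' := fun τ => f' τ / 2)
    (fun τ => (h1 τ).div_const 2) (fun τ => div_nonneg (hpos τ) zero_le_two)
    (hc.div_const 2) ha' hb' hu
  have hdim : Module.finrank ℝ ℂ = 2 := Complex.finrank_real_complex
  have hvol : (volume : Measure ℂ).real (Metric.ball 0 1) = Real.pi := by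
    rw [Measure.real, Complex.volume_ball]
    simp
  set G : ℝ → ℝ := fun r => u (f (Real.log r) / 2) * (f' (Real.log r) / (4 * r ^ 2)) with hG
  have h4 : ∀ r ∈ Ioi (0 : ℝ), r ^ (Module.finrank ℝ ℂ - 1) • G r =
      1 / 2 * (u (f (Real.log r) / 2) * (f' (Real.log r) / 2 / r)) := by
    intro r hr
    have hr0 : r ≠ 0 := ne_of_gt hr
    rw [hdim, hG, smul_eq_mul]
    field_simp
    norm_num
    ring
  have h5 : IntegrableOn (fun r => r ^ (Module.finrank ℝ ℂ - 1) • G r) (Ioi 0) := by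
    refine IntegrableOn.congr_fun (h2.const_mul (1 / 2)) (fun r hr => ?_) measurableSet_Ioi
    exact (h4 r hr).symm
  constructor
  · exact (integrable_fun_norm_addHaar (volume : Measure ℂ) (f := G)).2 h5
  · have h6 := integral_fun_norm_addHaar (volume : Measure ℂ) G
    rw [setIntegral_congr_fun measurableSet_Ioi h4, integral_const_mul, h3, hvol, hdim] at h6
    rw [h6]
    simp only [nsmul_eq_mul, smul_eq_mul]
    push_cast
    ring

end Radial

end

end Pool.Agent.YTDA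


end

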