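import Pool.Agent.YTDM.P17
import Pool.Agent.YTDM.P37

/- source: Pool.Agent.YTDA.Curve -/

section

/-!
Interfaces: analytic structure on the points of a curve; the surface `Σ` (the blow-up of
`C × ℙ¹` in the points `(y, ∞)`, `y ∈ S`, and `(y, 0)`, `y ∈ S'`) with its line bundle.
-/

namespace Pool.Agent.YTDA

open Complex Set Topology Metric
open Pool.Agent.YTD

noncomputable section

/-- An analytic structure on the set of points of a curve. -/
structure AnCurve {K : Type} [Field K] [Algebra ℂ K] (X : CurveOrd K) where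
  /-- radius of the coordinate disc at `P` -/
  r : X.Pt → ℝ
  r_pos : ∀ P, 0 < r P
  /-- parametrization of the coordinate disc at `P` -/
  c : X.Pt → ℂ → X.Pt
  c_zero : ∀ P, c P 0 = P
  inj : ∀ P, InjOn (c P) (ball 0 (r P))
  /-- local expression of a rational function -/
  fn : X.Pt → K → ℂ → ℂ
  fn_mero : ∀ P z, MeromorphicOn (fn P z) (ball 0 (r P))
  fn_add : ∀ P z w, ∀ s ∈ ball 0 (r P), fn P (z + w) =ᶠ[𝓝[≠] s] fn P z + fn P w
  fn_mul : ∀ P z w, ∀ s ∈ ball 0 (r P), fn P (z * w) =ᶠ[𝓝[≠] s] fn P z * fn P w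
  fn_const : ∀ P (a : ℂ), ∀ s ∈ ball 0 (r P), fn P (algebraMap ℂ K a) =ᶠ[𝓝[≠] s] fun _ => a
  ord : ∀ P z, z ≠ 0 → ∀ s ∈ ball 0 (r P), meromorphicOrderAt (fn P z) s = X.ord (c P s) z
  tr : ∀ P Q, ∀ s ∈ ball 0 (r P), ∀ s' ∈ ball 0 (r Q), c P s = c Q s' → ∃ f : ℂ → ℂ,
    AnalyticAt ℂ f s ∧ f s = s' ∧ deriv f s ≠ 0 ∧ (∀ᶠ σ in 𝓝 s, c Q (f σ) = c P σ) ∧
    ∀ z, (fun σ => fn Q z (f σ)) =ᶠ[𝓝[≠] s] fn P z
  t2 : ∀ P Q, P ≠ Q → ∃ ε > 0, ∀ s s' : ℂ, ‖s‖ < ε → ‖s'‖ < ε → c P s ≠ c Q s'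
  cpt : ∀ ρ : X.Pt → ℝ, (∀ P, 0 < ρ P) →
    ∃ F : Finset X.Pt, ∀ Q, ∃ P ∈ F, ∃ s, ‖s‖ < ρ P ∧ c P s = Q

/-- compatibility of the analytic structure with an automorphism of the curve -/
structure AnCurve.Equiv {K : Type} [Field K] [Algebra ℂ K] {X : CurveOrd K} (An : AnCurve X)
    (θ : K ≃ₐ[ℂ] K) (σ : X.Pt → X.Pt) : Prop where
  r : ∀ P, An.r (σ P) = An.r P
  c : ∀ P, ∀ s ∈ ball 0 (An.r P), An.c (σ P) s = σ (An.c P s)
  fn : ∀ P z, ∀ s ∈ ball 0 (An.r P), An.fn (σ P) (θ z) =ᶠ[𝓝[≠] s] An.fn P z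

/-- `s^d` as a unit, with the convention that it is `1` for `s = 0` -/
def upow (s : ℂ) (d : ℤ) : ℂˣ := if h : s = 0 then 1 else (Units.mk0 s h) ^ d

variable {K : Type} [Field K] [Algebra ℂ K]

/-- the point with coordinate `s` of the disc at `P` is not in `S ∪ S'` (for small discs) -/
def Ok (T : Datum K) (P : T.X.Pt) (s : ℂ) : Prop := s ≠ 0 ∨ (P ∉ T.S ∧ P ∉ T.S')

/-- The surface `Σ` with its line bundle. Charts: at every point `P` of `C` a chart `bot`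
(index `(P, 0)`), a chart `top` (index `(P, 1)`), a chart `mid` (index `(P, 2)`).
`s` is the coordinate of the disc at `P`, `w` the fibre coordinate.
`bot`: `(s, w)`, for `P ∈ S'`: `(s, b)` with `w = s b`.
`top`: `(s, 1/w)`, for `P ∈ S`: `(s, a)` with `1/w = s a`.
`mid`: for `P ∈ S`: `(ζ, e)` with `w = 1/ζ`, `s = ζ e`; for `P ∈ S'`: `(w, e)` with `s = w e`;
empty for the other points.
`o P s w` is the frame (of weight `0`) at the point `(s, w)`, `w ≠ 0`. -/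
structure SigModel (T : Datum K) (q : ℕ) (D₀ : T.X.Pt →₀ ℤ) (An : AnCurve T.X.toCurveOrd) where
  Y : Type
  [inst : MulAction ℂˣ Y]
  A : PolAtlas 2 Y
  D : A.DAct
  cpt : A.IsCpt
  t2 : A.IsT2
  e : T.X.Pt × Fin 3 ≃ A.ι
  r : T.X.Pt → ℝ
  r_pos : ∀ P, 0 < r P
  r_le : ∀ P, r P ≤ An.r P
  iso : ∀ P, ∀ s ∈ ball 0 (r P), s ≠ 0 →
    An.c P s ∉ T.S ∧ An.c P s ∉ T.S' ∧ D₀ (An.c P s) = 0
  U_bot : ∀ P, A.U (e (P, 0)) = {z | ‖z 0‖ < r P}
  U_top : ∀ P, A.U (e (P, 1)) = {z | ‖z 0‖ < r P}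
  U_mid : ∀ P, (P ∈ T.S ∨ P ∈ T.S') → A.U (e (P, 2)) = {z | ‖z 0 * z 1‖ < r P}
  U_mid' : ∀ P, P ∉ T.S → P ∉ T.S' → A.U (e (P, 2)) = ∅
  k_bot : ∀ P, D.k (e (P, 0)) = ![0, 1] ∧ D.m (e (P, 0)) = -5 * q
  k_top : ∀ P, D.k (e (P, 1)) = ![0, -1] ∧ D.m (e (P, 1)) = 5 * q
  k_mid : ∀ P, P ∈ T.S → D.k (e (P, 2)) = ![-1, 1] ∧ D.m (e (P, 2)) = 4 * q
  k_mid' : ∀ P, P ∈ T.S' → D.k (e (P, 2)) = ![1, -1] ∧ D.m (e (P, 2)) = -4 * q
  o : T.X.Pt → ℂ → ℂˣ → Y
  γ_bot : ∀ P, P ∉ T.S' → ∀ s ∈ ball 0 (r P), (s ≠ 0 ∨ P ∉ T.S) → ∀ w : ℂˣ,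
    A.γ (e (P, 0)) ![s, w] = w ^ (5 * (q : ℤ)) • o P s w
  γ_bot' : ∀ P, P ∈ T.S' → ∀ s : ℂˣ, ‖(s : ℂ)‖ < r P → ∀ b : ℂˣ,
    A.γ (e (P, 0)) ![s, b] = ((s * b) ^ (5 * (q : ℤ)) * s ^ (-(q : ℤ))) • o P s (s * b)
  γ_top : ∀ P, P ∉ T.S → ∀ s ∈ ball 0 (r P), (s ≠ 0 ∨ P ∉ T.S') → ∀ z : ℂˣ,
    A.γ (e (P, 1)) ![s, z] = z ^ (5 * (q : ℤ)) • o P s z⁻¹
  γ_top' : ∀ P, P ∈ T.S → ∀ s : ℂˣ, ‖(s : ℂ)‖ < r P → ∀ a : ℂˣ,
    A.γ (e (P, 1)) ![s, a] = ((s * a) ^ (5 * (q : ℤ)) * s ^ (-(q : ℤ))) • o P s (s * a)⁻¹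
  γ_mid : ∀ P, P ∈ T.S → ∀ z f : ℂˣ, ‖(z : ℂ) * f‖ < r P →
    A.γ (e (P, 2)) ![z, f] = z ^ (4 * (q : ℤ)) • o P (z * f) z⁻¹
  γ_mid' : ∀ P, P ∈ T.S' → ∀ w f : ℂˣ, ‖(w : ℂ) * f‖ < r P →
    A.γ (e (P, 2)) ![w, f] = w ^ (4 * (q : ℤ)) • o P (w * f) w
  act_o : ∀ P, ∀ s ∈ ball 0 (r P), Ok T P s → ∀ c w : ℂˣ,
    D.act c (o P s w) = o P s (c * w)
  o_tr : ∀ P Q, ∀ s ∈ ball 0 (r P), ∀ s' ∈ ball 0 (r Q), Ok T P s →
    Ok T Q s' → An.c P s = An.c Q s' → ∀ w : ℂˣ,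
    o Q s' w = (upow s' (D₀ Q) / upow s (D₀ P)) • o P s w
  o_inj : ∀ P Q, ∀ s ∈ ball 0 (r P), ∀ s' ∈ ball 0 (r Q), Ok T P s →
    Ok T Q s' → ∀ w w' c : ℂˣ, o P s w = c • o Q s' w' →
    An.c P s = An.c Q s' ∧ w = w'
  /-- automorphisms of the curve preserving `S`, `S'`, `D₀` -/
  sym : ∀ (θ : K ≃ₐ[ℂ] K) (σ : T.X.Pt → T.X.Pt), An.Equiv θ σ → (∀ P, σ (σ P) = P) →
    (∀ P, r (σ P) = r P) → (∀ P, D₀ (σ P) = D₀ P) → (∀ P, P ∈ T.S ↔ σ P ∈ T.S) →
    (∀ P, P ∈ T.S' ↔ σ P ∈ T.S') → ∃ f : Y → Y, (∀ (c : ℂˣ) y, f (c • y) = c • f y) ∧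
    (∀ (c : ℂˣ) y, f (D.act c y) = D.act c (f y)) ∧
    ∀ P i, ∀ z ∈ A.U (e (P, i)), f (A.γ (e (P, i)) z) = A.γ (e (σ P, i)) z
  /-- automorphisms of the curve exchanging `S` and `S'` -/
  swap : ∀ (θ : K ≃ₐ[ℂ] K) (σ : T.X.Pt → T.X.Pt), An.Equiv θ σ → (∀ P, σ (σ P) = P) →
    (∀ P, r (σ P) = r P) → (∀ P, D₀ (σ P) = D₀ P) → (∀ P, P ∈ T.S ↔ σ P ∈ T.S') →
    ∃ f : Y → Y, (∀ (c : ℂˣ) y, f (c • y) = c • f y) ∧
    (∀ (c : ℂˣ) y, f (D.act c y) = D.act c⁻¹ (f y)) ∧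
    (∀ P, ∀ z ∈ A.U (e (P, 0)), f (A.γ (e (P, 0)) z) = A.γ (e (σ P, 1)) z) ∧
    (∀ P, ∀ z ∈ A.U (e (P, 1)), f (A.γ (e (P, 1)) z) = A.γ (e (σ P, 0)) z) ∧
    ∀ P, ∀ z ∈ A.U (e (P, 2)), f (A.γ (e (P, 2)) z) = A.γ (e (σ P, 2)) z

attribute [instance] SigModel.inst

end

end Pool.Agent.YTDA


end

/- source: Pool.Agent.YTDA.Rg -/

section

/-!
# Regular values of rational functions on an analytic curve

`An.rg P z e s` is the value at `s` of the analytic function given by `fn P z s * s ^ e`.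
-/

namespace Pool.Agent.YTDA

open Complex Set Topology Metric Filter
open Pool.Agent.YTD

noncomputable section

namespace AnCurve

variable {K : Type} [Field K] [Algebra ℂ K] {X : CurveOrd K} (An : AnCurve X)

/-- local expression of `z` times a power of the coordinate -/
def pf (P : X.Pt) (z : K) (e : ℤ) (s : ℂ) : ℂ := An.fn P z s * s ^ e

/-- the analytic function given by `pf` -/
def rg (P : X.Pt) (z : K) (e : ℤ) : ℂ → ℂ :=
  toMeromorphicNFOn (An.pf P z e) (ball 0 (An.r P))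

/-- regularity at a point -/
def Reg (P : X.Pt) (z : K) (e : ℤ) (s : ℂ) : Prop := 0 ≤ meromorphicOrderAt (An.pf P z e) s

variable {An}

theorem mero_zpow (e : ℤ) (s : ℂ) : MeromorphicAt (fun t : ℂ => t ^ e) s :=
  (MeromorphicAt.id s).fun_zpow e

theorem mero_pf (P : X.Pt) (z : K) (e : ℤ) : MeromorphicOn (An.pf P z e) (ball 0 (An.r P)) :=
  fun s hs => (An.fn_mero P z s hs).fun_mul (mero_zpow e s)

theorem rg_eq {P : X.Pt} {z : K} {e : ℤ} {s : ℂ} (hs : s ∈ ball 0 (An.r P)) :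
    An.rg P z e =ᶠ[𝓝[≠] s] An.pf P z e :=
  MeromorphicOn.toMeromorphicNFOn_eq_self_on_nhdsNE (mero_pf P z e) hs

theorem order_zpow_zero (e : ℤ) : meromorphicOrderAt (fun t : ℂ => t ^ e) 0 = e := by
  rw [meromorphicOrderAt_eq_int_iff (mero_zpow e 0)]
  exact ⟨fun _ => 1, analyticAt_const, one_ne_zero, Eventually.of_forall fun t => by simp⟩

theorem order_zpow_ne (e : ℤ) {s : ℂ} (hs : s ≠ 0) :
    meromorphicOrderAt (fun t : ℂ => t ^ e) s = 0 := by
  have h1 : AnalyticAt ℂ (fun t : ℂ => t ^ e) s := by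
    exact analyticAt_id.fun_zpow hs
  rw [h1.meromorphicOrderAt_eq, h1.analyticOrderAt_eq_zero.2 (zpow_ne_zero e hs)]
  rfl

theorem ord_pf_zero {P : X.Pt} {z : K} (hz : z ≠ 0) (e : ℤ) :
    meromorphicOrderAt (An.pf P z e) 0 = ((X.ord P z + e : ℤ) : WithTop ℤ) := by
  have h0 : (0 : ℂ) ∈ ball (0 : ℂ) (An.r P) := mem_ball_self (An.r_pos P)
  have h1 : An.pf P z e = An.fn P z * fun t : ℂ => t ^ e := rfl
  rw [h1, meromorphicOrderAt_mul (An.fn_mero P z 0 h0) (mero_zpow e 0), order_zpow_zero,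
    An.ord P z hz 0 h0, An.c_zero]
  rfl

theorem ord_pf_ne {P : X.Pt} {z : K} (hz : z ≠ 0) (e : ℤ) {s : ℂ} (hs : s ∈ ball 0 (An.r P))
    (h0 : s ≠ 0) : meromorphicOrderAt (An.pf P z e) s = X.ord (An.c P s) z := by
  have h1 : An.pf P z e = An.fn P z * fun t : ℂ => t ^ e := rfl
  rw [h1, meromorphicOrderAt_mul (An.fn_mero P z s hs) (mero_zpow e s), order_zpow_ne e h0,
    An.ord P z hz s hs, add_zero]

theorem pf_zero_eventually {P : X.Pt} (e : ℤ) {s : ℂ} (hs : s ∈ ball 0 (An.r P)) :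
    An.pf P 0 e =ᶠ[𝓝[≠] s] 0 := by
  have h := An.fn_const P 0 s hs
  rw [map_zero] at h
  filter_upwards [h] with t ht
  rw [pf, ht, zero_mul]
  rfl

theorem reg_zero {P : X.Pt} (e : ℤ) {s : ℂ} (hs : s ∈ ball 0 (An.r P)) : An.Reg P 0 e s := by
  have h : meromorphicOrderAt (An.pf P 0 e) s = ⊤ :=
    meromorphicOrderAt_eq_top_iff.2 (pf_zero_eventually e hs)
  rw [Reg, h]
  exact le_top

theorem analyticAt_rg {P : X.Pt} {z : K} {e : ℤ} {s : ℂ} (hs : s ∈ ball 0 (An.r P))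
    (h : An.Reg P z e s) : AnalyticAt ℂ (An.rg P z e) s := by
  have h1 : MeromorphicNFAt (An.rg P z e) s := meromorphicNFOn_toMeromorphicNFOn _ _ hs
  rw [← h1.meromorphicOrderAt_nonneg_iff_analyticAt, meromorphicOrderAt_congr (rg_eq hs)]
  exact h

/-- uniqueness of the regular value -/
theorem rg_unique {P : X.Pt} {z : K} {e : ℤ} {s : ℂ} (hs : s ∈ ball 0 (An.r P))
    (h : An.Reg P z e s) {g : ℂ → ℂ} (hg : ContinuousAt g s)
    (hgf : g =ᶠ[𝓝[≠] s] An.pf P z e) : An.rg P z e s = g s := by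
  have h1 : Tendsto (An.rg P z e) (𝓝[≠] s) (𝓝 (An.rg P z e s)) :=
    (analyticAt_rg hs h).continuousAt.continuousWithinAt
  have h2 : Tendsto g (𝓝[≠] s) (𝓝 (g s)) := hg.continuousWithinAt
  exact tendsto_nhds_unique (h1.congr' ((rg_eq hs).trans hgf.symm)) h2

theorem Reg.of_eventuallyEq {P : X.Pt} {z : K} {e : ℤ} {s : ℂ} {g : ℂ → ℂ}
    (hg : AnalyticAt ℂ g s) (hgf : g =ᶠ[𝓝[≠] s] An.pf P z e) : An.Reg P z e s := by
  rw [Reg, ← meromorphicOrderAt_congr hgf]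
  exact hg.meromorphicOrderAt_nonneg

theorem reg_add {P : X.Pt} {z w : K} {e : ℤ} {s : ℂ} (hs : s ∈ ball 0 (An.r P))
    (hz : An.Reg P z e s) (hw : An.Reg P w e s) : An.Reg P (z + w) e s ∧
      An.rg P (z + w) e s = An.rg P z e s + An.rg P w e s := by
  have h1 : (fun t => An.rg P z e t + An.rg P w e t) =ᶠ[𝓝[≠] s] An.pf P (z + w) e := by
    filter_upwards [rg_eq hs (z := z) (e := e), rg_eq hs (z := w) (e := e),
      An.fn_add P z w s hs] with t h1 h2 h3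
    rw [h1, h2, pf, pf, pf, h3, Pi.add_apply, add_mul]
  have h2 := (analyticAt_rg hs hz).add (analyticAt_rg hs hw)
  have h3 : An.Reg P (z + w) e s := Reg.of_eventuallyEq h2 h1
  exact ⟨h3, rg_unique hs h3 h2.continuousAt h1⟩

theorem reg_mul {P : X.Pt} {z w : K} {e e' : ℤ} {s : ℂ} (hs : s ∈ ball 0 (An.r P))
    (hz : An.Reg P z e s) (hw : An.Reg P w e' s) : An.Reg P (z * w) (e + e') s ∧
      An.rg P (z * w) (e + e') s = An.rg P z e s * An.rg P w e' s := by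
  have h1 : (fun t => An.rg P z e t * An.rg P w e' t) =ᶠ[𝓝[≠] s] An.pf P (z * w) (e + e') := by
    have hne : ∀ᶠ t in 𝓝[≠] s, t ≠ 0 := by
      rcases eq_or_ne s 0 with rfl | h0
      · exact eventually_mem_nhdsWithin
      · exact (isOpen_ne.mem_nhds h0 : {t : ℂ | t ≠ 0} ∈ 𝓝 s) |> fun h =>
          mem_nhdsWithin_of_mem_nhds h
    filter_upwards [rg_eq hs (z := z) (e := e), rg_eq hs (z := w) (e := e'),
      An.fn_mul P z w s hs, hne] with t h1 h2 h3 h4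
    rw [h1, h2, pf, pf, pf, h3, Pi.mul_apply, zpow_add₀ h4]
    ring
  have h2 := (analyticAt_rg hs hz).mul (analyticAt_rg hs hw)
  have h3 : An.Reg P (z * w) (e + e') s := Reg.of_eventuallyEq h2 h1
  exact ⟨h3, rg_unique hs h3 h2.continuousAt h1⟩

theorem reg_const {P : X.Pt} (a : ℂ) {s : ℂ} (hs : s ∈ ball 0 (An.r P)) :
    An.Reg P (algebraMap ℂ K a) 0 s ∧ An.rg P (algebraMap ℂ K a) 0 s = a := by
  have h1 : (fun _ => a) =ᶠ[𝓝[≠] s] An.pf P (algebraMap ℂ K a) 0 := by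
    filter_upwards [An.fn_const P a s hs] with t h1
    rw [pf, h1, zpow_zero, mul_one]
  have h3 : An.Reg P (algebraMap ℂ K a) 0 s := Reg.of_eventuallyEq analyticAt_const h1
  exact ⟨h3, rg_unique hs h3 continuousAt_const h1⟩

theorem reg_smul {P : X.Pt} {z : K} {e : ℤ} (a : ℂ) {s : ℂ} (hs : s ∈ ball 0 (An.r P))
    (hz : An.Reg P z e s) : An.Reg P (a • z) e s ∧ An.rg P (a • z) e s = a * An.rg P z e s := by
  obtain ⟨h1, h2⟩ := reg_const (An := An) (P := P) a hs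
  obtain ⟨h3, h4⟩ := reg_mul hs h1 hz
  rw [zero_add] at h3 h4
  rw [Algebra.smul_def]
  exact ⟨h3, by rw [h4, h2]⟩

theorem rg_shift {P : X.Pt} {z : K} {e : ℤ} (m : ℤ) {s : ℂ} (hs : s ∈ ball 0 (An.r P))
    (h0 : s ≠ 0) (hz : An.Reg P z e s) : An.rg P z (e + m) s = An.rg P z e s * s ^ m := by
  have hne : ∀ᶠ t in 𝓝[≠] s, t ≠ 0 := mem_nhdsWithin_of_mem_nhds (isOpen_ne.mem_nhds h0)
  have h1 : (fun t => An.rg P z e t * t ^ m) =ᶠ[𝓝[≠] s] An.pf P z (e + m) := by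
    filter_upwards [rg_eq hs (z := z) (e := e), hne] with t h1 h2
    rw [h1, pf, pf, zpow_add₀ h2]
    ring
  have h2 : AnalyticAt ℂ (fun t : ℂ => t ^ m) s := analyticAt_id.fun_zpow h0
  have h3 := (analyticAt_rg hs hz).mul h2
  exact rg_unique hs (Reg.of_eventuallyEq h3 h1) h3.continuousAt h1

/-- the value is non-zero exactly if the order is zero -/
theorem rg_ne_zero_iff {P : X.Pt} {z : K} {e : ℤ} {s : ℂ} (hs : s ∈ ball 0 (An.r P))
    (h : An.Reg P z e s) : An.rg P z e s ≠ 0 ↔ meromorphicOrderAt (An.pf P z e) s = 0 := by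
  have h1 := analyticAt_rg hs h
  rw [← meromorphicOrderAt_congr (rg_eq hs), h1.meromorphicOrderAt_eq]
  constructor
  · intro h2
    rw [h1.analyticOrderAt_eq_zero.2 h2]
    rfl
  · intro h2
    apply h1.analyticOrderAt_eq_zero.1
    cases h3 : analyticOrderAt (An.rg P z e) s with
    | top => rw [h3] at h2; simp at h2
    | coe m =>
      rw [h3] at h2
      simp only [ENat.map_natCast] at h2
      have h4 : (m : ℤ) = 0 := by exact_mod_cast h2
      have h5 : m = 0 := by exact_mod_cast h4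
      rw [h5]
      rfl

/-- order one: the derivative is non-zero -/
theorem deriv_rg_ne_zero {P : X.Pt} {z : K} {e : ℤ} {s : ℂ} (hs : s ∈ ball 0 (An.r P))
    (h : meromorphicOrderAt (An.pf P z e) s = 1) :
    An.rg P z e s = 0 ∧ deriv (An.rg P z e) s ≠ 0 := by
  have hreg : An.Reg P z e s := by rw [Reg, h]; exact zero_le_one
  have h1 := analyticAt_rg hs hreg
  have h2 : analyticOrderAt (An.rg P z e) s = 1 := by
    rw [← meromorphicOrderAt_congr (rg_eq hs), h1.meromorphicOrderAt_eq] at h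
    cases h3 : analyticOrderAt (An.rg P z e) s with
    | top => rw [h3] at h; simp at h
    | coe m =>
      rw [h3] at h
      simp only [ENat.map_natCast] at h
      have h4 : (m : ℤ) = 1 := by exact_mod_cast h
      have h5 : m = 1 := by exact_mod_cast h4
      rw [h5]
      rfl
  refine ⟨?_, ?_⟩
  · exact h1.analyticOrderAt_ne_zero.1 (by rw [h2]; exact one_ne_zero)
  · have h3 := (h1.analyticOrderAt_eq_natCast (n := 1)).1 (by rw [h2]; rfl)
    obtain ⟨g, hg, hg0, hgf⟩ := h3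
    have h4 : An.rg P z e =ᶠ[𝓝 s] fun t => (t - s) * g t := by
      filter_upwards [hgf] with t ht
      rw [ht, pow_one, smul_eq_mul]
    rw [h4.deriv_eq]
    have h5 : HasDerivAt (fun t => (t - s) * g t) (1 * g s + (s - s) * deriv g s) s :=
      ((hasDerivAt_id s).sub_const s).mul hg.differentiableAt.hasDerivAt
    rw [h5.deriv]
    simpa using hg0

end AnCurve

end

end Pool.Agent.YTDA


end

/- source: Pool.Agent.YTDA.P1Map -/

section

/-!
# Holomorphic maps between bundles over the projective line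

`HolAt A F z`: the map `F : ℂᵐ → Y` is holomorphic at `z`.
`P1At P`: the atlas `P` of `P1Y D α β` consists of the charts
`z ↦ [γ_a (init z), vec b (last z)]`.
-/

namespace Pool.Agent.YTDA

open Complex Set Topology Filter

noncomputable section

variable {n m : ℕ} {Y Y' : Type} [MulAction ℂˣ Y] [MulAction ℂˣ Y']

/-- The map `F : ℂᵐ → Y` is holomorphic at `z`. -/
def HolAt (A : PolAtlas n Y) (F : E m → Y) (z : E m) : Prop :=
  ∃ a, ∃ t : E m → E n, ∃ g : E m → ℂˣ, AnalyticAt ℂ t z ∧ AnalyticAt ℂ (fun ζ => (g ζ : ℂ)) z ∧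
    t z ∈ A.U a ∧ ∀ᶠ ζ in 𝓝 z, F ζ = g ζ • A.γ a (t ζ)

theorem analyticAt_unit_inv {g : E m → ℂˣ} {z : E m} (hg : AnalyticAt ℂ (fun ζ => (g ζ : ℂ)) z) :
    AnalyticAt ℂ (fun ζ => (((g ζ)⁻¹ : ℂˣ) : ℂ)) z := by
  have : AnalyticAt ℂ (fun ζ => ((g ζ : ℂ))⁻¹) z := hg.inv (g z).ne_zero
  simpa only [Units.val_inv_eq_inv_val] using this

theorem analyticAt_unit_mul {g h : E m → ℂˣ} {z : E m}
    (hg : AnalyticAt ℂ (fun ζ => (g ζ : ℂ)) z) (hh : AnalyticAt ℂ (fun ζ => (h ζ : ℂ)) z) :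
    AnalyticAt ℂ (fun ζ => ((g ζ * h ζ : ℂˣ) : ℂ)) z := by
  simpa only [Units.val_mul] using hg.fun_mul hh

theorem analyticAt_unit_zpow {g : E m → ℂˣ} {z : E m} (hg : AnalyticAt ℂ (fun ζ => (g ζ : ℂ)) z)
    (k : ℤ) : AnalyticAt ℂ (fun ζ => (((g ζ) ^ k : ℂˣ) : ℂ)) z := by
  simpa only [Units.val_zpow_eq_zpow_val] using hg.fun_zpow (g z).ne_zero (n := k)

variable {A : PolAtlas n Y} {B : PolAtlas n Y'} {F G : E m → Y} {z : E m}

theorem HolAt.congr (hF : HolAt A F z) (h : ∀ᶠ ζ in 𝓝 z, G ζ = F ζ) : HolAt A G z := by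
  obtain ⟨a, t, g, ht, hg, hz, he⟩ := hF
  refine ⟨a, t, g, ht, hg, hz, ?_⟩
  filter_upwards [h, he] with ζ h1 h2
  rw [h1, h2]

theorem holAt_frame (A : PolAtlas n Y) {a : A.ι} {t : E m → E n} (ht : AnalyticAt ℂ t z)
    (hz : t z ∈ A.U a) : HolAt A (fun ζ => A.γ a (t ζ)) z :=
  ⟨a, t, fun _ => 1, ht, analyticAt_const, hz, Eventually.of_forall fun _ => (one_smul _ _).symm⟩

theorem HolAt.smul (hF : HolAt A F z) {g : E m → ℂˣ} (hg : AnalyticAt ℂ (fun ζ => (g ζ : ℂ)) z) :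
    HolAt A (fun ζ => g ζ • F ζ) z := by
  obtain ⟨a, t, h, ht, hh, hz, he⟩ := hF
  refine ⟨a, t, fun ζ => g ζ * h ζ, ht, analyticAt_unit_mul hg hh, hz, ?_⟩
  filter_upwards [he] with ζ h1
  rw [h1, smul_smul]

theorem IsHol.holAt {f : Y → Y'} (hf : IsHol A B f) (hF : HolAt A F z) :
    HolAt B (fun ζ => f (F ζ)) z := by
  obtain ⟨a, t, h, ht, hh, hz, he⟩ := hF
  obtain ⟨b, z', hz', s, g, hs, hg, hs', he'⟩ := hf.loc a (t z) hz
  refine ⟨b, fun ζ => s (t ζ), fun ζ => h ζ * (g (t ζ))⁻¹, hs.comp ht, ?_, ?_, ?_⟩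
  · refine analyticAt_unit_mul hh (analyticAt_unit_inv ?_)
    exact AnalyticAt.comp (g := fun ζ => ((g ζ : ℂˣ) : ℂ)) (f := t) hg ht
  · simpa only [hs'] using hz'
  · filter_upwards [he, ht.continuousAt.eventually he'] with ζ h1 h2
    rw [h1, hf.smul, h2, smul_smul, inv_mul_cancel_right]

theorem isHol_of_holAt {f : Y → Y'} (hs : ∀ (c : ℂˣ) y, f (c • y) = c • f y)
    (h : ∀ a, ∀ z ∈ A.U a, HolAt B (fun ζ => f (A.γ a ζ)) z) : IsHol A B f := by
  refine ⟨hs, fun a z hz => ?_⟩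
  obtain ⟨b, t, g, ht, hg, hz', he⟩ := h a z hz
  refine ⟨b, t z, hz', t, fun ζ => (g ζ)⁻¹, ht, analyticAt_unit_inv hg, rfl, ?_⟩
  filter_upwards [he] with ζ h1
  rw [h1, inv_smul_smul]

theorem analyticAt_dact {k : Fin n → ℤ} {g : E m → ℂˣ} {t : E m → E n}
    (hg : AnalyticAt ℂ (fun ζ => (g ζ : ℂ)) z) (ht : AnalyticAt ℂ t z) :
    AnalyticAt ℂ (fun ζ => dact k (g ζ) (t ζ)) z := by
  rw [analyticAt_pi_iff]
  intro j
  unfold dact
  exact (analyticAt_unit_zpow hg (k j)).fun_mul ((analyticAt_pi_iff.1 ht) j)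

theorem HolAt.act (D : A.DAct) (hF : HolAt A F z) {g : E m → ℂˣ}
    (hg : AnalyticAt ℂ (fun ζ => (g ζ : ℂ)) z) : HolAt A (fun ζ => D.act (g ζ) (F ζ)) z := by
  obtain ⟨a, t, h, ht, hh, hz, he⟩ := hF
  refine ⟨a, fun ζ => dact (D.k a) (g ζ) (t ζ), fun ζ => h ζ * (g ζ) ^ D.m a,
    analyticAt_dact hg ht, analyticAt_unit_mul hh (analyticAt_unit_zpow hg _),
    D.dom a _ hz _, ?_⟩
  filter_upwards [he, ht.continuousAt.eventually ((A.isOpen_U a).mem_nhds hz)] with ζ h1 h2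
  rw [h1, D.act_smul, D.act_γ a _ h2, smul_smul]

/-- The actions in the definition of `DAct` are holomorphic. -/
theorem PolAtlas.DAct.isHol (D : A.DAct) (c : ℂˣ) : IsHol A A (D.act c) :=
  isHol_of_holAt (fun _ _ => D.act_smul _ _ _) fun _ _ hz =>
    (holAt_frame A analyticAt_id hz).act D analyticAt_const

theorem PolAtlas.DAct.isBihol (D : A.DAct) (c : ℂˣ) : IsBihol A A (D.act c) :=
  (D.isHol c).isBihol (D.isHol c⁻¹) fun y => by
    rw [← D.act_mul, inv_mul_cancel, D.act_one]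

/-! ### Bundles over the projective line -/

variable {D : A.DAct} {α β : ℤ}

/-- The atlas of `P1Y D α β` consists of the charts `z ↦ [γ_a (init z), vec b (last z)]`. -/
structure P1At (P : PolAtlas (n + 1) (P1Y D α β)) : Prop where
  chart : ∀ i, ∃ a b, P.U i = {z | (fun j => z (Fin.castSucc j)) ∈ A.U a} ∧
    ∀ z ∈ P.U i, P.γ i z = P1Y.mk (A.γ a fun j => z (Fin.castSucc j)) (vec b (z (Fin.last n)))
  exists_chart : ∀ a b, ∃ i, P.U i = {z | (fun j => z (Fin.castSucc j)) ∈ A.U a} ∧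
    ∀ z ∈ P.U i, P.γ i z = P1Y.mk (A.γ a fun j => z (Fin.castSucc j)) (vec b (z (Fin.last n)))

theorem V2.ext_iff' {x x' : V2} : x = x' ↔ x.1 0 = x'.1 0 ∧ x.1 1 = x'.1 1 := by
  constructor
  · rintro rfl
    exact ⟨rfl, rfl⟩
  · rintro ⟨h0, h1⟩
    apply Subtype.ext
    funext i
    fin_cases i
    · exact h0
    · exact h1

theorem V2.ne_or (x : V2) : x.1 0 ≠ 0 ∨ x.1 1 ≠ 0 := by
  by_contra h
  push Not at h
  apply x.2
  funext i
  fin_cases i
  · exact h.1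
  · exact h.2

/-- A nonvanishing family of vectors is locally a multiple of a standard family. -/
theorem exists_vec {v : E m → V2} (hv : AnalyticAt ℂ (fun ζ => (v ζ : Fin 2 → ℂ)) z) :
    ∃ b, ∃ c : E m → ℂˣ, ∃ u : E m → ℂ, AnalyticAt ℂ (fun ζ => (c ζ : ℂ)) z ∧
      AnalyticAt ℂ u z ∧ ∀ᶠ ζ in 𝓝 z, v ζ = c ζ • vec b (u ζ) := by
  classical
  have hv' := analyticAt_pi_iff.1 hv
  rcases (v z).ne_or with h | h
  · have he : ∀ᶠ ζ in 𝓝 z, (v ζ).1 0 ≠ 0 := (hv' 0).continuousAt.eventually_ne h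
    refine ⟨false, fun ζ => if h : (v ζ).1 0 = 0 then 1 else Units.mk0 _ h,
      fun ζ => (v ζ).1 1 / (v ζ).1 0, ?_, (hv' 1).fun_div (hv' 0) h, ?_⟩
    · refine (hv' 0).congr ?_
      filter_upwards [he] with ζ h1
      rw [dif_neg h1]
      rfl
    · filter_upwards [he] with ζ h1
      rw [dif_neg h1, V2.ext_iff', V2.coe_smul, vec_false]
      constructor
      · simp
      · simp [mul_div_cancel₀ _ h1]
  · have he : ∀ᶠ ζ in 𝓝 z, (v ζ).1 1 ≠ 0 := (hv' 1).continuousAt.eventually_ne h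
    refine ⟨true, fun ζ => if h : (v ζ).1 1 = 0 then 1 else Units.mk0 _ h,
      fun ζ => (v ζ).1 0 / (v ζ).1 1, ?_, (hv' 0).fun_div (hv' 1) h, ?_⟩
    · refine (hv' 1).congr ?_
      filter_upwards [he] with ζ h1
      rw [dif_neg h1]
      rfl
    · filter_upwards [he] with ζ h1
      rw [dif_neg h1, V2.ext_iff', V2.coe_smul, vec_true]
      constructor
      · simp [mul_div_cancel₀ _ h1]
      · simp

theorem HolAt.mk {P : PolAtlas (n + 1) (P1Y D α β)} (hP : P1At P) (hF : HolAt A F z)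
    {v : E m → V2} (hv : AnalyticAt ℂ (fun ζ => (v ζ : Fin 2 → ℂ)) z) :
    HolAt P (fun ζ => (P1Y.mk (F ζ) (v ζ) : P1Y D α β)) z := by
  obtain ⟨b, c, u, hc, hu, he⟩ := exists_vec hv
  have hG : HolAt A (fun ζ => (c ζ) ^ α • D.act ((c ζ) ^ β) (F ζ)) z :=
    (hF.act D (analyticAt_unit_zpow hc β)).smul (analyticAt_unit_zpow hc α)
  obtain ⟨a, t, g, ht, hg, hz, he'⟩ := hG
  obtain ⟨i, hU, hγ⟩ := hP.exists_chart a b
  refine ⟨i, fun ζ => (Fin.snoc (t ζ) (u ζ) : E (n + 1)), g, ?_, hg, ?_, ?_⟩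
  · rw [analyticAt_pi_iff]
    intro j
    refine Fin.lastCases ?_ (fun j => ?_) j
    · simpa only [Fin.snoc_last] using hu
    · simpa only [Fin.snoc_castSucc] using (analyticAt_pi_iff.1 ht) j
  · rw [hU]
    simpa only [mem_setOf_eq, Fin.snoc_castSucc] using hz
  · filter_upwards [he, he', ht.continuousAt.eventually ((A.isOpen_U a).mem_nhds hz)]
      with ζ h1 h2 h3
    rw [h1, P1Y.mk_smul, h2, hγ]
    · simp only [Fin.snoc_castSucc, Fin.snoc_last]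
      rfl
    · rw [hU]
      have h4 : t ζ ∈ A.U a := h3
      simpa only [mem_setOf_eq, Fin.snoc_castSucc] using h4

theorem analyticAt_castSucc (z : E (n + 1)) :
    AnalyticAt ℂ (fun ζ : E (n + 1) => (fun j => ζ (Fin.castSucc j) : E n)) z := by
  rw [analyticAt_pi_iff]
  intro j
  exact (ContinuousLinearMap.proj (R := ℂ) (φ := fun _ : Fin (n + 1) => ℂ)
    (Fin.castSucc j)).analyticAt z

theorem analyticAt_coord (i : Fin m) (z : E m) : AnalyticAt ℂ (fun ζ : E m => ζ i) z :=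
  (ContinuousLinearMap.proj (R := ℂ) (φ := fun _ : Fin m => ℂ) i).analyticAt z

theorem analyticAt_vec {b : Bool} {u : E m → ℂ} (hu : AnalyticAt ℂ u z) :
    AnalyticAt ℂ (fun ζ => (vec b (u ζ) : Fin 2 → ℂ)) z := by
  rw [analyticAt_pi_iff]
  intro j
  cases b
  · fin_cases j
    · exact analyticAt_const
    · exact hu
  · fin_cases j
    · exact hu
    · exact analyticAt_const

/-- Holomorphy of a map on `P1Y` follows from holomorphy of `(y, x) ↦ f [y, x]`. -/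
theorem P1At.isHol {Z : Type} [MulAction ℂˣ Z] {C : PolAtlas (n + 1) Z}
    {P : PolAtlas (n + 1) (P1Y D α β)} (hP : P1At P) {f : P1Y D α β → Z}
    (hs : ∀ (c : ℂˣ) y x, f (P1Y.mk (c • y) x) = c • f (P1Y.mk y x))
    (hf : ∀ (a : A.ι) (b : Bool), ∀ z : E (n + 1), (fun j => z (Fin.castSucc j)) ∈ A.U a →
      HolAt C (fun ζ : E (n + 1) => f (P1Y.mk (A.γ a fun j => ζ (Fin.castSucc j))
        (vec b (ζ (Fin.last n))))) z) : IsHol P C f := by
  refine isHol_of_holAt (fun c p => ?_) fun i z hz => ?_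
  · obtain ⟨y, x, rfl⟩ := P1Y.exists_mk p
    rw [P1Y.smul_mk, hs]
  · obtain ⟨a, b, hU, hγ⟩ := hP.chart i
    have hz' := hz
    rw [hU] at hz'
    refine (hf a b z hz').congr ?_
    filter_upwards [(P.isOpen_U i).mem_nhds hz] with ζ hζ
    rw [hγ ζ hζ]

end

end Pool.Agent.YTDA


end

/- source: Pool.Agent.YTDA.SigA -/

section

/-!
The surface `Σ` with its line bundle: points and charts.
-/

namespace Pool.Agent.YTDA

open Complex Set Topology Metric Filter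
open Pool.Agent.YTD

noncomputable section

/-- a nonzero complex number as a unit (`1` for `0`) -/
def un (z : ℂ) : ℂˣ := if h : z = 0 then 1 else Units.mk0 z h

theorem un_zero : un 0 = 1 := dif_pos rfl

theorem un_ne {z : ℂ} (h : z ≠ 0) : ((un z : ℂˣ) : ℂ) = z := by
  unfold un
  rw [dif_neg h, Units.val_mk0]

theorem un_coe (u : ℂˣ) : un (u : ℂ) = u := by
  apply Units.ext
  exact un_ne u.ne_zero

theorem un_mul {z w : ℂ} (hz : z ≠ 0) (hw : w ≠ 0) : un (z * w) = un z * un w := by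
  apply Units.ext
  rw [un_ne (mul_ne_zero hz hw), Units.val_mul, un_ne hz, un_ne hw]

theorem un_inv (z : ℂ) : un z⁻¹ = (un z)⁻¹ := by
  by_cases hz : z = 0
  · rw [hz, inv_zero, un_zero, inv_one]
  · apply Units.ext
    rw [un_ne (inv_ne_zero hz), Units.val_inv_eq_inv_val, un_ne hz]

theorem upow_eq (s : ℂ) (d : ℤ) : upow s d = un s ^ d := by
  unfold upow un
  by_cases h : s = 0
  · rw [dif_pos h, dif_pos h, one_zpow]
  · rw [dif_neg h, dif_neg h]

theorem upow_zero_right (s : ℂ) : upow s 0 = 1 := by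
  rw [upow_eq, zpow_zero]

theorem upow_zero_left (d : ℤ) : upow 0 d = 1 := by
  rw [upow_eq, un_zero, one_zpow]

theorem an_coord (i : Fin 2) (z : E 2) : AnalyticAt ℂ (fun ζ : E 2 => ζ i) z :=
  (ContinuousLinearMap.proj (R := ℂ) (φ := fun _ : Fin 2 => ℂ) i).analyticAt z

theorem an_vec {a b : E 2 → ℂ} {z : E 2} (ha : AnalyticAt ℂ a z) (hb : AnalyticAt ℂ b z) :
    AnalyticAt ℂ (fun ζ => (![a ζ, b ζ] : E 2)) z := by
  have : (fun ζ => (![a ζ, b ζ] : E 2)) = fun ζ i => (![a, b] : Fin 2 → E 2 → ℂ) i ζ := by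
    funext ζ i
    fin_cases i <;> rfl
  rw [this]
  apply AnalyticAt.pi
  intro i
  fin_cases i
  · exact ha
  · exact hb

theorem an_un {m : ℕ} {h : E m → ℂ} {z : E m} (hh : AnalyticAt ℂ h z) (h0 : h z ≠ 0) (d : ℤ) :
    AnalyticAt ℂ (fun ζ => ((un (h ζ) ^ d : ℂˣ) : ℂ)) z := by
  have h1 : AnalyticAt ℂ (fun ζ => h ζ ^ d) z := hh.fun_zpow h0
  refine h1.congr ?_
  filter_upwards [hh.continuousAt.eventually_ne h0] with ζ hζ
  rw [Units.val_zpow_eq_zpow_val, un_ne hζ]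

/-- fibre coordinate of a side: `w` at the bottom, `1/w` at the top -/
def uw (σ : Bool) (w : ℂˣ) : ℂˣ := if σ then w⁻¹ else w

theorem uw_false (w : ℂˣ) : uw false w = w := rfl

theorem uw_true (w : ℂˣ) : uw true w = w⁻¹ := rfl

theorem uw_mul (σ : Bool) (w w' : ℂˣ) : uw σ (w * w') = uw σ w * uw σ w' := by
  cases σ
  · rfl
  · exact mul_inv w w'

theorem uw_inv (σ : Bool) (w : ℂˣ) : uw σ w⁻¹ = (uw σ w)⁻¹ := by
  cases σ <;> rfl

theorem uw_not (σ : Bool) (w : ℂˣ) : uw (!σ) w = (uw σ w)⁻¹ := by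
  cases σ
  · rfl
  · exact (inv_inv w).symm

theorem uw_uw (σ : Bool) (w : ℂˣ) : uw σ (uw σ w) = w := by
  cases σ
  · rfl
  · exact inv_inv w

theorem uw_inj (σ : Bool) {w w' : ℂˣ} (h : uw σ w = uw σ w') : w = w' := by
  rw [← uw_uw σ w, h, uw_uw]

namespace Sig

/-- the fibre coordinate of a point of `Σ` -/
inductive Fib
  | main (w : ℂˣ)
  | fin (σ : Bool)
  | exc (e : ℂˣ)
  | node

variable {K : Type} [Field K] [Algebra ℂ K] (T : Datum K)

/-- the points with blown up fibre -/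
def Exc (P : T.X.Pt) : Prop := P ∈ T.S ∨ P ∈ T.S'

/-- the valid points -/
def Val (P : T.X.Pt) : Fib → Prop
  | .main _ => True
  | .fin _ => True
  | .exc _ => Exc T P
  | .node => Exc T P

/-- the total space of the line bundle on `Σ` -/
structure YY where
  base : T.X.Pt
  fib : Fib
  u : ℂˣ
  val : Val T base fib

variable {T}

theorem YY.ext' {y y' : YY T} (h1 : y.base = y'.base) (h2 : y.fib = y'.fib) (h3 : y.u = y'.u) :
    y = y' := by
  cases y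
  cases y'
  subst h1
  subst h2
  subst h3
  rfl

/-- the point of `Σ` under a point of the line bundle -/
def pt (y : YY T) : T.X.Pt × Fib := (y.base, y.fib)

theorem pt_val (y : YY T) : Val T (pt y).1 (pt y).2 := y.val

instance : MulAction ℂˣ (YY T) where
  smul c y := ⟨y.base, y.fib, c * y.u, y.val⟩
  one_smul _ := YY.ext' rfl rfl (one_mul _)
  mul_smul _ _ _ := YY.ext' rfl rfl (mul_assoc _ _ _)

theorem pt_smul (c : ℂˣ) (y : YY T) : pt (c • y) = pt y := rfl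

theorem smul_u (c : ℂˣ) (y : YY T) : (c • y).u = c * y.u := rfl

theorem ext_pt {y y' : YY T} (h : pt y = pt y') (h3 : y.u = y'.u) : y = y' :=
  YY.ext' (congrArg Prod.fst h) (congrArg Prod.snd h) h3

theorem eq_smul_of_pt {y y' : YY T} (h : pt y' = pt y) : ∃ c : ℂˣ, y' = c • y := by
  refine ⟨y'.u * y.u⁻¹, ext_pt h ?_⟩
  rw [smul_u, inv_mul_cancel_right]

theorem smul_free {c : ℂˣ} {y : YY T} (h : y = c • y) : c = 1 := by
  have h1 : y.u = c * y.u := congrArg YY.u h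
  exact (mul_eq_right.1 h1.symm)

variable (T)

open Classical in
/-- the point of the line bundle with given coordinates -/
def mkY (P : T.X.Pt) (φ : Fib) (u : ℂˣ) : YY T :=
  if h : Val T P φ then ⟨P, φ, u, h⟩ else ⟨P, .fin false, u, trivial⟩

variable {T}

theorem mkY_of {P : T.X.Pt} {φ : Fib} (h : Val T P φ) (u : ℂˣ) :
    mkY T P φ u = ⟨P, φ, u, h⟩ := dif_pos h

theorem smul_mkY (c : ℂˣ) (P : T.X.Pt) (φ : Fib) (u : ℂˣ) :
    c • mkY T P φ u = mkY T P φ (c * u) := by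
  unfold mkY
  by_cases h : Val T P φ
  · rw [dif_pos h, dif_pos h]
    rfl
  · rw [dif_neg h, dif_neg h]
    rfl

theorem pt_mkY {P : T.X.Pt} {φ : Fib} (h : Val T P φ) (u : ℂˣ) :
    pt (mkY T P φ u) = (P, φ) := by
  rw [mkY_of h]
  rfl

theorem mkY_eta (y : YY T) : mkY T y.base y.fib y.u = y := mkY_of y.val _

variable (T) in
/-- the side on which the fibre over an exceptional point is blown up -/
def sd (P : T.X.Pt) : Bool := open Classical in decide (P ∈ T.S)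

variable (T) in
/-- the points with fibre blown up on the side `σ` -/
def Bl (σ : Bool) (P : T.X.Pt) : Prop := Exc T P ∧ sd T P = σ

theorem bl_true {P : T.X.Pt} : Bl T true P ↔ P ∈ T.S := by
  unfold Bl Exc sd
  simp only [decide_eq_true_eq]
  tauto

theorem bl_false {P : T.X.Pt} : Bl T false P ↔ P ∈ T.S' := by
  unfold Bl Exc sd
  simp only [decide_eq_false_iff_not]
  have h : P ∈ T.S' → P ∉ T.S := fun h1 h2 => Finset.disjoint_left.1 T.disj h2 h1
  tauto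

/-! ### The charts -/

variable (q : ℕ) (D₀ : T.X.Pt →₀ ℤ) (An : AnCurve T.X.toCurveOrd)

open Classical in
/-- fibre coordinate in a plain chart -/
def pfib (σ : Bool) (v : ℂ) : Fib := if v = 0 then .fin σ else .main (uw σ (un v))

theorem pfib_zero (σ : Bool) : pfib σ 0 = .fin σ := if_pos rfl

theorem pfib_ne {σ : Bool} {v : ℂ} (h : v ≠ 0) : pfib σ v = .main (uw σ (un v)) := if_neg h

theorem val_pfib (P : T.X.Pt) (σ : Bool) (v : ℂ) : Val T P (pfib σ v) := by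
  by_cases h : v = 0
  · rw [h, pfib_zero]; trivial
  · rw [pfib_ne h]; trivial

/-- plain chart: coordinates `(s, w)` or `(s, 1/w)` -/
def pc (P : T.X.Pt) (σ : Bool) (z : E 2) : YY T :=
  mkY T (An.c P (z 0)) (pfib σ (z 1)) (un (z 1) ^ (5 * (q : ℤ)) * upow (z 0) (D₀ P))

open Classical in
/-- blown up chart -/
def bl (P : T.X.Pt) (σ : Bool) (z : E 2) : YY T :=
  if z 0 = 0 then mkY T P (if z 1 = 0 then .fin σ else .exc (un (z 1))) (un (z 1) ^ (q : ℤ))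
  else un (z 0) ^ (-(q : ℤ)) • pc q D₀ An P σ ![z 0, z 0 * z 1]

open Classical in
/-- middle chart -/
def mid (P : T.X.Pt) (z : E 2) : YY T :=
  if z 0 = 0 then mkY T P (if z 1 = 0 then .node else .exc (un (z 1))⁻¹) 1
  else un (z 0) ^ (9 * (q : ℤ)) • pc q D₀ An P (!sd T P) ![z 0 * z 1, (z 0)⁻¹]

/-- frame of weight zero -/
def oo (P : T.X.Pt) (s : ℂ) (w : ℂˣ) : YY T :=
  mkY T (An.c P s) (.main w) (upow s (D₀ P))

theorem pt_pc (P : T.X.Pt) (σ : Bool) (z : E 2) :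
    pt (pc q D₀ An P σ z) = (An.c P (z 0), pfib σ (z 1)) := pt_mkY (val_pfib _ _ _) _

theorem pt_bl_ne {P : T.X.Pt} {σ : Bool} {z : E 2} (h : z 0 ≠ 0) :
    pt (bl q D₀ An P σ z) = (An.c P (z 0), pfib σ (z 0 * z 1)) := by
  unfold bl
  rw [if_neg h, pt_smul, pt_pc]
  rfl

theorem pt_bl_zero {P : T.X.Pt} {σ : Bool} {z : E 2} (h : z 0 = 0) (h1 : z 1 = 0) :
    pt (bl q D₀ An P σ z) = (P, .fin σ) := by
  unfold bl
  rw [if_pos h, if_pos h1, pt_mkY (by trivial)]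

theorem pt_bl_exc {P : T.X.Pt} (hP : Exc T P) {σ : Bool} {z : E 2} (h : z 0 = 0) (h1 : z 1 ≠ 0) :
    pt (bl q D₀ An P σ z) = (P, .exc (un (z 1))) := by
  unfold bl
  rw [if_pos h, if_neg h1, pt_mkY (by exact hP)]

theorem pt_mid_ne {P : T.X.Pt} {z : E 2} (h : z 0 ≠ 0) :
    pt (mid q D₀ An P z) = (An.c P (z 0 * z 1), .main (uw (sd T P) (un (z 0)))) := by
  unfold mid
  rw [if_neg h, pt_smul, pt_pc]
  show (An.c P (z 0 * z 1), pfib (!sd T P) (z 0)⁻¹) = _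
  rw [pfib_ne (inv_ne_zero h), uw_not, un_inv, uw_inv, inv_inv]

theorem pt_mid_node {P : T.X.Pt} (hP : Exc T P) {z : E 2} (h : z 0 = 0) (h1 : z 1 = 0) :
    pt (mid q D₀ An P z) = (P, .node) := by
  unfold mid
  rw [if_pos h, if_pos h1, pt_mkY (by exact hP)]

theorem pt_mid_exc {P : T.X.Pt} (hP : Exc T P) {z : E 2} (h : z 0 = 0) (h1 : z 1 ≠ 0) :
    pt (mid q D₀ An P z) = (P, .exc (un (z 1))⁻¹) := by
  unfold mid
  rw [if_pos h, if_neg h1, pt_mkY (by exact hP)]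

/-! ### Elementary transitions -/

/-- the two plain charts at a point -/
theorem pc_not (P : T.X.Pt) (σ : Bool) {s v : ℂ} (hv : v ≠ 0) :
    pc q D₀ An P (!σ) ![s, v⁻¹] = un v ^ (-(10 * (q : ℤ))) • pc q D₀ An P σ ![s, v] := by
  unfold pc
  rw [smul_mkY]
  show mkY T (An.c P s) (pfib (!σ) v⁻¹) (un v⁻¹ ^ (5 * (q : ℤ)) * upow s (D₀ P)) =
    mkY T (An.c P s) (pfib σ v) (un v ^ (-(10 * (q : ℤ))) * (un v ^ (5 * (q : ℤ)) *
      upow s (D₀ P)))
  rw [pfib_ne hv, pfib_ne (inv_ne_zero hv), uw_not, un_inv, uw_inv, inv_inv, inv_zpow',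
    ← mul_assoc, ← zpow_add]
  congr 3
  ring

theorem loc_pc_not (P : T.X.Pt) (σ : Bool) {s v : ℂ} (hv : v ≠ 0) :
    Loc (pc q D₀ An P σ) ![s, v] (pc q D₀ An P (!σ)) ![s, v⁻¹] := by
  refine ⟨fun ζ => ![ζ 0, (ζ 1)⁻¹], fun ζ => un (ζ 1) ^ (-(10 * (q : ℤ))),
    an_vec (an_coord 0 _) ((an_coord 1 _).inv hv), an_un (an_coord 1 _) hv _, rfl, ?_⟩
  filter_upwards [(an_coord 1 ![s, v]).continuousAt.eventually_ne hv] with ζ hζ
  rw [pc_not q D₀ An P σ hζ]
  congr 2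
  funext i
  fin_cases i <;> rfl

theorem locS_pc_not (P : T.X.Pt) (σ : Bool) {s v : ℂ} (hv : v ≠ 0) :
    LocS (pc q D₀ An P σ) ![s, v] (pc q D₀ An P (!σ)) ![s, v⁻¹] := by
  refine ⟨loc_pc_not q D₀ An P σ hv, ?_⟩
  have h := loc_pc_not q D₀ An P (!σ) (s := s) (inv_ne_zero hv)
  rwa [inv_inv, Bool.not_not] at h

theorem eta2 (z : E 2) : (![z 0, z 1] : E 2) = z := by
  funext i
  fin_cases i <;> rfl

/-- blown up and plain chart -/
theorem locS_bl_pc (P : T.X.Pt) (σ : Bool) {s v : ℂ} (hs : s ≠ 0) :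
    LocS (bl q D₀ An P σ) ![s, v] (pc q D₀ An P σ) ![s, s * v] := by
  constructor
  · refine ⟨fun ζ => ![ζ 0, ζ 0 * ζ 1], fun ζ => un (ζ 0) ^ (q : ℤ),
      an_vec (an_coord 0 _) ((an_coord 0 _).mul (an_coord 1 _)), an_un (an_coord 0 _) hs _, rfl,
      ?_⟩
    filter_upwards [(an_coord 0 ![s, v]).continuousAt.eventually_ne hs] with ζ hζ
    unfold bl
    rw [if_neg hζ, smul_smul, ← zpow_add, add_neg_cancel, zpow_zero, one_smul]
  · refine ⟨fun ζ => ![ζ 0, (ζ 0)⁻¹ * ζ 1], fun ζ => un (ζ 0) ^ (-(q : ℤ)),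
      an_vec (an_coord 0 _) (((an_coord 0 _).inv hs).mul (an_coord 1 _)),
      an_un (an_coord 0 _) hs _, ?_, ?_⟩
    · show (![s, s⁻¹ * (s * v)] : E 2) = _
      rw [inv_mul_cancel_left₀ hs]
    · filter_upwards [(an_coord 0 ![s, s * v]).continuousAt.eventually_ne hs] with ζ hζ
      unfold bl
      rw [if_neg (by exact hζ)]
      show un (ζ 0) ^ (-(q : ℤ)) • pc q D₀ An P σ ![ζ 0, ζ 0 * ((ζ 0)⁻¹ * ζ 1)] = _
      rw [mul_inv_cancel_left₀ hζ, eta2]

/-- middle chart and plain chart -/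
theorem locS_mid_pc (P : T.X.Pt) {v f : ℂ} (hv : v ≠ 0) :
    LocS (mid q D₀ An P) ![v, f] (pc q D₀ An P (!sd T P)) ![v * f, v⁻¹] := by
  constructor
  · refine ⟨fun ζ => ![ζ 0 * ζ 1, (ζ 0)⁻¹], fun ζ => un (ζ 0) ^ (-(9 * (q : ℤ))),
      an_vec ((an_coord 0 _).mul (an_coord 1 _)) ((an_coord 0 _).inv hv),
      an_un (an_coord 0 _) hv _, rfl, ?_⟩
    filter_upwards [(an_coord 0 ![v, f]).continuousAt.eventually_ne hv] with ζ hζ
    unfold mid
    rw [if_neg hζ, smul_smul, ← zpow_add, neg_add_cancel, zpow_zero, one_smul]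
  · have hv' : (![v * f, v⁻¹] : E 2) 1 ≠ 0 := inv_ne_zero hv
    refine ⟨fun ζ => ![(ζ 1)⁻¹, ζ 0 * ζ 1], fun ζ => un (ζ 1) ^ (-(9 * (q : ℤ))),
      an_vec ((an_coord 1 _).inv hv') ((an_coord 0 _).mul (an_coord 1 _)),
      an_un (an_coord 1 _) hv' _, ?_, ?_⟩
    · show (![v⁻¹⁻¹, v * f * v⁻¹] : E 2) = _
      rw [inv_inv, mul_right_comm, mul_inv_cancel₀ hv, one_mul]
    · filter_upwards [(an_coord 1 ![v * f, v⁻¹]).continuousAt.eventually_ne hv'] with ζ hζ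
      unfold mid
      rw [if_neg (by exact inv_ne_zero hζ)]
      show un (ζ 1)⁻¹ ^ (9 * (q : ℤ)) • pc q D₀ An P (!sd T P)
        ![(ζ 1)⁻¹ * (ζ 0 * ζ 1), (ζ 1)⁻¹⁻¹] = _
      rw [inv_inv, un_inv, inv_zpow', mul_comm (ζ 1)⁻¹, mul_assoc, mul_inv_cancel₀ hζ, mul_one,
        eta2]

/-- the identity relating the blown up chart and the middle chart -/
theorem mid_bl (P : T.X.Pt) {s v : ℂ} (hv : v ≠ 0) :
    mid q D₀ An P ![s * v, v⁻¹] = un v ^ (-(q : ℤ)) • bl q D₀ An P (sd T P) ![s, v] := by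
  by_cases hs : s = 0
  · subst hs
    unfold mid bl
    rw [if_pos (by show (0 : ℂ) * v = 0; rw [zero_mul]), if_pos (show (![0, v] : E 2) 0 = 0 from rfl),
      if_neg (by exact inv_ne_zero hv), if_neg (by exact hv), smul_mkY]
    show mkY T P (.exc (un v⁻¹)⁻¹) 1 = mkY T P (.exc (un v)) (un v ^ (-(q : ℤ)) * un v ^ (q : ℤ))
    rw [un_inv, inv_inv, ← zpow_add, neg_add_cancel, zpow_zero]
  · unfold mid bl
    rw [if_neg (by exact mul_ne_zero hs hv), if_neg (by exact hs)]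
    show un (s * v) ^ (9 * (q : ℤ)) • pc q D₀ An P (!sd T P) ![s * v * v⁻¹, (s * v)⁻¹] =
      un v ^ (-(q : ℤ)) • un s ^ (-(q : ℤ)) • pc q D₀ An P (sd T P) ![s, s * v]
    rw [mul_assoc, mul_inv_cancel₀ hv, mul_one, pc_not q D₀ An P (sd T P) (mul_ne_zero hs hv),
      smul_smul, smul_smul, ← zpow_add, un_mul hs hv, mul_comm (un v ^ (-(q : ℤ))), ← mul_zpow]
    congr 2
    ring

theorem locS_bl_mid (P : T.X.Pt) {s v : ℂ} (hv : v ≠ 0) :
    LocS (bl q D₀ An P (sd T P)) ![s, v] (mid q D₀ An P) ![s * v, v⁻¹] := by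
  constructor
  · refine ⟨fun ζ => ![ζ 0 * ζ 1, (ζ 1)⁻¹], fun ζ => un (ζ 1) ^ (-(q : ℤ)),
      an_vec ((an_coord 0 _).mul (an_coord 1 _)) ((an_coord 1 _).inv hv),
      an_un (an_coord 1 _) hv _, rfl, ?_⟩
    filter_upwards [(an_coord 1 ![s, v]).continuousAt.eventually_ne hv] with ζ hζ
    rw [mid_bl q D₀ An P hζ, eta2]
  · have hv' : (![s * v, v⁻¹] : E 2) 1 ≠ 0 := inv_ne_zero hv
    refine ⟨fun ζ => ![ζ 0 * ζ 1, (ζ 1)⁻¹], fun ζ => un (ζ 1) ^ (-(q : ℤ)),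
      an_vec ((an_coord 0 _).mul (an_coord 1 _)) ((an_coord 1 _).inv hv'),
      an_un (an_coord 1 _) hv' _, ?_, ?_⟩
    · show (![s * v * v⁻¹, v⁻¹⁻¹] : E 2) = _
      rw [inv_inv, mul_assoc, mul_inv_cancel₀ hv, mul_one]
    · filter_upwards [(an_coord 1 ![s * v, v⁻¹]).continuousAt.eventually_ne hv'] with ζ hζ
      have h := mid_bl q D₀ An P (s := ζ 0 * ζ 1) (v := (ζ 1)⁻¹) (inv_ne_zero hζ)
      rw [mul_assoc, mul_inv_cancel₀ hζ, mul_one, inv_inv, eta2, un_inv, inv_zpow', neg_neg] at h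
      rw [h, smul_smul, ← zpow_add, neg_add_cancel, zpow_zero, one_smul]

end Sig

end

end Pool.Agent.YTDA


end

/- source: Pool.Agent.YTDA.SigF -/

section

/-!
# The logarithm of the volume form of the surface `Σ`

`logdet φ_a` plus explicit logarithmic terms is a global function on `Σ`.
-/

set_option autoImplicit false

namespace Pool.Agent.YTDA

open Complex Set Topology Filter Metric
open Pl
open Pool.Agent.YTD

noncomputable section

/-! ## Transition functions of atlases -/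

namespace PolAtlas

variable {n : ℕ} {Y : Type} [MulAction ℂˣ Y] {A : PolAtlas n Y}

theorem mem_O_of_smul {a b : A.ι} {z z' : E n} (hz : z ∈ A.U a) (hz' : z' ∈ A.U b) {c : ℂˣ}
    (h : A.γ b z' = c • A.γ a z) : z ∈ A.O a b := ⟨hz, z', hz', c, h⟩

theorem τ_eq_of_smul {a b : A.ι} {z z' : E n} (hz : z ∈ A.U a) (hz' : z' ∈ A.U b) {c : ℂˣ}
    (h : A.γ b z' = c • A.γ a z) : A.τ a b z = z' := by
  obtain ⟨h1, h2⟩ := A.trans a b z hz ⟨z', hz', c, h⟩
  refine (A.inj b z' hz' _ h1 (A.h a b z * c⁻¹) ?_).1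
  rw [h2, h, smul_smul, mul_assoc, inv_mul_cancel, mul_one]

theorem O_symm {a b : A.ι} {z : E n} (hz : z ∈ A.O a b) : A.τ a b z ∈ A.O b a := by
  obtain ⟨h1, h2⟩ := A.trans a b z hz.1 hz.2
  exact ⟨h1, z, hz.1, (A.h a b z)⁻¹, by rw [h2, inv_smul_smul]⟩

theorem τ_τF {a b : A.ι} {z : E n} (hz : z ∈ A.O a b) : A.τ b a (A.τ a b z) = z := by
  obtain ⟨h1, h2⟩ := A.trans a b z hz.1 hz.2
  exact τ_eq_of_smul h1 hz.1 (c := (A.h a b z)⁻¹) (by rw [h2, inv_smul_smul])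

theorem jac_τ_det {a b : A.ι} {z : E n} (hz : z ∈ A.O a b) : (jac (A.τ a b) z).det ≠ 0 := by
  have h1 : DifferentiableAt ℂ (A.τ a b) z :=
    (A.hol_τ a b).differentiableAt ((A.isOpen_O a b).mem_nhds hz)
  have h2 : DifferentiableAt ℂ (A.τ b a) (A.τ a b z) :=
    (A.hol_τ b a).differentiableAt ((A.isOpen_O b a).mem_nhds (O_symm hz))
  have h3 : (fun w => A.τ b a (A.τ a b w)) =ᶠ[𝓝 z] fun w => w := by
    filter_upwards [(A.isOpen_O a b).mem_nhds hz] with w hw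
    exact τ_τF hw
  have h4 : jac (fun w => A.τ b a (A.τ a b w)) z = jac (fun w : E n => w) z := by
    unfold jac
    rw [h3.fderiv_eq]
  rw [jac_comp h1 h2, jac_id] at h4
  intro h5
  have h6 := congrArg Matrix.det h4
  rw [Matrix.det_mul, h5, mul_zero, Matrix.det_one] at h6
  exact zero_ne_one h6

/-- the logarithm of the volume under a transition function -/
theorem logdet_τ {H : Y → ℝ} (hH : A.IsKahler H) {a b : A.ι} {z : E n} (hz : z ∈ A.O a b) :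
    logdet (A.pot H a) z = Real.log (‖(jac (A.τ a b) z).det‖ ^ 2) +
      logdet (A.pot H b) (A.τ a b z) := by
  have hV := A.isOpen_O a b
  have ht := A.hol_τ a b
  have hh : DifferentiableOn ℂ (fun w => ((A.h a b w : ℂ))⁻¹) (A.O a b) := by
    intro w hw
    exact (((A.hol_h a b).differentiableAt (hV.mem_nhds hw)).inv
      (A.h a b w).ne_zero).differentiableWithinAt
  have h0 : ∀ w ∈ A.O a b, ((A.h a b w : ℂ))⁻¹ ≠ 0 := fun w _ =>
    inv_ne_zero (A.h a b w).ne_zero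
  have hz' : A.τ a b z ∈ A.U b := (A.trans a b z hz.1 hz.2).1
  have e1 : A.pot H a =ᶠ[𝓝 z] ppull (A.τ a b) (fun w => ((A.h a b w : ℂ))⁻¹) (A.pot H b) := by
    filter_upwards [hV.mem_nhds hz] with w hw
    obtain ⟨_, h2⟩ := A.trans a b w hw.1 hw.2
    rw [ppull_apply]
    unfold pot
    rw [h2, hH.hom, Real.log_mul (by
      have := norm_pos_iff.2 (A.h a b w).ne_zero
      positivity) (hH.pos _).ne', norm_inv, inv_pow, Real.log_inv]
    ring
  rw [(logdet_eventuallyEq e1).self_of_nhds,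
    logdet_pull hV ht hh h0 (fun w hw => jac_τ_det hw) hz
      (SmNear.of_contDiffOn (A.isOpen_U b) (hH.smooth b) hz') (hH.posDef b _ hz'), ppull_apply]

end PolAtlas

/-! ## The coordinates `(s, w)` -/

section Sig

variable {K : Type} [Field K] [Algebra ℂ K] {T : Datum K} {q : ℕ} {D₀ : T.X.Pt →₀ ℤ}
  {An : AnCurve T.X.toCurveOrd}

/-- the coordinate `s` -/
def sco (i : Fin 3) (z : E 2) : ℂ := if i = 2 then z 0 * z 1 else z 0

open Classical in
/-- the coordinate `w` -/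
def wco (T : Datum K) (P : T.X.Pt) (i : Fin 3) (z : E 2) : ℂ :=
  if i = 0 then (if P ∈ T.S' then z 0 * z 1 else z 1)
  else if i = 1 then (if P ∈ T.S then (z 0 * z 1)⁻¹ else (z 1)⁻¹)
  else (if P ∈ T.S then (z 0)⁻¹ else z 0)

theorem sco_ne {i : Fin 3} {z : E 2} (h0 : z 0 ≠ 0) (h1 : z 1 ≠ 0) : sco i z ≠ 0 := by
  unfold sco
  split_ifs
  · exact mul_ne_zero h0 h1
  · exact h0

theorem wco_ne {P : T.X.Pt} {i : Fin 3} {z : E 2} (h0 : z 0 ≠ 0) (h1 : z 1 ≠ 0) :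
    wco T P i z ≠ 0 := by
  have h2 := mul_ne_zero h0 h1
  unfold wco
  split_ifs <;> first | exact h0 | exact h1 | exact h2 | exact inv_ne_zero h0 |
    exact inv_ne_zero h1 | exact inv_ne_zero h2

/-- the map to `(s, w)` -/
def psi (T : Datum K) (P : T.X.Pt) (i : Fin 3) (z : E 2) : E 2 := ![sco i z, wco T P i z]

/-- the logarithm of the jacobian of `(s, log w)`, with the opposite sign -/
def jm (i : Fin 3) (z : E 2) : ℝ := if i = 2 then 0 else Real.log (‖z 1‖ ^ 2)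

theorem hasFDerivAt_pr (j : Fin 2) (z : E 2) : HasFDerivAt (fun z : E 2 => z j)
    (ContinuousLinearMap.proj (R := ℂ) (φ := fun _ : Fin 2 => ℂ) j) z :=
  (ContinuousLinearMap.proj (R := ℂ) (φ := fun _ : Fin 2 => ℂ) j).hasFDerivAt

theorem jac_of_hasFDerivAt {f g : E 2 → ℂ} {f' g' : E 2 →L[ℂ] ℂ} {z : E 2}
    (hf : HasFDerivAt f f' z) (hg : HasFDerivAt g g' z) :
    jac (fun z => (![f z, g z] : E 2)) z =
      !![f' (Pi.single 0 1), f' (Pi.single 1 1); g' (Pi.single 0 1), g' (Pi.single 1 1)] := by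
  have h : HasFDerivAt (fun z => (![f z, g z] : E 2)) (ContinuousLinearMap.pi ![f', g']) z := by
    rw [hasFDerivAt_pi]
    intro i
    fin_cases i
    · exact hf
    · exact hg
  ext i j
  show fderiv ℂ (fun z => (![f z, g z] : E 2)) z (Pi.single j 1) i = _
  rw [h.fderiv]
  fin_cases i <;> fin_cases j <;> rfl

theorem hasFDerivAt_pm (z : E 2) : HasFDerivAt (fun z : E 2 => z 0 * z 1)
    (z 0 • ContinuousLinearMap.proj (R := ℂ) (φ := fun _ : Fin 2 => ℂ) 1 +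
      z 1 • ContinuousLinearMap.proj (R := ℂ) (φ := fun _ : Fin 2 => ℂ) 0) z :=
  (hasFDerivAt_pr 0 z).mul (hasFDerivAt_pr 1 z)

theorem hasFDerivAt_in {f : E 2 → ℂ} {f' : E 2 →L[ℂ] ℂ} {z : E 2} (hf : HasFDerivAt f f' z)
    (h0 : f z ≠ 0) : HasFDerivAt (fun z : E 2 => (f z)⁻¹) (-((f z) ^ 2)⁻¹ • f') z :=
  (hasDerivAt_inv h0).comp_hasFDerivAt z hf

theorem differentiableAt_psi_of {f g : E 2 → ℂ} {f' g' : E 2 →L[ℂ] ℂ} {z : E 2}
    (hf : HasFDerivAt f f' z) (hg : HasFDerivAt g g' z) :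
    DifferentiableAt ℂ (fun z => (![f z, g z] : E 2)) z := by
  rw [differentiableAt_pi]
  intro i
  fin_cases i
  · exact hf.differentiableAt
  · exact hg.differentiableAt

theorem det_psi {P : T.X.Pt} {i : Fin 3} {z : E 2} (h0 : z 0 ≠ 0) (h1 : z 1 ≠ 0) :
    DifferentiableAt ℂ (psi T P i) z ∧
    Real.log (‖(jac (psi T P i) z).det‖ ^ 2) = Real.log (‖wco T P i z‖ ^ 2) - jm i z := by
  have h2 : z 0 * z 1 ≠ 0 := mul_ne_zero h0 h1
  have n0 : ‖z 0‖ ≠ 0 := norm_ne_zero_iff.2 h0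
  have n1 : ‖z 1‖ ≠ 0 := norm_ne_zero_iff.2 h1
  have s01 : (Pi.single 0 1 : E 2) 1 = 0 := by simp
  have s10 : (Pi.single 1 1 : E 2) 0 = 0 := by simp
  have s00 : (Pi.single 0 1 : E 2) 0 = 1 := by simp
  have s11 : (Pi.single 1 1 : E 2) 1 = 1 := by simp
  fin_cases i
  · by_cases hP : P ∈ T.S'
    · have e : psi T P ⟨0, by norm_num⟩ = fun z => (![z 0, z 0 * z 1] : E 2) := by
        funext z; simp [psi, sco, wco, hP]
      have e2 : wco T P ⟨0, by norm_num⟩ z = z 0 * z 1 := by simp [wco, hP]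
      have e3 : jm ⟨0, by norm_num⟩ z = Real.log (‖z 1‖ ^ 2) := by simp [jm]
      refine ⟨?_, ?_⟩
      · show DifferentiableAt ℂ (psi T P ⟨0, by norm_num⟩) z
        rw [e]; exact differentiableAt_psi_of (hasFDerivAt_pr 0 z) (hasFDerivAt_pm z)
      · show Real.log (‖(jac (psi T P ⟨0, by norm_num⟩) z).det‖ ^ 2) =
          Real.log (‖wco T P ⟨0, by norm_num⟩ z‖ ^ 2) - jm ⟨0, by norm_num⟩ z
        rw [e, e2, e3, jac_of_hasFDerivAt (hasFDerivAt_pr 0 z) (hasFDerivAt_pm z),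
          Matrix.det_fin_two_of]
        simp only [ContinuousLinearMap.proj_apply, _root_.add_apply,
          _root_.smul_apply, smul_eq_mul, s00, s01, s10, s11, mul_one, mul_zero,
          add_zero, zero_mul, sub_zero, one_mul, zero_add, norm_mul, mul_pow]
        rw [Real.log_mul (by positivity) (by positivity)]
        ring
    · have e : psi T P ⟨0, by norm_num⟩ = fun z => (![z 0, z 1] : E 2) := by
        funext z; simp [psi, sco, wco, hP]
      have e2 : wco T P ⟨0, by norm_num⟩ z = z 1 := by simp [wco, hP]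
      have e3 : jm ⟨0, by norm_num⟩ z = Real.log (‖z 1‖ ^ 2) := by simp [jm]
      refine ⟨?_, ?_⟩
      · show DifferentiableAt ℂ (psi T P ⟨0, by norm_num⟩) z
        rw [e]; exact differentiableAt_psi_of (hasFDerivAt_pr 0 z) (hasFDerivAt_pr 1 z)
      · show Real.log (‖(jac (psi T P ⟨0, by norm_num⟩) z).det‖ ^ 2) =
          Real.log (‖wco T P ⟨0, by norm_num⟩ z‖ ^ 2) - jm ⟨0, by norm_num⟩ z
        rw [e, e2, e3, jac_of_hasFDerivAt (hasFDerivAt_pr 0 z) (hasFDerivAt_pr 1 z),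
          Matrix.det_fin_two_of]
        simp only [ContinuousLinearMap.proj_apply, s00, s01, s10, s11, mul_one, mul_zero,
          sub_zero, norm_one, one_pow, Real.log_one, sub_self]
  · by_cases hP : P ∈ T.S
    · have e : psi T P ⟨1, by norm_num⟩ = fun z => (![z 0, (z 0 * z 1)⁻¹] : E 2) := by
        funext z; simp [psi, sco, wco, hP]
      have e2 : wco T P ⟨1, by norm_num⟩ z = (z 0 * z 1)⁻¹ := by simp [wco, hP]
      have e3 : jm ⟨1, by norm_num⟩ z = Real.log (‖z 1‖ ^ 2) := by simp [jm]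
      refine ⟨?_, ?_⟩
      · show DifferentiableAt ℂ (psi T P ⟨1, by norm_num⟩) z
        rw [e]
        exact differentiableAt_psi_of (hasFDerivAt_pr 0 z) (hasFDerivAt_in (hasFDerivAt_pm z) h2)
      · show Real.log (‖(jac (psi T P ⟨1, by norm_num⟩) z).det‖ ^ 2) =
          Real.log (‖wco T P ⟨1, by norm_num⟩ z‖ ^ 2) - jm ⟨1, by norm_num⟩ z
        rw [e, e2, e3, jac_of_hasFDerivAt (hasFDerivAt_pr 0 z)
          (hasFDerivAt_in (hasFDerivAt_pm z) h2), Matrix.det_fin_two_of]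
        simp only [ContinuousLinearMap.proj_apply, _root_.add_apply,
          _root_.smul_apply, smul_eq_mul, s00, s01, s10, s11, mul_one, mul_zero,
          add_zero, zero_mul, sub_zero, one_mul, zero_add, norm_mul, norm_neg, norm_inv,
          norm_pow]
        rw [show ((‖z 0‖ * ‖z 1‖) ^ 2)⁻¹ * ‖z 0‖ = ‖z 0‖⁻¹ * (‖z 1‖⁻¹ * ‖z 1‖⁻¹) by field_simp]
        rw [Real.log_pow, Real.log_pow, Real.log_pow, Real.log_mul (by positivity) (by positivity),
          Real.log_mul (by positivity) (by positivity), Real.log_inv, Real.log_inv, Real.log_inv,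
          Real.log_mul (by positivity) (by positivity)]
        ring
    · have e : psi T P ⟨1, by norm_num⟩ = fun z => (![z 0, (z 1)⁻¹] : E 2) := by
        funext z; simp [psi, sco, wco, hP]
      have e2 : wco T P ⟨1, by norm_num⟩ z = (z 1)⁻¹ := by simp [wco, hP]
      have e3 : jm ⟨1, by norm_num⟩ z = Real.log (‖z 1‖ ^ 2) := by simp [jm]
      refine ⟨?_, ?_⟩
      · show DifferentiableAt ℂ (psi T P ⟨1, by norm_num⟩) z
        rw [e]
        exact differentiableAt_psi_of (hasFDerivAt_pr 0 z) (hasFDerivAt_in (hasFDerivAt_pr 1 z) h1)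
      · show Real.log (‖(jac (psi T P ⟨1, by norm_num⟩) z).det‖ ^ 2) =
          Real.log (‖wco T P ⟨1, by norm_num⟩ z‖ ^ 2) - jm ⟨1, by norm_num⟩ z
        rw [e, e2, e3, jac_of_hasFDerivAt (hasFDerivAt_pr 0 z)
          (hasFDerivAt_in (hasFDerivAt_pr 1 z) h1), Matrix.det_fin_two_of]
        simp only [ContinuousLinearMap.proj_apply,
          _root_.smul_apply, smul_eq_mul, s00, s01, s10, s11, mul_one, mul_zero,
          zero_mul, sub_zero, one_mul, norm_neg, norm_inv, norm_pow]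
        rw [Real.log_pow, Real.log_inv, Real.log_pow, Real.log_pow, Real.log_inv]
        push_cast
        ring
  · by_cases hP : P ∈ T.S
    · have e : psi T P ⟨2, by norm_num⟩ = fun z => (![z 0 * z 1, (z 0)⁻¹] : E 2) := by
        funext z; simp [psi, sco, wco, hP]
      have e2 : wco T P ⟨2, by norm_num⟩ z = (z 0)⁻¹ := by simp [wco, hP]
      have e3 : jm ⟨2, by norm_num⟩ z = 0 := by simp [jm]
      refine ⟨?_, ?_⟩
      · show DifferentiableAt ℂ (psi T P ⟨2, by norm_num⟩) z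
        rw [e]
        exact differentiableAt_psi_of (hasFDerivAt_pm z) (hasFDerivAt_in (hasFDerivAt_pr 0 z) h0)
      · show Real.log (‖(jac (psi T P ⟨2, by norm_num⟩) z).det‖ ^ 2) =
          Real.log (‖wco T P ⟨2, by norm_num⟩ z‖ ^ 2) - jm ⟨2, by norm_num⟩ z
        rw [e, e2, e3, jac_of_hasFDerivAt (hasFDerivAt_pm z)
          (hasFDerivAt_in (hasFDerivAt_pr 0 z) h0), Matrix.det_fin_two_of]
        simp only [ContinuousLinearMap.proj_apply, _root_.add_apply,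
          _root_.smul_apply, smul_eq_mul, s00, s01, s10, s11, mul_one, mul_zero,
          add_zero, zero_add]
        congr 3
        rw [show z 0 * -(z 0 ^ 2)⁻¹ = -(z 0)⁻¹ by field_simp]
        simp
    · have e : psi T P ⟨2, by norm_num⟩ = fun z => (![z 0 * z 1, z 0] : E 2) := by
        funext z; simp [psi, sco, wco, hP]
      have e2 : wco T P ⟨2, by norm_num⟩ z = z 0 := by simp [wco, hP]
      have e3 : jm ⟨2, by norm_num⟩ z = 0 := by simp [jm]
      refine ⟨?_, ?_⟩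
      · show DifferentiableAt ℂ (psi T P ⟨2, by norm_num⟩) z
        rw [e]
        exact differentiableAt_psi_of (hasFDerivAt_pm z) (hasFDerivAt_pr 0 z)
      · show Real.log (‖(jac (psi T P ⟨2, by norm_num⟩) z).det‖ ^ 2) =
          Real.log (‖wco T P ⟨2, by norm_num⟩ z‖ ^ 2) - jm ⟨2, by norm_num⟩ z
        rw [e, e2, e3, jac_of_hasFDerivAt (hasFDerivAt_pm z) (hasFDerivAt_pr 0 z),
          Matrix.det_fin_two_of]
        simp only [ContinuousLinearMap.proj_apply, _root_.add_apply,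
          _root_.smul_apply, smul_eq_mul, s00, s01, s10, s11, mul_one, mul_zero,
          add_zero, zero_add, zero_sub, norm_neg, sub_zero]

theorem det_psi_ne {P : T.X.Pt} {i : Fin 3} {z : E 2} (h0 : z 0 ≠ 0) (h1 : z 1 ≠ 0) :
    (jac (psi T P i) z).det ≠ 0 := by
  have h2 : z 0 * z 1 ≠ 0 := mul_ne_zero h0 h1
  have s01 : (Pi.single 0 1 : E 2) 1 = 0 := by simp
  have s10 : (Pi.single 1 1 : E 2) 0 = 0 := by simp
  have s00 : (Pi.single 0 1 : E 2) 0 = 1 := by simp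
  have s11 : (Pi.single 1 1 : E 2) 1 = 1 := by simp
  fin_cases i
  · by_cases hP : P ∈ T.S'
    · have e : psi T P ⟨0, by norm_num⟩ = fun z => (![z 0, z 0 * z 1] : E 2) := by
        funext z; simp [psi, sco, wco, hP]
      show (jac (psi T P ⟨0, by norm_num⟩) z).det ≠ 0
      rw [e, jac_of_hasFDerivAt (hasFDerivAt_pr 0 z) (hasFDerivAt_pm z), Matrix.det_fin_two_of]
      simpa using h0
    · have e : psi T P ⟨0, by norm_num⟩ = fun z => (![z 0, z 1] : E 2) := by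
        funext z; simp [psi, sco, wco, hP]
      show (jac (psi T P ⟨0, by norm_num⟩) z).det ≠ 0
      rw [e, jac_of_hasFDerivAt (hasFDerivAt_pr 0 z) (hasFDerivAt_pr 1 z), Matrix.det_fin_two_of]
      simp
  · by_cases hP : P ∈ T.S
    · have e : psi T P ⟨1, by norm_num⟩ = fun z => (![z 0, (z 0 * z 1)⁻¹] : E 2) := by
        funext z; simp [psi, sco, wco, hP]
      show (jac (psi T P ⟨1, by norm_num⟩) z).det ≠ 0
      rw [e, jac_of_hasFDerivAt (hasFDerivAt_pr 0 z)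
          (hasFDerivAt_in (hasFDerivAt_pm z) h2), Matrix.det_fin_two_of]
      simp [h0, h1]
    · have e : psi T P ⟨1, by norm_num⟩ = fun z => (![z 0, (z 1)⁻¹] : E 2) := by
        funext z; simp [psi, sco, wco, hP]
      show (jac (psi T P ⟨1, by norm_num⟩) z).det ≠ 0
      rw [e, jac_of_hasFDerivAt (hasFDerivAt_pr 0 z)
          (hasFDerivAt_in (hasFDerivAt_pr 1 z) h1), Matrix.det_fin_two_of]
      simp [h1]
  · by_cases hP : P ∈ T.S
    · have e : psi T P ⟨2, by norm_num⟩ = fun z => (![z 0 * z 1, (z 0)⁻¹] : E 2) := by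
        funext z; simp [psi, sco, wco, hP]
      show (jac (psi T P ⟨2, by norm_num⟩) z).det ≠ 0
      rw [e, jac_of_hasFDerivAt (hasFDerivAt_pm z)
          (hasFDerivAt_in (hasFDerivAt_pr 0 z) h0), Matrix.det_fin_two_of]
      simp [h0]
    · have e : psi T P ⟨2, by norm_num⟩ = fun z => (![z 0 * z 1, z 0] : E 2) := by
        funext z; simp [psi, sco, wco, hP]
      show (jac (psi T P ⟨2, by norm_num⟩) z).det ≠ 0
      rw [e, jac_of_hasFDerivAt (hasFDerivAt_pm z) (hasFDerivAt_pr 0 z), Matrix.det_fin_two_of]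
      simp [h0]

namespace SigModel

variable (M : SigModel T q D₀ An)

theorem sco_mem {P : T.X.Pt} {i : Fin 3} {z : E 2} (hz : z ∈ M.A.U (M.e (P, i))) :
    ‖sco i z‖ < M.r P := by
  fin_cases i
  · have hz' : z ∈ M.A.U (M.e (P, 0)) := hz
    rw [M.U_bot] at hz'
    simpa [sco] using hz'
  · have hz' : z ∈ M.A.U (M.e (P, 1)) := hz
    rw [M.U_top] at hz'
    simpa [sco] using hz'
  · have hz' : z ∈ M.A.U (M.e (P, 2)) := hz
    by_cases hP : P ∈ T.S ∨ P ∈ T.S'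
    · rw [M.U_mid P hP] at hz'
      simpa [sco] using hz'
    · push Not at hP
      rw [M.U_mid' P hP.1 hP.2] at hz'
      exact hz'.elim

/-- general points in terms of the frames `o` -/
theorem γ_o {P : T.X.Pt} {i : Fin 3} {z : E 2} (hz : z ∈ M.A.U (M.e (P, i))) (h0 : z 0 ≠ 0)
    (h1 : z 1 ≠ 0) : ∃ c : ℂˣ, M.A.γ (M.e (P, i)) z =
      c • M.o P (sco i z) (Units.mk0 (wco T P i z) (wco_ne h0 h1)) := by
  have hz2 : z = ![z 0, z 1] := by ext j; fin_cases j <;> rfl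
  have fin : ∀ (s : ℂ) (w c : ℂˣ) (y : M.Y), y = c • M.o P s w → s = sco i z →
      (w : ℂ) = wco T P i z → ∃ c : ℂˣ, y =
      c • M.o P (sco i z) (Units.mk0 (wco T P i z) (wco_ne h0 h1)) := by
    intro s w c y hy hs hw
    refine ⟨c, ?_⟩
    rw [hy, hs]
    congr 2
    exact Units.ext hw
  fin_cases i
  · have hz' : ‖z 0‖ < M.r P := by
      have : z ∈ M.A.U (M.e (P, 0)) := hz
      rw [M.U_bot] at this; exact this
    by_cases hP : P ∈ T.S'
    · have h := M.γ_bot' P hP (Units.mk0 (z 0) h0) hz' (Units.mk0 (z 1) h1)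
      rw [Units.val_mk0, Units.val_mk0, ← hz2] at h
      exact fin _ _ _ _ h (by simp [sco]) (by simp [wco, hP])
    · have h := M.γ_bot P hP (z 0) (by simpa using hz') (Or.inl h0) (Units.mk0 (z 1) h1)
      rw [Units.val_mk0, ← hz2] at h
      exact fin _ _ _ _ h (by simp [sco]) (by simp [wco, hP])
  · have hz' : ‖z 0‖ < M.r P := by
      have : z ∈ M.A.U (M.e (P, 1)) := hz
      rw [M.U_top] at this; exact this
    by_cases hP : P ∈ T.S
    · have h := M.γ_top' P hP (Units.mk0 (z 0) h0) hz' (Units.mk0 (z 1) h1)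
      rw [Units.val_mk0, Units.val_mk0, ← hz2] at h
      exact fin _ _ _ _ h (by simp [sco]) (by simp [wco, hP])
    · have h := M.γ_top P hP (z 0) (by simpa using hz') (Or.inl h0) (Units.mk0 (z 1) h1)
      rw [Units.val_mk0, ← hz2] at h
      exact fin _ _ _ _ h (by simp [sco]) (by simp [wco, hP])
  · have hzU : z ∈ M.A.U (M.e (P, 2)) := hz
    by_cases hP : P ∈ T.S
    · have hz' : ‖z 0 * z 1‖ < M.r P := by
        rw [M.U_mid P (Or.inl hP)] at hzU; exact hzU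
      have h := M.γ_mid P hP (Units.mk0 (z 0) h0) (Units.mk0 (z 1) h1) hz'
      rw [Units.val_mk0, Units.val_mk0, ← hz2] at h
      exact fin _ _ _ _ h (by simp [sco]) (by simp [wco, hP])
    · by_cases hP' : P ∈ T.S'
      · have hz' : ‖z 0 * z 1‖ < M.r P := by
          rw [M.U_mid P (Or.inr hP')] at hzU; exact hzU
        have h := M.γ_mid' P hP' (Units.mk0 (z 0) h0) (Units.mk0 (z 1) h1) hz'
        rw [Units.val_mk0, Units.val_mk0, ← hz2] at h
        exact fin _ _ _ _ h (by simp [sco]) (by simp [wco, hP])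
      · rw [M.U_mid' P hP hP'] at hzU
        exact hzU.elim

/-- the coordinates of the same point in two charts -/
theorem same_o {P Q : T.X.Pt} {i j : Fin 3} {z z' : E 2} (hz : z ∈ M.A.U (M.e (P, i)))
    (hz' : z' ∈ M.A.U (M.e (Q, j))) (h0 : z 0 ≠ 0) (h1 : z 1 ≠ 0) (h0' : z' 0 ≠ 0)
    (h1' : z' 1 ≠ 0) {c : ℂˣ} (h : M.A.γ (M.e (Q, j)) z' = c • M.A.γ (M.e (P, i)) z) :
    An.c P (sco i z) = An.c Q (sco j z') ∧ wco T P i z = wco T Q j z' := by
  obtain ⟨d, hd⟩ := M.γ_o hz h0 h1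
  obtain ⟨d', hd'⟩ := M.γ_o hz' h0' h1'
  have h2 : M.o P (sco i z) (Units.mk0 (wco T P i z) (wco_ne h0 h1)) = (d⁻¹ * c⁻¹ * d') •
      M.o Q (sco j z') (Units.mk0 (wco T Q j z') (wco_ne h0' h1')) := by
    rw [← smul_smul, ← hd', h, smul_smul, hd, smul_smul]
    group
    rw [one_smul]
  obtain ⟨h3, h4⟩ := M.o_inj P Q (sco i z) (by simpa using M.sco_mem hz) (sco j z')
    (by simpa using M.sco_mem hz') (Or.inl (sco_ne h0 h1)) (Or.inl (sco_ne h0' h1')) _ _ _ h2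
  exact ⟨h3, congrArg Units.val h4⟩

/-- the logarithm of the volume form in terms of `(s, log w)` is defined globally, up to the
change of the coordinate `s` -/
theorem logdet_compat {H : M.Y → ℝ} (hH : M.A.IsKahler H) {P Q : T.X.Pt} {i j : Fin 3}
    {z z' : E 2} (hz : z ∈ M.A.U (M.e (P, i)))
    (hz' : z' ∈ M.A.U (M.e (Q, j))) (h0 : z 0 ≠ 0) (h1 : z 1 ≠ 0) (h0' : z' 0 ≠ 0)
    (h1' : z' 1 ≠ 0) {c : ℂˣ} (h : M.A.γ (M.e (Q, j)) z' = c • M.A.γ (M.e (P, i)) z) :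
    ∃ f : ℂ → ℂ, AnalyticAt ℂ f (sco i z) ∧ f (sco i z) = sco j z' ∧ deriv f (sco i z) ≠ 0 ∧
      (∀ᶠ σ in 𝓝 (sco i z), An.c Q (f σ) = An.c P σ) ∧
      (∀ x, (fun σ => An.fn Q x (f σ)) =ᶠ[𝓝[≠] (sco i z)] An.fn P x) ∧
      logdet (M.A.pot H (M.e (P, i))) z + jm i z =
        logdet (M.A.pot H (M.e (Q, j))) z' + jm j z' + Real.log (‖deriv f (sco i z)‖ ^ 2) := by
  obtain ⟨e1, e2⟩ := M.same_o hz hz' h0 h1 h0' h1' h
  have hs : sco i z ∈ ball (0 : ℂ) (M.r P) := by simpa using M.sco_mem hz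
  have hs' : sco j z' ∈ ball (0 : ℂ) (M.r Q) := by simpa using M.sco_mem hz'
  have hsA : sco i z ∈ ball (0 : ℂ) (An.r P) := ball_subset_ball (M.r_le P) hs
  have hsA' : sco j z' ∈ ball (0 : ℂ) (An.r Q) := ball_subset_ball (M.r_le Q) hs'
  obtain ⟨f, hf, hfs, hf', hfc, hfn⟩ := An.tr P Q _ hsA _ hsA' e1
  refine ⟨f, hf, hfs, hf', hfc, hfn, ?_⟩
  set a := M.e (P, i) with ha
  set b := M.e (Q, j) with hb
  have hO : z ∈ M.A.O a b := PolAtlas.mem_O_of_smul hz hz' h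
  have hτ : M.A.τ a b z = z' := PolAtlas.τ_eq_of_smul hz hz' h
  have hdτ : DifferentiableAt ℂ (M.A.τ a b) z :=
    (M.A.hol_τ a b).differentiableAt ((M.A.isOpen_O a b).mem_nhds hO)
  have hdP := (det_psi (T := T) (P := P) (i := i) h0 h1).1
  have hdQ : DifferentiableAt ℂ (psi T Q j) (M.A.τ a b z) := by
    rw [hτ]; exact (det_psi h0' h1').1
  -- the map `(s, w) ↦ (f s, w)`
  have hfd : HasFDerivAt (fun v : E 2 => f (v 0)) (deriv f (sco i z) •
      ContinuousLinearMap.proj (R := ℂ) (φ := fun _ : Fin 2 => ℂ) 0) (psi T P i z) := by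
    have : HasDerivAt f (deriv f (sco i z)) ((psi T P i z) 0) :=
      hf.differentiableAt.hasDerivAt
    exact this.comp_hasFDerivAt (psi T P i z) (hasFDerivAt_pr 0 _)
  have hFd : DifferentiableAt ℂ (fun v : E 2 => (![f (v 0), v 1] : E 2)) (psi T P i z) :=
    differentiableAt_psi_of hfd (hasFDerivAt_pr 1 _)
  have key : (fun v => psi T Q j (M.A.τ a b v)) =ᶠ[𝓝 z]
      fun v => (![f (psi T P i v 0), psi T P i v 1] : E 2) := by
    have c0 : ∀ᶠ v in 𝓝 z, v 0 ≠ 0 :=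
      (continuous_apply 0).continuousAt.eventually_ne h0
    have c1 : ∀ᶠ v in 𝓝 z, v 1 ≠ 0 :=
      (continuous_apply 1).continuousAt.eventually_ne h1
    have c0' : ∀ᶠ v in 𝓝 z, (M.A.τ a b v) 0 ≠ 0 :=
      ((continuous_apply 0).continuousAt.comp hdτ.continuousAt).eventually_ne
        (by show M.A.τ a b z 0 ≠ 0; rw [hτ]; exact h0')
    have c1' : ∀ᶠ v in 𝓝 z, (M.A.τ a b v) 1 ≠ 0 :=
      ((continuous_apply 1).continuousAt.comp hdτ.continuousAt).eventually_ne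
        (by show M.A.τ a b z 1 ≠ 0; rw [hτ]; exact h1')
    have cs : ContinuousAt (fun v => psi T P i v 0) z :=
      (continuous_apply 0).continuousAt.comp hdP.continuousAt
    have c2 : ∀ᶠ v in 𝓝 z, An.c Q (f (psi T P i v 0)) = An.c P (psi T P i v 0) :=
      cs.eventually hfc
    have c3 : ∀ᶠ v in 𝓝 z, f (psi T P i v 0) ∈ ball (0 : ℂ) (An.r Q) := by
      have : ContinuousAt (fun v => f (psi T P i v 0)) z :=
        ContinuousAt.comp (g := f) (f := fun v => psi T P i v 0) hf.continuousAt cs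
      refine this.eventually (isOpen_ball.mem_nhds ?_)
      show f (sco i z) ∈ _
      rw [hfs]; exact hsA'
    filter_upwards [(M.A.isOpen_O a b).mem_nhds hO, c0, c1, c0', c1', c2, c3] with v v1 v2 v3 v4 v5
      v6 v7
    obtain ⟨w1, w2⟩ := M.A.trans a b v v1.1 v1.2
    obtain ⟨u1, u2⟩ := M.same_o v1.1 w1 v2 v3 v4 v5 w2
    have u3 : An.c Q (f (sco i v)) = An.c Q (sco j (M.A.τ a b v)) := by
      rw [← u1]; exact v6
    have u4 : f (sco i v) = sco j (M.A.τ a b v) :=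
      An.inj Q v7 (ball_subset_ball (M.r_le Q) (by simpa using M.sco_mem w1)) u3
    show (![sco j (M.A.τ a b v), wco T Q j (M.A.τ a b v)] : E 2) =
      ![f (sco i v), wco T P i v]
    rw [u4, u2]
  have hj := congrArg (fun L : E 2 →L[ℂ] E 2 => L) (key.fderiv_eq (𝕜 := ℂ))
  have hj2 : jac (fun v => psi T Q j (M.A.τ a b v)) z =
      jac (fun v => (![f (psi T P i v 0), psi T P i v 1] : E 2)) z := by
    unfold jac
    rw [key.fderiv_eq]
  rw [jac_comp hdτ hdQ, jac_comp (s := fun v : E 2 => (![f (v 0), v 1] : E 2)) hdP hFd,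
    jac_of_hasFDerivAt hfd (hasFDerivAt_pr 1 _), hτ] at hj2
  have hj3 := congrArg Matrix.det hj2
  rw [Matrix.det_mul, Matrix.det_mul, Matrix.det_fin_two_of] at hj3
  have s01 : (Pi.single 0 1 : E 2) 1 = 0 := by simp
  have s10 : (Pi.single 1 1 : E 2) 0 = 0 := by simp
  have s00 : (Pi.single 0 1 : E 2) 0 = 1 := by simp
  have s11 : (Pi.single 1 1 : E 2) 1 = 1 := by simp
  simp only [ContinuousLinearMap.proj_apply, _root_.smul_apply, smul_eq_mul, s00, s01, s10, s11,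
    mul_one, mul_zero, sub_zero] at hj3
  have d1 := (det_psi (T := T) (P := P) (i := i) h0 h1).2
  have d2 := (det_psi (T := T) (P := Q) (i := j) h0' h1').2
  have n1 : (jac (M.A.τ a b) z).det ≠ 0 := PolAtlas.jac_τ_det hO
  have n3 : ∀ (P : T.X.Pt) (i : Fin 3) (z : E 2), z 0 ≠ 0 → z 1 ≠ 0 →
      (jac (psi T P i) z).det ≠ 0 := fun P i z h0 h1 => det_psi_ne h0 h1
  have e3 := congrArg (fun x : ℂ => Real.log (‖x‖ ^ 2)) hj3
  simp only [norm_mul, mul_pow] at e3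
  rw [Real.log_mul (by have := norm_ne_zero_iff.2 (n3 Q j z' h0' h1'); positivity)
    (by have := norm_ne_zero_iff.2 n1; positivity),
    Real.log_mul (by have := norm_ne_zero_iff.2 hf'; positivity)
    (by have := norm_ne_zero_iff.2 (n3 P i z h0 h1); positivity), d1, d2, e2] at e3
  rw [PolAtlas.logdet_τ hH hO, hτ]
  linarith

end SigModel

end Sig

end

end Pool.Agent.YTDA


end

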