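import Pool.Agent.YTDA.FinDefs
import Pool.Agent.YTDM.P38

/- source: Pool.Agent.YTDA.Holo -/

section

/-!
# Holomorphic functions of several variables are analytic

Cauchy estimates and Taylor expansions for Fréchet differentiable functions on open subsets of a
finite-dimensional complex normed space.
-/

namespace Pool.Agent.YTDA.Holo

open Complex Set Topology ContDiff Metric Filter

universe u

variable {E F : Type u} [NormedAddCommGroup E] [NormedSpace ℂ E] [NormedAddCommGroup F]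
  [NormedSpace ℂ F]

/-- Cauchy's estimate. -/
theorem norm_fderiv_le {f : E → F} {c : E} {R M : ℝ} (hR : 0 < R)
    (hf : DifferentiableOn ℂ f (ball c R)) (hM : ∀ z ∈ ball c R, ‖f z‖ ≤ M) :
    ‖fderiv ℂ f c‖ ≤ 2 * M / R := by
  apply norm_fderiv_le_div_of_mapsTo_ball hf _ hR
  intro z hz
  rw [mem_closedBall, dist_eq_norm]
  have h1 := hM z hz
  have h2 := hM c (mem_ball_self hR)
  have h3 := norm_sub_le (f z) (f c)
  linarith

/-- Differentiable limits. -/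
theorem differentiableAt_of_limit [CompleteSpace F] {f : ℕ → E → F} {g : E → F} {c : E} {R : ℝ}
    (hR : 0 < R) (hf : ∀ k, DifferentiableOn ℂ (f k) (ball c R))
    (hu : UniformCauchySeqOn f atTop (ball c R))
    (hg : ∀ z ∈ ball c R, Tendsto (fun k => f k z) atTop (𝓝 (g z))) :
    DifferentiableAt ℂ g c := by
  have hu' : UniformCauchySeqOn (fun k => fderiv ℂ (f k)) atTop (ball c (R / 2)) := by
    rw [Metric.uniformCauchySeqOn_iff] at hu ⊢
    intro ε hε
    obtain ⟨N, hN⟩ := hu (ε * R / 8) (by positivity)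
    refine ⟨N, fun m hm n hn x hx => ?_⟩
    have hsub : ball x (R / 2) ⊆ ball c R := by
      intro y hy
      rw [mem_ball] at hx hy ⊢
      have := dist_triangle y x c
      linarith
    have hx' : x ∈ ball c R := hsub (mem_ball_self (by positivity))
    have hd : ∀ k, DifferentiableAt ℂ (f k) x := fun k =>
      (hf k x hx').differentiableAt (isOpen_ball.mem_nhds hx')
    rw [dist_eq_norm, ← fderiv_sub (hd m) (hd n)]
    have h1 : ‖fderiv ℂ (f m - f n) x‖ ≤ 2 * (ε * R / 8) / (R / 2) := by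
      apply norm_fderiv_le (by positivity)
      · exact ((hf m).mono hsub).sub ((hf n).mono hsub)
      · intro z hz
        have := hN m hm n hn z (hsub hz)
        rw [dist_eq_norm] at this
        exact this.le
    have h2 : 2 * (ε * R / 8) / (R / 2) = ε / 2 := by
      field_simp
      norm_num
    rw [h2] at h1
    linarith
  have hlim : ∀ z ∈ ball c (R / 2), ∃ L, Tendsto (fun k => fderiv ℂ (f k) z) atTop (𝓝 L) := by
    intro z hz
    apply cauchySeq_tendsto_of_complete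
    rw [Metric.cauchySeq_iff]
    intro ε hε
    obtain ⟨N, hN⟩ := (Metric.uniformCauchySeqOn_iff.1 hu') ε hε
    exact ⟨N, fun m hm n hn => hN m hm n hn z hz⟩
  choose! g' hg' using hlim
  have ht : TendstoUniformlyOn (fun k => fderiv ℂ (f k)) g' atTop (ball c (R / 2)) :=
    hu'.tendstoUniformlyOn_of_tendsto hg'
  have hsub : ball c (R / 2) ⊆ ball c R := ball_subset_ball (by linarith)
  exact (hasFDerivAt_of_tendstoUniformlyOn isOpen_ball ht
    (fun k x hx => ((hf k x (hsub hx)).differentiableAt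
      (isOpen_ball.mem_nhds (hsub hx))).hasFDerivAt)
    (fun x hx => hg x (hsub hx)) (mem_ball_self (by positivity))).differentiableAt

/-- Directional derivatives of a holomorphic function are holomorphic. -/
theorem differentiableAt_fderiv_apply [CompleteSpace F] {f : E → F} {c : E} {R M : ℝ}
    (hR : 0 < R) (hf : DifferentiableOn ℂ f (ball c R)) (hM : ∀ z ∈ ball c R, ‖f z‖ ≤ M)
    (v : E) : DifferentiableAt ℂ (fun z => fderiv ℂ f z v) c := by
  have hM0 : 0 ≤ M := (norm_nonneg _).trans (hM c (mem_ball_self hR))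
  -- the radius
  set ρ : ℝ := R / 4 with hρ
  have hρ0 : 0 < ρ := by positivity
  -- the Taylor estimate
  have key : ∀ z ∈ ball c (2 * ρ), ∀ w ∈ ball z (2 * ρ),
      ‖f w - f z - fderiv ℂ f z (w - z)‖ ≤ 4 * M * (dist w z / (2 * ρ)) ^ 2 := by
    intro z hz w hw
    have hsub : ball z (2 * ρ) ⊆ ball c R := by
      intro y hy
      rw [mem_ball] at hz hy ⊢
      have := dist_triangle y z c
      linarith
    have hdz : DifferentiableAt ℂ f z := by
      have hz' : z ∈ ball c R := hsub (mem_ball_self (by positivity))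
      exact (hf z hz').differentiableAt (isOpen_ball.mem_nhds hz')
    have hn : ‖fderiv ℂ f z‖ ≤ 2 * M / (2 * ρ) :=
      norm_fderiv_le (by positivity) (hf.mono hsub) (fun y hy => hM y (hsub hy))
    set g : E → F := fun y => f y - f z - fderiv ℂ f z (y - z) with hg
    have hgz : g z = 0 := by simp [hg]
    have hgd : DifferentiableOn ℂ g (ball z (2 * ρ)) := by
      apply DifferentiableOn.sub
      · exact (hf.mono hsub).sub (differentiableOn_const _)
      · exact ((fderiv ℂ f z).differentiable.comp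
          (differentiable_id.sub (differentiable_const z))).differentiableOn
    have hmaps : MapsTo g (ball z (2 * ρ)) (closedBall (g z) (4 * M)) := by
      intro y hy
      rw [hgz, mem_closedBall, dist_zero_right]
      have h1 := hM y (hsub hy)
      have h2 := hM z (hsub (mem_ball_self (by positivity)))
      have h3 : ‖fderiv ℂ f z (y - z)‖ ≤ 2 * M := by
        calc ‖fderiv ℂ f z (y - z)‖ ≤ ‖fderiv ℂ f z‖ * ‖y - z‖ := ContinuousLinearMap.le_opNorm _ _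
          _ ≤ (2 * M / (2 * ρ)) * (2 * ρ) := by
              apply mul_le_mul hn _ (norm_nonneg _) (by positivity)
              rw [← dist_eq_norm]
              exact (mem_ball.1 hy).le
          _ = 2 * M := by field_simp
      calc ‖f y - f z - fderiv ℂ f z (y - z)‖ ≤ ‖f y - f z‖ + ‖fderiv ℂ f z (y - z)‖ :=
            norm_sub_le _ _
        _ ≤ (‖f y‖ + ‖f z‖) + ‖fderiv ℂ f z (y - z)‖ := by
            gcongr
            exact norm_sub_le _ _
        _ ≤ 4 * M := by linarith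
    have ho : (fun y => g y - g z) =o[𝓝 z] fun y => ‖y - z‖ ^ 1 := by
      rw [hgz]
      simp only [sub_zero, pow_one]
      have := hdz.hasFDerivAt.isLittleO
      exact this.norm_right
    have h4 := dist_le_mul_div_pow_of_mapsTo_ball_of_isLittleO (n := 1) hgd hmaps ho hw
    rw [hgz, dist_zero_right] at h4
    exact h4
  -- the difference quotients
  obtain ⟨δ, hδ0, hδ⟩ : ∃ δ : ℝ, 0 < δ ∧ δ * ‖v‖ < ρ := by
    refine ⟨ρ / (‖v‖ + 1), by positivity, ?_⟩
    rw [div_mul_eq_mul_div, div_lt_iff₀ (by positivity)]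
    nlinarith [norm_nonneg v]
  set t : ℕ → ℝ := fun k => δ / (k + 1) with ht
  have ht0 : ∀ k, 0 < t k := fun k => by positivity
  have htδ : ∀ k, t k ≤ δ := by
    intro k
    rw [ht]
    apply div_le_self hδ0.le
    have : (0 : ℝ) ≤ k := Nat.cast_nonneg k
    linarith
  have htv : ∀ k, ‖((t k : ℝ) : ℂ) • v‖ < ρ := by
    intro k
    rw [norm_smul, Complex.norm_real, Real.norm_eq_abs, abs_of_pos (ht0 k)]
    calc t k * ‖v‖ ≤ δ * ‖v‖ := by
          apply mul_le_mul_of_nonneg_right (htδ k) (norm_nonneg _)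
      _ < ρ := hδ
  have htlim : Tendsto t atTop (𝓝 0) := by
    have := tendsto_one_div_add_atTop_nhds_zero_nat (𝕜 := ℝ)
    have h := this.const_mul δ
    rw [mul_zero] at h
    refine h.congr fun k => ?_
    rw [ht]
    ring
  set q : ℕ → E → F := fun k z => ((t k : ℝ) : ℂ)⁻¹ • (f (z + ((t k : ℝ) : ℂ) • v) - f z) with hq
  have hmem : ∀ k, ∀ z ∈ ball c ρ, z + ((t k : ℝ) : ℂ) • v ∈ ball c R := by
    intro k z hz
    rw [mem_ball] at hz ⊢
    have h1 := dist_triangle (z + ((t k : ℝ) : ℂ) • v) z c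
    have h2 : dist (z + ((t k : ℝ) : ℂ) • v) z = ‖((t k : ℝ) : ℂ) • v‖ := by
      rw [dist_eq_norm, add_sub_cancel_left]
    have h3 := htv k
    linarith
  have hqd : ∀ k, DifferentiableOn ℂ (q k) (ball c ρ) := by
    intro k
    apply DifferentiableOn.const_smul
    apply DifferentiableOn.sub
    · exact hf.comp (differentiable_id.add (differentiable_const _)).differentiableOn (hmem k)
    · exact hf.mono (ball_subset_ball (by linarith))
  have herr : ∀ k, ∀ z ∈ ball c ρ, ‖q k z - fderiv ℂ f z v‖ ≤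
      (4 * M * (‖v‖ / (2 * ρ)) ^ 2) * t k := by
    intro k z hz
    have htk := ht0 k
    have htk' : ((t k : ℝ) : ℂ) ≠ 0 := by exact_mod_cast htk.ne'
    have h1 := key z (ball_subset_ball (by linarith) hz) (z + ((t k : ℝ) : ℂ) • v) (by
      rw [mem_ball, dist_eq_norm, add_sub_cancel_left]
      have := htv k
      linarith)
    rw [dist_eq_norm, add_sub_cancel_left, map_smul, norm_smul, Complex.norm_real,
      Real.norm_eq_abs, abs_of_pos htk] at h1
    have e1 : q k z - fderiv ℂ f z v = ((t k : ℝ) : ℂ)⁻¹ •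
        (f (z + ((t k : ℝ) : ℂ) • v) - f z - ((t k : ℝ) : ℂ) • fderiv ℂ f z v) := by
      rw [hq, smul_sub _ (f (z + ((t k : ℝ) : ℂ) • v) - f z), inv_smul_smul₀ htk']
    rw [e1, norm_smul, norm_inv, Complex.norm_real, Real.norm_eq_abs, abs_of_pos htk]
    calc (t k)⁻¹ * ‖f (z + ((t k : ℝ) : ℂ) • v) - f z - ((t k : ℝ) : ℂ) • fderiv ℂ f z v‖
        ≤ (t k)⁻¹ * (4 * M * (t k * ‖v‖ / (2 * ρ)) ^ 2) := by gcongr
      _ = (4 * M * (‖v‖ / (2 * ρ)) ^ 2) * t k := by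
          field_simp
  set C : ℝ := 4 * M * (‖v‖ / (2 * ρ)) ^ 2 with hC
  have hC0 : 0 ≤ C := by positivity
  apply differentiableAt_of_limit hρ0 hqd
  · rw [Metric.uniformCauchySeqOn_iff]
    intro ε hε
    have h1 : Tendsto (fun k => C * t k) atTop (𝓝 0) := by
      have := htlim.const_mul C
      rwa [mul_zero] at this
    obtain ⟨N, hN⟩ := (Metric.tendsto_atTop.1 h1) (ε / 2) (by positivity)
    refine ⟨N, fun m hm n hn z hz => ?_⟩
    have h2 := herr m z hz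
    have h3 := herr n z hz
    have h4 := hN m hm
    have h5 := hN n hn
    rw [dist_zero_right, Real.norm_eq_abs, abs_of_nonneg (mul_nonneg hC0 (ht0 _).le)] at h4 h5
    rw [← dist_eq_norm] at h2 h3
    have h6 := dist_triangle_right (q m z) (q n z) (fderiv ℂ f z v)
    linarith
  · intro z hz
    rw [tendsto_iff_norm_sub_tendsto_zero]
    have h1 : Tendsto (fun k => C * t k) atTop (𝓝 0) := by
      have := htlim.const_mul C
      rwa [mul_zero] at this
    exact squeeze_zero (fun k => norm_nonneg _) (fun k => herr k z hz) h1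

/-- local boundedness -/
theorem exists_ball {f : E → F} {U : Set E} (hU : IsOpen U) (hf : DifferentiableOn ℂ f U) {c : E}
    (hc : c ∈ U) : ∃ R > 0, ∃ M : ℝ, ball c R ⊆ U ∧ ∀ z ∈ ball c R, ‖f z‖ ≤ M := by
  have h1 : ContinuousAt f c := (hf.continuousOn c hc).continuousAt (hU.mem_nhds hc)
  have h2 : ∀ᶠ z in 𝓝 c, ‖f z‖ < ‖f c‖ + 1 := by
    have := h1.norm
    exact this.eventually_lt continuousAt_const (by linarith)
  obtain ⟨R, hR, hR'⟩ := Metric.eventually_nhds_iff_ball.1 (h2.and (hU.mem_nhds hc))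
  exact ⟨R, hR, ‖f c‖ + 1, fun z hz => (hR' z hz).2, fun z hz => (hR' z hz).1.le⟩

theorem differentiableOn_fderiv_apply [CompleteSpace F] {f : E → F} {U : Set E} (hU : IsOpen U)
    (hf : DifferentiableOn ℂ f U) (v : E) :
    DifferentiableOn ℂ (fun z => fderiv ℂ f z v) U := by
  intro c hc
  obtain ⟨R, hR, M, h1, h2⟩ := exists_ball hU hf hc
  exact (differentiableAt_fderiv_apply hR (hf.mono h1) h2 v).differentiableWithinAt

theorem contDiffOn_nat [CompleteSpace F] [FiniteDimensional ℂ E] {U : Set E} (hU : IsOpen U)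
    (m : ℕ) : ∀ {f : E → F}, DifferentiableOn ℂ f U → ContDiffOn ℂ m f U := by
  induction m with
  | zero =>
    intro f hf
    exact contDiffOn_zero.2 hf.continuousOn
  | succ m ih =>
    intro f hf
    rw [Nat.cast_add, Nat.cast_one, contDiffOn_succ_iff_fderiv_of_isOpen hU]
    refine ⟨hf, fun h => ?_, ?_⟩
    · exact absurd h (by simp)
    · rw [contDiffOn_clm_apply]
      intro v
      exact ih (differentiableOn_fderiv_apply hU hf v)

theorem contDiffOn_top [CompleteSpace F] [FiniteDimensional ℂ E] {U : Set E} (hU : IsOpen U)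
    {f : E → F} (hf : DifferentiableOn ℂ f U) : ContDiffOn ℂ ∞ f U :=
  contDiffOn_infty.2 fun m => contDiffOn_nat hU m hf

omit [NormedAddCommGroup F] [NormedSpace ℂ F] in
/-- Cauchy's estimates for the higher derivatives. -/
theorem norm_iteratedFDeriv_le [FiniteDimensional ℂ E] (k : ℕ) :
    ∀ (F : Type u) [NormedAddCommGroup F] [NormedSpace ℂ F] [CompleteSpace F] {f : E → F} {c : E}
    {ρ M : ℝ}, 0 < ρ → DifferentiableOn ℂ f (ball c ((k + 1) * ρ)) →
    (∀ z ∈ ball c ((k + 1) * ρ), ‖f z‖ ≤ M) → ‖iteratedFDeriv ℂ k f c‖ ≤ M * (2 / ρ) ^ k := by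
  induction k with
  | zero =>
    intro F _ _ _ f c ρ M hρ hf hM
    rw [norm_iteratedFDeriv_zero, pow_zero, mul_one]
    exact hM c (mem_ball_self (by positivity))
  | succ k ih =>
    intro F _ _ _ f c ρ M hρ hf hM
    have hsub : ∀ z ∈ ball c ((k + 1) * ρ), ball z ρ ⊆ ball c (((k + 1 : ℕ) + 1) * ρ) := by
      intro z hz y hy
      rw [mem_ball] at hz hy ⊢
      have := dist_triangle y z c
      push_cast
      linarith
    have h1 : ∀ z ∈ ball c ((k + 1) * ρ), ‖fderiv ℂ f z‖ ≤ 2 * M / ρ := fun z hz =>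
      norm_fderiv_le hρ (hf.mono (hsub z hz)) (fun y hy => hM y (hsub z hz hy))
    have h2 : DifferentiableOn ℂ (fderiv ℂ f) (ball c ((k + 1) * ρ)) := by
      have h3 : ContDiffOn ℂ ∞ (fderiv ℂ f) (ball c (((k + 1 : ℕ) + 1) * ρ)) :=
        ((contDiffOn_infty_iff_fderiv_of_isOpen isOpen_ball).1 (contDiffOn_top isOpen_ball hf)).2
      exact (h3.differentiableOn (by simp)).mono fun z hz => hsub z hz (mem_ball_self hρ)
    have h4 := ih (E →L[ℂ] F) hρ h2 h1
    rw [norm_iteratedFDeriv_fderiv] at h4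
    calc _ ≤ _ := h4
      _ = _ := by
        rw [pow_succ]
        ring

theorem analyticAt_zero [CompleteSpace F] [FiniteDimensional ℂ E] {f : E → F} {R M : ℝ}
    (hR : 0 < R) (hf : DifferentiableOn ℂ f (ball 0 R)) (hM : ∀ z ∈ ball 0 R, ‖f z‖ ≤ M) :
    AnalyticAt ℂ f 0 := by
  have hM0 : 0 ≤ M := (norm_nonneg _).trans (hM 0 (mem_ball_self hR))
  set p : FormalMultilinearSeries ℂ E F := fun k =>
    ((k.factorial : ℂ)⁻¹) • iteratedFDeriv ℂ k f 0 with hp
  have hbound : ∀ k, ‖p k‖ * (R / 6) ^ k ≤ 3 * M := by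
    intro k
    have hk : (0 : ℝ) < (k : ℝ) + 1 := by positivity
    have e1 : ((k : ℝ) + 1) * (R / (k + 1)) = R := by field_simp
    have h1 := norm_iteratedFDeriv_le k F (f := f) (c := 0) (ρ := R / (k + 1)) (M := M)
      (by positivity) (by rw [e1]; exact hf) (by rw [e1]; exact hM)
    have h2 : ‖p k‖ = (k.factorial : ℝ)⁻¹ * ‖iteratedFDeriv ℂ k f 0‖ := by
      rw [hp, norm_smul, norm_inv, Complex.norm_natCast]
    have h3 := Real.pow_div_factorial_le_exp _ hk.le k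
    have h4 : Real.exp ((k : ℝ) + 1) ≤ 3 ^ (k + 1) := by
      have : Real.exp 1 ≤ 3 := by
        have := Real.exp_one_lt_d9
        linarith
      calc Real.exp ((k : ℝ) + 1) = Real.exp 1 ^ (k + 1) := by
            rw [← Real.exp_nat_mul]
            push_cast
            ring_nf
        _ ≤ 3 ^ (k + 1) := by
            gcongr
    rw [h2]
    calc (k.factorial : ℝ)⁻¹ * ‖iteratedFDeriv ℂ k f 0‖ * (R / 6) ^ k
        ≤ (k.factorial : ℝ)⁻¹ * (M * (2 / (R / (k + 1))) ^ k) * (R / 6) ^ k := by gcongr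
      _ = M * (((k : ℝ) + 1) ^ k / k.factorial) * (1 / 3) ^ k := by
          rw [div_div_eq_mul_div, div_pow, div_pow, mul_pow]
          field_simp
          have : (6 : ℝ) ^ k * (1 / 3) ^ k = 2 ^ k := by
            rw [← mul_pow]
            norm_num
          rw [mul_assoc, this]
      _ ≤ M * 3 ^ (k + 1) * (1 / 3) ^ k := by
          gcongr
          exact h3.trans h4
      _ = 3 * M := by
          rw [pow_succ, one_div, inv_pow]
          field_simp
  refine ⟨p, ENNReal.ofReal (R / 6), ?_⟩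
  have hR6 : 0 < R / 6 := by positivity
  refine ⟨?_, by simpa using hR, ?_⟩
  · have := p.le_radius_of_bound (r := Real.toNNReal (R / 6)) (3 * M) (fun k => by
      rw [Real.coe_toNNReal _ hR6.le]
      exact hbound k)
    exact this
  · intro y hy
    have hy' : ‖y‖ < R / 6 := by
      rw [Metric.mem_eball, edist_zero_right, ← ofReal_norm] at hy
      exact (ENNReal.ofReal_lt_ofReal_iff hR6).1 hy
    set L : ℂ →L[ℂ] E := ContinuousLinearMap.toSpanSingleton ℂ y with hL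
    have hLy : ∀ t : ℂ, L t = t • y := fun t => by
      rw [hL, ContinuousLinearMap.toSpanSingleton_apply]
    set s : Set ℂ := L ⁻¹' ball 0 R with hs
    have hso : IsOpen s := isOpen_ball.preimage L.continuous
    have h0s : (0 : ℂ) ∈ s := by
      rw [hs, mem_preimage, map_zero]
      exact mem_ball_self hR
    have hgd : DifferentiableOn ℂ (f ∘ L) (ball 0 2) := by
      apply hf.comp L.differentiable.differentiableOn
      intro t ht
      rw [mem_ball, dist_zero_right] at ht ⊢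
      rw [hLy, norm_smul]
      nlinarith [norm_nonneg t, norm_nonneg y]
    have h1 := Complex.hasSum_taylorSeries_on_ball hgd (z := 1) (by simp)
    have e2 : (f ∘ L) 1 = f (0 + y) := by
      rw [Function.comp_apply, hLy, one_smul, zero_add]
    rw [e2] at h1
    have e3 : (fun n : ℕ => ((n.factorial : ℂ)⁻¹) • ((1 : ℂ) - 0) ^ n •
        iteratedDeriv n (f ∘ L) 0) = fun n : ℕ => p n fun _ : Fin n => y := by
      funext n
      have e4 : iteratedFDeriv ℂ n (f ∘ L) 0 =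
          (iteratedFDeriv ℂ n f 0).compContinuousLinearMap fun _ => L := by
        have h5 := L.iteratedFDerivWithin_comp_right (n := ∞) (i := n)
          (contDiffOn_top isOpen_ball hf) isOpen_ball.uniqueDiffOn hso.uniqueDiffOn (x := 0)
          h0s (by exact_mod_cast le_top)
        rw [iteratedFDerivWithin_of_isOpen n hso h0s] at h5
        rw [h5, iteratedFDerivWithin_of_isOpen n isOpen_ball h0s, map_zero]
      rw [sub_zero, one_pow, one_smul, iteratedDeriv_eq_iteratedFDeriv, e4, hp]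
      rw [ContinuousMultilinearMap.compContinuousLinearMap_apply]
      simp only [hLy, one_smul]
      rfl
    rw [e3] at h1
    exact h1

/-- Holomorphic functions are analytic. -/
theorem analyticOnNhd [CompleteSpace F] [FiniteDimensional ℂ E] {U : Set E} (hU : IsOpen U)
    {f : E → F} (hf : DifferentiableOn ℂ f U) : AnalyticOnNhd ℂ f U := by
  intro c hc
  obtain ⟨R, hR, M, h1, h2⟩ := exists_ball hU hf hc
  have h3 : AnalyticAt ℂ (fun y => f (y + c)) 0 := by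
    apply analyticAt_zero (M := M) hR
    · apply (hf.mono h1).comp (differentiable_id.add_const c).differentiableOn
      intro z hz
      rw [mem_ball, dist_zero_right] at hz
      rw [mem_ball, dist_eq_norm]
      simpa using hz
    · intro z hz
      apply h2
      rw [mem_ball, dist_zero_right] at hz
      rw [mem_ball, dist_eq_norm, add_sub_cancel_right]
      exact hz
  have h4 : AnalyticAt ℂ (fun y : E => y - c) c := analyticAt_id.sub analyticAt_const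
  have h5 : AnalyticAt ℂ ((fun y => f (y + c)) ∘ fun y : E => y - c) c := by
    apply AnalyticAt.comp _ h4
    rw [sub_self]
    exact h3
  refine h5.congr (Eventually.of_forall fun y => ?_)
  simp

/-- Holomorphic functions are analytic. -/
theorem contDiffOn_omega [CompleteSpace F] [FiniteDimensional ℂ E] {U : Set E} (hU : IsOpen U)
    {f : E → F} (hf : DifferentiableOn ℂ f U) {m : ℕ∞ω} : ContDiffOn ℂ m f U :=
  (analyticOnNhd hU hf).contDiffOn hU.uniqueDiffOn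

/-- Holomorphic functions are smooth as functions of real variables. -/
theorem contDiffOn_real [NormedSpace ℝ E] [NormedSpace ℝ F] [IsScalarTower ℝ ℂ E]
    [IsScalarTower ℝ ℂ F] [CompleteSpace F] [FiniteDimensional ℂ E] {U : Set E} (hU : IsOpen U)
    {f : E → F} (hf : DifferentiableOn ℂ f U) {m : ℕ∞ω} : ContDiffOn ℝ m f U :=
  (contDiffOn_omega hU hf).restrict_scalars ℝ

end Pool.Agent.YTDA.Holo


end

/- source: Pool.Agent.YTDA.Mfd -/

section

/-!
# The complex manifold of a polarized atlas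
-/

namespace Pool.Agent.YTDA

open Complex Set Topology ContDiff Manifold ComplexOrder Module

noncomputable section

namespace PolAtlas

variable {n : ℕ} {Y : Type} [MulAction ℂˣ Y] (A : PolAtlas n Y)

/-! ### Transitions -/

theorem mem_O {a b : A.ι} {z : E n} :
    z ∈ A.O a b ↔ z ∈ A.U a ∧ ∃ z' ∈ A.U b, ∃ c : ℂˣ, A.γ b z' = c • A.γ a z := Iff.rfl

theorem O_open (a b : A.ι) : IsOpen (A.O a b) := A.isOpen_O a b

theorem O_subset (a b : A.ι) : A.O a b ⊆ A.U a := fun _ h => h.1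

theorem τ_mem {a b : A.ι} {z : E n} (hz : z ∈ A.O a b) : A.τ a b z ∈ A.U b :=
  (A.trans a b z hz.1 hz.2).1

theorem γ_τ {a b : A.ι} {z : E n} (hz : z ∈ A.O a b) :
    A.γ b (A.τ a b z) = A.h a b z • A.γ a z :=
  (A.trans a b z hz.1 hz.2).2

theorem hol_τ' (a b : A.ι) : DifferentiableOn ℂ (A.τ a b) (A.O a b) := A.hol_τ a b

theorem hol_h' (a b : A.ι) : DifferentiableOn ℂ (fun z => (A.h a b z : ℂ)) (A.O a b) :=
  A.hol_h a b

/-- the transition is determined by the relation -/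
theorem eq_τ {a b : A.ι} {z z' : E n} {c : ℂˣ} (hz : z ∈ A.U a) (hz' : z' ∈ A.U b)
    (h : A.γ b z' = c • A.γ a z) : z ∈ A.O a b ∧ A.τ a b z = z' ∧ A.h a b z = c := by
  have hO : z ∈ A.O a b := ⟨hz, z', hz', c, h⟩
  have h1 := A.γ_τ hO
  have h2 : A.γ b (A.τ a b z) = (A.h a b z * c⁻¹) • A.γ b z' := by
    rw [h1, h, smul_smul, inv_mul_cancel_right]
  obtain ⟨h3, h4⟩ := A.inj b z' hz' _ (A.τ_mem hO) _ h2
  exact ⟨hO, h3, mul_inv_eq_one.1 h4⟩

theorem τ_mem_O {a b : A.ι} {z : E n} (hz : z ∈ A.O a b) : A.τ a b z ∈ A.O b a := by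
  refine ⟨A.τ_mem hz, z, hz.1, (A.h a b z)⁻¹, ?_⟩
  rw [A.γ_τ hz, inv_smul_smul]

theorem τ_τ {a b : A.ι} {z : E n} (hz : z ∈ A.O a b) :
    A.τ b a (A.τ a b z) = z ∧ A.h b a (A.τ a b z) = (A.h a b z)⁻¹ := by
  have h1 := A.eq_τ (a := b) (b := a) (z := A.τ a b z) (z' := z) (c := (A.h a b z)⁻¹)
    (A.τ_mem hz) hz.1 (by rw [A.γ_τ hz, inv_smul_smul])
  exact ⟨h1.2.1, h1.2.2⟩

theorem mem_O_self {a : A.ι} {z : E n} (hz : z ∈ A.U a) : z ∈ A.O a a :=
  ⟨hz, z, hz, 1, (one_smul _ _).symm⟩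

theorem τ_self {a : A.ι} {z : E n} (hz : z ∈ A.U a) : A.τ a a z = z ∧ A.h a a z = 1 := by
  have h1 := A.eq_τ (a := a) (b := a) (z := z) (z' := z) (c := 1) hz hz (one_smul _ _).symm
  exact ⟨h1.2.1, h1.2.2⟩

/-- transitions are continuous -/
theorem continuousOn_τ (a b : A.ι) : ContinuousOn (A.τ a b) (A.O a b) :=
  (A.hol_τ' a b).continuousOn

/-! ### The manifold -/

/-- The manifold `M = Y / ℂˣ`. -/
def Mfd (_ : PolAtlas n Y) : Type := MulAction.orbitRel.Quotient ℂˣ Y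

/-- The projection. -/
def pr (y : Y) : A.Mfd := Quotient.mk (MulAction.orbitRel ℂˣ Y) y

theorem pr_eq {y y' : Y} : A.pr y = A.pr y' ↔ ∃ c : ℂˣ, y = c • y' := by
  constructor
  · intro h
    have h1 : (MulAction.orbitRel ℂˣ Y).r y y' := Quotient.exact h
    obtain ⟨c, hc⟩ := h1
    exact ⟨c, hc.symm⟩
  · rintro ⟨c, hc⟩
    exact Quotient.sound ⟨c, hc.symm⟩

theorem pr_smul (c : ℂˣ) (y : Y) : A.pr (c • y) = A.pr y := A.pr_eq.2 ⟨c, rfl⟩

theorem exists_pr (x : A.Mfd) : ∃ y, A.pr y = x := Quotient.exists_rep x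

/-- The local parametrizations. -/
def par (a : A.ι) (z : E n) : A.Mfd := A.pr (A.γ a z)

theorem par_eq {a b : A.ι} {z z' : E n} : A.par b z' = A.par a z ↔
    ∃ c : ℂˣ, A.γ b z' = c • A.γ a z := A.pr_eq

theorem par_injOn (a : A.ι) : InjOn (A.par a) (A.U a) := by
  intro z hz z' hz' h
  obtain ⟨c, hc⟩ := A.par_eq.1 h
  exact (A.inj a z' hz' z hz c hc).1

theorem exists_par (x : A.Mfd) : ∃ a, ∃ z ∈ A.U a, A.par a z = x := by
  obtain ⟨y, rfl⟩ := A.exists_pr x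
  obtain ⟨a, z, hz, c, rfl⟩ := A.cover y
  exact ⟨a, z, hz, (A.pr_smul c _).symm⟩

theorem mem_O_iff_par {a b : A.ι} {z : E n} :
    z ∈ A.O a b ↔ z ∈ A.U a ∧ A.par a z ∈ A.par b '' A.U b := by
  rw [mem_O]
  constructor
  · rintro ⟨h1, z', h2, c, h3⟩
    exact ⟨h1, z', h2, A.par_eq.2 ⟨c, h3⟩⟩
  · rintro ⟨h1, z', h2, h3⟩
    obtain ⟨c, hc⟩ := A.par_eq.1 h3
    exact ⟨h1, z', h2, c, hc⟩

theorem par_τ {a b : A.ι} {z : E n} (hz : z ∈ A.O a b) : A.par b (A.τ a b z) = A.par a z :=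
  A.par_eq.2 ⟨_, A.γ_τ hz⟩

theorem τ_of_par {a b : A.ι} {z z' : E n} (hz : z ∈ A.U a) (hz' : z' ∈ A.U b)
    (h : A.par b z' = A.par a z) : z ∈ A.O a b ∧ A.τ a b z = z' := by
  obtain ⟨c, hc⟩ := A.par_eq.1 h
  have := A.eq_τ hz hz' hc
  exact ⟨this.1, this.2.1⟩

instance : TopologicalSpace A.Mfd where
  IsOpen V := ∀ a, IsOpen {z | z ∈ A.U a ∧ A.par a z ∈ V}
  isOpen_univ a := by simpa using A.isOpen_U a
  isOpen_inter V W hV hW a := by
    have h := (hV a).inter (hW a)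
    refine (congrArg IsOpen ?_).mp h
    ext z
    simp only [mem_inter_iff, mem_ofPred_eq]
    tauto
  isOpen_sUnion S hS a := by
    have h : IsOpen (⋃ V ∈ S, {z | z ∈ A.U a ∧ A.par a z ∈ V}) :=
      isOpen_biUnion fun V hV => hS V hV a
    refine (congrArg IsOpen ?_).mp h
    ext z
    simp only [mem_iUnion, mem_ofPred_eq, mem_sUnion]
    constructor
    · rintro ⟨V, hV, h1, h2⟩
      exact ⟨h1, V, hV, h2⟩
    · rintro ⟨h1, V, hV, h2⟩
      exact ⟨V, hV, h1, h2⟩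

theorem isOpen_iff {V : Set A.Mfd} : IsOpen V ↔ ∀ a, IsOpen {z | z ∈ A.U a ∧ A.par a z ∈ V} :=
  Iff.rfl

theorem isOpen_image {a : A.ι} {W : Set (E n)} (hW : IsOpen W) (hWU : W ⊆ A.U a) :
    IsOpen (A.par a '' W) := by
  intro b
  have h : IsOpen (A.O b a ∩ A.τ b a ⁻¹' W) :=
    (A.continuousOn_τ b a).isOpen_inter_preimage (A.O_open b a) hW
  refine (congrArg IsOpen ?_).mp h
  ext z
  constructor
  · rintro ⟨h1, h2⟩
    exact ⟨h1.1, A.τ b a z, h2, A.par_τ h1⟩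
  · rintro ⟨h1, w, h2, h3⟩
    obtain ⟨h4, h5⟩ := A.τ_of_par h1 (hWU h2) h3
    refine ⟨h4, ?_⟩
    rw [mem_preimage, h5]
    exact h2

/-- The domain of the chart. -/
def dom (a : A.ι) : Set A.Mfd := A.par a '' A.U a

theorem isOpen_dom (a : A.ι) : IsOpen (A.dom a) := A.isOpen_image (A.isOpen_U a) Subset.rfl

theorem continuousOn_par (a : A.ι) : ContinuousOn (A.par a) (A.U a) := by
  rw [continuousOn_open_iff (A.isOpen_U a)]
  intro V hV
  exact hV a

/-- The coordinates. -/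
def co (a : A.ι) : A.Mfd → E n := Function.invFunOn (A.par a) (A.U a)

theorem co_mem {a : A.ι} {x : A.Mfd} (hx : x ∈ A.dom a) : A.co a x ∈ A.U a :=
  Function.invFunOn_mem hx

theorem par_co {a : A.ι} {x : A.Mfd} (hx : x ∈ A.dom a) : A.par a (A.co a x) = x :=
  Function.invFunOn_eq hx

theorem par_mem {a : A.ι} {z : E n} (hz : z ∈ A.U a) : A.par a z ∈ A.dom a := ⟨z, hz, rfl⟩

theorem co_par {a : A.ι} {z : E n} (hz : z ∈ A.U a) : A.co a (A.par a z) = z :=
  A.par_injOn a (A.co_mem (A.par_mem hz)) hz (A.par_co (A.par_mem hz))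

theorem co_par' {a b : A.ι} {z : E n} (hz : z ∈ A.O a b) :
    A.co b (A.par a z) = A.τ a b z := by
  rw [← A.par_τ hz]
  exact A.co_par (A.τ_mem hz)

theorem continuousOn_co (a : A.ι) : ContinuousOn (A.co a) (A.dom a) := by
  rw [continuousOn_open_iff (A.isOpen_dom a)]
  intro W hW
  have h := A.isOpen_image (a := a) (hW.inter (A.isOpen_U a)) inter_subset_right
  refine (congrArg IsOpen ?_).mp h
  ext x
  constructor
  · rintro ⟨z, ⟨h1, h2⟩, rfl⟩
    refine ⟨A.par_mem h2, ?_⟩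
    rw [mem_preimage, A.co_par h2]
    exact h1
  · rintro ⟨h1, h2⟩
    exact ⟨A.co a x, ⟨h2, A.co_mem h1⟩, A.par_co h1⟩

/-- The chart. -/
def chart (a : A.ι) : OpenPartialHomeomorph A.Mfd (E n) where
  toFun := A.co a
  invFun := A.par a
  source := A.dom a
  target := A.U a
  map_source' _ hx := A.co_mem hx
  map_target' _ hz := A.par_mem hz
  left_inv' _ hx := A.par_co hx
  right_inv' _ hz := A.co_par hz
  open_source := A.isOpen_dom a
  open_target := A.isOpen_U a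
  continuousOn_toFun := A.continuousOn_co a
  continuousOn_invFun := A.continuousOn_par a

theorem chart_apply (a : A.ι) (x : A.Mfd) : A.chart a x = A.co a x := rfl

theorem chart_symm_apply (a : A.ι) (z : E n) : (A.chart a).symm z = A.par a z := rfl

theorem chart_source (a : A.ι) : (A.chart a).source = A.dom a := rfl

theorem chart_target (a : A.ι) : (A.chart a).target = A.U a := rfl

theorem exists_dom (x : A.Mfd) : ∃ a, x ∈ A.dom a := by
  obtain ⟨a, z, hz, rfl⟩ := A.exists_par x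
  exact ⟨a, z, hz, rfl⟩

/-- The index of the preferred chart at `x`. -/
def ix (x : A.Mfd) : A.ι := (A.exists_dom x).choose

theorem mem_ix (x : A.Mfd) : x ∈ A.dom (A.ix x) := (A.exists_dom x).choose_spec

instance : ChartedSpace (E n) A.Mfd where
  atlas := range A.chart
  chartAt x := A.chart (A.ix x)
  mem_chart_source := A.mem_ix
  chart_mem_atlas x := ⟨_, rfl⟩

theorem mem_atlas {φ : OpenPartialHomeomorph A.Mfd (E n)} :
    φ ∈ atlas (E n) A.Mfd ↔ ∃ a, A.chart a = φ := Iff.rfl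

theorem chartAt_eq (x : A.Mfd) : chartAt (E n) x = A.chart (A.ix x) := rfl

instance isManifold : IsManifold 𝓘(ℂ, E n) ω A.Mfd := by
  apply isManifold_of_contDiffOn
  rintro e e' ⟨a, rfl⟩ ⟨b, rfl⟩
  have h1 : 𝓘(ℂ, E n).symm ⁻¹' ((A.chart a).symm ≫ₕ A.chart b).source ∩ range 𝓘(ℂ, E n) =
      A.O a b := by
    ext z
    rw [A.mem_O_iff_par]
    simp only [modelWithCornersSelf_coe_symm, OpenPartialHomeomorph.trans_source,
      OpenPartialHomeomorph.symm_source, modelWithCornersSelf_coe, range_id, inter_univ,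
      preimage_id, mem_inter_iff, chart_target, mem_preimage, chart_source, chart_symm_apply, dom]
  rw [h1]
  apply (Holo.contDiffOn_omega (A.O_open a b) (A.hol_τ' a b)).congr
  intro z hz
  simp only [modelWithCornersSelf_coe, modelWithCornersSelf_coe_symm, Function.comp_apply, id]
  exact A.co_par' hz

/-! ### Compactness -/

theorem compactSpace (h : A.IsCpt) : CompactSpace A.Mfd := by
  obtain ⟨m, a, K, h1, h2⟩ := h
  refine ⟨?_⟩
  have h3 : (univ : Set A.Mfd) = ⋃ k, A.par (a k) '' K k := by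
    symm
    apply eq_univ_of_forall
    intro x
    obtain ⟨y, rfl⟩ := A.exists_pr x
    obtain ⟨k, z, hz, c, rfl⟩ := h2 y
    exact mem_iUnion.2 ⟨k, z, hz, (A.pr_smul c _).symm⟩
  rw [h3]
  exact isCompact_iUnion fun k => (h1 k).1.image_of_continuousOn
    ((A.continuousOn_par (a k)).mono (h1 k).2)

theorem t2Space (h : A.IsT2) : T2Space A.Mfd := by
  refine ⟨fun x y hxy => ?_⟩
  obtain ⟨a, z, hz, rfl⟩ := A.exists_par x
  obtain ⟨b, z', hz', rfl⟩ := A.exists_par y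
  have h1 : ∀ c : ℂˣ, A.γ b z' ≠ c • A.γ a z := by
    intro c hc
    exact hxy (A.par_eq.2 ⟨c, hc⟩).symm
  obtain ⟨V, hV, V', hV', h2⟩ := h a b z hz z' hz' h1
  obtain ⟨W, hW, hWo, hzW⟩ := mem_nhds_iff.1 hV
  obtain ⟨W', hW', hWo', hzW'⟩ := mem_nhds_iff.1 hV'
  refine ⟨A.par a '' (W ∩ A.U a), A.par b '' (W' ∩ A.U b),
    A.isOpen_image (hWo.inter (A.isOpen_U a)) inter_subset_right,
    A.isOpen_image (hWo'.inter (A.isOpen_U b)) inter_subset_right,
    ⟨z, ⟨hzW, hz⟩, rfl⟩, ⟨z', ⟨hzW', hz'⟩, rfl⟩, ?_⟩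
  rw [Set.disjoint_left]
  rintro _ ⟨w, ⟨h3, h4⟩, rfl⟩ ⟨w', ⟨h5, h6⟩, h7⟩
  obtain ⟨c, hc⟩ := A.par_eq.1 h7
  exact h2 w ⟨hW h3, h4⟩ w' ⟨hW' h5, h6⟩ c hc

end PolAtlas

end

end Pool.Agent.YTDA


end

/- source: Pool.Agent.YTDA.Mfd2 -/

section

/-!
# Holomorphic functions and the line bundle on the manifold of a polarized atlas
-/

namespace Pool.Agent.YTDA

open Complex Set Topology ContDiff Manifold ComplexOrder Module

noncomputable section

namespace PolAtlas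

variable {n : ℕ} {Y : Type} [MulAction ℂˣ Y] (A : PolAtlas n Y)

theorem mdiff_co (a : A.ι) : MDifferentiableOn 𝓘(ℂ, E n) 𝓘(ℂ, E n) (A.co a) (A.dom a) :=
  mdifferentiableOn_atlas (I := 𝓘(ℂ, E n)) (e := A.chart a) ⟨a, rfl⟩

theorem mdiff_par (a : A.ι) : MDifferentiableOn 𝓘(ℂ, E n) 𝓘(ℂ, E n) (A.par a) (A.U a) :=
  mdifferentiableOn_atlas_symm (I := 𝓘(ℂ, E n)) (e := A.chart a) ⟨a, rfl⟩

/-- Holomorphic functions in terms of charts. -/
theorem mdiff_iff {F : Type} [NormedAddCommGroup F] [NormedSpace ℂ F] {f : A.Mfd → F} {a : A.ι}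
    {W : Set A.Mfd} (hW : W ⊆ A.dom a) : MDifferentiableOn 𝓘(ℂ, E n) 𝓘(ℂ, F) f W ↔
      DifferentiableOn ℂ (fun z => f (A.par a z)) (A.U a ∩ A.par a ⁻¹' W) := by
  constructor
  · intro h
    rw [← mdifferentiableOn_iff_differentiableOn]
    exact h.comp ((A.mdiff_par a).mono inter_subset_left) inter_subset_right
  · intro h
    rw [← mdifferentiableOn_iff_differentiableOn] at h
    have h1 : MDifferentiableOn 𝓘(ℂ, E n) 𝓘(ℂ, F)
        ((fun z => f (A.par a z)) ∘ A.co a) W := by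
      apply h.comp ((A.mdiff_co a).mono hW)
      intro x hx
      refine ⟨A.co_mem (hW hx), ?_⟩
      rw [mem_preimage, A.par_co (hW hx)]
      exact hx
    apply h1.congr
    intro x hx
    rw [Function.comp_apply, A.par_co (hW hx)]

theorem mdiff_dom_iff {F : Type} [NormedAddCommGroup F] [NormedSpace ℂ F] {f : A.Mfd → F}
    {a : A.ι} : MDifferentiableOn 𝓘(ℂ, E n) 𝓘(ℂ, F) f (A.dom a) ↔
      DifferentiableOn ℂ (fun z => f (A.par a z)) (A.U a) := by
  rw [A.mdiff_iff Subset.rfl]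
  have : A.U a ∩ A.par a ⁻¹' A.dom a = A.U a := by
    apply inter_eq_left.2
    intro z hz
    exact A.par_mem hz
  rw [this]

theorem mem_dom_par {a b : A.ι} {z : E n} (hz : z ∈ A.U a) :
    A.par a z ∈ A.dom b ↔ z ∈ A.O a b := by
  rw [A.mem_O_iff_par]
  exact ⟨fun h => ⟨hz, h⟩, fun h => h.2⟩

theorem U_inter_preimage (a b : A.ι) :
    A.U a ∩ A.par a ⁻¹' (A.dom a ∩ A.dom b) = A.O a b := by
  ext z
  constructor
  · rintro ⟨h1, h2⟩
    exact (A.mem_dom_par h1).1 h2.2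
  · intro h
    exact ⟨h.1, A.par_mem h.1, (A.mem_dom_par h.1).2 h⟩

/-! ### The line bundle -/

include A in
/-- The action of `ℂˣ` is free. -/
theorem smul_inj {c c' : ℂˣ} {y : Y} (h : c • y = c' • y) : c = c' := by
  obtain ⟨a, z, hz, d, rfl⟩ := A.cover y
  have h1 : A.γ a z = ((d⁻¹ * c'⁻¹) * (c * d)) • A.γ a z := by
    rw [← smul_smul, ← smul_smul c, h, smul_smul, smul_smul]
    have : d⁻¹ * c'⁻¹ * c' * d = 1 := by
      rw [inv_mul_cancel_right, inv_mul_cancel]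
    rw [this, one_smul]
  have h2 := (A.inj a z hz z hz _ h1).2
  have h3 : d⁻¹ * c'⁻¹ * (c * d) = c * c'⁻¹ := by
    rw [mul_comm c d, mul_assoc, mul_comm (c'⁻¹), ← mul_assoc, ← mul_assoc, inv_mul_cancel,
      one_mul]
  rw [h3] at h2
  exact mul_inv_eq_one.1 h2

/-- The cocycle. -/
def gg (a b : A.ι) (x : A.Mfd) : ℂˣ := A.h b a (A.co b x)

theorem γ_co {a b : A.ι} {x : A.Mfd} (ha : x ∈ A.dom a) (hb : x ∈ A.dom b) :
    A.γ a (A.co a x) = A.gg a b x • A.γ b (A.co b x) := by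
  have h1 : A.co b x ∈ A.O b a := by
    rw [← A.mem_dom_par (A.co_mem hb), A.par_co hb]
    exact ha
  have h2 := A.γ_τ h1
  rw [← A.co_par' h1, A.par_co hb] at h2
  exact h2

theorem gg_unique {a b : A.ι} {x : A.Mfd} (ha : x ∈ A.dom a) (hb : x ∈ A.dom b) {c : ℂˣ}
    (h : A.γ a (A.co a x) = c • A.γ b (A.co b x)) : A.gg a b x = c := by
  apply A.smul_inj (y := A.γ b (A.co b x))
  rw [← A.γ_co ha hb, h]

theorem gg_mul {a b c : A.ι} {x : A.Mfd} (ha : x ∈ A.dom a) (hb : x ∈ A.dom b)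
    (hc : x ∈ A.dom c) : A.gg a b x * A.gg b c x = A.gg a c x := by
  symm
  apply A.gg_unique ha hc
  rw [← smul_smul, ← A.γ_co hb hc, ← A.γ_co ha hb]

theorem gg_self {a : A.ι} {x : A.Mfd} (ha : x ∈ A.dom a) : A.gg a a x = 1 :=
  A.gg_unique ha ha (one_smul _ _).symm

/-- The line bundle on the manifold. -/
def lb : LineBundle n A.Mfd where
  ι := A.ι
  V := A.dom
  isOpen := A.isOpen_dom
  cover := A.exists_dom
  g a b x := A.gg a b x
  ne_zero a b x _ := (A.gg a b x).ne_zero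
  hol a b := by
    rw [A.mdiff_iff (a := b) inter_subset_right, inter_comm (A.dom a), A.U_inter_preimage]
    apply (A.hol_h' b a).congr
    intro z hz
    simp only [gg, A.co_par hz.1]
  cocycle a b c x hx := by
    rw [← Units.val_mul, A.gg_mul hx.1.1 hx.1.2 hx.2]

theorem lb_ι : A.lb.ι = A.ι := rfl

theorem lb_V (a : A.ι) : A.lb.V a = A.dom a := rfl

theorem lb_g (a b : A.ι) (x : A.Mfd) : A.lb.g a b x = A.gg a b x := rfl

/-! ### Extension of local data -/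

/-- A function on `Y` constructed from local data: `y = c • γ a z` is sent to `φ c a (par a z)`. -/
def glue {β : Type} (φ : ℂˣ → A.ι → A.Mfd → β) (y : Y) : β :=
  φ (A.cover y).choose_spec.choose_spec.2.choose (A.cover y).choose
    (A.par (A.cover y).choose (A.cover y).choose_spec.choose)

theorem glue_eq {β : Type} {φ : ℂˣ → A.ι → A.Mfd → β}
    (hφ : ∀ (c : ℂˣ) (a b : A.ι) (x : A.Mfd), x ∈ A.dom a → x ∈ A.dom b →
      φ c a x = φ (c * A.gg a b x) b x) {a : A.ι} {z : E n} (hz : z ∈ A.U a) (c : ℂˣ) :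
    A.glue φ (c • A.γ a z) = φ c a (A.par a z) := by
  set y := c • A.γ a z with hy
  set b := (A.cover y).choose with hb
  set w := (A.cover y).choose_spec.choose with hw
  have hwU : w ∈ A.U b := (A.cover y).choose_spec.choose_spec.1
  set d := (A.cover y).choose_spec.choose_spec.2.choose with hd
  have h1 : y = d • A.γ b w := (A.cover y).choose_spec.choose_spec.2.choose_spec
  have e : A.glue φ y = φ d b (A.par b w) := rfl
  have hx : A.par b w = A.par a z := by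
    unfold par
    rw [← A.pr_smul d, ← h1, hy, A.pr_smul]
  rw [e, hx]
  have ha : A.par a z ∈ A.dom a := A.par_mem hz
  have hb' : A.par a z ∈ A.dom b := by
    rw [← hx]
    exact A.par_mem hwU
  rw [hφ c a b _ ha hb']
  congr 1
  apply A.smul_inj (y := A.γ b w)
  have h2 := A.γ_co ha hb'
  rw [A.co_par hz, ← hx, A.co_par hwU] at h2
  rw [← h1, hy, h2, smul_smul, hx]

/-! ### Sections -/

/-- The space of sections. -/
def secs (k : ℕ) : Submodule ℂ (Y → ℂ) where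
  carrier := {F | A.IsSec k F}
  zero_mem' := ⟨fun c y => by simp, fun a => differentiableOn_const _⟩
  add_mem' := by
    rintro F F' hF hF'
    exact ⟨fun c y => by rw [Pi.add_apply, Pi.add_apply, hF.hom, hF'.hom, mul_add],
      fun a => (hF.hol a).add (hF'.hol a)⟩
  smul_mem' := by
    rintro c F hF
    refine ⟨fun d y => ?_, fun a => (hF.hol a).const_smul c⟩
    rw [Pi.smul_apply, Pi.smul_apply, hF.hom, smul_eq_mul, smul_eq_mul]
    ring

theorem mem_secs {k : ℕ} {F : Y → ℂ} : F ∈ A.secs k ↔ A.IsSec k F := Iff.rfl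

open Classical in
/-- local expressions of a function on `Y` -/
def locs (F : Y → ℂ) (a : A.ι) (x : A.Mfd) : ℂ := if x ∈ A.dom a then F (A.γ a (A.co a x)) else 0

theorem locs_of_mem (F : Y → ℂ) {a : A.ι} {x : A.Mfd} (hx : x ∈ A.dom a) :
    A.locs F a x = F (A.γ a (A.co a x)) := if_pos hx

theorem locs_par (F : Y → ℂ) {a : A.ι} {z : E n} (hz : z ∈ A.U a) :
    A.locs F a (A.par a z) = F (A.γ a z) := by
  rw [A.locs_of_mem F (A.par_mem hz), A.co_par hz]

theorem locs_mem {k : ℕ} {F : Y → ℂ} (hF : A.IsSec k F) : A.locs F ∈ A.lb.H0 k := by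
  have h1 : ∀ a : A.ι, MDifferentiableOn 𝓘(ℂ, E n) 𝓘(ℂ) (A.locs F a) (A.dom a) := by
    intro a
    rw [A.mdiff_dom_iff]
    apply (hF.hol a).congr
    intro z hz
    exact A.locs_par F hz
  have h2 : ∀ (a b : A.ι) (x : A.Mfd), x ∈ A.dom a ∩ A.dom b →
      A.locs F a x = (A.gg a b x : ℂ) ^ k * A.locs F b x := by
    intro a b x hx
    rw [A.locs_of_mem F hx.1, A.locs_of_mem F hx.2, A.γ_co hx.1 hx.2, hF.hom]
  exact ⟨fun a x hx => if_neg hx, h1, h2⟩

/-- The function on `Y` given by a section. -/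
def ofLocs (k : ℕ) (f : A.ι → A.Mfd → ℂ) : Y → ℂ := A.glue fun c a x => (c : ℂ) ^ k * f a x

theorem ofLocs_eq {k : ℕ} {f : A.ι → A.Mfd → ℂ} (hf : f ∈ A.lb.H0 k) {a : A.ι} {z : E n}
    (hz : z ∈ A.U a) (c : ℂˣ) :
    A.ofLocs k f (c • A.γ a z) = (c : ℂ) ^ k * f a (A.par a z) := by
  unfold ofLocs
  rw [A.glue_eq _ hz]
  intro c a b x ha hb
  have h := hf.2.2 a b x ⟨ha, hb⟩
  rw [A.lb_g] at h
  rw [h, Units.val_mul, mul_pow, mul_assoc]

theorem ofLocs_isSec {k : ℕ} {f : A.ι → A.Mfd → ℂ} (hf : f ∈ A.lb.H0 k) :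
    A.IsSec k (A.ofLocs k f) := by
  constructor
  · intro c y
    obtain ⟨a, z, hz, d, rfl⟩ := A.cover y
    rw [smul_smul, A.ofLocs_eq hf hz, A.ofLocs_eq hf hz, Units.val_mul, mul_pow, mul_assoc]
  · intro a
    have h : MDifferentiableOn 𝓘(ℂ, E n) 𝓘(ℂ) (f a) (A.dom a) := hf.2.1 a
    rw [A.mdiff_dom_iff] at h
    apply h.congr
    intro z hz
    have := A.ofLocs_eq hf hz 1
    rw [one_smul, Units.val_one, one_pow, one_mul] at this
    exact this

/-- Sections of the line bundle are the homogeneous functions. -/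
def secEquiv (k : ℕ) : A.secs k ≃ₗ[ℂ] A.lb.H0 k where
  toFun F := ⟨A.locs F.1, A.locs_mem F.2⟩
  invFun f := ⟨A.ofLocs k f.1, A.ofLocs_isSec f.2⟩
  map_add' F F' := by
    apply Subtype.ext
    funext a x
    show A.locs (F.1 + F'.1) a x = A.locs F.1 a x + A.locs F'.1 a x
    unfold locs
    split_ifs
    · rfl
    · rw [add_zero]
  map_smul' c F := by
    apply Subtype.ext
    funext a x
    show A.locs (c • F.1) a x = c • A.locs F.1 a x
    unfold locs
    split_ifs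
    · rfl
    · rw [smul_zero]
  left_inv F := by
    apply Subtype.ext
    funext y
    obtain ⟨a, z, hz, c, rfl⟩ := A.cover y
    show A.ofLocs k (A.locs F.1) (c • A.γ a z) = F.1 (c • A.γ a z)
    rw [A.ofLocs_eq (A.locs_mem F.2) hz, A.locs_par _ hz, F.2.hom]
  right_inv f := by
    apply Subtype.ext
    funext a x
    show A.locs (A.ofLocs k f.1) a x = f.1 a x
    by_cases hx : x ∈ A.dom a
    · rw [A.locs_of_mem _ hx]
      have := A.ofLocs_eq f.2 (A.co_mem hx) 1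
      rw [one_smul, Units.val_one, one_pow, one_mul] at this
      rw [this, A.par_co hx]
    · rw [f.2.1 a x hx]
      exact if_neg hx

theorem secEquiv_apply {k : ℕ} (F : A.secs k) : (A.secEquiv k F : A.lb.ι → A.Mfd → ℂ) =
    A.locs F.1 := rfl

theorem locs_mul (F F' : Y → ℂ) : A.locs (F * F') = (A.locs F * A.locs F' : A.ι → A.Mfd → ℂ) := by
  funext a x
  show A.locs (F * F') a x = A.locs F a x * A.locs F' a x
  unfold locs
  split_ifs
  · rfl
  · rw [mul_zero]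

/-! ### Connectedness -/

theorem connectedSpace [Nonempty Y] (h : ∀ F, A.IsSec 0 F → ∃ c, ∀ y, F y = c) :
    ConnectedSpace A.Mfd := by
  classical
  have hne : Nonempty A.Mfd := ⟨A.pr (Classical.arbitrary Y)⟩
  rw [connectedSpace_iff_clopen]
  refine ⟨hne, fun V hV => ?_⟩
  set F : Y → ℂ := fun y => if A.pr y ∈ V then 1 else 0 with hF
  have hsec : A.IsSec 0 F := by
    constructor
    · intro c y
      rw [hF, pow_zero, one_mul]
      simp only [A.pr_smul]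
    · intro a z hz
      apply DifferentiableAt.differentiableWithinAt
      have hO : ∀ W : Set A.Mfd, IsOpen W → A.par a z ∈ W → ∀ᶠ w in 𝓝 z, A.par a w ∈ W := by
        intro W hW hzW
        have := ((A.isOpen_iff.1 hW a).mem_nhds ⟨hz, hzW⟩)
        filter_upwards [this] with w hw
        exact hw.2
      by_cases hzV : A.par a z ∈ V
      · have : (fun w => F (A.γ a w)) =ᶠ[𝓝 z] fun _ => 1 := by
          filter_upwards [hO V hV.2 hzV] with w hw
          exact if_pos hw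
        exact (differentiableAt_const _).congr_of_eventuallyEq this
      · have : (fun w => F (A.γ a w)) =ᶠ[𝓝 z] fun _ => 0 := by
          filter_upwards [hO Vᶜ hV.1.isOpen_compl hzV] with w hw
          exact if_neg hw
        exact (differentiableAt_const _).congr_of_eventuallyEq this
  obtain ⟨c, hc⟩ := h F hsec
  by_cases hc1 : c = 1
  · right
    apply eq_univ_of_forall
    intro x
    obtain ⟨y, rfl⟩ := A.exists_pr x
    by_contra hx
    have h1 := hc y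
    rw [hF] at h1
    simp only [if_neg hx] at h1
    rw [← h1] at hc1
    exact zero_ne_one hc1
  · left
    apply eq_empty_of_forall_notMem
    intro x hx
    obtain ⟨y, rfl⟩ := A.exists_pr x
    have h1 := hc y
    rw [hF] at h1
    simp only [if_pos hx] at h1
    exact hc1 h1.symm

end PolAtlas

end

end Pool.Agent.YTDA


end

/- source: Pool.Agent.YTDA.Mfd3 -/

section

/-!
# Kähler metrics and vector fields on the manifold of a polarized atlas
-/

namespace Pool.Agent.YTDA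

open Complex Set Topology ContDiff Manifold ComplexOrder Module Filter Pl

noncomputable section

namespace PolAtlas

variable {n : ℕ} {Y : Type} [MulAction ℂˣ Y] (A : PolAtlas n Y)

instance isManifoldReal : IsManifold 𝓘(ℝ, E n) ω A.Mfd := by
  apply isManifold_of_contDiffOn
  rintro e e' ⟨a, rfl⟩ ⟨b, rfl⟩
  have h1 : 𝓘(ℝ, E n).symm ⁻¹' ((A.chart a).symm ≫ₕ A.chart b).source ∩ range 𝓘(ℝ, E n) =
      A.O a b := by
    ext z
    rw [A.mem_O_iff_par]
    simp only [modelWithCornersSelf_coe_symm, OpenPartialHomeomorph.trans_source,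
      OpenPartialHomeomorph.symm_source, modelWithCornersSelf_coe, range_id, inter_univ,
      preimage_id, mem_inter_iff, chart_target, mem_preimage, chart_source, chart_symm_apply, dom]
  rw [h1]
  apply (Holo.contDiffOn_real (A.O_open a b) (A.hol_τ' a b)).congr
  intro z hz
  simp only [modelWithCornersSelf_coe, modelWithCornersSelf_coe_symm, Function.comp_apply, id]
  exact A.co_par' hz

theorem smooth_par (a : A.ι) : ContMDiffOn 𝓘(ℝ, E n) 𝓘(ℝ, E n) ∞ (A.par a) (A.U a) :=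
  contMDiffOn_symm_of_mem_maximalAtlas (I := 𝓘(ℝ, E n)) (n := ∞) (e := A.chart a)
    (IsManifold.subset_maximalAtlas ⟨a, rfl⟩)

theorem smooth_co (a : A.ι) : ContMDiffOn 𝓘(ℝ, E n) 𝓘(ℝ, E n) ∞ (A.co a) (A.dom a) :=
  contMDiffOn_of_mem_maximalAtlas (I := 𝓘(ℝ, E n)) (n := ∞) (e := A.chart a)
    (IsManifold.subset_maximalAtlas ⟨a, rfl⟩)

/-- Smooth functions in terms of charts. -/
theorem smooth_dom_iff {f : A.Mfd → ℝ} {a : A.ι} :
    ContMDiffOn 𝓘(ℝ, E n) 𝓘(ℝ) ∞ f (A.dom a) ↔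
      ContDiffOn ℝ ∞ (fun z => f (A.par a z)) (A.U a) := by
  constructor
  · intro h
    rw [← contMDiffOn_iff_contDiffOn]
    exact h.comp (A.smooth_par a) fun z hz => A.par_mem hz
  · intro h
    rw [← contMDiffOn_iff_contDiffOn] at h
    have h1 : ContMDiffOn 𝓘(ℝ, E n) 𝓘(ℝ) ∞ ((fun z => f (A.par a z)) ∘ A.co a) (A.dom a) :=
      h.comp (A.smooth_co a) fun x hx => A.co_mem hx
    apply h1.congr
    intro x hx
    rw [Function.comp_apply, A.par_co hx]

/-! ### Metrics -/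

/-- The hermitian metric on `Y` given by a metric on the line bundle. -/
def toH (m : A.lb.KMetric) : Y → ℝ :=
  A.glue fun c a x => ‖(c : ℂ)‖ ^ 2 * (m.h a x)⁻¹

theorem h_trans (m : A.lb.KMetric) {a b : A.ι} {x : A.Mfd} (ha : x ∈ A.dom a)
    (hb : x ∈ A.dom b) : m.h b x = ‖(A.gg a b x : ℂ)‖ ^ 2 * m.h a x :=
  m.trans a b x ⟨ha, hb⟩

theorem h_pos (m : A.lb.KMetric) {a : A.ι} {x : A.Mfd} (ha : x ∈ A.dom a) : 0 < m.h a x :=
  m.pos a x ha

theorem toH_eq (m : A.lb.KMetric) {a : A.ι} {z : E n} (hz : z ∈ A.U a) (c : ℂˣ) :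
    A.toH m (c • A.γ a z) = ‖(c : ℂ)‖ ^ 2 * (m.h a (A.par a z))⁻¹ := by
  unfold toH
  rw [A.glue_eq _ hz]
  intro c a b x ha hb
  have h1 := A.h_trans m ha hb
  have h2 : ‖(A.gg a b x : ℂ)‖ ≠ 0 := norm_ne_zero_iff.2 (A.gg a b x).ne_zero
  have h3 := (A.h_pos m ha).ne'
  rw [h1, Units.val_mul, norm_mul]
  field_simp

theorem toH_γ (m : A.lb.KMetric) {a : A.ι} {z : E n} (hz : z ∈ A.U a) :
    A.toH m (A.γ a z) = (m.h a (A.par a z))⁻¹ := by
  have := A.toH_eq m hz 1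
  rw [one_smul, Units.val_one, norm_one, one_pow, one_mul] at this
  exact this

theorem pot_toH (m : A.lb.KMetric) {a : A.ι} {z : E n} (hz : z ∈ A.U a) :
    A.pot (A.toH m) a z = -Real.log (m.h a (A.par a z)) := by
  unfold pot
  rw [A.toH_γ m hz, Real.log_inv]

theorem pot_toH_germ (m : A.lb.KMetric) {a : A.ι} {z : E n} (hz : z ∈ A.U a) :
    A.pot (A.toH m) a =ᶠ[𝓝 z] fun w => -Real.log (m.h a (A.par a w)) := by
  filter_upwards [(A.isOpen_U a).mem_nhds hz] with w hw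
  exact A.pot_toH m hw

theorem toH_isKahler (m : A.lb.KMetric) : A.IsKahler (A.toH m) where
  pos y := by
    obtain ⟨a, z, hz, c, rfl⟩ := A.cover y
    rw [A.toH_eq m hz]
    have h1 : 0 < ‖(c : ℂ)‖ := norm_pos_iff.2 c.ne_zero
    have h2 := A.h_pos m (A.par_mem hz)
    positivity
  hom c y := by
    obtain ⟨a, z, hz, d, rfl⟩ := A.cover y
    rw [smul_smul, A.toH_eq m hz, A.toH_eq m hz, Units.val_mul, norm_mul, mul_pow, mul_assoc]
  smooth a := by
    have h1 : ContMDiffOn 𝓘(ℝ, E n) 𝓘(ℝ) ∞ (m.h a) (A.dom a) := m.smooth a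
    rw [A.smooth_dom_iff] at h1
    have h2 : ContDiffOn ℝ ∞ (fun z => -Real.log (m.h a (A.par a z))) (A.U a) :=
      (h1.log fun z hz => (A.h_pos m (A.par_mem hz)).ne').neg
    exact h2.congr fun z hz => A.pot_toH m hz
  posDef a z hz := by
    rw [hess_congr (A.pot_toH_germ m hz)]
    exact m.posDef a (A.chart a) ⟨a, rfl⟩ z hz (A.par_mem hz)

theorem toH_isCsc {m : A.lb.KMetric} (h : m.IsCsc) : ∃ s, A.IsCsc (A.toH m) s := by
  obtain ⟨s, hs⟩ := h
  refine ⟨s, fun a z hz => ?_⟩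
  rw [scal_congr (A.pot_toH_germ m hz)]
  exact hs a (A.chart a) ⟨a, rfl⟩ z hz (A.par_mem hz)

/-! ### Vector fields -/

/-- The coordinates of a vector field on the manifold with respect to the chart `a`. -/
def vf (v : (x : A.Mfd) → TangentSpace 𝓘(ℂ, E n) x) (a : A.ι) (x : A.Mfd) : E n :=
  fderiv ℂ (A.τ (A.ix x) a) (A.co (A.ix x) x) (v x)

theorem co_mem_O {a b : A.ι} {x : A.Mfd} (ha : x ∈ A.dom a) (hb : x ∈ A.dom b) :
    A.co a x ∈ A.O a b := by
  rw [← A.mem_dom_par (A.co_mem ha), A.par_co ha]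
  exact hb

theorem τ_co {a b : A.ι} {x : A.Mfd} (ha : x ∈ A.dom a) (hb : x ∈ A.dom b) :
    A.τ a b (A.co a x) = A.co b x := by
  rw [← A.co_par' (A.co_mem_O ha hb), A.par_co ha]

theorem differentiableAt_τ {a b : A.ι} {z : E n} (hz : z ∈ A.O a b) :
    DifferentiableAt ℂ (A.τ a b) z :=
  (A.hol_τ' a b).differentiableAt ((A.O_open a b).mem_nhds hz)

/-- cocycle property of the transitions -/
theorem fderiv_τ_comp {a b c : A.ι} {z : E n} (hab : z ∈ A.O a b) (hac : z ∈ A.O a c) :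
    fderiv ℂ (A.τ a c) z = (fderiv ℂ (A.τ b c) (A.τ a b z)).comp (fderiv ℂ (A.τ a b) z) := by
  have hbc : A.τ a b z ∈ A.O b c := by
    rw [← A.mem_dom_par (A.τ_mem hab), A.par_τ hab]
    exact (A.mem_dom_par hab.1).2 hac
  have h1 : A.τ a c =ᶠ[𝓝 z] A.τ b c ∘ A.τ a b := by
    filter_upwards [(A.O_open a b).mem_nhds hab, (A.O_open a c).mem_nhds hac] with w hw hw'
    have hx : A.par a w ∈ A.dom b := (A.mem_dom_par hw.1).2 hw
    have hx' : A.par a w ∈ A.dom c := (A.mem_dom_par hw.1).2 hw'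
    rw [Function.comp_apply, ← A.co_par' hw, A.τ_co hx hx', A.co_par' hw']
  rw [h1.fderiv_eq, fderiv_comp z (A.differentiableAt_τ hbc) (A.differentiableAt_τ hab)]

theorem vf_trans (v : (x : A.Mfd) → TangentSpace 𝓘(ℂ, E n) x) {a b : A.ι} {x : A.Mfd}
    (ha : x ∈ A.dom a) (hb : x ∈ A.dom b) :
    A.vf v b x = fderiv ℂ (A.τ a b) (A.co a x) (A.vf v a x) := by
  unfold vf
  rw [A.fderiv_τ_comp (A.co_mem_O (A.mem_ix x) ha) (A.co_mem_O (A.mem_ix x) hb),
    A.τ_co (A.mem_ix x) ha]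
  rfl

theorem fderiv_τ_self {a : A.ι} {z : E n} (hz : z ∈ A.U a) :
    fderiv ℂ (A.τ a a) z = ContinuousLinearMap.id ℂ (E n) := by
  have h1 : A.τ a a =ᶠ[𝓝 z] id := by
    filter_upwards [(A.isOpen_U a).mem_nhds hz] with w hw
    exact (A.τ_self hw).1
  rw [h1.fderiv_eq, fderiv_id]

theorem vf_ix (v : (x : A.Mfd) → TangentSpace 𝓘(ℂ, E n) x) (x : A.Mfd) :
    A.vf v (A.ix x) x = v x := by
  unfold vf
  rw [A.fderiv_τ_self (A.co_mem (A.mem_ix x))]
  rfl

theorem vf_mdiff (v : (x : A.Mfd) → TangentSpace 𝓘(ℂ, E n) x)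
    (hv : MDifferentiable 𝓘(ℂ, E n) 𝓘(ℂ, E n).tangent
      (fun x => (⟨x, v x⟩ : TangentBundle 𝓘(ℂ, E n) A.Mfd))) (x : A.Mfd) :
    MDifferentiableAt 𝓘(ℂ, E n) 𝓘(ℂ, E n) (A.vf v (A.ix x)) x := by
  have h1 := (mdifferentiableAt_section 𝓘(ℂ, E n) v (b₀ := x)).1 (hv x)
  apply h1.congr_of_eventuallyEq
  filter_upwards [(A.isOpen_dom (A.ix x)).mem_nhds (A.mem_ix x)] with x' hx'
  rw [TangentBundle.trivializationAt_apply]
  unfold vf
  have hO : A.co (A.ix x') x' ∈ A.O (A.ix x') (A.ix x) := A.co_mem_O (A.mem_ix x') hx'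
  have h2 : A.τ (A.ix x') (A.ix x) =ᶠ[𝓝 (A.co (A.ix x') x')]
      ((chartAt (E n) x).extend 𝓘(ℂ, E n) ∘ ((chartAt (E n) x').extend 𝓘(ℂ, E n)).symm) := by
    filter_upwards [(A.O_open (A.ix x') (A.ix x)).mem_nhds hO] with w hw
    exact (A.co_par' hw).symm
  rw [h2.fderiv_eq, ← fderivWithin_univ]
  simp only [modelWithCornersSelf_coe, range_id]
  rfl

/-- The vector field on `Y / ℂˣ` in the charts of the atlas. -/
def toField (v : (x : A.Mfd) → TangentSpace 𝓘(ℂ, E n) x)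
    (hv : MDifferentiable 𝓘(ℂ, E n) 𝓘(ℂ, E n).tangent
      (fun x => (⟨x, v x⟩ : TangentBundle 𝓘(ℂ, E n) A.Mfd))) : A.HolField where
  W a z := A.vf v a (A.par a z)
  hol a := by
    intro z hz
    apply DifferentiableAt.differentiableWithinAt
    set x := A.par a z with hx
    set b := A.ix x with hb
    have hxa : x ∈ A.dom a := A.par_mem hz
    have hxb : x ∈ A.dom b := A.mem_ix x
    have hzO : z ∈ A.O a b := (A.mem_dom_par hz).1 hxb
    have h1 : DifferentiableAt ℂ (fun w => A.vf v b (A.par b w)) (A.co b x) := by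
      have h2 := A.vf_mdiff v hv x
      have h3 : MDifferentiableAt 𝓘(ℂ, E n) 𝓘(ℂ, E n) (A.par b) (A.co b x) :=
        (A.mdiff_par b).mdifferentiableAt ((A.isOpen_U b).mem_nhds (A.co_mem hxb))
      rw [← mdifferentiableAt_iff_differentiableAt]
      have h2' : MDifferentiableAt 𝓘(ℂ, E n) 𝓘(ℂ, E n) (A.vf v b) (A.par b (A.co b x)) := by
        rw [A.par_co hxb]
        exact h2
      exact h2'.comp (A.co b x) h3
    rw [hx, A.co_par' hzO] at h1
    have h4 : (fun w => A.vf v a (A.par a w)) =ᶠ[𝓝 z] fun w =>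
        fderiv ℂ (A.τ b a) (A.τ a b w) (A.vf v b (A.par b (A.τ a b w))) := by
      filter_upwards [(A.O_open a b).mem_nhds hzO] with w hw
      have hwa : A.par a w ∈ A.dom a := A.par_mem hw.1
      have hwb : A.par a w ∈ A.dom b := (A.mem_dom_par hw.1).2 hw
      rw [A.vf_trans v hwb hwa, A.co_par' hw, A.par_τ hw]
    rw [h4.differentiableAt_iff]
    have h5 : DifferentiableAt ℂ (A.τ a b) z := A.differentiableAt_τ hzO
    have h6 : DifferentiableAt ℂ (fderiv ℂ (A.τ b a)) (A.τ a b z) := by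
      have h7 : ContDiffOn ℂ ∞ (A.τ b a) (A.O b a) :=
        Holo.contDiffOn_omega (A.O_open b a) (A.hol_τ' b a)
      have h8 := ((contDiffOn_infty_iff_fderiv_of_isOpen (A.O_open b a)).1 h7).2
      exact (h8.differentiableOn (by simp)).differentiableAt
        ((A.O_open b a).mem_nhds (A.τ_mem_O hzO))
    exact (h6.comp z h5).clm_apply (h1.comp z h5)
  trans a b z hz := by
    have h1 := A.vf_trans v (A.par_mem hz.1) ((A.mem_dom_par hz.1).2 hz)
    rw [A.co_par hz.1] at h1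
    rw [A.par_τ hz]
    exact h1

theorem toField_eq_zero {v : (x : A.Mfd) → TangentSpace 𝓘(ℂ, E n) x}
    {hv : MDifferentiable 𝓘(ℂ, E n) 𝓘(ℂ, E n).tangent
      (fun x => (⟨x, v x⟩ : TangentBundle 𝓘(ℂ, E n) A.Mfd))}
    (h : ∀ a, ∀ z ∈ A.U a, (A.toField v hv).W a z = 0) (x : A.Mfd) : v x = 0 := by
  have h1 := h (A.ix x) _ (A.co_mem (A.mem_ix x))
  have h2 : A.vf v (A.ix x) (A.par (A.ix x) (A.co (A.ix x) x)) = 0 := h1
  rw [A.par_co (A.mem_ix x), A.vf_ix] at h2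
  exact h2

theorem noVectorField (h : ∀ W : A.HolField, ∀ a, ∀ z ∈ A.U a, W.W a z = 0) :
    NoVectorField n A.Mfd :=
  fun _ hv x => A.toField_eq_zero (hv := hv) (h _) x

end PolAtlas

end

end Pool.Agent.YTDA


end

/- source: Pool.Agent.YTDA.FldLoc -/

section

/-!
# Holomorphic vector fields on the four charts over a disc: pointwise structure

`W b₁ b₂ w z₁ z₂` are the components (`s`, `w`, `z₁`, `z₂`) of a holomorphic vector field at the
point `(s, w, z₁, z₂)` (for fixed `s`) of the chart `(b₁, b₂)`.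
-/

set_option autoImplicit false

namespace Pool.Agent.YTDA

open Complex Set Topology Filter Metric

noncomputable section

namespace FldLoc

theorem inv_tendsto : Tendsto (fun z : ℂ => z⁻¹) (cocompact ℂ) (𝓝 0) := by
  rw [← Metric.cobounded_eq_cocompact]; exact tendsto_inv₀_cobounded

theorem ne_zero_ev : ∀ᶠ z : ℂ in cocompact ℂ, z ≠ 0 :=
  (isCompact_singleton (x := (0 : ℂ))).compl_mem_cocompact

theorem norm_ev (R : ℝ) : ∀ᶠ z : ℂ in cocompact ℂ, R < ‖z‖ := by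
  have := (isCompact_closedBall (0 : ℂ) R).compl_mem_cocompact
  filter_upwards [this] with z hz
  simpa using hz

theorem liou0 {f : ℂ → ℂ} (hf : Differentiable ℂ f) {c : ℂ}
    (h : Tendsto f (cocompact ℂ) (𝓝 c)) (z : ℂ) : f z = c :=
  hf.apply_eq_of_tendsto_cocompact z h

theorem liouB {f : ℂ → ℂ} (hf : Differentiable ℂ f) {M : ℝ}
    (h : ∀ᶠ z in cocompact ℂ, ‖f z‖ ≤ M) (z w : ℂ) : f z = f w := by
  refine hf.apply_eq_apply_of_bounded ?_ z w
  obtain ⟨t, ht, hts⟩ := mem_cocompact.1 h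
  have h1 : Bornology.IsBounded (f '' t) := (ht.image hf.continuous).isBounded
  have h2 : Bornology.IsBounded (f '' {z | ‖f z‖ ≤ M}) := by
    refine isBounded_closedBall.subset (s := f '' {z | ‖f z‖ ≤ M}) (t := closedBall 0 M) ?_
    rintro _ ⟨z, hz, rfl⟩
    simpa using hz
  refine (h1.union h2).subset ?_
  rintro _ ⟨z, rfl⟩
  by_cases hz : z ∈ t
  · exact Or.inl ⟨z, hz, rfl⟩
  · exact Or.inr ⟨z, hts hz, rfl⟩

theorem diff_dslope {f : ℂ → ℂ} (hf : Differentiable ℂ f) : Differentiable ℂ (dslope f 0) := by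
  rw [← differentiableOn_univ] at hf ⊢
  exact (Complex.differentiableOn_dslope univ_mem).2 hf

theorem eq_dslope (f : ℂ → ℂ) (z : ℂ) : f z = f 0 + z * dslope f 0 z := by
  have := sub_smul_dslope f 0 z
  rw [sub_zero, smul_eq_mul] at this
  rw [this]; ring

theorem dslope_eq (f : ℂ → ℂ) {z : ℂ} (hz : z ≠ 0) : dslope f 0 z = (f z - f 0) / z := by
  rw [eq_div_iff hz, mul_comm]
  have := eq_dslope f z
  rw [this]; ring

theorem liou1 {f : ℂ → ℂ} (hf : Differentiable ℂ f) {c : ℂ}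
    (h : Tendsto (fun z => f z / z) (cocompact ℂ) (𝓝 c)) (z : ℂ) : f z = f 0 + c * z := by
  have ht : Tendsto (dslope f 0) (cocompact ℂ) (𝓝 c) := by
    have h1 : ∀ᶠ z in cocompact ℂ, f z / z - f 0 * z⁻¹ = dslope f 0 z := by
      filter_upwards [ne_zero_ev] with z hz
      rw [dslope_eq f hz]; field_simp
    refine Tendsto.congr' h1 ?_
    have := h.sub (inv_tendsto.const_mul (f 0))
    rwa [mul_zero, sub_zero] at this
  rw [eq_dslope f z, liou0 (diff_dslope hf) ht z]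
  ring

theorem liou2 {f : ℂ → ℂ} (hf : Differentiable ℂ f) {c : ℂ}
    (h : Tendsto (fun z => f z / z ^ 2) (cocompact ℂ) (𝓝 c)) (z : ℂ) :
    f z = f 0 + deriv f 0 * z + c * z ^ 2 := by
  have ht : Tendsto (fun z => dslope f 0 z / z) (cocompact ℂ) (𝓝 c) := by
    have h1 : ∀ᶠ z in cocompact ℂ, f z / z ^ 2 - f 0 * (z⁻¹ * z⁻¹) = dslope f 0 z / z := by
      filter_upwards [ne_zero_ev] with z hz
      rw [dslope_eq f hz]; field_simp
    refine Tendsto.congr' h1 ?_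
    have := h.sub ((inv_tendsto.mul inv_tendsto).const_mul (f 0))
    rwa [mul_zero, mul_zero, sub_zero] at this
  rw [eq_dslope f z, liou1 (diff_dslope hf) ht z, dslope_same]
  ring

/-- the transition relations -/
structure Loc (W : Bool → Bool → ℂ → ℂ → ℂ → Fin 4 → ℂ) : Prop where
  diff : ∀ b₁ b₂ i, Differentiable ℂ (fun p : ℂ × ℂ × ℂ => W b₁ b₂ p.1 p.2.1 p.2.2 i)
  t1 : ∀ b₂ w z₁ z₂, z₁ ≠ 0 → W true b₂ (z₁ ^ 3 * w) z₁⁻¹ z₂ =
    ![W false b₂ w z₁ z₂ 0, z₁ ^ 3 * W false b₂ w z₁ z₂ 1 + 3 * z₁ ^ 2 * w * W false b₂ w z₁ z₂ 2,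
      -W false b₂ w z₁ z₂ 2 / z₁ ^ 2, W false b₂ w z₁ z₂ 3]
  t2 : ∀ b₁ w z₁ z₂, z₂ ≠ 0 → W b₁ true (w / z₂ ^ 3) z₁ z₂⁻¹ =
    ![W b₁ false w z₁ z₂ 0,
      W b₁ false w z₁ z₂ 1 / z₂ ^ 3 - 3 * w * W b₁ false w z₁ z₂ 3 / z₂ ^ 4,
      W b₁ false w z₁ z₂ 2, -W b₁ false w z₁ z₂ 3 / z₂ ^ 2]

namespace Loc

variable {W : Bool → Bool → ℂ → ℂ → ℂ → Fin 4 → ℂ} (h : Loc W)

include h

theorem dw (b₁ b₂ : Bool) (i : Fin 4) (z₁ z₂ : ℂ) :
    Differentiable ℂ (fun w => W b₁ b₂ w z₁ z₂ i) :=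
  (h.diff b₁ b₂ i).comp (g := fun p : ℂ × ℂ × ℂ => W b₁ b₂ p.1 p.2.1 p.2.2 i)
    (f := fun w : ℂ => (w, z₁, z₂)) (by fun_prop)

theorem d1 (b₁ b₂ : Bool) (i : Fin 4) (w z₂ : ℂ) :
    Differentiable ℂ (fun z₁ => W b₁ b₂ w z₁ z₂ i) :=
  (h.diff b₁ b₂ i).comp (g := fun p : ℂ × ℂ × ℂ => W b₁ b₂ p.1 p.2.1 p.2.2 i)
    (f := fun z₁ : ℂ => (w, z₁, z₂)) (by fun_prop)

theorem d2 (b₁ b₂ : Bool) (i : Fin 4) (w z₁ : ℂ) :
    Differentiable ℂ (fun z₂ => W b₁ b₂ w z₁ z₂ i) :=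
  (h.diff b₁ b₂ i).comp (g := fun p : ℂ × ℂ × ℂ => W b₁ b₂ p.1 p.2.1 p.2.2 i)
    (f := fun z₂ : ℂ => (w, z₁, z₂)) (by fun_prop)

/-- limit at infinity in the direction `z₂` -/
theorem lim2 (b₁ b₂ : Bool) (i : Fin 4) (w z₁ : ℂ) :
    Tendsto (fun z => W b₁ b₂ (w / z ^ 3) z₁ z⁻¹ i) (cocompact ℂ) (𝓝 (W b₁ b₂ 0 z₁ 0 i)) := by
  have h1 : Tendsto (fun z : ℂ => (w / z ^ 3, z₁, z⁻¹)) (cocompact ℂ)
      (𝓝 ((0 : ℂ), z₁, (0 : ℂ))) := by
    refine Tendsto.prodMk_nhds ?_ (Tendsto.prodMk_nhds tendsto_const_nhds inv_tendsto)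
    have h2 := ((inv_tendsto.pow 3).const_mul w)
    rw [zero_pow (by norm_num), mul_zero] at h2
    refine h2.congr fun z => ?_
    rw [inv_pow, div_eq_mul_inv]
  exact ((h.diff b₁ b₂ i).continuous.tendsto ((0 : ℂ), z₁, (0 : ℂ))).comp h1

theorem lim1 (b₁ b₂ : Bool) (i : Fin 4) (z₂ : ℂ) :
    Tendsto (fun z => W b₁ b₂ 0 z⁻¹ z₂ i) (cocompact ℂ) (𝓝 (W b₁ b₂ 0 0 z₂ i)) := by
  have h1 : Tendsto (fun z : ℂ => ((0 : ℂ), z⁻¹, z₂)) (cocompact ℂ)
      (𝓝 ((0 : ℂ), (0 : ℂ), z₂)) :=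
    Tendsto.prodMk_nhds tendsto_const_nhds (Tendsto.prodMk_nhds inv_tendsto tendsto_const_nhds)
  exact ((h.diff b₁ b₂ i).continuous.tendsto ((0 : ℂ), (0 : ℂ), z₂)).comp h1

/-- the component `s` -/
theorem comp0 (w z₁ z₂ : ℂ) : W false false w z₁ z₂ 0 = W false false 0 0 0 0 := by
  have key : ∀ w z₁ z₂, W false false w z₁ z₂ 0 = W false true 0 z₁ 0 0 := by
    intro w z₁ z₂
    refine liou0 (h.d2 false false 0 w z₁) (Tendsto.congr' ?_ (h.lim2 false true 0 w z₁)) z₂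
    filter_upwards [ne_zero_ev] with z hz
    rw [h.t2 false w z₁ z hz]; rfl
  have k2 : ∀ z₁, W false false 0 z₁ 0 0 = W true false 0 0 0 0 := by
    intro z₁
    refine liou0 (h.d1 false false 0 0 0) (Tendsto.congr' ?_ (h.lim1 true false 0 0)) z₁
    filter_upwards [ne_zero_ev] with z hz
    have := h.t1 false 0 z 0 hz
    rw [mul_zero] at this
    rw [this]; rfl
  rw [key w z₁ z₂, ← key 0 z₁ 0, k2 z₁, k2 0]

/-- the component `z₁` -/
theorem comp2 : ∃ p₀ p₁ p₂ : ℂ, ∀ w z₁ z₂,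
    W false false w z₁ z₂ 2 = p₀ + p₁ * z₁ + p₂ * z₁ ^ 2 := by
  have key : ∀ w z₁ z₂, W false false w z₁ z₂ 2 = W false true 0 z₁ 0 2 := by
    intro w z₁ z₂
    refine liou0 (h.d2 false false 2 w z₁) (Tendsto.congr' ?_ (h.lim2 false true 2 w z₁)) z₂
    filter_upwards [ne_zero_ev] with z hz
    rw [h.t2 false w z₁ z hz]; rfl
  have k2 : Tendsto (fun z => W false false 0 z 0 2 / z ^ 2) (cocompact ℂ)
      (𝓝 (-W true false 0 0 0 2)) := by
    refine Tendsto.congr' ?_ (h.lim1 true false 2 0).neg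
    filter_upwards [ne_zero_ev] with z hz
    have := h.t1 false 0 z 0 hz
    rw [mul_zero] at this
    rw [this]
    show -(-W false false 0 z 0 2 / z ^ 2) = _
    ring
  refine ⟨W false false 0 0 0 2, deriv (fun z => W false false 0 z 0 2) 0,
    -W true false 0 0 0 2, fun w z₁ z₂ => ?_⟩
  rw [key w z₁ z₂, ← key 0 z₁ 0]
  exact liou2 (h.d1 false false 2 0 0) k2 z₁

/-- Schwarz lemma in the variable `w` -/
theorem schwarz (b₁ b₂ : Bool) (i : Fin 4) (z₁ : ℂ) : ∃ K : ℝ, 0 ≤ K ∧ ∀ v u : ℂ, ‖v‖ < 1 →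
    ‖u‖ ≤ 1 → ‖W b₁ b₂ v z₁ u i - W b₁ b₂ 0 z₁ u i‖ ≤ K * ‖v‖ := by
  have hc : Continuous fun p : ℂ × ℂ => W b₁ b₂ p.1 z₁ p.2 i :=
    (h.diff b₁ b₂ i).continuous.comp (f := fun p : ℂ × ℂ => (p.1, z₁, p.2)) (by fun_prop)
  obtain ⟨M, hM⟩ := ((isCompact_closedBall (0 : ℂ) 1).prod
    (isCompact_closedBall (0 : ℂ) 1)).exists_bound_of_continuousOn hc.continuousOn
  refine ⟨2 * |M|, by positivity, fun v u hv hu => ?_⟩
  have hMv : ∀ v : ℂ, ‖v‖ < 1 → ‖W b₁ b₂ v z₁ u i‖ ≤ |M| := by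
    intro v hv
    refine (hM (v, u) ⟨?_, ?_⟩).trans (le_abs_self M)
    · simpa using hv.le
    · simpa using hu
  have h1 := Complex.dist_le_div_mul_dist_of_mapsTo_ball (f := fun v => W b₁ b₂ v z₁ u i)
    (c := 0) (R₁ := 1) (R₂ := 2 * |M|) (z := v) (h.dw b₁ b₂ i z₁ u).differentiableOn ?_
    (by simpa using hv)
  · rw [dist_eq_norm, dist_eq_norm, div_one, sub_zero] at h1
    exact h1
  · intro v' hv'
    rw [mem_closedBall, dist_eq_norm]
    have a1 := hMv v' (by simpa using hv')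
    have a2 := hMv 0 (by simp)
    calc _ ≤ ‖W b₁ b₂ v' z₁ u i‖ + ‖W b₁ b₂ 0 z₁ u i‖ := norm_sub_le _ _
      _ ≤ _ := by linarith

omit h in
/-- eventually we are in the domain of the Schwarz lemma -/
theorem ev_small (w : ℂ) : ∀ᶠ z : ℂ in cocompact ℂ, z ≠ 0 ∧ ‖w / z ^ 3‖ < 1 ∧ ‖z⁻¹‖ ≤ 1 := by
  filter_upwards [norm_ev (max 1 ‖w‖)] with z hz
  have h1 : 1 < ‖z‖ := (le_max_left _ _).trans_lt hz
  have h2 : ‖w‖ < ‖z‖ := (le_max_right _ _).trans_lt hz
  refine ⟨fun h0 => ?_, ?_, ?_⟩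
  · rw [h0, norm_zero] at h1; linarith
  · rw [norm_div, norm_pow, div_lt_one (by positivity)]
    have : ‖z‖ ≤ ‖z‖ ^ 3 := by
      calc ‖z‖ = ‖z‖ ^ 1 := (pow_one _).symm
        _ ≤ ‖z‖ ^ 3 := pow_le_pow_right₀ h1.le (by norm_num)
    linarith
  · rw [norm_inv]; exact inv_le_one_of_one_le₀ h1.le

/-- the component `z₂` does not depend on `w` -/
theorem comp3_w (b₁ : Bool) (w z₁ z₂ : ℂ) : W b₁ false w z₁ z₂ 3 = W b₁ false 0 z₁ z₂ 3 := by
  obtain ⟨K, hK, hKb⟩ := h.schwarz b₁ true 3 z₁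
  have hd : Differentiable ℂ fun z₂ => W b₁ false w z₁ z₂ 3 - W b₁ false 0 z₁ z₂ 3 :=
    (h.d2 b₁ false 3 w z₁).sub (h.d2 b₁ false 3 0 z₁)
  have ht : Tendsto (fun z₂ => W b₁ false w z₁ z₂ 3 - W b₁ false 0 z₁ z₂ 3) (cocompact ℂ)
      (𝓝 0) := by
    have hb : Tendsto (fun z : ℂ => K * ‖w‖ * ‖z⁻¹‖) (cocompact ℂ) (𝓝 0) := by
      have := (inv_tendsto.norm).const_mul (K * ‖w‖)
      rwa [norm_zero, mul_zero] at this
    refine squeeze_zero_norm' ?_ hb
    filter_upwards [ev_small w] with z hz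
    obtain ⟨hz0, hz1, hz2⟩ := hz
    have e1 := congrFun (h.t2 b₁ w z₁ z hz0) 3
    have e2 := congrFun (h.t2 b₁ 0 z₁ z hz0) 3
    rw [zero_div] at e2
    have e1' : W b₁ false w z₁ z 3 = -(z ^ 2) * W b₁ true (w / z ^ 3) z₁ z⁻¹ 3 := by
      rw [e1]
      show _ = -(z ^ 2) * (-W b₁ false w z₁ z 3 / z ^ 2)
      field_simp
    have e2' : W b₁ false 0 z₁ z 3 = -(z ^ 2) * W b₁ true 0 z₁ z⁻¹ 3 := by
      rw [e2]
      show _ = -(z ^ 2) * (-W b₁ false 0 z₁ z 3 / z ^ 2)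
      field_simp
    rw [e1', e2', ← mul_sub, norm_mul, norm_neg, norm_pow]
    have e3 := hKb (w / z ^ 3) z⁻¹ hz1 hz2
    have hzn : 0 < ‖z‖ := norm_pos_iff.2 hz0
    calc ‖z‖ ^ 2 * ‖W b₁ true (w / z ^ 3) z₁ z⁻¹ 3 - W b₁ true 0 z₁ z⁻¹ 3‖
        ≤ ‖z‖ ^ 2 * (K * ‖w / z ^ 3‖) := mul_le_mul_of_nonneg_left e3 (by positivity)
      _ = K * ‖w‖ * ‖z⁻¹‖ := by
        rw [norm_div, norm_pow, norm_inv]; field_simp
  have := liou0 hd ht z₂
  exact sub_eq_zero.1 this

/-- the component `z₂` -/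
theorem comp3 : ∃ q₀ q₁ q₂ : ℂ, ∀ b₁ w z₁ z₂,
    W b₁ false w z₁ z₂ 3 = q₀ + q₁ * z₂ + q₂ * z₂ ^ 2 := by
  -- independence of `z₁`
  have k1 : ∀ z₁ z₂, W false false 0 z₁ z₂ 3 = W true false 0 0 z₂ 3 := by
    intro z₁ z₂
    refine liou0 (h.d1 false false 3 0 z₂) (Tendsto.congr' ?_ (h.lim1 true false 3 z₂)) z₁
    filter_upwards [ne_zero_ev] with z hz
    have := h.t1 false 0 z z₂ hz
    rw [mul_zero] at this
    rw [this]; rfl
  have k1' : ∀ z₁ z₂, W true false 0 z₁ z₂ 3 = W true false 0 0 z₂ 3 := by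
    intro z₁ z₂
    by_cases hz : z₁ = 0
    · rw [hz]
    · have := congrFun (h.t1 false 0 z₁⁻¹ z₂ (inv_ne_zero hz)) 3
      rw [mul_zero, inv_inv] at this
      rw [this]
      exact k1 _ _
  have k2 : Tendsto (fun z => W true false 0 0 z 3 / z ^ 2) (cocompact ℂ)
      (𝓝 (-W true true 0 0 0 3)) := by
    have h3 := h.lim2 true true 3 0 0
    refine Tendsto.congr' ?_ h3.neg
    filter_upwards [ne_zero_ev] with z hz
    rw [h.t2 true 0 0 z hz]
    show -(-W true false 0 0 z 3 / z ^ 2) = _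
    ring
  refine ⟨W true false 0 0 0 3, deriv (fun z => W true false 0 0 z 3) 0,
    -W true true 0 0 0 3, fun b₁ w z₁ z₂ => ?_⟩
  have e : W b₁ false w z₁ z₂ 3 = W true false 0 0 z₂ 3 := by
    rw [h.comp3_w b₁ w z₁ z₂]
    cases b₁
    · exact k1 z₁ z₂
    · exact k1' z₁ z₂
  rw [e]
  exact liou2 (h.d2 true false 3 0 0) k2 z₂

/-- the component `w` vanishes on `w = 0` -/
theorem comp1_zero (b₁ b₂ : Bool) (z₁ z₂ : ℂ) : W b₁ b₂ 0 z₁ z₂ 1 = 0 := by
  have kF : ∀ z₁, W false b₂ 0 z₁ z₂ 1 = 0 := by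
    intro z₁
    have h1 : Tendsto (fun z : ℂ => (z⁻¹) ^ 3 * W true b₂ 0 z⁻¹ z₂ 1) (cocompact ℂ) (𝓝 0) := by
      have := (inv_tendsto.pow 3).mul (h.lim1 true b₂ 1 z₂)
      rwa [zero_pow (by norm_num), zero_mul] at this
    refine liou0 (h.d1 false b₂ 1 0 z₂) (Tendsto.congr' ?_ h1) z₁
    filter_upwards [ne_zero_ev] with z hz
    have := h.t1 b₂ 0 z z₂ hz
    rw [mul_zero] at this
    rw [this]
    show (z⁻¹) ^ 3 * (z ^ 3 * W false b₂ 0 z z₂ 1 + 3 * z ^ 2 * 0 * W false b₂ 0 z z₂ 2) = _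
    field_simp
    ring
  cases b₁
  · exact kF z₁
  · -- density
    have hne : ∀ z, z ≠ 0 → W true b₂ 0 z z₂ 1 = 0 := by
      intro z hz
      have := congrFun (h.t1 b₂ 0 z⁻¹ z₂ (inv_ne_zero hz)) 1
      rw [mul_zero, inv_inv] at this
      rw [this]
      show (z⁻¹) ^ 3 * W false b₂ 0 z⁻¹ z₂ 1 + 3 * z⁻¹ ^ 2 * 0 * W false b₂ 0 z⁻¹ z₂ 2 = 0
      rw [kF]; ring
    have hd : Dense {z : ℂ | z ≠ 0} := dense_compl_singleton 0
    have := Continuous.ext_on hd (h.d1 true b₂ 1 0 z₂).continuous continuous_const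
      (fun z hz => hne z hz)
    exact congrFun this z₁

/-- the component `w` -/
theorem comp1_lin {q₀ q₁ q₂ : ℂ} (hq : ∀ b₁ w z₁ z₂,
    W b₁ false w z₁ z₂ 3 = q₀ + q₁ * z₂ + q₂ * z₂ ^ 2) (b₁ : Bool) (w z₁ z₂ : ℂ) :
    W b₁ false w z₁ z₂ 1 = w * (W b₁ false 1 z₁ 0 1 + 3 * q₂ * z₂) := by
  have ht2 : ∀ w z, z ≠ 0 → W b₁ false w z₁ z 1 - 3 * w * q₂ * z =
      z ^ 3 * W b₁ true (w / z ^ 3) z₁ z⁻¹ 1 + 3 * w * (q₀ * z⁻¹ + q₁) := by
    intro w z hz
    have e1 := congrFun (h.t2 b₁ w z₁ z hz) 1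
    rw [e1]
    show _ = z ^ 3 * (W b₁ false w z₁ z 1 / z ^ 3 - 3 * w * W b₁ false w z₁ z 3 / z ^ 4) +
      3 * w * (q₀ * z⁻¹ + q₁)
    rw [hq]
    field_simp
    ring
  -- first step: dependence on `z₂`
  have s1 : ∀ w z, W b₁ false w z₁ z 1 - 3 * w * q₂ * z = W b₁ false w z₁ 0 1 := by
    intro w z
    obtain ⟨K, hK, hKb⟩ := h.schwarz b₁ true 1 z₁
    have hd : Differentiable ℂ fun z => W b₁ false w z₁ z 1 - 3 * w * q₂ * z :=
      (h.d2 b₁ false 1 w z₁).sub (by fun_prop)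
    have hb : ∀ᶠ z in cocompact ℂ, ‖W b₁ false w z₁ z 1 - 3 * w * q₂ * z‖ ≤
        K * ‖w‖ + 3 * ‖w‖ * (‖q₀‖ + ‖q₁‖) := by
      filter_upwards [ev_small w] with z hz
      obtain ⟨hz0, hz1, hz2⟩ := hz
      rw [ht2 w z hz0]
      have e3 := hKb (w / z ^ 3) z⁻¹ hz1 hz2
      rw [h.comp1_zero, sub_zero] at e3
      have hzn : 0 < ‖z‖ := norm_pos_iff.2 hz0
      refine (norm_add_le _ _).trans (add_le_add ?_ ?_)
      · rw [norm_mul, norm_pow]
        calc ‖z‖ ^ 3 * ‖W b₁ true (w / z ^ 3) z₁ z⁻¹ 1‖ ≤ ‖z‖ ^ 3 * (K * ‖w / z ^ 3‖) :=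
              mul_le_mul_of_nonneg_left e3 (by positivity)
          _ = K * ‖w‖ := by rw [norm_div, norm_pow]; field_simp
      · rw [norm_mul, norm_mul]
        have : ‖q₀ * z⁻¹ + q₁‖ ≤ ‖q₀‖ + ‖q₁‖ := by
          refine (norm_add_le _ _).trans (add_le_add ?_ le_rfl)
          rw [norm_mul]
          calc ‖q₀‖ * ‖z⁻¹‖ ≤ ‖q₀‖ * 1 := mul_le_mul_of_nonneg_left hz2 (norm_nonneg _)
            _ = _ := mul_one _
        have h3 : ‖(3 : ℂ)‖ = 3 := by simp
        rw [h3]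
        exact mul_le_mul_of_nonneg_left this (by positivity)
    have := liouB hd hb z 0
    rw [this]; ring
  -- second step: linearity in `w`
  have hdk : Differentiable ℂ (dslope (fun w => W b₁ false w z₁ 0 1) 0) :=
    diff_dslope (h.dw b₁ false 1 z₁ 0)
  have hk0 : W b₁ false 0 z₁ 0 1 = 0 := h.comp1_zero b₁ false z₁ 0
  have hc : Continuous fun u : ℂ => W b₁ true 1 z₁ u 1 := (h.d2 b₁ true 1 1 z₁).continuous
  obtain ⟨M, hM⟩ := (isCompact_closedBall (0 : ℂ) 1).exists_bound_of_continuousOn hc.continuousOn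
  have hb : ∀ᶠ w in cocompact ℂ, ‖dslope (fun w => W b₁ false w z₁ 0 1) 0 w‖ ≤
      M + 3 * (‖q₀‖ + ‖q₁‖) := by
    filter_upwards [norm_ev 1] with w hw
    have hw0 : w ≠ 0 := by rintro rfl; rw [norm_zero] at hw; linarith
    obtain ⟨z, hz⟩ := IsAlgClosed.exists_pow_nat_eq w (n := 3) (by norm_num)
    have hz0 : z ≠ 0 := by rintro rfl; rw [zero_pow (by norm_num)] at hz; exact hw0 hz.symm
    have hz1 : 1 ≤ ‖z‖ := by
      by_contra hlt
      push Not at hlt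
      have : ‖w‖ ≤ 1 := by
        rw [← hz, norm_pow]
        exact pow_le_one₀ (norm_nonneg _) hlt.le
      linarith
    have hz2 : ‖z⁻¹‖ ≤ 1 := by rw [norm_inv]; exact inv_le_one_of_one_le₀ hz1
    rw [dslope_eq _ hw0, hk0, sub_zero, ← s1 w z, ht2 w z hz0, hz, div_self hw0]
    have e4 : (w * W b₁ true 1 z₁ z⁻¹ 1 + 3 * w * (q₀ * z⁻¹ + q₁)) / w =
        W b₁ true 1 z₁ z⁻¹ 1 + 3 * (q₀ * z⁻¹ + q₁) := by field_simp
    rw [e4]
    refine (norm_add_le _ _).trans (add_le_add (hM _ (by simpa using hz2)) ?_)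
    rw [norm_mul]
    have : ‖q₀ * z⁻¹ + q₁‖ ≤ ‖q₀‖ + ‖q₁‖ := by
      refine (norm_add_le _ _).trans (add_le_add ?_ le_rfl)
      rw [norm_mul]
      calc ‖q₀‖ * ‖z⁻¹‖ ≤ ‖q₀‖ * 1 := mul_le_mul_of_nonneg_left hz2 (norm_nonneg _)
        _ = _ := mul_one _
    have h3 : ‖(3 : ℂ)‖ = 3 := by simp
    rw [h3]
    exact mul_le_mul_of_nonneg_left this (by norm_num)
  have s2 : W b₁ false w z₁ 0 1 = w * W b₁ false 1 z₁ 0 1 := by
    have e1 := eq_dslope (fun w => W b₁ false w z₁ 0 1) w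
    have e2 := eq_dslope (fun w => W b₁ false w z₁ 0 1) 1
    simp only [hk0, zero_add, one_mul] at e1 e2
    rw [e1, liouB hdk hb w 1, ← e2]
  have := s1 w z₂
  rw [s2] at this
  linear_combination this

/-- the structure of holomorphic vector fields over a fixed point `s` -/
theorem main : ∃ α e p₀ p₁ p₂ q₀ q₁ q₂ : ℂ, ∀ w z₁ z₂, W false false w z₁ z₂ =
    ![α, w * (e - 3 * p₂ * z₁ + 3 * q₂ * z₂), p₀ + p₁ * z₁ + p₂ * z₁ ^ 2,
      q₀ + q₁ * z₂ + q₂ * z₂ ^ 2] := by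
  obtain ⟨p₀, p₁, p₂, hp⟩ := h.comp2
  obtain ⟨q₀, q₁, q₂, hq⟩ := h.comp3
  have hl := h.comp1_lin hq
  have key : ∀ z₁, W false false 1 z₁ 0 1 + 3 * p₂ * z₁ = W true false 1 0 0 1 - 3 * p₁ := by
    intro z₁
    have hd : Differentiable ℂ fun z₁ => W false false 1 z₁ 0 1 + 3 * p₂ * z₁ :=
      (h.d1 false false 1 1 0).add (by fun_prop)
    have h1 : Tendsto (fun z : ℂ => W true false 1 z⁻¹ 0 1 - 3 * p₀ * z⁻¹ - 3 * p₁) (cocompact ℂ)
        (𝓝 (W true false 1 0 0 1 - 3 * p₁)) := by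
      have a1 : Tendsto (fun z : ℂ => W true false 1 z⁻¹ 0 1) (cocompact ℂ)
          (𝓝 (W true false 1 0 0 1)) :=
        ((h.d1 true false 1 1 0).continuous.tendsto 0).comp inv_tendsto
      have a2 := (a1.sub (inv_tendsto.const_mul (3 * p₀))).sub_const (3 * p₁)
      rwa [mul_zero, sub_zero] at a2
    refine liou0 hd (Tendsto.congr' ?_ h1) z₁
    filter_upwards [ne_zero_ev] with z hz
    have e1 := congrFun (h.t1 false 1 z 0 hz) 1
    have e2 : W true false (z ^ 3 * 1) z⁻¹ 0 1 = z ^ 3 * W true false 1 z⁻¹ 0 1 := by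
      rw [hl true (z ^ 3 * 1) z⁻¹ 0]; ring
    rw [e2] at e1
    have e3 : z ^ 3 * W true false 1 z⁻¹ 0 1 =
        z ^ 3 * W false false 1 z 0 1 + 3 * z ^ 2 * 1 * W false false 1 z 0 2 := e1
    rw [hp] at e3
    have hz3 : z ^ 3 ≠ 0 := pow_ne_zero 3 hz
    apply mul_left_cancel₀ hz3
    have e4 : z ^ 3 * (W true false 1 z⁻¹ 0 1 - 3 * p₀ * z⁻¹ - 3 * p₁) =
        z ^ 3 * W true false 1 z⁻¹ 0 1 - 3 * p₀ * z ^ 2 - 3 * p₁ * z ^ 3 := by
      field_simp
    rw [e4, e3]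
    ring
  refine ⟨W false false 0 0 0 0, W true false 1 0 0 1 - 3 * p₁, p₀, p₁, p₂, q₀, q₁, q₂,
    fun w z₁ z₂ => ?_⟩
  ext i
  fin_cases i
  · exact h.comp0 w z₁ z₂
  · show W false false w z₁ z₂ 1 = w * (W true false 1 0 0 1 - 3 * p₁ - 3 * p₂ * z₁ + 3 * q₂ * z₂)
    rw [hl false w z₁ z₂]
    linear_combination w * key z₁
  · exact hp w z₁ z₂
  · exact hq false w z₁ z₂

end Loc

end FldLoc

end

end Pool.Agent.YTDA


end

/- source: Pool.Agent.YTDA.Fld -/

section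

/-!
# Holomorphic vector fields on the fourfold `X`
-/

set_option autoImplicit false

namespace Pool.Agent.YTDA

open Complex Set Topology Filter Metric
open Pool.Agent.YTD

noncomputable section

/-! ## General lemmas on atlases -/

namespace PolAtlas

variable {n : ℕ} {Y : Type} [MulAction ℂˣ Y] {A : PolAtlas n Y}

theorem mem_O_mk {a b : A.ι} {z z' : E n} (hz : z ∈ A.U a) (hz' : z' ∈ A.U b) {c : ℂˣ}
    (h : A.γ b z' = c • A.γ a z) : z ∈ A.O a b := ⟨hz, z', hz', c, h⟩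

theorem τ_eq_of {a b : A.ι} {z z' : E n} (hz : z ∈ A.U a) (hz' : z' ∈ A.U b) {c : ℂˣ}
    (h : A.γ b z' = c • A.γ a z) : A.τ a b z = z' := by
  obtain ⟨h1, h2⟩ := A.trans a b z hz ⟨z', hz', c, h⟩
  refine (A.inj b z' hz' _ h1 (A.h a b z * c⁻¹) ?_).1
  rw [h2, h, smul_smul, mul_assoc, inv_mul_cancel, mul_one]

theorem isOpen_O' (a b : A.ι) : IsOpen (A.O a b) := A.isOpen_O a b

/-- transition of a vector field through an explicit formula for the coordinate change -/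
theorem HolField.trans' (W : A.HolField) {a b : A.ι} {z : E n} {f : E n → E n}
    {f' : E n →L[ℂ] E n} (hf : HasFDerivAt f f' z)
    (hev : ∀ᶠ w in 𝓝 z, w ∈ A.U a ∧ f w ∈ A.U b ∧ ∃ c : ℂˣ, A.γ b (f w) = c • A.γ a w) :
    W.W b (f z) = f' (W.W a z) := by
  have h1 : A.τ a b =ᶠ[𝓝 z] f := by
    filter_upwards [hev] with w hw
    obtain ⟨h1, h2, c, h3⟩ := hw
    exact τ_eq_of h1 h2 h3
  obtain ⟨h2, h3, c, h4⟩ := hev.self_of_nhds
  have h5 := W.trans a b z (mem_O_mk h2 h3 h4)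
  rw [h1.fderiv_eq, hf.fderiv, h1.self_of_nhds] at h5
  exact h5

/-- the linear map `dact k c` -/
def dactL {n : ℕ} (k : Fin n → ℤ) (c : ℂˣ) : E n →L[ℂ] E n :=
  ContinuousLinearMap.pi fun j => ((c ^ k j : ℂˣ) : ℂ) • ContinuousLinearMap.proj j

theorem dactL_apply {n : ℕ} (k : Fin n → ℤ) (c : ℂˣ) (z : E n) : dactL k c z = dact k c z := by
  ext j
  simp [dactL, dact]

/-- invariance of a vector field at a point of a chart -/
def Inv (W : A.HolField) (D : A.DAct) (a : A.ι) (z : E n) : Prop :=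
  ∀ c : ℂˣ, W.W a (dact (D.k a) c z) = dact (D.k a) c (W.W a z)

theorem act_chart (D : A.DAct) {a b : A.ι} {z : E n} (hz : z ∈ A.O b a) (c : ℂˣ) :
    dact (D.k b) c z ∈ A.O b a ∧
      A.τ b a (dact (D.k b) c z) = dact (D.k a) c (A.τ b a z) := by
  have hz0 := hz.1
  obtain ⟨h1, h2⟩ := A.trans b a z hz.1 hz.2
  have e1 := D.act_γ b z hz.1 c
  have e2 := D.act_γ a _ h1 c
  rw [h2, D.act_smul, e1] at e2
  -- γ a (dact k_a c (τ z)) is a multiple of γ b (dact k_b c z)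
  have e3 : A.γ a (dact (D.k a) c (A.τ b a z)) =
      ((c ^ D.m a)⁻¹ * (A.h b a z * c ^ D.m b)) • A.γ b (dact (D.k b) c z) := by
    rw [mul_smul, eq_inv_smul_iff, ← e2, smul_smul]
  exact ⟨mem_O_mk (D.dom b z hz.1 c) (D.dom a _ h1 c) e3,
    τ_eq_of (D.dom b z hz.1 c) (D.dom a _ h1 c) e3⟩

theorem inv_of (W : A.HolField) (D : A.DAct) {a b : A.ι} {z : E n} (hz : z ∈ A.O b a)
    (h : Inv W D b z) : Inv W D a (A.τ b a z) := by
  intro c
  obtain ⟨h1, h2⟩ := act_chart D hz c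
  have hO : ∀ᶠ w in 𝓝 z, w ∈ A.O b a := (A.isOpen_O b a).mem_nhds hz
  have hd1 : DifferentiableAt ℂ (A.τ b a) z :=
    (A.hol_τ b a).differentiableAt ((A.isOpen_O b a).mem_nhds hz)
  have hd2 : DifferentiableAt ℂ (A.τ b a) (dact (D.k b) c z) :=
    (A.hol_τ b a).differentiableAt ((A.isOpen_O b a).mem_nhds h1)
  have e1 : (fun w => A.τ b a (dactL (D.k b) c w)) =ᶠ[𝓝 z]
      fun w => dactL (D.k a) c (A.τ b a w) := by
    filter_upwards [hO] with w hw
    rw [dactL_apply, dactL_apply]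
    exact (act_chart D hw c).2
  have e2 := e1.fderiv_eq (𝕜 := ℂ)
  have e3 : fderiv ℂ (fun w => A.τ b a (dactL (D.k b) c w)) z =
      (fderiv ℂ (A.τ b a) (dact (D.k b) c z)).comp (dactL (D.k b) c) := by
    have h3 : HasFDerivAt (A.τ b a) (fderiv ℂ (A.τ b a) (dact (D.k b) c z))
        (dactL (D.k b) c z) := by
      rw [dactL_apply]; exact hd2.hasFDerivAt
    exact (h3.comp z (dactL (D.k b) c).hasFDerivAt).fderiv
  have e4 : fderiv ℂ (fun w => dactL (D.k a) c (A.τ b a w)) z =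
      (dactL (D.k a) c).comp (fderiv ℂ (A.τ b a) z) :=
    ((dactL (D.k a) c).hasFDerivAt.comp z hd1.hasFDerivAt).fderiv
  rw [e3, e4] at e2
  rw [← h2, W.trans b a _ h1, h c, W.trans b a z hz]
  have e5 := congrArg (fun L : E n →L[ℂ] E n => L (W.W b z)) e2
  simp only [ContinuousLinearMap.comp_apply, dactL_apply] at e5
  exact e5

/-- points with nonzero coordinates are dense -/
theorem dense_nz (n : ℕ) : Dense {z : E n | ∀ i, z i ≠ 0} := by
  have h := dense_pi (α := fun _ : Fin n => ℂ) Set.univ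
    (s := fun _ => ({0}ᶜ : Set ℂ)) (fun i _ => dense_compl_singleton 0)
  refine h.mono ?_
  intro z hz i
  exact hz i (Set.mem_univ i)

/-- invariance extends by density -/
theorem inv_dense (W : A.HolField) (D : A.DAct) (a : A.ι)
    (h : ∀ z ∈ A.U a, (∀ i, z i ≠ 0) → Inv W D a z) : ∀ z ∈ A.U a, Inv W D a z := by
  intro z hz c
  have hU : A.U a ∈ 𝓝 z := (A.isOpen_U a).mem_nhds hz
  have hU' : A.U a ∈ 𝓝 (dact (D.k a) c z) := (A.isOpen_U a).mem_nhds (D.dom a z hz c)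
  have c1 : ContinuousAt (fun w => W.W a (dactL (D.k a) c w)) z := by
    have : ContinuousAt (W.W a) (dactL (D.k a) c z) := by
      rw [dactL_apply]; exact ((W.hol a).differentiableAt hU').continuousAt
    exact this.comp (dactL (D.k a) c).continuous.continuousAt
  have c2 : ContinuousAt (fun w => dactL (D.k a) c (W.W a w)) z :=
    (dactL (D.k a) c).continuous.continuousAt.comp ((W.hol a).differentiableAt hU).continuousAt
  have hne : (𝓝[{z : E n | ∀ i, z i ≠ 0}] z).NeBot :=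
    mem_closure_iff_nhdsWithin_neBot.1 ((dense_nz n) z)
  have hev : ∀ᶠ w in 𝓝[{z : E n | ∀ i, z i ≠ 0}] z,
      W.W a (dactL (D.k a) c w) = dactL (D.k a) c (W.W a w) := by
    filter_upwards [self_mem_nhdsWithin, mem_nhdsWithin_of_mem_nhds hU] with w h1 h2
    rw [dactL_apply, dactL_apply]
    exact h w h2 h1 c
  have t1 := c1.tendsto.mono_left (nhdsWithin_le_nhds (s := {z : E n | ∀ i, z i ≠ 0}))
  have t2 := c2.tendsto.mono_left (nhdsWithin_le_nhds (s := {z : E n | ∀ i, z i ≠ 0}))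
  have := tendsto_nhds_unique_of_eventuallyEq t1 t2 hev
  rwa [dactL_apply, dactL_apply] at this

end PolAtlas

/-! ## The atlases of the bundles over the projective line -/

section P1

variable {n : ℕ} {Y : Type} [MulAction ℂˣ Y] {A : PolAtlas n Y} {D : A.DAct} {α β : ℤ}

/-- all coordinates but the last one -/
def ini {n : ℕ} (z : E (n + 1)) : E n := fun j => z j.castSucc

/-- `B` (with index set `e`) is the standard atlas of the bundle over `ℙ¹`. -/
structure IsP1e (B : PolAtlas (n + 1) (P1Y D α β)) (e : A.ι × Bool ≃ B.ι) : Prop where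
  U : ∀ a b, B.U (e (a, b)) = {z | ini z ∈ A.U a}
  γ : ∀ a b z, ini z ∈ A.U a →
    B.γ (e (a, b)) z = P1Y.mk (A.γ a (ini z)) (vec b (z (Fin.last n)))

/-- `D'` is the action of the fibre direction on the bundle. -/
structure IsLift {B : PolAtlas (n + 1) (P1Y D α β)} (e : A.ι × Bool ≃ B.ι) (D' : B.DAct) :
    Prop where
  act : ∀ c y x, D'.act c (P1Y.mk y x) = P1Y.mk (D.act c y) x

theorem vec_swap {u : ℂ} (hu : u ≠ 0) (b : Bool) :
    vec b u = (Units.mk0 u hu) • vec (!b) u⁻¹ := by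
  apply Subtype.ext
  rw [V2.coe_smul]
  cases b
  · show (vec false u : Fin 2 → ℂ) = u • (vec true u⁻¹ : Fin 2 → ℂ)
    rw [vec_false, vec_true]
    ext i; fin_cases i <;> simp [hu]
  · show (vec true u : Fin 2 → ℂ) = u • (vec false u⁻¹ : Fin 2 → ℂ)
    rw [vec_false, vec_true]
    ext i; fin_cases i <;> simp [hu]

theorem mk_swap {u : ℂ} (hu : u ≠ 0) (b : Bool) (y : Y) :
    (P1Y.mk y (vec b u) : P1Y D α β) =
      P1Y.mk ((Units.mk0 u hu) ^ α • D.act ((Units.mk0 u hu) ^ β) y) (vec (!b) u⁻¹) := by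
  rw [vec_swap hu b, P1Y.mk_smul]

theorem vec_false_inj {c : ℂˣ} {x x' : ℂ} (h : vec false x = c • vec false x') :
    c = 1 ∧ x = x' := by
  have h1 := congrArg (fun v : V2 => (v : Fin 2 → ℂ)) h
  simp only [V2.coe_smul, vec_false] at h1
  have h2 := congrFun h1 0
  have h3 := congrFun h1 1
  simp at h2 h3
  have hc : c = 1 := Units.ext h2.symm
  rw [hc] at h3
  exact ⟨hc, by simpa using h3⟩

theorem mk_false_inj {y y' : Y} {x x' : ℂ}
    (h : (P1Y.mk y (vec false x) : P1Y D α β) = P1Y.mk y' (vec false x')) :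
    x = x' ∧ y' = y := by
  obtain ⟨c, h1, h2⟩ := P1Y.mk_eq.1 h
  obtain ⟨h3, h4⟩ := vec_false_inj h1
  subst h3
  simp [D.act_one] at h2
  exact ⟨h4, h2⟩

end P1

/-- The data of the double bundle over `ℙ¹ × ℙ¹`. -/
structure TwoP1 {Y : Type} [MulAction ℂˣ Y] (A : PolAtlas 2 Y) (D : A.DAct)
    (α β α' β' : ℤ) where
  B₁ : PolAtlas 3 (P1Y D α β)
  e₁ : A.ι × Bool ≃ B₁.ι
  h₁ : IsP1e B₁ e₁
  D₁ : B₁.DAct
  l₁ : IsLift e₁ D₁
  B₂ : PolAtlas 4 (P1Y D₁ α' β')
  e₂ : B₁.ι × Bool ≃ B₂.ι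
  h₂ : IsP1e B₂ e₂

namespace TwoP1

variable {Y : Type} [MulAction ℂˣ Y] {A : PolAtlas 2 Y} {D : A.DAct} {α β α' β' : ℤ}
  (X : TwoP1 A D α β α' β')

/-- index of a chart -/
def i (a : A.ι) (b₁ b₂ : Bool) : X.B₂.ι := X.e₂ (X.e₁ (a, b₁), b₂)

theorem i_surj (j : X.B₂.ι) : ∃ a b₁ b₂, j = X.i a b₁ b₂ := by
  obtain ⟨⟨c, b₂⟩, rfl⟩ := X.e₂.surjective j
  obtain ⟨⟨a, b₁⟩, rfl⟩ := X.e₁.surjective c
  exact ⟨a, b₁, b₂, rfl⟩

theorem init_init (z : E 4) : ini (ini z) = ![z 0, z 1] := by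
  ext j; fin_cases j <;> rfl

theorem mem_U {a : A.ι} {b₁ b₂ : Bool} {z : E 4} :
    z ∈ X.B₂.U (X.i a b₁ b₂) ↔ ![z 0, z 1] ∈ A.U a := by
  rw [TwoP1.i, X.h₂.U, mem_ofPred_eq, X.h₁.U, mem_ofPred_eq, init_init]

/-- the point with given coordinates -/
def pt (a : A.ι) (b₁ b₂ : Bool) (z : E 4) : P1Y X.D₁ α' β' :=
  P1Y.mk (P1Y.mk (A.γ a ![z 0, z 1]) (vec b₁ (z 2))) (vec b₂ (z 3))

theorem γ_eq {a : A.ι} {b₁ b₂ : Bool} {z : E 4} (hz : ![z 0, z 1] ∈ A.U a) :
    X.B₂.γ (X.i a b₁ b₂) z = X.pt a b₁ b₂ z := by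
  have hz' : ini (ini z) ∈ A.U a := by rw [init_init]; exact hz
  have hz'' : ini z ∈ X.B₁.U (X.e₁ (a, b₁)) := by rw [X.h₁.U]; exact hz'
  rw [TwoP1.i, X.h₂.γ _ _ _ hz'', X.h₁.γ _ _ _ hz', init_init]
  rfl

/-- change of the first `ℙ¹` chart -/
theorem swap1 {a : A.ι} {b₂ : Bool} {z : E 4} (hz : ![z 0, z 1] ∈ A.U a) (h2 : z 2 ≠ 0)
    (b₁ : Bool) : ∃ c : ℂˣ, X.pt a b₁ b₂ z = c • X.pt a (!b₁) b₂
      ![dact (D.k a) (Units.mk0 (z 2) h2 ^ β) ![z 0, z 1] 0,
        dact (D.k a) (Units.mk0 (z 2) h2 ^ β) ![z 0, z 1] 1, (z 2)⁻¹, z 3] := by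
  refine ⟨(Units.mk0 (z 2) h2) ^ α * ((Units.mk0 (z 2) h2) ^ β) ^ D.m a, ?_⟩
  have e : ![dact (D.k a) (Units.mk0 (z 2) h2 ^ β) ![z 0, z 1] 0,
      dact (D.k a) (Units.mk0 (z 2) h2 ^ β) ![z 0, z 1] 1] =
      dact (D.k a) (Units.mk0 (z 2) h2 ^ β) ![z 0, z 1] := by
    ext j; fin_cases j <;> rfl
  show (P1Y.mk (P1Y.mk (A.γ a ![z 0, z 1]) (vec b₁ (z 2))) (vec b₂ (z 3)) : P1Y X.D₁ α' β') =
    _ • P1Y.mk (P1Y.mk (A.γ a ![_, _]) (vec (!b₁) (z 2)⁻¹)) (vec b₂ (z 3))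
  rw [mk_swap h2 b₁, D.act_γ a _ hz, smul_smul, P1Y.smul_mk, P1Y.smul_mk]
  congr 4
  exact e.symm

/-- change of the second `ℙ¹` chart -/
theorem swap2 {a : A.ι} {b₁ : Bool} {z : E 4} (hz : ![z 0, z 1] ∈ A.U a) (h3 : z 3 ≠ 0)
    (b₂ : Bool) : ∃ c : ℂˣ, X.pt a b₁ b₂ z = c • X.pt a b₁ (!b₂)
      ![dact (D.k a) (Units.mk0 (z 3) h3 ^ β') ![z 0, z 1] 0,
        dact (D.k a) (Units.mk0 (z 3) h3 ^ β') ![z 0, z 1] 1, z 2, (z 3)⁻¹] := by
  refine ⟨(Units.mk0 (z 3) h3) ^ α' * ((Units.mk0 (z 3) h3) ^ β') ^ D.m a, ?_⟩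
  have e : ![dact (D.k a) (Units.mk0 (z 3) h3 ^ β') ![z 0, z 1] 0,
      dact (D.k a) (Units.mk0 (z 3) h3 ^ β') ![z 0, z 1] 1] =
      dact (D.k a) (Units.mk0 (z 3) h3 ^ β') ![z 0, z 1] := by
    ext j; fin_cases j <;> rfl
  show (P1Y.mk (P1Y.mk (A.γ a ![z 0, z 1]) (vec b₁ (z 2))) (vec b₂ (z 3)) : P1Y X.D₁ α' β') =
    _ • P1Y.mk (P1Y.mk (A.γ a ![_, _]) (vec b₁ (z 2))) (vec (!b₂) (z 3)⁻¹)
  rw [mk_swap h3 b₂, X.l₁.act, D.act_γ a _ hz, P1Y.smul_mk, P1Y.smul_mk, smul_smul]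
  congr 4
  exact e.symm

end TwoP1

end

end Pool.Agent.YTDA


end

/- source: Pool.Agent.YTDA.P1Sec -/

section

/-!
# Sections on the bundle over the projective line

For a section `F` of weight `j` on the fibre and `a + b = α N + β j` the section
`x₀ ^ a x₁ ^ b F`; separation of points and tangent vectors.
-/

namespace Pool.Agent.YTDA

open Complex Set Topology Filter

noncomputable section

variable {n : ℕ} {Y : Type} [MulAction ℂˣ Y] {A : PolAtlas n Y}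

/-- a section of `L ^ N` of weight `j` -/
structure Wt (D : A.DAct) (N : ℕ) (j : ℤ) (F : Y → ℂ) : Prop where
  sec : A.IsSec N F
  act : ∀ (c : ℂˣ) y, F (D.act c y) = ((c ^ j : ℂˣ) : ℂ) * F y

section lift

variable {D : A.DAct} {α β : ℤ}

/-- the function `x₀ ^ a x₁ ^ b F` -/
def liftP (D : A.DAct) (α β : ℤ) (a b : ℕ) (F : Y → ℂ) (p : P1Y D α β) : ℂ :=
  (Quotient.out (s := p1Setoid D α β) p).2.1 0 ^ a *
    (Quotient.out (s := p1Setoid D α β) p).2.1 1 ^ b *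
    F (Quotient.out (s := p1Setoid D α β) p).1

variable {N : ℕ} {j : ℤ} {F : Y → ℂ} {a b : ℕ}

theorem liftP_mk (hF : Wt D N j F) (hab : (a : ℤ) + b = α * N + β * j) (y : Y) (x : V2) :
    liftP D α β a b F (P1Y.mk y x) = x.1 0 ^ a * x.1 1 ^ b * F y := by
  unfold liftP
  set r := Quotient.out (s := p1Setoid D α β) (P1Y.mk y x : P1Y D α β) with hr
  have h1 : (P1Y.mk r.1 r.2 : P1Y D α β) = P1Y.mk y x := by
    have h2 := Quotient.out_eq (s := p1Setoid D α β) (P1Y.mk y x : P1Y D α β)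
    rw [← hr] at h2
    exact h2
  obtain ⟨c, h2, h3⟩ := P1Y.mk_eq.1 h1
  rw [h2, h3, hF.sec.hom, hF.act]
  have e0 : (c • x).1 0 = (c : ℂ) * x.1 0 := rfl
  have e1 : (c • x).1 1 = (c : ℂ) * x.1 1 := rfl
  rw [e0, e1, mul_pow, mul_pow]
  have e2 : c ^ a * c ^ b = (c ^ α) ^ N * (c ^ β) ^ j := by
    rw [← zpow_natCast (c ^ α), ← zpow_mul, ← zpow_mul, ← zpow_add, ← zpow_natCast c a,
      ← zpow_natCast c b, ← zpow_add, hab]
  have e3 := congrArg (fun t : ℂˣ => (t : ℂ)) e2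
  simp only [Units.val_mul, Units.val_pow_eq_pow_val] at e3
  linear_combination (x.1 0 ^ a * x.1 1 ^ b * F r.1) * e3

theorem differentiable_ini (z : E (n + 1)) : DifferentiableAt ℂ (ini : E (n + 1) → E n) z :=
  differentiableAt_pi.2 fun i => differentiableAt_apply i.castSucc z

theorem vec_coord (b : Bool) (t : ℂ) (i : Fin 2) : (vec b t).1 i = 1 ∨ (vec b t).1 i = t := by
  cases b
  · fin_cases i
    · exact Or.inl rfl
    · exact Or.inr rfl
  · fin_cases i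
    · exact Or.inr rfl
    · exact Or.inl rfl

theorem differentiable_vec (b : Bool) (i : Fin 2) (z : E (n + 1)) :
    DifferentiableAt ℂ (fun w : E (n + 1) => (vec b (w (Fin.last n))).1 i) z := by
  have h : DifferentiableAt ℂ (fun w : E (n + 1) => w (Fin.last n)) z :=
    differentiableAt_apply (Fin.last n) z
  cases b
  · fin_cases i
    · exact differentiableAt_const 1
    · exact h
  · fin_cases i
    · exact h
    · exact differentiableAt_const 1

/-- the projection as a linear map -/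
def iniL : E (n + 1) →L[ℂ] E n :=
  ContinuousLinearMap.pi fun j => ContinuousLinearMap.proj (R := ℂ) j.castSucc

theorem hasFDerivAt_ini (z : E (n + 1)) : HasFDerivAt (ini : E (n + 1) → E n) iniL z :=
  iniL.hasFDerivAt

theorem hasFDerivAt_last (z : E (n + 1)) : HasFDerivAt (fun w : E (n + 1) => w (Fin.last n))
    (ContinuousLinearMap.proj (R := ℂ) (φ := fun _ => ℂ) (Fin.last n)) z :=
  (ContinuousLinearMap.proj (R := ℂ) (φ := fun _ : Fin (n + 1) => ℂ) (Fin.last n)).hasFDerivAt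

variable {B : PolAtlas (n + 1) (P1Y D α β)} {e : A.ι × Bool ≃ B.ι}

/-- the two sections `F` and `z F` in a chart -/
theorem liftP_chart (hF : Wt D N j F) {m : ℕ} (hm : ((m + 1 : ℕ) : ℤ) = α * N + β * j)
    (b' : Bool) : (∃ a b : ℕ, (a : ℤ) + b = α * N + β * j ∧
      ∀ y u, liftP D α β a b F (P1Y.mk y (vec b' u)) = F y) ∧
    ∃ a b : ℕ, (a : ℤ) + b = α * N + β * j ∧
      ∀ y u, liftP D α β a b F (P1Y.mk y (vec b' u)) = u * F y := by
  cases b'
  · refine ⟨⟨m + 1, 0, by rw [← hm]; simp, fun y u => ?_⟩,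
      ⟨m, 1, by rw [← hm]; push_cast; ring, fun y u => ?_⟩⟩
    · rw [liftP_mk hF (by rw [← hm]; simp)]
      show (1 : ℂ) ^ (m + 1) * u ^ 0 * F y = F y
      simp
    · rw [liftP_mk hF (by rw [← hm]; push_cast; ring)]
      show (1 : ℂ) ^ m * u ^ 1 * F y = u * F y
      simp
  · refine ⟨⟨0, m + 1, by rw [← hm]; simp, fun y u => ?_⟩,
      ⟨1, m, by rw [← hm]; push_cast; ring, fun y u => ?_⟩⟩
    · rw [liftP_mk hF (by rw [← hm]; simp)]
      show u ^ 0 * (1 : ℂ) ^ (m + 1) * F y = F y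
      simp
    · rw [liftP_mk hF (by rw [← hm]; push_cast; ring)]
      show u ^ 1 * (1 : ℂ) ^ m * F y = u * F y
      simp

theorem liftP_isSec (hB : IsP1e B e) (hF : Wt D N j F) (hab : (a : ℤ) + b = α * N + β * j) :
    B.IsSec N (liftP D α β a b F) := by
  refine ⟨fun c p => ?_, fun k => ?_⟩
  · obtain ⟨y, x, rfl⟩ := P1Y.exists_mk p
    rw [P1Y.smul_mk, liftP_mk hF hab, liftP_mk hF hab, hF.sec.hom]
    ring
  · obtain ⟨⟨k, b'⟩, rfl⟩ := e.surjective k
    intro z hz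
    rw [hB.U] at hz
    have h1 : DifferentiableAt ℂ (fun w => F (A.γ k w)) (ini z) :=
      (hF.sec.hol k _ hz).differentiableAt ((A.isOpen_U k).mem_nhds hz)
    have h2 : DifferentiableAt ℂ (fun w : E (n + 1) => (vec b' (w (Fin.last n))).1 0 ^ a *
        (vec b' (w (Fin.last n))).1 1 ^ b * F (A.γ k (ini w))) z :=
      (((differentiable_vec b' 0 z).pow a).mul ((differentiable_vec b' 1 z).pow b)).mul
        (DifferentiableAt.comp z (g := fun w => F (A.γ k w)) h1 (differentiable_ini z))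
    refine (h2.congr_of_eventuallyEq ?_).differentiableWithinAt
    have h3 : ∀ᶠ w in 𝓝 z, ini w ∈ A.U k :=
      (differentiable_ini z).continuousAt.eventually_mem ((A.isOpen_U k).mem_nhds hz)
    filter_upwards [h3] with w hw
    rw [hB.γ k b' w hw, liftP_mk hF hab]

theorem liftP_wt (hB : IsP1e B e) {D' : B.DAct} (hD' : IsLift e D') (hF : Wt D N j F)
    (hab : (a : ℤ) + b = α * N + β * j) : Wt D' N j (liftP D α β a b F) := by
  refine ⟨liftP_isSec hB hF hab, fun c p => ?_⟩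
  obtain ⟨y, x, rfl⟩ := P1Y.exists_mk p
  rw [hD'.act, liftP_mk hF hab, liftP_mk hF hab, hF.act]
  ring

end lift

/-! ### Separation -/

/-- The sections in the sets `W j` separate points and tangent vectors. -/
structure WSep (A : PolAtlas n Y) (W : ℤ → Set (Y → ℂ)) : Prop where
  base : ∀ y, ∃ j, ∃ F ∈ W j, F y ≠ 0
  pts : ∀ (y y' : Y) (t : ℂ), (∀ j, ∀ F ∈ W j, F y' = t * F y) → ∃ c : ℂˣ, y' = c • y
  tan : ∀ a, ∀ z ∈ A.U a, ∀ (v : E n) (t : ℂ), (∀ j, ∀ F ∈ W j,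
    fderiv ℂ (fun w => F (A.γ a w)) z v = t * F (A.γ a z)) → v = 0

/-- the lifted sections -/
def liftW (D : A.DAct) (α β : ℤ) (N : ℕ) (W : ℤ → Set (Y → ℂ)) (j : ℤ) :
    Set (P1Y D α β → ℂ) :=
  {G | ∃ F ∈ W j, ∃ a b : ℕ, (a : ℤ) + b = α * N + β * j ∧ G = liftP D α β a b F}

theorem WSep.lift {D : A.DAct} {α β : ℤ} {B : PolAtlas (n + 1) (P1Y D α β)}
    {e : A.ι × Bool ≃ B.ι} (hB : IsP1e B e) {N : ℕ} {W : ℤ → Set (Y → ℂ)} (hW : WSep A W)
    (hwt : ∀ j, ∀ F ∈ W j, Wt D N j F) (hpos : ∀ j, (W j).Nonempty → 1 ≤ α * N + β * j) :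
    WSep B (liftW D α β N W) := by
  -- choice of the exponents
  have hA : ∀ j, (W j).Nonempty → ∃ m : ℕ, 1 ≤ m ∧ (m : ℤ) = α * N + β * j := by
    intro j hj
    have h1 := hpos j hj
    refine ⟨(α * N + β * j).toNat, ?_, Int.toNat_of_nonneg (by linarith)⟩
    have h2 : ((α * N + β * j).toNat : ℤ) = α * N + β * j := Int.toNat_of_nonneg (by linarith)
    exact_mod_cast (by rw [h2]; exact h1 : (1 : ℤ) ≤ ((α * N + β * j).toNat : ℤ))
  refine ⟨?_, ?_, ?_⟩
  · -- base points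
    intro p
    obtain ⟨y, x, rfl⟩ := P1Y.exists_mk p
    obtain ⟨j, F, hF, hF0⟩ := hW.base y
    obtain ⟨m, -, hm⟩ := hA j ⟨F, hF⟩
    have hx : x.1 0 ≠ 0 ∨ x.1 1 ≠ 0 := by
      by_contra hcon
      push Not at hcon
      exact x.2 (by ext i; fin_cases i; exacts [hcon.1, hcon.2])
    rcases hx with hx | hx
    · refine ⟨j, liftP D α β m 0 F, ⟨F, hF, m, 0, by rw [← hm]; simp, rfl⟩, ?_⟩
      rw [liftP_mk (hwt j F hF) (by rw [← hm]; simp)]
      exact mul_ne_zero (mul_ne_zero (pow_ne_zero _ hx) (by simp)) hF0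
    · refine ⟨j, liftP D α β 0 m F, ⟨F, hF, 0, m, by rw [← hm]; simp, rfl⟩, ?_⟩
      rw [liftP_mk (hwt j F hF) (by rw [← hm]; simp)]
      exact mul_ne_zero (mul_ne_zero (by simp) (pow_ne_zero _ hx)) hF0
  · -- points
    intro p p' t ht
    obtain ⟨y, x, rfl⟩ := P1Y.exists_mk p
    obtain ⟨y', x', rfl⟩ := P1Y.exists_mk p'
    have hval : ∀ j, ∀ F ∈ W j, ∀ a b : ℕ, (a : ℤ) + b = α * N + β * j →
        x'.1 0 ^ a * x'.1 1 ^ b * F y' = t * (x.1 0 ^ a * x.1 1 ^ b * F y) := by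
      intro j F hF a b hab
      have h1 := ht j _ ⟨F, hF, a, b, hab, rfl⟩
      rwa [liftP_mk (hwt j F hF) hab, liftP_mk (hwt j F hF) hab] at h1
    -- the points of the projective line agree
    obtain ⟨j, F, hF, hF0⟩ := hW.base y'
    obtain ⟨m, hm1, hm⟩ := hA j ⟨F, hF⟩
    obtain ⟨m, rfl⟩ : ∃ m', m = m' + 1 := ⟨m - 1, by omega⟩
    have hv : ∀ a b : ℕ, a + b = m + 1 →
        x'.1 0 ^ a * x'.1 1 ^ b * F y' = t * (x.1 0 ^ a * x.1 1 ^ b * F y) := by
      intro a b hab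
      refine hval j F hF a b ?_
      rw [← hm, ← hab]
      push_cast
      ring
    have hc : ∃ c : ℂˣ, x' = c • x := by
      have hx' : x'.1 0 ≠ 0 ∨ x'.1 1 ≠ 0 := by
        by_contra hcon
        push Not at hcon
        exact x'.2 (by ext i; fin_cases i; exacts [hcon.1, hcon.2])
      rcases hx' with hx' | hx'
      · have h1 := hv (m + 1) 0 (by ring)
        have h2 := hv m 1 (by ring)
        rw [pow_zero, mul_one, pow_zero, mul_one] at h1
        rw [pow_one, pow_one] at h2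
        have h3 : t * (x.1 0 ^ (m + 1) * F y) ≠ 0 := by
          rw [← h1]
          exact mul_ne_zero (pow_ne_zero _ hx') hF0
        have hx0 : x.1 0 ≠ 0 := by
          intro h0
          rw [h0] at h3
          simp at h3
        refine ⟨Units.mk0 (x'.1 0 / x.1 0) (div_ne_zero hx' hx0), ?_⟩
        apply Subtype.ext
        rw [V2.coe_smul, Units.val_mk0]
        ext i
        fin_cases i
        · show x'.1 0 = x'.1 0 / x.1 0 * x.1 0
          rw [div_mul_cancel₀ _ hx0]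
        · show x'.1 1 = x'.1 0 / x.1 0 * x.1 1
          -- h2 / h1
          have h4 : x'.1 1 * x.1 0 = x'.1 0 * x.1 1 := by
            have h5 : (x'.1 0 ^ m * x'.1 1 * F y') * (x.1 0 ^ (m + 1) * F y * t) =
                (x'.1 0 ^ (m + 1) * F y') * (t * (x.1 0 ^ m * x.1 1 * F y)) := by
              rw [h1, h2]; ring
            have h6 : (x'.1 0 ^ m * F y' * (x.1 0 ^ m * F y * t)) ≠ 0 := by
              have h7 : t ≠ 0 := fun h => h3 (by rw [h, zero_mul])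
              have h8 : F y ≠ 0 := fun h => h3 (by rw [h]; simp)
              exact mul_ne_zero (mul_ne_zero (pow_ne_zero _ hx') hF0)
                (mul_ne_zero (mul_ne_zero (pow_ne_zero _ hx0) h8) h7)
            apply mul_left_cancel₀ h6
            linear_combination h5
          rw [div_mul_eq_mul_div, eq_div_iff hx0, h4]
      · have h1 := hv 0 (m + 1) (by ring)
        have h2 := hv 1 m (by ring)
        rw [pow_zero, one_mul, pow_zero, one_mul] at h1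
        rw [pow_one, pow_one] at h2
        have h3 : t * (x.1 1 ^ (m + 1) * F y) ≠ 0 := by
          rw [← h1]
          exact mul_ne_zero (pow_ne_zero _ hx') hF0
        have hx0 : x.1 1 ≠ 0 := by
          intro h0
          rw [h0] at h3
          simp at h3
        refine ⟨Units.mk0 (x'.1 1 / x.1 1) (div_ne_zero hx' hx0), ?_⟩
        apply Subtype.ext
        rw [V2.coe_smul, Units.val_mk0]
        ext i
        fin_cases i
        · show x'.1 0 = x'.1 1 / x.1 1 * x.1 0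
          have h4 : x'.1 0 * x.1 1 = x'.1 1 * x.1 0 := by
            have h5 : (x'.1 0 * x'.1 1 ^ m * F y') * (x.1 1 ^ (m + 1) * F y * t) =
                (x'.1 1 ^ (m + 1) * F y') * (t * (x.1 0 * x.1 1 ^ m * F y)) := by
              rw [h1, h2]; ring
            have h6 : (x'.1 1 ^ m * F y' * (x.1 1 ^ m * F y * t)) ≠ 0 := by
              have h7 : t ≠ 0 := fun h => h3 (by rw [h, zero_mul])
              have h8 : F y ≠ 0 := fun h => h3 (by rw [h]; simp)
              exact mul_ne_zero (mul_ne_zero (pow_ne_zero _ hx') hF0)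
                (mul_ne_zero (mul_ne_zero (pow_ne_zero _ hx0) h8) h7)
            apply mul_left_cancel₀ h6
            linear_combination h5
          rw [div_mul_eq_mul_div, eq_div_iff hx0, h4]
        · show x'.1 1 = x'.1 1 / x.1 1 * x.1 1
          rw [div_mul_cancel₀ _ hx0]
    obtain ⟨c, hc⟩ := hc
    -- move to the same point of the projective line
    have hp' : (P1Y.mk y' x' : P1Y D α β) = P1Y.mk (c ^ α • D.act (c ^ β) y') x := by
      rw [hc, P1Y.mk_smul]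
    rw [hp'] at ht ⊢
    have hxx : x.1 0 ≠ 0 ∨ x.1 1 ≠ 0 := by
      by_contra hcon
      push Not at hcon
      exact x.2 (by ext i; fin_cases i; exacts [hcon.1, hcon.2])
    obtain ⟨d, hd⟩ := hW.pts y (c ^ α • D.act (c ^ β) y') t (by
      intro j F hF
      obtain ⟨m, -, hm⟩ := hA j ⟨F, hF⟩
      rcases hxx with hx | hx
      · have h1 := ht j _ ⟨F, hF, m, 0, by rw [← hm]; simp, rfl⟩
        rw [liftP_mk (hwt j F hF) (by rw [← hm]; simp),
          liftP_mk (hwt j F hF) (by rw [← hm]; simp)] at h1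
        have h2 : x.1 0 ^ m * x.1 1 ^ 0 ≠ 0 := mul_ne_zero (pow_ne_zero _ hx) (by simp)
        apply mul_left_cancel₀ h2
        rw [h1]; ring
      · have h1 := ht j _ ⟨F, hF, 0, m, by rw [← hm]; simp, rfl⟩
        rw [liftP_mk (hwt j F hF) (by rw [← hm]; simp),
          liftP_mk (hwt j F hF) (by rw [← hm]; simp)] at h1
        have h2 : x.1 0 ^ 0 * x.1 1 ^ m ≠ 0 := mul_ne_zero (by simp) (pow_ne_zero _ hx)
        apply mul_left_cancel₀ h2
        rw [h1]; ring)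
    exact ⟨d, by rw [hd, P1Y.smul_mk]⟩
  · -- tangent vectors
    intro k z hz v t ht
    obtain ⟨⟨k, b'⟩, rfl⟩ := e.surjective k
    have hzU : ini z ∈ A.U k := by rw [hB.U] at hz; exact hz
    have hnear : ∀ᶠ w in 𝓝 z, ini w ∈ A.U k :=
      (differentiable_ini z).continuousAt.eventually_mem ((A.isOpen_U k).mem_nhds hzU)
    -- the two relations
    have key : ∀ j, ∀ F ∈ W j, fderiv ℂ (fun w => F (A.γ k w)) (ini z) (ini v) =
        t * F (A.γ k (ini z)) ∧ v (Fin.last n) * F (A.γ k (ini z)) = 0 := by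
      intro j F hF
      obtain ⟨m, hm1, hm⟩ := hA j ⟨F, hF⟩
      obtain ⟨m, rfl⟩ : ∃ m', m = m' + 1 := ⟨m - 1, by omega⟩
      obtain ⟨⟨a, b, hab, h0⟩, a', b₁, hab', h1⟩ := liftP_chart (hwt j F hF) hm b'
      have hd : DifferentiableAt ℂ (fun w => F (A.γ k w)) (ini z) :=
        ((hwt j F hF).sec.hol k _ hzU).differentiableAt ((A.isOpen_U k).mem_nhds hzU)
      have hd1 : HasFDerivAt (fun w : E (n + 1) => F (A.γ k (ini w)))
          ((fderiv ℂ (fun w => F (A.γ k w)) (ini z)).comp iniL) z :=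
        hd.hasFDerivAt.comp z (hasFDerivAt_ini z)
      -- first
      have e0 := ht j _ ⟨F, hF, a, b, hab, rfl⟩
      have c0 : (fun w => liftP D α β a b F (B.γ (e (k, b')) w)) =ᶠ[𝓝 z]
          fun w => F (A.γ k (ini w)) := by
        filter_upwards [hnear] with w hw
        rw [hB.γ k b' w hw, h0]
      rw [c0.fderiv_eq, hd1.fderiv, hB.γ k b' z hzU, h0] at e0
      have e0' : fderiv ℂ (fun w => F (A.γ k w)) (ini z) (ini v) = t * F (A.γ k (ini z)) := e0
      -- second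
      have e1 := ht j _ ⟨F, hF, a', b₁, hab', rfl⟩
      have c1 : (fun w => liftP D α β a' b₁ F (B.γ (e (k, b')) w)) =ᶠ[𝓝 z]
          fun w => w (Fin.last n) * F (A.γ k (ini w)) := by
        filter_upwards [hnear] with w hw
        rw [hB.γ k b' w hw, h1]
      rw [c1.fderiv_eq, ((hasFDerivAt_last z).fun_mul hd1).fderiv, hB.γ k b' z hzU, h1] at e1
      have e1' : z (Fin.last n) * fderiv ℂ (fun w => F (A.γ k w)) (ini z) (ini v) +
          F (A.γ k (ini z)) * v (Fin.last n) = t * (z (Fin.last n) * F (A.γ k (ini z))) := e1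
      refine ⟨e0', ?_⟩
      rw [e0'] at e1'
      linear_combination e1'
    obtain ⟨j, F, hF, hF0⟩ := hW.base (A.γ k (ini z))
    have hlast : v (Fin.last n) = 0 := by
      rcases mul_eq_zero.1 (key j F hF).2 with h | h
      · exact h
      · exact absurd h hF0
    have hini := hW.tan k (ini z) hzU (ini v) t fun j F hF => (key j F hF).1
    ext i
    refine Fin.lastCases ?_ (fun i => ?_) i
    · exact hlast
    · exact congrFun hini i

end

end Pool.Agent.YTDA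


end

/- source: Pool.Agent.YTDA.SecGlue -/

section

/-!
# Gluing sections
-/

namespace Pool.Agent.YTDA

open Complex Set Topology ContDiff Filter

noncomputable section

namespace PolAtlas

variable {n : ℕ} {Y : Type} [MulAction ℂˣ Y] (A : PolAtlas n Y)

/-- the homogeneous function given by local expressions -/
def glueN (N : ℕ) (g : A.ι → E n → ℂ) (y : Y) : ℂ :=
  (((A.cover y).choose_spec.choose_spec.2.choose : ℂˣ) : ℂ) ^ N *
    g (A.cover y).choose (A.cover y).choose_spec.choose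

variable {A}

/-- The relation between the local expressions has to be checked on a dense set only. -/
theorem rel_of_dense {N : ℕ} {g : A.ι → E n → ℂ} (hg : ∀ a, ContinuousOn (g a) (A.U a))
    {G : Set (E n)} (hGo : IsOpen G) (hGd : Dense G)
    (h : ∀ a b, ∀ z ∈ A.O a b, z ∈ G → A.τ a b z ∈ G →
      g b (A.τ a b z) = (A.h a b z : ℂ) ^ N * g a z) (a b : A.ι) (z : E n) (hz : z ∈ A.O a b) :
    g b (A.τ a b z) = (A.h a b z : ℂ) ^ N * g a z := by
  have hO : A.O a b ∈ 𝓝 z := (A.O_open a b).mem_nhds hz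
  have h1 : ContinuousAt (fun w => g b (A.τ a b w)) z :=
    ((hg b).comp (A.continuousOn_τ a b) fun w hw => A.τ_mem hw).continuousAt hO
  have h2 : ContinuousAt (fun w => (A.h a b w : ℂ) ^ N * g a w) z :=
    (((A.hol_h' a b).continuousOn.pow N).mul ((hg a).mono (A.O_subset a b))).continuousAt hO
  refine tendsto_nhds_unique_of_frequently_eq h1 h2 ?_
  rw [Filter.frequently_iff]
  intro V hV
  obtain ⟨V₁, hV₁, hV₁o, hzV₁⟩ := mem_nhds_iff.1 (inter_mem hV hO)
  obtain ⟨z₁, hz₁V, hz₁G⟩ := hGd.inter_open_nonempty V₁ hV₁o ⟨z, hzV₁⟩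
  -- the image of `V₁ ∩ G`
  have hz₁O : z₁ ∈ A.O a b := (hV₁ hz₁V).2
  have hop : IsOpen (A.O b a ∩ A.τ b a ⁻¹' (V₁ ∩ G)) :=
    (A.continuousOn_τ b a).isOpen_inter_preimage (A.O_open b a) (hV₁o.inter hGo)
  obtain ⟨w, ⟨hwO, hwV⟩, hwG⟩ := hGd.inter_open_nonempty _ hop
    ⟨A.τ a b z₁, A.τ_mem_O hz₁O, by
      show A.τ b a (A.τ a b z₁) ∈ V₁ ∩ G
      rw [(A.τ_τ hz₁O).1]
      exact ⟨hz₁V, hz₁G⟩⟩
  refine ⟨A.τ b a w, (hV₁ hwV.1).1, h a b _ (hV₁ hwV.1).2 hwV.2 ?_⟩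
  rw [(A.τ_τ hwO).1]
  exact hwG

theorem glueN_eq {N : ℕ} {g : A.ι → E n → ℂ}
    (h : ∀ a b, ∀ z ∈ A.O a b, g b (A.τ a b z) = (A.h a b z : ℂ) ^ N * g a z)
    {a : A.ι} {z : E n} (hz : z ∈ A.U a) (c : ℂˣ) :
    A.glueN N g (c • A.γ a z) = (c : ℂ) ^ N * g a z := by
  set y : Y := c • A.γ a z with hy
  have hb : (A.cover y).choose_spec.choose ∈ A.U (A.cover y).choose :=
    (A.cover y).choose_spec.choose_spec.1
  have hc : y = (A.cover y).choose_spec.choose_spec.2.choose •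
      A.γ (A.cover y).choose (A.cover y).choose_spec.choose :=
    (A.cover y).choose_spec.choose_spec.2.choose_spec
  unfold glueN
  set b := (A.cover y).choose with hbdef
  set w : E n := (A.cover y).choose_spec.choose with hwdef
  set d : ℂˣ := (A.cover y).choose_spec.choose_spec.2.choose with hddef
  have h1 : A.γ b w = (d⁻¹ * c) • A.γ a z := by
    rw [← smul_smul, ← hy, hc, inv_smul_smul]
  obtain ⟨h2, h3, h4⟩ := A.eq_τ hz hb h1
  have h5 := h a b z h2
  rw [h3, h4] at h5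
  rw [h5, ← mul_assoc, ← mul_pow, ← Units.val_mul, mul_inv_cancel_left]

theorem glueN_γ {N : ℕ} {g : A.ι → E n → ℂ}
    (h : ∀ a b, ∀ z ∈ A.O a b, g b (A.τ a b z) = (A.h a b z : ℂ) ^ N * g a z)
    {a : A.ι} {z : E n} (hz : z ∈ A.U a) : A.glueN N g (A.γ a z) = g a z := by
  have := glueN_eq h hz 1
  rwa [one_smul, Units.val_one, one_pow, one_mul] at this

theorem glueN_isSec {N : ℕ} {g : A.ι → E n → ℂ}
    (h : ∀ a b, ∀ z ∈ A.O a b, g b (A.τ a b z) = (A.h a b z : ℂ) ^ N * g a z)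
    (hg : ∀ a, DifferentiableOn ℂ (g a) (A.U a)) : A.IsSec N (A.glueN N g) := by
  refine ⟨fun c y => ?_, fun a => (hg a).congr fun z hz => glueN_γ h hz⟩
  obtain ⟨a, z, hz, d, rfl⟩ := A.cover y
  rw [smul_smul, glueN_eq h hz, glueN_eq h hz]
  push_cast
  ring

/-- limits in different charts -/
theorem eq_of_tendsto (ht : A.IsT2) {a b : A.ι} {z z' : E n} (hz : z ∈ A.U a) (hz' : z' ∈ A.U b)
    {ι : Type*} {l : Filter ι} [l.NeBot] {u u' : ι → E n} (hu : Tendsto u l (𝓝 z))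
    (hu' : Tendsto u' l (𝓝 z')) (h : ∀ᶠ i in l, ∃ c : ℂˣ, A.γ b (u' i) = c • A.γ a (u i)) :
    ∃ c : ℂˣ, A.γ b z' = c • A.γ a z := by
  by_contra hcon
  push Not at hcon
  obtain ⟨V, hV, V', hV', hVV⟩ := ht a b z hz z' hz' hcon
  have h1 := hu.eventually_mem (inter_mem hV ((A.isOpen_U a).mem_nhds hz))
  have h2 := hu'.eventually_mem (inter_mem hV' ((A.isOpen_U b).mem_nhds hz'))
  obtain ⟨i, hi, hi', c, hc⟩ := (h1.and (h2.and h)).exists
  exact hVV _ hi _ hi' c hc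

end PolAtlas

end

end Pool.Agent.YTDA


end

/- source: Pool.Agent.YTDA.XMap -/

section

/-!
# Holomorphic maps of the total space over a product of two projective lines

`P1Y.map f`, `P1Y.gl g` are biholomorphic; the points `mk2 y x x' = [[y, x], x']` of
`P1Y D₁ α' β'` (`D₁` the action induced by `D` on `P1Y D α β`); the maps
`mapY f : [y, x, x'] ↦ [f y, x, x']`, `gl1 g : [y, x, x'] ↦ [y, g x, x']`,
`gl2 g : [y, x, x'] ↦ [y, x, g x']` and `swapX f : [y, x, x'] ↦ [f y, x', x]`.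
-/

namespace Pool.Agent.YTDA

open Complex Set Topology Filter

noncomputable section

variable {n m : ℕ} {Y Y' : Type} [MulAction ℂˣ Y] [MulAction ℂˣ Y']

variable {A : PolAtlas n Y} {F : E m → Y} {z : E m} {D : A.DAct} {α β : ℤ}

/-- the action of `GL₂` on vectors -/
def glv (g : GL (Fin 2) ℂ) (x : V2) : V2 := ⟨g.1.mulVec x.1, by
    intro h
    apply x.2
    have h1 := congrArg (fun v => (g⁻¹).1.mulVec v) h
    simp only [Matrix.mulVec_mulVec, Matrix.mulVec_zero] at h1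
    rwa [← Units.val_mul, inv_mul_cancel, Units.val_one, Matrix.one_mulVec] at h1⟩

theorem coe_glv (g : GL (Fin 2) ℂ) (x : V2) : (glv g x : Fin 2 → ℂ) = g.1.mulVec x.1 := rfl

theorem glv_one (x : V2) : glv 1 x = x := by
  apply Subtype.ext
  rw [coe_glv, Units.val_one, Matrix.one_mulVec]

theorem glv_mul (g h : GL (Fin 2) ℂ) (x : V2) : glv (g * h) x = glv g (glv h x) := by
  apply Subtype.ext
  rw [coe_glv, coe_glv, coe_glv, Units.val_mul, Matrix.mulVec_mulVec]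

theorem glv_smul (g : GL (Fin 2) ℂ) (c : ℂˣ) (x : V2) : glv g (c • x) = c • glv g x := by
  apply Subtype.ext
  rw [coe_glv, V2.coe_smul, V2.coe_smul, Matrix.mulVec_smul, coe_glv]

theorem analyticAt_glv (g : GL (Fin 2) ℂ) {v : E m → V2}
    (hv : AnalyticAt ℂ (fun ζ => (v ζ : Fin 2 → ℂ)) z) :
    AnalyticAt ℂ (fun ζ => (glv g (v ζ) : Fin 2 → ℂ)) z := by
  have hv' := analyticAt_pi_iff.1 hv
  rw [analyticAt_pi_iff]
  intro i
  have h : AnalyticAt ℂ (fun ζ => g.1 i 0 * (v ζ).1 0 + g.1 i 1 * (v ζ).1 1) z :=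
    (analyticAt_const.fun_mul (hv' 0)).fun_add (analyticAt_const.fun_mul (hv' 1))
  refine h.congr (Eventually.of_forall fun ζ => ?_)
  show _ = (g.1.mulVec (v ζ).1) i
  rw [Matrix.mulVec, dotProduct, Fin.sum_univ_two]

namespace P1Y

theorem gl_mk (g : GL (Fin 2) ℂ) (y : Y) (x : V2) :
    gl g (mk y x : P1Y D α β) = mk y (glv g x) := rfl

theorem gl_smul (g : GL (Fin 2) ℂ) (c : ℂˣ) (p : P1Y D α β) : gl g (c • p) = c • gl g p := by
  obtain ⟨y, x, rfl⟩ := exists_mk p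
  rfl

theorem gl_one (p : P1Y D α β) : gl 1 p = p := by
  obtain ⟨y, x, rfl⟩ := exists_mk p
  rw [gl_mk, glv_one]

theorem gl_mul (g h : GL (Fin 2) ℂ) (p : P1Y D α β) : gl (g * h) p = gl g (gl h p) := by
  obtain ⟨y, x, rfl⟩ := exists_mk p
  rw [gl_mk, gl_mk, gl_mk, glv_mul]

theorem gl_inv_gl (g : GL (Fin 2) ℂ) (p : P1Y D α β) : gl g⁻¹ (gl g p) = p := by
  rw [← gl_mul, inv_mul_cancel, gl_one]

theorem map_smul (f : Y → Y) (hf : ∀ (c : ℂˣ) y, f (c • y) = c • f y)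
    (hf' : ∀ (c : ℂˣ) y, f (D.act c y) = D.act c (f y)) (c : ℂˣ) (p : P1Y D α β) :
    map f hf hf' (c • p) = c • map f hf hf' p := by
  obtain ⟨y, x, rfl⟩ := exists_mk p
  rw [smul_mk, map_mk, map_mk, hf, smul_mk]

/-- Maps out of `P1Y`. -/
def lift {Z : Type} (F : Y → V2 → Z)
    (h : ∀ (c : ℂˣ) y x, F y (c • x) = F (c ^ α • D.act (c ^ β) y) x) : P1Y D α β → Z :=
  Quotient.lift (fun p => F p.1 p.2) (by
    rintro ⟨y, x⟩ ⟨y', x'⟩ ⟨c, h1, h2⟩
    simp only at h1 h2 ⊢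
    rw [h1, h, h2])

theorem lift_mk {Z : Type} (F : Y → V2 → Z)
    (h : ∀ (c : ℂˣ) y x, F y (c • x) = F (c ^ α • D.act (c ^ β) y) x) (y : Y) (x : V2) :
    lift F h (mk y x : P1Y D α β) = F y x := rfl

variable {P : PolAtlas (n + 1) (P1Y D α β)}

/-- Maps of the fibre extend to holomorphic maps. -/
theorem isHol_map (hP : P1At P) {f : Y → Y} (h : IsHol A A f)
    (hf : ∀ (c : ℂˣ) y, f (c • y) = c • f y)
    (hf' : ∀ (c : ℂˣ) y, f (D.act c y) = D.act c (f y)) : IsHol P P (map f hf hf') := by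
  refine hP.isHol (fun c y x => ?_) fun a b z hz => ?_
  · rw [map_mk, map_mk, hf, smul_mk]
  · exact (h.holAt (holAt_frame A (analyticAt_castSucc z) hz)).mk hP
      (analyticAt_vec (analyticAt_coord _ z))

theorem isBihol_map (hP : P1At P) {f f' : Y → Y} (h : IsHol A A f) (h' : IsHol A A f')
    (hff : ∀ y, f' (f y) = y) (hff' : ∀ y, f (f' y) = y)
    (hf : ∀ (c : ℂˣ) y, f (c • y) = c • f y)
    (hf' : ∀ (c : ℂˣ) y, f (D.act c y) = D.act c (f y)) : IsBihol P P (map f hf hf') := by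
  have h1 : ∀ (c : ℂˣ) y, f' (D.act c y) = D.act c (f' y) := fun c y => by
    conv_lhs => rw [← hff' y, ← hf', hff]
  refine (isHol_map hP h hf hf').isBihol (isHol_map hP h' h'.smul h1) fun p => ?_
  obtain ⟨y, x, rfl⟩ := exists_mk p
  rw [map_mk, map_mk, hff]

theorem isHol_gl (hP : P1At P) (g : GL (Fin 2) ℂ) : IsHol P P (gl g) := by
  refine hP.isHol (fun c y x => ?_) fun a b z hz => ?_
  · rw [← smul_mk, gl_smul]
  · exact (holAt_frame A (analyticAt_castSucc z) hz).mk hP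
      (analyticAt_glv g (analyticAt_vec (analyticAt_coord _ z)))

/-- The action of `GL₂` is biholomorphic. -/
theorem isBihol_gl (hP : P1At P) (g : GL (Fin 2) ℂ) : IsBihol P P (gl g) :=
  (isHol_gl hP g).isBihol (isHol_gl hP g⁻¹) (gl_inv_gl g)

end P1Y

/-! ### Two factors -/

variable {P : PolAtlas (n + 1) (P1Y D α β)} {D₁ : P.DAct} {α' β' : ℤ}
  {Q : PolAtlas (n + 1 + 1) (P1Y D₁ α' β')}

/-- the point `[[y, x], x']` -/
def mk2 (y : Y) (x x' : V2) : P1Y D₁ α' β' := P1Y.mk (P1Y.mk y x) x'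

/-- the action `D₁` on `P1Y D α β` is induced by the action `D` on `Y`. -/
def Induced (D₁ : P.DAct) : Prop := ∀ c y x, D₁.act c (P1Y.mk y x) = P1Y.mk (D.act c y) x

theorem exists_mk2 (p : P1Y D₁ α' β') : ∃ y x x', p = mk2 y x x' := by
  obtain ⟨p, x', rfl⟩ := P1Y.exists_mk p
  obtain ⟨y, x, rfl⟩ := P1Y.exists_mk p
  exact ⟨y, x, x', rfl⟩

theorem smul_mk2 (c : ℂˣ) (y : Y) (x x' : V2) :
    c • (mk2 y x x' : P1Y D₁ α' β') = mk2 (c • y) x x' := rfl

theorem mk2_smul_left (c : ℂˣ) (y : Y) (x x' : V2) :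
    (mk2 y (c • x) x' : P1Y D₁ α' β') = mk2 (c ^ α • D.act (c ^ β) y) x x' := by
  unfold mk2
  rw [P1Y.mk_smul]

theorem mk2_smul_right (hD : Induced D₁) (c : ℂˣ) (y : Y) (x x' : V2) :
    (mk2 y x (c • x') : P1Y D₁ α' β') = mk2 (c ^ α' • D.act (c ^ β') y) x x' := by
  unfold mk2
  rw [P1Y.mk_smul, hD, P1Y.smul_mk]

theorem HolAt.mk2 (hP : P1At P) (hQ : P1At Q) (hF : HolAt A F z) {v v' : E m → V2}
    (hv : AnalyticAt ℂ (fun ζ => (v ζ : Fin 2 → ℂ)) z)
    (hv' : AnalyticAt ℂ (fun ζ => (v' ζ : Fin 2 → ℂ)) z) :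
    HolAt Q (fun ζ => (mk2 (F ζ) (v ζ) (v' ζ) : P1Y D₁ α' β')) z :=
  (hF.mk hP hv).mk hQ hv'

/-- Criterion for holomorphy of maps on `P1Y D₁ α' β'`. -/
theorem isHol₂ {Z : Type} [MulAction ℂˣ Z] {C : PolAtlas (n + 1 + 1) Z}
    (hP : P1At P) (hQ : P1At Q) {f : P1Y D₁ α' β' → Z}
    (hs : ∀ (c : ℂˣ) y x x', f (mk2 (c • y) x x') = c • f (mk2 y x x'))
    (hf : ∀ (G : E (n + 1 + 1) → Y) (v v' : E (n + 1 + 1) → V2) (z : E (n + 1 + 1)),
      HolAt A G z → AnalyticAt ℂ (fun ζ => (v ζ : Fin 2 → ℂ)) z →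
      AnalyticAt ℂ (fun ζ => (v' ζ : Fin 2 → ℂ)) z →
      HolAt C (fun ζ => f (mk2 (G ζ) (v ζ) (v' ζ))) z) : IsHol Q C f := by
  refine hQ.isHol (fun c p x' => ?_) fun i b' z hz => ?_
  · obtain ⟨y, x, rfl⟩ := P1Y.exists_mk p
    exact hs c y x x'
  · obtain ⟨a, b, hU, hγ⟩ := hP.chart i
    have hz₀ := hz
    rw [hU] at hz
    have h1 : AnalyticAt ℂ (fun ζ : E (n + 1 + 1) =>
        (fun j : Fin n => ζ (Fin.castSucc (Fin.castSucc j)) : E n)) z := by
      rw [analyticAt_pi_iff]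
      intro j
      exact analyticAt_coord _ z
    have h2 := hf (fun ζ => A.γ a fun j => ζ (Fin.castSucc (Fin.castSucc j)))
      (fun ζ => vec b (ζ (Fin.castSucc (Fin.last n)))) (fun ζ => vec b' (ζ (Fin.last (n + 1)))) z
      (holAt_frame A h1 hz) (analyticAt_vec (analyticAt_coord _ z))
      (analyticAt_vec (analyticAt_coord _ z))
    refine h2.congr ?_
    filter_upwards [(analyticAt_castSucc z).continuousAt.eventually
      ((P.isOpen_U i).mem_nhds hz₀)] with ζ hζ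
    rw [hγ _ hζ]
    rfl

/-- `[y, x, x'] ↦ [f y, x, x']` -/
def mapY (f : Y → Y) (hf : ∀ (c : ℂˣ) y, f (c • y) = c • f y)
    (hf' : ∀ (c : ℂˣ) y, f (D.act c y) = D.act c (f y)) (hD : Induced D₁) :
    P1Y D₁ α' β' → P1Y D₁ α' β' :=
  P1Y.map (P1Y.map f hf hf') (P1Y.map_smul f hf hf') fun c p => by
    obtain ⟨y, x, rfl⟩ := P1Y.exists_mk p
    rw [hD, P1Y.map_mk, P1Y.map_mk, hD, hf']

/-- `[y, x, x'] ↦ [y, g x, x']` -/
def gl1 (g : GL (Fin 2) ℂ) (hD : Induced D₁) : P1Y D₁ α' β' → P1Y D₁ α' β' :=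
  P1Y.map (P1Y.gl g) (P1Y.gl_smul g) fun c p => by
    obtain ⟨y, x, rfl⟩ := P1Y.exists_mk p
    rw [hD, P1Y.gl_mk, P1Y.gl_mk, hD]

/-- `[y, x, x'] ↦ [y, x, g x']` -/
def gl2 (g : GL (Fin 2) ℂ) : P1Y D₁ α' β' → P1Y D₁ α' β' := P1Y.gl g

/-- `[y, x, x'] ↦ [f y, x', x]` for `f` with `f (act c y) = act c⁻¹ (f y)`. -/
def swapX (f : Y → Y) (hf : ∀ (c : ℂˣ) y, f (c • y) = c • f y)
    (hf' : ∀ (c : ℂˣ) y, f (D.act c y) = D.act c⁻¹ (f y)) (hD : Induced D₁) (hα : α' = α)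
    (hβ : β' = -β) : P1Y D₁ α' β' → P1Y D₁ α' β' :=
  P1Y.lift (fun p x' => P1Y.lift (fun y x => mk2 (f y) x' x) (fun c y x => by
      rw [mk2_smul_right hD, hf, hf', hα, hβ, zpow_neg]) p) (fun c p x' => by
    obtain ⟨y, x, rfl⟩ := P1Y.exists_mk p
    rw [hD, P1Y.smul_mk, P1Y.lift_mk, P1Y.lift_mk, mk2_smul_left, hf, hf', hα, hβ, zpow_neg,
      inv_inv])

section

variable (f : Y → Y) (hf : ∀ (c : ℂˣ) y, f (c • y) = c • f y)
    (hf' : ∀ (c : ℂˣ) y, f (D.act c y) = D.act c (f y)) (hf'' : ∀ (c : ℂˣ) y,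
      f (D.act c y) = D.act c⁻¹ (f y)) (hD : Induced D₁) (g : GL (Fin 2) ℂ)

theorem mapY_mk2 (y : Y) (x x' : V2) :
    mapY f hf hf' hD (mk2 y x x' : P1Y D₁ α' β') = mk2 (f y) x x' := rfl

theorem gl1_mk2 (y : Y) (x x' : V2) :
    gl1 g hD (mk2 y x x' : P1Y D₁ α' β') = mk2 y (glv g x) x' := rfl

theorem gl2_mk2 (y : Y) (x x' : V2) :
    gl2 g (mk2 y x x' : P1Y D₁ α' β') = mk2 y x (glv g x') := rfl

theorem swapX_mk2 (hα : α' = α) (hβ : β' = -β) (y : Y) (x x' : V2) :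
    swapX f hf hf'' hD hα hβ (mk2 y x x' : P1Y D₁ α' β') = mk2 (f y) x' x := rfl

theorem isHol_mapY (hP : P1At P) (hQ : P1At Q) (h : IsHol A A f) :
    IsHol Q Q (mapY f hf hf' hD) := by
  refine isHol₂ hP hQ (fun c y x x' => ?_) fun G v v' z hG hv hv' => ?_
  · rw [mapY_mk2, mapY_mk2, smul_mk2, hf]
  · exact (h.holAt hG).mk2 hP hQ hv hv'

theorem isHol_gl1 (hP : P1At P) (hQ : P1At Q) : IsHol Q Q (gl1 g hD) := by
  refine isHol₂ hP hQ (fun c y x x' => ?_) fun G v v' z hG hv hv' => ?_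
  · rw [gl1_mk2, gl1_mk2, smul_mk2]
  · exact hG.mk2 hP hQ (analyticAt_glv g hv) hv'

theorem isBihol_gl1 (hP : P1At P) (hQ : P1At Q) : IsBihol Q Q (gl1 g hD) := by
  refine (isHol_gl1 hD g hP hQ).isBihol (isHol_gl1 hD g⁻¹ hP hQ) fun p => ?_
  obtain ⟨y, x, x', rfl⟩ := exists_mk2 p
  rw [gl1_mk2, gl1_mk2, ← glv_mul, inv_mul_cancel, glv_one]

theorem isBihol_gl2 (hQ : P1At Q) : IsBihol Q Q (gl2 g) := P1Y.isBihol_gl hQ g

theorem isBihol_mapY (hP : P1At P) (hQ : P1At Q) (h : IsHol A A f) {f' : Y → Y}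
    (h' : IsHol A A f') (hff : ∀ y, f' (f y) = y) (hff' : ∀ y, f (f' y) = y) :
    IsBihol Q Q (mapY f hf hf' hD) := by
  have h1 : ∀ (c : ℂˣ) y, f' (D.act c y) = D.act c (f' y) := fun c y => by
    conv_lhs => rw [← hff' y, ← hf', hff]
  refine (isHol_mapY f hf hf' hD hP hQ h).isBihol
    (isHol_mapY f' h'.smul h1 hD hP hQ h') fun p => ?_
  obtain ⟨y, x, x', rfl⟩ := exists_mk2 p
  rw [mapY_mk2, mapY_mk2, hff]

theorem isHol_swapX (hα : α' = α) (hβ : β' = -β) (hP : P1At P) (hQ : P1At Q)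
    (h : IsHol A A f) : IsHol Q Q (swapX f hf hf'' hD hα hβ) := by
  refine isHol₂ hP hQ (fun c y x x' => ?_) fun G v v' z hG hv hv' => ?_
  · rw [swapX_mk2, swapX_mk2, smul_mk2, hf]
  · exact (h.holAt hG).mk2 hP hQ hv' hv

theorem isBihol_swapX (hα : α' = α) (hβ : β' = -β) (hP : P1At P) (hQ : P1At Q)
    (h : IsHol A A f) {f' : Y → Y} (h' : IsHol A A f') (hff : ∀ y, f' (f y) = y)
    (hff' : ∀ y, f (f' y) = y) : IsBihol Q Q (swapX f hf hf'' hD hα hβ) := by
  have h1 : ∀ (c : ℂˣ) y, f' (D.act c y) = D.act c⁻¹ (f' y) := fun c y => by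
    conv_lhs => rw [← hff' y, ← inv_inv c, ← hf'', hff]
  refine (isHol_swapX f hf hf'' hD hα hβ hP hQ h).isBihol
    (isHol_swapX f' h'.smul h1 hD hα hβ hP hQ h') fun p => ?_
  obtain ⟨y, x, x', rfl⟩ := exists_mk2 p
  rw [swapX_mk2, swapX_mk2, hff]

end

/-! ### Metrics -/

section metric

variable (hD : Induced D₁) (hP : P1At P) (hQ : P1At Q) {H : P1Y D₁ α' β' → ℝ}

include hP hQ in
/-- `H ∘ (g, g')` is Kähler. -/
theorem isKahler_gl (g g' : GL (Fin 2) ℂ) (hH : Q.IsKahler H) :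
    Q.IsKahler (fun p => H (gl1 g hD (gl2 g' p))) :=
  ((isBihol_gl1 hD g hP hQ).comp (isBihol_gl2 g' hQ)).isKahler hH

include hP hQ in
/-- `H ∘ (g, g')` has constant scalar curvature. -/
theorem isCsc_gl (g g' : GL (Fin 2) ℂ) (hH : Q.IsKahler H) {s : ℂ} (hs : Q.IsCsc H s) :
    Q.IsCsc (fun p => H (gl1 g hD (gl2 g' p))) s :=
  ((isBihol_gl1 hD g hP hQ).comp (isBihol_gl2 g' hQ)).isCsc hH hs

end metric

end

end Pool.Agent.YTDA


end

/- source: Pool.Agent.YTDA.SigMap -/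

section

/-!
# The projection of the surface `Σ` to the curve and the automorphisms of `Σ`
-/

set_option autoImplicit false

namespace Pool.Agent.YTDA

open Complex Set Topology Filter Metric
open Pool.Agent.YTD

noncomputable section

/-- the coordinate of the curve in the chart of type `i` -/
def sc (i : Fin 3) (z : E 2) : ℂ := if i = 2 then z 0 * z 1 else z 0

theorem sc_zero (z : E 2) : sc 0 z = z 0 := if_neg (by decide)

theorem sc_one (z : E 2) : sc 1 z = z 0 := if_neg (by decide)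

theorem sc_two (z : E 2) : sc 2 z = z 0 * z 1 := if_pos rfl

theorem continuous_sc (i : Fin 3) : Continuous (sc i) := by
  unfold sc
  split_ifs
  · exact (continuous_apply 0).mul (continuous_apply 1)
  · exact continuous_apply 0

theorem eq_vec2 (z : E 2) : z = ![z 0, z 1] := by
  ext j
  fin_cases j <;> rfl

namespace SigModel

variable {K : Type} [Field K] [Algebra ℂ K] {T : Datum K} {q : ℕ} {D₀ : T.X.Pt →₀ ℤ}
  {An : AnCurve T.X.toCurveOrd} (M : SigModel T q D₀ An)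

theorem norm_sc_lt {P : T.X.Pt} {i : Fin 3} {z : E 2} (hz : z ∈ M.A.U (M.e (P, i))) :
    ‖sc i z‖ < M.r P := by
  have hi : i = 0 ∨ i = 1 ∨ i = 2 := by
    fin_cases i <;> simp
  rcases hi with rfl | rfl | rfl
  · rw [M.U_bot] at hz
    rw [sc_zero]
    exact hz
  · rw [M.U_top] at hz
    rw [sc_one]
    exact hz
  · by_cases h : P ∈ T.S ∨ P ∈ T.S'
    · rw [M.U_mid P h] at hz
      rw [sc_two]
      exact hz
    · push Not at h
      rw [M.U_mid' P h.1 h.2] at hz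
      exact hz.elim

theorem sc_mem_ball {P : T.X.Pt} {i : Fin 3} {z : E 2} (hz : z ∈ M.A.U (M.e (P, i))) :
    sc i z ∈ ball (0 : ℂ) (M.r P) := mem_ball_zero_iff.2 (M.norm_sc_lt hz)

theorem sc_mem_ball' {P : T.X.Pt} {i : Fin 3} {z : E 2} (hz : z ∈ M.A.U (M.e (P, i))) :
    sc i z ∈ ball (0 : ℂ) (An.r P) :=
  mem_ball_zero_iff.2 ((M.norm_sc_lt hz).trans_le (M.r_le P))

/-- The generic points of the charts are multiples of the frames `o`. -/
theorem exists_o {P : T.X.Pt} {i : Fin 3} {z : E 2} (hz : z ∈ M.A.U (M.e (P, i)))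
    (h0 : z 0 ≠ 0) (h1 : z 1 ≠ 0) :
    sc i z ≠ 0 ∧ ∃ c w : ℂˣ, M.A.γ (M.e (P, i)) z = c • M.o P (sc i z) w := by
  have hlt := M.norm_sc_lt hz
  have hb := M.sc_mem_ball hz
  have hi : i = 0 ∨ i = 1 ∨ i = 2 := by
    fin_cases i <;> simp
  rcases hi with rfl | rfl | rfl
  · rw [sc_zero] at *
    refine ⟨h0, ?_⟩
    by_cases h : P ∈ T.S'
    · have := M.γ_bot' P h (Units.mk0 _ h0) hlt (Units.mk0 _ h1)
      rw [Units.val_mk0, Units.val_mk0, ← eq_vec2] at this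
      exact ⟨_, _, this⟩
    · have := M.γ_bot P h (z 0) hb (Or.inl h0) (Units.mk0 _ h1)
      rw [Units.val_mk0, ← eq_vec2] at this
      exact ⟨_, _, this⟩
  · rw [sc_one] at *
    refine ⟨h0, ?_⟩
    by_cases h : P ∈ T.S
    · have := M.γ_top' P h (Units.mk0 _ h0) hlt (Units.mk0 _ h1)
      rw [Units.val_mk0, Units.val_mk0, ← eq_vec2] at this
      exact ⟨_, _, this⟩
    · have := M.γ_top P h (z 0) hb (Or.inl h0) (Units.mk0 _ h1)
      rw [Units.val_mk0, ← eq_vec2] at this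
      exact ⟨_, _, this⟩
  · rw [sc_two] at *
    refine ⟨mul_ne_zero h0 h1, ?_⟩
    by_cases h : P ∈ T.S
    · have := M.γ_mid P h (Units.mk0 _ h0) (Units.mk0 _ h1) hlt
      rw [Units.val_mk0, Units.val_mk0, ← eq_vec2] at this
      exact ⟨_, _, this⟩
    · by_cases h' : P ∈ T.S'
      · have := M.γ_mid' P h' (Units.mk0 _ h0) (Units.mk0 _ h1) hlt
        rw [Units.val_mk0, Units.val_mk0, ← eq_vec2] at this
        exact ⟨_, _, this⟩
      · rw [M.U_mid' P h h'] at hz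
        exact hz.elim

end SigModel

/-- nearby points are in small discs -/
theorem AnCurve.near {K : Type} [Field K] [Algebra ℂ K] {X : CurveOrd K} (An : AnCurve X)
    {P : X.Pt} {s : ℂ} (hs : s ∈ ball (0 : ℂ) (An.r P)) {ε : ℝ} (hε : 0 < ε) :
    ∀ᶠ σ in 𝓝 s, ∃ s₁ : ℂ, ‖s₁‖ < ε ∧ An.c (An.c P s) s₁ = An.c P σ := by
  obtain ⟨f, hf, hf0, -, hfc, -⟩ := An.tr P (An.c P s) s hs 0 (mem_ball_self (An.r_pos _))
    (An.c_zero _).symm
  have h1 : ∀ᶠ σ in 𝓝 s, ‖f σ‖ < ε := by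
    have : Tendsto (fun σ => ‖f σ‖) (𝓝 s) (𝓝 ‖f s‖) := hf.continuousAt.norm
    rw [hf0, norm_zero] at this
    exact this.eventually (gt_mem_nhds hε)
  filter_upwards [h1, hfc] with σ h2 h3
  exact ⟨f σ, h2, h3⟩

namespace SigModel

variable {K : Type} [Field K] [Algebra ℂ K] {T : Datum K} {q : ℕ} {D₀ : T.X.Pt →₀ ℤ}
  {An : AnCurve T.X.toCurveOrd} (M : SigModel T q D₀ An)

/-- The point of the curve is well-defined. -/
theorem bp_eq {P Q : T.X.Pt} {i j : Fin 3} {z z' : E 2} (hz : z ∈ M.A.U (M.e (P, i)))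
    (hz' : z' ∈ M.A.U (M.e (Q, j))) {c : ℂˣ}
    (h : M.A.γ (M.e (Q, j)) z' = c • M.A.γ (M.e (P, i)) z) :
    An.c P (sc i z) = An.c Q (sc j z') := by
  by_contra hne
  obtain ⟨ε, hε, ht⟩ := An.t2 _ _ hne
  set a := M.e (P, i) with ha
  set b := M.e (Q, j) with hb
  have hO : z ∈ M.A.O a b := PolAtlas.mem_O_mk hz hz' h
  have hτ : M.A.τ a b z = z' := PolAtlas.τ_eq_of hz hz' h
  have hopen := PolAtlas.isOpen_O' (A := M.A) a b
  have hopen' := PolAtlas.isOpen_O' (A := M.A) b a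
  have E1 : ∀ᶠ w in 𝓝 z, ∃ s₁ : ℂ, ‖s₁‖ < ε ∧ An.c (An.c P (sc i z)) s₁ = An.c P (sc i w) :=
    (continuous_sc i).continuousAt.eventually (An.near (M.sc_mem_ball' hz) hε)
  have E2 : ∀ᶠ w in 𝓝 z', ∃ s₁ : ℂ, ‖s₁‖ < ε ∧ An.c (An.c Q (sc j z')) s₁ = An.c Q (sc j w) :=
    (continuous_sc j).continuousAt.eventually (An.near (M.sc_mem_ball' hz') hε)
  have hcont : ContinuousAt (M.A.τ a b) z :=
    ((M.A.hol_τ a b).differentiableAt (hopen.mem_nhds hO)).continuousAt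
  have E3 : ∀ᶠ w in 𝓝 z, ∃ s₁ : ℂ, ‖s₁‖ < ε ∧
      An.c (An.c Q (sc j z')) s₁ = An.c Q (sc j (M.A.τ a b w)) := by
    have : Tendsto (M.A.τ a b) (𝓝 z) (𝓝 z') := by
      have h1 : Tendsto (M.A.τ a b) (𝓝 z) (𝓝 (M.A.τ a b z)) := hcont
      rwa [hτ] at h1
    exact this.eventually E2
  obtain ⟨V, hV, hVo, hzV⟩ := _root_.eventually_nhds_iff.1 ((E1.and E3).and (hopen.mem_nhds hO))
  obtain ⟨w₁, hw₁V, hw₁⟩ := (PolAtlas.dense_nz 2).inter_open_nonempty V hVo ⟨z, hzV⟩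
  have hO₁ : w₁ ∈ M.A.O a b := (hV w₁ hw₁V).2
  obtain ⟨e1, e2⟩ := M.A.trans a b w₁ hO₁.1 hO₁.2
  have e3 : M.A.γ a w₁ = (M.A.h a b w₁)⁻¹ • M.A.γ b (M.A.τ a b w₁) := by
    rw [e2, inv_smul_smul]
  have hO₂ : M.A.τ a b w₁ ∈ M.A.O b a := PolAtlas.mem_O_mk e1 hO₁.1 e3
  have hτ₂ : M.A.τ b a (M.A.τ a b w₁) = w₁ := PolAtlas.τ_eq_of e1 hO₁.1 e3
  have hcont₂ : Tendsto (M.A.τ b a) (𝓝 (M.A.τ a b w₁)) (𝓝 w₁) := by
    have h1 : ContinuousAt (M.A.τ b a) (M.A.τ a b w₁) :=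
      ((M.A.hol_τ b a).differentiableAt (hopen'.mem_nhds hO₂)).continuousAt
    have h2 : Tendsto (M.A.τ b a) (𝓝 (M.A.τ a b w₁)) (𝓝 (M.A.τ b a (M.A.τ a b w₁))) := h1
    rwa [hτ₂] at h2
  have E4 : ∀ᶠ w in 𝓝 w₁, w ∈ V ∧ w 0 ≠ 0 ∧ w 1 ≠ 0 := by
    filter_upwards [hVo.mem_nhds hw₁V,
      (continuous_apply (0 : Fin 2)).continuousAt.eventually_ne (hw₁ 0),
      (continuous_apply (1 : Fin 2)).continuousAt.eventually_ne (hw₁ 1)] with w h1 h2 h3
    exact ⟨h1, h2, h3⟩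
  obtain ⟨V', hV', hVo', hzV'⟩ := _root_.eventually_nhds_iff.1
    ((hcont₂.eventually E4).and (hopen'.mem_nhds hO₂))
  obtain ⟨w', hw'V, hw'⟩ := (PolAtlas.dense_nz 2).inter_open_nonempty V' hVo' ⟨_, hzV'⟩
  obtain ⟨⟨f1, f2, f3⟩, f4⟩ := hV' w' hw'V
  obtain ⟨g1, g2⟩ := M.A.trans b a w' f4.1 f4.2
  set w := M.A.τ b a w' with hw
  have g3 : M.A.γ b w' = (M.A.h b a w')⁻¹ • M.A.γ a w := by
    rw [g2, inv_smul_smul]
  have hτ₃ : M.A.τ a b w = w' := PolAtlas.τ_eq_of g1 f4.1 g3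
  obtain ⟨⟨⟨s₁, hs₁, k1⟩, s₂, hs₂, k2⟩, -⟩ := hV w f1
  rw [hτ₃] at k2
  obtain ⟨l1, c₁, v₁, l2⟩ := M.exists_o g1 f2 f3
  obtain ⟨l3, c₂, v₂, l4⟩ := M.exists_o f4.1 (hw' 0) (hw' 1)
  have l5 : M.o P (sc i w) v₁ = (c₁⁻¹ * (M.A.h b a w') * c₂) • M.o Q (sc j w') v₂ := by
    rw [mul_smul, mul_smul, ← l4, eq_inv_smul_iff, ← l2, g3, smul_inv_smul]
  obtain ⟨l6, -⟩ := M.o_inj P Q (sc i w) (M.sc_mem_ball g1) (sc j w') (M.sc_mem_ball f4.1)
    (Or.inl l1) (Or.inl l3) v₁ v₂ _ l5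
  exact ht s₁ s₂ hs₁ hs₂ (by rw [k1, k2, l6])

theorem exists_rep (y : M.Y) : ∃ P i, ∃ z ∈ M.A.U (M.e (P, i)), ∃ c : ℂˣ,
    y = c • M.A.γ (M.e (P, i)) z := by
  obtain ⟨a, z, hz, c, h⟩ := M.A.cover y
  obtain ⟨⟨P, i⟩, rfl⟩ := M.e.surjective a
  exact ⟨P, i, z, hz, c, h⟩

/-- the projection to the curve -/
def pr (y : M.Y) : T.X.Pt :=
  An.c (M.exists_rep y).choose
    (sc (M.exists_rep y).choose_spec.choose (M.exists_rep y).choose_spec.choose_spec.choose)

theorem pr_smul_γ {P : T.X.Pt} {i : Fin 3} {z : E 2} (hz : z ∈ M.A.U (M.e (P, i))) (c : ℂˣ) :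
    M.pr (c • M.A.γ (M.e (P, i)) z) = An.c P (sc i z) := by
  set y := c • M.A.γ (M.e (P, i)) z with hy
  obtain ⟨h1, c', h2⟩ := (M.exists_rep y).choose_spec.choose_spec.choose_spec
  unfold pr
  have h3 : M.A.γ (M.e (P, i)) z = (c⁻¹ * c') • M.A.γ (M.e ((M.exists_rep y).choose,
      (M.exists_rep y).choose_spec.choose)) (M.exists_rep y).choose_spec.choose_spec.choose := by
    rw [mul_smul, ← h2, hy, inv_smul_smul]
  exact M.bp_eq h1 hz h3

theorem pr_γ {P : T.X.Pt} {i : Fin 3} {z : E 2} (hz : z ∈ M.A.U (M.e (P, i))) :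
    M.pr (M.A.γ (M.e (P, i)) z) = An.c P (sc i z) := by
  have := M.pr_smul_γ hz 1
  rwa [one_smul] at this

theorem pr_smul (c : ℂˣ) (y : M.Y) : M.pr (c • y) = M.pr y := by
  obtain ⟨P, i, z, hz, d, rfl⟩ := M.exists_rep y
  rw [smul_smul, M.pr_smul_γ hz, M.pr_smul_γ hz]

theorem sc_dact {P : T.X.Pt} {i : Fin 3} {z : E 2} (hz : z ∈ M.A.U (M.e (P, i))) (c : ℂˣ) :
    sc i (dact (M.D.k (M.e (P, i))) c z) = sc i z := by
  have hi : i = 0 ∨ i = 1 ∨ i = 2 := by
    fin_cases i <;> simp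
  rcases hi with rfl | rfl | rfl
  · rw [sc_zero, sc_zero, (M.k_bot P).1]
    simp [dact]
  · rw [sc_one, sc_one, (M.k_top P).1]
    simp [dact]
  · rw [sc_two, sc_two]
    have hc := c.ne_zero
    by_cases h : P ∈ T.S
    · rw [(M.k_mid P h).1]
      simp only [dact, Matrix.cons_val_zero, Matrix.cons_val_one, zpow_neg, zpow_one,
        Units.val_inv_eq_inv_val]
      field_simp
    · by_cases h' : P ∈ T.S'
      · rw [(M.k_mid' P h').1]
        simp only [dact, Matrix.cons_val_zero, Matrix.cons_val_one, zpow_neg, zpow_one,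
          Units.val_inv_eq_inv_val]
        field_simp
      · rw [M.U_mid' P h h'] at hz
        exact hz.elim

theorem pr_act (c : ℂˣ) (y : M.Y) : M.pr (M.D.act c y) = M.pr y := by
  obtain ⟨P, i, z, hz, d, rfl⟩ := M.exists_rep y
  rw [M.D.act_smul, M.pr_smul, M.pr_smul, M.D.act_γ _ _ hz, M.pr_smul, M.pr_γ (M.D.dom _ _ hz c),
    M.pr_γ hz, M.sc_dact hz]

/-- The map `f` is the automorphism of `Σ` given by the permutations `σ` of the points of the
curve and `ρ` of the types of the charts. -/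
structure Aut (σ : T.X.Pt → T.X.Pt) (ρ : Fin 3 → Fin 3) (f : M.Y → M.Y) : Prop where
  smul : ∀ (c : ℂˣ) y, f (c • y) = c • f y
  mem : ∀ P i, ∀ z ∈ M.A.U (M.e (P, i)), z ∈ M.A.U (M.e (σ P, ρ i))
  γ : ∀ P i, ∀ z ∈ M.A.U (M.e (P, i)), f (M.A.γ (M.e (P, i)) z) = M.A.γ (M.e (σ P, ρ i)) z

variable {M}

theorem Aut.comp {σ σ' : T.X.Pt → T.X.Pt} {ρ ρ' : Fin 3 → Fin 3} {f f' : M.Y → M.Y}
    (h : M.Aut σ ρ f) (h' : M.Aut σ' ρ' f') :
    M.Aut (fun P => σ (σ' P)) (fun i => ρ (ρ' i)) (fun y => f (f' y)) where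
  smul c y := by rw [h'.smul, h.smul]
  mem P i z hz := h.mem _ _ _ (h'.mem _ _ _ hz)
  γ P i z hz := by rw [h'.γ _ _ _ hz, h.γ _ _ _ (h'.mem _ _ _ hz)]

theorem Aut.id : M.Aut (fun P => P) (fun i => i) (fun y => y) where
  smul c y := rfl
  mem P i z hz := hz
  γ P i z hz := rfl

theorem Aut.unique {σ : T.X.Pt → T.X.Pt} {ρ : Fin 3 → Fin 3} {f f' : M.Y → M.Y}
    (h : M.Aut σ ρ f) (h' : M.Aut σ ρ f') (y : M.Y) : f y = f' y := by
  obtain ⟨P, i, z, hz, d, rfl⟩ := M.exists_rep y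
  rw [h.smul, h'.smul, h.γ _ _ _ hz, h'.γ _ _ _ hz]

theorem Aut.invol {σ : T.X.Pt → T.X.Pt} {ρ : Fin 3 → Fin 3} {f : M.Y → M.Y}
    (h : M.Aut σ ρ f) (hσ : ∀ P, σ (σ P) = P) (hρ : ∀ i, ρ (ρ i) = i) (y : M.Y) :
    f (f y) = y := by
  have h1 := h.comp h
  simp only [hσ, hρ] at h1
  exact h1.unique Aut.id y

theorem Aut.comm {σ σ' : T.X.Pt → T.X.Pt} {ρ ρ' : Fin 3 → Fin 3} {f f' : M.Y → M.Y}
    (h : M.Aut σ ρ f) (h' : M.Aut σ' ρ' f') (hσ : ∀ P, σ (σ' P) = σ' (σ P))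
    (hρ : ∀ i, ρ (ρ' i) = ρ' (ρ i)) (y : M.Y) : f (f' y) = f' (f y) := by
  have h1 := h.comp h'
  simp only [hσ, hρ] at h1
  exact h1.unique (h'.comp h) y

theorem Aut.isHol {σ : T.X.Pt → T.X.Pt} {ρ : Fin 3 → Fin 3} {f : M.Y → M.Y}
    (h : M.Aut σ ρ f) : IsHol M.A M.A f := by
  refine isHol_of_holAt h.smul fun a z hz => ?_
  obtain ⟨⟨P, i⟩, rfl⟩ := M.e.surjective a
  refine (holAt_frame M.A (t := fun ζ => ζ) analyticAt_id (h.mem P i z hz)).congr ?_
  filter_upwards [(M.A.isOpen_U _).mem_nhds hz] with ζ hζ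
  exact h.γ P i ζ hζ

variable (M)

/-- the types of the charts exchanged by the swap -/
def rhoI : Fin 3 → Fin 3 := ![1, 0, 2]

theorem rhoI_rhoI (i : Fin 3) : rhoI (rhoI i) = i := by
  revert i
  decide

theorem exists_symm {θ : K ≃ₐ[ℂ] K} {σ : T.X.Pt → T.X.Pt} (hE : An.Equiv θ σ)
    (hσ : ∀ P, σ (σ P) = P) (hr : ∀ P, M.r (σ P) = M.r P) (hD : ∀ P, D₀ (σ P) = D₀ P)
    (hS : ∀ P, P ∈ T.S ↔ σ P ∈ T.S) (hS' : ∀ P, P ∈ T.S' ↔ σ P ∈ T.S') :
    ∃ f : M.Y → M.Y, M.Aut σ (fun i => i) f ∧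
      ∀ (c : ℂˣ) y, f (M.D.act c y) = M.D.act c (f y) := by
  obtain ⟨f, h1, h2, h3⟩ := M.sym θ σ hE hσ hr hD hS hS'
  refine ⟨f, ⟨h1, ?_, h3⟩, h2⟩
  intro P i z hz
  have hi : i = 0 ∨ i = 1 ∨ i = 2 := by
    fin_cases i <;> simp
  rcases hi with rfl | rfl | rfl
  · rw [M.U_bot] at hz ⊢
    rwa [hr]
  · rw [M.U_top] at hz ⊢
    rwa [hr]
  · by_cases h : P ∈ T.S ∨ P ∈ T.S'
    · have h' : σ P ∈ T.S ∨ σ P ∈ T.S' := by rwa [← hS, ← hS']
      rw [M.U_mid _ h] at hz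
      rw [M.U_mid _ h', hr]
      exact hz
    · push Not at h
      rw [M.U_mid' P h.1 h.2] at hz
      exact hz.elim

theorem exists_swap {θ : K ≃ₐ[ℂ] K} {σ : T.X.Pt → T.X.Pt} (hE : An.Equiv θ σ)
    (hσ : ∀ P, σ (σ P) = P) (hr : ∀ P, M.r (σ P) = M.r P) (hD : ∀ P, D₀ (σ P) = D₀ P)
    (hS : ∀ P, P ∈ T.S ↔ σ P ∈ T.S') :
    ∃ f : M.Y → M.Y, M.Aut σ rhoI f ∧
      ∀ (c : ℂˣ) y, f (M.D.act c y) = M.D.act c⁻¹ (f y) := by
  obtain ⟨f, h1, h2, h3, h4, h5⟩ := M.swap θ σ hE hσ hr hD hS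
  refine ⟨f, ⟨h1, ?_, ?_⟩, h2⟩
  · intro P i z hz
    have hi : i = 0 ∨ i = 1 ∨ i = 2 := by
      fin_cases i <;> simp
    rcases hi with rfl | rfl | rfl
    · show z ∈ M.A.U (M.e (σ P, 1))
      rw [M.U_bot] at hz
      rw [M.U_top, hr]
      exact hz
    · show z ∈ M.A.U (M.e (σ P, 0))
      rw [M.U_top] at hz
      rw [M.U_bot, hr]
      exact hz
    · show z ∈ M.A.U (M.e (σ P, 2))
      by_cases h : P ∈ T.S ∨ P ∈ T.S'
      · have h' : σ P ∈ T.S ∨ σ P ∈ T.S' := by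
          rcases h with h | h
          · exact Or.inr ((hS P).1 h)
          · left
            rw [hS, hσ]
            exact h
        rw [M.U_mid _ h] at hz
        rw [M.U_mid _ h', hr]
        exact hz
      · push Not at h
        rw [M.U_mid' P h.1 h.2] at hz
        exact hz.elim
  · intro P i z hz
    have hi : i = 0 ∨ i = 1 ∨ i = 2 := by
      fin_cases i <;> simp
    rcases hi with rfl | rfl | rfl
    · exact h3 P z hz
    · exact h4 P z hz
    · exact h5 P z hz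

end SigModel

/-- compatibility of the projection with the automorphisms -/
theorem SigModel.Aut.pr {K : Type} [Field K] [Algebra ℂ K] {T : Datum K} {q : ℕ}
    {D₀ : T.X.Pt →₀ ℤ} {An : AnCurve T.X.toCurveOrd} {M : SigModel T q D₀ An}
    {θ : K ≃ₐ[ℂ] K} {σ : T.X.Pt → T.X.Pt} {ρ : Fin 3 → Fin 3} (hρ : ∀ i, ρ i = 2 ↔ i = 2)
    (hE : An.Equiv θ σ) {f : M.Y → M.Y} (h : M.Aut σ ρ f) (y : M.Y) :
    M.pr (f y) = σ (M.pr y) := by
  obtain ⟨P, i, z, hz, d, rfl⟩ := M.exists_rep y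
  have h1 : sc (ρ i) z = sc i z := by
    unfold sc
    rw [if_congr (hρ i) rfl rfl]
  rw [h.smul, M.pr_smul, M.pr_smul, h.γ _ _ _ hz, M.pr_γ (h.mem _ _ _ hz), M.pr_γ hz, h1]
  exact hE.c P _ (M.sc_mem_ball' hz)

end

end Pool.Agent.YTDA


end

/- source: Pool.Agent.YTDA.Gaga -/

section

/-!
# Meromorphic functions on an analytic curve are rational

`MerFam`: meromorphic functions on the analytic curve `An`, as families of local expressions.
`MerFam.exists_fn`: they come from the function field, if the curve satisfies Riemann-Roch and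
everywhere holomorphic functions are constant.
-/

namespace Pool.Agent.YTDA

open Complex Set Topology Metric Filter Module
open Pool.Agent.YTD

noncomputable section

/-- If any two elements of `M` have a non-trivial combination in `N`, then `dim M ≤ dim N + 1`. -/
theorem finrank_le_add_one {V : Type*} [AddCommGroup V] [Module ℂ V] [FiniteDimensional ℂ V]
    {M N : Submodule ℂ V}
    (h : ∀ x ∈ M, ∀ y ∈ M, ∃ a b : ℂ, (a ≠ 0 ∨ b ≠ 0) ∧ a • x + b • y ∈ N) :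
    finrank ℂ M ≤ finrank ℂ N + 1 := by
  by_cases hMN : M ≤ N
  · exact (Submodule.finrank_mono hMN).trans (Nat.le_succ _)
  · obtain ⟨x, hxM, hxN⟩ := SetLike.not_le_iff_exists.1 hMN
    have h1 : M ≤ N ⊔ Submodule.span ℂ {x} := by
      intro y hy
      obtain ⟨a, b, hab, hN⟩ := h x hxM y hy
      have hb : b ≠ 0 := by
        rintro rfl
        have ha : a ≠ 0 := by simpa using hab
        apply hxN
        rw [zero_smul, add_zero] at hN
        have := N.smul_mem a⁻¹ hN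
        rwa [smul_smul, inv_mul_cancel₀ ha, one_smul] at this
      have e : y = b⁻¹ • (a • x + b • y) + (-(b⁻¹ * a)) • x := by
        rw [smul_add, smul_smul, smul_smul, inv_mul_cancel₀ hb, one_smul]
        module
      rw [e]
      exact Submodule.add_mem_sup (N.smul_mem _ hN)
        (Submodule.smul_mem _ _ (Submodule.mem_span_singleton_self x))
    calc finrank ℂ M ≤ finrank ℂ (N ⊔ Submodule.span ℂ {x} : Submodule ℂ V) :=
          Submodule.finrank_mono h1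
      _ ≤ finrank ℂ N + finrank ℂ (Submodule.span ℂ {x}) := Submodule.finrank_add_le_finrank_add_finrank _ _
      _ ≤ finrank ℂ N + 1 := by
          have : finrank ℂ (Submodule.span ℂ ({x} : Set V)) ≤ 1 := by
            have := finrank_span_le_card (R := ℂ) ({x} : Set V)
            simpa using this
          omega

namespace AnCurve

variable {K : Type} [Field K] [Algebra ℂ K] {X : CurveOrd K} (An : AnCurve X)

/-- A meromorphic function on the analytic curve, as a family of local expressions. -/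
structure MerFam (g : X.Pt → ℂ → ℂ) : Prop where
  mero : ∀ P, MeromorphicOn (g P) (ball 0 (An.r P))
  tr : ∀ P Q, ∀ s ∈ ball 0 (An.r P), ∀ s' ∈ ball 0 (An.r Q), An.c P s = An.c Q s' →
    ∀ f : ℂ → ℂ, AnalyticAt ℂ f s → f s = s' → deriv f s ≠ 0 →
    (∀ᶠ σ in 𝓝 s, An.c Q (f σ) = An.c P σ) → (fun σ => g Q (f σ)) =ᶠ[𝓝[≠] s] g P

variable {An}

theorem mem_ball_zero (P : X.Pt) : (0 : ℂ) ∈ ball (0 : ℂ) (An.r P) := mem_ball_self (An.r_pos P)

theorem tendsto_trans {f : ℂ → ℂ} {s : ℂ} (hf : AnalyticAt ℂ f s) (hf' : deriv f s ≠ 0) :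
    Tendsto f (𝓝[≠] s) (𝓝[≠] (f s)) :=
  (hf.differentiableAt.hasDerivAt).tendsto_nhdsNE hf'

/-- transition functions are unique as germs -/
theorem trans_unique {P Q : X.Pt} {s : ℂ} {f f' : ℂ → ℂ}
    (hfs : f s ∈ ball 0 (An.r Q)) (hf's : f' s ∈ ball 0 (An.r Q)) (hf : ContinuousAt f s)
    (hf' : ContinuousAt f' s) (h : ∀ᶠ σ in 𝓝 s, An.c Q (f σ) = An.c P σ)
    (h' : ∀ᶠ σ in 𝓝 s, An.c Q (f' σ) = An.c P σ) : f =ᶠ[𝓝 s] f' := by
  have h1 := hf.preimage_mem_nhds (isOpen_ball.mem_nhds hfs)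
  have h2 := hf'.preimage_mem_nhds (isOpen_ball.mem_nhds hf's)
  filter_upwards [h1, h2, h, h'] with σ h1 h2 h h'
  exact An.inj Q h1 h2 (h.trans h'.symm)

theorem merFam_fn (z : K) : An.MerFam fun P => An.fn P z where
  mero P := An.fn_mero P z
  tr P Q s hs s' hs' hc f hf hfs hf' hfc := by
    obtain ⟨f₁, hf₁, hf₁s, -, hf₁c, hfn⟩ := An.tr P Q s hs s' hs' hc
    have h1 : f =ᶠ[𝓝 s] f₁ := trans_unique (by rw [hfs]; exact hs') (by rw [hf₁s]; exact hs')
      hf.continuousAt hf₁.continuousAt hfc hf₁c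
    filter_upwards [hfn z, h1.filter_mono nhdsWithin_le_nhds] with σ h2 h3
    rw [← h2, h3]

namespace MerFam

variable {g h : X.Pt → ℂ → ℂ}

/-- transition to the disc centred at the point itself -/
theorem exists_tr (hg : An.MerFam g) (P : X.Pt) {s : ℂ} (hs : s ∈ ball 0 (An.r P)) :
    ∃ f : ℂ → ℂ, AnalyticAt ℂ f s ∧ f s = 0 ∧ deriv f s ≠ 0 ∧
      (∀ᶠ σ in 𝓝 s, An.c (An.c P s) (f σ) = An.c P σ) ∧
      (fun σ => g (An.c P s) (f σ)) =ᶠ[𝓝[≠] s] g P := by
  obtain ⟨f, hf, hfs, hf', hfc, -⟩ := An.tr P (An.c P s) s hs 0 (mem_ball_zero _) (An.c_zero _).symm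
  exact ⟨f, hf, hfs, hf', hfc, hg.tr P (An.c P s) s hs 0 (mem_ball_zero _) (An.c_zero _).symm f hf
    hfs hf' hfc⟩

theorem ord_eq (hg : An.MerFam g) (P : X.Pt) {s : ℂ} (hs : s ∈ ball 0 (An.r P)) :
    meromorphicOrderAt (g P) s = meromorphicOrderAt (g (An.c P s)) 0 := by
  obtain ⟨f, hf, hfs, hf', -, he⟩ := hg.exists_tr P hs
  rw [← meromorphicOrderAt_congr he, ← hfs, ← meromorphicOrderAt_comp_of_deriv_ne_zero hf hf']
  rfl

/-- A family which vanishes at all centres vanishes everywhere. -/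
theorem eventually_zero (hg : An.MerFam g) (h0 : ∀ P, g P =ᶠ[𝓝[≠] 0] 0) (P : X.Pt) {s : ℂ}
    (hs : s ∈ ball 0 (An.r P)) : g P =ᶠ[𝓝[≠] s] 0 := by
  have h1 : meromorphicOrderAt (g P) s = ⊤ := by
    rw [hg.ord_eq P hs, meromorphicOrderAt_eq_top_iff]
    exact h0 _
  exact meromorphicOrderAt_eq_top_iff.1 h1

theorem congr (hg : An.MerFam g) (he : ∀ P, ∀ s ∈ ball 0 (An.r P), h P =ᶠ[𝓝[≠] s] g P) :
    An.MerFam h where
  mero P s hs := (hg.mero P s hs).congr (he P s hs).symm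
  tr P Q s hs s' hs' hc f hf hfs hf' hfc := by
    have h1 := hg.tr P Q s hs s' hs' hc f hf hfs hf' hfc
    have h2 := he P s hs
    have h3 := he Q s' hs'
    have h4 : Tendsto f (𝓝[≠] s) (𝓝[≠] s') := by
      rw [← hfs]
      exact tendsto_trans hf hf'
    exact ((h3.comp_tendsto h4).trans h1).trans h2.symm

theorem add (hg : An.MerFam g) (hh : An.MerFam h) : An.MerFam fun P => g P + h P where
  mero P := (hg.mero P).add (hh.mero P)
  tr P Q s hs s' hs' hc f hf hfs hf' hfc := by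
    filter_upwards [hg.tr P Q s hs s' hs' hc f hf hfs hf' hfc,
      hh.tr P Q s hs s' hs' hc f hf hfs hf' hfc] with σ h1 h2
    simp only [Pi.add_apply]
    rw [h1, h2]

theorem mul (hg : An.MerFam g) (hh : An.MerFam h) : An.MerFam fun P => g P * h P where
  mero P := (hg.mero P).mul (hh.mero P)
  tr P Q s hs s' hs' hc f hf hfs hf' hfc := by
    filter_upwards [hg.tr P Q s hs s' hs' hc f hf hfs hf' hfc,
      hh.tr P Q s hs s' hs' hc f hf hfs hf' hfc] with σ h1 h2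
    simp only [Pi.mul_apply]
    rw [h1, h2]

/-- The value at the points of a family without poles. -/
theorem tendsto_val (hg : An.MerFam g) (h0 : ∀ P, 0 ≤ meromorphicOrderAt (g P) 0) (P : X.Pt)
    {s : ℂ} (hs : s ∈ ball 0 (An.r P)) :
    Tendsto (g P) (𝓝[≠] s) (𝓝 (limUnder (𝓝[≠] (0 : ℂ)) (g (An.c P s)))) := by
  obtain ⟨f, hf, hfs, hf', -, he⟩ := hg.exists_tr P hs
  have h1 : Tendsto (g (An.c P s)) (𝓝[≠] 0) (𝓝 (limUnder (𝓝[≠] (0 : ℂ)) (g (An.c P s)))) :=
    tendsto_nhds_limUnder (tendsto_nhds_of_meromorphicOrderAt_nonneg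
      (hg.mero _ 0 (mem_ball_zero _)) (h0 _))
  have h2 : Tendsto f (𝓝[≠] s) (𝓝[≠] 0) := by
    have := tendsto_trans hf hf'
    rwa [hfs] at this
  exact (h1.comp h2).congr' he

/-- the function on the points defined by a family without poles is holomorphic -/
theorem differentiableOn_val (hg : An.MerFam g) (h0 : ∀ P, 0 ≤ meromorphicOrderAt (g P) 0)
    (P : X.Pt) : DifferentiableOn ℂ (fun s => limUnder (𝓝[≠] (0 : ℂ)) (g (An.c P s)))
      (ball 0 (An.r P)) := by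
  intro s hs
  apply DifferentiableAt.differentiableWithinAt
  apply AnalyticAt.differentiableAt
  -- near `s` the function agrees with `g P` off `s`
  have hev : ∀ᶠ σ in 𝓝[≠] s, AnalyticAt ℂ (g P) σ ∧ σ ∈ ball 0 (An.r P) :=
    ((hg.mero P s hs).eventually_analyticAt).and
      (nhdsWithin_le_nhds (isOpen_ball.mem_nhds hs))
  have hval : ∀ σ, AnalyticAt ℂ (g P) σ → σ ∈ ball 0 (An.r P) →
      limUnder (𝓝[≠] (0 : ℂ)) (g (An.c P σ)) = g P σ := by
    intro σ h1 h2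
    exact tendsto_nhds_unique (hg.tendsto_val h0 P h2)
      (h1.continuousAt.tendsto.mono_left nhdsWithin_le_nhds)
  have heq : (fun s => limUnder (𝓝[≠] (0 : ℂ)) (g (An.c P s))) =ᶠ[𝓝[≠] s] g P := by
    filter_upwards [hev] with σ hσ
    exact hval σ hσ.1 hσ.2
  apply Complex.analyticAt_of_differentiable_on_punctured_nhds_of_continuousAt
  · have h2 := eventually_eventually_nhdsWithin.2 heq
    filter_upwards [hev, h2, self_mem_nhdsWithin] with σ h1 h3 h4
    have h5 : 𝓝[≠] s ≤ 𝓝[≠] s := le_rfl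
    have h6 : (fun s => limUnder (𝓝[≠] (0 : ℂ)) (g (An.c P s))) =ᶠ[𝓝 σ] g P := by
      have h7 : 𝓝[{s}ᶜ] σ = 𝓝 σ := isOpen_compl_singleton.nhdsWithin_eq h4
      rw [← h7]
      exact h3
    exact (h1.1.congr h6.symm).differentiableAt
  · rw [continuousAt_iff_punctured_nhds]
    exact (hg.tendsto_val h0 P hs).congr' heq.symm

end MerFam

variable (An) in
/-- Everywhere holomorphic functions are constant. -/
def HolConst : Prop := ∀ G : X.Pt → ℂ,
  (∀ P, DifferentiableOn ℂ (fun s => G (An.c P s)) (ball 0 (An.r P))) → ∃ a, ∀ P, G P = a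

theorem MerFam.const {g : X.Pt → ℂ → ℂ} (hg : An.MerFam g) (hc : An.HolConst)
    (h0 : ∀ P, 0 ≤ meromorphicOrderAt (g P) 0) : ∃ a : ℂ, ∀ P, g P =ᶠ[𝓝[≠] 0] fun _ => a := by
  obtain ⟨a, ha⟩ := hc (fun Q => limUnder (𝓝[≠] (0 : ℂ)) (g Q)) (hg.differentiableOn_val h0)
  refine ⟨a, fun P => ?_⟩
  have hev : ∀ᶠ σ in 𝓝[≠] (0 : ℂ), AnalyticAt ℂ (g P) σ ∧ σ ∈ ball 0 (An.r P) :=
    ((hg.mero P 0 (mem_ball_zero P)).eventually_analyticAt).and
      (nhdsWithin_le_nhds (isOpen_ball.mem_nhds (mem_ball_zero P)))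
  filter_upwards [hev] with σ hσ
  have h1 := tendsto_nhds_unique (hg.tendsto_val h0 P hσ.2)
      (hσ.1.continuousAt.tendsto.mono_left nhdsWithin_le_nhds)
  rw [← h1]
  exact ha _

theorem MerFam.finite_poles {g : X.Pt → ℂ → ℂ} (hg : An.MerFam g) :
    {P | meromorphicOrderAt (g P) 0 < 0}.Finite := by
  have h1 : ∀ P : X.Pt, ∃ ρ > 0, ρ ≤ An.r P ∧ ∀ σ : ℂ, σ ≠ 0 → ‖σ‖ < ρ → AnalyticAt ℂ (g P) σ := by
    intro P
    have h2 := (hg.mero P 0 (mem_ball_zero P)).eventually_analyticAt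
    rw [eventually_nhdsWithin_iff, Metric.eventually_nhds_iff] at h2
    obtain ⟨ε, hε, h⟩ := h2
    refine ⟨min ε (An.r P), lt_min hε (An.r_pos P), min_le_right _ _, fun σ h0 hσ => ?_⟩
    exact h (by rw [dist_zero_right]; exact hσ.trans_le (min_le_left _ _)) h0
  choose ρ hρ hρr hρa using h1
  obtain ⟨F, hF⟩ := An.cpt ρ hρ
  apply F.finite_toSet.subset
  intro Q hQ
  obtain ⟨P, hP, s, hs, rfl⟩ := hF Q
  by_cases h0 : s = 0
  · subst h0
    rw [An.c_zero]
    exact hP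
  · exfalso
    have h1 := (hρa P s h0 hs).meromorphicOrderAt_nonneg
    rw [hg.ord_eq P (by rw [mem_ball_zero_iff]; exact hs.trans_le (hρr P))] at h1
    exact absurd hQ (not_lt.2 h1)

theorem one_le_of_pos {x : WithTop ℤ} (h : 0 < x) : (1 : ℤ) ≤ x := by
  induction x using WithTop.recTopCoe with
  | top => exact le_top
  | coe n =>
    have : 0 < n := by exact_mod_cast h
    exact_mod_cast this

theorem exists_comb {u v : ℂ → ℂ} (hu : MeromorphicAt u 0) (hv : MeromorphicAt v 0) {n : ℤ}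
    (h1 : (n : WithTop ℤ) ≤ meromorphicOrderAt u 0) (h2 : (n : WithTop ℤ) ≤ meromorphicOrderAt v 0) :
    ∃ a b : ℂ, (a ≠ 0 ∨ b ≠ 0) ∧
      ((n + 1 : ℤ) : WithTop ℤ) ≤ meromorphicOrderAt (fun s => a * u s + b * v s) 0 := by
  have hid : MeromorphicAt (fun s : ℂ => s) 0 := MeromorphicAt.id 0
  have hz : ∀ m : ℤ, MeromorphicAt (fun s : ℂ => s ^ m) 0 := fun m => hid.zpow m
  have hzo : ∀ m : ℤ, meromorphicOrderAt (fun s : ℂ => s ^ m) 0 = m := by
    intro m
    have h3 := fun_meromorphicOrderAt_zpow hid (n := m)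
    have h4 : meromorphicOrderAt (fun s : ℂ => s) 0 = 1 := meromorphicOrderAt_id
    rw [h3, h4, mul_one]
  have key : ∀ w : ℂ → ℂ, MeromorphicAt w 0 → (n : WithTop ℤ) ≤ meromorphicOrderAt w 0 →
      ∃ α : ℂ, Tendsto (fun s => s ^ (-n) * w s) (𝓝[≠] 0) (𝓝 α) := by
    intro w hw hwn
    apply tendsto_nhds_of_meromorphicOrderAt_nonneg ((hz _).fun_mul hw)
    rw [fun_meromorphicOrderAt_mul (hz _) hw, hzo]
    calc (0 : WithTop ℤ) = ((-n : ℤ) : WithTop ℤ) + (n : WithTop ℤ) := by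
          rw [← WithTop.coe_add, neg_add_cancel]; rfl
      _ ≤ _ := by gcongr
  obtain ⟨α, hα⟩ := key u hu h1
  obtain ⟨β, hβ⟩ := key v hv h2
  obtain ⟨a, b, hab, h0⟩ : ∃ a b : ℂ, (a ≠ 0 ∨ b ≠ 0) ∧ a * α + b * β = 0 := by
    by_cases h : β ≠ 0 ∨ -α ≠ 0
    · exact ⟨β, -α, h, by ring⟩
    · push Not at h
      refine ⟨1, 0, Or.inl one_ne_zero, ?_⟩
      rw [neg_eq_zero.1 h.2]
      ring
  refine ⟨a, b, hab, ?_⟩
  have h3 : Tendsto (fun s => s ^ (-n) * (a * u s + b * v s)) (𝓝[≠] 0) (𝓝 0) := by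
    have h4 := (hα.const_mul a).add (hβ.const_mul b)
    rw [h0] at h4
    apply h4.congr
    intro s
    ring
  have hm : MeromorphicAt (fun s => a * u s + b * v s) 0 := by fun_prop
  have h5 := (tendsto_zero_iff_meromorphicOrderAt_pos ((hz (-n)).fun_mul hm)).1 h3
  rw [fun_meromorphicOrderAt_mul (hz _) hm, hzo] at h5
  have h6 := one_le_of_pos h5
  generalize meromorphicOrderAt (fun s => a * u s + b * v s) 0 = x at h6 ⊢
  induction x using WithTop.recTopCoe with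
  | top => exact le_top
  | coe m =>
    have : (1 : ℤ) ≤ -n + m := by exact_mod_cast h6
    have : n + 1 ≤ m := by linarith
    exact_mod_cast this

section main

variable {g : X.Pt → ℂ → ℂ}

theorem fn_smul (An : AnCurve X) (P : X.Pt) (c : ℂ) (z : K) {s : ℂ} (hs : s ∈ ball 0 (An.r P)) :
    An.fn P (c • z) =ᶠ[𝓝[≠] s] fun σ => c * An.fn P z σ := by
  rw [Algebra.smul_def]
  filter_upwards [An.fn_mul P (algebraMap ℂ K c) z s hs, An.fn_const P c s hs] with σ h1 h2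
  rw [h1, Pi.mul_apply, h2]

theorem fn_zero (An : AnCurve X) (P : X.Pt) {s : ℂ} (hs : s ∈ ball 0 (An.r P)) :
    An.fn P 0 =ᶠ[𝓝[≠] s] 0 := by
  have := An.fn_const P 0 s hs
  rw [map_zero] at this
  exact this

theorem fn_neg (An : AnCurve X) (P : X.Pt) (z : K) {s : ℂ} (hs : s ∈ ball 0 (An.r P)) :
    An.fn P (-z) =ᶠ[𝓝[≠] s] fun σ => -An.fn P z σ := by
  have h := An.fn_smul P (-1) z hs
  rw [neg_one_smul] at h
  filter_upwards [h] with σ h1
  rw [h1]
  ring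

/-- the family `a + g b` -/
def comb (An : AnCurve X) (g : X.Pt → ℂ → ℂ) (w : K × K) (P : X.Pt) : ℂ → ℂ :=
  An.fn P w.1 + g P * An.fn P w.2

theorem MerFam.comb (hg : An.MerFam g) (w : K × K) : An.MerFam (An.comb g w) :=
  (merFam_fn w.1).add (hg.mul (merFam_fn w.2))

theorem comb_lin (g : X.Pt → ℂ → ℂ) (w w' : K × K) (a b : ℂ) (P : X.Pt) {s : ℂ}
    (hs : s ∈ ball 0 (An.r P)) : An.comb g (a • w + b • w') P =ᶠ[𝓝[≠] s]
      fun σ => a * An.comb g w P σ + b * An.comb g w' P σ := by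
  filter_upwards [An.fn_add P (a • w.1) (b • w'.1) s hs, An.fn_add P (a • w.2) (b • w'.2) s hs,
    An.fn_smul P a w.1 hs, An.fn_smul P b w'.1 hs, An.fn_smul P a w.2 hs, An.fn_smul P b w'.2 hs]
    with σ h1 h2 h3 h4 h5 h6
  simp only [AnCurve.comb, Prod.fst_add, Prod.smul_fst, Prod.snd_add, Prod.smul_snd, Pi.add_apply,
    Pi.mul_apply] at *
  rw [h1, h2, h3, h4, h5, h6]
  ring

/-- The combinations `a + g b`, `a ∈ L(D₁)`, `b ∈ L(D₂)`, with poles bounded by `D`. -/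
def WW (hg : An.MerFam g) (D₁ D₂ D : X.Pt →₀ ℤ) : Submodule ℂ (X.L D₁ × X.L D₂) where
  carrier := {w | ∀ P, ((-D P : ℤ) : WithTop ℤ) ≤
    meromorphicOrderAt (An.comb g ((w.1 : K), (w.2 : K)) P) 0}
  zero_mem' := by
    intro P
    have h1 : An.comb g ((0 : K), (0 : K)) P =ᶠ[𝓝[≠] 0] 0 := by
      filter_upwards [An.fn_zero P (mem_ball_zero P)] with σ h1
      simp only [AnCurve.comb, Pi.add_apply, Pi.mul_apply, h1, Pi.zero_apply, mul_zero, add_zero]
    have h2 := meromorphicOrderAt_eq_top_iff.2 h1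
    show _ ≤ meromorphicOrderAt (An.comb g ((0 : K), (0 : K)) P) 0
    rw [h2]
    exact le_top
  add_mem' := by
    intro w w' h h' P
    have h1 := An.comb_lin g ((w.1 : K), (w.2 : K)) ((w'.1 : K), (w'.2 : K)) 1 1 P
      (mem_ball_zero P)
    simp only [one_smul, one_mul, Prod.mk_add_mk] at h1
    show _ ≤ meromorphicOrderAt (An.comb g (((w.1 : K) + (w'.1 : K)), ((w.2 : K) + (w'.2 : K))) P) 0
    rw [meromorphicOrderAt_congr h1]
    exact (le_min (h P) (h' P)).trans (meromorphicOrderAt_add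
      ((hg.comb _).mero P 0 (mem_ball_zero P)) ((hg.comb _).mero P 0 (mem_ball_zero P)))
  smul_mem' := by
    intro c w h P
    have h1 := An.comb_lin g ((w.1 : K), (w.2 : K)) 0 c 0 P (mem_ball_zero P)
    simp only [smul_zero, add_zero, zero_mul, Prod.smul_mk] at h1
    show _ ≤ meromorphicOrderAt (An.comb g ((c • (w.1 : K)), (c • (w.2 : K))) P) 0
    rw [meromorphicOrderAt_congr h1, fun_meromorphicOrderAt_mul (MeromorphicAt.const c 0)
      ((hg.comb _).mero P 0 (mem_ball_zero P))]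
    refine (h P).trans ?_
    have h2 : (0 : WithTop ℤ) ≤ meromorphicOrderAt (fun _ : ℂ => c) 0 :=
      analyticAt_const.meromorphicOrderAt_nonneg
    calc _ = 0 + meromorphicOrderAt (An.comb g ((w.1 : K), (w.2 : K)) P) 0 := (zero_add _).symm
      _ ≤ _ := by gcongr

theorem mem_WW {hg : An.MerFam g} {D₁ D₂ D : X.Pt →₀ ℤ} {w : X.L D₁ × X.L D₂} :
    w ∈ WW hg D₁ D₂ D ↔ ∀ P, ((-D P : ℤ) : WithTop ℤ) ≤
      meromorphicOrderAt (An.comb g ((w.1 : K), (w.2 : K)) P) 0 := Iff.rfl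

theorem finrank_WW_le (hg : An.MerFam g) (D₁ D₂ : X.Pt →₀ ℤ) [FiniteDimensional ℂ (X.L D₁)]
    [FiniteDimensional ℂ (X.L D₂)] (n : ℕ) : ∀ D : X.Pt →₀ ℤ, (∀ P, 0 ≤ D P) → X.deg D = n →
      finrank ℂ (WW hg D₁ D₂ D) ≤ n + finrank ℂ (WW hg D₁ D₂ 0) := by
  classical
  induction n with
  | zero =>
    intro D hD hdeg
    have h0 : D = 0 := by
      ext P
      have h1 : X.deg (D - Finsupp.single P (D P)) = - D P := by
        rw [X.deg_sub, X.deg_single, hdeg]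
        simp
      have h2 := X.deg_nonneg (D := D - Finsupp.single P (D P)) (by
        intro Q
        rw [Finsupp.sub_apply, Finsupp.single_apply]
        split_ifs with h
        · subst h
          simp
        · rw [sub_zero]
          exact hD Q)
      have h3 := hD P
      rw [h1] at h2
      rw [Finsupp.zero_apply]
      linarith
    rw [h0, zero_add]
  | succ n ih =>
    intro D hD hdeg
    obtain ⟨P, hP⟩ : ∃ P, 0 < D P := by
      by_contra h
      push Not at h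
      have h1 : D = 0 := by
        ext P
        exact le_antisymm (h P) (hD P)
      rw [h1, X.deg_zero] at hdeg
      push_cast at hdeg
      linarith
    have h1 := ih (D - Finsupp.single P 1) (by
      intro Q
      rw [Finsupp.sub_apply, Finsupp.single_apply]
      split_ifs with h
      · subst h
        linarith
      · rw [sub_zero]
        exact hD Q) (by
      rw [X.deg_sub, X.deg_single, hdeg]
      push_cast
      ring)
    have h2 : finrank ℂ (WW hg D₁ D₂ D) ≤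
        finrank ℂ (WW hg D₁ D₂ (D - Finsupp.single P 1)) + 1 := by
      apply finrank_le_add_one
      intro x hx y hy
      have hmx := (hg.comb ((x.1 : K), (x.2 : K))).mero P 0 (mem_ball_zero P)
      have hmy := (hg.comb ((y.1 : K), (y.2 : K))).mero P 0 (mem_ball_zero P)
      obtain ⟨a, b, hab, hc⟩ := exists_comb hmx hmy (mem_WW.1 hx P) (mem_WW.1 hy P)
      refine ⟨a, b, hab, ?_⟩
      have hxy : a • x + b • y ∈ WW hg D₁ D₂ D :=
        add_mem (Submodule.smul_mem _ _ hx) (Submodule.smul_mem _ _ hy)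
      rw [mem_WW]
      intro Q
      rw [Finsupp.sub_apply, Finsupp.single_apply]
      split_ifs with h
      · subst h
        have h3 := An.comb_lin g ((x.1 : K), (x.2 : K)) ((y.1 : K), (y.2 : K)) a b P
          (mem_ball_zero P)
        have h4 : An.comb g (((a • x + b • y).1 : K), ((a • x + b • y).2 : K)) P =
            An.comb g (a • ((x.1 : K), (x.2 : K)) + b • ((y.1 : K), (y.2 : K))) P := rfl
        rw [h4, meromorphicOrderAt_congr h3]
        have h5 : -(D P - 1) = -D P + 1 := by ring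
        rw [h5]
        exact hc
      · rw [sub_zero]
        exact mem_WW.1 hxy Q
    omega

end main

variable {g : X.Pt → ℂ → ℂ}

theorem ord_fn (An : AnCurve X) (P : X.Pt) {z : K} (hz : z ≠ 0) :
    meromorphicOrderAt (An.fn P z) 0 = X.ord P z := by
  rw [An.ord P z hz 0 (mem_ball_zero P), An.c_zero]

theorem le_ord_fn (An : AnCurve X) (P : X.Pt) {z : K} {D : X.Pt →₀ ℤ} (hz : z ∈ X.L D) :
    ((-D P : ℤ) : WithTop ℤ) ≤ meromorphicOrderAt (An.fn P z) 0 := by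
  by_cases h0 : z = 0
  · subst h0
    rw [meromorphicOrderAt_eq_top_iff.2 (An.fn_zero P (mem_ball_zero P))]
    exact le_top
  · rw [An.ord_fn P h0]
    have h1 := hz h0 P
    have : -D P ≤ X.ord P z := by linarith
    exact_mod_cast this

theorem fn_inj (An : AnCurve X) [Nonempty X.Pt] {z w : K}
    (h : ∀ P, An.fn P z =ᶠ[𝓝[≠] 0] An.fn P w) : z = w := by
  by_contra hne
  have h0 : z - w ≠ 0 := sub_ne_zero.2 hne
  obtain ⟨P⟩ := ‹Nonempty X.Pt›
  have h1 := An.ord_fn P h0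
  have h2 : An.fn P (z - w) =ᶠ[𝓝[≠] 0] 0 := by
    rw [sub_eq_add_neg]
    filter_upwards [An.fn_add P z (-w) 0 (mem_ball_zero P), An.fn_neg P w (mem_ball_zero P), h P]
      with σ h3 h4 h5
    rw [h3, Pi.add_apply, h4, h5, Pi.zero_apply]
    ring
  rw [meromorphicOrderAt_eq_top_iff.2 h2] at h1
  exact WithTop.top_ne_coe h1

end AnCurve

/-- GAGA: a meromorphic function on the analytic curve is rational. -/
theorem AnCurve.MerFam.exists_fn {K : Type} [Field K] [Algebra ℂ K] {X : Curve K}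
    {An : AnCurve X.toCurveOrd} {g : X.Pt → ℂ → ℂ} (hg : An.MerFam g) (hc : An.HolConst)
    (P₀ : X.Pt) : ∃ z : K, ∀ P, ∀ s ∈ ball 0 (An.r P), An.fn P z =ᶠ[𝓝[≠] s] g P := by
  classical
  have hfin := hg.finite_poles
  -- the polar divisor
  have hE0 : ∀ P, meromorphicOrderAt (g P) 0 < 0 ∨ max 0 (-(meromorphicOrderAt (g P) 0).untop₀) = 0 := by
    intro P
    by_cases h : meromorphicOrderAt (g P) 0 < 0
    · exact Or.inl h
    · right
      rw [not_lt] at h
      have : 0 ≤ (meromorphicOrderAt (g P) 0).untop₀ := WithTop.untop₀_nonneg.2 h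
      rw [max_eq_left]
      linarith
  let E : X.Pt →₀ ℤ := Finsupp.ofSupportFinite
    (fun P => max 0 (-(meromorphicOrderAt (g P) 0).untop₀)) (by
      apply hfin.subset
      intro P hP
      rcases hE0 P with h | h
      · exact h
      · exact absurd h hP)
  have hE : ∀ P, E P = max 0 (-(meromorphicOrderAt (g P) 0).untop₀) := fun P => rfl
  have hE1 : ∀ P, 0 ≤ E P := fun P => by rw [hE]; exact le_max_left _ _
  have hE2 : ∀ P, ((-E P : ℤ) : WithTop ℤ) ≤ meromorphicOrderAt (g P) 0 := by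
    intro P
    by_cases h : meromorphicOrderAt (g P) 0 = ⊤
    · rw [h]
      exact le_top
    · rw [← WithTop.coe_untop₀_of_ne_top h]
      have : -E P ≤ (meromorphicOrderAt (g P) 0).untop₀ := by
        rw [hE]
        have := le_max_right 0 (-(meromorphicOrderAt (g P) 0).untop₀)
        linarith
      exact_mod_cast this
  set D₂ : X.Pt →₀ ℤ := Finsupp.single P₀ (2 * (X.genus : ℤ)) with hD₂
  set D₁ : X.Pt →₀ ℤ := D₂ + E with hD₁
  have hD₂0 : ∀ P, 0 ≤ D₂ P := by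
    intro P
    rw [hD₂, Finsupp.single_apply]
    split_ifs
    · have := Int.natCast_nonneg X.genus
      linarith
    · exact le_rfl
  have hD₁0 : ∀ P, 0 ≤ D₁ P := fun P => by
    rw [hD₁, Finsupp.add_apply]
    exact add_nonneg (hD₂0 P) (hE1 P)
  have hdeg2 : X.deg D₂ = 2 * (X.genus : ℤ) := X.deg_single _ _
  have hdegE : 0 ≤ X.deg E := X.deg_nonneg hE1
  have hdeg1 : X.deg D₁ = 2 * (X.genus : ℤ) + X.deg E := by rw [hD₁, X.deg_add, hdeg2]
  have := X.finite_L P₀ D₁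
  have := X.finite_L P₀ D₂
  have hr1 := X.riemann_roch D₁ (by rw [hdeg1]; linarith)
  have hr2 := X.riemann_roch D₂ (by rw [hdeg2]; linarith)
  obtain ⟨n, hn⟩ := Int.eq_ofNat_of_zero_le (X.deg_nonneg hD₁0)
  have h1 := finrank_WW_le hg D₁ D₂ n D₁ hD₁0 hn
  have htop : WW hg D₁ D₂ D₁ = ⊤ := by
    rw [eq_top_iff]
    rintro ⟨a, b⟩ -
    rw [mem_WW]
    intro P
    have h2 := An.le_ord_fn P a.2
    have h3 := An.le_ord_fn P b.2
    have h4 := hE2 P
    have hm1 := An.fn_mero P (a : K) 0 (mem_ball_zero P)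
    have hm2 := An.fn_mero P (b : K) 0 (mem_ball_zero P)
    have hm3 := hg.mero P 0 (mem_ball_zero P)
    refine le_trans ?_ (meromorphicOrderAt_add hm1 (hm3.mul hm2))
    refine le_min h2 ?_
    rw [meromorphicOrderAt_mul hm3 hm2, hD₁, Finsupp.add_apply]
    calc ((-(D₂ P + E P) : ℤ) : WithTop ℤ) = ((-E P : ℤ) : WithTop ℤ) + ((-D₂ P : ℤ) : WithTop ℤ) := by
          rw [← WithTop.coe_add]
          congr 1
          ring
      _ ≤ _ := add_le_add h4 h3
  -- the holomorphic combinations are constants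
  let N : Submodule ℂ (X.L D₁ × X.L D₂) :=
    { carrier := {w | ∀ P, An.comb g ((w.1 : K), (w.2 : K)) P =ᶠ[𝓝[≠] 0] 0}
      zero_mem' := by
        intro P
        filter_upwards [An.fn_zero P (mem_ball_zero P)] with σ h1
        show An.fn P 0 σ + g P σ * An.fn P 0 σ = 0
        rw [h1]
        simp
      add_mem' := by
        intro w w' h h' P
        have h1 := An.comb_lin g ((w.1 : K), (w.2 : K)) ((w'.1 : K), (w'.2 : K)) 1 1 P
          (mem_ball_zero P)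
        simp only [one_smul, one_mul, Prod.mk_add_mk] at h1
        filter_upwards [h1, h P, h' P] with σ h1 h2 h3
        show An.comb g (((w.1 : K) + (w'.1 : K)), ((w.2 : K) + (w'.2 : K))) P σ = 0
        rw [h1, h2, h3]
        simp
      smul_mem' := by
        intro c w h P
        have h1 := An.comb_lin g ((w.1 : K), (w.2 : K)) 0 c 0 P (mem_ball_zero P)
        simp only [smul_zero, add_zero, zero_mul, Prod.smul_mk] at h1
        filter_upwards [h1, h P] with σ h1 h2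
        show An.comb g ((c • (w.1 : K)), (c • (w.2 : K))) P σ = 0
        rw [h1, h2]
        simp }
  have h2 : finrank ℂ (WW hg D₁ D₂ 0) ≤ finrank ℂ N + 1 := by
    apply finrank_le_add_one
    intro x hx y hy
    have hx' : ∀ P, 0 ≤ meromorphicOrderAt (An.comb g ((x.1 : K), (x.2 : K)) P) 0 := by
      intro P
      have := mem_WW.1 hx P
      simpa using this
    have hy' : ∀ P, 0 ≤ meromorphicOrderAt (An.comb g ((y.1 : K), (y.2 : K)) P) 0 := by
      intro P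
      have := mem_WW.1 hy P
      simpa using this
    obtain ⟨α, hα⟩ := (hg.comb ((x.1 : K), (x.2 : K))).const hc hx'
    obtain ⟨β, hβ⟩ := (hg.comb ((y.1 : K), (y.2 : K))).const hc hy'
    obtain ⟨a, b, hab, h0⟩ : ∃ a b : ℂ, (a ≠ 0 ∨ b ≠ 0) ∧ a * α + b * β = 0 := by
      by_cases h : β ≠ 0 ∨ -α ≠ 0
      · exact ⟨β, -α, h, by ring⟩
      · push Not at h
        refine ⟨1, 0, Or.inl one_ne_zero, ?_⟩
        rw [neg_eq_zero.1 h.2]
        ring
    refine ⟨a, b, hab, fun P => ?_⟩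
    have h3 := An.comb_lin g ((x.1 : K), (x.2 : K)) ((y.1 : K), (y.2 : K)) a b P
      (mem_ball_zero P)
    filter_upwards [h3, hα P, hβ P] with σ h4 h5 h6
    show An.comb g (a • ((x.1 : K), (x.2 : K)) + b • ((y.1 : K), (y.2 : K))) P σ = 0
    rw [h4, h5, h6, h0]
  have h3 : finrank ℂ (X.L D₁ × X.L D₂) = finrank ℂ (X.L D₁) + finrank ℂ (X.L D₂) :=
    finrank_prod
  rw [htop, finrank_top, h3] at h1
  have h4 : 0 < finrank ℂ N := by
    have h5 : (finrank ℂ (X.L D₁) : ℤ) + finrank ℂ (X.L D₂) ≤ n + (finrank ℂ N + 1) := by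
      exact_mod_cast h1.trans (Nat.add_le_add_left h2 n)
    rw [hr1, hr2, hdeg2] at h5
    have h6 : (n : ℤ) = X.deg D₁ := hn.symm
    rw [h6] at h5
    have h7 : (0 : ℤ) < finrank ℂ N := by linarith
    exact_mod_cast h7
  have h5 : N ≠ ⊥ := by
    intro h
    rw [h, finrank_bot] at h4
    exact lt_irrefl _ h4
  obtain ⟨w, hw, hw0⟩ := Submodule.exists_mem_ne_zero_of_ne_bot h5
  obtain ⟨a, b⟩ := w
  have : Nonempty X.Pt := ⟨P₀⟩
  have hab : ∀ P, ∀ s ∈ ball 0 (An.r P), An.comb g ((a : K), (b : K)) P =ᶠ[𝓝[≠] s] 0 :=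
    fun P s hs => (hg.comb ((a : K), (b : K))).eventually_zero hw P hs
  have hb : (b : K) ≠ 0 := by
    intro hb
    have ha : (a : K) = 0 := by
      apply An.fn_inj
      intro P
      have h6 := hw P
      filter_upwards [h6, An.fn_zero P (mem_ball_zero P)] with σ h7 h8
      have h9 : An.fn P (a : K) σ + g P σ * An.fn P (b : K) σ = 0 := h7
      rw [hb, h8] at h9
      rw [h8]
      simpa using h9
    apply hw0
    exact Prod.ext (Subtype.ext ha) (Subtype.ext hb)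
  refine ⟨-(a : K) / b, fun P s hs => ?_⟩
  have h6 := An.fn_mul P (-(a : K) / b) b s hs
  rw [div_mul_cancel₀ _ hb] at h6
  have h7 : meromorphicOrderAt (An.fn P b) s ≠ ⊤ := by
    rw [An.ord P _ hb s hs]
    exact WithTop.coe_ne_top
  have h8 := (meromorphicOrderAt_ne_top_iff_eventually_ne_zero (An.fn_mero P b s hs)).1 h7
  filter_upwards [h6, h8, hab P s hs, An.fn_neg P (a : K) hs] with σ h9 h10 h11 h12
  have h13 : An.fn P (a : K) σ + g P σ * An.fn P (b : K) σ = 0 := h11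
  rw [h12, Pi.mul_apply] at h9
  have h14 : (An.fn P (-(a : K) / b) σ - g P σ) * An.fn P (b : K) σ = 0 := by
    linear_combination -h9 - h13
  rcases mul_eq_zero.1 h14 with h | h
  · linear_combination h
  · exact absurd h h10

end

end Pool.Agent.YTDA


end

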