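import Pool.Agent.YTDM.P39

/- source: Pool.Agent.YTDA.Quot -/

section

/-!
# The quotient of a polarized atlas by a finite group acting freely
-/

namespace Pool.Agent.YTDA

open Complex Set Topology ContDiff Manifold ComplexOrder Module Filter

noncomputable section

namespace PolAtlas

variable {n : ℕ} {Y : Type} [MulAction ℂˣ Y] (A : PolAtlas n Y)
variable (G : Type) [Group G] [MulAction G Y] [SMulCommClass G ℂˣ Y]

/-- A group acting by holomorphic automorphisms of the line bundle, freely on the manifold. -/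
structure FreeAct : Prop where
  hol : ∀ (g : G) (a : A.ι), ∀ z ∈ A.U a, ∃ (b : A.ι) (O : Set (E n)) (f : E n → E n)
    (m : E n → ℂˣ), IsOpen O ∧ z ∈ O ∧ O ⊆ A.U a ∧ DifferentiableOn ℂ f O ∧
    DifferentiableOn ℂ (fun w => (m w : ℂ)) O ∧
    ∀ w ∈ O, f w ∈ A.U b ∧ g • A.γ a w = m w • A.γ b (f w)
  free : ∀ (g : G) (y : Y) (c : ℂˣ), g • y = c • y → g = 1

variable {A G}

/-- Local representation of the action in given charts. -/
theorem FreeAct.loc (h : A.FreeAct G) (g : G) {a b : A.ι} {z z' : E n} (hz : z ∈ A.U a)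
    (hz' : z' ∈ A.U b) {c : ℂˣ} (hc : A.γ b z' = c • g • A.γ a z) :
    ∃ (O : Set (E n)) (f : E n → E n) (m : E n → ℂˣ), IsOpen O ∧ z ∈ O ∧ O ⊆ A.U a ∧
      DifferentiableOn ℂ f O ∧ DifferentiableOn ℂ (fun w => (m w : ℂ)) O ∧ f z = z' ∧ m z = c ∧
      ∀ w ∈ O, f w ∈ A.U b ∧ A.γ b (f w) = m w • g • A.γ a w := by
  obtain ⟨b₁, O₁, f₁, m₁, hO₁, hzO₁, hOU, hf₁, hm₁, h₁⟩ := h.hol g a z hz
  obtain ⟨h2, h3⟩ := h₁ z hzO₁
  have h4 : A.γ b z' = (c * m₁ z) • A.γ b₁ (f₁ z) := by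
    rw [hc, h3, smul_smul]
  obtain ⟨h5, h6, h7⟩ := A.eq_τ h2 hz' h4
  set O := O₁ ∩ f₁ ⁻¹' (A.O b₁ b) with hO
  have hOo : IsOpen O := hf₁.continuousOn.isOpen_inter_preimage hO₁ (A.O_open b₁ b)
  refine ⟨O, fun w => A.τ b₁ b (f₁ w), fun w => A.h b₁ b (f₁ w) * (m₁ w)⁻¹, hOo, ⟨hzO₁, h5⟩,
    fun w hw => hOU hw.1, ?_, ?_, h6, ?_, ?_⟩
  · exact (A.hol_τ' b₁ b).comp (hf₁.mono inter_subset_left) fun w hw => hw.2
  · have h8 : DifferentiableOn ℂ (fun w => (A.h b₁ b (f₁ w) : ℂ)) O :=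
      (A.hol_h' b₁ b).comp (hf₁.mono inter_subset_left) fun w hw => hw.2
    have h9 : DifferentiableOn ℂ (fun w => ((m₁ w : ℂ))⁻¹) O :=
      (hm₁.mono inter_subset_left).inv fun w _ => (m₁ w).ne_zero
    have := h8.mul h9
    apply this.congr
    intro w _
    simp
  · simp only [h7, mul_inv_cancel_right]
  · intro w hw
    refine ⟨A.τ_mem hw.2, ?_⟩
    rw [A.γ_τ hw.2, (h₁ w hw.1).2, smul_smul, inv_mul_cancel_right]

variable (A G)

/-- A small open subset of a chart. -/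
def Small (a : A.ι) (V : Set (E n)) : Prop :=
  IsOpen V ∧ V ⊆ A.U a ∧ ∀ g : G, g ≠ 1 → ∀ w ∈ V, ∀ w' ∈ V, ∀ c : ℂˣ,
    g • A.γ a w ≠ c • A.γ a w'

variable {A G}

theorem Small.mono {a : A.ι} {V W : Set (E n)} (hV : A.Small G a V) (hW : IsOpen W)
    (hWV : W ⊆ V) : A.Small G a W :=
  ⟨hW, hWV.trans hV.2.1, fun g hg w hw w' hw' c => hV.2.2 g hg w (hWV hw) w' (hWV hw') c⟩

theorem FreeAct.exists_small [Finite G] (h : A.FreeAct G) (ht : A.IsT2) {a : A.ι} {z : E n}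
    (hz : z ∈ A.U a) : ∃ V, z ∈ V ∧ A.Small G a V := by
  have key : ∀ g : G, g ≠ 1 → ∃ V, IsOpen V ∧ z ∈ V ∧ V ⊆ A.U a ∧ ∀ w ∈ V, ∀ w' ∈ V, ∀ c : ℂˣ,
      g • A.γ a w ≠ c • A.γ a w' := by
    intro g hg
    obtain ⟨b, O, f, m, hO, hzO, hOU, hf, hm, h1⟩ := h.hol g a z hz
    obtain ⟨h2, h3⟩ := h1 z hzO
    have h4 : ∀ c : ℂˣ, A.γ b (f z) ≠ c • A.γ a z := by
      intro c hc
      apply hg
      apply h.free g (A.γ a z) (m z * c)
      rw [h3, hc, smul_smul]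
    obtain ⟨V, hV, V', hV', h5⟩ := ht a b z hz (f z) h2 h4
    obtain ⟨W, hW, hWo, hzW⟩ := mem_nhds_iff.1 hV
    obtain ⟨W', hW', hWo', hzW'⟩ := mem_nhds_iff.1 hV'
    refine ⟨W ∩ (O ∩ f ⁻¹' W'), hWo.inter (hf.continuousOn.isOpen_inter_preimage hO hWo'),
      ⟨hzW, hzO, hzW'⟩, fun w hw => hOU hw.2.1, ?_⟩
    intro w hw w' hw' c hc
    obtain ⟨h6, h7⟩ := h1 w hw.2.1
    rw [h7] at hc
    apply h5 w' ⟨hW hw'.1, hOU hw'.2.1⟩ (f w) ⟨hW' hw.2.2, h6⟩ ((m w)⁻¹ * c)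
    rw [mul_smul, ← hc, inv_smul_smul]
  choose! V hV using key
  classical
  have := Fintype.ofFinite G
  refine ⟨A.U a ∩ ⋂ g : {g : G // g ≠ 1}, V g.1, ⟨hz, ?_⟩, ?_, inter_subset_left, ?_⟩
  · exact mem_iInter.2 fun g => (hV g.1 g.2).2.1
  · exact (A.isOpen_U a).inter (isOpen_iInter_of_finite fun g => (hV g.1 g.2).1)
  · intro g hg w hw w' hw' c
    exact (hV g hg).2.2.2 w (mem_iInter.1 hw.2 ⟨g, hg⟩) w' (mem_iInter.1 hw'.2 ⟨g, hg⟩) c

/-! ### The quotient -/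

variable (Y G)

/-- The quotient of `Y` by the group. -/
abbrev QY : Type := MulAction.orbitRel.Quotient G Y

variable {Y G}

/-- The projection. -/
def qm (y : Y) : QY Y G := Quotient.mk (MulAction.orbitRel G Y) y

theorem qm_eq {y y' : Y} : (qm y : QY Y G) = qm y' ↔ ∃ g : G, y = g • y' := by
  constructor
  · intro h
    have h1 : (MulAction.orbitRel G Y).r y y' := Quotient.exact h
    obtain ⟨g, hg⟩ := h1
    exact ⟨g, hg.symm⟩
  · rintro ⟨g, hg⟩
    exact Quotient.sound ⟨g, hg.symm⟩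

theorem exists_qm (y : QY Y G) : ∃ y' : Y, qm y' = y := Quotient.exists_rep y

instance qAction : MulAction ℂˣ (QY Y G) where
  smul c := Quotient.map (fun y => c • y) (by
    rintro y y' ⟨g, hg⟩
    refine ⟨g, ?_⟩
    simp only at hg ⊢
    rw [smul_comm, hg])
  one_smul p := by
    obtain ⟨y, rfl⟩ := exists_qm p
    show (qm ((1 : ℂˣ) • y) : QY Y G) = qm y
    rw [one_smul]
  mul_smul c d p := by
    obtain ⟨y, rfl⟩ := exists_qm p
    show (qm ((c * d) • y) : QY Y G) = qm (c • d • y)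
    rw [mul_smul]

theorem smul_qm (c : ℂˣ) (y : Y) : c • (qm y : QY Y G) = qm (c • y) := rfl

theorem qm_smul (g : G) (y : Y) : (qm (g • y) : QY Y G) = qm y := qm_eq.2 ⟨g, rfl⟩

variable (A G)

/-- Index set of the atlas of the quotient. -/
abbrev QI : Type := {p : A.ι × Set (E n) // A.Small G p.1 p.2}

variable {A G}

/-- frames of the quotient -/
def qγ (p : A.QI G) (z : E n) : QY Y G := qm (A.γ p.1.1 z)

/-- The relation between points of the charts. -/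
def QRel (p p' : A.QI G) (z z' : E n) : Prop :=
  z' ∈ p'.1.2 ∧ ∃ c : ℂˣ, qγ p' z' = c • qγ p z

theorem qrel_iff {p p' : A.QI G} {z z' : E n} {c : ℂˣ} : qγ p' z' = c • qγ p z ↔
    ∃ g : G, A.γ p'.1.1 z' = c • g • A.γ p.1.1 z := by
  unfold qγ
  rw [smul_qm, qm_eq]
  constructor
  · rintro ⟨g, hg⟩
    exact ⟨g, by rw [hg, smul_comm g c]⟩
  · rintro ⟨g, hg⟩
    exact ⟨g, by rw [hg, smul_comm g c]⟩

theorem q_inj (p : A.QI G) {z z' : E n} (hz : z ∈ p.1.2) (hz' : z' ∈ p.1.2) {c : ℂˣ}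
    (h : qγ p z' = c • qγ p z) : z' = z ∧ c = 1 := by
  obtain ⟨g, hg⟩ := qrel_iff.1 h
  have hg1 : g = 1 := by
    by_contra hg1
    apply p.2.2.2 g hg1 z hz z' hz' c⁻¹
    rw [hg, inv_smul_smul]
  rw [hg1, one_smul] at hg
  exact A.inj p.1.1 z (p.2.2.1 hz) z' (p.2.2.1 hz') c hg

theorem qrel_unique {p p' : A.QI G} {z z₁ z₂ : E n} {c₁ c₂ : ℂˣ} (h1 : z₁ ∈ p'.1.2)
    (h2 : z₂ ∈ p'.1.2) (h3 : qγ p' z₁ = c₁ • qγ p z) (h4 : qγ p' z₂ = c₂ • qγ p z) :
    z₁ = z₂ ∧ c₁ = c₂ := by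
  have h5 : qγ p' z₁ = (c₁ * c₂⁻¹) • qγ p' z₂ := by
    rw [h3, h4, smul_smul, inv_mul_cancel_right]
  obtain ⟨h6, h7⟩ := q_inj p' h2 h1 h5
  exact ⟨h6, mul_inv_eq_one.1 h7⟩

/-- Domain of the transition. -/
def qO (p p' : A.QI G) : Set (E n) :=
  {z | z ∈ p.1.2 ∧ ∃ z' ∈ p'.1.2, ∃ c : ℂˣ, qγ p' z' = c • qγ p z}

open Classical in
/-- the transition maps -/
def qτ (p p' : A.QI G) (z : E n) : E n :=
  if h : ∃ z' ∈ p'.1.2, ∃ c : ℂˣ, qγ p' z' = c • qγ p z then h.choose else 0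

open Classical in
/-- the transition functions -/
def qh (p p' : A.QI G) (z : E n) : ℂˣ :=
  if h : ∃ z' ∈ p'.1.2, ∃ c : ℂˣ, qγ p' z' = c • qγ p z then h.choose_spec.2.choose else 1

theorem q_trans {p p' : A.QI G} {z : E n}
    (h : ∃ z' ∈ p'.1.2, ∃ c : ℂˣ, qγ p' z' = c • qγ p z) :
    qτ p p' z ∈ p'.1.2 ∧ qγ p' (qτ p p' z) = qh p p' z • qγ p z := by
  have h1 : qτ p p' z = h.choose := dif_pos h
  have h2 : qh p p' z = h.choose_spec.2.choose := dif_pos h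
  rw [h1, h2]
  exact ⟨h.choose_spec.1, h.choose_spec.2.choose_spec⟩

theorem q_trans_eq {p p' : A.QI G} {z z' : E n} {c : ℂˣ} (h1 : z' ∈ p'.1.2)
    (h : qγ p' z' = c • qγ p z) : qτ p p' z = z' ∧ qh p p' z = c := by
  obtain ⟨h2, h3⟩ := q_trans (p := p) (p' := p') (z := z) ⟨z', h1, c, h⟩
  exact qrel_unique h2 h1 h3 h

/-- Local representation of the transitions of the quotient. -/
theorem FreeAct.q_loc (hA : A.FreeAct G) {p p' : A.QI G} {z : E n} (hz : z ∈ qO p p') :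
    ∃ (O : Set (E n)) (f : E n → E n) (m : E n → ℂˣ) (g : G), IsOpen O ∧ z ∈ O ∧ O ⊆ qO p p' ∧
      DifferentiableOn ℂ f O ∧ DifferentiableOn ℂ (fun w => (m w : ℂ)) O ∧
      ∀ w ∈ O, f w ∈ p'.1.2 ∧ A.γ p'.1.1 (f w) = m w • g • A.γ p.1.1 w ∧
        qτ p p' w = f w ∧ qh p p' w = m w := by
  obtain ⟨h1, z', h2, c, h3⟩ := hz
  obtain ⟨g, hg⟩ := qrel_iff.1 h3
  obtain ⟨O, f, m, hO, hzO, hOU, hf, hm, hfz, -, h4⟩ :=
    hA.loc g (p.2.2.1 h1) (p'.2.2.1 h2) hg
  set O' := (O ∩ f ⁻¹' p'.1.2) ∩ p.1.2 with hO'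
  have hrel : ∀ w ∈ O', qγ p' (f w) = m w • qγ p w := by
    intro w hw
    exact qrel_iff.2 ⟨g, (h4 w hw.1.1).2⟩
  refine ⟨O', f, m, g, (hf.continuousOn.isOpen_inter_preimage hO p'.2.1).inter p.2.1,
    ⟨⟨hzO, ?_⟩, h1⟩, ?_, hf.mono fun w hw => hw.1.1, hm.mono fun w hw => hw.1.1, ?_⟩
  · rw [mem_preimage, hfz]
    exact h2
  · intro w hw
    exact ⟨hw.2, f w, hw.1.2, m w, hrel w hw⟩
  · intro w hw
    exact ⟨hw.1.2, (h4 w hw.1.1).2, q_trans_eq hw.1.2 (hrel w hw)⟩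

/-- The polarized atlas of the quotient. -/
def quot [Finite G] (hA : A.FreeAct G) (ht : A.IsT2) : PolAtlas n (QY Y G) where
  ι := A.QI G
  U p := p.1.2
  γ := qγ
  isOpen_U p := p.2.1
  inj p z hz z' hz' c h := q_inj p hz hz' h
  cover y := by
    obtain ⟨y, rfl⟩ := exists_qm y
    obtain ⟨a, z, hz, c, rfl⟩ := A.cover y
    obtain ⟨V, hzV, hV⟩ := hA.exists_small ht hz
    exact ⟨⟨(a, V), hV⟩, z, hzV, c, rfl⟩
  τ := qτ
  h := qh
  isOpen_O p p' := by
    rw [isOpen_iff_mem_nhds]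
    intro z hz
    obtain ⟨O, f, m, g, hO, hzO, hOq, -⟩ := hA.q_loc hz
    exact mem_of_superset (hO.mem_nhds hzO) hOq
  trans p p' z _ h := q_trans h
  hol_τ p p' := by
    intro z hz
    obtain ⟨O, f, m, g, hO, hzO, hOq, hf, hm, h1⟩ := hA.q_loc hz
    have h2 : qτ p p' =ᶠ[𝓝 z] f := by
      filter_upwards [hO.mem_nhds hzO] with w hw
      exact (h1 w hw).2.2.1
    exact (h2.differentiableAt_iff.2
      (hf.differentiableAt (hO.mem_nhds hzO))).differentiableWithinAt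
  hol_h p p' := by
    intro z hz
    obtain ⟨O, f, m, g, hO, hzO, hOq, hf, hm, h1⟩ := hA.q_loc hz
    have h2 : (fun w => (qh p p' w : ℂ)) =ᶠ[𝓝 z] fun w => (m w : ℂ) := by
      filter_upwards [hO.mem_nhds hzO] with w hw
      rw [(h1 w hw).2.2.2]
    exact (h2.differentiableAt_iff.2
      (hm.differentiableAt (hO.mem_nhds hzO))).differentiableWithinAt

end PolAtlas

end

end Pool.Agent.YTDA


end

/- source: Pool.Agent.YTDA.Quot2 -/

section

/-!
# The quotient of a polarized atlas: compactness, sections, metrics, vector fields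
-/

namespace Pool.Agent.YTDA

open Complex Set Topology ContDiff Manifold ComplexOrder Module Filter Metric

noncomputable section

namespace PolAtlas

variable {n : ℕ} {Y : Type} [MulAction ℂˣ Y] {A : PolAtlas n Y}
variable {G : Type} [Group G] [MulAction G Y] [SMulCommClass G ℂˣ Y]

theorem isCpt_of_finite {T : Type} [Finite T] (a : T → A.ι) (K : T → Set (E n))
    (h1 : ∀ k, IsCompact (K k) ∧ K k ⊆ A.U (a k))
    (h2 : ∀ y, ∃ k, ∃ z ∈ K k, ∃ c : ℂˣ, y = c • A.γ (a k) z) : A.IsCpt := by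
  obtain ⟨m, ⟨e⟩⟩ := Finite.exists_equiv_fin T
  refine ⟨m, fun k => a (e.symm k), fun k => K (e.symm k), fun k => h1 _, fun y => ?_⟩
  obtain ⟨k, z, hz, c, hc⟩ := h2 y
  refine ⟨e k, z, ?_, c, ?_⟩
  · simpa using hz
  · simpa using hc

variable [Finite G] (hA : A.FreeAct G) (ht : A.IsT2)

theorem quot_isCpt (hc : A.IsCpt) : (A.quot hA ht).IsCpt := by
  obtain ⟨m, a, K, h1, h2⟩ := hc
  have key : ∀ k, ∀ z ∈ K k, ∃ V, A.Small G (a k) V ∧ ∃ r > 0, closedBall z r ⊆ V := by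
    intro k z hz
    obtain ⟨V, hzV, hV⟩ := hA.exists_small ht ((h1 k).2 hz)
    obtain ⟨r, hr, hr'⟩ := nhds_basis_closedBall.mem_iff.1 (hV.1.mem_nhds hzV)
    exact ⟨V, hV, r, hr, hr'⟩
  choose! V hV r hr hrV using key
  have key2 : ∀ k, ∃ t : Finset (E n), (∀ z ∈ t, z ∈ K k) ∧
      K k ⊆ ⋃ z ∈ t, closedBall z (r k z) := fun k =>
    (h1 k).1.elim_nhds_subcover (fun z => closedBall z (r k z)) fun z hz =>
      closedBall_mem_nhds z (hr k z hz)
  choose t ht1 ht2 using key2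
  have hf : Finite (Σ k : Fin m, {z : E n // z ∈ t k}) := inferInstance
  apply isCpt_of_finite (A := A.quot hA ht) (T := Σ k : Fin m, {z : E n // z ∈ t k})
    (fun p => ⟨(a p.1, V p.1 p.2.1), hV p.1 p.2.1 (ht1 p.1 p.2.1 p.2.2)⟩)
    (fun p => K p.1 ∩ closedBall p.2.1 (r p.1 p.2.1))
  · rintro ⟨k, z, hz⟩
    refine ⟨(h1 k).1.inter_right isClosed_closedBall, ?_⟩
    exact inter_subset_right.trans (hrV k z (ht1 k z hz))
  · intro y
    obtain ⟨y, rfl⟩ := exists_qm y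
    obtain ⟨k, z, hz, c, rfl⟩ := h2 y
    obtain ⟨z₀, hz₀, hz₀'⟩ := mem_iUnion₂.1 (ht2 k hz)
    exact ⟨⟨k, z₀, hz₀⟩, z, ⟨hz, hz₀'⟩, c, rfl⟩

theorem quot_isT2 : (A.quot hA ht).IsT2 := by
  intro p p' z hz z' hz' hne
  have key : ∀ g : G, ∃ V ∈ 𝓝 z, ∃ V' ∈ 𝓝 z', ∀ w ∈ V ∩ A.U p.1.1, ∀ w' ∈ V' ∩ A.U p'.1.1,
      ∀ c : ℂˣ, A.γ p'.1.1 w' ≠ c • g • A.γ p.1.1 w := by
    intro g
    obtain ⟨b, O, f, m, hO, hzO, hOU, hf, hm, h1⟩ := hA.hol g p.1.1 z (p.2.2.1 hz)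
    have h2 : ∀ c : ℂˣ, A.γ p'.1.1 z' ≠ c • A.γ b (f z) := by
      intro c hc
      apply hne (c * (m z)⁻¹)
      apply qrel_iff.2
      refine ⟨g, ?_⟩
      rw [hc, (h1 z hzO).2, smul_smul, inv_mul_cancel_right]
    obtain ⟨V, hV, V', hV', h3⟩ := ht b p'.1.1 (f z) (h1 z hzO).1 z' (p'.2.2.1 hz') h2
    have hfc : ContinuousAt f z := (hf.continuousOn z hzO).continuousAt (hO.mem_nhds hzO)
    refine ⟨O ∩ f ⁻¹' V, inter_mem (hO.mem_nhds hzO) (hfc hV), V', hV', ?_⟩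
    intro w hw w' hw' c hc
    apply h3 (f w) ⟨hw.1.2, (h1 w hw.1.1).1⟩ w' hw' (c * m w)
    rw [hc, (h1 w hw.1.1).2, smul_smul]
  choose V hV V' hV' h using key
  refine ⟨⋂ g, V g, iInter_mem.2 hV, ⋂ g, V' g, iInter_mem.2 hV', ?_⟩
  intro w hw w' hw' c hc
  obtain ⟨g, hg⟩ := qrel_iff.1 hc
  exact h g w ⟨mem_iInter.1 hw.1 g, p.2.2.1 hw.2⟩ w' ⟨mem_iInter.1 hw'.1 g, p'.2.2.1 hw'.2⟩ c hg

/-! ### Functions -/

/-- An invariant function on `Y` as a function on the quotient. -/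
def qlift {β : Type} (F : Y → β) (hF : ∀ (g : G) y, F (g • y) = F y) : QY Y G → β :=
  Quotient.lift F (by
    rintro y y' ⟨g, hg⟩
    simp only at hg
    rw [← hg, hF])

theorem qlift_qm {β : Type} (F : Y → β) (hF : ∀ (g : G) y, F (g • y) = F y) (y : Y) :
    qlift F hF (qm y) = F y := rfl

theorem quot_γ (p : A.QI G) (z : E n) : (A.quot hA ht).γ p z = qm (A.γ p.1.1 z) := rfl

theorem quot_isSec_iff {k : ℕ} {F : QY Y G → ℂ} : (A.quot hA ht).IsSec k F ↔
    A.IsSec k fun y => F (qm y) := by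
  constructor
  · intro h
    refine ⟨fun c y => h.hom c (qm y), fun a z hz => ?_⟩
    obtain ⟨V, hzV, hV⟩ := hA.exists_small ht hz
    have h1 : DifferentiableAt ℂ (fun w => F (qm (A.γ a w))) z :=
      (h.hol ⟨(a, V), hV⟩).differentiableAt (hV.1.mem_nhds hzV)
    exact h1.differentiableWithinAt
  · intro h
    refine ⟨fun c y => ?_, fun p => (h.hol p.1.1).mono p.2.2.1⟩
    obtain ⟨y, rfl⟩ := exists_qm y
    exact h.hom c y

variable (G) in
/-- The invariant sections. -/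
def invSecs (A : PolAtlas n Y) (k : ℕ) : Submodule ℂ (Y → ℂ) where
  carrier := {F | A.IsSec k F ∧ ∀ (g : G) y, F (g • y) = F y}
  zero_mem' := ⟨(A.secs k).zero_mem, fun _ _ => rfl⟩
  add_mem' := by
    rintro F F' hF hF'
    exact ⟨(A.secs k).add_mem hF.1 hF'.1, fun g y => by
      rw [Pi.add_apply, Pi.add_apply, hF.2, hF'.2]⟩
  smul_mem' := by
    rintro c F hF
    exact ⟨(A.secs k).smul_mem c hF.1, fun g y => by rw [Pi.smul_apply, Pi.smul_apply, hF.2]⟩

theorem mem_invSecs {k : ℕ} {F : Y → ℂ} : F ∈ A.invSecs G k ↔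
    A.IsSec k F ∧ ∀ (g : G) y, F (g • y) = F y := Iff.rfl

/-- The sections on the quotient are the invariant sections. -/
def quotSecs (k : ℕ) : (A.quot hA ht).secs k ≃ₗ[ℂ] A.invSecs G k where
  toFun F := ⟨fun y => F.1 (qm y), (quot_isSec_iff hA ht).1 F.2,
    fun g y => congrArg F.1 (qm_smul g y)⟩
  invFun F := ⟨qlift F.1 F.2.2, (quot_isSec_iff hA ht).2 F.2.1⟩
  map_add' _ _ := rfl
  map_smul' _ _ := rfl
  left_inv F := by
    apply Subtype.ext
    funext y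
    obtain ⟨y, rfl⟩ := exists_qm y
    rfl
  right_inv _ := rfl

/-! ### Metrics -/

theorem quot_isKahler {H : QY Y G → ℝ} (h : (A.quot hA ht).IsKahler H) :
    A.IsKahler fun y => H (qm y) where
  pos y := h.pos _
  hom c y := h.hom c (qm y)
  smooth a := by
    intro z hz
    obtain ⟨V, hzV, hV⟩ := hA.exists_small ht hz
    have h1 : ContDiffOn ℝ ∞ (A.pot (fun y => H (qm y)) a) V := h.smooth ⟨(a, V), hV⟩
    exact (h1.contDiffAt (hV.1.mem_nhds hzV)).contDiffWithinAt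
  posDef a z hz := by
    obtain ⟨V, hzV, hV⟩ := hA.exists_small ht hz
    exact h.posDef ⟨(a, V), hV⟩ z hzV

theorem quot_isCsc {H : QY Y G → ℝ} {s : ℂ} (h : (A.quot hA ht).IsCsc H s) :
    A.IsCsc (fun y => H (qm y)) s := by
  intro a z hz
  obtain ⟨V, hzV, hV⟩ := hA.exists_small ht hz
  exact h ⟨(a, V), hV⟩ z hzV

/-! ### Vector fields -/

/-- A small neighbourhood. -/
def smallAt {a : A.ι} {z : E n} (hz : z ∈ A.U a) : A.QI G :=
  ⟨(a, (hA.exists_small ht hz).choose), (hA.exists_small ht hz).choose_spec.2⟩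

theorem mem_smallAt {a : A.ι} {z : E n} (hz : z ∈ A.U a) : z ∈ (smallAt hA ht hz).1.2 :=
  (hA.exists_small ht hz).choose_spec.1

theorem field_eq (W : (A.quot hA ht).HolField) {p p' : A.QI G} {z : E n} {f : E n → E n}
    (hz : z ∈ p.1.2) (hz' : f z ∈ p'.1.2) (hf : ContinuousAt f z)
    (h : ∀ᶠ w in 𝓝 z, ∃ (c : ℂˣ) (g : G), A.γ p'.1.1 (f w) = c • g • A.γ p.1.1 w) :
    W.W p' (f z) = fderiv ℂ f z (W.W p z) := by
  have h1 : ∀ᶠ w in 𝓝 z, w ∈ p.1.2 := p.2.1.mem_nhds hz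
  have h2 : ∀ᶠ w in 𝓝 z, f w ∈ p'.1.2 := hf (p'.2.1.mem_nhds hz')
  have h3 : (A.quot hA ht).τ p p' =ᶠ[𝓝 z] f := by
    filter_upwards [h, h1, h2] with w ⟨c, g, hw⟩ hw1 hw2
    exact (q_trans_eq hw2 (qrel_iff.2 ⟨g, hw⟩)).1
  have hO : z ∈ (A.quot hA ht).O p p' := by
    obtain ⟨c, g, hc⟩ := h.self_of_nhds
    exact ⟨hz, f z, hz', c, qrel_iff.2 ⟨g, hc⟩⟩
  have h4 := W.trans p p' z hO
  rw [h3.fderiv_eq, h3.self_of_nhds] at h4
  exact h4

open Classical in
/-- The pull-back of a vector field on the quotient. -/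
def pullW (W : (A.quot hA ht).HolField) (a : A.ι) (z : E n) : E n :=
  if hz : z ∈ A.U a then W.W (smallAt hA ht hz) z else 0

theorem pullW_eq (W : (A.quot hA ht).HolField) {p : A.QI G} {z : E n} (hz : z ∈ p.1.2) :
    pullW hA ht W p.1.1 z = W.W p z := by
  have hzU : z ∈ A.U p.1.1 := p.2.2.1 hz
  have h1 : pullW hA ht W p.1.1 z = W.W (smallAt hA ht hzU) z := dif_pos hzU
  rw [h1]
  have h2 := field_eq hA ht W (p := p) (p' := smallAt hA ht hzU) (z := z) (f := id) hz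
    (mem_smallAt hA ht hzU) continuousAt_id
    (Eventually.of_forall fun w => ⟨1, 1, by rw [one_smul, one_smul]; rfl⟩)
  rw [fderiv_id] at h2
  exact h2

theorem pullW_trans (W : (A.quot hA ht).HolField) {a b : A.ι} {z : E n} {f : E n → E n}
    (hz : z ∈ A.U a) (hz' : f z ∈ A.U b) (hf : ContinuousAt f z)
    (h : ∀ᶠ w in 𝓝 z, ∃ (c : ℂˣ) (g : G), A.γ b (f w) = c • g • A.γ a w) :
    pullW hA ht W b (f z) = fderiv ℂ f z (pullW hA ht W a z) := by
  have h1 := field_eq hA ht W (p := smallAt hA ht hz) (p' := smallAt hA ht hz') (z := z) (f := f)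
    (mem_smallAt hA ht hz) (mem_smallAt hA ht hz') hf h
  rw [← pullW_eq hA ht W (mem_smallAt hA ht hz), ← pullW_eq hA ht W (mem_smallAt hA ht hz')] at h1
  exact h1

/-- The pull-back of a vector field on the quotient. -/
def pullField (W : (A.quot hA ht).HolField) : A.HolField where
  W := pullW hA ht W
  hol a := by
    intro z hz
    apply DifferentiableAt.differentiableWithinAt
    obtain ⟨V, hzV, hV⟩ := hA.exists_small ht hz
    have h1 : DifferentiableAt ℂ (W.W ⟨(a, V), hV⟩) z :=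
      (W.hol ⟨(a, V), hV⟩).differentiableAt (hV.1.mem_nhds hzV)
    apply h1.congr_of_eventuallyEq
    filter_upwards [hV.1.mem_nhds hzV] with w hw
    exact pullW_eq hA ht W (p := ⟨(a, V), hV⟩) hw
  trans a b z hz := by
    apply pullW_trans hA ht W hz.1 (A.τ_mem hz)
      ((A.continuousOn_τ a b).continuousAt ((A.O_open a b).mem_nhds hz))
    filter_upwards [(A.O_open a b).mem_nhds hz] with w hw
    exact ⟨A.h a b w, 1, by rw [one_smul]; exact A.γ_τ hw⟩

/-- The pull-back of a vector field is invariant. -/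
theorem pullField_inv (W : (A.quot hA ht).HolField) (g : G) {a b : A.ι} {z : E n}
    {f : E n → E n} (hz : z ∈ A.U a) (hz' : f z ∈ A.U b) (hf : ContinuousAt f z)
    (h : ∀ᶠ w in 𝓝 z, ∃ c : ℂˣ, g • A.γ a w = c • A.γ b (f w)) :
    (pullField hA ht W).W b (f z) = fderiv ℂ f z ((pullField hA ht W).W a z) := by
  apply pullW_trans hA ht W hz hz' hf
  filter_upwards [h] with w ⟨c, hc⟩
  exact ⟨c⁻¹, g, by rw [hc, inv_smul_smul]⟩

theorem pullField_eq_zero {W : (A.quot hA ht).HolField}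
    (h : ∀ a, ∀ z ∈ A.U a, (pullField hA ht W).W a z = 0) (p : A.QI G) (z : E n)
    (hz : z ∈ p.1.2) : W.W p z = 0 := by
  rw [← pullW_eq hA ht W hz]
  exact h _ _ (p.2.2.1 hz)

end PolAtlas

end

end Pool.Agent.YTDA


end

/- source: Pool.Agent.YTDA.Amp -/

section

/-!
# Ampleness in terms of functions on `Y`
-/

namespace Pool.Agent.YTDA

open Complex Set Topology ContDiff Manifold ComplexOrder Module Filter Metric

noncomputable section

namespace PolAtlas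

variable {n : ℕ} {Y : Type} [MulAction ℂˣ Y] (A : PolAtlas n Y)

/-- The sections of degree `k` separate points and tangent vectors. -/
def Amp (k : ℕ) : Prop :=
  (∀ y, ∃ F, A.IsSec k F ∧ F y ≠ 0) ∧
  (∀ y y', (∀ c : ℂˣ, y' ≠ c • y) → ∃ F, A.IsSec k F ∧ F y = 0 ∧ F y' ≠ 0) ∧
  ∀ a, ∀ z ∈ A.U a, ∀ v : E n, v ≠ 0 → ∃ F, A.IsSec k F ∧ F (A.γ a z) = 0 ∧
    fderiv ℂ (fun w => F (A.γ a w)) z v ≠ 0

/-- The invariant sections of degree `k` separate orbits and tangent vectors. -/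
def AmpInv (G : Type) [Group G] [MulAction G Y] [SMulCommClass G ℂˣ Y] (k : ℕ) : Prop :=
  (∀ y, ∃ F ∈ A.invSecs G k, F y ≠ 0) ∧
  (∀ y y', (∀ (c : ℂˣ) (g : G), y' ≠ c • g • y) → ∃ F ∈ A.invSecs G k, F y = 0 ∧ F y' ≠ 0) ∧
  ∀ a, ∀ z ∈ A.U a, ∀ v : E n, v ≠ 0 → ∃ F ∈ A.invSecs G k, F (A.γ a z) = 0 ∧
    fderiv ℂ (fun w => F (A.γ a w)) z v ≠ 0

variable {A}

theorem AmpInv.quot {G : Type} [Group G] [MulAction G Y] [SMulCommClass G ℂˣ Y] [Finite G]
    {k : ℕ} (h : A.AmpInv G k) (hA : A.FreeAct G) (ht : A.IsT2) : (A.quot hA ht).Amp k := by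
  obtain ⟨h1, h2, h3⟩ := h
  refine ⟨fun y => ?_, fun y y' hy => ?_, fun p z hz v hv => ?_⟩
  · obtain ⟨y, rfl⟩ := exists_qm y
    obtain ⟨F, hF, hFy⟩ := h1 y
    exact ⟨qlift F hF.2, (quot_isSec_iff hA ht).2 hF.1, hFy⟩
  · obtain ⟨y, rfl⟩ := exists_qm y
    obtain ⟨y', rfl⟩ := exists_qm y'
    obtain ⟨F, hF, hFy, hFy'⟩ := h2 y y' (by
      intro c g hc
      apply hy c
      rw [hc, smul_qm, ← smul_comm g c, qm_smul])
    exact ⟨qlift F hF.2, (quot_isSec_iff hA ht).2 hF.1, hFy, hFy'⟩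
  · obtain ⟨F, hF, hFz, hFv⟩ := h3 p.1.1 z (p.2.2.1 hz) v hv
    exact ⟨qlift F hF.2, (quot_isSec_iff hA ht).2 hF.1, hFz, hFv⟩

theorem gg_par {a b : A.ι} {w : E n} (hw : w ∈ A.O b a) :
    A.gg a b (A.par b w) = A.h b a w := by
  unfold gg
  rw [A.co_par hw.1]

theorem locs_par_other {k : ℕ} {F : Y → ℂ} (hF : A.IsSec k F) {a b : A.ι} {w : E n}
    (hw : w ∈ A.O b a) : A.locs F a (A.par b w) = (A.h b a w : ℂ) ^ k * F (A.γ b w) := by
  have ha : A.par b w ∈ A.dom a := (A.mem_dom_par hw.1).2 hw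
  have hb : A.par b w ∈ A.dom b := A.par_mem hw.1
  rw [A.locs_of_mem F ha, A.γ_co ha hb, hF.hom, gg_par hw, A.co_par hw.1]

theorem Amp.isAmple {k : ℕ} (h : A.Amp k) (hk : 0 < k) : A.lb.IsAmple := by
  obtain ⟨h1, h2, h3⟩ := h
  refine ⟨k, hk, ?_, ?_, ?_⟩
  · intro (a : A.ι) (b : A.ι) x (hx : x ∈ A.dom a) y (hy : y ∈ A.dom b) hxy
    obtain ⟨F, hF, hFx, hFy⟩ := h2 (A.γ a (A.co a x)) (A.γ b (A.co b y)) (by
      intro c hc
      apply hxy
      have h4 : A.par b (A.co b y) = A.par a (A.co a x) := A.par_eq.2 ⟨c, hc⟩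
      rw [A.par_co hx, A.par_co hy] at h4
      exact h4.symm)
    refine ⟨A.locs F, A.locs_mem hF, ?_, ?_⟩
    · rw [A.locs_of_mem F hx]
      exact hFx
    · rw [A.locs_of_mem F hy]
      exact hFy
  · intro (a : A.ι) x (hx : x ∈ A.dom a)
    obtain ⟨F, hF, hFx⟩ := h1 (A.γ a (A.co a x))
    refine ⟨A.locs F, A.locs_mem hF, ?_⟩
    rw [A.locs_of_mem F hx]
    exact hFx
  · intro (a : A.ι) x (hx : x ∈ A.dom a) (v : E n) hv
    set b := A.ix x with hb
    have hxb : x ∈ A.dom b := A.mem_ix x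
    set z := A.co b x with hz
    have hzO : z ∈ A.O b a := A.co_mem_O hxb hx
    obtain ⟨F, hF, hFz, hFv⟩ := h3 b z (A.co_mem hxb) v hv
    refine ⟨A.locs F, A.locs_mem hF, ?_, ?_⟩
    · have h4 := locs_par_other hF hzO
      rw [A.par_co hxb] at h4
      rw [h4, hFz, mul_zero]
    · have hmd : MDifferentiableAt 𝓘(ℂ, E n) 𝓘(ℂ) (A.locs F a) x := by
        have h5 : MDifferentiableOn 𝓘(ℂ, E n) 𝓘(ℂ) (A.locs F a) (A.dom a) := (A.locs_mem hF).2.1 a
        exact h5.mdifferentiableAt ((A.isOpen_dom a).mem_nhds hx)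
      have h6 : mfderiv 𝓘(ℂ, E n) 𝓘(ℂ) (A.locs F a) x =
          fderiv ℂ (fun w => A.locs F a (A.par b w)) z := by
        rw [hmd.mfderiv]
        simp only [modelWithCornersSelf_coe, range_id, fderivWithin_univ]
        rfl
      have h7 : (fun w => A.locs F a (A.par b w)) =ᶠ[𝓝 z]
          fun w => (A.h b a w : ℂ) ^ k * F (A.γ b w) := by
        filter_upwards [(A.O_open b a).mem_nhds hzO] with w hw
        exact locs_par_other hF hw
      have h8 : DifferentiableAt ℂ (fun w => (A.h b a w : ℂ) ^ k) z :=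
        ((A.hol_h' b a).differentiableAt ((A.O_open b a).mem_nhds hzO)).pow k
      have h9 : DifferentiableAt ℂ (fun w => F (A.γ b w)) z :=
        (hF.hol b).differentiableAt ((A.isOpen_U b).mem_nhds hzO.1)
      have h10 : fderiv ℂ (fun w => A.locs F a (A.par b w)) z v =
          (A.h b a z : ℂ) ^ k * fderiv ℂ (fun w => F (A.γ b w)) z v := by
        rw [h7.fderiv_eq, fderiv_fun_mul h8 h9, hFz]
        show (A.h b a z : ℂ) ^ k * fderiv ℂ (fun w => F (A.γ b w)) z v +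
          0 * fderiv ℂ (fun w => (A.h b a w : ℂ) ^ k) z v = _
        rw [zero_mul, add_zero]
      intro h11
      have h12 : fderiv ℂ (fun w => A.locs F a (A.par b w)) z v = 0 := by
        rw [← h6]
        exact h11
      rw [h10] at h12
      exact mul_ne_zero (pow_ne_zero _ (A.h b a z).ne_zero) hFv h12

end PolAtlas

end

end Pool.Agent.YTDA


end

/- source: Pool.Agent.YTDA.Mfd4 -/

section

/-!
# A Kähler metric on the manifold of a polarized atlas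
-/

namespace Pool.Agent.YTDA

open Complex Set Topology ContDiff Manifold ComplexOrder Module Filter Pl

noncomputable section

namespace PolAtlas

variable {n : ℕ} {Y : Type} [MulAction ℂˣ Y] (A : PolAtlas n Y)

variable {A} in
/-- The metric on the line bundle given by a hermitian metric on `Y`. -/
def toKMetric {H : Y → ℝ} (hH : A.IsKahler H) : A.lb.KMetric where
  h (a : A.ι) x := (H (A.γ a (A.co a x)))⁻¹
  pos a x _ := inv_pos.2 (hH.pos _)
  smooth := by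
    intro (a : A.ι)
    have h1 : ContMDiffOn 𝓘(ℝ, E n) 𝓘(ℝ) ∞ (fun x => (H (A.γ a (A.co a x)))⁻¹) (A.dom a) := by
      rw [A.smooth_dom_iff]
      have h2 : ContDiffOn ℝ ∞ (fun z => Real.exp (-A.pot H a z)) (A.U a) := (hH.smooth a).neg.exp
      apply h2.congr
      intro z hz
      simp only [A.co_par hz]
      unfold pot
      rw [Real.exp_neg, Real.exp_log (hH.pos _)]
    exact h1
  trans := by
    intro (a : A.ι) (b : A.ι) x hx
    have hg : ‖(A.gg a b x : ℂ)‖ ≠ 0 := norm_ne_zero_iff.2 (A.gg a b x).ne_zero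
    have h1 : (H (A.γ b (A.co b x)))⁻¹ =
        ‖(A.gg a b x : ℂ)‖ ^ 2 * (H (A.γ a (A.co a x)))⁻¹ := by
      rw [A.γ_co hx.1 hx.2, hH.hom]
      have h0 := (hH.pos (A.γ b (A.co b x))).ne'
      field_simp
    exact h1
  posDef := by
    rintro (a : A.ι) φ ⟨b, rfl⟩ z (hz : z ∈ A.U b) (hza : A.par b z ∈ A.dom a)
    have hzO : z ∈ A.O b a := (A.mem_dom_par hz).1 hza
    have h1 : (fun w => -Real.log ((H (A.γ a (A.co a ((A.chart b).symm w))))⁻¹)) =ᶠ[𝓝 z]
        fun w => Real.log (‖(A.h b a w : ℂ)‖ ^ 2) + A.pot H b w := by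
      filter_upwards [(A.O_open b a).mem_nhds hzO] with w hw
      rw [A.chart_symm_apply, A.co_par' hw, A.γ_τ hw, hH.hom, Real.log_inv, neg_neg,
        Real.log_mul _ (hH.pos _).ne']
      · rfl
      · exact pow_ne_zero _ (norm_ne_zero_iff.2 (A.h b a w).ne_zero)
    rw [hess_congr h1]
    have h2 : SmNear (fun w => Real.log (‖(A.h b a w : ℂ)‖ ^ 2)) z := by
      apply SmNear.of_contDiffOn (A.O_open b a) _ hzO
      have h3 : ContDiffOn ℝ ∞ (fun w => (A.h b a w : ℂ)) (A.O b a) :=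
        Holo.contDiffOn_real (A.O_open b a) (A.hol_h' b a)
      apply ContDiffOn.log
      · exact h3.norm_sq ℝ
      · intro w _
        exact pow_ne_zero _ (norm_ne_zero_iff.2 (A.h b a w).ne_zero)
    have h4 : SmNear (A.pot H b) z := SmNear.of_contDiffOn (A.isOpen_U b) (hH.smooth b) hz
    rw [hess_add h2 h4, Pl.hess_log_norm (A.O_open b a) (A.hol_h' b a)
      (fun w _ => (A.h b a w).ne_zero) hzO, zero_add]
    exact hH.posDef b z hz

end PolAtlas

end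

end Pool.Agent.YTDA


end

/- source: Pool.Agent.YTDA.Inv3 -/

section

/-!
# Three commuting involutions generating a free action
-/

namespace Pool.Agent.YTDA

open Complex Set Topology ContDiff Manifold ComplexOrder Module Filter

noncomputable section

/-- The group `(ℤ/2)³`. -/
abbrev G3 : Type := Multiplicative (ZMod 2 × ZMod 2 × ZMod 2)

/-- The power of an involution. -/
def pw {Y : Type} (f : Y → Y) (i : ZMod 2) (y : Y) : Y := if i = 0 then y else f y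

theorem pw_zero {Y : Type} (f : Y → Y) (y : Y) : pw f 0 y = y := if_pos rfl

theorem pw_one {Y : Type} (f : Y → Y) (y : Y) : pw f 1 y = f y := if_neg one_ne_zero

theorem zmod2_cases (i : ZMod 2) : i = 0 ∨ i = 1 := by
  revert i
  decide

theorem pw_add {Y : Type} {f : Y → Y} (hf : ∀ y, f (f y) = y) (i j : ZMod 2) (y : Y) :
    pw f (i + j) y = pw f i (pw f j y) := by
  have h11 : (1 : ZMod 2) + 1 = 0 := by decide
  rcases zmod2_cases i with rfl | rfl <;> rcases zmod2_cases j with rfl | rfl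
  · rw [add_zero, pw_zero, pw_zero]
  · rw [zero_add, pw_zero]
  · rw [add_zero, pw_zero]
  · rw [h11, pw_zero, pw_one, pw_one, hf]

theorem pw_comm {Y : Type} {f g : Y → Y} (h : ∀ y, f (g y) = g (f y)) (i j : ZMod 2) (y : Y) :
    pw f i (pw g j y) = pw g j (pw f i y) := by
  rcases zmod2_cases i with rfl | rfl <;> rcases zmod2_cases j with rfl | rfl <;>
    simp only [pw_zero, pw_one, h]

theorem pw_smul {Y : Type} [MulAction ℂˣ Y] {f : Y → Y} (h : ∀ (c : ℂˣ) y, f (c • y) = c • f y)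
    (i : ZMod 2) (c : ℂˣ) (y : Y) : pw f i (c • y) = c • pw f i y := by
  rcases zmod2_cases i with rfl | rfl <;> simp only [pw_zero, pw_one, h]

/-- Three commuting involutions. -/
structure Inv3 (Y : Type) [MulAction ℂˣ Y] where
  e₁ : Y → Y
  e₂ : Y → Y
  e₃ : Y → Y
  smul₁ : ∀ (c : ℂˣ) y, e₁ (c • y) = c • e₁ y
  smul₂ : ∀ (c : ℂˣ) y, e₂ (c • y) = c • e₂ y
  smul₃ : ∀ (c : ℂˣ) y, e₃ (c • y) = c • e₃ y
  sq₁ : ∀ y, e₁ (e₁ y) = y
  sq₂ : ∀ y, e₂ (e₂ y) = y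
  sq₃ : ∀ y, e₃ (e₃ y) = y
  comm₁₂ : ∀ y, e₁ (e₂ y) = e₂ (e₁ y)
  comm₁₃ : ∀ y, e₁ (e₃ y) = e₃ (e₁ y)
  comm₂₃ : ∀ y, e₂ (e₃ y) = e₃ (e₂ y)

namespace Inv3

variable {Y : Type} [MulAction ℂˣ Y] (e : Inv3 Y)

/-- The action of the group. -/
@[reducible] def act : MulAction G3 Y where
  smul g y := pw e.e₁ g.toAdd.1 (pw e.e₂ g.toAdd.2.1 (pw e.e₃ g.toAdd.2.2 y))
  one_smul y := by
    show pw e.e₁ 0 (pw e.e₂ 0 (pw e.e₃ 0 y)) = y
    rw [pw_zero, pw_zero, pw_zero]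
  mul_smul g g' y := by
    show pw e.e₁ (g.toAdd.1 + g'.toAdd.1) (pw e.e₂ (g.toAdd.2.1 + g'.toAdd.2.1)
      (pw e.e₃ (g.toAdd.2.2 + g'.toAdd.2.2) y)) =
      pw e.e₁ g.toAdd.1 (pw e.e₂ g.toAdd.2.1 (pw e.e₃ g.toAdd.2.2
      (pw e.e₁ g'.toAdd.1 (pw e.e₂ g'.toAdd.2.1 (pw e.e₃ g'.toAdd.2.2 y)))))
    rw [pw_add e.sq₁, pw_add e.sq₂, pw_add e.sq₃,
      ← pw_comm e.comm₁₃ g'.toAdd.1 g.toAdd.2.2, ← pw_comm e.comm₂₃ g'.toAdd.2.1 g.toAdd.2.2,
      ← pw_comm e.comm₁₂ g'.toAdd.1 g.toAdd.2.1]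

theorem smul_def (g : G3) (y : Y) : (e.act.smul g y) =
    pw e.e₁ g.toAdd.1 (pw e.e₂ g.toAdd.2.1 (pw e.e₃ g.toAdd.2.2 y)) := rfl

/-- The subgroup acts freely on `Y / ℂˣ`. -/
structure Free : Prop where
  f₁ : ∀ y (c : ℂˣ), e.e₁ y ≠ c • y
  f₂ : ∀ y (c : ℂˣ), e.e₂ y ≠ c • y
  f₃ : ∀ y (c : ℂˣ), e.e₃ y ≠ c • y
  f₁₂ : ∀ y (c : ℂˣ), e.e₁ (e.e₂ y) ≠ c • y
  f₁₃ : ∀ y (c : ℂˣ), e.e₁ (e.e₃ y) ≠ c • y
  f₂₃ : ∀ y (c : ℂˣ), e.e₂ (e.e₃ y) ≠ c • y
  f₁₂₃ : ∀ y (c : ℂˣ), e.e₁ (e.e₂ (e.e₃ y)) ≠ c • y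

theorem commClass : @SMulCommClass G3 ℂˣ Y e.act.toSMul _ := by
  let _ := e.act
  refine ⟨fun g c y => ?_⟩
  show pw e.e₁ g.toAdd.1 (pw e.e₂ g.toAdd.2.1 (pw e.e₃ g.toAdd.2.2 (c • y))) =
    c • pw e.e₁ g.toAdd.1 (pw e.e₂ g.toAdd.2.1 (pw e.e₃ g.toAdd.2.2 y))
  rw [pw_smul e.smul₃, pw_smul e.smul₂, pw_smul e.smul₁]

theorem _root_.Pool.Agent.YTDA.IsHol.pw {n : ℕ} {A : PolAtlas n Y} {f : Y → Y} (hf : IsHol A A f)
    (i : ZMod 2) : IsHol A A (pw f i) := by
  rcases zmod2_cases i with rfl | rfl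
  · have : YTDA.pw f 0 = id := by
      funext y
      exact pw_zero f y
    rw [this]
    exact isHol_id A
  · have : YTDA.pw f 1 = f := by
      funext y
      exact pw_one f y
    rw [this]
    exact hf

variable {e} in
theorem Free.freeAct (he : e.Free) {n : ℕ} {A : PolAtlas n Y} (h₁ : IsHol A A e.e₁)
    (h₂ : IsHol A A e.e₂) (h₃ : IsHol A A e.e₃) :
    @PolAtlas.FreeAct n Y _ A G3 _ e.act := by
  let _ := e.act
  constructor
  · intro g a z hz
    have hg : IsHol A A fun y => pw e.e₁ g.toAdd.1 (pw e.e₂ g.toAdd.2.1 (pw e.e₃ g.toAdd.2.2 y)) :=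
      (h₁.pw _).comp ((h₂.pw _).comp (h₃.pw _))
    obtain ⟨b, z', hz', t, m, ht, hm, htz, hev⟩ := hg.loc a z hz
    have hev2 : ∀ᶠ w in 𝓝 z, AnalyticAt ℂ t w ∧ AnalyticAt ℂ (fun ζ => (m ζ : ℂ)) w ∧
        t w ∈ A.U b ∧ w ∈ A.U a ∧ A.γ b (t w) = m w • pw e.e₁ g.toAdd.1 (pw e.e₂ g.toAdd.2.1
          (pw e.e₃ g.toAdd.2.2 (A.γ a w))) := by
      filter_upwards [ht.eventually_analyticAt, hm.eventually_analyticAt,
        ht.continuousAt.eventually ((A.isOpen_U b).mem_nhds (by rw [htz]; exact hz')),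
        (A.isOpen_U a).mem_nhds hz, hev] with w h1 h2 h3 h4 h5
      exact ⟨h1, h2, h3, h4, h5⟩
    obtain ⟨O, hOs, hO, hzO⟩ := eventually_nhds_iff.1 hev2
    refine ⟨b, O, t, fun w => (m w)⁻¹, hO, hzO, fun w hw => (hOs w hw).2.2.2.1,
      fun w hw => (hOs w hw).1.differentiableAt.differentiableWithinAt, ?_,
      fun w hw => ⟨(hOs w hw).2.2.1, ?_⟩⟩
    · intro w hw
      have h6 := ((hOs w hw).2.1.differentiableAt.inv (m w).ne_zero)
      have h7 : (fun w => (((m w)⁻¹ : ℂˣ) : ℂ)) = fun w => ((m w : ℂ))⁻¹ := by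
        funext w
        exact Units.val_inv_eq_inv_val _
      rw [h7]
      exact h6.differentiableWithinAt
    · rw [(hOs w hw).2.2.2.2, inv_smul_smul]
      rfl
  · intro g y c h
    have h' : pw e.e₁ g.toAdd.1 (pw e.e₂ g.toAdd.2.1 (pw e.e₃ g.toAdd.2.2 y)) = c • y := h
    obtain ⟨⟨i, j, k⟩, rfl⟩ := Multiplicative.ofAdd.surjective g
    simp only [toAdd_ofAdd] at h'
    rcases zmod2_cases i with rfl | rfl <;> rcases zmod2_cases j with rfl | rfl <;>
      rcases zmod2_cases k with rfl | rfl <;> simp only [pw_zero, pw_one] at h'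
    · rfl
    · exact absurd h' (he.f₃ _ _)
    · exact absurd h' (he.f₂ _ _)
    · exact absurd h' (he.f₂₃ _ _)
    · exact absurd h' (he.f₁ _ _)
    · exact absurd h' (he.f₁₃ _ _)
    · exact absurd h' (he.f₁₂ _ _)
    · exact absurd h' (he.f₁₂₃ _ _)

/-- Invariance under the group. -/
theorem inv_iff {β : Type} (F : Y → β) : (∀ (g : G3) y, F (e.act.smul g y) = F y) ↔
    (∀ y, F (e.e₁ y) = F y) ∧ (∀ y, F (e.e₂ y) = F y) ∧ ∀ y, F (e.e₃ y) = F y := by
  constructor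
  · intro h
    refine ⟨fun y => ?_, fun y => ?_, fun y => ?_⟩
    · have := h (Multiplicative.ofAdd (1, 0, 0)) y
      rw [smul_def] at this
      simpa only [toAdd_ofAdd, pw_zero, pw_one] using this
    · have := h (Multiplicative.ofAdd (0, 1, 0)) y
      rw [smul_def] at this
      simpa only [toAdd_ofAdd, pw_zero, pw_one] using this
    · have := h (Multiplicative.ofAdd (0, 0, 1)) y
      rw [smul_def] at this
      simpa only [toAdd_ofAdd, pw_zero, pw_one] using this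
  · rintro ⟨h1, h2, h3⟩ g y
    have key : ∀ (f : Y → Y), (∀ y, F (f y) = F y) → ∀ i y, F (pw f i y) = F y := by
      intro f hf i y
      rcases zmod2_cases i with rfl | rfl
      · rw [pw_zero]
      · rw [pw_one, hf]
    rw [smul_def, key _ h1, key _ h2, key _ h3]

end Inv3

end

end Pool.Agent.YTDA


end

/- source: Pool.Agent.YTDA.DivM -/

section

/-!
The divergence theorem in the form used in the Bochner argument.
-/

namespace Pool.Agent.YTDA

open Complex Set Topology ContDiff MeasureTheory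

noncomputable section

namespace PolAtlas

variable {n : ℕ} {Y : Type} [MulAction ℂˣ Y]

theorem nonneg_div_succ {A : PolAtlas (n + 1) Y} (P : A.Part)
    (F : Y → ℝ) (h0 : ∀ y, 0 ≤ F y) (hF : ∀ (c : ℂˣ) y, F (c • y) = F y)
    (hcont : ∀ a, ContinuousOn (fun z => F (A.γ a z)) (A.U a))
    (ρ : A.ι → E (n + 1) → ℝ) (hρ : ∀ a, ContDiffOn ℝ ∞ (ρ a) (A.U a))
    (hρ0 : ∀ a, ∀ z ∈ A.U a, 0 < ρ a z)
    (hρt : ∀ a b, ∀ z ∈ A.O a b,
      ρ a z = ρ b (A.τ a b z) * ‖(fderiv ℂ (A.τ a b) z).det‖ ^ 2)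
    (Ξ : A.ι → E (n + 1) → E (n + 1)) (hΞ : ∀ a, ContDiffOn ℝ ∞ (Ξ a) (A.U a))
    (hΞt : ∀ a b, ∀ z ∈ A.O a b, Ξ b (A.τ a b z) = fderiv ℂ (A.τ a b) z (Ξ a z))
    (hdiv : ∀ a, ∀ z ∈ A.U a, ρ a z * F (A.γ a z) = rdiv' (fun w => (ρ a w : ℂ) • Ξ a w) z) :
    ∀ y, F y = 0 := by
  set W : A.ι → Fin (n + 1) → Fin (n + 1) → E (n + 1) → ℂ := fun _ _ _ _ => 0 with hW
  set R : A.ι → Fin (n + 1) → E (n + 1) → ℂ := fun a i z => (ρ a z : ℂ) * Ξ a z i with hR
  have hRs : ∀ a i, ContDiffOn ℝ ∞ (R a i) (A.U a) := fun a i =>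
    (ofRealCLM.contDiff.comp_contDiffOn (hρ a)).mul ((contDiffOn_pi.1 (hΞ a)) i)
  have hpol : ∀ a i z, Part.polar W R a i z = R a i z := by
    intro a i z
    simp only [Part.polar, hW, zero_div, Finset.sum_const_zero, zero_add]
  have hres := P.residue W R (fun a i j => contDiffOn_const)
    (fun a i => (hRs a i).of_le (by exact_mod_cast le_top)) (fun a b => by
      refine Filter.Eventually.of_forall fun z hz l => ?_
      simp only [hpol]
      have h1 : ∑ i, fderiv ℂ (A.τ a b) z (Pi.single i 1) l * R a i z =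
          (ρ a z : ℂ) * fderiv ℂ (A.τ a b) z (Ξ a z) l := by
        have h2 : Ξ a z = ∑ i, Ξ a z i • (Pi.single i (1 : ℂ) : E (n + 1)) := by
          ext i
          simp [Finset.sum_apply, Pi.single_apply]
        conv_rhs => rw [h2, map_sum, Finset.sum_apply, Finset.mul_sum]
        refine Finset.sum_congr rfl fun i _ => ?_
        rw [map_smul, Pi.smul_apply, smul_eq_mul, hR]
        ring
      rw [h1, ← hΞt a b z hz, hρt a b z hz]
      simp only [hR]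
      push_cast
      ring)
  have hzero : - (Real.pi : ℂ) * ∑ k, ∑ j, ∫ b : E n, (A.U (P.a k)).indicator
        (fun z => P.X k (P.a k) z * W (P.a k) j j z) (j.insertNth 0 b) = 0 := by
    simp only [hW, Set.indicator_zero, integral_zero, Finset.sum_const_zero, mul_zero]
  rw [hzero] at hres
  -- the divergence
  have hre : ∀ a, ∀ z ∈ A.U a, (Part.polarDiv W R a z).re = ρ a z * F (A.γ a z) / 2 := by
    intro a z hz
    have hd : DifferentiableAt ℝ (fun w => (ρ a w : ℂ) • Ξ a w) z := by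
      have h2 : ContDiffOn ℝ ∞ (fun w => (ρ a w : ℂ) • Ξ a w) (A.U a) :=
        (ofRealCLM.contDiff.comp_contDiffOn (hρ a)).smul (hΞ a)
      exact (h2.contDiffAt ((A.isOpen_U a).mem_nhds hz)).differentiableAt (by simp)
    rw [hdiv a z hz, rdiv'_eq hd]
    simp only [Part.polarDiv, Complex.re_sum, add_re]
    rw [Finset.sum_div]
    refine Finset.sum_congr rfl fun i _ => ?_
    have h3 : ∀ j, (dz i (W a i j) z / (starRingEnd ℂ) (z j)).re = 0 := by
      intro j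
      have : dz i (W a i j) z = 0 := by
        simp only [hW, dz]
        simp
      rw [this, zero_div, zero_re]
    simp only [h3, Finset.sum_const_zero, zero_add]
    rw [re_dz]
    rfl
  have hcd : ∀ a, ContinuousOn (Part.polarDiv W R a) (A.U a) := by
    intro a
    have h3 : ∀ z, Part.polarDiv W R a z = ∑ i, dz i (R a i) z := by
      intro z
      simp only [Part.polarDiv]
      refine Finset.sum_congr rfl fun i _ => ?_
      have : ∀ j, dz i (W a i j) z / (starRingEnd ℂ) (z j) = 0 := by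
        intro j
        have h4 : dz i (W a i j) z = 0 := by
          simp only [hW, dz]
          simp
        rw [h4, zero_div]
      simp only [this, Finset.sum_const_zero, zero_add]
    have h5 : Part.polarDiv W R a = fun z => ∑ i, dz i (R a i) z := funext h3
    rw [h5]
    exact continuousOn_finsetSum _ fun i _ =>
      continuousOn_dz (A.isOpen_U a) ((hRs a i).of_le (by exact_mod_cast le_top)) i
  have hint : ∀ k, IntegrableOn (fun z => P.X k (P.a k) z * Part.polarDiv W R (P.a k) z)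
      (A.U (P.a k)) := by
    intro k
    refine integrableOn_cut (A.isOpen_U _) (P.cpt k) (P.sub k)
      ((P.contDiffOn_X k _).continuousOn.mul (hcd _)) (fun z hz hz' => ?_)
    rw [P.X_zero k hz hz', zero_mul]
  have hterm : ∀ k, (∫ z in A.U (P.a k), P.X k (P.a k) z * Part.polarDiv W R (P.a k) z).re =
      ∫ z in A.U (P.a k), P.χ k (A.γ (P.a k) z) * (ρ (P.a k) z * F (A.γ (P.a k) z) / 2) := by
    intro k
    have h1 := integral_re (hint k)
    have h2 : (∫ z in A.U (P.a k), RCLike.re (P.X k (P.a k) z * Part.polarDiv W R (P.a k) z)) =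
        ∫ z in A.U (P.a k), P.χ k (A.γ (P.a k) z) * (ρ (P.a k) z * F (A.γ (P.a k) z) / 2) := by
      refine setIntegral_congr_fun (A.isOpen_U _).measurableSet fun z hz => ?_
      show (P.X k (P.a k) z * Part.polarDiv W R (P.a k) z).re = _
      rw [Part.X, re_ofReal_mul, hre _ z hz]
    rw [← h2]
    exact h1.symm
  have hnn : ∀ k z, 0 ≤ P.χ k (A.γ (P.a k) z) * (ρ (P.a k) z * F (A.γ (P.a k) z) / 2) ∨
      z ∉ A.U (P.a k) := by
    intro k z
    by_cases hz : z ∈ A.U (P.a k)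
    · left
      have h1 := P.nonneg k (A.γ (P.a k) z)
      have h2 := (hρ0 _ z hz).le
      have h3 := h0 (A.γ (P.a k) z)
      positivity
    · right
      exact hz
  have hnn' : ∀ k, 0 ≤ ∫ z in A.U (P.a k),
      P.χ k (A.γ (P.a k) z) * (ρ (P.a k) z * F (A.γ (P.a k) z) / 2) := fun k =>
    setIntegral_nonneg (A.isOpen_U _).measurableSet fun z hz =>
      (hnn k z).resolve_right (not_not.2 hz)
  have hsum : ∑ k, ∫ z in A.U (P.a k),
      P.χ k (A.γ (P.a k) z) * (ρ (P.a k) z * F (A.γ (P.a k) z) / 2) = 0 := by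
    simp_rw [← hterm]
    rw [← Complex.re_sum, hres, zero_re]
  have hall := (Finset.sum_eq_zero_iff_of_nonneg fun k _ => hnn' k).1 hsum
  have hcont' : ∀ k, ContinuousOn (fun z => P.χ k (A.γ (P.a k) z) *
      (ρ (P.a k) z * F (A.γ (P.a k) z) / 2)) (A.U (P.a k)) := fun k =>
    (P.smooth k _).continuousOn.mul ((((hρ _).continuousOn).mul (hcont _)).div_const 2)
  have hpt : ∀ k, ∀ z ∈ A.U (P.a k), P.χ k (A.γ (P.a k) z) *
      (ρ (P.a k) z * F (A.γ (P.a k) z) / 2) = 0 := by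
    intro k
    have hi : IntegrableOn (fun z => P.χ k (A.γ (P.a k) z) *
        (ρ (P.a k) z * F (A.γ (P.a k) z) / 2)) (A.U (P.a k)) := by
      have h1 : IntegrableOn (fun z => (P.X k (P.a k) z * Part.polarDiv W R (P.a k) z).re)
          (A.U (P.a k)) := (hint k).re
      refine h1.congr_fun (fun z hz => ?_) (A.isOpen_U _).measurableSet
      show (P.X k (P.a k) z * Part.polarDiv W R (P.a k) z).re = _
      rw [Part.X, re_ofReal_mul, hre _ z hz]
    have h2 := (setIntegral_eq_zero_iff_of_nonneg_ae ((ae_restrict_iff'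
      (A.isOpen_U _).measurableSet).2 (Filter.Eventually.of_forall fun z hz =>
        (hnn k z).resolve_right (not_not.2 hz))) hi).1 (hall k (Finset.mem_univ k))
    intro z hz
    exact MeasureTheory.Measure.eqOn_open_of_ae_eq h2 (A.isOpen_U _) (hcont' k)
      continuousOn_const hz
  intro y
  by_contra hne
  have hsy := P.sum y
  have hk : ∃ k, P.χ k y ≠ 0 := by
    by_contra hcon
    push Not at hcon
    rw [Finset.sum_eq_zero fun k _ => hcon k] at hsy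
    exact zero_ne_one hsy
  obtain ⟨k, hk⟩ := hk
  obtain ⟨z, hz, c, rfl⟩ := P.supp k y hk
  have hzU := P.sub k hz
  have h1 := hpt k z hzU
  rw [P.inv] at hk
  rw [hF] at hne
  have h2 := (hρ0 _ z hzU).ne'
  rcases mul_eq_zero.1 h1 with h3 | h3
  · exact hk h3
  · rw [div_eq_zero_iff, or_iff_left two_ne_zero] at h3
    rcases mul_eq_zero.1 h3 with h4 | h4
    · exact h2 h4
    · exact hne h4

end PolAtlas

end

end Pool.Agent.YTDA


end

/- source: Pool.Agent.YTDA.HolC -/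

section

/-!
# Holomorphic functions on an analytic curve are constant

`AnCurve.holConst`: `HolConst` for every analytic structure on a curve satisfying Riemann-Roch.
-/

namespace Pool.Agent.YTDA

open Complex Set Topology Metric Filter Module
open Pool.Agent.YTD

noncomputable section

namespace AnCurve

variable {K : Type} [Field K] [Algebra ℂ K] {X : CurveOrd K} (An : AnCurve X)

/-- A function which is continuous in all discs attains its maximum. -/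
theorem exists_max [Nonempty X.Pt] (φ : X.Pt → ℝ)
    (hφ : ∀ P, ContinuousOn (fun s => φ (An.c P s)) (ball 0 (An.r P))) :
    ∃ Q, ∀ P, φ P ≤ φ Q := by
  classical
  obtain ⟨F, hF⟩ := An.cpt (fun P => An.r P / 2) (fun P => half_pos (An.r_pos P))
  have hmax : ∀ P, ∃ s₀ : ℂ, ‖s₀‖ ≤ An.r P / 2 ∧ ∀ s : ℂ, ‖s‖ ≤ An.r P / 2 →
      φ (An.c P s) ≤ φ (An.c P s₀) := by
    intro P
    have hsub : closedBall (0 : ℂ) (An.r P / 2) ⊆ ball 0 (An.r P) :=
      closedBall_subset_ball (half_lt_self (An.r_pos P))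
    obtain ⟨s₀, hs₀, h⟩ := (isCompact_closedBall (0 : ℂ) (An.r P / 2)).exists_isMaxOn
      ⟨0, mem_closedBall_self (half_pos (An.r_pos P)).le⟩ ((hφ P).mono hsub)
    refine ⟨s₀, mem_closedBall_zero_iff.1 hs₀, fun s hs => h (mem_closedBall_zero_iff.2 hs)⟩
  choose m hm1 hm2 using hmax
  have hne : F.Nonempty := by
    obtain ⟨Q⟩ := ‹Nonempty X.Pt›
    obtain ⟨P, hP, -⟩ := hF Q
    exact ⟨P, hP⟩
  obtain ⟨P₀, hP₀, h₀⟩ := F.exists_max_image (fun P => φ (An.c P (m P))) hne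
  refine ⟨An.c P₀ (m P₀), fun Q => ?_⟩
  obtain ⟨P, hP, s, hs, rfl⟩ := hF Q
  exact (hm2 P s hs.le).trans (h₀ P hP)

/-- Maximum principle: at a maximum of the norm a holomorphic function is constant in the disc. -/
theorem const_of_max {G : X.Pt → ℂ}
    (hG : ∀ P, DifferentiableOn ℂ (fun s => G (An.c P s)) (ball 0 (An.r P))) {Q : X.Pt}
    (hQ : ∀ P, ‖G P‖ ≤ ‖G Q‖) {s : ℂ} (hs : s ∈ ball 0 (An.r Q)) : G (An.c Q s) = G Q := by
  have h1 : IsMaxOn (norm ∘ fun s => G (An.c Q s)) (ball 0 (An.r Q)) 0 := by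
    intro σ _
    show ‖G (An.c Q σ)‖ ≤ ‖G (An.c Q 0)‖
    rw [An.c_zero]
    exact hQ _
  have h2 := Complex.eqOn_of_isPreconnected_of_isMaxOn_norm
    (convex_ball (0 : ℂ) (An.r Q)).isPreconnected isOpen_ball (hG Q)
    (mem_ball_self (An.r_pos Q)) h1 hs
  simp only [Function.const_apply] at h2
  rw [An.c_zero] at h2
  exact h2

/-- `A` is open and closed -/
def Clop (A : Set X.Pt) : Prop := ∀ P, ∀ s ∈ ball (0 : ℂ) (An.r P), (An.c P s ∈ A ↔ P ∈ A)

variable {An}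

theorem Clop.iff {A : Set X.Pt} (hA : An.Clop A) {P Q : X.Pt} {s s' : ℂ}
    (hs : s ∈ ball (0 : ℂ) (An.r P)) (hs' : s' ∈ ball (0 : ℂ) (An.r Q))
    (h : An.c P s = An.c Q s') : P ∈ A ↔ Q ∈ A := by
  rw [← hA P s hs, ← hA Q s' hs', h]

theorem clop_of_locally {A : Set X.Pt}
    (h1 : ∀ P ∈ A, ∀ᶠ s in 𝓝 (0 : ℂ), An.c P s ∈ A)
    (h2 : ∀ P, P ∉ A → ∀ᶠ s in 𝓝 (0 : ℂ), An.c P s ∉ A) : An.Clop A := by
  have key : ∀ B : Set X.Pt, (∀ P ∈ B, ∀ᶠ s in 𝓝 (0 : ℂ), An.c P s ∈ B) → ∀ P,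
      IsOpen {s | s ∈ ball (0 : ℂ) (An.r P) ∧ An.c P s ∈ B} := by
    intro B hB P
    rw [isOpen_iff_mem_nhds]
    rintro s ⟨hs, hsB⟩
    obtain ⟨f, hf, hfs, -, hfc, -⟩ := An.tr P (An.c P s) s hs 0 (mem_ball_zero _)
      (An.c_zero _).symm
    have h3 : Tendsto f (𝓝 s) (𝓝 0) := by
      have := hf.continuousAt.tendsto
      rwa [hfs] at this
    filter_upwards [isOpen_ball.mem_nhds hs, h3.eventually (hB _ hsB), hfc] with σ h4 h5 h6
    rw [h6] at h5
    exact ⟨h4, h5⟩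
  intro P s hs
  have hconn : IsPreconnected (ball (0 : ℂ) (An.r P)) := (convex_ball _ _).isPreconnected
  have o1 := key A h1 P
  have o2 := key Aᶜ h2 P
  have hcov : ball (0 : ℂ) (An.r P) ⊆ {s | s ∈ ball (0 : ℂ) (An.r P) ∧ An.c P s ∈ A} ∪
      {s | s ∈ ball (0 : ℂ) (An.r P) ∧ An.c P s ∈ Aᶜ} := by
    intro σ hσ
    by_cases h : An.c P σ ∈ A
    · exact Or.inl ⟨hσ, h⟩
    · exact Or.inr ⟨hσ, h⟩
  by_contra hne
  have h0 : (0 : ℂ) ∈ ball (0 : ℂ) (An.r P) := mem_ball_zero P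
  have hboth : (ball (0 : ℂ) (An.r P) ∩ {s | s ∈ ball (0 : ℂ) (An.r P) ∧ An.c P s ∈ A}).Nonempty ∧
      (ball (0 : ℂ) (An.r P) ∩ {s | s ∈ ball (0 : ℂ) (An.r P) ∧ An.c P s ∈ Aᶜ}).Nonempty := by
    by_cases h : P ∈ A
    · have h3 : An.c P s ∉ A := fun h' => hne ⟨fun _ => h, fun _ => h'⟩
      exact ⟨⟨0, h0, h0, by rw [An.c_zero]; exact h⟩, ⟨s, hs, hs, h3⟩⟩
    · have h3 : An.c P s ∈ A := by
        by_contra h'
        exact hne ⟨fun h'' => absurd h'' h', fun h'' => absurd h'' h⟩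
      exact ⟨⟨s, hs, hs, h3⟩, ⟨0, h0, h0, by rw [An.c_zero]; exact h⟩⟩
  obtain ⟨σ, -, ⟨-, h4⟩, ⟨-, h5⟩⟩ := hconn _ _ o1 o2 hcov hboth.1 hboth.2
  exact h5 h4

/-- A rational function which is constant near a point is constant. -/
theorem eq_const_of_eventually {z : K} {P : X.Pt} {a : ℂ}
    (h : An.fn P z =ᶠ[𝓝[≠] 0] fun _ => a) : z = algebraMap ℂ K a := by
  by_contra hne
  have h0 : z + algebraMap ℂ K (-a) ≠ 0 := by
    rw [map_neg, ← sub_eq_add_neg]
    exact sub_ne_zero.2 hne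
  have h1 := An.ord_fn P h0
  have h2 : An.fn P (z + algebraMap ℂ K (-a)) =ᶠ[𝓝[≠] 0] 0 := by
    filter_upwards [An.fn_add P z (algebraMap ℂ K (-a)) 0 (mem_ball_zero P),
      An.fn_const P (-a) 0 (mem_ball_zero P), h] with σ h3 h4 h5
    rw [h3, Pi.add_apply, h4, h5, Pi.zero_apply]
    ring
  rw [meromorphicOrderAt_eq_top_iff.2 h2] at h1
  exact WithTop.top_ne_coe h1

/-- the family which is `z` on `B` and zero off `B` is meromorphic if `B` is open and closed -/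
theorem MerFam.restrict {B : Set X.Pt} [DecidablePred (· ∈ B)] (hB : An.Clop B) (z : K) :
    An.MerFam fun P => if P ∈ B then An.fn P z else 0 where
  mero P := by
    by_cases h : P ∈ B
    · rw [if_pos h]
      exact An.fn_mero P z
    · rw [if_neg h]
      exact MeromorphicOn.const 0
  tr P Q s hs s' hs' hc f hf hfs hf' hfc := by
    have h1 := hB.iff hs hs' hc
    by_cases h : P ∈ B
    · rw [if_pos h, if_pos (h1.1 h)]
      exact (merFam_fn z).tr P Q s hs s' hs' hc f hf hfs hf' hfc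
    · rw [if_neg h, if_neg (fun h' => h (h1.2 h'))]
      exact Eventually.of_forall fun _ => rfl

end AnCurve

open AnCurve in
/-- T6 (a): everywhere holomorphic functions are constant. -/
theorem AnCurve.holConst {K : Type} [Field K] [Algebra ℂ K] {X : Curve K}
    (An : AnCurve X.toCurveOrd) : An.HolConst := by
  classical
  intro G hG
  rcases isEmpty_or_nonempty X.Pt with hE | hN
  · exact ⟨0, fun P => (hE.false P).elim⟩
  obtain ⟨Q₀, hQ₀⟩ := An.exists_max (fun P => ‖G P‖) (fun P => (hG P).continuousOn.norm)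
  refine ⟨G Q₀, ?_⟩
  by_contra hcon
  push Not at hcon
  obtain ⟨Q₁, hQ₁⟩ := hcon
  set A : Set X.Pt := {P | G P = G Q₀} with hA
  have hclop : An.Clop A := by
    apply clop_of_locally
    · intro P hP
      have hmax : ∀ Q, ‖G Q‖ ≤ ‖G P‖ := fun Q => by rw [show G P = G Q₀ from hP]; exact hQ₀ Q
      filter_upwards [isOpen_ball.mem_nhds (mem_ball_zero (An := An) P)] with s hs
      exact (An.const_of_max hG hmax hs).trans hP
    · intro P hP
      have h1 : ContinuousAt (fun s => G (An.c P s)) 0 :=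
        ((hG P).differentiableAt (isOpen_ball.mem_nhds (mem_ball_zero P))).continuousAt
      have h2 : (fun s => G (An.c P s)) 0 ≠ G Q₀ := by
        show G (An.c P 0) ≠ G Q₀
        rw [An.c_zero]
        exact hP
      exact h1.eventually_ne h2
  have hclop' : An.Clop Aᶜ := by
    intro P s hs
    rw [mem_compl_iff, mem_compl_iff, hclop P s hs]
  -- a rational function with poles only at `Q₀`
  set D : X.Pt →₀ ℤ := Finsupp.single Q₀ (2 * (X.genus : ℤ) + 1) with hD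
  have hdeg : X.deg D = 2 * (X.genus : ℤ) + 1 := X.deg_single _ _
  have := X.finite_L Q₀ D
  have hrr := X.riemann_roch D (by rw [hdeg]; linarith)
  obtain ⟨z, hz, hzc⟩ : ∃ z ∈ X.L D, ∀ a : ℂ, z ≠ algebraMap ℂ K a := by
    by_contra h
    push Not at h
    have h1 : X.L D ≤ Submodule.span ℂ {(1 : K)} := by
      intro z hz
      obtain ⟨a, ha⟩ := h z hz
      rw [ha, Submodule.mem_span_singleton]
      exact ⟨a, by rw [Algebra.smul_def, mul_one]⟩
    have h2 := Submodule.finrank_mono h1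
    have h3 : finrank ℂ (Submodule.span ℂ ({1} : Set K)) ≤ 1 := by
      have := finrank_span_le_card (R := ℂ) ({1} : Set K)
      simpa using this
    have h4 : (finrank ℂ (X.L D) : ℤ) ≤ 1 := by exact_mod_cast h2.trans h3
    rw [hrr, hdeg] at h4
    have := Int.natCast_nonneg X.genus
    linarith
  have hz0 : z ≠ 0 := by
    intro h
    exact hzc 0 (by rw [h, map_zero])
  have hgm := MerFam.restrict (An := An) hclop' z
  have hg0 : ∀ P, 0 ≤ meromorphicOrderAt ((fun P => if P ∈ Aᶜ then An.fn P z else 0) P) 0 := by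
    intro P
    by_cases h : P ∈ Aᶜ
    · simp only [if_pos h]
      rw [An.ord_fn P hz0]
      have h1 := hz hz0 P
      have hne : Q₀ ≠ P := by
        rintro rfl
        exact h rfl
      rw [hD, Finsupp.single_eq_of_ne hne.symm, add_zero] at h1
      exact_mod_cast h1
    · simp only [if_neg h]
      have h1 : meromorphicOrderAt (0 : ℂ → ℂ) 0 = ⊤ :=
        meromorphicOrderAt_eq_top_iff.2 (Eventually.of_forall fun _ => rfl)
      rw [h1]
      exact le_top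
  set g : X.Pt → ℂ → ℂ := fun P => if P ∈ Aᶜ then An.fn P z else 0 with hg
  set G' : X.Pt → ℂ := fun Q => limUnder (𝓝[≠] (0 : ℂ)) (g Q) with hG'
  have hdiff : ∀ P, DifferentiableOn ℂ (fun s => G' (An.c P s)) (ball 0 (An.r P)) :=
    hgm.differentiableOn_val hg0
  -- near a point of the complement, `G'` is given by `z`
  have hval : ∀ Q ∈ Aᶜ, ∀ a : ℂ, (∀ s ∈ ball 0 (An.r Q), G' (An.c Q s) = a) → False := by
    intro Q hQ a ha
    apply hzc a
    apply eq_const_of_eventually (An := An) (P := Q)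
    have hgQ : g Q = An.fn Q z := by
      rw [hg]
      simp only [if_pos hQ]
    have hev : ∀ᶠ σ in 𝓝[≠] (0 : ℂ), AnalyticAt ℂ (g Q) σ ∧ σ ∈ ball 0 (An.r Q) :=
      ((hgm.mero Q 0 (mem_ball_zero Q)).eventually_analyticAt).and
        (nhdsWithin_le_nhds (isOpen_ball.mem_nhds (mem_ball_zero Q)))
    filter_upwards [hev] with σ hσ
    rw [← hgQ]
    have h1 := tendsto_nhds_unique (hgm.tendsto_val hg0 Q hσ.2)
      (hσ.1.continuousAt.tendsto.mono_left nhdsWithin_le_nhds)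
    have h2 := ha σ hσ.2
    rw [hG'] at h2
    simp only at h2
    exact h1.symm.trans h2
  obtain ⟨R, hR⟩ := An.exists_max (fun P => ‖G' P‖) (fun P => (hdiff P).continuousOn.norm)
  by_cases hRA : R ∈ Aᶜ
  · exact hval R hRA (G' R) (fun s hs => An.const_of_max hdiff hR hs)
  · have hR0 : G' R = 0 := by
      rw [hG', hg]
      simp only [if_neg hRA]
      exact (tendsto_const_nhds (x := (0 : ℂ)) (f := 𝓝[≠] (0 : ℂ))).limUnder_eq
    have hz' : ∀ P, G' P = 0 := by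
      intro P
      have h1 : ‖G' P‖ ≤ ‖G' R‖ := hR P
      rw [hR0, norm_zero] at h1
      exact norm_le_zero_iff.1 h1
    exact hval Q₁ hQ₁ 0 (fun s _ => hz' _)

end

end Pool.Agent.YTDA


end

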