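import Pool.Agent.YTDM.P40

/- source: Pool.Agent.YTDA.FS -/

section

/-!
# Fubini-Study potentials

For holomorphic functions `F a` without common zero which separate tangent vectors, the function
`log (∑ ‖F a‖²)` is smooth and its complex Hessian is positive definite.
-/

namespace Pool.Agent.YTDA

open Complex Set Topology ContDiff ComplexOrder TopologicalSpace

noncomputable section

variable {n : ℕ} {Ω : Opens (E n)}

/-- the element of the ring of smooth functions given by a holomorphic function -/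
def ofHol (f : E n → ℂ) (hf : DifferentiableOn ℂ f Ω) : Sm Ω :=
  ofFn f (contDiffOn_real_of_differentiableOn Ω.isOpen hf)

theorem ofHol_apply (f : E n → ℂ) (hf : DifferentiableOn ℂ f Ω) (z : Ω) :
    (ofHol f hf).1 z = f z := rfl

theorem dzbD_ofHol (f : E n → ℂ) (hf : DifferentiableOn ℂ f Ω) (i : Fin n) :
    dzbD i (ofHol f hf) = 0 := by
  apply Sm.ext'
  intro z
  unfold ofHol
  rw [dzbD_ofFn, dzb_eq_zero ((hf z z.2).differentiableAt (Ω.isOpen.mem_nhds z.2))]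
  rfl

theorem dzD_ofHol (f : E n → ℂ) (hf : DifferentiableOn ℂ f Ω) (i : Fin n) (z : Ω) :
    (dzD i (ofHol f hf)).1 z = fderiv ℂ f z (Pi.single i 1) := by
  unfold ofHol
  rw [dzD_ofFn, dz_eq_fderiv ((hf z z.2).differentiableAt (Ω.isOpen.mem_nhds z.2))]

theorem dzD_star_ofHol (f : E n → ℂ) (hf : DifferentiableOn ℂ f Ω) (i : Fin n) :
    dzD i (star (ofHol f hf)) = 0 := by
  rw [← star_dzbD, dzbD_ofHol, star_zero]

/-- the entries of the complex Hessian in the ring of smooth functions -/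
theorem dzD_dzbD_ofR (φ : E n → ℝ) (hφ : ContDiffOn ℝ ∞ φ Ω) (i j : Fin n) (z : Ω) :
    (dzD i (dzbD j (ofR φ hφ))).1 z = hess φ z i j := by
  rw [dzD_apply]
  unfold hess
  apply dz_congr
  refine Filter.eventuallyEq_of_mem (Ω.isOpen.mem_nhds z.2) fun w hw => ?_
  rw [ext_mk _ hw]
  exact dzbD_ofFn j _ _ ⟨w, hw⟩

section FS

variable {α : Type*} [Fintype α] (F : α → E n → ℂ) (hF : ∀ a, DifferentiableOn ℂ (F a) Ω)

/-- `∑ F_a * conj F_a` -/
def fsS : Sm Ω := ∑ a, ofHol (F a) (hF a) * star (ofHol (F a) (hF a))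

theorem fsS_apply (z : Ω) : (fsS F hF).1 z = ((∑ a, ‖F a z‖ ^ 2 : ℝ) : ℂ) := by
  unfold fsS
  rw [Sm.sum_apply]
  push_cast
  refine Finset.sum_congr rfl fun a _ => ?_
  rw [Sm.mul_apply, star_apply, ofHol_apply, mul_conj']

theorem fs_pos {F : α → E n → ℂ} {z : E n} (h0 : ∃ a, F a z ≠ 0) : 0 < ∑ a, ‖F a z‖ ^ 2 := by
  obtain ⟨a, ha⟩ := h0
  exact Finset.sum_pos' (fun _ _ => by positivity) ⟨a, Finset.mem_univ _, by positivity⟩

theorem dzD_fsS (i : Fin n) : dzD i (fsS F hF) =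
    ∑ a, dzD i (ofHol (F a) (hF a)) * star (ofHol (F a) (hF a)) := by
  unfold fsS
  rw [map_sum]
  refine Finset.sum_congr rfl fun a _ => ?_
  rw [Derivation.leibniz, dzD_star_ofHol, smul_zero, zero_add, smul_eq_mul, mul_comm]

theorem dzbD_fsS (j : Fin n) : dzbD j (fsS F hF) =
    ∑ a, ofHol (F a) (hF a) * star (dzD j (ofHol (F a) (hF a))) := by
  unfold fsS
  rw [map_sum]
  refine Finset.sum_congr rfl fun a _ => ?_
  rw [Derivation.leibniz, dzbD_ofHol, smul_zero, add_zero, smul_eq_mul, star_dzD]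

theorem dzD_dzbD_fsS (i j : Fin n) : dzD i (dzbD j (fsS F hF)) =
    ∑ a, dzD i (ofHol (F a) (hF a)) * star (dzD j (ofHol (F a) (hF a))) := by
  rw [dzbD_fsS, map_sum]
  refine Finset.sum_congr rfl fun a _ => ?_
  have h1 : dzD i (star (dzD j (ofHol (F a) (hF a)))) = 0 := by
    rw [← star_dzbD, ← dzD_dzbD_comm, dzbD_ofHol, map_zero, star_zero]
  rw [Derivation.leibniz, h1, smul_zero, zero_add, smul_eq_mul, mul_comm]

end FS

section Main

variable {α : Type*} [Fintype α] {F : α → E n → ℂ} {U : Set (E n)}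

theorem contDiffOn_fs (hU : IsOpen U) (hF : ∀ a, DifferentiableOn ℂ (F a) U)
    (h0 : ∀ z ∈ U, ∃ a, F a z ≠ 0) (c : ℝ) :
    ContDiffOn ℝ ∞ (fun w => c * Real.log (∑ a, ‖F a w‖ ^ 2)) U := by
  have h1 : ContDiffOn ℝ ∞ (fun w => ∑ a, ‖F a w‖ ^ 2) U :=
    ContDiffOn.sum fun a _ => (contDiffOn_real_of_differentiableOn hU (hF a)).norm_sq ℝ
  exact contDiffOn_const.mul (h1.log fun z hz => (fs_pos (h0 z hz)).ne')

/-- The complex Hessian of `c log ∑ ‖F a‖²`. -/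
theorem hess_fs (hU : IsOpen U) (hF : ∀ a, DifferentiableOn ℂ (F a) U)
    (h0 : ∀ z ∈ U, ∃ a, F a z ≠ 0) (c : ℝ) {z : E n} (hz : z ∈ U) (i j : Fin n) :
    (((∑ a, ‖F a z‖ ^ 2 : ℝ) : ℂ)) ^ 2 *
      hess (fun w => c * Real.log (∑ a, ‖F a w‖ ^ 2)) z i j =
      c * (((∑ a, ‖F a z‖ ^ 2 : ℝ) : ℂ) * (∑ a, fderiv ℂ (F a) z (Pi.single i 1) *
        (starRingEnd ℂ) (fderiv ℂ (F a) z (Pi.single j 1))) -
      (∑ a, fderiv ℂ (F a) z (Pi.single i 1) * (starRingEnd ℂ) (F a z)) *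
        ∑ a, F a z * (starRingEnd ℂ) (fderiv ℂ (F a) z (Pi.single j 1))) := by
  obtain ⟨Ω, rfl⟩ : ∃ Ω : Opens (E n), (Ω : Set (E n)) = U := ⟨⟨U, hU⟩, rfl⟩
  have hpos : ∀ w : Ω, 0 < (fsS F hF).1 w := fun w => by
    rw [fsS_apply]
    exact_mod_cast fs_pos (h0 w w.2)
  have hcd := contDiffOn_fs hU hF h0 c
  have e1 : ofR (fun w => c * Real.log (∑ a, ‖F a w‖ ^ 2)) hcd =
      (c : ℂ) • logS (fsS F hF) hpos := by
    apply Sm.ext'
    intro w
    rw [ofR_apply, Sm.smul_apply, logS_apply, fsS_apply, ofReal_re]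
    push_cast
    ring
  have e2 := dzD_dzbD_ofR _ hcd i j ⟨z, hz⟩
  rw [e1, Derivation.map_smul, Derivation.map_smul, Sm.smul_apply] at e2
  rw [← e2]
  set S := fsS F hF with hS
  set L := logS S hpos with hL
  have e3 : S * dzbD j L = dzbD j S := mul_DS_logS (dzbD_mem_DS j) S hpos
  have e4 : S * dzD i L = dzD i S := mul_DS_logS (dzD_mem_DS i) S hpos
  have e5 : dzD i (dzbD j S) = S * dzD i (dzbD j L) + dzbD j L * dzD i S := by
    rw [← e3, Derivation.leibniz, smul_eq_mul, smul_eq_mul]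
  have e6 : S ^ 2 * dzD i (dzbD j L) = S * dzD i (dzbD j S) - dzD i S * dzbD j S := by
    rw [e5, ← e3]
    ring
  have e7 := congrArg (fun f : Sm Ω => f.1 ⟨z, hz⟩) e6
  simp only [Sm.mul_apply, Sm.sub_apply, Sm.pow_apply] at e7
  rw [dzD_dzbD_fsS, dzD_fsS, dzbD_fsS, hS, fsS_apply] at e7
  simp only [Sm.sum_apply, Sm.mul_apply, star_apply, dzD_ofHol, ofHol_apply] at e7
  rw [← mul_assoc, mul_comm _ (c : ℂ), mul_assoc, e7]

/-- `log ∑ ‖F a‖²` has positive definite complex Hessian if the functions have no common zero and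
separate tangent vectors. -/
theorem hess_fs_posDef (hU : IsOpen U) (hF : ∀ a, DifferentiableOn ℂ (F a) U)
    (h0 : ∀ z ∈ U, ∃ a, F a z ≠ 0) {c : ℝ} (hc : 0 < c) {z : E n} (hz : z ∈ U)
    (hsep : ∀ (v : E n) (t : ℂ), (∀ a, fderiv ℂ (F a) z v = t * F a z) → v = 0) :
    (hess (fun w => c * Real.log (∑ a, ‖F a w‖ ^ 2)) z).PosDef := by
  classical
  have hT : 0 < ∑ a, ‖F a z‖ ^ 2 := fs_pos (h0 z hz)
  set T : ℝ := ∑ a, ‖F a z‖ ^ 2 with hTdef
  -- the matrix of minors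
  set k : ℂ := ((Real.sqrt (c / 2) / T : ℝ) : ℂ) with hk
  have hkpos : 0 < Real.sqrt (c / 2) / T := div_pos (Real.sqrt_pos.2 (by positivity)) hT
  have hk2 : k * k * 2 * (T : ℂ) ^ 2 = c := by
    have h1 : (Real.sqrt (c / 2) / T) * (Real.sqrt (c / 2) / T) * 2 * T ^ 2 = c := by
      have h2 : Real.sqrt (c / 2) * Real.sqrt (c / 2) = c / 2 :=
        Real.mul_self_sqrt (by positivity)
      field_simp
      nlinarith [h2]
    rw [hk]
    exact_mod_cast h1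
  set B : Matrix (Fin n) (α × α) ℂ := fun i p =>
    k * (F p.1 z * fderiv ℂ (F p.2) z (Pi.single i 1) -
      F p.2 z * fderiv ℂ (F p.1) z (Pi.single i 1)) with hB
  have hH : hess (fun w => c * Real.log (∑ a, ‖F a w‖ ^ 2)) z = B * B.conjTranspose := by
    ext i j
    have h1 := hess_fs hU hF h0 c hz i j
    rw [← hTdef] at h1
    have hT0 : (T : ℂ) ^ 2 ≠ 0 := pow_ne_zero _ (ofReal_ne_zero.2 hT.ne')
    apply mul_left_cancel₀ hT0
    rw [h1, Matrix.mul_apply]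
    simp only [hB]
    set u : α → ℂ := fun a => fderiv ℂ (F a) z (Pi.single i 1) with hu
    set w : α → ℂ := fun a => fderiv ℂ (F a) z (Pi.single j 1) with hw
    set f : α → ℂ := fun a => F a z with hf
    have hTf : (T : ℂ) = ∑ a, f a * (starRingEnd ℂ) (f a) := by
      rw [hTdef]
      push_cast
      refine Finset.sum_congr rfl fun a _ => ?_
      rw [hf, mul_conj']
    rw [Fintype.sum_prod_type]
    have hkr : (starRingEnd ℂ) k = k := by rw [hk]; exact conj_ofReal _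
    have h2 : ∀ a b, k * (f a * u b - f b * u a) * star (k * (f a * w b - f b * w a)) =
        k * k * ((f a * (starRingEnd ℂ) (f a)) * (u b * (starRingEnd ℂ) (w b)) +
          (f b * (starRingEnd ℂ) (f b)) * (u a * (starRingEnd ℂ) (w a)) -
          (u b * (starRingEnd ℂ) (f b)) * (f a * (starRingEnd ℂ) (w a)) -
          (u a * (starRingEnd ℂ) (f a)) * (f b * (starRingEnd ℂ) (w b))) := by
      intro a b
      have h3 : star (k * (f a * w b - f b * w a)) = k * ((starRingEnd ℂ) (f a) *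
          (starRingEnd ℂ) (w b) - (starRingEnd ℂ) (f b) * (starRingEnd ℂ) (w a)) := by
        show (starRingEnd ℂ) (k * (f a * w b - f b * w a)) = _
        rw [map_mul, map_sub, map_mul, map_mul, hkr]
      rw [h3]
      ring
    have h4 : ∑ a, ∑ b, k * (f a * u b - f b * u a) * star (k * (f a * w b - f b * w a)) =
        k * k * (2 * ((∑ a, f a * (starRingEnd ℂ) (f a)) *
          (∑ b, u b * (starRingEnd ℂ) (w b)) -
          (∑ b, u b * (starRingEnd ℂ) (f b)) * ∑ a, f a * (starRingEnd ℂ) (w a))) := by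
      simp only [h2]
      simp only [← Finset.mul_sum, Finset.sum_sub_distrib, Finset.sum_add_distrib,
        ← Finset.sum_mul]
      ring
    show _ = (T : ℂ) ^ 2 * ∑ a, ∑ b, k * (f a * u b - f b * u a) *
      star (k * (f a * w b - f b * w a))
    rw [h4, ← hTf, ← hk2]
    ring
  rw [hH]
  apply Matrix.PosDef.mul_conjTranspose_self
  -- injectivity
  have hker : ∀ v : Fin n → ℂ, B.vecMul v = 0 → v = 0 := by
    intro v hv
    have hD : ∀ a, fderiv ℂ (F a) z v = ∑ i, v i * fderiv ℂ (F a) z (Pi.single i 1) := by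
      intro a
      have h5 : v = ∑ i, v i • (Pi.single i 1 : E n) := by
        ext j
        simp [Finset.sum_apply, Pi.single_apply]
      conv_lhs => rw [h5]
      rw [map_sum]
      simp only [map_smul, smul_eq_mul]
    have h6 : ∀ a b, F a z * fderiv ℂ (F b) z v = F b z * fderiv ℂ (F a) z v := by
      intro a b
      have h7 := congrFun hv (a, b)
      rw [Matrix.vecMul, dotProduct] at h7
      simp only [hB, Pi.zero_apply] at h7
      rw [hD, hD, Finset.mul_sum, Finset.mul_sum, ← sub_eq_zero, ← Finset.sum_sub_distrib]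
      have hk0 : k ≠ 0 := by rw [hk]; exact ofReal_ne_zero.2 hkpos.ne'
      apply mul_left_cancel₀ hk0
      rw [mul_zero, ← h7, Finset.mul_sum]
      refine Finset.sum_congr rfl fun i _ => ?_
      ring
    obtain ⟨a, ha⟩ := h0 z hz
    refine hsep v (fderiv ℂ (F a) z v / F a z) fun b => ?_
    rw [div_mul_eq_mul_div, eq_div_iff ha, mul_comm, h6 a b, mul_comm]
  intro v w hvw
  have h8 : B.vecMul (v - w) = 0 := by
    rw [Matrix.sub_vecMul]
    exact sub_eq_zero.2 hvw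
  exact sub_eq_zero.1 (hker _ h8)

end Main

end

end Pool.Agent.YTDA


end

/- source: Pool.Agent.YTDA.NormAmp -/

section

/-!
# Sections separating points and tangent vectors

If the sections of `L ^ N` separate the points and the tangent vectors of `M = Y / ℂˣ`, and the
finite group `G` acts freely on `M`, then the `G`-invariant sections of `L ^ (N |G|)` separate the
points and the tangent vectors of the quotient, and there is a `G`-invariant hermitian metric of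
positive curvature.
-/

namespace Pool.Agent.YTDA

open Complex Set Topology ContDiff ComplexOrder TopologicalSpace

noncomputable section

namespace PolAtlas

variable {n : ℕ} {Y : Type} [MulAction ℂˣ Y] {A : PolAtlas n Y}

theorem IsSec.one : A.IsSec 0 (1 : Y → ℂ) :=
  ⟨fun _ _ => by simp, fun _ => differentiableOn_const 1⟩

theorem IsSec.mul {N N' : ℕ} {F F' : Y → ℂ} (h : A.IsSec N F) (h' : A.IsSec N' F') :
    A.IsSec (N + N') (F * F') := by
  refine ⟨fun c y => ?_, fun a => (h.hol a).mul (h'.hol a)⟩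
  rw [Pi.mul_apply, Pi.mul_apply, h.hom, h'.hom, pow_add]
  ring

theorem IsSec.prod {ι : Type*} (s : Finset ι) {N : ℕ} {F : ι → Y → ℂ}
    (h : ∀ i ∈ s, A.IsSec N (F i)) : A.IsSec (N * s.card) (∏ i ∈ s, F i) := by
  classical
  induction s using Finset.induction_on with
  | empty => simpa using IsSec.one
  | insert i s hi ih =>
    rw [Finset.prod_insert hi, Finset.card_insert_of_notMem hi, mul_add, mul_one, add_comm]
    exact (h i (Finset.mem_insert_self _ _)).mul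
      (ih fun j hj => h j (Finset.mem_insert_of_mem hj))

theorem IsSec.differentiableAt {N : ℕ} {F : Y → ℂ} (h : A.IsSec N F) {a : A.ι} {z : E n}
    (hz : z ∈ A.U a) : DifferentiableAt ℂ (fun w => F (A.γ a w)) z :=
  (h.hol a z hz).differentiableAt ((A.isOpen_U a).mem_nhds hz)

variable (A)

/-- The functions in `V` separate the points and the tangent vectors of `M`. -/
structure Separates (V : Submodule ℂ (Y → ℂ)) : Prop where
  base : ∀ y, ∃ F ∈ V, F y ≠ 0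
  pts : ∀ y y' : Y, (∀ c : ℂˣ, y' ≠ c • y) → ∃ F ∈ V, F y = 0 ∧ F y' ≠ 0
  tan : ∀ a, ∀ z ∈ A.U a, ∀ v : E n, v ≠ 0 →
    ∃ F ∈ V, F (A.γ a z) = 0 ∧ fderiv ℂ (fun w => F (A.γ a w)) z v ≠ 0

variable {A}

/-- evaluation functional -/
def evL (V : Submodule ℂ (Y → ℂ)) (y : Y) : Module.Dual ℂ V where
  toFun F := F.1 y
  map_add' _ _ := rfl
  map_smul' _ _ := rfl

/-- derivative functional -/
def derL {N : ℕ} {V : Submodule ℂ (Y → ℂ)} (hV : V ≤ A.secs N) {a : A.ι} {z : E n}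
    (hz : z ∈ A.U a) (v : E n) : Module.Dual ℂ V where
  toFun F := fderiv ℂ (fun w => F.1 (A.γ a w)) z v
  map_add' F F' := by
    have h1 := IsSec.differentiableAt (hV F.2) hz
    have h2 := IsSec.differentiableAt (hV F'.2) hz
    show fderiv ℂ (fun w => F.1 (A.γ a w) + F'.1 (A.γ a w)) z v = _
    rw [fderiv_fun_add h1 h2]
    rfl
  map_smul' t F := by
    have h1 := IsSec.differentiableAt (hV F.2) hz
    show fderiv ℂ (fun w => t • F.1 (A.γ a w)) z v = _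
    rw [fderiv_fun_const_smul h1]
    rfl

section Norm

variable {G : Type} [Group G] [MulAction G Y] [SMulCommClass G ℂˣ Y]

theorem FreeAct.isSec (hA : A.FreeAct G) {N : ℕ} {F : Y → ℂ} (hF : A.IsSec N F) (g : G) :
    A.IsSec N fun y => F (g • y) := by
  refine ⟨fun c y => ?_, fun a z hz => ?_⟩
  · rw [smul_comm, hF.hom]
  · obtain ⟨b, O, f, m, hO, hzO, hOU, hf, hm, h⟩ := hA.hol g a z hz
    have h1 : DifferentiableOn ℂ (fun w => (m w : ℂ) ^ N * F (A.γ b (f w))) O :=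
      (hm.pow N).mul ((hF.hol b).comp hf fun w hw => (h w hw).1)
    have h2 : DifferentiableAt ℂ (fun w => F (g • A.γ a w)) z := by
      refine (h1.differentiableAt (hO.mem_nhds hzO)).congr_of_eventuallyEq ?_
      refine Filter.eventuallyEq_of_mem (hO.mem_nhds hzO) fun w hw => ?_
      show F (g • A.γ a w) = _
      rw [(h w hw).2, hF.hom]
    exact h2.differentiableWithinAt

variable [Fintype G]

omit [MulAction ℂˣ Y] [SMulCommClass G ℂˣ Y] in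
variable (G) in
/-- the norm of a section -/
def nrm (F : Y → ℂ) : Y → ℂ := ∏ g : G, fun y => F (g • y)

omit [MulAction ℂˣ Y] [SMulCommClass G ℂˣ Y] in
theorem nrm_apply (F : Y → ℂ) (y : Y) : nrm G F y = ∏ g : G, F (g • y) := by
  rw [nrm, Finset.prod_apply]

omit [MulAction ℂˣ Y] [SMulCommClass G ℂˣ Y] in
theorem nrm_smul (F : Y → ℂ) (h : G) (y : Y) : nrm G F (h • y) = nrm G F y := by
  rw [nrm_apply, nrm_apply]
  simp only [smul_smul]
  exact Fintype.prod_equiv (Equiv.mulRight h) _ _ fun g => rfl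

theorem nrm_mem (hA : A.FreeAct G) {N : ℕ} {F : Y → ℂ} (hF : A.IsSec N F) :
    nrm G F ∈ A.invSecs G (N * Fintype.card G) :=
  ⟨IsSec.prod Finset.univ fun g _ => hA.isSec hF g, fun h y => nrm_smul F h y⟩

/-- The norm trick: invariant sections separate the points and tangent vectors of the quotient. -/
theorem separates_inv (hA : A.FreeAct G) {N : ℕ} {V : Submodule ℂ (Y → ℂ)} (hV : V ≤ A.secs N)
    (hS : A.Separates V) :
    (∀ y, ∃ F ∈ A.invSecs G (N * Fintype.card G), F y ≠ 0) ∧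
    (∀ y y' : Y, (∀ (g : G) (c : ℂˣ), y' ≠ c • g • y) →
      ∃ F ∈ A.invSecs G (N * Fintype.card G), F y = 0 ∧ F y' ≠ 0) ∧
    ∀ a, ∀ z ∈ A.U a, ∀ v : E n, v ≠ 0 → ∃ F ∈ A.invSecs G (N * Fintype.card G),
      F (A.γ a z) = 0 ∧ fderiv ℂ (fun w => F (A.γ a w)) z v ≠ 0 := by
  classical
  refine ⟨fun y => ?_, fun y y' hy => ?_, fun a z hz v hv => ?_⟩
  · obtain ⟨F, hF⟩ := Module.Dual.exists_forall_ne_zero_of_forall_exists
      (fun g : G => evL V (g • y)) fun g => by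
        obtain ⟨F, hF, hF1⟩ := hS.base (g • y)
        exact ⟨⟨F, hF⟩, hF1⟩
    refine ⟨nrm G F.1, nrm_mem hA (hV F.2), ?_⟩
    rw [nrm_apply]
    exact Finset.prod_ne_zero_iff.2 fun g _ => hF g
  · -- points
    obtain ⟨F, hF0, hF⟩ := Module.Dual.exists_forall_mem_ne_zero_of_forall_exists
      (LinearMap.ker (evL V y)) (fun g : G => evL V (g • y')) fun g => by
        obtain ⟨F, hF, hF1, hF2⟩ := hS.pts y (g • y') fun c hc => by
          apply hy g⁻¹ c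
          have h1 := congrArg (fun x => g⁻¹ • x) hc
          simp only [inv_smul_smul] at h1
          rw [h1, smul_comm]
        exact ⟨⟨F, hF⟩, LinearMap.mem_ker.2 hF1, hF2⟩
    refine ⟨nrm G F.1, nrm_mem hA (hV F.2), ?_, ?_⟩
    · rw [nrm_apply]
      apply Finset.prod_eq_zero (Finset.mem_univ (1 : G))
      rw [one_smul]
      exact hF0
    · rw [nrm_apply]
      exact Finset.prod_ne_zero_iff.2 fun g _ => hF g
  · -- tangent vectors
    set y : Y := A.γ a z with hy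
    obtain ⟨F, hF0, hF⟩ := Module.Dual.exists_forall_mem_ne_zero_of_forall_exists
      (LinearMap.ker (evL V y))
      (fun g : G => if g = 1 then derL hV hz v else evL V (g • y)) fun g => by
        by_cases hg : g = 1
        · obtain ⟨F, hF, hF1, hF2⟩ := hS.tan a z hz v hv
          refine ⟨⟨F, hF⟩, LinearMap.mem_ker.2 hF1, ?_⟩
          simp only [hg, if_true]
          exact hF2
        · obtain ⟨F, hF, hF1, hF2⟩ := hS.pts y (g • y) fun c hc => hg (hA.free g y c hc)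
          refine ⟨⟨F, hF⟩, LinearMap.mem_ker.2 hF1, ?_⟩
          simp only [hg, if_false]
          exact hF2
    have hF0' : F.1 y = 0 := LinearMap.mem_ker.1 hF0
    refine ⟨nrm G F.1, nrm_mem hA (hV F.2), ?_, ?_⟩
    · rw [nrm_apply]
      apply Finset.prod_eq_zero (Finset.mem_univ (1 : G))
      rw [one_smul]
      exact hF0'
    · set R : E n → ℂ := fun w => ∏ g ∈ (Finset.univ.erase (1 : G)), F.1 (g • A.γ a w) with hR
      have e1 : (fun w => nrm G F.1 (A.γ a w)) = fun w => F.1 (A.γ a w) * R w := by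
        funext w
        rw [nrm_apply, ← Finset.mul_prod_erase _ _ (Finset.mem_univ (1 : G)), one_smul]
      have h1 : DifferentiableAt ℂ (fun w => F.1 (A.γ a w)) z :=
        IsSec.differentiableAt (hV F.2) hz
      have h2 : DifferentiableAt ℂ R z := by
        have h3 : ∀ g : G, DifferentiableAt ℂ (fun w => F.1 (g • A.γ a w)) z := fun g =>
          IsSec.differentiableAt (hA.isSec (hV F.2) g) hz
        rw [hR]
        exact (HasFDerivAt.finsetProd fun g _ => (h3 g).hasFDerivAt).differentiableAt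
      rw [e1, fderiv_fun_mul h1 h2]
      show F.1 (A.γ a z) * fderiv ℂ R z v + R z * fderiv ℂ (fun w => F.1 (A.γ a w)) z v ≠ 0
      rw [← hy, hF0', zero_mul, zero_add]
      apply mul_ne_zero
      · rw [hR]
        refine Finset.prod_ne_zero_iff.2 fun g hg => ?_
        have h3 := hF g
        have hg1 : g ≠ 1 := Finset.ne_of_mem_erase hg
        simp only [hg1, if_false] at h3
        exact h3
      · have h3 := hF 1
        simp only [if_true] at h3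
        exact h3

theorem ampInv (hA : A.FreeAct G) {N : ℕ} {V : Submodule ℂ (Y → ℂ)} (hV : V ≤ A.secs N)
    (hS : A.Separates V) : A.AmpInv G (N * Fintype.card G) := by
  obtain ⟨h1, h2, h3⟩ := separates_inv hA hV hS
  exact ⟨h1, fun y y' hy => h2 y y' fun g c => hy c g, h3⟩

/-- A finite dimensional space of sections that separates tangent vectors gives an invariant
hermitian metric of positive curvature. -/
theorem exists_isKahler (hA : A.FreeAct G) {N : ℕ} (hN : 0 < N) {V : Submodule ℂ (Y → ℂ)}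
    [FiniteDimensional ℂ V] (hV : V ≤ A.secs N) (hS : A.Separates V) :
    ∃ H : Y → ℝ, A.IsKahler H ∧ ∀ (g : G) y, H (g • y) = H y := by
  classical
  set b := Module.finBasis ℂ V with hb
  set F : G × Fin (Module.finrank ℂ V) → Y → ℂ := fun p y => (b p.2).1 (p.1 • y) with hF
  set T : Y → ℝ := fun y => ∑ p, ‖F p y‖ ^ 2 with hT
  have hsec : ∀ p, A.IsSec N (F p) := fun p => hA.isSec (hV (b p.2).2) p.1
  have hbase : ∀ y, ∃ p, F p y ≠ 0 := by
    intro y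
    by_contra hcon
    push Not at hcon
    obtain ⟨F₀, hF₀, h1⟩ := hS.base y
    have h2 : evL V y = 0 := by
      apply b.ext
      intro i
      have h3 := hcon (1, i)
      simp only [hF, one_smul] at h3
      rw [LinearMap.zero_apply]
      exact h3
    exact h1 (congrArg (fun f : Module.Dual ℂ V => f ⟨F₀, hF₀⟩) h2)
  have hTpos : ∀ y, 0 < T y := fun y =>
    fs_pos (F := fun p (_ : E n) => F p y) (z := 0) (hbase y)
  have hThom : ∀ (c : ℂˣ) y, T (c • y) = (‖(c : ℂ)‖ ^ 2) ^ N * T y := by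
    intro c y
    simp only [hT, (hsec _).hom, norm_mul, norm_pow, mul_pow]
    rw [← Finset.mul_sum]
    congr 1
    ring
  have hTinv : ∀ (g : G) y, T (g • y) = T y := by
    intro g y
    simp only [hT, hF]
    rw [Fintype.sum_prod_type, Fintype.sum_prod_type]
    exact Fintype.sum_equiv (Equiv.mulRight g) _ _ fun h => by
      simp [smul_smul]
  have hN0 : (N : ℝ) ≠ 0 := Nat.cast_ne_zero.2 hN.ne'
  have hpot : ∀ a, A.pot (fun y => (T y) ^ (1 / N : ℝ)) a =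
      fun w => (1 / N : ℝ) * Real.log (∑ p, ‖F p (A.γ a w)‖ ^ 2) := by
    intro a
    funext w
    unfold pot
    rw [Real.log_rpow (hTpos _)]
  refine ⟨fun y => (T y) ^ (1 / N : ℝ), ⟨fun y => Real.rpow_pos_of_pos (hTpos y) _, ?_, ?_, ?_⟩,
    fun g y => by show (T (g • y)) ^ (1 / N : ℝ) = _; rw [hTinv]⟩
  · intro c y
    show (T (c • y)) ^ (1 / N : ℝ) = _
    rw [hThom, Real.mul_rpow (by positivity) (hTpos y).le, ← Real.rpow_natCast, ← Real.rpow_mul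
      (by positivity), mul_one_div_cancel hN0, Real.rpow_one]
  · intro a
    rw [hpot]
    exact contDiffOn_fs (F := fun p w => F p (A.γ a w)) (A.isOpen_U a)
      (fun p => (hsec p).hol a) (fun z _ => hbase _) _
  · intro a z hz
    rw [hpot]
    refine hess_fs_posDef (F := fun p w => F p (A.γ a w)) (A.isOpen_U a)
      (fun p => (hsec p).hol a) (fun z _ => hbase _) (by positivity) hz ?_
    intro v t hv
    by_contra hv0
    obtain ⟨F₀, hF₀, h1, h2⟩ := hS.tan a z hz v hv0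
    have h3 : derL hV hz v = t • evL V (A.γ a z) := by
      apply b.ext
      intro i
      have h4 := hv (1, i)
      simp only [hF, one_smul] at h4
      exact h4
    have h5 := congrArg (fun f : Module.Dual ℂ V => f ⟨F₀, hF₀⟩) h3
    apply h2
    have h6 : (t • evL V (A.γ a z)) ⟨F₀, hF₀⟩ = t * F₀ (A.γ a z) := rfl
    rw [h1, mul_zero] at h6
    exact h5.trans h6

end Norm

end PolAtlas

end

end Pool.Agent.YTDA


end

/- source: Pool.Agent.YTDA.SecFn -/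

section

/-!
# Sections of the line bundle on the surface `Σ`

For `f ∈ V N j` the section `f w ^ j` of `L ^ N` on `Σ`.
-/

namespace Pool.Agent.YTDA

open Complex Set Topology ContDiff Filter Metric
open Pool.Agent.YTD

noncomputable section

section Dvs

variable {K : Type} [Field K] [Algebra ℂ K] (T : Datum K)

/-- `S'` for `ε = 1`, `S` for `ε = -1` -/
def SE (ε : ℤˣ) : Finset T.X.Pt := if ε = 1 then T.S' else T.S

theorem SE_one : SE T 1 = T.S' := if_pos rfl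

theorem SE_neg_one : SE T (-1) = T.S := if_neg (by decide)

variable {T}

theorem SE_disj {ε : ℤˣ} {P : T.X.Pt} (h : P ∈ SE T ε) : P ∉ SE T (-ε) := by
  rcases Int.units_eq_one_or ε with rfl | rfl
  · rw [SE_one] at h
    rw [SE_neg_one]
    exact fun h' => (Finset.disjoint_left.1 T.disj h') h
  · rw [SE_neg_one] at h
    rw [neg_neg, SE_one]
    exact Finset.disjoint_left.1 T.disj h

theorem Ok_iff {P : T.X.Pt} {s : ℂ} (ε : ℤˣ) :
    Ok T P s ↔ s ≠ 0 ∨ (P ∉ SE T ε ∧ P ∉ SE T (-ε)) := by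
  unfold Ok
  rcases Int.units_eq_one_or ε with rfl | rfl
  · rw [SE_one, SE_neg_one, and_comm]
  · rw [neg_neg, SE_one, SE_neg_one]

/-- the number `4qN ± j` -/
def kap (q N : ℕ) (ε : ℤˣ) (j : ℤ) : ℤ := 4 * q * N + (ε : ℤ) * j

theorem kap_one (q N : ℕ) (j : ℤ) : kap q N 1 j = 4 * q * N + j := by
  rw [kap, Units.val_one, one_mul]

theorem kap_neg_one (q N : ℕ) (j : ℤ) : kap q N (-1) j = 4 * q * N - j := by
  rw [kap, Units.val_neg, Units.val_one]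
  ring

/-- the multiplicity of the divisor at the points of `SE ε` -/
theorem dvs_SE {ε : ℤˣ} {P : T.X.Pt} (h : P ∈ SE T ε) (q : ℕ) (D₀ : T.X.Pt →₀ ℤ) (N : ℕ)
    (j : ℤ) : T.dvs q D₀ N j P = N * D₀ P - max 0 (-kap q N ε j) := by
  classical
  have h' := SE_disj h
  unfold Datum.dvs
  have hsum : ∀ (S : Finset T.X.Pt) (m : ℤ), (∑ y ∈ S, Finsupp.single y m) P =
      if P ∈ S then m else 0 := by
    intro S m
    rw [Finsupp.finsetSum_apply]
    simp only [Finsupp.single_apply]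
    rw [Finset.sum_ite_eq' S P fun _ => m]
  rw [Finsupp.sub_apply, Finsupp.sub_apply, hsum, hsum, Finsupp.smul_apply]
  rcases Int.units_eq_one_or ε with rfl | rfl
  · rw [SE_one] at h
    rw [SE_neg_one] at h'
    rw [if_neg h', if_pos h, kap_one]
    simp only [nsmul_eq_mul, sub_zero]
    congr 2
    ring
  · rw [SE_neg_one] at h
    rw [neg_neg, SE_one] at h'
    rw [if_neg h', if_pos h, kap_neg_one]
    simp only [nsmul_eq_mul, sub_zero]
    congr 2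
    ring

theorem dvs_not {P : T.X.Pt} (h : P ∉ T.S) (h' : P ∉ T.S') (q : ℕ) (D₀ : T.X.Pt →₀ ℤ) (N : ℕ)
    (j : ℤ) : T.dvs q D₀ N j P = N * D₀ P := by
  classical
  unfold Datum.dvs
  have hsum : ∀ (S : Finset T.X.Pt) (m : ℤ), (∑ y ∈ S, Finsupp.single y m) P =
      if P ∈ S then m else 0 := by
    intro S m
    rw [Finsupp.finsetSum_apply]
    simp only [Finsupp.single_apply]
    rw [Finset.sum_ite_eq' S P fun _ => m]
  rw [Finsupp.sub_apply, Finsupp.sub_apply, hsum, hsum, Finsupp.smul_apply, if_neg h, if_neg h']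
  simp

theorem dvs_not' {ε : ℤˣ} {P : T.X.Pt} (h : P ∉ SE T ε) (h' : P ∉ SE T (-ε)) (q : ℕ)
    (D₀ : T.X.Pt →₀ ℤ) (N : ℕ) (j : ℤ) : T.dvs q D₀ N j P = N * D₀ P := by
  rcases Int.units_eq_one_or ε with rfl | rfl
  · rw [SE_one] at h
    rw [SE_neg_one] at h'
    exact dvs_not h' h q D₀ N j
  · rw [SE_neg_one] at h
    rw [neg_neg, SE_one] at h'
    exact dvs_not h h' q D₀ N j

theorem dvs_le (P : T.X.Pt) (q : ℕ) (D₀ : T.X.Pt →₀ ℤ) (N : ℕ) (j : ℤ) :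
    T.dvs q D₀ N j P ≤ N * D₀ P := by
  by_cases h : P ∈ T.S
  · rw [dvs_SE (ε := -1) (by rwa [SE_neg_one])]
    have := le_max_left 0 (-kap q N (-1) j)
    linarith
  · by_cases h' : P ∈ T.S'
    · rw [dvs_SE (ε := 1) (by rwa [SE_one])]
      have := le_max_left 0 (-kap q N 1 j)
      linarith
    · rw [dvs_not h h']

end Dvs

namespace SigModel

variable {K : Type} [Field K] [Algebra ℂ K] {T : Datum K} {q : ℕ} {D₀ : T.X.Pt →₀ ℤ}
  {An : AnCurve T.X.toCurveOrd} (M : SigModel T q D₀ An)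

/-- index `0` for `ε = 1`, index `1` for `ε = -1` -/
def ix (ε : ℤˣ) : Fin 3 := if ε = 1 then 0 else 1

/-- the side chart -/
def ch (ε : ℤˣ) (P : T.X.Pt) : M.A.ι := M.e (P, ix ε)

/-- the middle chart -/
def md (P : T.X.Pt) : M.A.ι := M.e (P, 2)

theorem ch_one (P : T.X.Pt) : M.ch 1 P = M.e (P, 0) := rfl

theorem ch_neg_one (P : T.X.Pt) : M.ch (-1) P = M.e (P, 1) := rfl

theorem U_ch (ε : ℤˣ) (P : T.X.Pt) : M.A.U (M.ch ε P) = {z | ‖z 0‖ < M.r P} := by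
  rcases Int.units_eq_one_or ε with rfl | rfl
  · exact M.U_bot P
  · exact M.U_top P

theorem U_md {ε : ℤˣ} {P : T.X.Pt} (h : P ∈ SE T ε) :
    M.A.U (M.md P) = {z | ‖z 0 * z 1‖ < M.r P} := by
  rcases Int.units_eq_one_or ε with rfl | rfl
  · rw [SE_one] at h
    exact M.U_mid P (Or.inr h)
  · rw [SE_neg_one] at h
    exact M.U_mid P (Or.inl h)

theorem γ_ch {ε : ℤˣ} {P : T.X.Pt} (h : P ∉ SE T ε) {s : ℂ} (hs : s ∈ ball 0 (M.r P))
    (h' : s ≠ 0 ∨ P ∉ SE T (-ε)) (b : ℂˣ) :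
    M.A.γ (M.ch ε P) ![s, b] = b ^ (5 * (q : ℤ)) • M.o P s (b ^ (ε : ℤ)) := by
  rcases Int.units_eq_one_or ε with rfl | rfl
  · rw [SE_one] at h
    rw [SE_neg_one] at h'
    rw [Units.val_one, zpow_one]
    exact M.γ_bot P h s hs h' b
  · rw [SE_neg_one] at h
    rw [neg_neg, SE_one] at h'
    rw [Units.val_neg, Units.val_one, zpow_neg_one]
    exact M.γ_top P h s hs h' b

theorem γ_ch' {ε : ℤˣ} {P : T.X.Pt} (h : P ∈ SE T ε) (s : ℂˣ) (hs : ‖(s : ℂ)‖ < M.r P)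
    (b : ℂˣ) : M.A.γ (M.ch ε P) ![(s : ℂ), b] =
      ((s * b) ^ (5 * (q : ℤ)) * s ^ (-(q : ℤ))) • M.o P s ((s * b) ^ (ε : ℤ)) := by
  rcases Int.units_eq_one_or ε with rfl | rfl
  · rw [SE_one] at h
    rw [Units.val_one, zpow_one]
    exact M.γ_bot' P h s hs b
  · rw [SE_neg_one] at h
    rw [Units.val_neg, Units.val_one, zpow_neg_one]
    exact M.γ_top' P h s hs b

theorem γ_md {ε : ℤˣ} {P : T.X.Pt} (h : P ∈ SE T ε) (z f : ℂˣ) (hzf : ‖(z : ℂ) * f‖ < M.r P) :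
    M.A.γ (M.md P) ![(z : ℂ), f] = z ^ (4 * (q : ℤ)) • M.o P (z * f) (z ^ (ε : ℤ)) := by
  rcases Int.units_eq_one_or ε with rfl | rfl
  · rw [SE_one] at h
    rw [Units.val_one, zpow_one]
    exact M.γ_mid' P h z f hzf
  · rw [SE_neg_one] at h
    rw [Units.val_neg, Units.val_one, zpow_neg_one]
    exact M.γ_mid P h z f hzf

/-- every chart is one of these -/
theorem chart_cases (a : M.A.ι) {z : E 2} (hz : z ∈ M.A.U a) :
    (∃ ε P, a = M.ch ε P) ∨ ∃ ε, ∃ P ∈ SE T ε, a = M.md P := by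
  obtain ⟨⟨P, i⟩, rfl⟩ := M.e.surjective a
  fin_cases i
  · exact Or.inl ⟨1, P, rfl⟩
  · exact Or.inl ⟨-1, P, rfl⟩
  · by_cases h : P ∈ T.S
    · exact Or.inr ⟨-1, P, by rwa [SE_neg_one], rfl⟩
    · by_cases h' : P ∈ T.S'
      · exact Or.inr ⟨1, P, by rwa [SE_one], rfl⟩
      · have h2 := M.U_mid' P h h'
        change z ∈ M.A.U (M.e (P, 2)) at hz
        rw [h2] at hz
        exact absurd hz (Set.notMem_empty z)

/-! ### Local expressions of the sections -/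

variable (N : ℕ) (j : ℤ) (f : K)

open Classical in
/-- exponent of the coordinate of the curve in the side chart -/
def eC (M : SigModel T q D₀ An) (N : ℕ) (j : ℤ) (ε : ℤˣ) (P : T.X.Pt) : ℤ :=
  let _ := M
  N * D₀ P + if P ∈ SE T ε then kap q N ε j else 0

/-- exponent in the middle chart -/
def eM (M : SigModel T q D₀ An) (N : ℕ) (j : ℤ) (ε : ℤˣ) (P : T.X.Pt) : ℤ :=
  let _ := M
  N * D₀ P - max 0 (-kap q N ε j)

/-- local expression in the side chart -/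
def locC (ε : ℤˣ) (P : T.X.Pt) (z : E 2) : ℂ :=
  z 1 ^ (5 * q * N + (ε : ℤ) * j).toNat * An.rg P f (M.eC N j ε P) (z 0)

/-- local expression in the middle chart -/
def locM (ε : ℤˣ) (P : T.X.Pt) (z : E 2) : ℂ :=
  z 0 ^ (kap q N ε j).toNat * z 1 ^ (-kap q N ε j).toNat *
    An.rg P f (M.eM N j ε P) (z 0 * z 1)

open Classical in
/-- local expression of the section `f w ^ j` -/
def loc (a : M.A.ι) (z : E 2) : ℂ :=
  if (M.e.symm a).2 = 0 then M.locC N j f 1 (M.e.symm a).1 z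
  else if (M.e.symm a).2 = 1 then M.locC N j f (-1) (M.e.symm a).1 z
  else if (M.e.symm a).1 ∈ T.S' then M.locM N j f 1 (M.e.symm a).1 z
  else M.locM N j f (-1) (M.e.symm a).1 z

theorem loc_ch (ε : ℤˣ) (P : T.X.Pt) (z : E 2) :
    M.loc N j f (M.ch ε P) z = M.locC N j f ε P z := by
  rcases Int.units_eq_one_or ε with rfl | rfl
  · rw [ch_one, loc, Equiv.symm_apply_apply]
    simp
  · rw [ch_neg_one, loc, Equiv.symm_apply_apply]
    simp

theorem loc_md {ε : ℤˣ} {P : T.X.Pt} (h : P ∈ SE T ε) (z : E 2) :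
    M.loc N j f (M.md P) z = M.locM N j f ε P z := by
  have h' := SE_disj h
  rw [md, loc, Equiv.symm_apply_apply]
  rcases Int.units_eq_one_or ε with rfl | rfl
  · rw [SE_one] at h
    simp [h]
  · rw [neg_neg, SE_one] at h'
    simp [h']

variable {N j f}

/-- the value is regular at all points of the disc -/
theorem reg {e : ℤ} {P : T.X.Pt} (hf : f ∈ T.V q D₀ N j) (he : T.dvs q D₀ N j P ≤ e) {s : ℂ}
    (hs : s ∈ ball 0 (M.r P)) : An.Reg P f e s := by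
  have hs' : s ∈ ball 0 (An.r P) := ball_subset_ball (M.r_le P) hs
  by_cases hf0 : f = 0
  · rw [hf0]
    exact AnCurve.reg_zero e hs'
  · by_cases h0 : s = 0
    · rw [h0, AnCurve.Reg, AnCurve.ord_pf_zero hf0]
      have h1 := hf hf0 P
      exact_mod_cast (by linarith : 0 ≤ T.X.ord P f + e)
    · rw [AnCurve.Reg, AnCurve.ord_pf_ne hf0 e hs' h0]
      have h1 := hf hf0 (An.c P s)
      obtain ⟨h2, h3, h4⟩ := M.iso P s hs h0
      rw [dvs_not h2 h3, h4, mul_zero, add_zero] at h1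
      exact_mod_cast h1

theorem reg_ne {P : T.X.Pt} (hf : f ∈ T.V q D₀ N j) (e : ℤ) {s : ℂ}
    (hs : s ∈ ball 0 (M.r P)) (h0 : s ≠ 0) : An.Reg P f e s := by
  have hs' : s ∈ ball 0 (An.r P) := ball_subset_ball (M.r_le P) hs
  by_cases hf0 : f = 0
  · rw [hf0]
    exact AnCurve.reg_zero e hs'
  · have h1 := M.reg hf le_rfl hs
    rw [AnCurve.Reg, AnCurve.ord_pf_ne hf0 _ hs' h0] at h1
    rw [AnCurve.Reg, AnCurve.ord_pf_ne hf0 e hs' h0]
    exact h1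

theorem le_eC (ε : ℤˣ) (P : T.X.Pt) : T.dvs q D₀ N j P ≤ M.eC N j ε P := by
  unfold eC
  by_cases h : P ∈ SE T ε
  · simp only [h, if_true]
    rw [dvs_SE h]
    have := neg_le_of_neg_le (le_max_right 0 (-kap q N ε j))
    linarith
  · simp only [h, if_false, add_zero]
    exact dvs_le P q D₀ N j

theorem eM_eq {ε : ℤˣ} {P : T.X.Pt} (h : P ∈ SE T ε) : M.eM N j ε P = T.dvs q D₀ N j P :=
  (dvs_SE h q D₀ N j).symm

/-! ### Holomorphy -/

theorem diff_locC (hf : f ∈ T.V q D₀ N j) (ε : ℤˣ) (P : T.X.Pt) :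
    DifferentiableOn ℂ (M.locC N j f ε P) {z | ‖z 0‖ < M.r P} := by
  intro z hz
  have hz' : z 0 ∈ ball 0 (M.r P) := mem_ball_zero_iff.2 hz
  have h1 : DifferentiableAt ℂ (An.rg P f (M.eC N j ε P)) (z 0) :=
    (AnCurve.analyticAt_rg (ball_subset_ball (M.r_le P) hz')
      (M.reg hf (M.le_eC ε P) hz')).differentiableAt
  have h2 : DifferentiableAt ℂ (fun w : E 2 => w 0) z := differentiableAt_apply 0 z
  have h3 : DifferentiableAt ℂ (fun w : E 2 => w 1) z := differentiableAt_apply 1 z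
  have h4 : DifferentiableAt ℂ (M.locC N j f ε P) z := (h3.pow _).mul (h1.comp z h2)
  exact h4.differentiableWithinAt

theorem diff_locM (hf : f ∈ T.V q D₀ N j) {ε : ℤˣ} {P : T.X.Pt} (hP : P ∈ SE T ε) :
    DifferentiableOn ℂ (M.locM N j f ε P) {z | ‖z 0 * z 1‖ < M.r P} := by
  intro z hz
  have hz' : z 0 * z 1 ∈ ball 0 (M.r P) := mem_ball_zero_iff.2 hz
  have h1 : DifferentiableAt ℂ (An.rg P f (M.eM N j ε P)) (z 0 * z 1) :=
    (AnCurve.analyticAt_rg (ball_subset_ball (M.r_le P) hz')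
      (M.reg hf (M.eM_eq hP).ge hz')).differentiableAt
  have h2 : DifferentiableAt ℂ (fun w : E 2 => w 0) z := differentiableAt_apply 0 z
  have h3 : DifferentiableAt ℂ (fun w : E 2 => w 1) z := differentiableAt_apply 1 z
  have h4 : DifferentiableAt ℂ (fun w : E 2 => w 0 * w 1) z := h2.mul h3
  have h5 : DifferentiableAt ℂ (M.locM N j f ε P) z :=
    ((h2.pow _).mul (h3.pow _)).mul (DifferentiableAt.comp z (g := An.rg P f (M.eM N j ε P)) h1 h4)
  exact h5.differentiableWithinAt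

theorem diff_loc (hf : f ∈ T.V q D₀ N j) (a : M.A.ι) :
    DifferentiableOn ℂ (M.loc N j f a) (M.A.U a) := by
  intro z hz
  rcases M.chart_cases a hz with ⟨ε, P, rfl⟩ | ⟨ε, P, hP, rfl⟩
  · have h1 := M.diff_locC hf ε P
    rw [← M.U_ch] at h1
    exact (h1.congr fun w _ => M.loc_ch N j f ε P w) z hz
  · have h1 := M.diff_locM hf hP
    rw [← M.U_md hP] at h1
    exact (h1.congr fun w _ => M.loc_md N j f hP w) z hz

/-! ### Generic values -/

/-- the value of the section at the point `o P s w` -/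
def val (N : ℕ) (j : ℤ) (f : K) (P : T.X.Pt) (s : ℂ) (w : ℂˣ) : ℂ :=
  let _ := M
  An.rg P f (N * D₀ P) s * ((w ^ j : ℂˣ) : ℂ)

/-- generic points and the value of the section there -/
def Gen (N : ℕ) (j : ℤ) (f : K) (y : M.Y) (v : ℂ) : Prop :=
  ∃ (P : T.X.Pt) (s : ℂ) (w c : ℂˣ), s ≠ 0 ∧ s ∈ ball 0 (M.r P) ∧ y = c • M.o P s w ∧
    v = (c : ℂ) ^ N * M.val N j f P s w

theorem rg_trans {P Q : T.X.Pt} {s s' : ℂ} (hs : s ∈ ball 0 (An.r P)) (hs' : s' ∈ ball 0 (An.r Q))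
    (hc : An.c P s = An.c Q s') {z : K} (hz : An.Reg P z 0 s) (hz' : An.Reg Q z 0 s') :
    An.rg P z 0 s = An.rg Q z 0 s' := by
  obtain ⟨φ, hφ, hφs, hφ', -, hfn⟩ := An.tr P Q s hs s' hs' hc
  subst hφs
  have h1 : AnalyticAt ℂ (fun σ => An.rg Q z 0 (φ σ)) s :=
    (AnCurve.analyticAt_rg hs' hz').comp hφ
  have h2 : Tendsto φ (𝓝[≠] s) (𝓝[≠] (φ s)) :=
    (hφ.differentiableAt.hasDerivAt).tendsto_nhdsNE hφ'
  refine AnCurve.rg_unique hs hz h1.continuousAt ?_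
  filter_upwards [h2.eventually (AnCurve.rg_eq hs' (z := z) (e := 0)), hfn z] with σ h3 h4
  rw [h3, AnCurve.pf, AnCurve.pf, zpow_zero, zpow_zero, mul_one, mul_one, h4]

theorem gen_ch (hj : |j| ≤ 5 * q * N) (hf : f ∈ T.V q D₀ N j) (ε : ℤˣ) (P : T.X.Pt) {z : E 2}
    (hz : ‖z 0‖ < M.r P) (h0 : z 0 ≠ 0) (h1 : z 1 ≠ 0) :
    M.Gen N j f (M.A.γ (M.ch ε P) z) (M.locC N j f ε P z) := by
  obtain ⟨s, hs⟩ : ∃ s : ℂˣ, (s : ℂ) = z 0 := ⟨Units.mk0 _ h0, rfl⟩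
  obtain ⟨b, hb⟩ : ∃ b : ℂˣ, (b : ℂ) = z 1 := ⟨Units.mk0 _ h1, rfl⟩
  have hzz : z = ![(s : ℂ), b] := by
    ext i
    fin_cases i
    · exact hs.symm
    · exact hb.symm
  have hsb : (s : ℂ) ∈ ball (0 : ℂ) (M.r P) := by rw [hs]; exact mem_ball_zero_iff.2 hz
  have hsb' : (s : ℂ) ∈ ball (0 : ℂ) (An.r P) := ball_subset_ball (M.r_le P) hsb
  have hnn : 0 ≤ 5 * (q : ℤ) * N + (ε : ℤ) * j := by
    rcases Int.units_eq_one_or ε with rfl | rfl
    · rw [Units.val_one, one_mul]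
      linarith [neg_le_of_abs_le hj]
    · rw [Units.val_neg, Units.val_one, neg_one_mul]
      linarith [le_of_abs_le hj]
  have hpow : (b : ℂ) ^ (5 * (q : ℤ) * N + (ε : ℤ) * j).toNat =
      ((b ^ (5 * (q : ℤ) * N + (ε : ℤ) * j) : ℂˣ) : ℂ) := by
    rw [Units.val_zpow_eq_zpow_val, ← zpow_natCast, Int.toNat_of_nonneg hnn]
  by_cases hP : P ∈ SE T ε
  · refine ⟨P, s, (s * b) ^ (ε : ℤ), (s * b) ^ (5 * (q : ℤ)) * s ^ (-(q : ℤ)), s.ne_zero, hsb,
      by rw [hzz]; exact M.γ_ch' hP s (mem_ball_zero_iff.1 hsb) b, ?_⟩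
    rw [locC, ← hs, ← hb, hpow, eC, if_pos hP, val,
      AnCurve.rg_shift _ hsb' s.ne_zero (M.reg_ne hf _ hsb s.ne_zero)]
    have e1 : ((s : ℂ)) ^ (kap q N ε j) = ((s ^ (kap q N ε j) : ℂˣ) : ℂ) := by
      rw [Units.val_zpow_eq_zpow_val]
    rw [e1]
    have e2 : (b ^ (5 * (q : ℤ) * N + (ε : ℤ) * j) * s ^ (kap q N ε j) : ℂˣ) =
        ((s * b) ^ (5 * (q : ℤ)) * s ^ (-(q : ℤ))) ^ N * ((s * b) ^ (ε : ℤ)) ^ j := by
      rw [mul_pow, ← zpow_natCast ((s * b) ^ (5 * (q : ℤ))), ← zpow_natCast (s ^ (-(q : ℤ))),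
        ← zpow_mul, ← zpow_mul, ← zpow_mul, mul_zpow, mul_zpow, kap]
      have e3 : ((b ^ (5 * (q : ℤ) * N + (ε : ℤ) * j)) * s ^ (4 * (q : ℤ) * N + (ε : ℤ) * j) : ℂˣ)
          = (s ^ (5 * (q : ℤ) * N) * s ^ (-(q : ℤ) * N) * s ^ ((ε : ℤ) * j)) *
            (b ^ (5 * (q : ℤ) * N) * b ^ ((ε : ℤ) * j)) := by
        rw [← zpow_add, ← zpow_add, ← zpow_add, mul_comm]
        congr 2
        ring
      rw [e3]
      simp only [mul_comm, mul_left_comm, mul_assoc]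
    have e3 := congrArg (fun u : ℂˣ => (u : ℂ)) e2
    simp only [Units.val_mul, Units.val_pow_eq_pow_val] at e3
    rw [Units.val_mul, mul_pow]
    rw [mul_pow] at e3
    linear_combination (An.rg P f (N * D₀ P) s) * e3
  · refine ⟨P, s, b ^ (ε : ℤ), b ^ (5 * (q : ℤ)), s.ne_zero, hsb,
      by rw [hzz]; exact M.γ_ch hP hsb (Or.inl s.ne_zero) b, ?_⟩
    rw [locC, ← hs, ← hb, hpow, eC, if_neg hP, val, add_zero]
    have e2 : (b ^ (5 * (q : ℤ) * N + (ε : ℤ) * j) : ℂˣ) =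
        (b ^ (5 * (q : ℤ))) ^ N * (b ^ (ε : ℤ)) ^ j := by
      rw [← zpow_natCast (b ^ (5 * (q : ℤ))), ← zpow_mul, ← zpow_mul, ← zpow_add]
    have e3 := congrArg (fun u : ℂˣ => (u : ℂ)) e2
    simp only [Units.val_mul, Units.val_pow_eq_pow_val] at e3
    linear_combination (An.rg P f (N * D₀ P) s) * e3

theorem gen_md (hf : f ∈ T.V q D₀ N j) {ε : ℤˣ} {P : T.X.Pt} (hP : P ∈ SE T ε) {z : E 2}
    (hz : ‖z 0 * z 1‖ < M.r P) (h0 : z 0 ≠ 0) (h1 : z 1 ≠ 0) :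
    M.Gen N j f (M.A.γ (M.md P) z) (M.locM N j f ε P z) := by
  obtain ⟨a, ha⟩ : ∃ a : ℂˣ, (a : ℂ) = z 0 := ⟨Units.mk0 _ h0, rfl⟩
  obtain ⟨b, hb⟩ : ∃ b : ℂˣ, (b : ℂ) = z 1 := ⟨Units.mk0 _ h1, rfl⟩
  have hzz : z = ![(a : ℂ), b] := by
    ext i
    fin_cases i
    · exact ha.symm
    · exact hb.symm
  have hab : ((a : ℂ)) * b ∈ ball (0 : ℂ) (M.r P) := by rw [ha, hb]; exact mem_ball_zero_iff.2 hz
  have hab' := ball_subset_ball (M.r_le P) hab
  have hab0 : (a : ℂ) * b ≠ 0 := mul_ne_zero a.ne_zero b.ne_zero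
  refine ⟨P, a * b, a ^ (ε : ℤ), a ^ (4 * (q : ℤ)), hab0, hab,
    by rw [hzz]; exact M.γ_md hP a b (mem_ball_zero_iff.1 hab), ?_⟩
  rw [locM, ← ha, ← hb, val]
  have h2 : An.rg P f (N * D₀ P) ((a : ℂ) * b) =
      An.rg P f (M.eM N j ε P) (a * b) * ((a : ℂ) * b) ^ (max 0 (-kap q N ε j)) := by
    rw [← AnCurve.rg_shift _ hab' hab0 (M.reg_ne hf _ hab hab0)]
    congr 1
    rw [eM]
    ring
  rw [h2]
  have e2 : (a ^ (kap q N ε j).toNat * b ^ (-kap q N ε j).toNat : ℂˣ) =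
      (a ^ (4 * (q : ℤ))) ^ N * (a * b) ^ (max 0 (-kap q N ε j)) * (a ^ (ε : ℤ)) ^ j := by
    rw [← zpow_natCast a, ← zpow_natCast b, Int.toNat_eq_max, Int.toNat_eq_max,
      ← zpow_natCast (a ^ (4 * (q : ℤ))), ← zpow_mul, ← zpow_mul, mul_zpow, max_comm,
      max_comm _ (0 : ℤ)]
    have e3 : (a ^ (4 * (q : ℤ) * N) * (a ^ (max 0 (-kap q N ε j)) * b ^ (max 0 (-kap q N ε j))) *
        a ^ ((ε : ℤ) * j) : ℂˣ) = (a ^ (4 * (q : ℤ) * N) * a ^ (max 0 (-kap q N ε j)) *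
          a ^ ((ε : ℤ) * j)) * b ^ (max 0 (-kap q N ε j)) := by
      simp only [mul_comm, mul_left_comm, mul_assoc]
    rw [e3, ← zpow_add, ← zpow_add]
    congr 2
    have e4 : kap q N ε j = 4 * q * N + (ε : ℤ) * j := rfl
    rcases le_total 0 (kap q N ε j) with h | h
    · rw [max_eq_right h, max_eq_left (by linarith)]
      linarith
    · rw [max_eq_left h, max_eq_right (by linarith)]
      linarith
  have e3 := congrArg (fun u : ℂˣ => (u : ℂ)) e2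
  simp only [Units.val_mul, Units.val_pow_eq_pow_val, Units.val_zpow_eq_zpow_val] at e3 ⊢
  linear_combination (An.rg P f (M.eM N j ε P) (a * b)) * e3

theorem gen_rel (hf : f ∈ T.V q D₀ N j) {y : M.Y} {h : ℂˣ} {v v' : ℂ} (hv : M.Gen N j f y v)
    (hv' : M.Gen N j f (h • y) v') : v' = (h : ℂ) ^ N * v := by
  obtain ⟨P, s, w, c, h0, hs, rfl, rfl⟩ := hv
  obtain ⟨Q, s', w', c', h0', hs', hy, rfl⟩ := hv'
  have e1 : M.o Q s' w' = (c'⁻¹ * (h * c)) • M.o P s w := by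
    rw [← smul_smul, ← smul_smul, hy, inv_smul_smul]
  have hOk : Ok T P s := Or.inl h0
  have hOk' : Ok T Q s' := Or.inl h0'
  obtain ⟨e2, e3⟩ := M.o_inj Q P s' hs' s hs hOk' hOk w' w _ e1
  subst e3
  have e4 := M.o_tr P Q s hs s' hs' hOk hOk' e2.symm w'
  rw [e1] at e4
  have e5 : c'⁻¹ * (h * c) = upow s' (D₀ Q) / upow s (D₀ P) := M.A.smul_inj e4
  have hsA := ball_subset_ball (M.r_le P) hs
  have hsA' := ball_subset_ball (M.r_le Q) hs'
  have r1 := AnCurve.rg_shift (An := An) (N * D₀ P) hsA h0 (M.reg_ne hf 0 hs h0)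
  have r2 := AnCurve.rg_shift (An := An) (N * D₀ Q) hsA' h0' (M.reg_ne hf 0 hs' h0')
  rw [zero_add] at r1 r2
  have r3 := rg_trans hsA hsA' e2.symm (M.reg_ne hf 0 hs h0) (M.reg_ne hf 0 hs' h0')
  rw [val, val, r1, r2, ← r3]
  -- the factors
  set u : ℂˣ := Units.mk0 s h0 with hu
  set u' : ℂˣ := Units.mk0 s' h0' with hu'
  have e6 : upow s (D₀ P) = u ^ (D₀ P) := by rw [upow, dif_neg h0]
  have e7 : upow s' (D₀ Q) = u' ^ (D₀ Q) := by rw [upow, dif_neg h0']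
  rw [e6, e7] at e5
  have e8 : c' ^ N * u' ^ (N * D₀ Q) = (h * c) ^ N * u ^ (N * D₀ P) := by
    have e9 : h * c = c' * (u' ^ (D₀ Q) / u ^ (D₀ P)) := by
      rw [← e5, mul_inv_cancel_left]
    rw [e9, mul_pow, div_pow, ← zpow_natCast (u' ^ (D₀ Q)), ← zpow_natCast (u ^ (D₀ P)),
      ← zpow_mul, ← zpow_mul, mul_comm (D₀ Q) (N : ℤ), mul_comm (D₀ P) (N : ℤ), mul_assoc,
      div_mul_cancel]
  have e9 := congrArg (fun t : ℂˣ => (t : ℂ)) e8
  simp only [Units.val_mul, Units.val_pow_eq_pow_val, Units.val_zpow_eq_zpow_val] at e9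
  have e10 : (u : ℂ) = s := rfl
  have e11 : (u' : ℂ) = s' := rfl
  rw [e10, e11, mul_pow] at e9
  linear_combination (An.rg P f 0 s * ((w' ^ j : ℂˣ) : ℂ)) * e9

/-- the open dense set of points with non-zero coordinates -/
theorem dense_ne : Dense {z : E 2 | z 0 ≠ 0 ∧ z 1 ≠ 0} := by
  have h := dense_pi (α := fun _ : Fin 2 => ℂ) univ
    fun (i : Fin 2) _ => dense_compl_singleton (0 : ℂ)
  have e : (univ : Set (Fin 2)).pi (fun _ => ({0}ᶜ : Set ℂ)) = {z : E 2 | z 0 ≠ 0 ∧ z 1 ≠ 0} := by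
    ext z
    simp [Fin.forall_fin_two]
  rw [← e]
  exact h

theorem isOpen_ne' : IsOpen {z : E 2 | z 0 ≠ 0 ∧ z 1 ≠ 0} :=
  (isOpen_ne.preimage (continuous_apply 0)).inter (isOpen_ne.preimage (continuous_apply 1))

theorem gen_loc (hj : |j| ≤ 5 * q * N) (hf : f ∈ T.V q D₀ N j) {a : M.A.ι} {z : E 2}
    (hz : z ∈ M.A.U a) (h0 : z 0 ≠ 0) (h1 : z 1 ≠ 0) :
    M.Gen N j f (M.A.γ a z) (M.loc N j f a z) := by
  rcases M.chart_cases a hz with ⟨ε, P, rfl⟩ | ⟨ε, P, hP, rfl⟩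
  · rw [loc_ch]
    rw [M.U_ch] at hz
    exact M.gen_ch hj hf ε P hz h0 h1
  · rw [M.loc_md N j f hP]
    rw [M.U_md hP] at hz
    exact M.gen_md hf hP hz h0 h1

theorem loc_rel (hj : |j| ≤ 5 * q * N) (hf : f ∈ T.V q D₀ N j) (a b : M.A.ι) (z : E 2)
    (hz : z ∈ M.A.O a b) :
    M.loc N j f b (M.A.τ a b z) = (M.A.h a b z : ℂ) ^ N * M.loc N j f a z := by
  refine PolAtlas.rel_of_dense (fun a => (M.diff_loc hf a).continuousOn) isOpen_ne' dense_ne ?_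
    a b z hz
  intro a b z hz h h'
  refine M.gen_rel hf (M.gen_loc hj hf hz.1 h.1 h.2) ?_
  rw [← M.A.γ_τ hz]
  exact M.gen_loc hj hf (M.A.τ_mem hz) h'.1 h'.2

/-- The section `f w ^ j` of `L ^ N`. -/
def secF (N : ℕ) (j : ℤ) (f : K) : M.Y → ℂ := M.A.glueN N (M.loc N j f)

theorem secF_γ (hj : |j| ≤ 5 * q * N) (hf : f ∈ T.V q D₀ N j) {a : M.A.ι} {z : E 2}
    (hz : z ∈ M.A.U a) : M.secF N j f (M.A.γ a z) = M.loc N j f a z :=
  PolAtlas.glueN_γ (M.loc_rel hj hf) hz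

theorem secF_isSec (hj : |j| ≤ 5 * q * N) (hf : f ∈ T.V q D₀ N j) :
    M.A.IsSec N (M.secF N j f) :=
  PolAtlas.glueN_isSec (M.loc_rel hj hf) (M.diff_loc hf)

theorem secF_ch (hj : |j| ≤ 5 * q * N) (hf : f ∈ T.V q D₀ N j) (ε : ℤˣ) (P : T.X.Pt) {z : E 2}
    (hz : ‖z 0‖ < M.r P) : M.secF N j f (M.A.γ (M.ch ε P) z) = M.locC N j f ε P z := by
  rw [M.secF_γ hj hf (by rw [M.U_ch]; exact hz), loc_ch]

theorem secF_md (hj : |j| ≤ 5 * q * N) (hf : f ∈ T.V q D₀ N j) {ε : ℤˣ} {P : T.X.Pt}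
    (hP : P ∈ SE T ε) {z : E 2} (hz : ‖z 0 * z 1‖ < M.r P) :
    M.secF N j f (M.A.γ (M.md P) z) = M.locM N j f ε P z := by
  rw [M.secF_γ hj hf (by rw [M.U_md hP]; exact hz), M.loc_md N j f hP]

theorem nn5 (hj : |j| ≤ 5 * q * N) (ε : ℤˣ) : 0 ≤ 5 * (q : ℤ) * N + (ε : ℤ) * j := by
  rcases Int.units_eq_one_or ε with rfl | rfl
  · rw [Units.val_one, one_mul]
    linarith [neg_le_of_abs_le hj]
  · rw [Units.val_neg, Units.val_one, neg_one_mul]
    linarith [le_of_abs_le hj]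

theorem εε (ε : ℤˣ) : (ε : ℤ) * ε = 1 := by
  rcases Int.units_eq_one_or ε with rfl | rfl <;> simp

theorem k_ch (ε : ℤˣ) (P : T.X.Pt) :
    M.D.k (M.ch ε P) = ![0, (ε : ℤ)] ∧ M.D.m (M.ch ε P) = -(ε : ℤ) * (5 * q) := by
  rcases Int.units_eq_one_or ε with rfl | rfl
  · obtain ⟨h1, h2⟩ := M.k_bot P
    exact ⟨h1, by rw [ch_one, h2]; push_cast; ring⟩
  · obtain ⟨h1, h2⟩ := M.k_top P
    exact ⟨h1, by rw [ch_neg_one, h2]; push_cast; ring⟩

theorem k_md {ε : ℤˣ} {P : T.X.Pt} (h : P ∈ SE T ε) :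
    M.D.k (M.md P) = ![(ε : ℤ), -(ε : ℤ)] ∧ M.D.m (M.md P) = -(ε : ℤ) * (4 * q) := by
  rcases Int.units_eq_one_or ε with rfl | rfl
  · rw [SE_one] at h
    obtain ⟨h1, h2⟩ := M.k_mid' P h
    exact ⟨h1, by rw [md, h2]; push_cast; ring⟩
  · rw [SE_neg_one] at h
    obtain ⟨h1, h2⟩ := M.k_mid P h
    refine ⟨by rw [md, h1]; simp, by rw [md, h2]; push_cast; ring⟩

/-- the section has weight `j` -/
theorem secF_act (hj : |j| ≤ 5 * q * N) (hf : f ∈ T.V q D₀ N j) (c : ℂˣ) (y : M.Y) :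
    M.secF N j f (M.D.act c y) = ((c ^ j : ℂˣ) : ℂ) * M.secF N j f y := by
  obtain ⟨a, z, hz, d, rfl⟩ := M.A.cover y
  have hS := M.secF_isSec hj hf
  rw [M.D.act_smul, M.D.act_γ a z hz, hS.hom, hS.hom, hS.hom]
  have hz' := M.D.dom a z hz c
  suffices h : ((c ^ M.D.m a : ℂˣ) : ℂ) ^ N * M.secF N j f (M.A.γ a (dact (M.D.k a) c z)) =
      ((c ^ j : ℂˣ) : ℂ) * M.secF N j f (M.A.γ a z) by
    rw [h]
    ring
  rcases M.chart_cases a hz with ⟨ε, P, rfl⟩ | ⟨ε, P, hP, rfl⟩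
  · obtain ⟨hk, hm⟩ := M.k_ch ε P
    rw [M.U_ch] at hz hz'
    rw [M.secF_ch hj hf ε P hz, M.secF_ch hj hf ε P hz', hk, hm]
    have e0 : dact ![0, (ε : ℤ)] c z 0 = z 0 := by
      show ((c ^ (0 : ℤ) : ℂˣ) : ℂ) * z 0 = z 0
      simp
    have e1 : dact ![0, (ε : ℤ)] c z 1 = ((c ^ (ε : ℤ) : ℂˣ) : ℂ) * z 1 := rfl
    rw [locC, locC, e0, e1, mul_pow]
    have e2 : (c ^ (-(ε : ℤ) * (5 * q))) ^ N *
        (c ^ (ε : ℤ)) ^ (5 * (q : ℤ) * N + (ε : ℤ) * j).toNat = c ^ j := by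
      rw [← zpow_natCast (c ^ (-(ε : ℤ) * (5 * q))), ← zpow_natCast (c ^ (ε : ℤ)),
        Int.toNat_of_nonneg (nn5 hj ε), ← zpow_mul, ← zpow_mul, ← zpow_add]
      congr 1
      linear_combination j * εε ε
    have e3 := congrArg (fun t : ℂˣ => (t : ℂ)) e2
    simp only [Units.val_mul, Units.val_pow_eq_pow_val] at e3
    linear_combination (z 1 ^ (5 * (q : ℤ) * N + (ε : ℤ) * j).toNat *
      An.rg P f (M.eC N j ε P) (z 0)) * e3
  · obtain ⟨hk, hm⟩ := M.k_md hP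
    rw [M.U_md hP] at hz hz'
    rw [M.secF_md hj hf hP hz, M.secF_md hj hf hP hz', hk, hm]
    have e0 : dact ![(ε : ℤ), -(ε : ℤ)] c z 0 = ((c ^ (ε : ℤ) : ℂˣ) : ℂ) * z 0 := rfl
    have e1 : dact ![(ε : ℤ), -(ε : ℤ)] c z 1 = ((c ^ (-(ε : ℤ)) : ℂˣ) : ℂ) * z 1 := rfl
    rw [locM, locM, e0, e1, mul_pow, mul_pow]
    have e4 : ((c ^ (ε : ℤ) : ℂˣ) : ℂ) * z 0 * (((c ^ (-(ε : ℤ)) : ℂˣ) : ℂ) * z 1) =
        z 0 * z 1 := by
      have e5 : (c ^ (ε : ℤ) : ℂˣ) * c ^ (-(ε : ℤ)) = 1 := by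
        rw [← zpow_add, add_neg_cancel, zpow_zero]
      have e6 := congrArg (fun t : ℂˣ => (t : ℂ)) e5
      simp only [Units.val_mul, Units.val_one] at e6
      linear_combination (z 0 * z 1) * e6
    rw [e4]
    have e2 : (c ^ (-(ε : ℤ) * (4 * q))) ^ N * ((c ^ (ε : ℤ)) ^ (kap q N ε j).toNat *
        (c ^ (-(ε : ℤ))) ^ (-kap q N ε j).toNat) = c ^ j := by
      rw [← zpow_natCast (c ^ (-(ε : ℤ) * (4 * q))), ← zpow_natCast (c ^ (ε : ℤ)),
        ← zpow_natCast (c ^ (-(ε : ℤ))), ← zpow_mul, ← zpow_mul, ← zpow_mul, ← zpow_add,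
        ← zpow_add]
      congr 1
      have e7 : ((kap q N ε j).toNat : ℤ) - ((-kap q N ε j).toNat : ℤ) = kap q N ε j :=
        Int.toNat_sub_toNat_neg _
      have e8 : kap q N ε j = 4 * q * N + (ε : ℤ) * j := rfl
      linear_combination (ε : ℤ) * e7 + (ε : ℤ) * e8 + j * εε ε
    have e3 := congrArg (fun t : ℂˣ => (t : ℂ)) e2
    simp only [Units.val_mul, Units.val_pow_eq_pow_val] at e3
    linear_combination (z 0 ^ (kap q N ε j).toNat * z 1 ^ (-kap q N ε j).toNat *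
      An.rg P f (M.eM N j ε P) (z 0 * z 1)) * e3

/-- values at the points of the open orbits -/
theorem secF_o (hj : |j| ≤ 5 * q * N) (hf : f ∈ T.V q D₀ N j) {P : T.X.Pt} {s : ℂ}
    (hs : s ∈ ball 0 (M.r P)) (hOk : Ok T P s) (w : ℂˣ) :
    M.secF N j f (M.o P s w) = An.rg P f (N * D₀ P) s * ((w ^ j : ℂˣ) : ℂ) := by
  obtain ⟨ε, hε⟩ : ∃ ε : ℤˣ, P ∉ SE T ε := by
    by_cases h : P ∈ SE T 1
    · exact ⟨-1, SE_disj h⟩
    · exact ⟨1, h⟩
  have h' : s ≠ 0 ∨ P ∉ SE T (-ε) := by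
    rcases (Ok_iff ε).1 hOk with h | h
    · exact Or.inl h
    · exact Or.inr h.2
  set b : ℂˣ := w ^ (ε : ℤ) with hb
  have hbw : b ^ (ε : ℤ) = w := by
    rw [hb, ← zpow_mul, εε, zpow_one]
  clear_value b
  have h1 := M.γ_ch hε hs h' b
  rw [hbw] at h1
  have h2 : M.o P s w = (b ^ (5 * (q : ℤ)))⁻¹ • M.A.γ (M.ch ε P) ![s, b] := by
    rw [h1, inv_smul_smul]
  have hS := M.secF_isSec hj hf
  rw [h2, hS.hom, M.secF_ch hj hf ε P (z := ![s, b]) (by simpa using hs), locC, eC, if_neg hε,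
    add_zero]
  show _ * ((b : ℂ) ^ _ * An.rg P f (N * D₀ P) s) = _
  have e2 : ((b ^ (5 * (q : ℤ)))⁻¹) ^ N * b ^ (5 * (q : ℤ) * N + (ε : ℤ) * j).toNat = w ^ j := by
    rw [← zpow_natCast b, Int.toNat_of_nonneg (nn5 hj ε), ← hbw, inv_pow,
      ← zpow_natCast (b ^ (5 * (q : ℤ))), ← zpow_mul, ← zpow_mul, ← zpow_neg, ← zpow_add]
    congr 1
    ring
  have e3 := congrArg (fun t : ℂˣ => (t : ℂ)) e2
  simp only [Units.val_mul, Units.val_pow_eq_pow_val] at e3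
  linear_combination (An.rg P f (N * D₀ P) s) * e3

end SigModel

end

end Pool.Agent.YTDA


end

/- source: Pool.Agent.YTDA.SigSep -/

section

/-!
# The sections of `L ^ N` on `Σ` separate points and tangent vectors
-/

namespace Pool.Agent.YTDA

open Complex Set Topology ContDiff Filter Metric
open Pool.Agent.YTD

noncomputable section

section RR

variable {K : Type} [Field K] [Algebra ℂ K] {T : Datum K} {q : ℕ} {D₀ : T.X.Pt →₀ ℤ}

/-- `N` is large enough. -/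
theorem deg_large (hq : 0 < q) (hD : T.X.deg D₀ = 105 * T.t * q) {N : ℕ} (hN : 5 ≤ N) {j : ℤ}
    (hj : |j| ≤ 5 * q * N) : 2 * (T.X.genus : ℤ) + 1 ≤ T.X.deg (T.dvs q D₀ N j) := by
  rw [deg_dvs_crit T q D₀ hD, T.genus_eq]
  refine le_trans ?_ (le_dg hj)
  have h1 : (1 : ℤ) ≤ T.t := by exact_mod_cast T.t_pos
  have h2 : (1 : ℤ) ≤ q := by exact_mod_cast hq
  have h3 : (5 : ℤ) ≤ N := by exact_mod_cast hN
  push_cast
  have h4 : (5 : ℤ) ≤ q * N := by nlinarith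
  nlinarith

variable (hq : 0 < q) (hD : T.X.deg D₀ = 105 * T.t * q) {N : ℕ} (hN : 5 ≤ N) {j : ℤ}
  (hj : |j| ≤ 5 * q * N)

include hq hD hN hj

theorem exists_E1 (Q : T.X.Pt) : ∃ f ∈ T.V q D₀ N j, f ≠ 0 ∧
    T.X.ord Q f + T.dvs q D₀ N j Q = 0 := by
  obtain ⟨P₀⟩ := T.exists_pt
  have h := deg_large hq hD hN hj
  obtain ⟨f, hf, hf0, h1⟩ := T.X.exists_ord_eq P₀ (D := T.dvs q D₀ N j) (by linarith) Q
  exact ⟨f, hf, hf0, by rw [h1]; ring⟩

theorem exists_E2 (Q : T.X.Pt) : ∃ f ∈ T.V q D₀ N j, f ≠ 0 ∧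
    T.X.ord Q f + T.dvs q D₀ N j Q = 1 := by
  classical
  obtain ⟨P₀⟩ := T.exists_pt
  have h := deg_large hq hD hN hj
  obtain ⟨f, hf, hf0, h1⟩ := T.X.exists_ord_eq P₀ (D := T.dvs q D₀ N j - Finsupp.single Q 1)
    (by rw [T.X.deg_sub, T.X.deg_single]; linarith) Q
  refine ⟨f, T.X.L_mono (fun R => ?_) hf, hf0, ?_⟩
  · rw [Finsupp.sub_apply, Finsupp.single_apply]
    split_ifs <;> simp
  · rw [h1, Finsupp.sub_apply, Finsupp.single_eq_same]
    ring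

theorem exists_E3 {Q Q' : T.X.Pt} (hQ : Q ≠ Q') : ∃ f ∈ T.V q D₀ N j, f ≠ 0 ∧
    T.X.ord Q f + T.dvs q D₀ N j Q = 0 ∧ 1 ≤ T.X.ord Q' f + T.dvs q D₀ N j Q' := by
  classical
  obtain ⟨P₀⟩ := T.exists_pt
  have h := deg_large hq hD hN hj
  obtain ⟨f, hf, hf0, h1⟩ := T.X.exists_ord_eq P₀ (D := T.dvs q D₀ N j - Finsupp.single Q' 1)
    (by rw [T.X.deg_sub, T.X.deg_single]; linarith) Q
  refine ⟨f, T.X.L_mono (fun R => ?_) hf, hf0, ?_, ?_⟩
  · rw [Finsupp.sub_apply, Finsupp.single_apply]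
    split_ifs <;> simp
  · rw [h1, Finsupp.sub_apply, Finsupp.single_eq_of_ne hQ]
    ring
  · have h2 := hf hf0 Q'
    rw [Finsupp.sub_apply, Finsupp.single_eq_same] at h2
    linarith

end RR

namespace SigModel

variable {K : Type} [Field K] [Algebra ℂ K] {T : Datum K} {q : ℕ} {D₀ : T.X.Pt →₀ ℤ}
  {An : AnCurve T.X.toCurveOrd} (M : SigModel T q D₀ An)

variable {N : ℕ} {j : ℤ} {f : K}

/-- the multiplicity of the divisor vanishes outside the centre of the disc -/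
theorem dvs_iso (P : T.X.Pt) {s : ℂ} (hs : s ∈ ball 0 (M.r P)) (h0 : s ≠ 0) (N : ℕ) (j : ℤ) :
    T.dvs q D₀ N j (An.c P s) = 0 := by
  obtain ⟨h2, h3, h4⟩ := M.iso P s hs h0
  rw [dvs_not h2 h3, h4, mul_zero]

/-- order of the regular value -/
theorem ord_tight {P : T.X.Pt} {s : ℂ} {e : ℤ} (hs : s ∈ ball 0 (M.r P)) (hf0 : f ≠ 0)
    (he : e = T.dvs q D₀ N j P) : meromorphicOrderAt (An.pf P f e) s =
      ((T.X.ord (An.c P s) f + T.dvs q D₀ N j (An.c P s) : ℤ) : WithTop ℤ) := by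
  by_cases h0 : s = 0
  · rw [h0, AnCurve.ord_pf_zero hf0, An.c_zero, he]
  · rw [AnCurve.ord_pf_ne hf0 e (ball_subset_ball (M.r_le P) hs) h0, M.dvs_iso P hs h0, add_zero]

theorem rg_ne_of_ord {P : T.X.Pt} {s : ℂ} {e : ℤ} (hf : f ∈ T.V q D₀ N j)
    (hs : s ∈ ball 0 (M.r P)) (hf0 : f ≠ 0) (he : e = T.dvs q D₀ N j P)
    (h : T.X.ord (An.c P s) f + T.dvs q D₀ N j (An.c P s) = 0) : An.rg P f e s ≠ 0 := by
  rw [AnCurve.rg_ne_zero_iff (ball_subset_ball (M.r_le P) hs) (M.reg hf he.ge hs),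
    M.ord_tight hs hf0 he, h]
  rfl

theorem rg_eq_of_ord {P : T.X.Pt} {s : ℂ} {e : ℤ} (hf : f ∈ T.V q D₀ N j)
    (hs : s ∈ ball 0 (M.r P)) (hf0 : f ≠ 0) (he : e = T.dvs q D₀ N j P)
    (h : 1 ≤ T.X.ord (An.c P s) f + T.dvs q D₀ N j (An.c P s)) : An.rg P f e s = 0 := by
  by_contra hne
  change An.rg P f e s ≠ 0 at hne
  rw [AnCurve.rg_ne_zero_iff (ball_subset_ball (M.r_le P) hs) (M.reg hf he.ge hs),
    M.ord_tight hs hf0 he] at hne
  have : T.X.ord (An.c P s) f + T.dvs q D₀ N j (An.c P s) = 0 := by exact_mod_cast hne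
  linarith

theorem deriv_of_ord {P : T.X.Pt} {s : ℂ} {e : ℤ} (hs : s ∈ ball 0 (M.r P)) (hf0 : f ≠ 0)
    (he : e = T.dvs q D₀ N j P)
    (h : T.X.ord (An.c P s) f + T.dvs q D₀ N j (An.c P s) = 1) :
    An.rg P f e s = 0 ∧ deriv (An.rg P f e) s ≠ 0 := by
  apply AnCurve.deriv_rg_ne_zero (ball_subset_ball (M.r_le P) hs)
  rw [M.ord_tight hs hf0 he, h]
  rfl

include M in
/-- the value at the centre of a disc vanishes if the exponent is too large -/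
theorem rg_zero_of_lt {P : T.X.Pt} {e : ℤ} (hf : f ∈ T.V q D₀ N j)
    (he : T.dvs q D₀ N j P < e) : An.rg P f e 0 = 0 := by
  have hs : (0 : ℂ) ∈ ball (0 : ℂ) (M.r P) := mem_ball_self (M.r_pos P)
  have hs' := ball_subset_ball (M.r_le P) hs
  by_cases hf0 : f = 0
  · rw [hf0]
    exact AnCurve.rg_unique (g := fun _ => 0) hs' (AnCurve.reg_zero e hs') continuousAt_const
      (AnCurve.pf_zero_eventually e hs').symm
  · by_contra hne
    change An.rg P f e 0 ≠ 0 at hne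
    rw [AnCurve.rg_ne_zero_iff hs' (M.reg hf he.le hs), AnCurve.ord_pf_zero hf0] at hne
    have h1 : T.X.ord P f + e = 0 := by exact_mod_cast hne
    have h2 := hf hf0 P
    linarith

theorem kap_add (ε : ℤˣ) : kap q N ε j + kap q N (-ε) j = 8 * q * N := by
  unfold kap
  push_cast
  ring

/-- the exponent in the side chart is the multiplicity if `4qN + εj ≤ 0` -/
theorem eC_tight (ε : ℤˣ) (P : T.X.Pt) (h : kap q N ε j ≤ 0) :
    M.eC N j ε P = T.dvs q D₀ N j P := by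
  unfold eC
  by_cases hP : P ∈ SE T ε
  · simp only [hP, if_true]
    rw [dvs_SE hP, max_eq_right (by linarith)]
    ring
  · simp only [hP, if_false, add_zero]
    by_cases hP' : P ∈ SE T (-ε)
    · have h1 := kap_add (q := q) (N := N) (j := j) ε
      have h2 : (0 : ℤ) ≤ 8 * q * N := by positivity
      rw [dvs_SE hP', max_eq_left (by linarith)]
      ring
    · rw [dvs_not' hP hP']

/-- The sections. -/
def WS (N : ℕ) (j : ℤ) : Set (M.Y → ℂ) :=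
  {F | |j| ≤ 5 * q * N ∧ ∃ f ∈ T.V q D₀ N j, F = M.secF N j f}

theorem WS_wt {F : M.Y → ℂ} (hF : F ∈ M.WS N j) : Wt M.D N j F := by
  obtain ⟨hj, f, hf, rfl⟩ := hF
  exact ⟨M.secF_isSec hj hf, M.secF_act hj hf⟩

/-- the weight `j` with `4qN + εj = k` -/
def wt (q N : ℕ) (ε : ℤˣ) (k : ℤ) : ℤ := (ε : ℤ) * (k - 4 * q * N)

theorem kap_wt (ε : ℤˣ) (k : ℤ) : kap q N ε (wt q N ε k) = k := by
  unfold kap wt
  linear_combination (k - 4 * q * N) * εε ε

theorem wt_le {ε : ℤˣ} {k : ℤ} (h1 : -((q : ℤ) * N) ≤ k) (h2 : k ≤ 9 * q * N) :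
    |wt q N ε k| ≤ 5 * q * N := by
  unfold wt
  rw [abs_mul]
  have h3 : |((ε : ℤˣ) : ℤ)| = 1 := by
    rcases Int.units_eq_one_or ε with rfl | rfl <;> simp
  rw [h3, one_mul, abs_le]
  constructor <;> nlinarith

theorem exp_wt (ε : ℤˣ) (k : ℤ) :
    5 * (q : ℤ) * N + (ε : ℤ) * wt q N ε k = q * N + k := by
  unfold wt
  linear_combination (k - 4 * q * N) * εε ε

/-! ### Derivatives of the local expressions -/

theorem fderiv_mono1 (m : ℕ) {g : ℂ → ℂ} {z : E 2} (hg : DifferentiableAt ℂ g (z 0)) (v : E 2) :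
    fderiv ℂ (fun w : E 2 => w 1 ^ m * g (w 0)) z v =
      (m * z 1 ^ (m - 1) * v 1) * g (z 0) + z 1 ^ m * (deriv g (z 0) * v 0) := by
  have p0 : HasFDerivAt (fun w : E 2 => w 0)
      (ContinuousLinearMap.proj (R := ℂ) (φ := fun _ : Fin 2 => ℂ) 0) z :=
    (ContinuousLinearMap.proj (R := ℂ) (φ := fun _ : Fin 2 => ℂ) 0).hasFDerivAt
  have p1 : HasFDerivAt (fun w : E 2 => w 1)
      (ContinuousLinearMap.proj (R := ℂ) (φ := fun _ : Fin 2 => ℂ) 1) z :=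
    (ContinuousLinearMap.proj (R := ℂ) (φ := fun _ : Fin 2 => ℂ) 1).hasFDerivAt
  have h1 := (hasDerivAt_pow m (z 1)).comp_hasFDerivAt z p1
  have h2 := hg.hasDerivAt.comp_hasFDerivAt z p0
  have h3 := h1.fun_mul h2
  have h4 : HasFDerivAt (fun w : E 2 => w 1 ^ m * g (w 0)) _ z := h3
  rw [h4.fderiv]
  show z 1 ^ m * (deriv g (z 0) * v 0) + g (z 0) * ((m * z 1 ^ (m - 1)) * v 1) = _
  ring

theorem fderiv_mono2 (a b : ℕ) {g : ℂ → ℂ} {z : E 2} (hg : DifferentiableAt ℂ g (z 0 * z 1))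
    (v : E 2) : fderiv ℂ (fun w : E 2 => w 0 ^ a * w 1 ^ b * g (w 0 * w 1)) z v =
      (a * z 0 ^ (a - 1) * v 0 * z 1 ^ b + z 0 ^ a * (b * z 1 ^ (b - 1) * v 1)) * g (z 0 * z 1) +
      z 0 ^ a * z 1 ^ b * (deriv g (z 0 * z 1) * (v 0 * z 1 + z 0 * v 1)) := by
  have p0 : HasFDerivAt (fun w : E 2 => w 0)
      (ContinuousLinearMap.proj (R := ℂ) (φ := fun _ : Fin 2 => ℂ) 0) z :=
    (ContinuousLinearMap.proj (R := ℂ) (φ := fun _ : Fin 2 => ℂ) 0).hasFDerivAt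
  have p1 : HasFDerivAt (fun w : E 2 => w 1)
      (ContinuousLinearMap.proj (R := ℂ) (φ := fun _ : Fin 2 => ℂ) 1) z :=
    (ContinuousLinearMap.proj (R := ℂ) (φ := fun _ : Fin 2 => ℂ) 1).hasFDerivAt
  have h0 := (hasDerivAt_pow a (z 0)).comp_hasFDerivAt z p0
  have h1 := (hasDerivAt_pow b (z 1)).comp_hasFDerivAt z p1
  have h2 := HasDerivAt.comp_hasFDerivAt (h₂ := g) z hg.hasDerivAt (p0.fun_mul p1)
  have h3 := (h0.fun_mul h1).fun_mul h2
  have h4 : HasFDerivAt (fun w : E 2 => w 0 ^ a * w 1 ^ b * g (w 0 * w 1)) _ z := h3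
  rw [h4.fderiv]
  show z 0 ^ a * z 1 ^ b * (deriv g (z 0 * z 1) * (z 0 * v 1 + z 1 * v 0)) +
    g (z 0 * z 1) * (z 0 ^ a * ((b * z 1 ^ (b - 1)) * v 1) +
      z 1 ^ b * ((a * z 0 ^ (a - 1)) * v 0)) = _
  ring

/-! ### Tangent vectors -/

section Tan

variable (hq : 0 < q) (hD : T.X.deg D₀ = 105 * T.t * q) (hN : 5 ≤ N)

include hq hN

theorem qN_pos : 5 ≤ (q : ℤ) * N := by
  have h2 : (1 : ℤ) ≤ q := by exact_mod_cast hq
  have h3 : (5 : ℤ) ≤ N := by exact_mod_cast hN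
  nlinarith

include hD

theorem tan_ch (ε : ℤˣ) (P : T.X.Pt) {z : E 2} (hz : ‖z 0‖ < M.r P) (v : E 2) (t : ℂ)
    (h : ∀ j, ∀ F ∈ M.WS N j, fderiv ℂ (fun w => F (M.A.γ (M.ch ε P) w)) z v =
      t * F (M.A.γ (M.ch ε P) z)) : v = 0 := by
  have hqN := qN_pos hq hN
  have hs : z 0 ∈ ball 0 (M.r P) := mem_ball_zero_iff.2 hz
  have hU : ∀ᶠ w in 𝓝 z, w ∈ M.A.U (M.ch ε P) :=
    (M.A.isOpen_U _).mem_nhds (by rw [M.U_ch]; exact hz)
  -- the relation for the sections with `k ≤ 0`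
  have key : ∀ k : ℤ, -((q : ℤ) * N) ≤ k → k ≤ 0 → ∀ f ∈ T.V q D₀ N (wt q N ε k),
      (((q * N + k : ℤ).toNat : ℂ) * z 1 ^ ((q * N + k : ℤ).toNat - 1) * v 1) *
        An.rg P f (T.dvs q D₀ N (wt q N ε k) P) (z 0) +
        z 1 ^ (q * N + k : ℤ).toNat * (deriv (An.rg P f (T.dvs q D₀ N (wt q N ε k) P)) (z 0) *
          v 0) = t * (z 1 ^ (q * N + k : ℤ).toNat *
            An.rg P f (T.dvs q D₀ N (wt q N ε k) P) (z 0)) := by
    intro k hk1 hk2 f hf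
    have hj : |wt q N ε k| ≤ 5 * q * N := wt_le hk1 (by linarith)
    have h1 := h _ _ ⟨hj, f, hf, rfl⟩
    have hdiff : DifferentiableAt ℂ (An.rg P f (T.dvs q D₀ N (wt q N ε k) P)) (z 0) :=
      (AnCurve.analyticAt_rg (ball_subset_ball (M.r_le P) hs) (M.reg hf le_rfl hs)).differentiableAt
    have h2 : (fun w => M.secF N (wt q N ε k) f (M.A.γ (M.ch ε P) w)) =ᶠ[𝓝 z]
        fun w => w 1 ^ (q * N + k : ℤ).toNat * An.rg P f (T.dvs q D₀ N (wt q N ε k) P) (w 0) := by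
      filter_upwards [hU] with w hw
      rw [M.U_ch] at hw
      rw [M.secF_ch hj hf ε P hw, locC, M.eC_tight ε P (by rw [kap_wt]; exact hk2), exp_wt]
    rw [h2.fderiv_eq, fderiv_mono1 _ hdiff, h2.eq_of_nhds] at h1
    exact h1
  -- the pivot
  have k0 := key (-((q : ℤ) * N)) le_rfl (by linarith)
  rw [show ((q : ℤ) * N + -((q : ℤ) * N)).toNat = 0 by simp] at k0
  have hj0 : |wt q N ε (-((q : ℤ) * N))| ≤ 5 * q * N := wt_le le_rfl (by linarith)
  obtain ⟨f₂, hf₂, hf₂0, hf₂o⟩ := exists_E2 hq hD hN hj0 (An.c P (z 0))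
  obtain ⟨f₁, hf₁, hf₁0, hf₁o⟩ := exists_E1 hq hD hN hj0 (An.c P (z 0))
  obtain ⟨d1, d2⟩ := M.deriv_of_ord hs hf₂0 rfl hf₂o
  have d3 := M.rg_ne_of_ord hf₁ hs hf₁0 rfl hf₁o
  have r2 := k0 f₂ hf₂
  rw [d1] at r2
  have hv0 : v 0 = 0 := by
    have : deriv (An.rg P f₂ (T.dvs q D₀ N (wt q N ε (-((q : ℤ) * N))) P)) (z 0) * v 0 = 0 := by
      simpa using r2
    rcases mul_eq_zero.1 this with h | h
    · exact absurd h d2
    · exact h
  have r1 := k0 f₁ hf₁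
  rw [hv0] at r1
  have ht : t = 0 := by
    have : t * An.rg P f₁ (T.dvs q D₀ N (wt q N ε (-((q : ℤ) * N))) P) (z 0) = 0 := by
      simpa using r1.symm
    rcases mul_eq_zero.1 this with h | h
    · exact h
    · exact absurd h d3
  -- the second coordinate
  have k1 := key (-((q : ℤ) * N) + 1) (by linarith) (by linarith)
  rw [show ((q : ℤ) * N + (-((q : ℤ) * N) + 1)).toNat = 1 by
    rw [show (q : ℤ) * N + (-((q : ℤ) * N) + 1) = 1 by ring]; rfl] at k1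
  have hj1 : |wt q N ε (-((q : ℤ) * N) + 1)| ≤ 5 * q * N := wt_le (by linarith) (by linarith)
  obtain ⟨f₃, hf₃, hf₃0, hf₃o⟩ := exists_E1 hq hD hN hj1 (An.c P (z 0))
  have d4 := M.rg_ne_of_ord hf₃ hs hf₃0 rfl hf₃o
  have r3 := k1 f₃ hf₃
  rw [hv0, ht] at r3
  have hv1 : v 1 = 0 := by
    have : v 1 * An.rg P f₃ (T.dvs q D₀ N (wt q N ε (-((q : ℤ) * N) + 1)) P) (z 0) = 0 := by
      simpa using r3
    rcases mul_eq_zero.1 this with h | h
    · exact h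
    · exact absurd h d4
  ext i
  fin_cases i
  · exact hv0
  · exact hv1

theorem tan_md {ε : ℤˣ} {P : T.X.Pt} (hP : P ∈ SE T ε) {z : E 2} (hz : ‖z 0 * z 1‖ < M.r P)
    (v : E 2) (t : ℂ) (h : ∀ j, ∀ F ∈ M.WS N j, fderiv ℂ (fun w => F (M.A.γ (M.md P) w)) z v =
      t * F (M.A.γ (M.md P) z)) : v = 0 := by
  have hqN := qN_pos hq hN
  have hs : z 0 * z 1 ∈ ball 0 (M.r P) := mem_ball_zero_iff.2 hz
  have hU : ∀ᶠ w in 𝓝 z, w ∈ M.A.U (M.md P) :=
    (M.A.isOpen_U _).mem_nhds (by rw [M.U_md hP]; exact hz)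
  set s := z 0 * z 1 with hsdef
  have key : ∀ k : ℤ, -((q : ℤ) * N) ≤ k → k ≤ 9 * q * N → ∀ f ∈ T.V q D₀ N (wt q N ε k),
      (((k.toNat : ℂ) * z 0 ^ (k.toNat - 1) * v 0 * z 1 ^ (-k).toNat +
        z 0 ^ k.toNat * (((-k).toNat : ℂ) * z 1 ^ ((-k).toNat - 1) * v 1)) *
        An.rg P f (T.dvs q D₀ N (wt q N ε k) P) s +
        z 0 ^ k.toNat * z 1 ^ (-k).toNat *
          (deriv (An.rg P f (T.dvs q D₀ N (wt q N ε k) P)) s * (v 0 * z 1 + z 0 * v 1))) =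
        t * (z 0 ^ k.toNat * z 1 ^ (-k).toNat * An.rg P f (T.dvs q D₀ N (wt q N ε k) P) s) := by
    intro k hk1 hk2 f hf
    have hj : |wt q N ε k| ≤ 5 * q * N := wt_le hk1 hk2
    have h1 := h _ _ ⟨hj, f, hf, rfl⟩
    have hdiff : DifferentiableAt ℂ (An.rg P f (T.dvs q D₀ N (wt q N ε k) P)) s :=
      (AnCurve.analyticAt_rg (ball_subset_ball (M.r_le P) hs) (M.reg hf le_rfl hs)).differentiableAt
    have h2 : (fun w => M.secF N (wt q N ε k) f (M.A.γ (M.md P) w)) =ᶠ[𝓝 z]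
        fun w => w 0 ^ k.toNat * w 1 ^ (-k).toNat *
          An.rg P f (T.dvs q D₀ N (wt q N ε k) P) (w 0 * w 1) := by
      filter_upwards [hU] with w hw
      rw [M.U_md hP] at hw
      rw [M.secF_md hj hf hP hw, locM, M.eM_eq hP, kap_wt]
    rw [h2.fderiv_eq, fderiv_mono2 _ _ hdiff, h2.eq_of_nhds] at h1
    exact h1
  -- the pivot
  have k0 := key 0 (by linarith) (by positivity)
  have hj0 : |wt q N ε 0| ≤ 5 * q * N := wt_le (by linarith) (by positivity)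
  obtain ⟨f₂, hf₂, hf₂0, hf₂o⟩ := exists_E2 hq hD hN hj0 (An.c P s)
  obtain ⟨f₁, hf₁, hf₁0, hf₁o⟩ := exists_E1 hq hD hN hj0 (An.c P s)
  obtain ⟨d1, d2⟩ := M.deriv_of_ord hs hf₂0 rfl hf₂o
  have d3 := M.rg_ne_of_ord hf₁ hs hf₁0 rfl hf₁o
  have r2 := k0 f₂ hf₂
  rw [d1] at r2
  have hds : v 0 * z 1 + z 0 * v 1 = 0 := by
    have : deriv (An.rg P f₂ (T.dvs q D₀ N (wt q N ε 0) P)) s * (v 0 * z 1 + z 0 * v 1) = 0 := by
      simpa using r2
    rcases mul_eq_zero.1 this with h | h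
    · exact absurd h d2
    · exact h
  have r1 := k0 f₁ hf₁
  rw [hds] at r1
  have ht : t = 0 := by
    have : t * An.rg P f₁ (T.dvs q D₀ N (wt q N ε 0) P) s = 0 := by
      simpa using r1.symm
    rcases mul_eq_zero.1 this with h | h
    · exact h
    · exact absurd h d3
  -- the coordinates
  have k1 := key 1 (by linarith) (by linarith)
  have hj1 : |wt q N ε 1| ≤ 5 * q * N := wt_le (by linarith) (by linarith)
  obtain ⟨f₃, hf₃, hf₃0, hf₃o⟩ := exists_E1 hq hD hN hj1 (An.c P s)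
  have d4 := M.rg_ne_of_ord hf₃ hs hf₃0 rfl hf₃o
  have r3 := k1 f₃ hf₃
  rw [hds, ht] at r3
  have hv0 : v 0 = 0 := by
    have : v 0 * An.rg P f₃ (T.dvs q D₀ N (wt q N ε 1) P) s = 0 := by
      simpa using r3
    rcases mul_eq_zero.1 this with h | h
    · exact h
    · exact absurd h d4
  have k2 := key (-1) (by linarith) (by linarith)
  have hj2 : |wt q N ε (-1)| ≤ 5 * q * N := wt_le (by linarith) (by linarith)
  obtain ⟨f₄, hf₄, hf₄0, hf₄o⟩ := exists_E1 hq hD hN hj2 (An.c P s)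
  have d5 := M.rg_ne_of_ord hf₄ hs hf₄0 rfl hf₄o
  have r4 := k2 f₄ hf₄
  rw [hds, ht] at r4
  have hv1 : v 1 = 0 := by
    have : v 1 * An.rg P f₄ (T.dvs q D₀ N (wt q N ε (-1)) P) s = 0 := by
      simpa using r4
    rcases mul_eq_zero.1 this with h | h
    · exact h
    · exact absurd h d5
  ext i
  fin_cases i
  · exact hv0
  · exact hv1

/-- no base points -/
theorem base_WS (y : M.Y) : ∃ j, ∃ F ∈ M.WS N j, F y ≠ 0 := by
  have hqN := qN_pos hq hN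
  obtain ⟨a, z, hz, c, rfl⟩ := M.A.cover y
  rcases M.chart_cases a hz with ⟨ε, P, rfl⟩ | ⟨ε, P, hP, rfl⟩
  · rw [M.U_ch] at hz
    have hs : z 0 ∈ ball 0 (M.r P) := mem_ball_zero_iff.2 hz
    have hj0 : |wt q N ε (-((q : ℤ) * N))| ≤ 5 * q * N := wt_le le_rfl (by linarith)
    obtain ⟨f₁, hf₁, hf₁0, hf₁o⟩ := exists_E1 hq hD hN hj0 (An.c P (z 0))
    refine ⟨_, _, ⟨hj0, f₁, hf₁, rfl⟩, ?_⟩
    rw [(M.secF_isSec hj0 hf₁).hom, M.secF_ch hj0 hf₁ ε P hz, locC,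
      M.eC_tight ε P (by rw [kap_wt]; linarith), exp_wt]
    have d3 := M.rg_ne_of_ord hf₁ hs hf₁0 rfl hf₁o
    rw [show ((q : ℤ) * N + -((q : ℤ) * N)).toNat = 0 by simp, pow_zero, one_mul]
    exact mul_ne_zero (pow_ne_zero _ c.ne_zero) d3
  · rw [M.U_md hP] at hz
    have hs : z 0 * z 1 ∈ ball 0 (M.r P) := mem_ball_zero_iff.2 hz
    have hj0 : |wt q N ε 0| ≤ 5 * q * N := wt_le (by linarith) (by positivity)
    obtain ⟨f₁, hf₁, hf₁0, hf₁o⟩ := exists_E1 hq hD hN hj0 (An.c P (z 0 * z 1))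
    refine ⟨_, _, ⟨hj0, f₁, hf₁, rfl⟩, ?_⟩
    rw [(M.secF_isSec hj0 hf₁).hom, M.secF_md hj0 hf₁ hP hz, locM, M.eM_eq hP, kap_wt]
    have d3 := M.rg_ne_of_ord hf₁ hs hf₁0 rfl hf₁o
    simp only [Int.toNat_zero, neg_zero, pow_zero, one_mul]
    exact mul_ne_zero (pow_ne_zero _ c.ne_zero) d3

end Tan

end SigModel

end

end Pool.Agent.YTDA


end

/- source: Pool.Agent.YTDA.SigPts -/

section

/-!
# The sections of `L ^ N` on `Σ` separate points
-/

namespace Pool.Agent.YTDA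

open Complex Set Topology ContDiff Filter Metric
open Pool.Agent.YTD

noncomputable section

namespace SigModel

variable {K : Type} [Field K] [Algebra ℂ K] {T : Datum K} {q : ℕ} {D₀ : T.X.Pt →₀ ℤ}
  {An : AnCurve T.X.toCurveOrd} (M : SigModel T q D₀ An)

variable {N : ℕ} {j : ℤ} {f : K}

/-- `y` lies over `Q` and in the side chart -/
def Side (ε : ℤˣ) (Q : T.X.Pt) (y : M.Y) : Prop :=
  ∃ (b : ℂ) (c : ℂˣ), y = c • M.A.γ (M.ch ε Q) ![0, b]

/-- `y` lies over `Q` and in the middle chart -/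
def Mid (Q : T.X.Pt) (y : M.Y) : Prop :=
  ∃ (z : E 2) (c : ℂˣ), z 0 * z 1 = 0 ∧ y = c • M.A.γ (M.md Q) z

theorem notMem_SE {P : T.X.Pt} {s : ℂ} (hs : s ∈ ball 0 (M.r P)) (h0 : s ≠ 0) (ε : ℤˣ) :
    An.c P s ∉ SE T ε := by
  obtain ⟨h1, h2, -⟩ := M.iso P s hs h0
  rcases Int.units_eq_one_or ε with rfl | rfl
  · rwa [SE_one]
  · rwa [SE_neg_one]

theorem mem_ball0 (Q : T.X.Pt) : (0 : ℂ) ∈ ball (0 : ℂ) (M.r Q) := mem_ball_self (M.r_pos Q)

theorem γ_side {ε : ℤˣ} {Q : T.X.Pt} (h : Q ∉ SE T ε) (h' : Q ∉ SE T (-ε)) (w : ℂˣ) :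
    M.A.γ (M.ch ε Q) ![0, ((w ^ (ε : ℤ) : ℂˣ) : ℂ)] =
      (w ^ (ε : ℤ)) ^ (5 * (q : ℤ)) • M.o Q 0 w := by
  have h1 := M.γ_ch h (M.mem_ball0 Q) (Or.inr h') (w ^ (ε : ℤ))
  have h2 : (w ^ (ε : ℤ)) ^ (ε : ℤ) = w := by
    rw [← zpow_mul, εε, zpow_one]
  rw [h2] at h1
  exact h1

theorem o_side (ε : ℤˣ) {P : T.X.Pt} {s : ℂ} (hs : s ∈ ball 0 (M.r P)) (h0 : s ≠ 0) (w : ℂˣ) :
    ∃ c : ℂˣ, M.o P s w = c • M.A.γ (M.ch ε (An.c P s)) ![0, ((w ^ (ε : ℤ) : ℂˣ) : ℂ)] := by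
  have h1 := M.notMem_SE hs h0 ε
  have h2 := M.notMem_SE hs h0 (-ε)
  rw [M.γ_side h1 h2 w]
  have hOk : Ok T P s := Or.inl h0
  have hOk' : Ok T (An.c P s) 0 := (Ok_iff ε).2 (Or.inr ⟨h1, h2⟩)
  rw [M.o_tr P (An.c P s) s hs 0 (M.mem_ball0 _) hOk hOk' (An.c_zero _).symm w, smul_smul]
  refine ⟨((w ^ (ε : ℤ)) ^ (5 * (q : ℤ)) * (upow 0 (D₀ (An.c P s)) / upow s (D₀ P)))⁻¹, ?_⟩
  rw [inv_smul_smul]

open Classical in
/-- recentering a point of a side chart -/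
theorem ch_side (ε : ℤˣ) {P : T.X.Pt} {s : ℂ} (hs : s ∈ ball 0 (M.r P)) (h0 : s ≠ 0) (b : ℂˣ) :
    ∃ c : ℂˣ, M.A.γ (M.ch ε P) ![s, b] =
      c • M.A.γ (M.ch ε (An.c P s)) ![0, (if P ∈ SE T ε then s else 1) * b] := by
  by_cases hP : P ∈ SE T ε
  · have h1 := M.γ_ch' hP (Units.mk0 s h0) (mem_ball_zero_iff.1 hs) b
    obtain ⟨c, hc⟩ := M.o_side ε hs h0 ((Units.mk0 s h0 * b) ^ (ε : ℤ))
    rw [← zpow_mul, εε, zpow_one] at hc
    rw [Units.val_mk0] at h1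
    rw [h1, hc, smul_smul, if_pos hP]
    exact ⟨_, rfl⟩
  · have h1 := M.γ_ch hP hs (Or.inl h0) b
    obtain ⟨c, hc⟩ := M.o_side ε hs h0 (b ^ (ε : ℤ))
    rw [← zpow_mul, εε, zpow_one] at hc
    rw [h1, hc, smul_smul, if_neg hP, one_mul]
    exact ⟨_, rfl⟩

theorem tendsto_pair {l : Filter ℂ} {u v : ℂ → ℂ} {a b : ℂ} (hu : Tendsto u l (𝓝 a))
    (hv : Tendsto v l (𝓝 b)) : Tendsto (fun x => (![u x, v x] : E 2)) l (𝓝 ![a, b]) := by
  rw [tendsto_pi_nhds]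
  intro i
  fin_cases i
  · exact hu
  · exact hv

theorem mem_U_ch {ε : ℤˣ} {Q : T.X.Pt} {s b : ℂ} (hs : s ∈ ball 0 (M.r Q)) :
    (![s, b] : E 2) ∈ M.A.U (M.ch ε Q) := by
  rw [M.U_ch]
  exact mem_ball_zero_iff.1 hs

/-- the point of the section `b = 0` -/
theorem ch_side_zero (ε : ℤˣ) {P : T.X.Pt} {s : ℂ} (hs : s ∈ ball 0 (M.r P)) (h0 : s ≠ 0) :
    ∃ c : ℂˣ, M.A.γ (M.ch ε P) ![s, 0] = c • M.A.γ (M.ch ε (An.c P s)) ![0, 0] := by
  classical
  set t : ℂ := if P ∈ SE T ε then s else 1 with ht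
  have hid : Tendsto (fun b : ℂ => b) (𝓝[≠] (0 : ℂ)) (𝓝 0) := tendsto_id.mono_left nhdsWithin_le_nhds
  have hmul : Tendsto (fun b : ℂ => t * b) (𝓝[≠] (0 : ℂ)) (𝓝 0) := by
    have := hid.const_mul t
    rwa [mul_zero] at this
  refine PolAtlas.eq_of_tendsto M.t2 (a := M.ch ε (An.c P s)) (b := M.ch ε P)
    (M.mem_U_ch (M.mem_ball0 _)) (M.mem_U_ch hs) (l := 𝓝[≠] (0 : ℂ))
    (u := fun b => ![0, t * b]) (u' := fun b => ![s, b])
    (tendsto_pair tendsto_const_nhds hmul) (tendsto_pair tendsto_const_nhds hid) ?_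
  filter_upwards [self_mem_nhdsWithin] with b hb
  exact M.ch_side ε hs h0 (Units.mk0 b hb)

/-- Every point is in a chart centred at its projection. -/
theorem recenter (y : M.Y) : ∃ Q, (∃ ε, M.Side ε Q y) ∨ ((∃ ε, Q ∈ SE T ε) ∧ M.Mid Q y) := by
  classical
  obtain ⟨a, z, hz, c, rfl⟩ := M.A.cover y
  rcases M.chart_cases a hz with ⟨ε, P, rfl⟩ | ⟨ε, P, hP, rfl⟩
  · have hzz : z = ![z 0, z 1] := by ext i; fin_cases i <;> rfl
    rw [M.U_ch] at hz
    have hs : z 0 ∈ ball 0 (M.r P) := mem_ball_zero_iff.2 hz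
    by_cases h0 : z 0 = 0
    · exact ⟨P, Or.inl ⟨ε, z 1, c, by rw [← h0, ← hzz]⟩⟩
    · by_cases h1 : z 1 = 0
      · obtain ⟨d, hd⟩ := M.ch_side_zero ε hs h0
        refine ⟨An.c P (z 0), Or.inl ⟨ε, 0, c * d, ?_⟩⟩
        rw [hzz, h1]
        show c • M.A.γ (M.ch ε P) ![z 0, 0] = _
        rw [hd, smul_smul]
        rfl
      · obtain ⟨d, hd⟩ := M.ch_side ε hs h0 (Units.mk0 _ h1)
        rw [Units.val_mk0] at hd
        refine ⟨An.c P (z 0), Or.inl ⟨ε, (if P ∈ SE T ε then z 0 else 1) * z 1, c * d, ?_⟩⟩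
        rw [← smul_smul, ← hd, ← hzz]
  · by_cases h0 : z 0 * z 1 = 0
    · exact ⟨P, Or.inr ⟨⟨ε, hP⟩, z, c, h0, rfl⟩⟩
    · have hzz : z = ![z 0, z 1] := by ext i; fin_cases i <;> rfl
      rw [M.U_md hP] at hz
      have hs : z 0 * z 1 ∈ ball 0 (M.r P) := mem_ball_zero_iff.2 hz
      have h00 : z 0 ≠ 0 := left_ne_zero_of_mul h0
      have h11 : z 1 ≠ 0 := right_ne_zero_of_mul h0
      have h1 := M.γ_md hP (Units.mk0 _ h00) (Units.mk0 _ h11) (by
        rw [Units.val_mk0, Units.val_mk0]; exact hz)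
      rw [Units.val_mk0, Units.val_mk0] at h1
      obtain ⟨d, hd⟩ := M.o_side 1 hs h0 (Units.mk0 _ h00 ^ (ε : ℤ))
      refine ⟨An.c P (z 0 * z 1), Or.inl ⟨1,
        (((Units.mk0 _ h00 ^ (ε : ℤ)) ^ ((1 : ℤˣ) : ℤ) : ℂˣ) : ℂ),
        c * ((Units.mk0 _ h00) ^ (4 * (q : ℤ)) * d), ?_⟩⟩
      rw [← smul_smul, ← smul_smul, ← hd, ← h1, ← hzz]

/-- from the middle chart to the side chart `ε` -/
theorem md_side {ε : ℤˣ} {Q : T.X.Pt} (hQ : Q ∈ SE T ε) {t : ℂ} (ht : t ≠ 0) :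
    M.Side ε Q (M.A.γ (M.md Q) ![0, t]) := by
  have hid : Tendsto (fun b : ℂ => b) (𝓝[≠] (0 : ℂ)) (𝓝 0) := tendsto_id.mono_left nhdsWithin_le_nhds
  have hmul : Tendsto (fun b : ℂ => b * t) (𝓝[≠] (0 : ℂ)) (𝓝 0) := by
    have := hid.mul_const t
    rwa [zero_mul] at this
  obtain ⟨c, hc⟩ := PolAtlas.eq_of_tendsto M.t2 (a := M.ch ε Q) (b := M.md Q) (z := ![0, t⁻¹])
    (z' := ![0, t]) (M.mem_U_ch (M.mem_ball0 _)) (by
      rw [M.U_md hQ]
      show ‖(0 : ℂ) * t‖ < M.r Q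
      rw [zero_mul, norm_zero]
      exact M.r_pos Q) (l := 𝓝[≠] (0 : ℂ))
    (u := fun b => ![b * t, t⁻¹]) (u' := fun b => ![b, t])
    (tendsto_pair hmul tendsto_const_nhds) (tendsto_pair hid tendsto_const_nhds) (by
      have hball : ∀ᶠ b in 𝓝[≠] (0 : ℂ), b * t ∈ ball (0 : ℂ) (M.r Q) :=
        hmul.eventually_mem (isOpen_ball.mem_nhds (M.mem_ball0 Q))
      filter_upwards [self_mem_nhdsWithin, hball] with b hb hb'
      have hb0 : b ≠ 0 := hb
      have h1 := M.γ_md hQ (Units.mk0 b hb0) (Units.mk0 t ht) (by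
        rw [Units.val_mk0, Units.val_mk0]; exact mem_ball_zero_iff.1 hb')
      have h2 := M.γ_ch' hQ (Units.mk0 (b * t) (mul_ne_zero hb0 ht))
        (by rw [Units.val_mk0]; exact mem_ball_zero_iff.1 hb') (Units.mk0 t ht)⁻¹
      have h3 : Units.mk0 (b * t) (mul_ne_zero hb0 ht) * (Units.mk0 t ht)⁻¹ = Units.mk0 b hb0 := by
        apply Units.ext
        rw [Units.val_mul, Units.val_inv_eq_inv_val]
        simp only [Units.val_mk0]
        field_simp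
      rw [h3] at h2
      simp only [Units.val_mk0, Units.val_inv_eq_inv_val] at h1 h2
      rw [h1, h2]
      refine ⟨(Units.mk0 b hb0) ^ (4 * (q : ℤ)) * ((Units.mk0 b hb0) ^ (5 * (q : ℤ)) *
        (Units.mk0 (b * t) (mul_ne_zero hb0 ht)) ^ (-(q : ℤ)))⁻¹, ?_⟩
      rw [smul_smul, inv_mul_cancel_right])
  exact ⟨t⁻¹, c, hc⟩

/-- from the middle chart to the side chart `-ε` -/
theorem md_side' {ε : ℤˣ} {Q : T.X.Pt} (hQ : Q ∈ SE T ε) {t : ℂ} (ht : t ≠ 0) :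
    M.Side (-ε) Q (M.A.γ (M.md Q) ![t, 0]) := by
  have hid : Tendsto (fun b : ℂ => b) (𝓝[≠] (0 : ℂ)) (𝓝 0) := tendsto_id.mono_left nhdsWithin_le_nhds
  have hmul : Tendsto (fun b : ℂ => t * b) (𝓝[≠] (0 : ℂ)) (𝓝 0) := by
    have := hid.const_mul t
    rwa [mul_zero] at this
  obtain ⟨c, hc⟩ := PolAtlas.eq_of_tendsto M.t2 (a := M.ch (-ε) Q) (b := M.md Q) (z := ![0, t⁻¹])
    (z' := ![t, 0]) (M.mem_U_ch (M.mem_ball0 _)) (by
      rw [M.U_md hQ]
      show ‖t * (0 : ℂ)‖ < M.r Q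
      rw [mul_zero, norm_zero]
      exact M.r_pos Q) (l := 𝓝[≠] (0 : ℂ))
    (u := fun b => ![t * b, t⁻¹]) (u' := fun b => ![t, b])
    (tendsto_pair hmul tendsto_const_nhds) (tendsto_pair tendsto_const_nhds hid) (by
      have hball : ∀ᶠ b in 𝓝[≠] (0 : ℂ), t * b ∈ ball (0 : ℂ) (M.r Q) :=
        hmul.eventually_mem (isOpen_ball.mem_nhds (M.mem_ball0 Q))
      filter_upwards [self_mem_nhdsWithin, hball] with b hb hb'
      have hb0 : b ≠ 0 := hb
      have h1 := M.γ_md hQ (Units.mk0 t ht) (Units.mk0 b hb0) (by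
        rw [Units.val_mk0, Units.val_mk0]; exact mem_ball_zero_iff.1 hb')
      have h2 := M.γ_ch (ε := -ε) (SE_disj hQ) hb' (Or.inl (mul_ne_zero ht hb0)) (Units.mk0 t ht)⁻¹
      have h3 : ((Units.mk0 t ht)⁻¹) ^ (((-ε : ℤˣ) : ℤ)) = (Units.mk0 t ht) ^ (ε : ℤ) := by
        rw [Units.val_neg, zpow_neg, inv_zpow, inv_inv]
      rw [h3] at h2
      simp only [Units.val_mk0, Units.val_inv_eq_inv_val] at h1 h2
      rw [h1, h2]
      refine ⟨(Units.mk0 t ht) ^ (4 * (q : ℤ)) * (((Units.mk0 t ht)⁻¹) ^ (5 * (q : ℤ)))⁻¹, ?_⟩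
      rw [smul_smul, inv_mul_cancel_right])
  exact ⟨t⁻¹, c, hc⟩

/-! ### Values -/

theorem val_side (hj : |j| ≤ 5 * q * N) (hf : f ∈ T.V q D₀ N j) (ε : ℤˣ) (Q : T.X.Pt) (b : ℂ)
    (c : ℂˣ) : M.secF N j f (c • M.A.γ (M.ch ε Q) ![0, b]) =
      (c : ℂ) ^ N * (b ^ (5 * q * N + (ε : ℤ) * j).toNat * An.rg Q f (M.eC N j ε Q) 0) := by
  rw [(M.secF_isSec hj hf).hom, M.secF_ch hj hf ε Q (z := ![0, b]) (by
    show ‖(0 : ℂ)‖ < M.r Q
    rw [norm_zero]
    exact M.r_pos Q), locC]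
  rfl

theorem val_mid (hj : |j| ≤ 5 * q * N) (hf : f ∈ T.V q D₀ N j) {ε : ℤˣ} {Q : T.X.Pt}
    (hQ : Q ∈ SE T ε) {z : E 2} (hz : z 0 * z 1 = 0) (c : ℂˣ) :
    M.secF N j f (c • M.A.γ (M.md Q) z) =
      (c : ℂ) ^ N * (z 0 ^ (kap q N ε j).toNat * z 1 ^ (-kap q N ε j).toNat *
        An.rg Q f (T.dvs q D₀ N j Q) 0) := by
  rw [(M.secF_isSec hj hf).hom, M.secF_md hj hf hQ (by
    rw [hz, norm_zero]
    exact M.r_pos Q), locM, hz, M.eM_eq hQ]

/-- all sections have proportional values at the two points -/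
def Rel (N : ℕ) (t : ℂ) (y y' : M.Y) : Prop := ∀ j, ∀ F ∈ M.WS N j, F y' = t * F y

section Pts

variable (hq : 0 < q) (hD : T.X.deg D₀ = 105 * T.t * q) (hN : 5 ≤ N)

include hq hD hN

include M in
/-- the value at the centre is non-zero for a suitable section -/
theorem exists_ρ (hj : |j| ≤ 5 * q * N) (Q : T.X.Pt) : ∃ f ∈ T.V q D₀ N j, f ≠ 0 ∧
    T.X.ord Q f + T.dvs q D₀ N j Q = 0 ∧ An.rg Q f (T.dvs q D₀ N j Q) 0 ≠ 0 := by
  obtain ⟨f, hf, hf0, ho⟩ := exists_E1 hq hD hN hj Q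
  refine ⟨f, hf, hf0, ho, M.rg_ne_of_ord hf (M.mem_ball0 Q) hf0 rfl ?_⟩
  rw [An.c_zero, ho]

theorem pts_side {t : ℂ} {ε : ℤˣ} {Q : T.X.Pt} {y y' : M.Y} (h : M.Rel N t y y')
    (hy : M.Side ε Q y) (hy' : M.Side ε Q y') : ∃ c : ℂˣ, y' = c • y := by
  have hqN := qN_pos hq hN
  obtain ⟨b, c, rfl⟩ := hy
  obtain ⟨b', c', rfl⟩ := hy'
  have hj0 : |wt q N ε (-((q : ℤ) * N))| ≤ 5 * q * N := wt_le le_rfl (by linarith)
  have hj1 : |wt q N ε (-((q : ℤ) * N) + 1)| ≤ 5 * q * N := wt_le (by linarith) (by linarith)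
  obtain ⟨f, hf, hf0, -, hρ⟩ := M.exists_ρ hq hD hN hj0 Q
  obtain ⟨f', hf', hf0', -, hρ'⟩ := M.exists_ρ hq hD hN hj1 Q
  have h0 := h _ _ ⟨hj0, f, hf, rfl⟩
  have h1 := h _ _ ⟨hj1, f', hf', rfl⟩
  rw [M.val_side hj0 hf, M.val_side hj0 hf, exp_wt,
    M.eC_tight ε Q (by rw [kap_wt]; linarith),
    show ((q : ℤ) * N + -((q : ℤ) * N)).toNat = 0 by simp, pow_zero, pow_zero, one_mul] at h0
  rw [M.val_side hj1 hf', M.val_side hj1 hf', exp_wt,
    M.eC_tight ε Q (by rw [kap_wt]; linarith),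
    show ((q : ℤ) * N + (-((q : ℤ) * N) + 1)).toNat = 1 by
      rw [show (q : ℤ) * N + (-((q : ℤ) * N) + 1) = 1 by ring]; rfl, pow_one, pow_one] at h1
  have h2 : (c' : ℂ) ^ N = t * (c : ℂ) ^ N := by
    apply mul_right_cancel₀ hρ
    linear_combination h0
  have hbb : b' = b := by
    have h3 : (c' : ℂ) ^ N * An.rg Q f' (T.dvs q D₀ N (wt q N ε (-((q : ℤ) * N) + 1)) Q) 0 ≠ 0 :=
      mul_ne_zero (pow_ne_zero _ c'.ne_zero) hρ'
    apply mul_right_cancel₀ h3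
    linear_combination h1 - b * An.rg Q f' (T.dvs q D₀ N (wt q N ε (-((q : ℤ) * N) + 1)) Q) 0 * h2
  refine ⟨c' * c⁻¹, ?_⟩
  rw [hbb, smul_smul, inv_mul_cancel_right]

theorem pts_mid {t : ℂ} {ε : ℤˣ} {Q : T.X.Pt} (hQ : Q ∈ SE T ε) {y y' : M.Y}
    (h : M.Rel N t y y') (hy : M.Mid Q y) (hy' : M.Mid Q y') : ∃ c : ℂˣ, y' = c • y := by
  have hqN := qN_pos hq hN
  obtain ⟨z, c, hz, rfl⟩ := hy
  obtain ⟨z', c', hz', rfl⟩ := hy'
  have hj0 : |wt q N ε 0| ≤ 5 * q * N := wt_le (by linarith) (by positivity)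
  have hj1 : |wt q N ε 1| ≤ 5 * q * N := wt_le (by linarith) (by linarith)
  have hj2 : |wt q N ε (-1)| ≤ 5 * q * N := wt_le (by linarith) (by linarith)
  obtain ⟨f, hf, -, -, hρ⟩ := M.exists_ρ hq hD hN hj0 Q
  obtain ⟨f', hf', -, -, hρ'⟩ := M.exists_ρ hq hD hN hj1 Q
  obtain ⟨f'', hf'', -, -, hρ''⟩ := M.exists_ρ hq hD hN hj2 Q
  have h0 := h _ _ ⟨hj0, f, hf, rfl⟩
  have h1 := h _ _ ⟨hj1, f', hf', rfl⟩
  have h2 := h _ _ ⟨hj2, f'', hf'', rfl⟩
  rw [M.val_mid hj0 hf hQ hz, M.val_mid hj0 hf hQ hz', kap_wt] at h0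
  rw [M.val_mid hj1 hf' hQ hz, M.val_mid hj1 hf' hQ hz', kap_wt] at h1
  rw [M.val_mid hj2 hf'' hQ hz, M.val_mid hj2 hf'' hQ hz', kap_wt] at h2
  rw [show ((0 : ℤ)).toNat = 0 from rfl, show (-(0 : ℤ)).toNat = 0 from rfl] at h0
  rw [show ((1 : ℤ)).toNat = 1 from rfl, show (-(1 : ℤ)).toNat = 0 from rfl] at h1
  rw [show ((-1 : ℤ)).toNat = 0 from rfl, show (-(-1 : ℤ)).toNat = 1 from rfl] at h2
  simp only [pow_zero, pow_one, one_mul, mul_one] at h0 h1 h2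
  have h3 : (c' : ℂ) ^ N = t * (c : ℂ) ^ N := by
    apply mul_right_cancel₀ hρ
    linear_combination h0
  have e0 : z' 0 = z 0 := by
    have h4 := mul_ne_zero (pow_ne_zero N c'.ne_zero) hρ'
    apply mul_right_cancel₀ h4
    linear_combination h1 - z 0 * An.rg Q f' (T.dvs q D₀ N (wt q N ε 1) Q) 0 * h3
  have e1 : z' 1 = z 1 := by
    have h4 := mul_ne_zero (pow_ne_zero N c'.ne_zero) hρ''
    apply mul_right_cancel₀ h4
    linear_combination h2 - z 1 * An.rg Q f'' (T.dvs q D₀ N (wt q N ε (-1)) Q) 0 * h3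
  have e : z' = z := by
    ext i
    fin_cases i
    · exact e0
    · exact e1
  refine ⟨c' * c⁻¹, ?_⟩
  rw [e, smul_smul, inv_mul_cancel_right]

/-- the section with `k = -qN` does not vanish in the side chart -/
theorem pivot_side {t : ℂ} (ht : t ≠ 0) {ε : ℤˣ} {Q : T.X.Pt} {y y' : M.Y}
    (h : M.Rel N t y y') (hy : M.Side ε Q y) : ∃ f ∈ T.V q D₀ N (wt q N ε (-((q : ℤ) * N))),
      M.secF N (wt q N ε (-((q : ℤ) * N))) f y' ≠ 0 := by
  have hqN := qN_pos hq hN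
  obtain ⟨b, c, rfl⟩ := hy
  have hj0 : |wt q N ε (-((q : ℤ) * N))| ≤ 5 * q * N := wt_le le_rfl (by linarith)
  obtain ⟨f, hf, -, -, hρ⟩ := M.exists_ρ hq hD hN hj0 Q
  refine ⟨f, hf, ?_⟩
  rw [h _ _ ⟨hj0, f, hf, rfl⟩, M.val_side hj0 hf, exp_wt,
    M.eC_tight ε Q (by rw [kap_wt]; linarith),
    show ((q : ℤ) * N + -((q : ℤ) * N)).toNat = 0 by simp, pow_zero, one_mul]
  exact mul_ne_zero ht (mul_ne_zero (pow_ne_zero _ c.ne_zero) hρ)

theorem promote_side {t : ℂ} (ht : t ≠ 0) {ε : ℤˣ} {Q : T.X.Pt} {y y' : M.Y}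
    (h : M.Rel N t y y') (hy : M.Side ε Q y) (hy' : M.Side (-ε) Q y') : M.Side ε Q y' := by
  have hqN := qN_pos hq hN
  obtain ⟨f, hf, hne⟩ := M.pivot_side hq hD hN ht h hy
  obtain ⟨b', c', rfl⟩ := hy'
  set j := wt q N ε (-((q : ℤ) * N)) with hjdef
  have hj0 : |j| ≤ 5 * q * N := wt_le le_rfl (by linarith)
  have hk : kap q N ε j = -((q : ℤ) * N) := kap_wt _ _
  have hk' : kap q N (-ε) j = 9 * q * N := by
    have := kap_add (q := q) (N := N) (j := j) ε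
    linarith
  rw [M.val_side hj0 hf] at hne
  have hrg : An.rg Q f (M.eC N j (-ε) Q) 0 ≠ 0 := right_ne_zero_of_mul (right_ne_zero_of_mul hne)
  -- the exponent is minimal
  have htight : ¬ T.dvs q D₀ N j Q < M.eC N j (-ε) Q := fun hlt => hrg (M.rg_zero_of_lt hf hlt)
  have hQ1 : Q ∉ SE T (-ε) := by
    intro hQ
    apply htight
    unfold eC
    rw [dvs_SE hQ, hk']
    simp only [hQ, if_true]
    rw [max_eq_left (by linarith)]
    linarith
  have hQ2 : Q ∉ SE T ε := by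
    intro hQ
    apply htight
    unfold eC
    rw [dvs_SE hQ, hk]
    simp only [hQ1, if_false]
    rw [max_eq_right (by linarith)]
    linarith
  -- the coordinate is non-zero
  have hexp : (5 * (q : ℤ) * N + ((-ε : ℤˣ) : ℤ) * j).toNat ≠ 0 := by
    have h1 : 5 * (q : ℤ) * N + ((-ε : ℤˣ) : ℤ) * j = 10 * q * N := by
      have h2 : kap q N (-ε) j = 4 * q * N + ((-ε : ℤˣ) : ℤ) * j := rfl
      linarith
    rw [h1]
    intro h2
    rw [Int.toNat_eq_zero] at h2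
    linarith
  have hb' : b' ≠ 0 := by
    rintro rfl
    rw [zero_pow hexp, zero_mul, mul_zero] at hne
    exact hne rfl
  set w : ℂˣ := (Units.mk0 b' hb') ^ ((-ε : ℤˣ) : ℤ) with hw
  have hw1 : ((w ^ ((-ε : ℤˣ) : ℤ) : ℂˣ) : ℂ) = b' := by
    rw [hw, ← zpow_mul, εε, zpow_one, Units.val_mk0]
  have h1 := M.γ_side hQ1 (by rwa [neg_neg]) w
  rw [hw1] at h1
  have h2 := M.γ_side hQ2 hQ1 w
  have h3 : M.o Q 0 w = ((w ^ (ε : ℤ)) ^ (5 * (q : ℤ)))⁻¹ •
      M.A.γ (M.ch ε Q) ![0, ((w ^ (ε : ℤ) : ℂˣ) : ℂ)] := by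
    rw [h2, inv_smul_smul]
  rw [h1, h3, smul_smul, smul_smul]
  exact ⟨_, _, rfl⟩

theorem promote_mid {t : ℂ} (ht : t ≠ 0) {ε η : ℤˣ} {Q : T.X.Pt} (hQ : Q ∈ SE T ε) {y y' : M.Y}
    (h : M.Rel N t y y') (hy : M.Side η Q y) (hy' : M.Mid Q y') : M.Side η Q y' := by
  have hqN := qN_pos hq hN
  obtain ⟨f, hf, hne⟩ := M.pivot_side hq hD hN ht h hy
  obtain ⟨z, c', hz, rfl⟩ := hy'
  have hzz : z = ![z 0, z 1] := by ext i; fin_cases i <;> rfl
  set j := wt q N η (-((q : ℤ) * N)) with hjdef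
  have hj0 : |j| ≤ 5 * q * N := wt_le le_rfl (by linarith)
  rw [M.val_mid hj0 hf hQ hz] at hne
  have hηε : η = ε ∨ η = -ε := by
    rcases Int.units_eq_one_or η with rfl | rfl <;> rcases Int.units_eq_one_or ε with rfl | rfl <;>
      simp
  rcases hηε with rfl | rfl
  · have hk : kap q N η j = -((q : ℤ) * N) := kap_wt _ _
    have h1 : z 1 ≠ 0 := by
      intro h0
      rw [h0, hk, neg_neg, zero_pow (by
        intro h2
        rw [Int.toNat_eq_zero] at h2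
        linarith), mul_zero, zero_mul, mul_zero] at hne
      exact hne rfl
    have h0 : z 0 = 0 := by
      rcases mul_eq_zero.1 hz with h | h
      · exact h
      · exact absurd h h1
    obtain ⟨b, c, hb⟩ := M.md_side hQ h1
    refine ⟨b, c' * c, ?_⟩
    rw [hzz, h0, ← smul_smul, ← hb]
  · have hk : kap q N ε j = 9 * q * N := by
      have h1 := kap_add (q := q) (N := N) (j := j) ε
      have h2 : kap q N (-ε) j = -((q : ℤ) * N) := kap_wt _ _
      linarith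
    have h0 : z 0 ≠ 0 := by
      intro h0
      rw [h0, hk, zero_pow (by
        intro h2
        rw [Int.toNat_eq_zero] at h2
        linarith), zero_mul, zero_mul, mul_zero] at hne
      exact hne rfl
    have h1 : z 1 = 0 := by
      rcases mul_eq_zero.1 hz with h | h
      · exact absurd h h0
      · exact h
    obtain ⟨b, c, hb⟩ := M.md_side' hQ h0
    refine ⟨b, c' * c, ?_⟩
    rw [hzz, h1, ← smul_smul, ← hb]

omit hq hD hN in
/-- a section that vanishes at the points over `Q'` -/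
theorem vanish {Q' : T.X.Pt} (hj : |j| ≤ 5 * q * N) (hf : f ∈ T.V q D₀ N j) (hf0 : f ≠ 0)
    (h : 1 ≤ T.X.ord Q' f + T.dvs q D₀ N j Q') {y : M.Y}
    (hy : (∃ ε, M.Side ε Q' y) ∨ ((∃ ε, Q' ∈ SE T ε) ∧ M.Mid Q' y)) : M.secF N j f y = 0 := by
  have h0 : An.rg Q' f (T.dvs q D₀ N j Q') 0 = 0 :=
    M.rg_eq_of_ord hf (M.mem_ball0 Q') hf0 rfl (by rw [An.c_zero]; exact h)
  rcases hy with ⟨ε, b, c, rfl⟩ | ⟨⟨ε, hQ⟩, z, c, hz, rfl⟩
  · rw [M.val_side hj hf]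
    rcases (M.le_eC (N := N) (j := j) ε Q').lt_or_eq with hlt | heq
    · rw [M.rg_zero_of_lt hf hlt, mul_zero, mul_zero]
    · rw [← heq, h0, mul_zero, mul_zero]
  · rw [M.val_mid hj hf hQ hz, h0, mul_zero, mul_zero]

omit hD in
/-- for every point there is a weight whose sections do not all vanish -/
theorem nonvanish {Q : T.X.Pt} {y : M.Y}
    (hy : (∃ ε, M.Side ε Q y) ∨ ((∃ ε, Q ∈ SE T ε) ∧ M.Mid Q y)) :
    ∃ j : ℤ, |j| ≤ 5 * q * N ∧ ∀ f ∈ T.V q D₀ N j, f ≠ 0 → T.X.ord Q f + T.dvs q D₀ N j Q = 0 →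
      M.secF N j f y ≠ 0 := by
  have hqN := qN_pos hq hN
  rcases hy with ⟨ε, b, c, rfl⟩ | ⟨⟨ε, hQ⟩, z, c, hz, rfl⟩
  · have hj0 : |wt q N ε (-((q : ℤ) * N))| ≤ 5 * q * N := wt_le le_rfl (by linarith)
    refine ⟨_, hj0, fun f hf hf0 ho => ?_⟩
    rw [M.val_side hj0 hf, exp_wt, M.eC_tight ε Q (by rw [kap_wt]; linarith),
      show ((q : ℤ) * N + -((q : ℤ) * N)).toNat = 0 by simp, pow_zero, one_mul]
    exact mul_ne_zero (pow_ne_zero _ c.ne_zero)
      (M.rg_ne_of_ord hf (M.mem_ball0 Q) hf0 rfl (by rw [An.c_zero, ho]))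
  · have hj0 : |wt q N ε 0| ≤ 5 * q * N := wt_le (by linarith) (by positivity)
    refine ⟨_, hj0, fun f hf hf0 ho => ?_⟩
    rw [M.val_mid hj0 hf hQ hz, kap_wt]
    simp only [Int.toNat_zero, neg_zero, pow_zero, one_mul]
    exact mul_ne_zero (pow_ne_zero _ c.ne_zero)
      (M.rg_ne_of_ord hf (M.mem_ball0 Q) hf0 rfl (by rw [An.c_zero, ho]))

theorem pts_WS (y y' : M.Y) (t : ℂ) (h : M.Rel N t y y') : ∃ c : ℂˣ, y' = c • y := by
  -- `t ≠ 0`
  have ht : t ≠ 0 := by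
    rintro rfl
    obtain ⟨j, F, hF, hF0⟩ := M.base_WS hq hD hN y'
    apply hF0
    rw [h j F hF, zero_mul]
  have h' : M.Rel N t⁻¹ y' y := by
    intro j F hF
    rw [h j F hF, inv_mul_cancel_left₀ ht]
  obtain ⟨Q, hy⟩ := M.recenter y
  obtain ⟨Q', hy'⟩ := M.recenter y'
  -- the projections agree
  have hQQ : Q = Q' := by
    by_contra hne
    obtain ⟨j, hj, hnv⟩ := M.nonvanish hq hN hy
    obtain ⟨f, hf, hf0, h1, h2⟩ := exists_E3 hq hD hN hj hne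
    have h3 := hnv f hf hf0 h1
    have h4 := M.vanish hj hf hf0 h2 hy'
    rw [h j _ ⟨hj, f, hf, rfl⟩] at h4
    exact mul_ne_zero ht h3 h4
  subst hQQ
  have inv : (∃ c : ℂˣ, y = c • y') → ∃ c : ℂˣ, y' = c • y := by
    rintro ⟨c, hc⟩
    exact ⟨c⁻¹, by rw [hc, inv_smul_smul]⟩
  rcases hy with ⟨ε, hy⟩ | ⟨⟨ε, hQ⟩, hy⟩
  · rcases hy' with ⟨ε', hy'⟩ | ⟨⟨ε', hQ'⟩, hy'⟩
    · have hεε : ε' = ε ∨ ε' = -ε := by
        rcases Int.units_eq_one_or ε with rfl | rfl <;>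
          rcases Int.units_eq_one_or ε' with rfl | rfl <;> simp
      rcases hεε with rfl | rfl
      · exact M.pts_side hq hD hN h hy hy'
      · exact M.pts_side hq hD hN h hy (M.promote_side hq hD hN ht h hy hy')
    · exact M.pts_side hq hD hN h hy (M.promote_mid hq hD hN ht hQ' h hy hy')
  · rcases hy' with ⟨ε', hy'⟩ | ⟨⟨ε', hQ'⟩, hy'⟩
    · exact inv (M.pts_side hq hD hN h' hy' (M.promote_mid hq hD hN (inv_ne_zero ht) hQ h' hy' hy))
    · exact M.pts_mid hq hD hN hQ h hy hy'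

/-- The sections of `L ^ N` on `Σ` separate points and tangent vectors. -/
theorem wsep : WSep M.A (M.WS N) where
  base := M.base_WS hq hD hN
  pts := M.pts_WS hq hD hN
  tan := by
    intro a z hz v t h
    rcases M.chart_cases a hz with ⟨ε, P, rfl⟩ | ⟨ε, P, hP, rfl⟩
    · rw [M.U_ch] at hz
      exact M.tan_ch hq hD hN ε P hz v t h
    · rw [M.U_md hP] at hz
      exact M.tan_md hq hD hN hP hz v t h

end Pts

end SigModel

end

end Pool.Agent.YTDA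


end

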