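import Pool.Agent.YTDM.P39

/- source: Pool.Agent.YTDA.FldX -/

section

/-!
# Holomorphic vector fields on the fourfold `X`, continued
-/

set_option autoImplicit false

namespace Pool.Agent.YTDA

open Complex Set Topology Filter Metric
open Pool.Agent.YTD

noncomputable section

/-- derivative of the change of the first `ℙ¹` chart -/
theorem hasFDerivAt_c1 {z : E 4} (hz : z 2 ≠ 0) :
    HasFDerivAt (fun z : E 4 => (![z 0, z 2 ^ 3 * z 1, (z 2)⁻¹, z 3] : E 4))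
      (ContinuousLinearMap.pi ![ContinuousLinearMap.proj 0,
        (z 2 ^ 3) • ContinuousLinearMap.proj 1 + (3 * z 2 ^ 2 * z 1) • ContinuousLinearMap.proj 2,
        (-(z 2 ^ 2)⁻¹) • ContinuousLinearMap.proj 2, ContinuousLinearMap.proj 3] :
          E 4 →L[ℂ] E 4) z := by
  rw [hasFDerivAt_pi']
  intro i
  have h0 : ∀ j : Fin 4, HasFDerivAt (fun z : E 4 => z j)
      (ContinuousLinearMap.proj j : E 4 →L[ℂ] ℂ) z := fun j => hasFDerivAt_apply j z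
  fin_cases i
  · exact h0 0
  · have := ((h0 2).pow 3).mul (h0 1)
    refine this.congr_fderiv ?_
    ext v
    simp
    ring
  · have := (hasDerivAt_inv hz).comp_hasFDerivAt z (h0 2)
    exact this
  · exact h0 3

theorem hasFDerivAt_c2 {z : E 4} (hz : z 3 ≠ 0) :
    HasFDerivAt (fun z : E 4 => (![z 0, z 1 / z 3 ^ 3, z 2, (z 3)⁻¹] : E 4))
      (ContinuousLinearMap.pi ![ContinuousLinearMap.proj 0,
        ((z 3 ^ 3)⁻¹) • ContinuousLinearMap.proj 1 + (-3 * z 1 / z 3 ^ 4) • ContinuousLinearMap.proj 3,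
        ContinuousLinearMap.proj 2, (-(z 3 ^ 2)⁻¹) • ContinuousLinearMap.proj 3] :
          E 4 →L[ℂ] E 4) z := by
  rw [hasFDerivAt_pi']
  intro i
  have h0 : ∀ j : Fin 4, HasFDerivAt (fun z : E 4 => z j)
      (ContinuousLinearMap.proj j : E 4 →L[ℂ] ℂ) z := fun j => hasFDerivAt_apply j z
  fin_cases i
  · exact h0 0
  · have h3 : z 3 ^ 3 ≠ 0 := pow_ne_zero 3 hz
    have h1 := (hasDerivAt_inv h3).comp_hasFDerivAt z ((h0 3).pow 3)
    have := (h0 1).mul h1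
    refine this.congr_fderiv ?_
    ext v
    simp
    field_simp
    ring
  · exact h0 2
  · have := (hasDerivAt_inv hz).comp_hasFDerivAt z (h0 3)
    exact this


namespace TwoP1

variable {Y : Type} [MulAction ℂˣ Y] {A : PolAtlas 2 Y} {D : A.DAct} {α α' : ℤ}
  (X : TwoP1 A D α 3 α' (-3))

theorem dact01 {a : A.ι} (hk : D.k a = ![0, 1]) (c : ℂˣ) (x y : ℂ) :
    dact (D.k a) c ![x, y] = ![x, c * y] := by
  rw [hk]
  ext j; fin_cases j <;> simp [dact]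

theorem dom01 {a : A.ι} (hk : D.k a = ![0, 1]) {x y : ℂ} (h : ![x, y] ∈ A.U a) (c : ℂˣ) :
    ![x, c * y] ∈ A.U a := by
  rw [← dact01 hk]; exact D.dom a _ h c

/-- first transition law -/
theorem W_t1 (W : X.B₂.HolField) {a : A.ι} (hk : D.k a = ![0, 1]) (b₂ : Bool) {z : E 4}
    (hz : ![z 0, z 1] ∈ A.U a) (h2 : z 2 ≠ 0) :
    W.W (X.i a true b₂) ![z 0, z 2 ^ 3 * z 1, (z 2)⁻¹, z 3] =
      ![W.W (X.i a false b₂) z 0,
        z 2 ^ 3 * W.W (X.i a false b₂) z 1 + 3 * z 2 ^ 2 * z 1 * W.W (X.i a false b₂) z 2,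
        -W.W (X.i a false b₂) z 2 / z 2 ^ 2, W.W (X.i a false b₂) z 3] := by
  have hev : ∀ᶠ w : E 4 in 𝓝 z, w ∈ X.B₂.U (X.i a false b₂) ∧
      (![w 0, w 2 ^ 3 * w 1, (w 2)⁻¹, w 3] : E 4) ∈ X.B₂.U (X.i a true b₂) ∧
      ∃ c : ℂˣ, X.B₂.γ (X.i a true b₂) ![w 0, w 2 ^ 3 * w 1, (w 2)⁻¹, w 3] =
        c • X.B₂.γ (X.i a false b₂) w := by
    have o1 : ∀ᶠ w : E 4 in 𝓝 z, w ∈ X.B₂.U (X.i a false b₂) :=
      (X.B₂.isOpen_U _).mem_nhds (X.mem_U.2 hz)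
    have o2 : ∀ᶠ w : E 4 in 𝓝 z, w 2 ≠ 0 :=
      (continuous_apply 2).continuousAt.eventually_ne h2
    filter_upwards [o1, o2] with w hw hw2
    have hw' := X.mem_U.1 hw
    have hw'' : (![w 0, w 2 ^ 3 * w 1] : E 2) ∈ A.U a := by
      have := dom01 hk hw' ((Units.mk0 (w 2) hw2) ^ 3)
      simpa using this
    refine ⟨hw, X.mem_U.2 hw'', ?_⟩
    obtain ⟨c, hc⟩ := X.swap1 (b₂ := b₂) hw' hw2 false
    rw [dact01 hk] at hc
    refine ⟨c⁻¹, ?_⟩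
    rw [X.γ_eq hw', hc, inv_smul_smul, X.γ_eq hw'']
    congr 1
  have := W.trans' (hasFDerivAt_c1 h2) hev
  rw [this]
  ext j
  fin_cases j <;> simp
  ring

/-- second transition law -/
theorem W_t2 (W : X.B₂.HolField) {a : A.ι} (hk : D.k a = ![0, 1]) (b₁ : Bool) {z : E 4}
    (hz : ![z 0, z 1] ∈ A.U a) (h3 : z 3 ≠ 0) :
    W.W (X.i a b₁ true) ![z 0, z 1 / z 3 ^ 3, z 2, (z 3)⁻¹] =
      ![W.W (X.i a b₁ false) z 0,
        W.W (X.i a b₁ false) z 1 / z 3 ^ 3 - 3 * z 1 * W.W (X.i a b₁ false) z 3 / z 3 ^ 4,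
        W.W (X.i a b₁ false) z 2, -W.W (X.i a b₁ false) z 3 / z 3 ^ 2] := by
  have hev : ∀ᶠ w : E 4 in 𝓝 z, w ∈ X.B₂.U (X.i a b₁ false) ∧
      (![w 0, w 1 / w 3 ^ 3, w 2, (w 3)⁻¹] : E 4) ∈ X.B₂.U (X.i a b₁ true) ∧
      ∃ c : ℂˣ, X.B₂.γ (X.i a b₁ true) ![w 0, w 1 / w 3 ^ 3, w 2, (w 3)⁻¹] =
        c • X.B₂.γ (X.i a b₁ false) w := by
    have o1 : ∀ᶠ w : E 4 in 𝓝 z, w ∈ X.B₂.U (X.i a b₁ false) :=
      (X.B₂.isOpen_U _).mem_nhds (X.mem_U.2 hz)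
    have o2 : ∀ᶠ w : E 4 in 𝓝 z, w 3 ≠ 0 :=
      (continuous_apply 3).continuousAt.eventually_ne h3
    filter_upwards [o1, o2] with w hw hw3
    have hw' := X.mem_U.1 hw
    have hw'' : (![w 0, w 1 / w 3 ^ 3] : E 2) ∈ A.U a := by
      have := dom01 hk hw' ((Units.mk0 (w 3) hw3) ^ (-3 : ℤ))
      have e : (((Units.mk0 (w 3) hw3) ^ (-3 : ℤ) : ℂˣ) : ℂ) * w 1 = w 1 / w 3 ^ 3 := by
        rw [Units.val_zpow_eq_zpow_val, Units.val_mk0, zpow_neg, div_eq_mul_inv, mul_comm]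
        norm_cast
      rwa [e] at this
    refine ⟨hw, X.mem_U.2 hw'', ?_⟩
    obtain ⟨c, hc⟩ := X.swap2 (b₁ := b₁) hw' hw3 false
    rw [dact01 hk] at hc
    refine ⟨c⁻¹, ?_⟩
    rw [X.γ_eq hw', hc, inv_smul_smul, X.γ_eq hw'']
    congr 1
    have e : (((Units.mk0 (w 3) hw3) ^ (-3 : ℤ) : ℂˣ) : ℂ) * w 1 = w 1 / w 3 ^ 3 := by
      rw [Units.val_zpow_eq_zpow_val, Units.val_mk0, zpow_neg, div_eq_mul_inv, mul_comm]
      norm_cast
    ext j; fin_cases j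
    · rfl
    · exact e.symm
    · rfl
    · rfl
  have := W.trans' (hasFDerivAt_c2 h3) hev
  rw [this]
  ext j
  fin_cases j <;> simp
  · ring
  · ring

/-- structure of a holomorphic vector field on the bottom charts -/
theorem W_main (W : X.B₂.HolField) {a : A.ι} (hk : D.k a = ![0, 1]) {s : ℂ}
    (hs : ∀ w : ℂ, ![s, w] ∈ A.U a) :
    ∃ κ e p₀ p₁ p₂ q₀ q₁ q₂ : ℂ, ∀ w z₁ z₂, W.W (X.i a false false) ![s, w, z₁, z₂] =
      ![κ, w * (e - 3 * p₂ * z₁ + 3 * q₂ * z₂), p₀ + p₁ * z₁ + p₂ * z₁ ^ 2,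
        q₀ + q₁ * z₂ + q₂ * z₂ ^ 2] := by
  have h : FldLoc.Loc (fun b₁ b₂ w z₁ z₂ => W.W (X.i a b₁ b₂) ![s, w, z₁, z₂]) := by
    refine ⟨fun b₁ b₂ j => ?_, fun b₂ w z₁ z₂ h1 => ?_, fun b₁ w z₁ z₂ h1 => ?_⟩
    · intro p
      have hU : (![s, p.1, p.2.1, p.2.2] : E 4) ∈ X.B₂.U (X.i a b₁ b₂) := X.mem_U.2 (hs p.1)
      have d1 : DifferentiableAt ℂ (W.W (X.i a b₁ b₂)) ![s, p.1, p.2.1, p.2.2] :=
        (W.hol _).differentiableAt ((X.B₂.isOpen_U _).mem_nhds hU)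
      have d2 : DifferentiableAt ℂ (fun p : ℂ × ℂ × ℂ => (![s, p.1, p.2.1, p.2.2] : E 4)) p := by
        rw [differentiableAt_pi]
        intro k; fin_cases k <;> simp
      have d3 := d1.comp p (f := fun p : ℂ × ℂ × ℂ => (![s, p.1, p.2.1, p.2.2] : E 4)) d2
      exact (differentiableAt_pi.1 d3) j
    · have := X.W_t1 W hk b₂ (z := ![s, w, z₁, z₂]) (hs w) h1
      exact this
    · have := X.W_t2 W hk b₁ (z := ![s, w, z₁, z₂]) (hs w) h1
      exact this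
  exact h.main

/-! ### Points in the chart `(a, false, false)` -/

/-- the point `y` of `Y` lies in the chart `a` -/
def Gd (A : PolAtlas 2 Y) (a : A.ι) (y : Y) : Prop :=
  ∃ z ∈ A.U a, ∃ c : ℂˣ, y = c • A.γ a z

theorem Gd.smul {a : A.ι} {y : Y} (h : Gd A a y) (c : ℂˣ) : Gd A a (c • y) := by
  obtain ⟨z, hz, d, rfl⟩ := h
  exact ⟨z, hz, c * d, smul_smul _ _ _⟩

theorem Gd.act {a : A.ι} {y : Y} (h : Gd A a y) (c : ℂˣ) : Gd A a (D.act c y) := by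
  obtain ⟨z, hz, d, rfl⟩ := h
  exact ⟨_, D.dom a z hz c, d * c ^ D.m a, by rw [D.act_smul, D.act_γ a z hz, smul_smul]⟩

/-- if `y` lies in the chart `a` then `[y, x, x']` lies in the chart `(a, false, false)`
(for nonzero coordinates) -/
theorem exists_pt {a : A.ι} {y : Y} (h : Gd A a y) (b₁ b₂ : Bool) {u v : ℂ} (hu : u ≠ 0)
    (hv : v ≠ 0) : ∃ z : E 4, ![z 0, z 1] ∈ A.U a ∧ ∃ c : ℂˣ,
      (P1Y.mk (P1Y.mk y (vec b₁ u)) (vec b₂ v) : P1Y X.D₁ α' (-3)) =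
        c • X.pt a false false z := by
  -- reduce to `b₂ = false`
  have key1 : ∀ (y : Y) (b₁ : Bool) (u : ℂ), u ≠ 0 → Gd A a y → ∃ y' u', Gd A a y' ∧
      (P1Y.mk y (vec b₁ u) : P1Y D α 3) = P1Y.mk y' (vec false u') := by
    intro y b₁ u hu hy
    cases b₁
    · exact ⟨y, u, hy, rfl⟩
    · exact ⟨_, _, (hy.act _).smul _, mk_swap hu true y⟩
  obtain ⟨y₁, u₁, hy₁, e₁⟩ := key1 y b₁ u hu h
  obtain ⟨y₂, v₂, hy₂, e₂⟩ : ∃ y' v', Gd A a y' ∧
      (P1Y.mk (P1Y.mk y (vec b₁ u)) (vec b₂ v) : P1Y X.D₁ α' (-3)) =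
        P1Y.mk (P1Y.mk y' (vec false u₁)) (vec false v') := by
    rw [e₁]
    cases b₂
    · exact ⟨y₁, v, hy₁, rfl⟩
    · refine ⟨_, v⁻¹, (hy₁.act (D := D) ((Units.mk0 v hv) ^ (-3 : ℤ))).smul
        ((Units.mk0 v hv) ^ α'), ?_⟩
      rw [mk_swap hv true, X.l₁.act, P1Y.smul_mk]
      rfl
  obtain ⟨z, hz, c, e₃⟩ := hy₂
  refine ⟨![z 0, z 1, u₁, v₂], ?_, c, ?_⟩
  · have : ![z 0, z 1] = z := by ext j; fin_cases j <;> rfl
    show ![z 0, z 1] ∈ A.U a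
    rw [this]; exact hz
  · rw [e₂, e₃]
    have : ![z 0, z 1] = z := by ext j; fin_cases j <;> rfl
    show _ = c • (P1Y.mk (P1Y.mk (A.γ a ![z 0, z 1]) (vec false u₁)) (vec false v₂) :
      P1Y X.D₁ α' (-3))
    rw [this, P1Y.smul_mk, P1Y.smul_mk]

/-- transitions between the charts `(a, false, false)` do not change the last two coordinates -/
theorem τ_last {a b : A.ι} {z : E 4}
    (hz : z ∈ X.B₂.O (X.i a false false) (X.i b false false)) :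
    X.B₂.τ (X.i a false false) (X.i b false false) z 2 = z 2 ∧
    X.B₂.τ (X.i a false false) (X.i b false false) z 3 = z 3 := by
  obtain ⟨h1, h2⟩ := X.B₂.trans _ _ z hz.1 hz.2
  rw [X.γ_eq (X.mem_U.1 hz.1), X.γ_eq (X.mem_U.1 h1)] at h2
  have h3 : (P1Y.mk (P1Y.mk (A.γ b ![X.B₂.τ (X.i a false false) (X.i b false false) z 0,
      X.B₂.τ (X.i a false false) (X.i b false false) z 1])
      (vec false (X.B₂.τ (X.i a false false) (X.i b false false) z 2)))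
      (vec false (X.B₂.τ (X.i a false false) (X.i b false false) z 3)) : P1Y X.D₁ α' (-3)) =
      P1Y.mk (X.B₂.h (X.i a false false) (X.i b false false) z •
        P1Y.mk (A.γ a ![z 0, z 1]) (vec false (z 2))) (vec false (z 3)) := h2
  obtain ⟨e3, e4⟩ := mk_false_inj h3
  rw [P1Y.smul_mk] at e4
  obtain ⟨e5, -⟩ := mk_false_inj e4
  exact ⟨e5.symm, e3⟩

/-- the last two components of a vector field are unchanged -/
theorem W_last (W : X.B₂.HolField) {a b : A.ι} {z : E 4}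
    (hz : z ∈ X.B₂.O (X.i a false false) (X.i b false false)) (j : Fin 4) (hj : j = 2 ∨ j = 3) :
    W.W (X.i b false false) (X.B₂.τ (X.i a false false) (X.i b false false) z) j =
      W.W (X.i a false false) z j := by
  have hO := (X.B₂.isOpen_O (X.i a false false) (X.i b false false)).mem_nhds hz
  have hd : DifferentiableAt ℂ (X.B₂.τ (X.i a false false) (X.i b false false)) z :=
    (X.B₂.hol_τ _ _).differentiableAt hO
  rw [W.trans _ _ z hz]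
  have e1 : (fun w => X.B₂.τ (X.i a false false) (X.i b false false) w j) =ᶠ[𝓝 z]
      fun w : E 4 => w j := by
    filter_upwards [hO] with w hw
    rcases hj with rfl | rfl
    · exact (X.τ_last hw).1
    · exact (X.τ_last hw).2
  have e2 := e1.fderiv_eq (𝕜 := ℂ)
  have e3 : fderiv ℂ (fun w => X.B₂.τ (X.i a false false) (X.i b false false) w j) z =
      (ContinuousLinearMap.proj j).comp
        (fderiv ℂ (X.B₂.τ (X.i a false false) (X.i b false false)) z) :=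
    ((ContinuousLinearMap.proj (R := ℂ) (φ := fun _ : Fin 4 => ℂ) j).hasFDerivAt.comp z
      hd.hasFDerivAt).fderiv
  have e4 : fderiv ℂ (fun w : E 4 => w j) z =
      ContinuousLinearMap.proj (R := ℂ) (φ := fun _ : Fin 4 => ℂ) j :=
    (hasFDerivAt_apply j z).fderiv
  rw [e3, e4] at e2
  have := congrArg (fun L : E 4 →L[ℂ] ℂ => L (W.W (X.i a false false) z)) e2
  simpa using this

end TwoP1

/-! ## Vector fields on the fourfold -/

section Main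

variable {K : Type} [Field K] [Algebra ℂ K] {T : Datum K} {q : ℕ} {D₀ : T.X.Pt →₀ ℤ}
  {An : AnCurve T.X.toCurveOrd} (M : SigModel T q D₀ An) {α α' : ℤ}
  (X : TwoP1 M.A M.D α 3 α' (-3))

namespace SigModel

theorem k_bot' (P : T.X.Pt) : M.D.k (M.e (P, 0)) = ![0, 1] := (M.k_bot P).1

theorem mem_bot {P : T.X.Pt} {s w : ℂ} (hs : ‖s‖ < M.r P) :
    (![s, w] : E 2) ∈ M.A.U (M.e (P, 0)) := by
  rw [M.U_bot]; exact hs

/-- general points lie in the bottom chart -/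
theorem gd_o {P : T.X.Pt} {s : ℂ} (hs : ‖s‖ < M.r P) (hs0 : s ≠ 0) (w : ℂˣ) :
    ∃ b : ℂ, ∃ c : ℂˣ, M.o P s w = c • M.A.γ (M.e (P, 0)) ![s, b] := by
  have hsb : s ∈ ball (0 : ℂ) (M.r P) := by simpa using hs
  by_cases hP : P ∈ T.S'
  · have h := M.γ_bot' P hP (Units.mk0 s hs0) hs ((Units.mk0 s hs0)⁻¹ * w)
    rw [mul_inv_cancel_left] at h
    exact ⟨_, _, (inv_smul_eq_iff.2 h).symm⟩
  · have h := M.γ_bot P hP s hsb (Or.inl hs0) w
    exact ⟨_, _, (inv_smul_eq_iff.2 h).symm⟩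

theorem gd {P : T.X.Pt} {j : Fin 3} {z : E 2} (hz : z ∈ M.A.U (M.e (P, j))) (h0 : z 0 ≠ 0)
    (h1 : z 1 ≠ 0) : TwoP1.Gd M.A (M.e (P, 0)) (M.A.γ (M.e (P, j)) z) := by
  have hz2 : z = ![z 0, z 1] := by ext j; fin_cases j <;> rfl
  have fin : ∀ (s : ℂ) (_ : ‖s‖ < M.r P) (_ : s ≠ 0) (w c : ℂˣ) (y : M.Y),
      y = c • M.o P s w → TwoP1.Gd M.A (M.e (P, 0)) y := by
    intro s hs hs0 w c y hy
    obtain ⟨b, d, hb⟩ := M.gd_o hs hs0 w
    exact ⟨![s, b], M.mem_bot hs, c * d, by rw [hy, hb, smul_smul]⟩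
  fin_cases j
  · exact ⟨z, hz, 1, (one_smul _ _).symm⟩
  · have hz' : ‖z 0‖ < M.r P := by
      have : z ∈ M.A.U (M.e (P, 1)) := hz
      rw [M.U_top] at this; exact this
    show TwoP1.Gd M.A (M.e (P, 0)) (M.A.γ (M.e (P, 1)) z)
    by_cases hP : P ∈ T.S
    · have h := M.γ_top' P hP (Units.mk0 (z 0) h0) hz' (Units.mk0 (z 1) h1)
      rw [Units.val_mk0, Units.val_mk0, ← hz2] at h
      exact fin (z 0) hz' h0 _ _ _ h
    · have h := M.γ_top P hP (z 0) (by simpa using hz') (Or.inl h0) (Units.mk0 (z 1) h1)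
      rw [Units.val_mk0, ← hz2] at h
      exact fin (z 0) hz' h0 _ _ _ h
  · show TwoP1.Gd M.A (M.e (P, 0)) (M.A.γ (M.e (P, 2)) z)
    have hzU : z ∈ M.A.U (M.e (P, 2)) := hz
    have h01 : z 0 * z 1 ≠ 0 := mul_ne_zero h0 h1
    by_cases hP : P ∈ T.S
    · have hz' : ‖z 0 * z 1‖ < M.r P := by
        rw [M.U_mid P (Or.inl hP)] at hzU; exact hzU
      have h := M.γ_mid P hP (Units.mk0 (z 0) h0) (Units.mk0 (z 1) h1) hz'
      rw [Units.val_mk0, Units.val_mk0, ← hz2] at h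
      exact fin _ hz' h01 _ _ _ h
    · by_cases hP' : P ∈ T.S'
      · have hz' : ‖z 0 * z 1‖ < M.r P := by
          rw [M.U_mid P (Or.inr hP')] at hzU; exact hzU
        have h := M.γ_mid' P hP' (Units.mk0 (z 0) h0) (Units.mk0 (z 1) h1) hz'
        rw [Units.val_mk0, Units.val_mk0, ← hz2] at h
        exact fin _ hz' h01 _ _ _ h
      · rw [M.U_mid' P hP hP'] at hzU
        exact hzU.elim

end SigModel

namespace TwoP1

variable {M}

/-- the bottom chart at `P` -/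
def bt (P : T.X.Pt) : X.B₂.ι := X.i (M.e (P, 0)) false false

theorem mem_bt {P : T.X.Pt} {z : E 4} : z ∈ X.B₂.U (X.bt P) ↔ ‖z 0‖ < M.r P := by
  rw [bt, X.mem_U, M.U_bot]; rfl

/-- invariance on the bottom charts implies invariance everywhere -/
theorem inv_all (W : X.B₂.HolField) (R : X.B₂.DAct)
    (h : ∀ P, ∀ z ∈ X.B₂.U (X.bt P), PolAtlas.Inv W R (X.bt P) z) :
    ∀ a, ∀ z ∈ X.B₂.U a, PolAtlas.Inv W R a z := by
  intro a
  obtain ⟨a, b₁, b₂, rfl⟩ := X.i_surj a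
  obtain ⟨⟨P, j⟩, rfl⟩ := M.e.surjective a
  refine PolAtlas.inv_dense W R _ fun z hz hne => ?_
  have hz' := X.mem_U.1 hz
  obtain ⟨z', hz1, c, hc⟩ := X.exists_pt
    (M.gd hz' (hne 0) (hne 1)) b₁ b₂ (hne 2) (hne 3)
  have hz2 : z' ∈ X.B₂.U (X.bt P) := X.mem_U.2 hz1
  have e : X.B₂.γ (X.i (M.e (P, j)) b₁ b₂) z = c • X.B₂.γ (X.bt P) z' := by
    rw [X.γ_eq hz', bt, X.γ_eq hz1]
    exact hc
  have := PolAtlas.inv_of W R (PolAtlas.mem_O_mk hz2 hz e) (h P z' hz2)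
  rwa [PolAtlas.τ_eq_of hz2 hz e] at this

/-- T10 (A): every holomorphic vector field is invariant under the action on the fibres of
`Σ → C`. -/
theorem inv_w (W : X.B₂.HolField) (R : X.B₂.DAct)
    (hR : ∀ P, R.k (X.bt P) = ![0, 1, 0, 0]) : ∀ a, ∀ z ∈ X.B₂.U a, PolAtlas.Inv W R a z := by
  refine X.inv_all W R fun P z hz c => ?_
  have hz0 := X.mem_bt.1 hz
  obtain ⟨κ, e, p₀, p₁, p₂, q₀, q₁, q₂, h⟩ := X.W_main W (M.k_bot' P) (s := z 0)
    (fun w => M.mem_bot hz0)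
  have e1 : z = ![z 0, z 1, z 2, z 3] := by ext j; fin_cases j <;> rfl
  have e2 : dact (R.k (X.bt P)) c z = ![z 0, c * z 1, z 2, z 3] := by
    rw [hR]; ext j; fin_cases j <;> simp [dact]
  rw [e2, hR, bt, h]
  conv_rhs => rw [e1, h]
  ext j
  fin_cases j <;> simp [dact]
  ring

/-- the third component in the bottom chart at `P` -/
theorem const_aux (W : X.B₂.HolField) (j : Fin 4) (hj : j = 2 ∨ j = 3) (P : T.X.Pt) {s : ℂ}
    (hs : ‖s‖ < M.r P) (w z₁ z₂ : ℂ) :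
    W.W (X.bt P) ![s, w, z₁, z₂] j = W.W (X.bt (An.c P s)) ![0, 0, z₁, z₂] j := by
  have indep : ∀ (P : T.X.Pt) (s : ℂ), ‖s‖ < M.r P → ∀ w w', W.W (X.bt P) ![s, w, z₁, z₂] j =
      W.W (X.bt P) ![s, w', z₁, z₂] j := by
    intro P s hs w w'
    obtain ⟨κ, e, p₀, p₁, p₂, q₀, q₁, q₂, h⟩ := X.W_main W (M.k_bot' P) (s := s)
      (fun w => M.mem_bot hs)
    rw [bt, h, h]
    rcases hj with rfl | rfl
    · rfl
    · rfl
  by_cases hs0 : s = 0
  · subst hs0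
    rw [An.c_zero]
    exact indep P 0 hs w 0
  · have hsb : s ∈ ball (0 : ℂ) (M.r P) := by simpa using hs
    obtain ⟨i1, i2, i3⟩ := M.iso P s hsb hs0
    set Q := An.c P s with hQ
    have hQ0 : An.c Q 0 = Q := An.c_zero Q
    have h0b : (0 : ℂ) ∈ ball (0 : ℂ) (M.r Q) := mem_ball_self (M.r_pos Q)
    have t1 := M.o_tr P Q s hsb 0 h0b (Or.inl hs0) (Or.inr ⟨i1, i2⟩) hQ0.symm 1
    have t2 := M.γ_bot Q i2 0 h0b (Or.inr i1) 1
    obtain ⟨b, c, hb⟩ := M.gd_o hs hs0 1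
    have t3 : ∃ d : ℂˣ, M.A.γ (M.e (Q, 0)) ![0, ((1 : ℂˣ) : ℂ)] =
        d • M.A.γ (M.e (P, 0)) ![s, b] := by
      rw [t2, t1, hb, smul_smul, smul_smul]
      exact ⟨_, rfl⟩
    obtain ⟨d, hd⟩ := t3
    have m1 : (![s, b, z₁, z₂] : E 4) ∈ X.B₂.U (X.bt P) := X.mem_bt.2 hs
    have m2 : (![0, ((1 : ℂˣ) : ℂ), z₁, z₂] : E 4) ∈ X.B₂.U (X.bt Q) :=
      X.mem_bt.2 (by simpa using M.r_pos Q)
    have t4 : X.B₂.γ (X.bt Q) ![0, ((1 : ℂˣ) : ℂ), z₁, z₂] =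
        d • X.B₂.γ (X.bt P) ![s, b, z₁, z₂] := by
      rw [bt, bt, X.γ_eq (X.mem_U.1 m1), X.γ_eq (X.mem_U.1 m2)]
      show (P1Y.mk (P1Y.mk (M.A.γ (M.e (Q, 0)) ![0, ((1 : ℂˣ) : ℂ)]) (vec false z₁))
        (vec false z₂) : P1Y X.D₁ α' (-3)) = d • P1Y.mk (P1Y.mk (M.A.γ (M.e (P, 0)) ![s, b])
        (vec false z₁)) (vec false z₂)
      rw [hd, P1Y.smul_mk, P1Y.smul_mk]
    have t5 := X.W_last W (PolAtlas.mem_O_mk m1 m2 t4) j hj
    have t6 : X.B₂.τ (X.bt P) (X.bt Q) ![s, b, z₁, z₂] = ![0, ((1 : ℂˣ) : ℂ), z₁, z₂] :=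
      PolAtlas.τ_eq_of m1 m2 t4
    have t7 : W.W (X.bt Q) ![0, ((1 : ℂˣ) : ℂ), z₁, z₂] j = W.W (X.bt P) ![s, b, z₁, z₂] j := by
      rw [← t6]; exact t5
    rw [indep P s hs w b, ← t7]
    exact indep Q 0 (by simpa using M.r_pos Q) _ _

/-- the last two components are the same in all bottom charts and for all `s` -/
theorem const_last (hconst : ∀ f : T.X.Pt → ℂ,
      (∀ P, DifferentiableOn ℂ (fun s => f (An.c P s)) (ball 0 (M.r P))) → ∀ P Q, f P = f Q)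
    (W : X.B₂.HolField) (j : Fin 4) (hj : j = 2 ∨ j = 3) (P Q : T.X.Pt) {s s' : ℂ}
    (hs : ‖s‖ < M.r P) (hs' : ‖s'‖ < M.r Q) (w w' z₁ z₂ : ℂ) :
    W.W (X.bt P) ![s, w, z₁, z₂] j = W.W (X.bt Q) ![s', w', z₁, z₂] j := by
  rw [X.const_aux W j hj P hs, X.const_aux W j hj Q hs']
  refine hconst (fun R => W.W (X.bt R) ![0, 0, z₁, z₂] j) (fun R => ?_) _ _
  have h1 : ∀ s ∈ ball (0 : ℂ) (M.r R), W.W (X.bt (An.c R s)) ![0, 0, z₁, z₂] j =
      W.W (X.bt R) ![s, 0, z₁, z₂] j := by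
    intro s hs
    exact (X.const_aux W j hj R (by simpa using hs) 0 z₁ z₂).symm
  refine DifferentiableOn.congr ?_ h1
  intro s hs
  have hU : (![s, 0, z₁, z₂] : E 4) ∈ X.B₂.U (X.bt R) := X.mem_bt.2 (by simpa using hs)
  have d1 : DifferentiableAt ℂ (W.W (X.bt R)) ![s, 0, z₁, z₂] :=
    (W.hol _).differentiableAt ((X.B₂.isOpen_U _).mem_nhds hU)
  have d2 : DifferentiableAt ℂ (fun s : ℂ => (![s, 0, z₁, z₂] : E 4)) s := by
    rw [differentiableAt_pi]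
    intro k; fin_cases k <;> simp
  have d3 := d1.comp s (f := fun s : ℂ => (![s, 0, z₁, z₂] : E 4)) d2
  exact (differentiableAt_pi.1 d3 j).differentiableWithinAt

/-- the structure of a symmetric vector field -/
theorem sym_main (hconst : ∀ f : T.X.Pt → ℂ,
      (∀ P, DifferentiableOn ℂ (fun s => f (An.c P s)) (ball 0 (M.r P))) → ∀ P Q, f P = f Q)
    (W : X.B₂.HolField) (σ : T.X.Pt → T.X.Pt)
    (hE : ∀ P, ∀ z ∈ X.B₂.U (X.bt P), ∀ z' ∈ X.B₂.U (X.bt (σ P)), z' 2 = -z 2 → z' 3 = -z 3 →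
      z' 0 = z 0 → z' 1 = z 1 → W.W (X.bt (σ P)) z' 2 = -W.W (X.bt P) z 2 ∧
        W.W (X.bt (σ P)) z' 3 = -W.W (X.bt P) z 3) (hr : ∀ P, M.r (σ P) = M.r P)
    (P : T.X.Pt) {s : ℂ} (hs : ‖s‖ < M.r P) : ∃ κ e p₁ q₁ : ℂ, ∀ w z₁ z₂,
      W.W (X.bt P) ![s, w, z₁, z₂] = ![κ, w * e, p₁ * z₁, q₁ * z₂] := by
  obtain ⟨κ, e, p₀, p₁, p₂, q₀, q₁, q₂, h⟩ := X.W_main W (M.k_bot' P) (s := s)
    (fun w => M.mem_bot hs)
  have hs' : ‖s‖ < M.r (σ P) := by rw [hr]; exact hs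
  have key : ∀ z₁ z₂, W.W (X.bt P) ![s, 0, -z₁, -z₂] 2 = -W.W (X.bt P) ![s, 0, z₁, z₂] 2 ∧
      W.W (X.bt P) ![s, 0, -z₁, -z₂] 3 = -W.W (X.bt P) ![s, 0, z₁, z₂] 3 := by
    intro z₁ z₂
    have h1 := hE P ![s, 0, z₁, z₂] (X.mem_bt.2 hs) ![s, 0, -z₁, -z₂] (X.mem_bt.2 hs') rfl rfl
      rfl rfl
    rw [X.const_last hconst W 2 (Or.inl rfl) (σ P) P hs' hs 0 0,
      X.const_last hconst W 3 (Or.inr rfl) (σ P) P hs' hs 0 0] at h1
    exact h1
  have k0 := key 0 0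
  have k1 := key 1 1
  simp only [bt, h] at k0 k1
  have hp0 : p₀ = 0 := by
    have : p₀ + p₁ * -0 + p₂ * (-0) ^ 2 = -(p₀ + p₁ * 0 + p₂ * 0 ^ 2) := k0.1
    linear_combination this / 2
  have hq0 : q₀ = 0 := by
    have : q₀ + q₁ * -0 + q₂ * (-0) ^ 2 = -(q₀ + q₁ * 0 + q₂ * 0 ^ 2) := k0.2
    linear_combination this / 2
  have hp2 : p₂ = 0 := by
    have : p₀ + p₁ * -1 + p₂ * (-1) ^ 2 = -(p₀ + p₁ * 1 + p₂ * 1 ^ 2) := k1.1
    linear_combination this / 2 - hp0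
  have hq2 : q₂ = 0 := by
    have : q₀ + q₁ * -1 + q₂ * (-1) ^ 2 = -(q₀ + q₁ * 1 + q₂ * 1 ^ 2) := k1.2
    linear_combination this / 2 - hq0
  refine ⟨κ, e, p₁, q₁, fun w z₁ z₂ => ?_⟩
  rw [bt, h, hp0, hq0, hp2, hq2]
  ext j
  fin_cases j <;> simp

/-- T10 (B): a symmetric vector field is invariant under the diagonal actions on the two
projective lines. -/
theorem inv_rot (hconst : ∀ f : T.X.Pt → ℂ,
      (∀ P, DifferentiableOn ℂ (fun s => f (An.c P s)) (ball 0 (M.r P))) → ∀ P Q, f P = f Q)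
    (W : X.B₂.HolField) (σ : T.X.Pt → T.X.Pt)
    (hE : ∀ P, ∀ z ∈ X.B₂.U (X.bt P), ∀ z' ∈ X.B₂.U (X.bt (σ P)), z' 2 = -z 2 → z' 3 = -z 3 →
      z' 0 = z 0 → z' 1 = z 1 → W.W (X.bt (σ P)) z' 2 = -W.W (X.bt P) z 2 ∧
        W.W (X.bt (σ P)) z' 3 = -W.W (X.bt P) z 3) (hr : ∀ P, M.r (σ P) = M.r P)
    (R : X.B₂.DAct) (k₁ k₂ k₃ : ℤ) (hR : ∀ P, R.k (X.bt P) = ![0, k₁, k₂, k₃]) :
    ∀ a, ∀ z ∈ X.B₂.U a, PolAtlas.Inv W R a z := by
  refine X.inv_all W R fun P z hz c => ?_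
  have hz0 := X.mem_bt.1 hz
  obtain ⟨κ, e, p₁, q₁, h⟩ := X.sym_main hconst W σ hE hr P hz0
  have e1 : z = ![z 0, z 1, z 2, z 3] := by ext j; fin_cases j <;> rfl
  have e2 : dact (R.k (X.bt P)) c z = ![z 0, ((c ^ k₁ : ℂˣ) : ℂ) * z 1,
      ((c ^ k₂ : ℂˣ) : ℂ) * z 2, ((c ^ k₃ : ℂˣ) : ℂ) * z 3] := by
    rw [hR]; ext j; fin_cases j <;> simp [dact]
  rw [e2, hR, h]
  conv_rhs => rw [e1, h]
  ext j
  fin_cases j <;> simp [dact]
  · ring
  · ring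
  · ring

end TwoP1

end Main

end

end Pool.Agent.YTDA


end

/- source: Pool.Agent.YTDA.InvH -/

section

/-!
# Invariance of a Kähler metric of constant scalar curvature on the fourfold `X`
-/

set_option autoImplicit false

namespace Pool.Agent.YTDA

open Complex Set Topology Filter Metric ComplexOrder
open Pool.Agent.YTD

noncomputable section

/-! ## Changes of signs of the coordinates -/

/-- multiplication of the coordinates by signs -/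
def sgn {n : ℕ} (ε : Fin n → ℝ) (z : E n) : E n := fun j => (ε j : ℂ) * z j

/-- `sgn` as a linear equivalence -/
def sgnE {n : ℕ} (ε : Fin n → ℝ) (hε : ∀ j, ε j * ε j = 1) : E n ≃L[ℝ] E n :=
  ContinuousLinearEquiv.equivOfInverse
    (ContinuousLinearMap.pi fun j => (ε j) • ContinuousLinearMap.proj j)
    (ContinuousLinearMap.pi fun j => (ε j) • ContinuousLinearMap.proj j)
    (fun z => by ext j; simp [← mul_assoc, ← ofReal_mul, hε])
    (fun z => by ext j; simp [← mul_assoc, ← ofReal_mul, hε])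

theorem sgnE_apply {n : ℕ} (ε : Fin n → ℝ) (hε : ∀ j, ε j * ε j = 1) (z : E n) :
    sgnE ε hε z = sgn ε z := by
  ext j
  simp [sgnE, sgn]

theorem sgn_single {n : ℕ} (ε : Fin n → ℝ) (i : Fin n) (c : ℂ) :
    sgn ε (Pi.single i c : E n) = (ε i) • (Pi.single i c : E n) := by
  ext j
  by_cases h : j = i
  · subst h; simp [sgn]
  · simp [sgn, h]

theorem fderiv_sgn {n : ℕ} {ε : Fin n → ℝ} (hε : ∀ j, ε j * ε j = 1) (f : E n → ℂ) (z : E n)
    (i : Fin n) (c : ℂ) : fderiv ℝ (fun w => f (sgn ε w)) z (Pi.single i c) =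
      (ε i : ℂ) * fderiv ℝ f (sgn ε z) (Pi.single i c) := by
  have h1 : (fun w => f (sgn ε w)) = f ∘ (sgnE ε hε) := by
    funext w
    rw [Function.comp_apply, sgnE_apply]
  rw [h1, (sgnE ε hε).comp_right_fderiv, ContinuousLinearMap.comp_apply]
  show fderiv ℝ f (sgnE ε hε z) (sgnE ε hε (Pi.single i c)) = _
  rw [sgnE_apply, sgnE_apply, sgn_single, map_smul, real_smul]

theorem dz_sgn {n : ℕ} {ε : Fin n → ℝ} (hε : ∀ j, ε j * ε j = 1) (f : E n → ℂ) (z : E n)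
    (i : Fin n) : dz i (fun w => f (sgn ε w)) z = (ε i : ℂ) * dz i f (sgn ε z) := by
  unfold dz
  rw [fderiv_sgn hε, fderiv_sgn hε]
  ring

theorem dzb_sgn {n : ℕ} {ε : Fin n → ℝ} (hε : ∀ j, ε j * ε j = 1) (f : E n → ℂ) (z : E n)
    (i : Fin n) : dzb i (fun w => f (sgn ε w)) z = (ε i : ℂ) * dzb i f (sgn ε z) := by
  unfold dzb
  rw [fderiv_sgn hε, fderiv_sgn hε]
  ring

theorem dz_const_mul' {n : ℕ} {ε : ℝ} (hε : ε * ε = 1) (f : E n → ℂ) (z : E n) (i : Fin n) :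
    dz i (fun w => (ε : ℂ) * f w) z = (ε : ℂ) * dz i f z := by
  have h0 : ε ≠ 0 := by rintro rfl; norm_num at hε
  have h1 : ∀ v, fderiv ℝ (fun w => (ε : ℂ) * f w) z v = (ε : ℂ) * fderiv ℝ f z v := by
    intro v
    have e1 : (fun w => (ε : ℂ) * f w) = ε • f := by
      funext w; rw [Pi.smul_apply, real_smul]
    have h2 : fderiv ℝ (ε • f) z = ε • fderiv ℝ f z := by
      let _ := invertibleOfNonzero h0
      exact fderiv_const_smul_of_invertible ε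
    rw [e1, h2]
    show ε • fderiv ℝ f z v = _
    rw [real_smul]
  unfold dz
  rw [h1, h1]
  ring

theorem hess_sgn {n : ℕ} {ε : Fin n → ℝ} (hε : ∀ j, ε j * ε j = 1) (φ : E n → ℝ) (z : E n)
    (i j : Fin n) : hess (fun w => φ (sgn ε w)) z i j =
      (ε i : ℂ) * ((ε j : ℂ) * hess φ (sgn ε z) i j) := by
  unfold hess
  have h1 : dzb j (fun w => ((φ (sgn ε w) : ℝ) : ℂ)) =
      fun w => (fun u => (ε j : ℂ) * dzb j (fun w => (φ w : ℂ)) u) (sgn ε w) := by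
    funext w
    exact dzb_sgn hε (fun w => (φ w : ℂ)) w j
  rw [h1]
  exact (dz_sgn hε (fun u => (ε j : ℂ) * dzb j (fun w => (φ w : ℂ)) u) z i).trans (by
    rw [dz_const_mul' (hε j)])

/-! ## Symmetries of the vector field of the circle theorem -/

section Circle

variable {n : ℕ} {Y : Type} [MulAction ℂˣ Y] {A : PolAtlas n Y}

/-- derivative of the potential along the circle action -/
def cvf (D : A.DAct) (H : Y → ℝ) (a : A.ι) (z : E n) : ℝ :=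
  deriv (fun θ : ℝ => A.pot H a (fun j => exp ((D.k a j : ℂ) * θ * I) * z j)) 0

/-- the vector field is the gradient of the derivative of the potential -/
def IsGrad (H : Y → ℝ) (D : A.DAct) (W : A.HolField) : Prop :=
  ∀ a, ∀ z ∈ A.U a, ∀ m, ∑ k, hess (A.pot H a) z k m * W.W a z k =
    dzb m (fun w => (cvf D H a w : ℂ)) z

/-- the conclusion of the circle theorem -/
def CircleThm (H : Y → ℝ) (D : A.DAct) : Prop :=
  ∃ W : A.HolField, IsGrad H D W ∧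
    ((∀ a, ∀ z ∈ A.U a, ∀ c : ℂˣ, ‖(c : ℂ)‖ = 1 →
          W.W a (dact (D.k a) c z) = dact (D.k a) c (W.W a z)) →
        ∀ (c : ℂˣ) y, ‖(c : ℂ)‖ = 1 → H (D.act c y) = H y)

theorem exp_dact (k : Fin n → ℤ) (θ : ℝ) (z : E n) :
    (fun j => exp ((k j : ℂ) * θ * I) * z j) =
      dact k (Units.mk0 (exp (θ * I)) (exp_ne_zero _)) z := by
  ext j
  simp only [dact]
  congr 1
  rw [Units.val_zpow_eq_zpow_val, Units.val_mk0, ← exp_int_mul]
  congr 1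
  ring

theorem sgn_dact {ε : Fin n → ℝ} (k : Fin n → ℤ) (c : ℂˣ) (z : E n) :
    dact k c (sgn ε z) = sgn ε (dact k c z) := by
  ext j
  simp only [dact, sgn]
  ring

theorem cvf_sym {H : Y → ℝ} {D : A.DAct} {a b : A.ι} {ε : Fin n → ℝ}
    (hk : D.k b = D.k a) (hpot : ∀ z ∈ A.U a, A.pot H b (sgn ε z) = A.pot H a z)
    {z : E n} (hz : z ∈ A.U a) : cvf D H b (sgn ε z) = cvf D H a z := by
  unfold cvf
  congr 1
  funext θ
  rw [exp_dact, exp_dact, hk, sgn_dact]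
  exact hpot _ (D.dom a z hz _)

/-- a symmetry of the metric is a symmetry of the vector field -/
theorem field_sym {H : Y → ℝ} (hK : A.IsKahler H) {D : A.DAct} {W : A.HolField}
    (hW : IsGrad H D W) {a b : A.ι} {ε : Fin n → ℝ} (hε : ∀ j, ε j * ε j = 1)
    (hk : D.k b = D.k a) (hU : ∀ z ∈ A.U a, sgn ε z ∈ A.U b)
    (hpot : ∀ z ∈ A.U a, A.pot H b (sgn ε z) = A.pot H a z) {z : E n} (hz : z ∈ A.U a) :
    W.W b (sgn ε z) = sgn ε (W.W a z) := by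
  have hnh : ∀ᶠ w in 𝓝 z, w ∈ A.U a := (A.isOpen_U a).mem_nhds hz
  -- hessians
  have h1 : ∀ k m, hess (A.pot H a) z k m =
      (ε k : ℂ) * ((ε m : ℂ) * hess (A.pot H b) (sgn ε z) k m) := by
    intro k m
    rw [← hess_sgn hε]
    unfold hess
    have e : (fun w => ((A.pot H a w : ℝ) : ℂ)) =ᶠ[𝓝 z]
        fun w => ((A.pot H b (sgn ε w) : ℝ) : ℂ) := by
      filter_upwards [hnh] with w hw
      rw [hpot w hw]
    have e2 : dzb m (fun w => ((A.pot H a w : ℝ) : ℂ)) =ᶠ[𝓝 z]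
        dzb m (fun w => ((A.pot H b (sgn ε w) : ℝ) : ℂ)) := by
      filter_upwards [e.eventuallyEq_nhds] with w hw
      unfold dzb
      rw [hw.fderiv_eq]
    unfold dz
    rw [e2.fderiv_eq]
  have h2 : ∀ m, dzb m (fun w => (cvf D H a w : ℂ)) z =
      (ε m : ℂ) * dzb m (fun w => (cvf D H b w : ℂ)) (sgn ε z) := by
    intro m
    rw [← dzb_sgn hε]
    have e : (fun w => ((cvf D H a w : ℝ) : ℂ)) =ᶠ[𝓝 z]
        fun w => ((cvf D H b (sgn ε w) : ℝ) : ℂ) := by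
      filter_upwards [hnh] with w hw
      rw [cvf_sym hk hpot hw]
    unfold dzb
    rw [e.fderiv_eq]
  have hεc : ∀ j, (ε j : ℂ) * (ε j : ℂ) = 1 := fun j => by
    rw [← ofReal_mul, hε, ofReal_one]
  have h3 : ∀ m, ∑ k, hess (A.pot H b) (sgn ε z) k m *
      (W.W b (sgn ε z) k - sgn ε (W.W a z) k) = 0 := by
    intro m
    have e1 := hW a z hz m
    have e2 := hW b (sgn ε z) (hU z hz) m
    simp only [mul_sub, Finset.sum_sub_distrib]
    rw [e2, sub_eq_zero]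
    rw [h2 m] at e1
    have e3 : (ε m : ℂ) * ((ε m : ℂ) * dzb m (fun w => (cvf D H b w : ℂ)) (sgn ε z)) =
        (ε m : ℂ) * ∑ k, hess (A.pot H a) z k m * W.W a z k := by rw [e1]
    rw [← mul_assoc, hεc, one_mul] at e3
    rw [e3, Finset.mul_sum]
    refine Finset.sum_congr rfl fun k _ => ?_
    rw [h1 k m]
    simp only [sgn]
    linear_combination (hess (A.pot H b) (sgn ε z) k m * W.W a z k * (ε k : ℂ)) * hεc m
  have hpd := hK.posDef b (sgn ε z) (hU z hz)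
  have hdet : (hess (A.pot H b) (sgn ε z)).det ≠ 0 := hpd.det_pos.ne'
  have h4 : (fun k => W.W b (sgn ε z) k - sgn ε (W.W a z) k) = 0 := by
    refine Matrix.eq_zero_of_vecMul_eq_zero hdet ?_
    ext m
    rw [Pi.zero_apply, ← h3 m]
    simp only [Matrix.vecMul, dotProduct]
    exact Finset.sum_congr rfl fun k _ => mul_comm _ _
  ext k
  exact sub_eq_zero.1 (congrFun h4 k)

end Circle

/-! ## The invariance theorems on `X` -/

section Main

variable {K : Type} [Field K] [Algebra ℂ K] {T : Datum K} {q : ℕ} {D₀ : T.X.Pt →₀ ℤ}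
  {An : AnCurve T.X.toCurveOrd} {M : SigModel T q D₀ An} {α α' : ℤ}
  (X : TwoP1 M.A M.D α 3 α' (-3))

namespace TwoP1

/-- T11 (i): invariance under the circle acting on the fibres of `Σ → C` -/
theorem w_circle {H : P1Y X.D₁ α' (-3) → ℝ} {R : X.B₂.DAct}
    (hR : ∀ P, R.k (X.bt P) = ![0, 1, 0, 0]) (hc : CircleThm H R) (c : ℂˣ)
    (p : P1Y X.D₁ α' (-3)) (h1 : ‖(c : ℂ)‖ = 1) : H (R.act c p) = H p := by
  obtain ⟨W, -, h⟩ := hc
  exact h (fun a z hz c _ => X.inv_w W R hR a z hz c) c p h1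

/-- A symmetry of the metric of the type `[y, x, x'] ↦ [f y, diag(1,-1) x, diag(1,-1) x']`
where `f` induces the permutation `σ` on the curve. -/
structure IsSymm (H : P1Y X.D₁ α' (-3) → ℝ) (f : M.Y → M.Y) (σ : T.X.Pt → T.X.Pt) : Prop where
  r : ∀ P, M.r (σ P) = M.r P
  γ : ∀ P, ∀ z ∈ M.A.U (M.e (P, 0)), f (M.A.γ (M.e (P, 0)) z) = M.A.γ (M.e (σ P, 0)) z
  H : ∀ y (u v : ℂ), H (P1Y.mk (P1Y.mk (f y) (vec false (-u))) (vec false (-v))) =
    H (P1Y.mk (P1Y.mk y (vec false u)) (vec false v))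

/-- the signs -/
def eps : Fin 4 → ℝ := ![1, 1, -1, -1]

theorem eps_sq (j : Fin 4) : eps j * eps j = 1 := by
  fin_cases j <;> simp [eps]

theorem sgn_eps (z : E 4) : sgn eps z = ![z 0, z 1, -z 2, -z 3] := by
  ext j
  fin_cases j <;> simp [sgn, eps]

/-- T11 (ii), first part: invariance under the diagonal circles -/
theorem rot_circle (hconst : ∀ f : T.X.Pt → ℂ,
      (∀ P, DifferentiableOn ℂ (fun s => f (An.c P s)) (ball 0 (M.r P))) → ∀ P Q, f P = f Q)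
    {H : P1Y X.D₁ α' (-3) → ℝ} (hK : X.B₂.IsKahler H) {f : M.Y → M.Y} {σ : T.X.Pt → T.X.Pt}
    (hs : X.IsSymm H f σ) {R : X.B₂.DAct} {k₁ k₂ k₃ : ℤ}
    (hR : ∀ P, R.k (X.bt P) = ![0, k₁, k₂, k₃]) (hc : CircleThm H R) (c : ℂˣ)
    (p : P1Y X.D₁ α' (-3)) (h1 : ‖(c : ℂ)‖ = 1) : H (R.act c p) = H p := by
  obtain ⟨W, hW, h⟩ := hc
  refine h (fun a z hz c _ => X.inv_rot hconst W σ ?_ hs.r R k₁ k₂ k₃ hR a z hz c) c p h1
  intro P z hz z' hz' e2 e3 e0 e1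
  have hU : ∀ z ∈ X.B₂.U (X.bt P), sgn eps z ∈ X.B₂.U (X.bt (σ P)) := by
    intro z hz
    rw [sgn_eps, X.mem_bt, hs.r]
    have := X.mem_bt.1 hz
    exact this
  have hpot : ∀ z ∈ X.B₂.U (X.bt P),
      X.B₂.pot H (X.bt (σ P)) (sgn eps z) = X.B₂.pot H (X.bt P) z := by
    intro z hz
    have hz1 := X.mem_U.1 hz
    have hz2 : (![(sgn eps z) 0, (sgn eps z) 1] : E 2) ∈ M.A.U (M.e (σ P, 0)) :=
      X.mem_U.1 (hU z hz)
    unfold PolAtlas.pot
    congr 1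
    rw [bt, bt, X.γ_eq hz1, X.γ_eq hz2, sgn_eps]
    show H (P1Y.mk (P1Y.mk (M.A.γ (M.e (σ P, 0)) ![z 0, z 1]) (vec false (-z 2)))
      (vec false (-z 3))) = H (P1Y.mk (P1Y.mk (M.A.γ (M.e (P, 0)) ![z 0, z 1]) (vec false (z 2)))
      (vec false (z 3)))
    rw [← hs.γ P _ hz1, hs.H]
  have key := field_sym hK hW eps_sq (by rw [hR, hR]) hU hpot hz
  have e4 : z' = sgn eps z := by
    rw [sgn_eps]
    ext j
    fin_cases j
    · exact e0
    · exact e1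
    · exact e2
    · exact e3
  rw [e4, key, sgn_eps]
  exact ⟨rfl, rfl⟩

end TwoP1

end Main

/-! ## The unitary group -/

section Unitary

/-- `(x₀, c x₁)` -/
def diagV (c : ℂˣ) (x : V2) : V2 := ⟨![x.1 0, (c : ℂ) * x.1 1], by
  intro h
  apply x.2
  have h0 := congrFun h 0
  have h1 := congrFun h 1
  ext j
  fin_cases j
  · exact h0
  · have : (c : ℂ) * x.1 1 = 0 := h1
    exact (mul_eq_zero.1 this).resolve_left c.ne_zero⟩

/-- `(x₀ + x₁, x₀ - x₁)` -/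
def hadV (x : V2) : V2 := ⟨![x.1 0 + x.1 1, x.1 0 - x.1 1], by
  intro h
  apply x.2
  have h0 : x.1 0 + x.1 1 = 0 := congrFun h 0
  have h1 : x.1 0 - x.1 1 = 0 := congrFun h 1
  ext j
  fin_cases j
  · show x.1 0 = 0
    linear_combination (h0 + h1) / 2
  · show x.1 1 = 0
    linear_combination (h0 - h1) / 2⟩

/-- square of the norm -/
def nsq (x : V2) : ℝ := ‖x.1 0‖ ^ 2 + ‖x.1 1‖ ^ 2

theorem nsq_pos (x : V2) : 0 < nsq x := by
  unfold nsq
  by_cases h : x.1 0 = 0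
  · have h1 : x.1 1 ≠ 0 := by
      intro h1; apply x.2; ext j; fin_cases j
      · exact h
      · exact h1
    have := norm_pos_iff.2 h1
    positivity
  · have := norm_pos_iff.2 h
    positivity

/-- a vector of `ℂ²` with given coordinates -/
def vv (a b : ℂ) (h : a ≠ 0 ∨ b ≠ 0) : V2 := ⟨![a, b], by
  intro h0
  rcases h with h | h
  · exact h (congrFun h0 0)
  · exact h (congrFun h0 1)⟩

theorem vv_ext {x : V2} {a b : ℂ} {h : a ≠ 0 ∨ b ≠ 0} (h0 : x.1 0 = a) (h1 : x.1 1 = b) :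
    x = vv a b h := by
  apply Subtype.ext
  ext j
  fin_cases j
  · exact h0
  · exact h1

theorem exists_phase (z : ℂ) : ∃ u : ℂˣ, ‖(u : ℂ)‖ = 1 ∧ (u : ℂ) * z = ‖z‖ := by
  by_cases h : z = 0
  · exact ⟨1, by simp, by simp [h]⟩
  · have hn : (‖z‖ : ℂ) ≠ 0 := by exact_mod_cast norm_ne_zero_iff.2 h
    refine ⟨Units.mk0 (‖z‖ / z) (div_ne_zero hn h), ?_, ?_⟩
    · rw [Units.val_mk0, norm_div, norm_real, norm_norm, div_self (norm_ne_zero_iff.2 h)]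
    · rw [Units.val_mk0, div_mul_cancel₀ _ h]

/-- a function on `ℂ² ∖ 0` with the three kinds of invariance only depends on the norm -/
theorem norm_dep {F : V2 → ℝ} (h1 : ∀ c : ℂˣ, ‖(c : ℂ)‖ = 1 → ∀ x, F (c • x) = F x)
    (h2 : ∀ c : ℂˣ, ‖(c : ℂ)‖ = 1 → ∀ x, F (diagV c x) = F x)
    (h3 : ∀ c : ℂˣ, ‖(c : ℂ)‖ = 1 → ∀ x, F (hadV (diagV c x)) = F (hadV x)) (x x' : V2)
    (hx : nsq x = nsq x') : F x = F x' := by
  have key : ∀ x : V2, ∀ (h : ((Real.sqrt (nsq x) : ℝ) : ℂ) ≠ 0 ∨ (0 : ℂ) ≠ 0),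
      F x = F (vv (Real.sqrt (nsq x) : ℝ) 0 h) := by
    intro x h
    set N : ℝ := Real.sqrt (nsq x) with hN
    have hNpos : 0 < N := Real.sqrt_pos.2 (nsq_pos x)
    have hNsq : N ^ 2 = nsq x := Real.sq_sqrt (nsq_pos x).le
    set r₀ : ℝ := ‖x.1 0‖ with hr0
    set r₁ : ℝ := ‖x.1 1‖ with hr1
    have hsum : r₀ ^ 2 + r₁ ^ 2 = N ^ 2 := by rw [hNsq]; rfl
    obtain ⟨u, hu, hu'⟩ := exists_phase (x.1 0)
    obtain ⟨v, hv, hv'⟩ := exists_phase ((u : ℂ) * x.1 1)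
    have hv'' : ‖(u : ℂ) * x.1 1‖ = r₁ := by rw [norm_mul, hu, one_mul]
    have hI : ‖((Units.mk0 I I_ne_zero : ℂˣ) : ℂ)‖ = 1 := by simp
    -- first step: reduce to `(r₀, i r₁)`
    have e1 : F x = F (diagV (Units.mk0 I I_ne_zero * v) (u • x)) := by
      rw [h2 _ (by rw [Units.val_mul, norm_mul, hI, hv, mul_one]), h1 _ hu]
    -- second step
    set w : ℂ := (r₀ + r₁ * I) / N with hw
    have hNc : (N : ℂ) ≠ 0 := by exact_mod_cast hNpos.ne'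
    have hwn : ‖w‖ = 1 := by
      rw [hw, norm_div, norm_real, Real.norm_of_nonneg hNpos.le, div_eq_one_iff_eq hNpos.ne']
      have : ‖(r₀ : ℂ) + r₁ * I‖ = Real.sqrt (r₀ ^ 2 + r₁ ^ 2) := by
        rw [Complex.norm_add_mul_I]
      rw [this, hsum, Real.sqrt_sq hNpos.le]
    have hw0 : w ≠ 0 := by rw [← norm_ne_zero_iff, hwn]; norm_num
    have hwconj : w⁻¹ = (r₀ - r₁ * I) / N := by
      rw [inv_eq_iff_eq_inv, hw, inv_div]
      have h0 : ((r₀ : ℂ) - r₁ * I) ≠ 0 := by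
        intro h0
        have : ((r₀ : ℂ) - r₁ * I) * (r₀ + r₁ * I) = 0 := by rw [h0, zero_mul]
        have e : ((r₀ : ℂ) - r₁ * I) * (r₀ + r₁ * I) = ((N ^ 2 : ℝ) : ℂ) := by
          rw [← hsum]; push_cast; linear_combination (-(r₁ : ℂ) ^ 2) * I_sq
        rw [e] at this
        have := ofReal_eq_zero.1 this
        nlinarith
      rw [div_eq_div_iff hNc h0]
      have : ((N : ℝ) : ℂ) ^ 2 = r₀ ^ 2 + r₁ ^ 2 := by
        rw [← ofReal_pow, ← hsum]; push_cast; ring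
      linear_combination -this - (r₁ : ℂ) ^ 2 * I_sq
    set c : ℂˣ := (Units.mk0 w hw0) ^ (-2 : ℤ) with hc
    have hcv : (c : ℂ) = w⁻¹ * w⁻¹ := by
      rw [hc, Units.val_zpow_eq_zpow_val, Units.val_mk0, zpow_neg, ← mul_inv]
      norm_cast
      rw [pow_two]
    have hcn : ‖(c : ℂ)‖ = 1 := by rw [hcv, norm_mul, norm_inv, hwn]; norm_num
    have hhalf : ((N / 2 : ℝ) : ℂ) ≠ 0 := by
      exact_mod_cast (by positivity : N / 2 ≠ 0)
    set v₀ : V2 := vv ((N / 2 : ℝ) : ℂ) ((N / 2 : ℝ) : ℂ) (Or.inl hhalf) with hv0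
    have e2 : diagV (Units.mk0 I I_ne_zero * v) (u • x) =
        (Units.mk0 w hw0) • hadV (diagV c v₀) := by
      apply Subtype.ext
      rw [V2.coe_smul]
      ext j
      fin_cases j
      · show (u : ℂ) * x.1 0 = w * (((N / 2 : ℝ) : ℂ) + (c : ℂ) * ((N / 2 : ℝ) : ℂ))
        rw [hu', hcv]
        have : w * (((N / 2 : ℝ) : ℂ) + w⁻¹ * w⁻¹ * ((N / 2 : ℝ) : ℂ)) =
            ((N / 2 : ℝ) : ℂ) * (w + w⁻¹) := by field_simp
        rw [this, hwconj, hw]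
        push_cast
        field_simp
        ring
      · show ((Units.mk0 I I_ne_zero * v : ℂˣ) : ℂ) * ((u : ℂ) * x.1 1) =
          w * (((N / 2 : ℝ) : ℂ) - (c : ℂ) * ((N / 2 : ℝ) : ℂ))
        rw [Units.val_mul, Units.val_mk0, mul_assoc, hv', hv'', hcv]
        have : w * (((N / 2 : ℝ) : ℂ) - w⁻¹ * w⁻¹ * ((N / 2 : ℝ) : ℂ)) =
            ((N / 2 : ℝ) : ℂ) * (w - w⁻¹) := by field_simp
        rw [this, hwconj, hw]
        push_cast
        field_simp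
        ring
    have e3 : hadV v₀ = vv (N : ℝ) 0 h := by
      refine vv_ext ?_ ?_
      · show ((N / 2 : ℝ) : ℂ) + ((N / 2 : ℝ) : ℂ) = (N : ℂ)
        push_cast; ring
      · show ((N / 2 : ℝ) : ℂ) - ((N / 2 : ℝ) : ℂ) = 0
        ring
    rw [e1, e2, h1 _ (by rw [Units.val_mk0, hwn]), h3 c hcn, e3]
  have hne : ((Real.sqrt (nsq x) : ℝ) : ℂ) ≠ 0 := by
    exact_mod_cast (Real.sqrt_pos.2 (nsq_pos x)).ne'
  have hne' : ((Real.sqrt (nsq x') : ℝ) : ℂ) ≠ 0 := by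
    exact_mod_cast (Real.sqrt_pos.2 (nsq_pos x')).ne'
  rw [key x (Or.inl hne), key x' (Or.inl hne')]
  congr 1
  apply Subtype.ext
  show ![((Real.sqrt (nsq x) : ℝ) : ℂ), 0] = ![((Real.sqrt (nsq x') : ℝ) : ℂ), 0]
  rw [hx]

/-- exchange of the coordinates -/
def swapV (x : V2) : V2 := ⟨![x.1 1, x.1 0], by
  intro h
  apply x.2
  have h0 : x.1 1 = 0 := congrFun h 0
  have h1 : x.1 0 = 0 := congrFun h 1
  ext j
  fin_cases j
  · exact h1
  · exact h0⟩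

theorem hadV_surj (x : V2) : ∃ x', hadV x' = x := by
  refine ⟨(Units.mk0 (1 / 2 : ℂ) (by norm_num)) • hadV x, ?_⟩
  apply Subtype.ext
  ext j
  fin_cases j
  · show (1 / 2 : ℂ) * (x.1 0 + x.1 1) + (1 / 2 : ℂ) * (x.1 0 - x.1 1) = x.1 0
    ring
  · show (1 / 2 : ℂ) * (x.1 0 + x.1 1) - (1 / 2 : ℂ) * (x.1 0 - x.1 1) = x.1 1
    ring

theorem vec_neg (u : ℂ) : vec false (-u) = diagV (-1) (vec false u) := by
  apply Subtype.ext
  ext j
  fin_cases j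
  · rfl
  · show -u = ((-1 : ℂˣ) : ℂ) * u
    simp

theorem hadV_vec_neg (u : ℂ) : hadV (vec false (-u)) = swapV (hadV (vec false u)) := by
  apply Subtype.ext
  ext j
  fin_cases j
  · show (1 : ℂ) + -u = 1 - u
    ring
  · show (1 : ℂ) - -u = 1 + u
    ring

end Unitary

/-! ## The final statement of T11 -/

section Final

variable {K : Type} [Field K] [Algebra ℂ K] {T : Datum K} {q : ℕ} {D₀ : T.X.Pt →₀ ℤ}
  {An : AnCurve T.X.toCurveOrd} {M : SigModel T q D₀ An} {α α' : ℤ}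
  (X : TwoP1 M.A M.D α 3 α' (-3))

namespace TwoP1

theorem norm_zpow_one {c : ℂˣ} (h : ‖(c : ℂ)‖ = 1) (k : ℤ) : ‖((c ^ k : ℂˣ) : ℂ)‖ = 1 := by
  rw [Units.val_zpow_eq_zpow_val, norm_zpow, h, one_zpow]

/-- the symmetries of `H` in the form of `IsSymm` -/
theorem isSymm_of {H : P1Y X.D₁ α' (-3) → ℝ} {f : M.Y → M.Y} {σ : T.X.Pt → T.X.Pt}
    (hr : ∀ P, M.r (σ P) = M.r P)
    (hγ : ∀ P, ∀ z ∈ M.A.U (M.e (P, 0)), f (M.A.γ (M.e (P, 0)) z) = M.A.γ (M.e (σ P, 0)) z)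
    (hH : ∀ y x x', H (P1Y.mk (P1Y.mk (f y) (diagV (-1) x)) (diagV (-1) x')) =
      H (P1Y.mk (P1Y.mk y x) x')) : X.IsSymm H f σ :=
  ⟨hr, hγ, fun y u v => by rw [vec_neg, vec_neg, hH]⟩

theorem isSymm_had {H Hg : P1Y X.D₁ α' (-3) → ℝ} {f : M.Y → M.Y} {σ : T.X.Pt → T.X.Pt}
    (hHg : ∀ y x x', Hg (P1Y.mk (P1Y.mk y x) x') = H (P1Y.mk (P1Y.mk y (hadV x)) (hadV x')))
    (hr : ∀ P, M.r (σ P) = M.r P)
    (hγ : ∀ P, ∀ z ∈ M.A.U (M.e (P, 0)), f (M.A.γ (M.e (P, 0)) z) = M.A.γ (M.e (σ P, 0)) z)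
    (hH : ∀ y x x', H (P1Y.mk (P1Y.mk (f y) (swapV x)) (swapV x')) =
      H (P1Y.mk (P1Y.mk y x) x')) : X.IsSymm Hg f σ :=
  ⟨hr, hγ, fun y u v => by rw [hHg, hHg, hadV_vec_neg, hadV_vec_neg, hH]⟩

/-- T11: a metric of constant scalar curvature which is invariant under `Γ` is invariant under
the circle acting on `Σ` and under `U(2) × U(2)`. -/
theorem inv_main (hconst : ∀ f : T.X.Pt → ℂ,
      (∀ P, DifferentiableOn ℂ (fun s => f (An.c P s)) (ball 0 (M.r P))) → ∀ P Q, f P = f Q)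
    (Dw Rx Ry : X.B₂.DAct)
    (hDw : ∀ P, Dw.k (X.bt P) = ![0, 1, 0, 0])
    (hDw' : ∀ c y x x', Dw.act c (P1Y.mk (P1Y.mk y x) x') =
      P1Y.mk (P1Y.mk (M.D.act c y) x) x')
    (hRx : ∀ P, Rx.k (X.bt P) = ![0, 0, 1, 0])
    (hRx' : ∀ c y x x', Rx.act c (P1Y.mk (P1Y.mk y x) x') = P1Y.mk (P1Y.mk y (diagV c x)) x')
    (hRy : ∀ P, Ry.k (X.bt P) = ![0, 0, 0, 1])
    (hRy' : ∀ c y x x', Ry.act c (P1Y.mk (P1Y.mk y x) x') = P1Y.mk (P1Y.mk y x) (diagV c x'))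
    {H Hg : P1Y X.D₁ α' (-3) → ℝ} (hK : X.B₂.IsKahler H) (hKg : X.B₂.IsKahler Hg)
    (hHg : ∀ y x x', Hg (P1Y.mk (P1Y.mk y x) x') = H (P1Y.mk (P1Y.mk y (hadV x)) (hadV x')))
    (hc : ∀ R : X.B₂.DAct, CircleThm H R) (hcg : ∀ R : X.B₂.DAct, CircleThm Hg R)
    {f₁ f₂ : M.Y → M.Y} {σ₁ σ₂ : T.X.Pt → T.X.Pt} (s₁ : X.IsSymm H f₁ σ₁)
    (s₂ : X.IsSymm Hg f₂ σ₂) :
    (∀ (c : ℂˣ) y x x', ‖(c : ℂ)‖ = 1 →
      H (P1Y.mk (P1Y.mk (M.D.act c y) x) x') = H (P1Y.mk (P1Y.mk y x) x')) ∧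
    ∀ y x x₁ x' x₁', nsq x = nsq x₁ → nsq x' = nsq x₁' →
      H (P1Y.mk (P1Y.mk y x) x') = H (P1Y.mk (P1Y.mk y x₁) x₁') := by
  have i1 : ∀ (c : ℂˣ) y x x', ‖(c : ℂ)‖ = 1 →
      H (P1Y.mk (P1Y.mk (M.D.act c y) x) x') = H (P1Y.mk (P1Y.mk y x) x') := by
    intro c y x x' h
    rw [← hDw']
    exact X.w_circle hDw (hc Dw) c _ h
  refine ⟨i1, ?_⟩
  have hom1 : ∀ (c : ℂˣ) p, ‖(c : ℂ)‖ = 1 → H (c • p) = H p := by
    intro c p h
    rw [hK.hom, h, one_pow, one_mul]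
  -- the first factor
  have a1 : ∀ y x x₁ x', nsq x = nsq x₁ →
      H (P1Y.mk (P1Y.mk y x) x') = H (P1Y.mk (P1Y.mk y x₁) x') := by
    intro y x x₁ x' hx
    refine norm_dep (F := fun x => H (P1Y.mk (P1Y.mk y x) x')) ?_ ?_ ?_ x x₁ hx
    · intro c h x
      show H (P1Y.mk (P1Y.mk y (c • x)) x') = _
      rw [P1Y.mk_smul, ← P1Y.smul_mk, ← P1Y.smul_mk, hom1 _ _ (norm_zpow_one h _),
        i1 _ _ _ _ (norm_zpow_one h _)]
    · intro c h x
      show H (P1Y.mk (P1Y.mk y (diagV c x)) x') = _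
      rw [← hRx']
      exact X.rot_circle hconst hK s₁ hRx (hc Rx) c _ h
    · intro c h x
      obtain ⟨x₀, rfl⟩ := hadV_surj x'
      show H (P1Y.mk (P1Y.mk y (hadV (diagV c x))) (hadV x₀)) =
        H (P1Y.mk (P1Y.mk y (hadV x)) (hadV x₀))
      rw [← hHg, ← hHg, ← hRx']
      exact X.rot_circle hconst hKg s₂ hRx (hcg Rx) c _ h
  -- the second factor
  have a2 : ∀ y x x' x₁', nsq x' = nsq x₁' →
      H (P1Y.mk (P1Y.mk y x) x') = H (P1Y.mk (P1Y.mk y x) x₁') := by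
    intro y x x' x₁' hx
    refine norm_dep (F := fun x' => H (P1Y.mk (P1Y.mk y x) x')) ?_ ?_ ?_ x' x₁' hx
    · intro c h x'
      show H (P1Y.mk (P1Y.mk y x) (c • x')) = _
      rw [P1Y.mk_smul, ← P1Y.smul_mk, hom1 _ _ (norm_zpow_one h _), X.l₁.act,
        i1 _ _ _ _ (norm_zpow_one h _)]
    · intro c h x'
      show H (P1Y.mk (P1Y.mk y x) (diagV c x')) = _
      rw [← hRy']
      exact X.rot_circle hconst hK s₁ hRy (hc Ry) c _ h
    · intro c h x'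
      obtain ⟨x₀, rfl⟩ := hadV_surj x
      show H (P1Y.mk (P1Y.mk y (hadV x₀)) (hadV (diagV c x'))) =
        H (P1Y.mk (P1Y.mk y (hadV x₀)) (hadV x'))
      rw [← hHg, ← hHg, ← hRy']
      exact X.rot_circle hconst hKg s₂ hRy (hcg Ry) c _ h
  intro y x x₁ x' x₁' hx hx'
  rw [a1 y x x₁ x' hx, a2 y x₁ x' x₁' hx']

end TwoP1

end Final

end

end Pool.Agent.YTDA


end

/- source: Pool.Agent.YTDA.SecRep -/

section

/-!
# Sections of the powers of `L` on the fourfold `X` and polynomials over the function field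

`Rep X N F f`: the homogeneous function `F` on `P1Y X.D₁ _ _` is given, on the generic points of
the coordinate discs of the curve, by the polynomial `f` with coefficients in the function field.
-/

set_option autoImplicit false

namespace Pool.Agent.YTDA

open Complex Set Topology Filter Metric MvPolynomial
open Pool.Agent.YTD

noncomputable section

section spec

variable {K : Type} [Field K] [Algebra ℂ K] {X : CurveOrd K} (An : AnCurve X)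

/-- The specialization of a polynomial over the function field at a point of a coordinate disc. -/
def spec (P : X.Pt) (σ : ℂ) (f : MvPolynomial (Fin 4) K) : MvPolynomial (Fin 4) ℂ :=
  ∑ e ∈ f.support, monomial e (An.fn P (f.coeff e) σ)

variable {An} {P : X.Pt} {s : ℂ}

theorem coeff_spec' (σ : ℂ) (f : MvPolynomial (Fin 4) K) (e : Fin 4 →₀ ℕ)
    (h : An.fn P 0 σ = 0) : (spec An P σ f).coeff e = An.fn P (f.coeff e) σ := by
  classical
  unfold spec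
  rw [coeff_sum]
  simp only [coeff_monomial]
  rw [Finset.sum_ite_eq' f.support e fun e => An.fn P (f.coeff e) σ]
  split_ifs with h1
  · rfl
  · rw [notMem_support_iff.1 h1, h]

theorem eventually_fn_zero (hs : s ∈ ball 0 (An.r P)) : ∀ᶠ σ in 𝓝[≠] s, An.fn P 0 σ = 0 := by
  filter_upwards [AnCurve.fn_zero An P hs] with σ h
  exact h

theorem coeff_spec (hs : s ∈ ball 0 (An.r P)) (f : MvPolynomial (Fin 4) K) :
    ∀ᶠ σ in 𝓝[≠] s, ∀ e, (spec An P σ f).coeff e = An.fn P (f.coeff e) σ := by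
  filter_upwards [eventually_fn_zero hs] with σ h e
  exact coeff_spec' σ f e h

theorem spec_zero (σ : ℂ) : spec An P σ 0 = 0 := by
  unfold spec
  simp

theorem spec_monomial (hs : s ∈ ball 0 (An.r P)) (e : Fin 4 →₀ ℕ) (c : K) :
    ∀ᶠ σ in 𝓝[≠] s, spec An P σ (monomial e c) = monomial e (An.fn P c σ) := by
  filter_upwards [eventually_fn_zero hs] with σ h
  apply MvPolynomial.ext
  intro e'
  rw [coeff_spec' σ _ e' h, coeff_monomial, coeff_monomial]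
  split_ifs with h1
  · rfl
  · exact h

theorem spec_add (hs : s ∈ ball 0 (An.r P)) (f g : MvPolynomial (Fin 4) K) :
    ∀ᶠ σ in 𝓝[≠] s, spec An P σ (f + g) = spec An P σ f + spec An P σ g := by
  classical
  have h1 : ∀ᶠ σ in 𝓝[≠] s, ∀ e ∈ f.support ∪ g.support,
      An.fn P (f.coeff e + g.coeff e) σ = An.fn P (f.coeff e) σ + An.fn P (g.coeff e) σ :=
    (eventually_all_finset _).2 fun e _ => An.fn_add P (f.coeff e) (g.coeff e) s hs
  filter_upwards [eventually_fn_zero hs, h1] with σ h h1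
  apply MvPolynomial.ext
  intro e
  rw [coeff_add, coeff_spec' σ _ e h, coeff_spec' σ _ e h, coeff_spec' σ _ e h, coeff_add]
  by_cases he : e ∈ f.support ∪ g.support
  · exact h1 e he
  · rw [Finset.mem_union, not_or] at he
    rw [notMem_support_iff.1 he.1, notMem_support_iff.1 he.2, add_zero, h, add_zero]

theorem spec_sum (hs : s ∈ ball 0 (An.r P)) {ι : Type*} (I : Finset ι)
    (f : ι → MvPolynomial (Fin 4) K) :
    ∀ᶠ σ in 𝓝[≠] s, spec An P σ (∑ i ∈ I, f i) = ∑ i ∈ I, spec An P σ (f i) := by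
  classical
  induction I using Finset.induction_on with
  | empty => exact Eventually.of_forall fun σ => by simp [spec_zero]
  | insert i I hi ih =>
    filter_upwards [ih, spec_add hs (f i) (∑ i ∈ I, f i)] with σ h1 h2
    rw [Finset.sum_insert hi, Finset.sum_insert hi, h2, h1]

theorem spec_mul (hs : s ∈ ball 0 (An.r P)) (f g : MvPolynomial (Fin 4) K) :
    ∀ᶠ σ in 𝓝[≠] s, spec An P σ (f * g) = spec An P σ f * spec An P σ g := by
  induction f using MvPolynomial.induction_on' with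
  | monomial a c =>
    induction g using MvPolynomial.induction_on' with
    | monomial b d =>
      rw [monomial_mul]
      filter_upwards [spec_monomial hs a c, spec_monomial hs b d, spec_monomial hs (a + b) (c * d),
        An.fn_mul P c d s hs] with σ h1 h2 h3 h4
      rw [h1, h2, h3, monomial_mul, h4]
      rfl
    | add p q hp hq =>
      rw [mul_add]
      filter_upwards [hp, hq, spec_add hs p q,
        spec_add hs (monomial a c * p) (monomial a c * q)] with σ h1 h2 h3 h4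
      rw [h3, h4, h1, h2, mul_add]
  | add p q hp hq =>
    rw [add_mul]
    filter_upwards [hp, hq, spec_add hs p q, spec_add hs (p * g) (q * g)] with σ h1 h2 h3 h4
    rw [h3, h4, h1, h2, add_mul]

theorem spec_C (hs : s ∈ ball 0 (An.r P)) (c : ℂ) :
    ∀ᶠ σ in 𝓝[≠] s, spec An P σ (C (algebraMap ℂ K c)) = C c := by
  filter_upwards [spec_monomial hs 0 (algebraMap ℂ K c), An.fn_const P c s hs] with σ h1 h2
  rw [C_apply, h1, h2, C_apply]

theorem spec_smul (hs : s ∈ ball 0 (An.r P)) (c : ℂ) (f : MvPolynomial (Fin 4) K) :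
    ∀ᶠ σ in 𝓝[≠] s, spec An P σ (c • f) = c • spec An P σ f := by
  have h : c • f = C (algebraMap ℂ K c) * f := by
    rw [C_mul', algebraMap_smul]
  rw [h]
  filter_upwards [spec_mul hs (C (algebraMap ℂ K c)) f, spec_C hs c] with σ h1 h2
  rw [h1, h2, C_mul']

theorem spec_X (hs : s ∈ ball 0 (An.r P)) (i : Fin 4) :
    ∀ᶠ σ in 𝓝[≠] s, spec An P σ (MvPolynomial.X i) = MvPolynomial.X i := by
  filter_upwards [spec_monomial hs (Finsupp.single i 1) 1, An.fn_const P 1 s hs] with σ h1 h2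
  rw [MvPolynomial.X, h1, ← map_one (algebraMap ℂ K), h2]
  rfl

end spec

/-- the homogeneous coordinates -/
def pv (u : ℂˣ) (x x' : V2) : Fin 4 → ℂ :=
  ![u * x.1 0, u * x.1 1, ((u⁻¹ : ℂˣ) : ℂ) * x'.1 0, ((u⁻¹ : ℂˣ) : ℂ) * x'.1 1]

section

variable {K : Type} [Field K] [Algebra ℂ K] {T : Datum K} {q : ℕ} {D₀ : T.X.Pt →₀ ℤ}
  {An : AnCurve T.X.toCurveOrd} {Sg : SigModel T q D₀ An}
  (X : TwoP1 Sg.A Sg.D (25 * (q : ℤ)) 3 (25 * (q : ℤ)) (-3))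

/-- a function on `X` on the open orbit of the fibre over the point of the disc at `P` with
coordinate `s` -/
def Psi (F : P1Y X.D₁ (25 * (q : ℤ)) (-3) → ℂ) (P : T.X.Pt) (s : ℂ) (w : ℂˣ) (x x' : V2) : ℂ :=
  F (P1Y.mk (P1Y.mk (Sg.o P s w) x) x')

/-- `F` is given by the polynomial `f`. -/
def Rep (N : ℕ) (F : P1Y X.D₁ (25 * (q : ℤ)) (-3) → ℂ) (f : MvPolynomial (Fin 4) K) : Prop :=
  ∀ P, ∀ s ∈ ball 0 (Sg.r P), ∀ᶠ σ in 𝓝[≠] s, ∀ (u : ℂˣ) (x x' : V2),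
    Psi X F P σ (u ^ 6) x x' = σ ^ (N * D₀ P) * eval (pv u x x') (spec An P σ f)

variable {X} {N N' : ℕ} {F F' : P1Y X.D₁ (25 * (q : ℤ)) (-3) → ℂ} {f f' : MvPolynomial (Fin 4) K}

theorem ball_mono {P : T.X.Pt} {s : ℂ} (hs : s ∈ ball 0 (Sg.r P)) : s ∈ ball 0 (An.r P) :=
  ball_subset_ball (Sg.r_le P) hs

theorem eventually_ne_zero' {s : ℂ} : ∀ᶠ σ in 𝓝[≠] s, σ ≠ 0 := by
  by_cases h : s = 0
  · subst h
    exact self_mem_nhdsWithin
  · exact nhdsWithin_le_nhds (isOpen_ne.mem_nhds h)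

theorem Rep.add (h : Rep X N F f) (h' : Rep X N F' f') : Rep X N (F + F') (f + f') := by
  intro P s hs
  filter_upwards [h P s hs, h' P s hs, spec_add (ball_mono hs) f f'] with σ h1 h2 h3 u x x'
  have e : Psi X (F + F') P σ (u ^ 6) x x' = Psi X F P σ (u ^ 6) x x' + Psi X F' P σ (u ^ 6) x x' :=
    rfl
  rw [e, h1, h2, h3, map_add, mul_add]

theorem Rep.smul (c : ℂ) (h : Rep X N F f) : Rep X N (c • F) (c • f) := by
  intro P s hs
  filter_upwards [h P s hs, spec_smul (ball_mono hs) c f] with σ h1 h3 u x x'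
  have e : Psi X (c • F) P σ (u ^ 6) x x' = c * Psi X F P σ (u ^ 6) x x' := rfl
  rw [e, h1, h3, smul_eval]
  ring

theorem Rep.mul (h : Rep X N F f) (h' : Rep X N' F' f') : Rep X (N + N') (F * F') (f * f') := by
  intro P s hs
  filter_upwards [h P s hs, h' P s hs, spec_mul (ball_mono hs) f f',
    eventually_ne_zero'] with σ h1 h2 h3 h4 u x x'
  have e : Psi X (F * F') P σ (u ^ 6) x x' = Psi X F P σ (u ^ 6) x x' * Psi X F' P σ (u ^ 6) x x' :=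
    rfl
  rw [e, h1, h2, h3, map_mul, Nat.cast_add, add_mul, zpow_add₀ h4]
  ring

theorem Rep.zero : Rep X N 0 0 := by
  intro P s hs
  refine Eventually.of_forall fun σ u x x' => ?_
  rw [spec_zero, map_zero, mul_zero]
  rfl

theorem Rep.one : Rep X 0 1 1 := by
  intro P s hs
  filter_upwards [spec_C (ball_mono hs) (1 : ℂ)] with σ h1 u x x'
  rw [map_one, C_1, C_1] at h1
  rw [h1, map_one, Nat.cast_zero, zero_mul, zpow_zero, mul_one]
  rfl

end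

end

end Pool.Agent.YTDA


end

/- source: Pool.Agent.YTDA.SecSurj -/

section

/-!
# Every section of a power of `L` on `X` is given by a polynomial over the function field
-/

set_option autoImplicit false

namespace Pool.Agent.YTDA

open Complex Set Topology Filter Metric MvPolynomial
open Pool.Agent.YTD

noncomputable section

/-- a function on the points, meromorphic at the centres of the discs -/
theorem AnCurve.merFam_of_fun {K : Type} [Field K] [Algebra ℂ K] {X : CurveOrd K} {An : AnCurve X}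
    {G : X.Pt → ℂ} (h : ∀ P, MeromorphicAt (fun s => G (An.c P s)) 0) :
    An.MerFam fun P s => G (An.c P s) where
  mero P s hs := by
    obtain ⟨f, hf, hfs, hf', hfc, -⟩ := An.tr P (An.c P s) s hs 0 (AnCurve.mem_ball_zero _)
      (An.c_zero _).symm
    have h1 : MeromorphicAt (fun s' => G (An.c (An.c P s) s')) (f s) := by
      rw [hfs]; exact h _
    refine (h1.comp_analyticAt hf).congr ?_
    refine (hfc.filter_mono nhdsWithin_le_nhds).mono fun σ h2 => ?_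
    show G (An.c (An.c P s) (f σ)) = _
    rw [h2]
  tr P Q s hs s' hs' hc f hf hfs hf' hfc := by
    refine (hfc.filter_mono nhdsWithin_le_nhds).mono fun σ h2 => ?_
    show G (An.c Q (f σ)) = _
    rw [h2]

theorem diff_vec4 {f0 f1 f2 f3 : ℂ → ℂ} {S : Set ℂ} (h0 : DifferentiableOn ℂ f0 S)
    (h1 : DifferentiableOn ℂ f1 S) (h2 : DifferentiableOn ℂ f2 S) (h3 : DifferentiableOn ℂ f3 S) :
    DifferentiableOn ℂ (fun z => (![f0 z, f1 z, f2 z, f3 z] : E 4)) S := by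
  rw [differentiableOn_pi]
  intro i
  fin_cases i
  · exact h0
  · exact h1
  · exact h2
  · exact h3

theorem val5 (w : ℂˣ) (q N : ℕ) :
    (((w ^ (5 * (q : ℤ)) : ℂˣ) : ℂ)) ^ N = (w : ℂ) ^ (5 * q * N) := by
  have : (5 * (q : ℤ)) = ((5 * q : ℕ) : ℤ) := by push_cast; rfl
  rw [this, zpow_natCast, Units.val_pow_eq_pow_val, ← pow_mul]

theorem val25 (w : ℂˣ) (q N : ℕ) :
    (((w ^ (25 * (q : ℤ)) : ℂˣ) : ℂ)) ^ N = (w : ℂ) ^ (25 * q * N) := by
  have : (25 * (q : ℤ)) = ((25 * q : ℕ) : ℤ) := by push_cast; rfl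
  rw [this, zpow_natCast, Units.val_pow_eq_pow_val, ← pow_mul]

theorem val51 (w s : ℂˣ) (q N : ℕ) :
    (s : ℂ) ^ (q * N) * (((w ^ (5 * (q : ℤ)) * s ^ (-(q : ℤ)) : ℂˣ) : ℂ)) ^ N =
      (w : ℂ) ^ (5 * q * N) := by
  have hs : (s : ℂ) ^ (q * N) ≠ 0 := pow_ne_zero _ s.ne_zero
  rw [Units.val_mul, mul_pow, val5, zpow_neg, zpow_natCast, Units.val_inv_eq_inv_val,
    Units.val_pow_eq_pow_val, inv_pow, ← pow_mul]
  field_simp

section

variable {K : Type} [Field K] [Algebra ℂ K] {T : Datum K} {q : ℕ} {D₀ : T.X.Pt →₀ ℤ}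
  {An : AnCurve T.X.toCurveOrd} {Sg : SigModel T q D₀ An}
  {X : TwoP1 Sg.A Sg.D (25 * (q : ℤ)) 3 (25 * (q : ℤ)) (-3)}
  {N : ℕ} {F : P1Y X.D₁ (25 * (q : ℤ)) (-3) → ℂ}

theorem hol_pt (hF : X.B₂.IsSec N F) (a : Sg.A.ι) (b₁ b₂ : Bool) :
    DifferentiableOn ℂ (fun z : E 4 => F (X.pt a b₁ b₂ z)) {z | ![z 0, z 1] ∈ Sg.A.U a} := by
  intro z hz
  have h1 : z ∈ X.B₂.U (X.i a b₁ b₂) := X.mem_U.2 hz
  have h2 := (hF.hol (X.i a b₁ b₂)) z h1
  have h3 : X.B₂.U (X.i a b₁ b₂) = {z | ![z 0, z 1] ∈ Sg.A.U a} := by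
    ext z
    exact X.mem_U
  rw [← h3]
  exact h2.congr (fun w hw => by rw [X.γ_eq (X.mem_U.1 hw)]) (by rw [X.γ_eq hz])

theorem F_smul (hF : X.B₂.IsSec N F) (c : ℂˣ) (y : Sg.Y) (x x' : V2) :
    F (P1Y.mk (P1Y.mk (c • y) x) x') = (c : ℂ) ^ N * F (P1Y.mk (P1Y.mk y x) x') :=
  hF.hom c (P1Y.mk (P1Y.mk y x) x')

theorem F_bot (hF : X.B₂.IsSec N F) {P : T.X.Pt} (hP : P ∉ T.S') {s : ℂ}
    (hs : s ∈ ball 0 (Sg.r P)) (hs' : s ≠ 0 ∨ P ∉ T.S) (w : ℂˣ) (b₁ b₂ : Bool) (z₁ z₂ : ℂ) :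
    F (X.pt (Sg.e (P, 0)) b₁ b₂ ![s, w, z₁, z₂]) =
      (w : ℂ) ^ (5 * q * N) * Psi X F P s w (vec b₁ z₁) (vec b₂ z₂) := by
  show F (P1Y.mk (P1Y.mk (Sg.A.γ (Sg.e (P, 0)) ![s, (w : ℂ)]) (vec b₁ z₁)) (vec b₂ z₂)) = _
  rw [Sg.γ_bot P hP s hs hs' w, F_smul hF, val5]
  rfl

theorem F_bot' (hF : X.B₂.IsSec N F) {P : T.X.Pt} (hP : P ∈ T.S') {s : ℂˣ}
    (hs : (s : ℂ) ∈ ball 0 (Sg.r P)) (b : ℂˣ) (b₁ b₂ : Bool) (z₁ z₂ : ℂ) :
    (s : ℂ) ^ (q * N) * F (X.pt (Sg.e (P, 0)) b₁ b₂ ![s, b, z₁, z₂]) =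
      ((s * b : ℂˣ) : ℂ) ^ (5 * q * N) * Psi X F P s (s * b) (vec b₁ z₁) (vec b₂ z₂) := by
  show (s : ℂ) ^ (q * N) *
    F (P1Y.mk (P1Y.mk (Sg.A.γ (Sg.e (P, 0)) ![(s : ℂ), (b : ℂ)]) (vec b₁ z₁)) (vec b₂ z₂)) = _
  rw [Sg.γ_bot' P hP s (by simpa using hs) b, F_smul hF, ← mul_assoc, val51]
  rfl

theorem F_top (hF : X.B₂.IsSec N F) {P : T.X.Pt} (hP : P ∉ T.S) {s : ℂ}
    (hs : s ∈ ball 0 (Sg.r P)) (hs' : s ≠ 0 ∨ P ∉ T.S') (z : ℂˣ) (b₁ b₂ : Bool) (z₁ z₂ : ℂ) :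
    F (X.pt (Sg.e (P, 1)) b₁ b₂ ![s, z, z₁, z₂]) =
      (z : ℂ) ^ (5 * q * N) * Psi X F P s z⁻¹ (vec b₁ z₁) (vec b₂ z₂) := by
  show F (P1Y.mk (P1Y.mk (Sg.A.γ (Sg.e (P, 1)) ![s, (z : ℂ)]) (vec b₁ z₁)) (vec b₂ z₂)) = _
  rw [Sg.γ_top P hP s hs hs' z, F_smul hF, val5]
  rfl

theorem F_top' (hF : X.B₂.IsSec N F) {P : T.X.Pt} (hP : P ∈ T.S) {s : ℂˣ}
    (hs : (s : ℂ) ∈ ball 0 (Sg.r P)) (a : ℂˣ) (b₁ b₂ : Bool) (z₁ z₂ : ℂ) :
    (s : ℂ) ^ (q * N) * F (X.pt (Sg.e (P, 1)) b₁ b₂ ![s, a, z₁, z₂]) =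
      ((s * a : ℂˣ) : ℂ) ^ (5 * q * N) * Psi X F P s (s * a)⁻¹ (vec b₁ z₁) (vec b₂ z₂) := by
  show (s : ℂ) ^ (q * N) *
    F (P1Y.mk (P1Y.mk (Sg.A.γ (Sg.e (P, 1)) ![(s : ℂ), (a : ℂ)]) (vec b₁ z₁)) (vec b₂ z₂)) = _
  rw [Sg.γ_top' P hP s (by simpa using hs) a, F_smul hF, ← mul_assoc, val51]
  rfl

theorem mem_bot {P : T.X.Pt} {s : ℂ} (hs : s ∈ ball 0 (Sg.r P)) (b : ℂ) :
    ![s, b] ∈ Sg.A.U (Sg.e (P, 0)) := by
  rw [Sg.U_bot]
  simpa using hs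

theorem mem_top {P : T.X.Pt} {s : ℂ} (hs : s ∈ ball 0 (Sg.r P)) (b : ℂ) :
    ![s, b] ∈ Sg.A.U (Sg.e (P, 1)) := by
  rw [Sg.U_top]
  simpa using hs

/-- the fibre in the bottom chart -/
theorem exists_bot (hF : X.B₂.IsSec N F) {P : T.X.Pt} {s : ℂ} (hs : s ∈ ball 0 (Sg.r P))
    (hok : Ok T P s) : ∃ κ t : ℂ, ∀ (w : ℂˣ) b₁ b₂ z₁ z₂,
      (w : ℂ) ^ (5 * q * N) * Psi X F P s w (vec b₁ z₁) (vec b₂ z₂) =
        κ * F (X.pt (Sg.e (P, 0)) b₁ b₂ ![s, t * w, z₁, z₂]) := by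
  by_cases hP : P ∈ T.S'
  · have hs0 : s ≠ 0 := by
      rcases hok with h | h
      · exact h
      · exact absurd hP h.2
    obtain ⟨s, rfl⟩ : ∃ s' : ℂˣ, (s' : ℂ) = s := ⟨Units.mk0 s hs0, rfl⟩
    refine ⟨(s : ℂ) ^ (q * N), (s⁻¹ : ℂˣ), fun w b₁ b₂ z₁ z₂ => ?_⟩
    have := F_bot' hF hP hs (s⁻¹ * w) b₁ b₂ z₁ z₂
    rw [mul_inv_cancel_left, Units.val_mul] at this
    rw [this]
  · refine ⟨1, 1, fun w b₁ b₂ z₁ z₂ => ?_⟩
    rw [one_mul, one_mul]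
    refine (F_bot hF hP hs ?_ w b₁ b₂ z₁ z₂).symm
    rcases hok with h | h
    · exact Or.inl h
    · exact Or.inr h.1

/-- the fibre in the top chart -/
theorem exists_top (hF : X.B₂.IsSec N F) {P : T.X.Pt} {s : ℂ} (hs : s ∈ ball 0 (Sg.r P))
    (hok : Ok T P s) : ∃ κ t : ℂ, ∀ (w : ℂˣ) b₁ b₂ z₁ z₂,
      (w : ℂ) ^ (5 * q * N) * Psi X F P s w⁻¹ (vec b₁ z₁) (vec b₂ z₂) =
        κ * F (X.pt (Sg.e (P, 1)) b₁ b₂ ![s, t * w, z₁, z₂]) := by
  by_cases hP : P ∈ T.S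
  · have hs0 : s ≠ 0 := by
      rcases hok with h | h
      · exact h
      · exact absurd hP h.1
    obtain ⟨s, rfl⟩ : ∃ s' : ℂˣ, (s' : ℂ) = s := ⟨Units.mk0 s hs0, rfl⟩
    refine ⟨(s : ℂ) ^ (q * N), (s⁻¹ : ℂˣ), fun w b₁ b₂ z₁ z₂ => ?_⟩
    have := F_top' hF hP hs (s⁻¹ * w) b₁ b₂ z₁ z₂
    rw [mul_inv_cancel_left, Units.val_mul] at this
    rw [this]
  · refine ⟨1, 1, fun w b₁ b₂ z₁ z₂ => ?_⟩
    rw [one_mul, one_mul]
    refine (F_top hF hP hs ?_ w b₁ b₂ z₁ z₂).symm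
    rcases hok with h | h
    · exact Or.inl h
    · exact Or.inr h.2

/-- The restriction of a section to a fibre. -/
theorem tf (hF : X.B₂.IsSec N F) {P : T.X.Pt} {s : ℂ} (hs : s ∈ ball 0 (Sg.r P))
    (hok : Ok T P s) : TF (5 * q * N) (25 * q * N) (Psi X F P s) where
  h1 c w x x' := by
    show F (P1Y.mk (P1Y.mk (Sg.o P s w) (c • x)) x') = _
    rw [P1Y.mk_smul, F_smul hF, val25, Sg.act_o P s hs hok]
    rfl
  h2 c w x x' := by
    show F (P1Y.mk (P1Y.mk (Sg.o P s w) x) (c • x')) = _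
    rw [P1Y.mk_smul, X.l₁.act, P1Y.smul_mk, F_smul hF, val25, Sg.act_o P s hs hok]
    rfl
  bot b₁ b₂ z₁ z₂ := by
    obtain ⟨κ, t, h⟩ := exists_bot hF hs hok
    refine ⟨fun w => κ * F (X.pt (Sg.e (P, 0)) b₁ b₂ ![s, t * w, z₁, z₂]), ?_,
      fun w => (h w b₁ b₂ z₁ z₂).symm⟩
    rw [← differentiableOn_univ]
    apply DifferentiableOn.const_mul
    exact (hol_pt hF (Sg.e (P, 0)) b₁ b₂).comp
      (diff_vec4 (by fun_prop) (by fun_prop) (by fun_prop) (by fun_prop))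
      (fun z _ => mem_bot hs _)
  top b₁ b₂ z₁ z₂ := by
    obtain ⟨κ, t, h⟩ := exists_top hF hs hok
    refine ⟨fun w => κ * F (X.pt (Sg.e (P, 1)) b₁ b₂ ![s, t * w, z₁, z₂]), ?_,
      fun w => (h w b₁ b₂ z₁ z₂).symm⟩
    rw [← differentiableOn_univ]
    apply DifferentiableOn.const_mul
    exact (hol_pt hF (Sg.e (P, 1)) b₁ b₂).comp
      (diff_vec4 (by fun_prop) (by fun_prop) (by fun_prop) (by fun_prop))
      (fun z _ => mem_top hs _)
  d1 w b₁ b₂ z₂ := by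
    obtain ⟨κ, t, h⟩ := exists_bot hF hs hok
    have hw : (w : ℂ) ^ (5 * q * N) ≠ 0 := pow_ne_zero _ w.ne_zero
    have e : (fun z₁ => Psi X F P s w (vec b₁ z₁) (vec b₂ z₂)) = fun z₁ =>
        ((w : ℂ) ^ (5 * q * N))⁻¹ * (κ * F (X.pt (Sg.e (P, 0)) b₁ b₂ ![s, t * w, z₁, z₂])) := by
      funext z₁
      rw [← h, inv_mul_cancel_left₀ hw]
    rw [e, ← differentiableOn_univ]
    apply DifferentiableOn.const_mul
    apply DifferentiableOn.const_mul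
    exact (hol_pt hF (Sg.e (P, 0)) b₁ b₂).comp
      (diff_vec4 (by fun_prop) (by fun_prop) (by fun_prop) (by fun_prop))
      (fun z _ => mem_bot hs _)
  d2 w b₁ b₂ z₁ := by
    obtain ⟨κ, t, h⟩ := exists_bot hF hs hok
    have hw : (w : ℂ) ^ (5 * q * N) ≠ 0 := pow_ne_zero _ w.ne_zero
    have e : (fun z₂ => Psi X F P s w (vec b₁ z₁) (vec b₂ z₂)) = fun z₂ =>
        ((w : ℂ) ^ (5 * q * N))⁻¹ * (κ * F (X.pt (Sg.e (P, 0)) b₁ b₂ ![s, t * w, z₁, z₂])) := by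
      funext z₁
      rw [← h, inv_mul_cancel_left₀ hw]
    rw [e, ← differentiableOn_univ]
    apply DifferentiableOn.const_mul
    apply DifferentiableOn.const_mul
    exact (hol_pt hF (Sg.e (P, 0)) b₁ b₂).comp
      (diff_vec4 (by fun_prop) (by fun_prop) (by fun_prop) (by fun_prop))
      (fun z _ => mem_bot hs _)

/-! ### Dependence on the point of the curve -/

theorem TF.expand_winv {m α L : ℕ} {Ψ : ℂˣ → V2 → V2 → ℂ} (h : TF m α Ψ) (hL : 2 * m ≤ L)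
    (x x' : V2) (v : ℂˣ) : (v : ℂ) ^ m * Ψ v⁻¹ x x' =
      ∑ l ∈ Finset.range (2 * m + 1), BB L m Ψ (2 * m - l) x x' * (v : ℂ) ^ l := by
  have h1 := h.expand_w hL x x' v⁻¹
  have h2 : (v : ℂ) ^ (2 * m) * (((v⁻¹ : ℂˣ) : ℂ) ^ m * Ψ v⁻¹ x x') = (v : ℂ) ^ m * Ψ v⁻¹ x x' := by
    have : (v : ℂ) ^ m * ((v⁻¹ : ℂˣ) : ℂ) ^ m = 1 := by
      rw [← mul_pow, Units.mul_inv, one_pow]
    rw [two_mul, pow_add]
    linear_combination (v : ℂ) ^ m * Ψ v⁻¹ x x' * this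
  rw [← h2, h1, ← Finset.sum_range_reflect, Finset.mul_sum]
  apply Finset.sum_congr rfl
  intro l hl
  have hl' : l ≤ 2 * m := Nat.lt_succ_iff.1 (Finset.mem_range.1 hl)
  have e1 : 2 * m + 1 - 1 - l = 2 * m - l := by omega
  rw [e1]
  have e2 : (v : ℂ) ^ (2 * m) * ((v⁻¹ : ℂˣ) : ℂ) ^ (2 * m - l) = (v : ℂ) ^ l := by
    have e3 : (v : ℂ) ^ (2 * m) = (v : ℂ) ^ l * (v : ℂ) ^ (2 * m - l) := by
      rw [← pow_add]
      congr 1
      omega
    rw [e3, mul_assoc, ← mul_pow, Units.mul_inv, one_pow, mul_one]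
  linear_combination BB L m Ψ (2 * m - l) x x' * e2

/-- the coefficient functional -/
def Lam (L k e e' : ℕ) (Φ : ℂ → ℂ → ℂ → ℂ) : ℂ :=
  cf L e' fun z₂ => cf L e fun z₁ => cf L k fun w => Φ w z₁ z₂

theorem DD_eq_Lam (L m k e e' : ℕ) (Ψ : ℂˣ → V2 → V2 → ℂ) : DD L m Ψ k e e' =
    Lam L k e e' fun w z₁ z₂ => w ^ m * Ψ (uu w) (vec false z₁) (vec false z₂) := rfl

theorem Lam_congr {L k e e' : ℕ} {Φ Φ' : ℂ → ℂ → ℂ → ℂ}
    (h : ∀ i i' i'' : Fin (L + 1), Φ (nd i) (nd i') (nd i'') = Φ' (nd i) (nd i') (nd i'')) :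
    Lam L k e e' Φ = Lam L k e e' Φ' :=
  cf_congr fun i'' => cf_congr fun i' => cf_congr fun i => h i i' i''

theorem Lam_diff {L k e e' : ℕ} {Φ : ℂ → ℂ → ℂ → ℂ → ℂ} {S : Set ℂ}
    (h : ∀ i i' i'' : Fin (L + 1), DifferentiableOn ℂ (fun s => Φ s (nd i) (nd i') (nd i'')) S) :
    DifferentiableOn ℂ (fun s => Lam L k e e' (Φ s)) S := by
  unfold Lam cf
  apply DifferentiableOn.fun_sum
  intro i'' _
  apply DifferentiableOn.const_mul
  apply DifferentiableOn.fun_sum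
  intro i' _
  apply DifferentiableOn.const_mul
  apply DifferentiableOn.fun_sum
  intro i _
  exact (h i i' i'').const_mul _

theorem hol_bot (hF : X.B₂.IsSec N F) (P : T.X.Pt) (b₁ b₂ : Bool) (w z₁ z₂ : ℂ) :
    DifferentiableOn ℂ (fun s => F (X.pt (Sg.e (P, 0)) b₁ b₂ ![s, w, z₁, z₂]))
      (ball 0 (Sg.r P)) :=
  (hol_pt hF (Sg.e (P, 0)) b₁ b₂).comp
    (diff_vec4 (by fun_prop) (by fun_prop) (by fun_prop) (by fun_prop)) fun _ hs => mem_bot hs _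

theorem hol_top (hF : X.B₂.IsSec N F) (P : T.X.Pt) (b₁ b₂ : Bool) (w z₁ z₂ : ℂ) :
    DifferentiableOn ℂ (fun s => F (X.pt (Sg.e (P, 1)) b₁ b₂ ![s, w, z₁, z₂]))
      (ball 0 (Sg.r P)) :=
  (hol_pt hF (Sg.e (P, 1)) b₁ b₂).comp
    (diff_vec4 (by fun_prop) (by fun_prop) (by fun_prop) (by fun_prop)) fun _ hs => mem_top hs _

/-- the coefficients are holomorphic -/
theorem exists_hol (hF : X.B₂.IsSec N F) (P : T.X.Pt) (L k e e' : ℕ) :
    ∃ g : ℂ → ℂ, DifferentiableOn ℂ g (ball 0 (Sg.r P)) ∧ ∀ s ∈ ball 0 (Sg.r P), s ≠ 0 →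
      DD L (5 * q * N) (Psi X F P s) k e e' = g s := by
  by_cases hP : P ∈ T.S'
  · have hP' : P ∉ T.S := fun h => Finset.disjoint_left.1 T.disj h hP
    refine ⟨fun s => Lam L k e e' fun w z₁ z₂ => w ^ (5 * q * N) * (w ^ (5 * q * N) *
      F (X.pt (Sg.e (P, 1)) false false ![s, w⁻¹, z₁, z₂])), Lam_diff fun i i' i'' =>
        ((hol_top hF P false false _ _ _).const_mul _).const_mul _, fun s hs hs0 => ?_⟩
    rw [DD_eq_Lam]
    apply Lam_congr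
    intro i i' i''
    have h1 := F_top hF hP' hs (Or.inl hs0) (uu (nd i))⁻¹ false false (nd i') (nd i'')
    rw [inv_inv, Units.val_inv_eq_inv_val, uu_val (nd_ne_zero i)] at h1
    rw [h1]
    have h2 : (nd i) ^ (5 * q * N) * ((nd i)⁻¹) ^ (5 * q * N) = 1 := by
      rw [← mul_pow, mul_inv_cancel₀ (nd_ne_zero i), one_pow]
    linear_combination (-(nd i) ^ (5 * q * N) *
      Psi X F P s (uu (nd i)) (vec false (nd i')) (vec false (nd i''))) * h2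
  · refine ⟨fun s => Lam L k e e' fun w z₁ z₂ =>
      F (X.pt (Sg.e (P, 0)) false false ![s, w, z₁, z₂]), Lam_diff fun i i' i'' =>
        hol_bot hF P false false _ _ _, fun s hs hs0 => ?_⟩
    rw [DD_eq_Lam]
    apply Lam_congr
    intro i i' i''
    have h1 := F_bot hF hP hs (Or.inl hs0) (uu (nd i)) false false (nd i') (nd i'')
    rw [uu_val (nd_ne_zero i)] at h1
    rw [h1]

theorem exists_hol_S' (hF : X.B₂.IsSec N F) {P : T.X.Pt} (hP : P ∈ T.S') {L k : ℕ}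
    (hL : 2 * (5 * q * N) ≤ L) (hk : k ≤ 2 * (5 * q * N)) (e e' : ℕ) :
    ∃ g : ℂ → ℂ, DifferentiableOn ℂ g (ball 0 (Sg.r P)) ∧ ∀ s ∈ ball 0 (Sg.r P), s ≠ 0 →
      s ^ k * DD L (5 * q * N) (Psi X F P s) k e e' = s ^ (q * N) * g s := by
  refine ⟨fun s => Lam L k e e' fun b z₁ z₂ =>
      F (X.pt (Sg.e (P, 0)) false false ![s, b, z₁, z₂]), Lam_diff fun i i' i'' =>
        hol_bot hF P false false _ _ _, fun s hs hs0 => ?_⟩
  unfold Lam DD CC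
  rw [← cf_mul_left, ← cf_mul_left]
  apply cf_congr
  intro i''
  rw [← cf_mul_left, ← cf_mul_left]
  apply cf_congr
  intro i'
  rw [← cf_mul_left]
  have ht := tf hF hs (Or.inl hs0)
  refine Eq.symm ((cf_congr (H' := fun b => ∑ l ∈ Finset.range (2 * (5 * q * N) + 1),
    (s ^ l * BB L (5 * q * N) (Psi X F P s) l (vec false (nd i')) (vec false (nd i''))) * b ^ l)
    ?_).trans ?_)
  · intro i
    have h1 := F_bot' hF hP (s := Units.mk0 s hs0) hs (uu (nd i)) false false (nd i') (nd i'')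
    rw [Units.val_mk0, uu_val (nd_ne_zero i)] at h1
    rw [h1, ht.expand_w hL]
    apply Finset.sum_congr rfl
    intro l _
    rw [Units.val_mul, Units.val_mk0, uu_val (nd_ne_zero i), mul_pow]
    ring
  · rw [cf_poly_le hL (hk.trans hL) (fun l =>
      s ^ l * BB L (5 * q * N) (Psi X F P s) l (vec false (nd i')) (vec false (nd i''))), if_pos hk]

theorem exists_hol_S (hF : X.B₂.IsSec N F) {P : T.X.Pt} (hP : P ∈ T.S) {L k : ℕ}
    (hL : 2 * (5 * q * N) ≤ L) (hk : k ≤ 2 * (5 * q * N)) (e e' : ℕ) :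
    ∃ g : ℂ → ℂ, DifferentiableOn ℂ g (ball 0 (Sg.r P)) ∧ ∀ s ∈ ball 0 (Sg.r P), s ≠ 0 →
      s ^ (2 * (5 * q * N) - k) * DD L (5 * q * N) (Psi X F P s) k e e' =
        s ^ (q * N) * g s := by
  refine ⟨fun s => Lam L (2 * (5 * q * N) - k) e e' fun b z₁ z₂ =>
      F (X.pt (Sg.e (P, 1)) false false ![s, b, z₁, z₂]), Lam_diff fun i i' i'' =>
        hol_top hF P false false _ _ _, fun s hs hs0 => ?_⟩
  unfold Lam DD CC
  rw [← cf_mul_left, ← cf_mul_left]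
  apply cf_congr
  intro i''
  rw [← cf_mul_left, ← cf_mul_left]
  apply cf_congr
  intro i'
  rw [← cf_mul_left]
  have ht := tf hF hs (Or.inl hs0)
  refine Eq.symm ((cf_congr (H' := fun b => ∑ l ∈ Finset.range (2 * (5 * q * N) + 1),
    (s ^ l * BB L (5 * q * N) (Psi X F P s) (2 * (5 * q * N) - l) (vec false (nd i'))
      (vec false (nd i''))) * b ^ l) ?_).trans ?_)
  · intro i
    have h1 := F_top' hF hP (s := Units.mk0 s hs0) hs (uu (nd i)) false false (nd i') (nd i'')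
    rw [Units.val_mk0, uu_val (nd_ne_zero i)] at h1
    rw [h1, ht.expand_winv hL]
    apply Finset.sum_congr rfl
    intro l _
    rw [Units.val_mul, Units.val_mk0, uu_val (nd_ne_zero i), mul_pow]
    ring
  · rw [cf_poly_le hL (by omega) (fun l =>
      s ^ l * BB L (5 * q * N) (Psi X F P s) (2 * (5 * q * N) - l) (vec false (nd i'))
        (vec false (nd i''))), if_pos (by omega)]
    have : 2 * (5 * q * N) - (2 * (5 * q * N) - k) = k := by omega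
    rw [this]

/-- comparison of the orders -/
theorem le_order {a g : ℂ → ℂ} {A B : ℕ} {d n : ℤ} (ha : MeromorphicAt a 0)
    (hn : meromorphicOrderAt a 0 = n) (hg : AnalyticAt ℂ g 0)
    (h : ∀ᶠ σ in 𝓝[≠] (0 : ℂ), σ ^ A * (σ ^ d * a σ) = σ ^ B * g σ) : (B : ℤ) ≤ A + d + n := by
  have hid : MeromorphicAt (fun s : ℂ => s) 0 := MeromorphicAt.id 0
  have hz : ∀ m : ℤ, MeromorphicAt (fun s : ℂ => s ^ m) 0 := fun m => hid.zpow m
  have hzo : ∀ m : ℤ, meromorphicOrderAt (fun s : ℂ => s ^ m) 0 = m := by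
    intro m
    have h3 := fun_meromorphicOrderAt_zpow hid (n := m)
    have h4 : meromorphicOrderAt (fun s : ℂ => s) 0 = 1 := meromorphicOrderAt_id
    rw [h3, h4, mul_one]
  have h1 : (fun σ : ℂ => σ ^ (A : ℤ) * (σ ^ d * a σ)) =ᶠ[𝓝[≠] 0]
      fun σ => σ ^ (B : ℤ) * g σ := by
    filter_upwards [h] with σ hσ
    rw [zpow_natCast, zpow_natCast, hσ]
  have h2 := meromorphicOrderAt_congr h1
  rw [fun_meromorphicOrderAt_mul (hz _) ((hz _).fun_mul ha), fun_meromorphicOrderAt_mul (hz _) ha,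
    fun_meromorphicOrderAt_mul (hz _) hg.meromorphicAt, hzo, hzo, hzo, hn] at h2
  have h3 := hg.meromorphicOrderAt_nonneg
  have h4 : ((B : ℤ) : WithTop ℤ) ≤ ((A : ℤ) : WithTop ℤ) + ((d : WithTop ℤ) + (n : WithTop ℤ)) := by
    rw [h2]
    calc ((B : ℤ) : WithTop ℤ) = ((B : ℤ) : WithTop ℤ) + 0 := (add_zero _).symm
      _ ≤ _ := by gcongr
  have h5 : (B : ℤ) ≤ A + (d + n) := by exact_mod_cast h4
  linarith

/-! ### The coefficients are rational functions -/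

theorem eventually_ball {P : T.X.Pt} {s : ℂ} (hs : s ∈ ball 0 (Sg.r P)) :
    ∀ᶠ σ in 𝓝[≠] s, σ ∈ ball (0 : ℂ) (Sg.r P) ∧ σ ≠ 0 := by
  have h1 : ∀ᶠ σ in 𝓝[≠] s, σ ∈ ball (0 : ℂ) (Sg.r P) :=
    nhdsWithin_le_nhds (isOpen_ball.mem_nhds hs)
  exact h1.and eventually_ne_zero'

theorem upow_zero' (d : ℤ) : upow 0 d = 1 := dif_pos rfl

theorem upow_val {s : ℂ} (hs : s ≠ 0) (d : ℤ) : ((upow s d : ℂˣ) : ℂ) = s ^ d := by
  unfold upow
  rw [dif_neg hs, Units.val_zpow_eq_zpow_val, Units.val_mk0]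

theorem psi_tr (hF : X.B₂.IsSec N F) {P : T.X.Pt} {s : ℂ} (hs : s ∈ ball 0 (Sg.r P))
    (hs0 : s ≠ 0) (w : ℂˣ) (x x' : V2) :
    Psi X F (An.c P s) 0 w x x' = (s ^ ((N : ℤ) * D₀ P))⁻¹ * Psi X F P s w x x' := by
  obtain ⟨h1, h2, -⟩ := Sg.iso P s hs hs0
  have h3 := Sg.o_tr P (An.c P s) s hs 0 (mem_ball_self (Sg.r_pos _)) (Or.inl hs0)
    (Or.inr ⟨h1, h2⟩) (An.c_zero _).symm w
  unfold Psi
  rw [h3, F_smul hF, upow_zero', one_div, Units.val_inv_eq_inv_val, upow_val hs0, inv_pow,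
    ← zpow_natCast, ← zpow_mul, mul_comm (D₀ P)]

theorem DD_tr (hF : X.B₂.IsSec N F) {P : T.X.Pt} {s : ℂ} (hs : s ∈ ball 0 (Sg.r P))
    (hs0 : s ≠ 0) (L k e e' : ℕ) : DD L (5 * q * N) (Psi X F (An.c P s) 0) k e e' =
      (s ^ ((N : ℤ) * D₀ P))⁻¹ * DD L (5 * q * N) (Psi X F P s) k e e' := by
  rw [← DD_mul_left]
  congr 1
  funext w x x'
  exact psi_tr hF hs hs0 w x x'

/-- The coefficients are given by elements of the function field. -/
theorem exists_coeff (hc : An.HolConst) (hF : X.B₂.IsSec N F) (L k e e' : ℕ) :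
    ∃ z : K, ∀ P, ∀ s ∈ ball 0 (Sg.r P), ∀ᶠ σ in 𝓝[≠] s,
      DD L (5 * q * N) (Psi X F P σ) k e e' = σ ^ ((N : ℤ) * D₀ P) * An.fn P z σ := by
  have hP₀ : ∃ P₀ : T.X.Pt, True := by
    have h1 : 0 < T.S.card := by
      rw [T.card_S]
      have := T.t_pos
      omega
    obtain ⟨P, -⟩ := Finset.card_pos.1 h1
    exact ⟨P, trivial⟩
  obtain ⟨P₀, -⟩ := hP₀
  have hev : ∀ P, ∀ s ∈ ball (0 : ℂ) (Sg.r P), ∀ᶠ σ in 𝓝[≠] s, σ ∈ ball (0 : ℂ) (Sg.r P) ∧ σ ≠ 0 :=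
    fun P s hs => eventually_ball hs
  have hm : ∀ P, MeromorphicAt
      (fun s => DD L (5 * q * N) (Psi X F (An.c P s) 0) k e e') 0 := by
    intro P
    obtain ⟨g, hg, hg'⟩ := exists_hol hF P L k e e'
    have h0 : (0 : ℂ) ∈ ball (0 : ℂ) (Sg.r P) := mem_ball_self (Sg.r_pos P)
    have hga : AnalyticAt ℂ g 0 := hg.analyticAt (isOpen_ball.mem_nhds h0)
    have h1 : MeromorphicAt (fun s : ℂ => (s ^ ((N : ℤ) * D₀ P))⁻¹ * g s) 0 :=
      ((MeromorphicAt.id 0).zpow _).inv.mul hga.meromorphicAt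
    refine h1.congr ?_
    filter_upwards [hev P 0 h0] with σ hσ
    rw [DD_tr hF hσ.1 hσ.2, hg' σ hσ.1 hσ.2]
  obtain ⟨z, hz⟩ := AnCurve.MerFam.exists_fn (AnCurve.merFam_of_fun (An := An)
    (G := fun Q => DD L (5 * q * N) (Psi X F Q 0) k e e') hm) hc P₀
  refine ⟨z, fun P s hs => ?_⟩
  filter_upwards [hz P s (ball_mono hs), hev P s hs] with σ h1 h2
  rw [h1, DD_tr hF h2.1 h2.2, mul_inv_cancel_left₀ (zpow_ne_zero _ h2.2)]

theorem dvs_apply (T : Datum K) (q : ℕ) (D₀ : T.X.Pt →₀ ℤ) (N : ℕ) (j : ℤ) (P : T.X.Pt) :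
    T.dvs q D₀ N j P = N * D₀ P - (open Classical in if P ∈ T.S then max 0 (j - 4 * q * N) else 0) -
      (open Classical in if P ∈ T.S' then max 0 (-j - 4 * q * N) else 0) := by
  classical
  unfold Datum.dvs
  rw [Finsupp.sub_apply, Finsupp.sub_apply, Finsupp.finsetSum_apply, Finsupp.finsetSum_apply,
    Finsupp.smul_apply]
  simp only [Finsupp.single_apply, Finset.sum_ite_eq', nsmul_eq_mul]

theorem coeff_mem (hF : X.B₂.IsSec N F) {L k e e' : ℕ} (hL : 2 * (5 * q * N) ≤ L)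
    (hk : k ≤ 2 * (5 * q * N)) {z : K} (hz : ∀ P, ∀ s ∈ ball 0 (Sg.r P), ∀ᶠ σ in 𝓝[≠] s,
      DD L (5 * q * N) (Psi X F P σ) k e e' = σ ^ ((N : ℤ) * D₀ P) * An.fn P z σ) :
    z ∈ T.V q D₀ N ((k : ℤ) - 5 * q * N) := by
  intro hz0 P
  have h0 : (0 : ℂ) ∈ ball (0 : ℂ) (Sg.r P) := mem_ball_self (Sg.r_pos P)
  have hev : ∀ᶠ σ in 𝓝[≠] (0 : ℂ), σ ∈ ball (0 : ℂ) (Sg.r P) ∧ σ ≠ 0 := eventually_ball h0
  have hm : MeromorphicAt (An.fn P z) 0 := An.fn_mero P z 0 (AnCurve.mem_ball_zero P)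
  have key : ∀ A B : ℕ, (∃ g : ℂ → ℂ, DifferentiableOn ℂ g (ball 0 (Sg.r P)) ∧
      ∀ s ∈ ball 0 (Sg.r P), s ≠ 0 →
        s ^ A * DD L (5 * q * N) (Psi X F P s) k e e' = s ^ B * g s) →
      (B : ℤ) ≤ A + N * D₀ P + T.X.ord P z := by
    rintro A B ⟨g, hg, hg'⟩
    refine le_order hm (An.ord_fn P hz0) (hg.analyticAt (isOpen_ball.mem_nhds h0)) ?_
    filter_upwards [hz P 0 h0, hev] with σ h1 h2
    rw [← h1, hg' σ h2.1 h2.2]
  have k0 : (0 : ℤ) ≤ N * D₀ P + T.X.ord P z := by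
    have := key 0 0 (by
      obtain ⟨g, hg, hg'⟩ := exists_hol hF P L k e e'
      refine ⟨g, hg, fun s hs hs0 => ?_⟩
      rw [hg' s hs hs0, pow_zero])
    simpa using this
  rw [dvs_apply]
  by_cases hS : P ∈ T.S
  · have hS' : P ∉ T.S' := fun h => Finset.disjoint_left.1 T.disj hS h
    have k1 := key _ _ (exists_hol_S hF hS hL hk e e')
    rw [if_pos hS, if_neg hS']
    have e1 : ((2 * (5 * q * N) - k : ℕ) : ℤ) = 2 * (5 * q * N) - k := by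
      rw [Nat.cast_sub hk]
      push_cast
      ring
    rw [e1] at k1
    push_cast at k1
    rcases max_choice (0 : ℤ) ((k : ℤ) - 5 * q * N - 4 * q * N) with h | h <;> rw [h] <;> linarith
  · by_cases hS' : P ∈ T.S'
    · have k1 := key _ _ (exists_hol_S' hF hS' hL hk e e')
      rw [if_neg hS, if_pos hS']
      push_cast at k1
      rcases max_choice (0 : ℤ) (-((k : ℤ) - 5 * q * N) - 4 * q * N) with h | h <;> rw [h] <;>
        linarith
    · rw [if_neg hS, if_neg hS']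
      linarith

/-- an exponent -/
def ex (a b c d : ℕ) : Fin 4 →₀ ℕ := Finsupp.equivFunOnFinite.symm ![a, b, c, d]

theorem eval_ex (v : Fin 4 → ℂ) (a b c d : ℕ) (z : ℂ) :
    eval v (monomial (ex a b c d) z) = z * (v 0 ^ a * v 1 ^ b * v 2 ^ c * v 3 ^ d) := by
  rw [eval_monomial, Finsupp.prod_fintype _ _ (fun i => pow_zero _), Fin.prod_univ_four]
  rfl

/-- **Surjectivity.** Every section is given by a polynomial. -/
theorem exists_rep (hc : An.HolConst) (hF : X.B₂.IsSec N F) :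
    ∃ f ∈ T.sec q D₀ N, Rep X N F f := by
  set m := 5 * q * N with hm
  set α := 25 * q * N with hα
  set L := α + 3 * m with hL
  have hmα : 3 * m ≤ α := by
    have : α = 5 * m := by rw [hα, hm]; ring
    omega
  choose z hz using fun k e e' : ℕ => exists_coeff hc hF L k e e'
  refine ⟨∑ k ∈ Finset.range (2 * m + 1), ∑ e ∈ Finset.range (α - 3 * m + 3 * k + 1),
    ∑ e' ∈ Finset.range (α + 3 * m - 3 * k + 1),
      monomial (ex (α - 3 * m + 3 * k - e) e (α + 3 * m - 3 * k - e') e') (z k e e'), ?_, ?_⟩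
  · refine sum_mem fun k hk => sum_mem fun e he => sum_mem fun e' he' => ?_
    have hk' : k ≤ 2 * m := Nat.lt_succ_iff.1 (Finset.mem_range.1 hk)
    have he1 : e ≤ α - 3 * m + 3 * k := Nat.lt_succ_iff.1 (Finset.mem_range.1 he)
    have he1' : e' ≤ α + 3 * m - 3 * k := Nat.lt_succ_iff.1 (Finset.mem_range.1 he')
    intro e₀ h0
    rw [coeff_monomial] at h0 ⊢
    split_ifs at h0 with h1
    · subst h1
      rw [if_pos rfl]
      have c1 : (α : ℤ) = 25 * q * N := by rw [hα]; push_cast; ring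
      have c2 : (m : ℤ) = 5 * q * N := by rw [hm]; push_cast; ring
      refine ⟨(k : ℤ) - 5 * q * N, ?_, ?_, ?_, ?_⟩
      · rw [abs_le]
        constructor
        · have : (0 : ℤ) ≤ k := Int.natCast_nonneg k
          linarith
        · have : (k : ℤ) ≤ 2 * m := by exact_mod_cast hk'
          linarith
      · show ((α - 3 * m + 3 * k - e : ℕ) : ℤ) + (e : ℕ) = _
        have : (α - 3 * m + 3 * k - e) + e + 3 * m = α + 3 * k := by omega
        have : (((α - 3 * m + 3 * k - e : ℕ) : ℤ) + (e : ℕ)) + 3 * m = α + 3 * k := by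
          exact_mod_cast this
        linarith
      · show ((α + 3 * m - 3 * k - e' : ℕ) : ℤ) + (e' : ℕ) = _
        have : (α + 3 * m - 3 * k - e') + e' + 3 * k = α + 3 * m := by omega
        have : (((α + 3 * m - 3 * k - e' : ℕ) : ℤ) + (e' : ℕ)) + 3 * k = α + 3 * m := by
          exact_mod_cast this
        linarith
      · exact coeff_mem hF (by omega) hk' (hz k e e')
    · exact absurd rfl h0
  · intro P s hs
    have hs' := ball_mono hs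
    have h1 : ∀ᶠ σ in 𝓝[≠] s, spec An P σ (∑ k ∈ Finset.range (2 * m + 1),
        ∑ e ∈ Finset.range (α - 3 * m + 3 * k + 1), ∑ e' ∈ Finset.range (α + 3 * m - 3 * k + 1),
        monomial (ex (α - 3 * m + 3 * k - e) e (α + 3 * m - 3 * k - e') e') (z k e e')) =
        ∑ k ∈ Finset.range (2 * m + 1), ∑ e ∈ Finset.range (α - 3 * m + 3 * k + 1),
        ∑ e' ∈ Finset.range (α + 3 * m - 3 * k + 1),
        monomial (ex (α - 3 * m + 3 * k - e) e (α + 3 * m - 3 * k - e') e')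
          (An.fn P (z k e e') σ) := by
      have t1 : ∀ᶠ σ in 𝓝[≠] s, ∀ k ∈ Finset.range (2 * m + 1),
          ∀ e ∈ Finset.range (α - 3 * m + 3 * k + 1),
          ∀ e' ∈ Finset.range (α + 3 * m - 3 * k + 1), spec An P σ
            (monomial (ex (α - 3 * m + 3 * k - e) e (α + 3 * m - 3 * k - e') e') (z k e e')) =
            monomial (ex (α - 3 * m + 3 * k - e) e (α + 3 * m - 3 * k - e') e')
              (An.fn P (z k e e') σ) :=
        (eventually_all_finset _).2 fun k _ => (eventually_all_finset _).2 fun e _ =>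
          (eventually_all_finset _).2 fun e' _ => spec_monomial hs' _ _
      have t2 : ∀ᶠ σ in 𝓝[≠] s, ∀ k ∈ Finset.range (2 * m + 1),
          ∀ e ∈ Finset.range (α - 3 * m + 3 * k + 1), spec An P σ
            (∑ e' ∈ Finset.range (α + 3 * m - 3 * k + 1),
            monomial (ex (α - 3 * m + 3 * k - e) e (α + 3 * m - 3 * k - e') e') (z k e e')) =
            ∑ e' ∈ Finset.range (α + 3 * m - 3 * k + 1), spec An P σ
            (monomial (ex (α - 3 * m + 3 * k - e) e (α + 3 * m - 3 * k - e') e') (z k e e')) :=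
        (eventually_all_finset _).2 fun k _ => (eventually_all_finset _).2 fun e _ =>
          spec_sum hs' _ _
      have t3 : ∀ᶠ σ in 𝓝[≠] s, ∀ k ∈ Finset.range (2 * m + 1), spec An P σ
            (∑ e ∈ Finset.range (α - 3 * m + 3 * k + 1),
            ∑ e' ∈ Finset.range (α + 3 * m - 3 * k + 1),
            monomial (ex (α - 3 * m + 3 * k - e) e (α + 3 * m - 3 * k - e') e') (z k e e')) =
            ∑ e ∈ Finset.range (α - 3 * m + 3 * k + 1), spec An P σ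
            (∑ e' ∈ Finset.range (α + 3 * m - 3 * k + 1),
            monomial (ex (α - 3 * m + 3 * k - e) e (α + 3 * m - 3 * k - e') e') (z k e e')) :=
        (eventually_all_finset _).2 fun k _ => spec_sum hs' _ _
      filter_upwards [t1, t2, t3, spec_sum hs' (Finset.range (2 * m + 1)) fun k =>
        ∑ e ∈ Finset.range (α - 3 * m + 3 * k + 1), ∑ e' ∈ Finset.range (α + 3 * m - 3 * k + 1),
        monomial (ex (α - 3 * m + 3 * k - e) e (α + 3 * m - 3 * k - e') e') (z k e e')]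
        with σ t1 t2 t3 t4
      rw [t4]
      refine Finset.sum_congr rfl fun k hk => ?_
      rw [t3 k hk]
      refine Finset.sum_congr rfl fun e he => ?_
      rw [t2 k hk e he]
      exact Finset.sum_congr rfl fun e' he' => t1 k hk e he e' he'
    have h2 : ∀ᶠ σ in 𝓝[≠] s, ∀ k ∈ Finset.range (2 * m + 1),
        ∀ e ∈ Finset.range (α - 3 * m + 3 * k + 1),
        ∀ e' ∈ Finset.range (α + 3 * m - 3 * k + 1),
        DD L (5 * q * N) (Psi X F P σ) k e e' =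
          σ ^ ((N : ℤ) * D₀ P) * An.fn P (z k e e') σ :=
      (eventually_all_finset _).2 fun k _ => (eventually_all_finset _).2 fun e _ =>
        (eventually_all_finset _).2 fun e' _ => hz k e e' P s hs
    have h3 : ∀ᶠ σ in 𝓝[≠] s, σ ∈ ball (0 : ℂ) (Sg.r P) ∧ σ ≠ 0 := eventually_ball hs
    filter_upwards [h1, h2, h3] with σ h1 h2 h3 u x x'
    have ht := (tf hF h3.1 (Or.inl h3.2)).expand_all hmα le_rfl (u ^ 6) x x'
    have hu : ((u ^ 6 : ℂˣ) : ℂ) ^ m ≠ 0 := pow_ne_zero _ (Units.ne_zero _)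
    apply mul_left_cancel₀ hu
    refine ht.trans ?_
    rw [h1]
    simp only [map_sum, Finset.mul_sum]
    refine Finset.sum_congr rfl fun k hk => Finset.sum_congr rfl fun e he =>
      Finset.sum_congr rfl fun e' he' => ?_
    have hk' : k ≤ 2 * m := Nat.lt_succ_iff.1 (Finset.mem_range.1 hk)
    have he1 : e ≤ α - 3 * m + 3 * k := Nat.lt_succ_iff.1 (Finset.mem_range.1 he)
    have he1' : e' ≤ α + 3 * m - 3 * k := Nat.lt_succ_iff.1 (Finset.mem_range.1 he')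
    rw [h2 k hk e he e' he', eval_ex]
    show _ = ((u ^ 6 : ℂˣ) : ℂ) ^ m * (σ ^ ((N : ℤ) * D₀ P) * (An.fn P (z k e e') σ *
      (((u : ℂ) * x.1 0) ^ (α - 3 * m + 3 * k - e) * ((u : ℂ) * x.1 1) ^ e *
      (((u⁻¹ : ℂˣ) : ℂ) * x'.1 0) ^ (α + 3 * m - 3 * k - e') *
      (((u⁻¹ : ℂˣ) : ℂ) * x'.1 1) ^ e')))
    have e1 : ((u ^ 6 : ℂˣ) : ℂ) ^ m * ((u : ℂ) ^ (α - 3 * m + 3 * k - e) * (u : ℂ) ^ e *
        (((u⁻¹ : ℂˣ) : ℂ) ^ (α + 3 * m - 3 * k - e') * ((u⁻¹ : ℂˣ) : ℂ) ^ e')) =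
        ((u ^ 6 : ℂˣ) : ℂ) ^ k := by
      rw [← pow_add, ← pow_add, Nat.sub_add_cancel he1, Nat.sub_add_cancel he1',
        Units.val_pow_eq_pow_val, ← pow_mul, ← pow_mul, ← mul_assoc, ← pow_add]
      have e2 : 6 * m + (α - 3 * m + 3 * k) = 6 * k + (α + 3 * m - 3 * k) := by omega
      rw [e2, pow_add, mul_assoc, ← mul_pow, Units.mul_inv, one_pow, mul_one]
    rw [mul_pow, mul_pow, mul_pow, mul_pow, ← e1]
    ring

end

end

end Pool.Agent.YTDA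


end

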