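import Pool.Agent.YTDM.P40
import Pool.Agent.YTDM.P42

/- source: Pool.Agent.YTDA.XGam -/

section

/-!
# Symmetries of the fourfold `X`: the groups `GL₂ × GL₂` and `Γ`
-/

set_option autoImplicit false

namespace Pool.Agent.YTDA

open Complex Set Topology Filter Metric
open Pool.Agent.YTD

noncomputable section

section P1

variable {n : ℕ} {Y : Type} [MulAction ℂˣ Y] {A : PolAtlas n Y} {D : A.DAct} {α β : ℤ}

theorem IsP1e.p1At {B : PolAtlas (n + 1) (P1Y D α β)} {e : A.ι × Bool ≃ B.ι} (h : IsP1e B e) :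
    P1At B where
  chart i := by
    obtain ⟨⟨a, b⟩, rfl⟩ := e.surjective i
    refine ⟨a, b, h.U a b, fun z hz => ?_⟩
    rw [h.U] at hz
    exact h.γ a b z hz
  exists_chart a b := by
    refine ⟨e (a, b), h.U a b, fun z hz => ?_⟩
    rw [h.U] at hz
    exact h.γ a b z hz

end P1

/-! ### Special matrices -/

/-- `diag(1, c)` -/
def gD (c : ℂˣ) : GL (Fin 2) ℂ := Matrix.GeneralLinearGroup.mkOfDetNeZero !![1, 0; 0, (c : ℂ)] (by
  rw [Matrix.det_fin_two_of]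
  simp)

/-- the exchange of the coordinates -/
def gS : GL (Fin 2) ℂ := Matrix.GeneralLinearGroup.mkOfDetNeZero !![0, 1; 1, 0] (by
  rw [Matrix.det_fin_two_of]
  norm_num)

/-- `(x₀, x₁) ↦ (x₀ + x₁, x₀ - x₁)` -/
def gH : GL (Fin 2) ℂ := Matrix.GeneralLinearGroup.mkOfDetNeZero !![1, 1; 1, -1] (by
  rw [Matrix.det_fin_two_of]
  norm_num)

theorem glv_gD (c : ℂˣ) (x : V2) : glv (gD c) x = diagV c x := by
  rw [V2.ext_iff']
  constructor
  · show (!![1, 0; 0, (c : ℂ)] : Matrix (Fin 2) (Fin 2) ℂ).mulVec x.1 0 = x.1 0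
    simp [Matrix.mulVec, dotProduct, Fin.sum_univ_two]
  · show (!![1, 0; 0, (c : ℂ)] : Matrix (Fin 2) (Fin 2) ℂ).mulVec x.1 1 = (c : ℂ) * x.1 1
    simp [Matrix.mulVec, dotProduct, Fin.sum_univ_two]

theorem glv_gS (x : V2) : glv gS x = swapV x := by
  rw [V2.ext_iff']
  constructor
  · show (!![0, 1; 1, 0] : Matrix (Fin 2) (Fin 2) ℂ).mulVec x.1 0 = x.1 1
    simp [Matrix.mulVec, dotProduct, Fin.sum_univ_two]
  · show (!![0, 1; 1, 0] : Matrix (Fin 2) (Fin 2) ℂ).mulVec x.1 1 = x.1 0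
    simp [Matrix.mulVec, dotProduct, Fin.sum_univ_two]

theorem glv_gH (x : V2) : glv gH x = hadV x := by
  rw [V2.ext_iff']
  constructor
  · show (!![1, 1; 1, -1] : Matrix (Fin 2) (Fin 2) ℂ).mulVec x.1 0 = x.1 0 + x.1 1
    simp [Matrix.mulVec, dotProduct, Fin.sum_univ_two]
  · show (!![1, 1; 1, -1] : Matrix (Fin 2) (Fin 2) ℂ).mulVec x.1 1 = x.1 0 - x.1 1
    simp [Matrix.mulVec, dotProduct, Fin.sum_univ_two, sub_eq_add_neg]

theorem diagV_diagV (c d : ℂˣ) (x : V2) : diagV c (diagV d x) = diagV (c * d) x := by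
  rw [V2.ext_iff']
  constructor
  · rfl
  · show (c : ℂ) * ((d : ℂ) * x.1 1) = ((c * d : ℂˣ) : ℂ) * x.1 1
    rw [Units.val_mul, mul_assoc]

theorem diagV_one (x : V2) : diagV 1 x = x := by
  rw [V2.ext_iff']
  constructor
  · rfl
  · show ((1 : ℂˣ) : ℂ) * x.1 1 = x.1 1
    rw [Units.val_one, one_mul]

theorem diagV_neg_neg (x : V2) : diagV (-1) (diagV (-1) x) = x := by
  rw [diagV_diagV, neg_one_mul, neg_neg, diagV_one]

theorem swapV_swapV (x : V2) : swapV (swapV x) = x := by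
  rw [V2.ext_iff']
  exact ⟨rfl, rfl⟩

theorem diagV_swapV (x : V2) : diagV (-1) (swapV x) = (-1 : ℂˣ) • swapV (diagV (-1) x) := by
  rw [V2.ext_iff', V2.coe_smul]
  constructor
  · show x.1 1 = ((-1 : ℂˣ) : ℂ) * (((-1 : ℂˣ) : ℂ) * x.1 1)
    simp
  · show ((-1 : ℂˣ) : ℂ) * x.1 0 = ((-1 : ℂˣ) : ℂ) * x.1 0
    rfl

namespace TwoP1

section Gen

variable {Y : Type} [MulAction ℂˣ Y] {A : PolAtlas 2 Y} {D : A.DAct} {α β α' β' : ℤ}
  (X : TwoP1 A D α β α' β')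

theorem p1At₁ : P1At X.B₁ := X.h₁.p1At

theorem p1At₂ : P1At X.B₂ := X.h₂.p1At

theorem induced : Induced X.D₁ := X.l₁.act

/-- `H ∘ (g, g')` -/
theorem exists_gl {H : P1Y X.D₁ α' β' → ℝ} (g g' : GL (Fin 2) ℂ) (hK : X.B₂.IsKahler H) :
    ∃ Hg : P1Y X.D₁ α' β' → ℝ, X.B₂.IsKahler Hg ∧ (∀ s, X.B₂.IsCsc H s → X.B₂.IsCsc Hg s) ∧
      ∀ y x x', Hg (P1Y.mk (P1Y.mk y x) x') = H (P1Y.mk (P1Y.mk y (glv g x)) (glv g' x')) :=
  ⟨fun p => H (gl1 g X.induced (gl2 g' p)), isKahler_gl X.induced X.p1At₁ X.p1At₂ g g' hK,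
    fun _ hs => isCsc_gl X.induced X.p1At₁ X.p1At₂ g g' hK hs, fun _ _ _ => rfl⟩

/-- `H ∘ (g, g)` for the matrix `g` exchanging the two kinds of symmetries -/
theorem exists_had {H : P1Y X.D₁ α' β' → ℝ} (hK : X.B₂.IsKahler H) :
    ∃ Hg : P1Y X.D₁ α' β' → ℝ, X.B₂.IsKahler Hg ∧ (∀ s, X.B₂.IsCsc H s → X.B₂.IsCsc Hg s) ∧
      ∀ y x x', Hg (P1Y.mk (P1Y.mk y x) x') = H (P1Y.mk (P1Y.mk y (hadV x)) (hadV x')) := by
  obtain ⟨Hg, h1, h2, h3⟩ := X.exists_gl gH gH hK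
  refine ⟨Hg, h1, h2, fun y x x' => ?_⟩
  rw [h3, glv_gH, glv_gH]

end Gen

section Gam

variable {K : Type} [Field K] [Algebra ℂ K] {T : Datum K} {q : ℕ} {D₀ : T.X.Pt →₀ ℤ}
  {An : AnCurve T.X.toCurveOrd} {M : SigModel T q D₀ An}

section pr

variable {α β α' β' : ℤ} (X : TwoP1 M.A M.D α β α' β')

/-- the projection of `X` to the curve -/
def pr (p : P1Y X.D₁ α' β') : T.X.Pt :=
  P1Y.lift (fun p _ => P1Y.lift (fun y _ => M.pr y) (fun c y _ => by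
      rw [M.pr_smul, M.pr_act]) p) (fun c p x' => by
    obtain ⟨y, x, rfl⟩ := P1Y.exists_mk p
    rw [X.induced, P1Y.smul_mk, P1Y.lift_mk, P1Y.lift_mk, M.pr_smul, M.pr_act]) p

theorem pr_mk (y : M.Y) (x x' : V2) : X.pr (P1Y.mk (P1Y.mk y x) x') = M.pr y := rfl

theorem pr_smul (c : ℂˣ) (p : P1Y X.D₁ α' β') : X.pr (c • p) = X.pr p := by
  obtain ⟨y, x, x', rfl⟩ := exists_mk2 p
  rw [smul_mk2]
  exact M.pr_smul c y

end pr

variable {α β : ℤ} (X : TwoP1 M.A M.D α β α (-β))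

/-- The maps of the surface inducing the action of the group `Γ`. -/
structure GamX (γ : Gam T) where
  f₀ : M.Y → M.Y
  f₁ : M.Y → M.Y
  f₂ : M.Y → M.Y
  aut₀ : M.Aut γ.σ SigModel.rhoI f₀
  aut₁ : M.Aut γ.σ₁ (fun i => i) f₁
  aut₂ : M.Aut γ.σ₂ (fun i => i) f₂
  act₀ : ∀ (c : ℂˣ) y, f₀ (M.D.act c y) = M.D.act c⁻¹ (f₀ y)
  act₁ : ∀ (c : ℂˣ) y, f₁ (M.D.act c y) = M.D.act c (f₁ y)
  act₂ : ∀ (c : ℂˣ) y, f₂ (M.D.act c y) = M.D.act c (f₂ y)
  eqv₀ : An.Equiv γ.θ γ.σ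
  eqv₁ : An.Equiv γ.θ₁ γ.σ₁
  eqv₂ : An.Equiv γ.θ₂ γ.σ₂

variable {X} in
theorem exists_gamX {γ : Gam T} (hE : An.Equiv γ.θ γ.σ) (hE₁ : An.Equiv γ.θ₁ γ.σ₁)
    (hE₂ : An.Equiv γ.θ₂ γ.σ₂) (hr : ∀ P, M.r (γ.σ P) = M.r P)
    (hr₁ : ∀ P, M.r (γ.σ₁ P) = M.r P) (hr₂ : ∀ P, M.r (γ.σ₂ P) = M.r P) (hD : γ.Fixes D₀) :
    Nonempty (GamX (M := M) γ) := by
  obtain ⟨f₀, a₀, b₀⟩ := M.exists_swap hE γ.σσ hr hD.1 γ.S_iff
  obtain ⟨f₁, a₁, b₁⟩ := M.exists_symm hE₁ γ.σσ₁ hr₁ hD.2.1 γ.S_iff₁ γ.S'_iff₁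
  obtain ⟨f₂, a₂, b₂⟩ := M.exists_symm hE₂ γ.σσ₂ hr₂ hD.2.2 γ.S_iff₂ γ.S'_iff₂
  exact ⟨⟨f₀, f₁, f₂, a₀, a₁, a₂, b₀, b₁, b₂, hE, hE₁, hE₂⟩⟩

namespace GamX

variable {γ : Gam T} (G : GamX (M := M) γ)

/-- the involution `[y, x, x'] ↦ [f₁ y, diag(1, -1) x, diag(1, -1) x']` -/
def e₁ (p : P1Y X.D₁ α (-β)) : P1Y X.D₁ α (-β) :=
  gl2 (gD (-1)) (gl1 (gD (-1)) X.induced (mapY G.f₁ G.aut₁.smul G.act₁ X.induced p))

/-- the involution `[y, x, x'] ↦ [f₂ y, swap x, swap x']` -/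
def e₂ (p : P1Y X.D₁ α (-β)) : P1Y X.D₁ α (-β) :=
  gl2 gS (gl1 gS X.induced (mapY G.f₂ G.aut₂.smul G.act₂ X.induced p))

/-- the involution `[y, x, x'] ↦ [f₀ y, x', x]` -/
def e₀ (p : P1Y X.D₁ α (-β)) : P1Y X.D₁ α (-β) :=
  swapX G.f₀ G.aut₀.smul G.act₀ X.induced rfl rfl p

theorem e₁_mk (y : M.Y) (x x' : V2) : G.e₁ X (P1Y.mk (P1Y.mk y x) x') =
    P1Y.mk (P1Y.mk (G.f₁ y) (diagV (-1) x)) (diagV (-1) x') := by
  rw [← glv_gD, ← glv_gD]
  rfl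

theorem e₂_mk (y : M.Y) (x x' : V2) : G.e₂ X (P1Y.mk (P1Y.mk y x) x') =
    P1Y.mk (P1Y.mk (G.f₂ y) (swapV x)) (swapV x') := by
  rw [← glv_gS, ← glv_gS]
  rfl

theorem e₀_mk (y : M.Y) (x x' : V2) : G.e₀ X (P1Y.mk (P1Y.mk y x) x') =
    P1Y.mk (P1Y.mk (G.f₀ y) x') x := rfl

theorem f₀_f₀ (y : M.Y) : G.f₀ (G.f₀ y) = y := G.aut₀.invol γ.σσ SigModel.rhoI_rhoI y

theorem f₁_f₁ (y : M.Y) : G.f₁ (G.f₁ y) = y := G.aut₁.invol γ.σσ₁ (fun _ => rfl) y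

theorem f₂_f₂ (y : M.Y) : G.f₂ (G.f₂ y) = y := G.aut₂.invol γ.σσ₂ (fun _ => rfl) y

theorem f₁_f₂ (y : M.Y) : G.f₁ (G.f₂ y) = G.f₂ (G.f₁ y) :=
  G.aut₁.comm G.aut₂ γ.σcomm₁₂ (fun _ => rfl) y

theorem f₀_f₁ (y : M.Y) : G.f₀ (G.f₁ y) = G.f₁ (G.f₀ y) :=
  G.aut₀.comm G.aut₁ γ.σcomm₁ (fun _ => rfl) y

theorem f₀_f₂ (y : M.Y) : G.f₀ (G.f₂ y) = G.f₂ (G.f₀ y) :=
  G.aut₀.comm G.aut₂ γ.σcomm₂ (fun _ => rfl) y

theorem isBihol_e₁ : IsBihol X.B₂ X.B₂ (G.e₁ X) :=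
  (isBihol_gl2 _ X.p1At₂).comp ((isBihol_gl1 X.induced _ X.p1At₁ X.p1At₂).comp
    (isBihol_mapY _ _ _ X.induced X.p1At₁ X.p1At₂ G.aut₁.isHol G.aut₁.isHol G.f₁_f₁ G.f₁_f₁))

theorem isBihol_e₂ : IsBihol X.B₂ X.B₂ (G.e₂ X) :=
  (isBihol_gl2 _ X.p1At₂).comp ((isBihol_gl1 X.induced _ X.p1At₁ X.p1At₂).comp
    (isBihol_mapY _ _ _ X.induced X.p1At₁ X.p1At₂ G.aut₂.isHol G.aut₂.isHol G.f₂_f₂ G.f₂_f₂))

theorem isBihol_e₀ : IsBihol X.B₂ X.B₂ (G.e₀ X) :=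
  isBihol_swapX _ G.aut₀.smul G.act₀ X.induced rfl rfl X.p1At₁ X.p1At₂ G.aut₀.isHol
    G.aut₀.isHol G.f₀_f₀ G.f₀_f₀

/-- The action of `Γ` on the total space over `X`. -/
def inv3 : Inv3 (P1Y X.D₁ α (-β)) where
  e₁ := G.e₁ X
  e₂ := G.e₂ X
  e₃ := G.e₀ X
  smul₁ := (G.isBihol_e₁ X).smul
  smul₂ := (G.isBihol_e₂ X).smul
  smul₃ := (G.isBihol_e₀ X).smul
  sq₁ p := by
    obtain ⟨y, x, x', rfl⟩ := exists_mk2 p
    unfold mk2
    rw [e₁_mk, e₁_mk, G.f₁_f₁, diagV_neg_neg, diagV_neg_neg]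
  sq₂ p := by
    obtain ⟨y, x, x', rfl⟩ := exists_mk2 p
    unfold mk2
    rw [e₂_mk, e₂_mk, G.f₂_f₂, swapV_swapV, swapV_swapV]
  sq₃ p := by
    obtain ⟨y, x, x', rfl⟩ := exists_mk2 p
    unfold mk2
    rw [e₀_mk, e₀_mk, G.f₀_f₀]
  comm₁₂ p := by
    obtain ⟨y, x, x', rfl⟩ := exists_mk2 p
    have h1 : G.e₁ X (G.e₂ X (mk2 y x x')) =
        mk2 (G.f₁ (G.f₂ y)) (diagV (-1) (swapV x)) (diagV (-1) (swapV x')) := by
      unfold mk2
      rw [e₂_mk, e₁_mk]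
    have h2 : G.e₂ X (G.e₁ X (mk2 y x x')) =
        mk2 (G.f₂ (G.f₁ y)) (swapV (diagV (-1) x)) (swapV (diagV (-1) x')) := by
      unfold mk2
      rw [e₁_mk, e₂_mk]
    rw [h1, h2, diagV_swapV, diagV_swapV, mk2_smul_right X.induced, mk2_smul_left, G.f₁_f₂,
      M.D.act_smul, ← M.D.act_mul, smul_smul, ← zpow_add, ← zpow_add, add_neg_cancel, zpow_zero,
      M.D.act_one, ← two_mul, zpow_mul]
    norm_num
  comm₁₃ p := by
    obtain ⟨y, x, x', rfl⟩ := exists_mk2 p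
    unfold mk2
    rw [e₀_mk, e₁_mk, e₁_mk, e₀_mk, G.f₀_f₁]
  comm₂₃ p := by
    obtain ⟨y, x, x', rfl⟩ := exists_mk2 p
    unfold mk2
    rw [e₀_mk, e₂_mk, e₂_mk, e₀_mk, G.f₀_f₂]

theorem pr_e₁ (p : P1Y X.D₁ α (-β)) : X.pr (G.e₁ X p) = γ.σ₁ (X.pr p) := by
  obtain ⟨y, x, x', rfl⟩ := exists_mk2 p
  unfold mk2
  rw [e₁_mk, X.pr_mk, X.pr_mk]
  exact G.aut₁.pr (fun _ => Iff.rfl) G.eqv₁ y

theorem pr_e₂ (p : P1Y X.D₁ α (-β)) : X.pr (G.e₂ X p) = γ.σ₂ (X.pr p) := by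
  obtain ⟨y, x, x', rfl⟩ := exists_mk2 p
  unfold mk2
  rw [e₂_mk, X.pr_mk, X.pr_mk]
  exact G.aut₂.pr (fun _ => Iff.rfl) G.eqv₂ y

theorem pr_e₀ (p : P1Y X.D₁ α (-β)) : X.pr (G.e₀ X p) = γ.σ (X.pr p) := by
  obtain ⟨y, x, x', rfl⟩ := exists_mk2 p
  unfold mk2
  rw [e₀_mk, X.pr_mk, X.pr_mk]
  refine G.aut₀.pr (fun i => ?_) G.eqv₀ y
  revert i
  decide

/-- `Γ` acts freely. -/
theorem free : (G.inv3 X).Free where
  f₁ p c h := by
    have h1 := congrArg X.pr h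
    rw [X.pr_smul] at h1
    exact γ.free₁ _ ((G.pr_e₁ X p).symm.trans h1)
  f₂ p c h := by
    have h1 := congrArg X.pr h
    rw [X.pr_smul] at h1
    exact γ.free₂ _ ((G.pr_e₂ X p).symm.trans h1)
  f₃ p c h := by
    have h1 := congrArg X.pr h
    rw [X.pr_smul] at h1
    exact γ.free _ ((G.pr_e₀ X p).symm.trans h1)
  f₁₂ p c h := by
    have h1 : X.pr (G.e₁ X (G.e₂ X p)) = _ := congrArg X.pr h
    rw [X.pr_smul, pr_e₁, pr_e₂] at h1
    exact γ.free₁₂ _ h1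
  f₁₃ p c h := by
    have h1 : X.pr (G.e₁ X (G.e₀ X p)) = _ := congrArg X.pr h
    rw [X.pr_smul, pr_e₁, pr_e₀, ← γ.σcomm₁] at h1
    exact γ.free₀₁ _ h1
  f₂₃ p c h := by
    have h1 : X.pr (G.e₂ X (G.e₀ X p)) = _ := congrArg X.pr h
    rw [X.pr_smul, pr_e₂, pr_e₀, ← γ.σcomm₂] at h1
    exact γ.free₀₂ _ h1
  f₁₂₃ p c h := by
    have h1 : X.pr (G.e₁ X (G.e₂ X (G.e₀ X p))) = _ := congrArg X.pr h
    rw [X.pr_smul, pr_e₁, pr_e₂, pr_e₀, ← γ.σcomm₂, ← γ.σcomm₁] at h1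
    exact γ.free₀₁₂ _ h1

end GamX

end Gam

end TwoP1

end

end Pool.Agent.YTDA


end

/- source: Pool.Agent.YTDA.Circ -/

section

/-!
The circle theorem.
-/

namespace Pool.Agent.YTDA

open Complex Set Topology ContDiff ComplexOrder TopologicalSpace Matrix

noncomputable section

namespace PolAtlas

variable {n : ℕ} {Y : Type} [MulAction ℂˣ Y] {A : PolAtlas (n + 1) Y}

/-- The circle theorem. -/
theorem circleThm (P : A.Part) (hc : A.IsCpt) (ht : A.IsT2) {H : Y → ℝ} (hK : A.IsKahler H)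
    {s : ℂ} (hS : A.IsCsc H s) (D : A.DAct) : CircleThm H D := by
  obtain ⟨W, hW⟩ := exists_holField hc ht hK hS D
    (fun F h1 h2 h3 ρ h4 h5 h6 Ξ h7 h8 h9 => nonneg_div_succ P F h2 h1 h3 ρ h4 h5 h6 Ξ h7 h8 h9)
  have hW' : ∀ a, ∀ z ∈ A.U a, ∀ m, ∑ k, hess (A.pot H a) z k m * W.W a z k =
      dzb m (fun w => (A.cv D H a w : ℂ)) z := by
    intro a z hz m
    rw [hW a z hz m]
    refine dzb_congr ?_
    refine Filter.eventuallyEq_of_mem ((A.isOpen_U a).mem_nhds hz) fun w hw => ?_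
    show (cvF (A.pot H a) (D.k a) w : ℂ) = (A.cv D H a w : ℂ)
    rw [← cv_eqB hK D hw]
    rfl
  exact ⟨W, hW', fun hinv => circle_of_field D hc hK W hW' hinv⟩

end PolAtlas

end

end Pool.Agent.YTDA


end

/- source: Pool.Agent.YTDA.Final17 -/

section

/-!
# Assembly: from a polarized atlas with a free action of `(ℤ/2)³` to the manifold
-/

namespace Pool.Agent.YTDA

open Complex Set Topology ContDiff Manifold ComplexOrder Module Filter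

noncomputable section

namespace PolAtlas

variable {n : ℕ} {Y : Type} [MulAction ℂˣ Y] {A : PolAtlas n Y}

/-- Invariance of a vector field under a holomorphic map. -/
def FieldInv (A : PolAtlas n Y) (f : Y → Y) (W : A.HolField) : Prop :=
  ∀ (a b : A.ι) (z : E n) (t : E n → E n), z ∈ A.U a → t z ∈ A.U b → ContinuousAt t z →
    (∀ᶠ w in 𝓝 z, ∃ c : ℂˣ, f (A.γ a w) = c • A.γ b (t w)) →
    W.W b (t z) = fderiv ℂ t z (W.W a z)

section

variable {G : Type} [Group G] [MulAction G Y] [SMulCommClass G ℂˣ Y]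
variable [Finite G] (hA : A.FreeAct G) (ht : A.IsT2)

theorem quot_isKahler_lift {H : Y → ℝ} (hH : A.IsKahler H) (hinv : ∀ (g : G) y, H (g • y) = H y) :
    (A.quot hA ht).IsKahler (qlift H hinv) where
  pos y := by
    obtain ⟨y, rfl⟩ := exists_qm y
    exact hH.pos y
  hom c y := by
    obtain ⟨y, rfl⟩ := exists_qm y
    exact hH.hom c y
  smooth p := (hH.smooth p.1.1).mono p.2.2.1
  posDef p z hz := hH.posDef p.1.1 z (p.2.2.1 hz)

theorem pullField_fieldInv (W : (A.quot hA ht).HolField) (g : G) :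
    FieldInv A (fun y => g • y) (pullField hA ht W) :=
  fun _ _ _ _ hz hz' hf h => pullField_inv hA ht W g hz hz' hf h

/-- The section spaces of the line bundle on the quotient. -/
def quotH0 (k : ℕ) : (A.quot hA ht).lb.H0 k ≃ₗ[ℂ] A.invSecs G k :=
  ((A.quot hA ht).secEquiv k).symm.trans (quotSecs hA ht k)

theorem ofLocs_mul (B : PolAtlas n Y) {k k' : ℕ} {f f' : B.ι → B.Mfd → ℂ} (hf : f ∈ B.lb.H0 k)
    (hf' : f' ∈ B.lb.H0 k') (hff' : f * f' ∈ B.lb.H0 (k + k')) :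
    B.ofLocs (k + k') (f * f') = B.ofLocs k f * B.ofLocs k' f' := by
  funext y
  obtain ⟨a, z, hz, c, rfl⟩ := B.cover y
  rw [Pi.mul_apply, B.ofLocs_eq hff' hz, B.ofLocs_eq hf hz, B.ofLocs_eq hf' hz, pow_add]
  show _ * (f a _ * f' a _) = _
  ring

theorem quotH0_apply {k : ℕ} (f : (A.quot hA ht).lb.H0 k) (y : Y) :
    (quotH0 hA ht k f : Y → ℂ) y = (A.quot hA ht).ofLocs k f.1 (qm y) := rfl

theorem quotH0_mul {k k' : ℕ} (f : (A.quot hA ht).lb.H0 k) (f' : (A.quot hA ht).lb.H0 k')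
    (hff' : f.1 * f'.1 ∈ (A.quot hA ht).lb.H0 (k + k')) :
    (quotH0 hA ht (k + k') ⟨f.1 * f'.1, hff'⟩ : Y → ℂ) =
      (quotH0 hA ht k f : Y → ℂ) * (quotH0 hA ht k' f' : Y → ℂ) := by
  funext y
  exact congrFun (ofLocs_mul (A.quot hA ht) f.2 f'.2 hff') (qm y)

end

/-- The final construction. -/
theorem exists_manifold (hc : A.IsCpt) (ht : A.IsT2) (hne : Nonempty Y) (e : Inv3 Y)
    (he : e.Free) (h₁ : IsHol A A e.e₁) (h₂ : IsHol A A e.e₂) (h₃ : IsHol A A e.e₃)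
    (hsec : ∀ F, A.IsSec 0 F → ∃ c, ∀ y, F y = c)
    (hfield : ∀ W : A.HolField, FieldInv A e.e₁ W → FieldInv A e.e₂ W → FieldInv A e.e₃ W →
      ∀ a, ∀ z ∈ A.U a, W.W a z = 0)
    (hamp : letI := e.act; haveI := e.commClass; ∃ k > 0, A.AmpInv G3 k)
    (hK : ∃ H, A.IsKahler H ∧ (∀ y, H (e.e₁ y) = H y) ∧ (∀ y, H (e.e₂ y) = H y) ∧
      ∀ y, H (e.e₃ y) = H y)
    (hcsc : ∀ H, A.IsKahler H → (∀ y, H (e.e₁ y) = H y) → (∀ y, H (e.e₂ y) = H y) →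
      (∀ y, H (e.e₃ y) = H y) → ∀ s, ¬ A.IsCsc H s)
    (hstab : letI := e.act; haveI := e.commClass; ∀ hA : A.FreeAct G3,
      (A.quot hA ht).lb.KStable) :
    ∃ (M : Type) (_ : TopologicalSpace M) (_ : ChartedSpace (E n) M)
      (_ : IsManifold 𝓘(ℂ, E n) ω M) (L : LineBundle n M),
      CompactSpace M ∧ T2Space M ∧ ConnectedSpace M ∧ NoVectorField n M ∧
      L.IsAmple ∧ L.KStable ∧ Nonempty L.KMetric ∧ ∀ m : L.KMetric, ¬ m.IsCsc := by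
  let _ := e.act
  have _ := e.commClass
  have hA : A.FreeAct G3 := he.freeAct h₁ h₂ h₃
  have hinv : ∀ {β : Type} (F : Y → β), (∀ (g : G3) y, F (g • y) = F y) ↔
      (∀ y, F (e.e₁ y) = F y) ∧ (∀ y, F (e.e₂ y) = F y) ∧ ∀ y, F (e.e₃ y) = F y :=
    fun F => e.inv_iff F
  set B := A.quot hA ht with hB
  have hneQ : Nonempty (QY Y G3) := ⟨qm hne.some⟩
  refine ⟨B.Mfd, inferInstance, inferInstance, B.isManifold, B.lb,
    B.compactSpace (quot_isCpt hA ht hc), B.t2Space (quot_isT2 hA ht),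
    B.connectedSpace ?_, B.noVectorField ?_, ?_, hstab hA, ?_, ?_⟩
  · intro F hF
    obtain ⟨c, hc⟩ := hsec _ ((quot_isSec_iff hA ht).1 hF)
    refine ⟨c, fun y => ?_⟩
    obtain ⟨y, rfl⟩ := exists_qm y
    exact hc y
  · intro W
    have hW : ∀ g : G3, FieldInv A (fun y => g • y) (pullField hA ht W) :=
      pullField_fieldInv hA ht W
    apply pullField_eq_zero hA ht
    have e₁ : (fun y => (Multiplicative.ofAdd (1, 0, 0) : G3) • y) = e.e₁ := by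
      funext y
      show pw e.e₁ 1 (pw e.e₂ 0 (pw e.e₃ 0 y)) = e.e₁ y
      rw [pw_zero, pw_zero, pw_one]
    have e₂ : (fun y => (Multiplicative.ofAdd (0, 1, 0) : G3) • y) = e.e₂ := by
      funext y
      show pw e.e₁ 0 (pw e.e₂ 1 (pw e.e₃ 0 y)) = e.e₂ y
      rw [pw_zero, pw_zero, pw_one]
    have e₃ : (fun y => (Multiplicative.ofAdd (0, 0, 1) : G3) • y) = e.e₃ := by
      funext y
      show pw e.e₁ 0 (pw e.e₂ 0 (pw e.e₃ 1 y)) = e.e₃ y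
      rw [pw_zero, pw_zero, pw_one]
    have h1 := hW (Multiplicative.ofAdd (1, 0, 0))
    have h2 := hW (Multiplicative.ofAdd (0, 1, 0))
    have h3 := hW (Multiplicative.ofAdd (0, 0, 1))
    rw [e₁] at h1
    rw [e₂] at h2
    rw [e₃] at h3
    exact hfield _ h1 h2 h3
  · obtain ⟨k, hk, h⟩ := hamp
    exact (AmpInv.quot h hA ht).isAmple hk
  · obtain ⟨H, hH, i1, i2, i3⟩ := hK
    exact ⟨toKMetric (quot_isKahler_lift hA ht hH ((hinv H).2 ⟨i1, i2, i3⟩))⟩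
  · intro m hm
    obtain ⟨s, hs⟩ := B.toH_isCsc hm
    have hK1 := quot_isKahler hA ht (B.toH_isKahler m)
    have hs1 := quot_isCsc hA ht hs
    have hi : ∀ (g : G3) y, (fun y => B.toH m (qm y)) (g • y) = (fun y => B.toH m (qm y)) y :=
      fun g y => congrArg (B.toH m) (qm_smul g y)
    obtain ⟨i1, i2, i3⟩ := (hinv (fun y => B.toH m (qm y))).1 hi
    exact hcsc _ hK1 i1 i2 i3 s hs1

end PolAtlas

end

end Pool.Agent.YTDA


end

/- source: Pool.Agent.YTDA.SecUniq -/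

section

/-!
# Uniqueness of the polynomial of a section and of the section of a polynomial
-/

set_option autoImplicit false

namespace Pool.Agent.YTDA

open Complex Set Topology Filter Metric MvPolynomial
open Pool.Agent.YTD

noncomputable section

/-- A polynomial which vanishes at the points `pv u x x'` is zero. -/
theorem eq_zero_of_pv {f : MvPolynomial (Fin 4) ℂ} (h : ∀ (u : ℂˣ) x x', eval (pv u x x') f = 0) :
    f = 0 := by
  have h1 : (MvPolynomial.X 0 * (MvPolynomial.X 2 * f) : MvPolynomial (Fin 4) ℂ) = 0 := by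
    apply MvPolynomial.funext
    intro v
    rw [map_zero, map_mul, map_mul, eval_X, eval_X]
    by_cases h0 : v 0 = 0
    · rw [h0, zero_mul]
    by_cases h2 : v 2 = 0
    · rw [h2, zero_mul, mul_zero]
    have e : v = pv 1 ⟨![v 0, v 1], fun h => h0 (congrFun h 0)⟩
        ⟨![v 2, v 3], fun h => h2 (congrFun h 0)⟩ := by
      ext i
      fin_cases i <;> simp [pv]
    rw [e, h, mul_zero, mul_zero]
  have h2 : (MvPolynomial.X 0 : MvPolynomial (Fin 4) ℂ) ≠ 0 := MvPolynomial.X_ne_zero 0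
  have h3 : (MvPolynomial.X 2 : MvPolynomial (Fin 4) ℂ) ≠ 0 := MvPolynomial.X_ne_zero 2
  rcases mul_eq_zero.1 h1 with h4 | h4
  · exact absurd h4 h2
  · rcases mul_eq_zero.1 h4 with h5 | h5
    · exact absurd h5 h3
    · exact h5

theorem exists_pt {K : Type} [Field K] [Algebra ℂ K] (T : Datum K) : Nonempty T.X.Pt := by
  have h1 : 0 < T.S.card := by
    rw [T.card_S]
    have := T.t_pos
    omega
  obtain ⟨P, -⟩ := Finset.card_pos.1 h1
  exact ⟨P⟩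

section

variable {K : Type} [Field K] [Algebra ℂ K] {T : Datum K} {q : ℕ} {D₀ : T.X.Pt →₀ ℤ}
  {An : AnCurve T.X.toCurveOrd} {Sg : SigModel T q D₀ An}
  {X : TwoP1 Sg.A Sg.D (25 * (q : ℤ)) 3 (25 * (q : ℤ)) (-3)}
  {N : ℕ} {F F' : P1Y X.D₁ (25 * (q : ℤ)) (-3) → ℂ} {f f' : MvPolynomial (Fin 4) K}

theorem Rep.eq_zero (h : Rep X N 0 f) : f = 0 := by
  have := exists_pt T
  apply MvPolynomial.ext
  intro e
  rw [coeff_zero]
  apply An.fn_inj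
  intro P
  have h0 : (0 : ℂ) ∈ ball (0 : ℂ) (Sg.r P) := mem_ball_self (Sg.r_pos P)
  filter_upwards [h P 0 h0, coeff_spec (ball_mono h0) f, eventually_fn_zero (ball_mono h0),
    eventually_ne_zero'] with σ h1 h2 h3 h4
  have h5 : spec An P σ f = 0 := by
    apply eq_zero_of_pv
    intro u x x'
    have h6 := h1 u x x'
    have h7 : (0 : ℂ) = σ ^ (N * D₀ P) * eval (pv u x x') (spec An P σ f) := h6
    rcases mul_eq_zero.1 h7.symm with h8 | h8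
    · exact absurd h8 (zpow_ne_zero _ h4)
    · exact h8
  rw [← h2, h5, coeff_zero, h3]

/-- the polynomial of a section is unique -/
theorem Rep.unique (h : Rep X N F f) (h' : Rep X N F f') : f = f' := by
  have h1 := h.add (h'.smul (-1))
  have h2 : F + (-1 : ℂ) • F = 0 := by
    rw [neg_one_smul, add_neg_cancel]
  rw [h2] at h1
  have h3 := h1.eq_zero
  rw [neg_one_smul, ← sub_eq_add_neg] at h3
  exact sub_eq_zero.1 h3

/-- coordinate on the curve in a chart -/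
def sg (i : Fin 3) (z : E 2) : ℂ := if i = 2 then z 0 * z 1 else z 0

/-- the frame of a chart at generic points -/
theorem γ_o (P : T.X.Pt) (i : Fin 3) {z : E 2} (hz : z ∈ Sg.A.U (Sg.e (P, i))) (h0 : z 0 ≠ 0)
    (h1 : z 1 ≠ 0) : sg i z ∈ ball 0 (Sg.r P) ∧
      ∃ c w : ℂˣ, Sg.A.γ (Sg.e (P, i)) z = c • Sg.o P (sg i z) w := by
  have e : z = ![z 0, z 1] := by
    ext j; fin_cases j <;> rfl
  fin_cases i
  · have hz' : z ∈ Sg.A.U (Sg.e (P, 0)) := hz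
    rw [Sg.U_bot] at hz'
    have hz'' : z 0 ∈ ball 0 (Sg.r P) := by simpa using hz'
    refine ⟨hz'', ?_⟩
    show ∃ c w : ℂˣ, Sg.A.γ (Sg.e (P, 0)) z = c • Sg.o P (z 0) w
    by_cases hP : P ∈ T.S'
    · have h2 := Sg.γ_bot' P hP (Units.mk0 _ h0) (by simpa using hz') (Units.mk0 _ h1)
      rw [Units.val_mk0, Units.val_mk0, ← e] at h2
      exact ⟨_, _, h2⟩
    · have h2 := Sg.γ_bot P hP (z 0) hz'' (Or.inl h0) (Units.mk0 _ h1)
      rw [Units.val_mk0, ← e] at h2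
      exact ⟨_, _, h2⟩
  · have hz' : z ∈ Sg.A.U (Sg.e (P, 1)) := hz
    rw [Sg.U_top] at hz'
    have hz'' : z 0 ∈ ball 0 (Sg.r P) := by simpa using hz'
    refine ⟨hz'', ?_⟩
    show ∃ c w : ℂˣ, Sg.A.γ (Sg.e (P, 1)) z = c • Sg.o P (z 0) w
    by_cases hP : P ∈ T.S
    · have h2 := Sg.γ_top' P hP (Units.mk0 _ h0) (by simpa using hz') (Units.mk0 _ h1)
      rw [Units.val_mk0, Units.val_mk0, ← e] at h2
      exact ⟨_, _, h2⟩
    · have h2 := Sg.γ_top P hP (z 0) hz'' (Or.inl h0) (Units.mk0 _ h1)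
      rw [Units.val_mk0, ← e] at h2
      exact ⟨_, _, h2⟩
  · have hz' : z ∈ Sg.A.U (Sg.e (P, 2)) := hz
    show z 0 * z 1 ∈ ball 0 (Sg.r P) ∧
      ∃ c w : ℂˣ, Sg.A.γ (Sg.e (P, 2)) z = c • Sg.o P (z 0 * z 1) w
    by_cases hP : P ∈ T.S
    · rw [Sg.U_mid P (Or.inl hP)] at hz'
      refine ⟨by simpa using hz', ?_⟩
      have h2 := Sg.γ_mid P hP (Units.mk0 _ h0) (Units.mk0 _ h1) (by simpa using hz')
      rw [Units.val_mk0, Units.val_mk0, ← e] at h2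
      exact ⟨_, _, h2⟩
    · by_cases hP' : P ∈ T.S'
      · rw [Sg.U_mid P (Or.inr hP')] at hz'
        refine ⟨by simpa using hz', ?_⟩
        have h2 := Sg.γ_mid' P hP' (Units.mk0 _ h0) (Units.mk0 _ h1) (by simpa using hz')
        rw [Units.val_mk0, Units.val_mk0, ← e] at h2
        exact ⟨_, _, h2⟩
      · rw [Sg.U_mid' P hP hP'] at hz'
        exact hz'.elim

theorem exists_pow_six (w : ℂˣ) : ∃ u : ℂˣ, u ^ 6 = w := by
  obtain ⟨z, hz⟩ := IsAlgClosed.exists_pow_nat_eq (w : ℂ) (n := 6) (by norm_num)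
  have hz0 : z ≠ 0 := by
    rintro rfl
    rw [zero_pow (by norm_num)] at hz
    exact w.ne_zero hz.symm
  refine ⟨Units.mk0 z hz0, Units.ext ?_⟩
  rw [Units.val_pow_eq_pow_val, Units.val_mk0, hz]

theorem eq_of_eventually {φ ψ : ℂ → ℂ} {t : ℂ} (h : ContinuousAt φ t) (h' : ContinuousAt ψ t)
    (he : ∀ᶠ s in 𝓝[≠] t, φ s = ψ s) : φ t = ψ t :=
  tendsto_nhds_unique_of_eventuallyEq (h.tendsto.mono_left nhdsWithin_le_nhds)
    (h'.tendsto.mono_left nhdsWithin_le_nhds) he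

/-- Two sections which agree at the generic points are equal. -/
theorem IsSec.eq_of_generic (hF : X.B₂.IsSec N F) (hF' : X.B₂.IsSec N F')
    (h : ∀ P, ∀ s ∈ ball 0 (Sg.r P), ∀ᶠ σ in 𝓝[≠] s, ∀ w x x',
      Psi X F P σ w x x' = Psi X F' P σ w x x') : F = F' := by
  -- generic points of the charts
  have g0 : ∀ (P : T.X.Pt) (i : Fin 3) (b₁ b₂ : Bool) (z : E 4),
      ![z 0, z 1] ∈ Sg.A.U (Sg.e (P, i)) → z 0 ≠ 0 → z 1 ≠ 0 →
      (∀ w x x', Psi X F P (sg i ![z 0, z 1]) w x x' = Psi X F' P (sg i ![z 0, z 1]) w x x') →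
      F (X.pt (Sg.e (P, i)) b₁ b₂ z) = F' (X.pt (Sg.e (P, i)) b₁ b₂ z) := by
    intro P i b₁ b₂ z hz h0 h1 hw
    obtain ⟨-, c, w, hc⟩ := γ_o P i hz h0 h1
    show F (P1Y.mk (P1Y.mk (Sg.A.γ (Sg.e (P, i)) ![z 0, z 1]) (vec b₁ (z 2))) (vec b₂ (z 3))) =
      F' (P1Y.mk (P1Y.mk (Sg.A.γ (Sg.e (P, i)) ![z 0, z 1]) (vec b₁ (z 2))) (vec b₂ (z 3)))
    rw [hc, F_smul hF, F_smul hF']
    congr 1
    exact hw w (vec b₁ (z 2)) (vec b₂ (z 3))
  have hcont : ∀ (G : P1Y X.D₁ (25 * (q : ℤ)) (-3) → ℂ), X.B₂.IsSec N G →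
      ∀ (a : Sg.A.ι) (b₁ b₂ : Bool) (z : E 4), ![z 0, z 1] ∈ Sg.A.U a →
      ContinuousAt (fun z => G (X.pt a b₁ b₂ z)) z := by
    intro G hG a b₁ b₂ z hz
    have h1 : X.B₂.U (X.i a b₁ b₂) = {z | ![z 0, z 1] ∈ Sg.A.U a} := by
      ext z
      exact X.mem_U
    have h2 : {z : E 4 | ![z 0, z 1] ∈ Sg.A.U a} ∈ 𝓝 z := by
      rw [← h1]
      exact (X.B₂.isOpen_U _).mem_nhds (by rw [h1]; exact hz)
    exact ((hol_pt hG a b₁ b₂).differentiableAt h2).continuousAt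
  have hopen : ∀ (a : Sg.A.ι) (z : E 2), z ∈ Sg.A.U a → Sg.A.U a ∈ 𝓝 z :=
    fun a z hz => (Sg.A.isOpen_U a).mem_nhds hz
  have cvec : ∀ (z : E 4), Continuous fun t : ℂ => (![t, z 1, z 2, z 3] : E 4) := by
    intro z
    have := (diff_vec4 (S := univ) (f0 := fun t => t) (f1 := fun _ => z 1) (f2 := fun _ => z 2)
      (f3 := fun _ => z 3) (by fun_prop) (by fun_prop) (by fun_prop) (by fun_prop)).continuousOn
    exact continuousOn_univ.1 this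
  have cvec1 : ∀ (z : E 4), Continuous fun t : ℂ => (![z 0, t, z 2, z 3] : E 4) := by
    intro z
    have := (diff_vec4 (S := univ) (f0 := fun _ => z 0) (f1 := fun t => t) (f2 := fun _ => z 2)
      (f3 := fun _ => z 3) (by fun_prop) (by fun_prop) (by fun_prop) (by fun_prop)).continuousOn
    exact continuousOn_univ.1 this
  have evec : ∀ z : E 4, (![z 0, z 1, z 2, z 3] : E 4) = z := by
    intro z; ext j; fin_cases j <;> rfl
  have c2 : ∀ z : E 4, Continuous fun t : ℂ => (![t, z 1] : E 2) := by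
    intro z
    refine continuous_pi fun j => ?_
    fin_cases j
    · exact continuous_id
    · exact continuous_const
  have c2' : ∀ z : E 4, Continuous fun t : ℂ => (![z 0, t] : E 2) := by
    intro z
    refine continuous_pi fun j => ?_
    fin_cases j
    · exact continuous_const
    · exact continuous_id
  -- points with `z 1 ≠ 0`
  have g1 : ∀ (P : T.X.Pt) (i : Fin 3) (b₁ b₂ : Bool) (z : E 4),
      ![z 0, z 1] ∈ Sg.A.U (Sg.e (P, i)) → z 1 ≠ 0 →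
      F (X.pt (Sg.e (P, i)) b₁ b₂ z) = F' (X.pt (Sg.e (P, i)) b₁ b₂ z) := by
    intro P i b₁ b₂ z hz h1
    have k1 := eq_of_eventually (t := z 0)
      (φ := fun t => F (X.pt (Sg.e (P, i)) b₁ b₂ ![t, z 1, z 2, z 3]))
      (ψ := fun t => F' (X.pt (Sg.e (P, i)) b₁ b₂ ![t, z 1, z 2, z 3]))
      (ContinuousAt.comp (g := fun z => F (X.pt (Sg.e (P, i)) b₁ b₂ z))
        (f := fun t : ℂ => (![t, z 1, z 2, z 3] : E 4)) (hcont F hF _ b₁ b₂ _ hz)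
        (cvec z).continuousAt)
      (ContinuousAt.comp (g := fun z => F' (X.pt (Sg.e (P, i)) b₁ b₂ z))
        (f := fun t : ℂ => (![t, z 1, z 2, z 3] : E 4)) (hcont F' hF' _ b₁ b₂ _ hz)
        (cvec z).continuousAt) ?_
    · simpa only [evec] using k1
    · have u1 : ∀ᶠ t in 𝓝[≠] (z 0), (![t, z 1] : E 2) ∈ Sg.A.U (Sg.e (P, i)) :=
        nhdsWithin_le_nhds ((c2 z).continuousAt.preimage_mem_nhds (hopen _ _ hz))
      -- the coordinate of the curve stays in the disc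
      have u2 : sg i ![z 0, z 1] ∈ ball (0 : ℂ) (Sg.r P) := by
        fin_cases i
        · have hz' : ![z 0, z 1] ∈ Sg.A.U (Sg.e (P, 0)) := hz
          rw [Sg.U_bot] at hz'
          show z 0 ∈ ball (0 : ℂ) (Sg.r P)
          simpa using hz'
        · have hz' : ![z 0, z 1] ∈ Sg.A.U (Sg.e (P, 1)) := hz
          rw [Sg.U_top] at hz'
          show z 0 ∈ ball (0 : ℂ) (Sg.r P)
          simpa using hz'
        · have hz' : ![z 0, z 1] ∈ Sg.A.U (Sg.e (P, 2)) := hz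
          show z 0 * z 1 ∈ ball (0 : ℂ) (Sg.r P)
          by_cases hP : P ∈ T.S ∨ P ∈ T.S'
          · rw [Sg.U_mid P hP] at hz'
            simpa using hz'
          · rw [not_or] at hP
            rw [Sg.U_mid' P hP.1 hP.2] at hz'
            exact hz'.elim
      have u3 : Tendsto (fun t : ℂ => sg i ![t, z 1]) (𝓝[≠] (z 0)) (𝓝[≠] (sg i ![z 0, z 1])) := by
        by_cases hi : i = 2
        · have e1 : (fun t : ℂ => sg i ![t, z 1]) = fun t => t * z 1 := by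
            funext t
            show (if i = 2 then t * z 1 else t) = _
            rw [if_pos hi]
          rw [e1]
          have e2 : sg i ![z 0, z 1] = z 0 * z 1 := congrFun e1 (z 0)
          rw [e2]
          exact ((hasDerivAt_id (z 0)).mul_const (z 1)).tendsto_nhdsNE (by simpa using h1)
        · have e1 : (fun t : ℂ => sg i ![t, z 1]) = fun t => t := by
            funext t
            show (if i = 2 then t * z 1 else t) = _
            rw [if_neg hi]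
          rw [e1]
          have e2 : sg i ![z 0, z 1] = z 0 := congrFun e1 (z 0)
          rw [e2]
          exact tendsto_id
      filter_upwards [u1, u3.eventually (h P _ u2), eventually_ne_zero'] with t h2 h3 h4
      exact g0 P i b₁ b₂ ![t, z 1, z 2, z 3] h2 h4 h1 h3
  -- all points
  have g2 : ∀ (P : T.X.Pt) (i : Fin 3) (b₁ b₂ : Bool) (z : E 4),
      ![z 0, z 1] ∈ Sg.A.U (Sg.e (P, i)) →
      F (X.pt (Sg.e (P, i)) b₁ b₂ z) = F' (X.pt (Sg.e (P, i)) b₁ b₂ z) := by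
    intro P i b₁ b₂ z hz
    have k1 := eq_of_eventually (t := z 1)
      (φ := fun t => F (X.pt (Sg.e (P, i)) b₁ b₂ ![z 0, t, z 2, z 3]))
      (ψ := fun t => F' (X.pt (Sg.e (P, i)) b₁ b₂ ![z 0, t, z 2, z 3]))
      (ContinuousAt.comp (g := fun z => F (X.pt (Sg.e (P, i)) b₁ b₂ z))
        (f := fun t : ℂ => (![z 0, t, z 2, z 3] : E 4)) (hcont F hF _ b₁ b₂ _ hz)
        (cvec1 z).continuousAt)
      (ContinuousAt.comp (g := fun z => F' (X.pt (Sg.e (P, i)) b₁ b₂ z))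
        (f := fun t : ℂ => (![z 0, t, z 2, z 3] : E 4)) (hcont F' hF' _ b₁ b₂ _ hz)
        (cvec1 z).continuousAt) ?_
    · simpa only [evec] using k1
    · have u1 : ∀ᶠ t in 𝓝[≠] (z 1), (![z 0, t] : E 2) ∈ Sg.A.U (Sg.e (P, i)) :=
        nhdsWithin_le_nhds ((c2' z).continuousAt.preimage_mem_nhds (hopen _ _ hz))
      filter_upwards [u1, eventually_ne_zero'] with t h2 h4
      exact g1 P i b₁ b₂ ![z 0, t, z 2, z 3] h2 h4
  funext p
  obtain ⟨j, z, hz, c, rfl⟩ := X.B₂.cover p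
  rw [hF.hom, hF'.hom]
  congr 1
  obtain ⟨a, b₁, b₂, rfl⟩ := X.i_surj j
  obtain ⟨⟨P, i⟩, rfl⟩ := Sg.e.surjective a
  have hz' := X.mem_U.1 hz
  rw [X.γ_eq hz']
  exact g2 P i b₁ b₂ z hz'

/-- the section of a polynomial is unique -/
theorem Rep.unique' (hF : X.B₂.IsSec N F) (hF' : X.B₂.IsSec N F') (h : Rep X N F f)
    (h' : Rep X N F' f) : F = F' := by
  apply IsSec.eq_of_generic hF hF'
  intro P s hs
  filter_upwards [h P s hs, h' P s hs] with σ h1 h2 w x x'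
  obtain ⟨u, rfl⟩ := exists_pow_six w
  rw [h1, h2]

end

end

end Pool.Agent.YTDA


end

/- source: Pool.Agent.YTDA.NoField -/

section

/-!
# There are no invariant holomorphic vector fields on the fourfold
-/

set_option autoImplicit false

namespace Pool.Agent.YTDA

open Complex Set Topology Filter Metric
open Pool.Agent.YTD

noncomputable section

variable {K : Type} [Field K] [Algebra ℂ K] {T : Datum K} {q : ℕ} {D₀ : T.X.Pt →₀ ℤ}
  {An : AnCurve T.X.toCurveOrd}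

/-- There are no holomorphic vector fields on the curve. -/
def NoFieldC (An : AnCurve T.X.toCurveOrd) (r : T.X.Pt → ℝ) : Prop :=
  ∀ κ : T.X.Pt → ℂ → ℂ, (∀ P, DifferentiableOn ℂ (κ P) (ball 0 (r P))) →
    (∀ P Q, ∀ s ∈ ball (0 : ℂ) (r P), ∀ s' ∈ ball (0 : ℂ) (r Q), ∀ f : ℂ → ℂ, AnalyticAt ℂ f s →
      f s = s' → (∀ᶠ u in 𝓝 s, An.c Q (f u) = An.c P u) → κ Q s' = deriv f s * κ P s) →
    ∀ P, ∀ s ∈ ball (0 : ℂ) (r P), κ P s = 0

/-- Holomorphic functions on the curve are constant. -/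
def ConstC (An : AnCurve T.X.toCurveOrd) (r : T.X.Pt → ℝ) : Prop :=
  ∀ f : T.X.Pt → ℂ,
    (∀ P, DifferentiableOn ℂ (fun s => f (An.c P s)) (ball 0 (r P))) → ∀ P Q, f P = f Q

namespace SigModel

variable (M : SigModel T q D₀ An)

open Classical in
/-- The factor between the chart coordinate and the fibre coordinate `w`. -/
def rhoW (P : T.X.Pt) (u : ℂ) : ℂ := if P ∈ T.S' then u else 1

theorem rho_ne {P : T.X.Pt} {u : ℂ} (h : Ok T P u) : rhoW P u ≠ 0 := by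
  unfold rhoW
  split_ifs with h1
  · rcases h with h | h
    · exact h
    · exact absurd h1 h.2
  · exact one_ne_zero

theorem rho_analytic (P : T.X.Pt) (u : ℂ) : AnalyticAt ℂ (rhoW (T := T) P) u := by
  by_cases h : P ∈ T.S'
  · have : rhoW (T := T) P = id := by
      funext v
      exact if_pos h
    rw [this]
    exact analyticAt_id
  · have : rhoW (T := T) P = fun _ => 1 := by
      funext v
      exact if_neg h
    rw [this]
    exact analyticAt_const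

theorem γ_bot_o {P : T.X.Pt} {u : ℂ} (hu : u ∈ ball (0 : ℂ) (M.r P)) (hok : Ok T P u) {x : ℂ}
    (hx : x ≠ 0) : ∃ w c : ℂˣ, (w : ℂ) = rhoW P u * x ∧
      M.A.γ (M.e (P, 0)) ![u, x] = c • M.o P u w := by
  by_cases hP : P ∈ T.S'
  · have hu0 : u ≠ 0 := by
      rcases hok with h | h
      · exact h
      · exact absurd hP h.2
    have h := M.γ_bot' P hP (Units.mk0 u hu0) (by simpa using hu) (Units.mk0 x hx)
    refine ⟨Units.mk0 u hu0 * Units.mk0 x hx, _, ?_, h⟩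
    unfold rhoW
    rw [if_pos hP]
    rfl
  · have h := M.γ_bot P hP u hu (by
      rcases hok with h | h
      · exact Or.inl h
      · exact Or.inr h.1) (Units.mk0 x hx)
    refine ⟨Units.mk0 x hx, _, ?_, h⟩
    unfold rhoW
    rw [if_neg hP, one_mul]
    rfl

end SigModel

namespace TwoP1

variable {M : SigModel T q D₀ An} {α α' : ℤ} (X : TwoP1 M.A M.D α 3 α' (-3))

/-- The transition between the bottom charts. -/
def tb (f ψ : ℂ → ℂ) (z : E 4) : E 4 := ![f (z 0), ψ (z 0) * z 1, z 2, z 3]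

/-- The derivative of the transition. -/
def tb' (f' ψ' ψ₀ x : ℂ) : E 4 →L[ℂ] E 4 :=
  ContinuousLinearMap.pi ![f' • ContinuousLinearMap.proj 0,
    ψ₀ • ContinuousLinearMap.proj 1 + (x * ψ') • ContinuousLinearMap.proj 0,
    ContinuousLinearMap.proj 2, ContinuousLinearMap.proj 3]

theorem hasFDerivAt_tb {f ψ : ℂ → ℂ} {z : E 4} (hf : DifferentiableAt ℂ f (z 0))
    (hψ : DifferentiableAt ℂ ψ (z 0)) :
    HasFDerivAt (tb f ψ) (tb' (deriv f (z 0)) (deriv ψ (z 0)) (ψ (z 0)) (z 1)) z := by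
  unfold tb'
  rw [hasFDerivAt_pi']
  have h0 : ∀ j : Fin 4, HasFDerivAt (fun z : E 4 => z j)
      (ContinuousLinearMap.proj j : E 4 →L[ℂ] ℂ) z := fun j => hasFDerivAt_apply j z
  intro i
  fin_cases i
  · exact hf.hasDerivAt.comp_hasFDerivAt z (h0 0)
  · have h1 := hψ.hasDerivAt.comp_hasFDerivAt z (h0 0)
    have h2 := h1.mul (h0 1)
    refine h2.congr_fderiv ?_
    ext v
    simp
    ring
  · exact h0 2
  · exact h0 3

theorem mk2_congr {y y' : M.Y} {c : ℂˣ} (h : y' = c • y) (z₁ z₂ : ℂ) (b₁ b₂ : Bool) :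
    (P1Y.mk (P1Y.mk y' (vec b₁ z₁)) (vec b₂ z₂) : P1Y X.D₁ α' (-3)) =
      c • P1Y.mk (P1Y.mk y (vec b₁ z₁)) (vec b₂ z₂) := by
  rw [h, P1Y.smul_mk, P1Y.smul_mk]

/-- A point is general if it does not belong to `S ∪ S'`. -/
theorem ok_of {P : T.X.Pt} {s : ℂ} (h1 : An.c P s ∉ T.S) (h2 : An.c P s ∉ T.S') : Ok T P s := by
  by_cases hs : s = 0
  · subst hs
    rw [An.c_zero] at h1 h2
    exact Or.inr ⟨h1, h2⟩
  · exact Or.inl hs

theorem ok_ev {P : T.X.Pt} {s : ℂ} (h : Ok T P s) : ∀ᶠ u in 𝓝 s, Ok T P u := by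
  rcases h with h | h
  · filter_upwards [isOpen_ne.mem_nhds h] with u hu
    exact Or.inl hu
  · exact Eventually.of_forall fun u => Or.inr h

theorem bot_trans {P Q : T.X.Pt} {s : ℂ} (hs : s ∈ ball (0 : ℂ) (M.r P)) {f : ℂ → ℂ}
    (hf : AnalyticAt ℂ f s) (hfs : f s ∈ ball (0 : ℂ) (M.r Q))
    (hc : ∀ᶠ u in 𝓝 s, An.c Q (f u) = An.c P u) (hS : An.c P s ∉ T.S) (hS' : An.c P s ∉ T.S')
    {z : E 4} (hz0 : z 0 = s) (hz1 : z 1 ≠ 0) :
    ∀ᶠ w in 𝓝 z, w ∈ X.B₂.U (X.bt P) ∧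
      tb f (fun u => SigModel.rhoW P u / SigModel.rhoW Q (f u)) w ∈ X.B₂.U (X.bt Q) ∧
      ∃ c : ℂˣ, X.B₂.γ (X.bt Q) (tb f (fun u => SigModel.rhoW P u / SigModel.rhoW Q (f u)) w) =
        c • X.B₂.γ (X.bt P) w := by
  have hcs := hc.self_of_nhds
  have hokP : Ok T P s := ok_of hS hS'
  have hokQ : Ok T Q (f s) := ok_of (by rw [hcs]; exact hS) (by rw [hcs]; exact hS')
  have e1 : ∀ᶠ u in 𝓝 s, Ok T P u := ok_ev hokP
  have e2 : ∀ᶠ u in 𝓝 s, Ok T Q (f u) := hf.continuousAt.eventually (ok_ev hokQ)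
  have e3 : ∀ᶠ u in 𝓝 s, u ∈ ball (0 : ℂ) (M.r P) := isOpen_ball.mem_nhds hs
  have e4 : ∀ᶠ u in 𝓝 s, f u ∈ ball (0 : ℂ) (M.r Q) :=
    hf.continuousAt.eventually (isOpen_ball.mem_nhds hfs)
  have hz0' : Tendsto (fun w : E 4 => w 0) (𝓝 z) (𝓝 s) := by
    rw [← hz0]
    exact (continuous_apply 0).continuousAt
  have e5 : ∀ᶠ w : E 4 in 𝓝 z, w 1 ≠ 0 := (continuous_apply 1).continuousAt.eventually_ne hz1
  filter_upwards [hz0'.eventually e1, hz0'.eventually e2, hz0'.eventually e3, hz0'.eventually e4,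
    hz0'.eventually hc, e5] with w h1 h2 h3 h4 h5 h6
  have hw1 : w ∈ X.B₂.U (X.bt P) := X.mem_bt.2 (by simpa using h3)
  have hw2 : tb f (fun u => SigModel.rhoW P u / SigModel.rhoW Q (f u)) w ∈ X.B₂.U (X.bt Q) :=
    X.mem_bt.2 (by simpa [tb] using h4)
  refine ⟨hw1, hw2, ?_⟩
  have hr1 : SigModel.rhoW P (w 0) ≠ 0 := SigModel.rho_ne h1
  have hr2 : SigModel.rhoW Q (f (w 0)) ≠ 0 := SigModel.rho_ne h2
  have hx' : SigModel.rhoW P (w 0) / SigModel.rhoW Q (f (w 0)) * w 1 ≠ 0 :=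
    mul_ne_zero (div_ne_zero hr1 hr2) h6
  obtain ⟨v, c, hv, hc1⟩ := M.γ_bot_o h3 h1 h6
  obtain ⟨v', c', hv', hc1'⟩ := M.γ_bot_o h4 h2 hx'
  have hvv : v' = v := by
    apply Units.ext
    rw [hv, hv']
    field_simp
  have h7 := M.o_tr P Q (w 0) h3 (f (w 0)) h4 h1 h2 h5.symm v
  rw [hvv, h7, smul_smul] at hc1'
  have h8 : M.o P (w 0) v = c⁻¹ • M.A.γ (M.e (P, 0)) ![w 0, w 1] := by
    rw [hc1, inv_smul_smul]
  rw [h8, smul_smul] at hc1'
  rw [bt, bt, X.γ_eq (X.mem_U.1 hw1), X.γ_eq (X.mem_U.1 hw2)]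
  exact ⟨_, X.mk2_congr hc1' (w 2) (w 3) false false⟩

/-- The transition law of vector fields between the bottom charts. -/
theorem W_bot {P Q : T.X.Pt} {s : ℂ} (hs : s ∈ ball (0 : ℂ) (M.r P)) {f : ℂ → ℂ}
    (hf : AnalyticAt ℂ f s) (hfs : f s ∈ ball (0 : ℂ) (M.r Q))
    (hc : ∀ᶠ u in 𝓝 s, An.c Q (f u) = An.c P u) (hS : An.c P s ∉ T.S) (hS' : An.c P s ∉ T.S')
    (W : X.B₂.HolField) {z : E 4} (hz0 : z 0 = s) (hz1 : z 1 ≠ 0) :
    ∃ ψ₀ ψ' : ℂ, ψ₀ ≠ 0 ∧ W.W (X.bt Q) ![f s, ψ₀ * z 1, z 2, z 3] =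
      ![deriv f s * W.W (X.bt P) z 0, ψ₀ * W.W (X.bt P) z 1 + z 1 * ψ' * W.W (X.bt P) z 0,
        W.W (X.bt P) z 2, W.W (X.bt P) z 3] := by
  set ψ : ℂ → ℂ := fun u => SigModel.rhoW P u / SigModel.rhoW Q (f u) with hψ
  have hcs := hc.self_of_nhds
  have hokP : Ok T P s := ok_of hS hS'
  have hokQ : Ok T Q (f s) := ok_of (by rw [hcs]; exact hS) (by rw [hcs]; exact hS')
  have hψd : DifferentiableAt ℂ ψ s := by
    have h1 : AnalyticAt ℂ ψ s :=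
      (SigModel.rho_analytic P s).div ((SigModel.rho_analytic Q (f s)).comp hf)
        (SigModel.rho_ne hokQ)
    exact h1.differentiableAt
  have h1 := W.trans' (hasFDerivAt_tb (f := f) (ψ := ψ) (z := z)
    (by rw [hz0]; exact hf.differentiableAt) (by rw [hz0]; exact hψd))
    (X.bot_trans hs hf hfs hc hS hS' hz0 hz1)
  refine ⟨ψ s, deriv ψ s, div_ne_zero (SigModel.rho_ne hokP) (SigModel.rho_ne hokQ), ?_⟩
  have h2 : tb f ψ z = ![f s, ψ s * z 1, z 2, z 3] := by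
    unfold tb
    rw [hz0]
  rw [← h2, h1, hz0]
  unfold tb'
  ext j
  fin_cases j <;> simp

variable (M) in
/-- The three symmetries on the bottom charts. -/
structure SymMaps (σ σ₁ σ₂ : T.X.Pt → T.X.Pt) (e₁ e₂ e₃ : P1Y X.D₁ α' (-3) → P1Y X.D₁ α' (-3)) :
    Prop where
  r : ∀ P, M.r (σ P) = M.r P
  r₁ : ∀ P, M.r (σ₁ P) = M.r P
  r₂ : ∀ P, M.r (σ₂ P) = M.r P
  SS : ∀ P, P ∈ T.S' ↔ σ P ∈ T.S
  SS' : ∀ P, P ∈ T.S ↔ σ P ∈ T.S'
  e₁ : ∀ P, ∀ z : E 4, ‖z 0‖ < M.r P → ∃ c : ℂˣ, e₁ (X.pt (M.e (P, 0)) false false z) =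
    c • X.pt (M.e (σ₁ P, 0)) false false ![z 0, z 1, -z 2, -z 3]
  e₂ : ∀ P, ∀ z : E 4, ‖z 0‖ < M.r P → ∃ c : ℂˣ, e₂ (X.pt (M.e (P, 0)) false false z) =
    c • X.pt (M.e (σ₂ P, 0)) true true z
  e₃ : ∀ P, ∀ z : E 4, ‖z 0‖ < M.r P → ∃ c : ℂˣ, e₃ (X.pt (M.e (P, 0)) false false z) =
    c • X.pt (M.e (σ P, 1)) false false ![z 0, z 1, z 3, z 2]

variable {σ σ₁ σ₂ : T.X.Pt → T.X.Pt} {e₁ e₂ e₃ : P1Y X.D₁ α' (-3) → P1Y X.D₁ α' (-3)}

/-- sign change -/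
def tneg : E 4 →L[ℂ] E 4 :=
  ContinuousLinearMap.pi ![ContinuousLinearMap.proj 0, ContinuousLinearMap.proj 1,
    -ContinuousLinearMap.proj 2, -ContinuousLinearMap.proj 3]

theorem tneg_apply (z : E 4) : tneg z = ![z 0, z 1, -z 2, -z 3] := by
  ext j
  fin_cases j <;> simp [tneg]

/-- exchange -/
def tswap : E 4 →L[ℂ] E 4 :=
  ContinuousLinearMap.pi ![ContinuousLinearMap.proj 0, ContinuousLinearMap.proj 1,
    ContinuousLinearMap.proj 3, ContinuousLinearMap.proj 2]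

theorem tswap_apply (z : E 4) : tswap z = ![z 0, z 1, z 3, z 2] := by
  ext j
  fin_cases j <;> simp [tswap]

variable {X}

theorem SymMaps.inv₁ (h : SymMaps M X σ σ₁ σ₂ e₁ e₂ e₃) {W : X.B₂.HolField}
    (hW : PolAtlas.FieldInv X.B₂ e₁ W) (P : T.X.Pt) {z : E 4} (hz : ‖z 0‖ < M.r P) :
    W.W (X.bt (σ₁ P)) ![z 0, z 1, -z 2, -z 3] = tneg (W.W (X.bt P) z) := by
  have h1 : z ∈ X.B₂.U (X.bt P) := X.mem_bt.2 hz
  have h2 : tneg z ∈ X.B₂.U (X.bt (σ₁ P)) := X.mem_bt.2 (by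
    rw [tneg_apply, h.r₁]
    exact hz)
  have h3 := hW (X.bt P) (X.bt (σ₁ P)) z tneg h1 h2 tneg.continuous.continuousAt (by
    filter_upwards [(X.B₂.isOpen_U (X.bt P)).mem_nhds h1] with w hw
    have hw' := X.mem_bt.1 hw
    obtain ⟨c, hc⟩ := h.e₁ P w hw'
    refine ⟨c, ?_⟩
    have h4 : tneg w ∈ X.B₂.U (X.bt (σ₁ P)) := X.mem_bt.2 (by
      rw [tneg_apply, h.r₁]
      exact hw')
    rw [bt, bt, X.γ_eq (X.mem_U.1 hw), X.γ_eq (X.mem_U.1 h4), tneg_apply]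
    exact hc)
  rw [tneg.fderiv, tneg_apply z] at h3
  exact h3

theorem mem_TT {P : T.X.Pt} {b₁ b₂ : Bool} {z : E 4} :
    z ∈ X.B₂.U (X.i (M.e (P, 0)) b₁ b₂) ↔ ‖z 0‖ < M.r P := by
  rw [X.mem_U, M.U_bot]
  rfl

theorem mem_top {P : T.X.Pt} {b₁ b₂ : Bool} {z : E 4} :
    z ∈ X.B₂.U (X.i (M.e (P, 1)) b₁ b₂) ↔ ‖z 0‖ < M.r P := by
  rw [X.mem_U, M.U_top]
  rfl

theorem SymMaps.inv₂ (h : SymMaps M X σ σ₁ σ₂ e₁ e₂ e₃) {W : X.B₂.HolField}
    (hW : PolAtlas.FieldInv X.B₂ e₂ W) (P : T.X.Pt) {z : E 4} (hz : ‖z 0‖ < M.r P) :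
    W.W (X.i (M.e (σ₂ P, 0)) true true) z = W.W (X.bt P) z := by
  have h1 : z ∈ X.B₂.U (X.bt P) := X.mem_bt.2 hz
  have h2 : z ∈ X.B₂.U (X.i (M.e (σ₂ P, 0)) true true) := mem_TT.2 (by
    rw [h.r₂]
    exact hz)
  have h3 := hW (X.bt P) (X.i (M.e (σ₂ P, 0)) true true) z id h1 h2 continuousAt_id (by
    filter_upwards [(X.B₂.isOpen_U (X.bt P)).mem_nhds h1] with w hw
    have hw' := X.mem_bt.1 hw
    obtain ⟨c, hc⟩ := h.e₂ P w hw'
    refine ⟨c, ?_⟩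
    have h4 : w ∈ X.B₂.U (X.i (M.e (σ₂ P, 0)) true true) := mem_TT.2 (by
      rw [h.r₂]
      exact hw')
    rw [bt, X.γ_eq (X.mem_U.1 hw), id, X.γ_eq (X.mem_U.1 h4)]
    exact hc)
  rw [fderiv_id] at h3
  exact h3

theorem SymMaps.inv₃ (h : SymMaps M X σ σ₁ σ₂ e₁ e₂ e₃) {W : X.B₂.HolField}
    (hW : PolAtlas.FieldInv X.B₂ e₃ W) (P : T.X.Pt) {z : E 4} (hz : ‖z 0‖ < M.r P) :
    W.W (X.i (M.e (σ P, 1)) false false) ![z 0, z 1, z 3, z 2] = tswap (W.W (X.bt P) z) := by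
  have h1 : z ∈ X.B₂.U (X.bt P) := X.mem_bt.2 hz
  have h2 : tswap z ∈ X.B₂.U (X.i (M.e (σ P, 1)) false false) := mem_top.2 (by
    rw [tswap_apply, h.r]
    exact hz)
  have h3 := hW (X.bt P) (X.i (M.e (σ P, 1)) false false) z tswap h1 h2
    tswap.continuous.continuousAt (by
    filter_upwards [(X.B₂.isOpen_U (X.bt P)).mem_nhds h1] with w hw
    have hw' := X.mem_bt.1 hw
    obtain ⟨c, hc⟩ := h.e₃ P w hw'
    refine ⟨c, ?_⟩
    have h4 : tswap w ∈ X.B₂.U (X.i (M.e (σ P, 1)) false false) := mem_top.2 (by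
      rw [tswap_apply, h.r]
      exact hw')
    rw [bt, X.γ_eq (X.mem_U.1 hw), X.γ_eq (X.mem_U.1 h4), tswap_apply]
    exact hc)
  rw [tswap.fderiv, tswap_apply z] at h3
  exact h3

/-- The transition to the top chart at a general point. -/
def ti (z : E 4) : E 4 := ![z 0, (z 1)⁻¹, z 2, z 3]

theorem hasFDerivAt_ti {z : E 4} (hz : z 1 ≠ 0) :
    HasFDerivAt ti (ContinuousLinearMap.pi ![ContinuousLinearMap.proj 0,
      (-(z 1 ^ 2)⁻¹) • ContinuousLinearMap.proj 1, ContinuousLinearMap.proj 2,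
      ContinuousLinearMap.proj 3] : E 4 →L[ℂ] E 4) z := by
  rw [hasFDerivAt_pi']
  have h0 : ∀ j : Fin 4, HasFDerivAt (fun z : E 4 => z j)
      (ContinuousLinearMap.proj j : E 4 →L[ℂ] ℂ) z := fun j => hasFDerivAt_apply j z
  intro i
  fin_cases i
  · exact h0 0
  · exact (hasDerivAt_inv hz).comp_hasFDerivAt z (h0 1)
  · exact h0 2
  · exact h0 3

variable (X) in
theorem W_top {Q : T.X.Pt} (hS : Q ∉ T.S) (hS' : Q ∉ T.S') (W : X.B₂.HolField) {z : E 4}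
    (hz : ‖z 0‖ < M.r Q) (hz1 : z 1 ≠ 0) :
    W.W (X.i (M.e (Q, 1)) false false) ![z 0, (z 1)⁻¹, z 2, z 3] =
      ![W.W (X.bt Q) z 0, -W.W (X.bt Q) z 1 / z 1 ^ 2, W.W (X.bt Q) z 2, W.W (X.bt Q) z 3] := by
  have hev : ∀ᶠ w in 𝓝 z, w ∈ X.B₂.U (X.bt Q) ∧ ti w ∈ X.B₂.U (X.i (M.e (Q, 1)) false false) ∧
      ∃ c : ℂˣ, X.B₂.γ (X.i (M.e (Q, 1)) false false) (ti w) = c • X.B₂.γ (X.bt Q) w := by
    have o1 : ∀ᶠ w : E 4 in 𝓝 z, w ∈ X.B₂.U (X.bt Q) :=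
      (X.B₂.isOpen_U _).mem_nhds (X.mem_bt.2 hz)
    have o2 : ∀ᶠ w : E 4 in 𝓝 z, w 1 ≠ 0 :=
      (continuous_apply 1).continuousAt.eventually_ne hz1
    filter_upwards [o1, o2] with w hw hw1
    have hw0 : ‖w 0‖ < M.r Q := X.mem_bt.1 hw
    have hw0' : w 0 ∈ ball (0 : ℂ) (M.r Q) := by simpa using hw0
    have hw2 : ti w ∈ X.B₂.U (X.i (M.e (Q, 1)) false false) := mem_top.2 hw0
    refine ⟨hw, hw2, ?_⟩
    have h1 := M.γ_top Q hS (w 0) hw0' (Or.inr hS') (Units.mk0 (w 1) hw1)⁻¹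
    have h2 := M.γ_bot Q hS' (w 0) hw0' (Or.inr hS) (Units.mk0 (w 1) hw1)
    rw [inv_inv] at h1
    have h3 : M.o Q (w 0) (Units.mk0 (w 1) hw1) =
        (Units.mk0 (w 1) hw1 ^ (5 * (q : ℤ)))⁻¹ • M.A.γ (M.e (Q, 0)) ![w 0, w 1] := by
      rw [eq_inv_smul_iff]
      exact h2.symm
    rw [h3, smul_smul] at h1
    rw [bt, X.γ_eq (X.mem_U.1 hw), X.γ_eq (X.mem_U.1 hw2)]
    have h4 : (![ti w 0, ti w 1] : E 2) = ![w 0, (((Units.mk0 (w 1) hw1)⁻¹ : ℂˣ) : ℂ)] := by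
      rw [Units.val_inv_eq_inv_val, Units.val_mk0]
      rfl
    rw [← h4] at h1
    exact ⟨_, X.mk2_congr h1 (w 2) (w 3) false false⟩
  have h1 := W.trans' (hasFDerivAt_ti hz1) hev
  have h2 : ti z = ![z 0, (z 1)⁻¹, z 2, z 3] := rfl
  rw [← h2, h1]
  ext j
  fin_cases j <;> simp
  ring

variable (X) in
/-- A vector field vanishing on the bottom charts vanishes. -/
theorem zero_all (W : X.B₂.HolField) (h : ∀ P, ∀ z ∈ X.B₂.U (X.bt P), W.W (X.bt P) z = 0) :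
    ∀ a, ∀ z ∈ X.B₂.U a, W.W a z = 0 := by
  intro a
  obtain ⟨a, b₁, b₂, rfl⟩ := X.i_surj a
  obtain ⟨⟨P, j⟩, rfl⟩ := M.e.surjective a
  have key : ∀ z ∈ X.B₂.U (X.i (M.e (P, j)) b₁ b₂), (∀ i, z i ≠ 0) →
      W.W (X.i (M.e (P, j)) b₁ b₂) z = 0 := by
    intro z hz hne
    have hz' := X.mem_U.1 hz
    obtain ⟨z', hz1, c, hc⟩ := X.exists_pt
      (M.gd hz' (hne 0) (hne 1)) b₁ b₂ (hne 2) (hne 3)
    have hz2 : z' ∈ X.B₂.U (X.bt P) := X.mem_U.2 hz1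
    have e : X.B₂.γ (X.i (M.e (P, j)) b₁ b₂) z = c • X.B₂.γ (X.bt P) z' := by
      rw [X.γ_eq hz', bt, X.γ_eq hz1]
      exact hc
    have h1 := W.trans _ _ z' (PolAtlas.mem_O_mk hz2 hz e)
    rw [PolAtlas.τ_eq_of hz2 hz e, h P z' hz2, map_zero] at h1
    exact h1
  intro z hz
  have hU : X.B₂.U (X.i (M.e (P, j)) b₁ b₂) ∈ 𝓝 z := (X.B₂.isOpen_U _).mem_nhds hz
  have c1 : ContinuousAt (W.W (X.i (M.e (P, j)) b₁ b₂)) z :=
    ((W.hol _).differentiableAt hU).continuousAt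
  have hne : (𝓝[{z : E 4 | ∀ i, z i ≠ 0}] z).NeBot :=
    mem_closure_iff_nhdsWithin_neBot.1 ((PolAtlas.dense_nz 4) z)
  have hev : ∀ᶠ w in 𝓝[{z : E 4 | ∀ i, z i ≠ 0}] z,
      W.W (X.i (M.e (P, j)) b₁ b₂) w = 0 := by
    filter_upwards [self_mem_nhdsWithin, mem_nhdsWithin_of_mem_nhds hU] with w h1 h2
    exact key w h2 h1
  have t1 := c1.tendsto.mono_left (nhdsWithin_le_nhds (s := {z : E 4 | ∀ i, z i ≠ 0}))
  have t2 : Tendsto (fun _ : E 4 => (0 : E 4)) (𝓝[{z : E 4 | ∀ i, z i ≠ 0}] z) (𝓝 0) :=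
    tendsto_const_nhds
  exact tendsto_nhds_unique_of_eventuallyEq t1 t2 hev

/-- There is no invariant vector field on the fourfold. -/
theorem noField (hconst : ConstC An M.r) (hnof : NoFieldC An M.r)
    (h : SymMaps M X σ σ₁ σ₂ e₁ e₂ e₃) (W : X.B₂.HolField)
    (h₁ : PolAtlas.FieldInv X.B₂ e₁ W) (h₂ : PolAtlas.FieldInv X.B₂ e₂ W)
    (h₃ : PolAtlas.FieldInv X.B₂ e₃ W) : ∀ a, ∀ z ∈ X.B₂.U a, W.W a z = 0 := by
  apply X.zero_all W
  -- the structure of the field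
  have hE : ∀ P, ∀ z ∈ X.B₂.U (X.bt P), ∀ z' ∈ X.B₂.U (X.bt (σ₁ P)), z' 2 = -z 2 →
      z' 3 = -z 3 → z' 0 = z 0 → z' 1 = z 1 → W.W (X.bt (σ₁ P)) z' 2 = -W.W (X.bt P) z 2 ∧
        W.W (X.bt (σ₁ P)) z' 3 = -W.W (X.bt P) z 3 := by
    intro P z hz z' hz' e2 e3 e0 e1
    have e : z' = ![z 0, z 1, -z 2, -z 3] := by
      ext j
      fin_cases j
      · exact e0
      · exact e1
      · exact e2
      · exact e3
    have h4 := h.inv₁ h₁ P (X.mem_bt.1 hz)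
    rw [e, h4, tneg_apply]
    exact ⟨rfl, rfl⟩
  have hs : ∀ (P : T.X.Pt) (s : ℂ), ‖s‖ < M.r P → ∃ κ e p₁ q₁ : ℂ, ∀ w z₁ z₂,
      W.W (X.bt P) ![s, w, z₁, z₂] = ![κ, w * e, p₁ * z₁, q₁ * z₂] := fun P s hs =>
    X.sym_main hconst W σ₁ hE h.r₁ P hs
  choose! κ e p₁ q₁ hform using hs
  -- the components `p₁`, `q₁` vanish
  have hpq : ∀ P s, ‖s‖ < M.r P → p₁ P s = 0 ∧ q₁ P s = 0 := by
    intro P s hs
    have hs2 : ‖s‖ < M.r (σ₂ P) := by
      rw [h.r₂]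
      exact hs
    have a1 := h.inv₂ h₂ P (z := ![s, 0, 1, 1]) hs
    rw [hform P _ hs] at a1
    have hU : (![(![s, 0, 1, 1] : E 4) 0, (![s, 0, 1, 1] : E 4) 1] : E 2) ∈
        M.A.U (M.e (σ₂ P, 0)) := M.mem_bot hs2
    have b1 := X.W_t2 W (M.k_bot' (σ₂ P)) false (z := ![s, 0, 1, 1]) hU one_ne_zero
    have b2 := X.W_t1 W (M.k_bot' (σ₂ P)) true (z := ![s, 0, 1, 1]) hU one_ne_zero
    have c1 : (![(![s, 0, 1, 1] : E 4) 0, (![s, 0, 1, 1] : E 4) 1 / (![s, 0, 1, 1] : E 4) 3 ^ 3,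
        (![s, 0, 1, 1] : E 4) 2, ((![s, 0, 1, 1] : E 4) 3)⁻¹] : E 4) = ![s, 0, 1, 1] := by
      ext j
      fin_cases j <;> simp
    have c2 : (![(![s, 0, 1, 1] : E 4) 0, (![s, 0, 1, 1] : E 4) 2 ^ 3 * (![s, 0, 1, 1] : E 4) 1,
        ((![s, 0, 1, 1] : E 4) 2)⁻¹, (![s, 0, 1, 1] : E 4) 3] : E 4) = ![s, 0, 1, 1] := by
      ext j
      fin_cases j <;> simp
    rw [c1] at b1
    rw [c2, a1] at b2
    have d2 := X.const_last hconst W 2 (Or.inl rfl) (σ₂ P) P hs2 hs 0 0 1 1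
    have d3 := X.const_last hconst W 3 (Or.inr rfl) (σ₂ P) P hs2 hs 0 0 1 1
    rw [hform P _ hs] at d2 d3
    have f2 := congrFun b2 2
    have f3 := congrFun b2 3
    have g2 := congrFun b1 2
    have g3 := congrFun b1 3
    have k2 : p₁ P s * 1 = -W.W (X.i (M.e (σ₂ P, 0)) false true) ![s, 0, 1, 1] 2 / 1 ^ 2 := f2
    have k3 : q₁ P s * 1 = W.W (X.i (M.e (σ₂ P, 0)) false true) ![s, 0, 1, 1] 3 := f3
    have l2 : W.W (X.i (M.e (σ₂ P, 0)) false true) ![s, 0, 1, 1] 2 =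
      W.W (X.bt (σ₂ P)) ![s, 0, 1, 1] 2 := g2
    have l3 : W.W (X.i (M.e (σ₂ P, 0)) false true) ![s, 0, 1, 1] 3 =
      -W.W (X.bt (σ₂ P)) ![s, 0, 1, 1] 3 / 1 ^ 2 := g3
    have m2 : W.W (X.bt (σ₂ P)) ![s, 0, 1, 1] 2 = p₁ P s * 1 := d2
    have m3 : W.W (X.bt (σ₂ P)) ![s, 0, 1, 1] 3 = q₁ P s * 1 := d3
    rw [l2, m2] at k2
    rw [l3, m3] at k3
    constructor
    · linear_combination k2 / 2
    · linear_combination k3 / 2
  -- the component along the curve vanishes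
  have hκ : ∀ P, ∀ s ∈ ball (0 : ℂ) (M.r P), κ P s = 0 := by
    apply hnof
    · intro P
      have h4 : DifferentiableOn ℂ (fun s : ℂ => W.W (X.bt P) ![s, 0, 0, 0] 0)
          (ball 0 (M.r P)) := by
        intro s hs
        have hU : (![s, 0, 0, 0] : E 4) ∈ X.B₂.U (X.bt P) := X.mem_bt.2 (by simpa using hs)
        have d1 : DifferentiableAt ℂ (W.W (X.bt P)) ![s, 0, 0, 0] :=
          (W.hol _).differentiableAt ((X.B₂.isOpen_U _).mem_nhds hU)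
        have d2 : DifferentiableAt ℂ (fun s : ℂ => (![s, 0, 0, 0] : E 4)) s := by
          rw [differentiableAt_pi]
          intro k
          fin_cases k <;> simp
        have d3 := d1.comp s (f := fun s : ℂ => (![s, 0, 0, 0] : E 4)) d2
        exact (differentiableAt_pi.1 d3 0).differentiableWithinAt
      refine h4.congr fun s hs => ?_
      rw [hform P _ (by simpa using hs)]
      rfl
    · intro P Q s hs s' hs' f hf hfs hc
      subst hfs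
      have hsn : ‖s‖ < M.r P := by simpa using hs
      have hsn' : ‖f s‖ < M.r Q := by simpa using hs'
      by_cases hSS : An.c P s ∉ T.S ∧ An.c P s ∉ T.S'
      · obtain ⟨ψ₀, ψ', hψ, h5⟩ := X.W_bot hs hf hs' hc hSS.1 hSS.2 W (z := ![s, 1, 0, 0]) rfl
          one_ne_zero
        have h6 := congrFun h5 0
        have h7 : W.W (X.bt Q) ![f s, ψ₀ * 1, 0, 0] 0 =
          deriv f s * W.W (X.bt P) ![s, 1, 0, 0] 0 := h6
        rw [hform Q _ hsn', hform P _ hsn] at h7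
        exact h7
      · -- special points
        have hs0 : s = 0 := by
          by_contra hs0
          exact hSS ⟨(M.iso P s hs hs0).1, (M.iso P s hs hs0).2.1⟩
        have hcs := hc.self_of_nhds
        have hs0' : f s = 0 := by
          by_contra hs0'
          have := M.iso Q (f s) hs' hs0'
          rw [hcs] at this
          exact hSS ⟨this.1, this.2.1⟩
        have hPQ : Q = P := by
          rw [hs0', An.c_zero, hs0, An.c_zero] at hcs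
          exact hcs
        subst hPQ
        have hid : f =ᶠ[𝓝 s] id := by
          have e1 : ∀ᶠ u in 𝓝 s, u ∈ ball (0 : ℂ) (An.r Q) :=
            isOpen_ball.mem_nhds (ball_subset_ball (M.r_le Q) hs)
          have e2 : ∀ᶠ u in 𝓝 s, f u ∈ ball (0 : ℂ) (An.r Q) :=
            hf.continuousAt.eventually (isOpen_ball.mem_nhds (ball_subset_ball (M.r_le Q) hs'))
          filter_upwards [hc, e1, e2] with u h1 h2 h3
          exact An.inj Q h3 h2 h1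
        rw [hid.deriv_eq, hs0', hs0, deriv_id, one_mul]
  -- the component along the fibres of `Σ`
  have hform' : ∀ (P : T.X.Pt) {s : ℂ}, ‖s‖ < M.r P → ∀ w z₁ z₂,
      W.W (X.bt P) ![s, w, z₁, z₂] = ![0, w * e P s, 0, 0] := by
    intro P s hs w z₁ z₂
    rw [hform P _ hs, hκ P s (by simpa using hs), (hpq P s hs).1, (hpq P s hs).2, zero_mul,
      zero_mul]
  have he1 : ∀ P Q : T.X.Pt, ∀ s ∈ ball (0 : ℂ) (M.r P), ∀ s' ∈ ball (0 : ℂ) (M.r Q),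
      An.c P s = An.c Q s' → e Q s' = e P s := by
    intro P Q s hs s' hs' hcc
    have hsn : ‖s‖ < M.r P := by simpa using hs
    have hsn' : ‖s'‖ < M.r Q := by simpa using hs'
    by_cases hSS : An.c P s ∉ T.S ∧ An.c P s ∉ T.S'
    · obtain ⟨f, hf, hfs, -, hc, -⟩ := An.tr P Q s (ball_subset_ball (M.r_le P) hs) s'
        (ball_subset_ball (M.r_le Q) hs') hcc
      subst hfs
      obtain ⟨ψ₀, ψ', hψ, h5⟩ := X.W_bot hs hf hs' hc hSS.1 hSS.2 W (z := ![s, 1, 0, 0]) rfl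
        one_ne_zero
      have h6 := congrFun h5 1
      have h7 : W.W (X.bt Q) ![f s, ψ₀ * 1, 0, 0] 1 = ψ₀ * W.W (X.bt P) ![s, 1, 0, 0] 1 +
        1 * ψ' * W.W (X.bt P) ![s, 1, 0, 0] 0 := h6
      rw [hform' Q hsn', hform' P hsn] at h7
      have h8 : ψ₀ * 1 * e Q (f s) = ψ₀ * (1 * e P s) + 1 * ψ' * 0 := h7
      apply mul_left_cancel₀ hψ
      linear_combination h8
    · have hs0 : s = 0 := by
        by_contra hs0
        exact hSS ⟨(M.iso P s hs hs0).1, (M.iso P s hs hs0).2.1⟩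
      have hs0' : s' = 0 := by
        by_contra hs0'
        have := M.iso Q s' hs' hs0'
        rw [← hcc] at this
        exact hSS ⟨this.1, this.2.1⟩
      have hPQ : Q = P := by
        rw [hs0', An.c_zero, hs0, An.c_zero] at hcc
        exact hcc.symm
      rw [hPQ, hs0, hs0']
  have he2 : ∀ (P : T.X.Pt), ∀ s ∈ ball (0 : ℂ) (M.r P), e P s = e (An.c P s) 0 := by
    intro P s hs
    symm
    apply he1 P (An.c P s) s hs 0 (mem_ball_self (M.r_pos _))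
    rw [An.c_zero]
  have he3 : ∀ P Q : T.X.Pt, e P 0 = e Q 0 := by
    apply hconst (fun P => e P 0)
    intro P
    have h4 : DifferentiableOn ℂ (fun s : ℂ => W.W (X.bt P) ![s, 1, 0, 0] 1)
        (ball 0 (M.r P)) := by
      intro s hs
      have hU : (![s, 1, 0, 0] : E 4) ∈ X.B₂.U (X.bt P) := X.mem_bt.2 (by simpa using hs)
      have d1 : DifferentiableAt ℂ (W.W (X.bt P)) ![s, 1, 0, 0] :=
        (W.hol _).differentiableAt ((X.B₂.isOpen_U _).mem_nhds hU)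
      have d2 : DifferentiableAt ℂ (fun s : ℂ => (![s, 1, 0, 0] : E 4)) s := by
        rw [differentiableAt_pi]
        intro k
        fin_cases k <;> simp
      have d3 := d1.comp s (f := fun s : ℂ => (![s, 1, 0, 0] : E 4)) d2
      exact (differentiableAt_pi.1 d3 1).differentiableWithinAt
    refine h4.congr fun s hs => ?_
    rw [hform' P (by simpa using hs), ← he2 P s hs]
    show e P s = 1 * e P s
    rw [one_mul]
  -- the exchange of top and bottom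
  have hne : ∃ P₀ : T.X.Pt, P₀ ∈ T.S := by
    have h4 : 0 < T.S.card := by
      rw [T.card_S]
      have := T.t_pos
      positivity
    exact Finset.card_pos.1 h4
  obtain ⟨P₀, -⟩ := hne
  have hr0 := M.r_pos P₀
  have hs₀ : (((M.r P₀ / 2 : ℝ) : ℂ)) ∈ ball (0 : ℂ) (M.r P₀) := by
    rw [mem_ball, dist_zero_right, Complex.norm_real, Real.norm_eq_abs, abs_of_pos (by positivity)]
    linarith
  have hs₀' : ((M.r P₀ / 2 : ℝ) : ℂ) ≠ 0 := by
    exact_mod_cast (by positivity : M.r P₀ / 2 ≠ 0)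
  obtain ⟨i1, i2, -⟩ := M.iso P₀ _ hs₀ hs₀'
  set R := An.c P₀ ((M.r P₀ / 2 : ℝ) : ℂ) with hR
  have j1 : σ R ∉ T.S := fun h4 => i2 ((h.SS R).2 h4)
  have j2 : σ R ∉ T.S' := fun h4 => i1 ((h.SS' R).2 h4)
  have hez : e R 0 = 0 := by
    have a1 := h.inv₃ h₃ R (z := ![0, 1, 0, 0]) (by simpa using M.r_pos R)
    have a2 := X.W_top j1 j2 W (z := ![0, 1, 0, 0]) (by simpa using M.r_pos (σ R)) one_ne_zero
    have e0 : ‖(0 : ℂ)‖ < M.r R := by simpa using M.r_pos R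
    have e0' : ‖(0 : ℂ)‖ < M.r (σ R) := by simpa using M.r_pos (σ R)
    rw [hform' R e0] at a1
    rw [hform' (σ R) e0'] at a2
    have a3 := congrFun a1 1
    have a4 := congrFun a2 1
    have a5 : W.W (X.i (M.e (σ R, 1)) false false) ![0, 1, 0, 0] 1 = 1 * e R 0 := by
      rw [tswap_apply] at a3
      exact a3
    have a6 : W.W (X.i (M.e (σ R, 1)) false false) ![0, 1⁻¹, 0, 0] 1 =
      -(1 * e (σ R) 0) / 1 ^ 2 := a4
    rw [inv_one, a5, he3 (σ R) R] at a6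
    linear_combination a6 / 2
  intro P z hz
  have hz0 := X.mem_bt.1 hz
  have e1 : z = ![z 0, z 1, z 2, z 3] := by
    ext j
    fin_cases j <;> rfl
  rw [e1, hform' P hz0, he2 P (z 0) (by simpa using hz0), he3 _ R, hez, mul_zero]
  ext j
  fin_cases j <;> rfl

end TwoP1

end

end Pool.Agent.YTDA


end

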