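import Pool.Agent.YTDM.P18
import Pool.Agent.YTDM.P38

/- source: Pool.Agent.YTDA.Loc -/

section

/-!
From local parametrisations by germs to an analytic structure on a curve.
-/

namespace Pool.Agent.YTDA

open Complex Set Topology Metric Filter
open Pool.Agent.YTD Pool.Agent.YTD.Hyp

noncomputable section

variable {K : Type} [Field K] [Algebra ℂ K]

/-- Parametrisations of a curve by discs. -/
structure LocSt (X : CurveP lam K) where
  r : X.Pt → ℝ
  r_pos : ∀ P, 0 < r P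
  fn : X.Pt → K → ℂ → ℂ
  fn_mero : ∀ P z, MeromorphicOn (fn P z) (ball 0 (r P))
  fn_germ : ∀ P z, fn P z =ᶠ[𝓝[≠] 0] (X.phi P z).rep
  c : X.Pt → ℂ → X.Pt
  c_zero : ∀ P, c P 0 = P
  coh : ∀ P, ∀ s ∈ ball 0 (r P), ∃ κ, LB κ 0 s ∧
    ∀ z, (X.phi (c P s) z).rep =ᶠ[𝓝[≠] 0] fun t => fn P z (κ t)
  cpt : ∀ ρ : X.Pt → ℝ, (∀ P, 0 < ρ P) →
    ∃ F : Finset X.Pt, ∀ Q, ∃ P ∈ F, ∃ s, ‖s‖ < ρ P ∧ c P s = Q

/-- Functions separate points. -/
def SepL (X : CurveOrd K) : Prop :=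
  ∀ P Q : X.Pt, P ≠ Q → ∃ z : K, z ≠ 0 ∧ X.ord P z < 0 ∧ 0 ≤ X.ord Q z

/-- Existence of uniformizers. -/
def Unif (X : CurveOrd K) : Prop := ∀ P : X.Pt, ∃ z : K, z ≠ 0 ∧ X.ord P z = 1

theorem SepL.eq_of_ord {X : CurveOrd K} (h : SepL X) {P Q : X.Pt}
    (h' : ∀ z : K, z ≠ 0 → X.ord P z = X.ord Q z) : P = Q := by
  by_contra hPQ
  obtain ⟨z, hz, h1, h2⟩ := h P Q hPQ
  rw [h' z hz] at h1
  linarith

theorem LB.eventually_punct {κ : ℂ → ℂ} {s : ℂ} (h : LB κ 0 s) {ε : ℝ} (hs : ‖s‖ < ε) :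
    ∀ᶠ t in 𝓝[≠] 0, κ t ≠ 0 ∧ ‖κ t‖ < ε := by
  have h1 : ∀ᶠ t in 𝓝[≠] (0 : ℂ), ‖κ t‖ < ε := by
    have h2 : ∀ᶠ t in 𝓝 (0 : ℂ), κ t ∈ ball (0 : ℂ) ε := h.tendsto (isOpen_ball.mem_nhds (by
      rw [mem_ball_zero_iff]
      exact hs))
    filter_upwards [h2.filter_mono nhdsWithin_le_nhds] with t ht
    rwa [mem_ball_zero_iff] at ht
  have h2 : ∀ᶠ t in 𝓝[≠] (0 : ℂ), κ t ≠ 0 := by
    by_cases hs0 : s = 0
    · subst hs0
      exact h.tendsto_ne self_mem_nhdsWithin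
    · have h3 : ∀ᶠ t in 𝓝 (0 : ℂ), κ t ∈ ({0} : Set ℂ)ᶜ :=
        h.tendsto (isOpen_compl_singleton.mem_nhds hs0)
      exact h3.filter_mono nhdsWithin_le_nhds
  exact h2.and h1

namespace LocSt

variable {X : CurveP lam K} (S : LocSt X)

theorem zero_mem (P : X.Pt) : (0 : ℂ) ∈ ball (0 : ℂ) (S.r P) := mem_ball_self (S.r_pos P)

theorem fn_add (P : X.Pt) (z w : K) : ∀ s ∈ ball 0 (S.r P),
    S.fn P (z + w) =ᶠ[𝓝[≠] s] S.fn P z + S.fn P w := by
  apply mero_identity_ball (S.fn_mero P _) ((S.fn_mero P z).add (S.fn_mero P w))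
  have h1 := S.fn_germ P (z + w)
  rw [map_add] at h1
  filter_upwards [h1, Germ.rep_add (X.phi P z) (X.phi P w), S.fn_germ P z, S.fn_germ P w]
    with t h1 h2 h3 h4
  rw [h1, h2, Pi.add_apply, h3, h4]

theorem fn_mul (P : X.Pt) (z w : K) : ∀ s ∈ ball 0 (S.r P),
    S.fn P (z * w) =ᶠ[𝓝[≠] s] S.fn P z * S.fn P w := by
  apply mero_identity_ball (S.fn_mero P _) ((S.fn_mero P z).mul (S.fn_mero P w))
  have h1 := S.fn_germ P (z * w)
  rw [map_mul] at h1
  filter_upwards [h1, Germ.rep_mul (X.phi P z) (X.phi P w), S.fn_germ P z, S.fn_germ P w]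
    with t h1 h2 h3 h4
  rw [h1, h2, Pi.mul_apply, h3, h4]

theorem fn_const (P : X.Pt) (a : ℂ) : ∀ s ∈ ball 0 (S.r P),
    S.fn P (algebraMap ℂ K a) =ᶠ[𝓝[≠] s] fun _ => a := by
  apply mero_identity_ball (S.fn_mero P _) (MeromorphicOn.const a)
  have h1 := S.fn_germ P (algebraMap ℂ K a)
  rw [AlgHom.commutes] at h1
  exact h1.trans (Germ.rep_const a)

theorem order (P : X.Pt) {z : K} (hz : z ≠ 0) : ∀ s ∈ ball 0 (S.r P),
    meromorphicOrderAt (S.fn P z) s = ((X.toOrd.ord (S.c P s) z : ℤ) : WithTop ℤ) := by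
  intro s hs
  obtain ⟨κ, h1, h2⟩ := S.coh P s hs
  rw [← h1.order, ← meromorphicOrderAt_congr (h2 z)]
  exact Germ.ord_eq (X.phi_ne _ hz)

theorem exists_inj (hU : Unif X.toOrd) (P : X.Pt) :
    ∃ ε > 0, ε ≤ S.r P ∧ InjOn (S.c P) (ball 0 ε) := by
  obtain ⟨z, hz, hz1⟩ := hU P
  have h1 := S.order P hz 0 (S.zero_mem P)
  rw [S.c_zero, hz1, meromorphicOrderAt_eq_int_iff (S.fn_mero P z 0 (S.zero_mem P))] at h1
  obtain ⟨g, hg, hg0, hfg⟩ := h1
  let G : ℂ → ℂ := fun t => t * g t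
  have hG : AnalyticAt ℂ G 0 := analyticAt_id.mul hg
  have hd : HasDerivAt G (g 0) 0 := by
    have h1 := (hasDerivAt_id (0 : ℂ)).mul hg.differentiableAt.hasDerivAt
    have h2 : (1 : ℂ) * g 0 + id (0 : ℂ) * deriv g 0 = g 0 := by simp
    rw [h2] at h1
    exact h1
  have hLB : LB G 0 0 := ⟨hG, by simp [G], by rw [hd.deriv]; exact hg0⟩
  obtain ⟨μ, _, hμ, _⟩ := hLB.exists_inv
  have hfG : ∀ᶠ t in 𝓝[≠] (0 : ℂ), S.fn P z t = G t := by
    filter_upwards [hfg] with t ht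
    rw [ht, sub_zero, zpow_one]
    rfl
  rw [eventually_nhdsWithin_iff] at hfG
  have hc : ∀ᶠ t in 𝓝 (0 : ℂ), ContinuousAt G t :=
    hG.eventually_analyticAt.mono fun t ht => ht.continuousAt
  obtain ⟨δ, hδ, hb⟩ := Metric.eventually_nhds_iff_ball.1 (hμ.and (hfG.and hc))
  refine ⟨min δ (S.r P), lt_min hδ (S.r_pos P), min_le_right _ _, ?_⟩
  intro s hs s' hs' hss
  have m1 : s ∈ ball (0 : ℂ) (S.r P) := ball_subset_ball (min_le_right _ _) hs
  have m2 : s' ∈ ball (0 : ℂ) (S.r P) := ball_subset_ball (min_le_right _ _) hs'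
  have n1 : s ∈ ball (0 : ℂ) δ := ball_subset_ball (min_le_left _ _) hs
  have n2 : s' ∈ ball (0 : ℂ) δ := ball_subset_ball (min_le_left _ _) hs'
  obtain ⟨κ, a1, a2⟩ := S.coh P s m1
  obtain ⟨κ', b1, b2⟩ := S.coh P s' m2
  have key : ∀ᶠ t in 𝓝[≠] (0 : ℂ), G (κ t) = G (κ' t) := by
    have b2' := b2 z
    rw [← hss] at b2'
    filter_upwards [a2 z, b2', a1.eventually_punct (mem_ball_zero_iff.1 n1),
      b1.eventually_punct (mem_ball_zero_iff.1 n2)] with t t1 t2 t3 t4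
    rw [← (hb (κ t) (by rw [mem_ball_zero_iff]; exact t3.2)).2.1 t3.1,
      ← (hb (κ' t) (by rw [mem_ball_zero_iff]; exact t4.2)).2.1 t4.1, ← t1, ← t2]
  have l1 : Tendsto (fun t => G (κ t)) (𝓝[≠] 0) (𝓝 (G s)) :=
    ((hb s n1).2.2.tendsto.comp a1.tendsto).mono_left nhdsWithin_le_nhds
  have l2 : Tendsto (fun t => G (κ' t)) (𝓝[≠] 0) (𝓝 (G s')) :=
    ((hb s' n2).2.2.tendsto.comp b1.tendsto).mono_left nhdsWithin_le_nhds
  have h5 : G s = G s' := tendsto_nhds_unique (l1.congr' key) l2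
  rw [← (hb s n1).1, ← (hb s' n2).1, h5]

theorem tr (hS : SepL X.toOrd) (P Q : X.Pt) (s : ℂ) (hs : s ∈ ball 0 (S.r P)) (s' : ℂ)
    (hs' : s' ∈ ball 0 (S.r Q)) (h : S.c P s = S.c Q s') : ∃ f : ℂ → ℂ, LB f s s' ∧
      (∀ᶠ σ in 𝓝 s, S.c Q (f σ) = S.c P σ) ∧
      ∀ z, (fun σ => S.fn Q z (f σ)) =ᶠ[𝓝[≠] s] S.fn P z := by
  obtain ⟨κ, a1, a2⟩ := S.coh P s hs
  obtain ⟨κ', b1, b2⟩ := S.coh Q s' hs'
  obtain ⟨μ, c1, _, c3⟩ := a1.exists_inv
  have hf : LB (fun σ => κ' (μ σ)) s s' := c1.comp b1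
  have key : ∀ z, (fun σ => S.fn Q z (κ' (μ σ))) =ᶠ[𝓝[≠] s] S.fn P z := by
    intro z
    have b2' := b2 z
    rw [← h] at b2'
    have h1 := c1.tendsto_ne.eventually (b2'.symm.trans (a2 z))
    filter_upwards [h1, c3.filter_mono nhdsWithin_le_nhds] with σ t1 t2
    rw [t1, t2]
  refine ⟨fun σ => κ' (μ σ), hf, ?_, key⟩
  have e1 : ∀ᶠ σ in 𝓝 s, AnalyticAt ℂ (fun σ => κ' (μ σ)) σ := hf.an.eventually_analyticAt
  have e2 : ∀ᶠ σ in 𝓝 s, deriv (fun σ => κ' (μ σ)) σ ≠ 0 :=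
    hf.an.deriv.continuousAt.eventually_ne hf.der
  have e3 : ∀ᶠ σ in 𝓝 s, κ' (μ σ) ∈ ball (0 : ℂ) (S.r Q) :=
    hf.tendsto (isOpen_ball.mem_nhds hs')
  have e4 : ∀ᶠ σ in 𝓝 s, σ ∈ ball (0 : ℂ) (S.r P) := isOpen_ball.mem_nhds hs
  obtain ⟨δ, hδ, hb⟩ := Metric.eventually_nhds_iff_ball.1 (e1.and (e2.and (e3.and e4)))
  have e5 : ∀ z, ∀ σ ∈ ball s δ, (fun σ => S.fn Q z (κ' (μ σ))) =ᶠ[𝓝[≠] σ] S.fn P z := by
    intro z
    apply mero_identity_ball _ _ (key z)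
    · intro σ hσ
      exact MeromorphicAt.comp_analyticAt (f := S.fn Q z) (g := fun σ => κ' (μ σ))
        (S.fn_mero Q z _ (hb σ hσ).2.2.1) (hb σ hσ).1
    · intro σ hσ
      exact S.fn_mero P z _ (hb σ hσ).2.2.2
  filter_upwards [isOpen_ball.mem_nhds (mem_ball_self hδ)] with σ hσ
  apply hS.eq_of_ord
  intro z hz
  have l : LB (fun σ => κ' (μ σ)) σ (κ' (μ σ)) := ⟨(hb σ hσ).1, rfl, (hb σ hσ).2.1⟩
  have h1 := S.order Q hz _ (hb σ hσ).2.2.1
  have h2 := S.order P hz _ (hb σ hσ).2.2.2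
  rw [← l.order, meromorphicOrderAt_congr (e5 z σ hσ), h2] at h1
  exact_mod_cast h1.symm

theorem t2 (hS : SepL X.toOrd) (P Q : X.Pt) (h : P ≠ Q) :
    ∃ ε > 0, ∀ s s' : ℂ, ‖s‖ < ε → ‖s'‖ < ε → S.c P s ≠ S.c Q s' := by
  obtain ⟨z, hz, h1, h2⟩ := hS P Q h
  have o1 := S.order P hz 0 (S.zero_mem P)
  have o2 := S.order Q hz 0 (S.zero_mem Q)
  rw [S.c_zero] at o1 o2
  have t1 : Tendsto (S.fn P z) (𝓝[≠] 0) (Bornology.cobounded ℂ) := by
    apply tendsto_cobounded_of_meromorphicOrderAt_neg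
    rw [o1]
    exact_mod_cast h1
  obtain ⟨a, ha⟩ := tendsto_nhds_of_meromorphicOrderAt_nonneg
    (S.fn_mero Q z 0 (S.zero_mem Q)) (by
      rw [o2]
      exact_mod_cast h2)
  have v1 : ∀ᶠ t in 𝓝[≠] (0 : ℂ), ‖a‖ + 1 < ‖S.fn P z t‖ :=
    (tendsto_norm_atTop_iff_cobounded.2 t1).eventually_gt_atTop _
  have v2 : ∀ᶠ t in 𝓝[≠] (0 : ℂ), ‖S.fn Q z t‖ < ‖a‖ + 1 :=
    ha.norm.eventually_lt_const (by linarith)
  have v3 : ∀ᶠ t in 𝓝 (0 : ℂ), t ∈ ball (0 : ℂ) (S.r P) := isOpen_ball.mem_nhds (S.zero_mem P)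
  have v4 : ∀ᶠ t in 𝓝 (0 : ℂ), t ∈ ball (0 : ℂ) (S.r Q) := isOpen_ball.mem_nhds (S.zero_mem Q)
  rw [eventually_nhdsWithin_iff] at v1 v2
  obtain ⟨ε, hε, hb⟩ := Metric.eventually_nhds_iff_ball.1 (v1.and (v2.and (v3.and v4)))
  refine ⟨ε, hε, ?_⟩
  intro s s' hs hs' hss
  have m1 := hb s (mem_ball_zero_iff.2 hs)
  have m2 := hb s' (mem_ball_zero_iff.2 hs')
  obtain ⟨κ, a1, a2⟩ := S.coh P s m1.2.2.1
  obtain ⟨κ', b1, b2⟩ := S.coh Q s' m2.2.2.2
  have b2' := b2 z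
  rw [← hss] at b2'
  have key : ∀ᶠ t in 𝓝[≠] (0 : ℂ), False := by
    filter_upwards [a2 z, b2', a1.eventually_punct hs, b1.eventually_punct hs'] with t t1 t2 t3 t4
    have w1 := (hb (κ t) (mem_ball_zero_iff.2 t3.2)).1 t3.1
    have w2 := (hb (κ' t) (mem_ball_zero_iff.2 t4.2)).2.1 t4.1
    rw [← t1, t2] at w1
    linarith
  exact (key.exists).elim fun _ h => h

/-- The analytic structure. -/
def toAn (hS : SepL X.toOrd) (ρ : X.Pt → ℝ) (h0 : ∀ P, 0 < ρ P) (hle : ∀ P, ρ P ≤ S.r P)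
    (hinj : ∀ P, InjOn (S.c P) (ball 0 (ρ P))) : AnCurve X.toOrd where
  r := ρ
  r_pos := h0
  c := S.c
  c_zero := S.c_zero
  inj := hinj
  fn := S.fn
  fn_mero P z := (S.fn_mero P z).mono_set (ball_subset_ball (hle P))
  fn_add P z w s hs := S.fn_add P z w s (ball_subset_ball (hle P) hs)
  fn_mul P z w s hs := S.fn_mul P z w s (ball_subset_ball (hle P) hs)
  fn_const P a s hs := S.fn_const P a s (ball_subset_ball (hle P) hs)
  ord P z hz s hs := S.order P hz s (ball_subset_ball (hle P) hs)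
  tr P Q s hs s' hs' h := by
    obtain ⟨f, h1, h2, h3⟩ := S.tr hS P Q s (ball_subset_ball (hle P) hs) s'
      (ball_subset_ball (hle Q) hs') h
    exact ⟨f, h1.an, h1.val, h1.der, h2, h3⟩
  t2 := S.t2 hS
  cpt := S.cpt

theorem fn_deck (δ : Deck X) (P : X.Pt) (z : K) {ρ : ℝ} (h1 : ρ ≤ S.r P)
    (h2 : ρ ≤ S.r (δ.σ P)) : ∀ s ∈ ball 0 ρ, S.fn (δ.σ P) (δ.θ z) =ᶠ[𝓝[≠] s] S.fn P z := by
  apply mero_identity_ball ((S.fn_mero _ _).mono_set (ball_subset_ball h2))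
    ((S.fn_mero _ _).mono_set (ball_subset_ball h1))
  have e1 := S.fn_germ (δ.σ P) (δ.θ z)
  rw [δ.comp] at e1
  exact e1.trans (S.fn_germ P z).symm

theorem toAn_equiv (hS : SepL X.toOrd) (ρ : X.Pt → ℝ) (h0 : ∀ P, 0 < ρ P)
    (hle : ∀ P, ρ P ≤ S.r P) (hinj : ∀ P, InjOn (S.c P) (ball 0 (ρ P))) (δ : Deck X)
    (hρ : ∀ P, ρ (δ.σ P) = ρ P) : (S.toAn hS ρ h0 hle hinj).Equiv δ.θ δ.σ where
  r := hρ
  c P s hs := by
    have hs1 : s ∈ ball (0 : ℂ) (ρ P) := hs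
    have m1 : s ∈ ball (0 : ℂ) (S.r P) := ball_subset_ball (hle P) hs1
    have hle' : ρ P ≤ S.r (δ.σ P) := (hρ P).symm.le.trans (hle _)
    have m2 : s ∈ ball (0 : ℂ) (S.r (δ.σ P)) := ball_subset_ball hle' hs1
    show S.c (δ.σ P) s = δ.σ (S.c P s)
    apply hS.eq_of_ord
    intro z hz
    obtain ⟨w, rfl⟩ := δ.θ.surjective z
    have hw : w ≠ 0 := by
      rintro rfl
      exact hz (map_zero _)
    have e1 := S.order (δ.σ P) hz s m2
    rw [meromorphicOrderAt_congr (S.fn_deck δ P w (hle P) hle' s hs1), S.order P hw s m1] at e1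
    have e2 : X.toOrd.ord (S.c P s) w = X.toOrd.ord (S.c (δ.σ P) s) (δ.θ w) := by
      exact_mod_cast e1
    rw [← e2]
    exact (δ.ord_comp (S.c P s) w).symm
  fn P z s hs := S.fn_deck δ P z (hle P) ((hρ P).symm.le.trans (hle _)) s hs

end LocSt

end

end Pool.Agent.YTDA


end

/- source: Pool.Agent.YTDA.LocDbl -/

section

/-!
Local parametrisations of étale double covers.
-/

namespace Pool.Agent.YTDA

open Complex Set Topology Metric Filter
open Pool.Agent.YTD Pool.Agent.YTD.Hyp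

noncomputable section

variable {K : Type} [Field K] [Algebra ℂ K]

theorem Germ.exists_mero (x : Germ) : ∃ ρ > 0, MeromorphicOn x.rep (ball 0 ρ) := by
  have h1 := x.rep_mero.eventually_analyticAt
  rw [eventually_nhdsWithin_iff] at h1
  obtain ⟨ρ, hρ, hb⟩ := Metric.eventually_nhds_iff_ball.1 h1
  refine ⟨ρ, hρ, ?_⟩
  intro t ht
  by_cases h0 : t = 0
  · rw [h0]
    exact x.rep_mero
  · exact (hb t ht h0).meromorphicAt

namespace LocSt

variable {X : CurveP lam K} (S : LocSt X)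

open Classical in
/-- the chosen local biholomorphism -/
def kap (P : X.Pt) (s : ℂ) (hs : s ∈ ball (0 : ℂ) (S.r P)) : ℂ → ℂ :=
  if s = 0 then fun t => t else (S.coh P s hs).choose

theorem kap_zero (P : X.Pt) (hs : (0 : ℂ) ∈ ball (0 : ℂ) (S.r P)) :
    S.kap P 0 hs = fun t => t := by
  unfold kap
  rw [if_pos rfl]

theorem kap_LB (P : X.Pt) (s : ℂ) (hs : s ∈ ball (0 : ℂ) (S.r P)) : LB (S.kap P s hs) 0 s := by
  unfold kap
  split_ifs with h0
  · subst h0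
    exact LB.refl 0
  · exact (S.coh P s hs).choose_spec.1

theorem kap_rep (P : X.Pt) (s : ℂ) (hs : s ∈ ball (0 : ℂ) (S.r P)) (z : K) :
    (X.phi (S.c P s) z).rep =ᶠ[𝓝[≠] 0] fun t => S.fn P z (S.kap P s hs t) := by
  unfold kap
  split_ifs with h0
  · subst h0
    rw [S.c_zero]
    exact (S.fn_germ P z).symm
  · exact (S.coh P s hs).choose_spec.2 z

section dbl

variable {h : K}

/-- the radius of the disc at a point of the double cover -/
def dr (x : DPt X h) : ℝ := min (S.r x.1.1) (Germ.exists_mero x.1.2).choose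

theorem dr_pos (x : DPt X h) : 0 < S.dr x :=
  lt_min (S.r_pos _) (Germ.exists_mero x.1.2).choose_spec.1

theorem dr_le (x : DPt X h) : S.dr x ≤ S.r x.1.1 := min_le_left _ _

theorem dr_mero (x : DPt X h) : MeromorphicOn x.1.2.rep (ball 0 (S.dr x)) :=
  (Germ.exists_mero x.1.2).choose_spec.2.mono_set (ball_subset_ball (min_le_right _ _))

theorem rep_sq (x : DPt X h) : ∀ s ∈ ball (0 : ℂ) (S.dr x),
    (fun t => x.1.2.rep t * x.1.2.rep t) =ᶠ[𝓝[≠] s] S.fn x.1.1 h := by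
  apply mero_identity_ball ((S.dr_mero x).mul (S.dr_mero x))
    ((S.fn_mero _ _).mono_set (ball_subset_ball (S.dr_le x)))
  have h1 := Germ.rep_mul x.1.2 x.1.2
  rw [← sq, x.2] at h1
  exact h1.symm.trans (S.fn_germ x.1.1 h).symm

theorem mero_kap (x : DPt X h) (s : ℂ) (hs : s ∈ ball (0 : ℂ) (S.dr x)) :
    MeromorphicAt (fun t => x.1.2.rep (S.kap x.1.1 s (ball_subset_ball (S.dr_le x) hs) t)) 0 :=
  (S.kap_LB _ s _).mero (S.dr_mero x s hs)

open Classical in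
/-- the parametrisation of the disc at a point of the double cover -/
def dc (x : DPt X h) (s : ℂ) : DPt X h :=
  if hs : s ∈ ball (0 : ℂ) (S.dr x) then
    ⟨(S.c x.1.1 s, Germ.mk _ (S.mero_kap x s hs)), by
      apply Germ.ext
      have l := S.kap_LB x.1.1 s (ball_subset_ball (S.dr_le x) hs)
      have h1 := Germ.rep_mul (Germ.mk _ (S.mero_kap x s hs)) (Germ.mk _ (S.mero_kap x s hs))
      have h2 := Germ.rep_mk _ (S.mero_kap x s hs)
      have h3 := S.kap_rep x.1.1 s (ball_subset_ball (S.dr_le x) hs) h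
      have h4 := l.tendsto_ne.eventually (S.rep_sq x s hs)
      simp only
      rw [sq]
      filter_upwards [h1, h2, h3, h4] with t t1 t2 t3 t4
      rw [t1, t2, t3, t4]⟩
  else x

theorem dc_fst (x : DPt X h) (s : ℂ) (hs : s ∈ ball (0 : ℂ) (S.dr x)) :
    (S.dc x s).1.1 = S.c x.1.1 s := by
  unfold dc
  rw [dif_pos hs]

theorem dc_rep (x : DPt X h) (s : ℂ) (hs : s ∈ ball (0 : ℂ) (S.dr x)) :
    (S.dc x s).1.2.rep =ᶠ[𝓝[≠] 0]
      fun t => x.1.2.rep (S.kap x.1.1 s (ball_subset_ball (S.dr_le x) hs) t) := by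
  unfold dc
  rw [dif_pos hs]
  exact Germ.rep_mk _ (S.mero_kap x s hs)

theorem dc_zero (x : DPt X h) : S.dc x 0 = x := by
  have hs : (0 : ℂ) ∈ ball (0 : ℂ) (S.dr x) := mem_ball_self (S.dr_pos x)
  apply Subtype.ext
  apply Prod.ext
  · rw [S.dc_fst x 0 hs, S.c_zero]
  · apply Germ.ext
    have h1 := S.dc_rep x 0 hs
    rw [S.kap_zero] at h1
    exact h1

theorem dc_dneg (x : DPt X h) (s : ℂ) (hs : s ∈ ball (0 : ℂ) (S.dr x))
    (hs' : s ∈ ball (0 : ℂ) (S.dr (dneg x))) : S.dc (dneg x) s = dneg (S.dc x s) := by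
  apply Subtype.ext
  apply Prod.ext
  · rw [S.dc_fst _ s hs']
    show _ = (S.dc x s).1.1
    rw [S.dc_fst _ s hs]
    rfl
  · apply Germ.ext
    show _ =ᶠ[𝓝[≠] 0] (-(S.dc x s).1.2).rep
    have hm : min (S.dr x) (S.dr (dneg x)) ≤ S.dr x := min_le_left _ _
    have hm' : min (S.dr x) (S.dr (dneg x)) ≤ S.dr (dneg x) := min_le_right _ _
    have key : ∀ s ∈ ball (0 : ℂ) (min (S.dr x) (S.dr (dneg x))),
        (dneg x).1.2.rep =ᶠ[𝓝[≠] s] fun t => - x.1.2.rep t := by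
      apply mero_identity_ball ((S.dr_mero _).mono_set (ball_subset_ball hm'))
        ((S.dr_mero x).mono_set (ball_subset_ball hm)).neg
      exact Germ.rep_neg x.1.2
    have hss : s ∈ ball (0 : ℂ) (min (S.dr x) (S.dr (dneg x))) := by
      rw [mem_ball_zero_iff] at hs hs' ⊢
      exact lt_min hs hs'
    have l := S.kap_LB x.1.1 s (ball_subset_ball (S.dr_le x) hs)
    filter_upwards [S.dc_rep _ s hs', S.dc_rep _ s hs, Germ.rep_neg (S.dc x s).1.2,
      l.tendsto_ne.eventually (key s hss)] with t t1 t2 t3 t4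
    rw [t1, t3, t2]
    exact t4

variable [NonSqK h] (hev : ∀ P, Even (lam.ord (X.phi P h)))

include hev in
theorem dcpt (ρ : DPt X h → ℝ) (hρ : ∀ x, 0 < ρ x) :
    ∃ F : Finset (DPt X h), ∀ y, ∃ x ∈ F, ∃ s, ‖s‖ < ρ x ∧ S.dc x s = y := by
  obtain ⟨F, hF⟩ := S.cpt (fun P => min (min (ρ (lft hev P)) (S.dr (lft hev P)))
    (min (ρ (dneg (lft hev P))) (S.dr (dneg (lft hev P))))) (fun P => lt_min
      (lt_min (hρ _) (S.dr_pos _)) (lt_min (hρ _) (S.dr_pos _)))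
  refine ⟨pre hev F, ?_⟩
  intro y
  obtain ⟨P, hP, s, hs, hc⟩ := hF y.1.1
  simp only [lt_min_iff] at hs
  obtain ⟨⟨s1, s2⟩, ⟨s3, s4⟩⟩ := hs
  have m2 : s ∈ ball (0 : ℂ) (S.dr (lft hev P)) := mem_ball_zero_iff.2 s2
  have m4 : s ∈ ball (0 : ℂ) (S.dr (dneg (lft hev P))) := mem_ball_zero_iff.2 s4
  have h1 : (S.dc (lft hev P) s).1.1 = y.1.1 := by
    rw [S.dc_fst _ s m2, ← hc]
    rfl
  rcases eta_eq_or _ _ h1 with h2 | h2
  · exact ⟨lft hev P, (mem_pre hev F _).2 hP, s, s1, h2.symm⟩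
  · refine ⟨dneg (lft hev P), (mem_pre hev F _).2 hP, s, s3, ?_⟩
    rw [S.dc_dneg _ s m2 m4, h2]

/-- Parametrisations of the double cover. -/
def dbl : LocSt (X.dbl h hev) where
  r := S.dr
  r_pos := S.dr_pos
  fn x z t := S.fn x.1.1 z.re t + S.fn x.1.1 z.im t * x.1.2.rep t
  fn_mero x z := ((S.fn_mero x.1.1 z.re).mono_set (ball_subset_ball (S.dr_le x))).add
    (((S.fn_mero x.1.1 z.im).mono_set (ball_subset_ball (S.dr_le x))).mul (S.dr_mero x))
  fn_germ x z := by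
    filter_upwards [S.fn_germ x.1.1 z.re, S.fn_germ x.1.1 z.im,
      Germ.rep_add (X.phi x.1.1 z.re) (X.phi x.1.1 z.im * x.1.2),
      Germ.rep_mul (X.phi x.1.1 z.im) x.1.2] with t t1 t2 t3 t4
    show _ = (X.phi x.1.1 z.re + X.phi x.1.1 z.im * x.1.2).rep t
    rw [t3, t4, t1, t2]
  c := S.dc
  c_zero := S.dc_zero
  coh x s hs := by
    have m : s ∈ ball (0 : ℂ) (S.r x.1.1) := ball_subset_ball (S.dr_le x) hs
    refine ⟨S.kap x.1.1 s m, S.kap_LB _ _ _, ?_⟩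
    intro z
    have e1 := S.kap_rep x.1.1 s m z.re
    have e2 := S.kap_rep x.1.1 s m z.im
    rw [← S.dc_fst x s hs] at e1 e2
    show (X.phi (S.dc x s).1.1 z.re + X.phi (S.dc x s).1.1 z.im * (S.dc x s).1.2).rep
      =ᶠ[𝓝[≠] 0] _
    filter_upwards [e1, e2, S.dc_rep x s hs,
      Germ.rep_add (X.phi (S.dc x s).1.1 z.re) (X.phi (S.dc x s).1.1 z.im * (S.dc x s).1.2),
      Germ.rep_mul (X.phi (S.dc x s).1.1 z.im) (S.dc x s).1.2] with t t1 t2 t3 t4 t5
    rw [t4, t5, t1, t2, t3]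
  cpt := S.dcpt hev

end dbl

end LocSt

end

end Pool.Agent.YTDA


end

/- source: Pool.Agent.YTDA.LocDiff -/

section

/-!
The divisor of the differential of the coordinate function.
-/

namespace Pool.Agent.YTDA

open Set Topology Metric Filter Polynomial
open Pool.Agent.YTD Pool.Agent.YTD.Hyp

noncomputable section

theorem order_pow (n : ℕ) : meromorphicOrderAt (fun t : ℂ => t ^ n) 0 = ((n : ℤ) : WithTop ℤ) := by
  have h1 : MeromorphicAt (fun t : ℂ => t ^ n) 0 := (MeromorphicAt.id 0).pow n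
  rw [meromorphicOrderAt_eq_int_iff h1]
  refine ⟨fun _ => 1, analyticAt_const, one_ne_zero, ?_⟩
  filter_upwards with z
  rw [sub_zero, smul_eq_mul, mul_one, zpow_natCast]

theorem order_pow_inv (n : ℕ) :
    meromorphicOrderAt (fun t : ℂ => (t ^ n)⁻¹) 0 = ((-(n : ℤ) : ℤ) : WithTop ℤ) := by
  have h1 : MeromorphicAt (fun t : ℂ => (t ^ n)⁻¹) 0 := ((MeromorphicAt.id 0).pow n).inv
  rw [meromorphicOrderAt_eq_int_iff h1]
  refine ⟨fun _ => 1, analyticAt_const, one_ne_zero, ?_⟩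
  filter_upwards with z
  rw [sub_zero, smul_eq_mul, mul_one, zpow_neg, zpow_natCast]

theorem order_deriv_aff (a : ℂ) {e : ℕ} (he : 0 < e) :
    meromorphicOrderAt (deriv fun t : ℂ => a + t ^ e) 0 = (((e : ℤ) - 1 : ℤ) : WithTop ℤ) := by
  have h1 : (deriv fun t : ℂ => a + t ^ e) = deriv fun t : ℂ => t ^ e := by
    funext t
    exact deriv_const_add a
  rw [h1]
  apply meromorphicOrderAt_deriv_eq_sub_one _ (order_pow e)
  simp only [Int.cast_natCast, ne_eq, Nat.cast_eq_zero]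
  omega

theorem order_deriv_inf :
    meromorphicOrderAt (deriv fun t : ℂ => (t ^ 2)⁻¹) 0 = ((-3 : ℤ) : WithTop ℤ) := by
  have h := meromorphicOrderAt_deriv_eq_sub_one (n := -2) (by norm_num) (order_pow_inv 2)
  exact h

theorem rep_thA (e : ℕ) (a : ℂ) : (thA lam e a).rep =ᶠ[𝓝[≠] 0] fun t => a + t ^ e := by
  unfold thA
  filter_upwards [Germ.rep_add (algebraMap ℂ Germ a) (lam.s ^ e), Germ.rep_const a,
    Germ.rep_pow lam.s e, Germ.rep_s] with t t1 t2 t3 t4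
  rw [t1, t2, t3, t4]

theorem rep_thI : (thI lam).rep =ᶠ[𝓝[≠] 0] fun t => (t ^ 2)⁻¹ := by
  unfold thI
  filter_upwards [Germ.rep_inv (lam.s ^ 2), Germ.rep_pow lam.s 2, Germ.rep_s] with t t1 t2 t3
  rw [t1, t2, t3]

variable {f : ℂ[X]}

/-- the divisor of the differential of the coordinate function on the base curve -/
def ddL : Pts f → ℤ
  | none => -3
  | some P => (ram P : ℤ) - 1

theorem order_dx (G : Good f) (P : Pts f) :
    meromorphicOrderAt (deriv (parAt lam G.ne P).θ.rep) 0 = ((ddL P : ℤ) : WithTop ℤ) := by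
  rcases P with _ | P
  · rw [parAt_none, meromorphicOrderAt_congr rep_thI.nhdsNE_deriv]
    exact order_deriv_inf
  · rw [parAt_some, meromorphicOrderAt_congr (rep_thA _ _).nhdsNE_deriv]
    exact order_deriv_aff _ (ram_pos P)

open Classical in
theorem dd_eq (G : Good f) (P : Pts f) : ddL P = ordAt lam G.ne P yy +
    (if P = none then (f.natDegree : ℤ) - 3 else 0) := by
  unfold ordAt
  rw [phi_yy]
  rcases P with _ | P
  · rw [ord_eta_inf G, if_pos rfl]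
    show (-3 : ℤ) = _
    ring
  · rw [if_neg (by simp), add_zero]
    show (ram P : ℤ) - 1 = _
    by_cases hb : P.1.2 = 0
    · rw [ord_eta_ram G P hb]
      unfold ram
      rw [if_pos hb]
      norm_num
    · have h1 := two_ord_eta (Λ := lam) G.ne (some P)
      rw [ordAt_emb_zero G.ne P (by rw [← P.2]; exact pow_ne_zero 2 hb)] at h1
      unfold ram
      rw [if_neg hb]
      push_cast
      linarith

theorem dd_finite [NonSq f] (G : Good f) : (Function.support (ddL : Pts f → ℤ)).Finite := by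
  classical
  apply ((finite_ordAt (Λ := lam) G.ne (yy_ne (f := f))).union (Set.finite_singleton none)).subset
  intro P hP
  by_contra h0
  simp only [Set.mem_union, Set.mem_ofPred_eq, Set.mem_singleton_iff, not_or, not_not] at h0
  apply hP
  rw [dd_eq G, h0.1, if_neg h0.2, add_zero]

theorem finsum_dd [NonSq f] (G : Good f) {g : ℕ} (hg : f.natDegree = 2 * g + 1) :
    ∑ᶠ P : Pts f, ddL P = 2 * g - 2 := by
  classical
  have h1 : (fun P : Pts f => ddL P) = fun P => ordAt lam G.ne P yy +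
      (if P = none then (f.natDegree : ℤ) - 3 else 0) := by
    funext P
    exact dd_eq G P
  have h2 : ∑ᶠ P : Pts f, ordAt lam G.ne P yy = 0 := tot_eq_zero G yy_ne
  have h3 : ∑ᶠ P : Pts f, (if P = none then (f.natDegree : ℤ) - 3 else 0) = f.natDegree - 3 := by
    rw [finsum_eq_single _ none (fun P hP => if_neg hP), if_pos rfl]
  rw [h1, finsum_add_distrib (finite_ordAt (Λ := lam) G.ne (yy_ne (f := f))), h2, h3, hg]
  · push_cast
    ring
  · apply (Set.finite_singleton (none : Pts f)).subset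
    intro P hP
    by_contra h0
    exact hP (if_neg h0)

section pull

variable {K : Type} [Field K] [Algebra ℂ K] {F : Type} [Field F] [Algebra ℂ F] {Λ : LF F}
  {X : CurveP Λ K} {h : K} [NonSqK h]

theorem pull_finite {g : X.Pt → ℤ} (hg : (Function.support g).Finite) :
    (Function.support fun x : DPt X h => g x.1.1).Finite :=
  finite_preim (X := X) (h := h) hg

theorem finsum_pull (hev : ∀ P, Even (Λ.ord (X.phi P h))) {g : X.Pt → ℤ}
    (hg : (Function.support g).Finite) : ∑ᶠ x : DPt X h, g x.1.1 = 2 * ∑ᶠ P, g P := by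
  rw [finsum_fib hev (pull_finite hg)]
  have h1 : (fun P => g (lft hev P).1.1 + g (dneg (lft hev P)).1.1) = fun P => g P + g P := rfl
  rw [h1, finsum_add_distrib hg hg]
  ring

end pull

section tower

variable [NonSq f] (G : Good f) {a₁ a₂ a₃ : ℂ} [NonSqK (hh₁ f a₁)] [NonSqK (hh₂ f a₁ a₂)]
  [NonSqK (hh₃ f a₁ a₂ a₃)] (h1 : f.eval a₁ = 0) (h2 : f.eval a₂ = 0) (h3 : f.eval a₃ = 0)

/-- the coordinate function on the third cover -/
def xx : DK (hh₃ f a₁ a₂ a₃) :=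
  algebraMap (DK (hh₂ f a₁ a₂)) (DK (hh₃ f a₁ a₂ a₃))
    (algebraMap (DK (hh₁ f a₁)) (DK (hh₂ f a₁ a₂)) (algebraMap (KK f) (DK (hh₁ f a₁)) (emb X)))

theorem phi_xx (P : (X₃ G h1 h2 h3 lam).Pt) :
    (X₃ G h1 h2 h3 lam).phi P xx = (parAt lam G.ne (base G h1 h2 h3 P)).θ := by
  show dphi P xx = _
  unfold xx
  rw [dphi_alg]
  show dphi P.1.1 _ = _
  rw [dphi_alg]
  show dphi P.1.1.1.1 _ = _
  rw [dphi_alg]
  show (parAt lam G.ne P.1.1.1.1.1.1).phi (emb X) = _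
  rw [phi_emb, aeval_X]
  rfl

theorem dd_finite₁ : (Function.support fun P : (X₁ G h1 lam).Pt => ddL (f := f) P.1.1).Finite :=
  pull_finite (X := baseP lam G) (h := hh₁ f a₁) (g := fun P : Pts f => ddL P) (dd_finite G)

theorem dd_finite₂ :
    (Function.support fun P : (X₂ G h1 h2 lam).Pt => ddL (f := f) P.1.1.1.1).Finite :=
  pull_finite (X := X₁ G h1 lam) (h := hh₂ f a₁ a₂) (g := fun P => ddL (f := f) P.1.1)
    (dd_finite₁ G h1)

theorem dd_finite₃ :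
    (Function.support fun P : (X₃ G h1 h2 h3 lam).Pt => ddL (base G h1 h2 h3 P)).Finite :=
  pull_finite (X := X₂ G h1 h2 lam) (h := hh₃ f a₁ a₂ a₃) (g := fun P => ddL (f := f) P.1.1.1.1)
    (dd_finite₂ G h1 h2)

/-- the divisor of the differential of the coordinate function -/
def d₃ : (X₃ G h1 h2 h3 lam).Pt →₀ ℤ :=
  Finsupp.ofSupportFinite (fun P => ddL (base G h1 h2 h3 P)) (dd_finite₃ G h1 h2 h3)

theorem d₃_apply (P : (X₃ G h1 h2 h3 lam).Pt) :
    d₃ G h1 h2 h3 P = ddL (base G h1 h2 h3 P) := rfl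

theorem deg_d₃ {g : ℕ} (hg : f.natDegree = 2 * g + 1) :
    (X₃ G h1 h2 h3 lam).toOrd.deg (d₃ G h1 h2 h3) = 16 * g - 16 := by
  rw [deg_eq_finsum]
  show ∑ᶠ P : DPt (X₂ G h1 h2 lam) (hh₃ f a₁ a₂ a₃), ddL (f := f) P.1.1.1.1.1.1 = _
  rw [finsum_pull (X := X₂ G h1 h2 lam) (ev₃ G h1 h2 h3)
    (g := fun P => ddL (f := f) P.1.1.1.1) (dd_finite₂ G h1 h2)]
  rw [finsum_pull (X := X₁ G h1 lam) (ev₂ G h1 h2)
    (g := fun P => ddL (f := f) P.1.1) (dd_finite₁ G h1)]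
  rw [finsum_pull (X := baseP lam G) (ev₁ G h1) (g := fun P => ddL (f := f) P) (dd_finite G)]
  show 2 * (2 * (2 * ∑ᶠ P : Pts f, ddL P)) = _
  rw [finsum_dd G hg]
  ring

theorem order_d₃ (S : LocSt (X₃ G h1 h2 h3 lam)) (P : (X₃ G h1 h2 h3 lam).Pt) :
    meromorphicOrderAt (deriv (S.fn P xx)) 0 = ((d₃ G h1 h2 h3 P : ℤ) : WithTop ℤ) := by
  have e1 := S.fn_germ P xx
  rw [phi_xx] at e1
  rw [meromorphicOrderAt_congr e1.nhdsNE_deriv, d₃_apply]
  exact order_dx G _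

end tower

end

end Pool.Agent.YTDA


end

/- source: Pool.Agent.YTDA.SigB -/

section

/-!
The surface `Σ`: admissible radii, transitions along the curve, canonical forms.
-/

namespace Pool.Agent.YTDA

open Complex Set Topology Metric Filter
open Pool.Agent.YTD

noncomputable section

namespace Sig

variable {K : Type} [Field K] [Algebra ℂ K] {T : Datum K}
variable (q : ℕ) (D₀ : T.X.Pt →₀ ℤ) (An : AnCurve T.X.toCurveOrd)

/-- admissible radii -/
structure IsRad (r : T.X.Pt → ℝ) : Prop where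
  pos : ∀ P, 0 < r P
  le : ∀ P, r P ≤ An.r P
  iso : ∀ P, ∀ s ∈ ball (0 : ℂ) (r P), s ≠ 0 →
    An.c P s ∉ T.S ∧ An.c P s ∉ T.S' ∧ D₀ (An.c P s) = 0

variable {q D₀ An} {r : T.X.Pt → ℝ}

theorem IsRad.zero_mem (hr : IsRad D₀ An r) (P : T.X.Pt) : (0 : ℂ) ∈ ball (0 : ℂ) (r P) :=
  mem_ball_self (hr.pos P)

theorem IsRad.mem (hr : IsRad D₀ An r) {P : T.X.Pt} {s : ℂ} (h : s ∈ ball (0 : ℂ) (r P)) :
    s ∈ ball (0 : ℂ) (An.r P) := ball_subset_ball (hr.le P) h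

theorem IsRad.inj (hr : IsRad D₀ An r) {P : T.X.Pt} {s s' : ℂ} (h : s ∈ ball (0 : ℂ) (r P))
    (h' : s' ∈ ball (0 : ℂ) (r P)) (e : An.c P s = An.c P s') : s = s' :=
  An.inj P (hr.mem h) (hr.mem h') e

theorem IsRad.eq_zero (hr : IsRad D₀ An r) {P : T.X.Pt} {s : ℂ} (h : s ∈ ball (0 : ℂ) (r P))
    (e : An.c P s = P) : s = 0 :=
  hr.inj h (hr.zero_mem P) (e.trans (An.c_zero P).symm)

theorem IsRad.not_exc (hr : IsRad D₀ An r) {P : T.X.Pt} {s : ℂ} (h : s ∈ ball (0 : ℂ) (r P))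
    (hs : s ≠ 0) : ¬ Exc T (An.c P s) := by
  obtain ⟨h1, h2, _⟩ := hr.iso P s h hs
  rintro (h3 | h3)
  · exact h1 h3
  · exact h2 h3

/-- if two discs have a common point, then one of the coordinates is nonzero or the centres
agree; if the centres are different then `D₀` vanishes at a centre with coordinate `0` -/
theorem IsRad.D_zero (hr : IsRad D₀ An r) {P Q : T.X.Pt} {s' : ℂ}
    (hs' : s' ∈ ball (0 : ℂ) (r Q)) (hPQ : P ≠ Q) (hc : P = An.c Q s') : D₀ P = 0 := by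
  by_cases h : s' = 0
  · exact (hPQ (by rw [hc, h, An.c_zero])).elim
  · rw [hc]
    exact (hr.iso Q s' hs' h).2.2

/-- the frame factor is analytic -/
theorem an_upow {m : ℕ} {h : E m → ℂ} {z : E m} (hh : AnalyticAt ℂ h z) {d : ℤ}
    (h0 : h z = 0 → d = 0) : AnalyticAt ℂ (fun ζ => ((upow (h ζ) d : ℂˣ) : ℂ)) z := by
  by_cases h1 : h z = 0
  · rw [h0 h1]
    have : (fun ζ => ((upow (h ζ) 0 : ℂˣ) : ℂ)) = fun _ => 1 := by
      funext ζ
      rw [upow_zero_right, Units.val_one]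
    rw [this]
    exact analyticAt_const
  · have : (fun ζ => ((upow (h ζ) d : ℂˣ) : ℂ)) = fun ζ => ((un (h ζ) ^ d : ℂˣ) : ℂ) := by
      funext ζ
      rw [upow_eq]
    rw [this]
    exact an_un hh h1 d

theorem loc_curve (hr : IsRad D₀ An r) {P Q : T.X.Pt} (σ : Bool) {s s' : ℂ} (v : ℂ)
    (hs : s ∈ ball (0 : ℂ) (r P)) (hs' : s' ∈ ball (0 : ℂ) (r Q)) (hc : An.c P s = An.c Q s') :
    Loc (pc q D₀ An P σ) ![s, v] (pc q D₀ An Q σ) ![s', v] := by
  by_cases hPQ : P = Q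
  · subst hPQ
    have := hr.inj hs hs' hc
    subst this
    exact Loc.refl _ _
  obtain ⟨f, hf, hfs, _, hf1, _⟩ := An.tr P Q s (hr.mem hs) s' (hr.mem hs') hc
  have hf0 : AnalyticAt ℂ (fun ζ : E 2 => f (ζ 0)) ![s, v] :=
    AnalyticAt.comp (g := f) (f := fun ζ : E 2 => ζ 0) hf (an_coord 0 ![s, v])
  refine ⟨fun ζ => ![f (ζ 0), ζ 1], fun ζ => upow (f (ζ 0)) (D₀ Q) * (upow (ζ 0) (D₀ P))⁻¹,
    an_vec hf0 (an_coord 1 _), ?_, ?_, ?_⟩
  · have h1 : AnalyticAt ℂ (fun ζ : E 2 => ((upow (f (ζ 0)) (D₀ Q) : ℂˣ) : ℂ)) ![s, v] := by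
      apply an_upow hf0
      intro h
      have h' : s' = 0 := by rw [← hfs]; exact h
      apply hr.D_zero hs (Ne.symm hPQ)
      rw [hc, h', An.c_zero]
    have h2 : AnalyticAt ℂ (fun ζ : E 2 => ((upow (ζ 0) (D₀ P) : ℂˣ) : ℂ)) ![s, v] := by
      apply an_upow (an_coord 0 _)
      intro h
      have h' : s = 0 := h
      apply hr.D_zero hs' hPQ
      rw [← hc, h', An.c_zero]
    refine (h1.mul (h2.inv (Units.ne_zero _))).congr (Eventually.of_forall fun ζ => ?_)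
    show _ = ((upow (f (ζ 0)) (D₀ Q) * (upow (ζ 0) (D₀ P))⁻¹ : ℂˣ) : ℂ)
    rw [Units.val_mul, Units.val_inv_eq_inv_val]
    rfl
  · show (![f s, v] : E 2) = _
    rw [hfs]
  · have h3 : ∀ᶠ ζ : E 2 in 𝓝 ![s, v], An.c Q (f (ζ 0)) = An.c P (ζ 0) :=
      (an_coord 0 ![s, v]).continuousAt.eventually hf1
    filter_upwards [h3] with ζ hζ
    unfold pc
    rw [smul_mkY]
    show mkY T (An.c Q (f (ζ 0))) (pfib σ (ζ 1)) (un (ζ 1) ^ (5 * (q : ℤ)) *
      upow (f (ζ 0)) (D₀ Q)) = _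
    rw [hζ]
    congr 1
    rw [mul_assoc, mul_left_comm (upow (ζ 0) (D₀ P))⁻¹, inv_mul_cancel, mul_one, mul_comm]

theorem locS_curve (hr : IsRad D₀ An r) {P Q : T.X.Pt} (σ : Bool) {s s' : ℂ} (v : ℂ)
    (hs : s ∈ ball (0 : ℂ) (r P)) (hs' : s' ∈ ball (0 : ℂ) (r Q)) (hc : An.c P s = An.c Q s') :
    LocS (pc q D₀ An P σ) ![s, v] (pc q D₀ An Q σ) ![s', v] :=
  ⟨loc_curve hr σ v hs hs' hc, loc_curve hr σ v hs' hs hc.symm⟩

theorem locS_center (hr : IsRad D₀ An r) (P : T.X.Pt) (σ : Bool) {s : ℂ} (v : ℂ)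
    (hs : s ∈ ball (0 : ℂ) (r P)) :
    LocS (pc q D₀ An P σ) ![s, v] (pc q D₀ An (An.c P s) σ) ![0, v] :=
  locS_curve hr σ v hs (hr.zero_mem _) (An.c_zero _).symm

/-! ### Canonical forms -/

variable (q D₀ An) in
open Classical in
/-- the canonical chart at a point of `Σ` -/
def canC (p : T.X.Pt × Fib) : E 2 → YY T :=
  match p.2 with
  | .main _ => pc q D₀ An p.1 false
  | .fin σ => if Bl T σ p.1 then bl q D₀ An p.1 σ else pc q D₀ An p.1 σ
  | .exc _ => mid q D₀ An p.1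
  | .node => mid q D₀ An p.1

theorem canC_fin_bl {P : T.X.Pt} {σ : Bool} (h : Bl T σ P) :
    canC q D₀ An (P, .fin σ) = bl q D₀ An P σ := if_pos h

theorem canC_fin_pc {P : T.X.Pt} {σ : Bool} (h : ¬ Bl T σ P) :
    canC q D₀ An (P, .fin σ) = pc q D₀ An P σ := if_neg h

/-- the coordinates of a point in the canonical chart -/
def canZ : Fib → E 2
  | .main w => ![0, (w : ℂ)]
  | .fin _ => ![0, 0]
  | .exc e => ![0, ((e⁻¹ : ℂˣ) : ℂ)]
  | .node => ![0, 0]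

/-- canonical form of a point in a plain chart -/
theorem can_pc (hr : IsRad D₀ An r) (P : T.X.Pt) (σ : Bool) {s v : ℂ}
    (hs : s ∈ ball (0 : ℂ) (r P)) (h : v = 0 → ¬ Bl T σ (An.c P s)) :
    LocS (pc q D₀ An P σ) ![s, v] (canC q D₀ An (pt (pc q D₀ An P σ ![s, v])))
      (canZ (pt (pc q D₀ An P σ ![s, v])).2) := by
  rw [pt_pc]
  show LocS (pc q D₀ An P σ) ![s, v] (canC q D₀ An (An.c P s, pfib σ v)) (canZ (pfib σ v))
  by_cases hv : v = 0
  · subst hv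
    rw [pfib_zero]
    rw [canC_fin_pc (h rfl)]
    exact locS_center hr P σ 0 hs
  · rw [pfib_ne hv]
    show LocS _ _ (pc q D₀ An (An.c P s) false) ![0, ((uw σ (un v) : ℂˣ) : ℂ)]
    have h1 := locS_center (q := q) hr P σ v hs
    cases σ
    · rw [uw_false, un_ne hv]
      exact h1
    · rw [uw_true, Units.val_inv_eq_inv_val, un_ne hv]
      exact h1.trans (locS_pc_not q D₀ An (An.c P s) true hv)

theorem can_bl (hr : IsRad D₀ An r) {P : T.X.Pt} {σ : Bool} (hP : Bl T σ P) {s v : ℂ}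
    (hs : s ∈ ball (0 : ℂ) (r P)) :
    LocS (bl q D₀ An P σ) ![s, v] (canC q D₀ An (pt (bl q D₀ An P σ ![s, v])))
      (canZ (pt (bl q D₀ An P σ ![s, v])).2) := by
  by_cases h0 : s = 0
  · subst h0
    by_cases hv : v = 0
    · subst hv
      rw [pt_bl_zero q D₀ An (by rfl) (by rfl)]
      rw [canC_fin_bl hP]
      exact LocS.refl _ _
    · rw [pt_bl_exc q D₀ An hP.1 (by rfl) (by exact hv)]
      show LocS _ _ (mid q D₀ An P) ![0, (((un v)⁻¹ : ℂˣ) : ℂ)]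
      rw [Units.val_inv_eq_inv_val, un_ne hv, ← hP.2]
      have h1 := locS_bl_mid q D₀ An P (s := 0) hv
      rw [zero_mul] at h1
      exact h1
  · have h1 := locS_bl_pc q D₀ An P σ (v := v) h0
    have h2 : pt (bl q D₀ An P σ ![s, v]) = pt (pc q D₀ An P σ ![s, s * v]) := by
      rw [pt_bl_ne q D₀ An (by exact h0), pt_pc]
      rfl
    rw [h2]
    refine h1.trans (can_pc hr P σ hs fun _ hb => hr.not_exc hs h0 hb.1)

theorem can_mid (hr : IsRad D₀ An r) {P : T.X.Pt} (hP : Exc T P) {v f : ℂ}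
    (hs : v * f ∈ ball (0 : ℂ) (r P)) :
    LocS (mid q D₀ An P) ![v, f] (canC q D₀ An (pt (mid q D₀ An P ![v, f])))
      (canZ (pt (mid q D₀ An P ![v, f])).2) := by
  by_cases hv : v = 0
  · subst hv
    by_cases hf : f = 0
    · subst hf
      rw [pt_mid_node q D₀ An hP (by rfl) (by rfl)]
      exact LocS.refl _ _
    · rw [pt_mid_exc q D₀ An hP (by rfl) (by exact hf)]
      show LocS _ _ (mid q D₀ An P) ![0, (((un f)⁻¹⁻¹ : ℂˣ) : ℂ)]
      rw [inv_inv, un_ne hf]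
      exact LocS.refl _ _
  · have h1 := locS_mid_pc q D₀ An P (f := f) hv
    have h2 : pt (mid q D₀ An P ![v, f]) =
        pt (pc q D₀ An P (!sd T P) ![v * f, v⁻¹]) := by
      rw [pt_mid_ne q D₀ An (by exact hv), pt_pc]
      show _ = (An.c P (v * f), pfib (!sd T P) v⁻¹)
      rw [pfib_ne (inv_ne_zero hv), uw_not, un_inv, uw_inv, inv_inv]
      rfl
    rw [h2]
    exact h1.trans (can_pc hr P _ hs fun h => (inv_ne_zero hv h).elim)

/-! ### Injectivity of the charts -/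

theorem pfib_inj {σ : Bool} {v v' : ℂ} (h : pfib σ v = pfib σ v') : v = v' := by
  by_cases hv : v = 0 <;> by_cases hv' : v' = 0
  · rw [hv, hv']
  · rw [hv, pfib_zero, pfib_ne hv'] at h
    cases h
  · rw [hv', pfib_zero, pfib_ne hv] at h
    cases h
  · rw [pfib_ne hv, pfib_ne hv'] at h
    have h1 : uw σ (un v) = uw σ (un v') := by injection h
    rw [← un_ne hv, uw_inj σ h1, un_ne hv']

theorem ext2 {z z' : E 2} (h0 : z 0 = z' 0) (h1 : z 1 = z' 1) : z = z' := by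
  funext i
  fin_cases i
  · exact h0
  · exact h1

theorem inj_pc (hr : IsRad D₀ An r) {P : T.X.Pt} {σ : Bool} {z z' : E 2}
    (hz : z 0 ∈ ball (0 : ℂ) (r P)) (hz' : z' 0 ∈ ball (0 : ℂ) (r P))
    (h : pt (pc q D₀ An P σ z) = pt (pc q D₀ An P σ z')) : z = z' := by
  rw [pt_pc, pt_pc] at h
  have h1 : An.c P (z 0) = An.c P (z' 0) := congrArg Prod.fst h
  have h2 : pfib σ (z 1) = pfib σ (z' 1) := congrArg Prod.snd h
  exact ext2 (hr.inj hz hz' h1) (pfib_inj h2)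

theorem inj_bl (hr : IsRad D₀ An r) {P : T.X.Pt} {σ : Bool} (hP : Exc T P) {z z' : E 2}
    (hz : z 0 ∈ ball (0 : ℂ) (r P)) (hz' : z' 0 ∈ ball (0 : ℂ) (r P))
    (h : pt (bl q D₀ An P σ z) = pt (bl q D₀ An P σ z')) : z = z' := by
  by_cases h0 : z 0 = 0
  · have hb : (pt (bl q D₀ An P σ z)).1 = P := by
      by_cases h1 : z 1 = 0
      · rw [pt_bl_zero q D₀ An h0 h1]
      · rw [pt_bl_exc q D₀ An hP h0 h1]
    by_cases h0' : z' 0 = 0
    · by_cases h1 : z 1 = 0 <;> by_cases h1' : z' 1 = 0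
      · exact ext2 (h0.trans h0'.symm) (h1.trans h1'.symm)
      · rw [pt_bl_zero q D₀ An h0 h1, pt_bl_exc q D₀ An hP h0' h1'] at h
        have h2 := congrArg Prod.snd h
        cases h2
      · rw [pt_bl_zero q D₀ An h0' h1', pt_bl_exc q D₀ An hP h0 h1] at h
        have h2 := congrArg Prod.snd h
        cases h2
      · rw [pt_bl_exc q D₀ An hP h0 h1, pt_bl_exc q D₀ An hP h0' h1'] at h
        have h2 : Fib.exc (un (z 1)) = Fib.exc (un (z' 1)) := congrArg Prod.snd h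
        have h3 : un (z 1) = un (z' 1) := by injection h2
        refine ext2 (h0.trans h0'.symm) ?_
        rw [← un_ne h1, h3, un_ne h1']
    · rw [h, pt_bl_ne q D₀ An h0'] at hb
      exact (h0' (hr.eq_zero hz' hb)).elim
  · by_cases h0' : z' 0 = 0
    · have hb : (pt (bl q D₀ An P σ z')).1 = P := by
        by_cases h1 : z' 1 = 0
        · rw [pt_bl_zero q D₀ An h0' h1]
        · rw [pt_bl_exc q D₀ An hP h0' h1]
      rw [← h, pt_bl_ne q D₀ An h0] at hb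
      exact (h0 (hr.eq_zero hz hb)).elim
    · rw [pt_bl_ne q D₀ An h0, pt_bl_ne q D₀ An h0'] at h
      have h1 : An.c P (z 0) = An.c P (z' 0) := congrArg Prod.fst h
      have h2 : pfib σ (z 0 * z 1) = pfib σ (z' 0 * z' 1) := congrArg Prod.snd h
      have h3 := hr.inj hz hz' h1
      have h4 := pfib_inj h2
      rw [← h3] at h4
      exact ext2 h3 (mul_left_cancel₀ h0 h4)

theorem inj_mid (hr : IsRad D₀ An r) {P : T.X.Pt} (hP : Exc T P) {z z' : E 2}
    (hz : z 0 * z 1 ∈ ball (0 : ℂ) (r P)) (hz' : z' 0 * z' 1 ∈ ball (0 : ℂ) (r P))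
    (h : pt (mid q D₀ An P z) = pt (mid q D₀ An P z')) : z = z' := by
  by_cases h0 : z 0 = 0 <;> by_cases h0' : z' 0 = 0
  · by_cases h1 : z 1 = 0 <;> by_cases h1' : z' 1 = 0
    · exact ext2 (h0.trans h0'.symm) (h1.trans h1'.symm)
    · rw [pt_mid_node q D₀ An hP h0 h1, pt_mid_exc q D₀ An hP h0' h1'] at h
      have h2 := congrArg Prod.snd h
      cases h2
    · rw [pt_mid_node q D₀ An hP h0' h1', pt_mid_exc q D₀ An hP h0 h1] at h
      have h2 := congrArg Prod.snd h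
      cases h2
    · rw [pt_mid_exc q D₀ An hP h0 h1, pt_mid_exc q D₀ An hP h0' h1'] at h
      have h2 : Fib.exc (un (z 1))⁻¹ = Fib.exc (un (z' 1))⁻¹ := congrArg Prod.snd h
      have h3 : (un (z 1))⁻¹ = (un (z' 1))⁻¹ := by injection h2
      refine ext2 (h0.trans h0'.symm) ?_
      rw [← un_ne h1, inv_injective h3, un_ne h1']
  · rw [pt_mid_ne q D₀ An h0'] at h
    by_cases h1 : z 1 = 0
    · rw [pt_mid_node q D₀ An hP h0 h1] at h
      have h2 := congrArg Prod.snd h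
      cases h2
    · rw [pt_mid_exc q D₀ An hP h0 h1] at h
      have h2 := congrArg Prod.snd h
      cases h2
  · rw [pt_mid_ne q D₀ An h0] at h
    by_cases h1 : z' 1 = 0
    · rw [pt_mid_node q D₀ An hP h0' h1] at h
      have h2 := congrArg Prod.snd h
      cases h2
    · rw [pt_mid_exc q D₀ An hP h0' h1] at h
      have h2 := congrArg Prod.snd h
      cases h2
  · rw [pt_mid_ne q D₀ An h0, pt_mid_ne q D₀ An h0'] at h
    have h1 : An.c P (z 0 * z 1) = An.c P (z' 0 * z' 1) := congrArg Prod.fst h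
    have h2 : Fib.main (uw (sd T P) (un (z 0))) = Fib.main (uw (sd T P) (un (z' 0))) :=
      congrArg Prod.snd h
    have h3 : uw (sd T P) (un (z 0)) = uw (sd T P) (un (z' 0)) := by injection h2
    have h4 : z 0 = z' 0 := by
      rw [← un_ne h0, uw_inj _ h3, un_ne h0']
    have h5 := hr.inj hz hz' h1
    rw [← h4] at h5
    exact ext2 h4 (mul_left_cancel₀ h0 h5)

end Sig

end

end Pool.Agent.YTDA


end

/- source: Pool.Agent.YTDA.SigC -/

section

/-!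
The surface `Σ`: the atlas, the Hausdorff property and compactness.
-/

namespace Pool.Agent.YTDA

open Complex Set Topology Metric Filter
open Pool.Agent.YTD

noncomputable section

namespace Sig

variable {K : Type} [Field K] [Algebra ℂ K] {T : Datum K}
variable (q : ℕ) (D₀ : T.X.Pt →₀ ℤ) (An : AnCurve T.X.toCurveOrd)

open Classical in
/-- the chart at an end of the fibre -/
def endc (P : T.X.Pt) (σ : Bool) : E 2 → YY T :=
  if Bl T σ P then bl q D₀ An P σ else pc q D₀ An P σ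

/-- the charts -/
def ch (a : T.X.Pt × Fin 3) : E 2 → YY T :=
  match a.2 with
  | 0 => endc q D₀ An a.1 false
  | 1 => endc q D₀ An a.1 true
  | 2 => mid q D₀ An a.1

/-- the domains of the charts -/
def UU (r : T.X.Pt → ℝ) (a : T.X.Pt × Fin 3) : Set (E 2) :=
  match a.2 with
  | 0 => {z | ‖z 0‖ < r a.1}
  | 1 => {z | ‖z 0‖ < r a.1}
  | 2 => {z | Exc T a.1 ∧ ‖z 0 * z 1‖ < r a.1}

/-- the index of an end -/
def ei (σ : Bool) : Fin 3 := if σ then 1 else 0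

variable {q D₀ An} {r : T.X.Pt → ℝ}

theorem ch_ei (P : T.X.Pt) (σ : Bool) : ch q D₀ An (P, ei σ) = endc q D₀ An P σ := by
  cases σ <;> rfl

theorem UU_ei (P : T.X.Pt) (σ : Bool) : UU r (P, ei σ) = {z | ‖z 0‖ < r P} := by
  cases σ <;> rfl

theorem ch_two (P : T.X.Pt) : ch q D₀ An (P, 2) = mid q D₀ An P := rfl

theorem UU_two (P : T.X.Pt) : UU r (P, 2) = {z | Exc T P ∧ ‖z 0 * z 1‖ < r P} := rfl

/-- every chart is an end chart or a middle chart -/
theorem chart_cases {p : T.X.Pt × Fin 3 → Prop} (h1 : ∀ P σ, p (P, ei σ)) (h2 : ∀ P, p (P, 2)) :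
    ∀ a, p a := by
  rintro ⟨P, i⟩
  fin_cases i
  · exact h1 P false
  · exact h1 P true
  · exact h2 P

theorem endc_bl {P : T.X.Pt} {σ : Bool} (h : Bl T σ P) :
    endc q D₀ An P σ = bl q D₀ An P σ := if_pos h

theorem endc_pc {P : T.X.Pt} {σ : Bool} (h : ¬ Bl T σ P) :
    endc q D₀ An P σ = pc q D₀ An P σ := if_neg h

theorem canC_fin (P : T.X.Pt) (σ : Bool) :
    canC q D₀ An (P, .fin σ) = endc q D₀ An P σ := rfl

theorem bool_eq_not {τ σ : Bool} (h : τ ≠ σ) : τ = !σ := by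
  cases τ <;> cases σ <;> simp_all

theorem mem_b {r : ℝ} {s : ℂ} : s ∈ ball (0 : ℂ) r ↔ ‖s‖ < r := mem_ball_zero_iff

theorem isOpen_UU (a : T.X.Pt × Fin 3) : IsOpen (UU r a) := by
  revert a
  apply chart_cases
  · intro P σ
    rw [UU_ei]
    exact isOpen_lt ((continuous_apply 0).norm) continuous_const
  · intro P
    rw [UU_two]
    by_cases h : Exc T P
    · have : {z : E 2 | Exc T P ∧ ‖z 0 * z 1‖ < r P} = {z : E 2 | ‖z 0 * z 1‖ < r P} := by
        ext z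
        exact and_iff_right h
      rw [this]
      exact isOpen_lt (((continuous_apply 0).mul (continuous_apply 1)).norm) continuous_const
    · have : {z : E 2 | Exc T P ∧ ‖z 0 * z 1‖ < r P} = ∅ := by
        ext z
        simp [h]
      rw [this]
      exact isOpen_empty

theorem can_ch (hr : IsRad D₀ An r) (a : T.X.Pt × Fin 3) (z : E 2) (hz : z ∈ UU r a) :
    LocS (ch q D₀ An a) z (canC q D₀ An (pt (ch q D₀ An a z)))
      (canZ (pt (ch q D₀ An a z)).2) := by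
  revert a
  apply chart_cases
  · intro P σ hz
    rw [UU_ei] at hz
    have hz' : z 0 ∈ ball (0 : ℂ) (r P) := mem_b.2 hz
    rw [ch_ei, ← eta2 z]
    by_cases hb : Bl T σ P
    · rw [endc_bl hb]
      exact can_bl hr hb hz'
    · rw [endc_pc hb]
      refine can_pc hr P σ hz' fun _ => ?_
      by_cases h0 : z 0 = 0
      · rw [h0, An.c_zero]
        exact hb
      · exact fun h => hr.not_exc hz' h0 h.1
  · intro P hz
    rw [UU_two] at hz
    rw [ch_two, ← eta2 z]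
    exact can_mid hr hz.1 (mem_b.2 hz.2)

theorem inj_ch (hr : IsRad D₀ An r) (a : T.X.Pt × Fin 3) {z z' : E 2} (hz : z ∈ UU r a)
    (hz' : z' ∈ UU r a) (h : pt (ch q D₀ An a z) = pt (ch q D₀ An a z')) : z = z' := by
  revert a
  apply chart_cases
  · intro P σ hz hz' h
    rw [UU_ei] at hz hz'
    rw [ch_ei] at h
    by_cases hb : Bl T σ P
    · rw [endc_bl hb] at h
      exact inj_bl hr hb.1 (mem_b.2 hz) (mem_b.2 hz') h
    · rw [endc_pc hb] at h
      exact inj_pc hr (mem_b.2 hz) (mem_b.2 hz') h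
  · intro P hz hz' h
    rw [UU_two] at hz hz'
    rw [ch_two] at h
    exact inj_mid hr hz.1 (mem_b.2 hz.2) (mem_b.2 hz'.2) h

/-! ### Covering by compact sets -/

/-- compact subsets of the charts -/
def KK (ρ : ℝ) (a : T.X.Pt × Fin 3) : Set (E 2) :=
  match a.2 with
  | 0 => {z | ‖z 0‖ ≤ ρ ∧ ‖z 1‖ ≤ 1}
  | 1 => {z | ‖z 0‖ ≤ ρ ∧ ‖z 1‖ ≤ 1}
  | 2 => {z | Exc T a.1 ∧ ‖z 0 * z 1‖ ≤ ρ ∧ ‖z 0‖ ≤ 1 ∧ ‖z 1‖ ≤ 1}

theorem KK_ei (ρ : ℝ) (P : T.X.Pt) (σ : Bool) :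
    KK ρ (P, ei σ) = {z | ‖z 0‖ ≤ ρ ∧ ‖z 1‖ ≤ 1} := by
  cases σ <;> rfl

theorem KK_two (ρ : ℝ) (P : T.X.Pt) :
    KK ρ (P, 2) = {z | Exc T P ∧ ‖z 0 * z 1‖ ≤ ρ ∧ ‖z 0‖ ≤ 1 ∧ ‖z 1‖ ≤ 1} := rfl

theorem pt_pc_main (P : T.X.Pt) (σ : Bool) {s : ℂ} (w : ℂˣ) :
    pt (pc q D₀ An P σ ![s, ((uw σ w : ℂˣ) : ℂ)]) = (An.c P s, .main w) := by
  rw [pt_pc]
  show (An.c P s, pfib σ ((uw σ w : ℂˣ) : ℂ)) = _
  rw [pfib_ne (Units.ne_zero _), un_coe, uw_uw]

theorem pt_pc_fin (P : T.X.Pt) (σ : Bool) {s : ℂ} :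
    pt (pc q D₀ An P σ ![s, 0]) = (An.c P s, .fin σ) := by
  rw [pt_pc]
  show (An.c P s, pfib σ 0) = _
  rw [pfib_zero]

/-- the points over the disc at `P` are covered by the charts at `P` -/
theorem cov {ρ : ℝ} (hr : IsRad D₀ An r) {P : T.X.Pt} (hρ : ρ < r P) {s : ℂ}
    (hs : ‖s‖ ≤ ρ) (y : YY T) (hy : y.base = An.c P s) :
    ∃ i, ∃ z ∈ KK ρ (P, i), pt (ch q D₀ An (P, i) z) = pt y := by
  have hsr : s ∈ ball (0 : ℂ) (r P) := mem_b.2 (lt_of_le_of_lt hs hρ)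
  have hρ0 : 0 ≤ ρ := (norm_nonneg s).trans hs
  have hpt : pt y = (An.c P s, y.fib) := by
    rw [← hy]
    rfl
  -- the plain ends
  have key1 : ∀ σ, ¬ Bl T σ P → ∀ w : ℂˣ, ‖((uw σ w : ℂˣ) : ℂ)‖ ≤ 1 → y.fib = .main w →
      ∃ i, ∃ z ∈ KK ρ (P, i), pt (ch q D₀ An (P, i) z) = pt y := by
    intro σ hb w hw hf
    refine ⟨ei σ, ![s, ((uw σ w : ℂˣ) : ℂ)], ?_, ?_⟩
    · rw [KK_ei]
      exact ⟨hs, hw⟩
    · rw [ch_ei, endc_pc hb, pt_pc_main, hpt, hf]
  have key2 : ∀ σ, ¬ Bl T σ P → y.fib = .fin σ →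
      ∃ i, ∃ z ∈ KK ρ (P, i), pt (ch q D₀ An (P, i) z) = pt y := by
    intro σ hb hf
    refine ⟨ei σ, ![s, 0], ?_, ?_⟩
    · rw [KK_ei]
      exact ⟨hs, by show ‖(0 : ℂ)‖ ≤ 1; rw [norm_zero]; exact zero_le_one⟩
    · rw [ch_ei, endc_pc hb, pt_pc_fin, hpt, hf]
  have hnot : ∀ w : ℂˣ, ∀ σ, 1 ≤ ‖((uw σ w : ℂˣ) : ℂ)‖ → ‖((uw (!σ) w : ℂˣ) : ℂ)‖ ≤ 1 := by
    intro w σ h
    rw [uw_not, Units.val_inv_eq_inv_val, norm_inv]
    exact inv_le_one_of_one_le₀ h
  by_cases hP : Exc T P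
  · -- blown up fibre
    obtain ⟨σ, hσ⟩ : ∃ σ, σ = sd T P := ⟨_, rfl⟩
    have hb : Bl T σ P := ⟨hP, hσ.symm⟩
    have hb' : ¬ Bl T (!σ) P := by
      rintro ⟨_, h⟩
      rw [← hσ] at h
      cases σ <;> simp at h
    by_cases h0 : s = 0
    · subst h0
      have hpt' : pt y = (P, y.fib) := by rw [hpt, An.c_zero]
      cases hf : y.fib with
      | main w =>
        rcases le_total 1 ‖((uw σ w : ℂˣ) : ℂ)‖ with h1 | h1
        · exact key1 (!σ) hb' w (hnot w σ h1) hf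
        · refine ⟨2, ![((uw σ w : ℂˣ) : ℂ), 0], ?_, ?_⟩
          · rw [KK_two]
            refine ⟨hP, ?_, h1, ?_⟩
            · show ‖((uw σ w : ℂˣ) : ℂ) * 0‖ ≤ ρ
              rw [mul_zero, norm_zero]
              exact hρ0
            · show ‖(0 : ℂ)‖ ≤ 1
              rw [norm_zero]
              exact zero_le_one
          · rw [ch_two, pt_mid_ne q D₀ An (by exact Units.ne_zero _), hpt', hf]
            show (An.c P (((uw σ w : ℂˣ) : ℂ) * 0), Fib.main (uw (sd T P)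
              (un ((uw σ w : ℂˣ) : ℂ)))) = _
            rw [mul_zero, An.c_zero, un_coe, ← hσ, uw_uw]
      | fin τ =>
        by_cases hτ : τ = σ
        · subst hτ
          refine ⟨ei τ, ![0, 0], ?_, ?_⟩
          · rw [KK_ei]
            exact ⟨by show ‖(0 : ℂ)‖ ≤ ρ; rw [norm_zero]; exact hρ0,
              by show ‖(0 : ℂ)‖ ≤ 1; rw [norm_zero]; exact zero_le_one⟩
          · rw [ch_ei, endc_bl hb, pt_bl_zero q D₀ An (by rfl) (by rfl), hpt', hf]
        · have : τ = !σ := bool_eq_not hτ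
          subst this
          exact key2 _ hb' hf
      | exc e =>
        rcases le_total ‖(e : ℂ)‖ 1 with h1 | h1
        · refine ⟨ei σ, ![0, (e : ℂ)], ?_, ?_⟩
          · rw [KK_ei]
            exact ⟨by show ‖(0 : ℂ)‖ ≤ ρ; rw [norm_zero]; exact hρ0, h1⟩
          · rw [ch_ei, endc_bl hb, pt_bl_exc q D₀ An hP (by rfl) (by exact e.ne_zero), hpt', hf]
            show (P, Fib.exc (un (e : ℂ))) = _
            rw [un_coe]
        · refine ⟨2, ![0, ((e⁻¹ : ℂˣ) : ℂ)], ?_, ?_⟩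
          · rw [KK_two]
            refine ⟨hP, ?_, ?_, ?_⟩
            · show ‖(0 : ℂ) * _‖ ≤ ρ
              rw [zero_mul, norm_zero]
              exact hρ0
            · show ‖(0 : ℂ)‖ ≤ 1
              rw [norm_zero]
              exact zero_le_one
            · show ‖((e⁻¹ : ℂˣ) : ℂ)‖ ≤ 1
              rw [Units.val_inv_eq_inv_val, norm_inv]
              exact inv_le_one_of_one_le₀ h1
          · rw [ch_two, pt_mid_exc q D₀ An hP (by rfl) (by exact (e⁻¹).ne_zero), hpt', hf]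
            show (P, Fib.exc (un ((e⁻¹ : ℂˣ) : ℂ))⁻¹) = _
            rw [un_coe, inv_inv]
      | node =>
        refine ⟨2, ![0, 0], ?_, ?_⟩
        · rw [KK_two]
          refine ⟨hP, ?_, ?_, ?_⟩
          · show ‖(0 : ℂ) * 0‖ ≤ ρ
            rw [zero_mul, norm_zero]
            exact hρ0
          · show ‖(0 : ℂ)‖ ≤ 1
            rw [norm_zero]
            exact zero_le_one
          · show ‖(0 : ℂ)‖ ≤ 1
            rw [norm_zero]
            exact zero_le_one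
        · rw [ch_two, pt_mid_node q D₀ An hP (by rfl) (by rfl), hpt', hf]
    · have hQ : ¬ Exc T y.base := by
        rw [hy]
        exact hr.not_exc hsr h0
      have hval := y.val
      cases hf : y.fib with
      | main w =>
        rcases le_total 1 ‖((uw σ w : ℂˣ) : ℂ)‖ with h1 | h1
        · exact key1 (!σ) hb' w (hnot w σ h1) hf
        · set v : ℂ := ((uw σ w : ℂˣ) : ℂ) with hv
          have hv0 : v ≠ 0 := Units.ne_zero _
          rcases le_total ‖s⁻¹ * v‖ 1 with h2 | h2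
          · refine ⟨ei σ, ![s, s⁻¹ * v], ?_, ?_⟩
            · rw [KK_ei]
              exact ⟨hs, h2⟩
            · rw [ch_ei, endc_bl hb, pt_bl_ne q D₀ An (by exact h0), hpt, hf]
              show (An.c P s, pfib σ (s * (s⁻¹ * v))) = _
              rw [mul_inv_cancel_left₀ h0, pfib_ne hv0, hv, un_coe, uw_uw]
          · refine ⟨2, ![v, v⁻¹ * s], ?_, ?_⟩
            · rw [KK_two]
              refine ⟨hP, ?_, h1, ?_⟩
              · show ‖v * (v⁻¹ * s)‖ ≤ ρ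
                rw [mul_inv_cancel_left₀ hv0]
                exact hs
              · show ‖v⁻¹ * s‖ ≤ 1
                have h3 : v⁻¹ * s = (s⁻¹ * v)⁻¹ := by
                  rw [mul_inv, inv_inv, mul_comm]
                rw [h3, norm_inv]
                exact inv_le_one_of_one_le₀ h2
            · rw [ch_two, pt_mid_ne q D₀ An (by exact hv0), hpt, hf]
              show (An.c P (v * (v⁻¹ * s)), Fib.main (uw (sd T P) (un v))) = _
              rw [mul_inv_cancel_left₀ hv0, hv, un_coe, ← hσ, uw_uw]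
      | fin τ =>
        by_cases hτ : τ = σ
        · subst hτ
          refine ⟨ei τ, ![s, 0], ?_, ?_⟩
          · rw [KK_ei]
            exact ⟨hs, by show ‖(0 : ℂ)‖ ≤ 1; rw [norm_zero]; exact zero_le_one⟩
          · rw [ch_ei, endc_bl hb, pt_bl_ne q D₀ An (by exact h0), hpt, hf]
            show (An.c P s, pfib τ (s * 0)) = _
            rw [mul_zero, pfib_zero]
        · have : τ = !σ := bool_eq_not hτ
          subst this
          exact key2 _ hb' hf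
      | exc e =>
        rw [hf] at hval
        exact (hQ hval).elim
      | node =>
        rw [hf] at hval
        exact (hQ hval).elim
  · -- ordinary fibre
    have hb : ∀ σ, ¬ Bl T σ P := fun σ h => hP h.1
    have hQ : ¬ Exc T y.base := by
      rw [hy]
      by_cases h0 : s = 0
      · rw [h0, An.c_zero]
        exact hP
      · exact hr.not_exc hsr h0
    have hval := y.val
    cases hf : y.fib with
    | main w =>
      rcases le_total 1 ‖((uw false w : ℂˣ) : ℂ)‖ with h1 | h1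
      · exact key1 true (hb _) w (hnot w false h1) hf
      · exact key1 false (hb _) w h1 hf
    | fin τ => exact key2 τ (hb _) hf
    | exc e =>
      rw [hf] at hval
      exact (hQ hval).elim
    | node =>
      rw [hf] at hval
      exact (hQ hval).elim

theorem KK_subset {ρ : ℝ} {P : T.X.Pt} (hρ : ρ < r P) (i : Fin 3) : KK ρ (P, i) ⊆ UU r (P, i) := by
  fin_cases i
  · exact fun z hz => lt_of_le_of_lt hz.1 hρ
  · exact fun z hz => lt_of_le_of_lt hz.1 hρ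
  · exact fun z hz => ⟨hz.1, lt_of_le_of_lt hz.2.1 hρ⟩

theorem isCompact_KK (ρ : ℝ) (a : T.X.Pt × Fin 3) : IsCompact (KK ρ a) := by
  have hbd : ∀ (R : ℝ) (A : Set (E 2)), (∀ z ∈ A, ‖z 0‖ ≤ R ∧ ‖z 1‖ ≤ R) → Bornology.IsBounded A := by
    intro R A hA
    refine (isBounded_iff_forall_norm_le (s := A)).2 ⟨max R 0, fun z hz => ?_⟩
    rw [pi_norm_le_iff_of_nonneg (le_max_right _ _)]
    intro i
    obtain ⟨h1, h2⟩ := hA z hz
    fin_cases i
    · exact h1.trans (le_max_left _ _)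
    · exact h2.trans (le_max_left _ _)
  have c0 : Continuous fun z : E 2 => ‖z 0‖ := (continuous_apply 0).norm
  have c1 : Continuous fun z : E 2 => ‖z 1‖ := (continuous_apply 1).norm
  have c2 : Continuous fun z : E 2 => ‖z 0 * z 1‖ :=
    ((continuous_apply 0).mul (continuous_apply 1)).norm
  have k1 : ∀ ρ : ℝ, IsCompact {z : E 2 | ‖z 0‖ ≤ ρ ∧ ‖z 1‖ ≤ 1} := by
    intro ρ
    refine Metric.isCompact_of_isClosed_isBounded ?_ ?_
    · exact (isClosed_le c0 continuous_const).inter (isClosed_le c1 continuous_const)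
    · refine hbd (max ρ 1) _ ?_
      rintro z ⟨h1, h2⟩
      exact ⟨h1.trans (le_max_left _ _), h2.trans (le_max_right _ _)⟩
  revert a
  apply chart_cases
  · intro P σ
    rw [KK_ei]
    exact k1 ρ
  · intro P
    rw [KK_two]
    by_cases h : Exc T P
    · refine Metric.isCompact_of_isClosed_isBounded ?_ ?_
      · have : {z : E 2 | Exc T P ∧ ‖z 0 * z 1‖ ≤ ρ ∧ ‖z 0‖ ≤ 1 ∧ ‖z 1‖ ≤ 1} =
            {z : E 2 | ‖z 0 * z 1‖ ≤ ρ} ∩ ({z : E 2 | ‖z 0‖ ≤ 1} ∩ {z : E 2 | ‖z 1‖ ≤ 1}) := by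
          ext z
          simp [h]
        rw [this]
        exact (isClosed_le c2 continuous_const).inter
          ((isClosed_le c0 continuous_const).inter (isClosed_le c1 continuous_const))
      · refine hbd 1 _ ?_
        rintro z ⟨_, _, h1, h2⟩
        exact ⟨h1, h2⟩
    · have : {z : E 2 | Exc T P ∧ ‖z 0 * z 1‖ ≤ ρ ∧ ‖z 0‖ ≤ 1 ∧ ‖z 1‖ ≤ 1} = ∅ := by
        ext z
        simp [h]
      rw [this]
      exact isCompact_empty

variable (q) in
/-- the atlas before choosing the transition maps -/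
def preAtlas (hr : IsRad D₀ An r) : PreAtlas 2 (YY T) where
  ι := T.X.Pt × Fin 3
  U := UU r
  γ := ch q D₀ An
  isOpen_U := isOpen_UU
  inj a z hz z' hz' c h := by
    have h1 : pt (ch q D₀ An a z') = pt (ch q D₀ An a z) := by rw [h, pt_smul]
    have h2 := inj_ch hr a hz' hz h1
    subst h2
    exact ⟨rfl, smul_free h⟩
  cover y := by
    obtain ⟨i, z, hz, h⟩ := cov (q := q) hr (P := y.base) (ρ := 0) (hr.pos _)
      (s := 0) (by rw [norm_zero]) y (An.c_zero _).symm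
    obtain ⟨c, hc⟩ := eq_smul_of_pt h.symm
    exact ⟨(y.base, i), z, KK_subset (hr.pos _) i hz, c, hc⟩
  loc a b z hz z' hz' c h := by
    have h1 := can_ch (q := q) hr a z hz
    have h2 := can_ch (q := q) hr b z' hz'
    rw [h, pt_smul] at h2
    exact h1.1.trans h2.2

theorem cpt (hr : IsRad D₀ An r) : (preAtlas q hr).toAtlas.IsCpt := by
  obtain ⟨F, hF⟩ := An.cpt (fun P => r P / 2) (fun P => half_pos (hr.pos P))
  let e := Fintype.equivFin (F × Fin 3)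
  refine ⟨Fintype.card (F × Fin 3), fun k => (((e.symm k).1 : T.X.Pt), (e.symm k).2),
    fun k => KK (r (e.symm k).1 / 2) (((e.symm k).1 : T.X.Pt), (e.symm k).2), ?_, ?_⟩
  · intro k
    exact ⟨isCompact_KK _ _, KK_subset (half_lt_self (hr.pos _)) _⟩
  · intro y
    obtain ⟨P, hP, s, hs, hc⟩ := hF y.base
    obtain ⟨i, z, hz, h⟩ := cov (q := q) hr (half_lt_self (hr.pos P)) hs.le y hc.symm
    obtain ⟨c, hc⟩ := eq_smul_of_pt h.symm
    refine ⟨e (⟨P, hP⟩, i), z, ?_, c, ?_⟩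
    · simp only [Equiv.symm_apply_apply]
      exact hz
    · simp only [Equiv.symm_apply_apply]
      exact hc

end Sig

end

end Pool.Agent.YTDA


end

/- source: Pool.Agent.YTDA.SigD -/

section

/-!
The surface `Σ`: the Hausdorff property.
-/

namespace Pool.Agent.YTDA

open Complex Set Topology Metric Filter
open Pool.Agent.YTD

noncomputable section

namespace Sig

variable {K : Type} [Field K] [Algebra ℂ K] {T : Datum K}
variable {q : ℕ} {D₀ : T.X.Pt →₀ ℤ} {An : AnCurve T.X.toCurveOrd} {r : T.X.Pt → ℝ}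

theorem sep_of_pt {γ γ' : E 2 → YY T} {z z' : E 2} {V V' : Set (E 2)} (hV : V ∈ 𝓝 z)
    (hV' : V' ∈ 𝓝 z') (h : ∀ w ∈ V, ∀ w' ∈ V', pt (γ' w') ≠ pt (γ w)) : Sep γ z γ' z' :=
  ⟨V, hV, V', hV', fun w hw w' hw' c hc => h w hw w' hw' (by rw [hc, pt_smul])⟩

theorem base_mkY (P : T.X.Pt) (φ : Fib) (u : ℂˣ) : (mkY T P φ u).base = P := by
  unfold mkY
  by_cases h : Val T P φ
  · rw [dif_pos h]
  · rw [dif_neg h]

theorem smul_base (c : ℂˣ) (y : YY T) : (c • y).base = y.base := rfl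

theorem base_pc (P : T.X.Pt) (σ : Bool) (z : E 2) :
    (pc q D₀ An P σ z).base = An.c P (z 0) := base_mkY _ _ _

theorem base_bl (P : T.X.Pt) (σ : Bool) (z : E 2) :
    (bl q D₀ An P σ z).base = An.c P (z 0) := by
  unfold bl
  by_cases h : z 0 = 0
  · rw [if_pos h, base_mkY, h, An.c_zero]
  · rw [if_neg h, smul_base, base_pc]
    rfl

theorem base_mid (P : T.X.Pt) (z : E 2) :
    (mid q D₀ An P z).base = An.c P (z 0 * z 1) := by
  unfold mid
  by_cases h : z 0 = 0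
  · rw [if_pos h, base_mkY, h, zero_mul, An.c_zero]
  · rw [if_neg h, smul_base, base_pc]
    rfl

/-- the coordinate along the curve in the canonical charts -/
theorem base_can (P : T.X.Pt) (φ : Fib) : ∃ s : E 2 → ℂ, Continuous s ∧ s (canZ φ) = 0 ∧
    ∀ z, (canC q D₀ An (P, φ) z).base = An.c P (s z) := by
  cases φ with
  | main w => exact ⟨fun z => z 0, continuous_apply 0, rfl, base_pc P false⟩
  | fin σ =>
    refine ⟨fun z => z 0, continuous_apply 0, rfl, fun z => ?_⟩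
    rw [canC_fin]
    by_cases hb : Bl T σ P
    · rw [endc_bl hb]
      exact base_bl P σ z
    · rw [endc_pc hb]
      exact base_pc P σ z
  | exc e =>
    refine ⟨fun z => z 0 * z 1, (continuous_apply 0).mul (continuous_apply 1), ?_, base_mid P⟩
    show (0 : ℂ) * _ = 0
    rw [zero_mul]
  | node =>
    refine ⟨fun z => z 0 * z 1, (continuous_apply 0).mul (continuous_apply 1), ?_, base_mid P⟩
    show (0 : ℂ) * _ = 0
    rw [zero_mul]

theorem sep_base {P Q : T.X.Pt} (hPQ : P ≠ Q) (φ ψ : Fib) :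
    Sep (canC q D₀ An (P, φ)) (canZ φ) (canC q D₀ An (Q, ψ)) (canZ ψ) := by
  obtain ⟨s, hs, hs0, hsb⟩ := base_can (q := q) (D₀ := D₀) (An := An) P φ
  obtain ⟨s', hs', hs0', hsb'⟩ := base_can (q := q) (D₀ := D₀) (An := An) Q ψ
  obtain ⟨ε, hε, h⟩ := An.t2 P Q hPQ
  have h1 : {z | ‖s z‖ < ε} ∈ 𝓝 (canZ φ) := by
    apply (isOpen_lt hs.norm continuous_const).mem_nhds
    show ‖s (canZ φ)‖ < ε
    rw [hs0, norm_zero]
    exact hε
  have h2 : {z | ‖s' z‖ < ε} ∈ 𝓝 (canZ ψ) := by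
    apply (isOpen_lt hs'.norm continuous_const).mem_nhds
    show ‖s' (canZ ψ)‖ < ε
    rw [hs0', norm_zero]
    exact hε
  refine sep_of_pt h1 h2 fun w hw w' hw' he => ?_
  have h3 : (canC q D₀ An (Q, ψ) w').base = (canC q D₀ An (P, φ) w).base := congrArg Prod.fst he
  rw [hsb, hsb'] at h3
  exact h _ _ hw hw' h3.symm

/-! ### Relations between the fibre coordinates of different charts -/

theorem rel_pc {P : T.X.Pt} {σ : Bool} {z z' : E 2}
    (h : pt (pc q D₀ An P (!σ) z') = pt (pc q D₀ An P σ z)) : z 1 * z' 1 = 1 := by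
  rw [pt_pc, pt_pc] at h
  have h1 : pfib (!σ) (z' 1) = pfib σ (z 1) := congrArg Prod.snd h
  by_cases h0 : z 1 = 0 <;> by_cases h0' : z' 1 = 0
  · rw [h0, h0', pfib_zero, pfib_zero] at h1
    have h2 : (!σ) = σ := by injection h1
    cases σ <;> simp at h2
  · rw [h0, pfib_zero, pfib_ne h0'] at h1
    cases h1
  · rw [h0', pfib_zero, pfib_ne h0] at h1
    cases h1
  · rw [pfib_ne h0, pfib_ne h0'] at h1
    have h2 : uw (!σ) (un (z' 1)) = uw σ (un (z 1)) := by injection h1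
    rw [uw_not, ← uw_inv] at h2
    have h3 := uw_inj _ h2
    rw [← un_ne h0, ← h3, Units.val_inv_eq_inv_val, un_ne h0', inv_mul_cancel₀ h0']

theorem pfib_ne_exc {σ : Bool} {v : ℂ} {e : ℂˣ} : pfib σ v ≠ .exc e := by
  by_cases h : v = 0
  · rw [h, pfib_zero]
    exact fun h => by cases h
  · rw [pfib_ne h]
    exact fun h => by cases h

theorem pfib_ne_node {σ : Bool} {v : ℂ} : pfib σ v ≠ .node := by
  by_cases h : v = 0
  · rw [h, pfib_zero]
    exact fun h => by cases h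
  · rw [pfib_ne h]
    exact fun h => by cases h

theorem rel_mid_pc {P : T.X.Pt} (hP : Exc T P) {z z' : E 2}
    (h : pt (pc q D₀ An P (!sd T P) z') = pt (mid q D₀ An P z)) : z 0 * z' 1 = 1 := by
  rw [pt_pc] at h
  by_cases h0 : z 0 = 0
  · by_cases h1 : z 1 = 0
    · rw [pt_mid_node q D₀ An hP h0 h1] at h
      exact (pfib_ne_node (congrArg Prod.snd h)).elim
    · rw [pt_mid_exc q D₀ An hP h0 h1] at h
      exact (pfib_ne_exc (congrArg Prod.snd h)).elim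
  · rw [pt_mid_ne q D₀ An h0] at h
    have h1 : pfib (!sd T P) (z' 1) = .main (uw (sd T P) (un (z 0))) := congrArg Prod.snd h
    by_cases h0' : z' 1 = 0
    · rw [h0', pfib_zero] at h1
      cases h1
    · rw [pfib_ne h0'] at h1
      have h2 : uw (!sd T P) (un (z' 1)) = uw (sd T P) (un (z 0)) := by injection h1
      rw [uw_not, ← uw_inv] at h2
      have h3 := uw_inj _ h2
      rw [← un_ne h0, ← h3, Units.val_inv_eq_inv_val, un_ne h0', inv_mul_cancel₀ h0']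

theorem rel_bl_pc {P : T.X.Pt} (hP : Exc T P) {σ : Bool} {z z' : E 2}
    (h : pt (pc q D₀ An P (!σ) z') = pt (bl q D₀ An P σ z)) : z 0 * z 1 * z' 1 = 1 := by
  by_cases h0 : z 0 = 0
  · rw [pt_pc] at h
    by_cases h1 : z 1 = 0
    · rw [pt_bl_zero q D₀ An h0 h1] at h
      have h1 : pfib (!σ) (z' 1) = .fin σ := congrArg Prod.snd h
      by_cases h0' : z' 1 = 0
      · rw [h0', pfib_zero] at h1
        have h2 : (!σ) = σ := by injection h1
        cases σ <;> simp at h2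
      · rw [pfib_ne h0'] at h1
        cases h1
    · rw [pt_bl_exc q D₀ An hP h0 h1] at h
      exact (pfib_ne_exc (congrArg Prod.snd h)).elim
  · have h1 : pt (bl q D₀ An P σ z) = pt (pc q D₀ An P σ ![z 0, z 0 * z 1]) := by
      rw [pt_bl_ne q D₀ An h0, pt_pc]
      rfl
    rw [h1] at h
    exact rel_pc h

theorem rel_mid_bl (hr : IsRad D₀ An r) {P : T.X.Pt} (hP : Exc T P) {z z' : E 2}
    (hz : z 0 * z 1 ∈ ball (0 : ℂ) (r P)) (hz' : z' 0 ∈ ball (0 : ℂ) (r P))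
    (h : pt (bl q D₀ An P (sd T P) z') = pt (mid q D₀ An P z)) : z 1 * z' 1 = 1 := by
  by_cases h0' : z' 0 = 0
  · by_cases h1' : z' 1 = 0
    · rw [pt_bl_zero q D₀ An h0' h1'] at h
      by_cases h0 : z 0 = 0
      · by_cases h1 : z 1 = 0
        · rw [pt_mid_node q D₀ An hP h0 h1] at h
          have h2 := congrArg Prod.snd h
          cases h2
        · rw [pt_mid_exc q D₀ An hP h0 h1] at h
          have h2 := congrArg Prod.snd h
          cases h2
      · rw [pt_mid_ne q D₀ An h0] at h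
        have h2 := congrArg Prod.snd h
        cases h2
    · rw [pt_bl_exc q D₀ An hP h0' h1'] at h
      by_cases h0 : z 0 = 0
      · by_cases h1 : z 1 = 0
        · rw [pt_mid_node q D₀ An hP h0 h1] at h
          have h2 := congrArg Prod.snd h
          cases h2
        · rw [pt_mid_exc q D₀ An hP h0 h1] at h
          have h2 : Fib.exc (un (z' 1)) = Fib.exc (un (z 1))⁻¹ := congrArg Prod.snd h
          have h3 : un (z' 1) = (un (z 1))⁻¹ := by injection h2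
          rw [← un_ne h1', h3, Units.val_inv_eq_inv_val, un_ne h1, mul_inv_cancel₀ h1]
      · rw [pt_mid_ne q D₀ An h0] at h
        have h2 := congrArg Prod.snd h
        cases h2
  · rw [pt_bl_ne q D₀ An h0'] at h
    by_cases h0 : z 0 = 0
    · by_cases h1 : z 1 = 0
      · rw [pt_mid_node q D₀ An hP h0 h1] at h
        exact (pfib_ne_node (congrArg Prod.snd h)).elim
      · rw [pt_mid_exc q D₀ An hP h0 h1] at h
        exact (pfib_ne_exc (congrArg Prod.snd h)).elim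
    · rw [pt_mid_ne q D₀ An h0] at h
      have h1 : An.c P (z' 0) = An.c P (z 0 * z 1) := congrArg Prod.fst h
      have h2 := hr.inj hz' hz h1
      have h3 : pfib (sd T P) (z' 0 * z' 1) = .main (uw (sd T P) (un (z 0))) :=
        congrArg Prod.snd h
      by_cases h4 : z' 0 * z' 1 = 0
      · rw [h4, pfib_zero] at h3
        cases h3
      · rw [pfib_ne h4] at h3
        have h5 : uw (sd T P) (un (z' 0 * z' 1)) = uw (sd T P) (un (z 0)) := by injection h3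
        have h6 : z' 0 * z' 1 = z 0 := by
          rw [← un_ne h4, uw_inj _ h5, un_ne h0]
        apply mul_left_cancel₀ h0
        rw [← mul_assoc, ← h2, h6, mul_one]

/-- separation by a relation `a · b = 1` -/
theorem sep_rel {γ γ' : E 2 → YY T} {z z' : E 2} {a b : E 2 → ℂ} (ha : Continuous a)
    (hb : Continuous b) (ha0 : a z = 0) (hb0 : b z' = 0) {U U' : Set (E 2)} (hU : U ∈ 𝓝 z)
    (hU' : U' ∈ 𝓝 z')
    (h : ∀ w ∈ U, ∀ w' ∈ U', pt (γ' w') = pt (γ w) → a w * b w' = 1) : Sep γ z γ' z' := by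
  have h1 : {w | ‖a w‖ < 1} ∈ 𝓝 z := by
    apply (isOpen_lt ha.norm continuous_const).mem_nhds
    show ‖a z‖ < 1
    rw [ha0, norm_zero]
    exact one_pos
  have h2 : {w | ‖b w‖ < 1} ∈ 𝓝 z' := by
    apply (isOpen_lt hb.norm continuous_const).mem_nhds
    show ‖b z'‖ < 1
    rw [hb0, norm_zero]
    exact one_pos
  refine sep_of_pt (Filter.inter_mem h1 hU) (Filter.inter_mem h2 hU') ?_
  rintro w ⟨hw, hwU⟩ w' ⟨hw', hwU'⟩ he
  have h3 := congrArg norm (h w hwU w' hwU' he)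
  rw [norm_mul, norm_one] at h3
  have h4 : ‖a w‖ * ‖b w'‖ < 1 * 1 :=
    mul_lt_mul'' hw hw' (norm_nonneg _) (norm_nonneg _)
  linarith

theorem nhds_pc (hr : IsRad D₀ An r) (P : T.X.Pt) (v : ℂ) :
    {z : E 2 | z 0 ∈ ball (0 : ℂ) (r P)} ∈ 𝓝 (![0, v] : E 2) :=
  (isOpen_ball.preimage (continuous_apply 0)).mem_nhds (hr.zero_mem P)

theorem nhds_mid (hr : IsRad D₀ An r) (P : T.X.Pt) {v f : ℂ} (h : v * f = 0) :
    {z : E 2 | z 0 * z 1 ∈ ball (0 : ℂ) (r P)} ∈ 𝓝 (![v, f] : E 2) := by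
  refine (isOpen_ball.preimage ((continuous_apply 0).mul (continuous_apply 1))).mem_nhds ?_
  show v * f ∈ ball (0 : ℂ) (r P)
  rw [h]
  exact hr.zero_mem P

theorem sep_inj_pc (hr : IsRad D₀ An r) (P : T.X.Pt) (σ : Bool) {v v' : ℂ} (h : v ≠ v') :
    Sep (pc q D₀ An P σ) ![0, v] (pc q D₀ An P σ) ![0, v'] := by
  refine Sep.of_inj (U := {z : E 2 | z 0 ∈ ball (0 : ℂ) (r P)})
    (isOpen_ball.preimage (continuous_apply 0)) (hr.zero_mem P) (hr.zero_mem P) ?_ ?_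
  · intro z hz z' hz' c hc
    exact inj_pc hr hz' hz (by rw [hc, pt_smul])
  · intro he
    exact h (congrFun he 1)

theorem sep_inj_bl (hr : IsRad D₀ An r) {P : T.X.Pt} (hP : Exc T P) (σ : Bool) {v v' : ℂ}
    (h : v ≠ v') : Sep (bl q D₀ An P σ) ![0, v] (bl q D₀ An P σ) ![0, v'] := by
  refine Sep.of_inj (U := {z : E 2 | z 0 ∈ ball (0 : ℂ) (r P)})
    (isOpen_ball.preimage (continuous_apply 0)) (hr.zero_mem P) (hr.zero_mem P) ?_ ?_
  · intro z hz z' hz' c hc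
    exact inj_bl hr hP hz' hz (by rw [hc, pt_smul])
  · intro he
    exact h (congrFun he 1)

theorem sep_inj_mid (hr : IsRad D₀ An r) {P : T.X.Pt} (hP : Exc T P) {z z' : E 2}
    (h0 : z 0 * z 1 = 0) (h0' : z' 0 * z' 1 = 0)
    (h : z ≠ z') : Sep (mid q D₀ An P) z (mid q D₀ An P) z' := by
  refine Sep.of_inj (U := {z : E 2 | z 0 * z 1 ∈ ball (0 : ℂ) (r P)})
    (isOpen_ball.preimage ((continuous_apply 0).mul (continuous_apply 1)))
    (by show z 0 * z 1 ∈ ball (0 : ℂ) (r P); rw [h0]; exact hr.zero_mem P)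
    (by show z' 0 * z' 1 ∈ ball (0 : ℂ) (r P); rw [h0']; exact hr.zero_mem P) ?_ h
  intro z hz z' hz' c hc
  exact inj_mid hr hP hz' hz (by rw [hc, pt_smul])

/-- a point of the main component in a plain chart -/
theorem loc_main (P : T.X.Pt) (σ : Bool) (w : ℂˣ) :
    Loc (pc q D₀ An P false) ![0, (w : ℂ)] (pc q D₀ An P σ) ![0, ((uw σ w : ℂˣ) : ℂ)] := by
  cases σ
  · exact Loc.refl _ _
  · have h := loc_pc_not q D₀ An P false (s := 0) w.ne_zero
    rw [uw_true, Units.val_inv_eq_inv_val]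
    exact h

/-- a point of the main component in the middle chart -/
theorem loc_main_mid (P : T.X.Pt) (w : ℂˣ) :
    Loc (pc q D₀ An P false) ![0, (w : ℂ)] (mid q D₀ An P)
      ![((uw (sd T P) w : ℂˣ) : ℂ), 0] := by
  have h1 := loc_main (q := q) (D₀ := D₀) (An := An) P (!sd T P) w
  have h2 := (locS_mid_pc q D₀ An P (v := ((uw (sd T P) w : ℂˣ) : ℂ)) (f := 0)
    (Units.ne_zero _)).2
  rw [mul_zero, ← Units.val_inv_eq_inv_val, ← uw_not] at h2
  exact h1.trans h2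

theorem sep_fib (hr : IsRad D₀ An r) (P : T.X.Pt) {φ ψ : Fib} (hφ : Val T P φ)
    (hψ : Val T P ψ) (hne : φ ≠ ψ) :
    Sep (canC q D₀ An (P, φ)) (canZ φ) (canC q D₀ An (P, ψ)) (canZ ψ) ∨
    Sep (canC q D₀ An (P, ψ)) (canZ ψ) (canC q D₀ An (P, φ)) (canZ φ) := by
  -- the different pairs
  have main_fin : ∀ (w : ℂˣ) (σ : Bool), Sep (canC q D₀ An (P, .main w)) (canZ (.main w))
      (canC q D₀ An (P, .fin σ)) (canZ (.fin σ)) := by
    intro w σ
    rw [canC_fin]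
    by_cases hb : Bl T σ P
    · rw [endc_bl hb]
      have h1 := loc_main_mid (q := q) (D₀ := D₀) (An := An) P w
      refine Sep.of_loc h1 ?_
      refine sep_rel (continuous_apply 1) (continuous_apply 1) rfl rfl
        (nhds_mid hr P (mul_zero _)) (nhds_pc hr P 0) fun w hw w' hw' he => ?_
      rw [← hb.2] at he
      exact rel_mid_bl hr hb.1 hw hw' he
    · rw [endc_pc hb]
      exact Sep.of_loc (loc_main P σ w) (sep_inj_pc hr P σ (Units.ne_zero _))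
  have main_mid : Exc T P → ∀ (w : ℂˣ) (f : ℂ), Sep (canC q D₀ An (P, .main w))
      (canZ (.main w)) (mid q D₀ An P) ![0, f] := by
    intro hP w f
    refine Sep.of_loc (loc_main_mid P w) (sep_inj_mid hr hP ?_ ?_ ?_)
    · exact mul_zero _
    · exact zero_mul _
    · intro he
      exact (Units.ne_zero (uw (sd T P) w)) (congrFun he 0)
  have fin_mid : Exc T P → ∀ (f : ℂ), Sep (pc q D₀ An P (!sd T P)) ![0, 0]
      (mid q D₀ An P) ![0, f] := by
    intro hP f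
    refine sep_rel (continuous_apply 1) (continuous_apply 0) rfl rfl
      Filter.univ_mem Filter.univ_mem fun w hw w' hw' he => ?_
    rw [mul_comm]
    exact rel_mid_pc hP he.symm
  have bl_or : ∀ σ, Exc T P → (Bl T σ P ∧ sd T P = σ) ∨ (¬ Bl T σ P ∧ σ = !sd T P) := by
    intro σ hP
    by_cases h : sd T P = σ
    · exact Or.inl ⟨⟨hP, h⟩, h⟩
    · refine Or.inr ⟨fun hb => h hb.2, bool_eq_not (Ne.symm h)⟩
  cases φ with
  | main w =>
    cases ψ with
    | main w' =>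
      left
      refine sep_inj_pc hr P false ?_
      intro he
      exact hne (by rw [Units.ext he])
    | fin σ => exact Or.inl (main_fin w σ)
    | exc e => exact Or.inl (main_mid hψ w _)
    | node => exact Or.inl (main_mid hψ w _)
  | fin σ =>
    cases ψ with
    | main w' => exact Or.inr (main_fin w' σ)
    | fin τ =>
      have hτ : τ = !σ := bool_eq_not (fun h => hne (by rw [h]))
      subst hτ
      -- one of the two ends is plain
      have key : ∀ σ, ¬ Bl T (!σ) P → Sep (canC q D₀ An (P, .fin σ)) (canZ (.fin σ))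
          (canC q D₀ An (P, .fin (!σ))) (canZ (.fin (!σ))) := by
        intro σ h1
        rw [canC_fin, canC_fin, endc_pc h1]
        by_cases hb : Bl T σ P
        · rw [endc_bl hb]
          refine sep_rel (a := fun z => z 0 * z 1)
            ((continuous_apply 0).mul (continuous_apply 1)) (continuous_apply 1)
            (zero_mul _) rfl Filter.univ_mem Filter.univ_mem fun w hw w' hw' he => ?_
          exact rel_bl_pc hb.1 he
        · rw [endc_pc hb]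
          refine sep_rel (continuous_apply 1) (continuous_apply 1) rfl rfl
            Filter.univ_mem Filter.univ_mem fun w hw w' hw' he => ?_
          exact rel_pc he
      by_cases hb : Bl T (!σ) P
      · right
        have h2 : ¬ Bl T (!!σ) P := by
          rintro ⟨_, h⟩
          have h3 := hb.2
          rw [h] at h3
          cases σ <;> simp at h3
        have h4 := key (!σ) h2
        rw [Bool.not_not] at h4
        exact h4
      · exact Or.inl (key σ hb)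
    | exc e =>
      rcases bl_or σ hψ with ⟨h1, h2⟩ | ⟨h1, h2⟩
      · right
        rw [canC_fin, endc_bl h1]
        have h3 := locS_bl_mid q D₀ An P (s := 0) (v := (e : ℂ)) e.ne_zero
        rw [zero_mul, ← Units.val_inv_eq_inv_val, h2] at h3
        exact Sep.of_loc h3.2 (sep_inj_bl hr hψ σ e.ne_zero)
      · left
        rw [canC_fin, endc_pc h1, h2]
        exact fin_mid hψ _
    | node =>
      rcases bl_or σ hψ with ⟨h1, h2⟩ | ⟨h1, h2⟩
      · right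
        rw [canC_fin, endc_bl h1]
        refine sep_rel (continuous_apply 1) (continuous_apply 1) rfl rfl
          (nhds_mid hr P (mul_zero _)) (nhds_pc hr P 0) fun w hw w' hw' he => ?_
        rw [← h2] at he
        exact rel_mid_bl hr hψ hw hw' he
      · left
        rw [canC_fin, endc_pc h1, h2]
        exact fin_mid hψ _
  | exc e =>
    cases ψ with
    | main w' => exact Or.inr (main_mid hφ w' _)
    | fin σ =>
      rcases bl_or σ hφ with ⟨h1, h2⟩ | ⟨h1, h2⟩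
      · left
        rw [canC_fin, endc_bl h1]
        have h3 := locS_bl_mid q D₀ An P (s := 0) (v := (e : ℂ)) e.ne_zero
        rw [zero_mul, ← Units.val_inv_eq_inv_val, h2] at h3
        exact Sep.of_loc h3.2 (sep_inj_bl hr hφ σ e.ne_zero)
      · right
        rw [canC_fin, endc_pc h1, h2]
        exact fin_mid hφ _
    | exc e' =>
      left
      refine sep_inj_mid hr hφ (zero_mul _) (zero_mul _) ?_
      intro he
      have h1 : ((e⁻¹ : ℂˣ) : ℂ) = ((e'⁻¹ : ℂˣ) : ℂ) := congrFun he 1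
      exact hne (by rw [inv_injective (Units.ext h1)])
    | node =>
      left
      refine sep_inj_mid hr hφ (zero_mul _) (zero_mul _) ?_
      intro he
      exact Units.ne_zero (e⁻¹) (congrFun he 1)
  | node =>
    cases ψ with
    | main w' => exact Or.inr (main_mid hφ w' _)
    | fin σ =>
      rcases bl_or σ hφ with ⟨h1, h2⟩ | ⟨h1, h2⟩
      · left
        rw [canC_fin, endc_bl h1]
        refine sep_rel (continuous_apply 1) (continuous_apply 1) rfl rfl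
          (nhds_mid hr P (mul_zero _)) (nhds_pc hr P 0) fun w hw w' hw' he => ?_
        rw [← h2] at he
        exact rel_mid_bl hr hφ hw hw' he
      · right
        rw [canC_fin, endc_pc h1, h2]
        exact fin_mid hφ _
    | exc e' =>
      right
      refine sep_inj_mid hr hφ (zero_mul _) (zero_mul _) ?_
      intro he
      exact Units.ne_zero (e'⁻¹) (congrFun he 1)
    | node => exact (hne rfl).elim

theorem t2 (hr : IsRad D₀ An r) : (preAtlas q hr).toAtlas.IsT2 := by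
  apply PreAtlas.isT2
  intro a b z hz z' hz' hne
  have h1 := can_ch (q := q) hr a z hz
  have h2 := can_ch (q := q) hr b z' hz'
  have hpt : pt (ch q D₀ An a z) ≠ pt (ch q D₀ An b z') := by
    intro h
    obtain ⟨c, hc⟩ := eq_smul_of_pt h.symm
    exact hne c hc
  refine Sep.of_loc₂ h1.1 h2.1 ?_
  have hv1 := pt_val (ch q D₀ An a z)
  have hv2 := pt_val (ch q D₀ An b z')
  generalize pt (ch q D₀ An a z) = p at *
  generalize pt (ch q D₀ An b z') = p' at *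
  obtain ⟨P, φ⟩ := p
  obtain ⟨Q, ψ⟩ := p'
  by_cases hPQ : P = Q
  · subst hPQ
    rcases sep_fib (q := q) hr P hv1 hv2 (fun h => hpt (congrArg (Prod.mk P) h)) with h | h
    · exact h
    · exact h.symm
  · exact sep_base hPQ φ ψ

end Sig

end

end Pool.Agent.YTDA


end

/- source: Pool.Agent.YTDA.SigE -/

section

/-!
The surface `Σ`: the action, the canonical radii, and the model.
-/

namespace Pool.Agent.YTDA

open Complex Set Topology Metric Filter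
open Pool.Agent.YTD

noncomputable section

namespace Sig

variable {K : Type} [Field K] [Algebra ℂ K] {T : Datum K}

/-! ### The action -/

/-- action on the fibre coordinate -/
def actF (P : T.X.Pt) (c : ℂˣ) : Fib → Fib
  | .main w => .main (c * w)
  | .fin σ => .fin σ
  | .exc e => .exc (uw (sd T P) c * e)
  | .node => .node

/-- action on the frame -/
def actU (q : ℕ) (P : T.X.Pt) (c : ℂˣ) : Fib → ℂˣ
  | .main _ => 1
  | .fin σ => uw σ c ^ (-(5 * (q : ℤ)))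
  | .exc _ => uw (sd T P) c ^ (-(4 * (q : ℤ)))
  | .node => uw (sd T P) c ^ (-(4 * (q : ℤ)))

theorem val_actF {P : T.X.Pt} (c : ℂˣ) {φ : Fib} (h : Val T P φ) : Val T P (actF P c φ) := by
  cases φ <;> exact h

/-- the action on the line bundle -/
def act (q : ℕ) (c : ℂˣ) (y : YY T) : YY T :=
  ⟨y.base, actF y.base c y.fib, actU q y.base c y.fib * y.u, val_actF c y.val⟩

theorem act_one (q : ℕ) (y : YY T) : act q 1 y = y := by
  obtain ⟨P, φ, u, h⟩ := y
  have e1 : ∀ σ, uw σ (1 : ℂˣ) = 1 := by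
    intro σ
    cases σ
    · rfl
    · exact inv_one
  apply YY.ext'
  · rfl
  · cases φ with
    | main w => show Fib.main (1 * w) = _; rw [one_mul]
    | fin σ => rfl
    | exc e => show Fib.exc (uw (sd T P) 1 * e) = _; rw [e1, one_mul]
    | node => rfl
  · show actU q P 1 φ * u = u
    cases φ with
    | main w => exact one_mul u
    | fin σ => show uw σ 1 ^ _ * u = u; rw [e1, one_zpow, one_mul]
    | exc e => show uw _ 1 ^ _ * u = u; rw [e1, one_zpow, one_mul]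
    | node => show uw _ 1 ^ _ * u = u; rw [e1, one_zpow, one_mul]

theorem act_mul (q : ℕ) (c c' : ℂˣ) (y : YY T) : act q (c * c') y = act q c (act q c' y) := by
  obtain ⟨P, φ, u, h⟩ := y
  apply YY.ext'
  · rfl
  · cases φ with
    | main w => show Fib.main (c * c' * w) = Fib.main (c * (c' * w)); rw [mul_assoc]
    | fin σ => rfl
    | exc e =>
      show Fib.exc (uw (sd T P) (c * c') * e) = Fib.exc (uw (sd T P) c * (uw (sd T P) c' * e))
      rw [uw_mul, mul_assoc]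
    | node => rfl
  · show actU q P (c * c') φ * u = actU q P c (actF P c' φ) * (actU q P c' φ * u)
    cases φ with
    | main w => show 1 * u = 1 * (1 * u); rw [one_mul, one_mul]
    | fin σ =>
      show uw σ (c * c') ^ _ * u = uw σ c ^ _ * (uw σ c' ^ _ * u)
      rw [uw_mul, mul_zpow, mul_assoc]
    | exc e =>
      show uw _ (c * c') ^ _ * u = uw _ c ^ _ * (uw _ c' ^ _ * u)
      rw [uw_mul, mul_zpow, mul_assoc]
    | node =>
      show uw _ (c * c') ^ _ * u = uw _ c ^ _ * (uw _ c' ^ _ * u)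
      rw [uw_mul, mul_zpow, mul_assoc]

theorem act_smul (q : ℕ) (c c' : ℂˣ) (y : YY T) : act q c (c' • y) = c' • act q c y := by
  apply YY.ext'
  · rfl
  · rfl
  · show actU q y.base c y.fib * (c' * y.u) = c' * (actU q y.base c y.fib * y.u)
    rw [mul_left_comm]

theorem act_mkY (q : ℕ) (c : ℂˣ) {P : T.X.Pt} {φ : Fib} (h : Val T P φ) (u : ℂˣ) :
    act q c (mkY T P φ u) = mkY T P (actF P c φ) (actU q P c φ * u) := by
  rw [mkY_of h, mkY_of (val_actF c h)]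
  rfl

variable {q : ℕ} {D₀ : T.X.Pt →₀ ℤ} {An : AnCurve T.X.toCurveOrd} {r : T.X.Pt → ℝ}

theorem act_oo (c w : ℂˣ) (P : T.X.Pt) (s : ℂ) :
    act q c (oo D₀ An P s w) = oo D₀ An P s (c * w) := by
  unfold oo
  rw [act_mkY q c (P := An.c P s) (φ := .main w) trivial]
  show mkY T (An.c P s) (.main (c * w)) (1 * _) = _
  rw [one_mul]

theorem act_pc (c : ℂˣ) (P : T.X.Pt) (σ : Bool) (s v : ℂ) :
    act q c (pc q D₀ An P σ ![s, v]) =
      uw σ c ^ (-(5 * (q : ℤ))) • pc q D₀ An P σ ![s, ((uw σ c : ℂˣ) : ℂ) * v] := by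
  unfold pc
  rw [act_mkY q c (val_pfib _ _ _), smul_mkY]
  show mkY T (An.c P s) (actF (An.c P s) c (pfib σ v)) (actU q (An.c P s) c (pfib σ v) *
    (un v ^ (5 * (q : ℤ)) * upow s (D₀ P))) = mkY T (An.c P s) (pfib σ (((uw σ c : ℂˣ) : ℂ) * v))
    (uw σ c ^ (-(5 * (q : ℤ))) * (un (((uw σ c : ℂˣ) : ℂ) * v) ^ (5 * (q : ℤ)) *
      upow s (D₀ P)))
  by_cases hv : v = 0
  · subst hv
    rw [mul_zero, pfib_zero]
    rfl
  · rw [pfib_ne hv, pfib_ne (mul_ne_zero (Units.ne_zero _) hv),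
      un_mul (Units.ne_zero _) hv, un_coe, uw_mul, uw_uw, mul_zpow]
    show mkY T _ (.main (c * uw σ (un v))) (1 * _) = _
    rw [one_mul, mul_assoc, ← mul_assoc (uw σ c ^ (-(5 * (q : ℤ)))), ← zpow_add,
      neg_add_cancel, zpow_zero, one_mul]

theorem act_bl (c : ℂˣ) {P : T.X.Pt} {σ : Bool} (hP : Bl T σ P) (s v : ℂ) :
    act q c (bl q D₀ An P σ ![s, v]) =
      uw σ c ^ (-(5 * (q : ℤ))) • bl q D₀ An P σ ![s, ((uw σ c : ℂˣ) : ℂ) * v] := by
  by_cases hs : s = 0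
  · subst hs
    unfold bl
    rw [if_pos (show (![0, v] : E 2) 0 = 0 from rfl),
      if_pos (show (![0, ((uw σ c : ℂˣ) : ℂ) * v] : E 2) 0 = 0 from rfl)]
    by_cases hv : v = 0
    · subst hv
      rw [mul_zero, if_pos (show (![0, 0] : E 2) 1 = 0 from rfl),
        act_mkY q c (P := P) (φ := .fin σ) trivial, smul_mkY]
      rfl
    · rw [if_neg (show (![0, v] : E 2) 1 ≠ 0 from hv),
        if_neg (show (![0, ((uw σ c : ℂˣ) : ℂ) * v] : E 2) 1 ≠ 0 from
          mul_ne_zero (Units.ne_zero _) hv), act_mkY q c (by exact hP.1), smul_mkY]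
      show mkY T P (.exc (uw (sd T P) c * un v)) (uw (sd T P) c ^ (-(4 * (q : ℤ))) *
        un v ^ (q : ℤ)) = mkY T P (.exc (un (((uw σ c : ℂˣ) : ℂ) * v)))
          (uw σ c ^ (-(5 * (q : ℤ))) * un (((uw σ c : ℂˣ) : ℂ) * v) ^ (q : ℤ))
      rw [hP.2, un_mul (Units.ne_zero _) hv, un_coe, mul_zpow, ← mul_assoc, ← zpow_add]
      congr 3
      ring
  · unfold bl
    rw [if_neg (show (![s, v] : E 2) 0 ≠ 0 from hs),
      if_neg (show (![s, ((uw σ c : ℂˣ) : ℂ) * v] : E 2) 0 ≠ 0 from hs), act_smul]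
    show un s ^ (-(q : ℤ)) • act q c (pc q D₀ An P σ ![s, s * v]) =
      uw σ c ^ (-(5 * (q : ℤ))) • un s ^ (-(q : ℤ)) • pc q D₀ An P σ
        ![s, s * (((uw σ c : ℂˣ) : ℂ) * v)]
    rw [act_pc, smul_smul, smul_smul, mul_comm (un s ^ (-(q : ℤ))), mul_left_comm s]

theorem act_mid (c : ℂˣ) {P : T.X.Pt} (hP : Exc T P) (v f : ℂ) :
    act q c (mid q D₀ An P ![v, f]) =
      uw (sd T P) c ^ (-(4 * (q : ℤ))) • mid q D₀ An P ![((uw (sd T P) c : ℂˣ) : ℂ) * v,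
        (((uw (sd T P) c)⁻¹ : ℂˣ) : ℂ) * f] := by
  generalize hσ : sd T P = σ
  have hc0 : ((uw σ c : ℂˣ) : ℂ) ≠ 0 := Units.ne_zero _
  by_cases hv : v = 0
  · subst hv
    unfold mid
    rw [mul_zero, if_pos (show (![0, f] : E 2) 0 = 0 from rfl),
      if_pos (show (![0, (((uw σ c)⁻¹ : ℂˣ) : ℂ) * f] : E 2) 0 = 0 from rfl)]
    by_cases hf : f = 0
    · subst hf
      rw [mul_zero, if_pos (show (![0, 0] : E 2) 1 = 0 from rfl), act_mkY q c (by exact hP),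
        smul_mkY]
      show mkY T P .node (uw (sd T P) c ^ (-(4 * (q : ℤ))) * 1) = _
      rw [hσ]
    · rw [if_neg (show (![0, f] : E 2) 1 ≠ 0 from hf),
        if_neg (show (![0, (((uw σ c)⁻¹ : ℂˣ) : ℂ) * f] : E 2) 1 ≠ 0 from
          mul_ne_zero (Units.ne_zero _) hf), act_mkY q c (by exact hP), smul_mkY]
      show mkY T P (.exc (uw (sd T P) c * (un f)⁻¹)) (uw (sd T P) c ^ (-(4 * (q : ℤ))) * 1) =
        mkY T P (.exc (un ((((uw σ c)⁻¹ : ℂˣ) : ℂ) * f))⁻¹) (uw σ c ^ (-(4 * (q : ℤ))) * 1)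
      rw [hσ, un_mul (Units.ne_zero _) hf, un_coe, mul_inv, inv_inv]
  · unfold mid
    rw [if_neg (show (![v, f] : E 2) 0 ≠ 0 from hv),
      if_neg (show (![((uw σ c : ℂˣ) : ℂ) * v, (((uw σ c)⁻¹ : ℂˣ) : ℂ) * f] : E 2) 0 ≠ 0 from
        mul_ne_zero hc0 hv), act_smul]
    show un v ^ (9 * (q : ℤ)) • act q c (pc q D₀ An P (!sd T P) ![v * f, v⁻¹]) =
      uw σ c ^ (-(4 * (q : ℤ))) • un (((uw σ c : ℂˣ) : ℂ) * v) ^ (9 * (q : ℤ)) •
        pc q D₀ An P (!sd T P) ![((uw σ c : ℂˣ) : ℂ) * v * ((((uw σ c)⁻¹ : ℂˣ) : ℂ) * f),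
          (((uw σ c : ℂˣ) : ℂ) * v)⁻¹]
    have e1 : ((uw σ c : ℂˣ) : ℂ) * v * ((((uw σ c)⁻¹ : ℂˣ) : ℂ) * f) = v * f := by
      rw [Units.val_inv_eq_inv_val]
      field_simp
    rw [e1, act_pc, hσ, uw_not, un_mul hc0 hv, un_coe, smul_smul, smul_smul, mul_inv,
      Units.val_inv_eq_inv_val, mul_zpow, inv_zpow', neg_neg, ← mul_assoc, ← zpow_add,
      mul_comm (un v ^ (9 * (q : ℤ)))]
    congr 3
    ring

/-- the weights of the coordinates -/
def kk (a : T.X.Pt × Fin 3) : Fin 2 → ℤ :=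
  match a.2 with
  | 0 => ![0, 1]
  | 1 => ![0, -1]
  | 2 => if sd T a.1 then ![-1, 1] else ![1, -1]

/-- the weights of the frames -/
def mm (q : ℕ) (a : T.X.Pt × Fin 3) : ℤ :=
  match a.2 with
  | 0 => -5 * q
  | 1 => 5 * q
  | 2 => if sd T a.1 then 4 * q else -4 * q

theorem dact2 (k : Fin 2 → ℤ) (c : ℂˣ) (z : E 2) :
    dact k c z = ![((c ^ k 0 : ℂˣ) : ℂ) * z 0, ((c ^ k 1 : ℂˣ) : ℂ) * z 1] := by
  funext i
  fin_cases i <;> rfl

theorem dact_ei (P : T.X.Pt) (σ : Bool) (c : ℂˣ) (z : E 2) :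
    dact (kk (P, ei σ)) c z = ![z 0, ((uw σ c : ℂˣ) : ℂ) * z 1] := by
  rw [dact2]
  cases σ
  · show (![((c ^ (0 : ℤ) : ℂˣ) : ℂ) * z 0, ((c ^ (1 : ℤ) : ℂˣ) : ℂ) * z 1] : E 2) = _
    rw [zpow_zero, zpow_one, Units.val_one, one_mul]
    rfl
  · show (![((c ^ (0 : ℤ) : ℂˣ) : ℂ) * z 0, ((c ^ (-1 : ℤ) : ℂˣ) : ℂ) * z 1] : E 2) = _
    rw [zpow_zero, zpow_neg_one, Units.val_one, one_mul]
    rfl

theorem mm_ei (P : T.X.Pt) (σ : Bool) (c : ℂˣ) :
    c ^ mm q (P, ei σ) = uw σ c ^ (-(5 * (q : ℤ))) := by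
  cases σ
  · show c ^ (-5 * (q : ℤ)) = c ^ (-(5 * (q : ℤ)))
    congr 1
  · show c ^ (5 * (q : ℤ)) = c⁻¹ ^ (-(5 * (q : ℤ)))
    rw [inv_zpow', neg_neg]

theorem dact_two (P : T.X.Pt) (c : ℂˣ) (z : E 2) :
    dact (kk (P, 2)) c z = ![((uw (sd T P) c : ℂˣ) : ℂ) * z 0,
      (((uw (sd T P) c)⁻¹ : ℂˣ) : ℂ) * z 1] := by
  rw [dact2]
  show (![((c ^ ((if sd T P then ![-1, 1] else ![1, -1] : Fin 2 → ℤ) 0) : ℂˣ) : ℂ) * z 0,
    ((c ^ ((if sd T P then ![-1, 1] else ![1, -1] : Fin 2 → ℤ) 1) : ℂˣ) : ℂ) * z 1] : E 2) = _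
  cases sd T P
  · show (![((c ^ (1 : ℤ) : ℂˣ) : ℂ) * z 0, ((c ^ (-1 : ℤ) : ℂˣ) : ℂ) * z 1] : E 2) = _
    rw [zpow_one, zpow_neg_one]
    rfl
  · show (![((c ^ (-1 : ℤ) : ℂˣ) : ℂ) * z 0, ((c ^ (1 : ℤ) : ℂˣ) : ℂ) * z 1] : E 2) = _
    rw [zpow_one, zpow_neg_one, uw_true, inv_inv]

theorem mm_two (P : T.X.Pt) (c : ℂˣ) :
    c ^ mm q (P, 2) = uw (sd T P) c ^ (-(4 * (q : ℤ))) := by
  show c ^ (if sd T P then 4 * (q : ℤ) else -4 * (q : ℤ)) = _
  cases sd T P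
  · show c ^ (-4 * (q : ℤ)) = c ^ (-(4 * (q : ℤ)))
    congr 1
  · show c ^ (4 * (q : ℤ)) = c⁻¹ ^ (-(4 * (q : ℤ)))
    rw [inv_zpow', neg_neg]

theorem act_ch (c : ℂˣ) (a : T.X.Pt × Fin 3) (z : E 2) (hz : z ∈ UU r a) :
    act q c (ch q D₀ An a z) = c ^ mm q a • ch q D₀ An a (dact (kk a) c z) := by
  revert a
  apply chart_cases
  · intro P σ _
    rw [ch_ei, dact_ei, mm_ei]
    by_cases hb : Bl T σ P
    · rw [endc_bl hb]
      conv_lhs => rw [← eta2 z]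
      exact act_bl c hb _ _
    · rw [endc_pc hb]
      conv_lhs => rw [← eta2 z]
      exact act_pc c P σ _ _
  · intro P hz
    rw [UU_two] at hz
    rw [ch_two, dact_two, mm_two]
    conv_lhs => rw [← eta2 z]
    exact act_mid c hz.1 _ _

theorem dom_ch (a : T.X.Pt × Fin 3) (z : E 2) (hz : z ∈ UU r a) (c : ℂˣ) :
    dact (kk a) c z ∈ UU r a := by
  revert a
  apply chart_cases
  · intro P σ hz
    rw [UU_ei] at hz ⊢
    rw [dact_ei]
    exact hz
  · intro P hz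
    rw [UU_two] at hz ⊢
    rw [dact_two]
    refine ⟨hz.1, ?_⟩
    show ‖((uw (sd T P) c : ℂˣ) : ℂ) * z 0 * ((((uw (sd T P) c)⁻¹ : ℂˣ) : ℂ) * z 1)‖ < r P
    have : ((uw (sd T P) c : ℂˣ) : ℂ) * z 0 * ((((uw (sd T P) c)⁻¹ : ℂˣ) : ℂ) * z 1) =
        z 0 * z 1 := by
      rw [Units.val_inv_eq_inv_val]
      have := Units.ne_zero (uw (sd T P) c)
      field_simp
    rw [this]
    exact hz.2

variable (q) in
/-- the action on the atlas -/
def dAct (hr : IsRad D₀ An r) : (preAtlas q hr).toAtlas.DAct where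
  act := act q
  act_one := act_one q
  act_mul := act_mul q
  act_smul := act_smul q
  k := kk
  m := mm q
  dom a z hz c := dom_ch a z hz c
  act_γ a z hz c := act_ch c a z hz

/-! ### The canonical radii -/

variable (D₀ An) in
/-- the bad points -/
def Bad (P : T.X.Pt) : Prop := P ∈ T.S ∨ P ∈ T.S' ∨ D₀ P ≠ 0

variable (D₀) in
theorem finite_bad : {P : T.X.Pt | Bad D₀ P}.Finite := by
  have : {P : T.X.Pt | Bad D₀ P} = (T.S : Set T.X.Pt) ∪ (T.S' ∪ {P | D₀ P ≠ 0}) := by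
    ext P
    rfl
  rw [this]
  refine T.S.finite_toSet.union (T.S'.finite_toSet.union ?_)
  refine D₀.support.finite_toSet.subset fun P hP => ?_
  simpa using hP

variable (D₀ An) in
/-- the set of admissible radii at a point -/
def radSet (P : T.X.Pt) : Set ℝ :=
  {ρ | 0 < ρ ∧ ρ ≤ An.r P ∧ ∀ s : ℂ, ‖s‖ < ρ → s ≠ 0 → ¬ Bad D₀ (An.c P s)}

theorem radSet_nonempty (P : T.X.Pt) : (radSet D₀ An P).Nonempty := by
  have h : ∀ Q : T.X.Pt, ∃ ε > 0, ∀ s : ℂ, ‖s‖ < ε → ‖s‖ < An.r P → s ≠ 0 → An.c P s ≠ Q := by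
    intro Q
    by_cases hPQ : P = Q
    · subst hPQ
      refine ⟨1, one_pos, fun s _ hs h0 he => h0 ?_⟩
      exact An.inj P (mem_b.2 hs) (mem_ball_self (An.r_pos P)) (he.trans (An.c_zero P).symm)
    · obtain ⟨ε, hε, h⟩ := An.t2 P Q hPQ
      refine ⟨ε, hε, fun s hs _ _ he => h s 0 hs (by rwa [norm_zero]) ?_⟩
      rw [he, An.c_zero]
  choose ε hε hh using h
  obtain ⟨ρ, hρ0, hρ⟩ : ∃ ρ > 0, ∀ Q ∈ (finite_bad D₀).toFinset, ρ ≤ ε Q := by
    by_cases hne : (finite_bad D₀).toFinset.Nonempty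
    · refine ⟨(finite_bad D₀).toFinset.inf' hne ε, ?_, fun Q hQ => Finset.inf'_le _ hQ⟩
      rw [gt_iff_lt, Finset.lt_inf'_iff]
      exact fun Q _ => hε Q
    · refine ⟨1, one_pos, fun Q hQ => (hne ⟨Q, hQ⟩).elim⟩
  refine ⟨min ρ (An.r P), lt_min hρ0 (An.r_pos P), min_le_right _ _, fun s hs h0 hb => ?_⟩
  have h1 := hρ (An.c P s) ((finite_bad D₀).mem_toFinset.2 hb)
  exact hh (An.c P s) s (lt_of_lt_of_le (lt_of_lt_of_le hs (min_le_left _ _)) h1)
    (lt_of_lt_of_le hs (min_le_right _ _)) h0 rfl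

variable (D₀ An) in
/-- the largest admissible radius -/
def rad (P : T.X.Pt) : ℝ := sSup (radSet D₀ An P)

theorem bddAbove_radSet (P : T.X.Pt) : BddAbove (radSet D₀ An P) :=
  ⟨An.r P, fun _ h => h.2.1⟩

variable (D₀ An) in
theorem isRad_rad : IsRad D₀ An (rad D₀ An) where
  pos P := by
    obtain ⟨ρ, hρ⟩ := radSet_nonempty (D₀ := D₀) (An := An) P
    exact lt_of_lt_of_le hρ.1 (le_csSup (bddAbove_radSet P) hρ)
  le P := csSup_le (radSet_nonempty P) fun _ h => h.2.1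
  iso P s hs h0 := by
    obtain ⟨ρ, hρ, hlt⟩ := exists_lt_of_lt_csSup (radSet_nonempty (D₀ := D₀) (An := An) P)
      (mem_b.1 hs)
    have h := hρ.2.2 s hlt h0
    unfold Bad at h
    push Not at h
    exact h

/-- the canonical radii are invariant under automorphisms -/
theorem rad_symm {θ : K ≃ₐ[ℂ] K} {σ : T.X.Pt → T.X.Pt} (h : An.Equiv θ σ)
    (hσ : ∀ P, Bad D₀ P ↔ Bad D₀ (σ P)) (P : T.X.Pt) : rad D₀ An (σ P) = rad D₀ An P := by
  unfold rad
  congr 1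
  ext ρ
  have key : ∀ ρ ≤ An.r P, ∀ s : ℂ, ‖s‖ < ρ →
      (¬ Bad D₀ (An.c (σ P) s) ↔ ¬ Bad D₀ (An.c P s)) := by
    intro ρ hρ s hs
    rw [h.c P s (mem_b.2 (lt_of_lt_of_le hs hρ)), ← hσ]
  constructor
  · rintro ⟨h1, h2, h3⟩
    rw [h.r P] at h2
    exact ⟨h1, h2, fun s hs h0 => (key ρ h2 s hs).1 (h3 s hs h0)⟩
  · rintro ⟨h1, h2, h3⟩
    refine ⟨h1, by rw [h.r P]; exact h2, fun s hs h0 => (key ρ h2 s hs).2 (h3 s hs h0)⟩

end Sig

end

end Pool.Agent.YTDA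


end

/- source: Pool.Agent.YTDA.SigModel -/

section

/-!
The surface `Σ`: construction of `SigModel`.
-/

namespace Pool.Agent.YTDA

open Complex Set Topology Metric Filter
open Pool.Agent.YTD

noncomputable section

namespace Sig

variable {K : Type} [Field K] [Algebra ℂ K] {T : Datum K}
variable {q : ℕ} {D₀ : T.X.Pt →₀ ℤ} {An : AnCurve T.X.toCurveOrd} {r : T.X.Pt → ℝ}

theorem pc_oo (P : T.X.Pt) (σ : Bool) (s : ℂ) (v : ℂˣ) :
    pc q D₀ An P σ ![s, (v : ℂ)] = v ^ (5 * (q : ℤ)) • oo D₀ An P s (uw σ v) := by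
  unfold pc oo
  rw [smul_mkY]
  show mkY T (An.c P s) (pfib σ (v : ℂ)) (un (v : ℂ) ^ (5 * (q : ℤ)) * upow s (D₀ P)) = _
  rw [pfib_ne v.ne_zero, un_coe]

theorem bl_oo (P : T.X.Pt) (σ : Bool) (s v : ℂˣ) :
    bl q D₀ An P σ ![(s : ℂ), (v : ℂ)] =
      ((s * v) ^ (5 * (q : ℤ)) * s ^ (-(q : ℤ))) • oo D₀ An P s (uw σ (s * v)) := by
  unfold bl
  rw [if_neg (show (![(s : ℂ), (v : ℂ)] : E 2) 0 ≠ 0 from s.ne_zero)]
  show un (s : ℂ) ^ (-(q : ℤ)) • pc q D₀ An P σ ![(s : ℂ), (s : ℂ) * v] = _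
  rw [← Units.val_mul, pc_oo, smul_smul, un_coe, mul_comm]

theorem mid_oo (P : T.X.Pt) (v f : ℂˣ) :
    mid q D₀ An P ![(v : ℂ), (f : ℂ)] =
      v ^ (4 * (q : ℤ)) • oo D₀ An P (v * f) (uw (sd T P) v) := by
  unfold mid
  rw [if_neg (show (![(v : ℂ), (f : ℂ)] : E 2) 0 ≠ 0 from v.ne_zero)]
  show un (v : ℂ) ^ (9 * (q : ℤ)) • pc q D₀ An P (!sd T P) ![(v : ℂ) * f, (v : ℂ)⁻¹] = _
  rw [← Units.val_inv_eq_inv_val, pc_oo, smul_smul, un_coe, uw_not, uw_inv, inv_inv, inv_zpow',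
    ← zpow_add]
  congr 2
  ring

theorem sd_true {P : T.X.Pt} (h : P ∈ T.S) : sd T P = true := by
  unfold sd
  simp [h]

theorem sd_false {P : T.X.Pt} (h : P ∉ T.S) : sd T P = false := by
  unfold sd
  simp [h]

theorem not_S_of_S' {P : T.X.Pt} (h : P ∈ T.S') : P ∉ T.S :=
  fun h' => Finset.disjoint_left.1 T.disj h' h

/-! ### Automorphisms -/

theorem exc_symm {σ : T.X.Pt → T.X.Pt} (hS : ∀ P, P ∈ T.S ↔ σ P ∈ T.S)
    (hS' : ∀ P, P ∈ T.S' ↔ σ P ∈ T.S') (P : T.X.Pt) : Exc T P ↔ Exc T (σ P) :=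
  or_congr (hS P) (hS' P)

theorem sd_symm {σ : T.X.Pt → T.X.Pt} (hS : ∀ P, P ∈ T.S ↔ σ P ∈ T.S) (P : T.X.Pt) :
    sd T (σ P) = sd T P := by
  by_cases h : P ∈ T.S
  · rw [sd_true h, sd_true ((hS P).1 h)]
  · rw [sd_false h, sd_false fun h' => h ((hS P).2 h')]

/-- the map of the line bundle induced by an automorphism of the curve -/
def symF (σ : T.X.Pt → T.X.Pt) (y : YY T) : YY T := mkY T (σ y.base) y.fib y.u

theorem val_symm {σ : T.X.Pt → T.X.Pt} (hS : ∀ P, P ∈ T.S ↔ σ P ∈ T.S)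
    (hS' : ∀ P, P ∈ T.S' ↔ σ P ∈ T.S') {P : T.X.Pt} {φ : Fib} (h : Val T P φ) :
    Val T (σ P) φ := by
  cases φ with
  | main w => trivial
  | fin τ => trivial
  | exc e => exact (exc_symm hS hS' P).1 h
  | node => exact (exc_symm hS hS' P).1 h

theorem symF_mkY {σ : T.X.Pt → T.X.Pt} {P : T.X.Pt} {φ : Fib} (h : Val T P φ) (u : ℂˣ) :
    symF σ (mkY T P φ u) = mkY T (σ P) φ u := by
  rw [mkY_of h]
  rfl

theorem symF_smul (σ : T.X.Pt → T.X.Pt) (c : ℂˣ) (y : YY T) :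
    symF σ (c • y) = c • symF σ y := by
  unfold symF
  rw [smul_mkY]
  rfl

theorem symF_act {σ : T.X.Pt → T.X.Pt} (hS : ∀ P, P ∈ T.S ↔ σ P ∈ T.S)
    (hS' : ∀ P, P ∈ T.S' ↔ σ P ∈ T.S') (c : ℂˣ) (y : YY T) :
    symF σ (act q c y) = act q c (symF σ y) := by
  obtain ⟨P, φ, u, h⟩ := y
  show mkY T (σ P) (actF P c φ) (actU q P c φ * u) = act q c (mkY T (σ P) φ u)
  rw [act_mkY q c (val_symm hS hS' h)]
  cases φ with
  | main w => rfl
  | fin τ => rfl
  | exc e =>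
    show mkY T (σ P) (.exc (uw (sd T P) c * e)) (uw (sd T P) c ^ _ * u) =
      mkY T (σ P) (.exc (uw (sd T (σ P)) c * e)) (uw (sd T (σ P)) c ^ _ * u)
    rw [sd_symm hS]
  | node =>
    show mkY T (σ P) .node (uw (sd T P) c ^ _ * u) = mkY T (σ P) .node (uw (sd T (σ P)) c ^ _ * u)
    rw [sd_symm hS]

theorem bl_symm {σ : T.X.Pt → T.X.Pt} (hS : ∀ P, P ∈ T.S ↔ σ P ∈ T.S)
    (hS' : ∀ P, P ∈ T.S' ↔ σ P ∈ T.S') (τ : Bool) (P : T.X.Pt) :
    Bl T τ (σ P) ↔ Bl T τ P := by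
  unfold Bl
  rw [sd_symm hS, ← exc_symm hS hS']

section sym

variable {θ : K ≃ₐ[ℂ] K} {σ : T.X.Pt → T.X.Pt}

theorem symF_pc (hE : An.Equiv θ σ) (hD : ∀ P, D₀ (σ P) = D₀ P) (P : T.X.Pt) (τ : Bool)
    {z : E 2} (hz : z 0 ∈ ball (0 : ℂ) (An.r P)) :
    symF σ (pc q D₀ An P τ z) = pc q D₀ An (σ P) τ z := by
  unfold pc
  rw [symF_mkY (val_pfib _ _ _), hE.c P _ hz, hD]

theorem symF_bl (hE : An.Equiv θ σ) (hD : ∀ P, D₀ (σ P) = D₀ P) {P : T.X.Pt} (hP : Exc T P)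
    (τ : Bool) {z : E 2} (hz : z 0 ∈ ball (0 : ℂ) (An.r P)) :
    symF σ (bl q D₀ An P τ z) = bl q D₀ An (σ P) τ z := by
  unfold bl
  by_cases h0 : z 0 = 0
  · rw [if_pos h0, if_pos h0]
    by_cases h1 : z 1 = 0
    · rw [if_pos h1, symF_mkY (φ := .fin τ) trivial]
    · rw [if_neg h1, symF_mkY (by exact hP)]
  · rw [if_neg h0, if_neg h0, symF_smul, symF_pc hE hD P τ (by exact hz)]

theorem symF_mid (hE : An.Equiv θ σ) (hD : ∀ P, D₀ (σ P) = D₀ P)
    (hS : ∀ P, P ∈ T.S ↔ σ P ∈ T.S) {P : T.X.Pt} (hP : Exc T P)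
    {z : E 2} (hz : z 0 * z 1 ∈ ball (0 : ℂ) (An.r P)) :
    symF σ (mid q D₀ An P z) = mid q D₀ An (σ P) z := by
  unfold mid
  by_cases h0 : z 0 = 0
  · rw [if_pos h0, if_pos h0]
    by_cases h1 : z 1 = 0
    · rw [if_pos h1, symF_mkY (by exact hP)]
    · rw [if_neg h1, symF_mkY (by exact hP)]
  · rw [if_neg h0, if_neg h0, symF_smul, symF_pc hE hD P _ (by exact hz), sd_symm hS]

theorem symF_ch (hr : IsRad D₀ An r) (hE : An.Equiv θ σ) (hD : ∀ P, D₀ (σ P) = D₀ P)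
    (hS : ∀ P, P ∈ T.S ↔ σ P ∈ T.S) (hS' : ∀ P, P ∈ T.S' ↔ σ P ∈ T.S') (P : T.X.Pt) (i : Fin 3)
    {z : E 2} (hz : z ∈ UU r (P, i)) :
    symF σ (ch q D₀ An (P, i) z) = ch q D₀ An (σ P, i) z := by
  have key : ∀ τ, z ∈ UU r (P, ei τ) →
      symF σ (ch q D₀ An (P, ei τ) z) = ch q D₀ An (σ P, ei τ) z := by
    intro τ hz
    rw [UU_ei] at hz
    have hz' : z 0 ∈ ball (0 : ℂ) (An.r P) := hr.mem (mem_b.2 hz)
    rw [ch_ei, ch_ei]
    by_cases hb : Bl T τ P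
    · rw [endc_bl hb, endc_bl ((bl_symm hS hS' τ P).2 hb)]
      exact symF_bl hE hD hb.1 τ hz'
    · rw [endc_pc hb, endc_pc fun h => hb ((bl_symm hS hS' τ P).1 h)]
      exact symF_pc hE hD P τ hz'
  fin_cases i
  · exact key false hz
  · exact key true hz
  · exact symF_mid hE hD hS hz.1 (hr.mem (mem_b.2 hz.2))

end sym

/-! ### Automorphisms exchanging `S` and `S'` -/

/-- the exchange of the two ends of the fibre -/
def swF : Fib → Fib
  | .main w => .main w⁻¹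
  | .fin τ => .fin (!τ)
  | .exc e => .exc e
  | .node => .node

/-- the map of the line bundle induced by an automorphism of the curve -/
def swapF (σ : T.X.Pt → T.X.Pt) (y : YY T) : YY T := mkY T (σ y.base) (swF y.fib) y.u

section swap

variable {θ : K ≃ₐ[ℂ] K} {σ : T.X.Pt → T.X.Pt}

theorem S'_of_inv (hσ : ∀ P, σ (σ P) = P) (hS : ∀ P, P ∈ T.S ↔ σ P ∈ T.S') (P : T.X.Pt) :
    P ∈ T.S' ↔ σ P ∈ T.S := by
  rw [hS (σ P), hσ]

theorem exc_swap (hσ : ∀ P, σ (σ P) = P) (hS : ∀ P, P ∈ T.S ↔ σ P ∈ T.S') (P : T.X.Pt) :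
    Exc T P ↔ Exc T (σ P) := by
  unfold Exc
  rw [hS P, S'_of_inv hσ hS P, or_comm]

theorem sd_swap (hσ : ∀ P, σ (σ P) = P) (hS : ∀ P, P ∈ T.S ↔ σ P ∈ T.S') {P : T.X.Pt}
    (hP : Exc T P) : sd T (σ P) = !sd T P := by
  rcases hP with h | h
  · rw [sd_true h, sd_false (not_S_of_S' ((hS P).1 h))]
    rfl
  · rw [sd_true ((S'_of_inv hσ hS P).1 h), sd_false (not_S_of_S' h)]
    rfl

theorem bl_swap (hσ : ∀ P, σ (σ P) = P) (hS : ∀ P, P ∈ T.S ↔ σ P ∈ T.S') (τ : Bool)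
    (P : T.X.Pt) : Bl T (!τ) (σ P) ↔ Bl T τ P := by
  unfold Bl
  rw [← exc_swap hσ hS]
  constructor
  · rintro ⟨h1, h2⟩
    rw [sd_swap hσ hS h1] at h2
    exact ⟨h1, Bool.not_inj h2⟩
  · rintro ⟨h1, h2⟩
    rw [sd_swap hσ hS h1, h2]
    exact ⟨h1, rfl⟩

theorem val_swap (hσ : ∀ P, σ (σ P) = P) (hS : ∀ P, P ∈ T.S ↔ σ P ∈ T.S') {P : T.X.Pt}
    {φ : Fib} (h : Val T P φ) : Val T (σ P) (swF φ) := by
  cases φ with
  | main w => trivial
  | fin τ => trivial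
  | exc e => exact (exc_swap hσ hS P).1 h
  | node => exact (exc_swap hσ hS P).1 h

theorem swapF_mkY {P : T.X.Pt} {φ : Fib} (h : Val T P φ) (u : ℂˣ) :
    swapF σ (mkY T P φ u) = mkY T (σ P) (swF φ) u := by
  rw [mkY_of h]
  rfl

theorem swapF_smul (c : ℂˣ) (y : YY T) : swapF σ (c • y) = c • swapF σ y := by
  unfold swapF
  rw [smul_mkY]
  rfl

theorem uw_not_inv (τ : Bool) (c : ℂˣ) : uw (!τ) c⁻¹ = uw τ c := by
  rw [uw_not, uw_inv, inv_inv]

theorem swapF_act (hσ : ∀ P, σ (σ P) = P) (hS : ∀ P, P ∈ T.S ↔ σ P ∈ T.S') (c : ℂˣ)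
    (y : YY T) : swapF σ (act q c y) = act q c⁻¹ (swapF σ y) := by
  obtain ⟨P, φ, u, h⟩ := y
  show mkY T (σ P) (swF (actF P c φ)) (actU q P c φ * u) = act q c⁻¹ (mkY T (σ P) (swF φ) u)
  rw [act_mkY q _ (val_swap hσ hS h)]
  cases φ with
  | main w =>
    show mkY T (σ P) (.main (c * w)⁻¹) (1 * u) = mkY T (σ P) (.main (c⁻¹ * w⁻¹)) (1 * u)
    rw [mul_inv]
  | fin τ =>
    show mkY T (σ P) (.fin (!τ)) (uw τ c ^ _ * u) =
      mkY T (σ P) (.fin (!τ)) (uw (!τ) c⁻¹ ^ _ * u)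
    rw [uw_not_inv]
  | exc e =>
    show mkY T (σ P) (.exc (uw (sd T P) c * e)) (uw (sd T P) c ^ _ * u) =
      mkY T (σ P) (.exc (uw (sd T (σ P)) c⁻¹ * e)) (uw (sd T (σ P)) c⁻¹ ^ _ * u)
    rw [sd_swap hσ hS h, uw_not_inv]
  | node =>
    show mkY T (σ P) .node (uw (sd T P) c ^ _ * u) =
      mkY T (σ P) .node (uw (sd T (σ P)) c⁻¹ ^ _ * u)
    rw [sd_swap hσ hS h, uw_not_inv]

theorem swF_pfib (τ : Bool) (v : ℂ) : swF (pfib τ v) = pfib (!τ) v := by
  by_cases h : v = 0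
  · rw [h, pfib_zero, pfib_zero]
    rfl
  · rw [pfib_ne h, pfib_ne h]
    show Fib.main (uw τ (un v))⁻¹ = Fib.main (uw (!τ) (un v))
    rw [uw_not]

theorem swapF_pc (hE : An.Equiv θ σ) (hD : ∀ P, D₀ (σ P) = D₀ P) (P : T.X.Pt) (τ : Bool)
    {z : E 2} (hz : z 0 ∈ ball (0 : ℂ) (An.r P)) :
    swapF σ (pc q D₀ An P τ z) = pc q D₀ An (σ P) (!τ) z := by
  unfold pc
  rw [swapF_mkY (val_pfib _ _ _), hE.c P _ hz, hD, swF_pfib]

theorem swapF_bl (hE : An.Equiv θ σ) (hD : ∀ P, D₀ (σ P) = D₀ P) {P : T.X.Pt} (hP : Exc T P)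
    (τ : Bool) {z : E 2} (hz : z 0 ∈ ball (0 : ℂ) (An.r P)) :
    swapF σ (bl q D₀ An P τ z) = bl q D₀ An (σ P) (!τ) z := by
  unfold bl
  by_cases h0 : z 0 = 0
  · rw [if_pos h0, if_pos h0]
    by_cases h1 : z 1 = 0
    · rw [if_pos h1, if_pos h1, swapF_mkY (φ := .fin τ) trivial]
      rfl
    · rw [if_neg h1, if_neg h1, swapF_mkY (by exact hP)]
      rfl
  · rw [if_neg h0, if_neg h0, swapF_smul, swapF_pc hE hD P τ (by exact hz)]

theorem swapF_mid (hE : An.Equiv θ σ) (hσ : ∀ P, σ (σ P) = P) (hD : ∀ P, D₀ (σ P) = D₀ P)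
    (hS : ∀ P, P ∈ T.S ↔ σ P ∈ T.S') {P : T.X.Pt} (hP : Exc T P)
    {z : E 2} (hz : z 0 * z 1 ∈ ball (0 : ℂ) (An.r P)) :
    swapF σ (mid q D₀ An P z) = mid q D₀ An (σ P) z := by
  unfold mid
  by_cases h0 : z 0 = 0
  · rw [if_pos h0, if_pos h0]
    by_cases h1 : z 1 = 0
    · rw [if_pos h1, swapF_mkY (by exact hP)]
      rfl
    · rw [if_neg h1, swapF_mkY (by exact hP)]
      rfl
  · rw [if_neg h0, if_neg h0, swapF_smul, swapF_pc hE hD P _ (by exact hz), sd_swap hσ hS hP]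

theorem swapF_ei (hr : IsRad D₀ An r) (hE : An.Equiv θ σ) (hσ : ∀ P, σ (σ P) = P)
    (hD : ∀ P, D₀ (σ P) = D₀ P) (hS : ∀ P, P ∈ T.S ↔ σ P ∈ T.S') (P : T.X.Pt) (τ : Bool)
    {z : E 2} (hz : z ∈ UU r (P, ei τ)) :
    swapF σ (ch q D₀ An (P, ei τ) z) = ch q D₀ An (σ P, ei (!τ)) z := by
  rw [UU_ei] at hz
  have hz' : z 0 ∈ ball (0 : ℂ) (An.r P) := hr.mem (mem_b.2 hz)
  rw [ch_ei, ch_ei]
  by_cases hb : Bl T τ P
  · rw [endc_bl hb, endc_bl ((bl_swap hσ hS τ P).2 hb)]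
    exact swapF_bl hE hD hb.1 τ hz'
  · rw [endc_pc hb, endc_pc fun h => hb ((bl_swap hσ hS τ P).1 h)]
    exact swapF_pc hE hD P τ hz'

end swap

end Sig

open Sig

variable {K : Type} [Field K] [Algebra ℂ K]

/-- **The surface `Σ` with its line bundle**, for any admissible radii. -/
def sigModelOf (T : Datum K) (q : ℕ) (D₀ : T.X.Pt →₀ ℤ) (An : AnCurve T.X.toCurveOrd)
    {r : T.X.Pt → ℝ} (hr : IsRad D₀ An r) : SigModel T q D₀ An where
  Y := YY T
  A := (preAtlas q hr).toAtlas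
  D := dAct q hr
  cpt := cpt hr
  t2 := t2 hr
  e := Equiv.refl _
  r := r
  r_pos := hr.pos
  r_le := hr.le
  iso := hr.iso
  U_bot P := rfl
  U_top P := rfl
  U_mid P hP := by
    show UU r (P, 2) = _
    rw [UU_two]
    ext z
    exact and_iff_right hP
  U_mid' P hP hP' := by
    show UU r (P, 2) = _
    rw [UU_two]
    ext z
    simp only [mem_ofPred_eq, mem_empty_iff_false, iff_false, not_and]
    rintro (h | h)
    · exact (hP h).elim
    · exact (hP' h).elim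
  k_bot P := ⟨rfl, rfl⟩
  k_top P := ⟨rfl, rfl⟩
  k_mid P hP := by
    have h := sd_true hP
    constructor
    · show (if sd T P then ![-1, 1] else ![1, -1] : Fin 2 → ℤ) = _
      rw [h, if_pos rfl]
    · show (if sd T P then 4 * (q : ℤ) else -4 * (q : ℤ)) = _
      rw [h, if_pos rfl]
  k_mid' P hP := by
    have h := sd_false (not_S_of_S' hP)
    constructor
    · show (if sd T P then ![-1, 1] else ![1, -1] : Fin 2 → ℤ) = _
      rw [h, if_neg Bool.false_ne_true]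
    · show (if sd T P then 4 * (q : ℤ) else -4 * (q : ℤ)) = _
      rw [h, if_neg Bool.false_ne_true]
  o := oo D₀ An
  γ_bot P hP s _ _ w := by
    show endc q D₀ An P false ![s, (w : ℂ)] = _
    rw [endc_pc fun h => hP (bl_false.1 h), pc_oo]
    rfl
  γ_bot' P hP s _ b := by
    show endc q D₀ An P false ![(s : ℂ), (b : ℂ)] = _
    rw [endc_bl (bl_false.2 hP), bl_oo]
    rfl
  γ_top P hP s _ _ z := by
    show endc q D₀ An P true ![s, (z : ℂ)] = _
    rw [endc_pc fun h => hP (bl_true.1 h), pc_oo]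
    rfl
  γ_top' P hP s _ a := by
    show endc q D₀ An P true ![(s : ℂ), (a : ℂ)] = _
    rw [endc_bl (bl_true.2 hP), bl_oo]
    rfl
  γ_mid P hP z f _ := by
    show mid q D₀ An P ![(z : ℂ), (f : ℂ)] = _
    rw [mid_oo, sd_true hP]
    rfl
  γ_mid' P hP w f _ := by
    show mid q D₀ An P ![(w : ℂ), (f : ℂ)] = _
    rw [mid_oo, sd_false (not_S_of_S' hP)]
    rfl
  act_o P s _ _ c w := act_oo c w P s
  o_tr P Q s _ s' _ _ _ hc w := by
    unfold oo
    rw [smul_mkY, hc, div_mul_cancel]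
  o_inj P Q s _ s' _ _ _ w w' c h := by
    unfold oo at h
    rw [smul_mkY, mkY_of (φ := .main w) trivial, mkY_of (φ := .main w') trivial] at h
    have h1 : An.c P s = An.c Q s' := congrArg YY.base h
    have h2 : Fib.main w = Fib.main w' := congrArg YY.fib h
    exact ⟨h1, by injection h2⟩
  sym θ σ hE _ _ hD hS hS' :=
    ⟨symF σ, symF_smul σ, symF_act hS hS', fun P i _ hz => symF_ch hr hE hD hS hS' P i hz⟩
  swap θ σ hE hσ _ hD hS :=
    ⟨swapF σ, swapF_smul, swapF_act hσ hS,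
      fun P _ hz => swapF_ei hr hE hσ hD hS P false hz,
      fun P _ hz => swapF_ei hr hE hσ hD hS P true hz,
      fun P _ hz => swapF_mid hE hσ hD hS hz.1 (hr.mem (mem_b.2 hz.2))⟩

/-- **The surface `Σ` with its line bundle**, for the canonical radii. -/
def sigModel (T : Datum K) (q : ℕ) (D₀ : T.X.Pt →₀ ℤ) (An : AnCurve T.X.toCurveOrd) :
    SigModel T q D₀ An :=
  sigModelOf T q D₀ An (isRad_rad D₀ An)

theorem sigModel_r (T : Datum K) (q : ℕ) (D₀ : T.X.Pt →₀ ℤ) (An : AnCurve T.X.toCurveOrd) :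
    (sigModel T q D₀ An).r = rad D₀ An := rfl

/-- invariance of the canonical radii under automorphisms preserving or exchanging `S`, `S'` -/
theorem sigModel_r_symm (T : Datum K) (q : ℕ) (D₀ : T.X.Pt →₀ ℤ) (An : AnCurve T.X.toCurveOrd)
    {θ : K ≃ₐ[ℂ] K} {σ : T.X.Pt → T.X.Pt} (hE : An.Equiv θ σ) (hD : ∀ P, D₀ (σ P) = D₀ P)
    (hS : ∀ P, Exc T P ↔ Exc T (σ P)) (P : T.X.Pt) :
    (sigModel T q D₀ An).r (σ P) = (sigModel T q D₀ An).r P := by
  rw [sigModel_r]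
  refine rad_symm hE (fun P => ?_) P
  unfold Bad
  rw [hD]
  have := hS P
  unfold Exc at this
  tauto

end

end Pool.Agent.YTDA


end

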