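import Pool.Agent.YTDM.P44

/- source: Pool.Agent.YTDA.LocBase -/

section

/-!
The analytic structure of the curve `y² = f(x)`: local expressions, discs, coherence,
compactness.
-/

namespace Pool.Agent.YTDA

open Complex Set Topology Filter Metric Polynomial
open Pool.Agent.YTD Pool.Agent.YTD.Hyp

noncomputable section

/-! ### Evaluation of polynomials and rational functions -/

theorem mero_poly (p : ℂ[X]) {g : ℂ → ℂ} {a : ℂ} (hg : MeromorphicAt g a) :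
    MeromorphicAt (fun s => p.eval (g s)) a := by
  induction p using Polynomial.induction_on' with
  | add p q hp hq =>
    have := hp.add hq
    apply this.congr
    filter_upwards with s
    simp
  | monomial n c =>
    have := (MeromorphicAt.const c a).mul (hg.pow n)
    apply this.congr
    filter_upwards with s
    simp

theorem rep_aeval (θ : Germ) (p : ℂ[X]) : (aeval θ p).rep =ᶠ[𝓝[≠] 0] fun s => p.eval (θ.rep s) := by
  induction p using Polynomial.induction_on' with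
  | add p q hp hq =>
    rw [map_add]
    filter_upwards [Germ.rep_add (aeval θ p) (aeval θ q), hp, hq] with s h1 h2 h3
    rw [h1, h2, h3, eval_add]
  | monomial n c =>
    rw [aeval_monomial]
    filter_upwards [Germ.rep_mul (algebraMap ℂ Germ c) (θ ^ n), Germ.rep_const c,
      Germ.rep_pow θ n] with s h1 h2 h3
    rw [h1, h2, h3, eval_monomial]

/-- value of a rational function -/
def rev (r : RatFunc ℂ) (a : ℂ) : ℂ := r.num.eval a / r.denom.eval a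

theorem mero_rev (r : RatFunc ℂ) {g : ℂ → ℂ} {a : ℂ} (hg : MeromorphicAt g a) :
    MeromorphicAt (fun s => rev r (g s)) a := (mero_poly r.num hg).div (mero_poly r.denom hg)

variable {f : ℂ[X]}

theorem rep_psi (P : Par Germ f) (r : RatFunc ℂ) :
    (P.psi r).rep =ᶠ[𝓝[≠] 0] fun s => rev r (P.θ.rep s) := by
  have h1 : P.psi r = aeval P.θ r.num / aeval P.θ r.denom := by
    conv_lhs => rw [← RatFunc.num_div_denom r]
    rw [map_div₀, P.psi_algebraMap, P.psi_algebraMap]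
  rw [h1]
  filter_upwards [Germ.rep_div (aeval P.θ r.num) (aeval P.θ r.denom), rep_aeval P.θ r.num,
    rep_aeval P.θ r.denom] with s h2 h3 h4
  rw [h2, h3, h4]
  rfl

/-- value of `u(x) + v(x) y` -/
def kev (z : KK f) (a b : ℂ) : ℂ := rev z.re a + rev z.im a * b

theorem rep_phi (P : Par Germ f) (z : KK f) :
    (P.phi z).rep =ᶠ[𝓝[≠] 0] fun s => kev z (P.θ.rep s) (P.η.rep s) := by
  rw [P.phi_apply]
  filter_upwards [Germ.rep_add (P.psi z.re) (P.psi z.im * P.η), Germ.rep_mul (P.psi z.im) P.η,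
    rep_psi P z.re, rep_psi P z.im] with s h1 h2 h3 h4
  rw [h1, h2, h3, h4]
  rfl

theorem mero_kev (z : KK f) {g k : ℂ → ℂ} {a : ℂ} (hg : MeromorphicAt g a)
    (hk : MeromorphicAt k a) : MeromorphicAt (fun s => kev z (g s) (k s)) a :=
  (mero_rev z.re hg).add ((mero_rev z.im hg).mul hk)

/-! ### Local expressions of `x` and `y` -/

/-- local expression of `x` -/
def thF : Pts f → ℂ → ℂ
  | none => fun s => (s ^ 2)⁻¹
  | some P => fun s => P.1.1 + s ^ ram P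

theorem rep_th (hf : f ≠ 0) (P : Pts f) : (parAt lam hf P).θ.rep =ᶠ[𝓝[≠] 0] thF P := by
  rcases P with _ | P
  · rw [parAt_none]
    unfold thI
    filter_upwards [Germ.rep_inv (lam.s ^ 2), Germ.rep_pow lam.s 2, Germ.rep_s] with s h1 h2 h3
    rw [h1, h2, h3]
    rfl
  · rw [parAt_some]
    unfold thA
    filter_upwards [Germ.rep_add (algebraMap ℂ Germ P.1.1) (lam.s ^ ram P),
      Germ.rep_const P.1.1, Germ.rep_pow lam.s (ram P), Germ.rep_s] with s h1 h2 h3 h4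
    rw [h1, h2, h3, h4]
    rfl

theorem thF_analytic (P : Pts f) {s : ℂ} (hs : s ≠ 0) : AnalyticAt ℂ (thF P) s := by
  rcases P with _ | P
  · exact (analyticAt_id.pow 2).inv (pow_ne_zero 2 hs)
  · exact analyticAt_const.add (analyticAt_id.pow _)

theorem thF_mero (P : Pts f) (s : ℂ) : MeromorphicAt (thF P) s := by
  rcases P with _ | P
  · exact ((MeromorphicAt.id s).pow 2).inv
  · exact (MeromorphicAt.const _ s).add ((MeromorphicAt.id s).pow _)

theorem thF_deriv (P : Pts f) {s : ℂ} (hs : s ≠ 0) : deriv (thF P) s ≠ 0 := by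
  rcases P with _ | P
  · have h1 : HasDerivAt (fun s : ℂ => (s ^ 2)⁻¹) (-(2 * s) / (s ^ 2) ^ 2) s := by
      have h2 : HasDerivAt (fun s : ℂ => s ^ 2) (2 * s) s := by
        simpa using hasDerivAt_pow 2 s
      exact h2.inv (pow_ne_zero 2 hs)
    have h2 : deriv (thF (none : Pts f)) s = -(2 * s) / (s ^ 2) ^ 2 := h1.deriv
    rw [h2]
    exact div_ne_zero (neg_ne_zero.2 (mul_ne_zero two_ne_zero hs))
      (pow_ne_zero 2 (pow_ne_zero 2 hs))
  · have h1 : HasDerivAt (fun s : ℂ => P.1.1 + s ^ ram P) ((ram P : ℂ) * s ^ (ram P - 1)) s :=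
      (hasDerivAt_pow (ram P) s).const_add _
    have h2 : deriv (thF (some P : Pts f)) s = (ram P : ℂ) * s ^ (ram P - 1) := h1.deriv
    rw [h2]
    exact mul_ne_zero (Nat.cast_ne_zero.2 (ram_pos P).ne') (pow_ne_zero _ hs)

/-- local expression of `y` -/
def etF (hf : f ≠ 0) (P : Pts f) : ℂ → ℂ := (parAt lam hf P).η.rep

theorem etF_sq (hf : f ≠ 0) (P : Pts f) :
    ∀ᶠ s in 𝓝[≠] (0 : ℂ), etF hf P s ^ 2 = f.eval (thF P s) := by
  have h := (parAt lam hf P).hη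
  have h1 := Germ.rep_pow (parAt lam hf P).η 2
  rw [h] at h1
  filter_upwards [h1, rep_aeval (parAt lam hf P).θ f, rep_th hf P] with s h2 h3 h4
  rw [h3, h4] at h2
  exact h2.symm

theorem eta_ne0 (hf : f ≠ 0) (P : Pts f) : (parAt lam hf P).η ≠ 0 := (parAt lam hf P).η_ne hf

/-- a germ of odd order whose square is invariant under `s ↦ -s` is odd -/
theorem odd_of_sq {x : Germ} (hx : Odd (lam.ord x))
    (h : ∀ᶠ s in 𝓝[≠] (0 : ℂ), x.rep (-s) ^ 2 = x.rep s ^ 2) :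
    ∀ᶠ s in 𝓝[≠] (0 : ℂ), x.rep (-s) = - x.rep s := by
  have hx0 : x ≠ 0 := by
    rintro rfl
    have h1 : lam.ord (0 : Germ) = 0 := by
      have := lam.ord_const 0
      rwa [map_zero] at this
    rw [h1] at hx
    exact absurd hx (by decide)
  obtain ⟨g, hg, hg1, hg0, hgx⟩ := Germ.exists_std hx0
  have ht : Tendsto (fun s : ℂ => -s) (𝓝[≠] 0) (𝓝[≠] 0) := by
    rw [tendsto_nhdsWithin_iff]
    constructor
    · have : Tendsto (fun s : ℂ => -s) (𝓝 0) (𝓝 (-0)) := continuous_neg.tendsto 0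
      rw [neg_zero] at this
      exact this.mono_left nhdsWithin_le_nhds
    · filter_upwards [self_mem_nhdsWithin] with s hs
      exact neg_ne_zero.2 hs
  have hgx' := ht.eventually hgx
  have hga : AnalyticAt ℂ (fun s => g (-s)) 0 := by
    have h1 : AnalyticAt ℂ g (-0) := by
      rw [neg_zero]
      exact hg
    exact AnalyticAt.fun_comp h1 analyticAt_id.neg
  -- `g(-s) + g(s) ≠ 0` near `0`
  have h3 : ∀ᶠ s in 𝓝 (0 : ℂ), g (-s) + g s ≠ 0 := by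
    have h4 : ContinuousAt (fun s => g (-s) + g s) 0 := hga.continuousAt.add hg.continuousAt
    apply h4.eventually_ne
    show g (-0) + g 0 ≠ 0
    rw [neg_zero, ← two_mul]
    exact mul_ne_zero two_ne_zero hg0
  filter_upwards [h, hgx, hgx', h3.filter_mono nhdsWithin_le_nhds, self_mem_nhdsWithin] with
    s h4 h5 h6 h7 hs
  rw [h5, h6] at h4 ⊢
  have h8 : (-s) ^ lam.ord x = - s ^ lam.ord x := Odd.neg_zpow hx s
  rw [h8] at h4 ⊢
  have h9 : (s ^ lam.ord x) ≠ 0 := zpow_ne_zero _ hs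
  rcases sq_eq_sq_iff_eq_or_eq_neg.1 h4 with h10 | h10
  · exfalso
    apply h7
    have h11 : s ^ lam.ord x * (g (-s) + g s) = 0 := by
      linear_combination -h10
    exact (mul_eq_zero.1 h11).resolve_left h9
  · exact h10

/-! ### Points, discs -/

/-- the ramified points: the points where `x` is invariant under `s ↦ -s` -/
def Rm (P : Pts f) : Prop := ∀ Q : APt f, P = some Q → Q.1.2 = 0

theorem thF_neg {P : Pts f} (hP : Rm P) (s : ℂ) : thF P (-s) = thF P s := by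
  rcases P with _ | P
  · show ((-s) ^ 2)⁻¹ = (s ^ 2)⁻¹
    rw [neg_sq]
  · show P.1.1 + (-s) ^ ram P = P.1.1 + s ^ ram P
    have h1 := hP P rfl
    unfold ram
    rw [if_pos h1, neg_sq]

variable (G : Good f)

theorem odd_eta {P : Pts f} (hP : Rm P) : Odd (lam.ord (parAt lam G.ne P).η) := by
  rcases P with _ | P
  · rw [ord_eta_inf G]
    exact ((Int.odd_coe_nat _).2 G.odd).neg
  · rw [ord_eta_ram G P (hP P rfl)]
    exact odd_one

theorem tendsto_neg_ne : Tendsto (fun s : ℂ => -s) (𝓝[≠] 0) (𝓝[≠] 0) := by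
  rw [tendsto_nhdsWithin_iff]
  constructor
  · have : Tendsto (fun s : ℂ => -s) (𝓝 0) (𝓝 (-0)) := continuous_neg.tendsto 0
    rw [neg_zero] at this
    exact this.mono_left nhdsWithin_le_nhds
  · filter_upwards [self_mem_nhdsWithin] with s hs
    exact neg_ne_zero.2 hs

theorem etF_odd {P : Pts f} (hP : Rm P) :
    ∀ᶠ s in 𝓝[≠] (0 : ℂ), etF G.ne P (-s) = - etF G.ne P s := by
  apply odd_of_sq (odd_eta G hP)
  have h1 := etF_sq G.ne P
  filter_upwards [h1, tendsto_neg_ne.eventually h1] with s h2 h3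
  rw [thF_neg hP] at h3
  exact h3.trans h2.symm

/-- good points of the disc -/
structure GoodS (P : Pts f) (s : ℂ) : Prop where
  an : AnalyticAt ℂ (etF G.ne P) s
  sq : etF G.ne P s ^ 2 = f.eval (thF P s)
  ne : etF G.ne P s ≠ 0
  odd : Rm P → etF G.ne P (-s) = - etF G.ne P s

theorem exists_rB (P : Pts f) : ∃ r : ℝ, 0 < r ∧ ∀ s : ℂ, s ≠ 0 → ‖s‖ < r → GoodS G P s := by
  have h1 : ∀ᶠ s in 𝓝[≠] (0 : ℂ), GoodS G P s := by
    have h2 : ∀ᶠ s in 𝓝[≠] (0 : ℂ), Rm P → etF G.ne P (-s) = - etF G.ne P s := by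
      by_cases hP : Rm P
      · filter_upwards [etF_odd G hP] with s hs _
        exact hs
      · filter_upwards with s h
        exact absurd h hP
    filter_upwards [h2, etF_sq G.ne P, Germ.eventually_ne (eta_ne0 G.ne P),
      (Germ.rep_mero (parAt lam G.ne P).η).eventually_analyticAt] with s h3 h4 h5 h6
    exact ⟨h6, h4, h5, h3⟩
  rw [eventually_nhdsWithin_iff, Metric.eventually_nhds_iff] at h1
  obtain ⟨r, hr, h⟩ := h1
  exact ⟨r, hr, fun s hs hs' => h (by rwa [dist_zero_right]) hs⟩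

/-- the radius of the disc -/
def rB (P : Pts f) : ℝ := (exists_rB G P).choose

theorem rB_pos (P : Pts f) : 0 < rB G P := (exists_rB G P).choose_spec.1

theorem rB_good (P : Pts f) {s : ℂ} (h0 : s ≠ 0) (hs : ‖s‖ < rB G P) : GoodS G P s :=
  (exists_rB G P).choose_spec.2 s h0 hs

/-- the point with coordinate `s` -/
def cB (P : Pts f) (s : ℂ) : Pts f :=
  open Classical in
  if h : s ≠ 0 ∧ ‖s‖ < rB G P then some ⟨(thF P s, etF G.ne P s), (rB_good G P h.1 h.2).sq⟩ else P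

theorem cB_zero (P : Pts f) : cB G P 0 = P := by
  unfold cB
  rw [dif_neg (fun h => h.1 rfl)]

theorem cB_ne {P : Pts f} {s : ℂ} (h0 : s ≠ 0) (hs : ‖s‖ < rB G P) :
    cB G P s = some ⟨(thF P s, etF G.ne P s), (rB_good G P h0 hs).sq⟩ := by
  unfold cB
  rw [dif_pos ⟨h0, hs⟩]

/-- the local expression of a function -/
def fnB (P : Pts f) (z : KK f) (s : ℂ) : ℂ := kev z (thF P s) (etF G.ne P s)

theorem fnB_mero (P : Pts f) (z : KK f) : MeromorphicOn (fnB G P z) (ball 0 (rB G P)) := by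
  intro s hs
  apply mero_kev z (thF_mero P s)
  by_cases h0 : s = 0
  · rw [h0]
    exact Germ.rep_mero _
  · exact (rB_good G P h0 (by simpa using hs)).an.meromorphicAt

theorem fnB_germ (P : Pts f) (z : KK f) :
    ((parAt lam G.ne P).phi z).rep =ᶠ[𝓝[≠] 0] fnB G P z := by
  filter_upwards [rep_phi (parAt lam G.ne P) z, rep_th G.ne P] with s h1 h2
  rw [h1, h2]
  rfl

/-! ### Coherence -/

/-- local inverse of `x` at an unramified point of the disc -/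
theorem exists_kap (P : Pts f) {s : ℂ} (h0 : s ≠ 0) : ∃ κ : ℂ → ℂ, AnalyticAt ℂ κ 0 ∧ κ 0 = s ∧
    deriv κ 0 ≠ 0 ∧ ∀ᶠ σ in 𝓝 (0 : ℂ), thF P (κ σ) = thF P s + σ := by
  have ha := thF_analytic P h0
  have hd := thF_deriv P h0
  set L := ha.hasStrictDerivAt.localInverse _ _ _ hd with hL
  have hLa : AnalyticAt ℂ L (thF P s) := ha.analyticAt_localInverse hd
  have hLs : L (thF P s) = s := HasStrictFDerivAt.localInverse_apply_image ..
  have hLr : ∀ᶠ y in 𝓝 (thF P s), thF P (L y) = y :=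
    HasStrictDerivAt.eventually_right_inverse ..
  have hsh : AnalyticAt ℂ (fun σ : ℂ => thF P s + σ) 0 := analyticAt_const.add analyticAt_id
  have hLa' : AnalyticAt ℂ L (thF P s + 0) := by
    rw [add_zero]
    exact hLa
  have ht : Tendsto (fun σ : ℂ => thF P s + σ) (𝓝 0) (𝓝 (thF P s)) := by
    have := hsh.continuousAt.tendsto
    simpa using this
  have hκa : AnalyticAt ℂ (fun σ => L (thF P s + σ)) 0 := AnalyticAt.fun_comp hLa' hsh
  have hκ0 : (fun σ => L (thF P s + σ)) 0 = s := by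
    show L (thF P s + 0) = s
    rw [add_zero, hLs]
  have hκr : ∀ᶠ σ in 𝓝 (0 : ℂ), thF P (L (thF P s + σ)) = thF P s + σ := ht.eventually hLr
  refine ⟨fun σ => L (thF P s + σ), hκa, hκ0, ?_, hκr⟩
  intro hc
  have h1 : HasDerivAt (fun σ => thF P (L (thF P s + σ))) (deriv (thF P) s * 0) 0 := by
    have h2 : HasDerivAt (thF P) (deriv (thF P) s) ((fun σ => L (thF P s + σ)) 0) := by
      rw [hκ0]
      exact ha.differentiableAt.hasDerivAt
    have h3 := h2.comp 0 hκa.differentiableAt.hasDerivAt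
    rw [hc] at h3
    exact h3
  have h4 : HasDerivAt (fun σ : ℂ => thF P s + σ) 1 0 := (hasDerivAt_id (0 : ℂ)).const_add _
  have h5 := h1.congr_of_eventuallyEq (f₁ := fun σ : ℂ => thF P s + σ) (by
    filter_upwards [hκr] with σ hσ
    exact hσ.symm)
  have h6 := h4.unique h5
  rw [mul_zero] at h6
  exact one_ne_zero h6

theorem ord_eta_unram (P : APt f) (h : P.1.2 ≠ 0) : lam.ord (parAt lam G.ne (some P)).η = 0 := by
  have h1 := two_ord_eta (Λ := lam) G.ne (some P)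
  rw [ordAt_emb_zero G.ne P (by rw [← P.2]; exact pow_ne_zero 2 h)] at h1
  linarith

theorem cohB (P : Pts f) {s : ℂ} (hs : ‖s‖ < rB G P) : ∃ κ : ℂ → ℂ, AnalyticAt ℂ κ 0 ∧ κ 0 = s ∧
    deriv κ 0 ≠ 0 ∧ ∀ z : KK f, ((parAt lam G.ne (cB G P s)).phi z).rep =ᶠ[𝓝[≠] 0]
      fun σ => fnB G P z (κ σ) := by
  by_cases h0 : s = 0
  · subst h0
    refine ⟨fun σ => σ, analyticAt_id, rfl, ?_, fun z => ?_⟩
    · have : deriv (fun σ : ℂ => σ) 0 = 1 := (hasDerivAt_id (0 : ℂ)).deriv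
      rw [this]
      exact one_ne_zero
    · rw [cB_zero]
      exact fnB_germ G P z
  obtain ⟨κ, hκ, hκ0, hκd, hκr⟩ := exists_kap P h0
  refine ⟨κ, hκ, hκ0, hκd, ?_⟩
  have gs := rB_good G P h0 hs
  set Q : APt f := ⟨(thF P s, etF G.ne P s), gs.sq⟩ with hQ
  have hcQ : cB G P s = some Q := cB_ne G h0 hs
  rw [hcQ]
  have hQ2 : Q.1.2 = etF G.ne P s := rfl
  have hQ1 : Q.1.1 = thF P s := rfl
  have hQ0 : Q.1.2 ≠ 0 := gs.ne
  have hram : ram Q = 1 := by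
    unfold ram
    rw [if_neg hQ0]
  -- the germ of `y ∘ κ`
  have hya : AnalyticAt ℂ (etF G.ne P ∘ κ) 0 := by
    apply AnalyticAt.comp _ hκ
    rw [hκ0]
    exact gs.an
  have hy0 : (etF G.ne P ∘ κ) 0 = Q.1.2 := by
    show etF G.ne P (κ 0) = _
    rw [hκ0]
  have hthQ : ∀ σ : ℂ, thF (some Q) σ = thF P s + σ := by
    intro σ
    show Q.1.1 + σ ^ ram Q = _
    rw [hram, pow_one, hQ1]
  have hgood : ∀ᶠ σ in 𝓝 (0 : ℂ), etF G.ne P (κ σ) ^ 2 = f.eval (thF P (κ σ)) := by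
    have h1 : ∀ᶠ t in 𝓝 s, etF G.ne P t ^ 2 = f.eval (thF P t) := by
      have h2 : ∀ᶠ t in 𝓝 s, t ≠ 0 ∧ ‖t‖ < rB G P :=
        (isOpen_ne.eventually_mem h0).and
          ((isOpen_lt continuous_norm continuous_const).eventually_mem hs)
      filter_upwards [h2] with t ht
      exact (rB_good G P ht.1 ht.2).sq
    have h3 : Tendsto κ (𝓝 0) (𝓝 s) := by
      have := hκ.continuousAt.tendsto
      rwa [hκ0] at this
    exact h3.eventually h1
  have hsq : (gm (etF G.ne P ∘ κ)) ^ 2 = (parAt lam G.ne (some Q)).η ^ 2 := by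
    rw [← gm_pow hya.meromorphicAt, Germ.ext_iff]
    filter_upwards [Germ.rep_gm (hya.meromorphicAt.pow 2), Germ.rep_pow (parAt lam G.ne (some Q)).η 2,
      etF_sq G.ne (some Q), hgood.filter_mono nhdsWithin_le_nhds,
      hκr.filter_mono nhdsWithin_le_nhds] with σ h1 h2 h3 h4 h5
    rw [h1, h2]
    show etF G.ne P (κ σ) ^ 2 = etF G.ne (some Q) σ ^ 2
    rw [h3, h4, h5, hthQ]
  have hlc : lam.lc (gm (etF G.ne P ∘ κ)) = Q.1.2 := by
    have h1 : (gm (etF G.ne P ∘ κ)).rep =ᶠ[𝓝[≠] 0] fun s => s ^ (0 : ℤ) * (etF G.ne P ∘ κ) s := by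
      filter_upwards [Germ.rep_gm hya.meromorphicAt] with σ h
      rw [h, zpow_zero, one_mul]
    have h2 := Germ.lc_eq hya (by rw [hy0]; exact hQ0) h1
    rw [h2.2, hy0]
  have hη : (parAt lam G.ne (some Q)).η = gm (etF G.ne P ∘ κ) := by
    rcases sq_eq_sq_iff_eq_or_eq_neg.1 hsq with h1 | h1
    · exact h1.symm
    · exfalso
      have h2 := parAt_some_lc lam G.ne Q hQ0
      rw [h1, lam.lc_neg, h2] at hlc
      exact hQ0 (self_eq_neg.1 hlc.symm)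
  intro z
  filter_upwards [fnB_germ G (some Q) z, Germ.rep_gm hya.meromorphicAt,
    hκr.filter_mono nhdsWithin_le_nhds] with σ h1 h2 h3
  rw [h1]
  unfold fnB
  have h4 : etF G.ne (some Q) σ = etF G.ne P (κ σ) := by
    unfold etF at h2 ⊢
    rw [hη]
    exact h2
  rw [h4, h3, hthQ]

/-! ### Compactness -/

theorem cB_eq {P : Pts f} {s : ℂ} (h0 : s ≠ 0) (hs : ‖s‖ < rB G P) {Q : APt f}
    (h1 : Q.1.1 = thF P s) (h2 : Q.1.2 = etF G.ne P s) : cB G P s = some Q := by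
  rw [cB_ne G h0 hs]
  apply congrArg some
  apply Subtype.ext
  exact Prod.ext h1.symm h2.symm

theorem cB_ram {P : Pts f} (hP : Rm P) {s : ℂ} (h0 : s ≠ 0) (hs : ‖s‖ < rB G P) {Q : APt f}
    (h1 : Q.1.1 = thF P s) : cB G P s = some Q ∨ cB G P (-s) = some Q := by
  have gs := rB_good G P h0 hs
  have h2 : Q.1.2 ^ 2 = etF G.ne P s ^ 2 := by
    rw [Q.2, gs.sq, h1]
  rcases sq_eq_sq_iff_eq_or_eq_neg.1 h2 with h3 | h3
  · exact Or.inl (cB_eq G h0 hs h1 h3)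
  · right
    apply cB_eq G (neg_ne_zero.2 h0) (by rwa [norm_neg])
    · rw [thF_neg hP, h1]
    · rw [gs.odd hP, h3]

/-- points near a ramified point -/
theorem cB_ram_norm {P : Pts f} (hP : Rm P) {ρ : ℝ} {s : ℂ} (h0 : s ≠ 0)
    (hs : ‖s‖ < min ρ (rB G P)) {Q : APt f} (h1 : Q.1.1 = thF P s) :
    ∃ s', ‖s'‖ < ρ ∧ cB G P s' = some Q := by
  have hs1 := lt_of_lt_of_le hs (min_le_left _ _)
  rcases cB_ram G hP h0 (lt_of_lt_of_le hs (min_le_right _ _)) h1 with h2 | h2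
  · exact ⟨s, hs1, h2⟩
  · exact ⟨-s, by rwa [norm_neg], h2⟩

theorem cpt_inf {ρ : ℝ} (hρ : 0 < ρ) : ∃ M : ℝ, ∀ Q : APt f, M < ‖Q.1.1‖ →
    ∃ s, ‖s‖ < ρ ∧ cB G none s = some Q := by
  have hε : 0 < min ρ (rB G none) := lt_min hρ (rB_pos G none)
  set ε := min ρ (rB G none) with hεd
  refine ⟨(ε ^ 2)⁻¹, fun Q hQ => ?_⟩
  have hM : 0 < (ε ^ 2)⁻¹ := inv_pos.2 (pow_pos hε 2)
  have ha : Q.1.1 ≠ 0 := norm_pos_iff.1 (hM.trans hQ)
  obtain ⟨s, hs⟩ := IsAlgClosed.exists_pow_nat_eq (Q.1.1)⁻¹ (n := 2) (by norm_num)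
  have hs0 : s ≠ 0 := by
    rintro rfl
    rw [zero_pow two_ne_zero] at hs
    exact inv_ne_zero ha hs.symm
  have hn : ‖s‖ ^ 2 < ε ^ 2 := by
    rw [← norm_pow, hs, norm_inv]
    exact inv_lt_of_inv_lt₀ (pow_pos hε 2) hQ
  have hn' : ‖s‖ < ε := lt_of_pow_lt_pow_left₀ 2 hε.le hn
  apply cB_ram_norm G (P := none) (fun _ h => by cases h) hs0 hn'
  show _ = (s ^ 2)⁻¹
  rw [hs, inv_inv]

theorem eta_conj {P Q : APt f} (hb : P.1.2 ≠ 0) (h1 : Q.1.1 = P.1.1) (h2 : Q.1.2 = - P.1.2) :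
    (parAt lam G.ne (some Q)).η = - (parAt lam G.ne (some P)).η := by
  have hb' : Q.1.2 ≠ 0 := by
    rw [h2]
    exact neg_ne_zero.2 hb
  have hθ : (parAt lam G.ne (some Q)).θ = (parAt lam G.ne (some P)).θ := by
    rw [parAt_some, parAt_some, h1]
    have : ram Q = ram P := by
      unfold ram
      rw [if_neg hb, if_neg hb']
    rw [this]
  have h3 : (parAt lam G.ne (some Q)).η ^ 2 = (parAt lam G.ne (some P)).η ^ 2 := by
    rw [Par.hη, Par.hη, hθ]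
  rcases sq_eq_sq_iff_eq_or_eq_neg.1 h3 with h4 | h4
  · exfalso
    have h5 := parAt_some_lc lam G.ne P hb
    have h6 := parAt_some_lc lam G.ne Q hb'
    rw [h4, h5, h2] at h6
    exact hb (self_eq_neg.1 h6)
  · exact h4

theorem cpt_fin (ρ : Pts f → ℝ) (hρ : ∀ P, 0 < ρ P) (a : ℂ) : ∃ δ : ℝ, 0 < δ ∧
    ∃ F : Finset (Pts f), ∀ Q : APt f, dist Q.1.1 a < δ →
      ∃ P ∈ F, ∃ s, ‖s‖ < ρ P ∧ cB G P s = some Q := by
  classical
  by_cases hfa : f.eval a = 0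
  · set P : APt f := ⟨(a, 0), by simp [hfa]⟩ with hP
    have hR : Rm (some P) := by
      intro Q hQ
      rw [← Option.some_injective _ hQ]
    have hε : 0 < min (ρ (some P)) (rB G (some P)) := lt_min (hρ _) (rB_pos G _)
    set ε := min (ρ (some P)) (rB G (some P)) with hεd
    refine ⟨ε ^ 2, pow_pos hε 2, {some P}, fun Q hQ => ⟨some P, by simp, ?_⟩⟩
    by_cases h0 : Q.1.1 = a
    · refine ⟨0, by rw [norm_zero]; exact hρ _, ?_⟩
      rw [cB_zero]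
      apply congrArg some
      apply Subtype.ext
      apply Prod.ext
      · exact h0.symm
      · have h2 := Q.2
        rw [h0, hfa] at h2
        exact (pow_eq_zero_iff (two_ne_zero) |>.1 h2).symm
    · obtain ⟨s, hs⟩ := IsAlgClosed.exists_pow_nat_eq (Q.1.1 - a) (n := 2) (by norm_num)
      have hs0 : s ≠ 0 := by
        rintro rfl
        rw [zero_pow two_ne_zero] at hs
        exact h0 (sub_eq_zero.1 hs.symm)
      have hn : ‖s‖ ^ 2 < ε ^ 2 := by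
        rw [← norm_pow, hs, ← dist_eq_norm]
        exact hQ
      have hn' : ‖s‖ < ε := lt_of_pow_lt_pow_left₀ 2 hε.le hn
      apply cB_ram_norm G hR hs0 hn'
      show _ = P.1.1 + s ^ ram P
      have hr : ram P = 2 := by
        unfold ram
        rw [if_pos rfl]
      rw [hr, hs]
      show Q.1.1 = a + (Q.1.1 - a)
      ring
  · obtain ⟨b, hb⟩ := IsAlgClosed.exists_pow_nat_eq (f.eval a) (n := 2) (by norm_num)
    have hb0 : b ≠ 0 := by
      rintro rfl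
      apply hfa
      rw [← hb]
      ring
    set P₁ : APt f := ⟨(a, b), hb⟩ with hP₁
    set P₂ : APt f := ⟨(a, -b), by simpa using hb⟩ with hP₂
    have r₁ : ram P₁ = 1 := by
      unfold ram
      rw [if_neg hb0]
    have r₂ : ram P₂ = 1 := by
      unfold ram
      rw [if_neg (show P₂.1.2 ≠ 0 from neg_ne_zero.2 hb0)]
    have hη : (parAt lam G.ne (some P₂)).η = - (parAt lam G.ne (some P₁)).η :=
      eta_conj G (P := P₁) (Q := P₂) hb0 rfl rfl
    have h1 : ∀ᶠ s in 𝓝[≠] (0 : ℂ), etF G.ne (some P₂) s = - etF G.ne (some P₁) s := by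
      unfold etF
      rw [hη]
      exact Germ.rep_neg _
    rw [eventually_nhdsWithin_iff, Metric.eventually_nhds_iff] at h1
    obtain ⟨ε, hε, h1⟩ := h1
    set δ := min ε (min (min (ρ (some P₁)) (rB G (some P₁))) (min (ρ (some P₂)) (rB G (some P₂))))
      with hδ
    have hδ0 : 0 < δ := lt_min hε (lt_min (lt_min (hρ _) (rB_pos G _))
      (lt_min (hρ _) (rB_pos G _)))
    have d1 : δ ≤ ε := min_le_left _ _
    have d2 : δ ≤ ρ (some P₁) := (min_le_right _ _).trans ((min_le_left _ _).trans (min_le_left _ _))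
    have d3 : δ ≤ rB G (some P₁) :=
      (min_le_right _ _).trans ((min_le_left _ _).trans (min_le_right _ _))
    have d4 : δ ≤ ρ (some P₂) := (min_le_right _ _).trans ((min_le_right _ _).trans (min_le_left _ _))
    have d5 : δ ≤ rB G (some P₂) :=
      (min_le_right _ _).trans ((min_le_right _ _).trans (min_le_right _ _))
    refine ⟨δ, hδ0, {some P₁, some P₂}, fun Q hQ => ?_⟩
    have m1 : (some P₁ : Pts f) ∈ ({some P₁, some P₂} : Finset (Pts f)) := by simp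
    have m2 : (some P₂ : Pts f) ∈ ({some P₁, some P₂} : Finset (Pts f)) := by simp
    by_cases h0 : Q.1.1 = a
    · have h2 : Q.1.2 ^ 2 = b ^ 2 := by rw [Q.2, hb, h0]
      rcases sq_eq_sq_iff_eq_or_eq_neg.1 h2 with h3 | h3
      · refine ⟨_, m1, 0, by rw [norm_zero]; exact hρ _, ?_⟩
        rw [cB_zero]
        apply congrArg some
        apply Subtype.ext
        exact Prod.ext h0.symm h3.symm
      · refine ⟨_, m2, 0, by rw [norm_zero]; exact hρ _, ?_⟩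
        rw [cB_zero]
        apply congrArg some
        apply Subtype.ext
        exact Prod.ext h0.symm h3.symm
    · set s := Q.1.1 - a with hs
      have hs0 : s ≠ 0 := sub_ne_zero.2 h0
      have hsn : ‖s‖ < δ := by
        rw [hs, ← dist_eq_norm]
        exact hQ
      have gs := rB_good G (some P₁) hs0 (hsn.trans_le d3)
      have t1 : Q.1.1 = thF (some P₁) s := by
        show Q.1.1 = a + s ^ ram P₁
        rw [r₁, pow_one, hs]
        ring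
      have t2 : Q.1.1 = thF (some P₂) s := by
        show Q.1.1 = a + s ^ ram P₂
        rw [r₂, pow_one, hs]
        ring
      have h2 : Q.1.2 ^ 2 = etF G.ne (some P₁) s ^ 2 := by
        rw [Q.2, gs.sq, ← t1]
      rcases sq_eq_sq_iff_eq_or_eq_neg.1 h2 with h3 | h3
      · exact ⟨_, m1, s, hsn.trans_le d2, cB_eq G hs0 (hsn.trans_le d3) t1 h3⟩
      · refine ⟨_, m2, s, hsn.trans_le d4, cB_eq G hs0 (hsn.trans_le d5) t2 ?_⟩
        rw [h3, h1 (by rw [dist_zero_right]; exact hsn.trans_le d1) hs0]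

theorem cptB (ρ : Pts f → ℝ) (hρ : ∀ P, 0 < ρ P) :
    ∃ F : Finset (Pts f), ∀ Q, ∃ P ∈ F, ∃ s, ‖s‖ < ρ P ∧ cB G P s = Q := by
  classical
  obtain ⟨M, hM⟩ := cpt_inf G (hρ none)
  choose δ hδ F hF using cpt_fin G ρ hρ
  obtain ⟨t, _, ht⟩ := (isCompact_closedBall (0 : ℂ) M).elim_nhds_subcover
    (fun a => ball a (δ a)) (fun a _ => ball_mem_nhds a (hδ a))
  refine ⟨{none} ∪ t.biUnion F, fun Q => ?_⟩
  rcases Q with _ | Q
  · exact ⟨none, by simp, 0, by rw [norm_zero]; exact hρ _, cB_zero G _⟩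
  · by_cases h : M < ‖Q.1.1‖
    · obtain ⟨s, h1, h2⟩ := hM Q h
      exact ⟨none, by simp, s, h1, h2⟩
    · have h1 : Q.1.1 ∈ closedBall (0 : ℂ) M := by
        rw [mem_closedBall_zero_iff]
        exact not_lt.1 h
      have h2 := ht h1
      simp only [mem_iUnion] at h2
      obtain ⟨a, hat, ha⟩ := h2
      obtain ⟨P, hP, s, h3, h4⟩ := hF a Q (mem_ball.1 ha)
      refine ⟨P, ?_, s, h3, h4⟩
      rw [Finset.mem_union, Finset.mem_biUnion]
      exact Or.inr ⟨a, hat, hP⟩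

/-- the local structure of the curve `y² = f(x)` -/
def baseLoc (G : Good f) [NonSq f] : LocSt (baseP lam G) where
  r := rB G
  r_pos := rB_pos G
  fn := fnB G
  fn_mero := fnB_mero G
  fn_germ P z := (fnB_germ G P z).symm
  c := cB G
  c_zero := cB_zero G
  coh P s hs := by
    obtain ⟨κ, h1, h2, h3, h4⟩ := cohB G P (s := s) (by simpa using hs)
    exact ⟨κ, ⟨h1, h2, h3⟩, h4⟩
  cpt := cptB G

end

end Pool.Agent.YTDA


end

/- source: Pool.Agent.YTDA.LocRR -/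

section

/-!
Separation of points and existence of uniformizers from Riemann-Roch; radii invariant under
commuting involutions.
-/

namespace Pool.Agent.YTDA

open Complex Set Topology Metric Filter
open Pool.Agent.YTD Pool.Agent.YTD.Hyp

noncomputable section

variable {K : Type} [Field K] [Algebra ℂ K]

theorem sep_curve (X : Curve K) : SepL X.toCurveOrd := by
  classical
  intro P Q hPQ
  obtain ⟨f, hf, hf0, hf1⟩ := X.exists_ord_eq P (D := Finsupp.single P (2 * (X.genus : ℤ) + 1)) (by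
    rw [X.deg_single]
    linarith) P
  rw [Finsupp.single_eq_same] at hf1
  refine ⟨f, hf0, ?_, ?_⟩
  · rw [hf1]
    have := Int.natCast_nonneg X.genus
    linarith
  · have h1 := hf hf0 Q
    rw [Finsupp.single_eq_of_ne (fun h => hPQ h.symm), add_zero] at h1
    exact h1

theorem unif_curve (X : Curve K) : Unif X.toCurveOrd := by
  classical
  intro P
  obtain ⟨f, _, hf0, hf1⟩ := X.exists_ord_eq P (D := Finsupp.single P (2 * (X.genus : ℤ))) (by
    rw [X.deg_single]) P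
  obtain ⟨g, _, hg0, hg1⟩ := X.exists_ord_eq P (D := Finsupp.single P (2 * (X.genus : ℤ) + 1)) (by
    rw [X.deg_single]
    linarith) P
  rw [Finsupp.single_eq_same] at hf1 hg1
  have h1 : f * g⁻¹ ≠ 0 := mul_ne_zero hf0 (inv_ne_zero hg0)
  refine ⟨f * g⁻¹, h1, ?_⟩
  have h2 := X.ord_mul P (f * g⁻¹) g h1 hg0
  rw [inv_mul_cancel_right₀ hg0, hf1, hg1] at h2
  linarith

/-! ### Invariant radii -/

theorem exists_min {α : Type} (σ : α → α) (hσ : ∀ P, σ (σ P) = P) (ρ : α → ℝ)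
    (h0 : ∀ P, 0 < ρ P) : ∃ ρ' : α → ℝ, (∀ P, 0 < ρ' P) ∧ (∀ P, ρ' P ≤ ρ P) ∧
      (∀ P, ρ' (σ P) = ρ' P) ∧ ∀ τ : α → α, (∀ P, σ (τ P) = τ (σ P)) → (∀ P, ρ (τ P) = ρ P) →
        ∀ P, ρ' (τ P) = ρ' P := by
  refine ⟨fun P => min (ρ P) (ρ (σ P)), fun P => lt_min (h0 _) (h0 _), fun P => min_le_left _ _,
    ?_, ?_⟩
  · intro P
    simp only [hσ]
    exact min_comm _ _
  · intro τ h1 h2 P
    simp only [h1, h2]

theorem exists_min₃ {α : Type} (σ₁ σ₂ σ₃ : α → α) (h1 : ∀ P, σ₁ (σ₁ P) = P)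
    (h2 : ∀ P, σ₂ (σ₂ P) = P) (h3 : ∀ P, σ₃ (σ₃ P) = P) (c12 : ∀ P, σ₁ (σ₂ P) = σ₂ (σ₁ P))
    (c13 : ∀ P, σ₁ (σ₃ P) = σ₃ (σ₁ P)) (c23 : ∀ P, σ₂ (σ₃ P) = σ₃ (σ₂ P)) (ρ : α → ℝ)
    (h0 : ∀ P, 0 < ρ P) : ∃ ρ' : α → ℝ, (∀ P, 0 < ρ' P) ∧ (∀ P, ρ' P ≤ ρ P) ∧
      (∀ P, ρ' (σ₁ P) = ρ' P) ∧ (∀ P, ρ' (σ₂ P) = ρ' P) ∧ ∀ P, ρ' (σ₃ P) = ρ' P := by
  obtain ⟨a, a1, a2, a3, _⟩ := exists_min σ₁ h1 ρ h0
  obtain ⟨b, b1, b2, b3, b4⟩ := exists_min σ₂ h2 a a1
  obtain ⟨c, d1, d2, d3, d4⟩ := exists_min σ₃ h3 b b1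
  have e1 := b4 σ₁ (fun P => (c12 P).symm) a3
  exact ⟨c, d1, fun P => (d2 P).trans ((b2 P).trans (a2 P)),
    d4 σ₁ (fun P => (c13 P).symm) e1, d4 σ₂ (fun P => (c23 P).symm) b3, d3⟩

/-- The analytic structure with invariant radii for three commuting involutions. -/
theorem LocSt.exists_an {X : CurveP lam K} (S : LocSt X) (hS : SepL X.toOrd) (hU : Unif X.toOrd)
    (δ₁ δ₂ δ₃ : Deck X) (c12 : δ₁.Comm δ₂) (c13 : δ₁.Comm δ₃) (c23 : δ₂.Comm δ₃) :
    ∃ An : AnCurve X.toOrd, An.fn = S.fn ∧ An.c = S.c ∧ An.Equiv δ₁.θ δ₁.σ ∧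
      An.Equiv δ₂.θ δ₂.σ ∧ An.Equiv δ₃.θ δ₃.σ := by
  choose ε h1 h2 h3 using S.exists_inj hU
  obtain ⟨ρ, r0, r1, e1, e2, e3⟩ := exists_min₃ δ₁.σ δ₂.σ δ₃.σ δ₁.σσ δ₂.σσ δ₃.σσ c12.σ c13.σ c23.σ
    ε h1
  have hle : ∀ P, ρ P ≤ S.r P := fun P => (r1 P).trans (h2 P)
  have hinj : ∀ P, InjOn (S.c P) (ball 0 (ρ P)) := fun P =>
    (h3 P).mono (ball_subset_ball (r1 P))
  exact ⟨S.toAn hS ρ r0 hle hinj, rfl, rfl, S.toAn_equiv hS ρ r0 hle hinj δ₁ e1,
    S.toAn_equiv hS ρ r0 hle hinj δ₂ e2, S.toAn_equiv hS ρ r0 hle hinj δ₃ e3⟩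

end

end Pool.Agent.YTDA


end

/- source: Pool.Agent.YTDA.LocFin -/

section

/-!
Existence of the data `(C, S, S')` with the group `Γ`, an analytic structure and a differential.
-/

namespace Pool.Agent.YTDA

open Set Topology Metric Filter Polynomial
open Pool.Agent.YTD Pool.Agent.YTD.Hyp

noncomputable section

section sheets

variable {F : Type} [Field F] [Algebra ℂ F] {Λ : LF F}
variable {f : ℂ[X]} [NonSq f] (G : Good f) {a₁ a₂ a₃ : ℂ} [NonSqK (hh₁ f a₁)]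
  [NonSqK (hh₂ f a₁ a₂)] [NonSqK (hh₃ f a₁ a₂ a₃)]
  (h1 : f.eval a₁ = 0) (h2 : f.eval a₂ = 0) (h3 : f.eval a₃ = 0)

/-- The sheets over a prescribed set of points of the base. -/
theorem exists_sheets_over (B : Finset (Pts f)) :
    ∃ S S' : Finset (X₃ G h1 h2 h3 Λ).Pt, S.card = 4 * B.card ∧
    S'.card = 4 * B.card ∧ Disjoint S S' ∧
    (∀ x, x ∈ S ↔ (dk₃ G h1 h2 h3).σ x ∈ S') ∧
    (∀ x, x ∈ S ↔ (dk₁ G h1 h2 h3).σ x ∈ S) ∧ (∀ x, x ∈ S ↔ (dk₂ G h1 h2 h3).σ x ∈ S) ∧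
    (∀ x, x ∈ S' ↔ (dk₁ G h1 h2 h3).σ x ∈ S') ∧ (∀ x, x ∈ S' ↔ (dk₂ G h1 h2 h3).σ x ∈ S') ∧
    (∀ x ∈ S, base G h1 h2 h3 x ∈ B) ∧ (∀ x ∈ S', base G h1 h2 h3 x ∈ B) := by
  classical
  have hr : ∀ P : Pts f, ∃ r : F, r ^ 2 = (parAt Λ G.ne P).phi (emb (X - C a₃)) := by
    intro P
    have e1 : (parAt Λ G.ne P).phi (emb (X - C a₃) : KK f) ≠ 0 :=
      Pool.Agent.YTD.Hyp.phi_ne _ (emb_ne (X_sub_C_ne_zero a₃))
    obtain ⟨b, hb⟩ := IsAlgClosed.exists_pow_nat_eq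
      (Λ.lc ((parAt Λ G.ne P).phi (emb (X - C a₃)))) (n := 2) (by norm_num)
    obtain ⟨η, h1, _⟩ := Λ.sqrt e1 (even_emb G h3 P) b hb
    exact ⟨η, h1⟩
  choose r hr using hr
  have hphi : ∀ P : (X₂ G h1 h2 Λ).Pt, (X₂ G h1 h2 Λ).phi P (hh₃ f a₁ a₂ a₃) =
      (parAt Λ G.ne P.1.1.1.1).phi (emb (X - C a₃)) := by
    intro P
    show dphi P (hh₃ f a₁ a₂ a₃) = _
    rw [dphi_alg]
    show dphi P.1.1 _ = _
    rw [dphi_alg]
  let A := pre (ev₂ (Λ := Λ) G h1 h2) (pre (ev₁ G h1) B)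
  have hA : A.card = 4 * B.card := by
    show (pre (ev₂ (Λ := Λ) G h1 h2) (pre (ev₁ G h1) B)).card = _
    rw [card_pre, card_pre]
    ring
  have mA : ∀ P, P ∈ A ↔ P.1.1.1.1 ∈ B := by
    intro P
    show P ∈ pre (ev₂ (Λ := Λ) G h1 h2) (pre (ev₁ G h1) B) ↔ _
    rw [mem_pre, mem_pre]
  obtain ⟨S, hS, mS⟩ := exists_sheet (X := X₂ G h1 h2 Λ) (h := hh₃ f a₁ a₂ a₃) A
    (fun P => r P.1.1.1.1) (fun P => by rw [hr, hphi])
  obtain ⟨S', hS', mS'⟩ := exists_sheet (X := X₂ G h1 h2 Λ) (h := hh₃ f a₁ a₂ a₃) A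
    (fun P => - r P.1.1.1.1) (fun P => by rw [neg_sq, hr, hphi])
  refine ⟨S, S', by rw [hS, hA], by rw [hS', hA], ?_, ?_, ?_, ?_, ?_, ?_, ?_, ?_⟩
  · rw [Finset.disjoint_left]
    intro x hx hx'
    have e1 := ((mS x).1 hx).2
    have e2 := ((mS' x).1 hx').2
    simp only at e1 e2
    rw [e1] at e2
    haveI := charZero_of_alg F
    have e3 : r x.1.1.1.1.1.1 = 0 := self_eq_neg.1 e2
    exact eta_ne x (by rw [e1, e3])
  · intro x
    rw [mS, mS', mA, mA]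
    show _ ↔ (x.1.1.1.1.1.1 ∈ B ∧ - x.1.2 = - r x.1.1.1.1.1.1)
    rw [neg_inj]
  · intro x
    rw [mS, mS, mA, mA]
    exact Iff.rfl
  · intro x
    rw [mS, mS, mA, mA]
    exact Iff.rfl
  · intro x
    rw [mS', mS', mA, mA]
    exact Iff.rfl
  · intro x
    rw [mS', mS', mA, mA]
    exact Iff.rfl
  · intro x hx
    exact (mA _).1 ((mS x).1 hx).1
  · intro x hx
    exact (mA _).1 ((mS' x).1 hx).1

end sheets

section final

variable {f : ℂ[X]} [NonSq f] (G : Good f) {a₁ a₂ a₃ : ℂ} [NonSqK (hh₁ f a₁)]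
  [NonSqK (hh₂ f a₁ a₂)] [NonSqK (hh₃ f a₁ a₂ a₃)]
  (h1 : f.eval a₁ = 0) (h2 : f.eval a₂ = 0) (h3 : f.eval a₃ = 0)

/-- parametrisations of the third cover -/
def loc₃ (B : LocSt (baseP lam G)) : LocSt (X₃ G h1 h2 h3 lam) :=
  ((B.dbl (ev₁ G h1)).dbl (ev₂ G h1 h2)).dbl (ev₃ G h1 h2 h3)

include G h1 h2 h3 in
theorem exists_gam_an (L : LocSt (baseP lam G)) {g : ℕ} (hg : f.natDegree = 2 * g + 1) {s : ℕ}
    (hs : 0 < s) (hgs : g = 9 * s + 1) :
    ∃ (T : Datum (DK (hh₃ f a₁ a₂ a₃))) (γ : Gam T) (An : AnCurve T.X.toCurveOrd),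
      T.t = 8 * s ∧ An.Equiv γ.θ γ.σ ∧ An.Equiv γ.θ₁ γ.σ₁ ∧ An.Equiv γ.θ₂ γ.σ₂ ∧
      ∃ (x₀ : DK (hh₃ f a₁ a₂ a₃)) (d : T.X.Pt →₀ ℤ),
        (∀ P, meromorphicOrderAt (deriv (An.fn P x₀)) 0 = ((d P : ℤ) : WithTop ℤ)) ∧
        T.X.deg d = 2 * T.X.genus - 2 ∧ (∀ P ∈ T.S, d P = 0) ∧ (∀ P ∈ T.S', d P = 0) := by
  classical
  have hg0 : 0 < g := by omega
  haveI := infinite_pts f
  obtain ⟨B, hB1, hB2⟩ := ((dd_finite G).infinite_compl).exists_subset_card_eq (200 * s)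
  obtain ⟨S, S', cS, cS', hd, i0, i1, i2, j1, j2, k1, k2⟩ :=
    exists_sheets_over (Λ := lam) G h1 h2 h3 B
  rw [hB2] at cS cS'
  let T : Datum (DK (hh₃ f a₁ a₂ a₃)) :=
    { X := X₃C G h1 h2 h3 lam hg hg0
      t := 8 * s
      t_pos := by omega
      genus_eq := by
        show 8 * g - 7 = 9 * (8 * s) + 1
        omega
      S := S
      S' := S'
      card_S := cS.trans (by ring)
      card_S' := cS'.trans (by ring)
      disj := hd }
  have key1 : ∀ x y : (X₃ G h1 h2 h3 lam).Pt, y.1.1.1.1 = dneg x.1.1.1.1 → y ≠ x := by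
    intro x y hxy hyx
    rw [hyx] at hxy
    haveI := charZero_of_alg Germ
    exact dneg_ne _ hxy.symm
  have key2 : ∀ x y : (X₃ G h1 h2 h3 lam).Pt, y.1.1 = dneg x.1.1 → y ≠ x := by
    intro x y hxy hyx
    rw [hyx] at hxy
    haveI := charZero_of_alg Germ
    exact dneg_ne _ hxy.symm
  have key3 : ∀ x : (X₃ G h1 h2 h3 lam).Pt, dneg x ≠ x := by
    intro x
    haveI := charZero_of_alg Germ
    exact dneg_ne x
  have c₁₂ := comm₁₂ (Λ := lam) G h1 h2 h3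
  have c₁₃ := comm₁₃ (Λ := lam) G h1 h2 h3
  have c₂₃ := comm₂₃ (Λ := lam) G h1 h2 h3
  let γ : Gam T :=
    { θ := (dk₃ (Λ := lam) G h1 h2 h3).θ
      σ := (dk₃ (Λ := lam) G h1 h2 h3).σ
      θθ := (dk₃ (Λ := lam) G h1 h2 h3).θθ
      σσ := (dk₃ (Λ := lam) G h1 h2 h3).σσ
      free := fun P => key3 P
      ord_σ := fun P z _ => (dk₃ (Λ := lam) G h1 h2 h3).ord_comp P z
      S_iff := i0
      θ₁ := (dk₁ (Λ := lam) G h1 h2 h3).θ
      θ₂ := (dk₂ (Λ := lam) G h1 h2 h3).θ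
      σ₁ := (dk₁ (Λ := lam) G h1 h2 h3).σ
      σ₂ := (dk₂ (Λ := lam) G h1 h2 h3).σ
      θθ₁ := (dk₁ (Λ := lam) G h1 h2 h3).θθ
      θθ₂ := (dk₂ (Λ := lam) G h1 h2 h3).θθ
      σσ₁ := (dk₁ (Λ := lam) G h1 h2 h3).σσ
      σσ₂ := (dk₂ (Λ := lam) G h1 h2 h3).σσ
      ord_σ₁ := fun P z _ => (dk₁ (Λ := lam) G h1 h2 h3).ord_comp P z
      ord_σ₂ := fun P z _ => (dk₂ (Λ := lam) G h1 h2 h3).ord_comp P z
      S_iff₁ := i1
      S_iff₂ := i2
      S'_iff₁ := j1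
      S'_iff₂ := j2
      comm₁₂ := c₁₂.θ
      comm₁ := c₁₃.symm.θ
      comm₂ := c₂₃.symm.θ
      σcomm₁₂ := c₁₂.σ
      σcomm₁ := c₁₃.symm.σ
      σcomm₂ := c₂₃.symm.σ
      free₁ := fun P => key1 P _ rfl
      free₂ := fun P => key2 P _ rfl
      free₁₂ := fun P => key1 P _ rfl
      free₀₁ := fun P => key1 P _ rfl
      free₀₂ := fun P => key2 P _ rfl
      free₀₁₂ := fun P => key1 P _ rfl }
  obtain ⟨An, hfn, _, e1, e2, e3⟩ := (loc₃ G h1 h2 h3 L).exists_an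
    (sep_curve (X₃C G h1 h2 h3 lam hg hg0)) (unif_curve (X₃C G h1 h2 h3 lam hg hg0))
    (dk₁ G h1 h2 h3) (dk₂ G h1 h2 h3) (dk₃ G h1 h2 h3) c₁₂ c₁₃ c₂₃
  refine ⟨T, γ, An, rfl, e3, e1, e2, xx, d₃ G h1 h2 h3, ?_, ?_, ?_, ?_⟩
  · intro P
    rw [hfn]
    exact order_d₃ G h1 h2 h3 (loc₃ G h1 h2 h3 L) P
  · have e4 := deg_d₃ G h1 h2 h3 hg
    have e5 : (((8 * g - 7 : ℕ) : ℤ)) = 8 * g - 7 := by omega
    show (X₃ G h1 h2 h3 lam).toOrd.deg (d₃ G h1 h2 h3) = 2 * ((8 * g - 7 : ℕ) : ℤ) - 2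
    rw [e4, e5]
    ring
  · intro P hP
    have h4 := hB1 (k1 P hP)
    have h5 : ddL (base G h1 h2 h3 P) = 0 := by
      by_contra h6
      exact h4 h6
    exact h5
  · intro P hP
    have h4 := hB1 (k2 P hP)
    have h5 : ddL (base G h1 h2 h3 P) = 0 := by
      by_contra h6
      exact h4 h6
    exact h5

end final

/-- Final statement, modulo the parametrisations of the base curve. -/
theorem exists_an_of (hL : ∀ (f : ℂ[X]) (_ : NonSq f) (G : Good f), Nonempty (LocSt (baseP lam G)))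
    (s : ℕ) (hs : 0 < s) : ∃ (K : Type) (_ : Field K) (_ : Algebra ℂ K) (T : Datum K) (γ : Gam T)
      (An : AnCurve T.X.toCurveOrd), T.t = 8 * s ∧ An.Equiv γ.θ γ.σ ∧ An.Equiv γ.θ₁ γ.σ₁ ∧
      An.Equiv γ.θ₂ γ.σ₂ ∧ ∃ (x₀ : K) (d : T.X.Pt →₀ ℤ),
        (∀ P, meromorphicOrderAt (deriv (An.fn P x₀)) 0 = ((d P : ℤ) : WithTop ℤ)) ∧
        T.X.deg d = 2 * T.X.genus - 2 ∧ (∀ P ∈ T.S, d P = 0) ∧ (∀ P ∈ T.S', d P = 0) := by
  have G := good_fg (9 * s + 1)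
  haveI : NonSq (fg (9 * s + 1)) := G.nonSq
  obtain ⟨a₁, a₂, a₃, b, h1, h2, h3, hb, h12, h13, h23, h1b, h2b, h3b⟩ :=
    exists_roots (9 * s + 1) (by omega)
  haveI i1 : NonSqK (hh₁ (fg (9 * s + 1)) a₁) := ns₁ lam G hb h1b
  haveI i2 : NonSqK (hh₂ (fg (9 * s + 1)) a₁ a₂) := NonSqK.mk' (ns₂ lam G hb h12 h1b h2b)
  haveI i3 : NonSqK (hh₃ (fg (9 * s + 1)) a₁ a₂ a₃) :=
    NonSqK.mk' (ns₃ lam G hb h12 h13 h23 h1b h2b h3b)
  obtain ⟨L⟩ := hL _ inferInstance G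
  obtain ⟨T, γ, An, h⟩ := exists_gam_an G h1 h2 h3 L (natDegree_fg _) hs rfl
  exact ⟨DK (hh₃ (fg (9 * s + 1)) a₁ a₂ a₃), inferInstance, inferInstance, T, γ, An, h⟩

end

end Pool.Agent.YTDA


end

/- source: Pool.Agent.YTDA.LocMain -/

section

/-!
Existence of the data `(C, S, S')` with the group `Γ`, an analytic structure and a differential.
-/

namespace Pool.Agent.YTDA

open Pool.Agent.YTD Pool.Agent.YTD.Hyp

theorem exists_an (s : ℕ) (hs : 0 < s) :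
    ∃ (K : Type) (_ : Field K) (_ : Algebra ℂ K) (T : Datum K) (γ : Gam T)
      (An : AnCurve T.X.toCurveOrd), T.t = 8 * s ∧ An.Equiv γ.θ γ.σ ∧ An.Equiv γ.θ₁ γ.σ₁ ∧
      An.Equiv γ.θ₂ γ.σ₂ ∧ ∃ (x₀ : K) (d : T.X.Pt →₀ ℤ),
        (∀ P, meromorphicOrderAt (deriv (An.fn P x₀)) 0 = ((d P : ℤ) : WithTop ℤ)) ∧
        T.X.deg d = 2 * T.X.genus - 2 ∧ (∀ P ∈ T.S, d P = 0) ∧ (∀ P ∈ T.S', d P = 0) :=
  exists_an_of (fun _ _ G => ⟨baseLoc G⟩) s hs

end Pool.Agent.YTDA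


end

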