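import Pool.Agent.YTDM.P38

/- source: Pool.Agent.YTDA.Chart3 -/

section

/-!
# T13: the moment map of a circle invariant Kähler metric; identities (P1) - (P6) in the charts
-/

namespace Pool.Agent.YTDA

open Complex Set Topology ContDiff ComplexOrder TopologicalSpace

noncomputable section

section Bridge

variable {n : ℕ} {Ω : Opens (E n)}

theorem contDiffOn_of (g : Sm Ω) (F : E n → ℂ) (h : ∀ w : Ω, F w = g.1 w) :
    ContDiffOn ℝ ∞ F Ω :=
  (smooth_ext g).congr fun w hw => by rw [h ⟨w, hw⟩, ext_mk _ hw]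

theorem dz_eq_of (g : Sm Ω) (F : E n → ℂ) (h : ∀ w : Ω, F w = g.1 w) (i : Fin n) (z : Ω) :
    dz i F z = (dzD i g).1 z := by
  rw [dzD_apply]
  refine dz_congr (Filter.eventuallyEq_of_mem (Ω.isOpen.mem_nhds z.2) fun w hw => ?_)
  rw [h ⟨w, hw⟩, ext_mk _ hw]

theorem dzb_eq_of (g : Sm Ω) (F : E n → ℂ) (h : ∀ w : Ω, F w = g.1 w) (i : Fin n) (z : Ω) :
    dzb i F z = (dzbD i g).1 z := by
  rw [dzbD_apply]
  refine dzb_congr (Filter.eventuallyEq_of_mem (Ω.isOpen.mem_nhds z.2) fun w hw => ?_)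
  rw [h ⟨w, hw⟩, ext_mk _ hw]

theorem hess_eq_of (g : Sm Ω) (F : E n → ℝ) (h : ∀ w : Ω, (F w : ℂ) = g.1 w) (i j : Fin n)
    (z : Ω) : hess F z i j = (dzD i (dzbD j g)).1 z := by
  show dz i (dzb j fun w => (F w : ℂ)) z = _
  exact dz_eq_of _ _ (fun w => dzb_eq_of g _ h j w) i z

theorem dzD_ofR (φ : E n → ℝ) (hφ : ContDiffOn ℝ ∞ φ Ω) (i : Fin n) (z : Ω) :
    (dzD i (ofR φ hφ)).1 z = dz i (fun w => (φ w : ℂ)) z :=
  (dz_eq_of _ _ (fun _ => rfl) i z).symm

theorem dzbD_ofR (φ : E n → ℝ) (hφ : ContDiffOn ℝ ∞ φ Ω) (i : Fin n) (z : Ω) :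
    (dzbD i (ofR φ hφ)).1 z = dzb i (fun w => (φ w : ℂ)) z :=
  (dzb_eq_of _ _ (fun _ => rfl) i z).symm

theorem adj_hess_eq (φ : E n → ℝ) (hφ : ContDiffOn ℝ ∞ φ Ω) (z : Ω) (i j : Fin n) :
    (hess φ z).adjugate i j = ((hessS (ofR φ hφ)).adjugate i j).1 z := by
  rw [hess_eq φ hφ z]
  have h := (evalS z).toRingHom.map_adjugate (hessS (ofR φ hφ))
  have h2 := congrFun (congrFun h i) j
  exact h2.symm

theorem contDiffOn_adj_hess (φ : E n → ℝ) (hφ : ContDiffOn ℝ ∞ φ Ω) (i j : Fin n) :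
    ContDiffOn ℝ ∞ (fun w => (hess φ w).adjugate i j) Ω :=
  contDiffOn_of _ _ fun w => adj_hess_eq φ hφ w i j

theorem contDiffOn_hess (φ : E n → ℝ) (hφ : ContDiffOn ℝ ∞ φ Ω) (i j : Fin n) :
    ContDiffOn ℝ ∞ (fun w => hess φ w i j) Ω :=
  contDiffOn_of _ _ fun w => hess_apply_eq φ hφ w i j

theorem contDiffOn_det_hess (φ : E n → ℝ) (hφ : ContDiffOn ℝ ∞ φ Ω) :
    ContDiffOn ℝ ∞ (fun w => (hess φ w).det) Ω :=
  contDiffOn_of _ _ fun w => det_hess_eq φ hφ w

end Bridge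

/-! ## one chart -/

section Chart

variable {n : ℕ} {Ω : Opens (E n)} {k : Fin n → ℤ} {m : ℤ} {φ μ : E n → ℝ} {z : E n}

/-- circle invariance and the moment map in a chart -/
structure ChMu (Ω : Opens (E n)) (k : Fin n → ℤ) (m : ℤ) (φ μ : E n → ℝ) : Prop where
  smooth : ContDiffOn ℝ ∞ φ Ω
  inv : ∀ z ∈ Ω, ∀ c : ℂˣ, ‖(c : ℂ)‖ = 1 → φ (dact k c z) = φ z
  mu : ∀ z ∈ Ω, (μ z : ℂ) = m + ∑ j, k j * z j * dz j (fun w => (φ w : ℂ)) z

namespace ChMu

variable (h : ChMu Ω k m φ μ)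

include h

theorem inv_ring : ∑ j, ZS k j * dzD j (ofR φ h.smooth : Sm Ω) =
    ∑ j, star (ZS k j) * dzbD j (ofR φ h.smooth : Sm Ω) := by
  apply Sm.ext'
  intro z
  have h1 := circ_inv (F := fun w => (φ w : ℂ)) (z := (z : E n))
    (((ofRealCLM.contDiff.comp_contDiffOn h.smooth).contDiffAt
      (Ω.isOpen.mem_nhds z.2)).differentiableAt (by simp)) k
    (fun c hc => by rw [h.inv z z.2 c hc])
  rw [Sm.sum_apply, Sm.sum_apply]
  simp only [Sm.mul_apply, ZS_apply, star_apply, dzD_ofR, dzbD_ofR, map_mul, map_intCast]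
  exact h1

theorem mu_eq (z : Ω) : (μ z : ℂ) = (muSC k m (ofR φ h.smooth : Sm Ω)).1 z := by
  rw [h.mu z z.2, muSC, Sm.add_apply, Sm.sum_apply, intCast_apply]
  simp only [Sm.mul_apply, ZS_apply, dzD_ofR]

theorem smooth_mu : ContDiffOn ℝ ∞ μ Ω := by
  have h1 := contDiffOn_of _ (fun z => (μ z : ℂ)) h.mu_eq
  have h2 := reCLM.contDiff.comp_contDiffOn h1
  exact h2.congr fun z _ => (ofReal_re _).symm

theorem ofR_mu : (ofR μ h.smooth_mu : Sm Ω) = muSC k m (ofR φ h.smooth) :=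
  Sm.ext' fun z => by rw [ofR_apply, h.mu_eq]

/-- (P1) -/
theorem dzb_mu {z : E n} (hz : z ∈ Ω) (j : Fin n) :
    dzb j (fun w => (μ w : ℂ)) z = ∑ i, k i * z i * hess φ z i j := by
  rw [dzb_eq_of _ _ h.mu_eq j ⟨z, hz⟩, dzbD_muS, Sm.sum_apply]
  refine Finset.sum_congr rfl fun i _ => ?_
  rw [Sm.mul_apply, ZS_apply, hess_eq φ h.smooth ⟨z, hz⟩, evM_apply]

theorem dz_mu {z : E n} (hz : z ∈ Ω) (i : Fin n) :
    dz i (fun w => (μ w : ℂ)) z = ∑ j, (starRingEnd ℂ) (k j * z j) * hess φ z i j := by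
  rw [dz_eq_of _ _ h.mu_eq i ⟨z, hz⟩, dzD_muS k m _ (star_ofR _ _) h.inv_ring, Sm.sum_apply]
  refine Finset.sum_congr rfl fun j _ => ?_
  rw [Sm.mul_apply, star_apply, ZS_apply, hess_eq φ h.smooth ⟨z, hz⟩, evM_apply]

theorem adj_dz_mu {z : E n} (hz : z ∈ Ω) (j : Fin n) :
    ∑ i, (hess φ z).adjugate j i * dz i (fun w => (μ w : ℂ)) z =
      (hess φ z).det * (starRingEnd ℂ) (k j * z j) := by
  have h1 := congrArg (fun f : Sm Ω => f.1 ⟨z, hz⟩)
    (adj_dzD_muS k m (ofR φ h.smooth : Sm Ω) (star_ofR _ _) h.inv_ring j)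
  simp only [Sm.sum_apply, Sm.mul_apply, star_apply, ZS_apply] at h1
  rw [det_hess_eq φ h.smooth ⟨z, hz⟩, ← h1]
  refine Finset.sum_congr rfl fun i _ => ?_
  rw [dz_eq_of _ _ h.mu_eq i ⟨z, hz⟩, adj_hess_eq φ h.smooth ⟨z, hz⟩]

theorem adj_dzb_mu {z : E n} (hz : z ∈ Ω) (i : Fin n) :
    ∑ j, (hess φ z).adjugate j i * dzb j (fun w => (μ w : ℂ)) z =
      (hess φ z).det * (k i * z i) := by
  have h1 := congrArg (fun f : Sm Ω => f.1 ⟨z, hz⟩) (adj_dzbD_muS k m (ofR φ h.smooth : Sm Ω) i)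
  simp only [Sm.sum_apply, Sm.mul_apply, ZS_apply] at h1
  rw [det_hess_eq φ h.smooth ⟨z, hz⟩, ← h1]
  refine Finset.sum_congr rfl fun j _ => ?_
  rw [dzb_eq_of _ _ h.mu_eq j ⟨z, hz⟩, adj_hess_eq φ h.smooth ⟨z, hz⟩]

theorem hess_mu {z : E n} (hz : z ∈ Ω) (i j : Fin n) : hess μ z i j =
    k i * hess φ z i j + ∑ l, k l * z l * dz l (fun w => hess φ w i j) z := by
  rw [hess_eq_of _ _ h.mu_eq i j ⟨z, hz⟩, dzD_dzbD_muS, Sm.add_apply, Sm.mul_apply, Sm.sum_apply,
    intCast_apply, hess_eq φ h.smooth ⟨z, hz⟩, evM_apply]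
  congr 1
  refine Finset.sum_congr rfl fun l _ => ?_
  rw [Sm.mul_apply, ZS_apply]
  congr 1
  exact (dz_eq_of _ _ (fun w => hess_apply_eq φ h.smooth w i j) l ⟨z, hz⟩).symm

/-- (P3) -/
theorem V_mu {z : E n} (hz : z ∈ Ω) : ∑ i, k i * z i * dz i (fun w => (μ w : ℂ)) z =
    ∑ i, ∑ j, (k i * z i) * (starRingEnd ℂ) (k j * z j) * hess φ z i j := by
  simp only [h.dz_mu hz, Finset.mul_sum]
  refine Finset.sum_congr rfl fun i _ => Finset.sum_congr rfl fun j _ => ?_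
  ring

/-- (P4) -/
theorem adj_hess_mu (hd : ∀ z ∈ Ω, (hess φ z).PosDef) {z : E n} (hz : z ∈ Ω) :
    ∑ i, ∑ j, (hess φ z).adjugate j i * hess μ z i j =
      (hess φ z).det * (∑ l, k l * z l * dz l (fun w => (logdet φ w : ℂ)) z + ∑ i, (k i : ℂ)) := by
  have hp := det_pos_of_posDef h.smooth hd
  have h1 := congrArg (fun f : Sm Ω => f.1 ⟨z, hz⟩) (adj_hess_muS k m (ofR φ h.smooth : Sm Ω) hp)
  simp only [Sm.sum_apply, Sm.mul_apply, Sm.add_apply, ZS_apply, intCast_apply] at h1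
  rw [det_hess_eq φ h.smooth ⟨z, hz⟩]
  have h2 : ∀ l, dz l (fun w => (logdet φ w : ℂ)) z =
      (dzD l (logS (hessS (ofR φ h.smooth)).det hp)).1 ⟨z, hz⟩ :=
    fun l => dz_eq_of _ _ (fun w => logdet_eq h.smooth hp w) l ⟨z, hz⟩
  simp only [h2]
  rw [← h1]
  refine Finset.sum_congr rfl fun i _ => Finset.sum_congr rfl fun j _ => ?_
  rw [hess_eq_of _ _ h.mu_eq i j ⟨z, hz⟩, adj_hess_eq φ h.smooth ⟨z, hz⟩]

end ChMu

theorem quad_pos {M : Matrix (Fin n) (Fin n) ℂ} (hM : M.PosDef) {v : Fin n → ℂ} (hv : v ≠ 0) :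
    0 < ∑ i, ∑ j, v i * (starRingEnd ℂ) (v j) * M i j := by
  have h1 : star v ≠ 0 := fun h => hv (star_eq_zero.1 h)
  have h2 := hM.dotProduct_mulVec_pos h1
  rw [star_star] at h2
  refine lt_of_lt_of_eq h2 ?_
  simp only [dotProduct, Matrix.mulVec, Finset.mul_sum]
  refine Finset.sum_congr rfl fun i _ => Finset.sum_congr rfl fun j _ => ?_
  simp only [Pi.star_apply, RCLike.star_def]
  ring

/-- the square of the norm of the vector field of the action -/
def nrm2 (k : Fin n → ℤ) (φ : E n → ℝ) (z : E n) : ℝ :=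
  (∑ i, ∑ j, (k i * z i) * (starRingEnd ℂ) (k j * z j) * hess φ z i j).re

theorem nrm2_pos (hp : (hess φ z).PosDef) (h : ∃ j, (k j : ℂ) * z j ≠ 0) : 0 < nrm2 k φ z := by
  have h1 : (fun j => (k j : ℂ) * z j) ≠ 0 := fun h0 => by
    obtain ⟨j, hj⟩ := h
    exact hj (congrFun h0 j)
  exact (pos_iff.1 (quad_pos hp h1)).1

theorem nrm2_zero (h : ∀ j, (k j : ℂ) * z j = 0) : nrm2 k φ z = 0 := by
  simp [nrm2, h]

theorem nrm2_nonneg (hp : (hess φ z).PosDef) : 0 ≤ nrm2 k φ z := by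
  by_cases h : ∃ j, (k j : ℂ) * z j ≠ 0
  · exact (nrm2_pos hp h).le
  · push Not at h
    rw [nrm2_zero h]

theorem nrm2_coe (hp : (hess φ z).PosDef) : ((nrm2 k φ z : ℝ) : ℂ) =
    ∑ i, ∑ j, (k i * z i) * (starRingEnd ℂ) (k j * z j) * hess φ z i j := by
  by_cases h : ∃ j, (k j : ℂ) * z j ≠ 0
  · have h1 : (fun j => (k j : ℂ) * z j) ≠ 0 := fun h0 => by
      obtain ⟨j, hj⟩ := h
      exact hj (congrFun h0 j)
    have h2 := (pos_iff.1 (quad_pos hp h1)).2
    apply Complex.ext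
    · rw [ofReal_re, nrm2]
    · rw [ofReal_im]
      exact h2
  · push Not at h
    rw [nrm2_zero h]
    simp [h]

/-- (P3) -/
theorem ChMu.V_mu' (h : ChMu Ω k m φ μ) (hz : z ∈ Ω) (hp : (hess φ z).PosDef) :
    ∑ i, k i * z i * dz i (fun w => (μ w : ℂ)) z = (nrm2 k φ z : ℝ) := by
  rw [h.V_mu hz, nrm2_coe hp]

theorem ChMu.mu_fix (h : ChMu Ω k m φ μ) (hz : z ∈ Ω) (h0 : ∀ j, (k j : ℂ) * z j = 0) :
    μ z = m := by
  have h1 := h.mu z hz
  simp only [h0, zero_mul, Finset.sum_const_zero, add_zero] at h1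
  exact_mod_cast h1

/-- (P5) -/
theorem sum_adj_hess (φ : E n → ℝ) (z : E n) :
    ∑ i, ∑ j, (hess φ z).adjugate j i * hess φ z i j = n * (hess φ z).det := by
  have h1 : ∀ i, ∑ j, (hess φ z).adjugate j i * hess φ z i j =
      (hess φ z * (hess φ z).adjugate) i i := by
    intro i
    rw [Matrix.mul_apply]
    refine Finset.sum_congr rfl fun j _ => ?_
    ring
  simp only [h1]
  rw [Matrix.mul_adjugate]
  simp

/-- (P2) -/
theorem dz_adj_hess {Ω : Opens (E 2)} {φ : E 2 → ℝ} (hφ : ContDiffOn ℝ ∞ φ Ω) {z : E 2}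
    (hz : z ∈ Ω) (j : Fin 2) : ∑ i, dz i (fun w => (hess φ w).adjugate j i) z = 0 := by
  have h1 := congrArg (fun f : Sm Ω => f.1 ⟨z, hz⟩) (div_adj (ofR φ hφ : Sm Ω) j)
  simp only [Sm.sum_apply] at h1
  rw [← Sm.zero_apply (⟨z, hz⟩ : Ω), ← h1]
  refine Finset.sum_congr rfl fun i _ => ?_
  exact dz_eq_of _ _ (fun w => adj_hess_eq φ hφ w j i) i ⟨z, hz⟩

theorem dzb_adj_hess {Ω : Opens (E 2)} {φ : E 2 → ℝ} (hφ : ContDiffOn ℝ ∞ φ Ω) {z : E 2}
    (hz : z ∈ Ω) (i : Fin 2) : ∑ j, dzb j (fun w => (hess φ w).adjugate j i) z = 0 := by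
  have h1 := congrArg (fun f : Sm Ω => f.1 ⟨z, hz⟩) (div_adj' (ofR φ hφ : Sm Ω) i)
  simp only [Sm.sum_apply] at h1
  rw [← Sm.zero_apply (⟨z, hz⟩ : Ω), ← h1]
  refine Finset.sum_congr rfl fun j _ => ?_
  exact dzb_eq_of _ _ (fun w => adj_hess_eq φ hφ w j i) j ⟨z, hz⟩

end Chart

/-! ## the moment map on `Y` -/

namespace PolAtlas

variable {n : ℕ} {Y : Type} [MulAction ℂˣ Y] {A : PolAtlas n Y}

/-- the domain of a chart -/
def Om (A : PolAtlas n Y) (a : A.ι) : Opens (E n) := ⟨A.U a, A.isOpen_U a⟩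

@[simp] theorem mem_Om (a : A.ι) (z : E n) : z ∈ A.Om a ↔ z ∈ A.U a := Iff.rfl

/-- the moment map -/
def DAct.mu (D : A.DAct) (H : Y → ℝ) (y : Y) : ℝ :=
  deriv (fun t : ℝ => Real.log (H (D.act (YTDA.expU t) y))) 0 / 2

variable {H : Y → ℝ} (hK : A.IsKahler H) (D : A.DAct)

include hK

theorem log_smul (c : ℂˣ) (y : Y) :
    Real.log (H (c • y)) = 2 * Real.log ‖(c : ℂ)‖ + Real.log (H y) := by
  rw [hK.hom, Real.log_mul (by simp) (hK.pos y).ne', Real.log_pow]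
  norm_num

theorem log_actC {a : A.ι} {z : E n} (hz : z ∈ A.U a) (c : ℂˣ) :
    Real.log (H (D.act c (A.γ a z))) =
      2 * D.m a * Real.log ‖(c : ℂ)‖ + A.pot H a (dact (D.k a) c z) := by
  rw [D.act_γ a z hz c, log_smul hK, Units.val_zpow_eq_zpow_val, norm_zpow, Real.log_zpow, pot]
  ring

theorem mu_smul (c : ℂˣ) (y : Y) : D.mu H (c • y) = D.mu H y := by
  rw [DAct.mu, DAct.mu]
  simp only [D.act_smul, log_smul hK]
  rw [deriv_const_add]

omit hK in
theorem mu_act_expU (t : ℝ) (y : Y) : D.mu H (D.act (YTDA.expU t) y) =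
    deriv (fun s : ℝ => Real.log (H (D.act (YTDA.expU s) y))) t / 2 := by
  rw [DAct.mu]
  have h1 : (fun s : ℝ => Real.log (H (D.act (YTDA.expU s) (D.act (YTDA.expU t) y)))) =
      fun s : ℝ => (fun s : ℝ => Real.log (H (D.act (YTDA.expU s) y))) (s + t) := by
    funext s
    simp only
    rw [← D.act_mul, ← expU_add, ofReal_add]
  rw [h1]
  have h2 := deriv_comp_add_const (fun s : ℝ => Real.log (H (D.act (YTDA.expU s) y))) t 0
  rw [h2, zero_add]

variable (hc : ∀ (c : ℂˣ) y, ‖(c : ℂ)‖ = 1 → H (D.act c y) = H y)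

include hc

theorem pot_inv {a : A.ι} {z : E n} (hz : z ∈ A.U a) (c : ℂˣ) (hc1 : ‖(c : ℂ)‖ = 1) :
    A.pot H a (dact (D.k a) c z) = A.pot H a z := by
  have h1 := log_actC hK D hz c
  rw [hc c _ hc1, hc1, Real.log_one, mul_zero, zero_add] at h1
  exact h1.symm

theorem hasDerivAt_log_act {a : A.ι} {z : E n} (hz : z ∈ A.U a) :
    HasDerivAt (fun t : ℝ => ((Real.log (H (D.act (YTDA.expU t) (A.γ a z))) : ℝ) : ℂ))
      (2 * (D.m a + ∑ j, D.k a j * z j * dz j (fun w => (A.pot H a w : ℂ)) z)) 0 := by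
  have h1 := deriv_radial (F := fun w => (A.pot H a w : ℂ)) (z := z)
    (((ofRealCLM.contDiff.comp_contDiffOn (hK.smooth a)).contDiffAt
      ((A.isOpen_U a).mem_nhds hz)).differentiableAt (by simp)) (D.k a)
    (fun c hc1 => by rw [pot_inv hK D hc hz c hc1])
  have h2 : (fun t : ℝ => ((Real.log (H (D.act (YTDA.expU t) (A.γ a z))) : ℝ) : ℂ)) =
      fun t : ℝ => 2 * (D.m a : ℂ) * (t : ℂ) + (A.pot H a (dact (D.k a) (YTDA.expU t) z) : ℂ) := by
    funext t
    rw [log_actC hK D hz, YTDA.norm_expU, ofReal_re, Real.log_exp]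
    push_cast
    ring
  have h3 : HasDerivAt (fun t : ℝ => (t : ℂ)) 1 0 := ofRealCLM.hasDerivAt
  rw [h2]
  have h4 := (h3.const_mul (2 * (D.m a : ℂ))).add h1
  rw [mul_one] at h4
  rw [mul_add]
  exact h4

theorem mu_γ {a : A.ι} {z : E n} (hz : z ∈ A.U a) : ((D.mu H (A.γ a z) : ℝ) : ℂ) =
    D.m a + ∑ j, D.k a j * z j * dz j (fun w => (A.pot H a w : ℂ)) z := by
  have h1 := hasDerivAt_log_act hK D hc hz
  have h2 : HasDerivAt (fun t : ℝ => Real.log (H (D.act (YTDA.expU t) (A.γ a z))))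
      (2 * (D.m a + ∑ j, D.k a j * z j * dz j (fun w => (A.pot H a w : ℂ)) z)).re 0 := by
    have h5 := (hasDerivAt_iff_hasFDerivAt.1 h1)
    have h6 := (reCLM.hasFDerivAt.comp (0 : ℝ) h5).hasDerivAt
    exact HasDerivAt.congr_deriv h6 (by
      rw [ContinuousLinearMap.comp_apply, ContinuousLinearMap.toSpanSingleton_apply, one_smul,
        reCLM_apply])
  rw [DAct.mu, h2.deriv]
  have h3 := h2.ofReal_comp.unique h1
  rw [ofReal_div, h3]
  push_cast
  ring

theorem chMu (a : A.ι) : ChMu (A.Om a) (D.k a) (D.m a) (A.pot H a)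
    (fun z => D.mu H (A.γ a z)) where
  smooth := hK.smooth a
  inv _ hz c hc1 := pot_inv hK D hc hz c hc1
  mu _ hz := mu_γ hK D hc hz

omit hK in
/-- the moment map is invariant under the circle -/
theorem mu_act_circle (c : ℂˣ) (hc1 : ‖(c : ℂ)‖ = 1) (y : Y) :
    D.mu H (D.act c y) = D.mu H y := by
  rw [DAct.mu, DAct.mu]
  congr 2
  funext t
  rw [← D.act_mul, mul_comm, D.act_mul, hc c _ hc1]

omit hc in
theorem mu_γ_dact {a : A.ι} {z : E n} (hz : z ∈ A.U a) (c : ℂˣ) :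
    D.mu H (A.γ a (dact (D.k a) c z)) = D.mu H (D.act c (A.γ a z)) := by
  rw [D.act_γ a z hz c, mu_smul hK]

/-- the derivative of the moment map along the action -/
theorem hasDerivAt_mu_act {a : A.ι} {z : E n} (hz : z ∈ A.U a) :
    HasDerivAt (fun t : ℝ => D.mu H (D.act (YTDA.expU t) (A.γ a z)))
      (2 * nrm2 (D.k a) (A.pot H a) z) 0 := by
  have hm := chMu hK D hc a
  have h1 := deriv_radial (F := fun w => (D.mu H (A.γ a w) : ℂ)) (z := z)
    (((ofRealCLM.contDiff.comp_contDiffOn hm.smooth_mu).contDiffAt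
      ((A.isOpen_U a).mem_nhds hz)).differentiableAt (by simp)) (D.k a)
    (fun c hc1 => by rw [mu_γ_dact hK D hz, mu_act_circle D hc c hc1])
  rw [hm.V_mu' hz (hK.posDef a z hz)] at h1
  have h5 := (hasDerivAt_iff_hasFDerivAt.1 h1)
  have h6 := (reCLM.hasFDerivAt.comp (0 : ℝ) h5).hasDerivAt
  have h7 : (reCLM ∘ fun t : ℝ => ((D.mu H (A.γ a (dact (D.k a) (YTDA.expU t) z)) : ℝ) : ℂ)) =
      fun t : ℝ => D.mu H (D.act (YTDA.expU t) (A.γ a z)) := by
    funext t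
    rw [Function.comp_apply, reCLM_apply, ofReal_re, mu_γ_dact hK D hz]
  rw [h7] at h6
  refine HasDerivAt.congr_deriv h6 ?_
  rw [ContinuousLinearMap.comp_apply, ContinuousLinearMap.toSpanSingleton_apply, one_smul,
    reCLM_apply, ← ofReal_ofNat, ← ofReal_mul, ofReal_re]

omit hK hc in
/-- the square of the norm of the vector field -/
def DAct.nv (D : A.DAct) (H : Y → ℝ) (y : Y) : ℝ :=
  deriv (fun t : ℝ => D.mu H (D.act (YTDA.expU t) y)) 0 / 2

theorem nv_γ {a : A.ι} {z : E n} (hz : z ∈ A.U a) :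
    D.nv H (A.γ a z) = nrm2 (D.k a) (A.pot H a) z := by
  rw [DAct.nv, (hasDerivAt_mu_act hK D hc hz).deriv]
  ring

omit hc in
theorem nv_smul (c : ℂˣ) (y : Y) : D.nv H (c • y) = D.nv H y := by
  rw [DAct.nv, DAct.nv]
  simp only [D.act_smul, mu_smul hK]

omit hK in
theorem nv_act_circle (c : ℂˣ) (hc1 : ‖(c : ℂ)‖ = 1) (y : Y) :
    D.nv H (D.act c y) = D.nv H y := by
  rw [DAct.nv, DAct.nv]
  congr 2
  funext t
  rw [← D.act_mul, mul_comm, D.act_mul, mu_act_circle D hc c hc1]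

theorem hasDerivAt_mu_act' (y : Y) (t : ℝ) :
    HasDerivAt (fun s : ℝ => D.mu H (D.act (YTDA.expU s) y)) (2 * D.nv H (D.act (YTDA.expU t) y)) t := by
  obtain ⟨a, z, hz, c, hy⟩ := A.cover (D.act (YTDA.expU t) y)
  have h1 := hasDerivAt_mu_act hK D hc hz
  rw [hy, nv_smul hK, nv_γ hK D hc hz]
  have h2 : (fun s : ℝ => D.mu H (D.act (YTDA.expU s) y)) =
      fun s : ℝ => D.mu H (D.act (YTDA.expU ((s - t : ℝ) : ℂ)) (A.γ a z)) := by
    funext s
    rw [← mu_smul hK D c (D.act (YTDA.expU ((s - t : ℝ) : ℂ)) (A.γ a z)), ← D.act_smul, ← hy,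
      ← D.act_mul, ← expU_add]
    congr 3
    push_cast
    ring
  rw [h2]
  have h3 : HasDerivAt (fun s : ℝ => s - t) 1 t := (hasDerivAt_id t).sub_const t
  have h4 := HasDerivAt.comp t (h₂ := fun t : ℝ => D.mu H (D.act (YTDA.expU t) (A.γ a z)))
    (h := fun s : ℝ => s - t) (by rw [sub_self]; exact h1) h3
  rw [mul_one] at h4
  exact h4

theorem hasDerivAt_log_act' (y : Y) (t : ℝ) :
    HasDerivAt (fun s : ℝ => Real.log (H (D.act (YTDA.expU s) y))) (2 * D.mu H (D.act (YTDA.expU t) y)) t := by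
  obtain ⟨a, z, hz, c, hy⟩ := A.cover (D.act (YTDA.expU t) y)
  have h1 := hasDerivAt_log_act hK D hc hz
  have h5 := (hasDerivAt_iff_hasFDerivAt.1 h1)
  have h6 := (reCLM.hasFDerivAt.comp (0 : ℝ) h5).hasDerivAt
  have h7 : (reCLM ∘ fun t : ℝ => ((Real.log (H (D.act (YTDA.expU t) (A.γ a z))) : ℝ) : ℂ)) =
      fun t : ℝ => Real.log (H (D.act (YTDA.expU t) (A.γ a z))) := by
    funext t
    rw [Function.comp_apply, reCLM_apply, ofReal_re]
  rw [h7] at h6
  have h8 : HasDerivAt (fun t : ℝ => Real.log (H (D.act (YTDA.expU t) (A.γ a z))))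
      (2 * D.mu H (A.γ a z)) 0 := by
    refine HasDerivAt.congr_deriv h6 ?_
    rw [ContinuousLinearMap.comp_apply, ContinuousLinearMap.toSpanSingleton_apply, one_smul,
      reCLM_apply, ← mu_γ hK D hc hz, ← ofReal_ofNat, ← ofReal_mul, ofReal_re]
  rw [hy, mu_smul hK]
  have h2 : (fun s : ℝ => Real.log (H (D.act (YTDA.expU s) y))) =
      fun s : ℝ => 2 * Real.log ‖(c : ℂ)‖ +
        Real.log (H (D.act (YTDA.expU ((s - t : ℝ) : ℂ)) (A.γ a z))) := by
    funext s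
    rw [← log_smul hK, ← D.act_smul, ← hy, ← D.act_mul, ← expU_add]
    congr 4
    push_cast
    ring
  rw [h2]
  have h3 : HasDerivAt (fun s : ℝ => s - t) 1 t := (hasDerivAt_id t).sub_const t
  have h4 := (HasDerivAt.comp t (h₂ := fun t : ℝ => Real.log (H (D.act (YTDA.expU t) (A.γ a z))))
    (h := fun s : ℝ => s - t) (by rw [sub_self]; exact h8) h3).const_add
      (2 * Real.log ‖(c : ℂ)‖)
  rw [mul_one] at h4
  exact h4

end PolAtlas

end

end Pool.Agent.YTDA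


end

/- source: Pool.Agent.YTDA.T13Defs -/

section

/-!
# T13: definitions (moment map, density, integration over `M`, labels of the coordinate axes)
-/

namespace Pool.Agent.YTDA

open Complex Set Topology ContDiff MeasureTheory

noncomputable section

/-- `∑ k_j z̄_j ∂̄_j f` -/
def wdzb {n : ℕ} (k : Fin n → ℤ) (f : E n → ℂ) (z : E n) : ℂ :=
  ∑ j, (k j : ℂ) * (starRingEnd ℂ) (z j) * dzb j f z

/-- the point of the axis `z_j = 0` of `ℂ²` with other coordinate `w` -/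
def axis (j : Fin 2) (w : ℂ) : E 2 := j.insertNth 0 (fun _ : Fin 1 => w)

theorem axis_zero (w : ℂ) : axis 0 w = ![0, w] := by
  ext i
  fin_cases i <;> rfl

theorem axis_one (w : ℂ) : axis 1 w = ![w, 0] := by
  ext i
  fin_cases i <;> rfl

theorem axis_same (j : Fin 2) (w : ℂ) : axis j w j = 0 := Fin.insertNth_apply_same _ _ _

theorem axis_other (j : Fin 2) (w : ℂ) : axis j w (1 - j) = w := by
  fin_cases j <;> rfl

namespace PolAtlas

variable {n : ℕ} {Y : Type} [MulAction ℂˣ Y]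

section

variable (A : PolAtlas n Y) (D : A.DAct) (H : Y → ℝ)

/-- the moment map in the chart `a` -/
def mu (a : A.ι) (z : E n) : ℝ := mom (D.k a) (D.m a) (A.pot H a) z

/-- the volume density -/
def rho (a : A.ι) (z : E n) : ℝ := (hess (A.pot H a) z).det.re

/-- `|V|²`, `V = ∑ k_j z_j ∂_j` -/
def vv (a : A.ι) (z : E n) : ℝ :=
  (∑ i, ∑ j, (D.k a i : ℂ) * z i * ((D.k a j : ℂ) * (starRingEnd ℂ) (z j)) *
    hess (A.pot H a) z i j).re

/-- `∑ C_{ji} ∂_i ∂̄_j G`, `C` the adjugate of the metric -/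
def trC (a : A.ι) (G : E n → ℝ) (z : E n) : ℂ :=
  ∑ i, ∑ j, (hess (A.pot H a) z).adjugate j i * hess G z i j

/-- the integrand of the residue theorem -/
def resF (u : ℝ → ℝ) (G : A.ι → E n → ℝ) (M : A.ι → Fin n → ℝ) (a : A.ι) (z : E n) : ℂ :=
  (u (A.mu D H a z) : ℂ) * A.trC H a (G a) z + (A.rho H a z : ℂ) * ((deriv u (A.mu D H a z) : ℝ) : ℂ) *
    (wdzb (D.k a) (fun w => (G a w : ℂ)) z + ((∑ j, M a j * D.k a j : ℝ) : ℂ))

end

namespace Part

variable {A : PolAtlas n Y} (P : A.Part)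

/-- the integral over `M` of the density with local expressions `f a` -/
def int (f : A.ι → E n → ℂ) : ℂ := ∑ k, ∫ z in A.U (P.a k), P.X k (P.a k) z * f (P.a k) z

end Part

/-- `∫_w (χ_k u(μ) g_oo)` over the axis `z_j = 0` of the `k`-th chart (`o` the other index) -/
def Part.axisInt {A : PolAtlas 2 Y} (P : A.Part) (D : A.DAct) (H : Y → ℝ) (u : ℝ → ℝ)
    (k : Fin P.m) (j : Fin 2) : ℝ :=
  ∫ w : ℂ, (A.U (P.a k)).indicator (fun z => P.χ k (A.γ (P.a k) z) * u (A.mu D H (P.a k) z) *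
    (hess (A.pot H (P.a k)) z (1 - j) (1 - j)).re) (axis j w)

/-- sum of the integrals over all axes with label `l` -/
def Part.labInt {A : PolAtlas 2 Y} (P : A.Part) (D : A.DAct) (H : Y → ℝ) {W : Type}
    (lab : A.ι → Fin 2 → W) (l : W) (u : ℝ → ℝ) : ℝ :=
  open Classical in ∑ k, ∑ j, if lab (P.a k) j = l then P.axisInt D H u k j else 0

end PolAtlas

/-- labels of the coordinate axes -/
inductive Lb (V : Type) where
  | none : Lb V
  | zero : Lb V
  | inf : Lb V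
  | vert (v : V) : Lb V

/-- A labelling of (some of) the coordinate axes of the charts of a surface with `ℂˣ`-action:
`zero`, `inf` : curves of fixed points with moments `m0`, `mi`; `vert v`: the closure of the orbit of
`p v`, with moments between `mm v` and `mp v`. -/
structure Labels {Y : Type} [MulAction ℂˣ Y] (A : PolAtlas 2 Y) (D : A.DAct) where
  V : Type
  lab : A.ι → Fin 2 → Lb V
  m0 : ℤ
  mi : ℤ
  zero_k : ∀ a j, lab a j = Lb.zero → D.k a (1 - j) = 0 ∧ D.m a = m0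
  inf_k : ∀ a j, lab a j = Lb.inf → D.k a (1 - j) = 0 ∧ D.m a = mi
  p : V → Y
  mm : V → ℤ
  mp : V → ℤ
  vert_k : ∀ a j v, lab a j = Lb.vert v → D.k a (1 - j) = 1 ∨ D.k a (1 - j) = -1
  vert_ne : ∀ a j v, lab a j = Lb.vert v → lab a (1 - j) ≠ Lb.vert v
  vert_orb : ∀ a j v, lab a j = Lb.vert v → ∀ w : ℂ, w ≠ 0 → axis j w ∈ A.U a →
    ∃ c c' : ℂˣ, A.γ a (axis j w) = c • D.act c' (p v)
  vert_axis : ∀ v a, ∀ z ∈ A.U a, ∀ c c' : ℂˣ, A.γ a z = c • D.act c' (p v) →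
    ∃ j, lab a j = Lb.vert v ∧ z j = 0
  exists_minus : ∀ v, ∃ a j, lab a j = Lb.vert v ∧ D.k a (1 - j) = 1 ∧ D.m a = mm v ∧
    axis j 0 ∈ A.U a
  exists_plus : ∀ v, ∃ a j, lab a j = Lb.vert v ∧ D.k a (1 - j) = -1 ∧ D.m a = mp v ∧
    axis j 0 ∈ A.U a

/-- multiplicities given by labels -/
def Lb.mult {V : Type} (M0 Mi : ℝ) (Mv : V → ℝ) : Lb V → ℝ
  | .none => 0
  | .zero => M0
  | .inf => Mi
  | .vert v => Mv v

end

end Pool.Agent.YTDA


end

/- source: Pool.Agent.YTDA.RedCalc -/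

section

/-!
# Calculus for the reduction: coordinate functions, exponentials, the function `log (1 + |z|²)`
-/

namespace Pool.Agent.YTDA

open Complex Set Topology ContDiff ComplexOrder TopologicalSpace Matrix

noncomputable section

set_option linter.unusedSectionVars false

section Co

variable {n : ℕ} {Ω : Opens (E n)}

/-- the coordinate functions -/
def co (i : Fin n) : Sm Ω := ofFn (fun z => z i) (contDiff_apply ℝ ℂ i).contDiffOn

@[simp] theorem co_apply (i : Fin n) (z : Ω) : (co i : Sm Ω).1 z = (z : E n) i := rfl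

theorem fderiv_coord (j : Fin n) (z v : E n) : fderiv ℝ (fun w : E n => w j) z v = v j := by
  have h : fderiv ℝ (fun w : E n => w j) z = ContinuousLinearMap.proj (R := ℝ) j :=
    (ContinuousLinearMap.proj (R := ℝ) (φ := fun _ : Fin n => ℂ) j).hasFDerivAt.fderiv
  rw [h]
  rfl

theorem dzD_co (i j : Fin n) : dzD i (co j : Sm Ω) = if i = j then 1 else 0 := by
  apply Sm.ext'
  intro z
  rw [co, dzD_ofFn, dz, fderiv_coord, fderiv_coord]
  by_cases h : i = j
  · subst h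
    rw [if_pos rfl, Pi.single_eq_same, Pi.single_eq_same, I_mul_I, Sm.one_apply]
    norm_num
  · rw [if_neg h, Pi.single_eq_of_ne (Ne.symm h), Pi.single_eq_of_ne (Ne.symm h), Sm.zero_apply]
    norm_num

theorem dzbD_co (i j : Fin n) : dzbD i (co j : Sm Ω) = 0 := by
  apply Sm.ext'
  intro z
  rw [co, dzbD_ofFn, dzb, fderiv_coord, fderiv_coord]
  by_cases h : i = j
  · subst h
    rw [Pi.single_eq_same, Pi.single_eq_same, I_mul_I, Sm.zero_apply]
    norm_num
  · rw [Pi.single_eq_of_ne (Ne.symm h), Pi.single_eq_of_ne (Ne.symm h), Sm.zero_apply]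
    norm_num

theorem dzD_star_co (i j : Fin n) : dzD i (star (co j) : Sm Ω) = 0 := by
  rw [← star_dzbD, dzbD_co, star_zero]

theorem dzbD_star_co (i j : Fin n) : dzbD i (star (co j) : Sm Ω) = if i = j then 1 else 0 := by
  rw [← star_dzD, dzD_co]
  split_ifs <;> simp

end Co

section Exp

variable {V : Type} [NormedAddCommGroup V] [NormedSpace ℝ V] {Ω : Opens V}

/-- the exponential of a function -/
def expS (f : Sm Ω) : Sm Ω := ofFn (fun z => exp (ext f.1 z)) f.2.cexp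

@[simp] theorem expS_apply (f : Sm Ω) (z : Ω) : (expS f).1 z = exp (f.1 z) := by
  show exp (ext f.1 z) = _
  rw [ext_coe]

theorem D_expS (v : V) (f : Sm Ω) : D v (expS f) = expS f * D v f := by
  apply Sm.ext'
  intro z
  rw [Sm.mul_apply, expS, D_ofFn, ofFn_apply, D_apply,
    (diffAt_ext f z.2).hasFDerivAt.cexp.fderiv]
  rfl

theorem DS_expS {δ : Derivation ℂ (Sm Ω) (Sm Ω)} (h : δ ∈ DS Ω) (f : Sm Ω) :
    δ (expS f) = expS f * δ f := by
  refine Submodule.span_induction (p := fun δ _ => δ (expS f) = expS f * δ f) ?_ ?_ ?_ ?_ h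
  · rintro _ ⟨v, rfl⟩
    exact D_expS v f
  · simp
  · intro x y _ _ hx hy
    simp only [Derivation.add_apply, mul_add, hx, hy]
  · intro c x _ hx
    rw [Derivation.smul_apply, Derivation.smul_apply, smul_eq_mul, smul_eq_mul, hx]
    ring

theorem star_expS (f : Sm Ω) : star (expS f) = expS (star f) := by
  apply Sm.ext'
  intro z
  rw [star_apply, expS_apply, expS_apply, star_apply, exp_conj]

theorem der_invS (δ : Derivation ℂ (Sm Ω) (Sm Ω)) (f : Sm Ω) (hf : ∀ z, f.1 z ≠ 0) :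
    δ (invS f hf) = -(invS f hf * invS f hf * δ f) := by
  have h1 : δ (f * invS f hf) = 0 := by rw [mul_invS]; simp
  rw [Derivation.leibniz, smul_eq_mul, smul_eq_mul] at h1
  have h2 := invS_mul f hf
  linear_combination invS f hf * h1 - δ (invS f hf) * h2

end Exp

section Lg

variable {n : ℕ} {Ω : Opens (E n)}

/-- `1 + |z_i|²` -/
def wS (i : Fin n) : Sm Ω := 1 + co i * star (co i)

theorem wS_apply (i : Fin n) (z : Ω) : (wS i : Sm Ω).1 z = ((1 + ‖(z : E n) i‖ ^ 2 : ℝ) : ℂ) := by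
  simp only [wS, Sm.add_apply, Sm.one_apply, Sm.mul_apply, star_apply, co_apply, mul_conj,
    normSq_eq_norm_sq]
  push_cast
  rfl

theorem wS_pos (i : Fin n) (z : Ω) : 0 < (wS i : Sm Ω).1 z := by
  rw [wS_apply, zero_lt_real]
  positivity

theorem wS_ne (i : Fin n) (z : Ω) : (wS i : Sm Ω).1 z ≠ 0 := (wS_pos i z).ne'

/-- `log (1 + |z_i|²)` -/
def lS (i : Fin n) : Sm Ω := logS (wS i) (wS_pos i)

theorem lS_apply (i : Fin n) (z : Ω) :
    (lS i : Sm Ω).1 z = (Real.log (1 + ‖(z : E n) i‖ ^ 2) : ℝ) := by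
  rw [lS, logS_apply, wS_apply, ofReal_re]

/-- `(1 + |z_i|²)⁻¹` -/
def vS (i : Fin n) : Sm Ω := invS (wS i) (wS_ne i)

theorem wS_vS (i : Fin n) : (wS i * vS i : Sm Ω) = 1 := mul_invS _ _

theorem DS_lS {δ : Derivation ℂ (Sm Ω) (Sm Ω)} (h : δ ∈ DS Ω) (i : Fin n) :
    δ (lS i) = vS i * (star (co i) * δ (co i) + co i * δ (star (co i))) := by
  have h1 := mul_DS_logS h (wS i : Sm Ω) (wS_pos i)
  have h2 : δ (wS i) = star (co i) * δ (co i) + co i * δ (star (co i)) := by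
    rw [wS, map_add, Derivation.leibniz, smul_eq_mul, smul_eq_mul, Derivation.map_one_eq_zero]
    ring
  rw [h2] at h1
  have h3 := wS_vS (Ω := Ω) i
  rw [← h1, lS]
  linear_combination -(δ (logS (wS i) (wS_pos i))) * h3

theorem der_vS (δ : Derivation ℂ (Sm Ω) (Sm Ω)) (i : Fin n) :
    δ (vS i) = -(vS i * vS i * (star (co i) * δ (co i) + co i * δ (star (co i)))) := by
  have h2 : δ (wS i) = star (co i) * δ (co i) + co i * δ (star (co i)) := by
    rw [wS, map_add, Derivation.leibniz, smul_eq_mul, smul_eq_mul, Derivation.map_one_eq_zero]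
    ring
  rw [vS, der_invS, h2]

theorem dzD_lS_of_ne {i j : Fin n} (h : i ≠ j) : dzD i (lS j : Sm Ω) = 0 := by
  rw [DS_lS (dzD_mem_DS i), dzD_co, dzD_star_co, if_neg h]
  ring

theorem dzbD_lS_of_ne {i j : Fin n} (h : i ≠ j) : dzbD i (lS j : Sm Ω) = 0 := by
  rw [DS_lS (dzbD_mem_DS i), dzbD_co, dzbD_star_co, if_neg h]
  ring

theorem dzD_lS (i : Fin n) : dzD i (lS i : Sm Ω) = vS i * star (co i) := by
  rw [DS_lS (dzD_mem_DS i), dzD_co, dzD_star_co, if_pos rfl]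
  ring

theorem dzbD_lS (i : Fin n) : dzbD i (lS i : Sm Ω) = vS i * co i := by
  rw [DS_lS (dzbD_mem_DS i), dzbD_co, dzbD_star_co, if_pos rfl]
  ring

theorem dzD_vS_of_ne {i j : Fin n} (h : i ≠ j) : dzD i (vS j : Sm Ω) = 0 := by
  rw [der_vS, dzD_co, dzD_star_co, if_neg h]
  ring

theorem hess_lS (i : Fin n) : dzD i (dzbD i (lS i : Sm Ω)) = vS i * vS i := by
  rw [dzbD_lS, Derivation.leibniz, smul_eq_mul, smul_eq_mul, der_vS, dzD_co, dzD_star_co,
    if_pos rfl]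
  have h := wS_vS (Ω := Ω) i
  rw [wS] at h
  linear_combination -(vS i) * h

theorem hess_lS_of_ne {i j : Fin n} (h : i ≠ j) : dzD i (dzbD j (lS j : Sm Ω)) = 0 := by
  rw [dzbD_lS, Derivation.leibniz, smul_eq_mul, smul_eq_mul, dzD_vS_of_ne h, dzD_co, if_neg h]
  ring

end Lg

end

end Pool.Agent.YTDA


end

/- source: Pool.Agent.YTDA.RedHess -/

section

/-!
# The Hessian of `a (l₁ + l₂) + b t + ψ(e^{k t / 2} z)`, `t = 3 (l₁ - l₂)`
-/

namespace Pool.Agent.YTDA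

open Complex Set Topology ContDiff ComplexOrder TopologicalSpace Matrix

noncomputable section

set_option linter.unusedSectionVars false

section Vec

variable {n : ℕ} {U : Opens (E n)} (k : Fin n → ℤ)

/-- the holomorphic vector field `∑ k_b z_b ∂_b` -/
def VS (G : Sm U) : Sm U := ∑ b, (k b : ℂ) • (co b * dzD b G)

/-- its conjugate -/
def VbS (G : Sm U) : Sm U := ∑ b, (k b : ℂ) • (star (co b) * dzbD b G)

theorem VS_apply (G : Sm U) (z : U) : (VS k G).1 z = wdz k (ext G.1) z := by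
  rw [VS, Sm.sum_apply, wdz]
  refine Finset.sum_congr rfl fun b _ => ?_
  rw [Sm.smul_apply, Sm.mul_apply, co_apply, dzD_apply, mul_assoc]

theorem star_VS (G : Sm U) : star (VS k G) = VbS k (star G) := by
  simp only [VS, VbS, star_sum, star_smul, star_mul', star_dzD]
  refine Finset.sum_congr rfl fun b _ => ?_
  congr 1
  simp

/-- the circle invariance, infinitesimally -/
def Cinv (G : Sm U) : Prop := VS k G = VbS k G

theorem Cinv.add {G G' : Sm U} (h : Cinv k G) (h' : Cinv k G') : Cinv k (G + G') := by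
  unfold Cinv at *
  have e1 : VS k (G + G') = VS k G + VS k G' := by
    simp only [VS, map_add, mul_add, smul_add, Finset.sum_add_distrib]
  have e2 : VbS k (G + G') = VbS k G + VbS k G' := by
    simp only [VbS, map_add, mul_add, smul_add, Finset.sum_add_distrib]
  rw [e1, e2, h, h']

theorem dzbD_VS (G : Sm U) (j : Fin n) : dzbD j (VS k G) = VS k (dzbD j G) := by
  simp only [VS, map_sum]
  refine Finset.sum_congr rfl fun b _ => ?_
  rw [Derivation.map_smul, Derivation.leibniz, dzbD_co, smul_zero, add_zero, smul_eq_mul,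
    ← dzD_dzbD_comm]

theorem dzD_VbS (G : Sm U) (j : Fin n) : dzD j (VbS k G) = VbS k (dzD j G) := by
  simp only [VbS, map_sum]
  refine Finset.sum_congr rfl fun b _ => ?_
  rw [Derivation.map_smul, Derivation.leibniz, dzD_star_co, smul_zero, add_zero, smul_eq_mul,
    dzD_dzbD_comm]

theorem dzbD_VbS (G : Sm U) (j : Fin n) :
    dzbD j (VbS k G) = VbS k (dzbD j G) + (k j : ℂ) • dzbD j G := by
  simp only [VbS, map_sum]
  have h : ∀ b, dzbD j ((k b : ℂ) • (star (co b) * dzbD b G)) =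
      (k b : ℂ) • (star (co b) * dzbD b (dzbD j G)) + if j = b then (k b : ℂ) • dzbD b G else 0 := by
    intro b
    rw [Derivation.map_smul, Derivation.leibniz, dzbD_star_co, smul_eq_mul, smul_eq_mul,
      dzbD_comm, smul_add]
    split_ifs with hb
    · rw [mul_one]
    · rw [mul_zero, smul_zero]
  simp only [h, Finset.sum_add_distrib, Finset.sum_ite_eq, Finset.mem_univ, if_true]

/-- for circle invariant functions -/
theorem Cinv.dzbD {G : Sm U} (h : Cinv k G) (j : Fin n) :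
    VS k (dzbD j G) = VbS k (dzbD j G) + (k j : ℂ) • YTDA.dzbD j G := by
  rw [← dzbD_VS, ← dzbD_VbS, h]

theorem Cinv.dzD_VS {G : Sm U} (h : Cinv k G) (j : Fin n) :
    dzD j (VS k G) = VbS k (dzD j G) := by
  rw [h, dzD_VbS]

/-- circle invariance in the usual sense -/
theorem Cinv.of_inv (G : Sm U)
    (h : ∀ z ∈ U, ∀ c : ℂˣ, ‖(c : ℂ)‖ = 1 → ext G.1 (dact k c z) = ext G.1 z) : Cinv k G := by
  apply Sm.ext'
  intro z
  set f : ℝ → E n := fun θ b => exp (((k b : ℝ) * θ : ℝ) * I) * (z : E n) b with hf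
  have hf0 : f 0 = z := by
    funext b
    simp [hf]
  have hfd : HasDerivAt f (fun b => (k b : ℂ) * I * (z : E n) b) 0 := by
    rw [hasDerivAt_pi]
    intro b
    have h1 : HasDerivAt (fun θ : ℝ => (((k b : ℝ) * θ : ℝ) : ℂ) * I) ((k b : ℝ) * I) 0 := by
      have h2 : HasDerivAt (fun θ : ℝ => (((k b : ℝ) * θ : ℝ) : ℂ)) ((k b : ℝ) : ℂ) 0 := by
        have := ((hasDerivAt_id (0 : ℝ)).const_mul (k b : ℝ)).ofReal_comp
        simpa using this
      exact h2.mul_const I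
    have h3 := (h1.cexp).mul_const ((z : E n) b)
    simp only [mul_zero, ofReal_zero, zero_mul, Complex.exp_zero, one_mul] at h3
    simp only [hf]
    have e : ((k b : ℝ) : ℂ) = (k b : ℂ) := by push_cast; rfl
    rw [← e]
    exact h3
  have hc : ∀ θ : ℝ, ext G.1 (f θ) = ext G.1 z := by
    intro θ
    have hu : exp ((θ : ℂ) * I) ≠ 0 := exp_ne_zero _
    have := h z z.2 (Units.mk0 _ hu) (by
      rw [Units.val_mk0, norm_exp_ofReal_mul_I])
    rw [← this]
    congr 1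
    funext b
    simp only [hf, dact, Units.val_zpow_eq_zpow_val, Units.val_mk0]
    rw [← exp_int_mul]
    congr 2
    push_cast
    ring
  have hd : fderiv ℝ (ext G.1) z (fun b => (k b : ℂ) * I * (z : E n) b) = 0 := by
    have h1 : HasFDerivAt (ext G.1) (fderiv ℝ (ext G.1) (f 0)) (f 0) := by
      rw [hf0]
      exact (diffAt_ext G z.2).hasFDerivAt
    have h2 := h1.comp_hasDerivAt (0 : ℝ) hfd
    have h3 : (ext G.1 ∘ f) = fun _ => ext G.1 z := funext hc
    rw [h3] at h2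
    have h4 := h2.unique (hasDerivAt_const _ _)
    rwa [hf0] at h4
  rw [fderiv_eq_dz_dzb] at hd
  have e1 : (VS k G).1 z = ∑ b, (k b : ℂ) * ((z : E n) b * dz b (ext G.1) z) := by
    rw [VS, Sm.sum_apply]
    refine Finset.sum_congr rfl fun b _ => ?_
    rw [Sm.smul_apply, Sm.mul_apply, co_apply, dzD_apply]
  have e2 : (VbS k G).1 z = ∑ b, (k b : ℂ) * ((starRingEnd ℂ) ((z : E n) b) *
      dzb b (ext G.1) z) := by
    rw [VbS, Sm.sum_apply]
    refine Finset.sum_congr rfl fun b _ => ?_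
    rw [Sm.smul_apply, Sm.mul_apply, star_apply, co_apply, dzbD_apply]
  rw [e1, e2, ← sub_eq_zero, ← Finset.sum_sub_distrib]
  have h5 : I * ∑ b, ((k b : ℂ) * ((z : E n) b * dz b (ext G.1) z) -
      (k b : ℂ) * ((starRingEnd ℂ) ((z : E n) b) * dzb b (ext G.1) z)) = 0 := by
    rw [← hd, Finset.mul_sum]
    refine Finset.sum_congr rfl fun b _ => ?_
    simp only [map_mul, conj_I, map_intCast]
    ring
  exact (mul_eq_zero.1 h5).resolve_left I_ne_zero

end Vec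

section Four

/-- the base coordinates -/
def bse (b : Fin 2) : Fin 4 := b.castSucc.castSucc

/-- the fibre coordinates -/
def fib (p : Fin 2) : Fin 4 := if p = 0 then 2 else 3

/-- the signs -/
def sgR (p : Fin 2) : ℂ := if p = 0 then 3 else -3

theorem bse_ne_fib (b p : Fin 2) : bse b ≠ fib p := by
  revert b p
  decide

theorem bse_inj {b b' : Fin 2} : bse b = bse b' ↔ b = b' := by
  revert b b'
  decide

theorem fib_inj {p p' : Fin 2} : fib p = fib p' ↔ p = p' := by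
  revert p p'
  decide

/-- projection to the base -/
def prB (z : E 4) : E 2 := fun b => z (bse b)

theorem continuous_prB : Continuous prB := continuous_pi fun _ => continuous_apply _

/-- the domain of the chart -/
def Om (U : Opens (E 2)) : Opens (E 4) := ⟨prB ⁻¹' U, U.isOpen.preimage continuous_prB⟩

/-- `3 (log (1 + |z_2|²) - log (1 + |z_3|²))` -/
def tR (z : E 4) : ℝ := 3 * (Real.log (1 + ‖z 2‖ ^ 2) - Real.log (1 + ‖z 3‖ ^ 2))

variable {Ω : Opens (E 4)}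

/-- the same as an element of the algebra of smooth functions -/
def tS : Sm Ω := ∑ p, sgR p • lS (fib p)

theorem tS_apply (z : Ω) : (tS : Sm Ω).1 z = (tR z : ℝ) := by
  rw [tS, Sm.sum_apply, Fin.sum_univ_two, Sm.smul_apply, Sm.smul_apply, lS_apply, lS_apply, tR]
  simp only [sgR, fib, if_true, one_ne_zero, if_false]
  push_cast
  ring

theorem star_tS : star (tS : Sm Ω) = tS := by
  apply Sm.ext'
  intro z
  rw [star_apply, tS_apply, conj_ofReal]

theorem der_tS (δ : Derivation ℂ (Sm Ω) (Sm Ω)) : δ tS = ∑ p, sgR p • δ (lS (fib p)) := by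
  rw [tS, map_sum]
  exact Finset.sum_congr rfl fun p _ => Derivation.map_smul _ _ _

theorem dzD_bse_tS (i : Fin 2) : dzD (bse i) (tS : Sm Ω) = 0 := by
  rw [der_tS]
  simp only [dzD_lS_of_ne (bse_ne_fib i _), smul_zero, Finset.sum_const_zero]

theorem dzbD_bse_tS (i : Fin 2) : dzbD (bse i) (tS : Sm Ω) = 0 := by
  rw [der_tS]
  simp only [dzbD_lS_of_ne (bse_ne_fib i _), smul_zero, Finset.sum_const_zero]

theorem dzD_fib_tS (p : Fin 2) : dzD (fib p) (tS : Sm Ω) =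
    sgR p • (vS (fib p) * star (co (fib p))) := by
  rw [der_tS, Finset.sum_eq_single p]
  · rw [dzD_lS]
  · intro q _ hq
    rw [dzD_lS_of_ne (fun h => hq (fib_inj.1 h).symm), smul_zero]
  · intro h
    exact absurd (Finset.mem_univ _) h

theorem dzbD_fib_tS (p : Fin 2) : dzbD (fib p) (tS : Sm Ω) =
    sgR p • (vS (fib p) * co (fib p)) := by
  rw [der_tS, Finset.sum_eq_single p]
  · rw [dzbD_lS]
  · intro q _ hq
    rw [dzbD_lS_of_ne (fun h => hq (fib_inj.1 h).symm), smul_zero]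
  · intro h
    exact absurd (Finset.mem_univ _) h

theorem dzD_fib_dzbD_fib_tS (p q : Fin 2) : dzD (fib p) (dzbD (fib q) (tS : Sm Ω)) =
    if p = q then sgR p • (vS (fib p) * vS (fib p)) else 0 := by
  rw [dzbD_fib_tS, ← dzbD_lS, Derivation.map_smul]
  split_ifs with h
  · subst h
    rw [hess_lS]
  · rw [hess_lS_of_ne (fun h' => h (fib_inj.1 h')), smul_zero]

theorem dzD_bse_dzbD_fib_tS (i q : Fin 2) : dzD (bse i) (dzbD (fib q) (tS : Sm Ω)) = 0 := by
  rw [dzbD_fib_tS, ← dzbD_lS, Derivation.map_smul, hess_lS_of_ne (bse_ne_fib i q), smul_zero]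

/-- `log (1 + |z_2|²) + log (1 + |z_3|²)` -/
def rS : Sm Ω := ∑ p, lS (fib p)

theorem rS_apply (z : Ω) : (rS : Sm Ω).1 z =
    (Real.log (1 + ‖(z : E 4) 2‖ ^ 2) + Real.log (1 + ‖(z : E 4) 3‖ ^ 2) : ℝ) := by
  rw [rS, Sm.sum_apply, Fin.sum_univ_two, lS_apply, lS_apply]
  simp only [fib, if_true, one_ne_zero, if_false]
  push_cast
  ring

theorem der_rS (δ : Derivation ℂ (Sm Ω) (Sm Ω)) : δ rS = ∑ p, δ (lS (fib p)) := by
  rw [rS, map_sum]

theorem dzbD_bse_rS (i : Fin 2) : dzbD (bse i) (rS : Sm Ω) = 0 := by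
  rw [der_rS]
  simp only [dzbD_lS_of_ne (bse_ne_fib i _), Finset.sum_const_zero]

theorem dzbD_fib_rS (p : Fin 2) : dzbD (fib p) (rS : Sm Ω) = dzbD (fib p) (lS (fib p)) := by
  rw [der_rS, Finset.sum_eq_single p]
  · intro q _ hq
    rw [dzbD_lS_of_ne (fun h => hq (fib_inj.1 h).symm)]
  · intro h
    exact absurd (Finset.mem_univ _) h

theorem dzD_bse_dzbD_fib_rS (i q : Fin 2) : dzD (bse i) (dzbD (fib q) (rS : Sm Ω)) = 0 := by
  rw [dzbD_fib_rS, hess_lS_of_ne (bse_ne_fib i q)]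

theorem dzD_fib_dzbD_fib_rS (p q : Fin 2) : dzD (fib p) (dzbD (fib q) (rS : Sm Ω)) =
    if p = q then vS (fib p) * vS (fib p) else 0 := by
  rw [dzbD_fib_rS]
  split_ifs with h
  · subst h
    rw [hess_lS]
  · rw [hess_lS_of_ne (fun h' => h (fib_inj.1 h'))]

variable (k : Fin 2 → ℤ)

/-- `e^{k_b t / 2}` -/
def eS (b : Fin 2) : Sm Ω := expS ((k b / 2 : ℂ) • tS)

theorem eS_apply (b : Fin 2) (z : Ω) : (eS k b : Sm Ω).1 z = exp ((k b / 2 : ℂ) * tR z) := by
  rw [eS, expS_apply, Sm.smul_apply, tS_apply]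

theorem star_eS (b : Fin 2) : star (eS k b : Sm Ω) = eS k b := by
  rw [eS, star_expS, star_smul, star_tS]
  congr 2
  simp

theorem DS_eS {δ : Derivation ℂ (Sm Ω) (Sm Ω)} (h : δ ∈ DS Ω) (b : Fin 2) :
    δ (eS k b) = (k b / 2 : ℂ) • (eS k b * δ tS) := by
  rw [eS, DS_expS h, Derivation.map_smul, mul_smul_comm]

/-- the map `z ↦ e^{k t / 2} z` -/
def tau (z : E 4) : E 2 := fun b => exp ((k b / 2 : ℂ) * tR z) * prB z b

theorem tau_eq_dact (z : E 4) : tau k z =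
    dact k (Units.mk0 (exp ((tR z : ℂ) / 2)) (exp_ne_zero _)) (prB z) := by
  funext b
  simp only [tau, dact, Units.val_zpow_eq_zpow_val, Units.val_mk0]
  rw [← exp_int_mul]
  congr 2
  ring

theorem smooth_tau : ContDiffOn ℝ ∞ (tau k) Ω := by
  rw [contDiffOn_pi]
  intro b
  refine (smooth_ext (eS k b * co (bse b) : Sm Ω)).congr fun z hz => ?_
  rw [ext_mk _ hz, Sm.mul_apply, eS_apply, co_apply]
  rfl

variable {U : Opens (E 2)} {k}

theorem mapsTo_tau (hdom : ∀ z ∈ U, ∀ c : ℂˣ, dact k c z ∈ U) : MapsTo (tau k) (Om U) U := by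
  intro z hz
  rw [tau_eq_dact]
  exact hdom _ hz _

variable (hdom : ∀ z ∈ U, ∀ c : ℂˣ, dact k c z ∈ U)

/-- pull-back of functions from the base -/
def pl : Sm U →ₐ[ℂ] Sm (Om U) := pull (smooth_tau k) (mapsTo_tau hdom)

theorem coS_tau (b : Fin 2) :
    coS (Ω := Om U) (smooth_tau k) b = eS k b * co (bse b) := by
  apply Sm.ext'
  intro z
  rw [coS_apply, Sm.mul_apply, eS_apply, co_apply]
  rfl

theorem pl_co (b : Fin 2) : pl hdom (co b) = eS k b * co (bse b) := by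
  apply Sm.ext'
  intro z
  rw [pl, pull_apply, co_apply, Sm.mul_apply, eS_apply, co_apply]
  rfl

theorem pl_star (f : Sm U) : pl hdom (star f) = star (pl hdom f) := (star_pull _ _ f).symm

theorem pl_smul (c : ℂ) (f : Sm U) : pl hdom (c • f) = c • pl hdom f := map_smul _ _ _

theorem pl_VS (G : Sm U) : pl hdom (VS k G) =
    ∑ b, (k b : ℂ) • (eS k b * co (bse b) * pl hdom (dzD b G)) := by
  rw [VS, map_sum]
  refine Finset.sum_congr rfl fun b _ => ?_
  rw [pl_smul, map_mul, pl_co]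

theorem pl_VbS (G : Sm U) : pl hdom (VbS k G) =
    ∑ b, (k b : ℂ) • (eS k b * star (co (bse b)) * pl hdom (dzbD b G)) := by
  rw [VbS, map_sum]
  refine Finset.sum_congr rfl fun b _ => ?_
  rw [pl_smul, map_mul, pl_star, pl_co, star_mul', star_eS]

theorem DS_pl {δ : Derivation ℂ (Sm (Om U)) (Sm (Om U))} (hδ : δ ∈ DS (Om U)) (G : Sm U) :
    δ (pl hdom G) = (1 / 2 : ℂ) • (pl hdom (VS k G + VbS k G) * δ tS) +
      ∑ b, (pl hdom (dzD b G) * eS k b * δ (co (bse b)) +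
        pl hdom (dzbD b G) * eS k b * δ (star (co (bse b)))) := by
  have h1 : δ (pl hdom G) = ∑ b, (pl hdom (dzD b G) * δ (coS (Ω := Om U) (smooth_tau k) b) +
      pl hdom (dzbD b G) * δ (star (coS (smooth_tau k) b))) :=
    DS_pull (smooth_tau k) (mapsTo_tau hdom) hδ G
  rw [map_add, pl_VS, pl_VbS, ← Finset.sum_add_distrib, Finset.sum_mul, Finset.smul_sum,
    ← Finset.sum_add_distrib]
  refine h1.trans (Finset.sum_congr rfl fun b _ => ?_)
  have hk : (k b / 2 : ℂ) = 1 / 2 * (k b : ℂ) := by ring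
  rw [coS_tau, star_mul', star_eS, Derivation.leibniz, Derivation.leibniz, DS_eS k hδ, hk]
  simp only [smul_eq_mul, Algebra.smul_def, map_mul]
  ring

theorem dzD_bse_pl (i : Fin 2) (G : Sm U) :
    dzD (bse i) (pl hdom G) = pl hdom (dzD i G) * eS k i := by
  rw [DS_pl hdom (dzD_mem_DS _), dzD_bse_tS, mul_zero, smul_zero, zero_add,
    Finset.sum_eq_single i]
  · rw [dzD_co, dzD_star_co, if_pos rfl, mul_one, mul_zero, add_zero]
  · intro b _ hb
    rw [dzD_co, dzD_star_co, if_neg (fun h => hb (bse_inj.1 h).symm), mul_zero, mul_zero, add_zero]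
  · intro h
    exact absurd (Finset.mem_univ _) h

theorem dzbD_bse_pl (i : Fin 2) (G : Sm U) :
    dzbD (bse i) (pl hdom G) = pl hdom (dzbD i G) * eS k i := by
  rw [DS_pl hdom (dzbD_mem_DS _), dzbD_bse_tS, mul_zero, smul_zero, zero_add,
    Finset.sum_eq_single i]
  · rw [dzbD_co, dzbD_star_co, if_pos rfl, mul_one, mul_zero, zero_add]
  · intro b _ hb
    rw [dzbD_co, dzbD_star_co, if_neg (fun h => hb (bse_inj.1 h).symm), mul_zero, mul_zero,
      add_zero]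
  · intro h
    exact absurd (Finset.mem_univ _) h

theorem dzD_fib_pl (p : Fin 2) (G : Sm U) :
    dzD (fib p) (pl hdom G) = (1 / 2 : ℂ) • (pl hdom (VS k G + VbS k G) * dzD (fib p) tS) := by
  rw [DS_pl hdom (dzD_mem_DS _), Finset.sum_eq_zero, add_zero]
  intro b _
  rw [dzD_co, dzD_star_co, if_neg (bse_ne_fib b p).symm, mul_zero, mul_zero, add_zero]

theorem dzbD_fib_pl (p : Fin 2) (G : Sm U) :
    dzbD (fib p) (pl hdom G) = (1 / 2 : ℂ) • (pl hdom (VS k G + VbS k G) * dzbD (fib p) tS) := by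
  rw [DS_pl hdom (dzbD_mem_DS _), Finset.sum_eq_zero, add_zero]
  intro b _
  rw [dzbD_co, dzbD_star_co, if_neg (bse_ne_fib b p).symm, mul_zero, mul_zero, add_zero]

theorem dzbD_fib_pl' (p : Fin 2) {G : Sm U} (hG : Cinv k G) :
    dzbD (fib p) (pl hdom G) = pl hdom (VS k G) * dzbD (fib p) tS := by
  rw [dzbD_fib_pl, ← hG, ← two_smul ℂ (VS k G), pl_smul, smul_mul_assoc, smul_smul]
  norm_num

end Four

end

end Pool.Agent.YTDA


end

/- source: Pool.Agent.YTDA.RedMain -/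

section

/-!
# The Hessian of `a (l₁ + l₂) + b t + ψ(e^{k t / 2} z)`, `t = 3 (l₁ - l₂)`
-/

namespace Pool.Agent.YTDA

open Complex Set Topology ContDiff ComplexOrder TopologicalSpace Matrix

noncomputable section

set_option linter.unusedSectionVars false

variable {U : Opens (E 2)} {k : Fin 2 → ℤ} (hdom : ∀ z ∈ U, ∀ c : ℂˣ, dact k c z ∈ U)

/-- `a (l₂ + l₃) + b t + ψ(e^{k t / 2} z)` -/
def PS (a b : ℂ) (ψ : Sm U) : Sm (Om U) := a • rS + b • tS + pl hdom ψ

variable (a b : ℂ) (ψ : Sm U)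

theorem dzbD_bse_PS (j : Fin 2) :
    dzbD (bse j) (PS hdom a b ψ) = pl hdom (dzbD j ψ) * eS k j := by
  rw [PS, map_add, map_add, Derivation.map_smul, Derivation.map_smul, dzbD_bse_rS, dzbD_bse_tS,
    smul_zero, smul_zero, zero_add, zero_add, dzbD_bse_pl]

theorem dzD_bse_eS (i j : Fin 2) : dzD (bse i) (eS k j : Sm (Om U)) = 0 := by
  rw [DS_eS k (dzD_mem_DS _), dzD_bse_tS, mul_zero, smul_zero]

theorem hess_bb (i j : Fin 2) : dzD (bse i) (dzbD (bse j) (PS hdom a b ψ)) =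
    pl hdom (dzD i (dzbD j ψ)) * eS k i * eS k j := by
  rw [dzbD_bse_PS, Derivation.leibniz, dzD_bse_eS, smul_zero, zero_add, dzD_bse_pl, smul_eq_mul]
  ring

variable {ψ} (hψ : Cinv k ψ)

include hψ in
theorem dzbD_fib_PS (q : Fin 2) : dzbD (fib q) (PS hdom a b ψ) =
    a • dzbD (fib q) (rS : Sm (Om U)) + b • dzbD (fib q) tS + pl hdom (VS k ψ) * dzbD (fib q) tS := by
  rw [PS, map_add, map_add, Derivation.map_smul, Derivation.map_smul, dzbD_fib_pl' hdom q hψ]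

include hψ in
theorem hess_fb (p j : Fin 2) : dzD (fib p) (dzbD (bse j) (PS hdom a b ψ)) =
    dzD (fib p) tS * ∑ i, (k i : ℂ) • (co (bse i) *
      (pl hdom (dzD i (dzbD j ψ)) * eS k i * eS k j)) := by
  have h1 : dzD (fib p) (dzbD (bse j) (PS hdom a b ψ)) =
      dzD (fib p) tS * (pl hdom (VS k (dzbD j ψ)) * eS k j) := by
    have h2 := Cinv.dzbD k hψ j
    have h3 : VS k (dzbD j ψ) + VbS k (dzbD j ψ) = (2 : ℂ) • VS k (dzbD j ψ) - (k j : ℂ) • dzbD j ψ := by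
      rw [two_smul, h2]
      abel
    rw [dzbD_bse_PS, Derivation.leibniz, DS_eS k (dzD_mem_DS _), dzD_fib_pl, h3, map_sub, pl_smul,
      pl_smul]
    have hk : (k j / 2 : ℂ) = 1 / 2 * (k j : ℂ) := by ring
    have h4 : algebraMap ℂ (Sm (Om U)) (1 / 2) * algebraMap ℂ (Sm (Om U)) 2 = 1 := by
      rw [← map_mul]
      norm_num
    rw [hk]
    simp only [smul_eq_mul, Algebra.smul_def, map_mul]
    linear_combination (dzD (fib p) tS * (pl hdom (VS k (dzbD j ψ)) * eS k j)) * h4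
  rw [h1, pl_VS, Finset.sum_mul]
  congr 1
  refine Finset.sum_congr rfl fun i _ => ?_
  simp only [Algebra.smul_def]
  ring

include hψ in
theorem hess_bf (i q : Fin 2) : dzD (bse i) (dzbD (fib q) (PS hdom a b ψ)) =
    dzbD (fib q) tS * ∑ j, (k j : ℂ) • (star (co (bse j)) *
      (pl hdom (dzD i (dzbD j ψ)) * eS k i * eS k j)) := by
  rw [dzbD_fib_PS hdom a b hψ, map_add, map_add, Derivation.map_smul, Derivation.map_smul,
    dzD_bse_dzbD_fib_rS, dzD_bse_dzbD_fib_tS, smul_zero, smul_zero, zero_add, zero_add,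
    Derivation.leibniz, dzD_bse_dzbD_fib_tS, smul_zero, zero_add, dzD_bse_pl,
    Cinv.dzD_VS k hψ i, pl_VbS, smul_eq_mul, Finset.sum_mul]
  congr 1
  refine Finset.sum_congr rfl fun j _ => ?_
  rw [← dzD_dzbD_comm]
  simp only [Algebra.smul_def]
  ring

include hψ in
theorem hess_ff (p q : Fin 2) : dzD (fib p) (dzbD (fib q) (PS hdom a b ψ)) =
    (if p = q then (algebraMap ℂ _ a + sgR p • (algebraMap ℂ _ b + pl hdom (VS k ψ))) *
      (vS (fib p) * vS (fib p)) else 0) +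
    dzD (fib p) tS * dzbD (fib q) tS * ∑ i, ∑ j, ((k i : ℂ) * (k j : ℂ)) •
      (co (bse i) * star (co (bse j)) * (pl hdom (dzD i (dzbD j ψ)) * eS k i * eS k j)) := by
  have e1 : VS k (VS k ψ) = ∑ i, ∑ j, ((k i : ℂ) * (k j : ℂ)) •
      (co i * star (co j) * dzD i (dzbD j ψ)) := by
    rw [VS]
    refine Finset.sum_congr rfl fun i _ => ?_
    rw [Cinv.dzD_VS k hψ i, VbS, Finset.mul_sum, Finset.smul_sum]
    refine Finset.sum_congr rfl fun j _ => ?_
    rw [← dzD_dzbD_comm]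
    simp only [Algebra.smul_def, map_mul]
    ring
  have e2 : VbS k (VS k ψ) = ∑ i, ∑ j, ((k i : ℂ) * (k j : ℂ)) •
      (co i * star (co j) * dzD i (dzbD j ψ)) := by
    rw [VbS, Finset.sum_comm]
    refine Finset.sum_congr rfl fun j _ => ?_
    rw [dzbD_VS, VS, Finset.mul_sum, Finset.smul_sum]
    refine Finset.sum_congr rfl fun i _ => ?_
    simp only [Algebra.smul_def, map_mul]
    ring
  have e3 : pl hdom (VS k (VS k ψ)) = ∑ i, ∑ j, ((k i : ℂ) * (k j : ℂ)) •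
      (co (bse i) * star (co (bse j)) * (pl hdom (dzD i (dzbD j ψ)) * eS k i * eS k j)) := by
    rw [e1, map_sum]
    refine Finset.sum_congr rfl fun i _ => ?_
    rw [map_sum]
    refine Finset.sum_congr rfl fun j _ => ?_
    rw [pl_smul, map_mul, map_mul, pl_star, pl_co, pl_co, star_mul', star_eS]
    simp only [Algebra.smul_def, map_mul]
    ring
  have e4 : VS k (VS k ψ) + VbS k (VS k ψ) = (2 : ℂ) • VS k (VS k ψ) := by
    rw [e2, ← e1, two_smul]
  rw [dzbD_fib_PS hdom a b hψ, map_add, map_add, Derivation.map_smul, Derivation.map_smul,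
    dzD_fib_dzbD_fib_rS, dzD_fib_dzbD_fib_tS, Derivation.leibniz, dzD_fib_dzbD_fib_tS,
    dzD_fib_pl, e4, pl_smul, ← e3]
  have h4 : algebraMap ℂ (Sm (Om U)) (1 / 2) * algebraMap ℂ (Sm (Om U)) 2 = 1 := by
    rw [← map_mul]
    norm_num
  split_ifs with h
  · simp only [smul_eq_mul, Algebra.smul_def]
    linear_combination (dzbD (fib q) tS * (pl hdom (VS k (VS k ψ)) * dzD (fib p) tS)) * h4
  · simp only [smul_eq_mul, Algebra.smul_def]
    linear_combination (dzbD (fib q) tS * (pl hdom (VS k (VS k ψ)) * dzD (fib p) tS)) * h4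

/-- the determinant -/
theorem det_four {R : Type*} [CommRing R] (M : Matrix (Fin 4) (Fin 4) R)
    (x y : Fin 2 → R) (s r : Fin 2 → R) (d : Fin 2 → R)
    (h1 : ∀ p j : Fin 2, M (fib p) (bse j) = s p * ∑ i, x i * M (bse i) (bse j))
    (h2 : ∀ i q : Fin 2, M (bse i) (fib q) = r q * ∑ j, y j * M (bse i) (bse j))
    (h3 : ∀ p q : Fin 2, M (fib p) (fib q) = (if p = q then d p else 0) +
      s p * r q * ∑ i, ∑ j, x i * y j * M (bse i) (bse j)) :
    M.det = (M (bse 0) (bse 0) * M (bse 1) (bse 1) - M (bse 0) (bse 1) * M (bse 1) (bse 0)) *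
      (d 0 * d 1) := by
  have a20 := h1 0 0
  have a21 := h1 0 1
  have a30 := h1 1 0
  have a31 := h1 1 1
  have a02 := h2 0 0
  have a03 := h2 0 1
  have a12 := h2 1 0
  have a13 := h2 1 1
  have a22 := h3 0 0
  have a23 := h3 0 1
  have a32 := h3 1 0
  have a33 := h3 1 1
  have b0 : bse 0 = 0 := rfl
  have b1 : bse 1 = 1 := rfl
  have f0 : fib 0 = 2 := rfl
  have f1 : fib 1 = 3 := rfl
  simp only [b0, b1, f0, f1, Fin.sum_univ_two, if_true, one_ne_zero, zero_ne_one, if_false] at *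
  have e : M = !![M 0 0, M 0 1, M 0 2, M 0 3; M 1 0, M 1 1, M 1 2, M 1 3;
      M 2 0, M 2 1, M 2 2, M 2 3; M 3 0, M 3 1, M 3 2, M 3 3] := by
    ext i j
    fin_cases i <;> fin_cases j <;> rfl
  rw [e, a20, a21, a30, a31, a02, a03, a12, a13, a22, a23, a32, a33]
  simp [det_succ_row_zero, Fin.sum_univ_succ, Fin.succAbove]
  ring

/-- the inverse of a block matrix -/
theorem inv_four (M : Matrix (Fin 4) (Fin 4) ℂ) (g : Matrix (Fin 2) (Fin 2) ℂ) (d : Fin 2 → ℂ)
    (hg : g.det ≠ 0) (hd : ∀ p, d p ≠ 0)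
    (h1 : ∀ i j : Fin 2, M (bse i) (bse j) = g i j)
    (h2 : ∀ i q : Fin 2, M (bse i) (fib q) = 0) (h3 : ∀ p j : Fin 2, M (fib p) (bse j) = 0)
    (h4 : ∀ p q : Fin 2, M (fib p) (fib q) = if p = q then d p else 0) :
    (∀ i j : Fin 2, M⁻¹ (bse i) (bse j) = g⁻¹ i j) ∧
    (∀ i q : Fin 2, M⁻¹ (bse i) (fib q) = 0) ∧ (∀ p j : Fin 2, M⁻¹ (fib p) (bse j) = 0) ∧
    (∀ p q : Fin 2, M⁻¹ (fib p) (fib q) = if p = q then (d p)⁻¹ else 0) := by
  have hgg : g * g⁻¹ = 1 := Matrix.mul_nonsing_inv g (isUnit_iff_ne_zero.2 hg)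
  have g00 := congrFun (congrFun hgg 0) 0
  have g01 := congrFun (congrFun hgg 0) 1
  have g10 := congrFun (congrFun hgg 1) 0
  have g11 := congrFun (congrFun hgg 1) 1
  simp only [Matrix.mul_apply, Fin.sum_univ_two, Matrix.one_apply, if_true, one_ne_zero,
    zero_ne_one, if_false] at g00 g01 g10 g11
  have a00 := h1 0 0
  have a01 := h1 0 1
  have a10 := h1 1 0
  have a11 := h1 1 1
  have a20 := h3 0 0
  have a21 := h3 0 1
  have a30 := h3 1 0
  have a31 := h3 1 1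
  have a02 := h2 0 0
  have a03 := h2 0 1
  have a12 := h2 1 0
  have a13 := h2 1 1
  have a22 := h4 0 0
  have a23 := h4 0 1
  have a32 := h4 1 0
  have a33 := h4 1 1
  have b0 : bse 0 = 0 := rfl
  have b1 : bse 1 = 1 := rfl
  have f0 : fib 0 = 2 := rfl
  have f1 : fib 1 = 3 := rfl
  have hd0 := hd 0
  have hd1 := hd 1
  simp only [b0, b1, f0, f1, if_true, one_ne_zero, zero_ne_one, if_false] at a00 a01 a10 a11 a20 a21 a30 a31 a02 a03 a12 a13 a22 a23 a32 a33
  have hM : M⁻¹ = !![g⁻¹ 0 0, g⁻¹ 0 1, 0, 0; g⁻¹ 1 0, g⁻¹ 1 1, 0, 0;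
      0, 0, (d 0)⁻¹, 0; 0, 0, 0, (d 1)⁻¹] := by
    apply Matrix.inv_eq_right_inv
    have e : M = !![g 0 0, g 0 1, 0, 0; g 1 0, g 1 1, 0, 0;
      0, 0, (d 0), 0; 0, 0, 0, (d 1)] := by
      ext i j
      fin_cases i <;> fin_cases j <;> assumption
    rw [e]
    ext i j
    fin_cases i <;> fin_cases j <;>
      simp [Matrix.mul_apply, Fin.sum_univ_four, g00, g01, g10, g11, hd0, hd1]
  rw [hM]
  refine ⟨?_, ?_, ?_, ?_⟩ <;> intro i j <;> fin_cases i <;> fin_cases j <;> rfl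

end

end Pool.Agent.YTDA


end

/- source: Pool.Agent.YTDA.SigDx -/

section

/-!
# The differential `dx₀`

In the disc at `P`, `dx₀ / ds = s ^ (d P) * gx P s` with `gx P` analytic and without zeros.
-/

set_option autoImplicit false

namespace Pool.Agent.YTDA

open Complex Set Topology Filter Metric
open Pool.Agent.YTD

noncomputable section

variable {K : Type} [Field K] [Algebra ℂ K] {T : Datum K} {q : ℕ} {D₀ : T.X.Pt →₀ ℤ}
  {An : AnCurve T.X.toCurveOrd}

theorem tendsto_ne_of_deriv {f : ℂ → ℂ} {s : ℂ} (hf : AnalyticAt ℂ f s) (hf' : deriv f s ≠ 0) :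
    Tendsto f (𝓝[≠] s) (𝓝[≠] (f s)) :=
  hf.differentiableAt.hasDerivAt.tendsto_nhdsNE hf'

/-- the chain rule for the differential -/
theorem deriv_fn_comp (x : K) {P Q : T.X.Pt} {s s' : ℂ} (hs' : s' ∈ ball (0 : ℂ) (An.r Q))
    {f : ℂ → ℂ} (hf : AnalyticAt ℂ f s) (hfs : f s = s') (hf' : deriv f s ≠ 0)
    (h : (fun σ => An.fn Q x (f σ)) =ᶠ[𝓝[≠] s] An.fn P x) :
    deriv (An.fn P x) =ᶠ[𝓝[≠] s] fun σ => deriv (An.fn Q x) (f σ) * deriv f σ := by
  have h1 : deriv (fun σ => An.fn Q x (f σ)) =ᶠ[𝓝[≠] s] deriv (An.fn P x) := h.nhdsNE_deriv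
  have h2 : ∀ᶠ σ in 𝓝[≠] s, AnalyticAt ℂ (An.fn Q x) (f σ) := by
    have := (An.fn_mero Q x s' hs').eventually_analyticAt
    have h3 := tendsto_ne_of_deriv hf hf'
    rw [hfs] at h3
    exact h3.eventually this
  have h4 : ∀ᶠ σ in 𝓝[≠] s, AnalyticAt ℂ f σ :=
    eventually_nhdsWithin_of_eventually_nhds hf.eventually_analyticAt
  filter_upwards [h1, h2, h4] with σ e1 e2 e3
  rw [← e1]
  have := e2.differentiableAt.hasDerivAt.comp σ e3.differentiableAt.hasDerivAt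
  exact this.deriv

theorem order_dx_at {x₀ : K} {d : T.X.Pt →₀ ℤ}
    (hd : ∀ P, meromorphicOrderAt (deriv (An.fn P x₀)) 0 = ((d P : ℤ) : WithTop ℤ)) (P : T.X.Pt)
    {s : ℂ} (hs : s ∈ ball (0 : ℂ) (An.r P)) :
    meromorphicOrderAt (deriv (An.fn P x₀)) s = ((d (An.c P s) : ℤ) : WithTop ℤ) := by
  obtain ⟨f, hf, hfs, hf', hfc, hfn⟩ := An.tr P (An.c P s) s hs 0
    (mem_ball_self (An.r_pos _)) (An.c_zero _).symm
  have h0 : (0 : ℂ) ∈ ball (0 : ℂ) (An.r (An.c P s)) := mem_ball_self (An.r_pos _)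
  have h1 := deriv_fn_comp x₀ h0 hf hfs hf' (hfn x₀)
  rw [meromorphicOrderAt_congr h1]
  have hm : MeromorphicAt (deriv (An.fn (An.c P s) x₀)) (f s) := by
    rw [hfs]; exact (An.fn_mero _ _ _ h0).deriv
  have hm' : MeromorphicAt (fun σ => deriv (An.fn (An.c P s) x₀) (f σ)) s :=
    hm.comp_analyticAt hf
  have h2 : meromorphicOrderAt (fun σ => deriv (An.fn (An.c P s) x₀) (f σ) * deriv f σ) s =
      meromorphicOrderAt (fun σ => deriv (An.fn (An.c P s) x₀) (f σ)) s +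
        meromorphicOrderAt (deriv f) s :=
    meromorphicOrderAt_mul hm' hf.deriv.meromorphicAt
  rw [h2]
  have h3 : meromorphicOrderAt (deriv f) s = 0 := by
    rw [hf.deriv.meromorphicOrderAt_eq, hf.deriv.analyticOrderAt_eq_zero.2 hf']
    rfl
  have h4 : meromorphicOrderAt (fun σ => deriv (An.fn (An.c P s) x₀) (f σ)) s =
      meromorphicOrderAt (deriv (An.fn (An.c P s) x₀)) (f s) :=
    meromorphicOrderAt_comp_of_deriv_ne_zero (f := deriv (An.fn (An.c P s) x₀)) hf hf'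
  rw [h3, h4, add_zero, hfs, hd]

/-- the unit part of the differential -/
def gx (An : AnCurve T.X.toCurveOrd) (x₀ : K) (d : T.X.Pt →₀ ℤ) (r : T.X.Pt → ℝ) (P : T.X.Pt) :
    ℂ → ℂ :=
  toMeromorphicNFOn (fun s => s ^ (-d P) * deriv (An.fn P x₀) s) (ball 0 (r P))

section gx

variable {x₀ : K} {d : T.X.Pt →₀ ℤ} {r : T.X.Pt → ℝ}

theorem mero_dx (P : T.X.Pt) {s : ℂ} (hs : s ∈ ball (0 : ℂ) (An.r P)) (m : ℤ) :
    MeromorphicAt (fun s => s ^ m * deriv (An.fn P x₀) s) s :=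
  ((MeromorphicAt.id s).zpow m).mul (An.fn_mero P x₀ s hs).deriv

theorem gx_spec (hd : ∀ P, meromorphicOrderAt (deriv (An.fn P x₀)) 0 = ((d P : ℤ) : WithTop ℤ))
    (hr : ∀ P, r P ≤ An.r P)
    (hiso : ∀ P, ∀ s ∈ ball (0 : ℂ) (r P), s ≠ 0 → d (An.c P s) = 0) (P : T.X.Pt) {s : ℂ}
    (hs : s ∈ ball (0 : ℂ) (r P)) :
    AnalyticAt ℂ (gx An x₀ d r P) s ∧ gx An x₀ d r P s ≠ 0 ∧
      gx An x₀ d r P =ᶠ[𝓝[≠] s] fun s => s ^ (-d P) * deriv (An.fn P x₀) s := by
  have hm : MeromorphicOn (fun s => s ^ (-d P) * deriv (An.fn P x₀) s) (ball 0 (r P)) :=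
    fun s hs => mero_dx P (ball_subset_ball (hr P) hs) _
  have hsA := ball_subset_ball (hr P) hs
  have hnf : MeromorphicNFAt (gx An x₀ d r P) s :=
    meromorphicNFOn_toMeromorphicNFOn _ _ hs
  have hord : meromorphicOrderAt (gx An x₀ d r P) s = 0 := by
    have hz : MeromorphicAt (fun s : ℂ => s ^ (-d P)) s := (MeromorphicAt.id s).zpow _
    have hmul : meromorphicOrderAt (fun s => s ^ (-d P) * deriv (An.fn P x₀) s) s =
        meromorphicOrderAt (fun s : ℂ => s ^ (-d P)) s +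
          meromorphicOrderAt (deriv (An.fn P x₀)) s :=
      meromorphicOrderAt_mul hz (An.fn_mero P x₀ s hsA).deriv
    rw [gx, meromorphicOrderAt_toMeromorphicNFOn hm hs, hmul, order_dx_at hd P hsA]
    by_cases h0 : s = 0
    · subst h0
      have : meromorphicOrderAt (fun s : ℂ => s ^ (-d P)) 0 = ((-d P : ℤ) : WithTop ℤ) := by
        have h1 := meromorphicOrderAt_zpow_id_sub_const (𝕜 := ℂ) (x := 0) (n := -d P)
        have h2 : (fun s : ℂ => s ^ (-d P)) = (fun s : ℂ => s - 0) ^ (-d P) := by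
          funext s
          simp
        rw [h2]
        exact h1
      rw [this, An.c_zero, ← WithTop.coe_add]
      simp
    · rw [hiso P s hs h0]
      have h1 : AnalyticAt ℂ (fun s : ℂ => s ^ (-d P)) s :=
        analyticAt_id.zpow h0
      rw [h1.meromorphicOrderAt_eq, h1.analyticOrderAt_eq_zero.2 (zpow_ne_zero _ h0)]
      rfl
  exact ⟨hnf.meromorphicOrderAt_nonneg_iff_analyticAt.1 hord.ge,
    hnf.meromorphicOrderAt_eq_zero_iff.1 hord, hm.toMeromorphicNFOn_eq_self_on_nhdsNE hs⟩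

/-- compatibility of the unit parts -/
theorem gx_compat (hd : ∀ P, meromorphicOrderAt (deriv (An.fn P x₀)) 0 = ((d P : ℤ) : WithTop ℤ))
    (hr : ∀ P, r P ≤ An.r P)
    (hiso : ∀ P, ∀ s ∈ ball (0 : ℂ) (r P), s ≠ 0 → d (An.c P s) = 0) {P Q : T.X.Pt} {s s' : ℂ}
    (hs : s ∈ ball (0 : ℂ) (r P)) (hs' : s' ∈ ball (0 : ℂ) (r Q)) (h0 : s ≠ 0) (h0' : s' ≠ 0)
    {f : ℂ → ℂ} (hf : AnalyticAt ℂ f s) (hfs : f s = s') (hf' : deriv f s ≠ 0)
    (h : (fun σ => An.fn Q x₀ (f σ)) =ᶠ[𝓝[≠] s] An.fn P x₀) :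
    s ^ d P * gx An x₀ d r P s = s' ^ d Q * gx An x₀ d r Q s' * deriv f s := by
  obtain ⟨a1, -, a3⟩ := gx_spec hd hr hiso P hs
  obtain ⟨b1, -, b3⟩ := gx_spec hd hr hiso Q hs'
  have h1 := deriv_fn_comp x₀ (ball_subset_ball (hr Q) hs') hf hfs hf' h
  have ht := tendsto_ne_of_deriv hf hf'
  rw [hfs] at ht
  have hev : ∀ᶠ σ in 𝓝[≠] s, σ ^ d P * gx An x₀ d r P σ =
      f σ ^ d Q * gx An x₀ d r Q (f σ) * deriv f σ := by
    have n0 : ∀ᶠ σ in 𝓝[≠] s, σ ≠ 0 :=
      eventually_nhdsWithin_of_eventually_nhds (continuousAt_id.eventually_ne h0)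
    have n0' : ∀ᶠ σ in 𝓝[≠] s, f σ ≠ 0 := by
      refine eventually_nhdsWithin_of_eventually_nhds (hf.continuousAt.eventually_ne ?_)
      rw [hfs]; exact h0'
    filter_upwards [a3, ht.eventually b3, h1, n0, n0'] with σ e1 e2 e3 e4 e5
    have k1 : σ ^ d P * σ ^ (-d P) = 1 := by rw [← zpow_add₀ e4]; simp
    have k2 : f σ ^ d Q * f σ ^ (-d Q) = 1 := by rw [← zpow_add₀ e5]; simp
    rw [e1, e2, e3]
    linear_combination (deriv (An.fn Q x₀) (f σ) * deriv f σ) * k1 -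
      (deriv (An.fn Q x₀) (f σ) * deriv f σ) * k2
  have c1 : ContinuousAt (fun σ => σ ^ d P * gx An x₀ d r P σ) s :=
    (continuousAt_zpow₀ _ _ (Or.inl h0)).mul a1.continuousAt
  have c2 : ContinuousAt (fun σ => f σ ^ d Q * gx An x₀ d r Q (f σ) * deriv f σ) s := by
    have hb : ContinuousAt (gx An x₀ d r Q) (f s) := by rw [hfs]; exact b1.continuousAt
    have hz : ContinuousAt (fun x : ℂ => x ^ d Q) (f s) :=
      continuousAt_zpow₀ _ _ (Or.inl (by rw [hfs]; exact h0'))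
    exact ((hz.comp hf.continuousAt).mul (hb.comp hf.continuousAt)).mul
      hf.deriv.continuousAt
  have := tendsto_nhds_unique_of_eventuallyEq (c1.tendsto.mono_left nhdsWithin_le_nhds)
    (c2.tendsto.mono_left nhdsWithin_le_nhds) hev
  rwa [hfs] at this

end gx

end

end Pool.Agent.YTDA


end

/- source: Pool.Agent.YTDA.ResK -/

section

/-!
# T13, M2: the residue theorem on a Kähler surface with circle action
-/

namespace Pool.Agent.YTDA

open Complex Set Topology ContDiff MeasureTheory TopologicalSpace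

noncomputable section

namespace ResK

section Ring

variable {Ω : Opens (E 2)}

theorem dzD_ofR (i : Fin 2) (φ : E 2 → ℝ) (hφ : ContDiffOn ℝ ∞ φ Ω) (z : Ω) :
    (dzD i (ofR φ hφ)).1 z = dz i (fun w => (φ w : ℂ)) z :=
  dzD_ofFn i (fun w => (φ w : ℂ)) (ofRealCLM.contDiff.comp_contDiffOn hφ) z

theorem dzbD_ofR (i : Fin 2) (φ : E 2 → ℝ) (hφ : ContDiffOn ℝ ∞ φ Ω) (z : Ω) :
    (dzbD i (ofR φ hφ)).1 z = dzb i (fun w => (φ w : ℂ)) z :=
  dzbD_ofFn i (fun w => (φ w : ℂ)) (ofRealCLM.contDiff.comp_contDiffOn hφ) z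

/-- the coordinate function -/
def co (j : Fin 2) : Sm Ω := ofFn (fun z => z j) (by fun_prop)

theorem co_apply (j : Fin 2) (z : Ω) : (co j : Sm Ω).1 z = (z : E 2) j := rfl

theorem dzD_co (i j : Fin 2) : dzD i (co j : Sm Ω) = if i = j then 1 else 0 := by
  apply Sm.ext'
  intro z
  have h1 : DifferentiableOn ℂ (fun z : E 2 => z j) Ω := by fun_prop
  have h2 := dzD_ofFn_hol h1 i z
  have h3 : fderiv ℂ (fun z : E 2 => z j) z (Pi.single i 1) = if i = j then 1 else 0 := by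
    have h4 : HasFDerivAt (fun z : E 2 => z j)
      (ContinuousLinearMap.proj (R := ℂ) (φ := fun _ : Fin 2 => ℂ) j) (z : E 2) :=
      (ContinuousLinearMap.proj (R := ℂ) (φ := fun _ : Fin 2 => ℂ) j).hasFDerivAt
    rw [h4.fderiv]
    simp [Pi.single_apply, eq_comm]
  have h5 : (dzD i (co j : Sm Ω)).1 z = if i = j then 1 else 0 := h2.trans h3
  rw [h5]
  split_ifs <;> rfl

theorem dzD_star_co (i j : Fin 2) : dzD i (star (co j) : Sm Ω) = 0 := by
  have h1 : DifferentiableOn ℂ (fun z : E 2 => z j) Ω := by fun_prop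
  exact dzD_star_ofFn_hol h1 i

/-- chain rule for real functions of a real function -/
theorem dzD_ofR_comp (i : Fin 2) (u : ℝ → ℝ) (hu : ContDiff ℝ ∞ u) (μ : E 2 → ℝ)
    (hμ : ContDiffOn ℝ ∞ μ Ω) (h1 : ContDiffOn ℝ ∞ (fun z => u (μ z)) Ω)
    (h2 : ContDiffOn ℝ ∞ (fun z => deriv u (μ z)) Ω) :
    dzD i (ofR (fun z => u (μ z)) h1 : Sm Ω) = ofR (fun z => deriv u (μ z)) h2 *
      dzD i (ofR μ hμ) := by
  apply Sm.ext'
  intro z
  have hd : DifferentiableAt ℝ μ z :=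
    (hμ.contDiffAt (Ω.isOpen.mem_nhds z.2)).differentiableAt (by simp)
  have hud : DifferentiableAt ℝ u (μ z) := hu.differentiable (by simp) _
  have e1 : ∀ v, fderiv ℝ (fun w => ((u (μ w) : ℝ) : ℂ)) z v =
      ((deriv u (μ z) : ℝ) : ℂ) * fderiv ℝ (fun w => ((μ w : ℝ) : ℂ)) z v := by
    intro v
    have h3 : HasFDerivAt (fun w => ((u (μ w) : ℝ) : ℂ))
        (ofRealCLM.comp (deriv u (μ z) • fderiv ℝ μ z)) z := by
      have h4 : HasFDerivAt (fun w => u (μ w)) (deriv u (μ z) • fderiv ℝ μ z) z :=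
        hud.hasDerivAt.comp_hasFDerivAt (z : E 2) hd.hasFDerivAt
      exact ofRealCLM.hasFDerivAt.comp (z : E 2) h4
    have h5 : HasFDerivAt (fun w => ((μ w : ℝ) : ℂ)) (ofRealCLM.comp (fderiv ℝ μ z)) z :=
      ofRealCLM.hasFDerivAt.comp (z : E 2) hd.hasFDerivAt
    rw [h3.fderiv, h5.fderiv]
    simp
  rw [Sm.mul_apply, dzD_ofR, dzD_ofR, ofR_apply]
  unfold dz
  rw [e1, e1]
  ring

/-- (P2) the adjugate of the metric is divergence free -/
theorem div_adj (f : Sm Ω) (j : Fin 2) : ∑ i, dzD i ((hessS f).adjugate j i) = 0 := by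
  rw [Fin.sum_univ_two, Matrix.adjugate_fin_two]
  fin_cases j
  · simp only [Fin.zero_eta, Matrix.of_apply, Matrix.cons_val', Matrix.cons_val_zero,
      Matrix.cons_val_one, Matrix.cons_val_fin_one]
    rw [map_neg, dzD_hessS f 0 1 1]
    simp
  · simp only [Fin.mk_one, Matrix.of_apply, Matrix.cons_val', Matrix.cons_val_zero,
      Matrix.cons_val_one, Matrix.cons_val_fin_one]
    rw [map_neg, dzD_hessS f 0 1 0]
    simp

/-- the moment map in the ring -/
def muS (f : Sm Ω) (k : Fin 2 → ℤ) (m : ℤ) : Sm Ω :=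
  ((m : ℂ) • (1 : Sm Ω)) + ∑ j, ((k j : ℂ) • (co j * dzD j f))

theorem star_muS (f : Sm Ω) (hf : star f = f) (k : Fin 2 → ℤ) (m : ℤ) :
    star (muS f k m) = ((m : ℂ) • (1 : Sm Ω)) + ∑ j, ((k j : ℂ) • (star (co j) * dzbD j f)) := by
  unfold muS
  rw [star_add, star_smul, star_one, star_sum]
  have h1 : star (m : ℂ) = m := by simp
  rw [h1]
  congr 1
  refine Finset.sum_congr rfl fun j _ => ?_
  have h2 : star (k j : ℂ) = k j := by simp
  rw [star_smul, star_mul', star_dzD, hf, h2]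

/-- (P1) -/
theorem dzD_muS (f : Sm Ω) (hf : star f = f) (k : Fin 2 → ℤ) (m : ℤ)
    (hr : star (muS f k m) = muS f k m) (i : Fin 2) :
    dzD i (muS f k m) = ∑ j, (k j : ℂ) • (star (co j) * hessS f i j) := by
  rw [← hr, star_muS f hf, map_add, map_sum]
  have h1 : dzD i ((m : ℂ) • (1 : Sm Ω)) = 0 := by
    rw [Derivation.map_smul, Derivation.map_one_eq_zero, smul_zero]
  rw [h1, zero_add]
  refine Finset.sum_congr rfl fun j _ => ?_
  rw [Derivation.map_smul, Derivation.leibniz, dzD_star_co, smul_zero, add_zero, hessS_apply,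
    smul_eq_mul]

theorem adj_dzD_muS (f : Sm Ω) (hf : star f = f) (k : Fin 2 → ℤ) (m : ℤ)
    (hr : star (muS f k m) = muS f k m) (j : Fin 2) :
    ∑ i, (hessS f).adjugate j i * dzD i (muS f k m) =
      (k j : ℂ) • (star (co j) * (hessS f).det) := by
  simp_rw [dzD_muS f hf k m hr, Finset.mul_sum]
  rw [Finset.sum_comm]
  have h1 : ∀ l, ∑ i, (hessS f).adjugate j i * ((k l : ℂ) • (star (co l) * hessS f i l)) =
      (k l : ℂ) • (star (co l) * ((hessS f).adjugate * hessS f) j l) := by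
    intro l
    rw [Matrix.mul_apply, Finset.mul_sum, Finset.smul_sum]
    refine Finset.sum_congr rfl fun i _ => ?_
    rw [mul_smul_comm]
    congr 1
    ring
  simp_rw [h1, Matrix.adjugate_mul, Matrix.smul_apply, Matrix.one_apply]
  rw [Finset.sum_eq_single j]
  · simp
  · intro l _ hl
    simp [Ne.symm hl]
  · simp

end Ring

section Chart

variable {n : ℕ} {Y : Type} [MulAction ℂˣ Y] {A : PolAtlas n Y}

/-- `exp w` as a unit -/
def expU (w : ℂ) : ℂˣ := Units.mk0 (exp w) (exp_ne_zero w)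

theorem dact_expU (k : Fin n → ℤ) (w : ℂ) (z : E n) :
    dact k (expU w) z = fun j => exp ((k j : ℂ) * w) * z j := by
  ext j
  unfold dact expU
  rw [Units.val_zpow_eq_zpow_val, Units.val_mk0, Complex.exp_int_mul]

theorem hasDerivAt_dact (k : Fin n → ℤ) (v : ℂ) (z : E n) :
    HasDerivAt (fun t : ℝ => dact k (expU (t * v)) z) (fun j => (k j : ℂ) * v * z j) 0 := by
  simp_rw [dact_expU]
  rw [hasDerivAt_pi]
  intro j
  have h1 : HasDerivAt (fun t : ℝ => (k j : ℂ) * ((t : ℂ) * v)) ((k j : ℂ) * v) 0 := by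
    have h2 : HasDerivAt (fun t : ℝ => (t : ℂ)) 1 0 := Complex.ofRealCLM.hasDerivAt
    simpa using (h2.mul_const v).const_mul (k j : ℂ)
  have h3 := (h1.cexp).mul_const (z j)
  simpa using h3

variable {H : Y → ℝ} (D : A.DAct)

theorem smoothAt_pot (hK : A.IsKahler H) {a : A.ι} {z : E n} (hz : z ∈ A.U a) :
    ContDiffAt ℝ ∞ (A.pot H a) z := (hK.smooth a).contDiffAt ((A.isOpen_U a).mem_nhds hz)

theorem dact_zero (k : Fin n → ℤ) (v : ℂ) (z : E n) : dact k (expU ((0 : ℝ) * v)) z = z := by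
  rw [dact_expU]
  simp

theorem hasDerivAt_pot (hK : A.IsKahler H) {a : A.ι} {z : E n} (hz : z ∈ A.U a) (v : ℂ) :
    HasDerivAt (fun t : ℝ => A.pot H a (dact (D.k a) (expU (t * v)) z))
      (fderiv ℝ (A.pot H a) z (fun j => (D.k a j : ℂ) * v * z j)) 0 := by
  have h1 : DifferentiableAt ℝ (A.pot H a) (dact (D.k a) (expU ((0 : ℝ) * v)) z) := by
    rw [dact_zero]
    exact (smoothAt_pot hK hz).differentiableAt (by simp)
  have h2 := h1.hasFDerivAt.comp_hasDerivAt (0 : ℝ) (hasDerivAt_dact (D.k a) v z)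
  rw [dact_zero] at h2
  exact h2

/-- the potential along the action -/
theorem pot_dact (hK : A.IsKahler H) {a : A.ι} {z : E n} (hz : z ∈ A.U a) (c : ℂˣ) :
    Real.log (H (D.act c (A.γ a z))) =
      D.m a * Real.log (‖(c : ℂ)‖ ^ 2) + A.pot H a (dact (D.k a) c z) := by
  rw [D.act_γ a z hz c, hK.hom]
  have h1 : 0 < ‖(c : ℂ)‖ := norm_pos_iff.2 c.ne_zero
  have h2 : ‖((c ^ D.m a : ℂˣ) : ℂ)‖ ^ 2 = (‖(c : ℂ)‖ ^ 2) ^ (D.m a) := by
    rw [Units.val_zpow_eq_zpow_val, norm_zpow, ← zpow_natCast, ← zpow_natCast, zpow_comm]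
  rw [h2, Real.log_mul (by positivity) (hK.pos _).ne', Real.log_zpow]
  rfl

theorem norm_expU (w : ℂ) : ‖((expU w : ℂˣ) : ℂ)‖ = Real.exp w.re := Complex.norm_exp w

/-- `∑ k_j z_j ∂_j φ` is real -/
theorem wdz_real (hK : A.IsKahler H)
    (hinv : ∀ (c : ℂˣ) y, ‖(c : ℂ)‖ = 1 → H (D.act c y) = H y) {a : A.ι} {z : E n}
    (hz : z ∈ A.U a) : (wdz (D.k a) (fun w => (A.pot H a w : ℂ)) z).im = 0 := by
  have h1 := hasDerivAt_pot D hK hz I
  have h2 : (fun t : ℝ => A.pot H a (dact (D.k a) (expU (t * I)) z)) =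
      fun _ => A.pot H a z := by
    ext t
    have h3 := pot_dact D hK hz (expU (t * I))
    have h4 : ‖((expU (t * I) : ℂˣ) : ℂ)‖ = 1 := by rw [norm_expU]; simp
    rw [hinv _ _ h4, h4] at h3
    simp only [one_pow, Real.log_one, mul_zero, zero_add] at h3
    exact h3.symm
  rw [h2] at h1
  have h5 := h1.unique (hasDerivAt_const _ _)
  have hd : DifferentiableAt ℝ (A.pot H a) z :=
    (smoothAt_pot hK hz).differentiableAt (by simp)
  have h6 : fderiv ℝ (fun w => (A.pot H a w : ℂ)) z (fun j => (D.k a j : ℂ) * I * z j) = 0 := by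
    have h7 : HasFDerivAt (fun w => (A.pot H a w : ℂ)) (ofRealCLM.comp (fderiv ℝ (A.pot H a) z)) z :=
      ofRealCLM.hasFDerivAt.comp z hd.hasFDerivAt
    rw [h7.fderiv]
    simp [h5]
  rw [fderiv_eq_dz_dzb] at h6
  have h8 : ∀ j, dzb j (fun w => (A.pot H a w : ℂ)) z =
      (starRingEnd ℂ) (dz j (fun w => (A.pot H a w : ℂ)) z) := by
    intro j
    have h9 : ∀ v, (starRingEnd ℂ) (fderiv ℝ (fun w => (A.pot H a w : ℂ)) z v) =
        fderiv ℝ (fun w => (A.pot H a w : ℂ)) z v := by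
      intro v
      have h7 : HasFDerivAt (fun w => (A.pot H a w : ℂ))
          (ofRealCLM.comp (fderiv ℝ (A.pot H a) z)) z :=
        ofRealCLM.hasFDerivAt.comp z hd.hasFDerivAt
      rw [h7.fderiv]
      simp
    unfold dz dzb
    have h10 : (starRingEnd ℂ) 2 = 2 := map_ofNat _ 2
    rw [map_div₀, map_sub, map_mul, h9, h9, conj_I, h10]
    ring
  have h11 : ∑ j, (dz j (fun w => (A.pot H a w : ℂ)) z * ((D.k a j : ℂ) * I * z j) +
      dzb j (fun w => (A.pot H a w : ℂ)) z * (starRingEnd ℂ) ((D.k a j : ℂ) * I * z j)) =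
      I * (wdz (D.k a) (fun w => (A.pot H a w : ℂ)) z -
        (starRingEnd ℂ) (wdz (D.k a) (fun w => (A.pot H a w : ℂ)) z)) := by
    unfold wdz
    rw [map_sum, ← Finset.sum_sub_distrib, Finset.mul_sum]
    refine Finset.sum_congr rfl fun j _ => ?_
    rw [h8 j]
    simp only [map_mul, map_intCast, conj_I]
    ring
  rw [h11, Complex.sub_conj] at h6
  have h12 : wdz (D.k a) (fun w => (A.pot H a w : ℂ)) z = wdz (D.k a)
    (fun w => (A.pot H a w : ℂ)) z := rfl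
  have h13 : ((2 * (wdz (D.k a) (fun w => (A.pot H a w : ℂ)) z).im : ℝ) : ℂ) * I = 0 := by
    rcases mul_eq_zero.1 h6 with h | h
    · exact absurd h I_ne_zero
    · exact h
  have h14 := (mul_eq_zero.1 h13).resolve_right I_ne_zero
  have h15 : 2 * (wdz (D.k a) (fun w => (A.pot H a w : ℂ)) z).im = 0 := by exact_mod_cast h14
  linarith

theorem mu_coe (hK : A.IsKahler H)
    (hinv : ∀ (c : ℂˣ) y, ‖(c : ℂ)‖ = 1 → H (D.act c y) = H y) {a : A.ι} {z : E n}
    (hz : z ∈ A.U a) :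
    ((A.mu D H a z : ℝ) : ℂ) = D.m a + wdz (D.k a) (fun w => (A.pot H a w : ℂ)) z := by
  apply Complex.ext
  · simp [PolAtlas.mu, mom]
  · simp [wdz_real D hK hinv hz]

/-- `μ` is half of the derivative of `log H` along the action -/
theorem hasDerivAt_act (hK : A.IsKahler H) {a : A.ι} {z : E n} (hz : z ∈ A.U a) :
    HasDerivAt (fun t : ℝ => Real.log (H (D.act (expU t) (A.γ a z)))) (2 * A.mu D H a z) 0 := by
  have h1 := hasDerivAt_pot D hK hz 1
  simp only [mul_one] at h1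
  have h2 : (fun t : ℝ => Real.log (H (D.act (expU t) (A.γ a z)))) = fun t : ℝ =>
      D.m a * (2 * t) + A.pot H a (dact (D.k a) (expU t) z) := by
    ext t
    rw [pot_dact D hK hz, norm_expU, ofReal_re, Real.log_pow, Real.log_exp]
    push_cast
    ring
  rw [h2]
  have h3 : HasDerivAt (fun t : ℝ => (D.m a : ℝ) * (2 * t)) ((D.m a : ℝ) * 2) 0 := by
    simpa using ((hasDerivAt_id (0 : ℝ)).const_mul 2).const_mul (D.m a : ℝ)
  refine (h3.add h1).congr_deriv ?_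
  have hd : DifferentiableAt ℝ (A.pot H a) z :=
    (smoothAt_pot hK hz).differentiableAt (by simp)
  have h4 : (fderiv ℝ (A.pot H a) z (fun j => (D.k a j : ℂ) * z j) : ℂ) =
      fderiv ℝ (fun w => (A.pot H a w : ℂ)) z (fun j => (D.k a j : ℂ) * z j) := by
    have h7 : HasFDerivAt (fun w => (A.pot H a w : ℂ)) (ofRealCLM.comp (fderiv ℝ (A.pot H a) z)) z :=
      ofRealCLM.hasFDerivAt.comp z hd.hasFDerivAt
    rw [h7.fderiv]
    rfl
  have h5 : ∀ j, dzb j (fun w => (A.pot H a w : ℂ)) z =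
      (starRingEnd ℂ) (dz j (fun w => (A.pot H a w : ℂ)) z) := by
    intro j
    have h9 : ∀ v, (starRingEnd ℂ) (fderiv ℝ (fun w => (A.pot H a w : ℂ)) z v) =
        fderiv ℝ (fun w => (A.pot H a w : ℂ)) z v := by
      intro v
      have h7 : HasFDerivAt (fun w => (A.pot H a w : ℂ))
          (ofRealCLM.comp (fderiv ℝ (A.pot H a) z)) z :=
        ofRealCLM.hasFDerivAt.comp z hd.hasFDerivAt
      rw [h7.fderiv]
      simp
    unfold dz dzb
    have h10 : (starRingEnd ℂ) 2 = 2 := map_ofNat _ 2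
    rw [map_div₀, map_sub, map_mul, h9, h9, conj_I, h10]
    ring
  have h6 : (fderiv ℝ (A.pot H a) z (fun j => (D.k a j : ℂ) * z j) : ℂ) =
      ((2 * (wdz (D.k a) (fun w => (A.pot H a w : ℂ)) z).re : ℝ) : ℂ) := by
    rw [h4, fderiv_eq_dz_dzb, ← Complex.add_conj]
    unfold wdz
    rw [map_sum, ← Finset.sum_add_distrib]
    refine Finset.sum_congr rfl fun j _ => ?_
    rw [h5 j]
    simp only [map_mul, map_intCast]
    ring
  have h7 : fderiv ℝ (A.pot H a) z (fun j => (D.k a j : ℂ) * z j) =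
      2 * (wdz (D.k a) (fun w => (A.pot H a w : ℂ)) z).re := by exact_mod_cast h6
  rw [h7]
  unfold PolAtlas.mu mom
  ring

theorem mu_τ (hK : A.IsKahler H) {a b : A.ι} {z : E n} (hz : z ∈ A.O a b) :
    A.mu D H b (A.τ a b z) = A.mu D H a z := by
  have h1 := hasDerivAt_act D hK (PolAtlas.τ_memP hz)
  have h2 := hasDerivAt_act D hK hz.1
  have h3 : (fun t : ℝ => Real.log (H (D.act (expU t) (A.γ b (A.τ a b z))))) = fun t : ℝ =>
      Real.log (‖((A.h a b z : ℂˣ) : ℂ)‖ ^ 2) + Real.log (H (D.act (expU t) (A.γ a z))) := by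
    ext t
    have h5 : ‖((A.h a b z : ℂˣ) : ℂ)‖ ^ 2 ≠ 0 :=
      pow_ne_zero 2 (norm_ne_zero_iff.2 (A.h a b z).ne_zero)
    rw [PolAtlas.γ_τP hz, D.act_smul, hK.hom, Real.log_mul h5 (hK.pos _).ne']
  rw [h3] at h1
  have h4 := h1.unique (h2.const_add _)
  linarith

end Chart

section Log

variable {n : ℕ}

theorem fderiv_real {F : Type*} [NormedAddCommGroup F] [NormedSpace ℂ F] {t : E n → F} {z : E n}
    (ht : DifferentiableAt ℂ t z) (v : E n) : fderiv ℝ t z v = fderiv ℂ t z v := by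
  rw [ht.fderiv_restrictScalars ℝ]
  rfl

theorem single_I (i : Fin n) : (Pi.single i I : E n) = I • (Pi.single i 1 : E n) := by
  rw [← Pi.single_smul, smul_eq_mul, mul_one]

theorem dzb_log_norm {g : E n → ℂ} {z : E n} (hg : DifferentiableAt ℂ g z) (h0 : g z ≠ 0)
    (j : Fin n) : dzb j (fun w => ((Real.log (‖g w‖ ^ 2) : ℝ) : ℂ)) z =
      (starRingEnd ℂ) (fderiv ℂ g z (Pi.single j 1) / g z) := by
  have hgR : HasFDerivAt g (fderiv ℝ g z) z := (hg.restrictScalars ℝ).hasFDerivAt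
  have h1 : HasFDerivAt (fun w => ‖g w‖ ^ 2) (2 • (innerSL ℝ (g z)).comp (fderiv ℝ g z)) z :=
    hgR.norm_sq
  have h2 : HasFDerivAt (fun w => Real.log (‖g w‖ ^ 2))
      ((‖g z‖ ^ 2)⁻¹ • (2 • (innerSL ℝ (g z)).comp (fderiv ℝ g z))) z :=
    h1.log (by simpa using h0)
  have h3 : HasFDerivAt (fun w => ((Real.log (‖g w‖ ^ 2) : ℝ) : ℂ))
      (Complex.ofRealCLM.comp ((‖g z‖ ^ 2)⁻¹ • (2 • (innerSL ℝ (g z)).comp (fderiv ℝ g z)))) z :=
    Complex.ofRealCLM.hasFDerivAt.comp z h2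
  have key : ∀ v, fderiv ℝ (fun w => ((Real.log (‖g w‖ ^ 2) : ℝ) : ℂ)) z v =
      fderiv ℂ g z v / g z + (starRingEnd ℂ) (fderiv ℂ g z v / g z) := by
    intro v
    rw [h3.fderiv]
    have h4 : fderiv ℝ g z v = fderiv ℂ g z v := fderiv_real hg v
    have hn : ((‖g z‖ ^ 2 : ℝ) : ℂ) = g z * (starRingEnd ℂ) (g z) := by
      rw [mul_conj, normSq_eq_norm_sq]
    have hc : (starRingEnd ℂ) (g z) ≠ 0 := by simpa using h0
    rw [Complex.add_conj]
    have h5 : (Complex.ofRealCLM.comp ((‖g z‖ ^ 2)⁻¹ • (2 • (innerSL ℝ (g z)).comp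
        (fderiv ℝ g z)))) v = (((‖g z‖ ^ 2)⁻¹ * (2 * inner ℝ (g z) (fderiv ℂ g z v)) : ℝ) : ℂ) := by
      simp [h4]
      ring_nf
    rw [h5]
    congr 1
    rw [Complex.inner]
    have h6 : fderiv ℂ g z v / g z = ((starRingEnd ℂ) (g z) * fderiv ℂ g z v) /
        ((‖g z‖ ^ 2 : ℝ) : ℂ) := by
      rw [hn]; field_simp
    rw [h6, Complex.div_ofReal_re]
    ring
  unfold dzb
  rw [key, key, single_I, map_smul, smul_eq_mul]
  simp only [map_div₀, map_mul, conj_I]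
  have hc : (starRingEnd ℂ) (g z) ≠ 0 := by simpa using h0
  field_simp
  linear_combination (fderiv ℂ g z (Pi.single j 1) * (starRingEnd ℂ) (g z) -
    (starRingEnd ℂ) (fderiv ℂ g z (Pi.single j 1)) * g z) * I_sq

theorem dzb_log_coord (j l : Fin n) {z : E n} (hz : z l ≠ 0) :
    dzb j (fun w => ((Real.log (‖w l‖ ^ 2) : ℝ) : ℂ)) z =
      if j = l then 1 / (starRingEnd ℂ) (z l) else 0 := by
  have h4 : HasFDerivAt (fun z : E n => z l)
      (ContinuousLinearMap.proj (R := ℂ) (φ := fun _ : Fin n => ℂ) l) z :=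
      (ContinuousLinearMap.proj (R := ℂ) (φ := fun _ : Fin n => ℂ) l).hasFDerivAt
  rw [dzb_log_norm h4.differentiableAt hz, h4.fderiv]
  by_cases h : j = l
  · subst h
    simp
  · rw [if_neg h]
    simp [Ne.symm h]

theorem diff_log_coord (l : Fin n) {z : E n} (hz : z l ≠ 0) :
    DifferentiableAt ℝ (fun w : E n => Real.log (‖w l‖ ^ 2)) z := by
  have h4 : HasFDerivAt (fun z : E n => z l)
      (ContinuousLinearMap.proj (R := ℝ) (φ := fun _ : Fin n => ℂ) l) z :=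
      (ContinuousLinearMap.proj (R := ℝ) (φ := fun _ : Fin n => ℂ) l).hasFDerivAt
  exact (h4.norm_sq.log (by simpa using hz)).differentiableAt

/-- chain rule for `∂̄` -/
theorem dzb_comp_hol {t : E n → E n} {z : E n} (ht : DifferentiableAt ℂ t z) {f : E n → ℂ}
    (hf : DifferentiableAt ℝ f (t z)) (i : Fin n) :
    dzb i (fun w => f (t w)) z =
      ∑ l, dzb l f (t z) * (starRingEnd ℂ) (fderiv ℂ t z (Pi.single i 1) l) := by
  have h2 : ∀ v, fderiv ℝ (fun w => f (t w)) z v = fderiv ℝ f (t z) (fderiv ℂ t z v) := by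
    intro v
    have h3 := hf.hasFDerivAt.comp z (ht.hasFDerivAt.restrictScalars ℝ)
    have h4 : fderiv ℝ (fun w => f (t w)) z =
        (fderiv ℝ f (t z)).comp ((fderiv ℂ t z).restrictScalars ℝ) := h3.fderiv
    rw [h4]
    rfl
  have h6 : dzb i (fun w => f (t w)) z =
      (fderiv ℝ (fun w => f (t w)) z (Pi.single i 1) +
        I * fderiv ℝ (fun w => f (t w)) z (Pi.single i I)) / 2 := rfl
  rw [h6, h2, h2, single_I, map_smul, fderiv_eq_dz_dzb, fderiv_eq_dz_dzb, Finset.mul_sum,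
    ← Finset.sum_add_distrib, Finset.sum_div]
  refine Finset.sum_congr rfl fun l _ => ?_
  simp only [Pi.smul_apply, smul_eq_mul, map_mul, conj_I]
  linear_combination ((dz l f (t z) * fderiv ℂ t z (Pi.single i 1) l) / 2 -
    dzb l f (t z) * (starRingEnd ℂ) (fderiv ℂ t z (Pi.single i 1) l) / 2) * I_sq

theorem dzb_add {f g : E n → ℂ} {z : E n} (hf : DifferentiableAt ℝ f z)
    (hg : DifferentiableAt ℝ g z) (i : Fin n) :
    dzb i (fun w => f w + g w) z = dzb i f z + dzb i g z := by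
  unfold dzb
  rw [fderiv_fun_add hf hg]
  simp only [_root_.add_apply]
  ring

theorem dzb_const_mul {f : E n → ℂ} {z : E n} (hf : DifferentiableAt ℝ f z) (c : ℂ)
    (i : Fin n) : dzb i (fun w => c * f w) z = c * dzb i f z := by
  unfold dzb
  rw [fderiv_const_mul hf]
  simp only [_root_.smul_apply, smul_eq_mul]
  ring

end Log

section Main

variable {Y : Type} [MulAction ℂˣ Y] {A : PolAtlas 2 Y} {H : Y → ℝ} (D : A.DAct)

/-- the domain of a chart -/
def dom (A : PolAtlas 2 Y) (a : A.ι) : Opens (E 2) := ⟨A.U a, A.isOpen_U a⟩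

theorem smooth_dom (hK : A.IsKahler H) (a : A.ι) : ContDiffOn ℝ ∞ (A.pot H a) (dom A a) :=
  hK.smooth a

/-- the potential as an element of the ring -/
def potS (hK : A.IsKahler H) (a : A.ι) : Sm (dom A a) := ofR (A.pot H a) (smooth_dom hK a)

theorem star_potS (hK : A.IsKahler H) (a : A.ι) : star (potS hK a) = potS hK a := star_ofR _ _

theorem adj_apply {Ω : Opens (E 2)} (g : Matrix (Fin 2) (Fin 2) (Sm Ω)) (i j : Fin 2) (z : Ω) :
    (g.adjugate i j).1 z = (evM z g).adjugate i j := by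
  have h := RingHom.map_adjugate (evalS z).toRingHom g
  have h2 := congrFun (congrFun h i) j
  exact h2

theorem adjS_apply (hK : A.IsKahler H) (a : A.ι) (i j : Fin 2) (z : dom A a) :
    ((hessS (potS hK a)).adjugate i j).1 z = (hess (A.pot H a) z).adjugate i j := by
  rw [adj_apply]
  unfold potS
  rw [← hess_eq]

theorem muS_apply (hK : A.IsKahler H)
    (hinv : ∀ (c : ℂˣ) y, ‖(c : ℂ)‖ = 1 → H (D.act c y) = H y) (a : A.ι) (z : dom A a) :
    (muS (potS hK a) (D.k a) (D.m a)).1 z = ((A.mu D H a z : ℝ) : ℂ) := by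
  rw [mu_coe D hK hinv z.2]
  unfold muS wdz
  rw [Sm.add_apply, Sm.sum_apply]
  congr 1
  · show (D.m a : ℂ) * 1 = _
    rw [mul_one]
  · refine Finset.sum_congr rfl fun j _ => ?_
    show (D.k a j : ℂ) * ((co j : Sm (dom A a)).1 z * (dzD j (potS hK a)).1 z) = _
    unfold potS
    rw [dzD_ofR, co_apply]
    ring

theorem star_muS_eq (hK : A.IsKahler H)
    (hinv : ∀ (c : ℂˣ) y, ‖(c : ℂ)‖ = 1 → H (D.act c y) = H y) (a : A.ι) :
    star (muS (potS hK a) (D.k a) (D.m a)) = muS (potS hK a) (D.k a) (D.m a) := by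
  apply Sm.ext'
  intro z
  rw [star_apply, muS_apply D hK hinv, conj_ofReal]

theorem smooth_mu (hK : A.IsKahler H)
    (hinv : ∀ (c : ℂˣ) y, ‖(c : ℂ)‖ = 1 → H (D.act c y) = H y) (a : A.ι) :
    ContDiffOn ℝ ∞ (A.mu D H a) (A.U a) := by
  have h1 : ContDiffOn ℝ ∞ (fun z => (ext (muS (potS hK a) (D.k a) (D.m a)).1 z).re) (dom A a) :=
    reCLM.contDiff.comp_contDiffOn (muS (potS hK a) (D.k a) (D.m a)).2
  refine h1.congr fun z hz => ?_
  rw [ext_mk _ hz, muS_apply D hK hinv]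
  simp

theorem muS_eq_ofR (hK : A.IsKahler H)
    (hinv : ∀ (c : ℂˣ) y, ‖(c : ℂ)‖ = 1 → H (D.act c y) = H y) (a : A.ι)
    (h : ContDiffOn ℝ ∞ (A.mu D H a) (dom A a)) :
    (ofR (A.mu D H a) h : Sm (dom A a)) = muS (potS hK a) (D.k a) (D.m a) := by
  apply Sm.ext'
  intro z
  rw [ofR_apply, muS_apply D hK hinv]

theorem det_apply (hK : A.IsKahler H) (a : A.ι) (z : dom A a) :
    ((hessS (potS hK a)).det).1 z = ((A.rho H a z : ℝ) : ℂ) := by
  unfold potS
  rw [← det_hess_eq]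
  have := (Complex.pos_iff.1 (hK.posDef a z z.2).det_pos).2
  unfold PolAtlas.rho
  apply Complex.ext
  · simp
  · simp [← this]

/-- the pole part of the vector field -/
def Wf (H : Y → ℝ) (u : ℝ → ℝ) (M : A.ι → Fin 2 → ℝ) (a : A.ι) (i j : Fin 2) (z : E 2) : ℂ :=
  (u (A.mu D H a z) : ℂ) * ((hess (A.pot H a) z).adjugate j i * (M a j : ℂ))

/-- the smooth part of the vector field -/
def Rf (H : Y → ℝ) (u : ℝ → ℝ) (G : A.ι → E 2 → ℝ) (a : A.ι) (i : Fin 2) (z : E 2) : ℂ :=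
  (u (A.mu D H a z) : ℂ) * ∑ j, (hess (A.pot H a) z).adjugate j i *
    dzb j (fun w => (G a w : ℂ)) z

section RingEls

variable (hK : A.IsKahler H)
  (hinv : ∀ (c : ℂˣ) y, ‖(c : ℂ)‖ = 1 → H (D.act c y) = H y)
  {u : ℝ → ℝ} (hu : ContDiff ℝ ∞ u) (a : A.ι)
  {G : A.ι → E 2 → ℝ} (hG : ∀ a, ContDiffOn ℝ ∞ (G a) (A.U a)) (M : A.ι → Fin 2 → ℝ)

include hK hinv in
theorem smooth_umu {u : ℝ → ℝ} (hu : ContDiff ℝ ∞ u) :
    ContDiffOn ℝ ∞ (fun z => u (A.mu D H a z)) (dom A a) :=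
  hu.comp_contDiffOn (smooth_mu D hK hinv a)

/-- `W` in the ring -/
def WS (i j : Fin 2) : Sm (dom A a) :=
  ofR _ (smooth_umu D hK hinv a hu) * ((hessS (potS hK a)).adjugate j i * ((M a j : ℂ) • 1))

/-- `G` in the ring -/
def GS : Sm (dom A a) :=
  ofR (G a) (show ContDiffOn ℝ ∞ (G a) (dom A a) from hG a)

theorem dzbD_GS (j : Fin 2) (z : dom A a) :
    (dzbD j (GS a hG)).1 z = dzb j (fun w => (G a w : ℂ)) z :=
  dzbD_ofR j (G a) _ z

/-- `R` in the ring -/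
def RS (i : Fin 2) : Sm (dom A a) :=
  ofR _ (smooth_umu D hK hinv a hu) * ∑ j, (hessS (potS hK a)).adjugate j i *
    dzbD j (GS a hG)

theorem WS_apply (i j : Fin 2) (z : dom A a) :
    (WS D hK hinv hu a M i j).1 z = Wf D H u M a i j z := by
  unfold WS Wf
  rw [Sm.mul_apply, Sm.mul_apply, ofR_apply, adjS_apply]
  congr 2
  show (M a j : ℂ) * 1 = _
  rw [mul_one]

theorem RS_apply (i : Fin 2) (z : dom A a) :
    (RS D hK hinv hu a hG i).1 z = Rf D H u G a i z := by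
  unfold RS Rf
  rw [Sm.mul_apply, Sm.sum_apply, ofR_apply]
  congr 1
  refine Finset.sum_congr rfl fun j _ => ?_
  rw [Sm.mul_apply, adjS_apply, dzbD_GS]

include hK hinv hu in
theorem smooth_Wf (i j : Fin 2) : ContDiffOn ℝ ∞ (Wf D H u M a i j) (A.U a) := by
  refine (WS D hK hinv hu a M i j).2.congr fun z hz => ?_
  rw [ext_mk _ hz, WS_apply]

include hK hinv hu hG in
theorem smooth_Rf (i : Fin 2) : ContDiffOn ℝ ∞ (Rf D H u G a i) (A.U a) := by
  refine (RS D hK hinv hu a hG i).2.congr fun z hz => ?_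
  rw [ext_mk _ hz, RS_apply]

theorem dz_Wf (i j : Fin 2) (l : Fin 2) (z : dom A a) :
    dz l (Wf D H u M a i j) z = (dzD l (WS D hK hinv hu a M i j)).1 z := by
  rw [dzD_apply]
  apply dz_congr
  refine Filter.eventuallyEq_of_mem ((dom A a).isOpen.mem_nhds z.2) fun w hw => ?_
  rw [ext_mk _ hw, WS_apply]

theorem dz_Rf (i : Fin 2) (l : Fin 2) (z : dom A a) :
    dz l (Rf D H u G a i) z = (dzD l (RS D hK hinv hu a hG i)).1 z := by
  rw [dzD_apply]
  apply dz_congr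
  refine Filter.eventuallyEq_of_mem ((dom A a).isOpen.mem_nhds z.2) fun w hw => ?_
  rw [ext_mk _ hw, RS_apply]

theorem hess_G (i j : Fin 2) (z : dom A a) :
    hess (G a) z i j = (dzD i (dzbD j (GS a hG))).1 z :=
  hess_apply_eq (G a) _ z i j

/-- the divergence computed in the ring -/
theorem div_WS (j : Fin 2) (h1 : ContDiffOn ℝ ∞ (fun z => deriv u (A.mu D H a z)) (dom A a)) :
    ∑ i, dzD i (WS D hK hinv hu a M i j) =
      ofR _ h1 * ((D.k a j : ℂ) • (star (co j) * (hessS (potS hK a)).det)) * ((M a j : ℂ) • 1) := by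
  have hμ := smooth_mu D hK hinv a
  have e1 : ∀ i, dzD i (WS D hK hinv hu a M i j) =
      ofR _ (smooth_umu D hK hinv a hu) * ((M a j : ℂ) • 1) *
        dzD i ((hessS (potS hK a)).adjugate j i) +
      ofR _ h1 * ((hessS (potS hK a)).adjugate j i *
        dzD i (muS (potS hK a) (D.k a) (D.m a))) * ((M a j : ℂ) • 1) := by
    intro i
    have e2 : dzD i ((M a j : ℂ) • (1 : Sm (dom A a))) = 0 := by
      rw [Derivation.map_smul, Derivation.map_one_eq_zero, smul_zero]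
    unfold WS
    rw [Derivation.leibniz, Derivation.leibniz, e2, dzD_ofR_comp i u hu (A.mu D H a) hμ _ h1,
      muS_eq_ofR D hK hinv a hμ]
    simp only [smul_eq_mul, mul_zero, zero_add]
    ring
  simp_rw [e1]
  rw [Finset.sum_add_distrib, ← Finset.mul_sum, div_adj, mul_zero, zero_add, ← Finset.sum_mul,
    ← Finset.mul_sum, adj_dzD_muS (potS hK a) (star_potS hK a) _ _ (star_muS_eq D hK hinv a)]

theorem div_RS (h1 : ContDiffOn ℝ ∞ (fun z => deriv u (A.mu D H a z)) (dom A a)) :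
    ∑ i, dzD i (RS D hK hinv hu a hG i) =
      ofR _ (smooth_umu D hK hinv a hu) * (∑ i, ∑ j, (hessS (potS hK a)).adjugate j i *
        dzD i (dzbD j (GS a hG))) +
      ofR _ h1 * (hessS (potS hK a)).det * ∑ j, ((D.k a j : ℂ) • (star (co j))) *
        dzbD j (GS a hG) := by
  have hμ := smooth_mu D hK hinv a
  have e1 : ∀ i, dzD i (RS D hK hinv hu a hG i) =
      ofR _ (smooth_umu D hK hinv a hu) * (∑ j, (hessS (potS hK a)).adjugate j i *
        dzD i (dzbD j (GS a hG))) +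
      ofR _ (smooth_umu D hK hinv a hu) * (∑ j, dzD i ((hessS (potS hK a)).adjugate j i) *
        dzbD j (GS a hG)) +
      ofR _ h1 * (∑ j, ((hessS (potS hK a)).adjugate j i *
        dzD i (muS (potS hK a) (D.k a) (D.m a))) * dzbD j (GS a hG)) := by
    intro i
    unfold RS
    rw [Derivation.leibniz, map_sum, dzD_ofR_comp i u hu (A.mu D H a) hμ _ h1,
      muS_eq_ofR D hK hinv a hμ]
    simp only [smul_eq_mul, Derivation.leibniz, Finset.sum_add_distrib, Finset.mul_sum,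
      Finset.sum_mul]
    rw [mul_add, Finset.mul_sum, Finset.mul_sum]
    congr 1
    · congr 1
      refine Finset.sum_congr rfl fun j _ => ?_
      ring
    · refine Finset.sum_congr rfl fun j _ => ?_
      ring
  simp_rw [e1]
  rw [Finset.sum_add_distrib, Finset.sum_add_distrib, ← Finset.mul_sum, ← Finset.mul_sum,
    ← Finset.mul_sum]
  have e3 : ∑ i, ∑ j, dzD i ((hessS (potS hK a)).adjugate j i) * dzbD j (GS a hG) = 0 := by
    rw [Finset.sum_comm]
    refine Finset.sum_eq_zero fun j _ => ?_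
    rw [← Finset.sum_mul, div_adj, zero_mul]
  have e4 : ∑ i, ∑ j, ((hessS (potS hK a)).adjugate j i *
      dzD i (muS (potS hK a) (D.k a) (D.m a))) * dzbD j (GS a hG) =
      ∑ j, ((D.k a j : ℂ) • (star (co j) * (hessS (potS hK a)).det)) * dzbD j (GS a hG) := by
    rw [Finset.sum_comm]
    refine Finset.sum_congr rfl fun j _ => ?_
    rw [← Finset.sum_mul, adj_dzD_muS (potS hK a) (star_potS hK a) _ _ (star_muS_eq D hK hinv a)]
  have e5 : ∑ j, ((D.k a j : ℂ) • (star (co j) * (hessS (potS hK a)).det)) * dzbD j (GS a hG) =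
      (hessS (potS hK a)).det * ∑ j, ((D.k a j : ℂ) • (star (co j))) * dzbD j (GS a hG) := by
    rw [Finset.mul_sum]
    refine Finset.sum_congr rfl fun j _ => ?_
    rw [smul_mul_assoc, smul_mul_assoc, mul_smul_comm]
    congr 1
    ring
  rw [e3, mul_zero, add_zero, e4, e5, mul_assoc]

include hinv hK hu hG in
/-- the divergence of the vector field -/
theorem polarDiv_eq {z : E 2} (hz : z ∈ A.U a) (hz0 : ∀ j, z j ≠ 0) :
    PolAtlas.Part.polarDiv (Wf D H u M) (Rf D H u G) a z = A.resF D H u G M a z := by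
  have hd1 : ContDiff ℝ ∞ (deriv u) := (contDiff_infty_iff_deriv.1 hu).2
  have h1 : ContDiffOn ℝ ∞ (fun z => deriv u (A.mu D H a z)) (dom A a) :=
    smooth_umu D hK hinv a hd1
  have hz' : z ∈ dom A a := hz
  set y : dom A a := ⟨z, hz'⟩ with hy
  unfold PolAtlas.Part.polarDiv
  rw [Finset.sum_add_distrib, Finset.sum_comm]
  have e1 : ∑ j, ∑ i, dz i (Wf D H u M a i j) z / (starRingEnd ℂ) (z j) =
      ((deriv u (A.mu D H a z) : ℝ) : ℂ) * (A.rho H a z : ℂ) *
        ((∑ j, M a j * D.k a j : ℝ) : ℂ) := by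
    rw [ofReal_sum, Finset.mul_sum]
    refine Finset.sum_congr rfl fun j _ => ?_
    rw [← Finset.sum_div]
    have e2 : ∑ i, dz i (Wf D H u M a i j) z = (∑ i, dzD i (WS D hK hinv hu a M i j)).1 y := by
      rw [Sm.sum_apply]
      exact Finset.sum_congr rfl fun i _ => dz_Wf D hK hinv hu a M i j i y
    rw [e2, div_WS D hK hinv hu a M j h1, Sm.mul_apply, Sm.mul_apply, ofR_apply]
    have e3 : (((D.k a j : ℂ) • (star (co j) * (hessS (potS hK a)).det) : Sm (dom A a))).1 y =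
        (D.k a j : ℂ) * ((starRingEnd ℂ) (z j) * (A.rho H a z : ℂ)) := by
      show (D.k a j : ℂ) * ((star (co j) : Sm (dom A a)).1 y * ((hessS (potS hK a)).det).1 y) = _
      rw [star_apply, co_apply, det_apply]
    have e4 : (((M a j : ℂ) • (1 : Sm (dom A a)))).1 y = (M a j : ℂ) := by
      show (M a j : ℂ) * 1 = _
      rw [mul_one]
    rw [e3, e4]
    have hc : (starRingEnd ℂ) (z j) ≠ 0 := (map_ne_zero _).2 (hz0 j)
    field_simp
    push_cast
    ring
  have e5 : ∑ i, dz i (Rf D H u G a i) z =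
      (u (A.mu D H a z) : ℂ) * A.trC H a (G a) z + ((deriv u (A.mu D H a z) : ℝ) : ℂ) *
        (A.rho H a z : ℂ) * wdzb (D.k a) (fun w => (G a w : ℂ)) z := by
    have e6 : ∑ i, dz i (Rf D H u G a i) z = (∑ i, dzD i (RS D hK hinv hu a hG i)).1 y := by
      rw [Sm.sum_apply]
      exact Finset.sum_congr rfl fun i _ => dz_Rf D hK hinv hu a hG i i y
    rw [e6, div_RS D hK hinv hu a hG h1, Sm.add_apply, Sm.mul_apply, Sm.mul_apply, Sm.mul_apply,
      ofR_apply, ofR_apply, det_apply, Sm.sum_apply, Sm.sum_apply]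
    congr 2
    · unfold PolAtlas.trC
      refine Finset.sum_congr rfl fun i _ => ?_
      rw [Sm.sum_apply]
      refine Finset.sum_congr rfl fun j _ => ?_
      rw [Sm.mul_apply, adjS_apply, ← hess_G]
    · unfold wdzb
      refine Finset.sum_congr rfl fun j _ => ?_
      rw [Sm.mul_apply, dzbD_GS]
      congr 1
      show (D.k a j : ℂ) * (star (co j) : Sm (dom A a)).1 y = _
      rw [star_apply, co_apply]
  rw [e1, e5]
  unfold PolAtlas.resF
  ring

end RingEls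

/-! ### The transformation law -/

/-- the Jacobian matrix `J_{li} = ∂_i τ^l` -/
def jacM (A : PolAtlas 2 Y) (a b : A.ι) (z : E 2) : Matrix (Fin 2) (Fin 2) ℂ :=
  fun l i => fderiv ℂ (A.τ a b) z (Pi.single i 1) l

theorem det_jacM (a b : A.ι) (z : E 2) :
    (jacM A a b z).det = (fderiv ℂ (A.τ a b) z).det := by
  rw [ContinuousLinearMap.det, ← LinearMap.det_toMatrix (Pi.basisFun ℂ (Fin 2))]
  congr 1

/-- transformation of the metric -/
theorem hess_τ (hK : A.IsKahler H) {a b : A.ι} {z : E 2} (hz : z ∈ A.O a b) :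
    hess (A.pot H a) z = (jacM A a b z).transpose * hess (A.pot H b) (A.τ a b z) *
      (jacM A a b z).map (starRingEnd ℂ) := by
  set Ω : Opens (E 2) := ⟨A.O a b, A.isOpen_O a b⟩ with hΩ
  have hτ : DifferentiableOn ℂ (A.τ a b) Ω := A.hol_τ a b
  have hm : MapsTo (A.τ a b) Ω (dom A b) := fun w hw => PolAtlas.τ_memP hw
  have hh : DifferentiableOn ℂ (fun z => (A.h a b z : ℂ)) Ω := A.hol_h a b
  have h0 : ∀ w ∈ Ω, (A.h a b w : ℂ) ≠ 0 := fun w _ => (A.h a b w).ne_zero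
  have hc := contDiffOn_log_norm hh h0
  have ha : ContDiffOn ℝ ∞ (A.pot H a) Ω := (hK.smooth a).mono fun w hw => hw.1
  have key : (ofR (A.pot H a) ha : Sm Ω) =
      pull (smooth_of_hol hτ) hm (potS hK b) - ofR (fun z => Real.log (‖(A.h a b z : ℂ)‖ ^ 2)) hc := by
    apply Sm.ext'
    intro w
    rw [Sm.sub_apply, ofR_apply, ofR_apply]
    unfold potS
    rw [pull_ofR, ofR_apply, ← ofReal_sub]
    congr 1
    have h1 : A.pot H b (A.τ a b w) = Real.log (‖(A.h a b w : ℂ)‖ ^ 2) + A.pot H a w := by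
      unfold PolAtlas.pot
      rw [PolAtlas.γ_τP w.2, hK.hom, Real.log_mul
        (pow_ne_zero 2 (norm_ne_zero_iff.2 (A.h a b w).ne_zero)) (hK.pos _).ne']
    rw [h1]
    ring
  ext i j
  have e1 := hess_apply_eq (A.pot H a) ha ⟨z, hz⟩ i j
  rw [e1, key, map_sub, map_sub, hess_log_norm hh h0 hc, sub_zero, YTDA.hess_pull hτ hm, Sm.sum_apply,
    Matrix.mul_apply]
  refine Finset.sum_congr rfl fun l _ => ?_
  rw [Sm.sum_apply, Matrix.mul_apply, Finset.sum_mul]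
  refine Finset.sum_congr rfl fun m _ => ?_
  rw [Sm.mul_apply, Sm.mul_apply, star_apply, dzD_coS hτ, dzD_coS hτ]
  have e2 : (pull (smooth_of_hol hτ) hm (dzD m (dzbD l (potS hK b)))).1 ⟨z, hz⟩ =
      hess (A.pot H b) (A.τ a b z) m l := by
    rw [pull_apply]
    exact (hess_apply_eq (A.pot H b) (smooth_dom hK b) ⟨A.τ a b z, hm hz⟩ m l).symm
  rw [e2]
  simp only [Matrix.transpose_apply, Matrix.map_apply, jacM]
  ring

/-- the antiholomorphic derivatives of `F = G + ∑ M_j log |z_j|²` -/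
def vF (G : A.ι → E 2 → ℝ) (M : A.ι → Fin 2 → ℝ) (a : A.ι) (z : E 2) (j : Fin 2) : ℂ :=
  (M a j : ℂ) / (starRingEnd ℂ) (z j) + dzb j (fun w => (G a w : ℂ)) z

theorem polar_eq (u : ℝ → ℝ) (G : A.ι → E 2 → ℝ) (M : A.ι → Fin 2 → ℝ) (a : A.ι) (z : E 2)
    (i : Fin 2) : PolAtlas.Part.polar (Wf D H u M) (Rf D H u G) a i z =
      (u (A.mu D H a z) : ℂ) * (Matrix.vecMul (vF G M a z) (hess (A.pot H a) z).adjugate) i := by
  unfold PolAtlas.Part.polar Wf Rf vF Matrix.vecMul dotProduct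
  rw [Finset.mul_sum, Finset.mul_sum, ← Finset.sum_add_distrib]
  refine Finset.sum_congr rfl fun j _ => ?_
  ring

/-- the function `G + ∑ M_j log |z_j|²` -/
def Fl (G : A.ι → E 2 → ℝ) (M : A.ι → Fin 2 → ℝ) (a : A.ι) (z : E 2) : ℝ :=
  G a z + ∑ j, M a j * Real.log (‖z j‖ ^ 2)

theorem diff_Fl {G : A.ι → E 2 → ℝ} (hG : ∀ a, ContDiffOn ℝ ∞ (G a) (A.U a))
    (M : A.ι → Fin 2 → ℝ) {a : A.ι} {z : E 2} (hz : z ∈ A.U a) (hz0 : ∀ j, z j ≠ 0) :
    DifferentiableAt ℝ (fun w => (Fl G M a w : ℂ)) z := by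
  have h1 : DifferentiableAt ℝ (G a) z :=
    ((hG a).contDiffAt ((A.isOpen_U a).mem_nhds hz)).differentiableAt (by simp)
  have h2 : DifferentiableAt ℝ (Fl G M a) z := by
    unfold Fl
    refine h1.add (DifferentiableAt.fun_sum fun j _ => ?_)
    exact (diff_log_coord j (hz0 j)).const_mul _
  exact ofRealCLM.differentiableAt.comp z h2

theorem dzb_Fl {G : A.ι → E 2 → ℝ} (hG : ∀ a, ContDiffOn ℝ ∞ (G a) (A.U a))
    (M : A.ι → Fin 2 → ℝ) {a : A.ι} {z : E 2} (hz : z ∈ A.U a) (hz0 : ∀ j, z j ≠ 0) (j : Fin 2) :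
    dzb j (fun w => (Fl G M a w : ℂ)) z = vF G M a z j := by
  have h1 : DifferentiableAt ℝ (fun w => (G a w : ℂ)) z :=
    ofRealCLM.differentiableAt.comp z
      (((hG a).contDiffAt ((A.isOpen_U a).mem_nhds hz)).differentiableAt (by simp))
  have hl : ∀ l, DifferentiableAt ℝ (fun w : E 2 => ((Real.log (‖w l‖ ^ 2) : ℝ) : ℂ)) z := fun l =>
    ofRealCLM.differentiableAt.comp z (diff_log_coord l (hz0 l))
  have e1 : (fun w => (Fl G M a w : ℂ)) = fun w => (G a w : ℂ) +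
      ((M a 0 : ℂ) * ((Real.log (‖w 0‖ ^ 2) : ℝ) : ℂ) +
        (M a 1 : ℂ) * ((Real.log (‖w 1‖ ^ 2) : ℝ) : ℂ)) := by
    ext w
    unfold Fl
    rw [Fin.sum_univ_two]
    push_cast
    ring
  have h01 : DifferentiableAt ℝ (fun w : E 2 =>
      (M a 0 : ℂ) * ((Real.log (‖w 0‖ ^ 2) : ℝ) : ℂ)) z := (hl 0).const_mul _
  have h11 : DifferentiableAt ℝ (fun w : E 2 =>
      (M a 1 : ℂ) * ((Real.log (‖w 1‖ ^ 2) : ℝ) : ℂ)) z := (hl 1).const_mul _
  have h21 : DifferentiableAt ℝ (fun w : E 2 => (M a 0 : ℂ) * ((Real.log (‖w 0‖ ^ 2) : ℝ) : ℂ) +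
      (M a 1 : ℂ) * ((Real.log (‖w 1‖ ^ 2) : ℝ) : ℂ)) z := h01.fun_add h11
  rw [e1, dzb_add h1 h21, dzb_add h01 h11, dzb_const_mul (hl 0),
    dzb_const_mul (hl 1), dzb_log_coord j 0 (hz0 0), dzb_log_coord j 1 (hz0 1)]
  unfold vF
  fin_cases j
  · simp
    ring
  · simp
    ring

/-- transformation of the derivatives -/
theorem vF_τ {F : Y → ℝ} (hF : ∀ (c : ℂˣ) y, F (c • y) = F y)
    {G : A.ι → E 2 → ℝ} (hG : ∀ a, ContDiffOn ℝ ∞ (G a) (A.U a)) {M : A.ι → Fin 2 → ℝ}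
    (hFG : ∀ a, ∀ z ∈ A.U a, z 0 ≠ 0 → z 1 ≠ 0 →
      F (A.γ a z) = G a z + ∑ j, M a j * Real.log (‖z j‖ ^ 2))
    {a b : A.ι} {z : E 2} (hz : z ∈ A.O a b) (hz0 : ∀ j, z j ≠ 0)
    (hτ0 : ∀ j, A.τ a b z j ≠ 0) :
    vF G M a z = Matrix.vecMul (vF G M b (A.τ a b z)) ((jacM A a b z).map (starRingEnd ℂ)) := by
  ext i
  rw [← dzb_Fl hG M hz.1 hz0]
  have hne : ∀ (w : E 2), (∀ j, w j ≠ 0) → ∀ᶠ w' in 𝓝 w, ∀ j, w' j ≠ 0 := by
    intro w hw
    rw [Filter.eventually_all]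
    intro j
    exact (continuous_apply j).continuousAt.eventually_ne (hw j)
  have hc : ContinuousAt (A.τ a b) z := (PolAtlas.diff_τ hz).continuousAt
  have h1 : (fun w => (Fl G M a w : ℂ)) =ᶠ[𝓝 z] fun w => (Fl G M b (A.τ a b w) : ℂ) := by
    filter_upwards [(A.isOpen_O a b).mem_nhds hz, hne z hz0, hc.eventually (hne _ hτ0)] with w hw
      hw0 hwτ
    have e1 := hFG a w hw.1 (hw0 0) (hw0 1)
    have e2 := hFG b (A.τ a b w) (PolAtlas.τ_memP hw) (hwτ 0) (hwτ 1)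
    rw [PolAtlas.γ_τP hw, hF, e1] at e2
    unfold Fl
    rw [e2]
  rw [dzb_congr h1, dzb_comp_hol (PolAtlas.diff_τ hz)
    (diff_Fl hG M (PolAtlas.τ_memP hz) hτ0)]
  unfold Matrix.vecMul dotProduct
  refine Finset.sum_congr rfl fun l _ => ?_
  rw [dzb_Fl hG M (PolAtlas.τ_memP hz) hτ0]
  rfl

/-- **the transformation law** -/
theorem law (hK : A.IsKahler H) (u : ℝ → ℝ) {F : Y → ℝ} (hF : ∀ (c : ℂˣ) y, F (c • y) = F y)
    {G : A.ι → E 2 → ℝ} (hG : ∀ a, ContDiffOn ℝ ∞ (G a) (A.U a)) {M : A.ι → Fin 2 → ℝ}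
    (hFG : ∀ a, ∀ z ∈ A.U a, z 0 ≠ 0 → z 1 ≠ 0 →
      F (A.γ a z) = G a z + ∑ j, M a j * Real.log (‖z j‖ ^ 2))
    {a b : A.ι} {z : E 2} (hz : z ∈ A.O a b) (hz0 : ∀ j, z j ≠ 0)
    (hτ0 : ∀ j, A.τ a b z j ≠ 0) :
    PolAtlas.Part.Law (PolAtlas.Part.polar (Wf D H u M) (Rf D H u G)) a b z := by
  intro l
  set J := jacM A a b z with hJ
  have e1 : ∑ i, fderiv ℂ (A.τ a b) z (Pi.single i 1) l *
      PolAtlas.Part.polar (Wf D H u M) (Rf D H u G) a i z =
      (u (A.mu D H a z) : ℂ) * (Matrix.vecMul (Matrix.vecMul (vF G M a z)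
        (hess (A.pot H a) z).adjugate) J.transpose) l := by
    rw [Matrix.vecMul, dotProduct, Finset.mul_sum]
    refine Finset.sum_congr rfl fun i _ => ?_
    rw [polar_eq, Matrix.transpose_apply]
    show J l i * _ = _
    ring
  rw [e1, polar_eq, mu_τ D hK hz, hess_τ hK hz, vF_τ hF hG hFG hz hz0 hτ0,
    Matrix.adjugate_mul_distrib, Matrix.adjugate_mul_distrib, Matrix.vecMul_vecMul,
    Matrix.vecMul_vecMul, ← det_jacM, ← hJ]
  have e2 : J.map (starRingEnd ℂ) * ((J.map (starRingEnd ℂ)).adjugate *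
      ((hess (A.pot H b) (A.τ a b z)).adjugate * J.transpose.adjugate) * J.transpose) =
      ((starRingEnd ℂ) J.det * J.det) • (hess (A.pot H b) (A.τ a b z)).adjugate := by
    have h1 : J.map (starRingEnd ℂ) * ((J.map (starRingEnd ℂ)).adjugate *
      ((hess (A.pot H b) (A.τ a b z)).adjugate * J.transpose.adjugate) * J.transpose) =
      (J.map (starRingEnd ℂ) * (J.map (starRingEnd ℂ)).adjugate) *
      ((hess (A.pot H b) (A.τ a b z)).adjugate * (J.transpose.adjugate * J.transpose)) := by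
      simp only [Matrix.mul_assoc]
    rw [h1, Matrix.mul_adjugate, Matrix.adjugate_mul, Matrix.det_transpose]
    have h2 : (J.map (starRingEnd ℂ)).det = (starRingEnd ℂ) J.det := by
      rw [RingHom.map_det]; rfl
    rw [h2, Matrix.smul_mul, Matrix.one_mul, Matrix.mul_smul, Matrix.mul_one, smul_smul]
  rw [e2]
  have e3 : ((starRingEnd ℂ) J.det * J.det) = (‖J.det‖ : ℂ) ^ 2 := by
    rw [mul_comm, mul_conj, normSq_eq_norm_sq]
    push_cast
    rfl
  rw [e3, Matrix.vecMul_smul, Pi.smul_apply, smul_eq_mul]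
  ring

/-- the adjugate on the diagonal -/
theorem adj_diag (g : Matrix (Fin 2) (Fin 2) ℂ) (j : Fin 2) :
    g.adjugate j j = g (1 - j) (1 - j) := by
  rw [Matrix.adjugate_fin_two]
  fin_cases j <;> rfl

end Main

end ResK

/-- **M2**: the residue theorem for `F = G_a + ∑ M_{a,j} log |z_j|²` -/
theorem PolAtlas.Part.res {Y : Type} [MulAction ℂˣ Y] {A : PolAtlas 2 Y} (P : A.Part)
    (D : A.DAct) {H : Y → ℝ} (hK : A.IsKahler H)
    (hinv : ∀ (c : ℂˣ) y, ‖(c : ℂ)‖ = 1 → H (D.act c y) = H y)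
    (F : Y → ℝ) (hF : ∀ (c : ℂˣ) y, F (c • y) = F y)
    (G : A.ι → E 2 → ℝ) (hG : ∀ a, ContDiffOn ℝ ∞ (G a) (A.U a)) (M : A.ι → Fin 2 → ℝ)
    (hFG : ∀ a, ∀ z ∈ A.U a, z 0 ≠ 0 → z 1 ≠ 0 →
      F (A.γ a z) = G a z + ∑ j, M a j * Real.log (‖z j‖ ^ 2))
    (u : ℝ → ℝ) (hu : ContDiff ℝ ∞ u) :
    P.int (A.resF D H u G M) =
      ((- Real.pi * ∑ k, ∑ j, M (P.a k) j * P.axisInt D H u k j : ℝ) : ℂ) := by
  have h1 : ∀ a i j, ContDiffOn ℝ 1 (ResK.Wf D H u M a i j) (A.U a) := fun a i j =>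
    (ResK.smooth_Wf D hK hinv hu a M i j).of_le (by exact_mod_cast le_top)
  have h2 : ∀ a i, ContDiffOn ℝ 1 (ResK.Rf D H u G a i) (A.U a) := fun a i =>
    (ResK.smooth_Rf D hK hinv hu a hG i).of_le (by exact_mod_cast le_top)
  have h3 : ∀ a b, ∀ᵐ z, z ∈ A.O a b →
      PolAtlas.Part.Law (PolAtlas.Part.polar (ResK.Wf D H u M) (ResK.Rf D H u G)) a b z := by
    intro a b
    filter_upwards [PolAtlas.ae_coord_ne, PolAtlas.ae_coord_τ_ne a b] with z hz hτ hO
    exact ResK.law D hK u hF hG hFG hO hz (hτ hO)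
  have h4 := P.residue (ResK.Wf D H u M) (ResK.Rf D H u G) h1 h2 h3
  have h5 : P.int (A.resF D H u G M) = ∑ k, ∫ z in A.U (P.a k), P.X k (P.a k) z *
      PolAtlas.Part.polarDiv (ResK.Wf D H u M) (ResK.Rf D H u G) (P.a k) z := by
    unfold PolAtlas.Part.int
    refine Finset.sum_congr rfl fun k _ => ?_
    apply integral_congr_ae
    rw [Filter.EventuallyEq, ae_restrict_iff' (A.isOpen_U _).measurableSet]
    filter_upwards [PolAtlas.ae_coord_ne] with z hz hU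
    rw [ResK.polarDiv_eq D hK hinv hu _ hG M hU hz]
  rw [h5, h4]
  have h6 : ∀ k j, ∫ b : E 1, (A.U (P.a k)).indicator
      (fun z => P.X k (P.a k) z * ResK.Wf D H u M (P.a k) j j z) (j.insertNth 0 b) =
      ((M (P.a k) j * P.axisInt D H u k j : ℝ) : ℂ) := by
    intro k j
    rw [integral_E1]
    unfold PolAtlas.Part.axisInt
    rw [← integral_const_mul]
    refine Eq.trans ?_ (integral_ofReal (𝕜 := ℂ))
    congr 1
    ext w
    show (A.U (P.a k)).indicator (fun z => P.X k (P.a k) z * ResK.Wf D H u M (P.a k) j j z)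
      (axis j w) = _
    by_cases hw : axis j w ∈ A.U (P.a k)
    · rw [indicator_of_mem hw, indicator_of_mem hw]
      unfold ResK.Wf PolAtlas.Part.X
      rw [ResK.adj_diag]
      have h7 : hess (A.pot H (P.a k)) (axis j w) (1 - j) (1 - j) =
          ((hess (A.pot H (P.a k)) (axis j w) (1 - j) (1 - j)).re : ℂ) := by
        have h8 := (hK.posDef _ _ hw).1.apply (1 - j) (1 - j)
        apply Complex.ext
        · simp
        · have h9 := congrArg Complex.im h8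
          simp only [star_def, conj_im] at h9
          simp only [ofReal_im]
          linarith
      have h10 : ∀ x y v w : ℂ, x * (y * (v * w)) = w * (x * y * v) := fun x y v w => by ring
      have h11 : ∀ x y v w : ℝ, ((w * (x * y * v) : ℝ) : ℂ) = (w : ℂ) * ((x : ℂ) * y * v) :=
        fun x y v w => by push_cast; rfl
      refine Eq.trans ?_ (h11 _ _ _ _).symm
      refine Eq.trans ?_ (h10 _ _ _ _)
      rw [← h7]
    · rw [indicator_of_notMem hw, indicator_of_notMem hw]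
      simp
  simp_rw [h6]
  push_cast
  rfl

end

end Pool.Agent.YTDA


end

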