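import Pool.Agent.YTDM.P44
import Pool.Agent.YTDM.P47

/- source: Pool.Agent.YTDA.Chart4 -/

section

/-!
# T13: the identities (P1) - (P6) for the definitions of `T13Defs`
-/

namespace Pool.Agent.YTDA

open Complex Set Topology ContDiff ComplexOrder TopologicalSpace

noncomputable section

namespace PolAtlas

variable {n : ℕ} {Y : Type} [MulAction ℂˣ Y] {A : PolAtlas n Y}

section

variable {H : Y → ℝ} (hK : A.IsKahler H) (D : A.DAct)
  (hc : ∀ (c : ℂˣ) y, ‖(c : ℂ)‖ = 1 → H (D.act c y) = H y)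
  {a : A.ι} {z : E n} (hz : z ∈ A.U a)

include hK hc hz in
theorem mu_eq : A.mu D H a z = D.mu H (A.γ a z) := by
  have h := mu_γ hK D hc hz
  have h1 := congrArg re h
  rw [ofReal_re] at h1
  rw [h1, mu, mom, wdz, add_re, intCast_re]

include hK hc in
theorem chMu' (a : A.ι) : ChMu (A.Om a) (D.k a) (D.m a) (A.pot H a) (A.mu D H a) where
  smooth := hK.smooth a
  inv := (chMu hK D hc a).inv
  mu z hz := by
    rw [mu_eq hK D hc hz]
    exact (chMu hK D hc a).mu z hz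

include hK hc in
theorem contDiffOn_mu (a : A.ι) : ContDiffOn ℝ ∞ (A.mu D H a) (A.U a) :=
  (chMu' hK D hc a).smooth_mu

theorem vv_eq : A.vv D H a z = nrm2 (D.k a) (A.pot H a) z := by
  rw [vv, nrm2]
  simp only [map_mul, map_intCast]

include hK hc hz in
theorem vv_eq_nv : A.vv D H a z = D.nv H (A.γ a z) := by
  rw [vv_eq, nv_γ hK D hc hz]

include hK hz in
theorem vv_nonneg : 0 ≤ A.vv D H a z := by
  rw [vv_eq]
  exact nrm2_nonneg (hK.posDef a z hz)

include hK hz in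
theorem vv_pos (h : ∃ j, (D.k a j : ℂ) * z j ≠ 0) : 0 < A.vv D H a z := by
  rw [vv_eq]
  exact nrm2_pos (hK.posDef a z hz) h

include hK hc hz in
theorem mu_fix (h : ∀ j, (D.k a j : ℂ) * z j = 0) : A.mu D H a z = D.m a :=
  (chMu' hK D hc a).mu_fix hz h

include hK in
theorem contDiffOn_vv (a : A.ι) : ContDiffOn ℝ ∞ (A.vv D H a) (A.U a) := by
  have h1 : ContDiffOn ℝ ∞ (fun z => ∑ i, ∑ j, ((D.k a i : ℂ) * z i *
      ((D.k a j : ℂ) * (starRingEnd ℂ) (z j)) * hess (A.pot H a) z i j)) (A.U a) := by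
    have h2 : ∀ i : Fin n, ContDiffOn ℝ ∞ (fun z : E n => z i) (A.U a) := fun i =>
      (contDiff_apply ℝ ℂ i).contDiffOn
    refine ContDiffOn.sum fun i _ => ContDiffOn.sum fun j _ => ?_
    exact ((contDiffOn_const.mul (h2 i)).mul (contDiffOn_const.mul
      (conjCLE.contDiff.comp_contDiffOn (h2 j)))).mul
      (contDiffOn_hess (Ω := A.Om a) (A.pot H a) (hK.smooth a) i j)
  exact reCLM.contDiff.comp_contDiffOn h1

include hK hz in
theorem rho_pos : 0 < A.rho H a z := (pos_iff.1 (hK.posDef a z hz).det_pos).1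

include hK hz in
theorem rho_coe : ((A.rho H a z : ℝ) : ℂ) = (hess (A.pot H a) z).det := by
  apply Complex.ext
  · rw [ofReal_re, rho]
  · rw [ofReal_im]
    exact (pos_iff.1 (hK.posDef a z hz).det_pos).2

include hK in
theorem contDiffOn_rho (a : A.ι) : ContDiffOn ℝ ∞ (A.rho H a) (A.U a) :=
  reCLM.contDiff.comp_contDiffOn (contDiffOn_det_hess (Ω := A.Om a) (A.pot H a) (hK.smooth a))

include hK in
theorem contDiffOn_logdet' (a : A.ι) : ContDiffOn ℝ ∞ (logdet (A.pot H a)) (A.U a) := by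
  refine (contDiffOn_rho hK a).log fun z hz => (rho_pos hK hz).ne'

include hK hc hz in
/-- (P1) -/
theorem dz_mu (i : Fin n) : dz i (fun w => (A.mu D H a w : ℂ)) z =
    ∑ j, (starRingEnd ℂ) (D.k a j * z j) * hess (A.pot H a) z i j :=
  (chMu' hK D hc a).dz_mu hz i

include hK hc hz in
theorem dzb_mu (j : Fin n) : dzb j (fun w => (A.mu D H a w : ℂ)) z =
    ∑ i, D.k a i * z i * hess (A.pot H a) z i j :=
  (chMu' hK D hc a).dzb_mu hz j

include hK hc hz in
theorem adj_dz_mu (j : Fin n) :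
    ∑ i, (hess (A.pot H a) z).adjugate j i * dz i (fun w => (A.mu D H a w : ℂ)) z =
      (A.rho H a z : ℂ) * ((D.k a j : ℂ) * (starRingEnd ℂ) (z j)) := by
  rw [rho_coe hK hz, (chMu' hK D hc a).adj_dz_mu hz j, map_mul, map_intCast]

include hK hc hz in
theorem adj_dzb_mu (i : Fin n) :
    ∑ j, (hess (A.pot H a) z).adjugate j i * dzb j (fun w => (A.mu D H a w : ℂ)) z =
      (A.rho H a z : ℂ) * ((D.k a i : ℂ) * z i) := by
  rw [rho_coe hK hz, (chMu' hK D hc a).adj_dzb_mu hz i]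

include hK hc hz in
/-- (P3) -/
theorem wdz_mu : wdz (D.k a) (fun w => (A.mu D H a w : ℂ)) z = (A.vv D H a z : ℂ) := by
  rw [vv_eq]
  exact (chMu' hK D hc a).V_mu' hz (hK.posDef a z hz)

omit hK hc in
/-- (P6) -/
theorem wdzb_eq_wdz {G : E n → ℂ} (hG : DifferentiableAt ℝ G z)
    (h : ∀ c : ℂˣ, ‖(c : ℂ)‖ = 1 → G (dact (D.k a) c z) = G z) :
    wdzb (D.k a) G z = wdz (D.k a) G z := by
  have h1 := circ_inv hG (D.k a) h
  rw [wdz, wdzb, h1]

omit hK hc in
/-- the conjugate of `wdz` of a real function -/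
theorem conj_wdz {G : E n → ℝ} (k : Fin n → ℤ) :
    (starRingEnd ℂ) (wdz k (fun w => (G w : ℂ)) z) = wdzb k (fun w => (G w : ℂ)) z := by
  rw [wdz, wdzb, map_sum]
  refine Finset.sum_congr rfl fun j _ => ?_
  rw [map_mul, map_mul, map_intCast]
  congr 1
  have h1 : ∀ v, (starRingEnd ℂ) (fderiv ℝ (fun w => (G w : ℂ)) z v) =
      fderiv ℝ (fun w => (G w : ℂ)) z v := by
    intro v
    by_cases hd : DifferentiableAt ℝ G z
    · have h2 : fderiv ℝ (fun w => (G w : ℂ)) z = ofRealCLM.comp (fderiv ℝ G z) :=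
        (ofRealCLM.hasFDerivAt.comp z hd.hasFDerivAt).fderiv
      rw [h2]
      exact conj_ofReal _
    · have h3 : ¬ DifferentiableAt ℝ (fun w => (G w : ℂ)) z := by
        intro h4
        exact hd (reCLM.differentiableAt.comp z h4)
      rw [fderiv_zero_of_not_differentiableAt h3]
      simp
  have h5 : (starRingEnd ℂ) (2 : ℂ) = 2 := Complex.conj_ofNat 2
  rw [dz, dzb, map_div₀, map_sub, map_mul, h1, h1, conj_I, h5]
  ring

omit hK hc in
/-- (P6) for real functions -/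
theorem wdz_real {G : E n → ℝ} (hG : DifferentiableAt ℝ G z)
    (h : ∀ c : ℂˣ, ‖(c : ℂ)‖ = 1 → G (dact (D.k a) c z) = G z) :
    wdz (D.k a) (fun w => (G w : ℂ)) z = ((wdz (D.k a) (fun w => (G w : ℂ)) z).re : ℂ) := by
  have h0 : DifferentiableAt ℝ (fun w => (G w : ℂ)) z :=
    ofRealCLM.differentiableAt.comp z hG
  have h1 := wdzb_eq_wdz D (a := a) h0 (fun c hc => by rw [h c hc])
  rw [← conj_wdz] at h1
  exact (conj_eq_iff_re.1 h1).symm

include hK hc hz in
theorem mu_circle (c : ℂˣ) (hc1 : ‖(c : ℂ)‖ = 1) :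
    A.mu D H a (dact (D.k a) c z) = A.mu D H a z := by
  rw [mu_eq hK D hc hz, mu_eq hK D hc (D.dom a z hz c), mu_γ_dact hK D hz,
    mu_act_circle D hc c hc1]

include hK hc hz in
theorem wdzb_mu : wdzb (D.k a) (fun w => (A.mu D H a w : ℂ)) z = (A.vv D H a z : ℂ) := by
  rw [← wdz_mu hK D hc hz]
  refine wdzb_eq_wdz D ?_ fun c hc1 => by rw [mu_circle hK D hc hz c hc1]
  exact ofRealCLM.differentiableAt.comp z (((contDiffOn_mu hK D hc a).contDiffAt
    ((A.isOpen_U a).mem_nhds hz)).differentiableAt (by simp))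

include hK hc hz in
theorem wdz_pot : (D.m a : ℂ) + wdz (D.k a) (fun w => (A.pot H a w : ℂ)) z =
    (A.mu D H a z : ℂ) := ((chMu' hK D hc a).mu z hz).symm

include hK hc hz in
theorem wdzb_pot : (D.m a : ℂ) + wdzb (D.k a) (fun w => (A.pot H a w : ℂ)) z =
    (A.mu D H a z : ℂ) := by
  rw [← wdz_pot hK D hc hz]
  congr 1
  refine wdzb_eq_wdz D ?_ fun c hc1 => by rw [pot_inv hK D hc hz c hc1]
  exact ofRealCLM.differentiableAt.comp z (((hK.smooth a).contDiffAt
    ((A.isOpen_U a).mem_nhds hz)).differentiableAt (by simp))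

include hK hz in
/-- (P5) -/
theorem trC_pot : A.trC H a (A.pot H a) z = n * (A.rho H a z : ℂ) := by
  rw [rho_coe hK hz]
  exact sum_adj_hess _ _

include hK hc hz in
/-- (P4) -/
theorem trC_mu : A.trC H a (A.mu D H a) z = (A.rho H a z : ℂ) *
    (wdz (D.k a) (fun w => (logdet (A.pot H a) w : ℂ)) z + ((∑ j, D.k a j : ℤ) : ℂ)) := by
  rw [rho_coe hK hz]
  have h := (chMu' hK D hc a).adj_hess_mu (fun z hz => hK.posDef a z hz) hz
  rw [trC, h, wdz]
  push_cast
  rfl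

include hK hz in
theorem trC_inv (G : E n → ℝ) : A.trC H a G z = (A.rho H a z : ℂ) *
    ∑ i, ∑ j, (hess (A.pot H a) z)⁻¹ j i * hess G z i j := by
  have hd : (hess (A.pot H a) z).det ≠ 0 := (hK.posDef a z hz).det_pos.ne'
  rw [trC, rho_coe hK hz, Finset.mul_sum]
  refine Finset.sum_congr rfl fun i _ => ?_
  rw [Finset.mul_sum]
  refine Finset.sum_congr rfl fun j _ => ?_
  rw [Matrix.inv_def, Matrix.smul_apply, Ring.inverse_eq_inv', smul_eq_mul]
  field_simp

end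

/-- (P2) -/
theorem dz_adj {A : PolAtlas 2 Y} {H : Y → ℝ} (hK : A.IsKahler H) {a : A.ι} {z : E 2}
    (hz : z ∈ A.U a) (j : Fin 2) :
    ∑ i, dz i (fun w => (hess (A.pot H a) w).adjugate j i) z = 0 :=
  dz_adj_hess (Ω := A.Om a) (hK.smooth a) hz j

theorem dzb_adj {A : PolAtlas 2 Y} {H : Y → ℝ} (hK : A.IsKahler H) {a : A.ι} {z : E 2}
    (hz : z ∈ A.U a) (i : Fin 2) :
    ∑ j, dzb j (fun w => (hess (A.pot H a) w).adjugate j i) z = 0 :=
  dzb_adj_hess (Ω := A.Om a) (hK.smooth a) hz i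

end PolAtlas

end

end Pool.Agent.YTDA


end

/- source: Pool.Agent.YTDA.T13Fin -/

section

/-!
# T13: end of the proof, given the three residue identities
-/

namespace Pool.Agent.YTDA

open Complex Set Topology ContDiff MeasureTheory ComplexOrder

noncomputable section

theorem contDiffOn_hess_apply {n : ℕ} {U : Set (E n)} (hU : IsOpen U) {φ : E n → ℝ}
    (hφ : ContDiffOn ℝ ∞ φ U) (i j : Fin n) : ContDiffOn ℝ ∞ (fun z => hess φ z i j) U := by
  have h := smooth_ext (dzD i (dzbD j (ofR (Ω := ⟨U, hU⟩) φ hφ)))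
  refine h.congr fun z hz => ?_
  rw [hess_apply_eq (Ω := ⟨U, hU⟩) φ hφ ⟨z, hz⟩ i j]
  exact (ext_mk _ hz).symm

theorem continuousOn_hess_apply {n : ℕ} {U : Set (E n)} (hU : IsOpen U) {φ : E n → ℝ}
    (hφ : ContDiffOn ℝ ∞ φ U) (i j : Fin n) : ContinuousOn (fun z => hess φ z i j) U :=
  (contDiffOn_hess_apply hU hφ i j).continuousOn

theorem continuousOn_det_hess {n : ℕ} {U : Set (E n)} (hU : IsOpen U) {φ : E n → ℝ}
    (hφ : ContDiffOn ℝ ∞ φ U) : ContinuousOn (fun z => (hess φ z).det) U := by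
  have h : ContinuousOn (fun z => hess φ z) U :=
    continuousOn_pi.2 fun i => continuousOn_pi.2 fun j => continuousOn_hess_apply hU hφ i j
  exact (Continuous.matrix_det continuous_id).comp_continuousOn h

theorem continuousOn_mom {n : ℕ} {U : Set (E n)} (hU : IsOpen U) {φ : E n → ℝ}
    (hφ : ContDiffOn ℝ ∞ φ U) (k : Fin n → ℤ) (m : ℤ) : ContinuousOn (mom k m φ) U := by
  have h1 : ContDiffOn ℝ 1 (fun w => (φ w : ℂ)) U :=
    ofRealCLM.contDiff.comp_contDiffOn (hφ.of_le (by exact_mod_cast le_top))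
  have h2 : ContinuousOn (wdz k (fun w => (φ w : ℂ))) U := by
    unfold wdz
    refine continuousOn_finsetSum _ fun j _ => ?_
    exact ((continuousOn_const.mul (continuous_apply j).continuousOn)).mul
      (continuousOn_dz hU h1 j)
  unfold mom
  exact continuousOn_const.add (continuous_re.comp_continuousOn h2)

/-- `|V|²` is positive where `V ≠ 0`. -/
theorem vvec_pos {n : ℕ} {g : Matrix (Fin n) (Fin n) ℂ} (hg : g.PosDef) (k : Fin n → ℤ) (z : E n)
    (h : ∃ j, (k j : ℂ) * z j ≠ 0) :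
    0 < (∑ i, ∑ j, (k i : ℂ) * z i * ((k j : ℂ) * (starRingEnd ℂ) (z j)) * g i j).re := by
  set x : Fin n → ℂ := fun j => (k j : ℂ) * (starRingEnd ℂ) (z j) with hx
  have hx0 : x ≠ 0 := by
    obtain ⟨j, hj⟩ := h
    intro h0
    apply hj
    have h1 := congrFun h0 j
    simp only [hx, Pi.zero_apply, mul_eq_zero, map_eq_zero] at h1
    exact mul_eq_zero.2 h1
  have h1 := hg.dotProduct_mulVec_pos hx0
  have h2 : star x ⬝ᵥ (g.mulVec x) =
      ∑ i, ∑ j, (k i : ℂ) * z i * ((k j : ℂ) * (starRingEnd ℂ) (z j)) * g i j := by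
    unfold dotProduct Matrix.mulVec dotProduct
    refine Finset.sum_congr rfl fun i _ => ?_
    rw [Finset.mul_sum]
    refine Finset.sum_congr rfl fun j _ => ?_
    have h3 : star x i = (k i : ℂ) * z i := by
      rw [Pi.star_apply, hx]
      simp
    rw [h3, hx]
    ring
  rw [← h2]
  exact (Complex.lt_def.1 h1).1

namespace PolAtlas.Part

variable {n : ℕ} {Y : Type} [MulAction ℂˣ Y] {A : PolAtlas n Y} (P : A.Part) (D : A.DAct)
  (H : Y → ℝ)

/-- real integral over `M` -/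
theorem int_re (f : A.ι → E n → ℝ) : (P.int fun a z => (f a z : ℂ)).re =
    ∑ k, ∫ z in A.U (P.a k), P.χ k (A.γ (P.a k) z) * f (P.a k) z := by
  unfold int
  rw [Complex.re_sum]
  refine Finset.sum_congr rfl fun k _ => ?_
  have h1 : ∀ z, P.X k (P.a k) z * (f (P.a k) z : ℂ) =
      ((P.χ k (A.γ (P.a k) z) * f (P.a k) z : ℝ) : ℂ) := by
    intro z
    unfold X
    push_cast
    ring
  simp_rw [h1]
  rw [integral_complex_ofReal, ofReal_re]

/-- `∫ k(μ) ρ` -/
def dhI (k : ℝ → ℝ) : ℝ := (P.int fun a z => ((k (A.mu D H a z) * A.rho H a z : ℝ) : ℂ)).re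

/-- `∫ k(μ) P(μ) |V|² ρ` -/
def dhL (q : ℝ) (k : ℝ → ℝ) : ℝ :=
  (P.int fun a z => ((k (A.mu D H a z) * PP q (A.mu D H a z) * A.vv D H a z *
    A.rho H a z : ℝ) : ℂ)).re

theorem dhI_smul (c : ℝ) (k : ℝ → ℝ) : P.dhI D H (fun x => c * k x) = c * P.dhI D H k := by
  unfold dhI
  rw [P.int_re (fun a z => c * k (A.mu D H a z) * A.rho H a z),
    P.int_re (fun a z => k (A.mu D H a z) * A.rho H a z), Finset.mul_sum]
  refine Finset.sum_congr rfl fun i _ => ?_
  rw [← integral_const_mul]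
  congr 1
  ext z
  ring

theorem dhL_zero (q : ℝ) : P.dhL D H q (fun _ => 0) = 0 := by
  unfold dhL
  rw [P.int_re (fun a z => 0 * PP q (A.mu D H a z) * A.vv D H a z * A.rho H a z)]
  refine Finset.sum_eq_zero fun i _ => ?_
  simp

theorem χ_zero (k : Fin P.m) {z : E n} (hz : z ∈ A.U (P.a k)) (hzK : z ∉ P.K k) :
    P.χ k (A.γ (P.a k) z) = 0 := by
  have := P.X_zero k hz hzK
  unfold X at this
  exact ofReal_eq_zero.1 this

theorem integrableOn_χ (k : Fin P.m) {f : E n → ℝ} (hf : ContinuousOn f (A.U (P.a k))) :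
    IntegrableOn (fun z => P.χ k (A.γ (P.a k) z) * f z) (A.U (P.a k)) := by
  have hU := A.isOpen_U (P.a k)
  have hc : ContinuousOn (fun z => P.χ k (A.γ (P.a k) z) * f z) (A.U (P.a k)) :=
    ((P.smooth k (P.a k)).continuousOn).mul hf
  have h0 : ∀ z ∈ A.U (P.a k), z ∉ P.K k → P.χ k (A.γ (P.a k) z) * f z = 0 := fun z hz hz' => by
    rw [P.χ_zero k hz hz', zero_mul]
  rw [← integrable_indicator_iff hU.measurableSet]
  exact (cut_continuous hU (P.cpt k) (P.sub k) hc h0).integrable_of_hasCompactSupport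
    (cut_compact (P.cpt k) h0)

variable {H}

theorem rho_pos (hK : A.IsKahler H) (a : A.ι) {z : E n} (hz : z ∈ A.U a) : 0 < A.rho H a z :=
  (Complex.lt_def.1 (hK.posDef a z hz).det_pos).1

/-- **H3** -/
theorem dh_lower {q : ℝ} (hq : 0 < q) (hK : A.IsKahler H)
    (hm : ∀ a, (A.U a).Nonempty → 4 * q ≤ |(D.m a : ℝ)|) :
    ∃ c > 0, ∀ k : ℝ → ℝ, ContDiff ℝ ∞ k → (∀ x, 0 ≤ k x) →
      (∀ x, 39 / 10 * q ≤ |x| → k x = 0) → c * P.dhI D H k ≤ P.dhL D H q k := by
  have hmu : ∀ a, ContinuousOn (A.mu D H a) (A.U a) := fun a =>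
    continuousOn_mom (A.isOpen_U a) (hK.smooth a) _ _
  have hrho : ∀ a, ContinuousOn (A.rho H a) (A.U a) := fun a =>
    continuous_re.comp_continuousOn (continuousOn_det_hess (A.isOpen_U a) (hK.smooth a))
  have hvv : ∀ a, ContinuousOn (A.vv D H a) (A.U a) := by
    intro a
    refine continuous_re.comp_continuousOn ?_
    refine continuousOn_finsetSum _ fun i _ => continuousOn_finsetSum _ fun j _ => ?_
    refine ContinuousOn.mul ?_ (continuousOn_hess_apply (A.isOpen_U a) (hK.smooth a) i j)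
    have : Continuous fun z : E n => (D.k a i : ℂ) * z i * ((D.k a j : ℂ) * (starRingEnd ℂ) (z j)) := by
      have h1 : Continuous fun z : E n => (starRingEnd ℂ) (z j) :=
        Complex.continuous_conj.comp (continuous_apply j)
      fun_prop
    exact this.continuousOn
  have hPm : ∀ a, ContinuousOn (fun z => PP q (A.mu D H a z)) (A.U a) := fun a =>
    (continuous_PP q).comp_continuousOn (hmu a)
  -- positivity
  have hpos : ∀ a, ∀ z ∈ A.U a, |A.mu D H a z| ≤ 39 / 10 * q →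
      0 < PP q (A.mu D H a z) * A.vv D H a z := by
    intro a z hz hle
    have hle' := abs_le.1 hle
    refine mul_pos ?_ ?_
    · unfold PP
      exact mul_pos (by linarith [hle'.1]) (by linarith [hle'.2])
    · apply vvec_pos (hK.posDef a z hz)
      by_contra h
      push Not at h
      have h1 : A.mu D H a z = D.m a := by
        show mom (D.k a) (D.m a) (A.pot H a) z = _
        unfold mom wdz
        have h2 : ∑ j, (D.k a j : ℂ) * z j * dz j (fun w => (A.pot H a w : ℂ)) z = 0 :=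
          Finset.sum_eq_zero fun j _ => by rw [h j, zero_mul]
        rw [h2, zero_re, add_zero]
      have h3 := hm a ⟨z, hz⟩
      rw [h1] at hle
      linarith
  -- lower bounds on the compact pieces
  have h1 : ∀ k, ∃ c > 0, ∀ z ∈ P.K k, |A.mu D H (P.a k) z| ≤ 39 / 10 * q →
      c ≤ PP q (A.mu D H (P.a k) z) * A.vv D H (P.a k) z := by
    intro k
    have hc1 : ContinuousOn (fun z => |A.mu D H (P.a k) z|) (P.K k) :=
      ((hmu (P.a k)).mono (P.sub k)).abs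
    have hcl : IsClosed (P.K k ∩ (fun z => |A.mu D H (P.a k) z|) ⁻¹' Iic (39 / 10 * q)) :=
      hc1.preimage_isClosed_of_isClosed (P.cpt k).isClosed isClosed_Iic
    have hcp : IsCompact (P.K k ∩ (fun z => |A.mu D H (P.a k) z|) ⁻¹' Iic (39 / 10 * q)) :=
      (P.cpt k).of_isClosed_subset hcl inter_subset_left
    rcases (P.K k ∩ (fun z => |A.mu D H (P.a k) z|) ⁻¹' Iic (39 / 10 * q)).eq_empty_or_nonempty
      with he | hne
    · refine ⟨1, one_pos, fun z hz hz' => ?_⟩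
      exfalso
      have : z ∈ P.K k ∩ (fun z => |A.mu D H (P.a k) z|) ⁻¹' Iic (39 / 10 * q) := ⟨hz, hz'⟩
      rw [he] at this
      exact this
    · obtain ⟨z₀, hz₀, hmin⟩ := hcp.exists_isMinOn hne
        ((((hPm (P.a k)).mul (hvv (P.a k))).mono (P.sub k)).mono inter_subset_left)
      refine ⟨_, hpos (P.a k) z₀ (P.sub k hz₀.1) hz₀.2, fun z hz hz' => ?_⟩
      exact hmin ⟨hz, hz'⟩
  choose c hc0 hc using h1
  refine ⟨(∏ k, min (c k) 1), Finset.prod_pos fun k _ => lt_min (hc0 k) one_pos, ?_⟩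
  set C := ∏ k, min (c k) 1 with hC
  have hCle : ∀ k, C ≤ c k := by
    intro k
    calc ∏ k, min (c k) 1 ≤ min (c k) 1 := by
          rw [← Finset.mul_prod_erase Finset.univ _ (Finset.mem_univ k)]
          refine mul_le_of_le_one_right (le_min (hc0 k).le zero_le_one) ?_
          exact Finset.prod_le_one (fun i _ => le_min (hc0 i).le zero_le_one)
            (fun i _ => min_le_right _ _)
      _ ≤ c k := min_le_left _ _
  intro k hk hk0 hks
  have hkc : Continuous k := hk.continuous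
  unfold dhI dhL
  rw [P.int_re (fun a z => k (A.mu D H a z) * A.rho H a z),
    P.int_re (fun a z => k (A.mu D H a z) * PP q (A.mu D H a z) * A.vv D H a z * A.rho H a z),
    Finset.mul_sum]
  refine Finset.sum_le_sum fun i _ => ?_
  rw [← integral_const_mul]
  have hkm : ContinuousOn (fun z => k (A.mu D H (P.a i) z)) (A.U (P.a i)) :=
    hkc.comp_continuousOn (hmu _)
  refine setIntegral_mono_on ?_ ?_ (A.isOpen_U _).measurableSet ?_
  · exact (P.integrableOn_χ i (hkm.mul (hrho _))).const_mul C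
  · exact P.integrableOn_χ i (((hkm.mul (hPm _)).mul (hvv _)).mul (hrho _))
  · intro z hz
    by_cases hzK : z ∈ P.K i
    · by_cases hle : |A.mu D H (P.a i) z| ≤ 39 / 10 * q
      · have h2 := (hCle i).trans (hc i z hzK hle)
        have h3 := P.nonneg i (A.γ (P.a i) z)
        have h4 := hk0 (A.mu D H (P.a i) z)
        have h5 := (rho_pos hK (P.a i) hz).le
        have h6 : 0 ≤ P.χ i (A.γ (P.a i) z) * k (A.mu D H (P.a i) z) * A.rho H (P.a i) z :=
          mul_nonneg (mul_nonneg h3 h4) h5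
        calc C * (P.χ i (A.γ (P.a i) z) * (k (A.mu D H (P.a i) z) * A.rho H (P.a i) z))
            = (P.χ i (A.γ (P.a i) z) * k (A.mu D H (P.a i) z) * A.rho H (P.a i) z) * C := by ring
          _ ≤ (P.χ i (A.γ (P.a i) z) * k (A.mu D H (P.a i) z) * A.rho H (P.a i) z) *
              (PP q (A.mu D H (P.a i) z) * A.vv D H (P.a i) z) :=
            mul_le_mul_of_nonneg_left h2 h6
          _ = _ := by ring
      · have h2 := hks (A.mu D H (P.a i) z) (le_of_lt (not_le.1 hle))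
        rw [h2]
        simp
    · rw [P.χ_zero i hz hzK]
      simp

/-- **T13**, given the three residue identities. -/
theorem t13_of {q t : ℝ} (hq : 0 < q) (ht : 0 < t) (hK : A.IsKahler H)
    (hm : ∀ a, (A.U a).Nonempty → 4 * q ≤ |(D.m a : ℝ)|) (s α β : ℝ)
    (F1 : ∀ u : ℝ → ℝ, ContDiff ℝ ∞ u → P.dhI D H (deriv u) = Real.pi ^ 2 *
      (-u (-(5 * q)) * α + u (5 * q) * β - 100 * t * (∫ x in (-(5 * q))..(-(4 * q)), u x) +
        100 * t * (∫ x in (4 * q)..(5 * q), u x)))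
    (F2 : ∀ u : ℝ → ℝ, ContDiff ℝ ∞ u →
      P.dhI D H (fun x => 2 * u x + (x + 5 * q) * deriv u x) = Real.pi ^ 2 *
      (105 * t * q * (∫ x in (-(5 * q))..(5 * q), u x) -
        q * (100 * t) * (∫ x in (-(5 * q))..(-(4 * q)), u x) +
        9 * q * (100 * t) * (∫ x in (4 * q)..(5 * q), u x) + 10 * q * β * u (5 * q)))
    (F3 : ∀ f : ℝ → ℝ, ContDiff ℝ ∞ f →
      P.dhL D H q (deriv (deriv f)) + s * P.dhI D H (fun x => f x * PP q x) =
      100 * q * P.dhI D H f + Real.pi ^ 2 *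
      (f (-(5 * q)) * PP q (-(5 * q)) * α + f (5 * q) * PP q (5 * q) * β -
        18 * t * (∫ x in (-(5 * q))..(5 * q), f x * PP q x))) : False :=
  dh_final hq ht (P.dhI D H) (P.dhL D H q) s α β (P.dhL_zero D H q) (P.dhI_smul D H) F1 F2 F3
    (P.dh_lower D hq hK hm)

end PolAtlas.Part

end

end Pool.Agent.YTDA


end

/- source: Pool.Agent.YTDA.F1 -/

section

/-!
# T13, F1: the residue identity for `log |w|²`
-/

namespace Pool.Agent.YTDA

open Complex Set Topology ContDiff MeasureTheory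
open Pool.Agent.YTD

noncomputable section

theorem hess_zero {n : ℕ} (z : E n) : hess (fun _ : E n => (0 : ℝ)) z = 0 := by
  ext i j
  unfold hess dz dzb
  simp

theorem wdzb_zero {n : ℕ} (k : Fin n → ℤ) (z : E n) :
    wdzb k (fun _ : E n => ((0 : ℝ) : ℂ)) z = 0 := by
  unfold wdzb dzb
  simp

namespace PolAtlas.Part

variable {n : ℕ} {Y : Type} [MulAction ℂˣ Y] {A : PolAtlas n Y} (P : A.Part)

theorem int_congr {f g : A.ι → E n → ℂ} (h : ∀ a, ∀ z ∈ A.U a, f a z = g a z) :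
    P.int f = P.int g := by
  unfold int
  refine Finset.sum_congr rfl fun k _ => ?_
  refine setIntegral_congr_fun (A.isOpen_U _).measurableSet fun z hz => ?_
  show P.X k (P.a k) z * f (P.a k) z = P.X k (P.a k) z * g (P.a k) z
  rw [h _ z hz]

end PolAtlas.Part

section Sig

variable {K : Type} [Field K] [Algebra ℂ K] {T : Datum K} {q : ℕ} {D₀ : T.X.Pt →₀ ℤ}
  {An : AnCurve T.X.toCurveOrd}

open Classical in
/-- multiplicities of `w` along the coordinate axes -/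
def wm (T : Datum K) (P : T.X.Pt) (i : Fin 3) (j : Fin 2) : ℝ :=
  if i = 0 then (if j = 0 then (if P ∈ T.S' then 1 else 0) else 1)
  else if i = 1 then (if j = 0 then (if P ∈ T.S then -1 else 0) else -1)
  else (if j = 0 then (if P ∈ T.S then -1 else 1) else 0)

theorem log_wco (P : T.X.Pt) (i : Fin 3) {z : E 2} (h0 : z 0 ≠ 0) (h1 : z 1 ≠ 0) :
    Real.log (‖wco T P i z‖ ^ 2) = ∑ j, wm T P i j * Real.log (‖z j‖ ^ 2) := by
  have n0 : ‖z 0‖ ≠ 0 := norm_ne_zero_iff.2 h0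
  have n1 : ‖z 1‖ ≠ 0 := norm_ne_zero_iff.2 h1
  rw [Fin.sum_univ_two]
  fin_cases i
  · by_cases hP : P ∈ T.S'
    · simp only [wco, wm, hP, Fin.zero_eta, Fin.isValue, ↓reduceIte, one_ne_zero, one_mul,
        norm_mul, Real.log_pow]
      rw [Real.log_mul n0 n1]
      ring
    · simp [wco, wm, hP]
  · by_cases hP : P ∈ T.S
    · simp only [wco, wm, hP, Fin.mk_one, Fin.isValue, one_ne_zero, ↓reduceIte,
        norm_mul, norm_inv, Real.log_pow, Real.log_inv]
      rw [Real.log_mul n0 n1]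
      ring
    · simp [wco, wm, hP]
  · by_cases hP : P ∈ T.S <;> simp [wco, wm, hP]

namespace SigModel

variable (M : SigModel T q D₀ An)

/-- every chart with nonempty domain -/
theorem sum_wm {P : T.X.Pt} {i : Fin 3} {z : E 2} (hz : z ∈ M.A.U (M.e (P, i))) :
    ∑ j, wm T P i j * (M.D.k (M.e (P, i)) j : ℝ) = 1 := by
  rw [Fin.sum_univ_two]
  fin_cases i
  · have h := (M.k_bot P).1
    show wm T P 0 0 * (M.D.k (M.e (P, 0)) 0 : ℝ) + wm T P 0 1 * (M.D.k (M.e (P, 0)) 1 : ℝ) = 1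
    rw [h]
    simp [wm]
  · have h := (M.k_top P).1
    show wm T P 1 0 * (M.D.k (M.e (P, 1)) 0 : ℝ) + wm T P 1 1 * (M.D.k (M.e (P, 1)) 1 : ℝ) = 1
    rw [h]
    simp [wm]
  · show wm T P 2 0 * (M.D.k (M.e (P, 2)) 0 : ℝ) + wm T P 2 1 * (M.D.k (M.e (P, 2)) 1 : ℝ) = 1
    by_cases hP : P ∈ T.S
    · rw [(M.k_mid P hP).1]
      simp [wm, hP]
    · by_cases hP' : P ∈ T.S'
      · rw [(M.k_mid' P hP').1]
        simp [wm, hP]
      · have hz' : z ∈ M.A.U (M.e (P, 2)) := hz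
        rw [M.U_mid' P hP hP'] at hz'
        exact hz'.elim

/-- general points -/
def IsGen (y : M.Y) (x : ℝ) : Prop := ∃ (P : T.X.Pt) (i : Fin 3) (z : E 2) (c : ℂˣ),
  z ∈ M.A.U (M.e (P, i)) ∧ z 0 ≠ 0 ∧ z 1 ≠ 0 ∧ y = c • M.A.γ (M.e (P, i)) z ∧
  x = Real.log (‖wco T P i z‖ ^ 2)

open Classical in
/-- the function `log |w|²` -/
def lw (y : M.Y) : ℝ := if h : ∃ x, M.IsGen y x then h.choose else 0

theorem lw_γ {P : T.X.Pt} {i : Fin 3} {z : E 2} (hz : z ∈ M.A.U (M.e (P, i))) (h0 : z 0 ≠ 0)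
    (h1 : z 1 ≠ 0) : M.lw (M.A.γ (M.e (P, i)) z) = Real.log (‖wco T P i z‖ ^ 2) := by
  have h : ∃ x, M.IsGen (M.A.γ (M.e (P, i)) z) x :=
    ⟨_, P, i, z, 1, hz, h0, h1, (one_smul _ _).symm, rfl⟩
  unfold lw
  rw [dif_pos h]
  obtain ⟨Q, j, z', c, hz', h0', h1', hy, hx⟩ := h.choose_spec
  rw [hx]
  have h2 : M.A.γ (M.e (Q, j)) z' = c⁻¹ • M.A.γ (M.e (P, i)) z := by
    rw [hy, inv_smul_smul]
  rw [(M.same_o hz hz' h0 h1 h0' h1' h2).2]

theorem isGen_smul (c : ℂˣ) (y : M.Y) (x : ℝ) : M.IsGen (c • y) x ↔ M.IsGen y x := by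
  constructor
  · rintro ⟨P, i, z, d, hz, h0, h1, hy, hx⟩
    refine ⟨P, i, z, c⁻¹ * d, hz, h0, h1, ?_, hx⟩
    rw [← smul_smul, ← hy, inv_smul_smul]
  · rintro ⟨P, i, z, d, hz, h0, h1, hy, hx⟩
    refine ⟨P, i, z, c * d, hz, h0, h1, ?_, hx⟩
    rw [← smul_smul, ← hy]

theorem lw_smul (c : ℂˣ) (y : M.Y) : M.lw (c • y) = M.lw y := by
  have h : M.IsGen (c • y) = M.IsGen y := by
    ext x
    exact M.isGen_smul c y x
  classical
  have h2 : ∀ p p' : ℝ → Prop, p = p' →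
      (if h : ∃ x, p x then h.choose else 0) = (if h : ∃ x, p' x then h.choose else 0) := by
    rintro p _ rfl
    rfl
  unfold lw
  convert h2 _ _ h

/-- **F1** -/
theorem f1 (Q : M.A.Part) {H : M.Y → ℝ} (L : Labels M.A M.D) (Mv : L.V → ℝ) (s : Finset L.V)
    (hlab : ∀ P i j, (M.A.U (M.e (P, i))).Nonempty →
      (L.lab (M.e (P, i)) j).mult 1 (-1) Mv = wm T P i j)
    (u : ℝ → ℝ) (R : ℝ)
    (hres : Q.int (M.A.resF M.D H u (fun _ _ => 0) (fun a j => (L.lab a j).mult 1 (-1) Mv)) =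
      (R : ℂ)) : Q.dhI M.D H (deriv u) = R := by
  have h1 : Q.int (M.A.resF M.D H u (fun _ _ => 0) (fun a j => (L.lab a j).mult 1 (-1) Mv)) =
      Q.int (fun a z => ((deriv u (M.A.mu M.D H a z) * M.A.rho H a z : ℝ) : ℂ)) := by
    apply Q.int_congr
    intro a z hz
    obtain ⟨⟨P, i⟩, rfl⟩ := M.e.surjective a
    unfold PolAtlas.resF
    have h2 : M.A.trC H (M.e (P, i)) (fun _ => 0) z = 0 := by
      unfold PolAtlas.trC
      rw [hess_zero]
      simp
    have h3 : ∑ j, (L.lab (M.e (P, i)) j).mult 1 (-1) Mv * (M.D.k (M.e (P, i)) j : ℝ) = 1 := by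
      refine Eq.trans ?_ (M.sum_wm hz)
      refine Finset.sum_congr rfl fun j _ => ?_
      rw [hlab P i j ⟨z, hz⟩]
    rw [h2, wdzb_zero, h3]
    push_cast
    ring
  unfold PolAtlas.Part.dhI
  rw [← h1, hres, ofReal_re]

end SigModel

end Sig

end

end Pool.Agent.YTDA


end

/- source: Pool.Agent.YTDA.F3Loc -/

section

/-!
# Local facts on `F = log det + log P(μ)`
-/

set_option autoImplicit false

namespace Pool.Agent.YTDA

open Complex Set Topology ContDiff Filter TopologicalSpace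

noncomputable section

theorem f3_hasDerivAt_PP (q x : ℝ) : HasDerivAt (PP q) (-18 * x) x := by
  have h : PP q = fun x : ℝ => (25 * q) ^ 2 - 9 * x ^ 2 := by
    funext x
    unfold PP
    ring
  rw [h]
  have h1 := ((hasDerivAt_pow 2 x).const_mul 9).const_sub ((25 * q) ^ 2)
  refine h1.congr_deriv ?_
  norm_num
  ring

theorem f3_contDiff_PP (q : ℝ) : ContDiff ℝ ∞ (PP q) := by
  unfold PP
  fun_prop

section Wdz

variable {n : ℕ}

/-- derivative of a real function in terms of `dz` -/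
theorem mi_fderiv_ofReal {φ : E n → ℝ} {z : E n} (hφ : DifferentiableAt ℝ φ z) (u : E n) :
    fderiv ℝ (fun w => (φ w : ℂ)) z u = ((fderiv ℝ φ z u : ℝ) : ℂ) := by
  have h : HasFDerivAt (fun w => (φ w : ℂ)) (Complex.ofRealCLM.comp (fderiv ℝ φ z)) z :=
    Complex.ofRealCLM.hasFDerivAt.comp z hφ.hasFDerivAt
  rw [h.fderiv]
  rfl

theorem mi_dzb_ofReal {φ : E n → ℝ} {z : E n} (hφ : DifferentiableAt ℝ φ z) (i : Fin n) :
    dzb i (fun w => (φ w : ℂ)) z = (starRingEnd ℂ) (dz i (fun w => (φ w : ℂ)) z) := by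
  unfold dz dzb
  rw [mi_fderiv_ofReal hφ, mi_fderiv_ofReal hφ]
  simp only [map_div₀, map_sub, map_mul, conj_I, map_ofNat, conj_ofReal]
  ring

theorem mi_fderiv_real {φ : E n → ℝ} {z : E n} (hφ : DifferentiableAt ℝ φ z) (u : E n) :
    fderiv ℝ φ z u = 2 * (∑ j, u j * dz j (fun w => (φ w : ℂ)) z).re := by
  have h1 := fderiv_eq_dz_dzb (fun w => (φ w : ℂ)) z u
  rw [mi_fderiv_ofReal hφ] at h1
  have h2 := congrArg Complex.re h1
  rw [ofReal_re, Complex.re_sum] at h2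
  rw [h2, Complex.re_sum, Finset.mul_sum]
  refine Finset.sum_congr rfl fun j _ => ?_
  rw [mi_dzb_ofReal hφ, ← map_mul, Complex.add_re, Complex.conj_re, mul_comm (u j)]
  ring

/-- `e^t` as a unit -/
def f3u (t : ℝ) : ℂˣ := Units.mk0 (Complex.exp t) (Complex.exp_ne_zero _)

theorem f3u_coe (t : ℝ) : ((f3u t : ℂˣ) : ℂ) = Complex.exp t := rfl

theorem f3u_zero : f3u 0 = 1 := by
  ext; simp [f3u_coe]

theorem norm_f3u_zpow (t : ℝ) (m : ℤ) : Real.log (‖((f3u t ^ m : ℂˣ) : ℂ)‖ ^ 2) = 2 * m * t := by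
  rw [Units.val_zpow_eq_zpow_val, norm_zpow, f3u_coe, Complex.norm_exp, ofReal_re, Real.log_pow,
    Real.log_zpow, Real.log_exp]
  push_cast
  ring

theorem f3_hasDerivAt_dact_u (k : Fin n → ℤ) (z : E n) :
    HasDerivAt (fun t : ℝ => dact k (f3u t) z) (fun j => (k j : ℂ) * z j) 0 := by
  rw [hasDerivAt_pi]
  intro j
  unfold dact
  simp only [Units.val_zpow_eq_zpow_val, f3u_coe, ← Complex.exp_int_mul]
  have h0 : HasDerivAt (fun t : ℝ => (t : ℂ)) 1 (0 : ℝ) := Complex.ofRealCLM.hasDerivAt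
  have h1 : HasDerivAt (fun t : ℝ => (k j : ℂ) * t) ((k j : ℂ) * 1) 0 := h0.const_mul (k j : ℂ)
  have h2 := h1.cexp.mul_const (z j)
  simpa using h2

theorem f3_dact_one (k : Fin n → ℤ) (z : E n) : dact k 1 z = z := by
  funext j; simp [dact]

theorem f3_dact_mul (k : Fin n → ℤ) (c c' : ℂˣ) (z : E n) :
    dact k (c * c') z = dact k c (dact k c' z) := by
  funext j; simp [dact, mul_zpow, mul_assoc]

/-! ## Circle invariant functions -/

/-- `i ∑ k_j z_j ∂_j f` is real for a circle invariant real function -/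
theorem f3_wdz_im_of_inv {φ : E n → ℝ} {k : Fin n → ℤ} {z : E n} (hφ : DifferentiableAt ℝ φ z)
    (hinv : ∀ c : ℂˣ, ‖(c : ℂ)‖ = 1 → φ (dact k c z) = φ z) :
    wdzb k (fun w => (φ w : ℂ)) z = wdz k (fun w => (φ w : ℂ)) z ∧
      (wdz k (fun w => (φ w : ℂ)) z).im = 0 := by
  have hd : HasDerivAt (fun t : ℝ => dact k (Units.mk0 (Complex.exp (t * I)) (exp_ne_zero _)) z)
      (fun j => (k j : ℂ) * I * z j) 0 := by
    rw [hasDerivAt_pi]
    intro j
    unfold dact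
    simp only [Units.val_zpow_eq_zpow_val, Units.val_mk0, ← Complex.exp_int_mul]
    have h0 : HasDerivAt (fun t : ℝ => (t : ℂ)) 1 (0 : ℝ) := Complex.ofRealCLM.hasDerivAt
    have h1 : HasDerivAt (fun t : ℝ => (k j : ℂ) * (t * I)) ((k j : ℂ) * (1 * I)) 0 :=
      (h0.mul_const I).const_mul (k j : ℂ)
    have h2 := h1.cexp.mul_const (z j)
    simpa using h2
  have e0 : dact k (Units.mk0 (Complex.exp (((0 : ℝ) : ℂ) * I)) (exp_ne_zero _)) z = z := by
    have : (Units.mk0 (Complex.exp (((0 : ℝ) : ℂ) * I)) (exp_ne_zero _)) = 1 := by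
      ext; simp
    rw [this, f3_dact_one]
  have h5 : HasFDerivAt φ (fderiv ℝ φ z)
      (dact k (Units.mk0 (Complex.exp (((0 : ℝ) : ℂ) * I)) (exp_ne_zero _)) z) := by
    rw [e0]
    exact hφ.hasFDerivAt
  have h6 := h5.comp_hasDerivAt 0 hd
  have h7 : (φ ∘ fun t : ℝ => dact k (Units.mk0 (Complex.exp (t * I)) (exp_ne_zero _)) z) =
      fun _ => φ z := by
    funext t
    exact hinv _ (by rw [Units.val_mk0, Complex.norm_exp_ofReal_mul_I])
  rw [h7] at h6
  have h8 := h6.unique (hasDerivAt_const (0 : ℝ) (φ z))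
  rw [mi_fderiv_real hφ] at h8
  have h9 : ∑ j, (k j : ℂ) * I * z j * dz j (fun w => (φ w : ℂ)) z =
      I * wdz k (fun w => (φ w : ℂ)) z := by
    unfold wdz
    rw [Finset.mul_sum]
    exact Finset.sum_congr rfl fun j _ => by ring
  rw [h9, Complex.I_mul_re] at h8
  have h10 : (wdz k (fun w => (φ w : ℂ)) z).im = 0 := by linarith
  have h11 : wdzb k (fun w => (φ w : ℂ)) z =
      (starRingEnd ℂ) (wdz k (fun w => (φ w : ℂ)) z) := by
    unfold wdz wdzb
    rw [map_sum]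
    refine Finset.sum_congr rfl fun j _ => ?_
    rw [mi_dzb_ofReal hφ, map_mul, map_mul, map_intCast]
  refine ⟨?_, h10⟩
  rw [h11]
  exact Complex.conj_eq_iff_im.2 h10


/-- functions invariant under the action of `ℂˣ` -/
theorem f3_wdzb_of_inv {φ : E n → ℝ} {k : Fin n → ℤ} {z : E n} (hφ : DifferentiableAt ℝ φ z)
    (hinv : ∀ c : ℂˣ, φ (dact k c z) = φ z) : wdzb k (fun w => (φ w : ℂ)) z = 0 := by
  obtain ⟨h1, h2⟩ := f3_wdz_im_of_inv hφ fun c _ => hinv c
  rw [h1]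
  have h4 := f3_hasDerivAt_dact_u k z
  have h5 : HasFDerivAt φ (fderiv ℝ φ z) (dact k (f3u 0) z) := by
    rw [f3u_zero, f3_dact_one]
    exact hφ.hasFDerivAt
  have h6 := h5.comp_hasDerivAt 0 h4
  have h7 : (φ ∘ fun t : ℝ => dact k (f3u t) z) = fun _ => φ z := by
    funext t
    exact hinv _
  rw [h7] at h6
  have h8 := h6.unique (hasDerivAt_const (0 : ℝ) (φ z))
  rw [mi_fderiv_real hφ] at h8
  apply Complex.ext
  · rw [zero_re]
    unfold wdz
    linarith
  · rw [h2, zero_im]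

end Wdz

namespace PolAtlas

variable {n : ℕ} {Y : Type} [MulAction ℂˣ Y] {A : PolAtlas n Y} {D : A.DAct} {H : Y → ℝ}

section

variable (hK : A.IsKahler H) (hinv : ∀ (c : ℂˣ) y, ‖(c : ℂ)‖ = 1 → H (D.act c y) = H y)

include hK hinv

theorem f3_mu_eq {a : A.ι} {z : E n} (hz : z ∈ A.U a) : A.mu D H a z = D.mu H (A.γ a z) := by
  have h := congrArg Complex.re (mu_γ hK D hinv hz)
  rw [ofReal_re] at h
  rw [h]
  unfold mu mom wdz
  simp

theorem f3_chMu (a : A.ι) : ChMu (A.Om a) (D.k a) (D.m a) (A.pot H a) (A.mu D H a) where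
  smooth := hK.smooth a
  inv _ hz c hc1 := pot_inv hK D hinv hz c hc1
  mu _ hz := by
    rw [f3_mu_eq hK hinv hz]
    exact mu_γ hK D hinv hz

theorem f3_mu_compat {a b : A.ι} {z z' : E n} (hz : z ∈ A.U a)
    (hz' : z' ∈ A.U b) {c : ℂˣ} (h : A.γ b z' = c • A.γ a z) :
    A.mu D H b z' = A.mu D H a z := by
  rw [f3_mu_eq hK hinv hz, f3_mu_eq hK hinv hz', h, mu_smul hK]

theorem f3_mu_dact {a : A.ι} {z : E n} (hz : z ∈ A.U a) {c : ℂˣ} (hc : ‖(c : ℂ)‖ = 1) :
    A.mu D H a (dact (D.k a) c z) = A.mu D H a z := by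
  rw [f3_mu_eq hK hinv hz, f3_mu_eq hK hinv (D.dom a z hz c), mu_γ_dact hK D hz,
    mu_act_circle D hinv c hc]

/-- `V μ = |V|²` -/
theorem f3_wdz_mu {a : A.ι} {z : E n} (hz : z ∈ A.U a) :
    wdz (D.k a) (fun w => (A.mu D H a w : ℂ)) z = (A.vv D H a z : ℂ) := by
  have h := (f3_chMu hK hinv a).V_mu' hz (hK.posDef a z hz)
  have h2 : nrm2 (D.k a) (A.pot H a) z = A.vv D H a z := by
    unfold nrm2 vv
    congr 1
    refine Finset.sum_congr rfl fun i _ => Finset.sum_congr rfl fun j _ => ?_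
    rw [map_mul, map_intCast]
  rw [← h2, ← h]
  rfl

/-- (P4) -/
theorem f3_trC_mu {a : A.ι} {z : E n} (hz : z ∈ A.U a) :
    A.trC H a (A.mu D H a) z = (A.rho H a z : ℂ) *
      (wdz (D.k a) (fun w => (logdet (A.pot H a) w : ℂ)) z + ((∑ j, (D.k a j : ℝ) : ℝ) : ℂ)) := by
  have h := (f3_chMu hK hinv a).adj_hess_mu (fun z hz => hK.posDef a z hz) hz
  unfold trC
  rw [h]
  have h2 : (hess (A.pot H a) z).det = (A.rho H a z : ℂ) := by
    unfold rho
    exact Pl.det_eq_re (hK.posDef a z hz)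
  rw [h2]
  push_cast
  rfl

theorem f3_contDiffOn_mu (a : A.ι) : ContDiffOn ℝ ∞ (A.mu D H a) (A.U a) :=
  (f3_chMu hK hinv a).smooth_mu

end

section

variable (hK : A.IsKahler H)

include hK

theorem f3_contDiffAt_pot {a : A.ι} {z : E n} (hz : z ∈ A.U a) :
    ContDiffAt ℝ ∞ (A.pot H a) z :=
  (hK.smooth a).contDiffAt ((A.isOpen_U a).mem_nhds hz)

theorem f3_contDiffOn_logdet (a : A.ι) : ContDiffOn ℝ ∞ (logdet (A.pot H a)) (A.U a) :=
  fun z hz => (Pl.contDiffAt_logdet (f3_contDiffAt_pot hK hz)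
    (hK.posDef a z hz)).contDiffWithinAt

theorem f3_rho_pos {a : A.ι} {z : E n} (hz : z ∈ A.U a) : 0 < A.rho H a z :=
  Pl.det_re_pos (hK.posDef a z hz)

/-- the trace with the inverse metric -/
theorem f3_trC_eq {a : A.ι} {z : E n} (hz : z ∈ A.U a) (G : E n → ℝ) :
    A.trC H a G z = (A.rho H a z : ℂ) *
      ∑ i, ∑ j, (hess (A.pot H a) z)⁻¹ j i * hess G z i j := by
  have h2 : (hess (A.pot H a) z).det = (A.rho H a z : ℂ) := by
    unfold rho
    exact Pl.det_eq_re (hK.posDef a z hz)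
  have h3 : (A.rho H a z : ℂ) ≠ 0 := by
    exact_mod_cast (f3_rho_pos hK hz).ne'
  unfold trC
  rw [Finset.mul_sum]
  refine Finset.sum_congr rfl fun i _ => ?_
  rw [Finset.mul_sum]
  refine Finset.sum_congr rfl fun j _ => ?_
  rw [Matrix.inv_def, Matrix.smul_apply, Ring.inverse_eq_inv', h2, smul_eq_mul, ← mul_assoc,
    ← mul_assoc, mul_inv_cancel₀ h3, one_mul]

end

/-- the jacobian of the action has norm one -/
theorem f3_logdet_dact (hK : A.IsKahler H)
    (hinv : ∀ (c : ℂˣ) y, ‖(c : ℂ)‖ = 1 → H (D.act c y) = H y) {a : A.ι} {z : E n}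
    (hz : z ∈ A.U a) {c : ℂˣ} (hc : ‖(c : ℂ)‖ = 1) :
    logdet (A.pot H a) (dact (D.k a) c z) = logdet (A.pot H a) z := by
  have hd : ∀ z : E n, HasFDerivAt (dact (D.k a) c) (ContinuousLinearMap.pi fun j =>
      ((c ^ D.k a j : ℂˣ) : ℂ) • ContinuousLinearMap.proj (R := ℂ) (φ := fun _ : Fin n => ℂ) j)
      z := by
    intro z
    rw [hasFDerivAt_pi]
    intro j
    exact (ContinuousLinearMap.proj (R := ℂ) (φ := fun _ : Fin n => ℂ) j).hasFDerivAt.const_mul _
  have hJ : ∀ z : E n, Pl.jac (dact (D.k a) c) z =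
      Matrix.diagonal fun j => ((c ^ D.k a j : ℂˣ) : ℂ) := by
    intro z
    ext i j
    show fderiv ℂ (dact (D.k a) c) z (Pi.single j 1) i = _
    rw [(hd z).fderiv]
    show ((c ^ D.k a i : ℂˣ) : ℂ) * (Pi.single j (1 : ℂ) : E n) i = _
    by_cases hij : i = j
    · subst hij
      rw [Matrix.diagonal_apply_eq, Pi.single_eq_same, mul_one]
    · rw [Matrix.diagonal_apply_ne _ hij, Pi.single_eq_of_ne hij, mul_zero]
  have hdet : ∀ z : E n, ‖(Pl.jac (dact (D.k a) c) z).det‖ = 1 := by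
    intro z
    rw [hJ, Matrix.det_diagonal, norm_prod]
    refine Finset.prod_eq_one fun j _ => ?_
    rw [Units.val_zpow_eq_zpow_val, norm_zpow, hc, one_zpow]
  have e1 : A.pot H a =ᶠ[𝓝 z] Pl.ppull (dact (D.k a) c) (fun _ => 1) (A.pot H a) := by
    filter_upwards [(A.isOpen_U a).mem_nhds hz] with w hw
    rw [Pl.ppull_apply, norm_one, one_pow, Real.log_one, zero_add, pot_inv hK D hinv hw c hc]
  have h := Pl.logdet_pull (t := dact (D.k a) c) (h := fun _ => (1 : ℂ)) (A.isOpen_U a)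
    (fun w _ => (hd w).differentiableAt.differentiableWithinAt) (differentiableOn_const _)
    (fun _ _ => one_ne_zero) (fun w _ => by
      intro h0
      have := hdet w
      rw [h0, norm_zero] at this
      exact zero_ne_one this) hz
    (Pl.SmNear.of_contDiffOn (A.isOpen_U a) (hK.smooth a) (D.dom a z hz c))
    (hK.posDef a _ (D.dom a z hz c))
  rw [(Pl.logdet_eventuallyEq e1).self_of_nhds, h, Pl.ppull_apply, hdet, one_pow, Real.log_one,
    zero_add]

section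

variable {q : ℕ} {s : ℂ}

/-- the function `F` in the chart `a` -/
def fred (A : PolAtlas n Y) (D : A.DAct) (H : Y → ℝ) (q : ℕ) (a : A.ι) (z : E n) : ℝ :=
  redF q (D.k a) (D.m a) (A.pot H a) z

theorem fred_eq (a : A.ι) (z : E n) : A.fred D H q a z =
    logdet (A.pot H a) z + Real.log (PP q (A.mu D H a z)) := rfl

theorem f3_PP_pos (hp : A.IsPde D q s H) {a : A.ι} {z : E n} (hz : z ∈ A.U a) :
    0 < PP q (A.mu D H a z) :=
  mul_pos (hp.pos a z hz) (hp.pos' a z hz)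

theorem f3_contDiffOn_fred (hK : A.IsKahler H) (hp : A.IsPde D q s H) (a : A.ι) :
    ContDiffOn ℝ ∞ (A.fred D H q a) (A.U a) := by
  have h1 : ContDiffOn ℝ ∞ (fun z => PP q (A.mu D H a z)) (A.U a) :=
    (f3_contDiff_PP q).comp_contDiffOn (f3_contDiffOn_mu hK hp.inv a)
  exact (f3_contDiffOn_logdet hK a).add (h1.log fun z hz => (f3_PP_pos hp hz).ne')

theorem f3_fred_dact (hK : A.IsKahler H) (hp : A.IsPde D q s H) {a : A.ι} {z : E n}
    (hz : z ∈ A.U a) {c : ℂˣ} (hc : ‖(c : ℂ)‖ = 1) :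
    A.fred D H q a (dact (D.k a) c z) = A.fred D H q a z := by
  rw [fred_eq, fred_eq, f3_logdet_dact hK hp.inv hz hc, f3_mu_dact hK hp.inv hz hc]

theorem f3_diffAt_fred (hK : A.IsKahler H) (hp : A.IsPde D q s H) {a : A.ι} {z : E n}
    (hz : z ∈ A.U a) : DifferentiableAt ℝ (A.fred D H q a) z :=
  ((f3_contDiffOn_fred hK hp a).contDiffAt ((A.isOpen_U a).mem_nhds hz)).differentiableAt
    (by simp)

/-- derivative of `log P(μ)` -/
theorem f3_wdz_fred (hK : A.IsKahler H) (hp : A.IsPde D q s H) {a : A.ι} {z : E n}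
    (hz : z ∈ A.U a) :
    ((PP q (A.mu D H a z) : ℝ) : ℂ) * wdz (D.k a) (fun w => (A.fred D H q a w : ℂ)) z =
      ((PP q (A.mu D H a z) : ℝ) : ℂ) * wdz (D.k a) (fun w => (logdet (A.pot H a) w : ℂ)) z +
        -18 * (A.mu D H a z : ℂ) * (A.vv D H a z : ℂ) := by
  have hP := f3_PP_pos hp hz
  have hPc : ((PP q (A.mu D H a z) : ℝ) : ℂ) ≠ 0 := by exact_mod_cast hP.ne'
  have hU := (A.isOpen_U a).mem_nhds hz
  have hmu : DifferentiableAt ℝ (A.mu D H a) z :=
    ((f3_contDiffOn_mu hK hp.inv a).contDiffAt hU).differentiableAt (by simp)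
  have hld : DifferentiableAt ℝ (logdet (A.pot H a)) z :=
    ((f3_contDiffOn_logdet hK a).contDiffAt hU).differentiableAt (by simp)
  have hlog : HasFDerivAt (fun w => Real.log (PP q (A.mu D H a w)))
      ((PP q (A.mu D H a z))⁻¹ • ((-18 * A.mu D H a z) • fderiv ℝ (A.mu D H a) z)) z := by
    have h1 : HasFDerivAt (fun w => PP q (A.mu D H a w))
        ((-18 * A.mu D H a z) • fderiv ℝ (A.mu D H a) z) z :=
      (f3_hasDerivAt_PP q _).comp_hasFDerivAt z hmu.hasFDerivAt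
    exact h1.log hP.ne'
  have hf : HasFDerivAt (fun w => ((A.fred D H q a w : ℝ) : ℂ))
      (Complex.ofRealCLM.comp (fderiv ℝ (logdet (A.pot H a)) z +
        (PP q (A.mu D H a z))⁻¹ • ((-18 * A.mu D H a z) • fderiv ℝ (A.mu D H a) z))) z :=
    Complex.ofRealCLM.hasFDerivAt.comp z (hld.hasFDerivAt.add hlog)
  have hmuc : HasFDerivAt (fun w => ((A.mu D H a w : ℝ) : ℂ))
      (Complex.ofRealCLM.comp (fderiv ℝ (A.mu D H a) z)) z :=
    Complex.ofRealCLM.hasFDerivAt.comp z hmu.hasFDerivAt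
  have hldc : HasFDerivAt (fun w => ((logdet (A.pot H a) w : ℝ) : ℂ))
      (Complex.ofRealCLM.comp (fderiv ℝ (logdet (A.pot H a)) z)) z :=
    Complex.ofRealCLM.hasFDerivAt.comp z hld.hasFDerivAt
  have key : ∀ j, dz j (fun w => (A.fred D H q a w : ℂ)) z =
      dz j (fun w => (logdet (A.pot H a) w : ℂ)) z +
        (((PP q (A.mu D H a z))⁻¹ * (-18 * A.mu D H a z) : ℝ) : ℂ) *
          dz j (fun w => (A.mu D H a w : ℂ)) z := by
    intro j
    unfold dz
    rw [hf.fderiv, hmuc.fderiv, hldc.fderiv]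
    simp only [ContinuousLinearMap.comp_apply, _root_.add_apply, _root_.smul_apply,
      Complex.ofRealCLM_apply, smul_eq_mul, ofReal_add, ofReal_mul]
    ring
  have h2 : wdz (D.k a) (fun w => (A.fred D H q a w : ℂ)) z =
      wdz (D.k a) (fun w => (logdet (A.pot H a) w : ℂ)) z +
        (((PP q (A.mu D H a z))⁻¹ * (-18 * A.mu D H a z) : ℝ) : ℂ) * (A.vv D H a z : ℂ) := by
    rw [← f3_wdz_mu hK hp.inv hz]
    unfold wdz
    rw [Finset.mul_sum, ← Finset.sum_add_distrib]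
    refine Finset.sum_congr rfl fun j _ => ?_
    rw [key]
    ring
  rw [h2]
  push_cast
  field_simp

end

end PolAtlas

end

end Pool.Agent.YTDA


end

/- source: Pool.Agent.YTDA.F3Glob -/

section

/-!
# The global function `log det + log P(μ) + log |jac|² - log |dx₀|²` on `Σ`
-/

set_option autoImplicit false

namespace Pool.Agent.YTDA

open Complex Set Topology ContDiff Filter Metric
open Pool.Agent.YTD

noncomputable section

/-! ## Gluing functions given in generic points of charts -/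

theorem f3_glue {n : ℕ} {Y : Type} [MulAction ℂˣ Y] {A : PolAtlas n Y} (L : A.ι → E n → ℝ)
    (gen : E n → Prop)
    (h : ∀ a b, ∀ z ∈ A.U a, ∀ z' ∈ A.U b, gen z → gen z' → ∀ c : ℂˣ,
      A.γ b z' = c • A.γ a z → L b z' = L a z) :
    ∃ F : Y → ℝ, (∀ (c : ℂˣ) y, F (c • y) = F y) ∧
      ∀ a, ∀ z ∈ A.U a, gen z → F (A.γ a z) = L a z := by
  classical
  let S : Y → Prop := fun y => ∃ a, ∃ z ∈ A.U a, gen z ∧ ∃ c : ℂˣ, y = c • A.γ a z
  let F : Y → ℝ := fun y => if h : S y then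
    L h.choose h.choose_spec.choose else 0
  have key : ∀ a, ∀ z ∈ A.U a, gen z → ∀ c : ℂˣ, F (c • A.γ a z) = L a z := by
    intro a z hz hg c
    have hS : S (c • A.γ a z) := ⟨a, z, hz, hg, c, rfl⟩
    have e1 : F (c • A.γ a z) = L hS.choose hS.choose_spec.choose := dif_pos hS
    rw [e1]
    obtain ⟨h1, h2, d, h3⟩ := hS.choose_spec.choose_spec
    refine h a hS.choose z hz _ h1 hg h2 (d⁻¹ * c) ?_
    have h4 := congrArg (fun y => d⁻¹ • y) h3
    simp only [inv_smul_smul] at h4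
    rw [mul_smul]
    exact h4.symm
  refine ⟨F, ?_, ?_⟩
  · intro c y
    by_cases hS : S y
    · obtain ⟨a, z, hz, hg, d, rfl⟩ := hS
      rw [smul_smul, key a z hz hg, key a z hz hg]
    · have hS' : ¬ S (c • y) := by
        rintro ⟨a, z, hz, hg, d, h1⟩
        refine hS ⟨a, z, hz, hg, c⁻¹ * d, ?_⟩
        rw [mul_smul, ← h1, inv_smul_smul]
      have e1 : F (c • y) = 0 := dif_neg hS'
      have e2 : F y = 0 := dif_neg hS
      rw [e1, e2]
  · intro a z hz hg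
    have := key a z hz hg 1
    rwa [one_smul] at this

section Sig

variable {K : Type} [Field K] [Algebra ℂ K] {T : Datum K} {q : ℕ} {D₀ : T.X.Pt →₀ ℤ}
  {An : AnCurve T.X.toCurveOrd} (M : SigModel T q D₀ An) {x₀ : K} {d : T.X.Pt →₀ ℤ}
  {H : M.Y → ℝ} {s : ℂ}

namespace SigModel

/-- `dx₀ / ds` without its zero or pole, in the chart `(P, i)` -/
def gs (x₀ : K) (d : T.X.Pt →₀ ℤ) (P : T.X.Pt) (i : Fin 3) (z : E 2) : ℂ :=
  gx An x₀ d M.r P (sco i z)

/-- the smooth part of `F` -/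
def GF (x₀ : K) (d : T.X.Pt →₀ ℤ) (H : M.Y → ℝ) (P : T.X.Pt) (i : Fin 3) (z : E 2) : ℝ :=
  M.A.fred M.D H q (M.e (P, i)) z + -Real.log (‖M.gs x₀ d P i z‖ ^ 2)

/-- the logarithmic multiplicities of `F` -/
def mF (d : T.X.Pt →₀ ℤ) (P : T.X.Pt) (i : Fin 3) (j : Fin 2) : ℝ :=
  if i = 2 then 0 else if j = 0 then -(d P : ℝ) else 1

/-- hypotheses on the differential -/
structure DiffHyp (x₀ : K) (d : T.X.Pt →₀ ℤ) : Prop where
  ord : ∀ P, meromorphicOrderAt (deriv (An.fn P x₀)) 0 = ((d P : ℤ) : WithTop ℤ)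
  iso : ∀ P, ∀ s ∈ ball (0 : ℂ) (M.r P), s ≠ 0 → d (An.c P s) = 0
  S : ∀ P ∈ T.S, d P = 0
  S' : ∀ P ∈ T.S', d P = 0

variable {M}

theorem mF_sum (P : T.X.Pt) (i : Fin 3) {z : E 2} (hz : z ∈ M.A.U (M.e (P, i))) :
    ∑ j, mF d P i j * (M.D.k (M.e (P, i)) j : ℝ) = ∑ j, (M.D.k (M.e (P, i)) j : ℝ) := by
  rw [Fin.sum_univ_two, Fin.sum_univ_two]
  fin_cases i
  · show mF d P 0 0 * (M.D.k (M.e (P, 0)) 0 : ℝ) + mF d P 0 1 * (M.D.k (M.e (P, 0)) 1 : ℝ) =
      (M.D.k (M.e (P, 0)) 0 : ℝ) + (M.D.k (M.e (P, 0)) 1 : ℝ)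
    rw [(M.k_bot P).1]
    simp [mF]
  · show mF d P 1 0 * (M.D.k (M.e (P, 1)) 0 : ℝ) + mF d P 1 1 * (M.D.k (M.e (P, 1)) 1 : ℝ) =
      (M.D.k (M.e (P, 1)) 0 : ℝ) + (M.D.k (M.e (P, 1)) 1 : ℝ)
    rw [(M.k_top P).1]
    simp [mF]
  · show mF d P 2 0 * (M.D.k (M.e (P, 2)) 0 : ℝ) + mF d P 2 1 * (M.D.k (M.e (P, 2)) 1 : ℝ) =
      (M.D.k (M.e (P, 2)) 0 : ℝ) + (M.D.k (M.e (P, 2)) 1 : ℝ)
    have hzU : z ∈ M.A.U (M.e (P, 2)) := hz
    by_cases hP : P ∈ T.S
    · rw [(M.k_mid P hP).1]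
      simp [mF]
    · by_cases hP' : P ∈ T.S'
      · rw [(M.k_mid' P hP').1]
        simp [mF]
      · rw [M.U_mid' P hP hP'] at hzU
        exact hzU.elim

/-- `s` is invariant under the action -/
theorem sco_dact (P : T.X.Pt) (i : Fin 3) {z : E 2} (hz : z ∈ M.A.U (M.e (P, i))) (c : ℂˣ)
    (v : E 2) : sco i (dact (M.D.k (M.e (P, i))) c v) = sco i v := by
  fin_cases i
  · show sco 0 (dact (M.D.k (M.e (P, 0))) c v) = sco 0 v
    rw [(M.k_bot P).1]
    simp [sco, dact]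
  · show sco 1 (dact (M.D.k (M.e (P, 1))) c v) = sco 1 v
    rw [(M.k_top P).1]
    simp [sco, dact]
  · show sco 2 (dact (M.D.k (M.e (P, 2))) c v) = sco 2 v
    have hzU : z ∈ M.A.U (M.e (P, 2)) := hz
    by_cases hP : P ∈ T.S
    · rw [(M.k_mid P hP).1]
      simp only [sco, dact]
      simp
      field_simp
    · by_cases hP' : P ∈ T.S'
      · rw [(M.k_mid' P hP').1]
        simp only [sco, dact]
        simp
        field_simp
      · rw [M.U_mid' P hP hP'] at hzU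
        exact hzU.elim

theorem hol_sco (i : Fin 3) (z : E 2) : DifferentiableAt ℂ (sco i) z := by
  unfold sco
  split_ifs
  · exact (hasFDerivAt_pm z).differentiableAt
  · exact (hasFDerivAt_pr 0 z).differentiableAt

variable (hd : M.DiffHyp x₀ d)

include hd

theorem gs_spec (P : T.X.Pt) (i : Fin 3) : DifferentiableOn ℂ (M.gs x₀ d P i)
    (M.A.U (M.e (P, i))) ∧ ∀ z ∈ M.A.U (M.e (P, i)), M.gs x₀ d P i z ≠ 0 := by
  constructor
  · intro z hz
    obtain ⟨a1, -, -⟩ := gx_spec hd.ord M.r_le hd.iso P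
      (show sco i z ∈ ball (0 : ℂ) (M.r P) by simpa using M.sco_mem hz)
    exact (a1.differentiableAt.comp z (hol_sco i z)).differentiableWithinAt
  · intro z hz
    obtain ⟨-, a2, -⟩ := gx_spec hd.ord M.r_le hd.iso P
      (show sco i z ∈ ball (0 : ℂ) (M.r P) by simpa using M.sco_mem hz)
    exact a2

/-- the smooth part is smooth -/
theorem contDiffOn_GF (hK : M.A.IsKahler H) (hp : M.A.IsPde M.D q s H) (P : T.X.Pt) (i : Fin 3) :
    ContDiffOn ℝ ∞ (M.GF x₀ d H P i) (M.A.U (M.e (P, i))) := by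
  obtain ⟨h1, h2⟩ := gs_spec hd P i
  have h3 : ContDiffOn ℝ ∞ (fun z => Real.log (‖M.gs x₀ d P i z‖ ^ 2)) (M.A.U (M.e (P, i))) :=
    fun z hz => (Pl.smNear_log_norm (M.A.isOpen_U _) h1 h2 hz).at.contDiffWithinAt
  exact (PolAtlas.f3_contDiffOn_fred hK hp _).add h3.neg

/-- the trace of the Hessian -/
theorem trC_GF (hK : M.A.IsKahler H) (hp : M.A.IsPde M.D q s H) (P : T.X.Pt) (i : Fin 3)
    {z : E 2} (hz : z ∈ M.A.U (M.e (P, i))) :
    M.A.trC H (M.e (P, i)) (M.GF x₀ d H P i) z =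
      M.A.trC H (M.e (P, i)) (M.A.fred M.D H q (M.e (P, i))) z := by
  obtain ⟨h1, h2⟩ := gs_spec hd P i
  -- the logarithm of the inverse
  have h1' : DifferentiableOn ℂ (fun z => (M.gs x₀ d P i z)⁻¹) (M.A.U (M.e (P, i))) :=
    h1.inv h2
  have h2' : ∀ z ∈ M.A.U (M.e (P, i)), (M.gs x₀ d P i z)⁻¹ ≠ 0 := fun z hz =>
    inv_ne_zero (h2 z hz)
  have h3 : M.GF x₀ d H P i = fun z => M.A.fred M.D H q (M.e (P, i)) z +
      Real.log (‖(M.gs x₀ d P i z)⁻¹‖ ^ 2) := by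
    funext w
    unfold GF
    rw [norm_inv, inv_pow, Real.log_inv]
  have hU := M.A.isOpen_U (M.e (P, i))
  have h4 : hess (M.GF x₀ d H P i) z = hess (M.A.fred M.D H q (M.e (P, i))) z := by
    rw [h3, Pl.hess_add (Pl.SmNear.of_contDiffOn hU (PolAtlas.f3_contDiffOn_fred hK hp _) hz)
      (Pl.smNear_log_norm hU h1' h2' hz), Pl.hess_log_norm hU h1' h2' hz, add_zero]
  unfold PolAtlas.trC
  rw [h4]

omit hd in
theorem gs_dact (P : T.X.Pt) (i : Fin 3) {z : E 2} (hz : z ∈ M.A.U (M.e (P, i))) (c : ℂˣ) :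
    M.gs x₀ d P i (dact (M.D.k (M.e (P, i))) c z) = M.gs x₀ d P i z := by
  unfold gs
  rw [sco_dact P i hz]

/-- the derivative along the action -/
theorem wdzb_GF (hK : M.A.IsKahler H) (hp : M.A.IsPde M.D q s H) (P : T.X.Pt) (i : Fin 3)
    {z : E 2} (hz : z ∈ M.A.U (M.e (P, i))) :
    wdzb (M.D.k (M.e (P, i))) (fun w => (M.GF x₀ d H P i w : ℂ)) z =
      wdz (M.D.k (M.e (P, i))) (fun w => (M.A.fred M.D H q (M.e (P, i)) w : ℂ)) z := by
  obtain ⟨h1, h2⟩ := gs_spec hd P i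
  have hU := (M.A.isOpen_U (M.e (P, i)))
  have h3 : DifferentiableAt ℝ (fun z => -Real.log (‖M.gs x₀ d P i z‖ ^ 2)) z :=
    ((Pl.smNear_log_norm hU h1 h2 hz).at.differentiableAt (by simp)).neg
  have h4 := PolAtlas.f3_diffAt_fred hK hp hz
  have h5 := f3_wdzb_of_inv (φ := fun z => -Real.log (‖M.gs x₀ d P i z‖ ^ 2))
    (k := M.D.k (M.e (P, i))) h3 fun c => by
    show -Real.log (‖M.gs x₀ d P i (dact (M.D.k (M.e (P, i))) c z)‖ ^ 2) = _
    rw [gs_dact P i hz]
  have h6 := (f3_wdz_im_of_inv h4 fun c hc => PolAtlas.f3_fred_dact hK hp hz hc).1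
  have h7 : wdzb (M.D.k (M.e (P, i))) (fun w => (M.GF x₀ d H P i w : ℂ)) z =
      wdzb (M.D.k (M.e (P, i))) (fun w => (M.A.fred M.D H q (M.e (P, i)) w : ℂ)) z +
      wdzb (M.D.k (M.e (P, i))) (fun w => ((-Real.log (‖M.gs x₀ d P i w‖ ^ 2) : ℝ) : ℂ)) z := by
    unfold wdzb
    rw [← Finset.sum_add_distrib]
    refine Finset.sum_congr rfl fun j _ => ?_
    rw [← mul_add]
    congr 1
    have h8 : DifferentiableAt ℝ (fun w => (M.A.fred M.D H q (M.e (P, i)) w : ℂ)) z :=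
      Complex.ofRealCLM.differentiableAt.comp z h4
    have h9 : DifferentiableAt ℝ (fun w => ((-Real.log (‖M.gs x₀ d P i w‖ ^ 2) : ℝ) : ℂ)) z :=
      Complex.ofRealCLM.differentiableAt.comp z h3
    rw [← Pl.dzb_add h8 h9]
    congr 1
    funext w
    unfold GF
    push_cast
    rfl
  rw [h7, h5, h6, add_zero]

end SigModel

end Sig

end

end Pool.Agent.YTDA


end

/- source: Pool.Agent.YTDA.Orbit2 -/

section

/-!
# M3: integrals over vertical curves
-/

namespace Pool.Agent.YTDA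

open Complex Set Topology ContDiff MeasureTheory Filter

noncomputable section

namespace Orb

/-- the unit of a nonzero number -/
def toU (w : ℂ) : ℂˣ := open Classical in if h : w = 0 then 1 else Units.mk0 w h

theorem toU_val {w : ℂ} (h : w ≠ 0) : ((toU w : ℂˣ) : ℂ) = w := by
  rw [toU, dif_neg h, Units.val_mk0]

theorem toU_coe (c : ℂˣ) : toU (c : ℂ) = c := Units.ext (toU_val c.ne_zero)

theorem continuousOn_toU : ContinuousOn toU {0}ᶜ := by
  rw [continuousOn_iff_continuous_domRestrict, Units.continuous_iff]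
  constructor
  · have h : (Units.val ∘ ({0}ᶜ : Set ℂ).domRestrict toU) = Subtype.val := by
      funext w
      exact toU_val w.2
    rw [h]
    exact continuous_subtype_val
  · have h : (fun x => (((({0}ᶜ : Set ℂ).domRestrict toU x)⁻¹ : ℂˣ) : ℂ)) =
        fun x : ({0}ᶜ : Set ℂ) => (x : ℂ)⁻¹ := by
      funext w
      rw [Units.val_inv_eq_inv_val, domRestrict_apply, toU_val w.2]
    rw [h]
    exact continuous_subtype_val.inv₀ fun x => x.2

theorem continuous_expU : Continuous (fun t : ℝ => expU (t : ℂ)) := by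
  rw [Units.continuous_iff]
  constructor
  · exact continuous_exp.comp continuous_ofReal
  · have h : (fun x : ℝ => (((expU (x : ℂ))⁻¹ : ℂˣ) : ℂ)) = fun x : ℝ => exp (-(x : ℂ)) := by
      funext x
      rw [Units.val_inv_eq_inv_val, expU_val, exp_neg]
    rw [h]
    exact continuous_exp.comp continuous_ofReal.neg

theorem det_restrict1 (L : ℂ →L[ℂ] ℂ) : |(L.restrictScalars ℝ).det| = ‖L 1‖ ^ 2 := by
  have h1 : (L.restrictScalars ℝ).det = Algebra.norm ℝ L.det := by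
    rw [ContinuousLinearMap.det, ContinuousLinearMap.det, ← LinearMap.det_restrictScalars]
    rfl
  have h2 : L.det = L 1 := by
    rw [ContinuousLinearMap.det, LinearMap.det_ring]
    rfl
  rw [h1, h2, Algebra.norm_complex_apply, normSq_eq_norm_sq, abs_of_nonneg (by positivity)]

theorem zpow_zpow_self {ε : ℤ} (hε : ε = 1 ∨ ε = -1) (x : ℂˣ) : (x ^ ε) ^ ε = x := by
  rcases hε with h | h <;> subst h <;> simp

theorem zpow_zpow_self' {ε : ℤ} (hε : ε = 1 ∨ ε = -1) (x : ℂ) : (x ^ ε) ^ ε = x := by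
  rcases hε with h | h <;> subst h <;> simp

/-- invariance of `|dw|²/|w|²` -/
theorem integral_zpow_mul (G : ℂ → ℝ) {c : ℂ} (hc : c ≠ 0) {ε : ℤ} (hε : ε = 1 ∨ ε = -1) :
    ∫ w : ℂ, G (c * w ^ ε) * (‖c * w ^ ε‖ ^ 2 / ‖w‖ ^ 2) = ∫ w, G w := by
  have him : (fun w : ℂ => c * w ^ ε) '' {0}ᶜ = {0}ᶜ := by
    apply Subset.antisymm
    · rintro _ ⟨w, hw, rfl⟩
      exact mul_ne_zero hc (zpow_ne_zero _ hw)
    · intro w hw
      have hw' : c⁻¹ * w ≠ 0 := mul_ne_zero (inv_ne_zero hc) hw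
      refine ⟨(c⁻¹ * w) ^ ε, zpow_ne_zero _ hw', ?_⟩
      simp only
      rw [zpow_zpow_self' hε, mul_inv_cancel_left₀ hc]
  have hinj : InjOn (fun w : ℂ => c * w ^ ε) {0}ᶜ := by
    intro w _ w' _ h
    have h1 := mul_left_cancel₀ hc h
    rw [← zpow_zpow_self' hε w, h1, zpow_zpow_self' hε]
  have hd : ∀ w ∈ ({0}ᶜ : Set ℂ), HasFDerivWithinAt (fun w : ℂ => c * w ^ ε)
      ((ContinuousLinearMap.toSpanSingleton ℂ (c * (ε * w ^ (ε - 1)))).restrictScalars ℝ)
      {0}ᶜ w := by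
    intro w hw
    have h1 : HasDerivAt (fun w : ℂ => c * w ^ ε) (c * (ε * w ^ (ε - 1))) w :=
      (hasDerivAt_zpow ε w (Or.inl hw)).const_mul c
    exact (h1.hasFDerivAt.restrictScalars ℝ).hasFDerivWithinAt
  have h1 := integral_image_eq_integral_abs_det_fderiv_smul (volume : Measure ℂ)
    (measurableSet_singleton (0 : ℂ)).compl hd hinj G
  have h0 : ∀ᵐ w : ℂ, w ≠ 0 := by
    rw [ae_iff]
    simp
  rw [him, Measure.restrict_eq_self_of_ae_mem (s := ({0}ᶜ : Set ℂ)) h0] at h1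
  rw [h1]
  apply integral_congr_ae
  filter_upwards [h0] with w hw
  rw [det_restrict1, ContinuousLinearMap.toSpanSingleton_apply, one_smul, smul_eq_mul, mul_comm]
  congr 1
  have h2 : ‖w‖ ≠ 0 := norm_ne_zero_iff.2 hw
  have h3 : ‖(ε : ℂ)‖ = 1 := by
    rcases hε with h | h <;> subst h <;> simp
  rw [norm_mul, norm_mul, norm_mul, h3, one_mul, norm_zpow, norm_zpow, zpow_sub_one₀ h2]
  field_simp

theorem dact_axis (k : Fin 2 → ℤ) (c : ℂˣ) (j : Fin 2) (w : ℂ) :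
    dact k c (axis j w) = axis j (((c ^ k (1 - j) : ℂˣ) : ℂ) * w) := by
  fin_cases j
  · simp only [Fin.zero_eta, axis_zero]
    ext i
    fin_cases i <;> simp [dact]
  · simp only [Fin.mk_one, axis_one]
    ext i
    fin_cases i <;> simp [dact]

theorem continuous_axis (j : Fin 2) : Continuous (axis j) := by
  rw [continuous_pi_iff]
  intro i
  fin_cases j
  · simp only [Fin.zero_eta, axis_zero]
    fin_cases i
    · exact continuous_const
    · exact continuous_id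
  · simp only [Fin.mk_one, axis_one]
    fin_cases i
    · exact continuous_id
    · exact continuous_const

theorem eq_axis {z : E 2} {j : Fin 2} (h : z j = 0) : z = axis j (z (1 - j)) := by
  fin_cases j
  · simp only [Fin.zero_eta, axis_zero] at h ⊢
    ext i
    fin_cases i
    · exact h
    · rfl
  · simp only [Fin.mk_one, axis_one] at h ⊢
    ext i
    fin_cases i
    · rfl
    · exact h

end Orb

end

end Pool.Agent.YTDA


end

/- source: Pool.Agent.YTDA.Orbit3 -/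

section

/-!
# M3: integrals over vertical curves
-/

namespace Pool.Agent.YTDA

open Complex Set Topology ContDiff MeasureTheory Filter

noncomputable section

namespace Orb

variable {Y : Type} [MulAction ℂˣ Y] {A : PolAtlas 2 Y} {D : A.DAct} (L : Labels A D)

include L

/-- a vertical axis is an orbit -/
theorem axis_orbit {a : A.ι} {j : Fin 2} {v : L.V} (h : L.lab a j = Lb.vert v) {w₁ : ℂ}
    (hw₁ : w₁ ≠ 0) (hm : axis j w₁ ∈ A.U a) :
    ∃ c' : ℂˣ, ∀ w : ℂˣ, axis j w ∈ A.U a ∧ ∃ d : ℂˣ,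
      A.γ a (axis j w) = d • D.act (c' * w ^ (D.k a (1 - j))) (L.p v) := by
  obtain ⟨c1, c2, h1⟩ := L.vert_orb a j v h w₁ hw₁ hm
  have hε := L.vert_k a j v h
  set ε := D.k a (1 - j) with hε'
  obtain ⟨w₁, rfl⟩ : ∃ u : ℂˣ, (u : ℂ) = w₁ := ⟨Units.mk0 w₁ hw₁, rfl⟩
  refine ⟨(w₁ ^ ε)⁻¹ * c2, fun w => ?_⟩
  have h2 : dact (D.k a) ((w * w₁⁻¹) ^ ε) (axis j w₁) = axis j w := by
    rw [dact_axis, ← hε', zpow_zpow_self hε]
    congr 1
    rw [← Units.val_mul, inv_mul_cancel_right]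
  have h3 := D.dom a _ hm ((w * w₁⁻¹) ^ ε)
  rw [h2] at h3
  refine ⟨h3, (((w * w₁⁻¹) ^ ε) ^ D.m a)⁻¹ * c1, ?_⟩
  have h4 := D.act_γ a _ hm ((w * w₁⁻¹) ^ ε)
  rw [h2, h1, D.act_smul, ← D.act_mul] at h4
  have h5 : (w * w₁⁻¹) ^ ε * c2 = (w₁ ^ ε)⁻¹ * c2 * w ^ ε := by
    rw [mul_zpow, inv_zpow, mul_assoc, mul_comm]
  rw [mul_smul, eq_inv_smul_iff, ← h4, h5]

omit L in
theorem norm_fac (c : ℂˣ) : ‖((c * (expU (Real.log ‖(c : ℂ)‖))⁻¹ : ℂˣ) : ℂ)‖ = 1 := by
  have h : ‖(c : ℂ)‖ ≠ 0 := norm_ne_zero_iff.2 c.ne_zero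
  rw [Units.val_mul, norm_mul, Units.val_inv_eq_inv_val, norm_inv, norm_expU, ofReal_re,
    Real.exp_log (norm_pos_iff.2 c.ne_zero), mul_inv_cancel₀ h]

omit L in
theorem mu_norm {H : Y → ℝ} (hinv : ∀ (c : ℂˣ) y, ‖(c : ℂ)‖ = 1 → H (D.act c y) = H y)
    (c : ℂˣ) (y : Y) : D.mu H (D.act c y) = D.mu H (D.act (expU (Real.log ‖(c : ℂ)‖)) y) := by
  have h := PolAtlas.mu_act_circle D hinv _ (norm_fac c) (D.act (expU (Real.log ‖(c : ℂ)‖)) y)
  rw [← D.act_mul, inv_mul_cancel_right] at h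
  exact h

omit L in
theorem nv_norm {H : Y → ℝ} (hinv : ∀ (c : ℂˣ) y, ‖(c : ℂ)‖ = 1 → H (D.act c y) = H y)
    (c : ℂˣ) (y : Y) : D.nv H (D.act c y) = D.nv H (D.act (expU (Real.log ‖(c : ℂ)‖)) y) := by
  have h := PolAtlas.nv_act_circle D hinv _ (norm_fac c) (D.act (expU (Real.log ‖(c : ℂ)‖)) y)
  rw [← D.act_mul, inv_mul_cancel_right] at h
  exact h

omit L in
theorem mu_eq {H : Y → ℝ} (hK : A.IsKahler H)
    (hinv : ∀ (c : ℂˣ) y, ‖(c : ℂ)‖ = 1 → H (D.act c y) = H y) {a : A.ι} {z : E 2}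
    (hz : z ∈ A.U a) : A.mu D H a z = D.mu H (A.γ a z) := by
  have h := congrArg re (PolAtlas.mu_γ hK D hinv hz)
  rw [ofReal_re] at h
  rw [h, PolAtlas.mu, mom, wdz, add_re, intCast_re]

omit L in
theorem nv_axis {H : Y → ℝ} (hK : A.IsKahler H)
    (hinv : ∀ (c : ℂˣ) y, ‖(c : ℂ)‖ = 1 → H (D.act c y) = H y) {a : A.ι} {j : Fin 2} {w : ℂ}
    (hz : axis j w ∈ A.U a) (hε : D.k a (1 - j) = 1 ∨ D.k a (1 - j) = -1) :
    (hess (A.pot H a) (axis j w) (1 - j) (1 - j)).re * ‖w‖ ^ 2 = D.nv H (A.γ a (axis j w)) := by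
  rw [PolAtlas.nv_γ hK D hinv hz, nrm2]
  have h1 : ∀ i, i ≠ 1 - j → axis j w i = 0 := by
    intro i hi
    have : i = j := by
      revert hi
      fin_cases i <;> fin_cases j <;> simp
    rw [this]
    exact axis_same j w
  rw [Finset.sum_eq_single (1 - j), Finset.sum_eq_single (1 - j)]
  · rw [axis_other]
    have h2 : ((D.k a (1 - j) : ℤ) : ℂ) * w * (starRingEnd ℂ) ((D.k a (1 - j) : ℤ) * w) =
        ((‖w‖ ^ 2 : ℝ) : ℂ) := by
      rw [map_mul, map_intCast, ← normSq_eq_norm_sq, ← mul_conj]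
      rcases hε with h | h <;> rw [h] <;> push_cast <;> ring
    rw [h2, re_ofReal_mul, mul_comm]
  · intro i _ hi
    rw [h1 i hi]
    simp
  · simp
  · intro i _ hi
    refine Finset.sum_eq_zero fun l _ => ?_
    rw [h1 i hi]
    simp
  · simp

/-- the integrand on the orbit -/
def G (P : A.Part) (D : A.DAct) (H : Y → ℝ) (u : ℝ → ℝ) (y₀ : Y) (k : Fin P.m) (c : ℂ) : ℝ :=
  P.χ k (D.act (toU c) y₀) *
    (u (2 * D.mu H (D.act (expU (Real.log ‖c‖)) y₀) / 2) *
      (4 * D.nv H (D.act (expU (Real.log ‖c‖)) y₀) / (4 * ‖c‖ ^ 2)))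

theorem axisInt_eq (P : A.Part) {H : Y → ℝ} (hK : A.IsKahler H)
    (hinv : ∀ (c : ℂˣ) y, ‖(c : ℂ)‖ = 1 → H (D.act c y) = H y) (u : ℝ → ℝ) {k : Fin P.m}
    {j : Fin 2} {v : L.V} (h : L.lab (P.a k) j = Lb.vert v) {w₁ : ℂ}
    (hw₁ : w₁ ≠ 0) (hm : axis j w₁ ∈ A.U (P.a k)) :
    P.axisInt D H u k j = ∫ c, G P D H u (L.p v) k c := by
  obtain ⟨c', hc'⟩ := axis_orbit L h hw₁ hm
  have hε := L.vert_k _ j v h
  rw [← integral_zpow_mul (G P D H u (L.p v) k) c'.ne_zero hε, PolAtlas.Part.axisInt]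
  apply integral_congr_ae
  have h0 : ∀ᵐ w : ℂ, w ≠ 0 := by
    rw [ae_iff]
    simp
  filter_upwards [h0] with w hw
  obtain ⟨w, rfl⟩ : ∃ u : ℂˣ, (u : ℂ) = w := ⟨Units.mk0 w hw, rfl⟩
  obtain ⟨hU, d, hd⟩ := hc' w
  have hn : ‖(w : ℂ)‖ ≠ 0 := norm_ne_zero_iff.2 hw
  rw [indicator_of_mem hU, mu_eq hK hinv hU]
  have h1 := nv_axis hK hinv hU hε
  have h2 : (hess (A.pot H (P.a k)) (axis j w) (1 - j) (1 - j)).re =
      D.nv H (A.γ (P.a k) (axis j w)) / ‖(w : ℂ)‖ ^ 2 := by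
    rw [← h1]
    field_simp
  rw [h2, hd, P.inv, PolAtlas.mu_smul hK, PolAtlas.nv_smul hK, mu_norm hinv, nv_norm hinv, G]
  have h3 : (c' : ℂ) * (w : ℂ) ^ (D.k (P.a k) (1 - j)) =
      ((c' * w ^ (D.k (P.a k) (1 - j)) : ℂˣ) : ℂ) := by
    rw [Units.val_mul, Units.val_zpow_eq_zpow_val]
  rw [h3, toU_coe, mul_div_cancel_left₀ _ (two_ne_zero' ℝ)]
  have h4 : ‖((c' * w ^ (D.k (P.a k) (1 - j)) : ℂˣ) : ℂ)‖ ≠ 0 := norm_ne_zero_iff.2 (Units.ne_zero _)
  field_simp

end Orb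

end

end Pool.Agent.YTDA


end

/- source: Pool.Agent.YTDA.Orbit4 -/

section

/-!
# M3: integrals over vertical curves
-/

namespace Pool.Agent.YTDA

open Complex Set Topology ContDiff MeasureTheory Filter

noncomputable section

namespace Orb

variable {Y : Type} [MulAction ℂˣ Y] {A : PolAtlas 2 Y} {D : A.DAct}

theorem continuous_dact (k : Fin 2 → ℤ) (z : E 2) : Continuous (fun c : ℂˣ => dact k c z) := by
  rw [continuous_pi_iff]
  intro i
  exact (Units.continuous_val.comp (continuous_zpow (k i))).mul continuous_const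

theorem cont_orbit {F : Y → ℝ} (hF : ∀ (c : ℂˣ) y, F (c • y) = F y)
    (hFc : ∀ a, ContinuousOn (fun z => F (A.γ a z)) (A.U a)) (y : Y) :
    Continuous (fun c : ℂˣ => F (D.act c y)) := by
  obtain ⟨a, z, hz, d, hy⟩ := A.cover y
  have h1 : (fun c : ℂˣ => F (D.act c y)) = fun c : ℂˣ => F (A.γ a (dact (D.k a) c z)) := by
    funext c
    rw [hy, D.act_smul, hF, D.act_γ a z hz c, hF]
  rw [h1]
  exact (hFc a).comp_continuous (continuous_dact _ _) fun c => D.dom a z hz c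

theorem exists_ne {a : A.ι} {j : Fin 2} {w : ℂ} (h : axis j w ∈ A.U a) :
    ∃ w₁ : ℂ, w₁ ≠ 0 ∧ axis j w₁ ∈ A.U a := by
  obtain ⟨w₁, h1, h2⟩ := (dense_compl_singleton (0 : ℂ)).inter_open_nonempty (axis j ⁻¹' A.U a)
    ((A.isOpen_U a).preimage (continuous_axis j)) ⟨w, h⟩
  exact ⟨w₁, h2, h1⟩

variable {H : Y → ℝ} (hK : A.IsKahler H)
    (hinv : ∀ (c : ℂˣ) y, ‖(c : ℂ)‖ = 1 → H (D.act c y) = H y)

include hK hinv

theorem continuousOn_mu (a : A.ι) : ContinuousOn (fun z => D.mu H (A.γ a z)) (A.U a) :=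
  (PolAtlas.chMu hK D hinv a).smooth_mu.continuousOn

theorem continuousOn_nv (a : A.ι) : ContinuousOn (fun z => D.nv H (A.γ a z)) (A.U a) := by
  have h1 : ContinuousOn (fun z => nrm2 (D.k a) (A.pot H a) z) (A.U a) := by
    refine continuous_re.comp_continuousOn ?_
    refine continuousOn_finsetSum _ fun i _ => continuousOn_finsetSum _ fun j _ => ?_
    have h2 : ContinuousOn (fun w => hess (A.pot H a) w i j) (A.U a) :=
      (contDiffOn_hess (Ω := A.Om a) (A.pot H a) (hK.smooth a) i j).continuousOn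
    exact ((continuous_const.mul (continuous_apply i)).mul
      (continuous_conj.comp (continuous_const.mul (continuous_apply j)))).continuousOn.mul h2
  exact h1.congr fun z hz => PolAtlas.nv_γ hK D hinv hz

theorem nv_nonneg (y : Y) : 0 ≤ D.nv H y := by
  obtain ⟨a, z, hz, c, rfl⟩ := A.cover y
  rw [PolAtlas.nv_smul hK, PolAtlas.nv_γ hK D hinv hz]
  exact nrm2_nonneg (hK.posDef a z hz)

theorem tendsto_mu (L : Labels A D) {a : A.ι} {j : Fin 2} {v : L.V} (h : L.lab a j = Lb.vert v)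
    (hm : axis j 0 ∈ A.U a) {l : Filter ℝ}
    (hl : Tendsto (fun t : ℝ => (D.k a (1 - j) : ℝ) * t) l atBot) :
    Tendsto (fun t : ℝ => D.mu H (D.act (expU t) (L.p v))) l (𝓝 (D.m a)) := by
  obtain ⟨w₁, hw₁, hm₁⟩ := exists_ne hm
  obtain ⟨c', hc'⟩ := axis_orbit L h hw₁ hm₁
  have hε := L.vert_k a j v h
  set ε := D.k a (1 - j) with hεdef
  have h1 : Tendsto (fun t : ℝ => (((c'⁻¹ * expU t) ^ ε : ℂˣ) : ℂ)) l (𝓝 0) := by
    rw [tendsto_zero_iff_norm_tendsto_zero]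
    have h2 : ∀ t : ℝ, ‖(((c'⁻¹ * expU t) ^ ε : ℂˣ) : ℂ)‖ =
        ‖((c'⁻¹ : ℂˣ) : ℂ)‖ ^ ε * Real.exp (ε * t) := by
      intro t
      rw [mul_zpow, Units.val_mul, norm_mul, Units.val_zpow_eq_zpow_val, norm_zpow, expU_zpow,
        norm_expU]
      congr 2
      simp
    simp only [h2]
    have h3 := (Real.tendsto_exp_atBot.comp hl).const_mul (‖((c'⁻¹ : ℂˣ) : ℂ)‖ ^ ε)
    rw [mul_zero] at h3
    exact h3
  have h2 : ContinuousAt (fun w : ℂ => D.mu H (A.γ a (axis j w))) 0 :=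
    ContinuousAt.comp (g := fun z => D.mu H (A.γ a z))
      ((continuousOn_mu hK hinv a).continuousAt ((A.isOpen_U a).mem_nhds hm))
      (continuous_axis j).continuousAt
  have h3 : D.mu H (A.γ a (axis j 0)) = D.m a :=
    (PolAtlas.chMu hK D hinv a).mu_fix hm fun i => by
      have : axis j (0 : ℂ) = 0 := by
        ext i
        fin_cases j <;> fin_cases i <;> rfl
      rw [this]
      simp
  have h4 := h2.tendsto.comp h1
  rw [h3] at h4
  refine h4.congr fun t => ?_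
  obtain ⟨hU, d, hd⟩ := hc' ((c'⁻¹ * expU t) ^ ε)
  rw [Function.comp_apply, hd, PolAtlas.mu_smul hK, zpow_zpow_self hε, mul_inv_cancel_left]

end Orb

end

end Pool.Agent.YTDA


end

/- source: Pool.Agent.YTDA.SigLab -/

section

/-!
The surface `Σ`: exponents of the coordinates `s`, `w` and of the frames in the charts, and
labels of the coordinate axes of the charts.
-/

namespace Pool.Agent.YTDA

open Complex Set Topology Metric Filter
open Pool.Agent.YTD

noncomputable section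

namespace Sig

variable {K : Type} [Field K] [Algebra ℂ K] {T : Datum K}
variable {q : ℕ} {D₀ : T.X.Pt →₀ ℤ} {An : AnCurve T.X.toCurveOrd} {r : T.X.Pt → ℝ}

/-! ### Exponents -/

/-- the sign of a side: the fibre coordinate of the side is `w ^ sg σ` -/
def sg (σ : Bool) : ℤ := if σ then -1 else 1

theorem uw_sg (σ : Bool) (w : ℂˣ) : uw σ w = w ^ sg σ := by
  cases σ
  · exact (zpow_one w).symm
  · exact (zpow_neg_one w).symm

theorem sg_mul_self (σ : Bool) : sg σ * sg σ = 1 := by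
  cases σ <;> rfl

/-- the side of a chart -/
def side (a : T.X.Pt × Fin 3) : Bool :=
  match a.2 with
  | 0 => false
  | 1 => true
  | 2 => sd T a.1

/-- exponents of the coordinate `s` of the curve in a chart -/
def es (a : T.X.Pt × Fin 3) : Fin 2 → ℤ :=
  match a.2 with
  | 0 => ![1, 0]
  | 1 => ![1, 0]
  | 2 => ![1, 1]

open Classical in
/-- exponents of the fibre coordinate of the side of a chart -/
def ev (a : T.X.Pt × Fin 3) : Fin 2 → ℤ :=
  match a.2 with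
  | 0 => if Bl T false a.1 then ![1, 1] else ![0, 1]
  | 1 => if Bl T true a.1 then ![1, 1] else ![0, 1]
  | 2 => ![1, 0]

/-- exponents of the fibre coordinate `w` in a chart -/
def ew (a : T.X.Pt × Fin 3) (j : Fin 2) : ℤ := sg (side a) * ev a j

open Classical in
/-- exponents of the factor between the frame of a chart and the frame `o` -/
def eg (q : ℕ) (a : T.X.Pt × Fin 3) : Fin 2 → ℤ :=
  match a.2 with
  | 0 => if Bl T false a.1 then ![4 * (q : ℤ), 5 * q] else ![0, 5 * q]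
  | 1 => if Bl T true a.1 then ![4 * (q : ℤ), 5 * q] else ![0, 5 * q]
  | 2 => ![4 * (q : ℤ), 0]

theorem side_ei (P : T.X.Pt) (σ : Bool) : side (P, ei σ) = σ := by
  cases σ <;> rfl

theorem side_two (P : T.X.Pt) : side (P, 2) = sd T P := rfl

theorem es_ei (P : T.X.Pt) (σ : Bool) : es (P, ei σ) = ![1, 0] := by
  cases σ <;> rfl

theorem es_two (P : T.X.Pt) : es (P, 2) = ![1, 1] := rfl

theorem ev_pc {P : T.X.Pt} {σ : Bool} (h : ¬ Bl T σ P) : ev (P, ei σ) = ![0, 1] := by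
  cases σ <;> exact if_neg h

theorem ev_bl {P : T.X.Pt} {σ : Bool} (h : Bl T σ P) : ev (P, ei σ) = ![1, 1] := by
  cases σ <;> exact if_pos h

theorem ev_two (P : T.X.Pt) : ev (P, 2) = ![1, 0] := rfl

theorem eg_pc {P : T.X.Pt} {σ : Bool} (h : ¬ Bl T σ P) :
    eg q (P, ei σ) = ![0, 5 * (q : ℤ)] := by
  cases σ <;> exact if_neg h

theorem eg_bl {P : T.X.Pt} {σ : Bool} (h : Bl T σ P) :
    eg q (P, ei σ) = ![4 * (q : ℤ), 5 * q] := by
  cases σ <;> exact if_pos h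

theorem eg_two (P : T.X.Pt) : eg q (P, 2) = ![4 * (q : ℤ), 0] := rfl

theorem kk_ei (P : T.X.Pt) (σ : Bool) : kk (P, ei σ) = ![0, sg σ] := by
  cases σ <;> rfl

theorem kk_two (P : T.X.Pt) : kk (P, 2) = ![sg (sd T P), - sg (sd T P)] := by
  show (if sd T P then ![-1, 1] else ![1, -1]) = _
  cases sd T P
  · rfl
  · rfl

theorem mm_ei' (P : T.X.Pt) (σ : Bool) : mm q (P, ei σ) = -(5 * q * sg σ) := by
  cases σ
  · show (-5 * q : ℤ) = -(5 * q * 1)
    ring
  · show (5 * q : ℤ) = -(5 * q * -1)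
    ring

theorem mm_two' (P : T.X.Pt) : mm q (P, 2) = -(4 * q * sg (sd T P)) := by
  show (if sd T P then 4 * (q : ℤ) else -4 * q) = _
  cases sd T P
  · show (-4 * q : ℤ) = -(4 * q * 1)
    ring
  · show (4 * q : ℤ) = -(4 * q * -1)
    ring

/-- every chart is a plain end chart, a blown up end chart or a middle chart -/
theorem chart_types {p : T.X.Pt × Fin 3 → Prop} (h1 : ∀ P σ, ¬ Bl T σ P → p (P, ei σ))
    (h2 : ∀ P σ, Bl T σ P → p (P, ei σ)) (h3 : ∀ P, p (P, 2)) : ∀ a, p a := by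
  apply chart_cases
  · intro P σ
    by_cases h : Bl T σ P
    · exact h2 P σ h
    · exact h1 P σ h
  · exact h3

theorem sum_es (a : T.X.Pt × Fin 3) : ∑ j, es a j * kk a j = 0 := by
  revert a
  apply chart_types
  · intro P σ h
    rw [es_ei, kk_ei, Fin.sum_univ_two]
    simp
  · intro P σ h
    rw [es_ei, kk_ei, Fin.sum_univ_two]
    simp
  · intro P
    rw [es_two, kk_two, Fin.sum_univ_two]
    simp

theorem sum_ev (a : T.X.Pt × Fin 3) : ∑ j, ev a j * kk a j = sg (side a) := by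
  revert a
  apply chart_types
  · intro P σ h
    rw [ev_pc h, kk_ei, Fin.sum_univ_two, side_ei]
    simp
  · intro P σ h
    rw [ev_bl h, kk_ei, Fin.sum_univ_two, side_ei]
    simp
  · intro P
    rw [ev_two, kk_two, Fin.sum_univ_two, side_two]
    simp

theorem sum_ew (a : T.X.Pt × Fin 3) : ∑ j, ew a j * kk a j = 1 := by
  unfold ew
  have : ∀ j, sg (side a) * ev a j * kk a j = sg (side a) * (ev a j * kk a j) := fun j =>
    mul_assoc _ _ _
  simp_rw [this]
  rw [← Finset.mul_sum, sum_ev, sg_mul_self]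

theorem sum_eg (a : T.X.Pt × Fin 3) : ∑ j, eg q a j * kk a j = - mm q a := by
  revert a
  apply chart_types
  · intro P σ h
    rw [eg_pc h, kk_ei, Fin.sum_univ_two, mm_ei']
    simp
  · intro P σ h
    rw [eg_bl h, kk_ei, Fin.sum_univ_two, mm_ei']
    simp
  · intro P
    rw [eg_two, kk_two, Fin.sum_univ_two, mm_two']
    simp

/-- a Laurent monomial -/
def mo (e : Fin 2 → ℤ) (z₀ z₁ : ℂˣ) : ℂˣ := z₀ ^ e 0 * z₁ ^ e 1

theorem mo2 (a b : ℤ) (z₀ z₁ : ℂˣ) : mo ![a, b] z₀ z₁ = z₀ ^ a * z₁ ^ b := rfl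

/-- the frames of the charts in terms of `o` -/
theorem ch_oo (a : T.X.Pt × Fin 3) (z₀ z₁ : ℂˣ) :
    ch q D₀ An a ![(z₀ : ℂ), (z₁ : ℂ)] = mo (eg q a) z₀ z₁ •
      oo D₀ An a.1 (mo (es a) z₀ z₁ : ℂˣ) (uw (side a) (mo (ev a) z₀ z₁)) := by
  revert a
  apply chart_types
  · intro P σ h
    rw [ch_ei, endc_pc h, pc_oo, eg_pc h, es_ei, ev_pc h, side_ei, mo2, mo2, mo2, zpow_one,
      zpow_zero, zpow_zero, mul_one, one_mul, one_mul, zpow_one]
  · intro P σ h
    rw [ch_ei, endc_bl h, bl_oo, eg_bl h, es_ei, ev_bl h, side_ei, mo2, mo2, mo2, zpow_one,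
      zpow_zero, mul_one, zpow_one, mul_zpow, mul_right_comm, ← zpow_add]
    congr 3
    ring
  · intro P
    rw [ch_two, mid_oo, eg_two, es_two, ev_two, side_two, mo2, mo2, mo2, zpow_zero, mul_one,
      zpow_one, zpow_one, mul_one, Units.val_mul]

/-! ### The monomial functions on the line bundle -/

/-- the fibre coordinate (`1` outside of the main part) -/
def wv (y : YY T) : ℂˣ :=
  match y.fib with
  | .main w => w
  | _ => 1

theorem wv_smul (c : ℂˣ) (y : YY T) : wv (c • y) = wv y := rfl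

theorem oo_eq (P : T.X.Pt) (s : ℂ) (w : ℂˣ) :
    oo D₀ An P s w = ⟨An.c P s, .main w, upow s (D₀ P), trivial⟩ := mkY_of (φ := .main w) trivial _

theorem wv_ch (a : T.X.Pt × Fin 3) (z₀ z₁ : ℂˣ) :
    wv (ch q D₀ An a ![(z₀ : ℂ), (z₁ : ℂ)]) = uw (side a) (mo (ev a) z₀ z₁) := by
  rw [ch_oo, wv_smul, oo_eq]
  rfl

theorem u_ch (a : T.X.Pt × Fin 3) (z₀ z₁ : ℂˣ) :
    (ch q D₀ An a ![(z₀ : ℂ), (z₁ : ℂ)]).u =
      mo (eg q a) z₀ z₁ * mo (es a) z₀ z₁ ^ D₀ a.1 := by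
  rw [ch_oo, smul_u, oo_eq]
  show _ * upow _ _ = _
  rw [upow_eq, un_coe]

theorem base_ch (a : T.X.Pt × Fin 3) (z₀ z₁ : ℂˣ) :
    (ch q D₀ An a ![(z₀ : ℂ), (z₁ : ℂ)]).base = An.c a.1 (mo (es a) z₀ z₁ : ℂˣ) := by
  rw [ch_oo, smul_base, oo_eq]

/-- the logarithm of the square of the absolute value of a monomial -/
theorem log_mo (e : Fin 2 → ℤ) (z₀ z₁ : ℂˣ) :
    Real.log (‖((mo e z₀ z₁ : ℂˣ) : ℂ)‖ ^ 2) =
      e 0 * Real.log (‖(z₀ : ℂ)‖ ^ 2) + e 1 * Real.log (‖(z₁ : ℂ)‖ ^ 2) := by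
  unfold mo
  have h0 : ‖(z₀ : ℂ)‖ ≠ 0 := norm_ne_zero_iff.2 z₀.ne_zero
  have h1 : ‖(z₁ : ℂ)‖ ≠ 0 := norm_ne_zero_iff.2 z₁.ne_zero
  rw [Units.val_mul, Units.val_zpow_eq_zpow_val, Units.val_zpow_eq_zpow_val, norm_mul, norm_zpow,
    norm_zpow, mul_pow, Real.log_mul (pow_ne_zero _ (zpow_ne_zero _ h0))
    (pow_ne_zero _ (zpow_ne_zero _ h1)), Real.log_pow, Real.log_pow, Real.log_zpow,
    Real.log_zpow, Real.log_pow, Real.log_pow]
  push_cast
  ring

theorem log_uw (σ : Bool) (w : ℂˣ) :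
    Real.log (‖((uw σ w : ℂˣ) : ℂ)‖ ^ 2) = sg σ * Real.log (‖(w : ℂ)‖ ^ 2) := by
  rw [uw_sg, Units.val_zpow_eq_zpow_val, norm_zpow, Real.log_pow, Real.log_zpow, Real.log_pow]
  push_cast
  ring

/-- `log |w|²` in a chart -/
theorem log_wv_ch (a : T.X.Pt × Fin 3) (z₀ z₁ : ℂˣ) :
    Real.log (‖((wv (ch q D₀ An a ![(z₀ : ℂ), (z₁ : ℂ)]) : ℂˣ) : ℂ)‖ ^ 2) =
      ew a 0 * Real.log (‖(z₀ : ℂ)‖ ^ 2) + ew a 1 * Real.log (‖(z₁ : ℂ)‖ ^ 2) := by
  rw [wv_ch, log_uw, log_mo]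
  unfold ew
  push_cast
  ring

/-- `log |u|²` in a chart -/
theorem log_u_ch (a : T.X.Pt × Fin 3) (z₀ z₁ : ℂˣ) :
    Real.log (‖(((ch q D₀ An a ![(z₀ : ℂ), (z₁ : ℂ)]).u : ℂˣ) : ℂ)‖ ^ 2) =
      (eg q a 0 + D₀ a.1 * es a 0) * Real.log (‖(z₀ : ℂ)‖ ^ 2) +
      (eg q a 1 + D₀ a.1 * es a 1) * Real.log (‖(z₁ : ℂ)‖ ^ 2) := by
  rw [u_ch]
  have h : ∀ x y : ℂˣ, Real.log (‖((x * y : ℂˣ) : ℂ)‖ ^ 2) =
      Real.log (‖(x : ℂ)‖ ^ 2) + Real.log (‖(y : ℂ)‖ ^ 2) := by
    intro x y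
    rw [Units.val_mul, norm_mul, mul_pow, Real.log_mul
      (pow_ne_zero _ (norm_ne_zero_iff.2 x.ne_zero)) (pow_ne_zero _ (norm_ne_zero_iff.2 y.ne_zero))]
  have h2 : ∀ (x : ℂˣ) (d : ℤ), Real.log (‖((x ^ d : ℂˣ) : ℂ)‖ ^ 2) =
      d * Real.log (‖(x : ℂ)‖ ^ 2) := by
    intro x d
    rw [Units.val_zpow_eq_zpow_val, norm_zpow, Real.log_pow, Real.log_zpow, Real.log_pow]
    push_cast
    ring
  rw [h, h2, log_mo, log_mo]
  ring

/-! ### Labels of the axes -/

/-- the curves of `Σ` which are coordinate axes of charts -/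
inductive Lab (T : Datum K)
  /-- no curve (for empty charts) -/
  | no
  /-- the section at the bottom -/
  | zer
  /-- the section at the top -/
  | inf
  /-- the (strict transform of the) fibre over a point -/
  | fi (P : T.X.Pt)
  /-- the exceptional curve over a point -/
  | ex (P : T.X.Pt)

/-- the horizontal curve at an end -/
def hor (T : Datum K) (σ : Bool) : Lab T := if σ then .inf else .zer

open Classical in
/-- the vertical curve through the end of a fibre -/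
def ver (P : T.X.Pt) (σ : Bool) : Lab T := if Bl T σ P then .ex P else .fi P

theorem ver_bl {P : T.X.Pt} {σ : Bool} (h : Bl T σ P) : ver P σ = .ex P := if_pos h

theorem ver_pc {P : T.X.Pt} {σ : Bool} (h : ¬ Bl T σ P) : ver P σ = .fi P := if_neg h

open Classical in
/-- labels of the axes of a chart -/
def lab (a : T.X.Pt × Fin 3) : Fin 2 → Lab T :=
  match a.2 with
  | 0 => ![ver a.1 false, .zer]
  | 1 => ![ver a.1 true, .inf]
  | 2 => if Exc T a.1 then ![.ex a.1, .fi a.1] else ![.no, .no]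

theorem lab_ei (P : T.X.Pt) (σ : Bool) : lab (P, ei σ) = ![ver P σ, hor T σ] := by
  cases σ <;> rfl

theorem lab_pc {P : T.X.Pt} {σ : Bool} (h : ¬ Bl T σ P) :
    lab (P, ei σ) = ![.fi P, hor T σ] := by
  rw [lab_ei, ver_pc h]

theorem lab_bl {P : T.X.Pt} {σ : Bool} (h : Bl T σ P) :
    lab (P, ei σ) = ![.ex P, hor T σ] := by
  rw [lab_ei, ver_bl h]

theorem lab_two {P : T.X.Pt} (h : Exc T P) : lab (P, 2) = ![.ex P, .fi P] := if_pos h

theorem lab_two' {P : T.X.Pt} (h : ¬ Exc T P) : lab (P, 2) = ![.no, .no] := if_neg h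

/-- every chart is a plain end chart, a blown up end chart, a nonempty or an empty middle chart -/
theorem chart_types' {p : T.X.Pt × Fin 3 → Prop} (h1 : ∀ P σ, ¬ Bl T σ P → p (P, ei σ))
    (h2 : ∀ P σ, Bl T σ P → p (P, ei σ)) (h3 : ∀ P, Exc T P → p (P, 2))
    (h4 : ∀ P, ¬ Exc T P → p (P, 2)) : ∀ a, p a := by
  apply chart_types h1 h2
  intro P
  by_cases h : Exc T P
  · exact h3 P h
  · exact h4 P h

/-- horizontal axes: the weight of the other coordinate is zero -/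
theorem lab_hor (a : T.X.Pt × Fin 3) (j : Fin 2) (σ : Bool) (h : lab a j = hor T σ) :
    kk a (1 - j) = 0 ∧ mm q a = -(5 * q * sg σ) := by
  revert a
  have h1 : ∀ P τ, ver P τ ≠ hor T σ := by
    intro P τ
    unfold ver
    split_ifs <;> cases σ <;> exact fun h => by cases h
  have h2 : ∀ τ, hor T τ = hor T σ → τ = σ := by
    intro τ h
    cases τ <;> cases σ <;> first | rfl | cases h
  have key : ∀ P τ, lab (P, ei τ) j = hor T σ →
      kk (P, ei τ) (1 - j) = 0 ∧ mm q (P, ei τ) = -(5 * q * sg σ) := by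
    intro P τ h
    rw [lab_ei] at h
    fin_cases j
    · exact (h1 P τ h).elim
    · have := h2 τ h
      subst this
      rw [kk_ei, mm_ei']
      exact ⟨rfl, rfl⟩
  apply chart_types'
  · exact fun P τ _ => key P τ
  · exact fun P τ _ => key P τ
  · intro P hP h
    rw [lab_two hP] at h
    fin_cases j <;> cases σ <;> cases h
  · intro P hP h
    rw [lab_two' hP] at h
    fin_cases j <;> cases σ <;> cases h

end Sig

namespace Sig

variable {K : Type} [Field K] [Algebra ℂ K] {T : Datum K}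
variable {q : ℕ} {D₀ : T.X.Pt →₀ ℤ} {An : AnCurve T.X.toCurveOrd} {r : T.X.Pt → ℝ}

theorem exists_smul_of_pt {y y' : YY T} (h : pt y' = pt y) : ∃ c : ℂˣ, y' = c • y :=
  eq_smul_of_pt h

theorem pt_act (c : ℂˣ) (y : YY T) : pt (act q c y) = (y.base, actF y.base c y.fib) := rfl

/-- the isolated points of the curve -/
def IsoPt (An : AnCurve T.X.toCurveOrd) (r : T.X.Pt → ℝ) (Q : T.X.Pt) : Prop :=
  ∀ P, ∀ s ∈ ball (0 : ℂ) (r P), s ≠ 0 → An.c P s ≠ Q

theorem isoPt_exc (hr : IsRad D₀ An r) {Q : T.X.Pt} (hQ : Exc T Q) : IsoPt An r Q := by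
  intro P s hs h0 he
  apply hr.not_exc hs h0
  rw [he]
  exact hQ

theorem isoPt_D (hr : IsRad D₀ An r) {Q : T.X.Pt} (hQ : D₀ Q ≠ 0) : IsoPt An r Q := by
  intro P s hs h0 he
  apply hQ
  rw [← he]
  exact (hr.iso P s hs h0).2.2

theorem lab_fi {a : T.X.Pt × Fin 3} {j : Fin 2} {Q : T.X.Pt} (h : lab a j = .fi Q) :
    (∃ σ, ¬ Bl T σ Q ∧ a = (Q, ei σ) ∧ j = 0) ∨ (Exc T Q ∧ a = (Q, 2) ∧ j = 1) := by
  revert a
  apply chart_types'
  · intro P σ hb h
    rw [lab_pc hb] at h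
    fin_cases j
    · have h' : Lab.fi P = Lab.fi (T := T) Q := h
      injection h' with h1
      subst h1
      exact Or.inl ⟨σ, hb, rfl, rfl⟩
    · cases σ <;> cases h
  · intro P σ hb h
    rw [lab_bl hb] at h
    fin_cases j
    · cases h
    · cases σ <;> cases h
  · intro P hP h
    rw [lab_two hP] at h
    fin_cases j
    · cases h
    · have h' : Lab.fi P = Lab.fi (T := T) Q := h
      injection h' with h1
      subst h1
      exact Or.inr ⟨hP, rfl, rfl⟩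
  · intro P hP h
    rw [lab_two' hP] at h
    fin_cases j <;> cases h

theorem lab_ex {a : T.X.Pt × Fin 3} {j : Fin 2} {Q : T.X.Pt} (h : lab a j = .ex Q) :
    (∃ σ, Bl T σ Q ∧ a = (Q, ei σ) ∧ j = 0) ∨ (Exc T Q ∧ a = (Q, 2) ∧ j = 0) := by
  revert a
  apply chart_types'
  · intro P σ hb h
    rw [lab_pc hb] at h
    fin_cases j
    · cases h
    · cases σ <;> cases h
  · intro P σ hb h
    rw [lab_bl hb] at h
    fin_cases j
    · have h' : Lab.ex P = Lab.ex (T := T) Q := h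
      injection h' with h1
      subst h1
      exact Or.inl ⟨σ, hb, rfl, rfl⟩
    · cases σ <;> cases h
  · intro P hP h
    rw [lab_two hP] at h
    fin_cases j
    · have h' : Lab.ex P = Lab.ex (T := T) Q := h
      injection h' with h1
      subst h1
      exact Or.inr ⟨hP, rfl, rfl⟩
    · cases h
  · intro P hP h
    rw [lab_two' hP] at h
    fin_cases j <;> cases h

/-- `(lo, hi)` for a fibre -/
def loF (T : Datum K) (q : ℕ) (Q : T.X.Pt) : ℤ := open Classical in if Bl T false Q then -4 * q else -5 * q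

/-- `(lo, hi)` for a fibre -/
def hiF (T : Datum K) (q : ℕ) (Q : T.X.Pt) : ℤ := open Classical in if Bl T true Q then 4 * q else 5 * q

/-- `(lo, hi)` for an exceptional curve -/
def loE (T : Datum K) (q : ℕ) (Q : T.X.Pt) : ℤ := open Classical in if Bl T false Q then -5 * q else 4 * q

/-- `(lo, hi)` for an exceptional curve -/
def hiE (T : Datum K) (q : ℕ) (Q : T.X.Pt) : ℤ := open Classical in if Bl T false Q then -4 * q else 5 * q

theorem bl_sd {P : T.X.Pt} (h : Exc T P) : Bl T (sd T P) P := ⟨h, rfl⟩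

theorem not_bl_not {P : T.X.Pt} {σ : Bool} (h : Bl T σ P) : ¬ Bl T (!σ) P := by
  rintro ⟨_, h2⟩
  rw [h.2] at h2
  cases σ <;> simp at h2

theorem mem_axis_ei (hr : IsRad D₀ An r) (P : T.X.Pt) (σ : Bool) {z : E 2} (hz : z 0 = 0) :
    z ∈ UU r (P, ei σ) := by
  rw [UU_ei]
  show ‖z 0‖ < r P
  rw [hz, norm_zero]
  exact hr.pos _

theorem mem_axis_two (hr : IsRad D₀ An r) {P : T.X.Pt} (hP : Exc T P) {z : E 2} {j : Fin 2}
    (hz : z j = 0) : z ∈ UU r (P, 2) := by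
  rw [UU_two]
  refine ⟨hP, ?_⟩
  have : z 0 * z 1 = 0 := by
    fin_cases j
    · exact mul_eq_zero_of_left hz _
    · exact mul_eq_zero_of_right _ hz
  rw [this, norm_zero]
  exact hr.pos _

theorem kk_ei_one (P : T.X.Pt) (σ : Bool) : kk (P, ei σ) 1 = 1 ∨ kk (P, ei σ) 1 = -1 := by
  rw [kk_ei]
  cases σ
  · exact Or.inl rfl
  · exact Or.inr rfl

theorem kk_two_pm (P : T.X.Pt) (j : Fin 2) : kk (P, 2) j = 1 ∨ kk (P, 2) j = -1 := by
  rw [kk_two]
  cases sd T P <;> fin_cases j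
  · exact Or.inl rfl
  · exact Or.inr rfl
  · exact Or.inr rfl
  · exact Or.inl rfl

/-- the points of an axis labelled by a fibre -/
theorem orb_fi {Q : T.X.Pt} {a : T.X.Pt × Fin 3} {j : Fin 2} (h : lab a j = .fi Q) {w : ℂ}
    (hw : w ≠ 0) : ∃ w' : ℂˣ, pt (ch q D₀ An a (axis j w)) = (Q, .main w') := by
  rcases lab_fi h with ⟨σ, hb, rfl, rfl⟩ | ⟨hP, rfl, rfl⟩
  · refine ⟨uw σ (un w), ?_⟩
    rw [axis_zero, ch_ei, endc_pc hb, pt_pc]
    show (An.c Q 0, pfib σ w) = _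
    rw [An.c_zero, pfib_ne hw]
  · refine ⟨uw (sd T Q) (un w), ?_⟩
    rw [axis_one, ch_two, pt_mid_ne q D₀ An (by exact hw)]
    show (An.c Q (w * 0), Fib.main (uw (sd T Q) (un w))) = _
    rw [mul_zero, An.c_zero]

/-- the points of an axis labelled by an exceptional curve -/
theorem orb_ex {Q : T.X.Pt} {a : T.X.Pt × Fin 3} {j : Fin 2} (h : lab a j = .ex Q) {w : ℂ}
    (hw : w ≠ 0) : ∃ e : ℂˣ, pt (ch q D₀ An a (axis j w)) = (Q, .exc e) := by
  rcases lab_ex h with ⟨σ, hb, rfl, rfl⟩ | ⟨hP, rfl, rfl⟩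
  · refine ⟨un w, ?_⟩
    rw [axis_zero, ch_ei, endc_bl hb, pt_bl_exc q D₀ An hb.1 (by rfl) (by exact hw)]
    rfl
  · refine ⟨(un w)⁻¹, ?_⟩
    rw [axis_zero, ch_two, pt_mid_exc q D₀ An hP (by rfl) (by exact hw)]
    rfl

theorem axis_fi {Q : T.X.Pt} (hQ : IsoPt An r Q) (a : T.X.Pt × Fin 3) (z : E 2)
    (hz : z ∈ UU r a) {w : ℂˣ} (h1 : pt (ch q D₀ An a z) = (Q, .main w)) :
    ∃ j, lab a j = .fi Q ∧ z j = 0 := by
  have hQ' : ∀ P, ∀ s : ℂ, ‖s‖ < r P → An.c P s = Q → s = 0 ∧ P = Q := by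
    intro P s hs hc
    by_cases h0 : s = 0
    · refine ⟨h0, ?_⟩
      rw [← hc, h0, An.c_zero]
    · exact (hQ P s (mem_b.2 hs) h0 hc).elim
  revert a
  apply chart_types'
  · intro P σ hb hz h1
    rw [UU_ei] at hz
    rw [ch_ei, endc_pc hb, pt_pc] at h1
    obtain ⟨h2, h3⟩ := hQ' P (z 0) hz (congrArg Prod.fst h1)
    subst h3
    refine ⟨0, ?_, h2⟩
    rw [lab_pc hb]
    rfl
  · intro P σ hb hz h1
    rw [UU_ei] at hz
    rw [ch_ei, endc_bl hb] at h1
    by_cases h0 : z 0 = 0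
    · by_cases h0' : z 1 = 0
      · rw [pt_bl_zero q D₀ An h0 h0'] at h1
        have h2 := congrArg Prod.snd h1
        cases h2
      · rw [pt_bl_exc q D₀ An hb.1 h0 h0'] at h1
        have h2 := congrArg Prod.snd h1
        cases h2
    · rw [pt_bl_ne q D₀ An h0] at h1
      exact (h0 (hQ' P (z 0) hz (congrArg Prod.fst h1)).1).elim
  · intro P hP hz h1
    rw [UU_two] at hz
    rw [ch_two] at h1
    by_cases h0 : z 0 = 0
    · by_cases h0' : z 1 = 0
      · rw [pt_mid_node q D₀ An hP h0 h0'] at h1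
        have h2 := congrArg Prod.snd h1
        cases h2
      · rw [pt_mid_exc q D₀ An hP h0 h0'] at h1
        have h2 := congrArg Prod.snd h1
        cases h2
    · rw [pt_mid_ne q D₀ An h0] at h1
      obtain ⟨h2, h3⟩ := hQ' P _ hz.2 (congrArg Prod.fst h1)
      subst h3
      refine ⟨1, ?_, (mul_eq_zero.1 h2).resolve_left h0⟩
      rw [lab_two hP]
      rfl
  · intro P hP hz _
    rw [UU_two] at hz
    exact (hP hz.1).elim

theorem axis_ex {Q : T.X.Pt} (a : T.X.Pt × Fin 3) (z : E 2)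
    (hz : z ∈ UU r a) {e : ℂˣ} (h1 : pt (ch q D₀ An a z) = (Q, .exc e)) :
    ∃ j, lab a j = .ex Q ∧ z j = 0 := by
  revert a
  apply chart_types'
  · intro P σ hb hz h1
    rw [ch_ei, endc_pc hb, pt_pc] at h1
    exact (pfib_ne_exc (congrArg Prod.snd h1)).elim
  · intro P σ hb hz h1
    rw [ch_ei, endc_bl hb] at h1
    by_cases h0 : z 0 = 0
    · by_cases h0' : z 1 = 0
      · rw [pt_bl_zero q D₀ An h0 h0'] at h1
        have h2 := congrArg Prod.snd h1
        cases h2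
      · rw [pt_bl_exc q D₀ An hb.1 h0 h0'] at h1
        have h3 : P = Q := congrArg Prod.fst h1
        subst h3
        refine ⟨0, ?_, h0⟩
        rw [lab_bl hb]
        rfl
    · rw [pt_bl_ne q D₀ An h0] at h1
      exact (pfib_ne_exc (congrArg Prod.snd h1)).elim
  · intro P hP hz h1
    rw [ch_two] at h1
    by_cases h0 : z 0 = 0
    · by_cases h0' : z 1 = 0
      · rw [pt_mid_node q D₀ An hP h0 h0'] at h1
        have h2 := congrArg Prod.snd h1
        cases h2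
      · rw [pt_mid_exc q D₀ An hP h0 h0'] at h1
        have h3 : P = Q := congrArg Prod.fst h1
        subst h3
        refine ⟨0, ?_, h0⟩
        rw [lab_two hP]
        rfl
    · rw [pt_mid_ne q D₀ An h0] at h1
      have h2 := congrArg Prod.snd h1
      cases h2
  · intro P hP hz _
    rw [UU_two] at hz
    exact (hP hz.1).elim

theorem inj_fi {Q : T.X.Pt} (a : T.X.Pt × Fin 3) (h0 : lab a 0 = .fi Q) : lab a 1 ≠ .fi Q := by
  intro h1
  rcases lab_fi h0 with ⟨σ, _, h, _⟩ | ⟨_, _, h⟩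
  · rcases lab_fi h1 with ⟨_, _, _, h'⟩ | ⟨_, h', _⟩
    · cases h'
    · rw [h] at h'
      have : ei σ = 2 := congrArg Prod.snd h'
      cases σ <;> cases this
  · cases h

theorem inj_ex {Q : T.X.Pt} (a : T.X.Pt × Fin 3) : lab a 1 ≠ .ex Q := by
  intro h1
  rcases lab_ex h1 with ⟨_, _, _, h⟩ | ⟨_, _, h⟩ <;> cases h

theorem low_fi (hr : IsRad D₀ An r) (Q : T.X.Pt) : ∃ (a : T.X.Pt × Fin 3) (j : Fin 2), lab a j = .fi Q ∧
    kk a (1 - j) = 1 ∧ mm q a = loF T q Q ∧ axis j 0 ∈ UU r a := by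
  unfold loF
  by_cases hb : Bl T false Q
  · refine ⟨(Q, 2), 1, ?_, ?_, ?_, mem_axis_two hr hb.1 (axis_same 1 0)⟩
    · rw [lab_two hb.1]
      rfl
    · show kk (Q, 2) 0 = 1
      rw [kk_two, hb.2]
      rfl
    · rw [if_pos hb, mm_two', hb.2]
      show -(4 * (q : ℤ) * 1) = _
      ring
  · refine ⟨(Q, ei false), 0, ?_, ?_, ?_, mem_axis_ei hr Q false (axis_same 0 0)⟩
    · rw [lab_pc hb]
      rfl
    · show kk (Q, ei false) 1 = 1
      rw [kk_ei]
      rfl
    · rw [if_neg hb, mm_ei']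
      show -(5 * (q : ℤ) * 1) = _
      ring

theorem high_fi (hr : IsRad D₀ An r) (Q : T.X.Pt) : ∃ (a : T.X.Pt × Fin 3) (j : Fin 2), lab a j = .fi Q ∧
    kk a (1 - j) = -1 ∧ mm q a = hiF T q Q ∧ axis j 0 ∈ UU r a := by
  unfold hiF
  by_cases hb : Bl T true Q
  · refine ⟨(Q, 2), 1, ?_, ?_, ?_, mem_axis_two hr hb.1 (axis_same 1 0)⟩
    · rw [lab_two hb.1]
      rfl
    · show kk (Q, 2) 0 = -1
      rw [kk_two, hb.2]
      rfl
    · rw [if_pos hb, mm_two', hb.2]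
      show -(4 * (q : ℤ) * -1) = _
      ring
  · refine ⟨(Q, ei true), 0, ?_, ?_, ?_, mem_axis_ei hr Q true (axis_same 0 0)⟩
    · rw [lab_pc hb]
      rfl
    · show kk (Q, ei true) 1 = -1
      rw [kk_ei]
      rfl
    · rw [if_neg hb, mm_ei']
      show -(5 * (q : ℤ) * -1) = _
      ring

theorem low_ex (hr : IsRad D₀ An r) {Q : T.X.Pt} (hQ : Exc T Q) : ∃ (a : T.X.Pt × Fin 3) (j : Fin 2),
    lab a j = .ex Q ∧ kk a (1 - j) = 1 ∧ mm q a = loE T q Q ∧ axis j 0 ∈ UU r a := by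
  unfold loE
  by_cases hb : Bl T false Q
  · refine ⟨(Q, ei false), 0, ?_, ?_, ?_, mem_axis_ei hr Q false (axis_same 0 0)⟩
    · rw [lab_bl hb]
      rfl
    · show kk (Q, ei false) 1 = 1
      rw [kk_ei]
      rfl
    · rw [if_pos hb, mm_ei']
      show -(5 * (q : ℤ) * 1) = _
      ring
  · have hb' : sd T Q = true := by
      cases h : sd T Q
      · exact (hb ⟨hQ, h⟩).elim
      · rfl
    refine ⟨(Q, 2), 0, ?_, ?_, ?_, mem_axis_two hr hQ (axis_same 0 0)⟩
    · rw [lab_two hQ]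
      rfl
    · show kk (Q, 2) 1 = 1
      rw [kk_two, hb']
      rfl
    · rw [if_neg hb, mm_two', hb']
      show -(4 * (q : ℤ) * -1) = _
      ring

theorem high_ex (hr : IsRad D₀ An r) {Q : T.X.Pt} (hQ : Exc T Q) : ∃ (a : T.X.Pt × Fin 3) (j : Fin 2),
    lab a j = .ex Q ∧ kk a (1 - j) = -1 ∧ mm q a = hiE T q Q ∧ axis j 0 ∈ UU r a := by
  unfold hiE
  by_cases hb : Bl T false Q
  · refine ⟨(Q, 2), 0, ?_, ?_, ?_, mem_axis_two hr hQ (axis_same 0 0)⟩
    · rw [lab_two hQ]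
      rfl
    · show kk (Q, 2) 1 = -1
      rw [kk_two, hb.2]
      rfl
    · rw [if_pos hb, mm_two', hb.2]
      show -(4 * (q : ℤ) * 1) = _
      ring
  · have hb' : sd T Q = true := by
      cases h : sd T Q
      · exact (hb ⟨hQ, h⟩).elim
      · rfl
    refine ⟨(Q, ei true), 0, ?_, ?_, ?_, mem_axis_ei hr Q true (axis_same 0 0)⟩
    · rw [lab_bl ⟨hQ, hb'⟩]
      rfl
    · show kk (Q, ei true) 1 = -1
      rw [kk_ei]
      rfl
    · rw [if_neg hb, mm_ei']
      show -(5 * (q : ℤ) * -1) = _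
      ring

end Sig

end

end Pool.Agent.YTDA


end

/- source: Pool.Agent.YTDA.SigLabels -/

section

/-!
The surface `Σ`: the labelling of the axes.
-/

namespace Pool.Agent.YTDA

open Complex Set Topology Metric Filter
open Pool.Agent.YTD

noncomputable section

namespace Sig

variable {K : Type} [Field K] [Algebra ℂ K] {T : Datum K}
variable {q : ℕ} {D₀ : T.X.Pt →₀ ℤ} {An : AnCurve T.X.toCurveOrd} {r : T.X.Pt → ℝ}

/-- the vertical labels: fibres over isolated points and exceptional curves -/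
abbrev VL (An : AnCurve T.X.toCurveOrd) (r : T.X.Pt → ℝ) : Type :=
  {Q : T.X.Pt // IsoPt An r Q} ⊕ {Q : T.X.Pt // Exc T Q}

variable (An r) in
open Classical in
/-- the label of a curve -/
def toLb : Lab T → Lb (VL An r)
  | .no => .none
  | .zer => .zero
  | .inf => .inf
  | .fi Q => if h : IsoPt An r Q then .vert (Sum.inl ⟨Q, h⟩) else .none
  | .ex Q => if h : Exc T Q then .vert (Sum.inr ⟨Q, h⟩) else .none

theorem toLb_fi {Q : T.X.Pt} (h : IsoPt An r Q) :
    toLb An r (.fi Q) = .vert (Sum.inl ⟨Q, h⟩) := dif_pos h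

theorem toLb_fi' {Q : T.X.Pt} (h : ¬ IsoPt An r Q) : toLb An r (.fi Q) = .none := dif_neg h

theorem toLb_ex {Q : T.X.Pt} (h : Exc T Q) :
    toLb An r (.ex Q) = .vert (Sum.inr ⟨Q, h⟩) := dif_pos h

theorem toLb_zero {l : Lab T} (h : toLb An r l = .zero) : l = .zer := by
  cases l with
  | no => cases h
  | zer => rfl
  | inf => cases h
  | fi Q =>
    by_cases hQ : IsoPt An r Q
    · rw [toLb_fi hQ] at h
      cases h
    · rw [toLb_fi' hQ] at h
      cases h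
  | ex Q =>
    by_cases hQ : Exc T Q
    · rw [toLb_ex hQ] at h
      cases h
    · have : toLb An r (.ex Q) = .none := dif_neg hQ
      rw [this] at h
      cases h

theorem toLb_inf {l : Lab T} (h : toLb An r l = .inf) : l = .inf := by
  cases l with
  | no => cases h
  | zer => cases h
  | inf => rfl
  | fi Q =>
    by_cases hQ : IsoPt An r Q
    · rw [toLb_fi hQ] at h
      cases h
    · rw [toLb_fi' hQ] at h
      cases h
  | ex Q =>
    by_cases hQ : Exc T Q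
    · rw [toLb_ex hQ] at h
      cases h
    · have : toLb An r (.ex Q) = .none := dif_neg hQ
      rw [this] at h
      cases h

theorem toLb_inl {l : Lab T} {Q : {Q : T.X.Pt // IsoPt An r Q}}
    (h : toLb An r l = .vert (Sum.inl Q)) : l = .fi Q.1 := by
  cases l with
  | no => cases h
  | zer => cases h
  | inf => cases h
  | fi Q' =>
    by_cases hQ : IsoPt An r Q'
    · rw [toLb_fi hQ] at h
      injection h with h1
      injection h1 with h2
      rw [← h2]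
    · rw [toLb_fi' hQ] at h
      cases h
  | ex Q' =>
    by_cases hQ : Exc T Q'
    · rw [toLb_ex hQ] at h
      injection h with h1
      cases h1
    · have : toLb An r (.ex Q') = .none := dif_neg hQ
      rw [this] at h
      cases h

theorem toLb_inr {l : Lab T} {Q : {Q : T.X.Pt // Exc T Q}}
    (h : toLb An r l = .vert (Sum.inr Q)) : l = .ex Q.1 := by
  cases l with
  | no => cases h
  | zer => cases h
  | inf => cases h
  | fi Q' =>
    by_cases hQ : IsoPt An r Q'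
    · rw [toLb_fi hQ] at h
      injection h with h1
      cases h1
    · rw [toLb_fi' hQ] at h
      cases h
  | ex Q' =>
    by_cases hQ : Exc T Q'
    · rw [toLb_ex hQ] at h
      injection h with h1
      injection h1 with h2
      rw [← h2]
    · have : toLb An r (.ex Q') = .none := dif_neg hQ
      rw [this] at h
      cases h

/-- base points of the vertical curves -/
def pV : VL An r → YY T
  | .inl Q => mkY T Q.1 (.main 1) 1
  | .inr Q => mkY T Q.1 (.exc 1) 1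

/-- lower moments -/
def loV (q : ℕ) : VL An r → ℤ
  | .inl Q => loF T q Q.1
  | .inr Q => loE T q Q.1

/-- upper moments -/
def hiV (q : ℕ) : VL An r → ℤ
  | .inl Q => hiF T q Q.1
  | .inr Q => hiE T q Q.1

theorem orbit_fi {Q : T.X.Pt} {w : ℂˣ} {y : YY T} (hy : pt y = (Q, .main w)) :
    ∃ c c' : ℂˣ, y = c • act q c' (mkY T Q (.main 1) 1) := by
  obtain ⟨c, hc⟩ := eq_smul_of_pt (y := act q w (mkY T Q (.main 1) 1)) (y' := y) (by
    rw [hy, act_mkY q w (P := Q) (φ := .main 1) trivial, pt_mkY (by trivial)]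
    show _ = (Q, Fib.main (w * 1))
    rw [mul_one])
  exact ⟨c, w, hc⟩

theorem orbit_ex {Q : T.X.Pt} (hQ : Exc T Q) {e : ℂˣ} {y : YY T} (hy : pt y = (Q, .exc e)) :
    ∃ c c' : ℂˣ, y = c • act q c' (mkY T Q (.exc 1) 1) := by
  obtain ⟨c, hc⟩ := eq_smul_of_pt
    (y := act q (uw (sd T Q) e) (mkY T Q (.exc 1) 1)) (y' := y) (by
    rw [hy, act_mkY q _ (P := Q) (φ := .exc 1) hQ, pt_mkY (by exact hQ)]
    show _ = (Q, Fib.exc (uw (sd T Q) (uw (sd T Q) e) * 1))
    rw [mul_one, uw_uw])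
  exact ⟨c, _, hc⟩

theorem pt_orbit_fi {Q : T.X.Pt} (c c' : ℂˣ) :
    pt (c • act q c' (mkY T Q (.main 1) 1)) = (Q, .main c') := by
  rw [pt_smul, act_mkY q c' (P := Q) (φ := .main 1) trivial, pt_mkY (by trivial)]
  show (Q, Fib.main (c' * 1)) = _
  rw [mul_one]

theorem pt_orbit_ex {Q : T.X.Pt} (hQ : Exc T Q) (c c' : ℂˣ) :
    pt (c • act q c' (mkY T Q (.exc 1) 1)) = (Q, .exc (uw (sd T Q) c')) := by
  rw [pt_smul, act_mkY q c' (P := Q) (φ := .exc 1) hQ, pt_mkY (by exact hQ)]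
  show (Q, Fib.exc (uw (sd T Q) c' * 1)) = _
  rw [mul_one]

theorem vert_k' {a : T.X.Pt × Fin 3} {j : Fin 2} {v : VL An r}
    (h : toLb An r (lab a j) = .vert v) : kk a (1 - j) = 1 ∨ kk a (1 - j) = -1 := by
  rcases v with Q | Q
  · rcases lab_fi (toLb_inl h) with ⟨σ, _, rfl, rfl⟩ | ⟨_, rfl, rfl⟩
    · exact kk_ei_one _ σ
    · exact kk_two_pm _ 0
  · rcases lab_ex (toLb_inr h) with ⟨σ, _, rfl, rfl⟩ | ⟨_, rfl, rfl⟩
    · exact kk_ei_one _ σ
    · exact kk_two_pm _ 1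

theorem vert_ne' {a : T.X.Pt × Fin 3} {j : Fin 2} {v : VL An r}
    (h : toLb An r (lab a j) = .vert v) : toLb An r (lab a (1 - j)) ≠ .vert v := by
  intro h'
  rcases v with Q | Q
  · have h1 := toLb_inl h
    have h2 := toLb_inl h'
    fin_cases j
    · exact inj_fi a h1 h2
    · exact inj_fi a h2 h1
  · have h1 := toLb_inr h
    have h2 := toLb_inr h'
    fin_cases j
    · exact inj_ex a h2
    · exact inj_ex a h1

variable (q) in
/-- the labelling of the axes of the charts of `Σ` -/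
def labels (hr : IsRad D₀ An r) : Labels (preAtlas q hr).toAtlas (dAct q hr) where
  V := VL An r
  lab a j := toLb An r (lab a j)
  m0 := -5 * q
  mi := 5 * q
  zero_k a j h := by
    obtain ⟨h1, h2⟩ := lab_hor (q := q) a j false (toLb_zero h)
    refine ⟨h1, h2.trans ?_⟩
    show -(5 * (q : ℤ) * 1) = _
    ring
  inf_k a j h := by
    obtain ⟨h1, h2⟩ := lab_hor (q := q) a j true (toLb_inf h)
    refine ⟨h1, h2.trans ?_⟩
    show -(5 * (q : ℤ) * -1) = _
    ring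
  p := pV
  mm := loV q
  mp := hiV q
  vert_k _ _ _ h := vert_k' h
  vert_ne _ _ _ h := vert_ne' h
  vert_orb a j v h w hw _ := by
    rcases v with Q | Q
    · obtain ⟨w', h1⟩ := orb_fi (q := q) (D₀ := D₀) (An := An) (toLb_inl h) hw
      exact orbit_fi h1
    · obtain ⟨w', h1⟩ := orb_ex (q := q) (D₀ := D₀) (An := An) (toLb_inr h) hw
      exact orbit_ex Q.2 h1
  vert_axis v a z hz c c' h := by
    rcases v with Q | Q
    · have h1 : pt (ch q D₀ An a z) = (Q.1, .main c') := by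
        rw [← pt_orbit_fi (q := q) c c']
        exact congrArg pt h
      obtain ⟨j, h2, h3⟩ := axis_fi Q.2 a z hz h1
      refine ⟨j, ?_, h3⟩
      show toLb An r (lab a j) = _
      rw [h2, toLb_fi Q.2]
    · have h1 : pt (ch q D₀ An a z) = (Q.1, .exc (uw (sd T Q.1) c')) := by
        rw [← pt_orbit_ex (q := q) Q.2 c c']
        exact congrArg pt h
      obtain ⟨j, h2, h3⟩ := axis_ex a z hz h1
      refine ⟨j, ?_, h3⟩
      show toLb An r (lab a j) = _
      rw [h2, toLb_ex Q.2]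
  exists_minus v := by
    rcases v with Q | Q
    · obtain ⟨a, j, h1, h2, h3, h4⟩ := low_fi (q := q) hr Q.1
      refine ⟨a, j, ?_, h2, h3, h4⟩
      show toLb An r (lab a j) = _
      rw [h1, toLb_fi Q.2]
    · obtain ⟨a, j, h1, h2, h3, h4⟩ := low_ex (q := q) hr Q.2
      refine ⟨a, j, ?_, h2, h3, h4⟩
      show toLb An r (lab a j) = _
      rw [h1, toLb_ex Q.2]
  exists_plus v := by
    rcases v with Q | Q
    · obtain ⟨a, j, h1, h2, h3, h4⟩ := high_fi (q := q) hr Q.1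
      refine ⟨a, j, ?_, h2, h3, h4⟩
      show toLb An r (lab a j) = _
      rw [h1, toLb_fi Q.2]
    · obtain ⟨a, j, h1, h2, h3, h4⟩ := high_ex (q := q) hr Q.2
      refine ⟨a, j, ?_, h2, h3, h4⟩
      show toLb An r (lab a j) = _
      rw [h1, toLb_ex Q.2]

/-! ### Multiplicities -/

/-- multiplicities of `log |w|²` on the vertical curves -/
def mW : VL An r → ℝ
  | .inl _ => 0
  | .inr Q => sg (sd T Q.1)

/-- multiplicities of `-log |u|² + 5 q log |w|²` on the vertical curves -/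
def mU (q : ℕ) (D₀ : T.X.Pt →₀ ℤ) : VL An r → ℝ
  | .inl Q => -D₀ Q.1
  | .inr Q => 5 * q * sg (sd T Q.1) - 4 * q - D₀ Q.1

/-- multiplicities of `log |w|²` -/
theorem ew_mult (a : T.X.Pt × Fin 3) (j : Fin 2) {z : E 2} (hz : z ∈ UU r a) :
    ((ew a j : ℤ) : ℝ) = (toLb An r (lab a j)).mult 1 (-1) mW := by
  have hw : ∀ Q, (toLb An r (.fi Q)).mult 1 (-1) mW = 0 := by
    intro Q
    by_cases h : IsoPt An r Q
    · rw [toLb_fi h]
      rfl
    · rw [toLb_fi' h]
      rfl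
  have hx : ∀ Q, Exc T Q → (toLb An r (.ex Q)).mult 1 (-1) mW = sg (sd T Q) := by
    intro Q h
    rw [toLb_ex h]
    rfl
  have hh : ∀ σ, (toLb An r (hor T σ)).mult 1 (-1) mW = ((sg σ : ℤ) : ℝ) := by
    intro σ
    cases σ
    · show (1 : ℝ) = ((1 : ℤ) : ℝ)
      norm_num
    · show (-1 : ℝ) = ((-1 : ℤ) : ℝ)
      norm_num
  unfold ew
  revert a
  apply chart_types'
  · intro P σ hb _
    rw [side_ei, ev_pc hb, lab_pc hb]
    fin_cases j
    · show ((sg σ * 0 : ℤ) : ℝ) = (toLb An r (.fi P)).mult 1 (-1) mW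
      rw [hw, mul_zero, Int.cast_zero]
    · show ((sg σ * 1 : ℤ) : ℝ) = (toLb An r (hor T σ)).mult 1 (-1) mW
      rw [hh, mul_one]
  · intro P σ hb _
    rw [side_ei, ev_bl hb, lab_bl hb]
    fin_cases j
    · show ((sg σ * 1 : ℤ) : ℝ) = (toLb An r (.ex P)).mult 1 (-1) mW
      rw [hx P hb.1, mul_one, hb.2]
    · show ((sg σ * 1 : ℤ) : ℝ) = (toLb An r (hor T σ)).mult 1 (-1) mW
      rw [hh, mul_one]
  · intro P hP _
    rw [side_two, ev_two, lab_two hP]
    fin_cases j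
    · show ((sg (sd T P) * 1 : ℤ) : ℝ) = (toLb An r (.ex P)).mult 1 (-1) mW
      rw [hx P hP, mul_one]
    · show ((sg (sd T P) * 0 : ℤ) : ℝ) = (toLb An r (.fi P)).mult 1 (-1) mW
      rw [hw, mul_zero, Int.cast_zero]
  · intro P hP hz
    rw [UU_two] at hz
    exact (hP hz.1).elim

/-- multiplicities of `-log |u|² + 5 q log |w|²` -/
theorem u_mult (hr : IsRad D₀ An r) (a : T.X.Pt × Fin 3) (j : Fin 2) {z : E 2}
    (hz : z ∈ UU r a) :
    ((-(eg q a j + D₀ a.1 * es a j) + 5 * q * ew a j : ℤ) : ℝ) =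
      (toLb An r (lab a j)).mult 0 (-10 * q) (mU q D₀) := by
  have hw : ∀ Q, (toLb An r (.fi Q)).mult 0 (-10 * q) (mU q D₀) = -D₀ Q := by
    intro Q
    by_cases h : IsoPt An r Q
    · rw [toLb_fi h]
      rfl
    · rw [toLb_fi' h]
      have h0 : D₀ Q = 0 := by
        by_contra h1
        exact h (isoPt_D hr h1)
      rw [h0, Int.cast_zero, neg_zero]
      rfl
  have hx : ∀ Q, Exc T Q → (toLb An r (.ex Q)).mult 0 (-10 * q) (mU q D₀) =
      5 * q * sg (sd T Q) - 4 * q - D₀ Q := by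
    intro Q h
    rw [toLb_ex h]
    rfl
  have hh : ∀ σ, (toLb An r (hor T σ)).mult 0 (-10 * q) (mU q D₀) =
      ((-(5 * q) + 5 * q * sg σ : ℤ) : ℝ) := by
    intro σ
    cases σ
    · show (0 : ℝ) = ((-(5 * q) + 5 * q * 1 : ℤ) : ℝ)
      push_cast
      ring
    · show (-10 * q : ℝ) = ((-(5 * q) + 5 * q * (-1) : ℤ) : ℝ)
      push_cast
      ring
  unfold ew
  revert a
  apply chart_types'
  · intro P σ hb _
    rw [side_ei, ev_pc hb, lab_pc hb, eg_pc hb, es_ei]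
    fin_cases j
    · show ((-(0 + D₀ P * 1) + 5 * q * (sg σ * 0) : ℤ) : ℝ) =
        (toLb An r (.fi P)).mult 0 (-10 * q) (mU q D₀)
      rw [hw]
      push_cast
      ring
    · show ((-(5 * q + D₀ P * 0) + 5 * q * (sg σ * 1) : ℤ) : ℝ) =
        (toLb An r (hor T σ)).mult 0 (-10 * q) (mU q D₀)
      rw [hh]
      push_cast
      ring
  · intro P σ hb _
    rw [side_ei, ev_bl hb, lab_bl hb, eg_bl hb, es_ei]
    fin_cases j
    · show ((-(4 * q + D₀ P * 1) + 5 * q * (sg σ * 1) : ℤ) : ℝ) =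
        (toLb An r (.ex P)).mult 0 (-10 * q) (mU q D₀)
      rw [hx P hb.1, hb.2]
      push_cast
      ring
    · show ((-(5 * q + D₀ P * 0) + 5 * q * (sg σ * 1) : ℤ) : ℝ) =
        (toLb An r (hor T σ)).mult 0 (-10 * q) (mU q D₀)
      rw [hh]
      push_cast
      ring
  · intro P hP _
    rw [side_two, ev_two, lab_two hP, eg_two, es_two]
    fin_cases j
    · show ((-(4 * q + D₀ P * 1) + 5 * q * (sg (sd T P) * 1) : ℤ) : ℝ) =
        (toLb An r (.ex P)).mult 0 (-10 * q) (mU q D₀)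
      rw [hx P hP]
      push_cast
      ring
    · show ((-(0 + D₀ P * 1) + 5 * q * (sg (sd T P) * 0) : ℤ) : ℝ) =
        (toLb An r (.fi P)).mult 0 (-10 * q) (mU q D₀)
      rw [hw]
      push_cast
      ring
  · intro P hP hz
    rw [UU_two] at hz
    exact (hP hz.1).elim

end Sig

end

end Pool.Agent.YTDA


end

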