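import Pool.Agent.YTDM.P40
import Pool.Agent.YTDM.P47

/- source: Pool.Agent.YTDA.NoVec -/

section

/-!
# No holomorphic vector fields on an analytic curve with a differential of positive degree

T6 (c).
-/

namespace Pool.Agent.YTDA

open Complex Set Topology Metric Filter Module
open Pool.Agent.YTD

noncomputable section

namespace AnCurve

variable {K : Type} [Field K] [Algebra ℂ K] {X : CurveOrd K} (An : AnCurve X)

/-- A holomorphic vector field on an analytic curve, as a family of local expressions. -/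
structure VecFam (W : X.Pt → ℂ → ℂ) : Prop where
  hol : ∀ P, DifferentiableOn ℂ (W P) (ball 0 (An.r P))
  tr : ∀ P Q, ∀ s ∈ ball 0 (An.r P), ∀ s' ∈ ball 0 (An.r Q), An.c P s = An.c Q s' →
    ∀ f : ℂ → ℂ, AnalyticAt ℂ f s → f s = s' → deriv f s ≠ 0 →
    (∀ᶠ σ in 𝓝 s, An.c Q (f σ) = An.c P σ) → W Q s' = deriv f s * W P s

/-- the order of the differential of a rational function at a point -/
def ordd (x : K) (P : X.Pt) : ℤ := (meromorphicOrderAt (deriv (An.fn P x)) 0).untop₀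

variable {An}

/-- A rational function which is constant near a point of a disc is constant. -/
theorem eq_const_of_eventually' {z : K} {P : X.Pt} {a s : ℂ} (hs : s ∈ ball 0 (An.r P))
    (h : An.fn P z =ᶠ[𝓝[≠] s] fun _ => a) : z = algebraMap ℂ K a := by
  by_contra hne
  have h0 : z + algebraMap ℂ K (-a) ≠ 0 := by
    rw [map_neg, ← sub_eq_add_neg]
    exact sub_ne_zero.2 hne
  have h1 := An.ord P _ h0 s hs
  have h2 : An.fn P (z + algebraMap ℂ K (-a)) =ᶠ[𝓝[≠] s] 0 := by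
    filter_upwards [An.fn_add P z (algebraMap ℂ K (-a)) s hs,
      An.fn_const P (-a) s hs, h] with σ h3 h4 h5
    rw [h3, Pi.add_apply, h4, h5, Pi.zero_apply]
    ring
  rw [meromorphicOrderAt_eq_top_iff.2 h2] at h1
  exact WithTop.top_ne_coe h1

/-- the derivative of the local expression of a non-constant function vanishes nowhere
identically -/
theorem deriv_fn_ne {x : K} (hx : ∀ a : ℂ, x ≠ algebraMap ℂ K a) {P : X.Pt} {s : ℂ}
    (hs : s ∈ ball 0 (An.r P)) : ∀ᶠ σ in 𝓝[≠] s, deriv (An.fn P x) σ ≠ 0 := by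
  have hm := An.fn_mero P x s hs
  rcases hm.deriv.eventually_eq_zero_or_eventually_ne_zero with h | h
  · exfalso
    have h1 : ∀ᶠ σ in 𝓝[≠] s, AnalyticAt ℂ (An.fn P x) σ ∧ σ ∈ ball 0 (An.r P) ∧
        deriv (An.fn P x) =ᶠ[𝓝 σ] 0 := by
      have h2 := eventually_eventually_nhdsWithin.2 h
      filter_upwards [hm.eventually_analyticAt,
        nhdsWithin_le_nhds (isOpen_ball.mem_nhds hs), h2, self_mem_nhdsWithin]
        with σ h3 h4 h5 h6
      refine ⟨h3, h4, ?_⟩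
      have h7 : 𝓝[{s}ᶜ] σ = 𝓝 σ := isOpen_compl_singleton.nhdsWithin_eq h6
      rw [h7] at h5
      exact h5
    obtain ⟨σ, h3, h4, h5⟩ := h1.exists
    -- `fn P x` is locally constant at `σ`
    obtain ⟨ε, hε, hball⟩ := Metric.eventually_nhds_iff_ball.1
      (h3.eventually_analyticAt.and h5)
    have hconst : ∀ t ∈ ball σ ε, An.fn P x t = An.fn P x σ := by
      intro t ht
      refine (convex_ball σ ε).is_const_of_fderivWithin_eq_zero (𝕜 := ℂ)
        (f := An.fn P x) ?_ ?_ ht (mem_ball_self hε)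
      · intro u hu
        exact (hball u hu).1.differentiableAt.differentiableWithinAt
      · intro u hu
        rw [fderivWithin_of_isOpen isOpen_ball hu]
        ext
        have := (hball u hu).2
        rw [fderiv_apply_one_eq_deriv, this]
        rfl
    apply hx (An.fn P x σ)
    apply eq_const_of_eventually' h4
    apply Filter.Eventually.filter_mono nhdsWithin_le_nhds
    filter_upwards [ball_mem_nhds σ hε] with t ht
    exact hconst t ht
  · exact h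

/-- the chain rule for the transition functions -/
theorem deriv_fn_tr (x : K) {P Q : X.Pt} {s s' : ℂ} (hs : s ∈ ball 0 (An.r P))
    (hs' : s' ∈ ball 0 (An.r Q)) (hc : An.c P s = An.c Q s') {f : ℂ → ℂ}
    (hf : AnalyticAt ℂ f s) (hfs : f s = s') (hf' : deriv f s ≠ 0)
    (hfc : ∀ᶠ σ in 𝓝 s, An.c Q (f σ) = An.c P σ) :
    ∀ᶠ σ in 𝓝[≠] s, deriv (An.fn Q x) (f σ) * deriv f σ = deriv (An.fn P x) σ := by
  have h1 := (merFam_fn (An := An) x).tr P Q s hs s' hs' hc f hf hfs hf' hfc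
  have h2 := eventually_eventually_nhdsWithin.2 h1
  have h3 : Tendsto f (𝓝[≠] s) (𝓝[≠] s') := by
    rw [← hfs]
    exact tendsto_trans hf hf'
  have h4 := h3.eventually ((An.fn_mero Q x s' hs').eventually_analyticAt)
  have h5 := nhdsWithin_le_nhds (s := {s}ᶜ) hf.eventually_analyticAt
  filter_upwards [h2, h4, h5, self_mem_nhdsWithin] with σ g1 g2 g3 g4
  have h7 : 𝓝[{s}ᶜ] σ = 𝓝 σ := isOpen_compl_singleton.nhdsWithin_eq g4
  rw [h7] at g1
  have h8 : deriv (fun σ => An.fn Q x (f σ)) σ = deriv (An.fn P x) σ :=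
    Filter.EventuallyEq.deriv_eq g1
  rw [← h8]
  have h9 : HasDerivAt (fun σ => An.fn Q x (f σ)) (deriv (An.fn Q x) (f σ) * deriv f σ) σ :=
    HasDerivAt.comp σ g2.differentiableAt.hasDerivAt g3.differentiableAt.hasDerivAt
  exact h9.deriv.symm

theorem order_deriv_fn (x : K) {P : X.Pt} {s : ℂ} (hs : s ∈ ball 0 (An.r P)) :
    meromorphicOrderAt (deriv (An.fn P x)) s =
      meromorphicOrderAt (deriv (An.fn (An.c P s) x)) 0 := by
  obtain ⟨f, hf, hfs, hf', hfc, -⟩ := An.tr P (An.c P s) s hs 0 (mem_ball_zero _)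
    (An.c_zero _).symm
  have h1 := deriv_fn_tr x hs (mem_ball_zero _) (An.c_zero _).symm hf hfs hf' hfc
  have h2 : (fun σ => deriv (An.fn (An.c P s) x) (f σ) * deriv f σ) =ᶠ[𝓝[≠] s]
      deriv (An.fn P x) := h1
  have hcomp : MeromorphicAt (deriv (An.fn (An.c P s) x) ∘ f) s :=
    (meromorphicAt_comp_iff_of_deriv_ne_zero hf hf').2
      (by rw [hfs]; exact (An.fn_mero _ x 0 (mem_ball_zero _)).deriv)
  have hder : AnalyticAt ℂ (deriv f) s := hf.deriv
  rw [← meromorphicOrderAt_congr h2]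
  have h3 : meromorphicOrderAt (fun σ => deriv (An.fn (An.c P s) x) (f σ) * deriv f σ) s =
      meromorphicOrderAt (deriv (An.fn (An.c P s) x) ∘ f) s + meromorphicOrderAt (deriv f) s :=
    meromorphicOrderAt_mul hcomp hder.meromorphicAt
  have h4 : meromorphicOrderAt (deriv f) s = 0 := by
    rw [hder.meromorphicOrderAt_eq, hder.analyticOrderAt_eq_zero.2 hf']
    rfl
  rw [h3, h4, add_zero, meromorphicOrderAt_comp_of_deriv_ne_zero hf hf', hfs]

theorem finite_ordd {x : K} (hx : ∀ a : ℂ, x ≠ algebraMap ℂ K a) :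
    (Function.support (An.ordd x)).Finite := by
  have h1 : ∀ P : X.Pt, ∃ ρ > 0, ρ ≤ An.r P ∧ ∀ σ : ℂ, σ ≠ 0 → ‖σ‖ < ρ →
      AnalyticAt ℂ (deriv (An.fn P x)) σ ∧ deriv (An.fn P x) σ ≠ 0 := by
    intro P
    have h2 := ((An.fn_mero P x 0 (mem_ball_zero P)).deriv.eventually_analyticAt).and
      (deriv_fn_ne (An := An) hx (mem_ball_zero P))
    rw [eventually_nhdsWithin_iff, Metric.eventually_nhds_iff] at h2
    obtain ⟨ε, hε, h⟩ := h2
    refine ⟨min ε (An.r P), lt_min hε (An.r_pos P), min_le_right _ _, fun σ h0 hσ => ?_⟩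
    exact h (by rw [dist_zero_right]; exact hσ.trans_le (min_le_left _ _)) h0
  choose ρ hρ hρr hρa using h1
  obtain ⟨F, hF⟩ := An.cpt ρ hρ
  apply F.finite_toSet.subset
  intro Q hQ
  obtain ⟨P, hP, s, hs, rfl⟩ := hF Q
  by_cases h0 : s = 0
  · subst h0
    rw [An.c_zero]
    exact hP
  · exfalso
    apply hQ
    have h1 := hρa P s h0 hs
    unfold ordd
    rw [← order_deriv_fn x (by rw [mem_ball_zero_iff]; exact hs.trans_le (hρr P)),
      h1.1.meromorphicOrderAt_eq, h1.1.analyticOrderAt_eq_zero.2 h1.2]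
    rfl

/-- the pairing of a vector field with the differential of a rational function -/
theorem VecFam.merFam {W : X.Pt → ℂ → ℂ} (hW : An.VecFam W) (x : K) :
    An.MerFam fun P s => W P s * deriv (An.fn P x) s where
  mero P s hs := by
    have h1 : AnalyticAt ℂ (W P) s := (hW.hol P).analyticAt (isOpen_ball.mem_nhds hs)
    exact h1.meromorphicAt.mul (An.fn_mero P x s hs).deriv
  tr P Q s hs s' hs' hc f hf hfs hf' hfc := by
    have h1 := deriv_fn_tr x hs hs' hc hf hfs hf' hfc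
    have h2 : ∀ᶠ σ in 𝓝 s, W Q (f σ) = deriv f σ * W P σ := by
      have g1 := eventually_eventually_nhds.2 hfc
      have g2 := hf.continuousAt.preimage_mem_nhds (isOpen_ball.mem_nhds (by rw [hfs]; exact hs'))
      have g3 : ∀ᶠ σ in 𝓝 s, deriv f σ ≠ 0 := hf.deriv.continuousAt.eventually_ne hf'
      filter_upwards [g1, g2, g3, hf.eventually_analyticAt, isOpen_ball.mem_nhds hs]
        with σ k1 k2 k3 k4 k5
      exact hW.tr P Q σ k5 (f σ) k2 k1.self_of_nhds.symm f k4 rfl k3 k1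
    filter_upwards [h1, h2.filter_mono nhdsWithin_le_nhds] with σ k1 k2
    rw [k2, ← k1]
    ring

end AnCurve

open AnCurve in
/-- T6 (c): a curve with a differential `d x` of positive degree has no holomorphic vector
fields. -/
theorem AnCurve.VecFam.eq_zero {K : Type} [Field K] [Algebra ℂ K] {X : Curve K}
    {An : AnCurve X.toCurveOrd} {W : X.Pt → ℂ → ℂ} (hW : An.VecFam W) {x : K}
    (hx : ∀ a : ℂ, x ≠ algebraMap ℂ K a) (hsum : 0 < ∑ᶠ P, An.ordd x P) (P : X.Pt) (s : ℂ)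
    (hs : s ∈ ball 0 (An.r P)) : W P s = 0 := by
  obtain ⟨z, hz⟩ := (hW.merFam x).exists_fn An.holConst P
  have hz0 : z = 0 := by
    by_contra hne
    have hle : ∀ Q, An.ordd x Q ≤ X.ord Q z := by
      intro Q
      have h1 := An.ord_fn Q hne
      rw [meromorphicOrderAt_congr (hz Q 0 (mem_ball_zero Q))] at h1
      have hWQ : AnalyticAt ℂ (W Q) 0 :=
        (hW.hol Q).analyticAt (isOpen_ball.mem_nhds (mem_ball_zero Q))
      have h2 : meromorphicOrderAt (fun s => W Q s * deriv (An.fn Q x) s) 0 =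
          meromorphicOrderAt (W Q) 0 + meromorphicOrderAt (deriv (An.fn Q x)) 0 :=
        meromorphicOrderAt_mul hWQ.meromorphicAt (An.fn_mero Q x 0 (mem_ball_zero Q)).deriv
      rw [h2] at h1
      have h3 : 0 ≤ meromorphicOrderAt (W Q) 0 := hWQ.meromorphicOrderAt_nonneg
      unfold ordd
      generalize meromorphicOrderAt (deriv (An.fn Q x)) 0 = b at h1 ⊢
      generalize meromorphicOrderAt (W Q) 0 = a at h1 h3
      induction b using WithTop.recTopCoe with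
      | top => rw [add_top] at h1; exact absurd h1 WithTop.top_ne_coe
      | coe b =>
        induction a using WithTop.recTopCoe with
        | top => rw [top_add] at h1; exact absurd h1 WithTop.top_ne_coe
        | coe a =>
          have h4 : a + b = X.ord Q z := by exact_mod_cast h1
          have h5 : 0 ≤ a := by exact_mod_cast h3
          show b ≤ X.ord Q z
          linarith
    have h1 := finsum_le_finsum' (finite_ordd (An := An) hx) (X.finite_ord z hne) hle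
    rw [X.sum_ord z hne] at h1
    linarith
  -- the vector field vanishes
  have h1 : ∀ᶠ σ in 𝓝[≠] s, W P σ = 0 := by
    have h2 := hz P s hs
    rw [hz0] at h2
    filter_upwards [h2, An.fn_zero P hs, deriv_fn_ne hx hs] with σ k1 k2 k3
    rw [k2] at k1
    rcases mul_eq_zero.1 k1.symm with h | h
    · exact h
    · exact absurd h k3
  have hc : ContinuousAt (W P) s :=
    ((hW.hol P).differentiableAt (isOpen_ball.mem_nhds hs)).continuousAt
  have h3 : Tendsto (W P) (𝓝[≠] s) (𝓝 (W P s)) := hc.tendsto.mono_left nhdsWithin_le_nhds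
  have h4 : Tendsto (W P) (𝓝[≠] s) (𝓝 0) :=
    (tendsto_congr' (f₁ := W P) (f₂ := fun _ => (0 : ℂ)) h1).2 tendsto_const_nhds
  exact tendsto_nhds_unique h3 h4

/-- the same analytic structure with smaller discs -/
def AnCurve.shrink {K : Type} [Field K] [Algebra ℂ K] {X : CurveOrd K} (An : AnCurve X)
    (r : X.Pt → ℝ) (h0 : ∀ P, 0 < r P) (h1 : ∀ P, r P ≤ An.r P) : AnCurve X where
  r := r
  r_pos := h0
  c := An.c
  c_zero := An.c_zero
  inj P := (An.inj P).mono (ball_subset_ball (h1 P))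
  fn := An.fn
  fn_mero P z s hs := An.fn_mero P z s (ball_subset_ball (h1 P) hs)
  fn_add P z w s hs := An.fn_add P z w s (ball_subset_ball (h1 P) hs)
  fn_mul P z w s hs := An.fn_mul P z w s (ball_subset_ball (h1 P) hs)
  fn_const P a s hs := An.fn_const P a s (ball_subset_ball (h1 P) hs)
  ord P z hz s hs := An.ord P z hz s (ball_subset_ball (h1 P) hs)
  tr P Q s hs s' hs' h := An.tr P Q s (ball_subset_ball (h1 P) hs) s'
    (ball_subset_ball (h1 Q) hs') h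
  t2 := An.t2
  cpt := An.cpt

/-- T6 (a) with smaller discs. -/
theorem AnCurve.const_of_hol {K : Type} [Field K] [Algebra ℂ K] {X : Curve K}
    (An : AnCurve X.toCurveOrd) (r : X.Pt → ℝ) (h0 : ∀ P, 0 < r P) (h1 : ∀ P, r P ≤ An.r P)
    (f : X.Pt → ℂ) (hf : ∀ P, DifferentiableOn ℂ (fun s => f (An.c P s)) (ball 0 (r P)))
    (P Q : X.Pt) : f P = f Q := by
  obtain ⟨a, ha⟩ := (An.shrink r h0 h1).holConst f hf
  rw [ha P, ha Q]

/-- T6 (c) with smaller discs. -/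
theorem AnCurve.noField {K : Type} [Field K] [Algebra ℂ K] {X : Curve K}
    (An : AnCurve X.toCurveOrd) (r : X.Pt → ℝ) (h0 : ∀ P, 0 < r P) (h1 : ∀ P, r P ≤ An.r P)
    {x : K} (hx : ∀ a : ℂ, x ≠ algebraMap ℂ K a) (hsum : 0 < ∑ᶠ P, An.ordd x P)
    (κ : X.Pt → ℂ → ℂ) (hκ : ∀ P, DifferentiableOn ℂ (κ P) (ball 0 (r P)))
    (htr : ∀ P Q, ∀ s ∈ ball (0 : ℂ) (r P), ∀ s' ∈ ball (0 : ℂ) (r Q), ∀ f : ℂ → ℂ,
      AnalyticAt ℂ f s → f s = s' → (∀ᶠ u in 𝓝 s, An.c Q (f u) = An.c P u) →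
      κ Q s' = deriv f s * κ P s) :
    ∀ P, ∀ s ∈ ball (0 : ℂ) (r P), κ P s = 0 := by
  have hW : (An.shrink r h0 h1).VecFam κ :=
    { hol := hκ
      tr := fun P Q s hs s' hs' _ f hf hfs _ hfc => htr P Q s hs s' hs' f hf hfs hfc }
  exact fun P s hs => hW.eq_zero hx hsum P s hs

end

end Pool.Agent.YTDA


end

/- source: Pool.Agent.YTDA.Pou -/

section

/-!
# Existence of smooth partitions of unity on `M = Y / ℂˣ`
-/

namespace Pool.Agent.YTDA

open Complex Set Topology ContDiff MeasureTheory Manifold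

noncomputable section

/-- smooth cut-off functions -/
theorem exists_cutoff {n : ℕ} {K U : Set (E n)} (hK : IsCompact K) (hU : IsOpen U) (hKU : K ⊆ U) :
    ∃ (ψ : E n → ℝ) (L : Set (E n)), ContDiff ℝ ∞ ψ ∧ (∀ z, 0 ≤ ψ z) ∧ (∀ z ∈ K, ψ z = 1) ∧
      IsCompact L ∧ L ⊆ U ∧ ∀ z, ψ z ≠ 0 → z ∈ L := by
  obtain ⟨L, hL, hKL, hLU⟩ := exists_compact_between hK hU hKU
  have hd : Disjoint (interior L)ᶜ K := by
    rw [Set.disjoint_compl_left_iff_subset]
    exact hKL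
  obtain ⟨f, hf0, hf1, hf⟩ := exists_contMDiffMap_zero_one_of_isClosed (n := (⊤ : ℕ∞))
    (modelWithCornersSelf ℝ (E n)) isOpen_interior.isClosed_compl hK.isClosed hd
  refine ⟨f, L, f.contMDiff.contDiff, fun z => (hf z).1, fun z hz => hf1 hz, hL, hLU, ?_⟩
  intro z hz
  by_contra hzL
  exact hz (hf0 fun h => hzL (interior_subset h))

namespace PolAtlas

variable {n : ℕ} {Y : Type} [MulAction ℂˣ Y] {A : PolAtlas n Y}

/-- push a function on a chart to `Y` -/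
def push (A : PolAtlas n Y) (a : A.ι) (ψ : E n → ℝ) (y : Y) : ℝ :=
  open Classical in
  if h : ∃ z, z ∈ A.U a ∧ ∃ c : ℂˣ, y = c • A.γ a z then ψ h.choose else 0

theorem push_eq (a : A.ι) (ψ : E n → ℝ) {z : E n} (hz : z ∈ A.U a) (c : ℂˣ) :
    A.push a ψ (c • A.γ a z) = ψ z := by
  have h : ∃ z', z' ∈ A.U a ∧ ∃ c' : ℂˣ, c • A.γ a z = c' • A.γ a z' := ⟨z, hz, c, rfl⟩
  unfold push
  rw [dif_pos h]
  congr 1
  obtain ⟨h1, c', h2⟩ := h.choose_spec
  have h3 : A.γ a z = (c⁻¹ * c') • A.γ a h.choose := by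
    rw [mul_smul, ← h2, inv_smul_smul]
  exact (A.inj a h.choose h1 z hz _ h3).1.symm

theorem push_of_not {a : A.ι} (ψ : E n → ℝ) {y : Y}
    (h : ¬ ∃ z, z ∈ A.U a ∧ ∃ c : ℂˣ, y = c • A.γ a z) : A.push a ψ y = 0 := by
  unfold push
  rw [dif_neg h]

theorem push_inv (a : A.ι) (ψ : E n → ℝ) (c : ℂˣ) (y : Y) :
    A.push a ψ (c • y) = A.push a ψ y := by
  by_cases h : ∃ z, z ∈ A.U a ∧ ∃ c : ℂˣ, y = c • A.γ a z
  · obtain ⟨z, hz, c', rfl⟩ := h
    rw [smul_smul, push_eq a ψ hz, push_eq a ψ hz]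
  · rw [push_of_not ψ h, push_of_not]
    rintro ⟨z, hz, c', h'⟩
    exact h ⟨z, hz, c⁻¹ * c', by rw [mul_smul, ← h', inv_smul_smul]⟩

theorem push_nonneg (a : A.ι) {ψ : E n → ℝ} (h : ∀ z, 0 ≤ ψ z) (y : Y) : 0 ≤ A.push a ψ y := by
  unfold push
  split_ifs
  · exact h _
  · exact le_rfl

theorem push_smooth (ht : A.IsT2) (a b : A.ι) {ψ : E n → ℝ} (hψ : ContDiff ℝ ∞ ψ) {L : Set (E n)}
    (hL : IsCompact L) (hLU : L ⊆ A.U a) (hs : ∀ z, ψ z ≠ 0 → z ∈ L) :
    ContDiffOn ℝ ∞ (fun z => A.push a ψ (A.γ b z)) (A.U b) := by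
  intro z hz
  apply ContDiffAt.contDiffWithinAt
  by_cases hzO : z ∈ A.O b a
  · have h1 : (fun w => A.push a ψ (A.γ b w)) =ᶠ[𝓝 z] fun w => ψ (A.τ b a w) := by
      filter_upwards [(isOpenO b a).mem_nhds hzO] with w hw
      have h2 := γ_τP hw
      have h3 : A.γ b w = (A.h b a w)⁻¹ • A.γ a (A.τ b a w) := by
        rw [h2, inv_smul_smul]
      rw [h3, push_eq a ψ (τ_memP hw)]
    refine ContDiffAt.congr_of_eventuallyEq ?_ h1
    refine hψ.contDiffAt.comp z ?_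
    exact (contDiffOn_real_of_differentiableOn (isOpenO b a) (A.hol_τ b a)).contDiffAt
      ((isOpenO b a).mem_nhds hzO)
  · -- vanishes near z
    have h1 : ∀ z' ∈ L, ∃ V ∈ 𝓝 z, ∃ V' ∈ 𝓝 z', ∀ w ∈ V ∩ A.U b, ∀ w' ∈ V' ∩ A.U a, ∀ c : ℂˣ,
        A.γ a w' ≠ c • A.γ b w := by
      intro z' hz'
      refine ht b a z hz z' (hLU hz') fun c hc => hzO ⟨hz, z', hLU hz', c, hc⟩
    choose! V hV V' hV' hVV using h1
    obtain ⟨t, htL, hcov⟩ := hL.elim_nhds_subcover V' hV'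
    have h2 : (fun w => A.push a ψ (A.γ b w)) =ᶠ[𝓝 z] fun _ => 0 := by
      have h3 : (⋂ x ∈ t, V x) ∈ 𝓝 z :=
        (Filter.biInter_finset_mem t).2 fun x hx => hV x (htL x hx)
      filter_upwards [h3, (A.isOpen_U b).mem_nhds hz] with w hw hwU
      by_cases h : ∃ z', z' ∈ A.U a ∧ ∃ c : ℂˣ, A.γ b w = c • A.γ a z'
      · obtain ⟨z', hz', c, hc⟩ := h
        rw [hc, push_eq a ψ hz']
        by_contra hne
        have hz'L := hs z' hne
        obtain ⟨x, hx, hxz⟩ := mem_iUnion₂.1 (hcov hz'L)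
        refine hVV x (htL x hx) w ⟨mem_iInter₂.1 hw x hx, hwU⟩ z' ⟨hxz, hz'⟩ c⁻¹ ?_
        rw [hc, inv_smul_smul]
      · exact push_of_not ψ h
    exact contDiffAt_const.congr_of_eventuallyEq h2

/-- **Partition of unity.** -/
theorem exists_part (hc : A.IsCpt) (ht : A.IsT2) : Nonempty A.Part := by
  obtain ⟨m, a, K, hK, hcov⟩ := hc
  choose ψ L hψ hψ0 hψ1 hL hLU hψL using fun k =>
    exists_cutoff (hK k).1 (A.isOpen_U (a k)) (hK k).2
  have hpos : ∀ y, 0 < ∑ k, A.push (a k) (ψ k) y := by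
    intro y
    obtain ⟨k, z, hz, c, rfl⟩ := hcov y
    refine Finset.sum_pos' (fun j _ => push_nonneg (a j) (hψ0 j) _) ⟨k, Finset.mem_univ _, ?_⟩
    rw [push_eq (a k) (ψ k) ((hK k).2 hz), hψ1 k z hz]
    exact one_pos
  refine ⟨{
    m := m
    a := a
    χ := fun k y => A.push (a k) (ψ k) y / ∑ j, A.push (a j) (ψ j) y
    K := L
    nonneg := fun k y => div_nonneg (push_nonneg (a k) (hψ0 k) y) (hpos y).le
    inv := fun k c y => by simp only [push_inv]
    sum := fun y => by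
      rw [← Finset.sum_div, div_self (hpos y).ne']
    smooth := fun k b => by
      refine (push_smooth ht (a k) b (hψ k) (hL k) (hLU k) (hψL k)).div ?_
        fun z _ => (hpos _).ne'
      exact ContDiffOn.sum fun j _ => push_smooth ht (a j) b (hψ j) (hL j) (hLU j) (hψL j)
    cpt := hL
    sub := hLU
    supp := fun k y hy => by
      have h1 : A.push (a k) (ψ k) y ≠ 0 := fun h => hy (by simp only [h, zero_div])
      by_cases h : ∃ z, z ∈ A.U (a k) ∧ ∃ c : ℂˣ, y = c • A.γ (a k) z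
      · obtain ⟨z, hz, c, rfl⟩ := h
        rw [push_eq (a k) (ψ k) hz] at h1
        exact ⟨z, hψL k z h1, c, rfl⟩
      · exact absurd (push_of_not (ψ k) h) h1 }⟩

end PolAtlas

end

end Pool.Agent.YTDA


end

/- source: Pool.Agent.YTDA.RedInv -/

section

/-!
# Circle invariance of the functions derived from a circle invariant potential
-/

namespace Pool.Agent.YTDA

open Complex Set Topology ContDiff ComplexOrder TopologicalSpace Matrix

noncomputable section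

set_option linter.unusedSectionVars false

section Gen

variable {n : ℕ} {U : Opens (E n)} (k : Fin n → ℤ)

/-- the generator of the circle action -/
def LS : Derivation ℂ (Sm U) (Sm U) :=
  ∑ b, (k b : ℂ) • ((co b : Sm U) • dzD b - (star (co b) : Sm U) • dzbD b)

theorem der_sum_apply (δ : Fin n → Derivation ℂ (Sm U) (Sm U)) (G : Sm U) :
    (∑ b, δ b) G = ∑ b, δ b G := by
  have h := congrFun (map_sum (Derivation.coeFnAddMonoidHom (R := ℂ) (A := Sm U) (M := Sm U))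
    δ Finset.univ) G
  rw [Finset.sum_apply] at h
  exact h

theorem LS_eq (G : Sm U) : LS k G = VS k G - VbS k G := by
  rw [LS, der_sum_apply]
  simp only [VS, VbS, ← Finset.sum_sub_distrib]
  refine Finset.sum_congr rfl fun b _ => ?_
  simp only [Derivation.coe_smul, Pi.smul_apply, Derivation.coe_sub, Pi.sub_apply, smul_eq_mul,
    smul_sub]

theorem cinv_iff (G : Sm U) : Cinv k G ↔ LS k G = 0 := by
  rw [LS_eq, Cinv, sub_eq_zero]

theorem LS_mem_DS : (LS k : Derivation ℂ (Sm U) (Sm U)) ∈ DS U := by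
  refine Submodule.sum_mem _ fun b _ => ?_
  have h : ∀ (c : ℂ) (δ : Derivation ℂ (Sm U) (Sm U)), δ ∈ DS U → c • δ ∈ DS U := by
    intro c δ hδ
    have : c • δ = (algebraMap ℂ (Sm U) c) • δ := by
      apply Derivation.ext
      intro f
      simp only [Derivation.smul_apply, algebraMap_smul]
    rw [this]
    exact Submodule.smul_mem _ _ hδ
  exact h _ _ (Submodule.sub_mem _ (Submodule.smul_mem _ _ (dzD_mem_DS b))
    (Submodule.smul_mem _ _ (dzbD_mem_DS b)))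

theorem dzD_VS' (G : Sm U) (j : Fin n) :
    dzD j (VS k G) = VS k (dzD j G) + (k j : ℂ) • dzD j G := by
  simp only [VS, map_sum]
  have h : ∀ b, dzD j ((k b : ℂ) • (co b * dzD b G)) =
      (k b : ℂ) • (co b * dzD b (dzD j G)) + if j = b then (k b : ℂ) • dzD b G else 0 := by
    intro b
    rw [Derivation.map_smul, Derivation.leibniz, dzD_co, smul_eq_mul, smul_eq_mul,
      dzD_comm, smul_add]
    split_ifs with hb
    · rw [mul_one]
    · rw [mul_zero, smul_zero]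
  simp only [h, Finset.sum_add_distrib, Finset.sum_ite_eq, Finset.mem_univ, if_true]

theorem LS_dzD (G : Sm U) (i : Fin n) : LS k (dzD i G) = dzD i (LS k G) - (k i : ℂ) • dzD i G := by
  rw [LS_eq, LS_eq, map_sub, dzD_VS', dzD_VbS]
  abel

theorem LS_dzbD (G : Sm U) (j : Fin n) :
    LS k (dzbD j G) = dzbD j (LS k G) + (k j : ℂ) • dzbD j G := by
  rw [LS_eq, LS_eq, map_sub, dzbD_VS, dzbD_VbS]
  abel

theorem VS_co (j : Fin n) : VS k (co j : Sm U) = (k j : ℂ) • co j := by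
  rw [VS, Finset.sum_eq_single j]
  · rw [dzD_co, if_pos rfl, mul_one]
  · intro b _ hb
    rw [dzD_co, if_neg hb, mul_zero, smul_zero]
  · intro h
    exact absurd (Finset.mem_univ _) h

theorem VbS_co (j : Fin n) : VbS k (co j : Sm U) = 0 := by
  rw [VbS]
  refine Finset.sum_eq_zero fun b _ => ?_
  rw [dzbD_co, mul_zero, smul_zero]

variable {k} {G G' : Sm U}

theorem Cinv.LS (h : Cinv k G) : LS k G = 0 := (cinv_iff k G).1 h

theorem Cinv.mul (h : Cinv k G) (h' : Cinv k G') : Cinv k (G * G') := by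
  rw [cinv_iff, Derivation.leibniz, h.LS, h'.LS, smul_zero, smul_zero, add_zero]

theorem Cinv.sub (h : Cinv k G) (h' : Cinv k G') : Cinv k (G - G') := by
  rw [cinv_iff, map_sub, h.LS, h'.LS, sub_zero]

theorem Cinv.smul (c : ℂ) (h : Cinv k G) : Cinv k (c • G) := by
  rw [cinv_iff, Derivation.map_smul, h.LS, smul_zero]

theorem Cinv.const (c : ℂ) : Cinv k (algebraMap ℂ (Sm U) c) := by
  rw [cinv_iff, Derivation.map_algebraMap]

theorem Cinv.logS (h : Cinv k G) (hG : ∀ z, 0 < G.1 z) : Cinv k (YTDA.logS G hG) := by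
  rw [cinv_iff]
  have h1 := mul_DS_logS (LS_mem_DS k) G hG
  rw [h.LS] at h1
  exact (isUnit_of_pos hG).mul_left_cancel (h1.trans (mul_zero _).symm)

theorem Cinv.VS (h : Cinv k G) : Cinv k (VS k G) := by
  rw [cinv_iff, YTDA.VS, map_sum]
  refine Finset.sum_eq_zero fun b _ => ?_
  rw [Derivation.map_smul, Derivation.leibniz, LS_dzD, h.LS, map_zero, LS_eq, VS_co, VbS_co]
  simp only [smul_eq_mul, Algebra.smul_def]
  ring

theorem Cinv.LS_hess (h : Cinv k G) (i j : Fin n) :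
    YTDA.LS k (dzD i (YTDA.dzbD j G)) = ((k j - k i : ℤ) : ℂ) • dzD i (YTDA.dzbD j G) := by
  rw [LS_dzD, LS_dzbD, h.LS, map_zero, zero_add, Derivation.map_smul, ← sub_smul]
  push_cast
  rfl

theorem Cinv.det (h : Cinv k G) : Cinv k (hessS G).det := by
  rw [cinv_iff, der_det]
  have h1 : ∀ i j, (hessS G).adjugate i j * YTDA.LS k (hessS G j i) =
      (k i : ℂ) • ((hessS G).adjugate i j * hessS G j i) -
      (k j : ℂ) • ((hessS G j i) * (hessS G).adjugate i j) := by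
    intro i j
    rw [hessS_apply, Cinv.LS_hess h]
    push_cast
    rw [sub_smul]
    simp only [Algebra.smul_def]
    ring
  simp only [h1, Finset.sum_sub_distrib]
  have h2 : ∀ i, ∑ j, (k i : ℂ) • ((hessS G).adjugate i j * hessS G j i) =
      (k i : ℂ) • (hessS G).det := by
    intro i
    rw [← Finset.smul_sum]
    have := congrFun (congrFun (adjugate_mul (hessS G)) i) i
    rw [Matrix.mul_apply, Matrix.smul_apply, Matrix.one_apply_eq, smul_eq_mul, mul_one] at this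
    rw [this]
  have h3 : ∀ j, ∑ i, (k j : ℂ) • (hessS G j i * (hessS G).adjugate i j) =
      (k j : ℂ) • (hessS G).det := by
    intro j
    rw [← Finset.smul_sum]
    have := congrFun (congrFun (mul_adjugate (hessS G)) j) j
    rw [Matrix.mul_apply, Matrix.smul_apply, Matrix.one_apply_eq, smul_eq_mul, mul_one] at this
    rw [this]
  rw [Finset.sum_congr rfl fun i _ => h2 i, Finset.sum_comm (f := fun i j =>
    (k j : ℂ) • (hessS G j i * (hessS G).adjugate i j)), Finset.sum_congr rfl fun j _ => h3 j,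
    sub_self]

end Gen

end

end Pool.Agent.YTDA


end

/- source: Pool.Agent.YTDA.RedPde -/

section

/-!
# The reduced equation
-/

namespace Pool.Agent.YTDA

open Complex Set Topology ContDiff ComplexOrder TopologicalSpace Matrix

noncomputable section

set_option linter.unusedSectionVars false

theorem wdz_congr {n : ℕ} (k : Fin n → ℤ) {f g : E n → ℂ} {z : E n} (h : f =ᶠ[𝓝 z] g) :
    wdz k f z = wdz k g z := by
  rw [wdz, wdz]
  exact Finset.sum_congr rfl fun b _ => by rw [dz_congr h]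

theorem VS_ofR {n : ℕ} {U : Opens (E n)} (k : Fin n → ℤ) (f : E n → ℝ)
    (hf : ContDiffOn ℝ ∞ f U) (z : U) :
    (VS k (ofR f hf)).1 z = wdz k (fun w => (f w : ℂ)) z := by
  rw [VS_apply]
  exact wdz_congr k (ext_ofFn_eventuallyEq _ _ z.2)

section Mom

variable {n : ℕ} {U : Opens (E n)} {k : Fin n → ℤ} (m : ℤ) {φ : E n → ℝ}
  (hφ : ContDiffOn ℝ ∞ φ U)

/-- the moment map as a smooth function -/
def muS (k : Fin n → ℤ) (m : ℤ) (G : Sm U) : Sm U := algebraMap ℂ _ (m : ℂ) + VS k G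

theorem muS_apply (hc : Cinv k (ofR φ hφ : Sm U)) (z : U) :
    (muS k m (ofR φ hφ)).1 z = (mom k m φ z : ℝ) := by
  have h1 : star (VS k (ofR φ hφ : Sm U)) = VS k (ofR φ hφ) := by
    rw [star_VS, star_ofR, hc]
  have h2 : (starRingEnd ℂ) ((VS k (ofR φ hφ : Sm U)).1 z) = (VS k (ofR φ hφ : Sm U)).1 z := by
    rw [← star_apply, h1]
  rw [VS_ofR] at h2
  rw [muS, Sm.add_apply, VS_ofR, Sm.algebraMap_apply, mom]
  push_cast
  rw [conj_eq_iff_re.1 h2]

theorem mom_eq (z : U) : mom k m φ z = ((muS k m (ofR φ hφ)).1 z).re := by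
  rw [muS, Sm.add_apply, VS_ofR, Sm.algebraMap_apply, mom, add_re]
  simp

/-- `(25q + 3μ)(25q - 3μ)` -/
def ppS (q : ℕ) (k : Fin n → ℤ) (m : ℤ) (G : Sm U) : Sm U :=
  (algebraMap ℂ _ (25 * q : ℂ) + (3 : ℂ) • muS k m G) *
    (algebraMap ℂ _ (25 * q : ℂ) - (3 : ℂ) • muS k m G)

theorem ppS_apply (q : ℕ) (hc : Cinv k (ofR φ hφ : Sm U)) (z : U) :
    (ppS q k m (ofR φ hφ)).1 z = (PP q (mom k m φ z) : ℝ) := by
  rw [ppS, Sm.mul_apply, Sm.add_apply, Sm.sub_apply, Sm.smul_apply, muS_apply m hφ hc,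
    Sm.algebraMap_apply, PP]
  push_cast
  ring

theorem Cinv.muS {G : Sm U} (h : Cinv k G) : Cinv k (muS k m G) :=
  Cinv.add k (Cinv.const _) (Cinv.VS h)

theorem Cinv.ppS (q : ℕ) {G : Sm U} (h : Cinv k G) : Cinv k (ppS q k m G) :=
  Cinv.mul (Cinv.add k (Cinv.const _) (Cinv.smul _ (Cinv.muS m h)))
    (Cinv.sub (Cinv.const _) (Cinv.smul _ (Cinv.muS m h)))

variable (q : ℕ)

theorem redF_eq (hc : Cinv k (ofR φ hφ : Sm U)) (hd : ∀ z, 0 < (hessS (ofR φ hφ : Sm U)).det.1 z)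
    (hp : ∀ z, 0 < (ppS q k m (ofR φ hφ : Sm U)).1 z) (z : U) :
    ((redF q k m φ z : ℝ) : ℂ) = (logS _ hd + logS _ hp).1 z := by
  rw [redF, Sm.add_apply, ← logdet_eq hφ hd, logS_apply, ppS_apply m hφ q hc, ofReal_re]
  push_cast
  rfl

theorem contDiffOn_redF (hc : Cinv k (ofR φ hφ : Sm U))
    (hd : ∀ z, 0 < (hessS (ofR φ hφ : Sm U)).det.1 z)
    (hp : ∀ z, 0 < (ppS q k m (ofR φ hφ : Sm U)).1 z) : ContDiffOn ℝ ∞ (redF q k m φ) U := by
  have h1 := (smooth_ext (logS _ hd + logS _ hp : Sm U))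
  have h2 : ContDiffOn ℝ ∞ (fun z => (ext (logS _ hd + logS _ hp : Sm U).1 z).re) U :=
    reCLM.contDiff.comp_contDiffOn h1
  refine h2.congr fun z hz => ?_
  rw [ext_mk _ hz, ← redF_eq m hφ q hc hd hp ⟨z, hz⟩, ofReal_re]

theorem ofR_redF (hc : Cinv k (ofR φ hφ : Sm U))
    (hd : ∀ z, 0 < (hessS (ofR φ hφ : Sm U)).det.1 z)
    (hp : ∀ z, 0 < (ppS q k m (ofR φ hφ : Sm U)).1 z)
    (hF : ContDiffOn ℝ ∞ (redF q k m φ) U) :
    (ofR (redF q k m φ) hF : Sm U) = logS _ hd + logS _ hp := by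
  apply Sm.ext'
  intro z
  rw [ofR_apply, redF_eq m hφ q hc hd hp]

theorem cinv_redF (hc : Cinv k (ofR φ hφ : Sm U))
    (hd : ∀ z, 0 < (hessS (ofR φ hφ : Sm U)).det.1 z)
    (hp : ∀ z, 0 < (ppS q k m (ofR φ hφ : Sm U)).1 z)
    (hF : ContDiffOn ℝ ∞ (redF q k m φ) U) : Cinv k (ofR (redF q k m φ) hF : Sm U) := by
  rw [ofR_redF m hφ q hc hd hp hF]
  exact Cinv.add k (Cinv.logS (Cinv.det hc) hd) (Cinv.logS (Cinv.ppS m q hc) hp)

end Mom

section Core

/-- the embedding of the base -/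
def emb (z : E 2) : E 4 := ![z 0, z 1, 0, 0]

theorem prB_emb (z : E 2) : prB (emb z) = z := by
  funext b
  fin_cases b <;> rfl

theorem emb_fib (z : E 2) (p : Fin 2) : emb z (fib p) = 0 := by
  fin_cases p <;> rfl

theorem tR_emb (z : E 2) : tR (emb z) = 0 := by
  have h2 : emb z 2 = 0 := rfl
  have h3 : emb z 3 = 0 := rfl
  rw [tR, h2, h3]
  simp

variable {U : Opens (E 2)} {k : Fin 2 → ℤ}

theorem tau_emb (z : E 2) : tau k (emb z) = z := by
  funext b
  rw [tau, tR_emb, prB_emb]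
  simp

theorem emb_mem (z : U) : emb z ∈ Om U := by
  show prB (emb z) ∈ U
  rw [prB_emb]
  exact z.2

/-- the point of the zero section -/
def embU (z : U) : Om U := ⟨emb z, emb_mem z⟩

theorem co_embU (z : U) (p : Fin 2) : (co (fib p) : Sm (Om U)).1 (embU z) = 0 := emb_fib z p

theorem vS_embU (z : U) (p : Fin 2) : (vS (fib p) : Sm (Om U)).1 (embU z) = 1 := by
  rw [vS, invS_apply, wS_apply]
  have h : ((embU z : Om U) : E 4) (fib p) = 0 := emb_fib z p
  rw [h]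
  simp

theorem eS_embU (z : U) (b : Fin 2) : (eS k b : Sm (Om U)).1 (embU z) = 1 := by
  have h : tR ((embU z : Om U) : E 4) = 0 := tR_emb z
  rw [eS_apply, h]
  simp

theorem dzD_tS_embU (z : U) (p : Fin 2) : (dzD (fib p) (tS : Sm (Om U))).1 (embU z) = 0 := by
  rw [dzD_fib_tS, Sm.smul_apply, Sm.mul_apply, star_apply, co_embU]
  simp

theorem dzbD_tS_embU (z : U) (p : Fin 2) : (dzbD (fib p) (tS : Sm (Om U))).1 (embU z) = 0 := by
  rw [dzbD_fib_tS, Sm.smul_apply, Sm.mul_apply, co_embU]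
  simp

variable (hdom : ∀ z ∈ U, ∀ c : ℂˣ, dact k c z ∈ U)

theorem pl_embU (G : Sm U) (z : U) : (pl hdom G).1 (embU z) = G.1 z := by
  rw [pl, pull_apply]
  congr 1
  apply Subtype.ext
  exact tau_emb z.1

section Values

variable (a b : ℂ) {ψ : Sm U} (hψ : Cinv k ψ) (z : U)

theorem val_bb (i j : Fin 2) : (dzD (bse i) (dzbD (bse j) (PS hdom a b ψ))).1 (embU z) =
    (dzD i (dzbD j ψ)).1 z := by
  rw [hess_bb, Sm.mul_apply, Sm.mul_apply, eS_embU, eS_embU, pl_embU, mul_one, mul_one]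

include hψ in
theorem val_fb (p j : Fin 2) :
    (dzD (fib p) (dzbD (bse j) (PS hdom a b ψ))).1 (embU z) = 0 := by
  rw [hess_fb hdom a b hψ, Sm.mul_apply, dzD_tS_embU, zero_mul]

include hψ in
theorem val_bf (i q : Fin 2) :
    (dzD (bse i) (dzbD (fib q) (PS hdom a b ψ))).1 (embU z) = 0 := by
  rw [hess_bf hdom a b hψ, Sm.mul_apply, dzbD_tS_embU, zero_mul]

include hψ in
theorem val_ff (p q : Fin 2) : (dzD (fib p) (dzbD (fib q) (PS hdom a b ψ))).1 (embU z) =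
    if p = q then a + sgR p * (b + (VS k ψ).1 z) else 0 := by
  rw [hess_ff hdom a b hψ, Sm.add_apply, Sm.mul_apply, Sm.mul_apply, dzD_tS_embU, zero_mul,
    zero_mul, add_zero]
  split_ifs with h
  · rw [Sm.mul_apply, Sm.mul_apply, vS_embU, Sm.add_apply, Sm.smul_apply, Sm.add_apply,
      Sm.algebraMap_apply, Sm.algebraMap_apply, pl_embU, mul_one, mul_one]
  · rfl

end Values

section Final

variable (q : ℕ) (m : ℤ) {φ : E 2 → ℝ} (hφ : ContDiffOn ℝ ∞ φ U)
  (hinv : ∀ z ∈ U, ∀ c : ℂˣ, ‖(c : ℂ)‖ = 1 → φ (dact k c z) = φ z) {Φ : E 4 → ℝ}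
  (hΦ : ∀ z ∈ Om U, Φ z = 25 * q * (Real.log (1 + ‖z 2‖ ^ 2) + Real.log (1 + ‖z 3‖ ^ 2)) +
    m * tR z + φ (tau k z))
  (hpos : ∀ z ∈ Om U, (hess Φ z).PosDef)

include hdom hinv in
theorem cinv_phi : Cinv k (ofR φ hφ : Sm U) := by
  refine Cinv.of_inv k _ fun z hz c hc => ?_
  rw [ext_mk _ hz, ext_mk _ (hdom z hz c), ofR_apply, ofR_apply, hinv z hz c hc]

include hΦ in
theorem Phi_eq (z : Om U) : ((Φ z : ℝ) : ℂ) = (PS hdom (25 * q) m (ofR φ hφ)).1 z := by
  rw [hΦ z z.2, PS, Sm.add_apply, Sm.add_apply, Sm.smul_apply, Sm.smul_apply, rS_apply, tS_apply,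
    pl, pull_apply, ofR_apply]
  push_cast
  rfl

include hdom hφ hΦ in
theorem smooth_Phi : ContDiffOn ℝ ∞ Φ (Om U) := by
  have h1 : ContDiffOn ℝ ∞ (fun z => (ext (PS hdom (25 * q) m (ofR φ hφ)).1 z).re) (Om U) :=
    reCLM.contDiff.comp_contDiffOn (smooth_ext _)
  refine h1.congr fun z hz => ?_
  rw [ext_mk _ hz, ← Phi_eq hdom q m hφ hΦ ⟨z, hz⟩, ofReal_re]

include hΦ in
theorem ofR_Phi (hs : ContDiffOn ℝ ∞ Φ (Om U)) :
    (ofR Φ hs : Sm (Om U)) = PS hdom (25 * q) m (ofR φ hφ) :=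
  Sm.ext' fun z => by rw [ofR_apply, Phi_eq hdom q m hφ hΦ]

include hdom hφ hΦ in
theorem hess_emb_bb (z : U) (i j : Fin 2) :
    hess Φ (emb z) (bse i) (bse j) = hess φ z i j := by
  have hs := smooth_Phi hdom q m hφ hΦ
  refine (hess_apply_eq Φ hs (embU z) (bse i) (bse j)).trans ?_
  rw [ofR_Phi hdom q m hφ hΦ, val_bb, ← hess_apply_eq]

include hdom hφ hinv hΦ in
theorem hess_emb_fb (z : U) (p j : Fin 2) : hess Φ (emb z) (fib p) (bse j) = 0 := by
  have hs := smooth_Phi hdom q m hφ hΦ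
  refine (hess_apply_eq Φ hs (embU z) (fib p) (bse j)).trans ?_
  rw [ofR_Phi hdom q m hφ hΦ, val_fb hdom _ _ (cinv_phi hdom hφ hinv)]

include hdom hφ hinv hΦ in
theorem hess_emb_bf (z : U) (i q' : Fin 2) : hess Φ (emb z) (bse i) (fib q') = 0 := by
  have hs := smooth_Phi hdom q m hφ hΦ
  refine (hess_apply_eq Φ hs (embU z) (bse i) (fib q')).trans ?_
  rw [ofR_Phi hdom q m hφ hΦ, val_bf hdom _ _ (cinv_phi hdom hφ hinv)]

include hdom hφ hinv hΦ in
theorem hess_emb_ff (z : U) (p p' : Fin 2) : hess Φ (emb z) (fib p) (fib p') =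
    if p = p' then 25 * q + sgR p * (mom k m φ z : ℝ) else 0 := by
  have hs := smooth_Phi hdom q m hφ hΦ
  have hc := cinv_phi hdom hφ hinv
  refine (hess_apply_eq Φ hs (embU z) (fib p) (fib p')).trans ?_
  rw [ofR_Phi hdom q m hφ hΦ, val_ff hdom _ _ hc, ← muS_apply m hφ hc, muS, Sm.add_apply, Sm.algebraMap_apply]

include hdom hφ hΦ hpos in
theorem posDef_phi (z : U) : (hess φ z).PosDef := by
  have h1 := hpos _ (emb_mem z)
  have h2 : hess φ z = (hess Φ (emb z)).submatrix bse bse := by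
    ext i j
    rw [Matrix.submatrix_apply, hess_emb_bb hdom q m hφ hΦ]
  rw [h2]
  exact h1.submatrix fun _ _ h => bse_inj.1 h

include hdom hφ hinv hΦ hpos in
theorem pos_mom (z : U) : 0 < 25 * (q : ℝ) + 3 * mom k m φ z := by
  have h1 := (hpos _ (emb_mem z)).diag_pos (i := fib 0)
  rw [hess_emb_ff hdom q m hφ hinv hΦ, if_pos rfl, sgR, if_pos rfl] at h1
  exact_mod_cast h1

include hdom hφ hinv hΦ hpos in
theorem pos_mom' (z : U) : 0 < 25 * (q : ℝ) - 3 * mom k m φ z := by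
  have h1 := (hpos _ (emb_mem z)).diag_pos (i := fib 1)
  rw [hess_emb_ff hdom q m hφ hinv hΦ, if_pos rfl, sgR, if_neg one_ne_zero] at h1
  have h2 : (25 * (q : ℂ) + -3 * (mom k m φ z : ℝ)) = ((25 * (q : ℝ) - 3 * mom k m φ z : ℝ) : ℂ) := by
    push_cast
    ring
  rw [h2] at h1
  exact_mod_cast h1

include hdom hφ hinv hΦ hpos in
theorem ppS_pos (z : U) : 0 < (ppS q k m (ofR φ hφ : Sm U)).1 z := by
  rw [ppS_apply m hφ q (cinv_phi hdom hφ hinv), PP, zero_lt_real]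
  exact mul_pos (pos_mom hdom q m hφ hinv hΦ hpos z) (pos_mom' hdom q m hφ hinv hΦ hpos z)

include hinv hΦ in
theorem det_Phi (hs : ContDiffOn ℝ ∞ Φ (Om U)) : (hessS (ofR Φ hs : Sm (Om U))).det =
    pl hdom ((hessS (ofR φ hφ)).det * ppS q k m (ofR φ hφ)) * (eS k 0 * eS k 1) ^ 2 *
      (vS 2 * vS 3) ^ 2 := by
  have hc := cinv_phi hdom hφ hinv
  rw [det_four (hessS (ofR Φ hs : Sm (Om U))) (fun i => (k i : ℂ) • co (bse i))
    (fun i => (k i : ℂ) • star (co (bse i))) (fun p => dzD (fib p) tS)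
    (fun p => dzbD (fib p) tS)
    (fun p => (algebraMap ℂ _ (25 * q : ℂ) + sgR p • (algebraMap ℂ _ (m : ℂ) +
      pl hdom (VS k (ofR φ hφ)))) * (vS (fib p) * vS (fib p)))]
  · simp only [hessS_apply]
    rw [ofR_Phi hdom q m hφ hΦ]
    simp only [hess_bb]
    rw [Matrix.det_fin_two, ppS, muS]
    simp only [map_mul, map_sub, map_add, hessS_apply, pl_smul, AlgHom.commutes]
    have f0 : fib 0 = 2 := rfl
    have f1 : fib 1 = 3 := rfl
    have s0 : sgR 0 = 3 := rfl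
    have s1 : sgR 1 = -3 := rfl
    rw [f0, f1, s0, s1, neg_smul]
    ring
  · intro p j
    simp only [hessS_apply]
    rw [ofR_Phi hdom q m hφ hΦ, hess_fb hdom _ _ hc]
    congr 1
    refine Finset.sum_congr rfl fun i _ => ?_
    rw [hess_bb, smul_mul_assoc]
  · intro p j
    simp only [hessS_apply]
    rw [ofR_Phi hdom q m hφ hΦ, hess_bf hdom _ _ hc]
    congr 1
    refine Finset.sum_congr rfl fun i _ => ?_
    rw [hess_bb, smul_mul_assoc]
  · intro p p'
    simp only [hessS_apply]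
    rw [ofR_Phi hdom q m hφ hΦ, hess_ff hdom _ _ hc]
    congr 2
    refine Finset.sum_congr rfl fun i _ => Finset.sum_congr rfl fun j _ => ?_
    rw [hess_bb]
    simp only [Algebra.smul_def, map_mul]
    ring

theorem eS_real (b : Fin 2) (z : Om U) :
    (eS k b : Sm (Om U)).1 z = ((Real.exp ((k b : ℝ) / 2 * tR z) : ℝ) : ℂ) := by
  rw [eS_apply]
  push_cast
  rfl

theorem vS_real (i : Fin 4) (z : Om U) :
    (vS i : Sm (Om U)).1 z = (((1 + ‖(z : E 4) i‖ ^ 2)⁻¹ : ℝ) : ℂ) := by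
  rw [vS, invS_apply, wS_apply]
  push_cast
  rfl

include hdom hφ hinv hΦ hpos in
theorem logdet_Phi (z : Om U) : logdet Φ z =
    -2 * (Real.log (1 + ‖(z : E 4) 2‖ ^ 2) + Real.log (1 + ‖(z : E 4) 3‖ ^ 2)) +
      ((k 0 : ℝ) + k 1) * tR z + redF q k m φ (tau k z) := by
  have hs := smooth_Phi hdom q m hφ hΦ
  have hc := cinv_phi hdom hφ hinv
  set u : U := ⟨tau k z, mapsTo_tau hdom z.2⟩ with hu
  have hD := posDef_phi hdom q m hφ hΦ hpos u
  have hDpos : 0 < (hess φ u).det.re := (pos_iff.1 hD.det_pos).1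
  have hDre : (hess φ u).det = ((hess φ u).det.re : ℂ) := by
    apply Complex.ext
    · simp
    · simp [← (pos_iff.1 hD.det_pos).2]
  have hP : 0 < PP q (mom k m φ u) :=
    mul_pos (pos_mom hdom q m hφ hinv hΦ hpos u) (pos_mom' hdom q m hφ hinv hΦ hpos u)
  have hdet : (hess Φ z).det = (((hess φ u).det.re * PP q (mom k m φ u) *
      (Real.exp ((k 0 : ℝ) / 2 * tR z) * Real.exp ((k 1 : ℝ) / 2 * tR z)) ^ 2 *
      ((1 + ‖(z : E 4) 2‖ ^ 2)⁻¹ * (1 + ‖(z : E 4) 3‖ ^ 2)⁻¹) ^ 2 : ℝ) : ℂ) := by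
    rw [det_hess_eq Φ hs z, det_Phi hdom q m hφ hinv hΦ hs, Sm.mul_apply, Sm.mul_apply,
      Sm.pow_apply, Sm.pow_apply, Sm.mul_apply, Sm.mul_apply, eS_real, eS_real, vS_real, vS_real,
      pl, pull_apply, Sm.mul_apply, ← det_hess_eq φ hφ, ppS_apply m hφ q hc]
    push_cast
    rw [← hDre]
  rw [logdet, hdet, ofReal_re, redF, logdet]
  have w2 : 0 < 1 + ‖(z : E 4) 2‖ ^ 2 := by positivity
  have w3 : 0 < 1 + ‖(z : E 4) 3‖ ^ 2 := by positivity
  rw [Real.log_mul (by positivity) (by positivity), Real.log_mul (by positivity) (by positivity),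
    Real.log_mul hDpos.ne' hP.ne', Real.log_pow, Real.log_pow, ← Real.exp_add, Real.log_exp,
    Real.log_mul (by positivity) (by positivity), Real.log_inv, Real.log_inv]
  push_cast
  ring

include hdom hφ hinv hΦ hpos in
theorem hess_logdet_emb : ∃ hF : ContDiffOn ℝ ∞ (redF q k m φ) U,
    ∃ hL : ContDiffOn ℝ ∞ (logdet Φ) (Om U),
    Cinv k (ofR (redF q k m φ) hF : Sm U) ∧
    (ofR (logdet Φ) hL : Sm (Om U)) =
      PS hdom (-2) ((k 0 : ℂ) + k 1) (ofR (redF q k m φ) hF) := by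
  have hs := smooth_Phi hdom q m hφ hΦ
  have hc := cinv_phi hdom hφ hinv
  have hd : ∀ z, 0 < (hessS (ofR φ hφ : Sm U)).det.1 z := fun z => by
    rw [← det_hess_eq]
    exact (posDef_phi hdom q m hφ hΦ hpos z).det_pos
  have hp := ppS_pos hdom q m hφ hinv hΦ hpos
  have hF := contDiffOn_redF m hφ q hc hd hp
  have hL : ContDiffOn ℝ ∞ (logdet Φ) (Om U) := contDiffOn_logdet hs (det_pos_of_posDef hs hpos)
  refine ⟨hF, hL, cinv_redF m hφ q hc hd hp hF, Sm.ext' fun z => ?_⟩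
  rw [ofR_apply, logdet_Phi hdom q m hφ hinv hΦ hpos, PS, Sm.add_apply, Sm.add_apply,
    Sm.smul_apply, Sm.smul_apply, rS_apply, tS_apply, pl, pull_apply, ofR_apply]
  push_cast
  rfl

include hdom hφ hinv hΦ hpos in
/-- the reduced equation -/
theorem scal_Phi (z : U) : scal Φ (emb z) * (PP q (mom k m φ z) : ℝ) =
    -((PP q (mom k m φ z) : ℝ) *
        ∑ i, ∑ j, (hess φ z)⁻¹ j i * hess (redF q k m φ) z i j +
      -18 * (mom k m φ z : ℝ) *
        (wdz k (fun w => (redF q k m φ w : ℂ)) z + ((∑ j, k j : ℤ) : ℂ)) - 100 * (q : ℂ)) := by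
  obtain ⟨hF, hL, hcF, hPS⟩ := hess_logdet_emb hdom q m hφ hinv hΦ hpos
  have h1 := pos_mom hdom q m hφ hinv hΦ hpos z
  have h2 := pos_mom' hdom q m hφ hinv hΦ hpos z
  have hg := (posDef_phi hdom q m hφ hΦ hpos z).det_pos.ne'
  set d : Fin 2 → ℂ := fun p => 25 * q + sgR p * (mom k m φ z : ℝ) with hd
  have hd0 : ∀ p, d p ≠ 0 := by
    intro p
    fin_cases p
    · have : d 0 = ((25 * (q : ℝ) + 3 * mom k m φ z : ℝ) : ℂ) := by
        rw [hd]
        push_cast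
        rfl
      show d 0 ≠ 0
      rw [this]
      exact_mod_cast h1.ne'
    · have : d 1 = ((25 * (q : ℝ) - 3 * mom k m φ z : ℝ) : ℂ) := by
        have s1 : sgR 1 = -3 := rfl
        rw [hd]
        simp only [s1]
        push_cast
        ring
      show d 1 ≠ 0
      rw [this]
      exact_mod_cast h2.ne'
  obtain ⟨i1, i2, i3, i4⟩ := inv_four (hess Φ (emb z)) (hess φ z) d hg hd0
    (hess_emb_bb hdom q m hφ hΦ z) (hess_emb_bf hdom q m hφ hinv hΦ z)
    (hess_emb_fb hdom q m hφ hinv hΦ z) (hess_emb_ff hdom q m hφ hinv hΦ z)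
  have v1 : ∀ i j, hess (logdet Φ) (emb z) (bse i) (bse j) = hess (redF q k m φ) z i j := by
    intro i j
    refine (hess_apply_eq (logdet Φ) hL (embU z) _ _).trans ?_
    rw [hPS, val_bb, ← hess_apply_eq]
  have v2 : ∀ p p', hess (logdet Φ) (emb z) (fib p) (fib p') = if p = p' then
      -2 + sgR p * ((k 0 : ℂ) + k 1 + wdz k (fun w => (redF q k m φ w : ℂ)) z) else 0 := by
    intro p p'
    refine (hess_apply_eq (logdet Φ) hL (embU z) _ _).trans ?_
    rw [hPS, val_ff hdom _ _ hcF, VS_ofR]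
  have hsum : scal Φ (emb z) = -(∑ i, ∑ j, (hess φ z)⁻¹ j i * hess (redF q k m φ) z i j +
      ∑ p, (d p)⁻¹ * (-2 + sgR p * ((k 0 : ℂ) + k 1 +
        wdz k (fun w => (redF q k m φ w : ℂ)) z))) := by
    have b0 : bse 0 = 0 := rfl
    have b1 : bse 1 = 1 := rfl
    have f0 : fib 0 = 2 := rfl
    have f1 : fib 1 = 3 := rfl
    rw [scal]
    simp only [Fin.sum_univ_four, Fin.sum_univ_two]
    have a00 := i1 0 0
    have a01 := i1 0 1
    have a10 := i1 1 0
    have a11 := i1 1 1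
    have a20 := i3 0 0
    have a21 := i3 0 1
    have a30 := i3 1 0
    have a31 := i3 1 1
    have a02 := i2 0 0
    have a03 := i2 0 1
    have a12 := i2 1 0
    have a13 := i2 1 1
    have a22 := i4 0 0
    have a23 := i4 0 1
    have a32 := i4 1 0
    have a33 := i4 1 1
    have c00 := v1 0 0
    have c01 := v1 0 1
    have c10 := v1 1 0
    have c11 := v1 1 1
    have c22 := v2 0 0
    have c33 := v2 1 1
    simp only [b0, b1, f0, f1, if_true, one_ne_zero, zero_ne_one, if_false] at a00 a01 a10 a11 a20 a21 a30 a31 a02 a03 a12 a13 a22 a23 a32 a33 c00 c01 c10 c11 c22 c33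
    rw [a00, a01, a10, a11, a20, a21, a30, a31, a02, a03, a12, a13, a22, a23, a32, a33, c00, c01,
      c10, c11, c22, c33]
    ring
  rw [hsum]
  generalize (∑ i, ∑ j, (hess φ z)⁻¹ j i * hess (redF q k m φ) z i j) = T
  simp only [Fin.sum_univ_two, PP]
  have e0 := hd0 0
  have e1 := hd0 1
  have s0 : sgR 0 = 3 := rfl
  have s1 : sgR 1 = -3 := rfl
  have hd0' : d 0 = 25 * q + 3 * (mom k m φ z : ℝ) := rfl
  have hd1' : d 1 = 25 * q - 3 * (mom k m φ z : ℝ) := by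
    rw [hd]
    simp only [s1]
    ring
  rw [s0, s1]
  rw [hd0'] at e0
  rw [hd1'] at e1
  rw [hd0', hd1']
  push_cast
  field_simp
  ring

end Final

end Core

end

end Pool.Agent.YTDA


end

/- source: Pool.Agent.YTDA.Red -/

section

/-!
# T12: reduction of the equation of constant scalar curvature from the fourfold to the surface
-/

namespace Pool.Agent.YTDA

open Complex Set Topology ContDiff ComplexOrder TopologicalSpace Matrix

noncomputable section

set_option linter.unusedSectionVars false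

/-- `e^{l/2}` as a unit -/
def uexpR (l : ℝ) : ℂˣ := Units.mk0 (exp ((l / 2 : ℝ) : ℂ)) (exp_ne_zero _)

theorem norm_uexpR (l : ℝ) : ‖(uexpR l : ℂ)‖ = Real.exp (l / 2) := by
  rw [uexpR, Units.val_mk0, norm_exp_ofReal]

theorem norm_uexpR_zpow (l : ℝ) (n : ℤ) : ‖((uexpR l ^ n : ℂˣ) : ℂ)‖ = Real.exp (n * (l / 2)) := by
  rw [Units.val_zpow_eq_zpow_val, norm_zpow, norm_uexpR, ← Real.rpow_intCast, ← Real.exp_mul,
    mul_comm]

theorem uexpR_zpow_mul (l l' : ℝ) (n : ℤ) :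
    uexpR l ^ n * uexpR l' ^ (-n) = Units.mk0 (exp (((n * (l - l') : ℝ) : ℂ) / 2)) (exp_ne_zero _) := by
  apply Units.ext
  rw [Units.val_mul, Units.val_zpow_eq_zpow_val, Units.val_zpow_eq_zpow_val, Units.val_mk0, uexpR,
    uexpR, Units.val_mk0, Units.val_mk0, ← exp_int_mul, ← exp_int_mul, ← Complex.exp_add]
  congr 1
  push_cast
  ring

section Main

variable {Y : Type} [MulAction ℂˣ Y] {A : PolAtlas 2 Y} {D : A.DAct} {q : ℕ}
  {B₁ : PolAtlas 3 (P1Y D (25 * q) 3)} {D₁ : B₁.DAct}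

/-- the metric on the surface -/
def hred (H : P1Y D₁ (25 * q) (-3) → ℝ) (y : Y) : ℝ :=
  H (P1Y.mk (P1Y.mk y (vec false 0)) (vec false 0))

variable (l₁ : ∀ c y x, D₁.act c (P1Y.mk y x) = P1Y.mk (D.act c y) x)

include l₁ in
theorem mk_mk_smul (y : Y) (x x' : V2) (c c' : ℂˣ) :
    (P1Y.mk (P1Y.mk y (c • x)) (c' • x') : P1Y D₁ (25 * q) (-3)) =
      (c ^ (25 * q : ℤ) * c' ^ (25 * q : ℤ)) •
        P1Y.mk (P1Y.mk (D.act (c ^ (3 : ℤ) * c' ^ (-3 : ℤ)) y) x) x' := by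
  rw [P1Y.mk_smul, P1Y.mk_smul, l₁, D.act_smul, ← D.act_mul, mul_comm (c' ^ (-3 : ℤ)),
    P1Y.smul_mk, P1Y.smul_mk, P1Y.smul_mk, smul_smul, mul_comm (c' ^ (25 * q : ℤ))]

variable {H : P1Y D₁ (25 * q) (-3) → ℝ} {B₂ : PolAtlas 4 (P1Y D₁ (25 * q) (-3))}
  (hK : B₂.IsKahler H)
  (i1 : ∀ (c : ℂˣ) y x x', ‖(c : ℂ)‖ = 1 →
    H (P1Y.mk (P1Y.mk (D.act c y) x) x') = H (P1Y.mk (P1Y.mk y x) x'))
  (i2 : ∀ y (x x₁ x' x₁' : V2), ‖x.1 0‖ ^ 2 + ‖x.1 1‖ ^ 2 = ‖x₁.1 0‖ ^ 2 + ‖x₁.1 1‖ ^ 2 →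
    ‖x'.1 0‖ ^ 2 + ‖x'.1 1‖ ^ 2 = ‖x₁'.1 0‖ ^ 2 + ‖x₁'.1 1‖ ^ 2 →
    H (P1Y.mk (P1Y.mk y x) x') = H (P1Y.mk (P1Y.mk y x₁) x₁'))

include hK in
theorem hred_pos (y : Y) : 0 < hred H y := hK.pos _

include hK in
theorem hred_hom (c : ℂˣ) (y : Y) : hred H (c • y) = ‖(c : ℂ)‖ ^ 2 * hred H y := by
  rw [hred, ← P1Y.smul_mk, ← P1Y.smul_mk, hK.hom]
  rfl

include i1 in
theorem hred_act (c : ℂˣ) (y : Y) (h : ‖(c : ℂ)‖ = 1) : hred H (D.act c y) = hred H y :=
  i1 c y _ _ h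

theorem nsq_vec (u : ℂ) : ‖(vec false u).1 0‖ ^ 2 + ‖(vec false u).1 1‖ ^ 2 =
    ‖(uexpR (Real.log (1 + ‖u‖ ^ 2)) • vec false 0 : V2).1 0‖ ^ 2 +
    ‖(uexpR (Real.log (1 + ‖u‖ ^ 2)) • vec false 0 : V2).1 1‖ ^ 2 := by
  have h : 0 < 1 + ‖u‖ ^ 2 := by positivity
  rw [V2.coe_smul]
  show ‖(![1, u] : Fin 2 → ℂ) 0‖ ^ 2 + ‖(![1, u] : Fin 2 → ℂ) 1‖ ^ 2 =
    ‖((uexpR (Real.log (1 + ‖u‖ ^ 2)) : ℂ) • (![1, 0] : Fin 2 → ℂ)) 0‖ ^ 2 +
    ‖((uexpR (Real.log (1 + ‖u‖ ^ 2)) : ℂ) • (![1, 0] : Fin 2 → ℂ)) 1‖ ^ 2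
  simp only [Pi.smul_apply, smul_eq_mul, norm_mul, norm_uexpR]
  have e : Real.exp (Real.log (1 + ‖u‖ ^ 2) / 2) ^ 2 = 1 + ‖u‖ ^ 2 := by
    rw [← Real.exp_nat_mul]
    push_cast
    rw [mul_div_cancel₀ _ (two_ne_zero), Real.exp_log h]
  simp [e]

include l₁ hK i2 in
theorem H_eq {a : A.ι} {w : E 2} (hw : w ∈ A.U a) (u v : ℂ) :
    Real.log (H (P1Y.mk (P1Y.mk (A.γ a w) (vec false u)) (vec false v))) =
      25 * q * (Real.log (1 + ‖u‖ ^ 2) + Real.log (1 + ‖v‖ ^ 2)) +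
      D.m a * (3 * (Real.log (1 + ‖u‖ ^ 2) - Real.log (1 + ‖v‖ ^ 2))) +
      A.pot (hred H) a (dact (D.k a) (Units.mk0 (exp (((3 * (Real.log (1 + ‖u‖ ^ 2) -
        Real.log (1 + ‖v‖ ^ 2)) : ℝ) : ℂ) / 2)) (exp_ne_zero _)) w) := by
  set l := Real.log (1 + ‖u‖ ^ 2) with hl
  set l' := Real.log (1 + ‖v‖ ^ 2) with hl'
  have h3 : uexpR l ^ (3 : ℤ) * uexpR l' ^ (-3 : ℤ) =
      Units.mk0 (exp (((3 * (l - l') : ℝ) : ℂ) / 2)) (exp_ne_zero _) := by
    have := uexpR_zpow_mul l l' 3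
    rw [this]
    apply Units.ext
    simp only [Units.val_mk0]
    norm_num
  rw [i2 _ _ _ _ _ (nsq_vec u) (nsq_vec v), ← hl, ← hl', mk_mk_smul l₁, hK.hom, h3]
  have hh := hred_hom hK (H := H)
  show Real.log (_ * hred H _) = _
  rw [D.act_γ a w hw, hh]
  have hpos := hred_pos hK (H := H)
  have n1 : 0 < ‖((uexpR l ^ (25 * q : ℤ) * uexpR l' ^ (25 * q : ℤ) : ℂˣ) : ℂ)‖ :=
    norm_pos_iff.2 (Units.ne_zero _)
  have n2 : 0 < ‖((Units.mk0 (exp (((3 * (l - l') : ℝ) : ℂ) / 2)) (exp_ne_zero _) ^ D.m a :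
    ℂˣ) : ℂ)‖ := norm_pos_iff.2 (Units.ne_zero _)
  rw [Real.log_mul (by positivity) (mul_pos (by positivity) (hpos _)).ne',
    Real.log_mul (by positivity) (hpos _).ne', Real.log_pow, Real.log_pow, Units.val_mul,
    norm_mul, norm_uexpR_zpow, norm_uexpR_zpow, ← Real.exp_add, Real.log_exp,
    Units.val_zpow_eq_zpow_val, Units.val_mk0, norm_zpow]
  have e : ‖exp (((3 * (l - l') : ℝ) : ℂ) / 2)‖ = Real.exp (3 * (l - l') / 2) := by
    have : (((3 * (l - l') : ℝ) : ℂ) / 2) = ((3 * (l - l') / 2 : ℝ) : ℂ) := by push_cast; rfl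
    rw [this, norm_exp_ofReal]
  rw [e, Real.log_zpow, Real.log_exp]
  show _ = _ + Real.log (hred H _)
  push_cast
  ring

variable (i : A.ι → B₂.ι) (hU : ∀ a z, z ∈ B₂.U (i a) ↔ ![z 0, z 1] ∈ A.U a)
  (hγ : ∀ a z, ![z 0, z 1] ∈ A.U a → B₂.γ (i a) z =
    P1Y.mk (P1Y.mk (A.γ a ![z 0, z 1]) (vec false (z 2))) (vec false (z 3)))

theorem prB_eq (z : E 4) : prB z = ![z 0, z 1] := by
  funext b
  fin_cases b <;> rfl

/-- the chart domain as an open set -/
def opU (A : PolAtlas 2 Y) (a : A.ι) : Opens (E 2) := ⟨A.U a, A.isOpen_U a⟩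

include l₁ hK i2 hγ in
theorem pot_eq (a : A.ι) (z : E 4) (hz : z ∈ Om (opU A a)) : B₂.pot H (i a) z =
    25 * q * (Real.log (1 + ‖z 2‖ ^ 2) + Real.log (1 + ‖z 3‖ ^ 2)) + D.m a * tR z +
      A.pot (hred H) a (tau (D.k a) z) := by
  have hz' : ![z 0, z 1] ∈ A.U a := by
    rw [← prB_eq]
    exact hz
  rw [PolAtlas.pot, hγ a z hz', H_eq l₁ hK i2 hz', tau_eq_dact, prB_eq]
  rfl

include hγ in
theorem pot_hred (a : A.ι) (z : E 2) (hz : z ∈ A.U a) :
    A.pot (hred H) a z = B₂.pot H (i a) (emb z) := by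
  have e : (![emb z 0, emb z 1] : E 2) = z := by
    funext b
    fin_cases b <;> rfl
  rw [PolAtlas.pot, PolAtlas.pot, hγ a (emb z) (by rw [e]; exact hz), e]
  rfl

theorem contDiff_emb : ContDiff ℝ ∞ emb := by
  rw [contDiff_pi]
  intro j
  fin_cases j
  · exact contDiff_apply ℝ ℂ (0 : Fin 2)
  · exact contDiff_apply ℝ ℂ (1 : Fin 2)
  · exact contDiff_const
  · exact contDiff_const

include hK hU hγ in
theorem smooth_hred (a : A.ι) : ContDiffOn ℝ ∞ (A.pot (hred H) a) (A.U a) := by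
  have h1 : ContDiffOn ℝ ∞ (fun z => B₂.pot H (i a) (emb z)) (A.U a) := by
    refine (hK.smooth (i a)).comp contDiff_emb.contDiffOn fun z hz => ?_
    rw [hU]
    have e : (![emb z 0, emb z 1] : E 2) = z := by
      funext b
      fin_cases b <;> rfl
    rw [e]
    exact hz
  exact h1.congr fun z hz => pot_hred i hγ a z hz

include hK i1 in
theorem inv_hred (a : A.ι) (z : E 2) (hz : z ∈ A.U a) (c : ℂˣ) (hc : ‖(c : ℂ)‖ = 1) :
    A.pot (hred H) a (dact (D.k a) c z) = A.pot (hred H) a z := by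
  have h1 := D.act_γ a z hz c
  have h2 : A.γ a (dact (D.k a) c z) = (c ^ D.m a)⁻¹ • D.act c (A.γ a z) := by
    rw [h1, inv_smul_smul]
  rw [PolAtlas.pot, PolAtlas.pot, h2, hred_hom hK, hred_act i1 _ _ hc, Units.val_inv_eq_inv_val,
    Units.val_zpow_eq_zpow_val, norm_inv, norm_zpow, hc]
  simp

include l₁ hK i1 i2 hU hγ in
/-- T12, the metric on the surface -/
theorem isKahler_hred : A.IsKahler (hred H) := by
  refine ⟨hred_pos hK, hred_hom hK, smooth_hred hK i hU hγ, fun a z hz => ?_⟩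
  refine posDef_phi (U := opU A a) (k := D.k a) (fun w hw c => D.dom a w hw c) q (D.m a)
    (smooth_hred hK i hU hγ a) (Φ := B₂.pot H (i a)) (pot_eq l₁ hK i2 i hγ a)
    (fun w hw => hK.posDef _ w ?_) ⟨z, hz⟩
  rw [hU, ← prB_eq]
  exact hw

include l₁ hK i1 i2 hU hγ in
/-- T12, the reduced equation -/
theorem isPde_hred {s : ℂ} (hs : B₂.IsCsc H s) : A.IsPde D q s (hred H) := by
  have hp : ∀ a, ∀ w ∈ Om (opU A a), (hess (B₂.pot H (i a)) w).PosDef := fun a w hw =>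
    hK.posDef _ w (by
      rw [hU, ← prB_eq]
      exact hw)
  refine ⟨fun c y h => hred_act i1 c y h, fun a z hz => ?_, fun a z hz => ?_, fun a z hz => ?_⟩
  · exact pos_mom (U := opU A a) (k := D.k a) (fun w hw c => D.dom a w hw c) q (D.m a)
      (smooth_hred hK i hU hγ a) (inv_hred hK i1 a) (Φ := B₂.pot H (i a))
      (pot_eq l₁ hK i2 i hγ a) (hp a) ⟨z, hz⟩
  · exact pos_mom' (U := opU A a) (k := D.k a) (fun w hw c => D.dom a w hw c) q (D.m a)
      (smooth_hred hK i hU hγ a) (inv_hred hK i1 a) (Φ := B₂.pot H (i a))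
      (pot_eq l₁ hK i2 i hγ a) (hp a) ⟨z, hz⟩
  · have h1 := scal_Phi (U := opU A a) (k := D.k a) (fun w hw c => D.dom a w hw c) q (D.m a)
      (smooth_hred hK i hU hγ a) (inv_hred hK i1 a) (Φ := B₂.pot H (i a))
      (pot_eq l₁ hK i2 i hγ a) (hp a) ⟨z, hz⟩
    have h2 : emb z ∈ B₂.U (i a) := by
      rw [hU, ← prB_eq, prB_emb]
      exact hz
    rw [hs (i a) (emb z) h2] at h1
    exact h1

end Main

end

end Pool.Agent.YTDA


end

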