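import Pool.Agent.YTDM.P41
import Pool.Agent.YTDM.P43
import Pool.Agent.YTDM.P49

/- source: Pool.Agent.YTDA.SecLin -/

section

/-!
# A finite dimensional space of sections of `L ^ N` on `X` separating points and tangent vectors
-/

namespace Pool.Agent.YTDA

open Complex Set Topology Filter Metric Module
open Pool.Agent.YTD

noncomputable section

/-! ### Separation -/

section sep

variable {n : ℕ} {Y : Type} [MulAction ℂˣ Y] {A : PolAtlas n Y}

theorem WSep.separates {W : ℤ → Set (Y → ℂ)} (hW : WSep A W) {V : Submodule ℂ (Y → ℂ)} {N : ℕ}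
    (hV : V ≤ A.secs N) (h : ∀ j, ∀ F ∈ W j, F ∈ V) : A.Separates V := by
  have hbase : ∀ y, ∃ F ∈ V, F y ≠ 0 := fun y => by
    obtain ⟨j, F, hF, hy⟩ := hW.base y
    exact ⟨F, h j F hF, hy⟩
  refine ⟨hbase, fun y y' hyy => ?_, fun a z hz v hv => ?_⟩
  · by_contra hcon
    push Not at hcon
    obtain ⟨F₀, hF₀, h0⟩ := hbase y
    obtain ⟨c, hc⟩ := hW.pts y y' (F₀ y' / F₀ y) (fun j F hF => by
      have h1 : F - (F y / F₀ y) • F₀ ∈ V := V.sub_mem (h j F hF) (V.smul_mem _ hF₀)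
      have h2 := hcon _ h1 (by
        rw [Pi.sub_apply, Pi.smul_apply, smul_eq_mul, div_mul_cancel₀ _ h0, sub_self])
      rw [Pi.sub_apply, Pi.smul_apply, smul_eq_mul, sub_eq_zero] at h2
      rw [h2]
      ring)
    exact hyy c hc
  · by_contra hcon
    push Not at hcon
    obtain ⟨F₀, hF₀, h0⟩ := hbase (A.γ a z)
    have hd : ∀ F ∈ V, DifferentiableAt ℂ (fun w => F (A.γ a w)) z := fun F hF =>
      (((hV hF).hol a z hz).differentiableAt ((A.isOpen_U a).mem_nhds hz))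
    refine hv (hW.tan a z hz v (fderiv ℂ (fun w => F₀ (A.γ a w)) z v / F₀ (A.γ a z)) ?_)
    intro j F hF
    have h1 : F - (F (A.γ a z) / F₀ (A.γ a z)) • F₀ ∈ V :=
      V.sub_mem (h j F hF) (V.smul_mem _ hF₀)
    have h2 := hcon _ h1 (by
      rw [Pi.sub_apply, Pi.smul_apply, smul_eq_mul, div_mul_cancel₀ _ h0, sub_self])
    have h3 : HasFDerivAt (fun w => (F - (F (A.γ a z) / F₀ (A.γ a z)) • F₀) (A.γ a w))
        (fderiv ℂ (fun w => F (A.γ a w)) z -
          (F (A.γ a z) / F₀ (A.γ a z)) • fderiv ℂ (fun w => F₀ (A.γ a w)) z) z :=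
      (hd F (h j F hF)).hasFDerivAt.sub (((hd F₀ hF₀).hasFDerivAt).const_smul _)
    rw [h3.fderiv] at h2
    have h4 : fderiv ℂ (fun w => F (A.γ a w)) z v -
        (F (A.γ a z) / F₀ (A.γ a z)) * fderiv ℂ (fun w => F₀ (A.γ a w)) z v = 0 := h2
    rw [sub_eq_zero] at h4
    rw [h4]
    ring

/-- `liftP` as a linear map -/
def liftL (D : A.DAct) (α β : ℤ) (a b : ℕ) : (Y → ℂ) →ₗ[ℂ] (P1Y D α β → ℂ) where
  toFun := liftP D α β a b
  map_add' F G := by
    funext p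
    simp only [liftP, Pi.add_apply]
    ring
  map_smul' c F := by
    funext p
    simp only [liftP, Pi.smul_apply, smul_eq_mul, RingHom.id_apply]
    ring

theorem liftL_apply (D : A.DAct) (α β : ℤ) (a b : ℕ) (F : Y → ℂ) :
    liftL D α β a b F = liftP D α β a b F := rfl

end sep

variable {K : Type} [Field K] [Algebra ℂ K] {T : Datum K} {q : ℕ} {D₀ : T.X.Pt →₀ ℤ}
  {An : AnCurve T.X.toCurveOrd} (M : SigModel T q D₀ An)

namespace SigModel

variable {N : ℕ} {j : ℤ}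

theorem loc_add {f g : K} (hf : f ∈ T.V q D₀ N j) (hg : g ∈ T.V q D₀ N j) {a : M.A.ι} {z : E 2}
    (hz : z ∈ M.A.U a) : M.loc N j (f + g) a z = M.loc N j f a z + M.loc N j g a z := by
  rcases M.chart_cases a hz with ⟨ε, P, rfl⟩ | ⟨ε, P, hP, rfl⟩
  · rw [M.U_ch] at hz
    have hs : z 0 ∈ ball (0 : ℂ) (M.r P) := mem_ball_zero_iff.2 hz
    have hs' := ball_subset_ball (M.r_le P) hs
    rw [loc_ch, loc_ch, loc_ch, locC, locC, locC,
      (AnCurve.reg_add hs' (M.reg hf (M.le_eC ε P) hs) (M.reg hg (M.le_eC ε P) hs)).2, mul_add]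
  · rw [M.U_md hP] at hz
    have hs : z 0 * z 1 ∈ ball (0 : ℂ) (M.r P) := mem_ball_zero_iff.2 hz
    have hs' := ball_subset_ball (M.r_le P) hs
    rw [loc_md _ _ _ _ hP, loc_md _ _ _ _ hP, loc_md _ _ _ _ hP, locM, locM, locM,
      (AnCurve.reg_add hs' (M.reg hf (M.eM_eq hP).ge hs) (M.reg hg (M.eM_eq hP).ge hs)).2, mul_add]

theorem loc_smul {f : K} (c : ℂ) (hf : f ∈ T.V q D₀ N j) {a : M.A.ι} {z : E 2}
    (hz : z ∈ M.A.U a) : M.loc N j (c • f) a z = c * M.loc N j f a z := by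
  rcases M.chart_cases a hz with ⟨ε, P, rfl⟩ | ⟨ε, P, hP, rfl⟩
  · rw [M.U_ch] at hz
    have hs : z 0 ∈ ball (0 : ℂ) (M.r P) := mem_ball_zero_iff.2 hz
    have hs' := ball_subset_ball (M.r_le P) hs
    rw [loc_ch, loc_ch, locC, locC, (AnCurve.reg_smul c hs' (M.reg hf (M.le_eC ε P) hs)).2]
    ring
  · rw [M.U_md hP] at hz
    have hs : z 0 * z 1 ∈ ball (0 : ℂ) (M.r P) := mem_ball_zero_iff.2 hz
    have hs' := ball_subset_ball (M.r_le P) hs
    rw [loc_md _ _ _ _ hP, loc_md _ _ _ _ hP, locM, locM,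
      (AnCurve.reg_smul c hs' (M.reg hf (M.eM_eq hP).ge hs)).2]
    ring

variable (hj : |j| ≤ 5 * q * N)

/-- The section `f w ^ j` depends linearly on `f`. -/
def secL (hj : |j| ≤ 5 * q * N) : T.V q D₀ N j →ₗ[ℂ] (M.Y → ℂ) where
  toFun f := M.secF N j f
  map_add' f g := by
    funext y
    obtain ⟨a, z, hz, c, rfl⟩ := M.A.cover y
    have hfg := (T.V q D₀ N j).add_mem f.2 g.2
    rw [Pi.add_apply, (M.secF_isSec hj f.2).hom, (M.secF_isSec hj g.2).hom]
    show M.secF N j (f.1 + g.1) _ = _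
    rw [(M.secF_isSec hj hfg).hom, M.secF_γ hj hfg hz, M.secF_γ hj f.2 hz, M.secF_γ hj g.2 hz,
      M.loc_add f.2 g.2 hz, mul_add]
  map_smul' c f := by
    funext y
    obtain ⟨a, z, hz, d, rfl⟩ := M.A.cover y
    have hfg := (T.V q D₀ N j).smul_mem c f.2
    rw [Pi.smul_apply, RingHom.id_apply, (M.secF_isSec hj f.2).hom]
    show M.secF N j (c • f.1) _ = _
    rw [(M.secF_isSec hj hfg).hom, M.secF_γ hj hfg hz, M.secF_γ hj f.2 hz,
      M.loc_smul c f.2 hz, smul_eq_mul]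
    ring

theorem secL_apply (f : T.V q D₀ N j) : M.secL hj f = M.secF N j f := rfl

end SigModel

/-! ### The fourfold -/

section four

variable {M}

/-- exponents of the sections of `L ^ N` -/
def Ix (q N : ℕ) : Type := {e : ℤ × (ℕ × ℕ) × (ℕ × ℕ) // |e.1| ≤ 5 * q * N ∧
  ((e.2.1.1 : ℤ) + e.2.1.2 = 25 * q * N + 3 * e.1) ∧
  ((e.2.2.1 : ℤ) + e.2.2.2 = 25 * q * N + -3 * e.1)}

instance (q N : ℕ) : Finite (Ix q N) := by
  refine Set.Finite.to_subtype (Set.Finite.subset (Finset.finite_toSet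
    ((Finset.Icc (-(5 * q * N : ℤ)) (5 * q * N)) ×ˢ
      ((Finset.range (40 * q * N + 1)) ×ˢ (Finset.range (40 * q * N + 1))) ×ˢ
      ((Finset.range (40 * q * N + 1)) ×ˢ (Finset.range (40 * q * N + 1))))) ?_)
  rintro ⟨j, ⟨a, b⟩, c, d⟩ ⟨h1, h2, h3⟩
  simp only at h1 h2 h3
  rw [abs_le] at h1
  simp only [Finset.coe_product, Set.mem_prod, Finset.mem_coe, Finset.mem_Icc, Finset.mem_range,
    Nat.lt_succ_iff]
  refine ⟨h1, ⟨?_, ?_⟩, ?_, ?_⟩ <;> (zify; linarith)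

/-- the sections with given exponents -/
def ixL (X : TwoP1 M.A M.D (25 * (q : ℤ)) 3 (25 * (q : ℤ)) (-3)) {N : ℕ} (e : Ix q N) :
    T.V q D₀ N e.1.1 →ₗ[ℂ] (P1Y X.D₁ (25 * (q : ℤ)) (-3) → ℂ) :=
  (liftL X.D₁ (25 * (q : ℤ)) (-3) e.1.2.2.1 e.1.2.2.2).comp
    ((liftL M.D (25 * (q : ℤ)) 3 e.1.2.1.1 e.1.2.1.2).comp (M.secL e.2.1))

/-- the space spanned by the monomial sections of `L ^ N` -/
def VX (X : TwoP1 M.A M.D (25 * (q : ℤ)) 3 (25 * (q : ℤ)) (-3)) (N : ℕ) :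
    Submodule ℂ (P1Y X.D₁ (25 * (q : ℤ)) (-3) → ℂ) :=
  ⨆ e : Ix q N, LinearMap.range (ixL X e)

variable (X : TwoP1 M.A M.D (25 * (q : ℤ)) 3 (25 * (q : ℤ)) (-3)) {N : ℕ}

instance : FiniteDimensional ℂ (VX X N) := by
  obtain ⟨P₀, -⟩ : T.S.Nonempty := Finset.card_pos.1 (by
    rw [T.card_S]
    exact Nat.mul_pos (by norm_num) T.t_pos)
  have h : ∀ j, FiniteDimensional ℂ (T.V q D₀ N j) := fun j => T.X.finite_L P₀ _
  unfold VX
  infer_instance

variable {X}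

theorem wt_ixL {j : ℤ} {f : K} (hj : |j| ≤ 5 * q * N) (hf : f ∈ T.V q D₀ N j) {a b : ℕ}
    (hab : (a : ℤ) + b = 25 * (q : ℤ) * N + 3 * j) :
    Wt X.D₁ N j (liftP M.D (25 * (q : ℤ)) 3 a b (M.secF N j f)) :=
  liftP_wt X.h₁ X.l₁ ⟨M.secF_isSec hj hf, M.secF_act hj hf⟩ hab

theorem isSec_ixL {j : ℤ} {f : K} (hj : |j| ≤ 5 * q * N) (hf : f ∈ T.V q D₀ N j) {a b c d : ℕ}
    (hab : (a : ℤ) + b = 25 * (q : ℤ) * N + 3 * j)
    (hcd : (c : ℤ) + d = 25 * (q : ℤ) * N + -3 * j) :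
    X.B₂.IsSec N (liftP X.D₁ (25 * (q : ℤ)) (-3) c d
      (liftP M.D (25 * (q : ℤ)) 3 a b (M.secF N j f))) :=
  liftP_isSec X.h₂ (wt_ixL hj hf hab) hcd

theorem VX_le : VX X N ≤ X.B₂.secs N := by
  refine iSup_le fun e => ?_
  rintro _ ⟨f, rfl⟩
  exact isSec_ixL e.2.1 f.2 e.2.2.1 e.2.2.2

theorem separates_VX (hq : 0 < q) (hD : T.X.deg D₀ = 105 * T.t * q) (hN : 5 ≤ N) :
    X.B₂.Separates (VX X N) := by
  have h0 := M.wsep hq hD hN
  have hqN : (5 : ℤ) ≤ (q : ℤ) * N := SigModel.qN_pos hq hN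
  have h1 := h0.lift X.h₁ (N := N) (fun j F hF => M.WS_wt hF) (by
    rintro j ⟨F, hj, -⟩
    rw [abs_le] at hj
    nlinarith [hj.1, hj.2])
  have hw : ∀ j, ∀ F ∈ liftW M.D (25 * (q : ℤ)) 3 N (M.WS N) j, Wt X.D₁ N j F := by
    rintro j _ ⟨F, ⟨hj, f, hf, rfl⟩, a, b, hab, rfl⟩
    exact wt_ixL hj hf hab
  have h2 := h1.lift X.h₂ (N := N) hw (by
    rintro j ⟨_, F, ⟨hj, -⟩, -⟩
    rw [abs_le] at hj
    nlinarith [hj.1, hj.2])
  refine h2.separates VX_le ?_
  rintro j _ ⟨_, ⟨F, ⟨hj, f, hf, rfl⟩, a, b, hab, rfl⟩, c, d, hcd, rfl⟩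
  exact Submodule.mem_iSup_of_mem (⟨(j, (a, b), (c, d)), hj, hab, hcd⟩ : Ix q N)
    ⟨⟨f, hf⟩, rfl⟩

end four

end

end Pool.Agent.YTDA


end

/- source: Pool.Agent.YTDA.AmpX -/

section

/-!
# The polarization of the quotient is ample; existence of an invariant Kähler metric
-/

set_option autoImplicit false
set_option linter.unusedVariables false

namespace Pool.Agent.YTDA

open Complex Set Topology Filter Metric Module
open Pool.Agent.YTD

noncomputable section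

variable {K : Type} [Field K] [Algebra ℂ K] {T : Datum K} {q : ℕ} {D₀ : T.X.Pt →₀ ℤ}
  {An : AnCurve T.X.toCurveOrd} {M : SigModel T q D₀ An}

theorem GamX.freeAct {γ : Gam T} (G : TwoP1.GamX (M := M) γ)
    (X : TwoP1 M.A M.D (25 * (q : ℤ)) 3 (25 * (q : ℤ)) (-3)) :
    letI := (G.inv3 X).act
    X.B₂.FreeAct G3 :=
  (G.free X).freeAct (G.isBihol_e₁ X).isHol (G.isBihol_e₂ X).isHol (G.isBihol_e₀ X).isHol

/-- The invariant sections of some power are ample. -/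
theorem exists_ampInv {γ : Gam T} (G : TwoP1.GamX (M := M) γ)
    (X : TwoP1 M.A M.D (25 * (q : ℤ)) 3 (25 * (q : ℤ)) (-3)) (hq : 0 < q) (hfix : γ.Fixes D₀)
    (hD : T.X.deg D₀ = 105 * T.t * q) (hc : X.B₂.IsCpt) (ht : X.B₂.IsT2) :
    letI := (G.inv3 X).act
    haveI := (G.inv3 X).commClass
    ∃ k > 0, X.B₂.AmpInv G3 k := by
  let _ := (G.inv3 X).act
  have _ := (G.inv3 X).commClass
  exact ⟨5 * Fintype.card G3, Nat.mul_pos (by norm_num) Fintype.card_pos,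
    PolAtlas.ampInv (GamX.freeAct G X) VX_le (separates_VX (N := 5) hq hD le_rfl)⟩

/-- There is an invariant Kähler metric. -/
theorem exists_kahler {γ : Gam T} (G : TwoP1.GamX (M := M) γ)
    (X : TwoP1 M.A M.D (25 * (q : ℤ)) 3 (25 * (q : ℤ)) (-3)) (hq : 0 < q) (hfix : γ.Fixes D₀)
    (hD : T.X.deg D₀ = 105 * T.t * q) (hc : X.B₂.IsCpt) (ht : X.B₂.IsT2) :
    ∃ H, X.B₂.IsKahler H ∧ (∀ y, H (G.e₁ X y) = H y) ∧ (∀ y, H (G.e₂ X y) = H y) ∧
      ∀ y, H (G.e₀ X y) = H y := by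
  let _ := (G.inv3 X).act
  have _ := (G.inv3 X).commClass
  obtain ⟨H, h1, h2⟩ := PolAtlas.exists_isKahler (GamX.freeAct G X) (N := 5) (by norm_num)
    VX_le (separates_VX (N := 5) hq hD le_rfl)
  exact ⟨H, h1, (G.inv3 X).inv_iff H |>.1 h2⟩

end

end Pool.Agent.YTDA


end

/- source: Pool.Agent.YTDA.P1Act -/

section

/-!
# Diagonal actions on the bundles over the projective line

For the standard atlas `B` (with index set `e`) of `P1Y D α β`:
`liftD`: lifting of a diagonal action `D₂` of `A` commuting with `D`;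
`rotD`: the rotation of the projective line.
-/

set_option autoImplicit false

namespace Pool.Agent.YTDA

open Complex Set Topology

noncomputable section

variable {n : ℕ} {Y : Type} [MulAction ℂˣ Y] {A : PolAtlas n Y} {D : A.DAct} {α β : ℤ}

/-- append an entry -/
def snocZ {n : ℕ} (k : Fin n → ℤ) (l : ℤ) : Fin (n + 1) → ℤ := Fin.snoc (α := fun _ => ℤ) k l

@[simp] theorem snocZ_castSucc {n : ℕ} (k : Fin n → ℤ) (l : ℤ) (j : Fin n) :
    snocZ k l j.castSucc = k j := by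
  simp [snocZ]

@[simp] theorem snocZ_last {n : ℕ} (k : Fin n → ℤ) (l : ℤ) :
    snocZ k l (Fin.last n) = l := by
  simp [snocZ]

theorem ini_dact {n : ℕ} (k : Fin n → ℤ) (l : ℤ) (c : ℂˣ) (z : E (n + 1)) :
    ini (dact (snocZ k l) c z) = dact k c (ini z) := by
  ext j
  simp [ini, dact]

theorem last_dact {n : ℕ} (k : Fin n → ℤ) (l : ℤ) (c : ℂˣ) (z : E (n + 1)) :
    dact (snocZ k l) c z (Fin.last n) = ((c ^ l : ℂˣ) : ℂ) * z (Fin.last n) := by
  simp [dact]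

theorem dact_zero {n : ℕ} (c : ℂˣ) (z : E n) : dact (fun _ => 0) c z = z := by
  ext j
  simp [dact]

theorem dact_mul_left {n : ℕ} (k : Fin n → ℤ) (b : ℤ) (c : ℂˣ) (z : E n) :
    dact (fun j => b * k j) c z = dact k (c ^ b) z := by
  ext j
  simp only [dact, zpow_mul]

/-! ## Lifting of an action -/

/-- the lift to the bundle of an action commuting with `D` -/
def P1Y.liftAct (D₂ : A.DAct) (hc : ∀ (c c' : ℂˣ) y, D₂.act c (D.act c' y) = D.act c' (D₂.act c y))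
    (c : ℂˣ) : P1Y D α β → P1Y D α β :=
  P1Y.map (D₂.act c) (fun c' y => D₂.act_smul c c' y) (fun c' y => hc c c' y)

theorem P1Y.liftAct_mk (D₂ : A.DAct)
    (hc : ∀ (c c' : ℂˣ) y, D₂.act c (D.act c' y) = D.act c' (D₂.act c y)) (c : ℂˣ) (y : Y)
    (x : V2) : P1Y.liftAct D₂ hc c (P1Y.mk y x : P1Y D α β) = P1Y.mk (D₂.act c y) x := rfl

/-- Lift of a diagonal action commuting with `D`. -/
def liftD {B : PolAtlas (n + 1) (P1Y D α β)} {e : A.ι × Bool ≃ B.ι} (h : IsP1e B e)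
    (D₂ : A.DAct) (hc : ∀ (c c' : ℂˣ) y, D₂.act c (D.act c' y) = D.act c' (D₂.act c y)) :
    B.DAct where
  act := P1Y.liftAct D₂ hc
  act_one p := by
    obtain ⟨y, x, rfl⟩ := P1Y.exists_mk p
    rw [P1Y.liftAct_mk, D₂.act_one]
  act_mul c c' p := by
    obtain ⟨y, x, rfl⟩ := P1Y.exists_mk p
    rw [P1Y.liftAct_mk, P1Y.liftAct_mk, P1Y.liftAct_mk, D₂.act_mul]
  act_smul c c' p := by
    obtain ⟨y, x, rfl⟩ := P1Y.exists_mk p
    rw [P1Y.smul_mk, P1Y.liftAct_mk, P1Y.liftAct_mk, P1Y.smul_mk, D₂.act_smul]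
  k i := snocZ (D₂.k (e.symm i).1) 0
  m i := D₂.m (e.symm i).1
  dom i z hz c := by
    obtain ⟨⟨a, b⟩, rfl⟩ := e.surjective i
    rw [h.U, mem_ofPred_eq] at hz ⊢
    rw [Equiv.symm_apply_apply, ini_dact]
    exact D₂.dom a _ hz c
  act_γ i z hz c := by
    obtain ⟨⟨a, b⟩, rfl⟩ := e.surjective i
    rw [h.U, mem_ofPred_eq] at hz
    have h1 : ini (dact (snocZ (D₂.k a) 0) c z) ∈ A.U a := by
      rw [ini_dact]
      exact D₂.dom a _ hz c
    rw [Equiv.symm_apply_apply, h.γ a b z hz, h.γ a b _ h1, P1Y.liftAct_mk, P1Y.smul_mk,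
      D₂.act_γ a _ hz c, ini_dact, last_dact, zpow_zero, Units.val_one, one_mul]

section lift

variable {B : PolAtlas (n + 1) (P1Y D α β)} {e : A.ι × Bool ≃ B.ι} (h : IsP1e B e)
    (D₂ : A.DAct) (hc : ∀ (c c' : ℂˣ) y, D₂.act c (D.act c' y) = D.act c' (D₂.act c y))

theorem liftD_act (c : ℂˣ) (y : Y) (x : V2) :
    (liftD h D₂ hc).act c (P1Y.mk y x) = P1Y.mk (D₂.act c y) x := rfl

theorem liftD_k (a : A.ι) (b : Bool) :
    (liftD h D₂ hc).k (e (a, b)) = snocZ (D₂.k a) 0 := by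
  show snocZ (D₂.k (e.symm (e (a, b))).1) 0 = _
  rw [Equiv.symm_apply_apply]

theorem liftD_m (a : A.ι) (b : Bool) : (liftD h D₂ hc).m (e (a, b)) = D₂.m a := by
  show D₂.m (e.symm (e (a, b))).1 = _
  rw [Equiv.symm_apply_apply]

end lift

theorem PolAtlas.DAct.act_comm (D : A.DAct) (c c' : ℂˣ) (y : Y) :
    D.act c (D.act c' y) = D.act c' (D.act c y) := by
  rw [← D.act_mul, ← D.act_mul, mul_comm]

/-- The lift of `D` itself. -/
def liftD' {B : PolAtlas (n + 1) (P1Y D α β)} {e : A.ι × Bool ≃ B.ι} (h : IsP1e B e) : B.DAct :=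
  liftD h D D.act_comm

theorem isLift_liftD' {B : PolAtlas (n + 1) (P1Y D α β)} {e : A.ι × Bool ≃ B.ι}
    (h : IsP1e B e) : IsLift e (liftD' h) := ⟨fun _ _ _ => rfl⟩

theorem liftD'_k {B : PolAtlas (n + 1) (P1Y D α β)} {e : A.ι × Bool ≃ B.ι}
    (h : IsP1e B e) (a : A.ι) (b : Bool) : (liftD' h).k (e (a, b)) = snocZ (D.k a) 0 :=
  liftD_k h D _ a b

theorem liftD'_m {B : PolAtlas (n + 1) (P1Y D α β)} {e : A.ι × Bool ≃ B.ι}
    (h : IsP1e B e) (a : A.ι) (b : Bool) : (liftD' h).m (e (a, b)) = D.m a :=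
  liftD_m h D _ a b

/-! ## The rotation of the projective line -/

/-- `diag(1, c) x` -/
def V2.rot (c : ℂˣ) (x : V2) : V2 := ⟨![x.1 0, (c : ℂ) * x.1 1], by
  intro h
  apply x.2
  have h0 := congrFun h 0
  have h1 := congrFun h 1
  simp at h0 h1
  ext i
  fin_cases i
  · exact h0
  · exact h1⟩

theorem V2.coe_rot (c : ℂˣ) (x : V2) : (V2.rot c x : Fin 2 → ℂ) = ![x.1 0, (c : ℂ) * x.1 1] := rfl

theorem V2.rot_one (x : V2) : V2.rot 1 x = x := by
  apply Subtype.ext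
  rw [V2.coe_rot]
  ext i
  fin_cases i <;> simp

theorem V2.rot_mul (c c' : ℂˣ) (x : V2) : V2.rot (c * c') x = V2.rot c (V2.rot c' x) := by
  apply Subtype.ext
  rw [V2.coe_rot, V2.coe_rot, V2.coe_rot]
  ext i
  fin_cases i <;> simp [mul_assoc]

theorem V2.rot_smul (c d : ℂˣ) (x : V2) : V2.rot c (d • x) = d • V2.rot c x := by
  apply Subtype.ext
  rw [V2.coe_rot, V2.coe_smul, V2.coe_smul, V2.coe_rot]
  ext i
  fin_cases i
  · simp
  · simp only [Fin.mk_one, Pi.smul_apply, smul_eq_mul, Matrix.cons_val_one,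
      Matrix.cons_val_fin_one]
    ring

theorem V2.rot_vec_false (c : ℂˣ) (z : ℂ) : V2.rot c (vec false z) = vec false ((c : ℂ) * z) := by
  apply Subtype.ext
  rw [V2.coe_rot, vec_false, vec_false]
  rfl

theorem V2.rot_vec_true (c : ℂˣ) (z : ℂ) :
    V2.rot c (vec true z) = c • vec true (((c ^ (-1 : ℤ) : ℂˣ) : ℂ) * z) := by
  apply Subtype.ext
  rw [V2.coe_rot, V2.coe_smul, vec_true, vec_true]
  ext i
  fin_cases i
  · simp
  · simp

/-- the rotation of the base `ℙ¹` by `diag(1, c)` -/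
def P1Y.rotAct (c : ℂˣ) : P1Y D α β → P1Y D α β :=
  Quotient.map (fun p => (p.1, V2.rot c p.2)) (by
    rintro ⟨y, x⟩ ⟨y', x'⟩ ⟨d, h1, h2⟩
    refine ⟨d, ?_, h2⟩
    simp only at h1 ⊢
    rw [h1, V2.rot_smul])

theorem P1Y.rotAct_mk (c : ℂˣ) (y : Y) (x : V2) :
    P1Y.rotAct c (P1Y.mk y x : P1Y D α β) = P1Y.mk y (V2.rot c x) := rfl

/-- the rotation is the action of a diagonal matrix -/
theorem P1Y.rotAct_eq_gl (c : ℂˣ) (g : GL (Fin 2) ℂ) (hg : g.1 = !![1, 0; 0, (c : ℂ)])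
    (p : P1Y D α β) : P1Y.rotAct c p = P1Y.gl g p := by
  obtain ⟨y, x, rfl⟩ := P1Y.exists_mk p
  rw [P1Y.rotAct_mk]
  show _ = P1Y.mk y _
  congr 1
  apply Subtype.ext
  rw [V2.coe_rot]
  simp only
  rw [hg]
  ext i
  fin_cases i
  · simp [Matrix.mulVec, dotProduct]
  · simp [Matrix.mulVec, dotProduct]

/-- The rotation of the base as a diagonal action. -/
def rotD {B : PolAtlas (n + 1) (P1Y D α β)} {e : A.ι × Bool ≃ B.ι} (h : IsP1e B e) :
    B.DAct where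
  act := P1Y.rotAct
  act_one p := by
    obtain ⟨y, x, rfl⟩ := P1Y.exists_mk p
    rw [P1Y.rotAct_mk, V2.rot_one]
  act_mul c c' p := by
    obtain ⟨y, x, rfl⟩ := P1Y.exists_mk p
    rw [P1Y.rotAct_mk, P1Y.rotAct_mk, P1Y.rotAct_mk, V2.rot_mul]
  act_smul c c' p := by
    obtain ⟨y, x, rfl⟩ := P1Y.exists_mk p
    rw [P1Y.smul_mk, P1Y.rotAct_mk, P1Y.rotAct_mk, P1Y.smul_mk]
  k i := if (e.symm i).2 then snocZ (fun j => β * D.k (e.symm i).1 j) (-1)
    else snocZ (fun _ => 0) 1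
  m i := if (e.symm i).2 then α + β * D.m (e.symm i).1 else 0
  dom i z hz c := by
    obtain ⟨⟨a, b⟩, rfl⟩ := e.surjective i
    rw [h.U, mem_ofPred_eq] at hz ⊢
    rw [Equiv.symm_apply_apply]
    cases b
    · simp only [Bool.false_eq_true, if_false]
      rw [ini_dact, dact_zero]
      exact hz
    · simp only [if_true]
      rw [ini_dact, dact_mul_left]
      exact D.dom a _ hz _
  act_γ i z hz c := by
    obtain ⟨⟨a, b⟩, rfl⟩ := e.surjective i
    rw [h.U, mem_ofPred_eq] at hz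
    rw [Equiv.symm_apply_apply, h.γ a b z hz, P1Y.rotAct_mk]
    cases b
    · simp only [Bool.false_eq_true, if_false]
      have h1 : ini (dact (snocZ (fun _ => 0) 1) c z) ∈ A.U a := by
        rw [ini_dact, dact_zero]
        exact hz
      rw [h.γ a false _ h1, V2.rot_vec_false, ini_dact, dact_zero, last_dact, zpow_zero, one_smul,
        zpow_one]
    · simp only [if_true]
      have h1 : ini (dact (snocZ (fun j => β * D.k a j) (-1)) c z) ∈ A.U a := by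
        rw [ini_dact, dact_mul_left]
        exact D.dom a _ hz _
      rw [h.γ a true _ h1, V2.rot_vec_true, P1Y.mk_smul, D.act_γ a _ hz, ini_dact, dact_mul_left,
        last_dact, smul_smul, P1Y.smul_mk, ← zpow_mul, ← zpow_add]

section rot

variable {B : PolAtlas (n + 1) (P1Y D α β)} {e : A.ι × Bool ≃ B.ι} (h : IsP1e B e)

theorem rotD_act (c : ℂˣ) (y : Y) (x : V2) :
    (rotD h).act c (P1Y.mk y x) = P1Y.mk y (V2.rot c x) := rfl

theorem rotD_k_false (a : A.ι) : (rotD h).k (e (a, false)) = snocZ (fun _ => 0) 1 := by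
  show (if (e.symm (e (a, false))).2 then _ else _) = _
  rw [Equiv.symm_apply_apply]
  rfl

theorem rotD_m_false (a : A.ι) : (rotD h).m (e (a, false)) = 0 := by
  show (if (e.symm (e (a, false))).2 then _ else _) = _
  rw [Equiv.symm_apply_apply]
  rfl

theorem rotD_k_true (a : A.ι) :
    (rotD h).k (e (a, true)) = snocZ (fun j => β * D.k a j) (-1) := by
  show (if (e.symm (e (a, true))).2 then _ else _) = _
  rw [Equiv.symm_apply_apply]
  rfl

theorem rotD_m_true (a : A.ι) : (rotD h).m (e (a, true)) = α + β * D.m a := by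
  show (if (e.symm (e (a, true))).2 then _ else _) = _
  rw [Equiv.symm_apply_apply]
  rfl

/-- the rotation commutes with every lifted action -/
theorem rotD_liftD_comm (D₂ : A.DAct)
    (hc : ∀ (c c' : ℂˣ) y, D₂.act c (D.act c' y) = D.act c' (D₂.act c y)) (c c' : ℂˣ)
    (p : P1Y D α β) : (rotD h).act c ((liftD h D₂ hc).act c' p) =
      (liftD h D₂ hc).act c' ((rotD h).act c p) := by
  obtain ⟨y, x, rfl⟩ := P1Y.exists_mk p
  rfl

/-- lifted actions of commuting actions commute -/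
theorem liftD_liftD_comm (D₂ D₃ : A.DAct)
    (hc : ∀ (c c' : ℂˣ) y, D₂.act c (D.act c' y) = D.act c' (D₂.act c y))
    (hc' : ∀ (c c' : ℂˣ) y, D₃.act c (D.act c' y) = D.act c' (D₃.act c y))
    (h23 : ∀ (c c' : ℂˣ) y, D₂.act c (D₃.act c' y) = D₃.act c' (D₂.act c y)) (c c' : ℂˣ)
    (p : P1Y D α β) : (liftD h D₂ hc).act c ((liftD h D₃ hc').act c' p) =
      (liftD h D₃ hc').act c' ((liftD h D₂ hc).act c p) := by
  obtain ⟨y, x, rfl⟩ := P1Y.exists_mk p
  rw [liftD_act, liftD_act, liftD_act, liftD_act, h23]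

end rot

end

end Pool.Agent.YTDA


end

/- source: Pool.Agent.YTDA.CscX -/

section

/-!
There is no invariant Kähler metric of constant scalar curvature on the fourfold `X`:
reduction to the surface.
-/

set_option autoImplicit false

namespace Pool.Agent.YTDA

open Complex Set Topology ContDiff Metric
open Pool.Agent.YTD

noncomputable section

section Main

variable {K : Type} [Field K] [Algebra ℂ K] {T : Datum K} {q : ℕ} {D₀ : T.X.Pt →₀ ℤ}
  {An : AnCurve T.X.toCurveOrd} {M : SigModel T q D₀ An}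

theorem SigModel.Aut.r_eq {σ : T.X.Pt → T.X.Pt} {f : M.Y → M.Y} (h : M.Aut σ (fun i => i) f)
    (hσ : ∀ P, σ (σ P) = P) (P : T.X.Pt) : M.r (σ P) = M.r P := by
  have key : ∀ Q, M.r Q ≤ M.r (σ Q) := by
    intro Q
    by_contra hcon
    push Not at hcon
    have h0 : (0 : ℝ) < M.r (σ Q) := M.r_pos _
    have h1 : (![((M.r (σ Q) : ℝ) : ℂ), 0] : E 2) ∈ M.A.U (M.e (Q, 0)) := by
      rw [M.U_bot]
      show ‖((M.r (σ Q) : ℝ) : ℂ)‖ < M.r Q
      rwa [Complex.norm_real, Real.norm_of_nonneg h0.le]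
    have h2 := h.mem Q 0 _ h1
    rw [M.U_bot] at h2
    have h3 : ‖((M.r (σ Q) : ℝ) : ℂ)‖ < M.r (σ Q) := h2
    rw [Complex.norm_real, Real.norm_of_nonneg h0.le] at h3
    exact lt_irrefl _ h3
  refine le_antisymm ?_ (key P)
  have := key (σ P)
  rwa [hσ] at this

namespace TwoP1

variable (X : TwoP1 M.A M.D (25 * (q : ℤ)) 3 (25 * (q : ℤ)) (-3))

/-- Reduction to the surface: a metric of constant scalar curvature on `X` which is invariant
under `Γ` gives a metric on `Σ` satisfying the reduced equation. -/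
theorem exists_pde {γ : Gam T} (G : TwoP1.GamX (M := M) γ) (hc : X.B₂.IsCpt) (ht : X.B₂.IsT2)
    (H : P1Y X.D₁ (25 * (q : ℤ)) (-3) → ℝ) (hK : X.B₂.IsKahler H)
    (h₁ : ∀ y, H (G.e₁ X y) = H y) (h₂ : ∀ y, H (G.e₂ X y) = H y)
    (s : ℂ) (hS : X.B₂.IsCsc H s) : ∃ h : M.Y → ℝ, M.A.IsKahler h ∧ M.A.IsPde M.D q s h := by
  obtain ⟨P⟩ := PolAtlas.exists_part hc ht
  obtain ⟨Hg, hKg, hSg, hHg⟩ := X.exists_had hK
  have hconst : ∀ f : T.X.Pt → ℂ,
      (∀ P, DifferentiableOn ℂ (fun s => f (An.c P s)) (ball 0 (M.r P))) → ∀ P Q, f P = f Q :=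
    fun f hf P Q => AnCurve.const_of_hol (X := T.X) An M.r M.r_pos M.r_le f hf P Q
  -- the actions
  have comm : ∀ (c c' : ℂˣ) y, M.D.act c (M.D.act c' y) = M.D.act c' (M.D.act c y) :=
    fun c c' y => M.D.act_comm c c' y
  let L := liftD X.h₁ M.D comm
  have hL : ∀ (c c' : ℂˣ) p, L.act c (X.D₁.act c' p) = X.D₁.act c' (L.act c p) := by
    intro c c' p
    obtain ⟨y, x, rfl⟩ := P1Y.exists_mk p
    rw [X.l₁.act, liftD_act, liftD_act, X.l₁.act, comm]
  let R := rotD X.h₁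
  have hR : ∀ (c c' : ℂˣ) p, R.act c (X.D₁.act c' p) = X.D₁.act c' (R.act c p) := by
    intro c c' p
    obtain ⟨y, x, rfl⟩ := P1Y.exists_mk p
    rw [X.l₁.act, rotD_act, rotD_act, X.l₁.act]
  let Dw := liftD X.h₂ L hL
  let Rx := liftD X.h₂ R hR
  let Ry := rotD X.h₂
  have hrot : ∀ (c : ℂˣ) (x : V2), V2.rot c x = diagV c x := fun _ _ => rfl
  obtain ⟨i1, i2⟩ := X.inv_main hconst Dw Rx Ry
    (fun P => by
      rw [bt, TwoP1.i, liftD_k, liftD_k, (M.k_bot P).1]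
      funext j
      fin_cases j <;> rfl)
    (fun c y x x' => by rw [liftD_act, liftD_act])
    (fun P => by
      rw [bt, TwoP1.i, liftD_k, rotD_k_false]
      funext j
      fin_cases j <;> rfl)
    (fun c y x x' => by rw [liftD_act, rotD_act, hrot])
    (fun P => by
      rw [bt, TwoP1.i, rotD_k_false]
      funext j
      fin_cases j <;> rfl)
    (fun c y x x' => by rw [rotD_act, hrot])
    hK hKg hHg
    (fun R => PolAtlas.circleThm P hc ht hK hS R)
    (fun R => PolAtlas.circleThm P hc ht hKg (hSg s hS) R)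
    (X.isSymm_of (G.aut₁.r_eq γ.σσ₁) (fun P z hz => G.aut₁.γ P 0 z hz)
      (fun y x x' => by rw [← G.e₁_mk X, h₁]))
    (X.isSymm_had hHg (G.aut₂.r_eq γ.σσ₂) (fun P z hz => G.aut₂.γ P 0 z hz)
      (fun y x x' => by rw [← G.e₂_mk X, h₂]))
  have i2' : ∀ y (x x₁ x' x₁' : V2), ‖x.1 0‖ ^ 2 + ‖x.1 1‖ ^ 2 = ‖x₁.1 0‖ ^ 2 + ‖x₁.1 1‖ ^ 2 →
      ‖x'.1 0‖ ^ 2 + ‖x'.1 1‖ ^ 2 = ‖x₁'.1 0‖ ^ 2 + ‖x₁'.1 1‖ ^ 2 →
      H (P1Y.mk (P1Y.mk y x) x') = H (P1Y.mk (P1Y.mk y x₁) x₁') :=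
    fun y x x₁ x' x₁' e e' => i2 y x x₁ x' x₁' e e'
  exact ⟨hred H, isKahler_hred X.l₁.act hK i1 i2' (fun a => X.i a false false)
      (fun a z => X.mem_U) (fun a z hz => X.γ_eq hz),
    isPde_hred X.l₁.act hK i1 i2' (fun a => X.i a false false)
      (fun a z => X.mem_U) (fun a z hz => X.γ_eq hz) hS⟩

end TwoP1

end Main

end

end Pool.Agent.YTDA


end

/- source: Pool.Agent.YTDA.SecOf -/

section

/-!
# The section given by a polynomial over the function field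
-/

set_option autoImplicit false

namespace Pool.Agent.YTDA

open Complex Set Topology Filter Metric MvPolynomial
open Pool.Agent.YTD

noncomputable section

variable {K : Type} [Field K] [Algebra ℂ K] {T : Datum K} {q : ℕ} {D₀ : T.X.Pt →₀ ℤ}
  {An : AnCurve T.X.toCurveOrd} {Sg : SigModel T q D₀ An}
  (X : TwoP1 Sg.A Sg.D (25 * (q : ℤ)) 3 (25 * (q : ℤ)) (-3)) {N : ℕ}

theorem isSec_add {n : ℕ} {Y : Type} [MulAction ℂˣ Y] {A : PolAtlas n Y} {F F' : Y → ℂ}
    (h : A.IsSec N F) (h' : A.IsSec N F') : A.IsSec N (F + F') := by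
  refine ⟨fun c y => ?_, fun a => (h.hol a).add (h'.hol a)⟩
  rw [Pi.add_apply, Pi.add_apply, h.hom, h'.hom]
  ring

theorem isSec_zero {n : ℕ} {Y : Type} [MulAction ℂˣ Y] {A : PolAtlas n Y} :
    A.IsSec N (0 : Y → ℂ) :=
  ⟨fun c y => by simp, fun a => differentiableOn_const 0⟩

/-- the section of a monomial -/
theorem ofMonomial {j : ℤ} (hj : |j| ≤ 5 * q * N) {e : Fin 4 →₀ ℕ}
    (h1 : (e 0 : ℤ) + e 1 = 25 * q * N + 3 * j) (h2 : (e 2 : ℤ) + e 3 = 25 * q * N - 3 * j)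
    {c : K} (hc : c ∈ T.V q D₀ N j) : ∃ F, X.B₂.IsSec N F ∧ Rep X N F (monomial e c) := by
  have w0 : Wt Sg.D N j (Sg.secF N j c) := ⟨Sg.secF_isSec hj hc, Sg.secF_act hj hc⟩
  have hab : (e 0 : ℤ) + e 1 = 25 * (q : ℤ) * N + 3 * j := h1
  have hab' : (e 2 : ℤ) + e 3 = 25 * (q : ℤ) * N + (-3) * j := by rw [h2]; ring
  have w1 : Wt X.D₁ N j (liftP Sg.D (25 * (q : ℤ)) 3 (e 0) (e 1) (Sg.secF N j c)) :=
    liftP_wt X.h₁ X.l₁ w0 hab
  refine ⟨liftP X.D₁ (25 * (q : ℤ)) (-3) (e 2) (e 3)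
    (liftP Sg.D (25 * (q : ℤ)) 3 (e 0) (e 1) (Sg.secF N j c)), liftP_isSec X.h₂ w1 hab', ?_⟩
  intro P s hs
  filter_upwards [spec_monomial (ball_mono hs) e c, eventually_ball hs,
    AnCurve.rg_eq (ball_mono hs) (z := c) (e := N * D₀ P)] with σ t1 t2 t3 u x x'
  show liftP X.D₁ (25 * (q : ℤ)) (-3) (e 2) (e 3)
    (liftP Sg.D (25 * (q : ℤ)) 3 (e 0) (e 1) (Sg.secF N j c))
    (P1Y.mk (P1Y.mk (Sg.o P σ (u ^ 6)) x) x') = _
  rw [liftP_mk w1 hab', liftP_mk w0 hab, Sg.secF_o hj hc t2.1 (Or.inl t2.2), t3, t1,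
    AnCurve.pf, eval_monomial, Finsupp.prod_fintype _ _ (fun i => pow_zero _), Fin.prod_univ_four]
  show x'.1 0 ^ e 2 * x'.1 1 ^ e 3 * (x.1 0 ^ e 0 * x.1 1 ^ e 1 *
    (An.fn P c σ * σ ^ ((N : ℤ) * D₀ P) * (((u ^ 6) ^ j : ℂˣ) : ℂ))) =
    σ ^ ((N : ℤ) * D₀ P) * (An.fn P c σ * (((u : ℂ) * x.1 0) ^ e 0 * ((u : ℂ) * x.1 1) ^ e 1 *
      (((u⁻¹ : ℂˣ) : ℂ) * x'.1 0) ^ e 2 * (((u⁻¹ : ℂˣ) : ℂ) * x'.1 1) ^ e 3))
  have key : ((((u ^ 6) ^ j : ℂˣ)) : ℂ) =
      (u : ℂ) ^ e 0 * (u : ℂ) ^ e 1 * (((u⁻¹ : ℂˣ) : ℂ) ^ e 2 * ((u⁻¹ : ℂˣ) : ℂ) ^ e 3) := by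
    have h3 : (u ^ 6) ^ j = u ^ e 0 * u ^ e 1 * ((u⁻¹) ^ e 2 * (u⁻¹) ^ e 3) := by
      rw [← pow_add, ← pow_add, inv_pow, ← zpow_natCast u, ← zpow_natCast u (e 0 + e 1),
        ← zpow_natCast u (e 2 + e 3), ← zpow_neg, ← zpow_mul, ← zpow_add]
      congr 1
      push_cast
      linarith
    have h4 := congrArg (fun t : ℂˣ => (t : ℂ)) h3
    simp only [Units.val_mul, Units.val_pow_eq_pow_val] at h4
    exact h4
  rw [key, mul_pow, mul_pow, mul_pow, mul_pow]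
  ring

/-- **Easy direction.** Every polynomial in `sec N` defines a section. -/
theorem exists_ofPoly {f : MvPolynomial (Fin 4) K} (hf : f ∈ T.sec q D₀ N) :
    ∃ F, X.B₂.IsSec N F ∧ Rep X N F f := by
  have key : ∀ S : Finset (Fin 4 →₀ ℕ), (∀ e ∈ S, f.coeff e ≠ 0) →
      ∃ F, X.B₂.IsSec N F ∧ Rep X N F (∑ e ∈ S, monomial e (f.coeff e)) := by
    classical
    intro S
    induction S using Finset.induction_on with
    | empty =>
      intro _
      refine ⟨0, isSec_zero, ?_⟩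
      rw [Finset.sum_empty]
      exact Rep.zero
    | insert e S he ih =>
      intro hS
      obtain ⟨F, hF, hF'⟩ := ih fun e' he' => hS e' (Finset.mem_insert_of_mem he')
      obtain ⟨j, hj, h1, h2, h3⟩ := hf e (hS e (Finset.mem_insert_self _ _))
      obtain ⟨G, hG, hG'⟩ := ofMonomial X hj h1 h2 h3
      refine ⟨G + F, isSec_add hG hF, ?_⟩
      rw [Finset.sum_insert he]
      exact hG'.add hF'
  have h := key f.support fun e he => mem_support_iff.1 he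
  rwa [support_sum_monomial_coeff] at h

end

end Pool.Agent.YTDA


end

/- source: Pool.Agent.YTDA.P1B -/

section

/-!
# The bundle over the projective line: atlas, compactness, Hausdorff property, actions

`PolAtlas.p1 A D α β` is the atlas of `P1Y D α β` with index set `A.ι × Bool` and the charts
`z ↦ [γ_a (z_0, ..., z_{n-1}), vec b z_n]`.
-/

namespace Pool.Agent.YTDA

open Complex Set Topology Filter

noncomputable section

variable {n : ℕ} {Y : Type} [MulAction ℂˣ Y]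

/-- the first `n` coordinates -/
def ini1 {n : ℕ} (z : E (n + 1)) : E n := fun j => z (Fin.castSucc j)

theorem ini1_apply {n : ℕ} (z : E (n + 1)) (j : Fin n) : ini1 z j = z (Fin.castSucc j) := rfl

/-- append a coordinate -/
def snoc1 {n : ℕ} (z : E n) (u : ℂ) : E (n + 1) := Fin.snoc z u

@[simp] theorem ini1_snoc1 (z : E n) (u : ℂ) : ini1 (snoc1 z u) = z := by
  funext j
  simp [ini1, snoc1]

@[simp] theorem snoc1_last (z : E n) (u : ℂ) : snoc1 z u (Fin.last n) = u := by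
  simp [snoc1]

theorem snoc1_ini1 (z : E (n + 1)) : snoc1 (ini1 z) (z (Fin.last n)) = z := by
  funext j
  refine Fin.lastCases ?_ (fun j => ?_) j
  · simp [snoc1]
  · simp [snoc1, ini1]

theorem ext1 {z z' : E (n + 1)} (h : ini1 z = ini1 z') (h' : z (Fin.last n) = z' (Fin.last n)) :
    z = z' := by
  rw [← snoc1_ini1 z, ← snoc1_ini1 z', h, h']

theorem analyticAt_ini1 (z : E (n + 1)) : AnalyticAt ℂ (ini1 : E (n + 1) → E n) z := by
  rw [analyticAt_pi_iff]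
  intro j
  exact (ContinuousLinearMap.proj (R := ℂ) (φ := fun _ : Fin (n + 1) => ℂ)
    (Fin.castSucc j)).analyticAt z

theorem analyticAt_last (z : E (n + 1)) :
    AnalyticAt ℂ (fun ζ : E (n + 1) => ζ (Fin.last n)) z :=
  (ContinuousLinearMap.proj (R := ℂ) (φ := fun _ : Fin (n + 1) => ℂ) (Fin.last n)).analyticAt z

theorem continuous_ini1 : Continuous (ini1 : E (n + 1) → E n) :=
  continuous_pi fun j => continuous_apply (Fin.castSucc j)

theorem continuous_snoc1 : Continuous (fun p : E n × ℂ => snoc1 p.1 p.2) := by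
  refine continuous_pi fun j => ?_
  refine Fin.lastCases ?_ (fun j => ?_) j
  · simpa [snoc1] using continuous_snd
  · have h : Continuous fun p : E n × ℂ => p.1 j := (continuous_apply j).comp continuous_fst
    simpa [snoc1] using h

theorem analyticAt_snoc1 {m : ℕ} {f : E m → E n} {u : E m → ℂ} {z : E m}
    (hf : AnalyticAt ℂ f z) (hu : AnalyticAt ℂ u z) :
    AnalyticAt ℂ (fun ζ => snoc1 (f ζ) (u ζ)) z := by
  rw [analyticAt_pi_iff]
  intro j
  refine Fin.lastCases ?_ (fun j => ?_) j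
  · simpa [snoc1] using hu
  · simpa [snoc1] using (analyticAt_pi_iff.1 hf) j

namespace PolAtlas

variable (A : PolAtlas n Y)

theorem analyticAt_tau (a b : A.ι) {z : E n} (hz : z ∈ A.O a b) : AnalyticAt ℂ (A.τ a b) z :=
  Holo.analyticOnNhd (A.isOpen_O a b) (A.hol_τ a b) z hz

theorem analyticAt_h (a b : A.ι) {z : E n} (hz : z ∈ A.O a b) :
    AnalyticAt ℂ (fun ζ => (A.h a b ζ : ℂ)) z :=
  Holo.analyticOnNhd (A.isOpen_O a b) (A.hol_h a b) z hz

theorem loc1 (a b : A.ι) {z z' : E n} (hz : z ∈ A.U a) (hz' : z' ∈ A.U b) (c : ℂˣ)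
    (h : A.γ b z' = c • A.γ a z) : Loc (A.γ a) z (A.γ b) z' := by
  have hO : z ∈ A.O a b := ⟨hz, z', hz', c, h⟩
  refine ⟨A.τ a b, A.h a b, A.analyticAt_tau a b hO, A.analyticAt_h a b hO, ?_, ?_⟩
  · obtain ⟨h1, h2⟩ := A.trans a b z hz hO.2
    refine (A.inj b z' hz' _ h1 (A.h a b z * c⁻¹) ?_).1
    rw [h2, h, smul_smul, inv_mul_cancel_right]
  · filter_upwards [(A.isOpen_O a b).mem_nhds hO] with ζ hζ
    exact (A.trans a b ζ hζ.1 hζ.2).2

end PolAtlas

/-! ### Vectors -/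

theorem vec_swap1 {u : ℂ} (hu : u ≠ 0) (b : Bool) :
    vec b u = (Units.mk0 u hu) • vec (!b) u⁻¹ := by
  apply Subtype.ext
  rw [V2.coe_smul]
  cases b
  · show (vec false u : Fin 2 → ℂ) = u • (vec true u⁻¹ : Fin 2 → ℂ)
    rw [vec_false, vec_true]
    ext i; fin_cases i <;> simp [hu]
  · show (vec true u : Fin 2 → ℂ) = u • (vec false u⁻¹ : Fin 2 → ℂ)
    rw [vec_false, vec_true]
    ext i; fin_cases i <;> simp [hu]

theorem vec_inj1 {b : Bool} {c : ℂˣ} {x x' : ℂ} (h : vec b x = c • vec b x') :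
    c = 1 ∧ x = x' := by
  have h1 := congrArg (fun v : V2 => (v : Fin 2 → ℂ)) h
  simp only [V2.coe_smul] at h1
  have h2 := congrFun h1 0
  have h3 := congrFun h1 1
  cases b
  · simp [vec_false] at h2 h3
    have hc : c = 1 := Units.ext h2.symm
    rw [hc] at h3
    exact ⟨hc, by simpa using h3⟩
  · simp [vec_true] at h2 h3
    have hc : c = 1 := Units.ext h3.symm
    rw [hc] at h2
    exact ⟨hc, by simpa using h2⟩

theorem vec_not1 {b : Bool} {c : ℂˣ} {x x' : ℂ} (h : vec (!b) x = c • vec b x') :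
    x' ≠ 0 ∧ x = x'⁻¹ := by
  have h1 := congrArg (fun v : V2 => (v : Fin 2 → ℂ)) h
  simp only [V2.coe_smul] at h1
  have h2 := congrFun h1 0
  have h3 := congrFun h1 1
  cases b
  · simp [vec_false, vec_true] at h2 h3
    have hx : x' ≠ 0 := by
      rintro rfl
      simp at h3
    refine ⟨hx, ?_⟩
    rw [h2]
    exact eq_inv_of_mul_eq_one_left h3.symm
  · simp [vec_false, vec_true] at h2 h3
    have hx : x' ≠ 0 := by
      rintro rfl
      simp at h2
    refine ⟨hx, ?_⟩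
    rw [h3]
    exact eq_inv_of_mul_eq_one_left h2.symm

/-- Every vector is a multiple of a standard vector with small parameter. -/
theorem exists_vec1 (x : V2) : ∃ b, ∃ c : ℂˣ, ∃ u : ℂ, ‖u‖ ≤ 1 ∧ x = c • vec b u := by
  by_cases h : ‖x.1 1‖ ≤ ‖x.1 0‖
  · have h0 : x.1 0 ≠ 0 := by
      intro h0
      rw [h0, norm_zero, norm_le_zero_iff] at h
      apply x.2
      funext i
      fin_cases i
      · exact h0
      · exact h
    refine ⟨false, Units.mk0 _ h0, x.1 1 / x.1 0, ?_, ?_⟩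
    · rw [norm_div]
      exact div_le_one_of_le₀ h (norm_nonneg _)
    · apply Subtype.ext
      rw [V2.coe_smul, vec_false]
      ext i
      fin_cases i
      · simp
      · simp [mul_div_cancel₀ _ h0]
  · have h1 : x.1 1 ≠ 0 := by
      intro h1
      rw [h1, norm_zero] at h
      exact h (norm_nonneg _)
    refine ⟨true, Units.mk0 _ h1, x.1 0 / x.1 1, ?_, ?_⟩
    · rw [norm_div]
      exact div_le_one_of_le₀ (not_le.1 h).le (norm_nonneg _)
    · apply Subtype.ext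
      rw [V2.coe_smul, vec_true]
      ext i
      fin_cases i
      · simp [mul_div_cancel₀ _ h1]
      · simp

variable {A : PolAtlas n Y} {D : A.DAct} {α β : ℤ}

/-- the frames of the bundle -/
def p1γ (A : PolAtlas n Y) (D : A.DAct) (α β : ℤ) (i : A.ι × Bool) (z : E (n + 1)) :
    P1Y D α β := P1Y.mk (A.γ i.1 (ini1 z)) (vec i.2 (z (Fin.last n)))

theorem p1γ_eq {i j : A.ι × Bool} {z z' : E (n + 1)} {c : ℂˣ}
    (h : p1γ A D α β j z' = c • p1γ A D α β i z) :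
    ∃ d : ℂˣ, vec j.2 (z' (Fin.last n)) = d • vec i.2 (z (Fin.last n)) ∧
      c • A.γ i.1 (ini1 z) = d ^ α • D.act (d ^ β) (A.γ j.1 (ini1 z')) := by
  unfold p1γ at h
  rw [P1Y.smul_mk] at h
  exact P1Y.mk_eq.1 h

theorem p1γ_same {a a' : A.ι} {b : Bool} {z z' : E (n + 1)} {c : ℂˣ}
    (h : p1γ A D α β (a', b) z' = c • p1γ A D α β (a, b) z) :
    z' (Fin.last n) = z (Fin.last n) ∧ A.γ a' (ini1 z') = c • A.γ a (ini1 z) := by
  obtain ⟨d, h1, h2⟩ := p1γ_eq h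
  obtain ⟨h3, h4⟩ := vec_inj1 h1
  subst h3
  refine ⟨h4, ?_⟩
  simpa [D.act_one] using h2.symm

theorem p1γ_not {a a' : A.ι} {b : Bool} {z z' : E (n + 1)} {c : ℂˣ}
    (h : p1γ A D α β (a', !b) z' = c • p1γ A D α β (a, b) z) :
    z (Fin.last n) ≠ 0 ∧ z' (Fin.last n) = (z (Fin.last n))⁻¹ := by
  obtain ⟨d, h1, h2⟩ := p1γ_eq h
  exact vec_not1 h1

/-- the coordinates of a point in the other chart of the projective line -/
def swp (D : A.DAct) (β : ℤ) (a : A.ι) (u : ℂˣ) (z : E n) : E (n + 1) :=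
  snoc1 (dact (D.k a) (u ^ β) z) ((u : ℂ)⁻¹)

theorem p1γ_swap (a : A.ι) (b : Bool) {z : E n} (hz : z ∈ A.U a) (u : ℂˣ) :
    p1γ A D α β (a, !b) (swp D β a u z) =
      (u ^ (-(α + β * D.m a))) • p1γ A D α β (a, b) (snoc1 z u) := by
  unfold p1γ swp
  simp only [ini1_snoc1, snoc1_last]
  rw [vec_swap1 u.ne_zero b, Units.mk0_val, P1Y.mk_smul, D.act_γ a z hz, smul_smul, P1Y.smul_mk,
    smul_smul, ← zpow_mul, ← zpow_add, ← zpow_add]
  rw [show -(α + β * D.m a) + (α + β * D.m a) = 0 by ring, zpow_zero, one_smul]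

theorem analyticAt_zpow1 {m : ℕ} {g : E m → ℂˣ} {z : E m}
    (hg : AnalyticAt ℂ (fun ζ => (g ζ : ℂ)) z) (k : ℤ) :
    AnalyticAt ℂ (fun ζ => (((g ζ) ^ k : ℂˣ) : ℂ)) z := by
  simpa only [Units.val_zpow_eq_zpow_val] using hg.fun_zpow (g z).ne_zero (n := k)

theorem analyticAt_dact1 {m : ℕ} {k : Fin n → ℤ} {g : E m → ℂˣ} {t : E m → E n} {z : E m}
    (hg : AnalyticAt ℂ (fun ζ => (g ζ : ℂ)) z) (ht : AnalyticAt ℂ t z) :
    AnalyticAt ℂ (fun ζ => dact k (g ζ) (t ζ)) z := by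
  rw [analyticAt_pi_iff]
  intro j
  unfold dact
  exact (analyticAt_zpow1 hg (k j)).fun_mul ((analyticAt_pi_iff.1 ht) j)

theorem loc_swap (a : A.ι) (b : Bool) {z : E n} (hz : z ∈ A.U a) (u : ℂˣ) :
    Loc (p1γ A D α β (a, b)) (snoc1 z u) (p1γ A D α β (a, !b)) (swp D β a u z) := by
  classical
  let w : E (n + 1) → ℂˣ := fun ζ => if h : ζ (Fin.last n) = 0 then 1 else Units.mk0 _ h
  have hne : ∀ᶠ ζ : E (n + 1) in 𝓝 (snoc1 z u), ζ (Fin.last n) ≠ 0 := by
    apply (analyticAt_last (snoc1 z u)).continuousAt.eventually_ne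
    simp
  have hw : AnalyticAt ℂ (fun ζ => (w ζ : ℂ)) (snoc1 z u) := by
    refine (analyticAt_last _).congr ?_
    filter_upwards [hne] with ζ hζ
    simp only [w, dif_neg hζ, Units.val_mk0]
  have hwz : w (snoc1 z u) = u := by
    simp only [w, snoc1_last, dif_neg u.ne_zero]
    exact Units.ext (by simp)
  refine ⟨fun ζ => swp D β a (w ζ) (ini1 ζ), fun ζ => (w ζ) ^ (-(α + β * D.m a)), ?_,
    analyticAt_zpow1 hw _, ?_, ?_⟩
  · unfold swp
    refine analyticAt_snoc1 (analyticAt_dact1 (analyticAt_zpow1 hw β) (analyticAt_ini1 _)) ?_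
    exact hw.fun_inv (w _).ne_zero
  · simp only [hwz, ini1_snoc1]
  · have hU : ∀ᶠ ζ : E (n + 1) in 𝓝 (snoc1 z u), ini1 ζ ∈ A.U a := by
      apply continuous_ini1.continuousAt.eventually
      rw [ini1_snoc1]
      exact (A.isOpen_U a).mem_nhds hz
    filter_upwards [hne, hU] with ζ h1 h2
    rw [p1γ_swap a b h2]
    congr 2
    apply ext1
    · rw [ini1_snoc1]
    · rw [snoc1_last]
      simp only [w, dif_neg h1, Units.val_mk0]

theorem loc_same (b : Bool) {a a' : A.ι} {z z' : E n} (u : ℂ)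
    (h : Loc (A.γ a) z (A.γ a') z') :
    Loc (p1γ A D α β (a, b)) (snoc1 z u) (p1γ A D α β (a', b)) (snoc1 z' u) := by
  obtain ⟨f, g, hf, hg, hz, he⟩ := h
  have h1 : AnalyticAt ℂ (ini1 : E (n + 1) → E n) (snoc1 z u) := analyticAt_ini1 _
  refine ⟨fun ζ => snoc1 (f (ini1 ζ)) (ζ (Fin.last n)), fun ζ => g (ini1 ζ), ?_, ?_, ?_, ?_⟩
  · refine analyticAt_snoc1 ?_ (analyticAt_last _)
    refine AnalyticAt.comp ?_ h1
    rwa [ini1_snoc1]
  · refine AnalyticAt.comp (g := fun ζ => ((g ζ : ℂˣ) : ℂ)) ?_ h1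
    rwa [ini1_snoc1]
  · simp only [ini1_snoc1, snoc1_last, hz]
  · have h2 : ∀ᶠ ζ : E (n + 1) in 𝓝 (snoc1 z u), A.γ a' (f (ini1 ζ)) = g (ini1 ζ) •
        A.γ a (ini1 ζ) := by
      have h3 : ∀ᶠ y in 𝓝 (ini1 (snoc1 z u)), A.γ a' (f y) = g y • A.γ a y := by
        rwa [ini1_snoc1]
      exact h1.continuousAt.eventually h3
    filter_upwards [h2] with ζ h3
    unfold p1γ
    simp only [ini1_snoc1, snoc1_last]
    rw [h3, P1Y.smul_mk]

/-- the atlas of the bundle over the projective line -/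
def p1Pre (A : PolAtlas n Y) (D : A.DAct) (α β : ℤ) : PreAtlas (n + 1) (P1Y D α β) where
  ι := A.ι × Bool
  U i := {z | ini1 z ∈ A.U i.1}
  γ := p1γ A D α β
  isOpen_U i := (A.isOpen_U i.1).preimage continuous_ini1
  inj := by
    rintro ⟨a, b⟩ z hz z' hz' c h
    obtain ⟨h1, h2⟩ := p1γ_same h
    obtain ⟨h3, h4⟩ := A.inj a _ hz _ hz' c h2
    exact ⟨ext1 h3 h1, h4⟩
  cover := by
    intro p
    obtain ⟨y, x, rfl⟩ := P1Y.exists_mk p
    obtain ⟨b, c, u, _, rfl⟩ := exists_vec1 x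
    rw [P1Y.mk_smul]
    obtain ⟨a, z, hz, d, hd⟩ := A.cover (c ^ α • D.act (c ^ β) y)
    refine ⟨(a, b), snoc1 z u, by simpa using hz, d, ?_⟩
    rw [hd]
    unfold p1γ
    simp only [ini1_snoc1, snoc1_last]
    rw [P1Y.smul_mk]
  loc := by
    rintro ⟨a, b⟩ ⟨a', b'⟩ z hz z' hz' c h
    simp only [mem_ofPred_eq] at hz hz'
    by_cases hb : b' = b
    · subst hb
      obtain ⟨h1, h2⟩ := p1γ_same h
      have := loc_same (D := D) (α := α) (β := β) b' (z (Fin.last n)) (A.loc1 a a' hz hz' c h2)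
      rw [snoc1_ini1, ← h1, snoc1_ini1] at this
      exact this
    · have hb' : b' = !b := by
        cases b <;> cases b' <;> simp_all
      subst hb'
      obtain ⟨h1, h2⟩ := p1γ_not h
      have hl := loc_swap (D := D) (α := α) (β := β) a b hz (Units.mk0 _ h1)
      rw [Units.val_mk0, snoc1_ini1] at hl
      have he := p1γ_swap (D := D) (α := α) (β := β) a b hz (Units.mk0 _ h1)
      rw [Units.val_mk0, snoc1_ini1] at he
      have hs : p1γ A D α β (a', !b) z' = (c * ((Units.mk0 _ h1) ^ (-(α + β * D.m a)))⁻¹) •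
          p1γ A D α β (a, !b) (swp D β a (Units.mk0 _ h1) (ini1 z)) := by
        rw [h, he, smul_smul, inv_mul_cancel_right]
      obtain ⟨h3, h4⟩ := p1γ_same hs
      have hU : ini1 (swp D β a (Units.mk0 _ h1) (ini1 z)) ∈ A.U a := by
        unfold swp
        rw [ini1_snoc1]
        exact D.dom a _ hz _
      have := loc_same (D := D) (α := α) (β := β) (!b) (z' (Fin.last n))
        (A.loc1 a a' hU hz' _ h4)
      rw [snoc1_ini1, h3, snoc1_ini1] at this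
      exact hl.trans this

/-- the atlas of the bundle over the projective line -/
def PolAtlas.p1 (A : PolAtlas n Y) (D : A.DAct) (α β : ℤ) : PolAtlas (n + 1) (P1Y D α β) :=
  (p1Pre A D α β).toAtlas

theorem p1_ι : (A.p1 D α β).ι = (A.ι × Bool) := rfl

theorem p1_U (i : A.ι × Bool) : (A.p1 D α β).U i = {z | ini1 z ∈ A.U i.1} := rfl

theorem p1_γ (i : A.ι × Bool) (z : E (n + 1)) :
    (A.p1 D α β).γ i z = P1Y.mk (A.γ i.1 (ini1 z)) (vec i.2 (z (Fin.last n))) := rfl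

/-! ### Compactness -/

theorem p1_isCpt (hA : A.IsCpt) : (A.p1 D α β).IsCpt := by
  obtain ⟨m, a, K, hK, hc⟩ := hA
  refine ⟨m * 2, fun k => ((a (finProdFinEquiv.symm k).1, (finProdFinEquiv.symm k).2 = 1) :
    A.ι × Bool), fun k => (fun p : E n × ℂ => snoc1 p.1 p.2) ''
      (K (finProdFinEquiv.symm k).1 ×ˢ Metric.closedBall 0 1), fun k => ⟨?_, ?_⟩, ?_⟩
  · exact (((hK _).1).prod (isCompact_closedBall 0 1)).image continuous_snoc1
  · rintro _ ⟨⟨z, u⟩, ⟨hz, _⟩, rfl⟩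
    show ini1 (snoc1 z u) ∈ A.U _
    rw [ini1_snoc1]
    exact (hK _).2 hz
  · intro p
    obtain ⟨y, x, rfl⟩ := P1Y.exists_mk p
    obtain ⟨b, c, u, hu, rfl⟩ := exists_vec1 x
    obtain ⟨k, z, hz, d, hd⟩ := hc (c ^ α • D.act (c ^ β) y)
    refine ⟨finProdFinEquiv (k, if b then 1 else 0), snoc1 z u, ?_, d, ?_⟩
    · simp only [Equiv.symm_apply_apply]
      exact ⟨(z, u), ⟨hz, by simpa using hu⟩, rfl⟩
    · rw [P1Y.mk_smul, hd]
      show _ = d • p1γ A D α β _ _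
      unfold p1γ
      simp only [ini1_snoc1, snoc1_last, Equiv.symm_apply_apply]
      rw [P1Y.smul_mk]
      cases b <;> simp

/-! ### The Hausdorff property -/

theorem sep_last {i j : A.ι × Bool} {z z' : E (n + 1)} {V V' : Set ℂ}
    (hV : V ∈ 𝓝 (z (Fin.last n))) (hV' : V' ∈ 𝓝 (z' (Fin.last n)))
    (h : ∀ w w' : E (n + 1), w (Fin.last n) ∈ V → w' (Fin.last n) ∈ V' → ∀ c : ℂˣ,
      p1γ A D α β j w' ≠ c • p1γ A D α β i w) :
    Sep (p1γ A D α β i) z (p1γ A D α β j) z' :=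
  ⟨_, (continuous_apply (Fin.last n)).continuousAt.preimage_mem_nhds hV,
    _, (continuous_apply (Fin.last n)).continuousAt.preimage_mem_nhds hV',
    fun w hw w' hw' c => h w w' hw hw' c⟩

theorem sep_same (ht : A.IsT2) {a a' : A.ι} (b : Bool) {z z' : E (n + 1)}
    (hz : ini1 z ∈ A.U a) (hz' : ini1 z' ∈ A.U a')
    (h : ∀ c : ℂˣ, p1γ A D α β (a', b) z' ≠ c • p1γ A D α β (a, b) z) :
    Sep (p1γ A D α β (a, b)) z (p1γ A D α β (a', b)) z' := by
  by_cases hl : z (Fin.last n) = z' (Fin.last n)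
  · have h1 : ∀ c : ℂˣ, A.γ a' (ini1 z') ≠ c • A.γ a (ini1 z) := by
      intro c hc
      apply h c
      unfold p1γ
      simp only
      rw [hc, ← hl, P1Y.smul_mk]
    obtain ⟨V, hV, V', hV', h2⟩ := ht a a' _ hz _ hz' h1
    refine ⟨ini1 ⁻¹' (V ∩ A.U a), continuous_ini1.continuousAt.preimage_mem_nhds
        (inter_mem hV ((A.isOpen_U a).mem_nhds hz)),
      ini1 ⁻¹' (V' ∩ A.U a'), continuous_ini1.continuousAt.preimage_mem_nhds
        (inter_mem hV' ((A.isOpen_U a').mem_nhds hz')), ?_⟩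
    intro w hw w' hw' c hc
    exact h2 _ hw _ hw' c (p1γ_same hc).2
  · obtain ⟨V, V', hV, hV', hzV, hzV', hd⟩ := t2_separation hl
    refine sep_last (hV.mem_nhds hzV) (hV'.mem_nhds hzV') fun w w' hw hw' c hc => ?_
    rw [(p1γ_same hc).1] at hw'
    exact Set.disjoint_left.1 hd hw hw'

theorem sep_swap (ht : A.IsT2) {a a' : A.ι} (b : Bool) {z z' : E (n + 1)}
    (hz : ini1 z ∈ A.U a) (hz' : ini1 z' ∈ A.U a') (h0 : z (Fin.last n) ≠ 0)
    (h : ∀ c : ℂˣ, p1γ A D α β (a', !b) z' ≠ c • p1γ A D α β (a, b) z) :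
    Sep (p1γ A D α β (a, b)) z (p1γ A D α β (a', !b)) z' := by
  have hl := loc_swap (D := D) (α := α) (β := β) a b hz (Units.mk0 _ h0)
  rw [Units.val_mk0, snoc1_ini1] at hl
  have he := p1γ_swap (D := D) (α := α) (β := β) a b hz (Units.mk0 _ h0)
  rw [Units.val_mk0, snoc1_ini1] at he
  refine Sep.of_loc hl (sep_same ht (!b) ?_ hz' ?_)
  · unfold swp
    rw [ini1_snoc1]
    exact D.dom a _ hz _
  · intro c hc
    rw [he, smul_smul] at hc
    exact h _ hc

theorem p1_isT2 (ht : A.IsT2) : (A.p1 D α β).IsT2 := by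
  refine (p1Pre A D α β).isT2 ?_
  rintro ⟨a, b⟩ ⟨a', b'⟩ z hz z' hz' h
  change ini1 z ∈ A.U a at hz
  change ini1 z' ∈ A.U a' at hz'
  change ∀ c : ℂˣ, p1γ A D α β (a', b') z' ≠ c • p1γ A D α β (a, b) z at h
  change Sep (p1γ A D α β (a, b)) z (p1γ A D α β (a', b')) z'
  by_cases hb : b' = b
  · subst hb
    exact sep_same ht b' hz hz' h
  · have hb' : b' = !b := by
      cases b <;> cases b' <;> simp_all
    subst hb'
    by_cases h0 : z (Fin.last n) = 0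
    · by_cases h0' : z' (Fin.last n) = 0
      · refine sep_last (V := Metric.ball 0 1) (V' := Metric.ball 0 1)
          (by rw [h0]; exact Metric.ball_mem_nhds _ one_pos)
          (by rw [h0']; exact Metric.ball_mem_nhds _ one_pos) fun w w' hw hw' c hc => ?_
        obtain ⟨h1, h2⟩ := p1γ_not hc
        rw [h2, mem_ball_zero_iff, norm_inv] at hw'
        rw [mem_ball_zero_iff] at hw
        have := one_lt_inv_iff₀.2 ⟨norm_pos_iff.2 h1, hw⟩
        exact lt_asymm hw' this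
      · apply Sep.symm
        have := sep_swap (D := D) (α := α) (β := β) ht (!b) hz' hz h0' (fun c hc => h c⁻¹ (by
          rw [Bool.not_not] at hc
          rw [hc, inv_smul_smul]))
        rwa [Bool.not_not] at this
    · exact sep_swap ht b hz hz' h0 h

/-! ### The actions -/

theorem ini1_dact (k : Fin n → ℤ) (l : ℤ) (c : ℂˣ) (z : E (n + 1)) :
    ini1 (dact (Fin.snoc k l : Fin (n + 1) → ℤ) c z) = dact k c (ini1 z) := by
  funext j
  simp [ini1, dact]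

theorem last_dact1 (k : Fin n → ℤ) (l : ℤ) (c : ℂˣ) (z : E (n + 1)) :
    dact (Fin.snoc k l : Fin (n + 1) → ℤ) c z (Fin.last n) = ((c ^ l : ℂˣ) : ℂ) *
      z (Fin.last n) := by
  simp [dact]

/-- an action on `Y` commuting with `D` acts on the bundle -/
def PolAtlas.DAct.lift (D D' : A.DAct) (α β : ℤ)
    (h : ∀ c c' y, D'.act c (D.act c' y) = D.act c' (D'.act c y)) : (A.p1 D α β).DAct where
  act c := P1Y.map (D'.act c) (fun c' y => D'.act_smul c c' y) (fun c' y => h c c' y)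
  act_one p := by
    obtain ⟨y, x, rfl⟩ := P1Y.exists_mk p
    rw [P1Y.map_mk, D'.act_one]
  act_mul c c' p := by
    obtain ⟨y, x, rfl⟩ := P1Y.exists_mk p
    rw [P1Y.map_mk, P1Y.map_mk, P1Y.map_mk, D'.act_mul]
  act_smul c c' p := by
    obtain ⟨y, x, rfl⟩ := P1Y.exists_mk p
    rw [P1Y.smul_mk, P1Y.map_mk, P1Y.map_mk, D'.act_smul, P1Y.smul_mk]
  k i := Fin.snoc (D'.k i.1) 0
  m i := D'.m i.1
  dom i z hz c := by
    show ini1 _ ∈ A.U i.1
    rw [ini1_dact]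
    exact D'.dom i.1 _ hz c
  act_γ := by
    rintro ⟨a, b⟩ z hz c
    show P1Y.map _ _ _ (P1Y.mk (A.γ a (ini1 z)) (vec b (z (Fin.last n)))) = c ^ (D'.m a) •
      P1Y.mk (A.γ a (ini1 (dact (Fin.snoc (D'.k a) 0 : Fin (n + 1) → ℤ) c z)))
        (vec b (dact (Fin.snoc (D'.k a) 0 : Fin (n + 1) → ℤ) c z (Fin.last n)))
    rw [P1Y.map_mk, ini1_dact, last_dact1, zpow_zero, Units.val_one, one_mul,
      P1Y.smul_mk, D'.act_γ a _ hz c]

theorem PolAtlas.DAct.lift_act (D D' : A.DAct) (α β : ℤ)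
    (h : ∀ c c' y, D'.act c (D.act c' y) = D.act c' (D'.act c y)) (c : ℂˣ) (y : Y) (x : V2) :
    (D.lift D' α β h).act c (P1Y.mk y x) = P1Y.mk (D'.act c y) x := rfl

/-- the vector `(x_0, c x_1)` -/
def rotV (c : ℂˣ) (x : V2) : V2 := ⟨![x.1 0, (c : ℂ) * x.1 1], by
  intro h
  have h0 := congrFun h 0
  have h1 := congrFun h 1
  simp only [Matrix.cons_val_zero, Matrix.cons_val_one, Pi.zero_apply, mul_eq_zero, c.ne_zero,
    false_or] at h0 h1
  apply x.2
  funext i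
  fin_cases i
  · exact h0
  · exact h1⟩

theorem rotV_coe (c : ℂˣ) (x : V2) : (rotV c x : Fin 2 → ℂ) = ![x.1 0, (c : ℂ) * x.1 1] := rfl

theorem rotV_smul (c d : ℂˣ) (x : V2) : rotV c (d • x) = d • rotV c x := by
  apply Subtype.ext
  rw [rotV_coe, V2.coe_smul, V2.coe_smul, rotV_coe]
  ext i
  fin_cases i
  · simp
  · simp [mul_left_comm]

theorem rotV_one (x : V2) : rotV 1 x = x := by
  apply Subtype.ext
  rw [rotV_coe]
  ext i
  fin_cases i <;> simp

theorem rotV_mul (c d : ℂˣ) (x : V2) : rotV (c * d) x = rotV c (rotV d x) := by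
  apply Subtype.ext
  rw [rotV_coe, rotV_coe, rotV_coe]
  ext i
  fin_cases i <;> simp [mul_assoc]

theorem rotV_false (c : ℂˣ) (u : ℂ) : rotV c (vec false u) = vec false ((c : ℂ) * u) := by
  apply Subtype.ext
  rw [rotV_coe, vec_false, vec_false]
  ext i
  fin_cases i <;> simp

theorem rotV_true (c : ℂˣ) (u : ℂ) : rotV c (vec true u) = c • vec true ((c : ℂ)⁻¹ * u) := by
  apply Subtype.ext
  rw [rotV_coe, V2.coe_smul, vec_true, vec_true]
  ext i
  fin_cases i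
  · simp
  · simp

/-- the map `[y, (x_0, x_1)] ↦ [y, (x_0, c x_1)]` -/
def rotY (c : ℂˣ) : P1Y D α β → P1Y D α β :=
  Quotient.map (fun p => (p.1, rotV c p.2)) (by
    rintro ⟨y, x⟩ ⟨y', x'⟩ ⟨d, h1, h2⟩
    refine ⟨d, ?_, h2⟩
    simp only at h1 ⊢
    rw [h1, rotV_smul])

theorem rotY_mk (c : ℂˣ) (y : Y) (x : V2) :
    rotY c (P1Y.mk y x : P1Y D α β) = P1Y.mk y (rotV c x) := rfl

/-- the rotation of the projective line -/
def PolAtlas.DAct.rot (D : A.DAct) (α β : ℤ) : (A.p1 D α β).DAct where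
  act := rotY
  act_one p := by
    obtain ⟨y, x, rfl⟩ := P1Y.exists_mk p
    rw [rotY_mk, rotV_one]
  act_mul c c' p := by
    obtain ⟨y, x, rfl⟩ := P1Y.exists_mk p
    rw [rotY_mk, rotY_mk, rotY_mk, rotV_mul]
  act_smul c c' p := by
    obtain ⟨y, x, rfl⟩ := P1Y.exists_mk p
    rw [P1Y.smul_mk, rotY_mk, rotY_mk, P1Y.smul_mk]
  k i := if i.2 then Fin.snoc (fun j => β * D.k i.1 j) (-1) else Fin.snoc (fun _ => 0) 1
  m i := if i.2 then α + β * D.m i.1 else 0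
  dom := by
    rintro ⟨a, b⟩ z hz c
    change ini1 z ∈ A.U a at hz
    show ini1 _ ∈ A.U a
    cases b
    · simp only [Bool.false_eq_true, if_false]
      rw [ini1_dact]
      have : dact (fun _ => (0 : ℤ)) c (ini1 z) = ini1 z := by
        funext j
        simp [dact]
      rwa [this]
    · simp only [if_true]
      rw [ini1_dact]
      have : dact (fun j => β * D.k a j) c (ini1 z) = dact (D.k a) (c ^ β) (ini1 z) := by
        funext j
        simp only [dact]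
        rw [zpow_mul]
      rw [this]
      exact D.dom a _ hz _
  act_γ := by
    rintro ⟨a, b⟩ z hz c
    change ini1 z ∈ A.U a at hz
    rw [p1_γ, p1_γ, rotY_mk]
    cases b
    · simp only [Bool.false_eq_true, if_false]
      rw [ini1_dact, last_dact1, rotV_false, zpow_zero, one_smul, zpow_one]
      congr 2
      funext j
      simp [dact]
    · simp only [if_true]
      rw [ini1_dact, last_dact1, rotV_true, P1Y.mk_smul, D.act_γ a _ hz, smul_smul, P1Y.smul_mk]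
      have h1 : dact (fun j => β * D.k a j) c (ini1 z) = dact (D.k a) (c ^ β) (ini1 z) := by
        funext j
        simp only [dact]
        rw [zpow_mul]
      rw [h1, ← zpow_mul, ← zpow_add, zpow_neg, zpow_one, Units.val_inv_eq_inv_val]

theorem PolAtlas.DAct.rot_act (D : A.DAct) (α β : ℤ) (c : ℂˣ) (y : Y) (x : V2) :
    (D.rot α β).act c (P1Y.mk y x) = P1Y.mk y (rotV c x) := rfl

end

end Pool.Agent.YTDA


end

/- source: Pool.Agent.YTDA.P1Inst -/

section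

/-!
The standard atlas of the bundle over the projective line satisfies the predicates
`P1At`, `IsP1e`, and the lift of an action satisfies `IsLift` and `Induced`.
-/

namespace Pool.Agent.YTDA

open Complex Set Topology Filter

noncomputable section

variable {n : ℕ} {Y : Type} [MulAction ℂˣ Y]

/-- an action commutes with itself -/
theorem PolAtlas.DAct.self_comm {A : PolAtlas n Y} (D : A.DAct) (c c' : ℂˣ) (y : Y) :
    D.act c (D.act c' y) = D.act c' (D.act c y) := by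
  rw [← D.act_mul, ← D.act_mul, mul_comm]

theorem p1At_p1 (A : PolAtlas n Y) (D : A.DAct) (α β : ℤ) : P1At (A.p1 D α β) where
  chart := fun i => ⟨i.1, i.2, rfl, fun _ _ => rfl⟩
  exists_chart := fun a b => ⟨((a, b) : A.ι × Bool), rfl, fun _ _ => rfl⟩

/-- the index equivalence -/
def p1e (A : PolAtlas n Y) (D : A.DAct) (α β : ℤ) : A.ι × Bool ≃ (A.p1 D α β).ι :=
  Equiv.refl (A.ι × Bool)

theorem isP1e_p1 (A : PolAtlas n Y) (D : A.DAct) (α β : ℤ) :
    IsP1e (A.p1 D α β) (p1e A D α β) where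
  U := fun _ _ => rfl
  γ := fun _ _ _ _ => rfl

theorem isLift_lift (A : PolAtlas n Y) (D : A.DAct) (α β : ℤ) :
    IsLift (p1e A D α β) (D.lift D α β (PolAtlas.DAct.self_comm D)) where
  act := fun _ _ _ => rfl

theorem induced_lift (A : PolAtlas n Y) (D : A.DAct) (α β : ℤ) :
    Induced (D.lift D α β (PolAtlas.DAct.self_comm D)) := fun _ _ _ => rfl

/-- the standard double bundle -/
def twoP1 {Y : Type} [MulAction ℂˣ Y] (A : PolAtlas 2 Y) (D : A.DAct) (α β α' β' : ℤ) :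
    TwoP1 A D α β α' β' where
  B₁ := A.p1 D α β
  e₁ := p1e A D α β
  h₁ := isP1e_p1 A D α β
  D₁ := D.lift D α β (PolAtlas.DAct.self_comm D)
  l₁ := isLift_lift A D α β
  B₂ := (A.p1 D α β).p1 (D.lift D α β (PolAtlas.DAct.self_comm D)) α' β'
  e₂ := p1e _ _ _ _
  h₂ := isP1e_p1 _ _ _ _

theorem twoP1_isCpt {Y : Type} [MulAction ℂˣ Y] {A : PolAtlas 2 Y} (D : A.DAct) (hc : A.IsCpt)
    (α β α' β' : ℤ) : (twoP1 A D α β α' β').B₂.IsCpt :=
  p1_isCpt (p1_isCpt hc)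

theorem twoP1_isT2 {Y : Type} [MulAction ℂˣ Y] {A : PolAtlas 2 Y} (D : A.DAct) (ht : A.IsT2)
    (α β α' β' : ℤ) : (twoP1 A D α β α' β').B₂.IsT2 :=
  p1_isT2 (p1_isT2 ht)

theorem exists_twoP1 {Y : Type} [MulAction ℂˣ Y] (A : PolAtlas 2 Y) (D : A.DAct)
    (hc : A.IsCpt) (ht : A.IsT2) (α β α' β' : ℤ) :
    ∃ X : TwoP1 A D α β α' β', X.B₂.IsCpt ∧ X.B₂.IsT2 ∧ P1At X.B₁ ∧ P1At X.B₂ ∧ Induced X.D₁ :=
  ⟨twoP1 A D α β α' β', twoP1_isCpt D hc _ _ _ _, twoP1_isT2 D ht _ _ _ _,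
    p1At_p1 _ _ _ _, p1At_p1 _ _ _ _, induced_lift _ _ _ _⟩

end

end Pool.Agent.YTDA


end

/- source: Pool.Agent.YTDA.SecZero -/

section

/-!
# Regular functions on `X` are constant
-/

set_option autoImplicit false

namespace Pool.Agent.YTDA

open Complex Set Topology Filter Metric MvPolynomial
open Pool.Agent.YTD

noncomputable section

theorem const_of_ord_nonneg {K : Type} [Field K] [Algebra ℂ K] {X : Curve K}
    (An : AnCurve X.toCurveOrd) (hne : Nonempty X.Pt) {z : K} (h : z ∈ X.L 0) :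
    ∃ a : ℂ, z = algebraMap ℂ K a := by
  have h0 : ∀ P, 0 ≤ meromorphicOrderAt (An.fn P z) 0 := by
    intro P
    have h1 := An.le_ord_fn P h
    simpa using h1
  obtain ⟨a, ha⟩ := (AnCurve.merFam_fn (An := An) z).const An.holConst h0
  refine ⟨a, ?_⟩
  apply An.fn_inj
  intro P
  filter_upwards [ha P, An.fn_const P a 0 (AnCurve.mem_ball_zero P)] with σ h1 h2
  rw [h1, h2]

variable {K : Type} [Field K] [Algebra ℂ K] {T : Datum K} {q : ℕ} {D₀ : T.X.Pt →₀ ℤ}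
  {An : AnCurve T.X.toCurveOrd} {M : SigModel T q D₀ An}

theorem sec_zero {f : MvPolynomial (Fin 4) K} (An : AnCurve T.X.toCurveOrd)
    (hf : f ∈ T.sec q D₀ 0) : ∃ a : ℂ, f = a • 1 := by
  have h1 : ∀ e, f.coeff e ≠ 0 → e = 0 ∧ f.coeff e ∈ T.X.L 0 := by
    intro e he
    obtain ⟨j, hj, h2, h3, h4⟩ := hf e he
    simp only [Nat.cast_zero, mul_zero, abs_nonpos_iff] at hj
    subst hj
    simp only [Nat.cast_zero, mul_zero, add_zero, sub_zero] at h2 h3
    refine ⟨?_, ?_⟩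
    · ext i
      fin_cases i
      · show e 0 = 0
        omega
      · show e 1 = 0
        omega
      · show e 2 = 0
        omega
      · show e 3 = 0
        omega
    · have e1 : T.dvs q D₀ 0 0 = 0 := by
        ext P
        rw [dvs_apply]
        simp
      unfold Datum.V at h4
      rwa [e1] at h4
  have h2 : f.coeff 0 ∈ T.X.L 0 := by
    by_cases h : f.coeff 0 = 0
    · rw [h]; exact Submodule.zero_mem _
    · exact (h1 0 h).2
  obtain ⟨a, ha⟩ := const_of_ord_nonneg An (exists_pt T) h2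
  refine ⟨a, ?_⟩
  apply MvPolynomial.ext
  intro e
  rw [coeff_smul, coeff_one]
  split_ifs with h3
  · rw [← h3, ha, Algebra.algebraMap_eq_smul_one]
  · rw [smul_zero]
    by_contra h4
    exact h3 (h1 e h4).1.symm

/-- T15: regular functions are constant -/
theorem isSec_zero_const (X : TwoP1 M.A M.D (25 * (q : ℤ)) 3 (25 * (q : ℤ)) (-3))
    (F : P1Y X.D₁ (25 * (q : ℤ)) (-3) → ℂ) (hF : X.B₂.IsSec 0 F) : ∃ c, ∀ y, F y = c := by
  obtain ⟨f, hf, hr⟩ := exists_rep An.holConst hF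
  obtain ⟨a, rfl⟩ := sec_zero An hf
  refine ⟨a, fun y => ?_⟩
  have h1 : Rep X 0 (a • (1 : P1Y X.D₁ (25 * (q : ℤ)) (-3) → ℂ)) (a • 1) := Rep.one.smul a
  have h2 : X.B₂.IsSec 0 (a • (1 : P1Y X.D₁ (25 * (q : ℤ)) (-3) → ℂ)) := by
    refine ⟨fun c y => ?_, fun i => ?_⟩
    · simp
    · simp only [Pi.smul_apply, Pi.one_apply]
      exact differentiableOn_const _
  rw [Rep.unique' hF h2 hr h1]
  simp

end

end Pool.Agent.YTDA


end

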