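import Pool.Agent.YTDM.P48
import Pool.Agent.YTDM.P49

/- source: Pool.Agent.YTDA.F3Main -/

section

/-!
# The curvature identity on `Σ`
-/

set_option autoImplicit false

namespace Pool.Agent.YTDA

open Complex Set Topology ContDiff Filter Metric MeasureTheory
open Pool.Agent.YTD

noncomputable section

section Sig

variable {K : Type} [Field K] [Algebra ℂ K] {T : Datum K} {q : ℕ} {D₀ : T.X.Pt →₀ ℤ}
  {An : AnCurve T.X.toCurveOrd} {M : SigModel T q D₀ An} {x₀ : K} {d : T.X.Pt →₀ ℤ}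
  {H : M.Y → ℝ} {s : ℂ}

namespace SigModel

theorem mF_log (hd : M.DiffHyp x₀ d) (P : T.X.Pt) (i : Fin 3) {z : E 2}
    (hz : z ∈ M.A.U (M.e (P, i))) :
    ∑ j, mF d P i j * Real.log (‖z j‖ ^ 2) =
      jm i z - d P * Real.log (‖sco i z‖ ^ 2) := by
  rw [Fin.sum_univ_two]
  fin_cases i
  · show mF d P 0 0 * Real.log (‖z 0‖ ^ 2) + mF d P 0 1 * Real.log (‖z 1‖ ^ 2) =
      jm 0 z - d P * Real.log (‖sco 0 z‖ ^ 2)
    simp [mF, jm, sco]
    ring
  · show mF d P 1 0 * Real.log (‖z 0‖ ^ 2) + mF d P 1 1 * Real.log (‖z 1‖ ^ 2) =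
      jm 1 z - d P * Real.log (‖sco 1 z‖ ^ 2)
    simp [mF, jm, sco]
    ring
  · have hzU : z ∈ M.A.U (M.e (P, 2)) := hz
    have h0 : d P = 0 := by
      by_cases hP : P ∈ T.S
      · exact hd.S P hP
      · by_cases hP' : P ∈ T.S'
        · exact hd.S' P hP'
        · rw [M.U_mid' P hP hP'] at hzU
          exact hzU.elim
    show mF d P 2 0 * Real.log (‖z 0‖ ^ 2) + mF d P 2 1 * Real.log (‖z 1‖ ^ 2) =
      jm 2 z - d P * Real.log (‖sco 2 z‖ ^ 2)
    rw [h0]
    simp [mF, jm]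

/-- the global function -/
theorem exists_F (hd : M.DiffHyp x₀ d) (hK : M.A.IsKahler H) (hp : M.A.IsPde M.D q s H) :
    ∃ F : M.Y → ℝ, (∀ (c : ℂˣ) y, F (c • y) = F y) ∧
      ∀ P i, ∀ z ∈ M.A.U (M.e (P, i)), z 0 ≠ 0 → z 1 ≠ 0 →
        F (M.A.γ (M.e (P, i)) z) =
          M.GF x₀ d H P i z + ∑ j, mF d P i j * Real.log (‖z j‖ ^ 2) := by
  obtain ⟨F, hF, hF'⟩ := f3_glue (A := M.A)
    (fun a z => M.GF x₀ d H (M.e.symm a).1 (M.e.symm a).2 z +
      ∑ j, mF d (M.e.symm a).1 (M.e.symm a).2 j * Real.log (‖z j‖ ^ 2))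
    (fun z => z 0 ≠ 0 ∧ z 1 ≠ 0) (by
      intro a b z hz z' hz' hg hg' c h
      obtain ⟨⟨P, i⟩, rfl⟩ := M.e.surjective a
      obtain ⟨⟨Q, j⟩, rfl⟩ := M.e.surjective b
      simp only [Equiv.symm_apply_apply]
      rw [mF_log hd P i hz, mF_log hd Q j hz']
      obtain ⟨f, hf, hfs, hf', hfc, hfn, hld⟩ :=
        M.logdet_compat hK hz hz' hg.1 hg.2 hg'.1 hg'.2 h
      have hs : sco i z ∈ ball (0 : ℂ) (M.r P) := by simpa using M.sco_mem hz
      have hs' : sco j z' ∈ ball (0 : ℂ) (M.r Q) := by simpa using M.sco_mem hz'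
      have h0 := sco_ne (i := i) hg.1 hg.2
      have h0' := sco_ne (i := j) hg'.1 hg'.2
      have hgx := gx_compat hd.ord M.r_le hd.iso hs hs' h0 h0' hf hfs hf' (hfn x₀)
      have hmu := PolAtlas.f3_mu_compat (D := M.D) hK hp.inv hz hz' h
      have n1 : ‖gx An x₀ d M.r P (sco i z)‖ ≠ 0 :=
        norm_ne_zero_iff.2 ((gs_spec hd P i).2 z hz)
      have n2 : ‖gx An x₀ d M.r Q (sco j z')‖ ≠ 0 :=
        norm_ne_zero_iff.2 ((gs_spec hd Q j).2 z' hz')
      have n3 : ‖sco i z‖ ≠ 0 := norm_ne_zero_iff.2 h0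
      have n4 : ‖sco j z'‖ ≠ 0 := norm_ne_zero_iff.2 h0'
      have n5 : ‖deriv f (sco i z)‖ ≠ 0 := norm_ne_zero_iff.2 hf'
      have hlog := congrArg (fun x : ℂ => Real.log ‖x‖) hgx
      simp only [norm_mul, norm_zpow] at hlog
      rw [Real.log_mul (by positivity) n1, Real.log_mul (by positivity) n5,
        Real.log_mul (by positivity) n2, Real.log_zpow, Real.log_zpow] at hlog
      have e1 : ∀ (P : T.X.Pt) (i : Fin 3) (z : E 2), M.GF x₀ d H P i z =
          logdet (M.A.pot H (M.e (P, i))) z + Real.log (PP q (M.A.mu M.D H (M.e (P, i)) z)) -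
            2 * Real.log ‖gx An x₀ d M.r P (sco i z)‖ := by
        intro P i z
        unfold GF gs
        rw [PolAtlas.fred_eq, Real.log_pow]
        push_cast
        ring
      rw [e1, e1, hmu]
      rw [Real.log_pow] at hld
      rw [Real.log_pow, Real.log_pow]
      push_cast at hld ⊢
      linarith)
  refine ⟨F, hF, fun P i z hz h0 h1 => ?_⟩
  have := hF' (M.e (P, i)) z hz ⟨h0, h1⟩
  simpa only [Equiv.symm_apply_apply] using this

/-! ## The integrands -/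

/-- the integrand for `F` -/
theorem resF_GF (hd : M.DiffHyp x₀ d) (hK : M.A.IsKahler H) (hp : M.A.IsPde M.D q s H)
    {f : ℝ → ℝ} (hf : Differentiable ℝ f) (P : T.X.Pt) (i : Fin 3) {z : E 2}
    (hz : z ∈ M.A.U (M.e (P, i))) (G : M.A.ι → E 2 → ℝ) (Mu : M.A.ι → Fin 2 → ℝ)
    (hG : G (M.e (P, i)) = M.GF x₀ d H P i) (hM : Mu (M.e (P, i)) = mF d P i) :
    M.A.resF M.D H (fun x => f x * PP q x) G Mu (M.e (P, i)) z =
      (M.A.rho H (M.e (P, i)) z : ℂ) *
        ((f (M.A.mu M.D H (M.e (P, i)) z) : ℂ) *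
          (100 * q - s * (PP q (M.A.mu M.D H (M.e (P, i)) z) : ℝ)) +
        (deriv f (M.A.mu M.D H (M.e (P, i)) z) : ℝ) *
          (PP q (M.A.mu M.D H (M.e (P, i)) z) : ℝ) *
          (wdz (M.D.k (M.e (P, i))) (fun w => (M.A.fred M.D H q (M.e (P, i)) w : ℂ)) z +
            ((∑ j, (M.D.k (M.e (P, i)) j : ℝ) : ℝ) : ℂ))) := by
  have hpde := hp.pde (M.e (P, i)) z hz
  have hder : deriv (fun x => f x * PP q x) (M.A.mu M.D H (M.e (P, i)) z) =
      deriv f (M.A.mu M.D H (M.e (P, i)) z) * PP q (M.A.mu M.D H (M.e (P, i)) z) +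
        f (M.A.mu M.D H (M.e (P, i)) z) * (-18 * M.A.mu M.D H (M.e (P, i)) z) :=
    ((hf _).hasDerivAt.mul (f3_hasDerivAt_PP q _)).deriv
  unfold PolAtlas.resF
  rw [hG, hM, hder, trC_GF hd hK hp P i hz, wdzb_GF hd hK hp P i hz, mF_sum P i hz,
    PolAtlas.f3_trC_eq hK hz]
  have e1 : mom (M.D.k (M.e (P, i))) (M.D.m (M.e (P, i))) (M.A.pot H (M.e (P, i))) z =
      M.A.mu M.D H (M.e (P, i)) z := rfl
  have e2 : redF q (M.D.k (M.e (P, i))) (M.D.m (M.e (P, i))) (M.A.pot H (M.e (P, i))) =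
      M.A.fred M.D H q (M.e (P, i)) := rfl
  rw [e1, e2] at hpde
  have e3 : ((∑ j, M.D.k (M.e (P, i)) j : ℤ) : ℂ) =
      ((∑ j, (M.D.k (M.e (P, i)) j : ℝ) : ℝ) : ℂ) := by push_cast; rfl
  rw [e3] at hpde
  generalize M.A.mu M.D H (M.e (P, i)) z = μ at *
  generalize (∑ i_1, ∑ j, (hess (M.A.pot H (M.e (P, i))) z)⁻¹ j i_1 *
    hess (M.A.fred M.D H q (M.e (P, i))) z i_1 j) = Δ at *
  generalize wdz (M.D.k (M.e (P, i))) (fun w => (M.A.fred M.D H q (M.e (P, i)) w : ℂ)) z = V at *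
  generalize ((∑ j, (M.D.k (M.e (P, i)) j : ℝ) : ℝ) : ℂ) = k at *
  generalize M.A.rho H (M.e (P, i)) z = ρ at *
  push_cast
  linear_combination ((ρ : ℂ) * (f μ : ℂ)) * hpde

end SigModel

end Sig

namespace PolAtlas

variable {n : ℕ} {Y : Type} [MulAction ℂˣ Y] {A : PolAtlas n Y} {D : A.DAct} {H : Y → ℝ}
  {q : ℕ} {s : ℂ}

/-- the integrand for `μ` -/
theorem f3_resF_mu (hK : A.IsKahler H) (hp : A.IsPde D q s H)
    {g : ℝ → ℝ} (hg : Differentiable ℝ g) {a : A.ι} {z : E n} (hz : z ∈ A.U a) :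
    A.resF D H (fun x => g x * PP q x) (fun a => A.mu D H a) (fun _ _ => 0) a z =
      (A.rho H a z : ℂ) *
        ((g (A.mu D H a z) : ℝ) * (PP q (A.mu D H a z) : ℝ) *
          (wdz (D.k a) (fun w => (A.fred D H q a w : ℂ)) z +
            ((∑ j, (D.k a j : ℝ) : ℝ) : ℂ)) +
        (deriv g (A.mu D H a z) : ℝ) * (PP q (A.mu D H a z) : ℝ) * (A.vv D H a z : ℝ)) := by
  have hder : deriv (fun x => g x * PP q x) (A.mu D H a z) =
      deriv g (A.mu D H a z) * PP q (A.mu D H a z) +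
        g (A.mu D H a z) * (-18 * A.mu D H a z) :=
    ((hg _).hasDerivAt.mul (f3_hasDerivAt_PP q _)).deriv
  have hmu : DifferentiableAt ℝ (A.mu D H a) z :=
    ((f3_contDiffOn_mu hK hp.inv a).contDiffAt
      ((A.isOpen_U a).mem_nhds hz)).differentiableAt (by simp)
  have h1 : wdzb (D.k a) (fun w => (A.mu D H a w : ℂ)) z = (A.vv D H a z : ℂ) := by
    rw [(f3_wdz_im_of_inv hmu fun c hc => f3_mu_dact hK hp.inv hz hc).1, f3_wdz_mu hK hp.inv hz]
  have h2 := f3_wdz_fred hK hp hz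
  unfold resF
  rw [hder, f3_trC_mu hK hp.inv hz, h1]
  simp only [zero_mul, Finset.sum_const_zero, ofReal_zero, add_zero]
  generalize A.mu D H a z = μ at *
  generalize wdz (D.k a) (fun w => (A.fred D H q a w : ℂ)) z = V at *
  generalize wdz (D.k a) (fun w => (logdet (A.pot H a) w : ℂ)) z = V' at *
  generalize ((∑ j, (D.k a j : ℝ) : ℝ) : ℂ) = k at *
  generalize A.rho H a z = ρ at *
  push_cast
  linear_combination (-(ρ : ℂ) * (g μ : ℂ)) * h2

end PolAtlas

/-! ## Integration -/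

namespace PolAtlas.Part

variable {n : ℕ} {Y : Type} [MulAction ℂˣ Y] {A : PolAtlas n Y} (P : A.Part)

theorem f3_int_congr {f g : A.ι → E n → ℂ} (h : ∀ a, ∀ z ∈ A.U a, f a z = g a z) :
    P.int f = P.int g := by
  unfold int
  refine Finset.sum_congr rfl fun k _ => ?_
  refine setIntegral_congr_fun (A.isOpen_U _).measurableSet fun z hz => ?_
  show P.X k (P.a k) z * f (P.a k) z = P.X k (P.a k) z * g (P.a k) z
  rw [h _ z hz]

theorem f3_integrable (k : Fin P.m) {f : E n → ℂ} (hf : ContinuousOn f (A.U (P.a k))) :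
    IntegrableOn (fun z => P.X k (P.a k) z * f z) (A.U (P.a k)) := by
  have hU := A.isOpen_U (P.a k)
  have hc : ContinuousOn (fun z => P.X k (P.a k) z * f z) (A.U (P.a k)) :=
    ((P.contDiffOn_X k (P.a k)).continuousOn).mul hf
  have h0 : ∀ z ∈ A.U (P.a k), z ∉ P.K k → P.X k (P.a k) z * f z = 0 := fun z hz hz' => by
    rw [P.X_zero k hz hz', zero_mul]
  rw [← integrable_indicator_iff hU.measurableSet]
  exact (cut_continuous hU (P.cpt k) (P.sub k) hc h0).integrable_of_hasCompactSupport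
    (cut_compact (P.cpt k) h0)

theorem f3_int_add {f g : A.ι → E n → ℂ} (hf : ∀ a, ContinuousOn (f a) (A.U a))
    (hg : ∀ a, ContinuousOn (g a) (A.U a)) :
    P.int (fun a z => f a z + g a z) = P.int f + P.int g := by
  unfold int
  rw [← Finset.sum_add_distrib]
  refine Finset.sum_congr rfl fun k _ => ?_
  rw [← integral_add (P.f3_integrable k (hf _)) (P.f3_integrable k (hg _))]
  congr 1
  funext z
  ring

theorem f3_int_mul (c : ℂ) (f : A.ι → E n → ℂ) :
    P.int (fun a z => c * f a z) = c * P.int f := by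
  unfold int
  rw [Finset.mul_sum]
  refine Finset.sum_congr rfl fun k _ => ?_
  rw [← integral_const_mul]
  congr 1
  funext z
  ring

theorem f3_int_real (f : A.ι → E n → ℝ) : P.int (fun a z => (f a z : ℂ)) =
    (((P.int fun a z => (f a z : ℂ)).re : ℝ) : ℂ) := by
  rw [P.int_re]
  unfold int
  rw [ofReal_sum]
  refine Finset.sum_congr rfl fun k _ => ?_
  rw [← integral_complex_ofReal]
  congr 1
  funext z
  unfold X
  push_cast
  ring

end PolAtlas.Part

namespace SigModel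

variable {K : Type} [Field K] [Algebra ℂ K] {T : Datum K} {q : ℕ} {D₀ : T.X.Pt →₀ ℤ}
  {An : AnCurve T.X.toCurveOrd} {M : SigModel T q D₀ An} {x₀ : K} {d : T.X.Pt →₀ ℤ}
  {H : M.Y → ℝ} {s : ℂ}

variable (M) in
/-- the smooth parts of `F` in all charts -/
def GFa (x₀ : K) (d : T.X.Pt →₀ ℤ) (H : M.Y → ℝ) (a : M.A.ι) : E 2 → ℝ :=
  M.GF x₀ d H (M.e.symm a).1 (M.e.symm a).2

theorem contDiffOn_GFa (hd : M.DiffHyp x₀ d) (hK : M.A.IsKahler H) (hp : M.A.IsPde M.D q s H)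
    (a : M.A.ι) : ContDiffOn ℝ ∞ (M.GFa x₀ d H a) (M.A.U a) := by
  have h := contDiffOn_GF hd hK hp (M.e.symm a).1 (M.e.symm a).2
  rw [show M.e ((M.e.symm a).1, (M.e.symm a).2) = a from M.e.apply_symm_apply a] at h
  exact h

/-- the hypotheses of the residue theorem -/
theorem exists_Fa (hd : M.DiffHyp x₀ d) (hK : M.A.IsKahler H) (hp : M.A.IsPde M.D q s H)
    (L : Labels M.A M.D) (Mv : L.V → ℝ)
    (hlab : ∀ P i j, (M.A.U (M.e (P, i))).Nonempty →
      (L.lab (M.e (P, i)) j).mult 1 1 Mv = mF d P i j) :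
    ∃ F : M.Y → ℝ, (∀ (c : ℂˣ) y, F (c • y) = F y) ∧
      ∀ a, ∀ z ∈ M.A.U a, z 0 ≠ 0 → z 1 ≠ 0 → F (M.A.γ a z) =
        M.GFa x₀ d H a z + ∑ j, (L.lab a j).mult 1 1 Mv * Real.log (‖z j‖ ^ 2) := by
  obtain ⟨F, hF, hF'⟩ := exists_F hd hK hp
  refine ⟨F, hF, fun a z hz h0 h1 => ?_⟩
  obtain ⟨⟨P, i⟩, rfl⟩ := M.e.surjective a
  rw [hF' P i z hz h0 h1]
  unfold GFa
  rw [Equiv.symm_apply_apply]
  congr 1
  refine Finset.sum_congr rfl fun j _ => ?_
  rw [hlab P i j ⟨z, hz⟩]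

/-- **F3** -/
theorem f3 (Q : M.A.Part) (hd : M.DiffHyp x₀ d) (hK : M.A.IsKahler H)
    (hp : M.A.IsPde M.D q s H) (L : Labels M.A M.D) (Mv : L.V → ℝ)
    (hlab : ∀ P i j, (M.A.U (M.e (P, i))).Nonempty →
      (L.lab (M.e (P, i)) j).mult 1 1 Mv = mF d P i j)
    {f : ℝ → ℝ} (hf : ContDiff ℝ ∞ f) (R : ℝ)
    (hres : Q.int (M.A.resF M.D H (fun x => f x * PP q x) (M.GFa x₀ d H)
      (fun a j => (L.lab a j).mult 1 1 Mv)) = (R : ℂ))
    (hres0 : Q.int (M.A.resF M.D H (fun x => deriv f x * PP q x) (fun a => M.A.mu M.D H a)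
      (fun _ _ => 0)) = 0) :
    Q.dhL M.D H q (deriv (deriv f)) + s.re * Q.dhI M.D H (fun x => f x * PP q x) =
      100 * q * Q.dhI M.D H f - R := by
  have hf1 : ContDiff ℝ ∞ (deriv f) := hf.deriv'
  have hf2 : ContDiff ℝ ∞ (deriv (deriv f)) := hf1.deriv'
  set W : M.A.ι → E 2 → ℂ := fun a z => (M.A.rho H a z : ℂ) *
    ((deriv f (M.A.mu M.D H a z) : ℝ) * (PP q (M.A.mu M.D H a z) : ℝ) *
      (wdz (M.D.k a) (fun w => (M.A.fred M.D H q a w : ℂ)) z +
        ((∑ j, (M.D.k a j : ℝ) : ℝ) : ℂ))) with hW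
  have e1 : Q.int (M.A.resF M.D H (fun x => f x * PP q x) (M.GFa x₀ d H)
      (fun a j => (L.lab a j).mult 1 1 Mv)) = Q.int (fun a z =>
      (100 * (q : ℂ) * ((f (M.A.mu M.D H a z) * M.A.rho H a z : ℝ) : ℂ) +
        (-s) * (((fun x => f x * PP q x) (M.A.mu M.D H a z) * M.A.rho H a z : ℝ) : ℂ)) +
        W a z) := by
    apply Q.f3_int_congr
    intro a z hz
    obtain ⟨⟨P, i⟩, rfl⟩ := M.e.surjective a
    rw [resF_GF hd hK hp (hf.differentiable (by simp)) P i hz _ _ (by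
      unfold GFa; rw [Equiv.symm_apply_apply]) (by
      funext j
      exact hlab P i j ⟨z, hz⟩), hW]
    push_cast
    ring
  have e2 : Q.int (M.A.resF M.D H (fun x => deriv f x * PP q x) (fun a => M.A.mu M.D H a)
      (fun _ _ => 0)) = Q.int (fun a z => W a z + ((deriv (deriv f) (M.A.mu M.D H a z) *
        PP q (M.A.mu M.D H a z) * M.A.vv M.D H a z * M.A.rho H a z : ℝ) : ℂ)) := by
    apply Q.f3_int_congr
    intro a z hz
    rw [PolAtlas.f3_resF_mu hK hp (hf1.differentiable (by simp)) hz, hW]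
    push_cast
    ring
  -- continuity
  have cmu : ∀ a, ContinuousOn (M.A.mu M.D H a) (M.A.U a) := fun a =>
    (PolAtlas.f3_contDiffOn_mu hK hp.inv a).continuousOn
  have crho : ∀ a, ContinuousOn (M.A.rho H a) (M.A.U a) := fun a =>
    continuous_re.comp_continuousOn (continuousOn_det_hess (M.A.isOpen_U a) (hK.smooth a))
  have cvv : ∀ a, ContinuousOn (M.A.vv M.D H a) (M.A.U a) := by
    intro a
    refine continuous_re.comp_continuousOn ?_
    refine continuousOn_finsetSum _ fun i _ => continuousOn_finsetSum _ fun j _ => ?_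
    refine ContinuousOn.mul ?_ (continuousOn_hess_apply (M.A.isOpen_U a) (hK.smooth a) i j)
    have : Continuous fun z : E 2 => (M.D.k a i : ℂ) * z i *
        ((M.D.k a j : ℂ) * (starRingEnd ℂ) (z j)) := by
      have h1 : Continuous fun z : E 2 => (starRingEnd ℂ) (z j) :=
        Complex.continuous_conj.comp (continuous_apply j)
      fun_prop
    exact this.continuousOn
  have cP : ∀ a, ContinuousOn (fun z => PP q (M.A.mu M.D H a z)) (M.A.U a) := fun a =>
    (continuous_PP q).comp_continuousOn (cmu a)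
  have cI : ∀ (k : ℝ → ℝ), Continuous k → ∀ a, ContinuousOn (fun z =>
      ((k (M.A.mu M.D H a z) * M.A.rho H a z : ℝ) : ℂ)) (M.A.U a) := fun k hk a =>
    continuous_ofReal.comp_continuousOn ((hk.comp_continuousOn (cmu a)).mul (crho a))
  have cW : ∀ a, ContinuousOn (W a) (M.A.U a) := by
    intro a
    have h1 : ContDiffOn ℝ 1 (fun w => (M.A.fred M.D H q a w : ℂ)) (M.A.U a) :=
      ofRealCLM.contDiff.comp_contDiffOn
        ((PolAtlas.f3_contDiffOn_fred hK hp a).of_le (by exact_mod_cast le_top))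
    have h2 : ContinuousOn (wdz (M.D.k a) (fun w => (M.A.fred M.D H q a w : ℂ))) (M.A.U a) := by
      unfold wdz
      refine continuousOn_finsetSum _ fun j _ => ?_
      exact ((continuousOn_const.mul (continuous_apply j).continuousOn)).mul
        (continuousOn_dz (M.A.isOpen_U a) h1 j)
    exact (continuous_ofReal.comp_continuousOn (crho a)).mul
      (((continuous_ofReal.comp_continuousOn (hf1.continuous.comp_continuousOn (cmu a))).mul
        (continuous_ofReal.comp_continuousOn (cP a))).mul (h2.add continuousOn_const))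
  have cL : ∀ a, ContinuousOn (fun z => ((deriv (deriv f) (M.A.mu M.D H a z) *
        PP q (M.A.mu M.D H a z) * M.A.vv M.D H a z * M.A.rho H a z : ℝ) : ℂ)) (M.A.U a) :=
    fun a => continuous_ofReal.comp_continuousOn
      ((((hf2.continuous.comp_continuousOn (cmu a)).mul (cP a)).mul (cvv a)).mul (crho a))
  have c1 := cI f hf.continuous
  have c2 := cI (fun x => f x * PP q x) (hf.continuous.mul (continuous_PP q))
  rw [e2, Q.f3_int_add cW cL] at hres0
  rw [e1, Q.f3_int_add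
    (f := fun a z => 100 * (q : ℂ) * ((f (M.A.mu M.D H a z) * M.A.rho H a z : ℝ) : ℂ) +
        (-s) * (((fun x => f x * PP q x) (M.A.mu M.D H a z) * M.A.rho H a z : ℝ) : ℂ))
    (g := W) (fun a => (continuousOn_const.mul (c1 a)).add
    (continuousOn_const.mul (c2 a))) cW, Q.f3_int_add
    (f := fun a z => 100 * (q : ℂ) * ((f (M.A.mu M.D H a z) * M.A.rho H a z : ℝ) : ℂ))
    (g := fun a z => (-s) * (((fun x => f x * PP q x) (M.A.mu M.D H a z) *
      M.A.rho H a z : ℝ) : ℂ)) (fun a => continuousOn_const.mul (c1 a))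
    (fun a => continuousOn_const.mul (c2 a)), Q.f3_int_mul, Q.f3_int_mul] at hres
  rw [Q.f3_int_real (fun a z => f (M.A.mu M.D H a z) * M.A.rho H a z),
    Q.f3_int_real (fun a z => (fun x => f x * PP q x) (M.A.mu M.D H a z) * M.A.rho H a z)] at hres
  rw [Q.f3_int_real (fun a z => deriv (deriv f) (M.A.mu M.D H a z) *
        PP q (M.A.mu M.D H a z) * M.A.vv M.D H a z * M.A.rho H a z)] at hres0
  have r1 := congrArg Complex.re hres
  have r2 := congrArg Complex.re hres0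
  have q1 : (100 * (q : ℂ)) = ((100 * (q : ℝ) : ℝ) : ℂ) := by push_cast; rfl
  rw [Complex.add_re, Complex.add_re, q1, Complex.re_ofReal_mul, Complex.re_mul_ofReal,
    Complex.neg_re, ofReal_re, ofReal_re] at r1
  rw [Complex.add_re, ofReal_re, Complex.zero_re] at r2
  unfold PolAtlas.Part.dhL PolAtlas.Part.dhI
  linarith

/-- **F3** in the form of `t13_of`, given the labelled residue theorem `hM4` (for this metric) and
the residue theorem `hM2` for global functions. -/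
theorem f3_target (Q : M.A.Part) (hd : M.DiffHyp x₀ d) (hK : M.A.IsKahler H)
    (hp : M.A.IsPde M.D q s H) (L : Labels M.A M.D) (Mv : L.V → ℝ) (S : Finset L.V)
    (hs : ∀ v ∉ S, Mv v = 0) (t : ℝ)
    (hlab : ∀ P i j, (M.A.U (M.e (P, i))).Nonempty →
      (L.lab (M.e (P, i)) j).mult 1 1 Mv = mF d P i j)
    (hm0 : L.m0 = -5 * q) (hmi : L.mi = 5 * q)
    (hsum : ∀ u : ℝ → ℝ, Continuous u →
      ∑ v ∈ S, Mv v * (Real.pi * ∫ x in (L.mm v : ℝ)..(L.mp v : ℝ), u x) =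
        -(18 * t) * (Real.pi * ∫ x in (-(5 * q) : ℝ)..(5 * q : ℝ), u x))
    (hM2 : ∀ G : M.A.ι → E 2 → ℝ, (∀ a, ContDiffOn ℝ ∞ (G a) (M.A.U a)) →
      (∀ a b, ∀ z ∈ M.A.U a, ∀ z' ∈ M.A.U b, ∀ c : ℂˣ, M.A.γ b z' = c • M.A.γ a z →
        G b z' = G a z) → ∀ u : ℝ → ℝ, ContDiff ℝ ∞ u →
      Q.int (M.A.resF M.D H u G (fun _ _ => 0)) = 0)
    (hM4 : ∀ (F : M.Y → ℝ), (∀ (c : ℂˣ) y, F (c • y) = F y) →
      ∀ G : M.A.ι → E 2 → ℝ, (∀ a, ContDiffOn ℝ ∞ (G a) (M.A.U a)) →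
      (∀ a, ∀ z ∈ M.A.U a, z 0 ≠ 0 → z 1 ≠ 0 →
        F (M.A.γ a z) = G a z + ∑ j, (L.lab a j).mult 1 1 Mv * Real.log (‖z j‖ ^ 2)) →
      ∀ u : ℝ → ℝ, ContDiff ℝ ∞ u →
      Q.int (M.A.resF M.D H u G (fun a j => (L.lab a j).mult 1 1 Mv)) =
      ((- Real.pi * (1 * (u L.m0 * Q.labInt M.D H L.lab Lb.zero (fun _ => 1)) +
        1 * (u L.mi * Q.labInt M.D H L.lab Lb.inf (fun _ => 1)) +
        ∑ v ∈ S, Mv v * (Real.pi * ∫ x in (L.mm v : ℝ)..(L.mp v : ℝ), u x)) : ℝ) : ℂ))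
    {f : ℝ → ℝ} (hf : ContDiff ℝ ∞ f) :
    Q.dhL M.D H q (deriv (deriv f)) + s.re * Q.dhI M.D H (fun x => f x * PP q x) =
      100 * q * Q.dhI M.D H f + Real.pi ^ 2 *
        (f (-(5 * q)) * PP q (-(5 * q)) *
            (1 / Real.pi * Q.labInt M.D H L.lab Lb.zero (fun _ => 1)) +
          f (5 * q) * PP q (5 * q) *
            (1 / Real.pi * Q.labInt M.D H L.lab Lb.inf (fun _ => 1)) -
        18 * t * (∫ x in (-(5 * q) : ℝ)..(5 * q : ℝ), f x * PP q x)) := by
  obtain ⟨F, hF, hF'⟩ := exists_Fa hd hK hp L Mv hlab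
  have hu : ContDiff ℝ ∞ (fun x => f x * PP q x) := hf.mul (f3_contDiff_PP q)
  have h1 := hM4 F hF (M.GFa x₀ d H) (contDiffOn_GFa hd hK hp) hF' _ hu
  have h2 := hM2 (fun a => M.A.mu M.D H a) (PolAtlas.f3_contDiffOn_mu hK hp.inv)
    (fun a b z hz z' hz' c h => PolAtlas.f3_mu_compat hK hp.inv hz hz' h)
    (fun x => deriv f x * PP q x) ((hf.deriv').mul (f3_contDiff_PP q))
  rw [f3 Q hd hK hp L Mv hlab hf _ h1 h2, hsum _ hu.continuous, hm0, hmi]
  have hpi := Real.pi_ne_zero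
  have e0 : (((-5 * (q : ℤ) : ℤ)) : ℝ) = -(5 * (q : ℝ)) := by push_cast; ring
  have e1 : (((5 * (q : ℤ) : ℤ)) : ℝ) = 5 * (q : ℝ) := by push_cast; ring
  rw [e0, e1]
  field_simp
  ring

end SigModel

end

end Pool.Agent.YTDA


end

/- source: Pool.Agent.YTDA.Orbit5 -/

section

/-!
# M3: integrals over vertical curves
-/

namespace Pool.Agent.YTDA

open Complex Set Topology ContDiff MeasureTheory Filter

noncomputable section

namespace Orb

variable {Y : Type} [MulAction ℂˣ Y] {A : PolAtlas 2 Y} {D : A.DAct}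

variable {H : Y → ℝ} (hK : A.IsKahler H)
    (hinv : ∀ (c : ℂˣ) y, ‖(c : ℂ)‖ = 1 → H (D.act c y) = H y)

theorem chi_le_one (P : A.Part) (k : Fin P.m) (y : Y) : P.χ k y ≤ 1 := by
  rw [← P.sum y]
  exact Finset.single_le_sum (f := fun k => P.χ k y) (fun i _ => P.nonneg i y) (Finset.mem_univ k)

include hK hinv

theorem radial (L : Labels A D) (v : L.V) {u : ℝ → ℝ} (hu : Continuous u) :
    Integrable (fun c : ℂ => u (2 * D.mu H (D.act (expU (Real.log ‖c‖)) (L.p v)) / 2) *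
      (4 * D.nv H (D.act (expU (Real.log ‖c‖)) (L.p v)) / (4 * ‖c‖ ^ 2))) ∧
    ∫ c : ℂ, u (2 * D.mu H (D.act (expU (Real.log ‖c‖)) (L.p v)) / 2) *
      (4 * D.nv H (D.act (expU (Real.log ‖c‖)) (L.p v)) / (4 * ‖c‖ ^ 2)) =
      Real.pi * ∫ x in (L.mm v : ℝ)..(L.mp v : ℝ), u x := by
  refine integral_radial (f := fun t : ℝ => 2 * D.mu H (D.act (expU t) (L.p v)))
    (f' := fun t : ℝ => 4 * D.nv H (D.act (expU t) (L.p v))) ?_ ?_ ?_ ?_ ?_ hu
  · intro t
    have h := (PolAtlas.hasDerivAt_mu_act' hK D hinv (L.p v) t).const_mul 2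
    refine h.congr_deriv ?_
    ring
  · intro t
    exact mul_nonneg (by norm_num) (nv_nonneg hK hinv _)
  · exact continuous_const.mul ((cont_orbit (PolAtlas.nv_smul hK D) (continuousOn_nv hK hinv)
      (L.p v)).comp continuous_expU)
  · obtain ⟨a, j, h1, h2, h3, h4⟩ := L.exists_minus v
    have h5 := (tendsto_mu hK hinv L h1 h4 (l := atBot) (by
      rw [h2]
      refine tendsto_id.congr fun t => ?_
      simp)).const_mul 2
    rw [h3] at h5
    exact h5
  · obtain ⟨a, j, h1, h2, h3, h4⟩ := L.exists_plus v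
    have h5 := (tendsto_mu hK hinv L h1 h4 (l := atTop) (by
      rw [h2]
      simpa using tendsto_neg_atTop_atBot)).const_mul 2
    rw [h3] at h5
    exact h5

theorem integrable_G (P : A.Part) (L : Labels A D) (v : L.V) {u : ℝ → ℝ} (hu : Continuous u)
    (k : Fin P.m) : Integrable (G P D H u (L.p v) k) := by
  have h1 := (radial hK hinv L v hu).1
  have h2 : ContinuousOn (fun c : ℂ => P.χ k (D.act (toU c) (L.p v))) {0}ᶜ :=
    (cont_orbit (fun c y => P.inv k c y) (fun a => (P.smooth k a).continuousOn)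
      (L.p v)).comp_continuousOn continuousOn_toU
  have h0 : ∀ᵐ w : ℂ, w ≠ 0 := by
    rw [ae_iff]
    simp
  have h3 : AEStronglyMeasurable (fun c : ℂ => P.χ k (D.act (toU c) (L.p v))) volume := by
    have := h2.aestronglyMeasurable (μ := volume) (measurableSet_singleton (0 : ℂ)).compl
    rwa [Measure.restrict_eq_self_of_ae_mem (s := ({0}ᶜ : Set ℂ)) h0] at this
  refine h1.bdd_mul (c := 1) h3 (Filter.Eventually.of_forall fun c => ?_)
  rw [Real.norm_of_nonneg (P.nonneg k _)]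
  exact chi_le_one P k _

theorem sum_G (P : A.Part) (L : Labels A D) (v : L.V) {u : ℝ → ℝ} (hu : Continuous u) :
    ∑ k, ∫ c, G P D H u (L.p v) k c = Real.pi * ∫ x in (L.mm v : ℝ)..(L.mp v : ℝ), u x := by
  rw [← integral_finsetSum _ fun k _ => integrable_G hK hinv P L v hu k,
    ← (radial hK hinv L v hu).2]
  congr 1
  funext c
  simp only [G]
  rw [← Finset.sum_mul, P.sum, one_mul]

open Classical in
theorem sum_axisInt (P : A.Part) (L : Labels A D) (v : L.V) (u : ℝ → ℝ) (k : Fin P.m) :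
    (∑ j, if L.lab (P.a k) j = Lb.vert v then P.axisInt D H u k j else 0) =
      ∫ c, G P D H u (L.p v) k c := by
  by_cases hex : ∃ j w₁, L.lab (P.a k) j = Lb.vert v ∧ w₁ ≠ 0 ∧ axis j w₁ ∈ A.U (P.a k)
  · obtain ⟨j, w₁, h, hw₁, hm⟩ := hex
    rw [Finset.sum_eq_single j, if_pos h, axisInt_eq L P hK hinv u h hw₁ hm]
    · intro i _ hi
      rw [if_neg]
      have h1 : i = 1 - j := by
        revert hi
        fin_cases i <;> fin_cases j <;> simp
      rw [h1]
      exact L.vert_ne _ j v h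
    · simp
  · have h1 : ∀ c : ℂˣ, P.χ k (D.act c (L.p v)) = 0 := by
      intro c
      by_contra h0
      obtain ⟨z, hz, d, hd⟩ := P.supp k _ h0
      have hzU := P.sub k hz
      obtain ⟨j, hj, hzj⟩ := L.vert_axis v (P.a k) z hzU d⁻¹ c (by rw [hd, inv_smul_smul])
      rw [eq_axis hzj] at hzU
      obtain ⟨w₁, hw₁, hm⟩ := exists_ne hzU
      exact hex ⟨j, w₁, hj, hw₁, hm⟩
    have h2 : G P D H u (L.p v) k = fun _ => 0 := by
      funext c
      rw [G, h1, zero_mul]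
    rw [h2, integral_zero]
    refine Finset.sum_eq_zero fun j _ => ?_
    split_ifs with h
    · rw [PolAtlas.Part.axisInt]
      have h3 : ∀ w : ℂ, axis j w ∉ A.U (P.a k) := by
        intro w hw
        obtain ⟨w₁, hw₁, hm⟩ := exists_ne hw
        exact hex ⟨j, w₁, h, hw₁, hm⟩
      simp only [indicator_of_notMem (h3 _), integral_zero]
    · rfl

end Orb

namespace PolAtlas

variable {Y : Type} [MulAction ℂˣ Y] {A : PolAtlas 2 Y}

/-- M3: the integral over a vertical curve -/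
theorem Part.vert_int (P : A.Part) (D : A.DAct) {H : Y → ℝ} (hK : A.IsKahler H)
    (hinv : ∀ (c : ℂˣ) y, ‖(c : ℂ)‖ = 1 → H (D.act c y) = H y) (L : Labels A D) (v : L.V)
    (u : ℝ → ℝ) (hu : ContDiff ℝ ∞ u) :
    P.labInt D H L.lab (Lb.vert v) u = Real.pi * ∫ x in (L.mm v : ℝ)..(L.mp v : ℝ), u x := by
  rw [← Orb.sum_G hK hinv P L v hu.continuous, Part.labInt]
  exact Finset.sum_congr rfl fun k _ => Orb.sum_axisInt hK hinv P L v u k

end PolAtlas

end

end Pool.Agent.YTDA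


end

/- source: Pool.Agent.YTDA.ResLab -/

section

/-!
# M4: the residue theorem with labelled axes
-/

namespace Pool.Agent.YTDA

open Complex Set Topology ContDiff MeasureTheory

noncomputable section

namespace PolAtlas

variable {Y : Type} [MulAction ℂˣ Y] {A : PolAtlas 2 Y}

/-- On an axis whose other coordinate has weight zero the moment is the weight of the frame. -/
theorem mu_axis (D : A.DAct) (H : Y → ℝ) (a : A.ι) (j : Fin 2) (hk : D.k a (1 - j) = 0) (w : ℂ) :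
    A.mu D H a (axis j w) = D.m a := by
  unfold mu mom wdz
  have h : ∑ i, (D.k a i : ℂ) * axis j w i * dz i (fun w => ((A.pot H a w : ℝ) : ℂ)) (axis j w) =
      0 := by
    refine Finset.sum_eq_zero (fun i _ => ?_)
    by_cases hi : i = j
    · rw [hi, axis_same]
      ring
    · have h1 : i = 1 - j := by
        fin_cases i <;> fin_cases j <;> first | rfl | exact absurd rfl hi
      rw [h1, hk]
      push_cast
      ring
  rw [h, Complex.zero_re, add_zero]

/-- the axis integral over a curve of fixed points -/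
theorem axisInt_fix (P : A.Part) (D : A.DAct) (H : Y → ℝ) (u : ℝ → ℝ) (k : Fin P.m) (j : Fin 2)
    (hk : D.k (P.a k) (1 - j) = 0) :
    P.axisInt D H u k j = u (D.m (P.a k)) * P.axisInt D H (fun _ => 1) k j := by
  unfold Part.axisInt
  rw [← integral_const_mul]
  refine integral_congr_ae (Filter.Eventually.of_forall fun w => ?_)
  show (A.U (P.a k)).indicator _ (axis j w) = _ * (A.U (P.a k)).indicator _ (axis j w)
  by_cases hz : axis j w ∈ A.U (P.a k)
  · rw [indicator_of_mem hz, indicator_of_mem hz, mu_axis D H (P.a k) j hk w]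
    ring
  · rw [indicator_of_notMem hz, indicator_of_notMem hz, mul_zero]

/-- M4, with M2 and M3 as hypotheses. -/
theorem Part.res_lab_of (P : A.Part) (D : A.DAct) {H : Y → ℝ} (L : Labels A D)
    (G : A.ι → E 2 → ℝ) (M0 Mi : ℝ) (Mv : L.V → ℝ) (s : Finset L.V) (hs : ∀ v ∉ s, Mv v = 0)
    (u : ℝ → ℝ)
    (hres : P.int (A.resF D H u G (fun a j => (L.lab a j).mult M0 Mi Mv)) =
      ((- Real.pi * ∑ k, ∑ j, (L.lab (P.a k) j).mult M0 Mi Mv * P.axisInt D H u k j : ℝ) : ℂ))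
    (hvert : ∀ v ∈ s, P.labInt D H L.lab (Lb.vert v) u =
      Real.pi * ∫ x in (L.mm v : ℝ)..(L.mp v : ℝ), u x) :
    P.int (A.resF D H u G (fun a j => (L.lab a j).mult M0 Mi Mv)) =
      ((- Real.pi * (M0 * (u L.m0 * P.labInt D H L.lab Lb.zero (fun _ => 1)) +
        Mi * (u L.mi * P.labInt D H L.lab Lb.inf (fun _ => 1)) +
        ∑ v ∈ s, Mv v * (Real.pi * ∫ x in (L.mm v : ℝ)..(L.mp v : ℝ), u x)) : ℝ) : ℂ) := by
  classical
  rw [hres]
  have h1 : ∑ v ∈ s, Mv v * (Real.pi * ∫ x in (L.mm v : ℝ)..(L.mp v : ℝ), u x) =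
      ∑ v ∈ s, Mv v * P.labInt D H L.lab (Lb.vert v) u :=
    Finset.sum_congr rfl (fun v hv => by rw [hvert v hv])
  rw [h1]
  have key : ∑ k, ∑ j, (L.lab (P.a k) j).mult M0 Mi Mv * P.axisInt D H u k j =
      M0 * (u L.m0 * P.labInt D H L.lab Lb.zero (fun _ => 1)) +
        Mi * (u L.mi * P.labInt D H L.lab Lb.inf (fun _ => 1)) +
        ∑ v ∈ s, Mv v * P.labInt D H L.lab (Lb.vert v) u := by
    unfold Part.labInt
    have e3 : ∑ v ∈ s, Mv v * (∑ k, ∑ j,
          if L.lab (P.a k) j = Lb.vert v then P.axisInt D H u k j else 0) =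
        ∑ k, ∑ j, ∑ v ∈ s, Mv v *
          (if L.lab (P.a k) j = Lb.vert v then P.axisInt D H u k j else 0) := by
      simp only [Finset.mul_sum]
      rw [Finset.sum_comm]
      refine Finset.sum_congr rfl (fun k _ => ?_)
      rw [Finset.sum_comm]
    rw [e3]
    simp only [Finset.mul_sum, ← Finset.sum_add_distrib]
    refine Finset.sum_congr rfl (fun k _ => Finset.sum_congr rfl (fun j _ => ?_))
    rcases hl : L.lab (P.a k) j with _ | _ | _ | v
    · simp [Lb.mult]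
    · obtain ⟨hk, hm⟩ := L.zero_k _ _ hl
      rw [axisInt_fix P D H u k j hk, hm]
      simp [Lb.mult]
    · obtain ⟨hk, hm⟩ := L.inf_k _ _ hl
      rw [axisInt_fix P D H u k j hk, hm]
      simp [Lb.mult]
    · have e4 : ∑ v' ∈ s, Mv v' *
          (if Lb.vert v = Lb.vert v' then P.axisInt D H u k j else 0) =
            Mv v * P.axisInt D H u k j := by
        by_cases hv : v ∈ s
        · rw [Finset.sum_eq_single v]
          · rw [if_pos rfl]
          · intro v' _ hne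
            rw [if_neg (fun h => hne (by injection h with h; exact h.symm)), mul_zero]
          · intro h
            exact absurd hv h
        · rw [hs v hv, zero_mul]
          refine Finset.sum_eq_zero (fun v' hv' => ?_)
          rw [if_neg (fun h => hv (by injection h with h; rw [h]; exact hv')), mul_zero]
      rw [e4]
      simp [Lb.mult]
  rw [key]

end PolAtlas

end

end Pool.Agent.YTDA


end

/- source: Pool.Agent.YTDA.SigF2 -/

section

/-!
# T13: the second residue identity (F2)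
-/

namespace Pool.Agent.YTDA

open Complex Set Topology Metric Filter ContDiff
open Pool.Agent.YTD

noncomputable section

namespace Sig

variable {K : Type} [Field K] [Algebra ℂ K] {T : Datum K}
variable {q : ℕ} {D₀ : T.X.Pt →₀ ℤ} {An : AnCurve T.X.toCurveOrd} {r : T.X.Pt → ℝ}

/-- `log H - log |u|² + 5 q log |w|²` -/
def f2 (q : ℕ) (H : YY T → ℝ) (y : YY T) : ℝ :=
  Real.log (H y) - Real.log (‖((y.u : ℂˣ) : ℂ)‖ ^ 2) +
    5 * q * Real.log (‖((wv y : ℂˣ) : ℂ)‖ ^ 2)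

theorem f2_smul (hr : IsRad D₀ An r) {H : YY T → ℝ} (hK : (preAtlas q hr).toAtlas.IsKahler H)
    (c : ℂˣ) (y : YY T) : f2 q H (c • y) = f2 q H y := by
  unfold f2
  have hc : (‖(c : ℂ)‖ ^ 2 : ℝ) ≠ 0 := pow_ne_zero _ (norm_ne_zero_iff.2 c.ne_zero)
  have hu : (‖((y.u : ℂˣ) : ℂ)‖ ^ 2 : ℝ) ≠ 0 :=
    pow_ne_zero _ (norm_ne_zero_iff.2 (Units.ne_zero _))
  rw [hK.hom, wv_smul, smul_u, Units.val_mul, norm_mul, mul_pow, Real.log_mul hc (hK.pos y).ne',
    Real.log_mul hc hu]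
  ring

/-- the function `f2` in the charts -/
theorem f2_ch (hr : IsRad D₀ An r) (H : YY T → ℝ) (a : T.X.Pt × Fin 3) {z : E 2}
    (hz : z ∈ UU r a) (h0 : z 0 ≠ 0) (h1 : z 1 ≠ 0) :
    f2 q H (ch q D₀ An a z) = (preAtlas q hr).toAtlas.pot H a z +
      ∑ j, (toLb An r (lab a j)).mult 0 (-10 * q) (mU q D₀) * Real.log (‖z j‖ ^ 2) := by
  obtain ⟨w0, hw0⟩ : ∃ w : ℂˣ, (w : ℂ) = z 0 := ⟨Units.mk0 _ h0, rfl⟩
  obtain ⟨w1, hw1⟩ : ∃ w : ℂˣ, (w : ℂ) = z 1 := ⟨Units.mk0 _ h1, rfl⟩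
  have hz2 : z = ![(w0 : ℂ), (w1 : ℂ)] := by rw [hw0, hw1, eta2]
  rw [Fin.sum_univ_two, ← u_mult hr a 0 hz, ← u_mult hr a 1 hz, ← hw0, ← hw1]
  unfold f2
  have e1 : (preAtlas q hr).toAtlas.pot H a z = Real.log (H (ch q D₀ An a z)) := rfl
  rw [e1, hz2, log_wv_ch, log_u_ch]
  push_cast
  ring

/-- the integrand of the residue theorem for `f2` -/
theorem resF_f2 (hr : IsRad D₀ An r) {H : YY T → ℝ} (hK : (preAtlas q hr).toAtlas.IsKahler H)
    (hinv : ∀ (c : ℂˣ) y, ‖(c : ℂ)‖ = 1 → H ((dAct q hr).act c y) = H y) (u : ℝ → ℝ)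
    (a : T.X.Pt × Fin 3) {z : E 2} (hz : z ∈ UU r a) :
    (preAtlas q hr).toAtlas.resF (dAct q hr) H u (fun a => (preAtlas q hr).toAtlas.pot H a)
      (fun a j => (toLb An r (lab a j)).mult 0 (-10 * q) (mU q D₀)) a z =
    (((2 * u ((preAtlas q hr).toAtlas.mu (dAct q hr) H a z) +
      ((preAtlas q hr).toAtlas.mu (dAct q hr) H a z + 5 * q) *
        deriv u ((preAtlas q hr).toAtlas.mu (dAct q hr) H a z)) *
        (preAtlas q hr).toAtlas.rho H a z : ℝ) : ℂ) := by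
  have h1 := PolAtlas.trC_pot (A := (preAtlas q hr).toAtlas) hK (a := a) hz
  have h2 := PolAtlas.wdzb_pot (A := (preAtlas q hr).toAtlas) hK (dAct q hr) hinv (a := a) hz
  have h3 : (∑ j, (toLb An r (lab a j)).mult 0 (-10 * q) (mU q D₀) *
      (((dAct q hr).k a j : ℤ) : ℝ)) = ((dAct q hr).m a : ℝ) + 5 * q := by
    have h4 : ∀ j, (toLb An r (lab a j)).mult 0 (-10 * q) (mU q D₀) *
        (((dAct q hr).k a j : ℤ) : ℝ) =
        (((-(eg q a j * kk a j) - D₀ a.1 * (es a j * kk a j) + 5 * q * (ew a j * kk a j)) : ℤ)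
          : ℝ) := by
      intro j
      rw [← u_mult hr a j hz]
      show _ * ((kk a j : ℤ) : ℝ) = _
      push_cast
      ring
    simp_rw [h4]
    rw [← Int.cast_sum, Finset.sum_add_distrib, Finset.sum_sub_distrib, Finset.sum_neg_distrib,
      ← Finset.mul_sum, ← Finset.mul_sum, sum_eg, sum_es, sum_ew]
    show _ = ((mm q a : ℤ) : ℝ) + 5 * q
    push_cast
    ring
  unfold PolAtlas.resF
  rw [h1, h3]
  have h5 : wdzb ((dAct q hr).k a) (fun w => (((preAtlas q hr).toAtlas.pot H a w : ℝ) : ℂ)) z =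
      ((preAtlas q hr).toAtlas.mu (dAct q hr) H a z : ℂ) - ((dAct q hr).m a : ℂ) := by
    rw [← h2]
    ring
  rw [h5]
  push_cast
  ring

/-- the finite set of vertical curves with nonzero multiplicity -/
def sV (hr : IsRad D₀ An r) : Finset (VL An r) :=
  open Classical in
  (D₀.support.attach.image fun Q => Sum.inl ⟨Q.1, isoPt_D hr (Finsupp.mem_support_iff.1 Q.2)⟩) ∪
    ((T.S.attach.image fun Q => Sum.inr ⟨Q.1, Or.inl Q.2⟩) ∪
      (T.S'.attach.image fun Q => Sum.inr ⟨Q.1, Or.inr Q.2⟩))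

theorem sum_sV (hr : IsRad D₀ An r) (g : VL An r → ℝ) (gD gE : T.X.Pt → ℝ)
    (hD : ∀ (Q : T.X.Pt) (h : IsoPt An r Q), g (Sum.inl ⟨Q, h⟩) = gD Q)
    (hE : ∀ (Q : T.X.Pt) (h : Exc T Q), g (Sum.inr ⟨Q, h⟩) = gE Q) :
    ∑ v ∈ sV hr, g v = ∑ Q ∈ D₀.support, gD Q + (∑ Q ∈ T.S, gE Q + ∑ Q ∈ T.S', gE Q) := by
  classical
  unfold sV
  rw [Finset.sum_union, Finset.sum_union, Finset.sum_image, Finset.sum_image, Finset.sum_image]
  · rw [← Finset.sum_attach D₀.support, ← Finset.sum_attach T.S, ← Finset.sum_attach T.S']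
    congr 1
    · exact Finset.sum_congr rfl fun Q _ => hD _ _
    · congr 1
      · exact Finset.sum_congr rfl fun Q _ => hE _ _
      · exact Finset.sum_congr rfl fun Q _ => hE _ _
  · intro Q _ Q' _ h
    have h1 : Q.1 = Q'.1 := by
      injection h with h2
      injection h2
    exact Subtype.ext h1
  · intro Q _ Q' _ h
    have h1 : Q.1 = Q'.1 := by
      injection h with h2
      injection h2
    exact Subtype.ext h1
  · intro Q _ Q' _ h
    have h1 : Q.1 = Q'.1 := by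
      injection h with h2
      injection h2
    exact Subtype.ext h1
  · rw [Finset.disjoint_left]
    intro v hv hv'
    rw [Finset.mem_image] at hv hv'
    obtain ⟨Q, _, rfl⟩ := hv
    obtain ⟨Q', _, h⟩ := hv'
    have h1 : Q'.1 = Q.1 := by
      injection h with h2
      injection h2
    exact Finset.disjoint_left.1 T.disj Q.2 (h1 ▸ Q'.2)
  · rw [Finset.disjoint_left]
    intro v hv hv'
    rw [Finset.mem_image] at hv
    obtain ⟨Q, _, rfl⟩ := hv
    rw [Finset.mem_union, Finset.mem_image, Finset.mem_image] at hv'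
    rcases hv' with ⟨Q', _, h⟩ | ⟨Q', _, h⟩ <;> cases h

theorem not_mem_sV (hr : IsRad D₀ An r) {v : VL An r} (hv : v ∉ sV hr) : mU q D₀ v = 0 := by
  classical
  rcases v with Q | Q
  · show -((D₀ Q.1 : ℤ) : ℝ) = 0
    have : D₀ Q.1 = 0 := by
      by_contra h
      apply hv
      unfold sV
      rw [Finset.mem_union, Finset.mem_image]
      exact Or.inl ⟨⟨Q.1, Finsupp.mem_support_iff.2 h⟩, Finset.mem_attach _ _, rfl⟩
    rw [this, Int.cast_zero, neg_zero]
  · exfalso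
    apply hv
    unfold sV
    simp only [Finset.mem_union, Finset.mem_image]
    rcases Q with ⟨Q, hQ | hQ⟩
    · exact Or.inr (Or.inl ⟨⟨Q, hQ⟩, Finset.mem_attach _ _, rfl⟩)
    · exact Or.inr (Or.inr ⟨⟨Q, hQ⟩, Finset.mem_attach _ _, rfl⟩)

/-- **F2**, given the residue theorem (M2) and the integrals over vertical curves (M3). -/
theorem F2_of (hr : IsRad D₀ An r) (P : (preAtlas q hr).toAtlas.Part) {H : YY T → ℝ}
    (hK : (preAtlas q hr).toAtlas.IsKahler H)
    (hinv : ∀ (c : ℂˣ) y, ‖(c : ℂ)‖ = 1 → H ((dAct q hr).act c y) = H y)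
    (hD0 : ∀ Q, Exc T Q → D₀ Q = 0) (hdeg : T.X.deg D₀ = 105 * T.t * q)
    (M2 : ∀ (F : YY T → ℝ) (_ : ∀ (c : ℂˣ) y, F (c • y) = F y)
      (G : (preAtlas q hr).toAtlas.ι → E 2 → ℝ)
      (_ : ∀ a, ContDiffOn ℝ ∞ (G a) ((preAtlas q hr).toAtlas.U a))
      (M : (preAtlas q hr).toAtlas.ι → Fin 2 → ℝ)
      (_ : ∀ a, ∀ z ∈ (preAtlas q hr).toAtlas.U a, z 0 ≠ 0 → z 1 ≠ 0 →
        F ((preAtlas q hr).toAtlas.γ a z) = G a z + ∑ j, M a j * Real.log (‖z j‖ ^ 2))
      (u : ℝ → ℝ) (_ : ContDiff ℝ ∞ u),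
      P.int ((preAtlas q hr).toAtlas.resF (dAct q hr) H u G M) =
        ((- Real.pi * ∑ k, ∑ j, M (P.a k) j * P.axisInt (dAct q hr) H u k j : ℝ) : ℂ))
    (M3 : ∀ (v : (labels q hr).V) (u : ℝ → ℝ), ContDiff ℝ ∞ u →
      P.labInt (dAct q hr) H (labels q hr).lab (Lb.vert v) u =
        Real.pi * ∫ x in ((labels q hr).mm v : ℝ)..((labels q hr).mp v : ℝ), u x)
    (u : ℝ → ℝ) (hu : ContDiff ℝ ∞ u) :
    P.dhI (dAct q hr) H (fun x => 2 * u x + (x + 5 * q) * deriv u x) = Real.pi ^ 2 *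
      (105 * T.t * q * (∫ x in (-(5 * (q : ℝ)))..(5 * q), u x) -
        q * (100 * T.t) * (∫ x in (-(5 * (q : ℝ)))..(-(4 * q)), u x) +
        9 * q * (100 * T.t) * (∫ x in (4 * (q : ℝ))..(5 * q), u x) +
        10 * q * (1 / Real.pi * P.labInt (dAct q hr) H (labels q hr).lab Lb.inf (fun _ => 1)) *
          u (5 * q)) := by
  have h1 := M2 (f2 q H) (f2_smul hr hK) (fun a => (preAtlas q hr).toAtlas.pot H a)
    (fun a => hK.smooth a)
    (fun a j => (toLb An r (lab a j)).mult 0 (-10 * q) (mU q D₀))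
    (fun a z hz h0 h1 => f2_ch hr H a hz h0 h1) u hu
  have h2 := PolAtlas.Part.res_lab_of P (dAct q hr) (labels q hr)
    (fun a => (preAtlas q hr).toAtlas.pot H a) 0 (-10 * q) (mU q D₀) (sV hr)
    (fun v hv => not_mem_sV hr hv) u h1 (fun v _ => M3 v u hu)
  have h3 : P.dhI (dAct q hr) H (fun x => 2 * u x + (x + 5 * q) * deriv u x) =
      (P.int ((preAtlas q hr).toAtlas.resF (dAct q hr) H u
        (fun a => (preAtlas q hr).toAtlas.pot H a)
        (fun a j => ((labels q hr).lab a j).mult 0 (-10 * q) (mU q D₀)))).re := by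
    unfold PolAtlas.Part.dhI
    congr 1
    unfold PolAtlas.Part.int
    refine Finset.sum_congr rfl fun k _ => ?_
    refine MeasureTheory.setIntegral_congr_fun
      ((preAtlas q hr).toAtlas.isOpen_U _).measurableSet fun z hz => ?_
    show P.X k (P.a k) z * _ = P.X k (P.a k) z * _
    congr 1
    exact (resF_f2 hr hK hinv u (P.a k) hz).symm
  refine h3.trans ((congrArg Complex.re h2).trans ?_)
  rw [ofReal_re]
  have hmi : (((labels q hr).mi : ℤ) : ℝ) = 5 * q := by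
    show ((5 * q : ℤ) : ℝ) = 5 * q
    push_cast
    ring
  have hsum : ∑ v ∈ sV hr, mU q D₀ v * (Real.pi *
      ∫ x in ((labels q hr).mm v : ℝ)..((labels q hr).mp v : ℝ), u x) =
      Real.pi * (-(105 * T.t * q) * (∫ x in (-(5 * (q : ℝ)))..(5 * q), u x) +
        q * (100 * T.t) * (∫ x in (-(5 * (q : ℝ)))..(-(4 * q)), u x) -
        9 * q * (100 * T.t) * (∫ x in (4 * (q : ℝ))..(5 * q), u x)) := by
    rw [sum_sV hr (fun v => mU q D₀ v * (Real.pi *
      ∫ x in ((labels q hr).mm v : ℝ)..((labels q hr).mp v : ℝ), u x))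
      (fun Q => -D₀ Q * (Real.pi * ∫ x in (loF T q Q : ℝ)..(hiF T q Q : ℝ), u x))
      (fun Q => (5 * q * sg (sd T Q) - 4 * q - D₀ Q) *
        (Real.pi * ∫ x in (loE T q Q : ℝ)..(hiE T q Q : ℝ), u x))
      (fun Q h => rfl) (fun Q h => rfl)]
    have e1 : ∑ Q ∈ D₀.support, -((D₀ Q : ℤ) : ℝ) *
        (Real.pi * ∫ x in (loF T q Q : ℝ)..(hiF T q Q : ℝ), u x) =
        -(105 * T.t * q) * (Real.pi * ∫ x in (-(5 * (q : ℝ)))..(5 * q), u x) := by
      have e2 : ∀ Q ∈ D₀.support, -((D₀ Q : ℤ) : ℝ) *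
          (Real.pi * ∫ x in (loF T q Q : ℝ)..(hiF T q Q : ℝ), u x) =
          -((D₀ Q : ℤ) : ℝ) * (Real.pi * ∫ x in (-(5 * (q : ℝ)))..(5 * q), u x) := by
        intro Q hQ
        have hE : ¬ Exc T Q := fun h => Finsupp.mem_support_iff.1 hQ (hD0 Q h)
        have hl : ((loF T q Q : ℤ) : ℝ) = -(5 * q) := by
          unfold loF
          rw [if_neg fun h => hE h.1]
          push_cast
          ring
        have hh : ((hiF T q Q : ℤ) : ℝ) = 5 * q := by
          unfold hiF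
          rw [if_neg fun h => hE h.1]
          push_cast
          ring
        rw [hl, hh]
      rw [Finset.sum_congr rfl e2, ← Finset.sum_mul, Finset.sum_neg_distrib, ← Int.cast_sum]
      have e3 : (∑ Q ∈ D₀.support, D₀ Q) = 105 * T.t * q := hdeg
      rw [e3]
      push_cast
      ring
    have e4 : ∑ Q ∈ T.S, ((5 * q * sg (sd T Q) - 4 * q - D₀ Q : ℝ)) *
        (Real.pi * ∫ x in (loE T q Q : ℝ)..(hiE T q Q : ℝ), u x) =
        (100 * T.t) * (-(9 * q) * (Real.pi * ∫ x in (4 * (q : ℝ))..(5 * q), u x)) := by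
      have e5 : ∀ Q ∈ T.S, ((5 * q * sg (sd T Q) - 4 * q - D₀ Q : ℝ)) *
          (Real.pi * ∫ x in (loE T q Q : ℝ)..(hiE T q Q : ℝ), u x) =
          -(9 * q) * (Real.pi * ∫ x in (4 * (q : ℝ))..(5 * q), u x) := by
        intro Q hQ
        have hb : ¬ Bl T false Q := fun h => not_S_of_S' (bl_false.1 h) hQ
        have hl : ((loE T q Q : ℤ) : ℝ) = 4 * q := by
          unfold loE
          rw [if_neg hb]
          push_cast
          ring
        have hh : ((hiE T q Q : ℤ) : ℝ) = 5 * q := by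
          unfold hiE
          rw [if_neg hb]
          push_cast
          ring
        rw [hl, hh, hD0 Q (Or.inl hQ), sd_true hQ]
        show (5 * q * ((-1 : ℤ) : ℝ) - 4 * q - ((0 : ℤ) : ℝ)) * _ = _
        push_cast
        ring
      rw [Finset.sum_congr rfl e5, Finset.sum_const, T.card_S, nsmul_eq_mul]
      push_cast
      ring
    have e6 : ∑ Q ∈ T.S', ((5 * q * sg (sd T Q) - 4 * q - D₀ Q : ℝ)) *
        (Real.pi * ∫ x in (loE T q Q : ℝ)..(hiE T q Q : ℝ), u x) =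
        (100 * T.t) * (q * (Real.pi * ∫ x in (-(5 * (q : ℝ)))..(-(4 * q)), u x)) := by
      have e7 : ∀ Q ∈ T.S', ((5 * q * sg (sd T Q) - 4 * q - D₀ Q : ℝ)) *
          (Real.pi * ∫ x in (loE T q Q : ℝ)..(hiE T q Q : ℝ), u x) =
          q * (Real.pi * ∫ x in (-(5 * (q : ℝ)))..(-(4 * q)), u x) := by
        intro Q hQ
        have hb : Bl T false Q := bl_false.2 hQ
        have hl : ((loE T q Q : ℤ) : ℝ) = -(5 * q) := by
          unfold loE
          rw [if_pos hb]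
          push_cast
          ring
        have hh : ((hiE T q Q : ℤ) : ℝ) = -(4 * q) := by
          unfold hiE
          rw [if_pos hb]
          push_cast
          ring
        rw [hl, hh, hD0 Q (Or.inr hQ), sd_false (not_S_of_S' hQ)]
        show (5 * q * ((1 : ℤ) : ℝ) - 4 * q - ((0 : ℤ) : ℝ)) * _ = _
        push_cast
        ring
      rw [Finset.sum_congr rfl e7, Finset.sum_const, T.card_S', nsmul_eq_mul]
      push_cast
      ring
    rw [e1, e4, e6]
    ring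
  change -Real.pi * (0 * (u ((labels q hr).m0 : ℝ) *
    P.labInt (dAct q hr) H (labels q hr).lab Lb.zero (fun _ => 1)) +
    -10 * q * (u ((labels q hr).mi : ℝ) *
      P.labInt (dAct q hr) H (labels q hr).lab Lb.inf (fun _ => 1)) +
    ∑ v ∈ sV hr, mU q D₀ v * (Real.pi *
      ∫ x in ((labels q hr).mm v : ℝ)..((labels q hr).mp v : ℝ), u x)) = _
  rw [hsum, hmi]
  have hpi : Real.pi ≠ 0 := Real.pi_ne_zero
  field_simp
  ring

end Sig

end

end Pool.Agent.YTDA


end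

/- source: Pool.Agent.YTDA.SigFalse -/

section

/-!
# T13: the residue identities on the concrete surface
-/

set_option autoImplicit false

namespace Pool.Agent.YTDA

open Complex Set Topology ContDiff Filter Metric MeasureTheory
open Pool.Agent.YTD

noncomputable section

/-! ### The residue theorem with labels -/

namespace PolAtlas

variable {Y : Type} [MulAction ℂˣ Y] {A : PolAtlas 2 Y}

/-- **M4** -/
theorem Part.res_labels (P : A.Part) (D : A.DAct) {H : Y → ℝ} (hK : A.IsKahler H)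
    (hinv : ∀ (c : ℂˣ) y, ‖(c : ℂ)‖ = 1 → H (D.act c y) = H y) (L : Labels A D)
    (F : Y → ℝ) (hF : ∀ (c : ℂˣ) y, F (c • y) = F y)
    (G : A.ι → E 2 → ℝ) (hG : ∀ a, ContDiffOn ℝ ∞ (G a) (A.U a))
    (M0 Mi : ℝ) (Mv : L.V → ℝ) (s : Finset L.V) (hs : ∀ v ∉ s, Mv v = 0)
    (hFG : ∀ a, ∀ z ∈ A.U a, z 0 ≠ 0 → z 1 ≠ 0 →
      F (A.γ a z) = G a z + ∑ j, (L.lab a j).mult M0 Mi Mv * Real.log (‖z j‖ ^ 2))
    (u : ℝ → ℝ) (hu : ContDiff ℝ ∞ u) :
    P.int (A.resF D H u G (fun a j => (L.lab a j).mult M0 Mi Mv)) =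
      ((- Real.pi * (M0 * (u L.m0 * P.labInt D H L.lab Lb.zero (fun _ => 1)) +
        Mi * (u L.mi * P.labInt D H L.lab Lb.inf (fun _ => 1)) +
        ∑ v ∈ s, Mv v * (Real.pi * ∫ x in (L.mm v : ℝ)..(L.mp v : ℝ), u x)) : ℝ) : ℂ) :=
  P.res_lab_of D L G M0 Mi Mv s hs u
    (P.res D hK hinv F hF G hG (fun a j => (L.lab a j).mult M0 Mi Mv) hFG u hu)
    (fun v _ => P.vert_int D hK hinv L v u hu)

/-- the residue theorem for smooth functions -/
theorem Part.res_smooth (P : A.Part) (D : A.DAct) {H : Y → ℝ} (hK : A.IsKahler H)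
    (hinv : ∀ (c : ℂˣ) y, ‖(c : ℂ)‖ = 1 → H (D.act c y) = H y)
    (G : A.ι → E 2 → ℝ) (hG : ∀ a, ContDiffOn ℝ ∞ (G a) (A.U a))
    (hGG : ∀ a b, ∀ z ∈ A.U a, ∀ z' ∈ A.U b, ∀ c : ℂˣ, A.γ b z' = c • A.γ a z →
      G b z' = G a z) (u : ℝ → ℝ) (hu : ContDiff ℝ ∞ u) :
    P.int (A.resF D H u G (fun _ _ => 0)) = 0 := by
  obtain ⟨F, hF, hF'⟩ := f3_glue (A := A) G (fun _ => True)
    (fun a b z hz z' hz' _ _ c h => hGG a b z hz z' hz' c h)
  rw [P.res D hK hinv F hF G hG (fun _ _ => 0) (fun a z hz _ _ => by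
    rw [hF' a z hz trivial]
    simp) u hu]
  simp

end PolAtlas

namespace Sig

variable {K : Type} [Field K] [Algebra ℂ K] {T : Datum K} {q : ℕ} {D₀ : T.X.Pt →₀ ℤ}
  {An : AnCurve T.X.toCurveOrd} {r : T.X.Pt → ℝ} {x₀ : K} {d : T.X.Pt →₀ ℤ}

/-! ### F3 -/

/-- multiplicities of the volume form on the vertical curves -/
def mV (d : T.X.Pt →₀ ℤ) : VL An r → ℝ
  | .inl Q => -(d Q.1 : ℝ)
  | .inr _ => 0

theorem isoPt_d (hiso : ∀ P, ∀ s ∈ ball (0 : ℂ) (r P), s ≠ 0 → d (An.c P s) = 0) {Q : T.X.Pt}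
    (hQ : d Q ≠ 0) : IsoPt An r Q := by
  intro P s hs h0 he
  apply hQ
  rw [← he]
  exact hiso P s hs h0

theorem mV_mult (hiso : ∀ P, ∀ s ∈ ball (0 : ℂ) (r P), s ≠ 0 → d (An.c P s) = 0)
    (hdS : ∀ P ∈ T.S, d P = 0) (hdS' : ∀ P ∈ T.S', d P = 0) :
    ∀ (a : T.X.Pt × Fin 3), (UU r a).Nonempty → ∀ j,
      (toLb An r (lab a j)).mult 1 1 (mV d) = SigModel.mF d a.1 a.2 j := by
  have hw : ∀ Q, (toLb An r (.fi Q)).mult 1 1 (mV d) = -(d Q : ℝ) := by
    intro Q
    by_cases h : IsoPt An r Q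
    · rw [toLb_fi h]
      rfl
    · rw [toLb_fi' h]
      have h0 : d Q = 0 := by
        by_contra h1
        exact h (isoPt_d hiso h1)
      rw [h0, Int.cast_zero, neg_zero]
      rfl
  have hx : ∀ Q, Exc T Q → (toLb An r (.ex Q)).mult 1 1 (mV d) = 0 := by
    intro Q h
    rw [toLb_ex h]
    rfl
  have hh : ∀ σ, (toLb An r (hor T σ)).mult 1 1 (mV d) = 1 := by
    intro σ
    cases σ <;> rfl
  have hd0 : ∀ P, Exc T P → d P = 0 := by
    rintro P (h | h)
    · exact hdS P h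
    · exact hdS' P h
  have hei : ∀ σ : Bool, ei σ ≠ 2 := by
    intro σ h
    cases σ <;> cases h
  apply chart_types'
  · intro P σ hb _ j
    rw [lab_pc hb]
    show _ = SigModel.mF d P (ei σ) j
    unfold SigModel.mF
    rw [if_neg (hei σ)]
    fin_cases j
    · exact hw P
    · exact hh σ
  · intro P σ hb _ j
    rw [lab_bl hb]
    show _ = SigModel.mF d P (ei σ) j
    unfold SigModel.mF
    rw [if_neg (hei σ)]
    fin_cases j
    · show (toLb An r (.ex P)).mult 1 1 (mV d) = -(d P : ℝ)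
      rw [hx P hb.1, hd0 P hb.1, Int.cast_zero, neg_zero]
    · exact hh σ
  · intro P hP _ j
    rw [lab_two hP]
    show _ = SigModel.mF d P 2 j
    unfold SigModel.mF
    rw [if_pos rfl]
    fin_cases j
    · exact hx P hP
    · show (toLb An r (.fi P)).mult 1 1 (mV d) = 0
      rw [hw, hd0 P hP, Int.cast_zero, neg_zero]
  · rintro P hP ⟨z, hz⟩
    rw [UU_two] at hz
    exact (hP hz.1).elim

theorem mV_vert (hd : ∀ P, Exc T P → d P = 0) (v : VL An r) (hv : mV d v ≠ 0) :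
    loV q v = -(5 * q) ∧ hiV q v = 5 * q := by
  rcases v with Q | Q
  · have h0 : d Q.1 ≠ 0 := by
      intro h
      apply hv
      show -(d Q.1 : ℝ) = 0
      rw [h, Int.cast_zero, neg_zero]
    have hb : ∀ σ, ¬ Bl T σ Q.1 := fun σ h => h0 (hd _ h.1)
    constructor
    · show loF T q Q.1 = _
      unfold loF
      rw [if_neg (hb false)]
      ring
    · show hiF T q Q.1 = _
      unfold hiF
      rw [if_neg (hb true)]
  · exact (hv rfl).elim

open Classical in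
/-- the vertical curves with non-zero multiplicity -/
def sVd (hiso : ∀ P, ∀ s ∈ ball (0 : ℂ) (r P), s ≠ 0 → d (An.c P s) = 0) :
    Finset (VL An r) :=
  d.support.attach.image fun Q => Sum.inl ⟨Q.1, isoPt_d hiso (Finsupp.mem_support_iff.1 Q.2)⟩

theorem sVd_zero (hiso : ∀ P, ∀ s ∈ ball (0 : ℂ) (r P), s ≠ 0 → d (An.c P s) = 0)
    (v : VL An r) (hv : v ∉ sVd hiso) : mV d v = 0 := by
  classical
  rcases v with Q | Q
  · by_contra h
    apply hv
    unfold sVd
    have h0 : d Q.1 ≠ 0 := by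
      intro h'
      apply h
      show -(d Q.1 : ℝ) = 0
      rw [h', Int.cast_zero, neg_zero]
    rw [Finset.mem_image]
    exact ⟨⟨Q.1, Finsupp.mem_support_iff.2 h0⟩, Finset.mem_attach _ _, rfl⟩
  · rfl

theorem sum_mV (hiso : ∀ P, ∀ s ∈ ball (0 : ℂ) (r P), s ≠ 0 → d (An.c P s) = 0) :
    ∑ v ∈ sVd hiso, mV d v = -(T.X.deg d : ℝ) := by
  classical
  unfold sVd
  rw [Finset.sum_image]
  · show ∑ Q ∈ d.support.attach, -(d Q.1 : ℝ) = _
    rw [Finset.sum_attach d.support (fun Q => -(d Q : ℝ)), Finset.sum_neg_distrib]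
    have e2 : T.X.deg d = ∑ P ∈ d.support, d P := rfl
    rw [e2]
    push_cast
    rfl
  · intro a _ b _ h
    have h1 := Subtype.mk.inj (Sum.inl.inj h)
    exact Subtype.ext h1

/-! ### F1 -/

theorem ew_wm (a : T.X.Pt × Fin 3) (j : Fin 2) (h : a.2 = 2 → Exc T a.1) :
    ((ew a j : ℤ) : ℝ) = wm T a.1 a.2 j := by
  obtain ⟨P, i⟩ := a
  unfold ew wm
  fin_cases i
  · by_cases hP : P ∈ T.S'
    · have hb : Bl T false P := bl_false.2 hP
      fin_cases j <;> simp [side, ev, sg, hb, hP]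
    · have hb : ¬ Bl T false P := fun h' => hP (bl_false.1 h')
      fin_cases j <;> simp [side, ev, sg, hb, hP]
  · by_cases hP : P ∈ T.S
    · have hb : Bl T true P := bl_true.2 hP
      fin_cases j <;> simp [side, ev, sg, hb, hP]
    · have hb : ¬ Bl T true P := fun h' => hP (bl_true.1 h')
      fin_cases j <;> simp [side, ev, sg, hb, hP]
  · by_cases hP : P ∈ T.S
    · have hb : sd T P = true := sd_true hP
      fin_cases j <;> simp [side, ev, sg, hb, hP]
    · have hb : sd T P = false := sd_false hP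
      fin_cases j <;> simp [side, ev, sg, hb, hP]

open Classical in
variable (An r) in
/-- the exceptional curves over a set of points -/
def sE (S : Finset T.X.Pt) (hS : ∀ P ∈ S, Exc T P) : Finset (VL An r) :=
  S.attach.image fun Q => Sum.inr ⟨Q.1, hS Q.1 Q.2⟩

theorem mem_sE {S : Finset T.X.Pt} {hS : ∀ P ∈ S, Exc T P} {v : VL An r} :
    v ∈ sE An r S hS ↔ ∃ (P : T.X.Pt) (hP : P ∈ S), v = Sum.inr ⟨P, hS P hP⟩ := by
  classical
  unfold sE
  rw [Finset.mem_image]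
  constructor
  · rintro ⟨Q, _, rfl⟩
    exact ⟨Q.1, Q.2, rfl⟩
  · rintro ⟨P, hP, rfl⟩
    exact ⟨⟨P, hP⟩, Finset.mem_attach _ _, rfl⟩

theorem sum_sE {S : Finset T.X.Pt} {hS : ∀ P ∈ S, Exc T P} (g : VL An r → ℝ) (c : ℝ)
    (hg : ∀ P (hP : P ∈ S), g (Sum.inr ⟨P, hS P hP⟩) = c) :
    ∑ v ∈ sE An r S hS, g v = S.card * c := by
  classical
  unfold sE
  rw [Finset.sum_image]
  · rw [Finset.sum_congr rfl (fun Q _ => hg Q.1 Q.2), Finset.sum_const, Finset.card_attach,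
      nsmul_eq_mul]
  · intro a _ b _ h
    have h1 := Subtype.mk.inj (Sum.inr.inj h)
    exact Subtype.ext h1

theorem wm_mult {P : T.X.Pt} {i : Fin 3} {j : Fin 2} (h : (UU r (P, i)).Nonempty) :
    (toLb An r (lab (P, i) j)).mult 1 (-1) mW = wm T P i j := by
  obtain ⟨z, hz⟩ := h
  rw [← ew_mult (P, i) j hz]
  refine ew_wm (P, i) j fun hi => ?_
  have hi' : i = 2 := hi
  subst hi'
  rw [UU_two] at hz
  exact hz.1

variable (T) in
theorem exc_S : ∀ P ∈ T.S, Exc T P := fun _ h => Or.inl h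

variable (T) in
theorem exc_S' : ∀ P ∈ T.S', Exc T P := fun _ h => Or.inr h

variable (An r) in
open Classical in
/-- the exceptional curves -/
def sW : Finset (VL An r) := sE An r T.S (exc_S T) ∪ sE An r T.S' (exc_S' T)

theorem mem_sW (Q : {Q : T.X.Pt // Exc T Q}) : (Sum.inr Q : VL An r) ∈ sW An r := by
  classical
  unfold sW
  rw [Finset.mem_union, mem_sE, mem_sE]
  obtain ⟨Q, h | h⟩ := Q
  · exact Or.inl ⟨Q, h, rfl⟩
  · exact Or.inr ⟨Q, h, rfl⟩

theorem sW_zero (v : VL An r) (hv : v ∉ sW An r) : mW v = 0 := by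
  rcases v with Q | Q
  · rfl
  · exact (hv (mem_sW Q)).elim

theorem disj_sE : Disjoint (sE An r T.S (exc_S T)) (sE An r T.S' (exc_S' T)) := by
  rw [Finset.disjoint_left]
  intro v h1 h2
  rw [mem_sE] at h1 h2
  obtain ⟨P, hP, rfl⟩ := h1
  obtain ⟨P', hP', h⟩ := h2
  have h3 : P = P' := congrArg Subtype.val (Sum.inr.inj h)
  subst h3
  exact Finset.disjoint_left.1 T.disj hP hP'

theorem sum_sW (g : VL An r → ℝ) (c c' : ℝ)
    (hg : ∀ P (hP : P ∈ T.S), g (Sum.inr ⟨P, exc_S T P hP⟩) = c)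
    (hg' : ∀ P (hP : P ∈ T.S'), g (Sum.inr ⟨P, exc_S' T P hP⟩) = c') :
    ∑ v ∈ sW An r, g v = 100 * T.t * (c + c') := by
  classical
  unfold sW
  rw [Finset.sum_union disj_sE, sum_sE g c hg, sum_sE g c' hg', T.card_S, T.card_S']
  push_cast
  ring

theorem loV_S {P : T.X.Pt} (h : P ∈ T.S) : loV q (Sum.inr ⟨P, exc_S T P h⟩ : VL An r) = 4 * q := by
  show loE T q P = _
  unfold loE
  rw [if_neg]
  intro hb
  exact Finset.disjoint_left.1 T.disj h (bl_false.1 hb)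

theorem hiV_S {P : T.X.Pt} (h : P ∈ T.S) : hiV q (Sum.inr ⟨P, exc_S T P h⟩ : VL An r) = 5 * q := by
  show hiE T q P = _
  unfold hiE
  rw [if_neg]
  intro hb
  exact Finset.disjoint_left.1 T.disj h (bl_false.1 hb)

theorem loV_S' {P : T.X.Pt} (h : P ∈ T.S') :
    loV q (Sum.inr ⟨P, exc_S' T P h⟩ : VL An r) = -(5 * q) := by
  show loE T q P = _
  unfold loE
  rw [if_pos (bl_false.2 h)]
  ring

theorem hiV_S' {P : T.X.Pt} (h : P ∈ T.S') :
    hiV q (Sum.inr ⟨P, exc_S' T P h⟩ : VL An r) = -(4 * q) := by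
  show hiE T q P = _
  unfold hiE
  rw [if_pos (bl_false.2 h)]
  ring

theorem mW_S {P : T.X.Pt} (h : P ∈ T.S) : mW (Sum.inr ⟨P, exc_S T P h⟩ : VL An r) = -1 := by
  show ((sg (sd T P) : ℤ) : ℝ) = -1
  rw [sd_true h]
  show ((-1 : ℤ) : ℝ) = -1
  norm_num

theorem mW_S' {P : T.X.Pt} (h : P ∈ T.S') : mW (Sum.inr ⟨P, exc_S' T P h⟩ : VL An r) = 1 := by
  show ((sg (sd T P) : ℤ) : ℝ) = 1
  rw [sd_false (not_S_of_S' h)]
  show ((1 : ℤ) : ℝ) = 1
  norm_num

end Sig

open Sig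

section Main

variable {K : Type} [Field K] [Algebra ℂ K] {T : Datum K} {q : ℕ} {D₀ : T.X.Pt →₀ ℤ}
  {An : AnCurve T.X.toCurveOrd} {r : T.X.Pt → ℝ} {x₀ : K} {d : T.X.Pt →₀ ℤ}

/-- **F3** -/
theorem sig_f3 (hr : IsRad D₀ An r) (Q : (sigModelOf T q D₀ An hr).A.Part)
    {H : (sigModelOf T q D₀ An hr).Y → ℝ} {s : ℂ}
    (hd : (sigModelOf T q D₀ An hr).DiffHyp x₀ d) (hdeg : T.X.deg d = 2 * T.X.genus - 2)
    (hK : (sigModelOf T q D₀ An hr).A.IsKahler H)
    (hp : (sigModelOf T q D₀ An hr).A.IsPde (sigModelOf T q D₀ An hr).D q s H)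
    {f : ℝ → ℝ} (hf : ContDiff ℝ ∞ f) :
    Q.dhL (sigModelOf T q D₀ An hr).D H q (deriv (deriv f)) +
        s.re * Q.dhI (sigModelOf T q D₀ An hr).D H (fun x => f x * PP q x) =
      100 * q * Q.dhI (sigModelOf T q D₀ An hr).D H f + Real.pi ^ 2 *
        (f (-(5 * q)) * PP q (-(5 * q)) *
            (1 / Real.pi * Q.labInt (sigModelOf T q D₀ An hr).D H (labels q hr).lab Lb.zero
              (fun _ => 1)) +
          f (5 * q) * PP q (5 * q) *
            (1 / Real.pi * Q.labInt (sigModelOf T q D₀ An hr).D H (labels q hr).lab Lb.inf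
              (fun _ => 1)) -
        18 * T.t * (∫ x in (-(5 * q) : ℝ)..(5 * q : ℝ), f x * PP q x)) := by
  have hd0 : ∀ P, Exc T P → d P = 0 := by
    rintro P (h | h)
    · exact hd.S P h
    · exact hd.S' P h
  refine SigModel.f3_target Q hd hK hp (labels q hr) (mV d) (sVd hd.iso) (sVd_zero hd.iso) T.t
    ?_ rfl rfl ?_ ?_ ?_ hf
  · intro P i j hne
    exact mV_mult hd.iso hd.S hd.S' (P, i) hne j
  · intro u _
    have h1 : ∀ v ∈ sVd hd.iso, mV d v * (Real.pi * ∫ x in ((loV q v : ℤ) : ℝ)..((hiV q v : ℤ) : ℝ), u x) =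
        mV d v * (Real.pi * ∫ x in (-(5 * q) : ℝ)..(5 * q : ℝ), u x) := by
      intro v _
      by_cases hv : mV d v = 0
      · rw [hv, zero_mul, zero_mul]
      · obtain ⟨e1, e2⟩ := mV_vert (q := q) hd0 v hv
        rw [e1, e2]
        push_cast
        rfl
    refine (Finset.sum_congr rfl h1).trans ?_
    rw [← Finset.sum_mul, sum_mV, hdeg, T.genus_eq]
    push_cast
    ring
  · intro G hG hGG u hu
    exact Q.res_smooth _ hK hp.inv G hG hGG u hu
  · intro F hF G hG hFG u hu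
    exact Q.res_labels _ hK hp.inv (labels q hr) F hF G hG 1 1 (mV d) (sVd hd.iso)
      (sVd_zero hd.iso) hFG u hu

theorem f1_alg {p a0 ai u0 ui S I J t : ℝ} (hp : p ≠ 0)
    (h : S = 100 * t * (-1 * (p * J) + 1 * (p * I))) :
    -p * (1 * (u0 * a0) + -1 * (ui * ai) + S) =
      p ^ 2 * (-u0 * (1 / p * a0) + ui * (1 / p * ai) - 100 * t * I + 100 * t * J) := by
  rw [h]
  field_simp
  ring

/-- **F1** -/
theorem sig_f1 (hr : IsRad D₀ An r) (Q : (sigModelOf T q D₀ An hr).A.Part)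
    {H : (sigModelOf T q D₀ An hr).Y → ℝ}
    (hK : (sigModelOf T q D₀ An hr).A.IsKahler H)
    (hinv : ∀ (c : ℂˣ) y, ‖(c : ℂ)‖ = 1 → H ((sigModelOf T q D₀ An hr).D.act c y) = H y)
    {u : ℝ → ℝ} (hu : ContDiff ℝ ∞ u) :
    Q.dhI (sigModelOf T q D₀ An hr).D H (deriv u) = Real.pi ^ 2 *
      (-u (-(5 * q)) *
            (1 / Real.pi * Q.labInt (sigModelOf T q D₀ An hr).D H (labels q hr).lab Lb.zero
              (fun _ => 1)) +
        u (5 * q) *
            (1 / Real.pi * Q.labInt (sigModelOf T q D₀ An hr).D H (labels q hr).lab Lb.inf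
              (fun _ => 1)) -
        100 * T.t * (∫ x in (-(5 * q) : ℝ)..(-(4 * q) : ℝ), u x) +
        100 * T.t * (∫ x in (4 * q : ℝ)..(5 * q : ℝ), u x)) := by
  refine (SigModel.f1 (sigModelOf T q D₀ An hr) Q (labels q hr) mW (sW An r)
    (fun P i j hne => wm_mult hne) u _
    (Q.res_labels _ hK hinv (labels q hr) (sigModelOf T q D₀ An hr).lw
      (sigModelOf T q D₀ An hr).lw_smul (fun _ _ => 0) (fun _ => contDiffOn_const) 1 (-1) mW
      (sW An r) sW_zero ?_ u hu)).trans ?_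
  · rintro ⟨P, i⟩ z hz h0 h1
    refine ((sigModelOf T q D₀ An hr).lw_γ (P := P) (i := i) hz h0 h1).trans ?_
    rw [log_wco P i h0 h1, zero_add]
    refine Finset.sum_congr rfl fun j _ => ?_
    have h := wm_mult (An := An) (P := P) (i := i) (j := j) (r := r) ⟨z, hz⟩
    rw [← h]
    rfl
  · have e0 : (((-5 * (q : ℤ) : ℤ)) : ℝ) = -(5 * (q : ℝ)) := by push_cast; ring
    have e1 : (((5 * (q : ℤ) : ℤ)) : ℝ) = 5 * (q : ℝ) := by push_cast; ring
    have hm0 : (labels q hr).m0 = -5 * q := rfl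
    have hmi : (labels q hr).mi = 5 * q := rfl
    rw [hm0, hmi, e0, e1]
    have hsum := sum_sW (An := An) (r := r) (fun v => mW v *
      (Real.pi * ∫ x in ((loV q v : ℤ) : ℝ)..((hiV q v : ℤ) : ℝ), u x))
      (-1 * (Real.pi * ∫ x in (4 * q : ℝ)..(5 * q : ℝ), u x))
      (1 * (Real.pi * ∫ x in (-(5 * q) : ℝ)..(-(4 * q) : ℝ), u x))
      (fun P hP => by
        show mW _ * (Real.pi * ∫ x in ((loV q _ : ℤ) : ℝ)..((hiV q _ : ℤ) : ℝ), u x) = _
        rw [mW_S hP, loV_S hP, hiV_S hP]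
        push_cast
        rfl)
      (fun P hP => by
        show mW _ * (Real.pi * ∫ x in ((loV q _ : ℤ) : ℝ)..((hiV q _ : ℤ) : ℝ), u x) = _
        rw [mW_S' hP, loV_S' hP, hiV_S' hP]
        push_cast
        rfl)
    exact f1_alg Real.pi_ne_zero hsum

theorem mm_bound (a : T.X.Pt × Fin 3) : 4 * (q : ℝ) ≤ |((mm q a : ℤ) : ℝ)| := by
  revert a
  have hq : (0 : ℝ) ≤ q := Nat.cast_nonneg q
  apply chart_cases
  · intro P σ
    rw [mm_ei']
    cases σ
    · show 4 * (q : ℝ) ≤ |((-(5 * q * 1) : ℤ) : ℝ)|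
      push_cast
      rw [mul_one, abs_neg, abs_of_nonneg (by linarith)]
      linarith
    · show 4 * (q : ℝ) ≤ |((-(5 * q * -1) : ℤ) : ℝ)|
      push_cast
      rw [mul_neg, mul_one, neg_neg, abs_of_nonneg (by linarith)]
      linarith
  · intro P
    rw [mm_two']
    cases sd T P
    · show 4 * (q : ℝ) ≤ |((-(4 * q * 1) : ℤ) : ℝ)|
      push_cast
      rw [mul_one, abs_neg, abs_of_nonneg (by linarith)]
    · show 4 * (q : ℝ) ≤ |((-(4 * q * -1) : ℤ) : ℝ)|
      push_cast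
      rw [mul_neg, mul_one, neg_neg, abs_of_nonneg (by linarith)]

/-- **T13**: the equation has no solution on `Σ`. -/
theorem sigOf_false (hr : IsRad D₀ An r) (hq : 0 < q) (hD : T.X.deg D₀ = 105 * T.t * q)
    (hS : ∀ P ∈ T.S, D₀ P = 0) (hS' : ∀ P ∈ T.S', D₀ P = 0)
    (hd : (sigModelOf T q D₀ An hr).DiffHyp x₀ d) (hdeg : T.X.deg d = 2 * T.X.genus - 2)
    {H : (sigModelOf T q D₀ An hr).Y → ℝ} {s : ℂ}
    (hK : (sigModelOf T q D₀ An hr).A.IsKahler H)
    (hp : (sigModelOf T q D₀ An hr).A.IsPde (sigModelOf T q D₀ An hr).D q s H) : False := by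
  obtain ⟨Q⟩ := PolAtlas.exists_part (sigModelOf T q D₀ An hr).cpt (sigModelOf T q D₀ An hr).t2
  have hE : ∀ Q, Exc T Q → D₀ Q = 0 := by
    rintro P (h | h)
    · exact hS P h
    · exact hS' P h
  have hinv := hp.inv
  have ht : (0 : ℝ) < T.t := by exact_mod_cast T.t_pos
  have hq' : (0 : ℝ) < q := by exact_mod_cast hq
  refine Q.t13_of (sigModelOf T q D₀ An hr).D (H := H) (q := (q : ℝ)) (t := (T.t : ℝ)) hq' ht hK
    (fun a _ => mm_bound a) s.re
    (1 / Real.pi * Q.labInt (sigModelOf T q D₀ An hr).D H (labels q hr).lab Lb.zero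
      (fun _ => 1))
    (1 / Real.pi * Q.labInt (sigModelOf T q D₀ An hr).D H (labels q hr).lab Lb.inf
      (fun _ => 1))
    (fun u hu => sig_f1 hr Q hK hinv hu)
    (fun u hu => F2_of hr Q hK hinv hE hD
      (fun F hF G hG M hFG u hu => Q.res (dAct q hr) hK hinv F hF G hG M hFG u hu)
      (fun v u hu => Q.vert_int (dAct q hr) hK hinv (labels q hr) v u hu) u hu)
    (fun f hf => sig_f3 hr Q hd hdeg hK hp hf)

/-- **T13** for the canonical radii. -/
theorem sig_false (hq : 0 < q) (hD : T.X.deg D₀ = 105 * T.t * q)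
    (hS : ∀ P ∈ T.S, D₀ P = 0) (hS' : ∀ P ∈ T.S', D₀ P = 0)
    (hd : ∀ P, meromorphicOrderAt (deriv (An.fn P x₀)) 0 = ((d P : ℤ) : WithTop ℤ))
    (hiso : ∀ P, ∀ s ∈ ball (0 : ℂ) ((sigModel T q D₀ An).r P), s ≠ 0 → d (An.c P s) = 0)
    (hdeg : T.X.deg d = 2 * T.X.genus - 2)
    (hdS : ∀ P ∈ T.S, d P = 0) (hdS' : ∀ P ∈ T.S', d P = 0)
    {H : (sigModel T q D₀ An).Y → ℝ} {s : ℂ} (hK : (sigModel T q D₀ An).A.IsKahler H)
    (hp : (sigModel T q D₀ An).A.IsPde (sigModel T q D₀ An).D q s H) : False :=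
  sigOf_false (isRad_rad D₀ An) hq hD hS hS' (x₀ := x₀) (d := d) ⟨hd, hiso, hdS, hdS'⟩ hdeg hK hp

end Main

end

end Pool.Agent.YTDA


end

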